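import Pool.Agent.Lib.H1M.PP2.M006

/-! Merged copies (to shorten the build) of Lib.SSG.F.B1, Lib.SSG.F.C1, Lib.SSG.F.C1B, Lib.SSG.F.C4, Lib.SSG.F.C4B, Lib.SSG.F.C7B, Lib.SSG.F.C7, Lib.SSG.F.C2, Lib.SSG.F.C3, Lib.SSG.F.C2B. -/

-- from Lib.SSG.F.B1
section

/-! # SSG/F/B1 : units and cardinalities of the tower. -/

namespace SSF

theorem b1_zmod {p : ℕ} [Fact p.Prime] (N : ℕ) (hN : 1 ≤ N) (a : ZMod (p ^ (N + 1))) :
    IsUnit (ZMod.castHom (pow_dvd_pow p (Nat.le_succ N)) (ZMod (p ^ N)) a) ↔ IsUnit a := by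
  have hp : p.Prime := Fact.out
  have : NeZero (p ^ (N + 1)) := ⟨pow_ne_zero _ hp.ne_zero⟩
  have h1 : a = ((a.val : ℕ) : ZMod (p ^ (N + 1))) := (ZMod.natCast_zmod_val a).symm
  rw [h1, map_natCast, ZMod.isUnit_iff_coprime, ZMod.isUnit_iff_coprime,
    Nat.coprime_pow_right_iff (by omega), Nat.coprime_pow_right_iff (by omega)]

variable {p : ℕ} {R : ℕ → Type} [∀ N, CommRing (R N)] [∀ N, Fintype (R N)]
  {L : Type} [NormedField L] (D : LTD p R L)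

include D

/-- `nm N` is a monoid homomorphism; converse `D.nmu`. -/
theorem isUnit_iff (N : ℕ) (x : R N) : IsUnit x ↔ IsUnit (D.nm N x) :=
  ⟨fun h => h.map (D.nm N), D.nmu N x⟩

/-- `isUnit_iff`, `D.nmred`, and: for `N ≥ 1` an element of `ZMod (p ^ (N+1))` is a unit iff its
image in `ZMod (p ^ N)` is one (write it as a natural number; `ZMod.isUnit_iff_coprime`,
`Nat.Coprime.pow_right`: both mean coprime to `p`). -/
theorem isUnit_red [Fact p.Prime] (N : ℕ) (hN : 1 ≤ N) (x : R (N + 1)) :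
    IsUnit (D.red N x) ↔ IsUnit x := by
  rw [isUnit_iff D N, isUnit_iff D (N + 1), ← D.nmred, b1_zmod N hN]

/-- every fibre of `red` has `p ^ 2 ≠ 0` elements (`D.fib`). -/
theorem red_surj [Fact p.Prime] (N : ℕ) : Function.Surjective (D.red N) := by
  have hp : p.Prime := Fact.out
  intro y
  have h := D.fib N y
  by_contra hne
  push Not at hne
  have : IsEmpty {x : R (N + 1) // D.red N x = y} := ⟨fun x => hne x.1 x.2⟩
  rw [Nat.card_of_isEmpty] at h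
  exact (pow_ne_zero 2 hp.ne_zero) h.symm

/-- cardinality of a set over a subset -/
theorem b1_card (N : ℕ) (P : R N → Prop) :
    Nat.card {x : R (N + 1) // P (D.red N x)} = Nat.card {y : R N // P y} * p ^ 2 := by
  classical
  have e : {x : R (N + 1) // P (D.red N x)} ≃
      Σ y : {y : R N // P y}, {x : R (N + 1) // D.red N x = y.1} :=
    { toFun := fun x => ⟨⟨D.red N x.1, x.2⟩, ⟨x.1, rfl⟩⟩
      invFun := fun s => ⟨s.2.1, by rw [s.2.2]; exact s.1.2⟩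
      left_inv := fun x => rfl
      right_inv := by
        rintro ⟨⟨y, hy⟩, ⟨x, hx⟩⟩
        obtain rfl : D.red N x = y := hx
        rfl }
  rw [Nat.card_congr e, Nat.card_sigma]
  simp only [D.fib]
  rw [Finset.sum_const, Finset.card_univ, smul_eq_mul, Nat.card_eq_fintype_card]

/-- induction on `N`: `D.card0`; `card (R (N+1))` = sum over `y : R N` of the cardinality of the
fibre (`Fintype.card_congr (Equiv.sigmaFiberEquiv _).symm`, `D.fib`). -/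
theorem card_R (N : ℕ) : Nat.card (R N) = p ^ (2 * N) := by
  induction N with
  | zero => rw [D.card0]; simp
  | succ N ih =>
    have h := b1_card D N (fun _ => True)
    have e1 : Nat.card {x : R (N + 1) // True} = Nat.card (R (N + 1)) :=
      Nat.card_congr (Equiv.subtypeUnivEquiv fun _ => trivial)
    have e2 : Nat.card {x : R N // True} = Nat.card (R N) :=
      Nat.card_congr (Equiv.subtypeUnivEquiv fun _ => trivial)
    rw [e1, e2, ih] at h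
    rw [h, ← pow_add]
    congr 1

/-- induction on `N`, start `D.card1`; the units of `R (N+2)` are the elements over the units of
`R (N+1)` (`isUnit_red`), and every fibre has `p ^ 2` elements. -/
theorem card_units [Fact p.Prime] (N : ℕ) :
    Nat.card {x : R (N + 1) // IsUnit x} = p ^ (2 * N) * (p ^ 2 - 1) := by
  induction N with
  | zero => rw [D.card1]; simp
  | succ N ih =>
    have h := b1_card D (N + 1) (fun y => IsUnit y)
    have e1 : Nat.card {x : R (N + 1 + 1) // IsUnit (D.red (N + 1) x)} =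
        Nat.card {x : R (N + 1 + 1) // IsUnit x} :=
      Nat.card_congr (Equiv.subtypeEquivRight fun x => isUnit_red D (N + 1) (by omega) x)
    rw [e1, ih] at h
    rw [h, show 2 * (N + 1) = 2 * N + 2 by ring, pow_add]
    ring

/-- `0` is not a unit of `R (N+1)`: `card_R` gives more than one element. -/
theorem not_isUnit_zero [Fact p.Prime] (N : ℕ) : ¬ IsUnit (0 : R (N + 1)) := by
  have hp : p.Prime := Fact.out
  intro h
  have : Subsingleton (R (N + 1)) := isUnit_zero_iff.1 h |> fun h0 => subsingleton_of_zero_eq_one h0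
  have h1 := card_R D (N + 1)
  have h2 : Nat.card (R (N + 1)) = 1 := Nat.card_unique
  rw [h2] at h1
  have h3 : 1 < p ^ (2 * (N + 1)) := Nat.one_lt_pow (by omega) hp.one_lt
  omega

end SSF
end

-- from Lib.SSG.F.C1
section

/-! # SSG/F/C1 : one step of the norm computation -/

namespace SSF

variable {p : ℕ} [Fact p.Prime] {R : ℕ → Type} [∀ N, CommRing (R N)] [∀ N, Fintype (R N)]
  {L : Type} [NormedField L] [IsUltrametricDist L] (D : LTD p R L)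

theorem c1_sub {a b : L} (h : ‖b‖ < ‖a‖) : ‖a - b‖ = ‖a‖ := by
  have h1 : ‖a - b‖ ≤ ‖a‖ := by
    have h2 := IsUltrametricDist.norm_add_le_max a (-b)
    rw [norm_neg, max_eq_left h.le, ← sub_eq_add_neg] at h2
    exact h2
  have h3 : ‖a‖ ≤ ‖a - b‖ := by
    have h2 := IsUltrametricDist.norm_add_le_max (a - b) b
    rw [sub_add_cancel] at h2
    rcases le_max_iff.1 h2 with h4 | h4
    · exact h4
    · exact absurd h (not_lt.2 h4)
  exact le_antisymm h1 h3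

/-- One step: if `y ^ q - p y = s`, `0 < ‖s‖ < 1` and `‖p‖ ^ q < ‖s‖ ^ (q - 1)` then
`‖y‖ < 1` and `‖y‖ ^ q = ‖s‖`. PROOF. If `‖y‖ > 1` then `‖y^q‖ > ‖p y‖`, so `‖s‖ = ‖y‖^q > 1`
(`IsUltrametricDist.norm_add_eq_max_of_norm_ne_norm` / `norm_sub`); if `‖y‖ = 1` then `‖s‖ = 1`.
So `‖y‖ < 1`. If `‖y‖^(q-1) ≤ ‖p‖` then `‖y^q‖ ≤ ‖p‖‖y‖`, so `‖s‖ ≤ ‖p‖ ‖y‖` and
`‖s‖^(q-1) ≤ ‖p‖^(q-1) ‖y‖^(q-1) ≤ ‖p‖^q`, a contradiction. So `‖y^q‖ > ‖p y‖` (`y ≠ 0` as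
`s ≠ 0`) and `‖s‖ = ‖y‖^q`. Here `q = p ^ 2`. -/
theorem norm_step (y s : L) (h : y ^ (p ^ 2) - (p : L) * y = s) (h0 : 0 < ‖s‖) (h1 : ‖s‖ < 1)
    (h2 : ‖(p : L)‖ ^ (p ^ 2) < ‖s‖ ^ (p ^ 2 - 1)) (hp1 : ‖(p : L)‖ < 1) :
    ‖y‖ < 1 ∧ ‖y‖ ^ (p ^ 2) = ‖s‖ := by
  have hpp : 2 ≤ p := (Fact.out : p.Prime).two_le
  have hq : 4 ≤ p ^ 2 := by nlinarith
  obtain ⟨q, hq1⟩ : ∃ q, p ^ 2 = q + 1 := ⟨p ^ 2 - 1, by omega⟩
  have hq2 : 3 ≤ q := by omega
  rw [hq1] at h h2 ⊢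
  rw [Nat.add_sub_cancel] at h2
  have hpy : ‖(p : L) * y‖ = ‖(p : L)‖ * ‖y‖ := norm_mul _ _
  have hyq : ‖y ^ (q + 1)‖ = ‖y‖ ^ (q + 1) := norm_pow _ _
  have hp0 : 0 ≤ ‖(p : L)‖ := norm_nonneg _
  have hy0 : y ≠ 0 := by
    rintro rfl
    rw [zero_pow (by omega), mul_zero, sub_zero] at h
    rw [← h, norm_zero] at h0
    exact lt_irrefl _ h0
  have hyp : 0 < ‖y‖ := norm_pos_iff.2 hy0
  have hy1 : ‖y‖ < 1 := by
    by_contra hcon
    rw [not_lt] at hcon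
    have h3 : ‖(p : L) * y‖ < ‖y ^ (q + 1)‖ := by
      rw [hpy, hyq]
      calc ‖(p : L)‖ * ‖y‖ < 1 * ‖y‖ := mul_lt_mul_of_pos_right hp1 hyp
        _ = ‖y‖ ^ 1 := by rw [one_mul, pow_one]
        _ ≤ ‖y‖ ^ (q + 1) := pow_le_pow_right₀ hcon (by omega)
    have h4 := c1_sub h3
    rw [h, hyq] at h4
    have h5 : 1 ≤ ‖y‖ ^ (q + 1) := one_le_pow₀ hcon
    linarith
  refine ⟨hy1, ?_⟩
  have h3 : ‖(p : L) * y‖ < ‖y ^ (q + 1)‖ := by
    by_contra hcon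
    rw [not_lt, hpy, hyq, pow_succ] at hcon
    have h4 : ‖y‖ ^ q ≤ ‖(p : L)‖ := le_of_mul_le_mul_right hcon hyp
    have h5 : ‖s‖ ≤ ‖(p : L)‖ * ‖y‖ := by
      have h6 := IsUltrametricDist.norm_add_le_max (y ^ (q + 1)) (-((p : L) * y))
      rw [norm_neg, ← sub_eq_add_neg, h, hpy, hyq, pow_succ, max_eq_right hcon] at h6
      exact h6
    have h6 : ‖s‖ ^ q ≤ ‖(p : L)‖ ^ (q + 1) := by
      calc ‖s‖ ^ q ≤ (‖(p : L)‖ * ‖y‖) ^ q := pow_le_pow_left₀ (norm_nonneg _) h5 q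
        _ = ‖(p : L)‖ ^ q * ‖y‖ ^ q := mul_pow _ _ _
        _ ≤ ‖(p : L)‖ ^ q * ‖(p : L)‖ := mul_le_mul_of_nonneg_left h4 (pow_nonneg hp0 q)
        _ = ‖(p : L)‖ ^ (q + 1) := (pow_succ _ _).symm
    exact absurd h2 (not_lt.2 h6)
  have h4 := c1_sub h3
  rw [h, hyq] at h4
  exact h4.symm

end SSF
end

-- from Lib.SSG.F.C1B
section

/-! # SSG/F/C1B : the norm of the torsion coordinates -/

namespace SSF

variable {p : ℕ} [Fact p.Prime] {R : ℕ → Type} [∀ N, CommRing (R N)] [∀ N, Fintype (R N)]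
  {L : Type} [NormedField L] [IsUltrametricDist L] (D : LTD p R L)

include D

theorem c1b_norm_pos : 0 < ‖(p : L)‖ := norm_pos_iff.2 D.hp0

/-- The norm of `X (N+1) x`, `x` a unit. Induction on `N`. `N = 0`: `y = X 1 x ≠ 0` (`D.Xinj`,
`D.X0`, `not_isUnit_zero`), `y^q - p y = X 0 (red x) = 0` (`R 0` has one element, `D.card0`), so
`y ^ (q-1) = p`. Step: `s = X (N+1) (red x)`, `red x` is a unit, `‖s‖^(q^N (q-1)) = ‖p‖`
(`p^(2N) = q^N`), so `0 < ‖s‖ < 1`; and `‖p‖^q < ‖s‖^(q-1)`: otherwise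
`‖p‖ = (‖s‖^(q-1))^(q^N) ≤ ‖p‖^(q^(N+1)) < ‖p‖`. By `norm_step` `‖y‖^q = ‖s‖`, hence
`‖y‖^(q^(N+1)(q-1)) = ‖s‖^(q^N(q-1)) = ‖p‖`. -/
theorem norm_X (N : ℕ) (x : R (N + 1)) (hx : IsUnit x) :
    ‖D.X (N + 1) x‖ ^ (p ^ (2 * N) * (p ^ 2 - 1)) = ‖(p : L)‖ := by
  have hp : p.Prime := Fact.out
  have hq : 2 * 2 ≤ p ^ 2 := by nlinarith [hp.two_le]
  have hpos := c1b_norm_pos D
  induction N with
  | zero =>
    have hy : D.X 1 x ≠ 0 := by
      intro h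
      rw [← D.X0 1] at h
      rw [D.Xinj 1 h] at hx
      exact not_isUnit_zero D 0 hx
    have h0 : Subsingleton (R 0) := (Nat.card_eq_one_iff_unique.1 D.card0).1
    have h1 := D.Xg 0 x
    rw [Subsingleton.elim (D.red 0 x) 0, D.X0, sub_eq_zero] at h1
    have h2 : D.X 1 x ^ (p ^ 2 - 1) = (p : L) := by
      have h3 : D.X 1 x ^ (p ^ 2 - 1) * D.X 1 x = (p : L) * D.X 1 x := by
        rw [← pow_succ, Nat.sub_add_cancel (by omega)]
        exact h1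
      exact mul_right_cancel₀ hy h3
    rw [mul_zero, pow_zero, one_mul, ← norm_pow, h2]
  | succ N ih =>
    have hu : IsUnit (D.red (N + 1) x) := (isUnit_red D (N + 1) (by omega) x).2 hx
    have hs := ih (D.red (N + 1) x) hu
    set s := D.X (N + 1) (D.red (N + 1) x) with hsdef
    have hE : p ^ (2 * N) * (p ^ 2 - 1) ≠ 0 :=
      mul_ne_zero (pow_ne_zero _ hp.ne_zero) (by omega)
    have hs0 : 0 < ‖s‖ := by
      rw [norm_pos_iff]
      intro h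
      rw [h, norm_zero, zero_pow hE] at hs
      rw [← hs] at hpos
      exact lt_irrefl _ hpos
    have hs1 : ‖s‖ < 1 := by
      by_contra h
      have h1 : 1 ≤ ‖s‖ ^ (p ^ (2 * N) * (p ^ 2 - 1)) := one_le_pow₀ (not_lt.1 h)
      rw [hs] at h1
      exact absurd D.hp1 (not_lt.2 h1)
    have hlt : ‖(p : L)‖ ^ (p ^ 2) < ‖s‖ ^ (p ^ 2 - 1) := by
      by_contra h
      have h1 : ‖s‖ ^ (p ^ 2 - 1) ≤ ‖(p : L)‖ ^ (p ^ 2) := not_lt.1 h
      have h2 : (‖s‖ ^ (p ^ 2 - 1)) ^ (p ^ (2 * N)) ≤ (‖(p : L)‖ ^ (p ^ 2)) ^ (p ^ (2 * N)) :=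
        pow_le_pow_left₀ (by positivity) h1 _
      rw [← pow_mul, ← pow_mul, mul_comm (p ^ 2 - 1), hs] at h2
      have h3 : ‖(p : L)‖ ^ (p ^ 2 * p ^ (2 * N)) < ‖(p : L)‖ ^ 1 := by
        apply pow_lt_pow_right_of_lt_one₀ hpos D.hp1
        have h4 : 0 < p ^ (2 * N) := pow_pos hp.pos _
        nlinarith
      rw [pow_one] at h3
      exact absurd h2 (not_le.2 h3)
    have h5 := (norm_step (p := p) (D.X (N + 1 + 1) x) s (D.Xg (N + 1) x) hs0 hs1 hlt D.hp1).2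
    have h6 : p ^ (2 * (N + 1)) * (p ^ 2 - 1) = p ^ 2 * (p ^ (2 * N) * (p ^ 2 - 1)) := by
      rw [show 2 * (N + 1) = 2 + 2 * N by ring, pow_add]
      ring
    rw [h6, pow_mul, h5, hs]


/-- from `norm_X`: `‖X‖^E = ‖p‖ < 1`, `E ≠ 0`. -/
theorem norm_X_lt (N : ℕ) (x : R (N + 1)) (hx : IsUnit x) : ‖D.X (N + 1) x‖ < 1 := by
  by_contra h
  have h1 : 1 ≤ ‖D.X (N + 1) x‖ ^ (p ^ (2 * N) * (p ^ 2 - 1)) := one_le_pow₀ (not_lt.1 h)
  rw [norm_X D N x hx] at h1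
  exact absurd D.hp1 (not_lt.2 h1)


end SSF
end

-- from Lib.SSG.F.C4
section

/-! # SSG/F/C4 : norms in a totally ramified basis -/

open Polynomial

namespace SSF

variable {p : ℕ} {R : ℕ → Type} [∀ N, CommRing (R N)] [∀ N, Fintype (R N)]
  {L : Type} [NormedField L] [IsUltrametricDist L] (D : LTD p R L)

/-- A finite sum of terms with pairwise different norms (where nonzero): the norm is the largest one. -/
theorem c4_sum (f : ℕ → L) (E : ℕ) (hne : ∀ i < E, ∀ j < E, i ≠ j → f i ≠ 0 → f j ≠ 0 → ‖f i‖ ≠ ‖f j‖) :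
    ∀ i < E, ‖f i‖ ≤ ‖∑ j ∈ Finset.range E, f j‖ := by
  intro i hi
  -- the index with the largest norm
  obtain ⟨m, hm, hmax⟩ := Finset.exists_max_image (Finset.range E) (fun j => ‖f j‖) ⟨i, Finset.mem_range.2 hi⟩
  have hmE := Finset.mem_range.1 hm
  refine (hmax i (Finset.mem_range.2 hi)).trans ?_
  by_cases h0 : f m = 0
  · rw [h0, norm_zero]; exact norm_nonneg _
  have hrest : ‖∑ j ∈ (Finset.range E).erase m, f j‖ < ‖f m‖ := by
    have hmp : 0 < ‖f m‖ := norm_pos_iff.2 h0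
    by_cases hemp : ((Finset.range E).erase m).Nonempty
    · obtain ⟨j, hj, hj'⟩ := IsUltrametricDist.exists_norm_finsetSum_le_of_nonempty hemp f
      refine hj'.trans_lt ?_
      have hjE := Finset.mem_range.1 (Finset.mem_of_mem_erase hj)
      have hjm : j ≠ m := Finset.ne_of_mem_erase hj
      by_cases hj0 : f j = 0
      · rw [hj0, norm_zero]; exact hmp
      · exact lt_of_le_of_ne (hmax j (Finset.mem_range.2 hjE)) (hne j hjE m hmE hjm hj0 h0)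
    · rw [Finset.not_nonempty_iff_eq_empty.1 hemp, Finset.sum_empty, norm_zero]
      exact hmp
  rw [← Finset.add_sum_erase _ _ hm, IsUltrametricDist.norm_add_eq_max_of_norm_ne_norm hrest.ne']
  exact le_max_left _ _

/-- If `‖y‖ ^ E = ‖p‖` and `a i` are in `k`, the nonzero terms of `sum_(j<E) a_j y^j` have
pairwise different norms, so the norm of the sum is the maximum of the norms of the terms.
PROOF. `‖a_j‖ = ‖p‖^(n_j) = ‖y‖^(E n_j)` (`D.kval`), so `‖a_j y^j‖ = ‖y‖^(E n_j + j)` (zpow) and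
`0 < ‖y‖ < 1` (its `E`-th power is `‖p‖`, `0 < ‖p‖ < 1`), so equal norms for `i ≠ j < E` would
give `E n_i + i = E n_j + j`, impossible modulo `E`. A finite sum of terms with pairwise different
nonzero norms (or zero terms) has as norm the maximum: induction on the number of terms, or choose
`i0` with the largest norm: all other terms have smaller norm, so the rest has smaller norm
(`IsUltrametricDist.norm_sum_le..` / `exists_norm_finset_sum_le`), and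
`‖a + b‖ = ‖a‖` if `‖b‖ < ‖a‖`. -/
theorem basis_norm (y : L) (E : ℕ) (hE : 0 < E) (hy : ‖y‖ ^ E = ‖(p : L)‖) (a : ℕ → L)
    (ha : ∀ i, a i ∈ D.k) :
    (∀ i < E, ‖a i‖ * ‖y‖ ^ i ≤ ‖∑ j ∈ Finset.range E, a j * y ^ j‖) ∧
      ∃ i < E, ‖∑ j ∈ Finset.range E, a j * y ^ j‖ = ‖a i‖ * ‖y‖ ^ i := by
  have hp0 : 0 < ‖(p : L)‖ := norm_pos_iff.2 D.hp0
  have hy0 : 0 < ‖y‖ := by
    rcases (norm_nonneg y).eq_or_lt with h | h
    · rw [← h, zero_pow hE.ne'] at hy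
      exact absurd hy hp0.ne
    · exact h
  have hy1 : ‖y‖ < 1 := by
    by_contra hc
    have h1 : 1 ≤ ‖y‖ ^ E := one_le_pow₀ (not_lt.1 hc)
    rw [hy] at h1
    exact absurd D.hp1 (not_lt.2 h1)
  have key : ∀ i < E, ∀ j < E, i ≠ j → a i * y ^ i ≠ 0 → a j * y ^ j ≠ 0 →
      ‖a i * y ^ i‖ ≠ ‖a j * y ^ j‖ := by
    intro i hi j hj hij h1 h2 h3
    have ai : a i ≠ 0 := left_ne_zero_of_mul h1
    have aj : a j ≠ 0 := left_ne_zero_of_mul h2
    obtain ⟨n, hn⟩ := D.kval _ (ha i) ai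
    obtain ⟨m, hm⟩ := D.kval _ (ha j) aj
    rw [norm_mul, norm_mul, norm_pow, norm_pow, hn, hm, ← hy, ← zpow_natCast, ← zpow_mul, ← zpow_mul,
      ← zpow_natCast, ← zpow_natCast, ← zpow_add₀ hy0.ne', ← zpow_add₀ hy0.ne'] at h3
    have h4 := zpow_right_injective₀ hy0 hy1.ne h3
    have h5 : ((E : ℤ)) ∣ (i : ℤ) - j := ⟨m - n, by linarith⟩
    have h6 := Int.eq_zero_of_abs_lt_dvd h5 (by rw [abs_lt]; constructor <;> omega)
    omega
  have hmain := c4_sum (fun j => a j * y ^ j) E key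
  have hmain' : ∀ i < E, ‖a i‖ * ‖y‖ ^ i ≤ ‖∑ j ∈ Finset.range E, a j * y ^ j‖ := by
    intro i hi
    have := hmain i hi
    rwa [norm_mul, norm_pow] at this
  refine ⟨hmain', ?_⟩
  obtain ⟨i, hi, hi'⟩ := IsUltrametricDist.exists_norm_finsetSum_le_of_nonempty
    (t := Finset.range E) ⟨0, Finset.mem_range.2 hE⟩ (fun j => a j * y ^ j)
  refine ⟨i, Finset.mem_range.1 hi, le_antisymm ?_ (hmain' i (Finset.mem_range.1 hi))⟩
  rwa [norm_mul, norm_pow] at hi'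

end SSF
end

-- from Lib.SSG.F.C4B
section

/-! # SSG/F/C4B : integrality in a totally ramified basis -/

open Polynomial

namespace SSF

variable {p : ℕ} {R : ℕ → Type} [∀ N, CommRing (R N)] [∀ N, Fintype (R N)]
  {L : Type} [NormedField L] [IsUltrametricDist L] (D : LTD p R L)

include D in
theorem c4b_y (y : L) (E : ℕ) (hE : 0 < E) (hy : ‖y‖ ^ E = ‖(p : L)‖) : 0 < ‖y‖ ∧ ‖y‖ < 1 := by
  have hp0 : 0 < ‖(p : L)‖ := norm_pos_iff.2 D.hp0
  constructor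
  · rcases (norm_nonneg y).eq_or_lt with h | h
    · rw [← h, zero_pow hE.ne'] at hy
      exact absurd hy hp0.ne
    · exact h
  · by_contra hc
    have h1 : 1 ≤ ‖y‖ ^ E := one_le_pow₀ (not_lt.1 hc)
    rw [hy] at h1
    exact absurd D.hp1 (not_lt.2 h1)

/-- If moreover the sum has norm `≤ 1` then all `a i`, `i < E`, have norm `≤ 1`. PROOF.
`‖a_i‖ ≤ ‖y‖^(-i)` and `‖y‖^(-i) < ‖y‖^(-E) = ‖p‖⁻¹`; `‖a_i‖` is a power `‖p‖^n` (or `0`), so
`n > -1`, `n ≥ 0`. -/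
theorem basis_int (y : L) (E : ℕ) (hE : 0 < E) (hy : ‖y‖ ^ E = ‖(p : L)‖) (a : ℕ → L)
    (ha : ∀ i, a i ∈ D.k) (h : ‖∑ j ∈ Finset.range E, a j * y ^ j‖ ≤ 1) (i : ℕ) (hi : i < E) :
    ‖a i‖ ≤ 1 := by
  have hp0 : 0 < ‖(p : L)‖ := norm_pos_iff.2 D.hp0
  obtain ⟨hy0, hy1⟩ := c4b_y D y E hE hy
  by_cases h0 : a i = 0
  · rw [h0, norm_zero]; exact zero_le_one
  obtain ⟨n, hn⟩ := D.kval _ (ha i) h0
  have h1 := ((basis_norm D y E hE hy a ha).1 i hi).trans h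
  -- `‖p‖ ^ (n + 1) < 1`
  have h2 : ‖(p : L)‖ ^ (n + 1) < 1 := by
    rw [zpow_add₀ hp0.ne', zpow_one, ← hn, ← hy]
    calc ‖a i‖ * ‖y‖ ^ E < ‖a i‖ * ‖y‖ ^ i :=
          mul_lt_mul_of_pos_left (pow_lt_pow_right_of_lt_one₀ hy0 hy1 hi) (norm_pos_iff.2 h0)
      _ ≤ 1 := h1
  have h3 : 0 < n + 1 := by
    by_contra hc
    have : 1 ≤ ‖(p : L)‖ ^ (n + 1) := one_le_zpow_of_nonpos₀ hp0 D.hp1.le (not_lt.1 hc)
    exact absurd h2 (not_lt.2 this)
  rw [hn]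
  obtain ⟨m, rfl⟩ := Int.eq_ofNat_of_zero_le (show 0 ≤ n by omega)
  rw [zpow_natCast]
  exact pow_le_one₀ hp0.le D.hp1.le

/-- If the sum has norm `≤ ‖p‖` then all `a i`, `i < E`, have norm `< 1`: `‖a_i‖ ‖y‖^i ≤ ‖y‖^E`,
so `‖a_i‖ ≤ ‖y‖^(E-i) < 1`. -/
theorem basis_small (y : L) (E : ℕ) (hE : 0 < E) (hy : ‖y‖ ^ E = ‖(p : L)‖) (a : ℕ → L)
    (ha : ∀ i, a i ∈ D.k) (h : ‖∑ j ∈ Finset.range E, a j * y ^ j‖ ≤ ‖(p : L)‖) (i : ℕ)
    (hi : i < E) : ‖a i‖ < 1 := by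
  obtain ⟨hy0, hy1⟩ := c4b_y D y E hE hy
  have h1 := ((basis_norm D y E hE hy a ha).1 i hi).trans h
  rw [← hy] at h1
  by_contra hc
  have h2 : ‖y‖ ^ i ≤ ‖a i‖ * ‖y‖ ^ i := le_mul_of_one_le_left (pow_nonneg hy0.le _) (not_lt.1 hc)
  have h3 : ‖y‖ ^ E < ‖y‖ ^ i := pow_lt_pow_right_of_lt_one₀ hy0 hy1 hi
  linarith

end SSF
end

-- from Lib.SSG.F.C7B
section

/-! # SSG/F/C7B : lifting to `W` -/

open Polynomial

namespace SSF

variable {p : ℕ} [Fact p.Prime] {R : ℕ → Type} [∀ N, CommRing (R N)] [∀ N, Fintype (R N)]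
  {L : Type} [NormedField L] [IsUltrametricDist L] (D : LTD p R L)

/-- A polynomial of degree `< E` with coefficients in `k` whose value at `y` (`‖y‖^E = ‖p‖`) has
norm `≤ 1` has coefficients in `W` (`basis_int`), so it comes from `D.W[X]`
(`Polynomial.sum_over_range'`, define the polynomial over `W` by its coefficients, or
`Polynomial.toSubring`/`Polynomial.lifts`). -/
theorem lift_W (P : L[X]) (E : ℕ) (hE : 0 < E) (hd : P.degree < E) (hk : ∀ i, P.coeff i ∈ D.k)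
    (y : L) (hy : ‖y‖ ^ E = ‖(p : L)‖) (h1 : ‖P.eval y‖ ≤ 1) :
    ∃ B : D.W[X], B.map D.W.subtype = P ∧ B.natDegree < E := by
  have hnd : P.natDegree < E := by
    by_cases h0 : P = 0
    · rw [h0, natDegree_zero]; exact hE
    · exact (natDegree_lt_iff_degree_lt h0).2 hd
  have hev : P.eval y = ∑ j ∈ Finset.range E, P.coeff j * y ^ j := eval_eq_sum_range' hnd y
  rw [hev] at h1
  have hc : ∀ i, P.coeff i ∈ D.W := by
    intro i
    refine ⟨hk i, ?_⟩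
    by_cases hi : i < E
    · exact basis_int D y E hE hy P.coeff hk h1 i hi
    · rw [coeff_eq_zero_of_natDegree_lt (by omega), norm_zero]
      exact zero_le_one
  have hsub : (↑P.coeffs : Set L) ⊆ D.W := by
    intro c hc'
    obtain ⟨n, -, rfl⟩ := mem_coeffs_iff.1 hc'
    exact hc n
  refine ⟨P.toSubring D.W hsub, map_toSubring P D.W hsub, ?_⟩
  rw [natDegree_toSubring]
  exact hnd

end SSF
end

-- from Lib.SSG.F.C7
section

/-! # SSG/F/C7 : interpolation with coefficients in `k` -/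

open Polynomial

namespace SSF

variable {p : ℕ} [Fact p.Prime] {R : ℕ → Type} [∀ N, CommRing (R N)] [∀ N, Fintype (R N)]
  {L : Type} [NormedField L] [IsUltrametricDist L] (D : LTD p R L)

omit [Fact p.Prime] in
/-- Interpolation. PROOF. `P = Lagrange.interpolate univ y f` (`degree < card V`,
`Lagrange.degree_interpolate_lt`, `eval_interpolate_at_node`). For `σ ∈ G` the polynomial
`P.map σ` takes at `y (π v) = σ (y v)` the value `σ (P (y v)) = σ (f v) = f (π v)`; `π` is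
surjective, so `P.map σ` and `P` agree at all `card V` points and have degree `< card V`:
equal (`Polynomial.eq_of_degrees_lt_of_eval_index_eq`). So all coefficients are fixed by `G`:
in `k` (`D.gfix`). -/
theorem interp (V : Type) [Fintype V] (y f : V → L) (hy : Function.Injective y)
    (hσ : ∀ σ ∈ D.G, ∃ π : V → V, Function.Surjective π ∧ (∀ v, σ (y v) = y (π v)) ∧
      ∀ v, σ (f v) = f (π v)) :
    ∃ P : L[X], P.degree < Fintype.card V ∧ (∀ i, P.coeff i ∈ D.k) ∧ ∀ v, P.eval (y v) = f v := by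
  classical
  have hinj : Set.InjOn y (↑(Finset.univ : Finset V) : Set V) := hy.injOn
  set P : L[X] := Lagrange.interpolate Finset.univ y f with hP
  have hdeg : P.degree < (Fintype.card V : WithBot ℕ) := by
    have := Lagrange.degree_interpolate_lt (r := f) hinj
    rwa [Finset.card_univ] at this
  have hev : ∀ v, P.eval (y v) = f v := fun v =>
    Lagrange.eval_interpolate_at_node (r := f) hinj (Finset.mem_univ v)
  refine ⟨P, hdeg, ?_, hev⟩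
  intro i
  apply D.gfix
  intro σ hs
  obtain ⟨π, hπ, h1, h2⟩ := hσ σ hs
  have hmap : P.map (σ : L →+* L) = P := by
    apply Polynomial.eq_of_degrees_lt_of_eval_index_eq (v := y) Finset.univ hinj
    · rw [Polynomial.degree_map, Finset.card_univ]
      exact hdeg
    · rw [Finset.card_univ]
      exact hdeg
    · intro w _
      obtain ⟨v, rfl⟩ := hπ w
      rw [hev, ← h1 v, ← h2 v]
      have : (P.map (σ : L →+* L)).eval ((σ : L →+* L) (y v)) = (σ : L →+* L) (P.eval (y v)) :=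
        Polynomial.eval_map_apply _ _ 
      rw [hev] at this
      exact this
  have := congrArg (fun Q : L[X] => Q.coeff i) hmap
  simp only [Polynomial.coeff_map] at this
  exact this

end SSF
end

-- from Lib.SSG.F.C2
section

/-! # SSG/F/C2 : the norm of `z - 1` -/

namespace SSF

variable {p : ℕ} [Fact p.Prime] {L : Type} [NormedField L] [IsUltrametricDist L]

/-- `‖z ^ a - 1‖ ≤ ‖z - 1‖` if `‖z‖ = 1` (`z^a - 1 = (z-1)(1 + z + .. + z^(a-1))`,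
`mul_geom_sum`, ultrametric bound of the sum by `1`). -/
theorem norm_pow_sub_one_le (z : L) (hz : ‖z‖ = 1) (a : ℕ) : ‖z ^ a - 1‖ ≤ ‖z - 1‖ := by
  induction a with
  | zero => simp
  | succ a ih =>
    have e : z ^ (a + 1) - 1 = z ^ a * (z - 1) + (z ^ a - 1) := by ring
    rw [e]
    refine (IsUltrametricDist.norm_add_le_max _ _).trans (max_le ?_ ih)
    rw [norm_mul, norm_pow, hz, one_pow, one_mul]

/-- a root of unity has norm one (`z ^ m = 1`, `m ≠ 0`: `‖z‖ ^ m = 1`). -/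
theorem norm_root (z : L) (m : ℕ) (hm : m ≠ 0) (hz : z ^ m = 1) : ‖z‖ = 1 := by
  have h1 : ‖z‖ ^ m = 1 := by rw [← norm_pow, hz, norm_one]
  exact (pow_eq_one_iff_of_nonneg (norm_nonneg z) hm).1 h1

/-- `‖z - 1‖ ^ (p^n (p-1)) = ‖p‖` for a primitive `p ^ (n+1)`-th root of unity. PROOF.
`Polynomial.eval_one_cyclotomic_prime_pow` : `eval 1 (cyclotomic (p^(n+1)) L) = p`, and
`cyclotomic = prod over primitive roots μ of (X - C μ)` (`Polynomial.cyclotomic_eq_prod_X_sub_primitiveRoots`),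
so `p = prod (1 - μ)`. Every primitive root `μ` is `z ^ a` and `z = μ ^ b`
(`IsPrimitiveRoot.eq_pow_of_pow_eq_one`), hence `‖1 - μ‖ = ‖z - 1‖` by `norm_pow_sub_one_le`
twice; their number is `φ(p^(n+1)) = p^n (p-1)` (`IsPrimitiveRoot.card_primitiveRoots`,
`Nat.totient_prime_pow_succ`). -/
theorem norm_prim (n : ℕ) (z : L) (hz : IsPrimitiveRoot z (p ^ (n + 1))) :
    ‖z - 1‖ ^ (p ^ n * (p - 1)) = ‖(p : L)‖ := by
  have hp : p.Prime := Fact.out
  have hpos : 0 < p ^ (n + 1) := pow_pos hp.pos _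
  have h1 : Polynomial.eval 1 (Polynomial.cyclotomic (p ^ (n + 1)) L) = (p : L) :=
    Polynomial.eval_one_cyclotomic_prime_pow n
  have h2 := Polynomial.cyclotomic_eq_prod_X_sub_primitiveRoots hz
  rw [h2, Polynomial.eval_prod] at h1
  have h3 : ∀ μ ∈ primitiveRoots (p ^ (n + 1)) L, ‖Polynomial.eval 1 (Polynomial.X - Polynomial.C μ)‖ = ‖z - 1‖ := by
    intro μ hμ
    have hμ' : IsPrimitiveRoot μ (p ^ (n + 1)) := (mem_primitiveRoots hpos).1 hμ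
    have n1 : ‖z‖ = 1 := norm_root z _ hpos.ne' hz.pow_eq_one
    have n2 : ‖μ‖ = 1 := norm_root μ _ hpos.ne' hμ'.pow_eq_one
    haveI : NeZero (p ^ (n + 1)) := ⟨hpos.ne'⟩
    obtain ⟨i, -, hi⟩ := hz.eq_pow_of_pow_eq_one hμ'.pow_eq_one
    obtain ⟨j, -, hj⟩ := hμ'.eq_pow_of_pow_eq_one hz.pow_eq_one
    have e1 : ‖μ - 1‖ ≤ ‖z - 1‖ := by rw [← hi]; exact norm_pow_sub_one_le z n1 i
    have e2 : ‖z - 1‖ ≤ ‖μ - 1‖ := by
      conv_lhs => rw [← hj]
      exact norm_pow_sub_one_le μ n2 j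
    rw [Polynomial.eval_sub, Polynomial.eval_X, Polynomial.eval_C, norm_sub_rev]
    exact le_antisymm e1 e2
  have h4 : ‖∏ μ ∈ primitiveRoots (p ^ (n + 1)) L, Polynomial.eval 1 (Polynomial.X - Polynomial.C μ)‖
      = ‖z - 1‖ ^ (p ^ n * (p - 1)) := by
    rw [norm_prod, Finset.prod_congr rfl h3, Finset.prod_const, hz.card_primitiveRoots,
      Nat.totient_prime_pow_succ hp]
  rw [← h4, h1]

end SSF
end

-- from Lib.SSG.F.C3
section

/-! # SSG/F/C3 : the elements `φ_n = ζ_n - 1`. -/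

namespace SSF

variable {p : ℕ} [Fact p.Prime] {R : ℕ → Type} [∀ N, CommRing (R N)] [∀ N, Fintype (R N)]
  {L : Type} [NormedField L] [IsUltrametricDist L] (D : LTD p R L)

/-- `(x + 1)^p = 1 + x^p` up to `p x`. -/
theorem c3_binom (x : L) (hx : ‖x‖ ≤ 1) :
    ‖(x + 1) ^ p - 1 - x ^ p‖ ≤ ‖(p : L)‖ * ‖x‖ := by
  have hp : p.Prime := Fact.out
  have h2 : 2 ≤ p := hp.two_le
  have e : (x + 1) ^ p - 1 - x ^ p = ∑ m ∈ Finset.Ico 1 p, x ^ m * (p.choose m : L) := by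
    rw [add_pow, Finset.sum_range_succ, Finset.range_eq_Ico,
      Finset.sum_eq_sum_Ico_succ_bot (show 0 < p by omega)]
    simp only [one_pow, mul_one, pow_zero, zero_add, Nat.choose_zero_right,
      Nat.choose_self, Nat.cast_one]
    ring
  rw [e]
  refine IsUltrametricDist.norm_sum_le_of_forall_le_of_nonneg (by positivity) ?_
  intro m hm
  obtain ⟨hm1, hm2⟩ := Finset.mem_Ico.1 hm
  obtain ⟨c, hc⟩ := hp.dvd_choose_self (by omega : m ≠ 0) hm2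
  rw [hc, Nat.cast_mul, norm_mul, norm_mul, norm_pow]
  have e1 : ‖(c : L)‖ ≤ 1 := IsUltrametricDist.norm_natCast_le_one L c
  have e2 : ‖x‖ ^ m ≤ ‖x‖ := by
    calc ‖x‖ ^ m ≤ ‖x‖ ^ 1 := pow_le_pow_of_le_one (norm_nonneg _) hx hm1
      _ = ‖x‖ := pow_one _
  calc ‖x‖ ^ m * (‖(p : L)‖ * ‖(c : L)‖) ≤ ‖x‖ * (‖(p : L)‖ * 1) := by gcongr
    _ = ‖(p : L)‖ * ‖x‖ := by ring

/-- `norm_prim` for `ζ n` (`n - 1 + 1 = n`). -/
theorem c3_phi_e (n : ℕ) (hn : 1 ≤ n) : ‖D.ζ n - 1‖ ^ (p ^ (n - 1) * (p - 1)) = ‖(p : L)‖ := by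
  obtain ⟨m, rfl⟩ : ∃ m, n = m + 1 := ⟨n - 1, by omega⟩
  rw [Nat.add_sub_cancel]
  exact norm_prim m _ (D.ζprim (m + 1))

/-- `0 < ‖φ_n‖ < 1` for `n ≥ 1`. (`norm_prim`, `D.hp0`, `D.hp1`, write `n = m + 1`.) -/
theorem phi_pos (n : ℕ) (hn : 1 ≤ n) : 0 < ‖D.ζ n - 1‖ ∧ ‖D.ζ n - 1‖ < 1 := by
  have hp : p.Prime := Fact.out
  have h2 : 2 ≤ p := hp.two_le
  have h1 := c3_phi_e D n hn
  have hp0' : 0 < ‖(p : L)‖ := norm_pos_iff.2 D.hp0
  have hE : p ^ (n - 1) * (p - 1) ≠ 0 := (mul_pos (pow_pos hp.pos _) (by omega)).ne'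
  constructor
  · rcases (norm_nonneg (D.ζ n - 1)).eq_or_lt with h | h
    · rw [← h, zero_pow hE] at h1
      exact absurd h1 hp0'.ne
    · exact h
  · by_contra hc
    have h3 := one_le_pow₀ (n := p ^ (n - 1) * (p - 1)) (not_lt.1 hc)
    rw [h1] at h3
    exact absurd D.hp1 (not_lt.2 h3)

/-- `norm_prim` for `ζ n` (`n - 1 + 1 = n`). -/
theorem phi_e (n : ℕ) (hn : 1 ≤ n) : ‖D.ζ n - 1‖ ^ (p ^ (n - 1) * (p - 1)) = ‖(p : L)‖ :=
  c3_phi_e D n hn

/-- `φ_n ≈ φ_(n+1)^p`. PROOF. `1 + φ_n = (1 + φ_(n+1))^p`, so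
`φ_n - φ_(n+1)^p = sum_(0<j<p) binom(p,j) φ_(n+1)^j`, of norm `≤ ‖p‖ ‖φ_(n+1)‖`, and
`‖p‖ = ‖φ_(n+1)‖^(p^n(p-1))` with `p^n (p-1) + 1 > p` (`n ≥ 1`). -/
theorem phi_step (n : ℕ) (hn : 1 ≤ n) :
    ‖(D.ζ n - 1) - (D.ζ (n + 1) - 1) ^ p‖ < ‖D.ζ (n + 1) - 1‖ ^ p := by
  have hp : p.Prime := Fact.out
  have h2 : 2 ≤ p := hp.two_le
  obtain ⟨h0, h1⟩ := phi_pos D (n + 1) (by omega)
  have he := phi_e D (n + 1) (by omega)
  rw [Nat.add_sub_cancel] at he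
  have hb := c3_binom (p := p) (D.ζ (n + 1) - 1) h1.le
  rw [sub_add_cancel, D.ζp n, ← he] at hb
  refine hb.trans_lt ?_
  rw [← pow_succ]
  refine pow_lt_pow_right_of_lt_one₀ h0 h1 ?_
  have h3 : 2 ≤ p ^ n := by
    calc 2 ≤ p := h2
      _ = p ^ 1 := (pow_one p).symm
      _ ≤ p ^ n := Nat.pow_le_pow_right hp.pos hn
  have h4 : 1 ≤ p - 1 := by omega
  calc p < 2 * (p - 1) + 1 := by omega
    _ ≤ p ^ n * (p - 1) + 1 := by gcongr

/-- from `phi_step` (`‖a - b‖ < ‖b‖` implies `‖a‖ = ‖b‖`). -/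
theorem phi_norm_succ (n : ℕ) (hn : 1 ≤ n) : ‖D.ζ n - 1‖ = ‖D.ζ (n + 1) - 1‖ ^ p := by
  have h1 := phi_step D n hn
  rw [← norm_pow] at h1
  have h2 : D.ζ n - 1 = ((D.ζ n - 1) - (D.ζ (n + 1) - 1) ^ p) + (D.ζ (n + 1) - 1) ^ p := by ring
  rw [h2, IsUltrametricDist.norm_add_eq_max_of_norm_ne_norm h1.ne, max_eq_right h1.le, norm_pow]

/-- `φ_n^m ≈ φ_(n+1)^(p m)`: induction on `m` with `phi_step`, `phi_norm_succ`
(`a^(m+1) - b^(m+1) = a (a^m - b^m) + (a - b) b^m`; for `m = 0` it is `0 < 1`). -/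
theorem phi_pow (n m : ℕ) (hn : 1 ≤ n) :
    ‖(D.ζ n - 1) ^ m - (D.ζ (n + 1) - 1) ^ (p * m)‖ < ‖D.ζ (n + 1) - 1‖ ^ (p * m) := by
  obtain ⟨h0, -⟩ := phi_pos D (n + 1) (by omega)
  induction m with
  | zero => simp
  | succ m ih =>
    have hs := phi_step D n hn
    have hn' := phi_norm_succ D n hn
    obtain ⟨a, ha⟩ : ∃ a : L, a = D.ζ n - 1 := ⟨_, rfl⟩
    obtain ⟨b, hb⟩ : ∃ b : L, b = (D.ζ (n + 1) - 1) := ⟨_, rfl⟩
    rw [← ha, ← hb] at hs ih ⊢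
    rw [← ha, ← hb] at hn'
    rw [← hb] at h0
    have e : a ^ (m + 1) - b ^ (p * (m + 1)) = a * (a ^ m - b ^ (p * m)) + (a - b ^ p) * b ^ (p * m) := by
      rw [mul_add, mul_one, pow_add]
      ring
    rw [e]
    refine (IsUltrametricDist.norm_add_le_max _ _).trans_lt (max_lt ?_ ?_)
    · rw [norm_mul, hn', mul_add, mul_one, pow_add, mul_comm]
      exact mul_lt_mul_of_pos_right ih (pow_pos h0 _)
    · rw [norm_mul, norm_pow, mul_add, mul_one, pow_add, mul_comm]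
      exact mul_lt_mul_of_pos_left hs (pow_pos h0 _)

end SSF
end

-- from Lib.SSG.F.C2B
section

/-! # SSG/F/C2B : `(z - 1)^(p-1)` for a primitive `p`-th root of unity -/

namespace SSF

variable {p : ℕ} [Fact p.Prime] {L : Type} [NormedField L] [IsUltrametricDist L]

/-- The binomial formula up to the middle terms. -/
theorem c2b_binom (x : L) (hx : ‖x‖ ≤ 1) :
    ‖(x + 1) ^ p - 1 - (p : L) * x - x ^ p‖ ≤ ‖(p : L)‖ * ‖x‖ ^ 2 := by
  have hp : p.Prime := Fact.out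
  have h2 : 2 ≤ p := hp.two_le
  have e : (x + 1) ^ p - 1 - (p : L) * x - x ^ p = ∑ m ∈ Finset.Ico 2 p, x ^ m * (p.choose m : L) := by
    rw [add_pow, Finset.sum_range_succ, Finset.range_eq_Ico,
      Finset.sum_eq_sum_Ico_succ_bot (show 0 < p by omega),
      Finset.sum_eq_sum_Ico_succ_bot (show 0 + 1 < p by omega)]
    simp only [one_pow, mul_one, pow_zero, zero_add, pow_one, Nat.choose_zero_right, Nat.choose_one_right,
      Nat.choose_self, Nat.cast_one]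
    ring
  rw [e]
  refine IsUltrametricDist.norm_sum_le_of_forall_le_of_nonneg (by positivity) ?_
  intro m hm
  obtain ⟨hm1, hm2⟩ := Finset.mem_Ico.1 hm
  obtain ⟨c, hc⟩ := hp.dvd_choose_self (by omega : m ≠ 0) hm2
  rw [hc, Nat.cast_mul, norm_mul, norm_mul, norm_pow]
  have e1 : ‖(c : L)‖ ≤ 1 := IsUltrametricDist.norm_natCast_le_one L c
  have e2 : ‖x‖ ^ m ≤ ‖x‖ ^ 2 := pow_le_pow_of_le_one (norm_nonneg _) hx hm1
  calc ‖x‖ ^ m * (‖(p : L)‖ * ‖(c : L)‖) ≤ ‖x‖ ^ 2 * (‖(p : L)‖ * 1) := by gcongr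
    _ = ‖(p : L)‖ * ‖x‖ ^ 2 := by ring

/-- `(z - 1)^(p-1) = - p` up to smaller terms. PROOF. Put `φ = z - 1 ≠ 0`. `(1 + φ)^p = 1` gives
`sum_(j=1)^p binom(p,j) φ^j = 0`; divide by `φ`: `φ^(p-1) + p + sum_(j=2)^(p-1) binom(p,j) φ^(j-1) = 0`
and the middle terms have norm `≤ ‖p‖ ‖φ‖ < ‖p‖` (`p ∣ binom(p,j)`, `‖φ‖ < 1` by
`norm_prim`). -/
theorem prim_one (z : L) (hz : IsPrimitiveRoot z p) (hp0 : (p : L) ≠ 0) (hp1 : ‖(p : L)‖ < 1) :
    ‖(z - 1) ^ (p - 1) + (p : L)‖ < ‖(p : L)‖ := by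
  have hp : p.Prime := Fact.out
  have h2 : 2 ≤ p := hp.two_le
  have hp0' : 0 < ‖(p : L)‖ := norm_pos_iff.2 hp0
  obtain ⟨φ, hφ⟩ : ∃ φ : L, φ = z - 1 := ⟨_, rfl⟩
  have h1 : ‖φ‖ ^ (p - 1) = ‖(p : L)‖ := by
    have := norm_prim (p := p) 0 z (by rwa [zero_add, pow_one])
    rwa [pow_zero, one_mul, ← hφ] at this
  have hφ0 : 0 < ‖φ‖ := by
    rcases (norm_nonneg φ).eq_or_lt with h | h
    · rw [← h, zero_pow (by omega)] at h1
      exact absurd h1 hp0'.ne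
    · exact h
  have hφ1 : ‖φ‖ < 1 := by
    by_contra hc
    have h3 : 1 ≤ ‖φ‖ ^ (p - 1) := one_le_pow₀ (not_lt.1 hc)
    rw [h1] at h3
    exact absurd hp1 (not_lt.2 h3)
  have h3 := c2b_binom (p := p) φ hφ1.le
  have h4 : (φ + 1) ^ p = 1 := by rw [hφ, sub_add_cancel, hz.pow_eq_one]
  have h5 : (φ + 1) ^ p - 1 - (p : L) * φ - φ ^ p = -(φ * (φ ^ (p - 1) + (p : L))) := by
    have : φ ^ p = φ * φ ^ (p - 1) := by
      rw [← pow_succ', Nat.sub_add_cancel hp.one_le]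
    rw [h4, this]
    ring
  rw [h5, norm_neg, norm_mul] at h3
  rw [← hφ]
  have h6 : ‖φ‖ * ‖φ ^ (p - 1) + (p : L)‖ ≤ ‖φ‖ * (‖(p : L)‖ * ‖φ‖) := by
    calc _ ≤ _ := h3
      _ = _ := by ring
  have h7 := le_of_mul_le_mul_left h6 hφ0
  calc _ ≤ _ := h7
    _ < ‖(p : L)‖ * 1 := mul_lt_mul_of_pos_left hφ1 hp0'
    _ = _ := mul_one _

end SSF
end
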