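import Mathlib
import Pool.Agent.Lib.H1M.PP2.M006
import Pool.Agent.Lib.H1M.PP2.M014
import Pool.Agent.Lib.H1M.PP2.M015
import Pool.Agent.Lib.H1M.PP2.M019
import Pool.Agent.Lib.H1M.PP2.M029
import Pool.Agent.Lib.H1M.PP2.M071
import Pool.Agent.Lib.H1M.PP2.M082
import Pool.Agent.Lib.H1M.PP2.M093
import Pool.Agent.Lib.H1M.PP2.M094
import Pool.Agent.Lib.H1M.PP2.M101

/-! Merged copies (to shorten the build) of Lib.H55K.PZ, Lib.SSG.LT.PT, Lib.SSG.Z.G4, Lib.SSG.Z.G5, Lib.SSG.LT.XM2, Lib.SSG.F.E1, Lib.SSG.F.Z1, Lib.SSG.F.Y1, Lib.SSG.F.Y2, Lib.SSG.F.Y4, Lib.SSG.F.Y3, Lib.SSG.F.Y5, Lib.SSG.F.Z2. -/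

-- from Lib.H55K.PZ
section

/-! # H55K: the number of points of a curve over the integers over finite fields -/

open NumberField IsDedekindDomain WeierstrassCurve

namespace H55K

open H55P (IQ embF eF LF IsHecke Nm)

/-- The number of points of W modulo a prime number. -/
noncomputable def NW (W : WeierstrassCurve ℤ) (l : ℕ) : ℕ := Nat.card (W.map (Int.castRingHom (ZMod l))).toAffine.Point

theorem pz_ab (s p : ℂ) : ∃ α β : ℂ, α + β = s ∧ α * β = p := by
  obtain ⟨d, hd⟩ := IsAlgClosed.exists_pow_nat_eq (s ^ 2 - 4 * p) (show 0 < 2 by norm_num)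
  refine ⟨(s + d) / 2, (s - d) / 2, by ring, ?_⟩
  linear_combination (-1 / 4 : ℂ) * hd

theorem pts_Z (W : WeierstrassCurve ℤ) {l : ℕ} [hl : Fact l.Prime] (hΔ : ¬ (l : ℤ) ∣ W.Δ) (α β : ℂ)
    (h1 : α + β = (l : ℂ) + 1 - (NW W l : ℂ)) (h2 : α * β = (l : ℂ)) (k' : Type) [Field k'] [Finite k'] [CharP k' l]
    (f : ℕ) (hf : Nat.card k' = l ^ f) :
    (Nat.card (W.map (Int.castRingHom k')).toAffine.Point : ℂ) = (l : ℂ) ^ f + 1 - α ^ f - β ^ f := by
  let _ : Algebra (ZMod l) k' := ZMod.algebra k' l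
  have hΔ' : (W.map (Int.castRingHom (ZMod l))).Δ ≠ 0 := by
    rw [WeierstrassCurve.map_Δ]
    intro h
    apply hΔ
    exact (ZMod.intCast_zmod_eq_zero_iff_dvd _ _).1 h
  have hcard : Nat.card (ZMod l) = l := by rw [Nat.card_eq_fintype_card, ZMod.card]
  have h := weil (k := ZMod l) (K := k') (W.map (Int.castRingHom (ZMod l))) hΔ' α β (by
    rw [hcard]
    exact h1) (by
    rw [hcard]
    exact h2)
  have hfr : Module.finrank (ZMod l) k' = f := by
    have : Module.Finite (ZMod l) k' := Module.Finite.of_finite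
    have h3 : Nat.card k' = Nat.card (ZMod l) ^ Module.finrank (ZMod l) k' := Module.natCard_eq_pow_finrank
    rw [hcard, hf] at h3
    exact (Nat.pow_right_injective hl.out.two_le h3).symm
  have hmap : WeierstrassCurve.baseChange (W.map (Int.castRingHom (ZMod l))) k' = W.map (Int.castRingHom k') := by
    unfold WeierstrassCurve.baseChange
    rw [WeierstrassCurve.map_map]
    congr 1
    exact RingHom.ext_int _ _
  rw [hmap, hf, hfr] at h
  rw [h]
  push_cast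
  ring


variable {F : Type} [Field F] [NumberField F] [IQ F]

theorem pz_unit {ε : 𝓞 F} (hε : IsUnit ε) : ε * cj ε = 1 := by
  have h1 : Nm ε = 1 := by
    unfold Nm
    rw [Ideal.span_singleton_eq_top.2 hε, ← Ideal.one_eq_top, map_one]
  rw [mul_cj, h1, Nat.cast_one]

/-- An integer which is an algebraic multiple. -/
theorem pz_dvd {l : ℕ} (hl : l ≠ 0) {t : 𝓞 F} {n : ℤ} (h : (l : 𝓞 F) * t = (n : 𝓞 F)) : ∃ t' : ℤ, t = (t' : 𝓞 F) := by
  have h1 : (t : F) = algebraMap ℚ F ((n : ℚ) / (l : ℚ)) := by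
    have h2 := congrArg (fun z : 𝓞 F => (z : F)) h
    simp only [map_mul, map_natCast, map_intCast] at h2
    have h3 : (l : F) ≠ 0 := Nat.cast_ne_zero.2 hl
    rw [map_div₀, map_intCast, map_natCast, eq_div_iff h3, mul_comm]
    exact h2
  have h2 : IsIntegral ℤ ((n : ℚ) / (l : ℚ)) := by
    have h3 : IsIntegral ℤ (t : F) := RingOfIntegers.isIntegral_coe t
    rw [h1] at h3
    exact (isIntegral_algebraMap_iff (algebraMap ℚ F).injective).1 h3
  obtain ⟨y, hy⟩ := IsIntegrallyClosed.isIntegral_iff.1 h2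
  refine ⟨y, ?_⟩
  apply RingOfIntegers.coe_injective
  refine Eq.trans (b := (t : F)) rfl (h1.trans ?_)
  rw [← hy]
  simp

theorem pz_bd {ε : 𝓞 F} (hε : IsUnit ε) {t : ℤ} (ht : ε + cj ε = (t : 𝓞 F)) : |t| ≤ 2 := by
  have h1 := congrArg (eF F) ht
  rw [map_add, e_cj, map_intCast] at h1
  have h2 : ‖eF F ε‖ = 1 := by
    have h3 := pz_unit hε
    have h4 := congrArg (eF F) h3
    rw [map_mul, e_cj, map_one, Complex.mul_conj, Complex.normSq_eq_norm_sq] at h4
    have h5 : ‖eF F ε‖ ^ 2 = 1 := by exact_mod_cast h4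
    nlinarith [norm_nonneg (eF F ε)]
  have h3 : ‖((t : ℤ) : ℂ)‖ ≤ 2 := by
    rw [← h1]
    refine (norm_add_le _ _).trans ?_
    rw [RCLike.norm_conj, h2]
    norm_num
  have h4 : |(t : ℝ)| ≤ 2 := by
    have : ‖((t : ℤ) : ℂ)‖ = |(t : ℝ)| := by
      rw [Complex.norm_intCast]
    rw [← this]
    exact h3
  exact_mod_cast h4

/-- The values of the Hecke character at the inert primes. -/
theorem psi_inert (W : WeierstrassCurve ℤ) {l : ℕ} [hl : Fact l.Prime] (hΔ : ¬ (l : ℤ) ∣ W.Δ)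
    (v : HeightOneSpectrum (𝓞 F)) (hv : v.asIdeal = Ideal.span {(l : 𝓞 F)}) {x : 𝓞 F} (hx : Ideal.span {x} = v.asIdeal)
    (hdeu : Nat.card ((W.map (Int.castRingHom (𝓞 F)))⁄(𝓞 F ⧸ v.asIdeal)).toAffine.Point = Nm (1 - x)) :
    x = -(l : 𝓞 F) ∧ NW W l = l + 1 := by
  have hl0 : (l : ℕ) ≠ 0 := hl.out.ne_zero
  have hmax : v.asIdeal.IsMaximal := v.isMaximal
  let _ : Field (𝓞 F ⧸ v.asIdeal) := Ideal.Quotient.field _
  have hfin : Finite (𝓞 F ⧸ v.asIdeal) := Ideal.finiteQuotientOfFreeOfNeBot _ v.ne_bot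
  have hcard : Nat.card (𝓞 F ⧸ v.asIdeal) = l ^ 2 := by
    rw [← Submodule.cardQuot_apply, ← Ideal.absNorm_apply, hv]
    exact Nm_nat l
  have hchar : CharP (𝓞 F ⧸ v.asIdeal) l := by
    have h1 : ((l : ℕ) : 𝓞 F ⧸ v.asIdeal) = 0 := by
      rw [← map_natCast (Ideal.Quotient.mk v.asIdeal), Ideal.Quotient.eq_zero_iff_mem, hv]
      exact Ideal.mem_span_singleton_self _
    obtain ⟨q, hq⟩ := CharP.exists (𝓞 F ⧸ v.asIdeal)
    have h2 : q ∣ l := (CharP.cast_eq_zero_iff _ q l).1 h1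
    rcases (Nat.dvd_prime hl.out).1 h2 with h3 | h3
    · exfalso
      rw [h3] at hq
      exact CharP.char_ne_one (𝓞 F ⧸ v.asIdeal) 1 rfl
    · rw [← h3]
      exact hq
  obtain ⟨α, β, hs, hp⟩ := pz_ab ((l : ℂ) + 1 - (NW W l : ℂ)) (l : ℂ)
  have h1 := pts_Z W hΔ α β hs hp (𝓞 F ⧸ v.asIdeal) 2 hcard
  have hmap : W.map (Int.castRingHom (𝓞 F ⧸ v.asIdeal)) = (W.map (Int.castRingHom (𝓞 F)))⁄(𝓞 F ⧸ v.asIdeal) := by
    unfold WeierstrassCurve.baseChange
    rw [WeierstrassCurve.map_map]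
    congr 1
  rw [hmap, hdeu] at h1
  -- the unit
  have hass : Associated (l : 𝓞 F) x := by
    rw [← Ideal.span_singleton_eq_span_singleton, hx, hv]
  obtain ⟨ε, hε⟩ := hass
  obtain ⟨a, ha⟩ : ∃ a : ℤ, a = (l : ℤ) + 1 - (NW W l : ℤ) := ⟨_, rfl⟩
  have h2 : ((Nm (1 - x) : ℕ) : ℤ) = (l : ℤ) ^ 2 + 1 - (a ^ 2 - 2 * l) := by
    have e1 : ((Nm (1 - x) : ℕ) : ℂ) = (l : ℂ) ^ 2 + 1 - (((l : ℂ) + 1 - (NW W l : ℂ)) ^ 2 - 2 * (l : ℂ)) := by
      rw [h1, ← hs]
      linear_combination (2 : ℂ) * hp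
    rw [ha]
    exact_mod_cast e1
  have h3 : (l : 𝓞 F) * ((ε : 𝓞 F) + cj (ε : 𝓞 F)) = ((a ^ 2 - 2 * l : ℤ) : 𝓞 F) := by
    have e1 := mul_cj (1 - x)
    have e2 : ((Nm (1 - x) : ℕ) : 𝓞 F) = (((l : ℤ) ^ 2 + 1 - (a ^ 2 - 2 * l) : ℤ) : 𝓞 F) := by
      rw [← h2]
      norm_cast
    have e3 := pz_unit (F := F) ε.isUnit
    rw [e2, ← hε, map_sub, map_one, map_mul, cj_nat] at e1
    push_cast at e1 ⊢
    linear_combination -e1 + (l : 𝓞 F) ^ 2 * e3
  obtain ⟨t, ht⟩ := pz_dvd (F := F) hl0 h3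
  have hbd := pz_bd ε.isUnit ht
  have h4 : (l : ℤ) * t = a ^ 2 - 2 * l := by
    rw [ht] at h3
    exact_mod_cast h3
  have h5 : a ^ 2 = (l : ℤ) * (2 + t) := by linear_combination -h4
  have hlp : Prime (l : ℤ) := Nat.prime_iff_prime_int.1 hl.out
  have h6 : (l : ℤ) ∣ a := hlp.dvd_of_dvd_pow ⟨_, h5⟩
  obtain ⟨b, hb⟩ := h6
  have h7 : (l : ℤ) * b ^ 2 = 2 + t := by
    have : (l : ℤ) * ((l : ℤ) * b ^ 2) = (l : ℤ) * (2 + t) := by
      rw [← h5, hb]
      ring
    exact mul_left_cancel₀ (by exact_mod_cast hl0) this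
  have h8 := abs_le.1 hbd
  have hl2 : (2 : ℤ) ≤ l := by exact_mod_cast hl.out.two_le
  have hprime : Prime (l : 𝓞 F) := by
    rw [← Ideal.span_singleton_prime (by exact_mod_cast hl0), ← hv]
    exact v.isPrime
  have hεε := pz_unit (F := F) ε.isUnit
  have hb0 : b = 0 := by
    by_contra hb0
    have hb1 : 1 ≤ b ^ 2 := by
      have : 0 < b ^ 2 := by positivity
      omega
    have hb2 : b ^ 2 < 4 := by nlinarith
    have hb3 : b ^ 2 = 1 := by
      have h9 : b < 2 := by nlinarith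
      have h10 : -2 < b := by nlinarith
      have h11 : b = 1 ∨ b = -1 := by omega
      rcases h11 with h11 | h11 <;> rw [h11] <;> norm_num
    rw [hb3, mul_one] at h7
    -- l = 2 + t, t ≤ 2
    have hsq : (1 + (ε : 𝓞 F)) ^ 2 = (l : 𝓞 F) * ε := by
      have e1 : ((2 + t : ℤ) : 𝓞 F) = (l : 𝓞 F) := by
        rw [← h7]
        norm_cast
      push_cast at e1
      rw [← e1, ← ht]
      linear_combination -hεε
    have hN : Nm (1 + (ε : 𝓞 F)) = l := by
      have e1 := mul_cj (1 + (ε : 𝓞 F))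
      rw [map_add, map_one] at e1
      have e2 : ((2 + t : ℤ) : 𝓞 F) = (l : 𝓞 F) := by
        rw [← h7]
        norm_cast
      push_cast at e2
      have e3 : ((Nm (1 + (ε : 𝓞 F)) : ℕ) : 𝓞 F) = ((l : ℕ) : 𝓞 F) := by
        rw [← e1, ← e2, ← ht]
        linear_combination hεε
      exact Nat.cast_injective e3
    have hd : (l : 𝓞 F) ∣ 1 + (ε : 𝓞 F) := hprime.dvd_of_dvd_pow ⟨_, hsq⟩
    obtain ⟨c, hc⟩ := hd
    have e4 : Nm (1 + (ε : 𝓞 F)) = l ^ 2 * Nm c := by
      rw [hc, Nm_mul, Nm_nat]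
    rw [hN] at e4
    have e5 : l ^ 2 ∣ l := ⟨_, e4⟩
    have e6 := Nat.le_of_dvd hl.out.pos e5
    have := hl.out.two_le
    nlinarith
  have ht2 : t = -2 := by
    rw [hb0] at h7
    linarith
  have ha0 : a = 0 := by rw [hb, hb0, mul_zero]
  constructor
  · have e1 : ((ε : 𝓞 F) + 1) ^ 2 = 0 := by
      have e2 : (ε : 𝓞 F) + cj (ε : 𝓞 F) = -2 := by
        rw [ht, ht2]
        push_cast
        ring
      linear_combination (ε : 𝓞 F) * e2 - hεε
    have e2 : (ε : 𝓞 F) + 1 = 0 := pow_eq_zero_iff (two_ne_zero) |>.1 e1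
    have e3 : (ε : 𝓞 F) = -1 := by linear_combination e2
    rw [← hε, e3]
    ring
  · rw [ha0] at ha
    omega

end H55K
end

-- from Lib.SSG.LT.PT
section

/-! # SSG/LT: the points T N -/

open NumberField IsDedekindDomain WeierstrassCurve

namespace SSG.LT

open H55P (IQ embF eF LF Per IsHecke Pt ac Inert Dec)
open H35P (WAB Ker tt)
open H55K

variable {F : Type} [Field F] [NumberField F] [IQ F] {A B : F} {Om : ℂ} {Ω : Type} [Field Ω] [DecidableEq Ω]
  [Algebra F Ω] {j : Ω →+* ℂ} {act : 𝓞 F →+* AddMonoid.End (Pt (WAB A B) Ω)} {p : ℕ} [Fact p.Prime] {V : ValuationSubring Ω}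

/-! Chunk PT (M). PROOF. (1) pt_one: h.gen b with b = (-p)^N ≠ 0: T₀; b ∣ a iff p^N ∣ a ((-p)^N = ± p^N: neg_pow, Units / IsUnit.dvd_mul_left, or neg_pow' ..); eF F b = (-p)^N (map_pow, map_neg, map_natCast). (2) exists_pts: T N by choice from pt_one.
zero, unif: clear. down: N = 0: T 0 = 0 (zero 0 1: p^0 ∣ 1; act 1 = id) and act (-p) (T 1) = 0 (zero 1 (-p)). N ≥ 1: P = act (-p) (T (N+1)) ≠ 0 (p^(N+1) does not divide p: p is not a unit and not 0), T N = act 1 (T N) ≠ 0; unif (N+1) (-p) and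
unif N 1: eF (-p) / (-p)^(N+1) = 1 / (-p)^N = eF 1 / (-p)^N; j injective (RingHom.injective): xc, yc equal; H55K.pt_ext. (3) ker: act (p^N) (act a (T N)) = act a 0 .. = 0; by induction on n: act (p^n) X = 0 → Ker V X:
n = 0: X = 0; n + 1: act (p^n) (act p X) = 0, so Ker V (act p X), H55K.ker_red (β = p, V.valuation (ak Ω p) = V.valuation p < 1: ak of a natural number). -/

theorem pt_one (h : CMA F A B Om j act) (N : ℕ) : ∃ T₀ : Pt (WAB A B) Ω, (∀ a : 𝓞 F, act a T₀ = 0 ↔ (p : 𝓞 F) ^ N ∣ a) ∧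
    ∀ a : 𝓞 F, ¬ (p : 𝓞 F) ^ N ∣ a →
      j (xc (act a T₀)) = (LF F).weierstrassP (eF F a / (-(p : ℂ)) ^ N) / Om ^ 2 ∧
      j (yc (act a T₀)) = (LF F).derivWeierstrassP (eF F a / (-(p : ℂ)) ^ N) / (2 * Om ^ 3) := by
  have hp0 : (p : 𝓞 F) ≠ 0 := Nat.cast_ne_zero.2 (Fact.out : p.Prime).ne_zero
  have hb : (-(p : 𝓞 F)) ^ N ≠ 0 := pow_ne_zero _ (neg_ne_zero.2 hp0)
  obtain ⟨T₀, -, -, h1, h2⟩ := h.gen _ hb
  have hd : ∀ a : 𝓞 F, (-(p : 𝓞 F)) ^ N ∣ a ↔ (p : 𝓞 F) ^ N ∣ a := by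
    intro a
    rcases Nat.even_or_odd N with hN | hN
    · rw [hN.neg_pow]
    · rw [hN.neg_pow, neg_dvd]
  have he : eF F ((-(p : 𝓞 F)) ^ N) = (-(p : ℂ)) ^ N := by
    rw [map_pow, map_neg, map_natCast]
  refine ⟨T₀, fun a => (h1 a).trans (hd a), fun a ha => ?_⟩
  have h3 := h2 a (fun hh => ha ((hd a).1 hh))
  rw [he] at h3
  exact h3

theorem pt_ker (h : CMA F A B Om j act) (hG : GV A B V) (hin : Prime (p : 𝓞 F)) (hV : V.valuation (p : Ω) < 1) (n : ℕ)
    {X : Pt (WAB A B) Ω} (hX : act ((p : 𝓞 F) ^ n) X = 0) : Ker V X := by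
  induction n generalizing X with
  | zero =>
    rw [pow_zero, map_one] at hX
    have h1 : X = 0 := hX
    rw [h1]
    exact ker_zero V
  | succ n ih =>
    rw [pow_succ, map_mul] at hX
    have h1 : act ((p : 𝓞 F) ^ n) (act (p : 𝓞 F) X) = 0 := hX
    have h2 : Ker V (act (p : 𝓞 F) X) := ih h1
    refine ker_red h hG hin ?_ h2
    have h3 : ak Ω (p : 𝓞 F) = (p : Ω) := by
      change algebraMap F Ω (algebraMap (𝓞 F) F (p : 𝓞 F)) = _
      rw [map_natCast, map_natCast]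
    rw [h3]
    exact hV

theorem pt (h : CMA F A B Om j act) (hG : GV A B V) (hin : Prime (p : 𝓞 F)) (hV : V.valuation (p : Ω) < 1) :
    ∃ T : ℕ → Pt (WAB A B) Ω, PtsT A B Om j act p V T := by
  choose T hT1 hT2 using fun N => pt_one (p := p) h N
  have hp0 : (p : 𝓞 F) ≠ 0 := Nat.cast_ne_zero.2 (Fact.out : p.Prime).ne_zero
  have hpC : (p : ℂ) ≠ 0 := Nat.cast_ne_zero.2 (Fact.out : p.Prime).ne_zero
  have hact1 : ∀ X : Pt (WAB A B) Ω, act 1 X = X := by
    intro X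
    rw [map_one]
    rfl
  have hactm : ∀ (a b : 𝓞 F) (X : Pt (WAB A B) Ω), act (a * b) X = act a (act b X) := by
    intro a b X
    rw [map_mul]
    rfl
  refine ⟨T, hT1, ?_, hT2, ?_⟩
  · intro N
    rcases Nat.eq_zero_or_pos N with hN | hN
    · subst hN
      have h1 : T 0 = 0 := by
        rw [← hact1 (T 0), hT1 0 1, pow_zero]
      rw [h1, hT1 (0 + 1)]
      rw [zero_add, pow_one, dvd_neg]
    · have h1 : act (-(p : 𝓞 F)) (T (N + 1)) ≠ 0 := by
        rw [Ne, hT1 (N + 1), dvd_neg]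
        intro hd
        have h2 : (p : 𝓞 F) ^ (N + 1) ∣ (p : 𝓞 F) ^ 1 := by rwa [pow_one]
        rw [pow_dvd_pow_iff hp0 hin.not_unit] at h2
        omega
      have h1' : ¬ (p : 𝓞 F) ^ (N + 1) ∣ -(p : 𝓞 F) := fun hd => h1 ((hT1 (N + 1) _).2 hd)
      have h2' : ¬ (p : 𝓞 F) ^ N ∣ 1 := by
        intro hd
        exact hin.not_unit (isUnit_pow_iff hN.ne' |>.1 (isUnit_of_dvd_one hd))
      have h2 : T N ≠ 0 := by
        intro h0
        rw [← hact1 (T N), hT1 N 1] at h0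
        exact h2' h0
      obtain ⟨h3, h4⟩ := hT2 (N + 1) _ h1'
      obtain ⟨h5, h6⟩ := hT2 N 1 h2'
      rw [hact1] at h5 h6
      have he : eF F (-(p : 𝓞 F)) / (-(p : ℂ)) ^ (N + 1) = eF F 1 / (-(p : ℂ)) ^ N := by
        rw [map_neg, map_natCast, map_one, pow_succ]
        have h7 : (-(p : ℂ)) ≠ 0 := neg_ne_zero.2 hpC
        field_simp
      rw [he] at h3 h4
      exact pt_ext h1 h2 (j.injective (h3.trans h5.symm)) (j.injective (h4.trans h6.symm))
  · intro N a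
    refine pt_ker h hG hin hV N (X := act a (T N)) ?_
    rw [← hactm, hT1 N]
    exact dvd_mul_right _ _

end SSG.LT
end

-- from Lib.SSG.Z.G4
section

/-! Chunk G4 (M/L). The determinant of the Galois action is the cyclotomic character: ac s T = act u T implies s ζ = ζ^(norm u), for T of exact order p^N and ζ a primitive p^N-th root of unity. Copy of the proof in H55K/SPA1.lean (there a prime l which splits and two points T₀, T₀'; here one point T and the norm):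
K = the set of the t in Gal(Ω/F) such that for all x in 𝓞 F and n in ℕ with ac t T = act x T, t ζ = ζ^n: p^N divides Algebra.norm ℤ x - n in ℤ. For every t such x, n exist (CMA.gen as in chunk G3: T generates the points killed by p^N; ζ^n: IsPrimitiveRoot.autToPow or eq_pow_of_pow_eq_one) and x is unique modulo p^N, n unique modulo p^N; if x ≡ y mod p^N
then norm x ≡ norm y mod p^N (in ℤ; norm x = x * conj x, or Nm of H55P/H55K, cj: see H55K/NK2.lean mul_cj; p^N is a rational integer). So t ↦ norm(x_t) and t ↦ n_t are two homomorphisms to (ZMod (p^N))ˣ (x_(t t') = x_t x_t' since act commutes with the action) and K is their equalizer, a normal subgroup (commutative target) which contains the fixing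
subgroup of the finite extension generated by the coordinates of T and by ζ. H13S.PA1_top: it is enough to treat the Frobenius elements t at V above v, absNorm v = q prime, v outside the finite set of frob, not dividing p, not containing the modulus m: Dta.frob with n = p^N: ac t T = act (ψ v) T; span {ψ v} = v (hecke.gen), so |norm (ψ v)| = absNorm v = q and
the norm is positive (imaginary quadratic); t ζ - ζ^q is in the maximal ideal of V, t ζ is a p^N-th root of unity and differences of distinct p^N-th roots of unity are units at V (V(p) = 1): t ζ = ζ^q. (All these steps are in SPA1.lean.) Finally nrm u = |norm u| = norm u. -/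

open NumberField WeierstrassCurve

namespace SSG

open H55P (IQ Pt ac)
open H35P (WAB)
open H55K

section g4

open IsDedekindDomain
open H55P (embF eF LF Per IsHecke Inert Dec Nm)
open H55K.S

variable {F : Type} [Field F] [NumberField F] [IQ F] {A B : F} {Om : ℂ} {Ω : Type} [Field Ω] [DecidableEq Ω]
  [Algebra F Ω] {j : Ω →+* ℂ} {act : 𝓞 F →+* AddMonoid.End (Pt (WAB A B) Ω)} {mo : Ideal (𝓞 F)}
  {ψ : Ideal (𝓞 F) →*₀ 𝓞 F}

/-- Roots of unity at a Frobenius element. -/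
theorem g4_zeta (l : ℕ) (hl : l ≠ 0) (ζ : Ω) (hζ : IsPrimitiveRoot ζ l) (V : ValuationSubring Ω)
    (hV : ¬ V.valuation (l : Ω) < 1) (q : ℕ) (s : Ω ≃ₐ[F] Ω)
    (hs : ∀ x ∈ V, V.valuation (s x - x ^ q) < 1) : s ζ = ζ ^ q := by
  have hl0 : NeZero l := ⟨hl⟩
  have hz1 : V.valuation ζ = 1 := by
    have h1 : V.valuation ζ ^ l = 1 := by rw [← map_pow, hζ.pow_eq_one, map_one]
    exact (pow_eq_one_iff_of_nonneg zero_le hl).1 h1
  have hzV : ζ ∈ V := (V.valuation_le_one_iff ζ).1 hz1.le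
  by_contra hne
  have hz0 : ζ ^ q ≠ 0 := pow_ne_zero _ (hζ.ne_zero hl)
  let ξ : Ω := s ζ / ζ ^ q
  have hξ1 : ξ ≠ 1 := fun h => hne ((div_eq_one_iff_eq hz0).1 h)
  have hξl : ξ ^ l = 1 := by
    show (s ζ / ζ ^ q) ^ l = 1
    rw [div_pow, ← map_pow, hζ.pow_eq_one, map_one, ← pow_mul, mul_comm, pow_mul, hζ.pow_eq_one,
      one_pow, div_one]
  have hξv : V.valuation (ξ - 1) < 1 := by
    have h1 : ξ - 1 = (s ζ - ζ ^ q) / ζ ^ q := by
      show s ζ / ζ ^ q - 1 = _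
      field_simp
    rw [h1, map_div₀, map_pow, hz1, one_pow, div_one]
    exact hs ζ hzV
  have hξV : ξ ∈ V := by
    have h1 : ξ - 1 ∈ V := (V.valuation_le_one_iff _).1 hξv.le
    have h2 := V.add_mem _ _ h1 V.one_mem
    rwa [sub_add_cancel] at h2
  let x : V := ⟨ξ, hξV⟩
  have hr : IsLocalRing.residue V x = 1 := by
    have h1 : x - 1 ∈ IsLocalRing.maximalIdeal V := by
      rw [ValuationSubring.valuation_lt_one_iff]
      exact hξv
    have h2 := (IsLocalRing.residue_eq_zero_iff _).2 h1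
    rw [map_sub, map_one, sub_eq_zero] at h2
    exact h2
  have hsum : ∑ i ∈ Finset.range l, x ^ i = 0 := by
    apply Subtype.ext
    have h1 := geom_sum_mul ξ l
    rw [hξl, sub_self] at h1
    have h2 := (mul_eq_zero.1 h1).resolve_right (sub_ne_zero.2 hξ1)
    rw [ZeroMemClass.coe_zero, ← h2]
    push_cast
    rfl
  have h1 : IsLocalRing.residue V (l : V) = 0 := by
    have h2 := congrArg (IsLocalRing.residue V) hsum
    rw [map_sum, map_zero] at h2
    simp only [map_pow, hr, one_pow, Finset.sum_const, Finset.card_range, nsmul_eq_mul, mul_one] at h2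
    rw [map_natCast]
    exact h2
  apply hV
  have h2 := (IsLocalRing.residue_eq_zero_iff _).1 h1
  have h4 := (ValuationSubring.valuation_lt_one_iff V (l : V)).1 h2
  exact h4

/-- The point T generates the points killed by p^N. -/
theorem g4_gen (c : CMA F A B Om j act) {p : ℕ} (hp : p.Prime) (hin : (Ideal.span {(p : 𝓞 F)}).IsPrime)
    {N : ℕ} (hN : N ≠ 0) {T : Pt (WAB A B) Ω} (hT : ∀ a : 𝓞 F, act a T = 0 ↔ (p : 𝓞 F) ^ N ∣ a)
    (T' : Pt (WAB A B) Ω) (hT' : act ((p : 𝓞 F) ^ N) T' = 0) : ∃ a : 𝓞 F, T' = act a T := by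
  have hp0 : (p : 𝓞 F) ≠ 0 := Nat.cast_ne_zero.2 hp.ne_zero
  obtain ⟨T₀, h1, hgen, hz, -⟩ := c.gen ((p : 𝓞 F) ^ N) (pow_ne_zero _ hp0)
  obtain ⟨x, hx⟩ := hgen T ((hT _).2 dvd_rfl)
  have hnx : ¬ (p : 𝓞 F) ∣ x := by
    rintro ⟨y, rfl⟩
    obtain ⟨M, rfl⟩ := Nat.exists_eq_succ_of_ne_zero hN
    have h2 : act ((p : 𝓞 F) ^ M) T = 0 := by
      rw [hx, ← act_mul, hz]
      exact ⟨y, by rw [Nat.succ_eq_add_one, pow_succ]; ring⟩
    have h3 := (hT _).1 h2
    have h4 : (p : 𝓞 F) ∣ 1 := by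
      obtain ⟨z, hz'⟩ := h3
      refine ⟨z, ?_⟩
      have h5 : (p : 𝓞 F) ^ M ≠ 0 := pow_ne_zero _ hp0
      apply mul_left_cancel₀ h5
      rw [mul_one]
      conv_lhs => rw [hz', Nat.succ_eq_add_one, pow_succ]
      ring
    exact hin.ne_top ((Ideal.span_singleton_eq_top).2 (isUnit_of_dvd_one h4))
  have hmax : (Ideal.span {(p : 𝓞 F)}).IsMaximal := by
    refine hin.isMaximal ?_
    rw [Ne, Ideal.span_singleton_eq_bot]
    exact hp0
  have hcop : IsCoprime (p : 𝓞 F) x := by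
    have h2 : Ideal.span {(p : 𝓞 F)} ⊔ Ideal.span {x} = ⊤ := by
      refine hmax.1.2 _ (left_lt_sup.2 fun h => hnx ?_)
      exact Ideal.mem_span_singleton.1 (h (Ideal.mem_span_singleton_self _))
    have h3 : (1 : 𝓞 F) ∈ Ideal.span {(p : 𝓞 F)} ⊔ Ideal.span {x} := by
      rw [h2]
      exact Submodule.mem_top
    obtain ⟨a, ha, b, hb, hab⟩ := Submodule.mem_sup.1 h3
    obtain ⟨a', rfl⟩ := Ideal.mem_span_singleton.1 ha
    obtain ⟨b', rfl⟩ := Ideal.mem_span_singleton.1 hb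
    exact ⟨a', b', by rw [← hab]; ring⟩
  obtain ⟨w, u, huw⟩ := hcop.pow_left (m := N)
  obtain ⟨y, hy⟩ := hgen T' hT'
  refine ⟨y * u, ?_⟩
  rw [hx, ← act_mul, hy]
  have h1' : y = y * u * x + y * w * (p : 𝓞 F) ^ N := by linear_combination (-y) * huw
  conv_lhs => rw [h1']
  rw [act_add, act_mul (y * w) _, mem_Tor.1 h1, map_zero, add_zero]

/-- Divisibility of rational integers by p^N. -/
theorem g4_int (M : ℕ) (k : ℤ) (h : (M : 𝓞 F) ∣ (k : 𝓞 F)) : (M : ℤ) ∣ k := by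
  obtain ⟨z, hz⟩ := h
  have h1 : Nm (k : 𝓞 F) = Nm (M : 𝓞 F) * Nm z := by rw [hz, Nm_mul]
  have h2 : Nm (k : 𝓞 F) = k.natAbs ^ 2 := by
    rcases Int.natAbs_eq k with h | h
    · rw [h]
      simp only [Int.cast_natCast, Int.natAbs_natCast]
      exact Nm_nat _
    · have h3 : (k : 𝓞 F) = -((k.natAbs : ℕ) : 𝓞 F) := by
        have h4 := congrArg (fun z : ℤ => (z : 𝓞 F)) h
        simp only [Int.cast_neg] at h4
        rw [h4, Int.cast_natCast]
      rw [h3]
      unfold Nm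
      rw [Ideal.span_singleton_neg]
      exact Nm_nat _
  rw [h2, Nm_nat] at h1
  have h3 : M ^ 2 ∣ k.natAbs ^ 2 := ⟨_, h1⟩
  have h4 := (Nat.pow_dvd_pow_iff two_ne_zero).1 h3
  exact Int.natCast_dvd.2 h4

theorem g4_main [IsAlgClosure F Ω] {p : ℕ} [Fact p.Prime]
    (d : Dta A B Om j act mo ψ p) (hin : (Ideal.span {(p : 𝓞 F)}).IsPrime) {N : ℕ} (hN : N ≠ 0) {T : Pt (WAB A B) Ω}
    (hT : ∀ a : 𝓞 F, act a T = 0 ↔ (p : 𝓞 F) ^ N ∣ a) {ζ : Ω} (hζ : IsPrimitiveRoot ζ (p ^ N)) (s : Ω ≃ₐ[F] Ω) (u : 𝓞 F)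
    (hu : ac (WAB A B) s T = act u T) : s ζ = ζ ^ nrm u := by
  classical
  have hp : p.Prime := Fact.out
  have hac : IsAlgClosed Ω := IsAlgClosure.isAlgClosed F
  have halg : Algebra.IsAlgebraic F Ω := IsAlgClosure.isAlgebraic
  obtain ⟨M, hM⟩ : ∃ M : ℕ, M = p ^ N := ⟨_, rfl⟩
  rw [← hM] at hζ
  have hM0 : M ≠ 0 := by
    rw [hM]
    exact pow_ne_zero _ hp.ne_zero
  have hMn : NeZero M := ⟨hM0⟩
  have hMc : ((M : ℕ) : 𝓞 F) = (p : 𝓞 F) ^ N := by rw [hM, Nat.cast_pow]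
  have hz : ∀ a : 𝓞 F, act a T = 0 ↔ (M : 𝓞 F) ∣ a := by
    rw [hMc]
    exact hT
  have hA := d.cma
  have hT0 : T ≠ 0 := by
    intro h
    have h1 := (hT 1).1 (by rw [h, map_zero])
    have h2 : (p : 𝓞 F) ∣ 1 := (dvd_pow_self _ hN).trans h1
    exact hin.ne_top ((Ideal.span_singleton_eq_top).2 (isUnit_of_dvd_one h2))
  have hTM : T ∈ Tor act (M : 𝓞 F) := (hz _).2 dvd_rfl
  have hex : ∀ t : Ω ≃ₐ[F] Ω, ∃ q : 𝓞 F × ℕ, ac (WAB A B) t T = act q.1 T ∧ t ζ = ζ ^ q.2 := by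
    intro t
    obtain ⟨x, hx⟩ := g4_gen hA hp hin hN hT _ (by rw [← hMc]; exact ac_mem hA t hTM)
    have h1 : (t ζ) ^ M = 1 := by rw [← map_pow, hζ.pow_eq_one, map_one]
    obtain ⟨i, _, hi⟩ := hζ.eq_pow_of_pow_eq_one h1
    exact ⟨⟨x, i⟩, hx, hi.symm⟩
  choose q hq using hex
  let mk : 𝓞 F →+* 𝓞 F ⧸ Ideal.span {(M : 𝓞 F)} := Ideal.Quotient.mk (Ideal.span {(M : 𝓞 F)})
  have hmk : ∀ x y : 𝓞 F, mk x = mk y ↔ (M : 𝓞 F) ∣ x - y := by
    intro x y
    rw [← Ideal.mem_span_singleton]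
    exact Ideal.Quotient.mk_eq_mk_iff_sub_mem _ _
  have uniq1 : ∀ (t : Ω ≃ₐ[F] Ω) (x : 𝓞 F), ac (WAB A B) t T = act x T →
      mk (cj x * x) = mk (cj (q t).1 * (q t).1) := by
    intro t x hx
    have h1 : (M : 𝓞 F) ∣ x - (q t).1 := by
      rw [← hz, act_sub, ← hx, ← (hq t).1, sub_self]
    have h2 : (M : 𝓞 F) ∣ cj x - cj (q t).1 := by
      rw [← map_sub, ← cj_dvd, cj_nat]
      exact h1
    rw [map_mul mk, map_mul mk, (hmk _ _).2 h1, (hmk _ _).2 h2]
  have uniq2 : ∀ (t : Ω ≃ₐ[F] Ω) (n : ℕ), t ζ = ζ ^ n → mk (n : 𝓞 F) = mk ((q t).2 : 𝓞 F) := by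
    intro t n hn
    have h1 : ζ ^ n = ζ ^ (q t).2 := by rw [← hn, (hq t).2]
    have h2 : n ≡ (q t).2 [MOD M] := by
      rw [← pow_mod_orderOf, ← pow_mod_orderOf ζ (q t).2, ← hζ.eq_orderOf] at h1
      exact hζ.pow_inj (Nat.mod_lt _ (Nat.pos_of_ne_zero hM0)) (Nat.mod_lt _ (Nat.pos_of_ne_zero hM0)) h1
    rw [hmk]
    have h4 : (M : ℤ) ∣ ((n : ℤ) - ((q t).2 : ℤ)) := (Nat.modEq_iff_dvd.1 h2.symm)
    obtain ⟨m, hm⟩ := h4
    have h6 : (n : 𝓞 F) - ((q t).2 : 𝓞 F) = (M : 𝓞 F) * (m : 𝓞 F) := by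
      exact_mod_cast congrArg (fun z : ℤ => (z : 𝓞 F)) hm
    rw [h6]
    exact dvd_mul_right _ _
  let D : (Ω ≃ₐ[F] Ω) →* (𝓞 F ⧸ Ideal.span {(M : 𝓞 F)}) :=
    { toFun := fun t => mk (cj (q t).1 * (q t).1)
      map_one' := by
        rw [← uniq1 1 1 (by rw [H55K.S.ac_one, H55K.S.act_one])]
        simp
      map_mul' := fun t t' => by
        rw [← uniq1 (t * t') ((q t').1 * (q t).1)
          (by rw [H55K.S.ac_mul, (hq t').1, ac_act hA, (hq t).1, ← act_mul]), ← map_mul, map_mul cj]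
        congr 1
        ring }
  let C : (Ω ≃ₐ[F] Ω) →* (𝓞 F ⧸ Ideal.span {(M : 𝓞 F)}) :=
    { toFun := fun t => mk ((q t).2 : 𝓞 F)
      map_one' := by
        rw [← uniq2 1 1 (by rw [pow_one]; rfl)]
        simp
      map_mul' := fun t t' => by
        rw [← uniq2 (t * t') ((q t).2 * (q t').2) (by
          rw [AlgEquiv.mul_apply, (hq t').2, map_pow, (hq t).2, pow_mul]), ← map_mul]
        congr 1
        push_cast
        rfl }
  have hH : ∀ (t : Ω ≃ₐ[F] Ω) (x : 𝓞 F) (n : ℕ), ac (WAB A B) t T = act x T →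
      t ζ = ζ ^ n → (t ∈ MonoidHom.eqLocus D C ↔ (M : 𝓞 F) ∣ cj x * x - (n : 𝓞 F)) := by
    intro t x n hx hn
    rw [← hmk, uniq1 t x hx, uniq2 t n hn]
    exact Iff.rfl
  have key : MonoidHom.eqLocus D C = ⊤ := by
    have hint : ∀ x : Ω, IsIntegral F x := fun x => (Algebra.IsAlgebraic.isAlgebraic x).isIntegral
    let A₁ : Set Ω := {xc T, yc T, ζ}
    have hAf : A₁.Finite := Set.toFinite A₁
    have hAf' : Finite A₁ := hAf
    have hLf : FiniteDimensional F (IntermediateField.adjoin F A₁) :=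
      IntermediateField.finiteDimensional_adjoin fun x _ => hint x
    obtain ⟨S₀, hS₀, hfr⟩ := d.frob
    refine H13S.PA1_top (F₀ := F) (MonoidHom.eqLocus D C) ?_ (IntermediateField.adjoin F A₁) ?_
      (S₀ ∪ {v | (M : 𝓞 F) ∈ v.asIdeal} ∪ {v | mo ≤ v.asIdeal}) ?_ ?_
    · constructor
      intro t ht g
      show D (g * t * g⁻¹) = C (g * t * g⁻¹)
      have h1 : D t = C t := ht
      rw [map_mul, map_mul, map_mul, map_mul, mul_right_comm, mul_right_comm (C g), h1, ← map_mul,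
        ← map_mul, mul_inv_cancel, map_one, map_one]
    · intro t ht
      have hfix : ∀ x ∈ A₁, t x = x := fun x hx =>
        ht ⟨x, IntermediateField.subset_adjoin F A₁ hx⟩
      have hacne : ∀ P : Pt (WAB A B) Ω, P ≠ 0 → ac (WAB A B) t P ≠ 0 := fun P hP => ac_ne t hP
      have e1 : ac (WAB A B) t T = act 1 T := by
        rw [act_one]
        refine H55K.S.pt_ext (hacne _ hT0) hT0 ?_ ?_
        · rw [H55K.S.xc_ac]
          exact hfix _ (by simp [A₁])
        · rw [H55K.S.yc_ac]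
          exact hfix _ (by simp [A₁])
      rw [hH t 1 1 e1 (by rw [pow_one]; exact hfix _ (by simp [A₁]))]
      simp
    · have hf : ∀ n : ℕ, n ≠ 0 → {v : HeightOneSpectrum (𝓞 F) | (n : 𝓞 F) ∈ v.asIdeal}.Finite := by
        intro n hn
        have h1 : Ideal.span {(n : 𝓞 F)} ≠ 0 := by
          rw [Ideal.zero_eq_bot, Ne, Ideal.span_singleton_eq_bot]
          exact Nat.cast_ne_zero.2 hn
        refine (Ideal.finite_factors h1).subset ?_
        intro v hv
        exact Ideal.dvd_span_singleton.2 hv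
      have hm : {v : HeightOneSpectrum (𝓞 F) | mo ≤ v.asIdeal}.Finite := by
        refine (Ideal.finite_factors d.hecke.ne).subset ?_
        intro v hv
        exact Ideal.dvd_iff_le.2 hv
      exact (hS₀.union (hf M hM0)).union hm
    · intro v hv hqp V hV t ht
      rw [Set.mem_union, Set.mem_union, not_or, not_or] at hv
      obtain ⟨⟨hvS, hvl⟩, hvm⟩ := hv
      change (M : 𝓞 F) ∉ v.asIdeal at hvl
      change ¬ mo ≤ v.asIdeal at hvm
      have hcop : IsCoprime v.asIdeal mo := by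
        rw [Ideal.isCoprime_iff_sup_eq]
        exact v.isMaximal.1.2 _ (left_lt_sup.2 hvm)
      have hspan := d.hecke.gen v.asIdeal hcop
      have hNm : Nm (ψ v.asIdeal) = Ideal.absNorm v.asIdeal := by
        unfold Nm
        rw [hspan]
      have hVl : ¬ V.valuation (M : Ω) < 1 := by
        intro hlt
        have h1 : Ideal.span {(M : 𝓞 F)} ⊔ v.asIdeal = ⊤ := by
          rw [sup_comm]
          refine v.isMaximal.1.2 _ (left_lt_sup.2 fun h => hvl (h (Ideal.mem_span_singleton_self _)))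
        have h2 : (1 : 𝓞 F) ∈ Ideal.span {(M : 𝓞 F)} ⊔ v.asIdeal := by
          rw [h1]
          exact Submodule.mem_top
        obtain ⟨x, hx, y, hy, hxy⟩ := Submodule.mem_sup.1 h2
        obtain ⟨z, rfl⟩ := Ideal.mem_span_singleton.1 hx
        have h3 : vo V ((M : 𝓞 F) * z) < 1 := by
          rw [vo_mul, vo_nat]
          exact lt_of_le_of_lt (mul_le_of_le_one_right' (vo_le V z)) hlt
        have h4 := vo_add V h3 (hV y hy)
        rw [hxy, vo_one] at h4
        exact lt_irrefl _ h4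
      have hV1 : V.valuation (M : Ω) = 1 := by
        refine le_antisymm ?_ (not_lt.1 hVl)
        rw [← vo_nat (F := F)]
        exact vo_le V _
      have hk : M • T = 0 := by
        rw [← act_nat (act := act)]
        exact (hz _).2 dvd_rfl
      have f1 := hfr v hvS hqp V hV t ht M hV1 T hk
      have f3 := g4_zeta M hM0 ζ hζ V hVl _ t ht
      rw [hH t _ _ f1 f3, mul_comm, mul_cj, hNm, sub_self]
      exact dvd_zero _
  have h1 : s ∈ MonoidHom.eqLocus D C := by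
    rw [key]
    exact Subgroup.mem_top s
  have h2 := (hH s u (q s).2 hu (hq s).2).1 h1
  rw [mul_comm, mul_cj] at h2
  have h3 : (M : ℤ) ∣ (Nm u : ℤ) - ((q s).2 : ℤ) := by
    apply g4_int (F := F)
    push_cast
    exact h2
  have h4 : (q s).2 ≡ Nm u [MOD M] := Nat.modEq_iff_dvd.2 h3
  have h5 : nrm u = Nm u := by
    unfold nrm Nm
    rw [Ideal.absNorm_span_singleton]
  rw [h5, (hq s).2]
  rw [← pow_mod_orderOf, ← pow_mod_orderOf ζ (Nm u), ← hζ.eq_orderOf]
  exact congrArg (fun k => ζ ^ k) h4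

end g4

theorem gal_zeta {F : Type} [Field F] [NumberField F] [IQ F] {A B : F} {Om : ℂ} {Ω : Type} [Field Ω] [DecidableEq Ω] [Algebra F Ω] [IsAlgClosure F Ω]
    {j : Ω →+* ℂ} {act : 𝓞 F →+* AddMonoid.End (Pt (WAB A B) Ω)} {m : Ideal (𝓞 F)} {ψ : Ideal (𝓞 F) →*₀ 𝓞 F} {p : ℕ} [Fact p.Prime]
    (d : Dta A B Om j act m ψ p) (hin : (Ideal.span {(p : 𝓞 F)}).IsPrime) {N : ℕ} {T : Pt (WAB A B) Ω}
    (hT : ∀ a : 𝓞 F, act a T = 0 ↔ (p : 𝓞 F) ^ N ∣ a) {ζ : Ω} (hζ : IsPrimitiveRoot ζ (p ^ N)) (s : Ω ≃ₐ[F] Ω) (u : 𝓞 F)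
    (hu : ac (WAB A B) s T = act u T) : s ζ = ζ ^ nrm u := by
  classical
  have hp : p.Prime := Fact.out
  by_cases hN : N = 0
  · subst hN
    rw [pow_zero] at hζ
    have h1 : ζ = 1 := IsPrimitiveRoot.one_right_iff.1 hζ
    rw [h1, map_one, one_pow]
  exact g4_main d hin hN hT hζ s u hu

end SSG
end

-- from Lib.SSG.Z.G5
section

/-! Chunk G5 (M). Assembly of GAL. k = (kF (i.comp (algebraMap F Ω))).toSubfield, G = GF (i.comp (algebraMap F Ω)). A coherent system of primitive roots of unity in Ω (algebraically closed, characteristic 0): z 0 = 1, z 1 a primitive p-th root, z (N+1) a p-th root of z N (recursion; for N ≥ 1 every p-th root of a primitive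
p^N-th root of unity is a primitive p^(N+1)-th root: IsPrimitiveRoot.of .. order p^(N+1): orderOf_eq_prime_pow or IsPrimitiveRoot.iff_orderOf; for N = 0 choose it ≠ 1), or: the primitive p^(N+1)-th roots surject onto the primitive p^N-th roots under the p-th power. ζ N = i (z N) (IsPrimitiveRoot.map_of_injective).
gal: restr (G2) gives s, gal_T (G3) gives u (from CMA = d.cma), gal_zeta (G4) with a = 1 (act 1 = id): s (z N) = z N ^ nrm u, apply i. -/

open NumberField WeierstrassCurve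

namespace SSG

open H55P (IQ Pt ac)
open H35P (WAB tt)
open H55K

theorem g5_step {Ω : Type} [Field Ω] [IsAlgClosed Ω] [CharZero Ω] {p : ℕ} (hp : p.Prime) (N : ℕ) (z : Ω)
    (hz : IsPrimitiveRoot z (p ^ N)) : ∃ w : Ω, IsPrimitiveRoot w (p ^ (N + 1)) ∧ w ^ p = z := by
  rcases Nat.eq_zero_or_pos N with h0 | h0
  · subst h0
    rw [pow_zero] at hz
    have hz1 : z = 1 := IsPrimitiveRoot.one_right_iff.1 hz
    haveI : NeZero (p : Ω) := ⟨Nat.cast_ne_zero.2 hp.ne_zero⟩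
    obtain ⟨w, hw⟩ := HasEnoughRootsOfUnity.exists_primitiveRoot Ω p
    refine ⟨w, ?_, ?_⟩
    · rw [zero_add, pow_one]
      exact hw
    · rw [hz1]
      exact hw.pow_eq_one
  · obtain ⟨w, hw⟩ := IsAlgClosed.exists_pow_nat_eq z hp.pos
    refine ⟨w, ?_, hw⟩
    rw [IsPrimitiveRoot.iff_orderOf]
    haveI : Fact p.Prime := ⟨hp⟩
    obtain ⟨M, rfl⟩ : ∃ M, N = M + 1 := ⟨N - 1, by omega⟩
    refine orderOf_eq_prime_pow ?_ ?_
    · intro h1
      have h2 : z ^ p ^ M = 1 := by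
        rw [← hw, ← pow_mul, ← pow_succ']
        exact h1
      have h3 := hz.dvd_of_pow_eq_one _ h2
      have h4 := (Nat.pow_dvd_pow_iff_le_right hp.one_lt).1 h3
      omega
    · rw [pow_succ', pow_mul, hw]
      exact hz.pow_eq_one

theorem g5_sys {Ω : Type} [Field Ω] [IsAlgClosed Ω] [CharZero Ω] {p : ℕ} (hp : p.Prime) :
    ∃ z : ℕ → Ω, (∀ N, IsPrimitiveRoot (z N) (p ^ N)) ∧ ∀ N, z (N + 1) ^ p = z N := by
  let g : ∀ N : ℕ, {z : Ω // IsPrimitiveRoot z (p ^ N)} := fun N => Nat.rec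
    (motive := fun N => {z : Ω // IsPrimitiveRoot z (p ^ N)})
    ⟨1, by rw [pow_zero]; exact IsPrimitiveRoot.one⟩
    (fun N z => ⟨(g5_step hp N z.1 z.2).choose, (g5_step hp N z.1 z.2).choose_spec.1⟩) N
  exact ⟨fun N => (g N).1, fun N => (g N).2, fun N => (g5_step hp N (g N).1 (g N).2).choose_spec.2⟩

theorem exists_gal {F : Type} [Field F] [NumberField F] [IQ F] {A B : F} {Om : ℂ} {Ω : Type} [Field Ω] [DecidableEq Ω] [Algebra F Ω] [IsAlgClosure F Ω]
    {j : Ω →+* ℂ} {act : 𝓞 F →+* AddMonoid.End (Pt (WAB A B) Ω)} {m : Ideal (𝓞 F)} {ψ : Ideal (𝓞 F) →*₀ 𝓞 F} {p : ℕ} [Fact p.Prime]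
    (d : Dta A B Om j act m ψ p) (hin : (Ideal.span {(p : 𝓞 F)}).IsPrime) (V : ValuationSubring Ω) (i : Ω →+* PadicAlgCl p)
    (hi : ∀ x : Ω, x ∈ V ↔ ‖i x‖ ≤ 1) (T : ℕ → Pt (WAB A B) Ω) (hT : ∀ N (a : 𝓞 F), act a (T N) = 0 ↔ (p : 𝓞 F) ^ N ∣ a) :
    ∃ (k : Subfield (PadicAlgCl p)) (G : Subgroup (RingAut (PadicAlgCl p))) (ζ : ℕ → PadicAlgCl p),
      (∀ x : F, i (algebraMap F Ω x) ∈ k) ∧ (∀ x ∈ k, x ≠ 0 → ∃ n : ℤ, ‖x‖ = ‖(p : PadicAlgCl p)‖ ^ n) ∧
      (∀ σ ∈ G, ∀ x : PadicAlgCl p, ‖σ x‖ = ‖x‖) ∧ (∀ σ ∈ G, ∀ x ∈ k, σ x = x) ∧ (∀ x : PadicAlgCl p, (∀ σ ∈ G, σ x = x) → x ∈ k) ∧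
      (∀ N, IsPrimitiveRoot (ζ N) (p ^ N)) ∧ (∀ N, ζ (N + 1) ^ p = ζ N) ∧
      ∀ σ ∈ G, ∀ N, ∃ u : 𝓞 F, ¬ (p : 𝓞 F) ∣ u ∧ σ (ζ N) = ζ N ^ nrm u ∧ ∃ s : Ω ≃ₐ[F] Ω, H55P.Dec V s ∧ (∀ x : Ω, i (s x) = σ (i x)) ∧
        ∀ a : 𝓞 F, ac (WAB A B) s (act a (T N)) = act (u * a) (T N) := by
  have hp : p.Prime := Fact.out
  haveI : IsAlgClosed Ω := IsAlgClosure.isAlgClosed F
  haveI : Algebra.IsAlgebraic F Ω := IsAlgClosure.isAlgebraic
  haveI : CharZero Ω := charZero_of_injective_algebraMap (algebraMap F Ω).injective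
  obtain ⟨z, hz, hzp⟩ := g5_sys (Ω := Ω) hp
  refine ⟨(kF (i.comp (algebraMap F Ω))).toSubfield, GF (i.comp (algebraMap F Ω)), fun N => i (z N),
    fun x => IntermediateField.subset_adjoin ℚ_[p] _ ⟨x, rfl⟩,
    fun x hx hx0 => kF_val hin (i.comp (algebraMap F Ω)) x hx hx0,
    fun σ hσ x => GF_iso (i.comp (algebraMap F Ω)) σ hσ x, fun σ hσ x hx => hσ x hx,
    fun x hx => GF_fix (i.comp (algebraMap F Ω)) x hx,
    fun N => (hz N).map_of_injective i.injective,
    fun N => by rw [← map_pow, hzp], ?_⟩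
  intro σ hσ N
  obtain ⟨s, hdec, hs⟩ := restr i V hi σ hσ
  obtain ⟨u, hu, hua⟩ := gal_T d.cma hp hin (hT N) s
  refine ⟨u, hu, ?_, s, hdec, hs, hua⟩
  have h1 : ac (WAB A B) s (T N) = act u (T N) := by
    have h2 := hua 1
    rw [map_one, mul_one] at h2
    exact h2
  have h3 := gal_zeta d hin (hT N) (hz N) s u h1
  rw [← hs, h3, map_pow]

end SSG
end

-- from Lib.SSG.LT.XM2
section

/-! # SSG/LT: theta for the curve -/

open NumberField IsDedekindDomain WeierstrassCurve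

namespace SSG.LT

open H55P (IQ embF eF LF Per IsHecke Pt ac Inert Dec)
open H35P (WAB Ker tt)
open H55K

/-! Chunk XM2 (M). PROOF. R = V.comap (algebraMap F Ω) (a valuation ring of F), φ : R →+* C, x ↦ i (algebraMap F Ω x), norm ≤ 1 (hi). f' : R⟦X⟧ = PowerSeries.mk (fun n => ⟨coeff n f, _⟩) (value ≤ 1: n = 0: f0, n = p^2: coeff - 1 has value ≤ V p < 1, other n:
≤ V p; n = 1: -p). exists_theta for π = -p, e = 2 (rv_fermat with IQ.deg, π ∣ p, rv_unit, rv_dvd for fq, fq'): the sequence a' : ℕ → R; a n = (a' n : F). theta_val at z = i (tt P) (‖z‖ < 1 because V(tt P) < 1: hypothesis hlt):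
ev φ f' z = ∑' n, i (coeff n f) z^n = i (tt (-(p • P))) by hf (HasSum.tsum_eq). φ(-p) = -p. -/

theorem xm2 {F : Type} [Field F] [NumberField F] [IQ F] {A B : F} {Ω : Type} [Field Ω] [CharZero Ω] [DecidableEq Ω]
    [Algebra F Ω] {V : ValuationSubring Ω} {C : Type} [NormedField C] [IsUltrametricDist C] [CompleteSpace C]
    (i : Ω →+* C) (hi : ∀ x, x ∈ V ↔ ‖i x‖ ≤ 1) {p : ℕ} [Fact p.Prime] (hin : Prime (p : 𝓞 F))
    (hV : V.valuation (p : Ω) < 1) {f : PowerSeries F} (f0 : PowerSeries.constantCoeff f = 0)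
    (f1 : PowerSeries.coeff 1 f = -(p : F))
    (fV : ∀ n, n ≠ p ^ 2 → V.valuation (algebraMap F Ω (PowerSeries.coeff n f)) ≤ V.valuation (p : Ω))
    (fq : V.valuation (algebraMap F Ω (PowerSeries.coeff (p ^ 2) f) - 1) ≤ V.valuation (p : Ω))
    (hlt : ∀ P : Pt (WAB A B) Ω, Ker V P → ‖i (tt P)‖ < 1)
    (hf : ∀ P : Pt (WAB A B) Ω, Ker V P → HasSum (fun n => i (algebraMap F Ω (PowerSeries.coeff n f)) * i (tt P) ^ n)
      (i (tt (-(p • P))))) :
    ∃ a : ℕ → F, a 0 = 0 ∧ a 1 = 1 ∧ (∀ n, ‖i (algebraMap F Ω (a n))‖ ≤ 1) ∧ ∀ P : Pt (WAB A B) Ω, Ker V P →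
      sv (fun n => i (algebraMap F Ω (a n))) (i (tt (-(p • P)))) =
        -(p : C) * sv (fun n => i (algebraMap F Ω (a n))) (i (tt P)) +
          sv (fun n => i (algebraMap F Ω (a n))) (i (tt P)) ^ (p ^ 2) := by
  have hp : p.Prime := Fact.out
  have hmem : ∀ n, PowerSeries.coeff n f ∈ V.comap (algebraMap F Ω) := by
    intro n
    rw [rv_mem]
    by_cases hn : n = p ^ 2
    · rw [hn]
      have e : algebraMap F Ω (PowerSeries.coeff (p ^ 2) f) = (algebraMap F Ω (PowerSeries.coeff (p ^ 2) f) - 1) + 1 := by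
        ring
      rw [e]
      exact V.valuation.map_add_le (fq.trans hV.le) (by rw [map_one])
    · exact (fV n hn).trans hV.le
  let φ : V.comap (algebraMap F Ω) →+* C := i.comp ((algebraMap F Ω).comp (V.comap (algebraMap F Ω)).subtype)
  have hφe : ∀ r : V.comap (algebraMap F Ω), φ r = i (algebraMap F Ω (r : F)) := fun r => rfl
  have hφ : ∀ r, ‖φ r‖ ≤ 1 := by
    intro r
    rw [hφe, ← hi]
    exact ValuationSubring.mem_comap.1 r.2
  let f' : PowerSeries (V.comap (algebraMap F Ω)) := PowerSeries.mk fun n => ⟨PowerSeries.coeff n f, hmem n⟩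
  have hf' : ∀ n, PowerSeries.coeff n f' = ⟨PowerSeries.coeff n f, hmem n⟩ := fun n => PowerSeries.coeff_mk _ _
  have f0' : PowerSeries.constantCoeff f' = 0 := by
    rw [← PowerSeries.coeff_zero_eq_constantCoeff_apply, hf']
    apply Subtype.ext
    show PowerSeries.coeff 0 f = 0
    rw [PowerSeries.coeff_zero_eq_constantCoeff_apply, f0]
  have f1' : PowerSeries.coeff 1 f' = -(p : V.comap (algebraMap F Ω)) := by
    rw [hf']
    apply Subtype.ext
    exact f1
  have fq1 : ∀ n, n ≠ p ^ 2 → -(p : V.comap (algebraMap F Ω)) ∣ PowerSeries.coeff n f' := by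
    intro n hn
    rw [hf']
    exact rv_dvd p hp.ne_zero V _ (fV n hn)
  have fq2 : -(p : V.comap (algebraMap F Ω)) ∣ PowerSeries.coeff (p ^ 2) f' - 1 := by
    rw [hf']
    refine rv_dvd p hp.ne_zero V _ ?_
    show V.valuation (algebraMap F Ω (PowerSeries.coeff (p ^ 2) f - 1)) ≤ V.valuation (p : Ω)
    rw [map_sub, map_one]
    exact fq
  obtain ⟨a', ha0, ha1, ha⟩ := exists_theta (π := -(p : V.comap (algebraMap F Ω))) (e := 2) hp (by norm_num)
    (rv_fermat IQ.deg p hp hin V hV) (neg_dvd.2 dvd_rfl) (rv_unit p V hV) f0' f1' fq1 fq2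
  refine ⟨fun n => (a' n : F), ?_, ?_, fun n => hφ (a' n), ?_⟩
  · show ((a' 0 : V.comap (algebraMap F Ω)) : F) = 0
    rw [ha0]
    rfl
  · show ((a' 1 : V.comap (algebraMap F Ω)) : F) = 1
    rw [ha1]
    rfl
  · intro P hP
    have h1 := theta_val φ hφ (hlt P hP) f0' ha
    have h2 : ev φ hφ (hlt P hP) f' = i (tt (-(p • P))) := by
      rw [ev_apply, ← (hf P hP).tsum_eq]
      unfold sv
      refine tsum_congr fun n => ?_
      show φ (PowerSeries.coeff n f') * i (tt P) ^ n = _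
      rw [hf', hφe]
    have h3 : φ (-(p : V.comap (algebraMap F Ω))) = -(p : C) := by rw [map_neg, map_natCast]
    rw [h2, h3] at h1
    exact h1

end SSG.LT
end

-- from Lib.SSG.F.E1
section

/-! # SSG/F/E1 : the leading term at level one -/

open Polynomial
open scoped Classical

namespace SSF

variable {p : ℕ} [Fact p.Prime] {R : ℕ → Type} [∀ N, CommRing (R N)] [∀ N, Fintype (R N)]
  {L : Type} [NormedField L] [IsUltrametricDist L] (D : LTD p R L)

/-- `T 1 1 h` is the sum of `h(X x)` over the `p + 1` elements of norm one (`D.norm1`), all units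
(`D.nmu`), `‖X x‖ < 1` (`norm_X_lt`), so `‖ev h (X x) - h.coeff 0‖ < 1` (`h = C (h.coeff 0) + X h'`,
`Polynomial.divX_mul_X_add`); so the sum is congruent to `(p+1) h.coeff 0`, and `‖p‖ < 1`. -/
theorem lead_one (h : D.W[X]) : ‖D.T 1 1 h - (h.coeff 0 : L)‖ < 1 := by
  have hsum : ∀ (s : Finset (R 1)) (f : R 1 → L), (∀ x ∈ s, ‖f x‖ < 1) → ‖∑ x ∈ s, f x‖ < 1 := by
    intro s f hf
    induction s using Finset.induction_on with
    | empty => simp
    | insert a s ha ih =>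
      rw [Finset.sum_insert ha]
      refine (IsUltrametricDist.norm_add_le_max _ _).trans_lt (max_lt (hf a (Finset.mem_insert_self a s)) ?_)
      exact ih fun x hx => hf x (Finset.mem_insert_of_mem hx)
  have hev : ∀ (g : D.W[X]) (y : L), ‖y‖ ≤ 1 → ‖D.ev g y‖ ≤ 1 := by
    intro g y hy
    unfold LTD.ev
    rw [eval₂_eq_sum_range]
    refine IsUltrametricDist.norm_sum_le_of_forall_le_of_nonneg zero_le_one fun i _ => ?_
    rw [norm_mul, norm_pow]
    exact mul_le_one₀ (g.coeff i).2.2 (by positivity) (pow_le_one₀ (norm_nonneg _) hy)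
  have hx : ∀ x ∈ Finset.univ.filter (fun x : R 1 => D.nm 1 x = 1),
      ‖D.ev h (D.X 1 x) - (h.coeff 0 : L)‖ < 1 := by
    intro x hx
    have hn : D.nm 1 x = 1 := (Finset.mem_filter.1 hx).2
    have hu : IsUnit x := D.nmu 1 x (by rw [hn]; exact isUnit_one)
    have hy : ‖D.X 1 x‖ < 1 := norm_X_lt D 0 x hu
    have e1 : D.ev h (D.X 1 x) = D.ev (divX h) (D.X 1 x) * D.X 1 x + (h.coeff 0 : L) := by
      have e2 := congrArg (fun g => D.ev g (D.X 1 x)) (divX_mul_X_add h)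
      simp only [LTD.ev, eval₂_add, eval₂_mul, eval₂_X, eval₂_C] at e2
      rw [LTD.ev, ← e2]
      rfl
    rw [e1, add_sub_cancel_right, norm_mul]
    calc ‖D.ev (divX h) (D.X 1 x)‖ * ‖D.X 1 x‖ ≤ 1 * ‖D.X 1 x‖ :=
          mul_le_mul_of_nonneg_right (hev _ _ hy.le) (norm_nonneg _)
      _ < 1 := by rwa [one_mul]
  have hcard : (Finset.univ.filter (fun x : R 1 => D.nm 1 x = 1)).card = p + 1 := by
    rw [← D.norm1, Nat.card_eq_fintype_card, Fintype.card_subtype]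
  have e3 : D.T 1 1 h - (h.coeff 0 : L) =
      (∑ x ∈ Finset.univ.filter (fun x : R 1 => D.nm 1 x = 1), (D.ev h (D.X 1 x) - (h.coeff 0 : L))) +
        (p : L) * (h.coeff 0 : L) := by
    rw [Finset.sum_sub_distrib, Finset.sum_const, hcard, nsmul_eq_mul]
    unfold LTD.T
    push_cast
    ring
  rw [e3]
  refine (IsUltrametricDist.norm_add_le_max _ _).trans_lt (max_lt (hsum _ _ hx) ?_)
  rw [norm_mul]
  calc ‖(p : L)‖ * ‖(h.coeff 0 : L)‖ ≤ ‖(p : L)‖ * 1 := mul_le_mul_of_nonneg_left (h.coeff 0).2.2 (norm_nonneg _)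
    _ < 1 := by rw [mul_one]; exact D.hp1

end SSF
end

-- from Lib.SSG.F.Z1
section

/-! # SSG/F/Z1 : `S` and `T_e` of monomials -/

open Polynomial
open scoped Classical

namespace SSF

variable {p : ℕ} [Fact p.Prime] {R : ℕ → Type} [∀ N, CommRing (R N)] [∀ N, Fintype (R N)]
  {L : Type} [NormedField L] [IsUltrametricDist L] (D : LTD p R L)

variable {K : Type} [NormedField K] (j : L →+* K)

/-- `S` of a monomial is a product of one-variable sums. PROOF. `Finset.prod_univ_sum`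
(`prod_i sum_a f i a = sum over x ∈ Fintype.piFinset univ`, and `Fintype.piFinset_univ`),
`Finset.prod_mul_distrib`, `map_sum, map_mul, map_pow`; `D.ev (X^m) x = x^m`. -/
theorem SK_mono (N : ℕ) (ι : Type) [Fintype ι] (χ : DirichletCharacter L (p ^ N)) (m : ι → ℕ) (c : K) :
    D.SK j N ι χ (fun x => c * ∏ i, j (D.X N (x i)) ^ m i) =
      c * ∏ i, j (D.S N χ (X ^ m i)) := by
  classical
  unfold LTD.SK LTD.S
  have hev : ∀ (k : ℕ) (x : R N), D.ev (X ^ k) (D.X N x) = D.X N x ^ k := fun k x => by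
    simp [LTD.ev]
  have h1 : ∀ i, j (∑ x : R N, χ (D.nm N x) * D.ev (X ^ m i) (D.X N x)) =
      ∑ x : R N, j (χ (D.nm N x)) * j (D.X N x) ^ m i := by
    intro i
    rw [map_sum]
    refine Finset.sum_congr rfl fun x _ => ?_
    rw [map_mul, hev, map_pow]
  simp only [h1]
  rw [Finset.prod_univ_sum, Fintype.piFinset_univ, Finset.mul_sum]
  refine Finset.sum_congr rfl fun x _ => ?_
  rw [Finset.prod_mul_distrib]
  ring

/-- the same for `T_e`: the filter is the `piFinset` of the one-variable filters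
(`Fintype.mem_piFinset`). -/
theorem TK_mono (N : ℕ) (ι : Type) [Fintype ι] (e : ι → ℕ) (m : ι → ℕ) (c : K) :
    D.TK N ι e (fun x => c * ∏ i, j (D.X N (x i)) ^ m i) =
      c * ∏ i, j (((-(p : L)) ^ (e i))⁻¹ * ∑ x ∈ Finset.univ.filter
        (fun x : R N => ∃ y : R N, x = (p : R N) ^ (N - e i) * y), D.ev (X ^ m i) (D.X N x)) := by
  classical
  unfold LTD.TK
  have hev : ∀ (k : ℕ) (x : R N), D.ev (X ^ k) (D.X N x) = D.X N x ^ k := fun k x => by
    simp [LTD.ev]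
  have h1 : ∀ i, j (((-(p : L)) ^ (e i))⁻¹ * ∑ x ∈ Finset.univ.filter
        (fun x : R N => ∃ y : R N, x = (p : R N) ^ (N - e i) * y), D.ev (X ^ m i) (D.X N x)) =
      ((-(p : K)) ^ (e i))⁻¹ * ∑ x ∈ Finset.univ.filter
        (fun x : R N => ∃ y : R N, x = (p : R N) ^ (N - e i) * y), j (D.X N x) ^ m i := by
    intro i
    rw [map_mul, map_inv₀, map_pow, map_neg, map_natCast, map_sum]
    congr 1
    refine Finset.sum_congr rfl fun x _ => ?_
    rw [hev, map_pow]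
  simp only [h1]
  rw [Finset.prod_mul_distrib, Finset.prod_univ_sum]
  have h2 : Finset.univ.filter (fun x : ι → R N => ∀ i, ∃ y : R N, x i = (p : R N) ^ (N - e i) * y) =
      Fintype.piFinset fun i => Finset.univ.filter
        (fun x : R N => ∃ y : R N, x = (p : R N) ^ (N - e i) * y) := by
    ext x
    simp only [Fintype.mem_piFinset, Finset.mem_filter, Finset.mem_univ, true_and]
  rw [h2, ← Finset.mul_sum]
  ring

end SSF
end

-- from Lib.SSG.F.Y1
section

/-! # SSG/F/Y1 : characters of order `p^(N-1)` -/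

open Polynomial NumberField
open scoped Classical

namespace SSF

open SSG

/-- A character modulo `p^N` of order `p^(N-1)`, `N ≥ 2`, is primitive. PROOF. `conductor ∣ p^N`, so
it is `p^M`, `M ≤ N` (`Nat.dvd_prime_pow`). If `M ≤ N - 1` then `χ` factors through `p^M`
(`DirichletCharacter.factorsThrough_conductor`), `χ = changeLevel χ'`, so for every unit `a`
`χ(a)^(card (ZMod (p^M))ˣ) = 1`, i.e. `χ^c = 1` with `c = card (ZMod (p^M))ˣ = φ(p^M)`, which divides
`p^(N-2) (p-1)` (`M = 0`: `1`; `M ≥ 1`: `p^(M-1)(p-1)`, `ZMod.card_units_eq_totient`,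
`Nat.totient_prime_pow`). So `p^(N-1) ∣ p^(N-2)(p-1)` (`orderOf_dvd_of_pow_eq_one`), `p ∣ p - 1`,
a contradiction. The second claim is `pow_orderOf_eq_one`. -/
theorem prim_of_order {K : Type} [Field K] {p : ℕ} [Fact p.Prime] (N : ℕ) (hN : 2 ≤ N)
    (χ : DirichletCharacter K (p ^ N)) (hχ : orderOf χ = p ^ (N - 1)) :
    χ.IsPrimitive ∧ χ ^ (p ^ (N - 1)) = 1 := by
  have hp : p.Prime := Fact.out
  refine ⟨?_, by rw [← hχ]; exact pow_orderOf_eq_one χ⟩
  rw [DirichletCharacter.isPrimitive_def]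
  obtain ⟨M, hM, hc⟩ := (Nat.dvd_prime_pow hp).1 (DirichletCharacter.conductor_dvd_level χ)
  rcases eq_or_lt_of_le hM with h | h
  · rw [hc, h]
  · exfalso
    have hf := DirichletCharacter.factorsThrough_conductor χ
    rw [hc] at hf
    haveI : NeZero (p ^ M) := ⟨pow_ne_zero M hp.ne_zero⟩
    have h1 : χ ^ (Fintype.card (ZMod (p ^ M))ˣ) = 1 := by
      rw [hf.eq_changeLevel, ← map_pow, MulChar.pow_card_eq_one, map_one]
    have h2 : p ^ (N - 1) ∣ Nat.totient (p ^ M) := by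
      rw [← hχ, ← ZMod.card_units_eq_totient]
      exact orderOf_dvd_of_pow_eq_one h1
    rcases Nat.eq_zero_or_pos M with h0 | h0
    · subst h0
      rw [pow_zero, Nat.totient_one] at h2
      have h3 : p ^ (N - 1) = 1 := Nat.dvd_one.1 h2
      have h4 : 1 < p ^ (N - 1) := Nat.one_lt_pow (by omega) hp.one_lt
      omega
    · rw [Nat.totient_prime_pow hp h0] at h2
      have hcop : Nat.Coprime (p ^ (N - 1)) (p - 1) := by
        apply Nat.Coprime.pow_left
        rw [Nat.Prime.coprime_iff_not_dvd hp]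
        intro hd
        have := Nat.le_of_dvd (by have := hp.two_le; omega) hd
        have := hp.two_le
        omega
      have h3 := hcop.dvd_of_dvd_mul_right h2
      have h4 := (Nat.pow_dvd_pow_iff_le_right hp.one_lt).1 h3
      omega

end SSF
end

-- from Lib.SSG.F.Y2
section

/-! # SSG/F/Y2 : descent of the character -/

open Polynomial NumberField
open scoped Classical

namespace SSF

open SSG

/-- If `L₀` contains a primitive `p^N`-th root of unity, a character of `p`-power order with values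
in `K` comes from `L₀`. PROOF. For a unit `a` `χ(a)^(p^N) = 1` (the order divides `p^N`), so
`χ(a) = j(ζ)^k` for some `k` (`j ζ` is a primitive root: `IsPrimitiveRoot.map_of_injective`,
`IsPrimitiveRoot.eq_pow_of_pow_eq_one`), so `χ(a) = j(c a)` with a unique unit `c a : L₀ˣ` (`j` is
injective), and `a ↦ c a` is multiplicative because `j` is injective: a hom
`(ZMod (p^N))ˣ →* L₀ˣ`, `χ₀ = MulChar.ofUnitHom`. `j (χ₀ a) = χ a` also for non-units (both `0`).
`orderOf χ₀ = orderOf χ` (`j` injective; or `χ₀^m = 1 ↔ χ^m = 1`), `prim_of_order` for `χ₀`. -/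
theorem char_descent {L₀ K : Type} [Field L₀] [Field K] (j : L₀ →+* K) {p : ℕ} [Fact p.Prime]
    (N : ℕ) (hN : 2 ≤ N) (ζ : L₀) (hζ : IsPrimitiveRoot ζ (p ^ N))
    (χ : DirichletCharacter K (p ^ N)) (hχ : orderOf χ = p ^ (N - 1)) :
    ∃ χ₀ : DirichletCharacter L₀ (p ^ N), (∀ a, j (χ₀ a) = χ a) ∧ χ₀.IsPrimitive ∧
      χ₀ ^ (p ^ (N - 1)) = 1 := by
  have hp : p.Prime := Fact.out
  have hj : Function.Injective j := j.injective
  have hpos : 0 < p ^ N := pow_pos hp.pos N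
  have hne : NeZero (p ^ N) := ⟨hpos.ne'⟩
  have h1 : ∀ a : (ZMod (p ^ N))ˣ, ∃ c : L₀, c ≠ 0 ∧ j c = χ (a : ZMod (p ^ N)) := by
    intro a
    have h2 : χ ^ (p ^ N) = 1 := by
      rw [← orderOf_dvd_iff_pow_eq_one, hχ]
      exact pow_dvd_pow p (Nat.sub_le N 1)
    have h3 : χ (a : ZMod (p ^ N)) ^ (p ^ N) = 1 := by
      rw [← MulChar.pow_apply_coe, h2, MulChar.one_apply_coe]
    obtain ⟨k, _, hk⟩ := (hζ.map_of_injective hj).eq_pow_of_pow_eq_one h3
    refine ⟨ζ ^ k, pow_ne_zero k (hζ.ne_zero hpos.ne'), ?_⟩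
    rw [map_pow, hk]
  choose c hc0 hc using h1
  let f : (ZMod (p ^ N))ˣ →* L₀ˣ :=
    { toFun := fun a => Units.mk0 (c a) (hc0 a)
      map_one' := by
        apply Units.ext
        apply hj
        rw [Units.val_mk0, hc, Units.val_one, Units.val_one, map_one, map_one]
      map_mul' := by
        intro a b
        apply Units.ext
        apply hj
        rw [Units.val_mul, Units.val_mk0, Units.val_mk0, Units.val_mk0, map_mul, hc, hc, hc,
          Units.val_mul, map_mul] }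
  have hf : ∀ a : ZMod (p ^ N), j (MulChar.ofUnitHom f a) = χ a := by
    intro a
    by_cases ha : IsUnit a
    · obtain ⟨u, rfl⟩ := ha
      rw [MulChar.ofUnitHom_coe]
      exact hc u
    · rw [MulChar.map_nonunit _ ha, MulChar.map_nonunit _ ha, map_zero]
  have ho : orderOf (MulChar.ofUnitHom f : DirichletCharacter L₀ (p ^ N)) = p ^ (N - 1) := by
    rw [← hχ, orderOf_eq_orderOf_iff]
    intro m
    constructor
    · intro hm
      ext a
      have h2 := congrArg (fun ψ : MulChar (ZMod (p ^ N)) L₀ => j (ψ (a : ZMod (p ^ N)))) hm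
      simp only [MulChar.pow_apply_coe, MulChar.one_apply_coe, map_pow, hf, map_one] at h2
      rw [MulChar.pow_apply_coe, MulChar.one_apply_coe, h2]
    · intro hm
      ext a
      apply hj
      have h2 := congrArg (fun ψ : MulChar (ZMod (p ^ N)) K => ψ (a : ZMod (p ^ N))) hm
      simp only [MulChar.pow_apply_coe, MulChar.one_apply_coe] at h2
      rw [MulChar.pow_apply_coe, MulChar.one_apply_coe, map_pow, hf, h2, map_one]
  obtain ⟨h5, h6⟩ := prim_of_order N hN (MulChar.ofUnitHom f : DirichletCharacter L₀ (p ^ N)) ho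
  exact ⟨MulChar.ofUnitHom f, hf, h5, h6⟩

end SSF
end

-- from Lib.SSG.F.Y4
section

/-! # SSG/F/Y4 : the functions `Fn` descend to `𝓞 F / p^N` -/

open Polynomial NumberField
open scoped Classical

namespace SSF

open SSG

variable {F : Type} [Field F] [NumberField F] {p : ℕ} [Fact p.Prime]
  {L₀ : Type} [NormedField L₀] [IsUltrametricDist L₀] (D : LTD p (RF F p) L₀)
  {C : Type} [NormedField C] (j : L₀ →+* C) (L : LTF F C)

/-- `H` depends only on the classes (it is a limit of functions of the `X N (a i) = j (D.X N (class))`: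
if `a i ≡ b i` for all `i` then `‖H a - H b‖ ≤ 2 ε` for all `ε > 0`). Define
`H' x = H (fun i => representative of x i)` (`Quotient.out`, `Ideal.Quotient.mk_out`/
`Ideal.Quotient.mk_surjective`); `CalF` with `ε/2` (`≤` versus `<`). -/
theorem Fn_descend (hX : ∀ N a, L.X N a = j (D.X N (mkF p N a))) (N : ℕ) (ι : Type) [Fintype ι]
    (H : (ι → 𝓞 F) → C) (hH : L.Fn N ι H) :
    ∃ H' : (ι → RF F p N) → C, (∀ a, H a = H' (fun i => mkF p N (a i))) ∧ D.CalF j N ι H' := by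
  have hout : ∀ x : RF F p N, ∃ r : 𝓞 F, mkF p N r = x := Ideal.Quotient.mk_surjective
  choose r hr using hout
  refine ⟨fun x => H (fun i => r (x i)), fun a => ?_, fun ε hε => ?_⟩
  · have h1 : ∀ ε > 0, ‖H a - H (fun i => r (mkF p N (a i)))‖ ≤ ε := by
      intro ε hε
      obtain ⟨Q, _, hQ⟩ := hH (ε / 2) (by positivity)
      have h2 := hQ a
      have h3 := hQ (fun i => r (mkF p N (a i)))
      have h4 : (fun i => L.X N (r (mkF p N (a i)))) = fun i => L.X N (a i) := by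
        funext i
        rw [hX, hX, hr]
      rw [h4] at h3
      have h5 : H a - H (fun i => r (mkF p N (a i))) =
          (H a - MvPolynomial.eval (fun i => L.X N (a i)) Q) -
            (H (fun i => r (mkF p N (a i))) - MvPolynomial.eval (fun i => L.X N (a i)) Q) := by
        ring
      rw [h5]
      refine (norm_sub_le _ _).trans ?_
      linarith
    have h2 : ‖H a - H (fun i => r (mkF p N (a i)))‖ ≤ 0 := le_of_forall_pos_le_add (by
      intro ε hε
      rw [zero_add]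
      exact h1 ε hε)
    exact sub_eq_zero.1 (norm_le_zero_iff.1 h2)
  · obtain ⟨Q, hQ1, hQ⟩ := hH (ε / 2) (by positivity)
    refine ⟨Q, hQ1, fun x => ?_⟩
    have h3 := hQ (fun i => r (x i))
    have h4 : (fun i => L.X N (r (x i))) = fun i => j (D.X N (x i)) := by
      funext i
      rw [hX, hr]
    rw [h4] at h3
    exact h3.trans_lt (by linarith)

end SSF
end

-- from Lib.SSG.F.Y3
section

/-! # SSG/F/Y3 : sums over representatives -/

open Polynomial NumberField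
open scoped Classical

namespace SSF

open SSG

variable {F : Type} [Field F] [NumberField F] {p : ℕ} [Fact p.Prime]

/-- `T → 𝓞 F / p^N` is a bijection (`Rep`, `Ideal.Quotient.eq`, `Ideal.mem_span_singleton`), so
`Fintype.piFinset (fun _ => T) → (ι → 𝓞 F / p^N)` is one: `Finset.sum_bij` / `Finset.sum_nbij`. -/
theorem rep_sum {K : Type} [AddCommMonoid K] (N : ℕ) (T : Finset (𝓞 F)) (hT : Rep p N T)
    (ι : Type) [Fintype ι] [DecidableEq ι] (f : (ι → RF F p N) → K) :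
    ∑ a ∈ Fintype.piFinset (fun _ : ι => T), f (fun i => mkF p N (a i)) =
      ∑ x : ι → RF F p N, f x := by
  have key : ∀ a b : 𝓞 F, mkF p N a = mkF p N b ↔ (p : 𝓞 F) ^ N ∣ a - b := by
    intro a b
    rw [Ideal.Quotient.eq, Ideal.mem_span_singleton]
  refine Finset.sum_bij (fun a _ => fun i => mkF p N (a i)) ?_ ?_ ?_ ?_
  · intro a _
    exact Finset.mem_univ _
  · intro a ha b hb hab
    funext i
    have h1 := congrFun hab i
    have h2 : (p : 𝓞 F) ^ N ∣ a i - b i := (key _ _).1 h1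
    obtain ⟨t, _, ht2⟩ := hT (a i)
    have h3 := ht2 (a i) ⟨Fintype.mem_piFinset.1 ha i, by rw [sub_self]; exact dvd_zero _⟩
    have h4 := ht2 (b i) ⟨Fintype.mem_piFinset.1 hb i, h2⟩
    rw [h3, h4]
  · intro x _
    have h1 : ∀ i, ∃ t : 𝓞 F, t ∈ T ∧ mkF p N t = x i := by
      intro i
      obtain ⟨r, hr⟩ := Ideal.Quotient.mk_surjective (x i)
      obtain ⟨t, ⟨ht, ht1⟩, _⟩ := hT r
      exact ⟨t, ht, ((key _ _).2 ht1).symm.trans hr⟩
    choose t ht ht1 using h1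
    exact ⟨t, Fintype.mem_piFinset.2 ht, funext ht1⟩
  · intro a _
    rfl

/-- `N ≥ 1`: the exponents `e ≤ N` with `N ≤ 2e+1`, `2e ≤ N+1` are `N/2` and `(N+1)/2`
(`Finset.ext`, `omega`). `Eset` is defined in `M3.lean`: `{N / 2, (N + 1) / 2}`. -/
theorem EN_eq (N : ℕ) (hN : 1 ≤ N) : EN N = {N / 2, (N + 1) / 2} := by
  ext e
  rw [EN, Finset.mem_filter, Finset.mem_range, Finset.mem_insert, Finset.mem_singleton]
  omega

end SSF
end

-- from Lib.SSG.F.Y5
section

/-! # SSG/F/Y5 : `SH`, `TH` are `SK`, `TK` -/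

open Polynomial NumberField
open scoped Classical

namespace SSF

open SSG

variable {F : Type} [Field F] [NumberField F] {p : ℕ} [Fact p.Prime]
  {L₀ : Type} [NormedField L₀] [IsUltrametricDist L₀] (D : LTD p (RF F p) L₀)
  {C : Type} [NormedField C] (j : L₀ →+* C)

/-- `rep_sum` for `f x = (prod_i j(χ₀(nm (x i)))) H' x`, `D.nm N (mkF p N a) = nrm a`. -/
theorem SH_eq (hn : ∀ N a, D.nm N (mkF p N a) = ((nrm a : ℕ) : ZMod (p ^ N)))
    (N : ℕ) (χ : DirichletCharacter C (p ^ N)) (χ₀ : DirichletCharacter L₀ (p ^ N))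
    (hχ : ∀ a, j (χ₀ a) = χ a) (ι : Type) [Fintype ι] [DecidableEq ι] (T : Finset (𝓞 F))
    (hT : Rep p N T) (H : (ι → 𝓞 F) → C) (H' : (ι → RF F p N) → C)
    (hH : ∀ a, H a = H' (fun i => mkF p N (a i))) :
    SH χ ι T H = D.SK j N ι χ₀ H' := by
  unfold SH LTD.SK
  refine Eq.trans ?_ ((rep_sum N T hT ι (fun x => (∏ i, j (χ₀ (D.nm N (x i)))) * H' x)).trans ?_)
  · refine Finset.sum_congr rfl fun a _ => ?_
    rw [hH a]
    refine congrArg (fun z => z * H' (fun i => mkF p N (a i))) (Finset.prod_congr rfl fun i _ => ?_)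
    rw [hn, hχ]
  · refine Finset.sum_congr (Finset.ext fun x => iff_of_true (@Finset.mem_univ _ (_) x)
      (@Finset.mem_univ _ (_) x)) fun _ _ => rfl

/-- For `e ≤ N`: `(p : 𝓞 F)^(N-e)` divides `a` iff the class of `a` is `p^(N-e) y` (if
`a = p^(N-e) b + p^N c` then it is divisible by `p^(N-e)`). Then write both sums as sums with
`if` (`Finset.sum_filter`) and use `rep_sum` with `f x = if (∀ i, ∃ y, x i = ..) then H' x else 0`;
`prod_i (-p)^(e i)` inverted is the product of the inverses (`Finset.prod_inv_distrib`). -/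
theorem TH_eq (N : ℕ) (ι : Type) [Fintype ι] (T : Finset (𝓞 F)) (hT : Rep p N T) (e : ι → ℕ)
    (he : ∀ i, e i ≤ N) (H : (ι → 𝓞 F) → C) (H' : (ι → RF F p N) → C)
    (hH : ∀ a, H a = H' (fun i => mkF p N (a i))) :
    TH p N ι T e H = D.TK N ι e H' := by
  have key : ∀ (i : ι) (a : 𝓞 F), (p : 𝓞 F) ^ (N - e i) ∣ a ↔
      ∃ y : RF F p N, mkF p N a = (p : RF F p N) ^ (N - e i) * y := by
    intro i a
    have hmul : ∀ b : 𝓞 F, mkF p N ((p : 𝓞 F) ^ (N - e i) * b) =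
        (p : RF F p N) ^ (N - e i) * mkF p N b := by
      intro b
      change (Ideal.Quotient.mk (Ideal.span {((p : 𝓞 F)) ^ N})) _ = _
      rw [map_mul, map_pow, map_natCast]
    constructor
    · rintro ⟨b, rfl⟩
      exact ⟨mkF p N b, hmul b⟩
    · rintro ⟨y, hy⟩
      obtain ⟨b, rfl⟩ := Ideal.Quotient.mk_surjective y
      have h1 : mkF p N a = mkF p N ((p : 𝓞 F) ^ (N - e i) * b) := hy.trans (hmul b).symm
      rw [Ideal.Quotient.eq, Ideal.mem_span_singleton] at h1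
      have h2 : (p : 𝓞 F) ^ (N - e i) ∣ a - (p : 𝓞 F) ^ (N - e i) * b :=
        (pow_dvd_pow _ (Nat.sub_le _ _)).trans h1
      exact (dvd_sub_left (dvd_mul_right _ _)).1 h2
  unfold TH LTD.TK
  rw [Finset.prod_inv_distrib]
  refine congrArg (fun z => (∏ i, (-(p : C)) ^ e i)⁻¹ * z) ?_
  rw [Finset.sum_filter, Finset.sum_filter]
  refine Eq.trans ?_ (rep_sum N T hT ι (fun x =>
    if (∀ i, ∃ y : RF F p N, x i = (p : RF F p N) ^ (N - e i) * y) then H' x else 0))
  refine Finset.sum_congr rfl fun a _ => ?_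
  rw [hH a]
  by_cases h : ∀ i, (p : 𝓞 F) ^ (N - e i) ∣ a i
  · rw [if_pos h, if_pos fun i => (key i (a i)).1 (h i)]
  · rw [if_neg h, if_neg fun h1 => h fun i => (key i (a i)).2 (h1 i)]

end SSF
end

-- from Lib.SSG.F.Z2
section

/-! # SSG/F/Z2 : products of approximations -/

open Polynomial
open scoped Classical

namespace SSF

variable {p : ℕ} [Fact p.Prime] {R : ℕ → Type} [∀ N, CommRing (R N)] [∀ N, Fintype (R N)]
  {L : Type} [NormedField L] [IsUltrametricDist L] (D : LTD p R L)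

omit [Fact p.Prime] in
/-- ultrametric: `‖a_i - b_i‖ < 1`, `‖b_i‖ ≤ 1` for all `i` imply `‖prod a_i - prod b_i‖ < 1`
and `‖prod a_i‖ ≤ 1`. Induction on the finite set (`‖a_i‖ ≤ 1` follows). -/
theorem prod_approx {K : Type} [NormedField K] [IsUltrametricDist K] {ι : Type} (s : Finset ι)
    (a b : ι → K) (h : ∀ i ∈ s, ‖a i - b i‖ < 1) (hb : ∀ i ∈ s, ‖b i‖ ≤ 1) :
    ‖∏ i ∈ s, a i - ∏ i ∈ s, b i‖ < 1 ∧ ‖∏ i ∈ s, a i‖ ≤ 1 := by
  classical
  induction s using Finset.induction_on with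
  | empty => simp
  | insert i s hi ih =>
    obtain ⟨h1, h2⟩ := ih (fun j hj => h j (Finset.mem_insert_of_mem hj))
      (fun j hj => hb j (Finset.mem_insert_of_mem hj))
    have h3 := h i (Finset.mem_insert_self i s)
    have h4 := hb i (Finset.mem_insert_self i s)
    have h5 : ‖a i‖ ≤ 1 := by
      have h6 := IsUltrametricDist.norm_add_le_max (a i - b i) (b i)
      rw [sub_add_cancel] at h6
      exact h6.trans (max_le h3.le h4)
    rw [Finset.prod_insert hi, Finset.prod_insert hi]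
    constructor
    · have h6 : a i * ∏ j ∈ s, a j - b i * ∏ j ∈ s, b j =
          (a i - b i) * ∏ j ∈ s, a j + b i * (∏ j ∈ s, a j - ∏ j ∈ s, b j) := by ring
      rw [h6]
      refine (IsUltrametricDist.norm_add_le_max _ _).trans_lt (max_lt ?_ ?_)
      · rw [norm_mul]
        exact (mul_le_of_le_one_right (norm_nonneg _) h2).trans_lt h3
      · rw [norm_mul]
        exact (mul_le_of_le_one_left (norm_nonneg _) h4).trans_lt h1
    · rw [norm_mul]
      exact mul_le_one₀ h5 (norm_nonneg _) h2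

end SSF
end
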