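import Mathlib
import Pool.Agent.Lib.H1M.PP2.M005

/-! Merged copies (to shorten the build) of Lib.H16S.B1, Lib.H16S.B2, Lib.H16S.B3, Lib.H16S.LD, Lib.H16S.LA, Lib.H16S.LC, Lib.H16S.TD, Lib.H16S.TA. -/

-- from Lib.H16S.B1
section

/-! # H16S, chunk B1: the series W -/

open PowerSeries

namespace H16S

variable {R : Type} [CommRing R] (a b : R)

/-- the map whose fixed point is W -/
noncomputable def b1_Phi (U : R⟦X⟧) : R⟦X⟧ := X ^ 3 + C a * X * U ^ 2 + C b * U ^ 3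

theorem b1_step {U U' : R⟦X⟧} (h : constantCoeff U = 0) (h' : constantCoeff U' = 0) {k : ℕ}
    (hd : X ^ (k + 1) ∣ U - U') : X ^ (k + 1 + 1) ∣ b1_Phi a b U - b1_Phi a b U' := by
  have e : b1_Phi a b U - b1_Phi a b U' = (U - U') * (C a * X * (U + U') + C b * (U ^ 2 + U * U' + U' ^ 2)) := by
    unfold b1_Phi
    ring
  rw [e, pow_succ]
  refine mul_dvd_mul hd ?_
  rw [PowerSeries.X_dvd_iff]
  simp [h, h']

/-- Chunk B1a (M). Existence of W. PROOF. Φ(U) = X^3 + a X U^2 + b U^3, U_0 = 0, U_{k+1} = Φ(U_k). All U_k have constant term 0, and Φ(U) - Φ(U') = (U - U')(a X (U + U') + b (U² + U U' + U'²)), the second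
factor has constant term 0: so X^(k+1) divides U_{k+1} - U_k (induction). Put W = mk (fun n => coeff n (U_n)); then coeff n W = coeff n U_k for all k ≥ n, that is X^(k+1) | W - U_k. So X^(k+2) divides Φ(W) - Φ(U_k) = Φ(W) - U_{k+1}, and
X^(k+2) | W - U_{k+1}: all coefficients of Φ(W) - W are 0. -/
theorem exists_W : ∃ W : R⟦X⟧, IsW a b W := by
  set U : ℕ → R⟦X⟧ := fun k => (b1_Phi a b)^[k] 0 with hU
  have hstep : ∀ k, U (k + 1) = b1_Phi a b (U k) := fun k => Function.iterate_succ_apply' _ _ _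
  have h0 : ∀ k, constantCoeff (U k) = 0 := by
    intro k
    induction k with
    | zero => simp [hU]
    | succ k ih =>
      rw [hstep]
      unfold b1_Phi
      simp [ih]
  have hd : ∀ k, (X : R⟦X⟧) ^ (k + 1) ∣ U (k + 1) - U k := by
    intro k
    induction k with
    | zero =>
      rw [hstep]
      have e : b1_Phi a b (U 0) - U 0 = X ^ 3 := by
        unfold b1_Phi
        simp [hU]
      rw [e]
      exact pow_dvd_pow _ (by norm_num)
    | succ k ih =>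
      rw [hstep (k + 1), hstep k]
      rw [hstep k] at ih
      have h1 : constantCoeff (b1_Phi a b (U k)) = 0 := by rw [← hstep]; exact h0 _
      exact b1_step a b h1 (h0 k) ih
  have hm : ∀ k m, k ≤ m → (X : R⟦X⟧) ^ (k + 1) ∣ U m - U k := by
    intro k m hkm
    induction m, hkm using Nat.le_induction with
    | base => rw [sub_self]; exact dvd_zero _
    | succ m hkm ih =>
      have e : U (m + 1) - U k = (U (m + 1) - U m) + (U m - U k) := by ring
      rw [e]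
      exact dvd_add ((pow_dvd_pow _ (by omega)).trans (hd m)) ih
  set W : R⟦X⟧ := PowerSeries.mk fun n => coeff n (U n) with hW
  have hWk : ∀ k, (X : R⟦X⟧) ^ (k + 1) ∣ W - U k := by
    intro k
    rw [PowerSeries.X_pow_dvd_iff]
    intro m hmk
    have h1 := (PowerSeries.X_pow_dvd_iff.1 (hm m k (by omega))) m (by omega)
    rw [map_sub, sub_eq_zero] at h1
    rw [map_sub, hW, coeff_mk, h1, sub_self]
  have hW0 : constantCoeff W = 0 := by
    have h1 := (PowerSeries.X_pow_dvd_iff.1 (hWk 0)) 0 (by omega)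
    rw [map_sub, sub_eq_zero, PowerSeries.coeff_zero_eq_constantCoeff_apply,
      PowerSeries.coeff_zero_eq_constantCoeff_apply, h0] at h1
    exact h1
  refine ⟨W, hW0, ?_⟩
  have hfin : b1_Phi a b W - W = 0 := by
    ext n
    have h1 := b1_step a b hW0 (h0 n) (hWk n)
    have h2 := hWk (n + 1)
    rw [← hstep] at h1
    have h3 : (X : R⟦X⟧) ^ (n + 1 + 1) ∣ b1_Phi a b W - W := by
      have e : b1_Phi a b W - W = (b1_Phi a b W - U (n + 1)) - (W - U (n + 1)) := by ring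
      rw [e]
      exact dvd_sub h1 h2
    rw [(PowerSeries.X_pow_dvd_iff.1 h3) n (by omega), map_zero]
  unfold Eqn
  exact (sub_eq_zero.1 hfin).symm

/-- Chunk B1b (S/M). Uniqueness. PROOF. (W - W')(1 - a X (W + W') - b (W² + W W' + W'²)) = 0 and the second factor has constant term 1, a unit. -/
theorem W_unique {a b : R} {W W' : R⟦X⟧} (h : IsW a b W) (h' : IsW a b W') : W = W' := by
  have h1 := h.2
  have h2 := h'.2
  unfold Eqn at h1 h2
  have h3 : (W - W') * (1 - C a * X * (W + W') - C b * (W ^ 2 + W * W' + W' ^ 2)) = 0 := by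
    linear_combination h1 - h2
  have hu : IsUnit (1 - C a * X * (W + W') - C b * (W ^ 2 + W * W' + W' ^ 2)) := by
    rw [PowerSeries.isUnit_iff_constantCoeff]
    simp [h.1, h'.1]
  exact sub_eq_zero.1 ((hu.mul_left_eq_zero).1 h3)

/-- Chunk B1c (S). Functoriality. -/
theorem W_map {a b : R} {W : R⟦X⟧} (h : IsW a b W) {R' : Type} [CommRing R'] (φ : R →+* R') :
    IsW (φ a) (φ b) (PowerSeries.map φ W) := by
  refine ⟨?_, ?_⟩
  · rw [← PowerSeries.coeff_zero_eq_constantCoeff_apply, PowerSeries.coeff_map,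
      PowerSeries.coeff_zero_eq_constantCoeff_apply, h.1, map_zero]
  · have h1 := congrArg (PowerSeries.map φ) h.2
    unfold Eqn
    simp only [map_add, map_mul, map_pow, PowerSeries.map_C, PowerSeries.map_X] at h1
    exact h1

/-- Chunk B1d (S/M). W = X^3 U, U with constant term 1. PROOF. W (1 - a X W - b W²) = X^3 and the factor is a unit with constant term 1. -/
theorem W_cube {a b : R} {W : R⟦X⟧} (h : IsW a b W) : ∃ U : R⟦X⟧, W = X ^ 3 * U ∧ constantCoeff U = 1 := by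
  have hu : IsUnit (1 - C a * X * W - C b * W ^ 2) := by
    rw [PowerSeries.isUnit_iff_constantCoeff]
    simp [h.1]
  obtain ⟨u, hu'⟩ := hu
  have h1 := h.2
  unfold Eqn at h1
  have h2 : W * (u : R⟦X⟧) = X ^ 3 := by
    rw [hu']
    linear_combination h1
  refine ⟨(↑u⁻¹ : R⟦X⟧), ?_, ?_⟩
  · rw [← h2, mul_assoc, Units.mul_inv, mul_one]
  · have h3 : constantCoeff (u : R⟦X⟧) = 1 := by
      rw [hu']
      simp [h.1]
    have h4 := congrArg constantCoeff (Units.mul_inv u)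
    rw [map_mul, h3, one_mul, map_one] at h4
    exact h4

/-- Chunk B1e (S/M). Denominators: if the constant terms of t₁, w₁, t₂, w₂ are 0 then d1, d2 are units with constant term 1, and the constant terms of lam, nu, addt, addw are 0. PROOF. A series is a unit iff its constant term is
(PowerSeries.isUnit_iff_constantCoeff); map constantCoeff (a ring homomorphism) through the formulas: map_lam, map_add' with φ = constantCoeff; over R all t, w are 0: d1 = 1, lam = 0, d2 = 1. -/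
theorem unit_d {A B t₁ w₁ t₂ w₂ : R⟦X⟧} (h1 : constantCoeff t₁ = 0) (h2 : constantCoeff w₁ = 0)
    (h3 : constantCoeff t₂ = 0) (h4 : constantCoeff w₂ = 0) :
    IsUnit (d1 A B t₁ w₁ t₂ w₂) ∧ IsUnit (d2 A B t₁ w₁ t₂ w₂) ∧ constantCoeff (addt A B t₁ w₁ t₂ w₂) = 0 ∧
      constantCoeff (addw A B t₁ w₁ t₂ w₂) = 0 := by
  have hd1 : constantCoeff (d1 A B t₁ w₁ t₂ w₂) = 1 := by
    unfold d1
    simp [h1, h2, h3, h4]
  have u1 : IsUnit (d1 A B t₁ w₁ t₂ w₂) := by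
    rw [PowerSeries.isUnit_iff_constantCoeff, hd1]
    exact isUnit_one
  have hl : constantCoeff (lam A B t₁ w₁ t₂ w₂) = 0 := by
    unfold lam n1
    simp [h1, h2, h3]
  have hn : constantCoeff (nu A B t₁ w₁ t₂ w₂) = 0 := by
    unfold nu
    simp [hl, h1, h2]
  have hd2 : constantCoeff (d2 A B t₁ w₁ t₂ w₂) = 1 := by
    unfold d2
    simp [hl]
  have u2 : IsUnit (d2 A B t₁ w₁ t₂ w₂) := by
    rw [PowerSeries.isUnit_iff_constantCoeff, hd2]
    exact isUnit_one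
  have ht : constantCoeff (addt A B t₁ w₁ t₂ w₂) = 0 := by
    unfold addt
    simp [hl, h1, h3]
  refine ⟨u1, u2, ht, ?_⟩
  unfold addw
  simp [hl, hn]

end H16S
end

-- from Lib.H16S.B2
section

/-! # H16S, chunk B2: the series of the multiples -/

open PowerSeries

namespace H16S

variable {R : Type} [CommRing R] {a b : R} {W : R⟦X⟧}

/-- Chunk B2a (S/M). Induction with unit_d, eqn_add. -/
theorem TW_const (h : IsW a b W) (n : ℕ) : constantCoeff (TW a b W n).1 = 0 ∧ constantCoeff (TW a b W n).2 = 0 := by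
  induction n with
  | zero => simp [TW]
  | succ n ih =>
    have hu := unit_d (A := C a) (B := C b) ih.1 ih.2 (t₂ := X) (by simp) h.1
    exact ⟨hu.2.2.1, hu.2.2.2⟩

theorem b2_unit (h : IsW a b W) (n : ℕ) :
    IsUnit (d1 (C a) (C b) (TW a b W n).1 (TW a b W n).2 X W) ∧
      IsUnit (d2 (C a) (C b) (TW a b W n).1 (TW a b W n).2 X W) := by
  have ih := TW_const h n
  have hu := unit_d (A := C a) (B := C b) ih.1 ih.2 (t₂ := X) (by simp) h.1
  exact ⟨hu.1, hu.2.1⟩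


theorem b2_quot (h : IsW a b W) (n : ℕ) :
    Ideal.Quotient.mk (Ideal.span {(X : R⟦X⟧) ^ 2}) (TW a b W n).1 =
        (n : R⟦X⟧ ⧸ Ideal.span {(X : R⟦X⟧) ^ 2}) * Ideal.Quotient.mk (Ideal.span {(X : R⟦X⟧) ^ 2}) X ∧
      Ideal.Quotient.mk (Ideal.span {(X : R⟦X⟧) ^ 2}) (TW a b W n).2 = 0 := by
  induction n with
  | zero => simp [TW]
  | succ n ih =>
    have hm := map_add' (Ideal.Quotient.mk (Ideal.span {(X : R⟦X⟧) ^ 2})) (b2_unit h n).1 (b2_unit h n).2
    have hX : Ideal.Quotient.mk (Ideal.span {(X : R⟦X⟧) ^ 2}) X ^ 2 = 0 := by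
      rw [← map_pow, Ideal.Quotient.eq_zero_iff_mem]
      exact Ideal.mem_span_singleton_self _
    have hW : Ideal.Quotient.mk (Ideal.span {(X : R⟦X⟧) ^ 2}) W = 0 := by
      obtain ⟨U, hU, -⟩ := W_cube h
      have e3 : (Ideal.Quotient.mk (Ideal.span {(X : R⟦X⟧) ^ 2})) X ^ 3 =
          (Ideal.Quotient.mk (Ideal.span {(X : R⟦X⟧) ^ 2})) X ^ 2 * (Ideal.Quotient.mk (Ideal.span {(X : R⟦X⟧) ^ 2})) X := by ring
      rw [hU, map_mul, map_pow, e3, hX, zero_mul, zero_mul]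
    rw [hW, ih.1, ih.2] at hm
    set ε := Ideal.Quotient.mk (Ideal.span {(X : R⟦X⟧) ^ 2}) X with hε
    have hn1 : n1 (Ideal.Quotient.mk (Ideal.span {(X : R⟦X⟧) ^ 2}) (C a)) ((n : R⟦X⟧ ⧸ Ideal.span {(X : R⟦X⟧) ^ 2}) * ε) 0 ε = 0 := by
      have e : n1 (Ideal.Quotient.mk (Ideal.span {(X : R⟦X⟧) ^ 2}) (C a)) ((n : R⟦X⟧ ⧸ Ideal.span {(X : R⟦X⟧) ^ 2}) * ε) 0 ε =
          ((n : R⟦X⟧ ⧸ Ideal.span {(X : R⟦X⟧) ^ 2}) ^ 2 + n + 1) * ε ^ 2 := by
        unfold n1
        ring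
      rw [e, hX, mul_zero]
    have hl : lam (Ideal.Quotient.mk (Ideal.span {(X : R⟦X⟧) ^ 2}) (C a)) (Ideal.Quotient.mk (Ideal.span {(X : R⟦X⟧) ^ 2}) (C b))
        ((n : R⟦X⟧ ⧸ Ideal.span {(X : R⟦X⟧) ^ 2}) * ε) 0 ε 0 = 0 := by
      unfold lam
      rw [hn1, zero_mul]
    have hnu : nu (Ideal.Quotient.mk (Ideal.span {(X : R⟦X⟧) ^ 2}) (C a)) (Ideal.Quotient.mk (Ideal.span {(X : R⟦X⟧) ^ 2}) (C b))
        ((n : R⟦X⟧ ⧸ Ideal.span {(X : R⟦X⟧) ^ 2}) * ε) 0 ε 0 = 0 := by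
      unfold nu
      rw [hl, zero_mul, sub_zero]
    refine ⟨?_, ?_⟩
    · change Ideal.Quotient.mk (Ideal.span {(X : R⟦X⟧) ^ 2}) (addt (C a) (C b) (TW a b W n).1 (TW a b W n).2 X W) = _
      rw [hm.1]
      unfold addt
      rw [hl, hnu]
      push_cast
      ring
    · change Ideal.Quotient.mk (Ideal.span {(X : R⟦X⟧) ^ 2}) (addw (C a) (C b) (TW a b W n).1 (TW a b W n).2 X W) = _
      rw [hm.2]
      unfold addw
      rw [hl, hnu]
      ring

/-- Chunk B2c (M). The linear coefficients: t-series n X + .., w-series 0 X + ... PROOF. Write x ~ y if X^2 | x - y (equality modulo the ideal (X^2)). If t₁, w₁, t₂, w₂ have constant term 0 then n1 ~ 0 (products of two series with constant term 0), so lam ~ 0,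
nu ~ w₁ , (2 a lam + 3 b lam²) nu ~ 0, addt ~ t₁ + t₂, addw = lam addt - nu ~ -w₁ . With w₁ ~ 0 (W ~ 0 by W_cube) the induction goes through: statement for n: TW n .1 ~ n X and TW n .2 ~ 0. -/
theorem TW_one (h : IsW a b W) (n : ℕ) : coeff 1 (TW a b W n).1 = (n : R) ∧ coeff 1 (TW a b W n).2 = 0 := by
  obtain ⟨h1, h2⟩ := b2_quot h n
  have h1' : X ^ 2 ∣ (TW a b W n).1 - (n : R⟦X⟧) * X := by
    rw [← Ideal.mem_span_singleton, ← Ideal.Quotient.eq_zero_iff_mem, map_sub, h1, map_mul, map_natCast, sub_self]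
  have h2' : X ^ 2 ∣ (TW a b W n).2 := by
    rw [← Ideal.mem_span_singleton, ← Ideal.Quotient.eq_zero_iff_mem, h2]
  refine ⟨?_, X_pow_dvd_iff.1 h2' 1 (by norm_num)⟩
  have h3 := X_pow_dvd_iff.1 h1' 1 (by norm_num)
  rw [map_sub, sub_eq_zero] at h3
  rw [h3, ← nsmul_eq_mul, map_nsmul, coeff_X, if_pos rfl, nsmul_eq_mul, mul_one]

/-- Chunk B2d (S/M). Functoriality: induction with unit_d, map_add' for PowerSeries.map φ (map φ (C a) = C (φ a), map φ X = X). -/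
theorem TW_map (h : IsW a b W) {R' : Type} [CommRing R'] (φ : R →+* R') (n : ℕ) :
    TW (φ a) (φ b) (PowerSeries.map φ W) n = (PowerSeries.map φ (TW a b W n).1, PowerSeries.map φ (TW a b W n).2) := by
  induction n with
  | zero => simp [TW]
  | succ n ih =>
    have hm := map_add' (PowerSeries.map φ) (b2_unit h n).1 (b2_unit h n).2
    rw [PowerSeries.map_C, PowerSeries.map_C, PowerSeries.map_X] at hm
    have e : TW (φ a) (φ b) (PowerSeries.map φ W) (n + 1) =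
      (addt (C (φ a)) (C (φ b)) (TW (φ a) (φ b) (PowerSeries.map φ W) n).1 (TW (φ a) (φ b) (PowerSeries.map φ W) n).2 X (PowerSeries.map φ W),
        addw (C (φ a)) (C (φ b)) (TW (φ a) (φ b) (PowerSeries.map φ W) n).1 (TW (φ a) (φ b) (PowerSeries.map φ W) n).2 X (PowerSeries.map φ W)) := rfl
    rw [e, ih]
    exact Prod.ext hm.1.symm hm.2.symm

end H16S
end

-- from Lib.H16S.B3
section

/-! # H16S, chunk B3: evaluation of power series in complete ultrametric fields -/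

open PowerSeries

namespace H16S

variable {R : Type} [CommRing R] {K : Type} [NormedField K] [IsUltrametricDist K] [CompleteSpace K] {φ : R →+* K} {z : K}

/-- Chunk B3a (S). Summability of the norms: comparison with the geometric series ‖z‖^n. -/
theorem ev_summable (hφ : ∀ r, ‖φ r‖ ≤ 1) (hz : ‖z‖ < 1) (f : R⟦X⟧) :
    Summable (fun n => ‖φ (coeff n f) * z ^ n‖) ∧ Summable (fun n => φ (coeff n f) * z ^ n) := by
  have h : Summable (fun n => ‖φ (coeff n f) * z ^ n‖) := by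
    refine Summable.of_nonneg_of_le (fun n => norm_nonneg _) (fun n => ?_)
      (summable_geometric_of_lt_one (norm_nonneg z) hz)
    rw [norm_mul, norm_pow]
    exact mul_le_of_le_one_left (by positivity) (hφ _)
  exact ⟨h, h.of_norm⟩

omit [IsUltrametricDist K] [CompleteSpace K] in
theorem b3_C (r : R) : ev φ z (C r) = φ r := by
  unfold ev
  rw [tsum_eq_single 0]
  · simp
  · intro n hn
    rw [coeff_C, if_neg hn, map_zero, zero_mul]

/-- Chunk B3b (M). ev is a ring homomorphism. PROOF. Sums: Summable.tsum_add. Products: coeff_mul, antidiagonal, tsum_mul_tsum_eq_tsum_sum_antidiagonal_of_summable_norm. 1: the only nonzero term is n = 0 (tsum_eq_single). -/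
theorem ev_hom (hφ : ∀ r, ‖φ r‖ ≤ 1) (hz : ‖z‖ < 1) : ∃ E : R⟦X⟧ →+* K, ∀ f, E f = ev φ z f := by
  refine ⟨{ toFun := fun f => ev φ z f
            map_one' := ?_
            map_zero' := ?_
            map_add' := ?_
            map_mul' := ?_ }, fun f => rfl⟩
  · have := b3_C (φ := φ) (z := z) 1
    rwa [map_one, map_one] at this
  · intro f g
    unfold ev
    rw [tsum_mul_tsum_eq_tsum_sum_antidiagonal_of_summable_norm (ev_summable hφ hz f).1
      (ev_summable hφ hz g).1]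
    refine tsum_congr fun n => ?_
    rw [coeff_mul, map_sum, Finset.sum_mul]
    refine Finset.sum_congr rfl fun x hx => ?_
    rw [← Finset.HasAntidiagonal.mem_antidiagonal.1 hx, pow_add, map_mul]
    ring
  · have := b3_C (φ := φ) (z := z) 0
    rwa [map_zero, map_zero] at this
  · intro f g
    unfold ev
    rw [← (ev_summable hφ hz f).2.tsum_add (ev_summable hφ hz g).2]
    refine tsum_congr fun n => ?_
    rw [map_add, map_add, add_mul]

/-- Chunk B3c (S). -/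
theorem ev_C (r : R) : ev φ z (C r) = φ r := b3_C r

/-- Chunk B3c (S). -/
theorem ev_X : ev φ z (X : R⟦X⟧) = z := by
  unfold ev
  rw [tsum_eq_single 1]
  · simp
  · intro n hn
    rw [coeff_X, if_neg hn, map_zero, zero_mul]


/-- Chunk B3d (S/M). A general bound: if all terms are at most c. -/
theorem ev_bound (hφ : ∀ r, ‖φ r‖ ≤ 1) (hz : ‖z‖ < 1) (f : R⟦X⟧) {c : ℝ} (hc : 0 ≤ c)
    (h : ∀ n, ‖φ (coeff n f) * z ^ n‖ ≤ c) : ‖ev φ z f‖ ≤ c :=
  IsUltrametricDist.norm_tsum_le_of_forall_le h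

/-- Chunk B3e (S). If X^k divides f then ‖ev f‖ ≤ ‖z‖^k: ev_bound (the coefficients below k are 0: PowerSeries.X_pow_dvd_iff). -/
theorem ev_dvd (hφ : ∀ r, ‖φ r‖ ≤ 1) (hz : ‖z‖ < 1) {f : R⟦X⟧} {k : ℕ} (h : X ^ k ∣ f) : ‖ev φ z f‖ ≤ ‖z‖ ^ k := by
  refine ev_bound hφ hz f (by positivity) fun n => ?_
  rcases lt_or_ge n k with hn | hn
  · rw [X_pow_dvd_iff.1 h n hn, map_zero, zero_mul, norm_zero]
    positivity
  · rw [norm_mul, norm_pow]
    calc ‖φ (coeff n f)‖ * ‖z‖ ^ n ≤ 1 * ‖z‖ ^ n := by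
          gcongr
          exact hφ _
      _ = ‖z‖ ^ n := one_mul _
      _ ≤ ‖z‖ ^ k := pow_le_pow_of_le_one (norm_nonneg z) hz.le hn


/-- Chunk B3g (S). Change of the coefficient ring. -/
theorem ev_map {R' : Type} [CommRing R'] (θ : R' →+* R) (f : R'⟦X⟧) : ev φ z (PowerSeries.map θ f) = ev (φ.comp θ) z f := by
  unfold ev
  refine tsum_congr fun n => ?_
  rw [PowerSeries.coeff_map, RingHom.comp_apply]

end H16S
end

-- from Lib.H16S.LD
section

/-!
# H16S: abstract ramified towers and formal groups (definitions)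

L is a field with an ultrametric norm, H 0 ≤ H 1 ≤ .. subfields, g an isometric automorphism: H n is totally ramified of degree p^n over H 0,
cyclic with generator g, the residue field of H 0 has p^2 elements (representatives r). G is a group (the kernel of reduction of the supersingular elliptic curve) with
the coordinate t, E n the subgroup of level n. See PROOF.md.
-/

namespace H16S

/-- The trace from level n + 1 to level n. -/
noncomputable def trc {L : Type} [Field L] (p : ℕ) (g : RingAut L) (n : ℕ) (x : L) : L :=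
  ∑ i ∈ Finset.range p, (g ^ (i * p ^ n)) x

/-- The trace of points from level n + 1 to level n. -/
noncomputable def trG {G : Type} [AddCommGroup G] (p : ℕ) (γ : AddMonoid.End G) (n : ℕ) (P : G) : G :=
  ∑ i ∈ Finset.range p, (γ ^ (i * p ^ n)) P

/-- The tower of fields. -/
structure Twr (p : ℕ) {L : Type} [NormedField L] [IsUltrametricDist L] (H : ℕ → Subfield L) (g : RingAut L)
    (π : ℕ → L) (r : Fin (p ^ 2) → L) : Prop where
  pr : p.Prime
  five : 5 ≤ p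
  lt : ‖(p : L)‖ < 1
  ne : (p : L) ≠ 0
  mono : ∀ n, H n ≤ H (n + 1)
  iso : ∀ x, ‖g x‖ = ‖x‖
  gH : ∀ n, ∀ x ∈ H n, g x ∈ H n
  fix : ∀ n, ∀ x ∈ H n, (g ^ p ^ n) x = x
  down : ∀ n, ∀ x ∈ H (n + 1), (g ^ p ^ n) x = x → x ∈ H n
  piH : ∀ n, π n ∈ H n
  piv : ∀ n, ‖π n‖ ^ p ^ n = ‖(p : L)‖
  val : ∀ n, ∀ x ∈ H n, x ≠ 0 → ∃ k : ℤ, ‖x‖ = ‖π n‖ ^ k
  rH : ∀ i, r i ∈ H 0 ∧ ‖r i‖ ≤ 1
  rs : ∀ i j, i ≠ j → ‖r i - r j‖ = 1
  res : ∀ n, ∀ x ∈ H n, ‖x‖ ≤ 1 → ∃ i, ‖x - r i‖ < 1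
  fr : ∀ x ∈ H 0, ‖x‖ ≤ 1 → ‖x ^ p ^ 2 - x‖ < 1
  pip : ∀ n, ‖π (n + 1) ^ p - π n‖ ≤ ‖(p : L)‖
  pi1 : ‖π 1 ^ p - p‖ < ‖(p : L)‖
  tr0 : ∀ n j, ‖trc p g n (π (n + 1) ^ j)‖ ≤ ‖(p : L)‖
  tr2 : ∀ n j, 2 ≤ j → ‖trc p g n (π (n + 1) ^ j)‖ < ‖(p : L)‖
  tr1 : ∀ n, ‖trc p g n (π (n + 1)) + p‖ < ‖(p : L)‖

/-- The group of points. -/
structure Fgp (p : ℕ) {L : Type} [NormedField L] [IsUltrametricDist L] (H : ℕ → Subfield L) (g : RingAut L)
    (r : Fin (p ^ 2) → L) {G : Type} [AddCommGroup G] (t : G → L) (γ : AddMonoid.End G) (E : ℕ → AddSubgroup G)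
    (al : Fin (p ^ 2) → AddMonoid.End G) : Prop where
  lt : ∀ P, ‖t P‖ < 1
  zero : ∀ P, t P = 0 ↔ P = 0
  neg : ∀ P, t (-P) = -t P
  sub : ∀ P Q, ‖t (P - Q) - (t P - t Q)‖ ≤ ‖t P - t Q‖ * max ‖t P‖ ‖t Q‖ ^ 2
  mem : ∀ n P, P ∈ E n ↔ t P ∈ H n
  surj : ∀ n, ∀ z ∈ H n, ‖z‖ < 1 → ∃ P ∈ E n, t P = z
  act : ∀ P, t (γ P) = g (t P)
  mul : ∀ P, ‖t (p • P) - p * t P + t P ^ p ^ 2‖ ≤ ‖(p : L)‖ * ‖t P‖ ^ 2
  div : ∀ n, ∀ R ∈ E n, ‖t R‖ ≤ ‖(p : L)‖ ^ 2 → ∃ P ∈ E n, ‖t P‖ ≤ ‖(p : L)‖ ∧ p • P = R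
  alt : ∀ i P, ‖t (al i P) - r i * t P‖ ≤ ‖t P‖ ^ 2
  alc : ∀ i P, al i (γ P) = γ (al i P)
  ale : ∀ i n, ∀ P ∈ E n, al i P ∈ E n

end H16S
end

-- from Lib.H16S.LA
section

/-! # H16S, chunk LA (M): values in the tower -/

namespace H16S

variable {p : ℕ} {L : Type} [NormedField L] [IsUltrametricDist L] {H : ℕ → Subfield L} {g : RingAut L} {π : ℕ → L}
  {r : Fin (p ^ 2) → L}

theorem la_mono (T : Twr p H g π r) {m n : ℕ} (h : m ≤ n) : H m ≤ H n :=
  monotone_nat_of_le_succ T.mono h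

theorem la_npos (T : Twr p H g π r) : 0 < ‖(p : L)‖ := norm_pos_iff.2 T.ne

/-- Chunk LA (S). -/
theorem la_pos (T : Twr p H g π r) (n : ℕ) : 0 < ‖π n‖ ∧ ‖π n‖ < 1 := by
  have h := T.piv n
  have hp := la_npos T
  have hpn : p ^ n ≠ 0 := pow_ne_zero _ T.pr.ne_zero
  constructor
  · rcases (norm_nonneg (π n)).lt_or_eq with h1 | h1
    · exact h1
    · rw [← h1, zero_pow hpn] at h
      exact absurd h hp.ne
  · by_contra hc
    rw [not_lt] at hc
    have := one_le_pow₀ (n := p ^ n) hc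
    rw [h] at this
    exact absurd T.lt (not_lt.2 this)

/-- Chunk LA (S/M). ‖π (n+1)‖^p = ‖π n‖: both are positive and have the same p^n-th power; ‖π 0‖ = ‖p‖. -/
theorem la_succ (T : Twr p H g π r) (n : ℕ) : ‖π (n + 1)‖ ^ p = ‖π n‖ ∧ ‖π 0‖ = ‖(p : L)‖ := by
  have hpn : p ^ n ≠ 0 := pow_ne_zero _ T.pr.ne_zero
  constructor
  · have h1 : (‖π (n + 1)‖ ^ p) ^ p ^ n = ‖π n‖ ^ p ^ n := by
      rw [← pow_mul, T.piv n, ← T.piv (n + 1), pow_succ, mul_comm p]
    exact (pow_left_inj₀ (pow_nonneg (norm_nonneg _) _) (norm_nonneg _) hpn).1 h1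
  · have := T.piv 0
    rwa [pow_zero, pow_one] at this

/-- Chunk LA (S/M). The values are discrete (T.val). -/
theorem la_step (T : Twr p H g π r) {n : ℕ} {x : L} (hx : x ∈ H n) {k : ℕ} (h : ‖x‖ < ‖π n‖ ^ k) :
    ‖x‖ ≤ ‖π n‖ ^ (k + 1) := by
  obtain ⟨h0, h1⟩ := la_pos T n
  by_cases hx0 : x = 0
  · rw [hx0, norm_zero]
    positivity
  obtain ⟨j, hj⟩ := T.val n x hx hx0
  rw [hj, ← zpow_natCast, zpow_lt_zpow_iff_right_of_lt_one₀ h0 h1] at h
  rw [hj, ← zpow_natCast, zpow_le_zpow_iff_right_of_lt_one₀ h0 h1]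
  push_cast
  omega

/-- Chunk LA (S). g is the identity on H 0 (T.fix 0); powers of g are isometries and preserve H n. -/
theorem la_g (T : Twr p H g π r) (k : ℕ) : (∀ x, ‖(g ^ k) x‖ = ‖x‖) ∧ (∀ n, ∀ x ∈ H n, (g ^ k) x ∈ H n) ∧
    ∀ x ∈ H 0, (g ^ k) x = x := by
  have hs : ∀ (k : ℕ) (x : L), (g ^ (k + 1)) x = (g ^ k) (g x) := by
    intro k x
    rw [pow_succ]
    rfl
  refine ⟨?_, ?_, ?_⟩
  · induction k with
    | zero => intro x; rfl
    | succ k ih => intro x; rw [hs, ih, T.iso]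
  · intro n
    induction k with
    | zero => intro x hx; exact hx
    | succ k ih => intro x hx; rw [hs]; exact ih _ (T.gH n x hx)
  · induction k with
    | zero => intro x _; rfl
    | succ k ih =>
      intro x hx
      have h1 := T.fix 0 x hx
      rw [pow_zero, pow_one] at h1
      rw [hs, h1, ih x hx]

/-- Chunk LA (S/M). The leading coefficient: x/π^k is integral (T.res); its residue is a unit if ‖x‖ = ‖π‖^k. -/
theorem la_lead (T : Twr p H g π r) {n : ℕ} {x : L} (hx : x ∈ H n) {k : ℕ} (h : ‖x‖ ≤ ‖π n‖ ^ k) :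
    ∃ i, ‖x - r i * π n ^ k‖ ≤ ‖π n‖ ^ (k + 1) ∧ (‖x‖ = ‖π n‖ ^ k → ‖r i‖ = 1) := by
  obtain ⟨h0, h1⟩ := la_pos T n
  have hpi : π n ≠ 0 := norm_pos_iff.1 h0
  have hpk : 0 < ‖π n‖ ^ k := pow_pos h0 k
  have hy : x / π n ^ k ∈ H n := div_mem hx (pow_mem (T.piH n) k)
  have hy1 : ‖x / π n ^ k‖ ≤ 1 := by
    rw [norm_div, norm_pow]
    exact (div_le_one hpk).2 h
  obtain ⟨i, hi⟩ := T.res n _ hy hy1
  refine ⟨i, ?_, ?_⟩
  · apply la_step T
    · exact sub_mem hx (mul_mem (la_mono T (Nat.zero_le n) (T.rH i).1) (pow_mem (T.piH n) k))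
    · have e : x - r i * π n ^ k = (x / π n ^ k - r i) * π n ^ k := by
        field_simp
      rw [e, norm_mul, norm_pow]
      exact mul_lt_of_lt_one_left hpk hi
  · intro hxe
    have hy2 : ‖x / π n ^ k‖ = 1 := by
      rw [norm_div, norm_pow, hxe]
      exact div_self hpk.ne'
    have e : r i = x / π n ^ k - (x / π n ^ k - r i) := by ring
    rw [e, sub_eq_add_neg]
    have h3 : ‖-(x / π n ^ k - r i)‖ < ‖x / π n ^ k‖ := by
      rw [norm_neg, hy2]
      exact hi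
    rw [IsUltrametricDist.norm_add_eq_max_of_norm_ne_norm h3.ne', max_eq_left h3.le, hy2]

/-- Chunk LA (M). Expansions from the order l to the order m: induction on m with la_lead (x minus the sum lies in H n). -/
theorem la_exp (T : Twr p H g π r) {n : ℕ} {x : L} (hx : x ∈ H n) {l m : ℕ} (hl : l ≤ m) (h : ‖x‖ ≤ ‖π n‖ ^ l) :
    ∃ c : ℕ → Fin (p ^ 2), ‖x - ∑ j ∈ Finset.Ico l m, r (c j) * π n ^ j‖ ≤ ‖π n‖ ^ m := by
  induction m, hl using Nat.le_induction with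
  | base =>
    refine ⟨fun _ => ⟨0, pow_pos T.pr.pos 2⟩, ?_⟩
    rw [Finset.Ico_self, Finset.sum_empty, sub_zero]
    exact h
  | succ m hl ih =>
    obtain ⟨c, hc⟩ := ih
    have hmem : x - ∑ j ∈ Finset.Ico l m, r (c j) * π n ^ j ∈ H n := by
      apply sub_mem hx
      apply sum_mem
      intro j _
      exact mul_mem (la_mono T (Nat.zero_le n) (T.rH _).1) (pow_mem (T.piH n) j)
    obtain ⟨i, hi, _⟩ := la_lead T hmem hc
    refine ⟨Function.update c m i, ?_⟩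
    rw [Finset.sum_Ico_succ_top hl, Function.update_self]
    have e : ∑ j ∈ Finset.Ico l m, r (Function.update c m i j) * π n ^ j =
        ∑ j ∈ Finset.Ico l m, r (c j) * π n ^ j := by
      apply Finset.sum_congr rfl
      intro j hj
      rw [Function.update_of_ne (Finset.mem_Ico.1 hj).2.ne]
    rw [e, ← sub_sub]
    exact hi

end H16S
end

-- from Lib.H16S.LC
section

/-! # H16S, chunk LC (M): p-th powers in the tower -/

namespace H16S

variable {p : ℕ} {L : Type} [NormedField L] [IsUltrametricDist L] {H : ℕ → Subfield L} {g : RingAut L} {π : ℕ → L}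
  {r : Fin (p ^ 2) → L}

/-- The ring of integral elements. -/
def lcO (L : Type) [NormedField L] [IsUltrametricDist L] : Subring L where
  carrier := {x | ‖x‖ ≤ 1}
  mul_mem' := by
    intro a b ha hb
    change ‖a * b‖ ≤ 1
    rw [norm_mul]
    exact mul_le_one₀ ha (norm_nonneg _) hb
  one_mem' := by
    change ‖(1 : L)‖ ≤ 1
    rw [norm_one]
  add_mem' := by
    intro a b ha hb
    exact (IsUltrametricDist.norm_add_le_max a b).trans (max_le ha hb)
  zero_mem' := by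
    change ‖(0 : L)‖ ≤ 1
    rw [norm_zero]
    exact zero_le_one
  neg_mem' := by
    intro a ha
    change ‖-a‖ ≤ 1
    rwa [norm_neg]

theorem lc_add (hp : p.Prime) {x y : L} (hx : ‖x‖ ≤ 1) (hy : ‖y‖ ≤ 1) :
    ‖(x + y) ^ p - (x ^ p + y ^ p)‖ ≤ ‖(p : L)‖ * ‖x‖ * ‖y‖ := by
  obtain ⟨r, hr⟩ := exists_add_pow_prime_eq hp (⟨x, hx⟩ : lcO L) ⟨y, hy⟩
  have h := congrArg (fun z : lcO L => (z : L)) hr
  simp only [Subring.coe_pow, Subring.coe_add, Subring.coe_mul, Subring.coe_natCast] at h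
  rw [h]
  have e : x ^ p + y ^ p + (p : L) * x * y * (r : L) - (x ^ p + y ^ p) = (p : L) * x * y * (r : L) := by ring
  rw [e, norm_mul, norm_mul, norm_mul]
  have hr1 : ‖(r : L)‖ ≤ 1 := r.2
  exact mul_le_of_le_one_right (by positivity) hr1


theorem lc_powsub {u v : L} (hu : ‖u‖ ≤ 1) (hv : ‖v‖ ≤ 1) (j : ℕ) : ‖u ^ j - v ^ j‖ ≤ ‖u - v‖ := by
  induction j with
  | zero =>
    rw [pow_zero, pow_zero, sub_self, norm_zero]
    exact norm_nonneg _
  | succ j ih =>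
    have e : u ^ (j + 1) - v ^ (j + 1) = u * (u ^ j - v ^ j) + (u - v) * v ^ j := by ring
    rw [e]
    refine (IsUltrametricDist.norm_add_le_max _ _).trans (max_le ?_ ?_)
    · rw [norm_mul]
      exact (mul_le_of_le_one_left (norm_nonneg _) hu).trans ih
    · rw [norm_mul, norm_pow]
      exact mul_le_of_le_one_right (norm_nonneg _) (pow_le_one₀ (norm_nonneg _) hv)

theorem lc_sumle {ι : Type} (S : Finset ι) (f : ι → L) {c : ℝ} (hc : 0 ≤ c) (h : ∀ i ∈ S, ‖f i‖ ≤ c) :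
    ‖∑ i ∈ S, f i‖ ≤ c := by
  classical
  induction S using Finset.induction_on with
  | empty =>
    rw [Finset.sum_empty, norm_zero]
    exact hc
  | insert a S ha ih =>
    rw [Finset.sum_insert ha]
    exact (IsUltrametricDist.norm_add_le_max _ _).trans
      (max_le (h a (Finset.mem_insert_self a S)) (ih fun i hi => h i (Finset.mem_insert_of_mem hi)))

/-- Chunk LC (S/M). u = v + d, ‖d‖ ≤ ‖p‖: u^p - v^p is a sum of binom(p,k) v^(p-k) d^k, for 0 < k < p divisible by p d, and d^p. -/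
theorem lc_diff (hp : p.Prime) (h5 : 5 ≤ p) (hlt : ‖(p : L)‖ < 1) {u v : L} (hu : ‖u‖ ≤ 1) (hv : ‖v‖ ≤ 1)
    (h : ‖u - v‖ ≤ ‖(p : L)‖) : ‖u ^ p - v ^ p‖ ≤ ‖(p : L)‖ ^ 2 := by
  have hd : ‖u - v‖ ≤ 1 := h.trans hlt.le
  have h1 := lc_add hp hv hd
  rw [add_sub_cancel] at h1
  have e : u ^ p - v ^ p = (u ^ p - (v ^ p + (u - v) ^ p)) + (u - v) ^ p := by ring
  rw [e]
  refine (IsUltrametricDist.norm_add_le_max _ _).trans (max_le (h1.trans ?_) ?_)
  · rw [sq]
    calc ‖(p : L)‖ * ‖v‖ * ‖u - v‖ ≤ ‖(p : L)‖ * 1 * ‖(p : L)‖ := by gcongr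
      _ = ‖(p : L)‖ * ‖(p : L)‖ := by ring
  · rw [norm_pow]
    calc ‖u - v‖ ^ p ≤ ‖(p : L)‖ ^ p := pow_le_pow_left₀ (norm_nonneg _) h p
      _ ≤ ‖(p : L)‖ ^ 2 := pow_le_pow_of_le_one (norm_nonneg _) hlt.le (by omega)

/-- Chunk LC (S/M). The p-th power of a finite sum of integral elements is the sum of the p-th powers modulo p: induction, exists_add_pow_prime_eq or the binomial coefficients. -/
theorem lc_sum (hp : p.Prime) {ι : Type} (S : Finset ι) (f : ι → L) (hf : ∀ i ∈ S, ‖f i‖ ≤ 1) :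
    ‖(∑ i ∈ S, f i) ^ p - ∑ i ∈ S, f i ^ p‖ ≤ ‖(p : L)‖ := by
  classical
  induction S using Finset.induction_on with
  | empty =>
    rw [Finset.sum_empty, Finset.sum_empty, zero_pow hp.ne_zero, sub_zero, norm_zero]
    exact norm_nonneg _
  | insert a S ha ih =>
    rw [Finset.sum_insert ha, Finset.sum_insert ha]
    have h1 := ih (fun i hi => hf i (Finset.mem_insert_of_mem hi))
    have h2 : ‖∑ i ∈ S, f i‖ ≤ 1 :=
      lc_sumle S f zero_le_one (fun i hi => hf i (Finset.mem_insert_of_mem hi))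
    have h3 := lc_add hp (hf a (Finset.mem_insert_self a S)) h2
    have e : (f a + ∑ i ∈ S, f i) ^ p - (f a ^ p + ∑ i ∈ S, f i ^ p) =
        ((f a + ∑ i ∈ S, f i) ^ p - (f a ^ p + (∑ i ∈ S, f i) ^ p)) +
          ((∑ i ∈ S, f i) ^ p - ∑ i ∈ S, f i ^ p) := by ring
    rw [e]
    refine (IsUltrametricDist.norm_add_le_max _ _).trans (max_le (h3.trans ?_) h1)
    calc ‖(p : L)‖ * ‖f a‖ * ‖∑ i ∈ S, f i‖ ≤ ‖(p : L)‖ * 1 * 1 := by
          gcongr
          exact hf a (Finset.mem_insert_self a S)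
      _ = ‖(p : L)‖ := by ring

/-- Chunk LC (M). The p-th power of an integral element of H (n+1) lies in H n modulo p. PROOF. la_exp (l = 0, m = p^(n+1), ‖π‖^m = ‖p‖): x^p = (sum of r_j π^j + δ)^p is the sum of r_j^p π^(jp) modulo p (lc_sum), and π (n+1)^(jp) is
(π n)^j modulo p (T.pip; u^j - v^j is divisible by u - v). y = sum of r_j^p (π n)^j. -/
theorem lc_pow (T : Twr p H g π r) {n : ℕ} {x : L} (hx : x ∈ H (n + 1)) (h : ‖x‖ ≤ 1) :
    ∃ y ∈ H n, ‖y‖ ≤ 1 ∧ ‖x ^ p - y‖ ≤ ‖(p : L)‖ := by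
  obtain ⟨c, hc⟩ := la_exp T hx (Nat.zero_le (p ^ (n + 1))) (by rwa [pow_zero])
  rw [T.piv (n + 1)] at hc
  have hpi1 : ‖π (n + 1)‖ ≤ 1 := (la_pos T (n + 1)).2.le
  have hpi : ‖π n‖ ≤ 1 := (la_pos T n).2.le
  have hterm : ∀ j ∈ Finset.Ico 0 (p ^ (n + 1)), ‖r (c j) * π (n + 1) ^ j‖ ≤ 1 := by
    intro j _
    rw [norm_mul, norm_pow]
    exact mul_le_one₀ (T.rH _).2 (by positivity) (pow_le_one₀ (norm_nonneg _) hpi1)
  have hs1 := lc_sumle (Finset.Ico 0 (p ^ (n + 1))) _ zero_le_one hterm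
  have h1 := lc_diff T.pr T.five T.lt h hs1 hc
  have h2 := lc_sum T.pr (Finset.Ico 0 (p ^ (n + 1))) _ hterm
  refine ⟨∑ j ∈ Finset.Ico 0 (p ^ (n + 1)), r (c j) ^ p * π n ^ j, ?_, ?_, ?_⟩
  · apply sum_mem
    intro j _
    exact mul_mem (pow_mem (la_mono T (Nat.zero_le n) (T.rH _).1) p) (pow_mem (T.piH n) j)
  · apply lc_sumle _ _ zero_le_one
    intro j _
    rw [norm_mul, norm_pow, norm_pow]
    exact mul_le_one₀ (pow_le_one₀ (norm_nonneg _) (T.rH _).2) (by positivity)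
      (pow_le_one₀ (norm_nonneg _) hpi)
  · have e : x ^ p - ∑ j ∈ Finset.Ico 0 (p ^ (n + 1)), r (c j) ^ p * π n ^ j =
        (x ^ p - (∑ j ∈ Finset.Ico 0 (p ^ (n + 1)), r (c j) * π (n + 1) ^ j) ^ p) +
        (((∑ j ∈ Finset.Ico 0 (p ^ (n + 1)), r (c j) * π (n + 1) ^ j) ^ p -
          ∑ j ∈ Finset.Ico 0 (p ^ (n + 1)), (r (c j) * π (n + 1) ^ j) ^ p) +
        ∑ j ∈ Finset.Ico 0 (p ^ (n + 1)), ((r (c j) * π (n + 1) ^ j) ^ p - r (c j) ^ p * π n ^ j)) := by
      rw [Finset.sum_sub_distrib]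
      ring
    rw [e]
    refine (IsUltrametricDist.norm_add_le_max _ _).trans (max_le ?_ ?_)
    · refine h1.trans ?_
      rw [sq]
      exact mul_le_of_le_one_left (norm_nonneg _) T.lt.le
    · refine (IsUltrametricDist.norm_add_le_max _ _).trans (max_le h2 ?_)
      apply lc_sumle _ _ (norm_nonneg _)
      intro j _
      have e2 : (r (c j) * π (n + 1) ^ j) ^ p - r (c j) ^ p * π n ^ j =
          r (c j) ^ p * ((π (n + 1) ^ p) ^ j - π n ^ j) := by
        rw [mul_pow, ← pow_mul, ← pow_mul, mul_comm j p]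
        ring
      rw [e2, norm_mul]
      have h3 : ‖r (c j) ^ p‖ ≤ 1 := by
        rw [norm_pow]
        exact pow_le_one₀ (norm_nonneg _) (T.rH _).2
      have h4 : ‖(π (n + 1) ^ p) ^ j - π n ^ j‖ ≤ ‖(p : L)‖ := by
        refine (lc_powsub ?_ hpi j).trans (T.pip n)
        rw [norm_pow]
        exact pow_le_one₀ (norm_nonneg _) hpi1
      exact (mul_le_of_le_one_left (norm_nonneg _) h3).trans h4

/-- Chunk LC (M). At level 2: x = r_i π_2 + (small) in H 2, y in H 1 with ‖x^p - y‖ ≤ ‖p‖. Then y^p is r_i p modulo something smaller than p. PROOF. x = π_2 (r_i + e), ‖e‖ ≤ ‖π_2‖, so ‖x^p - r_i^p π_2^p‖ < ‖π_2‖^p = ‖π_1‖ (u^p - v^p is divisible by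
u - v), ‖π_2^p - π_1‖ ≤ ‖p‖ < ‖π_1‖: ‖y - r_i^p π_1‖ < ‖π_1‖. In the same way ‖y^p - r_i^(p^2) π_1^p‖ < ‖π_1‖^p = ‖p‖, T.pi1 and T.fr. -/
theorem lc_two (T : Twr p H g π r) {x y : L} (hx : x ∈ H 2) (hy : y ∈ H 1) (h1 : ‖x ^ p - y‖ ≤ ‖(p : L)‖)
    {i : Fin (p ^ 2)} (h : ‖x - r i * π 2‖ ≤ ‖π 2‖ ^ 2) : ‖y ^ p - r i * p‖ < ‖(p : L)‖ := by
  obtain ⟨a0, a1⟩ := la_pos T 2
  obtain ⟨b0, b1⟩ := la_pos T 1
  have hp0 := la_npos T
  have hpi2 : π 2 ≠ 0 := norm_pos_iff.1 a0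
  have hpi1 : π 1 ≠ 0 := norm_pos_iff.1 b0
  have hs : ‖π 2‖ ^ p = ‖π 1‖ := (la_succ T 1).1
  have hs' : ‖π 1‖ ^ p = ‖(p : L)‖ := by
    have := T.piv 1
    rwa [pow_one] at this
  have hlt : ‖(p : L)‖ < ‖π 1‖ := by
    rw [← hs']
    exact pow_lt_self_of_lt_one₀ b0 b1 (by have := T.five; omega)
  have hri := (T.rH i).2
  have hri' : ‖r i ^ p‖ ≤ 1 := by
    rw [norm_pow]
    exact pow_le_one₀ (norm_nonneg _) hri
  -- level 2
  have hu : ‖x / π 2 - r i‖ ≤ ‖π 2‖ := by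
    have e : x / π 2 - r i = (x - r i * π 2) / π 2 := by
      field_simp
    rw [e, norm_div, div_le_iff₀ a0, ← sq]
    exact h
  have hu1 : ‖x / π 2‖ ≤ 1 := by
    have e : x / π 2 = (x / π 2 - r i) + r i := by ring
    rw [e]
    exact (IsUltrametricDist.norm_add_le_max _ _).trans (max_le (hu.trans a1.le) hri)
  have h2 : ‖x ^ p - r i ^ p * π 2 ^ p‖ < ‖π 1‖ := by
    have e : x ^ p - r i ^ p * π 2 ^ p = π 2 ^ p * ((x / π 2) ^ p - r i ^ p) := by
      rw [div_pow]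
      field_simp
    rw [e, norm_mul, norm_pow, hs]
    exact mul_lt_of_lt_one_right b0 (((lc_powsub hu1 hri p).trans hu).trans_lt a1)
  have h3 : ‖y - r i ^ p * π 1‖ < ‖π 1‖ := by
    have e : y - r i ^ p * π 1 = -(x ^ p - y) + ((x ^ p - r i ^ p * π 2 ^ p) + r i ^ p * (π 2 ^ p - π 1)) := by
      ring
    rw [e]
    refine (IsUltrametricDist.norm_add_le_max _ _).trans_lt (max_lt ?_ ?_)
    · rw [norm_neg]
      exact h1.trans_lt hlt
    · refine (IsUltrametricDist.norm_add_le_max _ _).trans_lt (max_lt h2 ?_)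
      rw [norm_mul]
      exact ((mul_le_of_le_one_left (norm_nonneg _) hri').trans (T.pip 1)).trans_lt hlt
  -- level 1
  have hw : ‖y / π 1 - r i ^ p‖ < 1 := by
    have e : y / π 1 - r i ^ p = (y - r i ^ p * π 1) / π 1 := by
      field_simp
    rw [e, norm_div, div_lt_one b0]
    exact h3
  have hw1 : ‖y / π 1‖ ≤ 1 := by
    have e : y / π 1 = (y / π 1 - r i ^ p) + r i ^ p := by ring
    rw [e]
    exact (IsUltrametricDist.norm_add_le_max _ _).trans (max_le hw.le hri')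
  have h4 : ‖y ^ p - (r i ^ p) ^ p * π 1 ^ p‖ < ‖(p : L)‖ := by
    have e : y ^ p - (r i ^ p) ^ p * π 1 ^ p = π 1 ^ p * ((y / π 1) ^ p - (r i ^ p) ^ p) := by
      rw [div_pow]
      field_simp
    rw [e, norm_mul, norm_pow, hs']
    exact mul_lt_of_lt_one_right hp0 ((lc_powsub hw1 hri' p).trans_lt hw)
  have e : y ^ p - r i * p = (y ^ p - (r i ^ p) ^ p * π 1 ^ p) +
      (r i ^ p ^ 2 * (π 1 ^ p - p) + (r i ^ p ^ 2 - r i) * p) := by
    rw [← pow_mul, ← sq]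
    ring
  rw [e]
  refine (IsUltrametricDist.norm_add_le_max _ _).trans_lt (max_lt h4 ?_)
  refine (IsUltrametricDist.norm_add_le_max _ _).trans_lt (max_lt ?_ ?_)
  · rw [norm_mul]
    refine (mul_le_of_le_one_left (norm_nonneg _) ?_).trans_lt T.pi1
    rw [norm_pow]
    exact pow_le_one₀ (norm_nonneg _) hri
  · rw [norm_mul]
    exact mul_lt_of_lt_one_left hp0 (T.fr _ (T.rH i).1 hri)

end H16S
end

-- from Lib.H16S.TD
section

/-! # H16S: the cyclotomic tower (definitions) -/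

namespace H16S

/-- The Teichmüller elements modulo p^(n+1). -/
def Tm (p n : ℕ) [Fact p.Prime] : Finset (ZMod (p ^ (n + 1)))ˣ := Finset.univ.filter fun u => u ^ (p - 1) = 1

/-- The uniformizer of level n: the product of 1 - ζ^u over the Teichmüller elements u. -/
noncomputable def piT (p : ℕ) [Fact p.Prime] {L : Type} [Field L] (ζ : ℕ → L) (n : ℕ) : L :=
  ∏ u ∈ Tm p n, (1 - ζ n ^ ((u : ZMod (p ^ (n + 1))).val))

/-- A compatible system of roots of unity: ζ n has order p^(n+1). -/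
structure Zt (p : ℕ) {L : Type} [Field L] (ζ : ℕ → L) : Prop where
  z0 : IsPrimitiveRoot (ζ 0) p
  zs : ∀ n, ζ (n + 1) ^ p = ζ n

/-- The polynomial whose value at ζ n is the j-th power of piT. -/
noncomputable def pol (p n : ℕ) [Fact p.Prime] (j : ℕ) : Polynomial ℤ :=
  (∏ u ∈ Tm p n, (1 - Polynomial.X ^ ((u : ZMod (p ^ (n + 1))).val))) ^ j

end H16S
end

-- from Lib.H16S.TA
section

/-! # H16S, chunk TA (M): the values 1 - ζ^a -/

namespace H16S

variable {p : ℕ} [hp : Fact p.Prime] {L : Type} [NormedField L] [IsUltrametricDist L]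

/-- Chunk TA (S). ζ n is a primitive p^(n+1)-th root of unity: induction (IsPrimitiveRoot.of_pow or orderOf_eq_prime_pow style: (ζ (n+1))^(p^(n+1)) = ζ 0 ^.. ≠ 1). -/
theorem zt_prim {ζ : ℕ → L} (Z : Zt p ζ) (n : ℕ) : IsPrimitiveRoot (ζ n) (p ^ (n + 1)) := by
  induction n with
  | zero => rw [zero_add, pow_one]; exact Z.z0
  | succ n ih =>
    have h1 : ¬ ζ (n + 1) ^ p ^ (n + 1) = 1 := by
      rw [pow_succ', pow_mul, Z.zs]
      intro h
      have h2 := ih.dvd_of_pow_eq_one _ h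
      have h3 := Nat.le_of_dvd (pow_pos hp.out.pos n) h2
      have h4 : p ^ n < p ^ (n + 1) := Nat.pow_lt_pow_right hp.out.one_lt (Nat.lt_succ_self n)
      omega
    have h2 : ζ (n + 1) ^ p ^ (n + 1 + 1) = 1 := by
      rw [pow_succ' p (n + 1), pow_mul, Z.zs]
      exact ih.pow_eq_one
    have h3 := orderOf_eq_prime_pow h1 h2
    have h4 := IsPrimitiveRoot.orderOf (ζ (n + 1))
    rwa [h3] at h4

omit hp in
theorem ta_one {m : ℕ} (hm : m ≠ 0) {z : L} (hz : z ^ m = 1) : ‖z‖ = 1 := by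
  have h : ‖z‖ ^ m = 1 := by rw [← norm_pow, hz, norm_one]
  exact (pow_eq_one_iff_of_nonneg (norm_nonneg _) hm).1 h

omit hp in
theorem ta_le {m : ℕ} (hm : m ≠ 0) {z : L} (hz : z ^ m = 1) (a : ℕ) : ‖1 - z ^ a‖ ≤ ‖1 - z‖ := by
  have h := lc_powsub (u := (1 : L)) (v := z) (by rw [norm_one]) (ta_one hm hz).le a
  rwa [one_pow] at h

omit hp in
theorem ta_eq {m : ℕ} (hm : m ≠ 0) {z w : L} (hz : IsPrimitiveRoot z m) (hw : IsPrimitiveRoot w m) :
    ‖1 - z‖ = ‖1 - w‖ := by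
  haveI : NeZero m := ⟨hm⟩
  apply le_antisymm
  · obtain ⟨i, _, hi⟩ := hw.eq_pow_of_pow_eq_one hz.pow_eq_one
    rw [← hi]
    exact ta_le hm hw.pow_eq_one i
  · obtain ⟨i, _, hi⟩ := hz.eq_pow_of_pow_eq_one hw.pow_eq_one
    rw [← hi]
    exact ta_le hm hz.pow_eq_one i

/-- Chunk TA (M). PROOF. The product of 1 - z^a over the units a modulo p^(n+1) is the value at 1 of the cyclotomic polynomial, p (Polynomial.eval_one_cyclotomic_prime_pow, cyclotomic_eq_prod_X_sub_primitiveRoots; or IsPrimitiveRoot lemmas). All factors have the same norm: 1 - z^a is (1 - z) times a sum of powers of z, norm ≤ 1, and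
1 - z = 1 - (z^a)^b with a b = 1 modulo p^(n+1). There are p^n (p - 1) factors. ‖z‖ = 1. -/
theorem ta_norm {n : ℕ} {z : L} (hz : IsPrimitiveRoot z (p ^ (n + 1))) {a : ℕ} (ha : ¬ p ∣ a) :
    ‖1 - z ^ a‖ ^ (p ^ n * (p - 1)) = ‖(p : L)‖ := by
  have hm : p ^ (n + 1) ≠ 0 := pow_ne_zero _ hp.out.ne_zero
  have hza : IsPrimitiveRoot (z ^ a) (p ^ (n + 1)) := by
    apply hz.pow_of_coprime
    exact (Nat.Coprime.pow_left _ ((Nat.Prime.coprime_iff_not_dvd hp.out).2 ha)).symm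
  have h1 := Polynomial.eval_one_cyclotomic_prime_pow (R := L) (p := p) n
  rw [Polynomial.cyclotomic_eq_prod_X_sub_primitiveRoots hz, Polynomial.eval_prod] at h1
  rw [← h1, norm_prod]
  have h2 : ∀ μ ∈ primitiveRoots (p ^ (n + 1)) L, ‖Polynomial.eval 1 (Polynomial.X - Polynomial.C μ)‖ = ‖1 - z ^ a‖ := by
    intro μ hμ
    rw [mem_primitiveRoots (Nat.pos_of_ne_zero hm)] at hμ
    rw [Polynomial.eval_sub, Polynomial.eval_X, Polynomial.eval_C]
    exact ta_eq hm hμ hza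
  rw [Finset.prod_congr rfl h2, Finset.prod_const, hz.card_primitiveRoots,
    Nat.totient_prime_pow_succ hp.out]

/-- Chunk TA (S/M). For ‖p‖ < 1 all ‖1 - z^a‖ < 1 (a prime to p: ta_norm; in general 1 - z^a is a multiple of 1 - z), ‖z‖ = 1. -/
theorem ta_lt (hlt : ‖(p : L)‖ < 1) {n : ℕ} {z : L} (hz : IsPrimitiveRoot z (p ^ (n + 1))) (a : ℕ) : ‖1 - z ^ a‖ < 1 ∧ ‖z‖ = 1 := by
  have hm : p ^ (n + 1) ≠ 0 := pow_ne_zero _ hp.out.ne_zero
  refine ⟨lt_of_le_of_lt (ta_le hm hz.pow_eq_one a) ?_, ta_one hm hz.pow_eq_one⟩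
  have h1 := ta_norm hz (a := 1) (Nat.Prime.not_dvd_one hp.out)
  rw [pow_one] at h1
  by_contra hc
  rw [not_lt] at hc
  have h2 := one_le_pow₀ (n := p ^ n * (p - 1)) hc
  rw [h1] at h2
  exact absurd hlt (not_lt.2 h2)

end H16S
end
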