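import Mathlib
import Pool.Agent.Lib.H1M.PP2.M012
import Pool.Agent.Lib.H1M.PP2.M048
import Pool.Agent.Lib.H1M.PP2.M051
import Pool.Agent.Lib.H1M.PP2.M060
import Pool.Agent.Lib.H1M.PP2.M062
import Pool.Agent.Lib.H1M.PP2.M069
import Pool.Agent.Lib.H1M.PP2.M070
import Pool.Agent.Lib.H1M.PP2.M071
import Pool.Agent.Lib.H1M.PP2.M086
import Pool.Agent.Lib.H1M.PP2.M095
import Pool.Agent.Lib.H1M.PP2.M098
import Pool.Agent.Lib.H1M.PP2.M107

/-! Merged copies (to shorten the build) of Lib.H16S.B4, Lib.H16S.FD, Lib.H16S.F7, Lib.H16S.F8, Lib.H16S.F9, Lib.H16S.F10, Lib.H16S.F11, Lib.H16S.F12, Lib.H16S.F13, Lib.H16S.ND, Lib.H16S.N1, Lib.H16S.QD, Lib.H16S.N2, Lib.H16S.N3, Lib.H16S.N4. -/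

-- from Lib.H16S.B4
section

/-! # H16S, chunk B4: the multiples of a point in the kernel of reduction -/

open WeierstrassCurve PowerSeries

namespace H16S

open H35P (WAB Ker tt IntW)
open H55K (xc yc)

variable {R : Type} [CommRing R] {K : Type} [NormedField K] [IsUltrametricDist K] [CompleteSpace K] {φ : R →+* K}
  {W : WeierstrassCurve K} [W.IsShortNF] {a b : R} {U : R⟦X⟧}

omit [CompleteSpace K] in
theorem B4_int (hφ : ∀ r, ‖φ r‖ ≤ 1) (ha : φ a = W.a₄) (hb : φ b = W.a₆) : IntW W (ball K) where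
  a1 := by
    rw [W.a₁_of_isShortNF]
    exact zero_mem _
  a2 := by
    rw [W.a₂_of_isShortNF]
    exact zero_mem _
  a3 := by
    rw [W.a₃_of_isShortNF]
    exact zero_mem _
  a4 := by
    rw [← ha]
    exact hφ a
  a6 := by
    rw [← hb]
    exact hφ b

omit [W.IsShortNF] in
theorem B4_eqn (hφ : ∀ r, ‖φ r‖ ≤ 1) (ha : φ a = W.a₄) (hb : φ b = W.a₆) (h : IsW a b U) {z : K} (hz : ‖z‖ < 1) :
    Eqn W.a₄ W.a₆ z (ev φ z U) ∧ ‖ev φ z U‖ < 1 := by
  obtain ⟨E, hE⟩ := ev_hom hφ hz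
  constructor
  · have h3 := congrArg E (show U = X ^ 3 + C a * X * U ^ 2 + C b * U ^ 3 from h.2)
    unfold Eqn
    rw [map_add, map_add, map_mul, map_mul, map_mul, map_pow, map_pow, map_pow, hE, hE, hE, hE, ev_C, ev_C, ev_X, ha,
      hb] at h3
    exact h3
  · obtain ⟨U', hU, -⟩ := W_cube h
    have h4 := ev_dvd (φ := φ) hφ hz (f := U) (k := 3) ⟨U', hU⟩
    exact lt_of_le_of_lt h4 (pow_lt_one₀ (norm_nonneg z) hz (by norm_num))

/-- Chunk B4a (S/M). w is the value of the series U (the series W) at t: for a point of the kernel of reduction. PROOF. ev is a ring homomorphism (ev_hom), so ev U satisfies the equation; ‖ev U‖ ≤ ‖t‖^3 < 1 (W_cube, ev_dvd);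
w_unique with V = ball K (IntW: a₄, a₆ have norm at most 1), ker_tw, ball_lt_one. -/
theorem ww_ev (hφ : ∀ r, ‖φ r‖ ≤ 1) (ha : φ a = W.a₄) (hb : φ b = W.a₆) (h : IsW a b U) {P : W.toAffine.Point}
    (hP : Ker (ball K) P) : ww P = ev φ (tt P) U := by
  classical
  have hI : IntW W (ball K) := B4_int hφ ha hb
  obtain ⟨c, ht, hw⟩ := ker_tw hI hP
  have hz : ‖tt P‖ < 1 := (ball_lt_one _).1 ht
  obtain ⟨e1, e2⟩ := B4_eqn hφ ha hb h hz
  refine w_unique (V := ball K) hI.a4 hI.a6 (Eqn_ww c) e1 ht ?_ ((ball_lt_one _).2 e2)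
  rw [hw]
  exact pow_lt_one₀ zero_le ht (by norm_num)

/-- Chunk B4b (S/M). Every element of norm < 1 is the parameter of a point. PROOF. z = 0: P = 0. Otherwise w = ev φ z U ≠ 0 (‖w‖ = ‖z‖^3: U = X^3 U', ev U' = 1 + something of norm < 1), the point with x = z/w, y = 1/w (H55K.exists_pt; the equation divided by w³),
Ker: ker_of_tw or ‖x‖ = ‖z‖^(-2) > 1. -/
theorem exists_tt (hφ : ∀ r, ‖φ r‖ ≤ 1) (ha : φ a = W.a₄) (hb : φ b = W.a₆) (h : IsW a b U) (hΔ : W.Δ ≠ 0) {z : K}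
    (hz : ‖z‖ < 1) : ∃ P : W.toAffine.Point, Ker (ball K) P ∧ tt P = z := by
  classical
  by_cases h0 : z = 0
  · exact ⟨0, H55K.ker_zero _, h0.symm⟩
  · have hI : IntW W (ball K) := B4_int hφ ha hb
    obtain ⟨e1, e2⟩ := B4_eqn hφ ha hb h hz
    have hw : ev φ z U ≠ 0 := by
      obtain ⟨U', hU, hU'⟩ := W_cube h
      obtain ⟨E, hE⟩ := ev_hom (φ := φ) hφ hz
      rw [← hE, hU, map_mul, map_pow]
      have h5 : E X = z := by rw [hE, ev_X]
      rw [h5]
      refine mul_ne_zero (pow_ne_zero 3 h0) fun h6 => ?_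
      have h7 : X ^ 1 ∣ U' - 1 := by
        rw [pow_one, X_dvd_iff, map_sub, hU', map_one, sub_self]
      have h8 := ev_dvd (φ := φ) hφ hz h7
      rw [← hE, map_sub, h6, map_one, zero_sub, norm_neg, norm_one, pow_one] at h8
      exact absurd hz (not_lt.2 h8)
    set w := ev φ z U with hwdef
    obtain ⟨P, hP, hx, hy⟩ := H55K.exists_pt (W := W) hΔ (x := z / w) (y := 1 / w) (by
      unfold Eqn at e1
      field_simp
      linear_combination e1)
    have hwP : ww P = w := by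
      unfold ww
      rw [hy, one_div, inv_inv]
    have c : Ch P := by
      right
      rw [hy]
      exact one_div_ne_zero hw
    refine ⟨P, ker_of_tw hI c ?_, ?_⟩
    · rw [hwP]
      exact (ball_lt_one _).2 e2
    · rw [H55K.tt_eq, hx, hy]
      field_simp

variable [DecidableEq K]

/-- Chunk B4c (M). t and w of n P. PROOF. Induction on n: n P in the kernel (H35P.ker_add), ker_tw; ev of the series d1, d2 of TW (units of R⟦X⟧, unit_d) are units of K, so add_tw applies; ev is a ring homomorphism with ev X = t, ev U = w (ww_ev),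
ev (C a) = a₄; map_add' with φ = ev_hom and unit_d. -/
theorem tt_nsmul (h2 : (2 : K) ≠ 0) (hφ : ∀ r, ‖φ r‖ ≤ 1) (ha : φ a = W.a₄) (hb : φ b = W.a₆) (h : IsW a b U)
    {P : W.toAffine.Point} (hP : Ker (ball K) P) (n : ℕ) :
    tt (n • P) = ev φ (tt P) (TW a b U n).1 ∧ ww (n • P) = ev φ (tt P) (TW a b U n).2 := by
  have hI : IntW W (ball K) := B4_int hφ ha hb
  obtain ⟨c, ht, -⟩ := ker_tw hI hP
  have hz : ‖tt P‖ < 1 := (ball_lt_one _).1 ht
  obtain ⟨E, hE⟩ := ev_hom (φ := φ) hφ hz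
  have hX : E X = tt P := by rw [hE, ev_X]
  have hU : E U = ww P := by rw [hE, ww_ev hφ ha hb h hP]
  have hA : E (C a) = W.a₄ := by rw [hE, ev_C, ha]
  have hB : E (C b) = W.a₆ := by rw [hE, ev_C, hb]
  have key : ∀ n : ℕ, Ker (ball K) (n • P) ∧ tt (n • P) = E (TW a b U n).1 ∧ ww (n • P) = E (TW a b U n).2 := by
    intro n
    induction n with
    | zero =>
      rw [zero_smul]
      have z1 : (TW a b U 0).1 = 0 := rfl
      have z2 : (TW a b U 0).2 = 0 := rfl
      rw [z1, z2, map_zero]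
      exact ⟨H55K.ker_zero _, rfl, inv_zero⟩
    | succ n ih =>
      obtain ⟨k1, k2, k3⟩ := ih
      obtain ⟨c', -, -⟩ := ker_tw hI k1
      have k4 : Ker (ball K) (n • P + P) := H35P.ker_add hI _ _ k1 hP
      obtain ⟨u1, u2⟩ := b2_unit h n
      have v1 : E (d1 (C a) (C b) (TW a b U n).1 (TW a b U n).2 X U) =
          d1 W.a₄ W.a₆ (tt (n • P)) (ww (n • P)) (tt P) (ww P) := by
        unfold d1
        rw [k3, ← hX, ← hU, ← hA, ← hB]
        simp only [map_sub, map_add, map_mul, map_pow, map_one]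
      have vl : E (lam (C a) (C b) (TW a b U n).1 (TW a b U n).2 X U) =
          lam W.a₄ W.a₆ (tt (n • P)) (ww (n • P)) (tt P) (ww P) := by
        rw [map_lam E u1, k2, k3, hX, hU, hA, hB]
      have v2 : E (d2 (C a) (C b) (TW a b U n).1 (TW a b U n).2 X U) =
          d2 W.a₄ W.a₆ (tt (n • P)) (ww (n • P)) (tt P) (ww P) := by
        unfold d2
        rw [← vl, ← hA, ← hB]
        simp only [map_add, map_mul, map_pow, map_one]
      have n1' := (u1.map E).ne_zero
      have n2' := (u2.map E).ne_zero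
      rw [v1] at n1'
      rw [v2] at n2'
      obtain ⟨-, r1, r2⟩ := add_tw h2 c' c n1' n2'
      obtain ⟨s1, s2⟩ := map_add' E u1 u2
      have t1 : (TW a b U (n + 1)).1 = addt (C a) (C b) (TW a b U n).1 (TW a b U n).2 X U := rfl
      have t2 : (TW a b U (n + 1)).2 = addw (C a) (C b) (TW a b U n).1 (TW a b U n).2 X U := rfl
      rw [succ_nsmul, t1, t2, s1, s2, hX, hU, hA, hB, ← k2, ← k3]
      exact ⟨k4, r1, r2⟩
  rw [← hE, ← hE]
  exact (key n).2

end H16S
end

-- from Lib.H16S.FD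
section

/-! # H16S: the supersingular relation (definition) -/

open NumberField IsDedekindDomain WeierstrassCurve

namespace H16S

open H55P (IQ Pt ac Inert Dec Nm)
open H35P (WAB Ker tt)
open H55K

/-- The Frobenius elements at the places above the inert prime p act as -p on the points modulo the kernel of reduction. -/
structure Sup {F : Type} [Field F] {A B : F} {Ω : Type} [Field Ω] [DecidableEq Ω] [Algebra F Ω]
    (_act : 𝓞 F →+* AddMonoid.End (Pt (WAB A B) Ω)) (p : ℕ) : Prop where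
  fr : ∀ V : ValuationSubring Ω, V.valuation (p : Ω) < 1 → ∀ s : Ω ≃ₐ[F] Ω,
    (∀ x ∈ V, V.valuation (s x - x ^ (p ^ 2)) < 1) → ∀ X : Pt (WAB A B) Ω, Ker V (ac (WAB A B) s X + p • X)

/-- The short Weierstrass curve over a ring. -/
def WR {R : Type} [CommRing R] (a b : R) : WeierstrassCurve R := ⟨0, 0, 0, a, b⟩

theorem WR_map {R S : Type} [CommRing R] [CommRing S] (φ : R →+* S) (a b : R) : (WR a b).map φ = WR (φ a) (φ b) := by
  unfold WR WeierstrassCurve.map
  simp

instance WR_short {R : Type} [CommRing R] (a b : R) : (WR a b).IsShortNF := ⟨rfl, rfl, rfl⟩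

theorem WAB_eq {F : Type} [Field F] (A B : F) (Ω : Type) [Field Ω] [Algebra F Ω] :
    (WAB A B)⁄Ω = WR (algebraMap F Ω A) (algebraMap F Ω B) :=
  WR_map (algebraMap F Ω) A B

end H16S
end

-- from Lib.H16S.F7
section

/-! # H16S, chunk F7 (M): the relation for the division polynomials at torsion points -/

open NumberField IsDedekindDomain WeierstrassCurve

namespace H16S

open H55P (IQ Pt ac Inert Dec Nm)
open H35P (WAB Ker tt)
open H55K

variable {F : Type} [Field F] [NumberField F] [IQ F] {A B : F} {Om : ℂ} {Ω : Type} [Field Ω] [DecidableEq Ω]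
  [Algebra F Ω] {j : Ω →+* ℂ} {act : 𝓞 F →+* AddMonoid.End (Pt (WAB A B) Ω)} {V : ValuationSubring Ω}

open Polynomial

theorem f7_ev {R S : Type} [CommRing R] [CommRing S] (φ : R →+* S) (q : R[X]) (r : R) :
    (q.map φ).eval (φ r) = φ (q.eval r) := by
  rw [eval_map, eval₂_at_apply]

omit [NumberField F] [IQ F] [DecidableEq Ω] in
/-- The values of the division polynomials over V, over Ω and over the residue field. -/
theorem f7_eval (hV : GV A B V) {z : Ω} (hz : z ∈ V) (a b x : IsLocalRing.ResidueField V)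
    (ha : a = IsLocalRing.residue V ⟨algebraMap F Ω A, hV.a⟩)
    (hb : b = IsLocalRing.residue V ⟨algebraMap F Ω B, hV.b⟩) (hxx : x = IsLocalRing.residue V ⟨z, hz⟩) (n : ℤ) :
    (∃ u : V, ((((WAB A B)⁄Ω).Φ n).eval z = (u : Ω)) ∧ ((WR a b).Φ n).eval x = IsLocalRing.residue V u) ∧
    (∃ u : V, ((((WAB A B)⁄Ω).ΨSq n).eval z = (u : Ω)) ∧ ((WR a b).ΨSq n).eval x = IsLocalRing.residue V u) ∧
    (∃ u : V, ((((WAB A B)⁄Ω).preΨ n).eval z = (u : Ω)) ∧ ((WR a b).preΨ n).eval x = IsLocalRing.residue V u) := by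
  have e1 : (WAB A B)⁄Ω = (WR (⟨algebraMap F Ω A, hV.a⟩ : V) ⟨algebraMap F Ω B, hV.b⟩).map V.subtype := by
    rw [WR_map, WAB_eq]
    rfl
  have e2 : WR a b = (WR (⟨algebraMap F Ω A, hV.a⟩ : V) ⟨algebraMap F Ω B, hV.b⟩).map (IsLocalRing.residue V) := by
    rw [WR_map, ← ha, ← hb]
  have e3 : z = V.subtype ⟨z, hz⟩ := rfl
  rw [e1, e2, hxx]
  refine ⟨⟨((WR (⟨algebraMap F Ω A, hV.a⟩ : V) ⟨algebraMap F Ω B, hV.b⟩).Φ n).eval ⟨z, hz⟩, ?_, ?_⟩,
    ⟨((WR (⟨algebraMap F Ω A, hV.a⟩ : V) ⟨algebraMap F Ω B, hV.b⟩).ΨSq n).eval ⟨z, hz⟩, ?_, ?_⟩,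
    ⟨((WR (⟨algebraMap F Ω A, hV.a⟩ : V) ⟨algebraMap F Ω B, hV.b⟩).preΨ n).eval ⟨z, hz⟩, ?_, ?_⟩⟩
  · rw [map_Φ]
    exact f7_ev V.subtype _ (⟨z, hz⟩ : V)
  · rw [map_Φ]
    exact f7_ev (IsLocalRing.residue V) _ _
  · rw [map_ΨSq]
    exact f7_ev V.subtype _ (⟨z, hz⟩ : V)
  · rw [map_ΨSq]
    exact f7_ev (IsLocalRing.residue V) _ _
  · rw [map_preΨ]
    exact f7_ev V.subtype _ (⟨z, hz⟩ : V)
  · rw [map_preΨ]
    exact f7_ev (IsLocalRing.residue V) _ _

omit [DecidableEq Ω] in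
/-- A Frobenius element at the inert prime p. -/
theorem f7_frob [IsAlgClosure F Ω] {p : ℕ} (hβ : Prime (p : 𝓞 F)) (hv : V.valuation (p : Ω) < 1) :
    ∃ s : Ω ≃ₐ[F] Ω, Dec V s ∧ ∀ x ∈ V, V.valuation (s x - x ^ (p ^ 2)) < 1 := by
  have hp0 : (p : 𝓞 F) ≠ 0 := hβ.ne_zero
  let v : HeightOneSpectrum (𝓞 F) := ⟨Ideal.span {(p : 𝓞 F)}, (Ideal.span_singleton_prime hp0).2 hβ, by
    rw [Ne, Ideal.span_singleton_eq_bot]
    exact hp0⟩
  have hN : Ideal.absNorm v.asIdeal = p ^ 2 := by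
    show Ideal.absNorm (Ideal.span {(p : 𝓞 F)}) = p ^ 2
    rw [Ideal.absNorm_span_natCast, RingOfIntegers.rank F, IQ.deg]
  have hvv : ∀ a : 𝓞 F, a ∈ v.asIdeal → V.valuation (algebraMap F Ω (a : F)) < 1 := by
    intro a ha
    obtain ⟨c, rfl⟩ := Ideal.mem_span_singleton'.1 ha
    have h1 : algebraMap F Ω ((c * (p : 𝓞 F) : 𝓞 F) : F) = (p : Ω) * ak Ω c := by
      simp [ak, mul_comm]
    rw [h1, map_mul]
    exact mul_lt_one_of_lt_of_le hv (ak_le V c)
  obtain ⟨s, hs1, hs2⟩ := H13S.exists_frob v V hvv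
  rw [hN] at hs2
  exact ⟨s, hs1, hs2⟩

/-- Chunk F7 (M). A point T of order prime to p with no small multiple equal to 0; a, b, x the residues of A, B, xc T in the residue field of V. PROOF. s a Frobenius element: H13S.exists_frob for v = (p), absNorm = p². s T + p T is in Ker V and killed by n (V n = 1), so p T = - s T (ker_tors): xc (pT) = s (xc T), yc (pT) = - s (yc T), congruent to
x^(p²), -(y)^(p²). T is not in Ker V (ker_tors), so xc T, yc T are in V. xc_mul and yc_mul (n = p; over Ω: (WAB A B)⁄Ω = WR A B, WAB_eq) and reduce modulo V: (WR a b).Φ is the image of the polynomial over V (WR_map, map_Φ, map_ΨSq, map_preΨ, eval_map: the residue map is a ring homomorphism on V).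
For y: y(pT) Ψ³ = y N gives -y^(p²) Ψ(x)³ = y N(x) modulo V, y^(p²-1) = (x³ + a x + b)^((p²-1)/2), and y ≠ 0 modulo V (2 T is not in Ker V, since 2 T ≠ 0 and ker_tors; if V(y) < 1 then T and -T are congruent: cls_xy). -/
theorem f7 [IsAlgClosure F Ω] (h : CMA F A B Om j act) {p : ℕ} (hp : p.Prime) (h5 : 5 ≤ p) (hβ : Prime (p : 𝓞 F))
    (hS : Sup act p) (hV : GV A B V) (hv : V.valuation (p : Ω) < 1) {n : ℕ} (hn : V.valuation (n : Ω) = 1)
    {T : Pt (WAB A B) Ω} (hT : n • T = 0) (h0 : ∀ i : ℕ, 0 < i → i ≤ p + 2 → i • T ≠ 0) (hx : xc T ∈ V)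
    (a b x : IsLocalRing.ResidueField V) (ha : a = IsLocalRing.residue V ⟨algebraMap F Ω A, hV.a⟩)
    (hb : b = IsLocalRing.residue V ⟨algebraMap F Ω B, hV.b⟩) (hxx : x = IsLocalRing.residue V ⟨xc T, hx⟩) :
    ((WR a b).Φ p).eval x = x ^ (p ^ 2) * ((WR a b).ΨSq p).eval x ∧
    ((WR a b).preΨ (p + 2)).eval x * ((WR a b).preΨ (p - 1)).eval x ^ 2 -
        ((WR a b).preΨ (p - 2)).eval x * ((WR a b).preΨ (p + 1)).eval x ^ 2 =
      -((x ^ 3 + a * x + b) ^ ((p ^ 2 - 1) / 2) * ((WR a b).preΨ p).eval x ^ 3) := by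
  have h2Ω : (2 : Ω) ≠ 0 := by
    intro h2
    have := hV.two
    rw [h2, map_zero] at this
    exact zero_ne_one this
  have hT0 : T ≠ 0 := by
    have := h0 1 (by norm_num) (by omega)
    rwa [one_nsmul] at this
  have hTK : ¬ Ker V T := fun hk => hT0 (ker_tors hV n hn hT hk)
  have hyv := gv_y hV hTK
  have hy : yc T ∈ V := (V.valuation_le_one_iff _).1 hyv
  obtain ⟨s, hsD, hs⟩ := f7_frob (Ω := Ω) hβ hv
  -- the Frobenius element acts on T as - p
  have hfr : ac (WAB A B) s T + p • T = 0 := by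
    refine ker_tors hV n hn ?_ (hS.fr V hv s hs T)
    rw [nsmul_add, nsmul_left_comm, hT, nsmul_zero, add_zero, ← map_nsmul, hT, map_zero]
  have hpT : p • T = -ac (WAB A B) s T := (neg_eq_of_add_eq_zero_right hfr).symm
  have hxp : xc (p • T) = s (xc T) := by rw [hpT, xc_neg, xc_ac]
  have hyp : yc (p • T) = -s (yc T) := by rw [hpT, yc_neg, yc_ac]
  have hsx : s (xc T) ∈ V := (hsD _).2 hx
  have hsy : s (yc T) ∈ V := (hsD _).2 hy
  have rx : IsLocalRing.residue V ⟨s (xc T), hsx⟩ = x ^ (p ^ 2) := by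
    rw [hxx, ← map_pow, ← sub_eq_zero, ← map_sub]
    exact (IsLocalRing.residue_eq_zero_iff _).2 ((V.valuation_lt_one_iff _).2 (hs _ hx))
  have ry : IsLocalRing.residue V ⟨s (yc T), hsy⟩ = IsLocalRing.residue V ⟨yc T, hy⟩ ^ (p ^ 2) := by
    rw [← map_pow, ← sub_eq_zero, ← map_sub]
    exact (IsLocalRing.residue_eq_zero_iff _).2 ((V.valuation_lt_one_iff _).2 (hs _ hy))
  have hy0 : IsLocalRing.residue V ⟨yc T, hy⟩ ≠ 0 := by
    intro hz
    have hz1 : V.valuation (yc T) < 1 :=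
      (V.valuation_lt_one_iff ⟨yc T, hy⟩).1 ((IsLocalRing.residue_eq_zero_iff _).1 hz)
    have hnT : ¬ Ker V (-T) := fun hk => hTK ((H35P.ker_neg T).1 hk)
    have hk : Ker V (T - -T) := by
      refine cls_xy hV hTK hnT ?_ ?_
      · rw [xc_neg, sub_self, map_zero]
        exact zero_lt_one
      · rw [yc_neg, sub_neg_eq_add]
        exact V.valuation.map_add_lt hz1 hz1
    rw [sub_neg_eq_add, ← two_nsmul] at hk
    refine h0 2 (by norm_num) (by omega) (ker_tors hV n hn ?_ hk)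
    rw [nsmul_left_comm, hT, nsmul_zero]
  have hyE : IsLocalRing.residue V ⟨yc T, hy⟩ ^ 2 = x ^ 3 + a * x + b := by
    rw [hxx, ha, hb, ← map_pow, ← map_pow, ← map_mul, ← map_add, ← map_add]
    refine congrArg _ (Subtype.ext ?_)
    exact eqnA hT0
  constructor
  · obtain ⟨⟨u, hu1, hu2⟩, ⟨w, hw1, hw2⟩, -⟩ := f7_eval hV hx a b x ha hb hxx (p : ℤ)
    obtain ⟨-, h3⟩ := xc_mul (W := (WAB A B)⁄Ω) h2Ω (P := T) p hp.pos (fun i h1 h3 => h0 i h1 (by omega))
    rw [hxp, hu1, hw1] at h3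
    have h4 : (⟨s (xc T), hsx⟩ : V) * w = u := Subtype.ext h3
    rw [hu2, hw2, ← rx, ← map_mul, h4]
  · have hodd : Odd p := hp.odd_of_ne_two (by omega)
    obtain ⟨-, -, ⟨u, hu1, hu2⟩⟩ := f7_eval hV hx a b x ha hb hxx (p : ℤ)
    obtain ⟨-, -, ⟨u1, hu11, hu12⟩⟩ := f7_eval hV hx a b x ha hb hxx ((p : ℤ) + 1)
    obtain ⟨-, -, ⟨u2, hu21, hu22⟩⟩ := f7_eval hV hx a b x ha hb hxx ((p : ℤ) + 2)
    obtain ⟨-, -, ⟨v1, hv11, hv12⟩⟩ := f7_eval hV hx a b x ha hb hxx ((p : ℤ) - 1)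
    obtain ⟨-, -, ⟨v2, hv21, hv22⟩⟩ := f7_eval hV hx a b x ha hb hxx ((p : ℤ) - 2)
    have h3 := yc_mul (W := (WAB A B)⁄Ω) h2Ω (P := T) p (by omega) hodd (fun i h1 h3 => h0 i h1 h3)
    rw [hyp, hu1, hu11, hu21, hv11, hv21] at h3
    have h4 : -(⟨s (yc T), hsy⟩ : V) * u ^ 3 = ⟨yc T, hy⟩ * (u2 * v1 ^ 2 - v2 * u1 ^ 2) := Subtype.ext h3
    have h5 := congrArg (IsLocalRing.residue V) h4
    simp only [map_mul, map_neg, map_sub, map_pow] at h5
    rw [ry, ← hu2, ← hu12, ← hu22, ← hv12, ← hv22] at h5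
    have hev : p ^ 2 - 1 = 2 * ((p ^ 2 - 1) / 2) := by
      obtain ⟨m, hm⟩ := hodd
      have : p ^ 2 - 1 = 2 * (2 * m ^ 2 + 2 * m) := by
        rw [hm]
        have : (2 * m + 1) ^ 2 = 2 * (2 * m ^ 2 + 2 * m) + 1 := by ring
        omega
      omega
    have hpw : IsLocalRing.residue V ⟨yc T, hy⟩ ^ (p ^ 2) =
        IsLocalRing.residue V ⟨yc T, hy⟩ * (x ^ 3 + a * x + b) ^ ((p ^ 2 - 1) / 2) := by
      rw [← hyE, ← pow_mul, ← hev, ← pow_succ']
      congr 1
      have : 0 < p ^ 2 := pow_pos hp.pos 2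
      omega
    rw [hpw] at h5
    apply mul_left_cancel₀ hy0
    linear_combination -h5

end H16S
end

-- from Lib.H16S.F8
section

/-! # H16S, chunk F8 (M): the polynomial identities -/

open NumberField IsDedekindDomain WeierstrassCurve

namespace H16S

open H55P (IQ Pt ac Inert Dec Nm)
open H35P (WAB Ker tt)
open H55K

variable {F : Type} [Field F] [NumberField F] [IQ F] {A B : F} {Om : ℂ} {Ω : Type} [Field Ω] [DecidableEq Ω]
  [Algebra F Ω] {j : Ω →+* ℂ} {act : 𝓞 F →+* AddMonoid.End (Pt (WAB A B) Ω)} {V : ValuationSubring Ω}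

open Polynomial

omit [DecidableEq Ω] in
/-- Numbers prime to p have value 1. -/
theorem f8_val {p l : ℕ} (hv : V.valuation (p : Ω) < 1) (hc : Nat.Coprime l p) : V.valuation (l : Ω) = 1 := by
  have hint : ∀ z : ℤ, V.valuation (z : Ω) ≤ 1 := fun z =>
    (V.valuation_le_one_iff _).2 (intCast_mem V z)
  have hle : V.valuation (l : Ω) ≤ 1 := by
    have := hint (l : ℤ)
    rwa [Int.cast_natCast] at this
  refine le_antisymm hle ?_
  by_contra hcon
  have hlt : V.valuation (l : Ω) < 1 := not_le.1 hcon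
  have hb := Nat.gcd_eq_gcd_ab l p
  rw [hc] at hb
  have h1 : (1 : Ω) = (l : Ω) * (l.gcdA p : Ω) + (p : Ω) * (l.gcdB p : Ω) := by
    have h2 := congrArg (fun z : ℤ => (z : Ω)) hb
    simpa using h2
  have h3 : V.valuation ((l : Ω) * (l.gcdA p : Ω) + (p : Ω) * (l.gcdB p : Ω)) < 1 := by
    apply V.valuation.map_add_lt
    · rw [map_mul]
      exact mul_lt_one_of_lt_of_le hlt (hint _)
    · rw [map_mul]
      exact mul_lt_one_of_lt_of_le hv (hint _)
  rw [← h1, map_one] at h3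
  exact lt_irrefl _ h3

open Classical in
/-- The residue of the x-coordinate. -/
noncomputable def f8_res (V : ValuationSubring Ω) (T : Pt (WAB A B) Ω) : IsLocalRing.ResidueField V :=
  if h : xc T ∈ V then IsLocalRing.residue V ⟨xc T, h⟩ else 0

/-- The residues at which the relations of F7 hold. -/
def f8_set (A B : F) (V : ValuationSubring Ω) (p : ℕ) : Set (IsLocalRing.ResidueField V) :=
  {x | ∃ (T : Pt (WAB A B) Ω) (l : ℕ) (hx : xc T ∈ V), V.valuation (l : Ω) = 1 ∧ l • T = 0 ∧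
    (∀ i : ℕ, 0 < i → i ≤ p + 2 → i • T ≠ 0) ∧ x = IsLocalRing.residue V ⟨xc T, hx⟩}

theorem f8_inf (h : CMA F A B Om j act) {p : ℕ} (hp : p.Prime) (hV : GV A B V)
    (hv : V.valuation (p : Ω) < 1) : (f8_set A B V p).Infinite := by
  classical
  intro hfin
  obtain ⟨l, hl1, hl⟩ := Nat.exists_infinite_primes (p + 3 + 2 * hfin.toFinset.card + 1)
  have hlp : Nat.Coprime l p := (Nat.coprime_primes hl hp).2 (by omega)
  have hvl := f8_val (V := V) hv hlp
  have hl0 : (l : 𝓞 F) ≠ 0 := Nat.cast_ne_zero.2 hl.ne_zero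
  obtain ⟨S, hS, hSc⟩ := exists_TN h hl0
  have hN : Nm (l : 𝓞 F) = l ^ 2 := by
    show Ideal.absNorm (Ideal.span {(l : 𝓞 F)}) = l ^ 2
    rw [Ideal.absNorm_span_natCast, RingOfIntegers.rank F, IQ.deg]
  rw [hN] at hSc
  have hST : ∀ T ∈ S, l • T = 0 ∧ T ≠ 0 := by
    intro T hT
    obtain ⟨h1, h2⟩ := (hS T).1 hT
    refine ⟨?_, h2⟩
    rw [map_natCast] at h1
    exact h1
  have hK : ∀ T ∈ S, ¬ Ker V T := fun T hT hk =>
    (hST T hT).2 (ker_tors hV l hvl (hST T hT).1 hk)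
  have hmem : ∀ T ∈ S, f8_res V T ∈ hfin.toFinset := by
    intro T hT
    rw [Set.Finite.mem_toFinset]
    have hx : xc T ∈ V := (V.valuation_le_one_iff _).1 (not_ker V (hK T hT)).2
    refine ⟨T, l, hx, hvl, (hST T hT).1, ?_, ?_⟩
    · intro i hi1 hi2 hi3
      have hcop : Nat.Coprime i l :=
        ((Nat.Prime.coprime_iff_not_dvd hl).2
          (fun hd => absurd (Nat.le_of_dvd hi1 hd) (by omega))).symm
      apply (hST T hT).2
      have h5 : addOrderOf T ∣ i := addOrderOf_dvd_of_nsmul_eq_zero hi3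
      have h6 : addOrderOf T ∣ l := addOrderOf_dvd_of_nsmul_eq_zero (hST T hT).1
      have h7 : addOrderOf T ∣ 1 := by
        rw [← hcop]
        exact Nat.dvd_gcd h5 h6
      exact AddMonoid.addOrderOf_eq_one_iff.1 (Nat.dvd_one.1 h7)
    · unfold f8_res
      rw [dif_pos hx]
  have hfib : ∀ y ∈ S.image (f8_res V), (S.filter fun T => f8_res V T = y).card ≤ 2 := by
    intro y hy
    obtain ⟨T, hT, rfl⟩ := Finset.mem_image.1 hy
    refine (Finset.card_le_card (t := {T, -T}) ?_).trans Finset.card_le_two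
    intro T' hT'
    rw [Finset.mem_filter] at hT'
    obtain ⟨hT'S, he⟩ := hT'
    have hx : xc T ∈ V := (V.valuation_le_one_iff _).1 (not_ker V (hK T hT)).2
    have hx' : xc T' ∈ V := (V.valuation_le_one_iff _).1 (not_ker V (hK T' hT'S)).2
    unfold f8_res at he
    rw [dif_pos hx, dif_pos hx', ← sub_eq_zero, ← map_sub] at he
    have hlt : V.valuation (xc T' - xc T) < 1 :=
      (V.valuation_lt_one_iff (⟨xc T', hx'⟩ - ⟨xc T, hx⟩ : V)).1 ((IsLocalRing.residue_eq_zero_iff _).1 he)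
    have h5 : Ker V (T' - T) ∨ Ker V (T' + T) := by
      by_contra hcon
      push Not at hcon
      have h6 := cls_diff hV (hK T' hT'S) (hK T hT) hcon.1 hcon.2
      rw [h6] at hlt
      exact lt_irrefl _ hlt
    rw [Finset.mem_insert, Finset.mem_singleton]
    rcases h5 with h5 | h5
    · left
      refine sub_eq_zero.1 (ker_tors hV l hvl ?_ h5)
      rw [nsmul_sub, (hST T hT).1, (hST T' hT'S).1, sub_zero]
    · right
      refine eq_neg_of_add_eq_zero_left (ker_tors hV l hvl ?_ h5)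
      rw [nsmul_add, (hST T hT).1, (hST T' hT'S).1, add_zero]
  have hcard := Finset.card_le_mul_card_image S 2 hfib
  have hsub : S.image (f8_res V) ⊆ hfin.toFinset := by
    intro y hy
    obtain ⟨T, hT, rfl⟩ := Finset.mem_image.1 hy
    exact hmem T hT
  have hc2 := Finset.card_le_card hsub
  rw [hSc] at hcard
  have h8 : l ≤ l ^ 2 := Nat.le_self_pow (by norm_num) l
  omega

/-- Chunk F8 (M). PROOF. Two polynomials over the residue field of V which agree at infinitely many elements are equal (Polynomial.eq_of_infinite_eval_eq). Infinitely many residues xc T: for every prime number l > p + 2 (V l = 1: l is prime to p) the l² - 1 nonzero points T killed by l (h.gen / exists_TN: Nm l = l²) satisfy f7 (order l > p + 2), and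
V(xc T - xc T') = 1 unless T' = ± T (cls_diff, ker_tors: T - T', T + T' are killed by l): so at least (l² - 1)/2 different residues, l arbitrarily large. This gives Φ_p = X^(p²) ΨSq_p. Φ_p is monic of degree p² (natDegree_Φ, leadingCoeff_Φ), so ΨSq_p has degree 0 and is monic: ΨSq_p = 1, Φ_p = X^(p²). The second identity of f7 in the same way;
preΨ_p^2 = ΨSq_p = 1 for p odd (ΨSq definition). -/
theorem f8 [IsAlgClosure F Ω] (h : CMA F A B Om j act) {p : ℕ} (hp : p.Prime) (h5 : 5 ≤ p) (hβ : Prime (p : 𝓞 F))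
    (hS : Sup act p) (hV : GV A B V) (hv : V.valuation (p : Ω) < 1)
    (a b : IsLocalRing.ResidueField V) (ha : a = IsLocalRing.residue V ⟨algebraMap F Ω A, hV.a⟩)
    (hb : b = IsLocalRing.residue V ⟨algebraMap F Ω B, hV.b⟩) :
    (WR a b).ΨSq p = 1 ∧ (WR a b).Φ p = X ^ (p ^ 2) ∧ (WR a b).preΨ p ^ 2 = 1 ∧
    (WR a b).preΨ (p + 2) * (WR a b).preΨ (p - 1) ^ 2 - (WR a b).preΨ (p - 2) * (WR a b).preΨ (p + 1) ^ 2 =
      -((X ^ 3 + C a * X + C b) ^ ((p ^ 2 - 1) / 2) * (WR a b).preΨ p ^ 3) := by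
  have hinf := f8_inf h hp hV hv
  have e1 : (WR a b).Φ p = X ^ (p ^ 2) * (WR a b).ΨSq p := by
    refine Polynomial.eq_of_infinite_eval_eq _ _ (hinf.mono ?_)
    rintro x ⟨T, l, hx, hvl, hT, h0, hxx⟩
    have h7 := (f7 h hp h5 hβ hS hV hv hvl hT h0 hx a b x ha hb hxx).1
    show ((WR a b).Φ p).eval x = (X ^ (p ^ 2) * (WR a b).ΨSq p).eval x
    rw [eval_mul, eval_pow, eval_X]
    exact h7
  have e2 : (WR a b).preΨ (p + 2) * (WR a b).preΨ (p - 1) ^ 2 - (WR a b).preΨ (p - 2) * (WR a b).preΨ (p + 1) ^ 2 =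
      -((X ^ 3 + C a * X + C b) ^ ((p ^ 2 - 1) / 2) * (WR a b).preΨ p ^ 3) := by
    refine Polynomial.eq_of_infinite_eval_eq _ _ (hinf.mono ?_)
    rintro x ⟨T, l, hx, hvl, hT, h0, hxx⟩
    have h7 := (f7 h hp h5 hβ hS hV hv hvl hT h0 hx a b x ha hb hxx).2
    show Polynomial.eval x _ = Polynomial.eval x _
    simp only [eval_sub, eval_mul, eval_pow, eval_neg, eval_add, eval_X, eval_C]
    exact h7
  have hlead := (WR a b).leadingCoeff_Φ p
  have hdeg := (WR a b).natDegree_Φ p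
  rw [Int.natAbs_natCast] at hdeg
  have hne : (WR a b).ΨSq p ≠ 0 := by
    intro h0
    rw [e1, h0, mul_zero, leadingCoeff_zero] at hlead
    exact zero_ne_one hlead
  rw [e1, leadingCoeff_mul, leadingCoeff_X_pow, one_mul] at hlead
  rw [e1, natDegree_mul (pow_ne_zero _ X_ne_zero) hne, natDegree_X_pow] at hdeg
  have hdeg0 : ((WR a b).ΨSq p).natDegree = 0 := by omega
  have e3 : (WR a b).ΨSq p = 1 := by
    rw [eq_C_of_natDegree_eq_zero hdeg0]
    rw [leadingCoeff, hdeg0] at hlead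
    rw [hlead, C_1]
  refine ⟨e3, ?_, ?_, e2⟩
  · rw [e1, e3, mul_one]
  · have hodd : ¬ Even (p : ℤ) := by
      rw [Int.not_even_iff_odd]
      exact_mod_cast hp.odd_of_ne_two (by omega)
    have h9 := e3
    unfold WeierstrassCurve.ΨSq at h9
    rw [if_neg hodd, mul_one] at h9
    exact h9

end H16S
end

-- from Lib.H16S.F9
section

/-! # H16S, chunk F9 (M): the generic point of the formal group -/

open WeierstrassCurve PowerSeries

namespace H16S

open H35P (WAB Ker tt)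
open H55K (xc yc)

variable {k : Type} [Field k] {K : Type} [Field K] [DecidableEq K] [Algebra k⟦X⟧ K] [IsFractionRing k⟦X⟧ K]

omit [DecidableEq K] in
theorem f9_ne {U : k⟦X⟧} (h : U ≠ 0) : algebraMap k⟦X⟧ K U ≠ 0 := by
  intro h0
  rw [← map_zero (algebraMap k⟦X⟧ K)] at h0
  exact h (IsFractionRing.injective k⟦X⟧ K h0)

omit [DecidableEq K] in
theorem f9_Une {U U' : k⟦X⟧} (h : U = X ^ 3 * U') (h' : constantCoeff U' = 1) : U ≠ 0 := by
  rw [h]
  refine mul_ne_zero (pow_ne_zero _ X_ne_zero) ?_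
  intro h0
  rw [h0, map_zero] at h'
  exact zero_ne_one h'

/-- Chunk F9 (M). K is the field of fractions of k⟦X⟧, c the composite k → k⟦X⟧ → K, U = the series W. The point with the coordinates x = X/U, y = 1/U: t = X, w = U. PROOF. H55K.exists_pt (Δ ≠ 0 in K); U ≠ 0 (B1: W_cube). -/
theorem gen_pt {a b : k} {U : k⟦X⟧} (h : IsW a b U) (hΔ : (WR a b).Δ ≠ 0) :
    ∃ P : (WR (algebraMap k⟦X⟧ K (C a)) (algebraMap k⟦X⟧ K (C b))).toAffine.Point, P ≠ 0 ∧ Ch P ∧
      tt P = algebraMap k⟦X⟧ K X ∧ ww P = algebraMap k⟦X⟧ K U := by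
  obtain ⟨U', hU, hU'⟩ := W_cube h
  have hu : algebraMap k⟦X⟧ K U ≠ 0 := f9_ne (f9_Une hU hU')
  have hΔ' : (WR (algebraMap k⟦X⟧ K (C a)) (algebraMap k⟦X⟧ K (C b))).Δ ≠ 0 := by
    have h1 := WR_map ((algebraMap k⟦X⟧ K).comp (C (R := k))) a b
    rw [RingHom.comp_apply, RingHom.comp_apply] at h1
    rw [← h1, WeierstrassCurve.map_Δ]
    exact (map_ne_zero _).2 hΔ
  set φ := algebraMap k⟦X⟧ K with hφ
  have hE : φ U = φ X ^ 3 + φ (C a) * φ X * φ U ^ 2 + φ (C b) * φ U ^ 3 := by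
    have h1 := congrArg φ h.2
    simpa only [map_add, map_mul, map_pow] using h1
  obtain ⟨P, hP, hx, hy⟩ := H55K.exists_pt (W := WR (φ (C a)) (φ (C b))) hΔ'
    (x := φ X / φ U) (y := (φ U)⁻¹) (by
      show (φ U)⁻¹ ^ 2 = (φ X / φ U) ^ 3 + φ (C a) * (φ X / φ U) + φ (C b)
      field_simp
      linear_combination hE)
  refine ⟨P, hP, Or.inr (by rw [hy]; exact inv_ne_zero hu), ?_, ?_⟩
  · rw [H55K.tt_eq, hx, hy]
    field_simp
  · unfold ww
    rw [hy, inv_inv]

/-- Chunk F9 (M). The multiples: induction on n with add_tw; d1, d2 of the series are units of k⟦X⟧ (unit_d), so their images are not 0; map_add' for algebraMap. -/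
theorem gen_mul (h2 : (2 : k) ≠ 0) {a b : k} {U : k⟦X⟧} (h : IsW a b U)
    {P : (WR (algebraMap k⟦X⟧ K (C a)) (algebraMap k⟦X⟧ K (C b))).toAffine.Point} (c : Ch P)
    (ht : tt P = algebraMap k⟦X⟧ K X) (hw : ww P = algebraMap k⟦X⟧ K U) (n : ℕ) : Ch (n • P) ∧
      tt (n • P) = algebraMap k⟦X⟧ K (TW a b U n).1 ∧ ww (n • P) = algebraMap k⟦X⟧ K (TW a b U n).2 := by
  have h2K : (2 : K) ≠ 0 := by
    have h3 : (2 : K) = ((algebraMap k⟦X⟧ K).comp (C (R := k))) 2 := by rw [map_ofNat]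
    rw [h3]
    exact (map_ne_zero _).2 h2
  induction n with
  | zero =>
    rw [zero_nsmul]
    refine ⟨Or.inl rfl, ?_, ?_⟩
    · show (0 : K) = algebraMap k⟦X⟧ K 0
      rw [map_zero]
    · show (0 : K)⁻¹ = algebraMap k⟦X⟧ K 0
      rw [map_zero, inv_zero]
  | succ n ih =>
    obtain ⟨ic, it, iw⟩ := ih
    obtain ⟨u1, u2⟩ := b2_unit h n
    have hm := map_add' (algebraMap k⟦X⟧ K) u1 u2
    have hl := map_lam (algebraMap k⟦X⟧ K) u1
    have e1 : d1 (algebraMap k⟦X⟧ K (C a)) (algebraMap k⟦X⟧ K (C b)) (tt (n • P)) (ww (n • P)) (tt P) (ww P) ≠ 0 := by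
      rw [it, iw, ht, hw]
      have h3 := f9_ne (K := K) u1.ne_zero
      have h4 : algebraMap k⟦X⟧ K (d1 (C a) (C b) (TW a b U n).1 (TW a b U n).2 X U) =
          d1 (algebraMap k⟦X⟧ K (C a)) (algebraMap k⟦X⟧ K (C b)) (algebraMap k⟦X⟧ K (TW a b U n).1)
            (algebraMap k⟦X⟧ K (TW a b U n).2) (algebraMap k⟦X⟧ K X) (algebraMap k⟦X⟧ K U) := by
        unfold d1
        simp only [map_add, map_sub, map_mul, map_pow, map_one]
      rw [← h4]
      exact h3
    have e2 : d2 (algebraMap k⟦X⟧ K (C a)) (algebraMap k⟦X⟧ K (C b)) (tt (n • P)) (ww (n • P)) (tt P) (ww P) ≠ 0 := by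
      rw [it, iw, ht, hw]
      have h3 := f9_ne (K := K) u2.ne_zero
      have h4 : algebraMap k⟦X⟧ K (d2 (C a) (C b) (TW a b U n).1 (TW a b U n).2 X U) =
          d2 (algebraMap k⟦X⟧ K (C a)) (algebraMap k⟦X⟧ K (C b)) (algebraMap k⟦X⟧ K (TW a b U n).1)
            (algebraMap k⟦X⟧ K (TW a b U n).2) (algebraMap k⟦X⟧ K X) (algebraMap k⟦X⟧ K U) := by
        unfold d2
        rw [← hl]
        simp only [map_add, map_mul, map_pow, map_one]
      rw [← h4]
      exact h3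
    obtain ⟨r1, r2, r3⟩ := add_tw h2K ic c e1 e2
    rw [succ_nsmul]
    refine ⟨r1, ?_, ?_⟩
    · rw [r2, it, iw, ht, hw]
      exact hm.1.symm
    · rw [r3, it, iw, ht, hw]
      exact hm.2.symm

/-- Chunk F9 (S/M). A nonzero polynomial over k does not vanish at x(P) = X/U, U = X^3 (unit). PROOF. Multiply f(X/U) = 0 by U^d, d = degree f, leading coefficient c: sum of c_i X^i U^(d-i) = 0 in k⟦X⟧, X^i U^(d-i) is divisible by X^(3d - 2i), so modulo X^(d+1): c_d X^d = 0 (all other terms have 3d - 2i ≥ d + 2). -/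
theorem gen_tr {U U' : k⟦X⟧} (h : U = X ^ 3 * U') (h' : constantCoeff U' = 1) {f : Polynomial k} (hf : f ≠ 0) :
    (f.map ((algebraMap k⟦X⟧ K).comp (C (R := k)))).eval (algebraMap k⟦X⟧ K X / algebraMap k⟦X⟧ K U) ≠ 0 := by
  have hu : algebraMap k⟦X⟧ K U ≠ 0 := f9_ne (f9_Une h h')
  intro h0
  rw [Polynomial.eval_map, Polynomial.eval₂_eq_sum_range] at h0
  set φ := algebraMap k⟦X⟧ K with hφ
  set d := f.natDegree with hd
  have h1 : φ (∑ i ∈ Finset.range (d + 1), C (f.coeff i) * X ^ i * U ^ (d - i)) = 0 := by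
    have h2 : φ (∑ i ∈ Finset.range (d + 1), C (f.coeff i) * X ^ i * U ^ (d - i)) =
        (∑ i ∈ Finset.range (d + 1), (φ.comp (C (R := k))) (f.coeff i) * (φ X / φ U) ^ i) * φ U ^ d := by
      rw [map_sum, Finset.sum_mul]
      refine Finset.sum_congr rfl fun i hi => ?_
      have hid : i ≤ d := Nat.lt_succ_iff.1 (Finset.mem_range.1 hi)
      rw [map_mul, map_mul, map_pow, map_pow, RingHom.comp_apply, div_pow]
      have h3 : φ U ^ d = φ U ^ i * φ U ^ (d - i) := by
        rw [← pow_add, Nat.add_sub_cancel' hid]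
      rw [h3]
      have h4 : φ U ^ i ≠ 0 := pow_ne_zero _ hu
      field_simp
    rw [h2, h0, zero_mul]
  have h2 : (∑ i ∈ Finset.range (d + 1), C (f.coeff i) * X ^ i * U ^ (d - i) : k⟦X⟧) = 0 := by
    apply IsFractionRing.injective k⟦X⟧ K
    rw [map_zero]
    exact h1
  have h3 := congrArg (coeff d) h2
  rw [map_sum, map_zero, Finset.sum_range_succ, Finset.sum_eq_zero, zero_add, Nat.sub_self,
    pow_zero, mul_one, coeff_C_mul, coeff_X_pow, if_pos rfl, mul_one] at h3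
  · exact hf (Polynomial.leadingCoeff_eq_zero.1 h3)
  · intro i hi
    have hid := Finset.mem_range.1 hi
    have hdvd : (X : k⟦X⟧) ^ (d + 1) ∣ C (f.coeff i) * X ^ i * U ^ (d - i) := by
      rw [h, mul_pow, ← pow_mul, ← mul_assoc, mul_assoc (C (f.coeff i)), ← pow_add]
      refine Dvd.dvd.mul_right (Dvd.dvd.mul_left (pow_dvd_pow _ ?_) _) _
      omega
    exact (X_pow_dvd_iff.1 hdvd) d (by omega)

end H16S
end

-- from Lib.H16S.F10
section

/-! # H16S, chunk F10 (M): the p-th series is -X^(p^2) -/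

open WeierstrassCurve

namespace H16S

open H35P (WAB Ker tt)
open H55K (xc yc)

/-- Chunk F10 (M). Input: the polynomial identities of F8 over a field k. PROOF. K = FractionRing k⟦X⟧, P = gen_pt, W = the curve over K, x = xc P = X/U, y = yc P = 1/U, y² = x³ + a x + b. (1) i P ≠ 0 for 0 < i ≤ p + 2: otherwise take i minimal, i ≥ 2, psi_zero: ΨSq_i(x) = 0, but ΨSq_i over k is not the zero polynomial: its coefficient of degree i² - 1 is i² ≠ 0 if p does
not divide i (coeff_ΨSq), and ΨSq_p = 1: gen_tr (ΨSq over K is the image: map_ΨSq, WR_map). (2) xc_mul (n = p): xc (pP) = x^(p²). yc_mul: yc (pP) ψ³ = y N(x) = - y (y²)^((p²-1)/2) ψ³, ψ = preΨ_p(x), ψ² = 1: yc (pP) = - y^(p²). So tt (pP) = - (x/y)^(p²) = -X^(p²) in K, and gen_mul; the map k⟦X⟧ → K is injective. -/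
theorem f10 {k : Type} [Field k] {p : ℕ} (hp : p.Prime) (h5 : 5 ≤ p) (hchar : (p : k) = 0) {a b : k} (hΔ : (WR a b).Δ ≠ 0)
    (h1 : (WR a b).ΨSq p = 1) (h2 : (WR a b).Φ p = Polynomial.X ^ (p ^ 2)) (h3 : (WR a b).preΨ p ^ 2 = 1)
    (h4 : (WR a b).preΨ (p + 2) * (WR a b).preΨ (p - 1) ^ 2 - (WR a b).preΨ (p - 2) * (WR a b).preΨ (p + 1) ^ 2 =
      -((Polynomial.X ^ 3 + Polynomial.C a * Polynomial.X + Polynomial.C b) ^ ((p ^ 2 - 1) / 2) * (WR a b).preΨ p ^ 3))
    {U : PowerSeries k} (hU : IsW a b U) : (TW a b U p).1 = -(PowerSeries.X ^ (p ^ 2)) := by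
  classical
  let K := FractionRing (PowerSeries k)
  let φ : k →+* K := (algebraMap (PowerSeries k) K).comp (PowerSeries.C (R := k))
  have hodd : Odd p := hp.odd_of_ne_two (by omega)
  have two0 : (2 : k) ≠ 0 := by
    intro h
    obtain ⟨m, hm⟩ := hodd
    rw [hm] at hchar
    push_cast at hchar
    rw [h, zero_mul, zero_add] at hchar
    exact one_ne_zero hchar
  have h2K : (2 : K) ≠ 0 := by
    have h6 : φ 2 = (2 : K) := map_ofNat φ 2
    rw [← h6]
    exact (map_ne_zero φ).2 two0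
  obtain ⟨P, hP0, hc, ht, hw⟩ := gen_pt (K := K) hU hΔ
  obtain ⟨U', hU', hU1⟩ := W_cube hU
  have hy : yc P ≠ 0 := hc.resolve_left hP0
  have hx : xc P = algebraMap (PowerSeries k) K PowerSeries.X / algebraMap (PowerSeries k) K U := by
    rw [← ht, ← hw, H55K.tt_eq]
    unfold ww
    rw [div_inv_eq_mul, div_mul_cancel₀ _ hy]
  have hmap : WR (algebraMap (PowerSeries k) K (PowerSeries.C a)) (algebraMap (PowerSeries k) K (PowerSeries.C b)) =
      (WR a b).map φ := (WR_map φ a b).symm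
  have hPsi : ∀ n : ℤ, (WR (algebraMap (PowerSeries k) K (PowerSeries.C a)) (algebraMap (PowerSeries k) K (PowerSeries.C b))).ΨSq n =
      ((WR a b).ΨSq n).map φ := by
    intro n
    rw [hmap, WeierstrassCurve.map_ΨSq]
  have hPhi : ∀ n : ℤ, (WR (algebraMap (PowerSeries k) K (PowerSeries.C a)) (algebraMap (PowerSeries k) K (PowerSeries.C b))).Φ n =
      ((WR a b).Φ n).map φ := by
    intro n
    rw [hmap, WeierstrassCurve.map_Φ]
  have hpre : ∀ n : ℤ, (WR (algebraMap (PowerSeries k) K (PowerSeries.C a)) (algebraMap (PowerSeries k) K (PowerSeries.C b))).preΨ n =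
      ((WR a b).preΨ n).map φ := by
    intro n
    rw [hmap, WeierstrassCurve.map_preΨ]
  have hne : ∀ j : ℕ, 0 < j → j ≤ p + 2 → j • P ≠ 0 := by
    intro j
    induction j using Nat.strong_induction_on with
    | _ j ih =>
      intro hj0 hj h0
      have hj1 : j ≠ 1 := by
        rintro rfl
        rw [one_nsmul] at h0
        exact hP0 h0
      have h5' := psi_zero h2K hP0 j (by omega) (fun i hi0 hi => ih i hi hi0 (by omega)) h0
      rw [hPsi, hx] at h5'
      refine gen_tr hU' hU1 (f := (WR a b).ΨSq j) ?_ h5'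
      intro h6
      by_cases hjp : j = p
      · rw [hjp, h1] at h6
        exact one_ne_zero h6
      · have h7 := WeierstrassCurve.coeff_ΨSq (W := WR a b) (j : ℤ)
        rw [h6, Polynomial.coeff_zero] at h7
        have h8 : (j : k) = 0 := by
          have h9 : ((j : ℤ) : k) ^ 2 = 0 := h7.symm
          have h10 := pow_eq_zero_iff (two_ne_zero) |>.1 h9
          rwa [Int.cast_natCast] at h10
        have h9 : CharP k p := (CharP.charP_iff_prime_eq_zero hp).2 hchar
        have h10 := (CharP.cast_eq_zero_iff k p j).1 h8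
        obtain ⟨m, hm⟩ := h10
        have hm2 : m < 2 := by
          by_contra hc2
          have : p * 2 ≤ p * m := Nat.mul_le_mul_left p (not_lt.1 hc2)
          omega
        interval_cases m
        · omega
        · omega
  have hxc := xc_mul h2K (P := P) p hp.pos (fun j hj hj' => hne j hj (by omega))
  rw [hPsi, h1, hPhi, h2, Polynomial.map_one, Polynomial.eval_one, mul_one, Polynomial.map_pow, Polynomial.map_X,
    Polynomial.eval_pow, Polynomial.eval_X] at hxc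
  have hyc := yc_mul h2K (P := P) p (by omega) hodd hne
  have hψ : (((WR a b).preΨ p).map φ).eval (xc P) ^ 2 = 1 := by
    rw [← Polynomial.eval_pow, ← Polynomial.map_pow, h3, Polynomial.map_one, Polynomial.eval_one]
  have hψ0 : (((WR a b).preΨ p).map φ).eval (xc P) ^ 3 ≠ 0 := by
    refine pow_ne_zero 3 ?_
    intro h0
    rw [h0] at hψ
    norm_num at hψ
  have h4' := congrArg (fun f => (f.map φ).eval (xc P)) h4
  simp only [Polynomial.map_sub, Polynomial.map_mul, Polynomial.map_pow, Polynomial.map_neg, Polynomial.map_add, Polynomial.map_C,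
    Polynomial.map_X, Polynomial.eval_sub, Polynomial.eval_mul, Polynomial.eval_pow, Polynomial.eval_neg, Polynomial.eval_add,
    Polynomial.eval_C, Polynomial.eval_X] at h4'
  rw [hpre, hpre, hpre, hpre, hpre, h4'] at hyc
  have hE := H55K.eqn hP0
  have hE' : xc P ^ 3 + φ a * xc P + φ b = yc P ^ 2 := hE.symm
  rw [hE', ← pow_mul] at hyc
  have hpar : 2 * ((p ^ 2 - 1) / 2) = p ^ 2 - 1 := by
    obtain ⟨m, hm⟩ := hodd
    have h6 : p ^ 2 - 1 = 2 * (2 * m ^ 2 + 2 * m) := by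
      rw [hm]
      have : (2 * m + 1) ^ 2 = 2 * (2 * m ^ 2 + 2 * m) + 1 := by ring
      omega
    rw [h6]
    omega
  have hyp : yc (p • P) = -(yc P ^ (p ^ 2)) := by
    have h6 : yc (p • P) * (((WR a b).preΨ p).map φ).eval (xc P) ^ 3 =
        -(yc P ^ (p ^ 2)) * (((WR a b).preΨ p).map φ).eval (xc P) ^ 3 := by
      rw [hyc, hpar]
      have h7 : yc P ^ (p ^ 2) = yc P * yc P ^ (p ^ 2 - 1) := by
        rw [← pow_succ']
        congr 1
        have : 0 < p ^ 2 := pow_pos hp.pos 2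
        omega
      rw [h7]
      ring
    exact mul_right_cancel₀ hψ0 h6
  have hgm := (gen_mul two0 hU hc ht hw p).2.1
  have hinj : Function.Injective (algebraMap (PowerSeries k) K) := IsFractionRing.injective _ _
  apply hinj
  rw [← hgm, H55K.tt_eq, hxc.2, hyp, map_neg, map_pow, ← ht, H55K.tt_eq, div_pow, div_neg]

end H16S
end

-- from Lib.H16S.F11
section

/-! # H16S, chunk F11 (M): the series f of multiplication by -p -/

open NumberField IsDedekindDomain WeierstrassCurve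

namespace H16S

open H55P (IQ Pt ac Inert Dec Nm)
open H35P (WAB Ker tt)
open H55K

variable {F : Type} [Field F] [NumberField F] [IQ F] {A B : F} {Om : ℂ} {Ω : Type} [Field Ω] [DecidableEq Ω]
  [Algebra F Ω] {j : Ω →+* ℂ} {act : 𝓞 F →+* AddMonoid.End (Pt (WAB A B) Ω)} {V : ValuationSubring Ω}

omit [NumberField F] [IQ F] [DecidableEq Ω] in
theorem f11_nat (n : ℕ) : ak Ω (n : 𝓞 F) = (n : Ω) := by
  unfold ak
  simp

omit [NumberField F] [IQ F] [DecidableEq Ω] in
theorem f11_mul (a b : 𝓞 F) : ak Ω (a * b) = ak Ω a * ak Ω b := by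
  unfold ak
  simp

omit [NumberField F] [IQ F] [DecidableEq Ω] in
theorem f11_pow (a : 𝓞 F) (n : ℕ) : ak Ω (a ^ n) = ak Ω a ^ n := by
  unfold ak
  simp

/-- Chunk F11a (S/M). An element of F of value < 1 at V above the inert prime p has value at most V p. PROOF. x = a/b with a, b in 𝓞 F; V b can be made 1: p is a prime element; V(c) = 1 for integers c not divisible by p (qv_unit or g7a_unit with β = p), V(p^k c) = V(p)^k. So V x = V(p)^k with k in ℤ (x = p^k c/d, c, d not divisible by p), and V x < 1 gives k ≥ 1. -/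
theorem val_F {p : ℕ} (hβ : Prime (p : 𝓞 F)) (hv : V.valuation (p : Ω) < 1) (x : F)
    (hx : V.valuation (algebraMap F Ω x) < 1) : V.valuation (algebraMap F Ω x) ≤ V.valuation (p : Ω) := by
  by_cases hx0 : x = 0
  · rw [hx0, map_zero, map_zero]
    exact zero_le
  have hp0 : V.valuation (p : Ω) ≠ 0 := by
    rw [Ne, map_eq_zero]
    intro h
    apply hβ.ne_zero
    have h1 : ((p : ℕ) : Ω) = algebraMap F Ω ((p : ℕ) : F) := (map_natCast _ _).symm
    rw [h1, map_eq_zero] at h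
    exact_mod_cast h
  have key : ∀ c : 𝓞 F, c ≠ 0 → ∃ i : ℕ, V.valuation (ak Ω c) = V.valuation (p : Ω) ^ i := by
    intro c hc
    obtain ⟨c', hcc, hc'⟩ := (FiniteMultiplicity.of_prime_left hβ hc).exists_eq_pow_mul_and_not_dvd
    refine ⟨multiplicity (p : 𝓞 F) c, ?_⟩
    have h1 := g7a_unit hβ (V := V) (by
      rw [f11_nat]
      exact hv) hc'
    have h2 := congrArg (fun z => V.valuation (ak Ω z)) hcc
    rw [h2, f11_mul, f11_pow, map_mul, map_pow, h1, mul_one, f11_nat]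
  obtain ⟨a, b, hb, hab⟩ := IsFractionRing.div_surjective (A := 𝓞 F) x
  have hb0 : b ≠ 0 := nonZeroDivisors.ne_zero hb
  have ha0 : a ≠ 0 := by
    rintro rfl
    rw [map_zero, zero_div] at hab
    exact hx0 hab.symm
  obtain ⟨i, hi⟩ := key a ha0
  obtain ⟨k, hk⟩ := key b hb0
  have e : V.valuation (algebraMap F Ω x) = V.valuation (p : Ω) ^ i / V.valuation (p : Ω) ^ k := by
    rw [← hab, map_div₀, map_div₀, ← hi, ← hk]
  rw [e] at hx ⊢
  rcases Nat.lt_or_ge k i with hki | hki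
  · obtain ⟨d, rfl⟩ := Nat.exists_eq_add_of_lt hki
    rw [show k + d + 1 = k + (d + 1) by ring, pow_add, mul_div_cancel_left₀ _ (pow_ne_zero _ hp0)]
    rw [pow_succ]
    exact mul_le_of_le_one_left' (pow_le_one' hv.le _)
  · exfalso
    obtain ⟨d, rfl⟩ := Nat.exists_eq_add_of_le hki
    rw [pow_add, div_mul_eq_div_div, div_self (pow_ne_zero _ hp0)] at hx
    have h1 : V.valuation (p : Ω) ^ d ≤ 1 := pow_le_one' hv.le _
    have h2 : (1 : V.ValueGroup) ≤ 1 / V.valuation (p : Ω) ^ d := by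
      rw [le_div_iff₀ (zero_lt_iff.2 (pow_ne_zero _ hp0)), one_mul]
      exact h1
    exact absurd hx (not_lt.2 h2)

/-- Chunk F11b (M). The series T_p over F (U the series W over F for A, B). Its coefficients are integral at V, the linear coefficient is p, and modulo p it is -X^(p²). PROOF. A, B lie in R = V.comap (algebraMap F Ω) (a valuation ring of F): U_R, T over R, TW_map and W_map, W_unique for R → F and for R → residue field k of V. TW_one. f8, f10 over k: T_p = -X^(p²) in k⟦X⟧: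
the coefficients of T_p (plus 1 for n = p²) have value < 1, val_F. Δ of WR a b is not 0 in k: GV.disc (Δ = -16 (4 a³ + 27 b²), V 2 = 1). (p : k) = 0. -/
theorem f11 [IsAlgClosure F Ω] (h : CMA F A B Om j act) {p : ℕ} (hp : p.Prime) (h5 : 5 ≤ p) (hβ : Prime (p : 𝓞 F))
    (hS : Sup act p) (hV : GV A B V) (hv : V.valuation (p : Ω) < 1) {U : PowerSeries F} (hU : IsW A B U) :
    (∀ n, V.valuation (algebraMap F Ω (PowerSeries.coeff n U)) ≤ 1) ∧
    PowerSeries.coeff 0 (TW A B U p).1 = 0 ∧ PowerSeries.coeff 1 (TW A B U p).1 = p ∧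
    (∀ n, n ≠ p ^ 2 → V.valuation (algebraMap F Ω (PowerSeries.coeff n (TW A B U p).1)) ≤ V.valuation (p : Ω)) ∧
    V.valuation (algebraMap F Ω (PowerSeries.coeff (p ^ 2) (TW A B U p).1 + 1)) ≤ V.valuation (p : Ω) := by
  classical
  let R : ValuationSubring F := V.comap (algebraMap F Ω)
  have hR : ∀ x : F, x ∈ R ↔ algebraMap F Ω x ∈ V := fun x => Iff.rfl
  let A' : R := ⟨A, hV.a⟩
  let B' : R := ⟨B, hV.b⟩
  obtain ⟨U', hU'⟩ := exists_W (a := A') (b := B')
  let ι : R →+* F := R.subtype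
  have hUU : U = PowerSeries.map ι U' := W_unique hU (W_map hU' ι)
  have hTW : TW A B U p = (PowerSeries.map ι (TW A' B' U' p).1, PowerSeries.map ι (TW A' B' U' p).2) := by
    rw [hUU]
    exact TW_map hU' ι p
  -- the map to the residue field
  let κ : R →+* V := RingHom.codRestrict ((algebraMap F Ω).comp ι) V.toSubring (fun x => x.2)
  have hκ : ∀ x : R, ((κ x : V) : Ω) = algebraMap F Ω (x : F) := fun x => rfl
  let ρ : R →+* IsLocalRing.ResidueField V := (IsLocalRing.residue V).comp κ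
  let a := ρ A'
  let b := ρ B'
  have f8' := f8 h hp h5 hβ hS hV hv a b rfl rfl
  have hres : ∀ x : V, IsLocalRing.residue V x = 0 ↔ V.valuation (x : Ω) < 1 := by
    intro x
    rw [IsLocalRing.residue_eq_zero_iff, ValuationSubring.valuation_lt_one_iff]
  have hchar : ((p : ℕ) : IsLocalRing.ResidueField V) = 0 := by
    rw [← map_natCast (IsLocalRing.residue V), hres]
    exact hv
  have hΔ : (WR a b).Δ ≠ 0 := by
    have e : (WR a b).Δ = -(IsLocalRing.residue V 2) ^ 4 * IsLocalRing.residue V (κ (4 * A' ^ 3 + 27 * B' ^ 2)) := by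
      have e1 : IsLocalRing.residue V (κ (4 * A' ^ 3 + 27 * B' ^ 2)) = 4 * a ^ 3 + 27 * b ^ 2 := by
        show ρ (4 * A' ^ 3 + 27 * B' ^ 2) = _
        simp only [map_add, map_mul, map_pow, map_ofNat]
        rfl
      rw [e1]
      simp only [WR, WeierstrassCurve.Δ, WeierstrassCurve.b₂, WeierstrassCurve.b₄, WeierstrassCurve.b₆,
        WeierstrassCurve.b₈, map_ofNat]
      ring
    rw [e]
    refine mul_ne_zero (neg_ne_zero.2 (pow_ne_zero _ ?_)) ?_
    · rw [Ne, hres]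
      exact not_lt.2 hV.two.ge
    · rw [Ne, hres, hκ]
      have := hV.disc
      refine not_lt.2 (le_of_eq ?_)
      rw [← this]
      rfl
  have hW : IsW a b (PowerSeries.map ρ U') := W_map hU' ρ
  have f10' := f10 hp h5 hchar hΔ f8'.1 f8'.2.1 f8'.2.2.1 f8'.2.2.2 hW
  have hTρ : TW a b (PowerSeries.map ρ U') p =
      (PowerSeries.map ρ (TW A' B' U' p).1, PowerSeries.map ρ (TW A' B' U' p).2) := TW_map hU' ρ p
  have hc : ∀ n, ρ (PowerSeries.coeff n (TW A' B' U' p).1) =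
      PowerSeries.coeff n (-(PowerSeries.X ^ (p ^ 2)) : PowerSeries (IsLocalRing.ResidueField V)) := by
    intro n
    rw [← f10', hTρ, PowerSeries.coeff_map]
  have hcF : ∀ n, PowerSeries.coeff n (TW A B U p).1 = ((PowerSeries.coeff n (TW A' B' U' p).1 : R) : F) := by
    intro n
    rw [hTW, PowerSeries.coeff_map]
    rfl
  refine ⟨?_, ?_, (TW_one hU p).1, ?_, ?_⟩
  · intro n
    rw [hUU, PowerSeries.coeff_map, ValuationSubring.valuation_le_one_iff]
    exact (PowerSeries.coeff n U').2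
  · rw [PowerSeries.coeff_zero_eq_constantCoeff_apply]
    exact (TW_const hU p).1
  · intro n hn
    refine val_F hβ hv _ ?_
    have h1 := hc n
    rw [map_neg, PowerSeries.coeff_X_pow, if_neg hn, neg_zero] at h1
    have h2 := (hres _).1 h1
    rw [hκ, ← hcF] at h2
    exact h2
  · refine val_F hβ hv _ ?_
    have h1 := hc (p ^ 2)
    rw [map_neg, PowerSeries.coeff_X_pow, if_pos rfl] at h1
    have h2 : IsLocalRing.residue V (κ (PowerSeries.coeff (p ^ 2) (TW A' B' U' p).1 + 1)) = 0 := by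
      show ρ (PowerSeries.coeff (p ^ 2) (TW A' B' U' p).1 + 1) = 0
      rw [map_add, map_one, h1]
      ring
    have h3 := (hres _).1 h2
    rw [hκ] at h3
    rw [hcF]
    exact h3

end H16S
end

-- from Lib.H16S.F12
section

/-! # H16S, chunk F12 (M): multiplication by p in the kernel of reduction over a complete field -/

open NumberField IsDedekindDomain WeierstrassCurve

namespace H16S

open H55P (IQ Pt ac Inert Dec Nm)
open H35P (WAB Ker tt)
open H55K

variable {F : Type} [Field F] [NumberField F] [IQ F] {A B : F} {Om : ℂ} {Ω : Type} [Field Ω] [DecidableEq Ω]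
  [Algebra F Ω] {j : Ω →+* ℂ} {act : 𝓞 F →+* AddMonoid.End (Pt (WAB A B) Ω)} {V : ValuationSubring Ω}

/-- Valuations and norms. -/
theorem f12_le {K : Type} [NormedField K] (i : Ω →+* K) (hi : ∀ x, x ∈ V ↔ ‖i x‖ ≤ 1) {x y : Ω}
    (h : V.valuation x ≤ V.valuation y) : ‖i x‖ ≤ ‖i y‖ := by
  by_cases hy : y = 0
  · rw [hy, map_zero, le_zero_iff] at h
    rw [(map_eq_zero _).1 h, map_zero, norm_zero]
    exact norm_nonneg _
  · have h0 : i y ≠ 0 := (map_ne_zero i).2 hy
    have h1 : V.valuation (x / y) ≤ 1 := by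
      rw [map_div₀]
      exact div_le_one_of_le₀ h zero_le
    have h2 := (hi _).1 ((V.valuation_le_one_iff _).1 h1)
    rw [map_div₀, norm_div, div_le_one₀ (norm_pos_iff.2 h0)] at h2
    exact h2

theorem f12_lt {K : Type} [NormedField K] (i : Ω →+* K) (hi : ∀ x, x ∈ V ↔ ‖i x‖ ≤ 1) {x : Ω}
    (h : V.valuation x < 1) : ‖i x‖ < 1 := by
  by_contra hc
  have hc' : 1 ≤ ‖i x‖ := not_lt.1 hc
  have hx : x ≠ 0 := by
    rintro rfl
    rw [map_zero, norm_zero] at hc'
    linarith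
  have h1 : ‖i x⁻¹‖ ≤ 1 := by
    rw [map_inv₀, norm_inv]
    exact inv_le_one_of_one_le₀ hc'
  have h2 := (V.valuation_le_one_iff _).2 ((hi _).2 h1)
  rw [map_inv₀] at h2
  have h3 : V.valuation x ≠ 0 := (map_ne_zero _).2 hx
  have h4 : 1 ≤ V.valuation x := (inv_le_one₀ (zero_lt_iff.2 h3)).1 h2
  exact absurd h (not_lt.2 h4)

/-- Differences of powers. -/
theorem f12_pow {K : Type} [NormedField K] [IsUltrametricDist K] {r : ℝ} (z z' : K) (hz : ‖z‖ ≤ r) (hz' : ‖z'‖ ≤ r) (n : ℕ) :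
    ‖z ^ n - z' ^ n‖ ≤ r ^ (n - 1) * ‖z - z'‖ := by
  have hr : 0 ≤ r := (norm_nonneg z).trans hz
  rw [← geom_sum₂_mul, norm_mul]
  refine mul_le_mul_of_nonneg_right ?_ (norm_nonneg _)
  refine IsUltrametricDist.norm_sum_le_of_forall_le_of_nonneg (pow_nonneg hr _) fun k hk => ?_
  have hk' := Finset.mem_range.1 hk
  rw [norm_mul, norm_pow, norm_pow]
  calc ‖z‖ ^ k * ‖z'‖ ^ (n - 1 - k) ≤ r ^ k * r ^ (n - 1 - k) :=
        mul_le_mul (pow_le_pow_left₀ (norm_nonneg _) hz _) (pow_le_pow_left₀ (norm_nonneg _) hz' _)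
          (pow_nonneg (norm_nonneg _) _) (pow_nonneg hr _)
    _ = r ^ (n - 1) := by
        rw [← pow_add]
        congr 1
        omega

/-- The abstract statement. -/
theorem f12_abs {K : Type} [NormedField K] [IsUltrametricDist K] [CompleteSpace K] {c : ℕ → K} {p : ℕ} (h5 : 5 ≤ p)
    (hp1 : ‖(p : K)‖ < 1) (c0 : c 0 = 0) (c1 : c 1 = p) (cn : ∀ n, n ≠ p ^ 2 → ‖c n‖ ≤ ‖(p : K)‖)
    (cp : ‖c (p ^ 2) + 1‖ ≤ ‖(p : K)‖) :
    (∀ z : K, ‖z‖ < 1 → Summable (fun n => c n * z ^ n) ∧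
      ‖(∑' n, c n * z ^ n) - p * z + z ^ (p ^ 2)‖ ≤ ‖(p : K)‖ * ‖z‖ ^ 2) ∧
    ∀ z z' : K, ‖z‖ ≤ ‖(p : K)‖ → ‖z'‖ ≤ ‖(p : K)‖ →
      ‖((∑' n, c n * z ^ n) - p * z) - ((∑' n, c n * z' ^ n) - p * z')‖ ≤ ‖(p : K)‖ ^ 2 * ‖z - z'‖ := by
  have hp0 : 0 ≤ ‖(p : K)‖ := norm_nonneg _
  have hpp : 25 ≤ p ^ 2 := by nlinarith
  have call : ∀ n, ‖c n‖ ≤ 1 := by
    intro n
    by_cases hn : n = p ^ 2
    · have h1 : c n = (c n + 1) + (-1) := by ring
      rw [h1, hn]
      refine (IsUltrametricDist.norm_add_le_max _ _).trans (max_le (cp.trans hp1.le) ?_)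
      rw [norm_neg, norm_one]
    · exact (cn n hn).trans hp1.le
  have hsum : ∀ z : K, ‖z‖ < 1 → Summable (fun n => c n * z ^ n) := by
    intro z hz
    refine Summable.of_norm ?_
    refine Summable.of_nonneg_of_le (fun n => norm_nonneg _) (fun n => ?_)
      (summable_geometric_of_lt_one (norm_nonneg z) hz)
    rw [norm_mul, norm_pow]
    exact mul_le_of_le_one_left (by positivity) (call _)
  constructor
  · intro z hz
    refine ⟨hsum z hz, ?_⟩
    have h1 := (hsum z hz).hasSum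
    have h2 : HasSum (fun n : ℕ => if n = 1 then (p : K) * z else 0) ((p : K) * z) := hasSum_ite_eq 1 _
    have h3 : HasSum (fun n : ℕ => if n = p ^ 2 then z ^ (p ^ 2) else 0) (z ^ (p ^ 2)) := hasSum_ite_eq (p ^ 2) _
    have h4 := (h1.sub h2).add h3
    rw [← h4.tsum_eq]
    refine IsUltrametricDist.norm_tsum_le_of_forall_le fun n => ?_
    by_cases hn1 : n = 1
    · rw [hn1, if_pos rfl, if_neg (by omega), c1, pow_one, sub_self, add_zero, norm_zero]
      positivity
    rw [if_neg hn1, sub_zero]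
    by_cases hn0 : n = 0
    · rw [hn0, if_neg (by omega), c0, zero_mul, add_zero, norm_zero]
      positivity
    have hzn : ∀ k, 2 ≤ k → ‖z‖ ^ k ≤ ‖z‖ ^ 2 := fun k hk => pow_le_pow_of_le_one (norm_nonneg _) hz.le hk
    by_cases hn : n = p ^ 2
    · rw [if_pos hn, hn]
      have h5 : c (p ^ 2) * z ^ (p ^ 2) + z ^ (p ^ 2) = (c (p ^ 2) + 1) * z ^ (p ^ 2) := by ring
      rw [h5, norm_mul, norm_pow]
      exact mul_le_mul cp (hzn _ (by omega)) (by positivity) hp0
    · rw [if_neg hn, add_zero, norm_mul, norm_pow]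
      exact mul_le_mul (cn n hn) (hzn _ (by omega)) (by positivity) hp0
  · intro z z' hz hz'
    have h1 := (hsum z (lt_of_le_of_lt hz hp1)).hasSum
    have h1' := (hsum z' (lt_of_le_of_lt hz' hp1)).hasSum
    have h2 : ∀ z : K, HasSum (fun n : ℕ => if n = 1 then (p : K) * z else 0) ((p : K) * z) := fun z => hasSum_ite_eq 1 _
    have h4 := (h1.sub (h2 z)).sub (h1'.sub (h2 z'))
    rw [← h4.tsum_eq]
    refine IsUltrametricDist.norm_tsum_le_of_forall_le fun n => ?_
    by_cases hn1 : n = 1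
    · rw [hn1, if_pos rfl, if_pos rfl, c1, pow_one, pow_one, sub_self, sub_self, sub_self, norm_zero]
      positivity
    rw [if_neg hn1, if_neg hn1, sub_zero, sub_zero]
    by_cases hn0 : n = 0
    · rw [hn0, c0, zero_mul, zero_mul, sub_self, norm_zero]
      positivity
    rw [← mul_sub, norm_mul]
    have h5 := f12_pow z z' hz hz' n
    by_cases hn : n = p ^ 2
    · calc ‖c n‖ * ‖z ^ n - z' ^ n‖ ≤ 1 * (‖(p : K)‖ ^ (n - 1) * ‖z - z'‖) :=
            mul_le_mul (call n) h5 (norm_nonneg _) zero_le_one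
        _ = ‖(p : K)‖ ^ (n - 1) * ‖z - z'‖ := one_mul _
        _ ≤ ‖(p : K)‖ ^ 2 * ‖z - z'‖ :=
            mul_le_mul_of_nonneg_right (pow_le_pow_of_le_one hp0 hp1.le (by omega)) (norm_nonneg _)
    · calc ‖c n‖ * ‖z ^ n - z' ^ n‖ ≤ ‖(p : K)‖ * (‖(p : K)‖ ^ (n - 1) * ‖z - z'‖) :=
            mul_le_mul (cn n hn) h5 (norm_nonneg _) hp0
        _ = ‖(p : K)‖ ^ (n - 1 + 1) * ‖z - z'‖ := by ring
        _ ≤ ‖(p : K)‖ ^ 2 * ‖z - z'‖ :=
            mul_le_mul_of_nonneg_right (pow_le_pow_of_le_one hp0 hp1.le (by omega)) (norm_nonneg _)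

/-- Chunk F12a (M). The value of T_p. K complete, i : Ω → K inducing V. For z in K, ‖z‖ < 1, e(z) = the value at z of the series T_p (coefficients mapped by i): ‖e(z) - p z + z^(p²)‖ ≤ ‖p‖ ‖z‖², and for ‖z‖, ‖z'‖ ≤ ‖p‖: ‖(e(z) - p z) - (e(z') - p z')‖ ≤ ‖p‖² ‖z - z'‖. PROOF. f11:
coefficients c_n with ‖c_n‖ ≤ ‖p‖ (n ≠ p²), ‖c_(p²) + 1‖ ≤ ‖p‖, c_0 = 0, c_1 = p. Termwise: e(z) - p z + z^(p²) is the sum over n ≥ 2 of c'_n z^n with ‖c'_n‖ ≤ ‖p‖; z^n - z'^n is divisible by z - z' with quotient of norm ≤ ‖p‖^(n-1), for n ≥ 2 and n ≠ p²: ‖c_n‖ ‖p‖^(n-1) ≤ ‖p‖²; n = p²: ‖p‖^(p²-1) ≤ ‖p‖².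
The series: ev over the ring R = V.comap (algebraMap F Ω) or directly over F with HasSum (the coefficients of T_p are integral: summability by comparison). -/
theorem f12_val [IsAlgClosure F Ω] (h : CMA F A B Om j act) {p : ℕ} (hp : p.Prime) (h5 : 5 ≤ p) (hβ : Prime (p : 𝓞 F))
    (hS : Sup act p) (hV : GV A B V) (hv : V.valuation (p : Ω) < 1) {U : PowerSeries F} (hU : IsW A B U)
    {K : Type} [NormedField K] [IsUltrametricDist K] [CompleteSpace K] (i : Ω →+* K) (hi : ∀ x, x ∈ V ↔ ‖i x‖ ≤ 1) :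
    (∀ z : K, ‖z‖ < 1 → Summable (fun n => i (algebraMap F Ω (PowerSeries.coeff n (TW A B U p).1)) * z ^ n) ∧
      ‖ev (i.comp (algebraMap F Ω)) z (TW A B U p).1 - p * z + z ^ (p ^ 2)‖ ≤ ‖(p : K)‖ * ‖z‖ ^ 2) ∧
    ∀ z z' : K, ‖z‖ ≤ ‖(p : K)‖ → ‖z'‖ ≤ ‖(p : K)‖ →
      ‖(ev (i.comp (algebraMap F Ω)) z (TW A B U p).1 - p * z) -
        (ev (i.comp (algebraMap F Ω)) z' (TW A B U p).1 - p * z')‖ ≤ ‖(p : K)‖ ^ 2 * ‖z - z'‖ := by
  obtain ⟨-, f0, f1, fn, fp⟩ := f11 h hp h5 hβ hS hV hv hU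
  have hip : i (p : Ω) = (p : K) := map_natCast i p
  refine f12_abs (c := fun n => i (algebraMap F Ω (PowerSeries.coeff n (TW A B U p).1))) h5 ?_ ?_ ?_ ?_ ?_
  · rw [← hip]
    exact f12_lt i hi hv
  · show i (algebraMap F Ω (PowerSeries.coeff 0 (TW A B U p).1)) = 0
    rw [f0, map_zero, map_zero]
  · show i (algebraMap F Ω (PowerSeries.coeff 1 (TW A B U p).1)) = p
    rw [f1, map_natCast, map_natCast]
  · intro n hn
    rw [← hip]
    exact f12_le i hi (fn n hn)
  · rw [← hip]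
    have h1 := f12_le i hi fp
    rw [map_add, map_add, map_one, map_one] at h1
    exact h1

/-- Chunk F12b (M). For the points over K: B4 with R = V.comap (algebraMap F Ω) (ValuationSubring F), φ = i restricted: ‖φ r‖ ≤ 1; TW_map, ev_map. The curve over K is WR (i A) (i B). -/
theorem f12_pt [IsAlgClosure F Ω] (hV : GV A B V) {p : ℕ} {U : PowerSeries F} (hU : IsW A B U)
    {K : Type} [NormedField K] [IsUltrametricDist K] [CompleteSpace K] [DecidableEq K] (i : Ω →+* K)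
    (hi : ∀ x, x ∈ V ↔ ‖i x‖ ≤ 1) :
    (∀ P : (WR (i (algebraMap F Ω A)) (i (algebraMap F Ω B))).toAffine.Point, Ker (ball K) P →
      tt (p • P) = ev (i.comp (algebraMap F Ω)) (tt P) (TW A B U p).1) ∧
    ∀ z : K, ‖z‖ < 1 → ∃ P : (WR (i (algebraMap F Ω A)) (i (algebraMap F Ω B))).toAffine.Point, Ker (ball K) P ∧ tt P = z := by
  let R : ValuationSubring F := V.comap (algebraMap F Ω)
  let a0 : R := ⟨A, hV.a⟩
  let b0 : R := ⟨B, hV.b⟩
  let φ : R →+* K := (i.comp (algebraMap F Ω)).comp R.subtype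
  have hφ : ∀ r, ‖φ r‖ ≤ 1 := fun r => (hi _).1 r.2
  obtain ⟨U0, hU0⟩ := exists_W (a := a0) (b := b0)
  have hU1 : IsW A B (PowerSeries.map R.subtype U0) := W_map hU0 R.subtype
  have hUU : U = PowerSeries.map R.subtype U0 := W_unique hU hU1
  have h2 : (2 : K) ≠ 0 := by
    have h3 : (2 : Ω) ≠ 0 := by
      intro h4
      have h5 := hV.two
      rw [h4, map_zero] at h5
      exact zero_ne_one h5
    have h6 : i (2 : Ω) = (2 : K) := map_ofNat i 2
    rw [← h6]
    exact (map_ne_zero i).2 h3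
  have ha : φ a0 = (WR (i (algebraMap F Ω A)) (i (algebraMap F Ω B))).a₄ := rfl
  have hb : φ b0 = (WR (i (algebraMap F Ω A)) (i (algebraMap F Ω B))).a₆ := rfl
  have hΔ : (WR (i (algebraMap F Ω A)) (i (algebraMap F Ω B))).Δ ≠ 0 := by
    have h3 : (WR (i (algebraMap F Ω A)) (i (algebraMap F Ω B))).Δ =
        -(2 : K) ^ 4 * i (algebraMap F Ω (4 * A ^ 3 + 27 * B ^ 2)) := by
      have h4 : i (algebraMap F Ω (4 * A ^ 3 + 27 * B ^ 2)) = 4 * i (algebraMap F Ω A) ^ 3 + 27 * i (algebraMap F Ω B) ^ 2 := by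
        simp only [map_add, map_mul, map_pow, map_ofNat]
      rw [h4]
      simp only [WR, WeierstrassCurve.Δ, WeierstrassCurve.b₂, WeierstrassCurve.b₄, WeierstrassCurve.b₆, WeierstrassCurve.b₈]
      ring
    rw [h3]
    refine mul_ne_zero (neg_ne_zero.2 (pow_ne_zero _ h2)) ((map_ne_zero i).2 ?_)
    intro h4
    have h5 := hV.disc
    rw [h4, map_zero] at h5
    exact zero_ne_one h5
  constructor
  · intro P hP
    have h3 := (tt_nsmul h2 hφ ha hb hU0 hP p).1
    have h4 : (TW A B U p).1 = PowerSeries.map R.subtype (TW a0 b0 U0 p).1 := by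
      have h5 := TW_map hU0 R.subtype p
      have h6 : TW A B U p = (PowerSeries.map R.subtype (TW a0 b0 U0 p).1, PowerSeries.map R.subtype (TW a0 b0 U0 p).2) := by
        rw [hUU]
        exact h5
      rw [h6]
    rw [h3, h4, ev_map]
  · intro z hz
    exact exists_tt hφ ha hb hU0 hΔ hz

end H16S
end

-- from Lib.H16S.F13
section

/-! # H16S, chunk F13 (M): points over Ω and over K; the final statement on [-p] -/

open NumberField IsDedekindDomain WeierstrassCurve

namespace H16S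

open H55P (IQ Pt ac Inert Dec Nm)
open H35P (WAB Ker tt)
open H55K

variable {F : Type} [Field F] [NumberField F] [IQ F] {A B : F} {Om : ℂ} {Ω : Type} [Field Ω] [DecidableEq Ω]
  [Algebra F Ω] {j : Ω →+* ℂ} {act : 𝓞 F →+* AddMonoid.End (Pt (WAB A B) Ω)} {V : ValuationSubring Ω}

/-- Points of equal curves. -/
theorem f13_cast {K : Type} [Field K] [DecidableEq K] {W W' : WeierstrassCurve K} (h : W = W') :
    ∃ e : W.toAffine.Point ≃+ W'.toAffine.Point, ∀ P, xc (e P) = xc P ∧ yc (e P) = yc P ∧ tt (e P) = tt P := by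
  subst h
  exact ⟨AddEquiv.refl _, fun _ => ⟨rfl, rfl, rfl⟩⟩

/-- Chunk F13a (S/M). The map of points induced by i. PROOF. WAB_eq identifies the curve over Ω with WR (algebraMap F Ω A) (algebraMap F Ω B) (for equal curves the groups of points are identified by subst, coordinates preserved); WeierstrassCurve.Affine.Point.map for the
ring homomorphism i (Algebra Ω K by i.toAlgebra, or Algebra F K), WR_map. -/
theorem pt_map {K : Type} [NormedField K] [DecidableEq K] (i : Ω →+* K) :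
    ∃ μ : Pt (WAB A B) Ω →+ (WR (i (algebraMap F Ω A)) (i (algebraMap F Ω B))).toAffine.Point,
      Function.Injective μ ∧ ∀ P, xc (μ P) = i (xc P) ∧ yc (μ P) = i (yc P) ∧ tt (μ P) = i (tt P) := by
  let _ : Algebra F K := (i.comp (algebraMap F Ω)).toAlgebra
  let f : Ω →ₐ[F] K := { i with commutes' := fun _ => rfl }
  have hf : ∀ x, f x = i x := fun _ => rfl
  obtain ⟨e, he⟩ := f13_cast (WAB_eq A B K)
  refine ⟨e.toAddMonoidHom.comp (Affine.Point.map (W' := (WAB A B).toAffine) f), ?_, ?_⟩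
  · intro P Q hPQ
    exact Affine.Point.map_injective f (e.injective hPQ)
  · intro P
    show xc (e (Affine.Point.map (W' := (WAB A B).toAffine) f P)) = _ ∧ yc (e (Affine.Point.map (W' := (WAB A B).toAffine) f P)) = _ ∧
      tt (e (Affine.Point.map (W' := (WAB A B).toAffine) f P)) = _
    rw [(he _).1, (he _).2.1, (he _).2.2]
    cases P with
    | zero =>
      refine ⟨?_, ?_, ?_⟩
      · exact (map_zero i).symm
      · exact (map_zero i).symm
      · exact (map_zero i).symm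
    | some x y h =>
      refine ⟨rfl, rfl, ?_⟩
      exact (map_div₀ i x y).symm

/-- Chunk F13b (S/M). i maps Ker V to Ker (ball K) and conversely. -/
theorem ker_map {K : Type} [NormedField K] [IsUltrametricDist K] [DecidableEq K] (i : Ω →+* K) (hi : ∀ x, x ∈ V ↔ ‖i x‖ ≤ 1)
    {μ : Pt (WAB A B) Ω →+ (WR (i (algebraMap F Ω A)) (i (algebraMap F Ω B))).toAffine.Point} (hμ : Function.Injective μ)
    (h : ∀ P, xc (μ P) = i (xc P)) (P : Pt (WAB A B) Ω) : Ker (ball K) (μ P) ↔ Ker V P := by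
  have key : ∀ x : Ω, 1 < (ball K).valuation (i x) ↔ 1 < V.valuation x := by
    intro x
    rw [← not_le, ← not_le, not_iff_not, ball_le_one, V.valuation_le_one_iff, hi]
  have hP := h P
  rcases hQ : P with _ | ⟨x, y, hxy⟩
  · have h1 : μ (Affine.Point.zero : Pt (WAB A B) Ω) = 0 := map_zero μ
    rw [h1]
    exact ⟨fun _ => trivial, fun _ => trivial⟩
  · rw [hQ] at hP
    rcases hR : μ (Affine.Point.some x y hxy) with _ | ⟨x', y', hxy'⟩
    · exfalso
      have h1 : μ (Affine.Point.some x y hxy) = μ 0 := by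
        rw [hR, map_zero]
        rfl
      have h2 := hμ h1
      exact absurd h2 (by intro h3; cases h3)
    · rw [hR] at hP
      have h1 : x' = i x := hP
      show 1 < (ball K).valuation x' ↔ 1 < V.valuation x
      rw [h1]
      exact key x

/-- Chunk F13c (S/M). The final statement: the series of multiplication by -p. PROOF. f = - T_p (f11), U from exists_W. HasSum: the sum is summable (f12_val) with value ev; f12_pt for μ P: tt (p • μ P) = ev; t(-Q) = - t Q (tt_neg). -/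
theorem FRmain [IsAlgClosure F Ω] (h : CMA F A B Om j act) {p : ℕ} (hp : p.Prime) (h5 : 5 ≤ p) (hβ : Prime (p : 𝓞 F))
    (hS : Sup act p) (hgood : ∀ V : ValuationSubring Ω, V.valuation (p : Ω) < 1 → GV A B V) :
    ∃ f : PowerSeries F, PowerSeries.coeff 0 f = 0 ∧ PowerSeries.coeff 1 f = -(p : F) ∧
      ∀ V : ValuationSubring Ω, V.valuation (p : Ω) < 1 →
        (∀ n, V.valuation (algebraMap F Ω (PowerSeries.coeff n f)) ≤ 1) ∧
        (∀ n, n ≠ p ^ 2 → V.valuation (algebraMap F Ω (PowerSeries.coeff n f)) ≤ V.valuation (p : Ω)) ∧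
        V.valuation (algebraMap F Ω (PowerSeries.coeff (p ^ 2) f - 1)) ≤ V.valuation (p : Ω) ∧
        ∀ (K : Type) [NormedField K] [IsUltrametricDist K] [CompleteSpace K] (i : Ω →+* K), (∀ x, x ∈ V ↔ ‖i x‖ ≤ 1) →
          ∀ P : Pt (WAB A B) Ω, Ker V P →
            HasSum (fun n => i (algebraMap F Ω (PowerSeries.coeff n f)) * i (tt P) ^ n) (i (tt (-(p • P)))) := by
  classical
  obtain ⟨U, hU⟩ := exists_W (a := A) (b := B)
  refine ⟨-(TW A B U p).1, ?_, ?_, ?_⟩
  · rw [map_neg, PowerSeries.coeff_zero_eq_constantCoeff_apply, (TW_const hU p).1, neg_zero]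
  · rw [map_neg, (TW_one hU p).1]
  · intro V hv
    have hV := hgood V hv
    obtain ⟨-, f0, f1, fn, fp⟩ := f11 h hp h5 hβ hS hV hv hU
    have hneg : ∀ n, V.valuation (algebraMap F Ω (PowerSeries.coeff n (-(TW A B U p).1))) =
        V.valuation (algebraMap F Ω (PowerSeries.coeff n (TW A B U p).1)) := by
      intro n
      rw [map_neg, map_neg, Valuation.map_neg]
    have hp2 : V.valuation (algebraMap F Ω (PowerSeries.coeff (p ^ 2) (-(TW A B U p).1) - 1)) ≤ V.valuation (p : Ω) := by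
      have h1 : PowerSeries.coeff (p ^ 2) (-(TW A B U p).1) - 1 = -(PowerSeries.coeff (p ^ 2) (TW A B U p).1 + 1) := by
        rw [map_neg]
        ring
      rw [h1, map_neg, Valuation.map_neg]
      exact fp
    refine ⟨fun n => ?_, fun n hn => ?_, hp2, ?_⟩
    · rw [hneg]
      by_cases hn : n = p ^ 2
      · have h1 : algebraMap F Ω (PowerSeries.coeff n (TW A B U p).1) =
            algebraMap F Ω (PowerSeries.coeff (p ^ 2) (TW A B U p).1 + 1) + (-1) := by
          rw [hn, map_add, map_one]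
          ring
        rw [h1]
        refine (V.valuation.map_add _ _).trans (max_le (fp.trans hv.le) ?_)
        rw [Valuation.map_neg, map_one]
      · exact (fn n hn).trans hv.le
    · rw [hneg]
      exact fn n hn
    · intro K _ _ _ i hi P hP
      obtain ⟨μ, hμ, hc⟩ := pt_map (A := A) (B := B) i
      have hker := (ker_map i hi hμ (fun P => (hc P).1) P).2 hP
      have h1 := (f12_pt (p := p) hV hU i hi).1 (μ P) hker
      have hz : ‖tt (μ P)‖ < 1 := by
        have hI : H35P.IntW (WR (i (algebraMap F Ω A)) (i (algebraMap F Ω B))) (ball K) :=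
          { a1 := zero_mem _, a2 := zero_mem _, a3 := zero_mem _, a4 := (hi _).1 hV.a, a6 := (hi _).1 hV.b }
        obtain ⟨-, ht, -⟩ := ker_tw hI hker
        exact (ball_lt_one _).1 ht
      have h2 := ((f12_val h hp h5 hβ hS hV hv hU i hi).1 _ hz).1.hasSum
      have h3 : (∑' n, i (algebraMap F Ω (PowerSeries.coeff n (TW A B U p).1)) * (tt (μ P)) ^ n) = tt (p • μ P) := h1.symm
      rw [h3, ← map_nsmul, (hc _).2.2, (hc _).2.2] at h2
      have h4 := h2.neg
      have h5' : -i (tt (p • P)) = i (tt (-(p • P))) := by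
        rw [← map_neg, H55K.tt_neg]
      rw [h5'] at h4
      refine h4.congr_fun ?_
      intro n
      rw [map_neg, map_neg, map_neg, neg_mul]

end H16S
end

-- from Lib.H16S.ND
section

/-!
# H16S: the concrete tower (definitions)

V is a valuation ring of Ω above p, i : Ω → C an embedding into an ultrametric field inducing V. OC i is Ω with the norm of C,
Hn V p i n is the field of the elements fixed by the elements of the decomposition group which act trivially on the layer n of the cyclotomic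
Z_p-extension.
-/

open NumberField IsDedekindDomain WeierstrassCurve

namespace H16S

open H55P (IQ Pt ac Inert Dec Nm)
open H35L (Gc Gen dV)

section

variable {Ω C : Type} [Field Ω] [NormedField C]

/-- Ω with the norm of C. -/
def OC (i : Ω →+* C) : Type :=
  let _ := i
  Ω

variable (i : Ω →+* C)

/-- The norm of C on Ω (a local instance in the files which use it, not a global one: as a global instance it makes every search for a field
structure slow). -/
@[reducible] noncomputable def nfOC : NormedField (OC i) := NormedField.induced Ω C i i.injective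

attribute [local instance] nfOC


theorem ultOC [IsUltrametricDist C] : IsUltrametricDist (OC i) :=
  IsUltrametricDist.isUltrametricDist_of_forall_norm_add_le_max_norm fun x y =>
    (le_of_eq (congrArg norm (i.map_add (show Ω from x) (show Ω from y)))).trans
      (IsUltrametricDist.norm_add_le_max (i (show Ω from x)) (i (show Ω from y)))

attribute [local instance] ultOC

/-- The inclusion. -/
def toC : Ω → OC i := fun x => x

theorem toC_norm (x : Ω) : ‖toC i x‖ = ‖i x‖ := rfl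

theorem toC_add (x y : Ω) : toC i (x + y) = toC i x + toC i y := rfl

theorem toC_sub (x y : Ω) : toC i (x - y) = toC i x - toC i y := rfl

theorem toC_mul (x y : Ω) : toC i (x * y) = toC i x * toC i y := rfl

theorem toC_neg (x : Ω) : toC i (-x) = -toC i x := rfl

theorem toC_zero : toC i 0 = 0 := rfl

theorem toC_one : toC i 1 = 1 := rfl

theorem toC_inj {x y : Ω} : toC i x = toC i y ↔ x = y := Iff.rfl

/-- The inclusion as an isomorphism of fields. -/
noncomputable def eC : Ω ≃+* OC i where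
  toFun := toC i
  invFun x := x
  left_inv _ := rfl
  right_inv _ := rfl
  map_mul' _ _ := rfl
  map_add' _ _ := rfl


theorem toC_pow (x : Ω) (n : ℕ) : toC i (x ^ n) = toC i x ^ n := map_pow (eC i) x n

theorem toC_nat (n : ℕ) : toC i (n : Ω) = (n : OC i) := map_natCast (eC i) n

theorem toC_surj (x : OC i) : ∃ y : Ω, toC i y = x := ⟨x, rfl⟩

end

section

variable {F : Type} [Field F] {Ω C : Type} [Field Ω] [Algebra F Ω] [NormedField C]

attribute [local instance] nfOC ultOC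

/-- An automorphism of Ω as an automorphism of OC i. -/
noncomputable def gO (i : Ω →+* C) (γ : Ω ≃ₐ[F] Ω) : RingAut (OC i) := ((eC i).symm.trans γ.toRingEquiv).trans (eC i)

theorem gO_apply (i : Ω →+* C) (γ : Ω ≃ₐ[F] Ω) (x : Ω) : gO i γ (toC i x) = toC i (γ x) := rfl

theorem gO_pow (i : Ω →+* C) (γ : Ω ≃ₐ[F] Ω) (n : ℕ) (x : Ω) : (gO i γ ^ n) (toC i x) = toC i ((γ ^ n) x) := by
  induction n generalizing x with
  | zero => rfl
  | succ n ih =>
    rw [pow_succ, RingAut.mul_apply, gO_apply, ih, pow_succ, AlgEquiv.mul_apply]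

/-- The field of level n. -/
def Hn (V : ValuationSubring Ω) (p : ℕ) (i : Ω →+* C) (F : Type) [Field F] [Algebra F Ω] (n : ℕ) : Subfield (OC i) where
  carrier := {x | ∀ s : Ω ≃ₐ[F] Ω, Dec V s → Gc p n s → gO i s x = x}
  one_mem' := fun s _ _ => map_one _
  mul_mem' := fun {x y} hx hy s h1 h2 => by rw [map_mul, hx s h1 h2, hy s h1 h2]
  zero_mem' := fun s _ _ => map_zero _
  add_mem' := fun {x y} hx hy s h1 h2 => by rw [map_add, hx s h1 h2, hy s h1 h2]
  neg_mem' := fun {x} hx s h1 h2 => by rw [map_neg, hx s h1 h2]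
  inv_mem' := fun x hx s h1 h2 => by rw [map_inv₀, hx s h1 h2]

theorem mem_Hn (V : ValuationSubring Ω) (p : ℕ) (i : Ω →+* C) (n : ℕ) (x : Ω) :
    toC i x ∈ Hn V p i F n ↔ ∀ s : Ω ≃ₐ[F] Ω, Dec V s → Gc p n s → s x = x := Iff.rfl

end

/-- Representatives of the classes modulo p. -/
structure Rp {F : Type} [Field F] (p : ℕ) (ρ : Fin (p ^ 2) → 𝓞 F) : Prop where
  ex : ∀ a : 𝓞 F, ∃ k, (p : 𝓞 F) ∣ a - ρ k
  inj : ∀ k l, (p : 𝓞 F) ∣ ρ k - ρ l → k = l

/-- The setting. -/
structure Ctx (F : Type) [Field F] [NumberField F] (p : ℕ) {Ω C : Type} [Field Ω] [Algebra F Ω] [NormedField C]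
    (V : ValuationSubring Ω) (i : Ω →+* C) : Prop where
  pr : p.Prime
  five : 5 ≤ p
  inert : Prime (p : 𝓞 F)
  above : V.valuation (p : Ω) < 1
  mem : ∀ x : Ω, x ∈ V ↔ ‖i x‖ ≤ 1

end H16S
end

-- from Lib.H16S.N1
section

/-! # H16S, chunk N1 (S/M): norms and the valuation ring -/

open NumberField IsDedekindDomain WeierstrassCurve

namespace H16S

attribute [local instance] H16S.nfOC H16S.ultOC

open H55P (IQ Pt ac Inert Dec Nm)
open H35L (Gc Gen dV)

variable {F : Type} [Field F] [NumberField F] {p : ℕ} {Ω C : Type} [Field Ω] [Algebra F Ω] [NormedField C] [IsUltrametricDist C]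
  {V : ValuationSubring Ω} {i : Ω →+* C}

/-- Chunk N1 (S). As ball_le (Defs.lean): for y ≠ 0, V x ≤ V y iff x/y in V iff ‖i (x/y)‖ ≤ 1. -/
theorem n1_le (h : Ctx F p V i) (x y : Ω) : V.valuation x ≤ V.valuation y ↔ ‖i x‖ ≤ ‖i y‖ := by
  by_cases hy : y = 0
  · rw [hy, map_zero, le_zero_iff, map_zero, norm_zero, norm_le_zero_iff, map_eq_zero, map_eq_zero]
  · have h1 : V.valuation x ≤ V.valuation y ↔ V.valuation (x / y) ≤ 1 := by
      rw [map_div₀, div_le_one₀ (zero_lt_iff.2 ((map_ne_zero _).2 hy))]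
    rw [h1, ValuationSubring.valuation_le_one_iff, h.mem, map_div₀, norm_div,
      div_le_one₀ (norm_pos_iff.2 ((map_ne_zero i).2 hy))]

/-- Chunk N1 (S). -/
theorem n1_lt (h : Ctx F p V i) (x y : Ω) : V.valuation x < V.valuation y ↔ ‖i x‖ < ‖i y‖ := by
  rw [← not_le, n1_le h, not_le]

/-- Chunk N1 (S). -/
theorem n1_lt1 (h : Ctx F p V i) (x : Ω) : V.valuation x < 1 ↔ ‖i x‖ < 1 := by
  have := n1_lt h x 1
  rwa [map_one, map_one, norm_one] at this

/-- Chunk N1 (S). Elements of the decomposition group are isometries: H13X.Dec.val (XG.lean): V (s x) = V x, n1_le twice. -/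
theorem n1_dec [Algebra.IsAlgebraic F Ω] (h : Ctx F p V i) {s : Ω ≃ₐ[F] Ω} (hs : Dec V s) (x : Ω) : ‖i (s x)‖ = ‖i x‖ := by
  have h1 := H13X.Dec.val hs x
  exact le_antisymm ((n1_le h _ _).1 h1.le) ((n1_le h _ _).1 h1.ge)

/-- Chunk N1 (S). 0 < ‖p‖ < 1 (characteristic 0: V ≠ .. p ≠ 0 in Ω because F has characteristic 0). -/
theorem n1_p (h : Ctx F p V i) : ‖i (p : Ω)‖ < 1 ∧ 0 < ‖i (p : Ω)‖ := by
  refine ⟨(n1_lt1 h _).1 h.above, norm_pos_iff.2 ((map_ne_zero i).2 ?_)⟩
  have h0 : (p : F) ≠ 0 := Nat.cast_ne_zero.2 h.pr.ne_zero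
  have h1 : (algebraMap F Ω) (p : F) ≠ 0 := (map_ne_zero _).2 h0
  rwa [map_natCast] at h1

/-- Chunk N1 (S). Integers of F are in V; an integer of F not divisible by p has norm 1. PROOF. They are integral over ℤ, V is integrally closed (H55K.ak_le or H13S.in2_mem). p is a prime element of the Dedekind ring 𝓞 F, so (p) is a maximal ideal: if p does not divide a then 1 = x p + y a; if ‖a‖ < 1 then ‖1‖ < 1. -/
theorem n1_int (h : Ctx F p V i) (a : 𝓞 F) : ‖i (algebraMap F Ω (a : F))‖ ≤ 1 ∧ (¬ (p : 𝓞 F) ∣ a → ‖i (algebraMap F Ω (a : F))‖ = 1) := by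
  have key : ∀ b : 𝓞 F, ‖i (algebraMap F Ω (b : F))‖ ≤ 1 := by
    intro b
    rw [← h.mem]
    have h1 : IsIntegral ℤ (algebraMap F Ω (b : F)) := (RingOfIntegers.isIntegral_coe b).map ((algebraMap F Ω).toIntAlgHom)
    have h3 : IsIntegral V (algebraMap F Ω (b : F)) := h1.tower_top
    obtain ⟨y, hy⟩ := IsIntegrallyClosed.isIntegral_iff.1 h3
    rw [← hy]
    exact y.2
  refine ⟨key a, fun hpa => ?_⟩
  by_contra hne
  have hlt : ‖i (algebraMap F Ω (a : F))‖ < 1 := lt_of_le_of_ne (key a) hne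
  have hmax : (Ideal.span {(p : 𝓞 F)}).IsMaximal :=
    Ideal.IsPrime.isMaximal ((Ideal.span_singleton_prime h.inert.ne_zero).2 h.inert)
      (by rw [Ne, Ideal.span_singleton_eq_bot]; exact h.inert.ne_zero)
  have hna : a ∉ Ideal.span {(p : 𝓞 F)} := fun hm => hpa (Ideal.mem_span_singleton.1 hm)
  obtain ⟨y, m, hm, hym⟩ := hmax.exists_inv hna
  obtain ⟨x, hx⟩ := Ideal.mem_span_singleton'.1 hm
  have e : (y : F) * (a : F) + (x : F) * (p : F) = 1 := by
    rw [← hx] at hym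
    exact_mod_cast congrArg (fun z : 𝓞 F => (z : F)) hym
  have e2 : i (algebraMap F Ω (y : F)) * i (algebraMap F Ω (a : F)) + i (algebraMap F Ω (x : F)) * i (p : Ω) = 1 := by
    have := congrArg (fun z => i (algebraMap F Ω z)) e
    simp only [map_add, map_mul, map_natCast, map_one] at this
    simpa only [map_natCast] using this
  have h1 : ‖(1 : C)‖ < 1 := by
    rw [← e2]
    refine (IsUltrametricDist.norm_add_le_max _ _).trans_lt (max_lt ?_ ?_)
    · rw [norm_mul]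
      exact (mul_le_of_le_one_left (norm_nonneg _) (key y)).trans_lt hlt
    · rw [norm_mul]
      exact (mul_le_of_le_one_left (norm_nonneg _) (key x)).trans_lt (n1_p h).1
  rw [norm_one] at h1
  exact lt_irrefl _ h1

end H16S
end

-- from Lib.H16S.QD
section

/-! # H16S: the kernel of reduction over Ω (definitions) -/

open NumberField IsDedekindDomain WeierstrassCurve

namespace H16S

attribute [local instance] H16S.nfOC H16S.ultOC

open H55P (IQ Pt ac Inert Dec Nm)
open H35P (WAB Ker tt)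
open H55K
open H35L (Gc Gen dV)

variable {F : Type} [Field F] [NumberField F] [IQ F] {A B : F} {Om : ℂ} {Ω : Type} [Field Ω] [DecidableEq Ω]
  [Algebra F Ω] {j : Ω →+* ℂ} {act : 𝓞 F →+* AddMonoid.End (Pt (WAB A B) Ω)} {V : ValuationSubring Ω}
  {C : Type} [NormedField C]

/-- The coordinate with values in the normed field. -/
noncomputable def tG (i : Ω →+* C) (hG : GV A B V) (P : kerG hG) : OC i := toC i (tt P.1)

/-- The points of level n in the kernel of reduction. -/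
def En (hG : GV A B V) (p n : ℕ) : AddSubgroup (kerG hG) where
  carrier := {P | ∀ s : Ω ≃ₐ[F] Ω, Dec V s → Gc p n s → ac (WAB A B) s P.1 = P.1}
  zero_mem' := fun s _ _ => map_zero _
  add_mem' := fun {P Q} hP hQ s h1 h2 => by
    show ac (WAB A B) s (P.1 + Q.1) = P.1 + Q.1
    rw [map_add, hP s h1 h2, hQ s h1 h2]
  neg_mem' := fun {P} hP s h1 h2 => by
    show ac (WAB A B) s (-P.1) = -P.1
    rw [map_neg, hP s h1 h2]

theorem mem_En (hG : GV A B V) (p n : ℕ) (P : kerG hG) :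
    P ∈ En hG p n ↔ ∀ s : Ω ≃ₐ[F] Ω, Dec V s → Gc p n s → ac (WAB A B) s P.1 = P.1 := Iff.rfl

/-- The action of an element of the decomposition group. -/
noncomputable def gG (hG : GV A B V) {γ : Ω ≃ₐ[F] Ω} (hγ : Dec V γ) : AddMonoid.End (kerG hG) :=
  { toFun := fun P => ⟨ac (WAB A B) γ P.1, (ker_ac γ hγ).2 P.2⟩
    map_zero' := Subtype.ext (map_zero _)
    map_add' := fun P Q => Subtype.ext (map_add _ P.1 Q.1) }


/-- The complex multiplication. -/
noncomputable def aG (hA : CMA F A B Om j act) (hG : GV A B V) (a : 𝓞 F) : AddMonoid.End (kerG hG) :=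
  { toFun := fun P => ⟨act a P.1, ker_act hA hG a P.2⟩
    map_zero' := Subtype.ext (map_zero _)
    map_add' := fun P Q => Subtype.ext (map_add _ P.1 Q.1) }


end H16S
end

-- from Lib.H16S.N2
section

/-! # H16S, chunk N2 (M): values of the elements fixed by inertia -/

open NumberField IsDedekindDomain WeierstrassCurve

namespace H16S

attribute [local instance] H16S.nfOC H16S.ultOC

open H55P (IQ Pt ac Inert Dec Nm)
open H35L (Gc Gen dV)

variable {F : Type} [Field F] [NumberField F] {p : ℕ} {Ω C : Type} [Field Ω] [Algebra F Ω] [NormedField C] [IsUltrametricDist C]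
  {V : ValuationSubring Ω} {i : Ω →+* C}

theorem n2_int (h : Ctx F p V i) {a : 𝓞 F} (ha : a ≠ 0) : ∃ k : ℕ, ‖i (algebraMap F Ω (a : F))‖ = ‖i (p : Ω)‖ ^ k := by
  have hf : FiniteMultiplicity (p : 𝓞 F) a := FiniteMultiplicity.of_prime_left h.inert ha
  obtain ⟨c, hc, hpc⟩ := hf.exists_eq_pow_mul_and_not_dvd
  refine ⟨multiplicity (p : 𝓞 F) a, ?_⟩
  have e : (a : F) = (p : F) ^ multiplicity (p : 𝓞 F) a * (c : F) := by
    have := congrArg (fun z : 𝓞 F => (z : F)) hc
    exact_mod_cast this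
  rw [e, map_mul, map_mul, norm_mul, (n1_int h c).2 hpc, mul_one, map_pow, map_pow, norm_pow, map_natCast]

/-- Chunk N2 (S/M). The nonzero elements of F have norms ‖p‖^k. PROOF. x = a/b with a, b in 𝓞 F (IsFractionRing.div_surjective); a nonzero integer is p^m c with c not divisible by p (multiplicity, finite because 𝓞 F is noetherian: WfDvdMonoid.exists_irreducible.. or FiniteMultiplicity, or Nat.find), n1_int. -/
theorem n2_F (h : Ctx F p V i) {x : F} (hx : x ≠ 0) : ∃ k : ℤ, ‖i (algebraMap F Ω x)‖ = ‖i (p : Ω)‖ ^ k := by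
  obtain ⟨a, b, hb, hab⟩ := IsFractionRing.div_surjective (A := 𝓞 F) x
  have hb0 : b ≠ 0 := nonZeroDivisors.ne_zero hb
  have ha0 : a ≠ 0 := by
    intro h0
    apply hx
    rw [← hab, h0, map_zero, zero_div]
  obtain ⟨m, hm⟩ := n2_int h ha0
  obtain ⟨n, hn⟩ := n2_int h hb0
  refine ⟨(m : ℤ) - n, ?_⟩
  have e : x = (a : F) / (b : F) := hab.symm
  have hp0 : ‖i (p : Ω)‖ ≠ 0 := (n1_p h).2.ne'
  rw [e, map_div₀, map_div₀, norm_div, hm, hn, zpow_sub₀ hp0, zpow_natCast, zpow_natCast]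

/-- Chunk N2 (S/M). PROOF. H13S.value_fixed with K = ⊥ (NumberField.of_module_finite F ⊥; every s fixes ⊥): V y = V a with a in ⊥, a ≠ 0, a = algebraMap F Ω b (IntermediateField.mem_bot); n1_le twice, n2_F. -/
theorem n2_val [IsAlgClosure F Ω] (h : Ctx F p V i) {y : Ω} (hy : y ≠ 0) (hI : ∀ s : Ω ≃ₐ[F] Ω, Inert V s → s y = y) :
    ∃ k : ℤ, ‖i y‖ = ‖i (p : Ω)‖ ^ k := by
  haveI : NumberField (⊥ : IntermediateField F Ω) := NumberField.of_module_finite F (⊥ : IntermediateField F Ω)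
  obtain ⟨a, ha0, ha⟩ := H13S.value_fixed (⊥ : IntermediateField F Ω) V y hy (fun s _ hs => hI s hs)
  obtain ⟨b, hb⟩ := IntermediateField.mem_bot.1 a.2
  have hb0 : b ≠ 0 := by
    intro h0
    apply ha0
    apply Subtype.ext
    rw [← hb, h0, map_zero]
    rfl
  obtain ⟨k, hk⟩ := n2_F h hb0
  refine ⟨k, ?_⟩
  rw [← hk, hb]
  exact le_antisymm ((n1_le h _ _).1 ha.le) ((n1_le h _ _).1 ha.ge)

end H16S
end

-- from Lib.H16S.N3
section

/-! # H16S, chunk N3 (M): inertia and the cyclotomic character -/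

open NumberField IsDedekindDomain WeierstrassCurve

namespace H16S

attribute [local instance] H16S.nfOC H16S.ultOC

open H55P (IQ Pt ac Inert Dec Nm)
open H35L (Gc Gen dV)

variable {F : Type} [Field F] [NumberField F] {p : ℕ} {Ω C : Type} [Field Ω] [Algebra F Ω] [NormedField C] [IsUltrametricDist C]
  {V : ValuationSubring Ω} {i : Ω →+* C}

theorem n3_mod {M : Type*} [Monoid M] {z : M} {N a b : ℕ} (hz : z ^ N = 1) (h : a ≡ b [MOD N]) : z ^ a = z ^ b := by
  have h1 : ∀ c, z ^ c = z ^ (c % N) := by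
    intro c
    conv_lhs => rw [← Nat.div_add_mod c N]
    rw [pow_add, pow_mul, hz, one_pow, one_mul]
  have h2 : a % N = b % N := h
  rw [h1 a, h1 b, h2]

theorem n3_unit {M : Type*} [Monoid M] {z : M} {N a : ℕ} (hz : z ^ N = 1) (ha : a.Coprime N) :
    z ^ ((ZMod.unitOfCoprime a ha : (ZMod N)ˣ) : ZMod N).val = z ^ a := by
  apply n3_mod hz
  rw [ZMod.coe_unitOfCoprime, ZMod.val_natCast]
  exact Nat.mod_modEq _ _

/-- Chunk N3 (M). The inertia group acts on the roots of unity of order p^(n+1) through all exponents prime to p. PROOF. z a primitive p^(n+1)-th root of unity in Ω (H35L.c0_prim). U = the set of the units u modulo p^(n+1) such that some s in Inert V has s z = z^u: a subgroup (H13X.lcb_mul, lcb_inv, lcb_one), or only: finite, not empty, and u U = U for u in U.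
y = the product over u in U of 1 - z^u. It is fixed by Inert V: s in Inert V maps z to z^c with c in U (s z is a primitive root: H35L.root_pow), so it permutes the factors; y ≠ 0. By n2_val ‖y‖ = ‖p‖^k. In the field OC i, or in C with the root i z: all factors have norm r with r^(p^n (p-1)) = ‖p‖ (ta_norm for L = C, z := i z: a primitive root because i is injective).
So ‖p‖^(card U) = ‖y‖^(p^n (p-1)) = ‖p‖^(k p^n (p-1)), card U = k p^n (p - 1) with k ≥ 1 (‖p‖ < 1, ‖p‖ ≠ 0: zpow injective), and card U ≤ p^n (p - 1) = the number of units: U is everything. c = the class of c. -/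
theorem n3 [IsAlgClosure F Ω] (h : Ctx F p V i) (n : ℕ) {c : ℕ} (hc : ¬ p ∣ c) :
    ∃ s : Ω ≃ₐ[F] Ω, Inert V s ∧ ∀ z : Ω, z ^ p ^ (n + 1) = 1 → s z = z ^ c := by
  classical
  have hp := h.pr
  have hfact : Fact p.Prime := ⟨hp⟩
  obtain ⟨z, hz⟩ := H35L.c0_prim F Ω hp (n + 1)
  have hN0 : p ^ (n + 1) ≠ 0 := pow_ne_zero _ hp.ne_zero
  have hNZ : NeZero (p ^ (n + 1)) := ⟨hN0⟩
  have hval : ∀ x y : (ZMod (p ^ (n + 1)))ˣ, z ^ ((x * y : (ZMod (p ^ (n + 1)))ˣ) : ZMod (p ^ (n + 1))).val =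
      z ^ ((x : ZMod (p ^ (n + 1))).val * (y : ZMod (p ^ (n + 1))).val) := by
    intro x y
    apply n3_mod hz.pow_eq_one
    rw [Units.val_mul, ZMod.val_mul]
    exact Nat.mod_modEq _ _
  let U : Finset (ZMod (p ^ (n + 1)))ˣ := Finset.univ.filter fun u =>
    ∃ s : Ω ≃ₐ[F] Ω, Inert V s ∧ s z = z ^ (u : ZMod (p ^ (n + 1))).val
  have hUmem : ∀ u, u ∈ U ↔ ∃ s : Ω ≃ₐ[F] Ω, Inert V s ∧ s z = z ^ (u : ZMod (p ^ (n + 1))).val := fun u => by
    simp [U]
  have hUs : ∀ s : Ω ≃ₐ[F] Ω, Inert V s → ∃ u ∈ U, s z = z ^ (u : ZMod (p ^ (n + 1))).val := by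
    intro s hs
    obtain ⟨a, ha, hsa⟩ := H35L.root_pow hp (n + 1) s
    have hcop : a.Coprime (p ^ (n + 1)) := Nat.Coprime.pow_right _ ha
    have h1 : s z = z ^ ((ZMod.unitOfCoprime a hcop : (ZMod (p ^ (n + 1)))ˣ) : ZMod (p ^ (n + 1))).val := by
      rw [n3_unit hz.pow_eq_one hcop]
      exact hsa z hz.pow_eq_one
    exact ⟨_, (hUmem _).2 ⟨s, hs, h1⟩, h1⟩
  have hUmul : ∀ w ∈ U, ∀ u ∈ U, w * u ∈ U := by
    intro w hw u hu
    obtain ⟨s, hs, hsz⟩ := (hUmem w).1 hw
    obtain ⟨t, ht, htz⟩ := (hUmem u).1 hu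
    refine (hUmem _).2 ⟨s * t, H13X.lcb_mul hs ht, ?_⟩
    rw [AlgEquiv.mul_apply, htz, map_pow, hsz, ← pow_mul, hval]
  have hyI : ∀ s : Ω ≃ₐ[F] Ω, Inert V s → s (∏ u ∈ U, (1 - z ^ (u : ZMod (p ^ (n + 1))).val)) =
      ∏ u ∈ U, (1 - z ^ (u : ZMod (p ^ (n + 1))).val) := by
    intro s hs
    obtain ⟨w, hw, hwz⟩ := hUs s hs
    rw [map_prod]
    have hmaps : ∀ u ∈ U, w * u ∈ U := hUmul w hw
    have hinj : Set.InjOn (fun u => w * u) (U : Set (ZMod (p ^ (n + 1)))ˣ) := fun a _ b _ hab => mul_left_cancel hab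
    have hsurj : Set.SurjOn (fun u => w * u) (U : Set (ZMod (p ^ (n + 1)))ˣ) (U : Set (ZMod (p ^ (n + 1)))ˣ) :=
      Finset.surjOn_of_injOn_of_card_le _ hmaps hinj le_rfl
    refine Finset.prod_nbij (fun u => w * u) hmaps hinj hsurj ?_
    intro u _
    rw [map_sub, map_one, map_pow, hwz, ← pow_mul, hval]
  have hzC : IsPrimitiveRoot (i z) (p ^ (n + 1)) := hz.map_of_injective i.injective
  have hpC : ‖i (p : Ω)‖ = ‖(p : C)‖ := by rw [map_natCast]
  have hnorm : ∀ u : (ZMod (p ^ (n + 1)))ˣ,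
      ‖i (1 - z ^ (u : ZMod (p ^ (n + 1))).val)‖ ^ (p ^ n * (p - 1)) = ‖(p : C)‖ := by
    intro u
    rw [map_sub, map_one, map_pow]
    refine ta_norm hzC ?_
    intro hd
    have h1 := ZMod.val_coe_unit_coprime u
    have h2 : p ∣ Nat.gcd (u : ZMod (p ^ (n + 1))).val (p ^ (n + 1)) :=
      Nat.dvd_gcd hd (dvd_pow_self p (Nat.succ_ne_zero n))
    rw [Nat.Coprime.gcd_eq_one h1] at h2
    exact hp.one_lt.ne' (Nat.dvd_one.1 h2)
  have hM : ‖i (∏ u ∈ U, (1 - z ^ (u : ZMod (p ^ (n + 1))).val))‖ ^ (p ^ n * (p - 1)) = ‖(p : C)‖ ^ U.card := by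
    rw [map_prod, norm_prod, ← Finset.prod_pow, Finset.prod_congr rfl fun u _ => hnorm u, Finset.prod_const]
  obtain ⟨hp1, hp0⟩ := n1_p h
  have hMpos : 0 < p ^ n * (p - 1) := Nat.mul_pos (pow_pos hp.pos n) (Nat.sub_pos_of_lt hp.one_lt)
  have hy0 : (∏ u ∈ U, (1 - z ^ (u : ZMod (p ^ (n + 1))).val)) ≠ 0 := by
    intro h0
    rw [h0, map_zero, norm_zero, zero_pow hMpos.ne', ← hpC] at hM
    exact (pow_pos hp0 U.card).ne hM
  obtain ⟨k, hk⟩ := n2_val h hy0 hyI
  have hexp : k * ((p ^ n * (p - 1) : ℕ) : ℤ) = (U.card : ℤ) := by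
    have h1 : ‖i (p : Ω)‖ ^ (k * ((p ^ n * (p - 1) : ℕ) : ℤ)) = ‖i (p : Ω)‖ ^ (U.card : ℤ) := by
      rw [zpow_mul, ← hk, zpow_natCast, hM, zpow_natCast, hpC]
    exact zpow_right_injective₀ hp0 hp1.ne h1
  have hcard1 : 0 < U.card := by
    obtain ⟨u, hu, _⟩ := hUs 1 H13X.lcb_one
    exact Finset.card_pos.2 ⟨u, hu⟩
  have hcardM : p ^ n * (p - 1) ≤ U.card := by
    have hk1 : 0 < k := by
      by_contra hk0
      have h2 : k * ((p ^ n * (p - 1) : ℕ) : ℤ) ≤ 0 :=
        mul_nonpos_of_nonpos_of_nonneg (not_lt.1 hk0) (Int.natCast_nonneg _)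
      rw [hexp] at h2
      have h4 : (0 : ℤ) < U.card := by exact_mod_cast hcard1
      linarith
    have h3 : ((p ^ n * (p - 1) : ℕ) : ℤ) ≤ (U.card : ℤ) := by
      rw [← hexp]
      exact le_mul_of_one_le_left (Int.natCast_nonneg _) hk1
    exact_mod_cast h3
  have hUuniv : U = Finset.univ := by
    refine Finset.eq_univ_of_card U (le_antisymm (Finset.card_le_univ U) ?_)
    rw [ZMod.card_units_eq_totient, Nat.totient_prime_pow_succ hp]
    exact hcardM
  have hcop : c.Coprime (p ^ (n + 1)) := by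
    apply Nat.Coprime.pow_right
    exact ((Nat.Prime.coprime_iff_not_dvd hp).2 hc).symm
  have hw : (ZMod.unitOfCoprime c hcop : (ZMod (p ^ (n + 1)))ˣ) ∈ U := by
    rw [hUuniv]
    exact Finset.mem_univ _
  obtain ⟨s, hs, hsz⟩ := (hUmem _).1 hw
  rw [n3_unit hz.pow_eq_one hcop] at hsz
  refine ⟨s, hs, fun x hx => ?_⟩
  obtain ⟨j, _, rfl⟩ := hz.eq_pow_of_pow_eq_one hx
  rw [map_pow, hsz, ← pow_mul, ← pow_mul, mul_comm]


end H16S
end

-- from Lib.H16S.N4
section

/-! # H16S, chunk N4 (M): Frobenius elements and representatives -/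

open NumberField IsDedekindDomain WeierstrassCurve

namespace H16S

attribute [local instance] H16S.nfOC H16S.ultOC

open H55P (IQ Pt ac Inert Dec Nm)
open H35L (Gc Gen dV)

variable {F : Type} [Field F] [NumberField F] {p : ℕ} {Ω C : Type} [Field Ω] [Algebra F Ω] [NormedField C] [IsUltrametricDist C]
  {V : ValuationSubring Ω} {i : Ω →+* C}

/-- Chunk N4 (S/M). 𝓞 F/(p) has p² elements (Ideal.absNorm_span_natCast or Nm of the natural number p, H55K.Nm_nat; finrank ℚ F = 2 from IQ.deg). -/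
theorem n4_card [IQ F] (hp : p.Prime) : Ideal.absNorm (Ideal.span {(p : 𝓞 F)}) = p ^ 2 ∧ Nat.card (𝓞 F ⧸ Ideal.span {(p : 𝓞 F)}) = p ^ 2 := by
  have h1 : Ideal.absNorm (Ideal.span {(p : 𝓞 F)}) = p ^ 2 := by
    rw [Ideal.absNorm_span_natCast, RingOfIntegers.rank, IQ.deg]
  refine ⟨h1, ?_⟩
  rw [← h1, Ideal.absNorm_apply, Submodule.cardQuot_apply]

/-- Chunk N4 (S/M). Representatives exist: an equivalence of Fin (p^2) with the quotient (n4_card: finite), Quotient.out. -/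
theorem n4_rp [IQ F] (hp : p.Prime) : ∃ ρ : Fin (p ^ 2) → 𝓞 F, Rp p ρ := by
  have hcard := (n4_card (F := F) hp).2
  have hfin : Finite (𝓞 F ⧸ Ideal.span {(p : 𝓞 F)}) :=
    Nat.finite_of_card_ne_zero (by rw [hcard]; exact pow_ne_zero 2 hp.ne_zero)
  let e : (𝓞 F ⧸ Ideal.span {(p : 𝓞 F)}) ≃ Fin (p ^ 2) := Finite.equivFinOfCardEq hcard
  have hsurj := Ideal.Quotient.mk_surjective (I := Ideal.span {(p : 𝓞 F)})
  choose r hr using hsurj
  refine ⟨fun k => r (e.symm k), ⟨fun a => ?_, fun k l hkl => ?_⟩⟩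
  · refine ⟨e (Ideal.Quotient.mk _ a), ?_⟩
    rw [← Ideal.mem_span_singleton, ← Ideal.Quotient.eq, hr, Equiv.symm_apply_apply]
  · rw [← Ideal.mem_span_singleton, ← Ideal.Quotient.eq, hr, hr] at hkl
    exact e.symm.injective hkl

/-- Chunk N4 (M). A Frobenius element which acts trivially on the layer n. PROOF. v = the prime ideal (p) of 𝓞 F (h.inert), Ideal.absNorm = p² (n4_card); H13S.exists_frob: φ₀ in Dec V with V (φ₀ x - x^(p²)) < 1 on V (the elements of (p) have value < 1: multiples of p). φ₀ acts on the roots of unity of order p^(n+1) by a, prime to p (H35L.root_pow); b with a b = 1 modulo p^(n+1); n3: s in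
Inert V acting by b. φ = φ₀ s acts trivially on these roots of unity: Gc p n φ (a = 1). φ x - x^(p²) = φ₀ (s x - x) + (φ₀ x - x^(p²)); H13X.Dec.lt_one, Dec.mul', Inert.dec. -/
theorem n4_frob [IQ F] [IsAlgClosure F Ω] (h : Ctx F p V i) (n : ℕ) :
    ∃ φ : Ω ≃ₐ[F] Ω, Dec V φ ∧ Gc p n φ ∧ ∀ x ∈ V, V.valuation (φ x - x ^ (p ^ 2)) < 1 := by
  have hp := h.pr
  have hne : (p : 𝓞 F) ≠ 0 := h.inert.ne_zero
  let v : HeightOneSpectrum (𝓞 F) :=
    ⟨Ideal.span {(p : 𝓞 F)}, (Ideal.span_singleton_prime hne).2 h.inert, by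
      rw [Ne, Ideal.span_singleton_eq_bot]
      exact hne⟩
  have hv : ∀ a : 𝓞 F, a ∈ v.asIdeal → V.valuation (algebraMap F Ω (a : F)) < 1 := by
    intro a ha
    obtain ⟨b, rfl⟩ := Ideal.mem_span_singleton.1 ha
    rw [n1_lt1 h]
    have e1 : i (algebraMap F Ω (((p : 𝓞 F) * b : 𝓞 F) : F)) = i (p : Ω) * i (algebraMap F Ω (b : F)) := by
      have e0 : (((p : 𝓞 F) * b : 𝓞 F) : F) = (p : F) * (b : F) := by
        push_cast
        rfl
      rw [e0, map_mul, map_natCast, map_mul]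
    rw [e1, norm_mul]
    calc ‖i (p : Ω)‖ * ‖i (algebraMap F Ω (b : F))‖ ≤ ‖i (p : Ω)‖ * 1 :=
          mul_le_mul_of_nonneg_left (n1_int h b).1 (norm_nonneg _)
      _ < 1 := by
          rw [mul_one]
          exact (n1_p h).1
  obtain ⟨φ₀, hd, hf⟩ := H13S.exists_frob v V hv
  have hN : Ideal.absNorm v.asIdeal = p ^ 2 := (n4_card (F := F) hp).1
  rw [hN] at hf
  obtain ⟨a, ha, haz⟩ := H35L.root_pow hp (n + 1) φ₀
  have hcop : a.Coprime (p ^ (n + 1)) := Nat.Coprime.pow_right _ ha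
  have hNZ : NeZero (p ^ (n + 1)) := ⟨pow_ne_zero _ hp.ne_zero⟩
  let w : (ZMod (p ^ (n + 1)))ˣ := (ZMod.unitOfCoprime a hcop)⁻¹
  have hb : ¬ p ∣ (w : ZMod (p ^ (n + 1))).val := by
    intro hdv
    have h1 := ZMod.val_coe_unit_coprime w
    have h2 : p ∣ Nat.gcd (w : ZMod (p ^ (n + 1))).val (p ^ (n + 1)) :=
      Nat.dvd_gcd hdv (dvd_pow_self p (Nat.succ_ne_zero n))
    rw [Nat.Coprime.gcd_eq_one h1] at h2
    exact hp.one_lt.ne' (Nat.dvd_one.1 h2)
  have hab : a * (w : ZMod (p ^ (n + 1))).val ≡ 1 [MOD p ^ (n + 1)] := by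
    rw [← ZMod.natCast_eq_natCast_iff]
    push_cast
    rw [ZMod.natCast_zmod_val]
    have h1 : ((ZMod.unitOfCoprime a hcop : (ZMod (p ^ (n + 1)))ˣ) : ZMod (p ^ (n + 1))) * (w : ZMod (p ^ (n + 1))) = 1 := by
      rw [← Units.val_mul, mul_inv_cancel, Units.val_one]
    rwa [ZMod.coe_unitOfCoprime] at h1
  obtain ⟨s, hs, hsz⟩ := n3 h n hb
  have hsd : Dec V s := H13X.Inert.dec hs
  refine ⟨φ₀ * s, H13X.Dec.mul' hd hsd, ⟨1, by rw [one_pow], fun z hz => ?_⟩, fun x hx => ?_⟩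
  · rw [AlgEquiv.mul_apply, hsz z hz, map_pow, haz z hz, ← pow_mul]
    exact n3_mod hz hab
  · have h1 : V.valuation (φ₀ (s x - x)) < 1 := (H13X.Dec.lt_one hd _).2 (hs x hx)
    have h2 := hf x hx
    have h3 : (φ₀ * s) x - x ^ p ^ 2 = φ₀ (s x - x) + (φ₀ x - x ^ p ^ 2) := by
      rw [AlgEquiv.mul_apply, map_sub]
      ring
    rw [h3]
    exact V.valuation.map_add_lt h1 h2

end H16S
end
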