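import Mathlib
import Pool.Agent.Lib.H1M.PP2.D_H55K_BH
import Pool.Agent.Lib.H1M.PP2.M014
import Pool.Agent.Lib.H1M.PP2.M069
import Pool.Agent.Lib.H1M.PP2.M080
import Pool.Agent.Lib.H1M.PP2.M094
import Pool.Agent.Lib.H1M.PP2.M098
import Pool.Agent.Lib.H1M.PP2.M114
import Pool.Agent.Lib.H1M.PP2.M117

/-! Merged copies (to shorten the build) of Lib.H16S.F1, Lib.H16S.F2, Lib.H16S.F4, Lib.H16S.F5, Lib.H16S.F6, Lib.H16S.S1. -/

-- from Lib.H16S.F1
section

/-! # H16S, chunk F1 (M): port of H55K/G7C (frob_diff) to a prime element whose norm is a power of a prime number -/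

open NumberField IsDedekindDomain WeierstrassCurve

namespace H16S

open H55P (IQ Pt ac Inert Dec Nm)
open H35P (WAB Ker tt)
open H55K

variable {F : Type} [Field F] [NumberField F] [IQ F] {A B : F} {Om : ℂ} {Ω : Type} [Field Ω] [DecidableEq Ω]
  [Algebra F Ω] {j : Ω →+* ℂ} {act : 𝓞 F →+* AddMonoid.End (Pt (WAB A B) Ω)} {V : ValuationSubring Ω}

/-- Chunk F1 (S/M). (x + y)^(l^f) is x^(l^f) + y^(l^f) modulo l: induction on f with H55K.g7c_add ((u)^l with u congruent to v: u^l congruent to v^l). -/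
theorem f1_add {k : Type} [Field k] (V : ValuationSubring k) {l : ℕ} (hl : l.Prime) (hlV : V.valuation (l : k) < 1) (f : ℕ)
    {x y : k} (hx : V.valuation x ≤ 1) (hy : V.valuation y ≤ 1) :
    V.valuation ((x + y) ^ l ^ f - (x ^ l ^ f + y ^ l ^ f)) < 1 := by
  induction f with
  | zero =>
    rw [pow_zero, pow_one, pow_one, pow_one, sub_self, map_zero]
    exact zero_lt_one
  | succ f ih =>
    have p1 : ∀ {z : k}, V.valuation z ≤ 1 → V.valuation (z ^ l ^ f) ≤ 1 := by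
      intro z hz
      rw [map_pow]
      exact pow_le_one' hz _
    have h1 : V.valuation ((x + y) ^ l ^ f) ≤ 1 := p1 ((V.valuation.map_add x y).trans (max_le hx hy))
    have h2 : V.valuation (x ^ l ^ f + y ^ l ^ f) ≤ 1 :=
      (V.valuation.map_add _ _).trans (max_le (p1 hx) (p1 hy))
    have h3 := g7c_prod V (Finset.range l) (fun _ => (x + y) ^ l ^ f) (fun _ => x ^ l ^ f + y ^ l ^ f)
      (fun _ _ => h1) (fun _ _ => h2) (fun _ _ => ih)
    rw [Finset.prod_const, Finset.prod_const, Finset.card_range] at h3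
    have h4 := g7c_add V hl hlV (p1 hx) (p1 hy)
    have e : (x + y) ^ l ^ (f + 1) - (x ^ l ^ (f + 1) + y ^ l ^ (f + 1)) =
        (((x + y) ^ l ^ f) ^ l - (x ^ l ^ f + y ^ l ^ f) ^ l) +
        ((x ^ l ^ f + y ^ l ^ f) ^ l - ((x ^ l ^ f) ^ l + (y ^ l ^ f) ^ l)) := by
      rw [pow_succ l f, pow_mul, pow_mul, pow_mul]
      ring
    rw [e]
    exact V.valuation.map_add_lt h3 h4

/-- Chunk F1 (M). COPY the proof of H55K.frob_diff (Lib/H55K/G7C.lean); the only use of (Nm β).Prime there is g7c_add and Nm β ≠ 0, Odd (Nm β): replace by f1_add and l odd (l ≠ 2: V 2 = 1 by hV.two, V l < 1). -/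
theorem frob_diff2 (h : CMA F A B Om j act) (hV : GV A B V) {β : 𝓞 F} (hβ : Prime β)
    (hv : V.valuation (ak Ω β) < 1) {l f : ℕ} (hl : l.Prime) (hlV : V.valuation (l : Ω) < 1) (hf : 0 < f) (hq : Nm β = l ^ f) :
    ∃ κ : Ω, V.valuation κ = 1 ∧ ∀ X Y : Pt (WAB A B) Ω, ¬ Ker V X → ¬ Ker V Y →
      V.valuation (κ * (xc (act β X) - xc (act β Y)) - (xc X ^ Nm β - xc Y ^ Nm β)) < 1 := by
  classical
  have hβ0 : β ≠ 0 := hβ.ne_zero
  obtain ⟨S, hS, hcard⟩ := exists_TN h hβ0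
  have hl2 : l ≠ 2 := by
    intro h2
    rw [h2, Nat.cast_ofNat, hV.two] at hlV
    exact lt_irrefl _ hlV
  have hodd : Odd (Nm β) := by
    rw [hq]
    exact (hl.odd_of_ne_two hl2).pow
  have hR1 : ∀ R ∈ S, R ≠ 0 ∧ Ker V R ∧ 1 < V.valuation (xc R) := by
    intro R hR
    obtain ⟨h1, h2⟩ := (hS R).1 hR
    have h3 : Ker V R := tor_ker h hV hβ hv h1
    exact ⟨h2, h3, (ker_iff V h2).1 h3⟩
  have hxR : ∀ R ∈ S, xc R ≠ 0 := by
    intro R hR h0
    have := (hR1 R hR).2.2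
    rw [h0, map_zero] at this
    exact absurd this (not_lt.2 zero_le_one)
  have hred : ∀ X : Pt (WAB A B) Ω, ¬ Ker V X → ¬ Ker V (act β X) := fun X hX hX' =>
    hX (ker_red h hV hβ hv hX')
  refine ⟨ak Ω β ^ 2 * ∏ R ∈ S, xc R, ?_, ?_⟩
  · rw [map_mul, map_pow, map_prod]
    exact prod_xR h hV hβ hv hS
  · intro X Y hX hY
    have hκ : V.valuation (ak Ω β ^ 2 * ∏ R ∈ S, xc R) = 1 := by
      rw [map_mul, map_pow, map_prod]
      exact prod_xR h hV hβ hv hS
    obtain ⟨hX0, hX1⟩ := not_ker V hX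
    obtain ⟨hY0, hY1⟩ := not_ker V hY
    obtain ⟨hbX0, hbX1⟩ := not_ker V (hred X hX)
    obtain ⟨hbY0, hbY1⟩ := not_ker V (hred Y hY)
    have he2 := h.e2 β S hβ0 hS X Y hbX0 hbY0
    have hu : V.valuation (∏ R ∈ S, (1 - xc Y / xc R) - ∏ R ∈ S, (1 : Ω)) < 1 := by
      have hlt : ∀ R ∈ S, V.valuation (xc Y / xc R) < 1 := by
        intro R hR
        rw [map_div₀]
        have h1 := (hR1 R hR).2.2
        exact (div_lt_one₀ (zero_lt_one.trans h1)).2 (hY1.trans_lt h1)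
      refine g7c_prod V S _ _ (fun R hR => ?_) (fun R hR => (map_one _).le) (fun R hR => ?_)
      · refine (V.valuation.map_sub _ _).trans (max_le (map_one _).le (hlt R hR).le)
      · have h1 : 1 - xc Y / xc R - 1 = -(xc Y / xc R) := by ring
        rw [h1, Valuation.map_neg]
        exact hlt R hR
    rw [Finset.prod_const_one] at hu
    have hP : V.valuation (∏ R ∈ S, (xc (X + R) - xc Y) - ∏ R ∈ S, (xc X - xc Y)) < 1 := by
      have hc : ∀ R ∈ S, ¬ Ker V (X + R) ∧ V.valuation (xc (X + R) - xc X) < 1 := by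
        intro R hR
        have h1 : Ker V (X + R - X) := by
          rw [add_sub_cancel_left]
          exact (hR1 R hR).2.1
        obtain ⟨h2, h3, _⟩ := cls_conv hV hX h1
        exact ⟨h2, h3⟩
      refine g7c_prod V S _ _ (fun R hR => ?_) (fun R hR => ?_) (fun R hR => ?_)
      · exact (V.valuation.map_sub _ _).trans (max_le (not_ker V (hc R hR).1).2 hY1)
      · exact (V.valuation.map_sub _ _).trans (max_le hX1 hY1)
      · have h1 : xc (X + R) - xc Y - (xc X - xc Y) = xc (X + R) - xc X := by ring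
        rw [h1]
        exact (hc R hR).2
    rw [Finset.prod_const, hcard] at hP
    have hprod : ∏ R ∈ S, (xc R - xc Y) = (∏ R ∈ S, xc R) * ∏ R ∈ S, (1 - xc Y / xc R) := by
      rw [← Finset.prod_mul_distrib]
      refine Finset.prod_congr rfl fun R hR => ?_
      have := hxR R hR
      field_simp
    rw [hprod] at he2
    have hqpos : 1 ≤ Nm β := by
      rw [hq]
      exact Nat.one_le_pow _ _ hl.pos
    have hpow : (xc X - xc Y) * (xc X - xc Y) ^ (Nm β - 1) = (xc X - xc Y) ^ Nm β := by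
      rw [← pow_succ', Nat.sub_add_cancel hqpos]
    have hsub : V.valuation ((xc X - xc Y) ^ Nm β - (xc X ^ Nm β - xc Y ^ Nm β)) < 1 := by
      have h1 := f1_add V hl hlV f hX1 (y := -xc Y) (by rw [Valuation.map_neg]; exact hY1)
      rw [← hq] at h1
      rw [hodd.neg_pow] at h1
      have h2 : (xc X - xc Y) ^ Nm β - (xc X ^ Nm β - xc Y ^ Nm β) =
          (xc X + -xc Y) ^ Nm β - (xc X ^ Nm β + -xc Y ^ Nm β) := by ring
      rw [h2]
      exact h1
    have hD : V.valuation (xc (act β X) - xc (act β Y)) ≤ 1 :=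
      (V.valuation.map_sub _ _).trans (max_le hbX1 hbY1)
    have hxy : V.valuation (xc X - xc Y) ≤ 1 := (V.valuation.map_sub _ _).trans (max_le hX1 hY1)
    set κ := ak Ω β ^ 2 * ∏ R ∈ S, xc R with hκdef
    set u := ∏ R ∈ S, (1 - xc Y / xc R) with hudef
    set p := ∏ R ∈ S, (xc (X + R) - xc Y) with hpdef
    have hfin : κ * (xc (act β X) - xc (act β Y)) - (xc X ^ Nm β - xc Y ^ Nm β) =
        (xc X - xc Y) * (p - (xc X - xc Y) ^ (Nm β - 1)) - κ * (xc (act β X) - xc (act β Y)) * (u - 1) +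
        ((xc X - xc Y) ^ Nm β - (xc X ^ Nm β - xc Y ^ Nm β)) := by
      rw [← hpow]
      have : κ * (xc (act β X) - xc (act β Y)) * u = (xc X - xc Y) * p := by
        rw [← he2, hκdef]
        ring
      linear_combination this
    rw [hfin]
    refine V.valuation.map_add_lt (V.valuation.map_sub_lt ?_ ?_) hsub
    · exact g7c_mul V hxy hP
    · refine g7c_mul V ?_ hu
      rw [map_mul, hκ, one_mul]
      exact hD

end H16S
end

-- from Lib.H16S.F2
section

/-! # H16S, chunk F2 (M): port of H55K/G7D (frob_x) -/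

open NumberField IsDedekindDomain WeierstrassCurve

namespace H16S

open H55P (IQ Pt ac Inert Dec Nm)
open H35P (WAB Ker tt)
open H55K

variable {F : Type} [Field F] [NumberField F] [IQ F] {A B : F} {Om : ℂ} {Ω : Type} [Field Ω] [DecidableEq Ω]
  [Algebra F Ω] {j : Ω →+* ℂ} {act : 𝓞 F →+* AddMonoid.End (Pt (WAB A B) Ω)} {V : ValuationSubring Ω}

theorem f2_add3 {k : Type} [Field k] (V : ValuationSubring k) {l f q : ℕ} (hl : l.Prime)
    (hlV : V.valuation (l : k) < 1) (hq : q = l ^ f) {x y z : k} (hx : V.valuation x ≤ 1) (hy : V.valuation y ≤ 1)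
    (hz : V.valuation z ≤ 1) : V.valuation ((x + y + z) ^ q - (x ^ q + y ^ q + z ^ q)) < 1 := by
  have h1 := f1_add V hl hlV f hx hy
  have h2 := f1_add V hl hlV f ((V.valuation.map_add x y).trans (max_le hx hy)) hz
  rw [← hq] at h1 h2
  have h3 : (x + y + z) ^ q - (x ^ q + y ^ q + z ^ q) =
      ((x + y + z) ^ q - ((x + y) ^ q + z ^ q)) + ((x + y) ^ q - (x ^ q + y ^ q)) := by ring
  rw [h3]
  exact V.valuation.map_add_lt h2 h1

/-- Chunk F2 (M). COPY the proof of H55K.frob_x (Lib/H55K/G7D.lean) with frob_diff2 and f1_add in the place of frob_diff and g7c_add (g7d_add3: apply f1_add twice). -/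
theorem frob_x2 (h : CMA F A B Om j act) (hV : GV A B V) {β : 𝓞 F} (hβ : Prime β)
    (hv : V.valuation (ak Ω β) < 1) {l f : ℕ} (hl : l.Prime) (hlV : V.valuation (l : Ω) < 1) (hf : 0 < f) (hq : Nm β = l ^ f) :
    ∃ κ : Ω, V.valuation κ = 1 ∧
    (∀ X : Pt (WAB A B) Ω, ¬ Ker V X → V.valuation (κ * xc (act β X) - xc X ^ Nm β) < 1) ∧
    V.valuation (κ ^ 2 * algebraMap F Ω A - algebraMap F Ω A) < 1 ∧
    V.valuation (κ ^ 3 * algebraMap F Ω B - algebraMap F Ω B) < 1 := by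
  obtain ⟨κ, hκ, hdiff⟩ := frob_diff2 h hV hβ hv hl hlV hf hq
  obtain ⟨e₁, e₂, e₃, hmem, h12, h13, h23, v1, v2, v3⟩ := two_tors h
  have hl2 : l ≠ 2 := by
    intro h2
    rw [h2, Nat.cast_ofNat, hV.two] at hlV
    exact lt_irrefl _ hlV
  have hodd : Odd (Nm β) := by
    rw [hq]
    exact (hl.odd_of_ne_two hl2).pow
  have hne : Nm β ≠ 0 := by
    rw [hq]
    exact pow_ne_zero _ hl.ne_zero
  have hred : ∀ X : Pt (WAB A B) Ω, ¬ Ker V X → ¬ Ker V (act β X) := fun X hX hX' =>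
    hX (ker_red h hV hβ hv hX')
  have htwo : ∀ T : Pt (WAB A B) Ω, act 2 T = 0 → Ker V T → T = 0 := by
    intro T hT hK
    refine ker_tors hV 2 (by rw [Nat.cast_ofNat]; exact hV.two) ?_ hK
    rw [two_nsmul, ← g7b_act2 (act := act)]
    exact hT
  have hint : ∀ T : Pt (WAB A B) Ω, (T = e₁ ∨ T = e₂ ∨ T = e₃) → ¬ Ker V T ∧
      (act β T = e₁ ∨ act β T = e₂ ∨ act β T = e₃) := by
    intro T hT
    obtain ⟨h1, h2⟩ := (hmem T).2 hT
    have h3 : ¬ Ker V T := fun hK => h2 (htwo T h1 hK)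
    refine ⟨h3, (hmem _).1 ⟨?_, ?_⟩⟩
    · have h4 : act 2 (act β T) = act β (act 2 T) := by
        have h5 : act (2 * β) T = act (β * 2) T := by rw [mul_comm]
        rw [map_mul, map_mul] at h5
        exact h5
      rw [h4, h1, map_zero]
    · intro h4
      apply hred T h3
      rw [h4]
      exact trivial
  have hinj : ∀ T T' : Pt (WAB A B) Ω, act 2 T = 0 → act 2 T' = 0 → act β T = act β T' → T = T' := by
    intro T T' h1 h2 h3
    have h4 : act β (T - T') = 0 := by rw [map_sub, h3, sub_self]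
    have h5 : Ker V (T - T') := tor_ker h hV hβ hv h4
    have h6 : act 2 (T - T') = 0 := by rw [map_sub, h1, h2, sub_self]
    exact sub_eq_zero.1 (htwo _ h6 h5)
  have t1 := ((hmem e₁).2 (Or.inl rfl)).1
  have t2 := ((hmem e₂).2 (Or.inr (Or.inl rfl))).1
  have t3 := ((hmem e₃).2 (Or.inr (Or.inr rfl))).1
  obtain ⟨k1, p1⟩ := hint e₁ (Or.inl rfl)
  obtain ⟨k2, p2⟩ := hint e₂ (Or.inr (Or.inl rfl))
  obtain ⟨k3, p3⟩ := hint e₃ (Or.inr (Or.inr rfl))
  have n12 : act β e₁ ≠ act β e₂ := fun h' => h12 (hinj _ _ t1 t2 h')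
  have n13 : act β e₁ ≠ act β e₃ := fun h' => h13 (hinj _ _ t1 t3 h')
  have n23 : act β e₂ ≠ act β e₃ := fun h' => h23 (hinj _ _ t2 t3 h')
  have hperm : xc (act β e₁) + xc (act β e₂) + xc (act β e₃) = 0 ∧
      xc (act β e₁) * xc (act β e₂) + xc (act β e₁) * xc (act β e₃) + xc (act β e₂) * xc (act β e₃) =
        algebraMap F Ω A ∧
      xc (act β e₁) * xc (act β e₂) * xc (act β e₃) = -algebraMap F Ω B := by
    rcases p1 with p1 | p1 | p1 <;> rcases p2 with p2 | p2 | p2 <;> rcases p3 with p3 | p3 | p3 <;>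
    first
    | exact absurd (p1.trans p2.symm) n12
    | exact absurd (p1.trans p3.symm) n13
    | exact absurd (p2.trans p3.symm) n23
    | (rw [p1, p2, p3]
       refine ⟨?_, ?_, ?_⟩
       · linear_combination v1
       · linear_combination v2
       · linear_combination v3)
  obtain ⟨w1, w2, w3⟩ := hperm
  have i1 := (not_ker V k1).2
  have i2 := (not_ker V k2).2
  have i3 := (not_ker V k3).2
  have j1 := (not_ker V (hred _ k1)).2
  have j2 := (not_ker V (hred _ k2)).2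
  have j3 := (not_ker V (hred _ k3)).2
  have hsum : V.valuation (xc e₁ ^ Nm β + xc e₂ ^ Nm β + xc e₃ ^ Nm β) < 1 := by
    have h1 := f2_add3 V hl hlV hq i1 i2 i3
    rw [v1, zero_pow hne, zero_sub, Valuation.map_neg] at h1
    exact h1
  have d12 := hdiff e₁ e₂ k1 k2
  have d13 := hdiff e₁ e₃ k1 k3
  have c1 : V.valuation (κ * xc (act β e₁) - xc e₁ ^ Nm β) < 1 := by
    have h1 : (3 : Ω) * (κ * xc (act β e₁) - xc e₁ ^ Nm β) =
        (κ * (xc (act β e₁) - xc (act β e₂)) - (xc e₁ ^ Nm β - xc e₂ ^ Nm β)) +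
        (κ * (xc (act β e₁) - xc (act β e₃)) - (xc e₁ ^ Nm β - xc e₃ ^ Nm β)) -
        (xc e₁ ^ Nm β + xc e₂ ^ Nm β + xc e₃ ^ Nm β) := by
      linear_combination κ * w1
    have h2 : V.valuation ((3 : Ω) * (κ * xc (act β e₁) - xc e₁ ^ Nm β)) < 1 := by
      rw [h1]
      exact V.valuation.map_sub_lt (V.valuation.map_add_lt d12 d13) hsum
    rwa [map_mul, hV.three, one_mul] at h2
  have call : ∀ X : Pt (WAB A B) Ω, ¬ Ker V X →
      V.valuation (κ * xc (act β X) - xc X ^ Nm β) < 1 := by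
    intro X hX
    have h1 := hdiff X e₁ hX k1
    have h2 : κ * xc (act β X) - xc X ^ Nm β =
        (κ * (xc (act β X) - xc (act β e₁)) - (xc X ^ Nm β - xc e₁ ^ Nm β)) +
        (κ * xc (act β e₁) - xc e₁ ^ Nm β) := by ring
    rw [h2]
    exact V.valuation.map_add_lt h1 c1
  have c2 := call e₂ k2
  have c3 := call e₃ k3
  have hκj : ∀ z : Ω, V.valuation z ≤ 1 → V.valuation (κ * z) ≤ 1 := by
    intro z hz
    rw [map_mul, hκ, one_mul]
    exact hz
  have hpw : ∀ z : Ω, V.valuation z ≤ 1 → V.valuation (z ^ Nm β) ≤ 1 := by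
    intro z hz
    rw [map_pow]
    exact pow_le_one' hz _
  refine ⟨κ, hκ, call, ?_, ?_⟩
  · have hA := fermat hβ hv A ((V.valuation_le_one_iff _).2 hV.a)
    have m12 := g7d_mul V (hκj _ j1) (hpw _ i2) c1 c2
    have m13 := g7d_mul V (hκj _ j1) (hpw _ i3) c1 c3
    have m23 := g7d_mul V (hκj _ j2) (hpw _ i3) c2 c3
    have hle : ∀ {a b : Ω}, V.valuation a ≤ 1 → V.valuation b ≤ 1 → V.valuation (a * b) ≤ 1 := by
      intro a b ha hb
      rw [map_mul]
      exact mul_le_one' ha hb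
    have hs := f2_add3 V hl hlV hq (hle i1 i2) (hle i1 i3) (hle i2 i3)
    rw [v2] at hs
    have hfin : κ ^ 2 * algebraMap F Ω A - algebraMap F Ω A =
        (κ * xc (act β e₁) * (κ * xc (act β e₂)) - xc e₁ ^ Nm β * xc e₂ ^ Nm β) +
        (κ * xc (act β e₁) * (κ * xc (act β e₃)) - xc e₁ ^ Nm β * xc e₃ ^ Nm β) +
        (κ * xc (act β e₂) * (κ * xc (act β e₃)) - xc e₂ ^ Nm β * xc e₃ ^ Nm β) -
        (algebraMap F Ω A ^ Nm β - ((xc e₁ * xc e₂) ^ Nm β + (xc e₁ * xc e₃) ^ Nm β +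
          (xc e₂ * xc e₃) ^ Nm β)) +
        (algebraMap F Ω A ^ Nm β - algebraMap F Ω A) := by
      rw [mul_pow, mul_pow, mul_pow]
      linear_combination -κ ^ 2 * w2
    rw [hfin]
    exact V.valuation.map_add_lt (V.valuation.map_sub_lt (V.valuation.map_add_lt
      (V.valuation.map_add_lt m12 m13) m23) hs) hA
  · have hB := fermat hβ hv B ((V.valuation_le_one_iff _).2 hV.b)
    have m12 := g7d_mul V (hκj _ j1) (hpw _ i2) c1 c2
    have hle : V.valuation (κ * xc (act β e₁) * (κ * xc (act β e₂))) ≤ 1 := by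
      rw [map_mul]
      exact mul_le_one' (hκj _ j1) (hκj _ j2)
    have m123 := g7d_mul V hle (hpw _ i3) m12 c3
    have hprod : xc e₁ ^ Nm β * xc e₂ ^ Nm β * xc e₃ ^ Nm β = -(algebraMap F Ω B ^ Nm β) := by
      rw [← mul_pow, ← mul_pow, v3, hodd.neg_pow]
    rw [hprod] at m123
    have hfin : κ ^ 3 * algebraMap F Ω B - algebraMap F Ω B =
        -(κ * xc (act β e₁) * (κ * xc (act β e₂)) * (κ * xc (act β e₃)) -
          -(algebraMap F Ω B ^ Nm β)) + (algebraMap F Ω B ^ Nm β - algebraMap F Ω B) := by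
      linear_combination κ ^ 3 * w3
    rw [hfin]
    refine V.valuation.map_add_lt ?_ hB
    rw [Valuation.map_neg]
    exact m123

end H16S
end

-- from Lib.H16S.F4
section

/-! # H16S, chunk F4 (M): kappa = 1 -/

open NumberField IsDedekindDomain WeierstrassCurve

namespace H16S

open H55P (IQ Pt ac Inert Dec Nm)
open H35P (WAB Ker tt)
open H55K

variable {F : Type} [Field F] [NumberField F] [IQ F] {A B : F} {Om : ℂ} {Ω : Type} [Field Ω] [DecidableEq Ω]
  [Algebra F Ω] {j : Ω →+* ℂ} {act : 𝓞 F →+* AddMonoid.End (Pt (WAB A B) Ω)} {V : ValuationSubring Ω}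

/-- The subgroup of the classes of points modulo the kernel of reduction fixed by s. -/
def Ms (hV : GV A B V) (s : Ω ≃ₐ[F] Ω) (hs : Dec V s) : AddSubgroup (Pt (WAB A B) Ω ⧸ kerG hV) where
  carrier := {c | ∃ X : Pt (WAB A B) Ω, (X : Pt (WAB A B) Ω ⧸ kerG hV) = c ∧ Ker V (ac (WAB A B) s X - X)}
  zero_mem' := ⟨0, rfl, by rw [map_zero, sub_zero]; exact ker_zero V⟩
  add_mem' := by
    rintro a b ⟨X, rfl, hX⟩ ⟨Y, rfl, hY⟩
    refine ⟨X + Y, rfl, ?_⟩
    have e : ac (WAB A B) s (X + Y) - (X + Y) = (ac (WAB A B) s X - X) + (ac (WAB A B) s Y - Y) := by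
      rw [map_add]
      abel
    rw [e]
    exact kadd hV hX hY
  neg_mem' := by
    rintro a ⟨X, rfl, hX⟩
    refine ⟨-X, rfl, ?_⟩
    have e : ac (WAB A B) s (-X) - (-X) = 0 - (ac (WAB A B) s X - X) := by
      rw [map_neg]
      abel
    rw [e]
    exact ksub hV (ker_zero V) hX

theorem f4_small (hV : GV A B V) {p : ℕ} (s : Ω ≃ₐ[F] Ω) (hs : ∀ x ∈ V, V.valuation (s x - x ^ (p ^ 2)) < 1) {κ : Ω}
    (hκ : V.valuation κ = 1)
    (hx : ∀ X : Pt (WAB A B) Ω, ¬ Ker V X → V.valuation (κ * xc (p • X) - xc X ^ (p ^ 2)) < 1)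
    (hcon : V.valuation (κ - 1) = 1) {X : Pt (WAB A B) Ω} (hX : ¬ Ker V X) (hK : Ker V (ac (WAB A B) s X - X))
    (hp : V.valuation (xc (p • X) - xc X) < 1) : V.valuation (xc X) < 1 := by
  obtain ⟨hX0, hX1⟩ := not_ker V hX
  have c1 := (cls_conv hV hX hK).2.1
  rw [xc_ac] at c1
  have c2 := hs (xc X) ((V.valuation_le_one_iff _).1 hX1)
  have c3 := hx X hX
  have e : (κ - 1) * xc X = (κ * xc (p • X) - xc X ^ (p ^ 2)) - κ * (xc (p • X) - xc X) -
      (s (xc X) - xc X ^ (p ^ 2)) + (s (xc X) - xc X) := by ring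
  have h1 : V.valuation ((κ - 1) * xc X) < 1 := by
    rw [e]
    refine V.valuation.map_add_lt (V.valuation.map_sub_lt (V.valuation.map_sub_lt c3 ?_) c2) c1
    rw [map_mul, hκ, one_mul]
    exact hp
  rwa [map_mul, hcon, one_mul] at h1

theorem f4_two (h : CMA F A B Om j act) (hV : GV A B V) {p : ℕ} (hodd : Odd p) (s : Ω ≃ₐ[F] Ω) (hd : Dec V s)
    (hs : ∀ x ∈ V, V.valuation (s x - x ^ (p ^ 2)) < 1) {κ : Ω} (hκ : V.valuation κ = 1)
    (hx : ∀ X : Pt (WAB A B) Ω, ¬ Ker V X → V.valuation (κ * xc (p • X) - xc X ^ (p ^ 2)) < 1)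
    (hcon : V.valuation (κ - 1) = 1) {X : Pt (WAB A B) Ω} (hX : ¬ Ker V X) (hK : Ker V (ac (WAB A B) s X - X))
    (h2 : Ker V (X + X)) : ∃ T : Pt (WAB A B) Ω, T + T = 0 ∧ Ker V (X - T) ∧ ¬ Ker V T ∧ V.valuation (xc T) < 1 := by
  have hak : V.valuation (ak Ω (2 : 𝓞 F)) = 1 := by
    have e : ak Ω (2 : 𝓞 F) = 2 := by
      show algebraMap F Ω (algebraMap (𝓞 F) F 2) = 2
      rw [map_ofNat, map_ofNat]
    rw [e]
    exact hV.two
  have ha2 : ∀ T : Pt (WAB A B) Ω, act 2 T = T + T := by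
    intro T
    rw [← one_add_one_eq_two, map_add, map_one]
    rfl
  obtain ⟨T, hT, hXT⟩ := g9_surj h hV hak (X := X) (by rw [ha2]; exact h2)
  have hT2 : T + T = 0 := by
    rw [← ha2]
    exact hT
  have hTk : ¬ Ker V T := by
    intro hk
    apply hX
    have := kadd hV hXT hk
    rwa [sub_add_cancel] at this
  have hTs : Ker V (ac (WAB A B) s T - T) := by
    have e : ac (WAB A B) s T - T = (ac (WAB A B) s X - X) - (ac (WAB A B) s (X - T) - (X - T)) := by
      rw [map_sub]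
      abel
    rw [e]
    exact ksub hV hK (ksub hV ((ker_ac s hd).2 hXT) hXT)
  have hpT : p • T = T := by
    obtain ⟨k, hk⟩ := hodd
    rw [hk, add_nsmul, one_nsmul, mul_nsmul, two_nsmul, hT2, nsmul_zero, zero_add]
  refine ⟨T, hT2, hXT, hTk, f4_small hV s hs hκ hx hcon hTk hTs ?_⟩
  rw [hpT, sub_self, map_zero]
  exact zero_lt_one

/-- Chunk F4 (M). The scaling factor is 1. p is odd and ≥ 5 (V 2 = V 3 = 1, V p < 1 exclude p = 2, 3). PROOF. Suppose V(κ - 1) = 1 (not < 1). For a fixed class X (not in Ker): x(X)^q is congruent to s(x(X)) = x(sX), congruent to x(X) (cls_conv); so κ x(pX) is congruent to x(X). (a) If c in Ms has order 2: c = class of X, g9_surj (b = 2): we may take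
2 X = 0; p X = X, so (κ - 1) x(X) is congruent to 0: V(x(X)) < 1; y(X) = 0 (2X = 0), so V(B) < 1 (B = y² - x³ - A x), and V(x(X) - x(X')) < 1 for two such points: cls_x gives X' = ± X modulo Ker, so c' = c: at most one element of order 2. (b) |Ms| = (p+1)², divisible by 4: F3 gives c = class of Y with 4 c = 0,
2 c ≠ 0. p Y is Y or -Y modulo Ker (p is 1 or 3 modulo 4), so x(pY) is congruent to x(Y): (κ - 1) x(Y) congruent to 0, V(x(Y)) < 1. Cauchy: there is c' in Ms of order 2, X as in (a), V(x(X)) < 1: cls_x: Y = ± X modulo Ker, 2 Y in Ker: a contradiction. -/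
theorem kap_one [IsAlgClosed Ω] (h : CMA F A B Om j act) (hV : GV A B V) {p : ℕ} (hp : p.Prime) (hv : V.valuation (p : Ω) < 1)
    (hβ : Prime (p : 𝓞 F)) (s : Ω ≃ₐ[F] Ω) (hd : Dec V s) (hs : ∀ x ∈ V, V.valuation (s x - x ^ (p ^ 2)) < 1)
    (hc : Nat.card (Ms hV s hd) = (p + 1) ^ 2) {κ : Ω} (hκ : V.valuation κ = 1)
    (hx : ∀ X : Pt (WAB A B) Ω, ¬ Ker V X → V.valuation (κ * xc (p • X) - xc X ^ (p ^ 2)) < 1) :
    V.valuation (κ - 1) < 1 := by
  have hp2 : p ≠ 2 := by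
    intro h2
    rw [h2, Nat.cast_ofNat, hV.two] at hv
    exact lt_irrefl _ hv
  have hodd : Odd p := hp.odd_of_ne_two hp2
  by_contra hcon0
  have hcon : V.valuation (κ - 1) = 1 := by
    refine le_antisymm ?_ (not_lt.1 hcon0)
    exact (V.valuation.map_sub _ _).trans (max_le hκ.le (map_one _).le)
  have hq0 : ∀ X : Pt (WAB A B) Ω, (X : Pt (WAB A B) Ω ⧸ kerG hV) = 0 ↔ Ker V X :=
    fun X => QuotientAddGroup.eq_zero_iff X
  have hfin : Finite (Ms hV s hd) := Nat.finite_of_card_ne_zero (by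
    rw [hc]
    positivity)
  have h4 : 4 ∣ Nat.card (Ms hV s hd) := by
    rw [hc]
    obtain ⟨k, hk⟩ := hodd
    refine ⟨(k + 1) ^ 2, ?_⟩
    rw [hk]
    ring
  have hone : ∀ x y : Ms hV s hd, 2 • x = 0 → 2 • y = 0 → x ≠ 0 → y ≠ 0 → x = y := by
    rintro ⟨_, X, rfl, hX⟩ ⟨_, Y, rfl, hY⟩ hx2 hy2 hx0 hy0
    have hXk : ¬ Ker V X := fun hk => hx0 (Subtype.ext ((hq0 X).2 hk))
    have hYk : ¬ Ker V Y := fun hk => hy0 (Subtype.ext ((hq0 Y).2 hk))
    have hX2 : Ker V (X + X) := by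
      rw [← hq0, ← two_nsmul]
      exact congrArg Subtype.val hx2
    have hY2 : Ker V (Y + Y) := by
      rw [← hq0, ← two_nsmul]
      exact congrArg Subtype.val hy2
    obtain ⟨T, t1, t2, t3, t4⟩ := f4_two h hV hodd s hd hs hκ hx hcon hXk hX hX2
    obtain ⟨T', t1', t2', t3', t4'⟩ := f4_two h hV hodd s hd hs hκ hx hcon hYk hY hY2
    have hTT : Ker V (T - T') := by
      rcases cls_x hV t3 t3' (V.valuation.map_sub_lt t4 t4') with hk | hk
      · exact hk
      · have e : T - T' = (T + T') - (T' + T') := by abel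
        rw [e, t1', sub_zero]
        exact hk
    refine Subtype.ext ?_
    have e : X - Y = (X - T) + (T - T') - (Y - T') := by abel
    have hXY : Ker V (X - Y) := by
      rw [e]
      exact ksub hV (kadd hV t2 hTT) t2'
    have := (hq0 _).2 hXY
    exact sub_eq_zero.1 this
  obtain ⟨⟨_, Y, rfl, hY⟩, z4, z2⟩ := f3 h4 hone
  have hY4 : Ker V (4 • Y) := by
    rw [← hq0]
    exact congrArg Subtype.val z4
  have hY2 : ¬ Ker V (2 • Y) := fun hk => z2 (Subtype.ext ((hq0 _).2 hk))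
  have hYk : ¬ Ker V Y := fun hk => hY2 (knsmul hV hk 2)
  have hYs2 : Ker V (ac (WAB A B) s (2 • Y) - 2 • Y) := by
    have e : ac (WAB A B) s (2 • Y) - 2 • Y = 2 • (ac (WAB A B) s Y - Y) := by
      rw [map_nsmul, nsmul_sub]
    rw [e]
    exact knsmul hV hY 2
  have hYp : V.valuation (xc (p • Y) - xc Y) < 1 := by
    obtain ⟨k, hk⟩ := hodd
    rcases Nat.even_or_odd k with ⟨m, hm⟩ | ⟨m, hm⟩
    · have e : p • Y - Y = m • (4 • Y) := by
        have e1 : p • Y = (4 * m + 1) • Y := by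
          rw [hk, hm]
          congr 1
          ring
        rw [e1, add_nsmul, one_nsmul, add_sub_cancel_right, mul_nsmul]
      have hk1 : Ker V (p • Y - Y) := by
        rw [e]
        exact knsmul hV hY4 m
      exact (cls_conv hV hYk hk1).2.1
    · have e : p • Y - -Y = (m + 1) • (4 • Y) := by
        have e1 : p • Y + Y = (4 * (m + 1)) • Y := by
          rw [← succ_nsmul, hk, hm]
          congr 1
          ring
        rw [sub_neg_eq_add, e1, mul_nsmul]
      have hk1 : Ker V (p • Y - -Y) := by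
        rw [e]
        exact knsmul hV hY4 (m + 1)
      have hYn : ¬ Ker V (-Y) := fun hk' => hYk (by
        have := kneg hk'
        rwa [neg_neg] at this)
      have h5 := (cls_conv hV hYn hk1).2.1
      rwa [xc_neg] at h5
  have hYx : V.valuation (xc Y) < 1 := f4_small hV s hs hκ hx hcon hYk hY hYp
  obtain ⟨T, t1, t2, t3, t4⟩ := f4_two h hV hodd s hd hs hκ hx hcon hY2 hYs2 (by
    rw [← two_nsmul, ← mul_nsmul]
    exact hY4)
  apply hY2
  rcases cls_x hV hYk t3 (V.valuation.map_sub_lt hYx t4) with hk | hk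
  · have e : 2 • Y = 2 • (Y - T) + (T + T) := by
      rw [nsmul_sub, two_nsmul T]
      abel
    rw [e, t1, add_zero]
    exact knsmul hV hk 2
  · have e : 2 • Y = 2 • (Y + T) - (T + T) := by
      rw [nsmul_add, two_nsmul T]
      abel
    rw [e, t1, sub_zero]
    exact knsmul hV hk 2

end H16S
end

-- from Lib.H16S.F5
section

/-! # H16S, chunk F5 (M): the sign -/

open NumberField IsDedekindDomain WeierstrassCurve

namespace H16S

open H55P (IQ Pt ac Inert Dec Nm)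
open H35P (WAB Ker tt)
open H55K

variable {F : Type} [Field F] [NumberField F] [IQ F] {A B : F} {Om : ℂ} {Ω : Type} [Field Ω] [DecidableEq Ω]
  [Algebra F Ω] {j : Ω →+* ℂ} {act : 𝓞 F →+* AddMonoid.End (Pt (WAB A B) Ω)} {V : ValuationSubring Ω}

/-- Chunk F5 (M). PROOF. κ = 1 modulo V: for X not in Ker, p X is not in Ker (ker_red with β = p; act p X = p • X: map_natCast) and x(pX) is congruent to x(X)^q, congruent to s(x(X)) = x(sX); so (cls_x) Ker (sX - pX) or Ker (sX + pX); for X in Ker both hold. two_sub (H55K/G8B.lean) with K = kerG, f = ac s, g = multiplication by p.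
Suppose s X - p X in Ker for all X. On Ms: (p - 1) c = 0. If an odd prime l divides p + 1: an element of order l (Cauchy) gives l | p - 1, l | 2: contradiction. So p + 1 = 2^k, k ≥ 3 (p ≥ 5), p - 1 is twice an odd number, the order of every c in Ms is a power of 2 dividing p - 1, so 2 c = 0; cls_card with b = 2 (Nm 2 = 4) gives
(p+1)² ≤ 4: contradiction. -/
theorem sup_one [IsAlgClosed Ω] (h : CMA F A B Om j act) (hV : GV A B V) {p : ℕ} (hp : p.Prime) (hv : V.valuation (p : Ω) < 1)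
    (hβ : Prime (p : 𝓞 F)) (s : Ω ≃ₐ[F] Ω) (hd : Dec V s) (hs : ∀ x ∈ V, V.valuation (s x - x ^ (p ^ 2)) < 1)
    (hc : Nat.card (Ms hV s hd) = (p + 1) ^ 2) {κ : Ω} (hκ : V.valuation κ = 1) (hκ1 : V.valuation (κ - 1) < 1)
    (hx : ∀ X : Pt (WAB A B) Ω, ¬ Ker V X → V.valuation (κ * xc (p • X) - xc X ^ (p ^ 2)) < 1)
    (X : Pt (WAB A B) Ω) : Ker V (ac (WAB A B) s X + p • X) := by
  have hakn : ∀ m : ℕ, ak Ω ((m : ℕ) : 𝓞 F) = (m : Ω) := by
    intro m
    rw [← g9h_eq]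
    exact map_natCast _ _
  have hactn : ∀ (m : ℕ) (Y : Pt (WAB A B) Ω), act ((m : ℕ) : 𝓞 F) Y = m • Y := by
    intro m Y
    rw [map_natCast]
    exact AddMonoid.End.natCast_apply m Y
  have hv' : V.valuation (ak Ω ((p : ℕ) : 𝓞 F)) < 1 := by
    rw [hakn]
    exact hv
  have hkey : ∀ Y : Pt (WAB A B) Ω, ¬ Ker V Y →
      Ker V (ac (WAB A B) s Y - p • Y) ∨ Ker V (ac (WAB A B) s Y + p • Y) := by
    intro Y hY
    have n1 : ¬ Ker V (p • Y) := by
      intro h'
      apply hY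
      rw [← hactn] at h'
      exact ker_red h hV hβ hv' h'
    have n3 : ¬ Ker V (ac (WAB A B) s Y) := fun h' => hY ((ker_ac s hd).1 h')
    refine cls_x hV n3 n1 ?_
    have v1 := hx Y hY
    have v2 : V.valuation ((κ - 1) * xc (p • Y)) < 1 := by
      rw [map_mul]
      exact mul_lt_one_of_lt_of_le hκ1 (not_ker V n1).2
    have v3 : V.valuation (s (xc Y) - xc Y ^ (p ^ 2)) < 1 :=
      hs _ ((V.valuation_le_one_iff _).1 (not_ker V hY).2)
    have e : xc (ac (WAB A B) s Y) - xc (p • Y) = (s (xc Y) - xc Y ^ (p ^ 2)) -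
        ((κ * xc (p • Y) - xc Y ^ (p ^ 2)) - (κ - 1) * xc (p • Y)) := by
      rw [xc_ac]
      ring
    rw [e]
    exact (V.valuation.map_sub_lt v3 (V.valuation.map_sub_lt v1 v2))
  have hall : ∀ Y : Pt (WAB A B) Ω, (ac (WAB A B) s Y - nsmulAddMonoidHom p Y ∈ kerG hV) ∨
      (ac (WAB A B) s Y + nsmulAddMonoidHom p Y ∈ kerG hV) := by
    intro Y
    by_cases hY : Ker V Y
    · left
      exact ksub hV ((ker_ac s hd).2 hY) (knsmul hV hY p)
    · exact hkey Y hY
  rcases two_sub (kerG hV) (ac (WAB A B) s : Pt (WAB A B) Ω →+ Pt (WAB A B) Ω) (nsmulAddMonoidHom p) hall with h5 | h5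
  · exfalso
    -- every class of Ms is killed by four
    have h4 : ∀ Y : Pt (WAB A B) Ω, Ker V (ac (WAB A B) s Y - Y) → 4 • Y ∈ kerG hV := by
      intro Y hY
      have h6 : p • Y - Y ∈ kerG hV := by
        have e : p • Y - Y = (ac (WAB A B) s Y - Y) - (ac (WAB A B) s Y - nsmulAddMonoidHom p Y) := by
          change p • Y - Y = (ac (WAB A B) s Y - Y) - (ac (WAB A B) s Y - p • Y)
          abel
        rw [e]
        exact AddSubgroup.sub_mem _ hY (h5 Y)
      have h7 : (p + 1) ^ 2 • Y ∈ kerG hV := by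
        have h8 := card_nsmul_eq_zero' (x := (⟨(Y : Pt (WAB A B) Ω ⧸ kerG hV), Y, rfl, hY⟩ : Ms hV s hd))
        rw [hc] at h8
        have h9 := congrArg (fun z : Ms hV s hd => (z : Pt (WAB A B) Ω ⧸ kerG hV)) h8
        have h10 : (((p + 1) ^ 2 • Y : Pt (WAB A B) Ω) : Pt (WAB A B) Ω ⧸ kerG hV) = 0 := h9
        exact (QuotientAddGroup.eq_zero_iff _).1 h10
      have h11 : (p + 3) • (p • Y - Y) ∈ kerG hV := AddSubgroup.nsmul_mem _ h6 _
      have e : 4 • Y = (p + 1) ^ 2 • Y - (p + 3) • (p • Y - Y) := by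
        rw [nsmul_sub, ← mul_nsmul', eq_sub_iff_add_eq, ← add_sub_assoc, sub_eq_iff_eq_add, ← add_nsmul,
          ← add_nsmul]
        apply congrArg (fun m : ℕ => m • Y)
        ring
      rw [e]
      exact AddSubgroup.sub_mem _ h7 h11
    have hV4 : V.valuation (ak Ω ((4 : ℕ) : 𝓞 F)) = 1 := by
      rw [hakn]
      have e : ((4 : ℕ) : Ω) = 2 ^ 2 := by norm_num
      rw [e, map_pow, hV.two, one_pow]
    have hcc := cls_card h hV hV4
    rw [Nm_nat] at hcc
    have hfin : Finite {c : Pt (WAB A B) Ω ⧸ kerG hV // ∃ X : Pt (WAB A B) Ω,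
        (X : Pt (WAB A B) Ω ⧸ kerG hV) = c ∧ Ker V (act ((4 : ℕ) : 𝓞 F) X)} := by
      apply Nat.finite_of_card_ne_zero
      rw [hcc]
      norm_num
    have hle : Nat.card (Ms hV s hd) ≤ Nat.card {c : Pt (WAB A B) Ω ⧸ kerG hV // ∃ X : Pt (WAB A B) Ω,
        (X : Pt (WAB A B) Ω ⧸ kerG hV) = c ∧ Ker V (act ((4 : ℕ) : 𝓞 F) X)} := by
      refine Nat.card_le_card_of_injective (fun c => ⟨c.1, ?_⟩) ?_
      · obtain ⟨Y, hY1, hY2⟩ := c.2
        refine ⟨Y, hY1, ?_⟩
        rw [hactn]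
        exact h4 Y hY2
      · intro c c' hcc'
        have h12 := congrArg Subtype.val hcc'
        exact Subtype.ext h12
    rw [hcc, hc] at hle
    have hp3 : p ≤ 3 := by nlinarith
    have hp2 := hp.two_le
    have hp' : p = 2 ∨ p = 3 := by omega
    rcases hp' with rfl | rfl
    · have := hV.two
      push_cast at hv
      rw [this] at hv
      exact lt_irrefl _ hv
    · have := hV.three
      push_cast at hv
      rw [this] at hv
      exact lt_irrefl _ hv
  · exact h5 X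

end H16S
end

-- from Lib.H16S.F6
section

/-! # H16S, chunk F6 (S/M): the supersingular relation from the number of points -/

open NumberField IsDedekindDomain WeierstrassCurve

namespace H16S

open H55P (IQ Pt ac Inert Dec Nm)
open H35P (WAB Ker tt)
open H55K

variable {F : Type} [Field F] [NumberField F] [IQ F] {A B : F} {Om : ℂ} {Ω : Type} [Field Ω] [DecidableEq Ω]
  [Algebra F Ω] {j : Ω →+* ℂ} {act : 𝓞 F →+* AddMonoid.End (Pt (WAB A B) Ω)} {V : ValuationSubring Ω}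

/-- Chunk F6 (S/M). PROOF. V above p: V(a) < 1 for a in v = (p) (V(p) < 1, V(a) ≤ 1 for integers: ak_le). Nm (p : 𝓞 F) = p² (Nm_nat), Ideal.absNorm v = p². Dec V s: g8c_dec (or H55K.g8c_dec in G8C.lean). red_card: |Ms| = (p+1)². frob_x2 with β = p, l = p, f = 2 (ak Ω p = p, act p X = p • X), kap_one, sup_one. -/
theorem sup_of_card [IsAlgClosed Ω] (h : CMA F A B Om j act) (W₀ : WeierstrassCurve (𝓞 F))
    (hA : A = -(algebraMap (𝓞 F) F W₀.c₄) / 48) (hB : B = -(algebraMap (𝓞 F) F W₀.c₆) / 864) {p : ℕ} (hp : p.Prime)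
    (hβ : Prime (p : 𝓞 F)) (hgood : ∀ V : ValuationSubring Ω, V.valuation (p : Ω) < 1 → GV A B V)
    (v : HeightOneSpectrum (𝓞 F)) (hv : v.asIdeal = Ideal.span {(p : 𝓞 F)}) (hΔ : W₀.Δ ∉ v.asIdeal)
    (hc : Nat.card (W₀⁄(𝓞 F ⧸ v.asIdeal)).toAffine.Point = (p + 1) ^ 2) : Sup act p := by
  refine ⟨fun V hVp s hs X => ?_⟩
  have hG : GV A B V := hgood V hVp
  have hak : ak Ω (p : 𝓞 F) = (p : Ω) :=
    (congrArg (algebraMap F Ω) (map_natCast (algebraMap (𝓞 F) F) p)).trans (map_natCast _ p)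
  have hNm : Nm (p : 𝓞 F) = p ^ 2 := Nm_nat p
  have habs : Ideal.absNorm v.asIdeal = p ^ 2 := by
    rw [hv]
    exact hNm
  have hd : Dec V s := g8c_dec (pow_pos hp.pos 2) s hs
  have hv' : ∀ a : 𝓞 F, a ∈ v.asIdeal → V.valuation (ak Ω a) < 1 := by
    intro a ha
    rw [hv, Ideal.mem_span_singleton] at ha
    obtain ⟨c, rfl⟩ := ha
    have e : ak Ω ((p : 𝓞 F) * c) = ak Ω (p : 𝓞 F) * ak Ω c :=
      (congrArg (algebraMap F Ω) (map_mul (algebraMap (𝓞 F) F) _ _)).trans (map_mul _ _ _)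
    rw [e, hak, map_mul]
    exact mul_lt_one_of_lt_of_le hVp (ak_le V c)
  have hc1 := red_card hG W₀ hA hB v hΔ hv' s (by rw [habs]; exact hs)
  have hMs : Nat.card (Ms hG s hd) = (p + 1) ^ 2 := by
    rw [← hc, hc1]
    rfl
  obtain ⟨κ, hκ, hx, -, -⟩ := frob_x2 h hG hβ (by rw [hak]; exact hVp) hp hVp (by norm_num : 0 < 2) hNm
  have hx' : ∀ X : Pt (WAB A B) Ω, ¬ Ker V X → V.valuation (κ * xc (p • X) - xc X ^ (p ^ 2)) < 1 := by
    intro X hX
    have h1 := hx X hX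
    rw [hNm] at h1
    have e : act (p : 𝓞 F) X = p • X := by
      rw [map_natCast]
      exact AddMonoid.End.natCast_apply p X
    rw [e] at h1
    exact h1
  exact sup_one h hG hp hVp hβ s hd hs hMs hκ (kap_one h hG hp hVp hβ s hd hs hMs hκ hx') hx' X

end H16S
end

-- from Lib.H16S.S1
section

/-! # H16S, chunk S1 (S/M): the supersingular relation for curves over the integers -/

open NumberField IsDedekindDomain WeierstrassCurve

namespace H16S

open H55P (IQ Pt ac Inert Dec Nm)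
open H35P (WAB Ker tt)
open H55K H55K.TQ

/-- Chunk S1 (S/M). PROOF. v = the prime (p) (HeightOneSpectrum from hin). W⁄(𝓞 F) = W.map (Int.castRingHom (𝓞 F)) (rfl or RingHom.ext_int). Δ is not in v: hp.cop. hH.deu v: the number of points modulo v is Nm (1 - ψ v). H55P.IsHecke.gen (d.hecke, v coprime to m by d.cop): span {ψ v} = v. psi_inert (PZ.lean; p does not divide W.Δ in ℤ: otherwise Δ in v): ψ v = -p.
So the number is Nm (1 + p) = (p + 1)² (Nm_nat). sup_of_card (F6.lean) with W₀ = W⁄(𝓞 F), d.cma, d.good. -/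
theorem s1 {F : Type} [Field F] [NumberField F] [IQ F] {W : WeierstrassCurve ℤ} {Om : ℂ} {m : Ideal (𝓞 F)} {ψ : Ideal (𝓞 F) →*₀ 𝓞 F} {p : ℕ}
    (hH : BaseH F (W⁄(𝓞 F)) Om m ψ) (hp : PrimeH F (W⁄(𝓞 F)) p) (hin : Prime (p : 𝓞 F)) {A B : F} {Ω : Type} [Field Ω] [DecidableEq Ω]
    [Algebra F Ω] [IsAlgClosure F Ω] {j : Ω →+* ℂ} {act : 𝓞 F →+* AddMonoid.End (Pt (WAB A B) Ω)}
    (hA : A = -(algebraMap (𝓞 F) F (W⁄(𝓞 F)).c₄) / 48) (hB : B = -(algebraMap (𝓞 F) F (W⁄(𝓞 F)).c₆) / 864)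
    (d : Dta A B Om j act m ψ p) : Sup act p := by
  have hpp := hp.prime
  have hfact : Fact p.Prime := ⟨hpp⟩
  have hac : IsAlgClosed Ω := IsAlgClosure.isAlgClosed F
  have hp0 : (p : 𝓞 F) ≠ 0 := hin.ne_zero
  let v : HeightOneSpectrum (𝓞 F) := ⟨Ideal.span {(p : 𝓞 F)}, (Ideal.span_singleton_prime hp0).2 hin, by
    rw [Ne, Ideal.span_singleton_eq_bot]
    exact hp0⟩
  have hvΔ : (W⁄(𝓞 F)).Δ ∉ v.asIdeal := by
    intro h
    have h1 := hp.cop
    rw [Ideal.isCoprime_iff_sup_eq] at h1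
    have h2 : (⊤ : Ideal (𝓞 F)) ≤ v.asIdeal := by
      rw [← h1]
      exact sup_le ((Ideal.span_singleton_le_iff_mem _).2 h) le_rfl
    exact v.isPrime.ne_top (top_le_iff.1 h2)
  have hΔ : ¬ (p : ℤ) ∣ W.Δ := by
    rintro ⟨c, hc⟩
    apply hvΔ
    have h1 : (W⁄(𝓞 F)).Δ = algebraMap ℤ (𝓞 F) W.Δ := WeierstrassCurve.map_Δ W (algebraMap ℤ (𝓞 F))
    rw [h1, hc, map_mul]
    refine Ideal.mul_mem_right _ _ ?_
    have h2 : algebraMap ℤ (𝓞 F) (p : ℤ) = (p : 𝓞 F) := map_natCast _ p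
    rw [h2]
    exact Ideal.mem_span_singleton_self _
  have hdeu := hH.deu v hvΔ
  have hcop : IsCoprime v.asIdeal m := d.cop.symm
  have hgen := d.hecke.gen v.asIdeal hcop
  obtain ⟨hψ, -⟩ := psi_inert W hΔ v rfl hgen hdeu
  have hcard : Nat.card ((W⁄(𝓞 F))⁄(𝓞 F ⧸ v.asIdeal)).toAffine.Point = (p + 1) ^ 2 := by
    rw [hdeu, hψ]
    have h1 : (1 : 𝓞 F) - -(p : 𝓞 F) = ((p + 1 : ℕ) : 𝓞 F) := by
      push_cast
      ring
    rw [h1, Nm_nat]
  exact sup_of_card d.cma (W⁄(𝓞 F)) hA hB hpp hin d.good v rfl hvΔ hcard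

end H16S
end
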