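import Pool.Agent.Lib.H1M.PP2.M015
import Pool.Agent.Lib.H1M.PP2.M029

/-! Merged copies (to shorten the build) of Lib.SSG.F.C6, Lib.SSG.F.C9, Lib.SSG.F.C9B, Lib.SSG.F.C10, Lib.SSG.F.C13, Lib.SSG.F.C12, Lib.SSG.F.C8, Lib.SSG.F.L2A, Lib.SSG.F.L2, Lib.SSG.F.X1, Lib.SSG.F.X1B. -/

-- from Lib.SSG.F.C6
section

/-! # SSG/F/C6 : the Galois group is everything, cyclotomic part -/

namespace SSF

variable {p : ℕ} [Fact p.Prime] {R : ℕ → Type} [∀ N, CommRing (R N)] [∀ N, Fintype (R N)]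
  {L : Type} [NormedField L] [IsUltrametricDist L] (D : LTD p R L)

omit [IsUltrametricDist L] in
/-- exponents modulo `p ^ n`. -/
theorem c6_mul (n : ℕ) (a b : ZMod (p ^ n)) :
    (D.ζ n ^ a.val) ^ b.val = D.ζ n ^ (a * b).val := by
  have hne : NeZero (p ^ n) := ⟨pow_ne_zero _ (Fact.out : p.Prime).ne_zero⟩
  rw [← pow_mul, ZMod.val_mul]
  exact pow_eq_pow_mod _ (D.ζprim n).pow_eq_one

theorem c6_norm (n : ℕ) (hn : 1 ≤ n) (a : (ZMod (p ^ n))ˣ) :
    ‖D.ζ n ^ (a : ZMod (p ^ n)).val - 1‖ = ‖D.ζ n - 1‖ := by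
  have hne : NeZero (p ^ n) := ⟨pow_ne_zero _ (Fact.out : p.Prime).ne_zero⟩
  have hp := (Fact.out : p.Prime)
  have h1 : IsPrimitiveRoot (D.ζ n ^ (a : ZMod (p ^ n)).val) (p ^ n) :=
    (D.ζprim n).pow_of_coprime _ (ZMod.val_coe_unit_coprime a)
  obtain ⟨m, rfl⟩ : ∃ m, n = m + 1 := ⟨n - 1, by omega⟩
  have h2 := norm_prim m _ h1
  have h3 := norm_prim m _ (D.ζprim (m + 1))
  have hE : p ^ m * (p - 1) ≠ 0 := by
    have := hp.two_le
    exact mul_ne_zero (pow_ne_zero _ hp.ne_zero) (by omega)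
  exact (pow_left_inj₀ (norm_nonneg _) (norm_nonneg _) hE).1 (h2.trans h3.symm)

/-- Every `a` occurs as `σ ζ = ζ^a`. PROOF. The same argument with the set `S` of the
`a : (ZMod (p^n))ˣ` for which `σ` exists, `P = prod_(a ∈ S) (ζ^a - 1)`; all factors have norm
`‖φ_n‖` (`norm_prim` for the primitive root `ζ^a`, equal `E`-th powers), `‖φ_n‖^E = ‖p‖`,
`E = p^(n-1)(p-1) =` number of units of `ZMod (p^n)` (`ZMod.card_units_eq_totient`,
`Nat.totient_prime_pow`). Every `σ ∈ G` maps `ζ` to `ζ^c`, `c = nm u` a unit (`D.gal`), and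
`σ (ζ^a - 1) = ζ^(c a) - 1` (exponents modulo `p^n`: `ζ ^ (c.val * a.val) = ζ ^ (c * a).val`,
`ZMod.val_mul`, `pow_mod_orderOf`). -/
theorem gal_cyc (n : ℕ) (hn : 1 ≤ n) (a : (ZMod (p ^ n))ˣ) :
    ∃ σ ∈ D.G, σ (D.ζ n) = D.ζ n ^ (a : ZMod (p ^ n)).val := by
  classical
  have hne : NeZero (p ^ n) := ⟨pow_ne_zero _ (Fact.out : p.Prime).ne_zero⟩
  have hp := (Fact.out : p.Prime)
  let S : Finset (ZMod (p ^ n))ˣ := Finset.univ.filter fun a =>
    ∃ σ ∈ D.G, σ (D.ζ n) = D.ζ n ^ (a : ZMod (p ^ n)).val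
  have hS : ∀ b, b ∈ S ↔ ∃ σ ∈ D.G, σ (D.ζ n) = D.ζ n ^ (b : ZMod (p ^ n)).val := by
    intro b
    simp [S]
  suffices h : S = Finset.univ by
    exact (hS a).1 (h ▸ Finset.mem_univ a)
  have h1S : (1 : (ZMod (p ^ n))ˣ) ∈ S := by
    rw [hS]
    refine ⟨1, D.G.one_mem, ?_⟩
    rw [Units.val_one]
    have h1 : (1 : ZMod (p ^ n)).val = 1 := by
      have : Fact (1 < p ^ n) := ⟨Nat.one_lt_pow (by omega) hp.one_lt⟩
      exact ZMod.val_one _
    rw [h1, pow_one]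
    rfl
  have hmul : ∀ σ ∈ D.G, ∀ c : (ZMod (p ^ n))ˣ, σ (D.ζ n) = D.ζ n ^ (c : ZMod (p ^ n)).val → ∀ b ∈ S, c * b ∈ S := by
    intro σ hσ c hc b hb
    rw [hS] at hb ⊢
    obtain ⟨τ, hτ, hb⟩ := hb
    refine ⟨σ * τ, D.G.mul_mem hσ hτ, ?_⟩
    show σ (τ (D.ζ n)) = _
    rw [hb, map_pow, hc, c6_mul, Units.val_mul]
  let P : L := ∏ b ∈ S, (D.ζ n ^ (b : ZMod (p ^ n)).val - 1)
  have hPk : P ∈ D.k := by
    apply D.gfix
    intro σ hσ
    obtain ⟨u, hu, -, huζ⟩ := D.gal σ hσ n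
    obtain ⟨c, hc⟩ := hu.map (D.nm n)
    rw [← hc] at huζ
    have himg : S.image (fun b => c * b) = S := by
      apply Finset.eq_of_subset_of_card_le
      · intro b hb
        rw [Finset.mem_image] at hb
        obtain ⟨b', hb', rfl⟩ := hb
        exact hmul σ hσ c huζ b' hb'
      · rw [Finset.card_image_of_injective _ (mul_right_injective c)]
    calc σ P = ∏ b ∈ S, (D.ζ n ^ ((c * b : (ZMod (p ^ n))ˣ) : ZMod (p ^ n)).val - 1) := by
          rw [map_prod]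
          refine Finset.prod_congr rfl fun b _ => ?_
          rw [map_sub, map_pow, map_one, huζ, c6_mul, Units.val_mul]
      _ = ∏ b ∈ S.image (fun b => c * b), (D.ζ n ^ (b : ZMod (p ^ n)).val - 1) := by
          rw [Finset.prod_image fun x _ y _ h => mul_right_injective c h]
      _ = P := by rw [himg]
  obtain ⟨h0, h1⟩ := phi_pos D n hn
  have hPn : ‖P‖ = ‖D.ζ n - 1‖ ^ S.card := by
    rw [show ‖P‖ = ∏ b ∈ S, ‖D.ζ n ^ (b : ZMod (p ^ n)).val - 1‖ from norm_prod _ _,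
      Finset.prod_congr rfl fun b _ => c6_norm D n hn b, Finset.prod_const]
  have hP0 : P ≠ 0 := by
    rw [← norm_pos_iff, hPn]
    exact pow_pos h0 _
  obtain ⟨z, hz⟩ := D.kval P hPk hP0
  rw [hPn, ← phi_e D n hn, ← zpow_natCast, ← zpow_natCast, ← zpow_mul] at hz
  have hz' := zpow_right_injective₀ h0 h1.ne hz
  have hcard : Fintype.card (ZMod (p ^ n))ˣ = p ^ (n - 1) * (p - 1) := by
    rw [ZMod.card_units_eq_totient, Nat.totient_prime_pow hp (by omega)]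
  have hSc : 0 < S.card := Finset.card_pos.2 ⟨1, h1S⟩
  have hdvd : p ^ (n - 1) * (p - 1) ∣ S.card := by
    have h3 : ((p ^ (n - 1) * (p - 1) : ℕ) : ℤ) ∣ (S.card : ℤ) := ⟨z, hz'⟩
    exact Int.natCast_dvd_natCast.1 h3
  have hle := Nat.le_of_dvd hSc hdvd
  rw [← hcard] at hle
  exact Finset.eq_univ_of_card S (le_antisymm (Finset.card_le_univ S) hle)


end SSF
end

-- from Lib.SSG.F.C9
section

/-! # SSG/F/C9 : the rings `O n` -/

open Polynomial

namespace SSF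

variable {p : ℕ} [Fact p.Prime] {R : ℕ → Type} [∀ N, CommRing (R N)] [∀ N, Fintype (R N)]
  {L : Type} [NormedField L] [IsUltrametricDist L] (D : LTD p R L)

theorem c9_pow (n : ℕ) (x y : ZMod (p ^ n)) : (D.ζ n ^ x.val) ^ y.val = D.ζ n ^ (x * y).val := by
  have hp : NeZero (p ^ n) := ⟨pow_ne_zero _ (Fact.out : p.Prime).ne_zero⟩
  rw [ZMod.val_mul, ← pow_mul]
  exact pow_eq_pow_mod _ (D.ζprim n).pow_eq_one

/-- elements of `O n` are equivariant: `σ (B(ζ^a)) = B(ζ^(c a))` as `σ` fixes the coefficients of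
`B` (`D.gk`) (`Polynomial.hom_eval₂`; exponents mod `p^n`). -/
theorem Eqv_of_mem (n : ℕ) (f : (ZMod (p ^ n))ˣ → L) (hf : f ∈ D.O n) : D.Eqv n f := by
  obtain ⟨B, hB⟩ := hf
  intro σ hσ c hc a
  rw [hB, hB]
  unfold LTD.ev
  have h1 := Polynomial.hom_eval₂ B D.W.subtype (σ : L →+* L) (D.ζ n ^ (a : ZMod (p ^ n)).val)
  have h2 : (σ : L →+* L).comp D.W.subtype = D.W.subtype := by
    ext x
    exact D.gk σ hσ _ x.2.1
  have h3 : (σ : L →+* L) (D.ζ n ^ (a : ZMod (p ^ n)).val) = D.ζ n ^ ((c * a : (ZMod (p ^ n))ˣ) : ZMod (p ^ n)).val := by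
    rw [map_pow, Units.val_mul, ← c9_pow D]
    exact congrArg (· ^ (a : ZMod (p ^ n)).val) hc
  rw [h2, h3] at h1
  exact h1

/-- values of elements of `O n` have norm `≤ 1` (ultrametric, coefficients in `W`, roots of unity)
and all conjugates have the same norm (`Eqv_of_mem`, `gal_cyc`, `D.giso`). -/
theorem O_norm (n : ℕ) (hn : 1 ≤ n) (f : (ZMod (p ^ n))ˣ → L) (hf : f ∈ D.O n)
    (a : (ZMod (p ^ n))ˣ) : ‖f a‖ ≤ 1 ∧ ‖f a‖ = ‖f 1‖ := by
  constructor
  · obtain ⟨B, hB⟩ := hf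
    rw [hB]
    unfold LTD.ev
    rw [Polynomial.eval₂_eq_sum_range]
    apply IsUltrametricDist.norm_sum_le_of_forall_le_of_nonneg zero_le_one
    intro i _
    have h1 : ‖D.ζ n‖ = 1 := by
      have hp : NeZero (p ^ n) := ⟨pow_ne_zero _ (Fact.out : p.Prime).ne_zero⟩
      have h2 : ‖D.ζ n‖ ^ (p ^ n) = 1 := by rw [← norm_pow, (D.ζprim n).pow_eq_one, norm_one]
      exact (pow_eq_one_iff_of_nonneg (norm_nonneg _) hp.out).1 h2
    rw [norm_mul, norm_pow, norm_pow, h1, one_pow, one_pow, mul_one]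
    exact (B.coeff i).2.2
  · obtain ⟨σ, hσ, h1⟩ := gal_cyc D n hn a
    have h2 := Eqv_of_mem D n f hf σ hσ a h1 1
    rw [mul_one] at h2
    rw [← h2]
    exact D.giso σ hσ _

end SSF
end

-- from Lib.SSG.F.C9B
section

/-! # SSG/F/C9B : equivariant functions of norm `≤ 1` -/

open Polynomial

namespace SSF

variable {p : ℕ} [Fact p.Prime] {R : ℕ → Type} [∀ N, CommRing (R N)] [∀ N, Fintype (R N)]
  {L : Type} [NormedField L] [IsUltrametricDist L] (D : LTD p R L)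

/-- Conversely: equivariant and of norm `≤ 1` implies in `O n`. PROOF. `interp` with
`V = (ZMod (p^n))ˣ`, `y a = ζ^a - 1`, the given `f`; for `σ ∈ G` with `σ ζ = ζ^c`
(`D.gal`, `c = nm u`, a unit) `π a = c a`. `E = card V = p^(n-1)(p-1)` (`phi_e` at `y 1`,
`ZMod.card_units_eq_totient`, `Nat.totient_prime_pow`). `lift_W` at `y 1 = φ_n` gives `B` over `W`
with `B(ζ^a - 1) = f a`; compose with `X - 1` (`Polynomial.eval₂_comp`). -/
theorem mem_O_of_Eqv (n : ℕ) (hn : 1 ≤ n) (f : (ZMod (p ^ n))ˣ → L) (hf : D.Eqv n f)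
    (h1 : ‖f 1‖ ≤ 1) : f ∈ D.O n := by
  classical
  have hp : NeZero (p ^ n) := ⟨pow_ne_zero _ (Fact.out : p.Prime).ne_zero⟩
  have hpp : p.Prime := Fact.out
  have hy : Function.Injective (fun a : (ZMod (p ^ n))ˣ => D.ζ n ^ (a : ZMod (p ^ n)).val - 1) := by
    intro a b h
    have h2 : D.ζ n ^ (a : ZMod (p ^ n)).val = D.ζ n ^ (b : ZMod (p ^ n)).val := sub_left_inj.1 h
    have h3 := (D.ζprim n).pow_inj (ZMod.val_lt _) (ZMod.val_lt _) h2
    exact Units.ext (ZMod.val_injective _ h3)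
  obtain ⟨P, hP1, hP2, hP3⟩ := interp D (ZMod (p ^ n))ˣ
    (fun a => D.ζ n ^ (a : ZMod (p ^ n)).val - 1) f hy (by
      intro σ hσ
      obtain ⟨u, hu, hX, hz⟩ := D.gal σ hσ n
      set c : (ZMod (p ^ n))ˣ := (hu.map (D.nm n)).unit with hc
      have hcv : (c : ZMod (p ^ n)) = D.nm n u := IsUnit.unit_spec _
      refine ⟨fun a => c * a, ?_, ?_, ?_⟩
      · intro w
        exact ⟨c⁻¹ * w, by simp⟩
      · intro a
        show σ (D.ζ n ^ (a : ZMod (p ^ n)).val - 1) = D.ζ n ^ ((c * a : (ZMod (p ^ n))ˣ) : ZMod (p ^ n)).val - 1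
        rw [map_sub, map_one, map_pow, hz, Units.val_mul, ← hcv, c9_pow]
      · intro a
        exact hf σ hσ c (by rw [hcv]; exact hz) a)
  have hcard : Fintype.card (ZMod (p ^ n))ˣ = p ^ (n - 1) * (p - 1) := by
    rw [ZMod.card_units_eq_totient, Nat.totient_prime_pow hpp hn]
  have hE : 0 < p ^ (n - 1) * (p - 1) := Nat.mul_pos (pow_pos hpp.pos _) (by have := hpp.two_le; omega)
  rw [hcard] at hP1
  have h1v : ((1 : (ZMod (p ^ n))ˣ) : ZMod (p ^ n)).val = 1 := by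
    have : Fact (1 < p ^ n) := ⟨Nat.one_lt_pow (by omega) hpp.one_lt⟩
    rw [Units.val_one, ZMod.val_one]
  obtain ⟨B, hB1, hB2⟩ := lift_W D P _ hE hP1 hP2 (D.ζ n - 1) (phi_e D n hn) (by
    have := hP3 1
    simp only [h1v, pow_one] at this
    rw [this]
    exact h1)
  refine ⟨B.comp (Polynomial.X - 1), ?_⟩
  intro a
  unfold LTD.ev
  rw [Polynomial.eval₂_comp, ← hP3 a, ← hB1, Polynomial.eval_map]
  simp

end SSF
end

-- from Lib.SSG.F.C10
section

/-! # SSG/F/C10 : division by powers of `φ` -/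

open Polynomial

namespace SSF

variable {p : ℕ} [Fact p.Prime] {R : ℕ → Type} [∀ N, CommRing (R N)] [∀ N, Fintype (R N)]
  {L : Type} [NormedField L] [IsUltrametricDist L] (D : LTD p R L)

theorem c10_phi_mem (n : ℕ) : D.φ n ∈ D.O n := by
  refine ⟨Polynomial.X - 1, fun a => ?_⟩
  simp [LTD.φ, LTD.ev]

theorem c10_phi_one (n : ℕ) (hn : 1 ≤ n) : D.φ n 1 = D.ζ n - 1 := by
  unfold LTD.φ
  haveI : Fact (1 < p ^ n) := ⟨Nat.one_lt_pow (by omega) (Fact.out : p.Prime).one_lt⟩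
  rw [Units.val_one, ZMod.val_one, pow_one]

theorem c10_phi_norm (n : ℕ) (hn : 1 ≤ n) (a : (ZMod (p ^ n))ˣ) : ‖D.φ n a‖ = ‖D.ζ n - 1‖ := by
  rw [(O_norm D n hn _ (c10_phi_mem D n) a).2, c10_phi_one D n hn]

/-- Division by powers of `φ`. PROOF. `f' = f / φ^m` (pointwise; `φ a ≠ 0`) is equivariant
(`Eqv_of_mem` for `f`; `φ` is equivariant) and `‖f' 1‖ ≤ 1`; `mem_O_of_Eqv`. -/
theorem O_div (n : ℕ) (hn : 1 ≤ n) (m : ℕ) (f : (ZMod (p ^ n))ˣ → L) (hf : f ∈ D.O n)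
    (h : ‖f 1‖ ≤ ‖D.ζ n - 1‖ ^ m) : ∃ f' ∈ D.O n, f = D.φ n ^ m * f' := by
  have hφn := c10_phi_norm D n hn
  have hpos := (phi_pos D n hn).1
  have hφ0 : ∀ a, D.φ n a ≠ 0 := fun a h0 => by
    have := hφn a
    rw [h0, norm_zero] at this
    linarith
  have hφe := Eqv_of_mem D n _ (c10_phi_mem D n)
  have hfe := Eqv_of_mem D n f hf
  refine ⟨fun a => f a / D.φ n a ^ m, ?_, ?_⟩
  · apply mem_O_of_Eqv D n hn
    · intro σ hσ c hc a
      change σ (f a / D.φ n a ^ m) = f (c * a) / D.φ n (c * a) ^ m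
      rw [map_div₀, map_pow, hφe σ hσ c hc a, hfe σ hσ c hc a]
    · change ‖f 1 / D.φ n 1 ^ m‖ ≤ 1
      rw [norm_div, norm_pow, hφn]
      exact div_le_one_of_le₀ h (by positivity)
  · funext a
    change f a = D.φ n a ^ m * (f a / D.φ n a ^ m)
    rw [mul_div_cancel₀ _ (pow_ne_zero _ (hφ0 a))]

end SSF
end

-- from Lib.SSG.F.C13
section

/-! # SSG/F/C13 : `T` is in `O n` -/

open Polynomial

namespace SSF

variable {p : ℕ} [Fact p.Prime] {R : ℕ → Type} [∀ N, CommRing (R N)] [∀ N, Fintype (R N)]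
  {L : Type} [NormedField L] [IsUltrametricDist L] (D : LTD p R L)

theorem c13_ev_gal (h : D.W[X]) (σ : RingAut L) (hσ : σ ∈ D.G) (x : L) :
    σ (D.ev h x) = D.ev h (σ x) := by
  unfold LTD.ev
  have h1 : σ (eval₂ D.W.subtype x h) = eval₂ ((σ : L →+* L).comp D.W.subtype) (σ x) h :=
    hom_eval₂ h D.W.subtype (σ : L →+* L) x
  have h2 : (σ : L →+* L).comp D.W.subtype = D.W.subtype := by
    ext w
    exact D.gk σ hσ _ w.2.1
  rw [h1, h2]

theorem c13_ev_norm (h : D.W[X]) (x : L) (hx : ‖x‖ ≤ 1) : ‖D.ev h x‖ ≤ 1 := by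
  unfold LTD.ev
  rw [eval₂_eq_sum_range]
  apply IsUltrametricDist.norm_sum_le_of_forall_le_of_nonneg zero_le_one
  intro i _
  rw [norm_mul, norm_pow]
  exact mul_le_one₀ (h.coeff i).2.2 (by positivity) (pow_le_one₀ (norm_nonneg _) hx)

/-- `T` is in `O n`. PROOF. Equivariance: for `σ ∈ G` with `σ ζ = ζ^c` let `u` be its unit
(`D.gal`), so `nm u = c` (primitive root), and `σ (T n a h) = sum over nm x = a of ev h (X (u x))
= T n (c a) h` (reindex by `x ↦ u x`, a bijection from norm `a` to norm `c a`; `σ` fixes the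
coefficients of `h`). Norm `≤ 1`: each `X x`, `x` a unit, has norm `< 1` (`norm_X_lt`, `n = m+1`;
`nm x = 1` implies `x` unit by `D.nmu`). `mem_O_of_Eqv`. -/
theorem Tf_mem (n : ℕ) (hn : 1 ≤ n) (h : D.W[X]) : D.Tf n h ∈ D.O n := by
  classical
  haveI : NeZero (p ^ n) := ⟨pow_ne_zero _ (Fact.out : p.Prime).ne_zero⟩
  apply mem_O_of_Eqv D n hn
  · intro σ hσ c hc a
    obtain ⟨u, hu, hX, hζ⟩ := D.gal σ hσ n
    have hnu : D.nm n u = (c : ZMod (p ^ n)) := by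
      rw [hc] at hζ
      exact (ZMod.val_injective _ ((D.ζprim n).pow_inj (ZMod.val_lt _) (ZMod.val_lt _) hζ)).symm
    unfold LTD.Tf LTD.T
    rw [map_sum]
    refine Finset.sum_bij' (fun x _ => u * x) (fun y _ => hu.unit⁻¹ * y) ?_ ?_ ?_ ?_ ?_
    · intro x hx
      rw [Finset.mem_filter] at hx ⊢
      refine ⟨Finset.mem_univ _, ?_⟩
      rw [map_mul, hnu, hx.2, Units.val_mul]
    · intro y hy
      rw [Finset.mem_filter] at hy ⊢
      refine ⟨Finset.mem_univ _, ?_⟩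
      have h1 : D.nm n u * D.nm n (hu.unit⁻¹ * y) = D.nm n u * (a : ZMod (p ^ n)) := by
        rw [← map_mul, ← mul_assoc, IsUnit.mul_val_inv, one_mul, hy.2, hnu, Units.val_mul]
      exact (hu.map (D.nm n)).mul_left_cancel h1
    · intro x _
      change (hu.unit⁻¹ : (R n)ˣ) * (u * x) = x
      rw [← mul_assoc, IsUnit.val_inv_mul, one_mul]
    · intro y _
      change u * ((hu.unit⁻¹ : (R n)ˣ) * y) = y
      rw [← mul_assoc, IsUnit.mul_val_inv, one_mul]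
    · intro x _
      rw [c13_ev_gal D h σ hσ, hX]
  · unfold LTD.Tf LTD.T
    apply IsUltrametricDist.norm_sum_le_of_forall_le_of_nonneg zero_le_one
    intro x hx
    rw [Finset.mem_filter] at hx
    have hxu : IsUnit x := by
      apply D.nmu n x
      rw [hx.2]
      exact Units.isUnit _
    obtain ⟨k, rfl⟩ : ∃ k, n = k + 1 := ⟨n - 1, by omega⟩
    exact c13_ev_norm D h _ (norm_X_lt D k x hxu).le

end SSF
end

-- from Lib.SSG.F.C12
section

/-! # SSG/F/C12 : gaps of the norm on `O n` -/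

open Polynomial

namespace SSF

variable {p : ℕ} [Fact p.Prime] {R : ℕ → Type} [∀ N, CommRing (R N)] [∀ N, Fintype (R N)]
  {L : Type} [NormedField L] [IsUltrametricDist L] (D : LTD p R L)

theorem c12_phi_mem (n : ℕ) : D.φ n ∈ D.O n := by
  refine ⟨Polynomial.X - 1, fun a => ?_⟩
  simp [LTD.φ, LTD.ev]

theorem c12_phi_one (n : ℕ) (hn : 1 ≤ n) : D.φ n 1 = D.ζ n - 1 := by
  unfold LTD.φ
  haveI : Fact (1 < p ^ n) := ⟨Nat.one_lt_pow (by omega) (Fact.out : p.Prime).one_lt⟩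
  rw [Units.val_one, ZMod.val_one, pow_one]

theorem c12_phi_inj (n : ℕ) : Function.Injective (D.φ n) := by
  intro a b hab
  haveI : NeZero (p ^ n) := ⟨pow_ne_zero _ (Fact.out : p.Prime).ne_zero⟩
  unfold LTD.φ at hab
  have h1 : D.ζ n ^ (a : ZMod (p ^ n)).val = D.ζ n ^ (b : ZMod (p ^ n)).val := by
    linear_combination hab
  have h2 := (D.ζprim n).pow_inj (ZMod.val_lt _) (ZMod.val_lt _) h1
  exact Units.ext (ZMod.val_injective _ h2)

/-- The values of the norm on `O n` are powers of `‖φ_n‖`. PROOF. Write `f 1 = B'(φ_n)` with `B'` of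
degree `< E` over `k` (as in `mem_O_of_Eqv`: `interp`), `basis_norm` (second part):
`‖f 1‖ = ‖a_i‖ ‖φ_n‖^i = ‖φ_n‖^(E j + i)` with `‖a_i‖ = ‖p‖^j = ‖φ_n‖^(E j)`, `j ∈ ℤ`; as
`‖f 1‖ ≤ 1` the exponent is `≥ 0`. Hence an element of norm `< ‖φ_n‖^m` has norm
`≤ ‖φ_n‖^(m+1)`. -/
theorem O_gap (n : ℕ) (hn : 1 ≤ n) (m : ℕ) (f : (ZMod (p ^ n))ˣ → L) (hf : f ∈ D.O n)
    (h : ‖f 1‖ < ‖D.ζ n - 1‖ ^ m) : ‖f 1‖ ≤ ‖D.ζ n - 1‖ ^ (m + 1) := by
  have hpos := (phi_pos D n hn).1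
  have hlt := (phi_pos D n hn).2
  have hφe := Eqv_of_mem D n _ (c12_phi_mem D n)
  have hfe := Eqv_of_mem D n f hf
  haveI : NeZero (p ^ n) := ⟨pow_ne_zero _ (Fact.out : p.Prime).ne_zero⟩
  obtain ⟨P, hPd, hPk, hP⟩ := interp D (ZMod (p ^ n))ˣ (D.φ n) f (c12_phi_inj D n) (by
    intro σ hσ
    obtain ⟨u, hu, -, hζ⟩ := D.gal σ hσ n
    obtain ⟨c, hc⟩ : ∃ c : (ZMod (p ^ n))ˣ, (c : ZMod (p ^ n)) = D.nm n u :=
      ⟨(hu.map (D.nm n)).unit, IsUnit.unit_spec _⟩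
    have hζ' : σ (D.ζ n) = D.ζ n ^ (c : ZMod (p ^ n)).val := by rw [hc, hζ]
    exact ⟨fun v => c * v, fun v => ⟨c⁻¹ * v, by simp⟩, fun v => hφe σ hσ c hζ' v,
      fun v => hfe σ hσ c hζ' v⟩)
  have hcard : Fintype.card (ZMod (p ^ n))ˣ = p ^ (n - 1) * (p - 1) := by
    rw [ZMod.card_units_eq_totient, Nat.totient_prime_pow (Fact.out : p.Prime) (by omega)]
  rw [hcard] at hPd
  set E := p ^ (n - 1) * (p - 1) with hE
  have hp2 := (Fact.out : p.Prime).two_le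
  have hE0 : 0 < E := Nat.mul_pos (pow_pos (by omega) _) (by omega)
  have hnat : P.natDegree < E := by
    rcases eq_or_ne P 0 with h0 | h0
    · rw [h0, natDegree_zero]; exact hE0
    · exact (natDegree_lt_iff_degree_lt h0).2 hPd
  have hf1 : f 1 = ∑ j ∈ Finset.range E, P.coeff j * (D.ζ n - 1) ^ j := by
    rw [← hP 1, c12_phi_one D n hn, eval_eq_sum_range' hnat]
  obtain ⟨i, hi, hval⟩ := (basis_norm D (D.ζ n - 1) E hE0 (phi_e D n hn) P.coeff hPk).2
  rw [← hf1] at hval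
  by_cases ha : P.coeff i = 0
  · rw [hval, ha, norm_zero, zero_mul]
    positivity
  · obtain ⟨j, hj⟩ := D.kval _ (hPk i) ha
    have h3 : ‖f 1‖ = ‖D.ζ n - 1‖ ^ ((E : ℤ) * j + i) := by
      rw [hval, hj, ← phi_e D n hn, zpow_add₀ hpos.ne', zpow_mul, zpow_natCast, zpow_natCast]
    rw [h3, ← zpow_natCast] at h
    rw [h3, ← zpow_natCast]
    have h4 := (zpow_lt_zpow_iff_right_of_lt_one₀ hpos hlt).1 h
    apply zpow_le_zpow_right_of_le_one₀ hpos hlt.le
    push_cast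
    omega

end SSF
end

-- from Lib.SSG.F.C8
section

/-! # SSG/F/C8 : `w` exists -/

open Polynomial

namespace SSF

variable {p : ℕ} [Fact p.Prime] {R : ℕ → Type} [∀ N, CommRing (R N)] [∀ N, Fintype (R N)]
  {L : Type} [NormedField L] [IsUltrametricDist L] (D : LTD p R L)

theorem c8_pow (n : ℕ) (x y : ZMod (p ^ n)) : (D.ζ n ^ x.val) ^ y.val = D.ζ n ^ (x * y).val := by
  have hp : NeZero (p ^ n) := ⟨pow_ne_zero _ (Fact.out : p.Prime).ne_zero⟩
  rw [ZMod.val_mul, ← pow_mul]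
  exact pow_eq_pow_mod _ (D.ζprim n).pow_eq_one

/-- `w` exists. PROOF. `interp` with `V` = units of `R (N+1)` (the subtype), `y = X`,
`f v = ζ ^ (nm v).val`; for `σ ∈ G` with its unit `u` (`D.gal`) `π v = u v` and
`σ (ζ^(nm v)) = ζ^(nm u nm v)` (exponents mod `p^(N+1)`). `card V = E` (`card_units`). Then
`lift_W` with `y = X 1` (`norm_X`), the value is a root of unity. -/
theorem exists_w (N : ℕ) : ∃ w : D.W[X], D.IsW (N + 1) w := by
  classical
  have hp : NeZero (p ^ (N + 1)) := ⟨pow_ne_zero _ (Fact.out : p.Prime).ne_zero⟩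
  have hp2 := (Fact.out : p.Prime).two_le
  have hy : Function.Injective (fun v : {x : R (N + 1) // IsUnit x} => D.X (N + 1) v.1) :=
    fun a b h => Subtype.ext (D.Xinj (N + 1) h)
  obtain ⟨P, hP1, hP2, hP3⟩ := interp D {x : R (N + 1) // IsUnit x} (fun v => D.X (N + 1) v.1)
    (fun v => D.ζ (N + 1) ^ (D.nm (N + 1) v.1).val) hy (by
      intro σ hσ
      obtain ⟨u, hu, hX, hz⟩ := D.gal σ hσ (N + 1)
      refine ⟨fun v => ⟨u * v.1, hu.mul v.2⟩, ?_, fun v => hX v.1, ?_⟩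
      · intro w
        refine ⟨⟨↑(hu.unit⁻¹) * w.1, (Units.isUnit _).mul w.2⟩, ?_⟩
        apply Subtype.ext
        show u * (↑(hu.unit⁻¹) * w.1) = w.1
        rw [← mul_assoc]
        have : u * ↑(hu.unit⁻¹) = 1 := by
          have := hu.unit.mul_inv
          rwa [IsUnit.unit_spec] at this
        rw [this, one_mul]
      · intro v
        show σ (D.ζ (N + 1) ^ (D.nm (N + 1) v.1).val) = D.ζ (N + 1) ^ (D.nm (N + 1) (u * v.1)).val
        rw [map_mul, map_pow, hz, c8_pow])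
  have hcard : Fintype.card {x : R (N + 1) // IsUnit x} = p ^ (2 * N) * (p ^ 2 - 1) := by
    rw [← Nat.card_eq_fintype_card]
    exact card_units D N
  have hE : 0 < p ^ (2 * N) * (p ^ 2 - 1) := by
    apply Nat.mul_pos (pow_pos (by omega) _)
    have : 2 * 2 ≤ p ^ 2 := by nlinarith
    omega
  have h1 : ‖D.ζ (N + 1)‖ = 1 := by
    have h2 : ‖D.ζ (N + 1)‖ ^ (p ^ (N + 1)) = 1 := by rw [← norm_pow, (D.ζprim _).pow_eq_one, norm_one]
    exact (pow_eq_one_iff_of_nonneg (norm_nonneg _) hp.out).1 h2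
  rw [hcard] at hP1
  obtain ⟨B, hB1, hB2⟩ := lift_W D P _ hE hP1 hP2 (D.X (N + 1) 1) (norm_X D N 1 isUnit_one) (by
    have := hP3 ⟨1, isUnit_one⟩
    simp only at this
    rw [this, norm_pow, h1, one_pow])
  refine ⟨B, ?_, ?_⟩
  · rw [Nat.add_sub_cancel]
    exact hB2
  · intro x hx
    have := hP3 ⟨x, hx⟩
    simp only at this
    rw [← this, ← hB1, Polynomial.eval_map]
    rfl

end SSF
end

-- from Lib.SSG.F.L2A
section

/-! # SSG/F/L2A : Gauss sums -/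

open Polynomial
open scoped Classical

namespace SSF

variable {p : ℕ} [Fact p.Prime] {R : ℕ → Type} [∀ N, CommRing (R N)] [∀ N, Fintype (R N)]
  {L : Type} [NormedField L] [IsUltrametricDist L] (D : LTD p R L)

omit [IsUltrametricDist L] in
theorem l2a_one (N : ℕ) : D.ζ N ^ (p ^ N) = 1 := (D.ζprim N).pow_eq_one

/-- the additive character -/
noncomputable def l2a_e (N : ℕ) : AddChar (ZMod (p ^ N)) L := AddChar.zmodChar (p ^ N) (l2a_one D N)

omit [IsUltrametricDist L] in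
theorem l2a_tau (N : ℕ) (χ : DirichletCharacter L (p ^ N)) :
    D.tau N χ = gaussSum χ (l2a_e D N) := rfl

omit [IsUltrametricDist L] in
theorem l2a_prim (N : ℕ) : (l2a_e D N).IsPrimitive :=
  AddChar.zmodChar_primitive_of_primitive_root (p ^ N) (D.ζprim N)

omit [IsUltrametricDist L] in
/-- The Gauss sum formula. PROOF. With `e = AddChar.zmodChar (p^N) _` (`e a = ζ^(a.val)`)
`D.tau N χ = gaussSum χ e`, and `gaussSum_mulShift_of_isPrimitive` (Mathlib) for `(v : ZMod (p^N))`: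
`sum_a χ(a) e(v a) = χ⁻¹(v) gaussSum χ e`. The sum over all `a` is the sum over the units, as `χ`
vanishes on the others (`MulChar.map_nonunit`); `e (v a) = ζ^(a.val v)`. -/
theorem l2a_gauss (N : ℕ) (χ : DirichletCharacter L (p ^ N)) (hχ : χ.IsPrimitive) (v : ℕ) :
    ∑ a : (ZMod (p ^ N))ˣ, χ (a : ZMod (p ^ N)) * D.ζ N ^ ((a : ZMod (p ^ N)).val * v) =
      χ⁻¹ (v : ZMod (p ^ N)) * D.tau N χ := by
  rw [l2a_tau, ← gaussSum_mulShift_of_isPrimitive (l2a_e D N) hχ (v : ZMod (p ^ N))]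
  unfold gaussSum
  have h1 : ∀ a : ZMod (p ^ N), AddChar.mulShift (l2a_e D N) (v : ZMod (p ^ N)) a =
      D.ζ N ^ (a.val * v) := by
    intro a
    rw [AddChar.mulShift_apply]
    have h2 : (v : ZMod (p ^ N)) * a = ((a.val * v : ℕ) : ZMod (p ^ N)) := by
      rw [Nat.cast_mul, ZMod.natCast_zmod_val, mul_comm]
    rw [h2]
    exact AddChar.zmodChar_apply' (l2a_one D N) _
  simp only [h1]
  symm
  have h3 : ∀ a : ZMod (p ^ N), a ∉ Set.range ((↑) : (ZMod (p ^ N))ˣ → ZMod (p ^ N)) →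
      χ a * D.ζ N ^ (a.val * v) = 0 := by
    intro a ha
    rw [χ.map_nonunit (fun hu => ha ⟨hu.unit, rfl⟩), zero_mul]
  exact (Fintype.sum_of_injective (fun a : (ZMod (p ^ N))ˣ => (a : ZMod (p ^ N)))
    Units.val_injective _ _ h3 (fun _ => rfl)).symm

theorem gauss (N : ℕ) (χ : DirichletCharacter L (p ^ N)) (hχ : χ.IsPrimitive) (v : ℕ) :
    ∑ a : (ZMod (p ^ N))ˣ, χ (a : ZMod (p ^ N)) * D.ζ N ^ ((a : ZMod (p ^ N)).val * v) =
      χ⁻¹ (v : ZMod (p ^ N)) * D.tau N χ :=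
  l2a_gauss D N χ hχ v

/-- `tau χ tau χ⁻¹ χ(-1) = p^N`. -/
theorem tau_mul (N : ℕ) (χ : DirichletCharacter L (p ^ N)) (hχ : χ.IsPrimitive) :
    D.tau N χ * D.tau N χ⁻¹ * χ (-1) = (p : L) ^ N := by
  have hm1 : χ⁻¹ (-1) = χ (-1) := by
    have h1 : χ (-1) * χ (-1) = 1 := by rw [← map_mul]; simp
    have h2 : χ (-1) * χ⁻¹ (-1) = 1 := by
      rw [← MulChar.mul_apply, mul_inv_cancel]
      exact MulChar.one_apply isUnit_one.neg
    have h3 : χ (-1) ≠ 0 := fun h => by rw [h, zero_mul] at h1; exact zero_ne_one h1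
    exact mul_left_cancel₀ h3 (h2.trans h1.symm)
  have hb : ∀ b : ZMod (p ^ N), χ⁻¹ b * l2a_e D N b * (D.tau N χ * χ (-1)) =
      ∑ a : ZMod (p ^ N), χ a * l2a_e D N (b * (1 - a)) := by
    intro b
    have h1 := gaussSum_mulShift_of_isPrimitive (l2a_e D N) hχ (-b)
    have h2 : χ⁻¹ (-b) = χ⁻¹ b * χ (-1) := by
      rw [← hm1, ← map_mul]; simp
    rw [h2] at h1
    have h3 : χ⁻¹ b * l2a_e D N b * (D.tau N χ * χ (-1)) =
        l2a_e D N b * (χ⁻¹ b * χ (-1) * gaussSum χ (l2a_e D N)) := by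
      rw [l2a_tau]; ring
    rw [h3, ← h1]
    unfold gaussSum
    rw [Finset.mul_sum]
    refine Finset.sum_congr rfl fun a _ => ?_
    rw [AddChar.mulShift_apply]
    have h4 : b * (1 - a) = b + -b * a := by ring
    rw [h4, AddChar.map_add_eq_mul]
    ring
  have h5 : D.tau N χ * D.tau N χ⁻¹ * χ (-1) =
      ∑ b : ZMod (p ^ N), χ⁻¹ b * l2a_e D N b * (D.tau N χ * χ (-1)) := by
    rw [← Finset.sum_mul]
    have : ∑ b : ZMod (p ^ N), χ⁻¹ b * l2a_e D N b = D.tau N χ⁻¹ := rfl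
    rw [this]; ring
  rw [h5, Finset.sum_congr rfl fun b _ => hb b, Finset.sum_comm]
  have h6 : ∀ a : ZMod (p ^ N), ∑ b : ZMod (p ^ N), χ a * l2a_e D N (b * (1 - a)) =
      if a = 1 then (p : L) ^ N else 0 := by
    intro a
    rw [← Finset.mul_sum, AddChar.sum_mulShift (1 - a) (l2a_prim D N)]
    by_cases ha : a = 1
    · subst ha
      simp [ZMod.card]
    · have : (1 - a : ZMod (p ^ N)) ≠ 0 := fun h => ha (sub_eq_zero.1 h).symm
      simp [this, ha]
  rw [Finset.sum_congr rfl fun a _ => h6 a]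
  simp

/-- from `tau_mul`, `D.hp0`. -/
theorem tau_ne (N : ℕ) (χ : DirichletCharacter L (p ^ N)) (hχ : χ.IsPrimitive) :
    D.tau N χ ≠ 0 := by
  intro h
  have h1 := tau_mul D N χ hχ
  rw [h, zero_mul, zero_mul] at h1
  exact pow_ne_zero N D.hp0 h1.symm

end SSF
end

-- from Lib.SSG.F.L2
section

/-! # SSG/F/L2 : `ell` modulo the maximal ideal -/

open Polynomial
open scoped Classical

namespace SSF

variable {p : ℕ} [Fact p.Prime] {R : ℕ → Type} [∀ N, CommRing (R N)] [∀ N, Fintype (R N)]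
  {L : Type} [NormedField L] [IsUltrametricDist L] (D : LTD p R L)

/-- a `p^n`-th root of unity `z` in `L` satisfies `‖z - 1‖ < 1`: `z^(p^n) - 1 = 0` and
`(z - 1)^(p^n) ≡ z^(p^n) - 1` modulo `p` (binomial coefficients), `‖z‖ = 1`; or `norm_prim` for
the order of `z`. -/
theorem norm_root_lt (n : ℕ) (z : L) (hz : z ^ (p ^ n) = 1) (hp1 : ‖(p : L)‖ < 1) : ‖z - 1‖ < 1 := by
  have hp : p.Prime := Fact.out
  obtain ⟨k, _, hk⟩ := (Nat.dvd_prime_pow hp).1 (orderOf_dvd_of_pow_eq_one hz)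
  rcases k with _ | k
  · rw [pow_zero, orderOf_eq_one_iff] at hk
    rw [hk, sub_self, norm_zero]
    exact one_pos
  · have hprim : IsPrimitiveRoot z (p ^ (k + 1)) := by
      rw [← hk]
      exact IsPrimitiveRoot.orderOf z
    have h1 := norm_prim k z hprim
    by_contra hcon
    push Not at hcon
    have h2 : 1 ≤ ‖z - 1‖ ^ (p ^ k * (p - 1)) := one_le_pow₀ hcon
    rw [h1] at h2
    exact absurd hp1 (not_lt.2 h2)

theorem l2_sum_lt (s : Finset ℕ) (g : ℕ → L) (h : ∀ v ∈ s, ‖g v‖ < 1) : ‖∑ v ∈ s, g v‖ < 1 := by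
  rcases s.eq_empty_or_nonempty with rfl | hne
  · simp
  · obtain ⟨v, hv, hle⟩ := IsUltrametricDist.exists_norm_finsetSum_le s g
    exact hle.trans_lt (h v (hv hne))

/-- `‖ell f - f 1‖ < 1` for `f ∈ O n`. PROOF. `f a = B(ζ_n^a) = sum_v B_v ζ_n^(a v)`, and
`ζ_n^(ā v) = ζ_(n+1)^(p a v)`, so `ell f = sum_v B_v χ⁻¹(i + p v)` by `gauss` (divide by
`tau ≠ 0`, `tau_ne`). `i + p v` is a unit, `χ⁻¹` of it is a `p^n`-th root of unity (`h1`), so
congruent to `1` (`norm_root_lt`); `f 1 = sum B_v ζ_n^v`, `‖ζ_n^v - 1‖ < 1`. So both are congruent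
to `sum B_v`. -/
theorem ell_congr (n : ℕ) (hn : 1 ≤ n) (χ : DirichletCharacter L (p ^ (n + 1)))
    (hχ : χ.IsPrimitive) (h1 : χ ^ (p ^ n) = 1) (i : ℕ) (hi : 1 ≤ i) (hip : i < p)
    (f : (ZMod (p ^ n))ˣ → L) (hf : f ∈ D.O n) : ‖D.ell n χ i f - f 1‖ < 1 := by
  have hp : p.Prime := Fact.out
  obtain ⟨B, hB⟩ := hf
  have hζ : D.ζ (n + 1) ^ p = D.ζ n := D.ζp n
  have hζ1 : D.ζ n ^ (p ^ n) = 1 := (D.ζprim n).pow_eq_one
  have hmap : ∀ a : (ZMod (p ^ (n + 1)))ˣ,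
      D.ζ n ^ (ZMod.unitsMap (pow_dvd_pow p (Nat.le_succ n)) a : ZMod (p ^ n)).val =
        D.ζ (n + 1) ^ (p * (a : ZMod (p ^ (n + 1))).val) := by
    intro a
    rw [pow_mul, hζ]
    rw [ZMod.unitsMap_val, ← ZMod.natCast_val, ZMod.val_natCast]
    exact (pow_eq_pow_mod _ hζ1).symm
  have hf1 : ∀ a : (ZMod (p ^ (n + 1)))ˣ, f (ZMod.unitsMap (pow_dvd_pow p (Nat.le_succ n)) a) =
      ∑ v ∈ Finset.range (B.natDegree + 1), (B.coeff v : L) *
        D.ζ (n + 1) ^ ((a : ZMod (p ^ (n + 1))).val * (p * v)) := by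
    intro a
    rw [hB, hmap, LTD.ev, eval₂_eq_sum_range]
    refine Finset.sum_congr rfl fun v _ => ?_
    rw [← pow_mul]
    congr 2
    ring
  have hell : D.ell n χ i f = ∑ v ∈ Finset.range (B.natDegree + 1),
      (B.coeff v : L) * χ⁻¹ ((i + p * v : ℕ) : ZMod (p ^ (n + 1))) := by
    unfold LTD.ell
    have h2 : ∑ a : (ZMod (p ^ (n + 1)))ˣ,
        χ (a : ZMod (p ^ (n + 1))) * D.ζ (n + 1) ^ ((a : ZMod (p ^ (n + 1))).val * i) *
        f (ZMod.unitsMap (pow_dvd_pow p (Nat.le_succ n)) a) =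
        ∑ v ∈ Finset.range (B.natDegree + 1), (B.coeff v : L) *
          (χ⁻¹ ((i + p * v : ℕ) : ZMod (p ^ (n + 1))) * D.tau (n + 1) χ) := by
      calc _ = ∑ a : (ZMod (p ^ (n + 1)))ˣ, ∑ v ∈ Finset.range (B.natDegree + 1),
            (B.coeff v : L) * (χ (a : ZMod (p ^ (n + 1))) *
              D.ζ (n + 1) ^ ((a : ZMod (p ^ (n + 1))).val * (i + p * v))) := by
            refine Finset.sum_congr rfl fun a _ => ?_
            rw [hf1 a, Finset.mul_sum]
            refine Finset.sum_congr rfl fun v _ => ?_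
            have h5 : D.ζ (n + 1) ^ ((a : ZMod (p ^ (n + 1))).val * (i + p * v)) =
                D.ζ (n + 1) ^ ((a : ZMod (p ^ (n + 1))).val * i) *
                D.ζ (n + 1) ^ ((a : ZMod (p ^ (n + 1))).val * (p * v)) := by
              rw [← pow_add, ← mul_add]
            rw [h5]
            ring
        _ = ∑ v ∈ Finset.range (B.natDegree + 1), ∑ a : (ZMod (p ^ (n + 1)))ˣ,
            (B.coeff v : L) * (χ (a : ZMod (p ^ (n + 1))) *
              D.ζ (n + 1) ^ ((a : ZMod (p ^ (n + 1))).val * (i + p * v))) := Finset.sum_comm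
        _ = _ := by
            refine Finset.sum_congr rfl fun v _ => ?_
            rw [← Finset.mul_sum, gauss D (n + 1) χ hχ (i + p * v)]
    rw [h2, Finset.mul_sum]
    refine Finset.sum_congr rfl fun v _ => ?_
    have hne := tau_ne D (n + 1) χ hχ
    field_simp
  have hf11 : f 1 = ∑ v ∈ Finset.range (B.natDegree + 1), (B.coeff v : L) *
      (D.ζ n ^ ((1 : (ZMod (p ^ n))ˣ) : ZMod (p ^ n)).val) ^ v := by
    rw [hB, LTD.ev, eval₂_eq_sum_range]
    rfl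
  rw [hell, hf11, ← Finset.sum_sub_distrib]
  apply l2_sum_lt
  intro v _
  rw [← mul_sub, norm_mul]
  have hBv : ‖(B.coeff v : L)‖ ≤ 1 := (B.coeff v).2.2
  have hunit : IsUnit ((i + p * v : ℕ) : ZMod (p ^ (n + 1))) := by
    rw [ZMod.isUnit_iff_coprime]
    apply Nat.Coprime.pow_right
    rw [Nat.coprime_add_mul_left_left]
    apply Nat.Coprime.symm
    rw [Nat.Prime.coprime_iff_not_dvd hp]
    exact Nat.not_dvd_of_pos_of_lt hi hip
  have hz1 : ‖χ⁻¹ ((i + p * v : ℕ) : ZMod (p ^ (n + 1))) - 1‖ < 1 := by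
    apply norm_root_lt (p := p) n _ _ D.hp1
    rw [← MulChar.pow_apply' χ⁻¹ (pow_ne_zero n hp.ne_zero), inv_pow, h1, inv_one]
    exact MulChar.one_apply hunit
  have hz2 : ‖(D.ζ n ^ ((1 : (ZMod (p ^ n))ˣ) : ZMod (p ^ n)).val) ^ v - 1‖ < 1 := by
    apply norm_root_lt (p := p) n _ _ D.hp1
    rw [← pow_mul, ← pow_mul, mul_comm _ (v * p ^ n), mul_comm v (p ^ n), pow_mul, pow_mul, hζ1,
      one_pow, one_pow]
  have hz3 : ‖χ⁻¹ ((i + p * v : ℕ) : ZMod (p ^ (n + 1))) -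
      (D.ζ n ^ ((1 : (ZMod (p ^ n))ˣ) : ZMod (p ^ n)).val) ^ v‖ < 1 := by
    have h3 : χ⁻¹ ((i + p * v : ℕ) : ZMod (p ^ (n + 1))) -
      (D.ζ n ^ ((1 : (ZMod (p ^ n))ˣ) : ZMod (p ^ n)).val) ^ v =
      (χ⁻¹ ((i + p * v : ℕ) : ZMod (p ^ (n + 1))) - 1) -
      ((D.ζ n ^ ((1 : (ZMod (p ^ n))ˣ) : ZMod (p ^ n)).val) ^ v - 1) := by ring
    rw [h3]
    have h4 := IsUltrametricDist.norm_add_le_max (χ⁻¹ ((i + p * v : ℕ) : ZMod (p ^ (n + 1))) - 1)
      (-((D.ζ n ^ ((1 : (ZMod (p ^ n))ˣ) : ZMod (p ^ n)).val) ^ v - 1))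
    rw [← sub_eq_add_neg, norm_neg] at h4
    exact h4.trans_lt (max_lt hz1 hz2)
  calc _ ≤ 1 * ‖χ⁻¹ ((i + p * v : ℕ) : ZMod (p ^ (n + 1))) -
      (D.ζ n ^ ((1 : (ZMod (p ^ n))ˣ) : ZMod (p ^ n)).val) ^ v‖ :=
        mul_le_mul_of_nonneg_right hBv (norm_nonneg _)
    _ < 1 := by rwa [one_mul]

/-- `ell` is additive and homogeneous (`Finset.sum_add_distrib`, `Finset.mul_sum`). -/
theorem ell_add (n : ℕ) (χ : DirichletCharacter L (p ^ (n + 1))) (i : ℕ)
    (f g : (ZMod (p ^ n))ˣ → L) : D.ell n χ i (f + g) = D.ell n χ i f + D.ell n χ i g := by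
  unfold LTD.ell
  rw [← mul_add, ← Finset.sum_add_distrib]
  congr 1
  refine Finset.sum_congr rfl fun a _ => ?_
  rw [Pi.add_apply, mul_add]

/-- `ell (c f) = c ell f` for a constant `c : L`. -/
theorem ell_smul (n : ℕ) (χ : DirichletCharacter L (p ^ (n + 1))) (i : ℕ) (c : L)
    (f : (ZMod (p ^ n))ˣ → L) : D.ell n χ i (fun a => c * f a) = c * D.ell n χ i f := by
  unfold LTD.ell
  rw [mul_left_comm, Finset.mul_sum (a := c)]
  congr 1
  refine Finset.sum_congr rfl fun a _ => ?_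
  ring

end SSF
end

-- from Lib.SSG.F.X1
section

/-! # SSG/F/X1 : all coordinates have norm `< 1` -/

open Polynomial NumberField
open scoped Classical

namespace SSF

open SSG

variable {F : Type} [Field F] [NumberField F] {p : ℕ} [Fact p.Prime]
  {L₀ : Type} [NormedField L₀] [IsUltrametricDist L₀] (D : LTD p (RF F p) L₀)

/-- the class of an element prime to `p` is a unit -/
theorem x1_unit (hin : (Ideal.span {(p : 𝓞 F)}).IsPrime) (N : ℕ) (a : 𝓞 F)
    (ha : ¬ (p : 𝓞 F) ∣ a) : IsUnit (mkF p N a) := by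
  have hp : p.Prime := Fact.out
  have hne : Ideal.span {(p : 𝓞 F)} ≠ ⊥ := by
    rw [Ne, Ideal.span_singleton_eq_bot]
    exact_mod_cast hp.ne_zero
  have hmax : (Ideal.span {(p : 𝓞 F)}).IsMaximal := Ideal.IsPrime.isMaximal hin hne
  have ha' : a ∉ Ideal.span {(p : 𝓞 F)} := fun h => ha (Ideal.mem_span_singleton.1 h)
  obtain ⟨y, i, hi, hyi⟩ := hmax.exists_inv ha'
  obtain ⟨c, hc⟩ := Ideal.mem_span_singleton.1 hi
  have h1 : mkF p N y * mkF p N a = 1 - mkF p N i := by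
    have h2 : mkF p N (y * a + i) = 1 := by rw [hyi]; exact map_one _
    rw [← h2]
    simp [mkF, map_add, map_mul]
  have h3 : IsNilpotent (mkF p N i) := by
    refine ⟨N, ?_⟩
    have h4 : mkF p N i ^ N = mkF p N (i ^ N) := (map_pow _ _ _).symm
    rw [h4, hc, mul_pow]
    exact Ideal.Quotient.eq_zero_iff_mem.2
      (Ideal.mem_span_singleton.2 (Dvd.intro _ rfl))
  have h5 : IsUnit (mkF p N y * mkF p N a) := by
    rw [h1]; exact h3.isUnit_one_sub
  exact isUnit_of_mul_isUnit_right h5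

/-- all coordinates have norm `< 1`: induction on `N`; `N = 0`: `R 0` has one element, `X 0 0 = 0`.
`N + 1`: a unit: `norm_X_lt`. A non-unit is `x = -p y`: (`x = mk a`; if `p ∤ a` then `a` is a unit
modulo `p^(N+1)`, because `(p)` is prime, hence maximal: `Ideal.Quotient` of a power of a maximal
ideal is local, or: `a b = 1 + p c`, and `1 + p c` is a unit as `p` is nilpotent). So
`X (N+1) x = X N (red y)` by `D.Xpi`. -/
theorem X_lt (hin : (Ideal.span {(p : 𝓞 F)}).IsPrime) (N : ℕ) (x : RF F p N) : ‖D.X N x‖ < 1 := by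
  induction N with
  | zero =>
    have hs : Subsingleton (RF F p 0) := (Nat.card_eq_one_iff_unique.1 D.card0).1
    rw [Subsingleton.elim x 0, D.X0, norm_zero]
    exact one_pos
  | succ N ih =>
    by_cases hx : IsUnit x
    · exact norm_X_lt D N x hx
    · obtain ⟨a, rfl⟩ := Ideal.Quotient.mk_surjective x
      have ha : (p : 𝓞 F) ∣ a := by
        by_contra h
        exact hx (x1_unit hin (N + 1) a h)
      obtain ⟨b, rfl⟩ := ha
      have h1 : (Ideal.Quotient.mk (Ideal.span {((p : 𝓞 F)) ^ (N + 1)}) ((p : 𝓞 F) * b)) =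
          -(p : RF F p (N + 1)) * mkF p (N + 1) (-b) := by
        simp [mkF]
      rw [h1, D.Xpi]
      exact ih _

end SSF
end

-- from Lib.SSG.F.X1B
section

/-! # SSG/F/X1B : a good frame satisfies `LTF.Ok` -/

open Polynomial NumberField
open scoped Classical

namespace SSF

open SSG

variable {F : Type} [Field F] [NumberField F] {p : ℕ} [Fact p.Prime]

/-- `LTF.Ok` from good data. PROOF. small: `X_lt` (`j` isometric); inj: `D.Xinj`, `j` injective,
`Ideal.Quotient.eq`; down, g: `D.Xpi`, `D.Xg` with `red (mk a) = mk a`; prim, zdown: `D.ζprim`,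
`D.ζp`, `IsPrimitiveRoot.map_of_injective`; w: `exists_w (N-1)`, map the coefficients by `j`; a
coefficient of `w - 1` is an element of `D.W`, so of norm `< 1` implies `≤ ‖p‖` (`D.kval`: a power
`‖p‖^n`, `n ≥ 1`); for `p ∤ a` the class of `a` is a unit. -/
theorem good_ok {C : Type} [NormedField C] [IsUltrametricDist C] (hin : (Ideal.span {(p : 𝓞 F)}).IsPrime)
    (L : LTF F C) (hL : L.Good p) : L.Ok p := by
  obtain ⟨L₀, i1, i2, D, j, hj, hX, hz, hnm, hred⟩ := hL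
  have hp : p.Prime := Fact.out
  have hinj : Function.Injective j := j.injective
  refine ⟨?_, ?_, ?_, ?_, ?_, ?_, ?_⟩
  · intro N a
    rw [hX, hj]
    exact X_lt D hin N _
  · intro N a b
    rw [hX, hX, hinj.eq_iff, (D.Xinj N).eq_iff, Ideal.Quotient.eq, Ideal.mem_span_singleton]
  · intro N a
    rw [hX, hX]
    have h1 : mkF p (N + 1) (-(p : 𝓞 F) * a) = -(p : RF F p (N + 1)) * mkF p (N + 1) a := by
      simp [mkF]
    rw [h1, D.Xpi, hred]
  · intro N a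
    have h1 := congrArg j (D.Xg N (mkF p (N + 1) a))
    rw [hred, map_sub, map_pow, map_mul, map_natCast] at h1
    rw [hX, hX, ← h1]
    ring
  · intro N
    rw [hz]
    exact (D.ζprim N).map_of_injective hinj
  · intro N
    rw [hz, hz, ← map_pow, D.ζp]
  · intro N hN
    obtain ⟨M, rfl⟩ : ∃ M, N = M + 1 := ⟨N - 1, by omega⟩
    obtain ⟨w, hw⟩ := exists_w D M
    refine ⟨w.map (j.comp D.W.subtype), ?_, ?_, ?_⟩
    · intro i
      rw [Polynomial.coeff_map]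
      change ‖j (w.coeff i : L₀)‖ ≤ 1
      rw [hj]
      exact (w.coeff i).2.2
    · intro i hi
      have h1 : (w.map (j.comp D.W.subtype) - 1).coeff i = j (((w - 1).coeff i : D.W) : L₀) := by
        have h2 : w.map (j.comp D.W.subtype) - 1 = (w - 1).map (j.comp D.W.subtype) := by
          rw [Polynomial.map_sub, Polynomial.map_one]
        rw [h2, Polynomial.coeff_map]
        rfl
      rw [h1, hj] at hi ⊢
      have hpn : ‖(p : C)‖ = ‖(p : L₀)‖ := by rw [← map_natCast j p, hj]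
      rw [hpn]
      by_cases h0 : (((w - 1).coeff i : D.W) : L₀) = 0
      · rw [h0, norm_zero]; exact norm_nonneg _
      · obtain ⟨n, hn⟩ := D.kval _ ((w - 1).coeff i).2.1 h0
        rw [hn] at hi ⊢
        have hpos : 0 < ‖(p : L₀)‖ := norm_pos_iff.2 D.hp0
        have hn1 : 1 ≤ n := by
          by_contra hc
          have h3 : n ≤ 0 := by omega
          have h4 : (1 : ℝ) ≤ ‖(p : L₀)‖ ^ n := by
            obtain ⟨m, hm⟩ := Int.eq_ofNat_of_zero_le (show (0 : ℤ) ≤ -n by omega)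
            have h5 : n = -(m : ℤ) := by omega
            rw [h5, zpow_neg, zpow_natCast]
            exact (one_le_inv₀ (pow_pos hpos m)).2 (pow_le_one₀ hpos.le D.hp1.le)
          linarith
        obtain ⟨m, hm⟩ := Int.eq_ofNat_of_zero_le (show (0 : ℤ) ≤ n - 1 by omega)
        have h5 : n = ((m + 1 : ℕ) : ℤ) := by push_cast; omega
        rw [h5, zpow_natCast, pow_succ]
        exact mul_le_of_le_one_left hpos.le (pow_le_one₀ hpos.le D.hp1.le)
    · intro a ha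
      have h1 := congrArg j (hw.2 (mkF p (M + 1) a) (x1_unit hin (M + 1) a ha))
      rw [Polynomial.eval_map, hX, hz]
      have h2 : Polynomial.eval₂ (j.comp D.W.subtype) (j (D.X (M + 1) (mkF p (M + 1) a))) w =
          j (D.ev w (D.X (M + 1) (mkF p (M + 1) a))) := by
        unfold LTD.ev
        rw [Polynomial.hom_eval₂]
      rw [h2, h1, map_pow, hnm, ZMod.val_natCast]
      exact (pow_eq_pow_mod _ ((D.ζprim (M + 1)).map_of_injective hinj).pow_eq_one).symm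

end SSF
end
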