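import Pool.Agent.Lib.H1M.PP2.M015
import Pool.Agent.Lib.H1M.PP2.M029
import Pool.Agent.Lib.H1M.PP2.M071

/-! Merged copies (to shorten the build) of Lib.SSG.F.A2B, Lib.SSG.F.B2, Lib.SSG.F.B3, Lib.SSG.F.B3B, Lib.SSG.F.L1, Lib.SSG.F.L5, Lib.SSG.F.R1, Lib.SSG.F.R2, Lib.SSG.F.R2B, Lib.SSG.F.R3, Lib.SSG.F.R3B, Lib.SSG.F.R4. -/

-- from Lib.SSG.F.A2B
section

/-! # SSG/F/A2B : sums of polynomials over the roots -/

open Polynomial

namespace SSF

/-- by linearity of both sides in `h` (`Polynomial.induction_on'`: sums and monomials;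
`eval₂ f z (monomial m a) = f a * z ^ m`; `Ct_monomial`, `ctm_map` : `eval₂ f y (ctm S p m) =
(ctm L p m).eval y` through `Polynomial.eval_map`). -/
theorem newton_ev {L S : Type} [Field L] [CommRing S] (f : S →+* L) (p : ℕ) (hp : 2 ≤ p)
    (s : Finset L) (hs : s.card = p ^ 2)
    (y : L) (h : ∀ z ∈ s, z ^ (p ^ 2) - (p : L) * z = y) (g : S[X]) :
    ∑ z ∈ s, eval₂ f z g = (p : L) * eval₂ f y (Ct p g) := by
  induction g using Polynomial.induction_on' with
  | add g g' hg hg' =>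
    rw [Ct_add, eval₂_add, mul_add, ← hg, ← hg', ← Finset.sum_add_distrib]
    exact Finset.sum_congr rfl fun z _ => eval₂_add _ _
  | monomial m a =>
    rw [Ct_monomial, eval₂_mul, eval₂_C, ← eval_map, ctm_map]
    rw [Finset.sum_congr rfl fun z _ => eval₂_monomial f z, ← Finset.mul_sum,
      newton p hp s hs y h m]
    ring

end SSF
end

-- from Lib.SSG.F.B2
section

/-! # SSG/F/B2 : sums over the fibres of `red` and total sums -/

open Polynomial
open scoped Classical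

namespace SSF

variable {p : ℕ} {R : ℕ → Type} [∀ N, CommRing (R N)] [∀ N, Fintype (R N)]
  {L : Type} [NormedField L] [IsUltrametricDist L] (D : LTD p R L)

/-- apply `newton_ev` with `f = D.W.subtype`, `s` = image of the fibre under `D.X (N+1)` (injective,
so `p ^ 2` elements by `D.fib`), `y = D.X N y`, `D.Xg`. -/
theorem fib_sum (hp : 2 ≤ p) (N : ℕ) (y : R N) (h : D.W[X]) :
    ∑ x ∈ Finset.univ.filter (fun x : R (N + 1) => D.red N x = y), D.ev h (D.X (N + 1) x) =
      (p : L) * D.ev (Ct p h) (D.X N y) := by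
  have hinj : Set.InjOn (D.X (N + 1))
      (Finset.univ.filter (fun x : R (N + 1) => D.red N x = y) : Finset (R (N + 1))) :=
    (D.Xinj (N + 1)).injOn
  have hcard : (Finset.univ.filter (fun x : R (N + 1) => D.red N x = y)).card = p ^ 2 := by
    rw [← D.fib N y, Nat.card_eq_fintype_card, Fintype.card_subtype]
  have h1 := newton_ev D.W.subtype p hp
    ((Finset.univ.filter (fun x : R (N + 1) => D.red N x = y)).image (D.X (N + 1)))
    (by rw [Finset.card_image_of_injOn hinj, hcard]) (D.X N y) (by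
      intro z hz
      obtain ⟨x, hx, rfl⟩ := Finset.mem_image.1 hz
      rw [D.Xg, (Finset.mem_filter.1 hx).2]) h
  rw [Finset.sum_image hinj] at h1
  exact h1

/-- induction on `N` generalizing `h`: `N = 0`: `R 0` has one element, `X 0 0 = 0`,
`ev h 0 = h.coeff 0`. `N + 1`: `Finset.sum_fiberwise` over `red N`, `fib_sum`,
`Function.iterate_succ_apply`. -/
theorem total_sum (hp : 2 ≤ p) (N : ℕ) (h : D.W[X]) :
    ∑ x : R N, D.ev h (D.X N x) = (p : L) ^ N * (((Ct p)^[N] h).coeff 0 : L) := by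
  induction N generalizing h with
  | zero =>
    have h0 : Subsingleton (R 0) := (Nat.card_eq_one_iff_unique.1 D.card0).1
    rw [Fintype.sum_eq_single (0 : R 0) fun x hx => absurd (Subsingleton.elim x 0) hx, D.X0,
      pow_zero, one_mul, Function.iterate_zero_apply]
    unfold LTD.ev
    rw [eval₂_at_zero]
    rfl
  | succ N ih =>
    rw [← Finset.sum_fiberwise (s := Finset.univ) (g := D.red N)]
    simp only [fib_sum D hp]
    rw [← Finset.mul_sum, ih, Function.iterate_succ_apply, pow_succ]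
    ring

end SSF
end

-- from Lib.SSG.F.B3
section

/-! # SSG/F/B3 : orthogonality -/

open Polynomial
open scoped Classical

namespace SSF

variable {p : ℕ} [Fact p.Prime] {R : ℕ → Type} [∀ N, CommRing (R N)] [∀ N, Fintype (R N)]
  {L : Type} [NormedField L] [IsUltrametricDist L] (D : LTD p R L)

/-- Orthogonality: for `a, c` in `ZMod (p ^ (N+1))` with the same image in `ZMod (p ^ N)`,
`sum over b < p of ζ^(a b) ζ^(c (p^(N+1) - b))` is `p` if `a = c` and `0` otherwise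
(`ζ = ζ_(N+1)`, exponents `a.val`, `c.val`). PROOF: `ζ^(c (p^(N+1) - b)) = ζ^(-c b)` (as
`ζ^(p^(N+1)) = 1`, `b ≤ p ≤ p^(N+1)`), so the sum is `sum_b z^b`, `z = ζ^(a.val) / ζ^(c.val)`.
`z^p = 1` because `p ^ N` divides `a.val - c.val`; if `a ≠ c` then `z ≠ 1` (primitive root,
`IsPrimitiveRoot.zpow_eq_one_iff_dvd` or `pow_inj`), and `(z - 1) sum z^b = z^p - 1 = 0`. -/
theorem ortho (N : ℕ) (a c : ZMod (p ^ (N + 1)))
    (h : ZMod.castHom (pow_dvd_pow p (Nat.le_succ N)) (ZMod (p ^ N)) a =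
      ZMod.castHom (pow_dvd_pow p (Nat.le_succ N)) (ZMod (p ^ N)) c) :
    ∑ b ∈ Finset.range p, D.ζ (N + 1) ^ (a.val * b) * D.ζ (N + 1) ^ (c.val * (p ^ (N + 1) - b)) =
      if a = c then (p : L) else 0 := by
  have hP : 0 < p ^ (N + 1) := pow_pos (Fact.out : p.Prime).pos _
  have : NeZero (p ^ (N + 1)) := ⟨hP.ne'⟩
  have hz := D.ζprim (N + 1)
  have h1 : D.ζ (N + 1) ^ (p ^ (N + 1)) = 1 := hz.pow_eq_one
  have hz0 : D.ζ (N + 1) ≠ 0 := hz.ne_zero hP.ne'
  have hterm : ∀ b ∈ Finset.range p, D.ζ (N + 1) ^ (a.val * b) * D.ζ (N + 1) ^ (c.val * (p ^ (N + 1) - b)) =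
      (D.ζ (N + 1) ^ a.val * (D.ζ (N + 1) ^ c.val)⁻¹) ^ b := by
    intro b hb
    have hb1 : b ≤ p ^ (N + 1) := by
      have h2 := Finset.mem_range.1 hb
      have h3 : p ≤ p ^ (N + 1) := Nat.le_self_pow (by omega) p
      omega
    have h4 : D.ζ (N + 1) ^ (c.val * (p ^ (N + 1) - b)) * D.ζ (N + 1) ^ (c.val * b) = 1 := by
      rw [← pow_add, ← mul_add, Nat.sub_add_cancel hb1, mul_comm, pow_mul, h1, one_pow]
    have h5 : D.ζ (N + 1) ^ (c.val * (p ^ (N + 1) - b)) = (D.ζ (N + 1) ^ (c.val * b))⁻¹ :=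
      eq_inv_of_mul_eq_one_left h4
    rw [h5, mul_pow, inv_pow, ← pow_mul, ← pow_mul]
  rw [Finset.sum_congr rfl hterm]
  have hc0 : D.ζ (N + 1) ^ c.val ≠ 0 := pow_ne_zero _ hz0
  split_ifs with hac
  · rw [hac, mul_inv_cancel₀ hc0]
    simp
  · set z := D.ζ (N + 1) ^ a.val * (D.ζ (N + 1) ^ c.val)⁻¹ with hzdef
    have hz1 : z ≠ 1 := by
      intro h6
      rw [hzdef, mul_inv_eq_one₀ hc0] at h6
      exact hac (ZMod.val_injective _ (hz.pow_inj (ZMod.val_lt a) (ZMod.val_lt c) h6))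
    have hzp : z ^ p = 1 := by
      have h7 : a.val ≡ c.val [MOD p ^ N] := by
        rw [← ZMod.natCast_eq_natCast_iff]
        rw [ZMod.castHom_apply, ZMod.castHom_apply] at h
        rw [ZMod.natCast_val, ZMod.natCast_val]
        exact h
      have h8 : (a.val * p) % (p ^ N * p) = (c.val * p) % (p ^ N * p) := h7.mul_right' p
      rw [← pow_succ] at h8
      have h9 : D.ζ (N + 1) ^ (a.val * p) = D.ζ (N + 1) ^ (c.val * p) := by
        rw [pow_eq_pow_mod (a.val * p) h1, pow_eq_pow_mod (c.val * p) h1, h8]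
      rw [hzdef, mul_pow, inv_pow, ← pow_mul, ← pow_mul, h9, mul_inv_cancel₀ (pow_ne_zero _ hz0)]
    have h10 := geom_sum_mul z p
    rw [hzp, sub_self] at h10
    rcases mul_eq_zero.1 h10 with h11 | h11
    · exact h11
    · exact absurd (sub_eq_zero.1 h11) hz1

end SSF
end

-- from Lib.SSG.F.B3B
section

/-! # SSG/F/B3B : the recursion for `T` -/

open Polynomial
open scoped Classical

namespace SSF

variable {p : ℕ} [Fact p.Prime] {R : ℕ → Type} [∀ N, CommRing (R N)] [∀ N, Fintype (R N)]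
  {L : Type} [NormedField L] [IsUltrametricDist L] (D : LTD p R L)

theorem b3b_ev (w h : D.W[X]) (k : ℕ) (x : L) :
    D.ev (w ^ k * h) x = D.ev w x ^ k * D.ev h x := by
  simp only [LTD.ev, eval₂_mul, eval₂_pow]

/-- The recursion. PROOF. Let `a'` be the image of `a`. For `x : R (N+1)` with
`nm N (red x) = a'` (a unit, `isUnit_iff`, `isUnit_red`: `x` is a unit, as `N ≥ 1`) one has
`ev (w^(p^(N+1)-b) h) (X x) = ζ^((nm x).val (p^(N+1)-b)) ev h (X x)`, so by `ortho`
`sum_b ζ^(a b) sum over x with nm (red x) = a' of ev (w^(p^(N+1)-b) h) (X x) = p T (N+1) a h`.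
The inner sum is, fibre by fibre (`D.nmred`, `Finset.sum_fiberwise`-type rearrangement: sum over
`x' : R N` with `nm x' = a'` of the sum over `x` with `red x = x'`, `fib_sum`),
`p T N a' (Ct (w^(p^(N+1)-b) h))`. Divide by `p ≠ 0` (`D.hp0`). -/
theorem T_rec (N : ℕ) (hN : 1 ≤ N) (w : D.W[X]) (hw : D.IsW (N + 1) w)
    (a : (ZMod (p ^ (N + 1)))ˣ) (h : D.W[X]) :
    D.T (N + 1) (a : ZMod (p ^ (N + 1))) h =
      ∑ b ∈ Finset.range p, D.ζ (N + 1) ^ ((a : ZMod (p ^ (N + 1))).val * b) *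
        D.T N (ZMod.castHom (pow_dvd_pow p (Nat.le_succ N)) (ZMod (p ^ N))
          (a : ZMod (p ^ (N + 1)))) (Ct p (w ^ (p ^ (N + 1) - b) * h)) := by
  have hp2 : 2 ≤ p := (Fact.out : p.Prime).two_le
  apply mul_left_cancel₀ D.hp0
  set a' : ZMod (p ^ N) := ZMod.castHom (pow_dvd_pow p (Nat.le_succ N)) (ZMod (p ^ N))
          (a : ZMod (p ^ (N + 1))) with ha'
  have ha'u : IsUnit a' := a.isUnit.map _
  -- the set of x
  set A : Finset (R (N + 1)) := Finset.univ.filter (fun x => D.nm N (D.red N x) = a') with hA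
  have key : ∀ g : D.W[X], (p : L) * D.T N a' (Ct p g) = ∑ x ∈ A, D.ev g (D.X (N + 1) x) := by
    intro g
    unfold LTD.T
    rw [Finset.mul_sum]
    rw [← Finset.sum_fiberwise_of_maps_to (s := A)
      (t := Finset.univ.filter (fun x : R N => D.nm N x = a')) (g := fun x => D.red N x)]
    · refine Finset.sum_congr rfl fun y hy => ?_
      rw [← fib_sum D hp2 N y g]
      refine Finset.sum_congr ?_ fun _ _ => rfl
      ext x
      simp only [Finset.mem_filter, Finset.mem_univ, true_and, hA] at hy ⊢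
      constructor
      · intro hx
        exact ⟨by rw [hx]; exact hy, hx⟩
      · intro hx
        exact hx.2
    · intro x hx
      simp only [Finset.mem_filter, Finset.mem_univ, true_and, hA] at hx ⊢
      exact hx
  have hxu : ∀ x ∈ A, IsUnit x := by
    intro x hx
    simp only [Finset.mem_filter, Finset.mem_univ, true_and, hA] at hx
    rw [← isUnit_red D N hN, isUnit_iff D, hx]
    exact ha'u
  have h1 : (p : L) * ∑ b ∈ Finset.range p, D.ζ (N + 1) ^ ((a : ZMod (p ^ (N + 1))).val * b) *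
        D.T N a' (Ct p (w ^ (p ^ (N + 1) - b) * h)) =
      ∑ x ∈ A, D.ev h (D.X (N + 1) x) * (if (a : ZMod (p ^ (N + 1))) = D.nm (N + 1) x then (p : L)
        else 0) := by
    calc (p : L) * ∑ b ∈ Finset.range p, D.ζ (N + 1) ^ ((a : ZMod (p ^ (N + 1))).val * b) *
        D.T N a' (Ct p (w ^ (p ^ (N + 1) - b) * h))
        = ∑ b ∈ Finset.range p, D.ζ (N + 1) ^ ((a : ZMod (p ^ (N + 1))).val * b) *
          ∑ x ∈ A, D.ev (w ^ (p ^ (N + 1) - b) * h) (D.X (N + 1) x) := by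
          rw [Finset.mul_sum]
          refine Finset.sum_congr rfl fun b _ => ?_
          rw [← key]
          ring
      _ = ∑ x ∈ A, ∑ b ∈ Finset.range p, D.ζ (N + 1) ^ ((a : ZMod (p ^ (N + 1))).val * b) *
          D.ev (w ^ (p ^ (N + 1) - b) * h) (D.X (N + 1) x) := by
          rw [Finset.sum_comm]
          refine Finset.sum_congr rfl fun b _ => ?_
          rw [Finset.mul_sum]
      _ = _ := by
          refine Finset.sum_congr rfl fun x hx => ?_
          rw [← ortho D N (a : ZMod (p ^ (N + 1))) (D.nm (N + 1) x)]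
          · rw [Finset.mul_sum]
            refine Finset.sum_congr rfl fun b _ => ?_
            rw [b3b_ev, hw.2 x (hxu x hx), ← pow_mul]
            ring
          · rw [D.nmred]
            simp only [Finset.mem_filter, Finset.mem_univ, true_and, hA] at hx
            rw [hx]
  rw [h1]
  unfold LTD.T
  rw [Finset.mul_sum]
  rw [Finset.sum_filter]
  have h2 : ∀ x ∈ A, D.ev h (D.X (N + 1) x) * (if (a : ZMod (p ^ (N + 1))) = D.nm (N + 1) x then
      (p : L) else 0) = if D.nm (N + 1) x = (a : ZMod (p ^ (N + 1))) then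
        (p : L) * D.ev h (D.X (N + 1) x) else 0 := by
    intro x _
    by_cases hx : D.nm (N + 1) x = (a : ZMod (p ^ (N + 1)))
    · rw [if_pos hx, if_pos hx.symm]; ring
    · rw [if_neg hx, if_neg (fun h => hx h.symm)]; ring
  rw [Finset.sum_congr rfl h2]
  symm
  apply Finset.sum_subset (Finset.subset_univ A)
  intro x _ hx
  rw [if_neg]
  intro hx2
  apply hx
  simp only [Finset.mem_filter, Finset.mem_univ, true_and, hA]
  rw [← D.nmred, hx2]

end SSF
end

-- from Lib.SSG.F.L1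
section

/-! # SSG/F/L1 : the functional `ell` is an eigenvector -/

open Polynomial
open scoped Classical

namespace SSF

variable {p : ℕ} [Fact p.Prime] {R : ℕ → Type} [∀ N, CommRing (R N)] [∀ N, Fintype (R N)]
  {L : Type} [NormedField L] [IsUltrametricDist L] (D : LTD p R L)

theorem l1_val (n : ℕ) (a : (ZMod (p ^ (n + 1)))ˣ) :
    ((ZMod.unitsMap (pow_dvd_pow p (Nat.le_succ n)) a : (ZMod (p ^ n))ˣ) : ZMod (p ^ n)).val =
      (a : ZMod (p ^ (n + 1))).val % p ^ n := by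
  rw [ZMod.unitsMap_val, ZMod.cast_eq_val, ZMod.val_natCast]

theorem l1_onep (n : ℕ) :
    ZMod.unitsMap (pow_dvd_pow p (Nat.le_succ n)) (onep p (n + 1)) = onep p n := by
  ext
  rw [ZMod.unitsMap_val]
  unfold onep
  rw [ZMod.coe_unitOfCoprime, ZMod.coe_unitOfCoprime]
  exact map_natCast (ZMod.castHom (pow_dvd_pow p (Nat.le_succ n)) (ZMod (p ^ n))) _

/-- `ell (θ σ f) = χ⁻¹(1+p) ell f`. PROOF. In `sum_a χ(a) ζ_(n+1)^(a i) ζ_n^(ā i) f((1+p) ā)` one has
`ζ_n^(ā.val i) = ζ_(n+1)^(p a.val i)` (`D.ζp`, `ā.val ≡ a.val` mod `p^n`), so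
`ζ_(n+1)^(a i) ζ_n^(ā i) = ζ_(n+1)^(((1+p) a).val i)` (`D.ζprim`, exponents mod `p^(n+1)`). Substitute
`a' = (1+p) a` (`Equiv.mulLeft (onep p (n+1))`, `Fintype.sum_equiv`), `unitsMap (onep (n+1)) = onep n`,
`χ(a) = χ⁻¹(1+p) χ(a')` (`MulChar.inv_apply'`/`χ⁻¹(u) χ(u) = 1` for units). -/
theorem ell_shift (n : ℕ) (χ : DirichletCharacter L (p ^ (n + 1))) (i : ℕ)
    (f : (ZMod (p ^ n))ˣ → L) :
    D.ell n χ i (fun a => D.ζ n ^ ((a : ZMod (p ^ n)).val * i) * f (onep p n * a)) =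
      χ⁻¹ (1 + (p : ZMod (p ^ (n + 1)))) * D.ell n χ i f := by
  have hζn : ∀ k l : ℕ, k % p ^ n = l % p ^ n → D.ζ n ^ k = D.ζ n ^ l := by
    intro k l h
    rw [pow_eq_pow_mod k (D.ζprim n).pow_eq_one, h, ← pow_eq_pow_mod l (D.ζprim n).pow_eq_one]
  have hζn1 : ∀ k l : ℕ, k % p ^ (n + 1) = l % p ^ (n + 1) →
      D.ζ (n + 1) ^ k = D.ζ (n + 1) ^ l := by
    intro k l h
    rw [pow_eq_pow_mod k (D.ζprim (n + 1)).pow_eq_one, h,
      ← pow_eq_pow_mod l (D.ζprim (n + 1)).pow_eq_one]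
  have hu : ((onep p (n + 1) : (ZMod (p ^ (n + 1)))ˣ) : ZMod (p ^ (n + 1))) =
      1 + (p : ZMod (p ^ (n + 1))) := by
    unfold onep
    rw [ZMod.coe_unitOfCoprime]
    push_cast
    rfl
  unfold LTD.ell
  rw [mul_left_comm]
  congr 1
  rw [Finset.mul_sum]
  refine Fintype.sum_equiv (Equiv.mulLeft (onep p (n + 1))) _ _ fun a => ?_
  have h1 : Equiv.mulLeft (onep p (n + 1)) a = onep p (n + 1) * a := rfl
  rw [h1, map_mul, l1_onep]
  have h2 : D.ζ (n + 1) ^ ((a : ZMod (p ^ (n + 1))).val * i) *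
      D.ζ n ^ (((ZMod.unitsMap (pow_dvd_pow p (Nat.le_succ n)) a : (ZMod (p ^ n))ˣ) :
        ZMod (p ^ n)).val * i) =
      D.ζ (n + 1) ^ ((((onep p (n + 1) * a : (ZMod (p ^ (n + 1)))ˣ) :
        ZMod (p ^ (n + 1)))).val * i) := by
    rw [pow_mul, pow_mul, pow_mul, ← mul_pow]
    congr 1
    rw [l1_val, ← pow_eq_pow_mod _ (D.ζprim n).pow_eq_one]
    have h3 : D.ζ n = D.ζ (n + 1) ^ p := (D.ζp n).symm
    rw [h3, ← pow_mul, ← pow_add]
    apply hζn1
    rw [Units.val_mul, ZMod.val_mul, hu, Nat.mod_mod]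
    have h4 : (1 + (p : ZMod (p ^ (n + 1)))) = ((1 + p : ℕ) : ZMod (p ^ (n + 1))) := by
      push_cast; rfl
    rw [h4, ZMod.val_natCast, Nat.mod_mul_mod]
    congr 1
    ring
  have h5 : χ (a : ZMod (p ^ (n + 1))) = χ⁻¹ (1 + (p : ZMod (p ^ (n + 1)))) *
      χ ((onep p (n + 1) * a : (ZMod (p ^ (n + 1)))ˣ) : ZMod (p ^ (n + 1))) := by
    rw [Units.val_mul, map_mul, ← mul_assoc, ← hu, ← MulChar.mul_apply, inv_mul_cancel,
      MulChar.one_apply (Units.isUnit _), one_mul]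
  rw [← h2]
  conv_lhs => rw [h5]
  ring

end SSF
end

-- from Lib.SSG.F.L5
section

/-! # SSG/F/L5 : the norm of `eta` -/

open Polynomial
open scoped Classical

namespace SSF

variable {p : ℕ} [Fact p.Prime] {R : ℕ → Type} [∀ N, CommRing (R N)] [∀ N, Fintype (R N)]
  {L : Type} [NormedField L] [IsUltrametricDist L] (D : LTD p R L)

omit [IsUltrametricDist L] in
/-- `χ⁻¹(1+p)` is a primitive `p^n`-th root of unity if `χ` mod `p^(n+1)` is primitive,
`χ^(p^n) = 1`, `p` odd, `n ≥ 1`. PROOF. `ξ = χ⁻¹(1+p)`, `ξ^(p^n) = 1`. If `ξ^(p^(n-1)) = 1` then `χ` is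
trivial on `(1+p)^(p^(n-1))`, which generates the kernel of
`(ZMod (p^(n+1)))ˣ → (ZMod (p^n))ˣ`: this kernel has order `p` (elements `1 + p^n t`), and
`(1+p)^(p^(n-1)) = 1 + p^n mod p^(n+1)` (induction, `p` odd; or: `1 + p` has order `p^n` mod
`p^(n+1)`, Mathlib `ZMod.orderOf_one_add_prime`, so its `p^(n-1)`-th power is not `1` and it is in
the kernel). So `χ` factors through `p^n` (`DirichletCharacter.factorsThrough_iff_ker_unitsMap`), a
contradiction to `χ.IsPrimitive` (conductor `= p^(n+1)`). Conclude with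
`IsPrimitiveRoot.of_..`/`orderOf_eq_prime_pow`. -/
theorem xi_prim (hp3 : 3 ≤ p) (n : ℕ) (hn : 1 ≤ n) (χ : DirichletCharacter L (p ^ (n + 1)))
    (hχ : χ.IsPrimitive) (h1 : χ ^ (p ^ n) = 1) :
    IsPrimitiveRoot (χ⁻¹ (1 + (p : ZMod (p ^ (n + 1))))) (p ^ n) := by
  have hp : p.Prime := Fact.out
  have hN0 : p ^ (n + 1) ≠ 0 := pow_ne_zero _ hp.ne_zero
  have : NeZero (p ^ (n + 1)) := ⟨hN0⟩
  have : NeZero (p ^ n) := ⟨pow_ne_zero _ hp.ne_zero⟩
  obtain ⟨m, rfl⟩ : ∃ m, n = m + 1 := ⟨n - 1, by omega⟩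

  have hd : p ^ (m + 1) ∣ p ^ (m + 1 + 1) := pow_dvd_pow p (Nat.le_succ _)
  set u : (ZMod (p ^ (m + 1 + 1)))ˣ := onep p (m + 1 + 1) with hu
  have huv : (u : ZMod (p ^ (m + 1 + 1))) = 1 + (p : ZMod (p ^ (m + 1 + 1))) := by
    rw [hu, onep, ZMod.coe_unitOfCoprime]
    push_cast
    ring
  have hord : orderOf u = p ^ (m + 1) := by
    rw [← orderOf_units, huv]
    exact ZMod.orderOf_one_add_prime hp (by omega) (m + 1)
  have hcinv : ∀ k : ℕ, (χ⁻¹ (u : ZMod (p ^ (m + 1 + 1)))) ^ k = χ⁻¹ ((u ^ k : (ZMod (p ^ (m + 1 + 1)))ˣ) : ZMod (p ^ (m + 1 + 1))) := by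
    intro k
    rw [Units.val_pow_eq_pow_val, map_pow]
  have hfin : (χ⁻¹ (1 + (p : ZMod (p ^ (m + 1 + 1))))) ^ p ^ (m + 1) = 1 := by
    rw [← huv, hcinv, ← hord, pow_orderOf_eq_one, Units.val_one, map_one]
  have hnot : ¬ (χ⁻¹ (1 + (p : ZMod (p ^ (m + 1 + 1))))) ^ p ^ m = 1 := by
    intro hcon
    rw [← huv, hcinv] at hcon
    set v := u ^ p ^ m with hv
    have hv1 : v ≠ 1 := by
      intro h
      have := orderOf_dvd_of_pow_eq_one h
      rw [hord, Nat.pow_dvd_pow_iff_le_right hp.one_lt] at this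
      omega
    have hvker : v ∈ (ZMod.unitsMap hd).ker := by
      rw [MonoidHom.mem_ker, hv, map_pow]
      ext
      rw [Units.val_pow_eq_pow_val, Units.val_one]
      have h2 : ((ZMod.unitsMap hd u : (ZMod (p ^ (m + 1)))ˣ) : ZMod (p ^ (m + 1))) = 1 + (p : ZMod (p ^ (m + 1))) := by
        rw [ZMod.unitsMap_val, huv]
        have h3 := map_add (ZMod.castHom hd (ZMod (p ^ (m + 1)))) 1 (p : ZMod (p ^ (m + 1 + 1)))
        rw [map_one, map_natCast] at h3
        simpa using h3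
      rw [h2, ← ZMod.orderOf_one_add_prime hp (by omega) m]
      exact pow_orderOf_eq_one _
    have hcard : Nat.card (ZMod.unitsMap hd).ker = p := by
      have h1 := Subgroup.card_mul_index (ZMod.unitsMap hd).ker
      rw [Subgroup.index_ker] at h1
      have hsurj : (ZMod.unitsMap hd).range = ⊤ := MonoidHom.range_eq_top.mpr (ZMod.unitsMap_surjective hd)
      rw [hsurj, Nat.card_congr (Subgroup.topEquiv).toEquiv, Nat.card_eq_fintype_card (α := (ZMod (p ^ (m + 1)))ˣ),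
        ZMod.card_units_eq_totient, Nat.card_eq_fintype_card (α := (ZMod (p ^ (m + 1 + 1)))ˣ),
        ZMod.card_units_eq_totient, Nat.totient_prime_pow_succ hp, Nat.totient_prime_pow_succ hp] at h1
      have h3 : 0 < p ^ m * (p - 1) := Nat.mul_pos (pow_pos hp.pos _) (by omega)
      have h4 : Nat.card (ZMod.unitsMap hd).ker * (p ^ m * (p - 1)) = p * (p ^ m * (p - 1)) := by
        rw [h1, pow_succ]; ring
      exact Nat.eq_of_mul_eq_mul_right h3 h4
    have hfac : DirichletCharacter.FactorsThrough χ (p ^ (m + 1)) := by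
      rw [DirichletCharacter.factorsThrough_iff_ker_unitsMap hd]
      intro x hx
      have hmem : (⟨x, hx⟩ : (ZMod.unitsMap hd).ker) ∈ Subgroup.zpowers (⟨v, hvker⟩ : (ZMod.unitsMap hd).ker) :=
        mem_zpowers_of_prime_card hcard (fun h => hv1 (congrArg Subtype.val h))
      obtain ⟨k, hk⟩ := Subgroup.mem_zpowers_iff.mp hmem
      have hk' : v ^ k = x := congrArg Subtype.val hk
      rw [MonoidHom.mem_ker, ← hk', map_zpow]
      have h5 : χ.toUnitHom v = 1 := by
        ext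
        rw [MulChar.coe_toUnitHom, Units.val_one]
        have h6 : χ⁻¹ (v : ZMod (p ^ (m + 1 + 1))) * χ (v : ZMod (p ^ (m + 1 + 1))) = 1 := by
          rw [← MulChar.mul_apply, inv_mul_cancel, MulChar.one_apply_coe]
        rw [hcon, one_mul] at h6
        exact h6
      rw [h5, one_zpow]
    have hdv := DirichletCharacter.conductor_dvd_of_mem_conductorSet χ hfac
    rw [(DirichletCharacter.isPrimitive_def χ).mp hχ, Nat.pow_dvd_pow_iff_le_right hp.one_lt] at hdv
    omega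
  have ho := orderOf_eq_prime_pow hnot hfin
  rw [← ho]
  exact IsPrimitiveRoot.orderOf _

/-- `‖eta‖ = ‖ζ_n - 1‖` (`xi_prim`, `norm_prim` for both: equal `E`-th powers, `n = m+1`). -/
theorem eta_norm (hp3 : 3 ≤ p) (n : ℕ) (hn : 1 ≤ n) (χ : DirichletCharacter L (p ^ (n + 1)))
    (hχ : χ.IsPrimitive) (h1 : χ ^ (p ^ n) = 1) : ‖D.eta (n + 1) χ‖ = ‖D.ζ n - 1‖ := by
  have hp : p.Prime := Fact.out
  have h2 := xi_prim hp3 n hn χ hχ h1
  have h3 := D.ζprim n
  obtain ⟨m, rfl⟩ : ∃ m, n = m + 1 := ⟨n - 1, by omega⟩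
  have h4 := norm_prim m _ h2
  have h5 := norm_prim m _ h3
  have hE : p ^ m * (p - 1) ≠ 0 := Nat.mul_ne_zero (pow_ne_zero _ hp.ne_zero) (by omega)
  have h6 := h4.trans h5.symm
  exact (pow_left_inj₀ (norm_nonneg _) (norm_nonneg _) hE).mp h6

end SSF
end

-- from Lib.SSG.F.R1
section

/-! # SSG/F/R1 : the norm modulo `p^N` -/

open Polynomial NumberField
open scoped Classical

namespace SSF

open SSG

variable (F : Type) [Field F] [NumberField F] (p : ℕ) [Fact p.Prime]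

omit [Fact p.Prime] in
theorem r1_key (N : ℕ) (a c : 𝓞 F) :
    ((Algebra.norm ℤ (a + (p : 𝓞 F) ^ N * c) : ℤ) : ZMod (p ^ N)) = ((Algebra.norm ℤ a : ℤ) : ZMod (p ^ N)) := by
  have h := fun x => Algebra.norm_eq_matrix_det (RingOfIntegers.basis F) x
  have hc : ∀ M : Matrix (Module.Free.ChooseBasisIndex ℤ (𝓞 F)) (Module.Free.ChooseBasisIndex ℤ (𝓞 F)) ℤ,
      ((M.det : ℤ) : ZMod (p ^ N)) = ((Int.castRingHom (ZMod (p ^ N))).mapMatrix M).det := fun M =>
    RingHom.map_det (Int.castRingHom (ZMod (p ^ N))) M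
  rw [h, h, hc, hc]
  have e1 : (p : 𝓞 F) ^ N * c = ((p ^ N : ℕ) : ℤ) • c := by
    rw [zsmul_eq_mul]
    push_cast
    rfl
  have e2 : (Int.castRingHom (ZMod (p ^ N))).mapMatrix (Algebra.leftMulMatrix (RingOfIntegers.basis F)
      (a + (p : 𝓞 F) ^ N * c)) =
      (Int.castRingHom (ZMod (p ^ N))).mapMatrix (Algebra.leftMulMatrix (RingOfIntegers.basis F) a) := by
    rw [e1, map_add, map_add, map_zsmul, map_zsmul]
    have e3 : ∀ M : Matrix (Module.Free.ChooseBasisIndex ℤ (𝓞 F)) (Module.Free.ChooseBasisIndex ℤ (𝓞 F)) (ZMod (p ^ N)),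
        ((p ^ N : ℕ) : ℤ) • M = 0 := by
      intro M
      ext i j
      rw [Matrix.smul_apply, zsmul_eq_mul, Int.cast_natCast, ZMod.natCast_self, zero_mul]
      rfl
    rw [e3, add_zero]
  rw [e2]

/-- PROOF. Let `b = RingOfIntegers.basis F` (a `ℤ`-basis), `Algebra.norm_eq_matrix_det b`,
`M a = Algebra.leftMulMatrix b a` (a ring hom). If `a' = a + p^N c` then `M a' = M a + p^N • M c`, so
after `(Int.castRingHom (ZMod (p^N))).mapMatrix` they coincide (`(p^N : ZMod (p^N)) = 0`) and so do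
their determinants (`RingHom.map_det`). So `a ↦ (norm a : ZMod (p^N))` factors through the quotient;
it is multiplicative (`map_mul`) and maps `1` to `1`: define the hom by `Quotient.out` or
`Quotient.liftOn'` and check with surjectivity of `mkF`. -/
theorem exists_nm (N : ℕ) : ∃ nm : RF F p N →* ZMod (p ^ N),
    ∀ a : 𝓞 F, nm (mkF p N a) = ((Algebra.norm ℤ a : ℤ) : ZMod (p ^ N)) := by
  have hs : Function.Surjective (mkF p N : 𝓞 F → RF F p N) := Ideal.Quotient.mk_surjective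
  have hinv : ∀ x, mkF p N (Function.surjInv hs x) = x := Function.surjInv_eq hs
  have key : ∀ a : 𝓞 F, ((Algebra.norm ℤ (Function.surjInv hs (mkF p N a)) : ℤ) : ZMod (p ^ N))
      = ((Algebra.norm ℤ a : ℤ) : ZMod (p ^ N)) := by
    intro a
    have h1 := hinv (mkF p N a)
    have h2 : Function.surjInv hs (mkF p N a) - a ∈ Ideal.span {((p : 𝓞 F)) ^ N} := Ideal.Quotient.eq.1 h1
    obtain ⟨c, hc⟩ := Ideal.mem_span_singleton.1 h2
    have h3 : Function.surjInv hs (mkF p N a) = a + (p : 𝓞 F) ^ N * c := by rw [← hc]; ring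
    rw [h3, r1_key]
  refine ⟨{ toFun := fun x => ((Algebra.norm ℤ (Function.surjInv hs x) : ℤ) : ZMod (p ^ N)),
            map_one' := ?_, map_mul' := ?_ }, fun a => key a⟩
  · have h1 := key 1
    rw [show (mkF p N (1 : 𝓞 F) : RF F p N) = 1 from map_one _, map_one, Int.cast_one] at h1
    exact h1
  · intro x y
    have h1 : x * y = mkF p N (Function.surjInv hs x * Function.surjInv hs y) := by
      have e := (Ideal.Quotient.mk (Ideal.span {((p : 𝓞 F)) ^ N})).map_mul (Function.surjInv hs x)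
        (Function.surjInv hs y)
      calc x * y = mkF p N (Function.surjInv hs x) * mkF p N (Function.surjInv hs y) := by rw [hinv, hinv]
        _ = mkF p N (Function.surjInv hs x * Function.surjInv hs y) := e.symm
    show ((Algebra.norm ℤ (Function.surjInv hs (x * y)) : ℤ) : ZMod (p ^ N)) = _
    conv_lhs => rw [h1]
    rw [key, map_mul, Int.cast_mul]

/-- the norm map of `𝓞 F / p ^ N` -/
noncomputable def nmF (N : ℕ) : RF F p N →* ZMod (p ^ N) := (exists_nm F p N).choose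

theorem nmF_mk (N : ℕ) (a : 𝓞 F) :
    nmF F p N (mkF p N a) = ((Algebra.norm ℤ a : ℤ) : ZMod (p ^ N)) :=
  (exists_nm F p N).choose_spec a

omit [Fact p.Prime] in
theorem span_le (N : ℕ) : Ideal.span {((p : 𝓞 F)) ^ (N + 1)} ≤ Ideal.span {((p : 𝓞 F)) ^ N} := by
  rw [Ideal.span_singleton_le_span_singleton]
  exact pow_dvd_pow _ (Nat.le_succ N)

/-- reduction -/
noncomputable def redF (N : ℕ) : RF F p (N + 1) →+* RF F p N := Ideal.Quotient.factor (span_le F p N)

omit [Fact p.Prime] in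
theorem redF_mk (N : ℕ) (a : 𝓞 F) : redF F p N (mkF p (N + 1) a) = mkF p N a := rfl

end SSF
end

-- from Lib.SSG.F.R2
section

/-! # SSG/F/R2 : ring facts of `𝓞 F / p^N` -/

open Polynomial NumberField
open scoped Classical

namespace SSF

open SSG

variable (F : Type) [Field F] [NumberField F] (p : ℕ) [Fact p.Prime]

/-- `card (𝓞 F / p^N) = p^(2N)`: `Ideal.absNorm` of `span {p^N}` (`Ideal.absNorm_apply`,
`Submodule.cardQuot_apply`, `Ideal.absNorm_span_singleton`), `norm_ℤ (p^N) = p^(N * 2)`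
(`Algebra.norm_algebraMap`/`Algebra.norm` of an integer, `finrank ℤ (𝓞 F) = finrank ℚ F = 2`,
`RingOfIntegers.rank`). -/
theorem card_RF (h2 : Module.finrank ℚ F = 2) (N : ℕ) : Nat.card (RF F p N) = p ^ (2 * N) := by
  have h1 : Nat.card (RF F p N) = Ideal.absNorm (Ideal.span {((p : 𝓞 F)) ^ N}) := by
    rw [Ideal.absNorm_apply, Submodule.cardQuot_apply]
  have h3 : Algebra.norm ℤ (p : 𝓞 F) = (p : ℤ) ^ 2 := by
    have e1 := Algebra.norm_algebraMap_of_basis (RingOfIntegers.basis F) (p : ℤ)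
    have e2 : Fintype.card (Module.Free.ChooseBasisIndex ℤ (𝓞 F)) = 2 := by
      rw [← Module.finrank_eq_card_basis (RingOfIntegers.basis F), RingOfIntegers.rank, h2]
    rw [e2] at e1
    rw [← e1]
    congr 1
    simp
  rw [h1, Ideal.absNorm_span_singleton, map_pow, h3, Int.natAbs_pow, Int.natAbs_pow, Int.natAbs_natCast, ← pow_mul]

/-- the fibres of the surjective homomorphism `redF` are cosets of the kernel: all have the same
number of elements `card (R (N+1)) / card (R N) = p^2` (`card_RF`; e.g. the fibre over `y` is in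
bijection with the fibre over `0` by translation, and the sum over all `y`). -/
theorem fib_RF (h2 : Module.finrank ℚ F = 2) (N : ℕ) (y : RF F p N) :
    Nat.card {x : RF F p (N + 1) // redF F p N x = y} = p ^ 2 := by
  have hp : p.Prime := Fact.out
  have hsurj : Function.Surjective (redF F p N) := by
    intro z
    obtain ⟨a, rfl⟩ := Ideal.Quotient.mk_surjective z
    exact ⟨mkF p (N + 1) a, rfl⟩
  -- all fibres have the same number of elements
  have h3 : ∀ z : RF F p N, Nat.card {x : RF F p (N + 1) // redF F p N x = z}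
      = Nat.card {x : RF F p (N + 1) // redF F p N x = y} := by
    intro z
    obtain ⟨w, hw⟩ := hsurj (y - z)
    refine Nat.card_congr ⟨fun x => ⟨x.1 + w, ?_⟩, fun x => ⟨x.1 - w, ?_⟩, fun x => ?_, fun x => ?_⟩
    · rw [map_add, x.2, hw]; ring
    · rw [map_sub, x.2, hw]; ring
    · apply Subtype.ext; simp
    · apply Subtype.ext; simp
  have h4 : Nat.card (RF F p (N + 1)) = ∑ z : RF F p N, Nat.card {x : RF F p (N + 1) // redF F p N x = z} := by
    rw [Nat.card_congr (Equiv.sigmaFiberEquiv (redF F p N)).symm, Nat.card_sigma]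
  rw [Finset.sum_congr rfl fun z _ => h3 z, Finset.sum_const, Finset.card_univ, ← Nat.card_eq_fintype_card,
    card_RF F p h2, card_RF F p h2, smul_eq_mul, mul_add, mul_one, pow_add] at h4
  exact (Nat.eq_of_mul_eq_mul_left (pow_pos hp.pos _) h4).symm

/-- `R 0` is the zero ring (`span {p^0} = ⊤`), or `card_RF` with `N = 0`. -/
theorem card0_RF (h2 : Module.finrank ℚ F = 2) : Nat.card (RF F p 0) = 1 := by
  rw [card_RF F p h2, mul_zero, pow_zero]

end SSF
end

-- from Lib.SSG.F.R2B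
section

/-! # SSG/F/R2B : ring facts of `𝓞 F / p^N`, second part -/

open Polynomial NumberField
open scoped Classical

namespace SSF

open SSG

variable (F : Type) [Field F] [NumberField F] (p : ℕ) [Fact p.Prime]

/-- on classes of integers: `nmF_mk`, `redF_mk`, `map_intCast`. -/
theorem nmred_RF (N : ℕ) (x : RF F p (N + 1)) :
    ZMod.castHom (pow_dvd_pow p (Nat.le_succ N)) (ZMod (p ^ N)) (nmF F p (N + 1) x) =
      nmF F p N (redF F p N x) := by
  obtain ⟨a, rfl⟩ := Ideal.Quotient.mk_surjective x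
  have h1 := nmF_mk F p (N + 1) a
  have h2 := nmF_mk F p N a
  have h3 := redF_mk F p N a
  unfold mkF at h1 h2 h3
  rw [h3, h1, h2, map_intCast]

/-- `x = mk a`; `a` divides `(Ideal.absNorm (span {a}) : 𝓞 F)` (`Ideal.absNorm_mem`), i.e. `± norm a`.
If `norm a` is a unit modulo `p^N`: `norm a * c = 1 + p^N d` in `ℤ`, so `a` divides `1 + p^N d` up to
sign and `mk a` is a unit. -/
theorem nmu_RF (N : ℕ) (x : RF F p N) (h : IsUnit (nmF F p N x)) : IsUnit x := by
  obtain ⟨a, rfl⟩ := Ideal.Quotient.mk_surjective x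
  have h1 : nmF F p N (Ideal.Quotient.mk _ a) = ((Algebra.norm ℤ a : ℤ) : ZMod (p ^ N)) := nmF_mk F p N a
  rw [h1] at h
  -- `a ∣ norm a`
  have h2 : a ∣ ((Algebra.norm ℤ a : ℤ) : 𝓞 F) := by
    have e1 := Ideal.absNorm_mem (Ideal.span {a})
    rw [Ideal.mem_span_singleton, Ideal.absNorm_span_singleton] at e1
    rcases Int.natAbs_eq (Algebra.norm ℤ a) with e2 | e2
    · rw [e2]
      rw [Int.cast_natCast]
      exact e1
    · rw [e2]
      rw [Int.cast_neg, Int.cast_natCast, dvd_neg]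
      exact e1
  obtain ⟨b, hb⟩ := h2
  obtain ⟨c, hc⟩ := h.exists_right_inv
  obtain ⟨c, rfl⟩ := ZMod.intCast_surjective c
  rw [← Int.cast_mul] at hc
  have h3 : ((Algebra.norm ℤ a * c - 1 : ℤ) : ZMod (p ^ N)) = 0 := by
    rw [Int.cast_sub, hc, Int.cast_one, sub_self]
  rw [ZMod.intCast_zmod_eq_zero_iff_dvd] at h3
  obtain ⟨d, hd⟩ := h3
  refine IsUnit.of_mul_eq_one (Ideal.Quotient.mk _ (b * (c : 𝓞 F))) ?_
  rw [← map_mul, ← map_one (Ideal.Quotient.mk (Ideal.span {((p : 𝓞 F)) ^ N})), Ideal.Quotient.eq,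
    Ideal.mem_span_singleton]
  refine ⟨(d : 𝓞 F), ?_⟩
  have h4 := congrArg (fun z : ℤ => (z : 𝓞 F)) hd
  simp only [Int.cast_sub, Int.cast_mul, Int.cast_one, Int.cast_natCast, Int.cast_pow, Nat.cast_pow] at h4
  rw [← h4, hb]
  ring

/-- `(p)` is a nonzero prime ideal, so maximal; `R 1` is a field with `p^2` elements (`card_RF`), the
units are the nonzero elements. -/
theorem card1_RF (h2 : Module.finrank ℚ F = 2) (hin : (Ideal.span {(p : 𝓞 F)}).IsPrime) :
    Nat.card {x : RF F p 1 // IsUnit x} = p ^ 2 - 1 := by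
  have hp : p.Prime := Fact.out
  have h0 : (p : 𝓞 F) ≠ 0 := by exact_mod_cast hp.ne_zero
  have hmax : (Ideal.span {((p : 𝓞 F)) ^ 1}).IsMaximal := by
    rw [pow_one]
    exact hin.isMaximal (by rwa [Ne, Ideal.span_singleton_eq_bot])
  letI : Field (RF F p 1) := Ideal.Quotient.field _
  have hc := card_RF F p h2 1
  have e1 : Nat.card {x : RF F p 1 // IsUnit x} = Nat.card {x : RF F p 1 // x ≠ 0} := by
    refine Nat.card_congr (Equiv.subtypeEquivRight fun x => ?_)
    exact isUnit_iff_ne_zero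
  rw [e1, Nat.card_eq_fintype_card, Fintype.card_subtype_compl, ← Nat.card_eq_fintype_card, hc, mul_one]
  simp

end SSF
end

-- from Lib.SSG.F.R3
section

/-! # SSG/F/R3 : the norm modulo an inert prime is `x ↦ x^(p+1)` -/

open Polynomial NumberField
open scoped Classical

namespace SSF

open SSG

variable (F : Type) [Field F] [NumberField F] (p : ℕ) [Fact p.Prime]

omit [Fact p.Prime] in
/-- Cayley-Hamilton. -/
theorem r3_ch (h2 : Module.finrank ℚ F = 2) (a : 𝓞 F) :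
    ∃ t : ℤ, a ^ 2 - (t : 𝓞 F) * a + ((Algebra.norm ℤ a : ℤ) : 𝓞 F) = 0 := by
  have hr : Module.finrank ℤ (𝓞 F) = 2 := (RingOfIntegers.rank F).trans h2
  let b : Module.Basis (Fin 2) ℤ (𝓞 F) := Module.finBasisOfFinrankEq ℤ (𝓞 F) hr
  let M := Algebra.leftMulMatrix b a
  refine ⟨M.trace, ?_⟩
  apply Algebra.leftMulMatrix_injective b
  have hn : Algebra.norm ℤ a = M.det := Algebra.norm_eq_matrix_det b a
  have hint : ∀ n : ℤ, Algebra.leftMulMatrix b (n : 𝓞 F) = (n : Matrix (Fin 2) (Fin 2) ℤ) := fun n => map_intCast _ n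
  rw [map_add, map_sub, map_mul, map_pow, map_zero, hint, hint, hn]
  show M ^ 2 - (M.trace : Matrix (Fin 2) (Fin 2) ℤ) * M + (M.det : Matrix (Fin 2) (Fin 2) ℤ) = 0
  have h3 : ∀ n : ℤ, (n : Matrix (Fin 2) (Fin 2) ℤ) = Matrix.diagonal fun _ => n := fun n => (Matrix.diagonal_intCast n).symm
  rw [h3, h3]
  ext i j
  fin_cases i <;> fin_cases j <;>
    simp [sq, Matrix.mul_apply, Fin.sum_univ_two, Matrix.trace, Matrix.det_fin_two] <;> ring

/-- `p ∣ norm a - a^(p+1)` in `𝓞 F`. PROOF. `a^2 - t a + n = 0` with `t = trace a`, `n = norm a`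
integers (Cayley-Hamilton for the 2 x 2 matrix of multiplication: `Matrix.aeval_self_charpoly`,
`Matrix.charpoly_fin_two`; or `Algebra.leftMulMatrix` with a basis of two elements; then `ā ↦` the
matrix is injective). In the field `κ = 𝓞 F / p` with `p^2` elements Frobenius gives
`ā^(2p) - t ā^p + n = 0` (integers are fixed by `x ↦ x^p` in characteristic `p`). If `ā^p ≠ ā` then
subtracting: `(ā^p - ā)(ā^p + ā - t) = 0`, so `t = ā + ā^p` and `n = t ā - ā^2 = ā^(p+1)`. If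
`ā^p = ā`, then `ā` is one of the `p` roots of `T^p - T`, which are the classes of integers:
`a = m + p c`, `norm a ≡ m^2` (`nmF_mk` with `N = 1`, `norm m = m^2`) and `m^2 ≡ m^(p+1)` (Fermat). -/
theorem norm_frob (h2 : Module.finrank ℚ F = 2) (hin : (Ideal.span {(p : 𝓞 F)}).IsPrime) (a : 𝓞 F) :
    (p : 𝓞 F) ∣ ((Algebra.norm ℤ a : ℤ) : 𝓞 F) - a ^ (p + 1) := by
  have hp := (Fact.out : p.Prime)
  have h0 : Ideal.span {(p : 𝓞 F)} ≠ ⊥ := by
    rw [Ne, Ideal.span_singleton_eq_bot]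
    exact Nat.cast_ne_zero.2 hp.ne_zero
  have hm : (Ideal.span {(p : 𝓞 F)}).IsMaximal := hin.isMaximal h0
  let _ : Field (𝓞 F ⧸ Ideal.span {(p : 𝓞 F)}) := Ideal.Quotient.field _
  have hp0 : (p : 𝓞 F ⧸ Ideal.span {(p : 𝓞 F)}) = 0 := by
    rw [← map_natCast (Ideal.Quotient.mk (Ideal.span {(p : 𝓞 F)})), Ideal.Quotient.eq_zero_iff_mem]
    exact Ideal.mem_span_singleton_self _
  have hchar : CharP (𝓞 F ⧸ Ideal.span {(p : 𝓞 F)}) p := (CharP.charP_iff_prime_eq_zero hp).2 hp0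
  have hfr : ∀ n : ℤ, ((n : 𝓞 F ⧸ Ideal.span {(p : 𝓞 F)})) ^ p = n := fun n => by
    rw [← frobenius_def, map_intCast]
  rw [← Ideal.mem_span_singleton, ← Ideal.Quotient.eq_zero_iff_mem, map_sub, map_pow, map_intCast, sub_eq_zero]
  obtain ⟨x, hx⟩ : ∃ x, x = Ideal.Quotient.mk (Ideal.span {(p : 𝓞 F)}) a := ⟨_, rfl⟩
  rw [← hx]
  obtain ⟨t, ht⟩ := r3_ch F h2 a
  have h3 := congrArg (Ideal.Quotient.mk (Ideal.span {(p : 𝓞 F)})) ht
  rw [map_add, map_sub, map_mul, map_pow, map_zero, map_intCast, map_intCast, ← hx] at h3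
  have h4 := congrArg (frobenius (𝓞 F ⧸ Ideal.span {(p : 𝓞 F)}) p) h3
  rw [map_add, map_sub, map_mul, map_pow, map_zero, map_intCast, map_intCast, frobenius_def] at h4
  by_cases hxp : x ^ p = x
  · obtain ⟨m, hm'⟩ : ∃ m : ℤ, x = m := by
      have h5 : x ∈ (⊥ : Subfield (𝓞 F ⧸ Ideal.span {(p : 𝓞 F)})) := (Subfield.mem_bot_iff_pow_eq_self (𝓞 F ⧸ Ideal.span {(p : 𝓞 F)}) p).2 hxp
      let _ : Algebra (ZMod p) (𝓞 F ⧸ Ideal.span {(p : 𝓞 F)}) := ZMod.algebra _ p
      have h6 : (⊥ : Subfield (𝓞 F ⧸ Ideal.span {(p : 𝓞 F)})) ≤ (algebraMap (ZMod p) (𝓞 F ⧸ Ideal.span {(p : 𝓞 F)})).fieldRange := bot_le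
      obtain ⟨y, hy⟩ := h6 h5
      obtain ⟨m, rfl⟩ := ZMod.intCast_surjective y
      exact ⟨m, by rw [← hy, map_intCast]⟩
    have h7 : mkF p 1 a = mkF p 1 (m : 𝓞 F) := by
      rw [mkF, mkF, Ideal.Quotient.eq, pow_one, ← Ideal.Quotient.eq, ← hx, hm', map_intCast]
    have h8 := nmF_mk F p 1 a
    rw [h7, nmF_mk] at h8
    have h9 : Algebra.norm ℤ (m : 𝓞 F) = m ^ 2 := by
      have h10 := Algebra.norm_algebraMap (S := 𝓞 F) m
      rw [RingOfIntegers.rank, h2] at h10
      exact h10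
    rw [h9, ZMod.intCast_eq_intCast_iff_dvd_sub, pow_one] at h8
    obtain ⟨c, hc⟩ := h8
    have h10 : Algebra.norm ℤ a = m ^ 2 + p * c := by rw [← hc]; ring
    have h11 : (m : 𝓞 F ⧸ Ideal.span {(p : 𝓞 F)}) ^ (p + 1) = m * m := by rw [pow_succ, hfr]
    rw [h10, hm', h11]
    push_cast
    rw [hp0]
    ring
  · have h5 : (x ^ p - x) * (x ^ p + x - t) = 0 := by
      linear_combination h4 - h3
    have h6 := (mul_eq_zero.1 h5).resolve_left (sub_ne_zero.2 hxp)
    rw [pow_succ]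
    linear_combination h3 - x * h6

end SSF
end

-- from Lib.SSG.F.R3B
section

/-! # SSG/F/R3B : elements of norm one modulo `p` -/

open Polynomial NumberField
open scoped Classical

namespace SSF

open SSG

variable (F : Type) [Field F] [NumberField F] (p : ℕ) [Fact p.Prime]

theorem r3b_int (hin : (Ideal.span {(p : 𝓞 F)}).IsPrime) (m : ℤ) (h : (p : 𝓞 F) ∣ (m : 𝓞 F)) : (p : ℤ) ∣ m := by
  have hp : p.Prime := Fact.out
  by_contra hc
  have hcop : IsCoprime (p : ℤ) m := (Nat.prime_iff_prime_int.1 hp).coprime_iff_not_dvd.2 hc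
  obtain ⟨u, v, huv⟩ := hcop
  apply hin.ne_top
  rw [Ideal.eq_top_iff_one, Ideal.mem_span_singleton]
  have h1 := congrArg (fun z : ℤ => (z : 𝓞 F)) huv
  simp only [Int.cast_add, Int.cast_mul, Int.cast_one, Int.cast_natCast] at h1
  rw [← h1]
  exact dvd_add (dvd_mul_left _ _) (h.mul_left _)

/-- `p + 1` elements of norm one. PROOF. By `norm_frob`: `nmF F p 1 x = 1` iff `x^(p+1) = 1` in the
field `R 1` (`norm a ≡ 1` mod `p` in `ℤ` iff mod `p` in `𝓞 F`: an integer divisible by `p` in `𝓞 F`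
is divisible by `p` in `ℤ`, take norms). The units of `R 1` form a cyclic group of order
`p^2 - 1 = (p+1)(p-1)`, so exactly `p + 1` of them satisfy `x^(p+1) = 1`
(`IsCyclic.card_pow_eq_one..`/`card_nthRoots`, `IsPrimitiveRoot` of order `p+1`). -/
theorem norm1_RF (h2 : Module.finrank ℚ F = 2) (hin : (Ideal.span {(p : 𝓞 F)}).IsPrime) :
    Nat.card {x : RF F p 1 // nmF F p 1 x = 1} = p + 1 := by
  have hp : p.Prime := Fact.out
  have h0 : (p : 𝓞 F) ≠ 0 := by exact_mod_cast hp.ne_zero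
  have hiff : ∀ x : RF F p 1, nmF F p 1 x = 1 ↔ x ^ (p + 1) = 1 := by
    intro x
    obtain ⟨a, rfl⟩ := Ideal.Quotient.mk_surjective x
    have h1 : nmF F p 1 (Ideal.Quotient.mk _ a) = ((Algebra.norm ℤ a : ℤ) : ZMod (p ^ 1)) := nmF_mk F p 1 a
    have hf := norm_frob F p h2 hin a
    rw [h1]
    have e1 : ((Algebra.norm ℤ a : ℤ) : ZMod (p ^ 1)) = 1 ↔ (p : ℤ) ∣ Algebra.norm ℤ a - 1 := by
      rw [← sub_eq_zero, ← Int.cast_one (R := ZMod (p ^ 1)), ← Int.cast_sub, ZMod.intCast_zmod_eq_zero_iff_dvd,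
        Nat.cast_pow, pow_one]
    have e2 : (Ideal.Quotient.mk (Ideal.span {((p : 𝓞 F)) ^ 1}) a) ^ (p + 1) = 1 ↔ (p : 𝓞 F) ∣ a ^ (p + 1) - 1 := by
      rw [← map_pow, ← map_one (Ideal.Quotient.mk (Ideal.span {((p : 𝓞 F)) ^ 1})), Ideal.Quotient.eq,
        Ideal.mem_span_singleton, pow_one]
    rw [e1, e2]
    constructor
    · rintro ⟨c, hc⟩
      have h3 : (p : 𝓞 F) ∣ ((Algebra.norm ℤ a : ℤ) : 𝓞 F) - 1 := by
        refine ⟨(c : 𝓞 F), ?_⟩
        have h4 := congrArg (fun z : ℤ => (z : 𝓞 F)) hc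
        simp only [Int.cast_sub, Int.cast_mul, Int.cast_one, Int.cast_natCast] at h4
        exact h4
      have h5 := dvd_sub h3 hf
      have h6 : ((Algebra.norm ℤ a : ℤ) : 𝓞 F) - 1 - (((Algebra.norm ℤ a : ℤ) : 𝓞 F) - a ^ (p + 1)) = a ^ (p + 1) - 1 := by
        ring
      rwa [h6] at h5
    · intro h3
      apply r3b_int F p hin
      have h5 := dvd_add hf h3
      have h6 : ((Algebra.norm ℤ a : ℤ) : 𝓞 F) - a ^ (p + 1) + (a ^ (p + 1) - 1) = ((Algebra.norm ℤ a - 1 : ℤ) : 𝓞 F) := by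
        push_cast
        ring
      rwa [h6] at h5
  have hmax : (Ideal.span {((p : 𝓞 F)) ^ 1}).IsMaximal := by
    rw [pow_one]
    exact hin.isMaximal (by rwa [Ne, Ideal.span_singleton_eq_bot])
  rw [Nat.card_congr (Equiv.subtypeEquivRight hiff)]
  letI : Field (RF F p 1) := Ideal.Quotient.field _
  have hcard : Nat.card (RF F p 1)ˣ = p ^ 2 - 1 := by
    rw [Nat.card_units, card_RF F p h2 1, mul_one]
  obtain ⟨g, hg⟩ := IsCyclic.exists_generator (α := (RF F p 1)ˣ)
  have hord : orderOf g = p ^ 2 - 1 := by rw [orderOf_eq_card_of_forall_mem_zpowers hg, hcard]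
  have hprod : p ^ 2 - 1 = (p - 1) * (p + 1) := by
    obtain ⟨q, rfl⟩ : ∃ q, p = q + 1 := ⟨p - 1, by have := hp.pos; omega⟩
    rw [Nat.add_sub_cancel]
    have : (q + 1) ^ 2 = q * (q + 1 + 1) + 1 := by ring
    rw [this, Nat.add_sub_cancel]
  have hprim : IsPrimitiveRoot g (p ^ 2 - 1) := by rw [← hord]; exact IsPrimitiveRoot.orderOf g
  have h2' := hp.two_le
  have hpos : 0 < p ^ 2 - 1 := by rw [hprod]; exact Nat.mul_pos (by omega) (by omega)
  have h3 : IsPrimitiveRoot (g ^ (p - 1)) (p + 1) := hprim.pow hpos hprod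
  have h4 : IsPrimitiveRoot ((g ^ (p - 1) : (RF F p 1)ˣ) : RF F p 1) (p + 1) := IsPrimitiveRoot.coe_units_iff.2 h3
  have h5 := h4.card_nthRootsFinset
  have h6 : Nat.card {x : RF F p 1 // x ^ (p + 1) = 1} = Nat.card {x : RF F p 1 // x ∈ nthRootsFinset (p + 1) (1 : RF F p 1)} := by
    refine Nat.card_congr (Equiv.subtypeEquivRight fun x => ?_)
    rw [mem_nthRootsFinset (by omega)]
  have h7 : Nat.card {x : RF F p 1 // x ∈ nthRootsFinset (p + 1) (1 : RF F p 1)} = p + 1 := by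
    rw [Nat.card_eq_fintype_card, Fintype.card_coe, h5]
  exact h6.trans h7

end SSF
end

-- from Lib.SSG.F.R4
section

/-! # SSG/F/R4 : good frames from data on `𝓞 F` -/

open Polynomial NumberField
open scoped Classical

namespace SSF

open SSG

variable {F : Type} [Field F] [NumberField F] {p : ℕ} [Fact p.Prime]

/-- THE CONSTRUCTOR: a frame is good if its coordinates come from functions `x N : 𝓞 F → L₀` with a
Galois group. PROOF. Build `D : LTD p (RF F p) L₀` with `red = redF`, `nm = nmF`, `X N y = x N (out y)`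
(so `X N (mk a) = x N a` by `hinj`), the ring fields are `fib_RF, nmred_RF, nmu_RF, card0_RF,
card1_RF, norm1_RF`; `Xinj`: `hinj`, `Ideal.Quotient.eq`; `Xg, Xpi`: choose a representative of the
class (`Ideal.Quotient.mk_surjective`), `redF_mk`; `gal`: the class of `u` is a unit because
`¬ p ∣ u` and `(p)` is prime (as in `X_lt`: maximal ideal, nilpotent), and
`ζ^(nrm u) = ζ^((nm u).val)` (exponents mod `p^N`, `nrm u = norm u` by `hpos`,
`nmF_mk`). -/
theorem good_of_data (h2 : Module.finrank ℚ F = 2) (hin : (Ideal.span {(p : 𝓞 F)}).IsPrime)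
    (hpos : ∀ a : 𝓞 F, 0 ≤ Algebra.norm ℤ a)
    {L₀ : Type} [NormedField L₀] [IsUltrametricDist L₀] {C : Type} [NormedField C]
    (j : L₀ →+* C) (hj : ∀ x, ‖j x‖ = ‖x‖) (hp0 : (p : L₀) ≠ 0) (hp1 : ‖(p : L₀)‖ < 1)
    (k : Subfield L₀) (G : Subgroup (RingAut L₀))
    (kval : ∀ x ∈ k, x ≠ 0 → ∃ n : ℤ, ‖x‖ = ‖(p : L₀)‖ ^ n)
    (giso : ∀ σ ∈ G, ∀ x : L₀, ‖σ x‖ = ‖x‖) (gk : ∀ σ ∈ G, ∀ x ∈ k, σ x = x)
    (gfix : ∀ x : L₀, (∀ σ ∈ G, σ x = x) → x ∈ k)
    (x : ℕ → 𝓞 F → L₀) (ζ : ℕ → L₀)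
    (hinj : ∀ N a b, x N a = x N b ↔ (p : 𝓞 F) ^ N ∣ a - b) (h0 : ∀ N, x N 0 = 0)
    (hg : ∀ N a, x (N + 1) a ^ (p ^ 2) - (p : L₀) * x (N + 1) a = x N a)
    (hpi : ∀ N a, x (N + 1) (-(p : 𝓞 F) * a) = x N a)
    (ζprim : ∀ N, IsPrimitiveRoot (ζ N) (p ^ N)) (ζp : ∀ N, ζ (N + 1) ^ p = ζ N)
    (gal : ∀ σ ∈ G, ∀ N, ∃ u : 𝓞 F, ¬ (p : 𝓞 F) ∣ u ∧ (∀ a, σ (x N a) = x N (u * a)) ∧
      σ (ζ N) = ζ N ^ nrm u)
    (L : LTF F C) (hX : ∀ N a, L.X N a = j (x N a)) (hz : ∀ N, L.z N = j (ζ N)) :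
    L.Good p := by
  have hpF : (p : 𝓞 F) ≠ 0 := by exact_mod_cast (Fact.out : p.Prime).ne_zero
  let X : ∀ N, RF F p N → L₀ := fun N y =>
    x N (Function.surjInv (Ideal.Quotient.mk_surjective (I := Ideal.span {((p : 𝓞 F)) ^ N})) y)
  have hXmk : ∀ N a, X N (mkF p N a) = x N a := by
    intro N a
    apply (hinj N _ _).2
    have h := Function.surjInv_eq
      (Ideal.Quotient.mk_surjective (I := Ideal.span {((p : 𝓞 F)) ^ N})) (mkF p N a)
    exact Ideal.mem_span_singleton.mp (Ideal.Quotient.eq.mp h)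
  have hnm : ∀ N (a : 𝓞 F), nmF F p N (mkF p N a) = ((nrm a : ℕ) : ZMod (p ^ N)) := by
    intro N a
    rw [nmF_mk]
    have h1 : (Algebra.norm ℤ a : ℤ) = ((nrm a : ℕ) : ℤ) := by
      unfold nrm
      rw [Int.natCast_natAbs, abs_of_nonneg (hpos a)]
    rw [h1]
    simp
  have hunit : ∀ N (u : 𝓞 F), ¬ (p : 𝓞 F) ∣ u → IsUnit (mkF p N u) := by
    intro N u hu
    have hmax : (Ideal.span {(p : 𝓞 F)}).IsMaximal := by
      apply Ideal.IsPrime.isMaximal hin
      rw [Ne, Ideal.span_singleton_eq_bot]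
      exact hpF
    have hnot : u ∉ Ideal.span {(p : 𝓞 F)} := by
      rwa [Ideal.mem_span_singleton]
    obtain ⟨b, c, hc, hbc⟩ := hmax.exists_inv hnot
    obtain ⟨d, rfl⟩ := Ideal.mem_span_singleton'.mp hc
    have hnil : IsNilpotent (mkF p N (d * (p : 𝓞 F))) := by
      refine ⟨N, ?_⟩
      rw [← map_pow, mul_pow]
      apply Ideal.Quotient.eq_zero_iff_mem.mpr
      exact Ideal.mem_span_singleton.mpr (Dvd.intro_left _ rfl)
    have h1 : mkF p N b * mkF p N u = 1 - mkF p N (d * (p : 𝓞 F)) := by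
      rw [← map_mul, eq_sub_iff_add_eq, ← map_add, hbc, map_one]
    have h2 : IsUnit (mkF p N b * mkF p N u) := by
      rw [h1]
      exact hnil.isUnit_one_sub
    exact isUnit_of_mul_isUnit_right h2
  let D : LTD p (RF F p) L₀ :=
    { red := redF F p
      nm := nmF F p
      k := k
      G := G
      X := X
      ζ := ζ
      hp0 := hp0
      hp1 := hp1
      kval := kval
      giso := giso
      gk := gk
      gfix := gfix
      fib := fib_RF F p h2
      nmred := nmred_RF F p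
      nmu := nmu_RF F p
      card0 := card0_RF F p h2
      card1 := card1_RF F p h2 hin
      norm1 := norm1_RF F p h2 hin
      X0 := by
        intro N
        have h := hXmk N 0
        have hz0 : mkF p N (0 : 𝓞 F) = 0 := map_zero (Ideal.Quotient.mk _)
        rw [hz0] at h
        rw [h, h0]
      Xinj := by
        intro N y y' h
        obtain ⟨a, rfl⟩ := Ideal.Quotient.mk_surjective y
        obtain ⟨b, rfl⟩ := Ideal.Quotient.mk_surjective y'
        have h' : x N a = x N b := by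
          rw [← hXmk N a, ← hXmk N b]; exact h
        exact Ideal.Quotient.eq.mpr (Ideal.mem_span_singleton.mpr ((hinj N a b).1 h'))
      Xg := by
        intro N y
        obtain ⟨a, rfl⟩ := Ideal.Quotient.mk_surjective y
        have h1 := hXmk (N + 1) a
        have h2 := hXmk N a
        change X (N + 1) (mkF p (N + 1) a) ^ (p ^ 2) - (p : L₀) * X (N + 1) (mkF p (N + 1) a) =
          X N (redF F p N (mkF p (N + 1) a))
        rw [redF_mk, h1, h2]
        exact hg N a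
      Xpi := by
        intro N y
        obtain ⟨a, rfl⟩ := Ideal.Quotient.mk_surjective y
        have h1 := hXmk (N + 1) (-(p : 𝓞 F) * a)
        have h2 := hXmk N a
        have h3 : -(p : RF F p (N + 1)) * mkF p (N + 1) a = mkF p (N + 1) (-(p : 𝓞 F) * a) := by
          simp only [mkF, map_mul, map_neg, map_natCast]
        change X (N + 1) (-(p : RF F p (N + 1)) * mkF p (N + 1) a) =
          X N (redF F p N (mkF p (N + 1) a))
        rw [redF_mk, h3, h1, h2]
        exact hpi N a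
      ζprim := ζprim
      ζp := ζp
      gal := by
        intro σ hσ N
        obtain ⟨u, hu, hux, huz⟩ := gal σ hσ N
        refine ⟨mkF p N u, hunit N u hu, ?_, ?_⟩
        · intro y
          obtain ⟨a, rfl⟩ := Ideal.Quotient.mk_surjective y
          have h1 := hXmk N a
          have h2 := hXmk N (u * a)
          change σ (X N (mkF p N a)) = X N (mkF p N u * mkF p N a)
          have h3 : mkF p N u * mkF p N a = mkF p N (u * a) := (map_mul (Ideal.Quotient.mk _) u a).symm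
          rw [h3, h1, h2]
          exact hux a
        · rw [huz, hnm, ZMod.val_natCast]
          exact pow_eq_pow_mod _ (ζprim N).pow_eq_one }
  refine ⟨L₀, inferInstance, inferInstance, D, j, hj, ?_, hz, ?_, ?_⟩
  · intro N a
    rw [hX]
    exact congrArg j (hXmk N a).symm
  · intro N a
    exact hnm N a
  · intro N a
    rfl

end SSF
end
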