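import Mathlib
import Pool.Agent.Lib.H1M.PP2.M012
import Pool.Agent.Lib.H1M.PP2.M014
import Pool.Agent.Lib.H1M.PP2.M020
import Pool.Agent.Lib.H1M.PP2.M037
import Pool.Agent.Lib.H1M.PP2.M048
import Pool.Agent.Lib.H1M.PP2.M060
import Pool.Agent.Lib.H1M.PP2.M071
import Pool.Agent.Lib.H1M.PP2.M077
import Pool.Agent.Lib.H1M.PP2.M093
import Pool.Agent.Lib.H1M.PP2.M095
import Pool.Agent.Lib.H1M.PP2.M103
import Pool.Agent.Lib.H1M.PP2.M109
import Pool.Agent.Lib.H1M.PP2.M114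
import Pool.Agent.Lib.H1M.PP2.M117
import Pool.Agent.Lib.H1M.PP2.M118

/-! Merged copies (to shorten the build) of Lib.H16S.Q1, Lib.H16S.Q3, Lib.H16S.Q4, Lib.H16S.Q6, Lib.H16S.Q2, Lib.SSG.LT.XM3, Lib.SSG.LT.XM4, Lib.SSG.Z.G6, Lib.SSG.LT.Fin, Lib.SSG.S.D2, Lib.SSG.S.D4. -/

-- from Lib.H16S.Q1
section

/-! # H16S, chunk Q1 (M): the coordinate on the kernel of reduction -/

open NumberField IsDedekindDomain WeierstrassCurve

namespace H16S

attribute [local instance] H16S.nfOC H16S.ultOC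

open H55P (IQ Pt ac Inert Dec Nm)
open H35P (WAB Ker tt)
open H55K
open H35L (Gc Gen dV)

variable {F : Type} [Field F] [NumberField F] [IQ F] {A B : F} {Om : ℂ} {Ω : Type} [Field Ω] [DecidableEq Ω]
  [Algebra F Ω] [IsAlgClosure F Ω] {j : Ω →+* ℂ} {act : 𝓞 F →+* AddMonoid.End (Pt (WAB A B) Ω)} {V : ValuationSubring Ω}
  {C : Type} [NormedField C] [IsUltrametricDist C] {i : Ω →+* C} {p : ℕ}

/-- Chunk Q1 (S). H55K.ttlt, n1_lt1. -/
theorem q1_lt (h : Ctx F p V i) (hG : GV A B V) (P : kerG hG) : ‖tG i hG P‖ < 1 := by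
  show ‖toC i (tt P.1)‖ < 1
  rw [toC_norm]
  exact (n1_lt1 h _).1 (H55K.ttlt hG P.2)

/-- Chunk Q1 (S). H55K.tt_zero. -/
theorem q1_zero (hG : GV A B V) (P : kerG hG) : tG i hG P = 0 ↔ P = 0 := by
  have h1 : tG i hG P = 0 ↔ tt P.1 = 0 := by
    show toC i (tt P.1) = 0 ↔ _
    rw [← toC_zero i, toC_inj]
  rw [h1, H55K.tt_zero hG P.2]
  exact ⟨fun h => Subtype.ext h, fun h => by rw [h]; rfl⟩

/-- Chunk Q1 (S). H55K.tt_neg. -/
theorem q1_neg (hG : GV A B V) (P : kerG hG) : tG i hG (-P) = -tG i hG P := by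
  show toC i (tt (-P.1)) = -toC i (tt P.1)
  rw [H55K.tt_neg, toC_neg]

/-- Chunk Q1 (S/M). tt_sub (A3E.lean) for the curve (WAB A B)⁄Ω (IsShortNF by inferInstance; IntW: (H55K.gv_good hG).toIntW; 2 ≠ 0: hG.two), with c the larger one of V (tt P), V (tt Q) (< 1 by H55K.ttlt; c^4 ≤ c^2). c is V of one of the two coordinates t, so the right side is V ((tt P - tt Q) * t^2) and n1_le applies. -/
theorem q1_sub (h : Ctx F p V i) (hG : GV A B V) (P Q : kerG hG) :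
    ‖tG i hG (P - Q) - (tG i hG P - tG i hG Q)‖ ≤ ‖tG i hG P - tG i hG Q‖ * max ‖tG i hG P‖ ‖tG i hG Q‖ ^ 2 := by
  have key : ∀ c : Ω, V.valuation c < 1 → V.valuation (tt P.1) ≤ V.valuation c → V.valuation (tt Q.1) ≤ V.valuation c →
      ‖tG i hG (P - Q) - (tG i hG P - tG i hG Q)‖ ≤ ‖tG i hG P - tG i hG Q‖ * ‖i c‖ ^ 2 := by
    intro c hc h1 h3
    have h4 := tt_sub (W := (WAB A B)⁄Ω) (V := V) (fun h0 => by
      have := hG.two
      rw [h0, map_zero] at this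
      exact zero_ne_one this) (H55K.gv_good hG).toIntW P.2 Q.2 hc h1 h3
    have h5 : V.valuation (tt (P.1 - Q.1) - (tt P.1 - tt Q.1)) ≤ V.valuation ((tt P.1 - tt Q.1) * c ^ 2) := by
      rw [map_mul, map_pow]
      refine h4.trans (mul_le_mul_right ?_ _)
      exact pow_le_pow_right_of_le_one' hc.le (by norm_num)
    have h6 := (n1_le h _ _).1 h5
    have e1 : tG i hG (P - Q) - (tG i hG P - tG i hG Q) = toC i (tt (P.1 - Q.1) - (tt P.1 - tt Q.1)) := rfl
    have e2 : tG i hG P - tG i hG Q = toC i (tt P.1 - tt Q.1) := rfl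
    rw [e1, e2, toC_norm, toC_norm, ← norm_pow, ← norm_mul, ← map_pow, ← map_mul]
    exact h6
  have hP : V.valuation (tt P.1) < 1 := H55K.ttlt hG P.2
  have hQ : V.valuation (tt Q.1) < 1 := H55K.ttlt hG Q.2
  have eP : ‖i (tt P.1)‖ = ‖tG i hG P‖ := rfl
  have eQ : ‖i (tt Q.1)‖ = ‖tG i hG Q‖ := rfl
  rcases le_total (V.valuation (tt P.1)) (V.valuation (tt Q.1)) with h1 | h1
  · have h2 := key (tt Q.1) hQ h1 le_rfl
    have h3 : ‖tG i hG P‖ ≤ ‖tG i hG Q‖ := (n1_le h _ _).1 h1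
    rw [max_eq_right h3, ← eQ]
    exact h2
  · have h2 := key (tt P.1) hP le_rfl h1
    have h3 : ‖tG i hG Q‖ ≤ ‖tG i hG P‖ := (n1_le h _ _).1 h1
    rw [max_eq_left h3, ← eP]
    exact h2

/-- Chunk Q1 (S). The coordinate is injective: q1_sub, q1_zero. -/
theorem q1_inj (h : Ctx F p V i) (hG : GV A B V) {P Q : kerG hG} (hPQ : tG i hG P = tG i hG Q) : P = Q := by
  have h1 := q1_sub h hG P Q
  rw [hPQ, sub_self, sub_zero, norm_zero, zero_mul] at h1
  have h2 : tG i hG (P - Q) = 0 := norm_le_zero_iff.1 h1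
  exact sub_eq_zero.1 ((q1_zero hG _).1 h2)

/-- Chunk Q1 (S). H55K.tt_ac. -/
theorem q1_act (hG : GV A B V) {γ : Ω ≃ₐ[F] Ω} (hγ : Dec V γ) (P : kerG hG) : tG i hG (gG hG hγ P) = gO i γ (tG i hG P) := by
  show toC i (tt (ac (WAB A B) γ P.1)) = gO i γ (toC i (tt P.1))
  rw [H55K.tt_ac, gO_apply]

/-- Chunk Q1 (S/M). PROOF. s P and P are both in the kernel (gG for s) and have the coordinates s t, t: q1_inj, q1_act, mem_Hn. -/
theorem q1_mem (h : Ctx F p V i) (hG : GV A B V) (n : ℕ) (P : kerG hG) : P ∈ En hG p n ↔ tG i hG P ∈ Hn V p i F n := by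
  constructor
  · intro hP s hs hg
    have h1 := (mem_En hG p n P).1 hP s hs hg
    have h2 : gG hG hs P = P := Subtype.ext h1
    rw [← q1_act hG hs P, h2]
  · intro hP
    rw [mem_En]
    intro s hs hg
    have h1 : gO i s (tG i hG P) = tG i hG P := hP s hs hg
    rw [← q1_act hG hs P] at h1
    exact congrArg Subtype.val (q1_inj h hG h1)

end H16S
end

-- from Lib.H16S.Q3
section

/-! # H16S, chunk Q3 (M): multiplication by p -/

open NumberField IsDedekindDomain WeierstrassCurve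

namespace H16S

attribute [local instance] H16S.nfOC H16S.ultOC

open H55P (IQ Pt ac Inert Dec Nm)
open H35P (WAB Ker tt)
open H55K
open H35L (Gc Gen dV)

variable {F : Type} [Field F] [NumberField F] [IQ F] {A B : F} {Om : ℂ} {Ω : Type} [Field Ω] [DecidableEq Ω]
  [Algebra F Ω] [IsAlgClosure F Ω] {j : Ω →+* ℂ} {act : 𝓞 F →+* AddMonoid.End (Pt (WAB A B) Ω)} {V : ValuationSubring Ω}
  {C : Type} [NormedField C] [IsUltrametricDist C] {i : Ω →+* C} {p : ℕ}

/-- Chunk Q3 (M). PROOF. U from exists_W (B1.lean) for A, B over F. μ from pt_map (classical DecidableEq on C), ker_map: μ P is in Ker (ball C). f12_pt: tt (p • μ P) = ev (tt (μ P)) = the value e of the series T_p at z = i (tt P); μ is additive: tt (μ (p • P)) = i (tt (p • P)). f12_val for z: ‖e - p z + z^(p²)‖ ≤ ‖p‖ ‖z‖².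
In OC i: norms are norms of images under i (toC_norm, toC_add, toC_mul, toC_pow, toC_nat; map_sub etc. for i). ((p • P : kerG hG)).1 = p • P.1. -/
theorem q3 [CompleteSpace C] (h : Ctx F p V i) (hA : CMA F A B Om j act) (hS : Sup act p) (hG : GV A B V) (P : kerG hG) :
    ‖tG i hG (p • P) - p * tG i hG P + tG i hG P ^ p ^ 2‖ ≤ ‖(p : OC i)‖ * ‖tG i hG P‖ ^ 2 := by
  classical
  obtain ⟨U, hU⟩ := exists_W (a := A) (b := B)
  obtain ⟨μ, hμ, hc⟩ := pt_map (A := A) (B := B) i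
  have hker := (ker_map i h.mem hμ (fun P => (hc P).1) P.1).2 P.2
  have h1 := (f12_pt (p := p) hG hU i h.mem).1 (μ P.1) hker
  have hz : ‖tt (μ P.1)‖ < 1 := by
    rw [(hc P.1).2.2]
    exact q1_lt h hG P
  have h2 := ((f12_val hA h.pr h.five h.inert hS hG h.above hU i h.mem).1 _ hz).2
  rw [← h1, ← map_nsmul, (hc _).2.2, (hc _).2.2] at h2
  have e : tG i hG (p • P) - p * tG i hG P + tG i hG P ^ p ^ 2 =
      toC i (tt (p • P.1) - (p : Ω) * tt P.1 + tt P.1 ^ p ^ 2) := by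
    rw [toC_add, toC_sub, toC_mul, toC_pow, toC_nat]
    rfl
  have e2 : ‖(p : OC i)‖ = ‖(p : C)‖ := by
    rw [← toC_nat, toC_norm, map_natCast]
  have e3 : ‖tG i hG P‖ = ‖i (tt P.1)‖ := rfl
  rw [e, toC_norm, map_add, map_sub, map_mul, map_pow, map_natCast, e2, e3]
  exact h2

end H16S
end

-- from Lib.H16S.Q4
section

/-! # H16S, chunk Q4 (M): p-division points over C come from Ω -/

open NumberField IsDedekindDomain WeierstrassCurve

namespace H16S

attribute [local instance] H16S.nfOC H16S.ultOC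

open H55P (IQ Pt ac Inert Dec Nm)
open H35P (WAB Ker tt)
open H55K
open H35L (Gc Gen dV)

variable {F : Type} [Field F] [NumberField F] [IQ F] {A B : F} {Om : ℂ} {Ω : Type} [Field Ω] [DecidableEq Ω]
  [Algebra F Ω] [IsAlgClosure F Ω] {j : Ω →+* ℂ} {act : 𝓞 F →+* AddMonoid.End (Pt (WAB A B) Ω)} {V : ValuationSubring Ω}
  {C : Type} [NormedField C] [IsUltrametricDist C] {i : Ω →+* C} {p : ℕ}

/-- Chunk Q4a (S/M). A root in C of a nonzero polynomial over Ω is in the image of i: Ω is algebraically closed, the polynomial splits over Ω, so its roots in C are the images of its roots in Ω (Polynomial.Splits; or map_roots / IsAlgClosed.splits and eval of a product). -/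
theorem q4_root (F : Type) [Field F] {Ω : Type} [Field Ω] [Algebra F Ω] [IsAlgClosure F Ω] {C : Type} [Field C] (i : Ω →+* C)
    {f : Polynomial Ω} (hf : f ≠ 0) {x : C} (hx : (f.map i).eval x = 0) : ∃ y : Ω, i y = x := by
  have : IsAlgClosed Ω := IsAlgClosure.isAlgClosed F
  have hs := IsAlgClosed.splits f
  have h1 : x ∈ (f.map i).roots := by
    rw [Polynomial.mem_roots ((Polynomial.map_ne_zero_iff i.injective).2 hf)]
    exact hx
  rw [hs.roots_map i, Multiset.mem_map] at h1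
  obtain ⟨y, _, hy⟩ := h1
  exact ⟨y, hy⟩

/-- Chunk Q4b (M). PROOF. Q₀ with p • Q₀ = R (CMA.surj for b = p ≠ 0; act of the natural number p is multiplication by p: map_natCast). T = P - μ Q₀, p • T = 0. If T = 0 take Q = Q₀. Otherwise T has the exact order p (prime), psi_zero (G0.lean; 2 ≠ 0 in C; the curve over C is WR a b, short) gives ΨSq_p(x(T)) = 0; ΨSq_p over C is the image of ΨSq_p over Ω
(WeierstrassCurve.map_ΨSq, WR_map), which is not 0: its coefficient of degree p² - 1 is p² (coeff_ΨSq). q4_root: x(T) = i x₀. y(T)² = x³ + a x + b (H55K.eqn): y(T) is a root of Y² - i(..): q4_root: y(T) = i y₀. (x₀, y₀) satisfies the equation (i injective) and is a nonsingular point S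
(the curve has discriminant not 0: CMA.disc) with μ S = T (coordinates: h, H55K.pt_ext for nonzero points). Q = Q₀ + S. -/
theorem q4 [DecidableEq C] (hp : p.Prime) (hA : CMA F A B Om j act)
    {μ : Pt (WAB A B) Ω →+ (WR (i (algebraMap F Ω A)) (i (algebraMap F Ω B))).toAffine.Point} (hμ : Function.Injective μ)
    (h : ∀ P, xc (μ P) = i (xc P) ∧ yc (μ P) = i (yc P))
    {P : (WR (i (algebraMap F Ω A)) (i (algebraMap F Ω B))).toAffine.Point} {R : Pt (WAB A B) Ω} (hP : p • P = μ R) :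
    ∃ Q, μ Q = P := by
  have hp0 : (p : 𝓞 F) ≠ 0 := Nat.cast_ne_zero.2 hp.ne_zero
  obtain ⟨Q₀, hQ₀⟩ := hA.surj (p : 𝓞 F) hp0 R
  have hQp : p • Q₀ = R := by
    rw [map_natCast] at hQ₀
    exact hQ₀
  by_cases hT : P - μ Q₀ = 0
  · exact ⟨Q₀, (sub_eq_zero.1 hT).symm⟩
  have hpT : p • (P - μ Q₀) = 0 := by
    rw [smul_sub, hP, ← map_nsmul, hQp, sub_self]
  have hF0 : ∀ n : ℕ, n ≠ 0 → (n : Ω) ≠ 0 := by
    intro n hn
    have h1 : (algebraMap F Ω) (n : F) ≠ 0 := (map_ne_zero _).2 (Nat.cast_ne_zero.2 hn)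
    rwa [map_natCast] at h1
  have h2 : (2 : C) ≠ 0 := by
    have h3 : i ((2 : ℕ) : Ω) ≠ 0 := (map_ne_zero i).2 (hF0 2 (by norm_num))
    rw [map_natCast] at h3
    exact_mod_cast h3
  have hord : ∀ j : ℕ, 0 < j → j < p → j • (P - μ Q₀) ≠ 0 := by
    intro j hj hjp h0
    have : Fact p.Prime := ⟨hp⟩
    have h3 := addOrderOf_eq_prime hpT hT
    have h4 := addOrderOf_dvd_of_nsmul_eq_zero h0
    rw [h3] at h4
    exact absurd (Nat.le_of_dvd hj h4) (by omega)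
  have hz := psi_zero (W := WR (i (algebraMap F Ω A)) (i (algebraMap F Ω B))) h2 hT p hp.two_le hord hpT
  have hΨ : (WR (i (algebraMap F Ω A)) (i (algebraMap F Ω B))).ΨSq (p : ℤ) =
      ((WR (algebraMap F Ω A) (algebraMap F Ω B)).ΨSq (p : ℤ)).map i := by
    rw [← WR_map i, WeierstrassCurve.map_ΨSq]
  rw [hΨ] at hz
  have hne : (WR (algebraMap F Ω A) (algebraMap F Ω B)).ΨSq (p : ℤ) ≠ 0 := by
    apply WeierstrassCurve.ΨSq_ne_zero
    have := hF0 p hp.ne_zero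
    exact_mod_cast this
  obtain ⟨x₀, hx₀⟩ := q4_root F i hne hz
  have hE := H55K.eqn hT
  have hfy : (Polynomial.X ^ 2 - Polynomial.C (x₀ ^ 3 + algebraMap F Ω A * x₀ + algebraMap F Ω B) : Polynomial Ω) ≠ 0 :=
    (Polynomial.monic_X_pow_sub_C _ two_ne_zero).ne_zero
  have hyr : ((Polynomial.X ^ 2 - Polynomial.C (x₀ ^ 3 + algebraMap F Ω A * x₀ + algebraMap F Ω B) : Polynomial Ω).map i).eval
      (yc (P - μ Q₀)) = 0 := by
    rw [Polynomial.map_sub, Polynomial.map_pow, Polynomial.map_X, Polynomial.map_C, Polynomial.eval_sub, Polynomial.eval_pow,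
      Polynomial.eval_X, Polynomial.eval_C, hE, map_add, map_add, map_mul, map_pow, hx₀]
    show _ + i (algebraMap F Ω A) * _ + i (algebraMap F Ω B) - _ = 0
    ring
  obtain ⟨y₀, hy₀⟩ := q4_root F i hfy hyr
  have hEq : y₀ ^ 2 = x₀ ^ 3 + algebraMap F Ω A * x₀ + algebraMap F Ω B := by
    apply i.injective
    rw [map_add, map_add, map_mul, map_pow, map_pow, hx₀, hy₀]
    exact hE
  have hΔ : ((WAB A B)⁄Ω).toAffine.Δ ≠ 0 := by
    show ((WAB A B)⁄Ω).Δ ≠ 0
    rw [H55K.s_Δ]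
    have h5 : (-16 : Ω) * (4 * ((WAB A B)⁄Ω).a₄ ^ 3 + 27 * ((WAB A B)⁄Ω).a₆ ^ 2) =
        algebraMap F Ω (-16 * (4 * A ^ 3 + 27 * B ^ 2)) := by
      have h6 : ((WAB A B)⁄Ω).a₄ = algebraMap F Ω A := rfl
      have h7 : ((WAB A B)⁄Ω).a₆ = algebraMap F Ω B := rfl
      have e16 : algebraMap F Ω 16 = 16 := map_ofNat (algebraMap F Ω) 16
      have e4 : algebraMap F Ω 4 = 4 := map_ofNat (algebraMap F Ω) 4
      have e27 : algebraMap F Ω 27 = 27 := map_ofNat (algebraMap F Ω) 27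
      rw [h6, h7, map_mul, map_neg, map_add, map_mul, map_mul, map_pow, map_pow, e16, e4, e27]
    rw [h5, map_ne_zero]
    exact mul_ne_zero (by norm_num) hA.disc
  have hns : ((WAB A B)⁄Ω).toAffine.Nonsingular x₀ y₀ := by
    rw [← WeierstrassCurve.Affine.equation_iff_nonsingular_of_Δ_ne_zero hΔ, H55K.s_eq]
    exact hEq
  let S : Pt (WAB A B) Ω := Affine.Point.some x₀ y₀ hns
  have hS : S ≠ 0 := Affine.Point.some_ne_zero hns
  have hμS : μ S ≠ 0 := fun h0 => hS (hμ (by rw [h0, map_zero]))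
  have hST : μ S = P - μ Q₀ := by
    refine H55K.pt_ext hμS hT ?_ ?_
    · rw [(h S).1]
      exact hx₀
    · rw [(h S).2]
      exact hy₀
  exact ⟨Q₀ + S, by rw [map_add, hST]; abel⟩

end H16S
end

-- from Lib.H16S.Q6
section

/-! # H16S, chunk Q6 (M): division by p -/

open NumberField IsDedekindDomain WeierstrassCurve

namespace H16S

attribute [local instance] H16S.nfOC H16S.ultOC

open H55P (IQ Pt ac Inert Dec Nm)
open H35P (WAB Ker tt)
open H55K
open H35L (Gc Gen dV)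

variable {F : Type} [Field F] [NumberField F] [IQ F] {A B : F} {Om : ℂ} {Ω : Type} [Field Ω] [DecidableEq Ω]
  [Algebra F Ω] [IsAlgClosure F Ω] {j : Ω →+* ℂ} {act : 𝓞 F →+* AddMonoid.End (Pt (WAB A B) Ω)} {V : ValuationSubring Ω}
  {C : Type} [NormedField C] [IsUltrametricDist C] {i : Ω →+* C} {p : ℕ}

theorem q6_pn : ‖(p : OC i)‖ = ‖i (p : Ω)‖ := by
  rw [← toC_nat, toC_norm]

/-- The coordinate is injective on the kernel over C. -/
theorem q6_inj {K : Type} [Field K] [DecidableEq K] {W : WeierstrassCurve K} [W.IsShortNF] {V : ValuationSubring K} (h2 : (2 : K) ≠ 0)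
    (hI : H35P.IntW W V) {P Q : W.toAffine.Point} (hP : Ker V P) (hQ : Ker V Q) (h : tt P = tt Q) : P = Q := by
  have h3 := tt_sub h2 hI hP hQ (c := max (V.valuation (tt P)) (V.valuation (tt Q)))
    (max_lt (H35P.tt_lt hI P hP) (H35P.tt_lt hI Q hQ)) (le_max_left _ _) (le_max_right _ _)
  rw [h, sub_self, sub_zero, map_zero, zero_mul, le_zero_iff, map_eq_zero] at h3
  have h4 := (H35P.tt_eq_zero hI _ (H35P.ker_sub hI P Q hP hQ)).1 h3
  exact sub_eq_zero.1 h4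

/-- Chunk Q6a (S/M). Uniqueness: D in the kernel of reduction, p • D = 0, ‖t D‖ ≤ ‖p‖: D = 0. PROOF. q3: ‖p t - t^(p²)‖ ≤ ‖p‖ ‖t‖² (t = t D, t (p • D) = 0). If t ≠ 0: ‖t^(p²)‖ ≤ ‖p‖ ‖t‖² .. : ‖t‖^(p²) ≤ ‖t‖³ < ‖p‖ ‖t‖ because ‖t‖ ≤ ‖p‖ < 1, p² ≥ 3, and ‖p‖ ‖t‖² < ‖p‖ ‖t‖: contradiction with ‖p t‖ = ‖p‖ ‖t‖. -/
theorem q6_zero [CompleteSpace C] (h : Ctx F p V i) (hA : CMA F A B Om j act) (hS : Sup act p) (hG : GV A B V) {D : kerG hG}
    (h1 : p • D = 0) (h2 : ‖tG i hG D‖ ≤ ‖(p : OC i)‖) : D = 0 := by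
  rw [← q1_zero (i := i) hG D]
  by_contra hne
  have h3 := q3 (C := C) h hA hS hG D
  have h4 : tG i hG (p • D) = 0 := by
    rw [h1]
    exact (q1_zero hG 0).2 rfl
  rw [h4] at h3
  obtain ⟨hp1, hp0⟩ := n1_p h
  rw [← q6_pn] at hp1 hp0
  set t := tG i hG D with ht
  set π : ℝ := ‖(p : OC i)‖ with hπ
  have ht0 : 0 < ‖t‖ := norm_pos_iff.2 hne
  have ht1 : ‖t‖ < 1 := lt_of_le_of_lt h2 hp1
  have h5 : ‖(p : OC i) * t‖ ≤ π * ‖t‖ ^ 2 := by
    have h6 : (p : OC i) * t = t ^ p ^ 2 + -(0 - p * t + t ^ p ^ 2) := by ring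
    rw [h6]
    refine (IsUltrametricDist.norm_add_le_max _ _).trans (max_le ?_ ?_)
    · rw [norm_pow]
      have h7 : ‖t‖ ^ p ^ 2 ≤ ‖t‖ ^ 3 := by
        refine pow_le_pow_of_le_one (norm_nonneg _) ht1.le ?_
        have := h.five
        nlinarith
      calc ‖t‖ ^ p ^ 2 ≤ ‖t‖ ^ 3 := h7
        _ = ‖t‖ * ‖t‖ ^ 2 := by ring
        _ ≤ π * ‖t‖ ^ 2 := mul_le_mul_of_nonneg_right h2 (by positivity)
    · rw [norm_neg]
      exact h3
  rw [norm_mul] at h5
  have h8 : π * ‖t‖ ^ 2 < π * ‖t‖ := by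
    refine mul_lt_mul_of_pos_left ?_ hp0
    nlinarith
  exact absurd (lt_of_le_of_lt h5 h8) (lt_irrefl _)

/-- Chunk Q6b (M). PROOF. U, μ as in q3; E z = the value of T_p at z. f12_val gives the hypotheses of q5 (q = p in C, N = p², c = i (tt R.1), ‖c‖ ≤ ‖p‖²): z with ‖z‖ ≤ ‖p‖, E z = c. f12_pt: P_C in Ker (ball C) with tt P_C = z, tt (p • P_C) = E z = tt (μ R). Both p • P_C and μ R are in the kernel (for p • P_C: closed under addition, H35P.ker_add or
H55K.kadd), and tt is injective on the kernel over C (as q1_inj: tt_sub for the curve over C with V = ball C; or H35P.tt_eq_zero for the difference with tt_sub): p • P_C = μ R. q4: P_C = μ Q, Q in Ker V (ker_map), i (tt Q) = z, p • Q = R (μ injective). Q is of level n: for s in Dec V, Gc p n s: D = s Q - Q (in the kernel: gG) has p • D = s R - R = 0 and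
‖t D‖ ≤ ‖p‖ (q1_sub: ‖t (sQ) - t Q‖ ≤ max, n1_dec: ‖s z‖ = ‖z‖ ≤ ‖p‖): q6_zero. -/
theorem q6 [CompleteSpace C] (h : Ctx F p V i) (hA : CMA F A B Om j act) (hS : Sup act p) (hG : GV A B V) (n : ℕ) {R : kerG hG}
    (hR : R ∈ En hG p n) (h1 : ‖tG i hG R‖ ≤ ‖(p : OC i)‖ ^ 2) : ∃ P ∈ En hG p n, ‖tG i hG P‖ ≤ ‖(p : OC i)‖ ∧ p • P = R := by
  classical
  obtain ⟨U, hU⟩ := exists_W (a := A) (b := B)
  obtain ⟨μ, hμ, hμ3⟩ := pt_map (A := A) (B := B) i
  obtain ⟨hp1, hp0⟩ := n1_p h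
  have hip : i (p : Ω) = (p : C) := map_natCast i p
  rw [hip] at hp1 hp0
  have hpn : ‖(p : OC i)‖ = ‖(p : C)‖ := by rw [q6_pn, hip]
  obtain ⟨hv1, hv2⟩ := f12_val hA h.pr h.five h.inert hS hG h.above hU i h.mem
  obtain ⟨hpt1, hpt2⟩ := f12_pt hG (p := p) hU i h.mem
  have hN : 4 ≤ p ^ 2 := by
    have := h.five
    nlinarith
  have hc : ‖i (tt R.1)‖ ≤ ‖(p : C)‖ ^ 2 := by
    rw [← hpn]
    exact h1
  obtain ⟨z, hz, hEz⟩ := q5 hp0 hp1 hN (fun z => ev (i.comp (algebraMap F Ω)) z (TW A B U p).1)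
    (fun z hz => (hv1 z hz).2) hv2 hc
  obtain ⟨PC, hPC, hPCz⟩ := hpt2 z (lt_of_le_of_lt hz hp1)
  have hI : H35P.IntW (WR (i (algebraMap F Ω A)) (i (algebraMap F Ω B))) (ball C) := by
    refine ⟨?_, ?_, ?_, ?_, ?_⟩
    · exact (ball C).zero_mem
    · exact (ball C).zero_mem
    · exact (ball C).zero_mem
    · exact (mem_ball _).2 ((h.mem _).1 hG.a)
    · exact (mem_ball _).2 ((h.mem _).1 hG.b)
  have h2 : (2 : C) ≠ 0 := by
    have h3 : (2 : Ω) ≠ 0 := by
      intro h4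
      have h5 := hG.two
      rw [h4, map_zero] at h5
      exact zero_ne_one h5
    have h6 : i (2 : Ω) = (2 : C) := map_ofNat i 2
    rw [← h6]
    exact (map_ne_zero i).2 h3
  have hkn : ∀ m : ℕ, Ker (ball C) (m • PC) := by
    intro m
    induction m with
    | zero =>
      rw [zero_nsmul]
      trivial
    | succ m ih =>
      rw [succ_nsmul]
      exact H35P.ker_add hI _ _ ih hPC
  have hμR : Ker (ball C) (μ R.1) := (ker_map i h.mem hμ (fun P => (hμ3 P).1) R.1).2 R.2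
  have e1 : p • PC = μ R.1 := by
    refine q6_inj h2 hI (hkn p) hμR ?_
    rw [hpt1 PC hPC, hPCz, (hμ3 R.1).2.2]
    exact hEz
  obtain ⟨Q, hQ⟩ := q4 h.pr hA hμ (fun P => ⟨(hμ3 P).1, (hμ3 P).2.1⟩) e1
  have hQk : Ker V Q := by
    rw [← ker_map i h.mem hμ (fun P => (hμ3 P).1) Q, hQ]
    exact hPC
  have hQz : i (tt Q) = z := by
    rw [← (hμ3 Q).2.2, hQ, hPCz]
  have hpQ : p • Q = R.1 := by
    apply hμ
    rw [map_nsmul, hQ, e1]
  let P : kerG hG := ⟨Q, hQk⟩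
  have hPR : p • P = R := Subtype.ext hpQ
  have hPn : ‖tG i hG P‖ ≤ ‖(p : OC i)‖ := by
    rw [hpn]
    show ‖i (tt Q)‖ ≤ _
    rw [hQz]
    exact hz
  refine ⟨P, ?_, hPn, hPR⟩
  rw [mem_En]
  intro s hs hGc
  have : Algebra.IsAlgebraic F Ω := IsAlgClosure.isAlgebraic
  have hD0 : gG hG hs P - P = 0 := by
    refine q6_zero (C := C) (i := i) h hA hS hG ?_ ?_
    · rw [nsmul_sub, ← map_nsmul, hPR, sub_eq_zero]
      exact Subtype.ext ((mem_En hG p n R).1 hR s hs hGc)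
    · have hlt := q1_lt (i := i) h hG P
      have hlt' := q1_lt (i := i) h hG (gG hG hs P)
      have hsn : ‖tG i hG (gG hG hs P)‖ ≤ ‖(p : OC i)‖ := by
        rw [q1_act]
        show ‖i (s (tt Q))‖ ≤ _
        rw [n1_dec h hs]
        exact hPn
      have hd : ‖tG i hG (gG hG hs P) - tG i hG P‖ ≤ ‖(p : OC i)‖ := by
        rw [sub_eq_add_neg]
        refine (IsUltrametricDist.norm_add_le_max _ _).trans (max_le hsn ?_)
        rw [norm_neg]
        exact hPn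
      have h3 := q1_sub h hG (gG hG hs P) P (i := i)
      have h4 : tG i hG (gG hG hs P - P) = (tG i hG (gG hG hs P - P) -
          (tG i hG (gG hG hs P) - tG i hG P)) + (tG i hG (gG hG hs P) - tG i hG P) := by ring
      rw [h4]
      refine (IsUltrametricDist.norm_add_le_max _ _).trans (max_le (h3.trans ?_) hd)
      calc ‖tG i hG (gG hG hs P) - tG i hG P‖ * max ‖tG i hG (gG hG hs P)‖ ‖tG i hG P‖ ^ 2
          ≤ ‖(p : OC i)‖ * 1 := by
            refine mul_le_mul hd ?_ (by positivity) (norm_nonneg _)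
            exact pow_le_one₀ (le_max_of_le_left (norm_nonneg _)) (max_le hlt'.le hlt.le)
        _ = ‖(p : OC i)‖ := mul_one _
  have h5 : gG hG hs P = P := sub_eq_zero.1 hD0
  have h6 := congrArg Subtype.val h5
  exact h6

end H16S
end

-- from Lib.H16S.Q2
section

/-! # H16S, chunk Q2 (S/M): points with given coordinate; the complex multiplication -/

open NumberField IsDedekindDomain WeierstrassCurve

namespace H16S

attribute [local instance] H16S.nfOC H16S.ultOC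

open H55P (IQ Pt ac Inert Dec Nm)
open H35P (WAB Ker tt)
open H55K
open H35L (Gc Gen dV)

variable {F : Type} [Field F] [NumberField F] [IQ F] {A B : F} {Om : ℂ} {Ω : Type} [Field Ω] [DecidableEq Ω]
  [Algebra F Ω] [IsAlgClosure F Ω] {j : Ω →+* ℂ} {act : 𝓞 F →+* AddMonoid.End (Pt (WAB A B) Ω)} {V : ValuationSubring Ω}
  {C : Type} [NormedField C] [IsUltrametricDist C] {i : Ω →+* C} {p : ℕ}

/-- Chunk Q2 (S/M). PROOF. z = 0: P = 0. Otherwise H13X.local_ptt with N = IntermediateField.adjoin F {z} (finite, z algebraic) gives P with Ker V P and tt P = z (as elements of Ω: toC_surj); q1_mem. -/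
theorem q2_surj (h : Ctx F p V i) (hA : CMA F A B Om j act) (hG : GV A B V) (n : ℕ) {z : OC i} (hz : z ∈ Hn V p i F n) (h1 : ‖z‖ < 1) :
    ∃ P ∈ En hG p n, tG i hG P = z := by
  obtain ⟨t, rfl⟩ := toC_surj i z
  by_cases ht0 : t = 0
  · refine ⟨0, (En hG p n).zero_mem, ?_⟩
    rw [ht0]
    exact (q1_zero hG 0).2 rfl
  · have hal : Algebra.IsAlgebraic F Ω := IsAlgClosure.isAlgebraic
    have hfin : FiniteDimensional F (IntermediateField.adjoin F {t}) :=
      IntermediateField.adjoin.finiteDimensional (hal.isAlgebraic t).isIntegral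
    have ht : V.valuation t < 1 := (n1_lt1 h t).2 h1
    obtain ⟨Q, B₀, -, -, -, hK, htt⟩ := H13X.local_ptt hA hG
      (IntermediateField.mem_adjoin_simple_self F t) ht0 ht
    have h2 : tG i hG ⟨Q, hK⟩ = toC i t := congrArg (toC i) htt
    refine ⟨⟨Q, hK⟩, (q1_mem h hG n _).2 ?_, h2⟩
    rw [h2]
    exact hz

/-- Chunk Q2 (S). H55K.tt_act, n1_le (the square is V of a square). -/
theorem q2_alt (h : Ctx F p V i) (hA : CMA F A B Om j act) (hG : GV A B V) (a : 𝓞 F) (P : kerG hG) :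
    ‖tG i hG (aG hA hG a P) - toC i (algebraMap F Ω (a : F)) * tG i hG P‖ ≤ ‖tG i hG P‖ ^ 2 := by
  have h1 := tt_act hA hG a P.2
  rw [← map_pow, n1_le h] at h1
  rw [map_pow, norm_pow] at h1
  exact h1

/-- Chunk Q2 (S). CMA.gal. -/
theorem q2_alc (hA : CMA F A B Om j act) (hG : GV A B V) {γ : Ω ≃ₐ[F] Ω} (hγ : Dec V γ) (a : 𝓞 F) (P : kerG hG) :
    aG hA hG a (gG hG hγ P) = gG hG hγ (aG hA hG a P) := by
  exact Subtype.ext (hA.gal γ a P.1).symm

/-- Chunk Q2 (S). CMA.gal. -/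
theorem q2_ale (hA : CMA F A B Om j act) (hG : GV A B V) (a : 𝓞 F) (n : ℕ) {P : kerG hG} (hP : P ∈ En hG p n) : aG hA hG a P ∈ En hG p n := by
  intro s h1 h2
  show ac (WAB A B) s (act a P.1) = act a P.1
  rw [hA.gal, hP s h1 h2]

end H16S
end

-- from Lib.SSG.LT.XM3
section

/-! # SSG/LT: the Lubin-Tate coordinates -/

open NumberField IsDedekindDomain WeierstrassCurve

namespace SSG.LT

open H55P (IQ embF eF LF Per IsHecke Pt ac Inert Dec)
open H35P (WAB Ker tt)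
open H55K

variable {F : Type} [Field F] [NumberField F] [IQ F] {A B : F} {Om : ℂ} {Ω : Type} [Field Ω] [CharZero Ω] [DecidableEq Ω]
  [Algebra F Ω] {j : Ω →+* ℂ} {act : 𝓞 F →+* AddMonoid.End (Pt (WAB A B) Ω)} {p : ℕ} [Fact p.Prime] {V : ValuationSubring Ω}

omit [DecidableEq Ω] [Algebra F Ω] [NumberField F] [IQ F] [CharZero Ω] in
theorem xm3_lt {i : Ω →+* ℂ_[p]} (hi : ∀ x, x ∈ V ↔ ‖i x‖ ≤ 1) {x : Ω} (hx : V.valuation x < 1) : ‖i x‖ < 1 := by
  by_cases h0 : x = 0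
  · rw [h0, map_zero, norm_zero]
    exact one_pos
  · by_contra hc
    push Not at hc
    have h1 : ‖i x⁻¹‖ ≤ 1 := by
      rw [map_inv₀, norm_inv]
      exact inv_le_one_of_one_le₀ hc
    have h2 := (V.valuation_le_one_iff _).2 ((hi _).2 h1)
    rw [map_inv₀, inv_le_one₀ (zero_lt_iff.2 ((map_ne_zero _).2 h0))] at h2
    exact absurd hx (not_lt.2 h2)

theorem xm3_inj {x y : PadicAlgCl p} (h : (x : ℂ_[p]) = (y : ℂ_[p])) : x = y := by
  rw [PadicComplex.coe_eq, PadicComplex.coe_eq] at h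
  exact (algebraMap (PadicAlgCl p) ℂ_[p]).injective h

/-- the action of `-p` -/
theorem xm3_act (P : Pt (WAB A B) Ω) : act (-(p : 𝓞 F)) P = -(p • P) := by
  rw [map_neg, map_natCast]
  show -(((p : AddMonoid.End (Pt (WAB A B) Ω))) P) = _
  rw [AddMonoid.End.natCast_apply]

/-! Chunk XM3 (M). PROOF. i = toC i₀ (norm_toC), θ z = sv (fun n => i (a n)) z in ℂ_[p]. For every N, a: θ (i (tt (act a (T N)))) is the image of an element X N a of PadicAlgCl p: induction on N: N = 0: act a (T 0) = 0 (zero), θ 0 = 0 (sv_inj_aux).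
N + 1: -p y + y^q = θ (i (tt (act a (T N)))) for y = θ (i (tt (act a (T (N+1))))): hth for P = act a (T (N+1)): -(p • P) = act (-p) P = act a (act (-p) (T (N+1))) = act a (T N) (down, commutativity of 𝓞 F); xm1_alg.
Choose X. small: ‖θ z‖ ≤ ‖z‖ < 1 (sv_inj_aux). zero. inj: θ is isometric (sv_isom), i injective, xm1_inj, then act a (T N) = act b (T N) iff act (a - b) (T N) = 0. down: act (-p a) (T (N+1)) = act a (T N). g: hth as above (PadicAlgCl → ℂ_[p] is
injective: norm_extends; coe of powers: map_mul ..; use algebraMap (PadicAlgCl p) ℂ_[p] and PadicComplex.coe_eq). app: Q = ∑ k < n, C (a k) X^k with ρ^n ≤ ε (xm1_bd, sv_trunc): the difference in ℂ_[p] is the image of the difference in PadicAlgCl p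
(norm_extends). -/

theorem xm3 (h : CMA F A B Om j act) (hG : GV A B V) (hp : Prime (p : 𝓞 F)) (i₀ : Ω →+* PadicAlgCl p)
    (hi : ∀ x, x ∈ V ↔ ‖i₀ x‖ ≤ 1) (T : ℕ → Pt (WAB A B) Ω) (hT : PtsT A B Om j act p V T) {a : ℕ → F} (a0 : a 0 = 0) (a1 : a 1 = 1)
    (ha : ∀ n, ‖toC i₀ (algebraMap F Ω (a n))‖ ≤ 1) (hth : ∀ P : Pt (WAB A B) Ω, Ker V P →
      sv (fun n => toC i₀ (algebraMap F Ω (a n))) (toC i₀ (tt (-(p • P)))) =
        -(p : ℂ_[p]) * sv (fun n => toC i₀ (algebraMap F Ω (a n))) (toC i₀ (tt P)) +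
          sv (fun n => toC i₀ (algebraMap F Ω (a n))) (toC i₀ (tt P)) ^ (p ^ 2)) :
    ∃ X : ℕ → 𝓞 F → PadicAlgCl p, XFr p act i₀ T X ∧ ∀ N b,
      ((X N b : PadicAlgCl p) : ℂ_[p]) = sv (fun n => toC i₀ (algebraMap F Ω (a n))) (toC i₀ (tt (act b (T N)))) := by
  have hi' : ∀ x, x ∈ V ↔ ‖toC i₀ x‖ ≤ 1 := fun x => by
    rw [norm_toC]
    exact hi x
  have hlt : ∀ N b, ‖toC i₀ (tt (act b (T N)))‖ < 1 := fun N b => xm3_lt hi' (ttlt hG (hT.ker N b))
  have e0 : (fun n => toC i₀ (algebraMap F Ω (a n))) 0 = 0 := by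
    show toC i₀ (algebraMap F Ω (a 0)) = 0
    rw [a0, map_zero, map_zero]
  have e1 : (fun n => toC i₀ (algebraMap F Ω (a n))) 1 = 1 := by
    show toC i₀ (algebraMap F Ω (a 1)) = 1
    rw [a1, map_one, map_one]
  obtain ⟨θ, hθ⟩ : ∃ θ : ℕ → 𝓞 F → ℂ_[p], ∀ N b, θ N b =
      sv (fun n => toC i₀ (algebraMap F Ω (a n))) (toC i₀ (tt (act b (T N)))) := ⟨_, fun _ _ => rfl⟩
  have hpp : p.Prime := Fact.out
  -- the recursion
  have hdn : ∀ N (b : 𝓞 F), act (-(p : 𝓞 F) * b) (T (N + 1)) = act b (T N) := by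
    intro N b
    have h1 : act (-(p : 𝓞 F) * b) (T (N + 1)) = act b (act (-(p : 𝓞 F)) (T (N + 1))) := by
      rw [mul_comm, map_mul]
      rfl
    rw [h1, hT.down]
  have hdn2 : ∀ N (b : 𝓞 F), -(p • act b (T (N + 1))) = act b (T N) := by
    intro N b
    rw [← xm3_act (F := F), ← hdn N b, map_mul]
    rfl
  have hrec : ∀ N b, θ N b = -(p : ℂ_[p]) * θ (N + 1) b + θ (N + 1) b ^ (p ^ 2) := by
    intro N b
    have h1 := hth (act b (T (N + 1))) (hT.ker (N + 1) b)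
    rw [hdn2] at h1
    rw [hθ, hθ]
    exact h1
  have hsv0 : sv (fun n => toC i₀ (algebraMap F Ω (a n))) (0 : ℂ_[p]) = 0 := by
    have h1 := sv_inj_aux ha e0 (z := (0 : ℂ_[p])) (by rw [norm_zero]; exact one_pos)
    rw [norm_zero] at h1
    exact norm_le_zero_iff.1 h1
  have hθ0 : ∀ N b, (p : 𝓞 F) ^ N ∣ b → θ N b = 0 := by
    intro N b hb
    have h1 : tt (act b (T N)) = (0 : Ω) := by
      rw [(hT.zero N b).2 hb]
      rfl
    rw [hθ, h1, map_zero]
    exact hsv0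
  have hex : ∀ N b, ∃ x : PadicAlgCl p, (x : ℂ_[p]) = θ N b := by
    intro N
    induction N with
    | zero =>
      intro b
      refine ⟨0, ?_⟩
      rw [hθ0 0 b (by rw [pow_zero]; exact one_dvd b), PadicComplex.coe_eq, map_zero]
    | succ N ih =>
      intro b
      obtain ⟨x, hx⟩ := ih b
      have h1 : -(algebraMap (PadicAlgCl p) ℂ_[p] (p : PadicAlgCl p)) * θ (N + 1) b + θ (N + 1) b ^ (p ^ 2) =
          algebraMap (PadicAlgCl p) ℂ_[p] x := by
        rw [← PadicComplex.coe_eq p x, hx, hrec N b, map_natCast]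
      have hq : 2 ≤ p ^ 2 := by
        have := hpp.two_le
        nlinarith
      obtain ⟨z, hz⟩ := xm1_alg (algebraMap (PadicAlgCl p) ℂ_[p]) hq (p : PadicAlgCl p) x h1
      exact ⟨z, by rw [PadicComplex.coe_eq, hz]⟩
  choose X hX using hex
  refine ⟨X, ⟨?_, ?_, ?_, ?_, ?_, ?_⟩, fun N b => by rw [hX, hθ]⟩
  · intro N b
    rw [← PadicComplex.norm_extends, hX, hθ]
    exact (sv_inj_aux ha e0 (hlt N b)).trans_lt (hlt N b)
  · intro N
    refine xm3_inj ?_
    rw [hX, hθ0 N 0 (dvd_zero _), PadicComplex.coe_eq, map_zero]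
  · intro N b c
    constructor
    · intro h1
      have h2 : θ N b = θ N c := by rw [← hX, ← hX, h1]
      rw [hθ, hθ] at h2
      have h3 := sv_isom ha e0 e1 (hlt N b) (hlt N c)
      rw [h2, sub_self, norm_zero] at h3
      have h4 : toC i₀ (tt (act b (T N))) = toC i₀ (tt (act c (T N))) := sub_eq_zero.1 (norm_eq_zero.1 h3.symm)
      have h5 := xm1_inj hG (hT.ker N b) (hT.ker N c) ((toC i₀).injective h4)
      refine (hT.zero N _).1 ?_
      rw [map_sub]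
      show act b (T N) - act c (T N) = 0
      rw [h5, sub_self]
    · intro h1
      have h2 := (hT.zero N _).2 h1
      rw [map_sub] at h2
      have h3 : act b (T N) - act c (T N) = 0 := h2
      refine xm3_inj ?_
      rw [hX, hX, hθ, hθ, sub_eq_zero.1 h3]
  · intro N b
    refine xm3_inj ?_
    rw [hX, hX, hθ, hθ, hdn]
  · intro N b
    have h1 := hrec N b
    rw [← hX, ← hX, PadicComplex.coe_eq, PadicComplex.coe_eq] at h1
    refine (algebraMap (PadicAlgCl p) ℂ_[p]).injective ?_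
    rw [h1, map_add, map_mul, map_neg, map_natCast, map_pow]
  · intro N ε hε
    have hp1 : ((p : 𝓞 F) ^ N) ≠ 0 := pow_ne_zero _ hp.ne_zero
    obtain ⟨ρ, hρ, hρ2⟩ := xm1_bd h hG (toC i₀) hi' hp1 ((hT.zero N _).2 dvd_rfl) (hT.ker N)
    have hρ0 : 0 ≤ ρ := (norm_nonneg _).trans (hρ2 0)
    obtain ⟨n, hn⟩ := exists_pow_lt_of_lt_one hε hρ
    refine ⟨∑ k ∈ Finset.range n, Polynomial.C (a k) * Polynomial.X ^ k, fun b => ?_⟩
    rw [← PadicComplex.norm_extends, PadicComplex.coe_eq, map_sub, ← PadicComplex.coe_eq p (X N b), hX, hθ]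
    have h1 : algebraMap (PadicAlgCl p) ℂ_[p] ((∑ k ∈ Finset.range n, Polynomial.C (a k) * Polynomial.X ^ k).eval₂
        (i₀.comp (algebraMap F Ω)) (i₀ (tt (act b (T N))))) =
        ∑ k ∈ Finset.range n, toC i₀ (algebraMap F Ω (a k)) * toC i₀ (tt (act b (T N))) ^ k := by
      rw [Polynomial.eval₂_finsetSum, map_sum]
      refine Finset.sum_congr rfl fun k _ => ?_
      rw [Polynomial.eval₂_mul, Polynomial.eval₂_C, Polynomial.eval₂_pow, Polynomial.eval₂_X, map_mul, map_pow]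
      rfl
    rw [h1]
    exact (sv_trunc ha (hlt N b) n).trans ((pow_le_pow_left₀ (norm_nonneg _) (hρ2 b) n).trans hn.le)

end SSG.LT
end

-- from Lib.SSG.LT.XM4
section

/-! # SSG/LT: the functions of the multiples -/

open NumberField IsDedekindDomain WeierstrassCurve

namespace SSG.LT

open H55P (IQ embF eF LF Per IsHecke Pt ac Inert Dec)
open H35P (WAB Ker tt)
open H55K

variable {F : Type} [Field F] [NumberField F] [IQ F] {A B : F} {Om : ℂ} {Ω : Type} [Field Ω] [DecidableEq Ω]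
  [Algebra F Ω] {j : Ω →+* ℂ} {act : 𝓞 F →+* AddMonoid.End (Pt (WAB A B) Ω)} {p : ℕ} [Fact p.Prime] {V : ValuationSubring Ω}

omit [DecidableEq Ω] [Algebra F Ω] [NumberField F] [IQ F] in
theorem xm4_lt {i : Ω →+* ℂ_[p]} (hi : ∀ x, x ∈ V ↔ ‖i x‖ ≤ 1) {x : Ω} (hx : V.valuation x < 1) : ‖i x‖ < 1 := by
  by_cases h0 : x = 0
  · rw [h0, map_zero, norm_zero]
    exact one_pos
  · by_contra hc
    push Not at hc
    have h1 : ‖i x⁻¹‖ ≤ 1 := by
      rw [map_inv₀, norm_inv]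
      exact inv_le_one_of_one_le₀ hc
    have h2 := (V.valuation_le_one_iff _).2 ((hi _).2 h1)
    rw [map_inv₀, inv_le_one₀ (zero_lt_iff.2 ((map_ne_zero _).2 h0))] at h2
    exact absurd hx (not_lt.2 h2)

/-! Chunk XM4 (M). PROOF. C = ℂ_[p], i = toC i₀, τ k a = L.X N (a k) (X = ι → 𝓞 F), norms ≤ 1: ‖θ z‖ ≤ ‖z‖ < 1 (sv_inj_aux; z = i (tt ..), ‖z‖ < 1: norm_toC, ttlt and hi). For each k: PC V i τ (fun a => act (a k) (T N)): ker: hT.ker; small: xm1_bd
(b = p^N, hT.zero); cl: Cl.of_sv with H = i (tt (act (a k) (T N))) and Cl.var k (hX). PC.act_all (c k), PC.sum: PC V i τ (fun a => ∑ k, act (c k) (act (a k) (T N))), and the sum is act (∑ k, c k * a k) (T N) (map_sum, map_mul; AddMonoid.End).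
L.Fn N ι H unfolds to Cl τ H. -/

theorem xm4 (h : CMA F A B Om j act) (hG : GV A B V) (i₀ : Ω →+* PadicAlgCl p) (hi : ∀ x, x ∈ V ↔ ‖i₀ x‖ ≤ 1)
    (T : ℕ → Pt (WAB A B) Ω) (hT : PtsT A B Om j act p V T) {a : ℕ → F} (a0 : a 0 = 0) (a1 : a 1 = 1)
    (ha : ∀ n, ‖toC i₀ (algebraMap F Ω (a n))‖ ≤ 1) (L : LTF F ℂ_[p])
    (hX : ∀ N b, L.X N b = sv (fun n => toC i₀ (algebraMap F Ω (a n))) (toC i₀ (tt (act b (T N)))))
    (N : ℕ) (ι : Type) [Fintype ι] (c : ι → 𝓞 F) :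
    L.Fn N ι (fun a => toC i₀ (tt (act (∑ k, c k * a k) (T N)))) := by
  have hi' : ∀ x, x ∈ V ↔ ‖toC i₀ x‖ ≤ 1 := fun x => by
    rw [norm_toC]
    exact hi x
  have hlt : ∀ N b, ‖toC i₀ (tt (act b (T N)))‖ < 1 := fun N b => xm4_lt hi' (ttlt hG (hT.ker N b))
  have e0 : (fun n => toC i₀ (algebraMap F Ω (a n))) 0 = 0 := by
    show toC i₀ (algebraMap F Ω (a 0)) = 0
    rw [a0, map_zero, map_zero]
  have e1 : (fun n => toC i₀ (algebraMap F Ω (a n))) 1 = 1 := by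
    show toC i₀ (algebraMap F Ω (a 1)) = 1
    rw [a1, map_one, map_one]
  have hτ : ∀ (k : ι) (x : ι → 𝓞 F), ‖(fun (k : ι) (x : ι → 𝓞 F) => L.X N (x k)) k x‖ ≤ 1 := by
    intro k x
    show ‖L.X N (x k)‖ ≤ 1
    rw [hX N (x k)]
    exact (sv_inj_aux ha e0 (hlt N (x k))).trans (hlt N (x k)).le
  have hp0 : ((p : 𝓞 F) ^ N) ≠ 0 := pow_ne_zero _ (Nat.cast_ne_zero.2 (Fact.out : p.Prime).ne_zero)
  obtain ⟨ρ, hρ, hρ2⟩ := xm1_bd h hG (toC i₀) hi' hp0 ((hT.zero N _).2 dvd_rfl) (hT.ker N)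
  have hPC : ∀ k : ι, PC V (toC i₀) (fun (k : ι) (x : ι → 𝓞 F) => L.X N (x k)) (fun x => act (x k) (T N)) := fun k =>
    ⟨fun x => hT.ker N (x k), ⟨ρ, hρ, fun x => hρ2 _⟩,
      Cl.of_sv hτ hρ (fun x => hρ2 _) ha e0 e1
        ((Cl.var (τ := fun (k : ι) (x : ι → 𝓞 F) => L.X N (x k)) k).congr fun x => (hX N (x k)).symm)⟩
  have h2 := PC.sum hτ hi' hG Finset.univ (P := fun (k : ι) (x : ι → 𝓞 F) => act (c k) (act (x k) (T N)))
    fun k _ => PC.act_all hτ hi' h hG (c k) (hPC k)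
  have h3 : (fun x : ι → 𝓞 F => ∑ k, act (c k) (act (x k) (T N))) = fun x : ι → 𝓞 F => act (∑ k, c k * x k) (T N) := by
    funext x
    have h4 : ∀ s : Finset ι, act (∑ k ∈ s, c k * x k) (T N) = ∑ k ∈ s, act (c k) (act (x k) (T N)) := by
      classical
      intro s
      induction s using Finset.induction_on with
      | empty =>
        rw [Finset.sum_empty, Finset.sum_empty, map_zero]
        rfl
      | insert k s hk ih =>
        rw [Finset.sum_insert hk, Finset.sum_insert hk, map_add, map_mul]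
        show act (c k) (act (x k) (T N)) + act (∑ k ∈ s, c k * x k) (T N) = _
        rw [ih]
    exact (h4 Finset.univ).symm
  have h4 := h2.cl
  intro ε hε
  obtain ⟨Q, hQ, h5⟩ := h4 ε hε
  refine ⟨Q, hQ, fun x => ?_⟩
  have h6 := h5 x
  have h7 : ∑ k, act (c k) (act (x k) (T N)) = act (∑ k, c k * x k) (T N) := congrFun h3 x
  show ‖toC i₀ (tt (act (∑ k, c k * x k) (T N))) - _‖ ≤ ε
  rw [← h7]
  exact h6

end SSG.LT
end

-- from Lib.SSG.Z.G6
section

/-! # SSG/Z, module GAL: the frame is good -/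

open NumberField WeierstrassCurve

namespace SSG

open H55P (IQ Pt ac)
open H35P (WAB tt)
open H55K

theorem g6_tt {F : Type} [Field F] {A B : F} {Ω : Type} [Field Ω] [DecidableEq Ω] [Algebra F Ω] (s : Ω ≃ₐ[F] Ω) (P : Pt (WAB A B) Ω) :
    tt (ac (WAB A B) s P) = s (tt P) := by
  cases P with
  | zero => exact (map_zero s).symm
  | some x y h => exact (map_div₀ s _ _).symm

theorem g6_pos {F : Type} [Field F] [NumberField F] [IQ F] (a : 𝓞 F) : 0 ≤ Algebra.norm ℤ a := by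
  have h1 := H55R.X9_norm_nonneg (K := F) (fun v => by rw [H55P.F0_place v]; exact H55P.F0_cpx) (a : F)
  rw [← Algebra.coe_norm_int] at h1
  exact_mod_cast h1

/-- The Lubin-Tate frame with coordinates X is good. -/
theorem exists_good {F : Type} [Field F] [NumberField F] [IQ F] {A B : F} {Om : ℂ} {Ω : Type} [Field Ω] [DecidableEq Ω] [Algebra F Ω] [IsAlgClosure F Ω]
    {j : Ω →+* ℂ} {act : 𝓞 F →+* AddMonoid.End (Pt (WAB A B) Ω)} {m : Ideal (𝓞 F)} {ψ : Ideal (𝓞 F) →*₀ 𝓞 F} {p : ℕ} [hpf : Fact p.Prime]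
    (d : Dta A B Om j act m ψ p) (hin : (Ideal.span {(p : 𝓞 F)}).IsPrime) (V : ValuationSubring Ω) (i₀ : Ω →+* PadicAlgCl p)
    (hi : ∀ x : Ω, x ∈ V ↔ ‖i₀ x‖ ≤ 1) (T : ℕ → Pt (WAB A B) Ω) (hT : PtsT A B Om j act p V T) (X : ℕ → 𝓞 F → PadicAlgCl p)
    (hX : XFr p act i₀ T X) : ∃ L : LTF F ℂ_[p], (∀ N a, L.X N a = (X N a : ℂ_[p])) ∧ L.Good p := by
  obtain ⟨k, G, ζ, hk, kval, giso, gk, gfix, ζprim, ζp, hgal⟩ := exists_gal d hin V i₀ hi T hT.zero
  refine ⟨⟨fun N a => (X N a : ℂ_[p]), fun N => (ζ N : ℂ_[p])⟩, fun _ _ => rfl, ?_⟩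
  have hp0 : (p : PadicAlgCl p) ≠ 0 := Nat.cast_ne_zero.2 hpf.out.ne_zero
  have hp1 : ‖(p : PadicAlgCl p)‖ < 1 := by
    have h1 := PadicAlgCl.valuation_p p
    have h2 : ‖(p : PadicAlgCl p)‖ = ((1 / (p : NNReal) : NNReal) : ℝ) := by
      rw [← h1]
      rfl
    rw [h2, one_div, NNReal.coe_inv, NNReal.coe_natCast]
    exact inv_lt_one_of_one_lt₀ (by exact_mod_cast hpf.out.one_lt)
  refine SSF.good_of_data (F := F) IQ.deg hin g6_pos (L₀ := PadicAlgCl p) (algebraMap (PadicAlgCl p) ℂ_[p]) (fun x => ?_) hp0 hp1 k G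
    kval giso gk gfix X ζ hX.inj hX.zero (fun N a => ?_) (fun N a => (hX.down N a).symm) ζprim ζp (fun σ hσ N => ?_) _ (fun _ _ => rfl)
    (fun _ => rfl)
  · rw [← PadicComplex.coe_eq, PadicComplex.norm_extends]
  · rw [hX.g N a]
    ring
  · obtain ⟨u, hu, hz, s, hD, hs, hsT⟩ := hgal σ hσ N
    refine ⟨u, hu, fun a => ?_, hz⟩
    have h1 : ∀ (Q : Polynomial F) (z : PadicAlgCl p), σ (Q.eval₂ (i₀.comp (algebraMap F Ω)) z) = Q.eval₂ (i₀.comp (algebraMap F Ω)) (σ z) := by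
      intro Q z
      have h2 : (σ : PadicAlgCl p →+* PadicAlgCl p).comp (i₀.comp (algebraMap F Ω)) = i₀.comp (algebraMap F Ω) := by
        ext x
        exact gk σ hσ _ (hk x)
      have h3 := Polynomial.hom_eval₂ Q (i₀.comp (algebraMap F Ω)) (σ : PadicAlgCl p →+* PadicAlgCl p) z
      rw [h2] at h3
      exact h3
    have h4 : σ (i₀ (tt (act a (T N)))) = i₀ (tt (act (u * a) (T N))) := by
      rw [← hs, ← g6_tt, hsT]
    by_contra hne
    have hpos : 0 < ‖σ (X N a) - X N (u * a)‖ := norm_pos_iff.2 (sub_ne_zero.2 hne)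
    obtain ⟨Q, hQ⟩ := hX.app N (‖σ (X N a) - X N (u * a)‖ / 2) (half_pos hpos)
    have h5 : ‖σ (X N a) - Q.eval₂ (i₀.comp (algebraMap F Ω)) (i₀ (tt (act (u * a) (T N))))‖ ≤ ‖σ (X N a) - X N (u * a)‖ / 2 := by
      rw [← h4, ← h1, ← map_sub, giso σ hσ]
      exact hQ a
    have h6 := hQ (u * a)
    have h7 : σ (X N a) - X N (u * a) = (σ (X N a) - Q.eval₂ (i₀.comp (algebraMap F Ω)) (i₀ (tt (act (u * a) (T N))))) -
        (X N (u * a) - Q.eval₂ (i₀.comp (algebraMap F Ω)) (i₀ (tt (act (u * a) (T N))))) := by ring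
    have h8 : ‖σ (X N a) - X N (u * a)‖ ≤ ‖σ (X N a) - X N (u * a)‖ / 2 := by
      conv_lhs => rw [h7]
      rw [sub_eq_add_neg]
      refine (IsUltrametricDist.norm_add_le_max _ _).trans (max_le h5 ?_)
      rw [norm_neg]
      exact h6
    linarith

end SSG
end

-- from Lib.SSG.LT.Fin
section

/-! # SSG, module (LT): the local model (final assembly) -/

open NumberField IsDedekindDomain WeierstrassCurve

namespace SSG

open H55P (IQ embF eF LF Per IsHecke Pt ac Inert Dec)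
open H35P (WAB Ker tt)
open H55K

/-- (LT) existence of the local model, for supersingular reduction (`H16S.Sup`). -/
theorem exists_locM_sup {F : Type} [Field F] [NumberField F] [IQ F] {A B : F} {Om : ℂ} {Ω : Type} [Field Ω] [DecidableEq Ω]
    [Algebra F Ω] [IsAlgClosure F Ω] {j : Ω →+* ℂ} {act : 𝓞 F →+* AddMonoid.End (Pt (WAB A B) Ω)}
    {m : Ideal (𝓞 F)} {ψ : Ideal (𝓞 F) →*₀ 𝓞 F} {p : ℕ} [Fact p.Prime] (d : Dta A B Om j act m ψ p)
    (hin : (Ideal.span {(p : 𝓞 F)}).IsPrime) (hS : H16S.Sup act p) (V : ValuationSubring Ω)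
    (hV : V.valuation (p : Ω) < 1) :
    ∃ (i : Ω →+* ℂ_[p]) (T : ℕ → Pt (WAB A B) Ω) (L : LTF F ℂ_[p]), LocM A B Om j act p V i T L := by
  have hpp : p.Prime := Fact.out
  have hp0 : (p : 𝓞 F) ≠ 0 := Nat.cast_ne_zero.2 hpp.ne_zero
  have hp : Prime (p : 𝓞 F) := (Ideal.span_singleton_prime hp0).1 hin
  have hG : GV A B V := d.good V hV
  haveI : CharZero Ω := charZero_of_injective_algebraMap (algebraMap F Ω).injective
  obtain ⟨i₀, hi₀⟩ := LT.em (F := F) hp V hV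
  obtain ⟨T, hT⟩ := LT.pt (j := j) (Om := Om) d.cma hG hp hV
  obtain ⟨f, f0, f1, hf⟩ := H16S.FRmain d.cma hpp d.five hp hS d.good
  obtain ⟨-, fV, fq, hs⟩ := hf V hV
  have hi : ∀ x, x ∈ V ↔ ‖toC i₀ x‖ ≤ 1 := fun x => by rw [norm_toC]; exact hi₀ x
  have hlt : ∀ P : Pt (WAB A B) Ω, Ker V P → ‖toC i₀ (tt P)‖ < 1 := by
    intro P hP
    by_contra hc
    have h1 := ttlt hG hP
    have h2 : (tt P) ≠ 0 := by
      intro h0
      rw [h0, map_zero, norm_zero] at hc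
      exact hc one_pos
    have h3 : ‖toC i₀ (tt P)⁻¹‖ ≤ 1 := by
      rw [map_inv₀, norm_inv]
      exact inv_le_one_of_one_le₀ (not_lt.1 hc)
    have h4 := (V.valuation_le_one_iff _).2 ((hi _).2 h3)
    rw [map_inv₀] at h4
    have h5 : 0 < V.valuation (tt P) := zero_lt_iff.2 ((map_ne_zero _).2 h2)
    exact absurd h1 (not_lt.2 ((inv_le_one₀ h5).1 h4))
  obtain ⟨a, a0, a1, ha, hth⟩ := LT.xm2 (A := A) (B := B) (toC i₀) hi hp hV
    (by rw [← PowerSeries.coeff_zero_eq_constantCoeff_apply]; exact f0) f1 fV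
    (by rw [← map_one (algebraMap F Ω), ← map_sub]; exact fq) hlt (fun P hP => hs ℂ_[p] (toC i₀) hi P hP)
  obtain ⟨X, hX, hXs⟩ := LT.xm3 (Om := Om) d.cma hG hp i₀ hi₀ T hT a0 a1 ha hth
  obtain ⟨L, hL, hgood⟩ := exists_good d hin V i₀ hi₀ T hT X hX
  refine ⟨toC i₀, T, L, ?_⟩
  exact
    { val := hi
      ok := SSF.good_ok hin L hgood
      good := hgood
      zero := hT.zero
      down := hT.down
      unif := hT.unif
      ker := hT.ker
      fn := fun N ι _ c => LT.xm4 (j := j) (Om := Om) d.cma hG i₀ hi₀ T hT a0 a1 ha L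
        (fun N b => by rw [hL, hXs]) N ι c }

end SSG
end

-- from Lib.SSG.S.D2
section

/-! # SSG, part S (E4), D: the weights -/

open NumberField IsDedekindDomain

namespace SSG.S

open H55N H55P SSG.E

open Classical in
/-- The indicator function of the ideal Q. -/
noncomputable def ind {K : Type} [Field K] [NumberField K] (Q : Ideal (𝓞 K)) (x : 𝓞 K) : ℂ := if x ∈ Q then 1 else 0

/-- The ideal of the exponents N - e k. -/
noncomputable def Qe {K : Type} [Field K] [NumberField K] {m : ℕ} (v : Fin (m + 1) → HeightOneSpectrum (𝓞 K)) (N : ℕ)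
    (e : Fin (m + 1) → ℕ) : Ideal (𝓞 K) := ∏ k, (v k).asIdeal ^ (N - e k)

/-- A Dirichlet character modulo P as a function on the integers of K (of the absolute norm). -/
noncomputable def wchi {K : Type} [Field K] [NumberField K] {P : ℕ} (χ : DirichletCharacter ℂ P) (x : 𝓞 K) : ℂ :=
  χ ((Ideal.absNorm (Ideal.span {x}) : ℕ) : ZMod P)

variable {F : Type} [Field F] [NumberField F] [IQ F] {K : Type} [Field K] [NumberField K] [Algebra F K]

/-! Chunk D2 (S/M). PROOF of d2_chi. per: x - y in span {(p^N : ℕ)} * I <= span {p^N}: p^N | x - y, so r k x = r k y for all k (hC.ker), cr r x = cr r y, d1_abs. inv: span {v x} = span {x} for a unit v.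
d2_ind: x - y in span {p^N} * I <= span {p^N} <= Q; x in Q iff v x in Q (Ideal.unit_mul_mem_iff_mem).
d2_pow: p^N in span {p}^N = prod (v k)^N <= prod (v k)^(N - e k) (Ideal.prod_mono / dvd: Finset.prod_dvd_prod_of_dvd, Ideal.dvd_iff_le).
d2_iff: the ideals (v k)^(N - e k) are pairwise coprime (distinct maximal ideals), so the product is the intersection (Ideal.prod_eq_iInf or Ideal.inf..; Finset.inf_eq_iInf): x in Qe iff x in
(v k)^(N - e k) for all k iff (hC.pow, N - e k <= N) mk (p^(N - e k)) | r k x = mk (cr r x k) (Ideal.Quotient.mk_out) iff p^(N - e k) | cr r x k (since p^(N - e k) | p^N). -/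

theorem d2_dvd {K : Type} [Field K] [NumberField K] {P : ℕ} {I : Ideal (𝓞 K)} {z : 𝓞 K}
    (h : z ∈ Ideal.span {(P : 𝓞 K)} * I) : (P : 𝓞 K) ∣ z := by
  have h1 : Ideal.span {(P : 𝓞 K)} * I ≤ Ideal.span {(P : 𝓞 K)} := Ideal.mul_le_left
  exact Ideal.mem_span_singleton.1 (h1 h)

theorem d2_chi {p m N : ℕ} {v : Fin (m + 1) → HeightOneSpectrum (𝓞 K)} {r : Fin (m + 1) → 𝓞 K →+* RN F p N}
    (hC : Crd p N v r) (χ : DirichletCharacter ℂ (p ^ N)) (I : Ideal (𝓞 K)) (c₀ : 𝓞 K) : WtU I c₀ (p ^ N) (wchi χ) where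
  per := by
    intro x _ y h
    have h1 : (p : 𝓞 K) ^ N ∣ x - y := by
      have := d2_dvd h
      rwa [Nat.cast_pow] at this
    have h2 := (hC.ker (x - y)).2 h1
    have h3 : ∀ k, r k x = r k y := fun k => by
      have := h2 k
      rwa [map_sub, sub_eq_zero] at this
    unfold wchi
    rw [d1_abs hC x, d1_abs hC y]
    unfold cr
    simp only [h3]
  inv := by
    intro x _ u
    unfold wchi
    rw [Ideal.span_singleton_mul_left_unit u.isUnit]

theorem d2_ind {K : Type} [Field K] [NumberField K] {p N : ℕ} (Q : Ideal (𝓞 K)) (hQ : (p : 𝓞 K) ^ N ∈ Q) (I : Ideal (𝓞 K)) (c₀ : 𝓞 K) :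
    WtU I c₀ (p ^ N) (ind Q) where
  per := by
    intro x _ y h
    have h1 : (p : 𝓞 K) ^ N ∣ x - y := by
      have := d2_dvd h
      rwa [Nat.cast_pow] at this
    have h2 : x - y ∈ Q := by
      obtain ⟨t, ht⟩ := h1
      rw [ht]
      exact Ideal.mul_mem_right _ _ hQ
    have h3 : x ∈ Q ↔ y ∈ Q := by
      constructor
      · intro h4
        have := Q.sub_mem h4 h2
        rwa [sub_sub_cancel] at this
      · intro h4
        have := Q.add_mem h2 h4
        rwa [sub_add_cancel] at this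
    unfold ind
    by_cases h4 : x ∈ Q
    · rw [if_pos h4, if_pos (h3.1 h4)]
    · rw [if_neg h4, if_neg (fun h5 => h4 (h3.2 h5))]
  inv := by
    intro x _ u
    have h3 : (u : 𝓞 K) * x ∈ Q ↔ x ∈ Q := Ideal.unit_mul_mem_iff_mem Q u.isUnit
    unfold ind
    by_cases h4 : x ∈ Q
    · rw [if_pos h4, if_pos (h3.2 h4)]
    · rw [if_neg h4, if_neg (fun h5 => h4 (h3.1 h5))]

omit [IQ F] in
theorem d2_pow {p m N : ℕ} {v : Fin (m + 1) → HeightOneSpectrum (𝓞 K)} {r : Fin (m + 1) → 𝓞 K →+* RN F p N}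
    (hC : Crd p N v r) (e : Fin (m + 1) → ℕ) : (p : 𝓞 K) ^ N ∈ Qe v N e := by
  have h1 : (p : 𝓞 K) ^ N ∈ ∏ k, (v k).asIdeal ^ N := by
    rw [Finset.prod_pow, ← hC.prod]
    exact Ideal.pow_mem_pow (Ideal.mem_span_singleton_self _) N
  have h2 : ∏ k, (v k).asIdeal ^ N ≤ Qe v N e := by
    unfold Qe
    apply Ideal.le_of_dvd
    exact Finset.prod_dvd_prod_of_dvd _ _ fun k _ => pow_dvd_pow _ (Nat.sub_le N (e k))
  exact h2 h1

omit [IQ F] in
theorem d2_iff {p m N : ℕ} {v : Fin (m + 1) → HeightOneSpectrum (𝓞 K)} {r : Fin (m + 1) → 𝓞 K →+* RN F p N}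
    (hC : Crd p N v r) (e : Fin (m + 1) → ℕ) (x : 𝓞 K) : x ∈ Qe v N e ↔ ∀ k, (p : 𝓞 F) ^ (N - e k) ∣ cr r x k := by
  have h1 : Qe v N e = Finset.univ.inf fun k => (v k).asIdeal ^ (N - e k) := by
    unfold Qe
    refine (IsDedekindDomain.inf_pow_eq_prod_of_prime _ _ _ (fun k _ => (v k).prime) ?_).symm
    intro i _ k _ hik h
    exact hik (hC.inj (HeightOneSpectrum.ext h))
  rw [h1, Submodule.mem_finsetInf]
  have h2 : ∀ k, x ∈ (v k).asIdeal ^ (N - e k) ↔ (p : 𝓞 F) ^ (N - e k) ∣ cr r x k := by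
    intro k
    rw [hC.pow x k (N - e k) (Nat.sub_le _ _)]
    have h3 : r k x = Ideal.Quotient.mk (Ideal.span {(p : 𝓞 F) ^ N}) (cr r x k) := (Ideal.Quotient.mk_out (r k x)).symm
    constructor
    · rintro ⟨c, hc⟩
      obtain ⟨c', rfl⟩ := Ideal.Quotient.mk_surjective c
      rw [h3, ← map_mul, Ideal.Quotient.eq, Ideal.mem_span_singleton] at hc
      have h4 : (p : 𝓞 F) ^ (N - e k) ∣ (p : 𝓞 F) ^ N := pow_dvd_pow _ (Nat.sub_le _ _)
      have h5 := (h4.trans hc).add (dvd_mul_right ((p : 𝓞 F) ^ (N - e k)) c')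
      rwa [sub_add_cancel] at h5
    · rintro ⟨c, hc⟩
      rw [h3, hc, map_mul]
      exact dvd_mul_right _ _
  constructor
  · intro h k
    exact (h2 k).1 (h k (Finset.mem_univ k))
  · intro h k _
    exact (h2 k).2 (h k)

end SSG.S
end

-- from Lib.SSG.S.D4
section

/-! # SSG, part S (E4), D: the functionals of module F as sums over the representatives of a class -/

open NumberField IsDedekindDomain

namespace SSG.S

open H55N H55P SSG.E

variable {F : Type} [Field F] [NumberField F] [IQ F] {K : Type} [Field K] [NumberField K] [Algebra F K]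
  {C : Type} [NormedField C]

/-! Chunk D4 (S/M). PROOF of d4_per. For ε > 0 take Q; H a and H b are both within ε of eval (X N (a i)) Q = eval (X N (b i)) Q (hL.inj), so ‖H a - H b‖ <= 2 ε for all ε > 0.
d4_SH: d3_sum with Φ t = (prod of χ (nrm (t k))) * H t (periodic by d1_nrm and hH); χ (absNorm a) = prod of χ (nrm (cr r a k)) by d1_abs and map_prod. SH is the sum over piFinset T
(DecidableEq instance: Fintype.piFinset depends on DecidableEq (Fin (m+1)); use convert / Subsingleton if necessary).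
d4_TH: d3_sum with Φ t = (if for all k p^(N - e k) | t k then 1 else 0) * H t (periodic since p^(N - e k) | p^N), d2_iff; unfold TH: the factor (prod (-p)^(e i))^(-1) cancels (p <> 0 in C);
Finset.sum_filter. -/

theorem d4_per {p : ℕ} {L : SSG.LTF F C} (hL : L.Ok p) {N : ℕ} {ι : Type} [Fintype ι] {H : (ι → 𝓞 F) → C}
    (hH : L.Fn N ι H) (a b : ι → 𝓞 F) (h : ∀ k, (p : 𝓞 F) ^ N ∣ a k - b k) : H a = H b := by
  have h1 : ∀ ε : ℝ, 0 < ε → ‖H a - H b‖ ≤ ε := by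
    intro ε hε
    obtain ⟨Q, -, hQ⟩ := hH (ε / 2) (half_pos hε)
    have h2 := hQ a
    have h3 := hQ b
    have h4 : (fun i => L.X N (a i)) = fun i => L.X N (b i) := funext fun i => (hL.inj N _ _).2 (h i)
    rw [h4] at h2
    have h5 : H a - H b = (H a - MvPolynomial.eval (fun i => L.X N (b i)) Q) -
        (H b - MvPolynomial.eval (fun i => L.X N (b i)) Q) := by ring
    rw [h5]
    refine (norm_sub_le _ _).trans ?_
    linarith
  have h6 : ‖H a - H b‖ ≤ 0 := by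
    refine le_of_forall_pos_le_add fun ε hε => ?_
    rw [zero_add]
    exact h1 ε hε
  exact sub_eq_zero.1 (norm_le_zero_iff.1 h6)

theorem d4_SH {p m N : ℕ} {v : Fin (m + 1) → HeightOneSpectrum (𝓞 K)} {r : Fin (m + 1) → 𝓞 K →+* RN F p N}
    (hC : Crd p N v r) {I : Ideal (𝓞 K)} (hI : IsCoprime I (Ideal.span {(p : 𝓞 K)})) {c₀ : 𝓞 K} {R : Finset (𝓞 K)}
    (hR : RpU I c₀ (p ^ N) R) {T : Finset (𝓞 F)} (hT : SSG.Rep p N T) (χ : DirichletCharacter C (p ^ N))
    (H : (Fin (m + 1) → 𝓞 F) → C) (hH : ∀ a b, (∀ k, (p : 𝓞 F) ^ N ∣ a k - b k) → H a = H b) :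
    ∑ a ∈ R, χ ((Ideal.absNorm (Ideal.span {a}) : ℕ) : ZMod (p ^ N)) * H (cr r a) = SSG.SH χ (Fin (m + 1)) T H := by
  unfold SSG.SH
  have h1 := d3_sum hC hI hR hT (fun t => (∏ k, χ ((SSG.nrm (t k) : ℕ) : ZMod (p ^ N))) * H t) (by
    intro a b hab
    have h2 : ∀ k, χ ((SSG.nrm (a k) : ℕ) : ZMod (p ^ N)) = χ ((SSG.nrm (b k) : ℕ) : ZMod (p ^ N)) := fun k => by
      rw [d1_nrm (hab k)]
    change (∏ k, χ ((SSG.nrm (a k) : ℕ) : ZMod (p ^ N))) * H a = (∏ k, χ ((SSG.nrm (b k) : ℕ) : ZMod (p ^ N))) * H b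
    rw [hH a b hab, Finset.prod_congr rfl fun k _ => h2 k])
  refine (Finset.sum_congr rfl fun a _ => ?_).trans h1
  rw [d1_abs hC, map_prod]

open Classical in
theorem d4_TH {p m N : ℕ} (hp : (p : C) ≠ 0) {v : Fin (m + 1) → HeightOneSpectrum (𝓞 K)} {r : Fin (m + 1) → 𝓞 K →+* RN F p N}
    (hC : Crd p N v r) {I : Ideal (𝓞 K)} (hI : IsCoprime I (Ideal.span {(p : 𝓞 K)})) {c₀ : 𝓞 K} {R : Finset (𝓞 K)}
    (hR : RpU I c₀ (p ^ N) R) {T : Finset (𝓞 F)} (hT : SSG.Rep p N T) (e : Fin (m + 1) → ℕ)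
    (H : (Fin (m + 1) → 𝓞 F) → C) (hH : ∀ a b, (∀ k, (p : 𝓞 F) ^ N ∣ a k - b k) → H a = H b) :
    ∑ a ∈ R, (if a ∈ Qe v N e then (1 : C) else 0) * H (cr r a) =
      (∏ i, (-(p : C)) ^ e i) * SSG.TH p N (Fin (m + 1)) T e H := by
  classical
  have hprod : (∏ i, (-(p : C)) ^ e i) ≠ 0 := Finset.prod_ne_zero_iff.2 fun i _ => pow_ne_zero _ (neg_ne_zero.2 hp)
  unfold SSG.TH
  rw [← mul_assoc, mul_inv_cancel₀ hprod, one_mul, Finset.sum_filter]
  have h1 := d3_sum hC hI hR hT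
    (fun t => (if ∀ k, (p : 𝓞 F) ^ (N - e k) ∣ t k then (1 : C) else 0) * H t) (by
    intro a b hab
    have h2 : (∀ k, (p : 𝓞 F) ^ (N - e k) ∣ a k) ↔ ∀ k, (p : 𝓞 F) ^ (N - e k) ∣ b k := by
      refine forall_congr' fun k => ?_
      exact dvd_iff_dvd_of_dvd_sub ((pow_dvd_pow _ (Nat.sub_le _ _)).trans (hab k))
    change (if ∀ k, (p : 𝓞 F) ^ (N - e k) ∣ a k then (1 : C) else 0) * H a =
      (if ∀ k, (p : 𝓞 F) ^ (N - e k) ∣ b k then (1 : C) else 0) * H b
    rw [hH a b hab]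
    by_cases hb : ∀ k, (p : 𝓞 F) ^ (N - e k) ∣ b k
    · rw [if_pos hb, if_pos (h2.2 hb)]
    · rw [if_neg hb, if_neg fun h => hb (h2.1 h)])
  refine (Finset.sum_congr rfl fun a _ => ?_).trans (h1.trans (Finset.sum_congr ?_ fun t _ => ?_))
  · by_cases ha : a ∈ Qe v N e
    · rw [if_pos ha, if_pos ((d2_iff hC e a).1 ha)]
    · rw [if_neg ha, if_neg fun h => ha ((d2_iff hC e a).2 h)]
  · ext t
    simp only [Fintype.mem_piFinset]
  · by_cases ht : ∀ k, (p : 𝓞 F) ^ (N - e k) ∣ t k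
    · rw [if_pos ht, if_pos ht, one_mul]
    · rw [if_neg ht, if_neg ht, zero_mul]

end SSG.S
end
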