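import Mathlib
import Pool.Agent.Lib.H1M.PP2.D_H13R_D
import Pool.Agent.Lib.H1M.PP2.M011
import Pool.Agent.Lib.H1M.PP2.M051
import Pool.Agent.Lib.H1M.PP2.M054
import Pool.Agent.Lib.H1M.PP2.M061
import Pool.Agent.Lib.H1M.PP2.M084
import Pool.Agent.Lib.H1M.PP2.M093
import Pool.Agent.Lib.H1M.PP2.M094
import Pool.Agent.Lib.H1M.PP2.M112
import Pool.Agent.Lib.H1M.PP2.M116
import Pool.Agent.Lib.H1M.PP2.M117
import Pool.Agent.Lib.H1M.PP2.M128

/-! Merged copies (to shorten the build) of Lib.SSA.BD, Lib.SSA.B1, Lib.SSA.B4, Lib.SSA.L1, Lib.SSA.L2, Lib.SSA.L3, Lib.SSN.C5, Lib.SSU.A1, Lib.SSU.V1, Lib.SSU.A2. -/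

-- from Lib.SSA.BD
section

/-! # SSA: the local situation: definitions (no sorry)

V is a valuation ring of Ω above the inert prime p, i : Ω → C an embedding into an ultrametric field inducing V (H16S.Ctx). J is a subgroup of the decomposition group (the
inertia group of a number field K) and σ an element of the inertia group which induces an automorphism of order p with break 1 on the field fixed by J. -/

open NumberField IsDedekindDomain WeierstrassCurve

namespace SSA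

attribute [local instance] H16S.nfOC H16S.ultOC

open H55P (IQ Pt ac Inert Dec Nm)
open H35P (WAB Ker tt)
open H55K
open H16S

/-- σ induces on the field of the elements fixed by J an automorphism of order p with break 1; w is a uniformizer of this field, e its absolute ramification index. -/
structure Br {F Ω C : Type} [Field F] [Field Ω] [Algebra F Ω] [NormedField C] (p e : ℕ) (V : ValuationSubring Ω) (i : Ω →+* C)
    (J : Subgroup (Ω ≃ₐ[F] Ω)) (σ : Ω ≃ₐ[F] Ω) (w : Ω) : Prop where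
  dec : ∀ s ∈ J, Dec V s
  inert : Inert V σ
  nrm : ∀ s ∈ J, σ⁻¹ * s * σ ∈ J
  sp : σ ^ p ∈ J
  fw : ∀ s ∈ J, s w = w
  w0 : w ≠ 0
  w1 : ‖i w‖ < 1
  val : ∀ x : Ω, x ≠ 0 → (∀ s ∈ J, s x = x) → ∃ k : ℤ, ‖i x‖ = ‖i w‖ ^ k
  ep : ‖i (p : Ω)‖ = ‖i w‖ ^ e
  br1 : ∀ x : Ω, (∀ s ∈ J, s x = x) → ‖i x‖ ≤ 1 → ‖i (σ x - x)‖ ≤ ‖i w‖ ^ 2
  br2 : ‖i (σ w - w)‖ = ‖i w‖ ^ 2

variable {F : Type} [Field F] [NumberField F] [IQ F] {A B : F} {Ω : Type} [Field Ω] [DecidableEq Ω]
  [Algebra F Ω] {V : ValuationSubring Ω} {C : Type} [NormedField C]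

/-- The points of the kernel of reduction fixed by J. -/
def PJ (hG : GV A B V) (J : Subgroup (Ω ≃ₐ[F] Ω)) : AddSubgroup (kerG hG) where
  carrier := {P | ∀ s ∈ J, ac (WAB A B) s P.1 = P.1}
  zero_mem' := fun s _ => map_zero _
  add_mem' := fun {P Q} hP hQ s h1 => by
    show ac (WAB A B) s (P.1 + Q.1) = P.1 + Q.1
    rw [map_add, hP s h1, hQ s h1]
  neg_mem' := fun {P} hP s h1 => by
    show ac (WAB A B) s (-P.1) = -P.1
    rw [map_neg, hP s h1]


/-- The action of σ. -/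
noncomputable def sJ (hG : GV A B V) {J : Subgroup (Ω ≃ₐ[F] Ω)} {σ : Ω ≃ₐ[F] Ω} (hσ : Dec V σ) (hn : ∀ s ∈ J, σ⁻¹ * s * σ ∈ J) :
    AddMonoid.End (PJ hG J) :=
  { toFun := fun P => ⟨gG hG hσ P.1, fun s hs => by
      have h1 := P.2 _ (hn s hs)
      have h2 : ac (WAB A B) (σ * (σ⁻¹ * s * σ)) P.1.1 = ac (WAB A B) σ (ac (WAB A B) (σ⁻¹ * s * σ) P.1.1) :=
        congrArg (fun f : AddMonoid.End (Pt (WAB A B) Ω) => f P.1.1) ((H55P.acR (WAB A B)).map_mul σ (σ⁻¹ * s * σ))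
      have h3 : ac (WAB A B) (s * σ) P.1.1 = ac (WAB A B) s (ac (WAB A B) σ P.1.1) :=
        congrArg (fun f : AddMonoid.End (Pt (WAB A B) Ω) => f P.1.1) ((H55P.acR (WAB A B)).map_mul s σ)
      have h4 : σ * (σ⁻¹ * s * σ) = s * σ := by group
      rw [h4, h3, h1] at h2
      exact h2⟩
    map_zero' := Subtype.ext (map_zero (gG hG hσ))
    map_add' := fun P Q => Subtype.ext (map_add (gG hG hσ) P.1 Q.1) }


/-- The size. -/
noncomputable def nJ (i : Ω →+* C) (hG : GV A B V) (J : Subgroup (Ω ≃ₐ[F] Ω)) : PJ hG J → ℝ := fun P => ‖tG i hG P.1‖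

end SSA
end

-- from Lib.SSA.B1
section

/-! # SSA, chunk B1 (M): break 1: elements -/

open NumberField IsDedekindDomain WeierstrassCurve

namespace SSA

attribute [local instance] H16S.nfOC H16S.ultOC

open H55P (IQ Pt ac Inert Dec Nm)
open H16S

variable {F : Type} [Field F] [NumberField F] {p e : ℕ} {Ω C : Type} [Field Ω] [Algebra F Ω] [NormedField C] [IsUltrametricDist C]
  [Algebra.IsAlgebraic F Ω] {V : ValuationSubring Ω} {i : Ω →+* C} {J : Subgroup (Ω ≃ₐ[F] Ω)} {σ : Ω ≃ₐ[F] Ω} {w : Ω}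

omit [NumberField F] [IsUltrametricDist C] [Algebra.IsAlgebraic F Ω] in
/-- Chunk B1 (S). s (σ x) = σ ((σ⁻¹ s σ) x) = σ x (b.nrm). -/
theorem b1_fix (b : Br p e V i J σ w) {x : Ω} (hx : ∀ s ∈ J, s x = x) : ∀ s ∈ J, s (σ x) = σ x := by
  intro s hs
  have h1 := hx _ (b.nrm s hs)
  have h2 : σ ((σ⁻¹ * s * σ) x) = s (σ x) := by
    have h3 : σ * (σ⁻¹ * s * σ) = s * σ := by group
    exact congrArg (fun f : Ω ≃ₐ[F] Ω => f x) h3
  rw [h1] at h2
  exact h2.symm

/-- Chunk B1 (S). σ is an isometry (H55P.inert_dec, H16S.n1_dec). -/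
theorem b1_iso (h : Ctx F p V i) (b : Br p e V i J σ w) (x : Ω) : ‖i (σ x)‖ = ‖i x‖ := by
  classical
  exact n1_dec h (H55P.inert_dec V σ b.inert) x

theorem b1_r (b : Br p e V i J σ w) : 0 < ‖i w‖ := norm_pos_iff.2 ((map_ne_zero i).2 b.w0)

theorem b1_nat (h : Ctx F p V i) {k : ℕ} (hk : ¬ p ∣ k) : ‖(k : C)‖ = 1 := by
  have h1 : IsCoprime (k : ℤ) (p : ℤ) :=
    Nat.isCoprime_iff_coprime.2 ((h.pr.coprime_iff_not_dvd.2 hk).symm)
  obtain ⟨x, y, hxy⟩ := h1
  have hp := (n1_p h).1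
  rw [map_natCast] at hp
  by_contra hne
  have hlt : ‖(k : C)‖ < 1 := lt_of_le_of_ne (IsUltrametricDist.norm_natCast_le_one C k) hne
  have e2 : (x : C) * (k : C) + (y : C) * (p : C) = 1 := by
    exact_mod_cast congrArg (fun z : ℤ => (z : C)) hxy
  have h2 : ‖(1 : C)‖ < 1 := by
    rw [← e2]
    refine (IsUltrametricDist.norm_add_le_max _ _).trans_lt (max_lt ?_ ?_)
    · rw [norm_mul]
      exact (mul_le_of_le_one_left (norm_nonneg _) (IsUltrametricDist.norm_intCast_le_one C x)).trans_lt hlt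
    · rw [norm_mul]
      exact (mul_le_of_le_one_left (norm_nonneg _) (IsUltrametricDist.norm_intCast_le_one C y)).trans_lt hp
  rw [norm_one] at h2
  exact lt_irrefl _ h2

theorem b1_le (h : Ctx F p V i) (b : Br p e V i J σ w) (k : ℕ) :
    ‖i (σ w) ^ k - i w ^ k‖ ≤ ‖i w‖ ^ (k + 1) := by
  have ha : ‖i (σ w)‖ = ‖i w‖ := b1_iso h b w
  have hab : ‖i (σ w) - i w‖ = ‖i w‖ ^ 2 := by
    rw [← map_sub]
    exact b.br2
  rcases Nat.eq_zero_or_pos k with hk | hk
  · rw [hk, pow_zero, pow_zero, sub_self, norm_zero]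
    positivity
  · rw [← geom_sum₂_mul, norm_mul, hab]
    have h1 : ‖∑ j ∈ Finset.range k, i (σ w) ^ j * i w ^ (k - 1 - j)‖ ≤ ‖i w‖ ^ (k - 1) := by
      refine IsUltrametricDist.norm_sum_le_of_forall_le_of_nonneg (by positivity) fun j hj => ?_
      have hj' := Finset.mem_range.1 hj
      rw [norm_mul, norm_pow, norm_pow, ha, ← pow_add]
      apply le_of_eq
      congr 1
      omega
    calc _ ≤ ‖i w‖ ^ (k - 1) * ‖i w‖ ^ 2 := mul_le_mul_of_nonneg_right h1 (by positivity)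
      _ = ‖i w‖ ^ (k + 1) := by
        rw [← pow_add]
        congr 1
        omega

/-- Chunk B1 (M). The powers of the uniformizer. Put η = σ w / w - 1, ‖i η‖ = ‖i w‖ (b.br2 divided by w). σ (w^k) / w^k - 1 = (1 + η)^k - 1 = k η + η^2 (...) (induction over k: (1+η)^(k+1) - 1 = ((1+η)^k - 1)(1 + η) + η; claim ‖(1+η)^k - 1 - k η‖ ≤ ‖η‖^2): norm ≤ ‖w‖, and = ‖w‖ if
‖i k‖ = 1, that is if p does not divide k (k is an integer of F: H16S.n1_int with a = (k : 𝓞 F); or Bezout with ‖p‖ < 1, n1_p; IsUltrametricDist.norm_natCast_le_one). Multiply by w^k. -/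
theorem b1_pow (h : Ctx F p V i) (b : Br p e V i J σ w) (k : ℕ) :
    ‖i (σ (w ^ k) - w ^ k)‖ ≤ ‖i w‖ ^ (k + 1) ∧ (¬ p ∣ k → ‖i (σ (w ^ k) - w ^ k)‖ = ‖i w‖ ^ (k + 1)) := by
  have e1 : i (σ (w ^ k) - w ^ k) = i (σ w) ^ k - i w ^ k := by
    rw [map_sub, map_pow, map_pow, map_pow]
  rw [e1]
  refine ⟨b1_le h b k, fun hk => ?_⟩
  have hr := b1_r b
  have ha : ‖i (σ w)‖ = ‖i w‖ := b1_iso h b w
  have hab : ‖i (σ w) - i w‖ = ‖i w‖ ^ 2 := by
    rw [← map_sub]
    exact b.br2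
  have hk0 : 0 < k := by
    rcases Nat.eq_zero_or_pos k with h0 | h0
    · rw [h0] at hk
      exact absurd (dvd_zero p) hk
    · exact h0
  rw [← geom_sum₂_mul, norm_mul, hab]
  have h2 : ‖∑ j ∈ Finset.range k, (i (σ w) ^ j * i w ^ (k - 1 - j) - i w ^ (k - 1))‖ ≤ ‖i w‖ ^ k := by
    refine IsUltrametricDist.norm_sum_le_of_forall_le_of_nonneg (by positivity) fun j hj => ?_
    have hj' := Finset.mem_range.1 hj
    have e2 : i (σ w) ^ j * i w ^ (k - 1 - j) - i w ^ (k - 1) = (i (σ w) ^ j - i w ^ j) * i w ^ (k - 1 - j) := by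
      rw [sub_mul, ← pow_add]
      congr 3
      omega
    rw [e2, norm_mul, norm_pow]
    calc _ ≤ ‖i w‖ ^ (j + 1) * ‖i w‖ ^ (k - 1 - j) := mul_le_mul_of_nonneg_right (b1_le h b j) (by positivity)
      _ = ‖i w‖ ^ k := by
        rw [← pow_add]
        congr 1
        omega
  have h3 : ∑ j ∈ Finset.range k, i (σ w) ^ j * i w ^ (k - 1 - j) =
      ∑ j ∈ Finset.range k, (i (σ w) ^ j * i w ^ (k - 1 - j) - i w ^ (k - 1)) + (k : C) * i w ^ (k - 1) := by
    rw [Finset.sum_sub_distrib, Finset.sum_const, Finset.card_range, nsmul_eq_mul]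
    ring
  have h4 : ‖(k : C) * i w ^ (k - 1)‖ = ‖i w‖ ^ (k - 1) := by
    rw [norm_mul, b1_nat h hk, one_mul, norm_pow]
  have h5 : ‖i w‖ ^ k < ‖i w‖ ^ (k - 1) := pow_lt_pow_right_of_lt_one₀ hr b.w1 (by omega)
  have h6 : ‖∑ j ∈ Finset.range k, i (σ w) ^ j * i w ^ (k - 1 - j)‖ = ‖i w‖ ^ (k - 1) := by
    rw [h3, IsUltrametricDist.norm_add_eq_max_of_norm_ne_norm (by rw [h4]; exact (lt_of_le_of_lt h2 h5).ne), h4]
    exact max_eq_right (h2.trans h5.le)
  rw [h6, ← pow_add]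
  congr 1
  omega

/-- Chunk B1 (M). PROOF. x = 0: trivial. Otherwise (b.val) ‖i x‖ = ‖i w‖^k, k an integer, k ≥ 0 because ‖i x‖ ≤ 1 (0 < ‖i w‖ < 1), so a natural number. x = w^k u, u = x / w^k fixed by J (b.fw), ‖i u‖ = 1. σ x - x = σ(w^k) (σ u - u) + (σ (w^k) - w^k) u:
‖σ(w^k) (σ u - u)‖ ≤ ‖w‖^(k+2) (b1_iso, b.br1), ‖(σ (w^k) - w^k) u‖ ≤ ‖w‖^(k+1), with equality if p does not divide k (b1_pow); then the sum has the norm of the larger term (as in H16S.m6_eq or norm_add_eq_max_of_norm_ne_norm). -/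
theorem b1 (h : Ctx F p V i) (b : Br p e V i J σ w) {x : Ω} (hx : ∀ s ∈ J, s x = x) (h1 : ‖i x‖ ≤ 1) :
    ‖i (σ x - x)‖ ≤ ‖i w‖ * ‖i x‖ ∧ ∀ k : ℕ, ‖i x‖ = ‖i w‖ ^ k → ¬ p ∣ k → ‖i (σ x - x)‖ = ‖i w‖ ^ (k + 1) := by
  have hr := b1_r b
  by_cases hx0 : x = 0
  · subst hx0
    refine ⟨?_, fun k hk _ => ?_⟩
    · rw [map_zero, sub_zero, map_zero, norm_zero, mul_zero]
    · rw [map_zero, norm_zero] at hk
      exact absurd hk.symm (pow_pos hr k).ne'
  obtain ⟨m, hm⟩ := b.val x hx0 hx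
  have hm0 : 0 ≤ m := by
    by_contra hlt
    have h2 : 1 < ‖i w‖ ^ m := one_lt_zpow_of_neg₀ hr b.w1 (not_le.1 hlt)
    rw [← hm] at h2
    exact absurd h1 (not_le.2 h2)
  obtain ⟨k, rfl⟩ := Int.eq_ofNat_of_zero_le hm0
  rw [zpow_natCast] at hm
  have hwk : w ^ k ≠ 0 := pow_ne_zero k b.w0
  set u : Ω := x / w ^ k with hu
  have hfu : ∀ s ∈ J, s u = u := by
    intro s hs
    rw [hu, map_div₀, map_pow, hx s hs, b.fw s hs]
  have hxu : x = w ^ k * u := by
    rw [hu]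
    field_simp
  have hun : ‖i u‖ = 1 := by
    rw [hu, map_div₀, norm_div, map_pow, norm_pow, hm, div_self (pow_pos hr k).ne']
  have e1 : i (σ x - x) = i (σ (w ^ k)) * i (σ u - u) + i (σ (w ^ k) - w ^ k) * i u := by
    rw [← map_mul, ← map_mul, ← map_add]
    congr 1
    conv_lhs => rw [hxu]
    rw [map_mul]
    ring
  have h2 : ‖i (σ (w ^ k)) * i (σ u - u)‖ ≤ ‖i w‖ ^ (k + 2) := by
    rw [norm_mul, b1_iso h b, map_pow, norm_pow, pow_add]
    exact mul_le_mul_of_nonneg_left (b.br1 u hfu hun.le) (by positivity)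
  obtain ⟨h3, h4⟩ := b1_pow h b k
  have h5 : ‖i (σ (w ^ k) - w ^ k) * i u‖ = ‖i (σ (w ^ k) - w ^ k)‖ := by
    rw [norm_mul, hun, mul_one]
  have h6 : ‖i w‖ ^ (k + 2) < ‖i w‖ ^ (k + 1) := pow_lt_pow_right_of_lt_one₀ hr b.w1 (by omega)
  rw [e1]
  refine ⟨?_, fun k' hk' hpk => ?_⟩
  · refine (IsUltrametricDist.norm_add_le_max _ _).trans (max_le ?_ ?_)
    · refine (h2.trans h6.le).trans (le_of_eq ?_)
      rw [hm, pow_succ']
    · rw [h5]
      refine h3.trans (le_of_eq ?_)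
      rw [hm, pow_succ']
  · have hkk : k = k' := by
      rw [hm] at hk'
      exact pow_right_injective₀ hr b.w1.ne hk'
    subst hkk
    have h7 := h4 hpk
    rw [IsUltrametricDist.norm_add_eq_max_of_norm_ne_norm (by
      rw [h5, h7]
      exact (lt_of_le_of_lt h2 h6).ne), h5, h7]
    exact max_eq_right (h2.trans h6.le)

/-- Chunk B1 (S). p divides e: otherwise b1 for x = p, k = e: σ p - p = 0 has norm ‖w‖^(e+1) ≠ 0. e ≠ 0 because ‖i p‖ < 1. (‖i p‖ ≤ 1 and the elements of J fix the natural number p: map_natCast.) -/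
theorem b1_e (h : Ctx F p V i) (b : Br p e V i J σ w) : p ≤ e := by
  have hr := b1_r b
  have hp1 := (n1_p h).1
  have hfix : ∀ s ∈ J, s (p : Ω) = (p : Ω) := fun s _ => map_natCast s p
  have he : e ≠ 0 := by
    intro h0
    have h1 := b.ep
    rw [h0, pow_zero] at h1
    rw [h1] at hp1
    exact lt_irrefl _ hp1
  have hd : p ∣ e := by
    by_contra hnd
    have h2 := (b1 h b hfix hp1.le).2 e b.ep hnd
    rw [map_natCast σ p, sub_self, map_zero, norm_zero] at h2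
    exact absurd h2.symm (pow_pos hr _).ne'
  exact Nat.le_of_dvd (Nat.pos_of_ne_zero he) hd

/-- Chunk B1 (M). PROOF. k ≥ 1. D = σ (w^k) - w^k, ‖D‖ = ‖w‖^(k+1) (b1_pow), fixed by J (b1_fix). y = x / D, ‖y‖ = 1, fixed by J. z = w^k y. σ z - z = D y + σ(w^k) (σ y - y) = x + σ (w^k) (σ y - y), ‖σ (w^k) (σ y - y)‖ ≤ ‖w‖^(k+2) < ‖w‖^(k+1) (b.br1). -/
theorem b1_sol (h : Ctx F p V i) (b : Br p e V i J σ w) {x : Ω} (hx : ∀ s ∈ J, s x = x) {k : ℕ} (hk : ¬ p ∣ k)
    (h1 : ‖i x‖ = ‖i w‖ ^ (k + 1)) :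
    ∃ z : Ω, (∀ s ∈ J, s z = z) ∧ ‖i z‖ ≤ ‖i w‖ ^ k ∧ ‖i (x - (σ z - z))‖ < ‖i w‖ ^ (k + 1) := by
  have hr := b1_r b
  have hD := (b1_pow h b k).2 hk
  set D : Ω := σ (w ^ k) - w ^ k with hDd
  have hD0 : D ≠ 0 := by
    intro h0
    rw [h0, map_zero, norm_zero] at hD
    exact absurd hD.symm (pow_pos hr _).ne'
  have hwk : ∀ s ∈ J, s (w ^ k) = w ^ k := fun s hs => by rw [map_pow, b.fw s hs]
  have hfD : ∀ s ∈ J, s D = D := fun s hs => by
    rw [hDd, map_sub, b1_fix b hwk s hs, hwk s hs]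
  set y : Ω := x / D with hy
  have hfy : ∀ s ∈ J, s y = y := fun s hs => by
    rw [hy, map_div₀, hx s hs, hfD s hs]
  have hyn : ‖i y‖ = 1 := by
    rw [hy, map_div₀, norm_div, h1, hD, div_self (pow_pos hr _).ne']
  have hxy : x = D * y := by
    rw [hy]
    field_simp
  refine ⟨w ^ k * y, fun s hs => by rw [map_mul, hwk s hs, hfy s hs], ?_, ?_⟩
  · rw [map_mul, norm_mul, hyn, mul_one, map_pow, norm_pow]
  · have e1 : x - (σ (w ^ k * y) - w ^ k * y) = -(σ (w ^ k) * (σ y - y)) := by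
      conv_lhs => rw [hxy]
      rw [hDd, map_mul]
      ring
    rw [e1, map_neg, norm_neg, map_mul, norm_mul, b1_iso h b, map_pow, norm_pow]
    calc _ ≤ ‖i w‖ ^ k * ‖i w‖ ^ 2 := mul_le_mul_of_nonneg_left (b.br1 y hfy hyn.le) (by positivity)
      _ = ‖i w‖ ^ (k + 2) := (pow_add _ _ _).symm
      _ < ‖i w‖ ^ (k + 1) := pow_lt_pow_right_of_lt_one₀ hr b.w1 (by omega)

end SSA
end

-- from Lib.SSA.B4
section

/-! # SSA, chunk B4 (S/M): in the supersingular case a point with p-multiple in the kernel of reduction is in the kernel of reduction -/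

open NumberField IsDedekindDomain WeierstrassCurve

namespace SSA

attribute [local instance] H16S.nfOC H16S.ultOC

open H55P (IQ Pt ac Inert Dec Nm)
open H35P (WAB Ker tt)
open H55K
open H16S

variable {F : Type} [Field F] [NumberField F] [IQ F] {A B : F} {Om : ℂ} {Ω : Type} [Field Ω] [DecidableEq Ω]
  [Algebra F Ω] [IsAlgClosure F Ω] {j : Ω →+* ℂ} {act : 𝓞 F →+* AddMonoid.End (Pt (WAB A B) Ω)} {V : ValuationSubring Ω}
  {C : Type} [NormedField C] [IsUltrametricDist C] {i : Ω →+* C} {p : ℕ}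

/-- Chunk B4 (S/M). PROOF. H16S.n4_frob h 0 gives s in Dec V with V (s x - x^(p²)) < 1 on V. hS.fr V h.above s: Ker V (ac s X + p • X). Ker V (p • X), so Ker V (ac s X) (the kernel is a subgroup: kerG hG, or H55K.kadd, kneg: ac s X = (ac s X + p • X) - p • X).
X = 0: trivial; X = (x, y): Ker V means 1 < V x; ac s X = (s x, s y), 1 < V (s x) iff s x not in V iff x not in V (s in Dec V; see H55K.S.kr_dec and H16S.QD ker_ac: (ker_ac s hs).1 or .2 gives it directly). -/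
theorem b4 (h : Ctx F p V i) (hS : Sup act p) (hG : GV A B V) (X : Pt (WAB A B) Ω) (hX : Ker V (p • X)) : Ker V X := by
  obtain ⟨s, hs, -, hf⟩ := n4_frob (F := F) h 0
  have h1 := hS.fr V h.above s hf X
  have h2 := ksub hG h1 hX
  rw [add_sub_cancel_right] at h2
  exact (ker_ac s hs).1 h2

end SSA
end

-- from Lib.SSA.L1
section

/-! # SSA, chunk L1 (M): Teichmueller representatives in the algebraic closure -/

open NumberField IsDedekindDomain WeierstrassCurve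

namespace SSA

open H55P (IQ Pt ac Inert Dec Nm)
open H16S

variable {F : Type} [Field F] [NumberField F] {p : ℕ} {Ω C : Type} [Field Ω] [Algebra F Ω] [IsAlgClosure F Ω] [NormedField C] [IsUltrametricDist C]
  {V : ValuationSubring Ω} {i : Ω →+* C}

/-- Ultrametric inequality for differences. -/
theorem l1_add_lt {C : Type} [NormedField C] [IsUltrametricDist C] {a b : C} {r : ℝ} (ha : ‖a‖ < r) (hb : ‖b‖ < r) : ‖a + b‖ < r :=
  lt_of_le_of_lt (IsUltrametricDist.norm_add_le_max a b) (max_lt ha hb)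

theorem l1_add_le {C : Type} [NormedField C] [IsUltrametricDist C] {a b : C} {r : ℝ} (ha : ‖a‖ ≤ r) (hb : ‖b‖ ≤ r) : ‖a + b‖ ≤ r :=
  le_trans (IsUltrametricDist.norm_add_le_max a b) (max_le ha hb)

theorem l1_one {n : ℕ} {z : Ω} (hn : n ≠ 0) (hz : z ^ n = 1) : ‖i z‖ = 1 := by
  have h1 : ‖i z‖ ^ n = 1 := by
    rw [← norm_pow, ← map_pow, hz, map_one, norm_one]
  exact (pow_eq_one_iff_of_nonneg (norm_nonneg _) hn).1 h1

/-- The order of the residue field is divisible by p. -/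
theorem l1_card (K : Type) [Field K] [NumberField K] [Algebra K Ω] {p : ℕ} (hp : p.Prime) (V : ValuationSubring Ω) (hV : V.valuation (p : Ω) < 1) :
    ∃ m, 0 < m ∧ ¬ p ∣ m ∧ Nat.card (𝓞 K ⧸ (H13S.in2Q V).comap (algebraMap (𝓞 K) (𝓞 Ω))) = m + 1 := by
  set P : Ideal (𝓞 K) := (H13S.in2Q V).comap (algebraMap (𝓞 K) (𝓞 Ω)) with hP
  have hQp : (H13S.in2Q V).IsPrime := H13S.in2Q_prime V
  have hPp : P.IsPrime := Ideal.IsPrime.comap _
  have hqP : (p : 𝓞 K) ∈ P := by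
    rw [hP, Ideal.mem_comap, map_natCast, H13S.in2Q_lt]
    simpa using hV
  have hPb : P ≠ ⊥ := by
    intro h
    rw [h, Ideal.mem_bot] at hqP
    exact hp.ne_zero (by exact_mod_cast hqP)
  have hfin : Finite (𝓞 K ⧸ P) := Ideal.finiteQuotientOfFreeOfNeBot _ hPb
  have hnt : Nontrivial (𝓞 K ⧸ P) := Ideal.Quotient.nontrivial_iff.2 hPp.ne_top
  have hfact : Fact p.Prime := ⟨hp⟩
  have h1 : addOrderOf (1 : 𝓞 K ⧸ P) = p := by
    refine addOrderOf_eq_prime ?_ one_ne_zero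
    rw [nsmul_one]
    have h2 : ((p : ℕ) : 𝓞 K ⧸ P) = Ideal.Quotient.mk P (p : 𝓞 K) := (map_natCast _ _).symm
    rw [h2]
    exact Ideal.Quotient.eq_zero_iff_mem.2 hqP
  have h3 : p ∣ Nat.card (𝓞 K ⧸ P) := by
    rw [← h1]
    exact addOrderOf_dvd_natCard _
  have h4 : 1 < Nat.card (𝓞 K ⧸ P) := Finite.one_lt_card
  refine ⟨Nat.card (𝓞 K ⧸ P) - 1, by omega, ?_, by omega⟩
  intro h5
  have h6 : p ∣ 1 := by
    have h7 := Nat.dvd_sub h3 h5
    have h8 : Nat.card (𝓞 K ⧸ P) - (Nat.card (𝓞 K ⧸ P) - 1) = 1 := by omega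
    rwa [h8] at h7
  exact hp.one_lt.ne' (Nat.dvd_one.1 h6)

/-- Chunk L1 (M). The units of V are roots of unity of order prime to p modulo the maximal ideal. PROOF. K = F(x) = IntermediateField.adjoin F {x} (a number field: finite over F, NumberField.of_module_finite). H13S.residue_fixed K V (V ≠ ⊤ since V p < 1, h.above) for T = x (in V: h.mem) fixed by K.fixingSubgroup: a in 𝓞 K with V (x - a) < 1,
so V a = 1. P = the ideal of the b in 𝓞 K with V b < 1: maximal with finite residue field (see the proof of residue_fixed for P) of characteristic p, q = number of elements = a power of p (≥ p), a^(q-1) - 1 in P (FiniteField.pow_card_sub_one_eq_one), so V (x^(q-1) - 1) < 1. n = q - 1, n > 0, p does not divide n.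
X^n - 1 = product of the X - ζ over the n-th roots of unity in Ω (algebraically closed; X_pow_sub_one_eq_prod with a primitive root: IsPrimitiveRoot from HasEnoughRootsOfUnity or IsAlgClosed; or Polynomial.Splits and a root ζ with V (x - ζ) < 1 because the product of the V (x - ζ) is < 1). Norms: n1_lt1. -/
theorem l1_unit (h : Ctx F p V i) {x : Ω} (hx : ‖i x‖ = 1) : ∃ (ζ : Ω) (n : ℕ), 0 < n ∧ ¬ p ∣ n ∧ ζ ^ n = 1 ∧ ‖i (x - ζ)‖ < 1 := by
  have hac : IsAlgClosed Ω := IsAlgClosure.isAlgClosed F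
  have hal0 : Algebra.IsAlgebraic F Ω := IsAlgClosure.isAlgebraic
  have hint : IsIntegral F x := Algebra.IsIntegral.isIntegral x
  have hfd : FiniteDimensional F (IntermediateField.adjoin F {x}) :=
    IntermediateField.adjoin.finiteDimensional hint
  set K : IntermediateField F Ω := IntermediateField.adjoin F {x} with hK
  have hNF : NumberField K := NumberField.of_module_finite F K
  have hal : Algebra.IsAlgebraic K Ω := Algebra.IsAlgebraic.tower_top (K := F) K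
  have hcl : IsAlgClosure K Ω := ⟨inferInstance, hal⟩
  obtain ⟨s, -, hs2⟩ := H13S.in2_gen (K := K) p h.pr V h.above
  obtain ⟨m, hm0, hmp, hm⟩ := l1_card (Ω := Ω) K h.pr V h.above
  rw [hm] at hs2
  have hxV : x ∈ V := (h.mem x).2 hx.le
  have hfix : s x = x := s.commutes (⟨x, IntermediateField.mem_adjoin_simple_self F x⟩ : K)
  have h1 := hs2 x hxV
  rw [hfix, n1_lt1 h] at h1
  have h2 : ‖i (x ^ m - 1)‖ < 1 := by
    have e : i (x - x ^ (m + 1)) = -(i x * i (x ^ m - 1)) := by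
      rw [← map_mul, ← map_neg]
      congr 1
      ring
    rw [e, norm_neg, norm_mul, hx, one_mul] at h1
    exact h1
  have hm1 : (Polynomial.X ^ m - Polynomial.C (1 : Ω)).Monic := Polynomial.monic_X_pow_sub_C 1 hm0.ne'
  have h3 := (IsAlgClosed.splits (Polynomial.X ^ m - Polynomial.C (1 : Ω))).eval_eq_prod_roots_of_monic hm1 x
  rw [Polynomial.eval_sub, Polynomial.eval_pow, Polynomial.eval_X, Polynomial.eval_C] at h3
  by_contra hcon
  push Not at hcon
  have h4 : ∀ ζ ∈ (Polynomial.X ^ m - Polynomial.C (1 : Ω)).roots, 1 ≤ ‖i (x - ζ)‖ := by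
    intro ζ hζ
    refine hcon ζ m hm0 hmp ?_
    have h5 := (Polynomial.mem_roots'.1 hζ).2
    rw [Polynomial.IsRoot.def, Polynomial.eval_sub, Polynomial.eval_pow, Polynomial.eval_X, Polynomial.eval_C, sub_eq_zero] at h5
    exact h5
  have h6 : ∀ S : Multiset Ω, (∀ ζ ∈ S, 1 ≤ ‖i (x - ζ)‖) → 1 ≤ ‖i ((S.map (fun a => x - a)).prod)‖ := by
    intro S
    induction S using Multiset.induction_on with
    | empty =>
      intro _
      rw [Multiset.map_zero, Multiset.prod_zero, map_one, norm_one]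
    | cons a S ih =>
      intro hS
      rw [Multiset.map_cons, Multiset.prod_cons, map_mul, norm_mul]
      exact one_le_mul_of_one_le_of_one_le (hS a (Multiset.mem_cons_self a S)) (ih fun ζ hζ => hS ζ (Multiset.mem_cons_of_mem hζ))
  have h7 := h6 _ h4
  rw [← h3] at h7
  exact absurd h2 (not_lt.2 h7)

/-- Chunk L1 (S/M). Inertia fixes the roots of unity of order prime to p. PROOF. z = s ζ / ζ, z^n = 1, ‖i (z - 1)‖ < 1 (Inert V s for ζ, which is in V as an integral element: or because ‖i ζ‖^n = 1; ‖i ζ‖ = 1). If z ≠ 1: 0 = (z^n - 1)/(z - 1) = sum_(k<n) z^k (geom_sum_mul), and the norm of sum z^k - n is < 1 while ‖i n‖ = 1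
(n prime to p, ‖i p‖ < 1: n1_int for a = n, or Bezout): contradiction. -/
theorem l1_root (h : Ctx F p V i) {s : Ω ≃ₐ[F] Ω} (hs : Inert V s) {ζ : Ω} {n : ℕ} (hn : ¬ p ∣ n) (hζ : ζ ^ n = 1) : s ζ = ζ := by
  have hn0 : n ≠ 0 := by
    rintro rfl
    exact hn (dvd_zero p)
  have hζ1 : ‖i ζ‖ = 1 := l1_one hn0 hζ
  have hζ0 : ζ ≠ 0 := by
    rintro rfl
    rw [map_zero, norm_zero] at hζ1
    exact zero_ne_one hζ1
  have h1 : ‖i (s ζ - ζ)‖ < 1 := (n1_lt1 h _).1 (hs ζ ((h.mem ζ).2 hζ1.le))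
  set z : Ω := s ζ / ζ with hz
  have hzn : z ^ n = 1 := by
    rw [hz, div_pow, ← map_pow, hζ, map_one, div_one]
  have hz1 : ‖i z‖ = 1 := l1_one hn0 hzn
  have h2 : ‖i (z - 1)‖ < 1 := by
    have e : i (z - 1) = i (s ζ - ζ) / i ζ := by
      rw [← map_div₀]
      congr 1
      rw [hz]
      field_simp
    rw [e, norm_div, hζ1, div_one]
    exact h1
  by_contra hne
  have hzne : z - 1 ≠ 0 := by
    rw [sub_ne_zero]
    intro h3
    apply hne
    rw [hz, div_eq_one_iff_eq hζ0] at h3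
    exact h3
  have h3 : ∑ k ∈ Finset.range n, z ^ k = 0 := by
    have h4 := geom_sum_mul z n
    rw [hzn, sub_self] at h4
    exact (mul_eq_zero.1 h4).resolve_right hzne
  have h5 : ∀ k : ℕ, ‖i (z ^ k - 1)‖ < 1 := by
    intro k
    have h6 := geom_sum_mul z k
    rw [← h6, map_mul, norm_mul]
    have h7 : ‖i (∑ j ∈ Finset.range k, z ^ j)‖ ≤ 1 := by
      rw [map_sum]
      refine IsUltrametricDist.norm_sum_le_of_forall_le_of_nonneg zero_le_one fun j _ => ?_
      rw [map_pow, norm_pow, hz1, one_pow]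
    calc ‖i (∑ j ∈ Finset.range k, z ^ j)‖ * ‖i (z - 1)‖ ≤ 1 * ‖i (z - 1)‖ := mul_le_mul_of_nonneg_right h7 (norm_nonneg _)
      _ < 1 := by rw [one_mul]; exact h2
  have h8 : ‖i (n : Ω)‖ < 1 := by
    have h9 : ∑ k ∈ Finset.range n, (z ^ k - 1) = -(n : Ω) := by
      rw [Finset.sum_sub_distrib, h3, Finset.sum_const, Finset.card_range, nsmul_eq_mul, mul_one, zero_sub]
    have h10 : ∀ N : ℕ, ‖i (∑ k ∈ Finset.range N, (z ^ k - 1))‖ < 1 := by
      intro N
      induction N with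
      | zero => rw [Finset.range_zero, Finset.sum_empty, map_zero, norm_zero]; exact one_pos
      | succ N ih =>
        rw [Finset.sum_range_succ, map_add]
        exact l1_add_lt ih (h5 N)
    have h11 := h10 n
    rwa [h9, map_neg, norm_neg] at h11
  have hcop : Nat.Coprime p n := (Nat.Prime.coprime_iff_not_dvd h.pr).2 hn
  have hbz : (p : ℤ) * Nat.gcdA p n + (n : ℤ) * Nat.gcdB p n = 1 := by
    rw [← Nat.gcd_eq_gcd_ab, hcop]
    norm_num
  have hbz2 : (p : C) * (Nat.gcdA p n : C) + (n : C) * (Nat.gcdB p n : C) = 1 := by exact_mod_cast congrArg (fun t : ℤ => (t : C)) hbz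
  have h12 : ‖(p : C)‖ < 1 := by
    have := (n1_p h).1
    rwa [map_natCast] at this
  have h13 : ‖(n : C)‖ < 1 := by rwa [map_natCast] at h8
  have h14 : ‖(1 : C)‖ < 1 := by
    rw [← hbz2]
    refine l1_add_lt ?_ ?_
    · rw [norm_mul]
      calc ‖(p : C)‖ * ‖(Nat.gcdA p n : C)‖ ≤ ‖(p : C)‖ * 1 := mul_le_mul_of_nonneg_left (IsUltrametricDist.norm_intCast_le_one C _) (norm_nonneg _)
        _ < 1 := by rw [mul_one]; exact h12
    · rw [norm_mul]
      calc ‖(n : C)‖ * ‖(Nat.gcdB p n : C)‖ ≤ ‖(n : C)‖ * 1 := mul_le_mul_of_nonneg_left (IsUltrametricDist.norm_intCast_le_one C _) (norm_nonneg _)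
        _ < 1 := by rw [mul_one]; exact h13
  rw [norm_one] at h14
  exact lt_irrefl _ h14

/-- Chunk L1 (S). Every element of V is congruent to an element fixed by the inertia group. (‖x‖ < 1: 0. Otherwise l1_unit, l1_root.) -/
theorem l1 (h : Ctx F p V i) {x : Ω} (hx : ‖i x‖ ≤ 1) :
    ∃ z : Ω, ‖i z‖ ≤ 1 ∧ (∀ s : Ω ≃ₐ[F] Ω, Inert V s → s z = z) ∧ ‖i (x - z)‖ < 1 := by
  rcases lt_or_eq_of_le hx with h1 | h1
  · refine ⟨0, ?_, fun s _ => map_zero s, ?_⟩
    · rw [map_zero, norm_zero]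
      exact zero_le_one
    · rw [sub_zero]
      exact h1
  · obtain ⟨ζ, n, hn, hnp, hζ, h2⟩ := l1_unit h h1
    exact ⟨ζ, (l1_one hn.ne' hζ).le, fun s hs => l1_root h hs hnp hζ, h2⟩

end SSA
end

-- from Lib.SSA.L2
section

/-! # SSA, chunk L2 (M): the field fixed by the inertia group of a number field -/

open NumberField IsDedekindDomain WeierstrassCurve

namespace SSA

open H55P (IQ Pt ac Inert Dec Nm inS)
open H16S

variable {F : Type} [Field F] [NumberField F] {p : ℕ} {Ω C : Type} [Field Ω] [Algebra F Ω] [IsAlgClosure F Ω] [NormedField C] [IsUltrametricDist C]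
  {V : ValuationSubring Ω} {i : Ω →+* C}

/-- w is a uniformizer of the number field K at V. -/
structure Uf (V : ValuationSubring Ω) (i : Ω →+* C) (K : IntermediateField F Ω) (w : Ω) : Prop where
  mem : w ∈ K
  ne : w ≠ 0
  lt : ‖i w‖ < 1
  val : ∀ x : Ω, x ≠ 0 → x ∈ K → ∃ k : ℤ, ‖i x‖ = ‖i w‖ ^ k

/-- Chunk L2 (M). Uniformizers exist. PROOF. The set P of the a in 𝓞 K with V a < 1 is a nonzero prime ideal (p is in it: h.above; K a number field): a HeightOneSpectrum v of 𝓞 K. w in P, not in P^2 (v.valuation_exists_uniformizer K or Ideal.exists_mem_pow_notMem_pow_succ). Every x ≠ 0 of K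
is w^k u with v-adic valuation of u equal to 1, so u = a / b with a, b in 𝓞 K not in P (u in the localization; H13S.in4_val or IsLocalization.AtPrime; see the proofs in Lib/H13S/IN4.lean, H13S.Abv.le: equality of values at v gives equality of values at V), ‖i a‖ = ‖i b‖ = 1. -/
theorem l2_uf (h : Ctx F p V i) (K : IntermediateField F Ω) [NumberField K] : ∃ w : Ω, Uf V i K w := by
  have hp0 : (p : Ω) ≠ 0 := by
    intro h0
    have h1 := (n1_p h).2
    rw [h0, map_zero, norm_zero] at h1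
    exact lt_irrefl _ h1
  obtain ⟨W, hW⟩ := H13S.exists_below K V ⟨(p : K)⁻¹, by
    have e : (((p : K)⁻¹ : K) : Ω) = (p : Ω)⁻¹ := by
      push_cast
      rfl
    rw [e, h.mem, map_inv₀, norm_inv]
    intro h1
    have h2 := (n1_p h).1
    have h3 := (n1_p h).2
    exact absurd h1 (not_le.2 ((one_lt_inv₀ h3).2 h2))⟩
  obtain ⟨π, hπ⟩ := W.valuation_exists_uniformizer K
  have hπ0 : π ≠ 0 := by
    rintro rfl
    rw [map_zero] at hπ
    exact WithZero.exp_ne_zero hπ.symm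
  have hle : ∀ x y : K, ‖i (x : Ω)‖ ≤ ‖i (y : Ω)‖ ↔ W.valuation K x ≤ W.valuation K y := fun x y => (n1_le h _ _).symm.trans (hW.le x y)
  refine ⟨(π : Ω), π.2, fun h0 => hπ0 (Subtype.ext h0), ?_, ?_⟩
  · rw [← n1_lt1 h, hW.lt, hπ]
    rw [← WithZero.exp_zero, WithZero.exp_lt_exp]
    norm_num
  · intro x hx0 hxK
    have hx1 : W.valuation K (⟨x, hxK⟩ : K) ≠ 0 := (Valuation.ne_zero_iff _).2 (fun h0 => hx0 (congrArg Subtype.val h0))
    obtain ⟨n, hn⟩ : ∃ n : ℤ, W.valuation K (⟨x, hxK⟩ : K) = WithZero.exp n := by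
      refine ⟨WithZero.log (W.valuation K (⟨x, hxK⟩ : K)), ?_⟩
      rw [WithZero.exp_log hx1]
    refine ⟨-n, ?_⟩
    have h1 : W.valuation K (π ^ (-n)) = WithZero.exp n := by
      rw [map_zpow₀, hπ, ← WithZero.exp_zsmul]
      congr 1
      simp
    have h2 : ‖i x‖ = ‖i ((π ^ (-n) : K) : Ω)‖ :=
      le_antisymm ((hle ⟨x, hxK⟩ (π ^ (-n))).2 (by rw [hn, h1])) ((hle (π ^ (-n)) ⟨x, hxK⟩).2 (by rw [hn, h1]))
    rw [h2]
    have h3 : ((π ^ (-n) : K) : Ω) = (π : Ω) ^ (-n) := by push_cast; rfl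
    rw [h3, map_zpow₀, norm_zpow]

/-- Chunk L2 (S). The values of the elements fixed by the inertia group of K are the values of K: H13S.value_fixed (in K: IntermediateField elements are fixed by K.fixingSubgroup), n1_le twice, u.val. -/
theorem l2_val (h : Ctx F p V i) {K : IntermediateField F Ω} [NumberField K] {w : Ω} (u : Uf V i K w) {x : Ω} (hx : x ≠ 0)
    (hf : ∀ s ∈ K.fixingSubgroup ⊓ inS F V, s x = x) : ∃ k : ℤ, ‖i x‖ = ‖i w‖ ^ k := by
  obtain ⟨a, ha0, ha⟩ := H13S.value_fixed K V x hx (fun s hs hI => hf s ⟨hs, hI⟩)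
  have h1 : ‖i x‖ = ‖i (a : Ω)‖ := le_antisymm ((n1_le h _ _).1 ha.le) ((n1_le h _ _).1 ha.ge)
  rw [h1]
  exact u.val a (fun h0 => ha0 (Subtype.ext h0)) a.2

/-- Chunk L2 (S/M). Expansion: x fixed by the inertia group of K, ‖i x‖ ≤ 1: x = z₀ + z₁ w + ... + z_(m-1) w^(m-1) + w^m y with z_k fixed by the whole inertia group, ‖i z_k‖ ≤ 1, and y fixed by the inertia group of K, ‖i y‖ ≤ 1. PROOF. Induction over m: l1 for y gives z_m with ‖i (y - z_m)‖ < 1; y - z_m is fixed by the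
inertia group of K, so its norm is ≤ ‖i w‖ (l2_val or 0: ‖i w‖^k < 1 gives k ≥ 1), y' = (y - z_m) / w (w in K is fixed). -/
theorem l2_exp (h : Ctx F p V i) {K : IntermediateField F Ω} [NumberField K] {w : Ω} (u : Uf V i K w) {x : Ω} (hx : ‖i x‖ ≤ 1)
    (hf : ∀ s ∈ K.fixingSubgroup ⊓ inS F V, s x = x) (m : ℕ) :
    ∃ (z : ℕ → Ω) (y : Ω), (∀ k, ‖i (z k)‖ ≤ 1 ∧ ∀ s : Ω ≃ₐ[F] Ω, Inert V s → s (z k) = z k) ∧ ‖i y‖ ≤ 1 ∧
      (∀ s ∈ K.fixingSubgroup ⊓ inS F V, s y = y) ∧ x = ∑ k ∈ Finset.range m, z k * w ^ k + w ^ m * y := by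
  have hw0 : 0 < ‖i w‖ := norm_pos_iff.2 ((map_ne_zero i).2 u.ne)
  have hwf : ∀ s ∈ K.fixingSubgroup ⊓ inS F V, s w = w := fun s hs => (IntermediateField.mem_fixingSubgroup_iff K s).1 hs.1 w u.mem
  induction m with
  | zero =>
    refine ⟨fun _ => 0, x, fun _ => ⟨?_, fun s _ => map_zero s⟩, hx, hf, ?_⟩
    · rw [map_zero, norm_zero]
      exact zero_le_one
    · rw [Finset.range_zero, Finset.sum_empty, pow_zero, one_mul, zero_add]
  | succ m ih =>
    obtain ⟨z, y, hz, hy, hyf, hxe⟩ := ih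
    obtain ⟨zm, hz1, hz2, hz3⟩ := l1 h hy
    have hfix : ∀ s ∈ K.fixingSubgroup ⊓ inS F V, s (y - zm) = y - zm := by
      intro s hs
      rw [map_sub, hyf s hs, hz2 s hs.2]
    have hle : ‖i (y - zm)‖ ≤ ‖i w‖ := by
      by_cases h0 : y - zm = 0
      · rw [h0, map_zero, norm_zero]
        exact hw0.le
      · obtain ⟨k, hk⟩ := l2_val h u h0 hfix
        rw [hk] at hz3 ⊢
        have hk1 : 1 ≤ k := by
          by_contra hc
          have hc' : k ≤ 0 := by omega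
          have h5 : (1 : ℝ) ≤ ‖i w‖ ^ k := by
            obtain ⟨j, hj⟩ : ∃ j : ℕ, k = -(j : ℤ) := ⟨(-k).toNat, by omega⟩
            rw [hj, zpow_neg, zpow_natCast]
            exact (one_le_inv₀ (pow_pos hw0 j)).2 (pow_le_one₀ hw0.le u.lt.le)
          exact absurd hz3 (not_lt.2 h5)
        obtain ⟨j, hj⟩ : ∃ j : ℕ, k = ((j + 1 : ℕ) : ℤ) := ⟨(k - 1).toNat, by omega⟩
        rw [hj, zpow_natCast, pow_succ]
        exact mul_le_of_le_one_left hw0.le (pow_le_one₀ hw0.le u.lt.le)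
    refine ⟨Function.update z m zm, (y - zm) / w, ?_, ?_, ?_, ?_⟩
    · intro k
      by_cases hk : k = m
      · subst hk
        rw [Function.update_self]
        exact ⟨hz1, hz2⟩
      · rw [Function.update_of_ne hk]
        exact hz k
    · rw [map_div₀, norm_div]
      exact (div_le_one hw0).2 hle
    · intro s hs
      rw [map_div₀, hfix s hs, hwf s hs]
    · have h6 : ∑ k ∈ Finset.range m, Function.update z m zm k * w ^ k = ∑ k ∈ Finset.range m, z k * w ^ k := by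
        refine Finset.sum_congr rfl fun k hk => ?_
        rw [Function.update_of_ne (Finset.mem_range.1 hk).ne]
      have h7 : w * ((y - zm) / w) = y - zm := mul_div_cancel₀ _ u.ne
      rw [Finset.sum_range_succ, h6, Function.update_self, pow_succ, mul_assoc (w ^ m), h7, hxe]
      ring

end SSA
end

-- from Lib.SSA.L3
section

/-! # SSA, chunk L3 (M): wild inertia: break at least 1, and exactly 1 under the condition on the second ramification group -/

open NumberField IsDedekindDomain WeierstrassCurve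

namespace SSA

open H55P (IQ Pt ac Inert Dec Nm inS)
open H16S

variable {F : Type} [Field F] [NumberField F] {p : ℕ} {Ω C : Type} [Field Ω] [Algebra F Ω] [IsAlgClosure F Ω] [NormedField C] [IsUltrametricDist C]
  {V : ValuationSubring Ω} {i : Ω →+* C}

/-- Norms of elements with values in the powers of ‖i w‖. -/
theorem l3_pow (h : Ctx F p V i) {K : IntermediateField F Ω} [NumberField K] {w : Ω} (u : Uf V i K w) {x : Ω}
    (hf : ∀ s ∈ K.fixingSubgroup ⊓ inS F V, s x = x) {n : ℕ} (hlt : ‖i x‖ < ‖i w‖ ^ n) : ‖i x‖ ≤ ‖i w‖ ^ (n + 1) := by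
  have hw0 : 0 < ‖i w‖ := norm_pos_iff.2 ((map_ne_zero i).2 u.ne)
  by_cases h0 : x = 0
  · rw [h0, map_zero, norm_zero]
    exact (pow_pos hw0 _).le
  · obtain ⟨k, hk⟩ := l2_val h u h0 hf
    rw [hk] at hlt ⊢
    have h1 : ((n : ℤ) + 1) ≤ k := by
      have h2 : ‖i w‖ ^ k < ‖i w‖ ^ (n : ℤ) := by rwa [zpow_natCast]
      have h3 := (zpow_lt_zpow_iff_right_of_lt_one₀ hw0 u.lt).1 h2
      omega
    have h4 : ‖i w‖ ^ (n + 1) = ‖i w‖ ^ ((n : ℤ) + 1) := by
      rw [← zpow_natCast]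
      push_cast
      rfl
    rw [h4]
    exact zpow_le_zpow_right_of_le_one₀ hw0 u.lt.le h1

/-- s (σ w) = σ w. -/
theorem l3_fix {K : IntermediateField F Ω} {w : Ω} (hw : w ∈ K) {σ : Ω ≃ₐ[F] Ω}
    (hn : ∀ s ∈ K.fixingSubgroup, σ⁻¹ * s * σ ∈ K.fixingSubgroup) : ∀ s ∈ K.fixingSubgroup ⊓ inS F V, s (σ w) = σ w := by
  intro s hs
  have h1 : (σ⁻¹ * s * σ) w = w := (IntermediateField.mem_fixingSubgroup_iff K _).1 (hn s hs.1) w hw
  have h2 : (σ * (σ⁻¹ * s * σ)) w = σ w := congrArg σ h1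
  have h3 : σ * (σ⁻¹ * s * σ) = s * σ := by group
  rw [h3] at h2
  exact h2

theorem l3_powsub {a b : C} (ha : ‖a‖ ≤ 1) (hb : ‖b‖ ≤ 1) (k : ℕ) : ‖a ^ k - b ^ k‖ ≤ ‖a - b‖ := by
  induction k with
  | zero => rw [pow_zero, pow_zero, sub_self, norm_zero]; exact norm_nonneg _
  | succ k ih =>
    have e : a ^ (k + 1) - b ^ (k + 1) = a ^ k * (a - b) + (a ^ k - b ^ k) * b := by ring
    rw [e]
    refine l1_add_le ?_ ?_
    · rw [norm_mul, norm_pow]
      exact mul_le_of_le_one_left (norm_nonneg _) (pow_le_one₀ (norm_nonneg _) ha)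
    · rw [norm_mul]
      calc ‖a ^ k - b ^ k‖ * ‖b‖ ≤ ‖a ^ k - b ^ k‖ * 1 := mul_le_mul_of_nonneg_left hb (norm_nonneg _)
        _ ≤ ‖a - b‖ := by rw [mul_one]; exact ih

/-- Chunk L3 (M). PROOF. u₀ = σ w / w, ‖i u₀‖ = 1 (n1_dec). σ^k w / w is congruent to u₀^k (induction: σ^(k+1) w / w = σ (σ^k w / w) * u₀, and σ x = x modulo the maximal ideal for x in V: Inert). σ^(p^m) w = w (in K): u₀^(p^m) - 1 has norm < 1. (u₀ - 1)^(p^m) = u₀^(p^m) - 1 modulo p (odd p: sub_pow or the residue field of V, characteristic p: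
sub_pow_char_pow), so ‖i (u₀ - 1)‖ < 1. u₀ - 1 is fixed by J = K.fixingSubgroup ⊓ inS F V (hn: s (σ w) = σ (σ⁻¹ s σ w) = σ w), so its norm is ≤ ‖i w‖ (l2_val). -/
theorem l3_w (h : Ctx F p V i) {K : IntermediateField F Ω} [NumberField K] {w : Ω} (u : Uf V i K w) {σ : Ω ≃ₐ[F] Ω} (hσ : Inert V σ)
    (hn : ∀ s ∈ K.fixingSubgroup, σ⁻¹ * s * σ ∈ K.fixingSubgroup) {m : ℕ} (hm : σ ^ p ^ m ∈ K.fixingSubgroup) :
    ‖i (σ w - w)‖ ≤ ‖i w‖ ^ 2 := by
  classical
  have hw0 : 0 < ‖i w‖ := norm_pos_iff.2 ((map_ne_zero i).2 u.ne)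
  have hwf : ∀ s ∈ K.fixingSubgroup ⊓ inS F V, s w = w := fun s hs => (IntermediateField.mem_fixingSubgroup_iff K s).1 hs.1 w u.mem
  have hal0 : Algebra.IsAlgebraic F Ω := IsAlgClosure.isAlgebraic
  have hD : Dec V σ := H55P.inert_dec V σ hσ
  have hDk : ∀ k : ℕ, Inert V (σ ^ k) := fun k => (inS F V).pow_mem hσ k
  have hA1 : ∀ k : ℕ, ‖i ((σ ^ k) w / w)‖ = 1 := by
    intro k
    rw [map_div₀, norm_div, n1_dec h (H55P.inert_dec V _ (hDk k)), div_self hw0.ne']
  have hu1 : ‖i (σ w / w)‖ = 1 := by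
    have := hA1 1
    rwa [pow_one] at this
  have hcong : ∀ k : ℕ, ‖i ((σ ^ k) w / w - (σ w / w) ^ k)‖ < 1 := by
    intro k
    induction k with
    | zero =>
      rw [pow_zero, pow_zero]
      have e : (1 : Ω ≃ₐ[F] Ω) w / w - 1 = 0 := by
        rw [AlgEquiv.one_apply, div_self u.ne, sub_self]
      rw [e, map_zero, norm_zero]
      exact one_pos
    | succ k ih =>
      have e : (σ ^ (k + 1)) w / w - (σ w / w) ^ (k + 1) =
          (σ ((σ ^ k) w / w) - (σ ^ k) w / w) * (σ w / w) + ((σ ^ k) w / w - (σ w / w) ^ k) * (σ w / w) := by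
        have e1 : (σ ^ (k + 1)) w = σ ((σ ^ k) w) := by
          rw [pow_succ']
          rfl
        rw [e1, map_div₀]
        have hσw : σ w ≠ 0 := (map_ne_zero σ).2 u.ne
        have e2 : σ ((σ ^ k) w) / σ w * (σ w / w) = σ ((σ ^ k) w) / w := div_mul_div_cancel₀ hσw
        rw [sub_mul, sub_mul, e2, pow_succ]
        ring
      rw [e, map_add]
      refine l1_add_lt ?_ ?_
      · rw [map_mul, norm_mul, hu1, mul_one]
        exact (n1_lt1 h _).1 (hσ _ ((h.mem _).2 (hA1 k).le))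
      · rw [map_mul, norm_mul, hu1, mul_one]
        exact ih
  have hone : ‖i ((σ w / w) ^ p ^ m - 1)‖ < 1 := by
    have h1 := hcong (p ^ m)
    have h2 : (σ ^ p ^ m) w = w := (IntermediateField.mem_fixingSubgroup_iff K _).1 hm w u.mem
    rw [h2, div_self u.ne, ← norm_neg, ← map_neg, neg_sub] at h1
    exact h1
  have hV1 : σ w / w - 1 ∈ V := by
    rw [h.mem, map_sub, map_one, sub_eq_add_neg]
    refine l1_add_le hu1.le ?_
    rw [norm_neg, norm_one]
  obtain ⟨r, hr⟩ := exists_add_pow_prime_pow_eq h.pr (⟨σ w / w - 1, hV1⟩ : V) 1 m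
  have hr' : (σ w / w) ^ p ^ m = (σ w / w - 1) ^ p ^ m + 1 + (p : Ω) * ((σ w / w - 1) * (r : Ω)) := by
    have h3 := congrArg (fun t : V => (t : Ω)) hr
    simp only [one_pow] at h3
    push_cast at h3
    rw [sub_add_cancel] at h3
    rw [h3]
    ring
  have hr1 : ‖i ((σ w / w - 1) * (r : Ω))‖ ≤ 1 := (h.mem _).1 (V.mul_mem _ _ hV1 r.2)
  have hpw : ‖i (σ w / w - 1)‖ ^ p ^ m < 1 := by
    rw [← norm_pow, ← map_pow]
    have e : (σ w / w - 1) ^ p ^ m = ((σ w / w) ^ p ^ m - 1) + -((p : Ω) * ((σ w / w - 1) * (r : Ω))) := by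
      rw [hr']
      ring
    rw [e, map_add]
    refine l1_add_lt hone ?_
    rw [map_neg, norm_neg, map_mul, norm_mul]
    calc ‖i (p : Ω)‖ * ‖i ((σ w / w - 1) * (r : Ω))‖ ≤ ‖i (p : Ω)‖ * 1 := mul_le_mul_of_nonneg_left hr1 (norm_nonneg _)
      _ < 1 := by rw [mul_one]; exact (n1_p h).1
  have hlt : ‖i (σ w / w - 1)‖ < ‖i w‖ ^ 0 := by
    rw [pow_zero]
    exact (pow_lt_one_iff_of_nonneg (norm_nonneg _) (pow_ne_zero m h.pr.ne_zero)).1 hpw
  have hfx : ∀ s ∈ K.fixingSubgroup ⊓ inS F V, s (σ w / w - 1) = σ w / w - 1 := by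
    intro s hs
    rw [map_sub, map_div₀, map_one, l3_fix u.mem hn s hs, hwf s hs]
  have hle := l3_pow h u hfx hlt
  rw [zero_add, pow_one] at hle
  have e : σ w - w = w * (σ w / w - 1) := by
    rw [mul_sub, mul_one, mul_div_cancel₀ _ u.ne]
  rw [e, map_mul, norm_mul, pow_two]
  exact mul_le_mul_of_nonneg_left hle hw0.le

/-- Chunk L3 (S/M). A bound for σ x - x by the one for w. PROOF. l2_exp with m = N: x = sum z_k w^k + w^N y; σ x - x = sum_(k ≥ 1) z_k (σ (w^k) - w^k) + (σ (w^N y) - w^N y); σ (w^k) - w^k is divisible by σ w - w (the quotient is a sum of products of integral elements: geom_sum; Commute.mul_geom_sum₂), the last term has norm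
≤ ‖i w‖^N. -/
theorem l3_x (h : Ctx F p V i) {K : IntermediateField F Ω} [NumberField K] {w : Ω} (u : Uf V i K w) {σ : Ω ≃ₐ[F] Ω} (hσ : Inert V σ)
    (N : ℕ) {x : Ω} (hx : ‖i x‖ ≤ 1) (hf : ∀ s ∈ K.fixingSubgroup ⊓ inS F V, s x = x) :
    ‖i (σ x - x)‖ ≤ max ‖i (σ w - w)‖ (‖i w‖ ^ N) := by
  classical
  have hw0 : 0 < ‖i w‖ := norm_pos_iff.2 ((map_ne_zero i).2 u.ne)
  have hal0 : Algebra.IsAlgebraic F Ω := IsAlgClosure.isAlgebraic
  have hD : Dec V σ := H55P.inert_dec V σ hσ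
  obtain ⟨z, y, hz, hy, -, hxe⟩ := l2_exp h u hx hf N
  have e : σ x - x = ∑ k ∈ Finset.range N, z k * ((σ w) ^ k - w ^ k) + (σ (w ^ N * y) - w ^ N * y) := by
    rw [hxe, map_add, map_sum]
    have e1 : ∀ k ∈ Finset.range N, σ (z k * w ^ k) = z k * (σ w) ^ k := by
      intro k _
      rw [map_mul, (hz k).2 σ hσ, map_pow]
    rw [Finset.sum_congr rfl e1]
    simp only [mul_sub, Finset.sum_sub_distrib]
    ring
  rw [e, map_add, map_sum]
  refine l1_add_le ?_ ?_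
  · refine IsUltrametricDist.norm_sum_le_of_forall_le_of_nonneg (le_trans (norm_nonneg _) (le_max_left _ _)) fun k _ => ?_
    refine le_trans ?_ (le_max_left _ _)
    rw [map_mul, norm_mul]
    have h1 : ‖i ((σ w) ^ k - w ^ k)‖ ≤ ‖i (σ w - w)‖ := by
      rw [map_sub, map_sub, map_pow, map_pow]
      refine l3_powsub ?_ u.lt.le k
      rw [n1_dec h hD]
      exact u.lt.le
    calc ‖i (z k)‖ * ‖i ((σ w) ^ k - w ^ k)‖ ≤ 1 * ‖i ((σ w) ^ k - w ^ k)‖ := mul_le_mul_of_nonneg_right (hz k).1 (norm_nonneg _)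
      _ ≤ ‖i (σ w - w)‖ := by rw [one_mul]; exact h1
  · refine le_trans ?_ (le_max_right _ _)
    have h2 : ‖i (w ^ N * y)‖ ≤ ‖i w‖ ^ N := by
      rw [map_mul, norm_mul, map_pow, norm_pow]
      exact mul_le_of_le_one_right (pow_pos hw0 N).le hy
    rw [map_sub, sub_eq_add_neg]
    refine l1_add_le ?_ ?_
    · rw [n1_dec h hD]
      exact h2
    · rw [norm_neg]
      exact h2

/-- The condition on the second ramification group at V, for the single element σ: σ does not act trivially on the integers of K modulo the third power of the maximal ideal. -/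
def G2e (V : ValuationSubring Ω) (i : Ω →+* C) (K : IntermediateField F Ω) (σ : Ω ≃ₐ[F] Ω) : Prop :=
  ∀ w, Uf V i K w → ∃ x : Ω, (∀ s ∈ K.fixingSubgroup ⊓ inS F V, s x = x) ∧ ‖i x‖ ≤ 1 ∧ ‖i w‖ ^ 3 < ‖i (σ x - x)‖

/-- Chunk L3 (M). THE LOCAL SITUATION. PROOF. l2_uf: w. J = K.fixingSubgroup ⊓ inS F V. dec: inert_dec. nrm: hn and H13X.Inert.conj. sp: hm with m = 1 and inS F V is a subgroup. val: l2_val. ep: l2_val for x = p: ‖i p‖ = ‖i w‖^k, k an integer, k ≥ 0 because ‖i p‖ ≤ 1: e = k.toNat. br1: l3_x with N = 2 and l3_w. br2: ≤ by l3_w; if < then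
σ w - w (fixed by J, as in l3_w; or 0) has norm ≤ ‖i w‖^3 (l2_val), so all σ x - x have norm ≤ ‖i w‖^3 (l3_x, N = 3): contradiction with hG2. -/
theorem l3 (h : Ctx F p V i) (K : IntermediateField F Ω) [NumberField K] {σ : Ω ≃ₐ[F] Ω} (hσ : Inert V σ)
    (hn : ∀ s ∈ K.fixingSubgroup, σ⁻¹ * s * σ ∈ K.fixingSubgroup) (hm : σ ^ p ∈ K.fixingSubgroup) (hG2 : G2e V i K σ) :
    ∃ (e : ℕ) (w : Ω), Br p e V i (K.fixingSubgroup ⊓ inS F V) σ w := by
  classical
  obtain ⟨w, u⟩ := l2_uf h K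
  have hw0 : 0 < ‖i w‖ := norm_pos_iff.2 ((map_ne_zero i).2 u.ne)
  have hwf : ∀ s ∈ K.fixingSubgroup ⊓ inS F V, s w = w := fun s hs => (IntermediateField.mem_fixingSubgroup_iff K s).1 hs.1 w u.mem
  have hp0 : (p : Ω) ≠ 0 := by
    intro h0
    have h1 := (n1_p h).2
    rw [h0, map_zero, norm_zero] at h1
    exact lt_irrefl _ h1
  obtain ⟨k, hk⟩ := l2_val h u hp0 (fun s _ => map_natCast s p)
  have hk0 : 0 ≤ k := by
    by_contra hc
    have h2 : (1 : ℝ) < ‖i w‖ ^ k := by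
      obtain ⟨j, hj⟩ : ∃ j : ℕ, k = -((j + 1 : ℕ) : ℤ) := ⟨(-k - 1).toNat, by omega⟩
      rw [hj, zpow_neg, zpow_natCast]
      exact (one_lt_inv₀ (pow_pos hw0 _)).2 (pow_lt_one₀ hw0.le u.lt (Nat.succ_ne_zero j))
    rw [← hk] at h2
    exact absurd (n1_p h).1 (not_lt.2 h2.le)
  have hw2 : ‖i (σ w - w)‖ ≤ ‖i w‖ ^ 2 := l3_w h u hσ hn (m := 1) (by rw [pow_one]; exact hm)
  refine ⟨k.toNat, w, ?_⟩
  exact
    { dec := fun s hs => H55P.inert_dec V s hs.2
      inert := hσ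
      nrm := fun s hs => ⟨hn s hs.1, H13X.Inert.conj hs.2 (H55P.inert_dec V σ hσ)⟩
      sp := ⟨hm, (inS F V).pow_mem hσ p⟩
      fw := hwf
      w0 := u.ne
      w1 := u.lt
      val := fun x hx0 hx => l2_val h u hx0 hx
      ep := by
        rw [hk, ← zpow_natCast, Int.toNat_of_nonneg hk0]
      br1 := fun x hxf hx => le_trans (l3_x h u hσ 2 hx hxf) (max_le hw2 le_rfl)
      br2 := by
        refine le_antisymm hw2 ?_
        by_contra hc
        rw [not_le] at hc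
        have hfx : ∀ s ∈ K.fixingSubgroup ⊓ inS F V, s (σ w - w) = σ w - w := by
          intro s hs
          rw [map_sub, l3_fix u.mem hn s hs, hwf s hs]
        have h3 := l3_pow h u hfx hc
        obtain ⟨x, hxf, hx, hlt⟩ := hG2 w u
        have h4 := le_trans (l3_x h u hσ 3 hx hxf) (max_le h3 le_rfl)
        exact absurd hlt (not_lt.2 h4) }

end SSA
end

-- from Lib.SSN.C5
section

/-! # SSN, chunk C5: no points of order p in the reduction above an inert prime -/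

namespace SSN

open NumberField IsDedekindDomain WeierstrassCurve
open H55P (IQ Pt Nm)
open H55K (cj)
open H55K.TQ (BaseH PrimeH)

/-- Chunk C5 (S/M). PROOF. As in H13R/H1.lean (line 42) and H55K/DM.lean: the number of points of the reduction at v is Nm (1 - ψ (relNorm (𝓞 F) v)). v contains p, so the prime v₀ of F below v contains p, hence v₀ = span {p} (p inert), the relative norm of v is v₀ ^ f with f > 0, and ψ (v₀) is a generator of v₀ (H55K: ψ v
generates v for v not dividing the conductor; the discriminant is not in v, so v₀ is a prime of good reduction; see H55K/G10C.lean, Y5.lean, how ψ_gen is obtained from hH.hecke and the good reduction), so p divides ψ (relNorm v) =: p x. Nm (1 - p x) = (1 - p x)(1 - cj (p x)) (mul_cj) = 1 modulo p, so p does not divide it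
(p is not a unit). -/
theorem ss_pts {F : Type} [Field F] [NumberField F] [IQ F] {Ω : Type} [Field Ω] [Algebra F Ω] [IsAlgClosure F Ω] {W₀ : WeierstrassCurve (𝓞 F)} {Om : ℂ}
    {m : Ideal (𝓞 F)} {ψ : Ideal (𝓞 F) →*₀ 𝓞 F} {p : ℕ} (hH : BaseH F W₀ Om m ψ) (hp : PrimeH F W₀ p)
    (hin : (Ideal.span {(p : 𝓞 F)}).IsPrime) (M : IntermediateField F Ω) [NumberField M]
    {v : HeightOneSpectrum (𝓞 M)} (hv : (p : 𝓞 M) ∈ v.asIdeal) (hΔ : algebraMap (𝓞 F) (𝓞 M) W₀.Δ ∉ v.asIdeal) :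
    ¬ p ∣ Nat.card (W₀⁄(𝓞 M ⧸ v.asIdeal)).toAffine.Point := by
  rw [H55K.pts_w hH.data.hecke (fun v hv _ => hH.deu v hv) v hΔ fun hm => hΔ ((H13R.h1_pos hH v).2 hm)]
  obtain ⟨v₀, hv₀, hN, hf, hmv⟩ := H55K.DD.below (m := m) v
  have hpv : (p : 𝓞 F) ∈ v₀.asIdeal := by
    rw [hv₀]
    show algebraMap (𝓞 F) (𝓞 M) (p : 𝓞 F) ∈ v.asIdeal
    rw [map_natCast]
    exact hv
  have hp0 : (p : 𝓞 F) ≠ 0 := Nat.cast_ne_zero.2 hp.prime.ne_zero
  have hmax : (Ideal.span {(p : 𝓞 F)}).IsMaximal :=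
    hin.isMaximal (by rw [Ne, Ideal.span_singleton_eq_bot]; exact hp0)
  have e0 : Ideal.span {(p : 𝓞 F)} = v₀.asIdeal :=
    hmax.eq_of_le v₀.isPrime.ne_top ((Ideal.span_singleton_le_iff_mem _).2 hpv)
  have hm' : ¬ m ≤ v₀.asIdeal := fun hm => hΔ ((H13R.h1_pos hH v).2 (hmv.2 hm))
  have hgen : Ideal.span {ψ v₀.asIdeal} = v₀.asIdeal := hH.data.hecke.gen _ (H55K.DD.d8_cop hm')
  have hd : (p : 𝓞 F) ∣ ψ v₀.asIdeal := by
    have h1 : ψ v₀.asIdeal ∈ v₀.asIdeal := by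
      have h2 := Ideal.mem_span_singleton_self (ψ v₀.asIdeal)
      rw [hgen] at h2
      exact h2
    rw [← e0] at h1
    have h3 := Ideal.mem_span_singleton.1 h1
    rwa [e0] at h3
  have hd2 : (p : 𝓞 F) ∣ ψ (Ideal.relNorm (𝓞 F) v.asIdeal) := by
    rw [hN, map_pow]
    exact hd.trans (dvd_pow_self _ hf.ne')
  obtain ⟨x, hx⟩ := hd2
  intro hdvd
  have h1 : (p : 𝓞 F) ∣ ((Nm (1 - ψ (Ideal.relNorm (𝓞 F) v.asIdeal)) : ℕ) : 𝓞 F) := by
    exact Nat.cast_dvd_cast hdvd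
  rw [← H55K.mul_cj, hx, map_sub, map_mul, map_one, map_natCast] at h1
  have h2 : (p : 𝓞 F) ∣ 1 := by
    obtain ⟨y, hy⟩ := h1
    refine ⟨y + x + cj x - p * x * cj x, ?_⟩
    linear_combination hy
  exact hin.ne_top (Ideal.span_singleton_eq_top.2 (isUnit_of_dvd_one h2))

end SSN
end

-- from Lib.SSU.A1
section

/-! # SSU, A1: the L-series of a cyclic step as a product; p inert in F: sizes of relative norms -/

open NumberField IsDedekindDomain

namespace SSU

open H55N H55P SSR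
open H55B (g)
open H41D (vN vNc)

theorem pch_norm_le {K : Type} [Field K] [NumberField K] {p : ℕ} (hp : p ≠ 0) {f : Ideal (𝓞 K)} {R : Finset (HeightOneSpectrum (𝓞 K))}
    {χ : Ideal (𝓞 K) →*₀ ℂ} (h : PCh p f R χ) (a : Ideal (𝓞 K)) : ‖χ a‖ ≤ 1 := by
  by_cases ha : a = ⊥
  · have : χ ⊥ = 0 := χ.map_zero
    rw [ha, this, norm_zero]
    exact zero_le_one
  · by_cases hc : IsCoprime a (f * ∏ v ∈ R, v.asIdeal)
    · exact (Complex.norm_eq_one_of_pow_eq_one (h.val a ha hc) hp).le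
    · rw [h.zero a hc, norm_zero]
      exact zero_le_one

variable {F : Type} [Field F] [NumberField F] [IQ F]

/-- The L-series over K' is the product of the twisted L-series over K (copy of H55P.step_prod). -/
theorem step_prodC (K K' : Type) [Field K] [NumberField K] [Algebra F K] [Field K'] [NumberField K']
    [Algebra F K'] [Algebra K K'] [IsScalarTower F K K'] {M : Ideal (𝓞 F)} {ψ : Ideal (𝓞 F) →*₀ 𝓞 F}
    (h : IsHecke M ψ) (p : ℕ) (hp : p.Prime)
    (χ : Ideal (𝓞 K) →*₀ ℂ) (hf : ∀ (j : ℕ) (a : Ideal (𝓞 K)), ‖chp χ j a‖ ≤ 1) (hχ : SplitP K K' p χ)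
    (Λ₁ : ℂ → ℂ) (hs1 : ∀ s : ℂ, 3 / 2 < s.re → HasSum (tm (PsiP K ψ) s) (Λ₁ s))
    (Λ : ℕ → ℂ → ℂ) (hΛ : ∀ j s, 3 / 2 < s.re →
      HasSum (tm (PsiP K ψ * chp χ j : Ideal (𝓞 K) →*₀ ℂ) s) (Λ j s)) (s : ℂ) (hs : 3 / 2 < s.re) :
    HasSum (tm (PsiP K' ψ) s) (Λ₁ s * ∏ j ∈ Finset.range (p - 1), Λ j s) := by
  have hb : ∀ j, ∀ a : Ideal (𝓞 K),
      ‖(PsiP K ψ * chp χ j : Ideal (𝓞 K) →*₀ ℂ) a‖ ^ 2 ≤ Ideal.absNorm a := by
    intro j a
    refine le_trans ?_ (PsiP_norm_le h a)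
    have h4 : (PsiP K ψ * chp χ j : Ideal (𝓞 K) →*₀ ℂ) a = PsiP K ψ a * chp χ j a := rfl
    rw [h4, norm_mul, mul_pow]
    exact mul_le_of_le_one_right (by positivity)
      (pow_le_one₀ (norm_nonneg _) (hf j a))
  have hsum := tm_summable (PsiP K' ψ) (fun a => PsiP_norm_le h a) s hs
  have hL := AI_LSeries (PsiP K' ψ) (PsiP K' ψ).map_zero s hsum
  have hsum1 := tm_summable (PsiP K ψ) (fun a => PsiP_norm_le h a) s hs
  have hL1 := AI_LSeries (PsiP K ψ) (PsiP K ψ).map_zero s hsum1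
  have hL2 := fun j => AI_LSeries (PsiP K ψ * chp χ j : Ideal (𝓞 K) →*₀ ℂ)
    (PsiP K ψ * chp χ j : Ideal (𝓞 K) →*₀ ℂ).map_zero s
    (tm_summable (PsiP K ψ * chp χ j : Ideal (𝓞 K) →*₀ ℂ) (hb j) s hs)
  have hL3 := pt5_prod (p - 1) (fun j => AI (PsiP K ψ * chp χ j : Ideal (𝓞 K) →*₀ ℂ))
    (fun j => Λ j s) (fun j hj => by
      have h3 := hL2 j
      rw [(hΛ j s hs).tsum_eq] at h3
      exact h3)
  have hL4 := ArithmeticFunction.LSeriesHasSum_mul hL1 hL3
  rw [← AI_stepP K K' ψ p hp χ hχ] at hL4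
  have h5 : ∑' a, tm (PsiP K' ψ) s a = Λ₁ s * ∏ j ∈ Finset.range (p - 1), Λ j s := by
    rw [hL.unique hL4, (hs1 s hs).tsum_eq]
  rw [← h5]
  exact hsum.of_norm.hasSum

section inert

variable {p : ℕ} (V : ValuationSubring ℂ)

/-- For p inert the size at V of an element of F and of its conjugate are equal. -/
theorem inert_el (hp : p.Prime) (hI : (Ideal.span {(p : 𝓞 F)}).IsPrime) (hV : V.valuation (p : ℂ) < 1) (x : 𝓞 F) :
    V.valuation ((starRingEnd ℂ) (eF F x)) = V.valuation (eF F x) := by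
  rcases eq_or_ne x 0 with rfl | hx
  · rw [map_zero, map_zero]
  have hp0 : ((p : ℕ) : 𝓞 F) ≠ 0 := Nat.cast_ne_zero.2 hp.ne_zero
  have hpr : Prime ((p : ℕ) : 𝓞 F) := (Ideal.span_singleton_prime hp0).1 hI
  have he : eF F ((p : ℕ) : 𝓞 F) = (p : ℂ) := map_natCast _ _
  have hV' : V.valuation (eF F ((p : ℕ) : 𝓞 F)) < 1 := by rw [he]; exact hV
  obtain ⟨u, hu, hud⟩ := (FiniteMultiplicity.of_prime_left hpr hx).exists_eq_pow_mul_and_not_dvd
  have hcu : ¬ ((p : ℕ) : 𝓞 F) ∣ H55K.cj u := by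
    intro h
    apply hud
    have h1 := map_dvd (H55K.cj (F := F)) h
    rwa [H55K.cj_cj, map_natCast] at h1
  have e1 : V.valuation (eF F u) = 1 := (H41D.val_eq_one_iff V hpr hV' u).2 hud
  have e2 : V.valuation (eF F (H55K.cj u)) = 1 := (H41D.val_eq_one_iff V hpr hV' _).2 hcu
  rw [H55K.e_cj] at e2
  rw [hu, map_mul, map_mul, map_mul, map_mul, e1, e2, map_pow, he, map_pow, map_natCast]

theorem inert_vN {K : Type} [Field K] [NumberField K] [Algebra F K] (hp : p.Prime) (hI : (Ideal.span {(p : 𝓞 F)}).IsPrime)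
    (hV : V.valuation (p : ℂ) < 1) (a : Ideal (𝓞 K)) : vNc F V a = vN F V a :=
  inert_el V hp hI hV _

/-- A prime p inert in F is unramified in F. -/
theorem inert_unr (hp : p.Prime) (hI : (Ideal.span {(p : 𝓞 F)}).IsPrime) : UnrP p F := by
  unfold UnrP
  have h1 : Prime (Ideal.span {((p : ℕ) : 𝓞 F)}) := Ideal.prime_of_isPrime (by
    rw [Ne, Ideal.span_singleton_eq_bot]
    exact Nat.cast_ne_zero.2 hp.ne_zero) hI
  exact h1.irreducible.squarefree

end inert

end SSU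
end

-- from Lib.SSU.V1
section

/-! # SSU, V1: discriminants and relative differents over K and over KF (p unramified in F, K arbitrary) -/

open NumberField IsDedekindDomain

namespace SSU

open H55P H41D
open H55K (cj)
open H55K.TQ (QuadG)

variable {F : Type} [Field F] [NumberField F] [IQ F] {K : Type} [Field K] [NumberField K] [Algebra F K]


theorem val_discrU (V : ValuationSubring ℂ) {p : ℕ} (hp : p.Prime) (hV : V.valuation (p : ℂ) < 1) (hU : UnrP p F) :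
    V.valuation ((discr F : ℤ) : ℂ) = 1 := by
  refine val_cop V hV ?_
  have h1 : ¬ (p : ℤ) ∣ discr F := pl1_discr p hp hU
  exact (Nat.prime_iff_prime_int.1 hp).coprime_iff_not_dvd.2 h1

/-- The absolute discriminant is the product of the norms of the different at V and at the conjugate place. -/
theorem val_discr' (V : ValuationSubring ℂ) {p : ℕ} (hp : p.Prime) (hV : V.valuation (p : ℂ) < 1) (hU : UnrP p F) :
    V.valuation ((discr K : ℤ) : ℂ) = vN F V (differentIdeal (𝓞 F) (𝓞 K)) * vNc F V (differentIdeal (𝓞 F) (𝓞 K)) := by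
  have h1 := NumberField.natAbs_discr_eq_absNorm_differentIdeal_mul_natAbs_discr_pow F (𝓞 F) K (𝓞 K)
  rw [← val_absNorm, ← val_natAbs V (discr K), h1]
  push_cast
  rw [map_mul, map_pow, val_natAbs V (discr F), val_discrU V hp hV hU, one_pow, mul_one]

section quad

variable {K₀ : Type} [Field K₀] [NumberField K₀] [Algebra K₀ K]





end quad

end SSU
end

-- from Lib.SSU.A2
section

/-! # SSU, A2: the relative different of a cyclic step of degree p, the part above an element x (copy of H35M.diff_step) -/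

open NumberField IsDedekindDomain

namespace SSU

open SSR H35M
open H55R (es)

/-- D = different of K'/K. For v in T1 the prime w above v has ex w D = (p-1)(t v + 1) (TRam.dif), relNorm w = v (TRam.map: v O' = w^p, so relNorm w ^ p = relNorm (v O') = v^p). A prime w of K' above π whose prime v below is not in T1 is unramified in K'/K
(es K K' v = 1), so it does not divide D (r4_hilb with all i s = 0, or Mathlib). So D = prod of w_v^((p-1)(t v + 1)) * C', C' coprime to π; relNorm. -/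
theorem diff_stepX (K K' : Type) [Field K] [NumberField K] [Field K'] [NumberField K'] [Algebra K K'] [IsGalois K K']
    {p : ℕ} (hp : p.Prime) (hn : Module.finrank K K' = p) {x : 𝓞 K} (hpi0 : x ≠ 0)
    {T1 : Finset (HeightOneSpectrum (𝓞 K))} {t : HeightOneSpectrum (𝓞 K) → ℕ}
    (hT1 : ∀ v, v ∈ T1 ↔ x ∈ v.asIdeal ∧ es K K' v ≠ 1)
    (ht : ∀ v ∈ T1, ∃ w : HeightOneSpectrum (𝓞 K'), TRam p v w (t v)) :
    ∃ C : Ideal (𝓞 K), C ⊔ Ideal.span {x} = ⊤ ∧
      Ideal.relNorm (𝓞 K) (differentIdeal (𝓞 K) (𝓞 K')) = (fT T1 fun v => t v + 1) ^ (p - 1) * C := by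
  classical
  have hne : Nonempty (HeightOneSpectrum (𝓞 K')) := by
    obtain ⟨m, hm⟩ := Ideal.exists_maximal (𝓞 K')
    exact ⟨⟨m, hm.isPrime, Ring.ne_bot_of_isMaximal_of_not_isField hm (RingOfIntegers.not_isField K')⟩⟩
  choose! w hw using ht
  have hD0 : differentIdeal (𝓞 K) (𝓞 K') ≠ ⊥ := different_ne
  -- the primes w v are different
  have hwv : ∀ v ∈ T1, (w v).asIdeal.under (𝓞 K) = v.asIdeal := by
    intro v hv
    have h1 : v.asIdeal ≤ (w v).asIdeal.under (𝓞 K) := by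
      refine Ideal.le_comap_of_map_le ?_
      rw [(hw v hv).map]
      exact Ideal.pow_le_self hp.ne_zero
    exact (v.isMaximal.eq_of_le (Ideal.IsPrime.ne_top (Ideal.IsPrime.under (𝓞 K) (w v).asIdeal)) h1).symm
  set A : Ideal (𝓞 K') := ∏ v ∈ T1, (w v).asIdeal ^ ((p - 1) * (t v + 1)) with hA
  have hAD : A ∣ differentIdeal (𝓞 K) (𝓞 K') := by
    refine Finset.prod_dvd_of_coprime ?_ ?_
    · intro v hv v' hv' hne
      refine IsCoprime.pow ?_
      have hm1 := (w v).isMaximal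
      have hm2 := (w v').isMaximal
      refine Ideal.isCoprime_of_isMaximal ?_
      intro h
      apply hne
      apply HeightOneSpectrum.ext
      rw [← hwv v hv, ← hwv v' hv', h]
    · intro v hv
      rw [Ideal.dvd_iff_le, le_iff_ex (w v) hD0, (hw v hv).dif]
  obtain ⟨C', hC'⟩ := hAD
  have hA0 : A ≠ ⊥ := by
    rintro h
    rw [h, Ideal.bot_mul] at hC'
    exact hD0 hC'
  have hC0 : C' ≠ ⊥ := by
    rintro rfl
    rw [Ideal.mul_bot] at hC'
    exact hD0 hC'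
  have hcop : C' ⊔ Ideal.span {algebraMap (𝓞 K) (𝓞 K') x} = ⊤ := by
    by_contra hne
    obtain ⟨W, hW, hle⟩ := Ideal.exists_le_maximal _ hne
    have hCW : C' ≤ W := le_sup_left.trans hle
    have hW0 : W ≠ ⊥ := fun h => hC0 (le_bot_iff.1 (h ▸ hCW))
    have hWp := hW.isPrime
    have hxW : algebraMap (𝓞 K) (𝓞 K') x ∈ W :=
      hle (Ideal.mem_sup_right (Ideal.mem_span_singleton_self _))
    have hxv : x ∈ W.under (𝓞 K) := hxW
    have hv0 : W.under (𝓞 K) ≠ ⊥ := by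
      intro h
      rw [h, Ideal.mem_bot] at hxv
      exact hpi0 hxv
    let v : HeightOneSpectrum (𝓞 K) := ⟨W.under (𝓞 K), Ideal.IsPrime.under (𝓞 K) W, hv0⟩
    let W' : HeightOneSpectrum (𝓞 K') := ⟨W, hWp, hW0⟩
    have hDW : differentIdeal (𝓞 K) (𝓞 K') ≤ W := by
      rw [hC']
      exact Ideal.mul_le_right.trans hCW
    by_cases hes : es K K' v = 1
    · exact sy2_unr v W' rfl hes hDW
    · have hvT : v ∈ T1 := (hT1 v).2 ⟨hxv, hes⟩
      have hWw : W' = w v := by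
        have hm := (w v).isMaximal
        have h1 : (w v).asIdeal ^ p ≤ W := by
          rw [← (hw v hvT).map]
          exact Ideal.map_comap_le
        exact (HeightOneSpectrum.ext (hm.eq_of_le hWp.ne_top (hWp.le_of_pow_le h1))).symm
      have h2 : ex (w v) (differentIdeal (𝓞 K) (𝓞 K')) = ex (w v) A + ex (w v) C' := by
        rw [hC', ex_mul (w v) hA0 hC0]
      have h3 : (p - 1) * (t v + 1) ≤ ex (w v) A := by
        rw [← le_iff_ex (w v) hA0, ← Ideal.dvd_iff_le]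
        exact Finset.dvd_prod_of_mem (fun v => (w v).asIdeal ^ ((p - 1) * (t v + 1))) hvT
      have h4 : 1 ≤ ex (w v) C' := by
        rw [← le_iff_ex (w v) hC0, pow_one, ← hWw]
        exact hCW
      rw [(hw v hvT).dif] at h2
      omega
  refine ⟨Ideal.relNorm (𝓞 K) C', sy2_cop _ hcop hpi0, ?_⟩
  rw [hC', map_mul, hA, map_prod]
  congr 1
  unfold fT
  rw [← Finset.prod_pow]
  refine Finset.prod_congr rfl fun v hv => ?_
  rw [map_pow, sy2_rel hp hn (hw v hv), ← pow_mul, mul_comm]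

end SSU
end
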