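import Mathlib
import Pool.Agent.Lib.H1M.PP2.D_SSU_G2D
import Pool.Agent.Lib.H1M.PP2.M028
import Pool.Agent.Lib.H1M.PP2.M035
import Pool.Agent.Lib.H1M.PP2.M061
import Pool.Agent.Lib.H1M.PP2.M072
import Pool.Agent.Lib.H1M.PP2.M079
import Pool.Agent.Lib.H1M.PP2.M081
import Pool.Agent.Lib.H1M.PP2.M084
import Pool.Agent.Lib.H1M.PP2.M093
import Pool.Agent.Lib.H1M.PP2.M101
import Pool.Agent.Lib.H1M.PP2.M103
import Pool.Agent.Lib.H1M.PP2.M112
import Pool.Agent.Lib.H1M.PP2.M131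
import Pool.Agent.Lib.H1M.PP2.M132
import Pool.Agent.Lib.H1M.PP2.M133
import Pool.Agent.Lib.H1M.PP2.M139
import Pool.Agent.Lib.H1M.PP2.M144
import Pool.Agent.Lib.H1M.PP2.M149
import Pool.Agent.Lib.H1M.PP2.M153

/-! Merged copies (to shorten the build) of Lib.SSR.GX, Lib.SSR.HE, Lib.SSR.TE, Lib.SSR.T1, Lib.SSR.T2, Lib.SSR.T3, Lib.SSR.T4, Lib.SSR.T6, Lib.SSR.T5B, Lib.SSR.T5, Lib.SSR.T7, Lib.SSR.T8, Lib.SSR.T9, Lib.SSR.TW, Lib.SSU.A3, Lib.SSU.A4. -/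

-- from Lib.SSR.GX
section

open NumberField IsDedekindDomain WeierstrassCurve

namespace SSR

open SSG
open H55P (IQ embF eF LF Per IsHecke Pt ac Inert Dec)
open H35P (WAB Ker tt)
open H55K

/-! Chunk GX (S/M). The local model with LinX. PROOF. Copy the proof of SSG.exists_locM_sup (SSG/LT/Fin.lean). Additional conjunct: for N, κ, c: by hL, hXs (as in the field fn there)
L.X N b = LT.sv (fun n => toC i₀ (a n)) (toC i₀ (tt (act b (T N)))) (LT.sv: a tsum of c n * z^n), so a ↦ L.X N (Σ c k * a k) is g0_sv applied to H a = toC i₀ (tt (act (Σ c k * a k) (T N))), which is Fn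
(the field fn, LT.xm4) and bounded by ρ < 1 (LT.xm1_bd, as in the proof of LT.xm4). small: (LocM.ok).small. -/

theorem exists_locL {F : Type} [Field F] [NumberField F] [IQ F] {A B : F} {Om : ℂ} {Ω : Type} [Field Ω] [DecidableEq Ω]
    [Algebra F Ω] [IsAlgClosure F Ω] {j : Ω →+* ℂ} {act : 𝓞 F →+* AddMonoid.End (Pt (WAB A B) Ω)}
    {m : Ideal (𝓞 F)} {ψ : Ideal (𝓞 F) →*₀ 𝓞 F} {p : ℕ} [Fact p.Prime] (d : Dta A B Om j act m ψ p)
    (hin : (Ideal.span {(p : 𝓞 F)}).IsPrime) (hS : H16S.Sup act p) (V : ValuationSubring Ω)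
    (hV : V.valuation (p : Ω) < 1) :
    ∃ (i : Ω →+* ℂ_[p]) (T : ℕ → Pt (WAB A B) Ω) (L : LTF F ℂ_[p]), LocM A B Om j act p V i T L ∧ GH p L := by
  have hpp : p.Prime := Fact.out
  have hp0 : (p : 𝓞 F) ≠ 0 := Nat.cast_ne_zero.2 hpp.ne_zero
  have hp : Prime (p : 𝓞 F) := (Ideal.span_singleton_prime hp0).1 hin
  have hG : GV A B V := d.good V hV
  have : CharZero Ω := charZero_of_injective_algebraMap (algebraMap F Ω).injective
  obtain ⟨i₀, hi₀⟩ := LT.em (F := F) hp V hV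
  obtain ⟨T, hT⟩ := LT.pt (j := j) (Om := Om) d.cma hG hp hV
  obtain ⟨f, f0, f1, hf⟩ := H16S.FRmain d.cma hpp d.five hp hS d.good
  obtain ⟨-, fV, fq, hs⟩ := hf V hV
  have hi : ∀ x, x ∈ V ↔ ‖toC i₀ x‖ ≤ 1 := fun x => by rw [norm_toC]; exact hi₀ x
  have hlt : ∀ P : Pt (WAB A B) Ω, Ker V P → ‖toC i₀ (tt P)‖ < 1 := by
    intro P hP
    by_contra hc
    have h1 := ttlt hG hP
    have h2 : (tt P) ≠ 0 := by
      intro h0
      rw [h0, map_zero, norm_zero] at hc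
      exact hc one_pos
    have h3 : ‖toC i₀ (tt P)⁻¹‖ ≤ 1 := by
      rw [map_inv₀, norm_inv]
      exact inv_le_one_of_one_le₀ (not_lt.1 hc)
    have h4 := (V.valuation_le_one_iff _).2 ((hi _).2 h3)
    rw [map_inv₀] at h4
    have h5 : 0 < V.valuation (tt P) := zero_lt_iff.2 ((map_ne_zero _).2 h2)
    exact absurd h1 (not_lt.2 ((inv_le_one₀ h5).1 h4))
  obtain ⟨a, a0, a1, ha, hth⟩ := LT.xm2 (A := A) (B := B) (toC i₀) hi hp hV
    (by rw [← PowerSeries.coeff_zero_eq_constantCoeff_apply]; exact f0) f1 fV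
    (by rw [← map_one (algebraMap F Ω), ← map_sub]; exact fq) hlt (fun P hP => hs ℂ_[p] (toC i₀) hi P hP)
  obtain ⟨X, hX, hXs⟩ := LT.xm3 (Om := Om) d.cma hG hp i₀ hi₀ T hT a0 a1 ha hth
  obtain ⟨L, hL, hgood⟩ := exists_good d hin V i₀ hi₀ T hT X hX
  have hfn : ∀ (N : ℕ) (ι : Type) [Fintype ι] (c : ι → 𝓞 F), L.Fn N ι (fun a => toC i₀ (tt (act (∑ k, c k * a k) (T N)))) :=
    fun N ι _ c => LT.xm4 (j := j) (Om := Om) d.cma hG i₀ hi₀ T hT a0 a1 ha L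
      (fun N b => by rw [hL, hXs]) N ι c
  have hok : L.Ok p := SSF.good_ok hin L hgood
  refine ⟨toC i₀, T, L, ?_, ?_⟩
  · exact
      { val := hi
        ok := hok
        good := hgood
        zero := hT.zero
        down := hT.down
        unif := hT.unif
        ker := hT.ker
        fn := hfn }
  · refine
      { prime := hpp
        three := by
          have := d.five
          omega
        deg := IQ.deg
        lt := ?_
        ok := hok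
        lin := ?_ }
    · have h1 := LT.xm4_lt hi hV
      rwa [map_natCast] at h1
    · intro N κ _ c
      have hp0' : ((p : 𝓞 F) ^ N) ≠ 0 := pow_ne_zero _ hp0
      obtain ⟨ρ, hρ, hρ2⟩ := LT.xm1_bd d.cma hG (toC i₀) hi hp0' ((hT.zero N _).2 dvd_rfl) (hT.ker N)
      have h1 := g0_sv hok.small (hfn N κ c) hρ (fun x => hρ2 _) (fun n => toC i₀ (algebraMap F Ω (a n))) ha
      have h2 : (fun x : κ → 𝓞 F => L.X N (∑ k, c k * x k)) = fun x : κ → 𝓞 F =>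
          ∑' n, toC i₀ (algebraMap F Ω (a n)) * toC i₀ (tt (act (∑ k, c k * x k) (T N))) ^ n := by
        funext x
        rw [hL, hXs]
        rfl
      rw [h2]
      exact h1

end SSR
end

-- from Lib.SSR.HE
section

open NumberField IsDedekindDomain

namespace SSR

open H55P

variable {F : Type} [Field F] [NumberField F] [IQ F] {K : Type} [Field K] [NumberField K] [Algebra F K] {m p : ℕ}

/-! Chunk HE (M). PROOF. Lib/H41D (module DS of helper41, imported sorried statements may be used) has: dl σ ω = det (σ i (ω s)), IBas F ω (basis of O_K over O_F), ibas_exists (P4), dl_rep (P2), val_disc (P4: V(dl σ ω)^2 = vN F V (different), for any π ≠ 0 with V(eF π) < 1: take π = p),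
val_lt_iff, val_eq_one_iff (P1, with the prime π = p of 𝓞 F), val_absNorm (P6: V(absNorm a) = vN a * vNc a), discr_tower (P8). σ: the embeddings over embF F (H55P: exists_emb or as in corew2 / H41D; Emb F σ). (1) SSG.V.det_sq: dl σ ω₀ ^ 2 = embF F (discr ω₀) = δ^2, so V(δ) = V(dl σ ω₀).
(2) ω₀ s = Σ A s t ω t (IBas), dl σ ω₀ = eF (det A) dl σ ω (dl_rep). det A is not divisible by the prime p of 𝓞 F: otherwise there is a vector a, not all a s divisible by p, with Σ_s a s A s t = 0 modulo p for all t (Matrix.exists_vecMul_eq_zero_iff over the field 𝓞 F/p), so p divides Σ a s ω₀ s, contradiction to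
Adp.ind. So V(eF det A) = 1 (val_eq_one_iff) and V(δ)^2 = V(dl σ ω)^2 = vN D, D = differentIdeal (𝓞 F) (𝓞 K). (3) For x in 𝓞 F: V(conj (eF x)) = V(eF x): x = p^k u with p not dividing u (x ≠ 0), V(eF u) = 1 and V(conj (eF u)) = 1 (val_eq_one_iff for the valuation ring V.comap conj = cV V of P7; conj p = p).
So vNc D = vN D. (4) V(discr K) = V(absNorm (relNorm D)) * V(discr F)^(m+1) (discr_tower with base field F, n = 1; absNorm (relNorm D) = absNorm D: Ideal.absNorm_relNorm; its type: K := F, K' := K) and V(discr F) = 1: p does not divide discr F because (p) is prime in 𝓞 F (unramified): UnrP p F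
(squarefree: (p) is prime) and the lemma used in H41D.val_discrF for the split case (copy it). Together V(discr K) = vN D * vNc D = V(δ)^4. -/

theorem he_conj (hin : Prime (p : 𝓞 F)) (V : ValuationSubring ℂ) (hV : V.valuation (p : ℂ) < 1) (x : 𝓞 F) :
    V.valuation ((starRingEnd ℂ) (eF F x)) = V.valuation (eF F x) := by
  by_cases hx : x = 0
  · rw [hx, map_zero, map_zero]
  have hVp : V.valuation (eF F (p : 𝓞 F)) < 1 := by rw [map_natCast]; exact hV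
  have hcV : (H41D.cV V).valuation (eF F (p : 𝓞 F)) < 1 := by
    rw [H41D.cV_lt_one, map_natCast, map_natCast]
    exact hV
  have hfin : FiniteMultiplicity (p : 𝓞 F) x := FiniteMultiplicity.of_not_isUnit hin.not_isUnit hx
  obtain ⟨u, h1, h2⟩ := hfin.exists_eq_pow_mul_and_not_dvd
  have h3 : V.valuation (eF F u) = 1 := (H41D.val_eq_one_iff V hin hVp u).2 h2
  have h4 : V.valuation ((starRingEnd ℂ) (eF F u)) = 1 :=
    (H41D.cV_eq_one V _).1 ((H41D.val_eq_one_iff (H41D.cV V) hin hcV u).2 h2)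
  rw [h1, map_mul, map_mul, map_mul, map_mul, h3, h4, map_pow, map_natCast, map_pow, map_natCast]

theorem he_det (hin : Prime (p : 𝓞 F)) {P : Ideal (𝓞 K)} {ω₀ : Fin (m + 1) → 𝓞 K} {I : Finset (Fin (m + 1))}
    (hA : Adp F p P ω₀ I) (ω : Fin (m + 1) → 𝓞 K) (A : Fin (m + 1) → Fin (m + 1) → 𝓞 F)
    (h : ∀ s, ω₀ s = ∑ t, algebraMap (𝓞 F) (𝓞 K) (A s t) * ω t) : ¬ (p : 𝓞 F) ∣ Matrix.det (Matrix.of fun s t => A s t) := by
  intro hdvd
  have hprime : (Ideal.span {(p : 𝓞 F)}).IsPrime := (Ideal.span_singleton_prime hin.ne_zero).2 hin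
  have hdet : Matrix.det ((Ideal.Quotient.mk (Ideal.span {(p : 𝓞 F)})).mapMatrix (Matrix.of fun s t => A s t)) = 0 := by
    rw [← RingHom.map_det, Ideal.Quotient.eq_zero_iff_mem, Ideal.mem_span_singleton]
    exact hdvd
  obtain ⟨v, hv0, hv⟩ := Matrix.exists_vecMul_eq_zero_iff.2 hdet
  choose a ha using fun s => Ideal.Quotient.mk_surjective (I := Ideal.span {(p : 𝓞 F)}) (v s)
  have h1 : ∀ t, (p : 𝓞 F) ∣ ∑ s, a s * A s t := by
    intro t
    rw [← Ideal.mem_span_singleton, ← Ideal.Quotient.eq_zero_iff_mem, map_sum]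
    have h2 := congrFun hv t
    rw [Matrix.vecMul, dotProduct] at h2
    rw [Pi.zero_apply] at h2
    rw [← h2]
    refine Finset.sum_congr rfl fun s _ => ?_
    rw [map_mul, ha s]
    rfl
  choose c hc using h1
  have h3 : (p : 𝓞 K) ∣ ∑ s, algebraMap (𝓞 F) (𝓞 K) (a s) * ω₀ s := by
    refine ⟨∑ t, algebraMap (𝓞 F) (𝓞 K) (c t) * ω t, ?_⟩
    have h4 : ∑ s, algebraMap (𝓞 F) (𝓞 K) (a s) * ω₀ s = ∑ t, algebraMap (𝓞 F) (𝓞 K) (∑ s, a s * A s t) * ω t := by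
      simp only [map_sum, Finset.sum_mul]
      rw [Finset.sum_comm]
      refine Finset.sum_congr rfl fun s _ => ?_
      rw [h s, Finset.mul_sum]
      refine Finset.sum_congr rfl fun t _ => ?_
      rw [map_mul]
      ring
    rw [h4, Finset.mul_sum]
    refine Finset.sum_congr rfl fun t _ => ?_
    rw [hc t, map_mul, map_natCast]
    ring
  apply hv0
  funext s
  rw [← ha s, Pi.zero_apply, Ideal.Quotient.eq_zero_iff_mem, Ideal.mem_span_singleton]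
  exact hA.ind a h3 s

theorem he_disc (hp : p.Prime) (hin : Prime (p : 𝓞 F)) (hm : Module.finrank F K = m + 1) {P : Ideal (𝓞 K)}
    {ω₀ : Fin (m + 1) → 𝓞 K} {I : Finset (Fin (m + 1))} (hA : Adp F p P ω₀ I) (V : ValuationSubring ℂ) (hV : V.valuation (p : ℂ) < 1) (δ : ℂ)
    (hδ : δ ^ 2 = embF F (Algebra.discr F fun s => (ω₀ s : K))) : V.valuation δ ^ 4 = V.valuation ((NumberField.discr K : ℤ) : ℂ) := by
  obtain ⟨σ, hσ⟩ := emb_exists (F := F) K m hm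
  have hVp : V.valuation (eF F (p : 𝓞 F)) < 1 := by rw [map_natCast]; exact hV
  obtain ⟨ω, hω⟩ := H41D.ibas_exists (F := F) (K := K) hm
  choose A hA' using fun s => hω (ω₀ s)
  have e1 : V.valuation δ ^ 2 = V.valuation (H41D.dl σ fun s => (ω₀ s : K)) ^ 2 := by
    rw [← map_pow, ← map_pow, hδ, ← SSG.V.det_sq hσ ω₀]
    rfl
  have e2 : H41D.dl σ (fun s => (ω₀ s : K)) = eF F (Matrix.det (Matrix.of fun s t => A s t)) * H41D.dl σ (fun s => (ω s : K)) := by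
    refine H41D.dl_rep hσ _ _ A fun s => ?_
    conv_lhs => rw [hA' s]
    exact H41D.coe_rep ω (A s)
  have e4 : V.valuation (eF F (Matrix.det (Matrix.of fun s t => A s t))) = 1 :=
    (H41D.val_eq_one_iff V hin hVp _).2 (he_det hin hA ω A hA')
  have e5 : V.valuation δ ^ 2 = H41D.vN F V (differentIdeal (𝓞 F) (𝓞 K)) := by
    rw [e1, e2, map_mul, e4, one_mul, H41D.val_disc V hin.ne_zero hVp hσ hω]
  have e6 : H41D.vNc F V (differentIdeal (𝓞 F) (𝓞 K)) = H41D.vN F V (differentIdeal (𝓞 F) (𝓞 K)) := he_conj hin V hV _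
  have e7 : V.valuation ((discr F : ℤ) : ℂ) = 1 := by
    refine H41D.val_cop V hV ?_
    have hunr : UnrP p F := by
      unfold UnrP
      have h1 : Prime (Ideal.span {(p : 𝓞 F)}) := Ideal.prime_of_isPrime (by rw [Ne, Ideal.span_singleton_eq_bot]; exact hin.ne_zero)
        ((Ideal.span_singleton_prime hin.ne_zero).2 hin)
      exact h1.irreducible.squarefree
    have h1 : ¬ (p : ℤ) ∣ discr F := pl1_discr p hp hunr
    exact (Nat.prime_iff_prime_int.1 hp).coprime_iff_not_dvd.2 h1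
  have e8 : V.valuation ((discr K : ℤ) : ℂ) = H41D.vN F V (differentIdeal (𝓞 F) (𝓞 K)) * H41D.vNc F V (differentIdeal (𝓞 F) (𝓞 K)) := by
    have h1 := NumberField.natAbs_discr_eq_absNorm_differentIdeal_mul_natAbs_discr_pow F (𝓞 F) K (𝓞 K)
    rw [← H41D.val_absNorm, ← H41D.val_natAbs V (discr K), h1]
    push_cast
    rw [map_mul, map_pow, H41D.val_natAbs V (discr F), e7, one_pow, mul_one]
  rw [e8, e6, ← e5, ← pow_add]

end SSR
end

-- from Lib.SSR.TE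
section

/-! # SSR, part T: the data of the classes: definitions (no sorry) -/

open NumberField IsDedekindDomain WeierstrassCurve

namespace SSR

open H55N H55P SSG SSG.E
open SSG.V (WtJ)
open H35P (WAB Ker tt)
open H55K (CMA Dta)

variable {F : Type} [Field F] [NumberField F] [IQ F] {K : Type} [Field K] [NumberField K] [Algebra F K]

/-- The p-adic shape of the values of a class (the second conclusion of SSG.V.classw2, N = 2). -/
def ClsW (F : Type) [Field F] [NumberField F] [IQ F] {K : Type} [Field K] [NumberField K] [Algebra F K] (p m : ℕ) [Fact p.Prime]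
    (I₀ : Ideal (𝓞 K)) (c₀ : 𝓞 K) (val : 𝓞 K → ℂ) : Prop :=
  ∀ (A B : F) (Om : ℂ) (Ω : Type) [Field Ω] [DecidableEq Ω] [Algebra F Ω] [IsAlgClosure F Ω] (j : Ω →+* ℂ)
    (act : 𝓞 F →+* AddMonoid.End (Pt (WAB A B) Ω)) (mm : Ideal (𝓞 F)) (ψ : Ideal (𝓞 F) →*₀ 𝓞 F),
    Dta A B Om j act mm ψ p →
    ∀ (V : ValuationSubring Ω) (i : Ω →+* ℂ_[p]) (T : ℕ → Pt (WAB A B) Ω) (L : LTF F ℂ_[p]),
      V.valuation (p : Ω) < 1 → LocM A B Om j act p V i T L →
    ∀ (ω₀ : Fin (m + 1) → 𝓞 K) (co : 𝓞 K → Fin (m + 1) → 𝓞 F),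
      (∀ x, ∃ t : 𝓞 K, x = ∑ s, algebraMap (𝓞 F) (𝓞 K) (co x s) * ω₀ s + (p : 𝓞 K) ^ 2 * t) →
    ∀ δ : ℂ, δ ^ 2 = embF F (Algebra.discr F fun s => (ω₀ s : K)) →
    ∃ (h : 𝓞 K → Ω) (H' : (Fin (m + 1) → 𝓞 F) → ℂ_[p]),
      (∀ a ∈ XS I₀ c₀, j (h a) = δ * val a / Om ^ (m + 1)) ∧
      L.Fn 2 (Fin (m + 1)) H' ∧ ∀ a ∈ XS I₀ c₀, i (h a) = H' (co a)

/-- The classes, the constants of ψ and of the character χ. -/
structure TCl (F : Type) [Field F] [NumberField F] [IQ F] {K : Type} [Field K] [NumberField K] [Algebra F K] (M : Ideal (𝓞 F))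
    (ψ : Ideal (𝓞 F) →*₀ 𝓞 F) (p : ℕ) (f : Ideal (𝓞 K)) (χ : Ideal (𝓞 K) →*₀ ℂ) (ι : Type) (b : ι → Ideal (𝓞 K)) (c₀ : ι → 𝓞 K)
    (T : ι → Set (𝓞 K)) (κ : ι → ℂ) : Prop where
  bot : mK K M * f ≠ ⊥
  top : mK K M * f ≠ ⊤
  cd : CDJ (mK K M * f) (Ideal.span {(p : 𝓞 K)} * (mK K M * f)) ι b c₀ T
  kap : ∀ i, ∀ x ∈ XS (mK K M * f * b i) (c₀ i), ∀ d : Ideal (𝓞 K), d * b i = Ideal.span {x} → x ≠ 0 ∧
    (PsiP K ψ * oneI f) d = κ i * (starRingEnd ℂ) (embF F (Algebra.norm F (x : K))) ∧ χ d = (χ (b i))⁻¹ * χ (Ideal.span {x})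
  unit : ∀ i, ∀ V : ValuationSubring ℂ, V.valuation (p : ℂ) < 1 → V.valuation (κ i) = 1
  alg : ∀ i, IsAlgebraic ℚ (κ i)
  zet : ∀ i, χ (b i) ^ p = 1
  prm : ∀ i, ∀ x ∈ XS (mK K M * f * b i) (c₀ i), IsCoprime (Ideal.span {x}) f
  zer : ∀ i, (0 : 𝓞 K) ∉ XS (mK K M * f * b i) (c₀ i)
  cop : ∀ i, IsCoprime (mK K M * f * b i) (Ideal.span {(p : 𝓞 K)})

/-- The classes, the smoothing and the values. -/
structure TDat (F : Type) [Field F] [NumberField F] [IQ F] {K : Type} [Field K] [NumberField K] [Algebra F K] {m : ℕ} (M : Ideal (𝓞 F))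
    (ψ : Ideal (𝓞 F) →*₀ 𝓞 F) (p : ℕ) [Fact p.Prime] (f : Ideal (𝓞 K)) (χ : Ideal (𝓞 K) →*₀ ℂ) (V : ValuationSubring ℂ) (ι : Type) (b : ι → Ideal (𝓞 K))
    (c₀ : ι → 𝓞 K) (T : ι → Set (𝓞 K)) (κ : ι → ℂ) (c : Fin (m + 1) × Fin 2 → Ideal (𝓞 K)) (q : Fin (m + 1) × Fin 2 → ℕ)
    (val : ι → 𝓞 K → ℂ) : Prop where
  cl : TCl F M ψ p f χ ι b c₀ T κ
  sm : Smooth c q
  pr : ∀ j, (c j).IsPrime
  np : ∀ j, (p : 𝓞 K) ∉ c j
  ncf : ∀ j, ¬ f ≤ c j
  bc : ∀ i j, IsCoprime (b i) (c j)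
  un : ∀ j, V.valuation (1 - PsiP K ψ (c j)) = 1
  ser : ∀ i, ∀ φ : 𝓞 K → ℂ, WtJ (mK K M * f) (mK K M * f * b i) (c₀ i) (p ^ 2) φ → ∃ Z : ℂ → ℂ, AnalyticOnNhd ℂ Z {s | 1 / 2 < s.re} ∧
    (∀ T : Set (𝓞 K), Transv (mK K M * f) (XS (mK K M * f * b i) (c₀ i)) T → ∀ s : ℂ, 3 / 2 < s.re →
      HasSum (fun x : T => φ x * (gw c q x * nf F s (x : 𝓞 K))) (Z s)) ∧
    ∀ R : Finset (𝓞 K), RpU (mK K M * f * b i) (c₀ i) (p ^ 2) R → Z 1 = (((p : ℂ) ^ 2)⁻¹) ^ (m + 1) * ∑ a ∈ R, φ a * val i a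
  cls : ∀ i, ClsW F p m (mK K M * f * b i) (c₀ i) (val i)

open Classical in
/-- The indicator function of an ideal. -/
noncomputable def indI (P : Ideal (𝓞 K)) (a : 𝓞 K) : ℂ := if a ∈ P then 1 else 0

end SSR
end

-- from Lib.SSR.T1
section

open NumberField IsDedekindDomain

namespace SSR

open H55N H55P

variable {F : Type} [Field F] [NumberField F] [IQ F] {K : Type} [Field K] [NumberField K] [Algebra F K] {m p : ℕ}
  {f : Ideal (𝓞 K)} {R : Finset (HeightOneSpectrum (𝓞 K))} {χ : Ideal (𝓞 K) →*₀ ℂ}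

/-! Chunk T1 (S/M). PROOF. t1_iff: IsCoprime with a product/power (IsCoprime.mul_right_iff, IsCoprime.prod_right_iff, IsCoprime.pow_right_iff). t1_pch: fields from hχ; ne: product of nonzero ideals; zero, val by t1_iff. t1_norm: χ a = 0 or χ a^p = 1 (Complex.norm_eq_one_of_pow_eq_one), a = 0: 0.
t1_cont: H35M.tw_cont (imported, may be sorried) with the modulus f * prod v^2. t1_fin: primes w of norm... (not needed). -/

theorem t1_iff (f : Ideal (𝓞 K)) (R : Finset (HeightOneSpectrum (𝓞 K))) (a : Ideal (𝓞 K)) :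
    IsCoprime a (f * ∏ v ∈ R, v.asIdeal ^ 2) ↔ IsCoprime a (f * ∏ v ∈ R, v.asIdeal) := by
  rw [IsCoprime.mul_right_iff, IsCoprime.mul_right_iff, IsCoprime.prod_right_iff, IsCoprime.prod_right_iff]
  refine and_congr_right fun _ => forall_congr' fun v => forall_congr' fun _ => ?_
  exact IsCoprime.pow_right_iff two_pos

theorem t1_pch (hχ : PCh p f R χ) : H35M.PCh p (f * ∏ v ∈ R, v.asIdeal ^ 2) χ := by
  refine ⟨?_, ?_, ?_, ?_⟩
  · refine mul_ne_zero hχ.ne (Finset.prod_ne_zero_iff.2 fun v _ => pow_ne_zero 2 v.ne_bot)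
  · intro a h0 hc
    exact hχ.val a h0 ((t1_iff f R a).1 hc)
  · intro a hc
    exact hχ.zero a fun h => hc ((t1_iff f R a).2 h)
  · intro x y hx hy hc hxy
    exact hχ.per x y hx hy ((t1_iff f R _).1 hc) hxy

theorem t1_norm (hp : p.Prime) (hχ : PCh p f R χ) (a : Ideal (𝓞 K)) : ‖χ a‖ ≤ 1 := by
  exact H35M.ts8_norm hp.ne_zero (t1_pch hχ) a

theorem t1_cont (hp : p.Prime) {M : Ideal (𝓞 F)} {ψ : Ideal (𝓞 F) →*₀ 𝓞 F} (h : IsHecke M ψ) (hMp : IsCoprime M (Ideal.span {(p : 𝓞 F)}))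
    (hm : Module.finrank F K = m + 1) (hχ : PCh p f R χ) :
    ∃ Z0 : ℂ → ℂ, AnalyticOnNhd ℂ Z0 {s | 3 / 2 - 1 / (2 * (m + 1 : ℝ)) < s.re} ∧
      ∀ s : ℂ, 3 / 2 < s.re → HasSum (tm (PsiP K ψ * χ : Ideal (𝓞 K) →*₀ ℂ) s) (Z0 s) := by
  exact H35M.tw_cont hp h hMp hm _ χ (t1_pch hχ)

open Classical in
theorem t1_top {a : Ideal (𝓞 K)} (ha : a ≠ ⊥) : oneI (⊤ : Ideal (𝓞 K)) a = 1 := by
  show (if a ≠ ⊥ ∧ IsCoprime a (⊤ : Ideal (𝓞 K)) then (1 : ℂ) else 0) = 1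
  rw [if_pos]
  refine ⟨ha, ?_⟩
  rw [← Ideal.one_eq_top]
  exact isCoprime_one_right

/-- The trivial character. -/
theorem t1_triv (hp : p.Prime) : PCh p (⊤ : Ideal (𝓞 K)) ∅ (oneI ⊤) := by
  have htop : (⊤ : Ideal (𝓞 K)) ≠ ⊥ := top_ne_bot
  refine ⟨htop, ?_, ?_, ?_, ?_, ?_⟩
  · rw [← Ideal.one_eq_top]
    exact isCoprime_one_left
  · intro v hv
    exact absurd hv (Finset.notMem_empty v)
  · intro a ha _
    rw [t1_top ha, one_pow]
  · intro a hc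
    exfalso
    apply hc
    rw [Finset.prod_empty, mul_one, ← Ideal.one_eq_top]
    exact isCoprime_one_right
  · intro x y hx hy _ _
    have h1 : Ideal.span {x} ≠ ⊥ := by
      rw [Ne, Ideal.span_singleton_eq_bot]
      exact hx
    have h2 : Ideal.span {y} ≠ ⊥ := by
      rw [Ne, Ideal.span_singleton_eq_bot]
      exact hy
    rw [t1_top h1, t1_top h2]

/-- oneI ⊤ changes nothing. -/
theorem t1_one (ψ : Ideal (𝓞 F) →*₀ 𝓞 F) : (PsiP K ψ * oneI ⊤ : Ideal (𝓞 K) →*₀ ℂ) = PsiP K ψ := by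
  refine DFunLike.ext _ _ fun a => ?_
  show PsiP K ψ a * oneI (⊤ : Ideal (𝓞 K)) a = PsiP K ψ a
  by_cases ha : a = ⊥
  · have h1 : PsiP K ψ a = 0 := by
      rw [ha]
      exact map_zero (PsiP K ψ)
    rw [h1, zero_mul]
  · rw [t1_top ha, mul_one]

end SSR
end

-- from Lib.SSR.T2
section

open NumberField IsDedekindDomain

namespace SSR

open H55N H55P

variable {F : Type} [Field F] [NumberField F] [IQ F] {K : Type} [Field K] [NumberField K] [Algebra F K] {p : ℕ}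
  {f : Ideal (𝓞 K)} {R : Finset (HeightOneSpectrum (𝓞 K))} {χ : Ideal (𝓞 K) →*₀ ℂ}

/-! Chunk T2 (M). The classes. PROOF. As the first half of SSG.S.an_main (SSG/S/A2.lean) with f in the place of ⊤, and H35M TS4/TS9. bot: pt9_mK_ne h.ne and hχ.ne. top: the prime w0 of pt9_prime K hl (l from h.toMod p hMp) contains mK K M. exists_CDJ (mK K M * f) (span {p} * (mK K M * f)) gives ι b c₀ T, cd.
κ i: exists_kappaP p hp h hMp f (oneI f) (H35M.ts4_chr p f hχ.ne hχ.cop) (b i) ..: take κ' (unit; the last clause), x ≠ 0. alg: as in the proof of SSG.S.k1_kappa: apply the formula to x = c₀ i and the ideal d with d b = (c₀) (b divides (c₀)): κ' = PsiP d * oneI f d / conj (embF (norm c₀)), quotient of algebraic numbers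
(k1_alg in SSG/S/K1); (if oneI f d = 0 then κ' = 0, impossible or algebraic anyway). zet: b i is coprime to span {p} * (mK K M * f), hence to f and to all v ∈ R (p ∈ v: v ⊇ (p)), so to f * prod v; b i ≠ ⊥ (cd.ne): hχ.val. χ-formula: χ d * χ (b i) = χ (span {x}) (map_mul), χ (b i) ≠ 0.
prm: let x ∈ XS. b i divides (x) (c₀ ∈ b i and J b i ≤ b i), (x) = d b i. A prime w ⊇ f + (x): w ⊇ f; b i is coprime to f so w does not contain b i; x ∈ w and x ∈ b i give x ∈ w ⊓ b i = w b i, and c₀ = x - (x - c₀) ∈ w b i because x - c₀ ∈ J b i ≤ f b i ≤ w b i: contradiction to cd.prim (J = mK K M * f ≤ w).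
(If no such prime exists, f ⊔ (x) = ⊤: Ideal.exists_le_maximal; w is nonzero since it contains f ≠ ⊥.) zer: 0 ∈ XS would give c₀ ∈ J b i ≤ w0 b i, contradiction to cd.prim for a prime w0 ⊇ J (J ≠ ⊤). cop: mK K M is coprime to (p) (pe9_cop / PT.. hMp), f by hχ.cop, b i by cd.cop.
nl: as in an_main (hlam): c₀ ∈ (l) b i ≤ w0 b i for the prime w0 ∋ l. -/

theorem t2_prm (J b : Ideal (𝓞 K)) (hJ0 : J ≠ ⊥) (hbJ : IsCoprime b J) (c₀ : 𝓞 K) (hc : c₀ ∈ b)
    (hpr : ∀ w : HeightOneSpectrum (𝓞 K), J ≤ w.asIdeal → c₀ ∉ w.asIdeal * b) (x : 𝓞 K)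
    (hx : x ∈ XS (J * b) c₀) : IsCoprime (Ideal.span {x}) J := by
  rw [Ideal.isCoprime_iff_sup_eq]
  by_contra hne
  obtain ⟨P, hP, hle⟩ := Ideal.exists_le_maximal _ hne
  have hPf : J ≤ P := le_sup_right.trans hle
  have hPc : Ideal.span {x} ≤ P := le_sup_left.trans hle
  have hP0 : P ≠ ⊥ := by
    rintro rfl
    exact hJ0 (le_bot_iff.1 hPf)
  have hbP : ¬ b ≤ P := by
    intro h5
    rw [Ideal.isCoprime_iff_sup_eq] at hbJ
    exact hP.ne_top (top_le_iff.1 (hbJ ▸ sup_le h5 hPf))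
  have hxJ : x - c₀ ∈ J * b := hx
  have hxb : x ∈ b := by
    have h1 : x - c₀ ∈ b := (Ideal.mul_le_right : J * b ≤ b) hxJ
    have h2 := Ideal.add_mem _ h1 hc
    rwa [sub_add_cancel] at h2
  obtain ⟨d, hd⟩ := Ideal.dvd_iff_le.2 ((Ideal.span_singleton_le_iff_mem b).2 hxb)
  rw [hd] at hPc
  have hdP : d ≤ P := (hP.isPrime.mul_le.1 hPc).resolve_left hbP
  refine hpr ⟨P, hP.isPrime, hP0⟩ hPf ?_
  have h5 : x ∈ P * b := by
    have h6 : x ∈ b * d := by rw [← hd]; exact Ideal.mem_span_singleton_self _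
    rw [mul_comm]
    exact Ideal.mul_mono_right hdP h6
  have h7 : x - c₀ ∈ P * b := Ideal.mul_mono_left hPf hxJ
  have h8 := Ideal.sub_mem _ h5 h7
  rw [sub_sub_cancel] at h8
  exact h8

theorem t2_kap (hp : p.Prime) {M : Ideal (𝓞 F)} {ψ : Ideal (𝓞 F) →*₀ 𝓞 F} (h : IsHecke M ψ)
    (hMp : IsCoprime M (Ideal.span {(p : 𝓞 F)})) (hf : f ≠ ⊥) (hfc : IsCoprime f (Ideal.span {(p : 𝓞 K)}))
    (b : Ideal (𝓞 K)) (hb : b ≠ ⊥)
    (hbc : IsCoprime b (Ideal.span {(p : 𝓞 K)} * (mK K M * f))) (c₀ : 𝓞 K) (hc : c₀ ∈ b)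
    (hpr : ∀ w : HeightOneSpectrum (𝓞 K), mK K M * f ≤ w.asIdeal → c₀ ∉ w.asIdeal * b) :
    ∃ κ : ℂ, (∀ V : ValuationSubring ℂ, V.valuation (p : ℂ) < 1 → V.valuation κ = 1) ∧ IsAlgebraic ℚ κ ∧
      ∀ x ∈ XS (mK K M * f * b) c₀, ∀ d : Ideal (𝓞 K), d * b = Ideal.span {x} → x ≠ 0 ∧
        (PsiP K ψ * oneI f) d = κ * (starRingEnd ℂ) (embF F (Algebra.norm F (x : K))) := by
  classical
  obtain ⟨κ, κ', ζ, h1, h2, h3, h4⟩ := exists_kappaP p hp h hMp f (oneI f) (H35M.ts4_chr p f hf hfc) b hb hbc c₀ hc hpr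
  have h5 : ∀ x ∈ XS (mK K M * f * b) c₀, ∀ d : Ideal (𝓞 K), d * b = Ideal.span {x} → x ≠ 0 ∧
        (PsiP K ψ * oneI f) d = κ' * (starRingEnd ℂ) (embF F (Algebra.norm F (x : K))) :=
    fun x hx d hd => ⟨(h4 x hx d hd).1, (h4 x hx d hd).2.2⟩
  refine ⟨κ', h1, ?_, h5⟩
  obtain ⟨d, hd⟩ := Ideal.dvd_iff_le.2 ((Ideal.span_singleton_le_iff_mem b).2 hc)
  obtain ⟨hc0, h7⟩ := h5 c₀ (by
    show c₀ - c₀ ∈ mK K M * f * b
    rw [sub_self]
    exact Ideal.zero_mem _) d (by rw [hd, mul_comm])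
  have h8 : (starRingEnd ℂ) (embF F (Algebra.norm F (c₀ : K))) ≠ 0 := by
    rw [map_ne_zero, map_ne_zero, Algebra.norm_ne_zero_iff]
    exact fun h => hc0 (RingOfIntegers.ext h)
  have h9 : κ' = PsiP K ψ d * oneI f d * ((starRingEnd ℂ) (embF F (Algebra.norm F (c₀ : K))))⁻¹ := by
    have h10 : PsiP K ψ d * oneI f d = κ' * (starRingEnd ℂ) (embF F (Algebra.norm F (c₀ : K))) := h7
    rw [h10, mul_assoc, mul_inv_cancel₀ h8, mul_one]
  have h10 : IsAlgebraic ℚ (oneI f d : ℂ) := by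
    have h11 : (oneI f d : ℂ) = 1 ∨ (oneI f d : ℂ) = 0 := by
      by_cases h12 : d ≠ ⊥ ∧ IsCoprime d f
      · exact Or.inl (if_pos h12)
      · exact Or.inr (if_neg h12)
    rcases h11 with h11 | h11
    · rw [h11]
      exact isAlgebraic_one
    · rw [h11]
      exact isAlgebraic_zero
  rw [h9, PsiP_apply, eF_apply]
  exact ((SSG.S.k1_alg ((starRingEnd ℂ).comp (embF F)) _).mul h10).mul
    (SSG.S.k1_alg ((starRingEnd ℂ).comp (embF F)) _).inv

theorem t2_cl (hp : p.Prime) {M : Ideal (𝓞 F)} {ψ : Ideal (𝓞 F) →*₀ 𝓞 F} (h : IsHecke M ψ) (hMp : IsCoprime M (Ideal.span {(p : 𝓞 F)}))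
    (hχ : PCh p f R χ) {l : 𝓞 F} (hl : Mod p M l) :
    ∃ (ι : Type) (_ : Fintype ι) (b : ι → Ideal (𝓞 K)) (c₀ : ι → 𝓞 K) (T : ι → Set (𝓞 K)) (κ : ι → ℂ),
      TCl F M ψ p f χ ι b c₀ T κ ∧ ∀ i, c₀ i ∉ Ideal.span {algebraMap (𝓞 F) (𝓞 K) l} * b i := by
  classical
  obtain ⟨w0, hw0l, hw0M⟩ := pt9_prime K hl
  have hJM : mK K M * f ≤ mK K M := Ideal.mul_le_left
  have hJ0 : mK K M * f ≠ ⊥ := mul_ne_zero (pt9_mK_ne h.ne) hχ.ne
  have hJ1 : mK K M * f ≠ ⊤ := by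
    intro h1
    apply w0.isPrime.ne_top
    rw [← top_le_iff, ← h1]
    exact hJM.trans hw0M
  have hpK : Ideal.span {(p : 𝓞 K)} ≠ ⊥ := by
    rw [Ne, Ideal.span_singleton_eq_bot, Nat.cast_eq_zero]
    exact hp.ne_zero
  have hg0 : Ideal.span {(p : 𝓞 K)} * (mK K M * f) ≠ ⊥ := mul_ne_zero hpK hJ0
  have hgJ : Ideal.span {(p : 𝓞 K)} * (mK K M * f) ≤ mK K M * f := Ideal.mul_le_right
  obtain ⟨ι, hι, b, c₀, T, hcd⟩ := exists_CDJ (mK K M * f) (Ideal.span {(p : 𝓞 K)} * (mK K M * f))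
    hJ0 hg0 hgJ hJ1
  have hlam : ∀ i, c₀ i ∉ Ideal.span {algebraMap (𝓞 F) (𝓞 K) l} * b i := by
    intro i hi
    refine hcd.prim i w0 (hJM.trans hw0M) (Ideal.mul_mono_left ?_ hi)
    rw [Ideal.span_singleton_le_iff_mem]
    exact hw0l
  have hbp : ∀ i, IsCoprime (b i) (Ideal.span {(p : 𝓞 K)}) := fun i => (hcd.cop i).of_mul_right_left
  have hbJ : ∀ i, IsCoprime (b i) (mK K M * f) := fun i => (hcd.cop i).of_mul_right_right
  have hbf : ∀ i, IsCoprime (b i) f := fun i => (hbJ i).of_mul_right_right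
  have hbR : ∀ i, IsCoprime (b i) (f * ∏ v ∈ R, v.asIdeal) := by
    intro i
    refine (hbf i).mul_right (IsCoprime.prod_right fun v hv => ?_)
    rw [Ideal.isCoprime_iff_sup_eq, ← top_le_iff, ← Ideal.isCoprime_iff_sup_eq.1 (hbp i)]
    exact sup_le_sup_left ((Ideal.span_singleton_le_iff_mem _).2 (hχ.abv v hv)) _
  have hχb : ∀ i, χ (b i) ^ p = 1 := fun i => hχ.val (b i) (hcd.ne i) (hbR i)
  have hχb0 : ∀ i, χ (b i) ≠ 0 := by
    intro i h0
    have h1 := hχb i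
    rw [h0, zero_pow hp.ne_zero] at h1
    exact zero_ne_one h1
  have hprm := fun i => t2_prm (mK K M * f) (b i) hJ0 (hbJ i) (c₀ i) (hcd.mem i) (hcd.prim i)
  have hkap := fun i => t2_kap hp h hMp hχ.ne hχ.cop (b i) (hcd.ne i) (hcd.cop i) (c₀ i) (hcd.mem i) (hcd.prim i)
  choose κ hκu hκa hκ using hkap
  refine ⟨ι, hι, b, c₀, T, κ, ⟨hJ0, hJ1, hcd, fun i x hx d hd => ?_, hκu, hκa, hχb,
    fun i x hx => (hprm i x hx).of_mul_right_right, fun i h0 => ?_, fun i => ?_⟩, hlam⟩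
  · obtain ⟨hx0, h6⟩ := hκ i x hx d hd
    refine ⟨hx0, h6, ?_⟩
    rw [← hd, map_mul, mul_comm (χ d), inv_mul_cancel_left₀ (hχb0 i)]
  · exact (hκ i 0 h0 ⊥ (by
      rw [Ideal.span_singleton_eq_bot.2 rfl]
      exact zero_mul (b i))).1 rfl
  · exact IsCoprime.mul_left (IsCoprime.mul_left (pe9_cop hMp) hχ.cop) (hbp i)

end SSR
end

-- from Lib.SSR.T3
section

open NumberField IsDedekindDomain

namespace SSR

open H55N H55P
open SSG.V (WtJ)

variable {F : Type} [Field F] [NumberField F] [IQ F] {K : Type} [Field K] [NumberField K] [Algebra F K] {p : ℕ}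
  {f : Ideal (𝓞 K)} {R : Finset (HeightOneSpectrum (𝓞 K))} {χ : Ideal (𝓞 K) →*₀ ℂ}

/-! Chunk T3 (S/M). The weights. PROOF. P = prod over R of v, p ∈ every v. t3_chi: inv: span {v x} = span {x} for a unit v. per: x, y ∈ XS (y: x - y ∈ (p^2) I₀ ≤ I₀), x - y ∈ (p^2) I₀ ≤ f * prod v^2: (p^2) ≤ prod v^2 (p^2 ∈ ... (p) ≤ v for each v, products: prod v^2 = P^2, (p) ≤ P because the v are distinct primes
containing p: Finset.prod of distinct primes divides: Finset.prod_primes_dvd or le of inf; then (p)^2 ≤ P^2) and I₀ ≤ f, so the product (p^2) I₀ ≤ P^2 f. If (x) is coprime to f P: hχ.per (x, y ≠ 0 because 0 ∉ XS). Otherwise (y) is not coprime to f P either (hprm: both are coprime to f; if x ∈ v then y ∈ v) and both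
values are 0 (hχ.zero). t3_ind: inv: v x ∈ P iff x ∈ P. per: x - y ∈ (p^2) ≤ P. t3_pR: (p) ≤ P. -/

theorem t3_cop {v w : HeightOneSpectrum (𝓞 K)} (h : v ≠ w) : IsCoprime v.asIdeal w.asIdeal := by
  rw [Ideal.isCoprime_iff_sup_eq]
  haveI := v.isMaximal
  haveI := w.isMaximal
  exact Ideal.IsMaximal.coprime_of_ne v.isMaximal w.isMaximal fun h0 => h (HeightOneSpectrum.ext h0)

/-- Coprimality to P depends only on the class modulo P. -/
theorem t3_iff {P : Ideal (𝓞 K)} {x y : 𝓞 K} (h : x - y ∈ P) (hx : IsCoprime (Ideal.span {x}) P) :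
    IsCoprime (Ideal.span {y}) P := by
  rw [Ideal.isCoprime_iff_sup_eq] at hx ⊢
  rw [← top_le_iff, ← hx]
  refine sup_le ?_ le_sup_right
  rw [Ideal.span_singleton_le_iff_mem]
  have h1 : x = y + (x - y) := by ring
  rw [h1]
  exact Ideal.add_mem _ (Ideal.mem_sup_left (Ideal.mem_span_singleton_self y)) (Ideal.mem_sup_right h)

theorem t3_pR (hp : p.Prime) (hR : ∀ v ∈ R, (p : 𝓞 K) ∈ v.asIdeal) : (p : 𝓞 K) ∈ ∏ v ∈ R, v.asIdeal := by
  classical
  rw [← Ideal.span_singleton_le_iff_mem, ← Ideal.dvd_iff_le]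
  refine Finset.prod_dvd_of_coprime ?_ ?_
  · intro v _ w _ hvw
    exact t3_cop hvw
  · intro v hv
    rw [Ideal.dvd_iff_le, Ideal.span_singleton_le_iff_mem]
    exact hR v hv

theorem t3_chi (hp : p.Prime) (hχ : PCh p f R χ) {J I₀ : Ideal (𝓞 K)} {c₀ : 𝓞 K} (hI : I₀ ≤ f)
    (hprm : ∀ x ∈ XS I₀ c₀, IsCoprime (Ideal.span {x}) f) (h0 : (0 : 𝓞 K) ∉ XS I₀ c₀) :
    WtJ J I₀ c₀ (p ^ 2) (fun x => χ (Ideal.span {x})) := by
  have hpP : (p : 𝓞 K) ∈ ∏ v ∈ R, v.asIdeal := t3_pR hp hχ.abv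
  have hp2 : ((p ^ 2 : ℕ) : 𝓞 K) ∈ (∏ v ∈ R, v.asIdeal) ^ 2 := by
    rw [Nat.cast_pow]
    exact Ideal.pow_mem_pow hpP 2
  constructor
  · intro x hx y hxy
    have hxyI : x - y ∈ I₀ := Ideal.mul_le_right hxy
    have hy : y ∈ XS I₀ c₀ := by
      have h1 : y - c₀ = (x - c₀) - (x - y) := by ring
      show y - c₀ ∈ I₀
      rw [h1]
      exact Ideal.sub_mem _ hx hxyI
    have hx0 : x ≠ 0 := fun h => h0 (h ▸ hx)
    have hy0 : y ≠ 0 := fun h => h0 (h ▸ hy)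
    have hxyP : x - y ∈ ∏ v ∈ R, v.asIdeal :=
      Ideal.pow_le_self two_ne_zero (((Ideal.span_singleton_le_iff_mem _).2 hp2) (Ideal.mul_le_left hxy))
    have hxyF : x - y ∈ f * ∏ v ∈ R, v.asIdeal ^ 2 := by
      rw [Finset.prod_pow, mul_comm]
      exact Ideal.mul_mono ((Ideal.span_singleton_le_iff_mem _).2 hp2) hI hxy
    by_cases hc : IsCoprime (Ideal.span {x}) (f * ∏ v ∈ R, v.asIdeal)
    · exact hχ.per x y hx0 hy0 hc hxyF
    · have hc' : ¬ IsCoprime (Ideal.span {y}) (f * ∏ v ∈ R, v.asIdeal) := by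
        intro h1
        refine hc ((hprm x hx).mul_right (t3_iff (x := y) ?_ (IsCoprime.mul_right_iff.1 h1).2))
        have h2 : y - x = -(x - y) := by ring
        rw [h2]
        exact (Ideal.neg_mem_iff _).2 hxyP
      show χ _ = χ _
      rw [hχ.zero _ hc, hχ.zero _ hc']
  · intro x _ v _
    show χ _ = χ _
    rw [Ideal.span_singleton_mul_left_unit v.isUnit]

theorem t3_ind (hp : p.Prime) (hR : ∀ v ∈ R, (p : 𝓞 K) ∈ v.asIdeal) (J I₀ : Ideal (𝓞 K)) (c₀ : 𝓞 K) :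
    WtJ J I₀ c₀ (p ^ 2) (indI (∏ v ∈ R, v.asIdeal)) := by
  have hpP : (p : 𝓞 K) ∈ ∏ v ∈ R, v.asIdeal := t3_pR hp hR
  have hp2 : ((p ^ 2 : ℕ) : 𝓞 K) ∈ ∏ v ∈ R, v.asIdeal := by
    rw [Nat.cast_pow, pow_two]
    exact Ideal.mul_mem_left _ _ hpP
  constructor
  · intro x _ y hxy
    have hxyP : x - y ∈ ∏ v ∈ R, v.asIdeal :=
      ((Ideal.span_singleton_le_iff_mem _).2 hp2) (Ideal.mul_le_left hxy)
    have hiff : x ∈ ∏ v ∈ R, v.asIdeal ↔ y ∈ ∏ v ∈ R, v.asIdeal := by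
      constructor
      · intro h
        have h1 : y = x - (x - y) := by ring
        rw [h1]
        exact Ideal.sub_mem _ h hxyP
      · intro h
        have h1 : x = y + (x - y) := by ring
        rw [h1]
        exact Ideal.add_mem _ h hxyP
    show indI _ x = indI _ y
    unfold indI
    by_cases h : x ∈ ∏ v ∈ R, v.asIdeal
    · rw [if_pos h, if_pos (hiff.1 h)]
    · rw [if_neg h, if_neg fun h1 => h (hiff.2 h1)]
  · intro x _ v _
    show indI _ ((v : 𝓞 K) * x) = indI _ x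
    unfold indI
    have hiff := Ideal.unit_mul_mem_iff_mem (∏ v ∈ R, v.asIdeal) (x := x) v.isUnit
    by_cases h : x ∈ ∏ v ∈ R, v.asIdeal
    · rw [if_pos h, if_pos (hiff.2 h)]
    · rw [if_neg h, if_neg fun h1 => h (hiff.1 h1)]

end SSR
end

-- from Lib.SSR.T4
section

open NumberField IsDedekindDomain

namespace SSR

open H55N H55P SSG SSG.E
open SSG.V (WtJ)

variable {F : Type} [Field F] [NumberField F] [IQ F] {K : Type} [Field K] [NumberField K] [Algebra F K] {m p : ℕ} [Fact p.Prime]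
  {M : Ideal (𝓞 F)} {ψ : Ideal (𝓞 F) →*₀ 𝓞 F} {f : Ideal (𝓞 K)} {R : Finset (HeightOneSpectrum (𝓞 K))} {χ : Ideal (𝓞 K) →*₀ ℂ}
  {V : ValuationSubring ℂ} {ι : Type} {b : ι → Ideal (𝓞 K)} {c₀ : ι → 𝓞 K} {T : ι → Set (𝓞 K)} {κ : ι → ℂ}
  {c : Fin (m + 1) × Fin 2 → Ideal (𝓞 K)} {q : Fin (m + 1) × Fin 2 → ℕ} {val : ι → 𝓞 K → ℂ}

/-! Chunk T4 (M). t4_dat: existence of the data. PROOF. t2_cl for the classes (l from h.toMod p hMp). SSG.V.classw2 p hl K m hm (b i) f (hcl.cd.ne i) (b i coprime to (p): hcl.cd.cop) hχ.ne hχ.cop (c₀ i) (hcl.cd.mem i) nl 2 gives Bad i and val i. exists_smoothP p hp h hMp V hV hNT m with the finite bad set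
⋃ Bad i ∪ ⋃ {w | b i ≤ w} ∪ {w | p ∈ w} ∪ {w | f ≤ w} (pt9_finite) gives c, q, sm, pr, un; np, ncf, bc as in SSG.S.an_main. ser, cls: the two conclusions of classw2 (p ^ N with N = 2).
t4_key: the weighted series (copy of key in SSG.S.an_main). PROOF. (hD.ser i φ (hφ i)) gives Z i; G s = Σ κ i lam i absNorm(b i)^s Z i s; SSG.S.s1_series with h := PsiP K ψ * oneI f, hc := coef_mulP h (pt3_oneI_zero f) (pt3_oneI_norm_le f) (from kap), g = span {p} * J (g ≤ J: Ideal.mul_le_right), Z i (T i) (cd.trans i). -/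

theorem t4_dat {Om : ℂ} (hS : SCtx p M ψ Om) (hV : V.valuation (p : ℂ) < 1) (hNT : NTP K p M ψ V) (hm : Module.finrank F K = m + 1) (hχ : PCh p f R χ) :
    ∃ (ι : Type) (_ : Fintype ι) (b : ι → Ideal (𝓞 K)) (c₀ : ι → 𝓞 K) (T : ι → Set (𝓞 K)) (κ : ι → ℂ)
      (c : Fin (m + 1) × Fin 2 → Ideal (𝓞 K)) (q : Fin (m + 1) × Fin 2 → ℕ) (val : ι → 𝓞 K → ℂ),
      TDat F M ψ p f χ V ι b c₀ T κ c q val := by
  classical
  have hpp : p.Prime := Fact.out
  have hMp := hS.cop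
  obtain ⟨l, hl⟩ := hS.hecke.toMod p hMp
  obtain ⟨ι, hι, b, c₀, T, κ, hcl, hlam⟩ := t2_cl (K := K) hpp hS.hecke hMp hχ hl
  have hpK : Ideal.span {(p : 𝓞 K)} ≠ ⊥ := by
    rw [Ne, Ideal.span_singleton_eq_bot, Nat.cast_eq_zero]
    exact hpp.ne_zero
  have hbp : ∀ i, IsCoprime (b i) (Ideal.span {(p : 𝓞 K)}) := fun i => (hcl.cd.cop i).of_mul_right_left
  have hcls := fun i => SSG.V.classw2 p hl K m hm (b i) f (hcl.cd.ne i) (hbp i) hχ.ne hχ.cop (c₀ i)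
    (hcl.cd.mem i) (hlam i) 2 (by norm_num)
  choose Bad hBad hcls using hcls
  have hfinp : {w : Ideal (𝓞 K) | (p : 𝓞 K) ∈ w}.Finite := by
    refine (pt9_finite (Ideal.span {(p : 𝓞 K)}) hpK).subset ?_
    intro w hw
    exact (Ideal.span_singleton_le_iff_mem w).2 hw
  obtain ⟨c, q, hs, hcb, hun⟩ := exists_smoothP p hpp hS.hecke hMp V hV hNT m
    ((((⋃ i, Bad i) ∪ ⋃ i, {w : Ideal (𝓞 K) | b i ≤ w}) ∪ {w : Ideal (𝓞 K) | (p : 𝓞 K) ∈ w}) ∪ {w : Ideal (𝓞 K) | f ≤ w})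
    ((((Set.finite_iUnion hBad).union (Set.finite_iUnion fun i => pt9_finite (b i) (hcl.cd.ne i))).union hfinp).union
      (pt9_finite f hχ.ne))
  have hcp : ∀ j, (c j).IsPrime := fun j => (hcb j).1
  have hcpp : ∀ j, (p : 𝓞 K) ∉ c j := fun j hj => (hcb j).2 (Or.inl (Or.inr hj))
  have hncf : ∀ j, ¬ f ≤ c j := fun j hj => (hcb j).2 (Or.inr hj)
  have hbc : ∀ i j, IsCoprime (b i) (c j) := by
    intro i j
    rw [Ideal.isCoprime_iff_sup_eq]
    by_contra h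
    have hmax : (c j).IsMaximal := (hcp j).isMaximal (pt3_ne hs j)
    have h1 : c j ≤ b i ⊔ c j := le_sup_right
    have h2 : b i ⊔ c j = c j := (hmax.eq_of_le h h1).symm
    apply (hcb j).2
    refine Or.inl (Or.inl (Or.inr (Set.mem_iUnion.2 ⟨i, ?_⟩)))
    show b i ≤ c j
    rw [← h2]
    exact le_sup_left
  have hcls2 := fun i => hcls i c q hs
    (fun j hj => (hcb j).2 (Or.inl (Or.inl (Or.inl (Set.mem_iUnion.2 ⟨i, hj⟩)))))
  choose val hval1 hval2 using hcls2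
  exact ⟨ι, hι, b, c₀, T, κ, c, q, val, hcl, hs, hcp, hcpp, hncf, hbc, hun, hval1, hval2⟩

open Classical in
theorem t4_key [Fintype ι] (h : IsHecke M ψ) (hD : TDat F M ψ p f χ V ι b c₀ T κ c q val) (θ : Ideal (𝓞 K) → ℂ) (φ : 𝓞 K → ℂ) (lam : ι → ℂ)
    (hφ : ∀ i, WtJ (mK K M * f) (mK K M * f * b i) (c₀ i) (p ^ 2) φ)
    (hθ : ∀ i, ∀ x ∈ XS (mK K M * f * b i) (c₀ i), ∀ a : Ideal (𝓞 K), a * b i = Ideal.span {x} → θ a = lam i * φ x)
    (S : ι → Finset (𝓞 K)) (hS : ∀ i, RpU (mK K M * f * b i) (c₀ i) (p ^ 2) (S i)) :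
    ∃ G : ℂ → ℂ, AnalyticOnNhd ℂ G {s | 1 / 2 < s.re} ∧
      (∀ s : ℂ, 3 / 2 < s.re → HasSum (fun a : Ideal (𝓞 K) => tm (PsiP K ψ * oneI f : Ideal (𝓞 K) →*₀ ℂ) s a * θ a *
        ∏ j, (if a ≤ c j then 1 - (q j : ℂ) else 1)) (G s)) ∧
      G 1 = ∑ i, κ i * lam i * (Ideal.absNorm (b i) : ℂ) *
        ((((p : ℂ) ^ 2)⁻¹) ^ (m + 1) * ∑ a ∈ S i, φ a * val i a) := by
  have hJ1 := hD.cl.top
  have hgJ : Ideal.span {(p : 𝓞 K)} * (mK K M * f) ≤ mK K M * f := Ideal.mul_le_right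
  have hcf : CoefP F (mK K M * f) ι b c₀ (PsiP K ψ * oneI f) κ :=
    coef_mulP h (pt3_oneI_zero f) (pt3_oneI_norm_le f) fun i x hx a ha =>
      ⟨(hD.cl.kap i x hx a ha).1, (hD.cl.kap i x hx a ha).2.1⟩
  have hNb : ∀ i, Ideal.absNorm (b i) ≠ 0 := fun i => by
    rw [Ne, Ideal.absNorm_eq_zero_iff]
    exact hD.cl.cd.ne i
  choose Z hZa hZs hZ1 using fun i => hD.ser i φ (hφ i)
  refine ⟨fun s => ∑ i, κ i * lam i * (Ideal.absNorm (b i) : ℂ) ^ s * Z i s, ?_, ?_, ?_⟩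
  · intro s hs'
    exact Finset.analyticAt_fun_sum _ fun i _ =>
      (analyticAt_const.mul (pt3_pow_analytic _ (hNb i) Set.univ s trivial)).mul (hZa i s hs')
  · intro s hs'
    exact SSG.S.s1_series hgJ hJ1 hD.cl.cd hcf θ φ lam hθ hD.pr hD.bc (fun i => Z i s) s
      fun i => hZs i (T i) (hD.cl.cd.trans i) s hs'
  · refine Finset.sum_congr rfl fun i _ => ?_
    rw [hZ1 i (S i) (hS i), Complex.cpow_one]

end SSR
end

-- from Lib.SSR.T6
section

open NumberField IsDedekindDomain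

namespace SSR

open H55N H55P SSG SSG.E

variable {F : Type} [Field F] [NumberField F] [IQ F] {K : Type} [Field K] [NumberField K] [Algebra F K] {m p : ℕ} [Fact p.Prime]
  {M : Ideal (𝓞 F)} {ψ : Ideal (𝓞 F) →*₀ 𝓞 F} {f : Ideal (𝓞 K)} {R : Finset (HeightOneSpectrum (𝓞 K))} {χ : Ideal (𝓞 K) →*₀ ℂ}
  {V : ValuationSubring ℂ} {ι : Type} [Fintype ι] {b : ι → Ideal (𝓞 K)} {c₀ : ι → 𝓞 K} {T : ι → Set (𝓞 K)} {κ : ι → ℂ}
  {c : Fin (m + 1) × Fin 2 → Ideal (𝓞 K)} {q : Fin (m + 1) × Fin 2 → ℕ} {val : ι → 𝓞 K → ℂ}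

/-! Chunk T6 (M/L). The congruence at V. PROOF. Port of SSG.S.fin_V (SSG/S/A3.lean). hS.curve gives A B Ω j act, hd : Dta, hsup : Sup. exists_locL hd hS.inert hsup (V.comap j) (V(p) < 1: m2_comap_lt) gives i, Tp, L, hloc : LocM, hG : GH p L. h1_adp (finrank ℚ F = 2: IQ.deg; Prime (p : 𝓞 F) from hS.inert;
P = prod over R of v, p ∈ P by t3_pR) gives ω₀, I, hA : Adp and absNorm P = p^(2 (m+1-card I)). co from adp_two (choose). δ: a square root of embF F (discr ω₀) (IsAlgClosed ℂ: exists_pow_nat_eq / IsSquare); he_disc: V(δ)^4 = V(discr K). hD.cls i (instances of Ω, V.comap j, i, L, ω₀, co, δ) gives hh x, H x with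
j (hh x a) = δ * val x a / Om^(m+1), H x in Fn 2, i (hh x a) = H x (co a) for a in XS. h6_chi gives χ', χ''. κ' x with j (κ' x) = κ x (m2_lift, alg). In Ω: S' = Σ_x κ' x (χ' (b x))⁻¹ nb x Σ_(a ∈ S x) χ' (span {a}) hh x a, U' = Σ_x κ' x nb x Σ_(a ∈ S x) (if a ∈ P then 1 else 0) hh x a. j S' and j U' are the two numbers
of the statement (with the factor δ / Om^(m+1)). i S' = Σ_x i (κ' x nb x) i (χ' (b x))⁻¹ s_x, i U' = Σ_x i (κ' x nb x) u_x, where by h5_class (PChG for χ'', I₀ = mK K M * f * b x ≤ f, coprime to p, prm, zer) ‖s_x - (-1)^card R u_x‖ < ‖p‖^r, ‖u_x‖ ≤ ‖p‖^r, r = card I + (m + 1); ‖i (κ' x nb x)‖ ≤ 1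
(V(κ) = 1, naturals) and ‖i (χ' (b x))⁻¹ - 1‖ < 1 (p-th roots of unity: G4A g4_root or SSG.S.s4_root, zet). So ‖i S' - (-1)^card R i U'‖ < ‖p‖^r and ‖i U'‖ ≤ ‖p‖^r (finite ultrametric sums; s_x itself has norm ≤ ‖p‖^r). Translate to V by m2_val, m2_lt, m2_comap, m2_comap_lt (compare with i (p^r)). -/

theorem t6_sum_lt {C : Type} [NormedField C] [IsUltrametricDist C] {ι : Type} (s : Finset ι) (g : ι → C) {B : ℝ} (hB : 0 < B)
    (h : ∀ x ∈ s, ‖g x‖ < B) : ‖∑ x ∈ s, g x‖ < B := by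
  refine Finset.sum_induction g (fun z => ‖z‖ < B) ?_ ?_ h
  · intro a b ha hb
    exact lt_of_le_of_lt (IsUltrametricDist.norm_add_le_max a b) (max_lt ha hb)
  · rw [norm_zero]
    exact hB

theorem t6_sum_le {C : Type} [NormedField C] [IsUltrametricDist C] {ι : Type} (s : Finset ι) (g : ι → C) {B : ℝ} (hB : 0 ≤ B)
    (h : ∀ x ∈ s, ‖g x‖ ≤ B) : ‖∑ x ∈ s, g x‖ ≤ B := by
  refine Finset.sum_induction g (fun z => ‖z‖ ≤ B) ?_ ?_ h
  · intro a b ha hb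
    exact (IsUltrametricDist.norm_add_le_max a b).trans (max_le ha hb)
  · rw [norm_zero]
    exact hB

theorem t6_term {C : Type} [NormedField C] [IsUltrametricDist C] {X Y s u : C} {n : ℕ} {B : ℝ} (hB : 0 < B) (hX : ‖X‖ ≤ 1) (hY : ‖Y - 1‖ < 1)
    (h1 : ‖s - (-1) ^ n * u‖ < B) (h2 : ‖u‖ ≤ B) : ‖X * (Y * s - (-1) ^ n * u)‖ < B := by
  have h3 : ‖(-1 : C) ^ n * u‖ ≤ B := by
    rw [norm_mul, norm_pow, norm_neg, NormOneClass.norm_one, one_pow, one_mul]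
    exact h2
  have h4 : ‖s‖ ≤ B := by
    have e : s = (s - (-1) ^ n * u) + (-1) ^ n * u := by ring
    rw [e]
    exact (IsUltrametricDist.norm_add_le_max _ _).trans (max_le h1.le h3)
  have h5 : ‖(Y - 1) * s‖ < B := by
    rw [norm_mul]
    calc ‖Y - 1‖ * ‖s‖ ≤ ‖Y - 1‖ * B := mul_le_mul_of_nonneg_left h4 (norm_nonneg _)
      _ < 1 * B := mul_lt_mul_of_pos_right hY hB
      _ = B := one_mul B
  have e2 : Y * s - (-1) ^ n * u = (Y - 1) * s + (s - (-1) ^ n * u) := by ring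
  rw [norm_mul]
  calc ‖X‖ * ‖Y * s - (-1) ^ n * u‖ ≤ 1 * ‖Y * s - (-1) ^ n * u‖ := mul_le_mul_of_nonneg_right hX (norm_nonneg _)
    _ = ‖Y * s - (-1) ^ n * u‖ := one_mul _
    _ < B := by
      rw [e2]
      exact lt_of_le_of_lt (IsUltrametricDist.norm_add_le_max _ _) (max_lt h5 h1)

theorem t6_cong {Om : ℂ} (hS : SCtx p M ψ Om) (hV : V.valuation (p : ℂ) < 1) (hm : Module.finrank F K = m + 1)
    (hχ : PCh p f R χ) (hD : TDat F M ψ p f χ V ι b c₀ T κ c q val) (S : ι → Finset (𝓞 K))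
    (hR : ∀ i, RpU (mK K M * f * b i) (c₀ i) (p ^ 2) (S i)) :
    ∃ (δ : ℂ) (d : ℕ), d ≤ m + 1 ∧ δ ≠ 0 ∧ V.valuation δ ^ 4 = V.valuation ((NumberField.discr K : ℤ) : ℂ) ∧
      (∏ v ∈ R, Ideal.absNorm v.asIdeal) = p ^ (2 * d) ∧
      V.valuation (δ / Om ^ (m + 1) * (∑ i, κ i * (χ (b i))⁻¹ * (Ideal.absNorm (b i) : ℂ) * ∑ a ∈ S i, χ (Ideal.span {a}) * val i a) -
        (-1) ^ R.card * (δ / Om ^ (m + 1) * ∑ i, κ i * (Ideal.absNorm (b i) : ℂ) * ∑ a ∈ S i, indI (∏ v ∈ R, v.asIdeal) a * val i a)) <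
        V.valuation (p : ℂ) ^ (2 * (m + 1) - d) ∧
      V.valuation (δ / Om ^ (m + 1) * ∑ i, κ i * (Ideal.absNorm (b i) : ℂ) * ∑ a ∈ S i, indI (∏ v ∈ R, v.asIdeal) a * val i a) ≤
        V.valuation (p : ℂ) ^ (2 * (m + 1) - d) := by
  classical
  have hp : p.Prime := Fact.out
  obtain ⟨A, B, Ω, iΩ1, iΩ2, iΩ3, iΩ4, j, act, hd, hsup⟩ := hS.curve
  have hpp0 : (p : 𝓞 F) ≠ 0 := Nat.cast_ne_zero.2 hp.ne_zero
  have hin : Prime (p : 𝓞 F) := (Ideal.span_singleton_prime hpp0).1 hS.inert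
  have hc0 : CharZero Ω := charZero_of_injective_algebraMap (algebraMap F Ω).injective
  have hVΩ : (V.comap j).valuation (p : Ω) < 1 := (SSG.S.m2_comap_lt j V (p : Ω)).2 (by rwa [map_natCast])
  obtain ⟨i, Tp, L, hloc, hG⟩ := exists_locL hd hS.inert hsup (V.comap j) hVΩ
  have hpP : (p : 𝓞 K) ∈ ∏ v ∈ R, v.asIdeal := t3_pR hp hχ.abv
  obtain ⟨ω₀, I, hA, hN⟩ := h1_adp hp IQ.deg hin hm (∏ v ∈ R, v.asIdeal) hpP
  have hco0 := fun x : 𝓞 K => adp_two hA x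
  choose co hco using hco0
  obtain ⟨δ, hδ⟩ : ∃ δ : ℂ, δ ^ 2 = embF F (Algebra.discr F fun s => (ω₀ s : K)) :=
    IsAlgClosed.exists_pow_nat_eq _ (by norm_num)
  have hδV := he_disc hp hin hm hA V hV δ hδ
  have hδ0 : δ ≠ 0 := by
    rintro rfl
    rw [map_zero, zero_pow (by norm_num)] at hδV
    have h1 : ((NumberField.discr K : ℤ) : ℂ) ≠ 0 := Int.cast_ne_zero.2 (NumberField.discr_ne_zero K)
    exact (Valuation.ne_zero_iff _).2 h1 hδV.symm
  have hcls := fun x => hD.cls x A B Om Ω j act M ψ hd (V.comap j) i Tp L hVΩ hloc ω₀ co hco δ hδ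
  choose hh H hh1 hH hh2 using hcls
  obtain ⟨χ', χ'', hχ1, hχ2, hχG⟩ := h6_chi (F := F) hp j i hχ
  choose κ' hκ' using fun x => SSG.S.m2_lift (F := F) j (κ x) (hD.cl.alg x)
  have hOm : Om ≠ 0 := hd.cma.per.ne
  have hOmm : Om ^ (m + 1) ≠ 0 := pow_ne_zero _ hOm
  have hpΩ : (p : Ω) ≠ 0 := Nat.cast_ne_zero.2 hp.ne_zero
  have hpi : (p : ℂ_[p]) ≠ 0 := Nat.cast_ne_zero.2 hp.ne_zero
  have hIc : I.card ≤ m + 1 := by
    have h1 := Finset.card_le_univ I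
    rwa [Fintype.card_fin] at h1
  obtain ⟨nb, hnb⟩ : ∃ nb : ι → ℕ, nb = fun x => Ideal.absNorm (b x) := ⟨_, rfl⟩
  obtain ⟨S', hSd⟩ : ∃ S' : Ω, S' = ∑ x, κ' x * (χ' (b x))⁻¹ * (nb x : Ω) *
      ∑ a ∈ S x, χ' (Ideal.span {a}) * hh x a := ⟨_, rfl⟩
  obtain ⟨U', hUd⟩ : ∃ U' : Ω, U' = ∑ x, κ' x * (nb x : Ω) *
      ∑ a ∈ S x, (if a ∈ ∏ v ∈ R, v.asIdeal then (1 : Ω) else 0) * hh x a := ⟨_, rfl⟩
  have hjS : j S' = δ / Om ^ (m + 1) * ∑ i, κ i * (χ (b i))⁻¹ * (Ideal.absNorm (b i) : ℂ) *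
      ∑ a ∈ S i, χ (Ideal.span {a}) * val i a := by
    rw [hSd, map_sum, Finset.mul_sum]
    refine Finset.sum_congr rfl fun x _ => ?_
    have h1 : j (∑ a ∈ S x, χ' (Ideal.span {a}) * hh x a) =
        δ / Om ^ (m + 1) * ∑ a ∈ S x, χ (Ideal.span {a}) * val x a := by
      rw [map_sum, Finset.mul_sum]
      refine Finset.sum_congr rfl fun a ha => ?_
      rw [map_mul, hχ1, hh1 x a ((hR x).sub a ha)]
      ring
    rw [map_mul j, h1, map_mul j, map_mul j, map_inv₀ j, hχ1, map_natCast j, hκ', hnb]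
    ring
  have hjU : j U' = δ / Om ^ (m + 1) * ∑ i, κ i * (Ideal.absNorm (b i) : ℂ) *
      ∑ a ∈ S i, indI (∏ v ∈ R, v.asIdeal) a * val i a := by
    rw [hUd, map_sum, Finset.mul_sum]
    refine Finset.sum_congr rfl fun x _ => ?_
    have h1 : j (∑ a ∈ S x, (if a ∈ ∏ v ∈ R, v.asIdeal then (1 : Ω) else 0) * hh x a) =
        δ / Om ^ (m + 1) * ∑ a ∈ S x, indI (∏ v ∈ R, v.asIdeal) a * val x a := by
      rw [map_sum, Finset.mul_sum]
      refine Finset.sum_congr rfl fun a ha => ?_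
      rw [map_mul, hh1 x a ((hR x).sub a ha)]
      unfold indI
      by_cases h3 : a ∈ ∏ v ∈ R, v.asIdeal
      · rw [if_pos h3, if_pos h3, map_one]
        ring
      · rw [if_neg h3, if_neg h3, map_zero]
        ring
    rw [map_mul j, h1, map_mul j, map_natCast j, hκ', hnb]
    ring
  have hiS : i S' = ∑ x, i (κ' x * (nb x : Ω)) * (i ((χ' (b x))⁻¹) *
      ∑ a ∈ S x, χ'' (Ideal.span {a}) * H x (co a)) := by
    rw [hSd, map_sum]
    refine Finset.sum_congr rfl fun x _ => ?_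
    have h1 : i (∑ a ∈ S x, χ' (Ideal.span {a}) * hh x a) = ∑ a ∈ S x, χ'' (Ideal.span {a}) * H x (co a) := by
      rw [map_sum]
      refine Finset.sum_congr rfl fun a ha => ?_
      rw [map_mul, hχ2, hh2 x a ((hR x).sub a ha)]
    rw [map_mul i, h1, map_mul i, map_mul i, map_mul i]
    ring
  have hiU : i U' = ∑ x, i (κ' x * (nb x : Ω)) *
      ∑ a ∈ S x, (if a ∈ ∏ v ∈ R, v.asIdeal then (1 : ℂ_[p]) else 0) * H x (co a) := by
    rw [hUd, map_sum]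
    refine Finset.sum_congr rfl fun x _ => ?_
    have h1 : i (∑ a ∈ S x, (if a ∈ ∏ v ∈ R, v.asIdeal then (1 : Ω) else 0) * hh x a) =
        ∑ a ∈ S x, (if a ∈ ∏ v ∈ R, v.asIdeal then (1 : ℂ_[p]) else 0) * H x (co a) := by
      rw [map_sum]
      refine Finset.sum_congr rfl fun a ha => ?_
      rw [map_mul, hh2 x a ((hR x).sub a ha)]
      by_cases h3 : a ∈ ∏ v ∈ R, v.asIdeal
      · rw [if_pos h3, if_pos h3, map_one]
      · rw [if_neg h3, if_neg h3, map_zero]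
    rw [map_mul i, h1]
  have hX : ∀ x, ‖i (κ' x * (nb x : Ω))‖ ≤ 1 := by
    intro x
    rw [← hloc.val, ValuationSubring.mem_comap, ← ValuationSubring.valuation_le_one_iff, map_mul j, map_natCast j, hκ',
      map_mul, hD.cl.unit x V hV, one_mul]
    exact pt9_nat V _
  have hY : ∀ x, ‖i ((χ' (b x))⁻¹) - 1‖ < 1 := by
    intro x
    have h1 : i ((χ' (b x))⁻¹) - 1 = i ((χ' (b x))⁻¹ - 1) := by
      rw [map_sub, map_one]
    rw [h1, ← SSG.S.m2_lt i hloc.val, SSG.S.m2_comap_lt, map_sub, map_one, map_inv₀, hχ1]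
    refine SSG.S.s4_root p hp V hV 1 _ ?_
    rw [inv_pow, inv_eq_one, pow_one]
    exact hD.cl.zet x
  have h5 := fun x => h5_class hG hA hχG (hD.cl.cop x)
    (show mK K M * f * b x ≤ f from Ideal.mul_le_left.trans Ideal.mul_le_right) (hD.cl.prm x) (hD.cl.zer x) co hco (hR x) (hH x)
  have hq : 0 < ‖(p : ℂ_[p])‖ ^ (I.card + (m + 1)) := pow_pos (norm_pos_iff.2 hpi) _
  have hlt : ‖i (S' - (-1) ^ R.card * U')‖ < ‖i ((p : Ω) ^ (I.card + (m + 1)))‖ := by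
    have e1 : i (S' - (-1) ^ R.card * U') = ∑ x, i (κ' x * (nb x : Ω)) * (i ((χ' (b x))⁻¹) *
        (∑ a ∈ S x, χ'' (Ideal.span {a}) * H x (co a)) - (-1) ^ R.card *
        ∑ a ∈ S x, (if a ∈ ∏ v ∈ R, v.asIdeal then (1 : ℂ_[p]) else 0) * H x (co a)) := by
      rw [map_sub, map_mul, map_pow, map_neg, map_one, hiS, hiU, Finset.mul_sum, ← Finset.sum_sub_distrib]
      refine Finset.sum_congr rfl fun x _ => ?_
      ring
    rw [e1, map_pow, map_natCast, norm_pow]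
    refine t6_sum_lt _ _ hq fun x _ => ?_
    exact t6_term hq (hX x) (hY x) (h5 x).1 (h5 x).2
  have hle : ‖i U'‖ ≤ ‖i ((p : Ω) ^ (I.card + (m + 1)))‖ := by
    rw [hiU, map_pow, map_natCast, norm_pow]
    refine t6_sum_le _ _ hq.le fun x _ => ?_
    rw [norm_mul]
    calc ‖i (κ' x * (nb x : Ω))‖ * ‖∑ a ∈ S x, (if a ∈ ∏ v ∈ R, v.asIdeal then (1 : ℂ_[p]) else 0) * H x (co a)‖ ≤
        1 * ‖∑ a ∈ S x, (if a ∈ ∏ v ∈ R, v.asIdeal then (1 : ℂ_[p]) else 0) * H x (co a)‖ :=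
          mul_le_mul_of_nonneg_right (hX x) (norm_nonneg _)
      _ = ‖∑ a ∈ S x, (if a ∈ ∏ v ∈ R, v.asIdeal then (1 : ℂ_[p]) else 0) * H x (co a)‖ := one_mul _
      _ ≤ ‖(p : ℂ_[p])‖ ^ (I.card + (m + 1)) := (h5 x).2
  have hexp : 2 * (m + 1) - (m + 1 - I.card) = I.card + (m + 1) := by omega
  have hval : V.valuation (j ((p : Ω) ^ (I.card + (m + 1)))) = V.valuation (p : ℂ) ^ (I.card + (m + 1)) := by
    rw [map_pow, map_natCast, map_pow]
  refine ⟨δ, m + 1 - I.card, Nat.sub_le _ _, hδ0, hδV, ?_, ?_, ?_⟩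
  · rw [← hN, map_prod]
  · rw [hexp, ← hjS, ← hjU, ← hval]
    have h1 := (SSG.S.m2_comap_le j V ((p : Ω) ^ (I.card + (m + 1))) (S' - (-1) ^ R.card * U')).not.1
      ((SSG.S.m2_le i hloc.val _ _).not.2 (not_le.2 hlt))
    rw [not_le, map_sub, map_mul, map_pow, map_neg, map_one] at h1
    exact h1
  · rw [hexp, ← hjU, ← hval]
    exact (SSG.S.m2_comap_le j V _ _).1 ((SSG.S.m2_le i hloc.val _ _).2 hle)

end SSR
end

-- from Lib.SSR.T5B
section

open NumberField IsDedekindDomain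

namespace SSR

open H55N H55P SSG SSG.E
open H55Z (HasL)

variable {F : Type} [Field F] [NumberField F] [IQ F] {K : Type} [Field K] [NumberField K] [Algebra F K] {m p : ℕ} [Fact p.Prime]
  {M : Ideal (𝓞 F)} {ψ : Ideal (𝓞 F) →*₀ 𝓞 F} {f : Ideal (𝓞 K)} {R : Finset (HeightOneSpectrum (𝓞 K))} {χ : Ideal (𝓞 K) →*₀ ℂ}
  {V : ValuationSubring ℂ} {ι : Type} [Fintype ι] {b : ι → Ideal (𝓞 K)} {c₀ : ι → 𝓞 K} {T : ι → Set (𝓞 K)} {κ : ι → ℂ}
  {c : Fin (m + 1) × Fin 2 → Ideal (𝓞 K)} {q : Fin (m + 1) × Fin 2 → ℕ} {val : ι → 𝓞 K → ℂ}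

/-! Chunk T5B (M). The base value. PROOF. As the last part of SSG.S.an_main (the untwisted series with the weight ind), with Q = P = prod over R of v. t4_key with θ a = if a ≤ P then 1 else 0, φ = indI P (t3_ind), lam = 1: for a b i = (x): a ≤ P iff x ∈ P because b i is coprime to (p), hence to P
(as SSG.S.a1_dvd: IsCoprime P (b i)). G s = tm h' s P * (prod_j (1 - q j tm h' s (c j)) * Σ' tm h' s) with h' = PsiP K ψ * oneI f (SSG.S.s2_div: not P ≤ c j because p ∈ P (t3_pR), np; norm bound as in coef_mulP / hnrm there). tm h' s P = tm (PsiP K ψ) s P (oneI f P = 1: P coprime to f because p ∈ P and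
f coprime to (p); P ≠ 0), tm h' s (c j) = tm (PsiP K ψ) s (c j) (c j coprime to f: c j maximal, ncf). one_sumP h f: Σ' tm h' s = prod_(w ∈ W) (1 - tm (PsiP) s w) * Σ' tm (PsiP) s, W the set of the w with f ≤ w. ident (identity theorem, H55N.ident) with the continuation Λ₁ of HasL: for all Re s > 1/2
G s = tm (PsiP) s P * (B(s) * (prod_w (1 - tm s w) * Λ₁ s)) (both analytic: pt3_tm_analytic). s = 1. B₁ = prod_j (1 - q j tm (PsiP) 1 (c j)), V(B₁) = 1: s4_unit1. The finset W: Set.Finite.toFinset of {w | f ≤ w} (one_sumP gives one). -/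

theorem t5_base (h : IsHecke M ψ) (hχ : PCh p f R χ) (hD : TDat F M ψ p f χ V ι b c₀ T κ c q val) (S : ι → Finset (𝓞 K))
    (hS : ∀ i, RpU (mK K M * f * b i) (c₀ i) (p ^ 2) (S i)) :
    ∃ (B₁ : ℂ) (W : Finset (HeightOneSpectrum (𝓞 K))), V.valuation B₁ = 1 ∧ (∀ w, w ∈ W ↔ f ≤ w.asIdeal) ∧
      ∀ v₁ : ℂ, HasL (PsiP K ψ) v₁ →
        tm (PsiP K ψ) 1 (∏ v ∈ R, v.asIdeal) * (B₁ * ((∏ w ∈ W, (1 - tm (PsiP K ψ) 1 w.asIdeal)) * v₁)) =
          ∑ i, κ i * (Ideal.absNorm (b i) : ℂ) *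
            ((((p : ℂ) ^ 2)⁻¹) ^ (m + 1) * ∑ a ∈ S i, indI (∏ v ∈ R, v.asIdeal) a * val i a) := by
  classical
  have hpp : p.Prime := Fact.out
  have hpP : (p : 𝓞 K) ∈ ∏ v ∈ R, v.asIdeal := t3_pR hpp hχ.abv
  have hP0 : (∏ v ∈ R, v.asIdeal : Ideal (𝓞 K)) ≠ ⊥ := Finset.prod_ne_zero_iff.2 fun v _ => v.ne_bot
  have hind := fun i => t3_ind (p := p) hpp hχ.abv (mK K M * f) (mK K M * f * b i) (c₀ i)
  have hPle : Ideal.span {(p : 𝓞 K)} ≤ ∏ v ∈ R, v.asIdeal := (Ideal.span_singleton_le_iff_mem _).2 hpP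
  have hcopP : ∀ J : Ideal (𝓞 K), IsCoprime J (Ideal.span {(p : 𝓞 K)}) → IsCoprime (∏ v ∈ R, v.asIdeal) J := by
    intro J hJ
    rw [Ideal.isCoprime_iff_sup_eq] at hJ ⊢
    rw [eq_top_iff, ← hJ, sup_comm]
    exact sup_le_sup_right hPle J
  generalize (∏ v ∈ R, v.asIdeal : Ideal (𝓞 K)) = P at hpP hP0 hind hPle hcopP ⊢
  have hPc : ∀ j, ¬ P ≤ c j := fun j hj => hD.np j (hj hpP)
  have hbP : ∀ i, IsCoprime P (b i) := fun i => hcopP _ (hD.cl.cop i).of_mul_left_right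
  have hfP : IsCoprime P f := hcopP _ hχ.cop
  obtain ⟨G, hGa, hGs, hG1⟩ := t4_key h hD (fun a => if a ≤ P then 1 else 0) (indI P) (fun _ => 1) hind
    (fun i x _ a ha => by
      rw [one_mul]
      unfold indI
      have h2 : a ≤ P ↔ x ∈ P := by
        rw [← Ideal.span_singleton_le_iff_mem, ← ha]
        constructor
        · intro h2
          exact Ideal.mul_le_left.trans h2
        · intro h2
          rw [← Ideal.dvd_iff_le] at h2 ⊢
          exact (hbP i).dvd_of_dvd_mul_right h2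
      by_cases h3 : x ∈ P
      · rw [if_pos h3, if_pos (h2.2 h3)]
      · rw [if_neg h3, if_neg fun h4 => h3 (h2.1 h4)]) S hS
  have hnrm : ∀ a : Ideal (𝓞 K), ‖(PsiP K ψ * oneI f : Ideal (𝓞 K) →*₀ ℂ) a‖ ^ 2 ≤ Ideal.absNorm a := by
    intro a
    refine le_trans ?_ (PsiP_norm_le h a)
    have h4 : (PsiP K ψ * oneI f : Ideal (𝓞 K) →*₀ ℂ) a = PsiP K ψ a * oneI f a := rfl
    rw [h4, norm_mul, mul_pow]
    exact mul_le_of_le_one_right (by positivity) (pow_le_one₀ (norm_nonneg _) (pt3_oneI_norm_le f a))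
  have htm : ∀ (s : ℂ) (a : Ideal (𝓞 K)), a ≠ ⊥ → IsCoprime a f →
      tm (PsiP K ψ * oneI f : Ideal (𝓞 K) →*₀ ℂ) s a = tm (PsiP K ψ) s a := by
    intro s a ha hc
    have h5 : oneI f a = 1 := by
      show (if a ≠ ⊥ ∧ IsCoprime a f then (1 : ℂ) else 0) = 1
      rw [if_pos ⟨ha, hc⟩]
    show PsiP K ψ a * oneI f a * (Ideal.absNorm a : ℂ) ^ (-s) = PsiP K ψ a * (Ideal.absNorm a : ℂ) ^ (-s)
    rw [h5, mul_one]
  have hcf : ∀ j, IsCoprime (c j) f := by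
    intro j
    rw [Ideal.isCoprime_iff_sup_eq]
    by_contra h
    have hmax : (c j).IsMaximal := (hD.pr j).isMaximal (pt3_ne hD.sm j)
    have h1 : c j ≤ c j ⊔ f := le_sup_left
    have h2 : c j ⊔ f = c j := (hmax.eq_of_le h h1).symm
    apply hD.ncf j
    rw [← h2]
    exact le_sup_right
  obtain ⟨W, hW, hWs⟩ := one_sumP (K := K) h f hχ.ne
  refine ⟨∏ j, (1 - (q j : ℂ) * tm (PsiP K ψ) 1 (c j)), W, ?_, hW, ?_⟩
  · rw [map_prod]
    exact Finset.prod_eq_one fun j _ => SSG.S.s4_unit1 V ψ (c j) (q j) (hD.sm.prime j) (hD.sm.norm j) (hD.un j)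
  · rintro v₁ ⟨Λ₁, h1a, h1s, h1v⟩
    have h1re : (1 / 2 : ℝ) < (1 : ℂ).re := by norm_num
    have h4 : ∀ s : ℂ, 1 / 2 < s.re → G s = tm (PsiP K ψ) s P *
        ((∏ j, (1 - (q j : ℂ) * tm (PsiP K ψ) s (c j))) *
          ((∏ w ∈ W, (1 - tm (PsiP K ψ) s w.asIdeal)) * Λ₁ s)) := by
      intro s hs'
      refine ident G (fun s => tm (PsiP K ψ) s P *
        ((∏ j, (1 - (q j : ℂ) * tm (PsiP K ψ) s (c j))) *
          ((∏ w ∈ W, (1 - tm (PsiP K ψ) s w.asIdeal)) * Λ₁ s))) hGa ?_ ?_ s hs'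
      · intro z hz
        refine (pt3_tm_analytic (PsiP K ψ) _ hP0 Set.univ z trivial).mul (AnalyticAt.mul ?_ (AnalyticAt.mul ?_ (h1a z hz)))
        · exact Finset.analyticAt_fun_prod _ fun j _ =>
            (analyticAt_const.sub (analyticAt_const.mul
              (pt3_tm_analytic (PsiP K ψ) (c j) (pt3_ne hD.sm j) Set.univ z trivial)))
        · exact Finset.analyticAt_fun_prod _ fun w _ =>
            (analyticAt_const.sub (pt3_tm_analytic (PsiP K ψ) w.asIdeal w.ne_bot Set.univ z trivial))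
      · intro z hz
        have h5 := SSG.S.s2_div (PsiP K ψ * oneI f : Ideal (𝓞 K) →*₀ ℂ) hnrm P hP0 hD.sm hD.pr hPc z hz
        have h6 := hWs z hz
        rw [h6.tsum_eq, (h1s z hz).tsum_eq, htm z P hP0 hfP] at h5
        have h7 : (∏ j, (1 - (q j : ℂ) * tm (PsiP K ψ * oneI f : Ideal (𝓞 K) →*₀ ℂ) z (c j))) =
            ∏ j, (1 - (q j : ℂ) * tm (PsiP K ψ) z (c j)) :=
          Finset.prod_congr rfl fun j _ => by rw [htm z (c j) (pt3_ne hD.sm j) (hcf j)]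
        rw [h7] at h5
        exact (hGs z hz).unique h5
    have h5 := h4 1 h1re
    rw [h1v] at h5
    rw [← h5, hG1]
    refine Finset.sum_congr rfl fun i _ => ?_
    rw [mul_one]

end SSR
end

-- from Lib.SSR.T5
section

open NumberField IsDedekindDomain

namespace SSR

open H55N H55P SSG SSG.E
open H55Z (HasL)

variable {F : Type} [Field F] [NumberField F] [IQ F] {K : Type} [Field K] [NumberField K] [Algebra F K] {m p : ℕ} [Fact p.Prime]
  {M : Ideal (𝓞 F)} {ψ : Ideal (𝓞 F) →*₀ 𝓞 F} {f : Ideal (𝓞 K)} {R : Finset (HeightOneSpectrum (𝓞 K))} {χ : Ideal (𝓞 K) →*₀ ℂ}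
  {V : ValuationSubring ℂ} {ι : Type} [Fintype ι] {b : ι → Ideal (𝓞 K)} {c₀ : ι → 𝓞 K} {T : ι → Set (𝓞 K)} {κ : ι → ℂ}
  {c : Fin (m + 1) × Fin 2 → Ideal (𝓞 K)} {q : Fin (m + 1) × Fin 2 → ℕ} {val : ι → 𝓞 K → ℂ}

/-! Chunk T5 (M). The twisted value. PROOF. As in SSG.S.an_main (part: the twisted series), with (chN K χ, wchi χ) replaced by (χ, fun x => χ (span {x})). t4_key with θ = χ, φ x = χ (span {x}) (weight: t3_chi with I₀ = mK K M * f * b i ≤ f, hD.cl.prm, zer), lam i = (χ (b i))⁻¹ (hD.cl.kap) gives G. Z0 from t1_cont.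
tm (PsiP * oneI f) s a * χ a = tm (PsiP * χ) s a: if χ a ≠ 0 then a is coprime to f and a ≠ 0, so oneI f a = 1 (pt3_oneI..). G s = prod_j (1 - q j tm (PsiP * χ) s (c j)) * Z0 s for Re s > 3/2 (smooth_sum, as there). glue gives Λ with Λ = Z0 for Re s > 3/2, G = P Λ. Nonvanishing of P for Re s < 3/2: s4_ne (‖χ (c j)‖ = 1 or
χ (c j) = 0 by hχ.val / zero; c j ≠ ⊥: pt3_ne). Bχ = prod_j (1 - q j tm (PsiP * χ) 1 (c j)), V(Bχ) = 1: s4_unit and s4_root with k = 1 (χ (c j) ^ p = 1 or 0). vχ = Λ 1. -/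

open Classical in
theorem t5_one (hχ : PCh p f R χ) (a : Ideal (𝓞 K)) : (PsiP K ψ * χ : Ideal (𝓞 K) →*₀ ℂ) a =
    (PsiP K ψ * oneI f : Ideal (𝓞 K) →*₀ ℂ) a * χ a := by
  show PsiP K ψ a * χ a = PsiP K ψ a * oneI f a * χ a
  by_cases h : χ a = 0
  · rw [h, mul_zero, mul_zero]
  · have h1 : oneI f a = 1 := by
      show (if a ≠ ⊥ ∧ IsCoprime a f then (1 : ℂ) else 0) = 1
      rw [if_pos]
      refine ⟨?_, ?_⟩
      · rintro rfl
        exact h (map_zero χ)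
      · by_contra h2
        apply h
        refine hχ.zero a fun h3 => h2 ?_
        exact (IsCoprime.mul_right_iff.1 h3).1
    rw [h1, mul_one]

theorem t5_alt (hχ : PCh p f R χ) {a : Ideal (𝓞 K)} (ha : a ≠ ⊥) : χ a ^ p = 1 ∨ χ a = 0 := by
  by_cases h : IsCoprime a (f * ∏ v ∈ R, v.asIdeal)
  · exact Or.inl (hχ.val a ha h)
  · exact Or.inr (hχ.zero a h)

theorem t5_tw (h : IsHecke M ψ) (hMp : IsCoprime M (Ideal.span {(p : 𝓞 F)})) (hm : Module.finrank F K = m + 1) (hV : V.valuation (p : ℂ) < 1)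
    (hχ : PCh p f R χ) (hD : TDat F M ψ p f χ V ι b c₀ T κ c q val) (S : ι → Finset (𝓞 K))
    (hS : ∀ i, RpU (mK K M * f * b i) (c₀ i) (p ^ 2) (S i)) :
    ∃ Bχ vχ : ℂ, HasL (PsiP K ψ * χ : Ideal (𝓞 K) →*₀ ℂ) vχ ∧ V.valuation Bχ = 1 ∧
      Bχ * vχ = ∑ i, κ i * (χ (b i))⁻¹ * (Ideal.absNorm (b i) : ℂ) *
        ((((p : ℂ) ^ 2)⁻¹) ^ (m + 1) * ∑ a ∈ S i, χ (Ideal.span {a}) * val i a) := by
  have hpp : p.Prime := Fact.out
  have hs : Smooth c q := hD.sm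
  have hle : ∀ i, mK K M * f * b i ≤ f := fun i => Ideal.mul_le_left.trans Ideal.mul_le_right
  obtain ⟨G, hGa, hGs, hG1⟩ := t4_key h hD χ (fun x => χ (Ideal.span {x})) (fun i => (χ (b i))⁻¹)
    (fun i => t3_chi hpp hχ (hle i) (hD.cl.prm i) (hD.cl.zer i))
    (fun i x hx a ha => (hD.cl.kap i x hx a ha).2.2) S hS
  obtain ⟨Z0, hZ0a, hZ0s⟩ := t1_cont hpp h hMp hm hχ
  have hnrm : ∀ a : Ideal (𝓞 K), ‖(PsiP K ψ * χ : Ideal (𝓞 K) →*₀ ℂ) a‖ ^ 2 ≤ Ideal.absNorm a := by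
    intro a
    refine le_trans ?_ (PsiP_norm_le h a)
    have h4 : (PsiP K ψ * χ : Ideal (𝓞 K) →*₀ ℂ) a = PsiP K ψ a * χ a := rfl
    rw [h4, norm_mul, mul_pow]
    exact mul_le_of_le_one_right (by positivity) (pow_le_one₀ (norm_nonneg _) (t1_norm hpp hχ a))
  have hPa : AnalyticOnNhd ℂ
      (fun s : ℂ => ∏ j, (1 - (q j : ℂ) * tm (PsiP K ψ * χ : Ideal (𝓞 K) →*₀ ℂ) s (c j))) {s | 1 / 2 < s.re} := by
    intro s hs'
    exact Finset.analyticAt_fun_prod _ fun j _ =>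
      (analyticAt_const.sub (analyticAt_const.mul
        (pt3_tm_analytic _ (c j) (pt3_ne hs j) Set.univ s trivial)))
  have hGe : ∀ s : ℂ, 3 / 2 < s.re →
      G s = (∏ j, (1 - (q j : ℂ) * tm (PsiP K ψ * χ : Ideal (𝓞 K) →*₀ ℂ) s (c j))) * Z0 s := by
    intro s hs'
    have h1 := hGs s hs'
    have h2 := smooth_sum (tmH (PsiP K ψ * χ : Ideal (𝓞 K) →*₀ ℂ) s) (tm_summable _ hnrm s hs') c hD.pr (pt3_ne hs)
      (pt3_inj hs) (fun i => (q i : ℂ))
    have h3 : ∑' a, tmH (PsiP K ψ * χ : Ideal (𝓞 K) →*₀ ℂ) s a = Z0 s := (hZ0s s hs').tsum_eq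
    rw [h3] at h2
    refine h1.unique (h2.congr_fun fun a => ?_)
    have h4 : tmH (PsiP K ψ * χ : Ideal (𝓞 K) →*₀ ℂ) s a = tm (PsiP K ψ * oneI f : Ideal (𝓞 K) →*₀ ℂ) s a * χ a := by
      show (PsiP K ψ * χ : Ideal (𝓞 K) →*₀ ℂ) a * _ = (PsiP K ψ * oneI f : Ideal (𝓞 K) →*₀ ℂ) a * _ * χ a
      rw [t5_one hχ]
      ring
    rw [h4]
  have halt : ∀ j, χ (c j) ^ p = 1 ∨ χ (c j) = 0 := fun j => t5_alt hχ (pt3_ne hs j)
  obtain ⟨Λ, hΛa, hΛs, hΛG⟩ := glue (1 / (2 * (m + 1 : ℝ))) (by positivity) G Z0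
    (fun s : ℂ => ∏ j, (1 - (q j : ℂ) * tm (PsiP K ψ * χ : Ideal (𝓞 K) →*₀ ℂ) s (c j)))
    hGa hZ0a hPa
    (fun s hs' => Finset.prod_ne_zero_iff.2 fun j _ => SSG.S.s4_ne h χ (c j) (q j) (hs.prime j) (hs.norm j)
      (by
        rcases halt j with h1 | h1
        · exact Or.inl (Complex.norm_eq_one_of_pow_eq_one h1 hpp.ne_zero)
        · exact Or.inr h1) s hs')
    hGe
  have h1re : (1 / 2 : ℝ) < (1 : ℂ).re := by norm_num
  refine ⟨∏ j, (1 - (q j : ℂ) * tm (PsiP K ψ * χ : Ideal (𝓞 K) →*₀ ℂ) 1 (c j)), Λ 1,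
    ⟨Λ, hΛa, fun s hs' => ?_, rfl⟩, ?_, (hΛG 1 h1re).symm.trans hG1⟩
  · rw [hΛs s hs']
    exact hZ0s s hs'
  · rw [map_prod]
    refine Finset.prod_eq_one fun j _ => SSG.S.s4_unit V ψ χ (c j) (q j) (hs.prime j) (hs.norm j) (hD.un j) ?_
    rcases halt j with h1 | h1
    · exact Or.inl (SSG.S.s4_root p hpp V hV 1 _ (by rw [pow_one]; exact h1))
    · exact Or.inr h1

end SSR
end

-- from Lib.SSR.T7
section

open NumberField IsDedekindDomain

namespace SSR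

open H55N H55P

variable {F : Type} [Field F] [NumberField F] [IQ F] {K : Type} [Field K] [NumberField K] [Algebra F K] {m p : ℕ}
  {M : Ideal (𝓞 F)} {ψ : Ideal (𝓞 F) →*₀ 𝓞 F} {R : Finset (HeightOneSpectrum (𝓞 K))} {V : ValuationSubring ℂ}

/-! Chunk T7 (S/M). PROOF. t7_psi: for v ∈ R: p ∈ v; relNorm (𝓞 F) v = (v₀)^f with v₀ the prime below, f ≥ 1 the inertia degree (H55K.DD.below or Ideal.relNorm_eq_pow_of_isMaximal..; v₀ contains the prime element p of 𝓞 F, so v₀ = span {p}). PsiP K ψ v = conj (eF (ψ (span {p})^f)) = (-p)^f, absNorm v = absNorm (relNorm v) = absNorm (span {p})^f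
= p^(2 f) (IQ.deg: absNorm (span {p}) = p^2: pt8_norm). So tm (PsiP K ψ) 1 v * p^f = (-1)^f. Product over R: tm is multiplicative (tmH), Σ f = d from prod absNorm v = p^(2d) (injectivity of powers of p). t7_arith: purely in the value group Γ (linearly ordered commutative group with zero), P = V(p), 0 < P: S, U, X, Y, D as follows:
S = P^(2g) X', X' = V(Bχ vχ δ/Om^g); see the statement: from V(S - eps U) < P^r, V(U) ≤ P^r: V(S) ≤ P^r and (V(S) = P^r iff V(U) = P^r) (Valuation.map_add_eq_of_lt..). -/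

theorem t7_tm (hp : p.Prime) (hin : Prime (p : 𝓞 F)) (hψ : ψ (Ideal.span {(p : 𝓞 F)}) = -(p : 𝓞 F)) (hR : ∀ v ∈ R, (p : 𝓞 K) ∈ v.asIdeal) (d : ℕ)
    (hd : (∏ v ∈ R, Ideal.absNorm v.asIdeal) = p ^ (2 * d)) :
    tm (PsiP K ψ) 1 (∏ v ∈ R, v.asIdeal) * (p : ℂ) ^ d = (-1) ^ d := by
  have h0 : Ideal.span {(p : 𝓞 F)} ≠ ⊥ := by
    rw [Ne, Ideal.span_singleton_eq_bot]
    exact hin.ne_zero
  have hprime : (Ideal.span {(p : 𝓞 F)}).IsPrime := (Ideal.span_singleton_prime hin.ne_zero).2 hin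
  have hmax : (Ideal.span {(p : 𝓞 F)}).IsMaximal := hprime.isMaximal h0
  have key1 : ∀ v ∈ R, ∃ e : ℕ, Ideal.relNorm (𝓞 F) v.asIdeal = (Ideal.span {(p : 𝓞 F)}) ^ e := by
    intro v hv
    have h1 : Ideal.span {(p : 𝓞 F)} ≤ v.asIdeal.under (𝓞 F) := by
      rw [Ideal.span_singleton_le_iff_mem]
      show algebraMap (𝓞 F) (𝓞 K) (p : 𝓞 F) ∈ v.asIdeal
      rw [map_natCast]
      exact hR v hv
    have h2 : v.asIdeal.under (𝓞 F) ≠ ⊤ := by
      intro h3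
      apply v.isPrime.ne_top
      rw [Ideal.eq_top_iff_one] at h3 ⊢
      have h4 : algebraMap (𝓞 F) (𝓞 K) 1 ∈ v.asIdeal := h3
      rwa [map_one] at h4
    have h3 := hmax.eq_of_le h2 h1
    have h4 : v.asIdeal.LiesOver (Ideal.span {(p : 𝓞 F)}) := ⟨h3⟩
    have h5 := v.isPrime
    exact Ideal.exists_relNorm_eq_pow_of_isPrime v.asIdeal (Ideal.span {(p : 𝓞 F)})
  classical
  have key2 : ∀ S : Finset (HeightOneSpectrum (𝓞 K)), S ⊆ R → ∃ e : ℕ,
      Ideal.relNorm (𝓞 F) (∏ v ∈ S, v.asIdeal) = (Ideal.span {(p : 𝓞 F)}) ^ e := by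
    intro S
    induction S using Finset.induction_on with
    | empty =>
      intro _
      refine ⟨0, ?_⟩
      rw [Finset.prod_empty, map_one, pow_zero]
    | insert v S hv ih =>
      intro hS
      obtain ⟨e, he⟩ := ih fun w hw => hS (Finset.mem_insert_of_mem hw)
      obtain ⟨e', he'⟩ := key1 v (hS (Finset.mem_insert_self _ _))
      refine ⟨e' + e, ?_⟩
      rw [Finset.prod_insert hv, map_mul, he, he', pow_add]
  obtain ⟨e, he⟩ := key2 R (Finset.Subset.refl R)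
  have h5 : Ideal.absNorm (∏ v ∈ R, v.asIdeal) = p ^ (2 * e) := by
    rw [← Ideal.absNorm_relNorm (𝓞 F), he, map_pow, pt8_norm, IQ.deg, ← pow_mul]
  have h6 : Ideal.absNorm (∏ v ∈ R, v.asIdeal) = p ^ (2 * d) := by
    rw [map_prod, hd]
  have h7 : e = d := by
    have h8 := Nat.pow_right_injective hp.two_le (h5.symm.trans h6)
    have h9 : 2 * e = 2 * d := h8
    omega
  have h8 : PsiP K ψ (∏ v ∈ R, v.asIdeal) = (-(p : ℂ)) ^ d := by
    rw [PsiP_apply, he, h7, map_pow, hψ, map_pow, map_neg, map_natCast, map_pow, map_neg, map_natCast]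
  have hp0 : (p : ℂ) ≠ 0 := by exact_mod_cast hp.ne_zero
  unfold tm
  rw [h8, h6, Complex.cpow_neg_one]
  push_cast
  rw [neg_pow, two_mul, pow_add]
  field_simp

theorem t7_cmp {s u e : ℂ} {γ : V.ValueGroup} (he : V.valuation e = 1) (h1 : V.valuation (s - e * u) < γ) (h2 : V.valuation u ≤ γ) :
    V.valuation s ≤ γ ∧ (V.valuation s = γ ↔ V.valuation u = γ) := by
  have h3 : V.valuation (e * u) = V.valuation u := by rw [map_mul, he, one_mul]
  have h4 : s = (s - e * u) + e * u := by ring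
  refine ⟨?_, ?_, ?_⟩
  · rw [h4]
    exact Valuation.map_add_le _ h1.le (by rw [h3]; exact h2)
  · intro h5
    by_contra h6
    have h7 : V.valuation u < γ := lt_of_le_of_ne h2 h6
    have h8 : V.valuation s < γ := by
      rw [h4]
      exact Valuation.map_add_lt _ h1 (by rw [h3]; exact h7)
    exact absurd h5 h8.ne
  · intro h5
    have h6 : V.valuation (s - e * u) < V.valuation (e * u) := by
      rw [h3, h5]
      exact h1
    rw [h4, Valuation.map_add_eq_of_lt_right _ h6, h3, h5]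

end SSR
end

-- from Lib.SSR.T8
section

open NumberField IsDedekindDomain

namespace SSR

open H55N H55P SSG SSG.E
open H55Z (HasL)

variable {F : Type} [Field F] [NumberField F] [IQ F] {K : Type} [Field K] [NumberField K] [Algebra F K]

/-! Chunk T8 (M). Assembly: the twist theorem. PROOF. m with finrank F K = m + 1. t4_dat gives the data hD, S i: exists_RpU (SSG/E/W11: mK K M * f * b i ≠ ⊥: hD.cl.bot, cd.ne; p^2 ≠ 0). t5_tw: vχ, Bχ; t5_base: B₁, W; t6_cong: δ, d. Put g = m + 1, P = V(p) > 0, y_χ = δ vχ / Om^g, E = prod_(w ∈ W) (1 - tm (PsiP) 1 w).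
The first complex number of t6_cong is s = p^(2g) Bχ y_χ (t5_tw: Σ .. = (p^2)^g Bχ vχ), the second (for v₁ with HasL (PsiP) v₁) u = p^(2g) tm(P_R) B₁ E y₁, y₁ = δ v₁ / Om^g (t5_base), and V(tm(P_R)) P^d = 1 (t7_tm). t7_cmp with e = (-1)^card R, γ = P^(2g-d): V(s) ≤ γ: P^(2g) V(y_χ) ≤ P^(2g-d), i.e.
V(y_χ) P^d ≤ 1; fourth power: V(vχ/Om^g)^4 V(δ)^4 P^(4d) = V(vχ/Om^g)^4 V(discr K) V(absNorm prod)^2 = V(vχ/Om^g)^4 V(cR R) (cR, prod absNorm = p^(2d); pay attention to casts) ≤ 1: first conclusion (LVCI from HasL: unfold). Equality iff V(s) = γ iff V(u) = γ iff V(E y₁) = 1 (V(u) = P^(2g) P^(-d) V(E y₁); V(B₁) = 1;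
here V(u) ≤ γ gives V(E y₁) ≤ 1). t8_tw: needs HasL of the base: hypothesis. t8_base = t8_tw for f = ⊤, R = ∅, χ = oneI ⊤ (t1_triv, t1_one; cR ∅ = discr K): LVCI F V Om (discr K) (PsiP K ψ).
Then tw_main: base value Λ₁(1) = v₁ from t8_base. V(E) ≤ 1 and V(E) = 1 iff all factors have V = 1 (finite product of elements ≤ 1) iff V(1 - conj PsiP w) = 1 for all w ⊇ f (H55P.tm_one, w coprime to (p) since f is: I1.lean). With a = V(v₁/Om^g)^4 V(discr K) ≤ 1 (t8_base) and V(E) ≤ 1: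
V(E v₁/Om^g)^4 V(discr K) = V(E)^4 a = 1 iff a = 1 and V(E) = 1. Uniqueness of the value: LVC for the twisted series is existential: use H55N.ident (as hasL_uniq in SSG/S/A4) to compare Λ 1 of two continuations. -/

theorem t8_pow4 {Γ : Type} [LinearOrderedCommGroupWithZero Γ] (z : Γ) : (z ^ 4 ≤ 1 ↔ z ≤ 1) ∧ (z ^ 4 = 1 ↔ z = 1) := by
  have h1 : z ^ 4 = 1 ↔ z = 1 := by
    have h := pow_left_inj₀ (a := z) (b := 1) zero_le zero_le (n := 4) (by norm_num)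
    rwa [one_pow] at h
  have h2 : z ^ 4 ≤ 1 ↔ z ≤ 1 := by
    have h := pow_le_pow_iff_left₀ (a := z) (b := 1) zero_le zero_le (n := 4) (by norm_num)
    rwa [one_pow] at h
  exact ⟨h2, h1⟩

/-- The first number. -/
theorem t8_s {Γ : Type} [LinearOrderedCommGroupWithZero Γ] {P D x s : Γ} {g d : ℕ} (hP : P ≠ 0) (hd : d ≤ 2 * g)
    (hs : s = D * (P ^ (2 * g) * x)) : (s ≤ P ^ (2 * g - d) ↔ x ^ 4 * (D ^ 4 * (P ^ (2 * d)) ^ 2) ≤ 1) ∧
      (s = P ^ (2 * g - d) ↔ x ^ 4 * (D ^ 4 * (P ^ (2 * d)) ^ 2) = 1) := by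
  have hPd : P ^ d ≠ 0 := pow_ne_zero _ hP
  have hPg : P ^ (2 * g) ≠ 0 := pow_ne_zero _ hP
  have e1 : P ^ (2 * g - d) = P ^ (2 * g) / P ^ d := by
    rw [eq_div_iff hPd, ← pow_add, Nat.sub_add_cancel hd]
  have e2 : x ^ 4 * (D ^ 4 * (P ^ (2 * d)) ^ 2) = (x * D * P ^ d) ^ 4 := by
    have e0 : (P ^ (2 * d)) ^ 2 = (P ^ d) ^ 4 := by
      rw [← pow_mul, ← pow_mul]
      congr 1
      ring
    rw [e0, mul_pow, mul_pow, mul_assoc]
  have e3 : s = P ^ (2 * g) / P ^ d * (x * D * P ^ d) := by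
    rw [hs]
    field_simp
  have h0 : 0 < P ^ (2 * g) / P ^ d := zero_lt_iff.2 (div_ne_zero hPg hPd)
  obtain ⟨h1, h2⟩ := t8_pow4 (x * D * P ^ d)
  rw [e2, h1, h2, e1, e3]
  constructor
  · constructor
    · intro h
      rw [← mul_one (P ^ (2 * g) / P ^ d), mul_assoc, one_mul] at h
      exact le_of_mul_le_mul_left h h0
    · intro h
      calc P ^ (2 * g) / P ^ d * (x * D * P ^ d) ≤ P ^ (2 * g) / P ^ d * 1 := mul_le_mul_right h _
        _ = P ^ (2 * g) / P ^ d := mul_one _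
  · constructor
    · intro h
      exact mul_left_cancel₀ h0.ne' (h.trans (mul_one _).symm)
    · intro h
      rw [h, mul_one]

/-- The second number. -/
theorem t8_u {Γ : Type} [LinearOrderedCommGroupWithZero Γ] {P D y t u : Γ} {g d : ℕ} (hP : P ≠ 0) (hd : d ≤ 2 * g) (ht : t * P ^ d = 1)
    (hu : u = D * (P ^ (2 * g) * (t * y))) : u = P ^ (2 * g - d) ↔ y ^ 4 * D ^ 4 = 1 := by
  have hPd : P ^ d ≠ 0 := pow_ne_zero _ hP
  have hPg : P ^ (2 * g) ≠ 0 := pow_ne_zero _ hP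
  have e1 : P ^ (2 * g - d) = P ^ (2 * g) / P ^ d := by
    rw [eq_div_iff hPd, ← pow_add, Nat.sub_add_cancel hd]
  have e2 : t = 1 / P ^ d := by
    rw [eq_div_iff hPd]
    exact ht
  have e3 : u = P ^ (2 * g) / P ^ d * (y * D) := by
    rw [hu, e2]
    field_simp
  have h0 : P ^ (2 * g) / P ^ d ≠ 0 := div_ne_zero hPg hPd
  rw [e1, e3, ← mul_pow, (t8_pow4 (y * D)).2]
  constructor
  · intro h
    exact mul_left_cancel₀ h0 (h.trans (mul_one _).symm)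
  · intro h
    rw [h, mul_one]

theorem t8_tw {p : ℕ} [Fact p.Prime] {M : Ideal (𝓞 F)} {ψ : Ideal (𝓞 F) →*₀ 𝓞 F} {Om : ℂ} (hS : SCtx p M ψ Om)
    (V : ValuationSubring ℂ) (hV : V.valuation (p : ℂ) < 1) (hNT : NTP K p M ψ V)
    {f : Ideal (𝓞 K)} {R : Finset (HeightOneSpectrum (𝓞 K))} {χ : Ideal (𝓞 K) →*₀ ℂ} (hχ : PCh p f R χ) :
    ∃ vχ : ℂ, HasL (PsiP K ψ * χ : Ideal (𝓞 K) →*₀ ℂ) vχ ∧
      V.valuation (vχ / Om ^ Module.finrank F K) ^ 4 * V.valuation (cR R) ≤ 1 ∧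
      ∃ W : Finset (HeightOneSpectrum (𝓞 K)), (∀ w, w ∈ W ↔ f ≤ w.asIdeal) ∧ ∀ v₁ : ℂ, HasL (PsiP K ψ) v₁ →
        (V.valuation (vχ / Om ^ Module.finrank F K) ^ 4 * V.valuation (cR R) = 1 ↔
          V.valuation ((∏ w ∈ W, (1 - tm (PsiP K ψ) 1 w.asIdeal)) * v₁ / Om ^ Module.finrank F K) ^ 4 *
            V.valuation ((NumberField.discr K : ℤ) : ℂ) = 1) := by
  classical
  have hp : p.Prime := Fact.out
  obtain ⟨m, hm⟩ : ∃ m, Module.finrank F K = m + 1 :=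
    ⟨Module.finrank F K - 1, (Nat.sub_add_cancel Module.finrank_pos).symm⟩
  have hpp0 : (p : 𝓞 F) ≠ 0 := Nat.cast_ne_zero.2 hp.ne_zero
  have hin : Prime (p : 𝓞 F) := (Ideal.span_singleton_prime hpp0).1 hS.inert
  obtain ⟨ι, hι, b, c₀, T, κ, c, q, val, hD⟩ := t4_dat hS hV hNT hm hχ
  have hex : ∀ x, ∃ S : Finset (𝓞 K), RpU (mK K M * f * b x) (c₀ x) (p ^ 2) S := fun x =>
    SSG.S.exists_RpU _ (mul_ne_zero hD.cl.bot (hD.cl.cd.ne x)) _ _ (pow_ne_zero _ hp.ne_zero)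
  choose S hSr using hex
  obtain ⟨Bχ, vχ, hL, hB, e1⟩ := t5_tw hS.hecke hS.cop hm hV hχ hD S hSr
  obtain ⟨B₁, W, hB₁, hW, e2⟩ := t5_base hS.hecke hχ hD S hSr
  obtain ⟨δ, d, hd, hδ0, hδV, hN, h1, h2⟩ := t6_cong hS hV hm hχ hD S hSr
  have hpC : (p : ℂ) ≠ 0 := Nat.cast_ne_zero.2 hp.ne_zero
  have hP : V.valuation (p : ℂ) ≠ 0 := (Valuation.ne_zero_iff _).2 hpC
  have hd2 : d ≤ 2 * (m + 1) := by omega
  obtain ⟨s, hs⟩ : ∃ s, s = δ / Om ^ (m + 1) * (∑ i, κ i * (χ (b i))⁻¹ * (Ideal.absNorm (b i) : ℂ) *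
      ∑ a ∈ S i, χ (Ideal.span {a}) * val i a) := ⟨_, rfl⟩
  obtain ⟨u, hu⟩ : ∃ u, u = δ / Om ^ (m + 1) * (∑ i, κ i * (Ideal.absNorm (b i) : ℂ) *
      ∑ a ∈ S i, indI (∏ v ∈ R, v.asIdeal) a * val i a) := ⟨_, rfl⟩
  rw [← hs, ← hu] at h1
  rw [← hu] at h2
  have hsV : V.valuation s = V.valuation δ * (V.valuation (p : ℂ) ^ (2 * (m + 1)) * V.valuation (vχ / Om ^ (m + 1))) := by
    have h3 : s = δ * ((p : ℂ) ^ (2 * (m + 1)) * (Bχ * (vχ / Om ^ (m + 1)))) := by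
      have h4 : Bχ * vχ = (((p : ℂ) ^ 2)⁻¹) ^ (m + 1) * ∑ i, κ i * (χ (b i))⁻¹ * (Ideal.absNorm (b i) : ℂ) *
          ∑ a ∈ S i, χ (Ideal.span {a}) * val i a := by
        rw [e1, Finset.mul_sum]
        refine Finset.sum_congr rfl fun x _ => ?_
        ring
      have h5 : (∑ i, κ i * (χ (b i))⁻¹ * (Ideal.absNorm (b i) : ℂ) * ∑ a ∈ S i, χ (Ideal.span {a}) * val i a) =
          (p : ℂ) ^ (2 * (m + 1)) * (Bχ * vχ) := by
        have h6 : (((p : ℂ) ^ 2)⁻¹) ^ (m + 1) = ((p : ℂ) ^ (2 * (m + 1)))⁻¹ := by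
          rw [inv_pow, ← pow_mul]
        rw [h4, h6, mul_inv_cancel_left₀ (pow_ne_zero _ hpC)]
      rw [hs, h5]
      ring
    rw [h3, map_mul, map_mul, map_mul, hB, one_mul, map_pow]
  have hcR : V.valuation (cR R) = V.valuation δ ^ 4 * (V.valuation (p : ℂ) ^ (2 * d)) ^ 2 := by
    unfold cR
    rw [hN, map_mul, ← hδV, map_pow]
    push_cast
    rw [map_pow]
  have hcmp := t7_cmp (V := V) (s := s) (u := u) (e := (-1) ^ R.card)
    (by rw [map_pow, Valuation.map_neg, map_one, one_pow]) h1 h2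
  have hs2 := t8_s hP hd2 hsV
  rw [hm, hcR]
  refine ⟨vχ, hL, hs2.1.1 hcmp.1, W, hW, fun v₁ hv₁ => ?_⟩
  have e3 := e2 v₁ hv₁
  obtain ⟨E, hE⟩ : ∃ E, E = ∏ w ∈ W, (1 - tm (PsiP K ψ) 1 w.asIdeal) := ⟨_, rfl⟩
  rw [← hE] at e3 ⊢
  have htm : V.valuation (tm (PsiP K ψ) 1 (∏ v ∈ R, v.asIdeal)) * V.valuation (p : ℂ) ^ d = 1 := by
    have h3 := congrArg V.valuation (t7_tm hp hin hS.val hχ.abv d hN)
    rw [map_mul, map_pow, map_pow, Valuation.map_neg, map_one, one_pow] at h3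
    exact h3
  have huV : V.valuation u = V.valuation δ * (V.valuation (p : ℂ) ^ (2 * (m + 1)) *
      (V.valuation (tm (PsiP K ψ) 1 (∏ v ∈ R, v.asIdeal)) * V.valuation (E * v₁ / Om ^ (m + 1)))) := by
    have h3 : u = δ * ((p : ℂ) ^ (2 * (m + 1)) * (tm (PsiP K ψ) 1 (∏ v ∈ R, v.asIdeal) * (B₁ * (E * v₁ / Om ^ (m + 1))))) := by
      have h4 : tm (PsiP K ψ) 1 (∏ v ∈ R, v.asIdeal) * (B₁ * (E * v₁)) =
          (((p : ℂ) ^ 2)⁻¹) ^ (m + 1) * ∑ i, κ i * (Ideal.absNorm (b i) : ℂ) *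
          ∑ a ∈ S i, indI (∏ v ∈ R, v.asIdeal) a * val i a := by
        rw [e3, Finset.mul_sum]
        refine Finset.sum_congr rfl fun x _ => ?_
        ring
      have h5 : (∑ i, κ i * (Ideal.absNorm (b i) : ℂ) * ∑ a ∈ S i, indI (∏ v ∈ R, v.asIdeal) a * val i a) =
          (p : ℂ) ^ (2 * (m + 1)) * (tm (PsiP K ψ) 1 (∏ v ∈ R, v.asIdeal) * (B₁ * (E * v₁))) := by
        have h6 : (((p : ℂ) ^ 2)⁻¹) ^ (m + 1) = ((p : ℂ) ^ (2 * (m + 1)))⁻¹ := by
          rw [inv_pow, ← pow_mul]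
        rw [h4, h6, mul_inv_cancel_left₀ (pow_ne_zero _ hpC)]
      rw [hu, h5]
      ring
    rw [h3, map_mul, map_mul, map_mul, map_mul, hB₁, one_mul, map_pow]
  have hu2 := t8_u hP hd2 htm huV
  rw [← hδV]
  exact hs2.2.symm.trans (hcmp.2.trans hu2)

end SSR
end

-- from Lib.SSR.T9
section

open NumberField IsDedekindDomain

namespace SSR

open H55N H55P
open H55Z (HasL)

variable {F : Type} [Field F] [NumberField F] [IQ F] {K : Type} [Field K] [NumberField K] [Algebra F K]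

/-! Chunk T9 (S/M). PROOF from t8_tw: see the second half of the docstring of T8 (t9_base: f = ⊤, R = ∅, χ = oneI ⊤ with t1_triv, t1_one, cR ∅ = discr K: simp [cR]; t9_main: E, H55P.tm_one of I1.lean, uniqueness of the value by H55N.ident). -/

/-- The value is unique. -/
theorem t9_uniq {h : Ideal (𝓞 K) → ℂ} {v v' : ℂ} (h1 : HasL h v) (h2 : HasL h v') : v = v' := by
  obtain ⟨Λ, a1, a2, rfl⟩ := h1
  obtain ⟨Λ', b1, b2, rfl⟩ := h2
  exact ident Λ Λ' a1 b1 (fun s hs => (a2 s hs).unique (b2 s hs)) 1 (by norm_num)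

theorem t9_lvc {V : ValuationSubring ℂ} {Om c : ℂ} {h : Ideal (𝓞 K) →*₀ ℂ} {v : ℂ} (hL : HasL h v) :
    LVC F V Om c h ↔ V.valuation (v / Om ^ Module.finrank F K) ^ 4 * V.valuation c = 1 := by
  constructor
  · rintro ⟨Λ, a1, a2, a3⟩
    rw [t9_uniq hL ⟨Λ, a1, a2, rfl⟩]
    exact a3
  · intro h1
    obtain ⟨Λ, a1, a2, rfl⟩ := hL
    exact ⟨Λ, a1, a2, h1⟩

theorem t9_pow4 {Γ : Type} [LinearOrderedCommGroupWithZero Γ] {e a : Γ} (he : e ≤ 1) (ha : a ≤ 1) :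
    e ^ 4 * a = 1 ↔ a = 1 ∧ e = 1 := by
  constructor
  · intro h
    have h1 : e ^ 4 ≤ 1 := pow_le_one₀ zero_le he
    have h2 : a = 1 := by
      refine le_antisymm ha ?_
      rw [← h]
      exact mul_le_of_le_one_left' h1
    refine ⟨h2, ?_⟩
    rw [h2, mul_one] at h
    have h3 := pow_left_inj₀ (a := e) (b := 1) zero_le zero_le (n := 4) (by norm_num)
    rw [one_pow] at h3
    exact h3.1 h
  · rintro ⟨h1, h2⟩
    rw [h1, h2, one_pow, one_mul]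

theorem t9_prod {Γ : Type} [LinearOrderedCommGroupWithZero Γ] {α : Type} [DecidableEq α] (W : Finset α) (g : α → Γ) (hg : ∀ w ∈ W, g w ≤ 1) :
    (∏ w ∈ W, g w) ≤ 1 ∧ ((∏ w ∈ W, g w) = 1 ↔ ∀ w ∈ W, g w = 1) := by
  induction W using Finset.induction_on with
  | empty =>
    rw [Finset.prod_empty]
    exact ⟨le_rfl, fun _ w hw => absurd hw (Finset.notMem_empty w), fun _ => rfl⟩
  | insert x W hx ih =>
    obtain ⟨h1, h2⟩ := ih fun w hw => hg w (Finset.mem_insert_of_mem hw)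
    have h3 := hg x (Finset.mem_insert_self x W)
    rw [Finset.prod_insert hx]
    refine ⟨mul_le_one' h3 h1, ?_, ?_⟩
    · intro h4
      have h5 : g x = 1 := by
        refine le_antisymm h3 ?_
        rw [← h4]
        exact mul_le_of_le_one_right' h1
      rw [h5, one_mul] at h4
      intro w hw
      rcases Finset.mem_insert.1 hw with h6 | h6
      · rw [h6]
        exact h5
      · exact h2.1 h4 w h6
    · intro h4
      rw [h4 x (Finset.mem_insert_self x W), h2.2 fun w hw => h4 w (Finset.mem_insert_of_mem hw), mul_one]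

theorem t9_base {p : ℕ} [Fact p.Prime] {M : Ideal (𝓞 F)} {ψ : Ideal (𝓞 F) →*₀ 𝓞 F} {Om : ℂ} (hS : SCtx p M ψ Om)
    (V : ValuationSubring ℂ) (hV : V.valuation (p : ℂ) < 1) (hNT : NTP K p M ψ V) :
    LVCI F V Om ((NumberField.discr K : ℤ) : ℂ) (PsiP K ψ) := by
  have hp : p.Prime := Fact.out
  obtain ⟨vχ, hL, h1, -⟩ := t8_tw hS V hV hNT (t1_triv (K := K) hp)
  rw [t1_one] at hL
  obtain ⟨Λ, a1, a2, rfl⟩ := hL
  refine ⟨Λ, a1, a2, ?_⟩
  have h2 : cR (∅ : Finset (HeightOneSpectrum (𝓞 K))) = ((NumberField.discr K : ℤ) : ℂ) := by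
    unfold cR
    rw [Finset.prod_empty, Nat.cast_one, one_pow, mul_one]
  rw [h2] at h1
  exact h1

theorem t9_main {p : ℕ} [Fact p.Prime] {M : Ideal (𝓞 F)} {ψ : Ideal (𝓞 F) →*₀ 𝓞 F} {Om : ℂ} (hS : SCtx p M ψ Om)
    (V : ValuationSubring ℂ) (hV : V.valuation (p : ℂ) < 1) (hNT : NTP K p M ψ V)
    {f : Ideal (𝓞 K)} {R : Finset (HeightOneSpectrum (𝓞 K))} {χ : Ideal (𝓞 K) →*₀ ℂ} (hχ : PCh p f R χ) :
    LVCI F V Om (cR R) (PsiP K ψ * χ : Ideal (𝓞 K) →*₀ ℂ) ∧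
    (LVC F V Om (cR R) (PsiP K ψ * χ : Ideal (𝓞 K) →*₀ ℂ) ↔
      LVC F V Om ((NumberField.discr K : ℤ) : ℂ) (PsiP K ψ) ∧
        ∀ w : HeightOneSpectrum (𝓞 K), f ≤ w.asIdeal → V.valuation (1 - (starRingEnd ℂ) (PsiP K ψ w.asIdeal)) = 1) := by
  classical
  have hp : p.Prime := Fact.out
  obtain ⟨vχ, hL, h1, W, hW, h2⟩ := t8_tw hS V hV hNT hχ
  have hL0 := hL
  refine ⟨?_, ?_⟩
  · obtain ⟨Λ, a1, a2, rfl⟩ := hL0
    exact ⟨Λ, a1, a2, h1⟩
  obtain ⟨Λ₁, b1, b2, b3⟩ := t9_base hS V hV hNT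
  have hL1 : HasL (PsiP K ψ) (Λ₁ 1) := ⟨Λ₁, b1, b2, rfl⟩
  rw [t9_lvc hL, t9_lvc hL1, h2 _ hL1]
  have hcopw : ∀ w : HeightOneSpectrum (𝓞 K), f ≤ w.asIdeal → IsCoprime w.asIdeal (Ideal.span {(p : 𝓞 K)}) := by
    intro w hw
    rw [Ideal.isCoprime_iff_sup_eq]
    have h3 := Ideal.isCoprime_iff_sup_eq.1 hχ.cop
    exact top_le_iff.1 (h3.symm.le.trans (sup_le_sup_right hw _))
  have htm := fun w (hw : w ∈ W) => tm_one p hp V hV hS.hecke w (hcopw w ((hW w).1 hw))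
  obtain ⟨E, hE⟩ : ∃ E, E = ∏ w ∈ W, (1 - tm (PsiP K ψ) 1 w.asIdeal) := ⟨_, rfl⟩
  have hEV : V.valuation E = ∏ w ∈ W, V.valuation (1 - tm (PsiP K ψ) 1 w.asIdeal) := by
    rw [hE, map_prod]
  obtain ⟨h3, h4⟩ := t9_prod W (fun w => V.valuation (1 - tm (PsiP K ψ) 1 w.asIdeal)) fun w hw => (htm w hw).1
  rw [← hEV] at h3 h4
  rw [← hE]
  have e1 : V.valuation (E * Λ₁ 1 / Om ^ Module.finrank F K) ^ 4 * V.valuation ((NumberField.discr K : ℤ) : ℂ) =
      V.valuation E ^ 4 * (V.valuation (Λ₁ 1 / Om ^ Module.finrank F K) ^ 4 * V.valuation ((NumberField.discr K : ℤ) : ℂ)) := by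
    rw [mul_div_assoc, map_mul, mul_pow, mul_assoc]
  rw [e1, t9_pow4 h3 b3, h4]
  refine and_congr Iff.rfl ⟨fun h5 w hw => ?_, fun h5 w hw => ?_⟩
  · exact (htm w ((hW w).2 hw)).2.1 (h5 w ((hW w).2 hw))
  · exact (htm w hw).2.2 (h5 w ((hW w).1 hw))

end SSR
end

-- from Lib.SSR.TW
section

/-! # SSR, part T: the twist theorem (interface; proved by the modules G, H, T) -/

open NumberField IsDedekindDomain WeierstrassCurve

namespace SSR

open H55N H55P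

variable {F : Type} [Field F] [NumberField F] [IQ F] {K : Type} [Field K] [NumberField K] [Algebra F K]

/-- Integrality over an arbitrary number field K. -/
theorem tw_base {p : ℕ} [Fact p.Prime] {M : Ideal (𝓞 F)} {ψ : Ideal (𝓞 F) →*₀ 𝓞 F} {Om : ℂ} (hS : SCtx p M ψ Om)
    (V : ValuationSubring ℂ) (hV : V.valuation (p : ℂ) < 1) (hNT : NTP K p M ψ V) :
    LVCI F V Om ((NumberField.discr K : ℤ) : ℂ) (PsiP K ψ) := by
  exact t9_base hS V hV hNT

/-- Twists by characters with conductor exponent 2 at the primes of R (above p), K arbitrary. -/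
theorem tw_main {p : ℕ} [Fact p.Prime] {M : Ideal (𝓞 F)} {ψ : Ideal (𝓞 F) →*₀ 𝓞 F} {Om : ℂ} (hS : SCtx p M ψ Om)
    (V : ValuationSubring ℂ) (hV : V.valuation (p : ℂ) < 1) (hNT : NTP K p M ψ V)
    {f : Ideal (𝓞 K)} {R : Finset (HeightOneSpectrum (𝓞 K))} {χ : Ideal (𝓞 K) →*₀ ℂ} (hχ : PCh p f R χ) :
    LVCI F V Om (cR R) (PsiP K ψ * χ : Ideal (𝓞 K) →*₀ ℂ) ∧
    (LVC F V Om (cR R) (PsiP K ψ * χ : Ideal (𝓞 K) →*₀ ℂ) ↔
      LVC F V Om ((NumberField.discr K : ℤ) : ℂ) (PsiP K ψ) ∧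
        ∀ w : HeightOneSpectrum (𝓞 K), f ≤ w.asIdeal → V.valuation (1 - (starRingEnd ℂ) (PsiP K ψ w.asIdeal)) = 1) := by
  exact t9_main hS V hV hNT hχ

end SSR
end

-- from Lib.SSU.A3
section

/-! # SSU, A3: one cyclic step of degree p, p inert in F, conductor exponents 2 at the ramified primes above p -/

open NumberField IsDedekindDomain

namespace SSU

open H55N H55P SSR
open H55R (es)
open H35M (LVO LVOi fT)
open H41D (vN vNc)

variable {F : Type} [Field F] [NumberField F] [IQ F] {p : ℕ} {M : Ideal (𝓞 F)} {ψ : Ideal (𝓞 F) →*₀ 𝓞 F} {Om : ℂ}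

section loc

variable {K : Type} [Field K] [NumberField K] [Algebra F K] {h : Ideal (𝓞 K) →*₀ ℂ} {Φ : ℂ → ℂ}
  (hΦa : AnalyticOnNhd ℂ Φ {s | 1 / 2 < s.re}) (hΦ : ∀ s : ℂ, 3 / 2 < s.re → HasSum (tm h s) (Φ s))
  (V : ValuationSubring ℂ)

include hΦa hΦ

theorem a3_one {Λ : ℂ → ℂ} (hΛa : AnalyticOnNhd ℂ Λ {s | 1 / 2 < s.re}) (hΛ : ∀ s : ℂ, 3 / 2 < s.re → HasSum (tm h s) (Λ s)) :
    Λ 1 = Φ 1 :=
  ident Λ Φ hΛa hΦa (fun s hs => (hΛ s hs).unique (hΦ s hs)) 1 (by norm_num)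

theorem a3_lvo : LVO F V Om h ↔
    V.valuation (Φ 1 / Om ^ Module.finrank F K) ^ 2 * vN F V (differentIdeal (𝓞 F) (𝓞 K)) = 1 := by
  constructor
  · rintro ⟨Λ, h1, h2, h3⟩
    rw [← a3_one hΦa hΦ h1 h2]
    exact h3
  · intro h3
    exact ⟨Φ, hΦa, hΦ, h3⟩

theorem a3_lvc {c : ℂ} : LVC F V Om c h ↔ V.valuation (Φ 1 / Om ^ Module.finrank F K) ^ 4 * V.valuation c = 1 := by
  constructor
  · rintro ⟨Λ, h1, h2, h3⟩
    rw [← a3_one hΦa hΦ h1 h2]
    exact h3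
  · intro h3
    exact ⟨Φ, hΦa, hΦ, h3⟩

end loc

/-- The fourth power and the discriminant against the square and the norm of the different. -/
theorem a3_sq (hp : p.Prime) (hI : (Ideal.span {(p : 𝓞 F)}).IsPrime) {V : ValuationSubring ℂ} (hV : V.valuation (p : ℂ) < 1)
    (K : Type) [Field K] [NumberField K] [Algebra F K] (z : ℂ) :
    V.valuation z ^ 4 * V.valuation ((discr K : ℤ) : ℂ) = (V.valuation z ^ 2 * vN F V (differentIdeal (𝓞 F) (𝓞 K))) ^ 2 := by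
  rw [val_discr' (F := F) V hp hV (inert_unr hp hI), inert_vN V hp hI hV, mul_pow, ← pow_mul, sq (vN F V _)]

theorem lvc_iff (hp : p.Prime) (hI : (Ideal.span {(p : 𝓞 F)}).IsPrime) {V : ValuationSubring ℂ} (hV : V.valuation (p : ℂ) < 1)
    {K : Type} [Field K] [NumberField K] [Algebra F K] (h : Ideal (𝓞 K) →*₀ ℂ) :
    LVC F V Om ((discr K : ℤ) : ℂ) h ↔ LVO F V Om h := by
  unfold LVC LVO
  refine exists_congr fun Λ => and_congr_right fun _ => and_congr_right fun _ => ?_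
  rw [a3_sq (F := F) hp hI hV]
  exact pow_eq_one_iff_of_nonneg zero_le two_ne_zero

theorem lvci_iff (hp : p.Prime) (hI : (Ideal.span {(p : 𝓞 F)}).IsPrime) {V : ValuationSubring ℂ} (hV : V.valuation (p : ℂ) < 1)
    {K : Type} [Field K] [NumberField K] [Algebra F K] (h : Ideal (𝓞 K) →*₀ ℂ) :
    LVCI F V Om ((discr K : ℤ) : ℂ) h ↔ LVOi F V Om h := by
  unfold LVCI LVOi
  refine exists_congr fun Λ => and_congr_right fun _ => and_congr_right fun _ => ?_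
  rw [a3_sq (F := F) hp hI hV]
  exact pow_le_one_iff_of_nonneg zero_le two_ne_zero

/-- The condition holds at the primes above p. -/
theorem cond_p (hp : p.Prime) (hI : (Ideal.span {(p : 𝓞 F)}).IsPrime) (hψ : ψ (Ideal.span {(p : 𝓞 F)}) = -(p : 𝓞 F))
    {V : ValuationSubring ℂ} (hV : V.valuation (p : ℂ) < 1) {K : Type} [Field K] [NumberField K] [Algebra F K]
    (w : HeightOneSpectrum (𝓞 K)) (hw : (p : 𝓞 K) ∈ w.asIdeal) :
    V.valuation (1 - (starRingEnd ℂ) (PsiP K ψ w.asIdeal)) = 1 := by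
  have hp0 : ((p : ℕ) : 𝓞 F) ≠ 0 := Nat.cast_ne_zero.2 hp.ne_zero
  have hpr : Prime ((p : ℕ) : 𝓞 F) := (Ideal.span_singleton_prime hp0).1 hI
  obtain ⟨k, hk, hN⟩ := H41D.relNorm_prime hpr w (by rw [map_natCast]; exact hw)
  have h1 : ψ (Ideal.relNorm (𝓞 F) w.asIdeal) = (-(p : 𝓞 F)) ^ k := by
    rw [hN, ← Ideal.span_singleton_pow, map_pow, hψ]
  have h2 : (starRingEnd ℂ) (PsiP K ψ w.asIdeal) = (-(p : ℂ)) ^ k := by
    rw [PsiP_apply, h1, Complex.conj_conj, map_pow, map_neg, map_natCast]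
  rw [h2]
  refine Valuation.map_one_sub_of_lt _ ?_
  rw [map_pow, Valuation.map_neg]
  exact pow_lt_one₀ zero_le hV hk

section step

variable [Fact p.Prime] (hS : SCtx p M ψ Om) {V : ValuationSubring ℂ} (hV : V.valuation (p : ℂ) < 1)

include hS hV

theorem lvoi_C (K : Type) [Field K] [NumberField K] [Algebra F K] (hNT : NTP K p M ψ V) : LVOi F V Om (PsiP K ψ) :=
  (lvci_iff Fact.out hS.inert hV _).1 (tw_base hS V hV hNT)

omit hS in
/-- The relative norm of the different of K'/F. -/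
theorem a3_diff (K K' : Type) [Field K] [NumberField K] [Algebra F K] [Field K'] [NumberField K'] [Algebra F K'] [Algebra K K']
    [IsScalarTower F K K'] [IsGalois K K'] (hn : Module.finrank K K' = p) {R : Finset (HeightOneSpectrum (𝓞 K))}
    (hR : ∀ v, v ∈ R ↔ (p : 𝓞 K) ∈ v.asIdeal ∧ es K K' v ≠ 1)
    (hT : ∀ v ∈ R, ∃ w : HeightOneSpectrum (𝓞 K'), TRam p v w 1) :
    vN F V (differentIdeal (𝓞 F) (𝓞 K')) = (vN F V (∏ v ∈ R, v.asIdeal) ^ 2) ^ (p - 1) * vN F V (differentIdeal (𝓞 F) (𝓞 K)) ^ p := by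
  have hp : p.Prime := Fact.out
  have hx0 : ((p : ℕ) : 𝓞 K) ≠ 0 := Nat.cast_ne_zero.2 hp.ne_zero
  obtain ⟨C, hC, hD⟩ := diff_stepX K K' hp hn hx0 (t := fun _ => 1) hR hT
  have he : eF F ((p : ℕ) : 𝓞 F) = (p : ℂ) := map_natCast _ _
  have hC1 : vN F V C = 1 := by
    refine H41D.vN_cop V (π := ((p : ℕ) : 𝓞 F)) (by rw [he]; exact hV) ?_
    rw [map_natCast]
    exact hC
  have hfT : fT R (fun _ => 1 + 1) = (∏ v ∈ R, v.asIdeal) ^ 2 := by
    unfold fT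
    rw [← Finset.prod_pow]
  rw [H41D.vN_diff_tower (K := K), hn, hD, H41D.vN_mul, H41D.vN_pow, hfT, H41D.vN_pow, hC1, mul_one]

/-- One step. -/
theorem stepC (K K' : Type) [Field K] [NumberField K] [Algebra F K] [Field K'] [NumberField K'] [Algebra F K'] [Algebra K K']
    [IsScalarTower F K K'] [IsGalois K K'] (hn : Module.finrank K K' = p) (hNT : NTP K p M ψ V)
    (hT : ∀ v : HeightOneSpectrum (𝓞 K), es K K' v ≠ 1 → (p : 𝓞 K) ∈ v.asIdeal → ∃ w : HeightOneSpectrum (𝓞 K'), TRam p v w 1) :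
    LVO F V Om (PsiP K' ψ) ↔ LVO F V Om (PsiP K ψ) ∧
      ∀ w : HeightOneSpectrum (𝓞 K), es K K' w ≠ 1 → V.valuation (1 - (starRingEnd ℂ) (PsiP K ψ w.asIdeal)) = 1 := by
  have hp : p.Prime := Fact.out
  have hI := hS.inert
  have hre : IsEmpty (K →+* ℝ) := H35M.sx3_real F K
  obtain ⟨f, R, ρ, hfp, hfv, hR, hρ⟩ := c2_rec hp hn (fun _ => 1) hT hre
  have hρ' : IsRc K K' p (f * ∏ v ∈ R, v.asIdeal ^ 2) ρ := hρ
  have hf : PCh p f R ρ := c3_pch p f R ρ hρ' hfp fun v hv => ((hR v).1 hv).1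
  have hs : SplitP K K' p ρ := c3_split p hp hn _ ρ hρ'
  obtain ⟨Λ₁, ha1, hs1, hi1⟩ := tw_base hS V hV hNT
  have htw := fun j => tw_main hS V hV hNT (c3_chp hf j)
  choose Λ hΛa hΛs hΛi using fun j => (htw j).1
  set n := Module.finrank F K with hnd
  set μ := vN F V (differentIdeal (𝓞 F) (𝓞 K)) with hμ
  set ν := vN F V (∏ v ∈ R, v.asIdeal) with hν
  have hdiff := a3_diff (F := F) hV K K' hn hR fun v hv => hT v ((hR v).1 hv).2 ((hR v).1 hv).1
  rw [← hμ, ← hν] at hdiff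
  -- the size of cR R
  have hcR : ∀ z : ℂ, V.valuation z ^ 4 * V.valuation (cR R) = (V.valuation z ^ 2 * μ * ν ^ 2) ^ 2 := by
    intro z
    have h1 : V.valuation ((∏ v ∈ R, Ideal.absNorm v.asIdeal : ℕ) : ℂ) = ν ^ 2 := by
      rw [← map_prod, H41D.val_absNorm (F := F), inert_vN V hp hI hV, ← sq]
    rw [cR, map_mul, map_pow, h1, ← mul_assoc, a3_sq (F := F) hp hI hV, ← mul_pow]
  -- the twists
  have hy : ∀ j, V.valuation (Λ j 1 / Om ^ n) ^ 2 * μ * ν ^ 2 ≤ 1 := by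
    intro j
    have h1 := hΛi j
    rw [hcR] at h1
    exact (pow_le_one_iff_of_nonneg zero_le two_ne_zero).1 h1
  have hx1 : V.valuation (Λ₁ 1 / Om ^ n) ^ 2 * μ ≤ 1 := by
    rw [a3_sq (F := F) hp hI hV] at hi1
    exact (pow_le_one_iff_of_nonneg zero_le two_ne_zero).1 hi1
  have hyj : ∀ j, V.valuation (Λ j 1 / Om ^ n) ^ 2 * μ * ν ^ 2 = 1 ↔ LVO F V Om (PsiP K ψ) ∧
      ∀ w : HeightOneSpectrum (𝓞 K), f ≤ w.asIdeal → V.valuation (1 - (starRingEnd ℂ) (PsiP K ψ w.asIdeal)) = 1 := by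
    intro j
    rw [← lvc_iff hp hI hV, ← (htw j).2, a3_lvc (hΛa j) (hΛs j), hcR]
    exact (pow_eq_one_iff_of_nonneg zero_le two_ne_zero).symm
  -- the value over K'
  have hΦa : AnalyticOnNhd ℂ (fun s => Λ₁ s * ∏ j ∈ Finset.range (p - 1), Λ j s) {s | 1 / 2 < s.re} := fun s hs' =>
    (ha1 s hs').mul (Finset.analyticAt_fun_prod _ fun j _ => hΛa j s hs')
  have hΦs : ∀ s : ℂ, 3 / 2 < s.re → HasSum (tm (PsiP K' ψ) s) (Λ₁ s * ∏ j ∈ Finset.range (p - 1), Λ j s) := fun s hs' =>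
    step_prodC K K' hS.hecke p hp ρ (fun j a => pch_norm_le hp.ne_zero (c3_chp hf j) a) hs Λ₁ hs1 Λ hΛs s hs'
  have h5 : Om ^ Module.finrank F K' = Om ^ n * ∏ j ∈ Finset.range (p - 1), Om ^ n := by
    rw [← Module.finrank_mul_finrank F K K', hn, pow_mul, Finset.prod_const, Finset.card_range,
      ← pow_succ', Nat.sub_add_cancel hp.one_le]
  have hval : V.valuation ((Λ₁ 1 * ∏ j ∈ Finset.range (p - 1), Λ j 1) / Om ^ Module.finrank F K') ^ 2 *
      vN F V (differentIdeal (𝓞 F) (𝓞 K')) =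
      (V.valuation (Λ₁ 1 / Om ^ n) ^ 2 * μ) * ∏ j ∈ Finset.range (p - 1), (V.valuation (Λ j 1 / Om ^ n) ^ 2 * μ * ν ^ 2) := by
    rw [h5, mul_div_mul_comm, ← Finset.prod_div_distrib, map_mul, map_prod, hdiff, Finset.prod_mul_distrib, Finset.prod_mul_distrib,
      Finset.prod_const, Finset.prod_const, Finset.card_range, Finset.prod_pow, mul_pow]
    have e : μ ^ p = μ * μ ^ (p - 1) := by
      rw [← pow_succ', Nat.sub_add_cancel hp.one_le]
    rw [e]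
    simp only [mul_assoc, mul_left_comm, mul_comm]
  rw [a3_lvo hΦa hΦs, hval]
  have hlvo := a3_lvo (F := F) (Om := Om) ha1 hs1 V
  constructor
  · intro h
    have hle : ∏ j ∈ Finset.range (p - 1), (V.valuation (Λ j 1 / Om ^ n) ^ 2 * μ * ν ^ 2) ≤ 1 :=
      Finset.prod_le_one' fun j _ => hy j
    have hp1 : ∏ j ∈ Finset.range (p - 1), (V.valuation (Λ j 1 / Om ^ n) ^ 2 * μ * ν ^ 2) = 1 := by
      refine le_antisymm hle ?_
      by_contra hlt
      have h11 := mul_lt_one_of_nonneg_of_lt_one_right hx1 zero_le (not_le.1 hlt)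
      rw [h] at h11
      exact lt_irrefl _ h11
    have h0 := (Finset.prod_eq_one_iff_of_le_one' fun j _ => hy j).1 hp1 0
      (Finset.mem_range.2 (Nat.sub_pos_of_lt hp.one_lt))
    obtain ⟨h6, h7⟩ := (hyj 0).1 h0
    refine ⟨h6, fun w hw => ?_⟩
    by_cases hpw : (p : 𝓞 K) ∈ w.asIdeal
    · exact cond_p hp hI hS.val hV w hpw
    · exact h7 w ((hfv w).2 ⟨hpw, hw⟩)
  · rintro ⟨h6, h7⟩
    rw [hlvo.1 h6, one_mul]
    exact Finset.prod_eq_one fun j _ => (hyj j).2 ⟨h6, fun w hw => h7 w ((hfv w).1 hw).2⟩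

end step

end SSU
end

-- from Lib.SSU.A4
section

/-! # SSU, A4: the tower, p inert in F, second ramification groups trivial at the primes above p -/

open NumberField IsDedekindDomain

namespace SSU

open H55N H55P SSR
open H55R (es)
open H35M (LVO LVOi)

section g2

variable {F : Type} [Field F] [NumberField F] {Ω : Type} [Field Ω] [Algebra F Ω]

variable [IsAlgClosure F Ω]

theorem g2_types {p : ℕ} (M N L : IntermediateField F Ω) [NumberField N] [NumberField L] (hMN : M ≤ N) (hNL : N ≤ L)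
    (hG : G2F p M L) (Q : Ideal (𝓞 L)) (hQ : Q.IsPrime) (hp : (p : 𝓞 L) ∈ Q) :
    letI : Algebra N L := s13_alg hNL
    G2 N Q := by
  letI : Algebra N L := s13_alg hNL
  have hac : IsAlgClosed Ω := IsAlgClosure.isAlgClosed F
  have halg : Algebra.IsAlgebraic F Ω := IsAlgClosure.isAlgebraic
  have halgN : Algebra.IsAlgebraic N Ω := Algebra.IsAlgebraic.tower_top (K := F) N
  have hclN : IsAlgClosure N Ω := ⟨hac, halgN⟩
  have hst : IsScalarTower N L Ω := IsScalarTower.of_algebraMap_eq fun x => rfl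
  have hnorm : Normal N Ω := normal_iff.2 fun x =>
    ⟨(Algebra.IsAlgebraic.isAlgebraic x).isIntegral, IsAlgClosed.splits _⟩
  intro s hs
  let σ : Ω ≃ₐ[N] Ω := s.liftNormal Ω
  have hσ : ∀ x : L, σ (x : Ω) = ((s x : L) : Ω) := fun x => s.liftNormal_commutes Ω x
  have hmem : σ.restrictScalars F ∈ M.fixingSubgroup := by
    rw [IntermediateField.mem_fixingSubgroup_iff]
    intro x hx
    exact σ.commutes (⟨x, hMN hx⟩ : N)
  have h1 := hG Q hQ hp (σ.restrictScalars F) hmem (fun x y hxy => by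
    have h2 : σ ((x : L) : Ω) = ((y : L) : Ω) := hxy
    rw [hσ] at h2
    have h3 : s (x : L) = (y : L) := Subtype.ext h2
    have h4 : s • x = y := by
      apply RingOfIntegers.coe_injective
      exact h3
    rw [← h4]
    exact hs x)
  refine AlgEquiv.ext fun x => Subtype.ext ?_
  have h2 := h1 (x : Ω) x.2
  have h3 : σ (x : Ω) = (x : Ω) := h2
  rw [hσ] at h3
  exact h3

theorem g2_TRam {p : ℕ} (hp : p.Prime) (M N K L : IntermediateField F Ω) (hL : PExt p M L) (hG : G2F p M L) [NumberField N]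
    [NumberField K] (hMN : M ≤ N) (hNK : N ≤ K) (hKL : K ≤ L) (hnorm : ∀ s ∈ N.fixingSubgroup, ∀ x ∈ K, s x ∈ K)
    (hdeg : Module.finrank F K = Module.finrank F N * p) :
    letI : Algebra N K := (IntermediateField.inclusion hNK).toRingHom.toAlgebra
    ∀ v : HeightOneSpectrum (𝓞 N), es N K v ≠ 1 → (p : 𝓞 N) ∈ v.asIdeal → ∃ w : HeightOneSpectrum (𝓞 K), TRam p v w 1 := by
  classical
  letI iNK : Algebra N K := (IntermediateField.inclusion hNK).toRingHom.toAlgebra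
  have hac : IsAlgClosed Ω := IsAlgClosure.isAlgClosed F
  have hal : Algebra.IsAlgebraic F Ω := IsAlgClosure.isAlgebraic
  have hcz : CharZero Ω := charZero_of_injective_algebraMap (FaithfulSMul.algebraMap_injective F Ω)
  have hLf : FiniteDimensional F L := hL.fin
  have hKf : FiniteDimensional F K := finDim_of_le hKL
  have hNf : FiniteDimensional F N := finDim_of_le hNK
  have hMf : FiniteDimensional F M := finDim_of_le hMN
  have hLn : NumberField L := H16C.FR_numberField L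
  obtain ⟨hst, hgal, hfr⟩ := chain_types p hp N K hNK hnorm hdeg
  intro v he hpv
  obtain ⟨t, w, ht⟩ := H35M.exists_TRam hp hfr v he hpv
  letI iKL : Algebra K L := s13_alg hKL
  letI iNL : Algebra N L := s13_alg (hNK.trans hKL)
  have t1 : IsScalarTower N K L := IsScalarTower.of_algebraMap_eq fun x => rfl
  have hNL : N ≤ L := hNK.trans hKL
  have hnormL : ∀ s ∈ N.fixingSubgroup, ∀ x ∈ L, s x ∈ L := fun s hs x hx =>
    hL.norm s (IntermediateField.fixingSubgroup_antitone hMN hs) x hx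
  have hgalL : IsGalois N L := s13_galois N L hNL hnormL
  -- the degree of L over N
  have hdegL : ∃ k : ℕ, Module.finrank N L = p ^ k := by
    obtain ⟨k, hk⟩ := hL.deg
    obtain ⟨j, hj⟩ := pext_deg p hp M N L hL hMN hNL
    have hstN : IsScalarTower F N L := IsScalarTower.of_algebraMap_eq fun x => rfl
    have h1 : Module.finrank F N * Module.finrank N L = Module.finrank F L := Module.finrank_mul_finrank F N L
    have hMN' : Module.finrank F N = Module.finrank F M * p ^ j := by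
      letI : Algebra M N := (IntermediateField.inclusion hMN).toRingHom.toAlgebra
      have h2 : IsScalarTower F M N := alg_tower M N hMN
      rw [← Module.finrank_mul_finrank F M N, hj]
    rw [hk, hMN', mul_assoc] at h1
    have hpos : 0 < Module.finrank F M := Module.finrank_pos
    have h2 : p ^ j * Module.finrank N L = p ^ k := Nat.eq_of_mul_eq_mul_left hpos h1
    obtain ⟨k', -, hk'⟩ := (Nat.dvd_prime_pow hp).1 (Dvd.intro_left _ h2)
    exact ⟨k', hk'⟩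
  obtain ⟨k, hk⟩ := hdegL
  have hwm := w.isMaximal
  obtain ⟨Q, hQ1, hQ2⟩ := Ideal.exists_maximal_ideal_liesOver_of_isIntegral (S := 𝓞 L) w.asIdeal
  have hQ0 : Q ≠ ⊥ := Ideal.ne_bot_of_liesOver_of_ne_bot w.ne_bot Q
  have hover : Q.under (𝓞 K) = w.asIdeal := hQ2.over.symm
  have hpw : (p : 𝓞 K) ∈ w.asIdeal := by
    have h1 : algebraMap (𝓞 N) (𝓞 K) (p : 𝓞 N) ∈ v.asIdeal.map (algebraMap (𝓞 N) (𝓞 K)) := Ideal.mem_map_of_mem _ hpv
    rw [ht.map, map_natCast] at h1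
    exact Ideal.pow_le_self hp.ne_zero h1
  have hpQ : (p : 𝓞 L) ∈ Q := by
    have h1 : (p : 𝓞 K) ∈ Q.under (𝓞 K) := by rw [hover]; exact hpw
    have h2 : algebraMap (𝓞 K) (𝓞 L) (p : 𝓞 K) ∈ Q := h1
    rwa [map_natCast] at h2
  have hG2 : G2 N Q := g2_types M N L hMN hNL hG Q hQ1.isPrime hpQ
  have hr := r8_main (N := N) (M := K) (L := L) p hp k hk ⟨Q, hQ1.isPrime, hQ0⟩ hpQ hG2 w hover
  have hw0 : v.asIdeal.map (algebraMap (𝓞 N) (𝓞 K)) ≠ ⊥ := by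
    rw [ht.map]
    exact pow_ne_zero _ w.ne_bot
  have hwp := w.isPrime
  have hvw : w.asIdeal.LiesOver v.asIdeal := by
    refine ⟨v.isMaximal.eq_of_le (Ideal.IsPrime.ne_top (Ideal.IsPrime.under (𝓞 N) w.asIdeal)) ?_⟩
    refine Ideal.le_comap_of_map_le ?_
    rw [ht.map]
    exact Ideal.pow_le_self hp.ne_zero
  have hidx : w.asIdeal.ramificationIdx (𝓞 N) = p := by
    rw [Ideal.IsDedekindDomain.ramificationIdx_eq_multiplicity v.asIdeal w.asIdeal hw0, ht.map]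
    exact multiplicity_pow_self_of_prime w.prime p
  rw [hidx, ht.dif] at hr
  have hp1 : 0 < p - 1 := Nat.sub_pos_of_lt hp.one_lt
  have ht1 : t = 1 := by
    have h1 : (p - 1) * (t + 1) = (p - 1) * 2 := by rw [hr, mul_comm]
    have h2 := Nat.eq_of_mul_eq_mul_left hp1 h1
    omega
  exact ⟨w, ht1 ▸ ht⟩

end g2

variable {F : Type} [Field F] [NumberField F] [IQ F] {Ω : Type} [Field Ω] [DecidableEq Ω] [Algebra F Ω] [IsAlgClosure F Ω]

omit [IQ F] [DecidableEq Ω] [IsAlgClosure F Ω] in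
theorem a4_self (K : IntermediateField F Ω) [NumberField K] (v : HeightOneSpectrum (𝓞 K))
    (hv : Ram K K v.asIdeal) : False := by
  obtain ⟨W, hWp, hW⟩ := hv
  have h1 : v.asIdeal ≤ W ^ 2 := fun x hx => hW x x hx rfl
  have hWn : W ≠ ⊥ := by
    rintro rfl
    apply v.ne_bot
    rw [eq_bot_iff]
    exact h1.trans (Ideal.pow_le_self two_ne_zero)
  have h2 : v.asIdeal = W := v.isMaximal.eq_of_le hWp.ne_top (h1.trans (Ideal.pow_le_self two_ne_zero))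
  have h3 : W ≤ W ^ 2 := h2 ▸ h1
  have h4 := Ideal.pow_right_strictAnti W hWn hWp.ne_top (show 1 < 2 by norm_num)
  have h4' : W ^ 2 < W ^ 1 := h4
  rw [pow_one] at h4'
  exact lt_irrefl _ (lt_of_lt_of_le h4' h3)

/-- The tower. -/
theorem tower_C {Om : ℂ} {mo : Ideal (𝓞 F)} {ψ : Ideal (𝓞 F) →*₀ 𝓞 F} {p : ℕ} [Fact p.Prime] (hS : SCtx p mo ψ Om)
    {V : ValuationSubring ℂ} (hV : V.valuation (p : ℂ) < 1)
    (M L : IntermediateField F Ω) (hL : PExt p M L) (hG : G2F p M L) [NumberField M] (hNT : NTP M p mo ψ V)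
    (K : IntermediateField F Ω) [NumberField K] (hMK : M ≤ K) (hKL : K ≤ L) :
    LVO F V Om (PsiP K ψ) ↔ LVO F V Om (PsiP M ψ) ∧ ∀ v : HeightOneSpectrum (𝓞 M), Ram M K v.asIdeal →
      V.valuation (1 - (starRingEnd ℂ) (PsiP M ψ v.asIdeal)) = 1 := by
  have hac : IsAlgClosed Ω := IsAlgClosure.isAlgClosed F
  have hal : Algebra.IsAlgebraic F Ω := IsAlgClosure.isAlgebraic
  have hcz : CharZero Ω := charZero_of_injective_algebraMap (FaithfulSMul.algebraMap_injective F Ω)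
  have hp : p.Prime := Fact.out
  have hLf : FiniteDimensional F L := hL.fin
  have hMf : FiniteDimensional F M := finDim_of_le hL.le
  have key : ∀ (n : ℕ) (K : IntermediateField F Ω) [NumberField K], M ≤ K → K ≤ L →
      Module.finrank F K = n → (LVO F V Om (PsiP K ψ) ↔ LVO F V Om (PsiP M ψ) ∧
        ∀ v : HeightOneSpectrum (𝓞 M), Ram M K v.asIdeal → V.valuation (1 - (starRingEnd ℂ) (PsiP M ψ v.asIdeal)) = 1) := by
    intro n
    induction n using Nat.strong_induction_on with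
    | _ n ih =>
      intro K _ hMK hKL hn
      rcases eq_or_ne K M with rfl | hne
      · exact ⟨fun h => ⟨h, fun v hv => (a4_self K v hv).elim⟩, fun h => h.1⟩
      obtain ⟨N, hMN, hNK, hdeg, hnorm⟩ := chain_step p hp M K L hL hMK hKL hne
      have hKf : FiniteDimensional F K := finDim_of_le hKL
      have hNf : FiniteDimensional F N := finDim_of_le hNK
      have hNn : NumberField N := H16C.FR_numberField N
      have hNpos : 0 < Module.finrank F N := Module.finrank_pos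
      have hlt : Module.finrank F N < n := by
        rw [← hn, hdeg]
        exact lt_mul_of_one_lt_right hNpos hp.one_lt
      letI iNK : Algebra N K := (IntermediateField.inclusion hNK).toRingHom.toAlgebra
      letI iMN : Algebra M N := (IntermediateField.inclusion hMN).toRingHom.toAlgebra
      obtain ⟨hst, hgal, hfr⟩ := chain_types p hp N K hNK hnorm hdeg
      have hstM : IsScalarTower F M N := alg_tower M N hMN
      have hLN := ih _ hlt N hMN (hNK.trans hKL) rfl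
      obtain ⟨j', hj'⟩ := pext_deg p hp M N L hL hMN (hNK.trans hKL)
      have hNTN : NTP N p mo ψ V := NTP_up M N p hp j' hj' V hV hNT
      have hTR := g2_TRam hp M N K L hL hG hMN hNK hKL hnorm hdeg
      rw [stepC hS hV N K hfr hNTN hTR, hLN]
      have hrt := fun v => ram_tower M N K hMN hNK hnorm v
      constructor
      · rintro ⟨⟨h1, h2⟩, h3⟩
        refine ⟨h1, fun v hv => ?_⟩
        rcases (hrt v).1 hv with h4 | ⟨w, hw1, hw2⟩
        · exact h2 v h4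
        · obtain ⟨v', hv', -, hf⟩ := ram_down p hp M N K L hL hMN hNK hKL hnorm w hw2
          have hf' : ∃ j : ℕ, w.asIdeal.inertiaDeg (𝓞 M) = p ^ j := hf
          exact (adm_iff M N p hp V hV v w hw1 hf').2 (h3 w hw2)
      · rintro ⟨h1, h2⟩
        refine ⟨⟨h1, fun v hv => h2 v ((hrt v).2 (Or.inl hv))⟩, fun w hw => ?_⟩
        obtain ⟨v, hv, -, hf⟩ := ram_down p hp M N K L hL hMN hNK hKL hnorm w hw
        exact (adm_iff M N p hp V hV v w hv hf).1 (h2 v ((hrt v).2 (Or.inr ⟨w, hv, hw⟩)))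
  exact key _ K hMK hKL rfl

/-- Integrality in the tower. -/
theorem lvoi_tower {Om : ℂ} {mo : Ideal (𝓞 F)} {ψ : Ideal (𝓞 F) →*₀ 𝓞 F} {p : ℕ} [Fact p.Prime] (hS : SCtx p mo ψ Om)
    {V : ValuationSubring ℂ} (hV : V.valuation (p : ℂ) < 1)
    (M L : IntermediateField F Ω) (hL : PExt p M L) [NumberField M] (hNT : NTP M p mo ψ V)
    (K : IntermediateField F Ω) [NumberField K] (hMK : M ≤ K) (hKL : K ≤ L) : LVOi F V Om (PsiP K ψ) := by
  have hp : p.Prime := Fact.out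
  have hcz : CharZero Ω := charZero_of_injective_algebraMap (FaithfulSMul.algebraMap_injective F Ω)
  have hLf : FiniteDimensional F L := hL.fin
  have hMf : FiniteDimensional F M := finDim_of_le hL.le
  letI iMK : Algebra M K := (IntermediateField.inclusion hMK).toRingHom.toAlgebra
  have hstM : IsScalarTower F M K := alg_tower M K hMK
  obtain ⟨j', hj'⟩ := pext_deg p hp M K L hL hMK hKL
  exact lvoi_C hS hV K (NTP_up M K p hp j' hj' V hV hNT)

end SSU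
end
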