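import Mathlib
import Pool.Agent.Lib.H1M.PP2.D_H13D_MD
import Pool.Agent.Lib.H1M.PP2.D_H55G_D0
import Pool.Agent.Lib.H1M.PP2.D_H55K_BH
import Pool.Agent.Lib.H1M.PP2.D_H55K_EX0
import Pool.Agent.Lib.H1M.PP2.M038
import Pool.Agent.Lib.H1M.PP2.M040
import Pool.Agent.Lib.H1M.PP2.M051
import Pool.Agent.Lib.H1M.PP2.M074
import Pool.Agent.Lib.H1M.PP2.M080
import Pool.Agent.Lib.H1M.PP2.M088
import Pool.Agent.Lib.H1M.PP2.M094
import Pool.Agent.Lib.H1M.PP2.M098
import Pool.Agent.Lib.H1M.PP2.M101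
import Pool.Agent.Lib.H1M.PP2.M102
import Pool.Agent.Lib.H1M.PP2.M107
import Pool.Agent.Lib.H1M.PP2.M118
import Pool.Agent.Lib.H1M.PP2.M120
import Pool.Agent.Lib.H1M.PP2.M138
import Pool.Agent.Lib.H1M.PP2.M141
import Pool.Agent.Lib.H1M.PP2.M143
import Pool.Agent.Lib.H1M.PP2.M150
import Pool.Agent.Lib.H1M.PP2.M154
import Pool.Agent.Lib.H1M.PP2.M162

/-! Merged copies (to shorten the build) of Lib.H55G.E2Ca, Lib.H55G.E2Cb, Lib.H55G.E6b, Lib.H55G.E9, Lib.H55G.F1a, Lib.H55G.F1b, Lib.H55G.F1c, Lib.H55G.F4a, Lib.H55G.F4b, Lib.H55G.F4c, Lib.H55G.F4d, Lib.H55G.F5a, Lib.H55G.F5b, Lib.H55G.F5c, Lib.H55G.F8a, Lib.H55G.F8b, Lib.H55G.H1, Lib.H55G.J4, Lib.H55K.EX1, Lib.H55W.EZM, Lib.H55K.EX2. -/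

-- from Lib.H55G.E2Ca
section

/-! # H55G, part E: the Hasse bound over all number fields -/

open NumberField IsDedekindDomain WeierstrassCurve

namespace H55G

open H55P (IQ embF eF LF Per IsHecke Pt ac Inert Dec Nm PsiP mK UnitP UnrP)
open H35P (WAB Ker GoodW IntW)
open H55K (CMA Tor TN ak xc yc cj cj_cj mul_cj Nm_cj Nm_mul Nm_nat GoodAt Abw)
open H55K.DD (LF' ef)
open H55K.MG (VC Crd)
open H55K.TQ

variable {F : Type} [Field F] [NumberField F] [IQ F] {W : WeierstrassCurve ℤ} {Om : ℂ} {m : Ideal (𝓞 F)}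
  {ψ : Ideal (𝓞 F) →*₀ 𝓞 F}

/-- Chunk E2C (M). As hasse_F (E2.lean), for any number field k: Ω = AlgebraicClosure k, an embedding of F in Ω (Ω is algebraically closed of characteristic 0 and F is algebraic over ℚ: IsAlgClosed.lift over ℚ) gives Algebra F Ω; Ω is algebraic over ℚ, so over F. setup, exists_abw, exists_GD with vck_Z, exists_g (IsAlgClosure k Ω), fix_AB, Fx, acr_kg, e_all (first claim). -/
theorem hasse_Z (hH : BaseH F (W⁄(𝓞 F)) Om m ψ) (k : Type) [Field k] [NumberField k] (w : HeightOneSpectrum (𝓞 k))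
    (hg : GoodAt (W⁄k) w) : ((Ideal.absNorm w.asIdeal : ℤ) + 1 - (NW (W⁄k) w : ℤ)) ^ 2 ≤ 4 * Ideal.absNorm w.asIdeal := by
  classical
  let _ : Algebra F (AlgebraicClosure k) := (IsAlgClosed.lift : F →ₐ[ℚ] AlgebraicClosure k).toRingHom.toAlgebra
  have hal0 : Algebra.IsAlgebraic ℚ (AlgebraicClosure k) := Algebra.IsAlgebraic.trans ℚ k _
  have hal : Algebra.IsAlgebraic F (AlgebraicClosure k) := Algebra.IsAlgebraic.tower_top (K := ℚ) F
  obtain ⟨A, B, j, act, hS, hd, h⟩ := setup hH (AlgebraicClosure k)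
  obtain ⟨V, hV⟩ := H55K.exists_abw (AlgebraicClosure k) w
  obtain ⟨C, hC⟩ := (good_iff _ _).1 hg
  obtain ⟨u, r, s, t, Θ, Kg, hG⟩ := exists_GD hd hV (vck_Z hS) hC
  obtain ⟨g, hfr⟩ := exists_g hV
  obtain ⟨hA, hB⟩ := fix_AB hS g
  have hFx : Fx g (algebraMap k _ u) (algebraMap k _ r) (algebraMap k _ s) (algebraMap k _ t) :=
    ⟨hfr.fix u, hfr.fix r, hfr.fix s, hfr.fix t⟩
  obtain ⟨l, f, hl, hf, hq, -⟩ := exists_l hV
  have hq0 : 0 < Ideal.absNorm w.asIdeal := by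
    rw [hq]
    exact pow_pos hl.pos _
  have hK : ∀ P ∈ Kg, H55K.acr g hA hB P ∈ Kg := fun P hP => (acr_kg hG hFx hq0 hfr.frob P).2 hP
  exact (e_all h hfr hC rfl hG hFx hK).1

end H55G
end

-- from Lib.H55G.E2Cb
section

/-! # H55G, part E: the Hasse bound over all number fields -/

open NumberField IsDedekindDomain WeierstrassCurve

namespace H55G

open H55P (IQ embF eF LF Per IsHecke Pt ac Inert Dec Nm PsiP mK UnitP UnrP)
open H35P (WAB Ker GoodW IntW)
open H55K (CMA Tor TN ak xc yc cj cj_cj mul_cj Nm_cj Nm_mul Nm_nat GoodAt Abw)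
open H55K.DD (LF' ef)
open H55K.MG (VC Crd)
open H55K.TQ

variable {F : Type} [Field F] [NumberField F] [IQ F] {W : WeierstrassCurve ℤ} {Om : ℂ} {m : Ideal (𝓞 F)}
  {ψ : Ideal (𝓞 F) →*₀ 𝓞 F}

theorem e2cb_norm {k K : Type} [Field k] [NumberField k] [Field K] [NumberField K] [Algebra k K]
    (hs : Function.Surjective (algebraMap k K)) {v : HeightOneSpectrum (𝓞 k)} {w : HeightOneSpectrum (𝓞 K)}
    (hv : v.asIdeal = w.asIdeal.under (𝓞 k)) : Ideal.absNorm w.asIdeal = Ideal.absNorm v.asIdeal := by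
  have h1 : Function.Surjective (algebraMap (𝓞 k) (𝓞 K)) := by
    intro y
    obtain ⟨x, hx⟩ := hs (y : K)
    have h2 : IsIntegral ℤ x := by
      have h3 : IsIntegral ℤ (algebraMap k K x) := by
        rw [hx]
        exact RingOfIntegers.isIntegral_coe y
      exact (isIntegral_algebraMap_iff (algebraMap k K).injective).1 h3
    exact ⟨⟨x, h2⟩, RingOfIntegers.ext hx⟩
  have h2 : Function.Injective (algebraMap (𝓞 k) (𝓞 K)) := RingOfIntegers.algebraMap.injective k K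
  have h3 : w.asIdeal = v.asIdeal.map (RingEquiv.ofBijective (algebraMap (𝓞 k) (𝓞 K)) ⟨h2, h1⟩ : 𝓞 k →+* 𝓞 K) := by
    rw [hv]
    exact (Ideal.map_comap_of_surjective _ h1 w.asIdeal).symm
  have e := Ideal.quotientEquiv v.asIdeal w.asIdeal (RingEquiv.ofBijective (algebraMap (𝓞 k) (𝓞 K)) ⟨h2, h1⟩) h3
  rw [Ideal.absNorm_apply, Ideal.absNorm_apply, Submodule.cardQuot_apply, Submodule.cardQuot_apply]
  exact Nat.card_congr e.toEquiv.symm

/-- Chunk E2C (S/M). k → K an isomorphism, w the prime of K above v: absNorm w = absNorm v, and everything is transported. Proof by the Frobenius element: Ω = AlgebraicClosure K (Algebra k Ω by composition, tower), F embedded in Ω as in hasse_Z; V above w, so above v; g Frobenius over k at V (exists_g), it fixes K (hs), so FrD K V w g (absNorm w = absNorm v: 𝓞 k → 𝓞 K is an isomorphism; e.g. H55K.TQ.re_absNorm or inertia degree 1); C good for W⁄k at v; gc_up (E7.lean); NW_fr twice, as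 in nw_split (E7.lean).
(Only Sh (W⁄(𝓞 F)) A B and 4 A^3 + 27 B^2 ≠ 0 from setup are used.) -/
theorem nw_iso (hH : BaseH F (W⁄(𝓞 F)) Om m ψ) {k K : Type} [Field k] [NumberField k] [Field K] [NumberField K] [Algebra k K]
    (hs : Function.Surjective (algebraMap k K)) {v : HeightOneSpectrum (𝓞 k)} {w : HeightOneSpectrum (𝓞 K)}
    (hv : v.asIdeal = w.asIdeal.under (𝓞 k)) (hg : GoodAt (W⁄k) v) : NW (W⁄K) w = NW (W⁄k) v := by
  classical
  let e : F →ₐ[ℚ] AlgebraicClosure K := IsAlgClosed.lift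
  let _ : Algebra F (AlgebraicClosure K) := e.toRingHom.toAlgebra
  have htw : IsScalarTower ℚ F (AlgebraicClosure K) := IsScalarTower.of_algebraMap_eq fun x => (e.commutes x).symm
  have halgQ : Algebra.IsAlgebraic ℚ (AlgebraicClosure K) := Algebra.IsAlgebraic.trans ℚ K (AlgebraicClosure K)
  have halg : Algebra.IsAlgebraic F (AlgebraicClosure K) := Algebra.IsAlgebraic.tower_top (K := ℚ) F
  have halgk : Algebra.IsAlgebraic k (AlgebraicClosure K) := Algebra.IsAlgebraic.tower_top (K := ℚ) k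
  have hcl : IsAlgClosure k (AlgebraicClosure K) := ⟨inferInstance, inferInstance⟩
  obtain ⟨A, B, j, act, hS, hd, hC⟩ := setup hH (AlgebraicClosure K)
  obtain ⟨V, hV⟩ := H55K.exists_abw (AlgebraicClosure K) w
  have hwv : w.under (𝓞 k) = v := HeightOneSpectrum.ext hv.symm
  have hVv : Abw V v := hV.below hwv
  obtain ⟨C, hCg⟩ := (good_iff _ v).1 hg
  obtain ⟨u, r, s, t, Θ, Kg, hG⟩ := exists_GD hd hVv (vck_Z hS) hCg
  obtain ⟨g, hfr⟩ := exists_g hVv
  obtain ⟨hA, hB⟩ := fix_AB hS g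
  have hgx : Fx g (algebraMap k (AlgebraicClosure K) u) (algebraMap k (AlgebraicClosure K) r)
      (algebraMap k (AlgebraicClosure K) s) (algebraMap k (AlgebraicClosure K) t) :=
    ⟨hfr.fix _, hfr.fix _, hfr.fix _, hfr.fix _⟩
  have hq : 0 < Ideal.absNorm v.asIdeal := Nat.pos_of_ne_zero fun h => v.ne_bot (Ideal.absNorm_eq_zero_iff.1 h)
  have hfrw : FrD K V w g := by
    refine ⟨hV, fun x => ?_, ?_⟩
    · obtain ⟨y, rfl⟩ := hs x
      rw [← IsScalarTower.algebraMap_apply k K (AlgebraicClosure K)]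
      exact hfr.fix y
    · rw [e2cb_norm hs hv]
      exact hfr.frob
  obtain ⟨C', hC', hCC⟩ := gc_up (K₀ := k) (K := K) hv hCg (Ω := AlgebraicClosure K)
  have hK : ∀ P ∈ Kg, H55K.acr g hA hB P ∈ Kg := fun P hP => (acr_kg hG hgx hq hfr.frob P).2 hP
  rw [NW_fr hfrw hC' hCC.symm hG hgx hK, NW_fr hfr hCg rfl hG hgx hK]

end H55G
end

-- from Lib.H55G.E6b
section

/-! # H55G, part E: good reduction in the quadratic extension -/

open NumberField IsDedekindDomain WeierstrassCurve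

namespace H55G

open H55P (IQ embF eF LF Per IsHecke Pt ac Inert Dec Nm)
open H35P (WAB Ker GoodW IntW)
open H55K (CMA Tor TN ak xc yc cj cj_cj mul_cj Nm_cj Nm_mul Nm_nat acr xc_acr yc_acr acr_zero_iff acr_inj acr_eq_ac acr_trans GoodAt Abw)
open H55K.MG (VC Crd)
open H55K.TQ

variable {F K₀ K : Type} [Field F] [NumberField F] [IQ F] [Field K₀] [NumberField K₀] [Field K] [NumberField K]
  [Algebra F K] [Algebra K₀ K] {τ : K ≃ₐ[K₀] K} {W : WeierstrassCurve ℤ} {Om : ℂ} {m : Ideal (𝓞 F)}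
  {ψ : Ideal (𝓞 F) →*₀ 𝓞 F} {w : HeightOneSpectrum (𝓞 K)} {v : HeightOneSpectrum (𝓞 K₀)}

theorem e6b_tau (hτ : QT F K₀ K τ) (x : K) : τ (τ x) = x := by
  have hfd : FiniteDimensional K₀ K := Module.finite_of_finrank_pos (by rw [hτ.rank]; norm_num)
  have hcard : Fintype.card (K ≃ₐ[K₀] K) ≤ 2 := by
    rw [← hτ.rank]
    exact AlgEquiv.card_le
  have hpos : 0 < Fintype.card (K ≃ₐ[K₀] K) := Fintype.card_pos
  have h1 : τ ^ Fintype.card (K ≃ₐ[K₀] K) = 1 := pow_card_eq_one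
  have h2 : τ ^ 2 = 1 := by
    rcases (show Fintype.card (K ≃ₐ[K₀] K) = 1 ∨ Fintype.card (K ≃ₐ[K₀] K) = 2 by omega) with h | h
    · rw [h, pow_one] at h1
      rw [h1, one_pow]
    · rwa [h] at h1
  have h3 := congrArg (fun f : K ≃ₐ[K₀] K => f x) h2
  rw [sq] at h3
  exact h3

/-- the composition of inertial maps. -/
theorem e6b_comp {Ω : Type} [Field Ω] {V : ValuationSubring Ω} {s t : Ω ≃+* Ω}
    (hs : ∀ x ∈ V, V.valuation (s x - x) < 1) (ht : ∀ x ∈ V, V.valuation (t x - x) < 1) :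
    ∀ x ∈ V, V.valuation ((s.trans t) x - x) < 1 := by
  intro x hx
  have h1 := hs x hx
  have h2 : s x ∈ V := by
    have h3 : s x - x ∈ V := (V.valuation_le_one_iff _).1 h1.le
    have h4 := V.add_mem _ _ h3 hx
    rwa [sub_add_cancel] at h4
  have h5 := ht (s x) h2
  have h6 : (s.trans t) x - x = (t (s x) - s x) + (s x - x) := by
    rw [RingEquiv.trans_apply]
    ring
  rw [h6]
  exact lt_of_le_of_lt (V.valuation.map_add _ _) (max_lt h5 h1)

/-- a prime number p in {5, 7} which is a unit. -/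
theorem e6b_prime {Ω : Type} [Field Ω] (V : ValuationSubring Ω) :
    ∃ p : ℕ, p.Prime ∧ 5 ≤ p ∧ V.valuation (p : Ω) = 1 := by
  have hle : ∀ n : ℕ, V.valuation (n : Ω) ≤ 1 := fun n => (V.valuation_le_one_iff _).2 (natCast_mem V n)
  by_cases h5 : V.valuation ((5 : ℕ) : Ω) = 1
  · exact ⟨5, by norm_num, le_rfl, h5⟩
  · refine ⟨7, by norm_num, by norm_num, ?_⟩
    by_contra h7
    have g5 := lt_of_le_of_ne (hle 5) h5
    have g7 := lt_of_le_of_ne (hle 7) h7
    have h3 : V.valuation ((3 : ℕ) * ((5 : ℕ) : Ω) - (2 : ℕ) * ((7 : ℕ) : Ω)) < 1 := by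
      refine lt_of_le_of_lt (V.valuation.map_sub _ _) (max_lt ?_ ?_)
      · rw [map_mul]
        exact lt_of_le_of_lt (mul_le_of_le_one_left' (hle 3)) g5
      · rw [map_mul]
        exact lt_of_le_of_lt (mul_le_of_le_one_left' (hle 2)) g7
    have h4 : ((3 : ℕ) * ((5 : ℕ) : Ω) - (2 : ℕ) * ((7 : ℕ) : Ω)) = 1 := by
      push_cast
      norm_num
    rw [h4, map_one] at h3
    exact lt_irrefl _ h3

/-- the automorphism of the algebraic closure. -/
theorem e6b_aut (hτ : QT F K₀ K τ) {Ω : Type} [Field Ω] [Algebra K Ω] [Algebra K₀ Ω] [IsScalarTower K₀ K Ω]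
    [IsAlgClosure K₀ Ω] {V : ValuationSubring Ω} (hV : Abw V w) (hr : ∀ x : 𝓞 K, τ • x - x ∈ w.asIdeal) :
    ∃ s : Ω ≃ₐ[K₀] Ω, Inert V s ∧ ∀ x : K, s (algebraMap K Ω x) = algebraMap K Ω (τ x) := by
  have hfd : FiniteDimensional K₀ K := Module.finite_of_finrank_pos (by rw [hτ.rank]; norm_num)
  have hn : Normal K₀ Ω := IsAlgClosure.normal K₀ Ω
  obtain ⟨s0, hs0⟩ : ∃ s0 : Ω ≃ₐ[K₀] Ω, s0 = AlgEquiv.liftNormal τ Ω := ⟨_, rfl⟩
  have hs0' : ∀ x : K, s0 (algebraMap K Ω x) = algebraMap K Ω (τ x) := by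
    intro x
    rw [hs0]
    exact AlgEquiv.liftNormal_commutes _ _ _
  obtain ⟨N', hN'⟩ : ∃ N' : IntermediateField K₀ Ω, N' = (IsScalarTower.toAlgHom K₀ K Ω).fieldRange := ⟨_, rfl⟩
  have hfin : FiniteDimensional K₀ N' := by
    rw [hN']
    exact (AlgEquiv.ofInjectiveField (IsScalarTower.toAlgHom K₀ K Ω)).toLinearEquiv.finiteDimensional
  have hmem : ∀ x : Ω, x ∈ N' → ∃ y : K, algebraMap K Ω y = x := by
    intro x hx
    rw [hN'] at hx
    obtain ⟨y, hy⟩ := hx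
    exact ⟨y, hy⟩
  have hmem' : ∀ y : K, algebraMap K Ω y ∈ N' := by
    intro y
    rw [hN']
    exact ⟨y, rfl⟩
  obtain ⟨s, hsI, hs1⟩ := H13S.inertia_lift N' V s0 (by
      intro x hx
      obtain ⟨y, rfl⟩ := hmem x hx
      rw [hs0']
      exact hmem' _) (by
      intro x hx hxV
      obtain ⟨y, rfl⟩ := hmem x hx
      rw [hs0', ← map_sub, hV.lt]
      exact H13S.in4_val w τ hr y ((hV y).1 hxV))
  exact ⟨s, hsI, fun x => by rw [hs1 _ (hmem' x), hs0']⟩

/-- Chunk E6B (M/L). GoodAt (W⁄K₀) v implies GoodAt (W⁄K) w (good_up, RG.lean; (W⁄K₀)⁄K = W⁄K), so suppose w is good. Setting as in good_desc. s₀ : Ω ≃ₐ[K₀] Ω with Inert V s₀ and s₀ = τ on K: H13S.inertia_lift (IN1.lean) for F₀ = K₀, N = the image of K in Ω (IntermediateField K₀ Ω: the range of the K₀-algebra map K → Ω), a lift of τ (AlgEquiv.liftNormal), hI from H13S.in4_val (IN4.lean) and hr: see the proof of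
hram_of in H55K/RF.lean, where the same is done for ℚ and F. (1) For t : Ω ≃ₐ[K₀] Ω with Inert V t which fixes K: inert_trivZ for K, w: t fixes the coordinates of the T with p • T = 0. (2) σ = acr s₀ (fix_AB) satisfies σ (act a P) = act (cj a) (σ P) (H55K.cma_galr, CU.lean; s₀ (ak a) = ak (cj a) since s₀ = τ on the image of F in K). σ (σ X) = X for p • X = 0: s₀^2 = s₀.trans s₀ is inert and fixes K (τ τ = 1: τ has order 2, or cj cj = 1 and K is generated..: τ^2 is the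
identity on K because Gal(K/K₀) has 2 elements), acr_trans, (1), c27_ext (coordinates). (3) There is X with p • X = 0 and T = X + σ X ≠ 0: otherwise σ X = -X for all X with p • X = 0; then -act a X = σ (act a X) = act (cj a) (σ X) = -act (cj a) X, act (a - cj a) X = 0 for the generator X = T₀ of the kernel of p (h.gen): p ∣ a - cj a for all a: rf_card (p ≠ 2). (4) T is fixed by σ; let t be inert
over K₀: if t fixes K: (1). If t = τ on K: t' = s₀.symm.trans t (first s₀⁻¹, then t) fixes K and is inert, t = t' ∘ s₀ on coordinates: t (xc T) = t' (s₀ (xc T)) = t' (xc T) = xc T (xc (σ T) = s₀ (xc T) = xc T). So good_nosZ: v is good. (5) Then inert_trivZ for K₀, v and s₀: s₀ fixes the coordinates of all T with p • T = 0: σ T = T, so act a T = act (cj a) T, p ∣ a - cj a for all a: rf_card again. -/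
theorem bad_ram (hH : BaseH F (W⁄(𝓞 F)) Om m ψ) (hτ : QT F K₀ K τ) (hv : v.asIdeal = w.asIdeal.under (𝓞 K₀))
    (hr : ∀ x : 𝓞 K, τ • x - x ∈ w.asIdeal) : ¬ GoodAt (W⁄K) w ∧ ¬ GoodAt (W⁄K₀) v := by
  classical
  have hcur : (W⁄K₀)⁄K = W⁄K := by
    change (W.map (algebraMap ℤ K₀)).map (algebraMap K₀ K) = W.map (algebraMap ℤ K)
    rw [WeierstrassCurve.map_map]
    congr 1
    exact Subsingleton.elim _ _
  suffices hmain : ¬ GoodAt (W⁄K) w by
    refine ⟨hmain, fun h => hmain ?_⟩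
    have h1 := good_up hv h
    rwa [hcur] at h1
  intro hg
  -- the setting
  have hΔ : W.Δ ≠ 0 := by
    intro h0
    apply hH.data.ell
    have e : (W⁄(𝓞 F)).Δ = algebraMap ℤ (𝓞 F) W.Δ := W.map_Δ _
    rw [e, h0, map_zero]
  have hfd : FiniteDimensional K₀ K := Module.finite_of_finrank_pos (by rw [hτ.rank]; norm_num)
  obtain ⟨Ω, iΩ, iK, iC⟩ : ∃ (Ω : Type) (_ : Field Ω) (_ : Algebra K Ω), IsAlgClosure K Ω :=
    ⟨AlgebraicClosure K, inferInstance, inferInstance, inferInstance⟩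
  let iF : Algebra F Ω := ((algebraMap K Ω).comp (algebraMap F K)).toAlgebra
  let i0 : Algebra K₀ Ω := ((algebraMap K Ω).comp (algebraMap K₀ K)).toAlgebra
  have tF : IsScalarTower F K Ω := IsScalarTower.of_algebraMap_eq fun _ => rfl
  have t0 : IsScalarTower K₀ K Ω := IsScalarTower.of_algebraMap_eq fun _ => rfl
  have hclosed : IsAlgClosed Ω := IsAlgClosure.isAlgClosed K
  have hKal : Algebra.IsAlgebraic K Ω := IsAlgClosure.isAlgebraic
  have hFK : Algebra.IsAlgebraic F K := by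
    have h1 : Algebra.IsAlgebraic ℚ K := inferInstance
    have h2 : IsScalarTower ℚ F K := inferInstance
    exact Algebra.IsAlgebraic.tower_top (K := ℚ) F
  have hFal : Algebra.IsAlgebraic F Ω := Algebra.IsAlgebraic.trans F K Ω
  have h0al : Algebra.IsAlgebraic K₀ Ω := Algebra.IsAlgebraic.trans K₀ K Ω
  have hcl0 : IsAlgClosure K₀ Ω := ⟨hclosed, h0al⟩
  obtain ⟨A, B, j, act, hS, hd, h⟩ := setup hH Ω
  obtain ⟨V, hV⟩ := H55K.exists_abw Ω w
  have hunder : w.under (𝓞 K₀) = v := HeightOneSpectrum.ext hv.symm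
  have hV0 : Abw V v := hV.below hunder
  obtain ⟨p, hp, h5, hVp⟩ := e6b_prime V
  obtain ⟨s, hsI, hs⟩ := e6b_aut hτ hV hr
  obtain ⟨s', hs'⟩ : ∃ s' : Ω ≃+* Ω, s' = (s : Ω ≃+* Ω) := ⟨_, rfl⟩
  have hs'x : ∀ x, s' x = s x := fun x => by rw [hs']; rfl
  have hs'I : ∀ x ∈ V, V.valuation (s' x - x) < 1 := fun x hx => by
    rw [hs'x]
    exact hsI x hx
  have hs'K : ∀ x : K, s' (algebraMap K Ω x) = algebraMap K Ω (τ x) := fun x => by rw [hs'x, hs]
  obtain ⟨hsA, hsB⟩ := fix_AB hS s'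
  have hsc : ∀ a : 𝓞 F, s' (ak Ω a) = ak Ω (cj a) := by
    intro a
    have e1 : ak Ω a = algebraMap K Ω (algebraMap F K (a : F)) := rfl
    have e2 : ak Ω (cj a) = algebraMap K Ω (algebraMap F K ((cj a : 𝓞 F) : F)) := rfl
    rw [e1, hs'K, hτ.tau, e2]
  have hsl := H55K.cma_galr h s' hsA hsB hsc
  -- (1)
  have triv : ∀ t : Ω ≃+* Ω, (∀ x : K, t (algebraMap K Ω x) = algebraMap K Ω x) →
      (∀ x ∈ V, V.valuation (t x - x) < 1) → ∀ T : Pt (WAB A B) Ω, p • T = 0 →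
      t (xc T) = xc T ∧ t (yc T) = yc T := fun t h1 h2 T hT =>
    inert_trivZ hΔ hS hg hV t h1 h2 hVp hT
  -- (2)
  have hss : ∀ X : Pt (WAB A B) Ω, p • X = 0 → acr s' hsA hsB (acr s' hsA hsB X) = X := by
    intro X hX
    by_cases hX0 : X = 0
    · rw [hX0, map_zero, map_zero]
    · obtain ⟨hA2, hB2⟩ := fix_AB hS (s'.trans s')
      rw [acr_trans s' s' hsA hsB hsA hsB hA2 hB2]
      obtain ⟨e1, e2⟩ := triv (s'.trans s') (by
        intro x
        rw [RingEquiv.trans_apply, hs'K, hs'K, e6b_tau hτ]) (e6b_comp hs'I hs'I) X hX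
      refine H55K.CC.c27_ext (fun h0 => hX0 ((acr_zero_iff _ hA2 hB2 X).1 h0)) hX0 ?_ ?_
      · rw [xc_acr]
        exact e1
      · rw [yc_acr]
        exact e2
  -- the generator
  have hpne : (p : 𝓞 F) ≠ 0 := by exact_mod_cast hp.ne_zero
  obtain ⟨T₀, hT₀, g1, g2, -⟩ := h.gen (p : 𝓞 F) hpne
  have hT₀' : p • T₀ = 0 := by
    rw [← H55K.cu_nat act]
    exact hT₀
  have hpact : ∀ a : 𝓞 F, p • act a T₀ = 0 := by
    intro a
    rw [← map_nsmul, hT₀', map_zero]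
  have hp2 : p ≠ 2 := by omega
  -- (3)
  obtain ⟨X, hX, hXn⟩ : ∃ X : Pt (WAB A B) Ω, p • X = 0 ∧ X + acr s' hsA hsB X ≠ 0 := by
    by_contra hcon
    push Not at hcon
    refine rf_card (F := F) hp hp2 (fun a => ?_)
    have e1 := hsl a T₀
    have e2 : acr s' hsA hsB T₀ = - T₀ := eq_neg_of_add_eq_zero_right (hcon T₀ hT₀')
    have e3 : acr s' hsA hsB (act a T₀) = - act a T₀ := eq_neg_of_add_eq_zero_right (hcon _ (hpact a))
    rw [e2, e3, map_neg, neg_inj] at e1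
    rw [← g2 (a - cj a), map_sub]
    change act a T₀ - act (cj a) T₀ = 0
    rw [e1, sub_self]
  -- (4)
  obtain ⟨T, hTd⟩ : ∃ T, T = X + acr s' hsA hsB X := ⟨_, rfl⟩
  rw [← hTd] at hXn
  have hT : p • T = 0 := by
    rw [hTd, smul_add, hX, ← map_nsmul, hX, map_zero, add_zero]
  have hσT : acr s' hsA hsB T = T := by
    rw [hTd, map_add, hss X hX, add_comm]
  have hxT : s' (xc T) = xc T := by
    rw [← xc_acr s' hsA hsB, hσT]
  have hyT : s' (yc T) = yc T := by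
    rw [← yc_acr s' hsA hsB, hσT]
  have hj := jint_Z hH
  have hgood : GoodAt (W⁄K₀) v := by
    refine good_nosZ hΔ hj hS (Ω := Ω) (V := V) ?_ hp h5 hVp hT hXn ?_
    · intro a ha
      have h1 : v.valuation K₀ (algebraMap (𝓞 K₀) K₀ a) < 1 := (v.valuation_lt_one_iff_mem a).2 ha
      exact (hV0.lt _).2 h1
    · intro g hgI
      obtain ⟨g', hg'⟩ : ∃ g' : Ω ≃+* Ω, g' = (g : Ω ≃+* Ω) := ⟨_, rfl⟩
      have hg'x : ∀ x, g' x = g x := fun x => by rw [hg']; rfl
      have hg'I : ∀ x ∈ V, V.valuation (g' x - x) < 1 := fun x hx => by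
        rw [hg'x]
        exact hgI x hx
      rw [← hg'x, ← hg'x]
      rcases g_cases hτ g' (fun x => by rw [hg'x]; exact g.commutes x) with hc | hc
      · exact triv g' hc hg'I T hT
      · obtain ⟨e1, e2⟩ := triv (g'.trans s') (by
          intro x
          rw [RingEquiv.trans_apply, hc, hs'K, e6b_tau hτ]) (e6b_comp hg'I hs'I) T hT
        rw [RingEquiv.trans_apply] at e1 e2
        constructor
        · exact s'.injective (e1.trans hxT.symm)
        · exact s'.injective (e2.trans hyT.symm)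
  -- (5)
  have hfix : ∀ Y : Pt (WAB A B) Ω, p • Y = 0 → acr s' hsA hsB Y = Y := by
    intro Y hY
    by_cases hY0 : Y = 0
    · rw [hY0, map_zero]
    · obtain ⟨e1, e2⟩ := inert_trivZ hΔ hS hgood hV0 s' (fun x => by
        rw [hs'x]
        exact s.commutes x) hs'I hVp hY
      refine H55K.CC.c27_ext (fun h0 => hY0 ((acr_zero_iff _ hsA hsB Y).1 h0)) hY0 ?_ ?_
      · rw [xc_acr]
        exact e1
      · rw [yc_acr]
        exact e2
  refine rf_card (F := F) hp hp2 (fun a => ?_)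
  have e1 := hsl a T₀
  rw [hfix T₀ hT₀', hfix _ (hpact a)] at e1
  rw [← g2 (a - cj a), map_sub]
  change act a T₀ - act (cj a) T₀ = 0
  rw [← e1, sub_self]

end H55G
end

-- from Lib.H55G.E9
section

/-! # H55G, part E: the square relation of the Euler factors -/

open NumberField IsDedekindDomain WeierstrassCurve

namespace H55G

open H55P (IQ embF eF LF Per IsHecke Pt ac Inert Dec Nm PsiP mK UnitP UnrP)
open H35P (WAB Ker GoodW IntW)
open H55K (CMA Tor TN ak xc yc cj cj_cj mul_cj Nm_cj Nm_mul Nm_nat GoodAt Abw)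
open H55K.DD (LF' ef)
open H55K.MG (VC Crd)
open H55K.TQ

variable {F K₀ K : Type} [Field F] [NumberField F] [IQ F] [Field K₀] [NumberField K₀] [Field K] [NumberField K]
  [Algebra F K] [Algebra K₀ K] {τ : K ≃ₐ[K₀] K} {W : WeierstrassCurve ℤ} {Om : ℂ} {m : Ideal (𝓞 F)}
  {ψ : Ideal (𝓞 F) →*₀ 𝓞 F}

/-- Chunk E9 (M). For w above v: w is good iff v is good (good_up in RG.lean with (W⁄K₀)⁄K = W⁄K; conversely good_desc, E6.lean). quad_primes' (E3.lean). jint_Z for lf_W_bad (RA2.lean). Ramified case: bad_ram: all factors are 1. Two primes w₁, w₂ (T = {w₁, w₂}; τ • x - x is not in w for the x in w with τ • x not in w): bad: all factors are 1; good: nw_split and lf_same: all three factors are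
equal. One prime w₁ with absNorm w₁ = q^2, q = absNorm v: bad: all 1; good: nw_inert: NW over K₀ is q + 1, over K it is (q + 1)^2. α with α^2 = -q: lf_ef over K₀ with α, -α (sum 0, product q): ef q α * ef q (-α) = ef (q^2) (-q) (ef_sq, RA1.lean; q > 1: d6_one_lt); over K: lf_ef with -q, -q: sum -2q = q^2 + 1 - (q + 1)^2, product q^2: ef (q^2) (-q) ^ 2. -/
theorem lf_sq' (hH : BaseH F (W⁄(𝓞 F)) Om m ψ) (hτ : QT F K₀ K τ) (v : HeightOneSpectrum (𝓞 K₀))
    (T : Finset (HeightOneSpectrum (𝓞 K))) (hT : ∀ w, w ∈ T ↔ v.asIdeal = w.asIdeal.under (𝓞 K₀)) :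
    ∏ w ∈ T, LF' (W⁄K) w = LF' (W⁄K₀) v * LF' (W⁄K₀) v := by
  classical
  obtain ⟨j₀, hj⟩ := jint_Z hH
  have ecur : ((W⁄K₀)⁄K) = W⁄K := by
    show (W.map (algebraMap ℤ K₀)).map (algebraMap K₀ K) = W.map (algebraMap ℤ K)
    rw [WeierstrassCurve.map_map]
    congr 1
    exact Subsingleton.elim _ _
  have hup : ∀ w : HeightOneSpectrum (𝓞 K), v.asIdeal = w.asIdeal.under (𝓞 K₀) → GoodAt (W⁄K₀) v →
      GoodAt (W⁄K) w := by
    intro w hw hg
    have h2 := good_up hw hg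
    rwa [ecur] at h2
  rcases quad_primes' hτ v with ⟨w₁, w₂, hne, hN1, hN2, ⟨x1, hx1, hx1'⟩, ⟨x2, hx2, hx2'⟩, h⟩ |
    ⟨w₁, hN1, hnr, h⟩ | ⟨w₁, hr, h⟩
  · have hTe : T = {w₁, w₂} := by
      ext w
      rw [hT, h, Finset.mem_insert, Finset.mem_singleton]
    have hw1 := (h w₁).2 (Or.inl rfl)
    have hw2 := (h w₂).2 (Or.inr rfl)
    by_cases hg : GoodAt (W⁄K₀) v
    · have n1 := nw_split hH hτ hw1 hN1 ⟨x1, hx1, hx1'⟩ hg
      have n2 := nw_split hH hτ hw2 hN2 ⟨x2, hx2, hx2'⟩ hg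
      have e1 := lf_same (hup w₁ hw1 hg) hg hN1 n1
      have e2 := lf_same (hup w₂ hw2 hg) hg hN2 n2
      rw [hTe, Finset.prod_pair hne, e1, e2]
    · have b1 : ¬ GoodAt (W⁄K) w₁ := fun h1 => hg (good_desc hH hτ hw1 ⟨x1, fun h2 => hx1' (by
        have h3 := w₁.asIdeal.add_mem h2 hx1
        rwa [sub_add_cancel] at h3)⟩ h1)
      have b2 : ¬ GoodAt (W⁄K) w₂ := fun h1 => hg (good_desc hH hτ hw2 ⟨x2, fun h2 => hx2' (by
        have h3 := w₂.asIdeal.add_mem h2 hx2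
        rwa [sub_add_cancel] at h3)⟩ h1)
      rw [hTe, Finset.prod_pair hne, lf_W_bad W w₁ hj b1, lf_W_bad W w₂ hj b2, lf_W_bad W v hj hg]
  · have hTe : T = {w₁} := by
      ext w
      rw [hT, h, Finset.mem_singleton]
    have hw1 := (h w₁).2 rfl
    by_cases hg : GoodAt (W⁄K₀) v
    · obtain ⟨n1, n2⟩ := nw_inert hH hτ hw1 hN1 hg
      obtain ⟨α, hα⟩ := IsAlgClosed.exists_pow_nat_eq (-(Ideal.absNorm v.asIdeal : ℂ)) (n := 2) (by norm_num)
      have e1 := lf_ef (W⁄K₀) v hg (α := α) (β := -α) (by rw [n1]; push_cast; ring)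
        (by linear_combination -hα)
      have e2 := lf_ef (W⁄K) w₁ (hup w₁ hw1 hg) (α := -(Ideal.absNorm v.asIdeal : ℂ))
        (β := -(Ideal.absNorm v.asIdeal : ℂ)) (by rw [n2, hN1]; push_cast; ring)
        (by rw [hN1]; push_cast; ring)
      rw [hTe, Finset.prod_singleton, e2, e1, ef_sq (H55K.DD.d6_one_lt v) α, hN1, hα]
    · have b1 : ¬ GoodAt (W⁄K) w₁ := fun h1 => hg (good_desc hH hτ hw1 hnr h1)
      rw [hTe, Finset.prod_singleton, lf_W_bad W w₁ hj b1, lf_W_bad W v hj hg, mul_one]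
  · have hTe : T = {w₁} := by
      ext w
      rw [hT, h, Finset.mem_singleton]
    have hw1 := (h w₁).2 rfl
    obtain ⟨b1, b2⟩ := bad_ram hH hτ hw1 hr
    rw [hTe, Finset.prod_singleton, lf_W_bad W w₁ hj b1, lf_W_bad W v hj b2, mul_one]

end H55G
end

-- from Lib.H55G.F1a
section

/-! # H55G, part F: the L-function -/

open NumberField IsDedekindDomain WeierstrassCurve

namespace H55G

open H55P (IQ embF eF LF Per IsHecke Pt ac Inert Dec Nm PsiP mK UnitP UnrP)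
open H35P (WAB Ker GoodW IntW)
open H55K (CMA Tor TN ak xc yc cj cj_cj mul_cj Nm_cj Nm_mul Nm_nat GoodAt Abw)
open H55K.DD (LF' ef)
open H55K.MG (VC Crd)
open H55K.TQ

/-- Chunk F1 (S/M). Port of H55K.DD.lfun (D7.lean): in it, replace hL, hA by a finite set T' which contains T and for which all three eventual statements hold (Filter.eventually_ge_atTop T); LF' W w = ef .. * ef .. * g w for all w, with g w = LF' W w if w ∈ T and 1 otherwise (for w ∈ T: h w = 0 and ef q 0 = 1, see lfun_K in DM.lean); the product over T' of the g w is the product over T. -/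
theorem lfunD {K : Type} [Field K] [NumberField K] (W : WeierstrassCurve K) (h : Ideal (𝓞 K) →*₀ ℂ)
    (T : Finset (HeightOneSpectrum (𝓞 K))) (h0 : ∀ w ∈ T, h w.asIdeal = 0)
    (hloc : ∀ w : HeightOneSpectrum (𝓞 K), w ∉ T → LF' W w = ef (Ideal.absNorm w.asIdeal) (h w.asIdeal) *
      ef (Ideal.absNorm w.asIdeal) ((starRingEnd ℂ) (h w.asIdeal))) (n : ℕ) :
    ((W.LFunction n : ℤ) : ℂ) = (H55N.AI h * H55N.AI (fun a => (starRingEnd ℂ) (h a)) * ∏ w ∈ T, LF' W w) n := by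
  classical
  set L : HeightOneSpectrum (𝓞 K) → ArithmeticFunction ℤ := fun w =>
    (W.baseChange (w.adicCompletion K)).localEulerFactor
      (w.adicCompletionIntegers K) with hLdef
  have hL : ∀ᶠ T in Filter.atTop, (∏ w ∈ T, L w) n = W.LFunction n := by
    have hN : Northcott (fun w : HeightOneSpectrum (𝓞 K) =>
        Nat.card (IsLocalRing.ResidueField (w.adicCompletionIntegers K))) := by
      have h1 : (fun w : HeightOneSpectrum (𝓞 K) =>
        Nat.card (IsLocalRing.ResidueField (w.adicCompletionIntegers K))) =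
          fun w => Ideal.absNorm w.asIdeal := funext fun w => (H55B.residue_card K w).2
      rw [h1]
      infer_instance
    exact ArithmeticFunction.tendsTo_eulerProduct_ofPowerSeries
      (fun w : HeightOneSpectrum (𝓞 K) =>
        Nat.card (IsLocalRing.ResidueField (w.adicCompletionIntegers K)))
      (fun w => (W.baseChange (w.adicCompletion K)).localPowerSeries
        (w.adicCompletionIntegers K))
      (fun w => by simp [WeierstrassCurve.localPowerSeries]) n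
  have hA : ∀ᶠ T : Finset (HeightOneSpectrum (𝓞 K)) in Filter.atTop,
      ∀ m ∈ Finset.range (n + 1),
      (∏ w ∈ T, ef (Ideal.absNorm w.asIdeal) (h w.asIdeal)) m = H55N.AI h m ∧
      (∏ w ∈ T, ef (Ideal.absNorm w.asIdeal) ((starRingEnd ℂ) (h w.asIdeal))) m =
          H55N.AI (fun a => (starRingEnd ℂ) (h a)) m := by
    rw [Filter.eventually_all_finset]
    intro m _
    exact (H55N.AI_euler h m).and
      (H55N.AI_euler ((starRingEnd ℂ).toMonoidWithZeroHom.comp h) m)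
  obtain ⟨T', ⟨hT1, hT2⟩, hT3⟩ := ((hL.and hA).and (Filter.eventually_ge_atTop T)).exists
  have hT4 : T ⊆ T' := hT3
  rw [← hT1, ← ArithmeticFunction.intCoe_apply, H55B.I2_cast_prod]
  have he : ∀ q : ℕ, ef q 0 = 1 := by
    intro q
    unfold ef
    rw [H55N.H7_ps, map_one]
  have h1 : ∀ w ∈ T', ((L w : ArithmeticFunction ℤ) : ArithmeticFunction ℂ) =
      ef (Ideal.absNorm w.asIdeal) (h w.asIdeal) *
      ef (Ideal.absNorm w.asIdeal) ((starRingEnd ℂ) (h w.asIdeal)) * (if w ∈ T then LF' W w else 1) := by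
    intro w _
    by_cases hw : w ∈ T
    · rw [if_pos hw, h0 w hw, map_zero, he, one_mul, one_mul]
      rfl
    · rw [if_neg hw, mul_one]
      exact hloc w hw
  rw [Finset.prod_congr rfl h1, Finset.prod_mul_distrib, Finset.prod_mul_distrib, Finset.prod_ite_mem,
    Finset.inter_eq_right.2 hT4]
  refine H55B.I2_mul_congr (H55B.I2_mul_congr ?_ ?_) (fun _ _ => rfl) n le_rfl
  · intro m hm
    exact (hT2 m (Finset.mem_range.2 (by omega))).1
  · intro m hm
    exact (hT2 m (Finset.mem_range.2 (by omega))).2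

/-- The primes of K which divide the discriminant of W and at which W has good reduction. -/
def TE (W : WeierstrassCurve ℤ) (K : Type) [Field K] [NumberField K] : Set (HeightOneSpectrum (𝓞 K)) :=
  {w | ((W.Δ : ℤ) : 𝓞 K) ∈ w.asIdeal ∧ GoodAt (W⁄K) w}

/-- Chunk F1 (S). Finitely many primes contain the nonzero element W.Δ of 𝓞 K (Ideal.finite_factors / HeightOneSpectrum finite support; see H13E.q6_fin or prime_almost). -/
theorem te_fin (W : WeierstrassCurve ℤ) (hΔ : W.Δ ≠ 0) (K : Type) [Field K] [NumberField K] : (TE W K).Finite := by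
  have h1 : ((W.Δ : ℤ) : 𝓞 K) ≠ 0 := Int.cast_ne_zero.2 hΔ
  have h2 : (Ideal.span {((W.Δ : ℤ) : 𝓞 K)} : Ideal (𝓞 K)) ≠ 0 := by
    rw [Ideal.zero_eq_bot, Ne, Ideal.span_singleton_eq_bot]
    exact h1
  refine (Ideal.finite_factors h2).subset ?_
  intro w hw
  exact Ideal.dvd_span_singleton.2 hw.1

end H55G
end

-- from Lib.H55G.F1b
section

/-! # H55G, part F: the L-function -/

open NumberField IsDedekindDomain WeierstrassCurve

namespace H55G

open H55P (IQ embF eF LF Per IsHecke Pt ac Inert Dec Nm PsiP mK UnitP UnrP)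
open H35P (WAB Ker GoodW IntW)
open H55K (CMA Tor TN ak xc yc cj cj_cj mul_cj Nm_cj Nm_mul Nm_nat GoodAt Abw)
open H55K.DD (LF' ef)
open H55K.MG (VC Crd)
open H55K.TQ

variable {F : Type} [Field F] [NumberField F] [IQ F] {W : WeierstrassCurve ℤ} {Om : ℂ} {m : Ideal (𝓞 F)}
  {ψ : Ideal (𝓞 F) →*₀ 𝓞 F}

/-- Chunk F2 (M). lfunD for h = PsiP K ψ, T the finite set TE W K (te_fin; hΔ from hH.data.ell). As in the proof of lfun_K (DM.lean): for w with mK K m ≤ w (iff Δ in w: hH.supp and below; H13R.h1_pos): psi_bad: PsiP K ψ w = 0, so h0; and if w is not in T then w is bad and LF' = 1 (lf_bad with jint_of), ef q 0 = 1. For the other w: lf_good as there. (((W⁄(𝓞 F))⁄F)⁄K = W⁄K: cur_eq.) -/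
theorem lfun_KD (hH : BaseH F (W⁄(𝓞 F)) Om m ψ) {K : Type} [Field K] [NumberField K] [Algebra F K]
    (T : Finset (HeightOneSpectrum (𝓞 K))) (hT : ∀ w, w ∈ T ↔ w ∈ TE W K) (n : ℕ) :
    (((W⁄K).LFunction n : ℤ) : ℂ) =
      (H55N.AI (PsiP K ψ) * H55N.AI (fun a => (starRingEnd ℂ) (PsiP K ψ a)) * ∏ w ∈ T, LF' (W⁄K) w) n := by
  have hK : (((W⁄(𝓞 F))⁄F)⁄K) = W⁄K := H55K.TQ.cur_eq K
  have hψ := hH.data.hecke
  have hΔF : (W⁄(𝓞 F)).Δ = ((W.Δ : ℤ) : 𝓞 F) := by
    show (W.map (algebraMap ℤ (𝓞 F))).Δ = _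
    rw [WeierstrassCurve.map_Δ]
    rfl
  have hpos : ∀ w : HeightOneSpectrum (𝓞 K), ((W.Δ : ℤ) : 𝓞 K) ∈ w.asIdeal ↔ mK K m ≤ w.asIdeal := by
    intro w
    have h1 : algebraMap (𝓞 F) (𝓞 K) (W⁄(𝓞 F)).Δ ∈ w.asIdeal ↔ H55P.mK K m ≤ w.asIdeal := by
      obtain ⟨v, hv, -, -, hmv⟩ := H55K.DD.below (m := m) w
      rw [hmv, ← hH.supp v, hv]
      rfl
    rw [hΔF, map_intCast] at h1
    exact h1
  obtain ⟨j₀, hj₀⟩ := H55K.jint_of hH.data.per hH.data.ell
  refine lfunD (W⁄K) (PsiP K ψ) T (fun w hw => ?_) (fun w hw => ?_) n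
  · exact H55K.DD.psi_bad hψ w ((hpos w).1 ((hT w).1 hw).1)
  · obtain ⟨v, hv, hN, hf, hmv⟩ := H55K.DD.below (m := m) w
    by_cases hm : mK K m ≤ w.asIdeal
    · have h0 := H55K.DD.psi_bad hψ w hm
      have hb : ¬ GoodAt (((W⁄(𝓞 F))⁄F)⁄K) w := by
        rw [hK]
        exact fun hg => hw ((hT w).2 ⟨(hpos w).2 hm, hg⟩)
      rw [← hK, H55K.DD.lf_bad (W⁄(𝓞 F)) w j₀ hj₀ hb, h0, map_zero]
      have h1 : ef (Ideal.absNorm w.asIdeal) 0 = 1 := by
        unfold ef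
        rw [H55N.H7_ps, map_one]
      rw [h1, mul_one]
    · have hm' : ¬ m ≤ v.asIdeal := fun h => hm (hmv.2 h)
      have hΔ' : (W⁄(𝓞 F)).Δ ∉ v.asIdeal := fun h => hm' ((hH.supp v).1 h)
      obtain ⟨t1, t2⟩ := H55K.DD.trc hψ hm'
      rw [← hH.deu v hΔ'] at t2
      rw [← hK, H55K.DD.lf_good (W⁄(𝓞 F)) w v hv hΔ' _ _ t2 t1, H55P.PsiP_apply, hN, map_pow, map_pow, map_pow, map_pow,
        Complex.conj_conj, mul_comm]

end H55G
end

-- from Lib.H55G.F1c
section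

/-! # H55G, part F: the L-function -/

open NumberField IsDedekindDomain WeierstrassCurve

namespace H55G

open H55P (IQ embF eF LF Per IsHecke Pt ac Inert Dec Nm PsiP mK UnitP UnrP)
open H35P (WAB Ker GoodW IntW)
open H55K (CMA Tor TN ak xc yc cj cj_cj mul_cj Nm_cj Nm_mul Nm_nat GoodAt Abw)
open H55K.DD (LF' ef)
open H55K.MG (VC Crd)
open H55K.TQ

variable {F : Type} [Field F] [NumberField F] [IQ F] {W : WeierstrassCurve ℤ} {Om : ℂ} {m : Ideal (𝓞 F)}
  {ψ : Ideal (𝓞 F) →*₀ 𝓞 F}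

variable {K₀ K : Type} [Field K₀] [NumberField K₀] [Field K] [NumberField K] [Algebra F K] [Algebra K₀ K] {τ : K ≃ₐ[K₀] K}

/-- Chunk F3 (M). Port of lfun_quad (H55K/RI2.lean). (1) lfun_sq (RI1.lean) with lf_sq' (E9.lean): the L-function over K is the square of the one over K₀. (2) lfun_KD with the finite set T of K; ai_real (RE.lean) with psi_cj (RC2.lean; hram_of): AI (conj PsiP) = AI (PsiP). (3) ∏ over T of LF' (W⁄K) w = (∏ over T₀ of LF' (W⁄K₀) v)^2: T is the disjoint union over v in T₀ of the primes above v: for w above v: w in TE W K iff v in TE W K₀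
(the integer Δ; good_up, good_desc, bad_ram), lf_sq' for v. (4) So the square of the L-function over K₀ is (AI PsiP * ∏ over T₀)^2; H13E.sqrt_unique; both have value 1 at 1 (ri2_one, ri2_AI_one, lf_one). -/
theorem lfun_quadD (hH : BaseH F (W⁄(𝓞 F)) Om m ψ) (hτ : QT F K₀ K τ) (T : Finset (HeightOneSpectrum (𝓞 K₀)))
    (hT : ∀ v, v ∈ T ↔ v ∈ TE W K₀) (n : ℕ) :
    (((W⁄K₀).LFunction n : ℤ) : ℂ) = (H55N.AI (fun a => PsiP K ψ a) * ∏ v ∈ T, LF' (W⁄K₀) v) n := by
  classical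
  have hQ : H55K.TQ.QuadG F K₀ K := ⟨hτ.rank, τ, hτ.tau⟩
  have hψ := hH.data.hecke
  have ecur : ((W⁄K₀)⁄K) = W⁄K := by
    show (W.map (algebraMap ℤ K₀)).map (algebraMap K₀ K) = W.map (algebraMap ℤ K)
    rw [WeierstrassCurve.map_map]
    congr 1
    exact Subsingleton.elim _ _
  obtain ⟨ov, hmo⟩ : ∃ ov : HeightOneSpectrum (𝓞 K₀) → Finset (HeightOneSpectrum (𝓞 K)),
      ∀ v w, w ∈ ov v ↔ v.asIdeal = w.asIdeal.under (𝓞 K₀) :=
    ⟨fun v => (H13E.q6_fin K v).toFinset, fun v w => by simp⟩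
  have hTK : ∀ w : HeightOneSpectrum (𝓞 K), w ∈ T.biUnion ov ↔ w ∈ TE W K := by
    intro w
    obtain ⟨v, hv⟩ : ∃ v : HeightOneSpectrum (𝓞 K₀), v.asIdeal = w.asIdeal.under (𝓞 K₀) :=
      ⟨H13E.q6_under K₀ w, rfl⟩
    have h1 : w ∈ T.biUnion ov ↔ v ∈ T := by
      rw [Finset.mem_biUnion]
      constructor
      · rintro ⟨v', hv', hw⟩
        rw [hmo, ← hv] at hw
        rwa [← HeightOneSpectrum.ext hw]
      · intro h
        exact ⟨v, h, (hmo v w).2 hv⟩
    have h2 : ((W.Δ : ℤ) : 𝓞 K₀) ∈ v.asIdeal ↔ ((W.Δ : ℤ) : 𝓞 K) ∈ w.asIdeal := by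
      rw [hv, Ideal.under_def, Ideal.mem_comap, map_intCast]
    rw [h1, hT]
    constructor
    · rintro ⟨h3, h4⟩
      refine ⟨h2.1 h3, ?_⟩
      have h5 := good_up hv h4
      rwa [ecur] at h5
    · rintro ⟨h3, h4⟩
      refine ⟨h2.2 h3, good_desc hH hτ hv ?_ h4⟩
      by_contra hcon
      push Not at hcon
      exact (bad_ram hH hτ hv hcon).1 h4
  obtain ⟨P, hP⟩ : ∃ P : ArithmeticFunction ℂ, P = ∏ v ∈ T, LF' (W⁄K₀) v := ⟨_, rfl⟩
  obtain ⟨A, hA⟩ : ∃ A : ArithmeticFunction ℂ, A = H55N.AI (fun a : Ideal (𝓞 K) => PsiP K ψ a) := ⟨_, rfl⟩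
  have hprod : ∏ w ∈ T.biUnion ov, LF' (W⁄K) w = P * P := by
    rw [Finset.prod_biUnion]
    · rw [Finset.prod_congr rfl fun v _ => lf_sq' hH hτ v (ov v) (hmo v), Finset.prod_mul_distrib, hP]
    · intro v _ v' _ hne
      rw [Function.onFun, Finset.disjoint_left]
      intro w hw hw'
      rw [hmo] at hw hw'
      apply hne
      apply HeightOneSpectrum.ext
      rw [hw, hw']
  have hcj : H55N.AI (fun a : Ideal (𝓞 K) => (starRingEnd ℂ) (PsiP K ψ a)) = A := by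
    rw [hA]
    exact ai_real hQ (psi_cj hψ (fun v h1 _ => hH.deu v h1) hH.supp (fun v hv => hram_of hH v hv))
  have hf1 : (((W⁄K₀).LFunction : ArithmeticFunction ℤ) : ArithmeticFunction ℂ) 1 = 1 := by
    rw [ArithmeticFunction.intCoe_apply]
    exact ri2_one (W⁄K₀)
  have hg1 : (A * P) 1 = 1 := by
    have hP1 : P 1 = 1 := by
      rw [hP]
      exact H55D.DQA_prod_one T _ fun w _ => lf_one (W⁄K₀) w
    have hA1 : A 1 = 1 := by
      rw [hA]
      exact ri2_AI_one ψ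
    rw [ArithmeticFunction.mul_apply_one, hA1, hP1, one_mul]
  have hsq : ∀ k, ((((W⁄K₀).LFunction : ArithmeticFunction ℤ) : ArithmeticFunction ℂ) *
      (((W⁄K₀).LFunction : ArithmeticFunction ℤ) : ArithmeticFunction ℂ)) k = ((A * P) * (A * P)) k := by
    intro k
    rw [← lfun_sq (fun v T hT => lf_sq' hH hτ v T hT) k, lfun_KD hH (T.biUnion ov) hTK k, hprod, hcj]
    have e : (H55N.AI (PsiP K ψ) : ArithmeticFunction ℂ) = A := hA.symm
    rw [e]
    congr 1
    ring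
  have hfg := H13E.sqrt_unique hf1 hg1 hsq
  rw [← hA, ← hP, ← hfg, ArithmeticFunction.intCoe_apply]

end H55G
end

-- from Lib.H55G.F4a
section

/-! # H55G, part F: the Euler factors as Dirichlet series -/

open NumberField IsDedekindDomain WeierstrassCurve

namespace H55G

open H55P (IQ embF eF LF Per IsHecke Pt ac Inert Dec Nm PsiP mK UnitP UnrP)
open H55K (CMA Tor TN ak xc yc cj GoodAt Abw)
open H55K.DD (LF' ef)
open H55K.TQ

/-- The Euler factor (denominator) with N points over the field with q elements. -/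
noncomputable def Ew (q N : ℕ) (s : ℂ) : ℂ := 1 - ((q : ℂ) + 1 - N) * (q : ℂ) ^ (-s) + (q : ℂ) ^ (1 - 2 * s)

/-- Chunk F4A (S). cpow of a positive number is entire (q > 0). -/
theorem ew_an {q : ℕ} (hq : 1 < q) (N : ℕ) : Differentiable ℂ (Ew q N) := by
  have hq0 : (q : ℂ) ≠ 0 := by
    have h : q ≠ 0 := by omega
    exact_mod_cast h
  have h1 : Differentiable ℂ (fun s : ℂ => (q : ℂ) ^ (-s)) := differentiable_id.neg.const_cpow (Or.inl hq0)
  have h2 : Differentiable ℂ (fun s : ℂ => (q : ℂ) ^ (1 - 2 * s)) :=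
    ((differentiable_const _).sub (differentiable_id.const_mul 2)).const_cpow (Or.inl hq0)
  exact ((differentiable_const _).sub (h1.const_mul _)).add h2

/-- Chunk F4A (S). q^(-1) = 1/q, q^(1-2) = 1/q: 1 - (q + 1 - N)/q + 1/q = N/q. -/
theorem ew_one {q : ℕ} (hq : 1 < q) (N : ℕ) : Ew q N 1 = (N : ℂ) / q := by
  have hq0 : (q : ℂ) ≠ 0 := by
    have h : q ≠ 0 := by omega
    exact_mod_cast h
  unfold Ew
  have h1 : (1 : ℂ) - 2 * 1 = -1 := by ring
  rw [h1, Complex.cpow_neg_one]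
  field_simp
  ring

/-- Chunk F4A (S). Complex.cpow_conj (q positive real, arg 0): conj (q^(conj z)) = q^z. -/
theorem ew_conj {q : ℕ} (hq : 1 < q) (N : ℕ) (s : ℂ) : (starRingEnd ℂ) (Ew q N ((starRingEnd ℂ) s)) = Ew q N s := by
  have harg : ((q : ℕ) : ℂ).arg ≠ Real.pi := by
    rw [Complex.natCast_arg]
    exact Real.pi_pos.ne
  have hc : ∀ z : ℂ, (starRingEnd ℂ) ((q : ℂ) ^ z) = (q : ℂ) ^ ((starRingEnd ℂ) z) := by
    intro z
    rw [Complex.cpow_conj _ _ harg, Complex.conj_natCast]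
  unfold Ew
  simp only [map_add, map_sub, map_mul, hc, map_neg, Complex.conj_conj, map_one, map_ofNat, map_natCast]

/-- Chunk F4A (S/M). a = q + 1 - N, a^2 ≤ 4 q: the roots α, β of T^2 - a T + q are complex conjugates (or equal reals): α = (a + i sqrt(4 q - a^2))/2, β = conj α, |α|^2 = α β = q. -/
theorem roots_of_hasse {q N : ℕ} (h : ((q : ℤ) + 1 - (N : ℤ)) ^ 2 ≤ 4 * q) : ∃ α β : ℂ, α + β = (q : ℂ) + 1 - N ∧ α * β = q ∧
    ‖α‖ ^ 2 = q ∧ ‖β‖ ^ 2 = q := by
  let a : ℝ := (q : ℝ) + 1 - N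
  have ha : a ^ 2 ≤ 4 * q := by
    have h0 : (((((q : ℤ) + 1 - (N : ℤ)) ^ 2 : ℤ)) : ℝ) ≤ ((4 * (q : ℤ) : ℤ) : ℝ) := Int.cast_le.2 h
    push_cast at h0
    exact h0
  have hr : 0 ≤ 4 * (q : ℝ) - a ^ 2 := by linarith
  have hr2 : Real.sqrt (4 * (q : ℝ) - a ^ 2) ^ 2 = 4 * (q : ℝ) - a ^ 2 := Real.sq_sqrt hr
  generalize Real.sqrt (4 * (q : ℝ) - a ^ 2) = r at hr2
  have haC : (q : ℂ) + 1 - N = ((a : ℝ) : ℂ) := by
    change (q : ℂ) + 1 - N = (((q : ℝ) + 1 - N : ℝ) : ℂ)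
    push_cast
    ring
  refine ⟨⟨a / 2, r / 2⟩, ⟨a / 2, -(r / 2)⟩, ?_, ?_, ?_, ?_⟩
  · rw [haC]
    refine Complex.ext ?_ ?_
    · rw [Complex.add_re, Complex.ofReal_re]
      ring
    · rw [Complex.add_im, Complex.ofReal_im]
      ring
  · refine Complex.ext ?_ ?_
    · rw [Complex.mul_re, Complex.natCast_re]
      nlinarith [hr2]
    · rw [Complex.mul_im, Complex.natCast_im]
      ring
  · rw [Complex.sq_norm, Complex.normSq_apply]
    nlinarith [hr2]
  · rw [Complex.sq_norm, Complex.normSq_apply]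
    nlinarith [hr2]

/-- Chunk F4A (S/M). Ew q N s = (1 - α q^(-s)) (1 - β q^(-s)) (q^(1-2s) = q q^(-s) q^(-s), α β = q), |α q^(-s)| = q^(1/2 - Re s) < 1. -/
theorem ew_ne {q N : ℕ} (hq : 1 < q) (h : ((q : ℤ) + 1 - (N : ℤ)) ^ 2 ≤ 4 * q) {s : ℂ} (hs : 1 / 2 < s.re) : Ew q N s ≠ 0 := by
  obtain ⟨α, β, h1, h2, h3, h4⟩ := roots_of_hasse h
  have hq0 : (q : ℂ) ≠ 0 := by
    have h : q ≠ 0 := by omega
    exact_mod_cast h
  have hq1 : (1 : ℝ) < q := by exact_mod_cast hq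
  have hqp : (0 : ℝ) < q := by linarith
  have e1 : (q : ℂ) ^ (1 - 2 * s) = q * (q : ℂ) ^ (-s) * (q : ℂ) ^ (-s) := by
    have h5 : (1 : ℂ) - 2 * s = 1 + -s + -s := by ring
    rw [h5, Complex.cpow_add _ _ hq0, Complex.cpow_add _ _ hq0, Complex.cpow_one]
  have e2 : Ew q N s = (1 - α * (q : ℂ) ^ (-s)) * (1 - β * (q : ℂ) ^ (-s)) := by
    unfold Ew
    rw [e1, ← h1, ← h2]
    ring
  have hn : ∀ γ : ℂ, ‖γ‖ ^ 2 = q → 1 - γ * (q : ℂ) ^ (-s) ≠ 0 := by
    intro γ hγ h5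
    have h6 : γ * (q : ℂ) ^ (-s) = 1 := (sub_eq_zero.1 h5).symm
    have h7 : ‖γ * (q : ℂ) ^ (-s)‖ ^ 2 = 1 := by rw [h6, norm_one, one_pow]
    rw [norm_mul, mul_pow, hγ, Complex.norm_natCast_cpow_of_pos (by omega), Complex.neg_re] at h7
    have h8 : ((q : ℝ) ^ (-s.re)) ^ 2 = (q : ℝ) ^ (-s.re * 2) := by
      rw [← Real.rpow_natCast ((q : ℝ) ^ (-s.re)) 2, ← Real.rpow_mul hqp.le]
      norm_num
    rw [h8] at h7
    have h9 : (q : ℝ) * (q : ℝ) ^ (-s.re * 2) = (q : ℝ) ^ (1 + -s.re * 2) := by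
      rw [Real.rpow_add hqp, Real.rpow_one]
    rw [h9] at h7
    have h10 : (q : ℝ) ^ (1 + -s.re * 2) < 1 := Real.rpow_lt_one_of_one_lt_of_neg hq1 (by linarith)
    linarith
  rw [e2]
  exact mul_ne_zero (hn α h3) (hn β h4)

end H55G
end

-- from Lib.H55G.F4b
section

/-! # H55G, part F: the Euler factors as Dirichlet series -/

open NumberField IsDedekindDomain WeierstrassCurve

namespace H55G

open H55P (IQ embF eF LF Per IsHecke Pt ac Inert Dec Nm PsiP mK UnitP UnrP)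
open H55K (CMA Tor TN ak xc yc cj GoodAt Abw)
open H55K.DD (LF' ef)
open H55K.TQ

theorem f4b_coeff (a : ℂ) (k : ℕ) :
    PowerSeries.coeff k ((1 - PowerSeries.C a * PowerSeries.X)⁻¹ : PowerSeries ℂ) = a ^ k := by
  have h : (PowerSeries.mk fun n => a ^ n) = ((1 - PowerSeries.C a * PowerSeries.X)⁻¹ : PowerSeries ℂ) := by
    rw [PowerSeries.eq_inv_iff_mul_eq_one (by simp)]
    ext n
    rw [mul_sub, mul_one, map_sub, PowerSeries.coeff_mk, mul_comm (PowerSeries.C a), ← mul_assoc]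
    cases n with
    | zero => simp
    | succ n =>
      rw [PowerSeries.coeff_mul_C, PowerSeries.coeff_succ_mul_X, PowerSeries.coeff_mk, PowerSeries.coeff_one,
        if_neg (Nat.succ_ne_zero n), pow_succ, sub_self]
  rw [← h, PowerSeries.coeff_mk]

theorem f4b_pow (q k : ℕ) (s : ℂ) : ((q ^ k : ℕ) : ℂ) ^ s = ((q : ℂ) ^ s) ^ k := by
  induction k with
  | zero => simp
  | succ k ih => rw [pow_succ, Nat.cast_mul, Complex.natCast_mul_natCast_cpow, ih, pow_succ]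

theorem f4b_lt {q : ℕ} (hq : 1 < q) {α : ℂ} (hα : ‖α‖ ^ 2 = q) {s : ℂ} (hs : 1 / 2 < s.re) :
    ‖α * (q : ℂ) ^ (-s)‖ < 1 := by
  have hq1 : (1 : ℝ) < q := by exact_mod_cast hq
  have hq0 : (0 : ℝ) < q := by linarith
  rw [← sq_lt_one_iff₀ (norm_nonneg _), norm_mul, mul_pow, hα, Complex.norm_natCast_cpow_of_pos (by omega),
    ← Real.rpow_natCast, ← Real.rpow_mul hq0.le]
  nth_rw 1 [← Real.rpow_one (q : ℝ)]
  rw [← Real.rpow_add hq0]
  apply Real.rpow_lt_one_of_one_lt_of_neg hq1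
  rw [Complex.neg_re]
  push_cast
  linarith

/-- Chunk F4B (M). The Dirichlet series of ef q α: ef q α = ofPowerSeries q (geometric series), (ef q α) (q^k) = α^k and 0 at the other numbers (H55N.H7_ps, ArithmeticFunction.ofPowerSeries_apply..; the series (1 - C α X)⁻¹ has coefficients α^k). Its Dirichlet series is the sum of α^k (q^k)^(-s) = (α q^(-s))^k (sum over the powers of q: HasSum on the range of the injective map k ↦ q^k,
Function.Injective.hasSum_iff), = 1/(1 - α q^(-s)), |α q^(-s)| < 1. -/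
theorem ef_ser {q : ℕ} (hq : 1 < q) {α : ℂ} (hα : ‖α‖ ^ 2 = q) {s : ℂ} (hs : 1 / 2 < s.re) :
    LSeriesHasSum (fun n => ef q α n) s (1 - α * (q : ℂ) ^ (-s))⁻¹ := by
  unfold LSeriesHasSum
  have hinj : Function.Injective (fun k : ℕ => q ^ k) := Nat.pow_right_injective hq
  rw [← hinj.hasSum_iff]
  · have h1 := hasSum_geometric_of_norm_lt_one (f4b_lt hq hα hs)
    have e : (LSeries.term (fun n => ef q α n) s ∘ fun k : ℕ => q ^ k) = fun k => (α * (q : ℂ) ^ (-s)) ^ k := by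
      funext k
      have hk : q ^ k ≠ 0 := pow_ne_zero k (by omega)
      rw [Function.comp_apply, LSeries.term_of_ne_zero hk, ef, ArithmeticFunction.ofPowerSeries_apply_pow hq,
        f4b_coeff, f4b_pow, mul_pow, Complex.cpow_neg, inv_pow, div_eq_mul_inv]
    rw [e]
    exact h1
  · intro n hn
    rcases eq_or_ne n 0 with h0 | h0
    · rw [h0, LSeries.term_zero]
    · rw [LSeries.term_of_ne_zero h0, ef, ArithmeticFunction.ofPowerSeries_apply hq,
        Function.extend_apply' _ _ _ (fun ⟨k, hk⟩ => hn ⟨k, hk⟩), Pi.zero_apply, zero_div]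

end H55G
end

-- from Lib.H55G.F4c
section

/-! # H55G, part F: the Euler factors as Dirichlet series -/

open NumberField IsDedekindDomain WeierstrassCurve

namespace H55G

open H55P (IQ embF eF LF Per IsHecke Pt ac Inert Dec Nm PsiP mK UnitP UnrP)
open H55K (CMA Tor TN ak xc yc cj GoodAt Abw)
open H55K.DD (LF' ef)
open H55K.TQ

/-- Chunk F4B (S). lf_ef (E8.lean), roots_of_hasse, ef_ser twice, ArithmeticFunction.LSeriesHasSum_mul; Ew = product (see ew_ne). 1 < q: H55K.DD.d6_one_lt. -/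
theorem lf_ser {k : Type} [Field k] [NumberField k] (W : WeierstrassCurve k) (w : HeightOneSpectrum (𝓞 k)) (hg : GoodAt W w)
    (h : ((Ideal.absNorm w.asIdeal : ℤ) + 1 - (NW W w : ℤ)) ^ 2 ≤ 4 * Ideal.absNorm w.asIdeal) {s : ℂ} (hs : 1 / 2 < s.re) :
    LSeriesHasSum (fun n => LF' W w n) s (Ew (Ideal.absNorm w.asIdeal) (NW W w) s)⁻¹ := by
  obtain ⟨q, hqd⟩ : ∃ q : ℕ, q = Ideal.absNorm w.asIdeal := ⟨_, rfl⟩
  obtain ⟨N, hNd⟩ : ∃ N : ℕ, N = NW W w := ⟨_, rfl⟩
  have hq : 1 < q := by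
    rw [hqd]
    exact H55K.DD.d6_one_lt w
  rw [← hqd, ← hNd] at h ⊢
  obtain ⟨α, β, h1, h2, hα, hβ⟩ := roots_of_hasse h
  have hlf := lf_ef W w hg (α := α) (β := β) (by rw [← hqd, ← hNd]; exact h1) (by rw [← hqd]; exact h2)
  rw [← hqd] at hlf
  have hA := ef_ser hq hα hs
  have hB := ef_ser hq hβ hs
  have hAB := ArithmeticFunction.LSeriesHasSum_mul hA hB
  rw [hlf]
  have hq0 : (q : ℂ) ≠ 0 := by
    have : q ≠ 0 := by omega
    exact_mod_cast this
  have hE : Ew q N s = (1 - α * (q : ℂ) ^ (-s)) * (1 - β * (q : ℂ) ^ (-s)) := by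
    have h3 : (q : ℂ) ^ (1 - 2 * s) = q * ((q : ℂ) ^ (-s) * (q : ℂ) ^ (-s)) := by
      rw [← Complex.cpow_add _ _ hq0]
      have h4 : 1 - 2 * s = 1 + (-s + -s) := by ring
      rw [h4, Complex.cpow_add _ _ hq0, Complex.cpow_one]
    unfold Ew
    rw [h3, ← h1]
    obtain ⟨x, hx⟩ : ∃ x : ℂ, x = (q : ℂ) ^ (-s) := ⟨_, rfl⟩
    rw [← hx]
    linear_combination (-(x * x)) * h2
  rw [hE, mul_inv]
  exact hAB

end H55G
end

-- from Lib.H55G.F4d
section

/-! # H55G, part F: the Euler factors as Dirichlet series -/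

open NumberField IsDedekindDomain WeierstrassCurve

namespace H55G

open H55P (IQ embF eF LF Per IsHecke Pt ac Inert Dec Nm PsiP mK UnitP UnrP)
open H55K (CMA Tor TN ak xc yc cj GoodAt Abw)
open H55K.DD (LF' ef)
open H55K.TQ

/-- The product of the factors over the primes in TE W K. -/
noncomputable def EK (W : WeierstrassCurve ℤ) (K : Type) [Field K] [NumberField K] (s : ℂ) : ℂ :=
  ∏ᶠ w ∈ TE W K, Ew (Ideal.absNorm w.asIdeal) (NW (W⁄K) w) s

theorem F4d_one (s : ℂ) : LSeriesHasSum (fun n => (1 : ArithmeticFunction ℂ) n) s 1 := by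
  have h1 : ∀ n : ℕ, n ≠ 1 → LSeries.term (fun n => (1 : ArithmeticFunction ℂ) n) s n = 0 := by
    intro n hn
    rcases eq_or_ne n 0 with rfl | h0
    · exact LSeries.term_zero _ _
    · rw [LSeries.term_of_ne_zero h0, ArithmeticFunction.one_apply_ne hn, zero_div]
  have h2 : LSeries.term (fun n => (1 : ArithmeticFunction ℂ) n) s 1 = 1 := by
    rw [LSeries.term_of_ne_zero one_ne_zero, ArithmeticFunction.one_one, Nat.cast_one,
      Complex.one_cpow, div_one]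
  have h3 := hasSum_single 1 h1
  rw [h2] at h3
  exact h3

theorem F4d_EK (W : WeierstrassCurve ℤ) (K : Type) [Field K] [NumberField K]
    (T : Finset (HeightOneSpectrum (𝓞 K))) (hT : ∀ w, w ∈ T ↔ w ∈ TE W K) (s : ℂ) :
    EK W K s = ∏ w ∈ T, Ew (Ideal.absNorm w.asIdeal) (NW (W⁄K) w) s := by
  have h : TE W K = (T : Set (HeightOneSpectrum (𝓞 K))) := by
    ext w
    exact (hT w).symm
  unfold EK
  rw [h, finprod_mem_coe_finset]

/-- Chunk F4C (S/M). finprod_mem over a finite set is a Finset product (te_fin, finprod_mem_eq_finite_toFinset_prod); induction on the Finset with lf_ser and LSeriesHasSum_mul (the empty product: the Dirichlet series of 1 is 1, LSeries of ArithmeticFunction.one: δ function; H55N or Mathlib: LSeriesHasSum for delta). -/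
theorem ek_ser (W : WeierstrassCurve ℤ) (hΔ : W.Δ ≠ 0) (K : Type) [Field K] [NumberField K]
    (h : ∀ w ∈ TE W K, ((Ideal.absNorm w.asIdeal : ℤ) + 1 - (NW (W⁄K) w : ℤ)) ^ 2 ≤ 4 * Ideal.absNorm w.asIdeal)
    (T : Finset (HeightOneSpectrum (𝓞 K))) (hT : ∀ w, w ∈ T ↔ w ∈ TE W K) {s : ℂ} (hs : 1 / 2 < s.re) :
    LSeriesHasSum (fun n => (∏ w ∈ T, LF' (W⁄K) w) n) s (EK W K s)⁻¹ := by
  classical
  rw [F4d_EK W K T hT s]
  have key : ∀ S : Finset (HeightOneSpectrum (𝓞 K)), S ⊆ T →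
      LSeriesHasSum (fun n => (∏ w ∈ S, LF' (W⁄K) w) n) s
        (∏ w ∈ S, Ew (Ideal.absNorm w.asIdeal) (NW (W⁄K) w) s)⁻¹ := by
    intro S
    induction S using Finset.induction_on with
    | empty =>
      intro _
      rw [Finset.prod_empty, Finset.prod_empty, inv_one]
      exact F4d_one s
    | insert w S hw ih =>
      intro hS
      rw [Finset.prod_insert hw, Finset.prod_insert hw, mul_inv]
      have hwT : w ∈ TE W K := (hT w).1 (hS (Finset.mem_insert_self w S))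
      exact ArithmeticFunction.LSeriesHasSum_mul (lf_ser (W⁄K) w hwT.2 (h w hwT) hs)
        (ih fun x hx => hS (Finset.mem_insert_of_mem hx))
  exact key T (Finset.Subset.refl T)

/-- Chunk F4C (S). Products of ew_an, ew_ne, ew_conj, ew_one over the finite set. -/
theorem ek_props (W : WeierstrassCurve ℤ) (hΔ : W.Δ ≠ 0) (K : Type) [Field K] [NumberField K]
    (h : ∀ w ∈ TE W K, ((Ideal.absNorm w.asIdeal : ℤ) + 1 - (NW (W⁄K) w : ℤ)) ^ 2 ≤ 4 * Ideal.absNorm w.asIdeal) :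
    Differentiable ℂ (EK W K) ∧ (∀ s : ℂ, 1 / 2 < s.re → EK W K s ≠ 0) ∧
      (∀ s : ℂ, (starRingEnd ℂ) (EK W K ((starRingEnd ℂ) s)) = EK W K s) ∧
      EK W K 1 = ∏ᶠ w ∈ TE W K, ((NW (W⁄K) w : ℂ) / (Ideal.absNorm w.asIdeal : ℂ)) := by
  classical
  obtain ⟨T, hT⟩ : ∃ T : Finset (HeightOneSpectrum (𝓞 K)), ∀ w, w ∈ T ↔ w ∈ TE W K :=
    ⟨(te_fin W hΔ K).toFinset, fun w => Set.Finite.mem_toFinset _⟩
  have hE := F4d_EK W K T hT
  refine ⟨?_, ?_, ?_, ?_⟩
  · have hE' : EK W K = fun s => ∏ w ∈ T, Ew (Ideal.absNorm w.asIdeal) (NW (W⁄K) w) s := funext hE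
    rw [hE']
    have key : ∀ S : Finset (HeightOneSpectrum (𝓞 K)),
        Differentiable ℂ (fun s => ∏ w ∈ S, Ew (Ideal.absNorm w.asIdeal) (NW (W⁄K) w) s) := by
      intro S
      induction S using Finset.induction_on with
      | empty =>
        simp only [Finset.prod_empty]
        exact differentiable_const _
      | insert w S hw ih =>
        have e : (fun s => ∏ w ∈ insert w S, Ew (Ideal.absNorm w.asIdeal) (NW (W⁄K) w) s) =
            fun s => Ew (Ideal.absNorm w.asIdeal) (NW (W⁄K) w) s *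
              ∏ w ∈ S, Ew (Ideal.absNorm w.asIdeal) (NW (W⁄K) w) s := by
          funext s
          exact Finset.prod_insert hw
        rw [e]
        exact (ew_an (H55K.DD.d6_one_lt w) _).mul ih
    exact key T
  · intro s hs
    rw [hE s, Finset.prod_ne_zero_iff]
    intro w hw
    exact ew_ne (H55K.DD.d6_one_lt w) (h w ((hT w).1 hw)) hs
  · intro s
    rw [hE, hE, map_prod]
    exact Finset.prod_congr rfl fun w _ => ew_conj (H55K.DD.d6_one_lt w) _ s
  · rw [hE 1]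
    have h : TE W K = (T : Set (HeightOneSpectrum (𝓞 K))) := by
      ext w
      exact (hT w).symm
    rw [h, finprod_mem_coe_finset]
    exact Finset.prod_congr rfl fun w _ => ew_one (H55K.DD.d6_one_lt w) _

end H55G
end

-- from Lib.H55G.F5a
section

/-! # H55G, part F: the L-function over K in terms of the Hecke L-series -/

open NumberField IsDedekindDomain WeierstrassCurve

namespace H55G

open H55P (IQ embF eF LF Per IsHecke Pt ac Inert Dec Nm PsiP mK UnitP UnrP)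
open H35P (WAB Ker GoodW IntW)
open H55K (CMA Tor TN ak xc yc cj cj_cj mul_cj Nm_cj Nm_mul Nm_nat GoodAt Abw)
open H55K.DD (LF' ef)
open H55K.MG (VC Crd)
open H55K.TQ

variable {F : Type} [Field F] [NumberField F] [IQ F] {W : WeierstrassCurve ℤ} {Om : ℂ} {m : Ideal (𝓞 F)}
  {ψ : Ideal (𝓞 F) →*₀ 𝓞 F} {p : ℕ}

/-- The relation between the L-function over K and the Hecke L-series over KG: two cases. As H55K.TQ.LRel, with the factor EK. -/
def LRelE (W : WeierstrassCurve ℤ) (ψ : Ideal (𝓞 F) →*₀ 𝓞 F) (K : Type) [Field K] [NumberField K] (K' : IntermediateField F (AlgebraicClosure F))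
    [NumberField K'] : Prop :=
  (Module.finrank ℚ K = 2 * Module.finrank F K' ∧
    ∀ Φ : ℂ → ℂ, (∀ s : ℂ, 3 / 2 < s.re → HasSum (H55N.tm (PsiP K' ψ) s) (Φ s)) → ∀ s : ℂ, 3 / 2 < s.re →
      LSeriesHasSum (fun n => (((W⁄K).LFunction n : ℤ) : ℂ)) s (Φ s * (starRingEnd ℂ) (Φ ((starRingEnd ℂ) s)) / EK W K s)) ∨
  (Module.finrank ℚ K = Module.finrank F K' ∧
    ∀ Φ : ℂ → ℂ, (∀ s : ℂ, 3 / 2 < s.re → HasSum (H55N.tm (PsiP K' ψ) s) (Φ s)) → ∀ s : ℂ, 3 / 2 < s.re →
      LSeriesHasSum (fun n => (((W⁄K).LFunction n : ℤ) : ℂ)) s (Φ s / EK W K s))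

/-- Chunk F5 (M). Port of H13R.lrelR with lser_FR, lser_QR (Lib/H13R/D1.lean). First case (kg_dich, kg_iso; θ : K ≃ₐ[F] K'): lser_FR with lfun_KD (T = the Finset of te_fin) in place of lfun_K: the series is the product of h3 (as in lser_FR) and ek_ser (F4.lean; hasse_Z, E2C.lean): LSeriesHasSum_mul. Second case: Algebra K (KG F K ι) by KGmap, QuadG gives QT F K (KG F K ι) τ (hQ.rank, hQ.tau); lfun_quadD and ek_ser in lser_QR.
The degrees as there. -/
theorem lrelE (hH : BaseH F (W⁄(𝓞 F)) Om m ψ) (K : Type) [Field K] [NumberField K] (ι : K →ₐ[ℚ] AlgebraicClosure F)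
    [NumberField (KG F K ι)] : LRelE W ψ K (KG F K ι) := by
  classical
  have hΔ : W.Δ ≠ 0 := by
    intro h0
    apply hH.data.ell
    rw [WeierstrassCurve.baseChange, WeierstrassCurve.map_Δ, h0, map_zero]
  have hfin := te_fin W hΔ K
  obtain ⟨T, hT⟩ : ∃ T : Finset (HeightOneSpectrum (𝓞 K)), ∀ w, w ∈ T ↔ w ∈ TE W K :=
    ⟨hfin.toFinset, fun w => hfin.mem_toFinset⟩
  have hE : ∀ s : ℂ, 3 / 2 < s.re → LSeriesHasSum (fun n => (∏ w ∈ T, LF' (W⁄K) w) n) s (EK W K s)⁻¹ := by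
    intro s hs
    exact ek_ser W hΔ K (fun w hw => hasse_Z hH K w hw.2) T hT (by linarith)
  have h := hH.data.hecke
  rcases kg_dich F K ι with ⟨f, hf⟩ | hQ
  · left
    let : Algebra F K := f.toAlgebra
    obtain ⟨θ⟩ := kg_iso F K ι f hf
    refine ⟨?_, fun Φ hΦ s hs => ?_⟩
    · have h1 := Module.finrank_mul_finrank ℚ F K
      have h2 : Module.finrank F K = Module.finrank F (KG F K ι) := θ.toLinearEquiv.finrank_eq
      have h3 : Module.finrank ℚ F = 2 := IQ.deg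
      rw [h3, h2] at h1
      exact h1.symm
    · have hLs : ∀ s : ℂ, 3 / 2 < s.re → HasSum (H55N.tm (H55P.PsiP K ψ) s) (Φ s) :=
        fun s hs => tm_congr K (KG F K ι) θ s _ (hΦ s hs)
      have hs' : 3 / 2 < ((starRingEnd ℂ) s).re := by simpa using hs
      have h0 : H55P.PsiP K ψ ⊥ = 0 := (H55P.PsiP K ψ).map_zero
      have h1 := H55N.AI_LSeries (fun a => H55P.PsiP K ψ a) h0 s (H55N.tm_summable _ (H55P.PsiP_norm_le h) s hs)
      have h2 := H55N.AI_LSeries (fun a => (starRingEnd ℂ) (H55P.PsiP K ψ a)) (by rw [h0, map_zero]) s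
        (H55N.tm_summable _ (fun a => by rw [RCLike.norm_conj]; exact H55P.PsiP_norm_le h a) s hs)
      have e1 : ∑' a, H55N.tm (fun a => H55P.PsiP K ψ a) s a = Φ s := (hLs s hs).tsum_eq
      have e2 : ∑' a, H55N.tm (fun a => (starRingEnd ℂ) (H55P.PsiP K ψ a)) s a =
          (starRingEnd ℂ) (Φ ((starRingEnd ℂ) s)) := by
        have h3 := (Complex.hasSum_conj').2 (hLs _ hs')
        have h4 := h3.tsum_eq
        rw [← h4]
        exact tsum_congr fun a => H55N.H8_tm _ s a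
      rw [e1] at h1
      rw [e2] at h2
      have h3 := ArithmeticFunction.LSeriesHasSum_mul (ArithmeticFunction.LSeriesHasSum_mul h1 h2) (hE s hs)
      have e3 : (fun n => (((W⁄K).LFunction n : ℤ) : ℂ)) = fun n =>
          (H55N.AI (H55P.PsiP K ψ) * H55N.AI (fun a => (starRingEnd ℂ) (H55P.PsiP K ψ a)) *
            ∏ w ∈ T, LF' (W⁄K) w) n := by
        funext n
        exact lfun_KD hH T hT n
      rw [e3, div_eq_mul_inv]
      exact h3
  · right
    let : Algebra K (KG F K ι) := (KGmap F K ι).toAlgebra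
    refine ⟨quad_deg F hQ, fun Φ hΦ s hs => ?_⟩
    obtain ⟨τ, hτ⟩ := hQ.tau
    have h0 : H55P.PsiP (KG F K ι) ψ ⊥ = 0 := (H55P.PsiP (KG F K ι) ψ).map_zero
    have h1 := H55N.AI_LSeries (fun a => H55P.PsiP (KG F K ι) ψ a) h0 s
      (H55N.tm_summable _ (H55P.PsiP_norm_le h) s hs)
    have h2 : ∑' a : Ideal (𝓞 (KG F K ι)), H55N.tm (fun a => H55P.PsiP (KG F K ι) ψ a) s a = Φ s := (hΦ s hs).tsum_eq
    rw [h2] at h1
    have h3 := ArithmeticFunction.LSeriesHasSum_mul h1 (hE s hs)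
    have e1 : (fun n => (((W⁄K).LFunction n : ℤ) : ℂ)) = fun n =>
        (H55N.AI (fun a => H55P.PsiP (KG F K ι) ψ a) * ∏ w ∈ T, LF' (W⁄K) w) n := by
      funext n
      exact lfun_quadD hH (K := KG F K ι) (τ := τ) ⟨hQ.rank, hτ⟩ T hT n
    rw [e1, div_eq_mul_inv]
    exact h3

end H55G
end

-- from Lib.H55G.F5b
section

/-! # H55G, part F: the L-function over K in terms of the Hecke L-series -/

open NumberField IsDedekindDomain WeierstrassCurve

namespace H55G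

open H55P (IQ embF eF LF Per IsHecke Pt ac Inert Dec Nm PsiP mK UnitP UnrP)
open H35P (WAB Ker GoodW IntW)
open H55K (CMA Tor TN ak xc yc cj cj_cj mul_cj Nm_cj Nm_mul Nm_nat GoodAt Abw)
open H55K.DD (LF' ef)
open H55K.MG (VC Crd)
open H55K.TQ

variable {F : Type} [Field F] [NumberField F] [IQ F] {W : WeierstrassCurve ℤ} {Om : ℂ} {m : Ideal (𝓞 F)}
  {ψ : Ideal (𝓞 F) →*₀ 𝓞 F} {p : ℕ}

/-- The condition for a prime w of K' which contains the discriminant of W and at which W has good reduction. -/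
theorem f5b_use (K' : Type) [Field K'] [NumberField K'] [Algebra F K']
    (hOk : ∀ w : HeightOneSpectrum (𝓞 K'), algebraMap (𝓞 F) (𝓞 K') (W⁄(𝓞 F)).Δ ∈ w.asIdeal →
      GoodAt (((W⁄(𝓞 F))⁄F)⁄K') w → ¬ p ∣ NW (((W⁄(𝓞 F))⁄F)⁄K') w) (w : HeightOneSpectrum (𝓞 K'))
    (hw : ((W.Δ : ℤ) : 𝓞 K') ∈ w.asIdeal) (hg : GoodAt (W⁄K') w) : ¬ p ∣ NW (W⁄K') w := by
  have hc : ((W⁄(𝓞 F))⁄F)⁄K' = W⁄K' := cur_eq K'
  have h1 : algebraMap (𝓞 F) (𝓞 K') (W⁄(𝓞 F)).Δ ∈ w.asIdeal := by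
    have h2 : (W⁄(𝓞 F)).Δ = ((W.Δ : ℤ) : 𝓞 F) := by
      show (W.map (algebraMap ℤ (𝓞 F))).Δ = _
      rw [WeierstrassCurve.map_Δ]
      rfl
    rw [h2, map_intCast]
    exact hw
  have h3 := hOk w h1 (by rw [hc]; exact hg)
  rwa [hc] at h3

/-- A rational integer in the prime v lies in every prime above v. -/
theorem f5b_mem {K K' : Type} [Field K] [NumberField K] [Field K'] [NumberField K'] [Algebra K K'] {v : HeightOneSpectrum (𝓞 K)}
    {w : HeightOneSpectrum (𝓞 K')} (hv : v.asIdeal = w.asIdeal.under (𝓞 K)) (n : ℤ) (hn : (n : 𝓞 K) ∈ v.asIdeal) :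
    (n : 𝓞 K') ∈ w.asIdeal := by
  rw [hv] at hn
  have h1 : algebraMap (𝓞 K) (𝓞 K') (n : 𝓞 K) ∈ w.asIdeal := hn
  rwa [map_intCast] at h1

/-- Good reduction goes up. -/
theorem f5b_up {K K' : Type} [Field K] [NumberField K] [Field K'] [NumberField K'] [Algebra K K'] {v : HeightOneSpectrum (𝓞 K)}
    {w : HeightOneSpectrum (𝓞 K')} (hv : v.asIdeal = w.asIdeal.under (𝓞 K)) (hg : GoodAt (W⁄K) v) :
    GoodAt (W⁄K') w := by
  have ecur : ((W⁄K)⁄K') = W⁄K' := by
    show (W.map (algebraMap ℤ K)).map (algebraMap K K') = W.map (algebraMap ℤ K')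
    rw [WeierstrassCurve.map_map]
    congr 1
    exact Subsingleton.elim _ _
  have h2 := good_up hv hg
  rwa [ecur] at h2

/-- Chunk F6 (M). kg_dich. First case: θ : K ≃ₐ[F] KG F K ι; let Algebra K KG be given by θ (as in fb3b_badR in H13R/D1.lean); w the prime of KG above v (exists by integrality), W⁄KG is good at w (good_up), Δ is in w; hOk for w (((W⁄(𝓞 F))⁄F)⁄KG = W⁄KG: cur_eq): p does not divide NW (W⁄KG) w = NW (W⁄K) v (nw_iso, E2C.lean). Second case: KG/K quadratic (QT); quad_primes' (E3.lean) for v: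
third case: bad_ram: contradiction to v good. Two primes w₁, w₂: NW w₁ = NW v (nw_split), w₁ is good (good_up): hOk. One prime, norm q^2: nw_inert: NW w₁ = (q + 1)^2 = (NW v)^2: if p ∣ NW v then p ∣ NW w₁. -/
theorem ok_of (hH : BaseH F (W⁄(𝓞 F)) Om m ψ) (K : Type) [Field K] [NumberField K] (ι : K →ₐ[ℚ] AlgebraicClosure F)
    [NumberField (KG F K ι)] (hOk : OkM p (W⁄(𝓞 F)) (KG F K ι)) : ∀ v ∈ TE W K, ¬ p ∣ NW (W⁄K) v := by
  rintro v ⟨hv1, hv2⟩
  rcases kg_dich F K ι with ⟨f, hf⟩ | hQ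
  · let _ : Algebra F K := f.toAlgebra
    obtain ⟨θ⟩ := kg_iso F K ι f hf
    let _ : Algebra K (KG F K ι) := (θ : K →+* KG F K ι).toAlgebra
    have hs : Function.Surjective (algebraMap K (KG F K ι)) := θ.surjective
    have hwm := v.isMaximal
    obtain ⟨Q, hQ1, hQ2⟩ := Ideal.exists_maximal_ideal_liesOver_of_isIntegral (S := 𝓞 (KG F K ι)) v.asIdeal
    have hQ0 : Q ≠ ⊥ := Ideal.ne_bot_of_liesOver_of_ne_bot v.ne_bot Q
    have hover : v.asIdeal = (⟨Q, hQ1.isPrime, hQ0⟩ : HeightOneSpectrum (𝓞 (KG F K ι))).asIdeal.under (𝓞 K) := hQ2.over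
    have h1 := f5b_use (KG F K ι) hOk ⟨Q, hQ1.isPrime, hQ0⟩ (f5b_mem hover _ hv1) (f5b_up hover hv2)
    rwa [nw_iso hH hs hover hv2] at h1
  · let _ : Algebra K (KG F K ι) := (KGmap F K ι).toAlgebra
    obtain ⟨hrank, τ, hτ⟩ : QuadG F K (KG F K ι) := hQ
    have hT : QT F K (KG F K ι) τ := ⟨hrank, hτ⟩
    rcases quad_primes' hT v with ⟨w₁, w₂, hne, hN1, hN2, ⟨x1, hx1, hx1'⟩, ⟨x2, hx2, hx2'⟩, h⟩ |
      ⟨w₁, hN1, hnr, h⟩ | ⟨w₁, hr, h⟩
    · have hw1 := (h w₁).2 (Or.inl rfl)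
      have n1 := nw_split hH hT hw1 hN1 ⟨x1, hx1, hx1'⟩ hv2
      have h1 := f5b_use (KG F K ι) hOk w₁ (f5b_mem hw1 _ hv1) (f5b_up hw1 hv2)
      rwa [n1] at h1
    · have hw1 := (h w₁).2 rfl
      obtain ⟨n1, n2⟩ := nw_inert hH hT hw1 hN1 hv2
      have h1 := f5b_use (KG F K ι) hOk w₁ (f5b_mem hw1 _ hv1) (f5b_up hw1 hv2)
      rw [n2] at h1
      rw [n1]
      exact fun h2 => h1 (dvd_pow h2 two_ne_zero)
    · have hw1 := (h w₁).2 rfl
      exact fun _ => (bad_ram hH hT hw1 hr).2 hv2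

end H55G
end

-- from Lib.H55G.F5c
section

/-! # H55G, part F: the L-function over K in terms of the Hecke L-series -/

open NumberField IsDedekindDomain WeierstrassCurve

namespace H55G

open H55P (IQ embF eF LF Per IsHecke Pt ac Inert Dec Nm PsiP mK UnitP UnrP)
open H35P (WAB Ker GoodW IntW)
open H55K (CMA Tor TN ak xc yc cj cj_cj mul_cj Nm_cj Nm_mul Nm_nat GoodAt Abw)
open H55K.DD (LF' ef)
open H55K.MG (VC Crd)
open H55K.TQ

variable {F : Type} [Field F] [NumberField F] [IQ F] {W : WeierstrassCurve ℤ} {Om : ℂ} {m : Ideal (𝓞 F)}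
  {ψ : Ideal (𝓞 F) →*₀ 𝓞 F} {p : ℕ}

/-- The discriminant is not 0. -/
theorem f5c_hd (hH : BaseH F (W⁄(𝓞 F)) Om m ψ) : W.Δ ≠ 0 := by
  intro h
  apply hH.data.ell
  have e := WeierstrassCurve.map_Δ W (algebraMap ℤ (𝓞 F))
  rw [h, map_zero] at e
  exact e

/-- A prime number which divides the norm of the prime w lies in w. -/
theorem f5c_mem {K : Type} [Field K] [NumberField K] (w : HeightOneSpectrum (𝓞 K)) (hp : p.Prime)
    (h : p ∣ Ideal.absNorm w.asIdeal) : (p : 𝓞 K) ∈ w.asIdeal := by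
  have : Fact p.Prime := ⟨hp⟩
  have hfin : Finite (𝓞 K ⧸ w.asIdeal) := Ideal.finiteQuotientOfFreeOfNeBot w.asIdeal w.ne_bot
  have hw := w.isPrime
  have h1 : p ∣ Nat.card (𝓞 K ⧸ w.asIdeal) := h
  obtain ⟨x, hx⟩ := exists_prime_addOrderOf_dvd_card' p h1
  have hx0 : x ≠ 0 := by
    rintro rfl
    rw [addOrderOf_zero] at hx
    exact hp.one_lt.ne hx
  have h2 : (p : 𝓞 K ⧸ w.asIdeal) * x = 0 := by
    rw [← nsmul_eq_mul, ← hx]
    exact addOrderOf_nsmul_eq_zero x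
  rcases mul_eq_zero.1 h2 with h3 | h3
  · rw [← Ideal.Quotient.eq_zero_iff_mem, map_natCast]
    exact h3
  · exact absurd h3 hx0

/-- Chunk F7 (S/M). ek_props: the value at 1 is the product of NW/absNorm over the finite set TE W K. V(NW) = 1 for p not dividing NW (H55P.val_nat). V(absNorm v) = 1: absNorm v is a power of the prime number l in v; l ≠ p because Δ in v and p is coprime to Δ (fb6b_ndvd, FB6B.lean: p does not divide W.Δ; if p were in v then p and W.Δ would generate 1). -/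
theorem ek_unit (hH : BaseH F (W⁄(𝓞 F)) Om m ψ) (hp : PrimeH F (W⁄(𝓞 F)) p) (K : Type) [Field K] [NumberField K]
    (h : ∀ v ∈ TE W K, ¬ p ∣ NW (W⁄K) v) (V : ValuationSubring ℂ) (hV : V.valuation (p : ℂ) < 1) :
    V.valuation (EK W K 1) = 1 := by
  have hd := f5c_hd hH
  have hfin := te_fin W hd K
  obtain ⟨_, _, _, h1⟩ := ek_props W hd K (fun w hw => hasse_Z hH K w hw.2)
  rw [h1, finprod_mem_eq_finite_toFinset_prod _ hfin, map_prod]
  refine Finset.prod_eq_one fun w hw => ?_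
  rw [Set.Finite.mem_toFinset] at hw
  have hn : ¬ p ∣ Ideal.absNorm w.asIdeal := by
    intro h2
    have h3 := f5c_mem w hp.prime h2
    have h4 : IsCoprime (p : ℤ) W.Δ :=
      ((Nat.prime_iff_prime_int.1 hp.prime).coprime_iff_not_dvd).2 (fb6b_ndvd hp)
    obtain ⟨a, b, hab⟩ := h4
    have hw' := w.isPrime
    apply hw'.ne_top
    rw [Ideal.eq_top_iff_one]
    have h5 : (1 : 𝓞 K) = (a : 𝓞 K) * (p : 𝓞 K) + (b : 𝓞 K) * ((W.Δ : ℤ) : 𝓞 K) := by
      exact_mod_cast hab.symm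
    rw [h5]
    exact w.asIdeal.add_mem (Ideal.mul_mem_left _ _ h3) (Ideal.mul_mem_left _ _ hw.1)
  rw [map_div₀, H55P.val_nat p hp.prime V hV _ (h w hw), H55P.val_nat p hp.prime V hV _ hn, div_one]

/-- Chunk F7 (S). Only finitely many primes p divide one of the numbers NW (W⁄K) v > 0, v in TE W K (finite). NW > 0: the value EK at 1 is not 0 (ek_props, hasse_Z); or the zero point and finiteness. -/
theorem ok_almost (hH : BaseH F (W⁄(𝓞 F)) Om m ψ) (K : Type) [Field K] [NumberField K] :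
    {p : ℕ | p.Prime ∧ ¬ ∀ v ∈ TE W K, ¬ p ∣ NW (W⁄K) v}.Finite := by
  have hd := f5c_hd hH
  have hfin := te_fin W hd K
  obtain ⟨_, h0, _, h1⟩ := ek_props W hd K (fun w hw => hasse_Z hH K w hw.2)
  have h2 := h0 1 (by norm_num)
  rw [h1, finprod_mem_eq_finite_toFinset_prod _ hfin, Finset.prod_ne_zero_iff] at h2
  refine (hfin.biUnion (t := fun v => {p : ℕ | p ∣ NW (W⁄K) v}) fun v hv => ?_).subset ?_
  · have h3 := h2 v (hfin.mem_toFinset.2 hv)
    have h4 : NW (W⁄K) v ≠ 0 := by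
      intro h5
      apply h3
      rw [h5, Nat.cast_zero, zero_div]
    refine (Finset.finite_toSet (NW (W⁄K) v).divisors).subset fun p hp => ?_
    rw [Finset.mem_coe, Nat.mem_divisors]
    exact ⟨hp, h4⟩
  · rintro p ⟨_, hp⟩
    push Not at hp
    obtain ⟨v, hv, h3⟩ := hp
    exact Set.mem_biUnion hv h3

end H55G
end

-- from Lib.H55G.F8a
section

/-! # H55G, part F: the value of the L-function over K, with the factor EK -/

open NumberField IsDedekindDomain WeierstrassCurve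

namespace H55G

open H55P (IQ embF eF LF Per IsHecke Pt ac Inert Dec Nm PsiP mK UnitP UnrP)
open H55K (CMA Tor TN ak xc yc cj GoodAt Abw)
open H55K.TQ

variable {F : Type} [Field F] [NumberField F] [IQ F]

/-- The relation between the algebraic part of L(W/K, 1) and the Hecke L-value over K' (K' = KG F K ι), up to units at the primes above p: the conclusion of
H55K.TQ.lG_rel. -/
def RelV1 (p : ℕ) (W : WeierstrassCurve ℤ) (Om : ℂ) (ψ : Ideal (𝓞 F) →*₀ 𝓞 F) (K : Type) [Field K] [NumberField K]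
    (K' : IntermediateField F (AlgebraicClosure F)) [NumberField K'] : Prop :=
  ∀ Φ : ℂ → ℂ, AnalyticOnNhd ℂ Φ {s | 1 / 2 < s.re} →
    (∀ s : ℂ, 3 / 2 < s.re → HasSum (H55N.tm (H55P.PsiP K' ψ) s) (Φ s)) →
    ∃ Λ : ℂ → ℂ, AnalyticOnNhd ℂ Λ {s | 1 / 2 < s.re} ∧
      (∀ s : ℂ, 3 / 2 < s.re → LSeriesSummable (fun n => (((W⁄K).LFunction n : ℤ) : ℂ)) s ∧ Λ s = (W⁄K).LSeries s) ∧
      (Φ 1 ≠ 0 → Λ 1 ≠ 0) ∧
      ∀ V : ValuationSubring ℂ, V.valuation (p : ℂ) < 1 → ∀ L : PeriodPair, PerZ W L →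
        (V.valuation (lG K W L (Λ 1)) = V.valuation (Φ 1 / Om ^ Module.finrank F K') * V.valuation ((starRingEnd ℂ) (Φ 1 / Om ^ Module.finrank F K'))) ∨
        (V.valuation (lG K W L (Λ 1)) = V.valuation (Φ 1 / Om ^ Module.finrank F K') ∧
          V.valuation ((starRingEnd ℂ) (Φ 1 / Om ^ Module.finrank F K')) = V.valuation (Φ 1 / Om ^ Module.finrank F K'))

/-- The same without the hypothesis that p is unramified in K: the conclusion of H55Z.lG_relD. -/
def RelV2 (p : ℕ) (W : WeierstrassCurve ℤ) (Om : ℂ) (ψ : Ideal (𝓞 F) →*₀ 𝓞 F) (K : Type) [Field K] [NumberField K]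
    (K' : IntermediateField F (AlgebraicClosure F)) [NumberField K'] : Prop :=
  ∀ Φ : ℂ → ℂ, AnalyticOnNhd ℂ Φ {s | 1 / 2 < s.re} →
    (∀ s : ℂ, 3 / 2 < s.re → HasSum (H55N.tm (H55P.PsiP K' ψ) s) (Φ s)) →
    ∃ Λ : ℂ → ℂ, AnalyticOnNhd ℂ Λ {s | 1 / 2 < s.re} ∧
      (∀ s : ℂ, 3 / 2 < s.re → LSeriesSummable (fun n => (((W⁄K).LFunction n : ℤ) : ℂ)) s ∧ Λ s = (W⁄K).LSeries s) ∧
      (Φ 1 ≠ 0 → Λ 1 ≠ 0) ∧
      ∀ V : ValuationSubring ℂ, V.valuation (p : ℂ) < 1 → ∀ L : PeriodPair, PerZ W L →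
        (Module.finrank ℚ K = 2 * Module.finrank F K' ∧
          V.valuation (lG K W L (Λ 1)) = V.valuation (Φ 1 / Om ^ Module.finrank F K') *
            V.valuation ((starRingEnd ℂ) (Φ 1 / Om ^ Module.finrank F K')) * H55Z.sD V K) ∨
        (Module.finrank ℚ K = Module.finrank F K' ∧
          V.valuation (lG K W L (Λ 1)) = V.valuation (Φ 1 / Om ^ Module.finrank F K') * H55Z.sD V K)

variable {W : WeierstrassCurve ℤ} {Om : ℂ} {m : Ideal (𝓞 F)} {ψ : Ideal (𝓞 F) →*₀ 𝓞 F} {p : ℕ}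

/-- Chunk F8a (S). ek_props (F4.lean) with hasse_Z (E2C.lean), W.Δ ≠ 0 (hH.data.ell; see the proof of lfun_KD) and te_fin: Φ / EK is analytic on Re s > 1/2 (AnalyticOnNhd.div; EK is entire (Differentiable.analyticAt) and not 0 there); and V(EK 1) = 1 (ek_unit with hOk). EK 1 is real: conj (EK (conj 1)) = EK 1. -/
theorem ek_an (hH : BaseH F (W⁄(𝓞 F)) Om m ψ) (K : Type) [Field K] [NumberField K] :
    (∀ Φ : ℂ → ℂ, AnalyticOnNhd ℂ Φ {s | 1 / 2 < s.re} → AnalyticOnNhd ℂ (fun s => Φ s / EK W K s) {s | 1 / 2 < s.re}) ∧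
      EK W K 1 ≠ 0 ∧ (starRingEnd ℂ) (EK W K 1) = EK W K 1 := by
  obtain ⟨h1, h2, h3, -⟩ := ek_props W (f5c_hd hH) K (fun w hw => hasse_Z hH K w hw.2)
  refine ⟨fun Φ hΦ s hs => ?_, h2 1 (by norm_num), ?_⟩
  · exact (hΦ s hs).div (h1.analyticAt s) (h2 s hs)
  · have h4 := h3 1
    rwa [map_one] at h4

end H55G
end

-- from Lib.H55G.F8b
section

/-! # H55G, part F: the value of the L-function over K, with the factor EK -/

open NumberField IsDedekindDomain WeierstrassCurve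

namespace H55G

open H55P (IQ embF eF LF Per IsHecke Pt ac Inert Dec Nm PsiP mK UnitP UnrP)
open H55K (CMA Tor TN ak xc yc cj GoodAt Abw)
open H55K.TQ

variable {F : Type} [Field F] [NumberField F] [IQ F] {W : WeierstrassCurve ℤ} {Om : ℂ} {m : Ideal (𝓞 F)}
  {ψ : Ideal (𝓞 F) →*₀ 𝓞 F} {p : ℕ}

/-- Chunk F8b (S/M). Port of H55K.TQ.lG_rel (Lib/H55K/FB6B.lean) with LRelE (lrelE, F5.lean) in place of LRel: Λ = Φ Φ̄ / EK in the first case, Φ / EK in the second (ek_an, F8a.lean). The value of lG: lG_val for L1 = Λ 1, V(x / EK 1) = V(x) (ek_unit, F5.lean: V(EK 1) = 1). Second case: Λ 1 = Φ 1 / EK 1 is real by fb6b_real applied to Λ, and EK 1 is real and not 0, so Φ 1 is real; fb6b_conj as there. -/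
theorem relV1_of (hH : BaseH F (W⁄(𝓞 F)) Om m ψ) (hp : PrimeH F (W⁄(𝓞 F)) p) (K : Type) [Field K] [NumberField K]
    (ι : K →ₐ[ℚ] AlgebraicClosure F) [NumberField (KG F K ι)] (hU : UnrP p K) (hOk : ∀ v ∈ TE W K, ¬ p ∣ NW (W⁄K) v) :
    RelV1 p W Om ψ K (KG F K ι) := by
  classical
  intro Φ hΦa hΦ
  have hper := perW_of hH
  have hj := jint_Z hH
  have hΔ := fb6b_ndvd hp
  have hOm : Om ≠ 0 := hper.ne
  obtain ⟨han, hE0, hEr⟩ := ek_an hH K
  have hE1 : ∀ V : ValuationSubring ℂ, V.valuation (p : ℂ) < 1 → V.valuation (EK W K 1) = 1 :=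
    fun V hV => ek_unit hH hp K hOk V hV
  rcases lrelE hH K ι with ⟨hd, hR⟩ | ⟨hd, hR⟩
  · have hser := hR Φ hΦ
    refine ⟨fun z => Φ z * (starRingEnd ℂ) (Φ ((starRingEnd ℂ) z)) / EK W K z, han _ (hΦa.mul (H55B.I4_conj hΦa)),
      fun s hs => ⟨(hser s hs).LSeriesSummable, (hser s hs).LSeries_eq.symm⟩, fun h0 => ?_, fun V hV L hL => Or.inl ?_⟩
    · simp only [map_one]
      exact div_ne_zero (mul_ne_zero h0 ((map_ne_zero _).2 h0)) hE0
    · rw [lG_val K hper hL hp.prime hp.five hp.unr hU hΔ hj _ V hV, hd, fb6b_conj hper V, ← map_mul]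
      simp only [map_one]
      rw [two_mul, pow_add, div_right_comm, map_div₀ V.valuation (_ / _) (EK W K 1), hE1 V hV, div_one, mul_div_mul_comm]
  · have hser := hR Φ hΦ
    have hreal := fb6b_real K (han Φ hΦa) hser
    rw [map_div₀, hEr, div_left_inj' hE0] at hreal
    refine ⟨fun z => Φ z / EK W K z, han Φ hΦa, fun s hs => ⟨(hser s hs).LSeriesSummable, (hser s hs).LSeries_eq.symm⟩,
      fun h0 => div_ne_zero h0 hE0, fun V hV L hL => Or.inr ⟨?_, ?_⟩⟩
    · rw [lG_val K hper hL hp.prime hp.five hp.unr hU hΔ hj _ V hV, hd, div_right_comm, map_div₀ V.valuation (_ / _) (EK W K 1),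
        hE1 V hV, div_one]
    · rw [fb6b_conj hper V, hreal]

/-- Chunk F8b (S). The same with lG_valD (Lib/H55Z/P1.lean): port of H55Z.lG_relD. -/
theorem relV2_of (hH : BaseH F (W⁄(𝓞 F)) Om m ψ) (hp : PrimeH F (W⁄(𝓞 F)) p) (K : Type) [Field K] [NumberField K]
    (ι : K →ₐ[ℚ] AlgebraicClosure F) [NumberField (KG F K ι)] (hOk : ∀ v ∈ TE W K, ¬ p ∣ NW (W⁄K) v) :
    RelV2 p W Om ψ K (KG F K ι) := by
  classical
  intro Φ hΦa hΦ
  have hper := perW_of hH
  have hj := jint_Z hH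
  have hΔ := fb6b_ndvd hp
  have hOm : Om ≠ 0 := hper.ne
  obtain ⟨han, hE0, hEr⟩ := ek_an hH K
  have hE1 : ∀ V : ValuationSubring ℂ, V.valuation (p : ℂ) < 1 → V.valuation (EK W K 1) = 1 :=
    fun V hV => ek_unit hH hp K hOk V hV
  rcases lrelE hH K ι with ⟨hd, hR⟩ | ⟨hd, hR⟩
  · have hser := hR Φ hΦ
    refine ⟨fun z => Φ z * (starRingEnd ℂ) (Φ ((starRingEnd ℂ) z)) / EK W K z, han _ (hΦa.mul (H55B.I4_conj hΦa)),
      fun s hs => ⟨(hser s hs).LSeriesSummable, (hser s hs).LSeries_eq.symm⟩, fun h0 => ?_, fun V hV L hL => Or.inl ⟨hd, ?_⟩⟩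
    · simp only [map_one]
      exact div_ne_zero (mul_ne_zero h0 ((map_ne_zero _).2 h0)) hE0
    · rw [H55Z.lG_valD K hper hL hp.prime hp.five hp.unr hΔ hj _ V hV, hd, fb6b_conj hper V, ← map_mul]
      simp only [map_one]
      rw [two_mul, pow_add, div_right_comm, map_div₀ V.valuation (_ / _) (EK W K 1), hE1 V hV, div_one, mul_div_mul_comm]
  · have hser := hR Φ hΦ
    refine ⟨fun z => Φ z / EK W K z, han Φ hΦa, fun s hs => ⟨(hser s hs).LSeriesSummable, (hser s hs).LSeries_eq.symm⟩,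
      fun h0 => div_ne_zero h0 hE0, fun V hV L hL => Or.inr ⟨hd, ?_⟩⟩
    rw [H55Z.lG_valD K hper hL hp.prime hp.five hp.unr hΔ hj _ V hV, hd, div_right_comm,
      map_div₀ V.valuation (_ / _) (EK W K 1), hE1 V hV, div_one]

end H55G
end

-- from Lib.H55G.H1
section

/-! # H55G, part H: the analytic part over K and the Hecke L-value, from RelV1 -/

open NumberField IsDedekindDomain WeierstrassCurve

namespace H55G

open H55P (IQ embF eF LF Per IsHecke Pt ac Inert Dec Nm UnitP UnrP)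
open H35P (WAB Ker tt GoodW IntW)
open H55K H55K.TQ

variable {F : Type} [Field F] [NumberField F] [IQ F] {W : WeierstrassCurve ℤ} {Om : ℂ}
    {m : Ideal (𝓞 F)} {ψ : Ideal (𝓞 F) →*₀ 𝓞 F} {p : ℕ}

theorem lunit_iffV (hH : BaseH F (W⁄(𝓞 F)) Om m ψ) (hp : PrimeH F (W⁄(𝓞 F)) p) (K : Type) [Field K] [NumberField K]
    (K' : IntermediateField F (AlgebraicClosure F)) [NumberField K'] (hR : RelV1 p W Om ψ K K')
    (hI : H55P.IntG p Om ψ K') : H13R.LUnitG p W K ↔ H55P.ValG p Om ψ K' := by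
  constructor
  · intro hA
    obtain ⟨Φ, hΦa, hΦs, hΦi⟩ := hI
    obtain ⟨Λ, hΛa, hΛs, -, hΛv⟩ := hR Φ hΦa hΦs
    obtain ⟨⟨L, hL⟩, Λ', hΛa', hΛs', -, hΛu'⟩ := hA
    have e1 : Λ 1 = Λ' 1 := H55N.ident Λ Λ' hΛa hΛa' (fun s hs => by
      rw [(hΛs s hs).2, (hΛs' s hs).2]) 1 (by norm_num)
    have hunit : UnitP p (Φ 1 / Om ^ Module.finrank F K') := by
      intro V hV
      have hx : V.valuation (Φ 1 / Om ^ Module.finrank F K') ≤ 1 :=
        (V.valuation_le_one_iff _).2 (hΦi V hV)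
      have hxc : V.valuation ((starRingEnd ℂ) (Φ 1 / Om ^ Module.finrank F K')) ≤ 1 := by
        refine H55P.i5_conj V _ ?_
        rw [ValuationSubring.valuation_le_one_iff]
        exact hΦi _ (H55P.i5_above p hp.prime V hV)
      have hl1 : V.valuation (lG K W L (Λ 1)) = 1 := by
        rw [e1]
        exact hΛu' L hL V hV
      rcases hΛv V hV L hL with h | h
      · rw [h, ← map_mul] at hl1
        exact H55P.i5_two V _ _ hx hxc hl1
      · rw [h.1] at hl1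
        exact hl1
    refine ⟨Φ, hΦa, hΦs, ?_, hunit⟩
    intro h0
    apply H55P.pz6_ne hp.prime hunit
    rw [h0, zero_div]
  · intro hV
    obtain ⟨Φ, hΦa, hΦs, hΦ1, hΦu⟩ := hV
    obtain ⟨Λ, hΛa, hΛs, hΛ1, hΛv⟩ := hR Φ hΦa hΦs
    refine ⟨exists_perZ (perW_of hH), Λ, hΛa, hΛs, hΛ1 hΦ1, ?_⟩
    intro L hL V hV
    have hx := hΦu V hV
    have hxc := H55P.pz6_conj hp.prime (H55P.pz6_ne hp.prime hΦu) hΦu V hV
    rcases hΛv V hV L hL with h | h
    · rw [h, hx, hxc, one_mul]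
    · rw [h.1, hx]



end H55G
end

-- from Lib.H55G.J4
section

/-! # H55G, part J: the L-functions of isogenous curves agree -/

open NumberField IsDedekindDomain WeierstrassCurve

namespace H55G

open H55P (IQ embF eF LF Per IsHecke Pt ac Inert Dec Nm UnitP UnrP PExt)
open H55K H55K.TQ
open H55K.DD (LF' ef)
open H28I (TW)

variable {F : Type} [Field F] [NumberField F] [IQ F] {W W' : WeierstrassCurve ℤ} {Om : ℂ} {m : Ideal (𝓞 F)}
    {ψ : Ideal (𝓞 F) →*₀ 𝓞 F} {kap : ℤ} {e t u lam : ℚ} {p : ℕ}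

/-- Chunk J4 (S). Good w (for W, equivalently for W' : H28I.tw_good): lf_same (E8.lean) with nw_tw. Bad w: both are 1: lf_W_bad (H55K/RA2.lean) with jint_Z h.base and h.jint. -/
theorem lf_tw (h : TW F W W' Om m ψ kap e t u lam) (K : Type) [Field K] [NumberField K] (w : HeightOneSpectrum (𝓞 K)) :
    LF' (W'⁄K) w = LF' (W⁄K) w := by
  by_cases hg : GoodAt (W⁄K) w
  · exact lf_same ((H28I.tw_good h K w).2 hg) hg rfl (nw_tw h K w hg)
  · obtain ⟨j₀, hj⟩ := jint_Z h.base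
    obtain ⟨j₁, hj₁⟩ := h.jint
    rw [lf_W_bad W w hj hg, lf_W_bad W' w hj₁ fun hg' => hg ((H28I.tw_good h K w).1 hg')]

/-- Chunk J4 (S). ri1_ev (H55K/RI1.lean) for both curves: eventually in T the coefficients are those of the products over T, which agree (lf_tw, Finset.prod_congr). Filter.Eventually.and, exists; Int.cast_injective. -/
theorem lfun_tw (h : TW F W W' Om m ψ kap e t u lam) (K : Type) [Field K] [NumberField K] (n : ℕ) :
    (W'⁄K).LFunction n = (W⁄K).LFunction n := by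
  obtain ⟨T, h1, h2⟩ := ((ri1_ev (W⁄K) n).and (ri1_ev (W'⁄K) n)).exists
  have h3 : (((W'⁄K).LFunction n : ℤ) : ℂ) = (((W⁄K).LFunction n : ℤ) : ℂ) := by
    rw [← h1, ← h2, Finset.prod_congr rfl fun w _ => lf_tw h K w]
  exact Int.cast_injective h3

/-- Chunk J4 (S). H13R.i1_supp, cur_eq (as in H13R.i1_bad), H28I.tw_good, nw_tw. -/
theorem okm_tw (h : TW F W W' Om m ψ kap e t u lam) (M : IntermediateField F (AlgebraicClosure F)) [NumberField M] :
    OkM p (W'⁄(𝓞 F)) M ↔ OkM p (W⁄(𝓞 F)) M := by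
  unfold OkM
  refine forall_congr' fun w => ?_
  rw [H13R.i1_supp h w, cur_eq M, cur_eq M, H28I.tw_good h M w]
  refine imp_congr_right fun _ => imp_congr_right fun hg => ?_
  rw [nw_tw h M w hg]

end H55G
end

-- from Lib.H55K.EX1
section

/-! # H55K: the example y^2 + y = x^3: hypotheses -/

open NumberField IsDedekindDomain WeierstrassCurve

namespace H55K.TQ

open H55P (IQ embF eF LF Per IsHecke Pt ac Inert Dec Nm UnitP)
open H35P (WAB Ker tt GoodW IntW)
open H55K.MG (VC Crd)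

theorem ex1_lam : ((H55B.om : H55B.O) - 1) ^ 6 = -27 := by
  have h := H55B.om_rel
  linear_combination (H55B.om ^ 4 - 7 * H55B.om ^ 3 + 21 * H55B.om ^ 2 - 34 * H55B.om + 28) * h

theorem ex1_disc : H55P.W27O.Δ = -27 := by
  simp [H55P.W27O, WeierstrassCurve.Δ, WeierstrassCurve.b₂, WeierstrassCurve.b₄, WeierstrassCurve.b₆, WeierstrassCurve.b₈]

theorem ex1_mem (v : HeightOneSpectrum H55B.O) : (H55P.W27O.Δ ∈ v.asIdeal) ↔ (3 : H55B.O) ∈ v.asIdeal := by
  rw [ex1_disc]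
  have h27 : (-27 : H55B.O) = -(3 ^ 3) := by norm_num
  rw [h27, neg_mem_iff]
  constructor
  · intro h
    exact v.isPrime.mem_of_pow_mem _ h
  · intro h
    exact Ideal.pow_mem_of_mem _ h 3 (by norm_num)

/-- Chunk EX1 (S/M). y^2 + y = x^3 is bad at the prime above 3 of F: a change of variables with factor u gives Δ' = u^-12 Δ, Δ = -27 = unit * lam^6 with lam a uniformiser, so the valuation of Δ' is exp(-6 + 12 k), not 1. -/
theorem ex_bad (v : HeightOneSpectrum H55B.O) (hv : (3 : H55B.O) ∈ v.asIdeal) : ¬ GoodAt (H55P.W27O⁄(H55B.F)) v := by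
  rintro ⟨C, -, -, -, -, -, hΔ⟩
  have hlam : (H55B.om : H55B.O) - 1 ∈ v.asIdeal := by
    have h1 : ((H55B.om : H55B.O) - 1) ^ 6 ∈ v.asIdeal := by
      rw [ex1_lam, ← ex1_disc]
      exact (ex1_mem v).2 hv
    exact v.isPrime.mem_of_pow_mem _ h1
  have hspan : v.asIdeal = Ideal.span {(H55B.om : H55B.O) - 1} := by
    have hle : Ideal.span {(H55B.om : H55B.O) - 1} ≤ v.asIdeal := (Ideal.span_singleton_le_iff_mem _).2 hlam
    have hp : (Ideal.span {(H55B.om : H55B.O) - 1}).IsPrime :=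
      (Ideal.span_singleton_prime H55B.lam_prime.ne_zero).2 H55B.lam_prime
    have hmax : (Ideal.span {(H55B.om : H55B.O) - 1}).IsMaximal :=
      Ideal.IsPrime.isMaximal hp (by
        rw [Ne, Ideal.span_singleton_eq_bot]
        exact H55B.lam_prime.ne_zero)
    exact (hmax.eq_of_le v.isPrime.ne_top hle).symm
  have h1 : v.intValuation ((H55B.om : H55B.O) - 1) = WithZero.exp (-1 : ℤ) :=
    HeightOneSpectrum.intValuation_singleton v H55B.lam_prime.ne_zero hspan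
  have h2 : (H55P.W27O⁄(H55B.F)).Δ = algebraMap H55B.O H55B.F (((H55B.om : H55B.O) - 1) ^ 6) := by
    rw [ex1_lam, ← ex1_disc]
    exact H55P.W27O.map_Δ (algebraMap H55B.O H55B.F)
  rw [variableChange_Δ, h2, map_mul, map_pow, HeightOneSpectrum.valuation_of_algebraMap, map_pow, h1] at hΔ
  have hu : v.valuation H55B.F ((C.u⁻¹ : H55B.Fˣ) : H55B.F) ≠ 0 := (map_ne_zero _).2 (Units.ne_zero _)
  rw [← WithZero.exp_log hu, ← WithZero.exp_nsmul, ← WithZero.exp_nsmul, ← WithZero.exp_add, ← WithZero.exp_zero] at hΔ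
  have h3 := WithZero.exp_injective hΔ
  simp only [nsmul_eq_mul] at h3
  push_cast at h3
  omega

theorem ex1_relK (K : Type) [Field K] [NumberField K] [Algebra H55B.F K] (h1 : Module.finrank H55B.F K = 1)
    (J : Ideal H55B.O) : Ideal.relNorm H55B.O (J.map (algebraMap H55B.O (𝓞 K))) = J := by
  have hr : Module.finrank H55B.O (𝓞 K) = 1 := by
    rw [← h1]
    exact (IsFractionRing.finrank_eq H55B.O H55B.F (𝓞 K) K).symm
  rw [Ideal.relNorm_algebraMap (𝓞 K) J, hr, pow_one]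

theorem ex1_map {R : Type} [CommRing R] (f : R →+* R) (hf : ∀ x, f x = x) (J : Ideal R) : J.map f = J := by
  have h : f = RingHom.id R := RingHom.ext hf
  rw [h, Ideal.map_id]

theorem ex1_psi (J : Ideal H55B.O) :
    H55N.Psi H55B.F J = (starRingEnd ℂ) (eF H55B.F (H55P.psiE J)) := by
  have h := ex1_relK H55B.F (Module.finrank_self _) J
  rw [ex1_map _ (fun x => rfl) J] at h
  have h4 : H55N.Psi H55B.F J = (starRingEnd ℂ) (eF H55B.F (H55P.psiE (Ideal.relNorm H55B.O J))) := rfl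
  rw [h4]
  exact congrArg (fun I => (starRingEnd ℂ) (eF H55B.F (H55P.psiE I))) h

/-- Chunk EX1 (S/M). data: Δ = -27, perE (c₄ = 0, c₆ = -216), isHeckeE; deu: cardE (Z5.lean) for K = F (Psi F v = conj (e (psiE (relNorm v))), relNorm over F itself is the identity: use T2_equiv or Ideal.relNorm for the identity; or PsiP and H55K pts style; Nm z = e z conj (e z)); supp: Δ in v iff 3 in v iff m3 ≤ v. -/
theorem ex_base : BaseH H55B.F (EZ⁄(H55B.O)) H55P.OmE H55P.m3 H55P.psiE := by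
  rw [EZ_O]
  have h3v : ∀ v : HeightOneSpectrum H55B.O, H55P.m3 ≤ v.asIdeal ↔ (3 : H55B.O) ∈ v.asIdeal := by
    intro v
    unfold H55P.m3
    exact Ideal.span_singleton_le_iff_mem _
  refine ⟨⟨?_, ?_, H55P.isHeckeE⟩, ?_, ?_, ?_⟩
  · rw [ex1_disc]
    norm_num
  · have h4 : H55P.W27O.c₄ = 0 := by
      simp [H55P.W27O, WeierstrassCurve.c₄, WeierstrassCurve.b₂, WeierstrassCurve.b₄]
    have h6 : H55P.W27O.c₆ = -216 := by
      simp [H55P.W27O, WeierstrassCurve.c₆, WeierstrassCurve.b₂, WeierstrassCurve.b₄, WeierstrassCurve.b₆]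
    rw [h4, h6]
    have e1 : -(eF H55B.F (0 : 𝓞 H55B.F)) / 48 = (0 : ℂ) := by
      rw [map_zero]; norm_num
    have e2 : -(eF H55B.F (-216 : 𝓞 H55B.F)) / 864 = (1 / 4 : ℂ) := by
      rw [map_neg, map_ofNat]; norm_num
    rw [e1, e2]
    exact H55P.perE
  · intro v hv
    have h3 : (3 : H55B.O) ∉ v.asIdeal := fun h => hv ((ex1_mem v).2 h)
    have hc := H55P.cardE H55B.F v h3
    have hP : H55N.Psi H55B.F v.asIdeal = (starRingEnd ℂ) (eF H55B.F (H55P.psiE v.asIdeal)) := ex1_psi v.asIdeal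
    rw [hP, Complex.conj_conj] at hc
    have hN := H55P.Nm_eq (F := H55B.F) (1 - H55P.psiE v.asIdeal)
    have hN2 : ((Nm (1 - H55P.psiE v.asIdeal) : ℕ) : ℂ) =
        (1 - (starRingEnd ℂ) (eF H55B.F (H55P.psiE v.asIdeal))) * (1 - eF H55B.F (H55P.psiE v.asIdeal)) := by
      have h5 : ((Nm (1 - H55P.psiE v.asIdeal) : ℕ) : ℂ) =
          (((Nm (1 - H55P.psiE v.asIdeal) : ℕ) : ℝ) : ℂ) := by push_cast; rfl
      rw [h5, hN, ← Complex.normSq_eq_norm_sq, ← Complex.mul_conj, map_sub, map_sub, map_one, map_one]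
      ring
    have h6 := hc.trans hN2.symm
    exact_mod_cast h6
  · intro v
    rw [h3v, ex1_mem]
  · intro v hv
    exact ex_bad v ((ex1_mem v).1 hv)

/-- Chunk EX1 (S). sqfree_E; the ideals (27) and (p) are coprime. -/
theorem ex_prime {p : ℕ} (hp : p.Prime) (h5 : 5 ≤ p) : PrimeH H55B.F (EZ⁄(H55B.O)) p := by
  rw [EZ_O]
  refine ⟨hp, h5, H55P.sqfree_E p hp h5, ?_⟩
  rw [ex1_disc, Ideal.isCoprime_span_singleton_iff]
  have h1 : IsCoprime (-27 : ℤ) (p : ℤ) := by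
    rw [IsCoprime.neg_left_iff]
    have h2 : Nat.Coprime 27 p := by
      have h3 : Nat.Coprime 3 p := (Nat.coprime_primes Nat.prime_three hp).2 (by omega)
      have h4 : (27 : ℕ) = 3 ^ 3 := by norm_num
      rw [h4]
      exact Nat.Coprime.pow_left 3 h3
    exact_mod_cast Nat.isCoprime_iff_coprime.2 h2
  have h2 := h1.map (Int.castRingHom (𝓞 H55B.F))
  simpa using h2

end H55K.TQ
end

-- from Lib.H55W.EZM
section

/-! # H55W: y^2 + y = x^3 is a global minimal equation -/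

open NumberField IsDedekindDomain WeierstrassCurve H55K.TQ

namespace H55W

theorem ezm_disc : EZ.Δ = -27 := by
  simp only [EZ, WeierstrassCurve.Δ, WeierstrassCurve.b₂, WeierstrassCurve.b₄, WeierstrassCurve.b₆, WeierstrassCurve.b₈]
  norm_num

theorem ezm_min : H13D.MinZ EZ := by
  intro l hl hd C hC
  rw [ezm_disc] at hd
  have h3 : l = 3 := by
    have h1 : (l : ℤ) ∣ 3 ^ 3 := by
      have := (dvd_neg (a := (l : ℤ)) (b := 27)).1 hd
      norm_num
      exact this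
    have h2 : l ∣ 3 ^ 3 := by exact_mod_cast h1
    exact (Nat.prime_dvd_prime_iff_eq hl Nat.prime_three).1 (hl.dvd_of_dvd_pow h2)
  subst h3
  have hF : Fact (Nat.Prime 3) := ⟨Nat.prime_three⟩
  have hn := hC.num
  have hden := hC.den
  rw [WeierstrassCurve.variableChange_Δ] at hn hden
  have hΔ : (EZ⁄ℚ).Δ = -27 := by
    have := EZ.map_Δ (algebraMap ℤ ℚ)
    rw [ezm_disc] at this
    rw [show (EZ⁄ℚ) = EZ.map (algebraMap ℤ ℚ) from rfl, this]
    norm_num
  rw [hΔ] at hn hden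
  obtain ⟨q, hq⟩ : ∃ q : ℚ, ((C.u⁻¹ : ℚˣ) : ℚ) ^ 12 * -27 = q := ⟨_, rfl⟩
  rw [hq] at hn hden
  have h0 : padicValRat 3 q = 0 := by
    rw [padicValRat_def, padicValInt.eq_zero_of_not_dvd (by exact_mod_cast hn), padicValNat.eq_zero_of_not_dvd hden]
    simp
  have h1 : padicValRat 3 q = 12 * padicValRat 3 ((C.u⁻¹ : ℚˣ) : ℚ) + 3 := by
    rw [← hq, padicValRat.mul (pow_ne_zero _ (Units.ne_zero _)) (by norm_num), padicValRat.pow]
    have h2 : padicValRat 3 (-27 : ℚ) = 3 := by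
      rw [padicValRat.neg]
      have h4 : (27 : ℚ) = ((3 : ℕ) : ℚ) ^ 3 := by norm_num
      rw [h4, padicValRat.pow, padicValRat.self (by norm_num)]
      norm_num
    rw [h2]
    norm_num
  omega

theorem ezm_per : ∃ Om : ℂ, H55P.Per H55B.F (-(H55P.eF H55B.F (EZ⁄(H55B.O)).c₄) / 48) (-(H55P.eF H55B.F (EZ⁄(H55B.O)).c₆) / 864) Om :=
  ⟨H55P.OmE, ex_base.data.per⟩

end H55W
end

-- from Lib.H55K.EX2
section

/-! # H55K: the example y^2 + y = x^3: conclusions -/

open NumberField IsDedekindDomain WeierstrassCurve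

namespace H55K.TQ

open H55P (IQ embF eF LF Per IsHecke Pt ac Inert Dec Nm UnitP)
open H35P (WAB Ker tt GoodW IntW)
open H55K.MG (VC Crd)

/-- Chunk EX2 (S/M). an_rat (F2.lean) and ex_base: ValG over the bottom field from baseE (H55P/Z3.lean) by gen_glue (Gen.lean). -/
theorem ex_an {p : ℕ} (hp : p.Prime) (h5 : 5 ≤ p) : AnUnitG p EZ ℚ := by
  have hbn : NumberField (⊥ : IntermediateField H55B.F (AlgebraicClosure H55B.F)) := H16C.FR_numberField _
  rw [an_rat ex_base (ex_prime hp h5)]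
  refine H55P.gen_glue hp ?_
  intro V hV
  exact H55P.baseE _ IntermediateField.finrank_bot V (H55P.val3 p hp h5 V hV).1


end H55K.TQ
end
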