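import Mathlib
import Pool.Agent.Lib.H1M.PP2.M005
import Pool.Agent.Lib.H1M.PP2.M038
import Pool.Agent.Lib.H1M.PP2.M046
import Pool.Agent.Lib.H1M.PP2.M102
import Pool.Agent.Lib.H1M.PP2.M106
import Pool.Agent.Lib.H1M.PP2.M115
import Pool.Agent.Lib.H1M.PP2.M126
import Pool.Agent.Lib.H1M.PP2.M127

/-! Merged copies (to shorten the build) of Lib.H19B.C2, Lib.H19B.C3, Lib.H19C.AC, Lib.H19C.GP. -/

-- from Lib.H19B.C2
section

/-! # H19B, chunk C2 (M/L): commutators in the decomposition group are in the inertia group -/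

open NumberField IsDedekindDomain WeierstrassCurve

namespace H19B

open H55P (IQ Pt ac Dec Inert decS Nm)
open H35P (WAB Ker tt)
open H55K (Tor CMA Dta GV ak cj)

variable {F : Type} [Field F] [NumberField F] [IQ F] {A B : F} {Om : ℂ} {Ω : Type} [Field Ω] [DecidableEq Ω]
  [Algebra F Ω] [IsAlgClosure F Ω] {j : Ω →+* ℂ} {act : 𝓞 F →+* AddMonoid.End (Pt (WAB A B) Ω)} {mo : Ideal (𝓞 F)}
  {ψ : Ideal (𝓞 F) →*₀ 𝓞 F} {p : ℕ} {V : ValuationSubring Ω} {π : 𝓞 F}

/-- Chunk C2 (S/M, ONLY MATHLIB). Two automorphisms of an algebraic extension of the field with p elements commute. -/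
theorem aut_comm {K : Type} [Field K] (p : ℕ) [Fact p.Prime] [Algebra (ZMod p) K] [Algebra.IsAlgebraic (ZMod p) K]
    (σ τ : K ≃ₐ[ZMod p] K) (x : K) : σ (τ x) = τ (σ x) := by
  have hx : IsIntegral (ZMod p) x := (Algebra.IsAlgebraic.isAlgebraic x).isIntegral
  have hfd : FiniteDimensional (ZMod p) (IntermediateField.adjoin (ZMod p) {x}) :=
    IntermediateField.adjoin.finiteDimensional hx
  have hfin : Finite (IntermediateField.adjoin (ZMod p) {x}) := Module.finite_of_finite (ZMod p)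
  have hg : IsGalois (ZMod p) (IntermediateField.adjoin (ZMod p) {x}) := inferInstance
  have hn : Normal (ZMod p) (IntermediateField.adjoin (ZMod p) {x}) := hg.to_normal
  have hc : IsCyclic ((IntermediateField.adjoin (ZMod p) {x}) ≃ₐ[ZMod p] (IntermediateField.adjoin (ZMod p) {x})) :=
    inferInstance
  obtain ⟨g, hgg⟩ := hc
  have hcm : ∀ a b : ((IntermediateField.adjoin (ZMod p) {x}) ≃ₐ[ZMod p] (IntermediateField.adjoin (ZMod p) {x})),
      a * b = b * a := by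
    intro a b
    obtain ⟨m, hm⟩ := Subgroup.mem_zpowers_iff.1 (hgg a)
    obtain ⟨n, hn⟩ := Subgroup.mem_zpowers_iff.1 (hgg b)
    rw [← hm, ← hn, ← zpow_add, ← zpow_add, add_comm]
  set y : IntermediateField.adjoin (ZMod p) {x} := ⟨x, IntermediateField.mem_adjoin_simple_self _ x⟩ with hy
  have h1 : ∀ (ρ : K ≃ₐ[ZMod p] K) (z : IntermediateField.adjoin (ZMod p) {x}),
      ((ρ.restrictNormal (IntermediateField.adjoin (ZMod p) {x}) z : IntermediateField.adjoin (ZMod p) {x}) : K) =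
        ρ (z : K) := fun ρ z => AlgEquiv.restrictNormal_commutes ρ _ z
  have h2 := congrArg (fun ρ => ((ρ y : IntermediateField.adjoin (ZMod p) {x}) : K))
    (hcm (σ.restrictNormal (IntermediateField.adjoin (ZMod p) {x}))
      (τ.restrictNormal (IntermediateField.adjoin (ZMod p) {x})))
  simp only [AlgEquiv.mul_apply, h1] at h2
  exact h2

/-- The restriction of s to the valuation ring. -/
def c2_ve (V : ValuationSubring Ω) (s : Ω ≃ₐ[F] Ω) (hs : Dec V s) : V ≃+* V where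
  toFun := fun x => ⟨s x, (hs _).2 x.2⟩
  invFun := fun x => ⟨s.symm x, (hs _).1 (by rw [AlgEquiv.apply_symm_apply]; exact x.2)⟩
  left_inv := fun x => Subtype.ext (s.symm_apply_apply _)
  right_inv := fun x => Subtype.ext (s.apply_symm_apply _)
  map_mul' := fun x y => Subtype.ext (map_mul s _ _)
  map_add' := fun x y => Subtype.ext (map_add s _ _)

/-- Automorphisms of the residue field. -/
noncomputable def c2_map (p : ℕ) (V : ValuationSubring Ω) [Algebra (ZMod p) (IsLocalRing.ResidueField V)]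
    (s : Ω ≃ₐ[F] Ω) (hs : Dec V s) :
    IsLocalRing.ResidueField V ≃ₐ[ZMod p] IsLocalRing.ResidueField V :=
  AlgEquiv.ofRingEquiv (f := IsLocalRing.ResidueField.mapEquiv (c2_ve V s hs)) (fun r => by
    exact RingHom.congr_fun (Subsingleton.elim
      (((IsLocalRing.ResidueField.mapEquiv (c2_ve V s hs) : IsLocalRing.ResidueField V ≃+* IsLocalRing.ResidueField V) :
        IsLocalRing.ResidueField V →+* IsLocalRing.ResidueField V).comp (algebraMap (ZMod p) _))
      (algebraMap (ZMod p) _)) r)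

omit [NumberField F] [IQ F] [DecidableEq Ω] [IsAlgClosure F Ω] in
theorem c2_map_apply (p : ℕ) (V : ValuationSubring Ω) [Algebra (ZMod p) (IsLocalRing.ResidueField V)]
    (s : Ω ≃ₐ[F] Ω) (hs : Dec V s) (x : V) :
    c2_map p V s hs (IsLocalRing.residue V x) = IsLocalRing.residue V ⟨s x, (hs _).2 x.2⟩ := rfl

omit [NumberField F] [IQ F] [DecidableEq Ω] [IsAlgClosure F Ω] in
theorem c2_orbit (φ : Ω ≃ₐ[F] Ω) (x : Ω) (hx : IsIntegral F x) : ∃ m : ℕ, 0 < m ∧ (φ ^ m) x = x := by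
  have hne : minpoly F x ≠ 0 := minpoly.ne_zero hx
  have hm : ∀ n : ℕ, (φ ^ n) x ∈ (minpoly F x).rootSet Ω := by
    intro n
    rw [Polynomial.mem_rootSet]
    refine ⟨hne, ?_⟩
    have h := Polynomial.aeval_algHom_apply ((φ ^ n : Ω ≃ₐ[F] Ω) : Ω →ₐ[F] Ω) x (minpoly F x)
    rw [minpoly.aeval, map_zero] at h
    exact h
  have hni := not_injective_infinite_finite (fun n : ℕ => (⟨(φ ^ n) x, hm n⟩ : (minpoly F x).rootSet Ω))
  rw [Function.Injective] at hni
  push Not at hni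
  obtain ⟨a, b, hab, hne'⟩ := hni
  have hab' : (φ ^ a) x = (φ ^ b) x := congrArg Subtype.val hab
  have key : ∀ a b : ℕ, a < b → (φ ^ a) x = (φ ^ b) x → ∃ m : ℕ, 0 < m ∧ (φ ^ m) x = x := by
    intro a b hlt h
    refine ⟨b - a, Nat.sub_pos_of_lt hlt, ?_⟩
    apply (φ ^ a).injective
    rw [← AlgEquiv.mul_apply, ← pow_add, Nat.add_sub_cancel' hlt.le]
    exact h.symm
  rcases lt_or_gt_of_ne hne' with h | h
  · exact key a b h hab'
  · exact key b a h hab'.symm

omit [IQ F] [NumberField F] [DecidableEq Ω] in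
theorem c2_frob (K : IntermediateField F Ω) [NumberField K] {w : HeightOneSpectrum (𝓞 K)}
    (hw : H13S.Abv K V w) : ∃ s : Ω ≃ₐ[F] Ω, Dec V s ∧
      ∀ x ∈ V, V.valuation (s x - x ^ Ideal.absNorm w.asIdeal) < 1 := by
  have hac : IsAlgClosed Ω := IsAlgClosure.isAlgClosed F
  have hal : Algebra.IsAlgebraic F Ω := IsAlgClosure.isAlgebraic
  have hK : IsAlgClosure K Ω := ⟨hac, Algebra.IsAlgebraic.tower_top (K := F) K⟩
  obtain ⟨s, hs1, hs2⟩ := H13S.exists_frob w V (fun a ha => by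
    rw [← HeightOneSpectrum.valuation_lt_one_iff_mem (K := K)] at ha
    exact (hw.lt _).2 ha)
  exact ⟨s.restrictScalars F, hs1, hs2⟩

omit [IQ F] [DecidableEq Ω] in
/-- Chunk C2 (M). -/
theorem comm_inert (hp : p.Prime) (hV : V.valuation (p : Ω) < 1) (s t : Ω ≃ₐ[F] Ω) (hs : Dec V s) (ht : Dec V t) :
    Inert V (s * t * s⁻¹ * t⁻¹) := by
  have : Fact p.Prime := ⟨hp⟩
  have hal : Algebra.IsAlgebraic F Ω := IsAlgClosure.isAlgebraic
  have hpV : (p : Ω) ∈ V := natCast_mem V p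
  have hcast : ((p : V) : Ω) = (p : Ω) := by simp
  have hres0 : ∀ x : V, IsLocalRing.residue V x = 0 ↔ V.valuation (x : Ω) < 1 := by
    intro x
    rw [IsLocalRing.residue_eq_zero_iff, ValuationSubring.valuation_lt_one_iff]
  have hp0 : ((p : ℕ) : IsLocalRing.ResidueField V) = 0 := by
    have h1 := (hres0 (p : V)).2 (by rw [hcast]; exact hV)
    rw [map_natCast] at h1
    exact h1
  have hch : CharP (IsLocalRing.ResidueField V) p := by
    obtain ⟨c, hc⟩ := CharP.exists (IsLocalRing.ResidueField V)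
    have h1 : c ∣ p := (CharP.cast_eq_zero_iff _ c p).1 hp0
    rcases (Nat.dvd_prime hp).1 h1 with h2 | h2
    · exfalso
      rw [h2] at hc
      have h3 : ((1 : ℕ) : IsLocalRing.ResidueField V) = 0 := (CharP.cast_eq_zero_iff _ 1 1).2 dvd_rfl
      rw [Nat.cast_one] at h3
      exact one_ne_zero h3
    · rwa [h2] at hc
  let _ : Algebra (ZMod p) (IsLocalRing.ResidueField V) := ZMod.algebra _ p
  -- a Frobenius element
  have hfd : FiniteDimensional F (⊥ : IntermediateField F Ω) := inferInstance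
  have hnf : NumberField (⊥ : IntermediateField F Ω) := NumberField.of_module_finite F _
  obtain ⟨w, hw⟩ := H13S.exists_below (⊥ : IntermediateField F Ω) V ⟨((p : (⊥ : IntermediateField F Ω)))⁻¹, by
    intro h1
    have h2 : (((p : (⊥ : IntermediateField F Ω))⁻¹ : (⊥ : IntermediateField F Ω)) : Ω) = (p : Ω)⁻¹ := by
      simp
    rw [h2] at h1
    have h3 := (V.valuation_le_one_iff _).2 h1
    have hp0' : (p : Ω) ≠ 0 := by
      have hcz : CharZero Ω := charZero_of_injective_algebraMap (algebraMap F Ω).injective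
      exact Nat.cast_ne_zero.2 hp.ne_zero
    rw [map_inv₀] at h3
    have h4 : V.valuation (p : Ω) ≠ 0 := (V.valuation.ne_zero_iff).2 hp0'
    have h5 : (1 : V.ValueGroup) < (V.valuation (p : Ω))⁻¹ := (one_lt_inv₀ (zero_lt_iff.2 h4)).2 hV
    exact absurd h3 (not_le.2 h5)⟩
  obtain ⟨φ, hφ1, hφ2⟩ := c2_frob (⊥ : IntermediateField F Ω) hw
  set q := Ideal.absNorm w.asIdeal with hq
  have halg : Algebra.IsAlgebraic (ZMod p) (IsLocalRing.ResidueField V) := by
    refine ⟨fun y => ?_⟩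
    obtain ⟨x, rfl⟩ := IsLocalRing.residue_surjective y
    have hk : ∀ k : ℕ, ∃ h : (φ ^ k) (x : Ω) ∈ V,
        IsLocalRing.residue V ⟨(φ ^ k) (x : Ω), h⟩ = IsLocalRing.residue V x ^ q ^ k := by
      intro k
      induction k with
      | zero =>
        have e0 : (φ ^ 0) (x : Ω) = x := by rw [pow_zero, AlgEquiv.one_apply]
        have e1 : (φ ^ 0) (x : Ω) ∈ V := by rw [e0]; exact x.2
        refine ⟨e1, ?_⟩
        rw [show (⟨(φ ^ 0) (x : Ω), e1⟩ : V) = x from Subtype.ext e0, pow_zero, pow_one]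
      | succ k ih =>
        obtain ⟨h1, h2⟩ := ih
        have h3 : (φ ^ (k + 1)) (x : Ω) = φ ((φ ^ k) (x : Ω)) := by
          rw [pow_succ', AlgEquiv.mul_apply]
        have h4 : φ ((φ ^ k) (x : Ω)) ∈ V := (hφ1 _).2 h1
        refine ⟨by rw [h3]; exact h4, ?_⟩
        have h5 : IsLocalRing.residue V (⟨φ ((φ ^ k) (x : Ω)), h4⟩ - ⟨(φ ^ k) (x : Ω), h1⟩ ^ q) = 0 :=
          (hres0 _).2 (hφ2 _ h1)
        rw [map_sub, map_pow, sub_eq_zero, h2, ← pow_mul, ← pow_succ] at h5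
        rw [← h5]
        congr 1
        exact Subtype.ext h3
    obtain ⟨m, hm, hmx⟩ := c2_orbit φ (x : Ω) (hal.isAlgebraic _).isIntegral
    obtain ⟨h1, h2⟩ := hk m
    have h3 : IsLocalRing.residue V x ^ q ^ m = IsLocalRing.residue V x := by
      rw [← h2]
      congr 1
      exact Subtype.ext hmx
    have hq1 : 1 < q := by
      have h4 : q ≠ 0 := by
        intro h
        exact w.ne_bot (Ideal.absNorm_eq_zero_iff.1 h)
      have h5 : q ≠ 1 := by
        intro h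
        exact w.isPrime.ne_top (Ideal.absNorm_eq_one_iff.1 h)
      omega
    have hqm : 1 < q ^ m := Nat.one_lt_pow hm.ne' hq1
    refine ⟨Polynomial.X ^ q ^ m - Polynomial.X, FiniteField.X_pow_card_sub_X_ne_zero (ZMod p) hqm, ?_⟩
    rw [map_sub, map_pow, Polynomial.aeval_X, h3, sub_self]
  have hdc : ∀ g : Ω ≃ₐ[F] Ω, Dec V g ↔ g ∈ decS F V := fun g => Iff.rfl
  have hs' : Dec V s⁻¹ := (hdc _).2 (inv_mem ((hdc _).1 hs))
  have ht' : Dec V t⁻¹ := (hdc _).2 (inv_mem ((hdc _).1 ht))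
  intro x hx
  have hy1 : t⁻¹ x ∈ V := (ht' _).2 hx
  have hy : s⁻¹ (t⁻¹ x) ∈ V := (hs' _).2 hy1
  have h1 := aut_comm p (c2_map p V s hs) (c2_map p V t ht) (IsLocalRing.residue V ⟨s⁻¹ (t⁻¹ x), hy⟩)
  rw [c2_map_apply, c2_map_apply, c2_map_apply, c2_map_apply, ← sub_eq_zero, ← map_sub, hres0] at h1
  have e1 : t (s (s⁻¹ (t⁻¹ x))) = x := by
    rw [← AlgEquiv.mul_apply s, mul_inv_cancel, AlgEquiv.one_apply, ← AlgEquiv.mul_apply t, mul_inv_cancel,
      AlgEquiv.one_apply]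
  have e2 : (s * t * s⁻¹ * t⁻¹) x = s (t (s⁻¹ (t⁻¹ x))) := rfl
  rw [e2]
  have e3 : s (t (s⁻¹ (t⁻¹ x))) - x = s (t (s⁻¹ (t⁻¹ x))) - t (s (s⁻¹ (t⁻¹ x))) := by rw [e1]
  rw [e3]
  exact h1

end H19B
end

-- from Lib.H19B.C3
section

/-! # H19B, chunk C3 (M): unramified cocycles are trivial -/

open NumberField IsDedekindDomain WeierstrassCurve

namespace H19B

open H55P (IQ Pt ac Dec Inert decS Nm)
open H35P (WAB Ker tt)
open H55K (Tor CMA Dta GV ak cj)

variable {F : Type} [Field F] [NumberField F] [IQ F] {A B : F} {Om : ℂ} {Ω : Type} [Field Ω] [DecidableEq Ω]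
  [Algebra F Ω] [IsAlgClosure F Ω] {j : Ω →+* ℂ} {act : 𝓞 F →+* AddMonoid.End (Pt (WAB A B) Ω)} {mo : Ideal (𝓞 F)}
  {ψ : Ideal (𝓞 F) →*₀ 𝓞 F} {p : ℕ} {V : ValuationSubring Ω} {π : 𝓞 F}

theorem c3_nsmul (hd : π ∣ (p : 𝓞 F)) (T : Pt (WAB A B) Ω) (hT : act π T = 0) : p • T = 0 := by
  obtain ⟨c, hc⟩ := hd
  have h1 : act (p : 𝓞 F) T = p • T := by
    rw [map_natCast, AddMonoid.End.natCast_apply]
  rw [← h1, hc, mul_comm, map_mul]
  change act c (act π T) = 0
  rw [hT, map_zero]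



end H19B
end

-- from Lib.H19C.AC
section

/-! # H19C, chunk AC: the character of a cocycle -/

open NumberField IsDedekindDomain WeierstrassCurve

namespace H19C

open H55P (IQ Pt ac Dec Inert decS Nm)
open H35P (WAB Ker tt)
open H55K (Tor CMA Dta GV ak cj)
open H19B (DN mem_DN Cc CS mem_CS CI mem_CI c4_nat c4_add c4_mul c4_inj c4_rep Rep rep_exists rep_sum)

variable {F : Type} [Field F] [NumberField F] [IQ F] {A B : F} {Om : ℂ} {Ω : Type} [Field Ω] [DecidableEq Ω]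
  [Algebra F Ω] [IsAlgClosure F Ω] {j : Ω →+* ℂ} {act : 𝓞 F →+* AddMonoid.End (Pt (WAB A B) Ω)} {mo : Ideal (𝓞 F)}
  {ψ : Ideal (𝓞 F) →*₀ 𝓞 F} {p : ℕ} {V : ValuationSubring Ω} {π : 𝓞 F}

/-- The character of a cocycle on C with respect to the generator T₀. -/
noncomputable def ach (X : Frm F Ω) (T₀ : Pt (WAB A B) Ω) (c : (Ω ≃ₐ[F] Ω) → Pt (WAB A B) Ω) : (Ω ≃ₐ[F] Ω) → ZMod X.p :=
  open Classical in fun t => if h : ∃ a : ZMod X.p, c t = a.val • T₀ then h.choose else 0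

/-- Chunk C4 (S). Choose_spec; for c in CS and t in C the value c t is killed by π. -/
theorem ach_spec {X : Frm F Ω} {N : IntermediateField F Ω} (hX : Of X act π N) {T₀ : Pt (WAB A B) Ω}
    (h1 : ∀ T : Pt (WAB A B) Ω, act π T = 0 → ∃ a : ZMod X.p, T = a.val • T₀) {c : (Ω ≃ₐ[F] Ω) → Pt (WAB A B) Ω} (hc : Cc X.D act π c)
    (t : Ω ≃ₐ[F] Ω) (ht : t ∈ X.D) : c t = (ach X T₀ c t).val • T₀ := by
  classical
  have h := h1 (c t) (hc.tor t ht)
  have e : ach X T₀ c t = h.choose := dif_pos h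
  rw [e]
  exact h.choose_spec

/-- Chunk C4 (M). PROOF. On C the action on the points killed by p (so on c t, p • c t = 0 as p • T₀ = 0) is trivial: c (s t) = c s + c t, and a.val • T₀ determines a (h2; (a + b).val • T₀ = a.val • T₀ + b.val • T₀ as p • T₀ = 0: ZMod.val_add, or through natCast). tw: s in D, t in C: s (s⁻¹ t s) = t s, so
c (s * (s⁻¹ t s)) = c s + s c (s⁻¹ t s) and c (t s) = c t + t c s = c t + c s; hence s c (s⁻¹ t s) = c t. hX.ch for the point c (s⁻¹ t s): (et s).val • c t = (om s).val • c (s⁻¹ t s): et s * a t = om s * a (s⁻¹ t s). cont: from hc.cont (c s = 0 gives a s = 0 by h2). (s⁻¹ t s is in C: hX.ok.nrm1.) -/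
theorem ach_tw {X : Frm F Ω} {N : IntermediateField F Ω} (hX : Of X act π N) {T₀ : Pt (WAB A B) Ω} (h0 : act π T₀ = 0)
    (h1 : ∀ T : Pt (WAB A B) Ω, act π T = 0 → ∃ a : ZMod X.p, T = a.val • T₀) (h2 : ∀ a : ZMod X.p, a.val • T₀ = 0 → a = 0)
    (h3 : X.p • T₀ = 0) {c : (Ω ≃ₐ[F] Ω) → Pt (WAB A B) Ω} (hc : Cc X.D act π c) : X.Tw (ach X T₀ c) := by
  have hne : NeZero X.p := ⟨hX.ok.pr.ne_zero⟩
  have hD : ∀ t ∈ X.C, t ∈ X.D := fun t ht => hX.ok.le2 (hX.ok.le1 ht)
  have sp : ∀ t ∈ X.D, c t = (ach X T₀ c t).val • T₀ := fun t ht => ach_spec hX h1 hc t ht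
  have hk : ∀ t ∈ X.D, X.p • c t = 0 := by
    intro t ht
    rw [sp t ht, ← mul_nsmul', mul_comm, mul_nsmul', h3, nsmul_zero]
  have hfix : ∀ s ∈ X.C, ∀ t ∈ X.D, ac (WAB A B) s (c t) = c t := fun s hs t ht =>
    ((hX.C s).1 hs).2 _ (hk t ht)
  refine ⟨?_, ?_, ?_⟩
  · intro s hs t ht
    apply c4_inj h3 h2
    rw [c4_add h3, ← sp _ (X.D.mul_mem (hD s hs) (hD t ht)), ← sp _ (hD s hs), ← sp _ (hD t ht),
      hc.mul s (hD s hs) t (hD t ht), hfix s hs t (hD t ht)]
  · intro s hs t ht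
    have ht' : s⁻¹ * t * s ∈ X.C := hX.ok.nrm1 s hs t ht
    have e1 : s * (s⁻¹ * t * s) = t * s := by group
    have e2 := hc.mul s hs _ (hD _ ht')
    have e3 := hc.mul t (hD t ht) s hs
    rw [e1, e3, hfix t ht s hs, add_comm] at e2
    have e4 : ac (WAB A B) s (c (s⁻¹ * t * s)) = c t := (add_left_cancel e2).symm
    have e5 := hX.ch s hs _ (hc.tor _ (hD _ ht'))
    rw [e4] at e5
    apply c4_inj h3 h2
    rw [c4_mul h3, c4_mul h3, ← sp _ (hD _ ht'), ← sp _ (hD t ht), e5]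
  · obtain ⟨L, hL, hc3⟩ := hc.cont
    refine ⟨L, hL, fun s hs hs' => h2 _ ?_⟩
    rw [← sp s (hD s hs)]
    exact hc3 s (hD s hs) hs'

/-- Chunk C4 (M). PROOF. Let c'' = c - c', in CS, with c'' t = 0 for t in C, Inert t (ach c t = ach c' t, ach_spec). Let I = the subgroup D ⊓ inS (inertia), J = C ⊓ I. I acts trivially on Tor (cj π) (H13X.inert_tors, V(cj π) = 1: hypothesis hb), so I ≤ E, and J.relIndex I is finite and not divisible by p: Rep X.C X.E S with p not dividing card S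
(hX.ok.rep) gives that C has index card S in E (finite, prime to p); J = C ⊓ I, so J.relIndex I = C.relIndex I divides or at least is the cardinality of a subgroup of ... : C is normal in E (nrm1), E / C is a group of order card S, and I / J is (isomorphic to) its subgroup I C / C: its order divides card S
(Subgroup.relIndex_dvd_of_le_left / relIndex_inf ... for normal subgroups: Subgroup.relIndex_dvd_index_of_normal). rep_exists J I: representatives S' of I / J, p does not divide card S'. T = -(m • ∑ over s in S' of c'' s), m card S' = 1 modulo p. For g in I: c'' (g s) = c'' g + g c'' s, c'' (g s) depends only on the coset (c'' (s t) = c'' s + s c'' t = c'' s for t in J), so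
∑ c'' s = ∑ c'' (g s) = card S' • c'' g + g ∑ c'' s (rep_sum), hence g T - T = m card S' • c'' g = c'' g (p • c'' g = 0). act π T = 0. -/
theorem ach_inert (h : CMA F A B Om j act) {X : Frm F Ω} {N : IntermediateField F Ω} (hX : Of X act π N) (hG : GV A B X.V)
    (hd : π ∣ (X.p : 𝓞 F)) (hb : X.V.valuation (ak Ω (cj π)) = 1) {T₀ : Pt (WAB A B) Ω} (h0 : act π T₀ = 0)
    (h1 : ∀ T : Pt (WAB A B) Ω, act π T = 0 → ∃ a : ZMod X.p, T = a.val • T₀) (h2 : ∀ a : ZMod X.p, a.val • T₀ = 0 → a = 0)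
    {c c' : (Ω ≃ₐ[F] Ω) → Pt (WAB A B) Ω} (hc : Cc X.D act π c) (hc' : Cc X.D act π c')
    (hi : ∀ t ∈ X.C, Inert X.V t → ach X T₀ c t = ach X T₀ c' t) : c - c' ∈ CI X.D X.V act π := by
  classical
  have hD : ∀ t ∈ X.C, t ∈ X.D := fun t ht => hX.ok.le2 (hX.ok.le1 ht)
  have hcc : Cc X.D act π (c - c') := (CS X.D act π).sub_mem hc hc'
  refine (mem_CI X.D X.V π (c - c')).2 ⟨hcc, ?_⟩
  set d : (Ω ≃ₐ[F] Ω) → Pt (WAB A B) Ω := c - c' with hd0
  have hz : ∀ t ∈ X.C, Inert X.V t → d t = 0 := by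
    intro t ht hti
    rw [hd0, Pi.sub_apply, ach_spec hX h1 hc t (hD t ht), ach_spec hX h1 hc' t (hD t ht), hi t ht hti, sub_self]
  have hpd : ∀ s ∈ X.D, X.p • d s = 0 := by
    intro s hs
    obtain ⟨k, hk⟩ := hd
    rw [← H55K.S.act_nat (act := act) X.p (d s), hk, mul_comm, H55K.S.act_mul, hcc.tor s hs, map_zero]
  let I : Subgroup (Ω ≃ₐ[F] Ω) := X.D ⊓ H55P.inS F X.V
  have hIE : I ≤ X.E := by
    intro s hs
    refine (hX.E s).2 ⟨hs.1, fun T hT => ?_⟩
    exact H13X.inert_tors h hG hb hs.2 hT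
  obtain ⟨S, hS, hSp⟩ := hX.ok.rep
  have hidx : X.C.relIndex X.E = S.card := c4_rep hS
  have hnorm : (X.C.subgroupOf X.E).Normal := by
    constructor
    intro n hn g
    rw [Subgroup.mem_subgroupOf] at hn ⊢
    have h5 := hX.ok.nrm1 (g : Ω ≃ₐ[F] Ω)⁻¹ (X.D.inv_mem (hX.ok.le2 g.2)) _ hn
    rw [inv_inv] at h5
    exact h5
  have hdvd : X.C.relIndex I ∣ S.card := by
    have h6 := Subgroup.relIndex_dvd_index_of_normal (X.C.subgroupOf X.E) (I.subgroupOf X.E)
    rw [Subgroup.relIndex_subgroupOf hIE] at h6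
    rw [← hidx]
    exact h6
  have hp1 : ¬ X.p ∣ X.C.relIndex I := fun h6 => hSp (h6.trans hdvd)
  have hne : (X.C ⊓ I).relIndex I ≠ 0 := by
    rw [Subgroup.inf_relIndex_right]
    exact fun h6 => hp1 (h6 ▸ dvd_zero _)
  obtain ⟨S', hS', hcard⟩ := rep_exists (X.C ⊓ I) I hne
  rw [Subgroup.inf_relIndex_right] at hcard
  have hcop : Nat.Coprime S'.card X.p := by
    rw [hcard]
    exact ((Nat.Prime.coprime_iff_not_dvd hX.ok.pr).2 hp1).symm
  obtain ⟨m, _, hm⟩ := Nat.exists_mul_mod_eq_one_of_coprime hcop hX.ok.pr.one_lt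
  refine ⟨-(m • ∑ s ∈ S', d s), ?_, ?_⟩
  · rw [map_neg, map_nsmul, map_sum, Finset.sum_eq_zero (fun s hs => hcc.tor s (hS'.mem s hs).1), nsmul_zero, neg_zero]
  · intro g hg hgi
    have hgI : g ∈ I := ⟨hg, hgi⟩
    have e1 := rep_sum hS' d (fun s hs t ht => by
      rw [hcc.mul s hs.1 t ht.2.1, hz t ht.1 ht.2.2, map_zero, add_zero]) g hgI
    have e2 : ∑ s ∈ S', d (g * s) = S'.card • d g + ac (WAB A B) g (∑ s ∈ S', d s) := by
      rw [map_sum, ← Finset.sum_const, ← Finset.sum_add_distrib]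
      exact Finset.sum_congr rfl fun s hs => hcc.mul g hg s (hS'.mem s hs).1
    rw [e1] at e2
    have e3 : (S'.card * m) • d g = d g := by
      conv_lhs => rw [← Nat.mod_add_div (S'.card * m) X.p, hm]
      rw [add_nsmul, one_nsmul, mul_comm, mul_nsmul', hpd g hg, nsmul_zero, add_zero]
    rw [map_neg, map_nsmul, sub_neg_eq_add, neg_add_eq_sub, ← nsmul_sub]
    have e4 : ∑ s ∈ S', d s - ac (WAB A B) g (∑ s ∈ S', d s) = S'.card • d g := by
      rw [sub_eq_iff_eq_add]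
      exact e2
    rw [e4, ← mul_nsmul', mul_comm, e3]

/-- The (p-1)-st power of an element of D acts trivially on the points killed by the conjugate of π. -/
theorem ac_powB {X : Frm F Ω} {N : IntermediateField F Ω} (hX : Of X act π N) (hd : cj π ∣ (X.p : 𝓞 F))
    {t : Ω ≃ₐ[F] Ω} (ht : t ∈ X.D) {T : Pt (WAB A B) Ω} (hT : act (cj π) T = 0) : ac (WAB A B) (t ^ (X.p - 1)) T = T := by
  have hp := hX.ok.pr
  have hpT : X.p • T = 0 := H19B.c3_nsmul hd T hT
  have h1 : ∀ k : ℕ, ac (WAB A B) (t ^ k) T = ((X.et t).val ^ k) • T := by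
    intro k
    induction k with
    | zero => rw [pow_zero, pow_zero, one_nsmul, H55K.S.ac_one]
    | succ k ih =>
      rw [pow_succ' t k, H55K.S.ac_mul, ih, map_nsmul, hX.ch' t ht T hT, pow_succ, ← mul_nsmul]
      congr 1
      ring
  by_cases h0 : T = 0
  · rw [h0, map_zero]
  · rw [h1]
    have hn : ¬ X.p ∣ (X.et t).val := by
      rintro ⟨k, hk⟩
      have h2 := hX.ch' t ht T hT
      rw [hk, mul_comm, mul_nsmul', hpT, nsmul_zero] at h2
      exact h0 (H55K.S.ac_inj t (by rw [h2, map_zero]))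
    have hcop : Nat.Coprime (X.et t).val X.p := ((Nat.Prime.coprime_iff_not_dvd hp).2 hn).symm
    have h3 := Nat.ModEq.pow_totient hcop
    rw [Nat.totient_prime hp] at h3
    have h4 : addOrderOf T = X.p := by
      have : Fact X.p.Prime := ⟨hp⟩
      exact addOrderOf_eq_prime hpT h0
    have h5 : ((X.et t).val ^ (X.p - 1)) • T = 1 • T := nsmul_eq_nsmul_iff_modEq.2 (by rw [h4]; exact h3)
    rw [h5, one_nsmul]

/-- The case V(π) = 1: the difference is zero on the inertia group. -/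
theorem ach_inertB {X : Frm F Ω} (dta : Dta A B Om j act mo ψ X.p) {N : IntermediateField F Ω} (hX : Of X act π N) (hG : GV A B X.V)
    (hπ : Prime π) (hd : π ∣ (X.p : 𝓞 F)) (hs : ¬ π ∣ cj π) (ha : X.V.valuation (ak Ω π) = 1) {T₀ : Pt (WAB A B) Ω}
    (h1 : ∀ T : Pt (WAB A B) Ω, act π T = 0 → ∃ a : ZMod X.p, T = a.val • T₀)
    {c c' : (Ω ≃ₐ[F] Ω) → Pt (WAB A B) Ω} (hc : Cc X.D act π c) (hc' : Cc X.D act π c')
    (hi : ∀ t ∈ X.C, Inert X.V t → ach X T₀ c t = ach X T₀ c' t) : c - c' ∈ CU X.D X.D X.V act π := by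
  have hA := dta.cma
  have hp := dta.prime
  obtain ⟨hpp, u, v₁, huv⟩ := H19B.tors_split hA hp dta.unr hπ hd hs
  have hd' : cj π ∣ (X.p : 𝓞 F) := ⟨π, by rw [mul_comm, hpp]⟩
  have hact : ∀ T : Pt (WAB A B) Ω, act (X.p : 𝓞 F) T = X.p • T := fun T => H55K.S.act_nat X.p T
  have hD : ∀ t ∈ X.C, t ∈ X.D := fun t ht => hX.ok.le2 (hX.ok.le1 ht)
  have hcc : Cc X.D act π (c - c') := (CS X.D act π).sub_mem hc hc'
  refine (mem_CU X.D X.D X.V π (c - c')).2 ⟨hcc, fun t ht hti => ?_⟩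
  have hz : ∀ t ∈ X.C, Inert X.V t → (c - c') t = 0 := by
    intro t ht hti
    rw [Pi.sub_apply, ach_spec hX h1 hc t (hD t ht), ach_spec hX h1 hc' t (hD t ht), hi t ht hti, sub_self]
  have hfix : ∀ T : Pt (WAB A B) Ω, act π T = 0 → ac (WAB A B) t T = T := fun T hT =>
    H13X.inert_tors hA hG ha hti (H55K.S.mem_Tor.2 hT)
  -- the powers of t
  have hpow : ∀ k : ℕ, t ^ k ∈ X.D ∧ (c - c') (t ^ k) = k • (c - c') t := by
    intro k
    induction k with
    | zero =>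
      refine ⟨by rw [pow_zero]; exact X.D.one_mem, ?_⟩
      have h2 := hcc.mul 1 X.D.one_mem 1 X.D.one_mem
      rw [mul_one, H55K.S.ac_one] at h2
      rw [pow_zero, zero_nsmul]
      exact left_eq_add.1 h2
    | succ k ih =>
      refine ⟨X.D.pow_mem ht _, ?_⟩
      rw [pow_succ' t k, hcc.mul t ht _ ih.1, ih.2, map_nsmul, hfix _ (hcc.tor t ht), succ_nsmul, add_comm]
  have hpd : X.p • (c - c') t = 0 := H19B.c3_nsmul hd _ (hcc.tor t ht)
  have hC : t ^ (X.p - 1) ∈ X.C := by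
    refine (hX.C _).2 ⟨X.D.pow_mem ht _, fun T hT => ?_⟩
    have h2 : act π (act (v₁ * cj π) T) = 0 := by
      rw [← H55K.S.act_mul]
      have e1 : π * (v₁ * cj π) = v₁ * (X.p : 𝓞 F) := by rw [← hpp]; ring
      rw [e1, H55K.S.act_mul, hact, hT, map_zero]
    have h3 : act (cj π) (act (u * π) T) = 0 := by
      rw [← H55K.S.act_mul]
      have e1 : cj π * (u * π) = u * (X.p : 𝓞 F) := by rw [← hpp]; ring
      rw [e1, H55K.S.act_mul, hact, hT, map_zero]
    have h4 : act (v₁ * cj π) T + act (u * π) T = T := by rw [← H55K.S.act_add, add_comm, huv, H55K.S.act_one]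
    have h5 : ∀ k : ℕ, ac (WAB A B) (t ^ k) (act (v₁ * cj π) T) = act (v₁ * cj π) T := by
      intro k
      induction k with
      | zero => rw [pow_zero, H55K.S.ac_one]
      | succ k ih => rw [pow_succ' t k, H55K.S.ac_mul, ih, hfix _ h2]
    have h6 : ac (WAB A B) (t ^ (X.p - 1)) (act (v₁ * cj π) T + act (u * π) T) = act (v₁ * cj π) T + act (u * π) T := by
      rw [map_add, h5, ac_powB hX hd' ht h3]
    rwa [h4] at h6
  have hIn : Inert X.V (t ^ (X.p - 1)) := (H55P.inS F X.V).pow_mem hti _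
  have h7 := hz _ hC hIn
  rw [(hpow _).2] at h7
  have h8 : X.p • (c - c') t = (X.p - 1) • (c - c') t + (c - c') t := by
    rw [← succ_nsmul, Nat.sub_add_cancel hp.one_lt.le]
  rw [hpd, h7, zero_add] at h8
  exact h8.symm

end H19C
end

-- from Lib.H19C.GP
section

/-! # H19C, chunk GP: the product of the local bounds -/

open NumberField IsDedekindDomain WeierstrassCurve

namespace H19C

open H55P (IQ Nm)
open H55R (Pl)

variable {F : Type} [Field F] [NumberField F] [IQ F]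

/-- The product of the norms of the primes dividing π, with multiplicities. -/
theorem prod_norm_pow {N : Type} [Field N] [NumberField N] [Algebra F N] {π : 𝓞 F} (h0 : π ≠ 0)
    (T : Finset (Pl N)) (b : Pl N → ℕ) (hT : ∀ v ∈ T, v.valuation N (algebraMap F N (π : F)) = WithZero.exp (-(b v : ℤ))) :
    ∏ v ∈ T, Ideal.absNorm v.asIdeal ^ b v ≤ Nm π ^ Module.finrank F N := by
  classical
  have hinj : Function.Injective (algebraMap (𝓞 F) (𝓞 N)) := FaithfulSMul.algebraMap_injective (𝓞 F) (𝓞 N)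
  have hπ : algebraMap (𝓞 F) (𝓞 N) π ≠ 0 := by
    intro h
    exact h0 (hinj (by rw [h, map_zero]))
  have hdvd : ∏ v ∈ T, v.asIdeal ^ b v ∣ Ideal.span {algebraMap (𝓞 F) (𝓞 N) π} := by
    refine Finset.prod_dvd_of_coprime ?_ ?_
    · intro v _ w _ hvw
      refine IsCoprime.pow ?_
      rw [Ideal.isCoprime_iff_sup_eq]
      exact Ideal.IsMaximal.coprime_of_ne v.isMaximal w.isMaximal fun h => hvw (HeightOneSpectrum.ext h)
    · intro v hv
      have h1 := hT v hv
      have h2 : algebraMap F N (π : F) = algebraMap (𝓞 N) N (algebraMap (𝓞 F) (𝓞 N) π) := rfl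
      rw [h2, HeightOneSpectrum.valuation_of_algebraMap] at h1
      exact (HeightOneSpectrum.intValuation_le_pow_iff_dvd _ _ _).1 h1.le
  have hnorm : Ideal.absNorm (Ideal.span {algebraMap (𝓞 F) (𝓞 N) π}) = Nm π ^ Module.finrank F N := by
    rw [Ideal.absNorm_span_singleton]
    unfold Nm
    rw [Ideal.absNorm_span_singleton, ← Int.natAbs_pow]
    congr 1
    have h1 : ((Algebra.norm ℤ (algebraMap (𝓞 F) (𝓞 N) π) : ℤ) : ℚ) = ((Algebra.norm ℤ π ^ Module.finrank F N : ℤ) : ℚ) := by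
      rw [Algebra.coe_norm_int]
      push_cast
      rw [Algebra.coe_norm_int]
      have h2 : ((algebraMap (𝓞 F) (𝓞 N) π : 𝓞 N) : N) = algebraMap F N (π : F) := rfl
      rw [h2, ← Algebra.norm_norm (S := F), Algebra.norm_algebraMap, map_pow]
    exact_mod_cast h1
  have h1 : Ideal.absNorm (∏ v ∈ T, v.asIdeal ^ b v) ∣ Ideal.absNorm (Ideal.span {algebraMap (𝓞 F) (𝓞 N) π}) :=
    Ideal.absNorm_dvd_absNorm_of_le (Ideal.le_of_dvd hdvd)
  rw [map_prod, hnorm] at h1
  have h2 : ∏ v ∈ T, Ideal.absNorm (v.asIdeal ^ b v) = ∏ v ∈ T, Ideal.absNorm v.asIdeal ^ b v :=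
    Finset.prod_congr rfl fun v _ => map_pow _ _ _
  rw [h2] at h1
  apply Nat.le_of_dvd _ h1
  rw [← hnorm]
  apply Nat.pos_of_ne_zero
  rw [Ne, Ideal.absNorm_eq_zero_iff, Ideal.span_singleton_eq_bot]
  exact hπ

/-- The multiplicity of a prime dividing π. -/
theorem exists_mult {N : Type} [Field N] [NumberField N] [Algebra F N] {π : 𝓞 F} (h0 : π ≠ 0) (v : Pl N)
    (hv : algebraMap (𝓞 F) (𝓞 N) π ∈ v.asIdeal) :
    ∃ b : ℕ, 0 < b ∧ v.valuation N (algebraMap F N (π : F)) = WithZero.exp (-(b : ℤ)) := by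
  have hπ : algebraMap F N (π : F) ≠ 0 := by
    rw [Ne, map_eq_zero, RingOfIntegers.coe_eq_zero_iff]
    exact h0
  have hva : v.valuation N (algebraMap F N (π : F)) ≠ 0 := (map_ne_zero _).2 hπ
  obtain ⟨k, hk⟩ : ∃ k : ℤ, v.valuation N (algebraMap F N (π : F)) = WithZero.exp k :=
    ⟨WithZero.log _, (WithZero.exp_log hva).symm⟩
  have hlt : v.valuation N (algebraMap F N (π : F)) < 1 := by
    have h2 : algebraMap F N (π : F) = algebraMap (𝓞 N) N (algebraMap (𝓞 F) (𝓞 N) π) := rfl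
    rw [h2]
    exact (v.valuation_lt_one_iff_mem _).2 hv
  rw [hk, ← WithZero.exp_zero, WithZero.exp_lt_exp] at hlt
  obtain ⟨b, hb⟩ := Int.eq_ofNat_of_zero_le (show 0 ≤ -k by omega)
  refine ⟨b, by omega, ?_⟩
  rw [hk, ← hb, neg_neg]

/-- The primes of N above an integer l are finitely many. -/
theorem fin_above (N : Type) [Field N] [NumberField N] {l : ℕ} (hl : l ≠ 0) :
    {v : Pl N | (l : 𝓞 N) ∈ v.asIdeal}.Finite := by
  have h0 : Ideal.span {(l : 𝓞 N)} ≠ ⊥ := by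
    rw [Ne, Ideal.span_singleton_eq_bot]
    exact Nat.cast_ne_zero.2 hl
  have h1 := Ideal.finite_factors h0
  refine h1.subset fun v hv => ?_
  show v.asIdeal ∣ Ideal.span {(l : 𝓞 N)}
  rw [Ideal.dvd_span_singleton]
  exact hv

/-- The reduction modulo π, with values in the integers modulo l. -/
theorem exists_q {π : 𝓞 F} {l : ℕ} (hl : l.Prime) (hN : Nm π = l) :
    ∃ q : 𝓞 F →+* ZMod l, Function.Surjective q ∧ ∀ x, q x = 0 ↔ π ∣ x := by
  have hc : Nat.card (𝓞 F ⧸ Ideal.span {π}) = l := hN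
  have hfin : Finite (𝓞 F ⧸ Ideal.span {π}) := Nat.finite_of_card_ne_zero (by rw [hc]; exact hl.ne_zero)
  let _ : Fintype (𝓞 F ⧸ Ideal.span {π}) := Fintype.ofFinite _
  have hl0 : NeZero l := ⟨hl.ne_zero⟩
  rw [Nat.card_eq_fintype_card] at hc
  let e := ZMod.ringEquivOfPrime (𝓞 F ⧸ Ideal.span {π}) hl hc
  refine ⟨(e.symm : (𝓞 F ⧸ Ideal.span {π}) →+* ZMod l).comp (Ideal.Quotient.mk (Ideal.span {π})), ?_, fun x => ?_⟩
  · exact e.symm.surjective.comp Ideal.Quotient.mk_surjective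
  · show e.symm (Ideal.Quotient.mk (Ideal.span {π}) x) = 0 ↔ _
    rw [map_eq_zero_iff e.symm e.symm.injective, Ideal.Quotient.eq_zero_iff_mem, Ideal.mem_span_singleton]

end H19C
end
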