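import Mathlib
import Pool.Agent.Lib.H1M.PP2.M025
import Pool.Agent.Lib.H1M.PP2.M083
import Pool.Agent.Lib.H1M.PP2.M094
import Pool.Agent.Lib.H1M.PP2.M107
import Pool.Agent.Lib.H1M.PP2.M108
import Pool.Agent.Lib.H1M.PP2.M115
import Pool.Agent.Lib.H1M.PP2.M119
import Pool.Agent.Lib.H1M.PP2.M127
import Pool.Agent.Lib.H1M.PP2.M135
import Pool.Agent.Lib.H1M.PP2.M136

/-! Merged copies (to shorten the build) of Lib.H19C.FU, Lib.H19C.FA, Lib.H19C.FB, Lib.H19C.LE. -/

-- from Lib.H19C.FU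
section

/-! # H19C, chunk FU: the uniformizer and the residue field at a given prime -/

open NumberField IsDedekindDomain WeierstrassCurve

namespace H19C

open H55P (IQ Pt ac Dec Inert decS Nm)
open H35P (WAB Ker tt)
open H55K (Tor CMA Dta GV ak cj)
open H19B (DN mem_DN)

variable {F : Type} [Field F] [NumberField F] [IQ F] {Ω : Type} [Field Ω] [Algebra F Ω] [IsAlgClosure F Ω]
  {p : ℕ} {V : ValuationSubring Ω} {π : 𝓞 F}

omit [IQ F] in
/-- The uniformizer at v, and the ramification index over F for a prime element π of F. -/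
theorem exists_unif2 (N : IntermediateField F Ω) [NumberField N] {v : HeightOneSpectrum (𝓞 N)} (hv : H13S.Abv N V v)
    {b : ℕ} (hb0 : 0 < b) (hb : v.valuation N (algebraMap F N (π : F)) = WithZero.exp (-(b : ℤ))) :
    ∃ w : Ω, w ∈ N ∧ w ≠ 0 ∧ V.valuation w < 1 ∧ V.valuation (ak Ω π) = V.valuation w ^ b ∧
      ∀ y : Ω, y ≠ 0 → (∀ s ∈ N.fixingSubgroup, Inert V s → s y = y) → ∃ i : ℤ, V.valuation y = V.valuation w ^ i := by
  obtain ⟨w, hw⟩ := v.valuation_exists_uniformizer N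
  have hwne : w ≠ 0 := by
    intro h
    rw [h, map_zero] at hw
    exact WithZero.exp_ne_zero hw.symm
  have key : ∀ a : N, a ≠ 0 → ∀ k : ℤ, v.valuation N a = WithZero.exp k → V.valuation (a : Ω) = V.valuation (w : Ω) ^ (-k) := by
    intro a ha k hk
    have h1 : v.valuation N a = v.valuation N (w ^ (-k)) := by
      rw [map_zpow₀, hw, ← WithZero.exp_zsmul, hk]
      congr 1
      simp
    have h2 : V.valuation (a : Ω) = V.valuation ((w ^ (-k) : N) : Ω) :=
      le_antisymm ((hv.le _ _).2 h1.le) ((hv.le _ _).2 h1.ge)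
    have e : ((w ^ (-k) : N) : Ω) = (w : Ω) ^ (-k) := map_zpow₀ (algebraMap N Ω) w (-k)
    rw [h2, e, map_zpow₀]
  have hwlt : V.valuation (w : Ω) < 1 := by
    rw [hv.lt w, hw, ← WithZero.exp_zero, WithZero.exp_lt_exp]
    norm_num
  have hwΩ : (w : Ω) ≠ 0 := fun h => hwne (Subtype.ext h)
  have hπ0 : algebraMap F N (π : F) ≠ 0 := by
    intro h
    rw [h, map_zero] at hb
    exact WithZero.exp_ne_zero hb.symm
  refine ⟨w, w.2, hwΩ, hwlt, ?_, ?_⟩
  · have h1 := key _ hπ0 _ hb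
    rw [neg_neg, zpow_natCast] at h1
    exact h1
  · intro y hy hs
    obtain ⟨a, ha, hya⟩ := H13S.value_fixed N V y hy hs
    have hva : v.valuation N a ≠ 0 := (map_ne_zero _).2 ha
    exact ⟨_, hya.trans (key a ha _ (WithZero.exp_log hva).symm)⟩

/-- The residue field at v. -/
theorem exists_res2 (hp : p.Prime) (hπ : Prime π) (hd : π ∣ (p : 𝓞 F)) (hV : V.valuation (ak Ω π) < 1) (N : IntermediateField F Ω)
    [NumberField N] {v : HeightOneSpectrum (𝓞 N)} (hv : H13S.Abv N V v) :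
    ∃ φ : Ω ≃ₐ[F] Ω, 1 < Ideal.absNorm v.asIdeal ∧ p ∣ Ideal.absNorm v.asIdeal ∧ φ ∈ DN N V ∧
      (∀ x : Ω, V.valuation x ≤ 1 → V.valuation (φ x - x ^ Ideal.absNorm v.asIdeal) < 1) ∧
      ∃ r : Fin (Ideal.absNorm v.asIdeal) → Ω, (∀ i, r i ∈ N ∧ V.valuation (r i) ≤ 1) ∧ (∀ i i', i ≠ i' → V.valuation (r i - r i') = 1) ∧
        ∀ x : Ω, (∀ s ∈ DN N V, s x = x) → V.valuation x ≤ 1 → ∃ i, V.valuation (x - r i) < 1 := by
  classical
  have hwm := v.isMaximal
  obtain ⟨f, hf0, hf⟩ := H19B.f2_exp V π hπ hV v hv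
  obtain ⟨φ, hφN, hφD, hφ⟩ := H13X.exists_frobK N hv
  have hpq : p ∣ Ideal.absNorm v.asIdeal := by
    rw [hf]
    exact dvd_pow (H19B.f2_Nm hp hπ hd) hf0.ne'
  have hq1 : 1 < Ideal.absNorm v.asIdeal := by
    have h0 : Ideal.absNorm v.asIdeal ≠ 0 := by
      rw [Ne, Ideal.absNorm_eq_zero_iff]
      exact v.ne_bot
    exact lt_of_lt_of_le hp.one_lt (Nat.le_of_dvd (Nat.pos_of_ne_zero h0) hpq)
  have hφ' : ∀ x : Ω, V.valuation x ≤ 1 → V.valuation (φ x - x ^ Ideal.absNorm v.asIdeal) < 1 := fun x hx =>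
    hφ x ((V.valuation_le_one_iff _).1 hx)
  refine ⟨φ, hq1, hpq, mem_DN.2 ⟨hφN, hφD⟩, hφ', ?_⟩
  have hcard : Nat.card (𝓞 N ⧸ v.asIdeal) = Ideal.absNorm v.asIdeal := rfl
  have hfin : Finite (𝓞 N ⧸ v.asIdeal) := Ideal.finiteQuotientOfFreeOfNeBot _ v.ne_bot
  have e : Fin (Ideal.absNorm v.asIdeal) ≃ (𝓞 N ⧸ v.asIdeal) := by
    rw [← hcard]
    exact (Finite.equivFin _).symm
  have hmk : ∀ y : 𝓞 N ⧸ v.asIdeal, Ideal.Quotient.mk v.asIdeal (Quotient.out y) = y := fun y =>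
    Quotient.out_eq y
  have hrN : ∀ i, (((Quotient.out (e i) : 𝓞 N) : N) : Ω) ∈ N ∧ V.valuation (((Quotient.out (e i) : 𝓞 N) : N) : Ω) ≤ 1 :=
    fun i => ⟨((Quotient.out (e i) : 𝓞 N) : N).2, H13S.vw_int N V _⟩
  have hrr : ∀ i i', i ≠ i' → V.valuation ((((Quotient.out (e i) : 𝓞 N) : N) : Ω) - (((Quotient.out (e i') : 𝓞 N) : N) : Ω)) = 1 := by
    intro i i' hii
    have e1 : (((Quotient.out (e i) : 𝓞 N) : N) : Ω) - (((Quotient.out (e i') : 𝓞 N) : N) : Ω) =
        (((Quotient.out (e i) - Quotient.out (e i') : 𝓞 N) : N) : Ω) := by simp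
    rw [e1]
    refine le_antisymm (H13S.vw_int N V _) (not_lt.1 fun h' => hii ?_)
    have h2 := (v.valuation_lt_one_iff_mem _).1 ((hv.lt _).1 h')
    rw [← Ideal.Quotient.eq_zero_iff_mem, map_sub, hmk, hmk, sub_eq_zero] at h2
    exact e.injective h2
  refine ⟨fun i => (((Quotient.out (e i) : 𝓞 N) : N) : Ω), hrN, hrr, ?_⟩
  intro x hx hxV
  refine H19B.f2_roots2 V hq1 (fun i => (((Quotient.out (e i) : 𝓞 N) : N) : Ω)) (fun i => (hrN i).2) hrr ?_ x hxV ?_
  · intro i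
    have h1 := hφ' _ (hrN i).2
    have h2 : φ (((Quotient.out (e i) : 𝓞 N) : N) : Ω) = (((Quotient.out (e i) : 𝓞 N) : N) : Ω) :=
      (IntermediateField.mem_fixingSubgroup_iff N φ).1 hφN _ (hrN i).1
    rw [h2] at h1
    exact h1
  · have h1 := hφ' x hxV
    rw [hx φ (mem_DN.2 ⟨hφN, hφD⟩)] at h1
    exact h1

end H19C
end

-- from Lib.H19C.FA
section

/-! # H19C, chunk FA: the frame at the primes where the coefficients are the formal part -/

open NumberField IsDedekindDomain WeierstrassCurve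

namespace H19C

open H55P (IQ Pt ac Dec Inert decS Nm)
open H35P (WAB Ker tt)
open H55K (Tor CMA Dta GV ak cj)
open H19B (DN mem_DN f6Fix f6_nrm f6_rep f6_pow f6_mod f6Hom tors_split exists_ch cyc_ch)

variable {F : Type} [Field F] [NumberField F] [IQ F] {A B : F} {Om : ℂ} {Ω : Type} [Field Ω] [DecidableEq Ω]
  [Algebra F Ω] [IsAlgClosure F Ω] {j : Ω →+* ℂ} {act : 𝓞 F →+* AddMonoid.End (Pt (WAB A B) Ω)} {mo : Ideal (𝓞 F)}
  {ψ : Ideal (𝓞 F) →*₀ 𝓞 F} {p : ℕ} {V : ValuationSubring Ω} {π : 𝓞 F}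

/-- The number of exponents. -/
theorem cnt_one {p e k : ℕ} (hp : 2 < p) (he : 0 < e) (S : Finset ℕ) (hk : k * (p - 1) < e * p) (hS : ∀ i ∈ S, i < k ∧ ¬ p ∣ i + 1) :
    S.card ≤ e := by
  classical
  have hp1 : 0 < p - 1 := by omega
  obtain ⟨K, hK⟩ : ∃ K, K = (e * p - 1) / (p - 1) := ⟨_, rfl⟩
  have hep : 0 < e * p := Nat.mul_pos he (by omega)
  have h1 : K * (p - 1) ≤ e * p - 1 := by
    rw [hK]
    exact Nat.div_mul_le_self _ _
  have h2 : e * p ≤ (K + 1) * (p - 1) := by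
    have h3 := Nat.lt_div_mul_add hp1 (a := e * p - 1)
    rw [← hK] at h3
    rw [add_mul, one_mul]
    omega
  have h3 := H19B.prod_count (q := 2) hp he (k := K) (by omega) h2
  have hkK : k ≤ K := by
    rw [hK, Nat.le_div_iff_mul_le hp1]
    omega
  have h4 : ∏ i ∈ Finset.range K, (if p ∣ i + 1 then 1 else 2) = 2 ^ ((Finset.range K).filter (fun i => ¬ p ∣ i + 1)).card := by
    rw [Finset.prod_ite, Finset.prod_const_one, one_mul, Finset.prod_const]
  rw [h4] at h3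
  have h5 := Nat.pow_right_injective le_rfl h3
  rw [← h5]
  refine Finset.card_le_card fun i hi => ?_
  obtain ⟨h6, h7⟩ := hS i hi
  rw [Finset.mem_filter, Finset.mem_range]
  exact ⟨by omega, h7⟩

/-- THE FRAME, V(π) < 1. -/
theorem exists_frmA (dta : Dta A B Om j act mo ψ p) (hπ : Prime π) (hd : π ∣ (p : 𝓞 F)) (hs : ¬ π ∣ cj π)
    (hV : V.valuation (ak Ω π) < 1) (N : IntermediateField F Ω) [NumberField N] {v : HeightOneSpectrum (𝓞 N)}
    (hv : H13S.Abv N V v) {b : ℕ} (hb0 : 0 < b) (hb : v.valuation N (algebraMap F N (π : F)) = WithZero.exp (-(b : ℤ))) :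
    ∃ X : Frm F Ω, X.p = p ∧ X.V = V ∧ X.q = Ideal.absNorm v.asIdeal ∧ X.b = b ∧ Of X act π N ∧ X.w ∈ N ∧
      V.valuation (ak Ω π) = V.valuation X.w ^ b ∧
      (∀ y : Ω, y ≠ 0 → (∀ s ∈ N.fixingSubgroup, Inert V s → s y = y) → ∃ i : ℤ, V.valuation y = V.valuation X.w ^ i) ∧
      ∃ r : Fin (Ideal.absNorm v.asIdeal) → Ω, (∀ i, r i ∈ N ∧ V.valuation (r i) ≤ 1) ∧
        (∀ i i', i ≠ i' → V.valuation (r i - r i') = 1) ∧
        ∀ x : Ω, (∀ s ∈ DN N V, s x = x) → V.valuation x ≤ 1 → ∃ i, V.valuation (x - r i) < 1 := by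
  classical
  have hal : Algebra.IsAlgebraic F Ω := IsAlgClosure.isAlgebraic
  have hp := dta.prime
  have hpf : Fact p.Prime := ⟨hp⟩
  have hA := dta.cma
  obtain ⟨hpp, u, v₁, huv⟩ := tors_split hA hp dta.unr hπ hd hs
  have hπ' := H55K.cj_prime hπ
  have hd' : cj π ∣ (p : 𝓞 F) := ⟨π, by rw [mul_comm, hpp]⟩
  have hs' : ¬ cj π ∣ cj (cj π) := by
    rw [H55K.cj_dvd, H55K.cj_cj]
    exact hs
  have hle : ∀ x : 𝓞 F, V.valuation (ak Ω x) ≤ 1 := fun x => H55K.S.vo_le V x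
  have hp0 : V.valuation (p : Ω) < 1 := by
    have e1 : (p : Ω) = ak Ω (p : 𝓞 F) := by simp [ak]
    have e2 := H55K.S.vo_mul V π (cj π)
    rw [hpp] at e2
    rw [e1]
    refine lt_of_eq_of_lt e2 ?_
    exact mul_lt_one_of_nonneg_of_lt_one_left zero_le hV (hle _)
  have hc1 : V.valuation (ak Ω (cj π)) = 1 := H55K.S.vo_unit ⟨u, v₁, huv⟩ hV
  have hG : GV A B V := dta.good V hp0
  obtain ⟨w, hwN, hw0, hw1, hπw, hval⟩ := exists_unif2 N hv hb0 hb
  have hep : V.valuation (p : Ω) = V.valuation w ^ b := by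
    have e1 : (p : Ω) = ak Ω (p : 𝓞 F) := by simp [ak]
    have e2 := H55K.S.vo_mul V π (cj π)
    rw [hpp] at e2
    rw [e1]
    refine e2.trans ?_
    have e3 : H55K.S.vo V π = V.valuation w ^ b := hπw
    have e4 : H55K.S.vo V (cj π) = 1 := hc1
    rw [e3, e4, mul_one]
  obtain ⟨φ, hq1, hpq, hφD, hφ, r, hr1, hr2, hr3⟩ := exists_res2 hp hπ hd hV N hv
  obtain ⟨κ, hκ1, hκ2, hκ3, hκ4⟩ := exists_ch hA hp dta.unr hπ hd hs
  obtain ⟨η, hη1, hη2, hη3, hη4⟩ := exists_ch hA hp dta.unr hπ' hd' hs'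
  have hac : IsAlgClosed Ω := IsAlgClosure.isAlgClosed F
  have hchar : CharZero Ω := charZero_of_injective_algebraMap (algebraMap F Ω).injective
  have hn0 : NeZero p := ⟨hp.ne_zero⟩
  have hn1 : NeZero (p : Ω) := ⟨Nat.cast_ne_zero.2 hp.ne_zero⟩
  obtain ⟨ζ, hζ⟩ := HasEnoughRootsOfUnity.exists_primitiveRoot Ω p
  have hact : ∀ T : Pt (WAB A B) Ω, act (p : 𝓞 F) T = p • T := fun T => H55K.S.act_nat p T
  have hkp : ∀ T : Pt (WAB A B) Ω, act π T = 0 → p • T = 0 := fun T hT => by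
    rw [← hact, ← hpp, mul_comm, H55K.S.act_mul, hT, map_zero]
  have hkp' : ∀ T : Pt (WAB A B) Ω, act (cj π) T = 0 → p • T = 0 := fun T hT => by
    rw [← hact, ← hpp, H55K.S.act_mul, hT, map_zero]
  have hspl : ∀ T : Pt (WAB A B) Ω, p • T = 0 → act (v₁ * cj π) T + act (u * π) T = T ∧ act π (act (v₁ * cj π) T) = 0 ∧
      act (cj π) (act (u * π) T) = 0 := by
    intro T hT
    refine ⟨?_, ?_, ?_⟩
    · rw [← H55K.S.act_add, add_comm, huv, H55K.S.act_one]
    · rw [← H55K.S.act_mul]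
      have e1 : π * (v₁ * cj π) = v₁ * (p : 𝓞 F) := by rw [← hpp]; ring
      rw [e1, H55K.S.act_mul, hact, hT, map_zero]
    · rw [← H55K.S.act_mul]
      have e1 : cj π * (u * π) = u * (p : 𝓞 F) := by rw [← hpp]; ring
      rw [e1, H55K.S.act_mul, hact, hT, map_zero]
  let X : Frm F Ω :=
    { p := p
      q := Ideal.absNorm v.asIdeal
      e := b
      b := b
      Q := Ideal.absNorm v.asIdeal ^ (p - 1)
      G := fun _ => True
      V := V
      D := DN N V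
      E := f6Fix (DN N V) (fun T : Pt (WAB A B) Ω => act (cj π) T = 0)
      C := f6Fix (DN N V) (fun T : Pt (WAB A B) Ω => p • T = 0)
      w := w
      φ := φ
      ζ := ζ
      om := fun s => κ s * η s
      et := η }
  have hCE : ∀ s ∈ X.E, κ s = 1 ↔ s ∈ X.C := by
    intro s hsE
    rw [hκ4 s]
    constructor
    · intro hk
      refine ⟨hsE.1, fun T hT => ?_⟩
      obtain ⟨h1, h2, h3⟩ := hspl T hT
      have h4 := hk _ h2
      have h5 := hsE.2 _ h3
      have h6 : ac (WAB A B) s (act (v₁ * cj π) T + act (u * π) T) = act (v₁ * cj π) T + act (u * π) T := by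
        rw [map_add, h4, h5]
      rwa [h1] at h6
    · intro hC T hT
      exact hC.2 T (hkp T hT)
  have hη1' : ∀ s ∈ X.E, η s = 1 := fun s hsE => (hη4 s).2 hsE.2
  have hle1 : X.C ≤ X.E := fun s hsC => ⟨hsC.1, fun T hT => hsC.2 T (hkp' T hT)⟩
  have hφf : ∀ i, φ (r i) = r i := fun i =>
    (IntermediateField.mem_fixingSubgroup_iff N φ).1 (mem_DN.1 hφD).1 (r i) (hr1 i).1
  have hOk : X.Ok := by
    refine
      { pr := hp
        odd := lt_of_lt_of_le (by norm_num) dta.five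
        dec := fun s hs => (mem_DN.1 hs).2
        inv := fun s hs x => H13X.Dec.val (mem_DN.1 hs).2 x
        le1 := hle1
        le2 := fun s hs => hs.1
        nrm1 := fun s hs t ht => f6_nrm (fun s _ T hT => by rw [← map_nsmul, hT, map_zero]) hs ht
        nrm2 := fun s hs t ht => f6_nrm (fun s _ T hT => by rw [← hA.gal, hT, map_zero]) hs ht
        rep := f6_rep hp κ hκ2 hκ3 X.C X.E hCE
        fw := fun s hs => (IntermediateField.mem_fixingSubgroup_iff N s).1 (mem_DN.1 hs.1).1 w hwN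
        w0 := hw0
        w1 := hw1
        val := fun x hx0 hx => hval x hx0 fun s hsN hsI => hx s
          ⟨mem_DN.2 ⟨hsN, H55P.inert_dec V s hsI⟩, fun T hT => H13X.inert_tors hA hG hc1 hsI (H55K.S.mem_Tor.2 hT)⟩
        e0 := hb0
        ep := hep
        q0 := hq1
        Qp := hpq.trans (dvd_pow_self _ (Nat.sub_pos_of_lt hp.one_lt).ne')
        Q0 := pow_pos (lt_trans zero_lt_one hq1) _
        res := ?_
        phi := hφD
        fro := hφ
        prim := hζ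
        zD := fun s _ => cyc_ch dta hπ hd hs hζ hκ1 hη1 s
        om1 := fun s hsC => by
          show κ s * η s = 1
          rw [(hCE s (hle1 hsC)).2 hsC, hη1' s (hle1 hsC), one_mul]
        et1 := hη1'
        lev := fun i hi => absurd trivial hi
        cnt := fun k S hk hS => cnt_one (lt_of_lt_of_le (by norm_num) dta.five) hb0 S hk fun i hi => ⟨(hS i hi).1, (hS i hi).2.1⟩ }
    · intro x hx hxE
      have h1 : φ ^ (p - 1) ∈ X.E := by
        refine ⟨(DN N V).pow_mem hφD _, (hη4 _).1 ?_⟩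
        have h2 : η (φ ^ (p - 1)) = η φ ^ (p - 1) := map_pow (f6Hom hp η hη2 hη3) φ (p - 1)
        rw [h2]
        exact ZMod.pow_card_sub_one_eq_one (hη3 φ)
      have h3 := f6_pow hφ (mem_DN.1 hφD).2 hx (p - 1)
      rw [hxE _ h1] at h3
      rw [← neg_sub, Valuation.map_neg]
      exact h3
  refine ⟨X, rfl, rfl, rfl, rfl, ?_, hwN, hπw, hval, r, hr1, hr2, hr3⟩
  exact
    { ok := hOk
      D := rfl
      E := fun s => Iff.rfl
      C := fun s => Iff.rfl
      ch := fun s _ T hT => by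
        show (η s).val • ac (WAB A B) s T = (κ s * η s).val • T
        rw [hκ1 s T hT, ZMod.val_mul, f6_mod (hkp T hT), mul_nsmul]
      ch' := fun s _ T hT => hη1 s T hT }

end H19C
end

-- from Lib.H19C.FB
section

/-! # H19C, chunk FB: the frame at the primes where the coefficients are the etale part -/

open NumberField IsDedekindDomain WeierstrassCurve

namespace H19C

open H55P (IQ Pt ac Dec Inert decS Nm)
open H35P (WAB Ker tt)
open H55K (Tor CMA Dta GV ak cj)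
open H19B (DN mem_DN f6Fix f6_nrm f6_rep f6_pow f6_mod f6Hom tors_split exists_ch cyc_ch)

section lv

variable {F : Type} [Field F] {Ω : Type} [Field Ω] [Algebra F Ω] {V : ValuationSubring Ω}

/-- Powers of an inertia element and the uniformizer. -/
theorem lv_pow {s : Ω ≃ₐ[F] Ω} (hi : Inert V s) (hv : ∀ x : Ω, V.valuation (s x) = V.valuation x) {w : Ω} (w0 : w ≠ 0) (k : ℕ) :
    V.valuation ((s ^ k) w / w - (s w / w) ^ k) < 1 ∧ V.valuation ((s ^ k) w / w) = 1 := by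
  have hw0 : V.valuation w ≠ 0 := (map_ne_zero _).2 w0
  have h1 : V.valuation (s w / w) = 1 := by rw [map_div₀, hv, div_self hw0]
  induction k with
  | zero =>
    rw [pow_zero, pow_zero, AlgEquiv.one_apply, div_self w0, sub_self, map_zero, map_one]
    exact ⟨zero_lt_one, rfl⟩
  | succ k ih =>
    have e1 : (s ^ (k + 1)) w / w = s ((s ^ k) w / w) * (s w / w) := by
      rw [pow_succ' s k, AlgEquiv.mul_apply, map_div₀]
      have h2 : s w ≠ 0 := (map_ne_zero s).2 w0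
      field_simp
    have h3 : V.valuation (s ((s ^ k) w / w) - (s ^ k) w / w) < 1 := by
      refine hi _ ?_
      rw [← V.valuation_le_one_iff, ih.2]
    constructor
    · have e2 : (s ^ (k + 1)) w / w - (s w / w) ^ (k + 1) =
          (s w / w) * ((s ((s ^ k) w / w) - (s ^ k) w / w) + ((s ^ k) w / w - (s w / w) ^ k)) := by
        rw [e1, pow_succ]
        ring
      rw [e2, map_mul, h1, one_mul]
      exact V.valuation.map_add_lt h3 ih.1
    · rw [e1, map_mul, hv, ih.2, h1, one_mul]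

end lv

variable {F : Type} [Field F] [NumberField F] [IQ F] {A B : F} {Om : ℂ} {Ω : Type} [Field Ω] [DecidableEq Ω]
  [Algebra F Ω] [IsAlgClosure F Ω] {j : Ω →+* ℂ} {act : 𝓞 F →+* AddMonoid.End (Pt (WAB A B) Ω)} {mo : Ideal (𝓞 F)}
  {ψ : Ideal (𝓞 F) →*₀ 𝓞 F} {p : ℕ} {V : ValuationSubring Ω} {π : 𝓞 F}

theorem fb_pow {w : Ω} (w0 : w ≠ 0) (w1 : V.valuation w < 1) {a b : ℕ} (h : V.valuation w ^ a = V.valuation w ^ b) : a = b := by
  have hw0 : V.valuation w ≠ 0 := (map_ne_zero _).2 w0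
  rw [← zpow_natCast, ← zpow_natCast] at h
  have h1 := (zpow_right_strictAnti₀ (zero_lt_iff.2 hw0) w1).injective h
  exact_mod_cast h1

/-- A value less than 1 is a positive power. -/
theorem fb_pos {w x : Ω} (w0 : w ≠ 0) (w1 : V.valuation w < 1) (hx : V.valuation x < 1) {i : ℤ} (h : V.valuation x = V.valuation w ^ i) :
    ∃ d : ℕ, 0 < d ∧ V.valuation x = V.valuation w ^ d := by
  have hw0 : 0 < V.valuation w := zero_lt_iff.2 ((map_ne_zero _).2 w0)
  rcases le_or_gt i 0 with hi | hi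
  · exfalso
    obtain ⟨n, hn⟩ : ∃ n : ℕ, i = -(n : ℤ) := ⟨i.natAbs, by omega⟩
    rw [hn, zpow_neg, zpow_natCast] at h
    rw [h] at hx
    exact absurd hx (not_lt.2 ((one_le_inv₀ (pow_pos hw0 n)).2 (pow_le_one₀ zero_le' w1.le)))
  · obtain ⟨e, he⟩ := Int.eq_ofNat_of_zero_le hi.le
    refine ⟨e, by omega, ?_⟩
    rw [h, he, zpow_natCast]

/-- D acts on the parameter of a point in the kernel through et. -/
theorem fb_tt (h : CMA F A B Om j act) (hG : GV A B V) {T : Pt (WAB A B) Ω} (hT : Ker V T) (h0 : tt T ≠ 0) {s : Ω ≃ₐ[F] Ω} {a : ℕ}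
    (ha : ac (WAB A B) s T = a • T) : V.valuation (s (tt T) / tt T - (a : Ω)) < 1 := by
  have hv : V.valuation (tt T) ≠ 0 := (map_ne_zero _).2 h0
  have h1 := H55K.tt_act h hG (a : 𝓞 F) hT
  rw [H55K.S.act_nat, ← ha, H55K.S.tt_ac] at h1
  have h2 : ak Ω ((a : ℕ) : 𝓞 F) = (a : Ω) := by
    unfold ak
    simp
  rw [h2] at h1
  have h3 : s (tt T) / tt T - (a : Ω) = (s (tt T) - (a : Ω) * tt T) / tt T := by
    rw [sub_div, mul_div_cancel_right₀ _ h0]
  rw [h3, map_div₀, div_lt_one₀ (zero_lt_iff.2 hv)]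
  refine lt_of_le_of_lt h1 ?_
  rw [sq]
  calc V.valuation (tt T) * V.valuation (tt T) < 1 * V.valuation (tt T) :=
        mul_lt_mul_of_pos_right (H55K.ttlt hG hT) (zero_lt_iff.2 hv)
    _ = V.valuation (tt T) := one_mul _

/-- THE FRAME, V(cj π) < 1. -/
theorem exists_frmB (dta : Dta A B Om j act mo ψ p) (hπ : Prime π) (hd : π ∣ (p : 𝓞 F)) (hs : ¬ π ∣ cj π)
    (hV : V.valuation (ak Ω (cj π)) < 1) (N : IntermediateField F Ω) [NumberField N] {v : HeightOneSpectrum (𝓞 N)}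
    (hv : H13S.Abv N V v) {b : ℕ} (hb0 : 0 < b) (hb : v.valuation N (algebraMap F N ((cj π : 𝓞 F) : F)) = WithZero.exp (-(b : ℤ))) :
    ∃ X : Frm F Ω, X.p = p ∧ X.V = V ∧ X.q = Ideal.absNorm v.asIdeal ∧ X.b = b ∧ Of X act π N := by
  classical
  have hal : Algebra.IsAlgebraic F Ω := IsAlgClosure.isAlgebraic
  have hp := dta.prime
  have hpf : Fact p.Prime := ⟨hp⟩
  have hA := dta.cma
  obtain ⟨hpp, u, v₁, huv⟩ := tors_split hA hp dta.unr hπ hd hs
  have hπ' := H55K.cj_prime hπ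
  have hd' : cj π ∣ (p : 𝓞 F) := ⟨π, by rw [mul_comm, hpp]⟩
  have hs' : ¬ cj π ∣ cj (cj π) := by
    rw [H55K.cj_dvd, H55K.cj_cj]
    exact hs
  have hle : ∀ x : 𝓞 F, V.valuation (ak Ω x) ≤ 1 := fun x => H55K.S.vo_le V x
  have hVπ : V.valuation (ak Ω π) = 1 := H55K.S.vo_unit (π := cj π) ⟨v₁, u, by rw [add_comm]; exact huv⟩ hV
  have hpV : V.valuation (p : Ω) = V.valuation (ak Ω (cj π)) := by
    have e1 : (p : Ω) = ak Ω (p : 𝓞 F) := by simp [ak]
    have e2 := H55K.S.vo_mul V π (cj π)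
    rw [hpp] at e2
    rw [e1]
    refine e2.trans ?_
    have e3 : H55K.S.vo V π = 1 := hVπ
    rw [e3, one_mul]
  have hp0 : V.valuation (p : Ω) < 1 := hpV.trans_lt hV
  have hG : GV A B V := dta.good V hp0
  obtain ⟨w₁, hw₁N, hw₁0, hw₁1, hπw, hval⟩ := exists_unif2 (π := cj π) N hv hb0 hb
  obtain ⟨φ, hq1, hpq, hφD, hφ, -⟩ := exists_res2 (π := cj π) hp hπ' hd' hV N hv
  obtain ⟨κ, hκ1, hκ2, hκ3, hκ4⟩ := exists_ch hA hp dta.unr hπ hd hs
  obtain ⟨η, hη1, hη2, hη3, hη4⟩ := exists_ch hA hp dta.unr hπ' hd' hs'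
  have hac : IsAlgClosed Ω := IsAlgClosure.isAlgClosed F
  have hchar : CharZero Ω := charZero_of_injective_algebraMap (algebraMap F Ω).injective
  have hn0 : NeZero p := ⟨hp.ne_zero⟩
  have hn1 : NeZero (p : Ω) := ⟨Nat.cast_ne_zero.2 hp.ne_zero⟩
  obtain ⟨ζ, hζ⟩ := HasEnoughRootsOfUnity.exists_primitiveRoot Ω p
  have hact : ∀ T : Pt (WAB A B) Ω, act (p : 𝓞 F) T = p • T := fun T => H55K.S.act_nat p T
  have hkp : ∀ T : Pt (WAB A B) Ω, act π T = 0 → p • T = 0 := fun T hT => by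
    rw [← hact, ← hpp, mul_comm, H55K.S.act_mul, hT, map_zero]
  have hkp' : ∀ T : Pt (WAB A B) Ω, act (cj π) T = 0 → p • T = 0 := fun T hT => by
    rw [← hact, ← hpp, H55K.S.act_mul, hT, map_zero]
  have hspl : ∀ T : Pt (WAB A B) Ω, p • T = 0 → act (v₁ * cj π) T + act (u * π) T = T ∧ act π (act (v₁ * cj π) T) = 0 ∧
      act (cj π) (act (u * π) T) = 0 := by
    intro T hT
    refine ⟨?_, ?_, ?_⟩
    · rw [← H55K.S.act_add, add_comm, huv, H55K.S.act_one]
    · rw [← H55K.S.act_mul]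
      have e1 : π * (v₁ * cj π) = v₁ * (p : 𝓞 F) := by rw [← hpp]; ring
      rw [e1, H55K.S.act_mul, hact, hT, map_zero]
    · rw [← H55K.S.act_mul]
      have e1 : cj π * (u * π) = u * (p : 𝓞 F) := by rw [← hpp]; ring
      rw [e1, H55K.S.act_mul, hact, hT, map_zero]
  -- the field of the points killed by cj π
  have hNf : FiniteDimensional F N := H13X.yn1_fin N
  obtain ⟨L, hL⟩ := H13X.exists_TB hA (cj π) hπ' N
  have hLf : FiniteDimensional F L := hL.fin
  have hLn : NumberField L := NumberField.of_module_finite F L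
  obtain ⟨w, e, hwL, hw0, hw1, he0, hep, hvalL⟩ := H19B.exists_unif hp hp0 L
  have hLfix : ∀ s : Ω ≃ₐ[F] Ω, s ∈ L.fixingSubgroup ↔
      s ∈ N.fixingSubgroup ∧ ∀ T : Pt (WAB A B) Ω, act (cj π) T = 0 → ac (WAB A B) s T = T := hL.fix
  obtain ⟨i₁, hi₁⟩ := hvalL w₁ hw₁0 (fun s hsL _ =>
    (IntermediateField.mem_fixingSubgroup_iff N s).1 ((hLfix s).1 hsL).1 w₁ hw₁N)
  obtain ⟨d, hd0, hdw⟩ := fb_pos hw0 hw1 hw₁1 hi₁
  have hedb : e = d * b := by
    refine fb_pow hw0 hw1 ?_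
    rw [← hep, hpV, hπw, hdw, pow_mul]
  -- a point killed by cj π
  obtain ⟨T₀, hT₀, hT₀0⟩ := H55K.exists_tor hA hπ'
  obtain ⟨hT₀K, hT₀v⟩ := H55K.tor_ram hA hG hπ' hV hT₀ hT₀0
  have hNm : Nm (cj π) = p := (H19B.f3_split hp dta.unr hπ' hd' hs').1
  rw [hNm] at hT₀v
  have hp1 : 0 < p - 1 := Nat.sub_pos_of_lt hp.one_lt
  have ht0 : (tt T₀ : Ω) ≠ 0 := by
    intro h
    rw [h, map_zero, zero_pow hp1.ne'] at hT₀v
    have h1 : (p : Ω) ≠ 0 := Nat.cast_ne_zero.2 hp.ne_zero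
    exact (map_ne_zero V.valuation).2 h1 (hpV.trans hT₀v.symm)
  obtain ⟨i₂, hi₂⟩ := hvalL (tt T₀) ht0 (fun s hsL _ => by
    rw [← H55K.S.tt_ac (W := WAB A B), ((hLfix s).1 hsL).2 T₀ hT₀])
  obtain ⟨r, hr0, hrw⟩ := fb_pos hw0 hw1 (H55K.ttlt hG hT₀K) hi₂
  have hre : r * (p - 1) = e := by
    refine fb_pow hw0 hw1 ?_
    rw [pow_mul, ← hrw, hT₀v, ← hpV, hep]
  have hw0v : V.valuation w ≠ 0 := (map_ne_zero _).2 hw0
  let X : Frm F Ω :=
    { p := p
      q := Ideal.absNorm v.asIdeal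
      e := e
      b := b
      Q := Ideal.absNorm v.asIdeal ^ (p - 1)
      G := fun i => i % d = r % d
      V := V
      D := DN N V
      E := f6Fix (DN N V) (fun T : Pt (WAB A B) Ω => act (cj π) T = 0)
      C := f6Fix (DN N V) (fun T : Pt (WAB A B) Ω => p • T = 0)
      w := w
      φ := φ
      ζ := ζ
      om := fun s => κ s * η s
      et := η }
  have hEL : ∀ s ∈ X.E, s ∈ L.fixingSubgroup := fun s hsE => (hLfix s).2 ⟨(mem_DN.1 hsE.1).1, hsE.2⟩
  have hwE : ∀ s ∈ X.E, s w = w := fun s hsE => (IntermediateField.mem_fixingSubgroup_iff L s).1 (hEL s hsE) w hwL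
  have hCE : ∀ s ∈ X.E, κ s = 1 ↔ s ∈ X.C := by
    intro s hsE
    rw [hκ4 s]
    constructor
    · intro hk
      refine ⟨hsE.1, fun T hT => ?_⟩
      obtain ⟨h1, h2, h3⟩ := hspl T hT
      have h4 := hk _ h2
      have h5 := hsE.2 _ h3
      have h6 : ac (WAB A B) s (act (v₁ * cj π) T + act (u * π) T) = act (v₁ * cj π) T + act (u * π) T := by
        rw [map_add, h4, h5]
      rwa [h1] at h6
    · intro hC T hT
      exact hC.2 T (hkp T hT)
  have hη1' : ∀ s ∈ X.E, η s = 1 := fun s hsE => (hη4 s).2 hsE.2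
  have hle1 : X.C ≤ X.E := fun s hsC => ⟨hsC.1, fun T hT => hsC.2 T (hkp' T hT)⟩
  -- the inertia group
  let I : Subgroup (Ω ≃ₐ[F] Ω) := DN N V ⊓ H55P.inS F V
  obtain ⟨S, hS, hSp⟩ := f6_rep hp η hη2 hη3 (I ⊓ X.E) I (fun s hsI => by
    rw [hη4 s]
    exact ⟨fun h1 => ⟨hsI, hsI.1, h1⟩, fun h1 => h1.2.2⟩)
  have hdv : ∀ s ∈ DN N V, ∀ x : Ω, V.valuation (s x) = V.valuation x := fun s hs x => H13X.Dec.val (mem_DN.1 hs).2 x
  have hθ1 : ∀ s ∈ DN N V, V.valuation (s w / w) = 1 := fun s hs => by rw [map_div₀, hdv s hs, div_self hw0v]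
  have hlev : ∀ i : ℕ, (∀ s ∈ I, V.valuation ((s w / w) ^ i - 1) < 1) → d ∣ i := by
    intro i hi
    exact lev_dvd hp hp0 hS hSp hw0 hw1 (fun s hs => hwE s hs.2) hdw
      (fun y hy hfix => hval y hy fun s hsN hsI => hfix s ⟨mem_DN.2 ⟨hsN, H55P.inert_dec V s hsI⟩, hsI⟩) hi
  have hdp : d ∣ p - 1 := by
    refine hlev _ fun s hs => ?_
    have h1 : s ^ (p - 1) ∈ X.E := by
      refine ⟨(DN N V).pow_mem hs.1 _, (hη4 _).1 ?_⟩
      have h2 : η (s ^ (p - 1)) = η s ^ (p - 1) := map_pow (f6Hom hp η hη2 hη3) s (p - 1)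
      rw [h2]
      exact ZMod.pow_card_sub_one_eq_one (hη3 s)
    have h2 := (lv_pow (V := V) hs.2 (hdv s hs.1) hw0 (p - 1)).1
    rw [hwE _ h1, div_self hw0] at h2
    rw [← neg_sub, Valuation.map_neg]
    exact h2
  -- the inertia group acts on w ^ r through η
  have hθr : ∀ s ∈ I, V.valuation ((s w / w) ^ r - ((η s).val : Ω)) < 1 := by
    intro s hs
    have h1 := fb_tt hA hG hT₀K ht0 (hη1 s T₀ hT₀)
    have hwr : w ^ r ≠ 0 := pow_ne_zero _ hw0
    obtain ⟨y, hy⟩ : ∃ y : Ω, y = tt T₀ / w ^ r := ⟨_, rfl⟩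
    have hy1 : V.valuation y = 1 := by
      rw [hy, map_div₀, map_pow, hrw, div_self (pow_ne_zero _ hw0v)]
    have hy0 : y ≠ 0 := fun h => by rw [h, map_zero] at hy1; exact zero_ne_one hy1
    have h2 : V.valuation (s y - y) < 1 := hs.2 y ((V.valuation_le_one_iff _).1 hy1.le)
    have h3 : tt T₀ = y * w ^ r := by rw [hy, div_mul_cancel₀ _ hwr]
    have h4 : s (tt T₀) / tt T₀ = (s w / w) ^ r + ((s y - y) / y) * (s w / w) ^ r := by
      rw [h3, map_mul, map_pow, div_pow]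
      field_simp
      ring
    have h5 : (s w / w) ^ r - ((η s).val : Ω) = (s (tt T₀) / tt T₀ - ((η s).val : Ω)) - ((s y - y) / y) * (s w / w) ^ r := by
      rw [h4]
      ring
    rw [h5]
    refine V.valuation.map_sub_lt h1 ?_
    rw [map_mul, map_div₀, hy1, div_one, map_pow, hθ1 s hs.1, one_pow, mul_one]
    exact h2
  have hOk : X.Ok := by
    refine
      { pr := hp
        odd := lt_of_lt_of_le (by norm_num) dta.five
        dec := fun s hs => (mem_DN.1 hs).2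
        inv := hdv
        le1 := hle1
        le2 := fun s hs => hs.1
        nrm1 := fun s hs t ht => f6_nrm (fun s _ T hT => by rw [← map_nsmul, hT, map_zero]) hs ht
        nrm2 := fun s hs t ht => f6_nrm (fun s _ T hT => by rw [← hA.gal, hT, map_zero]) hs ht
        rep := f6_rep hp κ hκ2 hκ3 X.C X.E hCE
        fw := hwE
        w0 := hw0
        w1 := hw1
        val := fun x hx0 hx => hvalL x hx0 fun s hsL hsI => hx s
          ⟨mem_DN.2 ⟨((hLfix s).1 hsL).1, H55P.inert_dec V s hsI⟩, ((hLfix s).1 hsL).2⟩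
        e0 := he0
        ep := hep
        q0 := hq1
        Qp := hpq.trans (dvd_pow_self _ hp1.ne')
        Q0 := pow_pos (lt_trans zero_lt_one hq1) _
        res := ?_
        phi := hφD
        fro := hφ
        prim := hζ
        zD := fun s _ => cyc_ch dta hπ hd hs hζ hκ1 hη1 s
        om1 := fun s hsC => by
          show κ s * η s = 1
          rw [(hCE s (hle1 hsC)).2 hsC, hη1' s (hle1 hsC), one_mul]
        et1 := hη1'
        lev := ?_
        cnt := fun k S hk hS => cnt_ram (lt_of_lt_of_le (by norm_num) dta.five) hd0 hdp hedb hre S hk hS }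
    · intro x hx hxE
      have h1 : φ ^ (p - 1) ∈ X.E := by
        refine ⟨(DN N V).pow_mem hφD _, (hη4 _).1 ?_⟩
        have h2 : η (φ ^ (p - 1)) = η φ ^ (p - 1) := map_pow (f6Hom hp η hη2 hη3) φ (p - 1)
        rw [h2]
        exact ZMod.pow_card_sub_one_eq_one (hη3 φ)
      have h3 := f6_pow hφ (mem_DN.1 hφD).2 hx (p - 1)
      rw [hxE _ h1] at h3
      rw [← neg_sub, Valuation.map_neg]
      exact h3
    · intro i hi
      by_contra hcon
      push Not at hcon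
      apply hi
      have hlt : ∀ s ∈ I, V.valuation ((s w / w) ^ i - (s w / w) ^ r) < 1 := by
        intro s hs
        have h1 : V.valuation ((s w / w) ^ i - ((η s).val : Ω)) ≤ 1 := by
          refine V.valuation.map_sub_le (lv_one (hθ1 s hs.1) i).le ((V.valuation_le_one_iff _).2 (natCast_mem V _))
        have h2 := lt_of_le_of_ne h1 (hcon s hs.1 hs.2)
        have h3 : (s w / w) ^ i - (s w / w) ^ r = ((s w / w) ^ i - ((η s).val : Ω)) - ((s w / w) ^ r - ((η s).val : Ω)) := by ring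
        rw [h3]
        exact V.valuation.map_sub_lt h2 (hθr s hs)
      show i % d = r % d
      rcases le_total i r with hir | hir
      · obtain ⟨k, rfl⟩ := Nat.exists_eq_add_of_le hir
        have h4 : d ∣ k := by
          refine hlev k fun s hs => ?_
          have h5 := hlt s hs
          have h6 : (s w / w) ^ i - (s w / w) ^ (i + k) = -((s w / w) ^ i * ((s w / w) ^ k - 1)) := by ring
          rw [h6, Valuation.map_neg, map_mul, lv_one (hθ1 s hs.1) i, one_mul] at h5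
          exact h5
        rw [Nat.add_mod, Nat.mod_eq_zero_of_dvd h4, add_zero, Nat.mod_mod]
      · obtain ⟨k, rfl⟩ := Nat.exists_eq_add_of_le hir
        have h4 : d ∣ k := by
          refine hlev k fun s hs => ?_
          have h5 := hlt s hs
          have h6 : (s w / w) ^ (r + k) - (s w / w) ^ r = (s w / w) ^ r * ((s w / w) ^ k - 1) := by ring
          rw [h6, map_mul, lv_one (hθ1 s hs.1) r, one_mul] at h5
          exact h5
        rw [Nat.add_mod, Nat.mod_eq_zero_of_dvd h4, add_zero, Nat.mod_mod]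
  refine ⟨X, rfl, rfl, rfl, rfl, ?_⟩
  exact
    { ok := hOk
      D := rfl
      E := fun s => Iff.rfl
      C := fun s => Iff.rfl
      ch := fun s _ T hT => by
        show (η s).val • ac (WAB A B) s T = (κ s * η s).val • T
        rw [hκ1 s T hT, ZMod.val_mul, f6_mod (hkp T hT), mul_nsmul]
      ch' := fun s _ T hT => hη1 s T hT }

end H19C
end

-- from Lib.H19C.LE
section

/-! # H19C, chunk LE: unramified cocycles with values in the etale part are locally coboundaries -/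

open NumberField IsDedekindDomain WeierstrassCurve

namespace H19C

open H55P (IQ Pt ac Dec Inert decS Nm)
open H35P (WAB Ker tt)
open H55K (Tor CMA Dta GV ak cj xc yc)
open H55K.S
open H19B (DN mem_DN Cc CS mem_CS)
open H13X (exists_frobK inert_tors fin_move phi_surj dec_gen lp_fin lp_adj)
open H13S (Abv)

variable {F : Type} [Field F] [NumberField F] [IQ F] {A B : F} {Om : ℂ} {Ω : Type} [Field Ω] [DecidableEq Ω]
  [Algebra F Ω] [IsAlgClosure F Ω] {j : Ω →+* ℂ} {act : 𝓞 F →+* AddMonoid.End (Pt (WAB A B) Ω)} {mo : Ideal (𝓞 F)}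
  {ψ : Ideal (𝓞 F) →*₀ 𝓞 F} {p : ℕ} {V : ValuationSubring Ω} {π : 𝓞 F}

/-- A cocycle of the decomposition group which is zero on inertia and at a Frobenius element is zero. -/
theorem dn_gen {N : IntermediateField F Ω} [NumberField N] {v : HeightOneSpectrum (𝓞 N)} (hv : Abv N V v)
    {d : (Ω ≃ₐ[F] Ω) → Pt (WAB A B) Ω} (hd : ∀ s ∈ DN N V, ∀ t ∈ DN N V, d (s * t) = d s + ac (WAB A B) s (d t))
    (hc : ∃ L : IntermediateField F Ω, FiniteDimensional F L ∧ ∀ s ∈ DN N V, s ∈ L.fixingSubgroup → d s = 0)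
    (hI : ∀ s ∈ DN N V, Inert V s → d s = 0) {φ : Ω ≃ₐ[F] Ω} (hφ : φ ∈ DN N V)
    (hφF : ∀ x : Ω, V.valuation x ≤ 1 → V.valuation (φ x - x ^ Ideal.absNorm v.asIdeal) < 1) (h0 : d φ = 0)
    {s : Ω ≃ₐ[F] Ω} (hs : s ∈ DN N V) : d s = 0 := by
  obtain ⟨L, hL, hL0⟩ := hc
  exact dec_gen hv (fun s hs hsD t ht htD => hd s ⟨hs, hsD⟩ t ⟨ht, htD⟩) ⟨L, hL, fun s hs hsL hsD => hL0 s ⟨hs, hsD⟩ hsL⟩
    (fun s hs hi => hI s ⟨hs, H55P.inert_dec V s hi⟩ hi) hφ.1 hφ.2
    (fun x hx => hφF x ((V.valuation_le_one_iff _).2 hx)) h0 hs.1 hs.2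

/-- THE LOCAL CONDITION at the primes where the coefficients are the etale part. -/
theorem loc_etale (dta : Dta A B Om j act mo ψ p) (hπ : Prime π) (ha : V.valuation (ak Ω π) = 1) (hV : V.valuation (p : Ω) < 1)
    (N : IntermediateField F Ω) [NumberField N] {v : HeightOneSpectrum (𝓞 N)} (hv : Abv N V v)
    {c : (Ω ≃ₐ[F] Ω) → Pt (WAB A B) Ω} (hc : Cc (DN N V) act π c) (hi : ∀ s ∈ DN N V, Inert V s → c s = 0) :
    ∃ P : Pt (WAB A B) Ω, ∀ s ∈ DN N V, c s = ac (WAB A B) s P - P := by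
  have hA := dta.cma
  have hG : GV A B V := dta.good V hV
  obtain ⟨φ, hφN, hφD, hφF⟩ := exists_frobK N hv
  have hQ : 2 ≤ Ideal.absNorm v.asIdeal := by
    have h1 : Ideal.absNorm v.asIdeal ≠ 0 := by
      rw [Ne, Ideal.absNorm_eq_zero_iff]
      exact v.ne_bot
    have h2 : Ideal.absNorm v.asIdeal ≠ 1 := by
      rw [Ne, Ideal.absNorm_eq_one_iff]
      exact v.isPrime.ne_top
    omega
  have hpow1 : ∀ n, vo V (π ^ n) = 1 := fun n => by
    rw [vo_pow]
    have : vo V π = 1 := ha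
    rw [this, one_pow]
  have hfix : ∀ s : Ω ≃ₐ[F] Ω, Inert V s → ∀ (n : ℕ), ∀ P ∈ Tor act (π ^ n), ac (WAB A B) s P = P := fun s hs n P hP =>
    inert_tors hA hG (hpow1 n) hs hP
  have hnk : ∀ n : ℕ, ∀ P ∈ Tor act (π ^ n), P ≠ 0 → ¬ Ker V P := fun n P hP h0 hK =>
    h0 (kr_tor hA hG _ (hpow1 n) hP hK)
  have hmove : ∃ n : ℕ, ∃ T ∈ Tor act (π ^ n), ac (WAB A B) φ T ≠ T := by
    refine fin_move hA hπ hQ hφF (r := 1) one_ne_zero fun n P hP P' hP' h0 h0' h2 h3 => ?_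
    exact H55K.cls_diff hG (hnk n P hP h0) (hnk n P' hP' h0')
      (hnk n _ (sub_mem hP hP') (sub_ne_zero.2 h2))
      (hnk n _ (add_mem hP hP') (fun h4 => h3 (eq_neg_of_add_eq_zero_left h4)))
  have hφDN : φ ∈ DN N V := mem_DN.2 ⟨hφN, hφD⟩
  have hcφ : c φ ∈ Tor act π := hc.tor φ hφDN
  obtain ⟨n, P, hP, hPR⟩ := phi_surj hA hπ hmove hcφ
  refine ⟨P, fun s hs => ?_⟩
  have h0 : c s - (ac (WAB A B) s P - P) = 0 := by
    refine dn_gen (d := fun s => c s - (ac (WAB A B) s P - P)) hv (fun s hs t ht => ?_) ?_ (fun s hs hin => ?_) hφDN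
      (fun x hx => hφF x ((V.valuation_le_one_iff _).1 hx)) ?_ hs
    · show c (s * t) - (ac (WAB A B) (s * t) P - P) = _
      rw [hc.mul s hs t ht, ac_mul, map_sub, map_sub]
      abel
    · obtain ⟨M, hM, hM0⟩ := hc.cont
      have hf2 := lp_fin P
      refine ⟨M ⊔ IntermediateField.adjoin F {xc P, yc P}, inferInstance, fun s hs hsN => ?_⟩
      rw [IntermediateField.fixingSubgroup_sup, Subgroup.mem_inf] at hsN
      show c s - (ac (WAB A B) s P - P) = 0
      rw [hM0 s hs hsN.1, lp_adj s P hsN.2, sub_self, sub_self]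
    · show c s - (ac (WAB A B) s P - P) = 0
      rw [hi s hs hin, hfix s hin n P hP]
      abel
    · show c φ - (ac (WAB A B) φ P - P) = 0
      rw [hPR, sub_self]
  exact sub_eq_zero.1 h0

end H19C
end
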