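import Mathlib
import Pool.Agent.Lib.H1M.PP2.M025
import Pool.Agent.Lib.H1M.PP2.M055
import Pool.Agent.Lib.H1M.PP2.M059
import Pool.Agent.Lib.H1M.PP2.M067
import Pool.Agent.Lib.H1M.PP2.M076
import Pool.Agent.Lib.H1M.PP2.M092
import Pool.Agent.Lib.H1M.PP2.M094
import Pool.Agent.Lib.H1M.PP2.M099
import Pool.Agent.Lib.H1M.PP2.M107
import Pool.Agent.Lib.H1M.PP2.M120
import Pool.Agent.Lib.H1M.PP2.M123
import Pool.Agent.Lib.H1M.PP2.M126
import Pool.Agent.Lib.H1M.PP2.M127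
import Pool.Agent.Lib.H1M.PP2.M133
import Pool.Agent.Lib.H1M.PP2.M140
import Pool.Agent.Lib.H1M.PP2.M147
import Pool.Agent.Lib.H1M.PP2.M154

/-! Merged copies (to shorten the build) of Lib.H19C.LB, Lib.H19C.LA, Lib.H19C.LA2, Lib.H19C.GI, Lib.H19C.GK, Lib.H19C.GT1, Lib.SSN.D. -/

-- from Lib.H19C.LB
section

/-! # H19C, chunk LB: the local index at the primes where the coefficients are the etale part -/

open NumberField IsDedekindDomain WeierstrassCurve

namespace H19C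

open H55P (IQ Pt ac Dec Inert decS Nm)
open H35P (WAB Ker tt)
open H55K (Tor CMA Dta GV ak cj xc yc)
open H19B (DN mem_DN Cc CS mem_CS)
open H13S (Abv)

variable {F : Type} [Field F] [NumberField F] [IQ F] {A B : F} {Om : ℂ} {Ω : Type} [Field Ω] [DecidableEq Ω]
  [Algebra F Ω] {j : Ω →+* ℂ} {act : 𝓞 F →+* AddMonoid.End (Pt (WAB A B) Ω)} {mo : Ideal (𝓞 F)}
  {ψ : Ideal (𝓞 F) →*₀ 𝓞 F} {p : ℕ} {V : ValuationSubring Ω} {π : 𝓞 F}

/-- p if D fixes the points killed by ρ, 1 otherwise. -/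
noncomputable def dl (p : ℕ) (D : Subgroup (Ω ≃ₐ[F] Ω)) (act : 𝓞 F →+* AddMonoid.End (Pt (WAB A B) Ω)) (ρ : 𝓞 F) : ℕ :=
  open Classical in if ∀ s ∈ D, ∀ T : Pt (WAB A B) Ω, act ρ T = 0 → ac (WAB A B) s T = T then p else 1

variable [IsAlgClosure F Ω]

/-- The index of the group TI. -/
theorem ti_dl {X : Frm F Ω} {N : IntermediateField F Ω} (hX : Of X act π N) :
    X.TI.relIndex X.TS ≠ 0 ∧ X.TI.relIndex X.TS ≤ X.q ^ X.b * dl X.p X.D act (cj π) := by
  classical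
  refine ⟨(ti_index1 X hX.ok).1, ?_⟩
  unfold dl
  split_ifs with h
  · exact (ti_index1 X hX.ok).2
  · rw [mul_one]
    push Not at h
    obtain ⟨s, hs, T, hT, hne⟩ := h
    refine (ti_index2 X hX.ok ⟨s, hs, fun h1 => hne ?_⟩).2
    have hf : Fact X.p.Prime := ⟨hX.ok.pr⟩
    have h2 := hX.ch' s hs T hT
    rw [h1, ZMod.val_one, one_nsmul] at h2
    exact h2

/-- The index of the unramified cocycles. -/
theorem cu_index (dta : Dta A B Om j act mo ψ p) (hπ : Prime π) (hd : π ∣ (p : 𝓞 F)) (hs : ¬ π ∣ cj π)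
    (hV : V.valuation (ak Ω (cj π)) < 1) (N : IntermediateField F Ω) [NumberField N] {v : HeightOneSpectrum (𝓞 N)}
    (hv : Abv N V v) {b : ℕ} (hb0 : 0 < b) (hb : v.valuation N (algebraMap F N ((cj π : 𝓞 F) : F)) = WithZero.exp (-(b : ℤ))) :
    (CU (DN N V) (DN N V) V act π).relIndex (CS (DN N V) act π) ≠ 0 ∧
      (CU (DN N V) (DN N V) V act π).relIndex (CS (DN N V) act π) ≤
        Ideal.absNorm v.asIdeal ^ b * dl p (DN N V) act (cj π) := by
  obtain ⟨X, rfl, rfl, hq, hXb, hX⟩ := exists_frmB dta hπ hd hs hV N hv hb0 hb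
  obtain ⟨T₀, hT1, hT2, hT3, hT4⟩ := H19B.exists_T0 dta.cma dta.prime dta.unr hπ hd hs
  obtain ⟨hpp, u, v₁, huv⟩ := H19B.tors_split dta.cma dta.prime dta.unr hπ hd hs
  have ha : X.V.valuation (ak Ω π) = 1 := H55K.S.vo_unit (π := cj π) ⟨v₁, u, by rw [add_comm]; exact huv⟩ hV
  have hp0 : X.V.valuation (X.p : Ω) < 1 := by
    have e1 : (X.p : Ω) = ak Ω (X.p : 𝓞 F) := by simp [ak]
    have e2 := H55K.S.vo_mul X.V π (cj π)
    rw [hpp] at e2
    rw [e1]
    refine lt_of_eq_of_lt e2 ?_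
    have e3 : H55K.S.vo X.V π = 1 := ha
    rw [e3, one_mul]
    exact hV
  have hG := dta.good X.V hp0
  have hti := ti_dl hX
  rw [← hX.D]
  have h := H19B.rel_map (CU X.D X.D X.V act π) (CS X.D act π) X.TI X.TS (ach X T₀)
    (fun c hc => ach_tw hX hT1 hT2 hT3 hT4 hc)
    (fun c hc c' hc' h => ach_inertB dta hX hG hπ hd hs ha hT2 hc hc' fun t ht hti => by
      have h1 := h.2 t ht hti
      rw [Pi.sub_apply, sub_eq_zero] at h1
      exact h1) hti.1
  refine ⟨h.1, h.2.trans ?_⟩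
  rw [hq, hXb] at hti
  exact hti.2

/-- The elements of the decomposition group over N' lie in the one over N. -/
theorem dn_mono {N N' : IntermediateField F Ω} (hNN : N ≤ N') : DN N' V ≤ DN N V := fun _ hs =>
  mem_DN.2 ⟨IntermediateField.fixingSubgroup_antitone hNN (mem_DN.1 hs).1, (mem_DN.1 hs).2⟩

/-- Unramified over N' implies the local condition over N'. -/
theorem cu_le_cl (dta : Dta A B Om j act mo ψ p) (hπ : Prime π) (ha : V.valuation (ak Ω π) = 1) (hV : V.valuation (p : Ω) < 1)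
    (hVt : V ≠ ⊤) (N N' : IntermediateField F Ω) [NumberField N'] (hNN : N ≤ N') :
    CU (DN N V) (DN N' V) V act π ≤ CL (DN N V) (DN N' V) act π := by
  rintro c ⟨hc, hi⟩
  obtain ⟨v', hv'⟩ := H13X.xg3_below N' hVt
  have hm := dn_mono (V := V) hNN
  have hc' : Cc (DN N' V) act π c := by
    refine ⟨fun s hs t ht => hc.mul s (hm hs) t (hm ht), fun s hs => hc.tor s (hm hs), ?_⟩
    obtain ⟨L, hL, h1⟩ := hc.cont
    exact ⟨L, hL, fun s hs hsL => h1 s (hm hs) hsL⟩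
  exact ⟨hc, loc_etale dta hπ ha hV N' hv' hc' hi⟩

/-- Values above p. -/
theorem val_B (dta : Dta A B Om j act mo ψ p) (hπ : Prime π) (hd : π ∣ (p : 𝓞 F)) (hs : ¬ π ∣ cj π)
    (hV : V.valuation (ak Ω (cj π)) < 1) : V.valuation (ak Ω π) = 1 ∧ V.valuation (p : Ω) < 1 ∧ V ≠ ⊤ := by
  obtain ⟨hpp, u, v₁, huv⟩ := H19B.tors_split dta.cma dta.prime dta.unr hπ hd hs
  have ha : V.valuation (ak Ω π) = 1 := H55K.S.vo_unit (π := cj π) ⟨v₁, u, by rw [add_comm]; exact huv⟩ hV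
  refine ⟨ha, ?_, ?_⟩
  · have e1 : (p : Ω) = ak Ω (p : 𝓞 F) := by simp [ak]
    have e2 := H55K.S.vo_mul V π (cj π)
    rw [hpp] at e2
    rw [e1]
    refine lt_of_eq_of_lt e2 ?_
    have e3 : H55K.S.vo V π = 1 := ha
    rw [e3, one_mul]
    exact hV
  · rintro rfl
    have h0 : ak Ω (cj π) ≠ 0 := by
      unfold ak
      rw [Ne, map_eq_zero, RingOfIntegers.coe_eq_zero_iff]
      exact (H55K.cj_prime hπ).ne_zero
    have h1 : (ak Ω (cj π))⁻¹ ∈ (⊤ : ValuationSubring Ω) := trivial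
    rw [← ValuationSubring.valuation_le_one_iff, map_inv₀] at h1
    have h2 : (⊤ : ValuationSubring Ω).valuation (ak Ω (cj π)) ≠ 0 := (map_ne_zero _).2 h0
    rw [inv_le_one₀ (zero_lt_iff.2 h2)] at h1
    exact absurd hV (not_lt.2 h1)

/-- THE LOCAL INDEX where the coefficients are the etale part. -/
theorem loc_B (dta : Dta A B Om j act mo ψ p) (hπ : Prime π) (hd : π ∣ (p : 𝓞 F)) (hs : ¬ π ∣ cj π)
    (hV : V.valuation (ak Ω (cj π)) < 1) (N N' : IntermediateField F Ω) [NumberField N] [NumberField N'] (hNN : N ≤ N')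
    {v : HeightOneSpectrum (𝓞 N)}
    (hv : Abv N V v) {b : ℕ} (hb0 : 0 < b) (hb : v.valuation N (algebraMap F N ((cj π : 𝓞 F) : F)) = WithZero.exp (-(b : ℤ))) :
    (CL (DN N V) (DN N' V) act π).relIndex (CS (DN N V) act π) ≠ 0 ∧
      (CL (DN N V) (DN N' V) act π).relIndex (CS (DN N V) act π) ≤
        Ideal.absNorm v.asIdeal ^ b * dl p (DN N V) act (cj π) := by
  obtain ⟨ha, hp0, hVt⟩ := val_B dta hπ hd hs hV
  obtain ⟨h1, h2⟩ := cu_index dta hπ hd hs hV N hv hb0 hb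
  have h3 : CU (DN N V) (DN N V) V act π ≤ CU (DN N V) (DN N' V) V act π := fun c hc =>
    ⟨hc.1, fun s hs hi => hc.2 s (dn_mono hNN hs) hi⟩
  have h4 := h3.trans (cu_le_cl dta hπ ha hp0 hVt N N' hNN)
  have h5 := AddSubgroup.relIndex_le_of_le_left h4 h1
  exact ⟨fun h0 => h1 (AddSubgroup.relIndex_eq_zero_of_le_left h4 h0), h5.trans h2⟩

omit [IQ F] [DecidableEq Ω] in
/-- A character of the group of N with kernel the group of N'. -/
theorem exists_chr (hp : p.Prime) {N N' : IntermediateField F Ω} [FiniteDimensional F N'] (hNN : N ≤ N')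
    (hn : ∀ s ∈ N.fixingSubgroup, ∀ x ∈ N', s x ∈ N') (hd : Module.finrank F N' = Module.finrank F N * p) :
    ∃ χ : (Ω ≃ₐ[F] Ω) → ZMod p, (∀ s ∈ N.fixingSubgroup, ∀ t ∈ N.fixingSubgroup, χ (s * t) = χ s + χ t) ∧
      ∀ s ∈ N.fixingSubgroup, (χ s = 0 ↔ s ∈ N'.fixingSubgroup) := by
  classical
  have hpf : Fact p.Prime := ⟨hp⟩
  have hcl : IsAlgClosed Ω := IsAlgClosure.isAlgClosed F
  have hal : Algebra.IsAlgebraic F Ω := IsAlgClosure.isAlgebraic
  have hnormal : Normal F Ω := IsAlgClosure.normal F Ω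
  have hgal : IsGalois F Ω := IsAlgClosure.isGalois F Ω
  have hHG : N'.fixingSubgroup ≤ N.fixingSubgroup := IntermediateField.fixingSubgroup_antitone hNN
  have hNf : FiniteDimensional F N := H55P.finDim_of_le hNN
  have hcard : Nat.card (N.fixingSubgroup ⧸ N'.fixingSubgroup.subgroupOf N.fixingSubgroup) = p := by
    have h1 := Subgroup.relIndex_mul_index hHG
    rw [← IntermediateField.finrank_eq_fixingSubgroup_index, ← IntermediateField.finrank_eq_fixingSubgroup_index, hd, mul_comm] at h1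
    have h2 : 0 < Module.finrank F N := Module.finrank_pos
    exact Nat.eq_of_mul_eq_mul_left h2 h1
  have hnorm : (N'.fixingSubgroup.subgroupOf N.fixingSubgroup).Normal := by
    constructor
    intro n hn' g
    rw [Subgroup.mem_subgroupOf] at hn' ⊢
    rw [IntermediateField.mem_fixingSubgroup_iff] at hn' ⊢
    intro x hx
    have h1 : (g : Ω ≃ₐ[F] Ω)⁻¹ x ∈ N' := hn _ (inv_mem g.2) x hx
    show (g : Ω ≃ₐ[F] Ω) ((n : Ω ≃ₐ[F] Ω) ((g : Ω ≃ₐ[F] Ω)⁻¹ x)) = x
    rw [hn' _ h1]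
    exact (g : Ω ≃ₐ[F] Ω).apply_symm_apply x
  let e : (N.fixingSubgroup ⧸ N'.fixingSubgroup.subgroupOf N.fixingSubgroup) ≃* Multiplicative (ZMod p) :=
    mulEquivOfPrimeCardEq (p := p) hcard (by
      show Nat.card (ZMod p) = p
      exact Nat.card_zmod p)
  refine ⟨fun s => if h : s ∈ N.fixingSubgroup then
    Multiplicative.toAdd (e (QuotientGroup.mk' _ ⟨s, h⟩)) else 0, fun s hs t ht => ?_, fun s hs => ?_⟩
  · have hst := mul_mem hs ht
    simp only [dif_pos hs, dif_pos ht, dif_pos hst]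
    rw [← toAdd_mul, ← map_mul, ← map_mul]
    rfl
  · simp only [dif_pos hs]
    have h1 : Multiplicative.toAdd (e (QuotientGroup.mk' (N'.fixingSubgroup.subgroupOf N.fixingSubgroup) ⟨s, hs⟩)) = 0 ↔
        e (QuotientGroup.mk' (N'.fixingSubgroup.subgroupOf N.fixingSubgroup) ⟨s, hs⟩) = 1 := Iff.rfl
    rw [h1, map_eq_one_iff e e.injective]
    show ((⟨s, hs⟩ : N.fixingSubgroup) : N.fixingSubgroup ⧸ N'.fixingSubgroup.subgroupOf N.fixingSubgroup) = 1 ↔ _
    rw [QuotientGroup.eq_one_iff, Subgroup.mem_subgroupOf]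

/-- The ramified class: the index of the unramified cocycles over N in those over N' is at least p. -/
theorem chr_index (dta : Dta A B Om j act mo ψ p) (hπ : Prime π) (hd : π ∣ (p : 𝓞 F)) (hs : ¬ π ∣ cj π)
    {N N' : IntermediateField F Ω} [FiniteDimensional F N'] (hNN : N ≤ N')
    (hn : ∀ s ∈ N.fixingSubgroup, ∀ x ∈ N', s x ∈ N') (hdeg : Module.finrank F N' = Module.finrank F N * p)
    (hfx : ∀ s ∈ DN N V, ∀ T : Pt (WAB A B) Ω, act π T = 0 → ac (WAB A B) s T = T)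
    (hram : ∃ s ∈ N.fixingSubgroup, Inert V s ∧ s ∉ N'.fixingSubgroup)
    (hf : (CU (DN N V) (DN N V) V act π).relIndex (CU (DN N V) (DN N' V) V act π) ≠ 0) :
    p ≤ (CU (DN N V) (DN N V) V act π).relIndex (CU (DN N V) (DN N' V) V act π) := by
  classical
  have hp := dta.prime
  have hpf : Fact p.Prime := ⟨hp⟩
  have hne : NeZero p := ⟨hp.ne_zero⟩
  obtain ⟨T₀, hT1, hT2, hT3, hT4⟩ := H19B.exists_T0 dta.cma dta.prime dta.unr hπ hd hs
  obtain ⟨χ, hχ1, hχ2⟩ := exists_chr hp hNN hn hdeg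
  have hfT : ∀ s ∈ DN N V, ∀ k : ℕ, ac (WAB A B) s (k • T₀) = k • T₀ := fun s hs k =>
    hfx s hs _ (by rw [map_nsmul, hT1, nsmul_zero])
  have hcc : Cc (DN N V) act π (fun s => (χ s).val • T₀) := by
    refine ⟨fun s hs t ht => ?_, fun s hs => ?_, N', inferInstance, fun s hs hsN => ?_⟩
    · show (χ (s * t)).val • T₀ = (χ s).val • T₀ + ac (WAB A B) s ((χ t).val • T₀)
      rw [hχ1 s (mem_DN.1 hs).1 t (mem_DN.1 ht).1, H19B.c4_add hT4, hfT s hs]
    · show act π ((χ s).val • T₀) = 0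
      rw [map_nsmul, hT1, nsmul_zero]
    · show (χ s).val • T₀ = 0
      rw [(hχ2 s (mem_DN.1 hs).1).2 hsN, ZMod.val_zero, zero_nsmul]
  obtain ⟨s₀, hs₀, hi₀, hs₀'⟩ := hram
  have hs₀D : s₀ ∈ DN N V := mem_DN.2 ⟨hs₀, H55P.inert_dec V s₀ hi₀⟩
  have hne0 : (χ s₀).val • T₀ ≠ 0 := fun h => hs₀' ((hχ2 s₀ hs₀).1 (hT3 _ h))
  have hord : addOrderOf ((χ s₀).val • T₀) = p := by
    refine addOrderOf_eq_prime ?_ hne0
    rw [← mul_nsmul', mul_comm, mul_nsmul', hT4, nsmul_zero]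
  refine H19B.rel_ge _ _ hf (fun i : Fin p => (i : ℕ) • fun s => (χ s).val • T₀) (fun i => ?_) (fun i i' h => ?_)
  · refine AddSubgroup.nsmul_mem _ ((mem_CU _ _ _ _ _).2 ⟨hcc, fun s hs hi => ?_⟩) _
    rw [(hχ2 s (mem_DN.1 (dn_mono hNN hs)).1).2 (mem_DN.1 hs).1, ZMod.val_zero, zero_nsmul]
  · have h1 := h.2 s₀ hs₀D hi₀
    have h2 : (i : ℕ) • ((χ s₀).val • T₀) = (i' : ℕ) • ((χ s₀).val • T₀) := sub_eq_zero.1 h1
    rw [nsmul_eq_nsmul_iff_modEq, hord] at h2
    have h3 := Nat.ModEq.eq_of_lt_of_lt h2 i.2 i'.2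
    exact Fin.ext h3

/-- THE LOCAL INDEX at the prime which is ramified in N', where the decomposition group fixes the coefficients. -/
theorem loc_C (dta : Dta A B Om j act mo ψ p) (hπ : Prime π) (hd : π ∣ (p : 𝓞 F)) (hs : ¬ π ∣ cj π)
    (hV : V.valuation (ak Ω (cj π)) < 1) (N N' : IntermediateField F Ω) [NumberField N] [NumberField N'] (hNN : N ≤ N')
    (hn : ∀ s ∈ N.fixingSubgroup, ∀ x ∈ N', s x ∈ N') (hdeg : Module.finrank F N' = Module.finrank F N * p)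
    (hfx : ∀ s ∈ DN N V, ∀ T : Pt (WAB A B) Ω, act π T = 0 → ac (WAB A B) s T = T)
    (hram : ∃ s ∈ N.fixingSubgroup, Inert V s ∧ s ∉ N'.fixingSubgroup)
    {v : HeightOneSpectrum (𝓞 N)}
    (hv : Abv N V v) {b : ℕ} (hb0 : 0 < b) (hb : v.valuation N (algebraMap F N ((cj π : 𝓞 F) : F)) = WithZero.exp (-(b : ℤ))) :
    p * (CL (DN N V) (DN N' V) act π).relIndex (CS (DN N V) act π) ≤
        Ideal.absNorm v.asIdeal ^ b * dl p (DN N V) act (cj π) := by
  obtain ⟨ha, hp0, hVt⟩ := val_B dta hπ hd hs hV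
  obtain ⟨h1, h2⟩ := cu_index dta hπ hd hs hV N hv hb0 hb
  have hN'f : FiniteDimensional F N' := H13X.yn1_fin N'
  have h3 : CU (DN N V) (DN N V) V act π ≤ CU (DN N V) (DN N' V) V act π := fun c hc =>
    ⟨hc.1, fun s hs hi => hc.2 s (dn_mono hNN hs) hi⟩
  have h4 : CU (DN N V) (DN N' V) V act π ≤ CS (DN N V) act π := fun c hc => hc.1
  have h5 := AddSubgroup.relIndex_mul_relIndex _ _ _ h3 h4
  have h6 : (CU (DN N V) (DN N V) V act π).relIndex (CU (DN N V) (DN N' V) V act π) ≠ 0 := by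
    intro h0
    rw [h0, zero_mul] at h5
    exact h1 h5.symm
  have h7 : (CU (DN N V) (DN N' V) V act π).relIndex (CS (DN N V) act π) ≠ 0 := by
    intro h0
    rw [h0, mul_zero] at h5
    exact h1 h5.symm
  have h8 := chr_index dta hπ hd hs hNN hn hdeg hfx hram h6
  have h9 := AddSubgroup.relIndex_le_of_le_left (cu_le_cl dta hπ ha hp0 hVt N N' hNN) h7
  calc p * (CL (DN N V) (DN N' V) act π).relIndex (CS (DN N V) act π)
      ≤ (CU (DN N V) (DN N V) V act π).relIndex (CU (DN N V) (DN N' V) V act π) *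
          (CU (DN N V) (DN N' V) V act π).relIndex (CS (DN N V) act π) := Nat.mul_le_mul h8 h9
    _ = (CU (DN N V) (DN N V) V act π).relIndex (CS (DN N V) act π) := h5
    _ ≤ _ := h2

end H19C
end

-- from Lib.H19C.LA
section

/-! # H19C, chunk LA: the local index at the primes where the coefficients are the formal part -/

open NumberField IsDedekindDomain WeierstrassCurve

namespace H19C

open H55P (IQ Pt ac Dec Inert decS Nm)
open H35P (WAB Ker tt)
open H55K (Tor CMA Dta GV ak cj xc yc)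
open H19B (DN mem_DN Cc CS mem_CS CI mem_CI EF mem_EF)
open H13S (Abv)

variable {F : Type} [Field F] [NumberField F] [IQ F] {A B : F} {Om : ℂ} {Ω : Type} [Field Ω] [DecidableEq Ω]
  [Algebra F Ω] [IsAlgClosure F Ω] {j : Ω →+* ℂ} {act : 𝓞 F →+* AddMonoid.End (Pt (WAB A B) Ω)} {mo : Ideal (𝓞 F)}
  {ψ : Ideal (𝓞 F) →*₀ 𝓞 F} {p : ℕ} {V : ValuationSubring Ω} {π : 𝓞 F}

/-- Values at the primes above π. -/
theorem val_A (dta : Dta A B Om j act mo ψ p) (hπ : Prime π) (hd : π ∣ (p : 𝓞 F)) (hs : ¬ π ∣ cj π)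
    (hV : V.valuation (ak Ω π) < 1) : V.valuation (ak Ω (cj π)) = 1 ∧ V.valuation (p : Ω) < 1 := by
  obtain ⟨hpp, u, v₁, huv⟩ := H19B.tors_split dta.cma dta.prime dta.unr hπ hd hs
  have ha : V.valuation (ak Ω (cj π)) = 1 := H55K.S.vo_unit (π := π) ⟨u, v₁, huv⟩ hV
  refine ⟨ha, ?_⟩
  have e1 : (p : Ω) = ak Ω (p : 𝓞 F) := by simp [ak]
  have e2 := H55K.S.vo_mul V π (cj π)
  rw [hpp] at e2
  rw [e1]
  refine lt_of_eq_of_lt e2 ?_
  have e3 : H55K.S.vo V (cj π) = 1 := ha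
  rw [e3, mul_one]
  exact hV

/-- The index of the cocycles which are unramified up to coboundaries. -/
theorem ci_index (dta : Dta A B Om j act mo ψ p) (hπ : Prime π) (hd : π ∣ (p : 𝓞 F)) (hs : ¬ π ∣ cj π)
    (hV : V.valuation (ak Ω π) < 1) (N : IntermediateField F Ω) [NumberField N] {v : HeightOneSpectrum (𝓞 N)}
    (hv : Abv N V v) {b : ℕ} (hb0 : 0 < b) (hb : v.valuation N (algebraMap F N (π : F)) = WithZero.exp (-(b : ℤ))) :
    (CI (DN N V) V act π).relIndex (CS (DN N V) act π) ≠ 0 ∧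
      (CI (DN N V) V act π).relIndex (CS (DN N V) act π) ≤
        Ideal.absNorm v.asIdeal ^ b * dl p (DN N V) act (cj π) := by
  obtain ⟨X, rfl, rfl, hq, hXb, hX, -⟩ := exists_frmA dta hπ hd hs hV N hv hb0 hb
  obtain ⟨T₀, hT1, hT2, hT3, hT4⟩ := H19B.exists_T0 dta.cma dta.prime dta.unr hπ hd hs
  obtain ⟨ha, hp0⟩ := val_A dta hπ hd hs hV
  have hG := dta.good X.V hp0
  have hti := ti_dl hX
  rw [← hX.D]
  have h := H19B.rel_map (CI X.D X.V act π) (CS X.D act π) X.TI X.TS (ach X T₀)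
    (fun c hc => ach_tw hX hT1 hT2 hT3 hT4 hc)
    (fun c hc c' hc' h => ach_inert dta.cma hX hG hd ha hT1 hT2 hT3 hc hc' fun t ht hti => by
      have h1 := h.2 t ht hti
      rw [Pi.sub_apply, sub_eq_zero] at h1
      exact h1) hti.1
  refine ⟨h.1, h.2.trans ?_⟩
  rw [hq, hXb] at hti
  exact hti.2

/-- A cocycle with values in the points killed by π is the sum of a cocycle zero on inertia and a coboundary, ... -/
theorem ci_sub (h : CMA F A B Om j act) {D : Subgroup (Ω ≃ₐ[F] Ω)} {c : (Ω ≃ₐ[F] Ω) → Pt (WAB A B) Ω} (hc : Cc D act π c)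
    {T : Pt (WAB A B) Ω} (hT : act π T = 0) : Cc D act π (fun s => c s - (ac (WAB A B) s T - T)) := by
  have h1 : Cc D act π (fun s => ac (WAB A B) s T - T) := H19B.kum_cc h D T fun s _ => by rw [hT, map_zero]
  exact (CS D act π).sub_mem hc h1

/-- The index of the coboundaries in the cocycles which are unramified up to coboundaries. -/
theorem cb_index (dta : Dta A B Om j act mo ψ p) (hπ : Prime π) (hd : π ∣ (p : 𝓞 F)) (hs : ¬ π ∣ cj π)
    (N : IntermediateField F Ω) [NumberField N] {v : HeightOneSpectrum (𝓞 N)} (hv : Abv N V v) :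
    (CB (DN N V) act π).relIndex (CI (DN N V) V act π) ≠ 0 ∧
      (CB (DN N V) act π).relIndex (CI (DN N V) V act π) ≤ dl p (DN N V) act π := by
  classical
  have hA := dta.cma
  have hp := dta.prime
  obtain ⟨φ, hφN, hφD, hφF⟩ := H13X.exists_frobK N hv
  have hφ : φ ∈ DN N V := mem_DN.2 ⟨hφN, hφD⟩
  have hφ' : ∀ x : Ω, V.valuation x ≤ 1 → V.valuation (φ x - x ^ Ideal.absNorm v.asIdeal) < 1 := fun x hx =>
    hφF x ((V.valuation_le_one_iff _).1 hx)
  obtain ⟨T₀, hT1, hT2, hT3, hT4⟩ := H19B.exists_T0 hA hp dta.unr hπ hd hs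
  -- generation by inertia and Frobenius
  have hgen : ∀ d : (Ω ≃ₐ[F] Ω) → Pt (WAB A B) Ω, Cc (DN N V) act π d → (∀ s ∈ DN N V, Inert V s → d s = 0) → d φ = 0 →
      ∀ s ∈ DN N V, d s = 0 := fun d hd hi h0 s hs => dn_gen hv hd.mul hd.cont hi hφ hφ' h0 hs
  unfold dl
  split_ifs with hfx
  · -- D fixes the points killed by π
    have hz : ∀ c ∈ CI (DN N V) V act π, ∀ s ∈ DN N V, Inert V s → c s = 0 := by
      rintro c ⟨hc, T, hT, h1⟩ s hs hi
      rw [h1 s hs hi, hfx s hs T hT, sub_self]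
    have h1 := H19B.rel_le (CB (DN N V) act π) (CI (DN N V) V act π) (fun c => c φ)
      ((Finset.range p).image fun k => k • T₀) (fun c hc => ?_) (fun c hc c' hc' hcc => ?_)
    · refine ⟨h1.1, h1.2.trans ?_⟩
      refine Finset.card_image_le.trans ?_
      rw [Finset.card_range]
    · obtain ⟨a, ha⟩ := hT2 (c φ) (hc.1.tor φ hφ)
      have hne : NeZero p := ⟨hp.ne_zero⟩
      exact Finset.mem_image.2 ⟨a.val, Finset.mem_range.2 (ZMod.val_lt a), ha.symm⟩
    · have h2 : Cc (DN N V) act π (c - c') := (CS (DN N V) act π).sub_mem hc.1 hc'.1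
      refine ⟨h2, 0, map_zero _, fun s hs => ?_⟩
      rw [map_zero, sub_zero]
      refine hgen (c - c') h2 (fun s hs hi => ?_) ?_ s hs
      · rw [Pi.sub_apply, hz c hc s hs hi, hz c' hc' s hs hi, sub_self]
      · rw [Pi.sub_apply, hcc, sub_self]
  · -- D moves a point
    have hle : CI (DN N V) V act π ≤ CB (DN N V) act π := by
      rintro c ⟨hc, T, hT, h1⟩
      have h2 := ci_sub (π := π) hA hc hT
      have h3 : ∀ s ∈ DN N V, Inert V s → c s - (ac (WAB A B) s T - T) = 0 := fun s hs hi => by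
        rw [h1 s hs hi, sub_self]
      by_cases hin : ∃ t ∈ DN N V, Inert V t ∧ ∃ R ∈ Tor act π, ac (WAB A B) t R ≠ R
      · obtain ⟨t, ht, hti, hR⟩ := hin
        refine ⟨hc, T, hT, fun s hs => sub_eq_zero.1 ?_⟩
        obtain ⟨d, hd0⟩ : ∃ d : (Ω ≃ₐ[F] Ω) → Pt (WAB A B) Ω, d = fun s => c s - (ac (WAB A B) s T - T) := ⟨_, rfl⟩
        rw [← hd0] at h2
        have h4 : ∀ s ∈ DN N V, Inert V s → d s = 0 := fun s hs hi => by rw [hd0]; exact h3 s hs hi
        have e1 := h2.mul t ht s hs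
        rw [h4 t ht hti, zero_add] at e1
        have hts : s⁻¹ * t * s ∈ DN N V := mul_mem (mul_mem (inv_mem hs) ht) hs
        have hti' : Inert V (s⁻¹ * t * s) := H13X.Inert.conj hti (mem_DN.1 hs).2
        have e2 := h2.mul s hs _ hts
        rw [h4 _ hts hti', map_zero, add_zero] at e2
        have e3 : s * (s⁻¹ * t * s) = t * s := by group
        rw [e3, e1] at e2
        have h5 := H13X.no_fix hA hπ hR (T := d s) (h2.tor s hs) e2
        rw [hd0] at h5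
        exact h5
      · push Not at hin
        -- φ moves a point
        have hmv : ∃ R ∈ Tor act π, ac (WAB A B) φ R ≠ R := by
          by_contra hcon
          push Not at hcon
          apply hfx
          intro s hs R hR
          have h5 := hgen (fun s => ac (WAB A B) s R - R) (H19B.kum_cc hA _ R fun s _ => by rw [hR, map_zero])
            (fun s hs hi => by
              show ac (WAB A B) s R - R = 0
              rw [hin s hs hi R hR, sub_self]) (by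
              show ac (WAB A B) φ R - R = 0
              rw [hcon R hR, sub_self]) s hs
          exact sub_eq_zero.1 h5
        have hcφ : c φ - (ac (WAB A B) φ T - T) ∈ Tor act π := h2.tor φ hφ
        obtain ⟨X, hX, hX2⟩ : ∃ X ∈ Tor act π, ac (WAB A B) φ X - X = c φ - (ac (WAB A B) φ T - T) := by
          have hfin : Finite (Tor act π) := by
            have hfs : (Set.univ : Set (Tor act π)) ⊆ (fun k : ℕ => (⟨k • T₀, by
                rw [H55K.S.mem_Tor, map_nsmul, hT1, nsmul_zero]⟩ : Tor act π)) '' (Finset.range p : Set ℕ) := by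
              rintro ⟨R, hR⟩ -
              obtain ⟨a, ha⟩ := hT2 R hR
              have hne : NeZero p := ⟨hp.ne_zero⟩
              exact ⟨a.val, by rw [Finset.mem_coe, Finset.mem_range]; exact ZMod.val_lt a, Subtype.ext ha.symm⟩
            exact Set.finite_univ_iff.1 ((Set.Finite.image _ (Finset.finite_toSet _)).subset hfs)
          let g : Tor act π → Tor act π := fun R => ⟨ac (WAB A B) φ R.1 - R.1, sub_mem (H55K.S.ac_mem hA φ R.2) R.2⟩
          have hinj : Function.Injective g := by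
            intro R R' hRR
            have e1 : ac (WAB A B) φ R.1 - R.1 = ac (WAB A B) φ R'.1 - R'.1 := congrArg Subtype.val hRR
            have e2 : ac (WAB A B) φ (R.1 - R'.1) = R.1 - R'.1 := by
              rw [map_sub]
              have e3 : ac (WAB A B) φ R.1 = ac (WAB A B) φ R'.1 - R'.1 + R.1 := by rw [← e1]; abel
              rw [e3]
              abel
            exact Subtype.ext (sub_eq_zero.1 (H13X.no_fix hA hπ hmv (sub_mem R.2 R'.2) e2))
          obtain ⟨X, hX⟩ := (Finite.injective_iff_surjective.1 hinj) ⟨_, hcφ⟩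
          exact ⟨X.1, X.2, congrArg Subtype.val hX⟩
        refine ⟨hc, T + X, by rw [map_add, hT, show act π X = 0 from hX, add_zero], fun s hs => ?_⟩
        have h5 := hgen (fun s => (c s - (ac (WAB A B) s T - T)) - (ac (WAB A B) s X - X)) (ci_sub (π := π) hA h2 hX)
          (fun s hs hi => by
            show (c s - (ac (WAB A B) s T - T)) - (ac (WAB A B) s X - X) = 0
            rw [h3 s hs hi, hin s hs hi X hX, sub_self, sub_zero]) (by
            show (c φ - (ac (WAB A B) φ T - T)) - (ac (WAB A B) φ X - X) = 0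
            rw [hX2, sub_self]) s hs
        have h6 : c s - (ac (WAB A B) s T - T) = ac (WAB A B) s X - X := sub_eq_zero.1 h5
        rw [map_add, sub_eq_iff_eq_add.1 h6]
        abel
    have h1 : (CB (DN N V) act π).relIndex (CI (DN N V) V act π) = 1 := AddSubgroup.relIndex_eq_one.2 hle
    rw [h1]
    exact ⟨one_ne_zero, le_rfl⟩

end H19C
end

-- from Lib.H19C.LA2
section

/-! # H19C, chunk LA2: the local index at the primes where the coefficients are the formal part, end -/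

open NumberField IsDedekindDomain WeierstrassCurve

namespace H19C

open H55P (IQ Pt ac Dec Inert decS Nm)
open H35P (WAB Ker tt)
open H55K (Tor CMA Dta GV ak cj xc yc)
open H19B (DN mem_DN Cc CS mem_CS CI mem_CI EF mem_EF)
open H13S (Abv)

variable {F : Type} [Field F] [NumberField F] [IQ F] {A B : F} {Om : ℂ} {Ω : Type} [Field Ω] [DecidableEq Ω]
  [Algebra F Ω] [IsAlgClosure F Ω] {j : Ω →+* ℂ} {act : 𝓞 F →+* AddMonoid.End (Pt (WAB A B) Ω)} {mo : Ideal (𝓞 F)}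
  {ψ : Ideal (𝓞 F) →*₀ 𝓞 F} {p : ℕ} {V : ValuationSubring Ω} {π : 𝓞 F}

/-- The points of the group E which are images under π of points fixed by D. -/
def KG (h : CMA F A B Om j act) (D : Subgroup (Ω ≃ₐ[F] Ω)) (π : 𝓞 F) (E : AddSubgroup (Pt (WAB A B) Ω)) :
    AddSubgroup (Pt (WAB A B) Ω) where
  carrier := {P | P ∈ E ∧ ∃ Q : Pt (WAB A B) Ω, (∀ s ∈ D, ac (WAB A B) s Q = Q) ∧ act π Q = P}
  zero_mem' := ⟨E.zero_mem, 0, fun s _ => map_zero _, map_zero _⟩
  add_mem' := by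
    rintro P P' ⟨h1, Q, h2, h3⟩ ⟨h1', Q', h2', h3'⟩
    exact ⟨E.add_mem h1 h1', Q + Q', fun s hs => by rw [map_add, h2 s hs, h2' s hs], by rw [map_add, h3, h3']⟩
  neg_mem' := by
    rintro P ⟨h1, Q, h2, h3⟩
    exact ⟨E.neg_mem h1, -Q, fun s hs => by rw [map_neg, h2 s hs], by rw [map_neg, h3]⟩

/-- The lower bound for the number of local points. -/
theorem kg_index (dta : Dta A B Om j act mo ψ p) (hπ : Prime π) (hd : π ∣ (p : 𝓞 F)) (hs : ¬ π ∣ cj π)
    (hV : V.valuation (ak Ω π) < 1) (N : IntermediateField F Ω) [NumberField N] {v : HeightOneSpectrum (𝓞 N)}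
    (hv : Abv N V v) {b : ℕ} (hb0 : 0 < b) (hb : v.valuation N (algebraMap F N (π : F)) = WithZero.exp (-(b : ℤ))) :
    ∃ E : AddSubgroup (Pt (WAB A B) Ω), (∀ P ∈ E, Ker V P ∧ ∀ s ∈ DN N V, ac (WAB A B) s P = P) ∧
      ((KG dta.cma (DN N V) π E).relIndex E ≠ 0 →
        Ideal.absNorm v.asIdeal ^ b * dl p (DN N V) act π ≤ (KG dta.cma (DN N V) π E).relIndex E) := by
  classical
  obtain ⟨X, rfl, rfl, hq, hXb, hX, hwN, hπw, hval, hrs⟩ := exists_frmA dta hπ hd hs hV N hv hb0 hb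
  have hA := dta.cma
  have hp := dta.prime
  obtain ⟨ha, hp0⟩ := val_A dta hπ hd hs hV
  have hG := dta.good X.V hp0
  have hNf : FiniteDimensional F N := H13X.yn1_fin N
  obtain ⟨T₀, hT1, hT2, hT3, hT4⟩ := H19B.exists_T0 hA hp dta.unr hπ hd hs
  have hw0 := hX.ok.w0
  have hw1 := hX.ok.w1
  have hw0v : X.V.valuation X.w ≠ 0 := (map_ne_zero _).2 hw0
  have hval' : ∀ y : Ω, y ≠ 0 → (∀ s ∈ DN N X.V, s y = y) → ∃ i : ℤ, X.V.valuation y = X.V.valuation X.w ^ i := fun y hy hfix =>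
    hval y hy fun s hsN hsI => hfix s (mem_DN.2 ⟨hsN, H55P.inert_dec X.V s hsI⟩)
  have hq0 : 0 < Ideal.absNorm v.asIdeal := by rw [← hq]; exact lt_trans zero_lt_one hX.ok.q0
  refine ⟨EF hG (DN N X.V) X.w hw1 0, fun P hP => ⟨hP.1, hP.2.1⟩, fun hKf => ?_⟩
  -- the points killed by π
  have hzero : ∀ T : Pt (WAB A B) Ω, act π T = 0 → T ∈ EF hG (DN N X.V) X.w hw1 b → T = 0 := by
    intro T hT hTE
    by_contra h0
    obtain ⟨-, h1⟩ := H55K.tor_ram hA hG hπ hV hT h0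
    rw [(H19B.f3_split hp dta.unr hπ hd hs).1, hπw] at h1
    have h2 : X.V.valuation (tt T) ^ (X.p - 1) ≤ (X.V.valuation X.w ^ (b + 1)) ^ (X.p - 1) :=
      pow_le_pow_left₀ zero_le' hTE.2.2 _
    rw [h1, ← pow_mul] at h2
    have h3 : b < (b + 1) * (X.p - 1) := by
      have h4 := hX.ok.odd
      have h5 : 1 ≤ X.p - 1 := by omega
      calc b < b + 1 := Nat.lt_succ_self b
        _ = (b + 1) * 1 := (mul_one _).symm
        _ ≤ (b + 1) * (X.p - 1) := Nat.mul_le_mul_left _ h5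
    exact absurd h2 (not_le.2 (pow_lt_pow_right_of_lt_one₀ (zero_lt_iff.2 hw0v) hw1 h3))
  obtain ⟨n, hn, r, hr, hrr⟩ : ∃ (n : ℕ) (_ : n = dl X.p (DN N X.V) act π) (r : Fin n → Pt (WAB A B) Ω),
      (∀ i, r i ∈ EF hG (DN N X.V) X.w hw1 0 ∧ act π (r i) = 0) ∧ ∀ i i', r i - r i' ∈ EF hG (DN N X.V) X.w hw1 b → i = i' := by
    by_cases hfx : ∀ s ∈ DN N X.V, ∀ T : Pt (WAB A B) Ω, act π T = 0 → ac (WAB A B) s T = T
    · have hdl : X.p = dl X.p (DN N X.V) act π := by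
        unfold dl
        rw [if_pos hfx]
      refine ⟨X.p, hdl, fun i => (i : ℕ) • T₀, fun i => ?_, fun i i' h => ?_⟩
      · have h1 : act π ((i : ℕ) • T₀) = 0 := by rw [map_nsmul, hT1, nsmul_zero]
        exact ⟨H19B.ef_zero hG hw0 hw1 hval' _ (H55K.tor_ker hA hG hπ hV h1) fun s hs => hfx s hs _ h1, h1⟩
      · have h1 : act π ((i : ℕ) • T₀ - (i' : ℕ) • T₀) = 0 := by
          rw [map_sub, map_nsmul, map_nsmul, hT1, nsmul_zero, nsmul_zero, sub_self]
        have h2 := hzero _ h1 h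
        have h3 : (i : ℕ) • T₀ = (i' : ℕ) • T₀ := sub_eq_zero.1 h2
        have hf : Fact X.p.Prime := ⟨hp⟩
        have hT0 : T₀ ≠ 0 := by
          intro h4
          have h5 := hT3 1 (by rw [h4, nsmul_zero])
          exact one_ne_zero h5
        have hord : addOrderOf T₀ = X.p := addOrderOf_eq_prime hT4 hT0
        rw [nsmul_eq_nsmul_iff_modEq, hord] at h3
        exact Fin.ext (Nat.ModEq.eq_of_lt_of_lt h3 i.2 i'.2)
    · have hdl : 1 = dl X.p (DN N X.V) act π := by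
        unfold dl
        rw [if_neg hfx]
      exact ⟨1, hdl, fun _ => 0, fun i => ⟨AddSubgroup.zero_mem _, map_zero _⟩, fun i i' _ => Subsingleton.elim _ _⟩
  rw [← hn]
  refine count_index2 (EF hG (DN N X.V) X.w hw1) (H19B.ef_anti hG _ hw1) hq0
    (H19B.ef_index hA hG hw0 hw1 hwN hq0 hrs hval') (act π) (fun P hP => H19B.ef_act0 hA hG hw1 π P hP) b b
    (fun P hP => H19B.ef_act hA hG hw1 hπw (Nat.le_succ b) P hP) r hr hrr _ ?_ hKf
  rintro P ⟨hP, Q, hQ1, hQ2⟩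
  have hKQ : Ker X.V Q := H55K.ker_red hA hG hπ hV (by rw [hQ2]; exact hP.1)
  exact ⟨Q, H19B.ef_zero hG hw0 hw1 hval' Q hKQ hQ1, hQ2⟩

/-- THE LOCAL INDEX where the coefficients are the formal part. -/
theorem loc_A (dta : Dta A B Om j act mo ψ p) (hπ : Prime π) (hd : π ∣ (p : 𝓞 F)) (hs : ¬ π ∣ cj π)
    (hV : V.valuation (ak Ω π) < 1) (N N' : IntermediateField F Ω) [NumberField N] (hNN : N ≤ N')
    {v : HeightOneSpectrum (𝓞 N)}
    (hv : Abv N V v) {b : ℕ} (hb0 : 0 < b) (hb : v.valuation N (algebraMap F N (π : F)) = WithZero.exp (-(b : ℤ))) :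
    (CL (DN N V) (DN N' V) act π).relIndex (CS (DN N V) act π) ≠ 0 ∧
      (CL (DN N V) (DN N' V) act π).relIndex (CS (DN N V) act π) ≤ dl p (DN N V) act (cj π) := by
  classical
  have hA := dta.cma
  obtain ⟨E, hE1, hE2⟩ := kg_index dta hπ hd hs hV N hv hb0 hb
  obtain ⟨hci, hci'⟩ := ci_index dta hπ hd hs hV N hv hb0 hb
  obtain ⟨hcb, hcb'⟩ := cb_index (V := V) dta hπ hd hs N hv
  have hm := dn_mono (F := F) (V := V) hNN
  have l1 : CB (DN N V) act π ≤ CI (DN N V) V act π := by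
    rintro c ⟨hc, T, hT, h1⟩
    exact ⟨hc, T, hT, fun s hs _ => h1 s hs⟩
  have l2 : CI (DN N V) V act π ≤ CS (DN N V) act π := fun c hc => hc.1
  have l3 : CB (DN N V) act π ≤ CL (DN N V) (DN N' V) act π := by
    rintro c ⟨hc, T, hT, h1⟩
    exact ⟨hc, T, fun s hs => h1 s (hm hs)⟩
  have l4 : CL (DN N V) (DN N' V) act π ≤ CS (DN N V) act π := fun c hc => hc.1
  have h1 := AddSubgroup.relIndex_mul_relIndex _ _ _ l1 l2
  have h2 := AddSubgroup.relIndex_mul_relIndex _ _ _ l3 l4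
  have hne : (CB (DN N V) act π).relIndex (CS (DN N V) act π) ≠ 0 := by
    rw [← h1]
    exact mul_ne_zero hcb hci
  have hne1 : (CB (DN N V) act π).relIndex (CL (DN N V) (DN N' V) act π) ≠ 0 := fun h0 => hne (by rw [← h2, h0, zero_mul])
  have hne2 : (CL (DN N V) (DN N' V) act π).relIndex (CS (DN N V) act π) ≠ 0 := fun h0 => hne (by rw [← h2, h0, mul_zero])
  refine ⟨hne2, ?_⟩
  -- the Kummer map
  have hex : ∀ P : Pt (WAB A B) Ω, ∃ Q : Pt (WAB A B) Ω, act π Q = P := fun P => hA.surj π hπ.ne_zero P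
  choose Qf hQf using hex
  have hQfix : ∀ P ∈ E, ∀ s ∈ DN N V, ac (WAB A B) s (act π (Qf P)) = act π (Qf P) := fun P hP s hs => by
    rw [hQf]
    exact (hE1 P hP).2 s hs
  have h3 := H19B.rel_map (KG hA (DN N V) π E) E (CB (DN N V) act π) (CL (DN N V) (DN N' V) act π)
    (fun P s => ac (WAB A B) s (Qf P) - Qf P) (fun P hP => ?_) (fun P hP P' hP' hPP => ?_) hne1
  · have h4 := (hE2 h3.1).trans h3.2
    have hq0 : 0 < Ideal.absNorm v.asIdeal ^ b * dl p (DN N V) act π := by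
      refine Nat.mul_pos (pow_pos ?_ _) ?_
      · refine Nat.pos_of_ne_zero fun h0 => ?_
        rw [Ideal.absNorm_eq_zero_iff] at h0
        exact v.ne_bot h0
      · unfold dl
        split_ifs
        · exact dta.prime.pos
        · exact one_pos
    refine Nat.le_of_mul_le_mul_left ?_ hq0
    calc (Ideal.absNorm v.asIdeal ^ b * dl p (DN N V) act π) * (CL (DN N V) (DN N' V) act π).relIndex (CS (DN N V) act π)
        ≤ (CB (DN N V) act π).relIndex (CL (DN N V) (DN N' V) act π) *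
            (CL (DN N V) (DN N' V) act π).relIndex (CS (DN N V) act π) := Nat.mul_le_mul_right _ h4
      _ = (CB (DN N V) act π).relIndex (CI (DN N V) V act π) * (CI (DN N V) V act π).relIndex (CS (DN N V) act π) := by
          rw [h2, h1]
      _ ≤ dl p (DN N V) act π * (Ideal.absNorm v.asIdeal ^ b * dl p (DN N V) act (cj π)) := Nat.mul_le_mul hcb' hci'
      _ = (Ideal.absNorm v.asIdeal ^ b * dl p (DN N V) act π) * dl p (DN N V) act (cj π) := by ring
  · exact ⟨H19B.kum_cc hA (DN N V) (Qf P) (hQfix P hP), Qf P, fun s _ => rfl⟩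
  · obtain ⟨-, T, hT, h4⟩ := hPP
    refine ⟨E.sub_mem hP hP', Qf P - Qf P' - T, fun s hs => ?_, ?_⟩
    · have h5 : (ac (WAB A B) s (Qf P) - Qf P) - (ac (WAB A B) s (Qf P') - Qf P') = ac (WAB A B) s T - T := h4 s hs
      rw [map_sub, map_sub]
      have h6 : ac (WAB A B) s (Qf P) - ac (WAB A B) s (Qf P') = (ac (WAB A B) s T - T) + (Qf P - Qf P') := by
        rw [← h5]
        abel
      rw [h6]
      abel
    · rw [map_sub, map_sub, hQf, hQf, hT, sub_zero]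

end H19C
end

-- from Lib.H19C.GI
section

/-! # H19C, chunk GI: indices for the global count -/

open NumberField IsDedekindDomain WeierstrassCurve

namespace H19C

open H55P (IQ Pt ac Dec Inert decS Nm Ram)
open H35P (WAB Ker tt)
open H55K (Tor CMA Dta GV ak cj xc yc)
open H55R (Pl)
open H19B (DN mem_DN Cc CS mem_CS)
open H13S (Abv)
open H13X (Dat DecN)

/-- Multiplicative and additive indices. -/
theorem rel_mul {M M' : Type} [CommGroup M] [AddCommGroup M'] (A Y : Subgroup M) (A' Y' : AddSubgroup M') (g : M → M')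
    (hg : ∀ x ∈ A, g x ∈ A') (hj : ∀ x ∈ A, ∀ x' ∈ A, g x - g x' ∈ Y' → x * x'⁻¹ ∈ Y) (hf : Y'.relIndex A' ≠ 0) :
    Y.relIndex A ≠ 0 ∧ Y.relIndex A ≤ Y'.relIndex A' := by
  classical
  have hfin : Finite (A' ⧸ Y'.addSubgroupOf A') := Nat.finite_of_card_ne_zero hf
  let f : (A ⧸ Y.subgroupOf A) → (A' ⧸ Y'.addSubgroupOf A') := fun t =>
    ((⟨g ((Quotient.out t : A) : M), hg _ (Quotient.out t : A).2⟩ : A') : A' ⧸ Y'.addSubgroupOf A')
  have hinj : Function.Injective f := by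
    intro t t' h
    have h1 := QuotientAddGroup.eq.1 h
    rw [AddSubgroup.mem_addSubgroupOf] at h1
    have h2 : g ((Quotient.out t' : A) : M) - g ((Quotient.out t : A) : M) ∈ Y' := by
      have h3 : g ((Quotient.out t' : A) : M) - g ((Quotient.out t : A) : M) =
        -g ((Quotient.out t : A) : M) + g ((Quotient.out t' : A) : M) := by abel
      rw [h3]
      exact h1
    have h3 := hj _ (Quotient.out t' : A).2 _ (Quotient.out t : A).2 h2
    have h4 : ((Quotient.out t : A) : A ⧸ Y.subgroupOf A) = ((Quotient.out t' : A) : A ⧸ Y.subgroupOf A) := by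
      rw [QuotientGroup.eq, Subgroup.mem_subgroupOf]
      show ((Quotient.out t : A) : M)⁻¹ * ((Quotient.out t' : A) : M) ∈ Y
      rw [mul_comm]
      exact h3
    rw [QuotientGroup.out_eq', QuotientGroup.out_eq'] at h4
    exact h4
  have hfin' : Finite (A ⧸ Y.subgroupOf A) := Finite.of_injective f hinj
  exact ⟨Nat.card_pos.ne', Nat.card_le_card_of_injective f hinj⟩

/-- The index of an intersection. -/
theorem rel_infp {M ι : Type} [AddCommGroup M] (X : AddSubgroup M) (T : Finset ι) (Y : ι → AddSubgroup M)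
    (h : ∀ v ∈ T, (Y v).relIndex X ≠ 0) :
    (⨅ v : T, Y v).relIndex X ≠ 0 ∧ (⨅ v : T, Y v).relIndex X ≤ ∏ v ∈ T, (Y v).relIndex X := by
  refine ⟨AddSubgroup.relIndex_iInf_ne_zero fun v => h v.1 v.2, ?_⟩
  rw [← Finset.prod_coe_sort]
  exact AddSubgroup.relIndex_iInf_le _

variable {F : Type} [Field F] [NumberField F] [IQ F] {A B : F} {Om : ℂ} {Ω : Type} [Field Ω] [DecidableEq Ω]
  [Algebra F Ω] [IsAlgClosure F Ω] {j : Ω →+* ℂ} {act : 𝓞 F →+* AddMonoid.End (Pt (WAB A B) Ω)} {mo : Ideal (𝓞 F)}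
  {ψ : Ideal (𝓞 F) →*₀ 𝓞 F} {l : ℕ} {V : ValuationSubring Ω} {π : 𝓞 F}

/-- If w is ramified in N' then the inertia group at w does not fix N'. -/
theorem ram_inert (hl : l.Prime) {N N' : IntermediateField F Ω} [NumberField N] [NumberField N'] (hNN : N ≤ N')
    (hn : ∀ s ∈ N.fixingSubgroup, ∀ x ∈ N', s x ∈ N')
    (hd : Module.finrank F N' = Module.finrank F N * l) {w : HeightOneSpectrum (𝓞 N)}
    (hr : Ram N N' w.asIdeal) (hV : Abv N V w) : ∃ s ∈ N.fixingSubgroup, Inert V s ∧ s ∉ N'.fixingSubgroup := by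
  by_contra hcon
  push Not at hcon
  have hN'f : FiniteDimensional F N' := H13X.yn1_fin N'
  obtain ⟨a, ha⟩ := w.valuation_exists_uniformizer N
  have ha0 : a ≠ 0 := by
    intro h
    rw [h, map_zero] at ha
    exact WithZero.exp_ne_zero ha.symm
  have haΩ : (a : Ω) ≠ 0 := fun h => ha0 (Subtype.ext h)
  obtain ⟨x, hxN, hx⟩ := H13Y.ram_step hl hNN hn hd hr hV a.2 haΩ
  have hx0 : x ≠ 0 := by
    rintro rfl
    rw [map_zero, zero_pow hl.ne_zero] at hx
    exact haΩ ((map_eq_zero V.valuation).1 hx.symm)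
  obtain ⟨a', ha', hxa⟩ := H13S.value_fixed N V x hx0 fun s hs hi =>
    (IntermediateField.mem_fixingSubgroup_iff N' s).1 (hcon s hs hi) x hxN
  rw [hxa, ← map_pow] at hx
  have e1 : ((a' : N) : Ω) ^ l = ((a' ^ l : N) : Ω) := rfl
  rw [e1] at hx
  have h2 : w.valuation N (a' ^ l) = w.valuation N a := le_antisymm ((hV.le _ _).1 hx.le) ((hV.le _ _).1 hx.ge)
  have hva : w.valuation N a' ≠ 0 := (map_ne_zero _).2 ha'
  obtain ⟨k, hk⟩ : ∃ k : ℤ, w.valuation N a' = WithZero.exp k := ⟨WithZero.log _, (WithZero.exp_log hva).symm⟩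
  rw [map_pow, hk, ha, ← WithZero.exp_nsmul, WithZero.exp_inj, nsmul_eq_mul] at h2
  have h3 : (l : ℤ) ∣ 1 := ⟨-k, by linarith⟩
  have h4 : l ∣ 1 := by exact_mod_cast h3
  exact hl.one_lt.ne' (Nat.dvd_one.1 h4)

omit [IsAlgClosure F Ω] in
theorem gi_ac (ρ : 𝓞 F) (hA : CMA F A B Om j act) (σ : Ω ≃ₐ[F] Ω) {T : Pt (WAB A B) Ω} (hT : act ρ T = 0) :
    act ρ (ac (WAB A B) σ T) = 0 := H55K.S.ac_mem hA σ hT

/-- The decomposition groups at the places above v are conjugate. -/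
theorem fix_conj (hA : CMA F A B Om j act) {N : IntermediateField F Ω} [NumberField N] {v : HeightOneSpectrum (𝓞 N)}
    {V₀ : ValuationSubring Ω} (hV₀ : Abv N V₀ v) (hV : Abv N V v) (ρ : 𝓞 F)
    (hfx : ∀ s ∈ DN N V₀, ∀ T : Pt (WAB A B) Ω, act ρ T = 0 → ac (WAB A B) s T = T)
    (s : Ω ≃ₐ[F] Ω) (hs : s ∈ DN N V) (T : Pt (WAB A B) Ω) (hT : act ρ T = 0) : ac (WAB A B) s T = T := by
  obtain ⟨σ, hσM, hσ⟩ := H13X.trans_V N hV₀ hV
  have hD : σ⁻¹ * s * σ ∈ DN N V₀ := by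
    refine mem_DN.2 ⟨mul_mem (mul_mem (inv_mem hσM) (mem_DN.1 hs).1) hσM, fun x => ?_⟩
    have h1 := hσ (σ⁻¹ (s (σ x)))
    have h2 : σ (σ⁻¹ (s (σ x))) = s (σ x) := σ.apply_symm_apply _
    rw [h2] at h1
    exact h1.symm.trans (((mem_DN.1 hs).2 (σ x)).trans (hσ x))
  have h3 := hfx _ hD (ac (WAB A B) σ⁻¹ T) (gi_ac ρ hA σ⁻¹ hT)
  rw [← H55K.S.ac_mul, show σ⁻¹ * s * σ * σ⁻¹ = σ⁻¹ * s by group, H55K.S.ac_mul] at h3
  have h4 := congrArg (ac (WAB A B) σ) h3
  have h5 : ∀ P, ac (WAB A B) σ (ac (WAB A B) σ⁻¹ P) = P := fun P => by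
    rw [← H55K.S.ac_mul, mul_inv_cancel, H55K.S.ac_one]
  rwa [h5, h5] at h4

omit [IQ F] [DecidableEq Ω] [IsAlgClosure F Ω] in
/-- Membership in v and values. -/
theorem abv_mem {N : IntermediateField F Ω} [NumberField N] {v : HeightOneSpectrum (𝓞 N)} (hv : Abv N V v) (x : 𝓞 F) :
    V.valuation (ak Ω x) < 1 ↔ algebraMap (𝓞 F) (𝓞 N) x ∈ v.asIdeal := by
  rw [← HeightOneSpectrum.valuation_lt_one_iff_mem (K := N), ← hv.lt]
  rfl

/-- The conjugate data. -/
theorem gi_cj (D : Dat A B Om j act mo ψ π l) (hs : ¬ π ∣ cj π) : Prime (cj π) ∧ cj π ∣ (l : 𝓞 F) ∧ ¬ cj π ∣ cj (cj π) ∧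
    π * cj π = (l : 𝓞 F) := by
  refine ⟨H55K.cj_prime D.pr, D.conj.dvd, ?_, (H19B.f3_split D.hl D.dta.unr D.pr D.dvd hs).2⟩
  rw [H55K.cj_dvd, H55K.cj_cj]
  exact hs

/-- THE LOCAL INDICES at the primes above l. -/
theorem loc_all (D : Dat A B Om j act mo ψ π l) (hs : ¬ π ∣ cj π) {N N' : IntermediateField F Ω} [NumberField N] [NumberField N']
    (hNN : N ≤ N') {v : HeightOneSpectrum (𝓞 N)} (hlv : (l : 𝓞 N) ∈ v.asIdeal) (hv : Abv N V v) {b : ℕ}
    (hb : (algebraMap (𝓞 F) (𝓞 N) π ∈ v.asIdeal ∧ 0 < b ∧ v.valuation N (algebraMap F N (π : F)) = WithZero.exp (-(b : ℤ))) ∨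
      (algebraMap (𝓞 F) (𝓞 N) π ∉ v.asIdeal ∧ b = 0)) :
    (CL (DN N V) (DN N' V) act (cj π)).relIndex (CS (DN N V) act (cj π)) ≠ 0 ∧
      (CL (DN N V) (DN N' V) act (cj π)).relIndex (CS (DN N V) act (cj π)) ≤
        Ideal.absNorm v.asIdeal ^ b * dl l (DN N V) act π := by
  obtain ⟨h1, h2, h3, h4⟩ := gi_cj D hs
  rcases hb with ⟨hπ, hb0, hb⟩ | ⟨hπ, rfl⟩
  · have hV : V.valuation (ak Ω (cj (cj π))) < 1 := by
      rw [H55K.cj_cj]
      exact (abv_mem hv π).2 hπ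
    have h5 := loc_B D.dta h1 h2 h3 hV N N' hNN hv hb0 (by rw [H55K.cj_cj]; exact hb)
    rw [H55K.cj_cj] at h5
    exact h5
  · have hmem : algebraMap (𝓞 F) (𝓞 N) (cj π) ∈ v.asIdeal := by
      have h6 := congrArg (algebraMap (𝓞 F) (𝓞 N)) h4
      rw [map_mul, map_natCast] at h6
      rw [← h6] at hlv
      exact (v.isPrime.mem_or_mem hlv).resolve_left hπ
    obtain ⟨b', hb0, hb'⟩ := exists_mult (N := N) h1.ne_zero v hmem
    have h5 := loc_A D.dta h1 h2 h3 ((abv_mem hv _).2 hmem) N N' hNN hv hb0 hb'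
    rw [H55K.cj_cj] at h5
    rw [pow_zero, one_mul]
    exact h5

/-- The local index at w. -/
theorem loc_w (D : Dat A B Om j act mo ψ π l) (hs : ¬ π ∣ cj π) {N N' : IntermediateField F Ω} [NumberField N] [NumberField N']
    (hNN : N ≤ N') (hn : ∀ s ∈ N.fixingSubgroup, ∀ x ∈ N', s x ∈ N')
    (hd : Module.finrank F N' = Module.finrank F N * l) {w : HeightOneSpectrum (𝓞 N)}
    (hr : Ram N N' w.asIdeal) (hv : Abv N V w) (hπ : algebraMap (𝓞 F) (𝓞 N) π ∈ w.asIdeal)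
    (hfx : ∀ s ∈ DN N V, ∀ T : Pt (WAB A B) Ω, act (cj π) T = 0 → ac (WAB A B) s T = T) {b : ℕ}
    (hb0 : 0 < b) (hb : w.valuation N (algebraMap F N (π : F)) = WithZero.exp (-(b : ℤ))) :
    l * (CL (DN N V) (DN N' V) act (cj π)).relIndex (CS (DN N V) act (cj π)) ≤
        Ideal.absNorm w.asIdeal ^ b * dl l (DN N V) act π := by
  obtain ⟨h1, h2, h3, h4⟩ := gi_cj D hs
  have hV : V.valuation (ak Ω (cj (cj π))) < 1 := by
    rw [H55K.cj_cj]
    exact (abv_mem hv π).2 hπ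
  have h5 := loc_C D.dta h1 h2 h3 hV N N' hNN hn hd hfx (ram_inert D.hl hNN hn hd hr hv) hv hb0
    (by rw [H55K.cj_cj]; exact hb)
  rw [H55K.cj_cj] at h5
  exact h5

end H19C
end

-- from Lib.H19C.GK
section

/-! # H19C, chunk GK: classes and Kummer generators -/

open NumberField IsDedekindDomain WeierstrassCurve

namespace H19C

open H55P (IQ Pt ac Dec Inert decS Nm)
open H35P (WAB Ker tt)
open H55K (Tor CMA Dta GV ak cj xc yc Lft TFld)
open H55K.S
open H55R (Pl ord)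
open H13S (Abv)
open H13X (Dat IsTB DecN algNL)
open H13Y (guN EqHomN etaN_hom)
open H99B (pw cf)

variable {F : Type} [Field F] [NumberField F] [IQ F] {A B : F} {Om : ℂ} {Ω : Type} [Field Ω] [DecidableEq Ω]
  [Algebra F Ω] {j : Ω →+* ℂ} {act : 𝓞 F →+* AddMonoid.End (Pt (WAB A B) Ω)} {mo : Ideal (𝓞 F)}
  {ψ : Ideal (𝓞 F) →*₀ 𝓞 F}

variable {π : 𝓞 F} {l : ℕ} {e : Pt (WAB A B) Ω → Pt (WAB A B) Ω → Ω} {N L : IntermediateField F Ω}
  {c c' : (Ω ≃ₐ[F] Ω) → Pt (WAB A B) Ω} {V : ValuationSubring Ω}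

/-- The class c has a Kummer generator for the point T whose l-th power is M x times an l-th power. -/
def KR (L : IntermediateField F Ω) (e : Pt (WAB A B) Ω → Pt (WAB A B) Ω → Ω) (l : ℕ) (T : Pt (WAB A B) Ω)
    (M : (L)ˣ →* (L)ˣ) (c : (Ω ≃ₐ[F] Ω) → Pt (WAB A B) Ω) (x : (L)ˣ) : Prop :=
  ∃ (y : Ω) (z : (L)ˣ), Kum L e c T y ∧ y ^ l = ((M x * z ^ l : (L)ˣ) : L)

/-- The projection to the eigenspace. -/
noncomputable def Mh {N L : Type} [Field N] [Field L] [Algebra N L] [Fintype Gal(L/N)] {l : ℕ} [Fact l.Prime]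
    (χ : Gal(L/N) →* (ZMod l)ˣ) : Lˣ →* Lˣ :=
  MonoidHom.mk' (fun x => pw guN (cf χ (AddMonoidHom.id (ZMod l)) 1) x) (fun x y => H99B.pw_mul guN _ x y)

variable [IsAlgClosure F Ω]

/-- Differences. -/
theorem kr_sub (D : Dat A B Om j act mo ψ π l) (he : Pairing A B act π l e) {T : Pt (WAB A B) Ω} (hT : T ∈ Tor act π)
    {M : (L)ˣ →* (L)ˣ} (hc : ∀ s ∈ L.fixingSubgroup, c s ∈ Tor act (cj π)) (hc' : ∀ s ∈ L.fixingSubgroup, c' s ∈ Tor act (cj π))
    {x x' : (L)ˣ} (h : KR L e l T M c x) (h' : KR L e l T M c' x') : KR L e l T M (c - c') (x * x'⁻¹) := by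
  obtain ⟨y, z, ⟨hy0, hy⟩, hyz⟩ := h
  obtain ⟨y', z', ⟨hy0', hy'⟩, hyz'⟩ := h'
  refine ⟨y / y', z * z'⁻¹, ⟨div_ne_zero hy0 hy0', fun s hs => ?_⟩, ?_⟩
  · rw [Pi.sub_apply, H13X.lk_sub D he (hc s hs) (hc' s hs) hT, map_div₀, hy s hs, hy' s hs, mul_div_mul_comm]
  · have e1 : M (x * x'⁻¹) * (z * z'⁻¹) ^ l = (M x * z ^ l) * (M x' * z' ^ l)⁻¹ := by
      rw [map_mul, map_inv, mul_pow, inv_pow, mul_inv]
      exact mul_mul_mul_comm _ _ _ _
    have e3 : ∀ a b : (L)ˣ, (((a * b⁻¹ : (L)ˣ) : L) : Ω) = ((a : L) : Ω) / ((b : L) : Ω) := fun a b => by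
      rw [Units.val_mul, Units.val_inv_eq_inv_val, div_eq_mul_inv]
      rfl
    rw [e1, e3, div_pow, hyz, hyz']

omit [IsAlgClosure F Ω] in
/-- The zero class. -/
theorem kr_zero (D : Dat A B Om j act mo ψ π l) (he : Pairing A B act π l e) {T : Pt (WAB A B) Ω} (hT : T ∈ Tor act π)
    {M : (L)ˣ →* (L)ˣ} : KR L e l T M (0 : (Ω ≃ₐ[F] Ω) → Pt (WAB A B) Ω) 1 := by
  refine ⟨1, 1, ⟨one_ne_zero, fun s _ => ?_⟩, ?_⟩
  · have h0 : (0 : Pt (WAB A B) Ω) ∈ Tor act (cj π) := zero_mem _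
    have h1 := he.add_left 0 h0 0 h0 T hT
    rw [add_zero] at h1
    have h2 : e 0 T ≠ 0 := H13X.lk_ne D he h0 hT
    have h3 : e 0 T = 1 := by
      have h4 : e 0 T * 1 = e 0 T * e 0 T := by rw [mul_one]; exact h1
      exact (mul_left_cancel₀ h2 h4).symm
    rw [map_one, Pi.zero_apply, h3, one_mul]
  · rw [map_one, one_pow, one_pow, mul_one]
    rfl

/-- A coboundary comes from an l-th power. -/
theorem kr_cob (D : Dat A B Om j act mo ψ π l) (he : Pairing A B act π l e) (hL : IsTB act π N L) {T : Pt (WAB A B) Ω}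
    (hT : T ∈ Tor act π) {M : (L)ˣ →* (L)ˣ} {x : (L)ˣ} (h : KR L e l T M c x) {X : Pt (WAB A B) Ω} (hX : X ∈ Tor act (cj π))
    (hc : ∀ s ∈ N.fixingSubgroup, c s = ac (WAB A B) s X - X) : ∃ z : (L)ˣ, M x = z ^ l := by
  obtain ⟨y, z, ⟨hy0, hy⟩, hyz⟩ := h
  have hne : e X T ≠ 0 := H13X.lk_ne D he hX hT
  have hmem : y / e X T ∈ L := by
    refine ku2_mem L fun s hs => ?_
    have hsT : ac (WAB A B) s T = T := ((hL.fix s).1 hs).2 T hT
    rw [map_div₀, hy s hs, hc s (hL.mono hs), H13X.lk_sub D he (ac_mem D.cma s hX) hX hT, he.gal s X hX T hT, hsT]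
    have h2 : e (ac (WAB A B) s X) T ≠ 0 := H13X.lk_ne D he (ac_mem D.cma s hX) hT
    field_simp
  have hy1 : y / e X T ≠ 0 := div_ne_zero hy0 hne
  let u : (L)ˣ := Units.mk0 ⟨y / e X T, hmem⟩ (fun h => hy1 (congrArg Subtype.val h))
  refine ⟨u * z⁻¹, ?_⟩
  have h1 : u ^ l = M x * z ^ l := by
    apply Units.ext
    apply Subtype.ext
    have e1 : (((u ^ l : (L)ˣ) : L) : Ω) = (y / e X T) ^ l := by
      rw [Units.val_pow_eq_pow_val]
      rfl
    rw [e1, div_pow, he.root X hX T hT, div_one, hyz]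
  rw [mul_pow, h1, inv_pow, mul_inv_cancel_right]

omit [IsAlgClosure F Ω] in
/-- If the pairing with a generator is trivial the point is zero. -/
theorem kr_gen (D : Dat A B Om j act mo ψ π l) (he : Pairing A B act π l e) {T₀ : Pt (WAB A B) Ω} (hT₀ : T₀ ∈ Tor act π)
    (hgen : ∀ T : Pt (WAB A B) Ω, act π T = 0 → ∃ a : ZMod l, T = a.val • T₀) {X : Pt (WAB A B) Ω} (hX : X ∈ Tor act (cj π))
    (h : e X T₀ = 1) : X = 0 := by
  refine he.nondeg X hX fun T hT => ?_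
  obtain ⟨a, ha⟩ := hgen T hT
  have h1 : ∀ k : ℕ, e X (k • T₀) = 1 := by
    intro k
    induction k with
    | zero =>
      rw [zero_nsmul]
      have h2 := he.add_right X hX 0 (zero_mem _) 0 (zero_mem _)
      rw [add_zero] at h2
      have h3 : e X 0 ≠ 0 := H13X.lk_ne D he hX (zero_mem _)
      have h4 : e X 0 * 1 = e X 0 * e X 0 := by rw [mul_one]; exact h2
      exact (mul_left_cancel₀ h3 h4).symm
    | succ k ih =>
      rw [succ_nsmul, he.add_right X hX _ ((Tor act π).nsmul_mem hT₀ k) T₀ hT₀, ih, h, one_mul]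
  rw [ha]
  exact h1 _

omit [IsAlgClosure F Ω] in
/-- Outside l: if the value of M x is that of an l-th power in L then the class is unramified. -/
theorem kr_inert (D : Dat A B Om j act mo ψ π l) (he : Pairing A B act π l e) {T₀ : Pt (WAB A B) Ω} (hT₀ : T₀ ∈ Tor act π)
    (hgen : ∀ T : Pt (WAB A B) Ω, act π T = 0 → ∃ a : ZMod l, T = a.val • T₀) {M : (L)ˣ →* (L)ˣ} {x : (L)ˣ}
    (h : KR L e l T₀ M c x) (hl : V.valuation (l : Ω) = 1) (hx : V.valuation (((M x : (L)ˣ) : L) : Ω) = 1)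
    {s : Ω ≃ₐ[F] Ω} (hi : Inert V s) (hs : s ∈ L.fixingSubgroup) (hc : c s ∈ Tor act (cj π)) : c s = 0 := by
  have hchar : CharZero Ω := charZero_of_injective_algebraMap (algebraMap F Ω).injective
  obtain ⟨y, z, ⟨hy0, hy⟩, hyz⟩ := h
  have hl0 : l ≠ 0 := D.hl.ne_zero
  have hvy : V.valuation y = V.valuation ((z : L) : Ω) := by
    have e1 : V.valuation y ^ l = V.valuation ((z : L) : Ω) ^ l := by
      rw [← map_pow, hyz, Units.val_mul]
      have e2 : (((M x : (L)ˣ) : L) * ((z ^ l : (L)ˣ) : L) : L) = ((M x : (L)ˣ) : L) * (z : L) ^ l := by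
        rw [Units.val_pow_eq_pow_val]
      rw [e2]
      have e3 : ((((M x : (L)ˣ) : L) * (z : L) ^ l : L) : Ω) = (((M x : (L)ˣ) : L) : Ω) * ((z : L) : Ω) ^ l := rfl
      rw [e3, map_mul, hx, one_mul, map_pow]
    exact (pow_left_inj₀ zero_le zero_le hl0).1 e1
  have hpow : s (y ^ l) = y ^ l := by
    rw [map_pow, hy s hs, mul_pow, he.root _ hc T₀ hT₀, one_mul]
  have hsy : s y = y := H13Z.unr_val V D.hl hl hy0 hvy hi
    ((IntermediateField.mem_fixingSubgroup_iff L s).1 hs _ (z : L).2) hpow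
  refine kr_gen D he hT₀ hgen hc ?_
  have h3 := hy s hs
  rw [hsy] at h3
  exact mul_right_cancel₀ hy0 (by rw [one_mul]; exact h3.symm)

/-- Above w over N': every class is unramified if w is tamely ramified in N'. -/
theorem kill_w [NumberField N] (D : Dat A B Om j act mo ψ π l) (he : Pairing A B act π l e) (hL : IsTB act π N L)
    (C : H13X.Cc act π N c) {T₀ : Pt (WAB A B) Ω} (hT₀ : T₀ ∈ Tor act π)
    (hgen : ∀ T : Pt (WAB A B) Ω, act π T = 0 → ∃ a : ZMod l, T = a.val • T₀)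
    (hl : V.valuation (l : Ω) = 1) (hfx : ∀ t, DecN N V t → ∀ T ∈ Tor act π, ac (WAB A B) t T = T)
    {N' : IntermediateField F Ω} (hNN : N ≤ N')
    (hx : ∀ a ∈ N, a ≠ 0 → ∃ x ∈ N', V.valuation x ^ l = V.valuation a) {s : Ω ≃ₐ[F] Ω}
    (hs : s ∈ N'.fixingSubgroup) (hi : Inert V s) : c s = 0 := by
  have hchar : CharZero Ω := charZero_of_injective_algebraMap (algebraMap F Ω).injective
  have hfix : ∀ t : Ω ≃ₐ[F] Ω, t ∈ N.fixingSubgroup → Inert V t → t ∈ L.fixingSubgroup :=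
    fun t ht hti => (hL.fix t).2 ⟨ht, hfx t ⟨ht, H55P.inert_dec V t hti⟩⟩
  have hsN : s ∈ N.fixingSubgroup := IntermediateField.fixingSubgroup_antitone hNN hs
  have hsL := hfix s hsN hi
  obtain ⟨y, hy0, hy⟩ := H13X.exists_kumB D C he hL hT₀
  have hpow : ∀ t ∈ L.fixingSubgroup, t (y ^ l) = y ^ l := fun t ht => by
    rw [map_pow, hy t ht, mul_pow, he.root _ (C.val t (hL.mono ht)) T₀ hT₀, one_mul]
  obtain ⟨a, ha0, ha⟩ := H13S.value_fixed N V (y ^ l) (pow_ne_zero l hy0) (fun t ht hti => hpow t (hfix t ht hti))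
  obtain ⟨x, hxN, hxa⟩ := hx (a : Ω) a.2 (fun h => ha0 (Subtype.ext h))
  rw [← hxa, map_pow] at ha
  have hxy : V.valuation y = V.valuation x := (pow_left_inj₀ zero_le zero_le D.hl.ne_zero).1 ha
  have hsy : s y = y := H13Z.unr_val V D.hl hl hy0 hxy hi ((IntermediateField.mem_fixingSubgroup_iff N' s).1 hs x hxN)
    (hpow s hsL)
  refine kr_gen D he hT₀ hgen (C.val s hsN) ?_
  have h3 := hy s hsL
  rw [hsy] at h3
  exact mul_right_cancel₀ hy0 (by rw [one_mul]; exact h3.symm)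

/-- Existence of the class of x. -/
theorem kr_exists (D : Dat A B Om j act mo ψ π l) (he : Pairing A B act π l e) [NumberField N] [NumberField L] (hL : IsTB act π N L)
    {T₀ : Pt (WAB A B) Ω} (hT₀ : T₀ ∈ Tor act π) (h0 : T₀ ≠ 0) [Fact l.Prime] (q : 𝓞 F →+* ZMod l) (hq : Function.Surjective q)
    (hk : ∀ x, q x = 0 ↔ π ∣ x) :
    letI := algNL hL.le
    ∀ (χ : Gal(L/N) →* (ZMod l)ˣ) (_ : ∀ (σ : Gal(L/N)) (s : Ω ≃ₐ[F] Ω) (c : 𝓞 F), Lft σ s → q c = χ σ →
        ∀ R ∈ Tor act π, ac (WAB A B) s R = act c R) (x : (L)ˣ),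
      ∃ c : (Ω ≃ₐ[F] Ω) → Pt (WAB A B) Ω, H13X.Cc act π N c ∧ KR L e l T₀ (Mh χ) c x := by
  classical
  letI := algNL hL.le
  intro χ hχ x
  have hA := D.cma
  have hp := D.pr
  have hT : IsScalarTower F N L := IsScalarTower.of_algebraMap_eq fun x => Subtype.ext rfl
  have hT' : IsScalarTower N L Ω := IsScalarTower.of_algebraMap_eq fun x => rfl
  have hTF := H13X.tfld_of_tb hA hL
  have hrestr := H13X.exists_restr hA hL
  have hm : EqHomN l χ fun a => pw guN (cf χ (AddMonoidHom.id (ZMod l)) a) x := etaN_hom χ (AddMonoidHom.id (ZMod l)) x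
  obtain ⟨m₀, hm₀⟩ : ∃ m₀ : ZMod l → (L)ˣ, m₀ = fun a => pw guN (cf χ (AddMonoidHom.id (ZMod l)) a) x := ⟨_, rfl⟩
  rw [← hm₀] at hm
  have hact0 : ∀ c c' : 𝓞 F, act c T₀ = act c' T₀ → q c = q c' := by
    intro c c' h
    have h1 : act (c - c') T₀ = 0 := by rw [H55K.k2a_sub, h, sub_self]
    rw [H55K.tor_zero hA hp hT₀ h0, ← hk, map_sub, sub_eq_zero] at h1
    exact h1
  have hex : ∀ T : Pt (WAB A B) Ω, ∃ c : 𝓞 F, T ∈ Tor act π → act c T₀ = T := by
    intro T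
    by_cases hT : T ∈ Tor act π
    · obtain ⟨c, hc⟩ := H55K.tor_gen hA hp hT₀ hT h0
      exact ⟨c, fun _ => hc⟩
    · exact ⟨0, fun h => absurd h hT⟩
  choose cc hcc using hex
  have hP : ∀ c : 𝓞 F, act c T₀ ∈ Tor act π := fun c => H55K.tor_act c hT₀
  have hdet : ∀ (c : 𝓞 F), q (cc (act c T₀)) = q c := by
    intro c
    exact hact0 _ _ (hcc _ (hP c))
  obtain ⟨c, hc, hcT⟩ := H13X.cocycle_of_m D he hL (fun T => m₀ (q (cc T))) (fun T hT T' hT' => by
    have h2 : q (cc (T + T')) = q (cc T) + q (cc T') := by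
      rw [← map_add, ← hdet (cc T + cc T')]
      congr 2
      rw [H55K.k2a_add, hcc T hT, hcc T' hT']
    show ∃ z, m₀ (q (cc (T + T'))) = _
    rw [h2]
    exact hm.add _ _) (fun σ hσ T hT => by
    obtain ⟨s, hs⟩ := hrestr σ hσ
    obtain ⟨c, hc⟩ := hq (χ s : ZMod l)
    have h2 : ac (WAB A B) σ T = act (c * cc T) T₀ := by
      rw [H55K.k2a_mul, hcc T hT]
      exact hχ s σ c (fun x => hs x) hc T hT
    have h3 : q (cc (ac (WAB A B) σ T)) = χ s * q (cc T) := by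
      rw [h2, hdet, map_mul, hc]
    obtain ⟨z, hz⟩ := hm.equiv s (q (cc T))
    refine ⟨z, ?_⟩
    show ((m₀ (q (cc (ac (WAB A B) σ T))) : L) : Ω) = _
    rw [h3, hz, hs]
    rfl)
  refine ⟨c, hc, ?_⟩
  obtain ⟨y, hy, z, hyz⟩ := hcT T₀ hT₀
  refine ⟨y, z, hy, ?_⟩
  have h5 : q (cc T₀) = 1 := by
    have h6 := hdet 1
    rw [H55K.S.act_one, map_one q] at h6
    exact h6
  have h6 : m₀ (q (cc T₀)) = Mh χ x := by rw [h5, hm₀]; rfl
  rw [← h6]
  exact hyz

end H19C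
end

-- from Lib.H19C.GT1
section

/-! # H19C, chunk GT1: lemmas for the global count -/

open NumberField IsDedekindDomain WeierstrassCurve

namespace H19C

open H55P (IQ Pt ac Dec Inert decS Nm Ram)
open H35P (WAB Ker tt)
open H55K (Tor CMA Dta GV ak cj xc yc Lft TFld Abw)
open H55K.S
open H55R (Pl ord)
open H19B (DN mem_DN Cc CS mem_CS)
open H13S (Abv)
open H13X (Dat IsTB DecN algNL loc_zero JV)
open H13Y (guN)
open H99B (pw cf)

theorem nodvd {l n m : ℕ} (hl : l.Prime) (h1 : n ∣ m) (h4 : m = l - 1) : ¬ l ∣ n := by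
  intro h5
  have h3 := hl.one_lt
  have h2 := Nat.le_of_dvd (Nat.sub_pos_of_lt h3) ((h5.trans h1).trans (dvd_of_eq h4))
  omega

/-- The order of a group of characters with values in the integers modulo l. -/
theorem card_ne {G : Type} [Group G] [Fintype G] {l : ℕ} [Fact l.Prime] (χ : G →* (ZMod l)ˣ) (hχ : Function.Injective χ) :
    ((Fintype.card G : ℕ) : ZMod l) ≠ 0 := by
  have h1 : Nat.card G ∣ Nat.card (ZMod l)ˣ := Subgroup.card_dvd_of_injective χ hχ
  rw [Nat.card_eq_fintype_card (α := G), Nat.card_eq_fintype_card (α := (ZMod l)ˣ)] at h1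
  intro h0
  exact nodvd Fact.out h1 (ZMod.card_units l) ((ZMod.natCast_eq_zero_iff _ _).1 h0)

theorem mh_apply {N L : Type} [Field N] [Field L] [Algebra N L] [Fintype Gal(L/N)] {l : ℕ} [Fact l.Prime]
    (χ : Gal(L/N) →* (ZMod l)ˣ) (x : Lˣ) :
    Mh χ x = ∏ g : Gal(L/N), (guN g x) ^ (cf χ (AddMonoidHom.id (ZMod l)) 1 g) := rfl

/-- The powers of guN preserve the units outside S. -/
theorem mh_mem {N L : Type} [Field N] [NumberField N] [Field L] [NumberField L] [Algebra N L] [Fintype Gal(L/N)]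
    {l : ℕ} [Fact l.Prime] (χ : Gal(L/N) →* (ZMod l)ˣ) {S : Finset (Pl N)} {x : Lˣ} (hx : x ∈ SUs L S) :
    Mh χ x ∈ SUs L S := by
  rw [mh_apply]
  exact Subgroup.prod_mem _ fun g _ => Subgroup.zpow_mem _ (SUs_act g hx) _

/-- An element with order zero at the prime below V has value 1. -/
theorem ord_val {L : Type} [Field L] [NumberField L] {Ω : Type} [Field Ω] [Algebra L Ω] {V : ValuationSubring Ω} {W : Pl L}
    (hV : Abw V W) {x : Lˣ} (hx : ord W x = 0) : V.valuation (algebraMap L Ω (x : L)) = 1 := by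
  have h1 : ∀ y : Lˣ, ord W y = 0 → V.valuation (algebraMap L Ω (y : L)) ≤ 1 := by
    intro y hy
    rw [V.valuation_le_one_iff, hV]
    have h2 := HeightOneSpectrum.valuationOfNeZero_eq W y
    have h3 : W.valuationOfNeZero y = 1 := by
      have h4 : -Multiplicative.toAdd (W.valuationOfNeZero y) = 0 := hy
      exact toAdd_eq_zero.1 (neg_eq_zero.1 h4)
    rw [h3] at h2
    rw [← h2]
    exact le_of_eq WithZero.coe_one
  refine le_antisymm (h1 x hx) ?_
  have h2 := h1 x⁻¹ (by rw [H55R.ord_inv, hx, neg_zero])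
  rw [Units.val_inv_eq_inv_val, map_inv₀, map_inv₀] at h2
  have h3 : V.valuation (algebraMap L Ω (x : L)) ≠ 0 := (map_ne_zero _).2 ((map_ne_zero _).2 x.ne_zero)
  exact (inv_le_one₀ (zero_lt_iff.2 h3)).1 h2

variable {F : Type} [Field F] [NumberField F] [IQ F] {A B : F} {Om : ℂ} {Ω : Type} [Field Ω] [DecidableEq Ω]
  [Algebra F Ω] {j : Ω →+* ℂ} {act : 𝓞 F →+* AddMonoid.End (Pt (WAB A B) Ω)} {mo : Ideal (𝓞 F)}
  {ψ : Ideal (𝓞 F) →*₀ 𝓞 F}

variable {π : 𝓞 F} {l : ℕ} {e : Pt (WAB A B) Ω → Pt (WAB A B) Ω → Ω} {N N' L : IntermediateField F Ω}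
  {c c' : (Ω ≃ₐ[F] Ω) → Pt (WAB A B) Ω} {V V₀ : ValuationSubring Ω}

variable [IsAlgClosure F Ω]

/-- The elements whose class lies in Y'. -/
def YG (D : Dat A B Om j act mo ψ π l) (he : Pairing A B act π l e) {T : Pt (WAB A B) Ω} (hT : T ∈ Tor act π)
    (hL : IsTB act π N L) (M : (L)ˣ →* (L)ˣ) (Y' : AddSubgroup ((Ω ≃ₐ[F] Ω) → Pt (WAB A B) Ω))
    (hY : Y' ≤ CS N.fixingSubgroup act (cj π)) : Subgroup (L)ˣ where
  carrier := {x | ∃ c ∈ Y', KR L e l T M c x}
  one_mem' := ⟨0, Y'.zero_mem, kr_zero D he hT⟩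
  mul_mem' := by
    rintro x x' ⟨c, hc, h⟩ ⟨c', hc', h'⟩
    have h0 : ∀ s ∈ L.fixingSubgroup, (0 : (Ω ≃ₐ[F] Ω) → Pt (WAB A B) Ω) s ∈ Tor act (cj π) := fun s _ => zero_mem _
    have h1 : ∀ s ∈ L.fixingSubgroup, c' s ∈ Tor act (cj π) := fun s hs => (hY hc').tor s (hL.mono hs)
    have h2 := kr_sub D he hT h0 h1 (kr_zero D he hT) h'
    have h3 : ∀ s ∈ L.fixingSubgroup, ((0 : (Ω ≃ₐ[F] Ω) → Pt (WAB A B) Ω) - c') s ∈ Tor act (cj π) := fun s hs =>
      sub_mem (h0 s hs) (h1 s hs)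
    have h4 := kr_sub D he hT (fun s hs => (hY hc).tor s (hL.mono hs)) h3 h h2
    refine ⟨c - (0 - c'), Y'.sub_mem hc (Y'.sub_mem Y'.zero_mem hc'), ?_⟩
    rw [one_mul, inv_inv] at h4
    exact h4
  inv_mem' := by
    rintro x ⟨c, hc, h⟩
    have h0 : ∀ s ∈ L.fixingSubgroup, (0 : (Ω ≃ₐ[F] Ω) → Pt (WAB A B) Ω) s ∈ Tor act (cj π) := fun s _ => zero_mem _
    have h1 : ∀ s ∈ L.fixingSubgroup, c s ∈ Tor act (cj π) := fun s hs => (hY hc).tor s (hL.mono hs)
    have h2 := kr_sub D he hT h0 h1 (kr_zero D he hT) h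
    rw [one_mul] at h2
    exact ⟨0 - c, Y'.sub_mem Y'.zero_mem hc, h2⟩

/-- The l-th powers correspond to the class 0. -/
theorem kr_lpow (D : Dat A B Om j act mo ψ π l) (he : Pairing A B act π l e) {T : Pt (WAB A B) Ω} (hT : T ∈ Tor act π)
    {M : (L)ˣ →* (L)ˣ} (x : (L)ˣ) : KR L e l T M (0 : (Ω ≃ₐ[F] Ω) → Pt (WAB A B) Ω) (x ^ l) := by
  obtain ⟨y, z, hy, hyz⟩ := kr_zero (L := L) D he hT (M := M)
  refine ⟨y, z * (M x)⁻¹, hy, ?_⟩
  rw [hyz]
  congr 2
  rw [map_one, one_mul, map_pow, mul_pow, inv_pow, mul_comm (z ^ l), mul_inv_cancel_left]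

/-- The local conditions at conjugate places. -/
theorem loc_conj [NumberField N] (C : H13X.Cc act π N c) (hNN : N ≤ N') (hn : ∀ s ∈ N.fixingSubgroup, ∀ x ∈ N', s x ∈ N')
    {v : HeightOneSpectrum (𝓞 N)} (hV₀ : Abv N V₀ v) (hV : Abv N V v)
    (h : ∃ P : Pt (WAB A B) Ω, ∀ s ∈ DN N' V₀, c s = ac (WAB A B) s P - P) :
    ∃ P : Pt (WAB A B) Ω, ∀ s ∈ N'.fixingSubgroup, Dec V s → c s = ac (WAB A B) s P - P := by
  obtain ⟨P, hP⟩ := h
  obtain ⟨σ, hσM, hσ⟩ := H13X.trans_V N hV₀ hV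
  have hmono : ∀ s ∈ N'.fixingSubgroup, s ∈ N.fixingSubgroup := fun s hs => IntermediateField.fixingSubgroup_antitone hNN hs
  refine ⟨ac (WAB A B) σ P - c σ, fun s hs hsD => ?_⟩
  obtain ⟨t, ht⟩ : ∃ t : Ω ≃ₐ[F] Ω, t = σ⁻¹ * s * σ := ⟨_, rfl⟩
  have hst : s * σ = σ * t := by
    rw [ht]
    group
  have htN' : t ∈ N'.fixingSubgroup := by
    rw [ht, IntermediateField.mem_fixingSubgroup_iff]
    intro x hx
    have h1 : s (σ x) = σ x := (IntermediateField.mem_fixingSubgroup_iff N' s).1 hs _ (hn σ hσM x hx)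
    show σ⁻¹ (s (σ x)) = x
    rw [h1]
    exact σ.symm_apply_apply x
  have htD : Dec V₀ t := by
    intro x
    rw [ht]
    have h1 := hσ (σ⁻¹ (s (σ x)))
    have h2 : σ (σ⁻¹ (s (σ x))) = s (σ x) := σ.apply_symm_apply _
    rw [h2] at h1
    exact h1.symm.trans ((hsD (σ x)).trans (hσ x))
  have h3 := hP t (mem_DN.2 ⟨htN', htD⟩)
  have h4 := C.mul s (hmono s hs) σ hσM
  have h5 := C.mul σ hσM t (hmono t htN')
  rw [hst, h5, h3] at h4
  have h6 : ac (WAB A B) s (ac (WAB A B) σ P) = ac (WAB A B) σ (ac (WAB A B) t P) := by rw [← ac_mul, hst, ac_mul]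
  rw [map_sub] at h4
  rw [map_sub, h6]
  have h7 : c s = c σ + (ac (WAB A B) σ (ac (WAB A B) t P) - ac (WAB A B) σ P) - ac (WAB A B) s (c σ) := by
    rw [h4]
    abel
  rw [h7]
  abel

/-- The local conditions outside l and w. -/
theorem loc_out [NumberField N] (D : Dat A B Om j act mo ψ π l) (he : Pairing A B act π l e) (hL : IsTB act π N L)
    (C : H13X.Cc act π N c) (hNN : N ≤ N') {T₀ : Pt (WAB A B) Ω} (hT₀ : T₀ ∈ Tor act π)
    (hgen : ∀ T : Pt (WAB A B) Ω, act π T = 0 → ∃ a : ZMod l, T = a.val • T₀) {M : (L)ˣ →* (L)ˣ} {x : (L)ˣ}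
    (h : KR L e l T₀ M c x) (hVt : V ≠ ⊤) (hl : V.valuation (l : Ω) = 1) (hx : V.valuation (((M x : (L)ˣ) : L) : Ω) = 1) :
    ∃ P : Pt (WAB A B) Ω, ∀ s ∈ N'.fixingSubgroup, Dec V s → c s = ac (WAB A B) s P - P := by
  obtain ⟨v, hv⟩ := H13X.xg3_below (F := F) N hVt
  obtain ⟨P, hP⟩ := loc_zero D C hv (fun h => absurd h (by rw [hl]; exact lt_irrefl _)) fun s hs hj =>
    kr_inert D he hT₀ hgen h hl hx hj.1 ((hL.fix s).2 ⟨hs, hj.2.1⟩) (C.val s hs)
  exact ⟨P, fun s hs hsD => hP s (IntermediateField.fixingSubgroup_antitone hNN hs) hsD⟩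

/-- The local conditions above w, not above l. -/
theorem loc_tame [NumberField N] [NumberField N'] (D : Dat A B Om j act mo ψ π l) (he : Pairing A B act π l e) (hL : IsTB act π N L)
    (C : H13X.Cc act π N c) (hNN : N ≤ N') {T₀ : Pt (WAB A B) Ω} (hT₀ : T₀ ∈ Tor act π)
    (hgen : ∀ T : Pt (WAB A B) Ω, act π T = 0 → ∃ a : ZMod l, T = a.val • T₀)
    (hn : ∀ s ∈ N.fixingSubgroup, ∀ x ∈ N', s x ∈ N')
    (hd : Module.finrank F N' = Module.finrank F N * l) {w : HeightOneSpectrum (𝓞 N)}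
    (hr : Ram N N' w.asIdeal) (hV : Abv N V w) (hVt : V ≠ ⊤) (hl : V.valuation (l : Ω) = 1)
    (hfx : ∀ t, DecN N V t → ∀ T ∈ Tor act π, ac (WAB A B) t T = T) :
    ∃ P : Pt (WAB A B) Ω, ∀ s ∈ N'.fixingSubgroup, Dec V s → c s = ac (WAB A B) s P - P := by
  have hN'f : FiniteDimensional F N' := H13X.yn1_fin N'
  have hmono : ∀ s ∈ N'.fixingSubgroup, s ∈ N.fixingSubgroup := fun s hs => IntermediateField.fixingSubgroup_antitone hNN hs
  have C' : H13X.Cc act π N' c := ⟨fun s hs t ht => C.mul s (hmono s hs) t (hmono t ht), by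
    obtain ⟨M, hM, h1⟩ := C.cont
    exact ⟨M, hM, fun s hs => h1 s (hmono s hs)⟩, fun s hs => C.val s (hmono s hs)⟩
  obtain ⟨v, hv⟩ := H13X.xg3_below (F := F) N' hVt
  exact loc_zero D C' hv (fun h => absurd h (by rw [hl]; exact lt_irrefl _)) fun s hs hj =>
    kill_w D he hL C hT₀ hgen hl hfx hNN (fun a ha h0 => H13Y.ram_step D.hl hNN hn hd hr hV ha h0) hs hj.1

end H19C
end

-- from Lib.SSN.D
section

/-! # SSN: the converse for Selmer groups at an inert prime: definitions of the global half (no sorry) -/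

open NumberField IsDedekindDomain WeierstrassCurve

namespace SSN

open H55P (IQ Pt ac Dec Inert decS Nm Ram)
open H35P (WAB Ker tt)
open H55K (Tor CMA Dta GV ak cj xc yc Lft TFld)
open H55K.S
open H55R (Pl ord)
open H19C (SUs mem_SUs SUs_act)
open H13Y (guN)

/-- The additive maps from the integers of F to the units of L. -/
structure HM (F : Type) [Field F] (L : Type) [Field L] where
  fn : 𝓞 F → Lˣ
  add' : ∀ a b, fn (a + b) = fn a * fn b

section

variable {F : Type} [Field F] {L : Type} [Field L]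

/-- The value, as a unit. -/
def ev (f : HM F L) (a : 𝓞 F) : Lˣ := f.fn a

@[ext] theorem HM.ext {f g : HM F L} (h : ∀ a, ev f a = ev g a) : f = g := by
  cases f
  cases g
  congr
  exact funext h

/-- An element of HM from a map which is multiplicative. -/
def mkHM (v : 𝓞 F → Lˣ) (h : ∀ a b, v (a + b) = v a * v b) : HM F L := ⟨v, h⟩

@[simp] theorem ev_mk (v : 𝓞 F → Lˣ) (h : ∀ a b, v (a + b) = v a * v b) (a : 𝓞 F) : ev (mkHM v h) a = v a := rfl

theorem ev_add (f : HM F L) (a b : 𝓞 F) : ev f (a + b) = ev f a * ev f b := f.add' a b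

theorem ev_zero (f : HM F L) : ev f 0 = 1 := by
  have h := ev_add f 0 0
  rw [add_zero] at h
  exact left_eq_mul.1 h

theorem ev_neg (f : HM F L) (a : 𝓞 F) : ev f (-a) = (ev f a)⁻¹ := by
  have h := ev_add f (-a) a
  rw [neg_add_cancel, ev_zero] at h
  exact eq_inv_of_mul_eq_one_left h.symm


theorem ev_natmul (f : HM F L) (n : ℕ) (a : 𝓞 F) : ev f ((n : 𝓞 F) * a) = ev f a ^ n := by
  induction n with
  | zero => rw [Nat.cast_zero, zero_mul, ev_zero, pow_zero]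
  | succ n ih => rw [Nat.cast_succ, add_mul, one_mul, ev_add, ih, pow_succ]

theorem ev_intmul (f : HM F L) (n : ℤ) (a : 𝓞 F) : ev f ((n : 𝓞 F) * a) = ev f a ^ n := by
  obtain ⟨m, rfl | rfl⟩ := n.eq_nat_or_neg
  · rw [Int.cast_natCast, ev_natmul, zpow_natCast]
  · rw [Int.cast_neg, Int.cast_natCast, neg_mul, ev_neg, ev_natmul, zpow_neg, zpow_natCast]

instance : Zero (HM F L) := ⟨⟨fun _ => 1, fun _ _ => (one_mul 1).symm⟩⟩

instance : Add (HM F L) := ⟨fun f g => ⟨fun a => ev f a * ev g a, fun a b => by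
  rw [ev_add, ev_add]
  exact mul_mul_mul_comm _ _ _ _⟩⟩

instance : Neg (HM F L) := ⟨fun f => ⟨fun a => (ev f a)⁻¹, fun a b => by rw [ev_add, mul_inv]⟩⟩

instance : Sub (HM F L) := ⟨fun f g => f + -g⟩

theorem add_ev (f g : HM F L) (a : 𝓞 F) : ev (f + g) a = ev f a * ev g a := rfl

theorem zero_ev (a : 𝓞 F) : ev (0 : HM F L) a = 1 := rfl

theorem neg_ev (f : HM F L) (a : 𝓞 F) : ev (-f) a = (ev f a)⁻¹ := rfl


instance : AddCommGroup (HM F L) where
  add_assoc f g h := HM.ext fun a => by rw [add_ev, add_ev, add_ev, add_ev, mul_assoc]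
  zero_add f := HM.ext fun a => by rw [add_ev, zero_ev, one_mul]
  add_zero f := HM.ext fun a => by rw [add_ev, zero_ev, mul_one]
  add_comm f g := HM.ext fun a => by rw [add_ev, add_ev, mul_comm]
  neg_add_cancel f := HM.ext fun a => by rw [add_ev, neg_ev, inv_mul_cancel, zero_ev]
  sub_eq_add_neg f g := rfl
  nsmul := nsmulRec
  zsmul := zsmulRec

theorem nsmul_ev (f : HM F L) (n : ℕ) (a : 𝓞 F) : ev (n • f) a = ev f a ^ n := by
  induction n with
  | zero => rw [zero_nsmul, zero_ev, pow_zero]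
  | succ n ih => rw [succ_nsmul, add_ev, ih, pow_succ]

theorem sum_ev {ι : Type} (s : Finset ι) (f : ι → HM F L) (a : 𝓞 F) : ev (∑ i ∈ s, f i) a = ∏ i ∈ s, ev (f i) a := by
  classical
  induction s using Finset.induction_on with
  | empty => rw [Finset.sum_empty, Finset.prod_empty, zero_ev]
  | insert i s hi ih => rw [Finset.sum_insert hi, Finset.prod_insert hi, add_ev, ih]

instance : SMul (𝓞 F) (HM F L) := ⟨fun a f => ⟨fun b => ev f (a * b), fun b c => by rw [mul_add, ev_add]⟩⟩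

theorem smul_ev (a : 𝓞 F) (f : HM F L) (b : 𝓞 F) : ev (a • f) b = ev f (a * b) := rfl

/-- The module structure: (a f)(b) = f (a b). -/
instance : Module (𝓞 F) (HM F L) where
  one_smul f := HM.ext fun b => by rw [smul_ev, one_mul]
  mul_smul a a' f := HM.ext fun b => by
    rw [smul_ev, smul_ev, smul_ev, mul_comm a a', mul_assoc]
  smul_zero a := HM.ext fun b => by rw [smul_ev, zero_ev, zero_ev]
  smul_add a f g := HM.ext fun b => by rw [smul_ev, add_ev, add_ev, smul_ev, smul_ev]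
  add_smul a a' f := HM.ext fun b => by
    rw [smul_ev, add_ev, smul_ev, smul_ev, add_mul, ev_add]
  zero_smul f := HM.ext fun b => by rw [smul_ev, zero_mul, ev_zero, zero_ev]

/-- The scalar n acts as the n-th power. -/
theorem nat_ev (n : ℕ) (f : HM F L) (b : 𝓞 F) : ev ((n : 𝓞 F) • f) b = ev f b ^ n := by
  rw [smul_ev, ev_natmul]

variable {N : Type} [Field N] [Algebra N L]

/-- The action of the Galois group on the values. -/
noncomputable def gf (g : Gal(L/N)) (f : HM F L) : HM F L := ⟨fun b => guN g (ev f b), fun b c => by rw [ev_add, map_mul]⟩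

theorem gf_ev (g : Gal(L/N)) (f : HM F L) (b : 𝓞 F) : ev (gf g f) b = guN g (ev f b) := rfl

theorem gf_add (g : Gal(L/N)) (f f' : HM F L) : gf g (f + f') = gf g f + gf g f' :=
  HM.ext fun b => by rw [gf_ev, add_ev, add_ev, map_mul, gf_ev, gf_ev]

theorem gf_smul (g : Gal(L/N)) (a : 𝓞 F) (f : HM F L) : gf g (a • f) = a • gf g f :=
  HM.ext fun b => by rw [gf_ev, smul_ev, smul_ev, gf_ev]

/-- The projection: the sum of r(g) g f. -/
noncomputable def PG [Fintype Gal(L/N)] (r : Gal(L/N) → 𝓞 F) (f : HM F L) : HM F L := ∑ g : Gal(L/N), r g • gf g f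

theorem PG_ev [Fintype Gal(L/N)] (r : Gal(L/N) → 𝓞 F) (f : HM F L) (b : 𝓞 F) :
    ev (PG r f) b = ∏ g : Gal(L/N), guN g (ev f (r g * b)) := by
  rw [PG, sum_ev]
  exact Finset.prod_congr rfl fun g _ => by rw [smul_ev, gf_ev]

end

section

variable {F : Type} [Field F] {L : Type} [Field L] {N : Type} [Field N] [Algebra N L] [NumberField L] [NumberField N]

/-- The maps with values in the units outside S. -/
def HS (F : Type) [Field F] (L : Type) [Field L] [NumberField L] [Algebra N L] (S : Finset (Pl N)) :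
    Submodule (𝓞 F) (HM F L) where
  carrier := {f | ∀ a, ev f a ∈ SUs L S}
  add_mem' := fun {f g} hf hg a => by
    rw [add_ev]
    exact (SUs L S).mul_mem (hf a) (hg a)
  zero_mem' := fun a => by
    rw [zero_ev]
    exact (SUs L S).one_mem
  smul_mem' := fun a f hf b => by
    rw [smul_ev]
    exact hf (a * b)

theorem mem_HS {S : Finset (Pl N)} {f : HM F L} : f ∈ HS F L S ↔ ∀ a, ev f a ∈ SUs L S := Iff.rfl

theorem gf_mem {S : Finset (Pl N)} (g : Gal(L/N)) {f : HM F L} (hf : f ∈ HS F L S) : gf g f ∈ HS F L S := by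
  rw [mem_HS] at hf ⊢
  intro a
  rw [gf_ev]
  exact SUs_act g (hf a)

theorem PG_mem [Fintype Gal(L/N)] (r : Gal(L/N) → 𝓞 F) {S : Finset (Pl N)} {f : HM F L} (hf : f ∈ HS F L S) :
    PG r f ∈ HS F L S :=
  Submodule.sum_mem _ fun g _ => Submodule.smul_mem _ _ (gf_mem g hf)

end

variable {F : Type} [Field F] [NumberField F] {A B : F} {Ω : Type} [Field Ω] [DecidableEq Ω]
  [Algebra F Ω]

/-- The class c has Kummer generators for the points a T₀ whose l-th powers are the values f(a) times l-th powers. -/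
def KRI (act : 𝓞 F →+* AddMonoid.End (Pt (WAB A B) Ω)) (L : IntermediateField F Ω)
    (e : Pt (WAB A B) Ω → Pt (WAB A B) Ω → Ω) (l : ℕ) (T₀ : Pt (WAB A B) Ω)
    (c : (Ω ≃ₐ[F] Ω) → Pt (WAB A B) Ω) (f : HM F L) : Prop :=
  ∀ a : 𝓞 F, H19C.KR L e l (act a T₀) (MonoidHom.id (L)ˣ) c (ev f a)

/-- χ describes the action of Gal(L/N) on the points killed by π. -/
structure Chi (act : 𝓞 F →+* AddMonoid.End (Pt (WAB A B) Ω)) (π : 𝓞 F) {N L : Type} [Field N] [Field L] [Algebra N L]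
    [Algebra N Ω] [Algebra L Ω] (χ : Gal(L/N) → 𝓞 F) : Prop where
  act : ∀ (σ : Gal(L/N)) (s : Ω ≃ₐ[F] Ω), Lft σ s → ∀ R ∈ Tor act π, ac (WAB A B) s R = act (χ σ) R
  mul : ∀ σ τ, π ∣ χ (σ * τ) - χ σ * χ τ
  one : π ∣ χ 1 - 1
  ne : ∀ σ, ¬ π ∣ χ σ
  inj : ∀ σ, π ∣ χ σ - 1 → σ = 1

end SSN
end
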