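import Mathlib
import Pool.Agent.Lib.H1M.PP2.M011
import Pool.Agent.Lib.H1M.PP2.M076
import Pool.Agent.Lib.H1M.PP2.M083
import Pool.Agent.Lib.H1M.PP2.M094
import Pool.Agent.Lib.H1M.PP2.M105
import Pool.Agent.Lib.H1M.PP2.M108
import Pool.Agent.Lib.H1M.PP2.M119
import Pool.Agent.Lib.H1M.PP2.M126
import Pool.Agent.Lib.H1M.PP2.M127
import Pool.Agent.Lib.H1M.PP2.M133
import Pool.Agent.Lib.H1M.PP2.M140
import Pool.Agent.Lib.H1M.PP2.M147
import Pool.Agent.Lib.H1M.PP2.M154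

/-! Merged copies (to shorten the build) of Lib.SSN.L5, Lib.SSN.LK, Lib.SSN.L6. -/

-- from Lib.SSN.L5
section

/-! # SSN, chunk L5: the frame of E[p] at an inert prime p -/

open NumberField IsDedekindDomain WeierstrassCurve

namespace SSN

open H55P (IQ Pt ac Dec Inert decS Nm)
open H35P (WAB Ker tt)
open H55K (Tor CMA Dta GV ak cj)
open H19B (DN mem_DN f6Fix f6_nrm f6_pow Rep zt rep_exists)
open H19C (Frm)

section rep

/-- Representatives of the classes modulo the kernel of a homomorphism to a finite group. -/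
theorem rep_hom {G H : Type} [Group G] [Group H] [Finite H] (f : G →* H) (C E : Subgroup G) (hCE : ∀ s ∈ E, f s = 1 ↔ s ∈ C) :
    ∃ S : Finset G, Rep C E S ∧ S.card ∣ Nat.card H := by
  obtain ⟨f', hf'⟩ : ∃ f' : E →* H, f' = f.comp E.subtype := ⟨_, rfl⟩
  have h3 : f'.ker = C.subgroupOf E := by
    ext s
    rw [MonoidHom.mem_ker, Subgroup.mem_subgroupOf, ← hCE s.1 s.2, hf']
    rfl
  have h4 : C.relIndex E = Nat.card f'.range := by
    rw [Subgroup.relIndex, ← h3, Subgroup.index_ker]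
  have h5 : Nat.card f'.range ∣ Nat.card H := Subgroup.card_subgroup_dvd_card _
  have h7 : C.relIndex E ∣ Nat.card H := by rw [h4]; exact h5
  have h8 : 0 < C.relIndex E := Nat.pos_of_dvd_of_pos h7 Nat.card_pos
  obtain ⟨S, hS1, hS2⟩ := rep_exists C E h8.ne'
  exact ⟨S, hS1, hS2 ▸ h7⟩

end rep

variable {F : Type} [Field F] [NumberField F] [IQ F] {A B : F} {Om : ℂ} {Ω : Type} [Field Ω] [DecidableEq Ω]
  [Algebra F Ω] [IsAlgClosure F Ω] {j : Ω →+* ℂ} {act : 𝓞 F →+* AddMonoid.End (Pt (WAB A B) Ω)} {mo : Ideal (𝓞 F)}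
  {ψ : Ideal (𝓞 F) →*₀ 𝓞 F} {p : ℕ} {V : ValuationSubring Ω}

/-- The action of the Galois group on the points of order p. -/
theorem exists_al (h : CMA F A B Om j act) (hπ : Prime (p : 𝓞 F)) : ∃ al : (Ω ≃ₐ[F] Ω) → 𝓞 F,
    (∀ s, ∀ T : Pt (WAB A B) Ω, p • T = 0 → ac (WAB A B) s T = act (al s) T) ∧
      (∀ s t, (p : 𝓞 F) ∣ al (s * t) - al s * al t) ∧
      ∀ s, (p : 𝓞 F) ∣ al s - 1 ↔ ∀ T : Pt (WAB A B) Ω, p • T = 0 → ac (WAB A B) s T = T := by
  obtain ⟨-, T₀, hT₀, hgen, hz⟩ := H55K.S.gi_gen h _ hπ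
  have hact : ∀ T : Pt (WAB A B) Ω, act (p : 𝓞 F) T = p • T := fun T => H55K.S.act_nat p T
  have hT₀p : p • T₀ = 0 := by
    rw [← hact]
    exact hT₀
  have hex : ∀ s : Ω ≃ₐ[F] Ω, ∃ a : 𝓞 F, ac (WAB A B) s T₀ = act a T₀ := by
    intro s
    refine hgen _ ?_
    rw [H55K.S.mem_Tor, ← h.gal, show act (p : 𝓞 F) T₀ = 0 from hT₀, map_zero]
  choose al hal using hex
  have h1 : ∀ s, ∀ T : Pt (WAB A B) Ω, p • T = 0 → ac (WAB A B) s T = act (al s) T := by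
    intro s T hT
    obtain ⟨a, rfl⟩ := hgen T (by rw [H55K.S.mem_Tor, hact]; exact hT)
    rw [h.gal, hal, ← H55K.S.act_mul, ← H55K.S.act_mul, mul_comm]
  refine ⟨al, h1, fun s t => ?_, fun s => ⟨fun h2 T hT => ?_, fun h2 => ?_⟩⟩
  · rw [← hz, H55K.S.act_sub, ← hal, H55K.S.ac_mul, hal t, h.gal, hal s, ← H55K.S.act_mul, mul_comm, sub_self]
  · obtain ⟨c, hc⟩ := h2
    have h3 : al s = 1 + (p : 𝓞 F) * c := by rw [← hc]; ring
    rw [h1 s T hT, h3, H55K.S.act_add, H55K.S.act_one, mul_comm, H55K.S.act_mul, hact, hT, map_zero, add_zero]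
  · rw [← hz, H55K.S.act_sub, ← hal, H55K.S.act_one, h2 T₀ hT₀p, sub_self]

/-- The homomorphism to the units of the residue field. -/
theorem exists_hom {G : Type} [Group G] (hp : p.Prime) (hπ : Prime (p : 𝓞 F)) (al : G → 𝓞 F)
    (h1 : ∀ s t, (p : 𝓞 F) ∣ al (s * t) - al s * al t) (h2 : (p : 𝓞 F) ∣ al 1 - 1) :
    ∃ f : G →* (𝓞 F ⧸ Ideal.span {(p : 𝓞 F)})ˣ, (∀ s, f s = 1 ↔ (p : 𝓞 F) ∣ al s - 1) ∧
      Finite (𝓞 F ⧸ Ideal.span {(p : 𝓞 F)})ˣ ∧ Nat.card (𝓞 F ⧸ Ideal.span {(p : 𝓞 F)})ˣ = p ^ 2 - 1 := by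
  have hne : Ideal.span {(p : 𝓞 F)} ≠ ⊥ := by
    rw [Ne, Ideal.span_singleton_eq_bot]
    exact hπ.ne_zero
  have hm : (Ideal.span {(p : 𝓞 F)}).IsMaximal := ((Ideal.span_singleton_prime hπ.ne_zero).2 hπ).isMaximal hne
  let _ := Ideal.Quotient.field (Ideal.span {(p : 𝓞 F)})
  have hfin : Finite (𝓞 F ⧸ Ideal.span {(p : 𝓞 F)}) := Ideal.finiteQuotientOfFreeOfNeBot _ hne
  have hmk : ∀ x y : 𝓞 F, Ideal.Quotient.mk (Ideal.span {(p : 𝓞 F)}) x = Ideal.Quotient.mk _ y ↔ (p : 𝓞 F) ∣ x - y := fun x y => by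
    rw [Ideal.Quotient.eq, Ideal.mem_span_singleton]
  let f : G →* (𝓞 F ⧸ Ideal.span {(p : 𝓞 F)}) :=
    { toFun := fun s => Ideal.Quotient.mk _ (al s)
      map_one' := by
        rw [← map_one (Ideal.Quotient.mk (Ideal.span {(p : 𝓞 F)}))]
        exact (hmk _ _).2 h2
      map_mul' := fun s t => by
        rw [← map_mul]
        exact (hmk _ _).2 (h1 s t) }
  refine ⟨f.toHomUnits, fun s => ?_, inferInstance, ?_⟩
  · rw [← Units.val_eq_one]
    show Ideal.Quotient.mk (Ideal.span {(p : 𝓞 F)}) (al s) = 1 ↔ _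
    rw [← map_one (Ideal.Quotient.mk (Ideal.span {(p : 𝓞 F)})), hmk]
  · rw [Nat.card_units]
    have h3 : Nat.card (𝓞 F ⧸ Ideal.span {(p : 𝓞 F)}) = Nm (p : 𝓞 F) := rfl
    rw [h3, H55K.Nm_nat]

theorem pow_lt {Ω : Type} [Field Ω] (V : ValuationSubring Ω) {x y : Ω} (hx : V.valuation x ≤ 1) (hy : V.valuation y ≤ 1)
    (h : V.valuation (x - y) < 1) (n : ℕ) : V.valuation (x ^ n - y ^ n) < 1 := by
  induction n with
  | zero =>
    rw [pow_zero, pow_zero, sub_self, map_zero]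
    exact zero_lt_one
  | succ n ih =>
    have e1 : x ^ (n + 1) - y ^ (n + 1) = x * (x ^ n - y ^ n) + (x - y) * y ^ n := by ring
    rw [e1]
    refine Valuation.map_add_lt _ ?_ ?_
    · rw [map_mul]
      exact lt_of_le_of_lt (mul_le_of_le_one_left' hx) ih
    · rw [map_mul, map_pow]
      exact lt_of_le_of_lt (mul_le_of_le_one_right' (pow_le_one' hy n)) h

/-- The action on the parameter of a point of order p. -/
theorem tt_al (h : CMA F A B Om j act) (hG : GV A B V) {T : Pt (WAB A B) Ω} (hT : Ker V T) (h0 : tt T ≠ 0) {s : Ω ≃ₐ[F] Ω} {a : 𝓞 F}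
    (ha : ac (WAB A B) s T = act a T) : V.valuation (s (tt T) / tt T - ak Ω a) < 1 := by
  have hv : V.valuation (tt T) ≠ 0 := (map_ne_zero _).2 h0
  have h1 := H55K.tt_act h hG a hT
  rw [← ha, H55K.S.tt_ac] at h1
  have h3 : s (tt T) / tt T - ak Ω a = (s (tt T) - ak Ω a * tt T) / tt T := by
    rw [sub_div, mul_div_cancel_right₀ _ h0]
  rw [h3, map_div₀, div_lt_one₀ (zero_lt_iff.2 hv)]
  refine lt_of_le_of_lt h1 ?_
  rw [sq]
  calc V.valuation (tt T) * V.valuation (tt T) < 1 * V.valuation (tt T) :=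
        mul_lt_mul_of_pos_right (H55K.ttlt hG hT) (zero_lt_iff.2 hv)
    _ = V.valuation (tt T) := one_mul _

/-- The frame of E[p]: Fri, with the action on the points and the bound for the number of levels. -/
structure Fe (X : Frm F Ω) (N : IntermediateField F Ω) (act : 𝓞 F →+* AddMonoid.End (Pt (WAB A B) Ω)) (om : (Ω ≃ₐ[F] Ω) → ZMod X.p)
    (al : (Ω ≃ₐ[F] Ω) → 𝓞 F) (φ : Ω ≃ₐ[F] Ω) (q : ℕ) (g : 𝓞 F) (b₀ : ℕ) : Prop where
  fri : Fri X (DN N X.V) om al φ q g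
  act : ∀ s, ∀ T : Pt (WAB A B) Ω, X.p • T = 0 → ac (WAB A B) s T = act (al s) T
  memC : ∀ s, s ∈ X.C ↔ s ∈ DN N X.V ∧ ∀ T : Pt (WAB A B) Ω, X.p • T = 0 → ac (WAB A B) s T = T
  nrm : ∀ s, (X.p : 𝓞 F) ∣ al s * cj (al s) - ((om s).val : 𝓞 F)
  cnt : ∀ (k : ℕ) (S₁ S₂ : Finset ℕ), k * (X.p - 1) < X.e * X.p → (∀ i ∈ S₁, i < k ∧ ¬ X.p ∣ i + 1 ∧ G1 X (DN N X.V) al (i + 1)) →
      (∀ i ∈ S₂, i < k ∧ ¬ X.p ∣ i + 1 ∧ G2 X (DN N X.V) al (i + 1)) → S₁.card + S₂.card ≤ 2 * b₀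

theorem exists_fe (dta : Dta A B Om j act mo ψ p) (hπ : Prime (p : 𝓞 F)) (hV : V.valuation (p : Ω) < 1) (N : IntermediateField F Ω)
    [NumberField N] {v : HeightOneSpectrum (𝓞 N)} (hv : H13S.Abv N V v) {b₀ : ℕ} (hb0 : 0 < b₀)
    (hb : v.valuation N (algebraMap F N ((p : 𝓞 F) : F)) = WithZero.exp (-(b₀ : ℤ))) :
    ∃ (X : Frm F Ω) (om : (Ω ≃ₐ[F] Ω) → ZMod X.p) (al : (Ω ≃ₐ[F] Ω) → 𝓞 F) (φ : Ω ≃ₐ[F] Ω) (g : 𝓞 F), X.p = p ∧ X.V = V ∧
      Fe X N act om al φ (Ideal.absNorm v.asIdeal) g b₀ ∧ ∃ (L : IntermediateField F Ω) (_ : NumberField L) (vL : HeightOneSpectrum (𝓞 L)),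
        H13S.Abv L V vL ∧ X.C = DN L V := by
  classical
  have hal' : Algebra.IsAlgebraic F Ω := IsAlgClosure.isAlgebraic
  have hp := dta.prime
  have hpf : Fact p.Prime := ⟨hp⟩
  have hA := dta.cma
  have hG : GV A B V := dta.good V hV
  have hpa : ak Ω (p : 𝓞 F) = (p : Ω) := by simp [ak]
  have hVa : V.valuation (ak Ω (p : 𝓞 F)) < 1 := by rw [hpa]; exact hV
  have hact : ∀ T : Pt (WAB A B) Ω, act (p : 𝓞 F) T = p • T := fun T => H55K.S.act_nat p T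
  obtain ⟨w₁, hw₁N, hw₁0, hw₁1, hπw, hval⟩ := H19C.exists_unif2 (V := V) N hv hb0 hb
  obtain ⟨φ, hq1, hpq, hφD, hφ, -⟩ := H19C.exists_res2 (π := (p : 𝓞 F)) hp hπ dvd_rfl hVa N hv
  rw [hpa] at hπw
  obtain ⟨al, al1, al2, al3⟩ := exists_al (p := p) hA hπ
  have hac : IsAlgClosed Ω := IsAlgClosure.isAlgClosed F
  have hchar : CharZero Ω := charZero_of_injective_algebraMap (algebraMap F Ω).injective
  have hn0 : NeZero p := ⟨hp.ne_zero⟩
  have hn1 : NeZero (p : Ω) := ⟨Nat.cast_ne_zero.2 hp.ne_zero⟩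
  obtain ⟨ζ, hζ⟩ := HasEnoughRootsOfUnity.exists_primitiveRoot Ω p
  -- the cyclotomic character
  have hom : ∀ s : Ω ≃ₐ[F] Ω, ∃ m : ZMod p, s ζ = zt ζ m ∧ (p : 𝓞 F) ∣ al s * cj (al s) - ((m.val : ℕ) : 𝓞 F) := by
    intro s
    have hs1 : s ζ ^ p = 1 := by rw [← map_pow, hζ.pow_eq_one, map_one]
    obtain ⟨c, hc1, hc⟩ := hζ.eq_pow_of_pow_eq_one hs1
    refine ⟨(c : ZMod p), ?_, ?_⟩
    · rw [H19B.zt_nat hζ, hc]
    · obtain ⟨T₀, hT₀, hT₀0⟩ := H55K.exists_tor hA hπ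
      have hT' : T₀ ∈ Tor act (cj (p : 𝓞 F)) := by rw [H55K.cj_nat]; exact hT₀
      have hTp : p • T₀ = 0 := by rw [← hact]; exact hT₀
      have h1 := H55K.S.char_id _ p dta hπ dvd_rfl ζ hζ s (al s) (al s) c T₀ T₀ hT₀ hT₀0 hT' hT₀0 (al1 s T₀ hTp) (al1 s T₀ hTp) hc.symm
      rw [ZMod.val_natCast, Nat.mod_eq_of_lt hc1, mul_comm (al s)]
      exact h1
  choose om hom1 hom2 using hom
  -- the generator
  obtain ⟨g, hg1, hg2⟩ := exists_gen hp (by have := dta.five; omega) hπ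
  -- the field of the points of order p
  have hNf : FiniteDimensional F N := H13X.yn1_fin N
  obtain ⟨L, hL⟩ := H13X.exists_TB hA (p : 𝓞 F) hπ N
  have hLf : FiniteDimensional F L := hL.fin
  have hLn : NumberField L := NumberField.of_module_finite F L
  obtain ⟨w, e, hwL, hw0, hw1, he0, hep, hvalL⟩ := H19B.exists_unif hp hV L
  have hLfix : ∀ s : Ω ≃ₐ[F] Ω, s ∈ L.fixingSubgroup ↔
      s ∈ N.fixingSubgroup ∧ ∀ T : Pt (WAB A B) Ω, p • T = 0 → ac (WAB A B) s T = T := fun s =>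
    (hL.fix s).trans (and_congr_right fun _ => forall_congr' fun T => by rw [H55K.S.mem_Tor, hact])
  have hVtop : V ≠ ⊤ := by
    rintro rfl
    have h1 : ((p : Ω)⁻¹) ∈ (⊤ : ValuationSubring Ω) := trivial
    have h2 := ((⊤ : ValuationSubring Ω).valuation_le_one_iff _).2 h1
    rw [map_inv₀] at h2
    have h3 : (⊤ : ValuationSubring Ω).valuation (p : Ω) ≠ 0 := (map_ne_zero _).2 (Nat.cast_ne_zero.2 hp.ne_zero)
    exact absurd h2 (not_le.2 ((one_lt_inv₀ (zero_lt_iff.2 h3)).2 hV))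
  obtain ⟨vL, hvL⟩ := H13X.xg3_below L hVtop
  obtain ⟨φL, hφLL, hφLD, hφL⟩ := H13X.exists_frobK L hvL
  obtain ⟨i₁, hi₁⟩ := hvalL w₁ hw₁0 (fun s hsL _ =>
    (IntermediateField.mem_fixingSubgroup_iff N s).1 ((hLfix s).1 hsL).1 w₁ hw₁N)
  obtain ⟨d, hd0, hdw⟩ := H19C.fb_pos hw0 hw1 hw₁1 hi₁
  have hedb : e = d * b₀ := by
    refine H19C.fb_pow hw0 hw1 ?_
    rw [← hep, hπw, hdw, pow_mul]
  -- a point of order p
  obtain ⟨T₀, hT₀, hT₀0⟩ := H55K.exists_tor hA hπ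
  have hT₀p : p • T₀ = 0 := by rw [← hact]; exact hT₀
  obtain ⟨hT₀K, hT₀v⟩ := H55K.tor_ram hA hG hπ hVa hT₀ hT₀0
  rw [H55K.Nm_nat, hpa] at hT₀v
  have hp1 : 0 < p ^ 2 - 1 := by
    have h1 := hp.two_le
    have h2 : 2 ^ 2 ≤ p ^ 2 := Nat.pow_le_pow_left h1 2
    omega
  have ht0 : (tt T₀ : Ω) ≠ 0 := by
    intro h
    rw [h, map_zero, zero_pow hp1.ne'] at hT₀v
    exact (map_ne_zero V.valuation).2 (Nat.cast_ne_zero.2 hp.ne_zero) hT₀v.symm
  obtain ⟨i₂, hi₂⟩ := hvalL (tt T₀) ht0 (fun s hsL _ => by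
    rw [← H55K.S.tt_ac (W := WAB A B), ((hLfix s).1 hsL).2 T₀ hT₀p])
  obtain ⟨r, hr0, hrw⟩ := H19C.fb_pos hw0 hw1 (H55K.ttlt hG hT₀K) hi₂
  have hre : r * (p ^ 2 - 1) = e := by
    refine H19C.fb_pow hw0 hw1 ?_
    rw [pow_mul, ← hrw, hT₀v, hep]
  have hw0v : V.valuation w ≠ 0 := (map_ne_zero _).2 hw0
  let C : Subgroup (Ω ≃ₐ[F] Ω) := f6Fix (DN N V) (fun T : Pt (WAB A B) Ω => p • T = 0)
  have hCL : C = DN L V := by
    ext s
    constructor
    · intro hs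
      exact mem_DN.2 ⟨(hLfix s).2 ⟨(mem_DN.1 hs.1).1, hs.2⟩, (mem_DN.1 hs.1).2⟩
    · intro hs
      have h1 := mem_DN.1 hs
      have h2 := (hLfix s).1 h1.1
      exact ⟨mem_DN.2 ⟨h2.1, h1.2⟩, h2.2⟩
  let X : Frm F Ω :=
    { p := p
      q := Ideal.absNorm vL.asIdeal
      e := e
      b := e
      Q := Ideal.absNorm vL.asIdeal
      G := fun _ => True
      V := V
      D := C
      E := C
      C := C
      w := w
      φ := φL
      ζ := ζ
      om := fun _ => 1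
      et := fun _ => 1 }
  have hwC : ∀ s ∈ C, s w = w := fun s hs =>
    (IntermediateField.mem_fixingSubgroup_iff L s).1 ((hLfix s).2 ⟨(mem_DN.1 hs.1).1, hs.2⟩) w hwL
  have hdv : ∀ s ∈ DN N V, ∀ x : Ω, V.valuation (s x) = V.valuation x := fun s hs x => H13X.Dec.val (mem_DN.1 hs).2 x
  have hCD : C ≤ DN N V := fun s hs => hs.1
  have hζ1 : ∀ s ∈ C, s ζ = ζ := by
    intro s hs
    obtain ⟨c, hc⟩ := (al3 s).2 hs.2
    obtain ⟨c', hc'⟩ := hom2 s
    have h1 : (p : 𝓞 F) ∣ (((om s).val : ℤ) - 1 : ℤ) := by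
      refine ⟨cj (al s) * c + cj c - c', ?_⟩
      have h2 : cj (al s) - 1 = (p : 𝓞 F) * cj c := by
        have h3 := congrArg cj hc
        rw [map_sub, map_one, map_mul, H55K.cj_nat] at h3
        exact h3
      push_cast
      linear_combination (cj (al s)) * hc + h2 - hc'
    have h2 : (p : ℤ) ∣ ((om s).val : ℤ) - 1 := by
      by_contra hn
      obtain ⟨u, v', huv⟩ := ((Nat.prime_iff_prime_int.1 hp).coprime_iff_not_dvd).2 hn
      refine hπ.not_isUnit (isUnit_of_dvd_one ?_)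
      have h6 := congrArg (Int.cast : ℤ → 𝓞 F) huv
      push_cast at h6
      rw [← h6]
      refine dvd_add (dvd_mul_left _ _) (Dvd.dvd.mul_left ?_ _)
      push_cast at h1
      exact h1
    have h3 : om s = 1 := by
      have h4 := (ZMod.intCast_zmod_eq_zero_iff_dvd _ p).2 h2
      push_cast at h4
      rw [ZMod.natCast_zmod_val, sub_eq_zero] at h4
      exact h4
    rw [hom1 s, h3]
    have h5 := H19B.zt_nat hζ 1
    rw [Nat.cast_one, pow_one] at h5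
    exact h5
  have hφL' : ∀ x : Ω, V.valuation x ≤ 1 → V.valuation (φL x - x ^ Ideal.absNorm vL.asIdeal) < 1 := fun x hx =>
    hφL x ((V.valuation_le_one_iff _).1 hx)
  have hφLC : φL ∈ C := by
    rw [hCL]
    exact mem_DN.2 ⟨hφLL, hφLD⟩
  obtain ⟨fL, hfL0, hfL⟩ := H19B.f2_exp V (p : 𝓞 F) hπ hVa vL hvL
  have hpqL : p ∣ Ideal.absNorm vL.asIdeal := by
    rw [hfL]
    exact dvd_pow (H19B.f2_Nm hp hπ dvd_rfl) hfL0.ne'
  have hqL0 : Ideal.absNorm vL.asIdeal ≠ 0 := by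
    rw [Ne, Ideal.absNorm_eq_zero_iff]
    exact vL.ne_bot
  have hqL1 : 1 < Ideal.absNorm vL.asIdeal :=
    lt_of_lt_of_le hp.one_lt (Nat.le_of_dvd (Nat.pos_of_ne_zero hqL0) hpqL)
  have hOk : X.Ok := by
    refine
      { pr := hp
        odd := lt_of_lt_of_le (by norm_num) dta.five
        dec := fun s hs => (mem_DN.1 (hCD hs)).2
        inv := fun s hs => hdv s (hCD hs)
        le1 := le_rfl
        le2 := le_rfl
        nrm1 := fun s hs t ht => C.mul_mem (C.mul_mem (C.inv_mem hs) ht) hs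
        nrm2 := fun s hs t ht => C.mul_mem (C.mul_mem (C.inv_mem hs) ht) hs
        rep := ⟨{1}, ⟨fun s hs => by rw [Finset.mem_singleton.1 hs]; exact C.one_mem,
          fun t ht => ⟨1, Finset.mem_singleton_self _, by rw [inv_one, one_mul]; exact ht⟩,
          fun s hs s' hs' _ => (Finset.mem_singleton.1 hs).trans (Finset.mem_singleton.1 hs').symm⟩, by
            rw [Finset.card_singleton]
            exact fun h => hp.one_lt.ne' (Nat.dvd_one.1 h)⟩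
        fw := hwC
        w0 := hw0
        w1 := hw1
        val := fun x hx0 hx => hvalL x hx0 fun s hsL hsI => hx s
          ⟨mem_DN.2 ⟨((hLfix s).1 hsL).1, H55P.inert_dec V s hsI⟩, ((hLfix s).1 hsL).2⟩
        e0 := he0
        ep := hep
        q0 := hqL1
        Qp := hpqL
        Q0 := lt_trans zero_lt_one hqL1
        res := fun x hx hxE => by
          have h1 := hφL' x hx
          rw [hxE _ hφLC] at h1
          rw [← neg_sub, Valuation.map_neg]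
          exact h1
        phi := hφLC
        fro := hφL'
        prim := hζ
        zD := fun s hs => by
          rw [hζ1 s hs]
          have h5 := H19B.zt_nat hζ 1
          rw [Nat.cast_one, pow_one] at h5
          exact h5.symm
        om1 := fun _ _ => rfl
        et1 := fun _ _ => rfl
        lev := fun i hi => absurd trivial hi
        cnt := fun k S hk hS => H19C.cnt_one (lt_of_lt_of_le (by norm_num) dta.five) he0 S hk fun i hi => ⟨(hS i hi).1, (hS i hi).2.1⟩ }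
  have hmemC : ∀ s, s ∈ C ↔ s ∈ DN N V ∧ ∀ T : Pt (WAB A B) Ω, p • T = 0 → ac (WAB A B) s T = T := fun s => Iff.rfl
  have hFri : Fri X (DN N V) om al φ (Ideal.absNorm v.asIdeal) g :=
    { ok := hOk
      eD := rfl
      eE := rfl
      le := hCD
      nrm := fun s hs t ht => f6_nrm (fun s _ T hT => by rw [← map_nsmul, hT, map_zero]) hs ht
      inv := hdv
      zD := fun s _ => hom1 s
      phi := hφD
      q0 := hq1
      fro := hφ
      alC := fun s hs => by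
        rw [al3 s]
        exact ⟨fun h => h.2, fun h => ⟨hs, h⟩⟩
      ine := hπ
      gen := hg1
      bas := hg2 }
  -- the inertia group
  let I : Subgroup (Ω ≃ₐ[F] Ω) := DN N V ⊓ H55P.inS F V
  obtain ⟨f, hf1, hffin, hfcard⟩ := exists_hom (G := Ω ≃ₐ[F] Ω) hp hπ al al2 ((al3 1).2 fun T _ => by
    have h1 := H55K.S.ac_mul (W := WAB A B) (1 : Ω ≃ₐ[F] Ω) 1 T
    cases T <;> rfl)
  obtain ⟨S, hS, hSc⟩ := rep_hom f (I ⊓ C) I (fun s hsI => by
    rw [hf1, al3]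
    exact ⟨fun h1 => ⟨hsI, hsI.1, h1⟩, fun h1 => h1.2.2⟩)
  have hSp : ¬ p ∣ S.card := by
    intro h
    have h1 : p ∣ p ^ 2 - 1 := h.trans (hfcard ▸ hSc)
    have h2 : p ∣ p ^ 2 := dvd_pow_self _ two_ne_zero
    have h3 : p ^ 2 = (p ^ 2 - 1) + 1 := by omega
    rw [h3] at h2
    exact hp.one_lt.ne' (Nat.dvd_one.1 ((Nat.dvd_add_right h1).1 h2))
  have hθ1 : ∀ s ∈ DN N V, V.valuation (s w / w) = 1 := fun s hs => by rw [map_div₀, hdv s hs, div_self hw0v]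
  have hlev : ∀ i : ℕ, (∀ s ∈ I, V.valuation ((s w / w) ^ i - 1) < 1) → d ∣ i := by
    intro i hi
    exact H19C.lev_dvd hp hV hS hSp hw0 hw1 (fun s hs => hwC s hs.2) hdw
      (fun y hy hfix => hval y hy fun s hsN hsI => hfix s ⟨mem_DN.2 ⟨hsN, H55P.inert_dec V s hsI⟩, hsI⟩) hi
  -- powers of the characters
  have hdp : d ∣ p ^ 2 - 1 := by
    refine hlev _ fun s hs => ?_
    have h1 : s ^ (p ^ 2 - 1) ∈ C := by
      refine ⟨(DN N V).pow_mem hs.1 _, (al3 _).1 ((hf1 _).1 ?_)⟩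
      rw [map_pow, ← hfcard]
      exact pow_card_eq_one'
    have h2 := (H19C.lv_pow (V := V) hs.2 (hdv s hs.1) hw0 (p ^ 2 - 1)).1
    rw [hwC _ h1, div_self hw0] at h2
    rw [← neg_sub, Valuation.map_neg]
    exact h2
  have hθr : ∀ s ∈ I, V.valuation ((s w / w) ^ r - ak Ω (al s)) < 1 := by
    intro s hs
    have h1 := tt_al hA hG hT₀K ht0 (al1 s T₀ hT₀p)
    have hwr : w ^ r ≠ 0 := pow_ne_zero _ hw0
    obtain ⟨y, hy⟩ : ∃ y : Ω, y = tt T₀ / w ^ r := ⟨_, rfl⟩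
    have hy1 : V.valuation y = 1 := by
      rw [hy, map_div₀, map_pow, hrw, div_self (pow_ne_zero _ hw0v)]
    have hy0 : y ≠ 0 := fun h => by rw [h, map_zero] at hy1; exact zero_ne_one hy1
    have h2 : V.valuation (s y - y) < 1 := hs.2 y ((V.valuation_le_one_iff _).1 hy1.le)
    have h3 : tt T₀ = y * w ^ r := by rw [hy, div_mul_cancel₀ _ hwr]
    have h4 : s (tt T₀) / tt T₀ = (s w / w) ^ r + ((s y - y) / y) * (s w / w) ^ r := by
      rw [h3, map_mul, map_pow, div_pow]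
      field_simp
      ring
    have h5 : (s w / w) ^ r - ak Ω (al s) = (s (tt T₀) / tt T₀ - ak Ω (al s)) - ((s y - y) / y) * (s w / w) ^ r := by
      rw [h4]
      ring
    rw [h5]
    refine V.valuation.map_sub_lt h1 ?_
    rw [map_mul, map_div₀, hy1, div_one, map_pow, hθ1 s hs.1, one_pow, mul_one]
    exact h2
  have hmod : ∀ i k : ℕ, (∀ s ∈ I, V.valuation ((s w / w) ^ i - (s w / w) ^ k) < 1) → i ≡ k [MOD d] := by
    intro i k hlt
    rcases le_total i k with hir | hir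
    · obtain ⟨m, rfl⟩ := Nat.exists_eq_add_of_le hir
      have h4 : d ∣ m := by
        refine hlev m fun s hs => ?_
        have h5 := hlt s hs
        have h6 : (s w / w) ^ i - (s w / w) ^ (i + m) = -((s w / w) ^ i * ((s w / w) ^ m - 1)) := by ring
        rw [h6, Valuation.map_neg, map_mul, H19C.lv_one (hθ1 s hs.1) i, one_mul] at h5
        exact h5
      exact (Nat.modEq_iff_dvd' (Nat.le_add_right i m)).2 (by rw [Nat.add_sub_cancel_left]; exact h4)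
    · obtain ⟨m, rfl⟩ := Nat.exists_eq_add_of_le hir
      have h4 : d ∣ m := by
        refine hlev m fun s hs => ?_
        have h5 := hlt s hs
        have h6 : (s w / w) ^ (k + m) - (s w / w) ^ k = (s w / w) ^ k * ((s w / w) ^ m - 1) := by ring
        rw [h6, map_mul, H19C.lv_one (hθ1 s hs.1) k, one_mul] at h5
        exact h5
      exact ((Nat.modEq_iff_dvd' (Nat.le_add_right k m)).2 (by rw [Nat.add_sub_cancel_left]; exact h4)).symm
  have hle : ∀ a : 𝓞 F, V.valuation (ak Ω a) ≤ 1 := fun a => H55K.ak_le V a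
  have hθp : ∀ s ∈ I, V.valuation ((s w / w) ^ (r * p) - ak Ω (cj (al s))) < 1 := by
    intro s hs
    have h1 := pow_lt V (H19C.lv_one (hθ1 s hs.1) r).le (hle (al s)) (hθr s hs) p
    obtain ⟨c, hc⟩ := frob_cj hp (by have := dta.five; omega) hπ (al s)
    have h2 : ak Ω (al s) ^ p - ak Ω (cj (al s)) = (p : Ω) * ak Ω c := by
      have h3 := congrArg (fun x : 𝓞 F => ak Ω x) hc
      simpa [ak] using h3
    have h4 : (s w / w) ^ (r * p) - ak Ω (cj (al s)) = (((s w / w) ^ r) ^ p - ak Ω (al s) ^ p) + (p : Ω) * ak Ω c := by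
      rw [← h2, pow_mul]
      ring
    rw [h4]
    refine Valuation.map_add_lt _ h1 ?_
    rw [map_mul]
    exact lt_of_le_of_lt (mul_le_of_le_one_right' (hle c)) hV
  refine ⟨X, om, al, φ, g, rfl, rfl, ⟨hFri, al1, hmemC, hom2, fun k S₁ S₂ hk h₁ h₂ => ?_⟩, L, hLn, vL, hvL, hCL⟩
  refine cnt2 (r := r) (lt_of_lt_of_le (by norm_num) dta.five) hd0 hdp hedb hre S₁ S₂ hk (fun i hi => ?_) (fun i hi => ?_)
  · obtain ⟨a1, a2, a3⟩ := h₁ i hi
    refine ⟨a1, a2, hmod _ _ fun s hs => ?_⟩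
    have h5 : (s w / w) ^ (i + 1) - (s w / w) ^ r = ((s w / w) ^ (i + 1) - ak Ω (al s)) - ((s w / w) ^ r - ak Ω (al s)) := by ring
    rw [h5]
    exact V.valuation.map_sub_lt (a3 s hs.1 hs.2) (hθr s hs)
  · obtain ⟨a1, a2, a3⟩ := h₂ i hi
    refine ⟨a1, a2, hmod _ _ fun s hs => ?_⟩
    have h5 : (s w / w) ^ (i + 1) - (s w / w) ^ (r * p) =
        ((s w / w) ^ (i + 1) - ak Ω (cj (al s))) - ((s w / w) ^ (r * p) - ak Ω (cj (al s))) := by ring
    rw [h5]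
    exact V.valuation.map_sub_lt (a3 s hs.1 hs.2) (hθp s hs)

end SSN
end

-- from Lib.SSN.LK
section

/-! # SSN, chunk LK: the local index at a prime above π, for any prime element π of F (port of H19C/LA2) -/

open NumberField IsDedekindDomain WeierstrassCurve

namespace SSN

open H55P (IQ Pt ac Dec Inert decS Nm)
open H35P (WAB Ker tt)
open H55K (Tor CMA Dta GV ak cj xc yc)
open H19B (DN mem_DN Cc CS mem_CS EF mem_EF)
open H19C (CB CL mem_CB mem_CL)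
open H13S (Abv)

variable {F : Type} [Field F] [NumberField F] [IQ F] {A B : F} {Om : ℂ} {Ω : Type} [Field Ω] [DecidableEq Ω]
  [Algebra F Ω] [IsAlgClosure F Ω] {j : Ω →+* ℂ} {act : 𝓞 F →+* AddMonoid.End (Pt (WAB A B) Ω)} {mo : Ideal (𝓞 F)}
  {ψ : Ideal (𝓞 F) →*₀ 𝓞 F} {p : ℕ} {V : ValuationSubring Ω} {π : 𝓞 F}

/-- The points killed by π and fixed by D. -/
def FT (D : Subgroup (Ω ≃ₐ[F] Ω)) (act : 𝓞 F →+* AddMonoid.End (Pt (WAB A B) Ω)) (π : 𝓞 F) : AddSubgroup (Pt (WAB A B) Ω) where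
  carrier := {T | act π T = 0 ∧ ∀ s ∈ D, ac (WAB A B) s T = T}
  zero_mem' := ⟨map_zero _, fun s _ => map_zero _⟩
  add_mem' := fun h1 h2 => ⟨by rw [map_add, h1.1, h2.1, add_zero], fun s hs => by rw [map_add, h1.2 s hs, h2.2 s hs]⟩
  neg_mem' := fun h1 => ⟨by rw [map_neg, h1.1, neg_zero], fun s hs => by rw [map_neg, h1.2 s hs]⟩


/-- The points of the group E which are images under π of points fixed by D. -/
def KG (D : Subgroup (Ω ≃ₐ[F] Ω)) (act : 𝓞 F →+* AddMonoid.End (Pt (WAB A B) Ω)) (π : 𝓞 F) (E : AddSubgroup (Pt (WAB A B) Ω)) :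
    AddSubgroup (Pt (WAB A B) Ω) where
  carrier := {P | P ∈ E ∧ ∃ Q : Pt (WAB A B) Ω, (∀ s ∈ D, ac (WAB A B) s Q = Q) ∧ act π Q = P}
  zero_mem' := ⟨E.zero_mem, 0, fun s _ => map_zero _, map_zero _⟩
  add_mem' := by
    rintro P P' ⟨h1, Q, h2, h3⟩ ⟨h1', Q', h2', h3'⟩
    exact ⟨E.add_mem h1 h1', Q + Q', fun s hs => by rw [map_add, h2 s hs, h2' s hs], by rw [map_add, h3, h3']⟩
  neg_mem' := by
    rintro P ⟨h1, Q, h2, h3⟩
    exact ⟨E.neg_mem h1, -Q, fun s hs => by rw [map_neg, h2 s hs], by rw [map_neg, h3]⟩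

/-- There are finitely many points killed by π. -/
theorem ft_fin (h : CMA F A B Om j act) (hπ : Prime π) (D : Subgroup (Ω ≃ₐ[F] Ω)) : Finite (FT D act π) := by
  have h1 : Finite (Tor act π) := Nat.finite_of_card_ne_zero (by
    rw [(H55K.S.gi_gen h π hπ).1]
    exact H55K.S.Nm_ne_zero' hπ.ne_zero)
  exact Finite.of_injective (fun T : FT D act π => (⟨T.1, T.2.1⟩ : Tor act π)) fun T T' hTT =>
    Subtype.ext (congrArg (fun R : Tor act π => R.1) hTT)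

/-- The lower bound for the number of local points. -/
theorem kg_index (hA : CMA F A B Om j act) (hG : GV A B V) (hp : p.Prime) (hπ : Prime π) (hd : π ∣ (p : 𝓞 F))
    (hV : V.valuation (ak Ω π) < 1) (N : IntermediateField F Ω) [NumberField N] {v : HeightOneSpectrum (𝓞 N)}
    (hv : Abv N V v) {b : ℕ} (hb0 : 0 < b) (hb : v.valuation N (algebraMap F N (π : F)) = WithZero.exp (-(b : ℤ))) :
    ∃ E : AddSubgroup (Pt (WAB A B) Ω), (∀ P ∈ E, Ker V P ∧ ∀ s ∈ DN N V, ac (WAB A B) s P = P) ∧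
      ((KG (DN N V) act π E).relIndex E ≠ 0 →
        Ideal.absNorm v.asIdeal ^ b * Nat.card (FT (DN N V) act π) ≤ (KG (DN N V) act π E).relIndex E) := by
  classical
  obtain ⟨w, hwN, hw0, hw1, hπw, hval⟩ := H19C.exists_unif2 (V := V) N hv hb0 hb
  obtain ⟨-, hq1, -, -, -, hrs⟩ := H19C.exists_res2 hp hπ hd hV N hv
  have hNf : FiniteDimensional F N := H13X.yn1_fin N
  have hw0v : V.valuation w ≠ 0 := (map_ne_zero _).2 hw0
  have hval' : ∀ y : Ω, y ≠ 0 → (∀ s ∈ DN N V, s y = y) → ∃ i : ℤ, V.valuation y = V.valuation w ^ i := fun y hy hfix =>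
    hval y hy fun s hsN hsI => hfix s (mem_DN.2 ⟨hsN, H55P.inert_dec V s hsI⟩)
  have hq0 : 0 < Ideal.absNorm v.asIdeal := lt_trans zero_lt_one hq1
  refine ⟨EF hG (DN N V) w hw1 0, fun P hP => ⟨hP.1, hP.2.1⟩, fun hKf => ?_⟩
  -- the points killed by π
  have hzero : ∀ T : Pt (WAB A B) Ω, act π T = 0 → T ∈ EF hG (DN N V) w hw1 b → T = 0 := by
    intro T hT hTE
    by_contra h0
    obtain ⟨-, h1⟩ := H55K.tor_ram hA hG hπ hV hT h0
    rw [hπw] at h1
    have h2 : V.valuation (tt T) ^ (Nm π - 1) ≤ (V.valuation w ^ (b + 1)) ^ (Nm π - 1) :=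
      pow_le_pow_left₀ zero_le hTE.2.2 _
    rw [h1, ← pow_mul] at h2
    have h5 : 1 ≤ Nm π - 1 := by
      have h4 := H19B.f2_Nm hp hπ hd
      have h6 : Nm π ≠ 0 := H55K.S.Nm_ne_zero' hπ.ne_zero
      have h7 := Nat.le_of_dvd (Nat.pos_of_ne_zero h6) h4
      have := hp.two_le
      omega
    have h3 : b < (b + 1) * (Nm π - 1) := by
      calc b < b + 1 := Nat.lt_succ_self b
        _ = (b + 1) * 1 := (mul_one _).symm
        _ ≤ (b + 1) * (Nm π - 1) := Nat.mul_le_mul_left _ h5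
    exact absurd h2 (not_le.2 (pow_lt_pow_right_of_lt_one₀ (zero_lt_iff.2 hw0v) hw1 h3))
  have hfin : Finite (FT (DN N V) act π) := ft_fin hA hπ _
  obtain ⟨r, hr, hrr⟩ : ∃ (r : Fin (Nat.card (FT (DN N V) act π)) → Pt (WAB A B) Ω),
      (∀ i, r i ∈ EF hG (DN N V) w hw1 0 ∧ act π (r i) = 0) ∧ ∀ i i', r i - r i' ∈ EF hG (DN N V) w hw1 b → i = i' := by
    refine ⟨fun i => ((Finite.equivFin (FT (DN N V) act π)).symm i).1, fun i => ?_, fun i i' h => ?_⟩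
    · have h1 := ((Finite.equivFin (FT (DN N V) act π)).symm i).2
      exact ⟨H19B.ef_zero hG hw0 hw1 hval' _ (H55K.tor_ker hA hG hπ hV h1.1) h1.2, h1.1⟩
    · have h1 := ((Finite.equivFin (FT (DN N V) act π)).symm i).2.1
      have h2 := ((Finite.equivFin (FT (DN N V) act π)).symm i').2.1
      have h3 := hzero _ (by rw [map_sub, h1, h2, sub_zero]) h
      exact (Finite.equivFin (FT (DN N V) act π)).symm.injective (Subtype.ext (sub_eq_zero.1 h3))
  refine H19C.count_index2 (EF hG (DN N V) w hw1) (H19B.ef_anti hG _ hw1) hq0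
    (H19B.ef_index hA hG hw0 hw1 hwN hq0 hrs hval') (act π) (fun P hP => H19B.ef_act0 hA hG hw1 π P hP) b b
    (fun P hP => H19B.ef_act hA hG hw1 hπw (Nat.le_succ b) P hP) r hr hrr _ ?_ hKf
  rintro P ⟨hP, Q, hQ1, hQ2⟩
  have hKQ : Ker V Q := H55K.ker_red hA hG hπ hV (by rw [hQ2]; exact hP.1)
  exact ⟨Q, H19B.ef_zero hG hw0 hw1 hval' Q hKQ hQ1, hQ2⟩

/-- THE LOCAL INDEX: an upper bound for the number of classes gives an upper bound for the index of the local condition. -/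
theorem loc_index (hA : CMA F A B Om j act) (hG : GV A B V) (hp : p.Prime) (hπ : Prime π) (hd : π ∣ (p : 𝓞 F))
    (hV : V.valuation (ak Ω π) < 1) (N N' : IntermediateField F Ω) [NumberField N] (hNN : N ≤ N')
    {v : HeightOneSpectrum (𝓞 N)} (hv : Abv N V v) {b : ℕ} (hb0 : 0 < b)
    (hb : v.valuation N (algebraMap F N (π : F)) = WithZero.exp (-(b : ℤ)))
    (hne : (CB (DN N V) act π).relIndex (CS (DN N V) act π) ≠ 0) :
    (CL (DN N V) (DN N' V) act π).relIndex (CS (DN N V) act π) ≠ 0 ∧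
      (Ideal.absNorm v.asIdeal ^ b * Nat.card (FT (DN N V) act π)) * (CL (DN N V) (DN N' V) act π).relIndex (CS (DN N V) act π) ≤
        (CB (DN N V) act π).relIndex (CS (DN N V) act π) := by
  classical
  obtain ⟨E, hE1, hE2⟩ := kg_index hA hG hp hπ hd hV N hv hb0 hb
  have hm : DN N' V ≤ DN N V := fun _ hs =>
    mem_DN.2 ⟨IntermediateField.fixingSubgroup_le hNN (mem_DN.1 hs).1, (mem_DN.1 hs).2⟩
  have l3 : CB (DN N V) act π ≤ CL (DN N V) (DN N' V) act π := by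
    rintro c ⟨hc, T, hT, h1⟩
    exact ⟨hc, T, fun s hs => h1 s (hm hs)⟩
  have l4 : CL (DN N V) (DN N' V) act π ≤ CS (DN N V) act π := fun c hc => hc.1
  have h2 := AddSubgroup.relIndex_mul_relIndex _ _ _ l3 l4
  have hne1 : (CB (DN N V) act π).relIndex (CL (DN N V) (DN N' V) act π) ≠ 0 := fun h0 => hne (by rw [← h2, h0, zero_mul])
  have hne2 : (CL (DN N V) (DN N' V) act π).relIndex (CS (DN N V) act π) ≠ 0 := fun h0 => hne (by rw [← h2, h0, mul_zero])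
  refine ⟨hne2, ?_⟩
  -- the Kummer map
  have hex : ∀ P : Pt (WAB A B) Ω, ∃ Q : Pt (WAB A B) Ω, act π Q = P := fun P => hA.surj π hπ.ne_zero P
  choose Qf hQf using hex
  have hQfix : ∀ P ∈ E, ∀ s ∈ DN N V, ac (WAB A B) s (act π (Qf P)) = act π (Qf P) := fun P hP s hs => by
    rw [hQf]
    exact (hE1 P hP).2 s hs
  have h3 := H19B.rel_map (KG (DN N V) act π E) E (CB (DN N V) act π) (CL (DN N V) (DN N' V) act π)
    (fun P s => ac (WAB A B) s (Qf P) - Qf P) (fun P hP => ?_) (fun P hP P' hP' hPP => ?_) hne1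
  · have h4 := (hE2 h3.1).trans h3.2
    rw [← h2]
    exact Nat.mul_le_mul_right _ h4
  · exact ⟨H19B.kum_cc hA (DN N V) (Qf P) (hQfix P hP), Qf P, fun s _ => rfl⟩
  · obtain ⟨-, T, hT, h4⟩ := hPP
    refine ⟨E.sub_mem hP hP', Qf P - Qf P' - T, fun s hs => ?_, ?_⟩
    · have h5 : (ac (WAB A B) s (Qf P) - Qf P) - (ac (WAB A B) s (Qf P') - Qf P') = ac (WAB A B) s T - T := h4 s hs
      rw [map_sub, map_sub]
      have h6 : ac (WAB A B) s (Qf P) - ac (WAB A B) s (Qf P') = (ac (WAB A B) s T - T) + (Qf P - Qf P') := by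
        rw [← h5]
        abel
      rw [h6]
      abel
    · rw [map_sub, map_sub, hQf, hQf, hT, sub_zero]

end SSN
end

-- from Lib.SSN.L6
section

/-! # SSN, chunk L6: the number of local classes with coefficients in E[p], p inert -/

open NumberField IsDedekindDomain WeierstrassCurve

namespace SSN

open H55P (IQ Pt ac Dec Inert decS Nm)
open H35P (WAB Ker tt)
open H55K (Tor CMA Dta GV ak cj)
open H19B (DN mem_DN Cc CS mem_CS rel_le rel_map)
open H19C (Frm CB CL CU mem_CB mem_CL mem_CU)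

variable {F : Type} [Field F] [NumberField F] [IQ F] {A B : F} {Om : ℂ} {Ω : Type} [Field Ω] [DecidableEq Ω]
  [Algebra F Ω] [IsAlgClosure F Ω] {j : Ω →+* ℂ} {act : 𝓞 F →+* AddMonoid.End (Pt (WAB A B) Ω)} {mo : Ideal (𝓞 F)}
  {ψ : Ideal (𝓞 F) →*₀ 𝓞 F} {p : ℕ} {V : ValuationSubring Ω}

/-- The trace modulo p. -/
theorem exists_tr (hP : Prime (p : 𝓞 F)) {g : 𝓞 F} (hg : ¬ (p : 𝓞 F) ∣ g - cj g) : ∃ τ : 𝓞 F →+ ZMod p,
    ∀ x, (∀ z, τ (x * cj z) = 0) → (p : 𝓞 F) ∣ x := by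
  have hex : ∀ x : 𝓞 F, ∃ n : ℤ, x + cj x = (n : 𝓞 F) := H55K.TQ.rf_tr
  choose t ht using hex
  have hadd : ∀ x y, t (x + y) = t x + t y := by
    intro x y
    have h1 : ((t (x + y) : ℤ) : 𝓞 F) = ((t x + t y : ℤ) : 𝓞 F) := by
      push_cast
      rw [← ht, ← ht, ← ht, map_add]
      ring
    exact Int.cast_injective h1
  refine ⟨AddMonoidHom.mk' (fun x => ((t x : ℤ) : ZMod p)) fun x y => by rw [hadd]; push_cast; rfl, fun x hx => ?_⟩
  have h1 : ∀ z, (p : 𝓞 F) ∣ x * cj z + cj x * z := by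
    intro z
    have h2 : ((t (x * cj z) : ℤ) : ZMod p) = 0 := hx z
    obtain ⟨c, hc⟩ := (ZMod.intCast_zmod_eq_zero_iff_dvd _ p).1 h2
    refine ⟨c, ?_⟩
    have h3 := ht (x * cj z)
    rw [map_mul, H55K.cj_cj, hc] at h3
    push_cast at h3
    exact h3
  have h2 := h1 1
  have h3 := h1 g
  rw [map_one, mul_one, mul_one] at h2
  have h4 : (p : 𝓞 F) ∣ x * (g - cj g) := by
    have h5 := dvd_sub (Dvd.dvd.mul_left h2 g) h3
    have e1 : g * (x + cj x) - (x * cj g + cj x * g) = x * (g - cj g) := by ring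
    rwa [e1] at h5
  exact (hP.dvd_or_dvd h4).resolve_right hg

/-- A pairing of the points of order p with 𝓞 F. -/
theorem exists_pair (h : CMA F A B Om j act) (hP : Prime (p : 𝓞 F)) {g : 𝓞 F} (hg : ¬ (p : 𝓞 F) ∣ g - cj g) :
    ∃ e : Pt (WAB A B) Ω → 𝓞 F →+ ZMod p,
      (∀ T T', p • T = 0 → p • T' = 0 → ∀ y, e (T + T') y = e T y + e T' y) ∧
      (∀ T, p • T = 0 → ∀ a y, e (act a T) y = e T (a * y)) ∧
      ∀ T, p • T = 0 → (∀ z, e T (cj z) = 0) → T = 0 := by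
  classical
  obtain ⟨τ, hτ⟩ := exists_tr hP hg
  obtain ⟨-, T₀, hT₀, hgen, hz⟩ := H55K.S.gi_gen h _ hP
  have hact : ∀ T : Pt (WAB A B) Ω, act (p : 𝓞 F) T = p • T := fun T => H55K.S.act_nat p T
  have hτp : ∀ x, τ ((p : 𝓞 F) * x) = 0 := fun x => by
    rw [← nsmul_eq_mul, map_nsmul, nsmul_eq_mul, ZMod.natCast_self, zero_mul]
  have hex : ∀ T : Pt (WAB A B) Ω, ∃ a : 𝓞 F, p • T = 0 → T = act a T₀ := by
    intro T
    by_cases hT : p • T = 0
    · obtain ⟨a, ha⟩ := hgen T (by rw [H55K.S.mem_Tor, hact]; exact hT)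
      exact ⟨a, fun _ => ha⟩
    · exact ⟨0, fun h' => absurd h' hT⟩
  choose co hco using hex
  have hT₀p : p • T₀ = 0 := by rw [← hact]; exact hT₀
  have key : ∀ a y, τ (co (act a T₀) * y) = τ (a * y) := by
    intro a y
    have h1 : p • act a T₀ = 0 := by rw [← map_nsmul, hT₀p, map_zero]
    have h2 := hco _ h1
    have h3 : (p : 𝓞 F) ∣ a - co (act a T₀) := by
      rw [← hz, H55K.S.act_sub, ← h2, sub_self]
    obtain ⟨c, hc⟩ := h3
    have e1 : a * y = co (act a T₀) * y + (p : 𝓞 F) * (c * y) := by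
      linear_combination y * hc
    rw [e1, map_add, hτp, add_zero]
  refine ⟨fun T => τ.comp (AddMonoidHom.mulLeft (co T)), fun T T' hT hT' y => ?_, fun T hT a y => ?_, fun T hT h0 => ?_⟩
  · have h1 := hco T hT
    have h2 := hco T' hT'
    have e1 : T + T' = act (co T + co T') T₀ := by rw [H55K.S.act_add, ← h1, ← h2]
    show τ (co (T + T') * y) = τ (co T * y) + τ (co T' * y)
    rw [e1, key, ← map_add, add_mul]
  · have h1 := hco T hT
    have e1 : act a T = act (a * co T) T₀ := by rw [H55K.S.act_mul, ← h1]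
    show τ (co (act a T) * y) = τ (co T * (a * y))
    rw [e1, key]
    congr 1
    ring
  · have h1 := hco T hT
    obtain ⟨c, hc⟩ := hτ (co T) h0
    rw [h1, hc, mul_comm, H55K.S.act_mul, hact, hT₀p, map_zero]

variable {X : Frm F Ω} {N : IntermediateField F Ω} {om : (Ω ≃ₐ[F] Ω) → ZMod X.p} {al : (Ω ≃ₐ[F] Ω) → 𝓞 F} {φ : Ω ≃ₐ[F] Ω}
  {q : ℕ} {g : 𝓞 F} {b₀ : ℕ}

/-- The index of the cocycles which are trivial on the inertia elements of C. -/
theorem cu_index (h : CMA F A B Om j act) (hE : Fe X N act om al φ q g b₀) {n : ℕ} (hn : 1 ≤ n) (hn2 : DN N X.V ≤ X.C → X.p ^ 2 ≤ n) :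
    (CU (DN N X.V) X.C X.V act (X.p : 𝓞 F)).relIndex (CS (DN N X.V) act (X.p : 𝓞 F)) ≠ 0 ∧
      (CU (DN N X.V) X.C X.V act (X.p : 𝓞 F)).relIndex (CS (DN N X.V) act (X.p : 𝓞 F)) ≤ q ^ (2 * b₀) * n := by
  classical
  have hX := hE.fri
  have hXp : NeZero X.p := ⟨hX.ok.pr.ne_zero⟩
  obtain ⟨e, e1, e2, e3⟩ := exists_pair (p := X.p) h hX.ine hX.gen
  have hact : ∀ T : Pt (WAB A B) Ω, act (X.p : 𝓞 F) T = X.p • T := fun T => H55K.S.act_nat X.p T
  have e0 : ∀ y, e 0 y = 0 := by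
    intro y
    have h1 := e1 0 0 (nsmul_zero _) (nsmul_zero _) y
    rw [add_zero] at h1
    exact left_eq_add.1 h1
  have hep : ∀ T y, e T ((X.p : 𝓞 F) * y) = 0 := fun T y => by
    rw [← nsmul_eq_mul, map_nsmul, nsmul_eq_mul, ZMod.natCast_self, zero_mul]
  obtain ⟨i1, i2⟩ := bi_index hX hE.cnt hn hn2
  have hfixC : ∀ s ∈ X.C, ∀ T : Pt (WAB A B) Ω, X.p • T = 0 → ac (WAB A B) s T = T := fun s hs => ((hE.memC s).1 hs).2
  have hmap := rel_map (CU (DN N X.V) X.C X.V act (X.p : 𝓞 F)) (CS (DN N X.V) act (X.p : 𝓞 F)) (BI X (DN N X.V) om al)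
    (BW X (DN N X.V) om al) (fun c z t => if t ∈ X.C then e (c t) (cj z) else 0) (fun c hc => ?_) (fun c hc c' hc' hcc => ?_) i1
  · exact ⟨hmap.1, hmap.2.trans i2⟩
  · have ht : ∀ s ∈ DN N X.V, X.p • c s = 0 := fun s hs => by rw [← hact]; exact hc.tor s hs
    refine ⟨fun z => ⟨fun s hs t ht' => ?_, fun s hs t ht' => ?_, ?_⟩, fun z z' t ht' => ?_, fun s hs t ht' z => ?_⟩
    · rw [if_pos hs, if_pos ht', if_pos (X.C.mul_mem hs ht'), hc.mul s (hX.le hs) t (hX.le ht'), hfixC s hs _ (ht t (hX.le ht'))]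
      exact e1 _ _ (ht s (hX.le hs)) (ht t (hX.le ht')) _
    · rw [hX.eD] at hs
      rw [hX.ok.om1 s hs, hX.ok.et1 s (hX.eE ▸ hs), one_mul, one_mul]
      have hc1 : s⁻¹ * t * s ∈ X.C := X.C.mul_mem (X.C.mul_mem (X.C.inv_mem hs) ht') hs
      rw [if_pos hc1, if_pos ht']
      have h1 := hc.mul s (hX.le hs) _ (hX.le hc1)
      have h2 : s * (s⁻¹ * t * s) = t * s := by group
      rw [h2, hc.mul t (hX.le ht') s (hX.le hs), hfixC s hs _ (ht _ (hX.le hc1)), hfixC t ht' _ (ht _ (hX.le hs)), add_comm] at h1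
      rw [add_left_cancel h1]
    · obtain ⟨L, hL, hL0⟩ := hc.cont
      refine ⟨L, hL, fun s hs hsL => ?_⟩
      show (if s ∈ X.C then e (c s) (cj z) else 0) = 0
      rw [if_pos hs, hL0 s (hX.le hs) hsL, e0]
    · rw [if_pos ht', if_pos ht', if_pos ht', map_add, map_add]
    · have hc1 : s⁻¹ * t * s ∈ X.C := hX.nrm s hs t ht'
      rw [if_pos hc1, if_pos ht']
      have h1 := hc.mul s hs _ (hX.le hc1)
      have h2 : s * (s⁻¹ * t * s) = t * s := by group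
      rw [h2, hc.mul t (hX.le ht') s hs, hfixC t ht' _ (ht _ hs), add_comm] at h1
      have h3 := add_left_cancel h1
      have h5 : cj (al s * z) = cj (al s) * cj z := map_mul _ _ _
      rw [h3, hE.act s _ (ht _ (hX.le hc1)), e2 _ (ht _ (hX.le hc1)), h5, ← mul_assoc]
      obtain ⟨x, hx⟩ := hE.nrm s
      have h4 : al s * cj (al s) = (((om s).val : ℕ) : 𝓞 F) + (X.p : 𝓞 F) * x := by rw [← hx]; ring
      rw [h4, add_mul, map_add, mul_assoc (X.p : 𝓞 F), hep, add_zero, ← nsmul_eq_mul, map_nsmul, nsmul_eq_mul, ZMod.natCast_zmod_val]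
  · refine ⟨(CS (DN N X.V) act (X.p : 𝓞 F)).sub_mem hc hc', fun t ht' hi => ?_⟩
    have ht : X.p • c t = 0 := by rw [← hact]; exact hc.tor t (hX.le ht')
    have ht2 : X.p • c' t = 0 := by rw [← hact]; exact hc'.tor t (hX.le ht')
    have ht3 : X.p • (c t - c' t) = 0 := by rw [nsmul_sub, ht, ht2, sub_zero]
    refine e3 _ ht3 fun z => ?_
    have h1 := hcc.2 z t ht' hi
    simp only [Pi.sub_apply, if_pos ht'] at h1
    have h2 := e1 (c t - c' t) (c' t) ht3 ht2 (cj z)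
    rw [sub_add_cancel] at h2
    rw [h2, add_sub_cancel_right] at h1
    exact h1

/-- The number of points of order p fixed by D. -/
theorem ft_card (h : CMA F A B Om j act) (hE : Fe X N act om al φ q g b₀) :
    1 ≤ Nat.card (FT (DN N X.V) act (X.p : 𝓞 F)) ∧ (DN N X.V ≤ X.C → Nat.card (FT (DN N X.V) act (X.p : 𝓞 F)) = X.p ^ 2) := by
  have hX := hE.fri
  have hact : ∀ T : Pt (WAB A B) Ω, act (X.p : 𝓞 F) T = X.p • T := fun T => H55K.S.act_nat X.p T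
  have hfin := ft_fin h hX.ine (DN N X.V)
  have : Nonempty (FT (DN N X.V) act (X.p : 𝓞 F)) := ⟨0⟩
  refine ⟨Nat.card_pos, fun hD => ?_⟩
  have h1 : (FT (DN N X.V) act (X.p : 𝓞 F)) = Tor act (X.p : 𝓞 F) := by
    ext T
    refine ⟨fun hT => hT.1, fun hT => ⟨hT, fun s hs => ?_⟩⟩
    exact ((hE.memC s).1 (hD hs)).2 T (by rw [← hact]; exact hT)
  rw [h1, (H55K.S.gi_gen h _ hX.ine).1, H55K.Nm_nat]

/-- The index of the coboundaries. -/
theorem cbu_index (h : CMA F A B Om j act) (hE : Fe X N act om al φ q g b₀) [NumberField N] {v : HeightOneSpectrum (𝓞 N)}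
    (hv : H13S.Abv N X.V v) {L : IntermediateField F Ω} [NumberField L] {vL : HeightOneSpectrum (𝓞 L)} (hvL : H13S.Abv L X.V vL)
    (hCL : X.C = DN L X.V) :
    (CB (DN N X.V) act (X.p : 𝓞 F)).relIndex (CU (DN N X.V) X.C X.V act (X.p : 𝓞 F)) ≠ 0 ∧
      (CB (DN N X.V) act (X.p : 𝓞 F)).relIndex (CU (DN N X.V) X.C X.V act (X.p : 𝓞 F)) ≤ Nat.card (FT (DN N X.V) act (X.p : 𝓞 F)) := by
  classical
  have hX := hE.fri
  have hact : ∀ T : Pt (WAB A B) Ω, act (X.p : 𝓞 F) T = X.p • T := fun T => H55K.S.act_nat X.p T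
  obtain ⟨n1, n2⟩ := ft_card h hE
  by_cases hD : DN N X.V ≤ X.C
  · -- D fixes the points of order p
    obtain ⟨φ', hφN, hφD, hφF⟩ := H13X.exists_frobK N hv
    have hφ : φ' ∈ DN N X.V := mem_DN.2 ⟨hφN, hφD⟩
    have hφ' : ∀ x : Ω, X.V.valuation x ≤ 1 → X.V.valuation (φ' x - x ^ Ideal.absNorm v.asIdeal) < 1 := fun x hx =>
      hφF x ((X.V.valuation_le_one_iff _).1 hx)
    have hfin := ft_fin h hX.ine (DN N X.V)
    have hft : Fintype (FT (DN N X.V) act (X.p : 𝓞 F)) := Fintype.ofFinite _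
    have h1 := rel_le (CB (DN N X.V) act (X.p : 𝓞 F)) (CU (DN N X.V) X.C X.V act (X.p : 𝓞 F)) (fun c => c φ')
      ((Finset.univ : Finset (FT (DN N X.V) act (X.p : 𝓞 F))).image fun T => T.1) (fun c hc => ?_) (fun c hc c' hc' hcc => ?_)
    · refine ⟨h1.1, h1.2.trans ?_⟩
      refine Finset.card_image_le.trans ?_
      rw [Finset.card_univ, Nat.card_eq_fintype_card]
    · have h2 : act (X.p : 𝓞 F) (c φ') = 0 := hc.1.tor φ' hφ
      exact Finset.mem_image.2 ⟨⟨c φ', h2, fun s hs => ((hE.memC s).1 (hD hs)).2 _ (by rw [← hact]; exact h2)⟩, Finset.mem_univ _, rfl⟩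
    · have h2 : Cc (DN N X.V) act (X.p : 𝓞 F) (c - c') := (CS (DN N X.V) act (X.p : 𝓞 F)).sub_mem hc.1 hc'.1
      refine ⟨h2, 0, map_zero _, fun s hs => ?_⟩
      rw [map_zero, sub_zero]
      refine H19C.dn_gen hv h2.mul h2.cont (fun s hs hi => ?_) hφ hφ' ?_ hs
      · rw [Pi.sub_apply, hc.2 s (hD hs) hi, hc'.2 s (hD hs) hi, sub_self]
      · rw [Pi.sub_apply, hcc, sub_self]
  · -- D moves a point
    obtain ⟨s₀, hs₀, hs₀C⟩ : ∃ s ∈ DN N X.V, s ∉ X.C := by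
      by_contra hcon
      push Not at hcon
      exact hD fun s hs => hcon s hs
    have hnd : ¬ (X.p : 𝓞 F) ∣ al s₀ - 1 := fun h' => hs₀C ((hX.alC s₀ hs₀).2 h')
    obtain ⟨u, u', huu⟩ : IsCoprime (X.p : 𝓞 F) (al s₀ - 1) := (hX.ine.irreducible.coprime_iff_not_dvd).2 hnd
    -- division by al s₀ - 1
    have hdiv : ∀ T : Pt (WAB A B) Ω, X.p • T = 0 → T = act u' (ac (WAB A B) s₀ T - T) := by
      intro T hT
      rw [hE.act s₀ T hT]
      have e1 : act (al s₀) T - T = act (al s₀ - 1) T := by rw [H55K.S.act_sub, H55K.S.act_one]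
      rw [e1, ← H55K.S.act_mul]
      have e2 : act (u * (X.p : 𝓞 F) + u' * (al s₀ - 1)) T = T := by rw [huu, H55K.S.act_one]
      rw [H55K.S.act_add, H55K.S.act_mul u, hact, hT, map_zero, zero_add] at e2
      exact e2.symm
    have hle : CU (DN N X.V) X.C X.V act (X.p : 𝓞 F) ≤ CB (DN N X.V) act (X.p : 𝓞 F) := by
      rintro c ⟨hc, hcI⟩
      have ht : ∀ s ∈ DN N X.V, X.p • c s = 0 := fun s hs => by rw [← hact]; exact hc.tor s hs
      have hfixC : ∀ s ∈ X.C, ∀ T : Pt (WAB A B) Ω, X.p • T = 0 → ac (WAB A B) s T = T := fun s hs => ((hE.memC s).1 hs).2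
      obtain ⟨φL, hφN, hφD, hφF⟩ := H13X.exists_frobK L hvL
      have hφC : φL ∈ X.C := by
        rw [hCL]
        exact mem_DN.2 ⟨hφN, hφD⟩
      have hφ' : ∀ x : Ω, X.V.valuation x ≤ 1 → X.V.valuation (φL x - x ^ Ideal.absNorm vL.asIdeal) < 1 := fun x hx =>
        hφF x ((X.V.valuation_le_one_iff _).1 hx)
      have hhom : ∀ s ∈ X.C, ∀ t ∈ DN N X.V, c (s * t) = c s + c t := fun s hs t ht' => by
        rw [hc.mul s (hX.le hs) t ht', hfixC s hs _ (ht t ht')]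
      -- the value at the Frobenius element
      have hφ0 : c φL = 0 := by
        have hk1 : s₀ * φL * s₀⁻¹ ∈ X.C := by
          have h1 := hX.nrm s₀⁻¹ (inv_mem hs₀) φL hφC
          rwa [inv_inv] at h1
        have hk2 : s₀ * φL * s₀⁻¹ * φL⁻¹ ∈ X.C := X.C.mul_mem hk1 (X.C.inv_mem hφC)
        have hk3 : Inert X.V (s₀ * φL * s₀⁻¹ * φL⁻¹) :=
          H19B.comm_inert hX.ok.pr (H19C.vp_lt X hX.ok) s₀ φL (mem_DN.1 hs₀).2 hφD
        have h1 : c (s₀ * φL * s₀⁻¹ * φL⁻¹ * φL) = c φL := by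
          rw [hhom _ hk2 φL (hX.le hφC), hcI _ hk2 hk3, zero_add]
        have h2 : s₀ * φL * s₀⁻¹ * φL⁻¹ * φL = s₀ * φL * s₀⁻¹ := by group
        rw [h2] at h1
        have h3 : c (s₀ * φL * s₀⁻¹ * s₀) = c φL + c s₀ := by rw [hhom _ hk1 s₀ hs₀, h1]
        have h4 : s₀ * φL * s₀⁻¹ * s₀ = s₀ * φL := by group
        rw [h4, hc.mul s₀ hs₀ φL (hX.le hφC), add_comm] at h3
        have h5 : ac (WAB A B) s₀ (c φL) = c φL := add_right_cancel h3
        have h6 := hdiv (c φL) (ht φL (hX.le hφC))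
        rw [h5, sub_self, map_zero] at h6
        exact h6
      -- zero on C
      have hC0 : ∀ s ∈ X.C, c s = 0 := by
        intro s hs
        have hsub : ∀ t ∈ DN L X.V, t ∈ DN N X.V := fun t ht' => hX.le (hCL ▸ ht')
        refine H19C.dn_gen hvL (fun s hs t ht' => hc.mul s (hsub s hs) t (hsub t ht'))
          (by
            obtain ⟨L', hL', hL0⟩ := hc.cont
            exact ⟨L', hL', fun s hs => hL0 s (hsub s hs)⟩)
          (fun s hs hi => hcI s (hCL ▸ hs) hi) (hCL ▸ hφC) hφ' hφ0 (hCL ▸ hs)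
      -- coboundary
      have hcm : ∀ s ∈ DN N X.V, ac (WAB A B) s₀ (c s) - c s = ac (WAB A B) s (c s₀) - c s₀ := by
        intro s hs
        have hk : s * s₀ * s⁻¹ * s₀⁻¹ ∈ X.C := by
          rw [hE.memC]
          refine ⟨mul_mem (mul_mem (mul_mem hs hs₀) (inv_mem hs)) (inv_mem hs₀), fun T hT => ?_⟩
          have hT1 : ∀ r : Ω ≃ₐ[F] Ω, X.p • ac (WAB A B) r T = 0 := fun r => by rw [← map_nsmul, hT, map_zero]
          have h1 : ∀ R : Pt (WAB A B) Ω, X.p • R = 0 → ac (WAB A B) s (ac (WAB A B) s₀ R) = ac (WAB A B) s₀ (ac (WAB A B) s R) := by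
            intro R hR
            have hR1 : ∀ r : Ω ≃ₐ[F] Ω, X.p • ac (WAB A B) r R = 0 := fun r => by rw [← map_nsmul, hR, map_zero]
            rw [hE.act s _ (hR1 s₀), hE.act s₀ R hR, hE.act s₀ _ (hR1 s), hE.act s R hR, ← H55K.S.act_mul, ← H55K.S.act_mul, mul_comm]
          have hR2 : X.p • ac (WAB A B) s⁻¹ (ac (WAB A B) s₀⁻¹ T) = 0 := by rw [← map_nsmul, hT1, map_zero]
          rw [H55K.S.ac_mul, H55K.S.ac_mul, H55K.S.ac_mul, h1 _ hR2, H55K.S.ac_inv, H55K.S.ac_inv]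
        have h1 : c (s * s₀ * s⁻¹ * s₀⁻¹ * (s₀ * s)) = c (s₀ * s) := by
          rw [hhom _ hk _ (mul_mem hs₀ hs), hC0 _ hk, zero_add]
        have h2 : s * s₀ * s⁻¹ * s₀⁻¹ * (s₀ * s) = s * s₀ := by group
        rw [h2, hc.mul s hs s₀ hs₀, hc.mul s₀ hs₀ s hs] at h1
        have h3 : ac (WAB A B) s (c s₀) = c s₀ + ac (WAB A B) s₀ (c s) - c s := by rw [← h1]; abel
        rw [h3]
        abel
      refine ⟨hc, act u' (c s₀), ?_, fun s hs => ?_⟩
      · rw [hact, ← map_nsmul, ht s₀ hs₀, map_zero]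
      · have h1 := hdiv (c s) (ht s hs)
        rw [hcm s hs, map_sub, ← h.gal] at h1
        exact h1
    have h1 : (CB (DN N X.V) act (X.p : 𝓞 F)).relIndex (CU (DN N X.V) X.C X.V act (X.p : 𝓞 F)) = 1 :=
      AddSubgroup.relIndex_eq_one.2 hle
    rw [h1]
    exact ⟨one_ne_zero, n1⟩

/-- THE NUMBER OF LOCAL CLASSES. -/
theorem cs_index (dta : Dta A B Om j act mo ψ p) (hπ : Prime (p : 𝓞 F)) (hV : V.valuation (p : Ω) < 1) (N : IntermediateField F Ω)
    [NumberField N] {v : HeightOneSpectrum (𝓞 N)} (hv : H13S.Abv N V v) {b₀ : ℕ} (hb0 : 0 < b₀)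
    (hb : v.valuation N (algebraMap F N ((p : 𝓞 F) : F)) = WithZero.exp (-(b₀ : ℤ))) :
    (CB (DN N V) act (p : 𝓞 F)).relIndex (CS (DN N V) act (p : 𝓞 F)) ≠ 0 ∧
      (CB (DN N V) act (p : 𝓞 F)).relIndex (CS (DN N V) act (p : 𝓞 F)) ≤
        Ideal.absNorm v.asIdeal ^ (2 * b₀) * Nat.card (FT (DN N V) act (p : 𝓞 F)) ^ 2 := by
  obtain ⟨X, om, al, φ, g, rfl, rfl, hE, L, hL, vL, hvL, hCL⟩ := exists_fe dta hπ hV N hv hb0 hb
  have hA := dta.cma
  obtain ⟨n1, n2⟩ := ft_card hA hE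
  obtain ⟨i1, i2⟩ := cu_index hA hE n1 (fun hD => (n2 hD).ge)
  obtain ⟨k1, k2⟩ := cbu_index hA hE hv hvL hCL
  have l1 : CB (DN N X.V) act (X.p : 𝓞 F) ≤ CU (DN N X.V) X.C X.V act (X.p : 𝓞 F) := by
    rintro c ⟨hc, T, hT, h1⟩
    refine ⟨hc, fun s hs _ => ?_⟩
    rw [h1 s (hE.fri.le hs), ((hE.memC s).1 hs).2 T (by rw [← H55K.S.act_nat (act := act)]; exact hT), sub_self]
  have l2 : CU (DN N X.V) X.C X.V act (X.p : 𝓞 F) ≤ CS (DN N X.V) act (X.p : 𝓞 F) := fun c hc => hc.1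
  have h1 := AddSubgroup.relIndex_mul_relIndex _ _ _ l1 l2
  rw [← h1]
  refine ⟨Nat.mul_ne_zero k1 i1, (Nat.mul_le_mul k2 i2).trans (le_of_eq ?_)⟩
  ring

/-- THE LOCAL INDEX at the primes above an inert prime p. -/
theorem loc_I (dta : Dta A B Om j act mo ψ p) (hπ : Prime (p : 𝓞 F)) (hV : V.valuation (p : Ω) < 1) (N N' : IntermediateField F Ω)
    [NumberField N] (hNN : N ≤ N') {v : HeightOneSpectrum (𝓞 N)} (hv : H13S.Abv N V v) {b₀ : ℕ} (hb0 : 0 < b₀)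
    (hb : v.valuation N (algebraMap F N ((p : 𝓞 F) : F)) = WithZero.exp (-(b₀ : ℤ))) :
    (CL (DN N V) (DN N' V) act (p : 𝓞 F)).relIndex (CS (DN N V) act (p : 𝓞 F)) ≠ 0 ∧
      (CL (DN N V) (DN N' V) act (p : 𝓞 F)).relIndex (CS (DN N V) act (p : 𝓞 F)) ≤
        Ideal.absNorm v.asIdeal ^ b₀ * Nat.card (FT (DN N V) act (p : 𝓞 F)) := by
  have hA := dta.cma
  have hpa : ak Ω (p : 𝓞 F) = (p : Ω) := by simp [ak]
  have hVa : V.valuation (ak Ω (p : 𝓞 F)) < 1 := by rw [hpa]; exact hV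
  obtain ⟨c1, c2⟩ := cs_index dta hπ hV N hv hb0 hb
  obtain ⟨d1, d2⟩ := loc_index hA (dta.good V hV) dta.prime hπ dvd_rfl hVa N N' hNN hv hb0 hb c1
  refine ⟨d1, ?_⟩
  have hfin := ft_fin hA hπ (DN N V)
  have : Nonempty (FT (DN N V) act (p : 𝓞 F)) := ⟨0⟩
  have hpos : 0 < Ideal.absNorm v.asIdeal ^ b₀ * Nat.card (FT (DN N V) act (p : 𝓞 F)) := by
    refine Nat.mul_pos (pow_pos (Nat.pos_of_ne_zero fun h0 => ?_) _) Nat.card_pos
    rw [Ideal.absNorm_eq_zero_iff] at h0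
    exact v.ne_bot h0
  refine Nat.le_of_mul_le_mul_left ((d2.trans c2).trans (le_of_eq ?_)) hpos
  ring

end SSN
end
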