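import Mathlib
import Pool.Agent.Lib.H1M.PP2.D_SSU_G2D
import Pool.Agent.Lib.H1M.PP2.M011
import Pool.Agent.Lib.H1M.PP2.M051
import Pool.Agent.Lib.H1M.PP2.M076
import Pool.Agent.Lib.H1M.PP2.M093
import Pool.Agent.Lib.H1M.PP2.M097
import Pool.Agent.Lib.H1M.PP2.M105
import Pool.Agent.Lib.H1M.PP2.M109
import Pool.Agent.Lib.H1M.PP2.M132
import Pool.Agent.Lib.H1M.PP2.M144

/-! Merged copies (to shorten the build) of Lib.SSA.B2, Lib.SSA.B3, Lib.SSA.B5, Lib.SSA.D1, Lib.SSA.D2, Lib.SSA.L5. -/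

-- from Lib.SSA.B2
section

/-! # SSA, chunk B2 (M): points with given coordinate, division by p -/

open NumberField IsDedekindDomain WeierstrassCurve

namespace SSA

attribute [local instance] H16S.nfOC H16S.ultOC

open H55P (IQ Pt ac Inert Dec Nm)
open H35P (WAB Ker tt)
open H55K
open H16S

variable {F : Type} [Field F] [NumberField F] [IQ F] {A B : F} {Om : ℂ} {Ω : Type} [Field Ω] [DecidableEq Ω]
  [Algebra F Ω] [IsAlgClosure F Ω] {j : Ω →+* ℂ} {act : 𝓞 F →+* AddMonoid.End (Pt (WAB A B) Ω)} {V : ValuationSubring Ω}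
  {C : Type} [NormedField C] [IsUltrametricDist C] {i : Ω →+* C} {p : ℕ}

/-- Chunk B2 (S/M). PROOF. Copy of H16S.q2_surj (z = 0: P = 0; H13X.local_ptt with N = F(z)). Fixed points: gG hG hs P has the coordinate s z = z (q1_act), q1_inj. -/
theorem b2_pt (h : Ctx F p V i) (hA : CMA F A B Om j act) (hG : GV A B V) {z : Ω} (hz : ‖i z‖ < 1) :
    ∃ P : kerG hG, tG i hG P = toC i z ∧ ∀ s : Ω ≃ₐ[F] Ω, Dec V s → s z = z → ac (WAB A B) s P.1 = P.1 := by
  have hal : Algebra.IsAlgebraic F Ω := IsAlgClosure.isAlgebraic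
  obtain ⟨P, hP⟩ : ∃ P : kerG hG, tG i hG P = toC i z := by
    by_cases ht0 : z = 0
    · refine ⟨0, ?_⟩
      rw [ht0]
      exact (q1_zero hG 0).2 rfl
    · have hfin : FiniteDimensional F (IntermediateField.adjoin F {z}) :=
        IntermediateField.adjoin.finiteDimensional (hal.isAlgebraic z).isIntegral
      have ht : V.valuation z < 1 := (n1_lt1 h z).2 hz
      obtain ⟨Q, B₀, -, -, -, hK, htt⟩ := H13X.local_ptt hA hG
        (IntermediateField.mem_adjoin_simple_self F z) ht0 ht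
      exact ⟨⟨Q, hK⟩, congrArg (toC i) htt⟩
  refine ⟨P, hP, fun s hs hsz => ?_⟩
  have h1 : tG i hG (gG hG hs P) = tG i hG P := by
    rw [q1_act, hP, gO_apply, hsz]
  exact congrArg Subtype.val (q1_inj h hG h1)

/-- Chunk B2 (M). Division by p in the kernel of reduction. PROOF. Copy of the proof of H16S.q6 (Lib/H16S/Q6.lean) word for word: the hypothesis that R is of level n is used only at the end, for the fixed points: here gG hG hs R = R is given for the single s. -/
theorem b2_div [CompleteSpace C] (h : Ctx F p V i) (hA : CMA F A B Om j act) (hS : Sup act p) (hG : GV A B V) {R : kerG hG}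
    (h1 : ‖tG i hG R‖ ≤ ‖(p : OC i)‖ ^ 2) :
    ∃ P : kerG hG, ‖tG i hG P‖ ≤ ‖(p : OC i)‖ ∧ p • P = R ∧ ∀ (s : Ω ≃ₐ[F] Ω) (hs : Dec V s), gG hG hs R = R → gG hG hs P = P := by
  classical
  obtain ⟨U, hU⟩ := exists_W (a := A) (b := B)
  obtain ⟨μ, hμ, hμ3⟩ := pt_map (A := A) (B := B) i
  obtain ⟨hp1, hp0⟩ := n1_p h
  have hip : i (p : Ω) = (p : C) := map_natCast i p
  rw [hip] at hp1 hp0
  have hpn : ‖(p : OC i)‖ = ‖(p : C)‖ := by rw [q6_pn, hip]
  obtain ⟨hv1, hv2⟩ := f12_val hA h.pr h.five h.inert hS hG h.above hU i h.mem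
  obtain ⟨hpt1, hpt2⟩ := f12_pt hG (p := p) hU i h.mem
  have hN : 4 ≤ p ^ 2 := by
    have := h.five
    nlinarith
  have hc : ‖i (tt R.1)‖ ≤ ‖(p : C)‖ ^ 2 := by
    rw [← hpn]
    exact h1
  obtain ⟨z, hz, hEz⟩ := q5 hp0 hp1 hN (fun z => ev (i.comp (algebraMap F Ω)) z (TW A B U p).1)
    (fun z hz => (hv1 z hz).2) hv2 hc
  obtain ⟨PC, hPC, hPCz⟩ := hpt2 z (lt_of_le_of_lt hz hp1)
  have hI : H35P.IntW (WR (i (algebraMap F Ω A)) (i (algebraMap F Ω B))) (ball C) := by
    refine ⟨?_, ?_, ?_, ?_, ?_⟩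
    · exact (ball C).zero_mem
    · exact (ball C).zero_mem
    · exact (ball C).zero_mem
    · exact (mem_ball _).2 ((h.mem _).1 hG.a)
    · exact (mem_ball _).2 ((h.mem _).1 hG.b)
  have h2 : (2 : C) ≠ 0 := by
    have h3 : (2 : Ω) ≠ 0 := by
      intro h4
      have h5 := hG.two
      rw [h4, map_zero] at h5
      exact zero_ne_one h5
    have h6 : i (2 : Ω) = (2 : C) := map_ofNat i 2
    rw [← h6]
    exact (map_ne_zero i).2 h3
  have hkn : ∀ m : ℕ, Ker (ball C) (m • PC) := by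
    intro m
    induction m with
    | zero =>
      rw [zero_nsmul]
      trivial
    | succ m ih =>
      rw [succ_nsmul]
      exact H35P.ker_add hI _ _ ih hPC
  have hμR : Ker (ball C) (μ R.1) := (ker_map i h.mem hμ (fun P => (hμ3 P).1) R.1).2 R.2
  have e1 : p • PC = μ R.1 := by
    refine q6_inj h2 hI (hkn p) hμR ?_
    rw [hpt1 PC hPC, hPCz, (hμ3 R.1).2.2]
    exact hEz
  obtain ⟨Q, hQ⟩ := q4 h.pr hA hμ (fun P => ⟨(hμ3 P).1, (hμ3 P).2.1⟩) e1
  have hQk : Ker V Q := by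
    rw [← ker_map i h.mem hμ (fun P => (hμ3 P).1) Q, hQ]
    exact hPC
  have hQz : i (tt Q) = z := by
    rw [← (hμ3 Q).2.2, hQ, hPCz]
  have hpQ : p • Q = R.1 := by
    apply hμ
    rw [map_nsmul, hQ, e1]
  let P : kerG hG := ⟨Q, hQk⟩
  have hPR : p • P = R := Subtype.ext hpQ
  have hPn : ‖tG i hG P‖ ≤ ‖(p : OC i)‖ := by
    rw [hpn]
    show ‖i (tt Q)‖ ≤ _
    rw [hQz]
    exact hz
  refine ⟨P, hPn, hPR, fun s hs hfix => ?_⟩
  have : Algebra.IsAlgebraic F Ω := IsAlgClosure.isAlgebraic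
  have hD0 : gG hG hs P - P = 0 := by
    refine q6_zero (C := C) (i := i) h hA hS hG ?_ ?_
    · rw [nsmul_sub, ← map_nsmul, hPR, sub_eq_zero]
      exact hfix
    · have hlt := q1_lt (i := i) h hG P
      have hlt' := q1_lt (i := i) h hG (gG hG hs P)
      have hsn : ‖tG i hG (gG hG hs P)‖ ≤ ‖(p : OC i)‖ := by
        rw [q1_act]
        show ‖i (s (tt Q))‖ ≤ _
        rw [n1_dec h hs]
        exact hPn
      have hd : ‖tG i hG (gG hG hs P) - tG i hG P‖ ≤ ‖(p : OC i)‖ := by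
        rw [sub_eq_add_neg]
        refine (IsUltrametricDist.norm_add_le_max _ _).trans (max_le hsn ?_)
        rw [norm_neg]
        exact hPn
      have h3 := q1_sub h hG (gG hG hs P) P (i := i)
      have h4 : tG i hG (gG hG hs P - P) = (tG i hG (gG hG hs P - P) -
          (tG i hG (gG hG hs P) - tG i hG P)) + (tG i hG (gG hG hs P) - tG i hG P) := by ring
      rw [h4]
      refine (IsUltrametricDist.norm_add_le_max _ _).trans (max_le (h3.trans ?_) hd)
      calc ‖tG i hG (gG hG hs P) - tG i hG P‖ * max ‖tG i hG (gG hG hs P)‖ ‖tG i hG P‖ ^ 2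
          ≤ ‖(p : OC i)‖ * 1 := by
            refine mul_le_mul hd ?_ (by positivity) (norm_nonneg _)
            exact pow_le_one₀ (le_max_of_le_left (norm_nonneg _)) (max_le hlt'.le hlt.le)
        _ = ‖(p : OC i)‖ := mul_one _
  exact sub_eq_zero.1 hD0

end SSA
end

-- from Lib.SSA.B3
section

/-! # SSA, chunk B3 (M): the points of the kernel of reduction fixed by J satisfy the axioms Sz -/

open NumberField IsDedekindDomain WeierstrassCurve

namespace SSA

attribute [local instance] H16S.nfOC H16S.ultOC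

open H55P (IQ Pt ac Inert Dec Nm)
open H35P (WAB Ker tt)
open H55K
open H16S

variable {F : Type} [Field F] [NumberField F] [IQ F] {A B : F} {Om : ℂ} {Ω : Type} [Field Ω] [DecidableEq Ω]
  [Algebra F Ω] [IsAlgClosure F Ω] {j : Ω →+* ℂ} {act : 𝓞 F →+* AddMonoid.End (Pt (WAB A B) Ω)} {V : ValuationSubring Ω}
  {C : Type} [NormedField C] [IsUltrametricDist C] {i : Ω →+* C} {p e : ℕ} {J : Subgroup (Ω ≃ₐ[F] Ω)} {σ : Ω ≃ₐ[F] Ω} {w : Ω}

private theorem b3_nsub {C : Type} [NormedField C] [IsUltrametricDist C] (x y : C) : ‖x - y‖ ≤ max ‖x‖ ‖y‖ := by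
  rw [sub_eq_add_neg, ← norm_neg y]
  exact IsUltrametricDist.norm_add_le_max _ _

/-- Chunk B3 (S). The coordinate of a point fixed by J is fixed by J (tG i hG P = toC i (tt P.1) by rfl; tt (ac s P) = s (tt P): H55K.tt_ac). -/
theorem b3_fix (hG : GV A B V) (P : PJ hG J) : ∀ s ∈ J, s (tt P.1.1) = tt P.1.1 := by
  intro s hs
  rw [← H55K.tt_ac, P.2 s hs]

/-- Chunk B3 (S/M). The coordinate of a difference has the size of the difference of the coordinates: q1_sub: the error is ≤ ‖difference‖ * (max)^2, which is < ‖difference‖ unless the difference is 0 (q1_lt). -/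
theorem b3_sub (h : Ctx F p V i) (hG : GV A B V) (P Q : kerG hG) : ‖tG i hG (P - Q)‖ = ‖tG i hG P - tG i hG Q‖ := by
  have h1 := q1_sub h hG P Q
  by_cases hu : tG i hG P - tG i hG Q = 0
  · rw [hu, norm_zero, zero_mul, sub_zero] at h1
    rw [hu, norm_zero]
    exact le_antisymm h1 (norm_nonneg _)
  · have h2 : ‖tG i hG (P - Q) - (tG i hG P - tG i hG Q)‖ < ‖tG i hG P - tG i hG Q‖ := by
      refine lt_of_le_of_lt h1 ?_
      refine mul_lt_of_lt_one_right (norm_pos_iff.2 hu) ?_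
      exact pow_lt_one₀ (le_max_of_le_left (norm_nonneg _)) (max_lt (q1_lt h hG P) (q1_lt h hG Q)) two_ne_zero
    have h3 := IsUltrametricDist.norm_add_eq_max_of_norm_ne_norm h2.ne
    rw [sub_add_cancel, max_eq_right h2.le] at h3
    exact h3

/-- Chunk B3 (S). b3_sub, q1_act. -/
theorem b3_delta (h : Ctx F p V i) (hG : GV A B V) {s : Ω ≃ₐ[F] Ω} (hs : Dec V s) (P : kerG hG) :
    ‖tG i hG (gG hG hs P - P)‖ = ‖i (s (tt P.1) - tt P.1)‖ := by
  rw [b3_sub h hG, q1_act]
  rfl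

/-- Chunk B3 (M). The hypothesis d3. PROOF. x = tt P.1.1, ‖i x‖ = ‖i w‖^(k+1), fixed by J (b3_fix). b1_sol: z (‖i z‖ < 1 because k ≥ 1). b2_pt: Q with the coordinate z, fixed by J (b.dec). D = gG Q - Q: tG D - (σ z - z) has norm ≤ ‖σ z - z‖ * ‖z‖^2 (q1_sub, q1_act, b1_iso) < ‖w‖^(k+1)
(‖σ z - z‖ ≤ ‖w‖^(k+1): it is x minus something smaller). So ‖tG P - tG D‖ < ‖w‖^(k+1), b3_sub. -/
theorem b3_sol (h : Ctx F p V i) (hA : CMA F A B Om j act) (hG : GV A B V) (b : Br p e V i J σ w) (P : PJ hG J) {k : ℕ} (hk : ¬ p ∣ k)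
    (h1 : nJ i hG J P = ‖i w‖ ^ (k + 1)) :
    ∃ Q : PJ hG J, nJ i hG J (P - (sJ hG (H55P.inert_dec V σ b.inert) b.nrm Q - Q)) < ‖i w‖ ^ (k + 1) := by
  have hw0 : 0 < ‖i w‖ := norm_pos_iff.2 ((map_ne_zero i).2 b.w0)
  have h1' : ‖i (tt P.1.1)‖ = ‖i w‖ ^ (k + 1) := h1
  obtain ⟨z, hz, hzk, hx⟩ := b1_sol h b (b3_fix hG P) hk h1'
  have hk0 : k ≠ 0 := fun h0 => hk (h0 ▸ dvd_zero p)
  have hz1 : ‖i z‖ < 1 := lt_of_le_of_lt hzk (pow_lt_one₀ (norm_nonneg _) b.w1 hk0)
  obtain ⟨Q, hQ, hfix⟩ := b2_pt h hA hG hz1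
  refine ⟨⟨Q, fun s hs => hfix s (b.dec s hs) (hz s hs)⟩, ?_⟩
  show ‖tG i hG (P.1 - (gG hG (H55P.inert_dec V σ b.inert) Q - Q))‖ < ‖i w‖ ^ (k + 1)
  rw [b3_sub h hG]
  have hσ : tG i hG (gG hG (H55P.inert_dec V σ b.inert) Q) = toC i (σ z) := by
    rw [q1_act, hQ, gO_apply]
  have h2 := q1_sub h hG (gG hG (H55P.inert_dec V σ b.inert) Q) Q
  rw [hσ, hQ, toC_norm, toC_norm, b1_iso h b, max_self, ← toC_sub, toC_norm] at h2
  have h3 : ‖i (σ z - z)‖ ≤ ‖i w‖ ^ (k + 1) := by
    have e1 : i (σ z - z) = i (tt P.1.1) - i (tt P.1.1 - (σ z - z)) := by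
      rw [← map_sub, sub_sub_cancel]
    rw [e1]
    exact (b3_nsub _ _).trans (max_le h1'.le hx.le)
  have h4 : ‖tG i hG (gG hG (H55P.inert_dec V σ b.inert) Q - Q) - toC i (σ z - z)‖ < ‖i w‖ ^ (k + 1) := by
    refine lt_of_le_of_lt h2 ?_
    refine lt_of_le_of_lt (mul_le_mul_of_nonneg_right h3 (sq_nonneg _)) ?_
    exact mul_lt_of_lt_one_right (pow_pos hw0 _) (pow_lt_one₀ (norm_nonneg _) hz1 two_ne_zero)
  have e2 : tG i hG P.1 - tG i hG (gG hG (H55P.inert_dec V σ b.inert) Q - Q)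
      = toC i (tt P.1.1 - (σ z - z)) - (tG i hG (gG hG (H55P.inert_dec V σ b.inert) Q - Q) - toC i (σ z - z)) := by
    rw [toC_sub i (tt P.1.1)]
    show toC i (tt P.1.1) - _ = _
    ring
  rw [e2]
  exact lt_of_le_of_lt (b3_nsub _ _) (max_lt hx h4)

/-- Chunk B3 (M). THE AXIOMS. PROOF. prime, three: h.pr, h.five. le_e: b1_e. zero: q1_zero. neg: q1_neg. add: q1_sub for P, -Q. lev: b.val for tt P.1.1 (k > 0 because ‖i t‖ < 1: q1_lt). sp: σ^p is in J (as endomorphisms: ext; (sJ ..)^k acts by ac (σ^k): induction, H55P.acR map_pow).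
d1, d2: b3_delta and b1. d3: b3_sol. mul: q3: ‖t(pP)‖ ≤ max(‖p‖‖t‖, ‖t‖^(p²), ‖p‖‖t‖²) and ‖t‖ ≤ 1; ‖(p : OC i)‖ = ‖i p‖ (q6_pn) = ‖w‖^e. tor: q6_zero. div: b2_div ((‖w‖^e)^2 = ‖w‖^(2 e)); fixed by J. -/
theorem b3 [CompleteSpace C] (h : Ctx F p V i) (hA : CMA F A B Om j act) (hS : Sup act p) (hG : GV A B V) (b : Br p e V i J σ w) :
    Sz p e ‖i w‖ (nJ i hG J) (sJ hG (H55P.inert_dec V σ b.inert) b.nrm) := by
  have hw0 : 0 < ‖i w‖ := norm_pos_iff.2 ((map_ne_zero i).2 b.w0)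
  have hle : ∀ P : PJ hG J, ‖i (tt P.1.1)‖ ≤ 1 := fun P => (q1_lt h hG P.1).le
  have hpe : ‖(p : OC i)‖ = ‖i w‖ ^ e := by rw [q6_pn, b.ep]
  exact
  { prime := h.pr
    three := by have := h.five; omega
    rho0 := hw0
    rho1 := b.w1
    le_e := b1_e h b
    zero := fun P => by
      show ‖tG i hG P.1‖ = 0 ↔ P = 0
      rw [norm_eq_zero, q1_zero]
      exact ⟨fun h0 => Subtype.ext h0, fun h0 => by rw [h0]; rfl⟩
    neg := fun P => by
      show ‖tG i hG (-P.1)‖ = ‖tG i hG P.1‖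
      rw [q1_neg, norm_neg]
    add := fun P Q => by
      show ‖tG i hG (P.1 + Q.1)‖ ≤ max ‖tG i hG P.1‖ ‖tG i hG Q.1‖
      have h1 := b3_sub h hG P.1 (-Q.1)
      rw [sub_neg_eq_add, q1_neg, sub_neg_eq_add] at h1
      rw [h1]
      exact IsUltrametricDist.norm_add_le_max _ _
    lev := fun P hP => by
      have h1 : tt P.1.1 ≠ 0 := fun h0 => hP (Subtype.ext ((q1_zero (i := i) hG P.1).1 h0))
      obtain ⟨k, hk⟩ := b.val _ h1 (b3_fix hG P)
      have h2 : ‖i (tt P.1.1)‖ < 1 := q1_lt h hG P.1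
      have h3 : 0 < k := by
        by_contra h4
        have h5 : k ≤ 0 := not_lt.1 h4
        have h6 : (1 : ℝ) ≤ ‖i w‖ ^ k := one_le_zpow_of_nonpos₀ hw0 b.w1.le h5
        rw [hk] at h2
        exact absurd h2 (not_lt.2 h6)
      refine ⟨k.toNat, by omega, ?_⟩
      show ‖i (tt P.1.1)‖ = _
      rw [hk, ← zpow_natCast, Int.toNat_of_nonneg h3.le]
    sp := by
      have h1 : ∀ (k : ℕ) (P : PJ hG J), (((sJ hG (H55P.inert_dec V σ b.inert) b.nrm) ^ k) P).1.1 = ac (WAB A B) (σ ^ k) P.1.1 := by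
        intro k
        induction k with
        | zero =>
          intro P
          exact (congrArg (fun f : AddMonoid.End (Pt (WAB A B) Ω) => f P.1.1) ((H55P.acR (WAB A B)).map_one)).symm
        | succ k ih =>
          intro P
          have h2 : ac (WAB A B) (σ ^ k * σ) P.1.1 = ac (WAB A B) (σ ^ k) (ac (WAB A B) σ P.1.1) :=
            congrArg (fun f : AddMonoid.End (Pt (WAB A B) Ω) => f P.1.1) ((H55P.acR (WAB A B)).map_mul (σ ^ k) σ)
          rw [pow_succ, pow_succ, h2]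
          exact ih (sJ hG (H55P.inert_dec V σ b.inert) b.nrm P)
      exact AddMonoidHom.ext fun P => Subtype.ext (Subtype.ext ((h1 p P).trans (P.2 _ b.sp)))
    d1 := fun P => by
      show ‖tG i hG (gG hG (H55P.inert_dec V σ b.inert) P.1 - P.1)‖ ≤ ‖i w‖ * ‖tG i hG P.1‖
      rw [b3_delta h hG]
      exact (b1 h b (b3_fix hG P) (hle P)).1
    d2 := fun P k h1 h2 => by
      show ‖tG i hG (gG hG (H55P.inert_dec V σ b.inert) P.1 - P.1)‖ = ‖i w‖ ^ (k + 1)
      rw [b3_delta h hG]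
      exact (b1 h b (b3_fix hG P) (hle P)).2 k h1 h2
    d3 := fun P k hk h1 => b3_sol h hA hG b P hk h1
    mul := fun P => by
      show ‖tG i hG (p • P.1)‖ ≤ max (‖i w‖ ^ e * ‖tG i hG P.1‖) (‖tG i hG P.1‖ ^ (p ^ 2))
      have h1 := q3 h hA hS hG P.1
      have e1 : tG i hG (p • P.1) = (tG i hG (p • P.1) - p * tG i hG P.1 + tG i hG P.1 ^ p ^ 2) + (p * tG i hG P.1 - tG i hG P.1 ^ p ^ 2) := by
        ring
      rw [e1]
      refine (IsUltrametricDist.norm_add_le_max _ _).trans (max_le ?_ ?_)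
      · refine h1.trans (le_max_of_le_left ?_)
        rw [hpe, sq]
        exact mul_le_mul_of_nonneg_left (mul_le_of_le_one_left (norm_nonneg _) (q1_lt h hG P.1).le) (pow_nonneg hw0.le _)
      · refine (b3_nsub _ _).trans (max_le_max ?_ ?_)
        · rw [norm_mul, hpe]
        · rw [norm_pow]
    tor := fun P h1 h2 => by
      have h3 : p • P.1 = 0 := congrArg Subtype.val h2
      exact Subtype.ext (q6_zero h hA hS hG h3 (by rw [hpe]; exact h1))
    div := fun P h1 => by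
      have h2 : ‖tG i hG P.1‖ ≤ ‖(p : OC i)‖ ^ 2 := by
        rw [hpe, ← pow_mul, mul_comm e 2]
        exact h1
      obtain ⟨Q, hQ, hpQ, hfix⟩ := b2_div h hA hS hG h2
      refine ⟨⟨Q, fun s hs => ?_⟩, ?_, Subtype.ext hpQ⟩
      · have h3 : gG hG (b.dec s hs) P.1 = P.1 := Subtype.ext (P.2 s hs)
        exact congrArg Subtype.val (hfix s (b.dec s hs) h3)
      · show ‖tG i hG Q‖ ≤ ‖i w‖ ^ e
        rw [← hpe]
        exact hQ }

end SSA
end

-- from Lib.SSA.B5
section

/-! # SSA, chunk B5 (M): the vanishing of the cohomology of a weakly ramified extension of degree p -/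

open NumberField IsDedekindDomain WeierstrassCurve

namespace SSA

open H55P (IQ Pt ac Inert Dec Nm)
open H35P (WAB Ker tt)
open H55K
open H16S

variable {F : Type} [Field F] [NumberField F] [IQ F] {A B : F} {Om : ℂ} {Ω : Type} [Field Ω] [DecidableEq Ω]
  [Algebra F Ω] [IsAlgClosure F Ω] {j : Ω →+* ℂ} {act : 𝓞 F →+* AddMonoid.End (Pt (WAB A B) Ω)} {V : ValuationSubring Ω}
  {C : Type} [NormedField C] [IsUltrametricDist C] {i : Ω →+* C} {p e : ℕ} {J : Subgroup (Ω ≃ₐ[F] Ω)} {σ : Ω ≃ₐ[F] Ω} {w : Ω}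

theorem b5_ac (s t : Ω ≃ₐ[F] Ω) (P : Pt (WAB A B) Ω) : ac (WAB A B) (s * t) P = ac (WAB A B) s (ac (WAB A B) t P) :=
  congrArg (fun f : AddMonoid.End (Pt (WAB A B) Ω) => f P) ((H55P.acR (WAB A B)).map_mul s t)

theorem b5_one (P : Pt (WAB A B) Ω) : ac (WAB A B) (1 : Ω ≃ₐ[F] Ω) P = P :=
  congrArg (fun f : AddMonoid.End (Pt (WAB A B) Ω) => f P) ((H55P.acR (F := F) (Ω := Ω) (WAB A B)).map_one)

theorem b5_pow (hG : GV A B V) (hσ : Dec V σ) (hn : ∀ s ∈ J, σ⁻¹ * s * σ ∈ J) (k : ℕ) (P : PJ hG J) :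
    ((sJ hG hσ hn ^ k : AddMonoid.End (PJ hG J)) P).1.1 = ac (WAB A B) (σ ^ k) P.1.1 := by
  induction k with
  | zero =>
    rw [pow_zero, pow_zero, b5_one]
    rfl
  | succ k ih =>
    rw [pow_succ', pow_succ', b5_ac, ← ih]
    rfl

theorem b5_sum (hG : GV A B V) {ι : Type} (s : Finset ι) (f : ι → PJ hG J) : (∑ k ∈ s, f k).1.1 = ∑ k ∈ s, (f k).1.1 := by
  have h1 := map_sum ((kerG hG).subtype.comp (PJ hG J).subtype) f s
  exact h1

/-- Chunk B5 (M). PROOF. σ^k is in the inertia group (H13X.lcb_mul or Subgroup.pow_mem in H55P.inS F V, mem_inS), so ac (σ^k) R - R is in the kernel of reduction (H55K.S.kr_inert). p • R = - sum_k (ac (σ^k) R - R) (the sum of the ac (σ^k) R is 0) is in the kernel, so R is (b4). R as an element P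
of PJ hG J; Nr p (sJ ..) P = 0 (the k-th power of sJ acts as ac (σ^k): induction; coordinates: Subtype.ext). a3 with b3: P = sJ Q - Q; take Q.1.1. -/
theorem b5 [CompleteSpace C] (h : Ctx F p V i) (hA : CMA F A B Om j act) (hS : Sup act p) (hG : GV A B V) (b : Br p e V i J σ w)
    {R : Pt (WAB A B) Ω} (hR : ∀ s ∈ J, ac (WAB A B) s R = R) (hN : ∑ k ∈ Finset.range p, ac (WAB A B) (σ ^ k) R = 0) :
    ∃ Q : Pt (WAB A B) Ω, (∀ s ∈ J, ac (WAB A B) s Q = Q) ∧ R = ac (WAB A B) σ Q - Q := by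
  have hin : ∀ k : ℕ, Inert V (σ ^ k) := fun k =>
    (H55P.inS F V).pow_mem ((H55P.mem_inS V σ).2 b.inert) k
  have h1 : ∀ k : ℕ, ac (WAB A B) (σ ^ k) R - R ∈ kerG hG := fun k => H55K.S.kr_inert hG _ (hin k) R
  have h2 : ∑ k ∈ Finset.range p, (ac (WAB A B) (σ ^ k) R - R) ∈ kerG hG :=
    AddSubgroup.sum_mem _ fun k _ => h1 k
  rw [Finset.sum_sub_distrib, hN, Finset.sum_const, Finset.card_range, zero_sub] at h2
  have h3 : p • R ∈ kerG hG := by
    have h4 := (kerG hG).neg_mem h2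
    rwa [neg_neg] at h4
  have h5 : Ker V R := b4 h hS hG R h3
  obtain ⟨P, hP⟩ : ∃ P : PJ hG J, P.1.1 = R := ⟨⟨⟨R, h5⟩, hR⟩, rfl⟩
  have h6 : Nr p (sJ hG (H55P.inert_dec V σ b.inert) b.nrm) P = 0 := by
    have h7 : Nr p (sJ hG (H55P.inert_dec V σ b.inert) b.nrm) P =
        ∑ k ∈ Finset.range p, (sJ hG (H55P.inert_dec V σ b.inert) b.nrm ^ k : AddMonoid.End (PJ hG J)) P := by
      unfold Nr
      exact AddMonoidHom.finset_sum_apply _ _ _
    rw [h7]
    apply Subtype.ext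
    apply Subtype.ext
    rw [b5_sum]
    simp only [b5_pow]
    rw [hP, hN]
    rfl
  obtain ⟨Q, hQ⟩ := a3 (b3 h hA hS hG b) h6
  refine ⟨Q.1.1, Q.2, ?_⟩
  have h8 := congrArg (fun P : PJ hG J => P.1.1) hQ
  beta_reduce at h8
  rw [hP] at h8
  exact h8

end SSA
end

-- from Lib.SSA.D1
section

/-! # SSA, chunk D1 (M): the local alternative in a step of degree p -/

open NumberField IsDedekindDomain WeierstrassCurve

namespace SSA

open H55P (IQ Pt ac acR Inert Dec Nm inS Coc)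
open H35P (WAB Ker tt)
open H55K
open H16S

variable {F : Type} [Field F] [NumberField F] [IQ F] {A B : F} {Om : ℂ} {Ω : Type} [Field Ω] [DecidableEq Ω]
  [Algebra F Ω] [IsAlgClosure F Ω] {j : Ω →+* ℂ} {act : 𝓞 F →+* AddMonoid.End (Pt (WAB A B) Ω)} {V : ValuationSubring Ω}
  {C : Type} [NormedField C] [IsUltrametricDist C] {i : Ω →+* C} {p : ℕ}

/-- Every element of N outside K generates N modulo K, and its p-th power is in K. -/
def Cyc {G : Type} [Group G] (p : ℕ) (N K : Subgroup G) : Prop :=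
  ∀ σ ∈ N, σ ∉ K → σ ^ p ∈ K ∧ ∀ s ∈ N, ∃ (k : ℕ) (n : G), n ∈ K ∧ s = σ ^ k * n

/-- Chunk D1 (M). PROOF. If all s in N.fixingSubgroup with Inert V s are in K.fixingSubgroup then the given P works. Otherwise σ in N.fixingSubgroup, Inert V σ, not in K.fixingSubgroup. σ⁻¹ s σ in K.fixingSubgroup for s in K.fixingSubgroup: σ maps K to K (hnorm), so s (σ x) = σ x. hcyc: σ^p in K.fixingSubgroup. l3 with hG2: Br for
J = K.fixingSubgroup ⊓ inS F V. b6 with G = Ω ≃ₐ[F] Ω, ρ = acR (WAB A B) (acR_apply), N, K = the fixing subgroups, I = inS F V (mem_inS), H from b5 (the sum of the acR (σ^k) R is the sum of the ac (σ^k) R). The cocycle condition is hc.mul (Coc: H55P). -/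
theorem alt_step [CompleteSpace C] (h : Ctx F p V i) (hA : CMA F A B Om j act) (hS : Sup act p) (hG : GV A B V)
    {N K : IntermediateField F Ω} [NumberField K] (hNK : N ≤ K) (hnorm : ∀ s ∈ N.fixingSubgroup, ∀ x ∈ K, s x ∈ K)
    (hcyc : Cyc p N.fixingSubgroup K.fixingSubgroup)
    (hG2 : ∀ σ ∈ N.fixingSubgroup, Inert V σ → σ ∉ K.fixingSubgroup → G2e V i K σ) : H19B.Alt (WAB A B) p N K V := by
  classical
  intro _ c hc _ hP
  obtain ⟨P, hP⟩ := hP
  by_cases hall : ∀ s ∈ N.fixingSubgroup, Inert V s → s ∈ K.fixingSubgroup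
  · exact ⟨P, fun s hs hi => hP s (hall s hs hi) hi⟩
  · push Not at hall
    obtain ⟨σ, hσN, hσI, hσK⟩ := hall
    obtain ⟨hσp, hg⟩ := hcyc σ hσN hσK
    have hn : ∀ s ∈ K.fixingSubgroup, σ⁻¹ * s * σ ∈ K.fixingSubgroup := by
      intro s hs
      rw [IntermediateField.mem_fixingSubgroup_iff] at hs ⊢
      intro x hx
      have h1 : s (σ x) = σ x := hs _ (hnorm σ hσN x hx)
      change σ⁻¹ (s (σ x)) = x
      rw [h1]
      exact σ.symm_apply_apply x
    obtain ⟨e, w, hb⟩ := l3 h K hσI hn hσp (hG2 σ hσN hσI hσK)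
    obtain ⟨P', hP'⟩ := b6 (acR (WAB A B)) (N := N.fixingSubgroup) (K := K.fixingSubgroup) (I := inS F V)
      (IntermediateField.fixingSubgroup_le hNK) hσN ((H55P.mem_inS V σ).2 hσI) hσp hn hg
      (fun R hR hs => b5 h hA hS hG hb hR hs) (c := c) hc.mul (P := P) (fun s hs hi => hP s hs hi)
    exact ⟨P', fun s hs hi => hP' s hs hi⟩

end SSA
end

-- from Lib.SSA.D2
section

/-! # SSA, chunk D2 (M): steps of degree p; the tower theorem with a local alternative in the steps of degree p -/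

open NumberField IsDedekindDomain WeierstrassCurve

namespace SSA

open H55P
open H19B (Alt)

variable {F : Type} [Field F] [NumberField F] {Ω : Type} [Field Ω] [DecidableEq Ω] [Algebra F Ω]
  [IsAlgClosed Ω] [Algebra.IsAlgebraic F Ω] [CharZero Ω]

omit [DecidableEq Ω] in
/-- Chunk D2 (S/M). PROOF. The beginning of the proof of H19B.sel_stepG (Lib/H19B/ST2.lean): the extension K/N (IntermediateField.extendScalars hNK) is Galois with a group of prime order p (s3_galois, hfr, hcard). σ restricts to an element τ ≠ 1 (s3_restr; σ not in K.fixingSubgroup), which generates (a group of prime order: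
mem_powers_of_prime_card or zpowers_eq_top_of_prime_card), τ^p = 1; s restricts to τ^k (mem_powers_iff_mem_zpowers), n = σ^(-k) s fixes K. (hpow in that proof.) -/
theorem d2_cyc (p : ℕ) (hp : p.Prime) (N K : IntermediateField F Ω) [FiniteDimensional F K] (hNK : N ≤ K)
    (hnorm : ∀ s ∈ N.fixingSubgroup, ∀ x ∈ K, s x ∈ K) (hdeg : Module.finrank F K = Module.finrank F N * p) :
    Cyc p N.fixingSubgroup K.fixingSubgroup := by
  classical
  intro σ hσ hσK
  have hfin := s3_fin N K hNK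
  have hgal := s3_galois N K hNK hnorm
  have hdN : Module.finrank F N ≠ 0 := by
    intro h
    rw [h, zero_mul] at hdeg
    exact (Module.finrank_pos (R := F) (M := K)).ne' hdeg
  have hfr : Module.finrank N (IntermediateField.extendScalars hNK) = p := by
    have h1 := Module.finrank_mul_finrank F N (IntermediateField.extendScalars hNK)
    have h2 : Module.finrank F (IntermediateField.extendScalars hNK) = Module.finrank F K := rfl
    rw [h2, hdeg] at h1
    exact Nat.eq_of_mul_eq_mul_left (Nat.pos_of_ne_zero hdN) h1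
  have hcard : Nat.card Gal((IntermediateField.extendScalars hNK)/N) = p := by
    rw [IsGalois.card_aut_eq_finrank, hfr]
  have : Fact p.Prime := ⟨hp⟩
  obtain ⟨τ, hτ⟩ := s3_restr (IntermediateField.extendScalars hNK) σ hσ
  have hτ1 : τ ≠ 1 := by
    rintro rfl
    apply hσK
    rw [s3_mem]
    intro x hx
    exact (hτ ⟨x, hx⟩).symm
  have hpow : ∀ (i : ℕ) (x : IntermediateField.extendScalars hNK),
      (σ ^ i) (x : Ω) = (((τ ^ i) x : IntermediateField.extendScalars hNK) : Ω) := by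
    intro i
    induction i with
    | zero => intro x; rfl
    | succ n ih =>
      intro x
      rw [pow_succ', pow_succ', AlgEquiv.mul_apply, AlgEquiv.mul_apply, ih, hτ]
  constructor
  · rw [s3_mem]
    intro x hx
    have h4 := hpow p ⟨x, hx⟩
    have h5 : τ ^ p = 1 := by
      rw [← hcard]
      exact pow_card_eq_one'
    rw [h5] at h4
    exact h4
  · intro h hh
    obtain ⟨sh, hsh⟩ := s3_restr (IntermediateField.extendScalars hNK) h hh
    have h1 : sh ∈ Submonoid.powers τ := mem_powers_of_prime_card hcard hτ1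
    obtain ⟨i, hi⟩ := h1
    refine ⟨i, (σ ^ i)⁻¹ * h, ?_, by group⟩
    rw [s3_mem]
    intro x hx
    have h2 : h x = (σ ^ i) x := by
      have h3 := hsh ⟨x, hx⟩
      have h4 := hpow i ⟨x, hx⟩
      have hi' : τ ^ i = sh := hi
      rw [hi', h3] at h4
      exact h4.symm
    rw [AlgEquiv.mul_apply, h2]
    exact (σ ^ i).symm_apply_apply x

/-- Chunk D2 (S). PROOF. Copy of H19B.sel_towerG (Lib/H19B/ST3.lean); the only use of the third alternative is halt V hv N K hMN hNK hKL, where hdeg and hnorm are available. -/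
theorem sel_towerA (W₀ : WeierstrassCurve (𝓞 F)) [(W₀⁄F).IsElliptic] (p : ℕ) (hp : p.Prime)
    (M L : IntermediateField F Ω) (hL : PExt p M L)
    (h0 : ∀ T : Pt (W₀⁄F) Ω, p • T = 0 → (∀ s ∈ M.fixingSubgroup, ac (W₀⁄F) s T = T) → T = 0)
    (hcomm : ∀ s ∈ M.fixingSubgroup, ∀ t ∈ M.fixingSubgroup, ∀ T : Pt (W₀⁄F) Ω, p • T = 0 →
      ac (W₀⁄F) s (ac (W₀⁄F) t T) = ac (W₀⁄F) t (ac (W₀⁄F) s T))
    (hram : ∀ v : HeightOneSpectrum (𝓞 M), Ram M L v.asIdeal → ((p : 𝓞 M) ∉ v.asIdeal ∧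
      ((algebraMap (𝓞 F) (𝓞 M) W₀.Δ ∉ v.asIdeal ∧
        ¬ p ∣ Nat.card (W₀⁄(𝓞 M ⧸ v.asIdeal)).toAffine.Point) ∨
      ∀ V : ValuationSubring Ω, Below V M v.asIdeal → ∀ T : Pt (W₀⁄F) Ω, p • T = 0 →
        (∀ s ∈ L.fixingSubgroup, Inert V s → ac (W₀⁄F) s T = T) → T = 0)) ∨
      ∀ V : ValuationSubring Ω, Below V M v.asIdeal → ∀ N K : IntermediateField F Ω, M ≤ N → N ≤ K → K ≤ L →
        Module.finrank F K = Module.finrank F N * p → (∀ s ∈ N.fixingSubgroup, ∀ x ∈ K, s x ∈ K) → Alt (W₀⁄F) p N K V)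
    (hS : SelZero (W₀⁄F) p M) (K : IntermediateField F Ω) (hMK : M ≤ K) (hKL : K ≤ L) :
    SelZero (W₀⁄F) p K := by
  have hLf : FiniteDimensional F L := hL.fin
  have hMf : FiniteDimensional F M :=
    (Module.Finite.of_injective (IntermediateField.inclusion hL.le).toLinearMap
      (IntermediateField.inclusion hL.le).injective)
  obtain ⟨k, hk⟩ := hL.pow p hp M L
  have hconj : ∀ s ∈ M.fixingSubgroup, ∀ t ∈ L.fixingSubgroup, s * t * s⁻¹ ∈ L.fixingSubgroup :=
    fun s hs t ht => hL.conj p M L s hs t ht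
  have hfin := tors_fin (Ω := Ω) (W₀⁄F) p hp.pos
  -- no torsion over L
  have htL : ∀ T : Pt (W₀⁄F) Ω, p • T = 0 → (∀ s ∈ L.fixingSubgroup, ac (W₀⁄F) s T = T) → T = 0 := by
    intro T hT hf
    exact fix_up (acR (W₀⁄F)) p hp hfin L.fixingSubgroup M.fixingSubgroup
      (fun s hs => fixing_anti hL.le hs) hconj k hk h0 T hT hf
  induction hn : Module.finrank F K using Nat.strong_induction_on generalizing K with
  | _ n ih =>
    rcases eq_or_ne K M with rfl | hne
    · exact hS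
    obtain ⟨N, hMN, hNK, hdeg, hnorm⟩ := chain_step p hp M K L hL hMK hKL hne
    have hKf : FiniteDimensional F K :=
      (Module.Finite.of_injective (IntermediateField.inclusion hKL).toLinearMap
        (IntermediateField.inclusion hKL).injective)
    have hNf : FiniteDimensional F N :=
      (Module.Finite.of_injective (IntermediateField.inclusion hNK).toLinearMap
        (IntermediateField.inclusion hNK).injective)
    have hNpos : 0 < Module.finrank F N := Module.finrank_pos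
    have hlt : Module.finrank F N < n := by
      rw [← hn, hdeg]
      exact lt_mul_of_one_lt_right hNpos hp.one_lt
    have hSN := ih _ hlt N hMN (hNK.trans hKL) rfl
    refine H19B.sel_stepG (W₀⁄F) p hp N K hNK hnorm hdeg
      (fun T hT hf => htL T hT fun s hs => hf s (fixing_anti hKL hs)) (fun V => ?_) hSN
    rcases below_cases M V with ⟨v, hv⟩ | htriv
    · by_cases hr : Ram M L v.asIdeal
      · right
        rcases hram v hr with ⟨hpv, hdisj⟩ | halt
        swap
        · right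
          exact halt V hv N K hMN hNK hKL hdeg hnorm
        obtain ⟨hΔ, hc⟩ | hbad := hdisj
        swap
        · right
          intro _ c hc hpc _
          exact H55K.NB.inert_cob (W₀⁄F) p hp N V (val_below M V v hv p hpv)
            (fun s hs t ht T hT => hcomm s (fixing_anti hMN hs) t (fixing_anti hMN ht) T hT)
            (fun T hT hf => hbad V hv T hT fun s hs hi => hf s (fixing_anti (hNK.trans hKL) hs) hi) c hc hpc
        left
        refine ⟨fun s _ hI P hP => ?_, fun T hT hf => ?_⟩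
        · exact red_fix (W₀⁄F) V (good_below W₀ M V v hv hΔ) p (val_below M V v hv p hpv) s hI P hP
        · refine fix_up (acR (W₀⁄F)) p hp hfin (L.fixingSubgroup ⊓ decS F V)
            (M.fixingSubgroup ⊓ decS F V) ?_ ?_ k ?_ ?_ T hT ?_
          · exact inf_le_inf_right _ fun s hs => fixing_anti hL.le hs
          · intro s hs t ht
            exact ⟨hconj s hs.1 t ht.1,
              (decS F V).mul_mem ((decS F V).mul_mem hs.2 ht.2) ((decS F V).inv_mem hs.2)⟩
          · intro s hs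
            exact ⟨hk s hs.1, (decS F V).pow_mem hs.2 _⟩
          · intro T' hT' hf'
            exact fix_local W₀ p hp M V v hv hΔ hpv hc T' hT' fun s hs hd => hf' s ⟨hs, hd⟩
          · intro s hs
            exact hf s (fixing_anti (hNK.trans hKL) hs.1) hs.2
      · left
        intro s hs hI
        refine fixing_anti hKL (inert_mem M L hL.le hL.norm V ?_ s (fixing_anti hMN hs) hI)
        intro v' hv' hr'
        apply hr
        have : v' = v := by
          apply HeightOneSpectrum.ext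
          ext x
          rw [hv' x, hv x]
        rwa [← this]
    · left
      intro s _ hI
      rw [htriv s hI]
      exact one_mem _

end SSA
end

-- from Lib.SSA.L5
section

/-! # SSA, chunk L5 (M): the condition on the second ramification groups in the steps of the tower -/

open NumberField IsDedekindDomain WeierstrassCurve

namespace SSA

open H55P (IQ Pt ac Inert Dec Nm inS PExt)
open H16S
open SSR (G2 Gp ex)

variable {F : Type} [Field F] [NumberField F] {p : ℕ} {Ω C : Type} [Field Ω] [Algebra F Ω] [IsAlgClosure F Ω] [NormedField C] [IsUltrametricDist C]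
  {V : ValuationSubring Ω} {i : Ω →+* C}

/-- Chunk L5 (M). The prime ideal of the integers of K below V and its powers. PROOF. w = {x in 𝓞 K | ‖i x‖ < 1} is a prime ideal, not 0 (contains p). For a uniformizer ϖ of K at V (Uf) and x in 𝓞 K, x ≠ 0: the number k with ‖i x‖ = ‖i ϖ‖^k is the w-adic exponent of x: choose u in w, not in w^2
(Ideal.exists_mem_pow_notMem_pow_succ); every x ≠ 0 in w^k, not in w^(k+1), has x b = u^k a with a, b in 𝓞 K not in w (a standard fact: span {x} = w^k J, span {u} = w J', J, J' not in w; pick b in J'^k not in w; x b in w^k J J'^k = u^k (...), a the quotient; or localize at w), so ‖i x‖ = ‖i u‖^k; ‖i u‖ = ‖i ϖ‖ because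
every value of K is an integral power of ‖i u‖ and of ‖i ϖ‖ (both < 1). So ‖i x‖ ≤ ‖i ϖ‖^k implies x in w^k. (See the proof of l2_uf.) -/
theorem l5_mem (h : Ctx F p V i) (K : IntermediateField F Ω) [NumberField K] :
    ∃ w : HeightOneSpectrum (𝓞 K), (∀ x : 𝓞 K, x ∈ w.asIdeal ↔ ‖i ((x : K) : Ω)‖ < 1) ∧ (p : 𝓞 K) ∈ w.asIdeal ∧
      ∀ ϖ, Uf V i K ϖ → ∀ (k : ℕ) (x : 𝓞 K), ‖i ((x : K) : Ω)‖ ≤ ‖i ϖ‖ ^ k → x ∈ w.asIdeal ^ k := by
  obtain ⟨W, hW⟩ := H13S.exists_below K V ⟨(p : K)⁻¹, by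
    have e : (((p : K)⁻¹ : K) : Ω) = (p : Ω)⁻¹ := by
      push_cast
      rfl
    rw [e, h.mem, map_inv₀, norm_inv]
    intro h1
    have h2 := (n1_p h).1
    have h3 := (n1_p h).2
    exact absurd h1 (not_le.2 ((one_lt_inv₀ h3).2 h2))⟩
  have hle : ∀ x y : K, ‖i (x : Ω)‖ ≤ ‖i (y : Ω)‖ ↔ W.valuation K x ≤ W.valuation K y := fun x y => (n1_le h _ _).symm.trans (hW.le x y)
  have hmem : ∀ x : 𝓞 K, x ∈ W.asIdeal ↔ ‖i ((x : K) : Ω)‖ < 1 := by
    intro x
    rw [← n1_lt1 h, hW.lt]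
    have h1 : W.valuation K (x : K) = W.intValuation x := W.valuation_of_algebraMap x
    rw [h1, W.intValuation_lt_one_iff_mem]
  refine ⟨W, hmem, ?_, ?_⟩
  · rw [hmem]
    have e : (((p : 𝓞 K) : K) : Ω) = (p : Ω) := by
      push_cast
      rfl
    rw [e]
    exact (n1_p h).1
  · intro ϖ u k x hx
    have h0 : W.valuation K (⟨ϖ, u.mem⟩ : K) ≠ 0 := (Valuation.ne_zero_iff _).2 (fun h0 => u.ne (congrArg Subtype.val h0))
    have h1 : W.valuation K (⟨ϖ, u.mem⟩ : K) < 1 := (hW.lt (⟨ϖ, u.mem⟩ : K)).1 ((n1_lt1 h _).2 u.lt)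
    have h2 : W.valuation K (⟨ϖ, u.mem⟩ : K) ≤ WithZero.exp (-1 : ℤ) := by
      rw [← WithZero.exp_log h0] at h1 ⊢
      rw [← WithZero.exp_zero, WithZero.exp_lt_exp] at h1
      rw [WithZero.exp_le_exp]
      omega
    have h3 : W.valuation K (x : K) ≤ W.valuation K ((⟨ϖ, u.mem⟩ : K) ^ k) := (hle _ _).1 (by
      have e : (((⟨ϖ, u.mem⟩ : K) ^ k : K) : Ω) = ϖ ^ k := by push_cast; rfl
      rw [e, map_pow, norm_pow]
      exact hx)
    have h4 : W.valuation K (x : K) ≤ WithZero.exp (-(k : ℤ)) := by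
      refine h3.trans ?_
      rw [map_pow]
      refine (pow_le_pow_left' h2 k).trans (le_of_eq ?_)
      rw [← WithZero.exp_nsmul]
      congr 1
      simp
    have h5 : W.valuation K (x : K) = W.intValuation x := W.valuation_of_algebraMap x
    rw [h5] at h4
    exact (W.intValuation_le_pow_iff_mem x k).1 h4

theorem l5_types {M N L : IntermediateField F Ω} [NumberField N] [NumberField L] (hMN : M ≤ N) (hNL : N ≤ L)
    (hG : SSU.G2F p M L) (Q : Ideal (𝓞 L)) (hQ : Q.IsPrime) (hp : (p : 𝓞 L) ∈ Q) :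
    letI : Algebra N L := H55P.s13_alg hNL
    G2 N Q := by
  letI : Algebra N L := H55P.s13_alg hNL
  have hac : IsAlgClosed Ω := IsAlgClosure.isAlgClosed F
  have halg : Algebra.IsAlgebraic F Ω := IsAlgClosure.isAlgebraic
  have halgN : Algebra.IsAlgebraic N Ω := Algebra.IsAlgebraic.tower_top (K := F) N
  have hclN : IsAlgClosure N Ω := ⟨hac, halgN⟩
  have hst : IsScalarTower N L Ω := IsScalarTower.of_algebraMap_eq fun x => rfl
  have hnorm : Normal N Ω := normal_iff.2 fun x =>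
    ⟨(Algebra.IsAlgebraic.isAlgebraic x).isIntegral, IsAlgClosed.splits _⟩
  intro s hs
  let σ : Ω ≃ₐ[N] Ω := s.liftNormal Ω
  have hσ : ∀ x : L, σ (x : Ω) = ((s x : L) : Ω) := fun x => s.liftNormal_commutes Ω x
  have hmem : σ.restrictScalars F ∈ M.fixingSubgroup := by
    rw [IntermediateField.mem_fixingSubgroup_iff]
    intro x hx
    exact σ.commutes (⟨x, hMN hx⟩ : N)
  have h1 := hG Q hQ hp (σ.restrictScalars F) hmem (fun x y hxy => by
    have h2 : σ ((x : L) : Ω) = ((y : L) : Ω) := hxy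
    rw [hσ] at h2
    have h3 : s (x : L) = (y : L) := Subtype.ext h2
    have h4 : s • x = y := by
      apply RingOfIntegers.coe_injective
      exact h3
    rw [← h4]
    exact hs x)
  refine AlgEquiv.ext fun x => Subtype.ext ?_
  have h2 := h1 (x : Ω) x.2
  have h3 : σ (x : Ω) = (x : Ω) := h2
  rw [hσ] at h3
  exact h3

/-- Chunk L5 (M). PROOF. L is finite over F (hL.fin), a number field. l5_mem for L: Q, for K: w; w = Q ∩ K (both are described by V). The algebra N → L: s13_alg (Lib/H55P), the same for N → K, K → L, and the tower (IsScalarTower.of_algebraMap_eq, rfl): copy the beginning of SSU.g2_TRam (Lib/SSU/A4.lean), which shows how to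
get IsGalois N L (s13_galois), IsGalois N K, the degree of L over N = p^k, and of SSU.g2_types (same file: copy it; do not import A4), which gives G2 N Q. l4: G2 N w. The restriction τ of σ to K over N (H55P.s3_restr, or AlgEquiv.restrictNormalHom, or build it with hnorm) is ≠ 1 because σ is not in K.fixingSubgroup.
So not Gp w 3 τ: x in 𝓞 K with τ x - x not in w^3. For a uniformizer ϖ: ‖i (σ x - x)‖ > ‖i ϖ‖^3 (otherwise l5_mem with k = 3). x is in K (fixed by K.fixingSubgroup), integral (‖i x‖ ≤ 1: H13S.in2_le or n1_int-like; h.mem). -/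
theorem l5 (h : Ctx F p V i) {M L N K : IntermediateField F Ω} (hp : p.Prime) (hL : PExt p M L) (hG : SSU.G2F p M L) [NumberField N] [NumberField K]
    (hMN : M ≤ N) (hNK : N ≤ K) (hKL : K ≤ L) (hnorm : ∀ s ∈ N.fixingSubgroup, ∀ x ∈ K, s x ∈ K) {σ : Ω ≃ₐ[F] Ω}
    (hσN : σ ∈ N.fixingSubgroup) (hσK : σ ∉ K.fixingSubgroup) : G2e V i K σ := by
  have hac : IsAlgClosed Ω := IsAlgClosure.isAlgClosed F
  have hal : Algebra.IsAlgebraic F Ω := IsAlgClosure.isAlgebraic
  have hcz : CharZero Ω := charZero_of_injective_algebraMap (FaithfulSMul.algebraMap_injective F Ω)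
  have hLf : FiniteDimensional F L := hL.fin
  have hKf : FiniteDimensional F K := H55P.finDim_of_le hKL
  have hNf : FiniteDimensional F N := H55P.finDim_of_le hNK
  have hMf : FiniteDimensional F M := H55P.finDim_of_le hMN
  have hLn : NumberField L := H16C.FR_numberField L
  letI iNK : Algebra N K := H55P.s13_alg hNK
  letI iKL : Algebra K L := H55P.s13_alg hKL
  letI iNL : Algebra N L := H55P.s13_alg (hNK.trans hKL)
  have t1 : IsScalarTower N K L := IsScalarTower.of_algebraMap_eq fun x => rfl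
  have hNL : N ≤ L := hNK.trans hKL
  have hnormL : ∀ s ∈ N.fixingSubgroup, ∀ x ∈ L, s x ∈ L := fun s hs x hx =>
    hL.norm s (IntermediateField.fixingSubgroup_antitone hMN hs) x hx
  have hgalL : IsGalois N L := H55P.s13_galois N L hNL hnormL
  have hgalK : IsGalois N K := H55P.s13_galois N K hNK hnorm
  -- the degree of L over N
  have hdegL : ∃ k : ℕ, Module.finrank N L = p ^ k := by
    obtain ⟨k, hk⟩ := hL.deg
    obtain ⟨j, hj⟩ := H55P.pext_deg p hp M N L hL hMN hNL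
    have hstN : IsScalarTower F N L := IsScalarTower.of_algebraMap_eq fun x => rfl
    have h1 : Module.finrank F N * Module.finrank N L = Module.finrank F L := Module.finrank_mul_finrank F N L
    have hMN' : Module.finrank F N = Module.finrank F M * p ^ j := by
      letI : Algebra M N := (IntermediateField.inclusion hMN).toRingHom.toAlgebra
      have h2 : IsScalarTower F M N := H55P.alg_tower M N hMN
      rw [← Module.finrank_mul_finrank F M N, hj]
    rw [hk, hMN', mul_assoc] at h1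
    have hpos : 0 < Module.finrank F M := Module.finrank_pos
    have h2 : p ^ j * Module.finrank N L = p ^ k := Nat.eq_of_mul_eq_mul_left hpos h1
    obtain ⟨k', -, hk'⟩ := (Nat.dvd_prime_pow hp).1 (Dvd.intro_left _ h2)
    exact ⟨k', hk'⟩
  obtain ⟨k, hk⟩ := hdegL
  intro ϖ u
  obtain ⟨Q, hQ, hpQ, -⟩ := l5_mem h L
  obtain ⟨w, hw, hpw, hwk⟩ := l5_mem h K
  have hQw : Q.asIdeal.under (𝓞 K) = w.asIdeal := by
    ext x
    rw [hw x]
    show algebraMap (𝓞 K) (𝓞 L) x ∈ Q.asIdeal ↔ _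
    rw [hQ]
    exact Iff.rfl
  have hG2 : G2 N Q.asIdeal := l5_types hMN hNL hG Q.asIdeal Q.isPrime hpQ
  have hG2w : G2 N w.asIdeal := l4 p hp k hk Q hpQ hG2 w hQw
  let e : K ≃+* K :=
    { toFun := fun x => ⟨σ x.1, hnorm σ hσN x.1 x.2⟩
      invFun := fun x => ⟨σ⁻¹ x.1, hnorm σ⁻¹ (inv_mem hσN) x.1 x.2⟩
      left_inv := fun x => Subtype.ext (σ.symm_apply_apply x.1)
      right_inv := fun x => Subtype.ext (σ.apply_symm_apply x.1)
      map_mul' := fun x y => Subtype.ext (map_mul σ x.1 y.1)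
      map_add' := fun x y => Subtype.ext (map_add σ x.1 y.1) }
  let t : K ≃ₐ[N] K := AlgEquiv.ofRingEquiv (f := e) (fun x => Subtype.ext (hσN x))
  have ht : t ≠ 1 := by
    intro h1
    apply hσK
    intro x
    have h3 := DFunLike.congr_fun h1 x
    exact congrArg Subtype.val h3
  have hn : ∃ x : 𝓞 K, t • x - x ∉ w.asIdeal ^ 3 := by
    by_contra hc
    push Not at hc
    exact ht (hG2w t hc)
  obtain ⟨x, hx⟩ := hn
  refine ⟨((x : K) : Ω), ?_, ?_, ?_⟩
  · intro s hs
    exact (IntermediateField.mem_fixingSubgroup_iff K s).1 hs.1 _ (x : K).2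
  · rw [← h.mem, ← ValuationSubring.valuation_le_one_iff]
    exact H16C.FR_le_one V (H16C.FR_isIntegral K x)
  · by_contra hc
    rw [not_lt] at hc
    exact hx (hwk ϖ u 3 (t • x - x) hc)

end SSA
end
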