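import Mathlib
import Pool.Agent.Lib.H1M.PP2.D_H13Z_TR
import Pool.Agent.Lib.H1M.PP2.M031
import Pool.Agent.Lib.H1M.PP2.M062
import Pool.Agent.Lib.H1M.PP2.M074
import Pool.Agent.Lib.H1M.PP2.M081
import Pool.Agent.Lib.H1M.PP2.M086
import Pool.Agent.Lib.H1M.PP2.M092
import Pool.Agent.Lib.H1M.PP2.M094
import Pool.Agent.Lib.H1M.PP2.M098
import Pool.Agent.Lib.H1M.PP2.M109
import Pool.Agent.Lib.H1M.PP2.M115
import Pool.Agent.Lib.H1M.PP2.M123
import Pool.Agent.Lib.H1M.PP2.M130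
import Pool.Agent.Lib.H1M.PP2.M133
import Pool.Agent.Lib.H1M.PP2.M146
import Pool.Agent.Lib.H1M.PP2.M147
import Pool.Agent.Lib.H1M.PP2.M149
import Pool.Agent.Lib.H1M.PP2.M152
import Pool.Agent.Lib.H1M.PP2.M154
import Pool.Agent.Lib.H1M.PP2.M163

/-! Merged copies (to shorten the build) of Lib.H19C.LK, Lib.H19C.TR, Lib.SSA.D3. -/

-- from Lib.H19C.LK
section

/-! # H19C, chunk LK: the anomalous primes above p -/

open NumberField IsDedekindDomain WeierstrassCurve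

namespace H19C

open H55P (IQ Pt ac Dec Inert decS Nm Ram)
open H35P (WAB Ker tt GoodW)
open H55K (Tor CMA Dta GV ak cj xc yc not_ker gv_y cls_xy tor_unit ker_red g9_surj kerG ker_ac)
open H55K.S
open H19B (short_iso2)
open H13S (Abv)
open H13X (Dat DecN exists_frobK dec_gen lp_fin lp_adj)

variable {F : Type} [Field F] [NumberField F] [IQ F] {A B : F} {Om : ℂ} {Ω : Type} [Field Ω] [DecidableEq Ω]
  [Algebra F Ω] [IsAlgClosure F Ω] {j : Ω →+* ℂ} {act : 𝓞 F →+* AddMonoid.End (Pt (WAB A B) Ω)} {mo : Ideal (𝓞 F)}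
  {ψ : Ideal (𝓞 F) →*₀ 𝓞 F} {π : 𝓞 F} {l : ℕ} {V : ValuationSubring Ω}

/-- Congruent to its conjugates under the inertia group. -/
theorem lk_inert (hG : GV A B V) {s : Ω ≃ₐ[F] Ω} (hs : Inert V s) {T : Pt (WAB A B) Ω} (hT : ¬ Ker V T) :
    Ker V (ac (WAB A B) s T - T) := by
  have hD := H55P.inert_dec V s hs
  refine cls_xy hG (fun h => hT ((ker_ac s hD).1 h)) hT ?_ ?_
  · rw [xc_ac]
    exact hs _ ((V.valuation_le_one_iff _).1 (not_ker V hT).2)
  · rw [yc_ac]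
    exact hs _ ((V.valuation_le_one_iff _).1 (gv_y hG hT))

/-- p divides the number of points modulo v, v above π: the decomposition group fixes the points killed by the conjugate of π. -/
theorem lk_decP (D : Dat A B Om j act mo ψ π l) (hs : ¬ π ∣ cj π) (W₀ : WeierstrassCurve (𝓞 F)) (hell : W₀.Δ ≠ 0)
    (hA' : A = -(algebraMap (𝓞 F) F W₀.c₄) / 48) (hB' : B = -(algebraMap (𝓞 F) F W₀.c₆) / 864)
    (M : IntermediateField F Ω) [NumberField M] {v : HeightOneSpectrum (𝓞 M)}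
    (hΔ : algebraMap (𝓞 F) (𝓞 M) W₀.Δ ∉ v.asIdeal) (hV : Abv M V v) (hVπ : V.valuation (ak Ω π) < 1)
    (hpts : l ∣ Nat.card (W₀⁄(𝓞 M ⧸ v.asIdeal)).toAffine.Point) :
    ∀ s, DecN M V s → ∀ R ∈ Tor act (cj π), ac (WAB A B) s R = R := by
  have hA := D.cma
  have hcl0 : IsAlgClosed Ω := IsAlgClosure.isAlgClosed F
  have hal0 : Algebra.IsAlgebraic F Ω := IsAlgClosure.isAlgebraic
  have hc0' : CharZero Ω := charZero_of_injective_algebraMap (algebraMap F Ω).injective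
  obtain ⟨hNm, hcj⟩ := H19B.f3_split D.hl D.dta.unr D.pr D.dvd hs
  have hVl : V.valuation (l : Ω) < 1 := by
    have h1 : vo V (l : 𝓞 F) = vo V π * vo V (cj π) := by rw [← hcj, vo_mul]
    rw [← vo_nat (F := F), h1]
    exact lt_of_le_of_lt (mul_le_of_le_one_right' (vo_le V _)) hVπ
  have hGV : GV A B V := D.dta.good V hVl
  have hVc : vo V (cj π) = 1 := vo_unit ((D.pr.irreducible.coprime_iff_not_dvd).2 hs) hVπ
  have hbel : H55P.Below V M v.asIdeal := fun x => by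
    rw [← v.valuation_lt_one_iff_mem (K := M) x]
    exact (hV.lt (x : M)).symm
  have hG : GoodW ((W₀⁄F)⁄Ω) V := H55P.good_below W₀ M V v hbel hΔ
  obtain ⟨Θ, hΘ, hΘK⟩ := short_iso2 (Ω := Ω) W₀ hA' hB' hell V hGV.two hGV.three
  obtain ⟨φ, hφ, hφD, hφF⟩ := exists_frobK M hV
  obtain ⟨X', hc0, hlX, hX⟩ := H13R.lk_XM W₀ M hΔ hV hG D.hl hpts hφ hφF
  obtain ⟨X, hXX⟩ : ∃ X, Θ X' = X := ⟨_, rfl⟩
  have hX0 : ¬ Ker V X := by
    rw [← hXX, hΘK]
    exact hc0
  have hX1 : Ker V (l • X) := by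
    rw [← hXX, ← map_nsmul, hΘK]
    exact hlX
  have hX2 : Ker V (ac (WAB A B) φ X - X) := by
    rw [← hXX, ← hΘ, ← map_sub, hΘK]
    exact hX
  have hX3 : Ker V (act (cj π) X) := by
    refine ker_red hA hGV D.pr hVπ ?_
    rw [← act_mul, hcj, act_nat]
    exact hX1
  obtain ⟨T, hT, hXT⟩ := g9_surj hA hGV hVc hX3
  have hsub : ∀ P Q : Pt (WAB A B) Ω, Ker V P → Ker V Q → Ker V (P - Q) := fun P Q hP hQ => (kerG hGV).sub_mem hP hQ
  have hadd : ∀ P Q : Pt (WAB A B) Ω, Ker V P → Ker V Q → Ker V (P + Q) := fun P Q hP hQ => (kerG hGV).add_mem hP hQ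
  have hTK : ¬ Ker V T := by
    intro h
    have h1 := hadd _ _ hXT h
    rw [sub_add_cancel] at h1
    exact hX0 h1
  have hT0 : T ≠ 0 := by
    rintro rfl
    exact hTK trivial
  have hz : ∀ s : Ω ≃ₐ[F] Ω, Ker V (ac (WAB A B) s T - T) → ac (WAB A B) s T - T = 0 := fun s h =>
    tor_unit hA hGV hVc (T := ac (WAB A B) s T - T) (sub_mem (ac_mem hA s hT) hT) h
  have hφT : ac (WAB A B) φ T - T = 0 := by
    apply hz
    have e : ac (WAB A B) φ T - T = (ac (WAB A B) φ X - X) - (ac (WAB A B) φ (X - T) - (X - T)) := by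
      rw [map_sub]
      abel
    rw [e]
    exact hsub _ _ hX2 (hsub _ _ ((ker_ac φ hφD).2 hXT) hXT)
  have hfin := lp_fin T
  have hfix : ∀ s, DecN M V s → ac (WAB A B) s T = T := by
    intro s hs
    have h0 := dec_gen (A := A) (B := B) (d := fun s => ac (WAB A B) s T - T) hV (fun s _ _ t _ _ => by
        show ac (WAB A B) (s * t) T - T = (ac (WAB A B) s T - T) + ac (WAB A B) s (ac (WAB A B) t T - T)
        rw [ac_mul, map_sub]
        abel)
      ⟨IntermediateField.adjoin F {xc T, yc T}, hfin, fun s _ hs _ => by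
        show ac (WAB A B) s T - T = 0
        rw [lp_adj s T hs, sub_self]⟩
      (fun s _ hi => by
        show ac (WAB A B) s T - T = 0
        exact hz s (lk_inert hGV hi hTK))
      hφ hφD hφF (by show ac (WAB A B) φ T - T = 0; exact hφT) hs.1 hs.2
    exact sub_eq_zero.1 h0
  intro s hs' R hR
  obtain ⟨a, rfl⟩ := H55K.tor_gen hA (H55K.cj_prime D.pr) hT hR hT0
  rw [ac_act hA, hfix s hs']

end H19C
end

-- from Lib.H19C.TR
section

/-! # H19C, chunk TR: points of order p over K give Selmer classes -/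

open NumberField IsDedekindDomain WeierstrassCurve

namespace H19C

open H55P (IQ Pt ac Dec Inert decS Nm Ram Coc)
open H35P (WAB Ker tt)
open H55K (Tor CMA Dta GV ak cj xc yc exists_abw not_ker gv_y cls_xy tor_unit ker_red cj_cj cj_prime cj_dvd cj_nat Abw)
open H55K.S
open H55R (Pl)
open H19B (DN mem_DN)
open H13S (Abv)
open H13X (Dat)
open H13Z (SelNon)

variable {F : Type} [Field F] [NumberField F] [IQ F] {A B : F} {Om : ℂ} {Ω : Type} [Field Ω] [DecidableEq Ω]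
  [Algebra F Ω] [IsAlgClosure F Ω] {j : Ω →+* ℂ} {act : 𝓞 F →+* AddMonoid.End (Pt (WAB A B) Ω)} {mo : Ideal (𝓞 F)}
  {ψ : Ideal (𝓞 F) →*₀ 𝓞 F} {π : 𝓞 F} {l : ℕ} {V : ValuationSubring Ω}

/-- Infinitely many points over N: two of them are congruent. -/
theorem tr_pig (hG : GV A B V) (hp : l.Prime) (hπ : Prime π) (hd : π ∣ (l : 𝓞 F)) (hV : V.valuation (ak Ω π) < 1)
    (N : IntermediateField F Ω) [NumberField N] {v : HeightOneSpectrum (𝓞 N)} (hv : Abv N V v) (R : ℕ → Pt (WAB A B) Ω)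
    (hR : ∀ n, ∀ s ∈ DN N V, ac (WAB A B) s (R n) = R n) (hne : ∀ n, ¬ Ker V (R n)) :
    ∃ n m, n < m ∧ Ker V (R m - R n) := by
  obtain ⟨φ, -, -, -, -, r, hr1, hr2, hr3⟩ := exists_res2 hp hπ hd hV N hv
  have hx : ∀ n, ∃ i, V.valuation (xc (R n) - r i) < 1 := fun n =>
    hr3 _ (fun s hs => by rw [← xc_ac, hR n s hs]) (not_ker V (hne n)).2
  have hy : ∀ n, ∃ i, V.valuation (yc (R n) - r i) < 1 := fun n =>
    hr3 _ (fun s hs => by rw [← yc_ac, hR n s hs]) (gv_y hG (hne n))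
  choose ix hix using hx
  choose iy hiy using hy
  have hk : ∀ n m, (ix n, iy n) = (ix m, iy m) → Ker V (R m - R n) := by
    intro n m h
    have h1 : ix n = ix m := congrArg Prod.fst h
    have h2 : iy n = iy m := congrArg Prod.snd h
    refine cls_xy hG (hne m) (hne n) ?_ ?_
    · have e : xc (R m) - xc (R n) = (xc (R m) - r (ix m)) - (xc (R n) - r (ix n)) := by
        rw [h1]
        ring
      rw [e]
      exact Valuation.map_sub_lt _ (hix m) (hix n)
    · have e : yc (R m) - yc (R n) = (yc (R m) - r (iy m)) - (yc (R n) - r (iy n)) := by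
        rw [h2]
        ring
      rw [e]
      exact Valuation.map_sub_lt _ (hiy m) (hiy n)
  obtain ⟨n, m, hnm, h⟩ := Finite.exists_ne_map_eq_of_infinite (fun n : ℕ => (ix n, iy n))
  rcases lt_or_gt_of_ne hnm with h1 | h1
  · exact ⟨n, m, h1, hk n m h⟩
  · exact ⟨m, n, h1, hk m n h.symm⟩

/-- Some point over K is not l times a point over K. -/
theorem tr_div (D : Dat A B Om j act mo ψ π l) (hs : ¬ π ∣ cj π) (K : IntermediateField F Ω) [NumberField K]
    {R : Pt (WAB A B) Ω} (hR : act (cj π) R = 0) (h0 : R ≠ 0) (hf : ∀ s ∈ K.fixingSubgroup, ac (WAB A B) s R = R) :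
    ∃ Q : Pt (WAB A B) Ω, (∀ s ∈ K.fixingSubgroup, ac (WAB A B) s Q = Q) ∧
      ∀ S : Pt (WAB A B) Ω, (∀ s ∈ K.fixingSubgroup, ac (WAB A B) s S = S) → l • S ≠ Q := by
  have hA := D.cma
  have hπ := D.pr
  obtain ⟨hNm, hcj⟩ := H19B.f3_split D.hl D.dta.unr hπ D.dvd hs
  -- V above π
  let v₀ : HeightOneSpectrum (𝓞 F) := ⟨Ideal.span {π}, (Ideal.span_singleton_prime hπ.ne_zero).2 hπ, by
    rw [Ne, Ideal.span_singleton_eq_bot]
    exact hπ.ne_zero⟩
  obtain ⟨V, hV₀⟩ := exists_abw Ω v₀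
  have hVπ : V.valuation (ak Ω π) < 1 := by
    have h1 : v₀.valuation F (π : F) < 1 := by
      have h2 := (v₀.valuation_lt_one_iff_mem (K := F) π).2 (Ideal.mem_span_singleton_self π)
      exact h2
    exact (hV₀.lt _).2 h1
  have hVl : V.valuation (l : Ω) < 1 := by
    have h1 : vo V (l : 𝓞 F) = vo V π * vo V (cj π) := by rw [← hcj, vo_mul]
    rw [← vo_nat (F := F), h1]
    exact lt_of_le_of_lt (mul_le_of_le_one_right' (vo_le V _)) hVπ
  have hG : GV A B V := D.dta.good V hVl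
  have hVc : vo V (cj π) = 1 := by
    exact vo_unit ((hπ.irreducible.coprime_iff_not_dvd).2 hs) hVπ
  have hVt : V ≠ ⊤ := by
    rintro rfl
    have h1 : (⊤ : ValuationSubring Ω).valuation (ak Ω π) = 1 := by
      refine le_antisymm (H55K.S.vo_le _ _) (not_lt.1 fun h => ?_)
      have h2 : (⊤ : ValuationSubring Ω).valuation (ak Ω π)⁻¹ ≤ 1 := ((⊤ : ValuationSubring Ω).valuation_le_one_iff _).2 trivial
      rw [map_inv₀] at h2
      have h3 : (⊤ : ValuationSubring Ω).valuation (ak Ω π) ≠ 0 := vo_ne _ hπ.ne_zero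
      exact absurd ((inv_le_one₀ (zero_lt_iff.2 h3)).1 h2) (not_le.2 h)
    rw [h1] at hVπ
    exact lt_irrefl _ hVπ
  obtain ⟨v, hv⟩ := H13X.xg3_below (F := F) K hVt
  by_contra hcon
  push Not at hcon
  have step : ∀ q : {Q : Pt (WAB A B) Ω // ∀ s ∈ K.fixingSubgroup, ac (WAB A B) s Q = Q},
      ∃ s : {Q : Pt (WAB A B) Ω // ∀ s ∈ K.fixingSubgroup, ac (WAB A B) s Q = Q}, l • s.1 = q.1 := by
    rintro ⟨Q, hQ⟩
    obtain ⟨S, hS, h1⟩ := hcon Q hQ
    exact ⟨⟨S, hS⟩, h1⟩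
  choose f hfl using step
  let Rn : ℕ → {Q : Pt (WAB A B) Ω // ∀ s ∈ K.fixingSubgroup, ac (WAB A B) s Q = Q} := fun n => f^[n] ⟨R, hf⟩
  have hsucc : ∀ n, Rn (n + 1) = f (Rn n) := fun n => Function.iterate_succ_apply' f n _
  have h1 : ∀ n, l ^ n • (Rn n).1 = R := by
    intro n
    induction n with
    | zero =>
      rw [pow_zero, one_smul]
      rfl
    | succ n ih => rw [pow_succ, mul_smul, hsucc, hfl, ih]
  have hmul : ∀ (a b : 𝓞 F) (X : Pt (WAB A B) Ω), act (a * b) X = act a (act b X) := fun a b X => act_mul a b X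
  have hnat : ∀ (k : ℕ) (X : Pt (WAB A B) Ω), act (k : 𝓞 F) X = k • X := fun k X => act_nat k X
  have hlR : l • R = 0 := by
    rw [← hnat, ← hcj, hmul, hR, map_zero]
  have h3 : ∀ n, act ((cj π) ^ (n + 1)) (act (π ^ (n + 1)) (Rn n).1) = 0 := by
    intro n
    have e : (cj π) ^ (n + 1) * π ^ (n + 1) = ((l ^ (n + 1) : ℕ) : 𝓞 F) := by
      rw [← mul_pow, mul_comm, hcj]
      push_cast
      rfl
    rw [← hmul, e, hnat, pow_succ', mul_smul, h1, hlR]
  have hRK : ¬ Ker V R := fun h => h0 (tor_unit hA hG hVc hR h)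
  have h4 : ∀ k, ¬ Ker V (act (π ^ k) R) := by
    intro k
    induction k with
    | zero =>
      rw [pow_zero, act_one]
      exact hRK
    | succ k ih =>
      rw [pow_succ', hmul]
      exact fun h => ih (ker_red hA hG hπ hVπ h)
  have h5 : ∀ n, l ^ n • act (π ^ (n + 1)) (Rn n).1 = act (π ^ (n + 1)) R := by
    intro n
    rw [← map_nsmul, h1]
  have hVp : ∀ n, V.valuation (ak Ω ((cj π) ^ n)) = 1 := by
    intro n
    have e := vo_pow V (cj π) n
    rw [hVc, one_pow] at e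
    exact e
  have hk0 : ¬ ¬ Ker V (0 : Pt (WAB A B) Ω) := fun h => h trivial
  have h6 : ∀ n, ¬ Ker V (act (π ^ (n + 1)) (Rn n).1) := by
    intro n h
    have h7 := tor_unit hA hG (hVp (n + 1)) (T := act (π ^ (n + 1)) (Rn n).1) (h3 n) h
    have h8 := h5 n
    rw [h7, smul_zero] at h8
    exact h4 (n + 1) (by rw [← h8]; trivial)
  obtain ⟨n, m, hnm, hK⟩ := tr_pig hG D.hl hπ D.dvd hVπ K hv (fun n => act (π ^ (n + 1)) (Rn n).1)
    (fun n s hs => by
      show ac (WAB A B) s (act (π ^ (n + 1)) (Rn n).1) = act (π ^ (n + 1)) (Rn n).1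
      rw [ac_act hA, (Rn n).2 s (mem_DN.1 hs).1]) h6
  have h7 : act (π ^ (m + 1)) (Rn m).1 - act (π ^ (n + 1)) (Rn n).1 = 0 := by
    refine tor_unit hA hG (hVp (m + 1)) (T := act (π ^ (m + 1)) (Rn m).1 - act (π ^ (n + 1)) (Rn n).1) ?_ hK
    show act ((cj π) ^ (m + 1)) (act (π ^ (m + 1)) (Rn m).1 - act (π ^ (n + 1)) (Rn n).1) = 0
    have e : (cj π) ^ (m + 1) = (cj π) ^ (m - n) * (cj π) ^ (n + 1) := by
      rw [← pow_add]
      congr 1
      omega
    rw [map_sub, h3 m, e, hmul, h3 n, map_zero, sub_zero]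
  have h8 : l ^ m • act (π ^ (m + 1)) (Rn m).1 = 0 := by
    rw [sub_eq_zero.1 h7]
    have e : l ^ m = l ^ (m - n - 1) * (l * l ^ n) := by
      rw [← pow_succ', ← pow_add]
      congr 1
      omega
    rw [e, mul_smul, mul_smul, h5, ← map_nsmul, hlR, map_zero, smul_zero]
  have h9 := h5 m
  rw [h8] at h9
  exact h4 (m + 1) (by rw [← h9]; trivial)

/-- POINTS OF ORDER l GIVE SELMER CLASSES. -/
theorem tr_sel (D : Dat A B Om j act mo ψ π l) (hs : ¬ π ∣ cj π) (K : IntermediateField F Ω) [NumberField K]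
    {R : Pt (WAB A B) Ω} (hR : l • R = 0) (h0 : R ≠ 0) (hf : ∀ s ∈ K.fixingSubgroup, ac (WAB A B) s R = R) :
    SelNon (WAB A B) l K := by
  have hA := D.cma
  have halg : Algebra.IsAlgebraic F Ω := IsAlgClosure.isAlgebraic
  obtain ⟨hNm, hcj⟩ := H19B.f3_split D.hl D.dta.unr D.pr D.dvd hs
  have hs' : ¬ cj π ∣ cj (cj π) := by
    intro h
    apply hs
    rw [← cj_dvd] at h
    rw [cj_cj] at h
    exact h
  obtain ⟨Q, hQ, hQl⟩ : ∃ Q : Pt (WAB A B) Ω, (∀ s ∈ K.fixingSubgroup, ac (WAB A B) s Q = Q) ∧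
      ∀ S : Pt (WAB A B) Ω, (∀ s ∈ K.fixingSubgroup, ac (WAB A B) s S = S) → l • S ≠ Q := by
    by_cases h : act (cj π) R = 0
    · exact tr_div D hs K h h0 hf
    · refine tr_div D.conj hs' K (R := act (cj π) R) ?_ h fun s hs => ?_
      · rw [cj_cj, ← act_mul, hcj, act_nat, hR]
      · rw [ac_act hA, hf s hs]
  obtain ⟨S, hS⟩ := hA.surj (l : 𝓞 F) (by exact_mod_cast D.hl.ne_zero) Q
  rw [act_nat] at hS
  refine ⟨fun s => ac (WAB A B) s S - S, ⟨fun s _ t _ => ?_, ?_⟩, fun s hsK => ?_, fun V _ => ⟨S, fun s _ _ => rfl⟩, ?_⟩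
  · show ac (WAB A B) (s * t) S - S = (ac (WAB A B) s S - S) + ac (WAB A B) s (ac (WAB A B) t S - S)
    rw [map_sub, ac_mul]
    abel
  · obtain ⟨L, hL, hLS⟩ := H55P.pt_open (WAB A B) S
    refine ⟨L, hL, fun s _ hs' => ?_⟩
    show ac (WAB A B) s S - S = 0
    rw [hLS s hs', sub_self]
  · show l • (ac (WAB A B) s S - S) = 0
    rw [smul_sub, ← map_nsmul, hS, hQ s hsK, sub_self]
  · rintro ⟨T, hT, h⟩
    refine hQl (S - T) (fun s hsK => ?_) ?_
    · have h1 : ac (WAB A B) s S - S = ac (WAB A B) s T - T := h s hsK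
      rw [map_sub]
      rw [sub_eq_sub_iff_sub_eq_sub] at h1
      exact h1
    · rw [smul_sub, hS, hT, sub_zero]

end H19C
end

-- from Lib.SSA.D3
section

/-! # SSA, chunk D3 (M): the Selmer group in p-extensions with trivial second ramification groups at the primes above the inert prime p -/

open NumberField IsDedekindDomain WeierstrassCurve

namespace SSA

open H55P (IQ embF eF LF Per IsHecke Pt ac acR Inert Dec Nm UnitP Ram RamF PExt SelG ShaG PtsG clos Below)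
open H35P (WAB Ker tt GoodW IntW)
open H55K.TQ
open H13R (BadM NoRel)
open H19B (Alt)

variable {F : Type} [Field F] [NumberField F] [IQ F] {W₀ : WeierstrassCurve (𝓞 F)} {Om : ℂ}
    {m : Ideal (𝓞 F)} {ψ : Ideal (𝓞 F) →*₀ 𝓞 F} {p : ℕ}

open Classical in
/-- Chunk D3 (M). The local alternative for W₀ (defined over ℤ). -/
theorem alt_w0A (hH : BaseH F W₀ Om m ψ) (hp : PrimeH F W₀ p) (hin : (Ideal.span {(p : 𝓞 F)}).IsPrime)
    (hZ : ∃ W : WeierstrassCurve ℤ, W₀ = W⁄(𝓞 F))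
    {M L : IntermediateField F (AlgebraicClosure F)} [NumberField M] (hL : PExt p M L) (hG : SSU.G2F p M L) (v : HeightOneSpectrum (𝓞 M))
    (hpv : (p : 𝓞 M) ∈ v.asIdeal) (V : ValuationSubring (AlgebraicClosure F))
    (hV : Below V M v.asIdeal) (N K : IntermediateField F (AlgebraicClosure F)) (hMN : M ≤ N) (hNK : N ≤ K) (hKL : K ≤ L)
    (hdeg : Module.finrank F K = Module.finrank F N * p) (hnorm : ∀ s ∈ N.fixingSubgroup, ∀ x ∈ K, s x ∈ K) :
    Alt (W₀⁄F) p N K V := by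
  obtain ⟨W, rfl⟩ := hZ
  have hLf : FiniteDimensional F L := hL.fin
  have hKf : FiniteDimensional F K := H55P.finDim_of_le hKL
  have hNf : FiniteDimensional F N := H55P.finDim_of_le (hNK.trans hKL)
  have hNn : NumberField N := NumberField.of_module_finite F N
  have hKn : NumberField K := NumberField.of_module_finite F K
  have hfact : Fact p.Prime := ⟨hp.prime⟩
  have hinP : Prime (p : 𝓞 F) := (Ideal.span_singleton_prime (Nat.cast_ne_zero.2 hp.prime.ne_zero)).1 hin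
  obtain ⟨A, B, j, act, hA, hB, dta⟩ := SSG.exists_dtaAB hH hp
  have hVp : V.valuation (p : AlgebraicClosure F) < 1 := by
    have h1 := (hV (p : 𝓞 M)).1 hpv
    have e1 : ((((p : ℕ) : 𝓞 M) : M) : AlgebraicClosure F) = (p : AlgebraicClosure F) := by simp
    rwa [e1] at h1
  have hGV : H55K.GV A B V := dta.good V hVp
  obtain ⟨Θ, hΘ, hΘK⟩ := H19B.short_iso2 (Ω := AlgebraicClosure F) (W⁄(𝓞 F)) hA hB hH.data.ell V hGV.two hGV.three
  obtain ⟨i, hi⟩ := SSG.LP.exists_embC (F := F) V hVp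
  have h : H16S.Ctx F p V i := ⟨hp.prime, hp.five, hinP, hVp, hi⟩
  have hS : H16S.Sup act p := H16S.s1 hH hp hinP hA hB dta
  exact H19B.alt_iso Θ hΘ (alt_step h dta.cma hS hGV hNK hnorm (d2_cyc p hp.prime N K hNK hnorm hdeg)
    (fun σ hσN _ hσK => l5 h hp.prime hL hG hMN hNK hKL hnorm hσN hσK))


end SSA
end
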