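import Mathlib
import Pool.Agent.Lib.H1M.PP2.D_H13R_D
import Pool.Agent.Lib.H1M.PP2.M107
import Pool.Agent.Lib.H1M.PP2.M108
import Pool.Agent.Lib.H1M.PP2.M154
import Pool.Agent.Lib.H1M.PP2.M159
import Pool.Agent.Lib.H1M.PP2.M160
import Pool.Agent.Lib.H1M.PP2.M166

/-! Merged copies (to shorten the build) of Lib.H19C.GT2, Lib.H19C.GT3, Lib.H19C.CH, Lib.H19C.Main, Lib.SSN.LI. -/

-- from Lib.H19C.GT2
section

/-! # H19C, chunk GT2: the selection of a class by counting -/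

open NumberField IsDedekindDomain WeierstrassCurve

namespace H19C

open H55P (IQ Pt ac Dec Inert decS Nm Ram)
open H35P (WAB Ker tt)
open H55K (Tor CMA Dta GV ak cj xc yc Lft TFld Abw)
open H55K.S
open H55R (Pl ord smulP)
open H19B (DN mem_DN Cc CS mem_CS)
open H13S (Abv)
open H13X (Dat IsTB DecN algNL loc_zero JV)
open H13Y (guN exists_teich)
open H99B (pw cf)

variable {F : Type} [Field F] [NumberField F] [IQ F] {A B : F} {Om : ℂ} {Ω : Type} [Field Ω] [DecidableEq Ω]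
  [Algebra F Ω] {j : Ω →+* ℂ} {act : 𝓞 F →+* AddMonoid.End (Pt (WAB A B) Ω)} {mo : Ideal (𝓞 F)}
  {ψ : Ideal (𝓞 F) →*₀ 𝓞 F}

variable {π : 𝓞 F} {l : ℕ} {e : Pt (WAB A B) Ω → Pt (WAB A B) Ω → Ω} {N N' L : IntermediateField F Ω}
  {c c' : (Ω ≃ₐ[F] Ω) → Pt (WAB A B) Ω} {V V₀ : ValuationSubring Ω}

variable [IsAlgClosure F Ω]

omit [IsAlgClosure F Ω] in
theorem cc_of (C : H13X.Cc act π N c) : Cc N.fixingSubgroup act (cj π) c :=
  ⟨C.mul, fun s hs => C.val s hs, by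
    obtain ⟨M, hM, h⟩ := C.cont
    exact ⟨M, hM, fun s hs hs' => h s hs hs'⟩⟩

omit [IsAlgClosure F Ω] in
theorem of_cc (C : Cc N.fixingSubgroup act (cj π) c) : H13X.Cc act π N c :=
  ⟨C.mul, by
    obtain ⟨M, hM, h⟩ := C.cont
    exact ⟨M, hM, fun s hs hs' => h s hs hs'⟩, fun s hs => C.tor s hs⟩

/-- The selection of a class. -/
theorem sel_x (D : Dat A B Om j act mo ψ π l) (he : Pairing A B act π l e) [NumberField N] [NumberField L] (hL : IsTB act π N L)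
    {T₀ : Pt (WAB A B) Ω} (hT₀ : T₀ ∈ Tor act π) (h0 : T₀ ≠ 0) [Fact l.Prime] (q : 𝓞 F →+* ZMod l) (hq : Function.Surjective q)
    (hk : ∀ x, q x = 0 ↔ π ∣ x) (hmv : ∃ s ∈ N.fixingSubgroup, ∃ T ∈ Tor act π, ac (WAB A B) s T ≠ T)
    (S : Finset (Pl N)) (hS : ∀ v ∈ S, ∀ V : ValuationSubring Ω, Abv N V v → ∀ s, DecN N V s → ∀ T ∈ Tor act π, ac (WAB A B) s T = T)
    (Y' : AddSubgroup ((Ω ≃ₐ[F] Ω) → Pt (WAB A B) Ω)) (hY' : Y' ≤ CS N.fixingSubgroup act (cj π))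
    (hf : Y'.relIndex (CS N.fixingSubgroup act (cj π)) ≠ 0)
    (hc : Y'.relIndex (CS N.fixingSubgroup act (cj π)) < l ^ (Module.finrank F N + S.card)) :
    letI := algNL hL.le
    ∃ χ : Gal(L/N) →* (ZMod l)ˣ, ∃ x ∈ SUs L S, (∃ c ∈ Y', KR L e l T₀ (Mh χ) c x) ∧ ∀ z : (L)ˣ, Mh χ x ≠ z ^ l := by
  classical
  letI := algNL hL.le
  have hA := D.cma
  have hp := D.pr
  have hT : IsScalarTower F N L := IsScalarTower.of_algebraMap_eq fun x => Subtype.ext rfl
  have hT' : IsScalarTower N L Ω := IsScalarTower.of_algebraMap_eq fun x => rfl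
  have hTF := H13X.tfld_of_tb hA hL
  have hgal : IsGalois N L := hTF.gal
  obtain ⟨χ, hχi, hχ⟩ := H55K.exists_chi hA hp hTF q hq hk
  have hex := fun x : (L)ˣ => kr_exists D he hL hT₀ h0 q hq hk χ hχ x
  choose g hgC hgK using hex
  have hh : ∀ x ∈ SUs L S, x ^ l ∈ YG D he hT₀ hL (Mh χ) Y' hY' := fun x _ => ⟨0, Y'.zero_mem, kr_lpow D he hT₀ x⟩
  have hidx := rel_mul (SUs L S) (YG D he hT₀ hL (Mh χ) Y' hY') (CS N.fixingSubgroup act (cj π)) Y' g
    (fun x _ => (mem_CS _ _ _).2 (cc_of (hgC x)))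
    (fun x _ x' _ hxx => ⟨g x - g x', hxx, kr_sub D he hT₀ (fun s hs => (hgC x).val s (hL.mono hs))
      (fun s hs => (hgC x').val s (hL.mono hs)) (hgK x) (hgK x')⟩) hf
  obtain ⟨VC, ω, hV, hωi, hω⟩ := exists_teich l χ hχi
  have hω1 : ω ≠ 1 := by
    intro h
    obtain ⟨s, hs, T, hTT, hne⟩ := hmv
    obtain ⟨σ, hσ⟩ := H13X.exists_restr hA hL s hs
    have h3 : σ = 1 := hωi (by rw [h]; rfl)
    apply hne
    refine ((hL.fix s).1 ?_).2 T hTT
    rw [IntermediateField.mem_fixingSubgroup_iff]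
    intro x hx
    have h4 := hσ ⟨x, hx⟩
    rw [h3] at h4
    exact h4
  obtain ⟨hcx, hcardN⟩ := H13X.places_card (F := F) N
  obtain ⟨ψ', p1, p2, p3⟩ := exists_psiS hcx ω hω1 S (fun w hw => H13X.stab_N hL (hS w hw))
  obtain ⟨x, hx, hxY, hnx⟩ := gn_sub χ (card_ne χ hχi) (guN : Gal(L/N) →* Monoid.End (L)ˣ) (SUs L S)
    (YG D he hT₀ hL (Mh χ) Y' hY') (fun g x hx => SUs_act g hx) hh (ι := InfinitePlace N ⊕ S) hidx.1 (by
      rw [Fintype.card_sum, hcardN, Fintype.card_coe]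
      exact lt_of_le_of_lt hidx.2 hc) VC hV ω hω ψ' (fun i x _ y _ => p1 i x y) (fun i g x _ => p2 i g x) p3 (SUs_fg S)
  refine ⟨χ, x, hx, hxY, fun z hz => ?_⟩
  exact hnx z (SUs_pow D.hl.ne_zero (mh_mem χ hx) hz) hz

/-- The multiplicities of the primes dividing π. -/
theorem exists_b (hπ : π ≠ 0) (N : IntermediateField F Ω) [NumberField N] :
    ∃ b : Pl N → ℕ, ∀ v : Pl N, v.valuation N (algebraMap F N (π : F)) = WithZero.exp (-(b v : ℤ)) ∧
      ((algebraMap (𝓞 F) (𝓞 N) π ∈ v.asIdeal ∧ 0 < b v) ∨ (algebraMap (𝓞 F) (𝓞 N) π ∉ v.asIdeal ∧ b v = 0)) := by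
  classical
  have h : ∀ v : Pl N, ∃ b : ℕ, v.valuation N (algebraMap F N (π : F)) = WithZero.exp (-(b : ℤ)) ∧
      ((algebraMap (𝓞 F) (𝓞 N) π ∈ v.asIdeal ∧ 0 < b) ∨ (algebraMap (𝓞 F) (𝓞 N) π ∉ v.asIdeal ∧ b = 0)) := by
    intro v
    by_cases hv : algebraMap (𝓞 F) (𝓞 N) π ∈ v.asIdeal
    · obtain ⟨b, h1, h2⟩ := exists_mult hπ v hv
      exact ⟨b, h2, Or.inl ⟨hv, h1⟩⟩
    · refine ⟨0, ?_, Or.inr ⟨hv, rfl⟩⟩
      have h1 : ¬ v.valuation N (algebraMap F N (π : F)) < 1 := by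
        intro h2
        apply hv
        rw [← v.valuation_lt_one_iff_mem (K := N)]
        exact h2
      have h3 : v.valuation N (algebraMap F N (π : F)) ≤ 1 := v.valuation_le_one (algebraMap (𝓞 F) (𝓞 N) π)
      rw [le_antisymm h3 (not_lt.1 h1)]
      simp
  choose b hb using h
  exact ⟨b, hb⟩

/-- The local conditions at the primes of T. -/
noncomputable def YT (act : 𝓞 F →+* AddMonoid.End (Pt (WAB A B) Ω)) (π : 𝓞 F) (N N' : IntermediateField F Ω) [NumberField N] (T : Finset (Pl N))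
    (Vv : Pl N → ValuationSubring Ω) : AddSubgroup ((Ω ≃ₐ[F] Ω) → Pt (WAB A B) Ω) :=
  CS N.fixingSubgroup act (cj π) ⊓ ⨅ v : T, CL (DN N (Vv v)) (DN N' (Vv v)) act (cj π)

/-- The index of the local conditions. -/
theorem yt_index [NumberField N] (T : Finset (Pl N)) (Vv : Pl N → ValuationSubring Ω)
    (h : ∀ v ∈ T, (CL (DN N (Vv v)) (DN N' (Vv v)) act (cj π)).relIndex (CS (DN N (Vv v)) act (cj π)) ≠ 0) :
    (YT act π N N' T Vv).relIndex (CS N.fixingSubgroup act (cj π)) ≠ 0 ∧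
    (YT act π N N' T Vv).relIndex (CS N.fixingSubgroup act (cj π)) ≤
      ∏ v ∈ T, (CL (DN N (Vv v)) (DN N' (Vv v)) act (cj π)).relIndex (CS (DN N (Vv v)) act (cj π)) := by
  have hle : ∀ v, CS N.fixingSubgroup act (cj π) ≤ CS (DN N (Vv v)) act (cj π) := by
    intro v c hc
    rw [mem_CS] at hc ⊢
    refine ⟨fun s hs t ht => hc.mul s (mem_DN.1 hs).1 t (mem_DN.1 ht).1, fun s hs => hc.tor s (mem_DN.1 hs).1, ?_⟩
    obtain ⟨M, hM, h⟩ := hc.cont
    exact ⟨M, hM, fun s hs hs' => h s (mem_DN.1 hs).1 hs'⟩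
  have h1 : ∀ v ∈ T, (CL (DN N (Vv v)) (DN N' (Vv v)) act (cj π)).relIndex (CS N.fixingSubgroup act (cj π)) ≠ 0 := by
    intro v hv h0
    exact h v hv (AddSubgroup.relIndex_eq_zero_of_le_right (hle v) h0)
  have h2 := rel_infp (CS N.fixingSubgroup act (cj π)) T (fun v => CL (DN N (Vv v)) (DN N' (Vv v)) act (cj π)) h1
  unfold YT
  rw [AddSubgroup.inf_relIndex_left]
  refine ⟨h2.1, h2.2.trans ?_⟩
  exact Finset.prod_le_prod' fun v hv => AddSubgroup.relIndex_le_of_le_right (hle v) (h v hv)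

/-- A bound for a product. -/
theorem num_bound {ι : Type} (T : Finset ι) (P : ι → Prop) [DecidablePred P] (i n b : ι → ℕ) (l : ℕ)
    (h : ∀ v ∈ T, i v ≤ n v ^ b v * (if P v then l else 1)) :
    ∏ v ∈ T, i v ≤ (∏ v ∈ T, n v ^ b v) * l ^ (T.filter P).card := by
  have h1 : ∏ v ∈ T, (if P v then l else 1) = l ^ (T.filter P).card := by
    rw [Finset.prod_ite, Finset.prod_const, Finset.prod_const_one, mul_one]
  rw [← h1, ← Finset.prod_mul_distrib]
  exact Finset.prod_le_prod' h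

/-- A bound for a product, with a gain at w. -/
theorem num_bound' {ι : Type} [DecidableEq ι] (T : Finset ι) (P : ι → Prop) [DecidablePred P] (i n b : ι → ℕ) (l : ℕ)
    (h : ∀ v ∈ T, i v ≤ n v ^ b v * (if P v then l else 1)) {w : ι} (hw : w ∈ T)
    (hl : l * i w ≤ n w ^ b w * (if P w then l else 1)) :
    l * ∏ v ∈ T, i v ≤ (∏ v ∈ T, n v ^ b v) * l ^ (T.filter P).card := by
  have h1 : ∏ v ∈ T, (if P v then l else 1) = l ^ (T.filter P).card := by
    rw [Finset.prod_ite, Finset.prod_const, Finset.prod_const_one, mul_one]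
  rw [← h1, ← Finset.prod_mul_distrib, ← Finset.mul_prod_erase T i hw, ← Finset.mul_prod_erase T _ hw, ← mul_assoc]
  exact Nat.mul_le_mul hl (Finset.prod_le_prod' fun v hv => h v (Finset.mem_of_mem_erase hv))

end H19C
end

-- from Lib.H19C.GT3
section

/-! # H19C, chunk GT3: THE GLOBAL CLASS -/

open NumberField IsDedekindDomain WeierstrassCurve

namespace H19C

open H55P (IQ Pt ac Dec Inert decS Nm Ram)
open H35P (WAB Ker tt)
open H55K (Tor CMA Dta GV ak cj xc yc Lft TFld Abw exists_abw)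
open H55K.S
open H55R (Pl ord smulP)
open H19B (DN mem_DN Cc CS mem_CS)
open H13S (Abv)
open H13X (Dat IsTB DecN algNL loc_zero JV)
open H13Y (guN exists_teich)
open H99B (pw cf)

variable {F : Type} [Field F] [NumberField F] [IQ F] {A B : F} {Om : ℂ} {Ω : Type} [Field Ω] [DecidableEq Ω]
  [Algebra F Ω] [IsAlgClosure F Ω] {j : Ω →+* ℂ} {act : 𝓞 F →+* AddMonoid.End (Pt (WAB A B) Ω)} {mo : Ideal (𝓞 F)}
  {ψ : Ideal (𝓞 F) →*₀ 𝓞 F}

variable {π : 𝓞 F} {l : ℕ} {N N' : IntermediateField F Ω}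

/-- THE GLOBAL CLASS. -/
theorem glob (D : Dat A B Om j act mo ψ π l) (hs : ¬ π ∣ cj π) [NumberField N] [NumberField N'] (hNN : N ≤ N')
    (hn : ∀ s ∈ N.fixingSubgroup, ∀ x ∈ N', s x ∈ N') (hd : Module.finrank F N' = Module.finrank F N * l)
    {w : HeightOneSpectrum (𝓞 N)} (hr : Ram N N' w.asIdeal)
    (hw : ((l : 𝓞 N) ∉ w.asIdeal ∧ ∀ V : ValuationSubring Ω, Abv N V w → ∀ s, DecN N V s → ∀ T ∈ Tor act π, ac (WAB A B) s T = T) ∨
      (algebraMap (𝓞 F) (𝓞 N) π ∈ w.asIdeal ∧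
        ∀ V : ValuationSubring Ω, Abv N V w → ∀ s, DecN N V s → ∀ T ∈ Tor act (cj π), ac (WAB A B) s T = T))
    (hmv : ∃ s ∈ N.fixingSubgroup, ∃ T ∈ Tor act π, ac (WAB A B) s T ≠ T) :
    ∃ c, H13X.Cc act π N c ∧ (¬ ∃ T : Pt (WAB A B) Ω, l • T = 0 ∧ ∀ s ∈ N.fixingSubgroup, c s = ac (WAB A B) s T - T) ∧
      ∀ V : ValuationSubring Ω, V ≠ ⊤ →
        ∃ P : Pt (WAB A B) Ω, ∀ s ∈ N'.fixingSubgroup, Dec V s → c s = ac (WAB A B) s P - P := by
  classical
  have hA := D.cma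
  have hp := D.pr
  have hl := D.hl
  have hlf : Fact l.Prime := ⟨hl⟩
  have hch : CharZero Ω := charZero_of_injective_algebraMap (algebraMap F Ω).injective
  have hNf : FiniteDimensional F N := H13X.yn1_fin N
  obtain ⟨L, hL⟩ := H13X.exists_TB hA π hp N
  have hLf : FiniteDimensional F L := hL.fin
  have hLn : NumberField L := NumberField.of_module_finite F L
  obtain ⟨e, he⟩ := exists_pairing π l D.dta hp D.dvd
  obtain ⟨hNm, hcj⟩ := H19B.f3_split hl D.dta.unr hp D.dvd hs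
  obtain ⟨T₀, hT₀, hgen, hinj, -⟩ := H19B.exists_T0 (Ω := Ω) hA hl D.dta.unr hp D.dvd hs
  have h0 : T₀ ≠ 0 := by
    intro h
    have h1 := hinj 1 (by rw [h, smul_zero])
    exact one_ne_zero h1
  obtain ⟨q, hq, hk⟩ := exists_q hl hNm
  -- the primes above l
  let T : Finset (Pl N) := (fin_above N hl.ne_zero).toFinset
  have hTm : ∀ v : Pl N, v ∈ T ↔ (l : 𝓞 N) ∈ v.asIdeal := fun v => by
    rw [Set.Finite.mem_toFinset]
    exact Iff.rfl
  have hexV : ∀ v : Pl N, ∃ V : ValuationSubring Ω, Abv N V v := fun v => by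
    obtain ⟨V, hV⟩ := exists_abw Ω v
    exact ⟨V, hV⟩
  choose Vv hVv using hexV
  obtain ⟨b, hb⟩ := exists_b (Ω := Ω) hp.ne_zero N
  let P : Pl N → Prop := fun v => ∀ s ∈ DN N (Vv v), ∀ X : Pt (WAB A B) Ω, act π X = 0 → ac (WAB A B) s X = X
  have hdl : ∀ v, dl l (DN N (Vv v)) act π = if P v then l else 1 := fun v => rfl
  have hπl : ∀ v : Pl N, algebraMap (𝓞 F) (𝓞 N) π ∈ v.asIdeal → (l : 𝓞 N) ∈ v.asIdeal := by
    intro v hv
    have h1 := congrArg (algebraMap (𝓞 F) (𝓞 N)) hcj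
    rw [map_natCast, map_mul] at h1
    rw [← h1]
    exact v.asIdeal.mul_mem_right _ hv
  have hidx : ∀ v ∈ T, (CL (DN N (Vv v)) (DN N' (Vv v)) act (cj π)).relIndex (CS (DN N (Vv v)) act (cj π)) ≠ 0 ∧
      (CL (DN N (Vv v)) (DN N' (Vv v)) act (cj π)).relIndex (CS (DN N (Vv v)) act (cj π)) ≤
        Ideal.absNorm v.asIdeal ^ b v * if P v then l else 1 := by
    intro v hv
    rw [← hdl]
    refine loc_all D hs hNN ((hTm v).1 hv) (hVv v) ?_
    rcases (hb v).2 with h1 | h1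
    · exact Or.inl ⟨h1.1, h1.2, (hb v).1⟩
    · exact Or.inr h1
  have hnorm : ∏ v ∈ T, Ideal.absNorm v.asIdeal ^ b v ≤ l ^ Module.finrank F N := by
    have h1 := prod_norm_pow hp.ne_zero T b fun v _ => (hb v).1
    rw [hNm] at h1
    exact h1
  have hY := yt_index (act := act) (π := π) (N' := N') T Vv fun v hv => (hidx v hv).1
  -- the set S
  let S : Finset (Pl N) := T.filter P ∪ (if (l : 𝓞 N) ∈ w.asIdeal then ∅ else {w})
  have hSm : ∀ v, v ∈ S → (v ∈ T ∧ P v) ∨ (v = w ∧ (l : 𝓞 N) ∉ w.asIdeal) := by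
    intro v hv
    rcases Finset.mem_union.1 hv with h1 | h1
    · exact Or.inl (Finset.mem_filter.1 h1)
    · by_cases hlw : (l : 𝓞 N) ∈ w.asIdeal
      · rw [if_pos hlw] at h1
        exact absurd h1 (Finset.notMem_empty v)
      · rw [if_neg hlw] at h1
        exact Or.inr ⟨Finset.mem_singleton.1 h1, hlw⟩
  have hS : ∀ v ∈ S, ∀ V : ValuationSubring Ω, Abv N V v → ∀ s, DecN N V s → ∀ T ∈ Tor act π, ac (WAB A B) s T = T := by
    intro v hv V hV s hs' X hX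
    rcases hSm v hv with h1 | h1
    · exact fix_conj hA (hVv v) hV π h1.2 s (mem_DN.2 hs') X hX
    · rcases hw with h2 | h2
      · rw [h1.1] at hV
        exact h2.2 V hV s hs' X hX
      · exact absurd (hπl w h2.1) h1.2
  have hcard : (YT act π N N' T Vv).relIndex (CS N.fixingSubgroup act (cj π)) < l ^ (Module.finrank F N + S.card) := by
    refine lt_of_le_of_lt hY.2 ?_
    by_cases hlw : (l : 𝓞 N) ∈ w.asIdeal
    · have hSe : S = T.filter P := by
        show T.filter P ∪ (if (l : 𝓞 N) ∈ w.asIdeal then ∅ else {w}) = _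
        rw [if_pos hlw, Finset.union_empty]
      rw [hSe]
      rcases hw with h2 | h2
      · exact absurd hlw h2.1
      · have hbw : 0 < b w := by
          rcases (hb w).2 with h3 | h3
          · exact h3.2
          · exact absurd h2.1 h3.1
        have h3 := loc_w D hs hNN hn hd hr (hVv w) h2.1 (fun s hs' X hX => h2.2 (Vv w) (hVv w) s (mem_DN.1 hs') X hX) hbw (hb w).1
        rw [hdl] at h3
        have h4 := num_bound' T P (fun v => (CL (DN N (Vv v)) (DN N' (Vv v)) act (cj π)).relIndex (CS (DN N (Vv v)) act (cj π)))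
          (fun v => Ideal.absNorm v.asIdeal) b l (fun v hv => (hidx v hv).2) ((hTm w).2 hlw) h3
        have h5 := h4.trans (Nat.mul_le_mul_right _ hnorm)
        rw [← pow_add] at h5
        refine lt_of_lt_of_le ?_ h5
        have h6 : 0 < ∏ v ∈ T, (CL (DN N (Vv v)) (DN N' (Vv v)) act (cj π)).relIndex (CS (DN N (Vv v)) act (cj π)) :=
          Finset.prod_pos fun v hv => Nat.pos_of_ne_zero (hidx v hv).1
        exact lt_mul_of_one_lt_left h6 hl.one_lt
    · have hwT : w ∉ T.filter P := fun h => hlw ((hTm w).1 (Finset.mem_filter.1 h).1)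
      have hSe : S.card = (T.filter P).card + 1 := by
        show (T.filter P ∪ (if (l : 𝓞 N) ∈ w.asIdeal then ∅ else {w})).card = _
        rw [if_neg hlw, Finset.card_union_of_disjoint (Finset.disjoint_singleton_right.2 hwT), Finset.card_singleton]
      rw [hSe]
      have h4 := num_bound T P (fun v => (CL (DN N (Vv v)) (DN N' (Vv v)) act (cj π)).relIndex (CS (DN N (Vv v)) act (cj π)))
          (fun v => Ideal.absNorm v.asIdeal) b l (fun v hv => (hidx v hv).2)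
      have h5 := h4.trans (Nat.mul_le_mul_right _ hnorm)
      rw [← pow_add] at h5
      refine lt_of_le_of_lt h5 (Nat.pow_lt_pow_right hl.one_lt ?_)
      omega
  let _ := algNL hL.le
  have hTs : IsScalarTower F N L := IsScalarTower.of_algebraMap_eq fun x => Subtype.ext rfl
  have hTs' : IsScalarTower N L Ω := IsScalarTower.of_algebraMap_eq fun x => rfl
  obtain ⟨χ, x, hx, ⟨c, hcY, hcK⟩, hne⟩ := sel_x D he hL hT₀ h0 q hq hk hmv S hS (YT act π N N' T Vv) inf_le_left hY.1 hcard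
  have C : H13X.Cc act π N c := of_cc ((mem_CS _ _ _).1 hcY.1)
  refine ⟨c, C, ?_, fun V hVt => ?_⟩
  · rintro ⟨X, hX, hcX⟩
    obtain ⟨X', hX', hcX'⟩ := H13X.YG3_red D C hX hcX
    obtain ⟨z, hz⟩ := kr_cob D he hL hT₀ hcK hX' hcX'
    exact hne z hz
  · obtain ⟨W, hW⟩ := H13X.xg3_below (F := F) L hVt
    have hW' : Abw V W := hW
    obtain ⟨v, hvd⟩ : ∃ v : Pl N, W.under (𝓞 N) = v := ⟨_, rfl⟩
    have hV : Abv N V v := hW'.below hvd
    by_cases hlv : (l : 𝓞 N) ∈ v.asIdeal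
    · have h1 : c ∈ CL (DN N (Vv v)) (DN N' (Vv v)) act (cj π) := by
        have h2 := AddSubgroup.mem_iInf.1 hcY.2
        exact h2 ⟨v, (hTm v).2 hlv⟩
      exact loc_conj C hNN hn (hVv v) hV ((mem_CL _ _ _ _).1 h1).2
    · have hVl : V.valuation (l : Ω) = 1 := by
        have h1 := H13X.yg2_unit hV (l : 𝓞 N) hlv
        have h2 : (((l : 𝓞 N) : N) : Ω) = l := by
          have e1 : ((l : 𝓞 N) : N) = l := map_natCast (algebraMap (𝓞 N) N) l
          rw [e1]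
          exact map_natCast (algebraMap N Ω) l
        rwa [h2] at h1
      by_cases hvw : v = w
      · rw [hvw] at hV hlv
        rcases hw with h2 | h2
        · exact loc_tame D he hL C hNN hT₀ hgen hn hd hr hV hVt hVl (h2.2 V hV)
        · exact absurd (hπl w h2.1) hlv
      · refine loc_out D he hL C hNN hT₀ hgen hcK hVt hVl ?_
        have h1 : Mh χ x ∈ SUs L S := mh_mem χ hx
        refine ord_val hW' (mem_SUs.1 h1 W ?_)
        rw [hvd]
        intro h2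
        rcases hSm v h2 with h3 | h3
        · exact hlv ((hTm v).1 h3.1)
        · exact hvw h3.1

end H19C
end

-- from Lib.H19C.CH
section

/-! # H19C, chunk CH: one step of degree l, and the chain, arbitrary ramification -/

open NumberField IsDedekindDomain WeierstrassCurve

namespace H19C

open H55P (IQ embF eF LF Per IsHecke Pt ac Inert Dec Nm Coc PExt UnrP Ram RamF)
open H35P (WAB Ker tt)
open H55K (Tor ak xc yc CMA Dta GV cj cj_cj mul_cj cj_prime cj_dvd cj_nat)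
open H55K (Abw exists_abw)
open H55K.S
open H55R (Pl)
open H13S (Abv)
open H13Z (SelNon)
open H13X (Dat DecN lcb_l trans_V)

section step

variable {F : Type} [Field F] [NumberField F] [IQ F] {A B : F} {Om : ℂ} {Ω : Type} [Field Ω] [DecidableEq Ω]
  [Algebra F Ω] [IsAlgClosure F Ω] {j : Ω →+* ℂ} {act : 𝓞 F →+* AddMonoid.End (Pt (WAB A B) Ω)} {mo : Ideal (𝓞 F)}
  {ψ : Ideal (𝓞 F) →*₀ 𝓞 F} {π : 𝓞 F} {l : ℕ}

/-- The condition at the ramified prime. -/
def WC (act : 𝓞 F →+* AddMonoid.End (Pt (WAB A B) Ω)) (π : 𝓞 F) (l : ℕ) (N : IntermediateField F Ω) [NumberField N]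
    (w : HeightOneSpectrum (𝓞 N)) (V : ValuationSubring Ω) : Prop :=
  ((l : 𝓞 N) ∉ w.asIdeal ∧ ∀ s, DecN N V s → ∀ T ∈ Tor act π, ac (WAB A B) s T = T) ∨
    (algebraMap (𝓞 F) (𝓞 N) π ∈ w.asIdeal ∧ ∀ s, DecN N V s → ∀ T ∈ Tor act (cj π), ac (WAB A B) s T = T)

/-- One step. -/
theorem sel_stepC (D : Dat A B Om j act mo ψ π l) (hs : ¬ π ∣ cj π) {N N' : IntermediateField F Ω} [NumberField N]
    [NumberField N'] (hNN : N ≤ N')
    (hn : ∀ s ∈ N.fixingSubgroup, ∀ x ∈ N', s x ∈ N')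
    (hd : Module.finrank F N' = Module.finrank F N * l) {w : HeightOneSpectrum (𝓞 N)} (hr : Ram N N' w.asIdeal)
    (hw : ∀ V : ValuationSubring Ω, Abv N V w → WC act π l N w V) : SelNon (WAB A B) l N' := by
  by_cases ht : ∃ R : Pt (WAB A B) Ω, l • R = 0 ∧ R ≠ 0 ∧ ∀ s ∈ N'.fixingSubgroup, ac (WAB A B) s R = R
  · obtain ⟨R, h1, h2, h3⟩ := ht
    exact tr_sel D hs N' h1 h2 h3
  have ht' : ∀ R : Pt (WAB A B) Ω, l • R = 0 → (∀ s ∈ N'.fixingSubgroup, ac (WAB A B) s R = R) → R = 0 := by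
    intro R h1 h2
    by_contra h3
    exact ht ⟨R, h1, h3, h2⟩
  have hmono : ∀ s ∈ N'.fixingSubgroup, s ∈ N.fixingSubgroup := fun s hs =>
    IntermediateField.fixingSubgroup_antitone hNN hs
  have hmv : ∃ s ∈ N.fixingSubgroup, ∃ T ∈ Tor act π, ac (WAB A B) s T ≠ T := by
    by_contra hcon
    push Not at hcon
    obtain ⟨T₀, hT₀, h0⟩ := H55K.exists_tor D.cma D.pr
    refine h0 (ht' T₀ ?_ fun s hs' => hcon s (hmono s hs') T₀ hT₀)
    obtain ⟨x, hx⟩ := D.dvd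
    rw [← act_nat (act := act), hx, mul_comm, act_mul, mem_Tor.1 hT₀, map_zero]
  have hw' : ((l : 𝓞 N) ∉ w.asIdeal ∧ ∀ V : ValuationSubring Ω, Abv N V w → ∀ s, DecN N V s → ∀ T ∈ Tor act π, ac (WAB A B) s T = T) ∨
      (algebraMap (𝓞 F) (𝓞 N) π ∈ w.asIdeal ∧
        ∀ V : ValuationSubring Ω, Abv N V w → ∀ s, DecN N V s → ∀ T ∈ Tor act (cj π), ac (WAB A B) s T = T) := by
    by_cases hl : (l : 𝓞 N) ∈ w.asIdeal
    · refine Or.inr ⟨?_, fun V hV => ?_⟩
      · obtain ⟨V, hV⟩ := exists_abw Ω w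
        rcases hw V hV with h | h
        · exact absurd hl h.1
        · exact h.1
      · rcases hw V hV with h | h
        · exact absurd hl h.1
        · exact h.2
    · refine Or.inl ⟨hl, fun V hV => ?_⟩
      rcases hw V hV with h | h
      · exact h.2
      · exfalso
        apply hl
        obtain ⟨x, hx⟩ := D.dvd
        have h1 := congrArg (algebraMap (𝓞 F) (𝓞 N)) hx
        rw [map_natCast, map_mul] at h1
        rw [h1]
        exact w.asIdeal.mul_mem_right _ h.1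
  obtain ⟨c, C, hcob, hloc⟩ := glob D hs hNN hn hd hr hw' hmv
  refine ⟨c, ⟨fun s hs t ht => C.mul s (hmono s hs) t (hmono t ht), ?_⟩, fun s hs =>
    lcb_l D (C.val s (hmono s hs)), fun V hV => hloc V hV, ?_⟩
  · obtain ⟨M, hM, h2⟩ := C.cont
    exact ⟨M, hM, fun s hs hsM => h2 s (hmono s hs) hsM⟩
  · rintro ⟨T, hT, h⟩
    refine hcob ⟨T, hT, ?_⟩
    exact H13Y.cob_down (WAB A B) l hNN hn ht' C.mul (fun s hs => lcb_l D (C.val s hs)) hT h

end step

section chain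

variable {F : Type} [Field F] [NumberField F] [IQ F] {A B : F} {Om : ℂ} [DecidableEq (AlgebraicClosure F)]
  {j : AlgebraicClosure F →+* ℂ} {act : 𝓞 F →+* AddMonoid.End (Pt (WAB A B) (AlgebraicClosure F))} {mo : Ideal (𝓞 F)}
  {ψ : Ideal (𝓞 F) →*₀ 𝓞 F} {π : 𝓞 F} {l : ℕ}

/-- The condition at v gives the condition at the primes w above v. -/
theorem wc_up (D : Dat A B Om j act mo ψ π l) {M N : IntermediateField F (AlgebraicClosure F)} [NumberField M] [NumberField N]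
    (hMN : M ≤ N) {v : HeightOneSpectrum (𝓞 M)} {w : HeightOneSpectrum (𝓞 N)}
    (hw : ∀ (x : 𝓞 M) (y : 𝓞 N), ((y : N) : AlgebraicClosure F) = ((x : M) : AlgebraicClosure F) → (x ∈ v.asIdeal ↔ y ∈ w.asIdeal))
    {V₀ V : ValuationSubring (AlgebraicClosure F)} (hV₀ : Abv M V₀ v) (h : WC act π l M v V₀) (hV : Abv N V w) :
    WC act π l N w V := by
  have hVv : Abv M V v := H13R.abv_downR hMN hw hV
  obtain ⟨σ, hσM, hσ⟩ := trans_V M hV₀ hVv
  have key : ∀ ρ : 𝓞 F, (∀ s, DecN M V₀ s → ∀ T ∈ Tor act ρ, ac (WAB A B) s T = T) →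
      ∀ s, DecN N V s → ∀ T ∈ Tor act ρ, ac (WAB A B) s T = T := by
    intro ρ hfx s hs T hT
    have hD : DecN M V₀ (σ⁻¹ * s * σ) := by
      refine ⟨mul_mem (mul_mem (inv_mem hσM) (IntermediateField.fixingSubgroup_antitone hMN hs.1)) hσM, fun x => ?_⟩
      have h1 := hσ (σ⁻¹ (s (σ x)))
      have h2 : σ (σ⁻¹ (s (σ x))) = s (σ x) := σ.apply_symm_apply _
      rw [h2] at h1
      exact h1.symm.trans ((hs.2 (σ x)).trans (hσ x))
    have h3 := hfx _ hD (ac (WAB A B) σ⁻¹ T) (ac_mem D.cma σ⁻¹ hT)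
    rw [← ac_mul, show σ⁻¹ * s * σ * σ⁻¹ = σ⁻¹ * s by group, ac_mul] at h3
    have h4 := congrArg (ac (WAB A B) σ) h3
    have h5 : ∀ P, ac (WAB A B) σ (ac (WAB A B) σ⁻¹ P) = P := fun P => by
      rw [← ac_mul, mul_inv_cancel, ac_one]
    rwa [h5, h5] at h4
  rcases h with h | h
  · refine Or.inl ⟨fun h1 => h.1 ((hw (l : 𝓞 M) (l : 𝓞 N) (by simp)).2 h1), key π h.2⟩
  · refine Or.inr ⟨(hw _ _ ?_).1 h.1, key (cj π) h.2⟩
    rfl

/-- THE CHAIN. -/
theorem x_coreC (D : Dat A B Om j act mo ψ π l) (hs : ¬ π ∣ cj π) {M L₀ : IntermediateField F (AlgebraicClosure F)}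
    [NumberField M] (hL : PExt l M L₀)
    (K : IntermediateField F (AlgebraicClosure F)) [NumberField K] (hMK : M ≤ K) (hKL : K ≤ L₀)
    {v : HeightOneSpectrum (𝓞 M)}
    (hr : Ram M K v.asIdeal) {V₀ : ValuationSubring (AlgebraicClosure F)} (hV₀ : Abv M V₀ v)
    (hw₀ : WC act π l M v V₀) : SelNon (WAB A B) l K := by
  have hL₀f : FiniteDimensional F L₀ := hL.fin
  obtain ⟨n, hn⟩ : ∃ n, Module.finrank F K = n := ⟨_, rfl⟩
  induction n using Nat.strong_induction_on generalizing K with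
  | _ n ih =>
    have hKf : FiniteDimensional F K := H55P.finDim_of_le hKL
    have hne : K ≠ M := by
      rintro rfl
      exact H55P.ram_self _ v hr
    obtain ⟨N, hMN, hNK, hd, hnorm⟩ := H55P.chain_step l D.hl M K L₀ hL hMK hKL hne
    have hNf : FiniteDimensional F N := H55P.finDim_of_le hNK
    have hNn : NumberField N := NumberField.of_module_finite F N
    have hlt : Module.finrank F N < n := by
      have h0 : 0 < Module.finrank F N := Module.finrank_pos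
      have h2 := D.hl.two_le
      rw [← hn, hd]
      nlinarith
    by_cases ht : ∃ R : Pt (WAB A B) (AlgebraicClosure F), l • R = 0 ∧ R ≠ 0 ∧ ∀ s ∈ K.fixingSubgroup, ac (WAB A B) s R = R
    · obtain ⟨R, h1, h2, h3⟩ := ht
      exact tr_sel D hs K h1 h2 h3
    have ht' : ∀ R : Pt (WAB A B) (AlgebraicClosure F), l • R = 0 → (∀ s ∈ K.fixingSubgroup, ac (WAB A B) s R = R) → R = 0 := by
      intro R h1 h2
      by_contra h3
      exact ht ⟨R, h1, h3, h2⟩
    by_cases hrN : Ram M N v.asIdeal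
    · exact H13Y.non_up (WAB A B) l hNK hnorm ht' (ih _ hlt N hMN (hNK.trans hKL) hrN rfl)
    · obtain ⟨w, hw, hram⟩ := H13R.ram_upR hMN hNK v hr hrN
      exact sel_stepC D hs hNK hnorm hd hram fun V hV => wc_up D hMN hw hV₀ hw₀ hV

end chain

end H19C
end

-- from Lib.H19C.Main
section

/-! # H19C: nonzero Selmer classes in towers with arbitrary ramification above a split prime p -/

open NumberField IsDedekindDomain WeierstrassCurve

namespace H19C

open H55P (IQ embF eF LF Per IsHecke Pt ac Inert Dec Nm Coc PExt UnrP Ram RamF)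
open H35P (WAB Ker tt)
open H55K (Tor ak xc yc CMA Dta GV GMod cj cj_cj mul_cj cj_prime cj_dvd cj_nat exists_abw)
open H55K.S
open H13S (Abv)
open H13Z (SelNon)
open H55K.TQ (BaseH PrimeH)
open H13X (Dat DecN xf_short)
open H13R (NoRel lk_decR lk_piR)
open H19B (Spl)

variable {F : Type} [Field F] [NumberField F] [IQ F] {W₀ : WeierstrassCurve (𝓞 F)} {Om : ℂ}
    {m : Ideal (𝓞 F)} {ψ : Ideal (𝓞 F) →*₀ 𝓞 F} {p : ℕ}

theorem spl_any (hp : p.Prime) (unr : ∀ v : HeightOneSpectrum (𝓞 F), (p : 𝓞 F) ∉ v.asIdeal ^ 2) (hsp : Spl F p) {π : 𝓞 F}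
    (hπ : Prime π) (hd : π ∣ (p : 𝓞 F)) : ¬ π ∣ cj π := by
  obtain ⟨π₀, hπ₀, hd₀, hs₀⟩ := hsp
  obtain ⟨-, hcj⟩ := H19B.f3_split hp unr hπ₀ hd₀ hs₀
  intro h
  rw [← hcj] at hd
  rcases hπ.dvd_or_dvd hd with h1 | h1
  · have h2 : Associated π π₀ := hπ.associated_of_dvd hπ₀ h1
    apply hs₀
    have h3 : cj π ∣ cj π₀ := cj_dvd.2 (by rw [cj_cj]; exact h2.dvd)
    exact h2.symm.dvd.trans (h.trans h3)
  · have h2 : Associated π (cj π₀) := hπ.associated_of_dvd (cj_prime hπ₀) h1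
    have h3 : cj π ∣ π₀ := cj_dvd.2 h2.dvd
    have h5 : cj π₀ ∣ π₀ := h2.symm.dvd.trans (h.trans h3)
    exact hs₀ ((cj_prime hπ₀).associated_of_dvd hπ₀ h5).symm.dvd

open Classical in
/-- THE CONVERSE, p split, arbitrary ramification. If some prime v of M not dividing the discriminant, at which the number of points is
divisible by p, is ramified in K then the classical p-Selmer group over K is not zero. -/
theorem nonselB (hH : BaseH F W₀ Om m ψ) (hp : PrimeH F W₀ p) (hsp : Spl F p) {M L K : IntermediateField F (AlgebraicClosure F)}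
    [NumberField M] [NumberField K] (hL : PExt p M L) (hMK : M ≤ K) (hKL : K ≤ L)
    (hN : ¬ NoRel p W₀ M K) : SelNon (W₀⁄F) p K := by
  obtain ⟨v, hr, hΔ, hpts⟩ : ∃ v : HeightOneSpectrum (𝓞 M), Ram M K v.asIdeal ∧
      algebraMap (𝓞 F) (𝓞 M) W₀.Δ ∉ v.asIdeal ∧
      p ∣ Nat.card (W₀⁄(𝓞 M ⧸ v.asIdeal)).toAffine.Point := by
    unfold NoRel at hN
    push Not at hN
    exact hN
  have hB := H55K.TQ.base_of hH hp
  obtain ⟨j, hj⟩ := H55K.exists_j F (AlgebraicClosure F)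
  obtain ⟨A, hA⟩ : ∃ A : F, A = -(algebraMap (𝓞 F) F W₀.c₄) / 48 := ⟨_, rfl⟩
  obtain ⟨B, hB'⟩ : ∃ B : F, B = -(algebraMap (𝓞 F) F W₀.c₆) / 864 := ⟨_, rfl⟩
  have hd := H55K.y3_ne W₀ hA hB' hB.data.ell
  have hper : Per F (embF F A) (embF F B) Om := by
    have e1 : embF F A = -(eF F W₀.c₄) / 48 := by
      rw [hA, map_div₀, map_neg, map_ofNat]
      rfl
    have e2 : embF F B = -(eF F W₀.c₆) / 864 := by
      rw [hB', map_div₀, map_neg, map_ofNat]
      rfl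
    rw [e1, e2]
    exact hB.data.per
  obtain ⟨act, hact⟩ := H55K.exists_CMA F A B Om j hd hper hj
  have hG : ∀ V : ValuationSubring (AlgebraicClosure F),
      ∃ (Kg : AddSubgroup (Pt (WAB A B) (AlgebraicClosure F))) (u : AlgebraicClosure F),
        GMod (WAB A B) V Kg u := fun V => H55K.exists_gmod hd (H55K.y3_j W₀ hA hB' hB.jint) V
  have hD : Dta A B Om j act m ψ p := H55K.mk_Dta hB hA hB' hact hG
  obtain ⟨V, hV⟩ : ∃ V : ValuationSubring (AlgebraicClosure F), Abv M V v := exists_abw (AlgebraicClosure F) v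
  by_cases hpv : (p : 𝓞 M) ∈ v.asIdeal
  · have hVp : V.valuation (p : AlgebraicClosure F) < 1 := by
      have h1 := (hV.lt ((p : 𝓞 M) : M)).2 ((v.valuation_lt_one_iff_mem (K := M) (p : 𝓞 M)).2 hpv)
      have e1 : ((((p : ℕ) : 𝓞 M) : M) : AlgebraicClosure F) = (p : AlgebraicClosure F) := by simp
      rwa [e1] at h1
    obtain ⟨π₀, hπ₀, hd₀, hs₀⟩ := hsp
    obtain ⟨-, hprod⟩ := H19B.f3_split hD.prime hD.unr hπ₀ hd₀ hs₀
    obtain ⟨π, hπ, hd', hVπ⟩ : ∃ π : 𝓞 F, Prime π ∧ π ∣ (p : 𝓞 F) ∧ V.valuation (ak (AlgebraicClosure F) π) < 1 := by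
      by_cases h1 : V.valuation (ak (AlgebraicClosure F) π₀) < 1
      · exact ⟨π₀, hπ₀, hd₀, h1⟩
      · refine ⟨cj π₀, cj_prime hπ₀, ?_, ?_⟩
        · rw [← hprod]
          exact dvd_mul_left _ _
        · by_contra h2
          have h3 : vo V π₀ = 1 := le_antisymm (vo_le V _) (not_lt.1 h1)
          have h4 : vo V (cj π₀) = 1 := le_antisymm (vo_le V _) (not_lt.1 h2)
          have h5 : vo V (p : 𝓞 F) = 1 := by rw [← hprod, vo_mul, h3, h4, mul_one]
          rw [vo_nat] at h5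
          rw [h5] at hVp
          exact lt_irrefl _ hVp
    have hs := spl_any hD.prime hD.unr ⟨π₀, hπ₀, hd₀, hs₀⟩ hπ hd'
    have D : Dat A B Om j act m ψ π p := ⟨hD, hπ, hd'⟩
    have hW : WC act π p M v V := Or.inr ⟨(abv_mem hV π).1 hVπ,
      lk_decP D hs W₀ hB.data.ell hA hB' M hΔ hV hVπ hpts⟩
    exact xf_short W₀ hA hB' hB.data.ell p K (x_coreC D hs hL K hMK hKL hr hV hW)
  · obtain ⟨T, hT0, hT, hf⟩ := lk_decR hact W₀ hB.data.ell hA hB' M hΔ hV hp.prime hp.five hpv hpts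
    obtain ⟨π, hπ, hd', hfx⟩ := lk_piR hact hp.prime hB.unr M hT0 hT hf
    have hs := spl_any hD.prime hD.unr hsp hπ hd'
    have D : Dat A B Om j act m ψ π p := ⟨hD, hπ, hd'⟩
    exact xf_short W₀ hA hB' hB.data.ell p K (x_coreC D hs hL K hMK hKL hr hV (Or.inl ⟨hpv, hfx⟩))

end H19C
end

-- from Lib.SSN.LI
section

/-! # SSN, chunk LI: interface to the local half -/

open NumberField IsDedekindDomain WeierstrassCurve

namespace SSN

open H55P (IQ Pt ac Dec Inert decS Nm Ram)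
open H35P (WAB Ker tt)
open H55K (Tor CMA Dta GV ak cj xc yc Lft TFld Abw exists_abw)
open H55K.S
open H55R (Pl ord smulP)
open H19B (DN mem_DN Cc CS mem_CS)
open H19C (SUs mem_SUs SUs_act CL mem_CL KR dl)
open H13S (Abv)
open H13X (Dat IsTB DecN algNL JV)
open H13Y (guN)

variable {F : Type} [Field F] [NumberField F] [IQ F] {A B : F} {Om : ℂ} {Ω : Type} [Field Ω] [DecidableEq Ω]
  [Algebra F Ω] [IsAlgClosure F Ω] {j : Ω →+* ℂ} {act : 𝓞 F →+* AddMonoid.End (Pt (WAB A B) Ω)} {mo : Ideal (𝓞 F)}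
  {ψ : Ideal (𝓞 F) →*₀ 𝓞 F}

variable {π : 𝓞 F} {l : ℕ} {e : Pt (WAB A B) Ω → Pt (WAB A B) Ω → Ω} {N N' L : IntermediateField F Ω}
  {c c' : (Ω ≃ₐ[F] Ω) → Pt (WAB A B) Ω} {V V₀ : ValuationSubring Ω} {T₀ : Pt (WAB A B) Ω}

/-- The number of points of order l fixed by D. -/
theorem ft_dl (D : Dat A B Om j act mo ψ (l : 𝓞 F) l) (Dg : Subgroup (Ω ≃ₐ[F] Ω)) :
    Nat.card (FT Dg act (l : 𝓞 F)) ≤ (dl l Dg act (l : 𝓞 F)) ^ 2 := by
  have hA := D.dta.cma
  have hπ := D.pr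
  have h1 : Finite (Tor act (l : 𝓞 F)) := Nat.finite_of_card_ne_zero (by
    rw [(H55K.S.gi_gen hA _ hπ).1]
    exact H55K.S.Nm_ne_zero' hπ.ne_zero)
  unfold dl
  split_ifs with hfx
  · have h2 : Nat.card (FT Dg act (l : 𝓞 F)) ≤ Nat.card (Tor act (l : 𝓞 F)) :=
      Nat.card_le_card_of_injective (fun T : FT Dg act (l : 𝓞 F) => (⟨T.1, T.2.1⟩ : Tor act (l : 𝓞 F))) fun T T' hTT =>
        Subtype.ext (congrArg (fun R : Tor act (l : 𝓞 F) => R.1) hTT)
    rwa [(H55K.S.gi_gen hA _ hπ).1, H55K.Nm_nat] at h2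
  · push Not at hfx
    obtain ⟨s, hs, R, hR, hne⟩ := hfx
    have hsub : Subsingleton (FT Dg act (l : 𝓞 F)) := ⟨fun T T' => by
      have h3 : ∀ T : FT Dg act (l : 𝓞 F), T.1 = 0 := fun T =>
        H13X.no_fix hA hπ ⟨R, hR, hne⟩ (T := T.1) T.2.1 (T.2.2 s hs)
      exact Subtype.ext ((h3 T).trans (h3 T').symm)⟩
    rw [one_pow]
    exact Finite.card_le_one_iff_subsingleton.2 hsub

/-- THE LOCAL INDEX at the primes above l. -/
theorem loc_in (D : Dat A B Om j act mo ψ (l : 𝓞 F) l) [NumberField N] [NumberField N'] (hNN : N ≤ N')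
    {v : HeightOneSpectrum (𝓞 N)} (hlv : (l : 𝓞 N) ∈ v.asIdeal) (hv : Abv N V v) {b : ℕ} (hb0 : 0 < b)
    (hb : v.valuation N (algebraMap F N (((l : 𝓞 F) : F))) = WithZero.exp (-(b : ℤ))) :
    (CL (DN N V) (DN N' V) act (l : 𝓞 F)).relIndex (CS (DN N V) act (l : 𝓞 F)) ≠ 0 ∧
      (CL (DN N V) (DN N' V) act (l : 𝓞 F)).relIndex (CS (DN N V) act (l : 𝓞 F)) ≤
        Ideal.absNorm v.asIdeal ^ b * (dl l (DN N V) act (l : 𝓞 F)) ^ 2 := by
  have hV : V.valuation (l : Ω) < 1 := by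
    have h1 := (hv.lt ((l : 𝓞 N) : N)).2 ((v.valuation_lt_one_iff_mem (K := N) (l : 𝓞 N)).2 hlv)
    have e1 : ((((l : ℕ) : 𝓞 N) : N) : Ω) = (l : Ω) := by simp
    rwa [e1] at h1
  obtain ⟨h1, h2⟩ := loc_I D.dta D.pr hV N N' hNN hv hb0 hb
  exact ⟨h1, h2.trans (Nat.mul_le_mul_left _ (ft_dl D _))⟩

end SSN
end
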