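import Pool.Agent.Lib.H1M.PP2.M006
import Pool.Agent.Lib.H1M.PP2.M014
import Pool.Agent.Lib.H1M.PP2.M015
import Pool.Agent.Lib.H1M.PP2.M029
import Pool.Agent.Lib.H1M.PP2.M037
import Pool.Agent.Lib.H1M.PP2.M071
import Pool.Agent.Lib.H1M.PP2.M077

/-! Merged copies (to shorten the build) of Lib.SSG.F.B2B, Lib.SSG.F.B2C, Lib.SSG.F.L2B, Lib.SSG.F.M1, Lib.SSG.F.L0, Lib.SSG.F.L4, Lib.SSG.F.W1, Lib.SSG.F.W2, Lib.SSG.F.W3, Lib.SSG.F.W4, Lib.SSG.F.E2A, Lib.SSG.F.E2, Lib.SSG.F.W5, Lib.SSG.F.E3A, Lib.SSG.F.E3. -/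

-- from Lib.SSG.F.B2B
section

/-! # SSG/F/B2B : the sub-levels -/

open Polynomial
open scoped Classical

namespace SSF

variable {p : ℕ} {R : ℕ → Type} [∀ N, CommRing (R N)] [∀ N, Fintype (R N)]
  {L : Type} [NormedField L] [IsUltrametricDist L] (D : LTD p R L)

/-- for `e ≤ N` and `y : R N` there is `z : R e` with `X N ((-p)^(N-e) y) = X e z`, and every `z`
occurs. PROOF: induction on `N - e` (write `N = e + d`, induction on `d`):
`X (N+1) ((-p)^(d+1) y) = X N (red ((-p)^d y)) = X N ((-p)^d red y)` by `D.Xpi`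
(`map_mul, map_pow, map_neg, map_natCast`), `red_surj`. -/
theorem exists_level [Fact p.Prime] (e d : ℕ) :
    (∀ y : R (e + d), ∃ z : R e, D.X (e + d) ((-(p : R (e + d))) ^ d * y) = D.X e z) ∧
      (∀ z : R e, ∃ y : R (e + d), D.X (e + d) ((-(p : R (e + d))) ^ d * y) = D.X e z) := by
  induction d with
  | zero =>
    refine ⟨fun y => ⟨y, ?_⟩, fun z => ⟨z, ?_⟩⟩
    · change D.X e ((-(p : R e)) ^ 0 * y) = D.X e y
      rw [pow_zero, one_mul]
    · change D.X e ((-(p : R e)) ^ 0 * z) = D.X e z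
      rw [pow_zero, one_mul]
  | succ d ih =>
    have key : ∀ y : R (e + d + 1), D.X (e + d + 1) ((-(p : R (e + d + 1))) ^ (d + 1) * y) =
        D.X (e + d) ((-(p : R (e + d))) ^ d * D.red (e + d) y) := by
      intro y
      rw [pow_succ', mul_assoc, D.Xpi, map_mul, map_pow, map_neg, map_natCast]
    refine ⟨fun y => ?_, fun z => ?_⟩
    · obtain ⟨z, hz⟩ := ih.1 (D.red (e + d) y)
      exact ⟨z, (key y).trans hz⟩
    · obtain ⟨y, hy⟩ := ih.2 z
      obtain ⟨y', rfl⟩ := red_surj D (e + d) y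
      exact ⟨y', (key y').trans hy⟩

end SSF
end

-- from Lib.SSG.F.B2C
section

/-! # SSG/F/B2C : sums over `p ^ (N - e) R N` -/

open Polynomial
open scoped Classical

namespace SSF

variable {p : ℕ} {R : ℕ → Type} [∀ N, CommRing (R N)] [∀ N, Fintype (R N)]
  {L : Type} [NormedField L] [IsUltrametricDist L] (D : LTD p R L)

/-- The sum over `p ^ (N - e) R N`. PROOF: the sets `{X N x | x in p^(N-e) R N}` and
`{X e z | z : R e}` coincide by `exists_level` (`(-p)^d y` and `p^d y'` run through the same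
elements), `X` is injective, so the sum equals the sum over `R e` (`Finset.sum_image` on both
sides), then `total_sum`. -/
theorem sub_sum [Fact p.Prime] (N e : ℕ) (he : e ≤ N) (h : D.W[X]) :
    ∑ x ∈ Finset.univ.filter (fun x : R N => ∃ y : R N, x = (p : R N) ^ (N - e) * y),
      D.ev h (D.X N x) = (p : L) ^ e * (((Ct p)^[e] h).coeff 0 : L) := by
  obtain ⟨d, rfl⟩ := Nat.exists_eq_add_of_le he
  rw [Nat.add_sub_cancel_left]
  obtain ⟨h1, h2⟩ := exists_level D e d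
  have hsg : ∀ y : R (e + d), (-(p : R (e + d))) ^ d * ((-1) ^ d * y) = (p : R (e + d)) ^ d * y := by
    intro y
    rw [← mul_assoc, ← mul_pow]
    congr 2
    ring
  have himg : (Finset.univ.filter (fun x : R (e + d) => ∃ y : R (e + d),
      x = (p : R (e + d)) ^ d * y)).image (D.X (e + d)) =
      (Finset.univ : Finset (R e)).image (D.X e) := by
    ext t
    simp only [Finset.mem_image, Finset.mem_filter, Finset.mem_univ, true_and]
    constructor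
    · rintro ⟨x, ⟨y, rfl⟩, rfl⟩
      obtain ⟨z, hz⟩ := h1 ((-1) ^ d * y)
      rw [hsg] at hz
      exact ⟨z, hz.symm⟩
    · rintro ⟨z, rfl⟩
      obtain ⟨y, hy⟩ := h2 z
      refine ⟨_, ⟨(-1) ^ d * y, ?_⟩, hy⟩
      rw [← hsg, ← mul_assoc ((-1 : R (e + d)) ^ d), ← mul_pow, neg_one_mul, neg_neg, one_pow, one_mul]
  have e1 := Finset.sum_image (f := fun t => D.ev h t)
    (s := Finset.univ.filter (fun x : R (e + d) => ∃ y : R (e + d), x = (p : R (e + d)) ^ d * y))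
    (g := D.X (e + d)) (D.Xinj (e + d)).injOn
  have e2 := Finset.sum_image (f := fun t => D.ev h t) (s := (Finset.univ : Finset (R e)))
    (g := D.X e) (D.Xinj e).injOn
  rw [himg, e2] at e1
  rw [← e1]
  exact total_sum D (Fact.out : p.Prime).two_le e h

end SSF
end

-- from Lib.SSG.F.L2B
section

/-! # SSG/F/L2B : the norm of the Gauss sum -/

open Polynomial
open scoped Classical

namespace SSF

variable {p : ℕ} [Fact p.Prime] {R : ℕ → Type} [∀ N, CommRing (R N)] [∀ N, Fintype (R N)]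
  {L : Type} [NormedField L] [IsUltrametricDist L] (D : LTD p R L)

omit [IsUltrametricDist L] in
theorem l2b_m1 (N : ℕ) (χ : DirichletCharacter L (p ^ N)) : ‖χ (-1)‖ = 1 := by
  have h1 : χ (-1) * χ (-1) = 1 := by rw [← map_mul]; simp
  have h2 : ‖χ (-1)‖ * ‖χ (-1)‖ = 1 := by rw [← norm_mul, h1, norm_one]
  nlinarith [norm_nonneg (χ (-1))]

/-- `‖tau χ‖^2 = ‖p‖^N` for `χ` primitive with `χ^(p^M) = 1`, `M ≤ N`. PROOF. `N = 0` is trivial (`tau = 1`, one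
element); let `N ≥ 1`. By `gal_cyc` there is `σ ∈ G` with `σ ζ = ζ^(-1)` (exponent `(-1 : ZMod).val`).
Each value `χ(a)`, `a` a unit, satisfies `χ(a)^(p^N) = 1`, so it is a power of `ζ_N`
(`IsPrimitiveRoot.eq_pow_of_pow_eq_one`) and `σ (χ(a)) = χ(a)⁻¹ = χ⁻¹(a)`. So
`σ (tau χ) = sum χ⁻¹(a) ζ^(-a) = χ(-1) tau χ⁻¹` (substitute `a → -a`), hence
`‖tau χ‖ = ‖tau χ⁻¹‖` (`D.giso`, `‖χ(-1)‖ = 1`), and `tau_mul`. -/
theorem tau_norm (N : ℕ) (χ : DirichletCharacter L (p ^ N)) (hχ : χ.IsPrimitive)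
    (M : ℕ) (hM : M ≤ N) (h1 : χ ^ (p ^ M) = 1) : ‖D.tau N χ‖ ^ 2 = ‖(p : L)‖ ^ N := by
  have hmul := congrArg norm (tau_mul D N χ hχ)
  rw [norm_mul, norm_mul, l2b_m1 N χ, mul_one, norm_pow] at hmul
  suffices h : ‖D.tau N χ⁻¹‖ = ‖D.tau N χ‖ by rw [← hmul, h, pow_two]
  rcases Nat.eq_zero_or_pos N with h0 | h0
  · subst h0
    have h2 : χ⁻¹ = χ := by
      have h3 : Subsingleton (ZMod (p ^ 0))ˣ := by
        rw [pow_zero]; infer_instance
      ext a
      have h4 : a = 1 := Subsingleton.elim _ _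
      subst h4
      rw [Units.val_one]
      exact (map_one _).trans (map_one _).symm
    rw [h2]
  · obtain ⟨σ, hσ, hσζ⟩ := gal_cyc D N h0 (-1)
    have hval : ∀ a : ZMod (p ^ N), σ (D.ζ N ^ a.val) = l2a_e D N (-a) := by
      intro a
      rw [map_pow, hσζ, ← pow_mul]
      have h2 := AddChar.zmodChar_apply' (l2a_one D N) (((-1 : (ZMod (p ^ N))ˣ) : ZMod (p ^ N)).val * a.val)
      rw [← h2]
      congr 1
      rw [Nat.cast_mul, ZMod.natCast_zmod_val, ZMod.natCast_zmod_val]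
      simp
    have hchi : ∀ a : ZMod (p ^ N), σ (χ a) = χ⁻¹ a := by
      intro a
      by_cases ha : IsUnit a
      · have h2 : χ a ^ (p ^ N) = 1 := by
          have h3 : χ ^ (p ^ N) = 1 :=
            orderOf_dvd_iff_pow_eq_one.1
              ((orderOf_dvd_of_pow_eq_one h1).trans (pow_dvd_pow p hM))
          rw [← MulChar.pow_apply' χ (pow_ne_zero N (Fact.out : p.Prime).ne_zero) a, h3,
            MulChar.one_apply ha]
        have hpos : 0 < p ^ N := pow_pos (Fact.out : p.Prime).pos N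
        have : NeZero (p ^ N) := ⟨hpos.ne'⟩
        obtain ⟨k, _, hk⟩ := (D.ζprim N).eq_pow_of_pow_eq_one h2
        have h4 : σ (D.ζ N) * D.ζ N = 1 := by
          have h5 := hval 1
          have h6 : D.ζ N ^ (1 : ZMod (p ^ N)).val = D.ζ N := by
            have h7 := AddChar.zmodChar_apply' (l2a_one D N) 1
            rw [pow_one, Nat.cast_one] at h7
            exact h7
          rw [h6] at h5
          rw [h5]
          have h8 : l2a_e D N 1 = D.ζ N := h6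
          rw [← h8, ← AddChar.map_add_eq_mul]
          simp
        have h9 : σ (χ a) * χ a = 1 := by
          rw [← hk, map_pow, ← mul_pow, h4, one_pow]
        have h10 : χ⁻¹ a * χ a = 1 := by
          rw [← MulChar.mul_apply, inv_mul_cancel, MulChar.one_apply ha]
        have h11 : χ a ≠ 0 := right_ne_zero_of_mul_eq_one h9
        exact mul_right_cancel₀ h11 (h9.trans h10.symm)
      · rw [χ.map_nonunit ha, map_zero, MulChar.map_nonunit _ ha]
    have h12 : σ (D.tau N χ) = χ⁻¹ (-1) * D.tau N χ⁻¹ := by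
      have h13 : D.tau N χ = ∑ a : ZMod (p ^ N), χ a * D.ζ N ^ a.val := rfl
      have h14 : D.tau N χ⁻¹ = ∑ a : ZMod (p ^ N), χ⁻¹ a * l2a_e D N a := rfl
      rw [h13, map_sum, h14, Finset.mul_sum]
      refine Fintype.sum_equiv (Equiv.neg _) _ _ fun a => ?_
      rw [map_mul, hval, hchi]
      change χ⁻¹ a * l2a_e D N (-a) = χ⁻¹ (-1) * (χ⁻¹ (-a) * l2a_e D N (-a))
      rw [← mul_assoc, ← map_mul]
      simp
    have h15 := D.giso σ hσ (D.tau N χ)
    rw [h12, norm_mul, l2b_m1 N χ⁻¹, one_mul] at h15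
    exact h15

end SSF
end

-- from Lib.SSG.F.M1
section

/-! # SSG/F/M1 : decomposition of `S` -/

open Polynomial
open scoped Classical

namespace SSF

variable {p : ℕ} [Fact p.Prime] {R : ℕ → Type} [∀ N, CommRing (R N)] [∀ N, Fintype (R N)]
  {L : Type} [NormedField L] [IsUltrametricDist L] (D : LTD p R L)

/-- `χ` primitive kills functions of `a mod p^n`. PROOF. `Z = sum_a χ(a) f(ā)`. There is a unit `c`
with `c̄ = 1` and `χ(c) ≠ 1` (otherwise `χ` factors through `p^n`,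
`DirichletCharacter.factorsThrough_iff_ker_unitsMap`, against primitivity: the conductor would be
`≤ p^n < p^(n+1)`). Substituting `a → c a` gives `Z = χ(c) Z`, so `Z = 0`. -/
theorem kill (n : ℕ) (χ : DirichletCharacter L (p ^ (n + 1))) (hχ : χ.IsPrimitive)
    (f : (ZMod (p ^ n))ˣ → L) :
    ∑ a : (ZMod (p ^ (n + 1)))ˣ, χ (a : ZMod (p ^ (n + 1))) *
      f (ZMod.unitsMap (pow_dvd_pow p (Nat.le_succ n)) a) = 0 := by
  have hp1 : 1 < p := (Fact.out : p.Prime).one_lt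
  have : NeZero (p ^ (n + 1)) := ⟨pow_ne_zero _ (by omega)⟩
  obtain ⟨c, hc1, hc2⟩ : ∃ c : (ZMod (p ^ (n + 1)))ˣ,
      ZMod.unitsMap (pow_dvd_pow p (Nat.le_succ n)) c = 1 ∧ χ (c : ZMod (p ^ (n + 1))) ≠ 1 := by
    by_contra hcon
    push Not at hcon
    have h1 : χ.FactorsThrough (p ^ n) := by
      rw [DirichletCharacter.factorsThrough_iff_ker_unitsMap (pow_dvd_pow p (Nat.le_succ n))]
      intro c hc
      rw [MonoidHom.mem_ker] at hc ⊢
      apply Units.ext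
      rw [MulChar.coe_toUnitHom, Units.val_one]
      exact hcon c hc
    have h2 : χ.conductor ≤ p ^ n := Nat.sInf_le ((DirichletCharacter.mem_conductorSet_iff χ).2 h1)
    rw [DirichletCharacter.isPrimitive_def] at hχ
    rw [hχ] at h2
    have h3 : p ^ n < p ^ (n + 1) := Nat.pow_lt_pow_right hp1 (by omega)
    omega
  set Z := ∑ a : (ZMod (p ^ (n + 1)))ˣ, χ (a : ZMod (p ^ (n + 1))) *
      f (ZMod.unitsMap (pow_dvd_pow p (Nat.le_succ n)) a) with hZ
  have h1 : χ (c : ZMod (p ^ (n + 1))) * Z = Z := by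
    rw [hZ, Finset.mul_sum]
    conv_rhs => rw [← Equiv.sum_comp (Equiv.mulLeft c)]
    refine Finset.sum_congr rfl fun a _ => ?_
    rw [Equiv.coe_mulLeft, Units.val_mul, map_mul, map_mul, hc1, one_mul, mul_assoc]
  have h2 : (χ (c : ZMod (p ^ (n + 1))) - 1) * Z = 0 := by
    rw [sub_mul, h1, one_mul, sub_self]
  exact (mul_eq_zero.1 h2).resolve_left (sub_ne_zero.2 hc2)

theorem m1_units {N : ℕ} [NeZero N] (χ : DirichletCharacter L N) (g : ZMod N → L) :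
    ∑ a : ZMod N, χ a * g a = ∑ a : (ZMod N)ˣ, χ (a : ZMod N) * g (a : ZMod N) := by
  have h1 : ∑ b : (ZMod N)ˣ, χ (b : ZMod N) * g (b : ZMod N) =
      ∑ b ∈ (Finset.univ : Finset (ZMod N)ˣ).map
        ⟨fun u : (ZMod N)ˣ => (u : ZMod N), fun _ _ h => Units.ext h⟩, χ b * g b := by
    rw [Finset.sum_map]
    rfl
  rw [h1]
  symm
  apply Finset.sum_subset (Finset.subset_univ _)
  intro b _ hb
  rw [MulChar.map_nonunit, zero_mul]
  rintro ⟨u, rfl⟩
  apply hb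
  rw [Finset.mem_map]
  exact ⟨u, Finset.mem_univ _, rfl⟩

/-- Decomposition. PROOF. `S = sum over units a of χ(a) T (n+1) a h` (`Finset.sum_fiberwise` over
`nm`, `χ` vanishes on non-units; sum over `ZMod` of a function supported on units = sum over units).
By `T_rec`: `= sum_(b<p) sum_a χ(a) ζ^(a.val b) Tf n (h_b)(ā)` (`castHom` of a unit is
`ZMod.unitsMap`); `b = 0` gives `0` (`kill`), `b ≥ 1` gives `tau · ell χ b (Tf n h_b)` (definition of
`ell`, `tau ≠ 0` by `tau_ne`). -/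
theorem S_decomp (n : ℕ) (hn : 1 ≤ n) (χ : DirichletCharacter L (p ^ (n + 1)))
    (hχ : χ.IsPrimitive) (w : D.W[X]) (hw : D.IsW (n + 1) w) (h : D.W[X]) :
    D.S (n + 1) χ h =
      D.tau (n + 1) χ * ∑ b ∈ Finset.Ico 1 p, D.ell n χ b (D.Tf n (D.hb n w h b)) := by
  have hp1 : 1 < p := (Fact.out : p.Prime).one_lt
  have : NeZero (p ^ (n + 1)) := ⟨pow_ne_zero _ (by omega)⟩
  have hτ := tau_ne D (n + 1) χ hχ
  have h1 : D.S (n + 1) χ h = ∑ a : ZMod (p ^ (n + 1)), χ a * D.T (n + 1) a h := by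
    unfold LTD.S LTD.T
    rw [← Finset.sum_fiberwise (s := Finset.univ) (g := fun x : R (n + 1) => D.nm (n + 1) x)]
    refine Finset.sum_congr rfl fun a _ => ?_
    rw [Finset.mul_sum]
    refine Finset.sum_congr rfl fun x hx => ?_
    rw [(Finset.mem_filter.1 hx).2]
  rw [h1, m1_units]
  have h2 : ∀ a : (ZMod (p ^ (n + 1)))ˣ, χ (a : ZMod (p ^ (n + 1))) *
      D.T (n + 1) (a : ZMod (p ^ (n + 1))) h = ∑ b ∈ Finset.range p,
        χ (a : ZMod (p ^ (n + 1))) * D.ζ (n + 1) ^ ((a : ZMod (p ^ (n + 1))).val * b) *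
          D.Tf n (D.hb n w h b) (ZMod.unitsMap (pow_dvd_pow p (Nat.le_succ n)) a) := by
    intro a
    rw [T_rec D n hn w hw a h, Finset.mul_sum]
    refine Finset.sum_congr rfl fun b _ => ?_
    rw [mul_assoc]
    rfl
  rw [Finset.sum_congr rfl fun a _ => h2 a, Finset.sum_comm]
  have h3 : Finset.range p = insert 0 (Finset.Ico 1 p) := by
    ext b
    rw [Finset.mem_range, Finset.mem_insert, Finset.mem_Ico]
    omega
  rw [h3, Finset.sum_insert (by simp)]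
  have h4 : ∑ a : (ZMod (p ^ (n + 1)))ˣ, χ (a : ZMod (p ^ (n + 1))) *
      D.ζ (n + 1) ^ ((a : ZMod (p ^ (n + 1))).val * 0) *
        D.Tf n (D.hb n w h 0) (ZMod.unitsMap (pow_dvd_pow p (Nat.le_succ n)) a) = 0 := by
    rw [← kill n χ hχ (D.Tf n (D.hb n w h 0))]
    refine Finset.sum_congr rfl fun a _ => ?_
    rw [mul_zero, pow_zero, mul_one]
  rw [h4, zero_add, Finset.mul_sum]
  refine Finset.sum_congr rfl fun b _ => ?_
  unfold LTD.ell
  rw [← mul_assoc, mul_inv_cancel₀ hτ, one_mul]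

end SSF
end

-- from Lib.SSG.F.L0
section

/-! # SSG/F/L0 : the operator `f ↦ θ σ f - f` on `φ^m O` -/

open Polynomial
open scoped Classical

namespace SSF

variable {p : ℕ} [Fact p.Prime] {R : ℕ → Type} [∀ N, CommRing (R N)] [∀ N, Fintype (R N)]
  {L : Type} [NormedField L] [IsUltrametricDist L] (D : LTD p R L)

omit [IsUltrametricDist L] in
theorem l0_mul (n : ℕ) (a b : ZMod (p ^ n)) :
    (D.ζ n ^ a.val) ^ b.val = D.ζ n ^ (a * b).val := by
  have hne : NeZero (p ^ n) := ⟨pow_ne_zero _ (Fact.out : p.Prime).ne_zero⟩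
  rw [← pow_mul, ZMod.val_mul]
  exact pow_eq_pow_mod _ (D.ζprim n).pow_eq_one

/-- polynomials with coefficients in `W` are contracting. -/
theorem l0_ev (B : D.W[X]) (x y : L) (hx : ‖x‖ ≤ 1) (hy : ‖y‖ ≤ 1) :
    ‖D.ev B x - D.ev B y‖ ≤ ‖x - y‖ := by
  unfold LTD.ev
  induction B using Polynomial.induction_on' with
  | add P Q hP hQ =>
    rw [eval₂_add, eval₂_add, add_sub_add_comm]
    exact (IsUltrametricDist.norm_add_le_max _ _).trans (max_le hP hQ)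
  | monomial k c =>
    rw [eval₂_monomial, eval₂_monomial, ← mul_sub, norm_mul]
    have hc : ‖(D.W.subtype c : L)‖ ≤ 1 := c.2.2
    have hk : ‖x ^ k - y ^ k‖ ≤ ‖x - y‖ := by
      induction k with
      | zero => simp
      | succ k ih =>
        have e1 : x ^ (k + 1) - y ^ (k + 1) = x ^ k * (x - y) + (x ^ k - y ^ k) * y := by ring
        rw [e1]
        refine (IsUltrametricDist.norm_add_le_max _ _).trans (max_le ?_ ?_)
        · rw [norm_mul, norm_pow]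
          exact mul_le_of_le_one_left (norm_nonneg _) (pow_le_one₀ (norm_nonneg _) hx)
        · rw [norm_mul]
          exact (mul_le_of_le_one_right (norm_nonneg _) hy).trans ih
    exact (mul_le_of_le_one_left (norm_nonneg _) hc).trans hk

theorem l0_phi (n : ℕ) : D.φ n ∈ D.O n := ⟨X - 1, fun a => by
  simp [LTD.ev, LTD.φ]⟩

theorem l0_norm (n : ℕ) : ‖D.ζ n‖ = 1 :=
  norm_root _ (p ^ n) (pow_ne_zero _ (Fact.out : p.Prime).ne_zero) (D.ζprim n).pow_eq_one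

/-- translation preserves `O n`: if `f a = B(ζ^a)` then `f (c a) = B'(ζ^a)`, `B' = B.comp (X^c)`
(`eval₂_comp`, exponents mod `p^n`). -/
theorem O_shift (n : ℕ) (c : (ZMod (p ^ n))ˣ) (f : (ZMod (p ^ n))ˣ → L) (hf : f ∈ D.O n) :
    (fun a => f (c * a)) ∈ D.O n := by
  obtain ⟨B, hB⟩ := hf
  refine ⟨B.comp (X ^ (c : ZMod (p ^ n)).val), fun a => ?_⟩
  show f (c * a) = _
  rw [hB]
  unfold LTD.ev
  rw [eval₂_comp, eval₂_X_pow, l0_mul, Units.val_mul, mul_comm]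

/-- For `f ∈ O n` and `c = 1 + p`: `f (c a) - f a = φ^3 z`. PROOF. `f = B(ζ^a)`:
`‖B(ζ^(1+p)) - B(ζ)‖ ≤ ‖ζ^(1+p) - ζ‖` (`Polynomial.sub_dvd_eval_sub`-like: in the ring of
integral elements, or monomial by monomial `x^k - y^k = (x-y) sum`), `= ‖ζ^p - 1‖`, and
`‖ζ_n^p - 1‖ = 0` for `n = 1` and `= ‖φ_(n-1)‖ = ‖φ_n‖^p` for `n ≥ 2` (`phi_norm_succ`,
`D.ζp`); `p ≥ 3` and `‖φ_n‖ < 1`. The difference is in `O n` (`O_shift`): `O_div` with `m = 3`. -/
theorem O_diff (hp3 : 3 ≤ p) (n : ℕ) (hn : 1 ≤ n) (f : (ZMod (p ^ n))ˣ → L) (hf : f ∈ D.O n) :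
    ∃ z ∈ D.O n, ∀ a, f (onep p n * a) = f a + D.φ n a ^ 3 * z a := by
  have hp := (Fact.out : p.Prime)
  have hne : NeZero (p ^ n) := ⟨pow_ne_zero _ hp.ne_zero⟩
  obtain ⟨h0, h1⟩ := phi_pos D n hn
  have hg : (fun a => f (onep p n * a)) - f ∈ D.O n := (D.O n).sub_mem (O_shift D n (onep p n) f hf) hf
  have hz : ‖D.ζ n ^ p - 1‖ ≤ ‖D.ζ n - 1‖ ^ 3 := by
    by_cases h2 : n = 1
    · subst h2
      have h3 : D.ζ 1 ^ p = 1 := by
        have h4 := (D.ζprim 1).pow_eq_one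
        rwa [pow_one] at h4
      rw [h3, sub_self, norm_zero]
      positivity
    · obtain ⟨m, rfl⟩ : ∃ m, n = m + 1 := ⟨n - 1, by omega⟩
      rw [D.ζp m, phi_norm_succ D m (by omega)]
      exact pow_le_pow_of_le_one h0.le h1.le hp3
  have hle : ‖((fun a => f (onep p n * a)) - f) 1‖ ≤ ‖D.ζ n - 1‖ ^ 3 := by
    obtain ⟨B, hB⟩ := hf
    rw [Pi.sub_apply]
    show ‖f (onep p n * 1) - f 1‖ ≤ _
    rw [hB, hB, mul_one]
    have hn1 : ∀ k : ℕ, ‖D.ζ n ^ k‖ ≤ 1 := fun k => by rw [norm_pow, l0_norm, one_pow]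
    refine (l0_ev D B _ _ (hn1 _) (hn1 _)).trans ?_
    have hF : Fact (1 < p ^ n) := ⟨Nat.one_lt_pow (by omega) hp.one_lt⟩
    have e1 : D.ζ n ^ ((onep p n : (ZMod (p ^ n))ˣ) : ZMod (p ^ n)).val = D.ζ n ^ (1 + p) := by
      have e3 : ((onep p n : (ZMod (p ^ n))ˣ) : ZMod (p ^ n)) = ((1 + p : ℕ) : ZMod (p ^ n)) := ZMod.coe_unitOfCoprime _ _
      rw [e3, ZMod.val_natCast]
      exact (pow_eq_pow_mod _ (D.ζprim n).pow_eq_one).symm
    rw [e1, Units.val_one, ZMod.val_one, pow_one]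
    have e2 : D.ζ n ^ (1 + p) - D.ζ n = D.ζ n * (D.ζ n ^ p - 1) := by ring
    rw [e2, norm_mul, l0_norm, one_mul]
    exact hz
  obtain ⟨z, hzO, hz2⟩ := O_div D n hn 3 _ hg hle
  refine ⟨z, hzO, fun a => ?_⟩
  have h3 := congrFun hz2 a
  simp only [Pi.sub_apply, Pi.mul_apply, Pi.pow_apply] at h3
  rw [← h3]
  ring

/-- `ζ^(a i) = (1 + φ a)^i = 1 + i φ a + φ a ^ 2 z a`, `z ∈ O n` (`add_pow`/`Polynomial`, or
induction on `i`; `D.φ n ∈ D.O n`: `B = X - 1`). -/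
theorem theta_shape (n i : ℕ) :
    ∃ z ∈ D.O n, ∀ a : (ZMod (p ^ n))ˣ, D.ζ n ^ ((a : ZMod (p ^ n)).val * i) =
      1 + (i : L) * D.φ n a + D.φ n a ^ 2 * z a := by
  have h1 : ∀ a : (ZMod (p ^ n))ˣ, D.ζ n ^ ((a : ZMod (p ^ n)).val * i) = (1 + D.φ n a) ^ i := by
    intro a
    rw [pow_mul]
    congr 1
    show _ = 1 + (D.ζ n ^ (a : ZMod (p ^ n)).val - 1)
    ring
  have h2 : ∃ z ∈ D.O n, ∀ a : (ZMod (p ^ n))ˣ, (1 + D.φ n a) ^ i = 1 + (i : L) * D.φ n a + D.φ n a ^ 2 * z a := by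
    clear h1
    induction i with
    | zero => exact ⟨0, (D.O n).zero_mem, fun a => by simp⟩
    | succ i ih =>
      obtain ⟨z, hz, h⟩ := ih
      refine ⟨((i : ℕ) : (ZMod (p ^ n))ˣ → L) + z + D.φ n * z,
        (D.O n).add_mem ((D.O n).add_mem (natCast_mem _ i) hz) ((D.O n).mul_mem (l0_phi D n) hz), fun a => ?_⟩
      rw [pow_succ, h]
      simp only [Pi.add_apply, Pi.mul_apply, Pi.natCast_apply]
      push_cast
      ring
  obtain ⟨z, hz, h⟩ := h2
  exact ⟨z, hz, fun a => (h1 a).trans (h a)⟩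

/-- The shape: `θ σ(φ^m y) - φ^m y = i φ^(m+1) y + φ^(m+2) z`. PROOF. By `O_diff` for `D.φ n` and
for `y`: `φ(c a) = φ (1 + φ^2 z1)`, `y(c a) = y + φ^3 z2`, by `theta_shape`
`θ = 1 + i φ + φ^2 z3`; and `(1 + φ^2 z1)^m = 1 + φ^2 z4` (induction on `m`). Multiply out;
`z` is a polynomial expression in elements of the subring `O n`. -/
theorem shape (hp3 : 3 ≤ p) (n : ℕ) (hn : 1 ≤ n) (i m : ℕ) (y : (ZMod (p ^ n))ˣ → L)
    (hy : y ∈ D.O n) :
    ∃ z ∈ D.O n, ∀ a : (ZMod (p ^ n))ˣ,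
      D.ζ n ^ ((a : ZMod (p ^ n)).val * i) * (D.φ n (onep p n * a) ^ m * y (onep p n * a)) -
        D.φ n a ^ m * y a = (i : L) * D.φ n a ^ (m + 1) * y a + D.φ n a ^ (m + 2) * z a := by
  obtain ⟨z1, hz1, h1⟩ := O_diff D hp3 n hn (D.φ n) (l0_phi D n)
  obtain ⟨z2, hz2, h2⟩ := O_diff D hp3 n hn y hy
  obtain ⟨z3, hz3, h3⟩ := theta_shape D n i
  have h4 : ∃ z4 ∈ D.O n, ∀ a : (ZMod (p ^ n))ˣ, D.φ n (onep p n * a) ^ m = D.φ n a ^ m * (1 + D.φ n a ^ 2 * z4 a) := by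
    induction m with
    | zero => exact ⟨0, (D.O n).zero_mem, fun a => by simp⟩
    | succ m ih =>
      obtain ⟨z, hz, h⟩ := ih
      refine ⟨z1 + z + D.φ n ^ 2 * z * z1, (D.O n).add_mem ((D.O n).add_mem hz1 hz)
        ((D.O n).mul_mem ((D.O n).mul_mem ((D.O n).pow_mem (l0_phi D n) 2) hz) hz1), fun a => ?_⟩
      rw [pow_succ, h, h1]
      simp only [Pi.add_apply, Pi.mul_apply, Pi.pow_apply]
      ring
  obtain ⟨z4, hz4, h4⟩ := h4
  have hφ := l0_phi D n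
  have hA : 1 + ((i : ℕ) : (ZMod (p ^ n))ˣ → L) * D.φ n + D.φ n ^ 2 * z3 ∈ D.O n :=
    (D.O n).add_mem ((D.O n).add_mem (D.O n).one_mem ((D.O n).mul_mem (natCast_mem _ i) hφ))
      ((D.O n).mul_mem ((D.O n).pow_mem hφ 2) hz3)
  refine ⟨z3 * y + (1 + ((i : ℕ) : (ZMod (p ^ n))ˣ → L) * D.φ n + D.φ n ^ 2 * z3) *
    (D.φ n * z2 + z4 * y + D.φ n ^ 3 * (z4 * z2)),
    (D.O n).add_mem ((D.O n).mul_mem hz3 hy) ((D.O n).mul_mem hA ((D.O n).add_mem ((D.O n).add_mem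
      ((D.O n).mul_mem hφ hz2) ((D.O n).mul_mem hz4 hy)) ((D.O n).mul_mem ((D.O n).pow_mem hφ 3) ((D.O n).mul_mem hz4 hz2)))),
    fun a => ?_⟩
  rw [h3, h4, h2]
  simp only [Pi.add_apply, Pi.mul_apply, Pi.pow_apply, Pi.one_apply, Pi.natCast_apply]
  ring

end SSF
end

-- from Lib.SSG.F.L4
section

/-! # SSG/F/L4 : the functional on `φ^J O` -/

open Polynomial
open scoped Classical

namespace SSF

variable {p : ℕ} [Fact p.Prime] {R : ℕ → Type} [∀ N, CommRing (R N)] [∀ N, Fintype (R N)]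
  {L : Type} [NormedField L] [IsUltrametricDist L] (D : LTD p R L)

omit [Fact p.Prime] in
theorem l4_phi_mem (n : ℕ) : D.φ n ∈ D.O n :=
  ⟨X - 1, fun a => by simp [LTD.ev, LTD.φ]⟩

omit [Fact p.Prime] in
theorem l4_theta_mem (n i : ℕ) :
    (fun a : (ZMod (p ^ n))ˣ => D.ζ n ^ ((a : ZMod (p ^ n)).val * i)) ∈ D.O n :=
  ⟨X ^ i, fun a => by simp [LTD.ev, pow_mul]⟩

theorem l4_phi_one (n : ℕ) (hn : 1 ≤ n) : D.φ n 1 = D.ζ n - 1 := by
  have hp := (Fact.out : p.Prime)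
  haveI : Fact (1 < p ^ n) := ⟨Nat.one_lt_pow (by omega) hp.one_lt⟩
  simp only [LTD.φ, Units.val_one, ZMod.val_one, pow_one]

include D in
/-- integers prime to `p` have norm `1` -/
theorem l4_norm_nat (i : ℕ) (hi : 1 ≤ i) (hip : i < p) : ‖(i : L)‖ = 1 := by
  have hp := (Fact.out : p.Prime)
  have hcop : IsCoprime (i : ℤ) (p : ℤ) :=
    Nat.isCoprime_iff_coprime.2 ((hp.coprime_iff_not_dvd.2 (Nat.not_dvd_of_pos_of_lt hi hip)).symm)
  obtain ⟨a, b, hab⟩ := hcop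
  have h1 : (a : L) * (i : L) + (b : L) * (p : L) = 1 := by exact_mod_cast congrArg (Int.cast : ℤ → L) hab
  have ha : ‖(a : L)‖ ≤ 1 := IsUltrametricDist.norm_intCast_le_one _ a
  have hb : ‖(b : L)‖ ≤ 1 := IsUltrametricDist.norm_intCast_le_one _ b
  have hile : ‖(i : L)‖ ≤ 1 := IsUltrametricDist.norm_natCast_le_one _ i
  have hbp : ‖(b : L) * (p : L)‖ < 1 := by
    rw [norm_mul]
    calc ‖(b : L)‖ * ‖(p : L)‖ ≤ 1 * ‖(p : L)‖ := by gcongr
      _ < 1 := by rw [one_mul]; exact D.hp1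
  by_contra hne
  have hlt : ‖(i : L)‖ < 1 := lt_of_le_of_ne hile hne
  have hai : ‖(a : L) * (i : L)‖ < 1 := by
    rw [norm_mul]
    calc ‖(a : L)‖ * ‖(i : L)‖ ≤ 1 * ‖(i : L)‖ := by gcongr
      _ < 1 := by rw [one_mul]; exact hlt
  have := (IsUltrametricDist.norm_add_le_max ((a : L) * (i : L)) ((b : L) * (p : L))).trans_lt
    (max_lt hai hbp)
  rw [h1, norm_one] at this
  exact lt_irrefl _ this

include D in
theorem l4_fermat (i J : ℕ) (hi : 1 ≤ i) (hip : i < p) (hJ : (p - 1) ∣ J) :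
    ‖(i : L) ^ J - 1‖ < 1 := by
  have hp := (Fact.out : p.Prime)
  have hz : ((i : ℕ) : ZMod p) ≠ 0 := by
    rw [Ne, ZMod.natCast_eq_zero_iff]
    exact Nat.not_dvd_of_pos_of_lt hi hip
  have h1 : ((((i : ℤ) ^ J - 1 : ℤ)) : ZMod p) = 0 := by
    obtain ⟨k, rfl⟩ := hJ
    push_cast
    rw [pow_mul, ZMod.pow_card_sub_one_eq_one hz, one_pow, sub_self]
  rw [ZMod.intCast_zmod_eq_zero_iff_dvd] at h1
  obtain ⟨c, hc⟩ := h1
  have h2 : (i : L) ^ J - 1 = (p : L) * (c : L) := by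
    exact_mod_cast congrArg (Int.cast : ℤ → L) hc
  rw [h2, norm_mul]
  calc ‖(p : L)‖ * ‖(c : L)‖ ≤ ‖(p : L)‖ * 1 := by
        gcongr
        exact IsUltrametricDist.norm_intCast_le_one _ c
    _ < 1 := by rw [mul_one]; exact D.hp1

/-- `φ^(E k) y = p^k y'` with `y' ∈ O n`, `E = p^(n-1)(p-1)`. PROOF. `u = φ^E / p` is equivariant
with `‖u 1‖ = 1` (`phi_e`), so `u ∈ O n` (`mem_O_of_Eqv`), `y' = u^k y`. -/
theorem phi_pow_p (n : ℕ) (hn : 1 ≤ n) (k : ℕ) (y : (ZMod (p ^ n))ˣ → L) (hy : y ∈ D.O n) :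
    ∃ y' ∈ D.O n, ∀ a, D.φ n a ^ (p ^ (n - 1) * (p - 1) * k) * y a = (p : L) ^ k * y' a := by
  have hu : (fun a => D.φ n a ^ (p ^ (n - 1) * (p - 1)) / (p : L)) ∈ D.O n := by
    apply mem_O_of_Eqv D n hn
    · intro σ hσ c hc a
      have h := Eqv_of_mem D n _ (l4_phi_mem D n) σ hσ c hc a
      simp only [map_div₀, map_pow, map_natCast, h]
    · rw [norm_div, norm_pow, l4_phi_one D n hn, phi_e D n hn, div_self]
      exact norm_ne_zero_iff.2 D.hp0
  refine ⟨(fun a => D.φ n a ^ (p ^ (n - 1) * (p - 1)) / (p : L)) ^ k * y,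
    (D.O n).mul_mem ((D.O n).pow_mem hu k) hy, fun a => ?_⟩
  have hp0 := D.hp0
  simp only [Pi.mul_apply, Pi.pow_apply, div_pow, pow_mul]
  field_simp

/-- The value of `ell` on `φ^J y`, `(p-1) ∣ J`. PROOF. `eigen` with `Q = D.O n` (the subring as a
type), `ℓ` = `ell` restricted (`ell_add`), `φ = ⟨D.φ n, _⟩`, `η = D.eta (n+1) χ`,
`A y = θ y(onep · a)` (in `O n`: `O_shift`, `theta_shape`), `hA`: `ell_shift` (`η + 1 = χ⁻¹(1+p)`),
`hshape`: `shape`; `‖(i : L)‖ = 1` as `1 ≤ i < p` (`p ∤ i`: `i u = 1 + p v`), `hη`: `eta_norm`,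
`phi_pos`; `hb`: `ell_congr` and `O_norm`; `hlim`: `phi_pow_p`, `ell_smul`. Then
`(η/i)^J = η^J / i^J`, `‖i^J - 1‖ < 1` (Fermat: `p ∣ i^(p-1) - 1`, `(p-1) ∣ J`), and
`‖ell y - y 1‖ < 1` (`ell_congr`). -/
theorem ell_phi (hp3 : 3 ≤ p) (n : ℕ) (hn : 1 ≤ n) (χ : DirichletCharacter L (p ^ (n + 1)))
    (hχ : χ.IsPrimitive) (h1 : χ ^ (p ^ n) = 1) (i : ℕ) (hi : 1 ≤ i) (hip : i < p)
    (J : ℕ) (hJ : (p - 1) ∣ J) (y : (ZMod (p ^ n))ˣ → L) (hy : y ∈ D.O n) :
    ‖D.ell n χ i (fun a => D.φ n a ^ J * y a) - D.eta (n + 1) χ ^ J * y 1‖ <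
      ‖D.eta (n + 1) χ‖ ^ J := by
  have hphi := phi_pos D n hn
  have heta := eta_norm D hp3 n hn χ hχ h1
  have hη0 : 0 < ‖D.eta (n + 1) χ‖ := by rw [heta]; exact hphi.1
  have hη1 : ‖D.eta (n + 1) χ‖ < 1 := by rw [heta]; exact hphi.2
  have hi1 : ‖(i : L)‖ = 1 := l4_norm_nat D i hi hip
  have hi0 : (i : L) ≠ 0 := by
    rw [← norm_ne_zero_iff, hi1]; exact one_ne_zero
  have hbd : ∀ f ∈ D.O n, ‖D.ell n χ i f‖ ≤ 1 := by
    intro f hf
    have h2 := ell_congr D n hn χ hχ h1 i hi hip f hf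
    have h3 := (O_norm D n hn f hf 1).1
    have h4 : D.ell n χ i f = (D.ell n χ i f - f 1) + f 1 := by ring
    rw [h4]
    exact (IsUltrametricDist.norm_add_le_max _ _).trans (max_le h2.le h3)
  let ℓ : D.O n →+ L :=
    { toFun := fun f => D.ell n χ i f.1
      map_zero' := by
        change D.ell n χ i (fun _ => (0 : L)) = 0
        have := ell_smul D n χ i 0 (fun _ => (0 : L))
        simpa using this
      map_add' := fun f g => ell_add D n χ i f.1 g.1 }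
  let φ : D.O n := ⟨D.φ n, l4_phi_mem D n⟩
  let A : D.O n → D.O n := fun y => ⟨_, (D.O n).mul_mem (l4_theta_mem D n i)
    (O_shift D n (onep p n) y.1 y.2)⟩
  have hE := eigen ℓ φ (D.eta (n + 1) χ) i A
    (by
      intro y
      have := ell_shift D n χ i y.1
      rw [show D.eta (n + 1) χ + 1 = χ⁻¹ (1 + (p : ZMod (p ^ (n + 1)))) by
        simp [LTD.eta]]
      exact this)
    (by
      intro m y
      obtain ⟨z, hz, hz2⟩ := shape D hp3 n hn i m y.1 y.2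
      refine ⟨⟨z, hz⟩, ?_⟩
      apply Subtype.ext
      funext a
      exact hz2 a)
    hi1 hη0 hη1 (fun y => hbd y.1 y.2)
    (by
      intro ε hε
      obtain ⟨k, hk⟩ := exists_pow_lt_of_lt_one hε D.hp1
      refine ⟨p ^ (n - 1) * (p - 1) * k, fun y => ?_⟩
      obtain ⟨y', hy', hyy⟩ := phi_pow_p D n hn k y.1 y.2
      have h5 : ℓ (φ ^ (p ^ (n - 1) * (p - 1) * k) * y) = (p : L) ^ k * D.ell n χ i y' := by
        rw [← ell_smul]
        change D.ell n χ i _ = _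
        congr 1
        funext a
        exact hyy a
      rw [h5, norm_mul, norm_pow]
      calc ‖(p : L)‖ ^ k * ‖D.ell n χ i y'‖ ≤ ‖(p : L)‖ ^ k * 1 := by
            gcongr
            exact hbd y' hy'
        _ < ε := by rw [mul_one]; exact hk)
    J ⟨y, hy⟩
  have hE1 : ‖D.ell n χ i (fun a => D.φ n a ^ J * y a) -
      (D.eta (n + 1) χ / i) ^ J * D.ell n χ i y‖ < ‖D.eta (n + 1) χ‖ ^ J := by
    refine lt_of_le_of_lt hE ?_
    rw [pow_succ]
    exact mul_lt_of_lt_one_right (pow_pos hη0 J) hη1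
  have hc := ell_congr D n hn χ hχ h1 i hi hip y hy
  have hy1 := (O_norm D n hn y hy 1).1
  have hF := l4_fermat D i J hi hip hJ
  have hE2 : ‖(D.eta (n + 1) χ / i) ^ J * D.ell n χ i y - D.eta (n + 1) χ ^ J * y 1‖ <
      ‖D.eta (n + 1) χ‖ ^ J := by
    have e : (D.eta (n + 1) χ / i) ^ J * D.ell n χ i y - D.eta (n + 1) χ ^ J * y 1 =
        D.eta (n + 1) χ ^ J * (((D.ell n χ i y - y 1) + (-(((i : L) ^ J - 1) * y 1))) / (i : L) ^ J) := by
      have hiJ : (i : L) ^ J ≠ 0 := pow_ne_zero _ hi0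
      rw [div_pow, mul_div_assoc', eq_div_iff hiJ, sub_mul, div_mul_eq_mul_div, div_mul_cancel₀ _ hiJ]
      ring
    rw [e, norm_mul, norm_pow]
    apply mul_lt_of_lt_one_right (pow_pos hη0 J)
    rw [norm_div, norm_pow, hi1, one_pow, div_one]
    refine (IsUltrametricDist.norm_add_le_max _ _).trans_lt (max_lt hc ?_)
    rw [norm_neg, norm_mul]
    calc ‖(i : L) ^ J - 1‖ * ‖y 1‖ ≤ ‖(i : L) ^ J - 1‖ * 1 := by gcongr
      _ < 1 := by rw [mul_one]; exact hF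
  have e2 : D.ell n χ i (fun a => D.φ n a ^ J * y a) - D.eta (n + 1) χ ^ J * y 1 =
      (D.ell n χ i (fun a => D.φ n a ^ J * y a) - (D.eta (n + 1) χ / i) ^ J * D.ell n χ i y) +
      ((D.eta (n + 1) χ / i) ^ J * D.ell n χ i y - D.eta (n + 1) χ ^ J * y 1) := by ring
  rw [e2]
  exact (IsUltrametricDist.norm_add_le_max _ _).trans_lt (max_lt hE1 hE2)

end SSF
end

-- from Lib.SSG.F.W1
section

/-! # SSG/F/W1 : the step from `w_N` to `w_(N+1)` modulo the maximal ideal -/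

open Polynomial
open scoped Classical

namespace SSF

variable {p : ℕ} [Fact p.Prime] {R : ℕ → Type} [∀ N, CommRing (R N)] [∀ N, Fintype (R N)]
  {L : Type} [NormedField L] [IsUltrametricDist L] (D : LTD p R L)

theorem w1_nontriv : Nontrivial D.κ := by
  refine ⟨⟨0, 1, ?_⟩⟩
  intro h
  have h1 : D.res 1 = 0 := by rw [map_one]; exact h.symm
  rw [res_eq_zero_iff] at h1
  have h2 : ((1 : D.W) : L) = 1 := rfl
  rw [h2, norm_one] at h1
  exact lt_irrefl _ h1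

theorem w1_char : CharP D.κ p := by
  have := w1_nontriv D
  exact (CharP.charP_iff_prime_eq_zero (Fact.out : p.Prime)).2 (kappa_p D)

theorem w1_ev_pow (w : D.W[X]) (x : L) (k : ℕ) : D.ev (w ^ k) x = D.ev w x ^ k := by
  simp [LTD.ev, eval₂_pow]

theorem w1_res_F (w w' : D.W[X]) :
    (w ^ p - w'.comp (X ^ (p ^ 2) - C (p : D.W) * X)).map D.res =
      (w.map D.res) ^ p - (w'.map D.res).comp (X ^ (p ^ 2)) := by
  have h : D.res (p : D.W) = 0 := by
    rw [map_natCast]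
    exact kappa_p D
  rw [Polynomial.map_sub, Polynomial.map_pow, Polynomial.map_comp, Polynomial.map_sub,
    Polynomial.map_pow, Polynomial.map_mul, Polynomial.map_C, Polynomial.map_X, h, map_zero,
    zero_mul, sub_zero]

/-- The coefficients of `w_(N+1)` and `w_N` (`N = M + 1 ≥ 1`): for `p i < E = p^(2(M+1))(p^2-1)`
`res(a_i)^p = res(a'_(i/p))` if `p ∣ i`, and `= 0` otherwise. PROOF. Put `t = X (M+2) 1`,
`‖t‖^E = ‖p‖` (`norm_X`, `1` is a unit). `F = w^p - w'.comp (X^q - p X)` in `W[X]` vanishes at `t`: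
`w(t)^p = ζ_(M+2)^p = ζ_(M+1)` (`nm 1 = 1`, `D.ζp`) and `w'(t^q - p t) = w'(X (M+1) (red 1)) =
ζ_(M+1)` (`D.Xg`). The terms `F_j t^j` with `j ≥ E` have norm `≤ ‖t‖^E = ‖p‖`, so
`‖sum_(j<E) F_j t^j‖ ≤ ‖p‖` and `‖F_j‖ < 1`, i.e. `res F_j = 0`, for all `j < E`
(`basis_small`). In `κ[X]` (characteristic `p`, `kappa_p`): `(w^p).map res = (w.map res)^p =
sum res(a_i)^p X^(p i)` (`Polynomial.expand_char`-like / `Polynomial.map_frobenius_expand` :
`expand κ p (map (frobenius κ p) f) = f^p`) and `(w'.comp (X^q - p X)).map res =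
(w'.map res).comp (X^q)` (`expand`), whose coefficient at `p i` is `res (a'_(i/p))` if `q ∣ p i`
and `0` otherwise (`Polynomial.coeff_expand`, `q = p^2`, `p^2 ∣ p i ↔ p ∣ i`). -/
theorem w_step (M : ℕ) (w w' : D.W[X]) (hw : D.IsW (M + 2) w) (hw' : D.IsW (M + 1) w') (i : ℕ)
    (hi : p * i < p ^ (2 * (M + 1)) * (p ^ 2 - 1)) :
    D.res (w.coeff i) ^ p = if p ∣ i then D.res (w'.coeff (i / p)) else 0 := by
  have hpp : p.Prime := Fact.out
  have hp2 : 2 ≤ p := hpp.two_le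
  set E : ℕ := p ^ (2 * (M + 1)) * (p ^ 2 - 1) with hE
  have hE0 : 0 < E := by
    have h1 : 0 < p ^ (2 * (M + 1)) := by positivity
    have h2 : 0 < p ^ 2 - 1 := by
      have : 2 * 2 ≤ p ^ 2 := by nlinarith
      omega
    exact Nat.mul_pos h1 h2
  have hF1 : Fact (1 < p ^ (M + 2)) := ⟨Nat.one_lt_pow (by omega) (by omega)⟩
  have hF2 : Fact (1 < p ^ (M + 1)) := ⟨Nat.one_lt_pow (by omega) (by omega)⟩
  set t : L := D.X (M + 2) 1 with ht
  have htE : ‖t‖ ^ E = ‖(p : L)‖ := norm_X D (M + 1) 1 isUnit_one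
  have ht1 : ‖t‖ < 1 := norm_X_lt D (M + 1) 1 isUnit_one
  set Fp : D.W[X] := w ^ p - w'.comp (X ^ (p ^ 2) - C (p : D.W) * X) with hFp
  have hev : D.ev Fp t = 0 := by
    have h1 : D.ev w t = D.ζ (M + 2) := by
      rw [hw.2 1 isUnit_one, map_one, ZMod.val_one, pow_one]
    have h2 : D.ev w' (D.X (M + 1) (D.red (M + 1) 1)) = D.ζ (M + 1) := by
      rw [map_one, hw'.2 1 isUnit_one, map_one, ZMod.val_one, pow_one]
    have h3 : D.ev (w'.comp (X ^ (p ^ 2) - C (p : D.W) * X)) t =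
        D.ev w' (t ^ (p ^ 2) - (p : L) * t) := by
      unfold LTD.ev
      rw [eval₂_comp]
      congr 1
      simp
    have h4 : D.ev Fp t = D.ev (w ^ p) t - D.ev (w'.comp (X ^ (p ^ 2) - C (p : D.W) * X)) t := by
      unfold LTD.ev
      rw [hFp, eval₂_sub]
    rw [h4, w1_ev_pow, h1, h3, ht, D.Xg, h2]
    rw [D.ζp, sub_self]
  have hsmall : ∀ j < E, D.res (Fp.coeff j) = 0 := by
    intro j hj
    rw [res_eq_zero_iff]
    refine basis_small D t E hE0 htE (fun j => (Fp.coeff j : L)) (fun i => (Fp.coeff i).2.1) ?_ j hj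
    set N₁ : ℕ := max E (Fp.natDegree + 1) with hN₁
    have h1 : ∑ j ∈ Finset.range N₁, (Fp.coeff j : L) * t ^ j = 0 := by
      rw [← hev, LTD.ev, eval₂_eq_sum_range' D.W.subtype
        (lt_of_lt_of_le (Nat.lt_succ_self _) (le_max_right E _)) t]
      rfl
    have h2 := Finset.sum_range_add_sum_Ico (fun j => (Fp.coeff j : L) * t ^ j)
      (le_max_left E (Fp.natDegree + 1))
    rw [← hN₁, h1] at h2
    rw [eq_neg_of_add_eq_zero_left h2, norm_neg]
    refine IsUltrametricDist.norm_sum_le_of_forall_le_of_nonneg (norm_nonneg _) fun k hk => ?_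
    rw [norm_mul, norm_pow, ← htE]
    have hkE : E ≤ k := (Finset.mem_Ico.1 hk).1
    calc ‖(Fp.coeff k : L)‖ * ‖t‖ ^ k ≤ 1 * ‖t‖ ^ E := by
          refine mul_le_mul (Fp.coeff k).2.2 ?_ (by positivity) zero_le_one
          exact pow_le_pow_of_le_one (norm_nonneg _) ht1.le hkE
      _ = ‖t‖ ^ E := one_mul _
  have h1 := hsmall (p * i) hi
  rw [← Polynomial.coeff_map, hFp, w1_res_F, coeff_sub, sub_eq_zero] at h1
  have hch := w1_char D
  have hex : ExpChar D.κ p := ExpChar.prime hpp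
  have h2 : ((w.map D.res) ^ p).coeff (p * i) = D.res (w.coeff i) ^ p := by
    rw [← Polynomial.map_frobenius_expand, Polynomial.coeff_map, mul_comm p i,
      Polynomial.coeff_expand_mul hpp.pos, Polynomial.coeff_map, frobenius_def]
  rw [h2] at h1
  rw [h1, ← Polynomial.expand_eq_comp_X_pow, Polynomial.coeff_expand (by positivity)]
  have h3 : p ^ 2 ∣ p * i ↔ p ∣ i := by
    rw [sq]
    exact Nat.mul_dvd_mul_iff_left hpp.pos
  have h4 : p * i / p ^ 2 = i / p := by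
    rw [sq]
    exact Nat.mul_div_mul_left _ _ hpp.pos
  rw [h4, Polynomial.coeff_map]
  by_cases h5 : p ∣ i
  · rw [if_pos h5, if_pos (h3.2 h5)]
  · rw [if_neg h5, if_neg (fun h => h5 (h3.1 h))]

end SSF
end

-- from Lib.SSG.F.W2
section

/-! # SSG/F/W2 : the coefficients of `w_1` -/

open Polynomial
open scoped Classical

namespace SSF

variable {p : ℕ} [Fact p.Prime] {R : ℕ → Type} [∀ N, CommRing (R N)] [∀ N, Fintype (R N)]
  {L : Type} [NormedField L] [IsUltrametricDist L] (D : LTD p R L)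

omit [Fact p.Prime] in
theorem w2_pow_sub {x y : L} {ρ : ℝ} (hx : ‖x‖ ≤ ρ) (hy : ‖y‖ ≤ ρ) (m : ℕ) :
    ‖x ^ (m + 1) - y ^ (m + 1)‖ ≤ ‖x - y‖ * ρ ^ m := by
  have hρ : 0 ≤ ρ := (norm_nonneg x).trans hx
  induction m with
  | zero => simp
  | succ m ih =>
    have e : x ^ (m + 1 + 1) - y ^ (m + 1 + 1) =
        x * (x ^ (m + 1) - y ^ (m + 1)) + (x - y) * y ^ (m + 1) := by ring
    rw [e]
    refine (IsUltrametricDist.norm_add_le_max _ _).trans (max_le ?_ ?_)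
    · rw [norm_mul]
      calc ‖x‖ * ‖x ^ (m + 1) - y ^ (m + 1)‖ ≤ ρ * (‖x - y‖ * ρ ^ m) := by
            gcongr
        _ = ‖x - y‖ * ρ ^ (m + 1) := by ring
    · rw [norm_mul, norm_pow]
      gcongr

omit [Fact p.Prime] in
/-- elements of `k` of norm less than one have norm at most `‖p‖`. -/
theorem w2_gap {x : L} (hx : x ∈ D.k) (h : ‖x‖ < 1) : ‖x‖ ≤ ‖(p : L)‖ := by
  by_cases h0 : x = 0
  · rw [h0, norm_zero]
    exact norm_nonneg _
  · obtain ⟨n, hn⟩ := D.kval x hx h0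
    have hp0 : 0 < ‖(p : L)‖ := norm_pos_iff.2 D.hp0
    have h1 : 1 ≤ n := by
      by_contra hcon
      have h2 : n ≤ 0 := by omega
      rw [hn] at h
      have h3 : 1 ≤ ‖(p : L)‖ ^ n := by
        have := zpow_le_zpow_right_of_le_one₀ hp0 D.hp1.le h2
        rwa [zpow_zero] at this
      linarith
    rw [hn]
    have := zpow_le_zpow_right_of_le_one₀ hp0 D.hp1.le h1
    rwa [zpow_one] at this

/-- `w_1 = 1 + c Z^(p+1) + ..` modulo the maximal ideal, `c^(p-1) = -1`. PROOF. `t = X 1 1`,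
`‖t‖^(q-1) = ‖p‖`, in fact `t^(q-1) = p` (`t ≠ 0`, `t^q - p t = X 0 (red 1) = 0` as `R 0` has one
element and `X 0 0 = 0`). `φ = ζ_1 - 1 = w(t) - 1` (`nm 1 = 1`, `(1 : ZMod (p^1)).val = 1`) and
`‖φ‖^(p-1) = ‖p‖` (`phi_e`), so `‖φ‖ = ‖t‖^(p+1)` (equal `(p-1)`-th powers, `q - 1 = (p-1)(p+1)`).
`deg w < q - 1`, so `φ = (a_0 - 1) + sum_(0<i<q-1) a_i t^i` and by `basis_norm` (coefficients
`a_0 - 1`, `a_i`) `‖a_0 - 1‖ ≤ ‖t‖^(p+1) < 1` and `‖a_i‖ ‖t‖^i ≤ ‖t‖^(p+1)`, so `‖a_i‖ < 1` for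
`0 < i < p + 1`; elements of `W` of norm `< 1` have norm `≤ ‖p‖ = ‖t‖^(q-1)` (`D.kval`), and
`q - 1 > p + 1`. So all terms other than `c t^(p+1)`, `c = a_(p+1)`, have norm `< ‖t‖^(p+1)`
(for `i > p + 1`: `‖t^i‖ ≤ ‖t‖^(p+2)`): `‖φ - c t^(p+1)‖ < ‖t‖^(p+1)`, so `‖c‖ = 1`. Hence
`‖φ^(p-1) - c^(p-1) t^(q-1)‖ < ‖p‖` with `t^(q-1) = p`, and `‖φ^(p-1) + p‖ < ‖p‖` (`prim_one` for
`ζ 1`, `p ^ 1 = p`). So `‖c^(p-1) + 1‖ < 1`. -/
theorem w_base (hp3 : 3 ≤ p) (w : D.W[X]) (hw : D.IsW 1 w) :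
    D.res (w.coeff 0) = 1 ∧ (∀ i, 0 < i → i < p + 1 → D.res (w.coeff i) = 0) ∧
      D.res (w.coeff (p + 1)) ^ (p - 1) = -1 := by
  have hpp : p.Prime := Fact.out
  have hF1 : Fact (1 < p ^ 1) := ⟨by rw [pow_one]; exact hpp.one_lt⟩
  set E : ℕ := p ^ 2 - 1 with hE
  obtain ⟨m, hm⟩ : ∃ m, p = m + 1 := ⟨p - 1, by omega⟩
  have hpm : p - 1 = m := by omega
  have hEm : E = (p + 1) * (p - 1) := by
    rw [hE, hpm, hm]
    have : (m + 1) ^ 2 = (m + 1 + 1) * m + 1 := by ring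
    omega
  have hEp : p + 1 < E := by
    rw [hEm]
    nlinarith [show 2 ≤ p - 1 by omega]
  have hE0 : 0 < E := by omega
  set t : L := D.X 1 1 with ht
  have htE : ‖t‖ ^ E = ‖(p : L)‖ := by
    have h1 := norm_X D 0 1 isUnit_one
    rw [mul_zero, pow_zero, one_mul] at h1
    exact h1
  have ht1 : ‖t‖ < 1 := norm_X_lt D 0 1 isUnit_one
  have hp0 : 0 < ‖(p : L)‖ := norm_pos_iff.2 D.hp0
  have ht0 : 0 < ‖t‖ := by
    rcases (norm_nonneg t).lt_or_eq with h1 | h1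
    · exact h1
    · rw [← h1, zero_pow hE0.ne'] at htE
      rw [← htE] at hp0
      exact absurd hp0 (lt_irrefl _)
  have htne : t ≠ 0 := norm_pos_iff.1 ht0
  have htp : t ^ E = (p : L) := by
    have hsub : D.red 0 1 = 0 := by
      have h1 : Subsingleton (R 0) := (Nat.card_eq_one_iff_unique.1 D.card0).1
      exact Subsingleton.elim _ _
    have h1 := D.Xg 0 1
    rw [hsub, D.X0, sub_eq_zero] at h1
    have h2 : t ^ E * t = (p : L) * t := by
      rw [← pow_succ]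
      have : E + 1 = p ^ 2 := by
        have : 1 ≤ p ^ 2 := Nat.one_le_pow _ _ hpp.pos
        omega
      rw [this]
      exact h1
    exact mul_right_cancel₀ htne h2
  set φ : L := D.ζ 1 - 1 with hφ
  have hφn : ‖φ‖ ^ (p - 1) = ‖(p : L)‖ := by
    have h1 := phi_e D 1 le_rfl
    rw [Nat.sub_self, pow_zero, one_mul] at h1
    exact h1
  have hφt : ‖φ‖ = ‖t‖ ^ (p + 1) := by
    have h1 : ‖φ‖ ^ (p - 1) = (‖t‖ ^ (p + 1)) ^ (p - 1) := by
      rw [hφn, ← pow_mul, ← hEm, htE]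
    exact (pow_left_inj₀ (norm_nonneg _) (by positivity) (by omega)).1 h1
  have hev : D.ev w t = D.ζ 1 := by
    rw [hw.2 1 isUnit_one, map_one, ZMod.val_one, pow_one]
  have hdeg : w.natDegree < E := by
    have h1 := hw.1
    rw [Nat.sub_self, mul_zero, pow_zero, one_mul] at h1
    exact h1
  set a : ℕ → L := fun i => if i = 0 then (w.coeff 0 : L) - 1 else (w.coeff i : L) with ha
  have ha0 : a 0 = (w.coeff 0 : L) - 1 := rfl
  have hai : ∀ i, 0 < i → a i = (w.coeff i : L) := fun i hi => if_neg hi.ne'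
  have hak : ∀ i, a i ∈ D.k := by
    intro i
    by_cases hi : i = 0
    · rw [hi, ha0]
      exact D.k.sub_mem (w.coeff 0).2.1 D.k.one_mem
    · rw [hai i (Nat.pos_of_ne_zero hi)]
      exact (w.coeff i).2.1
  obtain ⟨E', hE'⟩ : ∃ E', E = E' + 1 := ⟨E - 1, by omega⟩
  have hsum : ∑ i ∈ Finset.range E, a i * t ^ i = φ := by
    have h1 : D.ev w t = ∑ i ∈ Finset.range E, (w.coeff i : L) * t ^ i := by
      rw [LTD.ev, eval₂_eq_sum_range' D.W.subtype hdeg t]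
      rfl
    rw [hφ, ← hev, h1, hE', Finset.sum_range_succ', Finset.sum_range_succ', ha0]
    have h2 : ∑ k ∈ Finset.range E', a (k + 1) * t ^ (k + 1) =
        ∑ k ∈ Finset.range E', (w.coeff (k + 1) : L) * t ^ (k + 1) := by
      refine Finset.sum_congr rfl fun k _ => ?_
      rw [hai (k + 1) (Nat.succ_pos k)]
    rw [h2, pow_zero]
    ring
  obtain ⟨hb, -⟩ := basis_norm D t E hE0 htE a hak
  rw [hsum, hφt] at hb
  have hc0 : ‖a 0‖ < 1 := by
    have h1 := hb 0 hE0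
    rw [pow_zero, mul_one] at h1
    exact h1.trans_lt (pow_lt_one₀ (norm_nonneg _) ht1 (by omega))
  have hci : ∀ i, 0 < i → i < p + 1 → ‖a i‖ < 1 := by
    intro i hi hi2
    have h1 := hb i (hi2.trans hEp)
    have h2 : ‖t‖ ^ (p + 1) = ‖t‖ ^ (p + 1 - i) * ‖t‖ ^ i := by
      rw [← pow_add]
      congr 1
      omega
    rw [h2] at h1
    have h3 := le_of_mul_le_mul_right h1 (pow_pos ht0 i)
    exact h3.trans_lt (pow_lt_one₀ (norm_nonneg _) ht1 (by omega))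
  refine ⟨?_, ?_, ?_⟩
  · have h1 : D.res (w.coeff 0 - 1) = 0 := by
      rw [res_eq_zero_iff]
      exact hc0
    rw [map_sub, map_one, sub_eq_zero] at h1
    exact h1
  · intro i hi hi2
    rw [res_eq_zero_iff, ← hai i hi]
    exact hci i hi hi2
  set c : L := (w.coeff (p + 1) : L) with hc
  have hcle : ‖c‖ ≤ 1 := (w.coeff (p + 1)).2.2
  have hlt : ‖φ - c * t ^ (p + 1)‖ < ‖t‖ ^ (p + 1) := by
    have h1 : φ - c * t ^ (p + 1) =
        ∑ i ∈ (Finset.range E).erase (p + 1), a i * t ^ i := by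
      rw [← hsum, ← Finset.sum_erase_add (Finset.range E) _ (Finset.mem_range.2 hEp),
        hai (p + 1) (Nat.succ_pos p)]
      ring
    rw [h1]
    have h2 : ‖∑ i ∈ (Finset.range E).erase (p + 1), a i * t ^ i‖ ≤ ‖t‖ ^ (p + 2) := by
      refine IsUltrametricDist.norm_sum_le_of_forall_le_of_nonneg (by positivity) fun i hi => ?_
      rw [Finset.mem_erase, Finset.mem_range] at hi
      rw [norm_mul, norm_pow]
      rcases lt_or_gt_of_ne hi.1 with h3 | h3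
      · have h4 : ‖a i‖ ≤ ‖(p : L)‖ := by
          refine w2_gap D (hak i) ?_
          by_cases h5 : i = 0
          · rw [h5]
            exact hc0
          · exact hci i (Nat.pos_of_ne_zero h5) h3
        calc ‖a i‖ * ‖t‖ ^ i ≤ ‖(p : L)‖ * 1 := by
              refine mul_le_mul h4 (pow_le_one₀ (norm_nonneg _) ht1.le) (by positivity)
                (norm_nonneg _)
          _ = ‖t‖ ^ E := by rw [mul_one, htE]
          _ ≤ ‖t‖ ^ (p + 2) := pow_le_pow_of_le_one (norm_nonneg _) ht1.le (by omega)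
      · rw [hai i (by omega)]
        calc ‖(w.coeff i : L)‖ * ‖t‖ ^ i ≤ 1 * ‖t‖ ^ (p + 2) := by
              refine mul_le_mul (w.coeff i).2.2 ?_ (by positivity) zero_le_one
              exact pow_le_pow_of_le_one (norm_nonneg _) ht1.le (by omega)
          _ = ‖t‖ ^ (p + 2) := one_mul _
    exact h2.trans_lt (pow_lt_pow_right_of_lt_one₀ ht0 ht1 (by omega))
  have hpow : ‖φ ^ (p - 1) - (c * t ^ (p + 1)) ^ (p - 1)‖ < ‖(p : L)‖ := by
    obtain ⟨m', hm'⟩ : ∃ m', p - 1 = m' + 1 := ⟨p - 2, by omega⟩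
    have h1 : ‖c * t ^ (p + 1)‖ ≤ ‖t‖ ^ (p + 1) := by
      rw [norm_mul, norm_pow]
      calc ‖c‖ * ‖t‖ ^ (p + 1) ≤ 1 * ‖t‖ ^ (p + 1) := by gcongr
        _ = ‖t‖ ^ (p + 1) := one_mul _
    have h2 := w2_pow_sub hφt.le h1 m'
    rw [hm']
    refine h2.trans_lt ?_
    have h3 : ‖(p : L)‖ = ‖t‖ ^ (p + 1) * (‖t‖ ^ (p + 1)) ^ m' := by
      rw [← pow_succ', ← pow_mul, ← hm', ← hEm, htE]
    rw [h3]
    exact mul_lt_mul_of_pos_right hlt (by positivity)
  have hprim : ‖φ ^ (p - 1) + (p : L)‖ < ‖(p : L)‖ := by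
    have h1 := D.ζprim 1
    rw [pow_one] at h1
    exact prim_one (D.ζ 1) h1 D.hp0 D.hp1
  have hcp : (c * t ^ (p + 1)) ^ (p - 1) = c ^ (p - 1) * (p : L) := by
    rw [mul_pow, ← pow_mul, ← hEm, htp]
  have hfin : ‖(p : L) * (c ^ (p - 1) + 1)‖ < ‖(p : L)‖ := by
    have e : (p : L) * (c ^ (p - 1) + 1) =
        (φ ^ (p - 1) + (p : L)) + ((c * t ^ (p + 1)) ^ (p - 1) - φ ^ (p - 1)) := by
      rw [hcp]
      ring
    rw [norm_sub_rev] at hpow
    rw [e]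
    exact (IsUltrametricDist.norm_add_le_max _ _).trans_lt (max_lt hprim hpow)
  rw [norm_mul] at hfin
  have hfin2 : ‖c ^ (p - 1) + 1‖ < 1 := by
    by_contra hcon
    push Not at hcon
    have := mul_le_mul_of_nonneg_left hcon hp0.le
    linarith
  have hres : D.res (w.coeff (p + 1) ^ (p - 1) + 1) = 0 := by
    rw [res_eq_zero_iff]
    push_cast
    exact hfin2
  rw [map_add, map_pow, map_one] at hres
  exact eq_neg_of_add_eq_zero_left hres

end SSF
end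

-- from Lib.SSG.F.W3
section

/-! # SSG/F/W3 : the coefficients of `w_N` -/

open Polynomial
open scoped Classical

namespace SSF

variable {p : ℕ} [Fact p.Prime] {R : ℕ → Type} [∀ N, CommRing (R N)] [∀ N, Fintype (R N)]
  {L : Type} [NormedField L] [IsUltrametricDist L] (D : LTD p R L)

/-- `κ` is reduced: `x ^ p = 0` implies `x = 0` (lift to `W`: `‖a^p‖ < 1` implies `‖a‖ < 1`);
and `(x + y)^p = x^p + y^p` (characteristic `p`). -/
theorem kappa_red (x : D.κ) (h : x ^ p = 0) : x = 0 := by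
  obtain ⟨a, rfl⟩ := Ideal.Quotient.mk_surjective x
  have h1 : D.res (a ^ p) = 0 := by
    rw [map_pow]
    exact h
  rw [res_eq_zero_iff] at h1
  have h2 : D.res a = 0 := by
    rw [res_eq_zero_iff]
    by_contra hc
    push Not at hc
    have h3 : 1 ≤ ‖(a : L)‖ ^ p := one_le_pow₀ hc
    have h4 : ‖((a ^ p : D.W) : L)‖ = ‖(a : L)‖ ^ p := by
      rw [Subring.coe_pow, norm_pow]
    rw [h4] at h1
    linarith
  exact h2

theorem w3_char : CharP D.κ p := by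
  have hne : Nontrivial D.κ := by
    rw [Ideal.Quotient.nontrivial_iff]
    intro htop
    have h1 : (1 : D.W) ∈ D.m := by
      rw [htop]
      exact Submodule.mem_top
    have h2 : ‖((1 : D.W) : L)‖ < 1 := h1
    simp at h2
  exact (CharP.charP_iff_prime_eq_zero (Fact.out : p.Prime)).mpr (kappa_p D)

theorem w3_add (x y : D.κ) : (x + y) ^ p = x ^ p + y ^ p := by
  have := w3_char D
  exact add_pow_char x y p

theorem w3_sub (x y : D.κ) : (x - y) ^ p = x ^ p - y ^ p := by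
  have := w3_char D
  exact sub_pow_char x y

/-- The coefficients of `w_(M+1)` modulo the maximal ideal, in degrees `< p^M (p^2 - 1)`: they are
`1` in degree `0`; `0` in degrees not divisible by `p^M` and in degrees between `0` and
`p^M (p+1)`; and `c^(p-1) = -1` for the one of degree `p^M (p+1)`. PROOF. Induction on `M`, start
`w_base`. Step: take `w'` from `exists_w M` and use `w_step` (note
`p · i < p^(2(M+1)) (p^2-1)` for `i < p^(M+1) (p^2-1)`, because `p · p^(M+1) ≤ p^(2(M+1))`):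
`res(a_0)^p = res(a'_0) = 1`, so `(res a_0 - 1)^p = 0` (`sub_pow_char`-like, `kappa_red`) and
`res a_0 = 1`. If `p ∤ i` then `res(a_i)^p = 0`. If `i = p j`: `res(a_i)^p = res(a'_j)`, and
`p^(M+1) ∣ i` iff `p^M ∣ j`, `i < p^(M+1)(p+1)` iff `j < p^M(p+1)`. For `i = p^(M+1)(p+1)`:
`(c^(p-1))^p = c'^(p-1) = -1 = (-1)^p` (`p` odd), so `(c^(p-1) + 1)^p = 0`. -/
theorem w_coeff (hp3 : 3 ≤ p) (M : ℕ) (w : D.W[X]) (hw : D.IsW (M + 1) w) :
    D.res (w.coeff 0) = 1 ∧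
      (∀ i, 0 < i → i < p ^ M * (p ^ 2 - 1) → (¬ p ^ M ∣ i ∨ i < p ^ M * (p + 1)) →
        D.res (w.coeff i) = 0) ∧
      D.res (w.coeff (p ^ M * (p + 1))) ^ (p - 1) = -1 := by
  have hp : p.Prime := Fact.out
  have hp0 : 0 < p := hp.pos
  have hsq : p ^ 2 - 1 = (p - 1) * (p + 1) := by
    obtain ⟨k, rfl⟩ : ∃ k, p = k + 1 := ⟨p - 1, by omega⟩
    have : (k + 1) ^ 2 = k * (k + 1 + 1) + 1 := by ring
    rw [this]
    simp
  have hsq1 : p + 1 < p ^ 2 - 1 := by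
    rw [hsq]
    have h2 : 2 ≤ p - 1 := by omega
    nlinarith
  induction M generalizing w with
  | zero =>
    obtain ⟨a1, a2, a3⟩ := w_base D hp3 w hw
    refine ⟨a1, ?_, ?_⟩
    · intro i hi0 _ hi
      rw [pow_zero, one_mul] at hi
      rcases hi with hi | hi
      · exact absurd (one_dvd i) hi
      · exact a2 i hi0 hi
    · rw [pow_zero, one_mul]
      exact a3
  | succ M ih =>
    obtain ⟨w', hw'⟩ := exists_w D M
    obtain ⟨b1, b2, b3⟩ := ih w' hw'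
    have hstep := fun i hi => w_step D M w w' hw hw' i hi
    have hP : 0 < p ^ M := pow_pos hp0 M
    have hbig : ∀ i, i < p ^ (M + 1) * (p ^ 2 - 1) → p * i < p ^ (2 * (M + 1)) * (p ^ 2 - 1) := by
      intro i hi
      have h1 : p * i < p * (p ^ (M + 1) * (p ^ 2 - 1)) := Nat.mul_lt_mul_of_pos_left hi hp0
      have h2 : p * (p ^ (M + 1) * (p ^ 2 - 1)) = p ^ (M + 2) * (p ^ 2 - 1) := by
        rw [pow_succ p (M + 1)]
        ring
      have h3 : p ^ (M + 2) ≤ p ^ (2 * (M + 1)) := Nat.pow_le_pow_right hp0 (by omega)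
      rw [h2] at h1
      exact lt_of_lt_of_le h1 (Nat.mul_le_mul_right _ h3)
    refine ⟨?_, ?_, ?_⟩
    · have h1 := hstep 0 (hbig 0 (Nat.mul_pos (pow_pos hp0 _) (by omega)))
      rw [if_pos (dvd_zero p), Nat.zero_div, b1] at h1
      have h2 : (D.res (w.coeff 0) - 1) ^ p = 0 := by
        rw [w3_sub D, h1, one_pow, sub_self]
      exact sub_eq_zero.mp (kappa_red D _ h2)
    · intro i hi0 hi1 hi2
      apply kappa_red D
      rw [hstep i (hbig i hi1)]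
      split_ifs with hdvd
      · obtain ⟨j, rfl⟩ := hdvd
        rw [Nat.mul_div_cancel_left _ hp0]
        have hj0 : 0 < j := Nat.pos_of_mul_pos_left hi0
        refine b2 j hj0 ?_ ?_
        · have h1 : p * j < p * (p ^ M * (p ^ 2 - 1)) := by
            calc p * j < p ^ (M + 1) * (p ^ 2 - 1) := hi1
              _ = p * (p ^ M * (p ^ 2 - 1)) := by rw [pow_succ]; ring
          exact lt_of_mul_lt_mul_left h1 (Nat.zero_le p)
        · rcases hi2 with h1 | h1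
          · left
            intro h2
            apply h1
            rw [pow_succ, mul_comm]
            exact Nat.mul_dvd_mul_left p h2
          · right
            have h2 : p * j < p * (p ^ M * (p + 1)) := by
              calc p * j < p ^ (M + 1) * (p + 1) := h1
                _ = p * (p ^ M * (p + 1)) := by rw [pow_succ]; ring
            exact lt_of_mul_lt_mul_left h2 (Nat.zero_le p)
      · rfl
    · have hlt : p ^ (M + 1) * (p + 1) < p ^ (M + 1) * (p ^ 2 - 1) :=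
        Nat.mul_lt_mul_of_pos_left hsq1 (pow_pos hp0 _)
      have h1 := hstep (p ^ (M + 1) * (p + 1)) (hbig _ hlt)
      have h2 : p ^ (M + 1) * (p + 1) = p * (p ^ M * (p + 1)) := by rw [pow_succ]; ring
      rw [if_pos (by rw [h2]; exact Nat.dvd_mul_right p _)] at h1
      have h3 : p ^ (M + 1) * (p + 1) / p = p ^ M * (p + 1) := by
        rw [h2, Nat.mul_div_cancel_left _ hp0]
      rw [h3] at h1
      set c := D.res (w.coeff (p ^ (M + 1) * (p + 1))) with hc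
      have h4 : (c ^ (p - 1) + 1) ^ p = 0 := by
        rw [w3_add D, one_pow, ← pow_mul, mul_comm (p - 1) p, pow_mul, h1, b3]
        ring
      have h5 := kappa_red D _ h4
      exact eq_neg_of_add_eq_zero_left h5

end SSF
end

-- from Lib.SSG.F.W4
section

/-! # SSG/F/W4 : low coefficients of `w ^ m h` -/

open Polynomial
open scoped Classical

namespace SSF

variable {p : ℕ} [Fact p.Prime] {R : ℕ → Type} [∀ N, CommRing (R N)] [∀ N, Fintype (R N)]
  {L : Type} [NormedField L] [IsUltrametricDist L] (D : LTD p R L)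

/-- `w ^ m h` and `h` agree modulo the maximal ideal in degrees `< p^M (p+1)`. PROOF. In `κ[X]`,
`w̄ = 1 + X^n u`, `n = p^M(p+1)` (by `w_coeff` the coefficients of `w̄ - 1` in degrees `< n` vanish;
`Polynomial.X_pow_dvd_iff`; note `n ≤ p^M(p^2-1)`), so `X^n ∣ w̄^m - 1` (`sub_one_dvd..`,
`w̄ - 1 ∣ w̄^m - 1`) and `X^n ∣ w̄^m h̄ - h̄`; `coeff_map`. -/
theorem w_low (hp3 : 3 ≤ p) (M : ℕ) (w h : D.W[X]) (hw : D.IsW (M + 1) w) (m j : ℕ)
    (hj : j < p ^ M * (p + 1)) :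
    D.res ((w ^ m * h).coeff j) = D.res (h.coeff j) := by
  have hp2 : p + 1 ≤ p ^ 2 - 1 := by
    have : 3 * p ≤ p ^ 2 := by nlinarith
    omega
  obtain ⟨h0, h1, -⟩ := w_coeff D hp3 M w hw
  have hX : (X : D.κ[X]) ^ (p ^ M * (p + 1)) ∣ w.map D.res - 1 := by
    rw [X_pow_dvd_iff]
    intro d hd
    rw [coeff_sub, coeff_map, coeff_one]
    split_ifs with h2
    · rw [h2, h0, sub_self]
    · rw [h1 d (Nat.pos_of_ne_zero h2) (lt_of_lt_of_le hd (Nat.mul_le_mul_left _ hp2)) (Or.inr hd), sub_zero]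
  have h3 : w.map D.res - 1 ∣ (w.map D.res) ^ m - 1 := by
    have := sub_dvd_pow_sub_pow (w.map D.res) 1 m
    rwa [one_pow] at this
  have h4 : (X : D.κ[X]) ^ (p ^ M * (p + 1)) ∣ (w.map D.res) ^ m * h.map D.res - h.map D.res := by
    have e : (w.map D.res) ^ m * h.map D.res - h.map D.res = ((w.map D.res) ^ m - 1) * h.map D.res := by ring
    rw [e]
    exact (hX.trans h3).mul_right _
  have h5 := (X_pow_dvd_iff.1 h4) j hj
  rw [← Polynomial.map_pow, ← Polynomial.map_mul, coeff_sub, coeff_map, coeff_map, sub_eq_zero] at h5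
  exact h5

end SSF
end

-- from Lib.SSG.F.E2A
section

/-! # SSG/F/E2A : coefficients of `h_b`, `n` odd -/

open Polynomial
open scoped Classical

namespace SSF

variable {p : ℕ} [Fact p.Prime] {R : ℕ → Type} [∀ N, CommRing (R N)] [∀ N, Fintype (R N)]
  {L : Type} [NormedField L] [IsUltrametricDist L] (D : LTD p R L)

/-- For `n = 2 M + 1` (so `w = w_(n+1)`, `n + 1 = 2M+2`) the relevant coefficient of `h_b` is minus
the one of `h`: `p^2 (p^(2M) - 1) + (p^2 - 1) = p^(2M+2) - 1 < p^(2M+1) (p+1)`. PROOF. `res_Ct`,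
then `w_low` with `M' = 2 M + 1` (`w` is `IsW (2M+1+1)`). -/
theorem hb_coeff_odd (hp3 : 3 ≤ p) (M : ℕ) (w h : D.W[X]) (hw : D.IsW (2 * M + 2) w) (b : ℕ) :
    D.res ((D.hb (2 * M + 1) w h b).coeff (p ^ (2 * M) - 1)) =
      - D.res (h.coeff (p ^ (2 * (M + 1)) - 1)) := by
  have hp : 0 < p := by omega
  unfold LTD.hb
  rw [res_Ct D (by omega)]
  have h1 : p ^ 2 * (p ^ (2 * M) - 1) + (p ^ 2 - 1) = p ^ (2 * (M + 1)) - 1 := by
    have e1 : p ^ (2 * (M + 1)) = p ^ 2 * p ^ (2 * M) := by rw [← pow_add]; congr 1; ring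
    have e2 : 1 ≤ p ^ (2 * M) := Nat.one_le_pow _ _ hp
    have e3 : 1 ≤ p ^ 2 := Nat.one_le_pow _ _ hp
    rw [e1, Nat.mul_sub, mul_one]
    have e4 : p ^ 2 ≤ p ^ 2 * p ^ (2 * M) := Nat.le_mul_of_pos_right _ (by omega)
    omega
  rw [h1]
  congr 1
  refine w_low D hp3 (2 * M + 1) w h hw _ _ ?_
  have e5 : p ^ (2 * M + 1) * (p + 1) = p ^ (2 * (M + 1)) + p ^ (2 * M + 1) := by
    rw [mul_add, mul_one, ← pow_succ]
    congr 2
  have e6 : 1 ≤ p ^ (2 * (M + 1)) := Nat.one_le_pow _ _ hp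
  omega

end SSF
end

-- from Lib.SSG.F.E2
section

/-! # SSG/F/E2 : the leading term, step from odd to even level -/

open Polynomial
open scoped Classical

namespace SSF

variable {p : ℕ} [Fact p.Prime] {R : ℕ → Type} [∀ N, CommRing (R N)] [∀ N, Fintype (R N)]
  {L : Type} [NormedField L] [IsUltrametricDist L] (D : LTD p R L)

/-- Step from `n = 2M + 1` to `n + 1 = 2 (M + 1)`. PROOF. Let `r = p^n/(p+1)`, `φ = ζ n - 1`,
`ψ = ζ (n+1) - 1`, `w` from `exists_w`, `c = h.coeff (p^(2(M+1)) - 1)`. For `b < p` let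
`e_b : (ZMod (p^n))ˣ → L`, `e_b = Tf n (hb b) - ((-1)^(M+1) c) φ_n^r` (`D.φ n ^ r`): it is in `D.O n`
(`Tf_mem`; constants of `W` and `D.φ n` are in `D.O n`), and `‖e_b 1‖ < ‖φ‖^r`, by the hypothesis
(`(-1)^M coeff_(q^M - 1)(h_b)`, `n/2 = M`) and `hb_coeff_odd` + `res_eq_iff`. So
`‖e_b 1‖ ≤ ‖φ‖^(r+1)` (`O_gap`). By `T_rec` (`a = 1`, `(1 : ZMod _).val = 1`, `castHom 1 = 1`):
`T (n+1) 1 h = (-1)^(M+1) c φ^r sum_(b<p) ζ_(n+1)^b + sum_b ζ_(n+1)^b e_b 1`, and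
`ψ sum_b ζ_(n+1)^b = ζ_(n+1)^p - 1 = φ`. So the main term is `(-1)^(M+1) c φ^(r+1)/ψ`; by
`phi_pow` with `m = r + 1`: `φ^(r+1) ≈ ψ^(p(r+1))`, and `p (r+1) - 1 = r_(n+1)` (`r_odd`); the
errors have norm `≤ ‖φ‖^(r+1) = ‖ψ‖^(p(r+1)) < ‖ψ‖^(r_(n+1))` (`phi_norm_succ`, `phi_pos`). -/
theorem lead_odd_even (hp3 : 3 ≤ p) (M : ℕ) (H : D.Lead (2 * M + 1)) : D.Lead (2 * M + 2) := by
  intro h
  have hp2 : 2 ≤ p := by omega
  set n : ℕ := 2 * M + 1 with hn
  have hn1 : 1 ≤ n := by omega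
  have hn2 : 2 * M + 2 = n + 1 := by omega
  have hd1 : n / 2 = M := by omega
  have hd2 : (n + 1) / 2 = M + 1 := by omega
  rw [hn2, hd2]
  obtain ⟨w, hw⟩ := exists_w D n
  set r : ℕ := p ^ n / (p + 1) with hr
  have hr' : p ^ (n + 1) / (p + 1) = p * r + (p - 1) := r_odd n ⟨M, hn⟩ hp2
  rw [hr']
  set cW : D.W := h.coeff (p ^ (2 * (M + 1)) - 1) with hcW
  set φ : L := D.ζ n - 1 with hφ
  set ψ : L := D.ζ (n + 1) - 1 with hψ
  obtain ⟨hψ0, hψ1⟩ := phi_pos D (n + 1) (by omega)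
  have hψne : ψ ≠ 0 := norm_pos_iff.1 hψ0
  obtain ⟨hφ0, hφ1⟩ := phi_pos D n hn1
  set K : L := (-1) ^ (M + 1) * (cW : L) with hK
  have hKn : ‖K‖ ≤ 1 := by
    rw [hK, norm_mul, norm_pow, norm_neg, norm_one, one_pow, one_mul]
    exact cW.2.2
  have hlt1 : 1 < p ^ n := Nat.one_lt_pow (by omega) (by omega)
  have hlt2 : 1 < p ^ (n + 1) := Nat.one_lt_pow (by omega) (by omega)
  have hF1 : Fact (1 < p ^ n) := ⟨hlt1⟩
  have hF2 : Fact (1 < p ^ (n + 1)) := ⟨hlt2⟩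
  -- the recursion
  have hrec : D.T (n + 1) 1 h =
      ∑ b ∈ Finset.range p, D.ζ (n + 1) ^ b * D.T n 1 (D.hb n w h b) := by
    have h1 := T_rec D n hn1 w hw 1 h
    rw [Units.val_one, map_one] at h1
    rw [h1]
    refine Finset.sum_congr rfl fun b _ => ?_
    rw [ZMod.val_one, one_mul]
    rfl
  -- the errors
  have hcoef : ∀ b, ‖D.T n 1 (D.hb n w h b) - K * φ ^ r‖ < ‖φ‖ ^ r := by
    intro b
    have h1 := H (D.hb n w h b)
    rw [hd1] at h1
    have h2 : D.res ((D.hb n w h b).coeff (p ^ (2 * M) - 1)) = D.res (-cW) := by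
      rw [map_neg]
      exact hb_coeff_odd D hp3 M w h (by rw [hn2]; exact hw) b
    rw [res_eq_iff] at h2
    set x : L := ((D.hb n w h b).coeff (p ^ (2 * M) - 1) : L) with hx
    have e : D.T n 1 (D.hb n w h b) - K * φ ^ r =
        (D.T n 1 (D.hb n w h b) - (-1) ^ M * x * φ ^ r) +
          (-1) ^ M * (x - ((-cW : D.W) : L)) * φ ^ r := by
      have e2 : ((-cW : D.W) : L) = -(cW : L) := rfl
      rw [e2, hK]
      ring
    rw [e]
    refine (IsUltrametricDist.norm_add_le_max _ _).trans_lt (max_lt h1 ?_)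
    rw [norm_mul, norm_mul, norm_pow, norm_neg, norm_one, one_pow, one_mul, norm_pow]
    have h3 : 0 < ‖φ‖ ^ r := pow_pos hφ0 r
    nlinarith
  have hgap : ∀ b, ‖D.T n 1 (D.hb n w h b) - K * φ ^ r‖ ≤ ‖φ‖ ^ (r + 1) := by
    intro b
    set eb : (ZMod (p ^ n))ˣ → L := D.Tf n (D.hb n w h b) - (fun _ => K) * D.φ n ^ r with heb
    have hc : (fun _ => K : (ZMod (p ^ n))ˣ → L) ∈ D.O n := by
      refine ⟨C ((-1) ^ (M + 1) * cW), fun a => ?_⟩
      rw [LTD.ev, eval₂_C]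
      rw [hK]
      push_cast
      rfl
    have hφm : D.φ n ∈ D.O n := by
      refine ⟨X - 1, fun a => ?_⟩
      simp [LTD.ev, LTD.φ]
    have hmem : eb ∈ D.O n :=
      (D.O n).sub_mem (Tf_mem D n hn1 _) ((D.O n).mul_mem hc ((D.O n).pow_mem hφm r))
    have heb1 : eb 1 = D.T n 1 (D.hb n w h b) - K * φ ^ r := by
      rw [heb]
      simp only [Pi.sub_apply, Pi.mul_apply, Pi.pow_apply, LTD.Tf, LTD.φ, Units.val_one]
      rw [ZMod.val_one, pow_one]
    have h1 := O_gap D n hn1 r eb hmem (by rw [heb1]; exact hcoef b)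
    rw [heb1] at h1
    exact h1
  have hζ1 : ‖D.ζ (n + 1)‖ = 1 :=
    norm_root (D.ζ (n + 1)) (p ^ (n + 1)) (by positivity) (D.ζprim (n + 1)).pow_eq_one
  have herr : ‖∑ b ∈ Finset.range p, D.ζ (n + 1) ^ b * (D.T n 1 (D.hb n w h b) - K * φ ^ r)‖ ≤
      ‖φ‖ ^ (r + 1) := by
    refine IsUltrametricDist.norm_sum_le_of_forall_le_of_nonneg (by positivity) fun b _ => ?_
    rw [norm_mul, norm_pow, hζ1, one_pow, one_mul]
    exact hgap b
  have hgeom : ψ * ∑ b ∈ Finset.range p, D.ζ (n + 1) ^ b = φ := by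
    rw [hψ, mul_geom_sum, D.ζp]
  have hsum : ∑ b ∈ Finset.range p, D.ζ (n + 1) ^ b = φ / ψ := by
    rw [eq_div_iff hψne, mul_comm]
    exact hgeom
  have hmain : D.T (n + 1) 1 h - K * ψ ^ (p * r + (p - 1)) =
      K * (φ ^ (r + 1) - ψ ^ (p * (r + 1))) / ψ +
      ∑ b ∈ Finset.range p, D.ζ (n + 1) ^ b * (D.T n 1 (D.hb n w h b) - K * φ ^ r) := by
    have e1 : ∑ b ∈ Finset.range p, D.ζ (n + 1) ^ b * (D.T n 1 (D.hb n w h b) - K * φ ^ r) =
        D.T (n + 1) 1 h - K * φ ^ r * (φ / ψ) := by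
      rw [← hsum, hrec, Finset.mul_sum, ← Finset.sum_sub_distrib]
      refine Finset.sum_congr rfl fun b _ => ?_
      ring
    have e2 : ψ ^ (p * (r + 1)) = ψ ^ (p * r + (p - 1)) * ψ := by
      rw [← pow_succ]
      congr 1
      rw [mul_add, mul_one, add_assoc]
      congr 1
      omega
    rw [e1, e2]
    field_simp
    ring
  have hexp : p * r + (p - 1) < p * (r + 1) := by
    rw [mul_add, mul_one]
    omega
  rw [hmain]
  refine (IsUltrametricDist.norm_add_le_max _ _).trans_lt (max_lt ?_ (herr.trans_lt ?_))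
  · rw [norm_div, norm_mul, div_lt_iff₀ hψ0]
    have h1 := phi_pow D n (r + 1) hn1
    have h2 : ‖ψ‖ ^ (p * (r + 1)) = ‖ψ‖ ^ (p * r + (p - 1)) * ‖ψ‖ := by
      rw [← pow_succ]
      congr 1
      rw [mul_add, mul_one, add_assoc]
      congr 1
      omega
    rw [← h2]
    calc ‖K‖ * ‖φ ^ (r + 1) - ψ ^ (p * (r + 1))‖ ≤ 1 * ‖φ ^ (r + 1) - ψ ^ (p * (r + 1))‖ := by
          gcongr
      _ = ‖φ ^ (r + 1) - ψ ^ (p * (r + 1))‖ := one_mul _
      _ < ‖ψ‖ ^ (p * (r + 1)) := h1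
  · rw [hφ, phi_norm_succ D n hn1, ← pow_mul, ← hψ]
    exact pow_lt_pow_right_of_lt_one₀ hψ0 hψ1 hexp

end SSF
end

-- from Lib.SSG.F.W5
section

/-! # SSG/F/W5 : the coefficient of `Ξ h`, `Ξ = sum of w^(-b)` -/

open Polynomial
open scoped Classical

namespace SSF

variable {p : ℕ} [Fact p.Prime] {R : ℕ → Type} [∀ N, CommRing (R N)] [∀ N, Fintype (R N)]
  {L : Type} [NormedField L] [IsUltrametricDist L] (D : LTD p R L)

theorem w5_zmod : (∑ b ∈ Finset.range p, (X : (ZMod p)[X]) ^ b) = (X - 1) ^ (p - 1) := by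
  have hX : (X - 1 : (ZMod p)[X]) ≠ 0 := by
    have := Polynomial.X_sub_C_ne_zero (1 : ZMod p)
    simpa using this
  apply mul_right_cancel₀ hX
  have hp := (Fact.out : p.Prime)
  rw [geom_sum_mul, ← pow_succ, Nat.sub_add_cancel hp.one_le, sub_pow_char, one_pow]

/-- In a commutative ring of characteristic `p` (prime): `sum_(b<p) x^b = (x - 1)^(p-1)`. PROOF.
In `(ZMod p)[X]`: `(X - 1) sum X^b = X^p - 1 = (X - 1)^p`, cancel `X - 1` (domain); evaluate at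
`x` (`Polynomial.aeval`, `ZMod.algebra`/`ZMod.castHom`). -/
theorem geom_char {S : Type} [CommRing S] [CharP S p] (x : S) :
    ∑ b ∈ Finset.range p, x ^ b = (x - 1) ^ (p - 1) := by
  letI := ZMod.algebra S p
  have h := congrArg (Polynomial.aeval x) (w5_zmod (p := p))
  simpa [map_sum] using h

/-- `κ` has characteristic `p` -/
theorem w5_charP : CharP D.κ p := by
  haveI : Nontrivial D.κ := by
    refine ⟨⟨1, 0, ?_⟩⟩
    intro h
    have h1 : D.res 1 = 0 := by rw [map_one]; exact h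
    rw [res_eq_zero_iff] at h1
    simp at h1
  exact (CharP.charP_iff_prime_eq_zero (Fact.out : p.Prime)).2 (kappa_p D)

/-- the formal computation -/
theorem w5_formal {κ : Type} [CommRing κ] [CharP κ p] (hp3 : 3 ≤ p) (M : ℕ) (v g : κ[X]) (c : κ)
    (hc : c ^ (p - 1) = -1) (h0 : v.coeff 0 = 1) (h1 : v.coeff (p ^ (2 * M) * (p + 1)) = c)
    (hz : ∀ d, 0 < d → d ≠ p ^ (2 * M) * (p + 1) → d < p ^ (2 * M) * (p + 2) → v.coeff d = 0) :
    ((∑ b ∈ Finset.range p, v ^ (p ^ (2 * M + 1) - b)) * g).coeff (p ^ (2 * (M + 1)) - 1) =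
      - g.coeff (p ^ (2 * M) - 1) := by
  set Q := p ^ (2 * M) with hQdef
  have hQ : 0 < Q := by rw [hQdef]; positivity
  have hp1 : 1 ≤ p := by omega
  have hP1 : p ^ (2 * M + 1) = Q * p := by rw [hQdef, pow_succ]
  have hP2 : p ^ (2 * (M + 1)) = Q * p ^ 2 := by rw [hQdef, ← pow_add]; ring_nf
  -- the shape of v
  have hd1 : X ^ (Q * (p + 2)) ∣ v - 1 - C c * X ^ (Q * (p + 1)) := by
    rw [Polynomial.X_pow_dvd_iff]
    intro d hd
    rw [Polynomial.coeff_sub, Polynomial.coeff_sub, Polynomial.coeff_C_mul,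
      Polynomial.coeff_X_pow, Polynomial.coeff_one]
    rcases Nat.eq_zero_or_pos d with rfl | hd0
    · have hne : (0 : ℕ) ≠ Q * (p + 1) := by positivity
      simp [h0, hne]
    · by_cases he : d = Q * (p + 1)
      · subst he
        have hne : Q * (p + 1) ≠ 0 := by positivity
        rw [h1, if_neg hne, if_pos rfl]
        ring
      · rw [hz d hd0 he hd, if_neg (by omega), if_neg he]
        ring
  obtain ⟨u, hu⟩ := hd1
  have hv : v - 1 = X ^ (Q * (p + 1)) * (C c + X ^ Q * u) := by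
    have : v - 1 = C c * X ^ (Q * (p + 1)) + X ^ (Q * (p + 2)) * u := by rw [← hu]; ring
    rw [this]
    have e : Q * (p + 2) = Q * (p + 1) + Q := by ring
    rw [e, pow_add]
    ring
  -- the sum
  have hK : Q * p - (p - 1) + (p - 1) = Q * p := by
    apply Nat.sub_add_cancel
    calc p - 1 ≤ p := Nat.sub_le _ _
      _ = 1 * p := (one_mul p).symm
      _ ≤ Q * p := Nat.mul_le_mul_right _ hQ
  have hsum : (∑ b ∈ Finset.range p, v ^ (Q * p - b)) = v ^ (Q * p - (p - 1)) * (v - 1) ^ (p - 1) := by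
    rw [← geom_char (p := p) v, ← Finset.sum_range_reflect (fun b => v ^ b) p, Finset.mul_sum]
    refine Finset.sum_congr rfl fun b hb => ?_
    have hb' := Finset.mem_range.1 hb
    rw [← pow_add]
    congr 1
    omega
  -- congruences modulo X^Q
  have hdv : X ^ Q ∣ v ^ (Q * p - (p - 1)) - 1 := by
    have h2 : v - 1 ∣ v ^ (Q * p - (p - 1)) - 1 ^ (Q * p - (p - 1)) := sub_dvd_pow_sub_pow v 1 _
    rw [one_pow] at h2
    refine dvd_trans ?_ h2
    rw [hv]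
    have e : Q * (p + 1) = Q + Q * p := by ring
    rw [e, pow_add, mul_assoc]
    exact dvd_mul_right _ _
  obtain ⟨u1, hu1⟩ := hdv
  have hdc : X ^ Q ∣ (C c + X ^ Q * u) ^ (p - 1) - (C c) ^ (p - 1) := by
    refine dvd_trans ?_ (sub_dvd_pow_sub_pow (C c + X ^ Q * u) (C c) (p - 1))
    rw [add_sub_cancel_left]
    exact dvd_mul_right _ _
  obtain ⟨u2, hu2⟩ := hdc
  have hXi : (∑ b ∈ Finset.range p, v ^ (Q * p - b)) =
      X ^ (Q * (p ^ 2 - 1)) * (-1 + X ^ Q * (-u1 + u2 + X ^ Q * u1 * u2)) := by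
    rw [hsum, hv, mul_pow, ← pow_mul]
    have e : Q * (p + 1) * (p - 1) = Q * (p ^ 2 - 1) := by
      rw [mul_assoc]
      congr 1
      obtain ⟨k, rfl⟩ : ∃ k, p = k + 1 := ⟨p - 1, by omega⟩
      have : (k + 1) ^ 2 = (k + 1 + 1) * k + 1 := by ring
      rw [this]
      simp
    rw [e]
    have e1 : v ^ (Q * p - (p - 1)) = 1 + X ^ Q * u1 := by rw [← hu1]; ring
    have e2 : (C c + X ^ Q * u) ^ (p - 1) = -1 + X ^ Q * u2 := by
      rw [← hu2, ← C_pow, hc]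
      simp
    rw [e1, e2]
    ring
  rw [hP1, hP2, hXi, mul_assoc]
  have hidx : Q * p ^ 2 - 1 = (Q - 1) + Q * (p ^ 2 - 1) := by
    have h4 : 1 ≤ p ^ 2 := Nat.one_le_pow _ _ hp1
    obtain ⟨k, hk⟩ : ∃ k, p ^ 2 = k + 1 := ⟨p ^ 2 - 1, by omega⟩
    rw [hk, Nat.add_sub_cancel, Nat.mul_add, Nat.mul_one]
    omega
  rw [hidx, Polynomial.coeff_X_pow_mul, add_mul, mul_assoc, Polynomial.coeff_add,
    Polynomial.coeff_X_pow_mul', if_neg (by omega)]
  simp

/-- The coefficient of `Ξ h` of degree `p^(2M+2) - 1` for `Ξ = sum_(b<p) w^(p^(2M+1) - b)`,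
`w = w_(2M+1)`. PROOF. Work in `κ[X]`, `Q = p^(2M)`, `κ` has characteristic `p` (`kappa_p`,
`CharP.ofCharP..`: `κ` is nontrivial since `1 ∉ m`, and `p = 0` in it). By `w_coeff` (with `2 M` for
`M`): `w̄ = 1 + c X^((p+1)Q) + X^((p+2)Q) u` for some `u` (the coefficients in degrees `< (p+2) Q`,
which is `≤ Q (p^2-1)`, are as stated, since the only multiples of `Q` below `(p+2)Q` and
`≥ (p+1) Q` is `(p+1)Q`). So `w̄ - 1 = X^((p+1)Q) (c + X^Q u)`,
`(w̄ - 1)^(p-1) = X^((p^2-1)Q) (c^(p-1) + X^Q u')`, `w̄^(p^(2M+1) - (p-1)) = 1 + X^Q u''`, and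
`Ξ̄ = w̄^(p^(2M+1)-(p-1)) sum_(b<p) w̄^b` (reflect the sum: `p^(2M+1) - b =
(p^(2M+1) - (p-1)) + (p-1-b)`) `= X^((p^2-1)Q) (c^(p-1) + X^Q u3)` by `geom_char`. The
coefficient of `Ξ̄ h̄` in degree `p^2 Q - 1 = (p^2-1) Q + (Q - 1)` is `c^(p-1) h̄_(Q-1) =
- h̄_(Q-1)` (`coeff_X_pow_mul`). -/
theorem Xi_coeff (hp3 : 3 ≤ p) (M : ℕ) (w h : D.W[X]) (hw : D.IsW (2 * M + 1) w) :
    D.res (((∑ b ∈ Finset.range p, w ^ (p ^ (2 * M + 1) - b)) * h).coeff (p ^ (2 * (M + 1)) - 1)) =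
      - D.res (h.coeff (p ^ (2 * M) - 1)) := by
  obtain ⟨h0, hz, hc⟩ := w_coeff D hp3 (2 * M) w hw
  haveI := w5_charP D
  rw [← Polynomial.coeff_map, ← Polynomial.coeff_map, Polynomial.map_mul, Polynomial.map_sum]
  simp only [Polynomial.map_pow]
  apply w5_formal hp3 M (w.map D.res) (h.map D.res)
    (D.res (w.coeff (p ^ (2 * M) * (p + 1)))) hc
  · rw [Polynomial.coeff_map, h0]
  · rw [Polynomial.coeff_map]
  · intro d h1 h2 h3
    rw [Polynomial.coeff_map]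
    apply hz d h1
    · exact lt_of_lt_of_le h3 (Nat.mul_le_mul_left _ (by
        have : 3 * p ≤ p ^ 2 := by nlinarith
        omega))
    · by_cases hd : p ^ (2 * M) ∣ d
      · right
        obtain ⟨e, rfl⟩ := hd
        have hQ : 0 < p ^ (2 * M) := by positivity
        have he : e < p + 2 := lt_of_mul_lt_mul_left h3 (Nat.zero_le _)
        apply Nat.mul_lt_mul_of_pos_left _ hQ
        have hne : e ≠ p + 1 := by
          rintro rfl
          exact h2 rfl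
        omega
      · exact Or.inl hd

end SSF
end

-- from Lib.SSG.F.E3A
section

/-! # SSG/F/E3A : coefficients of the sum of the `h_b`, `n` even -/

open Polynomial
open scoped Classical

namespace SSF

variable {p : ℕ} [Fact p.Prime] {R : ℕ → Type} [∀ N, CommRing (R N)] [∀ N, Fintype (R N)]
  {L : Type} [NormedField L] [IsUltrametricDist L] (D : LTD p R L)

omit [Fact p.Prime] in
theorem e3a_deg (hp : 1 ≤ p) (M : ℕ) :
    p ^ 2 * (p ^ (2 * M) - 1) + (p ^ 2 - 1) = p ^ (2 * (M + 1)) - 1 := by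
  have h1 : 1 ≤ p ^ (2 * M) := Nat.one_le_pow _ _ hp
  have h2 : 1 ≤ p ^ 2 := Nat.one_le_pow _ _ hp
  have h3 : p ^ (2 * (M + 1)) = p ^ 2 * p ^ (2 * M) := by
    rw [← pow_add]
    congr 1
    ring
  rw [h3, Nat.mul_sub, mul_one]
  have h4 : p ^ 2 * 1 ≤ p ^ 2 * p ^ (2 * M) := Nat.mul_le_mul_left _ h1
  omega

/-- For `n = 2 M` (so `w = w_(2M+1)`): `res` of the coefficient of degree `p^(2M) - 1` of
`sum_(b<p) h_b` is `res h_(p^(2M)-1)`. PROOF. `sum_b h_b = Ct (Ξ h)` (`Ct_sum`,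
`Finset.sum_mul`), `res_Ct` with `k = p^(2M) - 1` (`p^2 k + p^2 - 1 = p^(2(M+1)) - 1`), `Xi_coeff`. -/
theorem hb_sum_even (hp3 : 3 ≤ p) (M : ℕ) (w h : D.W[X]) (hw : D.IsW (2 * M + 1) w) :
    D.res ((∑ b ∈ Finset.range p, D.hb (2 * M) w h b).coeff (p ^ (2 * M) - 1)) =
      D.res (h.coeff (p ^ (2 * M) - 1)) := by
  have h1 : ∑ b ∈ Finset.range p, D.hb (2 * M) w h b =
      Ct p ((∑ b ∈ Finset.range p, w ^ (p ^ (2 * M + 1) - b)) * h) := by
    rw [Finset.sum_mul, Ct_sum]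
    rfl
  rw [h1, res_Ct D (by omega), e3a_deg (by omega) M, Xi_coeff D hp3 M w h hw, neg_neg]

theorem e3a_char : CharP D.κ p := by
  have h1 : Nontrivial D.κ := by
    refine Ideal.Quotient.nontrivial_iff.2 ?_
    rw [Ideal.ne_top_iff_one]
    intro h
    have h2 : ‖((1 : D.W) : L)‖ < 1 := h
    simp at h2
  exact (CharP.charP_iff_prime_eq_zero (Fact.out : p.Prime)).2 (kappa_p D)

/-- Low coefficients of `f ^ (p^k) g` in characteristic `p`. -/
theorem e3a_gen {S : Type} [CommRing S] [CharP S p] (f g : S[X]) (n k j : ℕ)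
    (h0 : f.coeff 0 = 1) (h : ∀ i, 0 < i → i < n → f.coeff i = 0) (hj : j < n * p ^ k) :
    (f ^ p ^ k * g).coeff j = g.coeff j := by
  have h3 : (X : S[X]) ^ n ∣ f - 1 := by
    rw [X_pow_dvd_iff]
    intro d hd
    rw [coeff_sub, coeff_one]
    rcases Nat.eq_zero_or_pos d with rfl | hd0
    · rw [h0, if_pos rfl, sub_self]
    · rw [h d hd0 hd, if_neg hd0.ne', sub_zero]
  have h5 : f ^ p ^ k - 1 = (f - 1) ^ p ^ k := by
    rw [sub_pow_char_pow, one_pow]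
  have h6 : (X : S[X]) ^ (n * p ^ k) ∣ f ^ p ^ k * g - g := by
    have h4 : f ^ p ^ k * g - g = (f ^ p ^ k - 1) * g := by ring
    rw [h4, h5, pow_mul]
    exact (pow_dvd_pow_of_dvd h3 _).mul_right _
  rw [X_pow_dvd_iff] at h6
  have h11 := h6 _ hj
  rwa [coeff_sub, sub_eq_zero] at h11

/-- For `n = 2 M` and the single term `b = 0`: `w^(p^(2M+1) - 0)` takes the value `1` at all units,
but as a polynomial: `res ((h_0).coeff (p^(2M)-1)) = - res h_(p^(2M+2)-1)`. PROOF. `res_Ct`, and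
`w̄^(p^(2M+1)) = (w̄)^(p^(2M+1)) = 1 + X^(p^(2M+1) n) u`, `n = p^(2M)(p+1)`, because `w̄ = 1 + X^n u'`
(characteristic `p`: `(1 + y)^(p^k) = 1 + y^(p^k)`, `add_pow_char_pow`); and
`p^(2M+1) n > p^(2M+2) - 1` for `M ≥ 0` (`p^(2M+1) p^(2M) (p+1) ≥ p^(4M+2)`, `4M+2 ≥ 2M+2`). -/
theorem hb_zero_even (hp3 : 3 ≤ p) (M : ℕ) (w h : D.W[X]) (hw : D.IsW (2 * M + 1) w) :
    D.res ((D.hb (2 * M) w h 0).coeff (p ^ (2 * M) - 1)) =
      - D.res (h.coeff (p ^ (2 * (M + 1)) - 1)) := by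
  have h1 : D.hb (2 * M) w h 0 = Ct p (w ^ (p ^ (2 * M + 1)) * h) := rfl
  rw [h1, res_Ct D (by omega), e3a_deg (by omega) M]
  congr 1
  have h5 : p ^ (2 * (M + 1)) - 1 < p ^ (2 * M) * (p + 1) * p ^ (2 * M + 1) := by
    have h6 : 1 ≤ p ^ (2 * M) := Nat.one_le_pow _ _ (by omega)
    have h7 : p ^ (2 * (M + 1)) = p * p ^ (2 * M + 1) := by
      rw [← pow_succ']
      congr 1
    have h8 : 1 ≤ p ^ (2 * M + 1) := Nat.one_le_pow _ _ (by omega)
    have h9 : p * p ^ (2 * M + 1) ≤ p ^ (2 * M) * (p + 1) * p ^ (2 * M + 1) := by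
      apply Nat.mul_le_mul_right
      nlinarith
    have h10 : 1 ≤ p ^ (2 * (M + 1)) := Nat.one_le_pow _ _ (by omega)
    omega
  obtain ⟨w1, w2, -⟩ := w_coeff D hp3 (2 * M) w hw
  have hc := e3a_char D
  have h4 : p ^ (2 * M) * (p + 1) ≤ p ^ (2 * M) * (p ^ 2 - 1) := by
    apply Nat.mul_le_mul_left
    have : 3 * p ≤ p ^ 2 := by nlinarith
    omega
  have h11 := e3a_gen (S := D.κ) (w.map D.res) (h.map D.res) (p ^ (2 * M) * (p + 1)) (2 * M + 1)
    (p ^ (2 * (M + 1)) - 1) (by rw [coeff_map, w1]) (fun i hi hi' => by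
      rw [coeff_map]
      exact w2 i hi (hi'.trans_le h4) (Or.inr hi')) h5
  rw [coeff_map] at h11
  rw [← h11, ← Polynomial.map_pow, ← Polynomial.map_mul, coeff_map]

end SSF
end

-- from Lib.SSG.F.E3
section

/-! # SSG/F/E3 : the leading term, step from even to odd level -/

open Polynomial
open scoped Classical

namespace SSF

variable {p : ℕ} [Fact p.Prime] {R : ℕ → Type} [∀ N, CommRing (R N)] [∀ N, Fintype (R N)]
  {L : Type} [NormedField L] [IsUltrametricDist L] (D : LTD p R L)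

omit [Fact p.Prime] in
/-- `T` is additive in the polynomial (finite sums, `eval₂_finset_sum`, `Finset.sum_comm`). -/
theorem T_sum (n : ℕ) (a : ZMod (p ^ n)) (s : Finset ℕ) (f : ℕ → D.W[X]) :
    D.T n a (∑ b ∈ s, f b) = ∑ b ∈ s, D.T n a (f b) := by
  unfold LTD.T LTD.ev
  rw [Finset.sum_comm]
  refine Finset.sum_congr rfl fun x _ => ?_
  rw [eval₂_finsetSum]

omit [Fact p.Prime] in
theorem e3_sum_lt (s : Finset ℕ) (f : ℕ → L) (B : ℝ) (hB : 0 < B) (h : ∀ i ∈ s, ‖f i‖ < B) :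
    ‖∑ i ∈ s, f i‖ < B := by
  induction s using Finset.induction_on with
  | empty => simpa using hB
  | insert a s ha ih =>
    rw [Finset.sum_insert ha]
    refine (IsUltrametricDist.norm_add_le_max _ _).trans_lt (max_lt ?_ ?_)
    · exact h a (Finset.mem_insert_self a s)
    · exact ih fun i hi => h i (Finset.mem_insert_of_mem hi)

/-- Step from `n = 2M ≥ 2` to `n + 1`. PROOF. Let `r = p^n/(p+1)`, `φ = ζ n - 1`,
`ψ = ζ (n+1) - 1`, `w` from `exists_w`. By `T_rec` (`a = 1`)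
`T (n+1) 1 h = sum_b ζ_(n+1)^b T n 1 h_b`. Every `T n 1 h_b` has norm `≤ ‖φ‖^r` (by `H`), and
`‖ζ_(n+1)^b - 1‖ ≤ ‖ψ‖ < 1` (`norm_pow_sub_one_le`), so up to terms of norm `< ‖φ‖^r` it is
`sum_b T n 1 h_b = T n 1 (sum_b h_b)` (`T_sum`), which by `H` and `hb_sum_even` (`res_eq_iff`) is
`(-1)^M h_(p^(2M)-1) φ^r` up to smaller terms (`n/2 = M = (n+1)/2`). Finally `φ^r ≈ ψ^(p r)`
(`phi_pow`), `‖φ‖^r = ‖ψ‖^(p r)` (`phi_norm_succ`), `p r = r_(n+1)` (`r_even`). -/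
theorem lead_even_odd (hp3 : 3 ≤ p) (M : ℕ) (hM : 1 ≤ M) (H : D.Lead (2 * M)) :
    D.Lead (2 * M + 1) := by
  intro h
  obtain ⟨w, hw⟩ := exists_w D (2 * M)
  have hr : p ^ (2 * M + 1) / (p + 1) = p * (p ^ (2 * M) / (p + 1)) :=
    r_even (2 * M) (even_two_mul M) (by omega)
  have hn2 : (2 * M + 1) / 2 = M := by omega
  have hn2' : (2 * M) / 2 = M := by omega
  rw [hr, hn2]
  have hφψ : ‖D.ζ (2 * M) - 1‖ = ‖D.ζ (2 * M + 1) - 1‖ ^ p := phi_norm_succ D (2 * M) (by omega)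
  have hpp := phi_pow D (2 * M) (p ^ (2 * M) / (p + 1)) (by omega)
  have hψ := phi_pos D (2 * M + 1) (by omega)
  have hT := T_rec D (2 * M) (by omega) w hw 1 h
  have hH := fun b => H (D.hb (2 * M) w h b)
  have hS := H (∑ b ∈ Finset.range p, D.hb (2 * M) w h b)
  have hres := (res_eq_iff D _ _).1 (hb_sum_even D hp3 M w h hw)
  have hz : ‖D.ζ (2 * M + 1)‖ = 1 :=
    norm_root _ (p ^ (2 * M + 1)) (pow_ne_zero _ (by omega)) (D.ζprim (2 * M + 1)).pow_eq_one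
  have hzb : ∀ b : ℕ, ‖D.ζ (2 * M + 1) ^ b - 1‖ ≤ ‖D.ζ (2 * M + 1) - 1‖ :=
    fun b => norm_pow_sub_one_le _ hz b
  rw [T_sum] at hS
  simp only [hn2'] at hH hS
  have hlt : 1 < p ^ (2 * M + 1) := Nat.one_lt_pow (by omega) (by omega)
  have hf : Fact (1 < p ^ (2 * M + 1)) := ⟨hlt⟩
  rw [Units.val_one, ZMod.val_one, map_one] at hT
  simp only [one_mul] at hT
  have hc1 : ∀ c : D.W, ‖(c : L)‖ ≤ 1 := fun c => c.2.2
  have hcc := hc1 (h.coeff (p ^ (2 * M) - 1))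
  have hm1 : ‖((-1 : L)) ^ M‖ = 1 := by rw [norm_pow, norm_neg, norm_one, one_pow]
  have hφr : ‖D.ζ (2 * M) - 1‖ ^ (p ^ (2 * M) / (p + 1)) =
      ‖D.ζ (2 * M + 1) - 1‖ ^ (p * (p ^ (2 * M) / (p + 1))) := by
    rw [hφψ, ← pow_mul]
  generalize p ^ (2 * M) / (p + 1) = r at *
  have hB : 0 < ‖D.ζ (2 * M + 1) - 1‖ ^ (p * r) := pow_pos hψ.1 _
  rw [hT]
  rw [hφr] at hS
  have ht : ∀ b, ‖D.T (2 * M) 1 (D.hb (2 * M) w h b)‖ ≤ ‖D.ζ (2 * M + 1) - 1‖ ^ (p * r) := by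
    intro b
    have h4 := hH b
    rw [hφr] at h4
    have h5 : ‖(-1) ^ M * (((D.hb (2 * M) w h b).coeff (p ^ (2 * M) - 1) : D.W) : L) *
        (D.ζ (2 * M) - 1) ^ r‖ ≤ ‖D.ζ (2 * M + 1) - 1‖ ^ (p * r) := by
      rw [norm_mul, norm_mul, hm1, one_mul, norm_pow, hφr]
      exact mul_le_of_le_one_left hB.le (hc1 _)
    have h6 := IsUltrametricDist.norm_add_le_max (D.T (2 * M) 1 (D.hb (2 * M) w h b) -
      (-1) ^ M * (((D.hb (2 * M) w h b).coeff (p ^ (2 * M) - 1) : D.W) : L) *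
        (D.ζ (2 * M) - 1) ^ r) ((-1) ^ M *
        (((D.hb (2 * M) w h b).coeff (p ^ (2 * M) - 1) : D.W) : L) * (D.ζ (2 * M) - 1) ^ r)
    rw [sub_add_cancel] at h6
    exact h6.trans (max_le h4.le h5)
  have e1 : ‖∑ b ∈ Finset.range p, (D.ζ (2 * M + 1) ^ b - 1) *
      D.T (2 * M) 1 (D.hb (2 * M) w h b)‖ < ‖D.ζ (2 * M + 1) - 1‖ ^ (p * r) := by
    refine e3_sum_lt _ _ _ hB fun b _ => ?_
    rw [norm_mul]
    calc ‖D.ζ (2 * M + 1) ^ b - 1‖ * ‖D.T (2 * M) 1 (D.hb (2 * M) w h b)‖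
        ≤ ‖D.ζ (2 * M + 1) - 1‖ * ‖D.ζ (2 * M + 1) - 1‖ ^ (p * r) :=
          mul_le_mul (hzb b) (ht b) (norm_nonneg _) (norm_nonneg _)
      _ < 1 * ‖D.ζ (2 * M + 1) - 1‖ ^ (p * r) := mul_lt_mul_of_pos_right hψ.2 hB
      _ = ‖D.ζ (2 * M + 1) - 1‖ ^ (p * r) := one_mul _
  have e3 : ‖(-1) ^ M * ((((∑ b ∈ Finset.range p, D.hb (2 * M) w h b).coeff
      (p ^ (2 * M) - 1) : D.W) : L) - ((h.coeff (p ^ (2 * M) - 1) : D.W) : L)) *
        (D.ζ (2 * M) - 1) ^ r‖ < ‖D.ζ (2 * M + 1) - 1‖ ^ (p * r) := by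
    rw [norm_mul, norm_mul, hm1, one_mul, norm_pow, hφr]
    calc _ < 1 * ‖D.ζ (2 * M + 1) - 1‖ ^ (p * r) := mul_lt_mul_of_pos_right hres hB
      _ = ‖D.ζ (2 * M + 1) - 1‖ ^ (p * r) := one_mul _
  have e4 : ‖(-1) ^ M * ((h.coeff (p ^ (2 * M) - 1) : D.W) : L) *
      ((D.ζ (2 * M) - 1) ^ r - (D.ζ (2 * M + 1) - 1) ^ (p * r))‖ <
        ‖D.ζ (2 * M + 1) - 1‖ ^ (p * r) := by
    rw [norm_mul, norm_mul, hm1, one_mul]
    exact (mul_le_of_le_one_left (norm_nonneg _) hcc).trans_lt hpp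
  have key : ∑ b ∈ Finset.range p, D.ζ (2 * M + 1) ^ b *
      D.T (2 * M) 1 (Ct p (w ^ (p ^ (2 * M + 1) - b) * h)) -
      (-1) ^ M * ((h.coeff (p ^ (2 * M) - 1) : D.W) : L) * (D.ζ (2 * M + 1) - 1) ^ (p * r) =
      ((∑ b ∈ Finset.range p, (D.ζ (2 * M + 1) ^ b - 1) *
        D.T (2 * M) 1 (D.hb (2 * M) w h b)) +
      (∑ b ∈ Finset.range p, D.T (2 * M) 1 (D.hb (2 * M) w h b) -
        (-1) ^ M * (((∑ b ∈ Finset.range p, D.hb (2 * M) w h b).coeff
          (p ^ (2 * M) - 1) : D.W) : L) * (D.ζ (2 * M) - 1) ^ r)) +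
      ((-1) ^ M * ((((∑ b ∈ Finset.range p, D.hb (2 * M) w h b).coeff
        (p ^ (2 * M) - 1) : D.W) : L) - ((h.coeff (p ^ (2 * M) - 1) : D.W) : L)) *
          (D.ζ (2 * M) - 1) ^ r +
      (-1) ^ M * ((h.coeff (p ^ (2 * M) - 1) : D.W) : L) *
        ((D.ζ (2 * M) - 1) ^ r - (D.ζ (2 * M + 1) - 1) ^ (p * r))) := by
    have k1 : ∑ b ∈ Finset.range p, D.ζ (2 * M + 1) ^ b *
        D.T (2 * M) 1 (Ct p (w ^ (p ^ (2 * M + 1) - b) * h)) =
        (∑ b ∈ Finset.range p, (D.ζ (2 * M + 1) ^ b - 1) *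
        D.T (2 * M) 1 (D.hb (2 * M) w h b)) +
        ∑ b ∈ Finset.range p, D.T (2 * M) 1 (D.hb (2 * M) w h b) := by
      rw [← Finset.sum_add_distrib]
      refine Finset.sum_congr rfl fun b _ => ?_
      change _ = (D.ζ (2 * M + 1) ^ b - 1) *
        D.T (2 * M) 1 (Ct p (w ^ (p ^ (2 * M + 1) - b) * h)) +
        D.T (2 * M) 1 (Ct p (w ^ (p ^ (2 * M + 1) - b) * h))
      ring
    rw [k1]
    ring
  rw [key]
  refine (IsUltrametricDist.norm_add_le_max _ _).trans_lt (max_lt ?_ ?_)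
  · exact (IsUltrametricDist.norm_add_le_max _ _).trans_lt (max_lt e1 hS)
  · exact (IsUltrametricDist.norm_add_le_max _ _).trans_lt (max_lt e3 e4)

end SSF
end
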