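import Mathlib
import Pool.Agent.Lib.H1M.PP2.M014
import Pool.Agent.Lib.H1M.PP2.M037
import Pool.Agent.Lib.H1M.PP2.M079
import Pool.Agent.Lib.H1M.PP2.M085
import Pool.Agent.Lib.H1M.PP2.M114

/-! Merged copies (to shorten the build) of Lib.SSG.F.E4, Lib.SSG.F.M2, Lib.SSG.F.M3, Lib.SSG.F.M5, Lib.SSG.F.M4, Lib.SSG.F.Z3, Lib.SSG.F.Z5, Lib.SSG.F.Z4, Lib.SSG.F.Main2, Lib.SSG.S.M1, Lib.SSG.S.C2, Lib.SSG.S.C4. -/

-- from Lib.SSG.F.E4
section

/-! # SSG/F/E4 : the leading term at all levels -/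

open Polynomial
open scoped Classical

namespace SSF

variable {p : ℕ} [Fact p.Prime] {R : ℕ → Type} [∀ N, CommRing (R N)] [∀ N, Fintype (R N)]
  {L : Type} [NormedField L] [IsUltrametricDist L] (D : LTD p R L)

/-- induction: `Lead 1` is `lead_one` (`1/2 = 0`, `p^0 - 1 = 0`, `p^1/(p+1) = 0`), then
`lead_odd_even`, `lead_even_odd` (`n` even or odd). -/
theorem lead (hp3 : 3 ≤ p) (n : ℕ) (hn : 1 ≤ n) : D.Lead n := by
  induction n, hn using Nat.le_induction with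
  | base =>
    intro h
    have h1 := lead_one D h
    have h2 : p ^ 1 / (p + 1) = 0 := Nat.div_eq_of_lt (by rw [pow_one]; omega)
    have h3 : 1 / 2 = 0 := by norm_num
    rw [h2, h3]
    simpa using h1
  | succ n hn ih =>
    rcases Nat.even_or_odd' n with ⟨M, rfl | rfl⟩
    · exact lead_even_odd D hp3 M (by omega) ih
    · exact lead_odd_even D hp3 M ih

end SSF
end

-- from Lib.SSG.F.M2
section

/-! # SSG/F/M2 : `ell` of `T` -/

open Polynomial
open scoped Classical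

namespace SSF

variable {p : ℕ} [Fact p.Prime] {R : ℕ → Type} [∀ N, CommRing (R N)] [∀ N, Fintype (R N)]
  {L : Type} [NormedField L] [IsUltrametricDist L] (D : LTD p R L)

/-- `ell (Tf n h) ≈ (-1)^(n/2) h_(q^(n/2)-1) η^J`, `J = p^n/(p+1)`. PROOF. By `lead` and `O_div`
(`‖Tf n h 1‖ ≤ ‖φ‖^J`, `Tf_mem`; `Tf n h 1 = T n 1 h`, `Units.val_one`) `Tf n h = φ^J y`, `y ∈ O n`, and dividing `lead` by `φ^J`:
`‖y 1 - (-1)^(n/2) h_(q^(n/2)-1)‖ < 1` (`D.φ n 1 = ζ n - 1`: `(1 : ZMod (p^n)).val = 1`, `n ≥ 1`).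
`ell_phi` with `r_dvd`. -/
theorem ell_Tf (hp3 : 3 ≤ p) (n : ℕ) (hn : 1 ≤ n) (χ : DirichletCharacter L (p ^ (n + 1)))
    (hχ : χ.IsPrimitive) (h1 : χ ^ (p ^ n) = 1) (i : ℕ) (hi : 1 ≤ i) (hip : i < p) (h : D.W[X]) :
    ‖D.ell n χ i (D.Tf n h) - (-1) ^ (n / 2) * (h.coeff (p ^ (2 * (n / 2)) - 1) : L) *
      D.eta (n + 1) χ ^ (p ^ n / (p + 1))‖ < ‖D.eta (n + 1) χ‖ ^ (p ^ n / (p + 1)) := by
  set J : ℕ := p ^ n / (p + 1) with hJ
  set c : L := (-1) ^ (n / 2) * (h.coeff (p ^ (2 * (n / 2)) - 1) : L) with hc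
  have hp : p.Prime := Fact.out
  have hc1 : ‖c‖ ≤ 1 := by
    rw [hc, norm_mul, norm_pow, norm_neg, norm_one, one_pow, one_mul]
    exact (h.coeff (p ^ (2 * (n / 2)) - 1)).2.2
  have hl := lead D hp3 n hn h
  rw [← hJ, ← hc] at hl
  have hφ : 0 < ‖D.ζ n - 1‖ ^ J := (norm_nonneg _).trans_lt hl
  have hT : ‖D.Tf n h 1‖ ≤ ‖D.ζ n - 1‖ ^ J := by
    have e : D.Tf n h 1 = (D.T n 1 h - c * (D.ζ n - 1) ^ J) + c * (D.ζ n - 1) ^ J := by
      rw [sub_add_cancel]
      unfold LTD.Tf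
      rw [Units.val_one]
    rw [e]
    refine (IsUltrametricDist.norm_add_le_max _ _).trans (max_le hl.le ?_)
    rw [norm_mul, norm_pow]
    exact mul_le_of_le_one_left hφ.le hc1
  obtain ⟨y, hy, hTy⟩ := O_div D n hn J (D.Tf n h) (Tf_mem D n hn h) hT
  have hne : p ^ n ≠ 1 := by
    have := Nat.one_lt_pow (n := n) (by omega) hp.one_lt
    omega
  have hφ1 : D.φ n 1 = D.ζ n - 1 := by
    unfold LTD.φ
    rw [Units.val_one, ZMod.val_one'' hne, pow_one]
  have h1T : D.T n 1 h = (D.ζ n - 1) ^ J * y 1 := by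
    have h2 := congrFun hTy 1
    rw [Pi.mul_apply, Pi.pow_apply, hφ1] at h2
    rw [← h2]
    unfold LTD.Tf
    rw [Units.val_one]
  have hy1 : ‖y 1 - c‖ < 1 := by
    have e : D.T n 1 h - c * (D.ζ n - 1) ^ J = (D.ζ n - 1) ^ J * (y 1 - c) := by
      rw [h1T]
      ring
    rw [e, norm_mul, norm_pow] at hl
    by_contra hcon
    exact absurd hl (not_lt.2 (le_mul_of_one_le_right hφ.le (not_lt.1 hcon)))
  have hell := ell_phi D hp3 n hn χ hχ h1 i hi hip J (r_dvd n (by omega)) y hy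
  have hfun : D.Tf n h = fun a => D.φ n a ^ J * y a := hTy
  rw [← hfun] at hell
  have hη : 0 < ‖D.eta (n + 1) χ‖ ^ J := (norm_nonneg _).trans_lt hell
  have e : D.ell n χ i (D.Tf n h) - c * D.eta (n + 1) χ ^ J =
      (D.ell n χ i (D.Tf n h) - D.eta (n + 1) χ ^ J * y 1) + D.eta (n + 1) χ ^ J * (y 1 - c) := by
    ring
  rw [e]
  refine (IsUltrametricDist.norm_add_le_max _ _).trans_lt (max_lt hell ?_)
  rw [norm_mul, norm_pow]
  exact mul_lt_of_lt_one_right hη hy1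

end SSF
end

-- from Lib.SSG.F.M3
section

/-! # SSG/F/M3 : the sum of the coefficients -/

open Polynomial
open scoped Classical

namespace SSF

variable {p : ℕ} [Fact p.Prime] {R : ℕ → Type} [∀ N, CommRing (R N)] [∀ N, Fintype (R N)]
  {L : Type} [NormedField L] [IsUltrametricDist L] (D : LTD p R L)

/-- the set of exponents `{N/2, (N+1)/2}`. -/
def Eset (N : ℕ) : Finset ℕ := {N / 2, (N + 1) / 2}

theorem m3_cast : ((p : ℕ) : D.κ) = 0 := by
  rw [← map_natCast D.res, Ideal.Quotient.eq_zero_iff_mem]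
  have h : ‖(((p : ℕ) : D.W) : L)‖ < 1 := by
    rw [Subring.coe_natCast]
    exact D.hp1
  exact h

/-- `n` odd, `n = 2M + 1`, `N = 2M + 2`: the sum of the `p - 1` coefficients
`- h_(p^(2(M+1))-1)` is `h_(..)` modulo the maximal ideal (`hb_coeff_odd`, `(p - 1 : κ) = -1`),
and `Eset (2M+2) = {M + 1}`. -/
theorem sum_coeff_odd (hp3 : 3 ≤ p) (M : ℕ) (w h : D.W[X]) (hw : D.IsW (2 * M + 2) w) :
    D.res (∑ b ∈ Finset.Ico 1 p, (D.hb (2 * M + 1) w h b).coeff (p ^ (2 * M) - 1)) =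
      D.res (∑ e ∈ Eset (2 * M + 2), h.coeff (p ^ (2 * e) - 1)) := by
  have h1 : Eset (2 * M + 2) = {M + 1} := by
    unfold Eset
    have h2 : (2 * M + 2) / 2 = M + 1 := by omega
    have h3 : (2 * M + 2 + 1) / 2 = M + 1 := by omega
    rw [h2, h3, Finset.pair_eq_singleton]
  rw [h1, Finset.sum_singleton, map_sum, Finset.sum_congr rfl fun b _ => hb_coeff_odd D hp3 M w h hw b,
    Finset.sum_const, Nat.card_Ico, nsmul_eq_mul]
  have h2 : ((p : ℕ) : D.κ) = 0 := m3_cast D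
  have h3 : ((p - 1 : ℕ) : D.κ) = -1 := by
    rw [Nat.cast_sub (by omega), h2, Nat.cast_one, zero_sub]
  rw [h3]
  ring

/-- `n = 2 M`, `N = 2M + 1`: the sum over `1 ≤ b < p` is the sum over `b < p` (`hb_sum_even`) minus
the term `b = 0` (`hb_zero_even`), so `h_(p^(2M)-1) + h_(p^(2M+2)-1)`; `Eset (2M+1) = {M, M+1}`. -/
theorem sum_coeff_even (hp3 : 3 ≤ p) (M : ℕ) (w h : D.W[X]) (hw : D.IsW (2 * M + 1) w) :
    D.res (∑ b ∈ Finset.Ico 1 p, (D.hb (2 * M) w h b).coeff (p ^ (2 * M) - 1)) =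
      D.res (∑ e ∈ Eset (2 * M + 1), h.coeff (p ^ (2 * e) - 1)) := by
  have h1 : Eset (2 * M + 1) = {M, M + 1} := by
    unfold Eset
    have h2 : (2 * M + 1) / 2 = M := by omega
    have h3 : (2 * M + 1 + 1) / 2 = M + 1 := by omega
    rw [h2, h3]
  have hne : M ≠ M + 1 := by omega
  have h0 := hb_zero_even D hp3 M w h hw
  have h2 := hb_sum_even D hp3 M w h hw
  rw [Polynomial.finset_sum_coeff, map_sum] at h2
  have h3 : ∑ b ∈ Finset.range p, D.res ((D.hb (2 * M) w h b).coeff (p ^ (2 * M) - 1)) =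
      D.res ((D.hb (2 * M) w h 0).coeff (p ^ (2 * M) - 1)) +
        ∑ b ∈ Finset.Ico 1 p, D.res ((D.hb (2 * M) w h b).coeff (p ^ (2 * M) - 1)) := by
    rw [Finset.range_eq_Ico, Finset.sum_eq_sum_Ico_succ_bot (by omega)]
  rw [h3, h0] at h2
  rw [h1, Finset.sum_pair hne, map_add, map_sum, ← h2]
  ring

end SSF
end

-- from Lib.SSG.F.M5
section

/-! # SSG/F/M5 : the functionals `T_e` on polynomials -/

open Polynomial
open scoped Classical

namespace SSF

variable {p : ℕ} [Fact p.Prime] {R : ℕ → Type} [∀ N, CommRing (R N)] [∀ N, Fintype (R N)]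
  {L : Type} [NormedField L] [IsUltrametricDist L] (D : LTD p R L)

/-- `T_e(h) = (-p)^(-e) sum over p^(N-e) R N of h(X x)` is congruent to `h_(q^e-1)`. PROOF.
`sub_sum`: the sum is `p^e ((Ct p)^[e] h).coeff 0`, so `T_e(h) = (-1)^e (..).coeff 0`
(`(-p)^(-e) p^e = (-1)^e`, `D.hp0`), and `res_Ct_iter`: its residue is
`(-1)^e (-1)^e h_(p^(2e)-1)`; `res_eq_iff`. -/
theorem Te_congr (N e : ℕ) (he : e ≤ N) (h : D.W[X]) :
    ‖((-(p : L)) ^ e)⁻¹ * ∑ x ∈ Finset.univ.filter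
        (fun x : R N => ∃ y : R N, x = (p : R N) ^ (N - e) * y), D.ev h (D.X N x) -
      (h.coeff (p ^ (2 * e) - 1) : L)‖ < 1 := by
  have hp : p.Prime := Fact.out
  rw [sub_sum D N e he h]
  have h1 : ((-(p : L)) ^ e)⁻¹ * ((p : L) ^ e * (((Ct p)^[e] h).coeff 0 : L)) =
      (((-1 : D.W) ^ e * ((Ct p)^[e] h).coeff 0 : D.W) : L) := by
    rw [Subring.coe_mul, Subring.coe_pow, Subring.coe_neg, Subring.coe_one, neg_pow, mul_inv,
      ← inv_pow, inv_neg, inv_one]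
    have hpe : ((p : L) ^ e) ≠ 0 := pow_ne_zero _ D.hp0
    field_simp
  rw [h1, ← res_eq_iff, map_mul, res_Ct_iter D hp.two_le, map_pow, map_neg, map_one]
  rw [← mul_assoc, ← mul_pow]
  simp

end SSF
end

-- from Lib.SSG.F.M4
section

/-! # SSG/F/M4 : the one-variable theorem -/

open Polynomial
open scoped Classical

namespace SSF

variable {p : ℕ} [Fact p.Prime] {R : ℕ → Type} [∀ N, CommRing (R N)] [∀ N, Fintype (R N)]
  {L : Type} [NormedField L] [IsUltrametricDist L] (D : LTD p R L)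

omit [Fact p.Prime] [∀ N, CommRing (R N)] [∀ N, Fintype (R N)] in
theorem m4_sum_lt (s : Finset ℕ) (g : ℕ → L) (C : ℝ) (hC : 0 < C) (h : ∀ v ∈ s, ‖g v‖ < C) :
    ‖∑ v ∈ s, g v‖ < C := by
  rcases s.eq_empty_or_nonempty with rfl | hne
  · simpa using hC
  · obtain ⟨v, hv, hle⟩ := IsUltrametricDist.exists_norm_finsetSum_le s g
    exact hle.trans_lt (h v (hv hne))

/-- the residue of the sum of the coefficients, in both parities -/
theorem m4_coeff (hp3 : 3 ≤ p) (n : ℕ) (w h : D.W[X]) (hw : D.IsW (n + 1) w) :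
    ‖(∑ b ∈ Finset.Ico 1 p, ((D.hb n w h b).coeff (p ^ (2 * (n / 2)) - 1) : L)) -
      ∑ e ∈ Eset (n + 1), (h.coeff (p ^ (2 * e) - 1) : L)‖ < 1 := by
  have key : D.res (∑ b ∈ Finset.Ico 1 p, (D.hb n w h b).coeff (p ^ (2 * (n / 2)) - 1)) =
      D.res (∑ e ∈ Eset (n + 1), h.coeff (p ^ (2 * e) - 1)) := by
    rcases Nat.even_or_odd' n with ⟨M, rfl | rfl⟩
    · have e1 : 2 * M / 2 = M := by omega
      rw [e1]
      exact sum_coeff_even D hp3 M w h hw
    · have e1 : (2 * M + 1) / 2 = M := by omega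
      rw [e1]
      exact sum_coeff_odd D hp3 M w h hw
  have h2 := (res_eq_iff D _ _).1 key
  rw [AddSubmonoidClass.coe_finsetSum, AddSubmonoidClass.coe_finsetSum] at h2
  exact h2

/-- The one-variable theorem: `S_χ(h) ≈ tau η^J rho sum_(e ∈ Eset N) h_(q^e - 1)`, `N = n + 1`,
`rho = -(-1)^((N+1)/2)`. PROOF. `w` from `exists_w n`; `S_decomp`; for every `b` `ell_Tf` with
`h_b`; the sum of the coefficients by `sum_coeff_odd` / `sum_coeff_even` (`n` odd or even, `n/2 = M`),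
`res_eq_iff`. Sign: `n = 2M + 1`: `(-1)^M = -(-1)^(M+1) = -(-1)^((N+1)/2)` (`N + 1 = 2M+3`,
`(N+1)/2 = M + 1`); `n = 2M`: `(-1)^M = -(-1)^(M+1)`, `(N+1)/2 = (2M+2)/2 = M+1`. -/
theorem one_var (hp3 : 3 ≤ p) (n : ℕ) (hn : 1 ≤ n) (χ : DirichletCharacter L (p ^ (n + 1)))
    (hχ : χ.IsPrimitive) (h1 : χ ^ (p ^ n) = 1) (h : D.W[X]) :
    ‖D.S (n + 1) χ h - D.tau (n + 1) χ * D.eta (n + 1) χ ^ (p ^ n / (p + 1)) *
      (-(-1) ^ ((n + 2) / 2) * ∑ e ∈ Eset (n + 1), (h.coeff (p ^ (2 * e) - 1) : L))‖ <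
        ‖D.tau (n + 1) χ * D.eta (n + 1) χ ^ (p ^ n / (p + 1))‖ := by
  obtain ⟨w, hw⟩ := exists_w D n
  rw [S_decomp D n hn χ hχ w hw h]
  set t : L := D.tau (n + 1) χ with ht
  set η : L := D.eta (n + 1) χ with hη
  set J : ℕ := p ^ n / (p + 1) with hJ
  set cb : ℕ → L := fun b => ((D.hb n w h b).coeff (p ^ (2 * (n / 2)) - 1) : L) with hcb
  set E : L := ∑ e ∈ Eset (n + 1), (h.coeff (p ^ (2 * e) - 1) : L) with hE
  have ht0 : t ≠ 0 := tau_ne D (n + 1) χ hχ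
  have hb : ∀ b ∈ Finset.Ico 1 p, ‖D.ell n χ b (D.Tf n (D.hb n w h b)) -
      (-1) ^ (n / 2) * cb b * η ^ J‖ < ‖η‖ ^ J := by
    intro b hb
    rw [Finset.mem_Ico] at hb
    exact ell_Tf D hp3 n hn χ hχ h1 b hb.1 hb.2 _
  have hpos : 0 < ‖η‖ ^ J := by
    have h3 := hb 1 (by rw [Finset.mem_Ico]; omega)
    exact (norm_nonneg _).trans_lt h3
  have hsum := m4_sum_lt (Finset.Ico 1 p) _ _ hpos hb
  rw [Finset.sum_sub_distrib, ← Finset.sum_mul, ← Finset.mul_sum] at hsum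
  have hco : ‖(∑ b ∈ Finset.Ico 1 p, cb b) - E‖ < 1 := m4_coeff D hp3 n w h hw
  have hsign : (-(-1 : L) ^ ((n + 2) / 2)) = (-1) ^ (n / 2) := by
    have e1 : (n + 2) / 2 = n / 2 + 1 := by omega
    rw [e1, pow_succ]
    ring
  rw [hsign]
  set A : L := ∑ b ∈ Finset.Ico 1 p, D.ell n χ b (D.Tf n (D.hb n w h b)) with hA
  set B : L := ∑ b ∈ Finset.Ico 1 p, cb b with hB
  have hdec : t * A - t * η ^ J * ((-1) ^ (n / 2) * E) =
      t * ((A - (-1) ^ (n / 2) * B * η ^ J) + (-1) ^ (n / 2) * (B - E) * η ^ J) := by ring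
  rw [hdec, norm_mul, norm_mul, norm_pow]
  refine mul_lt_mul_of_pos_left ?_ (norm_pos_iff.2 ht0)
  refine (IsUltrametricDist.norm_add_le_max _ _).trans_lt (max_lt hsum ?_)
  rw [norm_mul, norm_mul, norm_pow, norm_neg, norm_one, one_pow, one_mul, norm_pow]
  calc ‖B - E‖ * ‖η‖ ^ J < 1 * ‖η‖ ^ J := mul_lt_mul_of_pos_right hco hpos
    _ = ‖η‖ ^ J := one_mul _

end SSF
end

-- from Lib.SSG.F.Z3
section

/-! # SSG/F/Z3 : the main theorem for monomials -/

open Polynomial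
open scoped Classical

namespace SSF

variable {p : ℕ} [Fact p.Prime] {R : ℕ → Type} [∀ N, CommRing (R N)] [∀ N, Fintype (R N)]
  {L : Type} [NormedField L] [IsUltrametricDist L] (D : LTD p R L)

/-- the main constant `kappa = tau eta^J`. -/
noncomputable def LTD.kap (D : LTD p R L) (n : ℕ) (χ : DirichletCharacter L (p ^ (n + 1))) : L :=
  D.tau (n + 1) χ * D.eta (n + 1) χ ^ (p ^ n / (p + 1))

/-- `kap ≠ 0` (`tau_ne`; `eta_norm`, `phi_pos`) and its norm: with `E = p^(n-1)(p-1)`,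
`‖kap‖^(2E) = (‖tau‖^2)^E (‖eta‖^E)^(2J) = ‖p‖^((n+1)E) ‖p‖^(2J)` (`tau_norm`, `eta_norm`, `phi_e`). -/
theorem kap_norm (hp3 : 3 ≤ p) (n : ℕ) (hn : 1 ≤ n) (χ : DirichletCharacter L (p ^ (n + 1)))
    (hχ : χ.IsPrimitive) (h1 : χ ^ (p ^ n) = 1) :
    D.kap n χ ≠ 0 ∧ ‖D.kap n χ‖ ^ (2 * (p ^ (n - 1) * (p - 1))) =
      ‖(p : L)‖ ^ ((n + 1) * (p ^ (n - 1) * (p - 1)) + 2 * (p ^ n / (p + 1))) := by
  obtain ⟨h0, hl⟩ := phi_pos D n hn
  have he := eta_norm D hp3 n hn χ hχ h1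
  have ht := tau_norm D (n + 1) χ hχ n (Nat.le_succ n) h1
  have hφ := phi_e D n hn
  constructor
  · refine mul_ne_zero (tau_ne D (n + 1) χ hχ) (pow_ne_zero _ ?_)
    rw [← norm_pos_iff, he]
    exact h0
  · unfold LTD.kap
    rw [norm_mul, norm_pow, he, mul_pow, pow_mul, ht, ← pow_mul, ← pow_mul,
      show p ^ n / (p + 1) * (2 * (p ^ (n - 1) * (p - 1))) = (p ^ (n - 1) * (p - 1)) * (2 * (p ^ n / (p + 1))) by ring,
      pow_mul ‖D.ζ n - 1‖, hφ, ← pow_add]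

variable {K : Type} [NormedField K] [IsUltrametricDist K] (j : L →+* K) (hj : ∀ x, ‖j x‖ = ‖x‖)

include hj in
/-- The main theorem for a monomial. PROOF. `N = n + 1`, `d_e(m) = 1` if `m = p^(2e) - 1` and `0`
otherwise (`(X^m).coeff`). `SK = c prod_i j(S(X^(m_i)))` (`SK_mono`), and by `one_var` divided by `kap`
`a_i = j(S(X^(m_i)))/j(kap)` satisfies `‖a_i - rho sum_(e ∈ Eset N) d_e(m_i)‖ < 1`. `TK e = c prod_i t`
(`TK_mono`) with `‖t_(e_i)(m_i) - d_(e_i)(m_i)‖ < 1` (`Te_congr`, `e_i ≤ N`; `Eset N ⊆ {e ≤ N}`).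
`prod_approx` for both; `prod_i rho sum_(e) d_e(m_i) = rho^g sum_(e ∈ piFinset) prod_i d_(e_i)(m_i)`
(`Finset.prod_univ_sum`). `‖c‖ ≤ 1`. -/
theorem main_mono (hp3 : 3 ≤ p) (n : ℕ) (hn : 1 ≤ n) (χ : DirichletCharacter L (p ^ (n + 1)))
    (hχ : χ.IsPrimitive) (h1 : χ ^ (p ^ n) = 1) (ι : Type) [Fintype ι] (m : ι → ℕ) (c : K) (hc : ‖c‖ ≤ 1) :
    (∀ e : ι → ℕ, (∀ i, e i ≤ n + 1) →
      ‖D.TK (n + 1) ι e (fun x => c * ∏ i, j (D.X (n + 1) (x i)) ^ m i)‖ ≤ 1) ∧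
    ‖D.SK j (n + 1) ι χ (fun x => c * ∏ i, j (D.X (n + 1) (x i)) ^ m i) / j (D.kap n χ) ^ Fintype.card ι -
      (rho (n + 1) : K) ^ Fintype.card ι * ∑ e ∈ Fintype.piFinset (fun _ : ι => Eset (n + 1)),
        D.TK (n + 1) ι e (fun x => c * ∏ i, j (D.X (n + 1) (x i)) ^ m i)‖ < 1 := by
  let t : ℕ → ℕ → L := fun e k => ((-(p : L)) ^ e)⁻¹ * ∑ x ∈ Finset.univ.filter
    (fun x : R (n + 1) => ∃ y : R (n + 1), x = (p : R (n + 1)) ^ (n + 1 - e) * y), D.ev (X ^ k) (D.X (n + 1) x)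
  let d : ℕ → ℕ → L := fun e k => (((X : D.W[X]) ^ k).coeff (p ^ (2 * e) - 1) : D.W)
  have hd : ∀ e k, ‖j (d e k)‖ ≤ 1 := fun e k => by
    rw [hj]
    exact (((X : D.W[X]) ^ k).coeff (p ^ (2 * e) - 1)).2.2
  have ht : ∀ e k, e ≤ n + 1 → ‖j (t e k) - j (d e k)‖ < 1 := fun e k he => by
    rw [← map_sub, hj]
    exact Te_congr D (n + 1) e he (X ^ k)
  have hTK : ∀ e : ι → ℕ, D.TK (n + 1) ι e (fun x => c * ∏ i, j (D.X (n + 1) (x i)) ^ m i) =
      c * ∏ i, j (t (e i) (m i)) := fun e => TK_mono D j (n + 1) ι e m c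
  have hcm : ∀ z : K, ‖z‖ < 1 → ‖c * z‖ < 1 := fun z hz => by
    rw [norm_mul]
    exact (mul_le_of_le_one_left (norm_nonneg _) hc).trans_lt hz
  constructor
  · intro e he
    rw [hTK, norm_mul]
    exact mul_le_one₀ hc (norm_nonneg _) (prod_approx Finset.univ (fun i => j (t (e i) (m i))) (fun i => j (d (e i) (m i)))
      (fun i _ => ht _ _ (he i)) (fun i _ => hd _ _)).2
  · obtain ⟨hk, -⟩ := kap_norm D hp3 n hn χ hχ h1
    have hk' : 0 < ‖D.kap n χ‖ := norm_pos_iff.2 hk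
    have hjk : j (D.kap n χ) ≠ 0 := (map_ne_zero j).2 hk
    have hes : ∀ e ∈ Eset (n + 1), e ≤ n + 1 := by
      intro e he
      simp only [Eset, Finset.mem_insert, Finset.mem_singleton] at he
      omega
    have hr1 : ‖((rho (n + 1) : ℤ) : K)‖ ≤ 1 := IsUltrametricDist.norm_intCast_le_one K _
    have hA : ∀ i, ‖j (D.S (n + 1) χ (X ^ m i)) / j (D.kap n χ) - (rho (n + 1) : K) * ∑ e ∈ Eset (n + 1), j (d e (m i))‖ < 1 := by
      intro i
      have h3 := one_var D hp3 n hn χ hχ h1 (X ^ m i)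
      have h4 : j (D.S (n + 1) χ (X ^ m i)) / j (D.kap n χ) - (rho (n + 1) : K) * ∑ e ∈ Eset (n + 1), j (d e (m i)) =
          j ((D.S (n + 1) χ (X ^ m i) - D.kap n χ * (-(-1) ^ ((n + 2) / 2) * ∑ e ∈ Eset (n + 1), d e (m i))) / D.kap n χ) := by
        rw [sub_div, mul_div_cancel_left₀ _ hk, map_sub, map_div₀, map_mul, map_neg, map_pow, map_neg, map_one, map_sum]
        unfold rho
        push_cast
        rfl
      rw [h4, hj, norm_div, div_lt_one hk']
      exact h3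
    have hB : ∀ i, ‖(rho (n + 1) : K) * ∑ e ∈ Eset (n + 1), j (d e (m i))‖ ≤ 1 := by
      intro i
      rw [norm_mul]
      refine mul_le_one₀ hr1 (norm_nonneg _) ?_
      exact IsUltrametricDist.norm_sum_le_of_forall_le_of_nonneg zero_le_one fun e _ => hd _ _
    have hp1 := (prod_approx Finset.univ (fun i => j (D.S (n + 1) χ (X ^ m i)) / j (D.kap n χ))
      (fun i => (rho (n + 1) : K) * ∑ e ∈ Eset (n + 1), j (d e (m i))) (fun i _ => hA i) (fun i _ => hB i)).1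
    have hprod : ∏ i : ι, ((rho (n + 1) : K) * ∑ e ∈ Eset (n + 1), j (d e (m i))) =
        (rho (n + 1) : K) ^ Fintype.card ι * ∑ e ∈ Fintype.piFinset (fun _ : ι => Eset (n + 1)), ∏ i, j (d (e i) (m i)) := by
      rw [Finset.prod_mul_distrib, Finset.prod_const, Finset.card_univ, Finset.prod_univ_sum]
    rw [hprod] at hp1
    have hsum : ‖∑ e ∈ Fintype.piFinset (fun _ : ι => Eset (n + 1)), (∏ i, j (t (e i) (m i)) - ∏ i, j (d (e i) (m i)))‖ < 1 := by
      have hgen : ∀ (s : Finset (ι → ℕ)) (f : (ι → ℕ) → K), (∀ e ∈ s, ‖f e‖ < 1) → ‖∑ e ∈ s, f e‖ < 1 := by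
        intro s f
        induction s using Finset.induction_on with
        | empty => intro _; simp
        | insert a s ha ih =>
          intro h
          rw [Finset.sum_insert ha]
          exact (IsUltrametricDist.norm_add_le_max _ _).trans_lt (max_lt (h a (Finset.mem_insert_self a s))
            (ih fun e he => h e (Finset.mem_insert_of_mem he)))
      refine hgen _ _ fun e he => ?_
      rw [Fintype.mem_piFinset] at he
      exact (prod_approx Finset.univ (fun i => j (t (e i) (m i))) (fun i => j (d (e i) (m i)))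
        (fun i _ => ht _ _ (hes _ (he i))) (fun i _ => hd _ _)).1
    have hS : D.SK j (n + 1) ι χ (fun x => c * ∏ i, j (D.X (n + 1) (x i)) ^ m i) / j (D.kap n χ) ^ Fintype.card ι =
        c * ∏ i, (j (D.S (n + 1) χ (X ^ m i)) / j (D.kap n χ)) := by
      rw [SK_mono, Finset.prod_div_distrib, Finset.prod_const, Finset.card_univ, mul_div_assoc]
    rw [hS, Finset.sum_congr rfl fun e _ => hTK e, ← Finset.mul_sum]
    have key : c * ∏ i, (j (D.S (n + 1) χ (X ^ m i)) / j (D.kap n χ)) -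
        (rho (n + 1) : K) ^ Fintype.card ι * (c * ∑ e ∈ Fintype.piFinset (fun _ : ι => Eset (n + 1)), ∏ i, j (t (e i) (m i))) =
        c * (∏ i, (j (D.S (n + 1) χ (X ^ m i)) / j (D.kap n χ)) -
          (rho (n + 1) : K) ^ Fintype.card ι * ∑ e ∈ Fintype.piFinset (fun _ : ι => Eset (n + 1)), ∏ i, j (d (e i) (m i))) -
        c * ((rho (n + 1) : K) ^ Fintype.card ι *
          ∑ e ∈ Fintype.piFinset (fun _ : ι => Eset (n + 1)), (∏ i, j (t (e i) (m i)) - ∏ i, j (d (e i) (m i)))) := by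
      rw [Finset.sum_sub_distrib]
      ring
    rw [key, sub_eq_add_neg]
    refine (IsUltrametricDist.norm_add_le_max _ _).trans_lt (max_lt (hcm _ hp1) ?_)
    rw [norm_neg]
    refine hcm _ ?_
    rw [norm_mul, norm_pow]
    exact (mul_le_of_le_one_left (norm_nonneg _) (pow_le_one₀ (norm_nonneg _) hr1)).trans_lt hsum

end SSF
end

-- from Lib.SSG.F.Z5
section

/-! # SSG/F/Z5 : `T_e` is integral at every level -/

open Polynomial
open scoped Classical

namespace SSF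

variable {p : ℕ} [Fact p.Prime] {R : ℕ → Type} [∀ N, CommRing (R N)] [∀ N, Fintype (R N)]
  {L : Type} [NormedField L] [IsUltrametricDist L] (D : LTD p R L)

variable {K : Type} [NormedField K] [IsUltrametricDist K] (j : L →+* K) (hj : ∀ x, ‖j x‖ = ‖x‖)

include hj in
theorem z5_mono (N : ℕ) (ι : Type) [Fintype ι] (e : ι → ℕ) (he : ∀ i, e i ≤ N) (m : ι → ℕ) (c : K)
    (hc : ‖c‖ ≤ 1) : ‖D.TK N ι e (fun x => c * ∏ i, j (D.X N (x i)) ^ m i)‖ ≤ 1 := by
  rw [TK_mono, norm_mul]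
  refine mul_le_one₀ hc (norm_nonneg _) ?_
  refine (prod_approx Finset.univ _
    (fun i => j (((X : D.W[X]) ^ m i).coeff (p ^ (2 * e i) - 1) : L)) (fun i _ => ?_)
    (fun i _ => ?_)).2
  · rw [← map_sub, hj]
    exact Te_congr D N (e i) (he i) (X ^ m i)
  · rw [hj]
    exact (((X : D.W[X]) ^ m i).coeff (p ^ (2 * e i) - 1)).2.2

theorem z5_add (N : ℕ) (ι : Type) [Fintype ι] (e : ι → ℕ) {α : Type} (s : Finset α)
    (F : α → (ι → R N) → K) :
    D.TK N ι e (fun x => ∑ a ∈ s, F a x) = ∑ a ∈ s, D.TK N ι e (F a) := by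
  unfold LTD.TK
  rw [Finset.sum_comm, Finset.mul_sum]

theorem z5_sub (N : ℕ) (ι : Type) [Fintype ι] (e : ι → ℕ) (F G : (ι → R N) → K) :
    D.TK N ι e F = D.TK N ι e G + D.TK N ι e (fun x => F x - G x) := by
  unfold LTD.TK
  rw [← mul_add, ← Finset.sum_add_distrib]
  congr 1
  refine Finset.sum_congr rfl fun x _ => ?_
  ring

include hj in
theorem z5_small (N : ℕ) (ι : Type) [Fintype ι] (e : ι → ℕ) (he : ∀ i, e i ≤ N)
    (F : (ι → R N) → K) (hF : ∀ x, ‖F x‖ < ‖(p : K)‖ ^ (N * Fintype.card ι)) :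
    ‖D.TK N ι e F‖ ≤ 1 := by
  have hp : ‖(p : K)‖ = ‖(p : L)‖ := by rw [← map_natCast j, hj]
  have hp0 : 0 < ‖(p : K)‖ := by rw [hp]; exact norm_pos_iff.2 D.hp0
  have hp1 : ‖(p : K)‖ < 1 := by rw [hp]; exact D.hp1
  unfold LTD.TK
  rw [norm_mul, norm_prod]
  have h1 : ∏ i, ‖((-(p : K)) ^ (e i))⁻¹‖ = (‖(p : K)‖ ^ ∑ i, e i)⁻¹ := by
    rw [← Finset.prod_pow_eq_pow_sum, ← Finset.prod_inv_distrib]
    refine Finset.prod_congr rfl fun i _ => ?_
    rw [norm_inv, norm_pow, norm_neg]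
  have h2 : ‖∑ x ∈ Finset.univ.filter
      (fun x : ι → R N => ∀ i, ∃ y : R N, x i = (p : R N) ^ (N - e i) * y), F x‖ ≤
      ‖(p : K)‖ ^ (N * Fintype.card ι) :=
    IsUltrametricDist.norm_sum_le_of_forall_le_of_nonneg (by positivity) fun x _ => (hF x).le
  have h3 : ∑ i, e i ≤ N * Fintype.card ι := by
    have h4 : ∑ i, e i ≤ ∑ _i : ι, N := Finset.sum_le_sum fun i _ => he i
    rw [Finset.sum_const, Finset.card_univ, smul_eq_mul, mul_comm] at h4
    exact h4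
  have h5 : ‖(p : K)‖ ^ (N * Fintype.card ι) ≤ ‖(p : K)‖ ^ ∑ i, e i :=
    pow_le_pow_of_le_one hp0.le hp1.le h3
  rw [h1, inv_mul_le_iff₀ (by positivity), mul_one]
  exact h2.trans h5

include hj in
/-- `‖TK N ι e H‖ ≤ 1` for `H` in `CalF`, at every level `N`, `e i ≤ N`. PROOF. For a monomial
`c prod X^(m_i)`, `‖c‖ ≤ 1`: `TK_mono`, `Te_congr` (every factor has norm `≤ 1`), `prod_approx`. For
polynomials by additivity and the ultrametric inequality (`MvPolynomial.eval_eq'`); in general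
choose `P` with error `< ‖p‖^(N card ι)` (`‖(prod (-p)^(e i))⁻¹‖ ≤ ‖p‖^(-N card ι)`). -/
theorem TK_int (N : ℕ) (ι : Type) [Fintype ι] (H : (ι → R N) → K) (hH : D.CalF j N ι H)
    (e : ι → ℕ) (he : ∀ i, e i ≤ N) : ‖D.TK N ι e H‖ ≤ 1 := by
  have hp : ‖(p : K)‖ = ‖(p : L)‖ := by rw [← map_natCast j, hj]
  have hp0 : 0 < ‖(p : K)‖ := by rw [hp]; exact norm_pos_iff.2 D.hp0
  obtain ⟨P, hP, hx⟩ := hH (‖(p : K)‖ ^ (N * Fintype.card ι)) (by positivity)
  rw [z5_sub D N ι e H (fun x => MvPolynomial.eval (fun i => j (D.X N (x i))) P)]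
  refine (IsUltrametricDist.norm_add_le_max _ _).trans (max_le ?_ ?_)
  · have h1 : (fun x : ι → R N => MvPolynomial.eval (fun i => j (D.X N (x i))) P) =
        fun x => ∑ m ∈ P.support, P.coeff m * ∏ i, j (D.X N (x i)) ^ m i := by
      funext x
      rw [MvPolynomial.eval_eq']
    rw [h1, z5_add]
    exact IsUltrametricDist.norm_sum_le_of_forall_le_of_nonneg zero_le_one fun m _ =>
      z5_mono D j hj N ι e he (fun i => m i) _ (hP m)
  · exact z5_small D j hj N ι e he _ hx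

end SSF
end

-- from Lib.SSG.F.Z4
section

/-! # SSG/F/Z4 : the main theorem -/

open Polynomial
open scoped Classical

namespace SSF

variable {p : ℕ} [Fact p.Prime] {R : ℕ → Type} [∀ N, CommRing (R N)] [∀ N, Fintype (R N)]
  {L : Type} [NormedField L] [IsUltrametricDist L] (D : LTD p R L)

variable {K : Type} [NormedField K] [IsUltrametricDist K] (j : L →+* K) (hj : ∀ x, ‖j x‖ = ‖x‖)

omit [Fact p.Prime] [∀ N, CommRing (R N)] [∀ N, Fintype (R N)] in
theorem z4_sum_lt {α K' : Type} [NormedField K'] [IsUltrametricDist K'] (s : Finset α) (g : α → K')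
    (C : ℝ) (hC : 0 < C) (h : ∀ v ∈ s, ‖g v‖ < C) :
    ‖∑ v ∈ s, g v‖ < C := by
  rcases s.eq_empty_or_nonempty with rfl | hne
  · simpa using hC
  · haveI : Nonempty α := ⟨hne.choose⟩
    obtain ⟨v, hv, hle⟩ := IsUltrametricDist.exists_norm_finsetSum_le s g
    exact hle.trans_lt (h v (hv hne))

omit [Fact p.Prime] [∀ N, CommRing (R N)] [∀ N, Fintype (R N)] in
theorem z4_sum_le {α K' : Type} [NormedField K'] [IsUltrametricDist K'] (s : Finset α) (g : α → K')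
    (C : ℝ) (hC : 0 ≤ C) (h : ∀ v ∈ s, ‖g v‖ ≤ C) :
    ‖∑ v ∈ s, g v‖ ≤ C := by
  rcases s.eq_empty_or_nonempty with rfl | hne
  · simpa using hC
  · haveI : Nonempty α := ⟨hne.choose⟩
    obtain ⟨v, hv, hle⟩ := IsUltrametricDist.exists_norm_finsetSum_le s g
    exact hle.trans (h v (hv hne))

omit [Fact p.Prime] [IsUltrametricDist L] in
theorem z4_SK_sum {K' : Type} [NormedField K'] (j' : L →+* K') (N : ℕ) (ι : Type) [Fintype ι]
    (χ : DirichletCharacter L (p ^ N)) {α : Type} (s : Finset α) (F : α → (ι → R N) → K') :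
    D.SK j' N ι χ (fun x => ∑ d ∈ s, F d x) = ∑ d ∈ s, D.SK j' N ι χ (F d) := by
  unfold LTD.SK
  simp only [Finset.mul_sum]
  exact Finset.sum_comm

omit [Fact p.Prime] [IsUltrametricDist L] in
theorem z4_TK_sum {K' : Type} [NormedField K'] (N : ℕ) (ι : Type) [Fintype ι]
    (e : ι → ℕ) {α : Type} (s : Finset α) (F : α → (ι → R N) → K') :
    D.TK N ι e (fun x => ∑ d ∈ s, F d x) = ∑ d ∈ s, D.TK N ι e (F d) := by
  unfold LTD.TK
  rw [← Finset.mul_sum]
  congr 1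
  exact Finset.sum_comm

theorem z4_SK_add {K' : Type} [NormedField K'] (j' : L →+* K') (N : ℕ) (ι : Type) [Fintype ι]
    (χ : DirichletCharacter L (p ^ N)) (F G : (ι → R N) → K') :
    D.SK j' N ι χ F = D.SK j' N ι χ G + D.SK j' N ι χ (fun x => F x - G x) := by
  unfold LTD.SK
  rw [← Finset.sum_add_distrib]
  refine Finset.sum_congr rfl fun x _ => ?_
  ring

theorem z4_TK_add {K' : Type} [NormedField K'] (N : ℕ) (ι : Type) [Fintype ι]
    (e : ι → ℕ) (F G : (ι → R N) → K') :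
    D.TK N ι e F = D.TK N ι e G + D.TK N ι e (fun x => F x - G x) := by
  unfold LTD.TK
  rw [← mul_add, ← Finset.sum_add_distrib]
  congr 1
  refine Finset.sum_congr rfl fun x _ => ?_
  ring

omit [∀ N, CommRing (R N)] [∀ N, Fintype (R N)] [IsUltrametricDist L] in
theorem z4_chi (N m : ℕ) (hm : m ≠ 0) (χ : DirichletCharacter L (p ^ N)) (h1 : χ ^ m = 1)
    (a : ZMod (p ^ N)) : ‖χ a‖ ≤ 1 := by
  by_cases ha : IsUnit a
  · have h2 : (χ a) ^ m = 1 := by
      rw [← MulChar.pow_apply' χ hm, h1, MulChar.one_apply ha]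
    have h3 : ‖χ a‖ ^ m = 1 := by rw [← norm_pow, h2, norm_one]
    exact ((pow_eq_one_iff_of_nonneg (norm_nonneg _) hm).1 h3).le
  · rw [MulChar.map_nonunit χ ha, norm_zero]
    exact zero_le_one

omit [Fact p.Prime] [∀ N, CommRing (R N)] [∀ N, Fintype (R N)] in
theorem z4_rho {K' : Type} [NormedField K'] (N : ℕ) : ‖((rho N : ℤ) : K')‖ = 1 := by
  unfold rho
  push_cast
  rw [norm_neg, norm_pow, norm_neg, norm_one, one_pow]

include hj in
/-- The main theorem for polynomials with coefficients of norm `≤ 1`. PROOF. `P = sum of monomials`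
(`MvPolynomial.eval_eq'`: `eval f P = sum over d ∈ support of coeff d P * prod_i f i ^ d i`), `SK` and
`TK` are additive (finite sums commute), `main_mono` for every monomial and the ultrametric bound
of a finite sum (`IsUltrametricDist.norm_sum_lt`-type; if the support is empty the sum is `0`). -/
theorem main_poly (hp3 : 3 ≤ p) (n : ℕ) (hn : 1 ≤ n) (χ : DirichletCharacter L (p ^ (n + 1)))
    (hχ : χ.IsPrimitive) (h1 : χ ^ (p ^ n) = 1) (ι : Type) [Fintype ι] (P : MvPolynomial ι K)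
    (hP : ∀ m, ‖P.coeff m‖ ≤ 1) :
    (∀ e : ι → ℕ, (∀ i, e i ≤ n + 1) →
      ‖D.TK (n + 1) ι e (fun x => MvPolynomial.eval (fun i => j (D.X (n + 1) (x i))) P)‖ ≤ 1) ∧
    ‖D.SK j (n + 1) ι χ (fun x => MvPolynomial.eval (fun i => j (D.X (n + 1) (x i))) P) /
        j (D.kap n χ) ^ Fintype.card ι -
      (rho (n + 1) : K) ^ Fintype.card ι * ∑ e ∈ Fintype.piFinset (fun _ : ι => Eset (n + 1)),
        D.TK (n + 1) ι e (fun x => MvPolynomial.eval (fun i => j (D.X (n + 1) (x i))) P)‖ < 1 := by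
  have hcard := fun (d : ι →₀ ℕ) => main_mono D j hj hp3 n hn χ hχ h1 ι (fun i => d i) (P.coeff d) (hP d)
  have hev : (fun x : ι → R (n + 1) => MvPolynomial.eval (fun i => j (D.X (n + 1) (x i))) P) =
      fun x => ∑ d ∈ P.support, P.coeff d * ∏ i, j (D.X (n + 1) (x i)) ^ d i := by
    funext x
    rw [MvPolynomial.eval_eq']
  rw [hev]
  constructor
  · intro e he
    rw [z4_TK_sum]
    exact z4_sum_le _ _ 1 zero_le_one fun d _ => (hcard d).1 e he
  · rw [z4_SK_sum]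
    have h3 : ∑ e ∈ Fintype.piFinset (fun _ : ι => Eset (n + 1)),
        D.TK (n + 1) ι e (fun x => ∑ d ∈ P.support,
          P.coeff d * ∏ i, j (D.X (n + 1) (x i)) ^ d i) =
        ∑ d ∈ P.support, ∑ e ∈ Fintype.piFinset (fun _ : ι => Eset (n + 1)),
          D.TK (n + 1) ι e (fun x => P.coeff d * ∏ i, j (D.X (n + 1) (x i)) ^ d i) := by
      rw [Finset.sum_comm]
      refine Finset.sum_congr rfl fun e _ => ?_
      rw [z4_TK_sum]
    rw [h3, Finset.sum_div, Finset.mul_sum, ← Finset.sum_sub_distrib]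
    exact z4_sum_lt _ _ 1 zero_lt_one fun d _ => (hcard d).2

include hj in
/-- THE MAIN THEOREM of module F. PROOF. Given `H`, choose `ε > 0` with `ε < ‖kap‖^g` and
`ε < ‖p‖^(g (n+1))`, and `P` from `CalF`. `H - P` has values of norm `< ε`, so
`‖SK (H - P)‖ < ε < ‖kap‖^g` (the values of `χ` have norm `≤ 1`: zero or roots of unity) and
`‖TK e (H - P)‖ ≤ ‖p‖^(-sum e_i) ε < 1` (`e_i ≤ n + 1`, `‖(-p)^(-e)‖ = ‖p‖^(-e)`). `SK`, `TK` are
additive; `main_poly` for `P`; `‖rho‖ = 1`; `Eset (n+1) ⊆ {e ≤ n + 1}`. The bound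
`‖SK H‖ ≤ ‖kap‖^g` follows since all terms of the last formula have norm `≤ 1`. -/
theorem F_main (hp3 : 3 ≤ p) (n : ℕ) (hn : 1 ≤ n) (χ : DirichletCharacter L (p ^ (n + 1)))
    (hχ : χ.IsPrimitive) (h1 : χ ^ (p ^ n) = 1) (ι : Type) [Fintype ι] (H : (ι → R (n + 1)) → K)
    (hH : D.CalF j (n + 1) ι H) :
    ‖D.SK j (n + 1) ι χ H‖ ≤ ‖D.kap n χ‖ ^ Fintype.card ι ∧
    (∀ e : ι → ℕ, (∀ i, e i ≤ n + 1) → ‖D.TK (n + 1) ι e H‖ ≤ 1) ∧
    ‖D.SK j (n + 1) ι χ H / j (D.kap n χ) ^ Fintype.card ι -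
      (rho (n + 1) : K) ^ Fintype.card ι * ∑ e ∈ Fintype.piFinset (fun _ : ι => Eset (n + 1)),
        D.TK (n + 1) ι e H‖ < 1 := by
  obtain ⟨hk0, -⟩ := kap_norm D hp3 n hn χ hχ h1
  set κ : L := D.kap n χ with hκ
  set g : ℕ := Fintype.card ι with hg
  have hpn : p ^ n ≠ 0 := (pow_pos (Fact.out : p.Prime).pos n).ne'
  have hp0 : 0 < ‖(p : L)‖ := norm_pos_iff.2 D.hp0
  have hp1 : ‖(p : L)‖ < 1 := D.hp1
  have hpK : ‖(p : K)‖ = ‖(p : L)‖ := by
    rw [← hj (p : L), map_natCast]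
  have hkpos : 0 < ‖κ‖ ^ g := pow_pos (norm_pos_iff.2 hk0) g
  have hppos : 0 < ‖(p : L)‖ ^ (g * (n + 1)) := pow_pos hp0 _
  obtain ⟨P, hP, hHP⟩ := hH (min (‖κ‖ ^ g) (‖(p : L)‖ ^ (g * (n + 1)))) (lt_min hkpos hppos)
  obtain ⟨hT, hS⟩ := main_poly D j hj hp3 n hn χ hχ h1 ι P hP
  set Q : (ι → R (n + 1)) → K :=
    fun x => MvPolynomial.eval (fun i => j (D.X (n + 1) (x i))) P with hQ
  have hj0 : ‖j κ ^ g‖ = ‖κ‖ ^ g := by rw [norm_pow, hj]
  have hjne : j κ ^ g ≠ 0 := by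
    rw [← norm_pos_iff, hj0]
    exact hkpos
  have hSΔ : ‖D.SK j (n + 1) ι χ (fun x => H x - Q x)‖ < ‖κ‖ ^ g := by
    unfold LTD.SK
    refine z4_sum_lt _ _ _ hkpos fun x _ => ?_
    rw [norm_mul, norm_prod]
    have h3 : ∏ i, ‖j (χ (D.nm (n + 1) (x i)))‖ ≤ 1 := by
      refine Finset.prod_le_one (fun i _ => norm_nonneg _) fun i _ => ?_
      rw [hj]
      exact z4_chi (n + 1) (p ^ n) hpn χ h1 _
    calc (∏ i, ‖j (χ (D.nm (n + 1) (x i)))‖) * ‖H x - Q x‖ ≤ 1 * ‖H x - Q x‖ :=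
          mul_le_mul_of_nonneg_right h3 (norm_nonneg _)
      _ = ‖H x - Q x‖ := one_mul _
      _ < ‖κ‖ ^ g := (hHP x).trans_le (min_le_left _ _)
  have hTΔ : ∀ e : ι → ℕ, (∀ i, e i ≤ n + 1) →
      ‖D.TK (n + 1) ι e (fun x => H x - Q x)‖ < 1 := by
    intro e he
    unfold LTD.TK
    have h3 : ‖∑ x ∈ Finset.univ.filter
        (fun x : ι → R (n + 1) => ∀ i, ∃ y : R (n + 1), x i = (p : R (n + 1)) ^ (n + 1 - e i) * y),
        (H x - Q x)‖ < ‖(p : L)‖ ^ (g * (n + 1)) :=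
      z4_sum_lt _ _ _ hppos fun x _ => (hHP x).trans_le (min_le_right _ _)
    rw [norm_mul, norm_prod]
    have h4 : ∏ i, ‖((-(p : K)) ^ (e i))⁻¹‖ = (‖(p : L)‖ ^ (∑ i, e i))⁻¹ := by
      rw [← Finset.prod_pow_eq_pow_sum, ← Finset.prod_inv_distrib]
      refine Finset.prod_congr rfl fun i _ => ?_
      rw [norm_inv, norm_pow, norm_neg, hpK]
    rw [h4]
    have h5 : ∑ i, e i ≤ g * (n + 1) := by
      calc ∑ i, e i ≤ ∑ _i : ι, (n + 1) := Finset.sum_le_sum fun i _ => he i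
        _ = g * (n + 1) := by
          rw [Finset.sum_const, Finset.card_univ, smul_eq_mul]
    have h6 : ‖(p : L)‖ ^ (g * (n + 1)) ≤ ‖(p : L)‖ ^ (∑ i, e i) :=
      pow_le_pow_of_le_one hp0.le hp1.le h5
    have h7 : 0 < ‖(p : L)‖ ^ (∑ i, e i) := pow_pos hp0 _
    rw [inv_mul_lt_iff₀ h7, mul_one]
    exact h3.trans_le h6
  have hSH := z4_SK_add D j (n + 1) ι χ H Q
  have hTH := fun e : ι → ℕ => z4_TK_add D (n + 1) ι e H Q
  have hT' : ∀ e : ι → ℕ, (∀ i, e i ≤ n + 1) → ‖D.TK (n + 1) ι e H‖ ≤ 1 := by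
    intro e he
    rw [hTH e]
    exact (IsUltrametricDist.norm_add_le_max _ _).trans (max_le (hT e he) (hTΔ e he).le)
  have hE : ∀ e ∈ Fintype.piFinset (fun _ : ι => Eset (n + 1)), ∀ i, e i ≤ n + 1 := by
    intro e he i
    have h3 := Fintype.mem_piFinset.1 he i
    unfold Eset at h3
    rw [Finset.mem_insert, Finset.mem_singleton] at h3
    omega
  have hρ : ‖((rho (n + 1) : ℤ) : K) ^ g‖ = 1 := by
    rw [norm_pow, z4_rho, one_pow]
  have h3rd : ‖D.SK j (n + 1) ι χ H / j κ ^ g -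
      (rho (n + 1) : K) ^ g * ∑ e ∈ Fintype.piFinset (fun _ : ι => Eset (n + 1)),
        D.TK (n + 1) ι e H‖ < 1 := by
    have h4 : D.SK j (n + 1) ι χ H / j κ ^ g -
        (rho (n + 1) : K) ^ g * ∑ e ∈ Fintype.piFinset (fun _ : ι => Eset (n + 1)),
          D.TK (n + 1) ι e H =
        (D.SK j (n + 1) ι χ Q / j κ ^ g -
        (rho (n + 1) : K) ^ g * ∑ e ∈ Fintype.piFinset (fun _ : ι => Eset (n + 1)),
          D.TK (n + 1) ι e Q) +
        (D.SK j (n + 1) ι χ (fun x => H x - Q x) / j κ ^ g +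
        -((rho (n + 1) : K) ^ g * ∑ e ∈ Fintype.piFinset (fun _ : ι => Eset (n + 1)),
          D.TK (n + 1) ι e (fun x => H x - Q x))) := by
      have h5 : ∑ e ∈ Fintype.piFinset (fun _ : ι => Eset (n + 1)), D.TK (n + 1) ι e H =
          ∑ e ∈ Fintype.piFinset (fun _ : ι => Eset (n + 1)), D.TK (n + 1) ι e Q +
          ∑ e ∈ Fintype.piFinset (fun _ : ι => Eset (n + 1)),
            D.TK (n + 1) ι e (fun x => H x - Q x) := by
        rw [← Finset.sum_add_distrib]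
        exact Finset.sum_congr rfl fun e _ => hTH e
      rw [h5, hSH, add_div]
      ring
    rw [h4]
    refine (IsUltrametricDist.norm_add_le_max _ _).trans_lt (max_lt hS ?_)
    refine (IsUltrametricDist.norm_add_le_max _ _).trans_lt (max_lt ?_ ?_)
    · rw [norm_div, hj0, div_lt_one hkpos]
      exact hSΔ
    · rw [norm_neg, norm_mul, hρ, one_mul]
      exact z4_sum_lt _ _ 1 zero_lt_one fun e he => hTΔ e (hE e he)
  refine ⟨?_, hT', h3rd⟩
  have h4 : ‖D.SK j (n + 1) ι χ H / j κ ^ g‖ ≤ 1 := by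
    have h5 : D.SK j (n + 1) ι χ H / j κ ^ g = (D.SK j (n + 1) ι χ H / j κ ^ g -
      (rho (n + 1) : K) ^ g * ∑ e ∈ Fintype.piFinset (fun _ : ι => Eset (n + 1)),
        D.TK (n + 1) ι e H) + (rho (n + 1) : K) ^ g *
        ∑ e ∈ Fintype.piFinset (fun _ : ι => Eset (n + 1)), D.TK (n + 1) ι e H := by ring
    rw [h5]
    refine (IsUltrametricDist.norm_add_le_max _ _).trans (max_le h3rd.le ?_)
    rw [norm_mul, hρ, one_mul]
    exact z4_sum_le _ _ 1 zero_le_one fun e he => hT' e (hE e he)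
  rwa [norm_div, hj0, div_le_one hkpos] at h4

end SSF
end

-- from Lib.SSG.F.Main2
section

/-! # SSG/F/Main2 : the theorems of module F for good frames -/

open NumberField

namespace SSG

open SSF

/-- (F) integrality of the functionals `T_e`. PROOF. Unfold `Good`; `Fn_descend`, `TH_eq`,
`TK_int`. -/
theorem F_int_good {F : Type} [Field F] [NumberField F]
    {C : Type} [NormedField C] [IsUltrametricDist C]
    {p : ℕ} [hp : Fact p.Prime] (h3 : 3 ≤ p)
    (L : LTF F C) (hL : L.Good p) {N : ℕ}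
    {ι : Type} [Fintype ι] {T : Finset (𝓞 F)} (hT : Rep p N T) (e : ι → ℕ) (he : ∀ i, e i ≤ N)
    {H : (ι → 𝓞 F) → C} (hH : L.Fn N ι H) : ‖TH p N ι T e H‖ ≤ 1 := by
  obtain ⟨L₀, i1, i2, D, j, hj, hX, hz, hn, hred⟩ := hL
  obtain ⟨H', hH', hC⟩ := Fn_descend D j L hX N ι H hH
  rw [TH_eq D N ι T hT e he H H' hH']
  exact TK_int D j hj N ι H' hC e he

/-- (F) the main theorem for good frames. PROOF. Unfold `Good`: `D`, `j`. `N = n + 1`, `n ≥ 1`.
`char_descent` gives `χ₀`; `κ = j (rho (n+1) * D.kap n χ₀)`; its norm is `kap_norm` (`‖rho‖ = 1`,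
`n - 1 = N - 2`, `Jn p (N-1) = p^n/(p+1)`, `‖j x‖ = ‖x‖`, `j (p : L₀) = p`; the exponents are equal by
`ring`). For `H`: `Fn_descend`, `SH_eq`, `TH_eq` (for `e ∈ piFinset (EN N)` all `e i ≤ N`), `EN_eq`
(`EN N = Eset N`), `SSF.F_main` multiplied by `‖κ‖^card` (`κ ≠ 0`). -/
theorem F_main_good {F : Type} [Field F] [NumberField F]
    {C : Type} [NormedField C] [IsUltrametricDist C]
    {p : ℕ} [hp : Fact p.Prime] (h3 : 3 ≤ p)
    (L : LTF F C) (hL : L.Good p) {N : ℕ} (hN : 2 ≤ N)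
    (χ : DirichletCharacter C (p ^ N)) (hχ : orderOf χ = p ^ (N - 1)) :
    ∃ κ : C, ‖κ‖ ^ (2 * (p - 1) * p ^ (N - 2)) = ‖(p : C)‖ ^ (N * (p - 1) * p ^ (N - 2) + 2 * Jn p (N - 1)) ∧
      ∀ (ι : Type) [Fintype ι] [DecidableEq ι] (T : Finset (𝓞 F)), Rep p N T → ∀ H : (ι → 𝓞 F) → C, L.Fn N ι H →
        ‖SH χ ι T H - κ ^ Fintype.card ι * ∑ e ∈ Fintype.piFinset (fun _ : ι => EN N), TH p N ι T e H‖ <
          ‖κ‖ ^ Fintype.card ι := by
  obtain ⟨L₀, i1, i2, D, j, hj, hX, hz, hn, hred⟩ := hL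
  obtain ⟨n, rfl⟩ : ∃ n, N = n + 1 := ⟨N - 1, by omega⟩
  have hn1 : 1 ≤ n := by omega
  obtain ⟨χ₀, hχ₀, hprim, hpow⟩ := char_descent j (n + 1) hN (D.ζ (n + 1)) (D.ζprim (n + 1)) χ hχ
  have hpow' : χ₀ ^ (p ^ n) = 1 := by simpa using hpow
  obtain ⟨hk0, hkn⟩ := kap_norm D h3 n hn1 χ₀ hprim hpow'
  have hrho : ((rho (n + 1) : ℤ) : C) = 1 ∨ ((rho (n + 1) : ℤ) : C) = -1 := by
    unfold rho
    rcases neg_one_pow_eq_or ℤ ((n + 1 + 1) / 2) with h | h
    · right; rw [h]; norm_num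
    · left; rw [h]; norm_num
  have hrho1 : ‖((rho (n + 1) : ℤ) : C)‖ = 1 := by
    rcases hrho with h | h
    · rw [h]; simp
    · rw [h]; simp
  have hrho2 : ((rho (n + 1) : ℤ) : C) * ((rho (n + 1) : ℤ) : C) = 1 := by
    rcases hrho with h | h
    · rw [h]; ring
    · rw [h]; ring
  have hjk : j (D.kap n χ₀) ≠ 0 := by
    intro h
    apply hk0
    have : ‖D.kap n χ₀‖ = 0 := by rw [← hj, h, norm_zero]
    exact norm_eq_zero.mp this
  refine ⟨((rho (n + 1) : ℤ) : C) * j (D.kap n χ₀), ?_, ?_⟩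
  · rw [norm_mul, hrho1, one_mul, hj]
    have e1 : 2 * (p - 1) * p ^ (n + 1 - 2) = 2 * (p ^ (n - 1) * (p - 1)) := by
      rw [show n + 1 - 2 = n - 1 from by omega]; ring
    have e2 : (n + 1) * (p - 1) * p ^ (n + 1 - 2) + 2 * Jn p (n + 1 - 1) =
        (n + 1) * (p ^ (n - 1) * (p - 1)) + 2 * (p ^ n / (p + 1)) := by
      rw [show n + 1 - 2 = n - 1 from by omega]
      unfold Jn
      rw [show n + 1 - 1 = n from rfl]
      ring
    rw [e1, e2, hkn]
    congr 1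
    rw [← hj, map_natCast]
  · intro ι _ _ T hT H hH
    obtain ⟨H', hH', hC⟩ := Fn_descend D j L hX (n + 1) ι H hH
    obtain ⟨_, _, hmain⟩ := SSF.F_main D j hj h3 n hn1 χ₀ hprim hpow' ι H' hC
    have hE : EN (n + 1) = Eset (n + 1) := EN_eq (n + 1) (by omega)
    have hTH : ∀ e ∈ Fintype.piFinset (fun _ : ι => EN (n + 1)),
        TH p (n + 1) ι T e H = D.TK (n + 1) ι e H' := by
      intro e he
      rw [Fintype.mem_piFinset] at he
      refine TH_eq D (n + 1) ι T hT e (fun i => ?_) H H' hH'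
      have := he i
      unfold EN at this
      rw [Finset.mem_filter, Finset.mem_range] at this
      omega
    rw [Finset.sum_congr rfl hTH, SH_eq D j hn (n + 1) χ χ₀ hχ₀ ι T hT H H' hH', hE]
    set S := D.SK j (n + 1) ι χ₀ H' with hS
    set κ := j (D.kap n χ₀) with hκ
    set r := ((rho (n + 1) : ℤ) : C) with hr
    have hsum : ∑ e ∈ Fintype.piFinset (fun _ : ι => Eset (n + 1)), D.TK (n + 1) ι e H' =
        ∑ e ∈ @Fintype.piFinset ι (Classical.decEq ι) _ (fun _ => ℕ) (fun _ : ι => Eset (n + 1)),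
          D.TK (n + 1) ι e H' := by
      apply Finset.sum_congr _ (fun _ _ => rfl)
      ext e
      simp only [Fintype.mem_piFinset]
    have hκg : κ ^ Fintype.card ι ≠ 0 := pow_ne_zero _ hjk
    rw [hsum]
    set Z := ∑ e ∈ @Fintype.piFinset ι (Classical.decEq ι) _ (fun _ => ℕ) (fun _ : ι => Eset (n + 1)),
          D.TK (n + 1) ι e H' with hZ
    have hmain' : ‖S / κ ^ Fintype.card ι - r ^ Fintype.card ι * Z‖ < 1 := by
      have h := hmain
      simpa [hZ, hS, hκ, hr] using h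
    have key : S - (r * κ) ^ Fintype.card ι * Z =
        κ ^ Fintype.card ι * (S / κ ^ Fintype.card ι - r ^ Fintype.card ι * Z) := by
      rw [mul_sub, mul_div_cancel₀ _ hκg, mul_pow]
      ring
    rw [key, norm_mul, norm_mul, hrho1, one_mul, norm_pow]
    have hpos : 0 < ‖κ‖ ^ Fintype.card ι := pow_pos (norm_pos_iff.mpr hjk) _
    calc ‖κ‖ ^ Fintype.card ι * ‖S / κ ^ Fintype.card ι - r ^ Fintype.card ι * Z‖
        < ‖κ‖ ^ Fintype.card ι * 1 := by
          exact mul_lt_mul_of_pos_left hmain' hpos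
      _ = ‖κ‖ ^ Fintype.card ι := mul_one _

end SSG
end

-- from Lib.SSG.S.M1
section

/-! # SSG, part S (E4), M: the absolute value of the sum over the classes -/

open NumberField IsDedekindDomain

namespace SSG.S

open SSG

/-! Chunk M1 (M). PROOF. κ from F_main_good h3 L hL hN χ hχ. κ ≠ 0: otherwise 0 = ‖p‖^(..) (the exponent 2 * (p - 1) * p^(N - 2) is positive), but p ≠ 0 in C. Put E = piFinset (fun _ => EN N), K = κ^g.
For each i: SH χ T (H i) = K * (sum over E of TH e (H i)) + r i, ‖r i‖ < ‖K‖. Then with y i = 1 + (y i - 1):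
sum of x i y i SH = K * sum_e sum_i x i TH e (H i) + K * sum_e sum_i x i (y i - 1) TH e (H i) + sum_i x i y i r i
= K * (card E) * W + (terms of norm < ‖K‖): ‖x i‖ <= 1, ‖y i - 1‖ < 1, ‖y i‖ <= 1, ‖TH e (H i)‖ <= 1 by F_int_good (e in E: e i <= N), finite sums of terms of norm < ‖K‖ (ultrametric;
IsUltrametricDist.norm_sum_lt / exists_norm_finset_sum_le; for the empty sum 0 < ‖K‖). card E = (card (EN N))^g and card (EN N) is 1 or 2 (N >= 1: EN N = {e | N <= 2e+1, 2e <= N+1}: N = 2a: {a}; N = 2a+1: {a, a+1});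
‖2‖ = 1 in C, since 2 is prime to p >= 3 and ‖p‖ < 1 (Bezout: 1 = 2 u + p v, if ‖2‖ < 1 then ‖1‖ < 1). So ‖K * card E * W‖ = ‖K‖ and the norm of the sum is ‖K‖ = ‖κ‖^g
(IsUltrametricDist.norm_add_eq_max_of_norm_ne_norm). Raise to the power 2 * (p - 1) * p^(N - 2). -/

theorem m1_sum {C : Type} [NormedField C] [IsUltrametricDist C] {ι : Type*} (s : Finset ι) (f : ι → C)
    {c : ℝ} (hc : 0 < c) (h : ∀ i ∈ s, ‖f i‖ < c) : ‖∑ i ∈ s, f i‖ < c := by
  classical
  induction s using Finset.induction_on with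
  | empty => rw [Finset.sum_empty, norm_zero]; exact hc
  | insert a s ha ih =>
    rw [Finset.sum_insert ha]
    exact lt_of_le_of_lt (IsUltrametricDist.norm_add_le_max _ _)
      (max_lt (h a (Finset.mem_insert_self _ _)) (ih fun i hi => h i (Finset.mem_insert_of_mem hi)))

theorem m1_two {C : Type} [NormedField C] [IsUltrametricDist C] {p : ℕ} [hp : Fact p.Prime] (h3 : 3 ≤ p)
    (hp1 : ‖(p : C)‖ < 1) : ‖((2 : ℕ) : C)‖ = 1 := by
  refine le_antisymm (IsUltrametricDist.norm_natCast_le_one C 2) (not_lt.1 fun h => ?_)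
  obtain ⟨u, hu⟩ := hp.out.odd_of_ne_two (by omega)
  have h1 : (1 : C) = (p : C) + -(((2 : ℕ) : C) * (u : C)) := by
    rw [hu]
    push_cast
    ring
  have h2 : ‖(1 : C)‖ < 1 := by
    rw [h1]
    refine lt_of_le_of_lt (IsUltrametricDist.norm_add_le_max _ _) (max_lt hp1 ?_)
    rw [norm_neg, norm_mul]
    calc ‖((2 : ℕ) : C)‖ * ‖(u : C)‖ ≤ ‖((2 : ℕ) : C)‖ * 1 :=
          mul_le_mul_of_nonneg_left (IsUltrametricDist.norm_natCast_le_one C u) (norm_nonneg _)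
      _ < 1 := by rw [mul_one]; exact h
  rw [norm_one] at h2
  exact lt_irrefl _ h2

theorem m1_EN (N : ℕ) (hN : 2 ≤ N) : (EN N).card = 1 ∨ (EN N).card = 2 := by
  rcases Nat.even_or_odd' N with ⟨a, rfl | rfl⟩
  · left
    rw [Finset.card_eq_one]
    refine ⟨a, ?_⟩
    ext e
    unfold EN
    rw [Finset.mem_filter, Finset.mem_range, Finset.mem_singleton]
    omega
  · right
    rw [Finset.card_eq_two]
    refine ⟨a, a + 1, by omega, ?_⟩
    ext e
    unfold EN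
    rw [Finset.mem_filter, Finset.mem_range, Finset.mem_insert, Finset.mem_singleton]
    omega

theorem m1_est {F : Type} [Field F] [NumberField F] {C : Type} [NormedField C] [IsUltrametricDist C]
    {p : ℕ} [hp : Fact p.Prime] (h3 : 3 ≤ p) (hp0 : (p : C) ≠ 0) (hp1 : ‖(p : C)‖ < 1) (L : LTF F C) (hL : L.Good p)
    {N : ℕ} (hN : 2 ≤ N) (χ : DirichletCharacter C (p ^ N)) (hχ : orderOf χ = p ^ (N - 1)) {g : ℕ} {T : Finset (𝓞 F)}
    (hT : Rep p N T) {ι : Type} [Fintype ι] (H : ι → (Fin g → 𝓞 F) → C) (hH : ∀ i, L.Fn N (Fin g) (H i)) (x y : ι → C)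
    (hx : ∀ i, ‖x i‖ ≤ 1) (hy : ∀ i, ‖y i - 1‖ < 1) (W : C) (hW : ‖W‖ = 1)
    (hTH : ∀ e ∈ Fintype.piFinset (fun _ : Fin g => EN N), ∑ i, x i * TH p N (Fin g) T e (H i) = W) :
    ‖∑ i, x i * y i * SH χ (Fin g) T (H i)‖ ^ (2 * (p - 1) * p ^ (N - 2)) =
      ‖(p : C)‖ ^ (g * (N * (p - 1) * p ^ (N - 2) + 2 * Jn p (N - 1))) := by
  classical
  obtain ⟨κ, hκ, hmain⟩ := F_main_good h3 L hL hN χ hχ
  have hppos : 0 < ‖(p : C)‖ := norm_pos_iff.2 hp0
  have hexp : 2 * (p - 1) * p ^ (N - 2) ≠ 0 :=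
    Nat.mul_ne_zero (by omega) (pow_ne_zero _ (by omega))
  have hκ0 : κ ≠ 0 := by
    rintro rfl
    rw [norm_zero, zero_pow hexp] at hκ
    exact (pow_pos hppos _).ne hκ
  have hκpos : 0 < ‖κ‖ := norm_pos_iff.2 hκ0
  set K : C := κ ^ g with hK
  have hKpos : 0 < ‖K‖ := by
    rw [hK, norm_pow]
    exact pow_pos hκpos g
  set E := Fintype.piFinset (fun _ : Fin g => EN N) with hE
  set ρ : ι → C := fun i => SH χ (Fin g) T (H i) - K * ∑ e ∈ E, TH p N (Fin g) T e (H i) with hρ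
  have hρlt : ∀ i, ‖ρ i‖ < ‖K‖ := by
    intro i
    have h := hmain (Fin g) T hT (H i) (hH i)
    rw [Fintype.card_fin] at h
    rw [hK, norm_pow]
    exact h
  have hTHle : ∀ e ∈ E, ∀ i, ‖TH p N (Fin g) T e (H i)‖ ≤ 1 := by
    intro e he i
    refine F_int_good h3 L hL hT e (fun j => ?_) (hH i)
    have h1 := Fintype.mem_piFinset.1 he j
    unfold EN at h1
    rw [Finset.mem_filter, Finset.mem_range] at h1
    omega
  have hyle : ∀ i, ‖y i‖ ≤ 1 := by
    intro i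
    have h1 : y i = 1 + (y i - 1) := by ring
    rw [h1]
    refine (IsUltrametricDist.norm_add_le_max _ _).trans (max_le (by rw [norm_one]) (hy i).le)
  have hdec : ∑ i, x i * y i * SH χ (Fin g) T (H i) =
      K * ((E.card : C) * W) + (K * ∑ e ∈ E, ∑ i, x i * (y i - 1) * TH p N (Fin g) T e (H i) +
        ∑ i, x i * y i * ρ i) := by
    have h1 : (E.card : C) * W = ∑ e ∈ E, ∑ i, x i * TH p N (Fin g) T e (H i) := by
      rw [Finset.sum_congr rfl hTH, Finset.sum_const, nsmul_eq_mul]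
    rw [h1, ← add_assoc, ← mul_add, ← Finset.sum_add_distrib]
    have h2 : ∑ e ∈ E, (∑ i, x i * TH p N (Fin g) T e (H i) +
        ∑ i, x i * (y i - 1) * TH p N (Fin g) T e (H i)) =
        ∑ i, x i * y i * ∑ e ∈ E, TH p N (Fin g) T e (H i) := by
      have h3 : ∀ i, x i * y i * ∑ e ∈ E, TH p N (Fin g) T e (H i) =
          ∑ e ∈ E, x i * y i * TH p N (Fin g) T e (H i) := fun i => Finset.mul_sum _ _ _
      rw [Finset.sum_congr rfl fun i _ => h3 i, Finset.sum_comm]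
      refine Finset.sum_congr rfl fun e _ => ?_
      rw [← Finset.sum_add_distrib]
      refine Finset.sum_congr rfl fun i _ => ?_
      ring
    rw [h2, Finset.mul_sum, ← Finset.sum_add_distrib]
    refine Finset.sum_congr rfl fun i _ => ?_
    rw [hρ]
    ring
  have hR : ‖K * ∑ e ∈ E, ∑ i, x i * (y i - 1) * TH p N (Fin g) T e (H i) +
        ∑ i, x i * y i * ρ i‖ < ‖K‖ := by
    refine lt_of_le_of_lt (IsUltrametricDist.norm_add_le_max _ _) (max_lt ?_ ?_)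
    · rw [norm_mul]
      have h1 : ‖∑ e ∈ E, ∑ i, x i * (y i - 1) * TH p N (Fin g) T e (H i)‖ < 1 := by
        refine m1_sum _ _ one_pos fun e he => m1_sum _ _ one_pos fun i _ => ?_
        rw [norm_mul, norm_mul]
        calc ‖x i‖ * ‖y i - 1‖ * ‖TH p N (Fin g) T e (H i)‖
            ≤ ‖x i‖ * ‖y i - 1‖ * 1 :=
              mul_le_mul_of_nonneg_left (hTHle e he i) (mul_nonneg (norm_nonneg _) (norm_nonneg _))
          _ ≤ 1 * ‖y i - 1‖ := by
              rw [mul_one]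
              exact mul_le_mul_of_nonneg_right (hx i) (norm_nonneg _)
          _ < 1 := by rw [one_mul]; exact hy i
      calc ‖K‖ * ‖∑ e ∈ E, ∑ i, x i * (y i - 1) * TH p N (Fin g) T e (H i)‖ < ‖K‖ * 1 :=
            mul_lt_mul_of_pos_left h1 hKpos
        _ = ‖K‖ := mul_one _
    · refine m1_sum _ _ hKpos fun i _ => ?_
      rw [norm_mul, norm_mul]
      calc ‖x i‖ * ‖y i‖ * ‖ρ i‖ ≤ 1 * 1 * ‖ρ i‖ :=
            mul_le_mul_of_nonneg_right (mul_le_mul (hx i) (hyle i) (norm_nonneg _) zero_le_one)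
              (norm_nonneg _)
        _ < ‖K‖ := by rw [one_mul, one_mul]; exact hρlt i
  have hcard : ‖(E.card : C)‖ = 1 := by
    have h1 : E.card = (EN N).card ^ g := by
      rw [hE, Fintype.card_piFinset_const]
    rw [h1, Nat.cast_pow, norm_pow]
    rcases m1_EN N hN with h | h
    · rw [h, Nat.cast_one, norm_one, one_pow]
    · rw [h, m1_two h3 hp1, one_pow]
  have hmainn : ‖K * ((E.card : C) * W)‖ = ‖K‖ := by
    rw [norm_mul, norm_mul, hcard, hW, mul_one, mul_one]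
  have hfin : ‖∑ i, x i * y i * SH χ (Fin g) T (H i)‖ = ‖K‖ := by
    rw [hdec, IsUltrametricDist.norm_add_eq_max_of_norm_ne_norm, hmainn, max_eq_left hR.le]
    rw [hmainn]
    exact hR.ne'
  rw [hfin, hK, norm_pow, ← pow_mul, mul_comm g, pow_mul, hκ, ← pow_mul, mul_comm _ g]

end SSG.S
end

-- from Lib.SSG.S.C2
section

/-! # SSG, part S (E4), C: the coordinate modulo p^N at a prime above p -/

open NumberField IsDedekindDomain

namespace SSG.S

open H55N H55P SSG.E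

variable {F : Type} [Field F] [NumberField F] {K : Type} [Field K] [NumberField K] [Algebra F K]

/-- Powers of the prime w on the integers of F. -/
theorem c2_mem {p : ℕ} (hp : p.Prime) (hin : (Ideal.span {(p : 𝓞 F)}).IsPrime) (w : HeightOneSpectrum (𝓞 K))
    (hw : (p : 𝓞 K) ∈ w.asIdeal) (hw2 : (p : 𝓞 K) ∉ w.asIdeal ^ 2) (e : ℕ) (a : 𝓞 F) :
    algebraMap (𝓞 F) (𝓞 K) a ∈ w.asIdeal ^ e ↔ (p : 𝓞 F) ^ e ∣ a := by
  have hp0 : (p : 𝓞 F) ≠ 0 := by exact_mod_cast hp.ne_zero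
  have hwdvd : w.asIdeal ∣ Ideal.span {(p : 𝓞 K)} := by
    rw [Ideal.dvd_span_singleton]; exact hw
  obtain ⟨J, hJ⟩ := hwdvd
  have hwJ : ¬ w.asIdeal ∣ J := by
    rintro ⟨J', rfl⟩
    apply hw2
    rw [← Ideal.dvd_span_singleton, hJ]
    exact ⟨J', by rw [pow_two, mul_assoc]⟩
  have hwp : Prime w.asIdeal := w.prime
  have hcomap : ∀ c : 𝓞 F, algebraMap (𝓞 F) (𝓞 K) c ∈ w.asIdeal → (p : 𝓞 F) ∣ c := by
    intro c hc
    have h1 : Ideal.span {(p : 𝓞 F)} ≤ w.asIdeal.comap (algebraMap (𝓞 F) (𝓞 K)) := by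
      rw [Ideal.span_singleton_le_iff_mem, Ideal.mem_comap, map_natCast]; exact hw
    have hmax : (Ideal.span {(p : 𝓞 F)}).IsMaximal :=
      hin.isMaximal (by rw [Ne, Ideal.span_singleton_eq_bot]; exact hp0)
    have h2 := hmax.eq_of_le (Ideal.comap_ne_top _ w.isPrime.ne_top) h1
    rw [← Ideal.mem_span_singleton, h2]; exact hc
  have hback : ∀ (e : ℕ) (a : 𝓞 F), (p : 𝓞 F) ^ e ∣ a → algebraMap (𝓞 F) (𝓞 K) a ∈ w.asIdeal ^ e := by
    rintro e a ⟨c, rfl⟩
    rw [map_mul, map_pow, map_natCast]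
    exact Ideal.mul_mem_right _ _ (Ideal.pow_mem_pow hw e)
  refine ⟨?_, hback e a⟩
  induction e with
  | zero => intro _; rw [pow_zero]; exact one_dvd a
  | succ e ih =>
    intro ha
    obtain ⟨c, rfl⟩ := ih (Ideal.pow_le_pow_right (Nat.le_succ e) ha)
    have h1 : w.asIdeal ^ (e + 1) ∣ w.asIdeal ^ e * (J ^ e * Ideal.span {algebraMap (𝓞 F) (𝓞 K) c}) := by
      have h2 : w.asIdeal ^ e * (J ^ e * Ideal.span {algebraMap (𝓞 F) (𝓞 K) c})
          = Ideal.span {algebraMap (𝓞 F) (𝓞 K) ((p : 𝓞 F) ^ e * c)} := by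
        rw [← mul_assoc, ← mul_pow, ← hJ, Ideal.span_singleton_pow, Ideal.span_singleton_mul_span_singleton,
          map_mul, map_pow, map_natCast]
      rw [h2, Ideal.dvd_span_singleton]; exact ha
    rw [pow_succ] at h1
    have h3 : w.asIdeal ∣ J ^ e * Ideal.span {algebraMap (𝓞 F) (𝓞 K) c} :=
      (mul_dvd_mul_iff_left (pow_ne_zero e hwp.ne_zero)).mp h1
    rcases hwp.dvd_or_dvd h3 with h4 | h4
    · exact absurd (hwp.dvd_of_dvd_pow h4) hwJ
    · rw [Ideal.dvd_span_singleton] at h4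
      obtain ⟨d, rfl⟩ := hcomap c h4
      exact ⟨d, by ring⟩

/-- The coordinate modulo p^N at w. -/
theorem c2_r {p : ℕ} (hp : p.Prime) (hin : (Ideal.span {(p : 𝓞 F)}).IsPrime) (w : HeightOneSpectrum (𝓞 K))
    (hw : (p : 𝓞 K) ∈ w.asIdeal) (hw2 : (p : 𝓞 K) ∉ w.asIdeal ^ 2)
    (hf : Ideal.relNorm (𝓞 F) w.asIdeal = Ideal.span {(p : 𝓞 F)}) (N : ℕ) :
    ∃ r : 𝓞 K →+* RN F p N, (∀ a : 𝓞 F, r (algebraMap (𝓞 F) (𝓞 K) a) = Ideal.Quotient.mk _ a) ∧
      ∀ x, r x = 0 ↔ x ∈ w.asIdeal ^ N := by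
  have hp0 : (p : 𝓞 F) ≠ 0 := by exact_mod_cast hp.ne_zero
  have hle : Ideal.span {(p : 𝓞 F) ^ N} = (w.asIdeal ^ N).comap (algebraMap (𝓞 F) (𝓞 K)) := by
    ext a
    rw [Ideal.mem_span_singleton, Ideal.mem_comap, c2_mem hp hin w hw hw2 N a]
  let f : RN F p N →+* 𝓞 K ⧸ (w.asIdeal ^ N) := Ideal.quotientMap (w.asIdeal ^ N) (algebraMap (𝓞 F) (𝓞 K)) hle.le
  have hfmk : ∀ a : 𝓞 F, f (Ideal.Quotient.mk _ a) = Ideal.Quotient.mk _ (algebraMap (𝓞 F) (𝓞 K) a) := fun a =>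
    Ideal.quotientMap_mk
  have hfi : Function.Injective f := by
    apply Ideal.quotientMap_injective'
    exact hle.ge
  have hw0 : w.asIdeal ^ N ≠ ⊥ := pow_ne_zero N w.ne_bot
  have hpN0 : Ideal.span {(p : 𝓞 F) ^ N} ≠ ⊥ := by
    rw [Ne, Ideal.span_singleton_eq_bot]; exact pow_ne_zero N hp0
  have hfin1 : Finite (𝓞 K ⧸ (w.asIdeal ^ N)) := Ideal.finiteQuotientOfFreeOfNeBot _ hw0
  have hfin2 : Finite (RN F p N) := Ideal.finiteQuotientOfFreeOfNeBot _ hpN0
  have hcard : Nat.card (RN F p N) = Nat.card (𝓞 K ⧸ (w.asIdeal ^ N)) := by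
    change Nat.card (𝓞 F ⧸ Ideal.span {(p : 𝓞 F) ^ N}) = _
    rw [← Submodule.cardQuot_apply, ← Submodule.cardQuot_apply, ← Ideal.absNorm_apply, ← Ideal.absNorm_apply,
      ← Ideal.span_singleton_pow, map_pow, map_pow, ← hf, Ideal.absNorm_relNorm]
  have hfb : Function.Bijective f := (Nat.bijective_iff_injective_and_card f).mpr ⟨hfi, hcard⟩
  let E := RingEquiv.ofBijective f hfb
  refine ⟨E.symm.toRingHom.comp (Ideal.Quotient.mk _), fun a => ?_, fun x => ?_⟩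
  · change E.symm (Ideal.Quotient.mk _ (algebraMap (𝓞 F) (𝓞 K) a)) = _
    rw [RingEquiv.symm_apply_eq]
    exact (hfmk a).symm
  · change E.symm (Ideal.Quotient.mk _ x) = 0 ↔ _
    rw [map_eq_zero_iff E.symm E.symm.injective, Ideal.Quotient.eq_zero_iff_mem]

end SSG.S
end

-- from Lib.SSG.S.C4
section

/-! # SSG, part S (E4), C: the coordinates modulo p^N, trace and norm -/

open NumberField IsDedekindDomain

namespace SSG.S

open H55N H55P SSG.E

variable {F : Type} [Field F] [NumberField F] {K : Type} [Field K] [NumberField K] [Algebra F K]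

/-! Chunk C4 (M). PROOF. 𝓞 F is a principal ideal domain, 𝓞 K is a finitely generated torsion-free 𝓞 F-module, so free; its rank is finrank F K = m + 1 (e.g. Module.finBasis /
Module.Free.chooseBasis, RingOfIntegers / IsIntegralClosure.rank: Module.finrank (𝓞 F) (𝓞 K) = Module.finrank F K). Let b be a basis over 𝓞 F indexed by Fin (m + 1), A_x = Algebra.leftMulMatrix b x
and P the matrix over RN F p N with P k i = r k (b i). Then r k (x b i) = sum over j of mk (A_x j i) r k (b j) (halg, x b_i = sum of A_x j i b_j), that is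
D P = P Abar with D = diagonal (r k x), Abar = A_x mod p^N. P has a right inverse: for each k0 choose x with r k x = [k = k0] (surj) and write x = sum of c_i b_i, then
P c = the k0-th unit vector. So P is invertible (square matrices over a commutative ring), Abar = P^(-1) D P, trace Abar = trace D = sum of r k x, det Abar = det D = prod of r k x.
Finally trace_{K/F} x = the image of trace A_x in F: Algebra.intTrace_eq_trace / Algebra.algebraMap_intTrace (or Algebra.trace_localization), the same for the norm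
(Algebra.intNorm_eq_norm, Algebra.algebraMap_intNorm), and 𝓞 F → F is injective, so t = trace A_x, n = det A_x. -/

theorem c4_mat {R : Type*} [CommRing R] {n : Type*} [Fintype n] [DecidableEq n] (P C D A : Matrix n n R)
    (h1 : D * P = P * A) (h2 : P * C = 1) : A.trace = D.trace ∧ A.det = D.det := by
  have h3 : C * P = 1 := mul_eq_one_comm.1 h2
  have h4 : A = C * D * P := by
    rw [Matrix.mul_assoc, h1, ← Matrix.mul_assoc, h3, Matrix.one_mul]
  constructor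
  · rw [h4, Matrix.mul_assoc, Matrix.trace_mul_comm, Matrix.mul_assoc, h2, Matrix.mul_one]
  · rw [h4, Matrix.det_mul, Matrix.det_mul, mul_right_comm, ← Matrix.det_mul, h3, Matrix.det_one,
      one_mul]

theorem c4_rank [IsPrincipalIdealRing (𝓞 F)] : Module.finrank (𝓞 F) (𝓞 K) = Module.finrank F K :=
  IsIntegralClosure.rank (𝓞 F) F K (𝓞 K)

/-- The traces and norms in coordinates. -/
theorem c4_tr [IsPrincipalIdealRing (𝓞 F)] {p m N : ℕ} (hm : Module.finrank F K = m + 1)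
    (r : Fin (m + 1) → 𝓞 K →+* RN F p N) (halg : ∀ k (a : 𝓞 F), r k (algebraMap (𝓞 F) (𝓞 K) a) = Ideal.Quotient.mk _ a)
    (hsurj : ∀ y : Fin (m + 1) → RN F p N, ∃ x, ∀ k, r k x = y k) :
    (∀ (x : 𝓞 K) (t : 𝓞 F), Algebra.trace F K (x : K) = (t : F) → Ideal.Quotient.mk _ t = ∑ k, r k x) ∧
      ∀ (x : 𝓞 K) (n : 𝓞 F), Algebra.norm F (x : K) = (n : F) → Ideal.Quotient.mk _ n = ∏ k, r k x := by
  classical
  have hfree : Module.Free (𝓞 F) (𝓞 K) := inferInstance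
  have hfin : Module.Finite (𝓞 F) (𝓞 K) := inferInstance
  let b : Module.Basis (Fin (m + 1)) (𝓞 F) (𝓞 K) := Module.finBasisOfFinrankEq _ _ (c4_rank.trans hm)
  let mk : 𝓞 F →+* RN F p N := Ideal.Quotient.mk (Ideal.span {(p : 𝓞 F) ^ N})
  have hlin : ∀ (k : Fin (m + 1)) (c : Fin (m + 1) → 𝓞 F), r k (∑ i, c i • b i) = ∑ i, mk (c i) * r k (b i) := by
    intro k c
    rw [map_sum]
    refine Finset.sum_congr rfl fun i _ => ?_
    rw [Algebra.smul_def, map_mul, halg]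
  let P : Matrix (Fin (m + 1)) (Fin (m + 1)) (RN F p N) := fun k i => r k (b i)
  choose u hu using fun k0 : Fin (m + 1) => hsurj fun k => if k = k0 then 1 else 0
  let C : Matrix (Fin (m + 1)) (Fin (m + 1)) (RN F p N) := fun i k0 => mk (b.repr (u k0) i)
  have hPC : P * C = 1 := by
    ext k k0
    rw [Matrix.mul_apply, Matrix.one_apply, ← hu k0 k]
    conv_rhs => rw [← b.sum_repr (u k0)]
    rw [hlin]
    refine Finset.sum_congr rfl fun i _ => ?_
    exact mul_comm _ _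
  have key : ∀ x : 𝓞 K, mk (Algebra.trace (𝓞 F) (𝓞 K) x) = ∑ k, r k x ∧
      mk (Algebra.norm (𝓞 F) x) = ∏ k, r k x := by
    intro x
    let A : Matrix (Fin (m + 1)) (Fin (m + 1)) (𝓞 F) := Algebra.leftMulMatrix b x
    have hA : ∀ j, x * b j = ∑ i, A i j • b i := by
      intro j
      rw [← b.sum_repr (x * b j)]
      refine Finset.sum_congr rfl fun i _ => ?_
      exact congrArg (fun t => t • b i) (Algebra.leftMulMatrix_eq_repr_mul b x i j).symm
    have h1 : Matrix.diagonal (fun k => r k x) * P = P * A.map mk := by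
      ext k j
      rw [Matrix.diagonal_mul, Matrix.mul_apply]
      show r k x * r k (b j) = _
      rw [← map_mul, hA, hlin]
      refine Finset.sum_congr rfl fun i _ => ?_
      exact mul_comm _ _
    obtain ⟨h2, h3⟩ := c4_mat P C _ _ h1 hPC
    constructor
    · rw [Algebra.trace_eq_matrix_trace b, Matrix.trace, map_sum]
      rw [Matrix.trace_diagonal, Matrix.trace] at h2
      exact h2
    · rw [Algebra.norm_eq_matrix_det b, RingHom.map_det]
      rw [Matrix.det_diagonal] at h3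
      exact h3
  constructor
  · intro x t ht
    have h1 : (algebraMap (𝓞 F) F) (Algebra.trace (𝓞 F) (𝓞 K) x) = Algebra.trace F K (x : K) := by
      rw [← Algebra.intTrace_eq_trace]
      exact Algebra.algebraMap_intTrace (A := 𝓞 F) (K := F) (L := K) (B := 𝓞 K) x
    have h2 : Algebra.trace (𝓞 F) (𝓞 K) x = t := by
      apply RingOfIntegers.coe_injective
      exact h1.trans ht
    rw [← h2]
    exact (key x).1
  · intro x n hn
    have h1 : (algebraMap (𝓞 F) F) (Algebra.norm (𝓞 F) x) = Algebra.norm F (x : K) := by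
      rw [← Algebra.intNorm_eq_norm]
      exact Algebra.algebraMap_intNorm (A := 𝓞 F) (K := F) (L := K) (B := 𝓞 K) x
    have h2 : Algebra.norm (𝓞 F) x = n := by
      apply RingOfIntegers.coe_injective
      exact h1.trans hn
    rw [← h2]
    exact (key x).2

end SSG.S
end
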