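import Mathlib
import Pool.Agent.Lib.H1M.PP2.M004
import Pool.Agent.Lib.H1M.PP2.M079
import Pool.Agent.Lib.H1M.PP2.M081
import Pool.Agent.Lib.H1M.PP2.M101
import Pool.Agent.Lib.H1M.PP2.M103
import Pool.Agent.Lib.H1M.PP2.M114
import Pool.Agent.Lib.H1M.PP2.M116
import Pool.Agent.Lib.H1M.PP2.M118
import Pool.Agent.Lib.H1M.PP2.M125
import Pool.Agent.Lib.H1M.PP2.M130
import Pool.Agent.Lib.H1M.PP2.M132
import Pool.Agent.Lib.H1M.PP2.M139
import Pool.Agent.Lib.H1M.PP2.M145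
import Pool.Agent.Lib.H1M.PP2.M151
import Pool.Agent.Lib.H1M.PP2.M167

/-! Merged copies (to shorten the build) of Lib.SSG.S.A1, Lib.SSG.S.A2, Lib.SSG.S.C1, Lib.SSG.S.C3, Lib.SSG.S.CX, Lib.SSG.S.A3, Lib.SSG.S.A4. -/

-- from Lib.SSG.S.A1
section

/-! # SSG, part S (E4): the sum over the classes, complex numbers -/

open NumberField IsDedekindDomain

namespace SSG.S

open H55N H55P SSG.E
open H55Z (HasL chN chN_apply)
open H35P (WAB Ker tt)
open H55K (CMA Dta)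

variable {F : Type} [Field F] [NumberField F] [IQ F] {K : Type} [Field K] [NumberField K] [Algebra F K]

/-- The second part of classw: the values of a class are, divided by the power of the period, uniform limits of integral polynomials in
the Lubin-Tate coordinates. -/
def ClsV (p N m : ℕ) [Fact p.Prime] (I : Ideal (𝓞 K)) (c₀ : 𝓞 K) (val : 𝓞 K → ℂ) : Prop :=
  ∀ (A B : F) (Om : ℂ) (Ω : Type) [Field Ω] [DecidableEq Ω] [Algebra F Ω] [IsAlgClosure F Ω] (j : Ω →+* ℂ)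
    (act : 𝓞 F →+* AddMonoid.End (Pt (WAB A B) Ω)) (mm : Ideal (𝓞 F)) (ψ : Ideal (𝓞 F) →*₀ 𝓞 F),
    Dta A B Om j act mm ψ p → (Ideal.span {(p : 𝓞 F)}).IsPrime →
    ∀ (V : ValuationSubring Ω) (i : Ω →+* ℂ_[p]) (T : ℕ → Pt (WAB A B) Ω) (L : LTF F ℂ_[p]),
      V.valuation (p : Ω) < 1 → LocM A B Om j act p V i T L →
    ∀ (v : Fin (m + 1) → HeightOneSpectrum (𝓞 K)) (r : Fin (m + 1) → 𝓞 K →+* RN F p N), Crd p N v r →
    ∃ (h : 𝓞 K → Ω) (H' : (Fin (m + 1) → 𝓞 F) → ℂ_[p]),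
      (∀ a ∈ XS I c₀, j (h a) = val a / Om ^ (m + 1)) ∧
      L.Fn N (Fin (m + 1)) H' ∧ ∀ a ∈ XS I c₀, i (h a) = H' (cr r a)

/-- The values of ψ at the prime v above the inert prime p. -/
theorem a1_v {p : ℕ} {ψ : Ideal (𝓞 F) →*₀ 𝓞 F} (hψ : ψ (Ideal.span {(p : 𝓞 F)}) = -(p : 𝓞 F))
    (w : HeightOneSpectrum (𝓞 K)) (hw : Ideal.relNorm (𝓞 F) w.asIdeal = Ideal.span {(p : 𝓞 F)}) :
    PsiP K ψ w.asIdeal = -(p : ℂ) ∧ Ideal.absNorm w.asIdeal = p ^ 2 := by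
  constructor
  · rw [PsiP_apply, hw, hψ, map_neg, map_neg, map_natCast, map_natCast]
  · have h1 : Ideal.absNorm w.asIdeal = Ideal.absNorm (Ideal.relNorm (𝓞 F) w.asIdeal) := by
      rw [Ideal.absNorm_relNorm]
    rw [h1, hw, pt8_norm, IQ.deg]

/-- The term of the series at the ideal Q_e. -/
theorem a1_Q {p : ℕ} (hp : p.Prime) {ψ : Ideal (𝓞 F) →*₀ 𝓞 F} (hψ : ψ (Ideal.span {(p : 𝓞 F)}) = -(p : 𝓞 F)) {m N : ℕ}
    (v : Fin (m + 1) → HeightOneSpectrum (𝓞 K)) (hrel : ∀ k, Ideal.relNorm (𝓞 F) (v k).asIdeal = Ideal.span {(p : 𝓞 F)})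
    (e : Fin (m + 1) → ℕ) : tm (PsiP K ψ) 1 (Qe v N e) = (∏ i, (-(p : ℂ)) ^ (N - e i))⁻¹ := by
  have hp0 : (p : ℂ) ≠ 0 := Nat.cast_ne_zero.2 hp.ne_zero
  unfold tm Qe
  rw [Complex.cpow_neg_one, map_prod, map_prod, Nat.cast_prod, ← Finset.prod_inv_distrib, ← Finset.prod_inv_distrib,
    ← Finset.prod_mul_distrib]
  refine Finset.prod_congr rfl fun k _ => ?_
  obtain ⟨h1, h2⟩ := a1_v hψ (v k) (hrel k)
  rw [map_pow, map_pow, h1, h2, ← inv_pow, Nat.cast_pow, Nat.cast_pow, ← inv_pow, ← mul_pow]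
  congr 1
  field_simp

theorem a1_dvd {p : ℕ} {m N : ℕ} {v : Fin (m + 1) → HeightOneSpectrum (𝓞 K)}
    (hprod : Ideal.span {(p : 𝓞 K)} = ∏ k, (v k).asIdeal) (e : Fin (m + 1) → ℕ) (a b : Ideal (𝓞 K))
    (hb : IsCoprime b (Ideal.span {(p : 𝓞 K)})) (x : 𝓞 K) (h : a * b = Ideal.span {x}) : a ≤ Qe v N e ↔ x ∈ Qe v N e := by
  have h1 : IsCoprime (Qe v N e) b := by
    unfold Qe
    refine IsCoprime.prod_left fun k _ => IsCoprime.pow_left ?_
    rw [hprod] at hb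
    exact (IsCoprime.prod_right_iff.1 hb k (Finset.mem_univ k)).symm
  rw [← Ideal.span_singleton_le_iff_mem, ← h]
  constructor
  · intro h2
    exact Ideal.mul_le_left.trans h2
  · intro h2
    rw [← Ideal.dvd_iff_le] at h2 ⊢
    exact h1.dvd_of_dvd_mul_right h2

end SSG.S
end

-- from Lib.SSG.S.A2
section

/-! # SSG, part S (E4): the sum over the classes, complex numbers -/

open NumberField IsDedekindDomain

namespace SSG.S

open H55N H55P SSG.E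
open H55Z (HasL chN chN_apply)
open H35P (WAB Ker tt)
open H55K (CMA Dta)

variable {F : Type} [Field F] [NumberField F] [IQ F] {K : Type} [Field K] [NumberField K] [Algebra F K]

theorem a2_chi {C : Type} [CommRing C] {p k : ℕ} (χ : DirichletCharacter C (p ^ (k + 1))) (hχ : orderOf χ = p ^ k)
    {n : ZMod (p ^ (k + 1))} (hn : IsUnit n) : χ n ^ p ^ k = 1 := by
  obtain ⟨u, rfl⟩ := hn
  have h1 : χ ^ p ^ k = 1 := by
    rw [← hχ]
    exact pow_orderOf_eq_one χ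
  rw [← MulChar.pow_apply_coe, h1, MulChar.one_apply_coe]

theorem a2_chN {p : ℕ} [hp : Fact p.Prime] {k : ℕ} (χ : DirichletCharacter ℂ (p ^ (k + 1))) (hχ : orderOf χ = p ^ k)
    (a : Ideal (𝓞 K)) : chN K χ a ^ p ^ k = 1 ∨ chN K χ a = 0 := by
  rw [chN_apply]
  by_cases hn : IsUnit ((Ideal.absNorm a : ℕ) : ZMod (p ^ (k + 1)))
  · exact Or.inl (a2_chi χ hχ hn)
  · exact Or.inr (χ.map_nonunit hn)

theorem a2_unit {p : ℕ} (hp : p.Prime) (k : ℕ) (b : Ideal (𝓞 K)) (hb : IsCoprime b (Ideal.span {(p : 𝓞 K)})) :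
    (Ideal.absNorm b).Coprime p ∧ IsUnit ((Ideal.absNorm b : ℕ) : ZMod (p ^ (k + 1))) := by
  have h1 : (Ideal.absNorm b).Coprime p := by
    rw [Nat.coprime_comm, Nat.Prime.coprime_iff_not_dvd hp]
    exact absNorm_cop p hp b hb
  refine ⟨h1, ?_⟩
  rw [ZMod.isUnit_iff_coprime]
  exact h1.pow_right _

/-- The complex part of the sum over the classes. -/
theorem an_main {p : ℕ} [hp : Fact p.Prime] {M : Ideal (𝓞 F)} {ψ : Ideal (𝓞 F) →*₀ 𝓞 F} (h : IsHecke M ψ)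
    (hMp : IsCoprime M (Ideal.span {(p : 𝓞 F)})) (hψ : ψ (Ideal.span {(p : 𝓞 F)}) = -(p : 𝓞 F)) (hK : UnrP p K)
    {m : ℕ} (hm : Module.finrank F K = m + 1) (V : ValuationSubring ℂ) (hV : V.valuation (p : ℂ) < 1)
    (hNT : NTP K p M ψ V) {k : ℕ} (χ : DirichletCharacter ℂ (p ^ (k + 1))) (hχ : orderOf χ = p ^ k) {v₁ : ℂ}
    (h₁ : HasL (PsiP K ψ) v₁) (v : Fin (m + 1) → HeightOneSpectrum (𝓞 K)) (r : Fin (m + 1) → 𝓞 K →+* RN F p (k + 1))
    (hC : Crd p (k + 1) v r) (hrel : ∀ k, Ideal.relNorm (𝓞 F) (v k).asIdeal = Ideal.span {(p : 𝓞 F)}) :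
    ∃ (ι : Type) (_ : Fintype ι) (b : ι → Ideal (𝓞 K)) (c₀ : ι → 𝓞 K) (R : ι → Finset (𝓞 K)) (κ : ι → ℂ)
      (val : ι → 𝓞 K → ℂ) (Bχ B₁ vχ : ℂ),
      (∀ i, IsCoprime (mK K M * ⊤ * b i) (Ideal.span {(p : 𝓞 K)})) ∧
      (∀ i, RpU (mK K M * ⊤ * b i) (c₀ i) (p ^ (k + 1)) (R i)) ∧
      (∀ i, IsAlgebraic ℚ (κ i)) ∧ (∀ i, V.valuation (κ i) = 1) ∧
      (∀ i, IsUnit ((Ideal.absNorm (b i) : ℕ) : ZMod (p ^ (k + 1)))) ∧
      HasL (PsiP K ψ * chN K χ : Ideal (𝓞 K) →*₀ ℂ) vχ ∧ V.valuation Bχ = 1 ∧ V.valuation B₁ = 1 ∧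
      Bχ * vχ = ∑ i, κ i * (chN K χ (b i))⁻¹ * (Ideal.absNorm (b i) : ℂ) *
        ((((p : ℂ) ^ (k + 1))⁻¹) ^ (m + 1) * ∑ a ∈ R i, wchi χ a * val i a) ∧
      (∀ e : Fin (m + 1) → ℕ, (∏ i, (-(p : ℂ)) ^ (k + 1 - e i))⁻¹ * (B₁ * v₁) =
        ∑ i, κ i * (Ideal.absNorm (b i) : ℂ) *
          ((((p : ℂ) ^ (k + 1))⁻¹) ^ (m + 1) * ∑ a ∈ R i, ind (Qe v (k + 1) e) a * val i a)) ∧
      ∀ i, ClsV (F := F) p (k + 1) m (mK K M * ⊤ * b i) (c₀ i) (val i) := by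
  classical
  have hpp : p.Prime := hp.out
  obtain ⟨l, hl⟩ := h.toMod p hMp
  obtain ⟨w0, hw0l, hw0M⟩ := pt9_prime K hl
  have hJM : mK K M * (⊤ : Ideal (𝓞 K)) ≤ mK K M := Ideal.mul_le_left
  have hJ0 : mK K M * (⊤ : Ideal (𝓞 K)) ≠ ⊥ := by
    rw [Ideal.mul_top]
    exact pt9_mK_ne h.ne
  have hJ1 : mK K M * (⊤ : Ideal (𝓞 K)) ≠ ⊤ := by
    intro h1
    apply w0.isPrime.ne_top
    rw [← top_le_iff, ← h1]
    exact hJM.trans hw0M
  have hpK : Ideal.span {(p : 𝓞 K)} ≠ ⊥ := by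
    rw [Ne, Ideal.span_singleton_eq_bot, Nat.cast_eq_zero]
    exact hpp.ne_zero
  have hg0 : Ideal.span {(p : 𝓞 K)} * (mK K M * ⊤) ≠ ⊥ := mul_ne_zero hpK hJ0
  have hgJ : Ideal.span {(p : 𝓞 K)} * (mK K M * ⊤) ≤ mK K M * ⊤ := Ideal.mul_le_right
  obtain ⟨ι, hι, b, c₀, T, hcd⟩ := exists_CDJ (mK K M * ⊤) (Ideal.span {(p : 𝓞 K)} * (mK K M * ⊤))
    hJ0 hg0 hgJ hJ1
  have hbp : ∀ i, IsCoprime (b i) (Ideal.span {(p : 𝓞 K)}) := fun i => (hcd.cop i).of_mul_right_left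
  have hlam : ∀ i, c₀ i ∉ Ideal.span {algebraMap (𝓞 F) (𝓞 K) l} * b i := by
    intro i hi
    refine hcd.prim i w0 (hJM.trans hw0M) (Ideal.mul_mono_left ?_ hi)
    rw [Ideal.span_singleton_le_iff_mem]
    exact hw0l
  have htop : (⊤ : Ideal (𝓞 K)) ≠ ⊥ := top_ne_bot
  have hcopt : IsCoprime (⊤ : Ideal (𝓞 K)) (Ideal.span {(p : 𝓞 K)}) := by
    rw [← Ideal.one_eq_top]
    exact isCoprime_one_left
  have hcls := fun i => classw p hl K m hm hK (b i) ⊤ (hcd.ne i) (hbp i) htop hcopt (c₀ i)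
    (hcd.mem i) (hlam i) (k + 1) (Nat.le_add_left 1 k)
  choose Bad hBad hcls using hcls
  have hfinp : {w : Ideal (𝓞 K) | (p : 𝓞 K) ∈ w}.Finite := by
    refine (pt9_finite (Ideal.span {(p : 𝓞 K)}) hpK).subset ?_
    intro w hw
    exact (Ideal.span_singleton_le_iff_mem w).2 hw
  obtain ⟨c, q, hs, hcb, hun⟩ := exists_smoothP p hpp h hMp V hV hNT m
    (((⋃ i, Bad i) ∪ ⋃ i, {w : Ideal (𝓞 K) | b i ≤ w}) ∪ {w : Ideal (𝓞 K) | (p : 𝓞 K) ∈ w})
    (((Set.finite_iUnion hBad).union (Set.finite_iUnion fun i => pt9_finite (b i) (hcd.ne i))).union hfinp)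
  have hcp : ∀ j, (c j).IsPrime := fun j => (hcb j).1
  have hcpp : ∀ j, (p : 𝓞 K) ∉ c j := fun j hj => (hcb j).2 (Or.inr hj)
  have hbc : ∀ i j, IsCoprime (b i) (c j) := by
    intro i j
    rw [Ideal.isCoprime_iff_sup_eq]
    by_contra h
    have hmax : (c j).IsMaximal := (hcp j).isMaximal (pt3_ne hs j)
    have h1 : c j ≤ b i ⊔ c j := le_sup_right
    have h2 : b i ⊔ c j = c j := (hmax.eq_of_le h h1).symm
    apply (hcb j).2
    refine Or.inl (Or.inr (Set.mem_iUnion.2 ⟨i, ?_⟩))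
    show b i ≤ c j
    rw [← h2]
    exact le_sup_left
  have hcls2 := fun i => hcls i c q hs (fun j hj => (hcb j).2 (Or.inl (Or.inl (Set.mem_iUnion.2 ⟨i, hj⟩))))
  choose val hval1 hval2 using hcls2
  have hkap := fun i => k1_kappa p hpp h hMp (b i) (hcd.ne i) (hcd.cop i) (c₀ i) (hcd.mem i) (hcd.prim i)
  choose κ hκu hκa hκ using hkap
  have hcf : CoefP F (mK K M * ⊤) ι b c₀ (PsiP K ψ) κ := k1_coef h hκ
  have hI0 : ∀ i, mK K M * ⊤ * b i ≠ ⊥ := fun i => mul_ne_zero hJ0 (hcd.ne i)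
  choose R hR using fun i => exists_RpU (mK K M * ⊤ * b i) (hI0 i) (c₀ i) (p ^ (k + 1)) (pow_ne_zero _ hpp.ne_zero)
  have hNb : ∀ i, Ideal.absNorm (b i) ≠ 0 := fun i => by
    rw [Ne, Ideal.absNorm_eq_zero_iff]
    exact hcd.ne i
  -- the weighted series
  have key : ∀ (θ : Ideal (𝓞 K) → ℂ) (φ : 𝓞 K → ℂ) (lam : ι → ℂ),
      (∀ i, WtU (mK K M * ⊤ * b i) (c₀ i) (p ^ (k + 1)) φ) →
      (∀ i, ∀ x ∈ XS (mK K M * ⊤ * b i) (c₀ i), ∀ a : Ideal (𝓞 K), a * b i = Ideal.span {x} → θ a = lam i * φ x) →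
      ∃ G : ℂ → ℂ, AnalyticOnNhd ℂ G {s | 1 / 2 < s.re} ∧
        (∀ s : ℂ, 3 / 2 < s.re → HasSum (fun a : Ideal (𝓞 K) => tm (PsiP K ψ) s a * θ a *
          ∏ j, (if a ≤ c j then 1 - (q j : ℂ) else 1)) (G s)) ∧
        G 1 = ∑ i, κ i * lam i * (Ideal.absNorm (b i) : ℂ) *
          ((((p : ℂ) ^ (k + 1))⁻¹) ^ (m + 1) * ∑ a ∈ R i, φ a * val i a) := by
    intro θ φ lam hφ hθ
    choose Z hZa hZs hZ1 using fun i => hval1 i φ (hφ i)
    refine ⟨fun s => ∑ i, κ i * lam i * (Ideal.absNorm (b i) : ℂ) ^ s * Z i s, ?_, ?_, ?_⟩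
    · intro s hs'
      exact Finset.analyticAt_fun_sum _ fun i _ =>
        (analyticAt_const.mul (pt3_pow_analytic _ (hNb i) Set.univ s trivial)).mul (hZa i s hs')
    · intro s hs'
      exact s1_series hgJ hJ1 hcd hcf θ φ lam hθ hcp hbc (fun i => Z i s) s
        fun i => hZs i (T i) (hcd.trans i) s hs'
    · refine Finset.sum_congr rfl fun i _ => ?_
      rw [hZ1 i (R i) (hR i), Complex.cpow_one]
  -- the twisted series
  have hθχ : ∀ i, ∀ x ∈ XS (mK K M * ⊤ * b i) (c₀ i), ∀ a : Ideal (𝓞 K), a * b i = Ideal.span {x} →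
      chN K χ a = (chN K χ (b i))⁻¹ * wchi χ x := by
    intro i x _ a ha
    have h1 : chN K χ (b i) ≠ 0 := by
      rw [chN_apply]
      intro h0
      have h2 := a2_chi χ hχ (a2_unit hpp k (b i) (hbp i)).2
      rw [h0, zero_pow (pow_ne_zero _ hpp.ne_zero)] at h2
      exact zero_ne_one h2
    have h2 : wchi χ x = chN K χ a * chN K χ (b i) := by
      rw [← map_mul, ha]
      rfl
    rw [h2, mul_comm (chN K χ a), inv_mul_cancel_left₀ h1]
  obtain ⟨G, hGa, hGs, hG1⟩ := key (chN K χ) (wchi χ) (fun i => (chN K χ (b i))⁻¹)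
    (fun i => d2_chi hC χ _ _) hθχ
  obtain ⟨Z0, hZ0a, hZ0s⟩ := s3_cont h hMp hm χ
  have hnrm : ∀ a : Ideal (𝓞 K), ‖(PsiP K ψ * chN K χ : Ideal (𝓞 K) →*₀ ℂ) a‖ ^ 2 ≤ Ideal.absNorm a := by
    intro a
    refine le_trans ?_ (PsiP_norm_le h a)
    have h4 : (PsiP K ψ * chN K χ : Ideal (𝓞 K) →*₀ ℂ) a = PsiP K ψ a * chN K χ a := rfl
    rw [h4, norm_mul, mul_pow]
    exact mul_le_of_le_one_right (by positivity) (pow_le_one₀ (norm_nonneg _) (H55Z.chN_norm K χ a))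
  have hPa : ∀ h : Ideal (𝓞 K) →*₀ ℂ, AnalyticOnNhd ℂ
      (fun s : ℂ => ∏ j, (1 - (q j : ℂ) * tm h s (c j))) {s | 1 / 2 < s.re} := by
    intro h s hs'
    exact Finset.analyticAt_fun_prod _ fun j _ =>
      (analyticAt_const.sub (analyticAt_const.mul
        (pt3_tm_analytic h (c j) (pt3_ne hs j) Set.univ s trivial)))
  have hGe : ∀ s : ℂ, 3 / 2 < s.re →
      G s = (∏ j, (1 - (q j : ℂ) * tm (PsiP K ψ * chN K χ : Ideal (𝓞 K) →*₀ ℂ) s (c j))) * Z0 s := by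
    intro s hs'
    have h1 := hGs s hs'
    have h2 := smooth_sum (tmH (PsiP K ψ * chN K χ : Ideal (𝓞 K) →*₀ ℂ) s) (tm_summable _ hnrm s hs') c hcp (pt3_ne hs)
      (pt3_inj hs) (fun i => (q i : ℂ))
    have h3 : ∑' a, tmH (PsiP K ψ * chN K χ : Ideal (𝓞 K) →*₀ ℂ) s a = Z0 s := (hZ0s s hs').tsum_eq
    rw [h3] at h2
    refine h1.unique (h2.congr_fun fun a => ?_)
    have h4 : tmH (PsiP K ψ * chN K χ : Ideal (𝓞 K) →*₀ ℂ) s a = tm (PsiP K ψ) s a * chN K χ a := by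
      show PsiP K ψ a * chN K χ a * _ = PsiP K ψ a * _ * chN K χ a
      ring
    rw [h4]
  obtain ⟨Λ, hΛa, hΛs, hΛG⟩ := glue (1 / (2 * (m + 1 : ℝ))) (by positivity) G Z0
    (fun s : ℂ => ∏ j, (1 - (q j : ℂ) * tm (PsiP K ψ * chN K χ : Ideal (𝓞 K) →*₀ ℂ) s (c j)))
    hGa hZ0a (hPa _)
    (fun s hs' => Finset.prod_ne_zero_iff.2 fun j _ => s4_ne h (chN K χ) (c j) (q j) (hs.prime j) (hs.norm j)
      (by
        rcases a2_chN χ hχ (c j) with h1 | h1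
        · exact Or.inl (Complex.norm_eq_one_of_pow_eq_one h1 (pow_ne_zero _ hpp.ne_zero))
        · exact Or.inr h1) s hs')
    hGe
  -- the untwisted series
  obtain ⟨Λ₁, h1a, h1s, h1v⟩ := h₁
  have h1re : (1 / 2 : ℝ) < (1 : ℂ).re := by norm_num
  refine ⟨ι, hι, b, c₀, R, κ, val, _, ∏ j, (1 - (q j : ℂ) * tm (PsiP K ψ) 1 (c j)), Λ 1, ?_, hR, hκa,
    fun i => hκu i V hV, fun i => (a2_unit hpp k (b i) (hbp i)).2, ⟨Λ, hΛa, fun s hs' => ?_, rfl⟩, ?_, ?_,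
    (hΛG 1 h1re).symm.trans hG1, ?_, ?_⟩
  · intro i
    rw [Ideal.mul_top]
    exact IsCoprime.mul_left (pe9_cop hMp) (hbp i)
  · rw [hΛs s hs']
    exact hZ0s s hs'
  · rw [map_prod]
    refine Finset.prod_eq_one fun j _ => s4_unit V ψ (chN K χ) (c j) (q j) (hs.prime j) (hs.norm j) (hun j) ?_
    rcases a2_chN χ hχ (c j) with h1 | h1
    · exact Or.inl (s4_root p hpp V hV k _ h1)
    · exact Or.inr h1
  · rw [map_prod]
    exact Finset.prod_eq_one fun j _ => s4_unit1 V ψ (c j) (q j) (hs.prime j) (hs.norm j) (hun j)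
  · intro e
    have hQ0 : Qe v (k + 1) e ≠ ⊥ := Finset.prod_ne_zero_iff.2 fun i _ => pow_ne_zero _ (v i).ne_bot
    have hQc : ∀ j, ¬ Qe v (k + 1) e ≤ c j := by
      intro j hj
      have h2 := hcp j
      apply hcpp j
      exact h2.mem_of_pow_mem _ (hj (d2_pow hC e))
    obtain ⟨Ge, hGea, hGes, hGe1⟩ := key (fun a => if a ≤ Qe v (k + 1) e then 1 else 0) (ind (Qe v (k + 1) e)) (fun _ => 1)
      (fun i => d2_ind _ (d2_pow hC e) _ _) (fun i x _ a ha => by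
        rw [one_mul]
        unfold ind
        have h2 := a1_dvd (N := k + 1) hC.prod e a (b i) (hbp i) x ha
        by_cases h3 : x ∈ Qe v (k + 1) e
        · rw [if_pos h3, if_pos (h2.2 h3)]
        · rw [if_neg h3, if_neg fun h4 => h3 (h2.1 h4)])
    have h4 : ∀ s : ℂ, 1 / 2 < s.re → Ge s = tm (PsiP K ψ) s (Qe v (k + 1) e) *
        ((∏ j, (1 - (q j : ℂ) * tm (PsiP K ψ) s (c j))) * Λ₁ s) := by
      intro s hs'
      refine ident Ge (fun s => tm (PsiP K ψ) s (Qe v (k + 1) e) *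
        ((∏ j, (1 - (q j : ℂ) * tm (PsiP K ψ) s (c j))) * Λ₁ s)) hGea ?_ ?_ s hs'
      · refine AnalyticOnNhd.mul ?_ ((hPa _).mul h1a)
        intro z hz
        exact pt3_tm_analytic (PsiP K ψ) _ hQ0 Set.univ z trivial
      · intro z hz
        have h5 := s2_div (PsiP K ψ) (PsiP_norm_le h) (Qe v (k + 1) e) hQ0 hs hcp hQc z hz
        rw [(h1s z hz).tsum_eq] at h5
        exact (hGes z hz).unique h5
    have h5 := h4 1 h1re
    rw [a1_Q hpp hψ v hrel, h1v] at h5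
    rw [← h5, hGe1]
    refine Finset.sum_congr rfl fun i _ => ?_
    rw [mul_one]
  · intro i A B Om Ω _ _ _ _ j act mm ψ' hd hin V' i' T' L hV' hL v' r' hr
    exact hval2 i A B Om Ω j act mm ψ' hd hin V' i' T' L hV' hL v' r' hr

end SSG.S
end

-- from Lib.SSG.S.C1
section

/-! # SSG, part S (E4), C: the primes of K above the inert prime p -/

open NumberField IsDedekindDomain

namespace SSG.S

open H55N H55P

variable {F : Type} [Field F] [NumberField F] {K : Type} [Field K] [NumberField K] [Algebra F K]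

/-! Chunk C1 (S/M). PROOF. P = span {p} in 𝓞 F is prime, nonzero, so maximal. A prime w of K contains p iff w lies over P. By Spl: e = f = 1 for all these.
Ideal.sum_ramification_inertia: sum over the primes above P of e f = [K : F] = m + 1, so there are exactly m + 1 primes above P; enumerate them: v.
The ideal P 𝓞 K = span {p} is the product of w^e (Ideal.map ... = prod of the primes to the power ramificationIdx; see e.g. Lib/H55P/CH2*.lean, H55Z/Q3.lean, or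
UniqueFactorizationMonoid / Ideal.finprod_heightOneSpectrum_factorization). relNorm w = P^f = P (Ideal.relNorm_eq_pow_of_isMaximal / Ideal.relNorm_..., see
CH2_norm in H55P, or DD.below in H55K/D*.lean which gives relNorm w = v^f). -/

/-- The primes above p. -/
theorem c1_primes {p : ℕ} (hp : p.Prime) (hin : (Ideal.span {(p : 𝓞 F)}).IsPrime) (hS : H55Z.Spl F p K) {m : ℕ}
    (hm : Module.finrank F K = m + 1) :
    ∃ v : Fin (m + 1) → HeightOneSpectrum (𝓞 K), Function.Injective v ∧ Ideal.span {(p : 𝓞 K)} = ∏ k, (v k).asIdeal ∧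
      (∀ w : HeightOneSpectrum (𝓞 K), (p : 𝓞 K) ∈ w.asIdeal ↔ ∃ k, v k = w) ∧
      ∀ k, Ideal.relNorm (𝓞 F) (v k).asIdeal = Ideal.span {(p : 𝓞 F)} := by
  classical
  have hpF : (p : 𝓞 F) ≠ 0 := by
    exact_mod_cast hp.ne_zero
  have hP0 : Ideal.span {(p : 𝓞 F)} ≠ ⊥ := by
    rw [Ne, Ideal.span_singleton_eq_bot]
    exact hpF
  have hmax : (Ideal.span {(p : 𝓞 F)}).IsMaximal := hin.isMaximal hP0
  set P : Ideal (𝓞 F) := Ideal.span {(p : 𝓞 F)} with hP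
  have hover : ∀ q : Ideal (𝓞 K), q.IsPrime → ((p : 𝓞 K) ∈ q ↔ q.LiesOver P) := by
    intro q hq
    constructor
    · intro h
      constructor
      refine hmax.eq_of_le ?_ ?_
      · exact (Ideal.IsPrime.under (𝓞 F) q).ne_top
      · rw [hP, Ideal.span_singleton_le_iff_mem, Ideal.under_def, Ideal.mem_comap, map_natCast]
        exact h
    · intro h
      have h1 : (p : 𝓞 F) ∈ P := Ideal.mem_span_singleton_self _
      rw [h.over, Ideal.under_def, Ideal.mem_comap, map_natCast] at h1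
      exact h1
  have hbot : ∀ q : Ideal (𝓞 K), (p : 𝓞 K) ∈ q → q ≠ ⊥ := by
    intro q hq h0
    rw [h0, Ideal.mem_bot] at hq
    exact hp.ne_zero (by exact_mod_cast hq)
  have hmem : ∀ q : P.primesOver (𝓞 K), (p : 𝓞 K) ∈ q.1 := fun q => (hover q.1 q.2.1).2 q.2.2
  have hsp : ∀ q : P.primesOver (𝓞 K), q.1.ramificationIdx (𝓞 F) = 1 ∧ q.1.inertiaDeg (𝓞 F) = 1 := fun q =>
    hS ⟨q.1, q.2.1, hbot q.1 (hmem q)⟩ (hmem q)
  have hcard : Fintype.card (P.primesOver (𝓞 K)) = m + 1 := by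
    have h1 := Ideal.sum_ramification_inertia_eq_finrank P (𝓞 K)
    rw [← IsFractionRing.finrank_eq (𝓞 F) F (𝓞 K) K, hm] at h1
    rw [← h1, Finset.sum_congr rfl fun q _ => by rw [(hsp q).1, (hsp q).2]]
    simp
  let e : Fin (m + 1) ≃ P.primesOver (𝓞 K) := (Fintype.equivFinOfCardEq hcard).symm
  let v : Fin (m + 1) → HeightOneSpectrum (𝓞 K) := fun k => ⟨(e k).1, (e k).2.1, hbot _ (hmem (e k))⟩
  refine ⟨v, ?_, ?_, ?_, ?_⟩
  · intro a b hab
    apply e.injective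
    apply Subtype.ext
    exact congrArg HeightOneSpectrum.asIdeal hab
  · have h1 : Ideal.span {(p : 𝓞 K)} = P.map (algebraMap (𝓞 F) (𝓞 K)) := by
      rw [hP, Ideal.map_span, Set.image_singleton, map_natCast]
    rw [h1, Ideal.map_algebraMap_eq_finsetProd_pow hP0]
    have h2 : ∀ q : P.primesOver (𝓞 K), q.1 ^ q.1.ramificationIdx (𝓞 F) = q.1 := fun q => by
      rw [(hsp q).1, pow_one]
    have h3 : ∏ q : P.primesOver (𝓞 K), q.1 ^ q.1.ramificationIdx (𝓞 F) = ∏ k, (v k).asIdeal := by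
      rw [Finset.prod_congr rfl fun q _ => h2 q]
      exact (Equiv.prod_comp e fun q : P.primesOver (𝓞 K) => q.1).symm
    rw [← h3]
    exact (Finset.prod_set_coe (P.primesOver (𝓞 K)) (f := fun Q => Q ^ Q.ramificationIdx (𝓞 F))).symm
  · intro w
    constructor
    · intro hw
      obtain ⟨k, hk⟩ := e.surjective ⟨w.asIdeal, w.isPrime, (hover w.asIdeal w.isPrime).1 hw⟩
      refine ⟨k, HeightOneSpectrum.ext ?_⟩
      exact congrArg Subtype.val hk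
    · rintro ⟨k, rfl⟩
      exact hmem (e k)
  · intro k
    have h1 : (e k).1.LiesOver P := (e k).2.2
    have h2 : (v k).asIdeal.LiesOver P := h1
    have h3 := (v k).isMaximal
    rw [Ideal.relNorm_eq_pow_of_isMaximal (v k).asIdeal P]
    have h4 : (v k).asIdeal.inertiaDeg (𝓞 F) = 1 := (hsp (e k)).2
    rw [h4, pow_one]

end SSG.S
end

-- from Lib.SSG.S.C3
section

/-! # SSG, part S (E4), C: the coordinates modulo p^N, ideals -/

open NumberField IsDedekindDomain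

namespace SSG.S

open H55N H55P SSG.E

variable {F : Type} [Field F] [NumberField F] {K : Type} [Field K] [NumberField K] [Algebra F K]

/-! Chunk C3 (M). PROOF. sj: given y k = mk (t k); by the Chinese remainder theorem for the pairwise coprime ideals (v k)^N (distinct maximal ideals; Ideal.exists_forall_sub_mem_ideal or
Ideal.quotientInfRingEquivPiQuotient) there is x with x - algebraMap (t k) in (v k)^N for all k, so r k x = r k (algebraMap (t k)) = mk (t k) = y k.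
kr: r k x = 0 for all k iff x in all (v k)^N iff x in the product of the (v k)^N (pairwise coprime: Ideal.prod_eq_iInf / inf = prod) = (prod v k)^N = span {p}^N = span {p^N}.
pw: let t be in 𝓞 F with mk t = r k x = r k (algebraMap t): x - algebraMap t in (v k)^N <= (v k)^e. So x in (v k)^e iff algebraMap t in (v k)^e iff p^e | t (c2_mem; p not in (v k)^2
by sq) iff mk (p^e) | mk t (since p^e | p^N). -/

/-- The properties of the coordinates. -/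
theorem c3_crd {p : ℕ} (hp : p.Prime) (hin : (Ideal.span {(p : 𝓞 F)}).IsPrime) {m N : ℕ}
    (v : Fin (m + 1) → HeightOneSpectrum (𝓞 K)) (hv : Function.Injective v)
    (hprod : Ideal.span {(p : 𝓞 K)} = ∏ k, (v k).asIdeal) (sq : ∀ k, (p : 𝓞 K) ∉ (v k).asIdeal ^ 2)
    (r : Fin (m + 1) → 𝓞 K →+* RN F p N) (halg : ∀ k (a : 𝓞 F), r k (algebraMap (𝓞 F) (𝓞 K) a) = Ideal.Quotient.mk _ a)
    (hker : ∀ k x, r k x = 0 ↔ x ∈ (v k).asIdeal ^ N) :
    (∀ y : Fin (m + 1) → RN F p N, ∃ x, ∀ k, r k x = y k) ∧ (∀ x, (∀ k, r k x = 0) ↔ (p : 𝓞 K) ^ N ∣ x) ∧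
      ∀ x k (e : ℕ), e ≤ N → (x ∈ (v k).asIdeal ^ e ↔ Ideal.Quotient.mk _ ((p : 𝓞 F) ^ e) ∣ r k x) := by
  have hP : ∀ k, Prime (v k).asIdeal := fun k => (v k).prime
  have hne : ∀ i k, i ≠ k → (v i).asIdeal ≠ (v k).asIdeal := fun i k hik h => hik (hv (HeightOneSpectrum.ext h))
  have hmem : ∀ k, (p : 𝓞 K) ∈ (v k).asIdeal := by
    intro k
    have h1 : (∏ k, (v k).asIdeal) ≤ (v k).asIdeal := Ideal.le_of_dvd (Finset.dvd_prod_of_mem _ (Finset.mem_univ k))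
    rw [← hprod] at h1
    exact h1 (Ideal.mem_span_singleton_self _)
  refine ⟨?_, ?_, ?_⟩
  · intro y
    choose t ht using fun k => Ideal.Quotient.mk_surjective (y k)
    obtain ⟨x, hx⟩ := IsDedekindDomain.exists_forall_sub_mem_ideal (s := Finset.univ) (fun k => (v k).asIdeal)
      (fun _ => N) (fun k _ => hP k) (fun i _ k _ h => hne i k h) (fun k => algebraMap (𝓞 F) (𝓞 K) (t k.1))
    refine ⟨x, fun k => ?_⟩
    have h1 := (hker k _).2 (hx k (Finset.mem_univ k))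
    rw [map_sub, sub_eq_zero, halg, ht] at h1
    exact h1
  · intro x
    have h1 : (Finset.univ.inf fun k => (v k).asIdeal ^ N) = Ideal.span {(p : 𝓞 K) ^ N} := by
      rw [IsDedekindDomain.inf_pow_eq_prod_of_prime _ _ _ (fun k _ => hP k) (fun i _ k _ h => hne i k h),
        Finset.prod_pow, ← hprod, Ideal.span_singleton_pow]
    rw [← Ideal.mem_span_singleton, ← h1, Submodule.mem_finsetInf]
    constructor
    · intro h k _
      exact (hker k x).1 (h k)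
    · intro h k
      exact (hker k x).2 (h k (Finset.mem_univ k))
  · intro x k e he
    obtain ⟨t, ht⟩ := Ideal.Quotient.mk_surjective (r k x)
    have h1 : x - algebraMap (𝓞 F) (𝓞 K) t ∈ (v k).asIdeal ^ N := by
      rw [← hker, map_sub, halg, ht, sub_self]
    have h2 : x - algebraMap (𝓞 F) (𝓞 K) t ∈ (v k).asIdeal ^ e := Ideal.pow_le_pow_right he h1
    have h3 : x ∈ (v k).asIdeal ^ e ↔ algebraMap (𝓞 F) (𝓞 K) t ∈ (v k).asIdeal ^ e := by
      constructor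
      · intro h
        have := Ideal.sub_mem _ h h2
        rwa [sub_sub_cancel] at this
      · intro h
        have := Ideal.add_mem _ h2 h
        rwa [sub_add_cancel] at this
    rw [h3, c2_mem hp hin (v k) (hmem k) (sq k), ← ht]
    constructor
    · rintro ⟨c, rfl⟩
      rw [map_mul]
      exact dvd_mul_right _ _
    · rintro ⟨c, hc⟩
      obtain ⟨c', rfl⟩ := Ideal.Quotient.mk_surjective c
      rw [← map_mul, Ideal.Quotient.eq, Ideal.mem_span_singleton] at hc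
      have h4 := ((pow_dvd_pow (p : 𝓞 F) he).trans hc).add (dvd_mul_right ((p : 𝓞 F) ^ e) c')
      rwa [sub_add_cancel] at h4

end SSG.S
end

-- from Lib.SSG.S.CX
section

/-! # SSG, part S (E4), C: the coordinates modulo p^N exist -/

open NumberField IsDedekindDomain

namespace SSG.S

open H55N H55P SSG.E

variable {F : Type} [Field F] [NumberField F] [IQ F] {K : Type} [Field K] [NumberField K] [Algebra F K]

/-- The coordinates exist. -/
theorem exists_crd {p : ℕ} (hp : p.Prime) (hin : (Ideal.span {(p : 𝓞 F)}).IsPrime) (hS : H55Z.Spl F p K) {m : ℕ}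
    (hm : Module.finrank F K = m + 1) (N : ℕ) :
    ∃ (v : Fin (m + 1) → HeightOneSpectrum (𝓞 K)) (r : Fin (m + 1) → 𝓞 K →+* RN F p N), Crd p N v r ∧
      (∀ w : HeightOneSpectrum (𝓞 K), (p : 𝓞 K) ∈ w.asIdeal ↔ ∃ k, v k = w) ∧
      ∀ k, Ideal.relNorm (𝓞 F) (v k).asIdeal = Ideal.span {(p : 𝓞 F)} := by
  classical
  obtain ⟨v, hv, hprod, habove, hrel⟩ := c1_primes hp hin hS hm
  have hmem : ∀ k, (p : 𝓞 K) ∈ (v k).asIdeal := fun k => (habove (v k)).2 ⟨k, rfl⟩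
  have hsq : ∀ k, (p : 𝓞 K) ∉ (v k).asIdeal ^ 2 := by
    intro k hk
    have h1 : (v k).asIdeal ^ 2 ∣ ∏ i, (v i).asIdeal := by
      rw [← hprod, Ideal.dvd_span_singleton]
      exact hk
    rw [← Finset.mul_prod_erase _ _ (Finset.mem_univ k), sq] at h1
    have h2 : (v k).asIdeal ∣ ∏ i ∈ Finset.univ.erase k, (v i).asIdeal :=
      (mul_dvd_mul_iff_left (v k).ne_bot).1 h1
    have hpr : Prime (v k).asIdeal := (v k).prime
    obtain ⟨i, hi, hki⟩ := hpr.exists_mem_finset_dvd h2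
    have h3 : (v i).asIdeal ≤ (v k).asIdeal := Ideal.dvd_iff_le.1 hki
    have h4 : (v i).asIdeal = (v k).asIdeal := ((v i).isMaximal).eq_of_le (v k).isPrime.ne_top h3
    exact (Finset.mem_erase.1 hi).1 (hv (HeightOneSpectrum.ext h4))
  choose r halg hker using fun k => c2_r hp hin (v k) (hmem k) (hsq k) (hrel k) N
  obtain ⟨h1, h2, h3⟩ := c3_crd hp hin v hv hprod hsq r halg hker
  obtain ⟨h4, h5⟩ := c4_tr hm r halg h1
  exact ⟨v, r, ⟨hv, hprod, halg, h1, h2, h3, h4, h5⟩, habove, hrel⟩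

end SSG.S
end

-- from Lib.SSG.S.A3
section

/-! # SSG, part S (E4): the value of the twisted L-function at one valuation -/

open NumberField IsDedekindDomain

namespace SSG.S

open H55N H55P SSG.E
open H55Z (HasL chN chN_apply)
open H35P (WAB Ker tt)
open H55K (CMA Dta)

theorem a3_alg {Γ : Type} [LinearOrderedCommGroupWithZero Γ] {P X D Y : Γ} {g n a j : ℕ} (hP : P ≠ 0) (ha : a ≠ 0)
    (hD : D ^ a = P) (hY : Y = P ^ (n * g) * X) (h : Y ^ (2 * a) = P ^ (g * (n * a + 2 * j))) :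
    X ^ 2 * P ^ (g * n) = D ^ (2 * g * j) ∧ X ≠ 0 := by
  have h1 : (X ^ 2 * P ^ (g * n)) ^ a = (D ^ (2 * g * j)) ^ a := by
    have e1 : (D ^ (2 * g * j)) ^ a = P ^ (2 * g * j) := by
      rw [← pow_mul, mul_comm (2 * g * j), pow_mul, hD]
    rw [e1]
    refine mul_right_cancel₀ (pow_ne_zero (g * n * a) hP) ?_
    have e2 : (X ^ 2 * P ^ (g * n)) ^ a * P ^ (g * n * a) = Y ^ (2 * a) := by
      rw [hY, mul_pow, mul_pow, ← pow_mul, ← pow_mul, ← pow_mul, mul_assoc, ← pow_add, mul_comm]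
      congr 2
      ring
    rw [e2, h, ← pow_add]
    congr 1
    ring
  refine ⟨(pow_left_inj₀ zero_le zero_le ha).1 h1, ?_⟩
  rintro rfl
  rw [hY, mul_zero, zero_pow (by omega)] at h
  exact pow_ne_zero _ hP h.symm

variable {F : Type} [Field F] [NumberField F] [IQ F] {K : Type} [Field K] [NumberField K] [Algebra F K]

/-- The value of the twisted L-function at one valuation. -/
theorem fin_V {p : ℕ} [hp : Fact p.Prime] (h5 : 5 ≤ p) {M : Ideal (𝓞 F)} {ψ : Ideal (𝓞 F) →*₀ 𝓞 F} (h : IsHecke M ψ)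
    (hMp : IsCoprime M (Ideal.span {(p : 𝓞 F)})) (hψ : ψ (Ideal.span {(p : 𝓞 F)}) = -(p : 𝓞 F))
    (hin : (Ideal.span {(p : 𝓞 F)}).IsPrime) (hK : UnrP p K) (hS : H55Z.Spl F p K)
    {A B : F} {Om : ℂ} {Ω : Type} [Field Ω] [DecidableEq Ω] [Algebra F Ω] [IsAlgClosure F Ω] {j : Ω →+* ℂ}
    {act : 𝓞 F →+* AddMonoid.End (Pt (WAB A B) Ω)} (hd : Dta A B Om j act M ψ p)
    (V : ValuationSubring ℂ) (hV : V.valuation (p : ℂ) < 1) (hNT : NTP K p M ψ V)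
    (hloc : ∃ (i : Ω →+* ℂ_[p]) (T : ℕ → Pt (WAB A B) Ω) (L : LTF F ℂ_[p]), LocM A B Om j act p (V.comap j) i T L)
    {k : ℕ} (hk : 1 ≤ k) (χ : DirichletCharacter ℂ (p ^ (k + 1))) (hχ : orderOf χ = p ^ k) {v₁ : ℂ}
    (h₁ : HasL (PsiP K ψ) v₁) (hv₁ : V.valuation (v₁ / Om ^ Module.finrank F K) = 1) :
    ∃ vχ : ℂ, HasL (PsiP K ψ * chN K χ : Ideal (𝓞 K) →*₀ ℂ) vχ ∧ vχ ≠ 0 ∧ ∀ z : ℂ, IsPrimitiveRoot z (p ^ k) →
      V.valuation (vχ / Om ^ Module.finrank F K) ^ 2 * V.valuation (p : ℂ) ^ (Module.finrank F K * (k + 1)) =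
        V.valuation (z - 1) ^ (2 * Module.finrank F K * H35K.J p k) := by
  classical
  have hpp : p.Prime := hp.out
  obtain ⟨m, hm⟩ : ∃ m, Module.finrank F K = m + 1 :=
    ⟨Module.finrank F K - 1, (Nat.sub_add_cancel Module.finrank_pos).symm⟩
  obtain ⟨v, r, hC, -, hrel⟩ := exists_crd hpp hin hS hm (k + 1)
  obtain ⟨ι, hι, b, c₀, R, κ, val, Bχ, B₁, vχ, hI, hR, hκa, hκ1, hNu, hL, hBχ, hB₁, e1, e2, hcl⟩ :=
    an_main h hMp hψ hK hm V hV hNT χ hχ h₁ v r hC hrel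
  obtain ⟨i, Tp, L, hloc⟩ := hloc
  have hc0 : CharZero Ω := charZero_of_injective_algebraMap (algebraMap F Ω).injective
  have hVΩ : (V.comap j).valuation (p : Ω) < 1 := (m2_comap_lt j V (p : Ω)).2 (by rwa [map_natCast])
  have hcl2 := fun x => hcl x A B Om Ω j act M ψ hd hin (V.comap j) i Tp L hVΩ hloc v r hC
  choose hh H hh1 hH hh2 using hcl2
  obtain ⟨T, hT⟩ := exists_Rep (F := F) p (k + 1) hpp.ne_zero
  have hne : NeZero (p ^ (k + 1)) := ⟨pow_ne_zero _ hpp.ne_zero⟩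
  obtain ⟨χ', χ'', hχ1, hχ2, hχo⟩ := m2_chi (F := F) j i χ
  choose κ' hκ' using fun x => m2_lift (F := F) j (κ x) (hκa x)
  have hOm : Om ≠ 0 := hd.cma.per.ne
  have hper : ∀ x a b, (∀ k', (p : 𝓞 F) ^ (k + 1) ∣ a k' - b k') → H x a = H x b :=
    fun x a b hab => d4_per hloc.ok (hH x) a b hab
  have hj := j.injective
  have hpΩ : (p : Ω) ≠ 0 := Nat.cast_ne_zero.2 hpp.ne_zero
  have hpC : (p : ℂ) ≠ 0 := Nat.cast_ne_zero.2 hpp.ne_zero
  have hpi : (p : ℂ_[p]) ≠ 0 := Nat.cast_ne_zero.2 hpp.ne_zero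
  have hOmm : Om ^ (m + 1) ≠ 0 := pow_ne_zero _ hOm
  have hPm : ((p : ℂ) ^ (k + 1)) ^ (m + 1) ≠ 0 := pow_ne_zero _ (pow_ne_zero _ hpC)
  have hpi1 : ‖(p : ℂ_[p])‖ < 1 := by
    have h1 := (m2_lt i hloc.val (p : Ω)).1 hVΩ
    rwa [map_natCast] at h1
  -- the elements of Ω
  obtain ⟨nb, hnb⟩ : ∃ nb : ι → ℕ, nb = fun x => Ideal.absNorm (b x) := ⟨_, rfl⟩
  obtain ⟨S, hSd⟩ : ∃ S : Ω, S = ∑ x, κ' x * (χ' ((nb x : ℕ) : ZMod (p ^ (k + 1))))⁻¹ * (nb x : Ω) *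
      ∑ a ∈ R x, χ' ((Ideal.absNorm (Ideal.span {a}) : ℕ) : ZMod (p ^ (k + 1))) * hh x a := ⟨_, rfl⟩
  obtain ⟨U, hUd⟩ : ∃ U : (Fin (m + 1) → ℕ) → Ω, U = fun e => ∑ x, κ' x * (nb x : Ω) *
      ∑ a ∈ R x, (if a ∈ Qe v (k + 1) e then (1 : Ω) else 0) * hh x a := ⟨_, rfl⟩
  have hjS : j S = ((p : ℂ) ^ (k + 1)) ^ (m + 1) * (Bχ * vχ) / Om ^ (m + 1) := by
    rw [e1, hSd, map_sum, Finset.mul_sum, Finset.sum_div]
    refine Finset.sum_congr rfl fun x _ => ?_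
    have h1 : j (∑ a ∈ R x, χ' ((Ideal.absNorm (Ideal.span {a}) : ℕ) : ZMod (p ^ (k + 1))) * hh x a) =
        (∑ a ∈ R x, wchi χ a * val x a) / Om ^ (m + 1) := by
      rw [map_sum, Finset.sum_div]
      refine Finset.sum_congr rfl fun a ha => ?_
      rw [map_mul, hχ1, hh1 x a ((hR x).sub a ha), mul_div_assoc]
      rfl
    rw [map_mul j, h1, map_mul j, map_mul j, map_inv₀ j, hχ1, map_natCast j, hκ', hnb, chN_apply, inv_pow]
    field_simp
  have hjU : ∀ e, j (U e) = ((p : ℂ) ^ (k + 1)) ^ (m + 1) * ((∏ i, (-(p : ℂ)) ^ (k + 1 - e i))⁻¹ * (B₁ * v₁)) / Om ^ (m + 1) := by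
    intro e
    rw [e2 e, hUd, map_sum, Finset.mul_sum, Finset.sum_div]
    refine Finset.sum_congr rfl fun x _ => ?_
    have h1 : j (∑ a ∈ R x, (if a ∈ Qe v (k + 1) e then (1 : Ω) else 0) * hh x a) =
        (∑ a ∈ R x, ind (Qe v (k + 1) e) a * val x a) / Om ^ (m + 1) := by
      rw [map_sum, Finset.sum_div]
      refine Finset.sum_congr rfl fun a ha => ?_
      rw [map_mul, hh1 x a ((hR x).sub a ha), mul_div_assoc]
      congr 1
      unfold ind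
      by_cases h3 : a ∈ Qe v (k + 1) e
      · rw [if_pos h3, if_pos h3, map_one]
      · rw [if_neg h3, if_neg h3, map_zero]
    rw [map_mul j, h1, map_mul j, map_natCast j, hκ', hnb, inv_pow]
    field_simp
  have hiS : i S = ∑ x, i (κ' x * (nb x : Ω)) * i ((χ' ((nb x : ℕ) : ZMod (p ^ (k + 1))))⁻¹) *
      SH χ'' (Fin (m + 1)) T (H x) := by
    rw [hSd, map_sum]
    refine Finset.sum_congr rfl fun x _ => ?_
    rw [← d4_SH hC (hI x) (hR x) hT χ'' (H x) (hper x), map_mul, map_mul, map_mul, map_mul, map_sum]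
    have h1 : ∑ a ∈ R x, i (χ' ((Ideal.absNorm (Ideal.span {a}) : ℕ) : ZMod (p ^ (k + 1))) * hh x a) =
        ∑ a ∈ R x, χ'' ((Ideal.absNorm (Ideal.span {a}) : ℕ) : ZMod (p ^ (k + 1))) * H x (cr r a) := by
      refine Finset.sum_congr rfl fun a ha => ?_
      rw [map_mul, hχ2, hh2 x a ((hR x).sub a ha)]
    rw [h1]
    ring
  have hiU : ∀ e, i (U e) = ∑ x, i (κ' x * (nb x : Ω)) *
      ((∏ i, (-(p : ℂ_[p])) ^ e i) * TH p (k + 1) (Fin (m + 1)) T e (H x)) := by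
    intro e
    rw [hUd, map_sum]
    refine Finset.sum_congr rfl fun x _ => ?_
    rw [← d4_TH hpi hC (hI x) (hR x) hT e (H x) (hper x), map_mul, map_sum]
    congr 1
    refine Finset.sum_congr rfl fun a ha => ?_
    rw [map_mul, hh2 x a ((hR x).sub a ha)]
    congr 1
    by_cases h3 : a ∈ Qe v (k + 1) e
    · rw [if_pos h3, if_pos h3, map_one]
    · rw [if_neg h3, if_neg h3, map_zero]
  -- the unit w
  have hprod0 : ∀ e : Fin (m + 1) → ℕ, (∏ i, (-(p : ℂ)) ^ e i) ≠ 0 := fun e =>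
    Finset.prod_ne_zero_iff.2 fun i _ => pow_ne_zero _ (neg_ne_zero.2 hpC)
  obtain ⟨w, hw⟩ : ∃ w, w = U (fun _ => 0) := ⟨_, rfl⟩
  have hUw : ∀ e : Fin (m + 1) → ℕ, (∀ i, e i ≤ k + 1) → U e = w * ∏ i, (-(p : Ω)) ^ e i := by
    intro e he
    apply hj
    have h0 : j (∏ i, (-(p : Ω)) ^ e i) = ∏ i, (-(p : ℂ)) ^ e i := by
      rw [map_prod]
      refine Finset.prod_congr rfl fun i _ => ?_
      rw [map_pow, map_neg, map_natCast]
    rw [map_mul, h0, hw, hjU, hjU]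
    have h1 : (∏ i, (-(p : ℂ)) ^ (k + 1 - e i)) * ∏ i, (-(p : ℂ)) ^ e i =
        ∏ i : Fin (m + 1), (-(p : ℂ)) ^ (k + 1 - (fun _ => 0 : Fin (m + 1) → ℕ) i) := by
      rw [← Finset.prod_mul_distrib]
      refine Finset.prod_congr rfl fun i _ => ?_
      rw [← pow_add, Nat.sub_add_cancel (he i), Nat.sub_zero]
    rw [← h1, mul_inv]
    have h2 := hprod0 e
    have h3 := hprod0 (fun i => k + 1 - e i)
    field_simp
  have hVw : V.valuation (j w) = 1 := by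
    have h1 : j w * (-(p : ℂ)) ^ ((k + 1) * (m + 1)) =
        (p : ℂ) ^ ((k + 1) * (m + 1)) * (B₁ * (v₁ / Om ^ (m + 1))) := by
      have h2 : (∏ _i : Fin (m + 1), (-(p : ℂ)) ^ (k + 1)) = (-(p : ℂ)) ^ ((k + 1) * (m + 1)) := by
        rw [Finset.prod_const, Finset.card_univ, Fintype.card_fin, ← pow_mul]
      have h3 : (-(p : ℂ)) ^ ((k + 1) * (m + 1)) ≠ 0 := pow_ne_zero _ (neg_ne_zero.2 hpC)
      rw [hw, hjU]
      simp only [Nat.sub_zero]
      rw [h2, pow_mul (p : ℂ)]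
      field_simp
    have h2 := congrArg V.valuation h1
    have h3 : V.valuation ((p : ℂ) ^ ((k + 1) * (m + 1))) ≠ 0 :=
      (Valuation.ne_zero_iff _).2 (pow_ne_zero _ hpC)
    rw [map_mul, map_mul, map_mul, hB₁, one_mul, ← hm, hv₁, mul_one, hm, map_pow, Valuation.map_neg, ← map_pow] at h2
    exact mul_right_cancel₀ h3 (h2.trans (one_mul _).symm)
  have hiw : ‖i w‖ = 1 := by
    have h1 := (m2_val i hloc.val w 1).1 ((m2_comap j V w 1).2 (by rw [hVw, map_one, map_one]))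
    rw [h1, map_one, NormOneClass.norm_one]
  have hX : ∀ x, ‖i (κ' x * (nb x : Ω))‖ ≤ 1 := by
    intro x
    rw [← hloc.val, ValuationSubring.mem_comap, ← ValuationSubring.valuation_le_one_iff, map_mul j, map_natCast j, hκ',
      map_mul, hκ1, one_mul]
    exact pt9_nat V _
  have hY : ∀ x, ‖i ((χ' ((nb x : ℕ) : ZMod (p ^ (k + 1))))⁻¹) - 1‖ < 1 := by
    intro x
    have h1 : i ((χ' ((nb x : ℕ) : ZMod (p ^ (k + 1))))⁻¹) - 1 = i ((χ' ((nb x : ℕ) : ZMod (p ^ (k + 1))))⁻¹ - 1) := by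
      rw [map_sub, map_one]
    rw [h1, ← m2_lt i hloc.val, m2_comap_lt, map_sub, map_one, map_inv₀, hχ1]
    refine s4_root p hpp V hV k _ ?_
    rw [inv_pow, inv_eq_one]
    refine a2_chi χ hχ ?_
    rw [hnb]
    exact hNu x
  have hTH : ∀ e ∈ Fintype.piFinset (fun _ : Fin (m + 1) => EN (k + 1)),
      ∑ x, i (κ' x * (nb x : Ω)) * TH p (k + 1) (Fin (m + 1)) T e (H x) = i w := by
    intro e he
    rw [Fintype.mem_piFinset] at he
    have he2 : ∀ i, e i ≤ k + 1 := by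
      intro i
      have h1 := he i
      unfold EN at h1
      rw [Finset.mem_filter, Finset.mem_range] at h1
      omega
    have h1 : (∏ i, (-(p : ℂ_[p])) ^ e i) ≠ 0 :=
      Finset.prod_ne_zero_iff.2 fun i _ => pow_ne_zero _ (neg_ne_zero.2 hpi)
    have h2 : i (∏ i, (-(p : Ω)) ^ e i) = ∏ i, (-(p : ℂ_[p])) ^ e i := by
      rw [map_prod]
      refine Finset.prod_congr rfl fun i' _ => ?_
      rw [map_pow, map_neg, map_natCast]
    have h3 := hiU e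
    rw [hUw e he2, map_mul i, h2] at h3
    refine mul_right_cancel₀ h1 ?_
    rw [h3, Finset.sum_mul]
    refine Finset.sum_congr rfl fun x _ => ?_
    ring
  have hest := m1_est (by omega : 3 ≤ p) hpi hpi1 L hloc.good (by omega : 2 ≤ k + 1) χ''
    (by rw [hχo, hχ]; rfl) hT H hH (fun x => i (κ' x * (nb x : Ω)))
    (fun x => i ((χ' ((nb x : ℕ) : ZMod (p ^ (k + 1))))⁻¹)) hX hY (i w) hiw hTH
  rw [← hiS] at hest
  have hVS : V.valuation (j S) ^ (2 * ((p - 1) * p ^ (k - 1))) =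
      V.valuation (p : ℂ) ^ ((m + 1) * ((k + 1) * ((p - 1) * p ^ (k - 1)) + 2 * H35K.J p k)) := by
    have e3 : k + 1 - 2 = k - 1 := by omega
    have e4 : k + 1 - 1 = k := rfl
    rw [e3, e4] at hest
    have h1 : ‖i (S ^ (2 * ((p - 1) * p ^ (k - 1))))‖ =
        ‖i ((p : Ω) ^ ((m + 1) * ((k + 1) * ((p - 1) * p ^ (k - 1)) + 2 * H35K.J p k)))‖ := by
      rw [map_pow, map_pow, map_natCast, norm_pow, norm_pow, ← mul_assoc 2, ← mul_assoc (k + 1)]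
      exact hest
    have h2 := (m2_comap j V _ _).1 ((m2_val i hloc.val _ _).2 h1)
    rw [map_pow, map_pow, map_pow, map_pow, map_natCast] at h2
    exact h2
  have hY2 : V.valuation (j S) = V.valuation (p : ℂ) ^ ((k + 1) * (m + 1)) * V.valuation (vχ / Om ^ (m + 1)) := by
    have h1 : j S = (p : ℂ) ^ ((k + 1) * (m + 1)) * (Bχ * (vχ / Om ^ (m + 1))) := by
      rw [hjS, pow_mul]
      ring
    rw [h1, map_mul, map_mul, hBχ, one_mul, map_pow]
  have hp0 : V.valuation (p : ℂ) ≠ 0 := (Valuation.ne_zero_iff _).2 hpC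
  have ha : (p - 1) * p ^ (k - 1) ≠ 0 := by
    have h1 : 0 < p - 1 := by omega
    exact (Nat.mul_pos h1 (pow_pos hpp.pos _)).ne'
  have hroot : ∀ z : ℂ, IsPrimitiveRoot z (p ^ k) →
      V.valuation (z - 1) ^ ((p - 1) * p ^ (k - 1)) = V.valuation (p : ℂ) := by
    intro z hz
    obtain ⟨k', rfl⟩ : ∃ k', k = k' + 1 := ⟨k - 1, by omega⟩
    have h1 := H55Z.q6_root V hz
    have h2 : p ^ (k' + 1) - p ^ k' = (p - 1) * p ^ (k' + 1 - 1) := by
      rw [Nat.add_sub_cancel, pow_succ, Nat.sub_mul, one_mul, mul_comm p]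
    rwa [h2] at h1
  have hz0 : IsPrimitiveRoot (Complex.exp (2 * Real.pi * Complex.I / ((p ^ k : ℕ) : ℂ))) (p ^ k) :=
    Complex.isPrimitiveRoot_exp _ (pow_ne_zero _ hpp.ne_zero)
  refine ⟨vχ, hL, ?_, fun z hz => ?_⟩
  · rintro rfl
    refine (a3_alg hp0 ha (hroot _ hz0) hY2 hVS).2 ?_
    rw [zero_div, map_zero]
  · rw [hm]
    exact (a3_alg hp0 ha (hroot z hz) hY2 hVS).1

end SSG.S
end

-- from Lib.SSG.S.A4
section

/-! # SSG, part S (E4): the values of the twisted L-functions -/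

open NumberField IsDedekindDomain WeierstrassCurve

namespace SSG.S

open H55N H55P SSG.E
open H55Z (HasL chN chN_apply ValK)
open H35P (WAB Ker tt)
open H55K (CMA Dta)
open H55K.TQ (BaseH PrimeH base_of)

/-- The value is unique. -/
theorem hasL_uniq {K : Type} [Field K] [NumberField K] {h : Ideal (𝓞 K) → ℂ} {v v' : ℂ} (h1 : HasL h v) (h2 : HasL h v') : v = v' := by
  obtain ⟨Λ, a1, a2, rfl⟩ := h1
  obtain ⟨Λ', b1, b2, rfl⟩ := h2
  exact ident Λ Λ' a1 b1 (fun s hs => (a2 s hs).unique (b2 s hs)) 1 (by norm_num)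

variable {F : Type} [Field F] [NumberField F] [IQ F] {K : Type} [Field K] [NumberField K] [Algebra F K]

/-- The values of the twisted L-functions. -/
theorem valK_of {p : ℕ} [hp : Fact p.Prime] (h5 : 5 ≤ p) {M : Ideal (𝓞 F)} {ψ : Ideal (𝓞 F) →*₀ 𝓞 F} (h : IsHecke M ψ)
    (hMp : IsCoprime M (Ideal.span {(p : 𝓞 F)})) (hψ : ψ (Ideal.span {(p : 𝓞 F)}) = -(p : 𝓞 F))
    (hin : (Ideal.span {(p : 𝓞 F)}).IsPrime) (hK : UnrP p K) (hS : H55Z.Spl F p K)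
    {A B : F} {Om : ℂ} {Ω : Type} [Field Ω] [DecidableEq Ω] [Algebra F Ω] [IsAlgClosure F Ω] {j : Ω →+* ℂ}
    {act : 𝓞 F →+* AddMonoid.End (Pt (WAB A B) Ω)} (hd : Dta A B Om j act M ψ p) (hsup : H16S.Sup act p)
    (hNT : ∀ V : ValuationSubring ℂ, V.valuation (p : ℂ) < 1 → NTP K p M ψ V)
    {k : ℕ} (hk : 1 ≤ k) (χ : DirichletCharacter ℂ (p ^ (k + 1))) (hχ : orderOf χ = p ^ k) {v₁ : ℂ}
    (h₁ : HasL (PsiP K ψ) v₁)
    (hv₁ : ∀ V : ValuationSubring ℂ, V.valuation (p : ℂ) < 1 → V.valuation (v₁ / Om ^ Module.finrank F K) = 1) :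
    ValK F K p Om ψ k χ := by
  have key := fun (V : ValuationSubring ℂ) (hV : V.valuation (p : ℂ) < 1) =>
    fin_V h5 h hMp hψ hin hK hS hd V hV (hNT V hV)
      (exists_locM_sup hd hin hsup (V.comap j) ((m2_comap_lt j V (p : Ω)).2 (by rwa [map_natCast]))) hk χ hχ h₁ (hv₁ V hV)
  obtain ⟨V₀, hV₀⟩ := exists_above_p p hp.out
  obtain ⟨v, hL, hv0, -⟩ := key V₀ hV₀
  have hz0 : IsPrimitiveRoot (Complex.exp (2 * Real.pi * Complex.I / ((p ^ k : ℕ) : ℂ))) (p ^ k) :=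
    Complex.isPrimitiveRoot_exp _ (pow_ne_zero _ hp.out.ne_zero)
  refine ⟨v, hL, hv0, _, hz0, fun V hV => ?_⟩
  obtain ⟨v', hL', -, hval⟩ := key V hV
  rw [hasL_uniq hL hL']
  exact hval _ hz0

/-- The value of ψ at the inert prime p. -/
theorem psi_p {W : WeierstrassCurve ℤ} {Om : ℂ} {m : Ideal (𝓞 F)} {ψ : Ideal (𝓞 F) →*₀ 𝓞 F} {p : ℕ}
    (hH : BaseH F (W⁄(𝓞 F)) Om m ψ) (hp : PrimeH F (W⁄(𝓞 F)) p) (hin : (Ideal.span {(p : 𝓞 F)}).IsPrime) :
    ψ (Ideal.span {(p : 𝓞 F)}) = -(p : 𝓞 F) := by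
  have hpf : Fact p.Prime := ⟨hp.prime⟩
  have hp0 : (p : 𝓞 F) ≠ 0 := Nat.cast_ne_zero.2 hp.prime.ne_zero
  obtain ⟨v, hv⟩ : ∃ v : HeightOneSpectrum (𝓞 F), v.asIdeal = Ideal.span {(p : 𝓞 F)} :=
    ⟨⟨Ideal.span {(p : 𝓞 F)}, hin, by rwa [Ne, Ideal.span_singleton_eq_bot]⟩, rfl⟩
  have hmap : (W⁄(𝓞 F)).Δ = ((W.Δ : ℤ) : 𝓞 F) := by
    have e : (W⁄(𝓞 F)).Δ = algebraMap ℤ (𝓞 F) W.Δ := W.map_Δ (algebraMap ℤ (𝓞 F))
    rw [e, eq_intCast]
  have hΔv : (W⁄(𝓞 F)).Δ ∉ v.asIdeal := by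
    intro h1
    have h2 := Ideal.isCoprime_iff_sup_eq.1 hp.cop
    rw [← hv, sup_eq_right.2 ((Ideal.span_singleton_le_iff_mem _).2 h1)] at h2
    exact v.isPrime.ne_top h2
  have hΔ : ¬ (p : ℤ) ∣ W.Δ := by
    rintro ⟨t, ht⟩
    apply hΔv
    rw [hmap, ht, hv]
    push_cast
    exact Ideal.mul_mem_right _ _ (Ideal.mem_span_singleton_self _)
  have hcop : IsCoprime v.asIdeal m := by
    rw [hv]
    exact (base_of hH hp).cop.of_mul_left_right.symm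
  have hx : Ideal.span {ψ v.asIdeal} = v.asIdeal := hH.data.hecke.gen _ hcop
  have h1 := (H55K.psi_inert W hΔ v hv hx (hH.deu v hΔv)).1
  rwa [hv] at h1

/-- The supersingular relation. -/
theorem sup_p {W : WeierstrassCurve ℤ} {Om : ℂ} {m : Ideal (𝓞 F)} {ψ : Ideal (𝓞 F) →*₀ 𝓞 F} {p : ℕ}
    (hH : BaseH F (W⁄(𝓞 F)) Om m ψ) (hp : PrimeH F (W⁄(𝓞 F)) p) (hin : (Ideal.span {(p : 𝓞 F)}).IsPrime)
    {A B : F} {Ω : Type} [Field Ω] [DecidableEq Ω] [Algebra F Ω] [IsAlgClosure F Ω] {j : Ω →+* ℂ}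
    {act : 𝓞 F →+* AddMonoid.End (Pt (WAB A B) Ω)}
    (hA : A = -(algebraMap (𝓞 F) F (W⁄(𝓞 F)).c₄) / 48) (hB : B = -(algebraMap (𝓞 F) F (W⁄(𝓞 F)).c₆) / 864)
    (d : Dta A B Om j act m ψ p) : H16S.Sup act p := by
  have hp0 : (p : 𝓞 F) ≠ 0 := Nat.cast_ne_zero.2 hp.prime.ne_zero
  have hac : IsAlgClosed Ω := IsAlgClosure.isAlgClosed F
  obtain ⟨v, hv⟩ : ∃ v : HeightOneSpectrum (𝓞 F), v.asIdeal = Ideal.span {(p : 𝓞 F)} :=
    ⟨⟨Ideal.span {(p : 𝓞 F)}, hin, by rwa [Ne, Ideal.span_singleton_eq_bot]⟩, rfl⟩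
  have hΔv : (W⁄(𝓞 F)).Δ ∉ v.asIdeal := by
    intro h1
    have h2 := Ideal.isCoprime_iff_sup_eq.1 hp.cop
    rw [← hv, sup_eq_right.2 ((Ideal.span_singleton_le_iff_mem _).2 h1)] at h2
    exact v.isPrime.ne_top h2
  refine H16S.sup_of_card d.cma (W⁄(𝓞 F)) hA hB hp.prime ((Ideal.span_singleton_prime hp0).1 hin) d.good v hv hΔv ?_
  rw [hH.deu v hΔv, hv, psi_p hH hp hin]
  have h1 : (1 : 𝓞 F) - -(p : 𝓞 F) = ((p + 1 : ℕ) : 𝓞 F) := by
    push_cast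
    ring
  rw [h1]
  exact H55K.Nm_nat (p + 1)


end SSG.S
end
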