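import Mathlib
import Pool.Agent.Lib.H1M.PP2.D_H35U_MainB
import Pool.Agent.Lib.H1M.PP2.D_H35V_D
import Pool.Agent.Lib.H1M.PP2.M116
import Pool.Agent.Lib.H1M.PP2.M127
import Pool.Agent.Lib.H1M.PP2.M130
import Pool.Agent.Lib.H1M.PP2.M141
import Pool.Agent.Lib.H1M.PP2.M156
import Pool.Agent.Lib.H1M.PP2.M157
import Pool.Agent.Lib.H1M.PP2.M165
import Pool.Agent.Lib.H1M.PP2.M167
import Pool.Agent.Lib.H1M.PP2.M168
import Pool.Agent.Lib.H1M.PP2.M169
import Pool.Agent.Lib.H1M.PP2.M172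
import Pool.Agent.Lib.H1M.PP2.M173

/-! Merged copies (to shorten the build) of Lib.H35U.IsoB, Lib.H35V.Iso, Lib.H35V.U2, Lib.H35V.MainB, Lib.SSU.A5, Lib.H55G.H2, Lib.H55G.J5, Lib.H35V.AlmostO. -/

-- from Lib.H35U.IsoB
section

/-! # H35U: the relative theorem for isogenous curves -/

open NumberField IsDedekindDomain WeierstrassCurve

namespace H35U

open H55P (IQ embF eF LF Per IsHecke Pt ac Inert Dec Nm UnitP UnrP PExt)
open H55K H55K.TQ
open H13R (BadM NoRel LUnitG i1_bad i1_norel i1_lfun i1_same i1_lunit i1_sel)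
open H28I (TW Same tw_prime iso6_symm selnon_iso same_int same_non sha_iso pts_iso a0_disc)

variable {F : Type} [Field F] [NumberField F] [IQ F] {W W' : WeierstrassCurve ℤ} {Om : ℂ} {m : Ideal (𝓞 F)}
    {ψ : Ideal (𝓞 F) →*₀ 𝓞 F} {kap : ℤ} {e t u lam : ℚ} {p : ℕ}

open Classical in
theorem nt_same (hp : p.Prime) (h5 : 5 ≤ p) {M : Type} [Field M] [NumberField M] (h : Same p W W' M) : NT p W' M ↔ NT p W M :=
  ⟨nt_iso hp h5 (iso6_symm h.iso), nt_iso hp h5 h.iso⟩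


end H35U
end

-- from Lib.H35V.Iso
section

/-! # H35V: transport of the conclusions to isogenous curves, without the hypothesis on the bad primes -/

open NumberField IsDedekindDomain WeierstrassCurve

namespace H35V

open H55P (IQ embF eF LF Per IsHecke Pt ac Inert Dec Nm UnitP UnrP PExt)
open H55K H55K.TQ
open H13R (NoRel LUnitG i1_norel i1_same i1_lunit i1_sel)
open H28I (TW Same tw_prime iso6_symm selnon_iso same_int same_non sha_iso pts_iso a0_disc)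
open H35U (OverB NT nt_same selB_rest bsdB_iff)
open H55G (OkM lfun_tw okm_tw)

variable {F : Type} [Field F] [NumberField F] [IQ F] {W W' : WeierstrassCurve ℤ} {Om : ℂ} {m : Ideal (𝓞 F)}
    {ψ : Ideal (𝓞 F) →*₀ 𝓞 F} {kap : ℤ} {e t u lam : ℚ} {p : ℕ}

theorem bsd_tw (h : TW F W W' Om m ψ kap e t u lam) (hp' : PrimeH F (W'⁄(𝓞 F)) p) (X : Type) [Field X] [NumberField X]
    (ι : X →ₐ[ℚ] AlgebraicClosure F) : BSDPG p W' X ↔ BSDPG p W X := by
  classical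
  have hp := (tw_prime h).1 hp'
  have hS := i1_same h hp X (lfun_tw h X)
  rw [bsdB_iff h.base hp X ι, ← i1_sel hp.prime hp.five hS, ← i1_lunit hS]
  constructor
  · rintro ⟨⟨h1, -, -, h2⟩, h3⟩
    exact ⟨h1, (H13R.an_iff hp.prime h2).1 h3⟩
  · rintro ⟨h1, h2⟩
    obtain ⟨-, r1, r2, r3⟩ := selB_rest h.base hp X ι ((i1_sel hp.prime hp.five hS).1 h1)
    obtain ⟨q1, q2⟩ := pts_iso hp.prime hp.five (a0_disc hS.disc' X) hS.iso r2 r3
    exact ⟨⟨h1, sha_iso hp.prime hp.five hS.iso r1, q1, q2⟩, (H13R.an_iff hp.prime q2).2 h2⟩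

/-- The conclusions for isogenous curves. -/
theorem over_tw (h : TW F W W' Om m ψ kap e t u lam) (hp' : PrimeH F (W'⁄(𝓞 F)) p)
    (M K : Type) [Field M] [NumberField M] [Field K] [NumberField K] (ιM : M →ₐ[ℚ] AlgebraicClosure F)
    (ιK : K →ₐ[ℚ] AlgebraicClosure F) (hO : OverB F p W M K ιM ιK) : OverB F p W' M K ιM ιK := by
  classical
  have hp := (tw_prime h).1 hp'
  have hSM := i1_same h hp M (lfun_tw h M)
  have hSK := i1_same h hp K (lfun_tw h K)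
  refine ⟨?_, ?_, fun hN => ?_, fun hT => ?_, fun hT => ?_, fun hT hN => ?_, fun hT => ?_⟩
  · rw [i1_norel h, i1_sel hp.prime hp.five hSK, i1_sel hp.prime hp.five hSM]
    exact hO.sel
  · rw [i1_norel h, bsd_tw h hp' K ιK, bsd_tw h hp' M ιM]
    exact hO.bsd
  · rw [i1_norel h] at hN
    exact selnon_iso hp.prime hp.five hSK.iso (hO.selnon hN)
  · exact same_int hSK (hO.int ((nt_same hp.prime hp.five hSM).1 hT))
  · rw [i1_norel h, i1_lunit hSK, i1_lunit hSM]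
    exact hO.lval ((nt_same hp.prime hp.five hSM).1 hT)
  · rw [i1_norel h] at hN
    exact same_non hSK (hO.annon ((nt_same hp.prime hp.five hSM).1 hT) hN)
  · rw [i1_sel hp.prime hp.five hSM] at hT
    exact (nt_same hp.prime hp.five hSM).2 (hO.nt hT)

/-- The conclusions for arbitrary ramification for isogenous curves. -/
theorem overP_tw (h : TW F W W' Om m ψ kap e t u lam) (hp' : PrimeH F (W'⁄(𝓞 F)) p)
    (M K : Type) [Field M] [NumberField M] [Field K] [NumberField K] (ιM : M →ₐ[ℚ] AlgebraicClosure F)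
    (ιK : K →ₐ[ℚ] AlgebraicClosure F) (hO : OverP F p W M K ιM ιK) : OverP F p W' M K ιM ιK := by
  classical
  have hp := (tw_prime h).1 hp'
  have hSM := i1_same h hp M (lfun_tw h M)
  have hSK := i1_same h hp K (lfun_tw h K)
  refine ⟨?_, fun hN => ?_, fun hT => ?_, fun hT => ?_⟩
  · rw [i1_sel hp.prime hp.five hSK, i1_sel hp.prime hp.five hSM]
    exact hO.dn
  · rw [i1_norel h] at hN
    exact selnon_iso hp.prime hp.five hSK.iso (hO.selnon hN)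
  · exact same_int hSK (hO.int ((nt_same hp.prime hp.five hSM).1 hT))
  · rw [i1_sel hp.prime hp.five hSM] at hT
    exact (nt_same hp.prime hp.five hSM).2 (hO.nt hT)

theorem towerO_tw (h : TW F W W' Om m ψ kap e t u lam) (M K : Type) [Field M] [NumberField M] [Field K] [NumberField K]
    (ιM : M →ₐ[ℚ] AlgebraicClosure F) (ιK : K →ₐ[ℚ] AlgebraicClosure F) (hT : TowerO F p W' M K ιM ιK) : TowerO F p W M K ιM ιK :=
  ⟨hT.sub, hT.ext, (okm_tw h _).1 hT.ok⟩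

theorem towerP_tw (h : TW F W W' Om m ψ kap e t u lam) (M K : Type) [Field M] [NumberField M] [Field K] [NumberField K]
    (ιM : M →ₐ[ℚ] AlgebraicClosure F) (ιK : K →ₐ[ℚ] AlgebraicClosure F) (hT : TowerP F p W' M K ιM ιK) : TowerP F p W M K ιM ιK :=
  ⟨hT.sub, hT.ext, (okm_tw h _).1 hT.ok⟩

end H35V
end

-- from Lib.H35V.U2
section

/-! # H35V: the real normalisation of the L-value over K without the hypothesis on the bad primes -/

open NumberField IsDedekindDomain WeierstrassCurve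

namespace H35V

open H55P (IQ embF eF LF Per IsHecke Pt ac Inert Dec Nm UnitP UnrP PsiP)
open H55K (cj)
open H55K.TQ H41D H35M H55Z H13R
open H55N (tm)
open H55G (RelV2 lrelE ek_an EK NW TE OkM)
open H35U (sD_KG conj_one lvo_of above_conj mul_one_iff)

variable {F : Type} [Field F] [NumberField F] [IQ F] {W : WeierstrassCurve ℤ} {Om : ℂ}
    {m : Ideal (𝓞 F)} {ψ : Ideal (𝓞 F) →*₀ 𝓞 F} {p : ℕ}

/-- The relation between the L-value over K and the Hecke L-value over FK, with the fact that the Hecke L-value is real if K does not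
contain F. -/
structure RelO (p : ℕ) (W : WeierstrassCurve ℤ) (Om : ℂ) (ψ : Ideal (𝓞 F) →*₀ 𝓞 F) (K : Type) [Field K] [NumberField K]
    (ι : K →ₐ[ℚ] AlgebraicClosure F) [NumberField (KG F K ι)] : Prop where
  rel : RelV2 p W Om ψ K (KG F K ι)
  real : Module.finrank ℚ K = Module.finrank F (KG F K ι) → ∀ Φ : ℂ → ℂ, AnalyticOnNhd ℂ Φ {s | 1 / 2 < s.re} →
    (∀ s : ℂ, 3 / 2 < s.re → HasSum (tm (PsiP (KG F K ι) ψ) s) (Φ s)) → (starRingEnd ℂ) (Φ 1) = Φ 1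

theorem real_of (hH : BaseH F (W⁄(𝓞 F)) Om m ψ) (K : Type) [Field K] [NumberField K] (ι : K →ₐ[ℚ] AlgebraicClosure F)
    [NumberField (KG F K ι)] (hd : Module.finrank ℚ K = Module.finrank F (KG F K ι)) {Φ : ℂ → ℂ}
    (hΦa : AnalyticOnNhd ℂ Φ {s | 1 / 2 < s.re})
    (hΦ : ∀ s : ℂ, 3 / 2 < s.re → HasSum (tm (PsiP (KG F K ι) ψ) s) (Φ s)) : (starRingEnd ℂ) (Φ 1) = Φ 1 := by
  have hfd : FiniteDimensional F (KG F K ι) := Module.Finite.of_restrictScalars_finite ℚ F (KG F K ι)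
  have hpos : 0 < Module.finrank F (KG F K ι) := Module.finrank_pos
  obtain ⟨h1, h2, h3⟩ := ek_an (W := W) hH K
  rcases lrelE hH K ι with ⟨hd', -⟩ | ⟨-, hR⟩
  · omega
  · have h4 := fb6b_real K (h1 Φ hΦa) (hR Φ hΦ)
    have h5 : (starRingEnd ℂ) (Φ 1 / EK W K 1) = Φ 1 / EK W K 1 := h4
    rw [map_div₀, h3] at h5
    exact (div_left_inj' h2).1 h5

theorem relO_of (hH : BaseH F (W⁄(𝓞 F)) Om m ψ) (hp : PrimeH F (W⁄(𝓞 F)) p) (K : Type) [Field K] [NumberField K]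
    (ι : K →ₐ[ℚ] AlgebraicClosure F) [NumberField (KG F K ι)] (hOk : OkM p (W⁄(𝓞 F)) (KG F K ι)) : RelO p W Om ψ K ι :=
  ⟨H55G.relV2_of hH hp K ι (H55G.ok_of hH K ι hOk), fun hd _ h1 h2 => real_of hH K ι hd h1 h2⟩

/-- The two local factors. -/
theorem lG_sq (hH : BaseH F (W⁄(𝓞 F)) Om m ψ) (hp : PrimeH F (W⁄(𝓞 F)) p) (K : Type) [Field K] [NumberField K] (ι : K →ₐ[ℚ] AlgebraicClosure F)
    [NumberField (KG F K ι)] (hR : RelO p W Om ψ K ι) {Φ : ℂ → ℂ} (hΦa : AnalyticOnNhd ℂ Φ {s | 1 / 2 < s.re})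
    (hΦ : ∀ s : ℂ, 3 / 2 < s.re → HasSum (tm (PsiP (KG F K ι) ψ) s) (Φ s)) :
    ∃ Λ : ℂ → ℂ, AnalyticOnNhd ℂ Λ {s | 1 / 2 < s.re} ∧
      (∀ s : ℂ, 3 / 2 < s.re → LSeriesSummable (fun n => (((W⁄K).LFunction n : ℤ) : ℂ)) s ∧ Λ s = (W⁄K).LSeries s) ∧
      (Φ 1 ≠ 0 → Λ 1 ≠ 0) ∧
      ∀ V : ValuationSubring ℂ, V.valuation (p : ℂ) < 1 → ∀ L : PeriodPair, PerZ W L → ∃ k : ℕ, k ≠ 0 ∧
        V.valuation (lG K W L (Λ 1)) ^ k =
          (V.valuation (Φ 1 / Om ^ Module.finrank F (KG F K ι)) ^ 2 * vN F V (differentIdeal (𝓞 F) (𝓞 (KG F K ι)))) *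
          (V.valuation ((starRingEnd ℂ) (Φ 1 / Om ^ Module.finrank F (KG F K ι))) ^ 2 * vNc F V (differentIdeal (𝓞 F) (𝓞 (KG F K ι)))) := by
  have hper := perW_of hH
  have hp2 : p ≠ 2 := by
    have := hp.five
    omega
  obtain ⟨Λ, h1, h2, h3, h4⟩ := hR.rel Φ hΦa hΦ
  refine ⟨Λ, h1, h2, h3, fun V hV L hL => ?_⟩
  have hfd : FiniteDimensional F (KG F K ι) := Module.Finite.of_restrictScalars_finite ℚ F (KG F K ι)
  have hpos : 0 < Module.finrank F (KG F K ι) := Module.finrank_pos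
  obtain ⟨d1, d2⟩ := sD_KG hp.prime hp2 hp.unr K ι V hV
  rcases h4 V hV L hL with ⟨hd, h⟩ | ⟨hd, h⟩
  · refine ⟨2, two_ne_zero, ?_⟩
    rw [h, mul_pow, mul_pow, d1 hd]
    exact mul_mul_mul_comm _ _ _ _
  · refine ⟨4, by norm_num, ?_⟩
    have hc : V.valuation ((starRingEnd ℂ) (Φ 1 / Om ^ Module.finrank F (KG F K ι))) =
        V.valuation (Φ 1 / Om ^ Module.finrank F (KG F K ι)) := by
      rw [fb6b_conj hper V, hR.real hd Φ hΦa hΦ]
    rw [h, hc, mul_pow, d2 hd]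
    have e : V.valuation (Φ 1 / Om ^ Module.finrank F (KG F K ι)) ^ 4 =
        V.valuation (Φ 1 / Om ^ Module.finrank F (KG F K ι)) ^ 2 * V.valuation (Φ 1 / Om ^ Module.finrank F (KG F K ι)) ^ 2 := by
      rw [← pow_add]
    rw [e]
    exact mul_mul_mul_comm _ _ _ _

section main

variable (hH : BaseH F (W⁄(𝓞 F)) Om m ψ) (hp : PrimeH F (W⁄(𝓞 F)) p) (K : Type) [Field K] [NumberField K] (ι : K →ₐ[ℚ] AlgebraicClosure F)
    [NumberField (KG F K ι)] (hR : RelO p W Om ψ K ι)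
    (hI : ∀ V : ValuationSubring ℂ, V.valuation (p : ℂ) < 1 → LVOi F V Om (PsiP (KG F K ι) ψ))

include hH hp hR hI

/-- All the facts for one continuation. -/
theorem lG_all : ∃ Λ : ℂ → ℂ, AnalyticOnNhd ℂ Λ {s | 1 / 2 < s.re} ∧
      (∀ s : ℂ, 3 / 2 < s.re → LSeriesSummable (fun n => (((W⁄K).LFunction n : ℤ) : ℂ)) s ∧ Λ s = (W⁄K).LSeries s) ∧
      ((∃ V : ValuationSubring ℂ, LVO F V Om (PsiP (KG F K ι) ψ)) → Λ 1 ≠ 0) ∧
      ∀ V : ValuationSubring ℂ, V.valuation (p : ℂ) < 1 → ∀ L : PeriodPair, PerZ W L →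
        V.valuation (lG K W L (Λ 1)) ≤ 1 ∧ (V.valuation (lG K W L (Λ 1)) = 1 ↔
          LVO F V Om (PsiP (KG F K ι) ψ) ∧ LVO F (V.comap (starRingEnd ℂ)) Om (PsiP (KG F K ι) ψ)) := by
  obtain ⟨V₀, hV₀⟩ := H55P.exists_above_p p hp.prime
  obtain ⟨Φ, hΦa, hΦ, -⟩ := hI V₀ hV₀
  obtain ⟨Λ, h1, h2, h3, h4⟩ := lG_sq hH hp K ι hR hΦa hΦ
  refine ⟨Λ, h1, h2, ?_, fun V hV L hL => ?_⟩
  · rintro ⟨V, hV⟩
    apply h3
    intro h0
    have h5 := (lvo_of (F := F) (Om := Om) hΦa hΦ).1.1 hV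
    rw [h0, zero_div, map_zero, zero_pow two_ne_zero, zero_mul] at h5
    exact zero_ne_one h5
  · obtain ⟨k, hk, h5⟩ := h4 V hV L hL
    have ha := (lvo_of (F := F) (Om := Om) hΦa hΦ).2.1 (hI V hV)
    have hb := (conj_one V _ _).2.1 ((lvo_of (F := F) (Om := Om) hΦa hΦ).2.1 (hI _ (above_conj hp.prime V hV)))
    have hle : V.valuation (lG K W L (Λ 1)) ≤ 1 := by
      rw [← pow_le_one_iff hk, h5]
      exact mul_le_one' ha hb
    refine ⟨hle, ?_⟩
    have hk1 : V.valuation (lG K W L (Λ 1)) = 1 ↔ V.valuation (lG K W L (Λ 1)) ^ k = 1 := by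
      refine ⟨fun h => by rw [h, one_pow], fun h => le_antisymm hle (not_lt.1 fun hlt => ?_)⟩
      have h6 := pow_lt_one₀ zero_le hlt hk
      rw [h] at h6
      exact lt_irrefl _ h6
    rw [hk1, h5, mul_one_iff ha hb, (lvo_of (F := F) (Om := Om) hΦa hΦ).1,
      (lvo_of (F := F) (Om := Om) hΦa hΦ).1, (conj_one V _ _).1]

/-- The L-value is a unit above p if and only if the canonical values are units at all places above p. -/
theorem lunit_iffO : LUnitG p W K ↔ ∀ V : ValuationSubring ℂ, V.valuation (p : ℂ) < 1 → LVO F V Om (PsiP (KG F K ι) ψ) := by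
  obtain ⟨Λ, h1, h2, h3, h4⟩ := lG_all hH hp K ι hR hI
  constructor
  · rintro ⟨⟨L, hL⟩, Λ', hΛa', hΛs', -, hΛu'⟩ V hV
    have e1 : Λ 1 = Λ' 1 := H55N.ident Λ Λ' h1 hΛa' (fun s hs => by
      rw [(h2 s hs).2, (hΛs' s hs).2]) 1 (by norm_num)
    have h5 : V.valuation (lG K W L (Λ 1)) = 1 := by
      rw [e1]
      exact hΛu' L hL V hV
    exact ((h4 V hV L hL).2.1 h5).1
  · intro h
    obtain ⟨V₀, hV₀⟩ := H55P.exists_above_p p hp.prime
    refine ⟨exists_perZ (perW_of hH), Λ, h1, h2, h3 ⟨V₀, h V₀ hV₀⟩, fun L hL V hV => ?_⟩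
    exact (h4 V hV L hL).2.2 ⟨h V hV, h _ (above_conj hp.prime V hV)⟩

/-- Integrality. -/
theorem int_ofO : AnIntG p W K := by
  obtain ⟨Λ, h1, h2, h3, h4⟩ := lG_all hH hp K ι hR hI
  refine ⟨exists_perZ (perW_of hH), Λ, h1, h2, fun L hL V hV => ?_⟩
  rw [← ValuationSubring.valuation_le_one_iff]
  exact (h4 V hV L hL).1

/-- Divisibility. -/
theorem non_ofO (hN : ∀ V : ValuationSubring ℂ, V.valuation (p : ℂ) < 1 →
    ¬ (LVO F V Om (PsiP (KG F K ι) ψ) ∧ LVO F (V.comap (starRingEnd ℂ)) Om (PsiP (KG F K ι) ψ))) : AnNonG p W K := by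
  obtain ⟨Λ, h1, h2, h3, h4⟩ := lG_all hH hp K ι hR hI
  refine ⟨exists_perZ (perW_of hH), Λ, h1, h2, fun L hL V hV => ?_⟩
  obtain ⟨h5, h6⟩ := h4 V hV L hL
  exact lt_of_le_of_ne h5 fun h => hN V hV (h6.1 h)

end main

end H35V
end

-- from Lib.H35V.MainB
section

/-! # H35V: the relative theorem for p split in F, without the hypothesis on the bad primes -/

open NumberField IsDedekindDomain WeierstrassCurve

namespace H35V

open H55P (IQ embF eF LF Per IsHecke Pt ac Inert Dec Nm UnitP UnrP PExt PsiP)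
open H35P (WAB Ker tt GoodW IntW)
open H55K H55K.TQ
open H35M (LVO LVOi NoTor intB critB)
open H13R (NoRel LUnitG)
open H35U (OverB NT NonSel nt_up nt_of selB_iff selB_rest bsdB_iff spl_of above_conj)
open H55G (OkM ok_up selBO)

variable {F : Type} [Field F] [NumberField F] [IQ F] {W : WeierstrassCurve ℤ} {Om : ℂ}
    {m : Ideal (𝓞 F)} {ψ : Ideal (𝓞 F) →*₀ 𝓞 F} {p : ℕ}

/-- The converse for Selmer groups, p split. -/
theorem ns_all (hH : BaseH F (W⁄(𝓞 F)) Om m ψ) (hp : PrimeH F (W⁄(𝓞 F)) p) (hs : H19B.Spl F p) : NonSel F W p := by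
  intro M K L _ _ hL hMK hKL hN
  exact H19C.nonselB hH hp hs hL hMK hKL hN

section split

variable (hH : BaseH F (W⁄(𝓞 F)) Om m ψ) (hp : PrimeH F (W⁄(𝓞 F)) p)

include hH hp

variable (hsp : H19B.Spl F p) (M K : Type) [Field M] [NumberField M]
    [Field K] [NumberField K] (ιM : M →ₐ[ℚ] AlgebraicClosure F) (ιK : K →ₐ[ℚ] AlgebraicClosure F)
    {L : IntermediateField F (AlgebraicClosure F)} (hL : PExt p (KG F M ιM) L)
    (hMK : KG F M ιM ≤ KG F K ιK) (hKL : KG F K ιK ≤ L) (hB : OkM p (W⁄(𝓞 F)) (KG F M ιM))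

include hsp hL hMK hKL hB


theorem lvalB (hN : NT p W M) : LUnitG p W K ↔ LUnitG p W M ∧ NoRel p (W⁄(𝓞 F)) (KG F M ιM) (KG F K ιK) := by
  have hT := nt_up hH hp.prime (by have := hp.five; omega) hp.unr M ιM hN
  have hRM := relO_of hH hp M ιM hB
  have hRK := relO_of hH hp K ιK (ok_up hH hp hL hMK hKL hB)
  have hIM : ∀ V : ValuationSubring ℂ, V.valuation (p : ℂ) < 1 → LVOi F V Om (PsiP (KG F M ιM) ψ) :=
    fun V hV => intB hH hp hsp hL le_rfl hL.le hT hV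
  rw [lunit_iffO hH hp K ιK hRK (fun V hV => intB hH hp hsp hL hMK hKL hT hV), lunit_iffO hH hp M ιM hRM hIM]
  constructor
  · intro h
    have key : ∀ V : ValuationSubring ℂ, V.valuation (p : ℂ) < 1 →
        (LVO F V Om (PsiP (KG F M ιM) ψ) ∧ LVO F (V.comap (starRingEnd ℂ)) Om (PsiP (KG F M ιM) ψ)) ∧
          NoRel p (W⁄(𝓞 F)) (KG F M ιM) (KG F K ιK) := fun V hV =>
      (critB hH hp hsp hL hMK hKL hT hV).1 ⟨h V hV, h _ (above_conj hp.prime V hV)⟩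
    obtain ⟨V₀, hV₀⟩ := H55P.exists_above_p p hp.prime
    exact ⟨fun V hV => (key V hV).1.1, (key V₀ hV₀).2⟩
  · rintro ⟨h1, h2⟩ V hV
    exact ((critB hH hp hsp hL hMK hKL hT hV).2 ⟨⟨h1 V hV, h1 _ (above_conj hp.prime V hV)⟩, h2⟩).1

theorem annonB (hN : NT p W M) (hR : ¬ NoRel p (W⁄(𝓞 F)) (KG F M ιM) (KG F K ιK)) : AnNonG p W K := by
  have hT := nt_up hH hp.prime (by have := hp.five; omega) hp.unr M ιM hN
  have hRK := relO_of hH hp K ιK (ok_up hH hp hL hMK hKL hB)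
  exact non_ofO hH hp K ιK hRK (fun V hV => intB hH hp hsp hL hMK hKL hT hV)
    fun V hV h => hR ((critB hH hp hsp hL hMK hKL hT hV).1 h).2

theorem anintB (hN : NT p W M) : AnIntG p W K := by
  have hT := nt_up hH hp.prime (by have := hp.five; omega) hp.unr M ιM hN
  have hRK := relO_of hH hp K ιK (ok_up hH hp hL hMK hKL hB)
  exact int_ofO hH hp K ιK hRK (fun V hV => intB hH hp hsp hL hMK hKL hT hV)

theorem selB_iffK : H55P.SelTriv (W⁄K) p ↔ H55P.SelTriv (W⁄M) p ∧ NoRel p (W⁄(𝓞 F)) (KG F M ιM) (KG F K ιK) := by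
  constructor
  · intro h
    have hN : NoRel p (W⁄(𝓞 F)) (KG F M ιM) (KG F K ιK) := by
      by_contra hN
      exact H13Z.not_selTriv _ p (non_abs hH hp K ιK (ns_all hH hp hsp _ _ _ hL hMK hKL hN)) h
    exact ⟨(selB_iff hH hp M ιM).2 (H19B.sel_downB hH hp hL hMK hKL ((selB_iff hH hp K ιK).1 h)), hN⟩
  · rintro ⟨h, hN⟩
    exact (selB_iff hH hp K ιK).2 (selBO hH hp hsp hB hL hMK hKL hN ((selB_iff hH hp M ιM).1 h)).1

/-- The theorem for p split in F. -/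
theorem over_splitO : OverB F p W M K ιM ιK := by
  have hsel := selB_iffK hH hp hsp M K ιM ιK hL hMK hKL hB
  refine ⟨hsel, ?_, fun hN => non_abs hH hp K ιK (ns_all hH hp hsp _ _ _ hL hMK hKL hN),
    anintB hH hp hsp M K ιM ιK hL hMK hKL hB, lvalB hH hp hsp M K ιM ιK hL hMK hKL hB, annonB hH hp hsp M K ιM ιK hL hMK hKL hB,
    nt_of hH hp M ιM⟩
  rw [bsdB_iff hH hp K ιK, bsdB_iff hH hp M ιM]
  constructor
  · rintro ⟨h1, h2⟩
    obtain ⟨h3, h4⟩ := hsel.1 h1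
    exact ⟨⟨h3, ((lvalB hH hp hsp M K ιM ιK hL hMK hKL hB (nt_of hH hp M ιM (Or.inr h3))).1 h2).1⟩, h4⟩
  · rintro ⟨⟨h1, h2⟩, h3⟩
    exact ⟨hsel.2 ⟨h1, h3⟩, (lvalB hH hp hsp M K ιM ιK hL hMK hKL hB (nt_of hH hp M ιM (Or.inr h1))).2 ⟨h2, h3⟩⟩

end split


end H35V
end

-- from Lib.SSU.A5
section

/-! # SSU, A5: the analytic half of (A'): p inert in F, E(M)[p] = 0, trivial second ramification groups -/

open NumberField IsDedekindDomain WeierstrassCurve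

namespace SSU

open H55N H55P SSR
open H35M (LVO LVOi NoTor)
open H55K.TQ (BaseH PrimeH base_of)
open H13R (NoRel)
open H35P (WAB Ker tt)
open H55K (Dta Tor)

variable {F : Type} [Field F] [NumberField F] [IQ F]

/-- The context from the hypotheses. -/
theorem sctx_of {W : WeierstrassCurve ℤ} {Om : ℂ} {m : Ideal (𝓞 F)} {ψ : Ideal (𝓞 F) →*₀ 𝓞 F} {p : ℕ} [Fact p.Prime]
    (hH : BaseH F (W⁄(𝓞 F)) Om m ψ) (hp : PrimeH F (W⁄(𝓞 F)) p) (hin : (Ideal.span {(p : 𝓞 F)}).IsPrime) : SCtx p m ψ Om := by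
  classical
  have hp0 : ((p : ℕ) : 𝓞 F) ≠ 0 := Nat.cast_ne_zero.2 hp.prime.ne_zero
  have hpr : Prime ((p : ℕ) : 𝓞 F) := (Ideal.span_singleton_prime hp0).1 hin
  obtain ⟨A, B, j, act, hA, hB, d⟩ := SSG.exists_dtaAB (p := p) hH hp
  exact ⟨hp.five, hH.data.hecke, (base_of hH hp).cop.of_mul_left_right, SSG.S.psi_p hH hp hin, hin,
    A, B, AlgebraicClosure F, inferInstance, inferInstance, inferInstance, inferInstance, j, act, d, H16S.s1 hH hp hpr hA hB d⟩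

/-- The auxiliary ideal from the absence of p-torsion over M, p inert. -/
theorem ntp_inert {Ω : Type} [Field Ω] [DecidableEq Ω] [Algebra F Ω] [IsAlgClosure F Ω] {A B : F} {Om : ℂ} {j : Ω →+* ℂ}
    {act : 𝓞 F →+* AddMonoid.End (Pt (WAB A B) Ω)} {mo : Ideal (𝓞 F)} {ψ : Ideal (𝓞 F) →*₀ 𝓞 F} {p : ℕ}
    (d : Dta A B Om j act mo ψ p) (hin : (Ideal.span {(p : 𝓞 F)}).IsPrime) {V : ValuationSubring ℂ} (hV : V.valuation (p : ℂ) < 1)
    (M : IntermediateField F Ω) [NumberField M]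
    (hT : ∀ T : Pt (WAB A B) Ω, p • T = 0 → (∀ s ∈ M.fixingSubgroup, ac (WAB A B) s T = T) → T = 0) : NTP M p mo ψ V := by
  classical
  by_contra hN
  have hp := d.prime
  have hp0 : ((p : ℕ) : 𝓞 F) ≠ 0 := Nat.cast_ne_zero.2 hp.ne_zero
  have hpr : Prime ((p : ℕ) : 𝓞 F) := (Ideal.span_singleton_prime hp0).1 hin
  have he : eF F ((p : ℕ) : 𝓞 F) = (p : ℂ) := map_natCast _ _
  have hV' : V.valuation (eF F ((p : ℕ) : 𝓞 F)) < 1 := by rw [he]; exact hV
  have hyp : ∀ a : Ideal (𝓞 M), IsCoprime a (Ideal.span {(p : 𝓞 M)}) → IsCoprime a (mK M mo) →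
      ((p : ℕ) : 𝓞 F) ∣ 1 - ψ (Ideal.relNorm (𝓞 F) a) := by
    intro a h1 h2
    have e : (starRingEnd ℂ) (eF F (1 - ψ (Ideal.relNorm (𝓞 F) a))) = 1 - PsiP M ψ a := by
      rw [map_sub, map_sub, map_one, map_one, PsiP_apply]
    have h3 : V.valuation (1 - PsiP M ψ a) ≤ 1 := by
      rw [← e]
      exact H41D.val_eFc V _
    have h4 : V.valuation ((starRingEnd ℂ) (eF F (1 - ψ (Ideal.relNorm (𝓞 F) a)))) < 1 := by
      rw [e]
      exact lt_of_le_of_ne h3 fun h5 => hN ⟨a, h1, h2, h5⟩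
    rw [inert_el V hp hin hV] at h4
    exact (H41D.val_lt_iff V hpr hV' _).1 h4
  obtain ⟨T₀, hT₀, -, hz, -⟩ := d.cma.gen ((p : ℕ) : 𝓞 F) hp0
  have h1 := H35M.rat_of_triv d hpr dvd_rfl M hyp T₀ hT₀
  have h2 : p • T₀ = 0 := by
    have h3 : act ((p : ℕ) : 𝓞 F) T₀ = 0 := hT₀
    rwa [map_natCast, AddMonoid.End.natCast_apply] at h3
  have h3 := hT T₀ h2 h1
  have h4 : ((p : ℕ) : 𝓞 F) ∣ 1 := (hz 1).1 (by rw [h3, map_zero])
  exact hpr.not_unit (isUnit_of_dvd_one h4)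

variable {W : WeierstrassCurve ℤ} {Om : ℂ} {m : Ideal (𝓞 F)} {ψ : Ideal (𝓞 F) →*₀ 𝓞 F} {p : ℕ}

theorem ntp_C {W₀ : WeierstrassCurve (𝓞 F)} (hH : BaseH F W₀ Om m ψ) (hp : PrimeH F W₀ p) (hin : (Ideal.span {(p : 𝓞 F)}).IsPrime)
    {V : ValuationSubring ℂ} (hV : V.valuation (p : ℂ) < 1)
    (M : IntermediateField F (AlgebraicClosure F)) [NumberField M] (hT : NoTor p W₀ M) : NTP M p m ψ V := by
  classical
  obtain ⟨A, B, j, act, hA, hB, d⟩ := SSG.exists_dtaAB (p := p) hH hp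
  obtain ⟨Θ, hΘ⟩ := SSG.short_iso W₀ hA hB hH.data.ell (Ω := AlgebraicClosure F)
  refine ntp_inert d hin hV M fun T hT0 hTf => ?_
  have h1 : Θ.symm T = 0 := by
    refine hT _ ?_ fun s hs => ?_
    · rw [← map_nsmul, hT0, map_zero]
    · apply Θ.injective
      have h2 := hΘ s (Θ.symm T)
      rw [Θ.apply_symm_apply, hTf s hs] at h2
      rw [Θ.apply_symm_apply]
      exact h2
  rw [← Θ.apply_symm_apply T, h1, map_zero]

/-- The condition at a prime of M. -/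
theorem cnd_C (hH : BaseH F (W⁄(𝓞 F)) Om m ψ) (hp : PrimeH F (W⁄(𝓞 F)) p) (hin : (Ideal.span {(p : 𝓞 F)}).IsPrime)
    {V : ValuationSubring ℂ} (hV : V.valuation (p : ℂ) < 1) (M : IntermediateField F (AlgebraicClosure F)) [NumberField M]
    (v : HeightOneSpectrum (𝓞 M)) :
    V.valuation (1 - (starRingEnd ℂ) (PsiP M ψ v.asIdeal)) = 1 ↔
      (algebraMap (𝓞 F) (𝓞 M) (W⁄(𝓞 F)).Δ ∉ v.asIdeal → ¬ p ∣ Nat.card ((W⁄(𝓞 F))⁄(𝓞 M ⧸ v.asIdeal)).toAffine.Point) := by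
  rw [← H13R.y10_locR hH hp.prime v]
  have e2 : 1 - (starRingEnd ℂ) (PsiP M ψ v.asIdeal) = eF F (1 - ψ (Ideal.relNorm (𝓞 F) v.asIdeal)) := by
    rw [PsiP_apply, Complex.conj_conj, map_sub, map_one]
  rw [e2]
  have h1 := H35M.sz1_iff (F := F) hp.prime hV (1 - ψ (Ideal.relNorm (𝓞 F) v.asIdeal))
  rw [inert_el V hp.prime hin hV, and_self_iff] at h1
  exact h1.symm

section main

variable (hH : BaseH F (W⁄(𝓞 F)) Om m ψ) (hp : PrimeH F (W⁄(𝓞 F)) p) (hin : (Ideal.span {(p : 𝓞 F)}).IsPrime)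
  {M L K : IntermediateField F (AlgebraicClosure F)} [NumberField M] [NumberField K] (hL : PExt p M L) (hMK : M ≤ K) (hKL : K ≤ L)
  (hT : NoTor p (W⁄(𝓞 F)) M) {V : ValuationSubring ℂ} (hV : V.valuation (p : ℂ) < 1)

include hH hp hin hL hMK hKL hT hV

/-- Integrality at every place above p. -/
theorem intC : LVOi F V Om (PsiP K ψ) := by
  have : Fact p.Prime := ⟨hp.prime⟩
  classical
  exact lvoi_tower (sctx_of hH hp hin) hV M L hL (ntp_C hH hp hin hV M hT) K hMK hKL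

/-- The criterion at a place above p. -/
theorem critC (hG : G2F p M L) : LVO F V Om (PsiP K ψ) ↔ LVO F V Om (PsiP M ψ) ∧ NoRel p (W⁄(𝓞 F)) M K := by
  have : Fact p.Prime := ⟨hp.prime⟩
  classical
  rw [tower_C (sctx_of hH hp hin) hV M L hL hG (ntp_C hH hp hin hV M hT) K hMK hKL]
  refine and_congr_right fun _ => ?_
  unfold NoRel
  refine forall_congr' fun v => ?_
  rw [cnd_C hH hp hin hV M v]

end main

end SSU
end

-- from Lib.H55G.H2
section

/-! # H55G, part H: almost all prime numbers -/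

open NumberField IsDedekindDomain WeierstrassCurve

namespace H55G

open H55P (IQ embF eF LF Per IsHecke Pt ac Inert Dec Nm UnitP UnrP PExt)
open H35P (WAB Ker tt GoodW IntW)
open H55K H55K.TQ
open H13R

variable {F : Type} [Field F] [NumberField F] [IQ F] {W : WeierstrassCurve ℤ} {Om : ℂ}
    {m : Ideal (𝓞 F)} {ψ : Ideal (𝓞 F) →*₀ 𝓞 F} {p : ℕ}

/-- Chunk H2 (S/M). If L(W/M, 1) is not zero, its algebraic part is a p-adic unit for all but finitely many p (no hypothesis on the reduction). Port of H13R.lunit_almost (Lib/H13R/K1.lean). hR := lrelE hH M ι (F5.lean): Φ 1 Φ̄ 1 / EK W M 1 = Λ 1 or Φ 1 / EK W M 1 = Λ 1 (TW1_ident with ek_an, F8a.lean: the left sides are analytic), so Φ 1 ≠ 0. val_almostM as there.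
For the last step: for p outside the finite sets and outside ok_almost (F5.lean): lunit_iffV (H1.lean) with relV1_of (F8.lean; hU: unr_KG hp M ι hU). -/
theorem lunit_almostE (hH : BaseH F (W⁄(𝓞 F)) Om m ψ) (M : Type) [Field M] [NumberField M] (ι : M →ₐ[ℚ] AlgebraicClosure F)
    (hL : LNz W M) : {p : ℕ | p.Prime ∧ ¬ LUnitG p W M}.Finite := by
  classical
  have hfin := (prime_almost (W⁄(𝓞 F)) hH.data.ell).union (unr_almost (KG F M ι))
  by_cases hex : ∃ p, PrimeH F (W⁄(𝓞 F)) p ∧ UnrP p (KG F M ι)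
  swap
  · refine hfin.subset ?_
    rintro p ⟨hp, -⟩
    by_cases h1 : PrimeH F (W⁄(𝓞 F)) p
    · exact Or.inr ⟨hp, fun h2 => hex ⟨p, h1, h2⟩⟩
    · exact Or.inl ⟨hp, h1⟩
  obtain ⟨p₀, hp₀, hU₀⟩ := hex
  have hfd : FiniteDimensional F (KG F M ι) := kg_fin F M ι
  obtain ⟨Φ, hΦa, hΦs, -⟩ := gen_intR hH hp₀ hU₀ (pext_self p₀ (KG F M ι)) le_rfl le_rfl hU₀
  have hR := lrelE hH M ι
  obtain ⟨hEa, -, -⟩ := ek_an hH M
  obtain ⟨Λ, hΛa, hΛs, hΛ1⟩ := hL
  have hΦ1 : Φ 1 ≠ 0 := by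
    rcases hR with ⟨-, hR⟩ | ⟨-, hR⟩
    · have h1 : Φ 1 * (starRingEnd ℂ) (Φ ((starRingEnd ℂ) 1)) / EK W M 1 = Λ 1 :=
        H55N.TW1_ident (1 / 2) (fun z => Φ z * (starRingEnd ℂ) (Φ ((starRingEnd ℂ) z)) / EK W M z) Λ
        (hEa (fun z => Φ z * (starRingEnd ℂ) (Φ ((starRingEnd ℂ) z))) (hΦa.mul (H55B.I4_conj hΦa))) hΛa
        (fun s hs => by
          rw [(hΛs s hs).2]
          exact ((hR Φ hΦs s hs).LSeries_eq).symm) (by norm_num) 1 (by norm_num)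
      intro h0
      apply hΛ1
      rw [← h1, h0, zero_mul, zero_div]
    · have h1 : Φ 1 / EK W M 1 = Λ 1 := H55N.TW1_ident (1 / 2) (fun z => Φ z / EK W M z) Λ (hEa Φ hΦa) hΛa
        (fun s hs => by
          rw [(hΛs s hs).2]
          exact ((hR Φ hΦs s hs).LSeries_eq).symm) (by norm_num) 1 (by norm_num)
      intro h0
      apply hΛ1
      rw [← h1, h0, zero_div]
  have hval := val_almostM hH (KG F M ι) ⟨Φ, hΦa, hΦs, hΦ1⟩
  have hok := ok_almost hH M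
  refine ((hfin.union hval).union hok).subset ?_
  rintro p ⟨hp, hA⟩
  by_cases hP : PrimeH F (W⁄(𝓞 F)) p
  · by_cases hU : UnrP p (KG F M ι)
    · by_cases hO : ∀ v ∈ TE W M, ¬ p ∣ NW (W⁄M) v
      · left
        right
        refine ⟨hP, hU, fun hV => hA ?_⟩
        exact (lunit_iffV hH hP M (KG F M ι) (relV1_of hH hP M ι (unr_KG hp M ι hU) hO)
          (gen_intR hH hP hU (pext_self p (KG F M ι)) le_rfl le_rfl hU)).2 hV
      · right
        exact ⟨hp, hO⟩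
    · exact Or.inl (Or.inl (Or.inr ⟨hp, hU⟩))
  · exact Or.inl (Or.inl (Or.inl ⟨hp, hP⟩))

end H55G
end

-- from Lib.H55G.J5
section

/-! # H55G, part J: almost all prime numbers, for isogenous curves -/

open NumberField IsDedekindDomain WeierstrassCurve

namespace H55G

open H55P (IQ embF eF LF Per IsHecke Pt ac Inert Dec Nm UnitP UnrP PExt)
open H55K H55K.TQ
open H13R
open H28I (TW)

variable {F : Type} [Field F] [NumberField F] [IQ F] {W W' : WeierstrassCurve ℤ} {Om : ℂ} {m : Ideal (𝓞 F)}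
    {ψ : Ideal (𝓞 F) →*₀ 𝓞 F} {kap : ℤ} {e t u lam : ℚ} {p : ℕ}

/-- Almost all prime numbers, for isogenous curves. -/
theorem lunit_almost_isoE (h : TW F W W' Om m ψ kap e t u lam) (M : Type) [Field M] [NumberField M]
    (ι : M →ₐ[ℚ] AlgebraicClosure F) (hL : LNz W' M) : {p : ℕ | p.Prime ∧ ¬ LUnitG p W' M}.Finite := by
  have hl := lfun_tw h M
  have hL' : LNz W M := by
    obtain ⟨Λ, hΛ, hs, hne⟩ := hL
    refine ⟨Λ, hΛ, fun s h32 => ?_, hne⟩
    have e : (fun n => (((W'⁄M).LFunction n : ℤ) : ℂ)) = fun n => (((W⁄M).LFunction n : ℤ) : ℂ) := by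
      funext n
      rw [hl n]
    obtain ⟨a, b⟩ := hs s h32
    rw [e] at a
    refine ⟨a, b.trans ?_⟩
    show LSeries (fun n => (((W'⁄M).LFunction n : ℤ) : ℂ)) s = LSeries (fun n => (((W⁄M).LFunction n : ℤ) : ℂ)) s
    rw [e]
  refine ((prime_almost (W⁄(𝓞 F)) h.base.data.ell).union (lunit_almostE h.base M ι hL')).subset ?_
  rintro p ⟨hp, hA⟩
  by_cases hP : PrimeH F (W⁄(𝓞 F)) p
  · exact Or.inr ⟨hp, fun hV => hA ((i1_lunit (i1_same h hP M hl)).2 hV)⟩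
  · exact Or.inl ⟨hp, hP⟩

end H55G
end

-- from Lib.H35V.AlmostO
section

/-! # H35V: the condition OkM -/

open NumberField IsDedekindDomain WeierstrassCurve

namespace H35V

open H55P (IQ embF eF LF Per IsHecke Pt ac Inert Dec Nm UnitP UnrP PExt RamF)
open H55K H55K.TQ
open H28I (TW tw_prime tw_supp)
open H55G (OkM NW TE ok_almost okm_tw)

variable {F : Type} [Field F] [NumberField F] [IQ F] {W W' : WeierstrassCurve ℤ} {Om : ℂ}
    {m : Ideal (𝓞 F)} {ψ : Ideal (𝓞 F) →*₀ 𝓞 F} {p : ℕ}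

/-- The condition holds for almost all p. -/
theorem okm_almost (hH : BaseH F (W⁄(𝓞 F)) Om m ψ) (M : IntermediateField F (AlgebraicClosure F)) [NumberField M] :
    {p : ℕ | p.Prime ∧ ¬ OkM p (W⁄(𝓞 F)) M}.Finite := by
  refine (ok_almost hH M).subset fun p hp => ⟨hp.1, fun h => hp.2 fun w hw hg => ?_⟩
  have hc : ((W⁄(𝓞 F))⁄F)⁄M = W⁄M := cur_eq M
  rw [hc] at hg ⊢
  refine h w ⟨?_, hg⟩
  have h2 : (W⁄(𝓞 F)).Δ = ((W.Δ : ℤ) : 𝓞 F) := by
    show (W.map (algebraMap ℤ (𝓞 F))).Δ = _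
    rw [WeierstrassCurve.map_Δ]
    rfl
  rw [h2, map_intCast] at hw
  exact hw

theorem okm_unr (hH : BaseH F (W⁄(𝓞 F)) Om m ψ) (M : IntermediateField F (AlgebraicClosure F)) [NumberField M]
    (hU : ∀ v : HeightOneSpectrum (𝓞 F), (W⁄(𝓞 F)).Δ ∈ v.asIdeal → ¬ RamF M v.asIdeal) : OkM p (W⁄(𝓞 F)) M := by
  have hb := H13R.bad_unr hH M hU
  exact fun w hw hg => absurd hg (hb w hw)

variable {kap : ℤ} {e t u lam : ℚ}

theorem okm_almost_iso (h : TW F W W' Om m ψ kap e t u lam) (M : IntermediateField F (AlgebraicClosure F)) [NumberField M] :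
    {p : ℕ | p.Prime ∧ ¬ OkM p (W'⁄(𝓞 F)) M}.Finite := by
  refine (okm_almost h.base M).subset fun p hp => ⟨hp.1, fun h1 => hp.2 ((okm_tw h M).2 h1)⟩

theorem okm_unr_iso (h : TW F W W' Om m ψ kap e t u lam) (M : IntermediateField F (AlgebraicClosure F)) [NumberField M]
    (hU : ∀ v : HeightOneSpectrum (𝓞 F), (W'⁄(𝓞 F)).Δ ∈ v.asIdeal → ¬ RamF M v.asIdeal) : OkM p (W'⁄(𝓞 F)) M :=
  (okm_tw h M).2 (okm_unr h.base M fun v hv => hU v ((tw_supp h v).2 hv))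

end H35V
end
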