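import Mathlib
import Pool.Agent.Lib.H1M.PP2.M127
import Pool.Agent.Lib.H1M.PP2.M167
import Pool.Agent.Lib.H1M.PP2.M177

/-! # H35V: the base field ℚ -/

open NumberField IsDedekindDomain WeierstrassCurve

namespace H35V

open H55P (IQ embF eF LF Per IsHecke Pt ac Inert Dec Nm UnitP UnrP PExt RamF Ram)
open H55K H55K.TQ
open H13R (NoRel LUnitG i1_same i1_lunit)
open H28I (TW Same tw_prime tw_supp)
open H35U (OverB NT nt_up nt_down nt_same)
open H35M (NoTor)
open H55G (OkM lfun_tw okm_tw)

/-- FK is contained in a Galois extension L of F of degree a power of p; if p is inert in F then the second ramification groups of L over F at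
the primes above p are trivial. -/
def TowerA (F : Type) [Field F] [NumberField F] (p : ℕ) (K : Type) [Field K] [NumberField K] (ιK : K →ₐ[ℚ] AlgebraicClosure F) : Prop :=
  ∃ (L : IntermediateField F (AlgebraicClosure F)) (_ : NumberField L), PExt p ⊥ L ∧
    ((Ideal.span {(p : 𝓞 F)}).IsPrime → SSU.G2F p (⊥ : IntermediateField F (AlgebraicClosure F)) L) ∧ KG F K ιK ≤ L

/-- The conclusions over K, base field ℚ. NoAn: no prime v of F, not dividing the discriminant of W, with p | #W(k_v), is ramified in FK. -/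
structure OverA (F : Type) [Field F] [NumberField F] (p : ℕ) (W : WeierstrassCurve ℤ) (K : Type) [Field K] [NumberField K]
    (ιK : K →ₐ[ℚ] AlgebraicClosure F) : Prop where
  int : AnIntG p W K
  crit : AnUnitG p W K ↔ AnUnitG p W ℚ ∧ NoAn p (W⁄(𝓞 F)) (KG F K ιK)
  bsd : AnUnitG p W K → BSDPG p W K
  non : ¬ NoAn p (W⁄(𝓞 F)) (KG F K ιK) → AnNonG p W K ∧ H13Z.SelNonT (W⁄K) p

end H35V
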