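import Mathlib

/-! Merged copies (to shorten the build) of Lib.PNT.Fejer, Lib.PNT.WienerIkehara, Lib.PNT.Dirichlet, Lib.PNT.PNT, Lib.CFTC.C6, Lib.H41S.C1, Lib.H41S.C2, Lib.H57N.Defs, Lib.H57N.C1, Lib.H57N.C2, Lib.H57N.C3, Lib.H57N.P4. -/

-- from Lib.PNT.Fejer
section

/-!
# The Fejer kernel and its Fourier transform
-/

open Complex MeasureTheory Filter Topology Set FourierTransform

namespace Pool.Agent.Lib.PNT

/-- The tent function. -/
noncomputable def tent (t : ℝ) : ℝ := max 0 (1 - |t|)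

/-- The Fejer kernel, normalised to have integral one. -/
noncomputable def fejer (u : ℝ) : ℝ := (Real.sinc (u / 2)) ^ 2 / (2 * Real.pi)

theorem continuous_tent : Continuous tent := by
  unfold tent; fun_prop

theorem tent_nonneg (t : ℝ) : 0 ≤ tent t := le_max_left _ _

theorem tent_eq_zero {t : ℝ} (ht : 1 ≤ |t|) : tent t = 0 :=
  max_eq_left (by linarith)

theorem tent_zero : tent 0 = 1 := by simp [tent]

theorem hasCompactSupport_tent : HasCompactSupport tent := by
  refine HasCompactSupport.intro (K := Icc (-1) 1) isCompact_Icc ?_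
  intro t ht
  apply tent_eq_zero
  by_contra h
  push Not at h
  exact ht (abs_le.mp h.le)

theorem integrable_tent : Integrable tent :=
  continuous_tent.integrable_of_hasCompactSupport hasCompactSupport_tent

theorem continuous_fejer : Continuous fejer := by
  unfold fejer
  have := Real.continuous_sinc
  fun_prop

theorem fejer_nonneg (u : ℝ) : 0 ≤ fejer u := by
  unfold fejer
  have := Real.pi_pos
  positivity

theorem fejer_le_one (u : ℝ) : fejer u ≤ 1 := by
  unfold fejer
  have h3 := Real.pi_gt_three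
  have h1 : (Real.sinc (u / 2)) ^ 2 ≤ 1 := by
    have := Real.abs_sinc_le_one (u / 2)
    rw [← sq_abs]
    exact pow_le_one₀ (abs_nonneg _) this
  rw [div_le_one (by positivity)]
  linarith

theorem tent_fourier (u : ℝ) :
    ∫ t : ℝ, (tent t : ℂ) * cexp (-(t * u) * I) = ((Real.sinc (u / 2)) ^ 2 : ℝ) := by
  have h1 : ∫ t : ℝ, (tent t : ℂ) * cexp (-(t * u) * I)
      = ∫ t in (-1 : ℝ)..1, (tent t : ℂ) * cexp (-(t * u) * I) := by
    rw [intervalIntegral.integral_of_le (by norm_num)]
    symm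
    apply setIntegral_eq_integral_of_forall_compl_eq_zero
    intro t ht
    have : tent t = 0 := by
      apply tent_eq_zero
      by_contra h
      push Not at h
      rw [abs_lt] at h
      exact ht ⟨h.1, h.2.le⟩
    simp [this]
  have hc : Continuous fun t : ℝ => (tent t : ℂ) * cexp (-(t * u) * I) := by
    have := continuous_tent
    fun_prop
  have h2 : ∫ t in (-1 : ℝ)..1, (tent t : ℂ) * cexp (-(t * u) * I)
      = (∫ t in (-1 : ℝ)..0, (tent t : ℂ) * cexp (-(t * u) * I))
        + ∫ t in (0 : ℝ)..1, (tent t : ℂ) * cexp (-(t * u) * I) :=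
    (intervalIntegral.integral_add_adjacent_intervals (hc.intervalIntegrable _ _)
      (hc.intervalIntegrable _ _)).symm
  have h3 : ∫ t in (-1 : ℝ)..0, (tent t : ℂ) * cexp (-(t * u) * I)
      = ∫ t in (-1 : ℝ)..0, ((1 + t : ℝ) : ℂ) * cexp (-(t * u) * I) := by
    apply intervalIntegral.integral_congr
    intro t ht
    rw [uIcc_of_le (by norm_num)] at ht
    have : tent t = 1 + t := by
      unfold tent
      rw [abs_of_nonpos ht.2, max_eq_right (by linarith [ht.1])]; ring
    simp only [this]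
  have h4 : ∫ t in (0 : ℝ)..1, (tent t : ℂ) * cexp (-(t * u) * I)
      = ∫ t in (0 : ℝ)..1, ((1 - t : ℝ) : ℂ) * cexp (-(t * u) * I) := by
    apply intervalIntegral.integral_congr
    intro t ht
    rw [uIcc_of_le (by norm_num)] at ht
    have : tent t = 1 - t := by
      unfold tent
      rw [abs_of_nonneg ht.1, max_eq_right (by linarith [ht.2])]
    simp only [this]
  rw [h1, h2, h3, h4]
  rcases eq_or_ne u 0 with rfl | hu
  · simp only [ofReal_zero, mul_zero, neg_zero, zero_mul, Complex.exp_zero, mul_one, zero_div,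
      Real.sinc_zero, one_pow, ofReal_one]
    rw [intervalIntegral.integral_ofReal, intervalIntegral.integral_ofReal]
    have e1 : ∫ t in (-1 : ℝ)..0, (1 + t) = 1 / 2 := by
      rw [intervalIntegral.integral_add (by simp) (by simp)]
      simp; norm_num
    have e2 : ∫ t in (0 : ℝ)..1, (1 - t) = 1 / 2 := by
      rw [intervalIntegral.integral_sub (by simp) (by simp)]
      simp; norm_num
    rw [e1, e2]; norm_num
  · set c : ℂ := -(u * I) with hcdef
    have hc0 : c ≠ 0 := by
      rw [hcdef, neg_ne_zero]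
      exact mul_ne_zero (by exact_mod_cast hu) I_ne_zero
    have hexp : ∀ t : ℝ, cexp (-(t * u) * I) = cexp (c * t) := by
      intro t; rw [hcdef]; congr 1; ring
    have hd : ∀ t : ℝ, HasDerivAt (fun t : ℝ => cexp (c * t)) (c * cexp (c * t)) t := by
      intro t
      have h := ((hasDerivAt_id (t : ℂ)).const_mul c).cexp.comp_ofReal
      simpa [mul_comm] using h
    have hid : ∀ t : ℝ, HasDerivAt (fun t : ℝ => (t : ℂ)) 1 t := fun t =>
      (hasDerivAt_id (t : ℂ)).comp_ofReal
    have e1 : ∫ t in (-1 : ℝ)..0, ((1 + t : ℝ) : ℂ) * cexp (-(t * u) * I)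
        = 1 / c - 1 / c ^ 2 + cexp (-c) / c ^ 2 := by
      have hder : ∀ t ∈ uIcc (-1 : ℝ) 0, HasDerivAt
          (fun t : ℝ => (1 + (t : ℂ)) * cexp (c * t) / c - cexp (c * t) / c ^ 2)
          (((1 + t : ℝ) : ℂ) * cexp (-(t * u) * I)) t := by
        intro t _
        rw [hexp]
        have h := ((((hid t).const_add 1).mul (hd t)).div_const c).sub ((hd t).div_const (c ^ 2))
        convert! h using 1
        push_cast
        field_simp
        ring
      rw [intervalIntegral.integral_eq_sub_of_hasDerivAt hder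
        (Continuous.intervalIntegrable (by fun_prop) _ _)]
      simp
    have e2 : ∫ t in (0 : ℝ)..1, ((1 - t : ℝ) : ℂ) * cexp (-(t * u) * I)
        = cexp c / c ^ 2 - 1 / c - 1 / c ^ 2 := by
      have hder : ∀ t ∈ uIcc (0 : ℝ) 1, HasDerivAt
          (fun t : ℝ => (1 - (t : ℂ)) * cexp (c * t) / c + cexp (c * t) / c ^ 2)
          (((1 - t : ℝ) : ℂ) * cexp (-(t * u) * I)) t := by
        intro t _
        rw [hexp]
        have h := ((((hid t).const_sub 1).mul (hd t)).div_const c).add ((hd t).div_const (c ^ 2))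
        convert! h using 1
        push_cast
        field_simp
        ring
      rw [intervalIntegral.integral_eq_sub_of_hasDerivAt hder
        (Continuous.intervalIntegrable (by fun_prop) _ _)]
      simp
      ring
    rw [e1, e2]
    have hsum : cexp (-c) + cexp c = 2 * (Real.cos u : ℂ) := by
      rw [hcdef, neg_neg]
      rw [ofReal_cos, Complex.cos]
      ring_nf
    have hc2 : c ^ 2 = -((u : ℂ) ^ 2) := by
      rw [hcdef, neg_sq, mul_pow, I_sq]; ring
    have hu' : (u : ℂ) ≠ 0 := by exact_mod_cast hu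
    have hs : (Real.sinc (u / 2)) ^ 2 = 2 * (1 - Real.cos u) / u ^ 2 := by
      rw [Real.sinc_of_ne_zero (by simpa using hu), div_pow]
      have : Real.cos u = 1 - 2 * Real.sin (u / 2) ^ 2 := by
        have h := Real.cos_two_mul (u / 2)
        rw [Real.cos_sq', show 2 * (u / 2) = u by ring] at h
        linarith
      rw [this]
      field_simp
      ring
    have : 1 / c - 1 / c ^ 2 + cexp (-c) / c ^ 2 + (cexp c / c ^ 2 - 1 / c - 1 / c ^ 2)
        = ((cexp (-c) + cexp c) - 2) / c ^ 2 := by ring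
    rw [this, hsum, hc2, hs]
    push_cast
    field_simp
    ring

theorem sinc_sq_le (x : ℝ) : (Real.sinc x) ^ 2 ≤ 2 * (1 + x ^ 2)⁻¹ := by
  have h1 : (Real.sinc x) ^ 2 ≤ 1 := by
    have := Real.abs_sinc_le_one x
    rw [← sq_abs]
    exact pow_le_one₀ (abs_nonneg _) this
  have h2 : x ^ 2 * (Real.sinc x) ^ 2 ≤ 1 := by
    rcases eq_or_ne x 0 with rfl | hx
    · simp
    · rw [Real.sinc_of_ne_zero hx, div_pow]
      have : x ^ 2 * (Real.sin x ^ 2 / x ^ 2) = Real.sin x ^ 2 := by field_simp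
      rw [this]
      exact Real.sin_sq_le_one x
  rw [← div_eq_mul_inv, le_div_iff₀ (by positivity)]
  nlinarith

theorem integrable_fejer : Integrable fejer := by
  have h1 : Integrable fun x : ℝ => (1 + x ^ 2)⁻¹ := integrable_inv_one_add_sq
  have h2 : Integrable fun x : ℝ => (1 + (x / 2) ^ 2)⁻¹ := h1.comp_div (by norm_num)
  refine Integrable.mono' (g := fun x : ℝ => (2 * (1 + (x / 2) ^ 2)⁻¹) / (2 * Real.pi))
    ((h2.const_mul 2).div_const _) continuous_fejer.aestronglyMeasurable ?_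
  refine Eventually.of_forall fun x => ?_
  rw [Real.norm_of_nonneg (fejer_nonneg x), fejer]
  exact div_le_div_of_nonneg_right (sinc_sq_le _) (by positivity)

theorem fourier_tent (w : ℝ) : 𝓕 (fun t : ℝ => (tent t : ℂ)) w = ((2 * Real.pi * fejer (2 * Real.pi * w) : ℝ) : ℂ) := by
  rw [Real.fourier_eq']
  have := tent_fourier (2 * Real.pi * w)
  have hpi := Real.pi_pos
  rw [fejer, mul_div_cancel₀ _ (by positivity), ← this]
  apply integral_congr_ae
  refine Eventually.of_forall fun t => ?_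
  simp only [smul_eq_mul]
  rw [mul_comm]
  congr 1
  simp
  ring_nf

theorem integral_fejer : ∫ u, fejer u = 1 := by
  have hpi := Real.pi_pos
  have hF : (𝓕 (fun t : ℝ => (tent t : ℂ)))
      = fun w : ℝ => ((2 * Real.pi * fejer (2 * Real.pi * w) : ℝ) : ℂ) := by
    ext w; exact fourier_tent w
  have hint : Integrable (𝓕 (fun t : ℝ => (tent t : ℂ))) := by
    rw [hF]
    apply Integrable.ofReal
    exact (integrable_fejer.comp_mul_left' (by positivity : 2 * Real.pi ≠ 0)).const_mul _
  have hinv := Continuous.fourierInv_fourier_eq (f := fun t : ℝ => (tent t : ℂ))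
    (by have := continuous_tent; fun_prop) integrable_tent.ofReal hint
  have h0 := congrFun hinv 0
  rw [Real.fourierInv_eq'] at h0
  simp only [inner_zero_right, mul_zero, ofReal_zero, zero_mul, Complex.exp_zero, one_smul,
    tent_zero, ofReal_one] at h0
  rw [hF] at h0
  beta_reduce at h0
  rw [integral_complex_ofReal] at h0
  have h1 : ∫ w : ℝ, 2 * Real.pi * fejer (2 * Real.pi * w) = 1 := by exact_mod_cast h0
  rw [integral_const_mul, Measure.integral_comp_mul_left] at h1
  rw [abs_of_pos (by positivity), smul_eq_mul, ← mul_assoc, mul_inv_cancel₀ (by positivity),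
    one_mul] at h1
  exact h1

/-- Scaled Fejer kernel. -/
noncomputable def fejerS (l u : ℝ) : ℝ := l * fejer (l * u)

/-- Scaled tent. -/
noncomputable def tentS (l t : ℝ) : ℝ := tent (t / l)

theorem continuous_fejerS (l : ℝ) : Continuous (fejerS l) := by
  unfold fejerS
  have := continuous_fejer
  fun_prop

theorem continuous_tentS (l : ℝ) : Continuous (tentS l) := by
  unfold tentS
  have := continuous_tent
  fun_prop

theorem fejerS_nonneg {l : ℝ} (hl : 0 < l) (u : ℝ) : 0 ≤ fejerS l u :=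
  mul_nonneg hl.le (fejer_nonneg _)

theorem fejerS_le {l : ℝ} (hl : 0 < l) (u : ℝ) : fejerS l u ≤ l := by
  unfold fejerS
  have := fejer_le_one (l * u)
  nlinarith

theorem tentS_nonneg (l t : ℝ) : 0 ≤ tentS l t := tent_nonneg _

theorem tentS_eq_zero {l t : ℝ} (hl : 0 < l) (ht : l ≤ |t|) : tentS l t = 0 := by
  apply tent_eq_zero
  rwa [abs_div, abs_of_pos hl, le_div_iff₀ hl, one_mul]

theorem integrable_tentS {l : ℝ} (hl : 0 < l) : Integrable (tentS l) := by
  unfold tentS
  exact integrable_tent.comp_div hl.ne'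

theorem integrable_fejerS {l : ℝ} (hl : 0 < l) : Integrable (fejerS l) := by
  unfold fejerS
  exact (integrable_fejer.comp_mul_left' hl.ne').const_mul _

theorem integral_fejerS {l : ℝ} (hl : 0 < l) : ∫ u, fejerS l u = 1 := by
  unfold fejerS
  rw [integral_const_mul, Measure.integral_comp_mul_left, integral_fejer, abs_of_pos
    (by positivity), smul_eq_mul, mul_one, mul_inv_cancel₀ hl.ne']

theorem tentS_fourier {l : ℝ} (hl : 0 < l) (u : ℝ) :
    ∫ t : ℝ, (tentS l t : ℂ) * cexp (-(t * u) * I) = ((2 * Real.pi * fejerS l u : ℝ) : ℂ) := by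
  have h := tent_fourier (l * u)
  have h2 := Measure.integral_comp_div (fun t : ℝ => (tent t : ℂ) * cexp (-(t * (l * u : ℝ)) * I)) l
  rw [h, abs_of_pos hl] at h2
  have h3 : ∫ t : ℝ, (tentS l t : ℂ) * cexp (-(t * u) * I)
      = ∫ x : ℝ, (tent (x / l) : ℂ) * cexp (-(((x / l : ℝ) : ℂ) * (l * u : ℝ)) * I) := by
    apply integral_congr_ae
    refine Eventually.of_forall fun t => ?_
    simp only [tentS]
    congr 2
    push_cast
    have : (l : ℂ) ≠ 0 := by exact_mod_cast hl.ne'
    field_simp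
  rw [h3, h2, fejerS, fejer]
  have hpi := Real.pi_pos
  rw [real_smul, ← ofReal_mul]
  congr 1
  field_simp

end Pool.Agent.Lib.PNT
end

-- from Lib.PNT.WienerIkehara
section

/-!
# The Wiener-Ikehara theorem, Laplace transform form
-/

open Complex MeasureTheory Filter Topology Set

namespace Pool.Agent.Lib.PNT

/-- Hypotheses of the Wiener-Ikehara theorem in Laplace form. -/
structure WIData (α : ℝ → ℝ) (A : ℝ) (H : ℂ → ℂ) : Prop where
  mono : MonotoneOn α (Ici 0)
  nonneg : ∀ u, 0 ≤ u → 0 ≤ α u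
  int : ∀ σ : ℝ, 1 < σ → IntegrableOn (fun u => α u * Real.exp (-(σ * u))) (Ioi 0)
  cont : ContinuousOn H {s | 1 ≤ s.re}
  lap : ∀ s : ℂ, 1 < s.re →
    ∫ u in Ioi (0 : ℝ), (α u : ℂ) * cexp (-(s * u)) = H s + A / (s - 1)

/-- The damped difference. -/
noncomputable def wiG (α : ℝ → ℝ) (A δ u : ℝ) : ℝ :=
  (α u * Real.exp (-u) - A) * Real.exp (-(δ * u))

variable {α : ℝ → ℝ} {A : ℝ} {H : ℂ → ℂ}

theorem WIData.integrable_exp {δ : ℝ} (hδ : 0 < δ) :
    IntegrableOn (fun u : ℝ => Real.exp (-(δ * u))) (Ioi 0) := by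
  have := integrableOn_exp_mul_Ioi (a := -δ) (by linarith) 0
  refine this.congr_fun (fun u _ => ?_) measurableSet_Ioi
  simp

theorem WIData.integrable_damped (h : WIData α A H) {δ : ℝ} (hδ : 0 < δ) :
    IntegrableOn (fun u : ℝ => α u * Real.exp (-u) * Real.exp (-(δ * u))) (Ioi 0) := by
  refine (h.int (1 + δ) (by linarith)).congr_fun (fun u _ => ?_) measurableSet_Ioi
  simp only []
  rw [mul_assoc, ← Real.exp_add]
  ring_nf

theorem WIData.integrable_g (h : WIData α A H) {δ : ℝ} (hδ : 0 < δ) :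
    IntegrableOn (wiG α A δ) (Ioi 0) := by
  have h1 := h.integrable_damped hδ
  have h2 := (WIData.integrable_exp hδ).const_mul A
  refine (h1.sub h2).congr (Eventually.of_forall fun u => ?_)
  simp only [wiG, Pi.sub_apply]
  ring

theorem WIData.lap' (h : WIData α A H) {δ : ℝ} (hδ : 0 < δ) (t : ℝ) :
    ∫ u in Ioi (0 : ℝ), (wiG α A δ u : ℂ) * cexp (-(t * u) * I) = H (1 + δ + t * I) := by
  have hs : 1 < (1 + δ + t * I : ℂ).re := by simp [hδ]
  have h1 := h.lap _ hs
  have hre : (-(δ + t * I) : ℂ).re < 0 := by simp [hδ]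
  have hint1 : IntegrableOn (fun u : ℝ => (α u : ℂ) * cexp (-((1 + δ + t * I) * u))) (Ioi 0) := by
    have hi := (h.int (1 + δ) (by linarith)).ofReal (𝕜 := ℂ)
    have := hi.mul_bdd (g := fun u : ℝ => cexp (-(t * u) * I)) (c := 1)
      (by fun_prop) (Eventually.of_forall fun u => by
        rw [show (-(t * u : ℂ) * I) = ((-(t * u) : ℝ) : ℂ) * I by push_cast; ring]
        rw [Complex.norm_exp_ofReal_mul_I])
    refine Integrable.congr this (Eventually.of_forall fun u => ?_)
    simp only [coe_algebraMap]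
    push_cast
    rw [mul_assoc, ← Complex.exp_add]
    congr 2
    ring
  have hint2 : IntegrableOn (fun u : ℝ => cexp (-(δ + t * I) * u)) (Ioi 0) :=
    integrableOn_exp_mul_complex_Ioi hre 0
  have h2 := integral_exp_mul_complex_Ioi hre 0
  have h3 : ∫ u in Ioi (0 : ℝ), (wiG α A δ u : ℂ) * cexp (-(t * u) * I)
      = ∫ u in Ioi (0 : ℝ), ((α u : ℂ) * cexp (-((1 + δ + t * I) * u))
        - A * cexp (-(δ + t * I) * u)) := by
    apply integral_congr_ae
    refine Eventually.of_forall fun u => ?_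
    simp only [wiG]
    push_cast
    have e1 : cexp (-((1 + δ + t * I) * u)) = cexp (-(u : ℂ)) * cexp (-(δ * u)) * cexp (-(t * u) * I) := by
      rw [← Complex.exp_add, ← Complex.exp_add]; congr 1; ring
    have e2 : cexp (-(δ + t * I) * u) = cexp (-(δ * u)) * cexp (-(t * u) * I) := by
      rw [← Complex.exp_add]; congr 1; ring
    rw [e1, e2]
    ring
  rw [h3, integral_sub hint1 (hint2.const_mul _), h1, integral_const_mul, h2]
  have hne : (δ + t * I : ℂ) ≠ 0 := by
    intro h0
    rw [h0] at hre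
    simp at hre
  rw [show (1 + δ + t * I - 1 : ℂ) = δ + t * I by ring]
  simp only [ofReal_zero, mul_zero, Complex.exp_zero]
  field_simp
  ring

theorem WIData.fub (h : WIData α A H) {l : ℝ} (hl : 0 < l) {δ : ℝ} (hδ : 0 < δ) (y : ℝ) :
    ∫ t : ℝ, (tentS l t : ℂ) * cexp (t * y * I) * H (1 + δ + t * I)
      = ((∫ u in Ioi (0 : ℝ), wiG α A δ u * (2 * Real.pi * fejerS l (u - y)) : ℝ) : ℂ) := by
  have hint : Integrable (Function.uncurry fun (t : ℝ) (u : ℝ) =>
      ((tentS l t : ℂ) * (wiG α A δ u : ℂ)) * cexp (-(t * (u - y)) * I))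
      ((volume : Measure ℝ).prod (volume.restrict (Ioi (0 : ℝ)))) := by
    have h1 := Integrable.mul_prod ((integrable_tentS hl).ofReal (𝕜 := ℂ))
      ((h.integrable_g hδ).ofReal (𝕜 := ℂ))
    have := h1.mul_bdd (g := fun z : ℝ × ℝ => cexp (-(z.1 * (z.2 - y)) * I)) (c := 1)
      (by fun_prop) (Eventually.of_forall fun z => by
        rw [show (-(z.1 * (z.2 - y) : ℂ) * I) = ((-(z.1 * (z.2 - y)) : ℝ) : ℂ) * I by push_cast; ring]
        rw [Complex.norm_exp_ofReal_mul_I])
    exact this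
  have key := integral_integral_swap hint
  have e1 : ∫ t : ℝ, (tentS l t : ℂ) * cexp (t * y * I) * H (1 + δ + t * I)
      = ∫ t : ℝ, ∫ u in Ioi (0 : ℝ),
        ((tentS l t : ℂ) * (wiG α A δ u : ℂ)) * cexp (-(t * (u - y)) * I) := by
    apply integral_congr_ae
    refine Eventually.of_forall fun t => ?_
    simp only []
    rw [← h.lap' hδ t, ← integral_const_mul]
    apply integral_congr_ae
    refine Eventually.of_forall fun u => ?_
    simp only []
    have : cexp (-(t * (u - y)) * I) = cexp (t * y * I) * cexp (-(t * u) * I) := by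
      rw [← Complex.exp_add]; congr 1; ring
    rw [this]; ring
  have e2 : ∫ u in Ioi (0 : ℝ), ∫ t : ℝ,
        ((tentS l t : ℂ) * (wiG α A δ u : ℂ)) * cexp (-(t * (u - y)) * I)
      = ((∫ u in Ioi (0 : ℝ), wiG α A δ u * (2 * Real.pi * fejerS l (u - y)) : ℝ) : ℂ) := by
    rw [← integral_complex_ofReal]
    apply integral_congr_ae
    refine Eventually.of_forall fun u => ?_
    simp only []
    rw [ofReal_mul, ← tentS_fourier hl, ← integral_const_mul]
    apply integral_congr_ae
    refine Eventually.of_forall fun t => ?_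
    simp only []
    push_cast
    ring
  rw [e1, key, e2]

/-- The smoothed damped function. -/
noncomputable def wiJ (α : ℝ → ℝ) (l δ y : ℝ) : ℝ :=
  ∫ u in Ioi (0 : ℝ), α u * Real.exp (-u) * Real.exp (-(δ * u)) * fejerS l (u - y)

/-- The limit of the smoothed damped function. -/
noncomputable def wiL (A : ℝ) (H : ℂ → ℂ) (l y : ℝ) : ℝ :=
  A * (∫ u in Ioi (0 : ℝ), fejerS l (u - y))
    + (1 / (2 * Real.pi)) * (∫ t : ℝ, (tentS l t : ℂ) * cexp (t * y * I) * H (1 + t * I)).re

theorem integrable_shift {l : ℝ} (hl : 0 < l) (y : ℝ) :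
    Integrable fun u : ℝ => fejerS l (u - y) :=
  (integrable_fejerS hl).comp_sub_right y

theorem WIData.integrable_J (h : WIData α A H) {l : ℝ} (hl : 0 < l) {δ : ℝ} (hδ : 0 < δ) (y : ℝ) :
    IntegrableOn (fun u : ℝ => α u * Real.exp (-u) * Real.exp (-(δ * u)) * fejerS l (u - y))
      (Ioi 0) := by
  refine (h.integrable_damped hδ).mul_bdd (c := l) ?_ (Eventually.of_forall fun u => ?_)
  · have := continuous_fejerS l
    fun_prop
  · rw [Real.norm_of_nonneg (fejerS_nonneg hl _)]
    exact fejerS_le hl _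

theorem WIData.J_eq (h : WIData α A H) {l : ℝ} (hl : 0 < l) {δ : ℝ} (hδ : 0 < δ) (y : ℝ) :
    wiJ α l δ y = A * (∫ u in Ioi (0 : ℝ), Real.exp (-(δ * u)) * fejerS l (u - y))
      + (1 / (2 * Real.pi)) *
        (∫ t : ℝ, (tentS l t : ℂ) * cexp (t * y * I) * H (1 + δ + t * I)).re := by
  have hpi := Real.pi_pos
  rw [h.fub hl hδ y, ofReal_re]
  have h1 := h.integrable_J hl hδ y
  have h2 : IntegrableOn (fun u : ℝ => Real.exp (-(δ * u)) * fejerS l (u - y)) (Ioi 0) := by
    refine (WIData.integrable_exp hδ).mul_bdd (c := l) ?_ (Eventually.of_forall fun u => ?_)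
    · have := continuous_fejerS l
      fun_prop
    · rw [Real.norm_of_nonneg (fejerS_nonneg hl _)]
      exact fejerS_le hl _
  have h3 : ∫ u in Ioi (0 : ℝ), wiG α A δ u * (2 * Real.pi * fejerS l (u - y))
      = 2 * Real.pi * (wiJ α l δ y
        - A * (∫ u in Ioi (0 : ℝ), Real.exp (-(δ * u)) * fejerS l (u - y))) := by
    unfold wiJ
    rw [← integral_const_mul, ← integral_sub h1 (h2.const_mul A), ← integral_const_mul]
    apply integral_congr_ae
    refine Eventually.of_forall fun u => ?_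
    simp only [wiG]
    ring
  rw [h3]
  field_simp
  ring

theorem WIData.tendsto_J (h : WIData α A H) {l : ℝ} (hl : 0 < l) (y : ℝ) :
    Tendsto (fun δ => wiJ α l δ y) (𝓝[>] 0) (𝓝 (wiL A H l y)) := by
  have hpi := Real.pi_pos
  have hA : Tendsto (fun δ : ℝ => ∫ u in Ioi (0 : ℝ), Real.exp (-(δ * u)) * fejerS l (u - y))
      (𝓝[>] 0) (𝓝 (∫ u in Ioi (0 : ℝ), fejerS l (u - y))) := by
    apply tendsto_integral_filter_of_dominated_convergence (fun u => fejerS l (u - y))
    · refine Eventually.of_forall fun δ => ?_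
      have := continuous_fejerS l
      exact Continuous.aestronglyMeasurable (by fun_prop)
    · filter_upwards [self_mem_nhdsWithin] with δ hδ
      filter_upwards [ae_restrict_mem measurableSet_Ioi] with u hu
      have hδ' : 0 < δ := hδ
      have hu' : 0 < u := hu
      rw [norm_mul, Real.norm_of_nonneg (fejerS_nonneg hl _), Real.norm_of_nonneg (Real.exp_pos _).le]
      have : Real.exp (-(δ * u)) ≤ 1 := by
        rw [Real.exp_le_one_iff]
        have := mul_pos hδ' hu'
        linarith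
      exact mul_le_of_le_one_left (fejerS_nonneg hl _) this
    · exact (integrable_shift hl y).integrableOn
    · refine Eventually.of_forall fun u => ?_
      have : Continuous fun δ : ℝ => Real.exp (-(δ * u)) * fejerS l (u - y) := by fun_prop
      have h0 := (this.tendsto 0).mono_left (nhdsWithin_le_nhds (s := Ioi (0 : ℝ)))
      simpa using h0
  have hB : Tendsto (fun δ : ℝ => ∫ t : ℝ, (tentS l t : ℂ) * cexp (t * y * I) * H (1 + δ + t * I))
      (𝓝[>] 0) (𝓝 (∫ t : ℝ, (tentS l t : ℂ) * cexp (t * y * I) * H (1 + t * I))) := by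
    have hcomp : IsCompact (Icc (1 : ℝ) 2 ×ℂ Icc (-l) l) := isCompact_Icc.reProdIm isCompact_Icc
    have hsub : (Icc (1 : ℝ) 2 ×ℂ Icc (-l) l) ⊆ {s : ℂ | 1 ≤ s.re} := by
      intro s hs
      exact (Complex.mem_reProdIm.mp hs).1.1
    obtain ⟨C, hC⟩ := hcomp.exists_bound_of_continuousOn (h.cont.mono hsub)
    have hcont : ∀ δ : ℝ, 0 ≤ δ → Continuous fun t : ℝ => H (1 + δ + t * I) := by
      intro δ hδ
      apply h.cont.comp_continuous (by fun_prop)
      intro t
      simp [hδ]
    apply tendsto_integral_filter_of_dominated_convergence (fun t => C * tentS l t)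
    · filter_upwards [self_mem_nhdsWithin] with δ hδ
      have h1 := hcont δ (le_of_lt hδ)
      have h2 := continuous_tentS l
      refine Continuous.aestronglyMeasurable (Continuous.mul ?_ h1)
      fun_prop
    · have hmem : Ioo (0 : ℝ) 1 ∈ 𝓝[>] (0 : ℝ) := Ioo_mem_nhdsGT one_pos
      filter_upwards [hmem] with δ hδ
      refine Eventually.of_forall fun t => ?_
      rw [norm_mul, norm_mul, show ((t : ℂ) * y * I) = ((t * y : ℝ) : ℂ) * I by push_cast; ring,
        Complex.norm_exp_ofReal_mul_I, mul_one, Complex.norm_real,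
        Real.norm_of_nonneg (tentS_nonneg _ _), mul_comm]
      rcases le_or_gt l |t| with ht | ht
      · rw [tentS_eq_zero hl ht]; simp
      · apply mul_le_mul_of_nonneg_right _ (tentS_nonneg _ _)
        apply hC
        rw [Complex.mem_reProdIm]
        rw [abs_lt] at ht
        simp only [add_re, one_re, ofReal_re, mul_re, I_re, mul_zero, ofReal_im, I_im, mul_one,
          sub_self, add_zero, add_im, one_im, mul_im, zero_add, mem_Icc]
        exact ⟨⟨by linarith [hδ.1], by linarith [hδ.2]⟩, ht.1.le, ht.2.le⟩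
    · exact (integrable_tentS hl).const_mul C
    · refine Eventually.of_forall fun t => ?_
      apply Tendsto.const_mul
      have hc := h.cont (1 + t * I) (by simp)
      refine Tendsto.comp hc ?_
      rw [tendsto_nhdsWithin_iff]
      constructor
      · have : Continuous fun δ : ℝ => (1 + δ + t * I : ℂ) := by fun_prop
        have h0 := (this.tendsto 0).mono_left (nhdsWithin_le_nhds (s := Ioi (0 : ℝ)))
        simpa using h0
      · filter_upwards [self_mem_nhdsWithin] with δ hδ
        have hδ' : 0 < δ := hδ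
        simp [hδ'.le]
  have hsum := (hA.const_mul A).add (((continuous_re.tendsto _).comp hB).const_mul (1 / (2 * Real.pi)))
  refine Tendsto.congr' ?_ hsum
  filter_upwards [self_mem_nhdsWithin] with δ hδ
  rw [h.J_eq hl hδ y]
  rfl

theorem WIData.tendsto_L (_h : WIData α A H) {l : ℝ} (hl : 0 < l) :
    Tendsto (wiL A H l) atTop (𝓝 A) := by
  have hA : Tendsto (fun y : ℝ => ∫ u in Ioi (0 : ℝ), fejerS l (u - y)) atTop (𝓝 1) := by
    have h1 : ∀ y : ℝ, ∫ u in Ioi (0 : ℝ), fejerS l (u - y) = ∫ v in Ioi (-y), fejerS l v := by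
      intro y
      rw [← integral_indicator measurableSet_Ioi, ← integral_indicator measurableSet_Ioi,
        ← integral_sub_right_eq_self (fun v => (Ioi (-y)).indicator (fejerS l) v) y]
      apply integral_congr_ae
      refine Eventually.of_forall fun u => ?_
      simp only [indicator, mem_Ioi]
      by_cases hu : 0 < u
      · rw [if_pos hu, if_pos (by linarith)]
      · rw [if_neg hu, if_neg (by intro h; exact hu (by linarith))]
    simp_rw [h1]
    have hc : AECover (volume : Measure ℝ) atTop (fun y : ℝ => Ioi (-y)) :=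
      aecover_Ioi tendsto_neg_atTop_atBot
    have := hc.integral_tendsto_of_countably_generated (integrable_fejerS hl)
    rwa [integral_fejerS hl] at this
  have hB : Tendsto (fun y : ℝ => ∫ t : ℝ, (tentS l t : ℂ) * cexp (t * y * I) * H (1 + t * I))
      atTop (𝓝 0) := by
    have hRL := Real.tendsto_integral_exp_smul_cocompact
      (fun t : ℝ => (tentS l t : ℂ) * H (1 + t * I))
    have hy : Tendsto (fun y : ℝ => -(y / (2 * Real.pi))) atTop (cocompact ℝ) := by
      have h1 : Tendsto (fun y : ℝ => -(y / (2 * Real.pi))) atTop atBot :=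
        tendsto_neg_atTop_atBot.comp (tendsto_id.atTop_div_const (by positivity))
      exact h1.mono_right atBot_le_cocompact
    refine (hRL.comp hy).congr fun y => ?_
    simp only [Function.comp]
    apply integral_congr_ae
    refine Eventually.of_forall fun t => ?_
    simp only [Real.fourierChar_apply, Circle.smul_def, smul_eq_mul]
    have hpi := Real.pi_pos
    have : ((2 * Real.pi * (-(t * -(y / (2 * Real.pi)))) : ℝ) : ℂ) * I = t * y * I := by
      push_cast
      have : (Real.pi : ℂ) ≠ 0 := by exact_mod_cast hpi.ne'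
      field_simp
    rw [this]
    ring
  have hsum := (hA.const_mul A).add (((continuous_re.tendsto _).comp hB).const_mul (1 / (2 * Real.pi)))
  simp only [zero_re, mul_zero, add_zero, mul_one] at hsum
  exact hsum

/-- Mass of the kernel on `[-η, η]`. -/
noncomputable def wiP (l η : ℝ) : ℝ := ∫ u in (-η)..η, fejerS l u

theorem tendsto_P {η : ℝ} (hη : 0 < η) : Tendsto (fun l => wiP l η) atTop (𝓝 1) := by
  have h1 : ∀ l, wiP l η = ∫ u in (l * (-η))..(l * η), fejer u := by
    intro l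
    unfold wiP fejerS
    rw [intervalIntegral.integral_const_mul, intervalIntegral.mul_integral_comp_mul_left]
  simp_rw [h1]
  rw [← integral_fejer]
  apply intervalIntegral_tendsto_integral integrable_fejer
  · exact tendsto_id.atTop_mul_const_of_neg (by linarith)
  · exact tendsto_id.atTop_mul_const hη

theorem wiP_le_one {l η : ℝ} (hl : 0 < l) (hη : 0 < η) : wiP l η ≤ 1 := by
  unfold wiP
  rw [intervalIntegral.integral_of_le (by linarith), ← integral_fejerS hl]
  exact setIntegral_le_integral (integrable_fejerS hl)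
    (Eventually.of_forall fun u => fejerS_nonneg hl u)

theorem wiP_shift (l η y : ℝ) (hη : 0 < η) :
    ∫ u in Ioc (y - η) (y + η), fejerS l (u - y) = wiP l η := by
  rw [← intervalIntegral.integral_of_le (by linarith), intervalIntegral.integral_comp_sub_right]
  unfold wiP
  congr 1 <;> ring

theorem WIData.upper (h : WIData α A H) {l η y : ℝ} (hl : 0 < l) (hη : 0 < η) (hy : η ≤ y) :
    α (y - η) * Real.exp (-(y + η)) * wiP l η ≤ wiL A H l y := by
  have h0 : 0 ≤ α (y - η) := h.nonneg _ (by linarith)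
  have h1 : ∀ δ > 0, α (y - η) * Real.exp (-(y + η)) * Real.exp (-(δ * (y + η))) * wiP l η
      ≤ wiJ α l δ y := by
    intro δ hδ
    have hint := h.integrable_J hl hδ y
    have hsub : Ioc (y - η) (y + η) ⊆ Ioi 0 := fun u hu => lt_of_le_of_lt (by linarith) hu.1
    have h2 : ∫ u in Ioc (y - η) (y + η),
        α u * Real.exp (-u) * Real.exp (-(δ * u)) * fejerS l (u - y) ≤ wiJ α l δ y := by
      unfold wiJ
      apply setIntegral_mono_set hint
      · filter_upwards [ae_restrict_mem measurableSet_Ioi] with u hu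
        have hu' : (0 : ℝ) < u := hu
        have h3 := h.nonneg u hu'.le
        have h4 := fejerS_nonneg hl (u - y)
        simp only [Pi.zero_apply]
        positivity
      · exact hsub.eventuallyLE
    refine le_trans ?_ h2
    rw [← wiP_shift l η y hη, ← integral_const_mul]
    apply setIntegral_mono_on ((integrable_shift hl y).integrableOn.const_mul _)
      (hint.mono_set hsub) measurableSet_Ioc
    intro u hu
    have hu0 : 0 < u := hsub hu
    apply mul_le_mul_of_nonneg_right _ (fejerS_nonneg hl _)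
    have hm : α (y - η) ≤ α u := h.mono (by simp only [mem_Ici]; linarith) hu0.le hu.1.le
    have he : Real.exp (-(y + η)) ≤ Real.exp (-u) := Real.exp_le_exp.mpr (by linarith [hu.2])
    have he2 : Real.exp (-(δ * (y + η))) ≤ Real.exp (-(δ * u)) := by
      apply Real.exp_le_exp.mpr
      have := mul_le_mul_of_nonneg_left hu.2 hδ.le
      linarith
    have h3 := h.nonneg u hu0.le
    gcongr
  have h2 : Tendsto (fun δ : ℝ => α (y - η) * Real.exp (-(y + η)) * Real.exp (-(δ * (y + η)))
      * wiP l η) (𝓝[>] 0) (𝓝 (α (y - η) * Real.exp (-(y + η)) * wiP l η)) := by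
    have : Continuous fun δ : ℝ => α (y - η) * Real.exp (-(y + η)) * Real.exp (-(δ * (y + η)))
      * wiP l η := by fun_prop
    have h0 := (this.tendsto 0).mono_left (nhdsWithin_le_nhds (s := Ioi (0 : ℝ)))
    simpa using h0
  refine le_of_tendsto_of_tendsto h2 (h.tendsto_J hl y) ?_
  filter_upwards [self_mem_nhdsWithin] with δ hδ
  exact h1 δ hδ

theorem WIData.lower (h : WIData α A H) {l η y M : ℝ} (hl : 0 < l) (hη : 0 < η) (hy : η ≤ y)
    (hM : ∀ u, 0 ≤ u → α u * Real.exp (-u) ≤ M) :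
    wiL A H l y ≤ α (y + η) * Real.exp (-(y - η)) * wiP l η + M * (1 - wiP l η) := by
  have h0 : 0 ≤ α (y + η) := h.nonneg _ (by linarith)
  have hM0 : 0 ≤ M := le_trans (mul_nonneg (h.nonneg 0 le_rfl) (Real.exp_pos _).le) (hM 0 le_rfl)
  set c : ℝ := α (y + η) * Real.exp (-(y - η)) with hc
  have hc0 : 0 ≤ c := mul_nonneg h0 (Real.exp_pos _).le
  have h1 : ∀ δ > 0, wiJ α l δ y ≤ c * wiP l η + M * (1 - wiP l η) := by
    intro δ hδ
    have hint := h.integrable_J hl hδ y
    set Bd : ℝ → ℝ := fun u => M * fejerS l (u - y)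
      + (Ioc (y - η) (y + η)).indicator (fun u => (c - M) * fejerS l (u - y)) u with hBd
    have hi1 : Integrable fun u => M * fejerS l (u - y) := (integrable_shift hl y).const_mul M
    have hi2 : Integrable ((Ioc (y - η) (y + η)).indicator
        (fun u => (c - M) * fejerS l (u - y))) :=
      ((integrable_shift hl y).const_mul _).indicator measurableSet_Ioc
    have hBdi : Integrable Bd := hi1.add hi2
    have hBd_eq : ∀ u, Bd u = (if u ∈ Ioc (y - η) (y + η) then c else M) * fejerS l (u - y) := by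
      intro u
      simp only [hBd, indicator]
      split_ifs
      · ring
      · ring
    have hBd0 : ∀ u, 0 ≤ Bd u := by
      intro u
      rw [hBd_eq]
      apply mul_nonneg _ (fejerS_nonneg hl _)
      split_ifs
      · exact hc0
      · exact hM0
    have h2 : wiJ α l δ y ≤ ∫ u in Ioi (0 : ℝ), Bd u := by
      unfold wiJ
      apply setIntegral_mono_on hint hBdi.integrableOn measurableSet_Ioi
      intro u hu
      have hu0 : (0 : ℝ) < u := hu
      have h3 := h.nonneg u hu0.le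
      rw [hBd_eq]
      apply mul_le_mul_of_nonneg_right _ (fejerS_nonneg hl _)
      have he : Real.exp (-(δ * u)) ≤ 1 := by
        rw [Real.exp_le_one_iff]
        have := mul_pos hδ hu0
        linarith
      have hle : α u * Real.exp (-u) * Real.exp (-(δ * u)) ≤ α u * Real.exp (-u) :=
        mul_le_of_le_one_right (by positivity) he
      refine hle.trans ?_
      split_ifs with hu1
      · rw [hc]
        have hm : α u ≤ α (y + η) := h.mono hu0.le (by simp only [mem_Ici]; linarith) hu1.2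
        have he : Real.exp (-u) ≤ Real.exp (-(y - η)) := Real.exp_le_exp.mpr (by linarith [hu1.1])
        gcongr
      · exact hM u hu0.le
    have h3 : ∫ u in Ioi (0 : ℝ), Bd u ≤ ∫ u, Bd u :=
      setIntegral_le_integral hBdi (Eventually.of_forall hBd0)
    have h4 : ∫ u, Bd u = c * wiP l η + M * (1 - wiP l η) := by
      rw [hBd, integral_add hi1 hi2, integral_indicator measurableSet_Ioc, integral_const_mul,
        integral_const_mul, wiP_shift l η y hη,
        integral_sub_right_eq_self (fun v => fejerS l v) y, integral_fejerS hl]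
      ring
    linarith
  refine le_of_tendsto (h.tendsto_J hl y) ?_
  filter_upwards [self_mem_nhdsWithin] with δ hδ
  exact h1 δ hδ

theorem WIData.A_nonneg (h : WIData α A H) : 0 ≤ A := by
  have hP : ∃ l : ℝ, 0 < l ∧ 0 < wiP l 1 := by
    have h1 := (tendsto_P one_pos).eventually (lt_mem_nhds (show (0 : ℝ) < 1 by norm_num))
    obtain ⟨l, hl, hl2⟩ := (h1.and (eventually_gt_atTop 0)).exists
    exact ⟨l, hl2, hl⟩
  obtain ⟨l, hl, hP⟩ := hP
  refine ge_of_tendsto (h.tendsto_L hl) ?_
  filter_upwards [eventually_ge_atTop (1 : ℝ)] with y hy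
  refine le_trans ?_ (h.upper hl one_pos hy)
  have := h.nonneg (y - 1) (by linarith)
  positivity

theorem WIData.exists_bound (h : WIData α A H) :
    ∃ M, ∀ u, 0 ≤ u → α u * Real.exp (-u) ≤ M := by
  have hP : ∃ l : ℝ, 0 < l ∧ 1 / 2 < wiP l 1 := by
    have h1 := (tendsto_P one_pos).eventually (lt_mem_nhds (show (1 / 2 : ℝ) < 1 by norm_num))
    obtain ⟨l, hl, hl2⟩ := (h1.and (eventually_gt_atTop 0)).exists
    exact ⟨l, hl2, hl⟩
  obtain ⟨l, hl, hP⟩ := hP
  have hL := (h.tendsto_L hl).eventually (gt_mem_nhds (show A < A + 1 by linarith))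
  obtain ⟨Y, hY⟩ := eventually_atTop.mp hL
  set U := max Y 0 with hU
  refine ⟨max (α U) (2 * Real.exp 2 * (A + 1)), fun u hu => ?_⟩
  rcases le_or_gt u U with h1 | h1
  · apply le_max_of_le_left
    have h2 : α u ≤ α U := h.mono hu (by simp [hU]) h1
    have h3 : Real.exp (-u) ≤ 1 := by rw [Real.exp_le_one_iff]; linarith
    calc α u * Real.exp (-u) ≤ α u := mul_le_of_le_one_right (h.nonneg u hu) h3
      _ ≤ α U := h2
  · apply le_max_of_le_right
    have hyY : Y ≤ u + 1 := by
      have := le_max_left Y 0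
      linarith
    have h2 := h.upper hl one_pos (y := u + 1) (by linarith)
    have h3 := hY (u + 1) hyY
    rw [show u + 1 - 1 = u by ring, show -(u + 1 + 1) = -u + -2 by ring, Real.exp_add] at h2
    have h4 := h.nonneg u hu
    have h5 : 0 ≤ α u * (Real.exp (-u) * Real.exp (-2)) := by positivity
    have h6 : α u * (Real.exp (-u) * Real.exp (-2)) * (1 / 2) ≤ A + 1 := by
      calc α u * (Real.exp (-u) * Real.exp (-2)) * (1 / 2)
          ≤ α u * (Real.exp (-u) * Real.exp (-2)) * wiP l 1 := by gcongr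
        _ ≤ A + 1 := by linarith
    have h7 : Real.exp 2 * Real.exp (-2) = 1 := by rw [← Real.exp_add]; simp
    calc α u * Real.exp (-u) = 2 * Real.exp 2 * (α u * (Real.exp (-u) * Real.exp (-2)) * (1 / 2)) := by
          linear_combination (-(α u * Real.exp (-u))) * h7
      _ ≤ 2 * Real.exp 2 * (A + 1) := by gcongr

/-- **Wiener-Ikehara theorem**, Laplace transform form. -/
theorem WIData.tendsto (h : WIData α A H) :
    Tendsto (fun u => α u * Real.exp (-u)) atTop (𝓝 A) := by
  have hA := h.A_nonneg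
  obtain ⟨M, hM⟩ := h.exists_bound
  have hM0 : 0 ≤ M := le_trans (mul_nonneg (h.nonneg 0 le_rfl) (Real.exp_pos _).le) (hM 0 le_rfl)
  rw [tendsto_order]
  constructor
  · intro a ha
    have hc : Continuous fun η : ℝ => Real.exp (-(2 * η)) * (A - η - M * η) := by fun_prop
    have h1 : ∀ᶠ η in 𝓝[>] (0 : ℝ), a < Real.exp (-(2 * η)) * (A - η - M * η) := by
      have := (hc.tendsto 0).mono_left (nhdsWithin_le_nhds (s := Ioi (0 : ℝ)))
      simp only [mul_zero, neg_zero, Real.exp_zero, sub_zero, one_mul] at this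
      exact this.eventually (lt_mem_nhds ha)
    obtain ⟨η, hη1, hη2⟩ := (h1.and (Ioo_mem_nhdsGT (show (0 : ℝ) < 1 by norm_num))).exists
    have hP := (tendsto_P hη2.1).eventually (lt_mem_nhds (show 1 - η < 1 by linarith [hη2.1]))
    obtain ⟨l, hPl, hl⟩ := (hP.and (eventually_gt_atTop 0)).exists
    have hL := (h.tendsto_L hl).eventually (lt_mem_nhds (show A - η < A by linarith [hη2.1]))
    obtain ⟨Y, hY⟩ := eventually_atTop.mp hL
    filter_upwards [eventually_ge_atTop (max Y 0 + 2)] with u hu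
    have hY0 := le_max_left Y 0
    have hY1 := le_max_right Y 0
    have h2 := hY (u - η) (by linarith [hη2.2])
    have h3 := h.lower hl hη2.1 (y := u - η) (by linarith [hη2.2]) hM
    rw [show u - η + η = u by ring, show -(u - η - η) = -u + 2 * η by ring, Real.exp_add] at h3
    have hP1 := wiP_le_one hl hη2.1
    have hu0 : 0 ≤ α u := h.nonneg u (by linarith)
    have h4 : α u * (Real.exp (-u) * Real.exp (2 * η)) * wiP l η
        ≤ α u * Real.exp (-u) * Real.exp (2 * η) := by
      rw [← mul_assoc]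
      exact mul_le_of_le_one_right (by positivity) hP1
    have h5 : M * (1 - wiP l η) ≤ M * η := by
      apply mul_le_mul_of_nonneg_left _ hM0
      linarith
    have h6 : A - η - M * η ≤ α u * Real.exp (-u) * Real.exp (2 * η) := by linarith
    have h7 : Real.exp (-(2 * η)) * Real.exp (2 * η) = 1 := by rw [← Real.exp_add]; simp
    calc a < Real.exp (-(2 * η)) * (A - η - M * η) := hη1
      _ ≤ Real.exp (-(2 * η)) * (α u * Real.exp (-u) * Real.exp (2 * η)) := by gcongr
      _ = α u * Real.exp (-u) := by linear_combination (α u * Real.exp (-u)) * h7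
  · intro a ha
    have hc : ContinuousAt (fun η : ℝ => Real.exp (2 * η) * (A + η) / (1 - η)) 0 := by
      apply ContinuousAt.div (by fun_prop) (by fun_prop) (by norm_num)
    have h1 : ∀ᶠ η in 𝓝[>] (0 : ℝ), Real.exp (2 * η) * (A + η) / (1 - η) < a := by
      have := hc.tendsto.mono_left (nhdsWithin_le_nhds (s := Ioi (0 : ℝ)))
      simp only [mul_zero, Real.exp_zero, sub_zero, one_mul, add_zero, div_one] at this
      exact this.eventually (gt_mem_nhds ha)
    obtain ⟨η, hη1, hη2⟩ := (h1.and (Ioo_mem_nhdsGT (show (0 : ℝ) < 1 by norm_num))).exists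
    have hP := (tendsto_P hη2.1).eventually (lt_mem_nhds (show 1 - η < 1 by linarith [hη2.1]))
    obtain ⟨l, hPl, hl⟩ := (hP.and (eventually_gt_atTop 0)).exists
    have hL := (h.tendsto_L hl).eventually (gt_mem_nhds (show A < A + η by linarith [hη2.1]))
    obtain ⟨Y, hY⟩ := eventually_atTop.mp hL
    filter_upwards [eventually_ge_atTop (max Y 0)] with u hu
    have hY0 := le_max_left Y 0
    have hY1 := le_max_right Y 0
    have h2 := hY (u + η) (by linarith [hη2.1])
    have h3 := h.upper hl hη2.1 (y := u + η) (by linarith)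
    rw [show u + η - η = u by ring, show -(u + η + η) = -u + -(2 * η) by ring, Real.exp_add] at h3
    have hu0 : 0 ≤ α u := h.nonneg u (by linarith)
    have h4 : α u * (Real.exp (-u) * Real.exp (-(2 * η))) * (1 - η)
        ≤ α u * (Real.exp (-u) * Real.exp (-(2 * η))) * wiP l η := by
      apply mul_le_mul_of_nonneg_left hPl.le
      positivity
    have h6 : α u * (Real.exp (-u) * Real.exp (-(2 * η))) * (1 - η) ≤ A + η := by linarith
    have h7 : Real.exp (2 * η) * Real.exp (-(2 * η)) = 1 := by rw [← Real.exp_add]; simp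
    have h8 : 0 < 1 - η := by linarith [hη2.2]
    calc α u * Real.exp (-u)
        = Real.exp (2 * η) * (α u * (Real.exp (-u) * Real.exp (-(2 * η))) * (1 - η)) / (1 - η) := by
          rw [eq_div_iff h8.ne']
          linear_combination (-(α u * Real.exp (-u) * (1 - η))) * h7
      _ ≤ Real.exp (2 * η) * (A + η) / (1 - η) := by gcongr
      _ < a := hη1

end Pool.Agent.Lib.PNT
end

-- from Lib.PNT.Dirichlet
section

/-!
# The Wiener-Ikehara theorem for Dirichlet series
-/

open Complex MeasureTheory Filter Topology Set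

namespace Pool.Agent.Lib.PNT

/-- The summatory function. -/
noncomputable def summ (a : ℕ → ℝ) (x : ℝ) : ℝ := ∑ k ∈ Finset.Icc 1 ⌊x⌋₊, a k

theorem summ_mono {a : ℕ → ℝ} (ha : ∀ n, 0 ≤ a n) : Monotone (summ a) := by
  intro x y hxy
  unfold summ
  apply Finset.sum_le_sum_of_subset_of_nonneg
  · exact Finset.Icc_subset_Icc_right (Nat.floor_le_floor hxy)
  · intro i _ _
    exact ha i

theorem summ_nonneg {a : ℕ → ℝ} (ha : ∀ n, 0 ≤ a n) (x : ℝ) : 0 ≤ summ a x :=
  Finset.sum_nonneg fun i _ => ha i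

theorem summ_le_rpow {a : ℕ → ℝ} (ha : ∀ n, 0 ≤ a n) {r : ℝ} (hr : 0 ≤ r)
    (hS : LSeriesSummable (fun n => (a n : ℂ)) r) :
    ∃ C, 0 ≤ C ∧ ∀ x : ℝ, 1 ≤ x → summ a x ≤ C * x ^ r := by
  have h1 : Summable fun n : ℕ => ‖LSeries.term (fun n => (a n : ℂ)) r n‖ := hS.norm
  refine ⟨∑' n : ℕ, ‖LSeries.term (fun n => (a n : ℂ)) r n‖, tsum_nonneg fun n => norm_nonneg _,
    fun x hx => ?_⟩
  have h2 : ∀ k ∈ Finset.Icc 1 ⌊x⌋₊, a k ≤ x ^ r * ‖LSeries.term (fun n => (a n : ℂ)) r k‖ := by
    intro k hk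
    rw [Finset.mem_Icc] at hk
    have hk0 : k ≠ 0 := by omega
    have hkpos : (0 : ℝ) < k := by exact_mod_cast hk.1
    have hkx : (k : ℝ) ≤ x := (Nat.le_floor_iff (by linarith)).mp hk.2
    rw [LSeries.norm_term_eq, if_neg hk0, Complex.norm_real, Real.norm_of_nonneg (ha k), ofReal_re]
    rw [mul_div_assoc', le_div_iff₀ (Real.rpow_pos_of_pos hkpos _), mul_comm]
    exact mul_le_mul_of_nonneg_right (Real.rpow_le_rpow hkpos.le hkx hr) (ha k)
  calc summ a x ≤ ∑ k ∈ Finset.Icc 1 ⌊x⌋₊, x ^ r * ‖LSeries.term (fun n => (a n : ℂ)) r k‖ :=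
        Finset.sum_le_sum h2
    _ = x ^ r * ∑ k ∈ Finset.Icc 1 ⌊x⌋₊, ‖LSeries.term (fun n => (a n : ℂ)) r k‖ := by
        rw [Finset.mul_sum]
    _ ≤ x ^ r * ∑' n : ℕ, ‖LSeries.term (fun n => (a n : ℂ)) r n‖ := by
        apply mul_le_mul_of_nonneg_left _ (by positivity)
        exact h1.sum_le_tsum _ fun i _ => norm_nonneg _
    _ = _ := mul_comm _ _

theorem wiData_of_dirichlet (a : ℕ → ℝ) (ha : ∀ n, 0 ≤ a n) (A : ℝ) (G : ℂ → ℂ)
    (hS : ∀ σ : ℝ, 1 < σ → LSeriesSummable (fun n => (a n : ℂ)) σ)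
    (hG : ContinuousOn G {s | 1 ≤ s.re})
    (hE : ∀ s : ℂ, 1 < s.re → LSeries (fun n => (a n : ℂ)) s = G s + A / (s - 1)) :
    WIData (fun u => summ a (Real.exp u)) A (fun s => (G s - A) / s) where
  mono := by
    intro u _ v _ huv
    exact summ_mono ha (Real.exp_le_exp.mpr huv)
  nonneg := fun u _ => summ_nonneg ha _
  int := by
    intro σ hσ
    obtain ⟨C, hC0, hC⟩ := summ_le_rpow ha (r := (1 + σ) / 2) (by linarith)
      (hS _ (by linarith))
    have hm : Measurable fun u => summ a (Real.exp u) :=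
      Monotone.measurable fun u v huv => summ_mono ha (Real.exp_le_exp.mpr huv)
    refine Integrable.mono' (g := fun u => C * Real.exp (-((σ - 1) / 2) * u))
      ((integrableOn_exp_mul_Ioi (by linarith) 0).const_mul C) ?_ ?_
    · exact Measurable.aestronglyMeasurable (by fun_prop)
    · filter_upwards [ae_restrict_mem measurableSet_Ioi] with u hu
      have hu0 : (0 : ℝ) < u := hu
      rw [Real.norm_of_nonneg (mul_nonneg (summ_nonneg ha _) (Real.exp_pos _).le)]
      have h1 := hC (Real.exp u) (by rw [Real.one_le_exp_iff]; exact hu0.le)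
      rw [← Real.exp_mul] at h1
      calc summ a (Real.exp u) * Real.exp (-(σ * u))
          ≤ C * Real.exp (u * ((1 + σ) / 2)) * Real.exp (-(σ * u)) := by gcongr
        _ = C * Real.exp (-((σ - 1) / 2) * u) := by
            rw [mul_assoc, ← Real.exp_add]; ring_nf
  cont := by
    apply ContinuousOn.div (hG.sub continuousOn_const) continuousOn_id
    intro s hs h0
    have : (1 : ℝ) ≤ s.re := hs
    rw [id] at h0
    rw [h0] at this
    simp at this
    linarith
  lap := by
    intro s hs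
    have hs0 : s ≠ 0 := by
      intro h0; rw [h0] at hs; simp at hs; linarith
    have hs1 : s - 1 ≠ 0 := by
      intro h0
      have : s = 1 := by linear_combination h0
      rw [this] at hs; simp at hs
    obtain ⟨C, hC0, hC⟩ := summ_le_rpow ha (r := (1 + s.re) / 2) (by linarith)
      (hS _ (by linarith))
    have hO : (fun n : ℕ => ∑ k ∈ Finset.Icc 1 n, a k) =O[atTop]
        fun n : ℕ => (n : ℝ) ^ ((1 + s.re) / 2) := by
      apply Asymptotics.IsBigO.of_bound C
      filter_upwards [eventually_ge_atTop 1] with n hn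
      have h1 := hC n (by exact_mod_cast hn)
      unfold summ at h1
      rw [Nat.floor_natCast] at h1
      rw [Real.norm_of_nonneg (Finset.sum_nonneg fun i _ => ha i),
        Real.norm_of_nonneg (by positivity)]
      exact h1
    have h1 := LSeries_eq_mul_integral_of_nonneg a (r := (1 + s.re) / 2) (by linarith)
      (s := s) (by linarith) hO ha
    have h2 := integral_comp_exp_Ioi
      (fun t : ℝ => (∑ k ∈ Finset.Icc 1 ⌊t⌋₊, (a k : ℂ)) * (t : ℂ) ^ (-(s + 1))) 0
    rw [Real.exp_zero] at h2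
    rw [← h2] at h1
    have h3 : ∫ x in Ioi (0 : ℝ), Real.exp x • ((∑ k ∈ Finset.Icc 1 ⌊Real.exp x⌋₊, (a k : ℂ)) *
        ((Real.exp x : ℝ) : ℂ) ^ (-(s + 1)))
        = ∫ u in Ioi (0 : ℝ), ((summ a (Real.exp u) : ℝ) : ℂ) * cexp (-(s * u)) := by
      apply integral_congr_ae
      refine Eventually.of_forall fun u => ?_
      simp only [summ, real_smul]
      push_cast
      have h4 : (cexp u) ^ (-(s + 1)) = cexp (-(s + 1) * u) := by
        rw [← ofReal_exp, Complex.cpow_def_of_ne_zero (by exact_mod_cast (Real.exp_pos u).ne'),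
          ← Complex.ofReal_log (Real.exp_pos u).le, Real.log_exp, mul_comm]
      rw [h4]
      have h5 : cexp (-(s * u)) = cexp u * cexp (-(s + 1) * u) := by
        rw [← Complex.exp_add]; ring_nf
      rw [h5]
      ring
    rw [h3, hE s hs] at h1
    have h6 : ∫ u in Ioi (0 : ℝ), ((summ a (Real.exp u) : ℝ) : ℂ) * cexp (-(s * u))
        = (G s + A / (s - 1)) / s := by
      rw [h1]; field_simp
    rw [h6]
    field_simp
    ring

/-- **Wiener-Ikehara theorem** for Dirichlet series with nonnegative coefficients. -/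
theorem wiener_ikehara (a : ℕ → ℝ) (ha : ∀ n, 0 ≤ a n) (A : ℝ) (G : ℂ → ℂ)
    (hS : ∀ σ : ℝ, 1 < σ → LSeriesSummable (fun n => (a n : ℂ)) σ)
    (hG : ContinuousOn G {s | 1 ≤ s.re})
    (hE : ∀ s : ℂ, 1 < s.re → LSeries (fun n => (a n : ℂ)) s = G s + A / (s - 1)) :
    Tendsto (fun x : ℝ => summ a x / x) atTop (𝓝 A) := by
  have h := (wiData_of_dirichlet a ha A G hS hG hE).tendsto
  refine (h.comp Real.tendsto_log_atTop).congr' ?_
  filter_upwards [eventually_gt_atTop 0] with x hx
  simp only [Function.comp]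
  rw [Real.exp_neg, Real.exp_log hx, div_eq_mul_inv]

/-- Wiener-Ikehara over the natural numbers. -/
theorem wiener_ikehara_nat (a : ℕ → ℝ) (ha : ∀ n, 0 ≤ a n) (A : ℝ) (G : ℂ → ℂ)
    (hS : ∀ σ : ℝ, 1 < σ → LSeriesSummable (fun n => (a n : ℂ)) σ)
    (hG : ContinuousOn G {s | 1 ≤ s.re})
    (hE : ∀ s : ℂ, 1 < s.re → LSeries (fun n => (a n : ℂ)) s = G s + A / (s - 1)) :
    Tendsto (fun n : ℕ => (∑ k ∈ Finset.Icc 1 n, a k) / n) atTop (𝓝 A) := by
  have h := (wiener_ikehara a ha A G hS hG hE).comp tendsto_natCast_atTop_atTop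
  refine h.congr fun n => ?_
  simp [summ]

end Pool.Agent.Lib.PNT
end

-- from Lib.PNT.PNT
section

/-!
# The prime number theorem, also in arithmetic progressions
-/

open Complex MeasureTheory Filter Topology Set

namespace Pool.Agent.Lib.PNT

/-- Chebyshev's theta function for the primes with property `P`. -/
noncomputable def thetaP (P : ℕ → Prop) [DecidablePred P] (x : ℝ) : ℝ :=
  ∑ p ∈ Finset.Ioc 0 ⌊x⌋₊ with p.Prime ∧ P p, Real.log p

/-- The number of primes up to `x` with property `P`. -/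
noncomputable def piP (P : ℕ → Prop) [DecidablePred P] (x : ℝ) : ℕ :=
  (Finset.filter (fun p => p.Prime ∧ P p) (Finset.Ioc 0 ⌊x⌋₊)).card

variable {P : ℕ → Prop} [DecidablePred P]




theorem thetaP_le (x : ℝ) : thetaP P x ≤ piP P x * Real.log x := by
  unfold thetaP piP
  rw [← nsmul_eq_mul, ← Finset.sum_const]
  apply Finset.sum_le_sum
  intro p hp
  rw [Finset.mem_filter, Finset.mem_Ioc] at hp
  have h0 : 0 < p := hp.1.1
  have hx : (p : ℝ) ≤ x := by
    have h1 : 0 < ⌊x⌋₊ := lt_of_lt_of_le h0 hp.1.2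
    have h2 : 0 ≤ x := by
      by_contra h
      rw [Nat.floor_of_nonpos (by linarith)] at h1
      exact lt_irrefl _ h1
    exact (Nat.le_floor_iff h2).mp hp.1.2
  exact Real.log_le_log (by exact_mod_cast h0) hx

theorem piP_le {x δ : ℝ} (hx : 1 < x) (hδ : δ < 1) :
    (piP P x : ℝ) ≤ x ^ (1 - δ) + thetaP P x / ((1 - δ) * Real.log x) := by
  have hlog : 0 < Real.log x := Real.log_pos hx
  have h1δ : 0 < 1 - δ := by linarith
  have hden : 0 < (1 - δ) * Real.log x := mul_pos h1δ hlog
  have h1 : (piP P x : ℝ) ≤ ∑ p ∈ Finset.Ioc 0 ⌊x⌋₊ with p.Prime ∧ P p,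
      ((if p ≤ ⌊x ^ (1 - δ)⌋₊ then (1 : ℝ) else 0) + Real.log p / ((1 - δ) * Real.log x)) := by
    unfold piP
    rw [Finset.card_eq_sum_ones, Nat.cast_sum]
    apply Finset.sum_le_sum
    intro p hp
    rw [Finset.mem_filter] at hp
    have hp1 : (0 : ℝ) < p := by exact_mod_cast hp.2.1.pos
    have hlp : 0 ≤ Real.log p / ((1 - δ) * Real.log x) :=
      div_nonneg (Real.log_natCast_nonneg p) hden.le
    split_ifs with h
    · push_cast; linarith
    · push Not at h
      have h2 : x ^ (1 - δ) < p := by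
        exact (Nat.floor_lt (by positivity)).mp h
      have h3 : (1 - δ) * Real.log x ≤ Real.log p := by
        rw [← Real.log_rpow (by linarith)]
        exact Real.log_le_log (by positivity) h2.le
      rw [zero_add, Nat.cast_one, le_div_iff₀ hden, one_mul]
      exact h3
  refine h1.trans ?_
  rw [Finset.sum_add_distrib]
  apply add_le_add
  · calc (∑ p ∈ Finset.Ioc 0 ⌊x⌋₊ with p.Prime ∧ P p, if p ≤ ⌊x ^ (1 - δ)⌋₊ then (1 : ℝ) else 0)
        ≤ ∑ p ∈ Finset.Ioc 0 ⌊x⌋₊, if p ≤ ⌊x ^ (1 - δ)⌋₊ then (1 : ℝ) else 0 := by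
          apply Finset.sum_le_sum_of_subset_of_nonneg (Finset.filter_subset _ _)
          intro i _ _
          split_ifs <;> norm_num
      _ = ((Finset.Ioc 0 ⌊x⌋₊).filter (fun p => p ≤ ⌊x ^ (1 - δ)⌋₊)).card := by
          rw [← Finset.sum_filter, Finset.sum_const, nsmul_eq_mul, mul_one]
      _ ≤ (Finset.Ioc 0 ⌊x ^ (1 - δ)⌋₊).card := by
          exact_mod_cast Finset.card_le_card (fun p hp => by
            rw [Finset.mem_filter, Finset.mem_Ioc] at hp
            rw [Finset.mem_Ioc]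
            exact ⟨hp.1.1, hp.2⟩)
      _ = (⌊x ^ (1 - δ)⌋₊ : ℝ) := by simp
      _ ≤ x ^ (1 - δ) := Nat.floor_le (by positivity)
  · rw [thetaP, Finset.sum_div]

theorem tendsto_piP {c : ℝ} (h : Tendsto (fun x : ℝ => thetaP P x / x) atTop (𝓝 c)) :
    Tendsto (fun x : ℝ => (piP P x : ℝ) * Real.log x / x) atTop (𝓝 c) := by
  rw [tendsto_order]
  constructor
  · intro a ha
    filter_upwards [h.eventually (lt_mem_nhds ha), eventually_gt_atTop 0] with x hx hx0
    refine hx.trans_le ?_
    exact div_le_div_of_nonneg_right (thetaP_le x) hx0.le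
  · intro a ha
    have hc : ContinuousAt (fun δ : ℝ => c / (1 - δ)) 0 :=
      ContinuousAt.div (by fun_prop) (by fun_prop) (by norm_num)
    have h1 : ∀ᶠ δ in 𝓝[>] (0 : ℝ), c / (1 - δ) < a := by
      have := hc.tendsto.mono_left (nhdsWithin_le_nhds (s := Ioi (0 : ℝ)))
      simp only [sub_zero, div_one] at this
      exact this.eventually (gt_mem_nhds ha)
    obtain ⟨δ, hδ1, hδ2⟩ := (h1.and (Ioo_mem_nhdsGT (show (0 : ℝ) < 1 by norm_num))).exists
    have h2 : Tendsto (fun x : ℝ => Real.log x / x ^ δ + thetaP P x / x / (1 - δ)) atTop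
        (𝓝 (0 + c / (1 - δ))) :=
      ((isLittleO_log_rpow_atTop hδ2.1).tendsto_div_nhds_zero).add (h.div_const _)
    rw [zero_add] at h2
    filter_upwards [h2.eventually (gt_mem_nhds hδ1), eventually_gt_atTop 1] with x hx hx1
    refine lt_of_le_of_lt ?_ hx
    have hlog : 0 < Real.log x := Real.log_pos hx1
    have hx0 : 0 < x := by linarith
    have h3 := piP_le (P := P) hx1 hδ2.2
    have h1δ : 0 < 1 - δ := by linarith [hδ2.2]
    have h4 : (piP P x : ℝ) * Real.log x / x
        ≤ (x ^ (1 - δ) + thetaP P x / ((1 - δ) * Real.log x)) * Real.log x / x := by gcongr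
    refine h4.trans (le_of_eq ?_)
    rw [Real.rpow_sub hx0, Real.rpow_one]
    have : x ^ δ ≠ 0 := (Real.rpow_pos_of_pos hx0 _).ne'
    field_simp






section AP

variable {q : ℕ} [NeZero q] {a : ZMod q}

open ArithmeticFunction ArithmeticFunction.vonMangoldt

theorem summ_residueClass_tendsto (ha : IsUnit a) :
    Tendsto (fun x : ℝ => summ (residueClass a) x / x) atTop (𝓝 (q.totient : ℝ)⁻¹) := by
  apply wiener_ikehara _ (fun n => residueClass_nonneg a n) _ (LFunctionResidueClassAux a)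
  · intro σ hσ
    apply LSeriesSummable_of_abscissaOfAbsConv_lt_re
    refine (abscissaOfAbsConv_residueClass_le_one a).trans_lt ?_
    rw [ofReal_re]
    exact_mod_cast hσ
  · exact continuousOn_LFunctionResidueClassAux a
  · intro s hs
    have h := eqOn_LFunctionResidueClassAux ha hs
    rw [h]
    push_cast
    ring

theorem summ_residueClass_sub_thetaP (x : ℝ) :
    |summ (residueClass a) x - thetaP (fun p => (p : ZMod q) = a) x|
      ≤ Chebyshev.psi x - Chebyshev.theta x := by
  have h1 : summ (residueClass a) x - thetaP (fun p => (p : ZMod q) = a) x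
      = ∑ n ∈ Finset.Ioc 0 ⌊x⌋₊ with ¬ n.Prime, residueClass a n := by
    unfold summ thetaP
    rw [show Finset.Icc 1 ⌊x⌋₊ = Finset.Ioc 0 ⌊x⌋₊ from rfl,
      ← Finset.sum_filter_add_sum_filter_not (Finset.Ioc 0 ⌊x⌋₊) (fun p => p.Prime)]
    have : ∑ n ∈ Finset.Ioc 0 ⌊x⌋₊ with n.Prime, residueClass a n
        = ∑ p ∈ Finset.filter (fun p : ℕ => p.Prime ∧ (p : ZMod q) = a) (Finset.Ioc 0 ⌊x⌋₊),
          Real.log p := by
      rw [Finset.sum_filter, Finset.sum_filter]
      apply Finset.sum_congr rfl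
      intro p _
      by_cases hp : p.Prime
      · by_cases h2 : (p : ZMod q) = a
        · rw [if_pos hp, if_pos ⟨hp, h2⟩]
          simp only [residueClass]
          rw [Set.indicator_of_mem (by exact h2), vonMangoldt_apply_prime hp]
        · rw [if_pos hp, if_neg (fun h => h2 h.2)]
          simp only [residueClass]
          rw [Set.indicator_of_notMem (by exact h2)]
      · rw [if_neg hp, if_neg (fun h => hp h.1)]
    rw [this]
    ring
  rw [h1, Chebyshev.psi_sub_theta_eq_sum_not_prime, abs_of_nonneg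
    (Finset.sum_nonneg fun n _ => residueClass_nonneg a n)]
  exact Finset.sum_le_sum fun n _ => residueClass_le a n

theorem psi_sub_theta_div_tendsto :
    Tendsto (fun x : ℝ => (Chebyshev.psi x - Chebyshev.theta x) / x) atTop (𝓝 0) := by
  obtain ⟨C, hC⟩ := Chebyshev.psi_sub_theta_le_mul_sqrt
  have h1 : Tendsto (fun x : ℝ => C * (x ^ (1 / 2 : ℝ))⁻¹) atTop (𝓝 (C * 0)) :=
    ((tendsto_rpow_atTop (by norm_num)).inv_tendsto_atTop).const_mul C
  rw [mul_zero] at h1
  refine squeeze_zero' ?_ ?_ h1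
  · filter_upwards [eventually_gt_atTop 0] with x hx
    have := Chebyshev.theta_le_psi x
    exact div_nonneg (by linarith) hx.le
  · filter_upwards [eventually_gt_atTop 0] with x hx
    rw [← Real.sqrt_eq_rpow, div_le_iff₀ hx]
    refine (hC x).trans (le_of_eq ?_)
    have h2 : √x ≠ 0 := (Real.sqrt_pos.mpr hx).ne'
    have h3 : √x * √x = x := Real.mul_self_sqrt hx.le
    field_simp
    linear_combination C * h3

/-- **Prime number theorem in arithmetic progressions**, theta form. -/
theorem thetaAP_tendsto (ha : IsUnit a) :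
    Tendsto (fun x : ℝ => thetaP (fun p => (p : ZMod q) = a) x / x) atTop
      (𝓝 (q.totient : ℝ)⁻¹) := by
  have h1 := summ_residueClass_tendsto ha
  have h2 : Tendsto (fun x : ℝ => (summ (residueClass a) x
      - thetaP (fun p => (p : ZMod q) = a) x) / x) atTop (𝓝 0) := by
    rw [tendsto_zero_iff_abs_tendsto_zero]
    refine squeeze_zero' (Eventually.of_forall fun x => abs_nonneg _) ?_ psi_sub_theta_div_tendsto
    filter_upwards [eventually_gt_atTop 0] with x hx
    simp only [Function.comp]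
    rw [abs_div, abs_of_pos hx]
    exact div_le_div_of_nonneg_right (summ_residueClass_sub_thetaP x) hx.le
  have h3 := h1.sub h2
  rw [sub_zero] at h3
  refine h3.congr fun x => ?_
  ring



end AP

/-- **Prime number theorem**, theta form. -/
theorem theta_tendsto : Tendsto (fun x : ℝ => Chebyshev.theta x / x) atTop (𝓝 1) := by
  have h := thetaAP_tendsto (q := 1) (a := 0) (by rw [isUnit_iff_eq_one]; rfl)
  simp only [Nat.totient_one, Nat.cast_one, inv_one] at h
  refine h.congr fun x => ?_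
  congr 1
  unfold thetaP Chebyshev.theta
  apply Finset.sum_congr _ fun _ _ => rfl
  ext p
  rw [Finset.mem_filter, Finset.mem_filter]
  constructor
  · rintro ⟨h1, h2, _⟩; exact ⟨h1, h2⟩
  · rintro ⟨h1, h2⟩; exact ⟨h1, h2, Subsingleton.elim _ _⟩


theorem piP_true (x : ℝ) : piP (fun _ => True) x = Nat.primeCounting ⌊x⌋₊ := by
  unfold piP
  rw [Nat.primeCounting, Nat.primeCounting', Nat.count_eq_card_filter_range]
  congr 1
  ext p
  rw [Finset.mem_filter, Finset.mem_filter, Finset.mem_Ioc, Finset.mem_range]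
  constructor
  · rintro ⟨h1, h2, _⟩; exact ⟨by omega, h2⟩
  · rintro ⟨h1, h2⟩; exact ⟨⟨h2.pos, by omega⟩, h2, trivial⟩

theorem thetaP_true (x : ℝ) : thetaP (fun _ => True) x = Chebyshev.theta x := by
  unfold thetaP Chebyshev.theta
  apply Finset.sum_congr _ fun _ _ => rfl
  ext p
  rw [Finset.mem_filter, Finset.mem_filter]
  constructor
  · rintro ⟨h1, h2, _⟩; exact ⟨h1, h2⟩
  · rintro ⟨h1, h2⟩; exact ⟨h1, h2, trivial⟩

theorem thetaP_true_tendsto :
    Tendsto (fun x : ℝ => thetaP (fun _ => True) x / x) atTop (𝓝 1) := by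
  simp_rw [thetaP_true]
  exact theta_tendsto

/-- **Prime number theorem**, counting form. -/
theorem primeCounting_tendsto :
    Tendsto (fun x : ℝ => (Nat.primeCounting ⌊x⌋₊ : ℝ) * Real.log x / x) atTop (𝓝 1) := by
  have h := tendsto_piP thetaP_true_tendsto
  simp_rw [piP_true] at h
  exact h

/-- **Prime number theorem**, counting form, along the natural numbers. -/
theorem primeCounting_nat_tendsto :
    Tendsto (fun n : ℕ => (Nat.primeCounting n : ℝ) * Real.log n / n) atTop (𝓝 1) := by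
  have h := primeCounting_tendsto.comp tendsto_natCast_atTop_atTop
  refine h.congr fun n => ?_
  simp



end Pool.Agent.Lib.PNT
end

-- from Lib.CFTC.C6
section

/-! # CFT module C, chunk C6: from weights log n to the counting function (pure) -/

open Filter Topology

namespace CFTC

/-- PROOF. Put `B n = ∑ k ≤ n, b k`, `W n = ∑ k ≤ n, b k log k`. Then `W n ≤ B n log n`, and for `0 < δ < 1`: `B n ≤ B ⌊n^(1-δ)⌋ + W n / ((1 - δ) log n)`, and `B m ≤ W m / log 2 ≤ C m` (because `b 1 = 0`),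
so `B n log n / n ≤ C n^(-δ) log n + (W n / n) / (1 - δ)`. Hence `B n log n / n → 1` (compare `Pool.Agent.Lib.PNT.tendsto_piP`, `piP_le` in Lib/PNT/PNT.lean); divide by
`Pool.Agent.Lib.PNT.primeCounting_nat_tendsto`. -/
theorem transfer {b : ℕ → ℝ} (hb : ∀ n, 0 ≤ b n) (h1 : b 1 = 0)
    (h : Tendsto (fun n : ℕ => (∑ k ∈ Finset.Icc 1 n, b k * Real.log k) / (n : ℝ)) atTop (𝓝 1)) :
    Tendsto (fun n : ℕ => (∑ k ∈ Finset.Icc 1 n, b k) / (Nat.primeCounting n : ℝ)) atTop (𝓝 1) := by
  have hlog2 : 0 < Real.log 2 := Real.log_pos (by norm_num)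
  have hlogk : ∀ k : ℕ, 0 ≤ Real.log (k : ℝ) := fun k => Real.log_natCast_nonneg k
  obtain ⟨C, hC⟩ := h.bddAbove_range
  have hC' : ∀ n : ℕ, (∑ k ∈ Finset.Icc 1 n, b k * Real.log k) ≤ |C| * n := by
    intro n
    rcases Nat.eq_zero_or_pos n with rfl | hn
    · simp
    · have h2 : (∑ k ∈ Finset.Icc 1 n, b k * Real.log k) / (n : ℝ) ≤ C := hC ⟨n, rfl⟩
      have hn' : (0 : ℝ) < n := Nat.cast_pos.2 hn
      rw [div_le_iff₀ hn'] at h2
      exact h2.trans (mul_le_mul_of_nonneg_right (le_abs_self C) hn'.le)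
  have hB : ∀ m : ℕ, (∑ k ∈ Finset.Icc 1 m, b k) ≤ |C| / Real.log 2 * m := by
    intro m
    have h3 : (∑ k ∈ Finset.Icc 1 m, b k) ≤ (∑ k ∈ Finset.Icc 1 m, b k * Real.log k) / Real.log 2 := by
      rw [Finset.sum_div]
      refine Finset.sum_le_sum fun k hk => ?_
      rw [le_div_iff₀ hlog2]
      rcases Nat.lt_or_ge k 2 with hk2 | hk2
      · have hk1 : k = 1 := by
          have := (Finset.mem_Icc.1 hk).1
          omega
        rw [hk1, h1, zero_mul, zero_mul]
      · refine mul_le_mul_of_nonneg_left (Real.log_le_log (by norm_num) ?_) (hb k)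
        exact_mod_cast hk2
    refine h3.trans ?_
    have h4 := hC' m
    rw [div_mul_eq_mul_div]
    exact div_le_div_of_nonneg_right h4 hlog2.le
  have hkey : ∀ (n : ℕ) (δ : ℝ), 2 ≤ n → 0 < δ → δ < 1 → (∑ k ∈ Finset.Icc 1 n, b k) ≤
      |C| / Real.log 2 * (n : ℝ) ^ (1 - δ) + (∑ k ∈ Finset.Icc 1 n, b k * Real.log k) / ((1 - δ) * Real.log n) := by
    intro n δ hn hδ0 hδ1
    have hn1 : (1 : ℝ) < n := by exact_mod_cast hn
    have hn0 : (0 : ℝ) < n := by linarith
    have hlogn : 0 < Real.log n := Real.log_pos hn1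
    have hden : 0 < (1 - δ) * Real.log n := mul_pos (by linarith) hlogn
    rw [← Finset.sum_filter_add_sum_filter_not (Finset.Icc 1 n) (fun k => k ≤ ⌊(n : ℝ) ^ (1 - δ)⌋₊)]
    refine add_le_add ?_ ?_
    · have h5 : (∑ k ∈ Finset.Icc 1 n with k ≤ ⌊(n : ℝ) ^ (1 - δ)⌋₊, b k) ≤ ∑ k ∈ Finset.Icc 1 ⌊(n : ℝ) ^ (1 - δ)⌋₊, b k := by
        refine Finset.sum_le_sum_of_subset_of_nonneg ?_ fun k _ _ => hb k
        intro k hk
        rw [Finset.mem_filter, Finset.mem_Icc] at hk
        exact Finset.mem_Icc.2 ⟨hk.1.1, hk.2⟩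
      refine h5.trans ((hB _).trans ?_)
      exact mul_le_mul_of_nonneg_left (Nat.floor_le (Real.rpow_nonneg hn0.le _)) (by positivity)
    · have h6 : (∑ k ∈ Finset.Icc 1 n with ¬ k ≤ ⌊(n : ℝ) ^ (1 - δ)⌋₊, b k) ≤
          ∑ k ∈ Finset.Icc 1 n with ¬ k ≤ ⌊(n : ℝ) ^ (1 - δ)⌋₊, (b k * Real.log k) / ((1 - δ) * Real.log n) := by
        refine Finset.sum_le_sum fun k hk => ?_
        rw [Finset.mem_filter, not_le] at hk
        have h7 : (n : ℝ) ^ (1 - δ) < k := Nat.lt_of_floor_lt hk.2
        have h8 : (1 - δ) * Real.log n ≤ Real.log k := by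
          rw [← Real.log_rpow hn0]
          exact Real.log_le_log (Real.rpow_pos_of_pos hn0 _) h7.le
        rw [le_div_iff₀ hden]
        exact mul_le_mul_of_nonneg_left h8 (hb k)
      refine h6.trans ?_
      rw [Finset.sum_div]
      refine Finset.sum_le_sum_of_subset_of_nonneg (Finset.filter_subset _ _) fun k _ _ => ?_
      exact div_nonneg (mul_nonneg (hb k) (hlogk k)) hden.le
  have hmain : Tendsto (fun n : ℕ => (∑ k ∈ Finset.Icc 1 n, b k) * Real.log n / n) atTop (𝓝 1) := by
    rw [tendsto_order]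
    constructor
    · intro a ha
      filter_upwards [h.eventually (lt_mem_nhds ha), eventually_gt_atTop 0] with n hn hn0
      refine hn.trans_le (div_le_div_of_nonneg_right ?_ (Nat.cast_nonneg n))
      rw [Finset.sum_mul]
      refine Finset.sum_le_sum fun k hk => ?_
      refine mul_le_mul_of_nonneg_left ?_ (hb k)
      have hk1 := Finset.mem_Icc.1 hk
      exact Real.log_le_log (by exact_mod_cast hk1.1) (by exact_mod_cast hk1.2)
    · intro a ha
      have hc : ContinuousAt (fun δ : ℝ => 1 / (1 - δ)) 0 :=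
        ContinuousAt.div (by fun_prop) (by fun_prop) (by norm_num)
      have h9 : ∀ᶠ δ in 𝓝[>] (0 : ℝ), 1 / (1 - δ) < a := by
        have := hc.tendsto.mono_left (nhdsWithin_le_nhds (s := Set.Ioi (0 : ℝ)))
        simp only [sub_zero, div_one] at this
        exact this.eventually (gt_mem_nhds ha)
      obtain ⟨δ, hδ1, hδ2⟩ := (h9.and (Ioo_mem_nhdsGT (show (0 : ℝ) < 1 by norm_num))).exists
      have h10 : Tendsto (fun n : ℕ => |C| / Real.log 2 * (Real.log n / (n : ℝ) ^ δ) +
          (∑ k ∈ Finset.Icc 1 n, b k * Real.log k) / (n : ℝ) / (1 - δ)) atTop (𝓝 (|C| / Real.log 2 * 0 + 1 / (1 - δ))) := by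
        refine Tendsto.add (Tendsto.const_mul _ ?_) (h.div_const _)
        exact ((isLittleO_log_rpow_atTop hδ2.1).tendsto_div_nhds_zero).comp tendsto_natCast_atTop_atTop
      rw [mul_zero, zero_add] at h10
      filter_upwards [h10.eventually (gt_mem_nhds hδ1), eventually_ge_atTop 2] with n hn hn2
      refine lt_of_le_of_lt ?_ hn
      have hn1 : (1 : ℝ) < n := by exact_mod_cast hn2
      have hn0 : (0 : ℝ) < n := by linarith
      have hlogn : 0 < Real.log n := Real.log_pos hn1
      have h11 := hkey n δ hn2 hδ2.1 hδ2.2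
      have h1δ : 0 < 1 - δ := by linarith [hδ2.2]
      have h12 : (∑ k ∈ Finset.Icc 1 n, b k) * Real.log n / n ≤ (|C| / Real.log 2 * (n : ℝ) ^ (1 - δ) +
          (∑ k ∈ Finset.Icc 1 n, b k * Real.log k) / ((1 - δ) * Real.log n)) * Real.log n / n := by gcongr
      refine h12.trans (le_of_eq ?_)
      rw [Real.rpow_sub hn0, Real.rpow_one]
      have h13 : (n : ℝ) ^ δ ≠ 0 := (Real.rpow_pos_of_pos hn0 _).ne'
      field_simp
  have hdiv := hmain.div Pool.Agent.Lib.PNT.primeCounting_nat_tendsto one_ne_zero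
  rw [div_one] at hdiv
  refine hdiv.congr' ?_
  filter_upwards [eventually_ge_atTop 2] with n hn
  have hn1 : (1 : ℝ) < n := by exact_mod_cast hn
  have hn0 : (n : ℝ) ≠ 0 := by linarith
  have hlogn : Real.log n ≠ 0 := (Real.log_pos hn1).ne'
  rw [Pi.div_apply, div_div_div_cancel_right₀ hn0, mul_div_mul_right _ _ hlogn]


end CFTC
end

-- from Lib.H41S.C1
section

/-! # H41S, C1: valuations of 1 - (root of unity of p-power order) -/

namespace H41S

variable (V : ValuationSubring ℂ) {p : ℕ}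

/-- PROOF. If z^k = 1, k > 0, then V(z) = 1 (V(z)^k = 1). For j arbitrary, 1 - z^j = (1 - z) (1 + z + ... + z^(j-1)) (geom_sum_mul / mul_neg_geom_sum),
the second factor is in V. -/
theorem c1_le {z : ℂ} {k : ℕ} (hk : 0 < k) (hz : z ^ k = 1) (j : ℕ) : V.valuation (1 - z ^ j) ≤ V.valuation (1 - z) := by
  have h1 : V.valuation z ≤ 1 := by
    by_contra h
    push Not at h
    have h2 := one_lt_pow₀ h hk.ne'
    rw [← map_pow, hz, map_one] at h2
    exact lt_irrefl _ h2
  have hzV : z ∈ V := (V.valuation_le_one_iff z).1 h1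
  have h2 : V.valuation (∑ i ∈ Finset.range j, z ^ i) ≤ 1 :=
    (V.valuation_le_one_iff _).2 (sum_mem fun i _ => pow_mem hzV i)
  rw [← mul_neg_geom_sum z j, map_mul]
  exact mul_le_of_le_one_right' h2

/-- PROOF. c1_le for z, and for z^j: z = (z^j)^i with i j = 1 mod N (IsPrimitiveRoot, j coprime to N). -/
theorem c1_eq {z : ℂ} {N : ℕ} (hN : 0 < N) (hz : IsPrimitiveRoot z N) {j : ℕ} (hj : Nat.Coprime j N) :
    V.valuation (1 - z ^ j) = V.valuation (1 - z) := by
  refine le_antisymm (c1_le V hN hz.pow_eq_one j) ?_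
  have h1 := hz.pow_of_coprime j hj
  have : NeZero N := ⟨hN.ne'⟩
  obtain ⟨i, -, hi⟩ := h1.eq_pow_of_pow_eq_one hz.pow_eq_one
  have h2 := c1_le V hN h1.pow_eq_one i
  rwa [hi] at h2

/-- PROOF. The value at 1 of the cyclotomic polynomial is p (Polynomial.eval_one_cyclotomic_prime_pow) and it is the product of the 1 - ζ over the
primitive roots ζ (Polynomial.cyclotomic_eq_prod_X_sub_primitiveRoots); every primitive root is η^j, j coprime to N (IsPrimitiveRoot.eq_pow_of_mem_rootsOfUnity or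
IsPrimitiveRoot.isPrimitiveRoot_iff), so has V(1 - ζ) = V(1 - η) (c1_eq); their number is totient (p^(n+1)) = p^n (p - 1) (IsPrimitiveRoot.card_primitiveRoots, Nat.totient_prime_pow_succ). -/
theorem c1_root (hp : p.Prime) {n : ℕ} {η : ℂ} (hη : IsPrimitiveRoot η (p ^ (n + 1))) :
    V.valuation (1 - η) ^ (p ^ n * (p - 1)) = V.valuation (p : ℂ) := by
  have : Fact p.Prime := ⟨hp⟩
  have hN : 0 < p ^ (n + 1) := pow_pos hp.pos _
  have hNZ : NeZero (p ^ (n + 1)) := ⟨hN.ne'⟩
  have h1 := Polynomial.eval_one_cyclotomic_prime_pow (R := ℂ) (p := p) n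
  rw [Polynomial.cyclotomic_eq_prod_X_sub_primitiveRoots hη, Polynomial.eval_prod] at h1
  simp only [Polynomial.eval_sub, Polynomial.eval_X, Polynomial.eval_C] at h1
  rw [← h1, map_prod]
  have h2 : ∀ ζ ∈ primitiveRoots (p ^ (n + 1)) ℂ, V.valuation (1 - ζ) = V.valuation (1 - η) := by
    intro ζ hζ
    have h3 := isPrimitiveRoot_of_mem_primitiveRoots hζ
    obtain ⟨i, -, hi, rfl⟩ := (hη.isPrimitiveRoot_iff).1 h3
    exact c1_eq V hN hη hi
  rw [Finset.prod_congr rfl h2, Finset.prod_const, hη.card_primitiveRoots, Nat.totient_prime_pow_succ hp]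

/-- PROOF. η^(p^k) is a primitive p^(n+1-k)-th root (IsPrimitiveRoot.pow), n + 1 - k = (n - k) + 1, so by c1_root
V(1 - η^(p^k))^(p^(n-k) (p-1)) = V(p) = V(1 - η)^(p^n (p-1)) = (V(1 - η)^(p^k))^(p^(n-k) (p-1)); pow_left_inj₀ (the exponent is positive). Then η^(p^k m) = (η^(p^k))^m,
c1_eq. -/
theorem c1_pow (hp : p.Prime) {n k m : ℕ} {η : ℂ} (hη : IsPrimitiveRoot η (p ^ (n + 1))) (hk : k ≤ n) (hm : ¬ p ∣ m) :
    V.valuation (1 - η ^ (p ^ k * m)) = V.valuation (1 - η) ^ p ^ k := by
  have h1 : IsPrimitiveRoot (η ^ p ^ k) (p ^ (n - k + 1)) := by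
    refine hη.pow (pow_pos hp.pos _) ?_
    rw [← pow_add]
    congr 1
    omega
  have hcop : Nat.Coprime m (p ^ (n - k + 1)) :=
    Nat.Coprime.pow_right _ ((Nat.Prime.coprime_iff_not_dvd hp).2 hm).symm
  rw [pow_mul, c1_eq V (pow_pos hp.pos _) h1 hcop]
  have h2 := c1_root V hp h1
  have h3 := c1_root V hp hη
  have hexp : p ^ (n - k) * (p - 1) ≠ 0 := by
    have := hp.two_le
    exact Nat.mul_ne_zero (pow_pos hp.pos _).ne' (by omega)
  refine (pow_left_inj₀ zero_le' zero_le' hexp).1 ?_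
  rw [h2, ← h3, ← pow_mul]
  congr 1
  rw [← mul_assoc, ← pow_add]
  congr 2
  omega

/-- PROOF. c1_root: if V(1 - η) >= 1 then V(p) >= 1 (one_le_pow₀; the exponent is positive). -/
theorem c1_lt (hp : p.Prime) (hV : V.valuation (p : ℂ) < 1) {n : ℕ} {η : ℂ} (hη : IsPrimitiveRoot η (p ^ (n + 1))) :
    V.valuation (1 - η) < 1 ∧ 0 < V.valuation (1 - η) := by
  constructor
  · by_contra h
    push Not at h
    have h1 := one_le_pow₀ (n := p ^ n * (p - 1)) h
    rw [c1_root V hp hη] at h1
    exact absurd hV (not_lt.2 h1)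
  · rw [zero_lt_iff]
    intro h
    rw [map_eq_zero, sub_eq_zero] at h
    have h1 : 1 < p ^ (n + 1) := Nat.one_lt_pow (Nat.succ_ne_zero n) hp.one_lt
    exact hη.ne_one h1 h.symm

/-- PROOF. g = gcd(a, p^n) divides p^n so g = p^k, k < n ((Nat.dvd_prime_pow hp).1), a = p^k m, p does not divide m (otherwise p^(k+1) divides both a and p^n). c1_pow. -/
theorem c1_gcd (hp : p.Prime) {n a : ℕ} {η : ℂ} (hη : IsPrimitiveRoot η (p ^ (n + 1))) (hg : Nat.gcd a (p ^ n) < p ^ n) :
    V.valuation (1 - η ^ a) = V.valuation (1 - η) ^ Nat.gcd a (p ^ n) := by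
  obtain ⟨k, hkn, hk⟩ := (Nat.dvd_prime_pow hp).1 (Nat.gcd_dvd_right a (p ^ n))
  rw [hk] at hg ⊢
  have hkn' : k < n := (Nat.pow_lt_pow_iff_right hp.one_lt).1 hg
  obtain ⟨m, hm⟩ : p ^ k ∣ a := by
    rw [← hk]
    exact Nat.gcd_dvd_left _ _
  have hpm : ¬ p ∣ m := by
    rintro ⟨m', rfl⟩
    have h1 : p ^ (k + 1) ∣ a := ⟨m', by rw [hm, pow_succ]; ring⟩
    have h2 : p ^ (k + 1) ∣ p ^ n := pow_dvd_pow _ hkn'
    have h3 := Nat.dvd_gcd h1 h2
    rw [hk] at h3
    have h4 := Nat.le_of_dvd (pow_pos hp.pos _) h3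
    rw [pow_succ] at h4
    have h5 : p ^ k * 1 < p ^ k * p := (Nat.mul_lt_mul_left (pow_pos hp.pos _)).2 hp.one_lt
    omega
  rw [hm]
  exact c1_pow V hp hη hkn'.le hpm

end H41S
end

-- from Lib.H41S.C2
section

/-! # H41S, C2: the value of the polynomial at a primitive root -/

namespace H41S

variable (V : ValuationSubring ℂ) {p : ℕ}

theorem c2_aeval_mem (P : Polynomial V) (y : ℂ) (hy : V.valuation y ≤ 1) :
    V.valuation (Polynomial.aeval y P) ≤ 1 := by
  obtain ⟨y', rfl⟩ : ∃ y' : V, algebraMap V ℂ y' = y := ⟨⟨y, (V.valuation_le_one_iff y).1 hy⟩, rfl⟩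
  rw [Polynomial.aeval_algebraMap_apply]
  exact V.valuation_le_one _

/-- PROOF. X^N - 1 is monic (Polynomial.monic_X_pow_sub_C with C 1 = 1), D = (X^N - 1) Q + R in V[X], R = D %ₘ (X^N - 1) (Polynomial.modByMonic_add_div), deg R < N; aeval at the N distinct
numbers z^j, j < N, of R is 0 (both other terms are 0, (z^j)^N = 1), so R, mapped to ℂ[X] (V is injected), is 0 (Polynomial.card_roots' or Polynomial.eq_zero_of_natDegree_lt_card_of_eval_eq_zero';
injectivity IsPrimitiveRoot.pow_inj). So D = (X^N - 1) Q, aeval y D = (y^N - 1) aeval y Q and aeval y Q is in V: y = algebraMap of an element y' of V (valuation_le_one_iff), Polynomial.aeval_algebraMap_apply. -/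
theorem c2_poly {N : ℕ} (hN : 0 < N) {z : ℂ} (hz : IsPrimitiveRoot z N) (D : Polynomial V)
    (hD : ∀ j : ℕ, Polynomial.aeval (z ^ j) D = 0) (y : ℂ) (hy : V.valuation y ≤ 1) :
    V.valuation (Polynomial.aeval y D) ≤ V.valuation (y ^ N - 1) := by
  classical
  have hmon : (Polynomial.X ^ N - 1 : Polynomial V).Monic := by
    have := Polynomial.monic_X_pow_sub_C (1 : V) hN.ne'
    simpa using this
  have hdec := Polynomial.modByMonic_add_div D (Polynomial.X ^ N - 1 : Polynomial V)
  set R := D %ₘ (Polynomial.X ^ N - 1 : Polynomial V) with hR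
  set Q := D /ₘ (Polynomial.X ^ N - 1 : Polynomial V) with hQ
  have hdeg : R.natDegree < N := by
    have h1 : R.natDegree < (Polynomial.X ^ N - 1 : Polynomial V).natDegree := by
      refine Polynomial.natDegree_modByMonic_lt D hmon ?_
      intro h
      have := congrArg Polynomial.natDegree h
      have h2 : (Polynomial.X ^ N - 1 : Polynomial V).natDegree = N := by
        have := Polynomial.natDegree_X_pow_sub_C (n := N) (r := (1 : V))
        simpa using this
      rw [h2] at this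
      simp at this
      omega
    have h2 : (Polynomial.X ^ N - 1 : Polynomial V).natDegree = N := by
      have := Polynomial.natDegree_X_pow_sub_C (n := N) (r := (1 : V))
      simpa using this
    rwa [h2] at h1
  have hR0 : R = 0 := by
    have hinj : Function.Injective (algebraMap V ℂ) := Subtype.val_injective
    have hm : R.map (algebraMap V ℂ) = 0 := by
      refine Polynomial.eq_zero_of_natDegree_lt_card_of_eval_eq_zero' (R.map (algebraMap V ℂ))
        ((Finset.range N).image (fun j => z ^ j)) ?_ ?_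
      · intro w hw
        obtain ⟨j, -, rfl⟩ := Finset.mem_image.1 hw
        have h1 : Polynomial.aeval (z ^ j) R = 0 := by
          have h2 := congrArg (Polynomial.aeval (z ^ j)) hdec
          rw [map_add, map_mul, hD j] at h2
          have h3 : Polynomial.aeval (z ^ j) (Polynomial.X ^ N - 1 : Polynomial V) = 0 := by
            rw [map_sub, map_pow, Polynomial.aeval_X, map_one, ← pow_mul, mul_comm j N, pow_mul, hz.pow_eq_one, one_pow, sub_self]
          rw [h3, zero_mul, add_zero] at h2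
          exact h2
        rw [Polynomial.eval_map_algebraMap]
        exact h1
      · rw [Finset.card_image_of_injOn, Finset.card_range]
        · exact lt_of_le_of_lt Polynomial.natDegree_map_le hdeg
        · intro i hi j hj hij
          exact hz.pow_inj (Finset.mem_range.1 hi) (Finset.mem_range.1 hj) hij
    exact (Polynomial.map_eq_zero_iff hinj).1 hm
  have h4 := congrArg (Polynomial.aeval y) hdec
  rw [hR0, zero_add, map_mul, map_sub, map_pow, Polynomial.aeval_X, map_one] at h4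
  rw [← h4, map_mul]
  calc V.valuation (y ^ N - 1) * V.valuation (Polynomial.aeval y Q) ≤ V.valuation (y ^ N - 1) * 1 := by
        gcongr
        exact c2_aeval_mem V Q y hy
    _ = _ := mul_one _

/-- PROOF. (y - 1) divides P(y) - P(1) in V (Polynomial.sub_dvd_eval_sub), V(y - 1) < 1, V(P(1)) = 1. -/
theorem c2_unit (P : Polynomial V) (h1 : V.valuation (Polynomial.aeval (1 : ℂ) P) = 1) (y : ℂ) (hy : V.valuation (1 - y) < 1) :
    V.valuation (Polynomial.aeval y P) = 1 := by
  have hy1 : V.valuation y ≤ 1 := by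
    have : y = 1 - (1 - y) := by ring
    rw [this]
    refine (V.valuation.map_sub _ _).trans ?_
    rw [map_one]
    exact max_le le_rfl hy.le
  obtain ⟨y', rfl⟩ : ∃ y' : V, algebraMap V ℂ y' = y := ⟨⟨y, (V.valuation_le_one_iff y).1 hy1⟩, rfl⟩
  obtain ⟨c, hc⟩ := Polynomial.sub_dvd_eval_sub (R := V) y' 1 P
  have h2 : Polynomial.aeval (algebraMap V ℂ y') P = Polynomial.aeval (1 : ℂ) P + (algebraMap V ℂ y' - 1) * algebraMap V ℂ c := by
    have h3 := congrArg (algebraMap V ℂ) hc
    rw [map_sub, map_mul, map_sub, map_one] at h3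
    have h4 : Polynomial.aeval (algebraMap V ℂ y') P = algebraMap V ℂ (Polynomial.eval y' P) := by
      rw [Polynomial.aeval_algebraMap_apply, Polynomial.aeval_def]; simp [Polynomial.eval₂_eq_eval_map]
    have h5 : Polynomial.aeval (1 : ℂ) P = algebraMap V ℂ (Polynomial.eval 1 P) := by
      rw [← map_one (algebraMap V ℂ), Polynomial.aeval_algebraMap_apply, Polynomial.aeval_def]; simp [Polynomial.eval₂_eq_eval_map]
    rw [h4, h5]
    linear_combination h3
  rw [h2]
  have h6 : V.valuation ((algebraMap V ℂ y' - 1) * algebraMap V ℂ c) < 1 := by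
    rw [map_mul]
    have h7 : V.valuation (algebraMap V ℂ y' - 1) < 1 := by
      rw [V.valuation.map_sub_swap]; exact hy
    have h8 : V.valuation (algebraMap V ℂ c) ≤ 1 := V.valuation_le_one c
    calc V.valuation (algebraMap V ℂ y' - 1) * V.valuation (algebraMap V ℂ c) ≤ V.valuation (algebraMap V ℂ y' - 1) * 1 := by
          gcongr
      _ = V.valuation (algebraMap V ℂ y' - 1) := mul_one _
      _ < 1 := h7
  rw [Valuation.map_add_eq_of_lt_left _ (by rw [h1]; exact h6), h1]

/-- PROOF. Let π = V(1 - η) < 1, π > 0 (c1_lt). For j prime to p put y = η^j, V(y) = 1. (i) For w in R, not in A: 1 - β y^a = (1 - β) + β (1 - y^a), V(1 - y^a) < 1 (c1_le, c1_lt), so V = 1.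
(ii) For w in A: g = gcd(a, p^n) is at most the sum, so < p^n; V(1 - y^a) = π^g (c1_gcd for the primitive root η^j; V(1 - η^j) = π by c1_eq), and V(1 - β) <= V(p) = π^(p^n (p-1)) < π^g
(p^n (p - 1) >= p^n > g; pow_lt_pow_right_of_lt_one₀); 1 - β y^a = (1 - β) + β (1 - y^a), V(β) = 1: V = π^g. So V(prod over R) = π^S, S = the sum of the g_w over A (Finset.prod over R, factors outside A are 1).
(iii) D = P - prod (1 - C β' X^a) P' in V[X] (β' in V with value β; use Finset.prod over R.attach or choose β' w := if V(β w) <= 1 then .. else 0) vanishes at all powers of η^p, which is a primitive p^n-th root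
(IsPrimitiveRoot.pow): by c2_poly V(D(y)) <= V(y^(p^n) - 1) = π^(p^n) (c1_pow with k = n for the exponent p^n j) < π^S. (iv) V(P'(y)) = 1 (c2_unit), so V(prod * P'(y)) = π^S > V(D(y)), and V(P(y)) = π^S
(Valuation.map_add_eq_of_lt_right). -/
theorem c2_main (hp : p.Prime) (hV : V.valuation (p : ℂ) < 1) {n : ℕ} {η : ℂ} (hη : IsPrimitiveRoot η (p ^ (n + 1)))
    {ι : Type} (R A : Finset ι) (hA : A ⊆ R) (β : ι → ℂ) (a : ι → ℕ) (P P' : Polynomial V)
    (hβ : ∀ w ∈ R, V.valuation (β w) ≤ 1) (h1 : ∀ w ∈ R, w ∉ A → V.valuation (1 - β w) = 1)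
    (h2 : ∀ w ∈ A, V.valuation (1 - β w) ≤ V.valuation (p : ℂ))
    (hr : ∑ w ∈ A, Nat.gcd (a w) (p ^ n) < p ^ n) (hP' : V.valuation (Polynomial.aeval (1 : ℂ) P') = 1)
    (hc : ∀ j : ℕ, Polynomial.aeval (η ^ (p * j)) P =
      (∏ w ∈ R, (1 - β w * (η ^ (p * j)) ^ a w)) * Polynomial.aeval (η ^ (p * j)) P')
    (j : ℕ) (hj : ¬ p ∣ j) :
    V.valuation (Polynomial.aeval (η ^ j) P) = V.valuation (1 - η) ^ (∑ w ∈ A, Nat.gcd (a w) (p ^ n)) := by
  classical
  obtain ⟨hπ1, hπ0⟩ := c1_lt V hp hV hη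
  have hcop : Nat.Coprime j (p ^ (n + 1)) := Nat.Coprime.pow_right _ ((Nat.Prime.coprime_iff_not_dvd hp).2 hj).symm
  have hpos : 0 < p ^ (n + 1) := pow_pos hp.pos _
  have hy : IsPrimitiveRoot (η ^ j) (p ^ (n + 1)) := hη.pow_of_coprime j hcop
  have hπy : V.valuation (1 - η ^ j) = V.valuation (1 - η) := c1_eq V hpos hη hcop
  set y : ℂ := η ^ j with hydef
  have hyN : y ^ (p ^ (n + 1)) = 1 := hy.pow_eq_one
  have hpn : 0 < p ^ n := pow_pos hp.pos _
  have hyle : V.valuation y ≤ 1 := by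
    have : y = 1 - (1 - y) := by ring
    rw [this]
    refine (V.valuation.map_sub _ _).trans ?_
    rw [map_one, hπy]
    exact max_le le_rfl hπ1.le
  have hpw : ∀ k : ℕ, ∀ m : ℕ, m < k → V.valuation (1 - η) ^ k < V.valuation (1 - η) ^ m := fun k m hkm =>
    pow_lt_pow_right_of_lt_one₀ hπ0 hπ1 hkm
  -- the factors
  have hout : ∀ w ∈ R, w ∉ A → V.valuation (1 - β w * y ^ a w) = 1 := by
    intro w hw hwA
    have e : 1 - β w * y ^ a w = (1 - β w) + β w * (1 - y ^ a w) := by ring
    have hlt : V.valuation (β w * (1 - y ^ a w)) < V.valuation (1 - β w) := by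
      rw [h1 w hw hwA, map_mul]
      have hle := c1_le V hpos hyN (a w)
      rw [hπy] at hle
      calc V.valuation (β w) * V.valuation (1 - y ^ a w) ≤ 1 * V.valuation (1 - η) := by
            gcongr
            exact hβ w hw
        _ = V.valuation (1 - η) := one_mul _
        _ < 1 := hπ1
    rw [e, Valuation.map_add_eq_of_lt_left _ hlt, h1 w hw hwA]
  have hin : ∀ w ∈ A, V.valuation (1 - β w * y ^ a w) = V.valuation (1 - η) ^ Nat.gcd (a w) (p ^ n) := by
    intro w hw
    have hg : Nat.gcd (a w) (p ^ n) < p ^ n :=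
      lt_of_le_of_lt (Finset.single_le_sum (f := fun w => Nat.gcd (a w) (p ^ n)) (fun _ _ => Nat.zero_le _) hw) hr
    have hva := c1_gcd V hp hy hg
    rw [hπy] at hva
    have hple : V.valuation (1 - β w) < V.valuation (1 - η) ^ Nat.gcd (a w) (p ^ n) := by
      refine lt_of_le_of_lt (h2 w hw) ?_
      rw [← c1_root V hp hη]
      apply hpw
      calc Nat.gcd (a w) (p ^ n) < p ^ n * 1 := by simpa using hg
        _ ≤ p ^ n * (p - 1) := Nat.mul_le_mul_left _ (by have := hp.two_le; omega)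
    have hβ1 : V.valuation (β w) = 1 := by
      have e : β w = 1 - (1 - β w) := by ring
      have hlt : V.valuation (1 - β w) < V.valuation (1 : ℂ) := by
        rw [map_one]
        exact lt_of_lt_of_le hple (pow_le_one₀ zero_le hπ1.le)
      rw [e, Valuation.map_sub_eq_of_lt_left _ hlt, map_one]
    have e : 1 - β w * y ^ a w = (1 - β w) + β w * (1 - y ^ a w) := by ring
    have hval : V.valuation (β w * (1 - y ^ a w)) = V.valuation (1 - η) ^ Nat.gcd (a w) (p ^ n) := by
      rw [map_mul, hβ1, one_mul, hva]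
    rw [e, Valuation.map_add_eq_of_lt_right _ (by rw [hval]; exact hple), hval]
  have hprod : V.valuation (∏ w ∈ R, (1 - β w * y ^ a w)) = V.valuation (1 - η) ^ (∑ w ∈ A, Nat.gcd (a w) (p ^ n)) := by
    rw [map_prod, ← Finset.prod_subset hA (fun w hw hwA => hout w hw hwA), Finset.prod_congr rfl hin,
      Finset.prod_pow_eq_pow_sum]
  -- the polynomial D
  let β' : ι → V := fun w => if h : V.valuation (β w) ≤ 1 then ⟨β w, (V.valuation_le_one_iff _).1 h⟩ else 0
  have hβ' : ∀ w ∈ R, algebraMap V ℂ (β' w) = β w := by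
    intro w hw
    have : β' w = ⟨β w, (V.valuation_le_one_iff _).1 (hβ w hw)⟩ := dif_pos (hβ w hw)
    rw [this]
    rfl
  have hDx : ∀ x : ℂ, Polynomial.aeval x (P - (∏ w ∈ R, (1 - Polynomial.C (β' w) * Polynomial.X ^ a w)) * P') =
      Polynomial.aeval x P - (∏ w ∈ R, (1 - β w * x ^ a w)) * Polynomial.aeval x P' := by
    intro x
    rw [map_sub, map_mul, map_prod]
    congr 2
    refine Finset.prod_congr rfl (fun w hw => ?_)
    rw [map_sub, map_one, map_mul, map_pow, Polynomial.aeval_X, Polynomial.aeval_C, hβ' w hw]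
  have hz : IsPrimitiveRoot (η ^ p) (p ^ n) := hη.pow hpos (by rw [pow_succ, mul_comm])
  have hD := c2_poly V hpn hz (P - (∏ w ∈ R, (1 - Polynomial.C (β' w) * Polynomial.X ^ a w)) * P')
    (fun i => by rw [hDx, ← pow_mul, hc i, sub_self]) y hyle
  have hyp : V.valuation (y ^ (p ^ n) - 1) = V.valuation (1 - η) ^ p ^ n := by
    rw [V.valuation.map_sub_swap, hydef, ← pow_mul, mul_comm j, c1_pow V hp hη le_rfl hj]
  rw [hyp] at hD
  have hlt := lt_of_le_of_lt hD (hpw _ _ hr)
  rw [hDx] at hlt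
  have hP'y : V.valuation (Polynomial.aeval y P') = 1 := c2_unit V P' hP' y (by rw [hπy]; exact hπ1)
  have hmain : V.valuation ((∏ w ∈ R, (1 - β w * y ^ a w)) * Polynomial.aeval y P') = V.valuation (1 - η) ^ (∑ w ∈ A, Nat.gcd (a w) (p ^ n)) := by
    rw [map_mul, hprod, hP'y, mul_one]
  have e : Polynomial.aeval y P = (Polynomial.aeval y P - (∏ w ∈ R, (1 - β w * y ^ a w)) * Polynomial.aeval y P') +
      (∏ w ∈ R, (1 - β w * y ^ a w)) * Polynomial.aeval y P' := by ring
  rw [e, Valuation.map_add_eq_of_lt_right _ (by rw [hmain]; exact hlt), hmain]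

end H41S
end

-- from Lib.H57N.Defs
section

/-!
# H57N: base fields with cyclic p-extensions in which many anomalous primes ramify (module EXISTENCE of theorem (S), MP_f50388_nt)

See PROOF.md. Definitions (only Mathlib).
-/

open NumberField IsDedekindDomain

namespace H57N

/-- E is generated by C and B. -/
structure Cmp (C B E : Type) [Field C] [Field B] [Field E] [Algebra C E] [Algebra B E] : Prop where
  gen : IntermediateField.adjoin C (Set.range (algebraMap B E)) = ⊤

/-- The conductor of the cyclotomic field. -/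
def md (l : ℕ) (Q : Finset ℕ) : ℕ := l * ∏ q ∈ Q, q

/-- The prime numbers: p^(n+1) divides l - 1; the q in Q are 1 modulo p and primitive roots modulo l. -/
structure Prm (p n l : ℕ) (Q : Finset ℕ) : Prop where
  hp : p.Prime
  hl : l.Prime
  hpl : p ^ (n + 1) ∣ l - 1
  hq : ∀ q ∈ Q, q.Prime ∧ p ∣ q - 1 ∧ q ≠ l ∧ orderOf (q : ZMod l) = l - 1

/-- B/Q is cyclic of degree p^(n+1), unramified outside l and Q, ramified at the q in Q; B' is the subfield of degree p^n, unramified outside l;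
the q in Q are inert in B'. -/
structure Cy (p n l : ℕ) (Q : Finset ℕ) (B : Type) [Field B] [NumberField B] (B' : IntermediateField ℚ B) : Prop where
  gal : IsGalois ℚ B
  cyc : IsCyclic (B ≃ₐ[ℚ] B)
  deg : Module.finrank ℚ B = p ^ (n + 1)
  gal' : IsGalois ℚ B'
  deg' : Module.finrank ℚ B' = p ^ n
  unr : ∀ (w : HeightOneSpectrum (𝓞 B)) (r : ℕ), r.Prime → (r : 𝓞 B) ∈ w.asIdeal → r ≠ l → r ∉ Q → w.asIdeal.ramificationIdx ℤ = 1
  unr' : ∀ (w : HeightOneSpectrum (𝓞 B')) (r : ℕ), r.Prime → (r : 𝓞 B') ∈ w.asIdeal → r ≠ l → w.asIdeal.ramificationIdx ℤ = 1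
  ram : ∀ (w : HeightOneSpectrum (𝓞 B)) (q : ℕ), q ∈ Q → (q : 𝓞 B) ∈ w.asIdeal → w.asIdeal.ramificationIdx ℤ ≠ 1
  ine : ∀ (w : HeightOneSpectrum (𝓞 B')) (q : ℕ), q ∈ Q → (q : 𝓞 B') ∈ w.asIdeal → p ^ n ≤ w.asIdeal.inertiaDeg ℤ

/-- The group of the cyclotomic field of conductor m. -/
abbrev Zf (m : ℕ) : Type := CyclotomicField m ℚ

end H57N
end

-- from Lib.H57N.C1
section

/-! # H57N, chunk C1: characters of the cyclotomic group -/

open NumberField IsDedekindDomain

namespace H57N

/-- The cyclic group of order N. -/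
abbrev Cg (N : ℕ) : Type := Multiplicative (ZMod N)

/-- Auxiliary: the homomorphism of the group of units modulo a prime which maps a generator to a given element. -/
theorem c1_aux {q : ℕ} (hq : q.Prime) {A : Type} [CommGroup A] (c : A) (hc : c ^ (q - 1) = 1) :
    ∃ (u : (ZMod q)ˣ) (φ : (ZMod q)ˣ →* A), φ u = c ∧ ∀ x, ∃ k : ℤ, φ x = c ^ k := by
  have : Fact q.Prime := ⟨hq⟩
  obtain ⟨u, hu⟩ := IsCyclic.exists_generator (α := (ZMod q)ˣ)
  have hord : orderOf c ∣ orderOf u := by
    have h1 : orderOf u = Nat.card (ZMod q)ˣ := orderOf_eq_card_of_forall_mem_zpowers hu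
    have h2 : Nat.card (ZMod q)ˣ = q - 1 := by
      rw [Nat.card_eq_fintype_card, ZMod.card_units]
    rw [h1, h2]
    exact orderOf_dvd_of_pow_eq_one hc
  have h3 : monoidHomOfForallMemZpowers hu hord u = c := monoidHomOfForallMemZpowers_apply_gen hu hord
  refine ⟨u, monoidHomOfForallMemZpowers hu hord, h3, fun x => ?_⟩
  obtain ⟨k, hk⟩ := Subgroup.mem_zpowers_iff.1 (hu x)
  exact ⟨k, by rw [← hk, map_zpow, h3]⟩

/-- Auxiliary: the Chinese remainder theorem for units. -/
theorem c1_crt {ι : Type} [Fintype ι] (L : ι → ℕ) (hcop : Pairwise (Function.onFun Nat.Coprime L)) {m : ℕ}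
    (hm : m = ∏ i, L i) (hdvd : ∀ i, L i ∣ m) (y : ∀ i, (ZMod (L i))ˣ) :
    ∃ x : (ZMod m)ˣ, ∀ i, ZMod.unitsMap (hdvd i) x = y i := by
  subst hm
  let e := ZMod.prodEquivPi L hcop
  have he : ∀ a x, (ZMod.castHom (hdvd a) (ZMod (L a))) x = e x a := by
    intro a x
    have h1 : ZMod.castHom (hdvd a) (ZMod (L a)) = (Pi.evalRingHom (fun a => ZMod (L a)) a).comp
      (e : ZMod (∏ a, L a) →+* ∀ a, ZMod (L a)) := Subsingleton.elim _ _
    rw [h1]
    rfl
  let x : (ZMod (∏ a, L a))ˣ :=
    { val := e.symm (fun a => (y a : ZMod (L a)))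
      inv := e.symm (fun a => ((y a)⁻¹ : (ZMod (L a))ˣ))
      val_inv := by
        rw [← map_mul]
        have : (fun a => (y a : ZMod (L a))) * (fun a => (((y a)⁻¹ : (ZMod (L a))ˣ) : ZMod (L a))) = 1 := by
          funext a
          exact Units.mul_inv (y a)
        rw [this, map_one]
      inv_val := by
        rw [← map_mul]
        have : (fun a => (((y a)⁻¹ : (ZMod (L a))ˣ) : ZMod (L a))) * (fun a => (y a : ZMod (L a))) = 1 := by
          funext a
          exact Units.inv_mul (y a)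
        rw [this, map_one] }
  refine ⟨x, fun a => ?_⟩
  apply Units.ext
  show ZMod.castHom (hdvd a) (ZMod (L a)) (e.symm (fun a => (y a : ZMod (L a)))) = y a
  rw [he, RingEquiv.apply_symm_apply]

/-- Auxiliary: residues and the maps of the unit groups. -/
theorem c1_val {m r : ℕ} [NeZero m] (h : r ∣ m) (a : (ZMod m)ˣ) :
    (a : ZMod m).val ≡ 1 [MOD r] ↔ ZMod.unitsMap h a = 1 := by
  have h1 : ((ZMod.unitsMap h a : (ZMod r)ˣ) : ZMod r) = (((a : ZMod m).val : ℕ) : ZMod r) := by
    have h2 : ((ZMod.unitsMap h a : (ZMod r)ˣ) : ZMod r) = ZMod.castHom h (ZMod r) (a : ZMod m) := rfl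
    rw [h2]
    conv_lhs => rw [← ZMod.natCast_zmod_val (a : ZMod m)]
    rw [map_natCast]
  constructor
  · intro h2
    apply Units.ext
    rw [h1, Units.val_one, ← Nat.cast_one, ZMod.natCast_eq_natCast_iff]
    exact h2
  · intro h2
    rw [h2, Units.val_one, ← Nat.cast_one, eq_comm, ZMod.natCast_eq_natCast_iff] at h1
    exact h1

/-- Chunk C1 (S/M), only Mathlib. (ZMod l)ˣ is cyclic of order l - 1 (l prime; ZMod.card_units, IsCyclic instance): for a divisor N of l - 1 there is a surjection to the cyclic group of order N: choose a generator g (IsCyclic.exists_generator),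
zmodCyclicMulEquiv or the isomorphism Multiplicative (ZMod (l - 1)) ≃* (ZMod l)ˣ (zmodMulEquivOfGenerator), and the reduction ZMod.castHom (N ∣ l - 1). See H55C.Y17_surj (Lib/H55C/Y17.lean) for a similar proof (it can be used: with one prime). -/
theorem c1_one {l N : ℕ} (hl : l.Prime) (hN : N ∣ l - 1) : ∃ θ : (ZMod l)ˣ →* Cg N, Function.Surjective θ := by
  have hN0 : N ≠ 0 := by
    rintro rfl
    have h1 := Nat.eq_zero_of_zero_dvd hN
    have h2 := hl.two_le
    omega
  have : NeZero N := ⟨hN0⟩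
  let c : Cg N := Multiplicative.ofAdd (1 : ZMod N)
  have hc : c ^ (l - 1) = 1 := by
    have h1 : c ^ (l - 1) = Multiplicative.ofAdd ((l - 1) • (1 : ZMod N)) := rfl
    rw [h1, nsmul_eq_mul, mul_one]
    have h2 : (((l - 1 : ℕ)) : ZMod N) = 0 := (ZMod.natCast_eq_zero_iff _ _).2 hN
    rw [h2]
    rfl
  obtain ⟨u, φ, hu, -⟩ := c1_aux hl c hc
  refine ⟨φ, fun z => ⟨u ^ (Multiplicative.toAdd z).val, ?_⟩⟩
  rw [map_pow, hu]
  have h1 : c ^ (Multiplicative.toAdd z).val =
      Multiplicative.ofAdd ((Multiplicative.toAdd z).val • (1 : ZMod N)) := rfl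
  rw [h1, nsmul_eq_mul, mul_one, ZMod.natCast_zmod_val]
  rfl

/-- Chunk C1 (M), only Mathlib. For each q in Q there is a nontrivial homomorphism χ_q : (ZMod q)ˣ → Cg (p^(n+1)) with χ_q^p = 1: c1_one with N = p, followed by Cg p → Cg (p^(n+1)), the multiplication by p^n
(ZMod.lift or Multiplicative: the element ofAdd (p^n) has order p: zpowersHom / ZMod.lift p ⟨..⟩; or choose: the cyclic group Cg (p^(n+1)) has an element c of order p (orderOf_dvd, Cauchy: exists_prime_orderOf_dvd_card'), and Cg p ≃ zpowers c). θ from c1_one with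
N = p^(n+1). Θ a = θ (a mod l) * ∏ q ∈ Q, χ_q (a mod q), with a mod q = ZMod.unitsMap (h : q ∣ md l Q) a. The statement is written with the residues of natural numbers: the hypothesis (a : ZMod (md l Q)).val ≡ 1 [MOD r] for r ∣ md l Q says that
ZMod.unitsMap _ a = 1. (1) surjective: given c, u with θ u = c; the Chinese remainder theorem for md l Q = l * ∏ q gives a with a mod l = u and a mod q = 1 for q in Q (the primes l, q are different: coprime: Nat.Coprime.prod_right; ZMod.chineseRemainder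
and units of a product). (2) if a mod l = 1 then Θ a = ∏ χ_q (..), so its p-th power is 1. (3) md l Q = q * (md l Q / q) with coprime factors (q does not divide the other factors): there is a with a mod q = u, χ_q u ≠ 1, a mod (md l Q / q) = 1;
then a mod l = 1 and a mod q' = 1 for q' ≠ q in Q (they divide md l Q / q), so Θ a = χ_q u ≠ 1. -/
theorem c1_char {p n l : ℕ} {Q : Finset ℕ} (h : Prm p n l Q) : ∃ Θ : (ZMod (md l Q))ˣ →* Cg (p ^ (n + 1)),
    Function.Surjective Θ ∧
    (∀ a : (ZMod (md l Q))ˣ, (a : ZMod (md l Q)).val ≡ 1 [MOD l] → Θ a ^ p = 1) ∧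
    ∀ q ∈ Q, ∃ a : (ZMod (md l Q))ˣ, (a : ZMod (md l Q)).val ≡ 1 [MOD (md l Q / q)] ∧ Θ a ≠ 1 := by
  classical
  have hp := h.hp
  have hl := h.hl
  have : NeZero (p ^ (n + 1)) := ⟨pow_ne_zero _ hp.ne_zero⟩
  -- the element of order p
  let c : Cg (p ^ (n + 1)) := Multiplicative.ofAdd (((p ^ n : ℕ)) : ZMod (p ^ (n + 1)))
  have hcpow : ∀ k : ℕ, c ^ k = Multiplicative.ofAdd (((k * p ^ n : ℕ)) : ZMod (p ^ (n + 1))) := by
    intro k
    have h1 : c ^ k = Multiplicative.ofAdd (k • (((p ^ n : ℕ)) : ZMod (p ^ (n + 1)))) := rfl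
    rw [h1, nsmul_eq_mul, Nat.cast_mul]
  have hcp : c ^ p = 1 := by
    rw [hcpow]
    have h2 : (((p * p ^ n : ℕ)) : ZMod (p ^ (n + 1))) = 0 := by
      rw [ZMod.natCast_eq_zero_iff, pow_succ, mul_comm]
    rw [h2]
    rfl
  have hc1 : c ≠ 1 := by
    intro h1
    have h2 : (((p ^ n : ℕ)) : ZMod (p ^ (n + 1))) = 0 := h1
    rw [ZMod.natCast_eq_zero_iff] at h2
    have h3 := (Nat.pow_dvd_pow_iff_le_right hp.one_lt).1 h2
    omega
  have hχ : ∀ q : {q // q ∈ Q}, ∃ (u : (ZMod (q : ℕ))ˣ) (φ : (ZMod (q : ℕ))ˣ →* Cg (p ^ (n + 1))), φ u = c ∧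
      ∀ x, φ x ^ p = 1 := by
    intro q
    have h1 := h.hq q.1 q.2
    have h2 : c ^ ((q : ℕ) - 1) = 1 := by
      obtain ⟨k, hk⟩ := h1.2.1
      rw [hk, pow_mul, hcp, one_pow]
    obtain ⟨u, φ, h3, h4⟩ := c1_aux h1.1 c h2
    refine ⟨u, φ, h3, fun x => ?_⟩
    obtain ⟨k, hk⟩ := h4 x
    rw [hk, ← zpow_natCast, ← zpow_mul, mul_comm, zpow_mul, zpow_natCast, hcp, one_zpow]
  choose u χ hu hχp using hχ
  obtain ⟨θ, hθ⟩ := c1_one hl h.hpl
  -- the family of the primes
  let L : Option {q // q ∈ Q} → ℕ := fun i => i.elim l (fun q => (q : ℕ))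
  have hLp : ∀ i, (L i).Prime := by
    intro i
    cases i with
    | none => exact hl
    | some q => exact (h.hq q.1 q.2).1
  have hLinj : Function.Injective L := by
    intro i j hij
    cases i with
    | none =>
      cases j with
      | none => rfl
      | some q => exact absurd (show l = (q : ℕ) from hij).symm (h.hq q.1 q.2).2.2.1
    | some q =>
      cases j with
      | none => exact absurd (show (q : ℕ) = l from hij) (h.hq q.1 q.2).2.2.1
      | some q' => exact congrArg some (Subtype.ext (show (q : ℕ) = (q' : ℕ) from hij))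
  have hcop : Pairwise (Function.onFun Nat.Coprime L) := by
    intro a b hab
    exact (Nat.coprime_primes (hLp a) (hLp b)).2 (fun h1 => hab (hLinj h1))
  have hm : md l Q = ∏ i, L i := by
    rw [Fintype.prod_option]
    have h1 : ∏ i : {q // q ∈ Q}, L (some i) = ∏ i : {q // q ∈ Q}, (i : ℕ) := rfl
    rw [h1, Finset.prod_coe_sort Q (fun q => q)]
    rfl
  have hm0 : md l Q ≠ 0 := by
    rw [hm]
    exact Finset.prod_ne_zero_iff.2 fun i _ => (hLp i).ne_zero
  have : NeZero (md l Q) := ⟨hm0⟩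
  have hdvd : ∀ i, L i ∣ md l Q := by
    intro i
    rw [hm]
    exact Finset.dvd_prod_of_mem L (Finset.mem_univ i)
  have hdl : l ∣ md l Q := hdvd none
  have hdq : ∀ q : {q // q ∈ Q}, (q : ℕ) ∣ md l Q := fun q => hdvd (some q)
  let Θ : (ZMod (md l Q))ˣ →* Cg (p ^ (n + 1)) :=
    (θ.comp (ZMod.unitsMap hdl)) * ∏ q : {q // q ∈ Q}, (χ q).comp (ZMod.unitsMap (hdq q))
  have hΘ : ∀ x, Θ x = θ (ZMod.unitsMap hdl x) * ∏ q : {q // q ∈ Q}, χ q (ZMod.unitsMap (hdq q) x) := by
    intro x
    have h1 : Θ x = θ (ZMod.unitsMap hdl x) *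
      (∏ q : {q // q ∈ Q}, (χ q).comp (ZMod.unitsMap (hdq q)) : (ZMod (md l Q))ˣ →* Cg (p ^ (n + 1))) x := rfl
    rw [h1, MonoidHom.finsetProd_apply]
    rfl
  refine ⟨Θ, ?_, ?_, ?_⟩
  · intro z
    obtain ⟨w, hw⟩ := hθ z
    let y : ∀ i, (ZMod (L i))ˣ := fun i => match i with
      | none => w
      | some _ => 1
    obtain ⟨x, hx⟩ := c1_crt L hcop hm hdvd y
    refine ⟨x, ?_⟩
    rw [hΘ]
    have h1 : ZMod.unitsMap hdl x = w := hx none
    have h2 : ∏ q : {q // q ∈ Q}, χ q (ZMod.unitsMap (hdq q) x) = 1 := by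
      refine Finset.prod_eq_one fun q _ => ?_
      have h3 : ZMod.unitsMap (hdq q) x = 1 := hx (some q)
      rw [h3, map_one]
    rw [h1, h2, mul_one, hw]
  · intro a ha
    have h1 := (c1_val hdl a).1 ha
    rw [hΘ, h1, map_one, one_mul, ← Finset.prod_pow]
    exact Finset.prod_eq_one fun q _ => hχp q _
  · intro q hq
    let q' : {q // q ∈ Q} := ⟨q, hq⟩
    let y : ∀ i, (ZMod (L i))ˣ := Function.update (fun _ => 1) (some q') (u q')
    obtain ⟨x, hx⟩ := c1_crt L hcop hm hdvd y
    have hy : ∀ i, i ≠ some q' → y i = 1 := fun i hi => Function.update_of_ne hi _ _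
    have hyq : y (some q') = u q' := Function.update_self _ _ _
    refine ⟨x, ?_, ?_⟩
    · have h1 : md l Q / q = ∏ i ∈ Finset.univ.erase (some q'), L i := by
        have h2 : L (some q') * ∏ i ∈ Finset.univ.erase (some q'), L i = ∏ i, L i :=
          Finset.mul_prod_erase Finset.univ L (Finset.mem_univ _)
        have h3 : L (some q') = q := rfl
        rw [hm, ← h2, h3]
        exact Nat.mul_div_cancel_left _ (h.hq q hq).1.pos
      rw [h1]
      rw [Nat.modEq_iff_dvd, Nat.cast_prod]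
      refine Finset.prod_dvd_of_coprime ?_ ?_
      · intro i _ j _ hij
        exact Nat.isCoprime_iff_coprime.2 (hcop hij)
      · intro i hi
        have h2 : ZMod.unitsMap (hdvd i) x = 1 := by
          rw [hx i, hy i (Finset.mem_erase.1 hi).1]
        exact (Nat.modEq_iff_dvd.1 ((c1_val (hdvd i) x).2 h2))
    · rw [hΘ]
      have h1 : ZMod.unitsMap hdl x = 1 := by
        have h2 := hx none
        rw [hy none (fun h3 => Option.some_ne_none _ h3.symm)] at h2
        exact h2
      rw [h1, map_one, one_mul, Finset.prod_eq_single q']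
      · have h2 : ZMod.unitsMap (hdq q') x = u q' := by
          have h3 := hx (some q')
          rw [hyq] at h3
          exact h3
        rw [h2, hu]
        exact hc1
      · intro b _ hb
        have h2 : ZMod.unitsMap (hdq b) x = 1 := by
          have h3 := hx (some b)
          rw [hy (some b) (fun h4 => hb (Option.some_injective _ h4))] at h3
          exact h3
        rw [h2, map_one]
      · intro h2
        exact absurd (Finset.mem_univ _) h2

end H57N
end

-- from Lib.H57N.C2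
section

/-! # H57N, chunk C2: the character of the Galois group of the cyclotomic field; its fields -/

open NumberField IsDedekindDomain

namespace H57N

theorem md_ne {p n l : ℕ} {Q : Finset ℕ} (h : Prm p n l Q) : NeZero (md l Q) :=
  ⟨Nat.mul_ne_zero h.hl.ne_zero (Finset.prod_ne_zero_iff.2 fun q hq => (h.hq q hq).1.ne_zero)⟩

theorem c2_pow {M : Type*} [Monoid M] {x : M} {d m : ℕ} (hd : d ∣ m) (hx : x ^ d = 1) : x ^ m = 1 := by
  obtain ⟨c, rfl⟩ := hd
  rw [pow_mul, hx, one_pow]

/-- Chunk C2 (S/M). Compose Θ of c1_char with IsCyclotomicExtension.Rat.galEquivZMod (md l Q) (Zf (md l Q)) : Gal ≃* (ZMod (md l Q))ˣ. (Θ' σ with the hypothesis that σ fixes all x with x^l = 1: let ζ be a primitive root of unity of order md l Q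
(IsCyclotomicExtension.zeta_spec), a = galEquivZMod σ, x = ζ^(md l Q / l) has x^l = 1, so x = σ x = x^(a.val) (galEquivZMod_apply_of_pow_eq; x^(md l Q) = 1), and x is a primitive l-th root of unity (IsPrimitiveRoot.pow), so a.val ≡ 1 mod l
(IsPrimitiveRoot.pow_inj / orderOf). Conversely if a.val ≡ 1 mod d then σ x = x^(a.val) = x for all x with x^d = 1, d ∣ md l Q.) -/
theorem c2_gal {p n l : ℕ} {Q : Finset ℕ} (h : Prm p n l Q) : ∃ ρ : (Zf (md l Q) ≃ₐ[ℚ] Zf (md l Q)) →* Cg (p ^ (n + 1)),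
    Function.Surjective ρ ∧
    (∀ σ, (∀ x : Zf (md l Q), x ^ l = 1 → σ x = x) → ρ σ ^ p = 1) ∧
    ∀ q ∈ Q, ∃ σ, (∀ x : Zf (md l Q), x ^ (md l Q / q) = 1 → σ x = x) ∧ ρ σ ≠ 1 := by
  obtain ⟨Θ, hΘ, hl1, hq1⟩ := c1_char h
  have hne : NeZero (md l Q) := md_ne h
  have hcyc : IsCyclotomicExtension {md l Q} ℚ (Zf (md l Q)) := CyclotomicField.isCyclotomicExtension (md l Q) ℚ
  have hdl : l ∣ md l Q := Dvd.intro _ rfl
  let e := IsCyclotomicExtension.Rat.galEquivZMod (md l Q) (Zf (md l Q))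
  refine ⟨Θ.comp e.toMonoidHom, hΘ.comp e.surjective, ?_, ?_⟩
  · intro σ hσ
    have key : ((e σ : (ZMod (md l Q))ˣ) : ZMod (md l Q)).val ≡ 1 [MOD l] := by
      have hζ := IsCyclotomicExtension.zeta_spec (md l Q) ℚ (Zf (md l Q))
      have hx : IsPrimitiveRoot (IsCyclotomicExtension.zeta (md l Q) ℚ (Zf (md l Q)) ^ (md l Q / l)) l :=
        hζ.pow (Nat.pos_of_ne_zero hne.ne) (Nat.div_mul_cancel hdl).symm
      have h1 := hσ _ hx.pow_eq_one
      have hxm : (IsCyclotomicExtension.zeta (md l Q) ℚ (Zf (md l Q)) ^ (md l Q / l)) ^ (md l Q) = 1 := by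
        exact c2_pow hdl hx.pow_eq_one
      have h2 := IsCyclotomicExtension.Rat.galEquivZMod_apply_of_pow_eq (md l Q) (Zf (md l Q)) σ hxm
      rw [h1] at h2
      have hfo : IsOfFinOrder (IsCyclotomicExtension.zeta (md l Q) ℚ (Zf (md l Q)) ^ (md l Q / l)) :=
        isOfFinOrder_iff_pow_eq_one.2 ⟨l, h.hl.pos, hx.pow_eq_one⟩
      have h3 := hfo.pow_eq_pow_iff_modEq.1 (h2.symm.trans (pow_one _).symm)
      rw [← hx.eq_orderOf] at h3
      exact h3
    exact hl1 (e σ) key
  · intro q hq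
    obtain ⟨a, ha, hne1⟩ := hq1 q hq
    have hdq : q ∣ md l Q := Dvd.dvd.mul_left (Finset.dvd_prod_of_mem (fun q => q) hq) _
    refine ⟨e.symm a, ?_, ?_⟩
    · intro x hx
      have hxm : x ^ (md l Q) = 1 := by
        exact c2_pow (Nat.div_dvd_of_dvd hdq) hx
      have h2 := IsCyclotomicExtension.Rat.galEquivZMod_apply_of_pow_eq (md l Q) (Zf (md l Q)) (e.symm a) hxm
      have h3 : IsCyclotomicExtension.Rat.galEquivZMod (md l Q) (Zf (md l Q)) (e.symm a) = a := e.apply_symm_apply a
      rw [h2, h3, pow_eq_pow_mod _ hx, ha, ← pow_eq_pow_mod _ hx, pow_one]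
    · intro h1
      refine hne1 ?_
      have h3 : e (e.symm a) = a := e.apply_symm_apply a
      have h4 : Θ (e (e.symm a)) = 1 := h1
      rwa [h3] at h4

/-- Chunk C2 (M), only Mathlib. Z/ℚ finite Galois, ρ : Gal(Z/ℚ) → Cg (p^(n+1)) surjective: B = fixedField ρ.ker: IsGalois.of_fixedField_normal_subgroup, Gal(B/ℚ) ≃ Gal(Z/ℚ) ⧸ ker ρ ≃ Cg (IsGalois.normalAutEquivQuotient,
QuotientGroup.quotientKerEquivOfSurjective; as in aq2_abelian, H28T/AQ2.lean), so cyclic of order p^(n+1) (isCyclic_of_surjective, Nat.card). B' : IntermediateField ℚ B is the fixed field of the subgroup P of Gal(B/ℚ) of the elements g with g^p = 1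
((powMonoidHom p).ker, the group is commutative: IsCyclic.commGroup; or P = the range of g ↦ g^(p^n)); it has order p (in a cyclic group of order p^(n+1): IsCyclic.card_pow_eq_one_eq... / IsCyclic.card_powMonoidHom_ker...), so [B : B'] = p
(IntermediateField.finrank_fixedField_eq_card) and [B' : ℚ] = p^n; Galois over ℚ since P is normal. fix: σ x = x for all x in B iff σ in ker ρ (IntermediateField.mem_fixedField_iff, fixingSubgroup_fixedField). fix': if ρ(σ)^p = 1, then ρ(σ^p) = 1, so σ^p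
fixes B, so the restriction g of σ to B (AlgEquiv.restrictNormalHom B, restrictNormal_commutes) has g^p = 1, g ∈ P, so g x = x for x in B'. -/
theorem c2_fields {p n : ℕ} (hp : p.Prime) (Z : Type) [Field Z] [NumberField Z] [IsGalois ℚ Z] (ρ : (Z ≃ₐ[ℚ] Z) →* Cg (p ^ (n + 1)))
    (hρ : Function.Surjective ρ) : ∃ (B : IntermediateField ℚ Z) (B' : IntermediateField ℚ B),
      IsGalois ℚ B ∧ IsCyclic (B ≃ₐ[ℚ] B) ∧ Module.finrank ℚ B = p ^ (n + 1) ∧ IsGalois ℚ B' ∧ Module.finrank ℚ B' = p ^ n ∧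
      (∀ σ : Z ≃ₐ[ℚ] Z, (∀ x : B, σ (x : Z) = x) ↔ ρ σ = 1) ∧
      ∀ σ : Z ≃ₐ[ℚ] Z, ρ σ ^ p = 1 → ∀ x : B', σ ((x : B) : Z) = ((x : B) : Z) := by
  have hp0 : NeZero (p ^ (n + 1)) := ⟨pow_ne_zero _ hp.ne_zero⟩
  have hnor : ρ.ker.Normal := ρ.normal_ker
  have hgal : IsGalois ℚ (IntermediateField.fixedField ρ.ker) := IsGalois.of_fixedField_normal_subgroup ρ.ker
  let e : Gal((IntermediateField.fixedField ρ.ker)/ℚ) ≃* Cg (p ^ (n + 1)) :=
    (IsGalois.normalAutEquivQuotient ρ.ker).symm.trans (QuotientGroup.quotientKerEquivOfSurjective ρ hρ)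
  have hcyc : IsCyclic Gal((IntermediateField.fixedField ρ.ker)/ℚ) := e.isCyclic.2 inferInstance
  have hcard : Nat.card (Cg (p ^ (n + 1))) = p ^ (n + 1) := by
    rw [Nat.card_congr (Multiplicative.toAdd (α := ZMod (p ^ (n + 1)))), Nat.card_zmod]
  have hdeg : Module.finrank ℚ (IntermediateField.fixedField ρ.ker) = p ^ (n + 1) := by
    rw [← IsGalois.card_aut_eq_finrank, Nat.card_congr e.toEquiv, hcard]
  let P : Subgroup Gal((IntermediateField.fixedField ρ.ker)/ℚ) :=
    (powMonoidHom p : Cg (p ^ (n + 1)) →* Cg (p ^ (n + 1))).ker.comap e.toMonoidHom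
  have hPn : P.Normal := Subgroup.Normal.comap (MonoidHom.normal_ker _) _
  have hPcard : Nat.card P = p := by
    have h1 : Nat.card P = Nat.card (powMonoidHom p : Cg (p ^ (n + 1)) →* Cg (p ^ (n + 1))).ker := by
      refine Nat.card_congr ?_
      exact (e.toEquiv.subtypeEquiv fun a => Iff.rfl)
    rw [h1, IsCyclic.card_powMonoidHom_ker, hcard]
    exact Nat.gcd_eq_right (dvd_pow_self p (Nat.succ_ne_zero n))
  have hgal' : IsGalois ℚ (IntermediateField.fixedField P) := IsGalois.of_fixedField_normal_subgroup P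
  have hdeg' : Module.finrank ℚ (IntermediateField.fixedField P) = p ^ n := by
    have h1 := Module.finrank_mul_finrank ℚ (IntermediateField.fixedField P) (IntermediateField.fixedField ρ.ker)
    rw [IntermediateField.finrank_fixedField_eq_card, hPcard, hdeg] at h1
    exact Nat.eq_of_mul_eq_mul_right hp.pos (h1.trans (pow_succ p n))
  have hfix : ∀ σ : Z ≃ₐ[ℚ] Z, (∀ x : IntermediateField.fixedField ρ.ker, σ (x : Z) = x) ↔ ρ σ = 1 := by
    intro σ
    constructor
    · intro h
      have h1 : σ ∈ (IntermediateField.fixedField ρ.ker).fixingSubgroup :=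
        (IntermediateField.mem_fixingSubgroup_iff _ _).2 fun x hx => h ⟨x, hx⟩
      rw [IntermediateField.fixingSubgroup_fixedField] at h1
      exact h1
    · intro h x
      have h1 : σ ∈ ρ.ker := h
      rw [← IntermediateField.fixingSubgroup_fixedField ρ.ker] at h1
      exact (IntermediateField.mem_fixingSubgroup_iff _ _).1 h1 x x.2
  refine ⟨IntermediateField.fixedField ρ.ker, IntermediateField.fixedField P, hgal, hcyc, hdeg, hgal', hdeg', hfix, ?_⟩
  intro σ hσ x
  have h1 : ρ (σ ^ p) = 1 := by rw [map_pow, hσ]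
  have h2 := (hfix (σ ^ p)).2 h1
  let g : Gal((IntermediateField.fixedField ρ.ker)/ℚ) :=
    AlgEquiv.restrictNormalHom (IntermediateField.fixedField ρ.ker) σ
  have hg : g ^ p = 1 := by
    have h3 : g ^ p = AlgEquiv.restrictNormalHom (IntermediateField.fixedField ρ.ker) (σ ^ p) := by
      rw [map_pow]
    rw [h3]
    ext y
    have h4 := AlgEquiv.restrictNormal_commutes (σ ^ p) (IntermediateField.fixedField ρ.ker) y
    exact h4.trans (h2 y)
  have hgP : g ∈ P := by
    have h5 : (e g) ^ p = 1 := by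
      rw [← map_pow, hg, map_one]
    exact h5
  have h6 : g (x : IntermediateField.fixedField ρ.ker) = x := by
    have h7 := x.2
    rw [IntermediateField.mem_fixedField_iff] at h7
    exact h7 g hgP
  have h8 := AlgEquiv.restrictNormal_commutes σ (IntermediateField.fixedField ρ.ker) (x : IntermediateField.fixedField ρ.ker)
  have h9 : ((g (x : IntermediateField.fixedField ρ.ker) : IntermediateField.fixedField ρ.ker) : Z) = σ ((x : IntermediateField.fixedField ρ.ker) : Z) := h8
  rw [← h9, h6]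

end H57N
end

-- from Lib.H57N.C3
section

/-! # H57N, chunk C3: the inertia group in a cyclotomic field -/

open NumberField IsDedekindDomain

namespace H57N

theorem c3_root {R : Type*} [CommRing R] [IsDomain R] (P : Ideal R) (hP : P ≠ ⊤) {m' q : ℕ} (hm0 : m' ≠ 0)
    (hco : Nat.Coprime q m') (hq : (q : R) ∈ P) {y z : R} (hy : y ^ m' = 1) (hz : z ^ m' = 1) (h : z - y ∈ P) : z = y := by
  by_contra hne
  obtain ⟨η, hη⟩ : ∃ η, η = z * y ^ (m' - 1) := ⟨_, rfl⟩
  have hyy : y * y ^ (m' - 1) = 1 := by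
    rw [← pow_succ', Nat.sub_add_cancel (Nat.pos_of_ne_zero hm0), hy]
  have hη1 : η ≠ 1 := by
    intro h1
    apply hne
    calc z = (z * y ^ (m' - 1)) * y := by rw [mul_assoc, mul_comm (y ^ (m' - 1)) y, hyy, mul_one]
      _ = y := by rw [← hη, h1, one_mul]
  have hηm : η ^ m' = 1 := by
    rw [hη, mul_pow, hz, one_mul, ← pow_mul, mul_comm (m' - 1) m', pow_mul, hy, one_pow]
  have hηP : η - 1 ∈ P := by
    have e : η - 1 = (z - y) * y ^ (m' - 1) := by rw [sub_mul, hyy, hη]
    rw [e]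
    exact P.mul_mem_right _ h
  have hgeom : ∑ i ∈ Finset.range m', η ^ i = 0 := by
    have e := mul_geom_sum η m'
    rw [hηm, sub_self] at e
    exact (mul_eq_zero.1 e).resolve_left (sub_ne_zero.2 hη1)
  have hmP : (m' : R) ∈ P := by
    have e : ∑ i ∈ Finset.range m', (η ^ i - 1) ∈ P := P.sum_mem fun i _ => by
      have e2 := sub_dvd_pow_sub_pow η 1 i
      rw [one_pow] at e2
      exact P.mem_of_dvd e2 hηP
    rw [Finset.sum_sub_distrib, hgeom, Finset.sum_const, Finset.card_range, nsmul_eq_mul, mul_one, zero_sub] at e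
    exact (Submodule.neg_mem_iff P).1 e
  obtain ⟨a, b, hab⟩ := Nat.isCoprime_iff_coprime.2 hco
  apply hP
  rw [Ideal.eq_top_iff_one]
  have e : (1 : R) = (a : R) * q + (b : R) * m' := by
    have := congrArg (fun t : ℤ => (t : R)) hab
    push_cast at this
    exact this.symm
  rw [e]
  exact P.add_mem (P.mul_mem_left _ hq) (P.mul_mem_left _ hmP)

/-- Chunk C3 (M), only Mathlib. m = q * m', q prime, not dividing m'; Z the field of the m-th roots of unity, w a prime of Z above q, σ in Gal(Z/ℚ) fixing the m'-th roots of unity. Then σ is in the inertia group I of w. Proof by counting: let H be the subgroup of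
the σ with σ x = x for all x with x^m' = 1. (a) I ≤ H: let σ in I, x^m' = 1: σ x is an m'-th root of unity, σ x - x in w (x integral: x = algebraMap of y : 𝓞 Z); if σ x ≠ x then x⁻¹ σ x = η ≠ 1 is an m'-th root of unity and 1 - η in w, but 1 - η divides m'
(m' = ∏ (1 - η^i) type identity for the order of η, or: the polynomial X^(m') - 1 is separable modulo w: derivative m' x^(m'-1) is a unit modulo w; simplest: 1 + η + ... + η^(m'-1) = 0 and η = 1 mod w give m' = 0 mod w, so m' in w with q in w, m', q coprime,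
1 in w: contradiction). (b) |I| = ramification index = q - 1 (Ideal.card_inertia_eq_ramificationIdxIn, Ideal.ramificationIdxIn_eq_ramificationIdx, IsCyclotomicExtension.Rat.ramificationIdx_eq m with k = 0). (c) |H| ≤ q - 1: Gal(Z/ℚ) has order φ(m) = φ(m')(q - 1)
(IsCyclotomicExtension.Rat.galEquivZMod, ZMod.card_units_eq_totient, Nat.totient_mul, Nat.totient_prime); H is the kernel of the surjection to (ZMod m')ˣ: (galEquivZMod σ) followed by ZMod.unitsMap (m' ∣ m) (ZMod.unitsMap_surjective; kernel in terms of roots of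
unity with galEquivZMod_apply_of_pow_eq), so |H| = φ(m)/φ(m'). (d) I ≤ H, |H| ≤ |I|, finite: I = H (Subgroup.eq_of_le_of_card_ge). -/
theorem c3_inertia {m m' q : ℕ} (hm : m = q * m') (hq : q.Prime) (hm' : ¬ q ∣ m') (hm0 : m' ≠ 0)
    (w : HeightOneSpectrum (𝓞 (Zf m))) (hw : (q : 𝓞 (Zf m)) ∈ w.asIdeal) (σ : Zf m ≃ₐ[ℚ] Zf m)
    (hσ : ∀ x : Zf m, x ^ m' = 1 → σ x = x) : ∀ y : 𝓞 (Zf m), σ • y - y ∈ w.asIdeal := by
  haveI : Fact q.Prime := ⟨hq⟩
  haveI : NeZero m := ⟨by rw [hm]; exact mul_ne_zero hq.ne_zero hm0⟩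
  haveI : NeZero ((m : ℕ) : ℚ) := ⟨Nat.cast_ne_zero.2 (NeZero.ne m)⟩
  haveI : IsCyclotomicExtension {m} ℚ (Zf m) := CyclotomicField.isCyclotomicExtension m ℚ
  haveI : IsGalois ℚ (Zf m) := IsCyclotomicExtension.isGalois {m} ℚ (Zf m)
  haveI := w.isPrime
  have hco : Nat.Coprime q m' := (Nat.Prime.coprime_iff_not_dvd hq).2 hm'
  haveI hlo : w.asIdeal.LiesOver (Ideal.span {(q : ℤ)}) :=
    (Ideal.liesOver_span_iff Ideal.IsPrime.ne_top' (Nat.prime_iff_prime_int.1 hq)).mpr (by exact_mod_cast hw)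
  haveI : (Ideal.span {(q : ℤ)}).IsMaximal := by
    have e : Ideal.span {(q : ℤ)} = w.asIdeal.under ℤ := hlo.1
    rw [e]
    haveI := w.isMaximal
    exact Ideal.IsMaximal.under ℤ w.asIdeal
  haveI : Finite (ℤ ⧸ Ideal.span {(q : ℤ)}) := Ring.HasFiniteQuotients.finiteQuotient (by
    rw [Ne, Ideal.span_singleton_eq_bot]
    exact_mod_cast hq.ne_zero)
  have hI : Nat.card (w.asIdeal.inertia (Zf m ≃ₐ[ℚ] Zf m)) = q - 1 := by
    rw [Ideal.card_inertia_eq_ramificationIdxIn (Ideal.span {(q : ℤ)}) w.asIdeal,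
      IsCyclotomicExtension.Rat.ramificationIdxIn_eq (p := q) (k := 0) (m := m') m (Zf m) (by rw [hm]; ring) hm', pow_zero, one_mul]
  have hIH : ((w.asIdeal.inertia (Zf m ≃ₐ[ℚ] Zf m) : Subgroup (Zf m ≃ₐ[ℚ] Zf m)) : Set (Zf m ≃ₐ[ℚ] Zf m)) ⊆
      {σ | ∀ x : Zf m, x ^ m' = 1 → σ x = x} := by
    intro τ hτ x hx
    have hxi : IsIntegral ℤ x := by
      refine IsIntegral.of_pow (Nat.pos_of_ne_zero hm0) ?_
      rw [hx]
      exact isIntegral_one
    obtain ⟨y, rfl⟩ : ∃ y : 𝓞 (Zf m), algebraMap (𝓞 (Zf m)) (Zf m) y = x := ⟨⟨x, hxi⟩, rfl⟩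
    have hinj : Function.Injective (algebraMap (𝓞 (Zf m)) (Zf m)) := FaithfulSMul.algebraMap_injective _ _
    have hy : y ^ m' = 1 := by
      apply hinj
      rw [map_pow, hx, map_one]
    have hz : (τ • y) ^ m' = 1 := by
      rw [← smul_pow', hy, smul_one]
    have h1 := c3_root w.asIdeal Ideal.IsPrime.ne_top' hm0 hco hw hy hz (hτ y)
    exact congrArg (algebraMap (𝓞 (Zf m)) (Zf m)) h1
  have hroot : ∀ τ ∈ {σ : Zf m ≃ₐ[ℚ] Zf m | ∀ x : Zf m, x ^ m' = 1 → σ x = x},
      ((IsCyclotomicExtension.Rat.galEquivZMod m (Zf m) τ).val.val) ≡ 1 [MOD m'] := by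
    intro τ hτ
    have hζ := IsCyclotomicExtension.zeta_spec m ℚ (Zf m)
    have hξ : IsPrimitiveRoot (IsCyclotomicExtension.zeta m ℚ (Zf m) ^ q) m' := hζ.pow (NeZero.pos m) hm
    have h1 := IsCyclotomicExtension.Rat.galEquivZMod_apply_of_pow_eq m (Zf m) τ
      (x := IsCyclotomicExtension.zeta m ℚ (Zf m) ^ q) (by rw [← pow_mul, mul_comm, pow_mul, hζ.pow_eq_one, one_pow])
    rw [hτ _ hξ.pow_eq_one] at h1
    have h2 : (IsCyclotomicExtension.zeta m ℚ (Zf m) ^ q) ^ (IsCyclotomicExtension.Rat.galEquivZMod m (Zf m) τ).val.val =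
        (IsCyclotomicExtension.zeta m ℚ (Zf m) ^ q) ^ 1 := by rw [← h1, pow_one]
    rw [(hξ.isOfFinOrder hm0).pow_inj_mod, ← hξ.eq_orderOf] at h2
    exact h2
  have hinj : Set.InjOn (fun τ : Zf m ≃ₐ[ℚ] Zf m => ZMod.unitsMap (Dvd.intro m' hm.symm) (IsCyclotomicExtension.Rat.galEquivZMod m (Zf m) τ))
      {σ | ∀ x : Zf m, x ^ m' = 1 → σ x = x} := by
    intro τ hτ τ' hτ' he
    have e1 := (hroot τ hτ).trans (hroot τ' hτ').symm
    have e2 : (IsCyclotomicExtension.Rat.galEquivZMod m (Zf m) τ).val.val ≡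
        (IsCyclotomicExtension.Rat.galEquivZMod m (Zf m) τ').val.val [MOD q] := by
      have he' := congrArg Units.val he
      simp only [ZMod.unitsMap_val] at he'
      rw [← ZMod.natCast_eq_natCast_iff, ZMod.natCast_val, ZMod.natCast_val]
      exact he'
    have e3 := (Nat.modEq_and_modEq_iff_modEq_mul hco).1 ⟨e2, e1⟩
    rw [← hm, ← ZMod.natCast_eq_natCast_iff, ZMod.natCast_zmod_val, ZMod.natCast_zmod_val] at e3
    exact (IsCyclotomicExtension.Rat.galEquivZMod m (Zf m)).injective (Units.ext e3)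
  have hH : ({σ : Zf m ≃ₐ[ℚ] Zf m | ∀ x : Zf m, x ^ m' = 1 → σ x = x}).ncard ≤ q - 1 := by
    rw [← hinj.ncard_image]
    refine (Set.ncard_le_ncard (Set.subset_univ _) Set.finite_univ).trans ?_
    rw [Set.ncard_univ, Nat.card_eq_fintype_card, ZMod.card_units]
  have hEq := Set.eq_of_subset_of_ncard_le hIH (by
    refine hH.trans (le_of_eq ?_)
    rw [← hI]
    rfl) (Set.toFinite _)
  have hmem : σ ∈ ((w.asIdeal.inertia (Zf m ≃ₐ[ℚ] Zf m) : Subgroup (Zf m ≃ₐ[ℚ] Zf m)) : Set (Zf m ≃ₐ[ℚ] Zf m)) := by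
    rw [hEq]; exact hσ
  exact hmem

end H57N
end

-- from Lib.H57N.P4
section

/-! # H57N, chunk P4: general facts on primes -/

open NumberField IsDedekindDomain

namespace H57N

/-- Chunk P4 (S), only Mathlib. Ideal.ramificationIdx_tower and Ideal.inertiaDeg_tower with R = 𝓞 A, S = 𝓞 B, T = 𝓞 E, q = w, r = P (P.LiesOver w: ⟨hw⟩; Module.Flat (𝓞 B) (𝓞 E): torsion free over a Dedekind domain, an instance or
Module.Flat from Module.IsTorsionFree; compare e2 in x1_split, H55Z/X1.lean). -/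
theorem p4_tower {A B E : Type} [Field A] [NumberField A] [Field B] [NumberField B] [Field E] [NumberField E] [Algebra A B] [Algebra A E]
    [Algebra B E] [IsScalarTower A B E] (P : HeightOneSpectrum (𝓞 E)) (w : HeightOneSpectrum (𝓞 B)) (hw : w.asIdeal = P.asIdeal.under (𝓞 B)) :
    P.asIdeal.ramificationIdx (𝓞 A) = w.asIdeal.ramificationIdx (𝓞 A) * P.asIdeal.ramificationIdx (𝓞 B) ∧
      P.asIdeal.inertiaDeg (𝓞 A) = w.asIdeal.inertiaDeg (𝓞 A) * P.asIdeal.inertiaDeg (𝓞 B) := by
  have hP := P.isPrime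
  have hl : P.asIdeal.LiesOver w.asIdeal := ⟨hw⟩
  exact ⟨Ideal.ramificationIdx_tower (R := 𝓞 A) w.asIdeal P.asIdeal, Ideal.inertiaDeg_tower (R := 𝓞 A) w.asIdeal P.asIdeal⟩

/-- Chunk P4 (S), only Mathlib. The same with R = ℤ. -/
theorem p4_towerZ {B E : Type} [Field B] [NumberField B] [Field E] [NumberField E] [Algebra B E] (P : HeightOneSpectrum (𝓞 E))
    (w : HeightOneSpectrum (𝓞 B)) (hw : w.asIdeal = P.asIdeal.under (𝓞 B)) :
    P.asIdeal.ramificationIdx ℤ = w.asIdeal.ramificationIdx ℤ * P.asIdeal.ramificationIdx (𝓞 B) ∧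
      P.asIdeal.inertiaDeg ℤ = w.asIdeal.inertiaDeg ℤ * P.asIdeal.inertiaDeg (𝓞 B) := by
  have hP := P.isPrime
  have hl : P.asIdeal.LiesOver w.asIdeal := ⟨hw⟩
  exact ⟨Ideal.ramificationIdx_tower (R := ℤ) w.asIdeal P.asIdeal, Ideal.inertiaDeg_tower (R := ℤ) w.asIdeal P.asIdeal⟩

/-- Chunk P4 (S), only Mathlib. The prime below: P ∩ 𝓞 B is prime and not zero (Ideal.IsIntegral.comap_ne_bot; see ge_card in H28T/Gen.lean or aq3_ram in H28T/AQ3.lean). -/
theorem p4_below {B E : Type} [Field B] [NumberField B] [Field E] [NumberField E] [Algebra B E] (P : HeightOneSpectrum (𝓞 E)) :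
    ∃ w : HeightOneSpectrum (𝓞 B), w.asIdeal = P.asIdeal.under (𝓞 B) := by
  have hP := P.isPrime
  have hne : P.asIdeal.under (𝓞 B) ≠ ⊥ := fun h => P.ne_bot (Ideal.eq_bot_of_comap_eq_bot (R := 𝓞 B) (I := P.asIdeal) h)
  exact ⟨⟨P.asIdeal.under (𝓞 B), inferInstance, hne⟩, rfl⟩

/-- The ideal of a prime number below. -/
theorem p4_over {E : Type} [Field E] [NumberField E] {r : ℕ} (hr : r.Prime) (Q : Ideal (𝓞 E)) (hQ : Q.IsPrime) :
    (r : 𝓞 E) ∈ Q ↔ Q.LiesOver (Ideal.span {(r : ℤ)}) := by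
  have hF : Fact r.Prime := ⟨hr⟩
  have hm : (Ideal.span {(r : ℤ)}).IsMaximal := Int.ideal_span_isMaximal_of_prime r
  have hc : algebraMap ℤ (𝓞 E) (r : ℤ) = (r : 𝓞 E) := by simp
  constructor
  · intro h
    refine ⟨hm.eq_of_le (Ideal.IsPrime.ne_top inferInstance) ?_⟩
    rw [Ideal.span_singleton_le_iff_mem]
    show algebraMap ℤ (𝓞 E) (r : ℤ) ∈ Q
    rw [hc]
    exact h
  · intro h
    rw [← hc]
    exact (Ideal.mem_of_liesOver Q (Ideal.span {(r : ℤ)}) (r : ℤ)).1 (Ideal.mem_span_singleton_self _)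

/-- Chunk P4 (S), only Mathlib. A prime of E above a prime number: a maximal ideal containing (r) ≠ ⊤ (r is not a unit in 𝓞 E: its norm is r^[E:ℚ]; Ideal.exists_le_maximal), not ⊥ since r ≠ 0. -/
theorem p4_above (E : Type) [Field E] [NumberField E] {r : ℕ} (hr : r.Prime) : ∃ w : HeightOneSpectrum (𝓞 E), (r : 𝓞 E) ∈ w.asIdeal := by
  have hF : Fact r.Prime := ⟨hr⟩
  have hm : (Ideal.span {(r : ℤ)}).IsMaximal := Int.ideal_span_isMaximal_of_prime r
  have hb : Ideal.span {(r : ℤ)} ≠ ⊥ := by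
    rw [Ne, Ideal.span_singleton_eq_bot]
    exact_mod_cast hr.ne_zero
  obtain ⟨Q, hQ1, hQ2⟩ := Ideal.exists_maximal_ideal_liesOver_of_isIntegral (S := 𝓞 E) (Ideal.span {(r : ℤ)})
  exact ⟨⟨Q, hQ1.isPrime, Ideal.ne_bot_of_liesOver_of_ne_bot hb Q⟩, (p4_over hr Q hQ1.isPrime).2 hQ2⟩

/-- Chunk P4 (S), only Mathlib. The prime number in a prime: absNorm w is a power of a prime number or: some prime factor of absNorm w ∈ w (Ideal.absNorm_mem, w prime; Nat.recOnMul or induction on the factors; see mem_factor in H28T/A3.lean). -/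
theorem p4_char {E : Type} [Field E] [NumberField E] (w : HeightOneSpectrum (𝓞 E)) : ∃ r : ℕ, r.Prime ∧ (r : 𝓞 E) ∈ w.asIdeal := by
  have hwp := w.isPrime
  have hone : (1 : 𝓞 E) ∉ w.asIdeal := fun h => hwp.ne_top ((Ideal.eq_top_iff_one _).2 h)
  have key : ∀ n : ℕ, n ≠ 0 → (n : 𝓞 E) ∈ w.asIdeal → ∃ l : ℕ, l.Prime ∧ (l : 𝓞 E) ∈ w.asIdeal := by
    intro n
    induction n using Nat.strong_induction_on with
    | _ n ih =>
      intro hn hnw
      have h1 : n ≠ 1 := by
        rintro rfl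
        rw [Nat.cast_one] at hnw
        exact hone hnw
      obtain ⟨k, hk⟩ := Nat.minFac_dvd n
      have hp := Nat.minFac_prime h1
      have hnw' : ((n.minFac * k : ℕ) : 𝓞 E) ∈ w.asIdeal := by rw [← hk]; exact hnw
      rw [Nat.cast_mul] at hnw'
      rcases hwp.mem_or_mem hnw' with h2 | h2
      · exact ⟨n.minFac, hp, h2⟩
      · have hk0 : k ≠ 0 := by
          rintro rfl
          rw [mul_zero] at hk
          exact hn hk
        have hkn : k < n := by
          have h3 := hp.two_le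
          have h4 : 2 * k ≤ n.minFac * k := Nat.mul_le_mul_right k h3
          omega
        exact ih k hkn hk0 h2
  refine key (Ideal.absNorm w.asIdeal) ?_ (Ideal.absNorm_mem w.asIdeal)
  rw [Ne, Ideal.absNorm_eq_zero_iff]
  exact w.ne_bot

/-- Chunk P4 (S), only Mathlib. Bezout. -/
theorem p4_uniq {E : Type} [Field E] [NumberField E] (w : HeightOneSpectrum (𝓞 E)) {r s : ℕ} (hr : r.Prime) (hs : s.Prime)
    (h1 : (r : 𝓞 E) ∈ w.asIdeal) (h2 : (s : 𝓞 E) ∈ w.asIdeal) : r = s := by
  by_contra hne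
  have hc : IsCoprime (r : ℤ) (s : ℤ) := Nat.isCoprime_iff_coprime.2 ((Nat.coprime_primes hr hs).2 hne)
  obtain ⟨a, b, hab⟩ := hc
  have h3 := congrArg (fun z : ℤ => (z : 𝓞 E)) hab
  simp only [Int.cast_add, Int.cast_mul, Int.cast_natCast, Int.cast_one] at h3
  refine w.isPrime.ne_top ((Ideal.eq_top_iff_one _).2 ?_)
  rw [← h3]
  exact add_mem (Ideal.mul_mem_left _ _ h1) (Ideal.mul_mem_left _ _ h2)

/-- Chunk P4 (M), only Mathlib. The number of primes above q, if all residue degrees are at least f: sum of e_P f_P over the primes P above q is [E : ℚ] (Ideal.sum_ramification_inertia, deprecated: the current form is in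
Mathlib/RingTheory/RamificationInertia/Basic.lean; or: the absolute norm of (q) is q^[E:ℚ], divisible by the product of the norms of the different primes containing q, each at least q^f), each term is at least f. -/
theorem p4_count (E : Type) [Field E] [NumberField E] {q : ℕ} (hq : q.Prime) (f : ℕ)
    (hf : ∀ w : HeightOneSpectrum (𝓞 E), (q : 𝓞 E) ∈ w.asIdeal → f ≤ w.asIdeal.inertiaDeg ℤ) :
    {w : HeightOneSpectrum (𝓞 E) | (q : 𝓞 E) ∈ w.asIdeal}.Finite ∧
      {w : HeightOneSpectrum (𝓞 E) | (q : 𝓞 E) ∈ w.asIdeal}.ncard * f ≤ Module.finrank ℚ E := by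
  have hF : Fact q.Prime := ⟨hq⟩
  have hm : (Ideal.span {(q : ℤ)}).IsMaximal := Int.ideal_span_isMaximal_of_prime q
  have hmp := hm.isPrime
  have hb : Ideal.span {(q : ℤ)} ≠ ⊥ := by
    rw [Ne, Ideal.span_singleton_eq_bot]
    exact_mod_cast hq.ne_zero
  have hfin : ((Ideal.span {(q : ℤ)}).primesOver (𝓞 E)).Finite := IsDedekindDomain.primesOver_finite (Ideal.span {(q : ℤ)}) (𝓞 E)
  have hft : Fintype ((Ideal.span {(q : ℤ)}).primesOver (𝓞 E)) := hfin.fintype
  have hsum := Ideal.sum_ramification_inertia_eq_finrank (Ideal.span {(q : ℤ)}) (𝓞 E)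
  rw [RingOfIntegers.rank] at hsum
  have hmaps : Set.MapsTo (fun w : HeightOneSpectrum (𝓞 E) => w.asIdeal) {w : HeightOneSpectrum (𝓞 E) | (q : 𝓞 E) ∈ w.asIdeal}
      ((Ideal.span {(q : ℤ)}).primesOver (𝓞 E)) := by
    intro w hw
    exact ⟨w.isPrime, (p4_over hq w.asIdeal w.isPrime).1 hw⟩
  have hinj : Set.InjOn (fun w : HeightOneSpectrum (𝓞 E) => w.asIdeal) {w : HeightOneSpectrum (𝓞 E) | (q : 𝓞 E) ∈ w.asIdeal} := by
    intro w _ w' _ h
    exact HeightOneSpectrum.ext h
  refine ⟨Set.Finite.of_injOn hmaps hinj hfin, ?_⟩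
  have h1 : {w : HeightOneSpectrum (𝓞 E) | (q : 𝓞 E) ∈ w.asIdeal}.ncard ≤ ((Ideal.span {(q : ℤ)}).primesOver (𝓞 E)).ncard :=
    Set.ncard_le_ncard_of_injOn _ hmaps hinj hfin
  have h2 : ∀ Q : (Ideal.span {(q : ℤ)}).primesOver (𝓞 E), f ≤ Q.1.ramificationIdx ℤ * Q.1.inertiaDeg ℤ := by
    intro Q
    have hQp : Q.1.IsPrime := Q.2.1
    have hQl : Q.1.LiesOver (Ideal.span {(q : ℤ)}) := Q.2.2
    have h3 := hf ⟨Q.1, hQp, Ideal.ne_bot_of_liesOver_of_ne_bot hb Q.1⟩ ((p4_over hq Q.1 hQp).2 hQl)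
    have h4 : 0 < Q.1.ramificationIdx ℤ := Ideal.ramificationIdx_pos Q.1 ℤ
    exact h3.trans (Nat.le_mul_of_pos_left _ h4)
  have h3 : Fintype.card ((Ideal.span {(q : ℤ)}).primesOver (𝓞 E)) * f ≤ Module.finrank ℚ E := by
    rw [← hsum, ← Finset.card_univ, ← smul_eq_mul, ← Finset.sum_const]
    exact Finset.sum_le_sum fun Q _ => h2 Q
  have h4 : ((Ideal.span {(q : ℤ)}).primesOver (𝓞 E)).ncard = Fintype.card ((Ideal.span {(q : ℤ)}).primesOver (𝓞 E)) := by
    rw [← Nat.card_coe_set_eq, Nat.card_eq_fintype_card]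
  rw [h4] at h1
  exact (Nat.mul_le_mul_right f h1).trans h3

end H57N
end
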