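import Mathlib
import Pool.Agent.Lib.H1M.PP2.M003
import Pool.Agent.Lib.H1M.PP2.M017
import Pool.Agent.Lib.H1M.PP2.M024

/-! Merged copies (to shorten the build) of Lib.CFT.B19, Lib.H57N.C4, Lib.H57N.P1, Lib.H57N.P2, Lib.H57N.P5, Lib.H57N.C5, Lib.H57N.P3, Lib.H13T.U1, Lib.H41S.B1, Lib.H57N.A1. -/

-- from Lib.CFT.B19
section

/-! # CFT module B, chunk B19: finitely many ramified primes -/

open NumberField IsDedekindDomain

namespace CFT

variable {K : Type} [Field K] [NumberField K] {L : Type} [Field L] [NumberField L] [Algebra K L]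


/-- PROOF. Mathlib: the different ideal is not 0 and a prime with ramification index > 1 divides it (differentIdeal, dvd_differentIdeal_iff / not_dvd_differentIdeal_iff with Algebra.IsUnramifiedAt and
Algebra.isUnramifiedAt_iff_ramificationIdx_eq_one or similar, see NumberTheory/RamificationInertia/Unramified.lean and NumberTheory/NumberField/Discriminant/Different.lean);
finitely many primes of O_L divide a nonzero ideal (Ideal.finite_factors); map them to K by below. -/
theorem unr_fin : {v : Pr K | ¬ Unr K L v}.Finite := by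
  have hd : differentIdeal (𝓞 K) (𝓞 L) ≠ ⊥ := differentIdeal_ne_bot
  have hfin := Ideal.finite_factors (I := differentIdeal (𝓞 K) (𝓞 L)) hd
  refine (hfin.image (below K)).subset ?_
  intro v hv
  have hv' : ¬ ∀ w : Pr L, below K w = v → w.asIdeal.ramificationIdx (𝓞 K) = 1 := hv
  push Not at hv'
  obtain ⟨w, hw, he⟩ := hv'
  refine ⟨w, ?_, hw⟩
  haveI : w.asIdeal.LiesOver (below K w).asIdeal := ⟨rfl⟩
  haveI := w.isPrime
  haveI : (below K w).asIdeal.IsMaximal := (below K w).isMaximal
  have h1 := e_pos (K := K) w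
  have h2 : w.asIdeal ^ (w.asIdeal.ramificationIdx (𝓞 K)) ∣ (below K w).asIdeal.map (algebraMap (𝓞 K) (𝓞 L)) := by
    rw [Ideal.dvd_iff_le, ← Ideal.ramificationIdx'_eq_ramificationIdx (below K w).asIdeal w.asIdeal (below K w).ne_bot]
    exact Ideal.le_pow_ramificationIdx'
  have h3 := pow_sub_one_dvd_differentIdeal (𝓞 K) w.asIdeal _ (below K w).ne_bot h2
  refine (dvd_pow_self _ ?_).trans h3
  omega

end CFT
end

-- from Lib.H57N.C4
section

/-! # H57N, chunk C4: ramification in the subfields of the cyclotomic field -/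

open NumberField IsDedekindDomain

namespace H57N

/-- a prime above a given prime -/
theorem c4_over {B Z : Type} [Field B] [NumberField B] [Field Z] [NumberField Z] [Algebra B Z] (w : HeightOneSpectrum (𝓞 B)) :
    ∃ W : HeightOneSpectrum (𝓞 Z), w.asIdeal = W.asIdeal.under (𝓞 B) := by
  have hwp := w.isPrime
  obtain ⟨P, hP1, hP2⟩ : ∃ P : Ideal (𝓞 Z), P.IsPrime ∧ P.LiesOver w.asIdeal := by
    obtain ⟨⟨P, h3, h4⟩⟩ := w.asIdeal.nonempty_primesOver (S := 𝓞 Z)
    exact ⟨P, h3, h4⟩
  have hne : P ≠ ⊥ := by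
    intro h
    apply w.ne_bot
    rw [hP2.over, h]
    exact Ideal.comap_bot_of_injective _ (FaithfulSMul.algebraMap_injective _ _)
  exact ⟨⟨P, hP1, hne⟩, hP2.over⟩

/-- a prime containing a prime number lies over it -/
theorem c4_lies {Z : Type} [Field Z] [NumberField Z] (w : HeightOneSpectrum (𝓞 Z)) {p : ℕ} (hp : p.Prime)
    (hpw : (p : 𝓞 Z) ∈ w.asIdeal) : w.asIdeal.LiesOver (Ideal.span {(p : ℤ)}) := by
  have hp' : Prime (p : ℤ) := Nat.prime_iff_prime_int.1 hp
  have hmax : (Ideal.span {(p : ℤ)}).IsMaximal :=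
    PrincipalIdealRing.isMaximal_of_irreducible hp'.irreducible
  have hwp := w.isPrime
  have hu : (w.asIdeal.under ℤ).IsPrime := inferInstance
  refine ⟨hmax.eq_of_le hu.ne_top ?_⟩
  rw [Ideal.span_singleton_le_iff_mem, Ideal.under_def, Ideal.mem_comap, map_natCast]
  exact hpw

theorem c4_mem {B Z : Type} [Field B] [NumberField B] [Field Z] [NumberField Z] [Algebra B Z] (w : HeightOneSpectrum (𝓞 B))
    (W : HeightOneSpectrum (𝓞 Z)) (hW : w.asIdeal = W.asIdeal.under (𝓞 B)) {r : ℕ} (hr : (r : 𝓞 B) ∈ w.asIdeal) :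
    (r : 𝓞 Z) ∈ W.asIdeal := by
  rw [hW, Ideal.under_def, Ideal.mem_comap, map_natCast] at hr
  exact hr

theorem c4_le {K1 K : Type} [Field K1] [NumberField K1] [Field K] [NumberField K] [Algebra K1 K]
    (w : HeightOneSpectrum (𝓞 K)) :
    w.asIdeal.ramificationIdx (𝓞 K1) * w.asIdeal.inertiaDeg (𝓞 K1) ≤ Module.finrank K1 K := by
  have hwp := w.isPrime
  have hp : (w.asIdeal.under (𝓞 K1)).IsPrime := inferInstance
  have hf : Fintype ((w.asIdeal.under (𝓞 K1)).primesOver (𝓞 K)) :=
    (Algebra.QuasiFinite.finite_primesOver _).fintype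
  have h := Ideal.sum_ramification_inertia_eq_finrank (w.asIdeal.under (𝓞 K1)) (𝓞 K)
  rw [← IsFractionRing.finrank_eq (𝓞 K1) K1 (𝓞 K) K] at h
  rw [← h]
  have hmem : w.asIdeal ∈ (w.asIdeal.under (𝓞 K1)).primesOver (𝓞 K) := ⟨hwp, ⟨rfl⟩⟩
  exact Finset.single_le_sum (f := fun q : (w.asIdeal.under (𝓞 K1)).primesOver (𝓞 K) =>
    q.1.ramificationIdx (𝓞 K1) * q.1.inertiaDeg (𝓞 K1)) (fun _ _ => Nat.zero_le _)
    (Finset.mem_univ ⟨w.asIdeal, hmem⟩)

theorem c4_card (L : Type) [Field L] [NumberField L] (hG : IsGalois ℚ L)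
    (w : HeightOneSpectrum (𝓞 L)) :
    Nat.card (w.asIdeal.inertia (L ≃ₐ[ℚ] L)) = w.asIdeal.ramificationIdx ℤ := by
  have hwm := w.isMaximal
  have hwp := w.isPrime
  have hl : w.asIdeal.LiesOver (w.asIdeal.under ℤ) := ⟨rfl⟩
  have hum : (w.asIdeal.under ℤ).IsMaximal := Ideal.IsMaximal.under _ _
  have hub : w.asIdeal.under ℤ ≠ ⊥ := Ideal.IsIntegral.comap_ne_bot _ w.ne_bot
  have hfin : Finite (ℤ ⧸ w.asIdeal.under ℤ) :=
    Ideal.finiteQuotientOfFreeOfNeBot _ hub
  rw [Ideal.card_inertia_eq_ramificationIdxIn (G := L ≃ₐ[ℚ] L)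
      (w.asIdeal.under ℤ) w.asIdeal,
      Ideal.ramificationIdxIn_eq_ramificationIdx (w.asIdeal.under ℤ) w.asIdeal (L ≃ₐ[ℚ] L)]

theorem c4_div {p n l : ℕ} {Q : Finset ℕ} (h : Prm p n l Q) {q : ℕ} (hq : q ∈ Q) :
    md l Q = q * (md l Q / q) ∧ ¬ q ∣ md l Q / q ∧ md l Q / q ≠ 0 := by
  have hq1 := (h.hq q hq).1
  have h1 : md l Q = q * (l * ∏ r ∈ Q.erase q, r) := by
    unfold md
    rw [← Finset.mul_prod_erase Q (fun r => r) hq]
    ring
  have h2 : md l Q / q = l * ∏ r ∈ Q.erase q, r := by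
    rw [h1, Nat.mul_div_cancel_left _ hq1.pos]
  rw [h2]
  refine ⟨h1, ?_, ?_⟩
  · intro hd
    rcases (hq1.dvd_mul).1 hd with h3 | h3
    · exact (h.hq q hq).2.2.1 ((Nat.prime_dvd_prime_iff_eq hq1 h.hl).1 h3)
    · obtain ⟨r, hr, h4⟩ := (hq1.prime.dvd_finsetProd_iff _).1 h3
      have h5 := (Nat.prime_dvd_prime_iff_eq hq1 (h.hq r (Finset.mem_of_mem_erase hr)).1).1 h4
      exact (Finset.ne_of_mem_erase hr) h5.symm
  · exact Nat.mul_ne_zero h.hl.ne_zero
      (Finset.prod_ne_zero_iff.2 fun r hr => (h.hq r (Finset.mem_of_mem_erase hr)).1.ne_zero)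

/-- Chunk C4 (S/M). W a prime of Z = Zf (md l Q) above w (going up: 𝓞 Z integral over 𝓞 B: Ideal.exists_ideal_over_prime.. or a prime containing; for number fields H55R.under_exists). σ from c2_gal for q: ρ σ ≠ 1, so σ is not trivial on B (hfix), and σ is in the
inertia group of W by c3_inertia (m = q * m', m' = md l Q / q, not divisible by q: q ≠ l and q does not divide the other primes). The restriction g of σ to B (AlgEquiv.restrictNormalHom B) is in the inertia group of w: g • y - y in W ∩ 𝓞 B = w, and g ≠ 1. The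
order of the inertia group of w in Gal(B/ℚ) is w.ramificationIdx ℤ (Ideal.card_inertia_eq_ramificationIdxIn, Ideal.ramificationIdxIn_eq_ramificationIdx; see ge_card in H28T/Gen.lean), so it is not 1. -/
theorem c4_ram {p n l : ℕ} {Q : Finset ℕ} (h : Prm p n l Q) (ρ : (Zf (md l Q) ≃ₐ[ℚ] Zf (md l Q)) →* Cg (p ^ (n + 1)))
    (hρ : ∀ q ∈ Q, ∃ σ, (∀ x : Zf (md l Q), x ^ (md l Q / q) = 1 → σ x = x) ∧ ρ σ ≠ 1)
    (B : IntermediateField ℚ (Zf (md l Q))) [IsGalois ℚ B] (hfix : ∀ σ : Zf (md l Q) ≃ₐ[ℚ] Zf (md l Q), (∀ x : B, σ (x : Zf (md l Q)) = x) → ρ σ = 1)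
    (w : HeightOneSpectrum (𝓞 B)) (q : ℕ) (hq : q ∈ Q) (hw : (q : 𝓞 B) ∈ w.asIdeal) : w.asIdeal.ramificationIdx ℤ ≠ 1 := by
  obtain ⟨σ, hσ1, hσ2⟩ := hρ q hq
  obtain ⟨W, hW⟩ := c4_over (Z := Zf (md l Q)) w
  have hqW := c4_mem w W hW hw
  obtain ⟨d1, d2, d3⟩ := c4_div h hq
  have hin := c3_inertia d1 (h.hq q hq).1 d2 d3 W hqW σ hσ1
  obtain ⟨g, hg⟩ : ∃ g : B ≃ₐ[ℚ] B, ∀ x : B, ((g x : B) : Zf (md l Q)) = σ (x : Zf (md l Q)) :=
    ⟨AlgEquiv.restrictNormalHom B σ, fun x => AlgEquiv.restrictNormal_commutes σ B x⟩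
  have hg1 : g ≠ 1 := by
    intro hg1
    apply hσ2
    refine hfix σ fun x => ?_
    rw [← hg, hg1]
    rfl
  have hgI : g ∈ w.asIdeal.inertia (B ≃ₐ[ℚ] B) := by
    intro y
    show g • y - y ∈ w.asIdeal
    rw [hW, Ideal.under_def, Ideal.mem_comap, map_sub]
    have h1 : algebraMap (𝓞 B) (𝓞 (Zf (md l Q))) (g • y) = σ • algebraMap (𝓞 B) (𝓞 (Zf (md l Q))) y := by
      apply RingOfIntegers.ext
      exact hg _
    rw [h1]
    exact hin _
  intro h1
  have h2 := c4_card B inferInstance w
  rw [h1] at h2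
  have h3 := Subgroup.card_eq_one.1 h2
  rw [h3, Subgroup.mem_bot] at hgI
  exact hg1 hgI

/-- Chunk C4 (S). W above w in Z (as in c4_ram), W.ramificationIdx ℤ = 1 (IsCyclotomicExtension.Rat.ramificationIdx_eq_of_not_dvd r: W lies over span {r}, r does not divide m), and the tower formula (p4_towerZ): the factor w.ramificationIdx ℤ is 1. -/
theorem c4_unr {m r : ℕ} [NeZero m] (Z : Type) [Field Z] [NumberField Z] [IsCyclotomicExtension {m} ℚ Z] (B : Type) [Field B] [NumberField B]
    [Algebra B Z] (hr : r.Prime) (hm : ¬ r ∣ m) (w : HeightOneSpectrum (𝓞 B)) (hw : (r : 𝓞 B) ∈ w.asIdeal) : w.asIdeal.ramificationIdx ℤ = 1 := by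
  have : Fact r.Prime := ⟨hr⟩
  obtain ⟨W, hW⟩ := c4_over (Z := Z) w
  have hWp := W.isPrime
  have hl := c4_lies W hr (c4_mem w W hW hw)
  have h1 := IsCyclotomicExtension.Rat.ramificationIdx_eq_of_not_dvd r Z W.asIdeal hm
  have h2 := (p4_towerZ W w hW).1
  rw [h1] at h2
  exact Nat.eq_one_of_mul_eq_one_right h2.symm

/-- Chunk C4 (S/M). Z/ℚ generated by the l-th roots of unity, q a primitive root modulo l. W above w in Z: W.inertiaDeg ℤ = orderOf (q : ZMod l) = l - 1 (IsCyclotomicExtension.Rat.inertiaDeg_eq_of_not_dvd q, q ≠ l), and [Z : ℚ] = φ(l) = l - 1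
(IsCyclotomicExtension.Rat.finrank), = [B : ℚ] [Z : B]. W.inertiaDeg ℤ = w.inertiaDeg ℤ * W.inertiaDeg (𝓞 B) (p4_towerZ) and W.inertiaDeg (𝓞 B) ≤ [Z : B] (Ideal.inertiaDeg_le_finrank or the sum formula: e f ≤ n), so
[B : ℚ] ≤ w.inertiaDeg ℤ. -/
theorem c4_ine {l q : ℕ} (hl : l.Prime) (hq : q.Prime) (hql : q ≠ l) (ho : orderOf (q : ZMod l) = l - 1) (Z : Type) [Field Z] [NumberField Z]
    [IsCyclotomicExtension {l} ℚ Z] (B : Type) [Field B] [NumberField B] [Algebra B Z] (w : HeightOneSpectrum (𝓞 B))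
    (hw : (q : 𝓞 B) ∈ w.asIdeal) : Module.finrank ℚ B ≤ w.asIdeal.inertiaDeg ℤ := by
  have : Fact q.Prime := ⟨hq⟩
  have : NeZero l := ⟨hl.ne_zero⟩
  obtain ⟨W, hW⟩ := c4_over (Z := Z) w
  have hWp := W.isPrime
  have hL := c4_lies W hq (c4_mem w W hW hw)
  have hm : ¬ q ∣ l := fun hd => hql ((Nat.prime_dvd_prime_iff_eq hq hl).1 hd)
  have h1 := IsCyclotomicExtension.Rat.inertiaDeg_eq_of_not_dvd q Z W.asIdeal hm
  rw [ho] at h1
  have h2 := (p4_towerZ W w hW).2
  rw [h1] at h2
  have h3 : Module.finrank ℚ Z = l - 1 := by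
    rw [IsCyclotomicExtension.Rat.finrank l Z, Nat.totient_prime hl]
  have h4 := Module.finrank_mul_finrank ℚ B Z
  have h5 := c4_le (K1 := B) W
  have h6 := W.asIdeal.ramificationIdx_pos (𝓞 B)
  have h7 : W.asIdeal.inertiaDeg (𝓞 B) ≤ Module.finrank B Z :=
    le_trans (Nat.le_mul_of_pos_left _ h6) h5
  have h8 : 0 < Module.finrank B Z := Module.finrank_pos
  rw [h3, h2] at h4
  by_contra hlt
  push Not at hlt
  have h9 : w.asIdeal.inertiaDeg ℤ * W.asIdeal.inertiaDeg (𝓞 B) < Module.finrank ℚ B * Module.finrank B Z :=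
    lt_of_le_of_lt (Nat.mul_le_mul_left _ h7) (Nat.mul_lt_mul_of_pos_right hlt h8)
  omega

end H57N
end

-- from Lib.H57N.P1
section

/-! # H57N, chunk P1: the compositum with a Galois extension of the rationals is Galois -/

open NumberField IsDedekindDomain

namespace H57N

variable {C B E : Type} [Field C] [NumberField C] [Field B] [NumberField B] [Field E] [NumberField E] [Algebra C E] [Algebra B E]

/-- Chunk P1 (M), only Mathlib. E is generated over C by the image of B, B/Q Galois. Proof as in Mathlib: IsGalois.sup_right (Mathlib/FieldTheory/Galois/Basic.lean): obtain T : ℚ[X] separable with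
T.IsSplittingField ℚ B from IsGalois.is_separable_splitting_field ℚ B, T' := T.map (algebraMap ℚ C) is separable (Separable.map); T'.IsSplittingField C E (isSplittingField_iff_intermediateField: T' splits in E, since T splits in B and
B → E; the adjoin of its roots over C is ⊤: it contains algebraMap B E b for all b, because B = adjoin ℚ (T.rootSet B), and h.gen). Then IsGalois.of_separable_splitting_field. Other route: let K₁ = (the ℚ-algebra map B → E).fieldRange and
K₂ = (C → E).fieldRange in IntermediateField ℚ E; K₁ ⊔ K₂ = ⊤; IsGalois.sup_right K₁ K₂ gives IsGalois K₂ E; transport with IsGalois.of_equiv_equiv along C ≃ K₂ (IsGalois ℚ K₁: IsGalois.of_algEquiv). -/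
theorem p1_gal [IsGalois ℚ B] (h : Cmp C B E) : IsGalois C E := by
  have hC : IsScalarTower ℚ C E := IsScalarTower.of_algebraMap_eq' (Subsingleton.elim _ _)
  have hB : IsScalarTower ℚ B E := IsScalarTower.of_algebraMap_eq' (Subsingleton.elim _ _)
  obtain ⟨T, hT₁, hT₂⟩ := IsGalois.is_separable_splitting_field ℚ B
  have hT : (T.map (algebraMap ℚ C)).IsSplittingField C E := by
    rw [isSplittingField_iff_intermediateField] at hT₂ ⊢
    obtain ⟨hs, ha⟩ := hT₂
    constructor
    · rw [Polynomial.map_map, ← IsScalarTower.algebraMap_eq]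
      exact Polynomial.Splits.of_algHom hs (IsScalarTower.toAlgHom ℚ B E)
    · rw [eq_top_iff, ← h.gen, IntermediateField.adjoin_le_iff]
      rintro _ ⟨b, rfl⟩
      have h1 : IntermediateField.adjoin ℚ (T.rootSet B) ≤
          IntermediateField.comap (IsScalarTower.toAlgHom ℚ B E)
            ((IntermediateField.adjoin C ((T.map (algebraMap ℚ C)).rootSet E)).restrictScalars ℚ) := by
        rw [IntermediateField.adjoin_le_iff]
        intro x hx
        show algebraMap B E x ∈ IntermediateField.adjoin C ((T.map (algebraMap ℚ C)).rootSet E)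
        apply IntermediateField.subset_adjoin
        rw [Polynomial.mem_rootSet'] at hx ⊢
        obtain ⟨hx0, hx1⟩ := hx
        have hT0 : T ≠ 0 := hT₁.ne_zero
        refine ⟨?_, ?_⟩
        · rw [Polynomial.map_map, ← IsScalarTower.algebraMap_eq]
          exact (Polynomial.map_ne_zero_iff (algebraMap ℚ E).injective).2 hT0
        · rw [Polynomial.aeval_map_algebraMap]
          have h2 := Polynomial.aeval_algebraMap_apply E x T
          rw [h2, hx1, map_zero]
      rw [ha] at h1
      exact h1 (IntermediateField.mem_top (x := b))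
  exact IsGalois.of_separable_splitting_field (p := T.map (algebraMap ℚ C)) hT₁.map

/-- Chunk P1 (S), only Mathlib. The towers of ℚ-algebras: IsScalarTower.of_algebraMap_eq' (Subsingleton.elim _ _). res = IntermediateField.restrictRestrictAlgEquivMapHom ℚ B C E (needs Normal ℚ B), that is
(AlgEquiv.restrictNormalHom B).comp (restriction of scalars); the compatibility is AlgEquiv.restrictNormal_commutes. Injective: if res g = 1 then g fixes C and the image of B, so the intermediate field of the elements fixed by g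
(IntermediateField.fixedField (Subgroup.zpowers g)) contains Set.range (algebraMap B E), so it is ⊤ by h.gen. Model: hres, hinj in H28T/AQ3A.lean. -/
theorem p1_res [IsGalois ℚ B] (h : Cmp C B E) : ∃ res : (E ≃ₐ[C] E) →* (B ≃ₐ[ℚ] B), Function.Injective res ∧
    ∀ (g : E ≃ₐ[C] E) (x : B), g (algebraMap B E x) = algebraMap B E (res g x) := by
  have hC : IsScalarTower ℚ C E := IsScalarTower.of_algebraMap_eq' (Subsingleton.elim _ _)
  have hB : IsScalarTower ℚ B E := IsScalarTower.of_algebraMap_eq' (Subsingleton.elim _ _)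
  let rs : (E ≃ₐ[C] E) →* (E ≃ₐ[ℚ] E) :=
    { toFun := fun g => g.restrictScalars ℚ
      map_one' := by ext x; rfl
      map_mul' := fun a b => by ext x; rfl }
  let res : (E ≃ₐ[C] E) →* (B ≃ₐ[ℚ] B) := (AlgEquiv.restrictNormalHom B).comp rs
  have hres : ∀ (g : E ≃ₐ[C] E) (x : B), g (algebraMap B E x) = algebraMap B E (res g x) := by
    intro g x
    exact (AlgEquiv.restrictNormal_commutes (rs g) B x).symm
  refine ⟨res, ?_, hres⟩
  rw [injective_iff_map_eq_one]
  intro g hg
  apply AlgEquiv.ext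
  intro x
  have hx : x ∈ IntermediateField.adjoin C (Set.range (algebraMap B E)) := by
    rw [h.gen]
    exact IntermediateField.mem_top
  show g x = x
  induction hx using IntermediateField.adjoin_induction with
  | mem y hy =>
    obtain ⟨b, rfl⟩ := hy
    rw [hres g b, hg]
    rfl
  | algebraMap c => exact g.commutes c
  | add a b _ _ ha hb => rw [map_add, ha, hb]
  | inv a _ ha => rw [map_inv₀, ha]
  | mul a b _ _ ha hb => rw [map_mul, ha, hb]

end H57N
end

-- from Lib.H57N.P2
section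

/-! # H57N, chunk P2: the degree of the compositum -/

open NumberField IsDedekindDomain

namespace H57N

/-- Chunk P2 (S/M), only Mathlib. NumberField.not_dvd_discr_iff_forall_mem E (𝓞 E) (prime of ℤ from hr), Ideal.ramificationIdx_eq_one_iff : q.ramificationIdx R = 1 ↔ Algebra.IsUnramifiedAt R q (R = ℤ; the residue field at the prime below is
finite or of characteristic 0: PerfectField instance; look at the last lines of Mathlib/NumberTheory/NumberField/ExistsRamified.lean). A prime ideal P of 𝓞 E containing r is not ⊥ (r ≠ 0), so it is the ideal of a HeightOneSpectrum. -/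
theorem p2_unr (E : Type) [Field E] [NumberField E] {r : ℕ} (hr : r.Prime) :
    ¬ (r : ℤ) ∣ discr E ↔ ∀ w : HeightOneSpectrum (𝓞 E), (r : 𝓞 E) ∈ w.asIdeal → w.asIdeal.ramificationIdx ℤ = 1 := by
  rw [NumberField.not_dvd_discr_iff_forall_mem E (𝓞 E) (Nat.prime_iff_prime_int.1 hr)]
  constructor
  · intro h w hw
    haveI := w.isPrime
    haveI := h w.asIdeal w.isPrime (by exact_mod_cast hw)
    exact Ideal.ramificationIdx_eq_one w.asIdeal ℤ
  · intro h P hP hr'
    haveI := hP
    have hr'' : (r : 𝓞 E) ∈ P := by exact_mod_cast hr'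
    have hne : P ≠ ⊥ := by
      rintro rfl
      rw [Ideal.mem_bot] at hr''
      exact hr.ne_zero (by exact_mod_cast hr'')
    have h1 := h ⟨P, hP, hne⟩ hr''
    exact Ideal.ramificationIdx_eq_one_iff.1 h1

/-- Chunk P2 (S), only Mathlib. If the discriminants are not coprime, there is a prime number r dividing both (Int.isCoprime_iff_gcd_eq_one, Nat.exists_prime_and_dvd), which contradicts p2_unr for B. -/
theorem p2_cop (C B : Type) [Field C] [NumberField C] [Field B] [NumberField B]
    (h : ∀ r : ℕ, r.Prime → (r : ℤ) ∣ discr C → ∀ w : HeightOneSpectrum (𝓞 B), (r : 𝓞 B) ∈ w.asIdeal → w.asIdeal.ramificationIdx ℤ = 1) :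
    IsCoprime (discr C) (discr B) := by
  rw [Int.isCoprime_iff_gcd_eq_one]
  by_contra hne
  obtain ⟨r, hr, hrd⟩ := Nat.exists_prime_and_dvd hne
  have h1 : (r : ℤ) ∣ discr C := (Int.natCast_dvd_natCast.2 hrd).trans (Int.gcd_dvd_left ..)
  have h2 : (r : ℤ) ∣ discr B := (Int.natCast_dvd_natCast.2 hrd).trans (Int.gcd_dvd_right ..)
  exact (p2_unr B hr).2 (h r hr h1) h2

variable {C B E : Type} [Field C] [NumberField C] [Field B] [NumberField B] [Field E] [NumberField E] [Algebra C E] [Algebra B E]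

/-- Chunk P2 (M), only Mathlib. Let K₁ = (B → E).fieldRange, K₂ = (C → E).fieldRange in IntermediateField ℚ E (ℚ-algebra maps: IsScalarTower.toAlgHom ℚ B E or RingHom.toRatAlgHom), K₁ ⊔ K₂ = ⊤ (from h.gen: the intermediate field K₁ ⊔ K₂ is closed
under multiplication by C, so it gives an intermediate field of E/C: IntermediateField.extendScalars or direct; it contains the range of B). discr K₁ = discr B (NumberField.discr_eq_discr_of_algEquiv with AlgEquiv.ofInjectiveField), the same for K₂.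
NumberField.linearDisjoint_of_isGalois_isCoprime_discr E K₁ K₂ (IsGalois ℚ K₁: IsGalois.of_algEquiv) gives LinearDisjoint, finrank_sup: [E : ℚ] = [B : ℚ] [C : ℚ] (finrank of ⊤), and Module.finrank_mul_finrank ℚ C E; cancel [C : ℚ] > 0.
For e: p1_res is injective and both groups have the same finite order (IsGalois.card_aut_eq_finrank, p1_gal), so it is bijective: MulEquiv.ofBijective. -/
theorem p2_deg [IsGalois ℚ B] (h : Cmp C B E) (hd : IsCoprime (discr C) (discr B)) :
    Module.finrank C E = Module.finrank ℚ B ∧ ∃ e : (E ≃ₐ[C] E) ≃* (B ≃ₐ[ℚ] B),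
      ∀ (g : E ≃ₐ[C] E) (x : B), g (algebraMap B E x) = algebraMap B E (e g x) := by
  have tC : IsScalarTower ℚ C E := IsScalarTower.of_algebraMap_eq' (Subsingleton.elim _ _)
  have tB : IsScalarTower ℚ B E := IsScalarTower.of_algebraMap_eq' (Subsingleton.elim _ _)
  let φB : B →ₐ[ℚ] E := IsScalarTower.toAlgHom ℚ B E
  let φC : C →ₐ[ℚ] E := IsScalarTower.toAlgHom ℚ C E
  let e1 : B ≃ₐ[ℚ] φB.fieldRange := φB.equivFieldRange
  let e2 : C ≃ₐ[ℚ] φC.fieldRange := φC.equivFieldRange
  have g1 : IsGalois ℚ φB.fieldRange := IsGalois.of_algEquiv e1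
  have hsup : φB.fieldRange ⊔ φC.fieldRange = ⊤ := by
    rw [eq_top_iff]
    intro x _
    have hx : x ∈ IntermediateField.adjoin C (Set.range (algebraMap B E)) := by
      rw [h.gen]; trivial
    refine IntermediateField.adjoin_induction (F := C) (s := Set.range (algebraMap B E))
      (p := fun y _ => y ∈ φB.fieldRange ⊔ φC.fieldRange) ?_ ?_ ?_ ?_ ?_ hx
    · rintro _ ⟨b, rfl⟩
      exact le_sup_left (a := φB.fieldRange) (b := φC.fieldRange) ⟨b, rfl⟩
    · intro c
      exact le_sup_right (a := φB.fieldRange) (b := φC.fieldRange) ⟨c, rfl⟩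
    · intro a b _ _ ha hb
      exact add_mem ha hb
    · intro a _ ha
      exact inv_mem ha
    · intro a b _ _ ha hb
      exact mul_mem ha hb
  have d1 : discr φB.fieldRange = discr B := (NumberField.discr_eq_discr_of_algEquiv B e1).symm
  have d2 : discr φC.fieldRange = discr C := (NumberField.discr_eq_discr_of_algEquiv C e2).symm
  have hlin := NumberField.linearDisjoint_of_isGalois_isCoprime_discr E φB.fieldRange φC.fieldRange (by
    rw [d1, d2]; exact hd.symm)
  have hf := hlin.finrank_sup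
  rw [hsup, IntermediateField.finrank_top', ← e1.toLinearEquiv.finrank_eq, ← e2.toLinearEquiv.finrank_eq] at hf
  have hm := Module.finrank_mul_finrank ℚ C E
  have hpos : 0 < Module.finrank ℚ C := Module.finrank_pos
  have hdeg : Module.finrank C E = Module.finrank ℚ B := by
    rw [hf, mul_comm (Module.finrank ℚ B)] at hm
    exact Nat.eq_of_mul_eq_mul_left hpos hm
  refine ⟨hdeg, ?_⟩
  have fE : FiniteDimensional C E := Module.Finite.of_restrictScalars_finite ℚ C E
  have gE : IsGalois C E := p1_gal h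
  obtain ⟨res, hinj, hres⟩ := p1_res h
  have hcard : Nat.card (E ≃ₐ[C] E) = Nat.card (B ≃ₐ[ℚ] B) := by
    rw [IsGalois.card_aut_eq_finrank, IsGalois.card_aut_eq_finrank, hdeg]
  have hbij : Function.Bijective res := (Nat.bijective_iff_injective_and_card res).2 ⟨hinj, hcard⟩
  exact ⟨MulEquiv.ofBijective res hbij, fun g x => hres g x⟩

end H57N
end

-- from Lib.H57N.P5
section

/-! # H57N, chunk P5: the compositum in an algebraically closed field -/

open NumberField IsDedekindDomain

namespace H57N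

variable {B Ω : Type} [Field B] [Field Ω]

/-- The field generated by C and the image of B in Ω. -/
noncomputable def cE (C : Type) [Field C] [Algebra C Ω] (j : B →+* Ω) : IntermediateField C Ω :=
  IntermediateField.adjoin C (Set.range j)

theorem cE_mem (C : Type) [Field C] [Algebra C Ω] (j : B →+* Ω) (x : B) : j x ∈ cE C j :=
  IntermediateField.subset_adjoin C _ ⟨x, rfl⟩

/-- The map of B to cE. -/
noncomputable def cj (C : Type) [Field C] [Algebra C Ω] (j : B →+* Ω) : B →+* cE C j :=
  j.codRestrict (cE C j) (cE_mem C j)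

@[reducible] noncomputable def cAlg (C : Type) [Field C] [Algebra C Ω] (j : B →+* Ω) : Algebra B (cE C j) := (cj C j).toAlgebra

/-- Chunk P5 (S), only Mathlib. The adjoin over C of the range of B in cE is ⊤: IntermediateField.lift_injective (or map val), lift_adjoin, lift_top, image of the range. -/
theorem p5_cmp (C : Type) [Field C] [Algebra C Ω] (j : B →+* Ω) : @Cmp C B (cE C j) _ _ _ _ (cAlg C j) := by
  let _ := cAlg C j
  refine ⟨?_⟩
  apply IntermediateField.lift_injective (cE C j)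
  rw [IntermediateField.lift_adjoin, IntermediateField.lift_top]
  have h1 : (Subtype.val '' Set.range (algebraMap B (cE C j)) : Set Ω) = Set.range j := by
    rw [← Set.range_comp]
    rfl
  rw [h1]
  rfl

/-- Chunk P5 (S/M), only Mathlib. cE is finite over C: it is generated by the images of a finite ℚ-basis of B (or of a primitive element: Field.exists_primitive_element ℚ B, adjoin C {j α}), which are integral over C
(IntermediateField.adjoin.finiteDimensional, IntermediateField.finiteDimensional_adjoin); so it is a number field (NumberField.of_module_finite C _). See kg_fin in H13R/K0.lean. Ω has characteristic 0. -/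
theorem p5_num (C : Type) [Field C] [NumberField C] [Algebra C Ω] [NumberField B] (j : B →+* Ω) : NumberField (cE C j) := by
  obtain ⟨α, hα⟩ := Field.exists_primitive_element ℚ B
  have hcomp : j.comp (algebraMap ℚ B) = (algebraMap C Ω).comp (algebraMap ℚ C) := Subsingleton.elim _ _
  have h1 : cE C j = IntermediateField.adjoin C {j α} := by
    apply le_antisymm
    · unfold cE
      rw [IntermediateField.adjoin_le_iff]
      rintro _ ⟨x, rfl⟩
      have hx : x ∈ IntermediateField.adjoin ℚ {α} := by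
        rw [hα]
        exact IntermediateField.mem_top
      refine IntermediateField.adjoin_induction ℚ (p := fun x _ => j x ∈ IntermediateField.adjoin C {j α}) ?_ ?_ ?_ ?_ ?_ hx
      · rintro _ rfl
        exact IntermediateField.subset_adjoin C _ rfl
      · intro q
        have e1 : j (algebraMap ℚ B q) = algebraMap C Ω (algebraMap ℚ C q) := RingHom.congr_fun hcomp q
        rw [e1]
        exact (IntermediateField.adjoin C {j α}).algebraMap_mem _
      · intro x y _ _ hx hy
        rw [map_add]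
        exact add_mem hx hy
      · intro x _ hx
        rw [map_inv₀]
        exact inv_mem hx
      · intro x y _ _ hx hy
        rw [map_mul]
        exact mul_mem hx hy
    · rw [IntermediateField.adjoin_le_iff]
      rintro _ rfl
      exact cE_mem C j α
  have h2 : IsIntegral C (j α) := by
    obtain ⟨q, hq, hq0⟩ := (Algebra.IsIntegral.isIntegral (R := ℚ) α)
    refine ⟨q.map (algebraMap ℚ C), hq.map _, ?_⟩
    rw [Polynomial.eval₂_map, ← hcomp, ← Polynomial.hom_eval₂, hq0, map_zero]
  have h3 : FiniteDimensional C (IntermediateField.adjoin C {j α}) := IntermediateField.adjoin.finiteDimensional h2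
  rw [← h1] at h3
  exact NumberField.of_module_finite C (cE C j)

/-- Chunk P5 (S), only Mathlib. B' ≤ B. -/
theorem p5_mono (C : Type) [Field C] [Algebra C Ω] (j : B →+* Ω) {B' : Type} [Field B'] (i : B' →+* B) :
    cE C (j.comp i) ≤ cE C j := by
  unfold cE
  rw [IntermediateField.adjoin_le_iff]
  rintro _ ⟨x, rfl⟩
  exact cE_mem C j (i x)

/-- Chunk P5 (S), only Mathlib. C ⊆ D: every element of cE C j is an element of cE D j (IntermediateField.adjoin_le_iff for the restriction of scalars of cE D j to C, or IntermediateField.adjoin_induction). -/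
theorem p5_up (C D : Type) [Field C] [Field D] [Algebra C D] [Algebra C Ω] [Algebra D Ω] [IsScalarTower C D Ω] (j : B →+* Ω) :
    ∀ x : Ω, x ∈ cE C j → x ∈ cE D j := by
  intro x hx
  refine IntermediateField.adjoin_induction C (p := fun x _ => x ∈ cE D j) ?_ ?_ ?_ ?_ ?_ hx
  · rintro _ ⟨y, rfl⟩
    exact cE_mem D j y
  · intro c
    rw [IsScalarTower.algebraMap_apply C D Ω]
    exact (cE D j).algebraMap_mem _
  · intro x y _ _ hx hy
    exact add_mem hx hy
  · intro x _ hx
    exact inv_mem hx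
  · intro x y _ _ hx hy
    exact mul_mem hx hy

end H57N
end

-- from Lib.H57N.C5
section

/-! # H57N, chunk C5: THE CYCLIC FIELD B -/

open NumberField IsDedekindDomain

namespace H57N

/-- Chunk C5 (S/M), only Mathlib. x in Z = Zf m fixed by all σ in Gal(Z/ℚ) which fix the l-th roots of unity, l ∣ m: then x is in ℚ(ζ) with ζ a primitive l-th root of unity in Z (power of IsCyclotomicExtension.zeta; Galois correspondence:
IntermediateField.fixedField_fixingSubgroup, mem_fixedField_iff; σ fixes ℚ(ζ) iff σ ζ = ζ, then σ fixes all powers of ζ, which are all the x with x^l = 1). -/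
theorem c5_mem {m l : ℕ} [NeZero m] (hl : l ∣ m) {ζ : Zf m} (hζ : IsPrimitiveRoot ζ l) (x : Zf m)
    (hx : ∀ σ : Zf m ≃ₐ[ℚ] Zf m, (∀ y : Zf m, y ^ l = 1 → σ y = y) → σ x = x) : x ∈ IntermediateField.adjoin ℚ {ζ} := by
  have hce : IsCyclotomicExtension {m} ℚ (Zf m) := CyclotomicField.isCyclotomicExtension m ℚ
  have hg : IsGalois ℚ (Zf m) := IsCyclotomicExtension.isGalois {m} ℚ (Zf m)
  have hl0 : NeZero l := ⟨fun h => (NeZero.ne m) (by rw [h] at hl; exact Nat.eq_zero_of_zero_dvd hl)⟩
  rw [← IsGalois.fixedField_fixingSubgroup (IntermediateField.adjoin ℚ {ζ}), IntermediateField.mem_fixedField_iff]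
  intro σ hσ
  apply hx
  intro y hy
  obtain ⟨i, _, rfl⟩ := hζ.eq_pow_of_pow_eq_one hy
  rw [map_pow]
  congr 1
  exact (IntermediateField.mem_fixingSubgroup_iff _ _).1 hσ ζ (IntermediateField.mem_adjoin_simple_self ℚ ζ)

/-- Chunk C5 (M), assembly. ρ from c2_gal, B and B' from c2_fields (Z = Zf (md l Q), Galois: IsCyclotomicExtension.isGalois). unr: c4_unr (r does not divide md l Q = l ∏ q: r ≠ l, r not in Q, primes: Prime.dvd_finset_prod_iff). ram: c4_ram. For B': let ζ be a primitive
l-th root of unity in Z, Z_l = adjoin ℚ {ζ} (IsPrimitiveRoot.intermediateField_adjoin_isCyclotomicExtension ℚ hζ: IsCyclotomicExtension {l} ℚ Z_l); every x in B' is in Z_l (c5_mem, and c2_gal (second), c2_fields (last)), so there is a ring homomorphism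
B' → Z_l (codRestrict), an algebra; unr': c4_unr with m = l (r ≠ l); ine: c4_ine and deg'. -/
theorem c5_exists {p n l : ℕ} {Q : Finset ℕ} (h : Prm p n l Q) : ∃ (B : Type) (_ : Field B) (_ : NumberField B) (B' : IntermediateField ℚ B),
    Cy p n l Q B B' := by
  obtain ⟨ρ, hρs, hρl, hρq⟩ := c2_gal h
  have hne : NeZero (md l Q) := md_ne h
  have hce : IsCyclotomicExtension {md l Q} ℚ (Zf (md l Q)) := CyclotomicField.isCyclotomicExtension (md l Q) ℚ
  have hg : IsGalois ℚ (Zf (md l Q)) := IsCyclotomicExtension.isGalois {md l Q} ℚ (Zf (md l Q))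
  obtain ⟨B, B', hgal, hcyc, hdeg, hgal', hdeg', hfix, hfix'⟩ := c2_fields h.hp (Zf (md l Q)) ρ hρs
  have hl0 : NeZero l := ⟨h.hl.ne_zero⟩
  have hldvd : l ∣ md l Q := Dvd.intro _ rfl
  -- the primitive root of unity of order l
  have hζ : IsPrimitiveRoot ((IsCyclotomicExtension.zeta (md l Q) ℚ (Zf (md l Q))) ^ (∏ q ∈ Q, q)) l :=
    (IsCyclotomicExtension.zeta_spec (md l Q) ℚ (Zf (md l Q))).pow (NeZero.pos _) (by rw [md, mul_comm])
  generalize hζe : (IsCyclotomicExtension.zeta (md l Q) ℚ (Zf (md l Q))) ^ (∏ q ∈ Q, q) = ζ at hζ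
  have hcyl : IsCyclotomicExtension {l} ℚ (IntermediateField.adjoin ℚ {ζ}) :=
    IsPrimitiveRoot.intermediateField_adjoin_isCyclotomicExtension ℚ hζ
  have hmem : ∀ x : B', ((algebraMap B (Zf (md l Q))).comp (algebraMap B' B)) x ∈ IntermediateField.adjoin ℚ {ζ} := by
    intro x
    apply c5_mem hldvd hζ
    intro σ hσ
    exact hfix' σ (hρl σ hσ) x
  let _ : Algebra B' (IntermediateField.adjoin ℚ {ζ}) :=
    (((algebraMap B (Zf (md l Q))).comp (algebraMap B' B)).codRestrict (IntermediateField.adjoin ℚ {ζ}) hmem).toAlgebra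
  have hnd : ∀ r : ℕ, r.Prime → r ≠ l → r ∉ Q → ¬ r ∣ md l Q := by
    intro r hr hrl hrQ hdvd
    rw [md, hr.dvd_mul] at hdvd
    rcases hdvd with h1 | h1
    · exact hrl ((Nat.prime_dvd_prime_iff_eq hr h.hl).1 h1)
    · obtain ⟨q, hq, h2⟩ := (Prime.dvd_finsetProd_iff hr.prime _).1 h1
      exact hrQ (by rw [(Nat.prime_dvd_prime_iff_eq hr (h.hq q hq).1).1 h2]; exact hq)
  refine ⟨B, inferInstance, inferInstance, B', ?_⟩
  exact
    { gal := hgal
      cyc := hcyc
      deg := hdeg
      gal' := hgal'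
      deg' := hdeg'
      unr := fun w r hr hw hrl hrQ => c4_unr (m := md l Q) (Zf (md l Q)) B hr (hnd r hr hrl hrQ) w hw
      unr' := fun w r hr hw hrl => c4_unr (m := l) (IntermediateField.adjoin ℚ {ζ}) B' hr
        (fun h1 => hrl ((Nat.prime_dvd_prime_iff_eq hr h.hl).1 h1)) w hw
      ram := fun w q hq hw => c4_ram h ρ hρq B (fun σ hσ => (hfix σ).1 hσ) w q hq hw
      ine := fun w q hq hw => by
        have h1 := h.hq q hq
        have h2 := c4_ine h.hl h1.1 h1.2.2.1 h1.2.2.2 (IntermediateField.adjoin ℚ {ζ}) B' w hw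
        rw [hdeg'] at h2
        exact h2 }

end H57N
end

-- from Lib.H57N.P3
section

/-! # H57N, chunk P3: ramification in the compositum; the compositum of two Galois extensions -/

open NumberField IsDedekindDomain

namespace H57N

variable {C B E : Type} [Field C] [NumberField C] [Field B] [NumberField B] [Field E] [NumberField E] [Algebra C E] [Algebra B E]

omit [NumberField C] in
theorem p3_cardZ {K : Type} [Field K] [NumberField K] [IsGalois ℚ K]
    (w : HeightOneSpectrum (𝓞 K)) :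
    Nat.card (w.asIdeal.inertia (K ≃ₐ[ℚ] K)) = w.asIdeal.ramificationIdx ℤ := by
  have hwm := w.isMaximal
  have hwp := w.isPrime
  have hp : (w.asIdeal.under ℤ).IsPrime := inferInstance
  have hne : w.asIdeal.under ℤ ≠ ⊥ := by
    intro h
    exact w.ne_bot (Ideal.eq_bot_of_comap_eq_bot (R := ℤ) (I := w.asIdeal) h)
  have hvm : (w.asIdeal.under ℤ).IsMaximal := hp.isMaximal hne
  have hl : w.asIdeal.LiesOver (w.asIdeal.under ℤ) := ⟨rfl⟩
  rw [Ideal.card_inertia_eq_ramificationIdxIn (G := K ≃ₐ[ℚ] K) (w.asIdeal.under ℤ) w.asIdeal,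
    Ideal.ramificationIdxIn_eq_ramificationIdx (w.asIdeal.under ℤ) w.asIdeal (K ≃ₐ[ℚ] K)]

theorem p3_card {F L : Type} [Field F] [NumberField F] [Field L] [NumberField L] [Algebra F L]
    (hG : IsGalois F L) (w : HeightOneSpectrum (𝓞 L)) :
    Nat.card (w.asIdeal.inertia (L ≃ₐ[F] L)) = w.asIdeal.ramificationIdx (𝓞 F) := by
  have hwm := w.isMaximal
  have hwp := w.isPrime
  have hl : w.asIdeal.LiesOver (w.asIdeal.under (𝓞 F)) := ⟨rfl⟩
  have hum : (w.asIdeal.under (𝓞 F)).IsMaximal := Ideal.IsMaximal.under _ _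
  have hub : w.asIdeal.under (𝓞 F) ≠ ⊥ := Ideal.IsIntegral.comap_ne_bot _ w.ne_bot
  have hfin : Finite (𝓞 F ⧸ w.asIdeal.under (𝓞 F)) :=
    Ideal.finiteQuotientOfFreeOfNeBot _ hub
  rw [Ideal.card_inertia_eq_ramificationIdxIn (G := L ≃ₐ[F] L)
      (w.asIdeal.under (𝓞 F)) w.asIdeal,
      Ideal.ramificationIdxIn_eq_ramificationIdx (w.asIdeal.under (𝓞 F)) w.asIdeal (L ≃ₐ[F] L)]

/-- Chunk P3 (M). P is a prime of E, w the prime of B below; w is unramified over the rationals: then P is unramified over C. Model: aq3_ram in H28T/AQ3.lean. E/C is Galois (p1_gal), the order of the inertia group of P in Gal(E/C) is the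
ramification index (Ideal.card_inertia_eq_ramificationIdxIn and Ideal.ramificationIdxIn_eq_ramificationIdx, see ge_card in H28T/Gen.lean; it is general: copy the proof or import Pool.Agent.Lib.H28T.Gen); if g is in it, res g (p1_res) is in the
inertia group of w in Gal(B/ℚ) (algebraMap (𝓞 B) (𝓞 E) (res g • y - y) = g • y' - y' in P), which has order w.ramificationIdx ℤ = 1 (the same theorems with ℤ; or H55D.X3_inertia, as in aq3_ram), so res g = 1, g = 1. So the order is 1. -/
theorem p3_unr [IsGalois ℚ B] (h : Cmp C B E) (P : HeightOneSpectrum (𝓞 E)) (w : HeightOneSpectrum (𝓞 B))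
    (hw : w.asIdeal = P.asIdeal.under (𝓞 B)) (he : w.asIdeal.ramificationIdx ℤ = 1) : P.asIdeal.ramificationIdx (𝓞 C) = 1 := by
  obtain ⟨res, hinj, hres⟩ := p1_res h
  have hG := p1_gal h
  rw [← p3_card hG P, Subgroup.card_eq_one, Subgroup.eq_bot_iff_forall]
  intro g hg
  have hw1 : Nat.card (w.asIdeal.inertia (B ≃ₐ[ℚ] B)) = 1 := (p3_cardZ w).trans he
  rw [Subgroup.card_eq_one, Subgroup.eq_bot_iff_forall] at hw1
  have hg1 : res g = 1 := by
    have hmem : ∀ y : 𝓞 B, res g • y - y ∈ w.asIdeal := by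
      intro y
      rw [hw]
      show algebraMap (𝓞 B) (𝓞 E) (res g • y - y) ∈ P.asIdeal
      have h2 : algebraMap (𝓞 B) (𝓞 E) (res g • y) = g • algebraMap (𝓞 B) (𝓞 E) y := by
        apply NumberField.RingOfIntegers.ext
        exact (hres g _).symm
      rw [map_sub, h2]
      exact hg _
    exact hw1 (res g) hmem
  exact hinj (hg1.trans (map_one res).symm)

/-- Chunk P3 (M), only Mathlib and p1_gal. C/F and B/Q are Galois: E/F is Galois. Let K₁ = (IsScalarTower.toAlgHom F C E).fieldRange and K₂ = IntermediateField.adjoin F (Set.range (algebraMap B E)), both IntermediateField F E. K₁/F is Galois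
(IsGalois.of_algEquiv). K₂/F is Galois: p1_gal with C := F, E := K₂, the algebra B → K₂ is the corestriction of algebraMap B E, Cmp F B K₂: the adjoin of the range in K₂ is ⊤ (IntermediateField.lift_adjoin, lift_top, or adjoin_adjoin / restrict
lemmas). K₁ ⊔ K₂ = ⊤: it contains the image of C, so the set is closed under multiplication by C (IntermediateField.extendScalars, or: restrictScalars F of adjoin C S is K₁ ⊔ adjoin F S, IntermediateField.restrictScalars_adjoin), and h.gen.
Normal: IntermediateField.normal_sup gives Normal F (K₁ ⊔ K₂), = ⊤, then Normal F E (Normal.of_algEquiv with IntermediateField.topEquiv); characteristic 0 gives separable: IsGalois. -/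
theorem p3_gal {F : Type} [Field F] [NumberField F] [Algebra F C] [Algebra F E] [IsScalarTower F C E] [IsGalois F C] [IsGalois ℚ B]
    (h : Cmp C B E) : IsGalois F E := by
  have hspl : ∀ x ∈ (Set.range (algebraMap C E) ∪ Set.range (algebraMap B E)),
      IsIntegral F x ∧ ((minpoly F x).map (algebraMap F E)).Splits := by
    rintro x (⟨c, rfl⟩ | ⟨b, rfl⟩)
    · refine ⟨Algebra.IsIntegral.isIntegral _, ?_⟩
      rw [minpoly.algebraMap_eq (algebraMap C E).injective]
      have h1 := (IsGalois.splits F c).map (algebraMap C E)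
      rwa [Polynomial.map_map, ← IsScalarTower.algebraMap_eq] at h1
    · refine ⟨Algebra.IsIntegral.isIntegral _, ?_⟩
      have h1 := (IsGalois.splits ℚ b).map (algebraMap B E)
      have h0 : (minpoly ℚ b) ≠ 0 := minpoly.ne_zero (Algebra.IsIntegral.isIntegral b)
      have e1 : ((minpoly ℚ b).map (algebraMap ℚ B)).map (algebraMap B E) =
          ((minpoly ℚ b).map (algebraMap ℚ F)).map (algebraMap F E) := by
        have e0 : (algebraMap B E).comp (algebraMap ℚ B) = (algebraMap F E).comp (algebraMap ℚ F) :=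
          Subsingleton.elim _ _
        rw [Polynomial.map_map, Polynomial.map_map, e0]
      rw [e1] at h1
      refine h1.of_dvd ?_ ?_
      · exact Polynomial.map_ne_zero (Polynomial.map_ne_zero h0)
      · refine Polynomial.map_dvd _ (minpoly.dvd F _ ?_)
        rw [Polynomial.aeval_def, Polynomial.eval₂_map]
        have e2 : (algebraMap F E).comp (algebraMap ℚ F) = (algebraMap B E).comp (algebraMap ℚ B) :=
          Subsingleton.elim _ _
        rw [e2, ← Polynomial.hom_eval₂]
        have e3 : Polynomial.eval₂ (algebraMap ℚ B) b (minpoly ℚ b) = 0 := minpoly.aeval ℚ b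
        rw [e3, map_zero]
  have hN : Normal F E := by
    rw [normal_iff]
    intro y
    refine ⟨Algebra.IsIntegral.isIntegral y, ?_⟩
    refine IntermediateField.splits_of_mem_adjoin F E (L := E) hspl ?_
    have hy : y ∈ IntermediateField.adjoin C (Set.range (algebraMap B E)) := by
      rw [h.gen]
      exact IntermediateField.mem_top
    induction hy using IntermediateField.adjoin_induction with
    | mem x hx => exact IntermediateField.subset_adjoin F _ (Or.inr hx)
    | algebraMap x => exact IntermediateField.subset_adjoin F _ (Or.inl ⟨x, rfl⟩)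
    | add x y hx hy h1 h2 => exact add_mem h1 h2
    | inv x hx h1 => exact inv_mem h1
    | mul x y hx hy h1 h2 => exact mul_mem h1 h2
  exact { to_normal := hN }

end H57N
end

-- from Lib.H13T.U1
section

/-! Chunk U1 (M). Pure algebra. X an abelian group, B ≤ Z (modulo B), η an operator, σ = η^[p].
PROOF. Work modulo B in the ring of endomorphisms preserving Z (as in op_zero, Lib/H55P/SA1.lean, whose proof shows how to handle it: the Subring S of the f with f Z ≤ Z). Write x ~ 0 for x in B (x in Z). Put y = η - 1, s1 = σ - 1 = η^p - 1.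
(i) s1 is nilpotent on each z in Z modulo B: s1^p = σ^p - 1 + p r with r a polynomial in η (Commute.exists_add_pow_prime_eq, sign as in op_zero), so s1^p z ~ p (r z) (hη: σ^[p] = η^[p*p]), hence s1^(p k) z ~ p^k (r^k z) ~ 0 by hk.
(ii) s1 = y^p + p y g with g a polynomial in η (the same lemma for (1 + y)^p).
(iii) Let s in Z with s1 (s1 s) ~ 0. h0 for s1 s: p s1 s ~ 0 and y s1 s ~ 0. So p s is killed by s1, h0 for p s gives y p s ~ 0. By (ii) s1 s ~ y^p s (the polynomials commute). y^(p+1) s ~ y s1 s ~ 0. t = y^(p-1) s: s1 t ~ y^(2p-1) s + g y^(p-1) (y p s) ~ 0 since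
2p - 1 ≥ p + 1. h0 for t: y t = y^p s ~ 0, so s1 s ~ 0.
(iv) descending induction: if s1^(j+2) z ~ 0 then (iii) for s = s1^j z gives s1^(j+1) z ~ 0; so s1 z ~ 0. -/

namespace H13T

theorem u1_ring {A : Type} [CommRing A] (p : ℕ) (hp : p.Prime) (k : ℕ) (J : Ideal A) (x : A) (hk : (p : A) ^ k ∈ J)
    (hx : x ^ (p * p) - 1 ∈ J) (h0 : ∀ g, (x ^ p - 1) * g ∈ J → (p : A) * g ∈ J ∧ (x - 1) * g ∈ J) : x ^ p - 1 ∈ J := by
  have hp2 := hp.two_le
  -- (i)
  have hnil : ∃ n, (x ^ p - 1) ^ n ∈ J := by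
    obtain ⟨r, hr⟩ := Commute.exists_add_pow_prime_eq hp (Commute.all (x ^ p) (-1 : A))
    have hsign : ∃ e : A, (-1 : A) ^ p = -1 + (p : A) * e := by
      rcases hp.eq_two_or_odd' with h2 | hodd
      · refine ⟨1, ?_⟩
        rw [h2]
        push_cast
        ring
      · exact ⟨0, by rw [hodd.neg_one_pow, mul_zero, add_zero]⟩
    obtain ⟨e, he⟩ := hsign
    obtain ⟨r', hr'⟩ : ∃ r' : A, (x ^ p - 1) ^ p = (x ^ (p * p) - 1) + (p : A) * r' := by
      refine ⟨e + x ^ p * -1 * r, ?_⟩
      rw [sub_eq_add_neg, hr, he, ← pow_mul]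
      ring
    refine ⟨p * k, ?_⟩
    rw [pow_mul, hr']
    obtain ⟨q, hq⟩ := sub_dvd_pow_sub_pow ((x ^ (p * p) - 1) + (p : A) * r') ((p : A) * r') k
    have h1 : ((x ^ (p * p) - 1) + (p : A) * r') ^ k =
        (x ^ (p * p) - 1) * q + (p : A) ^ k * r' ^ k := by
      have h2 : ((x ^ (p * p) - 1) + (p : A) * r') - (p : A) * r' = x ^ (p * p) - 1 := by ring
      rw [h2] at hq
      rw [← hq, mul_pow]
      ring
    rw [h1]
    exact J.add_mem (J.mul_mem_right _ hx) (J.mul_mem_right _ hk)
  -- (ii)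
  obtain ⟨g, hg⟩ : ∃ g : A, x ^ p - 1 = (x - 1) ^ p + (p : A) * (x - 1) * g := by
    obtain ⟨r, hr⟩ := Commute.exists_add_pow_prime_eq hp (Commute.all (x - 1) (1 : A))
    refine ⟨r, ?_⟩
    rw [sub_add_cancel, one_pow, mul_one] at hr
    rw [hr]
    ring
  -- (iii)
  have hstep : ∀ s : A, (x ^ p - 1) * ((x ^ p - 1) * s) ∈ J → (x ^ p - 1) * s ∈ J := by
    intro s hs
    obtain ⟨h1, h2⟩ := h0 _ hs
    have h3 : (x ^ p - 1) * ((p : A) * s) ∈ J := by
      have e1 : (x ^ p - 1) * ((p : A) * s) = (p : A) * ((x ^ p - 1) * s) := by ring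
      rw [e1]
      exact h1
    have h4 := (h0 _ h3).2
    have h5 : (x - 1) ^ (p + 1) * s ∈ J := by
      have e1 : (x - 1) ^ (p + 1) * s =
          (x - 1) * ((x ^ p - 1) * s) - (x - 1) * g * ((x - 1) * ((p : A) * s)) := by
        rw [hg]
        ring
      rw [e1]
      exact J.sub_mem h2 (J.mul_mem_left _ h4)
    have h6 : (x ^ p - 1) * ((x - 1) ^ (p - 1) * s) ∈ J := by
      have e2 : (x - 1) ^ p * (x - 1) ^ (p - 1) = (x - 1) ^ (p - 2) * (x - 1) ^ (p + 1) := by
        rw [← pow_add, ← pow_add]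
        congr 1
        omega
      have e1 : (x ^ p - 1) * ((x - 1) ^ (p - 1) * s) =
          (x - 1) ^ (p - 2) * ((x - 1) ^ (p + 1) * s) + (g * (x - 1) ^ (p - 1)) * ((x - 1) * ((p : A) * s)) := by
        rw [hg, add_mul, ← mul_assoc, e2]
        ring
      rw [e1]
      exact J.add_mem (J.mul_mem_left _ h5) (J.mul_mem_left _ h4)
    have h7 := (h0 _ h6).2
    have h8 : (x ^ p - 1) * s = (x - 1) * ((x - 1) ^ (p - 1) * s) + g * ((x - 1) * ((p : A) * s)) := by
      have e1 : (x - 1) * (x - 1) ^ (p - 1) = (x - 1) ^ p := by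
        rw [← pow_succ']
        congr 1
        omega
      rw [hg, ← mul_assoc, e1]
      ring
    rw [h8]
    exact J.add_mem h7 (J.mul_mem_left _ h4)
  -- (iv)
  obtain ⟨n, hn⟩ := hnil
  have hdesc : ∀ j : ℕ, (x ^ p - 1) ^ (j + 1) ∈ J → x ^ p - 1 ∈ J := by
    intro j
    induction j with
    | zero =>
      intro h
      rwa [zero_add, pow_one] at h
    | succ j ih =>
      intro h
      apply ih
      rw [pow_succ']
      apply hstep
      have e1 : (x ^ p - 1) * ((x ^ p - 1) * (x ^ p - 1) ^ j) = (x ^ p - 1) ^ (j + 1 + 1) := by ring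
      rw [e1]
      exact h
  refine hdesc n ?_
  rw [pow_succ]
  exact J.mul_mem_right _ hn

theorem ps_fix {X : Type} [AddCommGroup X] (p : ℕ) (hp : p.Prime) (k : ℕ) (Z B : AddSubgroup X) (η : X →+ X)
    (hηZ : ∀ z ∈ Z, η z ∈ Z) (hηB : ∀ b ∈ B, η b ∈ B) (hk : ∀ z ∈ Z, p ^ k • z ∈ B) (hη : ∀ z ∈ Z, η^[p * p] z - z ∈ B)
    (h0 : ∀ z ∈ Z, η^[p] z - z ∈ B → p • z ∈ B ∧ η z - z ∈ B) : ∀ z ∈ Z, η^[p] z - z ∈ B := by
  classical
  let S : Subring (AddMonoid.End X) :=
    { carrier := {f | (∀ z ∈ Z, f z ∈ Z) ∧ ∀ z ∈ B, f z ∈ B}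
      mul_mem' := fun {f g} hf hg => ⟨fun z hz => hf.1 _ (hg.1 z hz), fun z hz => hf.2 _ (hg.2 z hz)⟩
      one_mem' := ⟨fun z hz => hz, fun z hz => hz⟩
      add_mem' := fun {f g} hf hg => ⟨fun z hz => Z.add_mem (hf.1 z hz) (hg.1 z hz),
        fun z hz => B.add_mem (hf.2 z hz) (hg.2 z hz)⟩
      zero_mem' := ⟨fun z _ => Z.zero_mem, fun z _ => B.zero_mem⟩
      neg_mem' := fun {f} hf => ⟨fun z hz => Z.neg_mem (hf.1 z hz), fun z hz => B.neg_mem (hf.2 z hz)⟩ }
  let e : AddMonoid.End X := η
  have heS : e ∈ S := ⟨hηZ, hηB⟩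
  let x : S := ⟨e, heS⟩
  have hMul : ∀ (f g : AddMonoid.End X) (z : X), (f * g) z = f (g z) := fun _ _ _ => rfl
  have hAdd : ∀ (f g : AddMonoid.End X) (z : X), (f + g) z = f z + g z := fun _ _ _ => rfl
  have hSub : ∀ (f g : AddMonoid.End X) (z : X), (f - g) z = f z - g z := fun _ _ _ => rfl
  have hOne : ∀ z : X, (1 : AddMonoid.End X) z = z := fun _ => rfl
  obtain ⟨F, hF⟩ : ∃ F : Polynomial ℤ →ₐ[ℤ] S, F = Polynomial.aeval x := ⟨_, rfl⟩
  have hFX : F Polynomial.X = x := by
    rw [hF]
    exact Polynomial.aeval_X x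
  intro z hz
  let J : Ideal (Polynomial ℤ) :=
    { carrier := {f | (F f : AddMonoid.End X) z ∈ B}
      add_mem' := fun {f g} hf hg => by
        show (F (f + g) : AddMonoid.End X) z ∈ B
        rw [map_add]
        exact B.add_mem hf hg
      zero_mem' := by
        show (F 0 : AddMonoid.End X) z ∈ B
        rw [map_zero]
        exact B.zero_mem
      smul_mem' := fun c f hf => by
        show (F (c * f) : AddMonoid.End X) z ∈ B
        rw [map_mul]
        exact (F c).2.2 _ hf }
  have hJ : ∀ f, f ∈ J ↔ (F f : AddMonoid.End X) z ∈ B := fun f => Iff.rfl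
  have hpow : ∀ (m : ℕ) (w : X), (((x ^ m : S) : AddMonoid.End X)) w = η^[m] w := by
    intro m w
    have h1 : ((x ^ m : S) : AddMonoid.End X) = e ^ m := map_pow S.subtype x m
    rw [h1, AddMonoid.End.coe_pow]
    rfl
  have hnat : ∀ (m : ℕ) (w : X), (((m : S) : AddMonoid.End X)) w = m • w := by
    intro m w
    have h1 : (((m : ℕ) : S) : AddMonoid.End X) = (m : AddMonoid.End X) := rfl
    rw [h1, AddMonoid.End.natCast_apply]
  have h1 : (Polynomial.X ^ p - 1 : Polynomial ℤ) ∈ J := by
    refine u1_ring p hp k J Polynomial.X ?_ ?_ ?_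
    · rw [hJ, ← Nat.cast_pow, map_natCast, hnat]
      exact hk z hz
    · rw [hJ, map_sub, map_pow, map_one, hFX]
      show ((x ^ (p * p) : S) : AddMonoid.End X) z - z ∈ B
      rw [hpow]
      exact hη z hz
    · intro g hg
      rw [hJ, map_mul, map_sub, map_pow, map_one, hFX] at hg
      obtain ⟨w, hw⟩ : ∃ w, w = (F g : AddMonoid.End X) z := ⟨_, rfl⟩
      have hwZ : w ∈ Z := by
        rw [hw]
        exact (F g).2.1 z hz
      have hg' : ((x ^ p : S) : AddMonoid.End X) w - w ∈ B := by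
        rw [hw]
        exact hg
      rw [hpow] at hg'
      obtain ⟨a1, a2⟩ := h0 w hwZ hg'
      constructor
      · rw [hJ, map_mul, map_natCast]
        show ((p : S) : AddMonoid.End X) ((F g : AddMonoid.End X) z) ∈ B
        rw [← hw, hnat]
        exact a1
      · rw [hJ, map_mul, map_sub, map_one, hFX]
        show η ((F g : AddMonoid.End X) z) - (F g : AddMonoid.End X) z ∈ B
        rw [← hw]
        exact a2
  rw [hJ, map_sub, map_pow, map_one, hFX] at h1
  have h2 : ((x ^ p : S) : AddMonoid.End X) z - z ∈ B := h1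
  rwa [hpow] at h2

end H13T
end

-- from Lib.H41S.B1
section

/-! # H41S, B1: faithful characters of cyclic groups -/

namespace H41S

/-- PROOF. G has a generator g of order N = Nat.card G; mulEquivOfCyclicCardEq between G and rootsOfUnity N ℂ (cyclic, card N: IsPrimitiveRoot.card_rootsOfUnity / Complex.card_rootsOfUnity),
composed with the inclusion (Subgroup.subtype). -/
theorem b1_theta {G : Type} [Group G] [Finite G] (hc : IsCyclic G) : ∃ θ : G →* ℂˣ, Function.Injective θ := by
  have hN : NeZero (Nat.card G) := ⟨Nat.card_pos.ne'⟩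
  have h1 : Nat.card G = Nat.card (rootsOfUnity (Nat.card G) ℂ) := (Complex.card_rootsOfUnity _).symm
  have h2 : IsCyclic (rootsOfUnity (Nat.card G) ℂ) := rootsOfUnity.isCyclic ℂ _
  refine ⟨(rootsOfUnity (Nat.card G) ℂ).subtype.comp (mulEquivOfCyclicCardEq h1).toMonoidHom, ?_⟩
  exact Subtype.val_injective.comp (mulEquivOfCyclicCardEq h1).injective

/-- PROOF. The kernel of r has p elements (card G = card ker * card G'), is contained in {s : s^p = 1}, which has at most p elements (IsCyclic.card_pow_eq_one_le), so s^p = 1 iff r s = 1. θ from b1_theta;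
s ↦ θ(s)^p is a homomorphism, trivial on ker r, so factors through r: θ' (MonoidHom.liftOfSurjective, or QuotientGroup). θ'(r s) = 1 implies θ(s^p) = 1, s^p = 1, r s = 1: injective. -/
theorem b1_pair {G G' : Type} [Group G] [Group G'] [Finite G] [Finite G'] (hc : IsCyclic G) {p n : ℕ} (hp : p.Prime)
    (hG : Nat.card G = p ^ (n + 1)) (hG' : Nat.card G' = p ^ n) (r : G →* G') (hr : Function.Surjective r) :
    ∃ (θ : G →* ℂˣ) (θ' : G' →* ℂˣ), Function.Injective θ ∧ Function.Injective θ' ∧ ∀ s, θ' (r s) = θ s ^ p := by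
  classical
  obtain ⟨θ, hθ⟩ := b1_theta hc
  have hpn : 0 < p ^ n := pow_pos hp.pos n
  have hker : Nat.card r.ker = p := by
    have h1 := Subgroup.card_mul_index r.ker
    rw [Subgroup.index_ker, MonoidHom.range_eq_top.2 hr, Subgroup.card_top, hG, hG', pow_succ'] at h1
    exact Nat.eq_of_mul_eq_mul_right hpn h1
  have hk1 : ∀ s ∈ r.ker, s ^ p = 1 := by
    intro s hs
    have h2 : (⟨s, hs⟩ : r.ker) ^ Nat.card r.ker = 1 := pow_card_eq_one'
    rw [hker] at h2
    have h3 := congrArg Subtype.val h2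
    simpa using h3
  have hk2 : ∀ s : G, s ^ p = 1 → r s = 1 := by
    intro s hs
    have : Fintype G := Fintype.ofFinite G
    have h3 : (Finset.univ.filter fun a : G => a ^ p = 1).card ≤ p := IsCyclic.card_pow_eq_one_le hp.pos
    have h4 : (Finset.univ.filter fun a : G => a ∈ r.ker).card = p := by
      rw [← hker, Nat.card_eq_fintype_card, Fintype.card_subtype]
    have h5 : (Finset.univ.filter fun a : G => a ∈ r.ker) ⊆ Finset.univ.filter fun a : G => a ^ p = 1 := by
      intro a ha
      rw [Finset.mem_filter] at ha ⊢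
      exact ⟨ha.1, hk1 a ha.2⟩
    have h6 := Finset.eq_of_subset_of_card_le h5 (by rw [h4]; exact h3)
    have h7 : s ∈ Finset.univ.filter fun a : G => a ^ p = 1 := Finset.mem_filter.2 ⟨Finset.mem_univ _, hs⟩
    rw [← h6, Finset.mem_filter] at h7
    exact h7.2
  have hle : r.ker ≤ ((powMonoidHom p).comp θ).ker := by
    intro s hs
    rw [MonoidHom.mem_ker, MonoidHom.comp_apply, powMonoidHom_apply, ← map_pow, hk1 s hs, map_one]
  have hval : ∀ s, (r.liftOfSurjective hr ⟨(powMonoidHom p).comp θ, hle⟩) (r s) = θ s ^ p := by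
    intro s
    exact MonoidHom.liftOfRightInverse_comp_apply r (Function.surjInv hr) (Function.rightInverse_surjInv hr)
      ⟨(powMonoidHom p).comp θ, hle⟩ s
  refine ⟨θ, r.liftOfSurjective hr ⟨(powMonoidHom p).comp θ, hle⟩, hθ, ?_, hval⟩
  rw [injective_iff_map_eq_one]
  intro y hy
  obtain ⟨s, rfl⟩ := hr y
  rw [hval, ← map_pow] at hy
  exact hk2 s (hθ (hy.trans (map_one θ).symm))

end H41S
end

-- from Lib.H57N.A1
section

/-! # H57N, chunk A1: points over residue fields -/

open NumberField IsDedekindDomain WeierstrassCurve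

namespace H57N

/-- Chunk A1 (S/M), only Mathlib. A homomorphism of fields f : k → k', k' finite: the group of points over k injects in the group over k' (WeierstrassCurve.Affine.Point.map for the ℤ-algebra homomorphism f, Point.map_injective), so its order divides
(Lagrange: AddSubgroup.card_dvd_of_injective; the group over k' is finite). The base changes: W⁄k = W.map (algebraMap ℤ k). -/
theorem a1_up (W : WeierstrassCurve ℤ) {k k' : Type} [Field k] [Field k'] [Finite k'] [DecidableEq k] [DecidableEq k'] (f : k →+* k') {p : ℕ}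
    (h : p ∣ Nat.card (W⁄k).toAffine.Point) : p ∣ Nat.card (W⁄k').toAffine.Point := by
  let g : k →ₐ[ℤ] k' := f.toIntAlgHom
  exact h.trans (AddSubgroup.card_dvd_of_injective (WeierstrassCurve.Affine.Point.map (W' := W.toAffine) g)
    (WeierstrassCurve.Affine.Point.map_injective (W' := W.toAffine) g))

/-- Chunk A1 (S), only Mathlib. K' an extension of K, w' a prime of K' above w. The homomorphism 𝓞 K ⧸ w → 𝓞 K' ⧸ w' (Ideal.quotientMap) and a1_up with Ideal.Quotient.field (letI; the quotients are finite: Ideal.finiteQuotientOfFreeOfNeBot). -/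
theorem a1_above (W : WeierstrassCurve ℤ) {K K' : Type} [Field K] [NumberField K] [Field K'] [NumberField K'] [Algebra K K']
    (w : HeightOneSpectrum (𝓞 K)) (w' : HeightOneSpectrum (𝓞 K')) (hw : w.asIdeal = w'.asIdeal.under (𝓞 K)) {p : ℕ}
    (h : p ∣ Nat.card (W⁄(𝓞 K ⧸ w.asIdeal)).toAffine.Point) : p ∣ Nat.card (W⁄(𝓞 K' ⧸ w'.asIdeal)).toAffine.Point := by
  classical
  let : Field (𝓞 K ⧸ w.asIdeal) := Ideal.Quotient.field w.asIdeal
  let : Field (𝓞 K' ⧸ w'.asIdeal) := Ideal.Quotient.field w'.asIdeal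
  have hfin : Finite (𝓞 K' ⧸ w'.asIdeal) := Ideal.finiteQuotientOfFreeOfNeBot w'.asIdeal w'.ne_bot
  exact a1_up W (Ideal.quotientMap w'.asIdeal (algebraMap (𝓞 K) (𝓞 K')) (le_of_eq hw)) h

/-- Chunk A1 (S/M), only Mathlib. v a prime of F of prime norm q, w a prime of K (no relation between F and K) above the number q: 𝓞 F ⧸ v has q elements, so it is isomorphic to ZMod q (ZMod.ringEquivOfPrime or: ZMod.castHom is bijective), and there is a
homomorphism ZMod q → 𝓞 K ⧸ w (characteristic q: q in w; ZMod.castHom or ZMod.lift), so a homomorphism 𝓞 F ⧸ v → 𝓞 K ⧸ w: a1_up. -/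
theorem a1_deg {F K : Type} [Field F] [NumberField F] [Field K] [NumberField K] (W : WeierstrassCurve ℤ) {q p : ℕ} (hq : q.Prime)
    (v : HeightOneSpectrum (𝓞 F)) (hv : Ideal.absNorm v.asIdeal = q) (w : HeightOneSpectrum (𝓞 K)) (hw : (q : 𝓞 K) ∈ w.asIdeal)
    (h : p ∣ Nat.card (W⁄(𝓞 F ⧸ v.asIdeal)).toAffine.Point) : p ∣ Nat.card (W⁄(𝓞 K ⧸ w.asIdeal)).toAffine.Point := by
  classical
  have : Fact q.Prime := ⟨hq⟩
  let : Field (𝓞 F ⧸ v.asIdeal) := Ideal.Quotient.field v.asIdeal
  let : Field (𝓞 K ⧸ w.asIdeal) := Ideal.Quotient.field w.asIdeal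
  have hfin : Finite (𝓞 K ⧸ w.asIdeal) := Ideal.finiteQuotientOfFreeOfNeBot w.asIdeal w.ne_bot
  have hfin' : Finite (𝓞 F ⧸ v.asIdeal) := Ideal.finiteQuotientOfFreeOfNeBot v.asIdeal v.ne_bot
  let : Fintype (𝓞 F ⧸ v.asIdeal) := Fintype.ofFinite _
  have hcard : Fintype.card (𝓞 F ⧸ v.asIdeal) = q := by
    rw [← Nat.card_eq_fintype_card, ← hv, Ideal.absNorm_apply, Submodule.cardQuot_apply]
  let e : ZMod q ≃+* (𝓞 F ⧸ v.asIdeal) := ZMod.ringEquivOfPrime _ hq hcard
  have hq0 : ((q : ℕ) : 𝓞 K ⧸ w.asIdeal) = 0 := by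
    have h1 : Ideal.Quotient.mk w.asIdeal ((q : ℕ) : 𝓞 K) = 0 := Ideal.Quotient.eq_zero_iff_mem.2 hw
    rw [map_natCast] at h1
    exact h1
  have : CharP (𝓞 K ⧸ w.asIdeal) q := (CharP.charP_iff_prime_eq_zero hq).2 hq0
  let f : ZMod q →+* (𝓞 K ⧸ w.asIdeal) := ZMod.castHom (dvd_refl q) _
  exact a1_up W (f.comp (e.symm : (𝓞 F ⧸ v.asIdeal) →+* ZMod q)) h

/-- Chunk A1 (S), only Mathlib. The iterated base change is the base change (WeierstrassCurve.map_map or baseChange_baseChange.., IsScalarTower ℤ (𝓞 F) k; perhaps rfl after ext). -/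
theorem a1_base {F k : Type} [Field F] [NumberField F] [CommRing k] [Algebra (𝓞 F) k] (W : WeierstrassCurve ℤ) :
    ((W⁄(𝓞 F))⁄k) = (W⁄k) := by
  ext <;> simp [WeierstrassCurve.baseChange]

end H57N
end
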