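import Mathlib

/-! Merged copies (to shorten the build) of Lib.CFT.L1, Lib.CFT.L2, Lib.CFT.L3, Lib.CFT.Y29, Lib.SZ.Defs, Lib.SZ.B3, Lib.SZ.E00, Lib.SZ.E27, Lib.CFT.L6, Lib.CFT.L7. -/

-- from Lib.CFT.L1
section

/-! # CFT, module ZL, part 1: homogeneous smooth families

HF d m F: F s is smooth on the nonzero vectors, jointly in s, and homogeneous of degree -(d s + m). DF r F: the derivative in the direction r.
Bop R G x: G x minus the mean value of the G (x + r), r in R. Main estimate: bop_bound. -/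

open scoped ContDiff

namespace CFTL

variable {V : Type} [NormedAddCommGroup V] [NormedSpace ℝ V]

/-- Homogeneous smooth families. -/
structure HF (d m : ℝ) (F : ℂ → V → ℂ) : Prop where
  smooth : ContDiffOn ℝ ∞ (fun p : ℂ × V => F p.1 p.2) {p | p.2 ≠ 0}
  hom : ∀ (s : ℂ) (t : ℝ) (x : V), 0 < t → x ≠ 0 → F s (t • x) = (t : ℂ) ^ (-(d * s + m)) * F s x

/-- The derivative in the direction r. -/
noncomputable def DF (r : V) (F : ℂ → V → ℂ) (s : ℂ) (x : V) : ℂ := fderiv ℝ (F s) x r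

theorem isOpen_nz : IsOpen {p : ℂ × V | p.2 ≠ 0} := (isOpen_ne (x := (0 : V))).preimage continuous_snd

theorem HF.diffAt {d m : ℝ} {F : ℂ → V → ℂ} (h : HF d m F) (s : ℂ) {x : V} (hx : x ≠ 0) :
    HasFDerivAt (F s) ((fderiv ℝ (fun p : ℂ × V => F p.1 p.2) (s, x)).comp (ContinuousLinearMap.inr ℝ ℂ V)) x := by
  have h1 : DifferentiableAt ℝ (fun p : ℂ × V => F p.1 p.2) (s, x) :=
    (h.smooth.contDiffAt (isOpen_nz.mem_nhds hx)).differentiableAt (by simp)
  have h2 : HasFDerivAt (fun y : V => (s, y)) (ContinuousLinearMap.inr ℝ ℂ V) x := hasFDerivAt_prodMk_right s x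
  exact h1.hasFDerivAt.comp x h2

theorem HF.differentiableAt {d m : ℝ} {F : ℂ → V → ℂ} (h : HF d m F) (s : ℂ) {x : V} (hx : x ≠ 0) :
    DifferentiableAt ℝ (F s) x := (h.diffAt s hx).differentiableAt

theorem HF.deriv {d m : ℝ} {F : ℂ → V → ℂ} (h : HF d m F) (r : V) : HF d (m + 1) (DF r F) := by
  constructor
  · have h1 : ContDiffOn ℝ ∞ (fun p : ℂ × V => fderiv ℝ (fun p : ℂ × V => F p.1 p.2) p (0, r)) {p | p.2 ≠ 0} :=
      (h.smooth.fderiv_of_isOpen isOpen_nz (by simp)).clm_apply contDiffOn_const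
    refine h1.congr fun p hp => ?_
    unfold DF
    rw [(h.diffAt p.1 hp).fderiv]
    simp
  · intro s t x ht hx
    have htx : t • x ≠ 0 := smul_ne_zero ht.ne' hx
    have h1 : HasFDerivAt (fun y : V => F s (t • y)) ((fderiv ℝ (F s) (t • x)).comp (t • ContinuousLinearMap.id ℝ V)) x := by
      have h2 : HasFDerivAt (fun y : V => t • y) (t • ContinuousLinearMap.id ℝ V) x :=
        (hasFDerivAt_id x).const_smul t
      exact (h.differentiableAt s htx).hasFDerivAt.comp x h2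
    have h3 : HasFDerivAt (fun y : V => (t : ℂ) ^ (-(d * s + m)) * F s y) ((t : ℂ) ^ (-(d * s + m)) • fderiv ℝ (F s) x) x :=
      (h.differentiableAt s hx).hasFDerivAt.const_mul _
    have h4 : HasFDerivAt (fun y : V => F s (t • y)) ((t : ℂ) ^ (-(d * s + m)) • fderiv ℝ (F s) x) x := by
      refine h3.congr_of_eventuallyEq ?_
      filter_upwards [(isOpen_ne (x := (0 : V))).mem_nhds hx] with y hy
      exact h.hom s t y ht hy
    have h5 := congrArg (fun L => L r) (h1.unique h4)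
    simp only [ContinuousLinearMap.comp_apply, ContinuousLinearMap.smul_apply, ContinuousLinearMap.id_apply, map_smul] at h5
    unfold DF
    have ht0 : (t : ℂ) ≠ 0 := Complex.ofReal_ne_zero.2 ht.ne'
    have h6 : (t : ℂ) * fderiv ℝ (F s) (t • x) r = (t : ℂ) ^ (-(d * s + m)) * fderiv ℝ (F s) x r := by
      rw [← smul_eq_mul (a := (t : ℂ) ^ (-(d * s + m))), ← h5, Complex.real_smul]
    have h7 : (t : ℂ) ^ (-(d * s + ((m + 1 : ℝ) : ℂ))) = (t : ℂ) ^ (-(d * s + m)) * (t : ℂ)⁻¹ := by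
      rw [← Complex.cpow_neg_one, ← Complex.cpow_add _ _ ht0]
      congr 1
      push_cast
      ring
    rw [h7]
    field_simp
    rw [mul_comm, h6]

variable [ProperSpace V]

/-- The basic bound. -/
theorem HF.bound {d m : ℝ} {F : ℂ → V → ℂ} (h : HF d m F) (b : ℝ) : ∃ C : ℝ, 0 ≤ C ∧ ∀ s : ℂ, ‖s‖ ≤ b → ∀ x : V, x ≠ 0 →
    ‖F s x‖ ≤ C * ‖x‖ ^ (-(d * s.re + m)) := by
  have hK : IsCompact (Metric.closedBall (0 : ℂ) b ×ˢ Metric.sphere (0 : V) 1) :=
    (isCompact_closedBall _ _).prod (isCompact_sphere _ _)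
  have hc : ContinuousOn (fun p : ℂ × V => F p.1 p.2) (Metric.closedBall (0 : ℂ) b ×ˢ Metric.sphere (0 : V) 1) := by
    refine h.smooth.continuousOn.mono fun p hp => ?_
    have h1 : ‖p.2‖ = 1 := mem_sphere_zero_iff_norm.1 hp.2
    intro h2
    rw [h2, norm_zero] at h1
    exact zero_ne_one h1
  obtain ⟨C, hC⟩ := hK.exists_bound_of_continuousOn hc
  refine ⟨max C 0, le_max_right _ _, fun s hs x hx => ?_⟩
  have hx0 : 0 < ‖x‖ := norm_pos_iff.2 hx
  have h1 : x = ‖x‖ • (‖x‖⁻¹ • x) := by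
    rw [smul_smul, mul_inv_cancel₀ hx0.ne', one_smul]
  have h2 : ‖(‖x‖⁻¹ • x)‖ = 1 := by
    rw [norm_smul, norm_inv, norm_norm, inv_mul_cancel₀ hx0.ne']
  have h3 : (‖x‖⁻¹ • x) ≠ 0 := by
    intro h4
    rw [h4, norm_zero] at h2
    exact zero_ne_one h2
  have h4 := h.hom s ‖x‖ (‖x‖⁻¹ • x) hx0 h3
  rw [← h1] at h4
  rw [h4, norm_mul, Complex.norm_cpow_eq_rpow_re_of_pos hx0, mul_comm]
  have h5 : (-(d * s + m : ℂ)).re = -(d * s.re + m) := by simp
  rw [h5]
  refine mul_le_mul_of_nonneg_right ?_ (by positivity)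
  exact (hC (s, ‖x‖⁻¹ • x) ⟨mem_closedBall_zero_iff.2 hs, mem_sphere_zero_iff_norm.2 h2⟩).trans (le_max_left _ _)

omit [ProperSpace V]

/-- The operator B. -/
noncomputable def Bop (R : Finset V) (G : V → ℂ) (x : V) : ℂ := G x - (R.card : ℂ)⁻¹ * ∑ r ∈ R, G (x + r)

theorem Bop_eq (R : Finset V) (hR : R.Nonempty) (G : V → ℂ) (x : V) :
    Bop R G x = (R.card : ℂ)⁻¹ * ∑ r ∈ R, (G x - G (x + r)) := by
  have h : (R.card : ℂ) ≠ 0 := Nat.cast_ne_zero.2 (Finset.card_pos.2 hR).ne'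
  unfold Bop
  rw [Finset.sum_sub_distrib, Finset.sum_const, nsmul_eq_mul, mul_sub, inv_mul_cancel_left₀ h]

/-- Line derivatives of the iterates. -/
theorem bop_deriv {R : Finset V} {M : ℝ} (hM0 : 0 ≤ M) (hM : ∀ r ∈ R, ‖r‖ ≤ M) (k : ℕ) (v : V) {G G' : V → ℂ} {ρ : ℝ}
    (h : ∀ y : V, ρ < ‖y‖ → HasDerivAt (fun t : ℝ => G (y + t • v)) (G' y) 0) :
    ∀ y : V, ρ + k * M < ‖y‖ → HasDerivAt (fun t : ℝ => (Bop R)^[k] G (y + t • v)) ((Bop R)^[k] G' y) 0 := by
  induction k generalizing G G' ρ with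
  | zero =>
    intro y hy
    have h1 : ρ < ‖y‖ := by simpa using hy
    exact h y h1
  | succ k ih =>
    intro y hy
    rw [Function.iterate_succ_apply, Function.iterate_succ_apply]
    refine ih (G := Bop R G) (G' := Bop R G') (ρ := ρ + M) (fun z hz => ?_) y ?_
    · unfold Bop
      refine (h z (by linarith)).sub (HasDerivAt.const_mul _ ?_)
      have h1 : ∀ r ∈ R, HasDerivAt (fun t : ℝ => G (z + t • v + r)) (G' (z + r)) 0 := by
        intro r hr
        have h2 : ρ < ‖z + r‖ := by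
          have h3 : ‖z‖ ≤ ‖z + r‖ + ‖r‖ := by
            have h4 := norm_sub_le (z + r) r
            rwa [add_sub_cancel_right] at h4
          have h5 := hM r hr
          linarith
        refine (h (z + r) h2).congr_of_eventuallyEq (Filter.Eventually.of_forall fun t => ?_)
        show G (z + t • v + r) = G (z + r + t • v)
        rw [add_right_comm]
      exact HasDerivAt.fun_sum h1
    · push_cast at hy
      linarith

/-- Comparison of powers of comparable numbers. -/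
theorem rpow_cmp {a b e E : ℝ} (ha : 0 < a) (hb : 0 < b) (h1 : a ≤ 2 * b) (h2 : b ≤ 2 * a) (he : |e| ≤ E) :
    b ^ e ≤ 2 ^ E * a ^ e := by
  have h3 : 0 < b / a := div_pos hb ha
  have h4 : b ^ e = (b / a) ^ e * a ^ e := by
    rw [← Real.mul_rpow h3.le ha.le, div_mul_cancel₀ _ ha.ne']
  rw [h4]
  refine mul_le_mul_of_nonneg_right ?_ (by positivity)
  have h5 : b / a ≤ 2 := (div_le_iff₀ ha).2 h2
  have h6 : 1 / 2 ≤ b / a := (le_div_iff₀ ha).2 (by linarith)
  obtain ⟨he1, he2⟩ := abs_le.1 he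
  rcases le_total 0 e with h0 | h0
  · calc (b / a) ^ e ≤ 2 ^ e := Real.rpow_le_rpow h3.le h5 h0
      _ ≤ 2 ^ E := Real.rpow_le_rpow_of_exponent_le (by norm_num) he2
  · calc (b / a) ^ e ≤ (1 / 2) ^ e := Real.rpow_le_rpow_of_nonpos (by norm_num) h6 h0
      _ = 2 ^ (-e) := by
        rw [one_div, Real.inv_rpow (by norm_num), Real.rpow_neg (by norm_num)]
      _ ≤ 2 ^ E := Real.rpow_le_rpow_of_exponent_le (by norm_num) (by linarith)

/-- MAIN ESTIMATE. -/
theorem bop_bound [ProperSpace V] {d : ℝ} {R : Finset V} (hR : R.Nonempty) (k : ℕ) {m : ℝ} {F : ℂ → V → ℂ} (h : HF d m F)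
    (b : ℝ) : ∃ C ρ : ℝ, 0 ≤ C ∧ 0 < ρ ∧ ∀ s : ℂ, ‖s‖ ≤ b → ∀ x : V, ρ ≤ ‖x‖ →
      ‖(Bop R)^[k] (F s) x‖ ≤ C * ‖x‖ ^ (-(d * s.re + m) - k) := by
  induction k generalizing m F with
  | zero =>
    obtain ⟨C, hC, h1⟩ := h.bound b
    refine ⟨C, 1, hC, one_pos, fun s hs x hx => ?_⟩
    have h2 : x ≠ 0 := by
      rintro rfl
      rw [norm_zero] at hx
      linarith
    simpa using h1 s hs x h2
  | succ k ih =>
    obtain ⟨M, hM0, hM⟩ : ∃ M : ℝ, 0 ≤ M ∧ ∀ r ∈ R, ‖r‖ ≤ M := by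
      refine ⟨∑ r ∈ R, ‖r‖, Finset.sum_nonneg fun _ _ => norm_nonneg _, fun r hr => ?_⟩
      exact Finset.single_le_sum (f := fun r => ‖r‖) (fun _ _ => norm_nonneg _) hr
    have h1 : ∀ r ∈ R, ∃ C ρ : ℝ, 0 ≤ C ∧ 0 < ρ ∧ ∀ s : ℂ, ‖s‖ ≤ b → ∀ x : V, ρ ≤ ‖x‖ →
        ‖(Bop R)^[k] (DF r F s) x‖ ≤ C * ‖x‖ ^ (-(d * s.re + (m + 1)) - k) := fun r _ => ih (h.deriv r)
    choose! C ρ hC hρ hb using h1
    set ρ₀ : ℝ := ∑ r ∈ R, ρ r + (k + 3) * (M + 1) with hρ₀
    set E : ℝ := |d| * b + |m + 1| + k with hE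
    have hρsum : ∀ r ∈ R, ρ r ≤ ∑ r ∈ R, ρ r := fun r hr =>
      Finset.single_le_sum (f := ρ) (fun r hr => (hρ r hr).le) hr
    have hρpos : 0 ≤ ∑ r ∈ R, ρ r := Finset.sum_nonneg fun r hr => (hρ r hr).le
    refine ⟨∑ r ∈ R, 2 ^ E * C r, 2 * ρ₀, Finset.sum_nonneg fun r hr => mul_nonneg (by positivity) (hC r hr), by positivity,
      fun s hs x hx => ?_⟩
    have hx0 : 0 < ‖x‖ := by
      have : 0 < ρ₀ := by positivity
      linarith
    rw [Function.iterate_succ_apply', Bop_eq R hR, norm_mul]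
    have hcard : (1 : ℝ) ≤ R.card := by exact_mod_cast Finset.card_pos.2 hR
    have h2 : ‖(R.card : ℂ)⁻¹‖ ≤ 1 := by
      rw [norm_inv, Complex.norm_natCast]
      exact inv_le_one_of_one_le₀ hcard
    refine (mul_le_of_le_one_left (norm_nonneg _) h2).trans ((norm_sum_le _ _).trans ?_)
    rw [Finset.sum_mul]
    refine Finset.sum_le_sum fun r hr => ?_
    -- the segment
    have hseg : ∀ t ∈ Set.Icc (0 : ℝ) 1, ‖x‖ / 2 ≤ ‖x + t • r‖ ∧ ‖x + t • r‖ ≤ 2 * ‖x‖ := by
      intro t ht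
      have h3 : ‖t • r‖ ≤ M := by
        rw [norm_smul, Real.norm_of_nonneg ht.1]
        calc t * ‖r‖ ≤ 1 * M := mul_le_mul ht.2 (hM r hr) (norm_nonneg _) zero_le_one
          _ = M := one_mul M
      have h4 : M ≤ ‖x‖ / 2 := by
        have : M ≤ ρ₀ := by
          have h5 : (k + 3) * (M + 1) = M + (k * (M + 1) + 2 * M + 3) := by ring
          have h6 : (0 : ℝ) ≤ k * (M + 1) + 2 * M + 3 := by positivity
          linarith
        linarith
      have h5 := norm_add_le x (t • r)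
      have h6 : ‖x‖ ≤ ‖x + t • r‖ + ‖t • r‖ := by
        have h7 := norm_sub_le (x + t • r) (t • r)
        rwa [add_sub_cancel_right] at h7
      constructor <;> linarith
    have hder : ∀ t ∈ Set.Icc (0 : ℝ) 1, HasDerivAt (fun t : ℝ => (Bop R)^[k] (F s) (x + t • r))
        ((Bop R)^[k] (DF r F s) (x + t • r)) t := by
      intro t ht
      have h3 : ∀ y : V, 0 < ‖y‖ → HasDerivAt (fun t : ℝ => F s (y + t • r)) (DF r F s y) 0 := by
        intro y hy
        have h4 := (h.differentiableAt s (norm_pos_iff.1 hy)).hasFDerivAt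
        have h5 : HasDerivAt (fun t : ℝ => y + t • r) r 0 := by
          have h6 := ((hasDerivAt_id (0 : ℝ)).smul_const r).const_add y
          simpa using h6
        have h7 : HasFDerivAt (F s) (fderiv ℝ (F s) y) (y + (0 : ℝ) • r) := by simpa using h4
        exact h7.comp_hasDerivAt (0 : ℝ) h5
      have h4 : 0 + (k : ℝ) * M < ‖x + t • r‖ := by
        have h5 := (hseg t ht).1
        have h6 : (k : ℝ) * M < ρ₀ := by
          have h7 : (k + 3) * (M + 1) = k * M + (k + 3 * M + 3) := by ring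
          have h8 : (0 : ℝ) < k + 3 * M + 3 := by positivity
          linarith
        linarith
      have h5 := bop_deriv hM0 hM k r h3 (x + t • r) h4
      have h6 : HasDerivAt (fun u : ℝ => u - t) 1 t := (hasDerivAt_id t).sub_const t
      have h7 : HasDerivAt (fun u : ℝ => (Bop R)^[k] (F s) (x + t • r + u • r)) ((Bop R)^[k] (DF r F s) (x + t • r)) (t - t) := by
        rw [sub_self]
        exact h5
      have h8 := HasDerivAt.scomp (h := fun u : ℝ => u - t) t h7 h6
      rw [one_smul] at h8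
      refine h8.congr_of_eventuallyEq (Filter.Eventually.of_forall fun u => ?_)
      show (Bop R)^[k] (F s) (x + u • r) = (Bop R)^[k] (F s) (x + t • r + (u - t) • r)
      rw [add_assoc, ← add_smul, add_sub_cancel]
    have hbd : ∀ t ∈ Set.Icc (0 : ℝ) 1, ‖(Bop R)^[k] (DF r F s) (x + t • r)‖ ≤
        2 ^ E * C r * ‖x‖ ^ (-(d * s.re + m) - (k + 1 : ℕ)) := by
      intro t ht
      obtain ⟨g1, g2⟩ := hseg t ht
      have h3 : ρ r ≤ ‖x + t • r‖ := by
        have h4 := hρsum r hr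
        have h5 : 0 ≤ (k + 3) * (M + 1) := by positivity
        linarith
      have h4 := hb r hr s hs (x + t • r) h3
      refine h4.trans ?_
      have h5 : (-(d * s.re + (m + 1)) - k : ℝ) = -(d * s.re + m) - (k + 1 : ℕ) := by
        push_cast
        ring
      rw [h5, mul_comm (2 ^ E) (C r), mul_assoc]
      refine mul_le_mul_of_nonneg_left ?_ (hC r hr)
      refine rpow_cmp hx0 (by linarith) (by linarith) (by linarith) ?_
      rw [← h5]
      have h6 : |d * s.re| ≤ |d| * b := by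
        rw [abs_mul]
        exact mul_le_mul_of_nonneg_left ((Complex.abs_re_le_norm s).trans hs) (abs_nonneg _)
      have h7 : -(d * s.re + (m + 1)) - (k : ℝ) = -(d * s.re) + -(m + 1) + -(k : ℝ) := by ring
      rw [h7]
      refine (abs_add_three _ _ _).trans ?_
      rw [abs_neg, abs_neg, abs_neg, Nat.abs_cast]
      linarith
    have hmv := (convex_Icc (0 : ℝ) 1).norm_image_sub_le_of_norm_hasDerivWithin_le
      (f := fun t : ℝ => (Bop R)^[k] (F s) (x + t • r)) (fun t ht => (hder t ht).hasDerivWithinAt) hbd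
      (Set.left_mem_Icc.2 zero_le_one) (Set.right_mem_Icc.2 zero_le_one)
    simp only [one_smul, zero_smul, add_zero, sub_zero, norm_one, mul_one] at hmv
    rw [norm_sub_rev]
    exact hmv

end CFTL
end

-- from Lib.CFT.L2
section

/-! # CFT, module ZL, part 2: sums of homogeneous families over a lattice with periodic coefficients of mean zero

A: the lattice (an abstract group), e : A → V its embedding, J a subgroup of finite index, R representatives of A/J in V. For periodic coefficients a with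
sum 0, the sum of a(x) G(x) is the sum of a(x) (B^k G)(x); for a homogeneous family this is analytic for Re s > 1 - k/d (periodicK). -/

open scoped ContDiff

namespace CFTL

variable {V : Type} [NormedAddCommGroup V] [NormedSpace ℝ V]

section sums

variable {A : Type} [AddCommGroup A] (e : A →+ V) (he : Function.Injective e) (J : AddSubgroup A)

/-- Representatives of A / J. -/
def IsRep (R : Finset A) : Prop := Function.Bijective fun r : R => (QuotientAddGroup.mk (r : A) : A ⧸ J)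

theorem exists_rep [Finite (A ⧸ J)] : ∃ R : Finset A, IsRep J R := by
  classical
  have := Fintype.ofFinite (A ⧸ J)
  refine ⟨Finset.univ.image fun q : A ⧸ J => q.out, ?_⟩
  constructor
  · rintro ⟨r, hr⟩ ⟨r', hr'⟩ h
    rw [Finset.mem_image] at hr hr'
    obtain ⟨q, -, rfl⟩ := hr
    obtain ⟨q', -, rfl⟩ := hr'
    have h1 : (QuotientAddGroup.mk q.out : A ⧸ J) = QuotientAddGroup.mk q'.out := h
    rw [QuotientAddGroup.out_eq', QuotientAddGroup.out_eq'] at h1
    subst h1
    rfl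
  · intro q
    exact ⟨⟨q.out, Finset.mem_image_of_mem _ (Finset.mem_univ q)⟩, QuotientAddGroup.out_eq' q⟩

variable {J}

theorem rep_sum [Finite (A ⧸ J)] {R : Finset A} (hR : IsRep J R) {a : A ⧸ J → ℂ} (ha : ∑ᶠ q, a q = 0) (y : A) :
    ∑ r ∈ R, a (QuotientAddGroup.mk (y - r)) = 0 := by
  classical
  have := Fintype.ofFinite (A ⧸ J)
  rw [finsum_eq_sum_of_fintype] at ha
  rw [← Finset.sum_coe_sort R (fun r => a (QuotientAddGroup.mk (y - r))), ← ha]
  let f : R ≃ A ⧸ J := Equiv.ofBijective _ hR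
  refine Fintype.sum_equiv (f.trans (Equiv.subLeft (QuotientAddGroup.mk y))) _ _ fun r => ?_
  rfl

variable {e}

theorem sum_bop [Finite (A ⧸ J)] {R : Finset A} (hR : IsRep J R) {a : A ⧸ J → ℂ} (ha : ∑ᶠ q, a q = 0) {G : V → ℂ}
    (hG : Summable fun x : A => G (e x)) :
    (Summable fun x : A => Bop (R.map ⟨e, he⟩) G (e x)) ∧
      ∑' x : A, a (QuotientAddGroup.mk x) * Bop (R.map ⟨e, he⟩) G (e x) = ∑' x : A, a (QuotientAddGroup.mk x) * G (e x) := by
  classical
  have := Fintype.ofFinite (A ⧸ J)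
  have hbd : ∃ M : ℝ, ∀ q, ‖a q‖ ≤ M :=
    ⟨∑ q, ‖a q‖, fun q => Finset.single_le_sum (f := fun q => ‖a q‖) (fun _ _ => norm_nonneg _) (Finset.mem_univ q)⟩
  obtain ⟨M, hM⟩ := hbd
  have hmul : ∀ {g : A → ℂ} (f : A → A ⧸ J), Summable g → Summable fun x => a (f x) * g x := by
    intro g f hg
    refine Summable.of_norm_bounded (hg.norm.mul_left M) fun x => ?_
    rw [norm_mul]
    exact mul_le_mul_of_nonneg_right (hM _) (norm_nonneg _)
  have hsh : ∀ r : A, Summable fun x : A => G (e (x + r)) := fun r =>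
    (Equiv.addRight r).summable_iff.2 hG
  have e1 : ∀ x : A, Bop (R.map ⟨e, he⟩) G (e x) = G (e x) - (R.card : ℂ)⁻¹ * ∑ r ∈ R, G (e (x + r)) := by
    intro x
    unfold Bop
    rw [Finset.card_map, Finset.sum_map]
    congr 2
    refine Finset.sum_congr rfl fun r _ => ?_
    show G (e x + e r) = G (e (x + r))
    rw [map_add]
  have hs2 : Summable fun x : A => (R.card : ℂ)⁻¹ * ∑ r ∈ R, G (e (x + r)) :=
    (summable_sum fun r _ => hsh r).mul_left _
  constructor
  · exact (hG.sub hs2).congr fun x => (e1 x).symm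
  · have e2 : ∀ x : A, a (QuotientAddGroup.mk x) * Bop (R.map ⟨e, he⟩) G (e x) =
        a (QuotientAddGroup.mk x) * G (e x) - (R.card : ℂ)⁻¹ * ∑ r ∈ R, a (QuotientAddGroup.mk x) * G (e (x + r)) := by
      intro x
      rw [e1, mul_sub, ← Finset.mul_sum]
      ring
    have hs3 : ∀ r ∈ R, Summable fun x : A => a (QuotientAddGroup.mk x) * G (e (x + r)) := fun r _ =>
      hmul (fun x => QuotientAddGroup.mk x) (hsh r)
    rw [tsum_congr e2, (hmul (fun x => QuotientAddGroup.mk x) hG).tsum_sub ((summable_sum hs3).mul_left _), tsum_mul_left,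
      Summable.tsum_finsetSum hs3]
    have e3 : ∀ r ∈ R, ∑' x : A, a (QuotientAddGroup.mk x) * G (e (x + r)) =
        ∑' y : A, a (QuotientAddGroup.mk (y - r)) * G (e y) := by
      intro r _
      rw [← (Equiv.addRight r).tsum_eq (fun y : A => a (QuotientAddGroup.mk (y - r)) * G (e y))]
      refine tsum_congr fun x => ?_
      simp
    have hs4 : ∀ r ∈ R, Summable fun y : A => a (QuotientAddGroup.mk (y - r)) * G (e y) := fun r _ =>
      hmul (fun y => QuotientAddGroup.mk (y - r)) hG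
    rw [Finset.sum_congr rfl e3, ← Summable.tsum_finsetSum hs4]
    have e4 : ∀ y : A, ∑ r ∈ R, a (QuotientAddGroup.mk (y - r)) * G (e y) = 0 := by
      intro y
      rw [← Finset.sum_mul, rep_sum hR ha, zero_mul]
    rw [tsum_congr e4, tsum_zero, mul_zero, sub_zero]

theorem sum_bop_iter [Finite (A ⧸ J)] {R : Finset A} (hR : IsRep J R) {a : A ⧸ J → ℂ} (ha : ∑ᶠ q, a q = 0) (k : ℕ) {G : V → ℂ}
    (hG : Summable fun x : A => G (e x)) :
    ∑' x : A, a (QuotientAddGroup.mk x) * (Bop (R.map ⟨e, he⟩))^[k] G (e x) = ∑' x : A, a (QuotientAddGroup.mk x) * G (e x) := by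
  induction k generalizing G with
  | zero => rfl
  | succ k ih =>
    obtain ⟨h1, h2⟩ := sum_bop he hR ha hG
    rw [← h2, ← ih h1]
    rfl

end sums

theorem bop_diff (R : Finset V) (k : ℕ) {F : ℂ → V → ℂ} (h : ∀ y, Differentiable ℂ fun s => F s y) (y : V) :
    Differentiable ℂ fun s => (Bop R)^[k] (F s) y := by
  induction k generalizing F y with
  | zero => exact h y
  | succ k ih =>
    have h1 : ∀ y, Differentiable ℂ fun s => Bop R (F s) y := by
      intro y
      unfold Bop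
      exact (h y).sub ((Differentiable.fun_sum fun r _ => h (y + r)).const_mul _)
    exact ih h1 y

/-- MAIN LEMMA. -/
theorem periodicK [ProperSpace V] {A : Type} [AddCommGroup A] {e : A →+ V} (he : Function.Injective e) {J : AddSubgroup A}
    [Finite (A ⧸ J)] {d : ℝ} (hd : 0 < d) (hsum : ∀ β : ℝ, d < β → Summable fun x : A => ‖e x‖ ^ (-β))
    (hfin : ∀ ρ : ℝ, {x : A | ‖e x‖ < ρ}.Finite) {F : ℂ → V → ℂ} (h : HF d 0 F) (h0 : ∀ s, F s 0 = 0)
    (hs : ∀ y, Differentiable ℂ fun s => F s y) {a : A ⧸ J → ℂ} (ha : ∑ᶠ q, a q = 0) (k : ℕ) :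
    ∃ H : ℂ → ℂ, DifferentiableOn ℂ H {s | 1 - k / d < s.re} ∧
      ∀ s : ℂ, 1 < s.re → H s = ∑' x : A, a (QuotientAddGroup.mk x) * F s (e x) := by
  classical
  obtain ⟨R, hR⟩ := exists_rep J
  have hRne : (R.map ⟨e, he⟩).Nonempty := by
    obtain ⟨r, -⟩ := hR.2 (QuotientAddGroup.mk 0)
    exact ⟨e r, Finset.mem_map_of_mem ⟨e, he⟩ r.2⟩
  have := Fintype.ofFinite (A ⧸ J)
  obtain ⟨M, hM0, hM⟩ : ∃ M : ℝ, 0 ≤ M ∧ ∀ q, ‖a q‖ ≤ M :=
    ⟨∑ q, ‖a q‖, Finset.sum_nonneg fun _ _ => norm_nonneg _, fun q =>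
      Finset.single_le_sum (f := fun q => ‖a q‖) (fun _ _ => norm_nonneg _) (Finset.mem_univ q)⟩
  refine ⟨fun s => ∑' x : A, a (QuotientAddGroup.mk x) * (Bop (R.map ⟨e, he⟩))^[k] (F s) (e x), ?_, ?_⟩
  · intro s₀ hs₀
    have hs₀' : 1 - k / d < s₀.re := hs₀
    obtain ⟨σ, hσ1, hσ2⟩ := exists_between hs₀'
    obtain ⟨C, ρ, hC, hρ, hb⟩ := bop_bound hRne k h (‖s₀‖ + 1)
    set U : Set ℂ := {s | ‖s‖ < ‖s₀‖ + 1} ∩ {s | σ < s.re} with hU
    have hUo : IsOpen U := (isOpen_lt continuous_norm continuous_const).inter (isOpen_lt continuous_const Complex.continuous_re)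
    have hmem : s₀ ∈ U := ⟨by show ‖s₀‖ < ‖s₀‖ + 1; linarith, hσ2⟩
    have hdf : ∀ y : V, Differentiable ℂ fun s => (Bop (R.map ⟨e, he⟩))^[k] (F s) y := fun y => bop_diff _ k hs y
    -- bounds for the finitely many small x
    have hsmall : ∀ x : A, ∃ B : ℝ, ∀ s : ℂ, ‖s‖ ≤ ‖s₀‖ + 1 → ‖(Bop (R.map ⟨e, he⟩))^[k] (F s) (e x)‖ ≤ B := by
      intro x
      obtain ⟨B, hB⟩ := (isCompact_closedBall (0 : ℂ) (‖s₀‖ + 1)).exists_bound_of_continuousOn
        (hdf (e x)).continuous.continuousOn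
      exact ⟨B, fun s hs => hB s (mem_closedBall_zero_iff.2 hs)⟩
    choose B hB using hsmall
    have hβ : d < d * σ + k := by
      have h1 : (1 - k / d) * d < σ * d := mul_lt_mul_of_pos_right hσ1 hd
      have h2 : (1 - k / d) * d = d - k := by field_simp
      linarith
    set u : A → ℝ := fun x => M * C * ‖e x‖ ^ (-(d * σ + k)) + (if ‖e x‖ < max ρ 1 then M * |B x| else 0) with hu
    have husum : Summable u := by
      refine ((hsum _ hβ).mul_left _).add (summable_of_hasFiniteSupport ((hfin (max ρ 1)).subset fun x hx => ?_))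
      by_contra hne
      exact hx (if_neg hne)
    have hdo : DifferentiableOn ℂ (fun s => ∑' x : A, a (QuotientAddGroup.mk x) * (Bop (R.map ⟨e, he⟩))^[k] (F s) (e x)) U := by
      refine Complex.differentiableOn_tsum_of_summable_norm husum (fun x => ((hdf (e x)).const_mul _).differentiableOn) hUo ?_
      rintro x s ⟨hs1, hs2⟩
      have hs1' : ‖s‖ ≤ ‖s₀‖ + 1 := le_of_lt hs1
      have hs2' : σ < s.re := hs2
      rw [norm_mul]
      have hnn : 0 ≤ M * C * ‖e x‖ ^ (-(d * σ + k)) := by positivity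
      by_cases hx : ‖e x‖ < max ρ 1
      · rw [hu]
        simp only
        rw [if_pos hx]
        have h1 : ‖a (QuotientAddGroup.mk x)‖ * ‖(Bop (R.map ⟨e, he⟩))^[k] (F s) (e x)‖ ≤ M * |B x| :=
          mul_le_mul (hM _) ((hB x s hs1').trans (le_abs_self _)) (norm_nonneg _) hM0
        linarith
      · rw [hu]
        simp only
        rw [if_neg hx, add_zero, mul_assoc]
        push Not at hx
        have h1 : ρ ≤ ‖e x‖ := (le_max_left _ _).trans hx
        have h2 : 1 ≤ ‖e x‖ := (le_max_right _ _).trans hx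
        refine mul_le_mul (hM _) ((hb s hs1' (e x) h1).trans ?_) (norm_nonneg _) hM0
        refine mul_le_mul_of_nonneg_left (Real.rpow_le_rpow_of_exponent_le h2 ?_) hC
        have h3 : d * σ ≤ d * s.re := mul_le_mul_of_nonneg_left hs2'.le hd.le
        linarith
    exact (hdo.differentiableAt (hUo.mem_nhds hmem)).differentiableWithinAt
  · intro s hs1
    refine sum_bop_iter he hR ha k ?_
    obtain ⟨C, hC, hb⟩ := h.bound ‖s‖
    refine Summable.of_norm_bounded ((hsum (d * s.re) (by nlinarith)).mul_left C) fun x => ?_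
    by_cases hx : e x = 0
    · rw [hx, h0, norm_zero]
      positivity
    · have h1 := hb s le_rfl (e x) hx
      rwa [add_zero] at h1

end CFTL
end

-- from Lib.CFT.L3
section

/-! # CFT, module ZL, part 3: a smooth partition of unity for the action of a group of units

part_smooth: for a subgroup E of finite index in the units there is w : mixedSpace K → ℝ, smooth on the nonzero vectors, homogeneous of degree 0, with support
in a region ‖x‖^d ≤ A norm x, such that the sum of the w (u x), u in E, is 1 for all x with norm x ≠ 0. -/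

open NumberField NumberField.InfinitePlace NumberField.mixedEmbedding
open scoped ContDiff

namespace CFTL

open scoped Classical

variable {K : Type} [Field K] [NumberField K]

/-- The sum of the squares of the coordinates. -/
noncomputable def Qf (x : mixedSpace K) : ℝ := ∑ w : InfinitePlace K, normAtPlace w x ^ 2

/-- The square of the norm. -/
noncomputable def Pf (x : mixedSpace K) : ℝ := ∏ w : InfinitePlace K, (normAtPlace w x ^ 2) ^ w.mult

theorem Pf_eq (x : mixedSpace K) : Pf x = mixedEmbedding.norm x ^ 2 := by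
  unfold Pf
  rw [mixedEmbedding.norm_apply, ← Finset.prod_pow]
  refine Finset.prod_congr rfl fun w _ => ?_
  rw [← pow_mul, ← pow_mul, mul_comm]

theorem cd_sq (w : InfinitePlace K) : ContDiff ℝ ∞ fun x : mixedSpace K => normAtPlace w x ^ 2 := by
  rcases w.isReal_or_isComplex with h | h
  · have h1 : (fun x : mixedSpace K => normAtPlace w x ^ 2) = fun x => (x.1 ⟨w, h⟩) ^ 2 := by
      funext x
      rw [normAtPlace_apply_of_isReal h, Real.norm_eq_abs, sq_abs]
    rw [h1]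
    exact ((contDiff_apply ℝ ℝ (⟨w, h⟩ : {w : InfinitePlace K // IsReal w})).comp contDiff_fst).pow 2
  · have h1 : (fun x : mixedSpace K => normAtPlace w x ^ 2) = fun x => ‖x.2 ⟨w, h⟩‖ ^ 2 := by
      funext x
      rw [normAtPlace_apply_of_isComplex h]
    rw [h1]
    exact ((contDiff_apply ℝ ℂ (⟨w, h⟩ : {w : InfinitePlace K // IsComplex w})).comp contDiff_snd).norm_sq ℝ

theorem cd_Qf : ContDiff ℝ ∞ (Qf : mixedSpace K → ℝ) := by
  unfold Qf
  exact ContDiff.sum fun w _ => cd_sq w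

theorem cd_Pf : ContDiff ℝ ∞ (Pf : mixedSpace K → ℝ) := by
  unfold Pf
  exact contDiff_prod fun w _ => (cd_sq w).pow _

theorem place_le (x : mixedSpace K) (w : InfinitePlace K) : normAtPlace w x ≤ ‖x‖ := by
  rw [norm_eq_sup'_normAtPlace]
  exact Finset.le_sup' (fun w => normAtPlace w x) (Finset.mem_univ w)

theorem norm_sq_le (x : mixedSpace K) : ‖x‖ ^ 2 ≤ Qf x := by
  obtain ⟨w, -, hw⟩ := Finset.exists_mem_eq_sup' (Finset.univ_nonempty (α := InfinitePlace K)) (fun w => normAtPlace w x)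
  rw [norm_eq_sup'_normAtPlace, hw]
  exact Finset.single_le_sum (f := fun w => normAtPlace w x ^ 2) (fun w _ => sq_nonneg _) (Finset.mem_univ w)

theorem Qf_le (x : mixedSpace K) : Qf x ≤ Fintype.card (InfinitePlace K) * ‖x‖ ^ 2 := by
  unfold Qf
  calc ∑ w : InfinitePlace K, normAtPlace w x ^ 2 ≤ ∑ _w : InfinitePlace K, ‖x‖ ^ 2 :=
        Finset.sum_le_sum fun w _ => pow_le_pow_left₀ (normAtPlace_nonneg w x) (place_le x w) 2
    _ = Fintype.card (InfinitePlace K) * ‖x‖ ^ 2 := by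
        rw [Finset.sum_const, Finset.card_univ, nsmul_eq_mul]

theorem Qf_pos {x : mixedSpace K} (hx : x ≠ 0) : 0 < Qf x :=
  lt_of_lt_of_le (by positivity) (norm_sq_le x)

theorem Qf_smul (t : ℝ) (x : mixedSpace K) : Qf (t • x) = t ^ 2 * Qf x := by
  unfold Qf
  rw [Finset.mul_sum]
  refine Finset.sum_congr rfl fun w _ => ?_
  rw [normAtPlace_smul, mul_pow, sq_abs]

theorem Pf_smul (t : ℝ) (x : mixedSpace K) : Pf (t • x) = (t ^ 2) ^ Module.finrank ℚ K * Pf x := by
  rw [Pf_eq, Pf_eq, mixedEmbedding.norm_smul, mul_pow, ← pow_mul, ← pow_mul, mul_comm 2, pow_mul |t|, pow_mul t]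
  congr 1
  rw [← pow_mul, ← pow_mul, mul_comm, pow_mul, pow_mul, sq_abs]

/-- The ratio. -/
noncomputable def rat (x : mixedSpace K) : ℝ := Pf x / Qf x ^ Module.finrank ℚ K

/-- The cut-off function. -/
noncomputable def cut (δ : ℝ) (x : mixedSpace K) : ℝ := Real.smoothTransition (rat x / δ - 1)

theorem rat_smul {t : ℝ} (ht : t ≠ 0) (x : mixedSpace K) : rat (t • x) = rat x := by
  unfold rat
  rw [Pf_smul, Qf_smul, mul_pow]
  exact mul_div_mul_left _ _ (pow_ne_zero _ (pow_ne_zero _ ht))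

theorem cd_rat : ContDiffOn ℝ ∞ (rat : mixedSpace K → ℝ) {0}ᶜ := by
  unfold rat
  refine cd_Pf.contDiffOn.div (cd_Qf.contDiffOn.pow _) fun x hx => ?_
  exact pow_ne_zero _ (Qf_pos hx).ne'

theorem cd_cut (δ : ℝ) : ContDiffOn ℝ ∞ (cut δ : mixedSpace K → ℝ) {0}ᶜ := by
  unfold cut
  exact (Real.smoothTransition.contDiff (n := ⊤)).comp_contDiffOn ((cd_rat.div_const δ).sub contDiffOn_const)

theorem cut_nonneg (δ : ℝ) (x : mixedSpace K) : 0 ≤ cut δ x := Real.smoothTransition.nonneg _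

theorem cut_zero {δ : ℝ} (hδ : 0 < δ) {x : mixedSpace K} (h : rat x ≤ δ) : cut δ x = 0 := by
  unfold cut
  refine Real.smoothTransition.zero_of_nonpos ?_
  have h1 : rat x / δ ≤ 1 := (div_le_one hδ).2 h
  linarith

theorem cut_one {δ : ℝ} (hδ : 0 < δ) {x : mixedSpace K} (h : 2 * δ ≤ rat x) : cut δ x = 1 := by
  unfold cut
  refine Real.smoothTransition.one_of_one_le ?_
  have h1 : 2 ≤ rat x / δ := (le_div_iff₀ hδ).2 h
  linarith

/-- In the support of the cut-off function the coordinates are comparable. -/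
theorem cut_supp {δ : ℝ} (hδ : 0 < δ) {x : mixedSpace K} (h : cut δ x ≠ 0) :
    ‖x‖ ^ Module.finrank ℚ K ≤ (Real.sqrt δ)⁻¹ * mixedEmbedding.norm x := by
  have h1 : δ < rat x := by
    by_contra h2
    exact h (cut_zero hδ (not_lt.1 h2))
  have hx : x ≠ 0 := by
    rintro rfl
    have h3 : rat (0 : mixedSpace K) = 0 := by
      unfold rat
      rw [Pf_eq, map_zero]
      simp
    rw [h3] at h1
    linarith
  have h2 : δ * Qf x ^ Module.finrank ℚ K < Pf x := (lt_div_iff₀ (pow_pos (Qf_pos hx) _)).1 h1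
  rw [Pf_eq] at h2
  have h3 : δ * (‖x‖ ^ Module.finrank ℚ K) ^ 2 ≤ mixedEmbedding.norm x ^ 2 := by
    refine le_trans (mul_le_mul_of_nonneg_left ?_ hδ.le) h2.le
    rw [← pow_mul, mul_comm, pow_mul]
    exact pow_le_pow_left₀ (by positivity) (norm_sq_le x) _
  have h4 : (Real.sqrt δ * ‖x‖ ^ Module.finrank ℚ K) ^ 2 ≤ mixedEmbedding.norm x ^ 2 := by
    rw [mul_pow, Real.sq_sqrt hδ.le]
    exact h3
  have h5 := le_of_sq_le_sq h4 (mixedEmbedding.norm_nonneg x)
  have h6 : 0 < Real.sqrt δ := Real.sqrt_pos.2 hδ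
  rw [inv_mul_eq_div, le_div_iff₀ h6, mul_comm]
  exact h5

/-- Balanced vectors are in the support. -/
theorem cut_bal {C : ℝ} (hC : 0 < C) : ∃ δ : ℝ, 0 < δ ∧ ∀ x : mixedSpace K, mixedEmbedding.norm x ≠ 0 →
    ‖x‖ ^ Module.finrank ℚ K ≤ C * mixedEmbedding.norm x → cut δ x = 1 := by
  obtain ⟨r, hr⟩ : ∃ r : ℝ, r = (Fintype.card (InfinitePlace K) : ℝ) := ⟨_, rfl⟩
  have hr0 : 0 < r := by
    rw [hr]
    exact_mod_cast Fintype.card_pos
  refine ⟨(2 * (r ^ Module.finrank ℚ K * C ^ 2))⁻¹, by positivity, fun x hx h => cut_one (by positivity) ?_⟩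
  have hx0 : x ≠ 0 := by
    rintro rfl
    exact hx (map_zero _)
  have h1 : Qf x ^ Module.finrank ℚ K ≤ r ^ Module.finrank ℚ K * C ^ 2 * Pf x := by
    calc Qf x ^ Module.finrank ℚ K ≤ (r * ‖x‖ ^ 2) ^ Module.finrank ℚ K :=
          pow_le_pow_left₀ (Qf_pos hx0).le (by rw [hr]; exact Qf_le x) _
      _ = r ^ Module.finrank ℚ K * (‖x‖ ^ Module.finrank ℚ K) ^ 2 := by
        rw [mul_pow, ← pow_mul, ← pow_mul, mul_comm 2]
      _ ≤ r ^ Module.finrank ℚ K * (C * mixedEmbedding.norm x) ^ 2 := by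
        refine mul_le_mul_of_nonneg_left (pow_le_pow_left₀ (by positivity) h 2) (by positivity)
      _ = r ^ Module.finrank ℚ K * C ^ 2 * Pf x := by
        rw [Pf_eq, mul_pow]
        ring
  unfold rat
  rw [le_div_iff₀ (pow_pos (Qf_pos hx0) _)]
  have h2 : 2 * (2 * (r ^ Module.finrank ℚ K * C ^ 2))⁻¹ = (r ^ Module.finrank ℚ K * C ^ 2)⁻¹ := by
    rw [mul_inv]
    ring
  rw [h2, inv_mul_le_iff₀ (by positivity)]
  exact h1

theorem place_unit_smul (w : InfinitePlace K) (u : (𝓞 K)ˣ) (x : mixedSpace K) :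
    normAtPlace w (u • x) = w ((u : 𝓞 K) : K) * normAtPlace w x := by
  rw [unitSMul_smul, map_mul, normAtPlace_apply]

/-- Every vector can be balanced by a unit. -/
theorem cocomp_all (K : Type) [Field K] [NumberField K] : ∃ C : ℝ, 0 < C ∧ ∀ x : mixedSpace K, mixedEmbedding.norm x ≠ 0 →
    ∃ u : (𝓞 K)ˣ, ‖u • x‖ ^ Module.finrank ℚ K ≤ C * mixedEmbedding.norm x := by
  obtain ⟨B, hB⟩ := isBounded_iff_forall_norm_le.1 (fundamentalCone.isBounded_normLeOne (K := K))
  have hd : (Module.finrank ℚ K : ℝ) ≠ 0 := by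
    exact_mod_cast (Module.finrank_pos (R := ℚ) (M := K)).ne'
  refine ⟨(|B| + 1) ^ Module.finrank ℚ K, by positivity, fun x hx => ?_⟩
  obtain ⟨u, hu⟩ := fundamentalCone.exists_unit_smul_mem hx
  refine ⟨u, ?_⟩
  have hn : 0 < mixedEmbedding.norm x := lt_of_le_of_ne (mixedEmbedding.norm_nonneg x) (Ne.symm hx)
  set n := mixedEmbedding.norm x with hn'
  set c : ℝ := n ^ (-(1 / (Module.finrank ℚ K : ℝ))) with hc
  have hc0 : 0 < c := Real.rpow_pos_of_pos hn _
  have hcd : c ^ Module.finrank ℚ K = n⁻¹ := by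
    rw [hc, ← Real.rpow_natCast, ← Real.rpow_mul hn.le]
    rw [neg_mul, one_div, inv_mul_cancel₀ hd, Real.rpow_neg_one]
  have h1 : c • (u • x) ∈ fundamentalCone.normLeOne K := by
    refine ⟨fundamentalCone.smul_mem_of_mem hu hc0.ne', ?_⟩
    show mixedEmbedding.norm (c • (u • x)) ≤ 1
    rw [mixedEmbedding.norm_smul, mixedEmbedding.norm_unit_smul, abs_of_pos hc0, hcd, ← hn', inv_mul_cancel₀ hn.ne']
  have h2 := hB _ h1
  rw [_root_.norm_smul, Real.norm_of_nonneg hc0.le] at h2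
  have h3 : (c * ‖u • x‖) ^ Module.finrank ℚ K ≤ (|B| + 1) ^ Module.finrank ℚ K :=
    pow_le_pow_left₀ (by positivity) (h2.trans (by linarith [le_abs_self B])) _
  rw [mul_pow, hcd, inv_mul_le_iff₀ hn, mul_comm n] at h3
  exact h3

theorem cocomp_sub (E : Subgroup (𝓞 K)ˣ) [E.FiniteIndex] : ∃ C : ℝ, 0 < C ∧ ∀ x : mixedSpace K, mixedEmbedding.norm x ≠ 0 →
    ∃ u ∈ E, ‖u • x‖ ^ Module.finrank ℚ K ≤ C * mixedEmbedding.norm x := by

  obtain ⟨C, hC, h⟩ := cocomp_all K
  have hfin : Finite ((𝓞 K)ˣ ⧸ E) := Subgroup.finite_quotient_of_finiteIndex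
  have := Fintype.ofFinite ((𝓞 K)ˣ ⧸ E)
  set M : ℝ := ∑ q : (𝓞 K)ˣ ⧸ E, ‖mixedEmbedding K (((q.out⁻¹ : (𝓞 K)ˣ) : 𝓞 K) : K)‖ with hM
  have hM0 : 0 ≤ M := Finset.sum_nonneg fun _ _ => norm_nonneg _
  refine ⟨(M + 1) ^ Module.finrank ℚ K * C, by positivity, fun x hx => ?_⟩
  obtain ⟨u, hu⟩ := h x hx
  set q : (𝓞 K)ˣ ⧸ E := QuotientGroup.mk u with hq
  have h1 : q.out⁻¹ * u ∈ E := by
    rw [← QuotientGroup.eq]
    exact QuotientGroup.out_eq' q
  refine ⟨q.out⁻¹ * u, h1, ?_⟩
  have h2 : ‖(q.out⁻¹ * u) • x‖ ≤ M * ‖u • x‖ := by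
    rw [mul_smul]
    have h3 : ‖q.out⁻¹ • (u • x)‖ ≤ ‖mixedEmbedding K (((q.out⁻¹ : (𝓞 K)ˣ) : 𝓞 K) : K)‖ * ‖u • x‖ := by
      rw [norm_eq_sup'_normAtPlace]
      refine Finset.sup'_le _ _ fun w _ => ?_
      rw [place_unit_smul, ← normAtPlace_apply]
      exact mul_le_mul (place_le _ w) (place_le _ w) (normAtPlace_nonneg _ _) (norm_nonneg _)
    refine h3.trans (mul_le_mul_of_nonneg_right ?_ (norm_nonneg _))
    exact Finset.single_le_sum (f := fun q : (𝓞 K)ˣ ⧸ E => ‖mixedEmbedding K (((q.out⁻¹ : (𝓞 K)ˣ) : 𝓞 K) : K)‖)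
      (fun _ _ => norm_nonneg _) (Finset.mem_univ q)
  calc ‖(q.out⁻¹ * u) • x‖ ^ Module.finrank ℚ K ≤ ((M + 1) * ‖u • x‖) ^ Module.finrank ℚ K := by
        refine pow_le_pow_left₀ (norm_nonneg _) (h2.trans ?_) _
        exact mul_le_mul_of_nonneg_right (by linarith) (norm_nonneg _)
    _ = (M + 1) ^ Module.finrank ℚ K * ‖u • x‖ ^ Module.finrank ℚ K := mul_pow _ _ _
    _ ≤ (M + 1) ^ Module.finrank ℚ K * (C * mixedEmbedding.norm x) := mul_le_mul_of_nonneg_left hu (by positivity)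
    _ = (M + 1) ^ Module.finrank ℚ K * C * mixedEmbedding.norm x := by ring

/-- Units with bounded absolute values. -/
theorem units_fin (B : ℝ) : {u : (𝓞 K)ˣ | ∀ w : InfinitePlace K, w ((u : 𝓞 K) : K) ≤ B}.Finite := by
  have h1 := NumberField.Embeddings.finite_of_norm_le K ℂ B
  refine Set.Finite.of_finite_image (f := fun u : (𝓞 K)ˣ => ((u : 𝓞 K) : K)) (h1.subset ?_) ?_
  · rintro _ ⟨u, hu, rfl⟩
    refine ⟨(u : 𝓞 K).isIntegral_coe, fun φ => ?_⟩
    have h2 := hu (InfinitePlace.mk φ)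
    rwa [InfinitePlace.apply] at h2
  · intro u _ v _ h
    exact Units.ext (RingOfIntegers.ext h)

/-- Local finiteness. -/
theorem loc_fin {A : ℝ} {φ : mixedSpace K → ℝ} (hφ : ∀ x, φ x ≠ 0 → ‖x‖ ^ Module.finrank ℚ K ≤ A * mixedEmbedding.norm x)
    {x₀ : mixedSpace K} (hx₀ : mixedEmbedding.norm x₀ ≠ 0) : ∃ F : Finset (𝓞 K)ˣ, ∀ᶠ x in nhds x₀,
      ∀ u : (𝓞 K)ˣ, u ∉ F → φ (u • x) = 0 := by
  have hp : ∀ w : InfinitePlace K, 0 < normAtPlace w x₀ := fun w =>
    lt_of_le_of_ne (normAtPlace_nonneg w x₀) (Ne.symm (mixedEmbedding.norm_ne_zero_iff.1 hx₀ w))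
  obtain ⟨c, hc0, hc⟩ : ∃ c : ℝ, 0 < c ∧ ∀ w : InfinitePlace K, c < normAtPlace w x₀ := by
    obtain ⟨w₁, -, h1⟩ := Finset.exists_min_image Finset.univ (fun w : InfinitePlace K => normAtPlace w x₀) Finset.univ_nonempty
    exact ⟨normAtPlace w₁ x₀ / 2, by linarith [hp w₁], fun w => by
      have := h1 w (Finset.mem_univ w)
      linarith [hp w₁]⟩
  set N₁ : ℝ := mixedEmbedding.norm x₀ + 1 with hN₁
  have hN : 0 ≤ mixedEmbedding.norm x₀ := mixedEmbedding.norm_nonneg x₀
  set B : ℝ := (|A| * N₁ + 1) / c with hB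
  refine ⟨(units_fin (K := K) B).toFinset, ?_⟩
  have hev1 : ∀ᶠ x in nhds x₀, ∀ w : InfinitePlace K, c < normAtPlace w x := by
    rw [Filter.eventually_all]
    intro w
    exact (continuous_normAtPlace w).continuousAt.eventually_const_lt (hc w)
  have hev2 : ∀ᶠ x in nhds x₀, mixedEmbedding.norm x < N₁ :=
    (mixedEmbedding.continuous_norm K).continuousAt.eventually_lt_const (by rw [hN₁]; linarith)
  filter_upwards [hev1, hev2] with x hx1 hx2 u hu
  by_contra hne
  apply hu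
  rw [Set.Finite.mem_toFinset]
  intro w
  have h1 := hφ _ hne
  rw [mixedEmbedding.norm_unit_smul] at h1
  have h2 : A * mixedEmbedding.norm x ≤ |A| * N₁ :=
    mul_le_mul (le_abs_self A) hx2.le (mixedEmbedding.norm_nonneg x) (abs_nonneg A)
  have h3 : ‖u • x‖ ≤ |A| * N₁ + 1 := by
    by_contra h4
    push Not at h4
    have h5 : 0 ≤ |A| * N₁ := by positivity
    have h6 : 1 ≤ ‖u • x‖ := by linarith
    have h7 : ‖u • x‖ ≤ ‖u • x‖ ^ Module.finrank ℚ K := le_self_pow₀ h6 (Module.finrank_pos (R := ℚ) (M := K)).ne'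
    linarith
  have h4 : w ((u : 𝓞 K) : K) * normAtPlace w x ≤ |A| * N₁ + 1 := by
    rw [← place_unit_smul]
    exact (place_le _ w).trans h3
  rw [hB, le_div_iff₀ hc0]
  refine le_trans (mul_le_mul_of_nonneg_left (hx1 w).le (apply_nonneg w _)) h4

/-- THE SMOOTH PARTITION OF UNITY. -/
theorem part_smooth (E : Subgroup (𝓞 K)ˣ) [E.FiniteIndex] : ∃ (w : mixedSpace K → ℝ) (A : ℝ), 0 < A ∧
    ContDiffOn ℝ ∞ w {0}ᶜ ∧ (∀ (t : ℝ) (x : mixedSpace K), 0 < t → w (t • x) = w x) ∧ (∀ x, 0 ≤ w x ∧ w x ≤ 1) ∧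
    (∀ x, w x ≠ 0 → ‖x‖ ^ Module.finrank ℚ K ≤ A * mixedEmbedding.norm x) ∧
    (∀ x, x ≠ 0 → mixedEmbedding.norm x = 0 → ∀ᶠ y in nhds x, w y = 0) ∧ w 0 = 0 ∧
    ∀ x, mixedEmbedding.norm x ≠ 0 → HasSum (fun u : E => w ((u : (𝓞 K)ˣ) • x)) 1 := by

  obtain ⟨C, hC, hcc⟩ := cocomp_sub E
  obtain ⟨δ, hδ, hbal⟩ := cut_bal (K := K) hC
  set W : mixedSpace K → ℝ := fun x => ∑' u : E, cut δ ((u : (𝓞 K)ˣ) • x) with hW
  have hlf : ∀ x₀ : mixedSpace K, mixedEmbedding.norm x₀ ≠ 0 → ∃ F : Finset E, ∀ᶠ x in nhds x₀,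
      ∀ u : E, u ∉ F → cut δ ((u : (𝓞 K)ˣ) • x) = 0 := by
    intro x₀ hx₀
    obtain ⟨F, hF⟩ := loc_fin (φ := cut δ) (fun x hx => cut_supp hδ hx) hx₀
    refine ⟨F.subtype (· ∈ E), ?_⟩
    filter_upwards [hF] with x hx u hu
    exact hx u fun h => hu (Finset.mem_subtype.2 h)
  have hsumm : ∀ x : mixedSpace K, mixedEmbedding.norm x ≠ 0 → Summable fun u : E => cut δ ((u : (𝓞 K)ˣ) • x) := by
    intro x hx
    obtain ⟨F, hF⟩ := hlf x hx
    exact summable_of_ne_finset_zero (s := F) fun u hu => hF.self_of_nhds u hu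
  have hge : ∀ x : mixedSpace K, mixedEmbedding.norm x ≠ 0 → 1 ≤ W x := by
    intro x hx
    obtain ⟨u, hu, h1⟩ := hcc x hx
    have h2 : cut δ (u • x) = 1 := hbal (u • x) (by rwa [mixedEmbedding.norm_unit_smul])
      (by rwa [mixedEmbedding.norm_unit_smul])
    have h3 := (hsumm x hx).le_tsum (⟨u, hu⟩ : E) fun v _ => cut_nonneg δ _
    rw [← h2]
    exact h3
  have hWinv : ∀ (v : (𝓞 K)ˣ) (_ : v ∈ E) (x : mixedSpace K), W (v • x) = W x := by
    intro v hv x
    rw [hW]
    simp only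
    rw [← (Equiv.mulRight (⟨v, hv⟩ : E)).tsum_eq (fun u : E => cut δ ((u : (𝓞 K)ˣ) • x))]
    refine tsum_congr fun u => ?_
    simp [mul_smul]
  have hcW : ∀ x₀ : mixedSpace K, mixedEmbedding.norm x₀ ≠ 0 → ContDiffAt ℝ ∞ W x₀ := by
    intro x₀ hx₀
    obtain ⟨F, hF⟩ := hlf x₀ hx₀
    have h1 : W =ᶠ[nhds x₀] fun x => ∑ u ∈ F, cut δ ((u : (𝓞 K)ˣ) • x) := by
      filter_upwards [hF] with x hx
      exact tsum_eq_sum fun u hu => hx u hu
    refine ContDiffAt.congr_of_eventuallyEq ?_ h1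
    refine ContDiffAt.sum fun u _ => ?_
    have hx0 : ((u : (𝓞 K)ˣ) • x₀) ≠ 0 := by
      intro h
      have h2 := mixedEmbedding.norm_unit_smul (u : (𝓞 K)ˣ) x₀
      rw [h, map_zero] at h2
      exact hx₀ h2.symm
    have h3 : ContDiffAt ℝ ∞ (cut δ : mixedSpace K → ℝ) ((u : (𝓞 K)ˣ) • x₀) :=
      (cd_cut δ).contDiffAt (isOpen_compl_singleton.mem_nhds hx0)
    have h4 : ContDiff ℝ ∞ fun x : mixedSpace K => (u : (𝓞 K)ˣ) • x := by
      exact (contDiff_const (c := mixedEmbedding K (((u : (𝓞 K)ˣ) : 𝓞 K) : K))).mul contDiff_id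
    exact h3.comp x₀ h4.contDiffAt
  -- near a vector of norm 0
  have hzero : ∀ x : mixedSpace K, x ≠ 0 → mixedEmbedding.norm x = 0 → ∀ᶠ y in nhds x, cut δ y = 0 := by
    intro x hx h0
    have h1 : rat x = 0 := by
      unfold rat
      rw [Pf_eq, h0]
      simp
    have h2 : ContinuousAt (rat : mixedSpace K → ℝ) x :=
      (cd_rat.contDiffAt (isOpen_compl_singleton.mem_nhds hx)).continuousAt
    have h3 : ∀ᶠ y in nhds x, rat y < δ := h2.eventually_lt_const (by rw [h1]; exact hδ)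
    filter_upwards [h3] with y hy
    exact cut_zero hδ hy.le
  obtain ⟨w, hw⟩ : ∃ w : mixedSpace K → ℝ, w = fun x => if mixedEmbedding.norm x = 0 then 0 else cut δ x / W x := ⟨_, rfl⟩
  have hw1 : ∀ x, mixedEmbedding.norm x ≠ 0 → w x = cut δ x / W x := fun x hx => by
    rw [hw]
    exact if_neg hx
  have hw0 : ∀ x, mixedEmbedding.norm x = 0 → w x = 0 := fun x hx => by
    rw [hw]
    exact if_pos hx
  have hcn : Continuous (mixedEmbedding.norm : mixedSpace K → ℝ) := mixedEmbedding.continuous_norm K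
  have hwz : ∀ x : mixedSpace K, x ≠ 0 → mixedEmbedding.norm x = 0 → ∀ᶠ y in nhds x, w y = 0 := by
    intro x hx h0
    filter_upwards [hzero x hx h0] with y hy
    by_cases h1 : mixedEmbedding.norm y = 0
    · exact hw0 y h1
    · rw [hw1 y h1, hy, zero_div]
  refine ⟨w, (Real.sqrt δ)⁻¹, inv_pos.2 (Real.sqrt_pos.2 hδ), ?_, ?_, ?_, ?_, hwz, ?_, ?_⟩
  · intro x hx
    refine ContDiffAt.contDiffWithinAt ?_
    by_cases h0 : mixedEmbedding.norm x = 0
    · exact (contDiffAt_const (c := (0 : ℝ))).congr_of_eventuallyEq (hwz x hx h0)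
    · have h1 : w =ᶠ[nhds x] fun y => cut δ y / W y := by
        have h2 : ∀ᶠ y in nhds x, mixedEmbedding.norm y ≠ 0 := hcn.continuousAt.eventually_ne h0
        filter_upwards [h2] with y hy
        exact hw1 y hy
      refine ContDiffAt.congr_of_eventuallyEq ?_ h1
      refine ((cd_cut δ).contDiffAt (isOpen_compl_singleton.mem_nhds hx)).div (hcW x h0) ?_
      linarith [hge x h0]
  · intro t x ht
    have hnt : mixedEmbedding.norm (t • x) = |t| ^ Module.finrank ℚ K * mixedEmbedding.norm x := mixedEmbedding.norm_smul t x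
    by_cases h0 : mixedEmbedding.norm x = 0
    · rw [hw0 x h0, hw0 (t • x) (by rw [hnt, h0, mul_zero])]
    · have h1 : mixedEmbedding.norm (t • x) ≠ 0 := by
        rw [hnt]
        exact mul_ne_zero (pow_ne_zero _ (abs_ne_zero.2 ht.ne')) h0
      have hcs : ∀ y : mixedSpace K, cut δ (t • y) = cut δ y := fun y => by
        unfold cut
        rw [rat_smul ht.ne']
      rw [hw1 x h0, hw1 _ h1, hcs]
      congr 1
      rw [hW]
      refine tsum_congr fun u => ?_
      have h2 : (u : (𝓞 K)ˣ) • (t • x) = t • ((u : (𝓞 K)ˣ) • x) := by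
        show mixedEmbedding K (((u : (𝓞 K)ˣ) : 𝓞 K) : K) * (t • x) = t • (mixedEmbedding K (((u : (𝓞 K)ˣ) : 𝓞 K) : K) * x)
        exact mul_smul_comm _ _ _
      rw [h2, hcs]
  · intro x
    by_cases h0 : mixedEmbedding.norm x = 0
    · rw [hw0 x h0]
      exact ⟨le_rfl, zero_le_one⟩
    · rw [hw1 x h0]
      have h1 := hge x h0
      have h2 : cut δ x ≤ 1 := Real.smoothTransition.le_one _
      exact ⟨div_nonneg (cut_nonneg _ _) (by linarith), (div_le_one (by linarith)).2 (by linarith)⟩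
  · intro x hx
    have h0 : mixedEmbedding.norm x ≠ 0 := fun h => hx (hw0 x h)
    refine cut_supp hδ fun h => hx ?_
    rw [hw1 x h0, h, zero_div]
  · exact hw0 0 (map_zero _)
  · intro x hx
    have h1 : ∀ u : E, w ((u : (𝓞 K)ˣ) • x) = cut δ ((u : (𝓞 K)ˣ) • x) / W x := by
      intro u
      rw [hw1 _ (by rwa [mixedEmbedding.norm_unit_smul]), hWinv _ u.2]
    have h2 := ((hsumm x hx).hasSum).div_const (W x)
    have h3 : W x ≠ 0 := by linarith [hge x hx]
    have h4 : (∑' u : E, cut δ ((u : (𝓞 K)ˣ) • x)) / W x = 1 := div_self h3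
    rw [h4] at h2
    exact h2.congr_fun h1

end CFTL
end

-- from Lib.CFT.Y29
section

/-! # CFT module Y, chunk Y29: gluing of quotients of analytic functions (pure complex analysis) -/

namespace CFTY

/-- PROOF. `M z = H i z / D i z` for some `i` with `D i z ≠ 0` (choice; 0 if there is none). `H i * D j = H j * D i` on `V` (both are `D i D j L`), so on `U` by the identity theorem
(`DifferentiableOn.analyticOnNhd`, `AnalyticOnNhd.eqOn_of_preconnected_of_eventuallyEq`). So `M z = H j z / D j z` for EVERY `j` with `D j z ≠ 0`; near `z` this is one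
differentiable function. -/
theorem glue {ι : Type*} {U V : Set ℂ} (hU : IsOpen U) (hUc : IsPreconnected U) (hV : IsOpen V) (hVne : V.Nonempty)
    (hVU : V ⊆ U) (L : ℂ → ℂ) (D H : ι → ℂ → ℂ) (hD : ∀ i, DifferentiableOn ℂ (D i) U)
    (hH : ∀ i, DifferentiableOn ℂ (H i) U) (hDH : ∀ i, ∀ z ∈ V, H i z = D i z * L z)
    (hne : ∀ z ∈ U, ∃ i, D i z ≠ 0) :
    ∃ M : ℂ → ℂ, DifferentiableOn ℂ M U ∧ ∀ z ∈ V, M z = L z := by
  classical
  have key : ∀ i j, ∀ z ∈ U, H i z * D j z = H j z * D i z := by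
    intro i j
    have h1 : AnalyticOnNhd ℂ (fun z => H i z * D j z) U := ((hH i).mul (hD j)).analyticOnNhd hU
    have h2 : AnalyticOnNhd ℂ (fun z => H j z * D i z) U := ((hH j).mul (hD i)).analyticOnNhd hU
    obtain ⟨z0, hz0⟩ := hVne
    have h3 := h1.eqOn_of_preconnected_of_eventuallyEq h2 hUc (hVU hz0) (by
      filter_upwards [hV.mem_nhds hz0] with z hz
      rw [hDH i z hz, hDH j z hz]
      ring)
    intro z hz
    exact h3 hz
  let M : ℂ → ℂ := fun z => if h : ∃ i, D i z ≠ 0 then H h.choose z / D h.choose z else 0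
  have hM : ∀ z ∈ U, ∀ j, D j z ≠ 0 → M z = H j z / D j z := by
    intro z hz j hj
    have h : ∃ i, D i z ≠ 0 := ⟨j, hj⟩
    show (if h : ∃ i, D i z ≠ 0 then H h.choose z / D h.choose z else 0) = _
    rw [dif_pos h, div_eq_div_iff h.choose_spec hj]
    exact key _ _ z hz
  refine ⟨M, ?_, ?_⟩
  · intro z hz
    obtain ⟨j, hj⟩ := hne z hz
    have hc : ContinuousAt (D j) z := ((hD j).differentiableAt (hU.mem_nhds hz)).continuousAt
    have hev : ∀ᶠ w in nhds z, D j w ≠ 0 := hc.eventually_ne hj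
    have h1 : DifferentiableAt ℂ (fun w => H j w / D j w) z :=
      ((hH j).differentiableAt (hU.mem_nhds hz)).div ((hD j).differentiableAt (hU.mem_nhds hz)) hj
    have h2 : M =ᶠ[nhds z] fun w => H j w / D j w := by
      filter_upwards [hev, hU.mem_nhds hz] with w hw hwU
      exact hM w hwU j hw
    exact (h1.congr_of_eventuallyEq h2).differentiableWithinAt
  · intro z hz
    obtain ⟨j, hj⟩ := hne z (hVU hz)
    rw [hM z (hVU hz) j hj, hDH j z hz]
    field_simp

end CFTY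
end

-- from Lib.SZ.Defs
section

/-!
# Module SZ of S14399 (Saerkoezy theorem for rough elements of a number field): common definitions.

`T F` is the group of characters of `𝓞 F` with values in the circle `ℝ / ℤ` (written additively), `nT` is the size of a
character on the integral basis, `ev τ x = exp (2 π i τ x)`, `box F Y` the box `0 ≤ x_i < Y`, `grid F P` the `P ^ n`
characters of `𝓞 F / P`, `FA A τ = ∑ a ∈ A, ev τ a`.  `Weyl`, `Energy` and `ThmB` are the three statements of the module.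
-/

namespace Pool.Agent.SZ

open NumberField

/-- Index type of the integral basis. -/
abbrev Ix (F : Type*) [Field F] [NumberField F] : Type _ := Module.Free.ChooseBasisIndex ℤ (𝓞 F)

/-- The integral basis. -/
noncomputable abbrev bas (F : Type*) [Field F] [NumberField F] : Module.Basis (Ix F) ℤ (𝓞 F) := RingOfIntegers.basis F

/-- The degree, as the number of basis elements. -/
noncomputable abbrev dg (F : Type*) [Field F] [NumberField F] : ℕ := Fintype.card (Ix F)


section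

variable {F : Type*} [Field F] [NumberField F]

/-- The coordinates of `x` are at most `R` in absolute value. -/
def InB (R : ℕ) (x : 𝓞 F) : Prop := ∀ i, |(bas F).repr x i| ≤ (R : ℤ)









end




end Pool.Agent.SZ
end

-- from Lib.SZ.B3
section

/-!
# SZ, assembly of Theorem B: metric lemmas (sizes of characters and coordinates, torsion points).
-/

namespace Pool.Agent.SZ.Asm

open NumberField Finset

variable {F : Type*} [Field F] [NumberField F]










theorem _root_.Pool.Agent.SZ.InB.add {a b : ℕ} {x y : 𝓞 F} (hx : InB a x) (hy : InB b y) : InB (a + b) (x + y) := by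
  intro i
  rw [map_add, Finsupp.add_apply]
  push_cast
  exact (abs_add_le _ _).trans (add_le_add (hx i) (hy i))

theorem _root_.Pool.Agent.SZ.InB.neg {a : ℕ} {x : 𝓞 F} (hx : InB a x) : InB a (-x) := by
  intro i
  rw [map_neg, Finsupp.neg_apply, abs_neg]
  exact hx i

theorem _root_.Pool.Agent.SZ.InB.sub {a b : ℕ} {x y : 𝓞 F} (hx : InB a x) (hy : InB b y) : InB (a + b) (x - y) := by
  rw [sub_eq_add_neg]
  exact hx.add hy.neg










end Pool.Agent.SZ.Asm
end

-- from Lib.SZ.E00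
section

/-!
# Module SZ2 (energy for fat arcs), E00: definitions and elementary lemmas.
-/

namespace Pool.Agent.SZ

open NumberField Finset
open scoped Classical

section

variable {F : Type*} [Field F] [NumberField F]


































theorem absNorm_pos {I : Ideal (𝓞 F)} (hI : I ≠ ⊥) : 0 < Ideal.absNorm I := by
  rw [Nat.pos_iff_ne_zero]
  exact fun h => hI (Ideal.absNorm_eq_zero_iff.mp h)

theorem one_lt_absNorm {I : Ideal (𝓞 F)} (h0 : I ≠ ⊥) (hI : I.IsPrime) : 1 < Ideal.absNorm I := by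
  have h1 := absNorm_pos h0
  have h2 : Ideal.absNorm I ≠ 1 := fun h => hI.ne_top (Ideal.absNorm_eq_one_iff.mp h)
  omega

end




end Pool.Agent.SZ
end

-- from Lib.SZ.E27
section

/-!
# Module SZ2 (energy for fat arcs), E27: the product over the small primes
-/

namespace Pool.Agent.SZ

open NumberField Finset
open scoped Classical

section

variable {F : Type*} [Field F] [NumberField F]

/-- For every prime number `ℓ` at most `n` nonzero prime ideals have a norm with smallest prime factor `ℓ`. Proof: if `𝔭` is a nonzero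
prime ideal, `𝔭 ∩ ℤ = (q)` for a prime number `q` and `N 𝔭 = q ^ f`, `f ≥ 1` (`Ideal.absNorm_eq_pow_inertiaDeg`, or: `q ∈ 𝔭` gives
`N 𝔭 ∣ N (q) = q ^ n`), so `minFac (N 𝔭) = q`. The primes above `ℓ` are at most `n = [F : ℚ]`
(`Ideal.card_primesOverFinset_le_finrank` or, by hand: the product of the primes above `ℓ` divides `(ℓ)`, of norm `ℓ ^ n`, and every norm is
`≥ ℓ`; `dg F = Module.finrank ℚ F`: `NumberField.RingOfIntegers.rank`, `Module.finrank_eq_card_chooseBasisIndex`). -/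
theorem e27_card (Q : Finset (Ideal (𝓞 F))) (hQ : ∀ p ∈ Q, p.IsPrime ∧ p ≠ ⊥) (ℓ : ℕ)
    (h : ∀ p ∈ Q, (Ideal.absNorm p).minFac = ℓ) : Q.card ≤ dg F := by
  rcases Q.eq_empty_or_nonempty with hQe | ⟨p0, hp0⟩
  · rw [hQe, Finset.card_empty]
    exact Nat.zero_le _
  have hfin : Module.finrank ℤ (𝓞 F) = dg F := Module.finrank_eq_card_chooseBasisIndex ℤ (𝓞 F)
  have hl : ℓ.Prime := by
    rw [← h p0 hp0]
    apply Nat.minFac_prime
    have := one_lt_absNorm (hQ p0 hp0).2 (hQ p0 hp0).1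
    omega
  -- every prime of `Q` contains `ℓ`
  have hmem : ∀ p ∈ Q, ((ℓ : ℕ) : 𝓞 F) ∈ p := by
    intro p hp
    have hpp := (hQ p hp).1
    have hN := one_lt_absNorm (hQ p hp).2 hpp
    have h1 := Ideal.absNorm_mem p
    obtain ⟨q, hq, hqp⟩ : ∃ q : ℕ, q.Prime ∧ ((q : ℕ) : 𝓞 F) ∈ p := by
      by_contra hcon
      push Not at hcon
      have h2 : ∀ m : ℕ, m ≠ 0 → (∀ q : ℕ, q.Prime → q ∣ m → ((q : ℕ) : 𝓞 F) ∉ p) → ((m : ℕ) : 𝓞 F) ∉ p := by
        intro m
        induction m using Nat.recOnMul with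
        | zero => intro h; exact absurd rfl h
        | one =>
          intro _ _ h
          rw [Nat.cast_one] at h
          exact hpp.ne_top ((Ideal.eq_top_iff_one p).2 h)
        | prime q hq =>
          intro _ h
          exact h q hq dvd_rfl
        | mul a b iha ihb =>
          intro h0 h h'
          rw [Nat.cast_mul] at h'
          rcases hpp.mem_or_mem h' with h3 | h3
          · exact iha (left_ne_zero_of_mul h0) (fun q hq hqa => h q hq (hqa.mul_right b)) h3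
          · exact ihb (right_ne_zero_of_mul h0) (fun q hq hqb => h q hq (hqb.mul_left a)) h3
      exact h2 _ (by omega) (fun q hq _ => hcon q hq) h1
    have h4 : Ideal.absNorm p ∣ q ^ dg F := by
      rw [← hfin, ← Ideal.absNorm_span_natCast]
      exact Ideal.absNorm_dvd_absNorm_of_le ((Ideal.span_singleton_le_iff_mem _).2 hqp)
    have h5 : (Ideal.absNorm p).minFac = q := by
      have h6 : (Ideal.absNorm p).minFac ∣ q ^ dg F := (Nat.minFac_dvd _).trans h4
      have h7 : (Ideal.absNorm p).minFac.Prime := Nat.minFac_prime (by omega)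
      exact (Nat.prime_dvd_prime_iff_eq h7 hq).1 (h7.dvd_of_dvd_pow h6)
    rw [h p hp] at h5
    rw [h5]
    exact hqp
  have hdvd : ∏ p ∈ Q, p ∣ Ideal.span {((ℓ : ℕ) : 𝓞 F)} := by
    apply Finset.prod_primes_dvd
    · intro p hp
      exact (Ideal.prime_iff_isPrime (hQ p hp).2).2 (hQ p hp).1
    · intro p hp
      rw [Ideal.dvd_iff_le, Ideal.span_singleton_le_iff_mem]
      exact hmem p hp
  have h8 : ∏ p ∈ Q, Ideal.absNorm p ∣ ℓ ^ dg F := by
    rw [← hfin, ← Ideal.absNorm_span_natCast, ← map_prod]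
    exact Ideal.absNorm_dvd_absNorm_of_le (Ideal.le_of_dvd hdvd)
  have h9 : ℓ ^ Q.card ≤ ∏ p ∈ Q, Ideal.absNorm p := by
    apply Finset.pow_card_le_prod
    intro p hp
    rw [← h p hp]
    exact Nat.minFac_le (by have := one_lt_absNorm (hQ p hp).2 (hQ p hp).1; omega)
  have h10 : ℓ ^ Q.card ≤ ℓ ^ dg F := h9.trans (Nat.le_of_dvd (pow_pos hl.pos _) h8)
  exact (Nat.pow_le_pow_iff_right hl.one_lt).1 h10

end

end Pool.Agent.SZ
end

-- from Lib.CFT.L6
section

/-! # CFT, module ZL, L6: Landau lemma (Dirichlet series with nonnegative coefficients) -/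

open Filter Topology

namespace CFTL

noncomputable section

/-- The coefficient of the double series. -/
def lt {ι : Type*} (c l : ι → ℝ) (t : ℝ) (p : ι × ℕ) : ℝ :=
  c p.1 * Real.exp (-2 * l p.1) * ((t * l p.1) ^ p.2 / (p.2.factorial : ℝ))

theorem lt_hasSum {ι : Type*} (c l : ι → ℝ) (t : ℝ) (i : ι) :
    HasSum (fun n => lt c l t (i, n)) (c i * Real.exp (-(2 - t) * l i)) := by
  have h1 : HasSum (fun n : ℕ => (t * l i) ^ n / (n.factorial : ℝ)) (Real.exp (t * l i)) := by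
    have := NormedSpace.exp_series_hasSum_exp' (𝕂 := ℝ) (t * l i)
    rw [← Real.exp_eq_exp_ℝ] at this
    refine this.congr_fun ?_
    intro n
    rw [smul_eq_mul]
    ring
  have h2 := h1.mul_left (c i * Real.exp (-2 * l i))
  have h3 : c i * Real.exp (-(2 - t) * l i) = c i * Real.exp (-2 * l i) * Real.exp (t * l i) := by
    rw [mul_assoc, ← Real.exp_add]
    ring_nf
  rw [h3]
  exact h2

theorem lt_nonneg {ι : Type*} {c l : ι → ℝ} (hc : ∀ i, 0 ≤ c i) (hl : ∀ i, 0 ≤ l i) {t : ℝ} (ht : 0 ≤ t) (p : ι × ℕ) :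
    0 ≤ lt c l t p := by
  unfold lt
  have := hc p.1
  have := hl p.1
  positivity

theorem lt_sum_iff {ι : Type*} {c l : ι → ℝ} (hc : ∀ i, 0 ≤ c i) (hl : ∀ i, 0 ≤ l i) {t : ℝ} (ht : 0 ≤ t) :
    Summable (lt c l t) ↔ Summable fun i => c i * Real.exp (-(2 - t) * l i) := by
  rw [summable_prod_of_nonneg (fun p => lt_nonneg hc hl ht p)]
  have h1 : (fun i => ∑' n, lt c l t (i, n)) = fun i => c i * Real.exp (-(2 - t) * l i) :=
    funext fun i => (lt_hasSum c l t i).tsum_eq
  rw [h1]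
  exact ⟨fun h => h.2, fun h => ⟨fun i => (lt_hasSum c l t i).summable, h⟩⟩

/-- The Taylor coefficients. -/
def ta {ι : Type*} (c l : ι → ℝ) (n : ℕ) : ℝ := ∑' i, lt c l 1 (i, n)

theorem lt_scale {ι : Type*} (c l : ι → ℝ) (t : ℝ) (p : ι × ℕ) : lt c l t p = t ^ p.2 * lt c l 1 p := by
  unfold lt
  rw [mul_pow, mul_pow, one_pow]
  ring

theorem landau {ι : Type*} (c l : ι → ℝ) (hc : ∀ i, 0 ≤ c i) (hl : ∀ i, 0 ≤ l i)
    (hs : ∀ x : ℝ, 1 < x → Summable fun i => c i * Real.exp (-x * l i))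
    (f : ℂ → ℂ) (hf : DifferentiableOn ℂ f {s | 0 < s.re})
    (hfe : ∀ x : ℝ, 1 < x → f x = ((∑' i, c i * Real.exp (-x * l i) : ℝ) : ℂ)) {y : ℝ} (hy : 0 < y) (hy2 : y < 2) :
    Summable fun i => c i * Real.exp (-y * l i) := by
  have hsum : ∀ t : ℝ, 0 ≤ t → t < 1 → Summable (lt c l t) := by
    intro t h0 h1
    rw [lt_sum_iff hc hl h0]
    exact hs (2 - t) (by linarith)
  -- each coefficient is summable
  have hcoef : ∀ n, Summable fun i => lt c l 1 (i, n) := by
    intro n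
    have h1 := (hsum (1 / 2) (by norm_num) (by norm_num)).prod_symm
    have h2 := h1.prod_factor n
    have h3 := h2.mul_left ((2 : ℝ) ^ n)
    refine h3.congr fun i => ?_
    show (2 : ℝ) ^ n * lt c l (1 / 2) (i, n) = lt c l 1 (i, n)
    rw [lt_scale, ← mul_assoc, ← mul_pow]
    norm_num
  have hta0 : ∀ n, 0 ≤ ta c l n := fun n => tsum_nonneg fun i => lt_nonneg hc hl zero_le_one _
  -- the real power series
  have hreal : ∀ t : ℝ, 0 ≤ t → t < 1 → HasSum (fun n => ta c l n * t ^ n) (∑' i, c i * Real.exp (-(2 - t) * l i)) := by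
    intro t h0 h1
    have h2 := hsum t h0 h1
    have h3 : HasSum (fun i => c i * Real.exp (-(2 - t) * l i)) (∑' p, lt c l t p) :=
      h2.hasSum.prod_fiberwise fun i => lt_hasSum c l t i
    rw [h3.tsum_eq]
    have h4 := h2.prod_symm
    have h5 : HasSum (fun n => ta c l n * t ^ n) (∑' p : ℕ × ι, lt c l t p.swap) := by
      refine h4.hasSum.prod_fiberwise fun n => ?_
      have h6 := (hcoef n).hasSum.mul_right (t ^ n)
      refine h6.congr_fun fun i => ?_
      show lt c l t (i, n) = lt c l 1 (i, n) * t ^ n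
      rw [lt_scale]
      ring
    have h7 : ∑' p : ℕ × ι, lt c l t p.swap = ∑' p, lt c l t p :=
      (Equiv.prodComm ℕ ι).tsum_eq (lt c l t)
    rwa [h7] at h5
  -- the complex function near zero
  set p : FormalMultilinearSeries ℂ ℂ ℂ := FormalMultilinearSeries.ofScalars ℂ (fun n => (ta c l n : ℂ)) with hp
  have hpn : ∀ n, ‖p n‖ = ta c l n := by
    intro n
    rw [hp, FormalMultilinearSeries.ofScalars_norm, Complex.norm_real, Real.norm_of_nonneg (hta0 n)]
  have hrad : ((1 / 2 : NNReal) : ENNReal) ≤ p.radius := by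
    refine p.le_radius_of_summable_norm ?_
    refine (hreal (1 / 2) (by norm_num) (by norm_num)).summable.congr fun n => ?_
    rw [hpn]
    norm_num
  have hG : HasFPowerSeriesOnBall p.sum p 0 p.radius := by
    refine p.hasFPowerSeriesOnBall (lt_of_lt_of_le ?_ hrad)
    norm_num
  have hF : DifferentiableOn ℂ (fun z => f (2 - z)) (Metric.ball 0 2) := by
    intro z hz
    have hz' : ‖z‖ < 2 := by simpa using hz
    have h1 : 0 < (2 - z).re := by
      have := Complex.re_le_norm z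
      rw [Complex.sub_re]
      norm_num
      linarith
    have h2 : DifferentiableAt ℂ f (2 - z) :=
      (hf _ h1).differentiableAt ((isOpen_lt continuous_const Complex.continuous_re).mem_nhds h1)
    exact (h2.comp z ((differentiableAt_const _).sub differentiableAt_id)).differentiableWithinAt
  set R : NNReal := ⟨2 - y / 2, by linarith⟩ with hR
  have hR0 : 0 < R := by
    show (0 : ℝ) < 2 - y / 2
    linarith
  have hF2 := (hF.mono (s := Metric.closedBall 0 R) (Metric.closedBall_subset_ball (by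
    show 2 - y / 2 < 2
    linarith))).hasFPowerSeriesOnBall hR0
  have hfreq : ∃ᶠ z in 𝓝[≠] (0 : ℂ), (fun z => f (2 - z)) z = p.sum z := by
    have h1 : Tendsto (fun t : ℝ => (t : ℂ)) (𝓝[>] 0) (𝓝[≠] 0) := by
      refine tendsto_nhdsWithin_iff.2 ⟨?_, ?_⟩
      · exact (Complex.continuous_ofReal.tendsto' 0 0 Complex.ofReal_zero).mono_left nhdsWithin_le_nhds
      · filter_upwards [self_mem_nhdsWithin] with t ht
        exact Complex.ofReal_ne_zero.2 (ne_of_gt ht)
    refine h1.frequently (Eventually.frequently ?_)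
    filter_upwards [Ioo_mem_nhdsGT (show (0 : ℝ) < 1 by norm_num)] with t ht
    have h2 := (hreal t ht.1.le ht.2)
    have h3 : p.sum (t : ℂ) = ∑' n, (ta c l n : ℂ) * (t : ℂ) ^ n := by
      rw [hp]
      show (∑' n, (FormalMultilinearSeries.ofScalars ℂ (fun n => (ta c l n : ℂ)) n) fun _ => (t : ℂ)) = _
      refine tsum_congr fun n => ?_
      rw [FormalMultilinearSeries.ofScalars_apply_eq, smul_eq_mul]
    rw [h3]
    have h4 : f (2 - (t : ℂ)) = ((∑' i, c i * Real.exp (-(2 - t) * l i) : ℝ) : ℂ) := by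
      rw [← hfe (2 - t) (by linarith [ht.2])]
      push_cast
      rfl
    show f (2 - (t : ℂ)) = _
    rw [h4, ← h2.tsum_eq, Complex.ofReal_tsum]
    push_cast
    rfl
  have hev := (AnalyticAt.frequently_eq_iff_eventually_eq hF2.analyticAt hG.analyticAt).1 hfreq
  have hpq := HasFPowerSeriesAt.eq_formalMultilinearSeries_of_eventually hF2.hasFPowerSeriesAt hG.hasFPowerSeriesAt hev
  have hR2 : (R : ENNReal) ≤ p.radius := by
    rw [← hpq]
    exact hF2.r_le
  have ht0 : 0 ≤ 2 - y := by linarith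
  have hfin : Summable fun n => ta c l n * (2 - y) ^ n := by
    set r : NNReal := ⟨2 - y, ht0⟩ with hr
    have h1 : (r : ENNReal) < p.radius := by
      refine lt_of_lt_of_le ?_ hR2
      rw [ENNReal.coe_lt_coe]
      show 2 - y < 2 - y / 2
      linarith
    refine (p.summable_norm_mul_pow h1).congr fun n => ?_
    rw [hpn]
    rfl
  have hdouble : Summable (lt c l (2 - y)) := by
    have h1 : Summable fun q : ℕ × ι => lt c l (2 - y) q.swap := by
      rw [summable_prod_of_nonneg (fun q => lt_nonneg hc hl ht0 _)]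
      have h2 : ∀ n, HasSum (fun i => lt c l (2 - y) (i, n)) (ta c l n * (2 - y) ^ n) := by
        intro n
        have h6 := (hcoef n).hasSum.mul_right ((2 - y) ^ n)
        refine h6.congr_fun fun i => ?_
        rw [lt_scale]
        ring
      refine ⟨fun n => (h2 n).summable, ?_⟩
      refine hfin.congr fun n => ?_
      exact (h2 n).tsum_eq.symm
    exact (Equiv.prodComm ℕ ι).summable_iff.1 h1
  have h9 := (lt_sum_iff hc hl ht0).1 hdouble
  refine h9.congr fun i => ?_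
  ring_nf

end

end CFTL
end

-- from Lib.CFT.L7
section

/-! # CFT, module ZL, L7: Landau lemma for the exponential of a Dirichlet series -/

open Filter Topology

namespace CFTL

theorem pow_hasSum {J : Type*} {g : J → ℝ} (hg : ∀ j, 0 ≤ g j) {s : ℝ} (h : HasSum g s) (k : ℕ) :
    HasSum (fun i : Fin k → J => ∏ j, g (i j)) (s ^ k) := by
  induction k with
  | zero =>
    have h1 := hasSum_unique (fun i : Fin 0 → J => ∏ j, g (i j))
    simpa using h1
  | succ k ih =>
    rw [← (Fin.consEquiv fun _ : Fin (k + 1) => J).hasSum_iff]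
    have h0 : ∀ i : Fin k → J, 0 ≤ ∏ j, g (i j) := fun i => Finset.prod_nonneg fun j _ => hg _
    have h1 : Summable fun x : J × (Fin k → J) => g x.1 * ∏ j, g (x.2 j) :=
      h.summable.mul_of_nonneg ih.summable hg h0
    have h2 := h.mul ih h1
    rw [pow_succ']
    refine h2.congr_fun ?_
    rintro ⟨a, b⟩
    show ∏ j, g ((Fin.consEquiv fun _ : Fin (k + 1) => J) (a, b) j) = g a * ∏ j, g (b j)
    rw [Fin.prod_univ_succ]
    rfl

theorem exp_hasSum {J : Type*} {g : J → ℝ} (hg : ∀ j, 0 ≤ g j) {s : ℝ} (h : HasSum g s) :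
    HasSum (fun i : Σ k, (Fin k → J) => ((i.1.factorial : ℝ))⁻¹ * ∏ j, g (i.2 j)) (Real.exp s) := by
  have h0 : ∀ i : Σ k, (Fin k → J), 0 ≤ ((i.1.factorial : ℝ))⁻¹ * ∏ j, g (i.2 j) := fun i =>
    mul_nonneg (by positivity) (Finset.prod_nonneg fun j _ => hg _)
  have h1 : ∀ k, HasSum (fun i : Fin k → J => ((k.factorial : ℝ))⁻¹ * ∏ j, g (i j)) (((k.factorial : ℝ))⁻¹ * s ^ k) :=
    fun k => (pow_hasSum hg h k).mul_left _
  have h2 : HasSum (fun k : ℕ => ((k.factorial : ℝ))⁻¹ * s ^ k) (Real.exp s) := by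
    have := NormedSpace.exp_series_hasSum_exp' (𝕂 := ℝ) s
    rw [← Real.exp_eq_exp_ℝ] at this
    exact this
  have h3 : Summable fun i : Σ k, (Fin k → J) => ((i.1.factorial : ℝ))⁻¹ * ∏ j, g (i.2 j) := by
    rw [summable_sigma_of_nonneg h0]
    refine ⟨fun k => (h1 k).summable, ?_⟩
    refine h2.summable.congr fun k => ?_
    exact (h1 k).tsum_eq.symm
  have h4 := h3.hasSum.sigma h1
  have h5 := h3.hasSum
  rwa [h4.unique h2] at h5

theorem landau_exp {J : Type*} (c l : J → ℝ) (hc : ∀ i, 0 ≤ c i) (hl : ∀ i, 0 ≤ l i)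
    (hs : ∀ x : ℝ, 1 < x → Summable fun i => c i * Real.exp (-x * l i))
    (f : ℂ → ℂ) (hf : DifferentiableOn ℂ f {s | 0 < s.re})
    (hfe : ∀ x : ℝ, 1 < x → f x = ((Real.exp (∑' i, c i * Real.exp (-x * l i)) : ℝ) : ℂ)) {y : ℝ} (hy : 0 < y) (hy2 : y < 2) :
    Summable fun i => c i * Real.exp (-y * l i) := by
  have key : ∀ (x : ℝ) (i : Σ k, (Fin k → J)), (((i.1.factorial : ℝ))⁻¹ * ∏ j, c (i.2 j)) * Real.exp (-x * ∑ j, l (i.2 j)) =
      ((i.1.factorial : ℝ))⁻¹ * ∏ j, (c (i.2 j) * Real.exp (-x * l (i.2 j))) := by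
    intro x i
    rw [Finset.prod_mul_distrib, ← Real.exp_sum, ← Finset.mul_sum, mul_assoc]
  have hg : ∀ (x : ℝ) (j : J), 0 ≤ c j * Real.exp (-x * l j) := fun x j => mul_nonneg (hc j) (Real.exp_pos _).le
  have h1 := landau (fun i : Σ k, (Fin k → J) => ((i.1.factorial : ℝ))⁻¹ * ∏ j, c (i.2 j))
    (fun i => ∑ j, l (i.2 j)) (fun i => mul_nonneg (by positivity) (Finset.prod_nonneg fun j _ => hc _))
    (fun i => Finset.sum_nonneg fun j _ => hl _) (fun x hx => ?_) f hf (fun x hx => ?_) hy hy2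
  · have h2 := h1.comp_injective (i := fun j : J => (⟨1, fun _ => j⟩ : Σ k, (Fin k → J))) ?_
    · refine h2.congr fun j => ?_
      simp
    · intro a b hab
      have h3 := congrFun (eq_of_heq (Sigma.mk.inj hab).2) 0
      exact h3
  · have h2 := (exp_hasSum (hg x) (hs x hx).hasSum).summable
    exact h2.congr fun i => (key x i).symm
  · have h2 := exp_hasSum (hg x) (hs x hx).hasSum
    rw [hfe x hx, ← h2.tsum_eq]
    congr 1
    exact tsum_congr fun i => (key x i).symm

end CFTL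
end
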