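import Mathlib
import Pool.Agent.Lib.H1M.PP2.D_H28R_Defs
import Pool.Agent.Lib.H1M.PP2.M001
import Pool.Agent.Lib.H1M.PP2.M003
import Pool.Agent.Lib.H1M.PP2.M024
import Pool.Agent.Lib.H1M.PP2.M026
import Pool.Agent.Lib.H1M.PP2.M034
import Pool.Agent.Lib.H1M.PP2.M036
import Pool.Agent.Lib.H1M.PP2.M043
import Pool.Agent.Lib.H1M.PP2.M045
import Pool.Agent.Lib.H1M.PP2.M051
import Pool.Agent.Lib.H1M.PP2.M057

/-! Merged copies (to shorten the build) of Lib.CFT.L4, Lib.CHEB.C1, Lib.CHEB.C2, Lib.CFTC.C0, Lib.CFTC.C1, Lib.CFTC.C2, Lib.CFTC.C3, Lib.CFTC.C4, Lib.CFTC.C5, Lib.CFTC.C7, Lib.CFTC.C8, Lib.H13T.D, Lib.H13T.U2, Lib.H13T.U3, Lib.SZ.P4, Lib.H57N.E7. -/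

-- from Lib.CFT.L4
section

/-! # CFT, module ZL, part 4: the family over the lattice of integers

Fam w s x = [x totally positive] w(x) norm(x)^(-s). It is a homogeneous smooth family (fam_HF). gK w: its angular part as a function on K. periodic_k: sums with
periodic coefficients of mean 0 continue to Re s > 1 - k/d. -/

open NumberField NumberField.InfinitePlace NumberField.mixedEmbedding CFTY
open scoped ContDiff

namespace CFTL

open scoped Classical

variable {K : Type} [Field K] [NumberField K]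

/-- The totally positive vectors. -/
def TPs (K : Type) [Field K] : Set (mixedSpace K) := {x | ∀ w : {w : InfinitePlace K // IsReal w}, 0 < x.1 w}

theorem tp_iff {z : K} (hz : z ≠ 0) : TP z ↔ mixedEmbedding K z ∈ TPs K := by
  constructor
  · rintro ⟨-, h⟩ w
    rw [mixedEmbedding_apply_isReal]
    exact h _
  · intro h
    refine ⟨hz, fun φ => ?_⟩
    have hr : ComplexEmbedding.IsReal (Complex.ofRealHom.comp φ) := by
      rw [ComplexEmbedding.isReal_iff]
      refine RingHom.ext fun x => ?_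
      rw [ComplexEmbedding.conjugate_coe_eq]
      exact Complex.conj_ofReal _
    have h1 : IsReal (InfinitePlace.mk (Complex.ofRealHom.comp φ)) := ⟨_, hr, rfl⟩
    have h2 := h ⟨_, h1⟩
    rw [mixedEmbedding_apply_isReal] at h2
    have h3 : ((embedding_of_isReal h1 z : ℝ) : ℂ) = ((φ z : ℝ) : ℂ) := by
      rw [embedding_of_isReal_apply, embedding_mk_eq_of_isReal hr]
      rfl
    rw [Complex.ofReal_inj.1 h3] at h2
    exact h2

/-- The family. -/
noncomputable def Fam (w : mixedSpace K → ℝ) (s : ℂ) (x : mixedSpace K) : ℂ :=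
  (if x ∈ TPs K then (w x : ℂ) else 0) * (mixedEmbedding.norm x : ℂ) ^ (-s)

/-- The angular part on K. -/
noncomputable def gK (w : mixedSpace K → ℝ) (z : K) : ℂ :=
  (if TP z then 1 else 0) * (w (mixedEmbedding K z) : ℂ) * 1

theorem fs_eq (w : mixedSpace K → ℝ) (h0 : w 0 = 0) (s : ℂ) (z : K) : Fs (gK w) s z = Fam w s (mixedEmbedding K z) := by
  unfold Fs gK Fam
  have h1 : nm z = mixedEmbedding.norm (mixedEmbedding K z) := by
    rw [mixedEmbedding.norm_eq_norm]
    unfold nm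
    rw [Rat.cast_abs]
  rw [h1, mul_one]
  congr 1
  by_cases hz : z = 0
  · subst hz
    rw [map_zero, h0]
    simp
  · by_cases h2 : TP z
    · rw [if_pos h2, if_pos ((tp_iff hz).1 h2), one_mul]
    · rw [if_neg h2, if_neg fun h => h2 ((tp_iff hz).2 h), zero_mul]

theorem tps_loc {x : mixedSpace K} (hx : mixedEmbedding.norm x ≠ 0) :
    (∀ᶠ y in nhds x, y ∈ TPs K) ∨ (∀ᶠ y in nhds x, y ∉ TPs K) := by
  have hc : ∀ w : {w : InfinitePlace K // IsReal w}, Continuous fun y : mixedSpace K => y.1 w := fun w =>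
    (continuous_apply w).comp continuous_fst
  have hne : ∀ w : {w : InfinitePlace K // IsReal w}, x.1 w ≠ 0 := by
    intro w h
    have h1 := mixedEmbedding.norm_ne_zero_iff.1 hx w.1
    rw [normAtPlace_apply_of_isReal w.2] at h1
    exact h1 (by rw [show x.1 ⟨w.1, w.2⟩ = x.1 w from rfl, h, norm_zero])
  by_cases h : x ∈ TPs K
  · left
    rw [TPs]
    simp only [Set.mem_ofPred_eq]
    rw [Filter.eventually_all]
    exact fun w => (hc w).continuousAt.eventually_const_lt (h w)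
  · right
    have h1 : ∃ w : {w : InfinitePlace K // IsReal w}, x.1 w < 0 := by
      by_contra h2
      push Not at h2
      exact h fun w => lt_of_le_of_ne (h2 w) (Ne.symm (hne w))
    obtain ⟨w, hw⟩ := h1
    filter_upwards [(hc w).continuousAt.eventually_lt_const hw] with y hy h2
    exact lt_asymm hy (h2 w)

theorem fam_HF {w : mixedSpace K → ℝ} (h1 : ContDiffOn ℝ ∞ w {0}ᶜ) (h2 : ∀ (t : ℝ) (x : mixedSpace K), 0 < t → w (t • x) = w x)
    (h3 : ∀ x, x ≠ 0 → mixedEmbedding.norm x = 0 → ∀ᶠ y in nhds x, w y = 0) : HF (dg K) 0 (Fam w) := by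
  constructor
  · rintro ⟨s, x⟩ hx
    have hx' : x ≠ 0 := hx
    refine ContDiffAt.contDiffWithinAt ?_
    have hsnd : Filter.Tendsto (fun p : ℂ × mixedSpace K => p.2) (nhds (s, x)) (nhds x) := continuous_snd.continuousAt
    by_cases h0 : mixedEmbedding.norm x = 0
    · refine (contDiffAt_const (c := (0 : ℂ))).congr_of_eventuallyEq ?_
      filter_upwards [hsnd.eventually (h3 x hx' h0)] with p hp
      unfold Fam
      rw [hp]
      simp
    · -- the smooth formula
      have hP : Pf x ≠ 0 := by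
        rw [Pf_eq]
        exact pow_ne_zero _ h0
      have hlog : ContDiffAt ℝ ∞ (fun p : ℂ × mixedSpace K => Real.log (Pf p.2)) (s, x) := by
        have e1 : ContDiffAt ℝ ∞ (fun p : ℂ × mixedSpace K => Pf p.2) (s, x) := (cd_Pf.comp contDiff_snd).contDiffAt
        exact e1.log hP
      have hexp : ContDiffAt ℝ ∞ (fun p : ℂ × mixedSpace K => Complex.exp (-p.1 * ((1 / 2 : ℝ) * Real.log (Pf p.2) : ℝ))) (s, x) := by
        refine ContDiffAt.cexp ?_
        refine (contDiff_fst.neg.contDiffAt).mul ?_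
        exact Complex.ofRealCLM.contDiff.contDiffAt.comp (s, x) (contDiffAt_const.mul hlog)
      have hw : ContDiffAt ℝ ∞ (fun p : ℂ × mixedSpace K => ((w p.2 : ℝ) : ℂ)) (s, x) := by
        have e1 : ContDiffAt ℝ ∞ w x := h1.contDiffAt (isOpen_compl_singleton.mem_nhds hx')
        have e2 : ContDiffAt ℝ ∞ (fun p : ℂ × mixedSpace K => w p.2) (s, x) := e1.comp (s, x) contDiff_snd.contDiffAt
        exact Complex.ofRealCLM.contDiff.contDiffAt.comp (s, x) e2
      have hcn : Continuous (mixedEmbedding.norm : mixedSpace K → ℝ) := mixedEmbedding.continuous_norm K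
      have hpow : ∀ᶠ p : ℂ × mixedSpace K in nhds (s, x), (mixedEmbedding.norm p.2 : ℂ) ^ (-p.1) =
          Complex.exp (-p.1 * ((1 / 2 : ℝ) * Real.log (Pf p.2) : ℝ)) := by
        have e1 : ∀ᶠ y in nhds x, mixedEmbedding.norm y ≠ 0 := hcn.continuousAt.eventually_ne h0
        filter_upwards [hsnd.eventually e1] with p hp
        rw [Complex.cpow_def_of_ne_zero (Complex.ofReal_ne_zero.2 hp), Pf_eq, Real.log_pow,
          ← Complex.ofReal_log (mixedEmbedding.norm_nonneg _)]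
        congr 1
        push_cast
        ring
      rcases tps_loc h0 with h4 | h4
      · refine (hw.mul hexp).congr_of_eventuallyEq ?_
        filter_upwards [hsnd.eventually h4, hpow] with p hp1 hp2
        show Fam w p.1 p.2 = _
        unfold Fam
        rw [if_pos hp1, hp2]
      · refine (contDiffAt_const (c := (0 : ℂ))).congr_of_eventuallyEq ?_
        filter_upwards [hsnd.eventually h4] with p hp1
        unfold Fam
        rw [if_neg hp1, zero_mul]
  · intro s t x ht hx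
    unfold Fam
    have e1 : t • x ∈ TPs K ↔ x ∈ TPs K := by
      constructor
      · intro h w
        have h5 := h w
        have h6 : (t • x).1 w = t * x.1 w := rfl
        rw [h6] at h5
        exact (mul_pos_iff_of_pos_left ht).1 h5
      · intro h w
        exact mul_pos ht (h w)
    rw [h2 t x ht]
    simp only [e1]
    rw [mixedEmbedding.norm_smul, abs_of_pos ht]
    have e2 : ((t ^ Module.finrank ℚ K * mixedEmbedding.norm x : ℝ) : ℂ) ^ (-s) =
        (t : ℂ) ^ (-((dg K : ℝ) * s + (0 : ℝ))) * (mixedEmbedding.norm x : ℂ) ^ (-s) := by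
      rw [Complex.ofReal_mul, Complex.mul_cpow_ofReal_nonneg (by positivity) (mixedEmbedding.norm_nonneg x)]
      congr 1
      have htn : 0 < t ^ Module.finrank ℚ K := pow_pos ht _
      rw [Complex.cpow_def_of_ne_zero (Complex.ofReal_ne_zero.2 htn.ne'), Complex.cpow_def_of_ne_zero (Complex.ofReal_ne_zero.2 ht.ne'),
        ← Complex.ofReal_log htn.le, ← Complex.ofReal_log ht.le, Real.log_pow]
      congr 1
      unfold dg
      push_cast
      ring
    rw [e2]
    ring

/-- The embedding of the integers. -/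
noncomputable def emb (K : Type) [Field K] [NumberField K] : 𝓞 K →+ mixedSpace K :=
  ((mixedEmbedding K).comp (algebraMap (𝓞 K) K)).toAddMonoidHom

theorem emb_apply (x : 𝓞 K) : emb K x = mixedEmbedding K (x : K) := rfl

theorem emb_inj : Function.Injective (emb K) := (mixedEmbedding_injective K).comp RingOfIntegers.coe_injective

theorem emb_sum {β : ℝ} (hβ : (dg K : ℝ) < β) : Summable fun x : 𝓞 K => ‖emb K x‖ ^ (-β) := by
  have hinj : Function.Injective (((mixedEmbedding K).comp (algebraMap (𝓞 K) K)).toIntAlgHom.toLinearMap) :=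
    (mixedEmbedding_injective K).comp RingOfIntegers.coe_injective
  let e : 𝓞 K ≃ₗ[ℤ] mixedEmbedding.integerLattice K := LinearEquiv.ofInjective _ hinj
  have hr : Module.finrank ℤ (mixedEmbedding.integerLattice K) = dg K := by
    rw [← e.finrank_eq, RingOfIntegers.rank]
    rfl
  have h := ZLattice.summable_norm_rpow (mixedEmbedding.integerLattice K) (-β) (by rw [hr]; linarith)
  exact e.toEquiv.summable_iff.2 h

theorem emb_fin (ρ : ℝ) : {x : 𝓞 K | ‖emb K x‖ < ρ}.Finite := by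
  have h1 := NumberField.Embeddings.finite_of_norm_le K ℂ ρ
  refine Set.Finite.of_finite_image (f := fun u : 𝓞 K => (u : K)) (h1.subset ?_) ?_
  · rintro _ ⟨u, hu, rfl⟩
    refine ⟨u.isIntegral_coe, fun φ => ?_⟩
    have h2 := place_le (emb K u) (InfinitePlace.mk φ)
    rw [emb_apply, normAtPlace_apply, InfinitePlace.apply] at h2
    exact h2.trans (le_of_lt hu)
  · intro u _ v _ h
    exact RingOfIntegers.ext h

/-- Periodic coefficients of mean 0. -/
theorem periodic_k {w : mixedSpace K → ℝ} (h1 : ContDiffOn ℝ ∞ w {0}ᶜ) (h2 : ∀ (t : ℝ) (x : mixedSpace K), 0 < t → w (t • x) = w x)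
    (h3 : ∀ x, x ≠ 0 → mixedEmbedding.norm x = 0 → ∀ᶠ y in nhds x, w y = 0) (h4 : w 0 = 0) (J : Ideal (𝓞 K)) (hJ : J ≠ ⊥)
    (a : 𝓞 K ⧸ J → ℂ) (ha : ∑ᶠ q, a q = 0) (k : ℕ) : ∃ H : ℂ → ℂ, DifferentiableOn ℂ H {s | 1 - k / (dg K : ℝ) < s.re} ∧
      ∀ s : ℂ, 1 < s.re → H s = ∑' x : 𝓞 K, a (Ideal.Quotient.mk J x) * Fs (gK w) s (x : K) := by
  have hfin : Finite (𝓞 K ⧸ J) := Ideal.finiteQuotientOfFreeOfNeBot J hJ
  have hfin' : Finite (𝓞 K ⧸ J.toAddSubgroup) := hfin
  have hd : (0 : ℝ) < dg K := by exact_mod_cast dg_pos (K := K)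
  have hF0 : ∀ s, Fam w s 0 = 0 := by
    intro s
    unfold Fam
    rw [h4]
    simp
  have hFd : ∀ y, Differentiable ℂ fun s => Fam w s y := by
    intro y
    unfold Fam
    by_cases h0 : mixedEmbedding.norm y = 0
    · by_cases hy : y = 0
      · subst hy
        simp [h4]
      · have h5 : w y = 0 := (h3 y hy h0).self_of_nhds
        rw [h5]
        simp
    · exact (differentiable_id.neg.const_cpow (Or.inl (Complex.ofReal_ne_zero.2 h0))).const_mul _
  have hrep : ∀ x : 𝓞 K, (QuotientAddGroup.mk x : 𝓞 K ⧸ J.toAddSubgroup) = Ideal.Quotient.mk J x := fun x => rfl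
  obtain ⟨H, hH1, hH2⟩ := periodicK (emb_inj (K := K)) (J := J.toAddSubgroup) hd (fun β hβ => emb_sum hβ) emb_fin
    (fam_HF h1 h2 h3) hF0 hFd (a := a) ha k
  refine ⟨H, hH1, fun s hs => ?_⟩
  rw [hH2 s hs]
  refine tsum_congr fun x => ?_
  rw [fs_eq w h4]
  rfl

end CFTL
end

-- from Lib.CHEB.C1
section

/-! # Chebotarev density theorem, part 1: Frobenius elements at a prime of a Galois extension, decomposition group, fibres -/

open NumberField IsDedekindDomain
open scoped Pointwise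

namespace CHEB

open CFT

variable {K : Type} [Field K] [NumberField K] {L : Type} [Field L] [NumberField L] [Algebra K L]

set_option linter.unusedSectionVars false
set_option linter.style.haveILetI false

variable (K) in
/-- `s` is a Frobenius element at the prime `W` of `L`. -/
def FrAt (W : Pr L) (s : L ≃ₐ[K] L) : Prop := ∀ x : 𝓞 L, s • x - x ^ Nm (below K W) ∈ W.asIdeal

theorem frAt_unique [IsGalois K L] {W : Pr L} (hW : Unr K L (below K W)) {s t : L ≃ₐ[K] L} (hs : FrAt K W s) (ht : FrAt K W t) :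
    s = t := by
  refine eq_of_cong W (hW W rfl) fun x => ?_
  have h := W.asIdeal.sub_mem (hs x) (ht x)
  rwa [sub_sub_sub_cancel_right] at h

theorem frAt_pow {W : Pr L} {s : L ≃ₐ[K] L} (hs : FrAt K W s) (k : ℕ) (x : 𝓞 L) :
    (s ^ k) • x - x ^ (Nm (below K W) ^ k) ∈ W.asIdeal := by
  induction k with
  | zero => simp
  | succ k ih =>
    have h1 := hs ((s ^ k) • x)
    have h2 : ((s ^ k) • x) ^ Nm (below K W) - (x ^ (Nm (below K W) ^ k)) ^ Nm (below K W) ∈ W.asIdeal :=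
      Ideal.mem_of_dvd _ (sub_dvd_pow_sub_pow _ _ _) ih
    have h3 := W.asIdeal.add_mem h1 h2
    rw [sub_add_sub_cancel, ← mul_smul, ← pow_succ', ← pow_mul, ← pow_succ] at h3
    exact h3

theorem two_le_Nm (v : Pr K) : 2 ≤ Nm v := by
  have h1 := Nm_pos v
  have h2 : Nm v ≠ 1 := fun h => v.isPrime.ne_top (Ideal.absNorm_eq_one_iff.1 h)
  omega

/-- The order of a Frobenius element at an unramified prime is the residue degree. -/
theorem order_frAt [IsGalois K L] {W : Pr L} (hW : Unr K L (below K W)) {s : L ≃ₐ[K] L} (hs : FrAt K W s) :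
    orderOf s = W.asIdeal.inertiaDeg (𝓞 K) := by
  obtain ⟨q, hqdef⟩ : ∃ q : ℕ, q = Nm (below K W) := ⟨_, rfl⟩
  have hq : 2 ≤ q := by rw [hqdef]; exact two_le_Nm _
  have hfin : Finite (𝓞 L ⧸ W.asIdeal) := b17_fin W
  have : W.asIdeal.IsMaximal := W.isMaximal
  letI : Field (𝓞 L ⧸ W.asIdeal) := Ideal.Quotient.field W.asIdeal
  letI : Fintype (𝓞 L ⧸ W.asIdeal) := Fintype.ofFinite _
  have hcard : Fintype.card (𝓞 L ⧸ W.asIdeal) = q ^ W.asIdeal.inertiaDeg (𝓞 K) := by
    rw [hqdef, ← Nm_below W, ← Nat.card_eq_fintype_card]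
    unfold Nm
    rw [Ideal.absNorm_apply, Submodule.cardQuot_apply]
  have h1 : s ^ W.asIdeal.inertiaDeg (𝓞 K) = 1 := by
    refine eq_of_cong W (hW W rfl) fun x => ?_
    have h2 := frAt_pow hs (W.asIdeal.inertiaDeg (𝓞 K)) x
    rw [← hqdef] at h2
    have h3 : x ^ (q ^ W.asIdeal.inertiaDeg (𝓞 K)) - x ∈ W.asIdeal := by
      rw [← Ideal.Quotient.eq_zero_iff_mem, map_sub, map_pow, ← hcard, FiniteField.pow_card, sub_self]
    have h4 := W.asIdeal.add_mem h2 h3
    rw [one_smul]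
    rwa [sub_add_sub_cancel] at h4
  have h2 : 0 < orderOf s := orderOf_pos _
  have h3 : ∀ x : 𝓞 L ⧸ W.asIdeal, x ^ (q ^ orderOf s) = x := by
    intro x
    obtain ⟨x, rfl⟩ := Ideal.Quotient.mk_surjective x
    have h4 := frAt_pow hs (orderOf s) x
    rw [← hqdef, pow_orderOf_eq_one, one_smul, ← Ideal.Quotient.eq_zero_iff_mem, map_sub, map_pow, sub_eq_zero] at h4
    exact h4.symm
  have h4 : 1 < q ^ orderOf s := Nat.one_lt_pow h2.ne' (by omega)
  have h5 : Fintype.card (𝓞 L ⧸ W.asIdeal) - 1 ∣ q ^ orderOf s - 1 := by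
    rw [← FiniteField.forall_pow_eq_one_iff]
    intro x
    apply Units.ext
    rw [Units.val_pow_eq_pow_val, Units.val_one]
    have h6 := h3 x.1
    have h7 : q ^ orderOf s = (q ^ orderOf s - 1) + 1 := by omega
    rw [h7, pow_succ] at h6
    exact mul_eq_right₀ x.ne_zero |>.1 h6
  have h6 := Nat.le_of_dvd (by omega) h5
  rw [hcard] at h6
  have h7 : q ^ W.asIdeal.inertiaDeg (𝓞 K) ≤ q ^ orderOf s := by omega
  have h8 := (Nat.pow_le_pow_iff_right (by omega)).1 h7
  have h9 := Nat.le_of_dvd (f_pos (K := K) W) (orderOf_dvd_of_pow_eq_one h1)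
  omega

/-! ## The action on the primes -/

/-- The prime `g W`. -/
noncomputable def act (g : L ≃ₐ[K] L) (W : Pr L) : Pr L where
  asIdeal := W.asIdeal.comap (MulSemiringAction.toRingHom (L ≃ₐ[K] L) (𝓞 L) g⁻¹)
  isPrime := by
    have := W.isPrime
    exact Ideal.comap_isPrime _ _
  ne_bot := by
    obtain ⟨x, hx, hx0⟩ := Submodule.exists_mem_ne_zero_of_ne_bot W.ne_bot
    intro h
    have h1 : g • x ∈ W.asIdeal.comap (MulSemiringAction.toRingHom (L ≃ₐ[K] L) (𝓞 L) g⁻¹) := by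
      rw [Ideal.mem_comap]
      show g⁻¹ • (g • x) ∈ W.asIdeal
      rw [inv_smul_smul]
      exact hx
    rw [h, Ideal.mem_bot] at h1
    apply hx0
    have h2 := congrArg (fun z => g⁻¹ • z) h1
    simpa using h2

theorem mem_act {g : L ≃ₐ[K] L} {W : Pr L} {x : 𝓞 L} : x ∈ (act g W).asIdeal ↔ g⁻¹ • x ∈ W.asIdeal := Iff.rfl

theorem act_ext {W W' : Pr L} (h : ∀ x : 𝓞 L, x ∈ W.asIdeal ↔ x ∈ W'.asIdeal) : W = W' := by
  apply HeightOneSpectrum.ext
  ext x
  exact h x

theorem act_one (W : Pr L) : act (1 : L ≃ₐ[K] L) W = W := by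
  apply act_ext
  intro x
  rw [mem_act, inv_one, one_smul]

theorem act_mul (g h : L ≃ₐ[K] L) (W : Pr L) : act (g * h) W = act g (act h W) := by
  apply act_ext
  intro x
  rw [mem_act, mem_act, mem_act, mul_inv_rev, mul_smul]

theorem below_act (g : L ≃ₐ[K] L) (W : Pr L) : below K (act g W) = below K W := by
  apply HeightOneSpectrum.ext
  ext x
  show algebraMap (𝓞 K) (𝓞 L) x ∈ (act g W).asIdeal ↔ algebraMap (𝓞 K) (𝓞 L) x ∈ W.asIdeal
  rw [mem_act]
  have h1 : g⁻¹ • algebraMap (𝓞 K) (𝓞 L) x = algebraMap (𝓞 K) (𝓞 L) x := by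
    apply RingOfIntegers.ext
    show g⁻¹ (algebraMap K L (x : K)) = algebraMap K L (x : K)
    exact AlgEquiv.commutes _ _
  rw [h1]

theorem trans_act [IsGalois K L] (W W' : Pr L) (h : below K W = below K W') : ∃ g : L ≃ₐ[K] L, act g W = W' := by
  obtain ⟨g, hg⟩ := b17_trans (K := K) W W' h
  refine ⟨g, act_ext fun x => ?_⟩
  rw [mem_act]
  exact (hg x).symm

/-- Conjugation of Frobenius elements. -/
theorem frAt_act (g s : L ≃ₐ[K] L) (W : Pr L) (hs : FrAt K W s) : FrAt K (act g W) (g * s * g⁻¹) := by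
  intro x
  rw [below_act, mem_act]
  have h := hs (g⁻¹ • x)
  have e : g⁻¹ • ((g * s * g⁻¹) • x - x ^ Nm (below K W)) = s • (g⁻¹ • x) - (g⁻¹ • x) ^ Nm (below K W) := by
    rw [smul_sub, smul_pow', ← mul_smul, ← mul_smul]
    congr 2
    group
  rw [e]
  exact h


/-- A Frobenius element stabilises its prime. -/
theorem act_frob {W : Pr L} {s : L ≃ₐ[K] L} (hs : FrAt K W s) : act s W = W := by
  have h1 : ∀ x ∈ W.asIdeal, s • x ∈ W.asIdeal := by
    intro x hx
    have h2 := hs x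
    have h3 : x ^ Nm (below K W) ∈ W.asIdeal := W.asIdeal.pow_mem_of_mem hx _ (Nm_pos _)
    have h4 := W.asIdeal.add_mem h2 h3
    rwa [sub_add_cancel] at h4
  apply act_ext
  intro x
  rw [mem_act]
  constructor
  · intro h
    have h2 := h1 _ h
    rwa [smul_inv_smul] at h2
  · intro h
    have h2 : s • (s⁻¹ • x) ∈ W.asIdeal := by rwa [smul_inv_smul]
    have h3 := hs (s⁻¹ • x)
    have h4 := W.asIdeal.sub_mem h2 h3
    rw [sub_sub_cancel] at h4
    exact W.isPrime.mem_of_pow_mem _ h4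

theorem act_pow {W : Pr L} {s : L ≃ₐ[K] L} (hs : act s W = W) (k : ℕ) : act (s ^ k) W = W := by
  induction k with
  | zero => rw [pow_zero, act_one]
  | succ k ih => rw [pow_succ, act_mul, hs, ih]

/-- The stabiliser of an unramified prime is generated by the Frobenius element. -/
theorem mem_zpowers_of_act [IsGalois K L] {W : Pr L} (hW : Unr K L (below K W)) {s : L ≃ₐ[K] L} (hs : FrAt K W s)
    {g : L ≃ₐ[K] L} (hg : act g W = W) : g ∈ Subgroup.zpowers s := by
  classical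
  have hG : IsGaloisGroup (L ≃ₐ[K] L) (𝓞 K) (𝓞 L) := b16_gal
  have hp := W.isPrime
  have hv := (below K W).isMaximal
  have hvp := (below K W).isPrime
  have hl : W.asIdeal.LiesOver (below K W).asIdeal := ⟨rfl⟩
  have hfin : Finite (𝓞 K ⧸ (below K W).asIdeal) := Ring.HasFiniteQuotients.finiteQuotient (below K W).ne_bot
  have hperf : PerfectField (below K W).asIdeal.ResidueField := by
    have : Finite (below K W).asIdeal.ResidueField :=
      Finite.of_surjective _ (Ideal.bijective_algebraMap_quotient_residueField (below K W).asIdeal).surjective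
    infer_instance
  have h1 := Ideal.card_stabilizer_eq_card_inertia_mul_finrank (G := L ≃ₐ[K] L) (below K W).asIdeal W.asIdeal
  rw [b16_card W, hW W rfl, one_mul, ← order_frAt hW hs, ← Nat.card_zpowers] at h1
  have hsub : ∀ h : L ≃ₐ[K] L, act h W = W → h ∈ MulAction.stabilizer (L ≃ₐ[K] L) W.asIdeal := by
    intro h hh
    rw [MulAction.mem_stabilizer_iff, Ideal.pointwise_smul_eq_comap]
    exact congrArg HeightOneSpectrum.asIdeal hh
  have h2 : Subgroup.zpowers s ≤ MulAction.stabilizer (L ≃ₐ[K] L) W.asIdeal := by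
    rw [Subgroup.zpowers_le]
    exact hsub s (act_frob hs)
  have h3 := Subgroup.eq_of_le_of_card_ge h2 h1.le
  rw [h3]
  exact hsub g hg

/-- The number of primes above an unramified `v` with Frobenius element `σ`, times the order of `σ`, is the order of the centraliser. -/
theorem fibre_card [IsGalois K L] (v : Pr K) (hv : Unr K L v) (σ : L ≃ₐ[K] L) (W₀ : Pr L) (hW₀ : below K W₀ = v)
    (hσ : FrAt K W₀ σ) : Set.ncard {W : Pr L | below K W = v ∧ FrAt K W σ} * orderOf σ = Nat.card (Subgroup.centralizer {σ}) := by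
  classical
  subst hW₀
  set C := Subgroup.centralizer {σ} with hC
  have hmemC : ∀ g : L ≃ₐ[K] L, g ∈ C ↔ g * σ * g⁻¹ = σ := by
    intro g
    rw [hC, Subgroup.mem_centralizer_singleton_iff]
    constructor
    · intro h
      rw [h]
      group
    · intro h
      have := congrArg (fun z => z * g) h
      simp only [mul_assoc, inv_mul_cancel, mul_one] at this
      exact this
  -- the map `g ↦ g W₀`
  have hmap : ∀ g ∈ C, act g W₀ ∈ {W : Pr L | below K W = below K W₀ ∧ FrAt K W σ} := by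
    intro g hg
    refine ⟨below_act g W₀, ?_⟩
    have h1 := frAt_act g σ W₀ hσ
    rwa [(hmemC g).1 hg] at h1
  have hsurj : ∀ W ∈ {W : Pr L | below K W = below K W₀ ∧ FrAt K W σ}, ∃ g ∈ C, act g W₀ = W := by
    rintro W ⟨hW1, hW2⟩
    obtain ⟨g, hg⟩ := trans_act (K := K) W₀ W hW1.symm
    refine ⟨g, ?_, hg⟩
    rw [hmemC]
    have h1 := frAt_act g σ W₀ hσ
    rw [hg] at h1
    exact frAt_unique (by rw [hW1]; exact hv) h1 hW2
  have hzC : Subgroup.zpowers σ ≤ C := by
    rw [Subgroup.zpowers_le, hmemC]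
    group
  have hfinF : {W : Pr L | below K W = below K W₀ ∧ FrAt K W σ}.Finite := (below_fin K L (below K W₀)).subset fun W hW => hW.1
  have hFin : Fintype (L ≃ₐ[K] L) := Fintype.ofFinite _
  -- counting
  have hcount : (Finset.univ.filter fun g : L ≃ₐ[K] L => g ∈ C).card = hfinF.toFinset.card * orderOf σ := by
    rw [Finset.card_eq_sum_card_fiberwise (f := fun g => act g W₀) (t := hfinF.toFinset) (fun g hg => by
      rw [Finset.mem_coe, Finset.mem_filter] at hg
      rw [Finset.mem_coe, Set.Finite.mem_toFinset]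
      exact hmap g hg.2)]
    rw [Finset.sum_const_nat (m := orderOf σ)]
    intro W hW
    rw [Set.Finite.mem_toFinset] at hW
    obtain ⟨g₀, hg₀, hg₀W⟩ := hsurj W hW
    rw [← Nat.card_zpowers, Nat.card_eq_fintype_card, ← Fintype.card_coe]
    refine Fintype.card_congr ⟨fun g => ⟨g₀⁻¹ * g.1, ?_⟩, fun h => ⟨g₀ * h.1, ?_⟩, ?_, ?_⟩
    · have hg := g.2
      rw [Finset.mem_filter, Finset.mem_filter] at hg
      apply mem_zpowers_of_act hv hσ
      rw [act_mul, hg.2, ← hg₀W, ← act_mul, inv_mul_cancel, act_one]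
    · have hh := h.2
      rw [Finset.mem_filter, Finset.mem_filter]
      refine ⟨⟨Finset.mem_univ _, C.mul_mem hg₀ (hzC hh)⟩, ?_⟩
      obtain ⟨k, hk⟩ : ∃ k : ℕ, σ ^ k = h.1 := by
        have := (mem_powers_iff_mem_zpowers).2 hh
        exact (Submonoid.mem_powers_iff _ _).1 this
      rw [act_mul, ← hk, act_pow (act_frob hσ), hg₀W]
    · intro g
      apply Subtype.ext
      simp
    · intro h
      apply Subtype.ext
      simp
  rw [Set.ncard_eq_toFinset_card _ hfinF, ← hcount, Nat.card_eq_fintype_card, Fintype.card_subtype]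

end CHEB
end

-- from Lib.CHEB.C2
section

/-! # Chebotarev density theorem, part 2: descent to the fixed field of a Frobenius element -/

open NumberField IsDedekindDomain

namespace CHEB

open CFT

set_option linter.unusedSectionVars false

variable {K : Type} [Field K] [NumberField K] {L : Type} [Field L] [NumberField L] [Algebra K L]
variable (E : Type) [Field E] [NumberField E] [Algebra K E] [Algebra E L] [IsScalarTower K E L]

variable {E} in
/-- Norms do not decrease when going up. -/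
theorem Nm_below_le (w : Pr E) : Nm (below K w) ≤ Nm w := by
  rw [Nm_below (K := K) w]
  exact Nat.le_self_pow (f_pos (K := K) w).ne' _

/-- The prime of the fixed field below a prime with Frobenius element `σ` has residue degree one. -/
theorem nm_eq {W : Pr L} {σ : L ≃ₐ[K] L} (hσE : ∀ x : E, σ (algebraMap E L x) = algebraMap E L x) (hσ : FrAt K W σ) :
    Nm (below E W) = Nm (below K W) := by
  apply le_antisymm
  · obtain ⟨q, hq⟩ : ∃ q : ℕ, q = Nm (below K W) := ⟨_, rfl⟩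
    have hq2 : 2 ≤ q := by rw [hq]; exact two_le_Nm _
    rw [← hq]
    have hfin : Finite (𝓞 E ⧸ (below E W).asIdeal) := b17_fin (below E W)
    have hmax : (below E W).asIdeal.IsMaximal := (below E W).isMaximal
    letI : Field (𝓞 E ⧸ (below E W).asIdeal) := Ideal.Quotient.field (below E W).asIdeal
    letI : Fintype (𝓞 E ⧸ (below E W).asIdeal) := Fintype.ofFinite _
    have hroot : ∀ x : 𝓞 E ⧸ (below E W).asIdeal, x ^ q = x := by
      intro x
      obtain ⟨x, rfl⟩ := Ideal.Quotient.mk_surjective x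
      have h1 := hσ (algebraMap (𝓞 E) (𝓞 L) x)
      have h2 : σ • algebraMap (𝓞 E) (𝓞 L) x = algebraMap (𝓞 E) (𝓞 L) x := by
        apply RingOfIntegers.ext
        exact hσE (x : E)
      rw [h2, ← hq, ← map_pow, ← map_sub] at h1
      have h3 : x - x ^ q ∈ (below E W).asIdeal := h1
      rw [← Ideal.Quotient.eq_zero_iff_mem, map_sub, map_pow, sub_eq_zero] at h3
      exact h3.symm
    have hcard : Fintype.card (𝓞 E ⧸ (below E W).asIdeal) = Nm (below E W) := by
      rw [← Nat.card_eq_fintype_card]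
      unfold Nm
      rw [Ideal.absNorm_apply, Submodule.cardQuot_apply]
    rw [← hcard]
    -- roots of X^q - X
    have hdeg : (Polynomial.X ^ q - Polynomial.X : Polynomial (𝓞 E ⧸ (below E W).asIdeal)).natDegree = q :=
      FiniteField.X_pow_card_sub_X_natDegree_eq _ (by omega)
    have hne : (Polynomial.X ^ q - Polynomial.X : Polynomial (𝓞 E ⧸ (below E W).asIdeal)) ≠ 0 :=
      FiniteField.X_pow_card_sub_X_ne_zero _ (by omega)
    rw [← hdeg]
    have h4 : (Finset.univ : Finset (𝓞 E ⧸ (below E W).asIdeal)).val ⊆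
        (Polynomial.X ^ q - Polynomial.X : Polynomial (𝓞 E ⧸ (below E W).asIdeal)).roots := by
      intro x _
      rw [Polynomial.mem_roots hne]
      show Polynomial.eval x _ = 0
      rw [Polynomial.eval_sub, Polynomial.eval_pow, Polynomial.eval_X, hroot x, sub_self]
    rw [← Finset.card_univ]
    exact Polynomial.card_le_degree_of_subset_roots h4
  · rw [← below_below K E L W]
    exact Nm_below_le (K := K) _

variable {E}

theorem hab_of_gen {σE : L ≃ₐ[E] L} (hgen : ∀ g : L ≃ₐ[E] L, g ∈ Subgroup.zpowers σE) (a b : L ≃ₐ[E] L) : a * b = b * a := by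
  obtain ⟨i, rfl⟩ := Subgroup.mem_zpowers_iff.1 (hgen a)
  obtain ⟨j, rfl⟩ := Subgroup.mem_zpowers_iff.1 (hgen b)
  rw [← zpow_add, ← zpow_add, add_comm]

theorem frob_below [IsGalois K L] [IsGalois E L] {σ : L ≃ₐ[K] L} {σE : L ≃ₐ[E] L} (hσE : ∀ x : L, σE x = σ x)
    (hgen : ∀ g : L ≃ₐ[E] L, g ∈ Subgroup.zpowers σE) {W : Pr L} (hW : Unr K L (below K W)) (hσ : FrAt K W σ) :
    frob E L (below E W) = σE := by
  have hunr : Unr E L (below E W) := (unr_tower K E L hW).2 _ (below_below K E L W)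
  apply frob_eq_of_one (hab_of_gen hgen) hunr W rfl
  intro x
  rw [nm_eq E (fun x => by rw [← hσE, AlgEquiv.commutes]) hσ]
  have h1 := hσ x
  have h2 : σE • x = σ • x := by
    apply RingOfIntegers.ext
    exact hσE (x : L)
  rw [h2]
  exact h1

theorem frAt_of_frob [IsGalois K L] [IsGalois E L] {σ : L ≃ₐ[K] L} {σE : L ≃ₐ[E] L} (hσE : ∀ x : L, σE x = σ x)
    (hgen : ∀ g : L ≃ₐ[E] L, g ∈ Subgroup.zpowers σE) {w : Pr E} (hw : Unr K L (below K w)) (hnm : Nm w = Nm (below K w))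
    (hf : frob E L w = σE) {W : Pr L} (hW : below E W = w) : FrAt K W σ := by
  have hunr : Unr E L w := (unr_tower K E L hw).2 _ rfl
  intro x
  have h1 := frob_spec (hab_of_gen hgen) hunr W hW x
  rw [hf] at h1
  have h2 : σE • x = σ • x := by
    apply RingOfIntegers.ext
    exact hσE (x : L)
  rw [h2, hnm, ← hW, below_below K E L W] at h1
  exact h1

theorem below_inj [IsGalois K L] [IsGalois E L] {σ : L ≃ₐ[K] L} {σE : L ≃ₐ[E] L} (hσE : ∀ x : L, σE x = σ x)
    (hgen : ∀ g : L ≃ₐ[E] L, g ∈ Subgroup.zpowers σE) {W W' : Pr L} (hσ : FrAt K W σ)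
    (h : below E W = below E W') : W = W' := by
  obtain ⟨g, hg⟩ := trans_act (K := E) W W' h
  obtain ⟨k, hk⟩ : ∃ k : ℕ, σE ^ k = g := by
    have := (mem_powers_iff_mem_zpowers).2 (hgen g)
    exact (Submonoid.mem_powers_iff _ _).1 this
  have h1 : act σE W = W := by
    have h2 := act_frob hσ
    apply act_ext
    intro x
    have h3 : x ∈ (act σ W).asIdeal ↔ x ∈ W.asIdeal := by rw [h2]
    rw [mem_act] at h3 ⊢
    have h4 : σE⁻¹ • x = σ⁻¹ • x := by
      apply RingOfIntegers.ext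
      show σE⁻¹ (x : L) = σ⁻¹ (x : L)
      have h5 : σE (σ⁻¹ (x : L)) = x := by
        rw [hσE]
        exact AlgEquiv.apply_symm_apply σ _
      have h6 : σE (σE⁻¹ (x : L)) = x := AlgEquiv.apply_symm_apply σE _
      exact σE.injective (h6.trans h5.symm)
    rw [h4]
    exact h3
  rw [← hg, ← hk, act_pow h1]

/-- The bijection between primes of `L` with Frobenius element `σ` and primes of the fixed field. -/
theorem ncard_B [IsGalois K L] [IsGalois E L] {σ : L ≃ₐ[K] L} {σE : L ≃ₐ[E] L} (hσE : ∀ x : L, σE x = σ x)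
    (hgen : ∀ g : L ≃ₐ[E] L, g ∈ Subgroup.zpowers σE) (x : ℕ) :
    Set.ncard {W : Pr L | Nm (below K W) ≤ x ∧ Unr K L (below K W) ∧ FrAt K W σ} =
      Set.ncard {w : Pr E | Nm w ≤ x ∧ Unr K L (below K w) ∧ Nm w = Nm (below K w) ∧ frob E L w = σE} := by
  have hfix : ∀ x : E, σ (algebraMap E L x) = algebraMap E L x := fun x => by rw [← hσE, AlgEquiv.commutes]
  refine Set.ncard_congr (fun W _ => below E W) ?_ ?_ ?_
  · rintro W ⟨h1, h2, h3⟩
    have h4 := nm_eq E hfix h3
    refine ⟨by rw [h4]; exact h1, by rw [below_below K E L W]; exact h2, by rw [below_below K E L W]; exact h4,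
      frob_below hσE hgen h2 h3⟩
  · rintro W W' ⟨_, _, h3⟩ _ h
    exact below_inj hσE hgen h3 h
  · rintro w ⟨h1, h2, h3, h4⟩
    obtain ⟨W, hW⟩ := below_surj (K := E) (L := L) w
    have h5 : below K W = below K w := by rw [← hW, below_below K E L W]
    refine ⟨W, ⟨?_, ?_, frAt_of_frob hσE hgen h2 h3 h4 hW⟩, hW⟩
    · rw [h5, ← h3]
      exact h1
    · rw [h5]
      exact h2

/-- Counting the primes of `K` by the primes of `L`. -/
theorem ncard_A [IsGalois K L] (σ : L ≃ₐ[K] L) (x : ℕ) (hfin : {v : Pr K | Nm v ≤ x}.Finite) :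
    Set.ncard {W : Pr L | Nm (below K W) ≤ x ∧ Unr K L (below K W) ∧ FrAt K W σ} * orderOf σ =
      Set.ncard {v : Pr K | Nm v ≤ x ∧ Unr K L v ∧ ∃ W : Pr L, below K W = v ∧ FrAt K W σ} *
        Nat.card (Subgroup.centralizer {σ}) := by
  classical
  have hA : {v : Pr K | Nm v ≤ x ∧ Unr K L v ∧ ∃ W : Pr L, below K W = v ∧ FrAt K W σ}.Finite := hfin.subset fun v hv => hv.1
  have hB : {W : Pr L | Nm (below K W) ≤ x ∧ Unr K L (below K W) ∧ FrAt K W σ}.Finite := by
    refine (Set.Finite.biUnion hfin fun v _ => below_fin K L v).subset ?_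
    rintro W ⟨h1, _, _⟩
    rw [Set.mem_iUnion₂]
    exact ⟨below K W, h1, rfl⟩
  rw [Set.ncard_eq_toFinset_card _ hA, Set.ncard_eq_toFinset_card _ hB]
  rw [Finset.card_eq_sum_card_fiberwise (f := fun W => below K W) (t := hA.toFinset) (fun W hW => by
    rw [Finset.mem_coe, Set.Finite.mem_toFinset] at hW ⊢
    exact ⟨hW.1, hW.2.1, W, rfl, hW.2.2⟩)]
  rw [Finset.sum_mul, Finset.sum_const_nat (m := Nat.card (Subgroup.centralizer {σ}))]
  intro v hv
  rw [Set.Finite.mem_toFinset] at hv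
  obtain ⟨h1, h2, W₀, h3, h4⟩ := hv
  rw [← fibre_card v h2 σ W₀ h3 h4]
  congr 1
  rw [← Set.ncard_coe_finset]
  congr 1
  ext W
  rw [Finset.mem_coe, Finset.mem_filter, Set.Finite.mem_toFinset]
  constructor
  · rintro ⟨⟨_, _, h7⟩, h8⟩
    exact ⟨h8, h7⟩
  · rintro ⟨h8, h7⟩
    exact ⟨⟨by rw [h8]; exact h1, by rw [h8]; exact h2, h7⟩, h8⟩

end CHEB
end

-- from Lib.CFTC.C0
section

/-! # CFT, module C: prime number theorem for Hecke characters (definitions)

fib n: the primes of norm n. cf w: the coefficients of the Dirichlet series of a function w on the primes. Ps w s: the series of the w v Nv^(-s).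
Er w s: the series of the -log (1 - w v Nv^(-s)) - w v Nv^(-s). Ext w A: the Dirichlet series of w v log Nv minus A / (s - 1) has a continuous extension to
the closed half plane re s >= 1. pr: the values at the primes of a function on the ideals. -/

open NumberField IsDedekindDomain Complex

namespace CFTC

open CFT

variable {K : Type} [Field K] [NumberField K]

theorem fib_fin (n : ℕ) : {v : Pr K | Nm v = n}.Finite :=
  (Ideal.finite_setOfPred_absNorm_eq (S := 𝓞 K) n).preimage CFTZ.dd_inj.injOn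

/-- The primes of norm n. -/
noncomputable def fib (n : ℕ) : Finset (Pr K) := (fib_fin n).toFinset

theorem mem_fib (n : ℕ) (v : Pr K) : v ∈ fib n ↔ Nm v = n := by
  unfold fib
  rw [Set.Finite.mem_toFinset]
  rfl

/-- The coefficients of the Dirichlet series of a function on the primes. -/
noncomputable def cf (w : Pr K → ℂ) (n : ℕ) : ℂ := ∑ v ∈ fib n, w v

/-- The Dirichlet series of a function on the primes. -/
noncomputable def Ps (w : Pr K → ℂ) (s : ℂ) : ℂ := ∑' v : Pr K, w v * (Nm v : ℂ) ^ (-s)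

/-- The correction term. -/
noncomputable def Er (w : Pr K → ℂ) (s : ℂ) : ℂ :=
  ∑' v : Pr K, (-log (1 - w v * (Nm v : ℂ) ^ (-s)) - w v * (Nm v : ℂ) ^ (-s))

/-- The Dirichlet series of the w v log Nv minus A / (s - 1) has a continuous extension to re s >= 1. -/
def Ext (w : Pr K → ℂ) (A : ℂ) : Prop := ∃ G : ℂ → ℂ, ContinuousOn G {s | 1 ≤ s.re} ∧
  ∀ s : ℂ, 1 < s.re → LSeries (LSeries.logMul (cf w)) s = G s + A / (s - 1)

/-- The values at the primes. -/
def pr (h : Ideal (𝓞 K) →*₀ ℂ) (v : Pr K) : ℂ := h v.asIdeal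

end CFTC
end

-- from Lib.CFTC.C1
section

/-! # CFT module C, chunk C1: Dirichlet series over the primes as L-series -/

open NumberField IsDedekindDomain Complex

namespace CFTC

open CFT

variable {K : Type} [Field K] [NumberField K]

/-- PROOF. `|w v Nv^(-s)| <= Nv^(-re s)` (`Complex.norm_natCast_cpow_of_pos`, `CFTZ.dd_two_le`), `CFTZ.dd_summable`. -/
theorem summ_w {w : Pr K → ℂ} {B : ℝ} (hw : ∀ v, ‖w v‖ ≤ B) {s : ℂ} (hs : 1 < s.re) :
    Summable fun v : Pr K => w v * (Nm v : ℂ) ^ (-s) := by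
  have h1 : Summable fun v : Pr K => B * (Nm v : ℝ) ^ (-s.re) := (CFTZ.dd_summable (K := K) s.re hs).mul_left B
  refine Summable.of_norm_bounded h1 fun v => ?_
  have h2 : 2 ≤ Nm v := CFTZ.dd_two_le v
  rw [norm_mul, Complex.norm_natCast_cpow_of_pos (by omega), Complex.neg_re]
  exact mul_le_mul_of_nonneg_right (hw v) (by positivity)

/-- PROOF. Sum over the fibres of the norm (`Equiv.sigmaFiberEquiv`, `HasSum.sigma`; compare the proof of `CFTZ.RD3_zeta` in Lib/CFT/ZA.lean); the sum over the fibre of `n` is `LSeries.term (cf w) s n` for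
every `n` (for `n = 0` the fibre is empty: `2 ≤ Nm v`). -/
theorem cf_hasSum {w : Pr K → ℂ} {B : ℝ} (hw : ∀ v, ‖w v‖ ≤ B) {s : ℂ} (hs : 1 < s.re) : LSeriesHasSum (cf w) s (Ps w s) := by
  have h1 := (summ_w hw hs).hasSum
  rw [← (Equiv.sigmaFiberEquiv (fun v : Pr K => Nm v)).hasSum_iff] at h1
  refine h1.sigma fun n => ?_
  have hf : Finite {v : Pr K // Nm v = n} := (fib_fin n).to_subtype
  have := Fintype.ofFinite {v : Pr K // Nm v = n}
  have h2 : LSeries.term (cf w) s n = ∑ v : {v : Pr K // Nm v = n}, w v * (Nm (v : Pr K) : ℂ) ^ (-s) := by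
    rw [← Finset.sum_subtype (fib n) (mem_fib n) fun v => w v * (Nm v : ℂ) ^ (-s)]
    rcases Nat.eq_zero_or_pos n with rfl | hn
    · rw [LSeries.term_zero]
      refine (Finset.sum_eq_zero fun v hv => ?_).symm
      have h3 : 2 ≤ Nm v := CFTZ.dd_two_le v
      rw [mem_fib] at hv
      omega
    · rw [LSeries.term_of_ne_zero (by omega), cf, Finset.sum_div]
      refine Finset.sum_congr rfl fun v hv => ?_
      rw [mem_fib] at hv
      rw [hv, Complex.cpow_neg, div_eq_mul_inv]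
  rw [h2]
  exact hasSum_fintype _

/-- PROOF. `LSeries.abscissaOfAbsConv_le_of_forall_lt_LSeriesSummable` and `cf_hasSum`. -/
theorem cf_absc {w : Pr K → ℂ} {B : ℝ} (hw : ∀ v, ‖w v‖ ≤ B) : LSeries.abscissaOfAbsConv (cf w) ≤ 1 := by
  have h1 : ∀ y : ℝ, (1 : ℝ) < y → LSeriesSummable (cf w) y := fun y hy =>
    (cf_hasSum hw (s := (y : ℂ)) (by rwa [Complex.ofReal_re])).summable
  exact LSeries.abscissaOfAbsConv_le_of_forall_lt_LSeriesSummable h1

/-- PROOF. `LSeries_hasDerivAt` (with `cf_absc`), `Ps w = LSeries (cf w)` near `s` (`cf_hasSum`; the half plane is open). -/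
theorem ps_deriv {w : Pr K → ℂ} {B : ℝ} (hw : ∀ v, ‖w v‖ ≤ B) {s : ℂ} (hs : 1 < s.re) :
    HasDerivAt (Ps w) (-(LSeries (LSeries.logMul (cf w)) s)) s := by
  have h1 : LSeries.abscissaOfAbsConv (cf w) < s.re :=
    lt_of_le_of_lt (cf_absc hw) (by exact_mod_cast hs)
  refine (LSeries_hasDerivAt h1).congr_of_eventuallyEq ?_
  have h2 : {z : ℂ | 1 < z.re} ∈ nhds s := (isOpen_lt continuous_const Complex.continuous_re).mem_nhds hs
  filter_upwards [h2] with z hz
  exact (cf_hasSum hw hz).tsum_eq.symm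

/-- PROOF. `LSeries.abscissaOfAbsConv_logMul` and `cf_absc`. -/
theorem lm_absc {w : Pr K → ℂ} {B : ℝ} (hw : ∀ v, ‖w v‖ ≤ B) : LSeries.abscissaOfAbsConv (LSeries.logMul (cf w)) ≤ 1 := by
  rw [LSeries.abscissaOfAbsConv_logMul]
  exact cf_absc hw

end CFTC
end

-- from Lib.CFTC.C2
section

/-! # CFT module C, chunk C2: the correction term is analytic -/

open NumberField IsDedekindDomain Complex

namespace CFTC

open CFT

variable {K : Type} [Field K] [NumberField K]

theorem c2_le (v : Pr K) {a : ℝ} (ha : 1 / 2 ≤ a) : (Nm v : ℝ) ^ (-a) ≤ 3 / 4 := by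
  have h2 : (2 : ℝ) ≤ (Nm v : ℝ) := by exact_mod_cast CFTZ.dd_two_le v
  have h3 : (Nm v : ℝ) ^ (-a) ≤ (Nm v : ℝ) ^ (-(1 / 2 : ℝ)) :=
    Real.rpow_le_rpow_of_exponent_le (by linarith) (by linarith)
  refine h3.trans ?_
  rw [Real.rpow_neg (by linarith), ← Real.sqrt_eq_rpow]
  have h4 : (4 / 3 : ℝ) ≤ Real.sqrt (Nm v) := by
    apply Real.le_sqrt_of_sq_le
    linarith
  calc (Real.sqrt (Nm v))⁻¹ ≤ (4 / 3 : ℝ)⁻¹ := inv_anti₀ (by norm_num) h4
    _ = 3 / 4 := by norm_num

theorem c2_z {w : Pr K → ℂ} (hw : ∀ v, ‖w v‖ ≤ 1) {a : ℝ} {s : ℂ} (hs : a ≤ s.re) (v : Pr K) :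
    ‖w v * (Nm v : ℂ) ^ (-s)‖ ≤ (Nm v : ℝ) ^ (-a) := by
  have h2 : 2 ≤ Nm v := CFTZ.dd_two_le v
  have h3 : (1 : ℝ) ≤ (Nm v : ℝ) := by exact_mod_cast (show 1 ≤ Nm v by omega)
  rw [norm_mul, Complex.norm_natCast_cpow_of_pos (by omega), Complex.neg_re]
  calc ‖w v‖ * (Nm v : ℝ) ^ (-s.re) ≤ 1 * (Nm v : ℝ) ^ (-s.re) := mul_le_mul_of_nonneg_right (hw v) (by positivity)
    _ = (Nm v : ℝ) ^ (-s.re) := one_mul _
    _ ≤ (Nm v : ℝ) ^ (-a) := Real.rpow_le_rpow_of_exponent_le h3 (by linarith)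

theorem c2_bd {w : Pr K → ℂ} (hw : ∀ v, ‖w v‖ ≤ 1) {a : ℝ} (ha : 1 / 2 ≤ a) {s : ℂ} (hs : a ≤ s.re) (v : Pr K) :
    ‖-log (1 - w v * (Nm v : ℂ) ^ (-s)) - w v * (Nm v : ℂ) ^ (-s)‖ ≤ 2 * (Nm v : ℝ) ^ (-(2 * a)) := by
  have h1 := c2_z hw hs v
  have h2 := c2_le v ha
  set z : ℂ := w v * (Nm v : ℂ) ^ (-s) with hz
  have h0 := norm_nonneg z
  have h3 : ‖-z‖ < 1 := by
    rw [norm_neg]
    linarith
  have h4 := Complex.norm_log_one_add_sub_self_le h3
  have h5 : -log (1 - z) - z = -(log (1 + -z) - -z) := by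
    rw [← sub_eq_add_neg]
    ring
  rw [h5, norm_neg]
  refine h4.trans ?_
  rw [norm_neg]
  have h6 : (1 - ‖z‖)⁻¹ ≤ 4 := by
    rw [inv_le_comm₀ (by linarith) (by norm_num)]
    linarith
  have h7 : (Nm v : ℝ) ^ (-(2 * a)) = ((Nm v : ℝ) ^ (-a)) ^ 2 := by
    rw [← Real.rpow_natCast, ← Real.rpow_mul (Nat.cast_nonneg _)]
    congr 1
    push_cast
    ring
  rw [h7]
  have h8 : ‖z‖ ^ 2 ≤ ((Nm v : ℝ) ^ (-a)) ^ 2 := pow_le_pow_left₀ h0 h1 2
  have h9 : ‖z‖ ^ 2 * (1 - ‖z‖)⁻¹ ≤ ‖z‖ ^ 2 * 4 := mul_le_mul_of_nonneg_left h6 (sq_nonneg _)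
  linarith

theorem c2_sum {a : ℝ} (ha : 1 / 2 < a) : Summable fun v : Pr K => 2 * (Nm v : ℝ) ^ (-(2 * a)) :=
  (CFTZ.dd_summable (K := K) (2 * a) (by linarith)).mul_left 2

/-- PROOF. Let `1/2 < re s0` and let `a` be strictly between `1/2` and `re s0`. On the open set `{s | a < re s}` we have, with `z = w v Nv^(-s)`, `|z| <= Nv^(-a) <= 2^(-1/2) <= 3/4` (`CFTZ.dd_two_le`;
`Complex.norm_natCast_cpow_of_pos`), so `|-log (1 - z) - z| = |log (1 + -z) - -z| <= |z|^2 (1 - |z|)⁻¹ / 2 <= 2 |z|^2 <= 2 Nv^(-2a)` (`Complex.norm_log_one_add_sub_self_le`), which is summable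
(`CFTZ.dd_summable`, `2a > 1`). Each term is differentiable (`1 - z` has positive real part: `Complex.mem_slitPlane_of_pos`... ). `differentiableOn_tsum_of_summable_norm`. -/
theorem er_diff {w : Pr K → ℂ} (hw : ∀ v, ‖w v‖ ≤ 1) : DifferentiableOn ℂ (Er w) {s | 1 / 2 < s.re} := by
  intro s0 hs0
  have hs1 : 1 / 2 < s0.re := hs0
  obtain ⟨a, ha1, ha2⟩ : ∃ a : ℝ, 1 / 2 < a ∧ a < s0.re := exists_between hs1
  have hU : IsOpen {s : ℂ | a < s.re} := isOpen_lt continuous_const Complex.continuous_re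
  have h1 : DifferentiableOn ℂ (Er w) {s : ℂ | a < s.re} := by
    refine differentiableOn_tsum_of_summable_norm (c2_sum (K := K) ha1) (fun v => ?_) hU fun v s hs => c2_bd hw ha1.le (le_of_lt hs) v
    intro s hs
    have hs' : a ≤ s.re := le_of_lt hs
    have h2 : 2 ≤ Nm v := CFTZ.dd_two_le v
    have h3 : (Nm v : ℂ) ≠ 0 := by
      have : Nm v ≠ 0 := by omega
      exact_mod_cast this
    have h4 : DifferentiableAt ℂ (fun s : ℂ => w v * (Nm v : ℂ) ^ (-s)) s :=
      ((differentiableAt_id.neg).const_cpow (Or.inl h3)).const_mul _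
    have h5 : 1 - w v * (Nm v : ℂ) ^ (-s) ∈ slitPlane := by
      rw [mem_slitPlane_iff]
      left
      rw [Complex.sub_re, Complex.one_re]
      have h6 := c2_z hw hs' v
      have h7 := c2_le v ha1.le
      have h8 := Complex.re_le_norm (w v * (Nm v : ℂ) ^ (-s))
      linarith
    exact (((((differentiableAt_const _).sub h4).clog h5).neg).sub h4).differentiableWithinAt
  exact (h1.differentiableAt (hU.mem_nhds ha2)).differentiableWithinAt

/-- PROOF. As in `er_diff` (one point). -/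
theorem er_summ {w : Pr K → ℂ} (hw : ∀ v, ‖w v‖ ≤ 1) {s : ℂ} (hs : 1 / 2 < s.re) :
    Summable fun v : Pr K => (-log (1 - w v * (Nm v : ℂ) ^ (-s)) - w v * (Nm v : ℂ) ^ (-s)) := by
  obtain ⟨a, ha1, ha2⟩ : ∃ a : ℝ, 1 / 2 < a ∧ a < s.re := exists_between hs
  exact Summable.of_norm_bounded (c2_sum (K := K) ha1) fun v => c2_bd hw ha1.le ha2.le v

end CFTC
end

-- from Lib.CFTC.C3
section

/-! # CFT module C, chunk C3: the Euler product as an exponential -/

open NumberField IsDedekindDomain Complex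

namespace CFTC

open CFT

variable {K : Type} [Field K] [NumberField K]

theorem c3_tm (h : Ideal (𝓞 K) →*₀ ℂ) (s : ℂ) (a : Ideal (𝓞 K)) :
    CFTZ.tm (CFTZ.tmH h (s.im * I)) (s.re : ℂ) a = CFTZ.tm h s a := by
  show h a * (Ideal.absNorm a : ℂ) ^ (-(s.im * I)) * (Ideal.absNorm a : ℂ) ^ (-(s.re : ℂ)) = h a * (Ideal.absNorm a : ℂ) ^ (-s)
  by_cases ha : a = ⊥
  · subst ha
    have h0 : h ⊥ = 0 := map_zero h
    rw [h0, zero_mul, zero_mul, zero_mul]
  · have h1 : (Ideal.absNorm a : ℂ) ≠ 0 := by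
      have : Ideal.absNorm a ≠ 0 := fun h => ha (Ideal.absNorm_eq_zero_iff.1 h)
      exact_mod_cast this
    rw [mul_assoc, ← Complex.cpow_add _ _ h1]
    congr 2
    have h2 := Complex.re_add_im s
    linear_combination -h2

theorem c3_norm (h : Ideal (𝓞 K) →*₀ ℂ) (hh : ∀ a, ‖h a‖ ≤ 1) (t : ℝ) (a : Ideal (𝓞 K)) :
    ‖CFTZ.tmH h (t * I) a‖ ≤ 1 := by
  show ‖h a * (Ideal.absNorm a : ℂ) ^ (-(t * I))‖ ≤ 1
  by_cases ha : a = ⊥
  · subst ha
    have h0 : h ⊥ = 0 := map_zero h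
    rw [h0, zero_mul, norm_zero]
    exact zero_le_one
  · have h1 : 0 < Ideal.absNorm a := Nat.pos_of_ne_zero fun h => ha (Ideal.absNorm_eq_zero_iff.1 h)
    rw [norm_mul, Complex.norm_natCast_cpow_of_pos h1]
    have h2 : (-(t * I : ℂ)).re = 0 := by simp
    rw [h2, Real.rpow_zero, mul_one]
    exact hh a

/-- PROOF. Write `s = σ + i t`. For the twisted function `CFTZ.tmH h (i t)` (completely multiplicative, absolute value `<= 1`: `Complex.norm_natCast_cpow_of_pos`, and `h ⊥ = 0`) we have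
`tm (tmH h (it)) σ a = tm h s a` (`Complex.cpow_add`; both sides are 0 for `a = ⊥`), so `CFTZ.RD1_lim` at the real point `σ` is the claim. -/
theorem eu_lim (h : Ideal (𝓞 K) →*₀ ℂ) (hh : ∀ a, ‖h a‖ ≤ 1) {s : ℂ} (hs : 1 < s.re) :
    Filter.Tendsto (fun T : Finset (Pr K) => (∏ v ∈ T, (1 - pr h v * (Nm v : ℂ) ^ (-s))) * CFTY.Lc h s) Filter.atTop (nhds 1) := by
  have h1 := CFTZ.RD1_lim (CFTZ.tmH h (s.im * I)) (c3_norm h hh s.im) s.re hs
  have h2 : CFTZ.Ls (CFTZ.tmH h (s.im * I)) s.re = CFTY.Lc h s := tsum_congr fun a => c3_tm h s a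
  rw [h2] at h1
  refine h1.congr fun T => ?_
  congr 1
  refine Finset.prod_congr rfl fun v _ => ?_
  rw [c3_tm]
  rfl

/-- PROOF. The series of the `-log (1 - z v)`, `z v = pr h v Nv^(-s)`, is summable (`summ_w`, `er_summ`, sum of both) with sum `Ps + Er`; the exponential of the partial sum over `T` is the inverse of
`∏ (1 - z v)` (`Complex.exp_log`, `1 - z v ≠ 0`), so the products tend to `exp (-(Ps + Er))`; by `eu_lim` `exp (-(Ps + Er)) * Lc h s = 1`. -/
theorem exp_eq (h : Ideal (𝓞 K) →*₀ ℂ) (hh : ∀ a, ‖h a‖ ≤ 1) {s : ℂ} (hs : 1 < s.re) :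
    Complex.exp (Ps (pr h) s + Er (pr h) s) = CFTY.Lc h s := by
  have hw : ∀ v, ‖pr h v‖ ≤ 1 := fun v => hh v.asIdeal
  have h1 := (summ_w hw hs).hasSum.add (er_summ hw (s := s) (by linarith)).hasSum
  have h2 : Filter.Tendsto (fun T : Finset (Pr K) => ∏ v ∈ T, (1 - pr h v * (Nm v : ℂ) ^ (-s))) Filter.atTop
      (nhds (Complex.exp (-(Ps (pr h) s + Er (pr h) s)))) := by
    have h3 : Filter.Tendsto (fun T : Finset (Pr K) => ∑ v ∈ T, (pr h v * (Nm v : ℂ) ^ (-s) +
        (-log (1 - pr h v * (Nm v : ℂ) ^ (-s)) - pr h v * (Nm v : ℂ) ^ (-s)))) Filter.atTop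
        (nhds (Ps (pr h) s + Er (pr h) s)) := h1
    refine ((Complex.continuous_exp.tendsto _).comp h3.neg).congr fun T => ?_
    show Complex.exp (-∑ v ∈ T, _) = _
    rw [← Finset.sum_neg_distrib, Complex.exp_sum]
    refine Finset.prod_congr rfl fun v _ => ?_
    have h4 := c2_z hw (a := s.re) (s := s) le_rfl v
    have h5 := c2_le v (a := s.re) (by linarith)
    have h6 : 1 - pr h v * (Nm v : ℂ) ^ (-s) ≠ 0 := by
      intro h0
      rw [sub_eq_zero] at h0
      rw [← h0, norm_one] at h4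
      linarith
    have h7 : -(pr h v * (Nm v : ℂ) ^ (-s) + (-log (1 - pr h v * (Nm v : ℂ) ^ (-s)) - pr h v * (Nm v : ℂ) ^ (-s))) =
        log (1 - pr h v * (Nm v : ℂ) ^ (-s)) := by ring
    rw [h7, Complex.exp_log h6]
  have h8 := tendsto_nhds_unique (h2.mul_const (CFTY.Lc h s)) (eu_lim h hh hs)
  rw [Complex.exp_neg, inv_mul_eq_one₀ (Complex.exp_ne_zero _)] at h8
  exact h8

end CFTC
end

-- from Lib.CFTC.C4
section

/-! # CFT module C, chunk C4: continuous extension of the logarithmic derivative -/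

open NumberField IsDedekindDomain Complex

namespace CFTC

open CFT

variable {K : Type} [Field K] [NumberField K]

/-- PROOF. `U` is an open set which contains the closed half plane and `H` is analytic on `U`, without zeros on the closed half plane. For `re s > 1`: `H s = (s - 1)^k exp (Ps s + Er s)` (`exp_eq`), so
`H' s / H s = k / (s - 1) + Ps' s + Er' s` and `Ps' s = -LSeries (logMul cf) s` (`ps_deriv`). So `G s = Er' s - H' s / H s` works: `H'` and `Er'` are continuous on the open sets `U`, `{1/2 < re s}`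
(`DifferentiableOn.deriv`, `DifferentiableOn.contDiffOn`). -/
theorem ext_of (h : Ideal (𝓞 K) →*₀ ℂ) (hh : ∀ a, ‖h a‖ ≤ 1) (k : ℕ) {H : ℂ → ℂ} {U : Set ℂ} (hU : IsOpen U) (hU1 : {s : ℂ | 1 ≤ s.re} ⊆ U)
    (hH : DifferentiableOn ℂ H U) (hL : ∀ s : ℂ, 1 < s.re → H s = (s - 1) ^ k * CFTY.Lc h s) (hne : ∀ s : ℂ, 1 ≤ s.re → H s ≠ 0) :
    Ext (pr h) k := by
  have hw : ∀ v : Pr K, ‖pr h v‖ ≤ 1 := fun v => hh _
  have hV : IsOpen {s : ℂ | 1 / 2 < s.re} := isOpen_lt continuous_const Complex.continuous_re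
  have hVsub : {s : ℂ | 1 ≤ s.re} ⊆ {s : ℂ | 1 / 2 < s.re} := by
    intro s hs
    have h1 : 1 ≤ s.re := hs
    change 1 / 2 < s.re
    linarith
  refine ⟨fun s => deriv (Er (pr h)) s - deriv H s / H s, ?_, ?_⟩
  · have h1 : ContinuousOn (deriv (Er (pr h))) {s : ℂ | 1 / 2 < s.re} := ((er_diff hw).deriv hV).continuousOn
    have h2 : ContinuousOn (deriv H) U := (hH.deriv hU).continuousOn
    exact (h1.mono hVsub).sub ((h2.mono hU1).div (hH.continuousOn.mono hU1) hne)
  · intro s hs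
    have hO : IsOpen {s : ℂ | 1 < s.re} := isOpen_lt continuous_const Complex.continuous_re
    have e1 : H =ᶠ[nhds s] fun z => (z - 1) ^ k * exp (Ps (pr h) z + Er (pr h) z) := by
      filter_upwards [hO.mem_nhds hs] with z hz
      rw [hL z hz, exp_eq h hh hz]
    have hP := ps_deriv hw hs
    have hE : HasDerivAt (Er (pr h)) (deriv (Er (pr h)) s) s :=
      ((er_diff hw).differentiableAt (hV.mem_nhds (hVsub (le_of_lt hs)))).hasDerivAt
    have hD := (((hasDerivAt_id s).sub_const 1).pow k).mul ((hP.add hE).cexp)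
    have hdH : deriv H s = _ := e1.deriv_eq.trans hD.deriv
    have hHs : H s = (s - 1) ^ k * exp (Ps (pr h) s + Er (pr h) s) := e1.self_of_nhds
    have ht : s - 1 ≠ 0 := by
      intro h0
      have h1 : s = 1 := sub_eq_zero.1 h0
      rw [h1, Complex.one_re] at hs
      exact lt_irrefl _ hs
    have hE0 : exp (Ps (pr h) s + Er (pr h) s) ≠ 0 := Complex.exp_ne_zero _
    change LSeries (LSeries.logMul (cf (pr h))) s = deriv (Er (pr h)) s - deriv H s / H s + k / (s - 1)
    rw [hdH, hHs]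
    simp only [Pi.add_apply, Pi.pow_apply, id]
    generalize exp (Ps (pr h) s + Er (pr h) s) = E at hE0
    generalize deriv (Er (pr h)) s = e
    generalize LSeries (LSeries.logMul (cf (pr h))) s = L
    generalize s - 1 = t at ht
    rcases k with _ | m
    · simp only [pow_zero, Nat.cast_zero, zero_mul, one_mul, zero_div, add_zero, zero_add]
      field_simp
      ring
    · rw [Nat.add_sub_cancel, pow_succ]
      have ht2 : t ^ m ≠ 0 := pow_ne_zero _ ht
      field_simp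
      ring


end CFTC
end

-- from Lib.CFTC.C5
section

/-! # CFT module C, chunk C5: no zeros on the line re s = 1 (3-4-1) -/

open NumberField IsDedekindDomain Complex

namespace CFTC

open CFT

variable {K : Type} [Field K] [NumberField K]

/-- PROOF. Copy of the private lemma `re_log_comb_nonneg'` in Mathlib/NumberTheory/LSeries/Nonvanishing.lean. -/
theorem c5_comb {a : ℝ} (ha₀ : 0 ≤ a) (ha₁ : a < 1) {z : ℂ} (hz : ‖z‖ = 1) :
    0 ≤ 3 * (-log (1 - a)).re + 4 * (-log (1 - a * z)).re + (-log (1 - a * z ^ 2)).re := by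
  have hac₀ : ‖(a : ℂ)‖ < 1 := by
    simp only [Complex.norm_of_nonneg ha₀, ha₁]
  have hac₁ : ‖a * z‖ < 1 := by rwa [norm_mul, hz, mul_one]
  have hac₂ : ‖a * z ^ 2‖ < 1 := by rwa [norm_mul, norm_pow, hz, one_pow, mul_one]
  rw [← ((hasSum_re <| hasSum_taylorSeries_neg_log hac₀).mul_left 3).add
    ((hasSum_re <| hasSum_taylorSeries_neg_log hac₁).mul_left 4) |>.add
    (hasSum_re <| hasSum_taylorSeries_neg_log hac₂) |>.tsum_eq]
  refine tsum_nonneg fun n ↦ ?_
  simp only [← ofReal_pow, div_natCast_re, ofReal_re, mul_pow, mul_re, ofReal_im, zero_mul,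
    sub_zero]
  rcases n.eq_zero_or_pos with rfl | hn
  · simp
  · simp only [← mul_div_assoc, ← add_div]
    refine div_nonneg ?_ n.cast_nonneg
    rw [← pow_mul, pow_mul', sq, mul_re, ← sq, ← sq, ← sq_norm_sub_sq_re, norm_pow, hz]
    convert! (show 0 ≤ 2 * a ^ n * ((z ^ n).re + 1) ^ 2 by positivity) using 1
    ring

theorem c5_sum {w : Pr K → ℂ} (hw : ∀ v, ‖w v‖ ≤ 1) {s : ℂ} (hs : 1 < s.re) :
    HasSum (fun v : Pr K => -log (1 - w v * (Nm v : ℂ) ^ (-s))) (Ps w s + Er w s) := by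
  have h1 := (summ_w hw hs).hasSum
  have h2 := (er_summ hw (s := s) (by linarith)).hasSum
  have h3 := h1.add h2
  refine h3.congr_fun fun v => ?_
  ring

/-- PROOF. `|Lc| = exp (re (Ps + Er))` (`exp_eq`, `Complex.norm_exp`), `Ps + Er` = the sum of the `-log (1 - z v)` (`summ_w`, `er_summ`); the combination `3 re(..) + 4 re(..) + re(..)` is nonnegative for each `v`:
if `pr h v ≠ 0` by `c5_comb` with `a = Nv^(-σ)`, `z = pr h v Nv^(-it)`, otherwise only the first term (`-log (1 - a) ≥ 0`) remains. Here `o` is the function with value 1 at every nonzero ideal. -/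
theorem c5_prod {o h h2 : Ideal (𝓞 K) →*₀ ℂ} (ho : ∀ v : Pr K, pr o v = 1) (hoo : ∀ a, ‖o a‖ ≤ 1) (hh : ∀ a, ‖h a‖ ≤ 1) (hh2 : ∀ a, ‖h2 a‖ ≤ 1)
    (h01 : ∀ v : Pr K, pr h v = 0 ∨ ‖pr h v‖ = 1) (hsq : ∀ v : Pr K, pr h2 v = pr h v ^ 2) (t : ℝ) {σ : ℝ} (hσ : 1 < σ) :
    1 ≤ ‖CFTY.Lc o σ‖ ^ 3 * ‖CFTY.Lc h (σ + t * I)‖ ^ 4 * ‖CFTY.Lc h2 (σ + 2 * t * I)‖ := by
  have r0 : 1 < ((σ : ℝ) : ℂ).re := by simpa using hσ
  have r1 : 1 < (σ + t * I : ℂ).re := by simpa using hσ
  have r2 : 1 < (σ + 2 * t * I : ℂ).re := by simpa using hσ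
  have s0 := hasSum_re (c5_sum (w := pr o) (fun v => hoo _) r0)
  have s1 := hasSum_re (c5_sum (w := pr h) (fun v => hh _) r1)
  have s2 := hasSum_re (c5_sum (w := pr h2) (fun v => hh2 _) r2)
  have s3 := ((s0.mul_left 3).add (s1.mul_left 4)).add s2
  have hpos := s3.nonneg (g := _) fun v => by
    have hN : 2 ≤ Nm v := CFTZ.dd_two_le v
    have hN0 : (0 : ℝ) < (Nm v : ℝ) := by
      have : 0 < Nm v := by omega
      exact_mod_cast this
    have hN1 : (1 : ℝ) < (Nm v : ℝ) := by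
      have : 1 < Nm v := by omega
      exact_mod_cast this
    have hNc : (Nm v : ℂ) ≠ 0 := by
      have : Nm v ≠ 0 := by omega
      exact_mod_cast this
    obtain ⟨a, ha⟩ : ∃ a : ℝ, a = (Nm v : ℝ) ^ (-σ) := ⟨_, rfl⟩
    have ha0 : 0 ≤ a := by
      rw [ha]
      positivity
    have ha1 : a < 1 := by
      rw [ha]
      exact Real.rpow_lt_one_of_one_lt_of_neg hN1 (by linarith)
    have hac : (Nm v : ℂ) ^ (-(σ : ℂ)) = (a : ℂ) := by
      rw [ha, Complex.ofReal_cpow hN0.le]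
      push_cast
      rfl
    have e0 : pr o v * (Nm v : ℂ) ^ (-((σ : ℝ) : ℂ)) = a := by
      rw [ho, one_mul, hac]
    have e1 : pr h v * (Nm v : ℂ) ^ (-(σ + t * I : ℂ)) = a * (pr h v * (Nm v : ℂ) ^ (-(t * I : ℂ))) := by
      rw [neg_add, Complex.cpow_add _ _ hNc, hac]
      ring
    have e2 : pr h2 v * (Nm v : ℂ) ^ (-(σ + 2 * t * I : ℂ)) = a * (pr h v * (Nm v : ℂ) ^ (-(t * I : ℂ))) ^ 2 := by
      rw [neg_add, Complex.cpow_add _ _ hNc, hac, hsq, mul_pow, ← Complex.cpow_nat_mul]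
      have e3 : -(2 * t * I : ℂ) = ((2 : ℕ) : ℂ) * -(t * I : ℂ) := by
        push_cast
        ring
      rw [e3]
      ring
    show 0 ≤ 3 * (-log (1 - pr o v * (Nm v : ℂ) ^ (-((σ : ℝ) : ℂ)))).re + 4 * (-log (1 - pr h v * (Nm v : ℂ) ^ (-(σ + t * I : ℂ)))).re +
      (-log (1 - pr h2 v * (Nm v : ℂ) ^ (-(σ + 2 * t * I : ℂ)))).re
    rw [e0, e1, e2]
    rcases h01 v with hv | hv
    · rw [hv]
      simp only [zero_mul, mul_zero, sub_zero, Complex.log_one, neg_zero, Complex.zero_re, add_zero, ne_eq, OfNat.ofNat_ne_zero,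
        not_false_eq_true, zero_pow]
      have h4 : (-log (1 - (a : ℂ))).re = -Real.log (1 - a) := by
        rw [← Complex.ofReal_one, ← Complex.ofReal_sub, Complex.neg_re, Complex.log_re, Complex.norm_real,
          Real.norm_of_nonneg (by linarith)]
      rw [h4]
      have h5 := Real.log_nonpos (x := 1 - a) (by linarith) (by linarith)
      linarith
    · refine c5_comb ha0 ha1 ?_
      rw [norm_mul, hv, one_mul, Complex.norm_natCast_cpow_of_pos (by omega)]
      simp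
  rw [← exp_eq o hoo r0, ← exp_eq h hh r1, ← exp_eq h2 hh2 r2, Complex.norm_exp, Complex.norm_exp, Complex.norm_exp,
    ← Real.exp_nat_mul, ← Real.exp_nat_mul, ← Real.exp_add, ← Real.exp_add]
  rw [Real.one_le_exp_iff]
  push_cast
  exact hpos

/-- PROOF. If `H (1 + i t) = 0` then `|Lc h (σ + i t)| = |H (σ + i t)| <= C' (σ - 1)` for `σ > 1` near 1 (`HasDerivAt.isBigO_sub` or the definition of the derivative), `|Lc o σ| <= C'' / (σ - 1)` (`hp`), so
the product in `c5_prod` is `<= C''^3 C'^4 C (σ - 1)` and tends to 0: contradiction. -/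
theorem nv {o h h2 : Ideal (𝓞 K) →*₀ ℂ} (ho : ∀ v : Pr K, pr o v = 1) (hoo : ∀ a, ‖o a‖ ≤ 1) (hh : ∀ a, ‖h a‖ ≤ 1) (hh2 : ∀ a, ‖h2 a‖ ≤ 1)
    (h01 : ∀ v : Pr K, pr h v = 0 ∨ ‖pr h v‖ = 1) (hsq : ∀ v : Pr K, pr h2 v = pr h v ^ 2) (t : ℝ)
    {B : ℝ} (hp : ∀ σ : ℝ, 1 < σ → σ ≤ 2 → (σ - 1) * ‖CFTY.Lc o σ‖ ≤ B)
    {H : ℂ → ℂ} (hH : DifferentiableAt ℂ H (1 + t * I)) (hL : ∀ s : ℂ, 1 < s.re → H s = CFTY.Lc h s)
    {C : ℝ} (hb : ∀ σ : ℝ, 1 < σ → σ ≤ 2 → ‖CFTY.Lc h2 (σ + 2 * t * I)‖ ≤ C) : H (1 + t * I) ≠ 0 := by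
  intro h0
  obtain ⟨c, hc⟩ := hH.isBigO_sub.bound
  rw [h0] at hc
  simp only [sub_zero] at hc
  have hlim : Filter.Tendsto (fun σ : ℝ => (σ + t * I : ℂ)) (nhdsWithin 1 (Set.Ioi 1)) (nhds (1 + t * I)) := by
    have h4 : Continuous fun σ : ℝ => (σ + t * I : ℂ) := by fun_prop
    have h5 := (h4.tendsto 1).mono_left (nhdsWithin_le_nhds (s := Set.Ioi (1 : ℝ)))
    rwa [Complex.ofReal_one] at h5
  have hev := hlim.eventually hc
  have hB0 : 0 ≤ B := le_trans (by positivity) (hp 2 (by norm_num) le_rfl |>.trans' (by norm_num : (0 : ℝ) ≤ (2 - 1) * ‖CFTY.Lc o ((2 : ℝ) : ℂ)‖))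
  have hC0 : 0 ≤ C := (norm_nonneg _).trans (hb 2 (by norm_num) le_rfl)
  have hlim2 : Filter.Tendsto (fun σ : ℝ => B ^ 3 * |c| ^ 4 * C * (σ - 1)) (nhdsWithin 1 (Set.Ioi 1)) (nhds 0) := by
    have h4 : Continuous fun σ : ℝ => B ^ 3 * |c| ^ 4 * C * (σ - 1) := by fun_prop
    have h5 := (h4.tendsto 1).mono_left (nhdsWithin_le_nhds (s := Set.Ioi (1 : ℝ)))
    rwa [sub_self, mul_zero] at h5
  have h6 : (1 : ℝ) ≤ 0 := by
    refine ge_of_tendsto hlim2 ?_
    filter_upwards [hev, Ioc_mem_nhdsGT (show (1 : ℝ) < 2 by norm_num)] with σ h1 hσ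
    have r1 : 1 < (σ + t * I : ℂ).re := by simpa using hσ.1
    rw [hL _ r1] at h1
    have hn : ‖(σ + t * I : ℂ) - (1 + t * I)‖ = σ - 1 := by
      rw [show (σ + t * I : ℂ) - (1 + t * I) = ((σ - 1 : ℝ) : ℂ) by push_cast; ring, Complex.norm_real,
        Real.norm_of_nonneg (by linarith [hσ.1])]
    rw [hn] at h1
    have hs0 : 0 < σ - 1 := by linarith [hσ.1]
    have h2' : ‖CFTY.Lc h (σ + t * I)‖ ≤ |c| * (σ - 1) := h1.trans (mul_le_mul_of_nonneg_right (le_abs_self c) hs0.le)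
    have h3 := c5_prod ho hoo hh hh2 h01 hsq t hσ.1
    have h4 := hb σ hσ.1 hσ.2
    have h5 := hp σ hσ.1 hσ.2
    have h7 : ((σ - 1) * ‖CFTY.Lc o σ‖) ^ 3 ≤ B ^ 3 := pow_le_pow_left₀ (by positivity) h5 3
    calc (1 : ℝ) ≤ ‖CFTY.Lc o σ‖ ^ 3 * ‖CFTY.Lc h (σ + t * I)‖ ^ 4 * ‖CFTY.Lc h2 (σ + 2 * t * I)‖ := h3
      _ ≤ ‖CFTY.Lc o σ‖ ^ 3 * (|c| * (σ - 1)) ^ 4 * C := by gcongr
      _ = ((σ - 1) * ‖CFTY.Lc o σ‖) ^ 3 * (|c| ^ 4 * C * (σ - 1)) := by ring
      _ ≤ B ^ 3 * (|c| ^ 4 * C * (σ - 1)) := mul_le_mul_of_nonneg_right h7 (by positivity)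
      _ = B ^ 3 * |c| ^ 4 * C * (σ - 1) := by ring
  linarith

end CFTC
end

-- from Lib.CFTC.C7
section

/-! # CFT module C, chunk C7: the Tauberian theorem for sums over the primes -/

open NumberField IsDedekindDomain Complex Filter Topology

namespace CFTC

open CFT

variable {K : Type} [Field K] [NumberField K]

theorem c7_summ {w : Pr K → ℂ} {B : ℝ} (hw : ∀ v, ‖w v‖ ≤ B) {s : ℂ} (hs : 1 < s.re) :
    LSeriesSummable (LSeries.logMul (cf w)) s :=
  LSeriesSummable_of_abscissaOfAbsConv_lt_re (lt_of_le_of_lt (lm_absc hw) (by exact_mod_cast hs))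

/-- PROOF. `G` becomes `a • G + b • G'`; `cf` and `logMul` are linear, `LSeries_add`, `LSeries_smul` with summability from `lm_absc` (`LSeriesSummable_of_abscissaOfAbsConv_lt_re`). -/
theorem ext_lin {w w' : Pr K → ℂ} {B B' : ℝ} (hw : ∀ v, ‖w v‖ ≤ B) (hw' : ∀ v, ‖w' v‖ ≤ B') {A A' : ℂ} (h : Ext w A) (h' : Ext w' A') (a b : ℂ) :
    Ext (fun v => a * w v + b * w' v) (a * A + b * A') := by
  obtain ⟨G, hG, hE⟩ := h
  obtain ⟨G', hG', hE'⟩ := h'
  refine ⟨fun s => a * G s + b * G' s, (continuousOn_const.mul hG).add (continuousOn_const.mul hG'), fun s hs => ?_⟩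
  have h1 : LSeries.logMul (cf fun v => a * w v + b * w' v) = a • LSeries.logMul (cf w) + b • LSeries.logMul (cf w') := by
    funext n
    unfold cf
    simp only [LSeries.logMul, Pi.add_apply, Pi.smul_apply, smul_eq_mul]
    rw [Finset.sum_add_distrib, ← Finset.mul_sum, ← Finset.mul_sum]
    ring
  rw [h1, LSeries_add ((c7_summ hw hs).smul a) ((c7_summ hw' hs).smul b), LSeries_smul, LSeries_smul, hE s hs, hE' s hs]
  ring

/-- PROOF. `G` becomes `conj (G (conj s))`; `LSeries.term (conj ∘ f) s n = conj (LSeries.term f (conj s) n)` (`Complex.cpow_conj`, `Complex.natCast_arg`), `Complex.conj_tsum`. -/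
theorem ext_conj {w : Pr K → ℂ} {A : ℂ} (h : Ext w A) : Ext (fun v => (starRingEnd ℂ) (w v)) ((starRingEnd ℂ) A) := by
  obtain ⟨G, hG, hE⟩ := h
  refine ⟨fun s => (starRingEnd ℂ) (G ((starRingEnd ℂ) s)), ?_, fun s hs => ?_⟩
  · refine Complex.continuous_conj.comp_continuousOn (hG.comp Complex.continuous_conj.continuousOn fun s hs => ?_)
    show (1 : ℝ) ≤ ((starRingEnd ℂ) s).re
    rw [Complex.conj_re]
    exact hs
  · have hs' : 1 < ((starRingEnd ℂ) s).re := by rwa [Complex.conj_re]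
    have h1 : LSeries (LSeries.logMul (cf fun v => (starRingEnd ℂ) (w v))) s =
        (starRingEnd ℂ) (LSeries (LSeries.logMul (cf w)) ((starRingEnd ℂ) s)) := by
      unfold LSeries
      rw [Complex.conj_tsum]
      refine tsum_congr fun n => ?_
      rcases Nat.eq_zero_or_pos n with rfl | hn
      · rw [LSeries.term_zero, LSeries.term_zero, map_zero]
      · rw [LSeries.term_of_ne_zero (by omega), LSeries.term_of_ne_zero (by omega), map_div₀,
          Complex.cpow_conj _ _ (by rw [Complex.natCast_arg]; exact Real.pi_pos.ne), Complex.conj_conj, Complex.conj_natCast]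
        congr 1
        unfold cf
        simp only [LSeries.logMul]
        rw [map_mul, map_sum, ← Complex.natCast_log, Complex.conj_ofReal]
    rw [h1, hE _ hs', map_add, map_div₀, map_sub, Complex.conj_conj, map_one]

theorem c7_real (u : Pr K → ℝ) (n : ℕ) : LSeries.logMul (cf fun v => (u v : ℂ)) n = (((∑ v ∈ fib n, u v) * Real.log n : ℝ) : ℂ) := by
  unfold cf
  simp only [LSeries.logMul]
  rw [Complex.ofReal_mul, Complex.ofReal_sum, ← Complex.natCast_log]
  ring

theorem c7_sum (u : Pr K → ℝ) (x : ℕ) : ∑ k ∈ Finset.Icc 1 x, ∑ v ∈ fib k, u v = ∑ᶠ v ∈ {v : Pr K | Nm v ≤ x}, u v := by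
  classical
  have h1 : (Finset.Icc 1 x : Set ℕ).PairwiseDisjoint (fun k => (fib k : Finset (Pr K))) := by
    intro i _ j _ hij
    rw [Function.onFun, Finset.disjoint_left]
    intro v hi hj
    rw [mem_fib] at hi hj
    exact hij (hi.symm.trans hj)
  rw [← Finset.sum_biUnion h1]
  have h2 : {v : Pr K | Nm v ≤ x} = (((Finset.Icc 1 x).biUnion fun k => (fib k : Finset (Pr K))) : Set (Pr K)) := by
    ext v
    rw [Finset.mem_coe, Finset.mem_biUnion]
    constructor
    · intro hv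
      have h3 : 2 ≤ Nm v := CFTZ.dd_two_le v
      exact ⟨Nm v, Finset.mem_Icc.2 ⟨by omega, hv⟩, (mem_fib _ _).2 rfl⟩
    · rintro ⟨k, hk, hv⟩
      rw [mem_fib] at hv
      rw [Finset.mem_Icc] at hk
      show Nm v ≤ x
      rw [hv]
      exact hk.2
  rw [h2, finsum_mem_coe_finset]

/-- PROOF. `cf (fun v => u v) n = ((∑ v ∈ fib n, u v : ℝ) : ℂ)`; `Pool.Agent.Lib.PNT.wiener_ikehara_nat` with `a n = (∑ v ∈ fib n, u v) * log n`, `A = 1` (summability from `lm_absc`), then `transfer` with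
`b n = ∑ v ∈ fib n, u v`, and `∑ k ∈ Icc 1 n, ∑ v ∈ fib k, u v` = the sum over `{v | Nm v ≤ n}` (`Finset.sum_biUnion` or `Finset.sum_fiberwise`; `finsum_mem_eq_finite_toFinset_sum`). -/
theorem tau {u : Pr K → ℝ} {B : ℝ} (h0 : ∀ v, 0 ≤ u v) (hB : ∀ v, u v ≤ B) (h : Ext (fun v : Pr K => (u v : ℂ)) 1) :
    Tendsto (fun x : ℕ => (∑ᶠ v ∈ {v : Pr K | Nm v ≤ x}, u v) / (Nat.primeCounting x : ℝ)) atTop (𝓝 1) := by
  obtain ⟨G, hG, hE⟩ := h
  have hw : ∀ v : Pr K, ‖(u v : ℂ)‖ ≤ B := fun v => by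
    rw [Complex.norm_real, Real.norm_of_nonneg (h0 v)]
    exact hB v
  have hcoe : (fun n : ℕ => (((∑ v ∈ fib n, u v) * Real.log n : ℝ) : ℂ)) = LSeries.logMul (cf fun v : Pr K => (u v : ℂ)) :=
    funext fun n => (c7_real u n).symm
  have h1 := Pool.Agent.Lib.PNT.wiener_ikehara_nat (fun n => (∑ v ∈ (fib n : Finset (Pr K)), u v) * Real.log n)
    (fun n => mul_nonneg (Finset.sum_nonneg fun v _ => h0 v) (Real.log_natCast_nonneg n)) 1 G
    (fun σ hσ => by
      rw [hcoe]
      exact c7_summ hw (by rwa [Complex.ofReal_re])) hG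
    (fun s hs => by
      rw [hcoe, hE s hs, Complex.ofReal_one])
  have h2 := transfer (b := fun n => ∑ v ∈ (fib n : Finset (Pr K)), u v) (fun n => Finset.sum_nonneg fun v _ => h0 v) (by
    refine Finset.sum_eq_zero fun v hv => ?_
    have h3 : 2 ≤ Nm v := CFTZ.dd_two_le v
    rw [mem_fib] at hv
    omega) h1
  refine h2.congr fun x => ?_
  rw [c7_sum]

end CFTC
end

-- from Lib.CFTC.C8
section

/-! # CFT module C, chunk C8: mean value zero -/

open NumberField IsDedekindDomain Complex Filter Topology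

namespace CFTC

open CFT

variable {K : Type} [Field K] [NumberField K]

theorem nm_fin (x : ℕ) : {v : Pr K | Nm v ≤ x}.Finite := by
  exact (Ideal.finite_setOfPred_absNorm_le (S := 𝓞 K) x).preimage CFTZ.dd_inj.injOn


/-- A real function with values in [-1, 1] and Ext u 0 has mean value zero. -/
theorem c8_real {f : Pr K → ℝ} (hf : ∀ v, |f v| ≤ 1) (h1 : Ext (fun _ : Pr K => 1) 1) (h : Ext (fun v => (f v : ℂ)) 0) :
    Tendsto (fun x : ℕ => (∑ᶠ v ∈ {v : Pr K | Nm v ≤ x}, f v) / (Nat.primeCounting x : ℝ)) atTop (𝓝 0) := by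
  have e1 : Ext (fun v => ((1 + f v : ℝ) : ℂ)) 1 := by
    have h2 := ext_lin (B := 1) (B' := 1) (w := fun _ : Pr K => 1) (w' := fun v => (f v : ℂ)) (fun v => by rw [norm_one]) (fun v => by
      rw [Complex.norm_real]
      exact hf v) h1 h 1 1
    have h3 : (1 : ℂ) * 1 + 1 * 0 = 1 := by ring
    rw [h3] at h2
    have h4 : (fun v : Pr K => (1 : ℂ) * 1 + 1 * (f v : ℂ)) = fun v => ((1 + f v : ℝ) : ℂ) := by
      funext v
      push_cast
      ring
    rw [h4] at h2
    exact h2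
  have e2 : Ext (fun v : Pr K => ((1 : ℝ) : ℂ)) 1 := by
    have h4 : (fun v : Pr K => ((1 : ℝ) : ℂ)) = fun _ => 1 := by
      funext v
      exact Complex.ofReal_one
    rw [h4]
    exact h1
  have t1 := tau (B := 2) (fun v => by linarith [(abs_le.1 (hf v)).1]) (fun v => by linarith [(abs_le.1 (hf v)).2]) e1
  have t2 := tau (u := fun _ : Pr K => (1 : ℝ)) (B := 2) (fun v => zero_le_one) (fun v => one_le_two) e2
  have t3 := t1.sub t2
  rw [sub_self] at t3
  refine t3.congr fun x => ?_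
  rw [← sub_div, finsum_mem_eq_finite_toFinset_sum _ (nm_fin x), finsum_mem_eq_finite_toFinset_sum _ (nm_fin x),
    finsum_mem_eq_finite_toFinset_sum _ (nm_fin x), ← Finset.sum_sub_distrib]
  congr 1
  refine Finset.sum_congr rfl fun v _ => ?_
  ring

/-- PROOF. `u = 1 + re w` and `u = 1 + im w` satisfy `tau` (`ext_lin`, `ext_conj`: `re w = (w + conj w) / 2`, `im w = (w - conj w) / (2 i)`); subtract `tau` for `u = 1`; so the real and the imaginary part of the quotient tend to 0. -/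
theorem mean_zero {w : Pr K → ℂ} (hw : ∀ v, ‖w v‖ ≤ 1) (h1 : Ext (fun _ : Pr K => 1) 1) (h : Ext w 0) :
    Tendsto (fun x : ℕ => (∑ᶠ v ∈ {v : Pr K | Nm v ≤ x}, w v) / (Nat.primeCounting x : ℂ)) atTop (𝓝 0) := by
  have hwc : ∀ v, ‖(starRingEnd ℂ) (w v)‖ ≤ 1 := fun v => by
    rw [RCLike.norm_conj]
    exact hw v
  have hre : Ext (fun v => ((w v).re : ℂ)) 0 := by
    have h2 := ext_lin hw hwc h (ext_conj h) (1 / 2) (1 / 2)
    have h3 : (1 / 2 : ℂ) * 0 + 1 / 2 * (starRingEnd ℂ) 0 = 0 := by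
      rw [map_zero]
      ring
    rw [h3] at h2
    have h4 : (fun v => (1 / 2 : ℂ) * w v + 1 / 2 * (starRingEnd ℂ) (w v)) = fun v => ((w v).re : ℂ) := by
      funext v
      rw [Complex.re_eq_add_conj]
      ring
    rw [h4] at h2
    exact h2
  have him : Ext (fun v => ((w v).im : ℂ)) 0 := by
    have h2 := ext_lin hw hwc h (ext_conj h) (1 / (2 * I)) (-(1 / (2 * I)))
    have h3 : (1 / (2 * I) : ℂ) * 0 + -(1 / (2 * I)) * (starRingEnd ℂ) 0 = 0 := by
      rw [map_zero]
      ring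
    rw [h3] at h2
    have h4 : (fun v => (1 / (2 * I) : ℂ) * w v + -(1 / (2 * I)) * (starRingEnd ℂ) (w v)) = fun v => ((w v).im : ℂ) := by
      funext v
      rw [Complex.im_eq_sub_conj]
      ring
    rw [h4] at h2
    exact h2
  have t1 := c8_real (fun v => (Complex.abs_re_le_norm (w v)).trans (hw v)) h1 hre
  have t2 := c8_real (fun v => (Complex.abs_im_le_norm (w v)).trans (hw v)) h1 him
  have t3 := ((Complex.continuous_ofReal.tendsto 0).comp t1).add (((Complex.continuous_ofReal.tendsto 0).comp t2).mul_const I)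
  rw [Complex.ofReal_zero, zero_mul, add_zero] at t3
  refine t3.congr fun x => ?_
  rw [Function.comp_apply, Function.comp_apply, finsum_mem_eq_finite_toFinset_sum _ (nm_fin x), finsum_mem_eq_finite_toFinset_sum _ (nm_fin x),
    finsum_mem_eq_finite_toFinset_sum _ (nm_fin x), Complex.ofReal_div, Complex.ofReal_div, Complex.ofReal_sum, Complex.ofReal_sum,
    Complex.ofReal_natCast, div_mul_eq_mul_div, ← add_div, Finset.sum_mul, ← Finset.sum_add_distrib]
  congr 1
  exact Finset.sum_congr rfl fun v _ => Complex.re_add_im (w v)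


/-- PROOF. The difference of the sums is bounded (`S` is finite), `Nat.tendsto_primeCounting`. -/
theorem change_S (S : Finset (Pr K)) {w w' : Pr K → ℂ} (h : ∀ v ∉ S, w v = w' v)
    (h1 : Tendsto (fun x : ℕ => (∑ᶠ v ∈ {v : Pr K | Nm v ≤ x}, w v) / (Nat.primeCounting x : ℂ)) atTop (𝓝 0)) :
    Tendsto (fun x : ℕ => (∑ᶠ v ∈ {v : Pr K | Nm v ≤ x}, w' v) / (Nat.primeCounting x : ℂ)) atTop (𝓝 0) := by
  classical
  have hπ : Tendsto (fun x : ℕ => ((Nat.primeCounting x : ℝ))⁻¹) atTop (𝓝 0) :=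
    tendsto_inv_atTop_zero.comp (tendsto_natCast_atTop_atTop.comp Nat.tendsto_primeCounting)
  have h2 : Tendsto (fun x : ℕ => (∑ᶠ v ∈ {v : Pr K | Nm v ≤ x}, w' v) / (Nat.primeCounting x : ℂ) -
      (∑ᶠ v ∈ {v : Pr K | Nm v ≤ x}, w v) / (Nat.primeCounting x : ℂ)) atTop (𝓝 0) := by
    have hb : Tendsto (fun x : ℕ => (∑ v ∈ S, ‖w' v - w v‖) * ((Nat.primeCounting x : ℝ))⁻¹) atTop (𝓝 0) := by
      have h3 := hπ.const_mul (∑ v ∈ S, ‖w' v - w v‖)
      rwa [mul_zero] at h3
    refine squeeze_zero_norm (fun x => ?_) hb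
    rw [← sub_div, norm_div, Complex.norm_natCast, div_eq_mul_inv]
    refine mul_le_mul_of_nonneg_right ?_ (inv_nonneg.2 (Nat.cast_nonneg _))
    rw [finsum_mem_eq_finite_toFinset_sum _ (nm_fin x), finsum_mem_eq_finite_toFinset_sum _ (nm_fin x), ← Finset.sum_sub_distrib]
    have h4 : ∑ v ∈ (nm_fin (K := K) x).toFinset, (w' v - w v) = ∑ v ∈ (nm_fin (K := K) x).toFinset with v ∈ S, (w' v - w v) := by
      rw [Finset.sum_filter]
      refine Finset.sum_congr rfl fun v _ => ?_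
      split_ifs with hv
      · rfl
      · rw [h v hv, sub_self]
    rw [h4]
    refine (norm_sum_le _ _).trans ?_
    refine Finset.sum_le_sum_of_subset_of_nonneg ?_ fun v _ _ => norm_nonneg _
    intro v hv
    exact (Finset.mem_filter.1 hv).2
  have h5 := h2.add h1
  rw [add_zero] at h5
  refine h5.congr fun x => ?_
  rw [sub_add_cancel]


end CFTC
end

-- from Lib.H13T.D
section

/-!
# H13T: the algebraic side of the theorem on nontrivial Tate-Shafarevich groups: definitions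

G is a group acting on an abelian group M (ρ), U a family of open subgroups, I v the inertia groups, D v the decomposition groups (v in Vs).
N ≤ H ≤ H₀ are the groups of the fields K ⊇ K' ⊇ M₀: K/M₀ abelian, η in H₀, η^p in H, η^(p^2) in N, H is generated by η^p and N.
R v: the relaxed places. Everything is used for G = Gal(Ω/F), M = E(Ω).
-/

namespace H13T

open H55P

variable {G M Vs : Type} [Group G] [AddCommGroup M]

/-- c is a cocycle on H. -/
def IsC (ρ : G →* AddMonoid.End M) (H : Subgroup G) (c : G → M) : Prop := ∀ s ∈ H, ∀ t ∈ H, c (s * t) = c s + ρ s (c t)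

/-- c vanishes on an open subgroup of H. -/
def Cont (U : Set (Subgroup G)) (H : Subgroup G) (c : G → M) : Prop := ∃ O ∈ U, ∀ s ∈ H, s ∈ O → c s = 0

/-- c is the coboundary of a point on the elements of H in J. -/
def Tr (ρ : G →* AddMonoid.End M) (H J : Subgroup G) (c : G → M) : Prop := ∃ P : M, ∀ s ∈ H, s ∈ J → c s = ρ s P - P

/-- The data. -/
structure TS (ρ : G →* AddMonoid.End M) (p : ℕ) (U : Set (Subgroup G)) (I D : Vs → Subgroup G) (N H H₀ : Subgroup G) (η : G)
    (R : Vs → Prop) : Prop where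
  hp : p.Prime
  hUi : ∀ O ∈ U, ∀ O' ∈ U, O ⊓ O' ∈ U
  hUc : ∀ O ∈ U, ∀ g : G, ∃ O' ∈ U, ∀ s ∈ O', g * s * g⁻¹ ∈ O
  hN : N ∈ U
  hNH : N ≤ H
  hHH : H ≤ H₀
  hcomm : ∀ a ∈ H₀, ∀ b ∈ H₀, a * b * a⁻¹ * b⁻¹ ∈ N
  hη : η ∈ H₀
  hηp : η ^ p ∈ H
  hηpp : η ^ (p * p) ∈ N
  hgen : ∀ h ∈ H, ∃ i : ℕ, ∃ n ∈ N, h = (η ^ p) ^ i * n
  hconj : ∀ g ∈ H₀, ∀ v, ∃ v', (∀ s, s ∈ I v' ↔ g * s * g⁻¹ ∈ I v) ∧ (R v' ↔ R v)
  hDI : ∀ v, ∀ φ ∈ D v, ∀ s ∈ I v, φ * s * φ⁻¹ ∈ I v
  h0 : ∀ T : M, p • T = 0 → (∀ s ∈ N, ρ s T = T) → T = 0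
  hdiv : ∀ T : M, ∃ T', p • T' = T
  hfix : ∀ T : M, ∃ O ∈ U, ∀ s ∈ O, ρ s T = T
  /-- the alternatives at the places which are not relaxed: unramified in the step H/N; good and not anomalous; no p-torsion fixed by inertia -/
  hloc : ∀ v, ¬ R v → (∀ s ∈ H, s ∈ I v → s ∈ N) ∨
      ((∀ s ∈ H, s ∈ I v → ∀ (k : ℕ) (P : M), p ^ k • (ρ s P - P) = 0 → ρ s P = P) ∧
        ∀ T : M, p • T = 0 → (∀ s ∈ H, s ∈ D v → ρ s T = T) → T = 0) ∨
      (∀ c : G → M, IsC ρ (H ⊓ I v) c → (∀ s ∈ H ⊓ I v, p • c s = 0) → Cont U (H ⊓ I v) c →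
        ∃ T : M, p • T = 0 ∧ ∀ s ∈ H ⊓ I v, c s = ρ s T - T)
  /-- the relaxed places: inertia acts trivially; no place of M₀ below is totally split in K', the decomposition group acts trivially on the p-torsion -/
  hR : ∀ v, R v → (∀ s ∈ H, s ∈ I v → ∀ (k : ℕ) (P : M), p ^ k • (ρ s P - P) = 0 → ρ s P = P) ∧
      ∃ φ ∈ D v, φ ∈ H₀ ∧ φ⁻¹ * η ∈ H ∧ ∀ T : M, p • T = 0 → ρ φ T = T
  sel : SelA ρ p U I H

/-- The relaxed classes over H: cocycles killed by p, trivial on inertia at the places which are not relaxed, zero on the part of the inertia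
groups in N at the relaxed places. -/
structure RC (ρ : G →* AddMonoid.End M) (p : ℕ) (U : Set (Subgroup G)) (I : Vs → Subgroup G) (N H : Subgroup G) (R : Vs → Prop)
    (d : G → M) : Prop where
  coc : IsC ρ H d
  cont : Cont U H d
  kil : ∀ s ∈ H, p • d s = 0
  loc : ∀ v, ¬ R v → Tr ρ H (I v) d
  rel : ∀ v, R v → ∀ s ∈ N, s ∈ I v → d s = 0

/-- The index set of the relaxed primes of K': a place v w, an element τ w of its inertia group generating it modulo N; every relaxed place is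
conjugate under H to one of them. -/
structure TI (I : Vs → Subgroup G) (N H : Subgroup G) (R : Vs → Prop) (ι : Type) (v : ι → Vs) (τ : ι → G) : Prop where
  rel : ∀ w, R (v w)
  mem : ∀ w, τ w ∈ H
  ine : ∀ w, τ w ∈ I (v w)
  gen : ∀ w, ∀ s ∈ H, s ∈ I (v w) → ∃ i : ℕ, ∃ n ∈ N, n ∈ I (v w) ∧ s = τ w ^ i * n
  cov : ∀ u, R u → ∃ w, ∃ h ∈ H, ∀ s, s ∈ I u ↔ h * s * h⁻¹ ∈ I (v w)

end H13T
end

-- from Lib.H13T.U2
section

/-! Chunk U2 (S). From p to p^k.
pow_sel: induction on k. k = 0: 1 • c s = 0, T = 0. k + 1: c₁ = fun s => p^k • c s satisfies the hypotheses of SelA ρ p U I H (P becomes p^k • P), so p^k • c s = ρ s T - T on H with p • T = 0. T = p^k • T' (hdiv k times: div_pow). c₂ = fun s => c s - (ρ s T' - T') on H: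
cocycle, killed by p^k on H, continuous (hfix T' gives O', O ⊓ O' in U by hUi), local conditions P - T'. The induction hypothesis gives T''; take T' + T'' (p^(k+1) (T' + T'') = p • T + p • (p^k • T'') = 0).
pow_all: the same for the group J in place of H (no local conditions): if all continuous cocycles on J killed by p are coboundaries of points killed by p then the same for p^k. -/

namespace H13T

open H55P

variable {G M Vs : Type} [Group G] [AddCommGroup M]

theorem div_pow {p : ℕ} (hdiv : ∀ T : M, ∃ T', p • T' = T) (k : ℕ) (T : M) : ∃ T', p ^ k • T' = T := by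
  induction k generalizing T with
  | zero => exact ⟨T, by rw [pow_zero, one_smul]⟩
  | succ k ih =>
    obtain ⟨T', h1⟩ := ih T
    obtain ⟨T'', h2⟩ := hdiv T'
    exact ⟨T'', by rw [pow_succ, mul_smul, h2, h1]⟩

theorem u2_coc (ρ : G →* AddMonoid.End M) {J : Subgroup G} {c : G → M} (hc : IsC ρ J c) (T' : M) :
    IsC ρ J fun s => c s - (ρ s T' - T') := by
  intro s hs t ht
  have h1 : ρ (s * t) T' = ρ s (ρ t T') := by
    rw [map_mul]
    rfl
  show c (s * t) - (ρ (s * t) T' - T') = c s - (ρ s T' - T') + ρ s (c t - (ρ t T' - T'))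
  rw [hc s hs t ht, h1, map_sub, map_sub]
  abel

theorem u2_cont (ρ : G →* AddMonoid.End M) {U : Set (Subgroup G)} {J : Subgroup G}
    (hUi : ∀ O ∈ U, ∀ O' ∈ U, O ⊓ O' ∈ U) (hfix : ∀ T : M, ∃ O ∈ U, ∀ s ∈ O, ρ s T = T)
    {c : G → M} (hc : Cont U J c) (T' : M) : Cont U J fun s => c s - (ρ s T' - T') := by
  obtain ⟨O, hO, h1⟩ := hc
  obtain ⟨O', hO', h2⟩ := hfix T'
  refine ⟨O ⊓ O', hUi O hO O' hO', fun s hs hsO => ?_⟩
  show c s - (ρ s T' - T') = 0
  rw [h1 s hs hsO.1, h2 s hsO.2, sub_self, sub_zero]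

theorem u2_kil (ρ : G →* AddMonoid.End M) {N : ℕ} {c T T' : M} {s : G} (h : N • c = ρ s T - T)
    (hT : N • T' = T) : N • (c - (ρ s T' - T')) = 0 := by
  rw [smul_sub, smul_sub, ← map_nsmul, hT, h, sub_self]

theorem u2_fin {p k : ℕ} {T T' T'' : M} (hT : p • T = 0) (hT' : p ^ k • T' = T) (hT'' : p ^ k • T'' = 0) :
    p ^ (k + 1) • (T' + T'') = 0 := by
  rw [pow_succ', mul_smul, smul_add, hT', hT'', add_zero, hT]

theorem pow_sel (ρ : G →* AddMonoid.End M) {p : ℕ} {U : Set (Subgroup G)} {I : Vs → Subgroup G} {H : Subgroup G}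
    (hUi : ∀ O ∈ U, ∀ O' ∈ U, O ⊓ O' ∈ U) (hdiv : ∀ T : M, ∃ T', p • T' = T) (hfix : ∀ T : M, ∃ O ∈ U, ∀ s ∈ O, ρ s T = T)
    (sel : SelA ρ p U I H) (k : ℕ) : SelA ρ (p ^ k) U I H := by
  induction k with
  | zero =>
    intro c _ _ hk _
    refine ⟨0, smul_zero _, fun s hs => ?_⟩
    have h1 := hk s hs
    rw [pow_zero, one_smul] at h1
    rw [h1, map_zero, sub_zero]
  | succ k ih =>
    intro c hc hco hk hloc
    obtain ⟨T, hT, h1⟩ := sel (fun s => p ^ k • c s)
      (fun s hs t ht => by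
        show p ^ k • c (s * t) = p ^ k • c s + ρ s (p ^ k • c t)
        rw [hc s hs t ht, smul_add, map_nsmul])
      (by
        obtain ⟨O, hO, h2⟩ := hco
        exact ⟨O, hO, fun s hs hsO => by
          show p ^ k • c s = 0
          rw [h2 s hs hsO, smul_zero]⟩)
      (fun s hs => by
        show p • p ^ k • c s = 0
        rw [← mul_smul, ← pow_succ']
        exact hk s hs)
      (fun v => by
        obtain ⟨P, hP⟩ := hloc v
        exact ⟨p ^ k • P, fun s hs hsv => by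
          show p ^ k • c s = _
          rw [hP s hs hsv, smul_sub, map_nsmul]⟩)
    obtain ⟨T', hT'⟩ := div_pow hdiv k T
    obtain ⟨T'', hT'', h3⟩ := ih (fun s => c s - (ρ s T' - T')) (u2_coc ρ hc T')
      (u2_cont ρ hUi hfix hco T') (fun s hs => u2_kil ρ (h1 s hs) hT')
      (fun v => by
        obtain ⟨P, hP⟩ := hloc v
        exact ⟨P - T', fun s hs hsv => by
          show c s - (ρ s T' - T') = _
          rw [hP s hs hsv, map_sub]
          abel⟩)
    refine ⟨T' + T'', u2_fin hT hT' hT'', fun s hs => ?_⟩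
    have h4 : c s - (ρ s T' - T') = ρ s T'' - T'' := h3 s hs
    rw [sub_eq_iff_eq_add] at h4
    rw [h4, map_add]
    abel

theorem pow_all (ρ : G →* AddMonoid.End M) {p : ℕ} {U : Set (Subgroup G)} {J : Subgroup G}
    (hUi : ∀ O ∈ U, ∀ O' ∈ U, O ⊓ O' ∈ U) (hdiv : ∀ T : M, ∃ T', p • T' = T) (hfix : ∀ T : M, ∃ O ∈ U, ∀ s ∈ O, ρ s T = T)
    (h : ∀ c : G → M, IsC ρ J c → (∀ s ∈ J, p • c s = 0) → Cont U J c → ∃ T : M, p • T = 0 ∧ ∀ s ∈ J, c s = ρ s T - T)
    (k : ℕ) (c : G → M) (hc : IsC ρ J c) (hk : ∀ s ∈ J, p ^ k • c s = 0) (hco : Cont U J c) :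
    ∃ T : M, p ^ k • T = 0 ∧ ∀ s ∈ J, c s = ρ s T - T := by
  induction k generalizing c with
  | zero =>
    refine ⟨0, smul_zero _, fun s hs => ?_⟩
    have h1 := hk s hs
    rw [pow_zero, one_smul] at h1
    rw [h1, map_zero, sub_zero]
  | succ k ih =>
    obtain ⟨T, hT, h1⟩ := h (fun s => p ^ k • c s)
      (fun s hs t ht => by
        show p ^ k • c (s * t) = p ^ k • c s + ρ s (p ^ k • c t)
        rw [hc s hs t ht, smul_add, map_nsmul])
      (fun s hs => by
        show p • p ^ k • c s = 0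
        rw [← mul_smul, ← pow_succ']
        exact hk s hs)
      (by
        obtain ⟨O, hO, h2⟩ := hco
        exact ⟨O, hO, fun s hs hsO => by
          show p ^ k • c s = 0
          rw [h2 s hs hsO, smul_zero]⟩)
    obtain ⟨T', hT'⟩ := div_pow hdiv k T
    obtain ⟨T'', hT'', h3⟩ := ih (fun s => c s - (ρ s T' - T')) (u2_coc ρ hc T')
      (fun s hs => u2_kil ρ (h1 s hs) hT') (u2_cont ρ hUi hfix hco T')
    refine ⟨T' + T'', u2_fin hT hT' hT'', fun s hs => ?_⟩
    have h4 : c s - (ρ s T' - T') = ρ s T'' - T'' := h3 s hs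
    rw [sub_eq_iff_eq_add] at h4
    rw [h4, map_add]
    abel

end H13T
end

-- from Lib.H13T.U3
section

/-! Chunk U3 (S/M). A class over N invariant under σ = η^p extends to H.
fix_pow: no point killed by p^k is fixed by N (induction on k: p^k • T is killed by p and fixed by N, so 0).
ts_ext: hinv for ext_coc (Lib/H55P/SA2.lean, with q = p^k in place of p): as in the proof of abs_step (Lib/H55P/SA3.lean, end): sa3_I for σ (hypothesis hb), for n in N (sa3_self), for powers and products (sa3_I_mul), hgen.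
Norms: sa3_norm, sa3_norm' from hcomm restricted to H. -/

namespace H13T

open H55P

variable {G M Vs : Type} [Group G] [AddCommGroup M] {ρ : G →* AddMonoid.End M} {p : ℕ} {U : Set (Subgroup G)} {I D : Vs → Subgroup G}
  {N H H₀ : Subgroup G} {η : G} {R : Vs → Prop}

theorem fix_pow (S : TS ρ p U I D N H H₀ η R) (k : ℕ) (T : M) (hT : p ^ k • T = 0) (hf : ∀ s ∈ N, ρ s T = T) : T = 0 := by
  induction k with
  | zero => rwa [pow_zero, one_smul] at hT
  | succ k ih =>
    refine ih (S.h0 _ ?_ ?_)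
    · rw [← mul_smul, ← pow_succ']
      exact hT
    · intro s hs
      rw [map_nsmul, hf s hs]

theorem ts_ext (S : TS ρ p U I D N H H₀ η R) (k : ℕ) (c : G → M) (hc : IsC ρ N c) (hk : ∀ s ∈ N, p ^ k • c s = 0)
    (hb : ∃ T : M, p ^ k • T = 0 ∧ ∀ s ∈ N, ρ (η ^ p) (c ((η ^ p)⁻¹ * s * η ^ p)) - c s = ρ s T - T) :
    ∃ d : G → M, IsC ρ H d ∧ (∀ s ∈ H, p ^ k • d s = 0) ∧ ∀ s ∈ N, d s = c s := by
  have hcH : ∀ a ∈ H, ∀ b ∈ H, a * b * a⁻¹ * b⁻¹ ∈ N := fun a ha b hb => S.hcomm a (S.hHH ha) b (S.hHH hb)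
  have hn := sa3_norm S.hNH hcH
  have hn' := sa3_norm' S.hNH hcH
  have hI : sa3_I ρ (p ^ k) N c (η ^ p) := hb
  have hI1 : ∀ n ∈ N, sa3_I ρ (p ^ k) N c n := fun n hn => ⟨c n, hk n hn, fun s hs => sa3_self hc n hn s hs⟩
  have hI2 : ∀ i : ℕ, sa3_I ρ (p ^ k) N c ((η ^ p) ^ i) := by
    intro i
    induction i with
    | zero =>
      rw [pow_zero]
      exact hI1 1 N.one_mem
    | succ i ih =>
      rw [pow_succ' (η ^ p) i]
      exact sa3_I_mul (hn' _ S.hηp) hI ih
  have hinv : ∀ g ∈ H, sa3_I ρ (p ^ k) N c g := by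
    intro g hg
    obtain ⟨i, n, hnN, rfl⟩ := S.hgen g hg
    exact sa3_I_mul (hn' _ (H.pow_mem S.hηp i)) (hI2 i) (hI1 n hnN)
  exact ext_coc ρ (p ^ k) N H S.hNH hn (fun T hT hf => fix_pow S k T hT hf) c hc hk hinv

end H13T
end

-- from Lib.SZ.P4
section

/-!
# SZ4, part 3: `BalPrimes F` from the density of the primes in a ray class
-/

namespace Pool.Agent.SZ.Asm

open NumberField CFT Finset
open scoped Classical

variable {F : Type} [Field F] [NumberField F]


omit [NumberField F] in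
theorem asIdeal_inj : Function.Injective fun v : Pr F => v.asIdeal := by
  intro v w h
  exact IsDedekindDomain.HeightOneSpectrum.ext h

theorem nm_fin (t : ℕ) : {v : Pr F | Nm v ≤ t}.Finite := by
  have h := Ideal.finite_setOfPred_absNorm_le (S := 𝓞 F) t
  refine Set.Finite.of_finite_image (f := fun v : Pr F => v.asIdeal) (h.subset ?_) (asIdeal_inj.injOn)
  rintro _ ⟨v, hv, rfl⟩
  exact hv




end Pool.Agent.SZ.Asm
end

-- from Lib.H57N.E7
section

/-! # H57N, chunk E7: real places, subquotients -/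

open NumberField IsDedekindDomain

namespace H57N

/-- Chunk E7 (S/M), only Mathlib. K/M Galois of odd degree: a real place v of M; a place w of K above v (InfinitePlace.comap_surjective); K/M is unramified at all infinite places (Mathlib: IsUnramifiedAtInfinitePlaces_of_odd_finrank or of_odd_card_aut,
Mathlib/NumberTheory/NumberField/InfinitePlace/Ramification.lean), so w is real (InfinitePlace.IsUnramified, isUnramified_iff / not_isUnramified_iff: ramified iff w complex and w.comap real). So nrRealPlaces K > 0 (Fintype.card_pos_iff; nrRealPlaces is the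
cardinality of {w // IsReal w}). -/
theorem e7_real (M K : Type) [Field M] [NumberField M] [Field K] [NumberField K] [Algebra M K] [IsGalois M K] (ho : Odd (Module.finrank M K))
    (h : 0 < InfinitePlace.nrRealPlaces M) : 0 < InfinitePlace.nrRealPlaces K := by
  classical
  obtain ⟨⟨v, hv⟩⟩ := Fintype.card_pos_iff.1 h
  obtain ⟨w, hw⟩ := InfinitePlace.comap_surjective (K := K) v
  have h1 : IsUnramifiedAtInfinitePlaces M K := IsUnramifiedAtInfinitePlaces_of_odd_finrank ho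
  have h2 := (InfinitePlace.isUnramified_iff (k := M)).1 (InfinitePlace.isUnramified M w)
  refine Fintype.card_pos_iff.2 ⟨⟨w, ?_⟩⟩
  rcases h2 with h2 | h2
  · exact h2
  · rw [show w.comap (algebraMap M K) = v from hw] at h2
    exact absurd hv (InfinitePlace.not_isReal_iff_isComplex.2 h2)

/-- Chunk E7 (S). N/F Galois inside L/F Galois: Gal(L/F) → Gal(N/F) is surjective (AlgEquiv.restrictNormalHom N, restrictNormalHom_surjective); the preimage of S and the composition. -/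
theorem e7_subq {F N L : Type} [Field F] [NumberField F] [Field N] [NumberField N] [Field L] [NumberField L] [Algebra F N] [Algebra N L] [Algebra F L]
    [IsScalarTower F N L] [IsGalois F N] [IsGalois F L] (H : Type) [Group H] (h : H28R.SubQ (N ≃ₐ[F] N) H) : H28R.SubQ (L ≃ₐ[F] L) H := by
  obtain ⟨S, φ, hφ⟩ := h
  let r : (L ≃ₐ[F] L) →* (N ≃ₐ[F] N) := AlgEquiv.restrictNormalHom N
  have hr : Function.Surjective r := AlgEquiv.restrictNormalHom_surjective L
  refine ⟨S.comap r, φ.comp (r.subgroupComap S), ?_⟩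
  intro x
  obtain ⟨⟨y, hy⟩, rfl⟩ := hφ x
  obtain ⟨z, rfl⟩ := hr y
  exact ⟨⟨z, hy⟩, rfl⟩

/-- Chunk E7 (S), only Mathlib. N/ℚ and B/ℚ Galois: L = N B is Galois over ℚ. As p3_gal, with ℚ in place of F: let K₁, K₂ be the ranges of N → L, B → L (IntermediateField ℚ L), both normal (Normal.of_algEquiv), K₁ ⊔ K₂ = ⊤, IntermediateField.normal_sup. (p3_gal itself needs
[NumberField F] only: it applies with F = ℚ, the algebra ℚ → N, tower by Subsingleton.) -/
theorem e7_galQ (N B L : Type) [Field N] [NumberField N] [Field B] [NumberField B] [Field L] [NumberField L] [Algebra N L] [Algebra B L]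
    [IsGalois ℚ N] [IsGalois ℚ B] (h : Cmp N B L) : IsGalois ℚ L := by
  letI : Algebra ℚ N := inferInstance
  haveI : IsScalarTower ℚ N L := IsScalarTower.of_algebraMap_eq' (Subsingleton.elim _ _)
  exact p3_gal (F := ℚ) h

end H57N
end
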