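import Mathlib
import Pool.Agent.Lib.H1M.PP2.M001
import Pool.Agent.Lib.H1M.PP2.M003
import Pool.Agent.Lib.H1M.PP2.M024
import Pool.Agent.Lib.H1M.PP2.M034
import Pool.Agent.Lib.H1M.PP2.M043
import Pool.Agent.Lib.H1M.PP2.M044
import Pool.Agent.Lib.H1M.PP2.M057
import Pool.Agent.Lib.H1M.PP2.M065
import Pool.Agent.Lib.H1M.PP2.M084

/-! Merged copies (to shorten the build) of Lib.CFT.Y30B, Lib.CFT.L5, Lib.CFT.L8, Lib.CFT.L9, Lib.CFTC.C9, Lib.CFT.L11, Lib.CFTC.C10, Lib.CHEB.C3, Lib.CHEB.Main, Lib.H57N.D1, Lib.H57N.D2. -/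

-- from Lib.CFT.Y30B
section

/-! # CFT module Y, chunk Y30B: Hecke L-functions, analytic continuation -/

open NumberField IsDedekindDomain

namespace CFTY

open CFT

variable {K : Type} [Field K] [NumberField K]

theorem y30b_open : IsOpen (HP K) := isOpen_lt continuous_const Complex.continuous_re

theorem y30b_conn : IsPreconnected (HP K) := (convex_halfSpace_re_gt _).isPreconnected

theorem y30b_sub : {s : ℂ | 1 < s.re} ⊆ HP K := by
  intro s hs
  have h1 : (1 : ℝ) < s.re := hs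
  have h2 : 0 < 1 / (dg K : ℝ) := by
    have : 1 ≤ dg K := dg_pos
    positivity
  show 1 - 1 / (dg K : ℝ) < s.re
  linarith

theorem y30b_ne : ({s : ℂ | 1 < s.re}).Nonempty := ⟨2, by
  show (1 : ℝ) < (2 : ℂ).re
  norm_num⟩

theorem y30b_cpow {b : Ideal (𝓞 K)} (hb : b ≠ ⊥) : Differentiable ℂ fun s : ℂ => (Ideal.absNorm b : ℂ) ^ (1 - s) :=
  ((differentiable_const _).sub differentiable_id).const_cpow (Or.inl (y24_norm_ne hb))

/-- Hecke L-functions are analytic beyond the line re s = 1 -/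
theorem hecke_entire (hf : ∀ (S : Finset (Pr K)) (N : ℕ), (Pray S N).FiniteIndex) {m : Ideal (𝓞 K)} (hm : m ≠ ⊥)
    {n : (K →+* ℂ) → ℤ} {χ : Ideal (𝓞 K) →*₀ ℂ} (hχ : HCh m (typ n) χ)
    (h1 : ∃ b : Ideal (𝓞 K), b ≠ ⊥ ∧ IsCoprime b m ∧ χ b ≠ 1) :
    ∃ H : ℂ → ℂ, DifferentiableOn ℂ H (HP K) ∧ ∀ s : ℂ, 1 < s.re → H s = Lc χ s := by
  have hex : ∀ b : {b : Ideal (𝓞 K) // b ≠ ⊥ ∧ IsCoprime b m}, ∃ H : ℂ → ℂ, DifferentiableOn ℂ H (HP K) ∧
      ∀ s : ℂ, 1 < s.re → H s = (χ b.1 * (Ideal.absNorm b.1 : ℂ) ^ (1 - s) - 1) * Lc χ s := fun b =>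
    multiples hf hm (LL_typ n) (Bd_typ n) hχ b.2.1 b.2.2
  choose H hH1 hH2 using hex
  refine glue y30b_open y30b_conn (isOpen_lt continuous_const Complex.continuous_re) y30b_ne y30b_sub (Lc χ)
    (fun b : {b : Ideal (𝓞 K) // b ≠ ⊥ ∧ IsCoprime b m} => fun s => χ b.1 * (Ideal.absNorm b.1 : ℂ) ^ (1 - s) - 1)
    H (fun b => ?_) hH1 hH2 (fun z _ => ?_)
  · exact (((y30b_cpow b.2.1).const_mul _).sub_const _).differentiableOn
  · by_contra hcon
    have h2 : ∀ b : Ideal (𝓞 K), b ≠ ⊥ → IsCoprime b m → χ b * (Ideal.absNorm b : ℂ) ^ (1 - z) = 1 := by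
      intro b hb hbm
      by_contra hne
      exact hcon ⟨⟨b, hb, hbm⟩, sub_ne_zero.2 hne⟩
    have h3 := excep hm hχ h2
    obtain ⟨b, hb, hbm, hb1⟩ := h1
    have h4 := h2 b hb hbm
    rw [h3, sub_self, Complex.cpow_zero, mul_one] at h4
    exact hb1 h4

/-- the pole of the L-function of the trivial character -/
theorem hecke_pole (hf : ∀ (S : Finset (Pr K)) (N : ℕ), (Pray S N).FiniteIndex) {m : Ideal (𝓞 K)} (hm : m ≠ ⊥)
    {n : (K →+* ℂ) → ℤ} {χ : Ideal (𝓞 K) →*₀ ℂ} (hχ : HCh m (typ n) χ)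
    (h1 : ∀ b : Ideal (𝓞 K), b ≠ ⊥ → IsCoprime b m → χ b = 1) :
    ∃ H : ℂ → ℂ, DifferentiableOn ℂ H (HP K) ∧ ∀ s : ℂ, 1 < s.re → H s = (s - 1) * Lc χ s := by
  have hex : ∀ b : {b : Ideal (𝓞 K) // b ≠ ⊥ ∧ IsCoprime b m}, ∃ H : ℂ → ℂ, DifferentiableOn ℂ H (HP K) ∧
      ∀ s : ℂ, 1 < s.re → H s = (χ b.1 * (Ideal.absNorm b.1 : ℂ) ^ (1 - s) - 1) * Lc χ s := fun b =>
    multiples hf hm (LL_typ n) (Bd_typ n) hχ b.2.1 b.2.2
  choose H hH1 hH2 using hex
  have hds : ∀ (b : Ideal (𝓞 K)) (s : ℂ), (s - 1) * dslope (fun s : ℂ => (Ideal.absNorm b : ℂ) ^ (1 - s)) 1 s =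
      (Ideal.absNorm b : ℂ) ^ (1 - s) - 1 := by
    intro b s
    have h := sub_smul_dslope (fun s : ℂ => (Ideal.absNorm b : ℂ) ^ (1 - s)) 1 s
    rw [smul_eq_mul] at h
    rw [h, sub_self, Complex.cpow_zero]
  refine glue y30b_open y30b_conn (isOpen_lt continuous_const Complex.continuous_re) y30b_ne y30b_sub
    (fun s => (s - 1) * Lc χ s)
    (fun b : {b : Ideal (𝓞 K) // b ≠ ⊥ ∧ IsCoprime b m} => dslope (fun s : ℂ => (Ideal.absNorm b.1 : ℂ) ^ (1 - s)) 1)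
    H (fun b => ?_) hH1 (fun b s hs => ?_) (fun z _ => ?_)
  · refine (Complex.differentiableOn_dslope ?_).2 (y30b_cpow b.2.1).differentiableOn
    refine y30b_open.mem_nhds ?_
    have h2 : 0 < 1 / (dg K : ℝ) := by
      have : 1 ≤ dg K := dg_pos
      positivity
    show 1 - 1 / (dg K : ℝ) < (1 : ℂ).re
    rw [Complex.one_re]
    linarith
  · rw [hH2 b s hs, h1 b.1 b.2.1 b.2.2, one_mul, ← hds]
    ring
  · by_cases hz : z = 1
    · obtain ⟨h2, h3, -, h5⟩ := y30_ideal hχ 1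
      refine ⟨⟨_, h2, h3⟩, ?_⟩
      rw [hz]
      show dslope (fun s : ℂ => (Ideal.absNorm (Ideal.span {((1 + 1 * Ideal.absNorm m : ℕ) : 𝓞 K)}) : ℂ) ^ (1 - s)) 1 1 ≠ 0
      rw [dslope_same]
      have hd : HasDerivAt (fun s : ℂ => (Ideal.absNorm (Ideal.span {((1 + 1 * Ideal.absNorm m : ℕ) : 𝓞 K)}) : ℂ) ^ (1 - s))
          ((Ideal.absNorm (Ideal.span {((1 + 1 * Ideal.absNorm m : ℕ) : 𝓞 K)}) : ℂ) ^ ((1 : ℂ) - 1) *
            Complex.log (Ideal.absNorm (Ideal.span {((1 + 1 * Ideal.absNorm m : ℕ) : 𝓞 K)}) : ℂ) * (-1)) 1 :=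
        ((hasDerivAt_id (1 : ℂ)).const_sub 1).const_cpow (Or.inl (y24_norm_ne h2))
      rw [hd.deriv, sub_self, Complex.cpow_zero, one_mul, h5, ← Complex.natCast_log]
      have hM1 : 1 ≤ Ideal.absNorm m := Nat.one_le_iff_ne_zero.2 fun h0 => hm (Ideal.absNorm_eq_zero_iff.1 h0)
      have h6 : 1 < (1 + 1 * Ideal.absNorm m) ^ dg K :=
        Nat.one_lt_pow (by have := dg_pos (K := K); omega) (by omega)
      have h7 : 0 < Real.log (((1 + 1 * Ideal.absNorm m) ^ dg K : ℕ) : ℝ) := Real.log_pos (by exact_mod_cast h6)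
      exact mul_ne_zero (Complex.ofReal_ne_zero.2 h7.ne') (neg_ne_zero.2 one_ne_zero)
    · by_contra hcon
      apply hz
      refine excep hm hχ fun b hb hbm => ?_
      rw [h1 b hb hbm, one_mul]
      by_contra hne
      refine hcon ⟨⟨b, hb, hbm⟩, fun h0 => hne ?_⟩
      have h2 := hds b z
      have h3 : dslope (fun s : ℂ => (Ideal.absNorm b : ℂ) ^ (1 - s)) 1 z = 0 := h0
      rw [h3, mul_zero] at h2
      exact (sub_eq_zero.1 h2.symm)

end CFTY
end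

-- from Lib.CFT.L5
section

/-! # CFT, module ZL, part 5: continuation of the L-series of ray class characters to Re s > 1 - k/d, for every k -/

open NumberField NumberField.InfinitePlace NumberField.mixedEmbedding IsDedekindDomain CFTY CFT
open scoped ContDiff

namespace CFTL

open scoped Classical

variable {K : Type} [Field K] [NumberField K]

/-- The half planes. -/
def HPk (K : Type) [Field K] [NumberField K] (k : ℕ) : Set ℂ := {s | 1 - k / (dg K : ℝ) < s.re}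

theorem finiteIndex_of_map {G T : Type} [Group G] [Finite T] (P : Subgroup G) (f : G → T)
    (h : ∀ a b, f a = f b → a⁻¹ * b ∈ P) : P.FiniteIndex := by
  have h1 : Function.Injective fun q : G ⧸ P => f q.out := by
    intro q q' hq
    have h2 := h _ _ hq
    rw [← QuotientGroup.out_eq' q, ← QuotientGroup.out_eq' q', QuotientGroup.eq]
    exact h2
  have h2 : Finite (G ⧸ P) := Finite.of_injective _ h1
  exact Subgroup.finiteIndex_of_finite_quotient

theorem finite_real : Finite (K →+* ℝ) := by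
  refine Finite.of_injective (fun φ : K →+* ℝ => Complex.ofRealHom.comp φ) fun φ ψ h => ?_
  refine RingHom.ext fun x => ?_
  exact Complex.ofReal_injective (RingHom.congr_fun h x)

theorem ru_fin {m : Ideal (𝓞 K)} (hm : m ≠ ⊥) : (RU m).FiniteIndex := by
  have hfr : Finite (K →+* ℝ) := finite_real
  have hfq : Finite (𝓞 K ⧸ m) := Ideal.finiteQuotientOfFreeOfNeBot m hm
  refine finiteIndex_of_map (T := (𝓞 K ⧸ m) × ((K →+* ℝ) → Bool)) (RU m)
    (fun u => (Ideal.Quotient.mk m (u : 𝓞 K), fun φ => decide (0 < φ ((u : 𝓞 K) : K)))) fun u v h => ?_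
  rw [Prod.mk.injEq] at h
  obtain ⟨h1, h2⟩ := h
  have h3 : (u : 𝓞 K) - v ∈ m := Ideal.Quotient.eq.1 h1
  have hu : ∀ u : (𝓞 K)ˣ, ((u : 𝓞 K) : K) ≠ 0 := fun u h => u.ne_zero (RingOfIntegers.ext h)
  have e1 : (((u⁻¹ * v : (𝓞 K)ˣ) : 𝓞 K) : K) = ((u : 𝓞 K) : K)⁻¹ * ((v : 𝓞 K) : K) := by
    have e2 : ((u : 𝓞 K) : K) * (((u⁻¹ : (𝓞 K)ˣ) : 𝓞 K) : K) = 1 := congrArg (algebraMap (𝓞 K) K) (Units.mul_inv u)
    have e3 : (((u⁻¹ : (𝓞 K)ˣ) : 𝓞 K) : K) = ((u : 𝓞 K) : K)⁻¹ := (inv_eq_of_mul_eq_one_right e2).symm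
    have e4 : (((u⁻¹ * v : (𝓞 K)ˣ) : 𝓞 K) : K) = (((u⁻¹ : (𝓞 K)ˣ) : 𝓞 K) : K) * ((v : 𝓞 K) : K) := rfl
    rw [e4, e3]
  refine ⟨?_, ?_, fun φ => ?_⟩
  · have e : ((u⁻¹ * v : (𝓞 K)ˣ) : 𝓞 K) - 1 = -(((u⁻¹ : (𝓞 K)ˣ) : 𝓞 K) * ((u : 𝓞 K) - v)) := by
      have h : ((u⁻¹ : (𝓞 K)ˣ) : 𝓞 K) * (u : 𝓞 K) = 1 := Units.inv_mul u
      rw [Units.val_mul]
      linear_combination h
    rw [e]
    exact m.neg_mem (m.mul_mem_left _ h3)
  · exact hu _
  · rw [e1, map_mul, map_inv₀, ← div_eq_inv_mul]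
    have h4 := decide_eq_decide.1 (congrFun h2 φ)
    have h5 : φ ((u : 𝓞 K) : K) ≠ 0 := (map_ne_zero φ).2 (hu u)
    have h6 : φ ((v : 𝓞 K) : K) ≠ 0 := (map_ne_zero φ).2 (hu v)
    rcases lt_or_gt_of_ne h5 with h7 | h7
    · have h8 : φ ((v : 𝓞 K) : K) < 0 := lt_of_le_of_ne (not_lt.1 fun h => absurd (h4.2 h) (not_lt.2 h7.le)) h6
      exact div_pos_of_neg_of_neg h8 h7
    · exact div_pos (h4.1 h7) h7

/-- The smooth weight on K. -/
theorem part_K {m : Ideal (𝓞 K)} (hm : m ≠ ⊥) : ∃ (w : mixedSpace K → ℝ) (A : ℝ), 0 < A ∧ ContDiffOn ℝ ∞ w {0}ᶜ ∧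
    (∀ (t : ℝ) (x : mixedSpace K), 0 < t → w (t • x) = w x) ∧
    (∀ x, x ≠ 0 → mixedEmbedding.norm x = 0 → ∀ᶠ y in nhds x, w y = 0) ∧ w 0 = 0 ∧
    Bd (fun x : K => (w (mixedEmbedding K x) : ℂ)) ∧ (∀ x : K, w (mixedEmbedding K x) ≠ 0 → Rg A x) ∧
    ∀ x : K, x ≠ 0 → HasSum (fun u : RU m => w (mixedEmbedding K ((((u : (𝓞 K)ˣ) : 𝓞 K) : K) * x))) 1 := by
  have := ru_fin hm
  obtain ⟨w, A, hA, h1, h2, h3, h4, h5, h6, h7⟩ := part_smooth (RU m)
  have hnm : ∀ z : K, nm z = mixedEmbedding.norm (mixedEmbedding K z) := fun z => by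
    rw [mixedEmbedding.norm_eq_norm]
    unfold nm
    rw [Rat.cast_abs]
  refine ⟨w, A, hA, h1, h2, h5, h6, ⟨1, zero_le_one, fun x => ?_⟩, fun x hx => ⟨?_, ?_⟩, fun x hx => ?_⟩
  · rw [Complex.norm_real, Real.norm_of_nonneg (h3 _).1]
    exact (h3 _).2
  · rintro rfl
    rw [map_zero] at hx
    exact hx h6
  · rw [hnm]
    have h8 : house x ≤ ‖mixedEmbedding K x‖ := by
      unfold house
      refine (pi_norm_le_iff_of_nonneg (norm_nonneg _)).2 fun φ => ?_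
      have h9 := place_le (mixedEmbedding K x) (InfinitePlace.mk φ)
      rw [normAtPlace_apply, InfinitePlace.apply] at h9
      exact h9
    exact (pow_le_pow_left₀ (house_nonneg x) h8 _).trans (h4 _ hx)
  · have h8 : mixedEmbedding.norm (mixedEmbedding K x) ≠ 0 := by
      rw [← hnm]
      exact (nm_pos hx).ne'
    refine (h7 _ h8).congr_fun fun u => ?_
    show w (mixedEmbedding K ((((u : (𝓞 K)ˣ) : 𝓞 K) : K) * x)) = w (mixedEmbedding K (((u : (𝓞 K)ˣ) : 𝓞 K) : K) * mixedEmbedding K x)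
    rw [map_mul]

theorem compare_k {w : mixedSpace K → ℝ} {A : ℝ} (h1 : ContDiffOn ℝ ∞ w {0}ᶜ) (h2 : ∀ (t : ℝ) (x : mixedSpace K), 0 < t → w (t • x) = w x)
    (h3 : ∀ x, x ≠ 0 → mixedEmbedding.norm x = 0 → ∀ᶠ y in nhds x, w y = 0) (h4 : w 0 = 0) (hB : Bd (gK w))
    (hA : ∀ x, gK w x ≠ 0 → Rg A x) (k : ℕ) {m b c : Ideal (𝓞 K)}
    (hm : m ≠ ⊥) (hb : b ≠ ⊥) (hc : c ≠ ⊥) (hbm : IsCoprime b m) (hcm : IsCoprime c m) :
    ∃ H : ℂ → ℂ, DifferentiableOn ℂ H (HPk K k) ∧ ∀ s : ℂ, 1 < s.re → H s =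
      (Ideal.absNorm b : ℂ) * (∑' x : 𝓞 K, if x - 1 ∈ m ∧ x ∈ b * c then Fs (gK w) s (x : K) else 0) -
        ∑' x : 𝓞 K, if x - 1 ∈ m ∧ x ∈ c then Fs (gK w) s (x : K) else 0 := by
  have hbc : IsCoprime (b * c) m := hbm.mul_left hcm
  have hJ : m * (b * c) ≠ ⊥ := mul_ne_zero hm (mul_ne_zero hb hc)
  have hle2 : m * (b * c) ≤ m * c := Ideal.mul_mono_right Ideal.mul_le_right
  obtain ⟨a₁, h11, h12⟩ := weight hJ hbc le_rfl
  obtain ⟨a₂, h21, h22⟩ := weight hJ hcm hle2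
  haveI : Finite (𝓞 K ⧸ m * (b * c)) := Ideal.finiteQuotientOfFreeOfNeBot _ hJ
  haveI : Fintype (𝓞 K ⧸ m * (b * c)) := Fintype.ofFinite _
  have hN : ∀ I : Ideal (𝓞 K), I ≠ ⊥ → (Ideal.absNorm I : ℂ) ≠ 0 := fun I hI => Nat.cast_ne_zero.2 (mt Ideal.absNorm_eq_zero_iff.1 hI)
  have ha1 : ∑ᶠ q, a₁ q = 1 := mul_right_cancel₀ (hN _ hJ) (by rw [h12, one_mul])
  have ha2 : ∑ᶠ q, a₂ q = (Ideal.absNorm b : ℂ) := by
    have hmc : m * c ≠ ⊥ := mul_ne_zero hm hc
    refine mul_right_cancel₀ (hN _ hmc) ?_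
    rw [h22, map_mul, map_mul, map_mul]
    push_cast
    ring
  have ha : ∑ᶠ q, ((Ideal.absNorm b : ℂ) * a₁ q - a₂ q) = 0 := by
    rw [finsum_eq_sum_of_fintype] at ha1 ha2 ⊢
    rw [Finset.sum_sub_distrib, ← Finset.mul_sum, ha1, ha2, mul_one, sub_self]
  obtain ⟨H, hH1, hH2⟩ := periodic_k h1 h2 h3 h4 (m * (b * c)) hJ _ ha k
  refine ⟨H, hH1, fun s hs => ?_⟩
  rw [hH2 s hs]
  have hF := fs_summable hB hA hs (K := K)
  have hS : ∀ d : Ideal (𝓞 K), Summable fun x : 𝓞 K => if x - 1 ∈ m ∧ x ∈ d then Fs (gK w) s (x : K) else 0 := by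
    intro d
    refine Summable.of_norm_bounded (g := fun x : 𝓞 K => ‖Fs (gK w) s (x : K)‖) hF.norm fun x => ?_
    split_ifs
    · exact le_rfl
    · rw [norm_zero]
      exact norm_nonneg _
  rw [← tsum_mul_left, ← ((hS (b * c)).mul_left _).tsum_sub (hS c)]
  refine tsum_congr fun x => ?_
  rw [h11, h21]
  split_ifs <;> ring

/-- The multiples theorem. -/
theorem multiples_aux_k (k : ℕ) {m : Ideal (𝓞 K)} (hm : m ≠ ⊥) {χ : Ideal (𝓞 K) →*₀ ℂ}
    (hχ : HCh m (fun _ => 1) χ) {T : Finset (Ideal (𝓞 K))} (hT : Reps m T) {b : Ideal (𝓞 K)} (hb : b ≠ ⊥) (hbm : IsCoprime b m) :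
    ∃ H : ℂ → ℂ, DifferentiableOn ℂ H (HPk K k) ∧ ∀ s : ℂ, 1 < s.re →
      H s = (χ b * (Ideal.absNorm b : ℂ) ^ (1 - s) - 1) * Lc χ s := by
  obtain ⟨w, A, hA0, w1, w2, w3, w4, wB, wA, wS⟩ := part_K (K := K) hm
  have gB : Bd (K := K) (gK w) := by
    have h1 : Bd (K := K) (fun _ => (1 : ℂ)) := ⟨1, zero_le_one, fun _ => by rw [norm_one]⟩
    exact (Bd_TP.mul wB).mul h1
  have gA : ∀ x : K, gK w x ≠ 0 → Rg A x := by
    intro x hx
    refine wA x fun h0 => hx ?_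
    unfold gK
    rw [h0, Complex.ofReal_zero, mul_zero, zero_mul]
  have hex : ∀ c : Ideal (𝓞 K), ∃ H : ℂ → ℂ, DifferentiableOn ℂ H (HPk K k) ∧ (c ∈ T → ∀ s : ℂ, 1 < s.re → H s =
      (Ideal.absNorm b : ℂ) * (∑' x : 𝓞 K, if x - 1 ∈ m ∧ x ∈ b * c then
        Fs (gK w) s (x : K) else 0) -
        ∑' x : 𝓞 K, if x - 1 ∈ m ∧ x ∈ c then
          Fs (gK w) s (x : K) else 0) := by
    intro c
    by_cases hc : c ∈ T
    · obtain ⟨H, h1, h2⟩ := compare_k w1 w2 w3 w4 gB gA k hm hb (hT.1 c hc).1 hbm (hT.1 c hc).2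
      exact ⟨H, h1, fun _ => h2⟩
    · exact ⟨fun _ => 0, differentiableOn_const _, fun h => absurd h hc⟩
  choose Hc hH1 hH2 using hex
  refine ⟨fun s => ∑ c ∈ T, ((χ c)⁻¹ * (Ideal.absNorm c : ℂ) ^ s) * Hc c s, ?_, fun s hs => ?_⟩
  · refine DifferentiableOn.fun_sum fun c hc => ?_
    refine DifferentiableOn.mul ?_ (hH1 c)
    refine DifferentiableOn.const_mul ?_ _
    exact (differentiable_id.const_cpow (Or.inl (y24_norm_ne (hT.1 c hc).1))).differentiableOn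
  · have e1 : ∀ c ∈ T, ((χ c)⁻¹ * (Ideal.absNorm c : ℂ) ^ s) * Hc c s =
        (Ideal.absNorm b : ℂ) * ((CFTZ.tm χ s c)⁻¹ *
          ∑' I : Ideal (𝓞 K), (if PrI m I ∧ I ≤ b * c then CFTZ.tm χ s I else 0)) -
          (CFTZ.tm χ s c)⁻¹ * ∑' I : Ideal (𝓞 K), (if PrI m I ∧ I ≤ ⊤ * c then CFTZ.tm χ s I else 0) := by
      intro c hc
      have u1 := unfold_sum (w := fun z => w (mixedEmbedding K z)) hχ wS gB wA (b * c) hs
      have u2 := unfold_sum (w := fun z => w (mixedEmbedding K z)) hχ wS gB wA c hs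
      rw [hH2 c hc s hs, ← y24_inv, Ideal.top_mul, ← u1, ← u2]
      unfold gK
      ring
    show (∑ c ∈ T, ((χ c)⁻¹ * (Ideal.absNorm c : ℂ) ^ s) * Hc c s) = _
    rw [Finset.sum_congr rfl e1, Finset.sum_sub_distrib, ← Finset.mul_sum, sum_reps hχ hT hb hs,
      sum_reps hχ hT (b := ⊤) top_ne_bot hs, y24_top]
    have e2 : (Ideal.absNorm b : ℂ) ^ (1 - s) = (Ideal.absNorm b : ℂ) * (Ideal.absNorm b : ℂ) ^ (-s) := by
      rw [sub_eq_add_neg, Complex.cpow_add _ _ (y24_norm_ne hb), Complex.cpow_one]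
    rw [e2]
    unfold CFTZ.tm
    ring

theorem multiples_k (hf : ∀ (S : Finset (Pr K)) (N : ℕ), (Pray S N).FiniteIndex) (k : ℕ) {m : Ideal (𝓞 K)} (hm : m ≠ ⊥)
    {χ : Ideal (𝓞 K) →*₀ ℂ} (hχ : HCh m (fun _ => 1) χ) {b : Ideal (𝓞 K)} (hb : b ≠ ⊥)
    (hbm : IsCoprime b m) : ∃ H : ℂ → ℂ, DifferentiableOn ℂ H (HPk K k) ∧ ∀ s : ℂ, 1 < s.re →
      H s = (χ b * (Ideal.absNorm b : ℂ) ^ (1 - s) - 1) * Lc χ s := by
  obtain ⟨S, N, h1, h2⟩ := exists_mI hm
  obtain ⟨T, hT⟩ := exists_reps S N (hf S N)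
  exact multiples_aux_k k (mI_ne S N) (hχ.mono h1 h2) hT hb ((h2 b).1 hbm)

theorem l5_open (k : ℕ) : IsOpen (HPk K k) := isOpen_lt continuous_const Complex.continuous_re

theorem l5_conn (k : ℕ) : IsPreconnected (HPk K k) := (convex_halfSpace_re_gt _).isPreconnected

theorem l5_sub (k : ℕ) : {s : ℂ | 1 < s.re} ⊆ HPk K k := by
  intro s hs
  have h1 : (1 : ℝ) < s.re := hs
  have h2 : 0 ≤ (k : ℝ) / (dg K : ℝ) := by positivity
  show 1 - k / (dg K : ℝ) < s.re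
  linarith

theorem typ_zero (x : K) : typ 0 x = 1 := by
  unfold typ
  simp

theorem l5_typ {m : Ideal (𝓞 K)} {χ : Ideal (𝓞 K) →*₀ ℂ} (hχ : HCh m (fun _ => 1) χ) : HCh m (typ 0) χ :=
  ⟨hχ.zero, hχ.norm, fun x h1 h2 => by rw [hχ.ray x h1 h2, typ_zero]⟩

/-- Hecke L-functions are analytic beyond the line re s = 1 -/
theorem cont_k (hf : ∀ (S : Finset (Pr K)) (N : ℕ), (Pray S N).FiniteIndex) (k : ℕ) {m : Ideal (𝓞 K)} (hm : m ≠ ⊥)
    {χ : Ideal (𝓞 K) →*₀ ℂ} (hχ : HCh m (fun _ => 1) χ)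
    (h1 : ∃ b : Ideal (𝓞 K), b ≠ ⊥ ∧ IsCoprime b m ∧ χ b ≠ 1) :
    ∃ H : ℂ → ℂ, DifferentiableOn ℂ H (HPk K k) ∧ ∀ s : ℂ, 1 < s.re → H s = Lc χ s := by
  have hex : ∀ b : {b : Ideal (𝓞 K) // b ≠ ⊥ ∧ IsCoprime b m}, ∃ H : ℂ → ℂ, DifferentiableOn ℂ H (HPk K k) ∧
      ∀ s : ℂ, 1 < s.re → H s = (χ b.1 * (Ideal.absNorm b.1 : ℂ) ^ (1 - s) - 1) * Lc χ s := fun b =>
    multiples_k hf k hm hχ b.2.1 b.2.2
  choose H hH1 hH2 using hex
  refine glue (l5_open k) (l5_conn k) (isOpen_lt continuous_const Complex.continuous_re) y30b_ne (l5_sub k) (Lc χ)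
    (fun b : {b : Ideal (𝓞 K) // b ≠ ⊥ ∧ IsCoprime b m} => fun s => χ b.1 * (Ideal.absNorm b.1 : ℂ) ^ (1 - s) - 1)
    H (fun b => ?_) hH1 hH2 (fun z _ => ?_)
  · exact (((y30b_cpow b.2.1).const_mul _).sub_const _).differentiableOn
  · by_contra hcon
    have h2 : ∀ b : Ideal (𝓞 K), b ≠ ⊥ → IsCoprime b m → χ b * (Ideal.absNorm b : ℂ) ^ (1 - z) = 1 := by
      intro b hb hbm
      by_contra hne
      exact hcon ⟨⟨b, hb, hbm⟩, sub_ne_zero.2 hne⟩
    have h3 := excep hm (l5_typ hχ) h2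
    obtain ⟨b, hb, hbm, hb1⟩ := h1
    have h4 := h2 b hb hbm
    rw [h3, sub_self, Complex.cpow_zero, mul_one] at h4
    exact hb1 h4

/-- the pole of the L-function of the trivial character -/
theorem pole_k (hf : ∀ (S : Finset (Pr K)) (N : ℕ), (Pray S N).FiniteIndex) {k : ℕ} (hk : 1 ≤ k) {m : Ideal (𝓞 K)} (hm : m ≠ ⊥)
    {χ : Ideal (𝓞 K) →*₀ ℂ} (hχ : HCh m (fun _ => 1) χ)
    (h1 : ∀ b : Ideal (𝓞 K), b ≠ ⊥ → IsCoprime b m → χ b = 1) :
    ∃ H : ℂ → ℂ, DifferentiableOn ℂ H (HPk K k) ∧ ∀ s : ℂ, 1 < s.re → H s = (s - 1) * Lc χ s := by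
  have hex : ∀ b : {b : Ideal (𝓞 K) // b ≠ ⊥ ∧ IsCoprime b m}, ∃ H : ℂ → ℂ, DifferentiableOn ℂ H (HPk K k) ∧
      ∀ s : ℂ, 1 < s.re → H s = (χ b.1 * (Ideal.absNorm b.1 : ℂ) ^ (1 - s) - 1) * Lc χ s := fun b =>
    multiples_k hf k hm hχ b.2.1 b.2.2
  choose H hH1 hH2 using hex
  have hds : ∀ (b : Ideal (𝓞 K)) (s : ℂ), (s - 1) * dslope (fun s : ℂ => (Ideal.absNorm b : ℂ) ^ (1 - s)) 1 s =
      (Ideal.absNorm b : ℂ) ^ (1 - s) - 1 := by
    intro b s
    have h := sub_smul_dslope (fun s : ℂ => (Ideal.absNorm b : ℂ) ^ (1 - s)) 1 s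
    rw [smul_eq_mul] at h
    rw [h, sub_self, Complex.cpow_zero]
  refine glue (l5_open k) (l5_conn k) (isOpen_lt continuous_const Complex.continuous_re) y30b_ne (l5_sub k)
    (fun s => (s - 1) * Lc χ s)
    (fun b : {b : Ideal (𝓞 K) // b ≠ ⊥ ∧ IsCoprime b m} => dslope (fun s : ℂ => (Ideal.absNorm b.1 : ℂ) ^ (1 - s)) 1)
    H (fun b => ?_) hH1 (fun b s hs => ?_) (fun z _ => ?_)
  · refine (Complex.differentiableOn_dslope ?_).2 (y30b_cpow b.2.1).differentiableOn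
    refine (l5_open k).mem_nhds ?_
    have h2 : 0 < (k : ℝ) / (dg K : ℝ) := by
      have : 1 ≤ dg K := dg_pos
      have : (0 : ℝ) < k := by exact_mod_cast hk
      positivity
    show 1 - k / (dg K : ℝ) < (1 : ℂ).re
    rw [Complex.one_re]
    linarith
  · rw [hH2 b s hs, h1 b.1 b.2.1 b.2.2, one_mul, ← hds]
    ring
  · by_cases hz : z = 1
    · obtain ⟨h2, h3, -, h5⟩ := y30_ideal (l5_typ hχ) 1
      refine ⟨⟨_, h2, h3⟩, ?_⟩
      rw [hz]
      show dslope (fun s : ℂ => (Ideal.absNorm (Ideal.span {((1 + 1 * Ideal.absNorm m : ℕ) : 𝓞 K)}) : ℂ) ^ (1 - s)) 1 1 ≠ 0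
      rw [dslope_same]
      have hd : HasDerivAt (fun s : ℂ => (Ideal.absNorm (Ideal.span {((1 + 1 * Ideal.absNorm m : ℕ) : 𝓞 K)}) : ℂ) ^ (1 - s))
          ((Ideal.absNorm (Ideal.span {((1 + 1 * Ideal.absNorm m : ℕ) : 𝓞 K)}) : ℂ) ^ ((1 : ℂ) - 1) *
            Complex.log (Ideal.absNorm (Ideal.span {((1 + 1 * Ideal.absNorm m : ℕ) : 𝓞 K)}) : ℂ) * (-1)) 1 :=
        ((hasDerivAt_id (1 : ℂ)).const_sub 1).const_cpow (Or.inl (y24_norm_ne h2))
      rw [hd.deriv, sub_self, Complex.cpow_zero, one_mul, h5, ← Complex.natCast_log]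
      have hM1 : 1 ≤ Ideal.absNorm m := Nat.one_le_iff_ne_zero.2 fun h0 => hm (Ideal.absNorm_eq_zero_iff.1 h0)
      have h6 : 1 < (1 + 1 * Ideal.absNorm m) ^ dg K :=
        Nat.one_lt_pow (by have := dg_pos (K := K); omega) (by omega)
      have h7 : 0 < Real.log (((1 + 1 * Ideal.absNorm m) ^ dg K : ℕ) : ℝ) := Real.log_pos (by exact_mod_cast h6)
      exact mul_ne_zero (Complex.ofReal_ne_zero.2 h7.ne') (neg_ne_zero.2 one_ne_zero)
    · by_contra hcon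
      apply hz
      refine excep hm (l5_typ hχ) fun b hb hbm => ?_
      rw [h1 b hb hbm, one_mul]
      by_contra hne
      refine hcon ⟨⟨b, hb, hbm⟩, fun h0 => hne ?_⟩
      have h2 := hds b z
      have h3 : dslope (fun s : ℂ => (Ideal.absNorm b : ℂ) ^ (1 - s)) 1 z = 0 := h0
      rw [h3, mul_zero] at h2
      exact (sub_eq_zero.1 h2.symm)


end CFTL
end

-- from Lib.CFT.L8
section

/-! # CFT, module ZL, L8: L(1, χ) ≠ 0 for every nontrivial character of a ray class group -/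

open NumberField IsDedekindDomain Filter Topology

namespace CFTL

open CFT CFTY CFTZ H55R

variable {K : Type} [Field K] [NumberField K]

open Classical in
/-- The coefficients of the logarithm of the product of all L-series. -/
noncomputable def lc (S : Finset (Pr K)) (H : AddSubgroup (Dv K)) (p : Pr K × ℕ) : ℝ :=
  if p.1 ∉ S ∧ (p.2 • (Finsupp.single p.1 1 : Dv K)) ∈ H then (Nat.card (Dv K ⧸ H) : ℝ) / (p.2 : ℝ) else 0

/-- The exponents. -/
noncomputable def ll (p : Pr K × ℕ) : ℝ := (p.2 : ℝ) * Real.log (Nm p.1)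

theorem lc_nonneg (S : Finset (Pr K)) (H : AddSubgroup (Dv K)) (p : Pr K × ℕ) : 0 ≤ lc S H p := by
  unfold lc
  split_ifs
  · positivity
  · exact le_rfl

theorem ll_nonneg (p : Pr K × ℕ) : 0 ≤ ll p := by
  unfold ll
  have h1 : (1 : ℝ) ≤ (Nm p.1 : ℝ) := by
    have : 2 ≤ Nm p.1 := CFTZ.dd_two_le p.1
    exact_mod_cast (by omega : 1 ≤ Nm p.1)
  have := Real.log_nonneg h1
  positivity

theorem lc_point (S : Finset (Pr K)) (H : AddSubgroup (Dv K)) [Fintype (Dv K ⧸ H)] (x : ℝ) (p : Pr K × ℕ) :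
    ∑ ψ : AddChar (Dv K ⧸ H) ℂ, ((tm (chI S (chq H ψ)) x p.1.asIdeal) ^ p.2 / (p.2 : ℂ)).re =
      lc S H p * Real.exp (-x * ll p) := by
  classical
  obtain ⟨v, n⟩ := p
  show ∑ ψ : AddChar (Dv K ⧸ H) ℂ, ((tm (chI S (chq H ψ)) x v.asIdeal) ^ n / (n : ℂ)).re = _
  by_cases hn : n = 0
  · subst hn
    unfold lc
    simp
  have hN : (0 : ℝ) < (Nm v : ℝ) := by
    have : 2 ≤ Nm v := CFTZ.dd_two_le v
    exact_mod_cast (by omega : 0 < Nm v)
  have h1 : ((Ideal.absNorm v.asIdeal : ℂ) ^ (-(x : ℂ))) = ((Real.exp (-x * Real.log (Nm v)) : ℝ) : ℂ) := by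
    have h2 : ((Ideal.absNorm v.asIdeal : ℂ) ^ (-(x : ℂ))) = (((Nm v : ℝ) ^ (-x) : ℝ) : ℂ) := by
      rw [Complex.ofReal_cpow hN.le]
      push_cast
      rfl
    rw [h2, Real.rpow_def_of_pos hN]
    congr 2
    ring
  have h3 : ∀ ψ : AddChar (Dv K ⧸ H) ℂ, ((tm (chI S (chq H ψ)) x v.asIdeal) ^ n / (n : ℂ)).re =
      ((chI S (chq H ψ) v.asIdeal) ^ n).re * (Real.exp (-x * ll (v, n)) / n) := by
    intro ψ
    unfold tm
    rw [h1, mul_pow, mul_div_assoc, ← Complex.ofReal_pow]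
    have h4 : ((Real.exp (-x * Real.log (Nm v)) ^ n : ℝ) : ℂ) / (n : ℂ) =
        ((Real.exp (-x * ll (v, n)) / n : ℝ) : ℂ) := by
      rw [← Real.exp_nat_mul]
      unfold ll
      push_cast
      congr 2
      ring
    rw [h4, Complex.re_mul_ofReal]
  rw [Finset.sum_congr rfl fun ψ _ => h3 ψ, ← Finset.sum_mul]
  by_cases hS : v ∈ S
  · have h5 : lc S H (v, n) = 0 := if_neg fun h => h.1 hS
    rw [h5, zero_mul]
    have h6 : ∀ ψ : AddChar (Dv K ⧸ H) ℂ, ((chI S (chq H ψ) v.asIdeal) ^ n).re = 0 := by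
      intro ψ
      rw [chI_prime_mem S _ hS, zero_pow hn, Complex.zero_re]
    rw [Finset.sum_congr rfl fun ψ _ => h6 ψ, Finset.sum_const_zero, zero_mul]
  · have h5 : ∀ ψ : AddChar (Dv K ⧸ H) ℂ, (chI S (chq H ψ) v.asIdeal) ^ n =
        ψ (QuotientAddGroup.mk (n • (Finsupp.single v 1 : Dv K))) := by
      intro ψ
      rw [chI_prime S _ hS, chq_cphi, ← AddChar.map_nsmul_eq_pow]
      rfl
    rw [← Complex.re_sum, Finset.sum_congr rfl fun ψ _ => h5 ψ, AddChar.sum_apply_eq_ite]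
    unfold lc
    by_cases h : (n • (Finsupp.single v 1 : Dv K)) ∈ H
    · rw [if_pos ((QuotientAddGroup.eq_zero_iff _).2 h), if_pos ⟨hS, h⟩, Nat.card_eq_fintype_card, Complex.natCast_re]
      ring
    · rw [if_neg fun h' => h ((QuotientAddGroup.eq_zero_iff _).1 h'), if_neg fun h' => h h'.2, Complex.zero_re]
      ring

theorem lc_hasSum (S : Finset (Pr K)) (H : AddSubgroup (Dv K)) [Fintype (Dv K ⧸ H)] {x : ℝ} (hx : 1 < x) :
    HasSum (fun p : Pr K × ℕ => lc S H p * Real.exp (-x * ll p))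
      (∑ ψ : AddChar (Dv K ⧸ H) ℂ, Real.log ‖CFTZ.Ls (chI S (chq H ψ)) x‖) := by
  have hh : ∀ (ψ : AddChar (Dv K ⧸ H) ℂ) (a : Ideal (𝓞 K)), ‖chI S (chq H ψ) a‖ ≤ 1 := fun ψ =>
    CFTZ.dd_norm_tI _ _ (chq_norm H ψ)
  have h1 : ∀ v : Pr K, HasSum (fun n : ℕ => lc S H (v, n) * Real.exp (-x * ll (v, n)))
      (∑ ψ : AddChar (Dv K ⧸ H) ℂ, -Real.log ‖1 - tm (chI S (chq H ψ)) x v.asIdeal‖) := by
    intro v
    have h2 : HasSum (fun n : ℕ => ∑ ψ : AddChar (Dv K ⧸ H) ℂ, ((tm (chI S (chq H ψ)) x v.asIdeal) ^ n / (n : ℂ)).re)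
        (∑ ψ : AddChar (Dv K ⧸ H) ℂ, -Real.log ‖1 - tm (chI S (chq H ψ)) x v.asIdeal‖) := by
      refine hasSum_sum fun ψ _ => ?_
      have h3 : ‖tm (chI S (chq H ψ)) x v.asIdeal‖ < 1 := lt_of_le_of_lt (CFTZ.RD1_le _ (hh ψ) x hx v) (by norm_num)
      have h4 := Complex.hasSum_re (Complex.hasSum_taylorSeries_neg_log h3)
      rw [Complex.neg_re, Complex.log_re] at h4
      exact h4
    refine h2.congr_fun fun n => ?_
    exact (lc_point S H x (v, n)).symm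
  have h2 : HasSum (fun v : Pr K => ∑ ψ : AddChar (Dv K ⧸ H) ℂ, -Real.log ‖1 - tm (chI S (chq H ψ)) x v.asIdeal‖)
      (∑ ψ : AddChar (Dv K ⧸ H) ℂ, Real.log ‖CFTZ.Ls (chI S (chq H ψ)) x‖) :=
    hasSum_sum fun ψ _ => (CFTZ.euler (chI S (chq H ψ)) (hh ψ) x hx).2
  have h3 : Summable fun p : Pr K × ℕ => lc S H p * Real.exp (-x * ll p) := by
    rw [summable_prod_of_nonneg fun p => mul_nonneg (lc_nonneg S H p) (Real.exp_pos _).le]
    refine ⟨fun v => (h1 v).summable, ?_⟩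
    refine h2.summable.congr fun v => ?_
    exact (h1 v).tsum_eq.symm
  have h4 := h3.hasSum.prod_fiberwise h1
  have h5 := h3.hasSum
  rwa [h4.unique h2] at h5

theorem cont_chi (hf : ∀ (S : Finset (Pr K)) (N : ℕ), (Pray S N).FiniteIndex) (S : Finset (Pr K)) (N : ℕ)
    (χ : Dv K →+ Additive ℂˣ) (hχ : ∀ D ∈ Pray S N, χ D = 0)
    (hn : ∀ v, ‖(cphi χ v : ℂ)‖ = 1) (h1 : χ ≠ 0) (k : ℕ) :
    ∃ H : ℂ → ℂ, DifferentiableOn ℂ H (HPk K k) ∧ ∀ s : ℂ, 1 < s.re → H s = Lc (chI S χ) s := by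
  have hc : HCh (mI S N) (fun _ => (1 : ℂ)) (chI S χ) := hch_of χ hn fun x hx => by
    rw [hχ _ (dv_mem_Pray hx), toMul_zero, Units.val_one]
  obtain ⟨v, hv⟩ : ∃ v : Pr K, cphi χ v ≠ 1 := by
    by_contra hcon
    push Not at hcon
    apply h1
    apply chi_ext
    intro v
    rw [hcon v]
    rfl
  have hvS : v ∉ S := by
    intro h
    apply hv
    have h2 : χ (Finsupp.single v 1) = 0 := by
      refine hχ _ (supp_mem_Pray N fun w hw => ?_)
      refine Finsupp.single_eq_of_ne ?_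
      rintro rfl
      exact hw h
    unfold cphi
    rw [h2, toMul_zero]
  have hcop : IsCoprime v.asIdeal (mI S N) := by
    rw [cop_mI]
    intro w hw hle
    have h3 := v.isMaximal.eq_of_le w.isPrime.ne_top hle
    have h4 : v = w := HeightOneSpectrum.ext h3
    rw [h4] at hvS
    exact hvS hw
  refine cont_k hf k (mI_ne S N) hc ⟨v.asIdeal, v.ne_bot, hcop, ?_⟩
  rw [chI_prime S χ hvS]
  exact fun h => hv (Units.ext h)

theorem pole_chi (hf : ∀ (S : Finset (Pr K)) (N : ℕ), (Pray S N).FiniteIndex) (S : Finset (Pr K)) {k : ℕ} (hk : 1 ≤ k) :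
    ∃ H : ℂ → ℂ, DifferentiableOn ℂ H (HPk K k) ∧ ∀ s : ℂ, 1 < s.re → H s = (s - 1) * Lc (chI S (0 : Dv K →+ Additive ℂˣ)) s := by
  have hn : ∀ v : Pr K, ‖(cphi (0 : Dv K →+ Additive ℂˣ) v : ℂ)‖ = 1 := by
    intro v
    have : cphi (0 : Dv K →+ Additive ℂˣ) v = 1 := rfl
    rw [this, Units.val_one, norm_one]
  have hc : HCh (mI S 0) (fun _ => (1 : ℂ)) (chI S (0 : Dv K →+ Additive ℂˣ)) := hch_of (0 : Dv K →+ Additive ℂˣ) hn fun x hx => by
    rw [AddMonoidHom.zero_apply, toMul_zero, Units.val_one]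
  refine pole_k hf hk (mI_ne S 0) hc fun b hb hbm => ?_
  have h1 := hc.norm b hb hbm
  have h2 : IsCoprime b (SI S) := by
    by_contra h
    have h3 : chI S (0 : Dv K →+ Additive ℂˣ) b = 0 := tI_zero (SI S) _ h
    rw [h3, norm_zero] at h1
    exact zero_ne_one h1
  have h3 : chI S (0 : Dv K →+ Additive ℂˣ) = tI (SI S) (1 : Pl K → ℂˣ) := rfl
  rw [h3, tI_apply _ _ hb h2, pv_one_fun, Units.val_one]

end CFTL
end

-- from Lib.CFT.L9
section

/-! # CFT, module ZL, L9: nonvanishing of L(1, χ) -/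

open NumberField IsDedekindDomain Filter Topology ComplexConjugate

namespace CFTL

open CFT CFTY CFTZ H55R

variable {K : Type} [Field K] [NumberField K]

theorem hpk_dg : HPk K (dg K) = {s : ℂ | 0 < s.re} := by
  have h1 : (dg K : ℝ) ≠ 0 := by
    have := dg_pos (K := K)
    exact_mod_cast (by omega : dg K ≠ 0)
  unfold HPk
  rw [div_self h1, sub_self]

/-- The series of the 1/Nv over the primes diverges. -/
theorem prime_div (S : Finset (Pr K)) (h : Summable fun v : Pr K => Set.indicator {v : Pr K | v ∉ S} (fun v => (Nm v : ℝ)⁻¹) v) : False := by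
  classical
  obtain ⟨C, hC⟩ := prime_zeta K
  have h1 : Summable fun v : Pr K => (Nm v : ℝ)⁻¹ := by
    have h2 : Summable fun v : Pr K => Set.indicator (S : Set (Pr K)) (fun v => (Nm v : ℝ)⁻¹) v :=
      summable_of_finite_support (S.finite_toSet.subset fun v hv => by
        by_contra hcon
        exact hv (Set.indicator_of_notMem hcon _))
    refine (h.add h2).congr fun v => ?_
    by_cases hv : v ∈ S
    · rw [Set.indicator_of_notMem (by simpa using hv), Set.indicator_of_mem (by simpa using hv), zero_add]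
    · rw [Set.indicator_of_mem (by simpa using hv), Set.indicator_of_notMem (by simpa using hv), add_zero]
  set M := ∑' v : Pr K, (Nm v : ℝ)⁻¹ with hM
  have h3 : ∀ s ∈ Set.Ioc (1 : ℝ) 2, Real.log (1 / (s - 1)) ≤ M + C := by
    intro s hs
    have h4 := (abs_le.1 (hC s hs)).1
    have h5 : ∑' W : Pl K, (Ideal.absNorm W.asIdeal : ℝ) ^ (-s) ≤ M := by
      refine (CFTZ.dd_summable (K := K) s hs.1).tsum_le_tsum (fun v => ?_) h1
      rw [← Real.rpow_neg_one]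
      refine Real.rpow_le_rpow_of_exponent_le ?_ (by linarith [hs.1])
      have : 2 ≤ Ideal.absNorm v.asIdeal := CFTZ.dd_two_le v
      exact_mod_cast (by omega : 1 ≤ Ideal.absNorm v.asIdeal)
    linarith
  have h6 : ∀ s ∈ Set.Ioc (1 : ℝ) 2, (1 : ℝ) * Real.log (1 / (s - 1)) ≤ 0 * Real.log (1 / (s - 1)) + (M + C) := by
    intro s hs
    have := h3 s hs
    linarith
  have h7 := lead_le h6
  norm_num at h7

theorem nonvan_aux (hf : ∀ (S : Finset (Pr K)) (N : ℕ), (Pray S N).FiniteIndex) (S : Finset (Pr K)) (N : ℕ)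
    (H : AddSubgroup (Dv K)) (hH : Pray S N ≤ H) [Fintype (Dv K ⧸ H)]
    (ψ₁ : AddChar (Dv K ⧸ H) ℂ) (h1 : ψ₁ ≠ 0) (H₁ : ℂ → ℂ) (hd : DifferentiableOn ℂ H₁ {s | 0 < s.re})
    (he : ∀ s : ℂ, 1 < s.re → H₁ s = Lc (chI S (chq H ψ₁)) s) : H₁ 1 ≠ 0 := by
  classical
  intro h0
  have hopen : IsOpen {s : ℂ | 0 < s.re} := isOpen_lt continuous_const Complex.continuous_re
  -- the continuations
  have hex : ∀ ψ : AddChar (Dv K ⧸ H) ℂ, ∃ G : ℂ → ℂ, DifferentiableOn ℂ G {s | 0 < s.re} ∧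
      (ψ ≠ 0 → ∀ s : ℂ, 1 < s.re → G s = Lc (chI S (chq H ψ)) s) := by
    intro ψ
    by_cases hψ : ψ = 0
    · exact ⟨fun _ => 0, differentiableOn_const _, fun h => absurd hψ h⟩
    · obtain ⟨G, hG1, hG2⟩ := cont_chi hf S N (chq H ψ) (fun D hD => chq_ker H ψ (hH hD)) (chq_norm H ψ) (chq_ne H hψ) (dg K)
      rw [hpk_dg] at hG1
      exact ⟨G, hG1, fun _ => hG2⟩
  choose G hG1 hG2 using hex
  obtain ⟨G₀, hG₀1, hG₀2⟩ := pole_chi hf S (k := dg K) dg_pos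
  rw [hpk_dg] at hG₀1
  set Z : ℂ → ℂ := fun s => G₀ s * dslope H₁ 1 s * ∏ ψ ∈ (Finset.univ.erase (0 : AddChar (Dv K ⧸ H) ℂ)).erase ψ₁, G ψ s with hZ
  have hZd : DifferentiableOn ℂ Z {s | 0 < s.re} := by
    refine (hG₀1.mul ?_).mul (DifferentiableOn.fun_finset_prod fun ψ _ => hG1 ψ)
    refine (Complex.differentiableOn_dslope (hopen.mem_nhds ?_)).2 hd
    show 0 < (1 : ℂ).re
    rw [Complex.one_re]
    exact one_pos
  have hZe : ∀ s : ℂ, 1 < s.re → Z s = ∏ ψ : AddChar (Dv K ⧸ H) ℂ, Lc (chI S (chq H ψ)) s := by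
    intro s hs
    have e1 : (s - 1) * dslope H₁ 1 s = Lc (chI S (chq H ψ₁)) s := by
      have h := sub_smul_dslope H₁ 1 s
      rw [smul_eq_mul] at h
      rw [h, h0, sub_zero, he s hs]
    have e2 : chq H (0 : AddChar (Dv K ⧸ H) ℂ) = 0 := by
      apply chi_ext
      intro v
      rfl
    rw [← Finset.mul_prod_erase Finset.univ _ (Finset.mem_univ (0 : AddChar (Dv K ⧸ H) ℂ)),
      ← Finset.mul_prod_erase (Finset.univ.erase (0 : AddChar (Dv K ⧸ H) ℂ)) _ (Finset.mem_erase.2 ⟨h1, Finset.mem_univ ψ₁⟩)]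
    rw [hZ]
    show G₀ s * dslope H₁ 1 s * ∏ ψ ∈ (Finset.univ.erase (0 : AddChar (Dv K ⧸ H) ℂ)).erase ψ₁, G ψ s = _
    have e3 : ∏ ψ ∈ (Finset.univ.erase (0 : AddChar (Dv K ⧸ H) ℂ)).erase ψ₁, G ψ s =
        ∏ ψ ∈ (Finset.univ.erase (0 : AddChar (Dv K ⧸ H) ℂ)).erase ψ₁, Lc (chI S (chq H ψ)) s := by
      refine Finset.prod_congr rfl fun ψ hψ => ?_
      exact hG2 ψ (Finset.ne_of_mem_erase (Finset.mem_of_mem_erase hψ)) s hs
    rw [e3, hG₀2 s hs, ← e1, e2]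
    ring
  -- the function f
  set f : ℂ → ℂ := fun s => Z s * conj (Z (conj s)) with hff
  have hfd : DifferentiableOn ℂ f {s | 0 < s.re} := by
    refine hZd.mul ?_
    intro s hs
    have h2 : conj s ∈ {s : ℂ | 0 < s.re} := by
      show 0 < (conj s).re
      rw [Complex.conj_re]
      exact hs
    have h3 : DifferentiableAt ℂ Z (conj s) := hZd.differentiableAt (hopen.mem_nhds h2)
    have h4 := h3.conj_conj
    rw [Complex.conj_conj] at h4
    exact h4.differentiableWithinAt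
  have hfe : ∀ x : ℝ, 1 < x → f x = ((Real.exp (∑' p : Pr K × ℕ, (2 * lc S H p) * Real.exp (-x * ll p)) : ℝ) : ℂ) := by
    intro x hx
    have e1 := (lc_hasSum S H hx).mul_left 2
    have e2 : ∑' p : Pr K × ℕ, (2 * lc S H p) * Real.exp (-x * ll p) =
        2 * ∑ ψ : AddChar (Dv K ⧸ H) ℂ, Real.log ‖CFTZ.Ls (chI S (chq H ψ)) x‖ := by
      rw [← e1.tsum_eq]
      exact tsum_congr fun p => by ring
    have hh : ∀ (ψ : AddChar (Dv K ⧸ H) ℂ) (a : Ideal (𝓞 K)), ‖chI S (chq H ψ) a‖ ≤ 1 := fun ψ =>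
      CFTZ.dd_norm_tI _ _ (chq_norm H ψ)
    have e3 : ∀ ψ : AddChar (Dv K ⧸ H) ℂ, 0 < ‖CFTZ.Ls (chI S (chq H ψ)) x‖ := fun ψ =>
      norm_pos_iff.2 (CFTZ.euler (chI S (chq H ψ)) (hh ψ) x hx).1
    have e4 : Real.exp (∑ ψ : AddChar (Dv K ⧸ H) ℂ, Real.log ‖CFTZ.Ls (chI S (chq H ψ)) x‖) = ‖Z x‖ := by
      rw [Real.exp_sum, hZe x (by rw [Complex.ofReal_re]; exact hx), norm_prod]
      refine Finset.prod_congr rfl fun ψ _ => ?_
      rw [Real.exp_log (e3 ψ)]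
      rfl
    rw [e2, two_mul, Real.exp_add, e4]
    show Z x * conj (Z (conj (x : ℂ))) = _
    rw [Complex.conj_ofReal, Complex.mul_conj, Complex.normSq_eq_norm_sq]
    push_cast
    ring
  -- the order of the group
  set g : ℕ := Nat.card (Dv K ⧸ H) with hg
  have hg1 : 1 ≤ g := Nat.card_pos
  have hgR : (1 : ℝ) ≤ g := by exact_mod_cast hg1
  have hs : ∀ x : ℝ, 1 < x → Summable fun p : Pr K × ℕ => (2 * lc S H p) * Real.exp (-x * ll p) := by
    intro x hx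
    refine ((lc_hasSum S H hx).summable.mul_left 2).congr fun p => ?_
    ring
  have hL := landau_exp (fun p : Pr K × ℕ => 2 * lc S H p) ll (fun p => mul_nonneg (by norm_num) (lc_nonneg S H p))
    ll_nonneg hs f hfd hfe (y := 1 / g) (by positivity)
    (lt_of_le_of_lt ((div_le_one (by linarith)).2 hgR) (by norm_num))
  have hL2 := (hL.comp_injective (i := fun v : Pr K => (v, g)) fun a b hab => (Prod.mk.inj hab).1).mul_left (1 / 2)
  apply prime_div S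
  refine hL2.congr fun v => ?_
  show 1 / 2 * ((2 * lc S H (v, g)) * Real.exp (-(1 / (g : ℝ)) * ll (v, g))) = _
  have hN : (0 : ℝ) < (Nm v : ℝ) := by
    have : 2 ≤ Nm v := CFTZ.dd_two_le v
    exact_mod_cast (by omega : 0 < Nm v)
  have e5 : Real.exp (-(1 / (g : ℝ)) * ll (v, g)) = (Nm v : ℝ)⁻¹ := by
    unfold ll
    have e6 : -(1 / (g : ℝ)) * ((g : ℝ) * Real.log (Nm v)) = -Real.log (Nm v) := by
      field_simp
    show Real.exp (-(1 / (g : ℝ)) * ((g : ℝ) * Real.log (Nm v))) = _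
    rw [e6, Real.exp_neg, Real.exp_log hN]
  rw [e5]
  by_cases hv : v ∈ S
  · have e7 : lc S H (v, g) = 0 := if_neg fun h => h.1 hv
    rw [Set.indicator_of_notMem (by simpa using hv), e7]
    ring
  · have e8 : (g • (Finsupp.single v 1 : Dv K)) ∈ H := by
      rw [← QuotientAddGroup.eq_zero_iff, QuotientAddGroup.mk_nsmul]
      exact card_nsmul_eq_zero'
    have e7 : lc S H (v, g) = (Nat.card (Dv K ⧸ H) : ℝ) / (g : ℝ) := if_pos ⟨hv, e8⟩
    rw [Set.indicator_of_mem (by simpa using hv), e7, ← hg, div_self (by linarith)]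
    ring

/-- The character of the quotient belonging to a character of Dv K. -/
noncomputable def qch (H : AddSubgroup (Dv K)) (χ : Dv K →+ Additive ℂˣ) (hχ : ∀ D ∈ H, χ D = 0) : AddChar (Dv K ⧸ H) ℂ where
  toFun q := (((QuotientAddGroup.lift H χ hχ q).toMul : ℂˣ) : ℂ)
  map_zero_eq_one' := by
    rw [map_zero, toMul_zero, Units.val_one]
  map_add_eq_mul' a b := by
    rw [map_add, toMul_add, Units.val_mul]

theorem chq_qch (H : AddSubgroup (Dv K)) (χ : Dv K →+ Additive ℂˣ) (hχ : ∀ D ∈ H, χ D = 0) : chq H (qch H χ hχ) = χ := by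
  apply chi_ext
  intro v
  apply Units.ext
  rfl

/-- L(1, χ) ≠ 0. -/
theorem nonvan (hf : ∀ (S : Finset (Pr K)) (N : ℕ), (Pray S N).FiniteIndex) (S : Finset (Pr K)) (N : ℕ)
    (χ : Dv K →+ Additive ℂˣ) (hχ : ∀ D ∈ Pray S N, χ D = 0) (h1 : χ ≠ 0)
    (G : ℂ → ℂ) (hG : DifferentiableOn ℂ G (HP K)) (hGe : ∀ s : ℂ, 1 < s.re → G s = Lc (chI S χ) s) : G 1 ≠ 0 := by
  classical
  have := hf S N
  have := AddSubgroup.finite_quotient_of_finiteIndex (H := Pray S N)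
  have := Fintype.ofFinite (Dv K ⧸ Pray S N)
  have hq := chq_qch (Pray S N) χ hχ
  set ψ := qch (Pray S N) χ hχ with hψ
  have hψ0 : ψ ≠ 0 := by
    intro h
    apply h1
    rw [← hq, h]
    apply chi_ext
    intro v
    rfl
  obtain ⟨H, hH1, hH2⟩ := cont_chi hf S N χ hχ (by rw [← hq]; exact chq_norm _ ψ) h1 (dg K)
  rw [hpk_dg] at hH1
  have h2 : H 1 ≠ 0 := nonvan_aux hf S N (Pray S N) le_rfl ψ hψ0 H hH1 (by rw [hq]; exact hH2)
  have h3 : HP K ⊆ {s : ℂ | 0 < s.re} := by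
    intro s hs
    have h4 : 1 - 1 / (dg K : ℝ) < s.re := hs
    have h5 : (1 : ℝ) ≤ dg K := by exact_mod_cast dg_pos (K := K)
    have h6 : 1 / (dg K : ℝ) ≤ 1 := (div_le_one (by linarith)).2 h5
    show 0 < s.re
    linarith
  have ho : IsOpen (HP K) := isOpen_lt continuous_const Complex.continuous_re
  have hc : IsPreconnected (HP K) := (convex_halfSpace_re_gt _).isPreconnected
  have h7 : (1 : ℂ) ∈ HP K := by
    show 1 - 1 / (dg K : ℝ) < (1 : ℂ).re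
    have h5 : (1 : ℝ) ≤ dg K := by exact_mod_cast dg_pos (K := K)
    have : 0 < 1 / (dg K : ℝ) := by positivity
    rw [Complex.one_re]
    linarith
  have h8 : (2 : ℂ) ∈ HP K := by
    show 1 - 1 / (dg K : ℝ) < (2 : ℂ).re
    have h5 : (1 : ℝ) ≤ dg K := by exact_mod_cast dg_pos (K := K)
    have h6 : 0 < 1 / (dg K : ℝ) := by positivity
    rw [Complex.re_ofNat]
    linarith
  have h9 : G =ᶠ[𝓝 (2 : ℂ)] H := by
    have h10 : {s : ℂ | 1 < s.re} ∈ 𝓝 (2 : ℂ) := (isOpen_lt continuous_const Complex.continuous_re).mem_nhds (by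
      show (1 : ℝ) < (2 : ℂ).re
      norm_num)
    filter_upwards [h10] with s hs
    rw [hGe s hs, hH2 s hs]
  have h10 := (hG.analyticOnNhd ho).eqOn_of_preconnected_of_eventuallyEq ((hH1.mono h3).analyticOnNhd ho) hc h8 h9
  rw [h10 h7]
  exact h2

end CFTL
end

-- from Lib.CFTC.C9
section

/-! # CFT module C, file C9: the prime number theorem for Hecke characters (final statements)

Hypothesis `hf`: finiteness of the ray class groups (`CFTZ.pray_fin`). -/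

open NumberField IsDedekindDomain Complex Filter Topology

namespace CFTC

open CFT CFTY

variable {K : Type} [Field K] [NumberField K]

/-- the value of a divisor character at a prime -/
noncomputable abbrev vl (c : Dv K →+ Additive ℂˣ) (v : Pr K) : ℂ := (((c (Finsupp.single v 1)).toMul : ℂˣ) : ℂ)

theorem c9_sub : {s : ℂ | 1 ≤ s.re} ⊆ HP K := by
  intro s hs
  have h1 : (1 : ℝ) ≤ s.re := hs
  have h2 : 0 < 1 / (dg K : ℝ) := by
    have : 1 ≤ dg K := dg_pos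
    positivity
  show 1 - 1 / (dg K : ℝ) < s.re
  linarith

theorem c9_norm {c : Dv K →+ Additive ℂˣ} (hn : ∀ v, ‖vl c v‖ = 1) (D : Dv K) : ‖(((c D).toMul : ℂˣ) : ℂ)‖ = 1 := by
  rw [CFTZ.chi_apply, Finsupp.prod, Units.coe_prod, norm_prod]
  refine Finset.prod_eq_one fun v _ => ?_
  rw [Units.val_zpow_eq_zpow_val, norm_zpow]
  have h : ‖((CFTZ.cphi c v : ℂˣ) : ℂ)‖ = 1 := hn v
  rw [h, one_zpow]

theorem c9_typ {n : (K →+* ℂ) → ℤ} {x : K} (h : ‖∏ σ : K →+* ℂ, σ x ^ n σ‖ = 1) : typ n x = ∏ σ : K →+* ℂ, σ x ^ n σ := by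
  unfold typ
  simp only [div_zpow]
  rw [Finset.prod_div_distrib]
  have h1 : (∏ σ : K →+* ℂ, (‖σ x‖ : ℂ) ^ n σ) = 1 := by
    have h2 : (∏ σ : K →+* ℂ, (‖σ x‖ : ℂ) ^ n σ) = ((‖∏ σ : K →+* ℂ, σ x ^ n σ‖ : ℝ) : ℂ) := by
      rw [norm_prod, Complex.ofReal_prod]
      refine Finset.prod_congr rfl fun σ _ => ?_
      rw [norm_zpow, Complex.ofReal_zpow]
    rw [h2, h, Complex.ofReal_one]
  rw [h1, div_one]

theorem c9_hch (S : Finset (Pr K)) (N : ℕ) (c : Dv K →+ Additive ℂˣ)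
    (hn : ∀ v, ‖vl c v‖ = 1) (n : (K →+* ℂ) → ℤ) (hx : ∀ x : K, Ray S N x → (((c (dv x)).toMul : ℂˣ) : ℂ) = ∏ σ : K →+* ℂ, σ x ^ n σ) :
    HCh (mI S N) (typ n) (CFTZ.chI S c) := by
  refine hch_of c hn fun x hr => ?_
  rw [hx x hr, c9_typ]
  rw [← hx x hr]
  exact c9_norm hn _

theorem c9_le (S : Finset (Pr K)) {c : Dv K →+ Additive ℂˣ} (hn : ∀ v, ‖vl c v‖ = 1) (a : Ideal (𝓞 K)) : ‖CFTZ.chI S c a‖ ≤ 1 :=
  CFTZ.dd_norm_tI _ _ hn a

theorem c9_pr {S : Finset (Pr K)} (c : Dv K →+ Additive ℂˣ) {v : Pr K} (hv : v ∉ S) : pr (CFTZ.chI S c) v = vl c v :=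
  CFTZ.chI_prime S c hv

theorem c9_pr0 {S : Finset (Pr K)} (c : Dv K →+ Additive ℂˣ) {v : Pr K} (hv : v ∈ S) : pr (CFTZ.chI S c) v = 0 :=
  CFTZ.chI_prime_mem S c hv

/-- continuation, nontrivial case -/
theorem c9_ent (hf : ∀ (S : Finset (Pr K)) (N : ℕ), (Pray S N).FiniteIndex) (S : Finset (Pr K)) (N : ℕ) (c : Dv K →+ Additive ℂˣ)
    (hn : ∀ v, ‖vl c v‖ = 1) (n : (K →+* ℂ) → ℤ) (hx : ∀ x : K, Ray S N x → (((c (dv x)).toMul : ℂˣ) : ℂ) = ∏ σ : K →+* ℂ, σ x ^ n σ)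
    (h1 : ∃ v ∉ S, vl c v ≠ 1) :
    ∃ H : ℂ → ℂ, DifferentiableOn ℂ H (HP K) ∧ ∀ s : ℂ, 1 < s.re → H s = Lc (CFTZ.chI S c) s := by
  obtain ⟨v, hv, h2⟩ := h1
  refine hecke_entire hf (mI_ne S N) (c9_hch S N c hn n hx) ⟨v.asIdeal, v.ne_bot, ?_, ?_⟩
  · rw [cop_mI]
    intro w hw hle
    have h3 := v.isMaximal.eq_of_le w.isPrime.ne_top hle
    have h4 : v = w := HeightOneSpectrum.ext h3
    rw [h4] at hv
    exact hv hw
  · rw [CFTZ.chI_prime S c hv]
    exact h2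

/-- continuation, trivial case -/
theorem c9_pole (hf : ∀ (S : Finset (Pr K)) (N : ℕ), (Pray S N).FiniteIndex) (S : Finset (Pr K)) (N : ℕ) (c : Dv K →+ Additive ℂˣ)
    (hn : ∀ v, ‖vl c v‖ = 1) (n : (K →+* ℂ) → ℤ) (hx : ∀ x : K, Ray S N x → (((c (dv x)).toMul : ℂˣ) : ℂ) = ∏ σ : K →+* ℂ, σ x ^ n σ)
    (h1 : ∀ v ∉ S, vl c v = 1) :
    ∃ H : ℂ → ℂ, DifferentiableOn ℂ H (HP K) ∧ ∀ s : ℂ, 1 < s.re → H s = (s - 1) * Lc (CFTZ.chI S c) s := by
  refine hecke_pole hf (mI_ne S N) (c9_hch S N c hn n hx) fun b hb hc => ?_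
  have hc' : IsCoprime b (CFTZ.SI S) := (cop_SI S b).2 ((cop_mI S N b).1 hc)
  unfold CFTZ.chI
  rw [H55R.tI_apply _ _ hb hc', CFTZ.dd_pv_eq_one, Units.val_one]
  intro v hv
  have hvS : v ∉ S := fun h => (cop_mI S N b).1 hc v h hv
  exact Units.ext (h1 v hvS)

/-- bounded on a segment -/
theorem c9_bdd (hf : ∀ (S : Finset (Pr K)) (N : ℕ), (Pray S N).FiniteIndex) (S : Finset (Pr K)) (N : ℕ) (c : Dv K →+ Additive ℂˣ)
    (hn : ∀ v, ‖vl c v‖ = 1) (n : (K →+* ℂ) → ℤ) (hx : ∀ x : K, Ray S N x → (((c (dv x)).toMul : ℂˣ) : ℂ) = ∏ σ : K →+* ℂ, σ x ^ n σ)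
    (t : ℝ) (h : (∃ v ∉ S, vl c v ≠ 1) ∨ t ≠ 0) :
    ∃ C : ℝ, ∀ σ : ℝ, 1 < σ → σ ≤ 2 → ‖Lc (CFTZ.chI S c) (σ + 2 * t * I)‖ ≤ C := by
  have hre : ∀ σ : ℝ, (σ + 2 * t * I : ℂ).re = σ := fun σ => by simp
  have hmem : ∀ σ ∈ Set.Icc (1 : ℝ) 2, (σ + 2 * t * I : ℂ) ∈ HP K := fun σ hσ => c9_sub (by
    show (1 : ℝ) ≤ (σ + 2 * t * I : ℂ).re
    rw [hre]
    exact hσ.1)
  have hcont : Continuous fun σ : ℝ => (σ + 2 * t * I : ℂ) := by fun_prop
  by_cases h1 : ∃ v ∉ S, vl c v ≠ 1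
  · obtain ⟨H, hH, hL⟩ := c9_ent hf S N c hn n hx h1
    have h2 : ContinuousOn (fun σ : ℝ => H (σ + 2 * t * I)) (Set.Icc 1 2) :=
      hH.continuousOn.comp hcont.continuousOn hmem
    obtain ⟨C, hC⟩ := isCompact_Icc.exists_bound_of_continuousOn h2
    refine ⟨C, fun σ hσ hσ2 => ?_⟩
    rw [← hL _ (by rw [hre]; exact hσ)]
    exact hC σ ⟨hσ.le, hσ2⟩
  · have ht : t ≠ 0 := h.resolve_left h1
    push Not at h1
    obtain ⟨H, hH, hL⟩ := c9_pole hf S N c hn n hx h1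
    have hne : ∀ σ : ℝ, (σ + 2 * t * I : ℂ) - 1 ≠ 0 := by
      intro σ h0
      have h3 := congrArg Complex.im h0
      simp at h3
      exact ht h3
    have h2 : ContinuousOn (fun σ : ℝ => H (σ + 2 * t * I) / ((σ + 2 * t * I : ℂ) - 1)) (Set.Icc 1 2) :=
      (hH.continuousOn.comp hcont.continuousOn hmem).div (hcont.sub continuous_const).continuousOn fun σ _ => hne σ
    obtain ⟨C, hC⟩ := isCompact_Icc.exists_bound_of_continuousOn h2
    refine ⟨C, fun σ hσ hσ2 => ?_⟩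
    have h4 := hC σ ⟨hσ.le, hσ2⟩
    rw [hL _ (by rw [hre]; exact hσ), mul_div_assoc, mul_comm, div_mul_cancel₀ _ (hne σ)] at h4
    exact h4

/-- the trivial character -/
noncomputable def oo : Ideal (𝓞 K) →*₀ ℂ := CFTZ.chI ∅ (0 : Dv K →+ Additive ℂˣ)

omit [NumberField K] in
theorem oo_n (v : Pr K) : ‖vl (0 : Dv K →+ Additive ℂˣ) v‖ = 1 := by
  simp [vl]

theorem oo_x (x : K) : ((((0 : Dv K →+ Additive ℂˣ) (dv x)).toMul : ℂˣ) : ℂ) = ∏ σ : K →+* ℂ, σ x ^ (0 : ℤ) := by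
  simp

theorem oo_pr (v : Pr K) : pr oo v = 1 := by
  unfold oo
  rw [c9_pr _ (Finset.notMem_empty v)]
  simp [vl]

theorem oo_le (a : Ideal (𝓞 K)) : ‖(oo : Ideal (𝓞 K) →*₀ ℂ) a‖ ≤ 1 := c9_le ∅ oo_n a

theorem oo_ne {a : Ideal (𝓞 K)} (ha : a ≠ ⊥) : (oo : Ideal (𝓞 K) →*₀ ℂ) a = 1 := by
  unfold oo CFTZ.chI
  rw [H55R.tI_apply _ _ ha ((cop_SI ∅ a).2 fun v hv => absurd hv (Finset.notMem_empty v)), CFTZ.dd_pv_eq_one, Units.val_one]
  intro v _
  exact Units.ext (by simp [CFTZ.cphi])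

theorem oo_Lc {σ : ℝ} (hσ : 1 < σ) :
    Lc (oo : Ideal (𝓞 K) →*₀ ℂ) σ = ((∑' a : Ideal (𝓞 K), (Ideal.absNorm a : ℝ) ^ (-σ) : ℝ) : ℂ) := by
  unfold Lc
  rw [Complex.ofReal_tsum]
  refine tsum_congr fun a => ?_
  unfold CFTZ.tm
  by_cases ha : a = ⊥
  · have h0 : (oo : Ideal (𝓞 K) →*₀ ℂ) ⊥ = 0 := map_zero _
    rw [ha, h0, zero_mul, Ideal.absNorm_bot, Nat.cast_zero, Real.zero_rpow (by linarith), Complex.ofReal_zero]
  · rw [oo_ne ha, one_mul, Complex.ofReal_cpow (Nat.cast_nonneg _)]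
    push_cast
    rfl

theorem oo_B (K : Type) [Field K] [NumberField K] : ∃ B : ℝ, ∀ σ : ℝ, 1 < σ → σ ≤ 2 → (σ - 1) * ‖Lc (oo : Ideal (𝓞 K) →*₀ ℂ) σ‖ ≤ B := by
  obtain ⟨B, hB⟩ := CFTZ.zeta_pole K
  refine ⟨B, fun σ h1 h2 => ?_⟩
  rw [oo_Lc h1, Complex.norm_real, Real.norm_of_nonneg (tsum_nonneg fun a => by positivity)]
  exact hB σ ⟨h1, h2⟩

/-- no zeros for a nontrivial character -/
theorem c9_nv (hf : ∀ (S : Finset (Pr K)) (N : ℕ), (Pray S N).FiniteIndex) (S : Finset (Pr K)) (N : ℕ) (c : Dv K →+ Additive ℂˣ)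
    (hn : ∀ v, ‖vl c v‖ = 1) (n : (K →+* ℂ) → ℤ) (hx : ∀ x : K, Ray S N x → (((c (dv x)).toMul : ℂˣ) : ℂ) = ∏ σ : K →+* ℂ, σ x ^ n σ)
    {H : ℂ → ℂ} (hH : DifferentiableOn ℂ H (HP K)) (hL : ∀ s : ℂ, 1 < s.re → H s = Lc (CFTZ.chI S c) s) (t : ℝ)
    (h : (∃ v ∉ S, vl c v ^ 2 ≠ 1) ∨ t ≠ 0) : H (1 + t * I) ≠ 0 := by
  obtain ⟨B, hB⟩ := oo_B K
  have hn2 : ∀ v, ‖vl (c + c) v‖ = 1 := by
    intro v
    have h1 : vl (c + c) v = vl c v * vl c v := by
      simp [vl]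
    rw [h1, norm_mul, hn v, mul_one]
  have hx2 : ∀ x : K, Ray S N x → ((((c + c) (dv x)).toMul : ℂˣ) : ℂ) = ∏ σ : K →+* ℂ, σ x ^ (n σ + n σ) := by
    intro x hr
    have h1 : ((((c + c) (dv x)).toMul : ℂˣ) : ℂ) = (((c (dv x)).toMul : ℂˣ) : ℂ) * (((c (dv x)).toMul : ℂˣ) : ℂ) := by
      simp
    rw [h1, hx x hr, ← Finset.prod_mul_distrib]
    refine Finset.prod_congr rfl fun σ _ => ?_
    rw [zpow_add₀ ((map_ne_zero σ).2 hr.ne)]
  obtain ⟨C, hC⟩ := c9_bdd hf S N (c + c) hn2 (fun σ => n σ + n σ) hx2 t (h.imp_left fun ⟨v, hv, h1⟩ => ⟨v, hv, by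
    have h2 : vl (c + c) v = vl c v ^ 2 := by
      simp [vl, sq]
    rw [h2]
    exact h1⟩)
  refine nv (o := oo) (h := CFTZ.chI S c) (h2 := CFTZ.chI S (c + c)) oo_pr oo_le (c9_le S hn) (c9_le S hn2) (fun v => ?_) (fun v => ?_) t hB
    (hH.differentiableAt (y30b_open.mem_nhds (c9_sub (by simp)))) hL hC
  · by_cases hv : v ∈ S
    · exact Or.inl (c9_pr0 c hv)
    · rw [c9_pr c hv]
      exact Or.inr (hn v)
  · by_cases hv : v ∈ S
    · rw [c9_pr0 _ hv, c9_pr0 _ hv, zero_pow two_ne_zero]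
    · rw [c9_pr _ hv, c9_pr _ hv]
      simp [vl, sq]

theorem c9_re {H : ℂ → ℂ} (h1 : ∀ s : ℂ, 1 < s.re → H s ≠ 0) (h2 : ∀ t : ℝ, H (1 + t * I) ≠ 0) (s : ℂ) (hs : 1 ≤ s.re) : H s ≠ 0 := by
  rcases eq_or_lt_of_le hs with h3 | h3
  · have h4 : s = 1 + (s.im : ℂ) * I := by
      apply Complex.ext
      · simp [← h3]
      · simp
    rw [h4]
    exact h2 s.im
  · exact h1 s h3

theorem c9_exp (h : Ideal (𝓞 K) →*₀ ℂ) (hh : ∀ a, ‖h a‖ ≤ 1) {s : ℂ} (hs : 1 < s.re) : Lc h s ≠ 0 := by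
  rw [← exp_eq h hh hs]
  exact Complex.exp_ne_zero _

/-- the trivial character: continuous extension -/
theorem c9_ext1 (hf : ∀ (S : Finset (Pr K)) (N : ℕ), (Pray S N).FiniteIndex) : Ext (fun _ : Pr K => 1) 1 := by
  obtain ⟨H, hH, hL⟩ := c9_pole hf ∅ 0 (0 : Dv K →+ Additive ℂˣ) oo_n (fun _ => 0) (fun x _ => oo_x x) (fun v _ => by simp [vl])
  have hL' : ∀ s : ℂ, 1 < s.re → H s = (s - 1) * Lc (oo : Ideal (𝓞 K) →*₀ ℂ) s := hL
  have hs1 : ∀ s : ℂ, 1 < s.re → s - 1 ≠ 0 := by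
    intro s hs h0
    rw [sub_eq_zero.1 h0, Complex.one_re] at hs
    exact lt_irrefl _ hs
  have hne : ∀ s : ℂ, 1 ≤ s.re → H s ≠ 0 := by
    refine c9_re (fun s hs => ?_) fun t => ?_
    · rw [hL' s hs]
      exact mul_ne_zero (hs1 s hs) (c9_exp _ oo_le hs)
    · by_cases ht : t = 0
      · rw [ht, Complex.ofReal_zero, zero_mul, add_zero]
        obtain ⟨A, B, hA, hAB⟩ := CFTZ.RD3_bd K
        have h1 : ContinuousAt H 1 := (hH.differentiableAt (y30b_open.mem_nhds (c9_sub (by simp)))).continuousAt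
        have h2 : Tendsto (fun σ : ℝ => ‖H σ‖) (𝓝[>] 1) (𝓝 ‖H 1‖) := by
          have h3 : Tendsto (fun σ : ℝ => (σ : ℂ)) (𝓝[>] 1) (𝓝 1) := by
            have h4 : Continuous fun σ : ℝ => (σ : ℂ) := Complex.continuous_ofReal
            have h5 := (h4.tendsto 1).mono_left (nhdsWithin_le_nhds (s := Set.Ioi (1 : ℝ)))
            rwa [Complex.ofReal_one] at h5
          exact (h1.tendsto.comp h3).norm
        have h6 : A ≤ ‖H 1‖ := by
          refine ge_of_tendsto h2 ?_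
          filter_upwards [Ioc_mem_nhdsGT (show (1 : ℝ) < 2 by norm_num)] with σ hσ
          rw [hL' _ (by rw [Complex.ofReal_re]; exact hσ.1), oo_Lc hσ.1, norm_mul, Complex.norm_real,
            Real.norm_of_nonneg (tsum_nonneg fun a => by positivity)]
          have h7 : ‖(σ : ℂ) - 1‖ = σ - 1 := by
            rw [← Complex.ofReal_one, ← Complex.ofReal_sub, Complex.norm_real, Real.norm_of_nonneg (by linarith [hσ.1])]
          rw [h7]
          exact (hAB σ hσ).1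
        intro h0
        rw [h0, norm_zero] at h6
        linarith
      · obtain ⟨B, hB⟩ := oo_B K
        have hne1 : (1 + t * I : ℂ) - 1 ≠ 0 := by
          intro h0
          have h3 := congrArg Complex.im h0
          simp at h3
          exact ht h3
        obtain ⟨C, hC⟩ := c9_bdd hf ∅ 0 (0 : Dv K →+ Additive ℂˣ) oo_n (fun _ => 0) (fun x _ => oo_x x) t (Or.inr ht)
        have h1 : DifferentiableAt ℂ (fun s => H s / (s - 1)) (1 + t * I) :=
          (hH.differentiableAt (y30b_open.mem_nhds (c9_sub (by simp)))).div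
            (differentiableAt_id.sub_const 1) hne1
        have h2 := nv (o := oo) (h := oo) (h2 := oo) oo_pr oo_le oo_le oo_le (fun v => Or.inr (by rw [oo_pr, norm_one]))
          (fun v => by rw [oo_pr, one_pow]) t hB h1 (fun s hs => by
            rw [hL' s hs, mul_comm, mul_div_assoc, div_self (hs1 s hs), mul_one]) hC
        intro h0
        apply h2
        rw [h0, zero_div]
  have h3 := ext_of (oo : Ideal (𝓞 K) →*₀ ℂ) oo_le 1 y30b_open c9_sub hH (fun s hs => by rw [hL' s hs, pow_one]) hne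
  have h4 : pr (oo : Ideal (𝓞 K) →*₀ ℂ) = fun _ => 1 := funext oo_pr
  rw [h4, Nat.cast_one] at h3
  exact h3

/-- (C3) The prime ideal theorem. -/
theorem pit (hf : ∀ (S : Finset (Pr K)) (N : ℕ), (Pray S N).FiniteIndex) :
    Tendsto (fun x : ℕ => (Set.ncard {v : Pr K | Nm v ≤ x} : ℝ) / (Nat.primeCounting x : ℝ)) atTop (𝓝 1) := by
  have h := tau (u := fun _ : Pr K => 1) (B := 1) (fun _ => zero_le_one) (fun _ => le_rfl) (by
    simp only [Complex.ofReal_one]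
    exact c9_ext1 hf)
  refine h.congr fun x => ?_
  rw [finsum_mem_eq_finite_toFinset_sum _ (nm_fin x), Finset.sum_const, nsmul_eq_mul, mul_one, Set.ncard_eq_toFinset_card _ (nm_fin x)]

theorem c9_main (hf : ∀ (S : Finset (Pr K)) (N : ℕ), (Pray S N).FiniteIndex) (S : Finset (Pr K)) (N : ℕ) (c : Dv K →+ Additive ℂˣ)
    (hn : ∀ v, ‖vl c v‖ = 1) (n : (K →+* ℂ) → ℤ) (hx : ∀ x : K, Ray S N x → (((c (dv x)).toMul : ℂˣ) : ℂ) = ∏ σ : K →+* ℂ, σ x ^ n σ)
    (h1 : ∃ v ∉ S, vl c v ≠ 1) (hL : (∃ v ∉ S, vl c v ^ 2 ≠ 1) ∨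
      ∀ H : ℂ → ℂ, DifferentiableOn ℂ H (HP K) → (∀ s : ℂ, 1 < s.re → H s = Lc (CFTZ.chI S c) s) → H 1 ≠ 0) :
    Tendsto (fun x : ℕ => (∑ᶠ v ∈ {v : Pr K | Nm v ≤ x}, vl c v) / (Nat.primeCounting x : ℂ)) atTop (𝓝 0) := by
  obtain ⟨H, hH, hLc⟩ := c9_ent hf S N c hn n hx h1
  have hne : ∀ s : ℂ, 1 ≤ s.re → H s ≠ 0 := by
    refine c9_re (fun s hs => ?_) fun t => ?_
    · rw [hLc s hs]
      exact c9_exp _ (c9_le S hn) hs
    · rcases hL with h2 | h2
      · exact c9_nv hf S N c hn n hx hH hLc t (Or.inl h2)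
      · by_cases ht : t = 0
        · rw [ht, Complex.ofReal_zero, zero_mul, add_zero]
          exact h2 H hH hLc
        · exact c9_nv hf S N c hn n hx hH hLc t (Or.inr ht)
  have h3 := ext_of (CFTZ.chI S c) (c9_le S hn) 0 y30b_open c9_sub hH (fun s hs => by rw [hLc s hs, pow_zero, one_mul]) hne
  rw [Nat.cast_zero] at h3
  refine change_S S (w := pr (CFTZ.chI S c)) (fun v hv => c9_pr c hv) (mean_zero (fun v => c9_le S hn _) (c9_ext1 hf) h3)


/-- (C2) All nontrivial characters, if the L-function does not vanish at 1. -/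
theorem hecke_c2 (hf : ∀ (S : Finset (Pr K)) (N : ℕ), (Pray S N).FiniteIndex) (S : Finset (Pr K)) (N : ℕ) (c : Dv K →+ Additive ℂˣ)
    (hn : ∀ v, ‖vl c v‖ = 1) (n : (K →+* ℂ) → ℤ) (hx : ∀ x : K, Ray S N x → (((c (dv x)).toMul : ℂˣ) : ℂ) = ∏ σ : K →+* ℂ, σ x ^ n σ)
    (h1 : ∃ v ∉ S, vl c v ≠ 1) (hL : ∀ H : ℂ → ℂ, DifferentiableOn ℂ H (HP K) → (∀ s : ℂ, 1 < s.re → H s = Lc (CFTZ.chI S c) s) → H 1 ≠ 0) :
    Tendsto (fun x : ℕ => (∑ᶠ v ∈ {v : Pr K | Nm v ≤ x}, vl c v) / (Nat.primeCounting x : ℂ)) atTop (𝓝 0) :=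
  c9_main hf S N c hn n hx h1 (Or.inr hL)

end CFTC
end

-- from Lib.CFT.L11
section

/-! # CFT, module ZL, L11: the prime ideal theorem in ray classes (natural density) -/

open NumberField IsDedekindDomain Filter Topology

namespace CFTL

open CFT CFTY CFTZ H55R

variable {K : Type} [Field K] [NumberField K]

theorem ne_outside (S : Finset (Pr K)) (N : ℕ) (χ : Dv K →+ Additive ℂˣ) (hχ : ∀ D ∈ Pray S N, χ D = 0) (h1 : χ ≠ 0) :
    ∃ v ∉ S, CFTC.vl χ v ≠ 1 := by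
  obtain ⟨v, hv⟩ : ∃ v : Pr K, cphi χ v ≠ 1 := by
    by_contra hcon
    push Not at hcon
    apply h1
    apply chi_ext
    intro v
    rw [hcon v]
    rfl
  refine ⟨v, fun h => ?_, fun h => hv (Units.ext h)⟩
  apply hv
  have h2 : χ (Finsupp.single v 1) = 0 := by
    refine hχ _ (supp_mem_Pray N fun w hw => ?_)
    refine Finsupp.single_eq_of_ne ?_
    rintro rfl
    exact hw h
  unfold cphi
  rw [h2, toMul_zero]

theorem mean_chi (hf : ∀ (S : Finset (Pr K)) (N : ℕ), (Pray S N).FiniteIndex) (S : Finset (Pr K)) (N : ℕ)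
    (H : AddSubgroup (Dv K)) (hH : Pray S N ≤ H) [Fintype (Dv K ⧸ H)] (ψ : AddChar (Dv K ⧸ H) ℂ) :
    Tendsto (fun x : ℕ => (∑ᶠ v ∈ {v : Pr K | Nm v ≤ x}, CFTC.vl (chq H ψ) v) / (Nat.primeCounting x : ℂ)) atTop
      (𝓝 (if ψ = 0 then 1 else 0)) := by
  classical
  by_cases hψ : ψ = 0
  · rw [if_pos hψ]
    have h1 := CFTC.pit hf
    have h2 : Tendsto (fun x : ℕ => (((Set.ncard {v : Pr K | Nm v ≤ x} : ℝ) / (Nat.primeCounting x : ℝ) : ℝ) : ℂ)) atTop (𝓝 ((1 : ℝ) : ℂ)) :=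
      (Complex.continuous_ofReal.tendsto _).comp h1
    rw [Complex.ofReal_one] at h2
    refine h2.congr fun x => ?_
    rw [finsum_mem_eq_finite_toFinset_sum _ (CFTC.nm_fin x)]
    have h3 : ∀ v ∈ (CFTC.nm_fin (K := K) x).toFinset, CFTC.vl (chq H ψ) v = 1 := by
      intro v _
      rw [hψ]
      rfl
    rw [Finset.sum_congr rfl h3, Finset.sum_const, nsmul_eq_mul, mul_one, Set.ncard_eq_toFinset_card _ (CFTC.nm_fin x)]
    push_cast
    rfl
  · rw [if_neg hψ]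
    refine CFTC.hecke_c2 hf S N (chq H ψ) (chq_norm H ψ) (fun _ => 0) (fun x hx => ?_)
      (ne_outside S N _ (fun D hD => chq_ker H ψ (hH hD)) (chq_ne H hψ)) fun G hG1 hG2 => ?_
    · rw [chq_ker H ψ (hH (dv_mem_Pray hx)), toMul_zero, Units.val_one]
      simp
    · exact nonvan hf S N (chq H ψ) (fun D hD => chq_ker H ψ (hH hD)) (chq_ne H hψ) G hG1 hG2

/-- The prime ideal theorem in ray classes. -/
theorem nat_dens (hf : ∀ (S : Finset (Pr K)) (N : ℕ), (Pray S N).FiniteIndex) (S : Finset (Pr K)) (N : ℕ)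
    (H : AddSubgroup (Dv K)) (hH : Pray S N ≤ H) [H.FiniteIndex] (D : Dv K) :
    Tendsto (fun x : ℕ => (Set.ncard {v : Pr K | Nm v ≤ x ∧ v ∉ S ∧ Finsupp.single v 1 - D ∈ H} : ℝ) / (Nat.primeCounting x : ℝ))
      atTop (𝓝 (1 / (H.index : ℝ))) := by
  classical
  have := AddSubgroup.finite_quotient_of_finiteIndex (H := H)
  have := Fintype.ofFinite (Dv K ⧸ H)
  set g : ℕ := Nat.card (Dv K ⧸ H) with hg
  have hg0 : (0 : ℝ) < g := by exact_mod_cast Nat.card_pos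
  have hidx : H.index = g := rfl
  set F : ℕ → Finset (Pr K) := fun x => (CFTC.nm_fin (K := K) x).toFinset with hF
  -- the sum over all characters
  have h1 : Tendsto (fun x : ℕ => ∑ ψ : AddChar (Dv K ⧸ H) ℂ, ψ (QuotientAddGroup.mk (-D)) *
      ((∑ᶠ v ∈ {v : Pr K | Nm v ≤ x}, CFTC.vl (chq H ψ) v) / (Nat.primeCounting x : ℂ))) atTop
      (𝓝 (∑ ψ : AddChar (Dv K ⧸ H) ℂ, ψ (QuotientAddGroup.mk (-D)) * (if ψ = 0 then 1 else 0))) :=
    tendsto_finset_sum _ fun ψ _ => (mean_chi hf S N H hH ψ).const_mul _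
  have h2 : ∑ ψ : AddChar (Dv K ⧸ H) ℂ, ψ (QuotientAddGroup.mk (-D)) * (if ψ = 0 then 1 else 0) = 1 := by
    rw [Finset.sum_eq_single (0 : AddChar (Dv K ⧸ H) ℂ)]
    · rw [if_pos rfl, AddChar.zero_apply, one_mul]
    · intro ψ _ hψ
      rw [if_neg hψ, mul_zero]
    · intro h
      exact absurd (Finset.mem_univ _) h
  rw [h2] at h1
  have h3 : ∀ x : ℕ, ∑ ψ : AddChar (Dv K ⧸ H) ℂ, ψ (QuotientAddGroup.mk (-D)) *
      ((∑ᶠ v ∈ {v : Pr K | Nm v ≤ x}, CFTC.vl (chq H ψ) v) / (Nat.primeCounting x : ℂ)) =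
      (((g : ℝ) * ((((F x).filter fun v => (Finsupp.single v 1 : Dv K) - D ∈ H).card : ℝ) / (Nat.primeCounting x : ℝ)) : ℝ) : ℂ) := by
    intro x
    have e1 : ∀ ψ : AddChar (Dv K ⧸ H) ℂ, ψ (QuotientAddGroup.mk (-D)) *
        ((∑ᶠ v ∈ {v : Pr K | Nm v ≤ x}, CFTC.vl (chq H ψ) v) / (Nat.primeCounting x : ℂ)) =
        (∑ v ∈ F x, ψ (QuotientAddGroup.mk ((Finsupp.single v 1 : Dv K) - D))) / (Nat.primeCounting x : ℂ) := by
      intro ψ
      rw [finsum_mem_eq_finite_toFinset_sum _ (CFTC.nm_fin x), ← mul_div_assoc, Finset.mul_sum]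
      congr 1
      refine Finset.sum_congr rfl fun v _ => ?_
      have e2 : CFTC.vl (chq H ψ) v = ψ (QuotientAddGroup.mk (Finsupp.single v 1)) := rfl
      rw [e2, ← AddChar.map_add_eq_mul, ← QuotientAddGroup.mk_add, neg_add_eq_sub]
    rw [Finset.sum_congr rfl fun ψ _ => e1 ψ, ← Finset.sum_div, Finset.sum_comm]
    have e3 : ∀ v ∈ F x, ∑ ψ : AddChar (Dv K ⧸ H) ℂ, ψ (QuotientAddGroup.mk ((Finsupp.single v 1 : Dv K) - D)) =
        if (Finsupp.single v 1 : Dv K) - D ∈ H then (g : ℂ) else 0 := by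
      intro v _
      rw [AddChar.sum_apply_eq_ite]
      by_cases h : (Finsupp.single v 1 : Dv K) - D ∈ H
      · rw [if_pos ((QuotientAddGroup.eq_zero_iff _).2 h), if_pos h, hg, Nat.card_eq_fintype_card]
      · rw [if_neg fun h' => h ((QuotientAddGroup.eq_zero_iff _).1 h'), if_neg h]
    rw [Finset.sum_congr rfl e3, ← Finset.sum_filter, Finset.sum_const, nsmul_eq_mul]
    push_cast
    ring
  have h4 : Tendsto (fun x : ℕ => (g : ℝ) * ((((F x).filter fun v => (Finsupp.single v 1 : Dv K) - D ∈ H).card : ℝ) / (Nat.primeCounting x : ℝ)))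
      atTop (𝓝 1) := by
    have e1 := (Complex.continuous_re.tendsto _).comp h1
    rw [Complex.one_re] at e1
    refine e1.congr fun x => ?_
    show (∑ ψ : AddChar (Dv K ⧸ H) ℂ, ψ (QuotientAddGroup.mk (-D)) *
      ((∑ᶠ v ∈ {v : Pr K | Nm v ≤ x}, CFTC.vl (chq H ψ) v) / (Nat.primeCounting x : ℂ))).re = _
    rw [h3 x, Complex.ofReal_re]
  have h5 : Tendsto (fun x : ℕ => (((F x).filter fun v => (Finsupp.single v 1 : Dv K) - D ∈ H).card : ℝ) / (Nat.primeCounting x : ℝ))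
      atTop (𝓝 (1 / (g : ℝ))) := by
    have e1 := h4.const_mul (1 / (g : ℝ))
    rw [mul_one] at e1
    refine e1.congr fun x => ?_
    field_simp
  have hπ : Tendsto (fun x : ℕ => ((Nat.primeCounting x : ℝ))⁻¹) atTop (𝓝 0) :=
    tendsto_inv_atTop_zero.comp (tendsto_natCast_atTop_atTop.comp Nat.tendsto_primeCounting)
  have h6 : Tendsto (fun x : ℕ => (S.card : ℝ) * ((Nat.primeCounting x : ℝ))⁻¹) atTop (𝓝 0) := by
    have := hπ.const_mul (S.card : ℝ)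
    rwa [mul_zero] at this
  have h7 := h5.sub h6
  rw [sub_zero] at h7
  rw [hidx]
  refine tendsto_of_tendsto_of_tendsto_of_le_of_le h7 h5 (fun x => ?_) fun x => ?_
  · show (((F x).filter fun v => (Finsupp.single v 1 : Dv K) - D ∈ H).card : ℝ) / (Nat.primeCounting x : ℝ) -
      (S.card : ℝ) * ((Nat.primeCounting x : ℝ))⁻¹ ≤ _
    rw [← div_eq_mul_inv, ← sub_div]
    refine div_le_div_of_nonneg_right ?_ (Nat.cast_nonneg _)
    have e1 : {v : Pr K | Nm v ≤ x ∧ v ∉ S ∧ Finsupp.single v 1 - D ∈ H} =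
        (((F x).filter fun v => (Finsupp.single v 1 : Dv K) - D ∈ H) \ S : Finset (Pr K)) := by
      ext v
      simp only [Set.mem_setOf_eq, Finset.coe_sdiff, Finset.coe_filter, Set.mem_diff, Finset.mem_coe, hF, Set.Finite.mem_toFinset]
      tauto
    rw [e1, Set.ncard_coe_finset]
    have e3 : ((F x).filter fun v => (Finsupp.single v 1 : Dv K) - D ∈ H).card ≤
        (((F x).filter fun v => (Finsupp.single v 1 : Dv K) - D ∈ H) \ S).card + S.card :=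
      tsub_le_iff_right.1 (Finset.le_card_sdiff S ((F x).filter fun v => (Finsupp.single v 1 : Dv K) - D ∈ H))
    have e4 : (((F x).filter fun v => (Finsupp.single v 1 : Dv K) - D ∈ H).card : ℝ) ≤
        (((F x).filter fun v => (Finsupp.single v 1 : Dv K) - D ∈ H) \ S).card + S.card := by exact_mod_cast e3
    linarith
  · show (Set.ncard {v : Pr K | Nm v ≤ x ∧ v ∉ S ∧ Finsupp.single v 1 - D ∈ H} : ℝ) / (Nat.primeCounting x : ℝ) ≤ _
    refine div_le_div_of_nonneg_right ?_ (Nat.cast_nonneg _)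
    rw [← Set.ncard_coe_finset ((F x).filter fun v => (Finsupp.single v 1 : Dv K) - D ∈ H)]
    have e2 : Set.ncard {v : Pr K | Nm v ≤ x ∧ v ∉ S ∧ Finsupp.single v 1 - D ∈ H} ≤
        Set.ncard (((F x).filter fun v => (Finsupp.single v 1 : Dv K) - D ∈ H : Finset (Pr K)) : Set (Pr K)) := by
      refine Set.ncard_le_ncard (fun v hv => ?_) (Finset.finite_toSet _)
      rw [Finset.mem_coe, Finset.mem_filter, hF, Set.Finite.mem_toFinset]
      exact ⟨hv.1, hv.2.2⟩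
    exact_mod_cast e2


end CFTL
end

-- from Lib.CFTC.C10
section

/-! # CFT module C, file C10: quadratic extensions (by counting), final forms without the hypothesis on the ray class groups

quad: L/K quadratic, S contains the ramified primes, w v = 1 if the Frobenius element is 1 and -1 otherwise, for v not in S: mean value 0. -/

open NumberField IsDedekindDomain Complex Filter Topology

namespace CFTC

open CFT CFTY CFTZ

section count

variable {K : Type} [Field K] [NumberField K] {L : Type} [Field L] [NumberField L] [Algebra K L]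










end count

theorem c10_ppos {n : ℕ} (hn : 2 ≤ n) : 0 < Nat.primeCounting n := by
  have h1 : Nat.primeCounting 2 ≤ Nat.primeCounting n := Nat.monotone_primeCounting hn
  have h2 : Nat.primeCounting 2 = 1 := by decide
  omega



theorem c10_sqrt : Tendsto (fun x : ℕ => (Nat.sqrt x : ℝ) / (Nat.primeCounting x : ℝ)) atTop (𝓝 0) := by
  have h1 := Pool.Agent.Lib.PNT.primeCounting_nat_tendsto.inv₀ one_ne_zero
  have h2 : Tendsto (fun n : ℕ => Real.log n / (n : ℝ) ^ (1 / 2 : ℝ)) atTop (𝓝 0) :=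
    ((isLittleO_log_rpow_atTop (by norm_num : (0 : ℝ) < 1 / 2)).tendsto_div_nhds_zero).comp tendsto_natCast_atTop_atTop
  have h3 := h1.mul h2
  rw [inv_one, one_mul] at h3
  refine squeeze_zero' (Eventually.of_forall fun x => by positivity) ?_ h3
  filter_upwards [eventually_ge_atTop 2] with n hn
  have hn0 : (0 : ℝ) < n := by
    have : 0 < n := by omega
    exact_mod_cast this
  have hl : 0 < Real.log n := Real.log_pos (by exact_mod_cast (by omega : 1 < n))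
  have hp : 0 < (Nat.primeCounting n : ℝ) := by
    have : 0 < Nat.primeCounting n := c10_ppos hn
    exact_mod_cast this
  have h4 : ((Nat.primeCounting n : ℝ) * Real.log n / n)⁻¹ * (Real.log n / (n : ℝ) ^ (1 / 2 : ℝ)) = (n : ℝ) ^ (1 / 2 : ℝ) / Nat.primeCounting n := by
    have h5 : (n : ℝ) = (n : ℝ) ^ (1 / 2 : ℝ) * (n : ℝ) ^ (1 / 2 : ℝ) := by
      rw [← Real.rpow_add hn0]
      norm_num
    have h6 : (n : ℝ) ^ (1 / 2 : ℝ) ≠ 0 := (Real.rpow_pos_of_pos hn0 _).ne'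
    have h7 : ((Nat.primeCounting n : ℝ) * Real.log n / n)⁻¹ = n / ((Nat.primeCounting n : ℝ) * Real.log n) := by
      rw [inv_div]
    rw [h7]
    have h8 : (n : ℝ) / ((Nat.primeCounting n : ℝ) * Real.log n) * (Real.log n / (n : ℝ) ^ (1 / 2 : ℝ)) =
        (n : ℝ) / (n : ℝ) ^ (1 / 2 : ℝ) / Nat.primeCounting n := by
      field_simp
    rw [h8]
    congr 1
    rw [div_eq_iff h6]
    exact h5
  rw [h4]
  refine div_le_div_of_nonneg_right ?_ hp.le
  rw [← Real.sqrt_eq_rpow]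
  exact Real.nat_sqrt_le_real_sqrt

section fin

variable {K : Type} [Field K] [NumberField K] {L : Type} [Field L] [NumberField L] [Algebra K L]







end fin

end CFTC
end

-- from Lib.CHEB.C3
section

/-! # Chebotarev density theorem, part 3: the density for cyclic extensions (Artin reciprocity and the prime ideal theorem in ray classes) -/

open NumberField IsDedekindDomain Filter Topology

namespace CHEB

open CFT

set_option linter.unusedSectionVars false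
set_option linter.style.haveILetI false

variable {E : Type} [Field E] [NumberField E] {L : Type} [Field L] [NumberField L] [Algebra E L]

/-- The density of the primes with a given Frobenius element, for an abelian group generated by one element. -/
theorem dens_cyc [IsGalois E L] {σE : L ≃ₐ[E] L} (hgen : ∀ g : L ≃ₐ[E] L, g ∈ Subgroup.zpowers σE) (S : Finset (Pr E))
    (hS : ∀ v : Pr E, ¬ Unr E L v → v ∈ S) :
    Tendsto (fun x : ℕ => (Set.ncard {w : Pr E | Nm w ≤ x ∧ w ∉ S ∧ frob E L w = σE} : ℝ) / (Nat.primeCounting x : ℝ))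
      atTop (𝓝 (1 / (orderOf σE : ℝ))) := by
  classical
  have hab := hab_of_gen hgen
  letI : CommGroup (L ≃ₐ[E] L) := { (inferInstance : Group (L ≃ₐ[E] L)) with mul_comm := hab }
  obtain ⟨N, hN⟩ := artin E L hab S hS
  obtain ⟨φ, hφ⟩ : ∃ φ : Dv E →+ Additive (L ≃ₐ[E] L), φ = art S (MonoidHom.id (L ≃ₐ[E] L)) := ⟨_, rfl⟩
  have hφ1 : ∀ w : Pr E, w ∉ S → φ (Finsupp.single w 1) = Additive.ofMul (frob E L w) := by
    intro w hw
    rw [hφ, art_single_of_notMem _ hw, one_zsmul]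
    rfl
  have hsurj : ∀ s : L ≃ₐ[E] L, ∃ D : Dv E, φ D = Additive.ofMul s := by
    intro s
    have h1 : s ∈ Subgroup.closure {s : L ≃ₐ[E] L | ∃ v : Pr E, v ∉ S ∧ Unr E L v ∧ frob E L v = s} := by
      rw [frob_gen E L hab S]
      exact Subgroup.mem_top _
    induction h1 using Subgroup.closure_induction with
    | mem s hs =>
      obtain ⟨v, hv, _, rfl⟩ := hs
      exact ⟨Finsupp.single v 1, hφ1 v hv⟩
    | one => exact ⟨0, map_zero φ⟩
    | mul a b _ _ ha hb =>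
      obtain ⟨D1, h1⟩ := ha
      obtain ⟨D2, h2⟩ := hb
      exact ⟨D1 + D2, by rw [map_add, h1, h2]; rfl⟩
    | inv a _ ha =>
      obtain ⟨D1, h1⟩ := ha
      exact ⟨-D1, by rw [map_neg, h1]; rfl⟩
  have hrange : φ.range = ⊤ := by
    rw [AddMonoidHom.range_eq_top]
    intro s
    exact hsurj s
  have hidx : φ.ker.index = orderOf σE := by
    rw [AddSubgroup.index_ker, hrange, AddSubgroup.card_top]
    exact (orderOf_eq_card_of_forall_mem_zpowers hgen).symm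
  have hpos : 0 < orderOf σE := orderOf_pos _
  have hfi : φ.ker.FiniteIndex := ⟨by rw [hidx]; exact hpos.ne'⟩
  have hker : Pray S N ≤ φ.ker := by
    rintro D ⟨x, hx, hD⟩
    rw [AddMonoidHom.mem_ker, hφ, art_congr S _ (E := dv x) hD]
    exact hN _ _ _ hx
  obtain ⟨D, hD⟩ := hsurj σE
  have hmain := CFTL.nat_dens (fun S N => pray_fin E S N) S N φ.ker hker D
  rw [hidx] at hmain
  refine hmain.congr fun x => ?_
  congr 3
  ext w
  constructor
  · rintro ⟨h1, h2, h3⟩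
    refine ⟨h1, h2, ?_⟩
    rw [AddMonoidHom.mem_ker, map_sub, sub_eq_zero, hφ1 w h2, hD] at h3
    exact Additive.ofMul.injective h3
  · rintro ⟨h1, h2, h3⟩
    refine ⟨h1, h2, ?_⟩
    rw [AddMonoidHom.mem_ker, map_sub, sub_eq_zero, hφ1 w h2, hD, h3]

/-- Few primes have smallest prime factor of the norm at most y. -/
theorem card_le' (Φ : Finset (Pr E)) (y : ℕ) (h : ∀ v ∈ Φ, (Nm v).minFac ≤ y) : Φ.card ≤ Pool.Agent.SZ.dg E * (y + 1) := by
  classical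
  have hmaps : ∀ v ∈ Φ, (Nm v).minFac ∈ Finset.range (y + 1) := by
    intro v hv
    rw [Finset.mem_range]
    have h2 := h v hv
    omega
  rw [Finset.card_eq_sum_card_fiberwise hmaps]
  calc ∑ ℓ ∈ Finset.range (y + 1), (Φ.filter fun v => (Nm v).minFac = ℓ).card
      ≤ ∑ ℓ ∈ Finset.range (y + 1), Pool.Agent.SZ.dg E := by
        refine Finset.sum_le_sum fun ℓ _ => ?_
        have h1 := Pool.Agent.SZ.e27_card ((Φ.filter fun v => (Nm v).minFac = ℓ).image fun v : Pr E => v.asIdeal) (by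
          intro p hp
          rw [Finset.mem_image] at hp
          obtain ⟨v, _, rfl⟩ := hp
          exact ⟨v.isPrime, v.ne_bot⟩) ℓ (by
          intro p hp
          rw [Finset.mem_image] at hp
          obtain ⟨v, hv, rfl⟩ := hp
          rw [Finset.mem_filter] at hv
          exact hv.2)
        rwa [Finset.card_image_of_injective _ Pool.Agent.SZ.Asm.asIdeal_inj] at h1
    _ = Pool.Agent.SZ.dg E * (y + 1) := by
        rw [Finset.sum_const, Finset.card_range, smul_eq_mul, mul_comm]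

variable {K : Type} [Field K] [NumberField K] [Algebra K E] [Algebra K L] [IsScalarTower K E L]

theorem minFac_le_of_ne {w : Pr E} {x : ℕ} (hx : Nm w ≤ x) (h : Nm w ≠ Nm (below K w)) : (Nm w).minFac ≤ Nat.sqrt x := by
  have h1 := Nm_below (K := K) w
  have h2 := f_pos (K := K) w
  have h3 : w.asIdeal.inertiaDeg (𝓞 K) ≠ 1 := by
    intro h3
    rw [h3, pow_one] at h1
    exact h h1
  have h4 := two_le_Nm (below K w)
  rw [Nat.le_sqrt']
  rw [h1, Nat.pow_minFac h2.ne']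
  refine le_trans ?_ hx
  rw [h1]
  calc (Nm (below K w)).minFac ^ 2 ≤ Nm (below K w) ^ 2 := Nat.pow_le_pow_left (Nat.minFac_le (by omega)) 2
    _ ≤ Nm (below K w) ^ w.asIdeal.inertiaDeg (𝓞 K) := Nat.pow_le_pow_right (by omega) (by omega)

/-- The density of the set `C`. -/
theorem dens_C [IsGalois K L] [IsGalois E L] {σE : L ≃ₐ[E] L} (hgen : ∀ g : L ≃ₐ[E] L, g ∈ Subgroup.zpowers σE) :
    Tendsto (fun x : ℕ => (Set.ncard {w : Pr E | Nm w ≤ x ∧ Unr K L (below K w) ∧ Nm w = Nm (below K w) ∧ frob E L w = σE} : ℝ) /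
      (Nat.primeCounting x : ℝ)) atTop (𝓝 (1 / (orderOf σE : ℝ))) := by
  classical
  -- the finite set of bad primes
  have hbad : {w : Pr E | ¬ Unr K L (below K w)}.Finite := by
    have h1 : {v : Pr K | ¬ Unr K L v}.Finite := unr_fin
    refine (Set.Finite.biUnion h1 fun v _ => below_fin K E v).subset ?_
    intro w hw
    rw [Set.mem_iUnion₂]
    exact ⟨below K w, hw, rfl⟩
  obtain ⟨S, hS⟩ : ∃ S : Finset (Pr E), S = hbad.toFinset := ⟨_, rfl⟩
  have hSmem : ∀ w : Pr E, w ∈ S ↔ ¬ Unr K L (below K w) := by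
    intro w
    rw [hS, Set.Finite.mem_toFinset]
    rfl
  have hSunr : ∀ w : Pr E, ¬ Unr E L w → w ∈ S := by
    intro w hw
    rw [hSmem]
    intro h
    exact hw ((unr_tower K E L h).2 _ rfl)
  have h1 := dens_cyc hgen S hSunr
  have h2 : Tendsto (fun x : ℕ => (Pool.Agent.SZ.dg E : ℝ) * ((Nat.sqrt x : ℝ) / (Nat.primeCounting x : ℝ) + ((Nat.primeCounting x : ℝ))⁻¹))
      atTop (𝓝 0) := by
    have e1 : Tendsto (fun x : ℕ => ((Nat.primeCounting x : ℝ))⁻¹) atTop (𝓝 0) :=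
      tendsto_inv_atTop_zero.comp (tendsto_natCast_atTop_atTop.comp Nat.tendsto_primeCounting)
    have e2 := (CFTC.c10_sqrt.add e1).const_mul (Pool.Agent.SZ.dg E : ℝ)
    rwa [add_zero, mul_zero] at e2
  have h3 := h1.sub h2
  rw [sub_zero] at h3
  refine tendsto_of_tendsto_of_tendsto_of_le_of_le h3 h1 (fun x => ?_) fun x => ?_
  · show (Set.ncard {w : Pr E | Nm w ≤ x ∧ w ∉ S ∧ frob E L w = σE} : ℝ) / (Nat.primeCounting x : ℝ) -
      (Pool.Agent.SZ.dg E : ℝ) * ((Nat.sqrt x : ℝ) / (Nat.primeCounting x : ℝ) + ((Nat.primeCounting x : ℝ))⁻¹) ≤ _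
    have e0 : (Pool.Agent.SZ.dg E : ℝ) * ((Nat.sqrt x : ℝ) / (Nat.primeCounting x : ℝ) + ((Nat.primeCounting x : ℝ))⁻¹) =
        ((Pool.Agent.SZ.dg E * (Nat.sqrt x + 1) : ℕ) : ℝ) / (Nat.primeCounting x : ℝ) := by
      push_cast
      rw [← one_div, ← add_div, mul_div_assoc]
    rw [e0, ← sub_div]
    refine div_le_div_of_nonneg_right ?_ (Nat.cast_nonneg _)
    have hfin : {w : Pr E | Nm w ≤ x}.Finite := CFTC.nm_fin x
    have hfD : {w : Pr E | Nm w ≤ x ∧ Nm w ≠ Nm (below K w)}.Finite := hfin.subset fun w hw => hw.1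
    have hfC : {w : Pr E | Nm w ≤ x ∧ Unr K L (below K w) ∧ Nm w = Nm (below K w) ∧ frob E L w = σE}.Finite :=
      hfin.subset fun w hw => hw.1
    have e1 : {w : Pr E | Nm w ≤ x ∧ w ∉ S ∧ frob E L w = σE} ⊆
        {w : Pr E | Nm w ≤ x ∧ Unr K L (below K w) ∧ Nm w = Nm (below K w) ∧ frob E L w = σE} ∪
          {w : Pr E | Nm w ≤ x ∧ Nm w ≠ Nm (below K w)} := by
      rintro w ⟨h1, h2, h3⟩
      rw [hSmem, not_not] at h2
      by_cases h4 : Nm w = Nm (below K w)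
      · exact Or.inl ⟨h1, h2, h4, h3⟩
      · exact Or.inr ⟨h1, h4⟩
    have e2 := (Set.ncard_le_ncard e1 (hfC.union hfD)).trans (Set.ncard_union_le _ _)
    have e3 : Set.ncard {w : Pr E | Nm w ≤ x ∧ Nm w ≠ Nm (below K w)} ≤ Pool.Agent.SZ.dg E * (Nat.sqrt x + 1) := by
      rw [Set.ncard_eq_toFinset_card _ hfD]
      apply card_le'
      intro w hw
      rw [Set.Finite.mem_toFinset] at hw
      exact minFac_le_of_ne hw.1 hw.2
    have e4 : (Set.ncard {w : Pr E | Nm w ≤ x ∧ w ∉ S ∧ frob E L w = σE} : ℝ) ≤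
        Set.ncard {w : Pr E | Nm w ≤ x ∧ Unr K L (below K w) ∧ Nm w = Nm (below K w) ∧ frob E L w = σE} +
          ((Pool.Agent.SZ.dg E * (Nat.sqrt x + 1) : ℕ) : ℝ) := by
      exact_mod_cast e2.trans (Nat.add_le_add_left e3 _)
    linarith
  · show (Set.ncard {w : Pr E | Nm w ≤ x ∧ Unr K L (below K w) ∧ Nm w = Nm (below K w) ∧ frob E L w = σE} : ℝ) /
      (Nat.primeCounting x : ℝ) ≤ _
    refine div_le_div_of_nonneg_right ?_ (Nat.cast_nonneg _)
    have e1 : Set.ncard {w : Pr E | Nm w ≤ x ∧ Unr K L (below K w) ∧ Nm w = Nm (below K w) ∧ frob E L w = σE} ≤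
        Set.ncard {w : Pr E | Nm w ≤ x ∧ w ∉ S ∧ frob E L w = σE} := by
      refine Set.ncard_le_ncard ?_ ((CFTC.nm_fin x).subset fun w hw => hw.1)
      rintro w ⟨h1, h2, _, h4⟩
      exact ⟨h1, by rw [hSmem, not_not]; exact h2, h4⟩
    exact_mod_cast e1

end CHEB
end

-- from Lib.CHEB.Main
section

/-! # CHEBOTAREV DENSITY THEOREM (natural density, all Galois extensions of number fields)

`CHEB.FrAt K W s` (C1.lean): `s • x ≡ x ^ Nm (below K W) mod W` for all `x` in the ring of integers of `L` (`s` is the Frobenius element at the prime `W` of `L`).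
`CFT.chebotarev`: the primes `v` of `K` which are unramified in `L` and have a prime `W` above them with Frobenius element `σ` have
natural density (number of conjugates of `σ`) / (order of the Galois group). -/

open NumberField IsDedekindDomain Filter Topology

namespace CHEB

open CFT

set_option linter.unusedSectionVars false
set_option linter.style.haveILetI false

variable {K : Type} [Field K] [NumberField K] {L : Type} [Field L] [NumberField L] [Algebra K L]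

/-- Chebotarev, with the centralizer. -/
theorem cheb_centralizer [IsGalois K L] (σ : L ≃ₐ[K] L) :
    Tendsto (fun x : ℕ => (Set.ncard {v : Pr K | Nm v ≤ x ∧ Unr K L v ∧ ∃ W : Pr L, below K W = v ∧ FrAt K W σ} : ℝ) /
      (Nat.primeCounting x : ℝ)) atTop (𝓝 (1 / (Nat.card (Subgroup.centralizer {σ}) : ℝ))) := by
  classical
  obtain ⟨E, hE⟩ : ∃ E : IntermediateField K L, E = IntermediateField.fixedField (Subgroup.zpowers σ) := ⟨_, rfl⟩
  have hNF : NumberField E := NumberField.of_module_finite K E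
  have hfix : E.fixingSubgroup = Subgroup.zpowers σ := by
    rw [hE]
    exact IntermediateField.fixingSubgroup_fixedField _
  have hGal : IsGalois E L := inferInstance
  have hσ : σ ∈ E.fixingSubgroup := by
    rw [hfix]
    exact Subgroup.mem_zpowers σ
  obtain ⟨σE, hσE0⟩ : ∃ σE : L ≃ₐ[E] L, σE = IntermediateField.fixingSubgroupEquiv E ⟨σ, hσ⟩ := ⟨_, rfl⟩
  have hσE : ∀ x : L, σE x = σ x := by
    intro x
    rw [hσE0]
    rfl
  have hgen : ∀ g : L ≃ₐ[E] L, g ∈ Subgroup.zpowers σE := by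
    intro g
    obtain ⟨⟨s, hs⟩, rfl⟩ := (IntermediateField.fixingSubgroupEquiv E).surjective g
    have hs' := hs
    rw [hfix, Subgroup.mem_zpowers_iff] at hs'
    obtain ⟨k, rfl⟩ := hs'
    rw [Subgroup.mem_zpowers_iff]
    refine ⟨k, ?_⟩
    rw [hσE0, ← map_zpow]
    rfl
  have hord : orderOf σE = orderOf σ := by
    rw [hσE0, MulEquiv.orderOf_eq]
    exact Subgroup.orderOf_mk _ _
  have h1 := dens_C (K := K) hgen
  rw [hord] at h1
  have hpos : (0 : ℝ) < orderOf σ := by exact_mod_cast orderOf_pos σ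
  have hcpos : (0 : ℝ) < Nat.card (Subgroup.centralizer {σ}) := by exact_mod_cast Nat.card_pos
  have h2 := h1.const_mul ((orderOf σ : ℝ) / (Nat.card (Subgroup.centralizer {σ}) : ℝ))
  have e1 : (orderOf σ : ℝ) / (Nat.card (Subgroup.centralizer {σ}) : ℝ) * (1 / (orderOf σ : ℝ)) =
      1 / (Nat.card (Subgroup.centralizer {σ}) : ℝ) := by
    field_simp
  rw [e1] at h2
  refine h2.congr fun x => ?_
  have h3 := ncard_A (L := L) σ x (CFTC.nm_fin x)
  rw [ncard_B hσE hgen x] at h3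
  have h4 : (Set.ncard {w : Pr E | Nm w ≤ x ∧ Unr K L (below K w) ∧ Nm w = Nm (below K w) ∧ frob E L w = σE} : ℝ) * orderOf σ =
      (Set.ncard {v : Pr K | Nm v ≤ x ∧ Unr K L v ∧ ∃ W : Pr L, below K W = v ∧ FrAt K W σ} : ℝ) *
        Nat.card (Subgroup.centralizer {σ}) := by exact_mod_cast h3
  rw [div_mul_div_comm, mul_comm (orderOf σ : ℝ), h4]
  rw [mul_comm _ (Nat.primeCounting x : ℝ)]
  rw [mul_div_mul_right _ _ hcpos.ne']


end CHEB

namespace CFT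



end CFT
end

-- from Lib.H57N.D1
section

/-! # H57N, chunk D1: primes of degree one with a given Frobenius element -/

open NumberField IsDedekindDomain Filter Topology

namespace H57N

open CFT

/-- Chunk D1 (M). For σ in Gal(L/C) there are infinitely many primes w of C of prime norm with Frobenius element σ. Proof: suppose all w of prime norm with this property are in the finite set S. CHEB.cheb_centralizer (CHEB/Main.lean): the number a(x) of the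
v with Nm v ≤ x, Unr, FrAt σ, divided by π(x) tends to 1/card(centralizer) > 0. But all these v are in S or have Nm v ≤ x, Nm v not prime, so (Nm v).minFac ≤ sqrt x (Nat.minFac_sq_le_self, Nat.le_sqrt'), and CHEB.card_le' (CHEB/C3.lean) bounds their number by
Pool.Agent.SZ.dg C * (sqrt x + 1). So a(x) / π(x) ≤ (S.ncard + dg C (sqrt x + 1)) / π(x) → 0 by CFTC.c10_sqrt (sqrt x / π(x) → 0; see e2 and e3 in the proof of CHEB.dens_C, and h4 in CFT.chebotarev_infinite for the contradiction): contradiction. -/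
theorem d1_cheb (C L : Type) [Field C] [NumberField C] [Field L] [NumberField L] [Algebra C L] [IsGalois C L] (σ : L ≃ₐ[C] L)
    (S : Set (Pr C)) (hS : S.Finite) :
    ∃ w : Pr C, w ∉ S ∧ (Ideal.absNorm w.asIdeal).Prime ∧ ∃ W : Pr L, below C W = w ∧ CHEB.FrAt C W σ := by
  classical
  by_contra hcon
  push Not at hcon
  have h1 := CHEB.cheb_centralizer (K := C) (L := L) σ
  have hπ : Tendsto (fun x : ℕ => ((Nat.primeCounting x : ℝ))⁻¹) atTop (𝓝 0) :=
    tendsto_inv_atTop_zero.comp (tendsto_natCast_atTop_atTop.comp Nat.tendsto_primeCounting)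
  have h2 : Tendsto (fun x : ℕ => (S.ncard : ℝ) * ((Nat.primeCounting x : ℝ))⁻¹ +
      (Pool.Agent.SZ.dg C : ℝ) * ((Nat.sqrt x : ℝ) / (Nat.primeCounting x : ℝ) + ((Nat.primeCounting x : ℝ))⁻¹)) atTop (𝓝 0) := by
    have e2 := (hπ.const_mul (S.ncard : ℝ)).add ((CFTC.c10_sqrt.add hπ).const_mul (Pool.Agent.SZ.dg C : ℝ))
    rwa [add_zero, mul_zero, mul_zero, add_zero] at e2
  have h3 : (1 / (Nat.card (Subgroup.centralizer {σ}) : ℝ)) ≤ 0 := by
    refine le_of_tendsto_of_tendsto' h1 h2 fun x => ?_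
    have e0 : (S.ncard : ℝ) * ((Nat.primeCounting x : ℝ))⁻¹ +
        (Pool.Agent.SZ.dg C : ℝ) * ((Nat.sqrt x : ℝ) / (Nat.primeCounting x : ℝ) + ((Nat.primeCounting x : ℝ))⁻¹) =
        ((S.ncard + Pool.Agent.SZ.dg C * (Nat.sqrt x + 1) : ℕ) : ℝ) / (Nat.primeCounting x : ℝ) := by
      push_cast
      ring
    rw [e0]
    refine div_le_div_of_nonneg_right ?_ (Nat.cast_nonneg _)
    have hfin : {w : Pr C | Nm w ≤ x}.Finite := CFTC.nm_fin x
    have hfD : {w : Pr C | Nm w ≤ x ∧ ¬ (Nm w).Prime}.Finite := hfin.subset fun w hw => hw.1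
    have e1 : {v : Pr C | Nm v ≤ x ∧ Unr C L v ∧ ∃ W : Pr L, below C W = v ∧ CHEB.FrAt C W σ} ⊆
        S ∪ {w : Pr C | Nm w ≤ x ∧ ¬ (Nm w).Prime} := by
      rintro v ⟨h4, _, W, h6, h7⟩
      by_cases h8 : v ∈ S
      · exact Or.inl h8
      · refine Or.inr ⟨h4, fun h9 => ?_⟩
        exact hcon v h8 h9 W h6 h7
    have e2 := (Set.ncard_le_ncard e1 (hS.union hfD)).trans (Set.ncard_union_le _ _)
    have e3 : Set.ncard {w : Pr C | Nm w ≤ x ∧ ¬ (Nm w).Prime} ≤ Pool.Agent.SZ.dg C * (Nat.sqrt x + 1) := by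
      rw [Set.ncard_eq_toFinset_card _ hfD]
      apply CHEB.card_le'
      intro w hw
      rw [Set.Finite.mem_toFinset] at hw
      have h4 := CHEB.two_le_Nm w
      rw [Nat.le_sqrt']
      exact (Nat.minFac_sq_le_self (by omega) hw.2).trans hw.1
    exact_mod_cast e2.trans (Nat.add_le_add_left e3 _)
  have h4 : (0 : ℝ) < Nat.card (Subgroup.centralizer {σ}) := by exact_mod_cast Nat.card_pos
  have h5 := one_div_pos.2 h4
  linarith

end H57N
end

-- from Lib.H57N.D2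
section

/-! # H57N, chunk D2: primes of degree one whose norm is a primitive root modulo l -/

open NumberField IsDedekindDomain

namespace H57N

/-- In a domain R with a primitive l-th root of unity z, if z^a - z^b is in the proper ideal W then a = b mod l or l in W. -/
theorem d2_root {R : Type} [CommRing R] [IsDomain R] (W : Ideal R) {l : ℕ} (hl : l.Prime) {z : R} (hz : IsPrimitiveRoot z l)
    {a b : ℕ} (hab : (a : ZMod l) ≠ (b : ZMod l)) (h : z ^ a - z ^ b ∈ W) : (l : R) ∈ W := by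
  have hl1 : 1 < l := hl.one_lt
  -- u = z ^ (a + (l - 1) * b)
  obtain ⟨u, hu⟩ : ∃ u : R, u = z ^ (a + (l - 1) * b) := ⟨_, rfl⟩
  have hzb : z ^ b * z ^ ((l - 1) * b) = 1 := by
    rw [← pow_add]
    have : b + (l - 1) * b = l * b := by
      obtain ⟨k, rfl⟩ : ∃ k, l = k + 1 := ⟨l - 1, by omega⟩
      rw [Nat.add_sub_cancel]; ring
    rw [this, pow_mul, hz.pow_eq_one, one_pow]
  have hu1 : u - 1 ∈ W := by
    have h1 := W.mul_mem_right (z ^ ((l - 1) * b)) h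
    rw [sub_mul, hzb, ← pow_add, ← hu] at h1
    exact h1
  have hul : u ^ l = 1 := by
    rw [hu, ← pow_mul, mul_comm, pow_mul, hz.pow_eq_one, one_pow]
  have hune : u ≠ 1 := by
    intro h1
    have h2 : z ^ a = z ^ b := by
      have h3 : z ^ a * z ^ ((l - 1) * b) = z ^ b * z ^ ((l - 1) * b) := by
        rw [hzb, ← pow_add, ← hu, h1]
      have h4 : z ^ ((l - 1) * b) ≠ 0 := pow_ne_zero _ (hz.ne_zero (by omega))
      exact mul_right_cancel₀ h4 h3
    apply hab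
    rw [ZMod.natCast_eq_natCast_iff]
    have ho := hz.eq_orderOf
    have h5 : z ^ (a % l) = z ^ (b % l) := by
      have h6 := pow_mod_orderOf z a
      have h7 := pow_mod_orderOf z b
      rw [← ho] at h6 h7
      rw [h6, h7, h2]
    exact hz.pow_inj (Nat.mod_lt _ hl.pos) (Nat.mod_lt _ hl.pos) h5
  have hsum : ∑ i ∈ Finset.range l, u ^ i = 0 := by
    have h1 : (∑ i ∈ Finset.range l, u ^ i) * (u - 1) = 0 := by
      rw [geom_sum_mul, hul, sub_self]
    rcases mul_eq_zero.1 h1 with h2 | h2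
    · exact h2
    · exact absurd (sub_eq_zero.1 h2) hune
  have hq : Ideal.Quotient.mk W u = 1 := by
    have h1 := Ideal.Quotient.eq.2 hu1
    rw [h1, map_one]
  rw [← Ideal.Quotient.eq_zero_iff_mem]
  have h2 := congrArg (Ideal.Quotient.mk W) hsum
  rw [map_sum, map_zero] at h2
  simp only [map_pow, hq, one_pow, Finset.sum_const, Finset.card_range, nsmul_eq_mul, mul_one] at h2
  rw [map_natCast]
  exact h2

theorem d2_key (C B L : Type) [Field C] [NumberField C] [Field B] [NumberField B] [Field L] [NumberField L]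
    [Algebra C L] [Algebra B L] {l : ℕ} [NeZero l] (hl : l.Prime) [IsCyclotomicExtension {l} ℚ B]
    (σ : L ≃ₐ[C] L) (τ : B ≃ₐ[ℚ] B) (hστ : ∀ x : B, σ (algebraMap B L x) = algebraMap B L (τ x))
    (W : HeightOneSpectrum (𝓞 L)) (hW : CHEB.FrAt C W σ) (hl' : (l : 𝓞 C) ∉ (CFT.below C W).asIdeal) :
    ((Ideal.absNorm (CFT.below C W).asIdeal : ℕ) : ZMod l) =
      ((IsCyclotomicExtension.Rat.galEquivZMod l B τ : (ZMod l)ˣ) : ZMod l) := by
  have hζ := IsCyclotomicExtension.zeta_spec l ℚ B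
  obtain ⟨ζ, hζe⟩ : ∃ ζ : B, ζ = IsCyclotomicExtension.zeta l ℚ B := ⟨_, rfl⟩
  rw [← hζe] at hζ
  have hzL : IsPrimitiveRoot (algebraMap B L ζ) l := hζ.map_of_injective (algebraMap B L).injective
  obtain ⟨z, hz⟩ : ∃ z : 𝓞 L, algebraMap (𝓞 L) L z = algebraMap B L ζ :=
    ⟨⟨algebraMap B L ζ, hzL.isIntegral hl.pos⟩, rfl⟩
  have hzp : IsPrimitiveRoot z l := by
    refine IsPrimitiveRoot.of_map_of_injective (f := algebraMap (𝓞 L) L) ?_ (FaithfulSMul.algebraMap_injective (𝓞 L) L)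
    rw [hz]
    exact hzL
  have hval := IsCyclotomicExtension.Rat.galEquivZMod_apply_of_pow_eq l B τ (x := ζ) hζ.pow_eq_one
  obtain ⟨a, ha⟩ : ∃ a : ℕ, a = (IsCyclotomicExtension.Rat.galEquivZMod l B τ).val.val := ⟨_, rfl⟩
  rw [← ha] at hval
  have hσz : σ • z = z ^ a := by
    apply FaithfulSMul.algebraMap_injective (𝓞 L) L
    rw [map_pow, hz, ← map_pow, ← hval, ← hστ, ← hz]
    rfl
  have h1 := hW z
  rw [hσz] at h1
  have hNm : CFT.Nm (CFT.below C W) = Ideal.absNorm (CFT.below C W).asIdeal := rfl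
  rw [hNm] at h1
  by_contra hne
  have h2 : ((a : ℕ) : ZMod l) ≠ ((Ideal.absNorm (CFT.below C W).asIdeal : ℕ) : ZMod l) := by
    intro h3
    apply hne
    rw [← h3, ha, ZMod.natCast_zmod_val]
  have h3 := d2_root W.asIdeal hl hzp h2 h1
  apply hl'
  have h4 : (algebraMap (𝓞 C) (𝓞 L)) (l : 𝓞 C) ∈ W.asIdeal := by
    rw [map_natCast]
    exact h3
  exact h4

theorem d2_fin (C : Type) [Field C] [NumberField C] {l : ℕ} (hl : l ≠ 0) :
    {w : HeightOneSpectrum (𝓞 C) | (l : 𝓞 C) ∈ w.asIdeal}.Finite := by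
  have h : Ideal.span {(l : 𝓞 C)} ≠ 0 := by
    rw [Ideal.zero_eq_bot, Ne, Ideal.span_singleton_eq_bot]
    exact_mod_cast hl
  refine (Ideal.finite_factors h).subset fun w hw => ?_
  rw [Set.mem_setOf_eq] at hw ⊢
  rw [Ideal.dvd_iff_le, Ideal.span_singleton_le_iff_mem]
  exact hw

/-- Chunk D2 (M). B = CyclotomicField l ℚ, Ω = AlgebraicClosure C, j : B →+* Ω (IsAlgClosed.lift over ℚ), L = cE C j (P5.lean): a number field (p5_num), generated by C and B (p5_cmp; algebra cAlg C j, use letI). The discriminants of C and B are coprime: p2_cop,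
r ∣ discr C gives r ≠ l (hd), so B is unramified at r (c4_unr with Z = B, m = l, r does not divide l). p2_deg: e : Gal(L/C) ≃* Gal(B/ℚ), and IsCyclotomicExtension.Rat.galEquivZMod l B : Gal(B/ℚ) ≃* (ZMod l)ˣ. Let g be a generator of (ZMod l)ˣ
(IsCyclic.exists_generator; of order l - 1: orderOf_eq_card_of_forall_mem_zpowers, ZMod.card_units_eq_totient), σ with image g. d1_cheb C L σ with the set S ∪ {w : (l : 𝓞 C) ∈ w} (finite: H28R.W5_fin_mem or Ideal.finite_factors). N = absNorm w, W above w with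
σ y - y^N in W for y in 𝓞 L. Let ζ be a primitive l-th root of unity in B, z its image in 𝓞 L: σ z = z^(g.val) (galEquivZMod_apply_of_pow_eq and p2_deg), so z^(g.val) - z^N in W; if g.val and N were different modulo l, then z^a (1 - η) in W for an l-th root of
unity η ≠ 1, z is a unit, 1 - η divides l (1 + η + ... + η^(l-1) = 0, η = 1 mod W gives l = 0 mod W), l in W, l in w: contradiction. So (N : ZMod l) = g, of order l - 1 (orderOf_units). -/
theorem d2_prim (C : Type) [Field C] [NumberField C] {l : ℕ} (hl : l.Prime) (hd : ¬ (l : ℤ) ∣ discr C)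
    (S : Set (HeightOneSpectrum (𝓞 C))) (hS : S.Finite) :
    ∃ w : HeightOneSpectrum (𝓞 C), w ∉ S ∧ (Ideal.absNorm w.asIdeal).Prime ∧
      orderOf ((Ideal.absNorm w.asIdeal : ℕ) : ZMod l) = l - 1 := by
  have hlf : Fact l.Prime := ⟨hl⟩
  have hl0 : NeZero l := ⟨hl.ne_zero⟩
  have hcy : IsCyclotomicExtension {l} ℚ (CyclotomicField l ℚ) := CyclotomicField.isCyclotomicExtension l ℚ
  have hgal : IsGalois ℚ (CyclotomicField l ℚ) := IsCyclotomicExtension.isGalois {l} ℚ _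
  let j : CyclotomicField l ℚ →+* AlgebraicClosure C :=
    (IsAlgClosed.lift (R := ℚ) (S := CyclotomicField l ℚ) (M := AlgebraicClosure C)).toRingHom
  letI : Algebra (CyclotomicField l ℚ) (cE C j) := cAlg C j
  have hN : NumberField (cE C j) := p5_num C j
  have hcmp : Cmp C (CyclotomicField l ℚ) (cE C j) := p5_cmp C j
  have hcop : IsCoprime (discr C) (discr (CyclotomicField l ℚ)) := by
    refine p2_cop C (CyclotomicField l ℚ) fun r hr hrd w hw => ?_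
    refine c4_unr (m := l) (CyclotomicField l ℚ) (CyclotomicField l ℚ) hr ?_ w hw
    intro hrl
    rw [(Nat.prime_dvd_prime_iff_eq hr hl).1 hrl] at hrd
    exact hd hrd
  obtain ⟨-, e, he⟩ := p2_deg hcmp hcop
  have hgalC : IsGalois C (cE C j) := p1_gal hcmp
  obtain ⟨g, hg⟩ := IsCyclic.exists_generator (α := (ZMod l)ˣ)
  obtain ⟨τ, hτ⟩ : ∃ τ, IsCyclotomicExtension.Rat.galEquivZMod l (CyclotomicField l ℚ) τ = g :=
    (IsCyclotomicExtension.Rat.galEquivZMod l (CyclotomicField l ℚ)).surjective g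
  obtain ⟨σ, hσ⟩ := e.surjective τ
  obtain ⟨w, hw, hwp, W, hWw, hWF⟩ := d1_cheb C (cE C j) σ
    (S ∪ {w : HeightOneSpectrum (𝓞 C) | (l : 𝓞 C) ∈ w.asIdeal}) (hS.union (d2_fin C hl.ne_zero))
  rw [Set.mem_union, not_or] at hw
  refine ⟨w, hw.1, hwp, ?_⟩
  have h1 := d2_key C (CyclotomicField l ℚ) (cE C j) hl σ τ (fun x => by rw [he, hσ]) W hWF
    (by rw [hWw]; exact hw.2)
  rw [hWw, hτ] at h1
  rw [h1, orderOf_units, orderOf_eq_card_of_forall_mem_zpowers hg, Nat.card_eq_fintype_card,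
    ZMod.card_units_eq_totient, Nat.totient_prime hl]

end H57N
end
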