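import Mathlib
import Pool.Agent.Lib.H1M.PP2.M003
import Pool.Agent.Lib.H1M.PP2.M075
import Pool.Agent.Lib.H1M.PP2.M084
import Pool.Agent.Lib.H1M.PP2.M093

/-! Merged copies (to shorten the build) of Lib.H41S.D, Lib.H41S.A1, Lib.H41S.A5, Lib.H41S.A2, Lib.H41S.A3, Lib.H41S.A4, Lib.H41S.A6, Lib.H41S.B2, Lib.H41S.B4, Lib.H41S.B5, Lib.H41S.B6. -/

-- from Lib.H41S.D
section

/-! # H41S: L-values in a cyclic extension of degree p^(n+1): definitions

CH p N f φ: φ is a function on the primes of K with values in the N-th roots of unity, trivial on the principal ideals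
(x), x = 1 modulo f (a ray class character of order dividing N, modulus f prime to p). tw ψ f φ j: the conjugate of the
Hecke character times the j-th power of φ, 0 at the ideals which are not prime to f. -/

open NumberField IsDedekindDomain

namespace H41S

open H55N H55P
open H55R (Pl es fs pv tI)

/-- A ray class character of order dividing N with modulus f prime to p, given by its values at the primes. -/
structure CH {K : Type} [Field K] [NumberField K] (p N : ℕ) (f : Ideal (𝓞 K)) (φ : Pl K → ℂˣ) : Prop where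
  ne : f ≠ ⊥
  cop : IsCoprime f (Ideal.span {(p : 𝓞 K)})
  val : φ ^ N = 1
  per : ∀ x y : 𝓞 K, x ≠ 0 → y ≠ 0 → IsCoprime (Ideal.span {x}) f → x - y ∈ f →
    pv φ (Ideal.span {x}) = pv φ (Ideal.span {y})

/-- The twists. -/
noncomputable def tw {F : Type} [Field F] [NumberField F] [IQ F] {K : Type} [Field K] [NumberField K] [Algebra F K]
    (ψ : Ideal (𝓞 F) →*₀ 𝓞 F) (f : Ideal (𝓞 K)) (φ : Pl K → ℂˣ) (j : ℕ) : Ideal (𝓞 K) →*₀ ℂ :=
  PsiP K ψ * tI f (φ ^ j)

theorem tw_apply {F : Type} [Field F] [NumberField F] [IQ F] {K : Type} [Field K] [NumberField K] [Algebra F K]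
    (ψ : Ideal (𝓞 F) →*₀ 𝓞 F) (f : Ideal (𝓞 K)) (φ : Pl K → ℂˣ) (j : ℕ) {a : Ideal (𝓞 K)} (ha : a ≠ ⊥)
    (h : IsCoprime a f) : tw ψ f φ j a = PsiP K ψ a * (pv φ a : ℂ) ^ j := by
  show PsiP K ψ a * tI f (φ ^ j) a = _
  rw [H55R.tI_apply _ _ ha h, H55R.pv_pow, Units.val_pow_eq_pow_val]

theorem tw_zero {F : Type} [Field F] [NumberField F] [IQ F] {K : Type} [Field K] [NumberField K] [Algebra F K]
    (ψ : Ideal (𝓞 F) →*₀ 𝓞 F) (f : Ideal (𝓞 K)) (φ : Pl K → ℂˣ) (j : ℕ) {a : Ideal (𝓞 K)}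
    (h : ¬ IsCoprime a f) : tw ψ f φ j a = 0 := by
  show PsiP K ψ a * tI f (φ ^ j) a = _
  rw [H55R.tI_zero _ _ h, mul_zero]

theorem CH.tI_pow {K : Type} [Field K] [NumberField K] {p N : ℕ} {f : Ideal (𝓞 K)} {φ : Pl K → ℂˣ}
    (h : CH p N f φ) (j : ℕ) (a : Ideal (𝓞 K)) : tI f (φ ^ j) a ^ N = 1 ∨ tI f (φ ^ j) a = 0 := by
  by_cases ha : a ≠ ⊥ ∧ IsCoprime a f
  · left
    rw [H55R.tI_apply _ _ ha.1 ha.2, ← Units.val_pow_eq_pow_val, ← H55R.pv_pow, ← pow_mul, mul_comm, pow_mul, h.val,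
      one_pow, H55R.pv_one_fun, Units.val_one]
  · right
    exact if_neg ha

theorem CH.norm_le {K : Type} [Field K] [NumberField K] {p N : ℕ} (hN : N ≠ 0) {f : Ideal (𝓞 K)} {φ : Pl K → ℂˣ}
    (h : CH p N f φ) (j : ℕ) (a : Ideal (𝓞 K)) : ‖tI f (φ ^ j) a‖ ≤ 1 := by
  rcases h.tI_pow j a with h1 | h1
  · exact (Complex.norm_eq_one_of_pow_eq_one h1 hN).le
  · rw [h1, norm_zero]
    exact zero_le_one

/-- the values depend only on the primes containing the ideal -/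
theorem pv_congr {K : Type} [Field K] [NumberField K] (φ φ' : Pl K → ℂˣ) (a : Ideal (𝓞 K))
    (h : ∀ v : Pl K, a ≤ v.asIdeal → φ v = φ' v) : pv φ a = pv φ' a := by
  unfold H55R.pv
  congr 1
  refine Multiset.map_congr rfl fun P hP => ?_
  by_cases h1 : P.IsPrime ∧ P ≠ ⊥
  · rw [dif_pos h1, dif_pos h1]
    exact h ⟨P, h1.1, h1.2⟩ (Ideal.dvd_iff_le.1 (UniqueFactorizationMonoid.dvd_of_mem_normalizedFactors hP))
  · rw [dif_neg h1, dif_neg h1]

end H41S
end

-- from Lib.H41S.A1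
section

/-! # H41S, A1: the constants of the classes for all powers of the character (port of exists_kappaP of H55P/T2.lean) -/

open NumberField IsDedekindDomain

namespace H41S

open H55N H55P
open H55B (g)
open H55R (Pl es fs pv tI)

variable {F : Type} [Field F] [NumberField F] [IQ F] {K : Type} [Field K] [NumberField K]
  [Algebra F K] {m : ℕ}

theorem kappa (p : ℕ) (hp : p.Prime) {M : Ideal (𝓞 F)} {ψ : Ideal (𝓞 F) →*₀ 𝓞 F}
    (h : IsHecke M ψ) {N : ℕ} (f : Ideal (𝓞 K))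
    (φ : Pl K → ℂˣ) (hφ : CH p N f φ) (b : Ideal (𝓞 K)) (hb : b ≠ ⊥)
    (hbc : IsCoprime b (Ideal.span {(p : 𝓞 K)} * (mK K M * f))) (c₀ : 𝓞 K) (hc : c₀ ∈ b)
    (hpr : ∀ w : HeightOneSpectrum (𝓞 K), mK K M * f ≤ w.asIdeal → c₀ ∉ w.asIdeal * b) :
    ∃ κ' ζ : ℂ, (∀ V : ValuationSubring ℂ, V.valuation (p : ℂ) < 1 → V.valuation κ' = 1) ∧
      ζ ^ N = 1 ∧
      ∀ x ∈ XS (mK K M * f * b) c₀, ∀ a : Ideal (𝓞 K), a * b = Ideal.span {x} → x ≠ 0 ∧
        ∀ j : ℕ, tw ψ f φ j a = κ' * ζ ^ j * (starRingEnd ℂ) (embF F (Algebra.norm F (x : K))) := by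
  classical
  have hm0 : mK K M ≠ ⊥ := PT2_mK M h.ne
  have hJ0 : mK K M * f ≠ ⊥ := mul_ne_zero hm0 hφ.ne
  have hbJ : IsCoprime b (mK K M * f) := hbc.of_mul_right_right
  have hbp : IsCoprime b (Ideal.span {(p : 𝓞 K)}) := hbc.of_mul_right_left
  have hbM : IsCoprime b (mK K M) := hbJ.of_mul_right_left
  have hbf : IsCoprime b f := hbJ.of_mul_right_right
  have hcop : IsCoprime (Ideal.span {c₀}) (mK K M * f) := by
    rw [Ideal.isCoprime_iff_sup_eq]
    by_contra hne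
    obtain ⟨P, hP, hle⟩ := Ideal.exists_le_maximal _ hne
    have hPf : mK K M * f ≤ P := le_sup_right.trans hle
    have hPc : Ideal.span {c₀} ≤ P := le_sup_left.trans hle
    have hP0 : P ≠ ⊥ := by
      rintro rfl
      exact hJ0 (le_bot_iff.1 hPf)
    have hbP : ¬ b ≤ P := by
      intro h1
      rw [Ideal.isCoprime_iff_sup_eq] at hbJ
      exact hP.ne_top (top_le_iff.1 (hbJ ▸ sup_le h1 hPf))
    obtain ⟨d, hd⟩ := Ideal.dvd_iff_le.2 ((Ideal.span_singleton_le_iff_mem b).2 hc)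
    rw [hd] at hPc
    have hdP : d ≤ P := (hP.isPrime.mul_le.1 hPc).resolve_left hbP
    refine hpr ⟨P, hP.isPrime, hP0⟩ hPf ?_
    have h1 : c₀ ∈ b * d := by rw [← hd]; exact Ideal.mem_span_singleton_self _
    rw [mul_comm]
    exact Ideal.mul_mono_right hdP h1
  have hXcop : ∀ x ∈ XS (mK K M * f * b) c₀,
      IsCoprime (Ideal.span {x}) (mK K M * f) := by
    intro x hx
    have hx' : x - c₀ ∈ mK K M * f :=
      Ideal.mul_le_left (show x - c₀ ∈ mK K M * f * b from hx)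
    rw [Ideal.isCoprime_iff_exists] at hcop ⊢
    obtain ⟨i, hi, j, hj, hij⟩ := hcop
    obtain ⟨r, rfl⟩ := Ideal.mem_span_singleton.1 hi
    refine ⟨x * r, Ideal.mul_mem_right _ _ (Ideal.mem_span_singleton_self x),
      j - (x - c₀) * r, Ideal.sub_mem _ hj (Ideal.mul_mem_right _ _ hx'), ?_⟩
    linear_combination hij
  have hcM : IsCoprime (Ideal.span {c₀}) (mK K M) := hcop.of_mul_right_left
  have hc0 : c₀ ≠ 0 := PT2_ne M h.ntop c₀ hcM
  have hc0' : Ideal.span {c₀} ≠ ⊥ := fun h1 => hc0 (Ideal.span_singleton_eq_bot.1 h1)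
  have hPb : PsiP K ψ b ≠ 0 := (PsiP_ne h b hb).2 hbM
  have hNc := (PsiP_cop h (Ideal.span {c₀}) hc0').2 hcM
  rw [Ideal.relNorm_singleton] at hNc
  obtain ⟨nc, hnc⟩ : ∃ nc, nc = Algebra.intNorm (𝓞 F) (𝓞 K) c₀ := ⟨_, rfl⟩
  rw [← hnc] at hNc
  have hnc0 : nc ≠ 0 := by
    rintro rfl
    have h1 := Ideal.relNorm_singleton (𝓞 F) c₀
    rw [← hnc, Ideal.span_singleton_eq_bot.2 rfl] at h1
    exact hc0' (Ideal.relNorm_eq_bot_iff.1 h1)
  obtain ⟨A, hA⟩ : ∃ A, A = (starRingEnd ℂ) (eF F (ψ (Ideal.span {nc}))) := ⟨_, rfl⟩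
  obtain ⟨B, hB⟩ : ∃ B, B = (starRingEnd ℂ) (eF F nc) := ⟨_, rfl⟩
  have hB0 : B ≠ 0 := by
    rw [hB, map_ne_zero]
    exact eF_ne hnc0
  refine ⟨A / (B * PsiP K ψ b), ((pv φ (Ideal.span {c₀}) * (pv φ b)⁻¹ : ℂˣ) : ℂ), ?_, ?_, ?_⟩
  · intro V hV
    have h1 := (PsiP_unit p hp h b hb hbM hbp V hV).1
    obtain ⟨u, hu⟩ := Ideal.span_singleton_eq_span_singleton.1 (h.gen _ hNc)
    have h2 : V.valuation A = V.valuation B := by
      rw [hB, ← hu, map_mul, map_mul, map_mul, PT2_unit u V, mul_one, hA]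
    rw [map_div₀, map_mul, h1, mul_one, h2]
    exact div_self ((Valuation.ne_zero_iff _).2 hB0)
  · rw [← Units.val_pow_eq_pow_val, mul_pow, inv_pow, ← H55R.pv_pow, ← H55R.pv_pow, hφ.val, H55R.pv_one_fun,
      H55R.pv_one_fun, inv_one, mul_one, Units.val_one]
  · intro x hx a hab
    have hxc := hXcop x hx
    have hxM : IsCoprime (Ideal.span {x}) (mK K M) := hxc.of_mul_right_left
    have hx0 : x ≠ 0 := PT2_ne M h.ntop x hxM
    have hx0' : Ideal.span {x} ≠ ⊥ := fun h1 => hx0 (Ideal.span_singleton_eq_bot.1 h1)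
    have hxJ : x - c₀ ∈ mK K M * f :=
      Ideal.mul_le_left (show x - c₀ ∈ mK K M * f * b from hx)
    have hxm : x - c₀ ∈ mK K M := Ideal.mul_le_left hxJ
    have hxf : x - c₀ ∈ f := Ideal.mul_le_right hxJ
    have hNx := (PsiP_cop h (Ideal.span {x}) hx0').2 hxM
    rw [Ideal.relNorm_singleton] at hNx
    have hper := h.per _ _ hNx hNc (by rw [hnc]; exact intNorm_cong M x c₀ hxm)
    have ha0 : a ≠ ⊥ := by
      rintro rfl
      apply hx0
      rw [← Ideal.span_singleton_eq_bot, ← hab]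
      exact zero_mul b
    have haf : IsCoprime a f := by
      have h1 : IsCoprime (a * b) f := by rw [hab]; exact hxc.of_mul_right_right
      exact h1.of_mul_left_left
    have hPx : PsiP K ψ (Ideal.span {x}) * B = A * (starRingEnd ℂ) (embF F (Algebra.norm F (x : K))) := by
      rw [PsiP_apply, Ideal.relNorm_singleton, hA, hB, PT2_norm, ← map_mul, ← map_mul, ← map_mul,
        ← map_mul, hper]
    have hPa : PsiP K ψ a = A / (B * PsiP K ψ b) *
        (starRingEnd ℂ) (embF F (Algebra.norm F (x : K))) := by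
      have h1 : PsiP K ψ a * PsiP K ψ b = PsiP K ψ (Ideal.span {x}) := by rw [← map_mul, hab]
      rw [div_mul_eq_mul_div, ← hPx, ← h1, eq_div_iff (mul_ne_zero hB0 hPb)]
      ring
    have hχa : pv φ a = pv φ (Ideal.span {c₀}) * (pv φ b)⁻¹ := by
      have h1 : pv φ a * pv φ b = pv φ (Ideal.span {x}) := by rw [← H55R.pv_mul φ ha0 hb, hab]
      rw [hφ.per x c₀ hx0 hc0 hxc.of_mul_right_right hxf] at h1
      rw [← h1, mul_inv_cancel_right]
    refine ⟨hx0, fun j => ?_⟩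
    rw [tw_apply ψ f φ j ha0 haf, hPa, hχa]
    ring

end H41S
end

-- from Lib.H41S.A5
section

/-! # H41S, A5: valuations of the Euler factors -/

open NumberField IsDedekindDomain

namespace H41S

open H55N H55P
open H55B (g)
open H55R (Pl es fs pv tI)

variable {F : Type} [Field F] [NumberField F] [IQ F] {K : Type} [Field K] [NumberField K]
  [Algebra F K]

/-- integral elements of F which are not units at V are divisible by p (p unramified in F) -/
theorem a5_disc {p : ℕ} (hF : UnrP p F) (V : ValuationSubring ℂ) (hV : V.valuation (p : ℂ) < 1) (x : 𝓞 F)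
    (hx : V.valuation (eF F x) < 1) : V.valuation (eF F x) ≤ V.valuation (p : ℂ) := by
  let P : Ideal (𝓞 F) :=
    { carrier := {y | V.valuation (eF F y) < 1}
      zero_mem' := by
        show V.valuation (eF F 0) < 1
        rw [map_zero, map_zero]
        exact zero_lt_one
      add_mem' := by
        intro a b ha hb
        show V.valuation (eF F (a + b)) < 1
        rw [map_add]
        exact Valuation.map_add_lt _ ha hb
      smul_mem' := by
        intro c a ha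
        show V.valuation (eF F (c * a)) < 1
        rw [map_mul, map_mul]
        exact lt_of_le_of_lt (mul_le_of_le_one_left' (PT1_int (eF F) c V)) ha }
  have hmem : ∀ y, y ∈ P ↔ V.valuation (eF F y) < 1 := fun y => Iff.rfl
  have hp : (p : 𝓞 F) ∈ P := by
    rw [hmem, map_natCast]
    exact hV
  have hne : P ≠ ⊤ := by
    intro h
    have h1 : (1 : 𝓞 F) ∈ P := by rw [h]; exact Submodule.mem_top
    rw [hmem, map_one, map_one] at h1
    exact lt_irrefl _ h1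
  obtain ⟨π, hπ⟩ := (IsPrincipalIdealRing.principal P).principal
  have hπ' : P = Ideal.span {π} := hπ
  have hd : ∀ y, V.valuation (eF F y) < 1 → ∃ z, y = π * z := by
    intro y hy
    have h1 : y ∈ Ideal.span {π} := by rw [← hπ']; exact hy
    obtain ⟨z, rfl⟩ := Ideal.mem_span_singleton.1 h1
    exact ⟨z, rfl⟩
  obtain ⟨u, hu⟩ := hd _ hp
  have hu1 : V.valuation (eF F u) = 1 := by
    refine le_antisymm (PT1_int (eF F) u V) ?_
    by_contra hlt
    obtain ⟨t, ht⟩ := hd u (not_le.1 hlt)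
    have h1 : Ideal.span {π} * Ideal.span {π} ∣ Ideal.span {(p : 𝓞 F)} := by
      rw [Ideal.span_singleton_mul_span_singleton, Ideal.dvd_iff_le, Ideal.span_singleton_le_span_singleton]
      exact ⟨t, by rw [hu, ht]; ring⟩
    have h2 := hF _ h1
    rw [Ideal.isUnit_iff, ← hπ'] at h2
    exact hne h2
  have h3 : V.valuation (eF F π) = V.valuation (p : ℂ) := by
    have h4 : (p : ℂ) = eF F π * eF F u := by rw [← map_mul, ← hu, map_natCast]
    rw [h4, map_mul, hu1, mul_one]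
  obtain ⟨z, hz⟩ := hd x hx
  rw [hz, map_mul, map_mul, h3]
  exact mul_le_of_le_one_right' (PT1_int (eF F) z V)

/-- the anomalous primes -/
theorem a5_an {p : ℕ} (hp : p.Prime) (hF : UnrP p F) {M : Ideal (𝓞 F)} {ψ : Ideal (𝓞 F) →*₀ 𝓞 F} (h : IsHecke M ψ)
    (V : ValuationSubring ℂ) (hV : V.valuation (p : ℂ) < 1) (w : Pl K)
    (hwp : IsCoprime w.asIdeal (Ideal.span {(p : 𝓞 K)}))
    (hw : V.valuation (1 - (starRingEnd ℂ) (PsiP K ψ w.asIdeal)) ≠ 1) :
    V.valuation (1 - tm (PsiP K ψ) 1 w.asIdeal) ≤ V.valuation (p : ℂ) := by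
  have h0 : PsiP K ψ w.asIdeal ≠ 0 := by
    intro h0
    apply hw
    rw [h0, map_zero, sub_zero, map_one]
  have hcop := (PsiP_ne h w.asIdeal w.ne_bot).1 h0
  have hn := PsiP_norm h w.asIdeal w.ne_bot hcop
  have hu := PsiP_unit p hp h w.asIdeal w.ne_bot hcop hwp V hV
  have hc0 : (starRingEnd ℂ) (PsiP K ψ w.asIdeal) ≠ 0 := by
    rw [Ne, map_eq_zero]
    exact h0
  have hN : (Ideal.absNorm w.asIdeal : ℂ) =
      PsiP K ψ w.asIdeal * (starRingEnd ℂ) (PsiP K ψ w.asIdeal) := by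
    rw [Complex.mul_conj, Complex.normSq_eq_norm_sq, hn]
    push_cast
    rfl
  have h1 : 1 - tm (PsiP K ψ) 1 w.asIdeal =
      -((1 - (starRingEnd ℂ) (PsiP K ψ w.asIdeal)) / (starRingEnd ℂ) (PsiP K ψ w.asIdeal)) := by
    unfold tm
    rw [Complex.cpow_neg_one, hN]
    field_simp
    ring
  rw [h1, Valuation.map_neg, map_div₀, hu.2, div_one]
  have h2 : 1 - (starRingEnd ℂ) (PsiP K ψ w.asIdeal) = eF F (1 - ψ (Ideal.relNorm (𝓞 F) w.asIdeal)) := by
    rw [PsiP_apply, Complex.conj_conj, map_sub, map_one]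
  rw [h2] at hw ⊢
  exact a5_disc hF V hV _ (lt_of_le_of_ne (PT1_int (eF F) _ V) hw)

/-- the absolute value of the Euler term -/
theorem a5_le {p : ℕ} (hp : p.Prime) {M : Ideal (𝓞 F)} {ψ : Ideal (𝓞 F) →*₀ 𝓞 F} (h : IsHecke M ψ)
    (V : ValuationSubring ℂ) (hV : V.valuation (p : ℂ) < 1) (w : Pl K)
    (hwp : IsCoprime w.asIdeal (Ideal.span {(p : 𝓞 K)})) :
    V.valuation (tm (PsiP K ψ) 1 w.asIdeal) ≤ 1 := by
  have h1 := (tm_one p hp V hV h w hwp).1
  have h2 : tm (PsiP K ψ) 1 w.asIdeal = 1 - (1 - tm (PsiP K ψ) 1 w.asIdeal) := by ring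
  rw [h2]
  exact (Valuation.map_sub _ _ _).trans (max_le (by rw [map_one]) h1)

end H41S
end

-- from Lib.H41S.A2
section

/-! # H41S, A2: the smoothing factors and removal of Euler factors (ports of H55P/T6.lean) -/

open NumberField IsDedekindDomain

namespace H41S

open H55N H55P
open H55B (g)
open H55R (Pl es fs pv tI)

variable {F : Type} [Field F] [NumberField F] [IQ F] {K : Type} [Field K] [NumberField K]
  [Algebra F K] {m : ℕ}

theorem tw_norm_le {M : Ideal (𝓞 F)} {ψ : Ideal (𝓞 F) →*₀ 𝓞 F} (h : IsHecke M ψ) {p N : ℕ} (hN : N ≠ 0)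
    {f : Ideal (𝓞 K)} {φ : Pl K → ℂˣ} (hφ : CH p N f φ) (j : ℕ) (a : Ideal (𝓞 K)) :
    ‖tw ψ f φ j a‖ ^ 2 ≤ Ideal.absNorm a := by
  refine le_trans ?_ (PsiP_norm_le h a)
  have h4 : tw ψ f φ j a = PsiP K ψ a * tI f (φ ^ j) a := rfl
  rw [h4, norm_mul, mul_pow]
  exact mul_le_of_le_one_right (by positivity) (pow_le_one₀ (norm_nonneg _) (hφ.norm_le hN j a))

/-- removal of the Euler factors at the primes containing f, for any completely multiplicative function -/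
theorem one_sumG (h : Ideal (𝓞 K) →*₀ ℂ) (hb : ∀ a, ‖h a‖ ^ 2 ≤ (Ideal.absNorm a : ℝ)) (f : Ideal (𝓞 K))
    (hf : f ≠ ⊥) :
    ∃ S : Finset (HeightOneSpectrum (𝓞 K)), (∀ w, w ∈ S ↔ f ≤ w.asIdeal) ∧
      ∀ s : ℂ, 3 / 2 < s.re →
        HasSum (tm (h * oneI f : Ideal (𝓞 K) →*₀ ℂ) s)
          ((∏ w ∈ S, (1 - tm h s w.asIdeal)) * ∑' a, tm h s a) := by
  classical
  have hfin : {w : HeightOneSpectrum (𝓞 K) | w.asIdeal ∣ f}.Finite := Ideal.finite_factors hf
  have hS : ∀ w, w ∈ hfin.toFinset ↔ f ≤ w.asIdeal := by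
    intro w
    rw [Set.Finite.mem_toFinset]
    exact Ideal.dvd_iff_le
  refine ⟨hfin.toFinset, hS, fun s hs => ?_⟩
  set S := hfin.toFinset with hSd
  have hk : Summable fun a => ‖tmH h s a‖ := tm_summable h hb s hs
  have h1 := smooth_sum (tmH h s) hk (fun w : S => w.1.asIdeal) (fun w => w.1.isPrime)
    (fun w => w.1.ne_bot) (fun w w' h => Subtype.ext (HeightOneSpectrum.ext h)) (fun _ => 1)
  have h2 : (∏ w : S, (1 - 1 * (tmH h s) w.1.asIdeal)) =
      ∏ w ∈ S, (1 - tm h s w.asIdeal) := by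
    rw [← Finset.prod_coe_sort S]
    refine Finset.prod_congr rfl fun w _ => ?_
    rw [one_mul]
    rfl
  rw [h2] at h1
  refine h1.congr_fun fun a => ?_
  have h3 : tm (h * oneI f : Ideal (𝓞 K) →*₀ ℂ) s a = tmH h s a * oneI f a := by
    show (h a * oneI f a) * (Ideal.absNorm a : ℂ) ^ (-s) =
      (h a * (Ideal.absNorm a : ℂ) ^ (-s)) * oneI f a
    ring
  rw [h3]
  by_cases ha : a = ⊥
  · rw [ha]
    have h4 : tmH h s (⊥ : Ideal (𝓞 K)) = 0 := (tmH h s).map_zero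
    rw [h4, zero_mul, zero_mul]
  · congr 1
    have h5 : oneI f a = if a ≠ ⊥ ∧ IsCoprime a f then 1 else 0 := rfl
    rw [h5]
    by_cases hc : IsCoprime a f
    · rw [if_pos ⟨ha, hc⟩]
      symm
      refine Finset.prod_eq_one fun w _ => ?_
      rw [if_neg ((TW2_coprime a f ha S hS).1 hc w.1 w.2)]
    · rw [if_neg (fun h => hc h.2)]
      rw [TW2_coprime a f ha S hS] at hc
      push Not at hc
      obtain ⟨w, hw, haw⟩ := hc
      symm
      refine Finset.prod_eq_zero (Finset.mem_univ (⟨w, hw⟩ : S)) ?_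
      rw [if_pos haw, sub_self]

theorem tw_P_ne {M : Ideal (𝓞 F)} {ψ : Ideal (𝓞 F) →*₀ 𝓞 F} (h : IsHecke M ψ) (χ : Ideal (𝓞 K) →*₀ ℂ)
    (c : Ideal (𝓞 K)) (hχ : χ c = 0 ∨ ‖χ c‖ = 1) (q : ℕ) (hq : q.Prime)
    (hc : Ideal.absNorm c = q) (s : ℂ) (hs : s.re < 3 / 2) :
    1 - (q : ℂ) * tm (PsiP K ψ * χ : Ideal (𝓞 K) →*₀ ℂ) s c ≠ 0 := by
  have hp0 : (0 : ℝ) < q := by exact_mod_cast hq.pos
  have hp1 : (1 : ℝ) < q := by exact_mod_cast hq.one_lt
  have hc0 : c ≠ ⊥ := by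
    intro h
    rw [h, Ideal.absNorm_bot] at hc
    exact hq.ne_zero hc.symm
  intro hh
  have h1 : (q : ℂ) * tm (PsiP K ψ * χ : Ideal (𝓞 K) →*₀ ℂ) s c = 1 := by linear_combination -hh
  have h2 : tm (PsiP K ψ * χ : Ideal (𝓞 K) →*₀ ℂ) s c = PsiP K ψ c * χ c * (q : ℂ) ^ (-s) := by
    unfold tm
    rw [hc]
    rfl
  rw [h2] at h1
  have h3 : PsiP K ψ c ≠ 0 := by
    intro h0
    rw [h0] at h1
    simp at h1
  have h4 : χ c ≠ 0 := by
    intro h0
    rw [h0] at h1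
    simp at h1
  have h5 : ‖χ c‖ = 1 := hχ.resolve_left h4
  have h6 : ‖PsiP K ψ c‖ ^ 2 = q := by
    rw [PsiP_norm h c hc0 ((PsiP_ne h c hc0).1 h3), hc]
  have h7 : ‖PsiP K ψ c‖ = (q : ℝ) ^ (1 / 2 : ℝ) := by
    rw [← Real.sqrt_eq_rpow, ← h6, Real.sqrt_sq (norm_nonneg _)]
  have h8 := congrArg norm h1
  rw [norm_mul, norm_mul, norm_mul, h5, h7, NormOneClass.norm_one, Complex.norm_natCast,
    Complex.norm_natCast_cpow_of_pos hq.pos, mul_one, Complex.neg_re] at h8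
  have h9 : (q : ℝ) * ((q : ℝ) ^ (1 / 2 : ℝ) * (q : ℝ) ^ (-s.re)) = (q : ℝ) ^ (3 / 2 - s.re) := by
    have h11 : (3 / 2 - s.re) = 1 + (1 / 2 + -s.re) := by ring
    rw [h11, Real.rpow_add hp0, Real.rpow_add hp0, Real.rpow_one]
  rw [h9] at h8
  have h10 : 1 < (q : ℝ) ^ (3 / 2 - s.re) := Real.one_lt_rpow hp1 (by linarith)
  rw [h8] at h10
  exact lt_irrefl _ h10

/-- roots of unity of p-power order are congruent to 1 -/
theorem root_maxQ (p : ℕ) (hp : p.Prime) (V : ValuationSubring ℂ) (hV : V.valuation (p : ℂ) < 1) (ζ : ℂ) (e : ℕ)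
    (h : ζ ^ p ^ e = 1) : V.valuation (ζ - 1) < 1 := by
  have h1 : V.valuation ζ = 1 := by
    apply pt6_le (pow_ne_zero e hp.ne_zero)
    rw [← map_pow, h, map_one]
  have h2 : V.valuation (1 - ζ) ≤ 1 :=
    (Valuation.map_sub _ _ _).trans (max_le (by rw [map_one]) h1.le)
  rw [Valuation.map_sub_swap]
  refine lt_of_le_of_ne h2 fun h3 => ?_
  have h4 := pow_max p hp V hV ζ h1.le h3 e
  rw [h, sub_self, map_zero] at h4
  exact zero_ne_one h4

/-- the smoothing factors are units -/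
theorem factorQ (p : ℕ) (hp : p.Prime) (V : ValuationSubring ℂ) (hV : V.valuation (p : ℂ) < 1)
    (ψ : Ideal (𝓞 F) →*₀ 𝓞 F) (χ : Ideal (𝓞 K) →*₀ ℂ) (c : Ideal (𝓞 K)) (q : ℕ) (hq : q.Prime)
    (hc : Ideal.absNorm c = q) (hu : V.valuation (1 - PsiP K ψ c) = 1) (e : ℕ)
    (hχ : χ c ^ p ^ e = 1 ∨ χ c = 0) :
    V.valuation (1 - (q : ℂ) * tm (PsiP K ψ * χ : Ideal (𝓞 K) →*₀ ℂ) 1 c) = 1 := by
  have hq0 : (q : ℂ) ≠ 0 := by exact_mod_cast hq.ne_zero
  have h2 : (q : ℂ) * tm (PsiP K ψ * χ : Ideal (𝓞 K) →*₀ ℂ) 1 c = PsiP K ψ c * χ c := by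
    have h1 : tm (PsiP K ψ * χ : Ideal (𝓞 K) →*₀ ℂ) 1 c = PsiP K ψ c * χ c * (q : ℂ) ^ (-1 : ℂ) := by
      unfold tm
      rw [hc]
      rfl
    rw [h1, Complex.cpow_neg_one]
    field_simp
  rw [h2]
  rcases hχ with h | h
  · have h3 : 1 - PsiP K ψ c * χ c = -(PsiP K ψ c * (χ c - 1)) + (1 - PsiP K ψ c) := by ring
    rw [h3, Valuation.map_add_eq_of_lt_right, hu]
    rw [hu, Valuation.map_neg, map_mul]
    exact lt_of_le_of_lt (mul_le_of_le_one_left' (PsiP_int ψ c V).1) (root_maxQ p hp V hV _ e h)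
  · rw [h, mul_zero, sub_zero, map_one]

end H41S
end

-- from Lib.H41S.A3
section

/-! # H41S, A3: the smoothed L-values of all powers of the character are the values of one polynomial over O_V -/

open NumberField IsDedekindDomain

namespace H41S

open H55N H55P
open H55B (g)
open H55R (Pl es fs pv tI)

variable {F : Type} [Field F] [NumberField F] [IQ F] {K : Type} [Field K] [NumberField K]
  [Algebra F K]

theorem smv (p : ℕ) (hp : p.Prime) {M : Ideal (𝓞 F)} {ψ : Ideal (𝓞 F) →*₀ 𝓞 F}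
    (h : IsHecke M ψ) (hMp : IsCoprime M (Ideal.span {(p : 𝓞 F)})) (hK : UnrP p K)
    (Ac Bc Om : ℂ) (hper : Per F Ac Bc Om) (V : ValuationSubring ℂ)
    (hV : V.valuation (p : ℂ) < 1) (hg : GoodV Ac Bc V) {N : ℕ} (hN : 0 < N) (f : Ideal (𝓞 K))
    (φ : Pl K → ℂˣ) (hφ : CH p N f φ) (η : ℂ) (hη : IsPrimitiveRoot η N) {m : ℕ}
    (hm : Module.finrank F K = m + 1) :
    ∃ Bad : Set (Ideal (𝓞 K)), Bad.Finite ∧
      ∀ (c : Fin (m + 1) × Fin 2 → Ideal (𝓞 K)) (q : Fin (m + 1) × Fin 2 → ℕ), Smooth c q →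
        (∀ i, (c i).IsPrime ∧ c i ∉ Bad) → ∃ P : Polynomial V, ∀ j : ℕ, ∃ Λ : ℂ → ℂ,
          AnalyticOnNhd ℂ Λ {s | 1 / 2 < s.re} ∧
          (∀ s : ℂ, 3 / 2 < s.re → HasSum (tm (tw ψ f φ j) s) (Λ s)) ∧
          (∏ i, (1 - (q i : ℂ) * tm (tw ψ f φ j) 1 (c i))) * (Λ 1 / Om ^ Module.finrank F K) =
            Polynomial.aeval (η ^ j) P := by
  classical
  obtain ⟨l, hl⟩ := h.toMod p hMp
  obtain ⟨w0, hw0l, hw0M⟩ := pt9_prime K hl
  have hJM : mK K M * f ≤ mK K M := Ideal.mul_le_left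
  have hJ0 : mK K M * f ≠ ⊥ := mul_ne_zero (pt9_mK_ne h.ne) hφ.ne
  have hJ1 : mK K M * f ≠ ⊤ := by
    intro h1
    apply w0.isPrime.ne_top
    rw [← top_le_iff, ← h1]
    exact hJM.trans hw0M
  have hg0 : Ideal.span {(p : 𝓞 K)} * (mK K M * f) ≠ ⊥ := by
    refine mul_ne_zero ?_ hJ0
    have h1 : Ideal.span {(p : 𝓞 K)} ≠ ⊥ := by
      rw [Ne, Ideal.span_singleton_eq_bot, Nat.cast_eq_zero]
      exact hp.ne_zero
    exact h1
  have hgJ : Ideal.span {(p : 𝓞 K)} * (mK K M * f) ≤ mK K M * f := Ideal.mul_le_right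
  obtain ⟨ι, hι, b, c₀, T, hcd⟩ := exists_CDJ (mK K M * f) (Ideal.span {(p : 𝓞 K)} * (mK K M * f))
    hJ0 hg0 hgJ hJ1
  have hbp : ∀ i, IsCoprime (b i) (Ideal.span {(p : 𝓞 K)}) := fun i =>
    (hcd.cop i).of_mul_right_left
  have hlam : ∀ i, c₀ i ∉ Ideal.span {algebraMap (𝓞 F) (𝓞 K) l} * b i := by
    intro i hi
    refine hcd.prim i w0 (hJM.trans hw0M) (Ideal.mul_mono_left ?_ hi)
    rw [Ideal.span_singleton_le_iff_mem]
    exact hw0l
  have hcore := fun i => core p hp hl K m hm hK (b i) f (hcd.ne i) (hbp i) hφ.ne hφ.cop (c₀ i)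
    (hcd.mem i) (hlam i)
  choose Bad hBad hcore using hcore
  have hnop := fun i => nopoles p hp hl K m hm (b i) f (hcd.ne i) hφ.ne (c₀ i) (hcd.mem i) (hlam i)
  choose Z0 hZ0 hZ0s using hnop
  refine ⟨(⋃ i, Bad i) ∪ ⋃ i, {w : Ideal (𝓞 K) | b i ≤ w},
    (Set.finite_iUnion hBad).union (Set.finite_iUnion fun i => pt9_finite (b i) (hcd.ne i)), ?_⟩
  intro c q hs hcb
  have hcp : ∀ j, (c j).IsPrime := fun j => (hcb j).1
  have hbc : ∀ i j, IsCoprime (b i) (c j) := by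
    intro i j
    rw [Ideal.isCoprime_iff_sup_eq]
    by_contra h
    have hmax : (c j).IsMaximal := (hcp j).isMaximal (pt3_ne hs j)
    have h1 : c j ≤ b i ⊔ c j := le_sup_right
    have h2 : b i ⊔ c j = c j := (hmax.eq_of_le h h1).symm
    apply (hcb j).2
    refine Or.inr (Set.mem_iUnion.2 ⟨i, ?_⟩)
    show b i ≤ c j
    rw [← h2]
    exact le_sup_left
  have hZex := fun i => hcore i c q hs (fun j hj => (hcb j).2 (Or.inl (Set.mem_iUnion.2 ⟨i, hj⟩)))
  choose Z hZa hZs hZi using hZex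
  have hkap := fun i => kappa p hp h f φ hφ (b i) (hcd.ne i) (hcd.cop i) (c₀ i)
    (hcd.mem i) (hcd.prim i)
  choose κ' ζ hκu hζ hκ using hkap
  have hroot : ∀ i, ∃ e : ℕ, η ^ e = ζ i := fun i => by
    have : NeZero N := ⟨hN.ne'⟩
    obtain ⟨e, -, he⟩ := hη.eq_pow_of_pow_eq_one (hζ i)
    exact ⟨e, he⟩
  choose e he using hroot
  have hint : ∀ i, κ' i * ((Ideal.absNorm (b i) : ℕ) : ℂ) * (Z i 1 / Om ^ (m + 1)) ∈ V := by
    intro i
    rw [← V.valuation_le_one_iff, map_mul, map_mul, hκu i V hV, one_mul]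
    exact mul_le_one' (pt9_nat V _) (hZi i Ac Bc Om hper V hV hg)
  have hC : ∀ j : ℕ, CoefP F (mK K M * f) ι b c₀ (tw ψ f φ j) (fun i => κ' i * ζ i ^ j) := fun j =>
    coef_mulP h (fun a ha => H55R.tI_zero _ _ ha) (fun a => hφ.norm_le hN.ne' j a)
      (fun i x hx a ha => ⟨(hκ i x hx a ha).1, (hκ i x hx a ha).2 j⟩)
  have hNb : ∀ i, Ideal.absNorm (b i) ≠ 0 := fun i => by
    rw [Ne, Ideal.absNorm_eq_zero_iff]
    exact hcd.ne i
  have hZsum : ∀ i s, 3 / 2 < s.re → HasSum (fun x : T i => gw c q x * nf F s (x : 𝓞 K)) (Z i s) :=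
    fun i s hs' => hZs i (T i) (hcd.trans i) s hs'
  refine ⟨∑ i, Polynomial.C (⟨_, hint i⟩ : V) * Polynomial.X ^ e i, fun j => ?_⟩
  have e1 : ∀ s : ℂ, 3 / 2 < s.re →
      (∏ i, (1 - (q i : ℂ) * tm (tw ψ f φ j) s (c i))) *
      ∑' a, tm (tw ψ f φ j) s a =
        ∑ i, κ' i * ζ i ^ j * (Ideal.absNorm (b i) : ℂ) ^ s * Z i s :=
    fun s hs' => series_eqP hgJ hJ1 hcd (hC j) hs hcp hbc Z s hs' fun i => hZsum i s hs'
  have e3 : ∀ s : ℂ, 3 / 2 < s.re → HasSum (tm (tw ψ f φ j) s)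
      (∑ i, κ' i * ζ i ^ j * (Ideal.absNorm (b i) : ℂ) ^ s * Z0 i s) :=
    fun s hs' => series_eq0P hgJ hJ1 hcd (hC j) Z0 s fun i => hZ0s i (T i) (hcd.trans i) s hs'
  have hGa : AnalyticOnNhd ℂ
      (fun s : ℂ => ∑ i, κ' i * ζ i ^ j * (Ideal.absNorm (b i) : ℂ) ^ s * Z i s) {s | 1 / 2 < s.re} := by
    intro s hs'
    exact Finset.analyticAt_fun_sum _ fun i _ =>
      (analyticAt_const.mul (pt3_pow_analytic _ (hNb i) Set.univ s trivial)).mul (hZa i s hs')
  have hZ0a : AnalyticOnNhd ℂ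
      (fun s : ℂ => ∑ i, κ' i * ζ i ^ j * (Ideal.absNorm (b i) : ℂ) ^ s * Z0 i s)
      {s | 3 / 2 - 1 / (2 * (m + 1 : ℝ)) < s.re} := by
    intro s hs'
    exact Finset.analyticAt_fun_sum _ fun i _ =>
      (analyticAt_const.mul (pt3_pow_analytic _ (hNb i) Set.univ s trivial)).mul (hZ0 i s hs')
  have hPa : AnalyticOnNhd ℂ
      (fun s : ℂ => ∏ i, (1 - (q i : ℂ) * tm (tw ψ f φ j) s (c i))) {s | 1 / 2 < s.re} := by
    intro s hs'
    exact Finset.analyticAt_fun_prod _ fun i _ =>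
      (analyticAt_const.sub (analyticAt_const.mul
        (pt3_tm_analytic (tw ψ f φ j) (c i) (pt3_ne hs i) Set.univ s trivial)))
  obtain ⟨Λ, hΛa, hΛ, hΛG⟩ := glue (1 / (2 * (m + 1 : ℝ))) (by positivity)
    (fun s : ℂ => ∑ i, κ' i * ζ i ^ j * (Ideal.absNorm (b i) : ℂ) ^ s * Z i s)
    (fun s : ℂ => ∑ i, κ' i * ζ i ^ j * (Ideal.absNorm (b i) : ℂ) ^ s * Z0 i s)
    (fun s : ℂ => ∏ i, (1 - (q i : ℂ) * tm (tw ψ f φ j) s (c i)))
    hGa hZ0a hPa
    (fun s hs' => Finset.prod_ne_zero_iff.2 fun i _ => tw_P_ne h _ (c i) (by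
      rcases hφ.tI_pow j (c i) with h1 | h1
      · exact Or.inr (Complex.norm_eq_one_of_pow_eq_one h1 hN.ne')
      · exact Or.inl h1) (q i) (hs.prime i) (hs.norm i) s hs')
    (fun s hs' => by
      show _ = _ * _
      rw [← e1 s hs', (e3 s hs').tsum_eq])
  refine ⟨Λ, hΛa, fun s hs' => ?_, ?_⟩
  · rw [hΛ s hs']
    exact e3 s hs'
  have h1re : (1 / 2 : ℝ) < (1 : ℂ).re := by norm_num
  have e5 := hΛG 1 h1re
  rw [← mul_div_assoc, ← e5, map_sum, hm, Finset.sum_div]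
  refine Finset.sum_congr rfl fun i _ => ?_
  rw [map_mul, Polynomial.aeval_C, map_pow, Polynomial.aeval_X, Complex.cpow_one, ← he i]
  show _ = κ' i * ((Ideal.absNorm (b i) : ℕ) : ℂ) * (Z i 1 / Om ^ (m + 1)) * (η ^ j) ^ e i
  ring

end H41S
end

-- from Lib.H41S.A4
section

/-! # H41S, A4: the twist by the p-th power of the character -/

open NumberField IsDedekindDomain

namespace H41S

open H55N H55P
open H55B (g)
open H55R (Pl es fs pv tI)

variable {F : Type} [Field F] [NumberField F] [IQ F] {K : Type} [Field K] [NumberField K]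
  [Algebra F K]

theorem cop_iff {K : Type} [Field K] [NumberField K] (a f : Ideal (𝓞 K)) (ha : a ≠ ⊥) :
    IsCoprime a f ↔ ∀ v : Pl K, a ≤ v.asIdeal → ¬ f ≤ v.asIdeal := by
  rw [Ideal.isCoprime_iff_sup_eq]
  constructor
  · intro h v h1 h2
    apply v.isPrime.ne_top
    rw [eq_top_iff, ← h]
    exact sup_le h1 h2
  · intro h
    by_contra hne
    obtain ⟨P, hP, hle⟩ := Ideal.exists_le_maximal _ hne
    have h1 : a ≤ P := le_sup_left.trans hle
    have hP0 : P ≠ ⊥ := by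
      rintro rfl
      exact ha (le_bot_iff.1 h1)
    exact h ⟨P, hP.isPrime, hP0⟩ h1 (le_sup_right.trans hle)

open Classical in
theorem oneI_one {K : Type} [Field K] [NumberField K] (f a : Ideal (𝓞 K)) (ha : a ≠ ⊥) (hc : IsCoprime a f) :
    oneI f a = 1 := by
  show (if a ≠ ⊥ ∧ IsCoprime a f then (1 : ℂ) else 0) = 1
  rw [if_pos ⟨ha, hc⟩]

/-- the trivial twist -/
theorem tw_triv (ψ : Ideal (𝓞 F) →*₀ 𝓞 F) (f : Ideal (𝓞 K)) (φ : Pl K → ℂˣ) :
    tw ψ f φ 0 = (PsiP K ψ * oneI f : Ideal (𝓞 K) →*₀ ℂ) := by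
  ext a
  show PsiP K ψ a * tI f (φ ^ 0) a = PsiP K ψ a * oneI f a
  by_cases ha : a = ⊥
  · have : PsiP K ψ a = 0 := by
      rw [ha]
      exact (PsiP K ψ).map_zero
    rw [this, zero_mul, zero_mul]
  · by_cases hc : IsCoprime a f
    · rw [H55R.tI_apply _ _ ha hc, oneI_one f a ha hc, pow_zero, H55R.pv_one_fun, Units.val_one]
    · rw [H55R.tI_zero _ _ hc, pt3_oneI_zero f a hc]

/-- the p-th power of φ is φ' without the Euler factors at f -/
theorem tw_cmp (ψ : Ideal (𝓞 F) →*₀ 𝓞 F) {p : ℕ} (f f' : Ideal (𝓞 K)) (φ φ' : Pl K → ℂˣ)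
    (hff : ∀ v : Pl K, f' ≤ v.asIdeal → f ≤ v.asIdeal)
    (hφ : ∀ v : Pl K, ¬ f ≤ v.asIdeal → φ' v = φ v ^ p) (j : ℕ) :
    tw ψ f φ (p * j) = (tw ψ f' φ' j * oneI f : Ideal (𝓞 K) →*₀ ℂ) := by
  ext a
  show tw ψ f φ (p * j) a = tw ψ f' φ' j a * oneI f a
  by_cases ha : a = ⊥
  · rw [ha]
    have h1 : tw ψ f φ (p * j) ⊥ = 0 := (tw ψ f φ (p * j)).map_zero
    have h2 : tw ψ f' φ' j ⊥ = 0 := (tw ψ f' φ' j).map_zero
    rw [h1, h2, zero_mul]
  · by_cases hc : IsCoprime a f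
    · have hc' : IsCoprime a f' := by
        rw [cop_iff a f' ha]
        rw [cop_iff a f ha] at hc
        exact fun v h1 h2 => hc v h1 (hff v h2)
      rw [oneI_one f a ha hc, mul_one, tw_apply ψ f φ _ ha hc, tw_apply ψ f' φ' _ ha hc']
      have h1 : pv φ' a = pv φ a ^ p := by
        rw [← H55R.pv_pow]
        refine pv_congr φ' (φ ^ p) a fun v hv => ?_
        rw [hφ v ((cop_iff a f ha).1 hc v hv)]
        rfl
      rw [h1, Units.val_pow_eq_pow_val, pow_mul]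
    · rw [pt3_oneI_zero f a hc, tw_zero ψ f φ _ hc, mul_zero]

/-- the L-series and its value at 1 -/
theorem tw_cmpL {M : Ideal (𝓞 F)} {ψ : Ideal (𝓞 F) →*₀ 𝓞 F} (h : IsHecke M ψ) {p N' : ℕ} (hN' : N' ≠ 0)
    (f f' : Ideal (𝓞 K)) (hf : f ≠ ⊥) (φ φ' : Pl K → ℂˣ) (hφ' : CH p N' f' φ')
    (hff : ∀ v : Pl K, f' ≤ v.asIdeal → f ≤ v.asIdeal)
    (hφ : ∀ v : Pl K, ¬ f ≤ v.asIdeal → φ' v = φ v ^ p) (j : ℕ) (Λ Λ' : ℂ → ℂ)
    (ha : AnalyticOnNhd ℂ Λ {s | 1 / 2 < s.re}) (ha' : AnalyticOnNhd ℂ Λ' {s | 1 / 2 < s.re})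
    (hs : ∀ s : ℂ, 3 / 2 < s.re → HasSum (tm (tw ψ f φ (p * j)) s) (Λ s))
    (hs' : ∀ s : ℂ, 3 / 2 < s.re → HasSum (tm (tw ψ f' φ' j) s) (Λ' s))
    (S : Finset (Pl K)) (hS : ∀ w, w ∈ S ↔ f ≤ w.asIdeal) :
    Λ 1 = (∏ w ∈ S, (1 - tm (tw ψ f' φ' j) 1 w.asIdeal)) * Λ' 1 := by
  obtain ⟨S', hS', hsum⟩ := one_sumG (tw ψ f' φ' j) (fun a => tw_norm_le h hN' hφ' j a) f hf
  have hSS : S' = S := by
    ext w
    rw [hS', hS]
  subst hSS
  refine ident Λ (fun s => (∏ w ∈ S', (1 - tm (tw ψ f' φ' j) s w.asIdeal)) * Λ' s) ha ?_ (fun s hs1 => ?_) 1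
    (by norm_num)
  · refine AnalyticOnNhd.mul ?_ ha'
    intro z hz
    exact Finset.analyticAt_fun_prod _ fun w _ =>
      (analyticAt_const.sub (pt3_tm_analytic (tw ψ f' φ' j) w.asIdeal w.ne_bot Set.univ z trivial))
  · have h1 := hs s hs1
    rw [tw_cmp ψ f f' φ φ' hff hφ j] at h1
    have h2 := h1.unique (hsum s hs1)
    rw [h2, (hs' s hs1).tsum_eq]

/-- the trivial twist, value at 1 -/
theorem tw_trivL {M : Ideal (𝓞 F)} {ψ : Ideal (𝓞 F) →*₀ 𝓞 F} (h : IsHecke M ψ)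
    (f : Ideal (𝓞 K)) (hf : f ≠ ⊥) (φ : Pl K → ℂˣ) (Λ Λ' : ℂ → ℂ)
    (ha : AnalyticOnNhd ℂ Λ {s | 1 / 2 < s.re}) (ha' : AnalyticOnNhd ℂ Λ' {s | 1 / 2 < s.re})
    (hs : ∀ s : ℂ, 3 / 2 < s.re → HasSum (tm (tw ψ f φ 0) s) (Λ s))
    (hs' : ∀ s : ℂ, 3 / 2 < s.re → HasSum (tm (PsiP K ψ) s) (Λ' s)) :
    ∃ S : Finset (Pl K), (∀ w, w ∈ S ↔ f ≤ w.asIdeal) ∧
      Λ 1 = (∏ w ∈ S, (1 - tm (PsiP K ψ) 1 w.asIdeal)) * Λ' 1 := by
  obtain ⟨S, hS, hsum⟩ := one_sumG (PsiP K ψ) (fun a => PsiP_norm_le h a) f hf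
  refine ⟨S, hS, ident Λ (fun s => (∏ w ∈ S, (1 - tm (PsiP K ψ) s w.asIdeal)) * Λ' s) ha ?_ (fun s hs1 => ?_) 1
    (by norm_num)⟩
  · refine AnalyticOnNhd.mul ?_ ha'
    intro z hz
    exact Finset.analyticAt_fun_prod _ fun w _ =>
      (analyticAt_const.sub (pt3_tm_analytic (PsiP K ψ) w.asIdeal w.ne_bot Set.univ z trivial))
  · have h1 := hs s hs1
    rw [tw_triv ψ f φ] at h1
    have h2 := h1.unique (hsum s hs1)
    rw [h2, (hs' s hs1).tsum_eq]

end H41S
end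

-- from Lib.H41S.A6
section

/-! # H41S, A6: the valuations of the L-values of the faithful powers of the character -/

open NumberField IsDedekindDomain

namespace H41S

open H55N H55P
open H55B (g)
open H55R (Pl es fs pv tI)

variable {F : Type} [Field F] [NumberField F] [IQ F] {K : Type} [Field K] [NumberField K]
  [Algebra F K]

theorem a6_gcd {p n a g : ℕ} (hp : p.Prime) {z : ℂ} (hz : IsPrimitiveRoot z (p ^ n)) (hg : g * orderOf (z ^ a) = p ^ n) :
    Nat.gcd a (p ^ n) = g := by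
  have hpos : 0 < p ^ n := pow_pos hp.pos n
  have hfin : IsOfFinOrder z := isOfFinOrder_iff_pow_eq_one.2 ⟨p ^ n, hpos, hz.pow_eq_one⟩
  have h1 : orderOf z = p ^ n := hz.eq_orderOf.symm
  have h2 : orderOf (z ^ a) = p ^ n / Nat.gcd (p ^ n) a := by
    rw [hfin.orderOf_pow, h1]
  have h3 : Nat.gcd (p ^ n) a ∣ p ^ n := Nat.gcd_dvd_left _ _
  have h4 : Nat.gcd (p ^ n) a * (p ^ n / Nat.gcd (p ^ n) a) = p ^ n := Nat.mul_div_cancel' h3
  rw [h2] at hg
  have h5 : 0 < p ^ n / Nat.gcd (p ^ n) a := by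
    rcases Nat.eq_zero_or_pos (p ^ n / Nat.gcd (p ^ n) a) with h | h
    · rw [h, mul_zero] at h4
      omega
    · exact h
  rw [Nat.gcd_comm]
  exact Nat.eq_of_mul_eq_mul_right h5 (h4.trans hg.symm)

theorem tw_val (p : ℕ) (hp : p.Prime) {M : Ideal (𝓞 F)} {ψ : Ideal (𝓞 F) →*₀ 𝓞 F}
    (h : IsHecke M ψ) (hMp : IsCoprime M (Ideal.span {(p : 𝓞 F)})) (hF : UnrP p F) (hK : UnrP p K)
    (Ac Bc Om : ℂ) (hper : Per F Ac Bc Om) (V : ValuationSubring ℂ)
    (hV : V.valuation (p : ℂ) < 1) (hg : GoodV Ac Bc V) (hNT : NTP K p M ψ V) {n : ℕ} (f f' : Ideal (𝓞 K))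
    (φ φ' : Pl K → ℂˣ) (hφ : CH p (p ^ (n + 1)) f φ) (hφ' : CH p (p ^ n) f' φ')
    (hff : ∀ v : Pl K, f' ≤ v.asIdeal → f ≤ v.asIdeal)
    (hcmp : ∀ v : Pl K, ¬ f ≤ v.asIdeal → φ' v = φ v ^ p)
    (hLM : LVP F V Om (PsiP K ψ))
    (hna : ∀ w : Pl K, f' ≤ w.asIdeal → V.valuation (1 - (starRingEnd ℂ) (PsiP K ψ w.asIdeal)) = 1)
    (A : Finset (Pl K))
    (hA : ∀ w, w ∈ A ↔ f ≤ w.asIdeal ∧ V.valuation (1 - (starRingEnd ℂ) (PsiP K ψ w.asIdeal)) ≠ 1)
    (gg : Pl K → ℕ) (hgg : ∀ w ∈ A, gg w * orderOf (φ' w) = p ^ n) (hr : ∑ w ∈ A, gg w < p ^ n)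
    (η : ℂ) (hη : IsPrimitiveRoot η (p ^ (n + 1))) (j : ℕ) (hj : ¬ p ∣ j) :
    ∃ Λ : ℂ → ℂ, AnalyticOnNhd ℂ Λ {s | 1 / 2 < s.re} ∧
      (∀ s : ℂ, 3 / 2 < s.re → HasSum (tm (tw ψ f φ j) s) (Λ s)) ∧
      V.valuation (Λ 1 / Om ^ Module.finrank F K) = V.valuation (1 - η) ^ (∑ w ∈ A, gg w) := by
  classical
  have hN : 0 < p ^ (n + 1) := pow_pos hp.pos _
  have hN' : 0 < p ^ n := pow_pos hp.pos _
  have hη' : IsPrimitiveRoot (η ^ p) (p ^ n) := hη.pow hN (by rw [pow_succ, mul_comm])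
  obtain ⟨m, hm⟩ : ∃ m, Module.finrank F K = m + 1 :=
    ⟨Module.finrank F K - 1, (Nat.sub_add_cancel Module.finrank_pos).symm⟩
  obtain ⟨Bad1, hB1, hP1⟩ := smv p hp h hMp hK Ac Bc Om hper V hV hg hN f φ hφ η hη hm
  obtain ⟨Bad2, hB2, hP2⟩ := smv p hp h hMp hK Ac Bc Om hper V hV hg hN' f' φ' hφ' (η ^ p) hη' hm
  obtain ⟨c, q, hs, hcb, hun⟩ := exists_smoothP p hp h hMp V hV hNT m
    (Bad1 ∪ Bad2 ∪ {w : Ideal (𝓞 K) | f ≤ w}) ((hB1.union hB2).union (pt9_finite f hφ.ne))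
  have hcp : ∀ i, (c i).IsPrime := fun i => (hcb i).1
  obtain ⟨P, hP⟩ := hP1 c q hs fun i => ⟨hcp i, fun h1 => (hcb i).2 (Or.inl (Or.inl h1))⟩
  obtain ⟨P', hP'⟩ := hP2 c q hs fun i => ⟨hcp i, fun h1 => (hcb i).2 (Or.inl (Or.inr h1))⟩
  choose Λ hΛa hΛs hΛe using hP
  choose Λ' hΛa' hΛs' hΛe' using hP'
  have hcf : ∀ i, IsCoprime (c i) f := by
    intro i
    rw [cop_iff _ _ (pt3_ne hs i)]
    intro v hv hfv
    have h1 : c i = v.asIdeal := ((hcp i).isMaximal (pt3_ne hs i)).eq_of_le v.isPrime.ne_top hv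
    apply (hcb i).2
    right
    show f ≤ c i
    rw [h1]
    exact hfv
  -- the primes containing f
  have hfin : {w : HeightOneSpectrum (𝓞 K) | w.asIdeal ∣ f}.Finite := Ideal.finite_factors hφ.ne
  obtain ⟨S, hS⟩ : ∃ S : Finset (Pl K), ∀ w, w ∈ S ↔ f ≤ w.asIdeal := ⟨hfin.toFinset, fun w => by
    rw [Set.Finite.mem_toFinset]
    exact Ideal.dvd_iff_le⟩
  obtain ⟨R, hR⟩ : ∃ R : Finset (Pl K), R = S.filter (fun w => ¬ f' ≤ w.asIdeal) := ⟨_, rfl⟩
  have hRmem : ∀ w, w ∈ R ↔ f ≤ w.asIdeal ∧ ¬ f' ≤ w.asIdeal := fun w => by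
    rw [hR, Finset.mem_filter, hS]
  have hwp : ∀ w : Pl K, f ≤ w.asIdeal → IsCoprime w.asIdeal (Ideal.span {(p : 𝓞 K)}) := by
    intro w hw
    have h1 := hφ.cop
    rw [Ideal.isCoprime_iff_sup_eq] at h1 ⊢
    rw [← top_le_iff, ← h1]
    exact sup_le_sup_right hw _
  have hroot : ∀ w : Pl K, ∃ a : ℕ, (η ^ p) ^ a = (φ' w : ℂ) := fun w => by
    have : NeZero (p ^ n) := ⟨hN'.ne'⟩
    have h1 : (φ' w : ℂ) ^ (p ^ n) = 1 := by
      rw [← Units.val_pow_eq_pow_val, Units.val_eq_one]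
      exact congrFun hφ'.val w
    obtain ⟨a, -, ha⟩ := hη'.eq_pow_of_pow_eq_one h1
    exact ⟨a, ha⟩
  choose a ha using hroot
  have hAR : A ⊆ R := by
    intro w hw
    rw [hA] at hw
    rw [hRmem]
    exact ⟨hw.1, fun h1 => hw.2 (hna w h1)⟩
  have hgcd : ∀ w ∈ A, Nat.gcd (a w) (p ^ n) = gg w := by
    intro w hw
    refine a6_gcd hp hη' ?_
    rw [ha w, orderOf_units]
    exact hgg w hw
  have hsum : ∑ w ∈ A, Nat.gcd (a w) (p ^ n) = ∑ w ∈ A, gg w := Finset.sum_congr rfl hgcd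
  -- the comparison
  have hc : ∀ j : ℕ, Polynomial.aeval (η ^ (p * j)) P =
      (∏ w ∈ R, (1 - tm (PsiP K ψ) 1 w.asIdeal * (η ^ (p * j)) ^ a w)) * Polynomial.aeval (η ^ (p * j)) P' := by
    intro j
    have e1 := hΛe (p * j)
    have e2 := hΛe' j
    rw [← pow_mul] at e2
    rw [← e1, ← e2, tw_cmpL h hN'.ne' f f' hφ.ne φ φ' hφ' hff hcmp j (Λ (p * j)) (Λ' j) (hΛa _) (hΛa' _)
      (hΛs _) (hΛs' _) S hS]
    have e3 : ∏ i, (1 - (q i : ℂ) * tm (tw ψ f φ (p * j)) 1 (c i)) =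
        ∏ i, (1 - (q i : ℂ) * tm (tw ψ f' φ' j) 1 (c i)) := by
      refine Finset.prod_congr rfl fun i _ => ?_
      have e4 : tm (tw ψ f φ (p * j)) 1 (c i) = tm (tw ψ f' φ' j) 1 (c i) := by
        rw [tw_cmp ψ f f' φ φ' hff hcmp j]
        show (tw ψ f' φ' j (c i) * oneI f (c i)) * _ = tw ψ f' φ' j (c i) * _
        rw [oneI_one f _ (pt3_ne hs i) (hcf i), mul_one]
      rw [e4]
    have e5 : ∏ w ∈ S, (1 - tm (tw ψ f' φ' j) 1 w.asIdeal) =
        ∏ w ∈ R, (1 - tm (PsiP K ψ) 1 w.asIdeal * (η ^ (p * j)) ^ a w) := by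
      rw [hR, Finset.prod_filter]
      refine Finset.prod_congr rfl fun w hw => ?_
      by_cases hfw : f' ≤ w.asIdeal
      · rw [if_neg (not_not.2 hfw)]
        have e6 : tw ψ f' φ' j w.asIdeal = 0 := by
          refine tw_zero ψ f' φ' j fun hcop => ?_
          exact (cop_iff _ _ w.ne_bot).1 hcop w le_rfl hfw
        unfold tm
        rw [e6, zero_mul, sub_zero]
      · rw [if_pos hfw]
        have e6 : tw ψ f' φ' j w.asIdeal = PsiP K ψ w.asIdeal * (φ' w : ℂ) ^ j := by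
          rw [tw_apply ψ f' φ' j w.ne_bot (H55R.cop_prime w _ hfw), H55R.pv_prime]
        unfold tm
        rw [e6, ← ha w]
        ring
    rw [e3, e5]
    ring
  -- the unit
  have u1 : ∀ (f : Ideal (𝓞 K)) (φ : Pl K → ℂˣ) (e : ℕ) (_ : CH p (p ^ e) f φ) (j : ℕ),
      V.valuation (∏ i, (1 - (q i : ℂ) * tm (tw ψ f φ j) 1 (c i))) = 1 := by
    intro f φ e hφ j
    rw [map_prod]
    refine Finset.prod_eq_one fun i _ => factorQ p hp V hV ψ (tI f (φ ^ j)) (c i) (q i) (hs.prime i) (hs.norm i)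
      (hun i) e (hφ.tI_pow j (c i))
  have hP1u : V.valuation (Polynomial.aeval (1 : ℂ) P') = 1 := by
    obtain ⟨ΛK, hKa, hKs, hKu⟩ := hLM
    obtain ⟨S', hS', hval⟩ := tw_trivL h f' hφ'.ne φ' (Λ' 0) ΛK (hΛa' 0) hKa (hΛs' 0) hKs
    have e1 := hΛe' 0
    rw [pow_zero] at e1
    rw [← e1, map_mul, u1 f' φ' n hφ' 0, one_mul, hval, mul_div_assoc, map_mul, hKu, mul_one, map_prod]
    refine Finset.prod_eq_one fun w hw => ?_
    exact EfacP p hp V hV h w (hwp w (hff w ((hS' w).1 hw))) (hna w ((hS' w).1 hw))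
  have hmain := c2_main V hp hV hη R A hAR (fun w => tm (PsiP K ψ) 1 w.asIdeal) a P P'
    (fun w hw => a5_le hp h V hV w (hwp w ((hRmem w).1 hw).1))
    (fun w hw hwA => by
      refine EfacP p hp V hV h w (hwp w ((hRmem w).1 hw).1) ?_
      by_contra hne
      exact hwA ((hA w).2 ⟨((hRmem w).1 hw).1, hne⟩))
    (fun w hw => a5_an hp hF h V hV w (hwp w ((hA w).1 hw).1) ((hA w).1 hw).2)
    (by rw [hsum]; exact hr) hP1u hc j hj
  refine ⟨Λ j, hΛa j, hΛs j, ?_⟩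
  rw [← hsum, ← hmain, ← hΛe j, map_mul, u1 f φ (n + 1) hφ j, one_mul]

end H41S
end

-- from Lib.H41S.B2
section

/-! # H41S, B2: the ray class character of a cyclic extension unramified above p -/

open NumberField IsDedekindDomain

namespace H41S

open H55N H55P
open H55R (Pl es fs pv tI)

/-- PROOF. Model: H35M.rec_full (Lib/H35M/SX1.lean), simpler here (no primes above p, any modulus). S = the finite set of ramified primes (H55R.ram_fin), N from CFT.artin (hab from θ injective), f = the product over S of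
v^(N+1) (a power large enough that z - 1 in f implies Ray S N z: the valuation of z - 1 is at most exp(-(N+1)) < exp(-N): HeightOneSpectrum.valuation_le_pow_iff_mem or the lemma used in SSR.c1_dv; no real places:
hre). f <= v iff v in S (IsPrime.prod_le). f is prime to p: a prime v in S does not contain p (pt10_ram of H55P/T10: es = 1 if p in v) so v is coprime to (p) (H55R.cop_prime), IsCoprime.prod_left, IsCoprime.pow_left. val: θ(frob)^N = θ(frob^N) = 1
(pow_card_eq_one'). per: as in SX1: choose u with u x - 1 in f, u y - 1 in f, artin for u x and u y: art S θ (dv x) = art S θ (dv y), SSR.c2_pv. -/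
theorem b2_CH (M L : Type) [Field M] [NumberField M] [Field L] [NumberField L] [Algebra M L] [IsGalois M L] (p : ℕ)
    (hp : p.Prime) (hU : UnrP p L) (hre : IsEmpty (M →+* ℝ)) (θ : (L ≃ₐ[M] L) →* ℂˣ) (hθ : Function.Injective θ) :
    ∃ f : Ideal (𝓞 M), CH p (Nat.card (L ≃ₐ[M] L)) f (fun v => θ (CFT.frob M L v)) ∧
      ∀ v : Pl M, f ≤ v.asIdeal ↔ es M L v ≠ 1 := by
  classical
  have hfinG : Finite (L ≃ₐ[M] L) := inferInstance
  have hab : ∀ a b : L ≃ₐ[M] L, a * b = b * a := by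
    intro a b
    apply hθ
    rw [map_mul, map_mul, mul_comm]
  have hfin := H55R.ram_fin M L
  obtain ⟨S, hSd⟩ : ∃ S : Finset (Pl M), S = hfin.toFinset := ⟨_, rfl⟩
  have hS : ∀ v, v ∈ S ↔ es M L v ≠ 1 := fun v => by
    rw [hSd, Set.Finite.mem_toFinset]
    rfl
  have hS' : ∀ v : CFT.Pr M, ¬ CFT.Unr M L v → v ∈ S := fun v hv =>
    (hS v).2 (fun h => hv ((SSR.c2_unr v).2 h))
  obtain ⟨n, hart0⟩ := CFT.artin M L hab S hS'
  obtain ⟨f, hfd⟩ : ∃ f : Ideal (𝓞 M), f = ∏ v ∈ S, v.asIdeal ^ (n + 1) := ⟨_, rfl⟩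
  have hf0 : f ≠ ⊥ := by
    rw [hfd]
    exact Finset.prod_ne_zero_iff.2 fun v _ => pow_ne_zero _ v.ne_bot
  have hf : ∀ v : Pl M, f ≤ v.asIdeal ↔ es M L v ≠ 1 := by
    intro v
    have hpv := v.isPrime
    rw [hfd, hpv.prod_le]
    constructor
    · rintro ⟨w, hw, hle⟩
      have hwm := w.isMaximal
      have h1 : w = v := HeightOneSpectrum.ext (hwm.eq_of_le hpv.ne_top (hpv.le_of_pow_le hle))
      rw [← h1]
      exact (hS w).1 hw
    · intro h
      exact ⟨v, (hS v).2 h, Ideal.pow_le_self (by omega)⟩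
  have hcop : IsCoprime f (Ideal.span {(p : 𝓞 M)}) := by
    rw [hfd]
    refine IsCoprime.prod_left fun v hv => IsCoprime.pow_left (H55R.cop_prime v _ ?_)
    rw [Ideal.span_singleton_le_iff_mem]
    exact fun h => (hS v).1 hv (pt10_ram M L p hU v h)
  refine ⟨f, ⟨hf0, hcop, ?_, ?_⟩, hf⟩
  · funext v
    show θ (CFT.frob M L v) ^ Nat.card (L ≃ₐ[M] L) = 1
    rw [← map_pow, pow_card_eq_one', map_one]
  · intro x y hx hy hxc hxy
    have hyc : IsCoprime (Ideal.span {y}) f := by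
      rw [Ideal.isCoprime_iff_sup_eq] at hxc ⊢
      rw [eq_top_iff, ← hxc]
      refine sup_le ?_ le_sup_right
      rw [Ideal.span_singleton_le_iff_mem]
      have h1 : x = y + (x - y) := by ring
      rw [h1]
      exact add_mem (Ideal.mem_sup_left (Ideal.mem_span_singleton_self y)) (Ideal.mem_sup_right hxy)
    have hnot : ∀ z : 𝓞 M, IsCoprime (Ideal.span {z}) f → ∀ v ∈ S, z ∉ v.asIdeal := by
      intro z hz v hv hzv
      rw [Ideal.isCoprime_iff_sup_eq] at hz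
      apply v.isPrime.ne_top
      rw [eq_top_iff, ← hz]
      exact sup_le ((Ideal.span_singleton_le_iff_mem _).2 hzv) ((hf v).2 ((hS v).1 hv))
    -- one over x modulo f
    obtain ⟨u, hu0, hu⟩ : ∃ u : 𝓞 M, u ≠ 0 ∧ u * x - 1 ∈ f := by
      obtain ⟨a, ha, b, hb, hab1⟩ := Ideal.isCoprime_iff_exists.1 hxc
      obtain ⟨u, rfl⟩ := Ideal.mem_span_singleton'.1 ha
      by_cases hu0 : u = 0
      · refine ⟨1, one_ne_zero, ?_⟩
        rw [hu0, zero_mul, zero_add] at hab1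
        rw [hab1] at hb
        rw [(Ideal.eq_top_iff_one _).2 hb]
        exact Submodule.mem_top
      · refine ⟨u, hu0, ?_⟩
        have h1 : u * x - 1 = -b := by rw [← hab1]; ring
        rw [h1]
        exact neg_mem hb
    have huy : u * y - 1 ∈ f := by
      have h1 : u * y - 1 = (u * x - 1) - u * (x - y) := by ring
      rw [h1]
      exact sub_mem hu (Ideal.mul_mem_left _ _ hxy)
    have hart : ∀ z : 𝓞 M, z ≠ 0 → z - 1 ∈ f → CFT.art S θ (CFT.dv (z : M)) = 0 := by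
      intro z hz0 hz
      refine hart0 ℂˣ θ (z : M) ⟨fun h => hz0 (RingOfIntegers.coe_eq_zero_iff.1 h), fun v hv => ?_,
        fun φ => hre.elim φ⟩
      have h1 : f ≤ v.asIdeal ^ (n + 1) := by
        rw [hfd]
        exact Ideal.le_of_dvd (Finset.dvd_prod_of_mem (fun v : Pl M => v.asIdeal ^ (n + 1)) hv)
      have h4 := (v.intValuation_le_pow_iff_mem (z - 1) (n + 1)).2 (h1 hz)
      rw [← v.valuation_of_algebraMap (K := M) (z - 1)] at h4
      have h5 : (z : M) - 1 = algebraMap (𝓞 M) M (z - 1) := by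
        rw [map_sub, map_one]
      rw [h5]
      refine lt_of_le_of_lt h4 ?_
      rw [WithZero.exp_lt_exp]
      push_cast
      omega
    have h1 := hart (u * x) (mul_ne_zero hu0 hx) hu
    have h2 := hart (u * y) (mul_ne_zero hu0 hy) huy
    have huN : (u : M) ≠ 0 := by simpa using hu0
    have hxN : (x : M) ≠ 0 := by simpa using hx
    have hyN : (y : M) ≠ 0 := by simpa using hy
    have e1 : ((u * x : 𝓞 M) : M) = (u : M) * (x : M) := by simp
    have e2 : ((u * y : 𝓞 M) : M) = (u : M) * (y : M) := by simp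
    rw [e1, CFT.dv_mul huN hxN, map_add] at h1
    rw [e2, CFT.dv_mul huN hyN, map_add] at h2
    have h3 : CFT.art S θ (CFT.dv (x : M)) = CFT.art S θ (CFT.dv (y : M)) := add_left_cancel (h1.trans h2.symm)
    rw [SSR.c2_pv S θ x hx (hnot x hxc), SSR.c2_pv S θ y hy (hnot y hyc), h3]

end H41S
end

-- from Lib.H41S.B4
section

/-! # H41S, B4: ramification in a cyclic extension of prime power degree -/

open NumberField IsDedekindDomain

namespace H41S

open H55R (Pl es fs)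

/-- The ramification index at one prime. -/
theorem b4_es {M K : Type} [Field M] [NumberField M] [Field K] [NumberField K] [Algebra M K] [IsGalois M K]
    (v : Pl M) (W : Pl K) (h : W.asIdeal.under (𝓞 M) = v.asIdeal) :
    es M K v = W.asIdeal.ramificationIdx (𝓞 M) := by
  have hp := v.isPrime
  have hW := W.isPrime
  have hl : W.asIdeal.LiesOver v.asIdeal := ⟨h.symm⟩
  exact Ideal.ramificationIdxIn_eq_ramificationIdx v.asIdeal W.asIdeal Gal(K/M)

/-- In a cyclic group of prime power order a nontrivial subgroup contains the elements of order p. -/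
theorem b4_cyc {G : Type} [Group G] [Finite G] (hc : IsCyclic G) {p m : ℕ} (hp : p.Prime) (hG : Nat.card G = p ^ m)
    (I : Subgroup G) (hI : Nat.card I ≠ 1) (x : G) (hx : x ^ p = 1) : x ∈ I := by
  classical
  have hF : Fact p.Prime := ⟨hp⟩
  have hft : Fintype G := Fintype.ofFinite G
  have h1 : Nat.card I ∣ p ^ m := by
    rw [← hG]
    exact Subgroup.card_subgroup_dvd_card I
  have h2 : p ∣ Nat.card I := by
    obtain ⟨k, hk, h3⟩ := (Nat.dvd_prime_pow hp).1 h1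
    rw [h3]
    refine dvd_pow_self p ?_
    rintro rfl
    exact hI (by rw [h3, pow_zero])
  obtain ⟨a, ha⟩ := exists_prime_orderOf_dvd_card' p h2
  have ha' : orderOf (a : G) = p := by rw [Subgroup.orderOf_coe, ha]
  have h3 := IsCyclic.card_pow_eq_one_le (α := G) hp.pos
  have h4 : (Subgroup.zpowers (a : G) : Set G).toFinset ⊆ Finset.univ.filter fun y : G => y ^ p = 1 := by
    intro y hy
    rw [Set.mem_toFinset] at hy
    rw [Finset.mem_filter]
    refine ⟨Finset.mem_univ _, ?_⟩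
    obtain ⟨k, rfl⟩ := hy
    show ((a : G) ^ k) ^ p = 1
    rw [← zpow_natCast, zpow_comm, zpow_natCast, ← ha', pow_orderOf_eq_one, one_zpow]
  have h5 : (Subgroup.zpowers (a : G) : Set G).toFinset.card = p := by
    rw [Set.toFinset_card]
    have h6 : Fintype.card (Subgroup.zpowers (a : G)) = p := by
      rw [Fintype.card_zpowers, ha']
    rw [← h6]
    rfl
  have h6 := Finset.eq_of_subset_of_card_le h4 (by rw [h5]; exact h3)
  have h7 : x ∈ (Subgroup.zpowers (a : G) : Set G).toFinset := by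
    rw [h6, Finset.mem_filter]
    exact ⟨Finset.mem_univ _, hx⟩
  rw [Set.mem_toFinset] at h7
  exact (Subgroup.zpowers_le.2 a.2) h7

/-- In a cyclic p-extension the inertia group of a ramified prime contains the subgroup of order p.
PROOF. Let W be a prime of K above w, v = W under M. The inertia group I of W over M (Ideal.inertia, {s : s x - x in W for all x in 𝓞 K}) has order e(W/v) = es M K v (Mathlib: Ideal.card_inertia_eq_ramificationIdxIn or the analogous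
statement; see also CFT/B16, B17, H55R), so is not trivial. Gal(K/M) is cyclic of order p^(n+1), so every nontrivial subgroup contains every element of order p (the elements with s^p = 1 form the unique subgroup of order p:
IsCyclic.card_pow_eq_one_le; a nontrivial p-subgroup contains an element of order p by Cauchy). An element t of Gal(K/K') (order p, restricted to scalars in Gal(K/M): AlgEquiv.restrictScalars) satisfies t^p = 1, so t is in I:
t x - x in W for all x in 𝓞 K: so the inertia group of W over K' is all of Gal(K/K'), of order p = e(W/w) = es K' K w. -/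
theorem b4_ram (M K' K : Type) [Field M] [NumberField M] [Field K'] [NumberField K'] [Field K] [NumberField K]
    [Algebra M K'] [Algebra M K] [Algebra K' K] [IsScalarTower M K' K] [IsGalois M K] [IsGalois K' K]
    (hc : IsCyclic (K ≃ₐ[M] K)) {p n : ℕ} (hp : p.Prime) (hd : Module.finrank M K = p ^ (n + 1))
    (hd' : Module.finrank K' K = p) (v : Pl M) (hv : es M K v ≠ 1) (w : Pl K') (hw : w.asIdeal.under (𝓞 M) = v.asIdeal) :
    es K' K w = p := by
  obtain ⟨W, hW⟩ := H55R.under_exists (K := K') (L := K) w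
  have hWp := W.isPrime
  have h1 : W.asIdeal.under (𝓞 K') = w.asIdeal := congrArg HeightOneSpectrum.asIdeal hW
  have h2 : W.asIdeal.under (𝓞 M) = v.asIdeal := by
    rw [← hw, ← h1, Ideal.under_under]
  have h3 : Nat.card (W.asIdeal.inertia Gal(K/M)) ≠ 1 := by
    rw [H55P.cl_card (M := M) W.asIdeal W.ne_bot, ← b4_es v W h2]
    exact hv
  have h4 : Nat.card Gal(K/M) = p ^ (n + 1) := by
    rw [IsGalois.card_aut_eq_finrank, hd]
  have h5 : Nat.card Gal(K/K') = p := by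
    rw [IsGalois.card_aut_eq_finrank, hd']
  have h6 : ∀ t : Gal(K/K'), t ∈ W.asIdeal.inertia Gal(K/K') := by
    intro t
    have h7 : t ^ p = 1 := by rw [← h5, pow_card_eq_one']
    have h8 : (t.restrictScalars M) ^ p = 1 := by
      apply AlgEquiv.ext
      intro x
      have h9 : ∀ k : ℕ, ((t.restrictScalars M) ^ k) x = (t ^ k) x := by
        intro k
        induction k with
        | zero => rfl
        | succ k ih =>
          rw [pow_succ', pow_succ', AlgEquiv.mul_apply, AlgEquiv.mul_apply, ih]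
          rfl
      rw [h9, h7]
      rfl
    have h9 := b4_cyc hc hp h4 (W.asIdeal.inertia Gal(K/M)) h3 (t.restrictScalars M) h8
    intro x
    exact h9 x
  have h7 : W.asIdeal.inertia Gal(K/K') = ⊤ := by
    rw [eq_top_iff]
    intro t _
    exact h6 t
  rw [b4_es w W h1, ← H55P.cl_card (M := K') W.asIdeal W.ne_bot, h7, Subgroup.card_top, h5]

/-- Unramified in K implies unramified in K', and the primes of K' above v are unramified in K.
PROOF. e(W/v) = e(W/w) e(w/v) (Ideal.ramificationIdx_tower / the lemma i3_tower in H55P/I3.lean or CFT.unr_tower with SSR.c2_unr). -/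
theorem b4_unr (M K' K : Type) [Field M] [NumberField M] [Field K'] [NumberField K'] [Field K] [NumberField K]
    [Algebra M K'] [Algebra M K] [Algebra K' K] [IsScalarTower M K' K] [IsGalois M K] [IsGalois M K'] [IsGalois K' K]
    (v : Pl M) (hv : es M K v = 1) : es M K' v = 1 ∧ ∀ w : Pl K', w.asIdeal.under (𝓞 M) = v.asIdeal → es K' K w = 1 := by
  have key : ∀ w : Pl K', w.asIdeal.under (𝓞 M) = v.asIdeal → es M K' v * es K' K w = 1 := by
    intro w hw
    obtain ⟨W, hW⟩ := H55R.under_exists (K := K') (L := K) w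
    have hWp := W.isPrime
    have h1 : W.asIdeal.under (𝓞 K') = w.asIdeal := congrArg HeightOneSpectrum.asIdeal hW
    have h2 : W.asIdeal.under (𝓞 M) = v.asIdeal := by
      rw [← hw, ← h1, Ideal.under_under]
    have h3 := H55P.cl_tower (M := M) (X := K') W.asIdeal
    rw [← b4_es v W h2, hv, h1, ← b4_es v w hw, ← b4_es w W h1] at h3
    exact h3.symm
  obtain ⟨w, hw⟩ := H55R.under_exists (K := M) (L := K') v
  have hw' : w.asIdeal.under (𝓞 M) = v.asIdeal := congrArg HeightOneSpectrum.asIdeal hw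
  exact ⟨Nat.eq_one_of_mul_eq_one_right (key w hw'), fun w hw => Nat.eq_one_of_mul_eq_one_left (key w hw)⟩

end H41S
end

-- from Lib.H41S.B5
section

/-! # H41S, B5: the Euler factors in a cyclic extension of degree p^(n+1) -/

open NumberField IsDedekindDomain

namespace H41S

open H55N H55P
open H55R (Pl es fs pv tI)

/-- PROOF. Only algebra in a commutative monoid: split range (p^(n+1)) into the multiples of p (the image of range (p^n) under i ↦ p i: Finset.prod_image / Finset.prod_filter_mul_prod_filter_not) and the rest. -/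
theorem b5_split {A : Type} [CommMonoid A] {p : ℕ} (hp : p.Prime) (n : ℕ) (E : ℕ → A) :
    ∏ j ∈ Finset.range (p ^ (n + 1)), E j =
      (∏ j ∈ Finset.range (p ^ n), E (p * j)) * ∏ j ∈ (Finset.range (p ^ (n + 1))).filter (fun j => ¬ p ∣ j), E j := by
  rw [← Finset.prod_filter_mul_prod_filter_not (Finset.range (p ^ (n + 1))) (fun j => p ∣ j) E]
  congr 1
  symm
  refine Finset.prod_nbij (fun j => p * j) (fun j hj => ?_) (fun i _ j _ h => ?_) (fun j hj => ?_) (fun _ _ => rfl)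
  · rw [Finset.mem_filter, Finset.mem_range]
    refine ⟨?_, dvd_mul_right p j⟩
    rw [pow_succ, mul_comm]
    exact Nat.mul_lt_mul_of_pos_right (Finset.mem_range.1 hj) hp.pos
  · exact Nat.eq_of_mul_eq_mul_left hp.pos h
  · rw [Finset.mem_coe, Finset.mem_filter, Finset.mem_range] at hj
    obtain ⟨h1, i, rfl⟩ := hj
    refine ⟨i, ?_, rfl⟩
    rw [Finset.mem_coe, Finset.mem_range]
    rw [pow_succ, mul_comm] at h1
    exact Nat.lt_of_mul_lt_mul_right h1

/-- PROOF. pt4_cu (H55P/T4.lean): the left side is (prod over j < f of E j)^g with E j the Euler factor of a z^j; E is periodic with period f (z^f = 1): induction on g with Finset.prod_range_add or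
Finset.prod_range_succ_mul_comm: range (f (g+1)) = range (f g + f). -/
theorem b5_per (q : ℕ) (a z : ℂ) (f g : ℕ) (hf : 0 < f) (hz : IsPrimitiveRoot z f) :
    (ArithmeticFunction.ofPowerSeries (q ^ f) ((1 - PowerSeries.C (a ^ f) * PowerSeries.X)⁻¹ : PowerSeries ℂ)) ^ g =
    ∏ j ∈ Finset.range (f * g), ArithmeticFunction.ofPowerSeries q
      ((1 - PowerSeries.C (a * z ^ j) * PowerSeries.X)⁻¹ : PowerSeries ℂ) := by
  induction g with
  | zero => rw [pow_zero, mul_zero, Finset.prod_range_zero]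
  | succ g ih =>
    rw [pow_succ, ih, mul_add, mul_one, Finset.prod_range_add]
    congr 1
    rw [pt4_cu q a z f hf hz]
    refine Finset.prod_congr rfl fun j _ => ?_
    have h1 : z ^ (f * g + j) = z ^ j := by rw [pow_add, pow_mul, hz.pow_eq_one, one_pow, one_mul]
    rw [h1]

variable {F : Type} [Field F] [NumberField F] [IQ F]

/-- The Euler factors above an unramified prime.
PROOF. T from pt10_card (H55P/T10.lean), es = 1: T.card * fs = finrank; relNorm W = w^fs (H55R.CH2_norm), so H9_EF (PsiP L ψ) W = ofPowerSeries (q^fs) (1 - C (a^fs) X)^(-1), a = PsiP M ψ v, q = absNorm v (PsiP_top, pt4_norm; as in pt4_loc);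
fs = orderOf (frob) (CFT.order_frob with SSR.c2_unr, SSR.c2_es) = orderOf θ(frob) (θ injective: orderOf_injective), so z = θ(frob) is a primitive fs-th root (IsPrimitiveRoot.orderOf; IsPrimitiveRoot.coe_units_iff). b5_per with g = T.card. -/
theorem b5_unr (M L : Type) [Field M] [NumberField M] [Algebra F M] [Field L] [NumberField L] [Algebra F L] [Algebra M L]
    [IsScalarTower F M L] [IsGalois M L] (ψ : Ideal (𝓞 F) →*₀ 𝓞 F) (θ : (L ≃ₐ[M] L) →* ℂˣ)
    (hθ : Function.Injective θ) (v : Pl M) (hv : es M L v = 1) :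
    ∃ T : Finset (Pl L), (∀ W, W ∈ T ↔ W.asIdeal.under (𝓞 M) = v.asIdeal) ∧
      T.card * orderOf (θ (CFT.frob M L v)) = Module.finrank M L ∧
      ∏ W ∈ T, H9_EF (PsiP L ψ) W = ∏ j ∈ Finset.range (Module.finrank M L),
        ArithmeticFunction.ofPowerSeries (Ideal.absNorm v.asIdeal)
          ((1 - PowerSeries.C (PsiP M ψ v.asIdeal * (θ (CFT.frob M L v) : ℂ) ^ j) * PowerSeries.X)⁻¹ : PowerSeries ℂ) := by
  have hab : ∀ a b : L ≃ₐ[M] L, a * b = b * a := by
    intro a b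
    apply hθ
    rw [map_mul, map_mul, mul_comm]
  obtain ⟨T, hT, hc⟩ := pt10_card (K' := L) v
  rw [hv, one_mul] at hc
  obtain ⟨w, hw⟩ := CFT.below_surj (K := M) (L := L) v
  have h1 := CFT.order_frob hab ((SSR.c2_unr v).2 hv) w hw
  have h2 : orderOf (θ (CFT.frob M L v)) = fs M L v := by
    rw [orderOf_injective θ hθ, h1, ← (SSR.c2_es v w hw).2]
  have hpos : 0 < fs M L v := by
    rw [← h2]
    exact orderOf_pos_iff.2 (by
      have := (isOfFinOrder_of_finite (CFT.frob M L v))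
      exact MonoidHom.isOfFinOrder θ this)
  have hz : IsPrimitiveRoot (θ (CFT.frob M L v) : ℂ) (fs M L v) := by
    rw [IsPrimitiveRoot.coe_units_iff, ← h2]
    exact IsPrimitiveRoot.orderOf _
  refine ⟨T, hT, by rw [h2, hc], ?_⟩
  have e1 : ∀ W ∈ T, H9_EF (PsiP L ψ) W = ArithmeticFunction.ofPowerSeries (Ideal.absNorm v.asIdeal ^ fs M L v)
      ((1 - PowerSeries.C (PsiP M ψ v.asIdeal ^ fs M L v) * PowerSeries.X)⁻¹ : PowerSeries ℂ) := by
    intro W hW
    unfold H9_EF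
    rw [PsiP_top (K := M) ψ L, pt4_norm M L, H55R.CH2_norm v W ((hT W).1 hW), map_pow, map_pow]
  rw [Finset.prod_congr rfl e1, Finset.prod_const, b5_per _ _ _ _ _ hpos hz, mul_comm, hc]

/-- The Euler factors above a prime w of K' with es K' K w = p = [K : K'] : one prime above w, the same factor.
PROOF. pt10_card: T.card * (p * fs) = p, so T.card = 1, fs = 1; CH2_norm; PsiP_top; pt4_norm. -/
theorem b5_tot (K' K : Type) [Field K'] [NumberField K'] [Algebra F K'] [Field K] [NumberField K] [Algebra F K] [Algebra K' K]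
    [IsScalarTower F K' K] [IsGalois K' K] (ψ : Ideal (𝓞 F) →*₀ 𝓞 F) {p : ℕ} (hp : p.Prime)
    (hd : Module.finrank K' K = p) (w : Pl K') (hw : es K' K w = p) :
    ∃ W : Pl K, (∀ W' : Pl K, W'.asIdeal.under (𝓞 K') = w.asIdeal ↔ W' = W) ∧ H9_EF (PsiP K ψ) W = H9_EF (PsiP K' ψ) w := by
  obtain ⟨T, hT, hc⟩ := pt10_card (K' := K) w
  rw [hw, hd] at hc
  have hc1 : T.card * fs K' K w = 1 := by
    have h2 : p * (T.card * fs K' K w) = p * 1 := by
      rw [mul_one]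
      nlinarith
    exact Nat.eq_of_mul_eq_mul_left hp.pos h2
  have hcT : T.card = 1 := Nat.eq_one_of_mul_eq_one_right hc1
  have hf1 : fs K' K w = 1 := Nat.eq_one_of_mul_eq_one_left hc1
  obtain ⟨W, rfl⟩ := Finset.card_eq_one.1 hcT
  refine ⟨W, fun W' => by rw [← hT, Finset.mem_singleton], ?_⟩
  unfold H9_EF
  rw [PsiP_top (K := K') ψ K, pt4_norm K' K, H55R.CH2_norm w W ((hT W).1 (Finset.mem_singleton_self _)), hf1, pow_one]

end H41S
end

-- from Lib.H41S.B6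
section

/-! # H41S, B6: the L-series in a cyclic extension of degree p^(n+1) -/

open NumberField IsDedekindDomain

namespace H41S

open H55N H55P
open H55R (Pl es fs pv tI)

variable {F : Type} [Field F] [NumberField F] [IQ F]

theorem b6_EF {K : Type} [Field K] [NumberField K] (h : Ideal (𝓞 K) →*₀ ℂ) (w : Pl K) (h0 : h w.asIdeal = 0) :
    H9_EF h w = 1 := by
  unfold H9_EF
  rw [h0, map_zero, zero_mul, sub_zero]
  have h2 : ((1 : PowerSeries ℂ)⁻¹) = 1 := by simp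
  rw [h2, map_one]

section

variable (M K' K : Type) [Field M] [NumberField M] [Field K'] [NumberField K'] [Field K] [NumberField K]
    [Algebra F M] [Algebra F K'] [Algebra F K] [Algebra M K'] [Algebra M K] [Algebra K' K] [IsScalarTower F M K']
    [IsScalarTower F M K] [IsScalarTower F K' K] [IsScalarTower M K' K] [IsGalois M K] [IsGalois M K'] [IsGalois K' K]

omit [IsGalois M K] [IsGalois M K'] [IsGalois K' K] [IsScalarTower F M K'] [IsScalarTower F M K] [IsScalarTower F K' K] in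
theorem b6_loc_ram [IsGalois M K] [IsGalois M K'] [IsGalois K' K] [IsScalarTower F K' K]
    (hc : IsCyclic (K ≃ₐ[M] K)) {p n : ℕ} (hp : p.Prime) (hd : Module.finrank M K = p ^ (n + 1))
    (hdK : Module.finrank K' K = p) (ψ : Ideal (𝓞 F) →*₀ 𝓞 F) (v : Pl M) (hv : es M K v ≠ 1) :
    ∃ (A : Finset (Pl K)) (B : Finset (Pl K')), (∀ W, W ∈ A ↔ W.asIdeal.under (𝓞 M) = v.asIdeal) ∧
      (∀ w, w ∈ B ↔ w.asIdeal.under (𝓞 M) = v.asIdeal) ∧
      ∏ W ∈ A, H9_EF (PsiP K ψ) W = ∏ w ∈ B, H9_EF (PsiP K' ψ) w := by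
  classical
  obtain ⟨B, hB, -⟩ := pt10_card (K' := K') v
  have h1 : ∀ w : Pl K', ∃ W : Pl K, w ∈ B → (∀ W' : Pl K, W'.asIdeal.under (𝓞 K') = w.asIdeal ↔ W' = W) ∧
      H9_EF (PsiP K ψ) W = H9_EF (PsiP K' ψ) w := by
    intro w
    by_cases hw : w ∈ B
    · obtain ⟨W, hW⟩ := b5_tot K' K ψ hp hdK w (b4_ram M K' K hc hp hd hdK v hv w ((hB w).1 hw))
      exact ⟨W, fun _ => hW⟩
    · obtain ⟨W, -⟩ := H55R.under_exists (L := K) w
      exact ⟨W, fun h => absurd h hw⟩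
  choose W hW using h1
  refine ⟨B.image W, B, fun U => ?_, hB, ?_⟩
  · rw [Finset.mem_image]
    constructor
    · rintro ⟨w, hw, rfl⟩
      have h2 := ((hW w hw).1 (W w)).2 rfl
      rw [← (hB w).1 hw, ← h2, Ideal.under_under]
    · intro hU
      let u : Pl K' := HeightOneSpectrum.under (𝓞 K') U
      have hu : u.asIdeal = U.asIdeal.under (𝓞 K') := rfl
      have hu2 : u ∈ B := by
        rw [hB, hu, Ideal.under_under]
        exact hU
      exact ⟨u, hu2, (((hW u hu2).1 U).1 hu.symm).symm⟩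
  · rw [Finset.prod_image]
    · exact Finset.prod_congr rfl fun w hw => (hW w hw).2
    · intro w hw w' hw' he
      have h2 := ((hW w hw).1 (W w)).2 rfl
      have h3 := ((hW w' hw').1 (W w')).2 rfl
      rw [← he] at h3
      exact HeightOneSpectrum.ext (h2.symm.trans h3)

theorem b6_loc (hc : IsCyclic (K ≃ₐ[M] K)) {p n : ℕ} (hp : p.Prime) (hd : Module.finrank M K = p ^ (n + 1))
    (hd' : Module.finrank M K' = p ^ n) (hdK : Module.finrank K' K = p) (ψ : Ideal (𝓞 F) →*₀ 𝓞 F)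
    (θ : (K ≃ₐ[M] K) →* ℂˣ) (θ' : (K' ≃ₐ[M] K') →* ℂˣ) (hθ : Function.Injective θ) (hθ' : Function.Injective θ')
    (hcmp : ∀ v : Pl M, es M K v = 1 → θ' (CFT.frob M K' v) = θ (CFT.frob M K v) ^ p)
    (f : Ideal (𝓞 M)) (hf : ∀ v : Pl M, f ≤ v.asIdeal ↔ es M K v ≠ 1) (v : Pl M) :
    ∃ (A : Finset (Pl K)) (B : Finset (Pl K')), (∀ W, W ∈ A ↔ W.asIdeal.under (𝓞 M) = v.asIdeal) ∧
      (∀ w, w ∈ B ↔ w.asIdeal.under (𝓞 M) = v.asIdeal) ∧
      ∏ W ∈ A, H9_EF (PsiP K ψ) W = (∏ w ∈ B, H9_EF (PsiP K' ψ) w) *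
        ∏ j ∈ (Finset.range (p ^ (n + 1))).filter (fun j => ¬ p ∣ j),
          H9_EF (tw ψ f (fun v => θ (CFT.frob M K v)) j) v := by
  classical
  by_cases hv : es M K v = 1
  · have hfv : ¬ f ≤ v.asIdeal := fun h => (hf v).1 h hv
    have hv' := (b4_unr M K' K v hv).1
    obtain ⟨A, hA, -, hA2⟩ := b5_unr M K ψ θ hθ v hv
    obtain ⟨B, hB, -, hB2⟩ := b5_unr M K' ψ θ' hθ' v hv'
    refine ⟨A, B, hA, hB, ?_⟩
    rw [hA2, hB2, hd, hd', b5_split hp n]
    congr 1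
    · refine Finset.prod_congr rfl fun j _ => ?_
      rw [hcmp v hv, Units.val_pow_eq_pow_val, ← pow_mul]
    · refine Finset.prod_congr rfl fun j _ => ?_
      unfold H9_EF
      rw [tw_apply ψ f _ j v.ne_bot (H55R.cop_prime v _ hfv), H55R.pv_prime]
  · have hfv : f ≤ v.asIdeal := (hf v).2 hv
    obtain ⟨A, B, hA, hB, hAB⟩ := b6_loc_ram M K' K hc hp hd hdK ψ v hv
    refine ⟨A, B, hA, hB, ?_⟩
    rw [hAB]
    have hone : ∏ j ∈ (Finset.range (p ^ (n + 1))).filter (fun j => ¬ p ∣ j),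
        H9_EF (tw ψ f (fun v => θ (CFT.frob M K v)) j) v = 1 := by
      refine Finset.prod_eq_one fun j _ => ?_
      refine b6_EF _ v ?_
      refine tw_zero ψ f _ j fun hcop => ?_
      rw [Ideal.isCoprime_iff_sup_eq, sup_eq_left.2 hfv] at hcop
      exact v.isPrime.ne_top hcop
    rw [hone, mul_one]

omit [IsScalarTower F M K'] [IsScalarTower F M K] [IsScalarTower F K' K] [IsScalarTower M K' K] [IsGalois M K]
  [IsGalois M K'] [IsGalois K' K] [Algebra K' K] in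
theorem b6_AI (ψ : Ideal (𝓞 F) →*₀ 𝓞 F) (J : Finset ℕ) (t : ℕ → (Ideal (𝓞 M) →*₀ ℂ))
    (hloc : ∀ v : Pl M, ∃ (A : Finset (Pl K)) (B : Finset (Pl K')), (∀ W, W ∈ A ↔ W.asIdeal.under (𝓞 M) = v.asIdeal) ∧
      (∀ w, w ∈ B ↔ w.asIdeal.under (𝓞 M) = v.asIdeal) ∧
      ∏ W ∈ A, H9_EF (PsiP K ψ) W = (∏ w ∈ B, H9_EF (PsiP K' ψ) w) * ∏ j ∈ J, H9_EF (t j) v) :
    AI (PsiP K ψ) = AI (PsiP K' ψ) * ∏ j ∈ J, AI (t j) := by
  classical
  choose A B hA hB hprod using hloc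
  ext n
  have e1 : ∀ᶠ S : Finset (Pl M) in Filter.atTop,
      (∏ W ∈ S.biUnion A, H9_EF (PsiP K ψ) W) n = AI (PsiP K ψ) n := by
    have h1 := AI_euler (PsiP K ψ) n
    have h2 : Filter.Tendsto (fun S : Finset (Pl M) => S.biUnion A)
        Filter.atTop Filter.atTop := by
      rw [Filter.tendsto_atTop]
      intro T
      filter_upwards [Filter.eventually_ge_atTop (T.image (HeightOneSpectrum.under (𝓞 M)))] with S hS
      intro W hW
      rw [Finset.mem_biUnion]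
      refine ⟨HeightOneSpectrum.under (𝓞 M) W, hS (Finset.mem_image_of_mem _ hW), ?_⟩
      rw [hA]
      rfl
    exact h2.eventually h1
  have e1' : ∀ᶠ S : Finset (Pl M) in Filter.atTop, ∀ m ∈ Finset.range (n + 1),
      (∏ w ∈ S.biUnion B, H9_EF (PsiP K' ψ) w) m = AI (PsiP K' ψ) m := by
    have h2 : Filter.Tendsto (fun S : Finset (Pl M) => S.biUnion B)
        Filter.atTop Filter.atTop := by
      rw [Filter.tendsto_atTop]
      intro T
      filter_upwards [Filter.eventually_ge_atTop (T.image (HeightOneSpectrum.under (𝓞 M)))] with S hS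
      intro W hW
      rw [Finset.mem_biUnion]
      refine ⟨HeightOneSpectrum.under (𝓞 M) W, hS (Finset.mem_image_of_mem _ hW), ?_⟩
      rw [hB]
      rfl
    rw [Filter.eventually_all_finset]
    intro m _
    exact h2.eventually (AI_euler (PsiP K' ψ) m)
  have e2 : ∀ h : Ideal (𝓞 M) →*₀ ℂ, ∀ᶠ S : Finset (Pl M) in Filter.atTop,
      ∀ m ∈ Finset.range (n + 1), (∏ w ∈ S, H9_EF h w) m = AI h m := by
    intro h
    rw [Filter.eventually_all_finset]
    intro m _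
    exact AI_euler h m
  have e3 : ∀ᶠ S : Finset (Pl M) in Filter.atTop,
      ∀ j ∈ J, ∀ m ∈ Finset.range (n + 1), (∏ w ∈ S, H9_EF (t j) w) m = AI (t j) m := by
    rw [Filter.eventually_all_finset]
    intro j _
    exact e2 _
  obtain ⟨S, h1, h2, h3⟩ := (e1.and (e1'.and e3)).exists
  have hdA : Set.PairwiseDisjoint (↑S : Set (Pl M)) A := by
    intro w _ w' _ hne
    rw [Function.onFun, Finset.disjoint_left]
    intro W hW hW'
    rw [hA] at hW hW'
    exact hne (HeightOneSpectrum.ext (hW.symm.trans hW'))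
  have hdB : Set.PairwiseDisjoint (↑S : Set (Pl M)) B := by
    intro w _ w' _ hne
    rw [Function.onFun, Finset.disjoint_left]
    intro W hW hW'
    rw [hB] at hW hW'
    exact hne (HeightOneSpectrum.ext (hW.symm.trans hW'))
  rw [← h1, Finset.prod_biUnion hdA, Finset.prod_congr rfl fun w _ => hprod w,
    Finset.prod_mul_distrib, ← Finset.prod_biUnion hdB, Finset.prod_comm]
  exact H55B.I2_mul_congr (fun m hm => h2 m (Finset.mem_range.2 (by omega)))
    (H55B.I2_prod_congr _ _ _ fun j hj m hm => h3 j hj m (Finset.mem_range.2 (by omega))) n le_rfl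

end

theorem b6_prod {s : ℂ} (J : Finset ℕ) (f : ℕ → ArithmeticFunction ℂ) (a : ℕ → ℂ)
    (h : ∀ j ∈ J, LSeriesHasSum (fun k => f j k) s (a j)) :
    LSeriesHasSum (fun k => (∏ j ∈ J, f j) k) s (∏ j ∈ J, a j) := by
  classical
  induction J using Finset.induction_on with
  | empty =>
    have h1 := pt5_prod (s := s) 0 (fun _ => (1 : ArithmeticFunction ℂ)) (fun _ => 1) (fun j hj => absurd hj (by omega))
    rw [Finset.prod_range_zero, Finset.prod_range_zero] at h1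
    rw [Finset.prod_empty, Finset.prod_empty]
    exact h1
  | insert j J hj ih =>
    rw [Finset.prod_insert hj, Finset.prod_insert hj]
    exact ArithmeticFunction.LSeriesHasSum_mul (h j (Finset.mem_insert_self _ _))
      (ih fun i hi => h i (Finset.mem_insert_of_mem hi))

/-- the L-series over K -/
theorem b6_L (M K' K : Type) [Field M] [NumberField M] [Field K'] [NumberField K'] [Field K] [NumberField K]
    [Algebra F M] [Algebra F K'] [Algebra F K] {m : Ideal (𝓞 F)} {ψ : Ideal (𝓞 F) →*₀ 𝓞 F} (h : IsHecke m ψ)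
    (J : Finset ℕ) (t : ℕ → (Ideal (𝓞 M) →*₀ ℂ)) (ht : ∀ j a, ‖t j a‖ ^ 2 ≤ (Ideal.absNorm a : ℝ))
    (hAI : AI (PsiP K ψ) = AI (PsiP K' ψ) * ∏ j ∈ J, AI (t j))
    (Λ' : ℂ → ℂ) (hs' : ∀ s : ℂ, 3 / 2 < s.re → HasSum (tm (PsiP K' ψ) s) (Λ' s))
    (Λ : ℕ → ℂ → ℂ) (hs : ∀ j ∈ J, ∀ s : ℂ, 3 / 2 < s.re → HasSum (tm (t j) s) (Λ j s)) (s : ℂ) (hs1 : 3 / 2 < s.re) :
    HasSum (tm (PsiP K ψ) s) (Λ' s * ∏ j ∈ J, Λ j s) := by
  have hsum := tm_summable (PsiP K ψ) (fun a => PsiP_norm_le h a) s hs1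
  have hL := AI_LSeries (PsiP K ψ) (PsiP K ψ).map_zero s hsum
  have hsum1 := tm_summable (PsiP K' ψ) (fun a => PsiP_norm_le h a) s hs1
  have hL1 := AI_LSeries (PsiP K' ψ) (PsiP K' ψ).map_zero s hsum1
  have hL2 := fun j => AI_LSeries (t j) (t j).map_zero s (tm_summable (t j) (ht j) s hs1)
  have hL3 := b6_prod J (fun j => AI (t j)) (fun j => Λ j s) (fun j hj => by
    have h3 := hL2 j
    rw [(hs j hj s hs1).tsum_eq] at h3
    exact h3)
  have hL4 := ArithmeticFunction.LSeriesHasSum_mul hL1 hL3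
  rw [← hAI] at hL4
  have h5 : ∑' a, tm (PsiP K ψ) s a = Λ' s * ∏ j ∈ J, Λ j s := by
    rw [hL.unique hL4, (hs' s hs1).tsum_eq]
  rw [← h5]
  exact hsum.of_norm.hasSum

end H41S
end
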