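import Mathlib
import Pool.Agent.Lib.H1M.PP2.D_H28T_CE
import Pool.Agent.Lib.H1M.PP2.D_H55K_BH
import Pool.Agent.Lib.H1M.PP2.M010
import Pool.Agent.Lib.H1M.PP2.M034
import Pool.Agent.Lib.H1M.PP2.M057
import Pool.Agent.Lib.H1M.PP2.M072
import Pool.Agent.Lib.H1M.PP2.M089
import Pool.Agent.Lib.H1M.PP2.M092
import Pool.Agent.Lib.H1M.PP2.M094
import Pool.Agent.Lib.H1M.PP2.M096
import Pool.Agent.Lib.H1M.PP2.M098
import Pool.Agent.Lib.H1M.PP2.M106
import Pool.Agent.Lib.H1M.PP2.M107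
import Pool.Agent.Lib.H1M.PP2.M116
import Pool.Agent.Lib.H1M.PP2.M128

/-! Merged copies (to shorten the build) of Lib.H13T.Q1, Lib.H41S.Fin, Lib.H41S.Int, Lib.H13T.Q2, Lib.H57N.A2, Lib.H57N.D3, Lib.H57N.D4, Lib.H57N.E4. -/

-- from Lib.H13T.Q1
section

/-! Chunk Q1 (M). The primes of K' in the quadratic extension L' = F K' of K' (F not contained in K').
q_tri. PROOF. As the proof of lf_sq (Lib/H55K/RH.lean): below_W: l, f; l does not divide W.Δ (rh_int); quad_primes hQ w: first case: done. Third case: hram_of (RF.lean) gives Δ in the prime of F below w₁ (DD.below), so l divides Δ, contradiction. Second case (inert): quad_inert: f odd and the prime of F below is (l);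
inert_F (RC1.lean): #W(ZMod l) = l + 1; #W(k_w) = l^f + 1 - (α^f + β^f), α + β = 0, αβ = l (H55K.weil, see rc1_count in RC1.lean and lf_W in RA2.lean; k_w is a finite extension of ZMod l with l^f elements), f odd, so β^f = -α^f and #W(k_w) = l^f + 1 = N w + 1; over k_{w₁} (l^(2f) elements):
α^2 = β^2 = -l, α^(2f) = β^(2f) = -l^f, the number of points is l^(2f) + 1 + 2 l^f.
q_pts. The homomorphism 𝓞 K' ⧸ w → 𝓞 L' ⧸ w' is injective and both have the same finite number of elements, so it is an isomorphism of rings; rc2_card (RC2.lean) or H55P.pz10_card: the curve over 𝓞 L' ⧸ w' is the image of the curve over 𝓞 K' ⧸ w (map_map; ring homomorphisms from ℤ are equal). -/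

open NumberField IsDedekindDomain WeierstrassCurve

namespace H13T

open H55P (IQ)
open H55K H55K.TQ

theorem q1_count {K' : Type} [Field K'] [NumberField K'] (W : WeierstrassCurve ℤ) (w : HeightOneSpectrum (𝓞 K')) {l g : ℕ}
    (hl : l.Prime) (hw : (l : 𝓞 K') ∈ w.asIdeal) (hΔ : ¬ (l : ℤ) ∣ W.Δ) (α β : ℂ)
    (h1 : α + β = (l : ℂ) + 1 - (Nat.card (W⁄(ZMod l)).toAffine.Point : ℂ)) (h2 : α * β = (l : ℂ))
    (hN : Ideal.absNorm w.asIdeal = l ^ g) :
    (Nat.card (W⁄(𝓞 K' ⧸ w.asIdeal)).toAffine.Point : ℂ) = (l : ℂ) ^ g + 1 - α ^ g - β ^ g := by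
  have hfl : Fact l.Prime := ⟨hl⟩
  have hvm : w.asIdeal.IsMaximal := w.isMaximal
  let _i : Field (𝓞 K' ⧸ w.asIdeal) := Ideal.Quotient.field w.asIdeal
  have hnK : Nat.card (𝓞 K' ⧸ w.asIdeal) = l ^ g := by
    have h1 : Nat.card (𝓞 K' ⧸ w.asIdeal) = Ideal.absNorm w.asIdeal := rfl
    rw [h1, hN]
  have hfin : Finite (𝓞 K' ⧸ w.asIdeal) := Nat.finite_of_card_ne_zero (by
    rw [hnK]
    exact pow_ne_zero _ hl.ne_zero)
  have hchar : CharP (𝓞 K' ⧸ w.asIdeal) l := by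
    rw [CharP.charP_iff_prime_eq_zero hl]
    have h2 := Ideal.Quotient.eq_zero_iff_mem.2 hw
    rw [map_natCast] at h2
    exact h2
  let _i : Algebra (ZMod l) (𝓞 K' ⧸ w.asIdeal) := ZMod.algebra _ l
  have hrank : Module.finrank (ZMod l) (𝓞 K' ⧸ w.asIdeal) = g := by
    have hmf : Module.Finite (ZMod l) (𝓞 K' ⧸ w.asIdeal) := Module.Finite.of_finite
    have h1 := Module.natCard_eq_pow_finrank (K := ZMod l) (V := 𝓞 K' ⧸ w.asIdeal)
    rw [hnK, Nat.card_zmod] at h1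
    exact (Nat.pow_right_injective hl.two_le h1).symm
  have hΔl : (W⁄(ZMod l)).Δ ≠ 0 := by
    rw [rh_disc, Ne, ZMod.intCast_zmod_eq_zero_iff_dvd]
    exact hΔ
  have hcurve : W⁄(𝓞 K' ⧸ w.asIdeal) = (W⁄(ZMod l))⁄(𝓞 K' ⧸ w.asIdeal) := by
    show W.map (algebraMap ℤ (𝓞 K' ⧸ w.asIdeal)) = (W.map (algebraMap ℤ (ZMod l))).map (algebraMap (ZMod l) (𝓞 K' ⧸ w.asIdeal))
    rw [WeierstrassCurve.map_map]
    congr 1
    exact Subsingleton.elim _ _
  have hw := weil (k := ZMod l) (K := 𝓞 K' ⧸ w.asIdeal) (W⁄(ZMod l)) hΔl α β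
    (by rw [Nat.card_zmod]; exact h1) (by rw [Nat.card_zmod]; exact h2)
  rw [hrank, hnK] at hw
  rw [hcurve, hw]
  push_cast
  ring

theorem q_tri {F K' L' : Type} [Field F] [NumberField F] [IQ F] [Field K'] [NumberField K'] [Field L'] [NumberField L'] [Algebra F L']
    [Algebra K' L'] (hQ : QuadG F K' L') {W : WeierstrassCurve ℤ} {Om : ℂ} {m : Ideal (𝓞 F)} {ψ : Ideal (𝓞 F) →*₀ 𝓞 F}
    (hH : BaseH F (W⁄(𝓞 F)) Om m ψ) (w : HeightOneSpectrum (𝓞 K')) (hΔ : ((W.Δ : ℤ) : 𝓞 K') ∉ w.asIdeal) :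
    (∃ w₁ w₂ : HeightOneSpectrum (𝓞 L'), w₁ ≠ w₂ ∧ Ideal.absNorm w₁.asIdeal = Ideal.absNorm w.asIdeal ∧
      Ideal.absNorm w₂.asIdeal = Ideal.absNorm w.asIdeal ∧
      ∀ w' : HeightOneSpectrum (𝓞 L'), w.asIdeal = w'.asIdeal.under (𝓞 K') ↔ w' = w₁ ∨ w' = w₂) ∨
    (∃ w₁ : HeightOneSpectrum (𝓞 L'), Ideal.absNorm w₁.asIdeal = Ideal.absNorm w.asIdeal ^ 2 ∧
      (∀ w' : HeightOneSpectrum (𝓞 L'), w.asIdeal = w'.asIdeal.under (𝓞 K') ↔ w' = w₁) ∧
      Nat.card (W⁄(𝓞 K' ⧸ w.asIdeal)).toAffine.Point = Ideal.absNorm w.asIdeal + 1 ∧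
      Nat.card ((W⁄(𝓞 F))⁄(𝓞 L' ⧸ w₁.asIdeal)).toAffine.Point = (Ideal.absNorm w.asIdeal + 1) ^ 2) := by
  classical
  obtain ⟨l, f, hl, hlw, hf, hNw⟩ := below_W w
  have hlΔ : ¬ (l : ℤ) ∣ W.Δ := by
    rw [← rh_int w.isPrime.ne_top hl hlw]
    exact hΔ
  obtain ⟨α, β, h1, h2⟩ := rh_roots ((l : ℂ) + 1 - (Nat.card (W⁄(ZMod l)).toAffine.Point : ℂ)) (l : ℂ)
  have hnr : ∀ w' : HeightOneSpectrum (𝓞 L'), w.asIdeal = w'.asIdeal.under (𝓞 K') →
      ¬ ∀ a : 𝓞 F, algebraMap (𝓞 F) (𝓞 L') (a - cj a) ∈ w'.asIdeal := by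
    intro w' hw hall
    obtain ⟨v', hv', -, -, -⟩ := H55K.DD.below (F := F) (m := m) w'
    have h3 := hram_of hH v' fun a => by
      rw [hv', Ideal.under_def, Ideal.mem_comap]
      exact hall a
    rw [rh_disc, rh_int v'.isPrime.ne_top hl (rh_under hv' (rh_over hw hlw))] at h3
    exact hlΔ h3
  rcases quad_primes hQ w with ⟨w₁, w₂, hne, hN1, hN2, h⟩ | ⟨w₁, hN1, h⟩ | ⟨w₁, hN1, h⟩
  · exact Or.inl ⟨w₁, w₂, hne, hN1, hN2, h⟩
  · right
    have hw1 := (h w₁).2 rfl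
    obtain ⟨hodd, hund⟩ := quad_inert hQ w w₁ hN1 h (hnr w₁ hw1) hl hNw
    obtain ⟨v', hv', -, -, -⟩ := H55K.DD.below (F := F) (m := m) w₁
    have hΔ' : (W⁄(𝓞 F)).Δ ∉ v'.asIdeal := by
      rw [rh_disc, rh_int v'.isPrime.ne_top hl (rh_under hv' (rh_over hw1 hlw))]
      exact hlΔ
    have hm' : ¬ m ≤ v'.asIdeal := fun h3 => hΔ' ((hH.supp v').2 h3)
    have hcard := (inert_F hH.data.hecke (fun v hv _ => hH.deu v hv) hl v' (hv'.trans hund) hΔ' hm').1
    have hβ : β = -α := by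
      rw [hcard] at h1
      push_cast at h1
      linear_combination h1
    have hα2 : α ^ 2 = -(l : ℂ) := by
      rw [hβ] at h2
      linear_combination -h2
    have hNw1 : Ideal.absNorm w₁.asIdeal = l ^ (2 * f) := by
      rw [hN1, hNw, ← pow_mul, mul_comm]
    have c1 := q1_count W w hl hlw hlΔ α β h1 h2 hNw
    have c2 := q1_count W w₁ hl (rh_over hw1 hlw) hlΔ α β h1 h2 hNw1
    have hcurve : (W⁄(𝓞 F))⁄(𝓞 L' ⧸ w₁.asIdeal) = W⁄(𝓞 L' ⧸ w₁.asIdeal) := by
      show (W.map (algebraMap ℤ (𝓞 F))).map (algebraMap (𝓞 F) (𝓞 L' ⧸ w₁.asIdeal)) = W.map (algebraMap ℤ (𝓞 L' ⧸ w₁.asIdeal))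
      rw [WeierstrassCurve.map_map]
      congr 1
      exact Subsingleton.elim _ _
    refine ⟨w₁, hN1, h, ?_, ?_⟩
    · have h5 : ((Nat.card (W⁄(𝓞 K' ⧸ w.asIdeal)).toAffine.Point : ℕ) : ℂ) = ((l ^ f + 1 : ℕ) : ℂ) := by
        rw [c1, hβ, hodd.neg_pow]
        push_cast
        ring
      rw [hNw]
      exact_mod_cast h5
    · have h5 : ((Nat.card (W⁄(𝓞 L' ⧸ w₁.asIdeal)).toAffine.Point : ℕ) : ℂ) = (((l ^ f + 1) ^ 2 : ℕ) : ℂ) := by
        rw [c2, pow_mul α, pow_mul β, hβ, neg_sq, hα2, hodd.neg_pow]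
        push_cast
        ring
      rw [hNw, hcurve]
      exact_mod_cast h5
  · exact absurd hN1 (hnr w₁ ((h w₁).2 rfl))

theorem q_pts {F K' L' : Type} [Field F] [NumberField F] [Field K'] [NumberField K'] [Field L'] [NumberField L'] [Algebra F L']
    [Algebra K' L'] (W : WeierstrassCurve ℤ) (w : HeightOneSpectrum (𝓞 K')) (w' : HeightOneSpectrum (𝓞 L'))
    (h : w.asIdeal = w'.asIdeal.under (𝓞 K')) (hN : Ideal.absNorm w'.asIdeal = Ideal.absNorm w.asIdeal) :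
    Nat.card ((W⁄(𝓞 F))⁄(𝓞 L' ⧸ w'.asIdeal)).toAffine.Point = Nat.card (W⁄(𝓞 K' ⧸ w.asIdeal)).toAffine.Point := by
  have hm := w.isMaximal
  have hm' := w'.isMaximal
  let _i : Field (𝓞 K' ⧸ w.asIdeal) := Ideal.Quotient.field w.asIdeal
  let _i' : Field (𝓞 L' ⧸ w'.asIdeal) := Ideal.Quotient.field w'.asIdeal
  have c1 : Nat.card (𝓞 K' ⧸ w.asIdeal) = Ideal.absNorm w.asIdeal := rfl
  have c2 : Nat.card (𝓞 L' ⧸ w'.asIdeal) = Ideal.absNorm w'.asIdeal := rfl
  have hfin : Finite (𝓞 L' ⧸ w'.asIdeal) := Ideal.finiteQuotientOfFreeOfNeBot _ w'.ne_bot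
  let g : 𝓞 K' ⧸ w.asIdeal →+* 𝓞 L' ⧸ w'.asIdeal := Ideal.quotientMap w'.asIdeal (algebraMap (𝓞 K') (𝓞 L')) (le_of_eq h)
  have hbij : Function.Bijective g := g.injective.bijective_of_nat_card_le (by rw [c1, c2, hN])
  have hcurve : (W⁄(𝓞 F))⁄(𝓞 L' ⧸ w'.asIdeal) = (W⁄(𝓞 K' ⧸ w.asIdeal)).map ((RingEquiv.ofBijective g hbij : _ ≃+* _) : 𝓞 K' ⧸ w.asIdeal →+* 𝓞 L' ⧸ w'.asIdeal) := by
    show (W.map (algebraMap ℤ (𝓞 F))).map (algebraMap (𝓞 F) (𝓞 L' ⧸ w'.asIdeal)) = (W.map (algebraMap ℤ (𝓞 K' ⧸ w.asIdeal))).map _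
    rw [WeierstrassCurve.map_map, WeierstrassCurve.map_map]
    congr 1
    exact Subsingleton.elim _ _
  rw [hcurve]
  exact H55P.pz10_card _ _

end H13T
end

-- from Lib.H41S.Fin
section

/-! # H41S: the L-value over K of degree p^(n+1), cyclic over M, when the L-value over the subfield K' of degree p^n is a unit -/

open NumberField IsDedekindDomain

namespace H41S

open H55N H55P
open H55R (Pl es fs pv tI)

variable {F : Type} [Field F] [NumberField F] [IQ F]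

theorem fin_arith {p : ℕ} (hp : p.Prime) (n : ℕ) : p ^ (n + 1) = p ^ n + p ^ n * (p - 1) := by
  obtain ⟨k, hk⟩ : ∃ k, p = k + 1 := ⟨p - 1, (Nat.sub_add_cancel hp.one_le).symm⟩
  rw [hk, Nat.add_sub_cancel, pow_succ]
  ring

theorem fin_card {p : ℕ} (hp : p.Prime) (n : ℕ) :
    ((Finset.range (p ^ (n + 1))).filter (fun j => ¬ p ∣ j)).card = p ^ n * (p - 1) := by
  have h1 := b5_split hp n (fun _ => (2 : ℕ))
  rw [Finset.prod_const, Finset.prod_const, Finset.prod_const, Finset.card_range, Finset.card_range, ← pow_add] at h1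
  have h2 := Nat.pow_right_injective (le_refl 2) h1
  have h3 := fin_arith hp n
  omega

section

variable (M K' K : Type) [Field M] [NumberField M] [Field K'] [NumberField K'] [Field K] [NumberField K]
    [Algebra F M] [Algebra F K'] [Algebra F K] [Algebra M K'] [Algebra M K] [Algebra K' K] [IsScalarTower F M K']
    [IsScalarTower F M K] [IsScalarTower F K' K] [IsScalarTower M K' K] [IsGalois M K] [IsGalois M K'] [IsGalois K' K]

/-- the residue degrees are powers of p -/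
theorem fin_deg {M L : Type} [Field M] [NumberField M] [Field L] [NumberField L] [Algebra M L] [IsGalois M L]
    {p n : ℕ} (hp : p.Prime) (hd : Module.finrank M L = p ^ n) (v : Pl M) (w : Pl L)
    (hw : w.asIdeal.under (𝓞 M) = v.asIdeal) : ∃ j : ℕ, w.asIdeal.inertiaDeg (𝓞 M) = p ^ j := by
  obtain ⟨T, -, hT⟩ := pt10_card (K' := L) v
  have hl : w.asIdeal.LiesOver v.asIdeal := ⟨hw.symm⟩
  have hv := v.isMaximal
  have hvp := v.isPrime
  have hW := w.isMaximal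
  have hWp := w.isPrime
  have h2 := Ideal.inertiaDegIn_eq_inertiaDeg v.asIdeal w.asIdeal Gal(L/M)
  rw [hd] at hT
  have h3 : fs M L v ∣ p ^ n := ⟨T.card * es M L v, by rw [← hT]; ring⟩
  obtain ⟨j, -, hj⟩ := (Nat.dvd_prime_pow hp).1 h3
  exact ⟨j, by rw [← h2]; exact hj⟩

theorem main_abs (hc : IsCyclic (K ≃ₐ[M] K)) {p n : ℕ} (hp : p.Prime) (hd : Module.finrank M K = p ^ (n + 1))
    (hd' : Module.finrank M K' = p ^ n) {m : Ideal (𝓞 F)} {ψ : Ideal (𝓞 F) →*₀ 𝓞 F} (h : IsHecke m ψ)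
    (hmp : IsCoprime m (Ideal.span {(p : 𝓞 F)})) (hU : UnrP p K) (Ac Bc Om : ℂ) (hper : Per F Ac Bc Om)
    (V : ValuationSubring ℂ) (hV : V.valuation (p : ℂ) < 1) (hg : GoodV Ac Bc V) (hNT : NTP M p m ψ V)
    (hLM : LVP F V Om (PsiP M ψ)) (hL : LVP F V Om (PsiP K' ψ))
    (hna : ∀ v : Pl M, es M K' v ≠ 1 → V.valuation (1 - (starRingEnd ℂ) (PsiP M ψ v.asIdeal)) = 1)
    (T : Finset (Pl K')) (hT : ∀ w, w ∈ T ↔ es K' K w ≠ 1 ∧ V.valuation (1 - (starRingEnd ℂ) (PsiP K' ψ w.asIdeal)) ≠ 1)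
    (hr : T.card < p ^ n) :
    ∃ Λ : ℂ → ℂ, AnalyticOnNhd ℂ Λ {s | 1 / 2 < s.re} ∧
      (∀ s : ℂ, 3 / 2 < s.re → HasSum (tm (PsiP K ψ) s) (Λ s)) ∧
      V.valuation (Λ 1 / Om ^ Module.finrank F K) = V.valuation (p : ℂ) ^ T.card := by
  classical
  have hN : 0 < p ^ (n + 1) := pow_pos hp.pos _
  have hN' : 0 < p ^ n := pow_pos hp.pos _
  have hdK : Module.finrank K' K = p := by
    have h1 := Module.finrank_mul_finrank M K' K
    rw [hd, hd', pow_succ] at h1
    exact Nat.eq_of_mul_eq_mul_left hN' h1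
  have hK'u : UnrP p K' := UnrP.down K' K p hp hU
  have hMu : UnrP p M := UnrP.down M K p hp hU
  have hFu : UnrP p F := UnrP.down F K p hp hU
  have hre : IsEmpty (M →+* ℝ) := H35M.sx3_real F M
  have hG : Nat.card (K ≃ₐ[M] K) = p ^ (n + 1) := by rw [IsGalois.card_aut_eq_finrank, hd]
  have hG' : Nat.card (K' ≃ₐ[M] K') = p ^ n := by rw [IsGalois.card_aut_eq_finrank, hd']
  obtain ⟨θ, θ', hθ, hθ', hθθ⟩ := b1_pair hc hp hG hG' (AlgEquiv.restrictNormalHom K' : (K ≃ₐ[M] K) →* (K' ≃ₐ[M] K'))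
    (AlgEquiv.restrictNormalHom_surjective K)
  have hab : ∀ a b : K ≃ₐ[M] K, a * b = b * a := by
    intro a b
    apply hθ
    rw [map_mul, map_mul, mul_comm]
  have hcmp : ∀ v : Pl M, es M K v = 1 → θ' (CFT.frob M K' v) = θ (CFT.frob M K v) ^ p := by
    intro v hv
    rw [← hθθ, CFT.frob_res M K' K hab ((SSR.c2_unr v).2 hv)]
  obtain ⟨f, hφ, hf⟩ := b2_CH M K p hp hU hre θ hθ
  obtain ⟨f', hφ', hf'⟩ := b2_CH M K' p hp hK'u hre θ' hθ'
  rw [hG] at hφ
  rw [hG'] at hφ'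
  have hff : ∀ v : Pl M, f' ≤ v.asIdeal → f ≤ v.asIdeal := by
    intro v hv
    rw [hf]
    rw [hf'] at hv
    exact fun h1 => hv (b4_unr M K' K v h1).1
  have hcmp' : ∀ v : Pl M, ¬ f ≤ v.asIdeal → θ' (CFT.frob M K' v) = θ (CFT.frob M K v) ^ p := by
    intro v hv
    refine hcmp v ?_
    by_contra h1
    exact hv ((hf v).2 h1)
  -- the anomalous ramified primes of M
  have hfin : {w : HeightOneSpectrum (𝓞 M) | w.asIdeal ∣ f}.Finite := Ideal.finite_factors hφ.ne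
  obtain ⟨A, hA⟩ : ∃ A : Finset (Pl M), ∀ w, w ∈ A ↔ f ≤ w.asIdeal ∧
      V.valuation (1 - (starRingEnd ℂ) (PsiP M ψ w.asIdeal)) ≠ 1 :=
    ⟨hfin.toFinset.filter fun w => V.valuation (1 - (starRingEnd ℂ) (PsiP M ψ w.asIdeal)) ≠ 1, fun w => by
      rw [Finset.mem_filter, Set.Finite.mem_toFinset]
      exact and_congr_left fun _ => Ideal.dvd_iff_le⟩
  have hB0 : ∀ v : Pl M, ∃ B : Finset (Pl K'), ∀ w, w ∈ B ↔ w.asIdeal.under (𝓞 M) = v.asIdeal := fun v => by
    obtain ⟨B, hB, -⟩ := pt10_card (K' := K') v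
    exact ⟨B, hB⟩
  choose B hB using hB0
  have hTB : T = A.biUnion B := by
    ext w
    rw [hT, Finset.mem_biUnion]
    constructor
    · rintro ⟨h1, h2⟩
      let v : Pl M := HeightOneSpectrum.under (𝓞 M) w
      have hv : w.asIdeal.under (𝓞 M) = v.asIdeal := rfl
      refine ⟨v, ?_, (hB v w).2 hv⟩
      rw [hA, hf]
      refine ⟨fun h3 => h1 ((b4_unr M K' K v h3).2 w hv), fun h3 => h2 ?_⟩
      exact (adm_iff M K' p hp V hV v w hv (fin_deg hp hd' v w hv)).1 h3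
    · rintro ⟨v, hvA, hwB⟩
      have hv := (hB v w).1 hwB
      rw [hA, hf] at hvA
      refine ⟨?_, fun h3 => hvA.2 ?_⟩
      · rw [b4_ram M K' K hc hp hd hdK v hvA.1 w hv]
        exact hp.one_lt.ne'
      · exact (adm_iff M K' p hp V hV v w hv (fin_deg hp hd' v w hv)).2 h3
  have hcard : ∑ v ∈ A, (B v).card = T.card := by
    rw [hTB, Finset.card_biUnion]
    intro w _ w' _ hne
    rw [Function.onFun, Finset.disjoint_left]
    intro W hW hW'
    rw [hB] at hW hW'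
    exact hne (HeightOneSpectrum.ext (hW.symm.trans hW'))
  have hgg : ∀ v ∈ A, (B v).card * orderOf (θ' (CFT.frob M K' v)) = p ^ n := by
    intro v hv
    have hv' : es M K' v = 1 := by
      by_contra h1
      exact ((hA v).1 hv).2 (hna v h1)
    obtain ⟨B', hB', h1, -⟩ := b5_unr M K' ψ θ' hθ' v hv'
    have h2 : B' = B v := by
      ext w
      rw [hB', hB]
    rw [← h2, h1, hd']
  obtain ⟨η, hη⟩ : ∃ η : ℂ, IsPrimitiveRoot η (p ^ (n + 1)) := ⟨_, Complex.isPrimitiveRoot_exp _ hN.ne'⟩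
  have key := fun (j : ℕ) (hj : ¬ p ∣ j) => tw_val p hp h hmp hFu hMu Ac Bc Om hper V hV hg hNT f f'
    (fun v => θ (CFT.frob M K v)) (fun v => θ' (CFT.frob M K' v)) hφ hφ' hff hcmp' hLM
    (fun v hv => hna v ((hf' v).1 hv)) A hA (fun v => (B v).card) hgg (by rw [hcard]; exact hr) η hη j hj
  have key2 : ∀ j : ℕ, ∃ Λ : ℂ → ℂ, ¬ p ∣ j → AnalyticOnNhd ℂ Λ {s | 1 / 2 < s.re} ∧
      (∀ s : ℂ, 3 / 2 < s.re → HasSum (tm (tw ψ f (fun v => θ (CFT.frob M K v)) j) s) (Λ s)) ∧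
      V.valuation (Λ 1 / Om ^ Module.finrank F M) = V.valuation (1 - η) ^ T.card := by
    intro j
    by_cases hj : p ∣ j
    · exact ⟨fun _ => 0, fun h1 => absurd hj h1⟩
    · obtain ⟨Λ, h1, h2, h3⟩ := key j hj
      exact ⟨Λ, fun _ => ⟨h1, h2, by rw [h3, hcard]⟩⟩
  choose Λ hΛ using key2
  obtain ⟨Λ', ha', hs', hu'⟩ := hL
  obtain ⟨J, hJ⟩ : ∃ J, J = (Finset.range (p ^ (n + 1))).filter (fun j => ¬ p ∣ j) := ⟨_, rfl⟩
  have hJm : ∀ j ∈ J, ¬ p ∣ j := fun j hj => by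
    rw [hJ] at hj
    exact (Finset.mem_filter.1 hj).2
  have hAI := b6_AI M K' K ψ J (fun j => tw ψ f (fun v => θ (CFT.frob M K v)) j) (fun v => by
    rw [hJ]
    exact b6_loc M K' K hc hp hd hd' hdK ψ θ θ' hθ hθ' hcmp f hf v)
  refine ⟨fun s => Λ' s * ∏ j ∈ J, Λ j s, fun s hs => (ha' s hs).mul ?_, fun s hs => ?_, ?_⟩
  · exact Finset.analyticAt_fun_prod _ fun j hj => (hΛ j (hJm j hj)).1 s hs
  · exact b6_L M K' K h J _ (fun j a => tw_norm_le h hN.ne' hφ j a) hAI Λ' hs' Λ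
      (fun j hj => (hΛ j (hJm j hj)).2.1) s hs
  · have hJc : J.card = p ^ n * (p - 1) := by rw [hJ]; exact fin_card hp n
    have hfr : Module.finrank F K = Module.finrank F K' + Module.finrank F M * (p ^ n * (p - 1)) := by
      rw [← Module.finrank_mul_finrank F M K, ← Module.finrank_mul_finrank F M K', hd, hd', ← mul_add]
      congr 1
      exact fin_arith hp n
    have h5 : Om ^ Module.finrank F K = Om ^ Module.finrank F K' * ∏ j ∈ J, Om ^ Module.finrank F M := by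
      rw [hfr, pow_add, pow_mul, Finset.prod_const, hJc]
    show V.valuation ((Λ' 1 * ∏ j ∈ J, Λ j 1) / Om ^ Module.finrank F K) = _
    rw [h5, mul_div_mul_comm, ← Finset.prod_div_distrib, map_mul, hu', one_mul, map_prod,
      Finset.prod_congr rfl fun j hj => (hΛ j (hJm j hj)).2.2, Finset.prod_const, hJc, ← pow_mul, mul_comm, pow_mul,
      c1_root V hp hη]

end

end H41S
end

-- from Lib.H41S.Int
section

/-! # H41S: the same theorem for intermediate fields of Ω/F, with the unit condition only over K' -/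

open NumberField IsDedekindDomain

namespace H41S

open H55N H55P
open H55R (Pl es fs pv tI)

variable {F : Type} [Field F] [NumberField F] {Ω : Type} [Field Ω] [DecidableEq Ω]
  [Algebra F Ω] [IsAlgClosed Ω] [Algebra.IsAlgebraic F Ω] [CharZero Ω]

omit [DecidableEq Ω] [IsAlgClosed Ω] [Algebra.IsAlgebraic F Ω] in
/-- Ram and the ramification index -/
theorem ram_es (A B : IntermediateField F Ω) [NumberField A] [NumberField B] (h : A ≤ B) (w : HeightOneSpectrum (𝓞 A))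
    (hG : letI := s13_alg h; IsGalois A B) :
    letI := s13_alg h
    (Ram A B w.asIdeal ↔ es A B w ≠ 1) := by
  letI := s13_alg h
  have hG' : IsGalois A B := hG
  have hwm := w.isMaximal
  constructor
  · rintro ⟨W, hWp, hW⟩
    have h1 : ∀ x ∈ w.asIdeal, algebraMap (𝓞 A) (𝓞 B) x ∈ W ^ 2 := fun x hx => hW x _ hx rfl
    have hle : w.asIdeal ≤ W.under (𝓞 A) := by
      intro x hx
      rw [Ideal.mem_comap]
      exact Ideal.pow_le_self two_ne_zero (h1 x hx)
    have hl : W.LiesOver w.asIdeal := ⟨hwm.eq_of_le (inferInstance : (W.under (𝓞 A)).IsPrime).ne_top hle⟩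
    show w.asIdeal.ramificationIdxIn (𝓞 B) ≠ 1
    rw [Ideal.ramificationIdxIn_eq_ramificationIdx w.asIdeal W Gal(B/A)]
    exact i3_idx w.asIdeal w.ne_bot W h1
  · intro h1
    obtain ⟨Q, hQ1, hQ2⟩ := Ideal.exists_maximal_ideal_liesOver_of_isIntegral (S := 𝓞 B) w.asIdeal
    have hQp := hQ1.isPrime
    have hw3 : w.asIdeal.ramificationIdxIn (𝓞 B) ≠ 1 := h1
    rw [Ideal.ramificationIdxIn_eq_ramificationIdx w.asIdeal Q Gal(B/A)] at hw3
    refine ⟨Q, hQp, fun x y hx hxy => ?_⟩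
    have h2 : y = algebraMap (𝓞 A) (𝓞 B) x := by
      apply RingOfIntegers.ext
      apply Subtype.ext
      exact hxy
    rw [h2]
    exact s13_le_sq w.asIdeal w.ne_bot Q hw3 _ hx

omit [NumberField F] [DecidableEq Ω] in
/-- cyclic Galois group from a generator in the absolute Galois group -/
theorem int_cyc (M N : IntermediateField F Ω) (hMN : M ≤ N) (γ : Ω ≃ₐ[F] Ω) (hγ : γ ∈ M.fixingSubgroup)
    (hst : ∀ s ∈ M.fixingSubgroup, ∀ x ∈ N, s x ∈ N)
    (gen : ∀ s ∈ M.fixingSubgroup, ∃ k : ℕ, ∃ u ∈ N.fixingSubgroup, s = γ ^ k * u) :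
    letI := s13_alg hMN
    IsCyclic (N ≃ₐ[M] N) := by
  letI := s13_alg hMN
  have t1 : IsScalarTower F M N := IsScalarTower.of_algebraMap_eq fun x => rfl
  have t2 : IsScalarTower M N Ω := IsScalarTower.of_algebraMap_eq fun x => rfl
  have hnorm : Normal M Ω := by
    have h1 : IsAlgClosure M Ω := ⟨inferInstance, Algebra.IsAlgebraic.tower_top (K := F) M⟩
    exact IsAlgClosure.normal M Ω
  -- restriction of γ
  have hinv : ∀ s ∈ M.fixingSubgroup, ∀ x ∈ N, s⁻¹ x ∈ N := fun s hs x hx => hst s⁻¹ (inv_mem hs) x hx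
  let g : N ≃ₐ[M] N :=
    { toFun := fun x => ⟨γ x.1, hst γ hγ x.1 x.2⟩
      invFun := fun x => ⟨γ⁻¹ x.1, hinv γ hγ x.1 x.2⟩
      left_inv := fun x => Subtype.ext (by
        show γ⁻¹ (γ x.1) = x.1
        rw [← AlgEquiv.mul_apply, inv_mul_cancel]
        rfl)
      right_inv := fun x => Subtype.ext (by
        show γ (γ⁻¹ x.1) = x.1
        rw [← AlgEquiv.mul_apply, mul_inv_cancel]
        rfl)
      map_mul' := fun x y => Subtype.ext (map_mul γ x.1 y.1)
      map_add' := fun x y => Subtype.ext (map_add γ x.1 y.1)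
      commutes' := fun x => Subtype.ext (hγ x) }
  have hg : ∀ (k : ℕ) (x : N), ((g ^ k) x : Ω) = (γ ^ k) (x : Ω) := by
    intro k
    induction k with
    | zero => intro x; rw [pow_zero, pow_zero]; rfl
    | succ k ih =>
      intro x
      rw [pow_succ, pow_succ]
      show (((g ^ k) (g x) : N) : Ω) = (γ ^ k) (γ (x : Ω))
      rw [ih]
      rfl
  refine ⟨⟨g, fun σ => ?_⟩⟩
  let s : Ω ≃ₐ[F] Ω := (σ.liftNormal Ω).restrictScalars F
  have hs1 : ∀ x : M, s (x : Ω) = x := fun x => (σ.liftNormal Ω).commutes x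
  have hs2 : ∀ x : N, s (x : Ω) = (σ x : Ω) := fun x => σ.liftNormal_commutes Ω x
  obtain ⟨k, u, hu, hk⟩ := gen s (fun x => hs1 x)
  refine ⟨k, ?_⟩
  show g ^ (k : ℤ) = σ
  rw [zpow_natCast]
  apply AlgEquiv.ext
  intro x
  apply Subtype.ext
  rw [hg k x, ← hs2 x, hk]
  show (γ ^ k) (x : Ω) = (γ ^ k) (u (x : Ω))
  rw [show u (x : Ω) = (x : Ω) from hu x]

/-- THE L-VALUE OVER N, N/M cyclic of degree p^(n+1), N' the subfield of degree p^n, when the L-value over N' is a unit at V and the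
number of the primes of N' which are ramified in N and where 1 minus the conjugate of the Hecke character is not a unit at V is less than p^n. -/
theorem main_int [IQ F] {p n : ℕ} (hp : p.Prime) (M N' N : IntermediateField F Ω) [NumberField M] [NumberField N']
    [NumberField N] (le : M ≤ N') (le' : N' ≤ N) (γ : Ω ≃ₐ[F] Ω) (hγ : γ ∈ M.fixingSubgroup)
    (nrm : ∀ s ∈ M.fixingSubgroup, ∀ x ∈ N, s x ∈ N)
    (gen : ∀ s ∈ M.fixingSubgroup, ∃ k : ℕ, ∃ u ∈ N.fixingSubgroup, s = γ ^ k * u)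
    (deg : Module.finrank F N = Module.finrank F M * p ^ (n + 1)) (deg' : Module.finrank F N = Module.finrank F N' * p)
    {m : Ideal (𝓞 F)} {ψ : Ideal (𝓞 F) →*₀ 𝓞 F} (h : IsHecke m ψ)
    (hmp : IsCoprime m (Ideal.span {(p : 𝓞 F)})) (hU : UnrP p N) (Ac Bc Om : ℂ) (hper : Per F Ac Bc Om)
    (V : ValuationSubring ℂ) (hV : V.valuation (p : ℂ) < 1) (hg : GoodV Ac Bc V) (hNT : NTP M p m ψ V)
    (hL : LVP F V Om (PsiP N' ψ)) (T : Finset (HeightOneSpectrum (𝓞 N')))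
    (hT : ∀ w, w ∈ T ↔ Ram N' N w.asIdeal ∧ V.valuation (1 - (starRingEnd ℂ) (PsiP N' ψ w.asIdeal)) ≠ 1)
    (hr : T.card < p ^ n) :
    ∃ Λ : ℂ → ℂ, AnalyticOnNhd ℂ Λ {s | 1 / 2 < s.re} ∧
      (∀ s : ℂ, 3 / 2 < s.re → HasSum (tm (PsiP N ψ) s) (Λ s)) ∧
      V.valuation (Λ 1 / Om ^ Module.finrank F N) = V.valuation (p : ℂ) ^ T.card := by
  have hNf : FiniteDimensional F N := Module.Finite.of_restrictScalars_finite ℚ F N
  have hN'f : FiniteDimensional F N' := Module.Finite.of_restrictScalars_finite ℚ F N'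
  have hMf : FiniteDimensional F M := Module.Finite.of_restrictScalars_finite ℚ F M
  have hL0 : PExt p M N := ⟨hNf, le.trans le', nrm, ⟨n + 1, deg⟩⟩
  letI a1 : Algebra M N' := s13_alg le
  letI a2 : Algebra M N := s13_alg (le.trans le')
  letI a3 : Algebra N' N := s13_alg le'
  have t1 : IsScalarTower F M N' := alg_tower M N' le
  have t2 : IsScalarTower F M N := alg_tower M N (le.trans le')
  have t3 : IsScalarTower F N' N := alg_tower N' N le'
  have t4 : IsScalarTower M N' N := IsScalarTower.of_algebraMap_eq fun x => rfl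
  have g1 : IsGalois M N := s13_galois M N (le.trans le') nrm
  have hcyc : IsCyclic (N ≃ₐ[M] N) := int_cyc M N (le.trans le') γ hγ nrm gen
  have g3 : IsGalois N' N := IsGalois.tower_top_of_isGalois M N' N
  have hab : IsMulCommutative (N ≃ₐ[M] N) := ⟨⟨fun a b => by
    letI : CommGroup (N ≃ₐ[M] N) := IsCyclic.commGroup
    exact mul_comm a b⟩⟩
  have g2 : IsGalois M N' := by
    have h1 : IsAbelianGalois M N := { g1 with }
    have h2 : IsAbelianGalois M N' := IsAbelianGalois.tower_bot M N' N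
    infer_instance
  have hMpos : 0 < Module.finrank F M := Module.finrank_pos
  have hd : Module.finrank M N = p ^ (n + 1) := by
    have h1 := Module.finrank_mul_finrank F M N
    rw [deg] at h1
    exact Nat.eq_of_mul_eq_mul_left hMpos h1
  have hd' : Module.finrank M N' = p ^ n := by
    have h1 := Module.finrank_mul_finrank F M N'
    have h2 : Module.finrank F M * Module.finrank M N' * p = Module.finrank F M * p ^ n * p := by
      rw [h1, ← deg', deg, pow_succ, mul_assoc]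
    exact Nat.eq_of_mul_eq_mul_left hMpos (Nat.eq_of_mul_eq_mul_right hp.pos h2)
  have hU' : UnrP p N' := UnrP.down N' N p hp hU
  obtain ⟨hLM, hna⟩ := (LVP_tower_iff p hp M N hL0 h hmp Ac Bc Om hper V hV hg hNT N' le le' hU').1 hL
  refine main_abs M N' N hcyc hp hd hd' h hmp hU Ac Bc Om hper V hV hg hNT hLM hL (fun v hv => ?_) T (fun w => ?_) hr
  · exact hna v ((ram_es M N' le v g2).2 hv)
  · rw [hT, ram_es N' N le' w g3]

end H41S
end

-- from Lib.H13T.Q2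
section

/-! Chunk Q2 (M). Ramification in a square of fields: K' ⊆ K, K' ⊆ L' ⊆ L, K ⊆ L; K/K' and L/L' Galois of degree p (odd prime), [L:K] ≤ 2, w' a prime of L' above w with ramification index 1.
q_square. PROOF. P̃ a prime of L above w', P = P̃ ∩ K, above w. e(P̃|w) = e(P̃|P) e(P|w) = e(P̃|w') e(w'|w) = e(P̃|w') (Ideal.ramificationIdx tower for the rings of integers). In the Galois extensions e(P|w) = es K' K w and e(P̃|w') = es L' L w' (Ideal.ramificationIdxIn_eq_ramificationIdx) divide the degree p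
(Ideal.ncard_primesOver_mul_ramificationIdxIn_mul_inertiaDegIn), so they are 1 or p; e(P̃|P) is at most [L:K] ≤ 2 < p and positive. So e(P|w) = 1 iff e(P̃|w') = 1.
q_es_iff: es ≠ 1 iff some prime P above w has ramification index ≠ 1 (all have the same). q_un, q_un2: the quadratic extension L'/K' is Galois, g e f = 2: g = 2 or f = 2 (Ideal.absNorm_eq_pow_inertiaDeg'_of_liesOver as in H55K.TQ.quad_primes, Lib/H55K/RB1.lean).
q_bij: algebraMap K' L' is bijective: the ring isomorphism 𝓞 K' ≃+* 𝓞 L' (NumberField.RingOfIntegers.mapRingEquiv) gives the prime w₁ = the image of w. -/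

open NumberField IsDedekindDomain

namespace H13T

open H55R (Pl es fs)

theorem q_es {K' K : Type} [Field K'] [NumberField K'] [Field K] [NumberField K] [Algebra K' K] [IsGalois K' K] (w : Pl K')
    (P : Ideal (𝓞 K)) (hPp : P.IsPrime) (hP : P.under (𝓞 K') = w.asIdeal) : es K' K w = P.ramificationIdx (𝓞 K') := by
  have hl : P.LiesOver w.asIdeal := ⟨hP.symm⟩
  have hm := w.isMaximal
  show w.asIdeal.ramificationIdxIn (𝓞 K) = _
  exact Ideal.ramificationIdxIn_eq_ramificationIdx w.asIdeal P Gal(K/K')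

theorem q_es_iff {K' K : Type} [Field K'] [NumberField K'] [Field K] [NumberField K] [Algebra K' K] [IsGalois K' K] (w : Pl K') :
    es K' K w ≠ 1 ↔ ∃ P : Pl K, P.asIdeal.under (𝓞 K') = w.asIdeal ∧ P.asIdeal.ramificationIdx (𝓞 K') ≠ 1 := by
  constructor
  · intro h
    obtain ⟨P, hP⟩ := H55R.under_exists (L := K) w
    have hP' : P.asIdeal.under (𝓞 K') = w.asIdeal := congrArg HeightOneSpectrum.asIdeal hP
    refine ⟨P, hP', ?_⟩
    rwa [← q_es w P.asIdeal P.isPrime hP']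
  · rintro ⟨P, hP, h⟩
    rwa [q_es w P.asIdeal P.isPrime hP]

theorem q_gef {K' L' : Type} [Field K'] [NumberField K'] [Field L'] [NumberField L'] [Algebra K' L'] (h2 : Module.finrank K' L' = 2) :
    IsGalois K' L' ∧ ∀ (w : Pl K') (w₁ : Pl L'), w.asIdeal = w₁.asIdeal.under (𝓞 K') →
      (w.asIdeal.primesOver (𝓞 L')).ncard * (w₁.asIdeal.ramificationIdx (𝓞 K') * w.asIdeal.inertiaDegIn (𝓞 L')) = 2 ∧
      Ideal.absNorm w₁.asIdeal = Ideal.absNorm w.asIdeal ^ (w.asIdeal.inertiaDegIn (𝓞 L')) := by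
  have : Algebra.IsQuadraticExtension K' L' := ⟨h2⟩
  have hgal : IsGalois K' L' := inferInstance
  refine ⟨hgal, fun w w₁ h => ?_⟩
  have hm := w.isMaximal
  have hlies : w₁.asIdeal.LiesOver w.asIdeal := ⟨h⟩
  have hid := Ideal.ncard_primesOver_mul_ramificationIdxIn_mul_inertiaDegIn w.asIdeal (𝓞 L') Gal(L'/K')
  rw [IsGalois.card_aut_eq_finrank, h2, Ideal.ramificationIdxIn_eq_ramificationIdx w.asIdeal w₁.asIdeal Gal(L'/K')] at hid
  refine ⟨hid, ?_⟩
  have h3 := Ideal.absNorm_eq_pow_inertiaDeg'_of_liesOver w₁.asIdeal w.asIdeal w.isPrime w.ne_bot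
  rw [Ideal.inertiaDeg'_algebraMap] at h3
  rw [h3, Ideal.inertiaDegIn_eq_inertiaDeg w.asIdeal w₁.asIdeal Gal(L'/K'),
    Ideal.inertiaDeg_eq_of_isMaximal w.asIdeal w₁.asIdeal]

/-- extensions of degree at most 2 are Galois -/
theorem q_gal2 {K L : Type} [Field K] [NumberField K] [Field L] [NumberField L] [Algebra K L] (h : Module.finrank K L ≤ 2) :
    IsGalois K L := by
  have hpos := Module.finrank_pos (R := K) (M := L)
  rcases (show Module.finrank K L = 1 ∨ Module.finrank K L = 2 by omega) with h1 | h1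
  · have h2 := Subalgebra.bot_eq_top_of_finrank_eq_one h1
    have hb : Function.Bijective (algebraMap K L) := Algebra.bijective_algebraMap_iff.2 h2.symm
    exact IsGalois.of_algEquiv (AlgEquiv.ofBijective (Algebra.ofId K L) hb)
  · exact (q_gef h1).1

theorem q_un {K' L' : Type} [Field K'] [NumberField K'] [Field L'] [NumberField L'] [Algebra K' L'] (h2 : Module.finrank K' L' = 2)
    (w : Pl K') (w₁ w₂ : Pl L') (hne : w₁ ≠ w₂) (h₁ : w.asIdeal = w₁.asIdeal.under (𝓞 K')) (h₂ : w.asIdeal = w₂.asIdeal.under (𝓞 K')) :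
    w₁.asIdeal.ramificationIdx (𝓞 K') = 1 ∧ w₂.asIdeal.ramificationIdx (𝓞 K') = 1 := by
  obtain ⟨-, h⟩ := q_gef h2
  have hm := w.isMaximal
  have hfin : (w.asIdeal.primesOver (𝓞 L')).Finite := IsDedekindDomain.primesOver_finite w.asIdeal (𝓞 L')
  have hg : 1 < (w.asIdeal.primesOver (𝓞 L')).ncard := by
    rw [Set.one_lt_ncard hfin]
    refine ⟨w₁.asIdeal, ⟨w₁.isPrime, ⟨h₁⟩⟩, w₂.asIdeal, ⟨w₂.isPrime, ⟨h₂⟩⟩, fun h => hne (HeightOneSpectrum.ext h)⟩
  have key : ∀ w' : Pl L', w.asIdeal = w'.asIdeal.under (𝓞 K') → w'.asIdeal.ramificationIdx (𝓞 K') = 1 := by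
    intro w' hw'
    obtain ⟨h3, -⟩ := h w w' hw'
    have h4 : (w.asIdeal.primesOver (𝓞 L')).ncard ∣ 2 := ⟨_, h3.symm⟩
    rcases (Nat.dvd_prime Nat.prime_two).1 h4 with h5 | h5
    · omega
    · rw [h5] at h3
      have h6 : w'.asIdeal.ramificationIdx (𝓞 K') * w.asIdeal.inertiaDegIn (𝓞 L') = 1 := by omega
      exact Nat.eq_one_of_mul_eq_one_right h6
  exact ⟨key w₁ h₁, key w₂ h₂⟩

theorem q_un2 {K' L' : Type} [Field K'] [NumberField K'] [Field L'] [NumberField L'] [Algebra K' L'] (h2 : Module.finrank K' L' = 2)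
    (w : Pl K') (w₁ : Pl L') (h₁ : w.asIdeal = w₁.asIdeal.under (𝓞 K')) (hN : Ideal.absNorm w₁.asIdeal = Ideal.absNorm w.asIdeal ^ 2) :
    w₁.asIdeal.ramificationIdx (𝓞 K') = 1 := by
  obtain ⟨h3, h4⟩ := (q_gef h2).2 w w₁ h₁
  rw [h4] at hN
  have hw : 1 < Ideal.absNorm w.asIdeal := by
    have h5 : Ideal.absNorm w.asIdeal ≠ 0 := fun h => w.ne_bot (Ideal.absNorm_eq_zero_iff.1 h)
    have h6 : Ideal.absNorm w.asIdeal ≠ 1 := fun h => w.isPrime.ne_top (Ideal.absNorm_eq_one_iff.1 h)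
    omega
  have h5 : w.asIdeal.inertiaDegIn (𝓞 L') = 2 := Nat.pow_right_injective hw hN
  rw [h5] at h3
  have h6 : (w.asIdeal.primesOver (𝓞 L')).ncard * w₁.asIdeal.ramificationIdx (𝓞 K') = 1 := by
    have : (w.asIdeal.primesOver (𝓞 L')).ncard * w₁.asIdeal.ramificationIdx (𝓞 K') * 2 = 1 * 2 := by
      rw [mul_assoc, h3]
    exact Nat.eq_of_mul_eq_mul_right (by norm_num) this
  exact Nat.eq_one_of_mul_eq_one_left h6

theorem q_square {K' K L' L : Type} [Field K'] [NumberField K'] [Field K] [NumberField K] [Field L'] [NumberField L'] [Field L]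
    [NumberField L] [Algebra K' K] [Algebra K' L'] [Algebra K L] [Algebra L' L] [Algebra K' L] [IsScalarTower K' K L]
    [IsScalarTower K' L' L] [IsGalois K' K] [IsGalois L' L] {p : ℕ} (hp : p.Prime) (hp2 : p ≠ 2) (h1 : Module.finrank K' K = p)
    (h2 : Module.finrank L' L = p) (h3 : Module.finrank K L ≤ 2) (w : Pl K') (w' : Pl L') (hw : w.asIdeal = w'.asIdeal.under (𝓞 K'))
    (he : w'.asIdeal.ramificationIdx (𝓞 K') = 1) : es L' L w' ≠ 1 ↔ es K' K w ≠ 1 := by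
  obtain ⟨Q, hQ⟩ := H55R.under_exists (L := L) w'
  have hQ' : Q.asIdeal.under (𝓞 L') = w'.asIdeal := congrArg HeightOneSpectrum.asIdeal hQ
  let P : Pl K := HeightOneSpectrum.under (𝓞 K) Q
  have hP : Q.asIdeal.under (𝓞 K) = P.asIdeal := rfl
  have hPw : P.asIdeal.under (𝓞 K') = w.asIdeal := by
    rw [← hP, Ideal.under_under, hw, ← hQ', Ideal.under_under]
  have hQp := Q.isPrime
  have hPp := P.isPrime
  have hwp := w'.isPrime
  have l1 : Q.asIdeal.LiesOver P.asIdeal := ⟨hP.symm⟩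
  have l2 : Q.asIdeal.LiesOver w'.asIdeal := ⟨hQ'.symm⟩
  have t1 := Ideal.ramificationIdx_tower (R := 𝓞 K') P.asIdeal Q.asIdeal
  have t2 := Ideal.ramificationIdx_tower (R := 𝓞 K') w'.asIdeal Q.asIdeal
  rw [he, one_mul] at t2
  have e1 := q_es w P.asIdeal P.isPrime hPw
  have e2 := q_es w' Q.asIdeal Q.isPrime hQ'
  rw [← e2, t1, ← e1] at t2
  -- bounds
  obtain ⟨T1, -, hT1⟩ := H55P.pt10_card (K' := K) w
  obtain ⟨T2, -, hT2⟩ := H55P.pt10_card (K' := L) w'
  have d1 : es K' K w ∣ p := ⟨T1.card * fs K' K w, by rw [← h1, ← hT1]; ring⟩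
  have d2 : es L' L w' ∣ p := ⟨T2.card * fs L' L w', by rw [← h2, ← hT2]; ring⟩
  have hle : Q.asIdeal.ramificationIdx (𝓞 K) ≤ 2 := by
    have hG : IsGalois K L := q_gal2 h3
    obtain ⟨T3, -, hT3⟩ := H55P.pt10_card (K' := L) P
    rw [← q_es P Q.asIdeal Q.isPrime hP]
    have hpos : 0 < T3.card * fs K L P := by
      rcases Nat.eq_zero_or_pos (T3.card * fs K L P) with h0 | h0
      · have h5 : T3.card * (es K L P * fs K L P) = es K L P * (T3.card * fs K L P) := by ring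
        rw [h5, h0, mul_zero] at hT3
        have := Module.finrank_pos (R := K) (M := L)
        omega
      · exact h0
    calc es K L P ≤ es K L P * (T3.card * fs K L P) := Nat.le_mul_of_pos_right _ hpos
      _ = T3.card * (es K L P * fs K L P) := by ring
      _ ≤ 2 := by rw [hT3]; exact h3
  rcases (Nat.dvd_prime hp).1 d1 with h4 | h4
  · rcases (Nat.dvd_prime hp).1 d2 with h5 | h5
    · rw [h4, h5]
    · rw [h4, h5, one_mul] at t2
      have := hp.two_le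
      omega
  · rcases (Nat.dvd_prime hp).1 d2 with h5 | h5
    · rw [h4, h5] at t2
      have h6 := Nat.eq_one_of_mul_eq_one_right t2
      exact absurd h6 hp.one_lt.ne'
    · rw [h4, h5]

/-- A prime ramified in K does not contain p if p is unramified in K. -/
theorem q_p {K' K : Type} [Field K'] [NumberField K'] [Field K] [NumberField K] [Algebra K' K] [IsGalois K' K] {p : ℕ} (hp : p.Prime)
    (hU : H55P.UnrP p K) (w : Pl K') (he : es K' K w ≠ 1) : (p : 𝓞 K') ∉ w.asIdeal :=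
  fun h => he (H55P.pt10_ram K' K p hU w h)

theorem q_bij {K' L' : Type} [Field K'] [NumberField K'] [Field L'] [NumberField L'] [Algebra K' L']
    (hb : Function.Bijective (algebraMap K' L')) (w : Pl K') : ∃ w₁ : Pl L', Ideal.absNorm w₁.asIdeal = Ideal.absNorm w.asIdeal ∧
      w₁.asIdeal.ramificationIdx (𝓞 K') = 1 ∧ ∀ w' : Pl L', w.asIdeal = w'.asIdeal.under (𝓞 K') ↔ w' = w₁ := by
  have h1 : Module.finrank K' L' = 1 := by
    let e : K' ≃ₗ[K'] L' := LinearEquiv.ofBijective (Algebra.linearMap K' L') hb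
    rw [← e.finrank_eq, Module.finrank_self]
  obtain ⟨w₁, hw₁⟩ := H55R.under_exists (L := L') w
  have h₁ : w₁.asIdeal.under (𝓞 K') = w.asIdeal := congrArg HeightOneSpectrum.asIdeal hw₁
  have hm := w.isMaximal
  have hlies : w₁.asIdeal.LiesOver w.asIdeal := ⟨h₁.symm⟩
  have hgal : IsGalois K' L' := q_gal2 (by omega)
  obtain ⟨T, hT, hc⟩ := H55P.pt10_card (K' := L') w
  rw [h1] at hc
  have hT1 : T.card = 1 := Nat.eq_one_of_mul_eq_one_right hc
  have hef : es K' L' w * fs K' L' w = 1 := Nat.eq_one_of_mul_eq_one_left hc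
  have he : es K' L' w = 1 := Nat.eq_one_of_mul_eq_one_right hef
  have hf : fs K' L' w = 1 := Nat.eq_one_of_mul_eq_one_left hef
  obtain ⟨W, hW⟩ := Finset.card_eq_one.1 hT1
  have hWw : w₁ = W := by
    rw [← Finset.mem_singleton, ← hW, hT]
    exact h₁
  refine ⟨w₁, ?_, ?_, fun w' => ?_⟩
  · rw [← Ideal.absNorm_relNorm (𝓞 K') (𝓞 L') w₁.asIdeal, H55R.CH2_norm w w₁ h₁, hf, pow_one]
  · rw [← q_es w w₁.asIdeal w₁.isPrime h₁, he]
  · constructor
    · intro h
      rw [hWw, ← Finset.mem_singleton, ← hW, hT]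
      exact h.symm
    · rintro rfl
      exact h₁.symm

end H13T
end

-- from Lib.H57N.A2
section

/-! # H57N, chunk A2: anomalous primes in p-extensions -/

open NumberField IsDedekindDomain WeierstrassCurve

namespace H57N

open H55P H55R
open H55K H55K.TQ

/-- Anomalous primes go down in Galois p-extensions of F. -/
def DownP {F : Type} [Field F] [NumberField F] (W₀ : WeierstrassCurve (𝓞 F)) (p : ℕ) : Prop :=
  ∀ (L : Type) [Field L] [NumberField L] [Algebra F L] [IsGalois F L], (∃ k : ℕ, Module.finrank F L = p ^ k) →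
    ∀ (w : HeightOneSpectrum (𝓞 L)) (v : HeightOneSpectrum (𝓞 F)), v.asIdeal = w.asIdeal.under (𝓞 F) → W₀.Δ ∉ v.asIdeal →
      p ∣ Nat.card (W₀⁄(𝓞 L ⧸ w.asIdeal)).toAffine.Point → p ∣ Nat.card (W₀⁄(𝓞 F ⧸ v.asIdeal)).toAffine.Point

/-- p divides the norm of a prime element above p. -/
theorem a2_nm {F : Type} [Field F] [NumberField F] [IQ F] {p : ℕ} (hp : p.Prime) {π : 𝓞 F} (hπ : Prime π)
    (hd : π ∣ (p : 𝓞 F)) : p ∣ H55P.Nm π := by
  obtain ⟨c, hc⟩ := hd
  have h1 : H55P.Nm π * H55P.Nm c = p ^ 2 := by rw [← Nm_mul, ← hc, Nm_nat]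
  obtain ⟨i, hi, hi2⟩ := (Nat.dvd_prime_pow hp).1 (Dvd.intro _ h1)
  rcases Nat.eq_zero_or_pos i with h0 | h0
  · rw [h0, pow_zero] at hi2
    exfalso
    apply hπ.not_isUnit
    unfold H55P.Nm at hi2
    rwa [Ideal.absNorm_eq_one_iff, Ideal.span_singleton_eq_top] at hi2
  · rw [hi2]
    exact dvd_pow_self p h0.ne'

/-- If p divides the norm of 1 - x^(p^i) it divides the norm of 1 - x. -/
theorem a2_arith {F : Type} [Field F] [NumberField F] [IQ F] {p : ℕ} (hp : p.Prime) (x : 𝓞 F) (i : ℕ)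
    (h : p ∣ H55P.Nm (1 - x ^ p ^ i)) : p ∣ H55P.Nm (1 - x) := by
  obtain ⟨π₀, hπ₀, hd₀⟩ := H28T.cb1_pi (F := F) hp
  obtain ⟨π, hπ, hd, hx⟩ : ∃ π : 𝓞 F, Prime π ∧ π ∣ (p : 𝓞 F) ∧ π ∣ 1 - x ^ p ^ i := by
    obtain ⟨c, hc⟩ := h
    have h1 : π₀ ∣ (1 - x ^ p ^ i) * H55K.cj (1 - x ^ p ^ i) := by
      rw [mul_cj, hc, Nat.cast_mul]
      exact hd₀.mul_right _
    rcases hπ₀.dvd_or_dvd h1 with h2 | h2
    · exact ⟨π₀, hπ₀, hd₀, h2⟩
    · refine ⟨H55K.cj π₀, cj_prime hπ₀, ?_, ?_⟩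
      · rw [cj_dvd, cj_nat]
        exact hd₀
      · rw [cj_dvd]
        exact h2
  obtain ⟨r, hr⟩ := exists_add_pow_prime_pow_eq hp x (1 - x) i
  have e : x + (1 - x) = 1 := by ring
  rw [e, one_pow] at hr
  have h3 : π ∣ (1 - x) ^ p ^ i := by
    have e2 : (1 - x) ^ p ^ i = (1 - x ^ p ^ i) - (p : 𝓞 F) * x * (1 - x) * r := by linear_combination -hr
    rw [e2]
    exact dvd_sub hx (((hd.mul_right _).mul_right _).mul_right _)
  obtain ⟨c, hc⟩ := hπ.dvd_of_dvd_pow h3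
  rw [hc, Nm_mul]
  exact (a2_nm hp hπ hd).mul_right _

/-- Chunk A2 (M). The number of points modulo w is Nm (1 - ψ (relNorm w)) (H55K.pts_w with hH.data.hecke, hH.deu, and ¬ mK L m ≤ w.asIdeal: H13R.h1_pos), relNorm w = v^f (Ideal.relNorm_eq_pow_of_isMaximal), f = the residue degree divides [L : F] = p^k
(Galois: Ideal.inertiaDeg.. the order of the decomposition group e f divides the order; see card_stab, D5_norm in H55R, or H13S/H28G; or e f g = n: Ideal.ncard_primesOver_mul_ramificationIdxIn_mul_inertiaDegIn), so f = p^i. ψ is multiplicative: ψ (v^f) = (ψ v)^f.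
Let x = ψ v. p ∣ Nm (1 - x^f), Nm y = y * cj y (mul_cj), so a prime element π dividing p (cb1_pi) divides 1 - x^f or its conjugate: after replacing π by cj π, π ∣ 1 - x^f. (1 - x)^(p^i) = 1 - x^(p^i) modulo p (sub_pow_char_pow in the ring 𝓞 F ⧸ (p) of
characteristic p: CharP; or the binomial theorem / induction on i), so π ∣ (1 - x)^f, π ∣ 1 - x, Nm π ∣ Nm (1 - x) (Nm_mul), p ∣ Nm π (Nm π divides p^2 and is not 1: cb2_unit), and Nm (1 - x) is the number of points modulo v (hH.deu). -/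
theorem a2_down {F : Type} [Field F] [NumberField F] [IQ F] {W₀ : WeierstrassCurve (𝓞 F)} {Om : ℂ} {m : Ideal (𝓞 F)}
    {ψ : Ideal (𝓞 F) →*₀ 𝓞 F} {p : ℕ} (hH : BaseH F W₀ Om m ψ) (hp : PrimeH F W₀ p) : DownP W₀ p := by
  intro L _ _ _ _ hk w v hv hΔ hdvd
  obtain ⟨k, hk⟩ := hk
  obtain ⟨v', hv', hN, hf, hmv⟩ := H55K.DD.below (m := m) w
  have hvv : v' = v := HeightOneSpectrum.ext (hv'.trans hv.symm)
  rw [hvv] at hN
  have hΔ' : algebraMap (𝓞 F) (𝓞 L) W₀.Δ ∉ w.asIdeal := by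
    intro hm
    apply hΔ
    rw [hv]
    exact hm
  rw [pts_w hH.data.hecke (fun v hv _ => hH.deu v hv) w hΔ' fun hm => hΔ' ((H13R.h1_pos hH w).2 hm), hN, map_pow] at hdvd
  rw [hH.deu v hΔ]
  have hwp := w.isPrime
  have hwm := w.isMaximal
  have hvp := v.isPrime
  have hvm := v.isMaximal
  have hl : w.asIdeal.LiesOver v.asIdeal := ⟨hv⟩
  have h1 := Ideal.ncard_primesOver_mul_ramificationIdxIn_mul_inertiaDegIn v.asIdeal (𝓞 L) Gal(L/F)
  rw [Ideal.inertiaDegIn_eq_inertiaDeg v.asIdeal w.asIdeal Gal(L/F), IsGalois.card_aut_eq_finrank, hk] at h1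
  obtain ⟨i, -, hi⟩ := (Nat.dvd_prime_pow hp.prime).1 (Dvd.intro_left _ (by rw [← h1, mul_assoc]) :
    w.asIdeal.inertiaDeg (𝓞 F) ∣ p ^ k)
  rw [hi] at hdvd
  exact a2_arith hp.prime _ i hdvd

end H57N
end

-- from Lib.H57N.D3
section

/-! # H57N, chunk D3: a field over which almost all primes of degree one are anomalous -/

open NumberField IsDedekindDomain WeierstrassCurve

namespace H57N

open H55P H55R
open H35P (WAB Ker tt)
open H55K H55K.TQ

/-- Chunk D3a (M). A variant of cb3a_split (H28T/CB3A.lean), shorter. Let S = the primes w of C with w.under (𝓞 F) in the finite set of h.frob, or es F C (w.under) ≠ 1, or p in w (finite: as in cb3a_split). Let w be outside S, of prime norm, v = w.under (𝓞 F):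
absNorm v = absNorm w is prime (D5_norm, fs = 1). V above w (exists_abw Ω w), above v. s from H13S.exists_frob v V: s x = x^q modulo V. s fixes C: triv_of_es (K = F), exactly as hsC in cb3a_split. By hcrd every T in Tor act π has coordinates in C, so
ac s T = T (ac_fix; s fixes algebraMap C Ω x); p • T = 0 (hT1 in cb3a_split; π ∣ p), V(p) = 1, so h.frob: act (ψ v) T = T, so act (ψ v - 1) T = 0 (k2a_sub, k2a_one) for T in Tor act π, T ≠ 0 (exists_tor): π ∣ ψ v - 1 (tor_zero). -/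
theorem d3_div {F : Type} [Field F] [NumberField F] [IQ F] {A B : F} {Om : ℂ} {Ω : Type} [Field Ω] [DecidableEq Ω]
    [Algebra F Ω] {j : Ω →+* ℂ} {act : 𝓞 F →+* AddMonoid.End (Pt (WAB A B) Ω)} {m : Ideal (𝓞 F)}
    {ψ : Ideal (𝓞 F) →*₀ 𝓞 F} {p : ℕ} {C : Type} [Field C] [NumberField C] [Algebra F C] [Algebra C Ω] [IsScalarTower F C Ω]
    [IsAlgClosure F Ω] [IsGalois F C] (h : Dta A B Om j act m ψ p) {π : 𝓞 F} (hπ : Prime π)
    (hd : π ∣ (p : 𝓞 F)) (hcrd : ∀ T ∈ Tor act π, ∃ x y : C, algebraMap C Ω x = xc T ∧ algebraMap C Ω y = yc T) :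
    ∃ S : Set (Pl C), S.Finite ∧ ∀ w : Pl C, w ∉ S → (Ideal.absNorm w.asIdeal).Prime →
      Ideal.absNorm (w.under (𝓞 F)).asIdeal = Ideal.absNorm w.asIdeal ∧ π ∣ ψ (w.under (𝓞 F)).asIdeal - 1 := by
  obtain ⟨S2, hS2f, hS2⟩ := h.frob
  have hpC : ((p : ℕ) : 𝓞 C) ≠ 0 := Nat.cast_ne_zero.2 h.prime.ne_zero
  have hf2 : {w : Pl C | w.under (𝓞 F) ∈ S2}.Finite :=
    hS2f.preimage' (f := fun w : Pl C => w.under (𝓞 F)) fun b _ => above_finite b
  have hf3 : {w : Pl C | es F C (w.under (𝓞 F)) ≠ 1}.Finite :=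
    (ram_fin F C).preimage' (f := fun w : Pl C => w.under (𝓞 F)) fun b _ => above_finite b
  refine ⟨{w : Pl C | w.under (𝓞 F) ∈ S2} ∪
    ({w : Pl C | es F C (w.under (𝓞 F)) ≠ 1} ∪ {w : Pl C | ((p : ℕ) : 𝓞 C) ∈ w.asIdeal}),
    hf2.union (hf3.union (H28R.W5_fin_mem _ hpC)), ?_⟩
  intro w hw hwN
  simp only [Set.mem_union, not_or] at hw
  obtain ⟨hw2, hw3, hw4⟩ := hw
  have hv2 : w.under (𝓞 F) ∉ S2 := hw2
  have he : es F C (w.under (𝓞 F)) = 1 := not_not.1 hw3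
  have hwp : ((p : ℕ) : 𝓞 C) ∉ w.asIdeal := hw4
  have hnorm := D5_norm (w.under (𝓞 F)) w rfl
  have hfs : fs F C (w.under (𝓞 F)) = 1 := by
    have hpos := fs_pos (L := C) (w.under (𝓞 F))
    by_contra hne
    have h2 : 2 ≤ fs F C (w.under (𝓞 F)) := by omega
    have hwN' := hwN
    rw [hnorm] at hwN'
    exact Nat.Prime.not_prime_pow h2 hwN'
  rw [hfs, pow_one] at hnorm
  have hvN : (Ideal.absNorm (w.under (𝓞 F)).asIdeal).Prime := by
    rw [← hnorm]
    exact hwN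
  refine ⟨hnorm.symm, ?_⟩
  obtain ⟨V, hV⟩ := exists_abw Ω w
  have hVv : Abw V (w.under (𝓞 F)) := hV.below rfl
  have hva : ∀ a : 𝓞 F, a ∈ (w.under (𝓞 F)).asIdeal → V.valuation (ak Ω a) < 1 := fun a ha =>
    (hVv.lt _).2 (((w.under (𝓞 F)).valuation_lt_one_iff_mem a).2 ha)
  have hpv : ((p : ℕ) : 𝓞 F) ∉ (w.under (𝓞 F)).asIdeal := by
    intro hm
    apply hwp
    have h1 : algebraMap (𝓞 F) (𝓞 C) ((p : ℕ) : 𝓞 F) ∈ w.asIdeal := hm
    rwa [map_natCast] at h1
  have hcast : ∀ n : ℕ, algebraMap F Ω (((n : 𝓞 F) : F)) = (n : Ω) := by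
    intro n
    have e : ((n : 𝓞 F) : F) = (n : F) := by push_cast; rfl
    rw [e, map_natCast]
  have hp1 : V.valuation (p : Ω) = 1 := by
    have h1 := (hVv.eq_one (((p : ℕ) : 𝓞 F) : F)).2
      ((HeightOneSpectrum.valuation_eq_one_iff_notMem (w.under (𝓞 F))).2 hpv)
    rwa [hcast p] at h1
  obtain ⟨s, -, hs⟩ := H13S.exists_frob (w.under (𝓞 F)) V hva
  have hsC : Fxd C s := by
    refine triv_of_es (K := F) hV he s (fun x => s.commutes x) fun y hy => ?_
    have h1 := hs _ hy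
    have h2 : V.valuation (algebraMap C Ω y ^ Ideal.absNorm (w.under (𝓞 F)).asIdeal - algebraMap C Ω y) < 1 := by
      rw [← hnorm, ← map_pow, ← map_sub, hV.lt]
      exact H28G.pow_norm w y ((hV y).1 hy)
    have e : s (algebraMap C Ω y) - algebraMap C Ω y =
        (s (algebraMap C Ω y) - algebraMap C Ω y ^ Ideal.absNorm (w.under (𝓞 F)).asIdeal) +
        (algebraMap C Ω y ^ Ideal.absNorm (w.under (𝓞 F)).asIdeal - algebraMap C Ω y) := by ring
    rw [e]
    exact V.valuation.map_add_lt h1 h2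
  obtain ⟨T, hT, hT0⟩ := exists_tor h.cma hπ
  have hT1 : p • T = 0 := by
    obtain ⟨c, hc⟩ := hd
    have h1 : act (p : 𝓞 F) T = 0 := by
      rw [hc, mul_comm, map_mul]
      show act c (act π T) = 0
      have h2 : act π T = 0 := hT
      rw [h2, map_zero]
    rw [map_natCast, AddMonoid.End.natCast_apply] at h1
    exact h1
  have hact : act (ψ (w.under (𝓞 F)).asIdeal) T = T := by
    rw [← hS2 _ hv2 hvN V hva s hs p hp1 T hT1]
    obtain ⟨x, y, hx, hy⟩ := hcrd T hT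
    exact ac_fix s (by rw [← hx, hsC x]) (by rw [← hy, hsC y])
  rw [← tor_zero h.cma hπ hT hT0, k2a_sub, k2a_one, hact, sub_self]

/-- A field containing N and the roots of unity. -/
theorem d3_comp {F N : Type} [Field F] [NumberField F] [Field N] [NumberField N] [Algebra F N]
    [Algebra N (AlgebraicClosure F)] [IsScalarTower F N (AlgebraicClosure F)] [IsGalois F N] {p : ℕ} (hp : p.Prime) :
    ∃ (C : Type) (_ : Field C) (_ : NumberField C) (_ : Algebra F C) (_ : Algebra N C)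
      (_ : Algebra C (AlgebraicClosure F)) (_ : IsScalarTower F C (AlgebraicClosure F))
      (_ : IsScalarTower N C (AlgebraicClosure F)), IsGalois F C ∧ ∃ ζ : C, IsPrimitiveRoot ζ p := by
  have hp0 : NeZero p := ⟨hp.ne_zero⟩
  have hcy : IsCyclotomicExtension {p} ℚ (CyclotomicField p ℚ) := CyclotomicField.isCyclotomicExtension p ℚ
  have hgal : IsGalois ℚ (CyclotomicField p ℚ) := IsCyclotomicExtension.isGalois {p} ℚ _
  let j : CyclotomicField p ℚ →+* AlgebraicClosure F :=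
    (IsAlgClosed.lift (R := ℚ) (S := CyclotomicField p ℚ) (M := AlgebraicClosure F)).toRingHom
  let _ : Algebra (CyclotomicField p ℚ) (cE N j) := cAlg N j
  have hN : NumberField (cE N j) := p5_num N j
  have hcmp : Cmp N (CyclotomicField p ℚ) (cE N j) := p5_cmp N j
  have hG : IsGalois F (cE N j) := p3_gal hcmp
  have t1 : IsScalarTower F (cE N j) (AlgebraicClosure F) := IsScalarTower.of_algebraMap_eq fun _ => rfl
  refine ⟨cE N j, inferInstance, hN, inferInstance, inferInstance, inferInstance, t1, inferInstance, hG,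
    cj N j (IsCyclotomicExtension.zeta p ℚ (CyclotomicField p ℚ)), ?_⟩
  exact (IsCyclotomicExtension.zeta_spec p ℚ (CyclotomicField p ℚ)).map_of_injective (cj N j).injective

/-- p divides the norm of a prime element above p. -/
theorem d3_nm {F : Type} [Field F] [NumberField F] [IQ F] {p : ℕ} (hp : p.Prime) {π : 𝓞 F} (hπ : Prime π)
    (hd : π ∣ (p : 𝓞 F)) : p ∣ H55P.Nm π := by
  obtain ⟨c, hc⟩ := hd
  have h1 : H55P.Nm π * H55P.Nm c = p ^ 2 := by rw [← Nm_mul, ← hc, Nm_nat]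
  obtain ⟨i, hi, hi2⟩ := (Nat.dvd_prime_pow hp).1 (Dvd.intro _ h1)
  rcases Nat.eq_zero_or_pos i with h0 | h0
  · rw [h0, pow_zero] at hi2
    exfalso
    apply hπ.not_isUnit
    unfold H55P.Nm at hi2
    rwa [Ideal.absNorm_eq_one_iff, Ideal.span_singleton_eq_top] at hi2
  · rw [hi2]
    exact dvd_pow_self p h0.ne'

/-- Chunk D3b (M). π from cb1_pi, the data A, B, j, act from exists_dta hH hp (H28T/DT.lean; Ω = AlgebraicClosure F), N from exists_TFld (K := F) (H55K/K1A.lean): N/F Galois, the coordinates of Tor act π in N. C = cE N j' (P5.lean) with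
j' : CyclotomicField p ℚ →+* AlgebraicClosure F (IsAlgClosed.lift over ℚ): a number field, C/F is Galois by p3_gal (N/F Galois, CyclotomicField p ℚ / ℚ Galois; the algebra F → C through N), it contains a primitive p-th root of unity ζ (the image of
IsCyclotomicExtension.zeta). S from d3_div, plus the primes containing p, plus those containing the image of W₀.Δ (finite: H28R.W5_fin_mem as in cb3_niceG). For w outside: π ∣ 1 - ψ v, p ∣ Nm π (k10_arith or: Nm π divides Nm p = p^2 (Nm_nat, Nm_mul) and is not 1,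
cb2_unit), Nm π ∣ Nm (1 - ψ v) (Nm_mul) = the number of points (hH.deu v, Δ not in v). p ∣ absNorm w - 1: H28R.W5_dvd hp.prime hζ w. -/
theorem d3_field {F : Type} [Field F] [NumberField F] [IQ F] {W₀ : WeierstrassCurve (𝓞 F)} {Om : ℂ} {m : Ideal (𝓞 F)}
    {ψ : Ideal (𝓞 F) →*₀ 𝓞 F} {p : ℕ} (hH : BaseH F W₀ Om m ψ) (hp : PrimeH F W₀ p) :
    ∃ (C : Type) (_ : Field C) (_ : NumberField C) (_ : Algebra F C) (S : Set (Pl C)), S.Finite ∧
      ∀ w : Pl C, w ∉ S → (Ideal.absNorm w.asIdeal).Prime →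
        p ∣ Ideal.absNorm w.asIdeal - 1 ∧ ∃ v : Pl F, Ideal.absNorm v.asIdeal = Ideal.absNorm w.asIdeal ∧ W₀.Δ ∉ v.asIdeal ∧
          p ∣ Nat.card (W₀⁄(𝓞 F ⧸ v.asIdeal)).toAffine.Point := by
  classical
  obtain ⟨A, B, j, act, h⟩ := H28T.exists_dta hH hp
  obtain ⟨π, hπ, hd⟩ := H28T.cb1_pi (F := F) hp.prime
  obtain ⟨N, iF, iN, i1, i2, i3, t1, t2, t3, hN⟩ := exists_TFld h.cma F hπ.ne_zero
  clear t1 t3
  clear i1
  have hgN : IsGalois F N := hN.gal
  obtain ⟨C, _, _, _, _, _, _, _, hG, ζ, hζ⟩ := d3_comp (F := F) (N := N) hp.prime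
  obtain ⟨S, hS, hw⟩ := d3_div (C := C) h hπ hd (fun T hT => by
    obtain ⟨x, y, hx, hy⟩ := hN.crd T hT
    refine ⟨algebraMap N C x, algebraMap N C y, ?_, ?_⟩
    · rw [← IsScalarTower.algebraMap_apply N C (AlgebraicClosure F), hx]
    · rw [← IsScalarTower.algebraMap_apply N C (AlgebraicClosure F), hy])
  have hΔC : algebraMap (𝓞 F) (𝓞 C) W₀.Δ ≠ 0 := by
    intro h0
    apply hH.data.ell
    apply RingOfIntegers.ext
    have h1 : algebraMap F C ((W₀.Δ : 𝓞 F) : F) = 0 := congrArg (fun x : 𝓞 C => (x : C)) h0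
    rw [map_eq_zero] at h1
    exact h1
  have hpC : ((p : ℕ) : 𝓞 C) ≠ 0 := Nat.cast_ne_zero.2 hp.prime.ne_zero
  refine ⟨C, inferInstance, inferInstance, inferInstance,
    S ∪ ({w : Pl C | algebraMap (𝓞 F) (𝓞 C) W₀.Δ ∈ w.asIdeal} ∪ {w : Pl C | ((p : ℕ) : 𝓞 C) ∈ w.asIdeal}),
    hS.union ((H28R.W5_fin_mem _ hΔC).union (H28R.W5_fin_mem _ hpC)), ?_⟩
  intro w hwS hwN
  simp only [Set.mem_union, not_or] at hwS
  obtain ⟨hw1, hw2, hw3⟩ := hwS
  have hw2' : algebraMap (𝓞 F) (𝓞 C) W₀.Δ ∉ w.asIdeal := hw2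
  have hw3' : (p : 𝓞 C) ∉ w.asIdeal := hw3
  obtain ⟨h1, h2⟩ := hw w hw1 hwN
  refine ⟨H28R.W5_dvd hp.prime hζ w hw3', w.under (𝓞 F), h1, fun hm => hw2' hm, ?_⟩
  rw [hH.deu (w.under (𝓞 F)) fun hm => hw2' hm]
  refine (d3_nm hp.prime hπ hd).trans ?_
  obtain ⟨c, hc⟩ := h2
  have e : 1 - ψ (w.under (𝓞 F)).asIdeal = π * (-c) := by linear_combination -hc
  rw [e, Nm_mul]
  exact Dvd.intro _ rfl

end H57N
end

-- from Lib.H57N.D4
section

/-! # H57N, chunk D4: the prime numbers q -/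

open NumberField IsDedekindDomain WeierstrassCurve

namespace H57N

open H55P H55R
open H55K H55K.TQ

/-- The prime numbers q: for all large prime numbers l there are arbitrarily large prime numbers q = 1 mod p, primitive roots modulo l, with a prime v of F of norm q at which the number of points is divisible by p. -/
def ManyQ {F : Type} [Field F] [NumberField F] (W₀ : WeierstrassCurve (𝓞 F)) (p : ℕ) : Prop :=
  ∃ L0 : ℕ, ∀ l : ℕ, l.Prime → L0 < l → ∀ Bd : ℕ, ∃ q : ℕ, q.Prime ∧ Bd < q ∧ p ∣ q - 1 ∧ orderOf (q : ZMod l) = l - 1 ∧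
    ∃ v : HeightOneSpectrum (𝓞 F), Ideal.absNorm v.asIdeal = q ∧ W₀.Δ ∉ v.asIdeal ∧
      p ∣ Nat.card (W₀⁄(𝓞 F ⧸ v.asIdeal)).toAffine.Point

/-- Chunk D4 (S). C, S from d3_field; L0 = |discr C| (discr C ≠ 0: a prime l > |discr C| does not divide it, Int.le_of_dvd / Nat.le_of_dvd). Given l, Bd: d2_prim C with the set S ∪ {w : absNorm w ≤ Bd} (finite: H28R.W5_fin_norm), q = absNorm w. -/
theorem d4_manyQ {F : Type} [Field F] [NumberField F] [IQ F] {W₀ : WeierstrassCurve (𝓞 F)} {Om : ℂ} {m : Ideal (𝓞 F)}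
    {ψ : Ideal (𝓞 F) →*₀ 𝓞 F} {p : ℕ} (hH : BaseH F W₀ Om m ψ) (hp : PrimeH F W₀ p) : ManyQ W₀ p := by
  obtain ⟨C, _, _, _, S, hS, hw⟩ := d3_field hH hp
  refine ⟨(discr C).natAbs, fun l hl hL Bd => ?_⟩
  have hd : ¬ (l : ℤ) ∣ discr C := by
    intro h1
    have h2 : l ∣ (discr C).natAbs := Int.natCast_dvd.1 h1
    have h3 := Nat.le_of_dvd (Int.natAbs_pos.2 (discr_ne_zero C)) h2
    omega
  obtain ⟨w, hwS, hwN, hwo⟩ := d2_prim C hl hd (S ∪ {w : Pl C | Ideal.absNorm w.asIdeal ≤ Bd})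
    (hS.union (H28R.W5_fin_norm Bd))
  rw [Set.mem_union, not_or] at hwS
  obtain ⟨h1, v, h2, h3, h4⟩ := hw w hwS.1 hwN
  exact ⟨Ideal.absNorm w.asIdeal, hwN, not_le.1 hwS.2, h1, hwo, v, h2, h3, h4⟩

end H57N
end

-- from Lib.H57N.E4
section

/-! # H57N, chunk E4: choice of the prime numbers; the group -/

open NumberField IsDedekindDomain WeierstrassCurve

namespace H57N

open H28T
open H55P H55R
open H55K H55K.TQ

/-- Chunk E4 (M). Choose n ≥ 1 with p^n > 2 R₀ [M : ℚ] (Nat.lt_pow_self); L0 from hQ; l from hdir (n + 1) (max L0 |discr N|): l prime, p^(n+1) ∣ l - 1, GoodL, so l does not divide discr N (discr N ≠ 0). Then choose R₀ different prime numbers q by induction on R₀ (each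
larger than l, |discr N|, |W.Δ|, p and all the previous ones; hQ l). Q = the set of them. A prime number dividing discr N is ≤ |discr N|. -/
theorem e4_choice {F : Type} [Field F] [NumberField F] {W : WeierstrassCurve ℤ} {p : ℕ} (hp : p.Prime) (hΔ : W.Δ ≠ 0)
    (hdir : DirH (Gx (W⁄(𝓞 F)) p) p) (hQ : ManyQ (W⁄(𝓞 F)) p) (N : Type) [Field N] [NumberField N] (d R₀ : ℕ) :
    ∃ (n l : ℕ) (Q : Finset ℕ), 1 ≤ n ∧ Prm p n l Q ∧ Q.card = R₀ ∧ 2 * (R₀ * d) < p ^ n ∧ GoodL (Gx (W⁄(𝓞 F)) p) l ∧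
      (∀ r : ℕ, r.Prime → (r : ℤ) ∣ discr N → r ≠ l ∧ r ∉ Q) ∧ p ≠ l ∧ p ∉ Q ∧
      ∀ q ∈ Q, ¬ (q : ℤ) ∣ W.Δ ∧ ∃ v : HeightOneSpectrum (𝓞 F), Ideal.absNorm v.asIdeal = q ∧
        p ∣ Nat.card (W⁄(𝓞 F ⧸ v.asIdeal)).toAffine.Point := by
  classical
  obtain ⟨L0, hL0⟩ := hQ
  obtain ⟨l, hl, hlN, hpl, hG⟩ := hdir (2 * (R₀ * d) + 1 + 1) (max L0 (max p (discr N).natAbs))
  have hlL : L0 < l := lt_of_le_of_lt (le_max_left _ _) hlN
  have hlp : p < l := lt_of_le_of_lt ((le_max_left _ _).trans (le_max_right _ _)) hlN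
  have hlD : (discr N).natAbs < l := lt_of_le_of_lt ((le_max_right _ _).trans (le_max_right _ _)) hlN
  have hD0 : discr N ≠ 0 := discr_ne_zero N
  let C : Set ℕ := {q | (q.Prime ∧ p ∣ q - 1 ∧ orderOf (q : ZMod l) = l - 1 ∧
    ∃ v : HeightOneSpectrum (𝓞 F), Ideal.absNorm v.asIdeal = q ∧ (W⁄(𝓞 F)).Δ ∉ v.asIdeal ∧
      p ∣ Nat.card ((W⁄(𝓞 F))⁄(𝓞 F ⧸ v.asIdeal)).toAffine.Point) ∧ l < q ∧ (discr N).natAbs < q ∧ W.Δ.natAbs < q}
  have hinf : C.Infinite := by
    apply Set.infinite_of_forall_exists_gt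
    intro a
    obtain ⟨q, h1, h2, h3, h4, h5⟩ := hL0 l hl hlL (max a (max l (max (discr N).natAbs W.Δ.natAbs)))
    have b1 : a < q := lt_of_le_of_lt (le_max_left _ _) h2
    have b2 : l < q := lt_of_le_of_lt ((le_max_left _ _).trans (le_max_right _ _)) h2
    have b3 : (discr N).natAbs < q := lt_of_le_of_lt (((le_max_left _ _).trans (le_max_right _ _)).trans (le_max_right _ _)) h2
    have b4 : W.Δ.natAbs < q := lt_of_le_of_lt (((le_max_right _ _).trans (le_max_right _ _)).trans (le_max_right _ _)) h2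
    exact ⟨q, ⟨⟨h1, h3, h4, h5⟩, b2, b3, b4⟩, b1⟩
  obtain ⟨Q, hQC, hcard⟩ := hinf.exists_subset_card_eq R₀
  have hnd : ∀ (z : ℤ) (r : ℕ), z ≠ 0 → z.natAbs < r → ¬ (r : ℤ) ∣ z := by
    intro z r hz hlt hdv
    have := Nat.le_of_dvd (Int.natAbs_pos.2 hz) (Int.natCast_dvd.1 hdv)
    omega
  refine ⟨2 * (R₀ * d) + 1, l, Q, by omega, ⟨hp, hl, hpl, ?_⟩, hcard, ?_, hG, ?_, ?_, ?_, ?_⟩
  · intro q hq
    obtain ⟨⟨h1, h2, h3, -⟩, h4, -, -⟩ := hQC hq
    exact ⟨h1, h2, h4.ne', h3⟩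
  · exact lt_of_lt_of_le (Nat.lt_succ_self _) (Nat.lt_pow_self hp.one_lt).le
  · intro r _ hrd
    constructor
    · rintro rfl
      exact hnd _ _ hD0 hlD hrd
    · intro hrQ
      obtain ⟨-, -, h5, -⟩ := hQC hrQ
      exact hnd _ _ hD0 h5 hrd
  · exact hlp.ne
  · intro hpQ
    obtain ⟨-, h4, -, -⟩ := hQC hpQ
    omega
  · intro q hq
    obtain ⟨⟨-, -, -, v, hv1, -, hv3⟩, -, -, h6⟩ := hQC hq
    refine ⟨hnd _ _ hΔ h6, v, hv1, ?_⟩
    rwa [a1_base] at hv3

/-- Chunk E4 (M). Gal(K/F) → Gal(M/F) × Gal(B/ℚ), the two restrictions (AlgEquiv.restrictNormalHom M, and p1_res-like restriction to B: AlgEquiv.restrictNormalHom B after restriction of scalars to ℚ), is injective (an element trivial on M and B is trivial by h.gen) and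
the orders agree: [K : F] = [M : F] [K : M] = [M : F] [B : ℚ] (p2_deg; K/F is Galois: p3_gal; IsGalois.card_aut_eq_finrank). So it is bijective, and φ σ = the preimage of (σ, 1) is an injective homomorphism. -/
theorem e4_emb {F M B K : Type} [Field F] [NumberField F] [Field M] [NumberField M] [Field B] [NumberField B] [Field K] [NumberField K]
    [Algebra F M] [Algebra M K] [Algebra F K] [IsScalarTower F M K] [Algebra B K] [IsGalois F M] [IsGalois ℚ B] (h : Cmp M B K)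
    (hd : IsCoprime (discr M) (discr B)) : ∃ φ : (M ≃ₐ[F] M) →* (K ≃ₐ[F] K), Function.Injective φ := by
  haveI hgK : IsGalois F K := p3_gal (F := F) h
  haveI tF : IsScalarTower ℚ F K := IsScalarTower.of_algebraMap_eq' (Subsingleton.elim _ _)
  haveI tB : IsScalarTower ℚ B K := IsScalarTower.of_algebraMap_eq' (Subsingleton.elim _ _)
  obtain ⟨-, e, he⟩ := p2_deg h hd
  let rs : (K ≃ₐ[F] K) →* (K ≃ₐ[ℚ] K) :=
    { toFun := fun g => g.restrictScalars ℚ
      map_one' := by ext x; rfl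
      map_mul' := fun a b => by ext x; rfl }
  let rB : (K ≃ₐ[F] K) →* (B ≃ₐ[ℚ] B) := (AlgEquiv.restrictNormalHom B).comp rs
  have hrB : ∀ (g : K ≃ₐ[F] K) (x : B), g (algebraMap B K x) = algebraMap B K (rB g x) := fun g x =>
    (AlgEquiv.restrictNormal_commutes (rs g) B x).symm
  let r : (K ≃ₐ[F] K) →* (M ≃ₐ[F] M) := AlgEquiv.restrictNormalHom M
  have hr : ∀ (g : K ≃ₐ[F] K) (x : M), g (algebraMap M K x) = algebraMap M K (r g x) := fun g x =>
    (AlgEquiv.restrictNormal_commutes g M x).symm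
  have hrs : Function.Surjective r := AlgEquiv.restrictNormalHom_surjective K
  let ρ : rB.ker →* (M ≃ₐ[F] M) := r.comp rB.ker.subtype
  have hρi : Function.Injective ρ := by
    rw [injective_iff_map_eq_one]
    rintro ⟨x, hx⟩ hx1
    have hxM : ∀ y : M, x (algebraMap M K y) = algebraMap M K y := by
      intro y
      have h1 : r x = 1 := hx1
      rw [hr x y, h1, AlgEquiv.one_apply]
    have hxB : ∀ y : B, x (algebraMap B K y) = algebraMap B K y := by
      intro y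
      have h1 : rB x = 1 := hx
      rw [hrB x y, h1, AlgEquiv.one_apply]
    let g : K ≃ₐ[M] K := AlgEquiv.ofRingEquiv (f := (x : K ≃+* K)) hxM
    have hg1 : e g = 1 := by
      ext y
      apply (algebraMap B K).injective
      rw [← he g y, AlgEquiv.one_apply]
      exact hxB y
    have hg : g = 1 := by
      rw [← map_one e] at hg1
      exact e.injective hg1
    apply Subtype.ext
    ext y
    have h2 : g y = y := by rw [hg, AlgEquiv.one_apply]
    exact h2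
  have hρs : Function.Surjective ρ := by
    intro σ
    obtain ⟨τ, hτ⟩ := hrs σ
    obtain ⟨g, hg⟩ := e.surjective (rB τ)
    have h1 : r (g.restrictScalars F) = 1 := by
      ext y
      apply (algebraMap M K).injective
      rw [← hr, AlgEquiv.one_apply]
      exact g.commutes y
    have h2 : rB (g.restrictScalars F) = rB τ := by
      ext y
      apply (algebraMap B K).injective
      rw [← hrB, ← hg, ← he]
      rfl
    refine ⟨⟨τ * (g.restrictScalars F)⁻¹, ?_⟩, ?_⟩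
    · rw [MonoidHom.mem_ker, map_mul, map_inv, h2, mul_inv_cancel]
    · show r (τ * (g.restrictScalars F)⁻¹) = σ
      rw [map_mul, map_inv, h1, inv_one, mul_one, hτ]
  refine ⟨rB.ker.subtype.comp (MulEquiv.ofBijective ρ ⟨hρi, hρs⟩).symm.toMonoidHom, ?_⟩
  exact Subtype.val_injective.comp (MulEquiv.injective _)

end H57N
end
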