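import Mathlib
import Pool.Agent.Lib.H1M.PP2.D_H13R_D
import Pool.Agent.Lib.H1M.PP2.M065
import Pool.Agent.Lib.H1M.PP2.M099
import Pool.Agent.Lib.H1M.PP2.M107
import Pool.Agent.Lib.H1M.PP2.M118
import Pool.Agent.Lib.H1M.PP2.M146
import Pool.Agent.Lib.H1M.PP2.M151

/-! Merged copies (to shorten the build) of Lib.H13T.C0, Lib.H13T.C1, Lib.H13T.C2, Lib.H13T.C3, Lib.H13T.C4. -/

-- from Lib.H13T.C0
section

/-! # H13T, part C: the fields: definitions -/

open NumberField IsDedekindDomain WeierstrassCurve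

namespace H13T

open H55P

open scoped Classical

section

variable {F : Type} [Field F] {Ω : Type} [Field Ω] [Algebra F Ω]

/-- M ≤ N' ≤ N, N/M Galois and cyclic of degree p^(n+1), γ a generator, N' the subfield of degree p^n over M. -/
structure CycI (p n : ℕ) (M N' N : IntermediateField F Ω) (γ : Ω ≃ₐ[F] Ω) : Prop where
  pos : 1 ≤ n
  fin : FiniteDimensional F N
  le : M ≤ N'
  le' : N' ≤ N
  gam : γ ∈ M.fixingSubgroup
  nrm : ∀ s ∈ M.fixingSubgroup, ∀ x ∈ N, s x ∈ N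
  gen : ∀ s ∈ M.fixingSubgroup, ∃ k : ℕ, ∃ u ∈ N.fixingSubgroup, s = γ ^ k * u
  ord : ∀ k : ℕ, γ ^ k ∈ N.fixingSubgroup ↔ p ^ (n + 1) ∣ k
  mid : ∀ k : ℕ, γ ^ k ∈ N'.fixingSubgroup ↔ p ^ n ∣ k
  deg : Module.finrank F N = Module.finrank F M * p ^ (n + 1)
  deg' : Module.finrank F N = Module.finrank F N' * p

/-- The relaxed places: ramified in N/N', and a nonzero point of order p is fixed by the decomposition group over N'. -/
def RV (W : WeierstrassCurve F) (p : ℕ) (N' N : IntermediateField F Ω) (V : ValuationSubring Ω) : Prop :=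
  (∃ s ∈ N'.fixingSubgroup, Inert V s ∧ s ∉ N.fixingSubgroup) ∧
    ∃ T : Pt W Ω, T ≠ 0 ∧ p • T = 0 ∧ ∀ s ∈ N'.fixingSubgroup, Dec V s → ac W s T = T

end

/-- The primes of N' which do not divide the discriminant, are ramified in N, and where p divides the number of points. -/
def AnW {F : Type} [Field F] [NumberField F] {Ω : Type} [Field Ω] [Algebra F Ω] (p : ℕ) (W₀ : WeierstrassCurve (𝓞 F))
    (N' N : IntermediateField F Ω) [NumberField N'] : Set (HeightOneSpectrum (𝓞 N')) :=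
  {w | algebraMap (𝓞 F) (𝓞 N') W₀.Δ ∉ w.asIdeal ∧ Ram N' N w.asIdeal ∧
    p ∣ Nat.card (W₀⁄(𝓞 N' ⧸ w.asIdeal)).toAffine.Point}

end H13T
end

-- from Lib.H13T.C1
section

/-! Chunk C1 (S). Conjugation of valuation rings. cV V g = V.comap g: the ring of the x with g x in V. See H55P.inS_conj (Lib/H55P/S1.lean) for c1_in (its proof is the first claim); c1_dec: the same for Dec (Dec V' s: s x in V' iff x in V', that is g (s x) in V iff g x in V; put y = g x).
c1_below: x in w.asIdeal iff V.valuation x < 1. c1_rv: N' and N are normal over M: fixingSubgroups normalized by g (hypotheses); the point T becomes ac W g⁻¹ T for the conjugate place (ac W is a homomorphism). -/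

open NumberField IsDedekindDomain WeierstrassCurve

namespace H13T

open H55P

open scoped Classical

variable {F : Type} [Field F] {Ω : Type} [Field Ω] [Algebra F Ω]

/-- The conjugate valuation ring. -/
def cV (V : ValuationSubring Ω) (g : Ω ≃ₐ[F] Ω) : ValuationSubring Ω := V.comap (g : Ω →+* Ω)

theorem mem_cV (V : ValuationSubring Ω) (g : Ω ≃ₐ[F] Ω) (x : Ω) : x ∈ cV V g ↔ g x ∈ V := ValuationSubring.mem_comap

theorem c1_lt0 (V : ValuationSubring Ω) (g : Ω ≃ₐ[F] Ω) (x : Ω) : (cV V g).valuation x < 1 ↔ V.valuation (g x) < 1 := by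
  rw [lt1_iff, lt1_iff, mem_cV, map_inv₀]
  simp

theorem c1_in (V : ValuationSubring Ω) (g s : Ω ≃ₐ[F] Ω) : Inert (cV V g) s ↔ Inert V (g * s * g⁻¹) := by
  constructor
  · intro h x hx
    have h2 : g (g⁻¹ x) = x := g.apply_symm_apply x
    have h1 := h (g⁻¹ x) ((mem_cV V g _).2 (by rwa [h2]))
    rw [c1_lt0, map_sub, h2] at h1
    exact h1
  · intro h x hx
    have h1 := h (g x) ((mem_cV V g _).1 hx)
    have h2 : g⁻¹ (g x) = x := g.symm_apply_apply x
    rw [AlgEquiv.mul_apply, AlgEquiv.mul_apply, h2] at h1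
    rw [c1_lt0, map_sub]
    exact h1

theorem c1_dec (V : ValuationSubring Ω) (g s : Ω ≃ₐ[F] Ω) : Dec (cV V g) s ↔ Dec V (g * s * g⁻¹) := by
  constructor
  · intro h x
    have h2 : g (g⁻¹ x) = x := g.apply_symm_apply x
    have h1 := h (g⁻¹ x)
    rw [mem_cV, mem_cV, h2] at h1
    exact h1
  · intro h x
    have h1 := h (g x)
    have h2 : g⁻¹ (g x) = x := g.symm_apply_apply x
    rw [AlgEquiv.mul_apply, AlgEquiv.mul_apply, h2] at h1
    rw [mem_cV, mem_cV]
    exact h1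


theorem c1_mul (W : WeierstrassCurve F) (s t : Ω ≃ₐ[F] Ω) (T : Pt W Ω) : ac W (s * t) T = ac W s (ac W t T) := by
  cases T <;> rfl

theorem c1_one (W : WeierstrassCurve F) (T : Pt W Ω) : ac W (1 : Ω ≃ₐ[F] Ω) T = T := by
  cases T <;> rfl

theorem c1_rv1 (W : WeierstrassCurve F) (p : ℕ) (N' N : IntermediateField F Ω) (V V' : ValuationSubring Ω) (g : Ω ≃ₐ[F] Ω)
    (hin : ∀ s : Ω ≃ₐ[F] Ω, Inert V' s ↔ Inert V (g * s * g⁻¹)) (hdec : ∀ s : Ω ≃ₐ[F] Ω, Dec V' s ↔ Dec V (g * s * g⁻¹))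
    (h1 : ∀ s, g * s * g⁻¹ ∈ N'.fixingSubgroup ↔ s ∈ N'.fixingSubgroup) (h2 : ∀ s, g * s * g⁻¹ ∈ N.fixingSubgroup ↔ s ∈ N.fixingSubgroup)
    (h : RV W p N' N V') : RV W p N' N V := by
  obtain ⟨⟨s, hs1, hs2, hs3⟩, T, hT0, hTp, hT⟩ := h
  refine ⟨⟨g * s * g⁻¹, (h1 s).2 hs1, (hin s).1 hs2, fun h3 => hs3 ((h2 s).1 h3)⟩, ac W g T, ?_, ?_, ?_⟩
  · intro h3
    apply hT0
    have h4 : ac W (g⁻¹ * g) T = T := by
      rw [inv_mul_cancel, c1_one]
    rw [c1_mul, h3, map_zero] at h4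
    exact h4.symm
  · rw [← map_nsmul, hTp, map_zero]
  · intro t ht hd
    have e : g * (g⁻¹ * t * g) * g⁻¹ = t := by group
    have h3 : g⁻¹ * t * g ∈ N'.fixingSubgroup := by
      rw [← h1, e]
      exact ht
    have h4 : Dec V' (g⁻¹ * t * g) := by
      rw [hdec, e]
      exact hd
    have h5 := hT _ h3 h4
    have e2 : t * g = g * (g⁻¹ * t * g) := by group
    rw [← c1_mul, e2, c1_mul, h5]

theorem c1_rv (W : WeierstrassCurve F) (p : ℕ) (N' N : IntermediateField F Ω) (V : ValuationSubring Ω) (g : Ω ≃ₐ[F] Ω)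
    (h1 : ∀ s, g * s * g⁻¹ ∈ N'.fixingSubgroup ↔ s ∈ N'.fixingSubgroup) (h2 : ∀ s, g * s * g⁻¹ ∈ N.fixingSubgroup ↔ s ∈ N.fixingSubgroup) :
    RV W p N' N (cV V g) ↔ RV W p N' N V := by
  refine ⟨c1_rv1 W p N' N V (cV V g) g (c1_in V g) (c1_dec V g) h1 h2, ?_⟩
  have e : ∀ s : Ω ≃ₐ[F] Ω, g * (g⁻¹ * s * g⁻¹⁻¹) * g⁻¹ = s := fun s => by group
  refine c1_rv1 W p N' N (cV V g) V g⁻¹ (fun s => ?_) (fun s => ?_) (fun s => ?_) (fun s => ?_)
  · rw [c1_in, e]
  · rw [c1_dec, e]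
  · rw [← h1, e]
  · rw [← h2, e]

end H13T
end

-- from Lib.H13T.C2
section

/-! Chunk C2 (S/M). Group theory of the cyclic tower (c : CycI p n M N' N γ). η = γ^(p^(n-1)); p^(n-1) * p = p^n (n ≥ 1), p^n * p = p^(n+1).
c2_nN: s u s⁻¹ in N.fixingSubgroup for s in M.fixingSubgroup, u in N.fixingSubgroup: for x in N s⁻¹ x in N (c.nrm), u (s⁻¹ x) = s⁻¹ x. c2_comm: a = γ^i u, b = γ^j v: modulo the normal subgroup N.fixingSubgroup (in M.fixingSubgroup) both are powers of γ.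
c2_nN': s = γ^k u: conj of N'.fixingSubgroup: N'.fixingSubgroup = {γ^(p^n i) u'} (s in N'.fixingSubgroup is γ^k u with u in N.fixingSubgroup ≤ N'.fixingSubgroup, so γ^k in N'.fixingSubgroup, p^n | k); use c2_comm: s a s⁻¹ = (s a s⁻¹ a⁻¹) a. c2_iff: from c2_nN, c2_nN' for g and g⁻¹.
c2_eta: powers of γ and c.mid, c.ord. c2_gen: h = γ^k u, p^n | k, γ^k = (η^p)^(k/p^n). c2_pext: PExt p M N (fin, le, norm = nrm, deg); PExt p M N' (norm from c2_nN': x in N' iff fixed by N'.fixingSubgroup: IntermediateField.. InfiniteGalois.fixedField_fixingSubgroup, Ω/F Galois; deg' and deg: finrank F N' = finrank F M * p^n by cancelling p).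
c2_pextT: PExt p N' N. -/

open NumberField IsDedekindDomain WeierstrassCurve

namespace H13T

open H55P

variable {F : Type} [Field F] [CharZero F] {Ω : Type} [Field Ω] [Algebra F Ω] [IsAlgClosure F Ω] {p n : ℕ} {M N' N : IntermediateField F Ω} {γ : Ω ≃ₐ[F] Ω}

theorem c2_nN (c : CycI p n M N' N γ) (s : Ω ≃ₐ[F] Ω) (hs : s ∈ M.fixingSubgroup) (u : Ω ≃ₐ[F] Ω) (hu : u ∈ N.fixingSubgroup) :
    s * u * s⁻¹ ∈ N.fixingSubgroup := by
  rw [IntermediateField.mem_fixingSubgroup_iff]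
  intro x hx
  have h1 : s⁻¹ x ∈ N := c.nrm s⁻¹ (inv_mem hs) x hx
  have h2 : u (s⁻¹ x) = s⁻¹ x := (IntermediateField.mem_fixingSubgroup_iff _ _).1 hu _ h1
  have h3 : (s * u * s⁻¹) x = s (u (s⁻¹ x)) := rfl
  have h4 : s (s⁻¹ x) = (s * s⁻¹) x := rfl
  rw [h3, h2, h4, mul_inv_cancel]
  rfl

omit [CharZero F] [IsAlgClosure F Ω] in
theorem c2_le (c : CycI p n M N' N γ) : N.fixingSubgroup ≤ N'.fixingSubgroup := by
  intro s hs
  rw [IntermediateField.mem_fixingSubgroup_iff] at hs ⊢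
  exact fun x hx => hs x (c.le' hx)

omit [CharZero F] [IsAlgClosure F Ω] in
theorem c2_le' (c : CycI p n M N' N γ) : N'.fixingSubgroup ≤ M.fixingSubgroup := by
  intro s hs
  rw [IntermediateField.mem_fixingSubgroup_iff] at hs ⊢
  exact fun x hx => hs x (c.le hx)

theorem c2_comm (c : CycI p n M N' N γ) (a : Ω ≃ₐ[F] Ω) (ha : a ∈ M.fixingSubgroup) (b : Ω ≃ₐ[F] Ω) (hb : b ∈ M.fixingSubgroup) :
    a * b * a⁻¹ * b⁻¹ ∈ N.fixingSubgroup := by
  obtain ⟨i, u, hu, rfl⟩ := c.gen a ha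
  obtain ⟨j, v, hv, rfl⟩ := c.gen b hb
  have hA : γ ^ i ∈ M.fixingSubgroup := pow_mem c.gam i
  have hB : γ ^ j ∈ M.fixingSubgroup := pow_mem c.gam j
  have hAB : γ ^ i * γ ^ j = γ ^ j * γ ^ i := by rw [← pow_add, ← pow_add, add_comm]
  generalize γ ^ i = A at hA hAB ⊢
  generalize γ ^ j = B at hB hAB ⊢
  have h1 : B⁻¹ * A⁻¹ * B = A⁻¹ := by
    rw [← _root_.mul_inv_rev, hAB, _root_.mul_inv_rev, inv_mul_cancel_right]
  have h2 : A * u * (B * v) * (A * u)⁻¹ * (B * v)⁻¹ = A * (u * (B * (v * u⁻¹) * B⁻¹)) * A⁻¹ * (B * v⁻¹ * B⁻¹) := by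
    have h3 : A * (u * (B * (v * u⁻¹) * B⁻¹)) * A⁻¹ * (B * v⁻¹ * B⁻¹) = A * u * B * v * u⁻¹ * (B⁻¹ * A⁻¹ * B) * v⁻¹ * B⁻¹ := by group
    rw [h3, h1]
    group
  rw [h2]
  refine mul_mem (c2_nN c A hA _ (mul_mem hu (c2_nN c B hB _ (mul_mem hv (inv_mem hu))))) (c2_nN c B hB _ (inv_mem hv))

theorem c2_nN' (c : CycI p n M N' N γ) (s : Ω ≃ₐ[F] Ω) (hs : s ∈ M.fixingSubgroup) (a : Ω ≃ₐ[F] Ω) (ha : a ∈ N'.fixingSubgroup) :
    s * a * s⁻¹ ∈ N'.fixingSubgroup := by
  have h1 : s * a * s⁻¹ = s * a * s⁻¹ * a⁻¹ * a := by rw [inv_mul_cancel_right]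
  rw [h1]
  exact mul_mem (c2_le c (c2_comm c s hs a (c2_le' c ha))) ha

theorem c2_iff (c : CycI p n M N' N γ) (g : Ω ≃ₐ[F] Ω) (hg : g ∈ M.fixingSubgroup) :
    (∀ s, g * s * g⁻¹ ∈ N'.fixingSubgroup ↔ s ∈ N'.fixingSubgroup) ∧ (∀ s, g * s * g⁻¹ ∈ N.fixingSubgroup ↔ s ∈ N.fixingSubgroup) := by
  have e : ∀ s : Ω ≃ₐ[F] Ω, g⁻¹ * (g * s * g⁻¹) * g⁻¹⁻¹ = s := fun s => by group
  refine ⟨fun s => ⟨fun h => ?_, fun h => c2_nN' c g hg s h⟩, fun s => ⟨fun h => ?_, fun h => c2_nN c g hg s h⟩⟩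
  · have h1 := c2_nN' c g⁻¹ (inv_mem hg) _ h
    rwa [e] at h1
  · have h1 := c2_nN c g⁻¹ (inv_mem hg) _ h
    rwa [e] at h1

omit [CharZero F] [IsAlgClosure F Ω] in
theorem c2_pow (c : CycI p n M N' N γ) : p ^ (n - 1) * p = p ^ n := by
  rw [← pow_succ, Nat.sub_add_cancel c.pos]

theorem c2_eta (c : CycI p n M N' N γ) :
    γ ^ p ^ (n - 1) ∈ M.fixingSubgroup ∧ (γ ^ p ^ (n - 1)) ^ p ∈ N'.fixingSubgroup ∧ (γ ^ p ^ (n - 1)) ^ (p * p) ∈ N.fixingSubgroup := by
  refine ⟨pow_mem c.gam _, ?_, ?_⟩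
  · rw [← pow_mul, c2_pow c]
    exact (c.mid _).2 dvd_rfl
  · rw [← pow_mul, ← mul_assoc, c2_pow c, ← pow_succ]
    exact (c.ord _).2 dvd_rfl

theorem c2_gen (c : CycI p n M N' N γ) (h : Ω ≃ₐ[F] Ω) (hh : h ∈ N'.fixingSubgroup) :
    ∃ i : ℕ, ∃ u ∈ N.fixingSubgroup, h = ((γ ^ p ^ (n - 1)) ^ p) ^ i * u := by
  obtain ⟨k, u, hu, rfl⟩ := c.gen h (c2_le' c hh)
  have h1 : γ ^ k ∈ N'.fixingSubgroup := by
    have h2 := mul_mem hh (inv_mem (c2_le c hu))
    rwa [mul_inv_cancel_right] at h2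
  obtain ⟨i, hi⟩ := (c.mid k).1 h1
  refine ⟨i, u, hu, ?_⟩
  rw [← pow_mul γ, c2_pow c, ← pow_mul, ← hi]

theorem c2_pext (hp : 0 < p) (c : CycI p n M N' N γ) : PExt p M N ∧ PExt p M N' ∧ PExt p N' N := by
  have hfin := c.fin
  refine ⟨⟨c.fin, c.le.trans c.le', c.nrm, n + 1, c.deg⟩, ⟨?_, c.le, ?_, n, ?_⟩, ⟨c.fin, c.le', fun s hs => c.nrm s (c2_le' c hs), 1, ?_⟩⟩
  · exact Submodule.finiteDimensional_of_le (S₁ := Subalgebra.toSubmodule N'.toSubalgebra) (S₂ := Subalgebra.toSubmodule N.toSubalgebra) c.le'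
  · intro s hs x hx
    have hG : IsGalois F Ω := by
      have h1 : Normal F Ω := IsAlgClosure.normal F Ω
      exact IsGalois.mk
    rw [← InfiniteGalois.fixedField_fixingSubgroup N', IntermediateField.mem_fixedField_iff]
    intro u hu
    have h1 := c2_nN' c s⁻¹ (inv_mem hs) u hu
    have h2 := (IntermediateField.mem_fixingSubgroup_iff _ _).1 h1 x hx
    have h3 : (s⁻¹ * u * s⁻¹⁻¹) x = s⁻¹ (u (s x)) := by
      rw [inv_inv]
      rfl
    rw [h3] at h2
    have h4 : s (s⁻¹ (u (s x))) = u (s x) := by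
      have h5 : s (s⁻¹ (u (s x))) = (s * s⁻¹) (u (s x)) := rfl
      rw [h5, mul_inv_cancel]
      rfl
    rw [← h4, h2]
  · have h1 := c.deg
    rw [c.deg', pow_succ, ← mul_assoc] at h1
    exact Nat.eq_of_mul_eq_mul_right hp h1
  · rw [pow_one, c.deg']

end H13T
end

-- from Lib.H13T.C3
section

/-! Chunk C3 (M). A relaxed place, short curve: the decomposition group over N' fixes all points killed by p. V above the prime w of N', w does not contain p, p divides absNorm w - 1 (ramification).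
PROOF. H13R.lk_piR (Lib/H13R/R6.lean) with T: a prime element π of 𝓞 F, π | p, such that the decomposition group D = DecN N' V fixes Tor act π. exists_pairing (Lib/H55K/SPA2.lean; H55K.S): a pairing e : Tor act π × Tor act (cj π) → p-th roots of unity, bilinear, nondegenerate, equivariant.
(a) s in D fixes the p-th roots of unity ζ: 𝓞 N'/w has absNorm w elements, p | absNorm w - 1, so it contains p different p-th roots of 1 and some a in 𝓞 N' has V.valuation (ζ - a) < 1 (the p-th roots of unity are different modulo V since V.valuation p = 1: differences divide p; Lib/H13X/XLK, XNV or H55K.SMU contain such arguments: grep root of unity, mu);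
then s ζ - ζ = s (ζ - a) - (ζ - a) has value < 1 (Dec V s), so s ζ = ζ.
(b) s in D fixes Tor act (cj π): e(S, s T) = e(s S, s T) = s e(S, T) = e(S, T) for all S in Tor act π, so s T = T by nondegeneracy.
(c) if π and cj π are not associated: p = unit π cj π and every T killed by p is a sum of points of Tor act π and Tor act (cj π) (a π + b cj π = 1). If they are associated: either p is inert (π associated to p: p unramified) and Tor act π is everything killed by p. (hp.unr: p is unramified; exists_prime_above, H13R.lk_piR proof; Nm_mul, Nm_nat: π cj π = Nm π.) -/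

open NumberField IsDedekindDomain WeierstrassCurve

namespace H13T

open H55P H55K H55K.S
open H35P (WAB)
open H13S (Abv)
open H13X (DecN)

open scoped Classical

variable {F : Type} [Field F] [NumberField F] [IQ F] {A B : F} {Om : ℂ}
  {j : AlgebraicClosure F →+* ℂ} {act : 𝓞 F →+* AddMonoid.End (Pt (WAB A B) (AlgebraicClosure F))} {mo : Ideal (𝓞 F)}
  {ψ : Ideal (𝓞 F) →*₀ 𝓞 F} {p : ℕ}

/-- A root of unity of order p congruent to 1 is 1. -/
theorem c3_one {Ω : Type} [Field Ω] (V : ValuationSubring Ω) {p : ℕ} (hV : ¬ V.valuation (p : Ω) < 1) {ξ : Ω} (hξl : ξ ^ p = 1)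
    (hξv : V.valuation (ξ - 1) < 1) : ξ = 1 := by
  by_contra hξ1
  have hξV : ξ ∈ V := by
    have h1 : ξ - 1 ∈ V := (V.valuation_le_one_iff _).1 hξv.le
    have h2 := V.add_mem _ _ h1 V.one_mem
    rwa [sub_add_cancel] at h2
  let x : V := ⟨ξ, hξV⟩
  have hr : IsLocalRing.residue V x = 1 := by
    have h1 : x - 1 ∈ IsLocalRing.maximalIdeal V := by
      rw [ValuationSubring.valuation_lt_one_iff]
      exact hξv
    have h2 := (IsLocalRing.residue_eq_zero_iff _).2 h1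
    rw [map_sub, map_one, sub_eq_zero] at h2
    exact h2
  have hsum : ∑ i ∈ Finset.range p, x ^ i = 0 := by
    apply Subtype.ext
    have h1 := geom_sum_mul ξ p
    rw [hξl, sub_self] at h1
    have h2 := (mul_eq_zero.1 h1).resolve_right (sub_ne_zero.2 hξ1)
    rw [ZeroMemClass.coe_zero, ← h2]
    push_cast
    rfl
  have h1 : IsLocalRing.residue V (p : V) = 0 := by
    have h2 := congrArg (IsLocalRing.residue V) hsum
    rw [map_sum, map_zero] at h2
    simp only [map_pow, hr, one_pow, Finset.sum_const, Finset.card_range, nsmul_eq_mul, mul_one] at h2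
    rw [map_natCast]
    exact h2
  apply hV
  have h2 := (IsLocalRing.residue_eq_zero_iff _).1 h1
  exact (ValuationSubring.valuation_lt_one_iff V (p : V)).1 h2

omit [IQ F] in
/-- The decomposition group fixes the p-th roots of unity. -/
theorem c3_mu {Ω : Type} [Field Ω] [Algebra F Ω] (N' : IntermediateField F Ω) [NumberField N']
    {V : ValuationSubring Ω} {w : HeightOneSpectrum (𝓞 N')} (hV : Abv N' V w) (hp : p.Prime) (hpw : (p : 𝓞 N') ∉ w.asIdeal)
    (hn : p ∣ Ideal.absNorm w.asIdeal - 1) {s : Ω ≃ₐ[F] Ω} (hs : DecN N' V s) {ζ : Ω} (hζ : ζ ^ p = 1) : s ζ = ζ := by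
  classical
  have hp0 : p ≠ 0 := hp.ne_zero
  have := Fact.mk hp
  have : NeZero p := ⟨hp0⟩
  have hVp : ¬ V.valuation (p : Ω) < 1 := by
    intro h
    have h1 := (H13S.Abv.lt hV ((p : 𝓞 N') : N')).1 (by
      have e1 : ((p : 𝓞 N') : N') = p := map_natCast (algebraMap (𝓞 N') N') p
      rw [e1]
      push_cast
      exact h)
    exact hpw ((w.valuation_lt_one_iff_mem _).1 h1)
  -- a root of unity in the residue field
  have hmax : w.asIdeal.IsMaximal := w.isMaximal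
  let _ : Field (𝓞 N' ⧸ w.asIdeal) := Ideal.Quotient.field w.asIdeal
  have hfin : Finite (𝓞 N' ⧸ w.asIdeal) := Ideal.finiteQuotientOfFreeOfNeBot w.asIdeal w.ne_bot
  have hcard : Nat.card (𝓞 N' ⧸ w.asIdeal)ˣ = Ideal.absNorm w.asIdeal - 1 := by
    rw [Nat.card_units, Ideal.absNorm_apply, Submodule.cardQuot_apply]
  obtain ⟨u, hu⟩ := exists_prime_orderOf_dvd_card' (G := (𝓞 N' ⧸ w.asIdeal)ˣ) p (by rw [hcard]; exact hn)
  obtain ⟨a, ha⟩ := Ideal.Quotient.mk_surjective (I := w.asIdeal) (u : 𝓞 N' ⧸ w.asIdeal)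
  have hap : a ^ p - 1 ∈ w.asIdeal := by
    rw [← Ideal.Quotient.eq_zero_iff_mem, map_sub, map_pow, map_one, ha, ← Units.val_pow_eq_pow_val, ← hu, pow_orderOf_eq_one, Units.val_one, sub_self]
  have ha1 : a - 1 ∉ w.asIdeal := by
    intro h
    rw [← Ideal.Quotient.eq_zero_iff_mem, map_sub, map_one, ha, sub_eq_zero] at h
    have h2 : u = 1 := Units.ext h
    rw [h2, orderOf_one] at hu
    exact hp.one_lt.ne hu
  set α : Ω := ((a : N') : Ω) with hα
  have hαV : V.valuation α ≤ 1 := (V.valuation_le_one_iff _).2 ((hV (a : N')).2 (w.valuation_le_one a))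
  have hαp : V.valuation (α ^ p - 1) < 1 := by
    have h1 := (H13S.Abv.lt hV ((a ^ p - 1 : 𝓞 N') : N')).2 ((w.valuation_lt_one_iff_mem _).2 hap)
    have e1 : (((a ^ p - 1 : 𝓞 N') : N') : Ω) = α ^ p - 1 := by
      rw [hα]
      push_cast
      rfl
    rwa [e1] at h1
  have hα1 : ¬ V.valuation (α - 1) < 1 := by
    intro h
    have e1 : (((a - 1 : 𝓞 N') : N') : Ω) = α - 1 := by
      rw [hα]
      push_cast
      rfl
    rw [← e1] at h
    exact ha1 ((w.valuation_lt_one_iff_mem _).1 ((H13S.Abv.lt hV _).1 h))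
  by_cases hζ1 : ζ = 1
  · rw [hζ1, map_one]
  have hprim : IsPrimitiveRoot ζ p := by
    have h1 := orderOf_eq_prime hζ hζ1
    rw [← h1]
    exact IsPrimitiveRoot.orderOf ζ
  have hval1 : ∀ μ : Ω, μ ^ p = 1 → V.valuation μ = 1 := by
    intro μ hμ
    have h1 : V.valuation μ ^ p = 1 := by rw [← map_pow, hμ, map_one]
    exact (pow_eq_one_iff_of_nonneg zero_le hp0).1 h1
  obtain ⟨μ, hμ, hμv⟩ : ∃ μ : Ω, μ ^ p = 1 ∧ V.valuation (α - μ) < 1 := by
    by_contra hcon
    push Not at hcon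
    have h1 := congrArg (Polynomial.eval α) (Polynomial.X_pow_sub_one_eq_prod hp.pos hprim)
    rw [Polynomial.eval_prod] at h1
    simp only [Polynomial.eval_sub, Polynomial.eval_pow, Polynomial.eval_X, Polynomial.eval_one, Polynomial.eval_C] at h1
    rw [h1, map_prod] at hαp
    refine absurd hαp (not_lt.2 ?_)
    refine Finset.one_le_prod' fun μ hμ => hcon μ ?_
    exact (Polynomial.mem_nthRootsFinset hp.pos 1).1 hμ
  have hμ1 : μ ≠ 1 := by
    rintro rfl
    exact hα1 hμv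
  have hprim' : IsPrimitiveRoot μ p := by
    have h1 := orderOf_eq_prime hμ hμ1
    rw [← h1]
    exact IsPrimitiveRoot.orderOf μ
  have hsμ : s μ = μ := by
    have hμ0 : μ ≠ 0 := hprim'.ne_zero hp0
    have hsα : s α = α := (IntermediateField.mem_fixingSubgroup_iff N' s).1 hs.1 α (a : N').2
    have h1 : V.valuation (s μ - α) < 1 := by
      have h2 : s μ - α = s (μ - α) := by rw [map_sub, hsα]
      rw [h2]
      refine (H13X.Dec.lt_one hs.2 _).2 ?_
      rw [← Valuation.map_neg, neg_sub]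
      exact hμv
    have h3 : V.valuation (s μ - μ) < 1 := by
      have h4 : s μ - μ = (s μ - α) + (α - μ) := by ring
      rw [h4]
      exact Valuation.map_add_lt _ h1 hμv
    have h5 : s μ / μ = 1 := by
      refine c3_one V hVp ?_ ?_
      · rw [_root_.div_pow, ← map_pow, hμ, map_one, div_one]
      · have h6 : s μ / μ - 1 = (s μ - μ) / μ := by
          rw [sub_div, div_self hμ0]
        rw [h6, map_div₀, hval1 μ hμ, div_one]
        exact h3
    exact (div_eq_one_iff_eq hμ0).1 h5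
  obtain ⟨i, _, rfl⟩ := hprim'.eq_pow_of_pow_eq_one hζ
  rw [map_pow, hsμ]

theorem c3_fix (dta : Dta A B Om j act mo ψ p) (hF : ∀ v : HeightOneSpectrum (𝓞 F), (p : 𝓞 F) ∉ v.asIdeal ^ 2)
    (N' : IntermediateField F (AlgebraicClosure F)) [NumberField N']
    {V : ValuationSubring (AlgebraicClosure F)} {w : HeightOneSpectrum (𝓞 N')} (hV : Abv N' V w) (hpw : (p : 𝓞 N') ∉ w.asIdeal)
    (hn : p ∣ Ideal.absNorm w.asIdeal - 1) {T : Pt (WAB A B) (AlgebraicClosure F)} (hT0 : T ≠ 0) (hT : p • T = 0)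
    (hf : ∀ s, DecN N' V s → ac (WAB A B) s T = T) (s : AlgebraicClosure F ≃ₐ[F] AlgebraicClosure F) (hs : DecN N' V s)
    (S : Pt (WAB A B) (AlgebraicClosure F)) (hS : p • S = 0) : ac (WAB A B) s S = S := by
  have hA := dta.cma
  have hp := dta.prime
  obtain ⟨π, hπ, hd, hfix⟩ := H13R.lk_piR hA hp hF N' hT0 hT hf
  have hSl : act (p : 𝓞 F) S = 0 := by
    rw [act_nat (act := act)]
    exact hS
  rcases dichotomy hp hF hπ hd with ⟨-, -, h3⟩ | ⟨h1, -, -, hll⟩
  · refine hfix s hs S ?_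
    rw [← tor_assoc h3]
    exact hSl
  · obtain ⟨e, he⟩ := exists_pairing π p dta hπ hd
    have hfix' : ∀ R ∈ Tor act (cj π), ac (WAB A B) s R = R := by
      intro R hR
      have hsR := ac_mem hA s hR
      rw [← sub_eq_zero]
      refine he.nondeg _ ((Tor act (cj π)).sub_mem hsR hR) fun T' hT' => ?_
      have h4 : s (e R T') = e R T' := c3_mu N' hV hp hpw hn hs (he.root R hR T' hT')
      have h5 := he.gal s R hR T' hT'
      rw [h4, hfix s hs T' hT'] at h5
      have h6 := he.add_left _ ((Tor act (cj π)).sub_mem hsR hR) _ hR T' hT'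
      rw [sub_add_cancel, ← h5] at h6
      have h7 : e R T' ≠ 0 := by
        intro h
        have h8 := he.root R hR T' hT'
        rw [h, zero_pow hp.ne_zero] at h8
        exact zero_ne_one h8
      exact mul_right_cancel₀ h7 (by rw [one_mul]; exact h6.symm)
    have hmax : (Ideal.span {π}).IsMaximal :=
      ((Ideal.span_singleton_prime hπ.ne_zero).2 hπ).isMaximal (by rw [Ne, Ideal.span_singleton_eq_bot]; exact hπ.ne_zero)
    have hcj : cj π ∉ Ideal.span {π} := fun h => h1 (Ideal.mem_span_singleton.1 h)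
    obtain ⟨y, z, hz, hyz⟩ := hmax.exists_inv hcj
    obtain ⟨z', rfl⟩ := Ideal.mem_span_singleton'.1 hz
    have h8 : act (cj π) (ac (WAB A B) s S) = act (cj π) S := by
      rw [← ac_act hA]
      refine hfix s hs _ ?_
      rw [mem_Tor, ← act_mul, hll]
      exact hSl
    have h9 : act π (ac (WAB A B) s S) = act π S := by
      rw [← ac_act hA]
      refine hfix' _ ?_
      rw [mem_Tor, ← act_mul, mul_comm, hll]
      exact hSl
    have h10 : act (y * cj π + z' * π) (ac (WAB A B) s S) = act (y * cj π + z' * π) S := by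
      rw [act_add, act_add, act_mul, act_mul, act_mul, act_mul, h8, h9]
    rwa [hyz, act_one, act_one] at h10

end H13T
end

-- from Lib.H13T.C4
section

/-! Chunk C4 (M). Short curve. An automorphism s over F with s^(p^n) trivial on the points killed by p is trivial on them.
PROOF. T₀ a generator of the points killed by p (CMA.gen for b = p): act a T₀ = 0 iff p divides a, every point killed by p is act b T₀.
s T₀ = act a T₀ (ac_tor), s^k T₀ = act (a^k) T₀ (ac commutes with act), hence act (a^(p^n) - 1) T₀ = 0, that is p | a^(p^n) - 1, and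
(a - 1)^(p^n) = a^(p^n) - 1 modulo p (exists_add_pow_prime_pow_eq, p odd). p is squarefree in 𝓞 F (hF), so p | a - 1 and s T₀ = T₀. -/

open NumberField IsDedekindDomain WeierstrassCurve

namespace H13T

open H55P H55K H55K.S
open H35P (WAB)

open scoped Classical

variable {F : Type} [Field F] [NumberField F] [IQ F] {A B : F} {Om : ℂ}
  {j : AlgebraicClosure F →+* ℂ} {act : 𝓞 F →+* AddMonoid.End (Pt (WAB A B) (AlgebraicClosure F))} {mo : Ideal (𝓞 F)}
  {ψ : Ideal (𝓞 F) →*₀ 𝓞 F} {p : ℕ}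

private theorem c4_sqf (hp : p.Prime) (hF : ∀ v : HeightOneSpectrum (𝓞 F), (p : 𝓞 F) ∉ v.asIdeal ^ 2) :
    Squarefree (p : 𝓞 F) := by
  intro x hx
  by_contra hu
  have h0 : (p : 𝓞 F) ≠ 0 := by exact_mod_cast hp.ne_zero
  have hx0 : x ≠ 0 := by
    rintro rfl
    rw [zero_mul, zero_dvd_iff] at hx
    exact h0 hx
  obtain ⟨q, hq, hqx⟩ := WfDvdMonoid.exists_irreducible_factor hu hx0
  have hq' : Prime q := hq.prime
  let v : HeightOneSpectrum (𝓞 F) :=
    ⟨Ideal.span {q}, (Ideal.span_singleton_prime hq'.ne_zero).2 hq', by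
      rw [Ne, Ideal.span_singleton_eq_bot]; exact hq'.ne_zero⟩
  refine hF v ?_
  change (p : 𝓞 F) ∈ (Ideal.span {q}) ^ 2
  rw [Ideal.span_singleton_pow, Ideal.mem_span_singleton, pow_two]
  exact (mul_dvd_mul hqx hqx).trans hx

theorem c4_pow (dta : Dta A B Om j act mo ψ p) (hF : ∀ v : HeightOneSpectrum (𝓞 F), (p : 𝓞 F) ∉ v.asIdeal ^ 2)
    (s : AlgebraicClosure F ≃ₐ[F] AlgebraicClosure F) (n : ℕ)
    (hs : ∀ T : Pt (WAB A B) (AlgebraicClosure F), p • T = 0 → ac (WAB A B) (s ^ p ^ n) T = T)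
    (T : Pt (WAB A B) (AlgebraicClosure F)) (hT : p • T = 0) : ac (WAB A B) s T = T := by
  have hA := dta.cma
  have hp := dta.prime
  have h0 : (p : 𝓞 F) ≠ 0 := by exact_mod_cast hp.ne_zero
  have hact : ∀ P : Pt (WAB A B) (AlgebraicClosure F), act (p : 𝓞 F) P = p • P := by
    intro P
    rw [map_natCast]
    exact AddMonoid.End.natCast_apply p P
  obtain ⟨T₀, hT₀, hgen, hker, -⟩ := hA.gen (p : 𝓞 F) h0
  have hT₀' : p • T₀ = 0 := by rw [← hact]; exact mem_Tor.1 hT₀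
  obtain ⟨a, ha⟩ := hgen _ (ac_mem hA s hT₀)
  have hpow : ∀ k : ℕ, ac (WAB A B) (s ^ k) T₀ = act (a ^ k) T₀ := by
    intro k
    induction k with
    | zero => rw [pow_zero, pow_zero, H55K.S.ac_one, map_one]; rfl
    | succ k ih => rw [pow_succ, H55K.S.ac_mul, ha, H55K.S.ac_act hA, ih, ← H55K.S.act_mul, pow_succ, mul_comm]
  have h1 : act (a ^ p ^ n) T₀ = T₀ := by rw [← hpow, hs T₀ hT₀']
  have h2 : act (a ^ p ^ n - 1) T₀ = 0 := by
    rw [map_sub, map_one]
    change act (a ^ p ^ n) T₀ - T₀ = 0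
    rw [h1, sub_self]
  have h3 : (p : 𝓞 F) ∣ a ^ p ^ n - 1 := (hker _).1 h2
  have h4 : (p : 𝓞 F) ∣ (a - 1) ^ p ^ n := by
    obtain ⟨r, hr⟩ := exists_add_pow_prime_pow_eq hp a (-1) n
    have hodd : Odd (p ^ n) := (hp.odd_of_ne_two (by have := dta.five; omega)).pow
    rw [hodd.neg_one_pow] at hr
    rw [sub_eq_add_neg, hr]
    have h5 : a ^ p ^ n + -1 = a ^ p ^ n - 1 := by ring
    rw [h5]
    refine dvd_add h3 ?_
    exact Dvd.dvd.mul_right (Dvd.dvd.mul_right (dvd_mul_right _ _) _) _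
  have h5 : (p : 𝓞 F) ∣ a - 1 := (c4_sqf hp hF).isRadical _ _ h4
  have h6 : act (a - 1) T₀ = 0 := (hker _).2 h5
  have h7 : ac (WAB A B) s T₀ = T₀ := by
    rw [ha]
    rw [map_sub, map_one] at h6
    change act a T₀ - T₀ = 0 at h6
    exact sub_eq_zero.1 h6
  obtain ⟨b, hb⟩ := hgen T (by rw [mem_Tor, hact]; exact hT)
  rw [hb, H55K.S.ac_act hA, h7]

end H13T
end
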