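import Mathlib
import Pool.Agent.Lib.H1M.PP2.D_H13R_K0
import Pool.Agent.Lib.H1M.PP2.D_H13T_Stm
import Pool.Agent.Lib.H1M.PP2.D_H19A_Stm
import Pool.Agent.Lib.H1M.PP2.M031
import Pool.Agent.Lib.H1M.PP2.M051
import Pool.Agent.Lib.H1M.PP2.M074
import Pool.Agent.Lib.H1M.PP2.M106
import Pool.Agent.Lib.H1M.PP2.M142
import Pool.Agent.Lib.H1M.PP2.M143
import Pool.Agent.Lib.H1M.PP2.M155
import Pool.Agent.Lib.H1M.PP2.M167

/-! Merged copies (to shorten the build) of Lib.H13T.Stm_T, Lib.H13T.Q3, Lib.H13T.Q4, Lib.H13T.Q5, Lib.H13T.Q6. -/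

-- from Lib.H13T.Stm_T
section

/-! # H13T: statement of the theorem on nontrivial Tate-Shafarevich groups in cyclic extensions (MP_f50388_nt, theorem (S)) -/

open NumberField IsDedekindDomain WeierstrassCurve

namespace H13T

open H55P (IQ)
open H55K.TQ
open H19A (ShaP)




/-- The hypotheses of the theorem: n ≥ 1; p is unramified in K; W has bad reduction at all primes of FM which divide the discriminant of W; over K'
the p-part of the conjecture is trivial (BSDPG: the p-Selmer group and the p-torsion of the Tate-Shafarevich group are zero, the group of points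
is finite of order prime to p, L(W/K', 1) is not zero and its algebraic part is a p-adic unit); the number r of the primes in AnR is less
than p^n/2. -/
structure HypS (F : Type) [Field F] [NumberField F] [IQ F] (p n : ℕ) (W : WeierstrassCurve ℤ) (M K' K : Type) [Field M] [NumberField M]
    [Field K'] [NumberField K'] [Field K] [NumberField K] [Algebra M K'] [Algebra K' K] [Algebra M K] (ιK : K →ₐ[ℚ] AlgebraicClosure F) :
    Prop where
  pos : 1 ≤ n
  cyc : CycT p n M K' K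
  unr : H55P.UnrP p K
  bad : H13R.BadM (W⁄(𝓞 F)) (KG F M (emb ιK : M →ₐ[ℚ] AlgebraicClosure F))
  unit : BSDPG p W K'
  few : 2 * (AnR p W K' K).ncard < p ^ n



/-- For every finite p-group H and every bound R₀ the theorem applies to a Galois extension K/F of p-power degree with H contained in Gal(K/F)
and with at least R₀ primes in AnR. -/
def ExistS (F : Type) [Field F] [NumberField F] [IQ F] (p : ℕ) (W : WeierstrassCurve ℤ) : Prop :=
  ∀ (H : Type) [Group H] [Finite H] (k : ℕ), Nat.card H = p ^ k → ∀ R₀ : ℕ,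
    ∃ (M K' K : Type) (_ : Field M) (_ : NumberField M) (_ : Field K') (_ : NumberField K') (_ : Field K) (_ : NumberField K)
      (_ : Algebra M K') (_ : Algebra K' K) (_ : Algebra M K) (_ : Algebra F K) (n : ℕ),
      IsGalois F K ∧ (∃ r : ℕ, Module.finrank F K = p ^ r) ∧ (∃ φ : H →* (K ≃ₐ[F] K), Function.Injective φ) ∧
      (∀ ιK : K →ₐ[ℚ] AlgebraicClosure F, HypS F p n W M K' K ιK) ∧ R₀ ≤ (AnR p W K' K).ncard

end H13T
end

-- from Lib.H13T.Q3
section

/-! Chunk Q3 (M/L). The cyclic tower over F: from the abstract fields M ⊆ K' ⊆ K (CycT) and an embedding ιK : K → Ω to the intermediate fields KG F M (emb ιK) ≤ KG F K' (emb ιK) ≤ KG F K ιK (the fields generated by F).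
q_le: adjoin_mono: range of emb ιK on K' is contained in the range of ιK (emb ιK x = ιK (algebraMap K' K x)); for M: CycT.tow: algebraMap M K = algebraMap K' K ∘ algebraMap M K'.
q_deg: d = finrank ℚ (KG F K ιK) / finrank ℚ K is 1 (F ⊆ ιK K) or 2 (kg_index in Lib/SSG/Z/L6.lean gives finrank ℚ (KG F K ι) = finrank ℚ K or 2 finrank ℚ K), and it is the same for K and K': [K:K'] = p is odd. If F ⊆ ι K' then F ⊆ ι K. If F ⊆ ι K but not in ι K': [KG F K' : K'] = 2 and KG F K' ⊆ KG F K = ι K, so 2 divides [K:K'] = p.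
So: Module.finrank ℚ (KG F K' ..) = d * Module.finrank ℚ K' with the same d ∈ {1, 2}; the same for M ([K:M] = p^(n+1) odd).
q_gal: elements s of Gal(Ω/F) fixing ι M (equivalently KG F M) map ι K to itself (K/M normal: ιK and s ∘ ιK are two embeddings of K over M; IsGalois: AlgHom.restrictNormal or Normal) and so KG F K to itself.
q_gam: a generator σ of Gal(K/M) extends to an element γ of Gal(Ω/F) fixing KG F M with γ (ιK x) = ιK (σ x): the extension KG F K / KG F M is Galois of degree p^(n+1) (q_deg) and the restriction Gal(KG F K/KG F M) → Gal(K/M) is injective (KG F K is generated by F and ι K), both have p^(n+1) elements, so it is surjective; lift to Ω (H55P.s3_lift in Lib/H55P/S3.lean). -/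

open NumberField IsDedekindDomain WeierstrassCurve

namespace H13T

open H55P (IQ)
open H55K H55K.TQ

variable {F : Type} [Field F] [NumberField F] [IQ F] {p n : ℕ} {M K' K : Type} [Field M] [NumberField M]
    [Field K'] [NumberField K'] [Field K] [NumberField K] [Algebra M K'] [Algebra K' K] [Algebra M K]

theorem emb_apply (ιK : K →ₐ[ℚ] AlgebraicClosure F) (x : K') :
    (emb ιK : K' →ₐ[ℚ] AlgebraicClosure F) x = ιK (algebraMap K' K x) := rfl

theorem q_le (h : CycT p n M K' K) (ιK : K →ₐ[ℚ] AlgebraicClosure F) :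
    KG F M (emb ιK : M →ₐ[ℚ] AlgebraicClosure F) ≤ KG F K' (emb ιK : K' →ₐ[ℚ] AlgebraicClosure F) ∧
      KG F K' (emb ιK : K' →ₐ[ℚ] AlgebraicClosure F) ≤ KG F K ιK := by
  have ht := h.tow
  constructor
  · apply IntermediateField.adjoin.mono
    rintro _ ⟨x, rfl⟩
    refine ⟨algebraMap M K' x, ?_⟩
    show ιK (algebraMap K' K (algebraMap M K' x)) = ιK (algebraMap M K x)
    rw [← IsScalarTower.algebraMap_apply M K' K]
  · apply IntermediateField.adjoin.mono
    rintro _ ⟨x, rfl⟩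
    exact ⟨algebraMap K' K x, rfl⟩

/-- F is contained in the image of K: the degrees agree. -/
theorem q3_one {K : Type} [Field K] [NumberField K] (ι : K →ₐ[ℚ] AlgebraicClosure F) (f : F →+* K)
    (hf : ∀ y : F, ι (f y) = algebraMap F (AlgebraicClosure F) y) : Module.finrank ℚ (KG F K ι) = Module.finrank ℚ K := by
  letI : Algebra F K := f.toAlgebra
  obtain ⟨e⟩ := kg_iso F K ι f hf
  let e' : K →+* KG F K ι := (e : K ≃+* KG F K ι)
  let g : K →ₗ[ℚ] KG F K ι :=
    { toFun := e'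
      map_add' := map_add e'
      map_smul' := fun q x => by
        rw [RingHom.id_apply, Rat.smul_def, map_mul, map_ratCast, Rat.smul_def] }
  exact (LinearEquiv.finrank_eq (LinearEquiv.ofBijective g ⟨e.injective, e.surjective⟩)).symm

/-- The two cases. -/
theorem q3_dich {K : Type} [Field K] [NumberField K] (ι : K →ₐ[ℚ] AlgebraicClosure F) :
    (∃ f : F →+* K, ∀ y : F, ι (f y) = algebraMap F (AlgebraicClosure F) y) ∨
      Module.finrank ℚ (KG F K ι) = 2 * Module.finrank ℚ K := by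
  have hn : NumberField (KG F K ι) := H13R.kg_nf F K ι
  rcases kg_dich F K ι with h | hQ
  · exact Or.inl h
  · right
    letI : Algebra K (KG F K ι) := (KGmap F K ι).toAlgebra
    have h1 := Module.finrank_mul_finrank ℚ K (KG F K ι)
    rw [hQ.rank] at h1
    rw [← h1, mul_comm]

omit [IQ F] in
theorem q3_dvd {A B : IntermediateField F (AlgebraicClosure F)} (hAB : A ≤ B) : Module.finrank ℚ A ∣ Module.finrank ℚ B := by
  rw [← Module.finrank_mul_finrank ℚ F A, ← Module.finrank_mul_finrank ℚ F B]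
  exact Nat.mul_dvd_mul_left _ (IntermediateField.finrank_dvd_of_le_right hAB)

theorem q3_two {K : Type} [Field K] [NumberField K] (ι : K →ₐ[ℚ] AlgebraicClosure F) {A : IntermediateField F (AlgebraicClosure F)}
    (hA : A ≤ KG F K ι) {a b : ℕ} (ha : 0 < a) (h1 : Module.finrank ℚ A = 2 * a) (h2 : Module.finrank ℚ K = a * b) (hb : Odd b) :
    Module.finrank ℚ (KG F K ι) = 2 * Module.finrank ℚ K := by
  rcases q3_dich ι with ⟨f, hf⟩ | h
  · exfalso
    have h3 := q3_dvd hA
    rw [h1, q3_one ι f hf, h2, mul_comm 2 a] at h3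
    have h4 := Nat.dvd_of_mul_dvd_mul_left ha h3
    obtain ⟨k, hk⟩ := hb
    omega
  · exact h

theorem q_deg (hp : p.Prime) (hp2 : p ≠ 2) (h : CycT p n M K' K) (ιK : K →ₐ[ℚ] AlgebraicClosure F) :
    ∃ d : ℕ, (d = 1 ∨ d = 2) ∧ Module.finrank ℚ (KG F K ιK) = d * Module.finrank ℚ K ∧
      Module.finrank ℚ (KG F K' (emb ιK : K' →ₐ[ℚ] AlgebraicClosure F)) = d * Module.finrank ℚ K' ∧
      Module.finrank ℚ (KG F M (emb ιK : M →ₐ[ℚ] AlgebraicClosure F)) = d * Module.finrank ℚ M := by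
  have ht := h.tow
  have hodd := hp.odd_of_ne_two hp2
  obtain ⟨hle1, hle2⟩ := q_le h ιK
  rcases q3_dich (emb ιK : M →ₐ[ℚ] AlgebraicClosure F) with ⟨f, hf⟩ | h2
  · have hf' : ∀ y : F, (emb ιK : K' →ₐ[ℚ] AlgebraicClosure F) (((algebraMap M K').comp f) y) = algebraMap F (AlgebraicClosure F) y := by
      intro y
      rw [← hf y]
      show ιK (algebraMap K' K (algebraMap M K' (f y))) = ιK (algebraMap M K (f y))
      rw [← IsScalarTower.algebraMap_apply M K' K]
    have hf'' : ∀ y : F, ιK (((algebraMap M K).comp f) y) = algebraMap F (AlgebraicClosure F) y := hf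
    refine ⟨1, Or.inl rfl, ?_, ?_, ?_⟩
    · rw [one_mul]
      exact q3_one ιK _ hf''
    · rw [one_mul]
      exact q3_one _ _ hf'
    · rw [one_mul]
      exact q3_one _ f hf
  · have hpos : 0 < Module.finrank ℚ M := Module.finrank_pos
    have hK' : Module.finrank ℚ K' = Module.finrank ℚ M * p ^ n := by
      rw [← Module.finrank_mul_finrank ℚ M K', h.sub]
    have hK : Module.finrank ℚ K = Module.finrank ℚ M * p ^ (n + 1) := by
      rw [← Module.finrank_mul_finrank ℚ M K, h.deg]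
    exact ⟨2, Or.inr rfl, q3_two ιK (hle1.trans hle2) hpos h2 hK hodd.pow, q3_two _ hle1 hpos h2 hK' hodd.pow, h2⟩

omit [IQ F] in
theorem q_fix (ιK : K →ₐ[ℚ] AlgebraicClosure F) (s : AlgebraicClosure F ≃ₐ[F] AlgebraicClosure F) :
    s ∈ (KG F K ιK).fixingSubgroup ↔ ∀ x : K, s (ιK x) = ιK x := by
  rw [IntermediateField.mem_fixingSubgroup_iff]
  constructor
  · intro h x
    exact h _ (IntermediateField.subset_adjoin F _ ⟨x, rfl⟩)
  · intro h x hx
    refine IntermediateField.adjoin_induction F (p := fun x _ => s x = x) ?_ ?_ ?_ ?_ ?_ hx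
    · rintro _ ⟨y, rfl⟩
      exact h y
    · exact fun x => s.commutes x
    · intro x y _ _ h1 h2
      rw [map_add, h1, h2]
    · intro x _ h1
      rw [map_inv₀, h1]
    · intro x y _ _ h1 h2
      rw [map_mul, h1, h2]

theorem q_gal (h : CycT p n M K' K) (ιK : K →ₐ[ℚ] AlgebraicClosure F) (s : AlgebraicClosure F ≃ₐ[F] AlgebraicClosure F)
    (hs : s ∈ (KG F M (emb ιK : M →ₐ[ℚ] AlgebraicClosure F)).fixingSubgroup) :
    ∃ σ : K ≃ₐ[M] K, ∀ x : K, s (ιK x) = ιK (σ x) := by
  have hg := h.gal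
  rw [q_fix] at hs
  letI : Algebra M (AlgebraicClosure F) := (emb ιK : M →ₐ[ℚ] AlgebraicClosure F).toRingHom.toAlgebra
  letI : Algebra K (AlgebraicClosure F) := ιK.toRingHom.toAlgebra
  have t : IsScalarTower M K (AlgebraicClosure F) := IsScalarTower.of_algebraMap_eq fun x => rfl
  let χ : AlgebraicClosure F ≃ₐ[M] AlgebraicClosure F := AlgEquiv.ofRingEquiv (f := (s : AlgebraicClosure F ≃+* AlgebraicClosure F)) hs
  refine ⟨χ.restrictNormal K, fun x => ?_⟩
  exact (AlgEquiv.restrictNormal_commutes χ K x).symm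

/-- The field FK is stable. -/
theorem q_nrm (h : CycT p n M K' K) (ιK : K →ₐ[ℚ] AlgebraicClosure F) (s : AlgebraicClosure F ≃ₐ[F] AlgebraicClosure F)
    (hs : s ∈ (KG F M (emb ιK : M →ₐ[ℚ] AlgebraicClosure F)).fixingSubgroup) (x : AlgebraicClosure F) (hx : x ∈ KG F K ιK) :
    s x ∈ KG F K ιK := by
  obtain ⟨σ, hσ⟩ := q_gal h ιK s hs
  refine IntermediateField.adjoin_induction F (p := fun x _ => s x ∈ KG F K ιK) ?_ ?_ ?_ ?_ ?_ hx
  · rintro _ ⟨y, rfl⟩
    rw [hσ]
    exact IntermediateField.subset_adjoin F _ ⟨σ y, rfl⟩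
  · intro y
    rw [s.commutes]
    exact (KG F K ιK).algebraMap_mem y
  · intro x y _ _ h1 h2
    rw [map_add]
    exact add_mem h1 h2
  · intro x _ h1
    rw [map_inv₀]
    exact inv_mem h1
  · intro x y _ _ h1 h2
    rw [map_mul]
    exact mul_mem h1 h2

/-- The degrees over F. -/
theorem q_degF (hp : p.Prime) (hp2 : p ≠ 2) (h : CycT p n M K' K) (ιK : K →ₐ[ℚ] AlgebraicClosure F) :
    Module.finrank F (KG F K ιK) = Module.finrank F (KG F M (emb ιK : M →ₐ[ℚ] AlgebraicClosure F)) * p ^ (n + 1) ∧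
      Module.finrank F (KG F K ιK) = Module.finrank F (KG F K' (emb ιK : K' →ₐ[ℚ] AlgebraicClosure F)) * p := by
  have ht := h.tow
  obtain ⟨d, hd, h1, h2, h3⟩ := q_deg hp hp2 h ιK
  have hK' : Module.finrank ℚ K' = Module.finrank ℚ M * p ^ n := by
    rw [← Module.finrank_mul_finrank ℚ M K', h.sub]
  have hK : Module.finrank ℚ K = Module.finrank ℚ M * p ^ (n + 1) := by
    rw [← Module.finrank_mul_finrank ℚ M K, h.deg]
  rw [← Module.finrank_mul_finrank ℚ F] at h1 h2 h3
  have hF : 0 < Module.finrank ℚ F := Module.finrank_pos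
  constructor
  · apply Nat.eq_of_mul_eq_mul_left hF
    rw [h1, ← mul_assoc, h3, hK, mul_assoc]
  · apply Nat.eq_of_mul_eq_mul_left hF
    rw [h1, ← mul_assoc, h2, hK, hK', pow_succ, mul_assoc, mul_assoc]

theorem q_gam (hp : p.Prime) (hp2 : p ≠ 2) (h : CycT p n M K' K) (ιK : K →ₐ[ℚ] AlgebraicClosure F) (σ : K ≃ₐ[M] K) :
    ∃ γ ∈ (KG F M (emb ιK : M →ₐ[ℚ] AlgebraicClosure F)).fixingSubgroup, ∀ x : K, γ (ιK x) = ιK (σ x) := by
  have hg := h.gal
  obtain ⟨hle1, hle2⟩ := q_le h ιK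
  have hfin : FiniteDimensional F (KG F K ιK) := H13R.kg_fin F K ιK
  obtain ⟨hd, -⟩ := q_degF hp hp2 h ιK
  have hnrm := q_nrm h ιK
  have hgal := q_gal h ιK
  obtain ⟨M₀, hM₀⟩ : ∃ M₀ : IntermediateField F (AlgebraicClosure F), M₀ = KG F M (emb ιK : M →ₐ[ℚ] AlgebraicClosure F) := ⟨_, rfl⟩
  have hMN := hle1.trans hle2
  rw [← hM₀] at hd hnrm hgal hMN ⊢
  let _ : Algebra M₀ (KG F K ιK) := H55P.s13_alg hMN
  have hG : IsGalois M₀ (KG F K ιK) := H55P.s13_galois M₀ (KG F K ιK) hMN hnrm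
  have hfM : FiniteDimensional F M₀ := H55P.s13_fin hMN
  have t1 : IsScalarTower F M₀ (KG F K ιK) := IsScalarTower.of_algebraMap_eq fun x => rfl
  have t2 : IsScalarTower M₀ (KG F K ιK) (AlgebraicClosure F) := IsScalarTower.of_algebraMap_eq fun x => rfl
  have hfN : FiniteDimensional M₀ (KG F K ιK) := Module.Finite.of_restrictScalars_finite F M₀ (KG F K ιK)
  have hcard : Module.finrank M₀ (KG F K ιK) = p ^ (n + 1) := by
    have h1 := Module.finrank_mul_finrank F M₀ (KG F K ιK)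
    rw [hd] at h1
    exact Nat.eq_of_mul_eq_mul_left Module.finrank_pos h1
  have hal : Algebra.IsAlgebraic M₀ (AlgebraicClosure F) := Algebra.IsAlgebraic.tower_top (K := F) M₀
  have hcl : IsAlgClosure M₀ (AlgebraicClosure F) := ⟨inferInstance, hal⟩
  have hno : Normal M₀ (AlgebraicClosure F) := IsAlgClosure.normal M₀ (AlgebraicClosure F)
  have key : ∀ t : (KG F K ιK) ≃ₐ[M₀] (KG F K ιK), ∃ s : AlgebraicClosure F ≃ₐ[F] AlgebraicClosure F,
      (∀ x : KG F K ιK, s (x : AlgebraicClosure F) = ((t x : KG F K ιK) : AlgebraicClosure F)) ∧ s ∈ M₀.fixingSubgroup := by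
    intro t
    refine ⟨(t.liftNormal (AlgebraicClosure F)).restrictScalars F, fun x => ?_, ?_⟩
    · exact t.liftNormal_commutes (AlgebraicClosure F) x
    · rw [IntermediateField.mem_fixingSubgroup_iff]
      intro x hx
      exact (t.liftNormal (AlgebraicClosure F)).commutes ⟨x, hx⟩
  choose lft hl1 hl2 using key
  choose Φ hΦ using fun t => hgal (lft t) (hl2 t)
  have hinj : Function.Injective Φ := by
    intro t t' htt
    have h1 : (lft t')⁻¹ * lft t ∈ (KG F K ιK).fixingSubgroup := by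
      rw [q_fix]
      intro x
      have h2 : lft t (ιK x) = lft t' (ιK x) := by rw [hΦ, hΦ, htt]
      rw [AlgEquiv.mul_apply, h2]
      exact (lft t').symm_apply_apply _
    rw [IntermediateField.mem_fixingSubgroup_iff] at h1
    apply AlgEquiv.ext
    intro x
    apply Subtype.ext
    rw [← hl1, ← hl1]
    have h2 := congrArg (lft t') (h1 _ x.2)
    rw [AlgEquiv.mul_apply] at h2
    have h3 : lft t' ((lft t')⁻¹ (lft t (x : AlgebraicClosure F))) = lft t (x : AlgebraicClosure F) := (lft t').apply_symm_apply _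
    rwa [h3] at h2
  have hfMK : FiniteDimensional M K := Module.Finite.of_restrictScalars_finite ℚ M K
  have hsurj := (hinj.bijective_of_nat_card_le (by
    rw [IsGalois.card_aut_eq_finrank, IsGalois.card_aut_eq_finrank, h.deg, hcard])).2
  obtain ⟨t, ht⟩ := hsurj σ
  exact ⟨lft t, hl2 t, fun x => by rw [hΦ, ht]⟩

end H13T
end

-- from Lib.H13T.Q4
section

/-! Chunk Q4 (M). CycI from CycT. γ from q_gam for a generator σ of Gal(K/M) (IsCyclic; orderOf σ = card = p^(n+1): IsGalois.card_aut_eq_finrank, h.deg).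
pos, fin (H13R.kg_fin in Lib/H13R/K0.lean), le, le' (q_le), gam; nrm: q_gal: s maps ι K and F into KG F K (IntermediateField.adjoin induction, compare kg_stable in Lib/H55K/RP1.lean). gen: s ↦ σ_s = σ^k (q_gal; IsCyclic; a power with natural exponent: finite group), u = γ^(-k) s fixes ι K, so is in N.fixingSubgroup (q_fix).
ord: γ^k fixes ι K iff σ^k = 1 (ιK injective) iff p^(n+1) | k. mid: γ^k is in (KG F K').fixingSubgroup iff it fixes ι K' (q_fix for emb ιK, emb_apply) iff σ^k fixes the image of K' in K, iff σ^k is in Gal(K/K') (the subgroup of order p = [K:K'], of index p^n, of the cyclic group: generated by σ^(p^n)) iff p^n | k: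
Gal(K/K') as the subgroup S of Gal(K/M) of the elements fixing the image of K' has p elements (IsGalois, IntermediateField.fixingSubgroup of (the image of K' in K as an intermediate field of K/M, degree p^n over M), card = p); in a cyclic group of order p^(n+1) the elements σ^k of the subgroup with p elements are those with p^n | k
(the order of σ^k divides p iff p^(n+1) | k p iff p^n | k; and a subgroup with p elements is the set of the elements of order dividing p: IsCyclic.card_pow_eq_one_le or Subgroup of a cyclic group determined by its cardinality).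
deg, deg': q_deg and the tower formulas: finrank ℚ = finrank ℚ F * finrank F; finrank ℚ K = finrank ℚ M * p^(n+1) = finrank ℚ K' * p (Module.finrank_mul_finrank). -/

open NumberField IsDedekindDomain WeierstrassCurve

namespace H13T

open H55P (IQ)
open H55K H55K.TQ

variable {F : Type} [Field F] [NumberField F] [IQ F] {p n : ℕ} {M K' K : Type} [Field M] [NumberField M]
    [Field K'] [NumberField K'] [Field K] [NumberField K] [Algebra M K'] [Algebra K' K] [Algebra M K]

/-- K/K' is Galois of degree p. -/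
theorem q_step (hp : 0 < p) (h : CycT p n M K' K) : IsGalois K' K ∧ Module.finrank K' K = p := by
  have ht := h.tow
  have hg := h.gal
  refine ⟨IsGalois.tower_top_of_isGalois M K' K, ?_⟩
  have h1 := Module.finrank_mul_finrank M K' K
  rw [h.deg, h.sub, pow_succ] at h1
  exact Nat.eq_of_mul_eq_mul_left (pow_pos hp n) h1

/-- The powers of a generator which fix K'. -/
theorem q4_mid (hp : 0 < p) (h : CycT p n M K' K) (σ : K ≃ₐ[M] K) (hσ : orderOf σ = p ^ (n + 1)) (k : ℕ) :
    (∀ y : K', (σ ^ k) (algebraMap K' K y) = algebraMap K' K y) ↔ p ^ n ∣ k := by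
  classical
  have ht := h.tow
  have hg := h.gal
  have hcyc := h.cyc
  obtain ⟨-, hdeg⟩ := q_step hp h
  have hfMK : FiniteDimensional M K := Module.Finite.of_restrictScalars_finite ℚ M K
  obtain ⟨E, hE⟩ : ∃ E : IntermediateField M K, E = (IsScalarTower.toAlgHom M K' K).fieldRange := ⟨_, rfl⟩
  have hfr : Module.finrank M E = p ^ n := by
    rw [← h.sub, hE]
    exact (LinearEquiv.finrank_eq (AlgEquiv.ofInjectiveField (IsScalarTower.toAlgHom M K' K)).toLinearEquiv).symm
  have hfr' : Module.finrank E K = p := by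
    have h1 := Module.finrank_mul_finrank M E K
    rw [h.deg, hfr, pow_succ] at h1
    exact Nat.eq_of_mul_eq_mul_left (pow_pos hp n) h1
  have hcard : Nat.card E.fixingSubgroup = p := by
    rw [IsGalois.card_fixingSubgroup_eq_finrank, hfr']
  have hmem : ∀ τ : K ≃ₐ[M] K, τ ∈ E.fixingSubgroup ↔ ∀ y : K', τ (algebraMap K' K y) = algebraMap K' K y := by
    intro τ
    rw [IntermediateField.mem_fixingSubgroup_iff, hE]
    constructor
    · intro h1 y
      exact h1 _ ⟨y, rfl⟩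
    · rintro h1 _ ⟨y, rfl⟩
      exact h1 y
  rw [← hmem]
  have hpow : ∀ τ ∈ E.fixingSubgroup, τ ^ p = 1 := by
    intro τ hτ
    have h1 : (⟨τ, hτ⟩ : E.fixingSubgroup) ^ Nat.card E.fixingSubgroup = 1 := pow_card_eq_one'
    rw [hcard] at h1
    exact congrArg Subtype.val h1
  have hset : (E.fixingSubgroup : Set (K ≃ₐ[M] K)) = {τ | τ ^ p = 1} := by
    apply Set.eq_of_subset_of_ncard_le
    · exact fun τ hτ => hpow τ hτ
    · have h1 : (E.fixingSubgroup : Set (K ≃ₐ[M] K)).ncard = p := hcard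
      rw [h1]
      have h2 := IsCyclic.card_pow_eq_one_le (α := K ≃ₐ[M] K) hp
      have h3 : ({τ : K ≃ₐ[M] K | τ ^ p = 1} : Set (K ≃ₐ[M] K)).ncard =
          (Finset.univ.filter fun a : K ≃ₐ[M] K => a ^ p = 1).card := by
        rw [← Set.ncard_coe_finset]
        congr 1
        ext τ
        simp
      rw [h3]
      exact h2
    · exact Set.toFinite _
  have h4 : σ ^ k ∈ E.fixingSubgroup ↔ (σ ^ k) ^ p = 1 := by
    have h5 : σ ^ k ∈ (E.fixingSubgroup : Set (K ≃ₐ[M] K)) ↔ σ ^ k ∈ {τ : K ≃ₐ[M] K | τ ^ p = 1} := by rw [hset]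
    exact h5
  rw [h4, ← pow_mul, ← orderOf_dvd_iff_pow_eq_one, hσ, pow_succ]
  exact Nat.mul_dvd_mul_iff_right hp

theorem q_cyc (hp : p.Prime) (hp2 : p ≠ 2) (hn : 1 ≤ n) (h : CycT p n M K' K) (ιK : K →ₐ[ℚ] AlgebraicClosure F) :
    ∃ γ : AlgebraicClosure F ≃ₐ[F] AlgebraicClosure F, CycI p n (KG F M (emb ιK : M →ₐ[ℚ] AlgebraicClosure F))
      (KG F K' (emb ιK : K' →ₐ[ℚ] AlgebraicClosure F)) (KG F K ιK) γ := by
  have ht := h.tow
  have hg := h.gal
  have hcyc := h.cyc
  have hfMK : FiniteDimensional M K := Module.Finite.of_restrictScalars_finite ℚ M K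
  obtain ⟨σ, hσ⟩ := IsCyclic.exists_generator (α := K ≃ₐ[M] K)
  have hord : orderOf σ = p ^ (n + 1) := by
    rw [orderOf_eq_card_of_forall_mem_zpowers hσ, IsGalois.card_aut_eq_finrank, h.deg]
  obtain ⟨γ, hγ, hγσ⟩ := q_gam hp hp2 h ιK σ
  obtain ⟨hle1, hle2⟩ := q_le h ιK
  obtain ⟨hd1, hd2⟩ := q_degF hp hp2 h ιK
  have hpw : ∀ (k : ℕ) (x : K), (γ ^ k) (ιK x) = ιK ((σ ^ k) x) := by
    intro k
    induction k with
    | zero => exact fun x => rfl
    | succ k ih =>
      intro x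
      rw [pow_succ', pow_succ', AlgEquiv.mul_apply, AlgEquiv.mul_apply, ih, hγσ]
  refine ⟨γ, hn, H13R.kg_fin F K ιK, hle1, hle2, hγ, fun s hs x hx => q_nrm h ιK s hs x hx, fun s hs => ?_, fun k => ?_, fun k => ?_,
    hd1, hd2⟩
  · obtain ⟨τ, hτ⟩ := q_gal h ιK s hs
    obtain ⟨k, hk⟩ := mem_powers_iff_mem_zpowers.2 (hσ τ)
    refine ⟨k, (γ ^ k)⁻¹ * s, ?_, by rw [mul_inv_cancel_left]⟩
    rw [q_fix]
    intro x
    have hk' : σ ^ k = τ := hk
    rw [AlgEquiv.mul_apply, hτ, ← hk', ← hpw]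
    exact (γ ^ k).symm_apply_apply _
  · rw [q_fix, ← hord, orderOf_dvd_iff_pow_eq_one]
    constructor
    · intro h1
      apply AlgEquiv.ext
      intro x
      apply ιK.injective
      show ιK ((σ ^ k) x) = ιK x
      rw [← hpw, h1]
    · intro h1 x
      rw [hpw, h1]
      rfl
  · rw [q_fix, ← q4_mid hp.pos h σ hord k]
    constructor
    · intro h1 y
      apply ιK.injective
      show ιK ((σ ^ k) (algebraMap K' K y)) = ιK (algebraMap K' K y)
      rw [← hpw]
      exact h1 y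
    · intro h1 y
      rw [emb_apply, hpw, h1]

end H13T
end

-- from Lib.H13T.Q5
section

/-! Chunk Q5 (M/L). The number of the primes in AnW.
q_fib: Finset.card_eq_sum_card_fiberwise (Set.ncard_eq_toFinset_card).
q_abs is the abstract form: K' ⊆ K, K' ⊆ L' ⊆ L, K ⊆ L, F ⊆ L'; TRI says that the primes of K' are as in q_tri (QuadG) or q_bij (K' = L'). A := {w' of L' | Δ ∉ w', es L' L w' ≠ 1, p | #W(k_w')}, d = [L':K'].
PROOF. f w' = the prime of K' below w'. (a) w' in A: w = f w', Δ not in w (integer). SPLIT or BIJ: w' has the norm of w, ramification index 1 (q_un, q_bij): p | #W(k_w) (q_pts), es K' K w ≠ 1 (q_square), q_es_iff: w in AnR. INERT: ramification index 1 (q_un2), es K' K w ≠ 1 (q_square), p not in w (q_p), p | N w - 1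
(H55P.tame_dvd, Lib/H55P/T11.lean); p | (N w + 1)^2, so p | N w + 1 and p | 2: contradiction. (b) w in AnR: es K' K w ≠ 1 (q_es_iff), p | N w - 1; INERT: p | N w + 1, contradiction; SPLIT: the fiber is {w₁, w₂}, both in A; BIJ: the fiber is {w₁}. Finiteness: H55R.ram_fin (Lib/H55R/X12.lean) for K/K' and L/L'. -/

open NumberField IsDedekindDomain WeierstrassCurve

namespace H13T

open H55P (IQ UnrP)
open H55K H55K.TQ
open H55R (Pl es fs)

theorem q_fib {α β : Type} {S : Set α} {T : Set β} {f : α → β} {d : ℕ} (hS : S.Finite) (hT : T.Finite) (h1 : ∀ a ∈ S, f a ∈ T)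
    (h2 : ∀ b ∈ T, {a ∈ S | f a = b}.ncard = d) : S.ncard = d * T.ncard := by
  classical
  rw [Set.ncard_eq_toFinset_card S hS, Set.ncard_eq_toFinset_card T hT]
  rw [Finset.card_eq_sum_card_fiberwise (f := f) (s := hS.toFinset) (t := hT.toFinset) (fun a ha => by
    rw [Finset.mem_coe, Set.Finite.mem_toFinset] at ha ⊢
    exact h1 a ha)]
  rw [Finset.sum_congr rfl (g := fun _ => d), Finset.sum_const, smul_eq_mul, mul_comm]
  intro b hb
  rw [Set.Finite.mem_toFinset] at hb
  rw [← h2 b hb, ← Set.ncard_coe_finset]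
  congr 1
  ext a
  simp

/-- the disjunction of the primes of K' -/
theorem q_cases {F K' L' : Type} [Field F] [NumberField F] [IQ F] [Field K'] [NumberField K'] [Field L'] [NumberField L']
    [Algebra F L'] [Algebra K' L'] (hQ : Function.Bijective (algebraMap K' L') ∨ QuadG F K' L')
    {W : WeierstrassCurve ℤ} {Om : ℂ} {m : Ideal (𝓞 F)} {ψ : Ideal (𝓞 F) →*₀ 𝓞 F} (hH : BaseH F (W⁄(𝓞 F)) Om m ψ)
    (w : Pl K') (hΔ : ((W.Δ : ℤ) : 𝓞 K') ∉ w.asIdeal) :
    ({w' : Pl L' | w.asIdeal = w'.asIdeal.under (𝓞 K')}.ncard = Module.finrank K' L' ∧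
      ∀ w' : Pl L', w.asIdeal = w'.asIdeal.under (𝓞 K') → Ideal.absNorm w'.asIdeal = Ideal.absNorm w.asIdeal ∧
        w'.asIdeal.ramificationIdx (𝓞 K') = 1) ∨
    (Nat.card (W⁄(𝓞 K' ⧸ w.asIdeal)).toAffine.Point = Ideal.absNorm w.asIdeal + 1 ∧
      ∀ w' : Pl L', w.asIdeal = w'.asIdeal.under (𝓞 K') → w'.asIdeal.ramificationIdx (𝓞 K') = 1 ∧
        Nat.card ((W⁄(𝓞 F))⁄(𝓞 L' ⧸ w'.asIdeal)).toAffine.Point = (Ideal.absNorm w.asIdeal + 1) ^ 2) := by
  rcases hQ with hb | hQ
  · left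
    have h1 : Module.finrank K' L' = 1 := by
      let e : K' ≃ₗ[K'] L' := LinearEquiv.ofBijective (Algebra.linearMap K' L') hb
      rw [← e.finrank_eq, Module.finrank_self]
    obtain ⟨w₁, hN, hr, hw⟩ := q_bij hb w
    have hset : {w' : Pl L' | w.asIdeal = w'.asIdeal.under (𝓞 K')} = {w₁} := by
      ext w'
      exact hw w'
    refine ⟨by rw [hset, Set.ncard_singleton, h1], fun w' hw' => ?_⟩
    rw [(hw w').1 hw']
    exact ⟨hN, hr⟩
  · have h2 : Module.finrank K' L' = 2 := hQ.rank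
    rcases q_tri hQ hH w hΔ with ⟨w₁, w₂, hne, hN1, hN2, hw⟩ | ⟨w₁, hN1, hw, hc1, hc2⟩
    · left
      have hset : {w' : Pl L' | w.asIdeal = w'.asIdeal.under (𝓞 K')} = {w₁, w₂} := by
        ext w'
        exact hw w'
      obtain ⟨r1, r2⟩ := q_un h2 w w₁ w₂ hne ((hw w₁).2 (Or.inl rfl)) ((hw w₂).2 (Or.inr rfl))
      refine ⟨by rw [hset, Set.ncard_pair hne, h2], fun w' hw' => ?_⟩
      rcases (hw w').1 hw' with rfl | rfl
      · exact ⟨hN1, r1⟩
      · exact ⟨hN2, r2⟩
    · right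
      refine ⟨hc1, fun w' hw' => ?_⟩
      rw [(hw w').1 hw']
      exact ⟨q_un2 h2 w w₁ ((hw w₁).2 rfl) hN1, hc2⟩

theorem q_abs {F K' K L' L : Type} [Field F] [NumberField F] [IQ F] [Field K'] [NumberField K'] [Field K] [NumberField K] [Field L'] [NumberField L'] [Field L]
    [NumberField L] [Algebra F L'] [Algebra K' K] [Algebra K' L'] [Algebra K L] [Algebra L' L] [Algebra K' L] [IsScalarTower K' K L]
    [IsScalarTower K' L' L] [IsGalois K' K] [IsGalois L' L] {p : ℕ} (hp : p.Prime) (hp2 : p ≠ 2) (h1 : Module.finrank K' K = p)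
    (h2 : Module.finrank L' L = p) (h3 : Module.finrank K L ≤ 2) (hU : UnrP p K)
    {W : WeierstrassCurve ℤ} {Om : ℂ} {m : Ideal (𝓞 F)} {ψ : Ideal (𝓞 F) →*₀ 𝓞 F} (hH : BaseH F (W⁄(𝓞 F)) Om m ψ)
    (hQ : Function.Bijective (algebraMap K' L') ∨ QuadG F K' L') :
    (AnR p W K' K).Finite ∧ {w' : Pl L' | algebraMap (𝓞 F) (𝓞 L') (W⁄(𝓞 F)).Δ ∉ w'.asIdeal ∧ es L' L w' ≠ 1 ∧
      p ∣ Nat.card ((W⁄(𝓞 F))⁄(𝓞 L' ⧸ w'.asIdeal)).toAffine.Point}.ncard = Module.finrank K' L' * (AnR p W K' K).ncard := by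
  classical
  have hfinR : (AnR p W K' K).Finite := by
    refine (H55R.ram_fin K' K).subset fun w hw => ?_
    exact (q_es_iff w).2 hw.2.2
  have hfinA : {w' : Pl L' | algebraMap (𝓞 F) (𝓞 L') (W⁄(𝓞 F)).Δ ∉ w'.asIdeal ∧ es L' L w' ≠ 1 ∧
      p ∣ Nat.card ((W⁄(𝓞 F))⁄(𝓞 L' ⧸ w'.asIdeal)).toAffine.Point}.Finite := by
    refine (H55R.ram_fin L' L).subset fun w hw => hw.2.1
  -- p divides N w - 1 and N w + 1: contradiction
  have hcon : ∀ w : Pl K', es K' K w ≠ 1 → ¬ p ∣ Ideal.absNorm w.asIdeal + 1 := by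
    intro w hw hd
    have h4 := H55P.tame_dvd K' K p hp h1 w (q_p hp hU w hw) hw
    have h5 : Ideal.absNorm w.asIdeal ≠ 0 := fun h => w.ne_bot (Ideal.absNorm_eq_zero_iff.1 h)
    have h6 : p ∣ 2 := by
      have h7 := (Nat.dvd_sub hd h4)
      have h8 : Ideal.absNorm w.asIdeal + 1 - (Ideal.absNorm w.asIdeal - 1) = 2 := by omega
      rwa [h8] at h7
    exact hp2 ((Nat.prime_dvd_prime_iff_eq hp Nat.prime_two).1 h6)
  -- the discriminant
  have hD : ∀ (w : Pl K') (w' : Pl L'), w.asIdeal = w'.asIdeal.under (𝓞 K') →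
      (algebraMap (𝓞 F) (𝓞 L') (W⁄(𝓞 F)).Δ ∉ w'.asIdeal ↔ ((W.Δ : ℤ) : 𝓞 K') ∉ w.asIdeal) := by
    intro w w' hw
    rw [hw, not_iff_not, Ideal.mem_comap, map_intCast]
    have e1 : (W⁄(𝓞 F)).Δ = ((W.Δ : ℤ) : 𝓞 F) := by
      show (W.map (algebraMap ℤ (𝓞 F))).Δ = _
      rw [WeierstrassCurve.map_Δ]
      exact eq_intCast (algebraMap ℤ (𝓞 F)) W.Δ
    rw [e1, map_intCast]
  refine ⟨hfinR, ?_⟩
  refine q_fib (f := fun w' : Pl L' => HeightOneSpectrum.under (𝓞 K') w') hfinA hfinR ?_ ?_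
  · rintro w' ⟨hΔ, he, hpt⟩
    obtain ⟨w, hw0⟩ : ∃ w, w = HeightOneSpectrum.under (𝓞 K') w' := ⟨_, rfl⟩
    have hw : w.asIdeal = w'.asIdeal.under (𝓞 K') := by rw [hw0]; rfl
    show HeightOneSpectrum.under (𝓞 K') w' ∈ _
    rw [← hw0]
    have hΔ' := (hD w w' hw).1 hΔ
    rcases q_cases hQ hH w hΔ' with ⟨-, h4⟩ | ⟨h4, h5⟩
    · obtain ⟨hN, hr⟩ := h4 w' hw
      rw [q_pts W w w' hw hN] at hpt
      exact ⟨hΔ', hpt, (q_es_iff w).1 ((q_square hp hp2 h1 h2 h3 w w' hw hr).1 he)⟩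
    · obtain ⟨hr, hc⟩ := h5 w' hw
      rw [hc] at hpt
      exact absurd (hp.dvd_of_dvd_pow hpt) (hcon w ((q_square hp hp2 h1 h2 h3 w w' hw hr).1 he))
  · rintro w ⟨hΔ, hpt, hr⟩
    have he := (q_es_iff w).2 hr
    rcases q_cases hQ hH w hΔ with ⟨h4, h5⟩ | ⟨h4, h5⟩
    · rw [← h4]
      congr 1
      ext w'
      have hiff : HeightOneSpectrum.under (𝓞 K') w' = w ↔ w.asIdeal = w'.asIdeal.under (𝓞 K') :=
        ⟨fun h => by rw [← h]; rfl, fun h => HeightOneSpectrum.ext h.symm⟩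
      constructor
      · rintro ⟨-, h6⟩
        exact hiff.1 h6
      · intro h6
        obtain ⟨hN, hr'⟩ := h5 w' h6
        refine ⟨⟨(hD w w' h6).2 hΔ, (q_square hp hp2 h1 h2 h3 w w' h6 hr').2 he, ?_⟩, hiff.2 h6⟩
        rw [q_pts W w w' h6 hN]
        exact hpt
    · rw [h4] at hpt
      exact absurd hpt (hcon w he)

end H13T
end

-- from Lib.H13T.Q6
section

/-! Chunk Q6 (M). The number of the primes in AnW for the fields generated by F. PROOF. q_abs with L' = KG F K' (emb ιK), L = KG F K ιK, the algebra structures KGmap (K' → L', K → L), inclusion (L' → L, q_le) and their composite (K' → L): scalar towers by emb_apply. kg_dich (Lib/H55K/RP2.lean) for K' and emb ιK: first alternative: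
KGmap F K' is bijective (F is contained in the range of emb ιK, so the adjoin is the range); second: QuadG. IsGalois K' K, degree p: q_step. L/L': CycI (q_cyc) gives PExt p L' L (c2_pext) and degree p; IsGalois L' L: H55P.s13_galois. [L:K] ≤ 2 and [L':K'] = d: q_deg with the tower formula. Ram and es: H41S.ram_es (algebra H55P.s13_alg). -/

open NumberField IsDedekindDomain WeierstrassCurve

namespace H13T

open H55P (IQ UnrP)
open H55K H55K.TQ
open H55R (Pl es fs)

variable {F : Type} [Field F] [NumberField F] [IQ F] {p n : ℕ} {M K' K : Type} [Field M] [NumberField M]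
    [Field K'] [NumberField K'] [Field K] [NumberField K] [Algebra M K'] [Algebra K' K] [Algebra M K]

/-- if F is contained in the range of ι, the field generated by F is the range -/
theorem q_bijK (K' : Type) [Field K'] [NumberField K'] (ι : K' →ₐ[ℚ] AlgebraicClosure F)
    (f : F →+* K') (hf : ∀ y : F, ι (f y) = algebraMap F (AlgebraicClosure F) y) :
    Function.Bijective (KGmap F K' ι) := by
  refine ⟨(KGmap F K' ι).injective, fun x => ?_⟩
  let R : IntermediateField F (AlgebraicClosure F) :=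
    { carrier := Set.range ι
      mul_mem' := by
        rintro _ _ ⟨a, rfl⟩ ⟨b, rfl⟩
        exact ⟨a * b, map_mul ι a b⟩
      add_mem' := by
        rintro _ _ ⟨a, rfl⟩ ⟨b, rfl⟩
        exact ⟨a + b, map_add ι a b⟩
      algebraMap_mem' := fun y => ⟨f y, hf y⟩
      inv_mem' := by
        rintro _ ⟨a, rfl⟩
        exact ⟨a⁻¹, map_inv₀ ι a⟩ }
  have h1 : KG F K' ι ≤ R := IntermediateField.adjoin_le_iff.2 fun y hy => hy
  obtain ⟨a, ha⟩ := h1 x.2
  exact ⟨a, Subtype.ext ha⟩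

theorem q_card (hp : p.Prime) (hp2 : p ≠ 2) (hn : 1 ≤ n) (h : CycT p n M K' K) (hU : UnrP p K)
    {W : WeierstrassCurve ℤ} {Om : ℂ} {m : Ideal (𝓞 F)} {ψ : Ideal (𝓞 F) →*₀ 𝓞 F} (hH : BaseH F (W⁄(𝓞 F)) Om m ψ)
    (ιK : K →ₐ[ℚ] AlgebraicClosure F) :
    ∃ d : ℕ, (d = 1 ∨ d = 2) ∧ Module.finrank ℚ (KG F K ιK) = d * Module.finrank ℚ K ∧ (AnR p W K' K).Finite ∧
      (AnW p (W⁄(𝓞 F)) (KG F K' (emb ιK : K' →ₐ[ℚ] AlgebraicClosure F)) (KG F K ιK)).ncard = d * (AnR p W K' K).ncard := by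
  obtain ⟨d, hd, hdK, hdK', -⟩ := q_deg hp hp2 h ιK
  obtain ⟨γ, c⟩ := q_cyc hp hp2 hn h ιK
  obtain ⟨hG, hdeg⟩ := q_step hp.pos h
  have hle := (q_le h ιK).2
  letI aK' : Algebra K' (KG F K' (emb ιK : K' →ₐ[ℚ] AlgebraicClosure F)) := (KGmap F K' (emb ιK)).toAlgebra
  letI aK : Algebra K (KG F K ιK) := (KGmap F K ιK).toAlgebra
  letI aL : Algebra (KG F K' (emb ιK : K' →ₐ[ℚ] AlgebraicClosure F)) (KG F K ιK) := H55P.s13_alg hle
  letI aKL : Algebra K' (KG F K ιK) := ((algebraMap K (KG F K ιK)).comp (algebraMap K' K)).toAlgebra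
  have t1 : IsScalarTower K' K (KG F K ιK) := IsScalarTower.of_algebraMap_eq fun x => rfl
  have t2 : IsScalarTower K' (KG F K' (emb ιK : K' →ₐ[ℚ] AlgebraicClosure F)) (KG F K ιK) :=
    IsScalarTower.of_algebraMap_eq fun x => Subtype.ext (by
      show ιK (algebraMap K' K x) = (emb ιK : K' →ₐ[ℚ] AlgebraicClosure F) x
      exact (emb_apply ιK x).symm)
  have hLf : FiniteDimensional F (KG F K ιK) := c.fin
  have hpos : 0 < Module.finrank F (KG F K' (emb ιK : K' →ₐ[ℚ] AlgebraicClosure F)) := by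
    have : FiniteDimensional F (KG F K' (emb ιK : K' →ₐ[ℚ] AlgebraicClosure F)) := H13R.kg_fin F K' _
    exact Module.finrank_pos
  have t3 : IsScalarTower F (KG F K' (emb ιK : K' →ₐ[ℚ] AlgebraicClosure F)) (KG F K ιK) :=
    IsScalarTower.of_algebraMap_eq fun x => rfl
  have hdL : Module.finrank (KG F K' (emb ιK : K' →ₐ[ℚ] AlgebraicClosure F)) (KG F K ιK) = p := by
    have h1 := Module.finrank_mul_finrank F (KG F K' (emb ιK : K' →ₐ[ℚ] AlgebraicClosure F)) (KG F K ιK)
    rw [c.deg'] at h1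
    exact Nat.eq_of_mul_eq_mul_left hpos h1
  have hGL : IsGalois (KG F K' (emb ιK : K' →ₐ[ℚ] AlgebraicClosure F)) (KG F K ιK) :=
    H55P.s13_galois _ _ hle (c2_pext hp.pos c).2.2.norm
  have hK'pos : 0 < Module.finrank ℚ K' := Module.finrank_pos
  have hKpos : 0 < Module.finrank ℚ K := Module.finrank_pos
  have hd1 : Module.finrank K' (KG F K' (emb ιK : K' →ₐ[ℚ] AlgebraicClosure F)) = d := by
    have h1 := Module.finrank_mul_finrank ℚ K' (KG F K' (emb ιK : K' →ₐ[ℚ] AlgebraicClosure F))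
    rw [hdK', mul_comm d] at h1
    exact Nat.eq_of_mul_eq_mul_left hK'pos h1
  have hd2 : Module.finrank K (KG F K ιK) = d := by
    have h1 := Module.finrank_mul_finrank ℚ K (KG F K ιK)
    rw [hdK, mul_comm d] at h1
    exact Nat.eq_of_mul_eq_mul_left hKpos h1
  have hQ : Function.Bijective (algebraMap K' (KG F K' (emb ιK : K' →ₐ[ℚ] AlgebraicClosure F))) ∨
      QuadG F K' (KG F K' (emb ιK : K' →ₐ[ℚ] AlgebraicClosure F)) := by
    rcases kg_dich F K' (emb ιK : K' →ₐ[ℚ] AlgebraicClosure F) with ⟨f, hf⟩ | hq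
    · exact Or.inl (q_bijK K' _ f hf)
    · exact Or.inr hq
  obtain ⟨hfin, hcard⟩ := q_abs hp hp2 hdeg hdL (by omega) hU hH hQ
  refine ⟨d, hd, hdK, hfin, ?_⟩
  rw [← hd1, ← hcard]
  congr 1
  ext w
  have hr := H41S.ram_es (KG F K' (emb ιK : K' →ₐ[ℚ] AlgebraicClosure F)) (KG F K ιK) hle w hGL
  show (_ ∧ _ ∧ _) ↔ (_ ∧ _ ∧ _)
  constructor
  · rintro ⟨h1, h2, h3⟩
    exact ⟨h1, hr.1 h2, h3⟩
  · rintro ⟨h1, h2, h3⟩
    exact ⟨h1, hr.2 h2, h3⟩

end H13T
end
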