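import Mathlib
import Pool.Agent.Lib.H1M.PP2.D_H13T_Stm
import Pool.Agent.Lib.H1M.PP2.D_H55G_D0
import Pool.Agent.Lib.H1M.PP2.M101
import Pool.Agent.Lib.H1M.PP2.M174

/-! # H41G: the theorem on nontrivial Tate-Shafarevich groups in cyclic extensions, with OkM in place of BadM -/

open NumberField IsDedekindDomain WeierstrassCurve

namespace H41G

open H55P (IQ)
open H55K.TQ
open H13T (CycT AnR emb AtKS)
open H55G (OkM)

/-- The hypotheses of the theorem: n ≥ 1; p is unramified in K; p does not divide the numbers of points of the reductions of W (NW: of the minimal model) at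
the primes of FM which divide the discriminant of W and at which W has good reduction over FM; over K' the p-part of the conjecture is trivial (BSDPG: the
p-Selmer group and the p-torsion of the Tate-Shafarevich group are zero, the group of points is finite of order prime to p, L(W/K', 1) is not zero and its
algebraic part is a p-adic unit); the number r of the primes in AnR is less than p^n/2. -/
structure HypSO (F : Type) [Field F] [NumberField F] [IQ F] (p n : ℕ) (W : WeierstrassCurve ℤ) (M K' K : Type) [Field M] [NumberField M]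
    [Field K'] [NumberField K'] [Field K] [NumberField K] [Algebra M K'] [Algebra K' K] [Algebra M K] (ιK : K →ₐ[ℚ] AlgebraicClosure F) :
    Prop where
  pos : 1 ≤ n
  cyc : CycT p n M K' K
  unr : H55P.UnrP p K
  ok : OkM p (W⁄(𝓞 F)) (KG F M (emb ιK : M →ₐ[ℚ] AlgebraicClosure F))
  unit : BSDPG p W K'
  few : 2 * (AnR p W K' K).ncard < p ^ n

/-- The theorem. -/
def ShaThmO (F : Type) [Field F] [NumberField F] [IQ F] (p : ℕ) (W : WeierstrassCurve ℤ) : Prop :=
  ∀ (M K' K : Type) [Field M] [NumberField M] [Field K'] [NumberField K'] [Field K] [NumberField K] [Algebra M K'] [Algebra K' K]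
    [Algebra M K] (ιK : K →ₐ[ℚ] AlgebraicClosure F) (n : ℕ), HypSO F p n W M K' K ιK → AtKS p (AnR p W K' K).ncard W K

/-- For every finite p-group H and every bound R₀ the theorem applies to a Galois extension K/F of p-power degree with H contained in Gal(K/F)
and with at least R₀ primes in AnR. -/
def ExistSO (F : Type) [Field F] [NumberField F] [IQ F] (p : ℕ) (W : WeierstrassCurve ℤ) : Prop :=
  ∀ (H : Type) [Group H] [Finite H] (k : ℕ), Nat.card H = p ^ k → ∀ R₀ : ℕ,
    ∃ (M K' K : Type) (_ : Field M) (_ : NumberField M) (_ : Field K') (_ : NumberField K') (_ : Field K) (_ : NumberField K)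
      (_ : Algebra M K') (_ : Algebra K' K) (_ : Algebra M K) (_ : Algebra F K) (n : ℕ),
      IsGalois F K ∧ (∃ r : ℕ, Module.finrank F K = p ^ r) ∧ (∃ φ : H →* (K ≃ₐ[F] K), Function.Injective φ) ∧
      (∀ ιK : K →ₐ[ℚ] AlgebraicClosure F, HypSO F p n W M K' K ιK) ∧ R₀ ≤ (AnR p W K' K).ncard

end H41G
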