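import Mathlib
import Pool.Agent.Lib.H1M.PP2.D_H19A_Stm
import Pool.Agent.Lib.H1M.PP2.D_H55G_D0
import Pool.Agent.Lib.H1M.PP2.M101
import Pool.Agent.Lib.H1M.PP2.M167

/-! # H55G, part S: statement of the theorem on supersingular cyclotomic towers, under OkM -/

open NumberField IsDedekindDomain WeierstrassCurve

namespace H55G

open H55P (IQ)
open H55K (GoodAt)
open H55K.TQ
open H19A (SplitM Layer AtLayer)

/-- The base field M: p unramified with residue fields of order p or p^2; p does not divide the numbers of points of the reductions of W (NW: of the minimal model) at the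
primes of FM which divide the discriminant of W and at which W has good reduction over FM; and (unit case) the rank part and the p-part of the conjecture over M with trivial
p-Selmer group. -/
structure BaseO (F : Type) [Field F] [NumberField F] [IQ F] (p : ℕ) (W : WeierstrassCurve ℤ) (M : Type) [Field M] [NumberField M]
    (ιM : M →ₐ[ℚ] AlgebraicClosure F) : Prop where
  split : SplitM p M
  ok : OkM p (W⁄(𝓞 F)) (KG F M ιM)
  unit : BSDPG p W M

/-- The theorem over the base field M. -/
def TowerThmO (F : Type) [Field F] [NumberField F] [IQ F] (p : ℕ) (W : WeierstrassCurve ℤ) : Prop :=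
  ∀ (M : Type) [Field M] [NumberField M] (ιM : M →ₐ[ℚ] AlgebraicClosure F), BaseO F p W M ιM →
    ∀ (n : ℕ) (K : Type) [Field K] [NumberField K] [Algebra M K], Layer p n M K → AtLayer p n W M K

/-- Every finite p-group is a subgroup of the Galois group of a Galois extension M/F of degree a power of p to which the theorem
applies. -/
def ExistO (F : Type) [Field F] [NumberField F] [IQ F] (p : ℕ) (W : WeierstrassCurve ℤ) : Prop :=
  ∀ (H : Type) [Group H] [Finite H] (k : ℕ), Nat.card H = p ^ k →
    ∃ (M : Type) (_ : Field M) (_ : NumberField M) (_ : Algebra F M), IsGalois F M ∧ (∃ r : ℕ, Module.finrank F M = p ^ r) ∧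
      (∃ φ : H →* (M ≃ₐ[F] M), Function.Injective φ) ∧ ∀ ιM : M →ₐ[ℚ] AlgebraicClosure F, BaseO F p W M ιM

/-- Every finite p-group is a subquotient of the Galois group over F of the field generated by F and a field M with a real place to which
the theorem applies. -/
def ExistRealO (F : Type) [Field F] [NumberField F] [IQ F] (p : ℕ) (W : WeierstrassCurve ℤ) : Prop :=
  ∀ (H : Type) [Group H] [Finite H] (k : ℕ), Nat.card H = p ^ k →
    ∃ (M : Type) (_ : Field M) (_ : NumberField M), 0 < InfinitePlace.nrRealPlaces M ∧ (∀ ιM : M →ₐ[ℚ] AlgebraicClosure F, BaseO F p W M ιM) ∧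
      ∃ (N : Type) (_ : Field N) (_ : NumberField N) (_ : Algebra F N) (_ : Algebra M N),
        Module.finrank M N = 2 ∧ IsGalois ℚ N ∧ (∃ r : ℕ, Module.finrank F N = p ^ r) ∧ H28R.SubQ (N ≃ₐ[F] N) H

end H55G
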