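import Mathlib

/-! Merged copies (to shorten the build) of Lib.H35L.FL, Lib.H35L.FL2, Lib.H35L.U0, Lib.H35L.U1A, Lib.H35L.U2, Lib.H35L.U1, Lib.H35L.U3, Lib.H35L.U4. -/

-- from Lib.H35L.FL
section

/-! # H35L, chunk FL (M): free modules over p-groups -/

namespace H35L

theorem fla_inj {k : Type} [Field k] {V : Type} [AddCommGroup V] [Module k V] [Module.Finite k V] (g : ℕ) (h : Module.finrank k V ≤ g) :
    ∃ f : V →ₗ[k] (Fin g → k), Function.Injective f := by
  let e : V ≃ₗ[k] (Fin (Module.finrank k V) → k) := LinearEquiv.ofFinrankEq _ _ (by rw [Module.finrank_fin_fun])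
  let c : (Fin (Module.finrank k V) → k) →ₗ[k] (Fin g → k) :=
    { toFun := fun v i => if hi : (i : ℕ) < Module.finrank k V then v ⟨i, hi⟩ else 0
      map_add' := by
        intro x y
        funext i
        by_cases hi : (i : ℕ) < Module.finrank k V
        · simp only [dif_pos hi, Pi.add_apply]
        · simp only [dif_neg hi, Pi.add_apply, add_zero]
      map_smul' := by
        intro r x
        funext i
        by_cases hi : (i : ℕ) < Module.finrank k V
        · simp only [dif_pos hi, Pi.smul_apply, RingHom.id_apply]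
        · simp only [dif_neg hi, Pi.smul_apply, smul_zero, RingHom.id_apply] }
  refine ⟨c.comp e.toLinearMap, ?_⟩
  have hc : Function.Injective c := by
    intro x y hxy
    funext i
    have h1 := congrFun hxy ⟨i, i.2.trans_le h⟩
    have h2 : ∀ v : Fin (Module.finrank k V) → k, c v ⟨i, i.2.trans_le h⟩ = v i := by
      intro v
      exact dif_pos i.2
    rw [h2, h2] at h1
    exact h1
  exact hc.comp e.injective

/-- Chunk FLa (M). P a finite p-group acting on the finite vector space X over the field k with card k = q elements of characteristic p, at most q^g invariants, X has at least q^(g |P|) elements: X is isomorphic to the functions P -> k^g with the right translation: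
there is a linear bijection Phi with Phi(rho(s) x)(h) = Phi(x)(h s). PROOF. The invariants have dimension <= g: a linear map l : X -> k^g injective on the invariants (exists: extend a linear injection from a subspace). Phi(x)(h) = l(rho(h) x).
The kernel of Phi is a stable subspace whose invariants are killed by l (h = 1), so it has no nonzero invariant; a p-group acting on a nonzero finite vector space of characteristic p has a nonzero invariant (IsPGroup.card_modEq_card_fixedPoints). So
Phi is injective, and bijective by the cardinalities. -/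
theorem fl_iso {k : Type} [Field k] [Finite k] {p : ℕ} (hp : p.Prime) [CharP k p] {X : Type} [AddCommGroup X] [Module k X] [Finite X] {P : Type} [Group P]
    [Finite P] (hP : IsPGroup p P) (ρ : P →* Module.End k X) (g : ℕ) (h1 : Nat.card {x : X // ∀ s, ρ s x = x} ≤ Nat.card k ^ g)
    (h2 : Nat.card k ^ (g * Nat.card P) ≤ Nat.card X) :
    ∃ Φ : X ≃ₗ[k] (P → Fin g → k), ∀ s x h, Φ (ρ s x) h = Φ x (h * s) := by
  classical
  have hfinX : Module.Finite k X := Module.Finite.of_finite
  have hq : 2 ≤ Nat.card k := Finite.one_lt_card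
  -- the invariants
  let V : Submodule k X :=
    { carrier := {x | ∀ s, ρ s x = x}
      add_mem' := by
        intro x y hx hy s
        rw [map_add, hx s, hy s]
      zero_mem' := fun s => map_zero _
      smul_mem' := by
        intro c x hx s
        rw [map_smul, hx s] }
  have hV : Module.finrank k V ≤ g := by
    have h3 : Nat.card V = Nat.card k ^ Module.finrank k V := Module.natCard_eq_pow_finrank
    have h4 : Nat.card V = Nat.card {x : X // ∀ s, ρ s x = x} := rfl
    rw [← h4, h3] at h1
    exact (Nat.pow_le_pow_iff_right hq).mp h1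
  obtain ⟨f, hf⟩ := fla_inj g hV
  obtain ⟨l, hl⟩ := LinearMap.exists_extend f
  have hlV : ∀ x ∈ V, l x = 0 → x = 0 := by
    intro x hx h0
    have h3 : f ⟨x, hx⟩ = 0 := by
      rw [← hl]
      exact h0
    have h4 := hf (h3.trans (map_zero f).symm)
    exact congrArg Subtype.val h4
  let Φ₀ : X →ₗ[k] (P → Fin g → k) := LinearMap.pi (fun h => l.comp (ρ h))
  have hΦ₀ : ∀ x h, Φ₀ x h = l (ρ h x) := fun x h => rfl
  have hst : ∀ s x h, Φ₀ (ρ s x) h = Φ₀ x (h * s) := by
    intro s x h
    rw [hΦ₀, hΦ₀, map_mul]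
    rfl
  have hker : ∀ x, Φ₀ x = 0 → x = 0 := by
    by_contra hc
    push Not at hc
    obtain ⟨x₀, hx₀, hne⟩ := hc
    let W : Submodule k X := LinearMap.ker Φ₀
    letI : MulAction P W :=
      { smul := fun s w => ⟨ρ s w.1, by
          have h3 : Φ₀ w.1 = 0 := w.2
          show Φ₀ (ρ s w.1) = 0
          funext h
          rw [hst, h3]
          rfl⟩
        one_smul := by
          intro w
          apply Subtype.ext
          show ρ 1 w.1 = w.1
          rw [map_one]
          rfl
        mul_smul := by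
          intro a b w
          apply Subtype.ext
          show ρ (a * b) w.1 = ρ a (ρ b w.1)
          rw [map_mul]
          rfl }
    have hWcard : p ∣ Nat.card W := by
      have h3 : Nat.card W = Nat.card k ^ Module.finrank k W := Module.natCard_eq_pow_finrank
      have h4 : Module.finrank k W ≠ 0 := by
        intro h5
        have h6 : W = ⊥ := Submodule.finrank_eq_zero.mp h5
        have h7 : x₀ ∈ W := hx₀
        rw [h6, Submodule.mem_bot] at h7
        exact hne h7
      rw [h3]
      apply dvd_pow _ h4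
      have := Fintype.ofFinite k
      rw [Nat.card_eq_fintype_card]
      obtain ⟨n, hn1, hn2⟩ := FiniteField.card k p
      rw [hn2]
      exact dvd_pow_self p n.2.ne'
    haveI : Fact p.Prime := ⟨hp⟩
    have h0 : (0 : W) ∈ MulAction.fixedPoints P W := by
      intro s
      apply Subtype.ext
      show ρ s 0 = 0
      exact map_zero _
    obtain ⟨b, hb, hb0⟩ := hP.exists_fixed_point_of_prime_dvd_card_of_fixed_point W hWcard h0
    have hbV : (b : X) ∈ V := by
      intro s
      exact congrArg Subtype.val (hb s)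
    have hbl : l (b : X) = 0 := by
      have h3 : Φ₀ (b : X) 1 = 0 := by
        have h4 : Φ₀ (b : X) = 0 := b.2
        rw [h4]
        rfl
      rw [hΦ₀, map_one] at h3
      exact h3
    exact hb0 (Subtype.ext (hlV _ hbV hbl).symm)
  have hinj : Function.Injective Φ₀ := by
    rw [injective_iff_map_eq_zero]
    exact hker
  have hcard : Nat.card (P → Fin g → k) ≤ Nat.card X := by
    have h3 : Nat.card (P → Fin g → k) = Nat.card k ^ (g * Nat.card P) := by
      rw [Nat.card_fun, Nat.card_fun, Nat.card_fin, pow_mul]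
    rw [h3]
    exact h2
  have hbij := hinj.bijective_of_nat_card_le hcard
  exact ⟨LinearEquiv.ofBijective Φ₀ hbij, fun s x h => hst s x h⟩

/-- Chunk FLb (M). So for every subgroup S: the S-invariants are the norms, and there are q^(g [P:S]) of them. PROOF. Phi(x) for x invariant under S is a function constant on the left cosets h S; y with Phi(y) = Phi(x) on a set of representatives of
the cosets h S and 0 elsewhere: the sum over s in S of Phi(y)(h s) is Phi(x)(h). Count: the functions on P/S. -/
theorem fl {k : Type} [Field k] [Finite k] {p : ℕ} (hp : p.Prime) [CharP k p] {X : Type} [AddCommGroup X] [Module k X] [Finite X] {P : Type} [Group P]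
    [Finite P] (hP : IsPGroup p P) (ρ : P →* Module.End k X) (g : ℕ) (h1 : Nat.card {x : X // ∀ s, ρ s x = x} ≤ Nat.card k ^ g)
    (h2 : Nat.card k ^ (g * Nat.card P) ≤ Nat.card X) (S : Subgroup P) [Fintype S] :
    (∀ x : X, (∀ s ∈ S, ρ s x = x) → ∃ y : X, ∑ s : S, ρ (s : P) y = x) ∧
      Nat.card {x : X // ∀ s ∈ S, ρ s x = x} = Nat.card k ^ (g * S.index) := by
  classical
  obtain ⟨Φ, hΦ⟩ := fl_iso hp hP ρ g h1 h2
  have hinv : ∀ x : X, (∀ s ∈ S, ρ s x = x) ↔ ∀ s ∈ S, ∀ h, Φ x (h * s) = Φ x h := by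
    intro x
    constructor
    · intro hx s hs h
      rw [← hΦ, hx s hs]
    · intro hx s hs
      apply Φ.injective
      funext h
      rw [hΦ, hx s hs]
  have hmk : ∀ (h : P) (s : P), s ∈ S → (QuotientGroup.mk (h * s) : P ⧸ S) = QuotientGroup.mk h := by
    intro h s hs
    exact QuotientGroup.mk_mul_of_mem h hs
  have hout : ∀ h : P, h⁻¹ * (QuotientGroup.mk h : P ⧸ S).out ∈ S := by
    intro h
    have h3 : (QuotientGroup.mk h : P ⧸ S) = QuotientGroup.mk ((QuotientGroup.mk h : P ⧸ S).out) := (Quotient.out_eq' _).symm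
    exact QuotientGroup.eq.mp h3
  constructor
  · intro x hx
    rw [hinv] at hx
    refine ⟨Φ.symm (fun h => if h = (QuotientGroup.mk h : P ⧸ S).out then Φ x h else 0), ?_⟩
    apply Φ.injective
    rw [map_sum]
    funext h
    rw [Finset.sum_apply]
    have h3 : ∀ s : S, Φ (ρ (s : P) (Φ.symm (fun h => if h = (QuotientGroup.mk h : P ⧸ S).out then Φ x h else 0))) h =
        if s = ⟨h⁻¹ * (QuotientGroup.mk h : P ⧸ S).out, hout h⟩ then Φ x h else 0 := by
      intro s
      rw [hΦ, LinearEquiv.apply_symm_apply]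
      beta_reduce
      rw [hmk h s s.2, hx s s.2 h]
      by_cases h4 : h * s = (QuotientGroup.mk h : P ⧸ S).out
      · have h6 : (s : P) = h⁻¹ * (QuotientGroup.mk h : P ⧸ S).out := by
          rw [← h4]
          group
        rw [if_pos h4, if_pos (Subtype.ext h6)]
      · rw [if_neg h4, if_neg (fun h5 => h4 (by rw [h5]; group))]
    rw [Finset.sum_congr rfl (fun s _ => h3 s), Finset.sum_ite_eq' Finset.univ]
    exact if_pos (Finset.mem_univ _)
  · let e : {x : X // ∀ s ∈ S, ρ s x = x} ≃ (P ⧸ S → Fin g → k) :=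
      { toFun := fun x c => Φ x.1 c.out
        invFun := fun f => ⟨Φ.symm (fun h => f (QuotientGroup.mk h)), by
          rw [hinv]
          intro s hs h
          rw [LinearEquiv.apply_symm_apply]
          beta_reduce
          rw [hmk h s hs]⟩
        left_inv := by
          intro x
          apply Subtype.ext
          apply Φ.injective
          rw [LinearEquiv.apply_symm_apply]
          funext h
          have h3 := (hinv x.1).mp x.2 _ (hout h) h
          rw [← h3]
          congr 1
          group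
        right_inv := by
          intro f
          funext c
          show Φ (Φ.symm (fun h => f (QuotientGroup.mk h))) c.out = f c
          rw [LinearEquiv.apply_symm_apply]
          beta_reduce
          congr 1
          exact Quotient.out_eq' c }
    rw [Nat.card_congr e, Nat.card_fun, Nat.card_fun, Nat.card_fin, pow_mul]
    rfl

end H35L
end

-- from Lib.H35L.FL2
section

/-! # H35L, chunk FL2 (M): lifting of invariants -/

namespace H35L

/-- Chunk FL2 (M). The version used for the Kummer classes. Gamma acts on the O-module Z, X1 and XK are stable submodules, the normal subgroup N₀ of index p^m acts trivially on them, X1 is finite and killed by p, every element of X1 is p^k y with y in XK,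
X1 has at most q^g invariants under Gamma and at least q^(g p^m) elements. THEN for every subgroup S containing N₀: X1 has q^(g [Gamma:S]) elements invariant under S and each of them is p^k y with y in XK invariant under S.
PROOF. P = Gamma/N₀ acts on X1, a vector space over O/p (fl); S/N₀ has index [Gamma:S]. x invariant under S is the sum over s in S/N₀ of s x' (fl), x' = p^k y', y = the sum over S/N₀ of s y' (well defined, invariant under S as N₀ acts trivially on XK). -/
theorem fl2 {O : Type} [CommRing O] {p q : ℕ} (hp : p.Prime) (hmax : (Ideal.span {(p : O)}).IsMaximal)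
    (hq : Nat.card (O ⧸ Ideal.span {(p : O)}) = q) (hq2 : 2 ≤ q) {Z : Type} [AddCommGroup Z] [Module O Z] {Γ : Type} [Group Γ]
    (ρ : Γ →* Module.End O Z) (X1 XK : Submodule O Z) (h1 : ∀ s, ∀ x ∈ X1, ρ s x ∈ X1) (h1' : ∀ s, ∀ x ∈ XK, ρ s x ∈ XK)
    (N₀ : Subgroup Γ) [N₀.Normal] {m : ℕ} (hN : N₀.index = p ^ m) (ht : ∀ s ∈ N₀, ∀ x ∈ X1, ρ s x = x) (ht' : ∀ s ∈ N₀, ∀ x ∈ XK, ρ s x = x)
    (hp1 : ∀ x ∈ X1, p • x = 0) (hfin : Finite X1) {k : ℕ} (hdiv : ∀ x ∈ X1, ∃ y ∈ XK, p ^ k • y = x) (g : ℕ)
    (hle : Nat.card {x : Z // x ∈ X1 ∧ ∀ s, ρ s x = x} ≤ q ^ g) (hge : q ^ (g * p ^ m) ≤ Nat.card X1) (S : Subgroup Γ) (hS : N₀ ≤ S) :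
    Nat.card {x : Z // x ∈ X1 ∧ ∀ s ∈ S, ρ s x = x} = q ^ (g * S.index) ∧
      ∀ x ∈ X1, (∀ s ∈ S, ρ s x = x) → ∃ y ∈ XK, (∀ s ∈ S, ρ s y = y) ∧ p ^ k • y = x := by
  classical
  let I : Ideal O := Ideal.span {(p : O)}
  haveI hmax' : I.IsMaximal := hmax
  letI : Field (O ⧸ I) := Ideal.Quotient.field I
  have hqI : Nat.card (O ⧸ I) = q := hq
  haveI hfk : Finite (O ⧸ I) := Nat.finite_of_card_ne_zero (by omega)
  haveI hch : CharP (O ⧸ I) p := by
    have h0 : ((p : ℕ) : O ⧸ I) = 0 := by
      rw [← map_natCast (Ideal.Quotient.mk I)]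
      exact Ideal.Quotient.eq_zero_iff_mem.mpr (Ideal.subset_span (Set.mem_singleton _))
    exact (CharP.charP_iff_prime_eq_zero hp).mpr h0
  have htor : Module.IsTorsionBySet O X1 (I : Set O) := by
    intro x a
    obtain ⟨c, hc⟩ := Ideal.mem_span_singleton'.mp a.2
    apply Subtype.ext
    show (a : O) • (x : Z) = 0
    rw [← hc, mul_smul, Nat.cast_smul_eq_nsmul, hp1 x.1 x.2, smul_zero]
  letI : Module (O ⧸ I) X1 := htor.module
  let r1 : Γ → Module.End (O ⧸ I) X1 := fun s =>
    { toFun := fun x => ⟨ρ s x.1, h1 s x.1 x.2⟩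
      map_add' := by
        intro x y
        apply Subtype.ext
        exact map_add (ρ s) _ _
      map_smul' := by
        intro c x
        obtain ⟨a, rfl⟩ := Ideal.Quotient.mk_surjective c
        apply Subtype.ext
        exact map_smul (ρ s) a x.1 }
  have hr1 : ∀ s x, (r1 s x : Z) = ρ s x.1 := fun s x => rfl
  let ρ1 : Γ →* Module.End (O ⧸ I) X1 :=
    { toFun := r1
      map_one' := by
        apply LinearMap.ext
        intro x
        apply Subtype.ext
        rw [hr1, map_one]
        rfl
      map_mul' := by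
        intro a b
        apply LinearMap.ext
        intro x
        apply Subtype.ext
        rw [hr1, map_mul]
        rfl }
  let ρ2 : Γ ⧸ N₀ →* Module.End (O ⧸ I) X1 := QuotientGroup.lift N₀ ρ1 (by
    intro s hs
    apply LinearMap.ext
    intro x
    apply Subtype.ext
    exact ht s hs x.1 x.2)
  have hr2 : ∀ (s : Γ) (x : X1), (ρ2 (QuotientGroup.mk s) x : Z) = ρ s x.1 := fun s x => rfl
  haveI hfin2 : Finite (Γ ⧸ N₀) := by
    apply Nat.finite_of_card_ne_zero
    show N₀.index ≠ 0
    rw [hN]
    exact pow_ne_zero m hp.ne_zero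
  have hcardP : Nat.card (Γ ⧸ N₀) = p ^ m := hN
  have hP : IsPGroup p (Γ ⧸ N₀) := IsPGroup.of_card hcardP
  have hmem : ∀ (T : Subgroup Γ) (x : X1), (∀ s ∈ T.map (QuotientGroup.mk' N₀), ρ2 s x = x) ↔ ∀ s ∈ T, ρ s x.1 = x.1 := by
    intro T x
    constructor
    · intro hx s hs
      have h3 : ρ2 (QuotientGroup.mk s) x = x := hx _ ⟨s, hs, rfl⟩
      rw [← hr2, h3]
    · rintro hx _ ⟨s, hs, rfl⟩
      apply Subtype.ext
      exact hx s hs
  have hE : ∀ (T : Subgroup Γ), Nat.card {x : X1 // ∀ s ∈ T.map (QuotientGroup.mk' N₀), ρ2 s x = x} =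
      Nat.card {x : Z // x ∈ X1 ∧ ∀ s ∈ T, ρ s x = x} := by
    intro T
    apply Nat.card_congr
    exact
      { toFun := fun x => ⟨x.1.1, x.1.2, (hmem T x.1).mp x.2⟩
        invFun := fun x => ⟨⟨x.1, x.2.1⟩, (hmem T ⟨x.1, x.2.1⟩).mpr x.2.2⟩
        left_inv := fun x => rfl
        right_inv := fun x => rfl }
  have hle' : Nat.card {x : X1 // ∀ s, ρ2 s x = x} ≤ Nat.card (O ⧸ I) ^ g := by
    rw [hqI]
    refine le_trans (le_of_eq ?_) hle
    apply Nat.card_congr
    exact
      { toFun := fun x => ⟨x.1.1, x.1.2, fun s => congrArg Subtype.val (x.2 (QuotientGroup.mk s))⟩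
        invFun := fun x => ⟨⟨x.1, x.2.1⟩, fun s => by
          obtain ⟨s, rfl⟩ := QuotientGroup.mk_surjective s
          apply Subtype.ext
          exact x.2.2 s⟩
        left_inv := fun x => rfl
        right_inv := fun x => rfl }
  have hge' : Nat.card (O ⧸ I) ^ (g * Nat.card (Γ ⧸ N₀)) ≤ Nat.card X1 := by
    rw [hqI, hcardP]
    exact hge
  have hfX1 : Finite X1 := hfin
  letI : Fintype (S.map (QuotientGroup.mk' N₀) : Subgroup (Γ ⧸ N₀)) := Fintype.ofFinite _
  obtain ⟨hA, hB⟩ := fl hp hP ρ2 g hle' hge' (S.map (QuotientGroup.mk' N₀))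
  have hidx : (S.map (QuotientGroup.mk' N₀)).index = S.index := by
    apply Subgroup.index_map_eq S (QuotientGroup.mk'_surjective N₀)
    rw [QuotientGroup.ker_mk']
    exact hS
  constructor
  · rw [← hE S, hB, hidx, hqI]
  · intro x hx hxS
    obtain ⟨x', hx'⟩ := hA ⟨x, hx⟩ ((hmem S ⟨x, hx⟩).mpr hxS)
    obtain ⟨y', hy', hyx⟩ := hdiv x'.1 x'.2
    refine ⟨∑ s : (S.map (QuotientGroup.mk' N₀) : Subgroup (Γ ⧸ N₀)), ρ (s : Γ ⧸ N₀).out y', ?_, ?_, ?_⟩
    · exact Submodule.sum_mem _ (fun s _ => h1' _ _ hy')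
    · intro t ht3
      rw [map_sum]
      have h3 : ∀ s : (S.map (QuotientGroup.mk' N₀) : Subgroup (Γ ⧸ N₀)), ρ t (ρ (s : Γ ⧸ N₀).out y') =
          ρ (((⟨QuotientGroup.mk t, ⟨t, ht3, rfl⟩⟩ : (S.map (QuotientGroup.mk' N₀) : Subgroup (Γ ⧸ N₀))) * s :
            (S.map (QuotientGroup.mk' N₀) : Subgroup (Γ ⧸ N₀))) : Γ ⧸ N₀).out y' := by
        intro s
        obtain ⟨o, ho⟩ : ∃ o, o = (((⟨QuotientGroup.mk t, ⟨t, ht3, rfl⟩⟩ : (S.map (QuotientGroup.mk' N₀) : Subgroup (Γ ⧸ N₀))) * s :
            (S.map (QuotientGroup.mk' N₀) : Subgroup (Γ ⧸ N₀))) : Γ ⧸ N₀).out := ⟨_, rfl⟩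
        rw [← ho]
        have h4 : (QuotientGroup.mk o : Γ ⧸ N₀) = QuotientGroup.mk (t * (s : Γ ⧸ N₀).out) := by
          rw [ho]
          refine (Quotient.out_eq' _).trans ?_
          show (QuotientGroup.mk t : Γ ⧸ N₀) * (s : Γ ⧸ N₀) = QuotientGroup.mk (t * (s : Γ ⧸ N₀).out)
          rw [QuotientGroup.mk_mul]
          congr 1
          exact (Quotient.out_eq' _).symm
        have h5 : o⁻¹ * (t * (s : Γ ⧸ N₀).out) ∈ N₀ := QuotientGroup.eq.mp h4
        have h6 : t * (s : Γ ⧸ N₀).out = o * (o⁻¹ * (t * (s : Γ ⧸ N₀).out)) := by group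
        have h7 : ρ t (ρ (s : Γ ⧸ N₀).out y') = ρ (t * (s : Γ ⧸ N₀).out) y' := by
          rw [map_mul]
          rfl
        rw [h7, h6, map_mul]
        show ρ o (ρ (o⁻¹ * (t * (s : Γ ⧸ N₀).out)) y') = ρ o y'
        rw [ht' _ h5 _ hy']
      rw [Finset.sum_congr rfl (fun s _ => h3 s)]
      exact Equiv.sum_comp (Equiv.mulLeft (⟨QuotientGroup.mk t, ⟨t, ht3, rfl⟩⟩ : (S.map (QuotientGroup.mk' N₀) : Subgroup (Γ ⧸ N₀))))
        (fun s => ρ (s : Γ ⧸ N₀).out y')
    · rw [Finset.smul_sum]
      have h3 : ∀ s : (S.map (QuotientGroup.mk' N₀) : Subgroup (Γ ⧸ N₀)), p ^ k • ρ (s : Γ ⧸ N₀).out y' = ((ρ2 (s : Γ ⧸ N₀) x' : X1) : Z) := by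
        intro s
        rw [← map_nsmul, hyx, ← hr2]
        congr 3
        exact Quotient.out_eq' _
      rw [Finset.sum_congr rfl (fun s _ => h3 s)]
      have h4 := congrArg Subtype.val hx'
      rw [AddSubmonoidClass.coe_finsetSum] at h4
      exact h4

end H35L
end

-- from Lib.H35L.U0
section

/-! # H35L: automorphisms acting on the units of a number field (definitions) -/

open NumberField NumberField.Units

namespace H35L

section

variable {L : Type} [Field L] [NumberField L]

/-- The automorphism on the units. -/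
noncomputable def uM (σ : L ≃ₐ[ℚ] L) : (𝓞 L)ˣ →* (𝓞 L)ˣ :=
  Units.map (RingOfIntegers.mapRingHom (σ : L →+* L) : 𝓞 L →* 𝓞 L)

theorem uM_val (σ : L ≃ₐ[ℚ] L) (u : (𝓞 L)ˣ) : ((uM σ u : 𝓞 L) : L) = σ ((u : 𝓞 L) : L) := rfl

/-- The automorphism on the units, additively. -/
noncomputable def uA (σ : L ≃ₐ[ℚ] L) : Additive (𝓞 L)ˣ →ₗ[ℤ] Additive (𝓞 L)ˣ :=
  (MonoidHom.toAdditive (uM σ)).toIntLinearMap

/-- The permutation of the infinite places on the functions. -/
noncomputable def pZ (R : Type) [CommRing R] (σ : L ≃ₐ[ℚ] L) : (InfinitePlace L → R) →ₗ[R] (InfinitePlace L → R) :=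
  LinearMap.funLeft R R (fun w => w.comap (σ : L →+* L))

/-- sigma^n = 1 and no power of sigma of exponent between 0 and n fixes an infinite place. -/
def FreeA (σ : L ≃ₐ[ℚ] L) (n : ℕ) : Prop :=
  σ ^ n = 1 ∧ ∀ (w : InfinitePlace L) (i : ℕ), 0 < i → i < n → w.comap ((σ ^ i : L ≃ₐ[ℚ] L) : L →+* L) ≠ w

end

end H35L
end

-- from Lib.H35L.U1A
section

/-! # H35L, chunk U1A (M): a real basis from the units -/

open NumberField NumberField.Units

namespace H35L

variable {L : Type} [Field L] [NumberField L]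

/-- the family of the basis -/
noncomputable def u1a_v (L : Type) [Field L] [NumberField L] :
    Fin (rank L) ⊕ Unit → (InfinitePlace L → ℝ) :=
  Sum.elim (fun i w => w.mult * Real.log (w ((fundSystem L i : 𝓞 L) : L))) (fun _ _ => 1)

theorem u1a_li (L : Type) [Field L] [NumberField L] : LinearIndependent ℝ (u1a_v L) := by
  classical
  rw [Fintype.linearIndependent_iff]
  intro g hg
  rw [Fintype.sum_sum_type] at hg
  have h1 : ∀ w : InfinitePlace L, ∑ i : Fin (rank L), g (Sum.inl i) *
      (w.mult * Real.log (w ((fundSystem L i : 𝓞 L) : L))) + g (Sum.inr ()) = 0 := by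
    intro w
    have h2 := congrFun hg w
    simpa [u1a_v] using h2
  have h3 : g (Sum.inr ()) = 0 := by
    have h4 : ∑ w : InfinitePlace L, (∑ i : Fin (rank L), g (Sum.inl i) *
      (w.mult * Real.log (w ((fundSystem L i : 𝓞 L) : L))) + g (Sum.inr ())) = 0 :=
      Finset.sum_eq_zero fun w _ => h1 w
    rw [Finset.sum_add_distrib, Finset.sum_comm] at h4
    have h5 : ∀ i : Fin (rank L), ∑ w : InfinitePlace L, g (Sum.inl i) *
      (w.mult * Real.log (w ((fundSystem L i : 𝓞 L) : L))) = 0 := by
      intro i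
      rw [← Finset.mul_sum, sum_mult_mul_log, mul_zero]
    rw [Finset.sum_eq_zero fun i _ => h5 i, zero_add, Finset.sum_const, nsmul_eq_mul,
      Finset.card_univ] at h4
    rcases mul_eq_zero.1 h4 with h | h
    · exfalso
      have h6 : Fintype.card (InfinitePlace L) = 0 := by exact_mod_cast h
      rw [Fintype.card_eq_zero_iff] at h6
      exact h6.elim (inferInstance : Nonempty (InfinitePlace L)).some
    · exact h
  have h7 : LinearIndependent ℝ ((basisUnitLattice L).ofZLatticeBasis ℝ (unitLattice L)) :=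
    Module.Basis.linearIndependent _
  rw [Fintype.linearIndependent_iff] at h7
  have h8 : ∑ i : Fin (rank L), g (Sum.inl i) •
      (basisUnitLattice L).ofZLatticeBasis ℝ (unitLattice L) i = 0 := by
    funext w
    rw [Finset.sum_apply]
    have h9 := h1 w.1
    rw [h3, add_zero] at h9
    rw [Pi.zero_apply, ← h9]
    refine Finset.sum_congr rfl fun i _ => ?_
    rw [Pi.smul_apply, smul_eq_mul, Module.Basis.ofZLatticeBasis_apply, ← logEmbedding_fundSystem]
    rfl
  have h10 := h7 _ h8
  intro i
  rcases i with i | i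
  · exact h10 i
  · exact h3

/-- Chunk U1A (M). A real basis of the functions on the infinite places: the vectors l(b) = (w -> mult w log |b|_w) for b in the fundamental system of units (Mathlib: fundSystem, logEmbedding_fundSystem, basisUnitLattice), and the constant function 1.
Independence: if sum c_i l(b_i) + c = 0, the sum over all w (product formula, Units.sum_mult_mul_log: the sum of every l(b) is 0) gives c = 0; then the components w <> w₀ give sum c_i logEmbedding b_i = 0, so c_i = 0 since the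
logEmbedding b_i are a real basis (basisUnitLattice is a ℤ-basis of the full lattice unitLattice: Basis.ofZLatticeBasis). Their number is rank + 1 = number of places. -/
theorem exists_basis (L : Type) [Field L] [NumberField L] : ∃ b : Module.Basis (Fin (rank L) ⊕ Unit) ℝ (InfinitePlace L → ℝ),
    (∀ i w, b (Sum.inl i) w = w.mult * Real.log (w ((fundSystem L i : 𝓞 L) : L))) ∧ b (Sum.inr ()) = fun _ => 1 := by
  have hc : Fintype.card (Fin (rank L) ⊕ Unit) = Module.finrank ℝ (InfinitePlace L → ℝ) := by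
    rw [Fintype.card_sum, Fintype.card_fin, Module.finrank_fintype_fun_eq_card]
    have h1 : 0 < Fintype.card (InfinitePlace L) := Fintype.card_pos
    have h2 : rank L = Fintype.card (InfinitePlace L) - 1 := rfl
    rw [h2]
    simp only [Fintype.card_unique]
    omega
  refine ⟨basisOfLinearIndependentOfCardEqFinrank (u1a_li L) hc, ?_, ?_⟩
  · intro i w
    rw [coe_basisOfLinearIndependentOfCardEqFinrank]
    rfl
  · rw [coe_basisOfLinearIndependentOfCardEqFinrank]
    rfl

end H35L
end

-- from Lib.H35L.U2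
section

/-! # H35L, chunk U2 (M): eigenfunctions of a free permutation -/

open NumberField NumberField.Units Polynomial

namespace H35L

variable {L : Type} [Field L] [NumberField L]

section comb

variable {S : Type} (T : S → S) {n : ℕ}

theorem u2_mul (h1 : T^[n] = id) (i : ℕ) : T^[n * i] = id := by
  rw [Function.iterate_mul, h1, Function.iterate_id]

theorem u2_mod (h1 : T^[n] = id) (i : ℕ) : T^[i] = T^[i % n] := by
  conv_lhs => rw [← Nat.mod_add_div i n]
  rw [Function.iterate_add, u2_mul T h1]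
  rfl

theorem u2_inj (hn : 0 < n) (h1 : T^[n] = id) : Function.Injective T := by
  have h2 : Function.LeftInverse (T^[n - 1]) T := by
    intro x
    have h3 : T^[n - 1] (T x) = T^[n - 1 + 1] x := rfl
    rw [h3, Nat.sub_add_cancel hn, h1]
    rfl
  exact h2.injective

theorem u2_idx (hn : 0 < n) (h1 : T^[n] = id) (h2 : ∀ w i, 0 < i → i < n → T^[i] w ≠ w)
    (w : S) (i j : ℕ) (h : T^[i] w = T^[j] w) : i % n = j % n := by
  wlog hij : i ≤ j generalizing i j
  · exact (this j i h.symm (by omega)).symm
  obtain ⟨d, rfl⟩ := Nat.exists_eq_add_of_le hij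
  rw [Function.iterate_add_apply] at h
  have h3 : w = T^[d] w := (u2_inj T hn h1).iterate i h
  have h4 : T^[d % n] w = w := by rw [← u2_mod T h1]; exact h3.symm
  have h5 : d % n = 0 := by
    by_contra hc
    exact h2 w (d % n) (Nat.pos_of_ne_zero hc) (Nat.mod_lt _ hn) h4
  rw [Nat.add_mod, h5, add_zero, Nat.mod_mod]

/-- the orbits -/
def u2_s (hn : 0 < n) (h1 : T^[n] = id) : Setoid S where
  r w w' := ∃ i, T^[i] w = w'
  iseqv := by
    refine ⟨fun w => ⟨0, rfl⟩, ?_, ?_⟩
    · rintro w w' ⟨i, rfl⟩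
      refine ⟨(n - 1) * i, ?_⟩
      rw [← Function.iterate_add_apply]
      have h3 : (n - 1) * i + i = n * i := by
        obtain ⟨m, rfl⟩ : ∃ m, n = m + 1 := ⟨n - 1, by omega⟩
        rw [Nat.add_sub_cancel]; ring
      rw [h3, u2_mul T h1]
      rfl
    · rintro w w' w'' ⟨i, rfl⟩ ⟨j, rfl⟩
      exact ⟨j + i, Function.iterate_add_apply _ _ _ _⟩

end comb

/-- Chunk U2a (M), pure combinatorics: T a permutation of the finite set S of N n elements with T^n = id and no fixed point of T^i, 0 < i < n; mu^n = 1: the functions f with f(T w) = mu f(w) form a space of dimension at least N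
(in fact N). PROOF. S is the union of N orbits of n elements; f is arbitrary at a representative of every orbit: the map f -> (values at the representatives) is onto k^N (f(T^i w) = mu^i f(w) is well defined). -/
theorem eig_free {S : Type} [Fintype S] [DecidableEq S] (T : S → S) {n N : ℕ} (hn : 0 < n) (h1 : T^[n] = id)
    (h2 : ∀ w i, 0 < i → i < n → T^[i] w ≠ w) (hc : Fintype.card S = N * n) {k : Type} [Field k] (μ : k) (hμ : μ ^ n = 1) :
    N ≤ Module.finrank k (Module.End.eigenspace (LinearMap.funLeft k k T) μ) := by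
  classical
  let Q := Quotient (u2_s T hn h1)
  have hex : ∀ w : S, ∃ i, T^[i] (Quotient.out (Quotient.mk (u2_s T hn h1) w)) = w := by
    intro w
    have h3 : (u2_s T hn h1).r (Quotient.out (Quotient.mk (u2_s T hn h1) w)) w :=
      Quotient.exact (Quotient.out_eq _)
    exact h3
  choose idx hidx using hex
  have hpow : ∀ i j : ℕ, i % n = j % n → μ ^ i = μ ^ j := by
    intro i j h
    rw [pow_eq_pow_mod i hμ, h, ← pow_eq_pow_mod j hμ]
  have hq : ∀ w, Quotient.mk (u2_s T hn h1) (T w) = Quotient.mk (u2_s T hn h1) w := by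
    intro w
    exact (Quotient.sound (s := u2_s T hn h1) (show (u2_s T hn h1).r w (T w) from ⟨1, rfl⟩)).symm
  have hstep : ∀ w, idx (T w) % n = (idx w + 1) % n := by
    intro w
    apply u2_idx T hn h1 h2 (Quotient.out (Quotient.mk (u2_s T hn h1) w))
    have h3 := hidx (T w)
    rw [hq] at h3
    rw [h3, add_comm, Function.iterate_add_apply, hidx]
    rfl
  have hcard : Fintype.card Q = N := by
    have e : Q × Fin n ≃ S := Equiv.ofBijective (fun x => T^[(x.2 : ℕ)] (Quotient.out x.1)) (by
      constructor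
      · rintro ⟨q, i⟩ ⟨q', j⟩ h
        have h3 : T^[(i : ℕ)] (Quotient.out q) = T^[(j : ℕ)] (Quotient.out q') := h
        have h4 : q = q' := by
          have h5 : ∀ (x : Q) (m : ℕ), Quotient.mk (u2_s T hn h1) (T^[m] (Quotient.out x)) = x := by
            intro x m
            have h6 : Quotient.mk (u2_s T hn h1) (Quotient.out x) =
                Quotient.mk (u2_s T hn h1) (T^[m] (Quotient.out x)) :=
              Quotient.sound (s := u2_s T hn h1)
                (show (u2_s T hn h1).r (Quotient.out x) (T^[m] (Quotient.out x)) from ⟨m, rfl⟩)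
            rw [← h6]
            exact Quotient.out_eq x
          rw [← h5 q i, h3, h5]
        subst h4
        have h5 := u2_idx T hn h1 h2 _ _ _ h3
        rw [Nat.mod_eq_of_lt i.2, Nat.mod_eq_of_lt j.2] at h5
        rw [Fin.ext h5]
      · intro w
        refine ⟨(Quotient.mk (u2_s T hn h1) w, ⟨idx w % n, Nat.mod_lt _ hn⟩), ?_⟩
        change T^[idx w % n] _ = w
        rw [← u2_mod T h1]
        exact hidx w)
    have h3 := Fintype.card_congr e
    rw [Fintype.card_prod, Fintype.card_fin, hc] at h3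
    exact Nat.eq_of_mul_eq_mul_right hn h3
  let Φ : (Q → k) →ₗ[k] (Module.End.eigenspace (LinearMap.funLeft k k T) μ) :=
    { toFun := fun a => ⟨fun w => μ ^ idx w * a (Quotient.mk (u2_s T hn h1) w), by
        rw [Module.End.mem_eigenspace_iff]
        funext w
        rw [LinearMap.funLeft_apply, Pi.smul_apply, smul_eq_mul, hq, hpow _ _ (hstep w), pow_succ]
        ring⟩
      map_add' := by
        intro a b
        apply Subtype.ext
        funext w
        exact mul_add _ _ _
      map_smul' := by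
        intro c a
        apply Subtype.ext
        funext w
        change μ ^ idx w * (c * a _) = c * (μ ^ idx w * a _)
        ring }
  have hΦ : Function.Injective Φ := by
    intro a b hab
    funext q
    obtain ⟨w, rfl⟩ := Quotient.exists_rep q
    have h3 := congrFun (congrArg Subtype.val hab) w
    change μ ^ idx w * a _ = μ ^ idx w * b _ at h3
    have h4 : μ ^ idx w ≠ 0 := by
      apply pow_ne_zero
      intro h0
      rw [h0, zero_pow hn.ne'] at hμ
      exact zero_ne_one hμ
    exact mul_left_cancel₀ h4 h3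
  have h3 := LinearMap.finrank_le_finrank_of_injective hΦ
  rw [Module.finrank_fintype_fun_eq_card, hcard] at h3
  exact h3

theorem u2_map (σ : L ≃ₐ[ℚ] L) {k : Type} [Field k] :
    ((pZ ℤ σ).charpoly).map (Int.castRingHom k) = (pZ k σ).charpoly := by
  classical
  rw [← LinearMap.charpoly_toMatrix (pZ ℤ σ) (Pi.basisFun ℤ (InfinitePlace L)),
    ← LinearMap.charpoly_toMatrix (pZ k σ) (Pi.basisFun k (InfinitePlace L)),
    ← Matrix.charpoly_map]
  congr 1
  ext w w'
  rw [Matrix.map_apply, LinearMap.toMatrix_apply, LinearMap.toMatrix_apply]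
  simp only [Pi.basisFun_apply, Pi.basisFun_repr, pZ, LinearMap.funLeft_apply]
  rw [Pi.single_apply, Pi.single_apply]
  split_ifs <;> simp

/-- Chunk U2b (S/M). The multiplicity of the root mu of the characteristic polynomial over ℤ, reduced to k, is at least N: charpoly of funLeft ℤ mapped to k is charpoly of funLeft k (matrices, Matrix.charpoly_map),
LinearMap.finrank_eigenspace_le, eig_free with T w = w.comap σ (T^[i] w = w.comap (σ^i)). -/
theorem u_mult (σ : L ≃ₐ[ℚ] L) {n N : ℕ} (hn : 0 < n) (h : FreeA σ n) (hc : Nat.card (InfinitePlace L) = N * n) {k : Type} [Field k]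
    (μ : k) (hμ : μ ^ n = 1) : N ≤ (((pZ ℤ σ).charpoly).map (Int.castRingHom k)).rootMultiplicity μ := by
  classical
  rw [u2_map]
  refine le_trans ?_ (LinearMap.finrank_eigenspace_le (pZ k σ) μ)
  have hit : ∀ (i : ℕ) (w : InfinitePlace L), (fun w : InfinitePlace L => w.comap (σ : L →+* L))^[i] w =
      w.comap ((σ ^ i : L ≃ₐ[ℚ] L) : L →+* L) := by
    intro i
    induction i with
    | zero => intro w; rfl
    | succ i ih =>
      intro w
      rw [Function.iterate_succ_apply, ih]
      rw [← InfinitePlace.comap_comp]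
      congr 1
      ext x
      rw [pow_succ']
      rfl
  refine eig_free (fun w : InfinitePlace L => w.comap (σ : L →+* L)) hn ?_ ?_ ?_ μ hμ
  · funext w
    rw [hit, h.1]
    rfl
  · intro w i h0 hi
    rw [hit]
    exact h.2 w i h0 hi
  · rw [← Nat.card_eq_fintype_card]
    exact hc

end H35L
end

-- from Lib.H35L.U1
section

/-! # H35L, chunk U1 (M/L): the characteristic polynomial on the units -/

open NumberField NumberField.Units Polynomial

namespace H35L

variable {L : Type} [Field L] [NumberField L]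

/-- two additive maps on the units agree if they agree on the torsion and on the fundamental system -/
theorem u1_ext {A : Type} [AddCommGroup A] (f g : Additive (𝓞 L)ˣ →+ A)
    (h1 : ∀ z : (𝓞 L)ˣ, z ∈ torsion L → f (Additive.ofMul z) = g (Additive.ofMul z))
    (h2 : ∀ i, f (Additive.ofMul (fundSystem L i)) = g (Additive.ofMul (fundSystem L i)))
    (u : Additive (𝓞 L)ˣ) : f u = g u := by
  obtain ⟨⟨z, e⟩, hx, -⟩ := exist_unique_eq_mul_prod L u.toMul
  have h3 : u = Additive.ofMul ((z : (𝓞 L)ˣ) * ∏ i, fundSystem L i ^ e i) := by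
    rw [← ofMul_toMul u]
    exact congrArg Additive.ofMul hx
  rw [h3, ofMul_mul, ofMul_prod, map_add, map_add, map_sum, map_sum, h1 z z.2]
  congr 1
  refine Finset.sum_congr rfl fun i _ => ?_
  rw [ofMul_zpow, map_zsmul, map_zsmul, h2]

theorem u1_uni (x : (𝓞 L)ˣ) (y y' : torsion L × (Fin (rank L) → ℤ))
    (h : x = y.1 * ∏ i, fundSystem L i ^ y.2 i) (h' : x = y'.1 * ∏ i, fundSystem L i ^ y'.2 i) :
    y = y' := by
  obtain ⟨z, -, hz⟩ := exist_unique_eq_mul_prod L x
  exact (hz y h).trans (hz y' h').symm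

/-- the exponents as an additive map -/
theorem u1_exp (L : Type) [Field L] [NumberField L] :
    ∃ e : Additive (𝓞 L)ˣ →+ (Fin (rank L) → ℤ),
      ∀ x : (𝓞 L)ˣ, ∃ z : torsion L, x = z * ∏ i, fundSystem L i ^ e (Additive.ofMul x) i := by
  choose y hy _ using fun x : (𝓞 L)ˣ => exist_unique_eq_mul_prod L x
  refine ⟨{ toFun := fun x => (y x.toMul).2
            map_zero' := ?_
            map_add' := ?_ }, fun x => ⟨(y x).1, hy x⟩⟩
  · have h1 := u1_uni (1 : (𝓞 L)ˣ) (y 1) (1, 0) (hy 1) (by simp)
    change (y 1).2 = 0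
    rw [h1]
  · intro a b
    have h1 := u1_uni (a.toMul * b.toMul) (y (a.toMul * b.toMul))
      ((y a.toMul).1 * (y b.toMul).1, (y a.toMul).2 + (y b.toMul).2) (hy _) (by
        simp only [Pi.add_apply, zpow_add, Finset.prod_mul_distrib, Subgroup.coe_mul]
        nth_rewrite 1 [hy a.toMul, hy b.toMul]
        exact mul_mul_mul_comm _ _ _ _)
    change (y (a.toMul * b.toMul)).2 = _
    rw [h1]

/-- Chunk U1b (S/M). The exponents: Mathlib's basisModTorsion, fundSystem_mk, exist_unique_eq_mul_prod, fun_eq_repr. (The instance Module ℤ (Additive ((𝓞 L)ˣ ⧸ torsion L)) is awkward: AddCommGroup.toIntModule; it is easier to define the map by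
exist_unique_eq_mul_prod.) -/
theorem exists_ex (L : Type) [Field L] [NumberField L] : ∃ ex : Additive (𝓞 L)ˣ →ₗ[ℤ] (Fin (rank L) → ℤ),
    (∀ i, ex (Additive.ofMul (fundSystem L i)) = Pi.single i 1) ∧ ∀ u : (𝓞 L)ˣ, ex (Additive.ofMul u) = 0 ↔ u ∈ torsion L := by
  classical
  obtain ⟨e0, he0⟩ := u1_exp L
  refine ⟨e0.toIntLinearMap, ?_, ?_⟩
  · intro i
    change e0 (Additive.ofMul (fundSystem L i)) = Pi.single i 1
    obtain ⟨z, hz⟩ := he0 (fundSystem L i)
    have h1 := u1_uni (fundSystem L i) (z, e0 (Additive.ofMul (fundSystem L i)))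
      (1, Pi.single i 1) hz (by
        rw [Finset.prod_eq_single i]
        · simp
        · intro j _ hj
          change fundSystem L j ^ (Pi.single i 1 : Fin (rank L) → ℤ) j = 1
          rw [Pi.single_eq_of_ne hj, zpow_zero]
        · intro hi
          exact absurd (Finset.mem_univ i) hi)
    exact congrArg Prod.snd h1
  · intro u
    change e0 (Additive.ofMul u) = 0 ↔ u ∈ torsion L
    obtain ⟨z, hz⟩ := he0 u
    constructor
    · intro h
      rw [h] at hz
      rw [hz]
      simp
    · intro h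
      have h1 := u1_uni u (z, e0 (Additive.ofMul u)) (⟨u, h⟩, 0) hz (by simp)
      exact congrArg Prod.snd h1

theorem u1_mult (σ : L ≃ₐ[ℚ] L) (w : InfinitePlace L) :
    (w.comap (σ : L →+* L)).mult = w.mult := by
  apply le_antisymm (InfinitePlace.mult_comap_le _ _)
  have h1 : (w.comap (σ : L →+* L)).comap ((σ.symm : L ≃ₐ[ℚ] L) : L →+* L) = w := by
    rw [← InfinitePlace.comap_comp]
    have h2 : (σ : L →+* L).comp ((σ.symm : L ≃ₐ[ℚ] L) : L →+* L) = RingHom.id L := by
      ext x
      exact σ.apply_symm_apply x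
    rw [h2]
    rfl
  conv_lhs => rw [← h1]
  exact InfinitePlace.mult_comap_le _ _

/-- the logarithmic embedding with all places -/
noncomputable def u1_l (L : Type) [Field L] [NumberField L] : Additive (𝓞 L)ˣ →+ (InfinitePlace L → ℝ) where
  toFun u w := w.mult * Real.log (w ((u.toMul : 𝓞 L) : L))
  map_zero' := by
    funext w
    simp
  map_add' := by
    intro u v
    funext w
    have h1 : ∀ x : (𝓞 L)ˣ, w ((x : 𝓞 L) : L) ≠ 0 := by
      intro x
      rw [Ne, map_eq_zero]
      exact_mod_cast x.ne_zero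
    simp only [toMul_add, Units.val_mul, map_mul, Pi.add_apply]
    rw [Real.log_mul (h1 _) (h1 _), mul_add]

theorem u1_map (σ : L ≃ₐ[ℚ] L) :
    ((pZ ℤ σ).charpoly).map (Int.castRingHom ℝ) = (pZ ℝ σ).charpoly := by
  classical
  rw [← LinearMap.charpoly_toMatrix (pZ ℤ σ) (Pi.basisFun ℤ (InfinitePlace L)),
    ← LinearMap.charpoly_toMatrix (pZ ℝ σ) (Pi.basisFun ℝ (InfinitePlace L)),
    ← Matrix.charpoly_map]
  congr 1
  ext w w'
  rw [Matrix.map_apply, LinearMap.toMatrix_apply, LinearMap.toMatrix_apply]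
  simp only [Pi.basisFun_apply, Pi.basisFun_repr, pZ, LinearMap.funLeft_apply]
  rw [Pi.single_apply, Pi.single_apply]
  split_ifs <;> simp

/-- Chunk U1 (M/L). tau = the endomorphism of the exponents induced by sigma (sigma maps the torsion to the torsion, ex is onto). The matrix of pZ ℝ sigma in the basis of exists_basis is the block diagonal matrix (matrix of tau, 1): with u = sigma(b_i),
l(u)(w) = l(b_i)(w.comap sigma) (mult (w.comap sigma) = mult w), l(u) = sum_j ex(u)_j l(b_j) (l is additive, 0 on roots of unity). So the characteristic polynomials agree over ℝ (LinearMap.charpoly_toMatrix, Matrix.charpoly of a block triangular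
matrix, Matrix.charpoly_map), hence over ℤ (Polynomial.map_injective). -/
theorem u_charpoly (σ : L ≃ₐ[ℚ] L) : ∃ (ex : Additive (𝓞 L)ˣ →ₗ[ℤ] (Fin (rank L) → ℤ)) (τ : (Fin (rank L) → ℤ) →ₗ[ℤ] (Fin (rank L) → ℤ)),
    Function.Surjective ex ∧ (∀ u, ex (uA σ u) = τ (ex u)) ∧ τ.charpoly * (X - 1) = (pZ ℤ σ).charpoly := by
  classical
  obtain ⟨ex, hex1, hex2⟩ := exists_ex L
  let τ : (Fin (rank L) → ℤ) →ₗ[ℤ] (Fin (rank L) → ℤ) :=
    (Pi.basisFun ℤ (Fin (rank L))).constr ℤ (fun i => ex (uA σ (Additive.ofMul (fundSystem L i))))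
  have hτs : ∀ i, τ (Pi.single i 1) = ex (uA σ (Additive.ofMul (fundSystem L i))) := by
    intro i
    have h1 := (Pi.basisFun ℤ (Fin (rank L))).constr_basis ℤ
      (fun i => ex (uA σ (Additive.ofMul (fundSystem L i)))) i
    rwa [Pi.basisFun_apply] at h1
  have hτ : ∀ u, ex (uA σ u) = τ (ex u) := by
    intro u
    refine u1_ext ((ex ∘ₗ uA σ).toAddMonoidHom) ((τ ∘ₗ ex).toAddMonoidHom) ?_ ?_ u
    · intro z hz
      change ex (uA σ (Additive.ofMul z)) = τ (ex (Additive.ofMul z))
      rw [(hex2 z).2 hz, map_zero]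
      have h1 : uM σ z ∈ torsion L := by
        rw [torsion, CommGroup.mem_torsion] at hz ⊢
        exact MonoidHom.isOfFinOrder (uM σ) hz
      exact (hex2 (uM σ z)).2 h1
    · intro i
      change ex (uA σ (Additive.ofMul (fundSystem L i))) = τ (ex (Additive.ofMul (fundSystem L i)))
      rw [hex1, hτs]
  have hsurj : Function.Surjective ex := by
    intro y
    refine ⟨∑ i, y i • Additive.ofMul (fundSystem L i), ?_⟩
    rw [map_sum]
    have h1 : ∀ i, ex (y i • Additive.ofMul (fundSystem L i)) = Pi.single i (y i) := by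
      intro i
      rw [map_zsmul, hex1]
      funext j
      rw [Pi.smul_apply, Pi.single_apply, Pi.single_apply]
      split_ifs <;> simp
    rw [Finset.sum_congr rfl fun i _ => h1 i]
    exact Finset.univ_sum_single y
  refine ⟨ex, τ, hsurj, hτ, ?_⟩
  obtain ⟨b, hb1, hb2⟩ := exists_basis L
  have hb1' : ∀ i, b (Sum.inl i) = u1_l L (Additive.ofMul (fundSystem L i)) := by
    intro i
    funext w
    exact hb1 i w
  have hl : ∀ u : Additive (𝓞 L)ˣ, u1_l L u = ∑ i, ((ex u i : ℤ) : ℝ) • b (Sum.inl i) := by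
    intro u
    let g : Additive (𝓞 L)ˣ →+ (InfinitePlace L → ℝ) :=
      { toFun := fun u => ∑ i, ((ex u i : ℤ) : ℝ) • b (Sum.inl i)
        map_zero' := by simp
        map_add' := by
          intro x y
          rw [← Finset.sum_add_distrib]
          refine Finset.sum_congr rfl fun i _ => ?_
          rw [map_add, Pi.add_apply, Int.cast_add, add_smul] }
    refine u1_ext (u1_l L) g ?_ ?_ u
    · intro z hz
      change u1_l L (Additive.ofMul z) = ∑ i, ((ex (Additive.ofMul z) i : ℤ) : ℝ) • b (Sum.inl i)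
      rw [(hex2 z).2 hz]
      have h1 : ∑ i, (((0 : Fin (rank L) → ℤ) i : ℤ) : ℝ) • b (Sum.inl i) = 0 := by simp
      rw [h1]
      funext w
      change (w.mult : ℝ) * Real.log (w ((z : 𝓞 L) : L)) = 0
      rw [(mem_torsion L).1 hz w, Real.log_one, mul_zero]
    · intro i
      change u1_l L (Additive.ofMul (fundSystem L i)) =
        ∑ j, ((ex (Additive.ofMul (fundSystem L i)) j : ℤ) : ℝ) • b (Sum.inl j)
      rw [hex1, ← hb1', Finset.sum_eq_single i]
      · simp
      · intro j _ hj
        rw [Pi.single_eq_of_ne hj]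
        simp
      · intro hi
        exact absurd (Finset.mem_univ i) hi
  have hσl : ∀ u : Additive (𝓞 L)ˣ, pZ ℝ σ (u1_l L u) = u1_l L (uA σ u) := by
    intro u
    funext w
    change ((w.comap (σ : L →+* L)).mult : ℝ) * Real.log ((w.comap (σ : L →+* L)) ((u.toMul : 𝓞 L) : L)) =
      (w.mult : ℝ) * Real.log (w (((uM σ u.toMul : (𝓞 L)ˣ) : 𝓞 L) : L))
    rw [u1_mult]
    rfl
  have hM : LinearMap.toMatrix b b (pZ ℝ σ) = Matrix.fromBlocks
      ((LinearMap.toMatrix (Pi.basisFun ℤ (Fin (rank L))) (Pi.basisFun ℤ (Fin (rank L))) τ).map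
        (Int.castRingHom ℝ)) 0 0 (1 : Matrix Unit Unit ℝ) := by
    have h1 : ∀ j, pZ ℝ σ (b (Sum.inl j)) =
        ∑ i, ((ex (uA σ (Additive.ofMul (fundSystem L j))) i : ℤ) : ℝ) • b (Sum.inl i) := by
      intro j
      rw [hb1', hσl, hl]
    have h2 : pZ ℝ σ (b (Sum.inr ())) = b (Sum.inr ()) := by
      rw [hb2]
      rfl
    ext i j
    rw [LinearMap.toMatrix_apply]
    rcases j with j | j
    · rw [h1]
      rcases i with i | i
      · rw [Matrix.fromBlocks_apply₁₁, Matrix.map_apply, LinearMap.toMatrix_apply,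
          Pi.basisFun_apply, hτs, Pi.basisFun_repr]
        simp [Finsupp.single_apply]
      · rw [Matrix.fromBlocks_apply₂₁]
        simp
    · rw [show j = () from rfl, h2]
      rcases i with i | i
      · rw [Matrix.fromBlocks_apply₁₂]
        simp
      · rw [Matrix.fromBlocks_apply₂₂]
        simp
  have h3 : (τ.charpoly * (X - 1)).map (Int.castRingHom ℝ) = ((pZ ℤ σ).charpoly).map (Int.castRingHom ℝ) := by
    rw [u1_map, ← LinearMap.charpoly_toMatrix (pZ ℝ σ) b, hM, Matrix.charpoly_fromBlocks_zero₁₂,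
      Matrix.charpoly_map, LinearMap.charpoly_toMatrix, Matrix.charpoly_one]
    simp
  exact Polynomial.map_injective _ (RingHom.injective_int _) h3

end H35L
end

-- from Lib.H35L.U3
section

/-! # H35L, chunk U3 (M): eigenspaces on the exponents -/

open NumberField NumberField.Units Polynomial

namespace H35L

variable {L : Type} [Field L] [NumberField L]

/-- Chunk U3a (S/M). An endomorphism f of a finite-dimensional space with f^n = 1, n <> 0 in k, is semisimple: its generalised eigenspaces are the eigenspaces (X^n - 1 is separable; Module.End.IsFinitelySemisimple.maxGenEigenspace_eq_eigenspace or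
directly: (f - mu)^2 v = 0 implies (f - mu) v = 0: f = mu + e, e^2 = 0 on v, f^n v = mu^n v + n mu^(n-1) e v, mu^n = 1). -/
theorem eig_ss {k V : Type} [Field k] [AddCommGroup V] [Module k V] [FiniteDimensional k V] (f : Module.End k V) {n : ℕ} (hn : (n : k) ≠ 0)
    (hf : f ^ n = 1) (μ : k) : f.maxGenEigenspace μ = f.eigenspace μ := by
  have h1 : (X ^ n - 1 : k[X]).Separable := X_pow_sub_one_separable_iff.2 hn
  have h2 : f.IsSemisimple := by
    apply Module.End.isSemisimple_of_squarefree_aeval_eq_zero h1.squarefree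
    rw [map_sub, map_pow, aeval_X, map_one, hf, sub_self]
  exact h2.isFinitelySemisimple.maxGenEigenspace_eq_eigenspace μ

/-- Chunk U3 (M). hx reduced to k: the multiplicity of mu <> 1 in the characteristic polynomial of tau is that of pZ; u_mult; LinearMap.finrank_maxGenEigenspace_eq, LinearMap.charpoly_baseChange; eig_ss. -/
theorem u_eig (σ : L ≃ₐ[ℚ] L) {n N : ℕ} (hn : 0 < n) (h : FreeA σ n) (hc : Nat.card (InfinitePlace L) = N * n)
    {r : ℕ} (τ : (Fin r → ℤ) →ₗ[ℤ] (Fin r → ℤ)) (hτ : τ ^ n = 1) (hx : τ.charpoly * (X - 1) = (pZ ℤ σ).charpoly) {k : Type} [Field k]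
    (hnk : (n : k) ≠ 0) (μ : k) (hμ : μ ^ n = 1) (h1 : μ ≠ 1) :
    N ≤ Module.finrank k (Module.End.eigenspace (τ.baseChange k) μ) := by
  have h2 : (τ.baseChange k) ^ n = 1 := by
    rw [← LinearMap.baseChange_pow, hτ]
    exact LinearMap.baseChange_id
  rw [← eig_ss (τ.baseChange k) hnk h2 μ, LinearMap.finrank_maxGenEigenspace_eq,
    LinearMap.charpoly_baseChange]
  have h3 := u_mult σ hn h hc μ hμ
  rw [← hx, Polynomial.map_mul] at h3
  have h4 : (τ.charpoly.map (Int.castRingHom k)).Monic := (LinearMap.charpoly_monic τ).map _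
  have h5 : ((X - 1 : ℤ[X]).map (Int.castRingHom k)) = X - C 1 := by simp
  rw [h5] at h3
  have h6 : τ.charpoly.map (Int.castRingHom k) * (X - C 1) ≠ 0 :=
    mul_ne_zero h4.ne_zero (X_sub_C_ne_zero 1)
  rw [Polynomial.rootMultiplicity_mul h6] at h3
  have h7 : rootMultiplicity μ (X - C 1 : k[X]) = 0 := by
    apply Polynomial.rootMultiplicity_eq_zero
    rw [Polynomial.root_X_sub_C]
    exact fun h => h1 h.symm
  rw [h7, add_zero] at h3
  exact h3

end H35L
end

-- from Lib.H35L.U4
section

/-! # H35L, chunk U4 (M): eigenspaces on the units -/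

open NumberField NumberField.Units TensorProduct Polynomial

namespace H35L

variable {L : Type} [Field L] [NumberField L]

theorem u4_pow (σ : L ≃ₐ[ℚ] L) (i : ℕ) : (uA σ) ^ i = uA (σ ^ i) := by
  induction i with
  | zero =>
    apply LinearMap.ext
    intro u
    rfl
  | succ i ih =>
    rw [pow_succ, pow_succ, ih]
    apply LinearMap.ext
    intro u
    rfl

/-- the averaged vector is an eigenvector -/
theorem u4_avg {k V : Type} [Field k] [AddCommGroup V] [Module k V] (U : Module.End k V) {n : ℕ}
    (hU : U ^ n = 1) (μ : k) (hμ : μ ^ n = 1) (hn : 0 < n) (z : V) :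
    U (∑ i ∈ Finset.range n, (μ⁻¹) ^ i • (U ^ i) z) =
      μ • ∑ i ∈ Finset.range n, (μ⁻¹) ^ i • (U ^ i) z := by
  have hμ0 : μ ≠ 0 := by
    intro h
    rw [h, zero_pow hn.ne'] at hμ
    exact zero_ne_one hμ
  have h1 : U (∑ i ∈ Finset.range n, (μ⁻¹) ^ i • (U ^ i) z) =
      μ • ∑ i ∈ Finset.range n, (μ⁻¹) ^ (i + 1) • (U ^ (i + 1)) z := by
    rw [map_sum, Finset.smul_sum]
    refine Finset.sum_congr rfl fun i _ => ?_
    rw [map_smul, smul_smul, pow_succ' U, Module.End.mul_apply]
    congr 1
    rw [pow_succ, mul_comm, mul_assoc, inv_mul_cancel₀ hμ0, mul_one]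
  rw [h1]
  congr 1
  have h2 := Finset.sum_range_succ' (fun i => (μ⁻¹) ^ i • (U ^ i) z) n
  rw [Finset.sum_range_succ] at h2
  have h3 : (μ⁻¹) ^ n • (U ^ n) z = (μ⁻¹) ^ 0 • (U ^ 0) z := by
    rw [hU, inv_pow, hμ, inv_one, pow_zero, pow_zero]
  rw [h3] at h2
  exact (add_right_cancel h2).symm

/-- Chunk U4 (M). ex, tau from u_charpoly; tau^n = 1 (ex is onto, sigma^n = 1). The map k (x) units -> k (x) ℤ^r is onto and commutes with sigma, tau; both have n-th power 1 with n invertible in k, so it is onto on the eigenspaces: for v in the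
eigenspace downstairs and any preimage z the element (1/n) sum over i < n of mu^(-i) sigma^i z is an eigenvector with image v. So the eigenspace upstairs has at least (card k)^N elements (u_eig; it is finite: k (x) units is finite-dimensional, Additive units
is a finite ℤ-module). -/
theorem u_card (σ : L ≃ₐ[ℚ] L) {n N : ℕ} (hn : 0 < n) (h : FreeA σ n) (hc : Nat.card (InfinitePlace L) = N * n) {k : Type} [Field k] [Finite k]
    (hnk : (n : k) ≠ 0) (μ : k) (hμ : μ ^ n = 1) (h1 : μ ≠ 1) :
    Nat.card k ^ N ≤ Nat.card {z : k ⊗[ℤ] Additive (𝓞 L)ˣ // (uA σ).baseChange k z = μ • z} := by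
  classical
  obtain ⟨ex, τ, hsurj, hτ, hx⟩ := u_charpoly σ
  have hτi : ∀ (i : ℕ) u, ex (((uA σ) ^ i) u) = (τ ^ i) (ex u) := by
    intro i
    induction i with
    | zero => intro u; rfl
    | succ i ih =>
      intro u
      rw [pow_succ', pow_succ', Module.End.mul_apply, Module.End.mul_apply, hτ, ih]
  have hUn : (uA σ) ^ n = 1 := by
    rw [u4_pow, h.1]
    apply LinearMap.ext
    intro u
    rfl
  have hτn : τ ^ n = 1 := by
    apply LinearMap.ext
    intro y
    obtain ⟨u, rfl⟩ := hsurj y
    rw [← hτi, hUn]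
    rfl
  have hE := u_eig σ hn h hc τ hτn hx hnk μ hμ h1
  have hg : Function.Surjective (ex.baseChange k) := LinearMap.lTensor_surjective k hsurj
  have hU' : ((uA σ).baseChange k) ^ n = 1 := by
    rw [← LinearMap.baseChange_pow, hUn]
    exact LinearMap.baseChange_id
  have hcomm : ∀ z, ex.baseChange k ((uA σ).baseChange k z) = τ.baseChange k (ex.baseChange k z) := by
    intro z
    have h2 : (ex.baseChange k) ∘ₗ ((uA σ).baseChange k) = (τ.baseChange k) ∘ₗ (ex.baseChange k) := by
      rw [← LinearMap.baseChange_comp, ← LinearMap.baseChange_comp]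
      congr 1
      apply LinearMap.ext
      exact hτ
    exact LinearMap.congr_fun h2 z
  have hcommi : ∀ (i : ℕ) z, ex.baseChange k ((((uA σ).baseChange k) ^ i) z) =
      ((τ.baseChange k) ^ i) (ex.baseChange k z) := by
    intro i
    induction i with
    | zero => intro z; rfl
    | succ i ih =>
      intro z
      rw [pow_succ', pow_succ', Module.End.mul_apply, Module.End.mul_apply, hcomm, ih]
  have hμ0 : μ ≠ 0 := by
    intro h
    rw [h, zero_pow hn.ne'] at hμ
    exact zero_ne_one hμ
  have hfin : Finite (k ⊗[ℤ] Additive (𝓞 L)ˣ) := Module.finite_of_finite k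
  have hfin2 : Finite (k ⊗[ℤ] (Fin (rank L) → ℤ)) := Module.finite_of_finite k
  have hcard : Nat.card (Module.End.eigenspace (τ.baseChange k) μ) =
      Nat.card k ^ Module.finrank k (Module.End.eigenspace (τ.baseChange k) μ) :=
    Module.natCard_eq_pow_finrank (K := k) (V := Module.End.eigenspace (τ.baseChange k) μ)
  have hpos : 0 < Nat.card k := Nat.card_pos
  refine (Nat.pow_le_pow_right hpos hE).trans ?_
  rw [← hcard]
  let f : {z : k ⊗[ℤ] Additive (𝓞 L)ˣ // (uA σ).baseChange k z = μ • z} →
      (Module.End.eigenspace (τ.baseChange k) μ) :=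
    fun z => ⟨ex.baseChange k z.1, by
      rw [Module.End.mem_eigenspace_iff, ← hcomm, z.2, map_smul]⟩
  refine Nat.card_le_card_of_surjective f ?_
  rintro ⟨v, hv⟩
  rw [Module.End.mem_eigenspace_iff] at hv
  obtain ⟨z, hz⟩ := hg v
  have hvi : ∀ i : ℕ, ((τ.baseChange k) ^ i) v = μ ^ i • v := by
    intro i
    induction i with
    | zero => simp
    | succ i ih =>
      rw [pow_succ', Module.End.mul_apply, ih, map_smul, hv, smul_smul, pow_succ]
  refine ⟨⟨(n : k)⁻¹ • ∑ i ∈ Finset.range n, (μ⁻¹) ^ i • (((uA σ).baseChange k) ^ i) z, ?_⟩, ?_⟩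
  · rw [map_smul, u4_avg _ hU' μ hμ hn z, smul_comm]
  · apply Subtype.ext
    change ex.baseChange k ((n : k)⁻¹ • ∑ i ∈ Finset.range n, (μ⁻¹) ^ i • (((uA σ).baseChange k) ^ i) z) = v
    rw [map_smul, map_sum]
    have h2 : ∀ i ∈ Finset.range n, ex.baseChange k ((μ⁻¹) ^ i • (((uA σ).baseChange k) ^ i) z) = v := by
      intro i _
      rw [map_smul, hcommi, hz, hvi, smul_smul, ← mul_pow, inv_mul_cancel₀ hμ0, one_pow, one_smul]
    rw [Finset.sum_congr rfl h2, Finset.sum_const, Finset.card_range, ← Nat.cast_smul_eq_nsmul k,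
      smul_smul, inv_mul_cancel₀ hnk, one_smul]

end H35L
end
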