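import Mathlib
import Pool.Agent.Lib.H1M.PP2.M005

/-! Merged copies (to shorten the build) of Lib.H35K.A0, Lib.H35K.B1, Lib.H35K.A1, Lib.H35K.A2. -/

-- from Lib.H35K.A0
section

/-! # H35K, chunk A0 (S/M): the numbers J p n -/

namespace H35K

/-- Chunk A0 (S). -/
theorem J_zero {p : ℕ} (hp : 1 ≤ p) : J p 0 = 0 := by
  unfold J
  rw [pow_zero]
  exact Nat.div_eq_of_lt (by omega)

/-- Chunk A0 (S). -/
theorem J_one {p : ℕ} (hp : 1 ≤ p) : J p 1 = 0 := by
  unfold J
  rw [pow_one]
  exact Nat.div_eq_of_lt (by omega)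

/-- Chunk A0 (S/M). p^(n+2) = (p+1) (p^(n+1) - p^n) + p^n. -/
theorem J_step {p : ℕ} (hp : 1 ≤ p) (n : ℕ) : J p (n + 2) = (p ^ (n + 1) - p ^ n) + J p n := by
  unfold J
  have h1 : p ^ n ≤ p ^ (n + 1) := Nat.pow_le_pow_right hp (by omega)
  obtain ⟨c, hc⟩ := Nat.exists_eq_add_of_le h1
  have e : p ^ (n + 2) = (p + 1) * c + p ^ n := by
    have h2 : p ^ (n + 2) = p * p ^ (n + 1) := by ring
    have h3 : p ^ (n + 1) = p * p ^ n := by ring
    rw [h2, hc]
    have h4 : p * p ^ n = p ^ n + c := by rw [← h3, hc]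
    calc p * (p ^ n + c) = p * p ^ n + p * c := by ring
      _ = p ^ n + c + p * c := by rw [h4]
      _ = _ := by ring
  rw [e, Nat.mul_add_div (by omega), hc]
  omega


/-- Chunk A0 (S/M). (p + 1) J <= p^n and p + 1 >= 4. -/
theorem J_two {p : ℕ} (hp : 3 ≤ p) (n : ℕ) : 2 * J p n + 1 ≤ p ^ n := by
  have h1 : (p + 1) * J p n ≤ p ^ n := Nat.mul_div_le _ _
  have h2 : 0 < p ^ n := Nat.pow_pos (by omega)
  have h3 : 4 * J p n ≤ (p + 1) * J p n := Nat.mul_le_mul_right _ (by omega)
  omega

/-- Chunk A0 (S/M). (p+1) J(n+1) <= p^(n+1) gives J(n+1) < p^n (p^n >= 1), and p^(n+1) - p^n >= 2 p^n. -/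
theorem J_phi {p : ℕ} (hp : 3 ≤ p) (n : ℕ) : J p (n + 1) + 1 ≤ p ^ (n + 1) - p ^ n := by
  have h1 : (p + 1) * J p (n + 1) ≤ p ^ (n + 1) := Nat.mul_div_le _ _
  have h2 : 0 < p ^ n := Nat.pow_pos (by omega)
  have h3 : p ^ (n + 1) = p * p ^ n := by ring
  have h4 : J p (n + 1) < p ^ n := by
    by_contra hc
    push Not at hc
    have h5 : (p + 1) * p ^ n ≤ (p + 1) * J p (n + 1) := Nat.mul_le_mul_left _ hc
    have h6 : (p + 1) * p ^ n = p * p ^ n + p ^ n := by ring
    omega
  have h5 : 3 * p ^ n ≤ p * p ^ n := Nat.mul_le_mul_right _ hp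
  omega

end H35K
end

-- from Lib.H35K.B1
section

/-! # H35K, chunk B1 (M): polynomial identities modulo p -/

namespace H35K

open Polynomial

/-- A polynomial which is 0 modulo p is divisible by p. -/
theorem b1_dvd {p : ℕ} (F : ℤ[X]) (h : F.map (Int.castRingHom (ZMod p)) = 0) :
    ∃ h : ℤ[X], F = C (p : ℤ) * h := by
  have : C (p : ℤ) ∣ F := by
    rw [Polynomial.C_dvd_iff_dvd_coeff]
    intro i
    have h1 : (F.map (Int.castRingHom (ZMod p))).coeff i = 0 := by
      rw [h, Polynomial.coeff_zero]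
    rw [Polynomial.coeff_map] at h1
    exact (ZMod.intCast_zmod_eq_zero_iff_dvd _ _).1 h1
  exact this

/-- Chunk B1 (M). Y = X in the polynomial ring: sum over i < p of (X+1)^(i p^n) = X^(p^(n+1) - p^n) + p h with h(0) = 1. PROOF. Modulo p: (X+1)^(p^n) = X^(p^n) + 1
(add_pow_char_pow), and sum over i < p of (T+1)^i = T^(p-1) for T = X^(p^n) (multiply by T: (T+1)^p - 1 = T^p modulo p; T is not a zero divisor). So the
difference of the two sides is divisible by p (Polynomial.map to ZMod p is 0; or C p divides it: coefficientwise); at 0 the sum is p and the power of X is 0 (p^(n+1) > p^n). -/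
theorem nrm_poly {p : ℕ} (hp : p.Prime) (n : ℕ) :
    ∃ h : ℤ[X], (∑ i ∈ Finset.range p, (X + 1 : ℤ[X]) ^ (i * p ^ n)) = X ^ (p ^ (n + 1) - p ^ n) + (C (p : ℤ)) * h ∧
      h.eval 0 = 1 := by
  haveI : Fact p.Prime := ⟨hp⟩
  have hmod : ((∑ i ∈ Finset.range p, (X + 1 : ℤ[X]) ^ (i * p ^ n)) -
      X ^ (p ^ (n + 1) - p ^ n)).map (Int.castRingHom (ZMod p)) = 0 := by
    rw [Polynomial.map_sub, Polynomial.map_sum, Polynomial.map_pow, Polynomial.map_X, sub_eq_zero]
    have h1 : ∀ i ∈ Finset.range p, ((X + 1 : ℤ[X]) ^ (i * p ^ n)).map (Int.castRingHom (ZMod p)) =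
        ((X : (ZMod p)[X]) ^ p ^ n + 1) ^ i := by
      intro i _
      rw [Polynomial.map_pow, Polynomial.map_add, Polynomial.map_X, Polynomial.map_one, mul_comm,
        pow_mul, add_pow_char_pow, one_pow]
    rw [Finset.sum_congr rfl h1]
    have hT : ((X : (ZMod p)[X]) ^ p ^ n) ≠ 0 := pow_ne_zero _ X_ne_zero
    apply mul_right_cancel₀ hT
    have h2 := geom_sum_mul ((X : (ZMod p)[X]) ^ p ^ n + 1) p
    rw [add_sub_cancel_right] at h2
    rw [h2, add_pow_char, one_pow, add_sub_cancel_right, ← pow_mul, ← pow_add]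
    congr 1
    rw [← pow_succ, Nat.sub_add_cancel (Nat.pow_le_pow_right hp.pos (Nat.le_succ n))]
  obtain ⟨h, hh⟩ := b1_dvd _ hmod
  refine ⟨h, ?_, ?_⟩
  · rw [← hh]
    ring
  · have h3 := congrArg (Polynomial.eval 0) hh
    have hne : p ^ (n + 1) - p ^ n ≠ 0 := by
      have : p ^ n < p ^ (n + 1) := Nat.pow_lt_pow_right hp.one_lt (Nat.lt_succ_self n)
      omega
    have hp0 : (p : ℤ) ≠ 0 := by exact_mod_cast hp.pos.ne'
    rw [Polynomial.eval_sub, Polynomial.eval_finset_sum, Polynomial.eval_mul, Polynomial.eval_C,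
      Polynomial.eval_pow, Polynomial.eval_X, zero_pow hne, sub_zero] at h3
    have h4 : (∑ i ∈ Finset.range p, Polynomial.eval 0 ((X + 1 : ℤ[X]) ^ (i * p ^ n))) = (p : ℤ) := by
      rw [Finset.sum_congr rfl (g := fun _ => (1 : ℤ))]
      · simp
      · intro i _
        simp
    rw [h4] at h3
    have h5 : (p : ℤ) * 1 = (p : ℤ) * Polynomial.eval 0 h := by rw [mul_one]; exact h3
    exact (mul_left_cancel₀ hp0 h5).symm

/-- Chunk B1 (S/M). (X+1)^(p^n) = X^(p^n) + 1 + p h. -/
theorem lev_poly {p : ℕ} (hp : p.Prime) (n : ℕ) :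
    ∃ h : ℤ[X], (X + 1 : ℤ[X]) ^ (p ^ n) = X ^ (p ^ n) + 1 + (C (p : ℤ)) * h := by
  haveI : Fact p.Prime := ⟨hp⟩
  have hmod : ((X + 1 : ℤ[X]) ^ (p ^ n) - (X ^ (p ^ n) + 1)).map (Int.castRingHom (ZMod p)) = 0 := by
    rw [Polynomial.map_sub, Polynomial.map_pow, Polynomial.map_add, Polynomial.map_X,
      Polynomial.map_one, Polynomial.map_add, Polynomial.map_pow, Polynomial.map_X,
      Polynomial.map_one, add_pow_char_pow, one_pow, sub_self]
  obtain ⟨h, hh⟩ := b1_dvd _ hmod
  refine ⟨h, ?_⟩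
  rw [← hh]
  ring

/-- Chunk B1 (S). The norm is the value of the polynomial at f - 1. -/
theorem nrm_aeval {O Z : Type} [CommRing O] [AddCommGroup Z] [Module O Z] (p n : ℕ) (f : Z →ₗ[O] Z) :
    nrm p n f = Polynomial.aeval (R := ℤ) (f - 1) (∑ i ∈ Finset.range p, (X + 1 : ℤ[X]) ^ (i * p ^ n)) := by
  rw [map_sum]
  unfold nrm
  refine Finset.sum_congr rfl (fun i _ => ?_)
  rw [map_pow, map_add, Polynomial.aeval_X, map_one, sub_add_cancel]

/-- p times an operator kills an element killed by p. -/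
theorem b1_kill {O Z : Type} [CommRing O] [AddCommGroup Z] [Module O Z] {p : ℕ} (g : Z →ₗ[O] Z) (h : ℤ[X])
    (z : Z) (hz : p • z = 0) : (Polynomial.aeval (R := ℤ) g (C (p : ℤ) * h)) z = 0 := by
  rw [mul_comm, map_mul, Polynomial.aeval_C, Module.End.mul_apply]
  have : ((algebraMap ℤ (Module.End O Z)) (p : ℤ)) z = 0 := by
    rw [map_natCast, Module.End.natCast_apply, hz]
  rw [this, map_zero]

/-- Chunk B1 (S/M). On elements killed by p the norm is (f-1)^(p^(n+1) - p^n) (apply the polynomial identity). -/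
theorem nrm_p {O Z : Type} [CommRing O] [AddCommGroup Z] [Module O Z] {p : ℕ} (hp : p.Prime) (n : ℕ) (f : Z →ₗ[O] Z)
    (z : Z) (hz : p • z = 0) : nrm p n f z = ((f - 1) ^ (p ^ (n + 1) - p ^ n)) z := by
  obtain ⟨h, hh, -⟩ := nrm_poly hp n
  rw [nrm_aeval, hh, map_add, LinearMap.add_apply, b1_kill _ _ _ hz, add_zero, map_pow,
    Polynomial.aeval_X]

/-- Chunk B1 (S). f^(p^n) - 1 applied to an element killed by p. -/
theorem sub_p {O Z : Type} [CommRing O] [AddCommGroup Z] [Module O Z] {p : ℕ} (hp : p.Prime) (n : ℕ) (f : Z →ₗ[O] Z)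
    (z : Z) (hz : p • z = 0) : (f ^ p ^ n) z - z = ((f - 1) ^ (p ^ n)) z := by
  obtain ⟨h, hh⟩ := lev_poly hp n
  have h1 : f ^ p ^ n = Polynomial.aeval (R := ℤ) (f - 1) ((X + 1 : ℤ[X]) ^ (p ^ n)) := by
    rw [map_pow, map_add, Polynomial.aeval_X, map_one, sub_add_cancel]
  rw [h1, hh, map_add, LinearMap.add_apply, b1_kill _ _ _ hz, add_zero, map_add,
    LinearMap.add_apply, map_one, map_pow, Polynomial.aeval_X, Module.End.one_apply,
    add_sub_cancel_right]

/-- Chunk B1 (S/M). On elements killed by p the level condition is (f-1)^(p^n) z = 0. -/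
theorem lev_p {O Z : Type} [CommRing O] [AddCommGroup Z] [Module O Z] {p : ℕ} (hp : p.Prime) (n : ℕ) (f : Z →ₗ[O] Z)
    (z : Z) (hz : p • z = 0) : Lev p n f z ↔ ((f - 1) ^ (p ^ n)) z = 0 := by
  rw [← sub_p hp n f z hz, sub_eq_zero]
  exact Iff.rfl

end H35K
end

-- from Lib.H35K.A1
section

/-! # H35K, chunk A1 (M): counting kernels of powers -/

namespace H35K

/-- The first isomorphism theorem for X^a on ker X^(a+b), counted. -/
theorem a1_fac {V : Type} [AddCommGroup V] (X : AddMonoid.End V) (a b : ℕ) :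
    Nat.card {v : V // (X ^ (a + b)) v = 0} =
      Nat.card {v : V // ∃ w : V, (X ^ (a + b)) w = 0 ∧ (X ^ a) w = v} *
        Nat.card {v : V // (X ^ a) v = 0} := by
  have hba : ∀ v : V, (X ^ (a + b)) v = (X ^ b) ((X ^ a) v) := by
    intro v
    rw [add_comm, pow_add]
    rfl
  let F : V →+ V := X ^ (a + b)
  let G : V →+ V := X ^ a
  let A : AddSubgroup V := AddMonoidHom.ker F
  let φ : A →+ V := G.comp A.subtype
  have h1 : Nat.card A = Nat.card (A ⧸ φ.ker) * Nat.card φ.ker :=
    AddSubgroup.card_eq_card_quotient_mul_card_addSubgroup _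
  have h2 : Nat.card (A ⧸ φ.ker) = Nat.card φ.range :=
    Nat.card_congr (QuotientAddGroup.quotientKerEquivRange φ).toEquiv
  have e1 : Nat.card {v : V // (X ^ (a + b)) v = 0} = Nat.card A :=
    Nat.card_congr (Equiv.subtypeEquivRight (fun v => Iff.rfl))
  have e2 : Nat.card φ.range =
      Nat.card {v : V // ∃ w : V, (X ^ (a + b)) w = 0 ∧ (X ^ a) w = v} := by
    refine Nat.card_congr (Equiv.subtypeEquivRight (fun v => ?_))
    constructor
    · rintro ⟨w, hw⟩
      exact ⟨w.1, w.2, hw⟩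
    · rintro ⟨w, hw, hv⟩
      exact ⟨⟨w, hw⟩, hv⟩
  have e3 : Nat.card φ.ker = Nat.card {v : V // (X ^ a) v = 0} := by
    refine Nat.card_congr ⟨fun x => ⟨x.1.1, x.2⟩, fun v => ⟨⟨v.1, ?_⟩, v.2⟩, ?_, ?_⟩
    · show (X ^ (a + b)) v.1 = 0
      rw [hba, v.2, map_zero]
    · intro x
      rfl
    · intro v
      rfl
  rw [e1, h1, h2, e2, e3]

/-- Bounds of the kernels of the powers. -/
theorem a1_bound {V : Type} [AddCommGroup V] (X : AddMonoid.End V) {c : ℕ}
    (hf : Finite {v : V // X v = 0}) (h1 : Nat.card {v : V // X v = 0} ≤ c) (j : ℕ) :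
    Finite {v : V // (X ^ j) v = 0} ∧ Nat.card {v : V // (X ^ j) v = 0} ≤ c ^ j := by
  induction j with
  | zero =>
    have : Unique {v : V // (X ^ 0) v = 0} :=
      { default := ⟨0, map_zero _⟩
        uniq := fun v => Subtype.ext (show v.1 = 0 from v.2) }
    refine ⟨inferInstance, ?_⟩
    rw [Nat.card_unique, pow_zero]
  | succ j ih =>
    obtain ⟨f0, i0⟩ := ih
    have hfac := a1_fac X j 1
    have hsub : ∀ v : V, (∃ w : V, (X ^ (j + 1)) w = 0 ∧ (X ^ j) w = v) → X v = 0 := by
      rintro v ⟨w, hw, hv⟩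
      rw [← hv]
      have : (X ^ (j + 1)) w = X ((X ^ j) w) := by
        rw [pow_succ']
        rfl
      rw [← this, hw]
    have hinj : Function.Injective
        (fun v : {v : V // ∃ w : V, (X ^ (j + 1)) w = 0 ∧ (X ^ j) w = v} =>
          (⟨v.1, hsub v.1 v.2⟩ : {v : V // X v = 0})) := by
      intro u v huv
      exact Subtype.ext (congrArg (fun z : {v : V // X v = 0} => z.1) huv)
    have f1 : Finite {v : V // ∃ w : V, (X ^ (j + 1)) w = 0 ∧ (X ^ j) w = v} :=
      Finite.of_injective _ hinj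
    have c1 : Nat.card {v : V // ∃ w : V, (X ^ (j + 1)) w = 0 ∧ (X ^ j) w = v} ≤ c :=
      (Nat.card_le_card_of_injective _ hinj).trans h1
    have n1 : Nonempty {v : V // ∃ w : V, (X ^ (j + 1)) w = 0 ∧ (X ^ j) w = v} :=
      ⟨⟨0, 0, map_zero _, map_zero _⟩⟩
    have n0 : Nonempty {v : V // (X ^ j) v = 0} := ⟨⟨0, map_zero _⟩⟩
    refine ⟨?_, ?_⟩
    · apply Nat.finite_of_card_ne_zero
      rw [hfac]
      exact mul_ne_zero Nat.card_pos.ne' Nat.card_pos.ne'
    · rw [hfac]
      refine (Nat.mul_le_mul c1 i0).trans (le_of_eq ?_)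
      exact (pow_succ' c j).symm

/-- Chunk A1 (M). X an endomorphism of the abelian group V, ker X has c elements and ker X^P has at least c^P elements. Then for a + b = P:
ker X^b has c^b elements and X^a maps ker X^P onto ker X^b. PROOF. |ker X^(j+1)| <= |ker X^j| |ker X| (X^j maps ker X^(j+1) to ker X with kernel
ker X^j; first isomorphism theorem, everything is finite by induction), so |ker X^j| <= c^j for all j. X^a maps ker X^P to ker X^b with kernel
ker X^a: c^P <= |ker X^P| = |ker X^a| |image| <= c^a |ker X^b| <= c^a c^b = c^P, so all inequalities are equalities (c > 0), and the image, a subset of the finite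
set ker X^b of the same cardinality, is everything. -/
theorem a1 {V : Type} [AddCommGroup V] (X : AddMonoid.End V) {c P : ℕ} (hc : 1 ≤ c)
    (h1 : Nat.card {v : V // X v = 0} = c) (h2 : c ^ P ≤ Nat.card {v : V // (X ^ P) v = 0}) {a b : ℕ} (hab : a + b = P) :
    Nat.card {v : V // (X ^ b) v = 0} = c ^ b ∧
      ∀ v : V, (X ^ b) v = 0 → ∃ w : V, (X ^ P) w = 0 ∧ (X ^ a) w = v := by
  subst hab
  have hf : Finite {v : V // X v = 0} := Nat.finite_of_card_ne_zero (by omega)
  obtain ⟨fa, ca⟩ := a1_bound X hf h1.le a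
  obtain ⟨fb, cb⟩ := a1_bound X hf h1.le b
  have hfac := a1_fac X a b
  have hsub : ∀ v : V, (∃ w : V, (X ^ (a + b)) w = 0 ∧ (X ^ a) w = v) → (X ^ b) v = 0 := by
    rintro v ⟨w, hw, hv⟩
    rw [← hv]
    have : (X ^ (a + b)) w = (X ^ b) ((X ^ a) w) := by
      rw [add_comm, pow_add]
      rfl
    rw [← this, hw]
  have hinj : Function.Injective
      (fun v : {v : V // ∃ w : V, (X ^ (a + b)) w = 0 ∧ (X ^ a) w = v} =>
        (⟨v.1, hsub v.1 v.2⟩ : {v : V // (X ^ b) v = 0})) := by
    intro u v huv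
    exact Subtype.ext (congrArg (fun z : {v : V // (X ^ b) v = 0} => z.1) huv)
  have c1 := Nat.card_le_card_of_injective _ hinj
  have hpow : c ^ (a + b) = c ^ b * c ^ a := by rw [add_comm, pow_add]
  have hca : 0 < c ^ a := Nat.pow_pos (by omega)
  have key : c ^ b ≤ Nat.card {v : V // ∃ w : V, (X ^ (a + b)) w = 0 ∧ (X ^ a) w = v} := by
    have : c ^ b * c ^ a ≤
        Nat.card {v : V // ∃ w : V, (X ^ (a + b)) w = 0 ∧ (X ^ a) w = v} * c ^ a := by
      rw [← hpow]
      refine h2.trans ?_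
      rw [hfac]
      exact Nat.mul_le_mul_left _ ca
    exact Nat.le_of_mul_le_mul_right this hca
  have e : Nat.card {v : V // (X ^ b) v = 0} = c ^ b := le_antisymm cb (key.trans c1)
  refine ⟨e, ?_⟩
  have hbij : Function.Bijective
      (fun v : {v : V // ∃ w : V, (X ^ (a + b)) w = 0 ∧ (X ^ a) w = v} =>
        (⟨v.1, hsub v.1 v.2⟩ : {v : V // (X ^ b) v = 0})) := by
    have f1 : Finite {v : V // ∃ w : V, (X ^ (a + b)) w = 0 ∧ (X ^ a) w = v} :=
      Finite.of_injective _ hinj
    refine (Nat.bijective_iff_injective_and_card _).2 ⟨hinj, ?_⟩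
    exact le_antisymm c1 (by rw [e]; exact key)
  intro v hv
  obtain ⟨⟨u, hu⟩, huv⟩ := hbij.2 ⟨v, hv⟩
  have : u = v := congrArg (fun z : {v : V // (X ^ b) v = 0} => z.1) huv
  rw [← this]
  exact hu

/-- Chunk A1 (M). The same with |ker X| <= c only: then |ker X| = c if P >= 1. -/
theorem a1_le {V : Type} [AddCommGroup V] (X : AddMonoid.End V) {c P : ℕ} (hc : 1 ≤ c) (hP : 1 ≤ P)
    (hf : Finite {v : V // X v = 0}) (h1 : Nat.card {v : V // X v = 0} ≤ c) (h2 : c ^ P ≤ Nat.card {v : V // (X ^ P) v = 0}) :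
    Nat.card {v : V // X v = 0} = c := by
  refine le_antisymm h1 ?_
  have h := (a1_bound X hf le_rfl P).2
  exact (Nat.pow_le_pow_iff_left (by omega)).1 (h2.trans h)

end H35K
end

-- from Lib.H35K.A2
section

/-! # H35K, chunk A2 (M/L): the local lemma modulo p -/

namespace H35K

/-- Chunk A2a (S/M). A finite module killed by p over O, O/p a field with q elements, has q^d elements. PROOF: it is a vector space over the field O/p
(Module.IsTorsionBySet.module or Module.toQuotient...; or induction on the cardinality: for v <> 0 the map O/p -> V, a -> a v is injective since p generates a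
maximal ideal, so O v has q elements, and V/(O v) is smaller). -/
theorem a2_card {O : Type} [CommRing O] {p q : ℕ} (hmax : (Ideal.span {(p : O)}).IsMaximal)
    (hq : Nat.card (O ⧸ Ideal.span {(p : O)}) = q) {V : Type} [AddCommGroup V] [Module O V] [Finite V]
    (hp : ∀ v : V, (p : O) • v = 0) : ∃ d : ℕ, Nat.card V = q ^ d := by
  have htor : Module.IsTorsionBySet O V (Ideal.span {(p : O)} : Set O) := by
    intro v a
    obtain ⟨a, ha⟩ := a
    obtain ⟨c, rfl⟩ := Ideal.mem_span_singleton'.mp ha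
    show (c * (p : O)) • v = 0
    rw [mul_smul, hp v, smul_zero]
  letI : Module (O ⧸ Ideal.span {(p : O)}) V := htor.module
  letI : Field (O ⧸ Ideal.span {(p : O)}) := Ideal.Quotient.field _
  haveI : Module.Finite (O ⧸ Ideal.span {(p : O)}) V := Module.Finite.of_finite
  refine ⟨Module.finrank (O ⧸ Ideal.span {(p : O)}) V, ?_⟩
  rw [← hq]
  exact Module.natCard_eq_pow_finrank

theorem a2_first {A B : Type} [AddCommGroup A] [AddCommGroup B] (f : A →+ B) :
    Nat.card A = Nat.card f.range * Nat.card f.ker := by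
  rw [AddSubgroup.card_eq_card_quotient_mul_card_addSubgroup f.ker,
    Nat.card_congr (QuotientAddGroup.quotientKerEquivRange f).toEquiv]

theorem a2_sub {O V : Type} [CommRing O] [AddCommGroup V] [Module O V] (N : Submodule O V) (X : V →ₗ[O] V) :
    Nat.card N = Nat.card (N.map X) * Nat.card (N ⊓ LinearMap.ker X : Submodule O V) := by
  have h := a2_first (X.comp N.subtype).toAddMonoidHom
  rw [h]
  congr 1
  · refine Nat.card_congr (Equiv.setCongr ?_)
    ext v
    constructor
    · rintro ⟨n, hn⟩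
      exact ⟨n, n.2, hn⟩
    · rintro ⟨n, hn, hv⟩
      exact ⟨⟨n, hn⟩, hv⟩
  · refine Nat.card_congr ⟨fun n => ⟨n.1.1, n.1.2, n.2⟩, fun v => ⟨⟨v.1, v.2.1⟩, v.2.2⟩, fun _ => rfl, fun _ => rfl⟩

/-- the underlying additive endomorphism -/
def a2_toEnd {O V : Type} [CommRing O] [AddCommGroup V] [Module O V] (X : V →ₗ[O] V) : AddMonoid.End V :=
  X.toAddMonoidHom

theorem a2_end {O V : Type} [CommRing O] [AddCommGroup V] [Module O V] (X : V →ₗ[O] V) (n : ℕ) (v : V) :
    (a2_toEnd X ^ n) v = (X ^ n) v := by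
  induction n generalizing v with
  | zero => rfl
  | succ n ih =>
    rw [pow_succ, pow_succ]
    show (a2_toEnd X ^ n) (X v) = (X ^ n) (X v)
    exact ih (X v)

/-- Chunk A2 (M/L). V a module killed by p over O with an endomorphism X, |ker X| <= q^2, E in ker X^P a submodule stable under X with q^P
elements, X^s E = E0 with q elements, X E0 = 0, s + J + 1 = P, 2 J + 1 <= P. Then X^(P-J) w is in E for w in ker X^P, and X^s r in E implies
X^(P-1) r in E0.
PROOF. E_j := X^j E cap ker X, a submodule of ker X, so |E_j| is 1, q or q^2 (a2_card), decreasing in j (X E in E). |X^j E| = |E_j| |X^(j+1) E| (first isomorphism theorem for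
X on X^j E). X^s E = E0 is in ker X: E_s = E0, |E_s| = q, |X^(s+1) E| = 1. So the product of |E_j|, 0 <= j <= s, is |E| = q^P = q^(s+1+J), all factors are q or q^2, and
decreasing: exactly J factors are q^2, those with j < J; for J <= j <= s: |E_j| = q and E_s in E_j, so E_j = E0.
(P2) e = X^s r in E, X^(P-1) r = X^J e (P - 1 = s + J), X (X^J e) = X^P r = 0, so it lies in X^J E cap ker X = E_J = E0 (J <= s).
(P1) |E cap ker X^J| = |E|/|X^J E| = product of |E_j|, j < J, = q^(2J) >= |ker X^J| (a1_bound with c = q^2), so ker X^J is contained in E, and X^(P-J) w is in ker X^J. -/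
theorem a2 {O : Type} [CommRing O] {p q : ℕ} (hmax : (Ideal.span {(p : O)}).IsMaximal)
    (hq : Nat.card (O ⧸ Ideal.span {(p : O)}) = q) (hq2 : 2 ≤ q) {V : Type} [AddCommGroup V] [Module O V]
    (hp : ∀ v : V, (p : O) • v = 0) (X : V →ₗ[O] V) {P J s : ℕ} (hs : s + J + 1 = P) (hJ : 2 * J + 1 ≤ P)
    (hf : Finite {v : V // X v = 0}) (h1 : Nat.card {v : V // X v = 0} ≤ q ^ 2)
    (E E0 : Submodule O V) (hE : ∀ e ∈ E, X e ∈ E) (hE' : ∀ e ∈ E, (X ^ P) e = 0)
    (hEc : Nat.card E = q ^ P) (hEs : E.map (X ^ s) = E0) (hE0 : Nat.card E0 = q) (hE0' : ∀ e ∈ E0, X e = 0) :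
    (∀ w : V, (X ^ P) w = 0 → (X ^ (P - J)) w ∈ E) ∧
      ∀ r : V, (X ^ P) r = 0 → (X ^ s) r ∈ E → (X ^ (P - 1)) r ∈ E0 := by
  have hqpos : 0 < q := by omega
  have hEfin : Finite E := by
    refine Nat.finite_of_card_ne_zero ?_
    rw [hEc]
    positivity
  have hEfin' : (E : Set V).Finite := Set.toFinite _
  -- the chain
  let N : ℕ → Submodule O V := fun j => E.map (X ^ j)
  let F : ℕ → Submodule O V := fun j => N j ⊓ LinearMap.ker X
  have hNsucc : ∀ j, (N j).map X = N (j + 1) := by
    intro j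
    show (E.map (X ^ j)).map X = E.map (X ^ (j + 1))
    rw [← Submodule.map_comp]
    congr 1
    rw [pow_succ']
    rfl
  have hNle : ∀ j, N (j + 1) ≤ N j := by
    rintro j v ⟨e, he, rfl⟩
    refine ⟨X e, hE e he, ?_⟩
    rw [pow_succ]
    rfl
  have hN0 : N 0 = E := by
    show E.map (X ^ 0) = E
    ext v
    constructor
    · rintro ⟨e, he, rfl⟩
      exact he
    · intro hv
      exact ⟨v, hv, rfl⟩
  have hNE : ∀ j, N j ≤ E := by
    intro j
    induction j with
    | zero => exact hN0.le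
    | succ j ih => exact (hNle j).trans ih
  have hNfin : ∀ j, Finite (N j) := fun j => (hEfin'.subset (hNE j)).to_subtype
  have hFfin : ∀ j, Finite (F j) := fun j => (hEfin'.subset (inf_le_left.trans (hNE j))).to_subtype
  have hcard : ∀ j, Nat.card (N j) = Nat.card (N (j + 1)) * Nat.card (F j) := by
    intro j
    rw [a2_sub (N j) X, hNsucc]
  have hFd : ∀ j, ∃ d : ℕ, Nat.card (F j) = q ^ d := by
    intro j
    haveI := hFfin j
    exact a2_card hmax hq (V := F j) (fun v => Subtype.ext (hp v.1))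
  choose d hd using hFd
  have hFle : ∀ j, F (j + 1) ≤ F j := fun j => inf_le_inf_right _ (hNle j)
  have hqinj : ∀ a b : ℕ, q ^ a ≤ q ^ b → a ≤ b := fun a b h => (Nat.pow_le_pow_iff_right (by omega)).mp h
  have hdle : ∀ j, d (j + 1) ≤ d j := by
    intro j
    refine hqinj _ _ ?_
    rw [← hd, ← hd]
    haveI := hFfin j
    exact Nat.card_mono (Set.toFinite _) (hFle j)
  have hanti : Antitone d := antitone_nat_of_succ_le hdle
  have hker : Finite {v : V // X v = 0} := hf
  have hd2 : ∀ j, d j ≤ 2 := by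
    intro j
    refine hqinj _ _ ?_
    rw [← hd]
    refine le_trans ?_ h1
    exact Nat.card_mono (s := (F j : Set V)) (t := {v : V | X v = 0}) (@Set.toFinite V {v : V | X v = 0} hker)
      (fun v hv => hv.2)
  have hNs : N s = E0 := hEs
  have hFs : F s = E0 := by
    show N s ⊓ LinearMap.ker X = E0
    rw [hNs]
    exact inf_eq_left.mpr fun e he => hE0' e he
  have hds : d s = 1 := by
    have : q ^ d s = q ^ 1 := by rw [← hd, hFs, hE0, pow_one]
    exact Nat.pow_right_injective (by omega) this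
  have hNs1 : Nat.card (N (s + 1)) = 1 := by
    have h3 : N (s + 1) = ⊥ := by
      rw [← hNsucc, hNs]
      rw [eq_bot_iff]
      rintro v ⟨e, he, rfl⟩
      exact (Submodule.mem_bot O).mpr (hE0' e he)
    rw [h3]
    simp
  have hprod : ∀ j, Nat.card E = q ^ (∑ i ∈ Finset.range j, d i) * Nat.card (N j) := by
    intro j
    induction j with
    | zero => simp [hN0]
    | succ j ih =>
      rw [ih, hcard j, hd, Finset.sum_range_succ, pow_add]
      ring
  have hsum : ∑ i ∈ Finset.range (s + 1), d i = P := by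
    have h3 := hprod (s + 1)
    rw [hNs1, mul_one, hEc] at h3
    exact (Nat.pow_right_injective (by omega) h3).symm
  have hd1 : ∀ j ≤ s, 1 ≤ d j := fun j hj => by
    rw [← hds]
    exact hanti hj
  have hJs : J ≤ s := by omega
  -- the exponents
  have hlow : ∀ j < J, d j = 2 := by
    intro j hj
    by_contra hne
    have hj1 : d j ≤ 1 := by
      have := hd2 j
      omega
    have hb : ∑ i ∈ Finset.range (s + 1), d i ≤ ∑ i ∈ Finset.range (s + 1), (if i < j then 2 else 1) := by
      refine Finset.sum_le_sum fun i _ => ?_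
      split_ifs with hi
      · exact hd2 i
      · exact (hanti (not_lt.mp hi)).trans hj1
    have hc : ∑ i ∈ Finset.range (s + 1), (if i < j then 2 else 1) = s + 1 + j := by
      have : ∀ n, j ≤ n → ∑ i ∈ Finset.range n, (if i < j then 2 else 1) = n + j := by
        intro n hn
        induction n, hn using Nat.le_induction with
        | base =>
          rw [Finset.sum_congr rfl (g := fun _ => 2) (fun i hi => by
            rw [if_pos (Finset.mem_range.mp hi)])]
          simp
          omega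
        | succ n hn ih =>
          rw [Finset.sum_range_succ, ih, if_neg (by omega)]
          omega
      rw [this (s + 1) (by omega)]
    omega
  have hhigh : ∀ j, J ≤ j → j ≤ s → d j = 1 := by
    intro j hj hjs
    by_contra hne
    have hj1 : 2 ≤ d j := by
      have := hd1 j hjs
      omega
    have hb : ∑ i ∈ Finset.range (s + 1), (if i < j + 1 then 2 else 1) ≤ ∑ i ∈ Finset.range (s + 1), d i := by
      refine Finset.sum_le_sum fun i hi => ?_
      split_ifs with hi'
      · exact hj1.trans (hanti (by omega))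
      · exact hd1 i (by have := Finset.mem_range.mp hi; omega)
    have hc : ∑ i ∈ Finset.range (s + 1), (if i < j + 1 then 2 else 1) = s + 1 + (j + 1) := by
      have : ∀ n, j + 1 ≤ n → ∑ i ∈ Finset.range n, (if i < j + 1 then 2 else 1) = n + (j + 1) := by
        intro n hn
        induction n, hn using Nat.le_induction with
        | base =>
          rw [Finset.sum_congr rfl (g := fun _ => 2) (fun i hi => by
            rw [if_pos (Finset.mem_range.mp hi)])]
          simp
          omega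
        | succ n hn ih =>
          rw [Finset.sum_range_succ, ih, if_neg (by omega)]
          omega
      rw [this (s + 1) (by omega)]
    omega
  have hFJ : F J = E0 := by
    have hle : E0 ≤ F J := by
      rw [← hFs]
      exact antitone_nat_of_succ_le hFle hJs
    haveI := hFfin J
    refine (SetLike.coe_injective (Set.eq_of_subset_of_ncard_le hle ?_ (Set.toFinite _))).symm
    have e1 : (F J : Set V).ncard = q := by
      have h4 : Nat.card (F J) = q := by rw [hd, hhigh J le_rfl hJs, pow_one]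
      exact h4
    have e2 : (E0 : Set V).ncard = q := hE0
    rw [e1, e2]
  constructor
  · -- P1
    have hNJ : Nat.card E = q ^ (2 * J) * Nat.card (N J) := by
      rw [hprod J, Finset.sum_congr rfl (g := fun _ => 2) (fun i hi => hlow i (Finset.mem_range.mp hi))]
      simp [mul_comm]
    have hK : Nat.card (E ⊓ LinearMap.ker (X ^ J) : Submodule O V) = q ^ (2 * J) := by
      have h3 := a2_sub E (X ^ J)
      have h4 : Nat.card (E.map (X ^ J)) = Nat.card (N J) := rfl
      rw [h4, hNJ, mul_comm] at h3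
      haveI := hNfin J
      have hpos : 0 < Nat.card (N J) := Nat.card_pos
      exact (Nat.eq_of_mul_eq_mul_left hpos h3).symm
    obtain ⟨hAf, hA⟩ := a1_bound (a2_toEnd X) (c := q ^ 2) hf h1 J
    have hAe : {v : V // ((a2_toEnd X) ^ J) v = 0} ≃ {v : V // (X ^ J) v = 0} := by
      refine Equiv.subtypeEquivRight fun v => ?_
      rw [a2_end X J v]
    have hA' : Nat.card {v : V // (X ^ J) v = 0} ≤ q ^ (2 * J) := by
      rw [pow_mul, ← Nat.card_congr hAe]
      exact hA
    have hfinK : ({v : V | (X ^ J) v = 0} : Set V).Finite := by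
      have : Finite {v : V // (X ^ J) v = 0} := Finite.of_equiv _ hAe
      exact @Set.toFinite V {v : V | (X ^ J) v = 0} this
    have heq : ((E ⊓ LinearMap.ker (X ^ J) : Submodule O V) : Set V) = {v : V | (X ^ J) v = 0} := by
      refine Set.eq_of_subset_of_ncard_le (fun v hv => hv.2) ?_ hfinK
      have e1 : ({v : V | (X ^ J) v = 0} : Set V).ncard ≤ q ^ (2 * J) := hA'
      have e2 : ((E ⊓ LinearMap.ker (X ^ J) : Submodule O V) : Set V).ncard = q ^ (2 * J) := hK
      rw [e2]
      exact e1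
    intro w hw
    have hw' : (X ^ (P - J)) w ∈ ({v : V | (X ^ J) v = 0} : Set V) := by
      show (X ^ J) ((X ^ (P - J)) w) = 0
      rw [← Module.End.mul_apply, ← pow_add, show J + (P - J) = P by omega]
      exact hw
    rw [← heq] at hw'
    exact hw'.1
  · intro r hr he
    have h3 : (X ^ (P - 1)) r = (X ^ J) ((X ^ s) r) := by
      rw [← Module.End.mul_apply, ← pow_add, show J + s = P - 1 by omega]
    rw [← hFJ]
    refine ⟨?_, ?_⟩
    · rw [h3]
      exact ⟨(X ^ s) r, he, rfl⟩
    · show X ((X ^ (P - 1)) r) = 0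
      rw [← Module.End.mul_apply, ← pow_succ', show P - 1 + 1 = P by omega]
      exact hr

end H35K
end
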