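import Mathlib
import Pool.Agent.Lib.H1M.PP2.M012
import Pool.Agent.Lib.H1M.PP2.M013

/-! Merged copies (to shorten the build) of Lib.H16S.LB, Lib.H16S.M1, Lib.H16S.M2, Lib.H16S.M5, Lib.H16S.M3, Lib.H16S.M6, Lib.H16S.M7, Lib.H16S.M8, Lib.H16S.M9, Lib.H16S.M10. -/

-- from Lib.H16S.LB
section

/-! # H16S, chunk LB (M): traces in the tower -/

namespace H16S

variable {p : ℕ} {L : Type} [NormedField L] [IsUltrametricDist L] {H : ℕ → Subfield L} {g : RingAut L} {π : ℕ → L}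
  {r : Fin (p ^ 2) → L}

theorem lbx_sum_le {ι : Type} (S : Finset ι) (f : ι → L) {B : ℝ} (hB : 0 ≤ B) (h : ∀ i ∈ S, ‖f i‖ ≤ B) :
    ‖∑ i ∈ S, f i‖ ≤ B := by
  classical
  induction S using Finset.induction_on with
  | empty => rw [Finset.sum_empty, norm_zero]; exact hB
  | insert a s ha ih =>
    rw [Finset.sum_insert ha]
    exact (IsUltrametricDist.norm_add_le_max _ _).trans
      (max_le (h a (Finset.mem_insert_self a s)) (ih fun i hi => h i (Finset.mem_insert_of_mem hi)))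

theorem lbx_sum_lt {ι : Type} (S : Finset ι) (f : ι → L) {B : ℝ} (hB : 0 < B) (h : ∀ i ∈ S, ‖f i‖ < B) :
    ‖∑ i ∈ S, f i‖ < B := by
  classical
  induction S using Finset.induction_on with
  | empty => rw [Finset.sum_empty, norm_zero]; exact hB
  | insert a s ha ih =>
    rw [Finset.sum_insert ha]
    exact (IsUltrametricDist.norm_add_le_max _ _).trans_lt
      (max_lt (h a (Finset.mem_insert_self a s)) (ih fun i hi => h i (Finset.mem_insert_of_mem hi)))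

theorem lbx_mono (T : Twr p H g π r) {m n : ℕ} (h : m ≤ n) : H m ≤ H n :=
  monotone_nat_of_le_succ T.mono h

/-- Chunk LB (S). The trace is additive and linear over H 0. -/
theorem lb_add (T : Twr p H g π r) (n : ℕ) (x y : L) : trc p g n (x + y) = trc p g n x + trc p g n y ∧
    trc p g n (x - y) = trc p g n x - trc p g n y ∧ ∀ c ∈ H 0, trc p g n (c * x) = c * trc p g n x := by
  refine ⟨?_, ?_, fun c hc => ?_⟩
  · unfold trc
    rw [← Finset.sum_add_distrib]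
    exact Finset.sum_congr rfl fun i _ => map_add _ _ _
  · unfold trc
    rw [← Finset.sum_sub_distrib]
    exact Finset.sum_congr rfl fun i _ => map_sub _ _ _
  · unfold trc
    rw [Finset.mul_sum]
    refine Finset.sum_congr rfl fun i _ => ?_
    rw [map_mul, (la_g T (i * p ^ n)).2.2 c hc]

/-- Chunk LB (S). A trivial bound. -/
theorem lb_le (T : Twr p H g π r) (n : ℕ) (x : L) : ‖trc p g n x‖ ≤ ‖x‖ := by
  unfold trc
  exact lbx_sum_le _ _ (norm_nonneg x) fun i _ => ((la_g T (i * p ^ n)).1 x).le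

theorem lbx_trc_sum (T : Twr p H g π r) (n : ℕ) {ι : Type} (S : Finset ι) (f : ι → L) :
    trc p g n (∑ i ∈ S, f i) = ∑ i ∈ S, trc p g n (f i) := by
  unfold trc
  rw [Finset.sum_comm]
  exact Finset.sum_congr rfl fun i _ => map_sum _ _ _


/-- Chunk LB (M). The trace of integral elements is divisible by p. PROOF. c = 1 first: la_exp with l = 0, m = p^(n+1): x = sum of r π^j + δ, ‖δ‖ ≤ ‖p‖; lb_add, T.tr0, lb_le. In general apply it to x/c (c ≠ 0; for c = 0 both sides are 0). -/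
theorem lb_tr (T : Twr p H g π r) {n : ℕ} {x : L} (hx : x ∈ H (n + 1)) {c : L} (hc : c ∈ H 0) (h : ‖x‖ ≤ ‖c‖) :
    ‖trc p g n x‖ ≤ ‖(p : L)‖ * ‖c‖ := by
  by_cases h0 : c = 0
  · rw [h0, norm_zero] at h
    have hx0 : x = 0 := norm_le_zero_iff.1 h
    rw [hx0, h0, norm_zero, mul_zero]
    exact (lb_le T n 0).trans (norm_zero (E := L)).le
  · have hc' : 0 < ‖c‖ := norm_pos_iff.2 h0
    have hx' : x / c ∈ H (n + 1) := Subfield.div_mem _ hx (lbx_mono T (Nat.zero_le _) hc)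
    have hn : ‖x / c‖ ≤ ‖π (n + 1)‖ ^ 0 := by
      rw [pow_zero, norm_div]
      exact (div_le_one hc').2 h
    obtain ⟨d, hd⟩ := la_exp T hx' (Nat.zero_le (p ^ (n + 1))) hn
    rw [T.piv] at hd
    have h1 : ‖trc p g n (x / c)‖ ≤ ‖(p : L)‖ := by
      have h2 : trc p g n (x / c) = trc p g n (x / c - ∑ j ∈ Finset.Ico 0 (p ^ (n + 1)), r (d j) * π (n + 1) ^ j) +
          ∑ j ∈ Finset.Ico 0 (p ^ (n + 1)), r (d j) * trc p g n (π (n + 1) ^ j) := by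
        rw [(lb_add T n _ _).2.1, lbx_trc_sum T]
        have h3 : ∀ j ∈ Finset.Ico 0 (p ^ (n + 1)), trc p g n (r (d j) * π (n + 1) ^ j) =
            r (d j) * trc p g n (π (n + 1) ^ j) := fun j _ => (lb_add T n _ 0).2.2 _ (T.rH (d j)).1
        rw [Finset.sum_congr rfl h3]
        ring
      rw [h2]
      refine (IsUltrametricDist.norm_add_le_max _ _).trans (max_le ((lb_le T n _).trans hd) ?_)
      refine lbx_sum_le _ _ (norm_nonneg _) fun j _ => ?_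
      rw [norm_mul]
      have h4 := mul_le_mul (T.rH (d j)).2 (T.tr0 n j) (norm_nonneg _) zero_le_one
      rwa [one_mul] at h4
    have h2 : x = c * (x / c) := by
      field_simp
    rw [h2, (lb_add T n _ 0).2.2 c hc, norm_mul, mul_comm]
    exact mul_le_mul_of_nonneg_right h1 (norm_nonneg _)

/-- Chunk LB (M). PROOF. As lb_tr with l = 2, m = p^(n+1) + 1 (‖π‖^m < ‖p‖) and T.tr2. -/
theorem lb_tr2 (T : Twr p H g π r) {n : ℕ} {x : L} (hx : x ∈ H (n + 1)) {c : L} (hc : c ∈ H 0) (h0 : c ≠ 0)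
    (h : ‖x‖ ≤ ‖c‖ * ‖π (n + 1)‖ ^ 2) : ‖trc p g n x‖ < ‖(p : L)‖ * ‖c‖ := by
  have hc' : 0 < ‖c‖ := norm_pos_iff.2 h0
  have hp0 : 0 < ‖(p : L)‖ := norm_pos_iff.2 T.ne
  have hx' : x / c ∈ H (n + 1) := Subfield.div_mem _ hx (lbx_mono T (Nat.zero_le _) hc)
  have hn : ‖x / c‖ ≤ ‖π (n + 1)‖ ^ 2 := by
    rw [norm_div, div_le_iff₀ hc', mul_comm]
    exact h
  have hp1 : 1 ≤ p ^ (n + 1) := Nat.one_le_pow _ _ T.pr.pos
  obtain ⟨d, hd⟩ := la_exp T hx' (show 2 ≤ p ^ (n + 1) + 1 by omega) hn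
  rw [pow_succ ‖π (n + 1)‖, T.piv] at hd
  have hd' : ‖x / c - ∑ j ∈ Finset.Ico 2 (p ^ (n + 1) + 1), r (d j) * π (n + 1) ^ j‖ < ‖(p : L)‖ := by
    refine hd.trans_lt ?_
    have h1 := (la_pos T (n + 1)).2
    nlinarith
  have h1 : ‖trc p g n (x / c)‖ < ‖(p : L)‖ := by
    have h2 : trc p g n (x / c) = trc p g n (x / c - ∑ j ∈ Finset.Ico 2 (p ^ (n + 1) + 1), r (d j) * π (n + 1) ^ j) +
        ∑ j ∈ Finset.Ico 2 (p ^ (n + 1) + 1), r (d j) * trc p g n (π (n + 1) ^ j) := by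
      rw [(lb_add T n _ _).2.1, lbx_trc_sum T]
      have h3 : ∀ j ∈ Finset.Ico 2 (p ^ (n + 1) + 1), trc p g n (r (d j) * π (n + 1) ^ j) =
          r (d j) * trc p g n (π (n + 1) ^ j) := fun j _ => (lb_add T n _ 0).2.2 _ (T.rH (d j)).1
      rw [Finset.sum_congr rfl h3]
      ring
    rw [h2]
    refine (IsUltrametricDist.norm_add_le_max _ _).trans_lt (max_lt ((lb_le T n _).trans_lt hd') ?_)
    refine lbx_sum_lt _ _ hp0 fun j hj => ?_
    rw [norm_mul]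
    have h4 := mul_le_mul_of_nonneg_right (T.rH (d j)).2 (norm_nonneg (trc p g n (π (n + 1) ^ j)))
    rw [one_mul] at h4
    exact h4.trans_lt (T.tr2 n j (Finset.mem_Ico.1 hj).1)
  have h2 : x = c * (x / c) := by
    field_simp
  rw [h2, (lb_add T n _ 0).2.2 c hc, norm_mul, mul_comm]
  exact mul_lt_mul_of_pos_right h1 hc'

/-- Chunk LB (S/M). x = r_i π + (small): Tr x = r_i Tr π + .. = - r_i p + ..: T.tr1, lb_tr2 with c = 1. -/
theorem lb_lead (T : Twr p H g π r) {n : ℕ} {x : L} (hx : x ∈ H (n + 1)) {i : Fin (p ^ 2)}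
    (h : ‖x - r i * π (n + 1)‖ ≤ ‖π (n + 1)‖ ^ 2) : ‖trc p g n x + r i * p‖ < ‖(p : L)‖ := by
  have he : x - r i * π (n + 1) ∈ H (n + 1) :=
    Subfield.sub_mem _ hx (Subfield.mul_mem _ (lbx_mono T (Nat.zero_le _) (T.rH i).1) (T.piH (n + 1)))
  have h1 : ‖trc p g n (x - r i * π (n + 1))‖ < ‖(p : L)‖ := by
    have h2 := lb_tr2 T he (Subfield.one_mem (H 0)) one_ne_zero (by rw [norm_one, one_mul]; exact h)
    rwa [norm_one, mul_one] at h2
  have h2 : trc p g n x + r i * p = trc p g n (x - r i * π (n + 1)) +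
      r i * (trc p g n (π (n + 1)) + p) := by
    rw [(lb_add T n _ _).2.1, (lb_add T n (π (n + 1)) 0).2.2 _ (T.rH i).1]
    ring
  rw [h2]
  refine (IsUltrametricDist.norm_add_le_max _ _).trans_lt (max_lt h1 ?_)
  rw [norm_mul]
  have h4 := mul_le_mul_of_nonneg_right (T.rH i).2 (norm_nonneg (trc p g n (π (n + 1)) + p))
  rw [one_mul] at h4
  exact h4.trans_lt (T.tr1 n)

end H16S
end

-- from Lib.H16S.M1
section

/-! # H16S, chunk M1 (M): the group of points, basic estimates -/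

namespace H16S

variable {p : ℕ} {L : Type} [NormedField L] [IsUltrametricDist L] {H : ℕ → Subfield L} {g : RingAut L} {π : ℕ → L}
  {r : Fin (p ^ 2) → L} {G : Type} [AddCommGroup G] {t : G → L} {γ : AddMonoid.End G} {E : ℕ → AddSubgroup G}
  {al : Fin (p ^ 2) → AddMonoid.End G}

/-- Chunk M1 (S/M). t is an isometry for differences: F.sub and ‖t P‖, ‖t Q‖ < 1 (if t P ≠ t Q the right side of F.sub is smaller than ‖t P - t Q‖; if t P = t Q then t (P - Q) = 0). In particular t is injective. -/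
theorem m1_iso (F : Fgp p H g r t γ E al) (P Q : G) : ‖t (P - Q)‖ = ‖t P - t Q‖ := by
  have h := F.sub P Q
  by_cases h0 : t P - t Q = 0
  · rw [h0, norm_zero, zero_mul] at h
    rw [h0, norm_zero]
    have h1 := le_antisymm h (norm_nonneg _)
    rwa [sub_zero] at h1
  · have hpos : 0 < ‖t P - t Q‖ := norm_pos_iff.2 h0
    have hm : max ‖t P‖ ‖t Q‖ ^ 2 < 1 := by
      apply pow_lt_one₀ (le_max_of_le_left (norm_nonneg _)) _ two_ne_zero
      exact max_lt (F.lt P) (F.lt Q)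
    have h1 : ‖t (P - Q) - (t P - t Q)‖ < ‖t P - t Q‖ :=
      lt_of_le_of_lt h (mul_lt_of_lt_one_right hpos hm)
    have e : t (P - Q) = (t (P - Q) - (t P - t Q)) + (t P - t Q) := by ring
    rw [e, IsUltrametricDist.norm_add_eq_max_of_norm_ne_norm h1.ne, max_eq_right h1.le]

/-- Chunk M1 (S). -/
theorem m1_inj (F : Fgp p H g r t γ E al) {P Q : G} (h : t P = t Q) : P = Q := by
  have h1 := m1_iso F P Q
  rw [h, sub_self, norm_zero, norm_eq_zero, F.zero] at h1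
  exact sub_eq_zero.1 h1

/-- Chunk M1 (S). F.sub with -Q, F.neg. -/
theorem m1_add (F : Fgp p H g r t γ E al) (P Q : G) :
    ‖t (P + Q) - (t P + t Q)‖ ≤ ‖t P + t Q‖ * max ‖t P‖ ‖t Q‖ ^ 2 ∧ ‖t (P + Q)‖ = ‖t P + t Q‖ := by
  have h1 := F.sub P (-Q)
  have h2 := m1_iso F P (-Q)
  rw [F.neg, sub_neg_eq_add, sub_neg_eq_add, norm_neg] at h1
  rw [F.neg, sub_neg_eq_add, sub_neg_eq_add] at h2
  exact ⟨h1, h2⟩

/-- Chunk M1 (S/M). Finite sums: induction on S, m1_add. -/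
theorem m1_sum (F : Fgp p H g r t γ E al) {ι : Type} (S : Finset ι) (f : ι → G) {c : ℝ} (hc : 0 ≤ c)
    (h : ∀ i ∈ S, ‖t (f i)‖ ≤ c) : ‖t (∑ i ∈ S, f i)‖ ≤ c ∧ ‖t (∑ i ∈ S, f i) - ∑ i ∈ S, t (f i)‖ ≤ c ^ 3 := by
  classical
  induction S using Finset.induction_on with
  | empty =>
    rw [Finset.sum_empty, Finset.sum_empty, (F.zero 0).2 rfl, sub_zero, norm_zero]
    exact ⟨hc, by positivity⟩
  | insert a S ha ih =>
    obtain ⟨h1, h2⟩ := ih (fun i hi => h i (Finset.mem_insert_of_mem hi))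
    have h3 := h a (Finset.mem_insert_self a S)
    rw [Finset.sum_insert ha, Finset.sum_insert ha]
    obtain ⟨h4, h5⟩ := m1_add F (f a) (∑ i ∈ S, f i)
    have h6 : ‖t (f a) + t (∑ i ∈ S, f i)‖ ≤ c :=
      (IsUltrametricDist.norm_add_le_max _ _).trans (max_le h3 h1)
    refine ⟨h5.le.trans h6, ?_⟩
    have h7 : ‖t (f a) + t (∑ i ∈ S, f i)‖ * max ‖t (f a)‖ ‖t (∑ i ∈ S, f i)‖ ^ 2 ≤ c ^ 3 := by
      have h8 : max ‖t (f a)‖ ‖t (∑ i ∈ S, f i)‖ ^ 2 ≤ c ^ 2 :=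
        pow_le_pow_left₀ (le_max_of_le_left (norm_nonneg _)) (max_le h3 h1) 2
      calc ‖t (f a) + t (∑ i ∈ S, f i)‖ * max ‖t (f a)‖ ‖t (∑ i ∈ S, f i)‖ ^ 2 ≤ c * c ^ 2 :=
            mul_le_mul h6 h8 (by positivity) hc
        _ = c ^ 3 := by ring
    have e : t (f a + ∑ i ∈ S, f i) - (t (f a) + ∑ i ∈ S, t (f i)) =
        (t (f a + ∑ i ∈ S, f i) - (t (f a) + t (∑ i ∈ S, f i))) +
          (t (∑ i ∈ S, f i) - ∑ i ∈ S, t (f i)) := by ring
    rw [e]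
    exact (IsUltrametricDist.norm_add_le_max _ _).trans (max_le (h4.trans h7) h2)

/-- Chunk M1 (S/M). A perturbation: t(X + D) - t X = t D + small. F.sub for P = X + D, Q = X: ‖t D - (t(X + D) - t X)‖ ≤ ‖t(X + D) - t X‖ max(..)², and ‖t(X + D) - t X‖ = ‖t D‖ (m1_iso). -/
theorem m1_pert (F : Fgp p H g r t γ E al) (X D : G) {c : ℝ} (h1 : ‖t X‖ ≤ c) (h2 : ‖t D‖ ≤ c) :
    ‖t (X + D) - t X - t D‖ ≤ ‖t D‖ * c ^ 2 := by
  have h3 := F.sub (X + D) X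
  have h4 := m1_iso F (X + D) X
  rw [add_sub_cancel_left] at h3 h4
  rw [← h4] at h3
  have h5 : ‖t (X + D)‖ ≤ c := by
    rw [(m1_add F X D).2]
    exact (IsUltrametricDist.norm_add_le_max _ _).trans (max_le h1 h2)
  have h6 : max ‖t (X + D)‖ ‖t X‖ ^ 2 ≤ c ^ 2 :=
    pow_le_pow_left₀ (le_max_of_le_left (norm_nonneg _)) (max_le h5 h1) 2
  rw [norm_sub_rev]
  exact h3.trans (mul_le_mul_of_nonneg_left h6 (norm_nonneg _))

/-- Chunk M1 (S/M). Multiplication by p: F.mul. -/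
theorem m1_mul (hlt : ‖(p : L)‖ < 1) (F : Fgp p H g r t γ E al) (P : G) :
    ‖t (p • P)‖ ≤ max (‖(p : L)‖ * ‖t P‖) (‖t P‖ ^ p ^ 2) := by
  have h := F.mul P
  have e : t (p • P) = (t (p • P) - p * t P + t P ^ p ^ 2) + (p * t P - t P ^ p ^ 2) := by ring
  rw [e]
  refine (IsUltrametricDist.norm_add_le_max _ _).trans (max_le ?_ ?_)
  · refine h.trans (le_max_of_le_left ?_)
    apply mul_le_mul_of_nonneg_left _ (norm_nonneg _)
    rw [sq]
    exact mul_le_of_le_one_right (norm_nonneg _) (F.lt P).le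
  · rw [sub_eq_add_neg]
    refine (IsUltrametricDist.norm_add_le_max _ _).trans ?_
    rw [norm_neg, norm_mul, norm_pow]

/-- Chunk M1 (S). The action of powers of γ. -/
theorem m1_act (F : Fgp p H g r t γ E al) (k : ℕ) (P : G) : t ((γ ^ k) P) = (g ^ k) (t P) := by
  induction k generalizing P with
  | zero => rfl
  | succ k ih =>
    have e1 : (γ ^ (k + 1)) P = (γ ^ k) (γ P) := by
      rw [pow_succ]
      rfl
    have e2 : (g ^ (k + 1)) (t P) = (g ^ k) (g (t P)) := by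
      rw [pow_succ]
      rfl
    rw [e1, e2, ih, F.act]

/-- Chunk M1 (S/M). Levels: E n ≤ E (n+1), γ preserves E n, γ^(p^n) is the identity on E n; a point of E (n+1) fixed by γ^(p^n) lies in E n (T.down); the trace of a point of E (n+1) lies in E n (γ^(p^n) permutes the terms). -/
theorem m1_lev (T : Twr p H g π r) (F : Fgp p H g r t γ E al) (n : ℕ) : E n ≤ E (n + 1) ∧
    (∀ k, ∀ P ∈ E n, (γ ^ k) P ∈ E n) ∧ (∀ P ∈ E n, (γ ^ p ^ n) P = P) ∧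
    (∀ P ∈ E (n + 1), (γ ^ p ^ n) P = P → P ∈ E n) ∧
    (∀ P ∈ E (n + 1), trG p γ n P ∈ E n) ∧ ∀ P ∈ E n, trG p γ n P = p • P := by
  have hpow : ∀ (a b : ℕ) (P : G), (γ ^ a) ((γ ^ b) P) = (γ ^ (a + b)) P := by
    intro a b P
    rw [pow_add]
    rfl
  have h1 : ∀ n, E n ≤ E (n + 1) := by
    intro n P hP
    rw [F.mem] at hP ⊢
    exact T.mono n hP
  have h2 : ∀ n k, ∀ P ∈ E n, (γ ^ k) P ∈ E n := by
    intro n k P hP
    rw [F.mem] at hP ⊢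
    rw [m1_act F]
    exact (la_g T k).2.1 n _ hP
  have h3 : ∀ n, ∀ P ∈ E n, (γ ^ p ^ n) P = P := by
    intro n P hP
    apply m1_inj F
    rw [m1_act F]
    exact T.fix n _ ((F.mem n P).1 hP)
  have h4 : ∀ P ∈ E (n + 1), (γ ^ p ^ n) P = P → P ∈ E n := by
    intro P hP hf
    rw [F.mem]
    apply T.down n _ ((F.mem _ P).1 hP)
    rw [← m1_act F, hf]
  refine ⟨h1 n, h2 n, h3 n, h4, ?_, ?_⟩
  · intro P hP
    apply h4
    · rw [trG]
      exact sum_mem fun i _ => h2 (n + 1) _ P hP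
    · rw [trG, map_sum]
      have e1 : ∀ i ∈ Finset.range p, (γ ^ p ^ n) ((γ ^ (i * p ^ n)) P) = (γ ^ ((i + 1) * p ^ n)) P := by
        intro i _
        rw [hpow]
        congr 2
        ring
      rw [Finset.sum_congr rfl e1]
      have e2 := Finset.sum_range_succ' (fun i => (γ ^ (i * p ^ n)) P) p
      rw [Finset.sum_range_succ] at e2
      have e3 : (γ ^ (p * p ^ n)) P = P := by
        rw [mul_comm, ← pow_succ]
        exact h3 (n + 1) P hP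
      have e4 : (γ ^ (0 * p ^ n)) P = P := by
        rw [zero_mul]
        rfl
      rw [e3, e4] at e2
      exact (add_right_cancel e2).symm
  · intro P hP
    rw [trG]
    have e1 : ∀ i : ℕ, (γ ^ (i * p ^ n)) P = P := by
      intro i
      induction i with
      | zero => rw [zero_mul]; rfl
      | succ i ih =>
        rw [add_mul, one_mul, ← hpow, h3 n P hP, ih]
    rw [Finset.sum_congr rfl fun i _ => e1 i, Finset.sum_const, Finset.card_range]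

end H16S
end

-- from Lib.H16S.M2
section

/-! # H16S, chunk M2 (S/M): no p-torsion -/

namespace H16S

variable {p : ℕ} {L : Type} [NormedField L] [IsUltrametricDist L] {H : ℕ → Subfield L} {g : RingAut L} {π : ℕ → L}
  {r : Fin (p ^ 2) → L} {G : Type} [AddCommGroup G] {t : G → L} {γ : AddMonoid.End G} {E : ℕ → AddSubgroup G}
  {al : Fin (p ^ 2) → AddMonoid.End G}

/-- Chunk M2 (S/M). PROOF. Let P ≠ 0, z = t P ≠ 0, p P = 0: F.mul gives ‖p z - z^(p²)‖ ≤ ‖p‖ ‖z‖² < ‖p z‖, so ‖z‖^(p²) = ‖p‖ ‖z‖, ‖z‖^(p²-1) = ‖p‖. z is in H n: ‖z‖ = ‖π n‖^k (T.val), ‖p‖ = ‖π n‖^(p^n): k (p² - 1) = p^n (‖π n‖ is positive and < 1: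
zpow injective). p² - 1 > 1 is prime to p: impossible. -/
theorem m2 (T : Twr p H g π r) (F : Fgp p H g r t γ E al) {n : ℕ} {P : G} (hP : P ∈ E n) (h : p • P = 0) : P = 0 := by
  by_contra hP0
  have hz : t P ≠ 0 := fun h0 => hP0 ((F.zero P).1 h0)
  have hzH : t P ∈ H n := (F.mem n P).1 hP
  have hzp : 0 < ‖t P‖ := norm_pos_iff.2 hz
  have hz1 := F.lt P
  have hp0 := la_npos T
  obtain ⟨hq0, hq1⟩ := la_pos T n
  have h1 := F.mul P
  rw [h, (F.zero 0).2 rfl, zero_sub] at h1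
  have h2 : ‖-((p : L) * t P) + t P ^ p ^ 2‖ < ‖-((p : L) * t P)‖ := by
    refine lt_of_le_of_lt h1 ?_
    rw [norm_neg, norm_mul]
    apply mul_lt_mul_of_pos_left _ hp0
    rw [sq]
    exact mul_lt_of_lt_one_right hzp hz1
  have h3 : ‖t P ^ p ^ 2‖ = ‖(p : L)‖ * ‖t P‖ := by
    have e : t P ^ p ^ 2 = (-((p : L) * t P) + t P ^ p ^ 2) + (p : L) * t P := by ring
    rw [norm_neg] at h2
    rw [e, IsUltrametricDist.norm_add_eq_max_of_norm_ne_norm h2.ne, max_eq_right h2.le, norm_mul]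
  rw [norm_pow] at h3
  obtain ⟨k, hk⟩ := T.val n _ hzH hz
  have h4 : ‖π n‖ ^ (k * (p : ℤ) ^ 2) = ‖π n‖ ^ ((p : ℤ) ^ n + k) := by
    rw [zpow_add₀ hq0.ne', zpow_mul, ← hk]
    have e1 : ‖t P‖ ^ ((p : ℤ) ^ 2) = ‖t P‖ ^ (p ^ 2) := by
      rw [← zpow_natCast]
      push_cast
      rfl
    have e2 : ‖π n‖ ^ ((p : ℤ) ^ n) = ‖π n‖ ^ (p ^ n) := by
      rw [← zpow_natCast]
      push_cast
      rfl
    rw [e1, e2, h3, T.piv n]
  have h5 : k * (p : ℤ) ^ 2 = (p : ℤ) ^ n + k := zpow_right_injective₀ hq0 hq1.ne h4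
  have h6 : k * ((p : ℤ) ^ 2 - 1) = (p : ℤ) ^ n := by linear_combination h5
  have h7 : IsCoprime ((p : ℤ) ^ 2 - 1) ((p : ℤ) ^ n) := by
    apply IsCoprime.pow_right
    exact ⟨-1, p, by ring⟩
  have h8 : IsUnit ((p : ℤ) ^ 2 - 1) := by
    apply h7.isUnit_of_dvd' dvd_rfl
    exact ⟨k, by rw [← h6]; ring⟩
  have h9 : (5 : ℤ) ≤ p := by exact_mod_cast T.five
  rcases Int.isUnit_iff.1 h8 with h10 | h10 <;> nlinarith


end H16S
end

-- from Lib.H16S.M5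
section

/-! # H16S, chunk M5 (M/L): the trace of a point -/

namespace H16S

variable {p : ℕ} {L : Type} [NormedField L] [IsUltrametricDist L] {H : ℕ → Subfield L} {g : RingAut L} {π : ℕ → L}
  {r : Fin (p ^ 2) → L} {G : Type} [AddCommGroup G] {t : G → L} {γ : AddMonoid.End G} {E : ℕ → AddSubgroup G}
  {al : Fin (p ^ 2) → AddMonoid.End G}

theorem m5_add {p : ℕ} {G : Type} [AddCommGroup G] (γ : AddMonoid.End G) (n : ℕ) (A B : G) :
    trG p γ n (A + B) = trG p γ n A + trG p γ n B := by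
  unfold trG
  rw [← Finset.sum_add_distrib]
  exact Finset.sum_congr rfl fun i _ => map_add _ _ _

theorem m5_smul {p : ℕ} {G : Type} [AddCommGroup G] (γ : AddMonoid.End G) (n m : ℕ) (A : G) :
    trG p γ n (m • A) = m • trG p γ n A := by
  unfold trG
  rw [Finset.smul_sum]
  exact Finset.sum_congr rfl fun i _ => map_nsmul _ _ _

theorem m5_sub {L : Type} [NormedField L] [IsUltrametricDist L] {x y : L} {c : ℝ} (hx : ‖x‖ ≤ c) (hy : ‖y‖ ≤ c) :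
    ‖x - y‖ ≤ c := by
  rw [sub_eq_add_neg]
  exact (IsUltrametricDist.norm_add_le_max _ _).trans (max_le hx (by rwa [norm_neg]))

theorem m5_addle {L : Type} [NormedField L] [IsUltrametricDist L] {x y : L} {c : ℝ} (hx : ‖x‖ ≤ c) (hy : ‖y‖ ≤ c) :
    ‖x + y‖ ≤ c :=
  (IsUltrametricDist.norm_add_le_max _ _).trans (max_le hx hy)

theorem m5_sublt {L : Type} [NormedField L] [IsUltrametricDist L] {x y : L} {c : ℝ} (hx : ‖x‖ < c) (hy : ‖y‖ < c) :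
    ‖x - y‖ < c := by
  rw [sub_eq_add_neg]
  exact (IsUltrametricDist.norm_add_le_max _ _).trans_lt (max_lt hx (by rwa [norm_neg]))

theorem m5_addlt {L : Type} [NormedField L] [IsUltrametricDist L] {x y : L} {c : ℝ} (hx : ‖x‖ < c) (hy : ‖y‖ < c) :
    ‖x + y‖ < c :=
  (IsUltrametricDist.norm_add_le_max _ _).trans_lt (max_lt hx hy)

/-- Chunk M5 (M/L). P of level n + 1, y in H n close to (t P)^p. The trace of P is Q + D with t Q = - y^p, ‖t D‖ ≤ ‖p‖, t D = Tr (t P) modulo something smaller than p.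
PROOF. z = t P, ϖ = π (n+1), ‖z‖ ≤ ‖ϖ‖ (la_step), ‖p‖ = ‖ϖ‖^(p^(n+1)) ≤ ‖ϖ‖^5. ‖y‖ ≤ max (‖z‖^p) ‖p‖ < 1: Q in E n with t Q = - y^p. D₀ = p P - Q in E (n+1). t(p P) = p z - z^(p²) + e, ‖e‖ ≤ ‖p‖ ‖z‖² (F.mul), ‖z^(p²) - y^p‖ ≤ ‖p‖² (lc_diff, z^(p²) = (z^p)^p). So
t(p P) - t Q = p z + e - (z^(p²) - y^p) has norm at most ‖p‖ ‖ϖ‖, and by F.sub t D₀ = p z + e₁, ‖e₁‖ ≤ ‖p‖ ‖ϖ‖² (max (‖t(p P)‖, ‖t Q‖) ≤ ‖ϖ‖). e₁ is in H (n+1): Tr (t D₀) = p Tr z + Tr e₁, ‖Tr e₁‖ < ‖p‖² (lb_tr2, c = p). t(Tr D₀) = Tr(t D₀) + (norm ≤ (‖p‖ ‖ϖ‖)³ < ‖p‖²)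
(m1_sum, m1_act, isometries). So ‖t(Tr D₀) - p Tr z‖ < ‖p‖², ‖t(Tr D₀)‖ ≤ ‖p‖² (lb_tr with c = 1), Tr D₀ in E n (m1_lev): F.div gives D in E n with p D = Tr D₀, ‖t D‖ ≤ ‖p‖; F.mul: ‖t(p D) - p t D‖ ≤ ‖p‖³, so ‖p t D - p Tr z‖ < ‖p‖². Finally p Tr P = Tr(p P) = Tr Q + Tr D₀ = p Q + p D
(m1_lev: Tr Q = p Q), and Tr P = Q + D by m2 in E n. -/
theorem m5 (T : Twr p H g π r) (F : Fgp p H g r t γ E al) {n : ℕ} {P : G} (hP : P ∈ E (n + 1)) {y : L} (hy : y ∈ H n)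
    (h : ‖t P ^ p - y‖ ≤ ‖(p : L)‖) :
    ∃ Q ∈ E n, ∃ D ∈ E n, trG p γ n P = Q + D ∧ t Q = -y ^ p ∧ ‖t D‖ ≤ ‖(p : L)‖ ∧
      ‖t D - trc p g n (t P)‖ < ‖(p : L)‖ := by
  obtain ⟨hϖ0, hϖ1⟩ := la_pos T (n + 1)
  have hp := T.pr
  have h5 := T.five
  set q : ℝ := ‖(p : L)‖ with hq
  have hq1 : q < 1 := T.lt
  have hq0 : 0 < q := norm_pos_iff.mpr T.ne
  set ϖ := π (n + 1) with hϖ
  have hqe : ‖ϖ‖ ^ p ^ (n + 1) = q := T.piv (n + 1)
  have hexp : 5 ≤ p ^ (n + 1) := by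
    calc 5 ≤ p := h5
      _ = p ^ 1 := (pow_one p).symm
      _ ≤ p ^ (n + 1) := Nat.pow_le_pow_right hp.pos (by omega)
  have hq5 : q ≤ ‖ϖ‖ ^ 5 := by
    rw [← hqe]
    exact pow_le_pow_of_le_one hϖ0.le hϖ1.le hexp
  have hq2 : q ≤ ‖ϖ‖ ^ 2 := hq5.trans (pow_le_pow_of_le_one hϖ0.le hϖ1.le (by norm_num))
  have hqϖ : q ≤ ‖ϖ‖ := by
    refine hq5.trans ?_
    calc ‖ϖ‖ ^ 5 ≤ ‖ϖ‖ ^ 1 := pow_le_pow_of_le_one hϖ0.le hϖ1.le (by norm_num)
      _ = ‖ϖ‖ := pow_one _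
  have hstep : ∀ R ∈ E (n + 1), ‖t R‖ ≤ ‖ϖ‖ := by
    intro R hR
    have h1 : ‖t R‖ < ‖ϖ‖ ^ 0 := by rw [pow_zero]; exact F.lt R
    have h2 := la_step T ((F.mem (n + 1) R).mp hR) h1
    rwa [zero_add, pow_one] at h2
  obtain ⟨hmono, -, -, -, htrE, htrp⟩ := m1_lev T F n
  set z := t P with hz
  have hzH : z ∈ H (n + 1) := (F.mem (n + 1) P).mp hP
  have hzϖ : ‖z‖ ≤ ‖ϖ‖ := hstep P hP
  have hz1 : ‖z‖ < 1 := F.lt P
  have hzp : ‖z ^ p‖ < 1 := by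
    rw [norm_pow]
    exact pow_lt_one₀ (norm_nonneg _) hz1 hp.ne_zero
  have hy1 : ‖y‖ < 1 := by
    have e : y = z ^ p - (z ^ p - y) := by ring
    rw [e]
    exact m5_sublt hzp (h.trans_lt hq1)
  have hypH : -y ^ p ∈ H n := (H n).neg_mem ((H n).pow_mem hy p)
  have hyp1 : ‖-y ^ p‖ < 1 := by
    rw [norm_neg, norm_pow]
    exact pow_lt_one₀ (norm_nonneg _) hy1 hp.ne_zero
  obtain ⟨Q, hQ, hQt⟩ := F.surj n _ hypH hyp1
  have hpP : p • P ∈ E (n + 1) := (E (n + 1)).nsmul_mem hP p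
  set D₀ := p • P - Q with hD₀
  have hD₀E : D₀ ∈ E (n + 1) := (E (n + 1)).sub_mem hpP (hmono hQ)
  have hmul := F.mul P
  rw [← hz, ← hq] at hmul
  have he : ‖t (p • P) - p * z + z ^ p ^ 2‖ ≤ q * ‖ϖ‖ ^ 2 :=
    hmul.trans (mul_le_mul_of_nonneg_left (pow_le_pow_left₀ (norm_nonneg _) hzϖ 2) hq0.le)
  have hdiff : ‖z ^ p ^ 2 - y ^ p‖ ≤ q ^ 2 := by
    have h1 := lc_diff hp h5 T.lt hzp.le hy1.le h
    have e : z ^ p ^ 2 = (z ^ p) ^ p := by rw [← pow_mul, sq]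
    rw [e]
    exact h1
  have hq2' : q ^ 2 ≤ q * ‖ϖ‖ ^ 2 := by
    rw [sq]
    exact mul_le_mul_of_nonneg_left hq2 hq0.le
  have hϖ2 : ‖ϖ‖ ^ 2 ≤ ‖ϖ‖ := by
    calc ‖ϖ‖ ^ 2 ≤ ‖ϖ‖ ^ 1 := pow_le_pow_of_le_one hϖ0.le hϖ1.le (by norm_num)
      _ = ‖ϖ‖ := pow_one _
  have hqϖ2 : q * ‖ϖ‖ ^ 2 ≤ q * ‖ϖ‖ := mul_le_mul_of_nonneg_left hϖ2 hq0.le
  have hpz : ‖(p : L) * z‖ ≤ q * ‖ϖ‖ := by
    rw [norm_mul]
    exact mul_le_mul_of_nonneg_left hzϖ hq0.le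
  have hdt : ‖t (p • P) - t Q‖ ≤ q * ‖ϖ‖ := by
    have e : t (p • P) - t Q = p * z + (t (p • P) - p * z + z ^ p ^ 2) - (z ^ p ^ 2 - y ^ p) := by
      rw [hQt]
      ring
    rw [e]
    exact m5_sub (m5_addle hpz (he.trans hqϖ2)) (hdiff.trans (hq2'.trans hqϖ2))
  have hsub : ‖t D₀ - (t (p • P) - t Q)‖ ≤ q * ‖ϖ‖ ^ 2 := by
    refine (F.sub (p • P) Q).trans ?_
    have hm : max ‖t (p • P)‖ ‖t Q‖ ≤ ‖ϖ‖ := max_le (hstep _ hpP) (hstep _ (hmono hQ))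
    have hm0 : 0 ≤ max ‖t (p • P)‖ ‖t Q‖ := le_max_of_le_left (norm_nonneg _)
    calc ‖t (p • P) - t Q‖ * max ‖t (p • P)‖ ‖t Q‖ ^ 2 ≤ (q * ‖ϖ‖) * ‖ϖ‖ ^ 2 :=
          mul_le_mul hdt (pow_le_pow_left₀ hm0 hm 2) (by positivity) (by positivity)
      _ = (q * ‖ϖ‖ ^ 2) * ‖ϖ‖ := by ring
      _ ≤ (q * ‖ϖ‖ ^ 2) * 1 := mul_le_mul_of_nonneg_left hϖ1.le (by positivity)
      _ = q * ‖ϖ‖ ^ 2 := mul_one _
  set e₁ := t D₀ - p * z with he₁
  have he₁n : ‖e₁‖ ≤ q * ‖ϖ‖ ^ 2 := by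
    have e : e₁ = (t D₀ - (t (p • P) - t Q)) + (t (p • P) - p * z + z ^ p ^ 2) - (z ^ p ^ 2 - y ^ p) := by
      rw [he₁, hQt]
      ring
    rw [e]
    exact m5_sub (m5_addle hsub he) (hdiff.trans hq2')
  have hpH0 : (p : L) ∈ H 0 := natCast_mem (H 0) p
  have hpHn : (p : L) ∈ H (n + 1) := natCast_mem (H (n + 1)) p
  have htD₀H : t D₀ ∈ H (n + 1) := (F.mem _ _).mp hD₀E
  have he₁H : e₁ ∈ H (n + 1) := (H (n + 1)).sub_mem htD₀H ((H (n + 1)).mul_mem hpHn hzH)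
  have htr1 : trc p g n (t D₀) = p * trc p g n z + trc p g n e₁ := by
    have e : t D₀ = p * z + e₁ := by rw [he₁]; ring
    rw [e, (lb_add T n _ _).1, (lb_add T n z z).2.2 _ hpH0]
  have htre : ‖trc p g n e₁‖ < q * q := lb_tr2 T he₁H hpH0 T.ne he₁n
  have htDn : ‖t D₀‖ ≤ q * ‖ϖ‖ := by
    have e : t D₀ = p * z + e₁ := by rw [he₁]; ring
    rw [e]
    exact m5_addle hpz (he₁n.trans hqϖ2)
  have hsum := m1_sum F (Finset.range p) (fun i => (γ ^ (i * p ^ n)) D₀) (c := ‖t D₀‖) (norm_nonneg _)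
    (fun i _ => by rw [m1_act F, (la_g T _).1])
  have hsum2 : ‖t (trG p γ n D₀) - trc p g n (t D₀)‖ ≤ ‖t D₀‖ ^ 3 := by
    have e : ∑ i ∈ Finset.range p, t ((γ ^ (i * p ^ n)) D₀) = trc p g n (t D₀) :=
      Finset.sum_congr rfl fun i _ => m1_act F _ _
    rw [← e]
    exact hsum.2
  have hcube : ‖t D₀‖ ^ 3 < q * q := by
    calc ‖t D₀‖ ^ 3 ≤ (q * ‖ϖ‖) ^ 3 := pow_le_pow_left₀ (norm_nonneg _) htDn 3
      _ = (q * q) * (q * ‖ϖ‖ ^ 3) := by ring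
      _ < (q * q) * 1 := by
        refine mul_lt_mul_of_pos_left ?_ (by positivity)
        calc q * ‖ϖ‖ ^ 3 ≤ q * 1 := mul_le_mul_of_nonneg_left (pow_le_one₀ hϖ0.le hϖ1.le) hq0.le
          _ < 1 := by rw [mul_one]; exact hq1
      _ = q * q := mul_one _
  have hmain : ‖t (trG p γ n D₀) - p * trc p g n z‖ < q * q := by
    have e : t (trG p γ n D₀) - p * trc p g n z =
        (t (trG p γ n D₀) - trc p g n (t D₀)) + trc p g n e₁ := by
      rw [htr1]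
      ring
    rw [e]
    exact m5_addlt (hsum2.trans_lt hcube) htre
  have htrz : ‖trc p g n z‖ ≤ q := by
    have h1 := lb_tr T hzH (H 0).one_mem (by rw [norm_one]; exact hz1.le)
    rwa [norm_one, mul_one] at h1
  have hpt : ‖(p : L) * trc p g n z‖ ≤ q * q := by
    rw [norm_mul]
    exact mul_le_mul_of_nonneg_left htrz hq0.le
  have hnT : ‖t (trG p γ n D₀)‖ ≤ q ^ 2 := by
    have e : t (trG p γ n D₀) = (t (trG p γ n D₀) - p * trc p g n z) + p * trc p g n z := by ring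
    rw [e, sq]
    exact m5_addle hmain.le hpt
  obtain ⟨D, hD, hDt, hDp⟩ := F.div n (trG p γ n D₀) (htrE _ hD₀E) hnT
  have hmulD := F.mul D
  rw [← hq] at hmulD
  have hq3 : q ^ 3 < q * q := by
    have : q ^ 3 = (q * q) * q := by ring
    rw [this]
    calc (q * q) * q < (q * q) * 1 := mul_lt_mul_of_pos_left hq1 (by positivity)
      _ = q * q := mul_one _
  have hpD : ‖t (p • D) - p * t D‖ < q * q := by
    have e : t (p • D) - p * t D = (t (p • D) - p * t D + t D ^ p ^ 2) - t D ^ p ^ 2 := by ring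
    rw [e]
    refine m5_sublt (hmulD.trans_lt ?_) ?_
    · calc q * ‖t D‖ ^ 2 ≤ q * q ^ 2 := mul_le_mul_of_nonneg_left (pow_le_pow_left₀ (norm_nonneg _) hDt 2) hq0.le
        _ = q ^ 3 := by ring
        _ < q * q := hq3
    · rw [norm_pow]
      calc ‖t D‖ ^ p ^ 2 ≤ q ^ p ^ 2 := pow_le_pow_left₀ (norm_nonneg _) hDt _
        _ ≤ q ^ 3 := pow_le_pow_of_le_one hq0.le hq1.le (by nlinarith)
        _ < q * q := hq3
  have hfin : ‖t D - trc p g n z‖ < q := by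
    have h1 : ‖(p : L) * (t D - trc p g n z)‖ < q * q := by
      have e : (p : L) * (t D - trc p g n z) = (t (p • D) - p * trc p g n z) - (t (p • D) - p * t D) := by ring
      rw [e]
      refine m5_sublt ?_ hpD
      rw [hDp]
      exact hmain
    rw [norm_mul, ← hq] at h1
    exact lt_of_mul_lt_mul_left h1 hq0.le
  refine ⟨Q, hQ, D, hD, ?_, hQt, hDt, hfin⟩
  have h1 : p • (trG p γ n P - (Q + D)) = 0 := by
    rw [smul_sub, ← m5_smul]
    have e : p • P = Q + D₀ := by rw [hD₀]; abel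
    rw [e, m5_add, htrp Q hQ, ← hDp, smul_add, sub_self]
  have h2 := m2 T F ((E n).sub_mem (htrE P hP) ((E n).add_mem hQ hD)) h1
  exact sub_eq_zero.mp h2

end H16S
end

-- from Lib.H16S.M3
section

/-! # H16S, chunk M3 (M): divisibility by p at the levels 0 and 1 -/

namespace H16S

variable {p : ℕ} {L : Type} [NormedField L] [IsUltrametricDist L] {H : ℕ → Subfield L} {g : RingAut L} {π : ℕ → L}
  {r : Fin (p ^ 2) → L} {G : Type} [AddCommGroup G] {t : G → L} {γ : AddMonoid.End G} {E : ℕ → AddSubgroup G}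
  {al : Fin (p ^ 2) → AddMonoid.End G}

/-- Chunk M3 (S). Level 0: ‖t P‖ ≤ ‖p‖ (la_step with k = 0, ‖π 0‖ = ‖p‖), m1_mul. -/
theorem m3_zero (T : Twr p H g π r) (F : Fgp p H g r t γ E al) {P : G} (hP : P ∈ E 0) :
    ‖t P‖ ≤ ‖(p : L)‖ ∧ ‖t (p • P)‖ ≤ ‖(p : L)‖ ^ 2 := by
  have h1 : ‖t P‖ ≤ ‖(p : L)‖ := by
    have h2 := la_step T ((F.mem 0 P).1 hP) (k := 0) (by rw [pow_zero]; exact F.lt P)
    rw [zero_add, pow_one, (la_succ T 0).2] at h2
    exact h2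
  refine ⟨h1, (m1_mul T.lt F P).trans (max_le ?_ ?_)⟩
  · rw [pow_two]
    exact mul_le_mul_of_nonneg_left h1 (norm_nonneg _)
  · refine (pow_le_pow_left₀ (norm_nonneg _) h1 _).trans ?_
    refine pow_le_pow_of_le_one (norm_nonneg _) T.lt.le ?_
    have := T.five
    nlinarith



omit [IsUltrametricDist L] in
theorem m3x_sub [IsUltrametricDist L] (a b : L) : ‖a - b‖ ≤ max ‖a‖ ‖b‖ := by
  rw [sub_eq_add_neg, ← norm_neg b]
  exact IsUltrametricDist.norm_add_le_max a (-b)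

theorem m3x_div (T : Twr p H g π r) (F : Fgp p H g r t γ E al) (j : ℕ) : ∀ k : ℕ, 1 ≤ k → p ≤ k + j →
    ∀ R ∈ E 1, ‖t R‖ ≤ ‖(p : L)‖ * ‖π 1‖ ^ k → ∃ P ∈ E 1, p • P = R := by
  obtain ⟨hπ0, hπ1⟩ := la_pos T 1
  have hp0 : 0 < ‖(p : L)‖ := norm_pos_iff.2 T.ne
  have hpp : ‖π 1‖ ^ p = ‖(p : L)‖ := by rw [(la_succ T 0).1, (la_succ T 0).2]
  induction j with
  | zero =>
    intro k _ hk R hR h
    obtain ⟨P, hP, -, h2⟩ := F.div 1 R hR (by
      refine h.trans ?_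
      rw [pow_two]
      refine mul_le_mul_of_nonneg_left ?_ hp0.le
      rw [← hpp]
      exact pow_le_pow_of_le_one hπ0.le hπ1.le (by omega))
    exact ⟨P, hP, h2⟩
  | succ j ih =>
    intro k hk1 hk R hR h
    by_cases hkj : p ≤ k + j
    · exact ih k hk1 hkj R hR h
    have htR : t R ∈ H 1 := (F.mem 1 R).1 hR
    have hz : t R / p ∈ H 1 := Subfield.div_mem _ htR (natCast_mem (H 1) p)
    have hzn : ‖t R / p‖ ≤ ‖π 1‖ ^ k := by
      rw [norm_div, div_le_iff₀ hp0, mul_comm]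
      exact h
    have hz1 : ‖t R / p‖ < 1 := hzn.trans_lt (pow_lt_one₀ hπ0.le hπ1 (by omega))
    obtain ⟨P, hP, htP⟩ := F.surj 1 _ hz hz1
    have hPn : ‖t P‖ ≤ ‖π 1‖ ^ k := by rw [htP]; exact hzn
    have hmul := F.mul P
    have hpt : (p : L) * t P = t R := by
      rw [htP]
      field_simp [T.ne]
    rw [hpt] at hmul
    have hb1 : ‖(p : L)‖ * ‖t P‖ ^ 2 ≤ ‖(p : L)‖ * ‖π 1‖ ^ (k + 1) := by
      refine mul_le_mul_of_nonneg_left ?_ hp0.le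
      refine (pow_le_pow_left₀ (norm_nonneg _) hPn 2).trans ?_
      rw [← pow_mul]
      exact pow_le_pow_of_le_one hπ0.le hπ1.le (by omega)
    have hb2 : ‖t P ^ p ^ 2‖ ≤ ‖(p : L)‖ * ‖π 1‖ ^ (k + 1) := by
      rw [norm_pow]
      refine (pow_le_pow_left₀ (norm_nonneg _) hPn _).trans ?_
      rw [← pow_mul, ← hpp, ← pow_add]
      refine pow_le_pow_of_le_one hπ0.le hπ1.le ?_
      have h5 := T.five
      have h6 : p * p = p ^ 2 := by ring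
      rw [← h6]
      have h7 : 5 * p ≤ p * p := Nat.mul_le_mul_right p h5
      have h8 : k * (5 * p) ≤ k * (p * p) := Nat.mul_le_mul_left k h7
      have h9 : k * (5 * p) = p * k + 4 * (p * k) := by ring
      have h10 : p ≤ p * k := Nat.le_mul_of_pos_right p (by omega)
      have h11 : 5 * k ≤ p * k := Nat.mul_le_mul_right k h5
      omega
    have hdiff : ‖t (p • P - R)‖ ≤ ‖(p : L)‖ * ‖π 1‖ ^ (k + 1) := by
      rw [m1_iso F]
      have e : t (p • P) - t R = (t (p • P) - t R + t P ^ p ^ 2) - t P ^ p ^ 2 := by ring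
      rw [e]
      exact (m3x_sub _ _).trans (max_le (hmul.trans hb1) hb2)
    obtain ⟨P', hP', h'⟩ := ih (k + 1) (by omega) (by omega) (p • P - R)
      (AddSubgroup.sub_mem _ (AddSubgroup.nsmul_mem _ hP p) hR) hdiff
    refine ⟨P - P', AddSubgroup.sub_mem _ hP hP', ?_⟩
    rw [nsmul_sub, h']
    abel

/-- Chunk M3 (M). Level 1: the converse. PROOF. Claim for all k ≥ 1: if ‖t R‖ ≤ ‖p‖ ‖π 1‖^k then R is in p E 1; downward induction, for k ≥ p by F.div (‖π 1‖^p = ‖p‖). For 1 ≤ k < p: P in E 1 with t P = t R/p (F.surj), ‖t P‖ ≤ ‖π 1‖^k. By F.mul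
‖t(p P) - t R‖ ≤ max (‖t P‖^(p²)) (‖p‖ ‖t P‖²) ≤ ‖p‖ ‖π 1‖^(k+1) (k p² ≥ p + k + 1), and this is ‖t(p P - R)‖ (m1_iso). Finally ‖t R‖ < ‖p‖ = ‖π 1‖^p gives ‖t R‖ ≤ ‖p‖ ‖π 1‖ (la_step). -/
theorem m3_div (T : Twr p H g π r) (F : Fgp p H g r t γ E al) {R : G} (hR : R ∈ E 1) (h : ‖t R‖ < ‖(p : L)‖) :
    ∃ P ∈ E 1, p • P = R := by
  have hpp : ‖π 1‖ ^ p = ‖(p : L)‖ := by rw [(la_succ T 0).1, (la_succ T 0).2]
  have h1 := la_step T ((F.mem 1 R).1 hR) (k := p) (by rw [hpp]; exact h)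
  rw [pow_succ, hpp] at h1
  exact m3x_div T F p 1 le_rfl (by omega) R hR (by rw [pow_one]; exact h1)

end H16S
end

-- from Lib.H16S.M6
section

/-! # H16S, chunk M6 (M): the traces to the levels 0 and 1 -/

namespace H16S

variable {p : ℕ} {L : Type} [NormedField L] [IsUltrametricDist L] {H : ℕ → Subfield L} {g : RingAut L} {π : ℕ → L}
  {r : Fin (p ^ 2) → L} {G : Type} [AddCommGroup G] {t : G → L} {γ : AddMonoid.End G} {E : ℕ → AddSubgroup G}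
  {al : Fin (p ^ 2) → AddMonoid.End G}


/-- Names for the ultrametric inequality. -/
theorem m6_lt {a b : L} {c : ℝ} (h1 : ‖a‖ < c) (h2 : ‖b‖ < c) : ‖a + b‖ < c :=
  (IsUltrametricDist.norm_add_le_max a b).trans_lt (max_lt h1 h2)


theorem m6_le {a b : L} {c : ℝ} (h1 : ‖a‖ ≤ c) (h2 : ‖b‖ ≤ c) : ‖a + b‖ ≤ c :=
  (IsUltrametricDist.norm_add_le_max a b).trans (max_le h1 h2)


/-- If a - b is smaller than b then a and b have the same norm. -/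
theorem m6_eq {a b : L} (h : ‖a - b‖ < ‖b‖) : ‖a‖ = ‖b‖ := by
  have h1 : a = (a - b) + b := by ring
  rw [h1, IsUltrametricDist.norm_add_eq_max_of_norm_ne_norm h.ne, max_eq_right h.le]

/-- The element y of lc_pow for a point. -/
theorem m6_y (T : Twr p H g π r) {x y : L} {n : ℕ} (hx : ‖x‖ < 1) (hy : y ∈ H n) (h : ‖x ^ p - y‖ ≤ ‖(p : L)‖) :
    ‖y‖ ≤ ‖π n‖ := by
  have h1 : ‖y‖ < 1 := by
    have e : y = -(x ^ p - y) + x ^ p := by ring
    rw [e]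
    refine m6_lt ?_ ?_
    · rw [norm_neg]
      exact h.trans_lt T.lt
    · rw [norm_pow]
      exact pow_lt_one₀ (norm_nonneg _) hx T.pr.ne_zero
  have h2 := la_step T hy (k := 0) (by rw [pow_zero]; exact h1)
  rwa [zero_add, pow_one] at h2

/-- Chunk M6 (S/M). Level 1 to level 0. PROOF. y from lc_pow, ‖y‖ < 1 in H 0, so ‖y‖ ≤ ‖p‖, ‖y^p‖ < ‖p‖. m5: t Q = -y^p, ‖t D‖ ≤ ‖p‖. If ‖t P‖ = ‖π 1‖: t P = r_i π 1 + .., ‖r_i‖ = 1 (la_lead with k = 1), ‖Tr (t P)‖ = ‖p‖ (lb_lead), ‖t D‖ = ‖p‖,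
‖t(Q + D)‖ = ‖t Q + t D‖ = ‖p‖ (m1_add). ‖π 0‖ = ‖p‖. -/
theorem m6_zero (T : Twr p H g π r) (F : Fgp p H g r t γ E al) {P : G} (hP : P ∈ E 1) :
    trG p γ 0 P ∈ E 0 ∧ (‖t P‖ = ‖π 1‖ → ‖t (trG p γ 0 P)‖ = ‖π 0‖) := by
  have hz := (F.mem 1 P).1 hP
  have hz1 := F.lt P
  obtain ⟨y, hy, -, hyp⟩ := lc_pow T (n := 0) hz hz1.le
  have h0 : ‖π 0‖ = ‖(p : L)‖ := (la_succ T 0).2
  have hp0 : 0 < ‖(p : L)‖ := norm_pos_iff.2 T.ne
  have hyle := m6_y T hz1 hy hyp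
  rw [h0] at hyle
  have hyp1 : ‖-y ^ p‖ < ‖(p : L)‖ := by
    rw [norm_neg, norm_pow]
    have h5 := T.five
    calc ‖y‖ ^ p ≤ ‖(p : L)‖ ^ p := pow_le_pow_left₀ (norm_nonneg _) hyle p
      _ < ‖(p : L)‖ ^ 1 := pow_lt_pow_right_of_lt_one₀ hp0 T.lt (by omega)
      _ = ‖(p : L)‖ := pow_one _
  obtain ⟨Q, hQ, D, hD, hS, htQ, htD, hDt⟩ := m5 T F (n := 0) hP hy hyp
  refine ⟨by rw [hS]; exact add_mem hQ hD, fun hP1 => ?_⟩
  obtain ⟨i, hi, hi1⟩ := la_lead T (n := 1) hz (k := 1) (by rw [pow_one]; exact hP1.le)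
  have hri := hi1 (by rw [pow_one]; exact hP1)
  have h3 := lb_lead T (n := 0) hz (i := i) (by rw [pow_one] at hi; exact hi)
  have hrp : ‖-(r i * (p : L))‖ = ‖(p : L)‖ := by rw [norm_neg, norm_mul, hri, one_mul]
  have htr : ‖trc p g 0 (t P)‖ = ‖(p : L)‖ := by
    rw [← hrp]
    refine m6_eq ?_
    rw [sub_neg_eq_add, hrp]
    exact h3
  have htD1 : ‖t D‖ = ‖(p : L)‖ := by
    rw [← htr]
    refine m6_eq ?_
    rw [htr]
    exact hDt
  rw [hS, (m1_add F Q D).2, h0, ← htD1]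
  refine m6_eq ?_
  rw [add_sub_cancel_right, htQ, htD1]
  exact hyp1

/-- Chunk M6 (M). Level 2 to level 1, reduced to level 0. PROOF. y from lc_pow (n = 1), ‖y‖ < 1: ‖y‖ ≤ ‖π 1‖, ‖y^p‖ ≤ ‖p‖. m5: S = Tr P = Q + D, ‖t Q‖, ‖t D‖ ≤ ‖p‖, so ‖t S‖ ≤ ‖p‖ and ‖t S + y^p - Tr (t P)‖ < ‖p‖ (m1_add: the error is at most ‖p‖³). t S = p a, a in H 1 integral, ‖a - r_k‖ < 1 (T.res);
Q₀ in E 0 with t Q₀ = p r_k: ‖t(S - Q₀)‖ < ‖p‖ (m1_iso), S - Q₀ in E 1 (m1_lev), m3_div: S = Q₀ + p B. If ‖t P‖ = ‖π 2‖: la_lead (k = 1): ‖t P - r_i π 2‖ ≤ ‖π 2‖², ‖r_i‖ = 1; lb_lead: Tr (t P) = - r_i p + .., lc_two: y^p = r_i p + ..: ‖t S + 2 r_i p‖ < ‖p‖,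
‖2‖ = 1 (p odd, ‖p‖ < 1): ‖t S‖ = ‖p‖, ‖t Q₀‖ = ‖p‖ = ‖π 0‖. -/
theorem m6_one (T : Twr p H g π r) (F : Fgp p H g r t γ E al) {P : G} (hP : P ∈ E 2) :
    ∃ Q ∈ E 0, ∃ B ∈ E 1, trG p γ 1 P = Q + p • B ∧ (‖t P‖ = ‖π 2‖ → ‖t Q‖ = ‖π 0‖) := by
  have hz := (F.mem 2 P).1 hP
  have hz1 := F.lt P
  obtain ⟨y, hy, -, hyp⟩ := lc_pow T (n := 1) hz hz1.le
  have h0 : ‖π 0‖ = ‖(p : L)‖ := (la_succ T 0).2
  have hp0 : 0 < ‖(p : L)‖ := norm_pos_iff.2 T.ne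
  have hyle := m6_y T hz1 hy hyp
  have hyp1 : ‖-y ^ p‖ ≤ ‖(p : L)‖ := by
    rw [norm_neg, norm_pow, ← h0, ← (la_succ T 0).1]
    exact pow_le_pow_left₀ (norm_nonneg _) hyle p
  obtain ⟨Q, hQ, D, hD, hS, htQ, htD, hDt⟩ := m5 T F (n := 1) hP hy hyp
  obtain ⟨a1, a2⟩ := m1_add F Q D
  have htQ1 : ‖t Q‖ ≤ ‖(p : L)‖ := by rw [htQ]; exact hyp1
  have hsum : ‖t Q + t D‖ ≤ ‖(p : L)‖ := m6_le htQ1 htD
  have htS : ‖t (trG p γ 1 P)‖ ≤ ‖(p : L)‖ := by rw [hS, a2]; exact hsum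
  have hmem : trG p γ 1 P ∈ E 1 := by rw [hS]; exact add_mem hQ hD
  have herr : ‖t (trG p γ 1 P) + y ^ p - trc p g 1 (t P)‖ < ‖(p : L)‖ := by
    have e : t (trG p γ 1 P) + y ^ p - trc p g 1 (t P) =
        (t (trG p γ 1 P) - (t Q + t D)) + (t D - trc p g 1 (t P)) := by rw [htQ]; ring
    rw [e]
    refine m6_lt ?_ hDt
    rw [hS]
    refine a1.trans_lt ?_
    have b1 : max ‖t Q‖ ‖t D‖ ≤ ‖(p : L)‖ := max_le htQ1 htD
    have b0 : 0 ≤ max ‖t Q‖ ‖t D‖ := (norm_nonneg _).trans (le_max_left _ _)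
    calc ‖t Q + t D‖ * max ‖t Q‖ ‖t D‖ ^ 2 ≤ ‖(p : L)‖ * ‖(p : L)‖ ^ 2 :=
          mul_le_mul hsum (pow_le_pow_left₀ b0 b1 2) (by positivity) hp0.le
      _ < ‖(p : L)‖ * 1 := mul_lt_mul_of_pos_left (pow_lt_one₀ hp0.le T.lt two_ne_zero) hp0
      _ = ‖(p : L)‖ := mul_one _
  -- the residue of t S / p
  have hpH : ∀ n, (p : L) ∈ H n := fun n => natCast_mem (H n) p
  have haH : t (trG p γ 1 P) / (p : L) ∈ H 1 := div_mem ((F.mem 1 _).1 hmem) (hpH 1)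
  have ha1 : ‖t (trG p γ 1 P) / (p : L)‖ ≤ 1 := by
    rw [norm_div]
    exact (div_le_one hp0).2 htS
  obtain ⟨k, hk⟩ := T.res 1 _ haH ha1
  have hQ0 : ‖(p : L) * r k‖ < 1 := by
    rw [norm_mul]
    calc ‖(p : L)‖ * ‖r k‖ ≤ ‖(p : L)‖ * 1 := mul_le_mul_of_nonneg_left (T.rH k).2 hp0.le
      _ < 1 := by rw [mul_one]; exact T.lt
  obtain ⟨Q₀, hQ₀, htQ₀⟩ := F.surj 0 ((p : L) * r k) (mul_mem (hpH 0) (T.rH k).1) hQ0
  have hdiff : ‖t (trG p γ 1 P) - t Q₀‖ < ‖(p : L)‖ := by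
    have e : t (trG p γ 1 P) - t Q₀ = (p : L) * (t (trG p γ 1 P) / (p : L) - r k) := by
      rw [htQ₀, mul_sub, mul_div_cancel₀ _ T.ne]
    rw [e, norm_mul]
    calc ‖(p : L)‖ * ‖t (trG p γ 1 P) / (p : L) - r k‖ < ‖(p : L)‖ * 1 := mul_lt_mul_of_pos_left hk hp0
      _ = ‖(p : L)‖ := mul_one _
  obtain ⟨B, hB, hBe⟩ := m3_div T F (R := trG p γ 1 P - Q₀) (sub_mem hmem ((m1_lev T F 0).1 hQ₀))
    (by rw [m1_iso F]; exact hdiff)
  refine ⟨Q₀, hQ₀, B, hB, by rw [hBe]; abel, fun hP1 => ?_⟩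
  obtain ⟨i, hi, hi1⟩ := la_lead T (n := 2) hz (k := 1) (by rw [pow_one]; exact hP1.le)
  have hri := hi1 (by rw [pow_one]; exact hP1)
  rw [pow_one] at hi
  have h3 := lb_lead T (n := 1) hz (i := i) hi
  have h4 := lc_two T hz hy hyp hi
  have h2 : ‖(2 : L)‖ = 1 := by
    refine le_antisymm ?_ ?_
    · have := IsUltrametricDist.norm_natCast_le_one L 2
      rwa [Nat.cast_ofNat] at this
    · by_contra hcon
      push Not at hcon
      obtain ⟨j, hj⟩ := T.pr.odd_of_ne_two (by have := T.five; omega)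
      have e : (1 : L) = (p : L) + -(2 * (j : L)) := by
        rw [hj]
        push_cast
        ring
      have h5 : ‖(1 : L)‖ < 1 := by
        rw [e]
        refine m6_lt T.lt ?_
        rw [norm_neg, norm_mul]
        calc ‖(2 : L)‖ * ‖(j : L)‖ ≤ ‖(2 : L)‖ * 1 :=
              mul_le_mul_of_nonneg_left (IsUltrametricDist.norm_natCast_le_one L j) (norm_nonneg _)
          _ < 1 := by rw [mul_one]; exact hcon
      rw [norm_one] at h5
      exact lt_irrefl _ h5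
  have hrp : ‖-(2 * (r i * (p : L)))‖ = ‖(p : L)‖ := by rw [norm_neg, norm_mul, norm_mul, h2, hri, one_mul, one_mul]
  have htS1 : ‖t (trG p γ 1 P)‖ = ‖(p : L)‖ := by
    rw [← hrp]
    refine m6_eq ?_
    have e : t (trG p γ 1 P) - -(2 * (r i * (p : L))) = (t (trG p γ 1 P) + y ^ p - trc p g 1 (t P)) +
        ((trc p g 1 (t P) + r i * p) + -(y ^ p - r i * p)) := by ring
    rw [e, hrp]
    refine m6_lt herr (m6_lt h3 ?_)
    rw [norm_neg]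
    exact h4
  rw [h0, ← htS1]
  refine m6_eq ?_
  rw [← norm_neg, neg_sub, htS1]
  exact hdiff

end H16S
end

-- from Lib.H16S.M7
section

/-! # H16S, chunk M7 (M/L): small points -/

namespace H16S

variable {p : ℕ} {L : Type} [NormedField L] [IsUltrametricDist L] {H : ℕ → Subfield L} {g : RingAut L} {π : ℕ → L}
  {r : Fin (p ^ 2) → L} {G : Type} [AddCommGroup G] {t : G → L} {γ : AddMonoid.End G} {E : ℕ → AddSubgroup G}
  {al : Fin (p ^ 2) → AddMonoid.End G}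

theorem m7_sub {L : Type} [NormedField L] [IsUltrametricDist L] {x y : L} {c : ℝ} (hx : ‖x‖ ≤ c) (hy : ‖y‖ ≤ c) :
    ‖x - y‖ ≤ c := by
  rw [sub_eq_add_neg]
  exact (IsUltrametricDist.norm_add_le_max _ _).trans (max_le hx (by rwa [norm_neg]))

theorem m7_addle {L : Type} [NormedField L] [IsUltrametricDist L] {x y : L} {c : ℝ} (hx : ‖x‖ ≤ c) (hy : ‖y‖ ≤ c) :
    ‖x + y‖ ≤ c :=
  (IsUltrametricDist.norm_add_le_max _ _).trans (max_le hx hy)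

theorem m7_sublt {L : Type} [NormedField L] [IsUltrametricDist L] {x y : L} {c : ℝ} (hx : ‖x‖ < c) (hy : ‖y‖ < c) :
    ‖x - y‖ < c := by
  rw [sub_eq_add_neg]
  exact (IsUltrametricDist.norm_add_le_max _ _).trans_lt (max_lt hx (by rwa [norm_neg]))

/-- Chunk M7 (M/L). n ≥ 1. A point X of level n + 1 with ‖t X‖ ≤ ‖p‖ is a point of level n, small, plus a multiple of p. PROOF. ϖ = π (n+1), e = p^(n+1), ‖ϖ‖^e = ‖p‖, ‖ϖ‖^p = ‖π n‖. Claim for all k ≤ e: if ‖t X‖ ≤ ‖p‖ ‖ϖ‖^k then X = A + p B; downward induction on k.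
k = e: F.div (A = 0). k < e: t X = p a, a in H (n+1), ‖a‖ ≤ ‖ϖ‖^k.
k = 0: ‖a - r_i‖ < 1 (T.res), P₀ in E 0 with t P₀ = p r_i: ‖t(X - P₀)‖ < ‖p‖, so ≤ ‖p‖ ‖ϖ‖ (apply la_step to (t X - t P₀)/p); ‖t P₀‖ ≤ ‖p‖ = ‖π n‖^(p^n) ≤ ‖π n‖², P₀ in E n.
k ≥ 1: Y in E (n+1) with t Y = a (F.surj), Z = - p Y, t Z = -(p a - a^(p²) + e₁), ‖e₁‖ ≤ ‖p‖ ‖a‖² ≤ ‖p‖ ‖ϖ‖^(k+1), ‖t Z‖ ≤ ‖a‖. m1_pert with c = ‖a‖ (‖t X‖ = ‖p a‖ ≤ ‖a‖): t(X + Z) = t X + t Z + (≤ ‖p a‖ ‖a‖²) = a^(p²) + (≤ ‖p‖ ‖ϖ‖^(k+1)).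
y in H n with ‖a^p - y‖ ≤ ‖p‖ (lc_pow), ‖a^(p²) - y^p‖ ≤ ‖p‖² ≤ ‖p‖ ‖ϖ‖^(k+1) (lc_diff; k + 1 ≤ e), ‖y‖ ≤ max (‖a‖^p) ‖p‖ < 1, so ‖y‖ ≤ ‖π n‖ and A₁ in E n with t A₁ = y^p has ‖t A₁‖ ≤ ‖π n‖^p ≤ ‖π n‖². X' = X - p Y - A₁ has ‖t X'‖ = ‖t(X + Z) - t A₁‖ ≤ ‖p‖ ‖ϖ‖^(k+1) (m1_iso): induction;
the sums of the A's stay of norm at most ‖π n‖² (m1_add). -/
theorem m7 (T : Twr p H g π r) (F : Fgp p H g r t γ E al) {n : ℕ} (hn : 1 ≤ n) {X : G} (hX : X ∈ E (n + 1))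
    (h : ‖t X‖ ≤ ‖(p : L)‖) : ∃ A ∈ E n, ∃ B ∈ E (n + 1), ‖t A‖ ≤ ‖π n‖ ^ 2 ∧ X = A + p • B := by
  obtain ⟨hϖ0, hϖ1⟩ := la_pos T (n + 1)
  obtain ⟨hν0, hν1⟩ := la_pos T n
  have hp := T.pr
  have h5 := T.five
  have hq1 : ‖(p : L)‖ < 1 := T.lt
  have hq0 : 0 < ‖(p : L)‖ := norm_pos_iff.mpr T.ne
  have hqe : ‖π (n + 1)‖ ^ p ^ (n + 1) = ‖(p : L)‖ := T.piv (n + 1)
  have hmono1 : E n ≤ E (n + 1) := (m1_lev T F n).1
  have hmono0 : E 0 ≤ E n := by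
    have hm : Monotone E := monotone_nat_of_le_succ fun m => (m1_lev T F m).1
    exact hm (Nat.zero_le n)
  have hqn2 : ‖(p : L)‖ ≤ ‖π n‖ ^ 2 := by
    rw [← T.piv n]
    refine pow_le_pow_of_le_one hν0.le hν1.le ?_
    calc 2 ≤ p := hp.two_le
      _ = p ^ 1 := (pow_one p).symm
      _ ≤ p ^ n := Nat.pow_le_pow_right hp.pos hn
  have hclaim : ∀ j k : ℕ, k + j = p ^ (n + 1) → ∀ X ∈ E (n + 1), ‖t X‖ ≤ ‖(p : L)‖ * ‖π (n + 1)‖ ^ k →
      ∃ A ∈ E n, ∃ B ∈ E (n + 1), ‖t A‖ ≤ ‖π n‖ ^ 2 ∧ X = A + p • B := by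
    intro j
    induction j with
    | zero =>
      intro k hk X hX hXt
      rw [add_zero] at hk
      rw [hk, hqe, ← sq] at hXt
      obtain ⟨B, hB, -, hB2⟩ := F.div (n + 1) X hX hXt
      refine ⟨0, (E n).zero_mem, B, hB, ?_, by rw [zero_add, hB2]⟩
      rw [(F.zero 0).mpr rfl, norm_zero]
      positivity
    | succ j ih =>
      intro k hk X hX hXt
      have hke : k + 1 ≤ p ^ (n + 1) := by omega
      have hih := ih (k + 1) (by omega)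
      have hXH : t X ∈ H (n + 1) := (F.mem _ _).mp hX
      have hpHn : (p : L) ∈ H (n + 1) := natCast_mem (H (n + 1)) p
      set a := t X / p with ha
      have htX : t X = p * a := by
        rw [ha]
        have := T.ne
        field_simp
      have haH : a ∈ H (n + 1) := (H (n + 1)).div_mem hXH hpHn
      have han : ‖a‖ ≤ ‖π (n + 1)‖ ^ k := by
        rw [htX, norm_mul] at hXt
        exact le_of_mul_le_mul_left hXt hq0
      have hqk : ‖(p : L)‖ ≤ ‖π (n + 1)‖ ^ (k + 1) := by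
        rw [← hqe]
        exact pow_le_pow_of_le_one hϖ0.le hϖ1.le hke
      rcases Nat.eq_zero_or_pos k with hk0 | hk0
      · subst hk0
        rw [pow_zero] at han
        obtain ⟨i, hi⟩ := T.res (n + 1) a haH han
        have hrH0 : (p : L) * r i ∈ H 0 := (H 0).mul_mem (natCast_mem (H 0) p) (T.rH i).1
        have hrn : ‖(p : L) * r i‖ ≤ ‖(p : L)‖ := by
          rw [norm_mul]
          calc ‖(p : L)‖ * ‖r i‖ ≤ ‖(p : L)‖ * 1 := mul_le_mul_of_nonneg_left (T.rH i).2 hq0.le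
            _ = ‖(p : L)‖ := mul_one _
        obtain ⟨P₀, hP₀, hP₀t⟩ := F.surj 0 _ hrH0 (hrn.trans_lt hq1)
        have hP₀n : P₀ ∈ E n := hmono0 hP₀
        have hriH : r i ∈ H (n + 1) := by
          have hm : Monotone H := monotone_nat_of_le_succ T.mono
          exact hm (Nat.zero_le _) (T.rH i).1
        have h1 : ‖a - r i‖ ≤ ‖π (n + 1)‖ ^ (0 + 1) :=
          la_step T ((H (n + 1)).sub_mem haH hriH) (by rw [pow_zero]; exact hi)
        have h2 : ‖t (X - P₀)‖ ≤ ‖(p : L)‖ * ‖π (n + 1)‖ ^ (0 + 1) := by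
          rw [m1_iso F, hP₀t, htX, ← mul_sub, norm_mul]
          exact mul_le_mul_of_nonneg_left h1 hq0.le
        obtain ⟨A', hA', B, hB, hA't, hXAB⟩ := hih (X - P₀) ((E (n + 1)).sub_mem hX (hmono1 hP₀n)) h2
        refine ⟨P₀ + A', (E n).add_mem hP₀n hA', B, hB, ?_, ?_⟩
        · rw [(m1_add F P₀ A').2]
          refine m7_addle ?_ hA't
          rw [hP₀t]
          exact hrn.trans hqn2
        · rw [add_assoc, ← hXAB]
          abel
      · have ha1 : ‖a‖ < 1 := han.trans_lt (pow_lt_one₀ hϖ0.le hϖ1 (by omega))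
        obtain ⟨Y, hY, hYt⟩ := F.surj (n + 1) a haH ha1
        have hmulY := F.mul Y
        rw [hYt] at hmulY
        have hpow : ∀ m : ℕ, k + 1 ≤ m → ‖π (n + 1)‖ ^ m ≤ ‖π (n + 1)‖ ^ (k + 1) := fun m hm =>
          pow_le_pow_of_le_one hϖ0.le hϖ1.le hm
        have ha2 : ‖(p : L)‖ * ‖a‖ ^ 2 ≤ ‖(p : L)‖ * ‖π (n + 1)‖ ^ (k + 1) := by
          refine mul_le_mul_of_nonneg_left ?_ hq0.le
          calc ‖a‖ ^ 2 ≤ (‖π (n + 1)‖ ^ k) ^ 2 := pow_le_pow_left₀ (norm_nonneg _) han 2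
            _ = ‖π (n + 1)‖ ^ (k * 2) := (pow_mul _ _ _).symm
            _ ≤ _ := hpow _ (by omega)
        have hZt : t (-(p • Y)) = -t (p • Y) := F.neg _
        have hpY : p • Y ∈ E (n + 1) := (E (n + 1)).nsmul_mem hY p
        have hpa : ‖(p : L) * a‖ ≤ ‖a‖ := by
          rw [norm_mul]
          calc ‖(p : L)‖ * ‖a‖ ≤ 1 * ‖a‖ := mul_le_mul_of_nonneg_right hq1.le (norm_nonneg _)
            _ = ‖a‖ := one_mul _
        have hZn : ‖t (-(p • Y))‖ ≤ ‖a‖ := by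
          rw [hZt, norm_neg]
          refine (m1_mul hq1 F Y).trans ?_
          rw [hYt]
          refine max_le ?_ ?_
          · rw [← norm_mul]
            exact hpa
          · have h1p : 1 ≤ p ^ 2 := Nat.one_le_iff_ne_zero.mpr (pow_ne_zero _ hp.ne_zero)
            calc ‖a‖ ^ p ^ 2 ≤ ‖a‖ ^ 1 := pow_le_pow_of_le_one (norm_nonneg _) ha1.le h1p
              _ = ‖a‖ := pow_one _
        have hpert := m1_pert F (-(p • Y)) X hZn (by rw [htX]; exact hpa)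
        have hpert2 : ‖t (-(p • Y) + X) - t (-(p • Y)) - t X‖ ≤ ‖(p : L)‖ * ‖π (n + 1)‖ ^ (k + 1) := by
          refine hpert.trans (le_trans ?_ ha2)
          have h1 : ‖t X‖ ≤ ‖(p : L)‖ := by
            rw [htX, norm_mul]
            calc ‖(p : L)‖ * ‖a‖ ≤ ‖(p : L)‖ * 1 := mul_le_mul_of_nonneg_left ha1.le hq0.le
              _ = ‖(p : L)‖ := mul_one _
          exact mul_le_mul_of_nonneg_right h1 (by positivity)
        obtain ⟨y, hyH, hy1, hyd⟩ := lc_pow T haH ha1.le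
        have hap1 : ‖a ^ p‖ < 1 := by
          rw [norm_pow]
          exact pow_lt_one₀ (norm_nonneg _) ha1 hp.ne_zero
        have hy1' : ‖y‖ < 1 := by
          have e : y = a ^ p - (a ^ p - y) := by ring
          rw [e]
          exact m7_sublt hap1 (hyd.trans_lt hq1)
        have hyn : ‖y‖ ≤ ‖π n‖ := by
          have h1 := la_step T hyH (k := 0) (by rw [pow_zero]; exact hy1')
          rwa [zero_add, pow_one] at h1
        have hdiff : ‖a ^ p ^ 2 - y ^ p‖ ≤ ‖(p : L)‖ * ‖π (n + 1)‖ ^ (k + 1) := by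
          have e : a ^ p ^ 2 = (a ^ p) ^ p := by rw [← pow_mul, sq]
          rw [e]
          refine (lc_diff hp h5 hq1 hap1.le hy1 hyd).trans ?_
          rw [sq]
          exact mul_le_mul_of_nonneg_left hqk hq0.le
        have hypn : ‖y ^ p‖ ≤ ‖π n‖ ^ 2 := by
          rw [norm_pow]
          calc ‖y‖ ^ p ≤ ‖π n‖ ^ p := pow_le_pow_left₀ (norm_nonneg _) hyn p
            _ ≤ ‖π n‖ ^ 2 := pow_le_pow_of_le_one hν0.le hν1.le hp.two_le
        have hyp1 : ‖y ^ p‖ < 1 := by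
          rw [norm_pow]
          exact pow_lt_one₀ (norm_nonneg _) hy1' hp.ne_zero
        obtain ⟨A₁, hA₁, hA₁t⟩ := F.surj n (y ^ p) ((H n).pow_mem hyH p) hyp1
        have hX' : ‖t ((-(p • Y) + X) - A₁)‖ ≤ ‖(p : L)‖ * ‖π (n + 1)‖ ^ (k + 1) := by
          rw [m1_iso F, hA₁t]
          have e : t (-(p • Y) + X) - y ^ p = (t (-(p • Y) + X) - t (-(p • Y)) - t X) -
              (t (p • Y) - p * a + a ^ p ^ 2) + (a ^ p ^ 2 - y ^ p) := by
            rw [hZt, htX]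
            ring
          rw [e]
          exact m7_addle (m7_sub hpert2 (hmulY.trans ha2)) hdiff
        have hX'E : (-(p • Y) + X) - A₁ ∈ E (n + 1) :=
          (E (n + 1)).sub_mem ((E (n + 1)).add_mem ((E (n + 1)).neg_mem hpY) hX) (hmono1 hA₁)
        obtain ⟨A', hA', B', hB', hA't, hAB⟩ := hih _ hX'E hX'
        refine ⟨A₁ + A', (E n).add_mem hA₁ hA', Y + B', (E (n + 1)).add_mem hY hB', ?_, ?_⟩
        · rw [(m1_add F A₁ A').2]
          refine m7_addle ?_ hA't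
          rw [hA₁t]
          exact hypn
        · have e : X = ((-(p • Y) + X) - A₁) + A₁ + p • Y := by abel
          rw [smul_add]
          calc X = ((-(p • Y) + X) - A₁) + A₁ + p • Y := e
            _ = (A' + p • B') + A₁ + p • Y := by rw [← hAB]
            _ = A₁ + A' + (p • Y + p • B') := by abel
  exact hclaim (p ^ (n + 1)) 0 (by rw [zero_add]) X hX (by rw [pow_zero, mul_one]; exact h)

end H16S
end

-- from Lib.H16S.M8
section

/-! # H16S, chunk M8 (M): the trace two levels down -/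

namespace H16S

variable {p : ℕ} {L : Type} [NormedField L] [IsUltrametricDist L] {H : ℕ → Subfield L} {g : RingAut L} {π : ℕ → L}
  {r : Fin (p ^ 2) → L} {G : Type} [AddCommGroup G] {t : G → L} {γ : AddMonoid.End G} {E : ℕ → AddSubgroup G}
  {al : Fin (p ^ 2) → AddMonoid.End G}

theorem m8x_sub (a b : L) : ‖a - b‖ ≤ max ‖a‖ ‖b‖ := by
  rw [sub_eq_add_neg, ← norm_neg b]
  exact IsUltrametricDist.norm_add_le_max a (-b)

theorem m8x_eq {a b : L} (h : ‖a - b‖ < ‖a‖) : ‖b‖ = ‖a‖ := by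
  apply le_antisymm
  · have h1 : b = a - (a - b) := by ring
    have h2 := m8x_sub a (a - b)
    rw [← h1] at h2
    exact h2.trans (max_le le_rfl h.le)
  · by_contra hlt
    push Not at hlt
    have h1 : a = (a - b) + b := by ring
    have h2 := IsUltrametricDist.norm_add_le_max (a - b) b
    rw [← h1] at h2
    exact absurd (h2.trans_lt (max_lt h hlt)) (lt_irrefl _)

theorem m8x_pi (T : Twr p H g π r) {n : ℕ} (hn : 1 ≤ n) : ‖(p : L)‖ < ‖π n‖ := by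
  obtain ⟨h1, h2⟩ := la_pos T n
  rw [← T.piv n]
  have h3 : 1 < p ^ n := Nat.one_lt_pow (by omega) T.pr.one_lt
  have h4 := pow_lt_pow_right_of_lt_one₀ h1 h2 h3
  rwa [pow_one] at h4

/-- Chunk M8 (M). PROOF. k = 0 is m6_one. k ≥ 1, n = k + 1: P in E (n+1), y in H n with ‖(t P)^p - y‖ ≤ ‖p‖ (lc_pow), S = Tr P = Q₁ + D, t Q₁ = -y^p, ‖t D‖ ≤ ‖p‖ (m5). y' in H k with ‖y^p - y'‖ ≤ ‖p‖ (lc_pow for y in H (k+1)), ‖y'‖ < 1; P' in E k with t P' = - y'. X = S - P' in E n: ‖t X‖ ≤ ‖p‖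
(X = (Q₁ - P') + D, ‖t(Q₁ - P')‖ = ‖y^p - y'‖ by m1_iso, m1_add). m7 with its n equal to k: X = A + p B, A in E k, ‖t A‖ ≤ ‖π k‖², B in E (k+1). Q = P' + A. If ‖t P‖ = ‖π (k+2)‖: ‖y‖ = ‖π (k+2)‖^p = ‖π (k+1)‖ (> ‖p‖), ‖y'‖ = ‖π (k+1)‖^p = ‖π k‖ > ‖p‖ since k ≥ 1,
‖t Q‖ = ‖t P' + t A‖ = ‖π k‖ (m1_add). -/
theorem m8 (T : Twr p H g π r) (F : Fgp p H g r t γ E al) (k : ℕ) {P : G} (hP : P ∈ E (k + 2)) :
    ∃ Q ∈ E k, ∃ B ∈ E (k + 1), trG p γ (k + 1) P = Q + p • B ∧ (‖t P‖ = ‖π (k + 2)‖ → ‖t Q‖ = ‖π k‖) := by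
  rcases Nat.eq_zero_or_pos k with hk | hk
  · subst hk
    exact m6_one T F hP
  · have hp0 : 0 < ‖(p : L)‖ := norm_pos_iff.2 T.ne
    have hzH : t P ∈ H (k + 1 + 1) := (F.mem _ P).1 hP
    obtain ⟨y, hyH, hy1, hy⟩ := lc_pow T hzH (F.lt P).le
    obtain ⟨Q₁, hQ₁, D, hD, hTr, htQ₁, htD, -⟩ := m5 T F hP hyH hy
    obtain ⟨y', hy'H, hy'1, hy'⟩ := lc_pow T hyH hy1
    have hylt : ‖y‖ < 1 := by
      have h1 : y = t P ^ p - (t P ^ p - y) := by ring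
      have h2 := m8x_sub (t P ^ p) (t P ^ p - y)
      rw [← h1] at h2
      refine h2.trans_lt (max_lt ?_ (hy.trans_lt T.lt))
      rw [norm_pow]
      exact pow_lt_one₀ (norm_nonneg _) (F.lt P) T.pr.ne_zero
    have hy'lt : ‖y'‖ < 1 := by
      have h1 : y' = y ^ p - (y ^ p - y') := by ring
      have h2 := m8x_sub (y ^ p) (y ^ p - y')
      rw [← h1] at h2
      refine h2.trans_lt (max_lt ?_ (hy'.trans_lt T.lt))
      rw [norm_pow]
      exact pow_lt_one₀ (norm_nonneg _) hylt T.pr.ne_zero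
    obtain ⟨P', hP', htP'⟩ := F.surj k (-y') (Subfield.neg_mem _ hy'H) (by rw [norm_neg]; exact hy'lt)
    have hlev := m1_lev T F k
    have hX : Q₁ + D - P' ∈ E (k + 1) :=
      AddSubgroup.sub_mem _ (AddSubgroup.add_mem _ hQ₁ hD) (hlev.1 hP')
    have hXn : ‖t (Q₁ + D - P')‖ ≤ ‖(p : L)‖ := by
      have e : Q₁ + D - P' = (Q₁ - P') + D := by abel
      rw [e, (m1_add F _ _).2]
      refine (IsUltrametricDist.norm_add_le_max _ _).trans (max_le ?_ htD)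
      rw [m1_iso F, htQ₁, htP']
      have e2 : -y ^ p - -y' = -(y ^ p - y') := by ring
      rw [e2, norm_neg]
      exact hy'
    obtain ⟨A, hA, B, hB, htA, hXe⟩ := m7 T F hk hX hXn
    refine ⟨P' + A, AddSubgroup.add_mem _ hP' hA, B, hB, ?_, fun hPn => ?_⟩
    · have h1 : Q₁ + D = P' + (Q₁ + D - P') := by abel
      rw [hTr, h1, hXe]
      abel
    · have h1 : ‖t P ^ p‖ = ‖π (k + 1)‖ := by
        rw [norm_pow, hPn]
        exact (la_succ T (k + 1)).1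
      have h2 : ‖y‖ = ‖π (k + 1)‖ := by
        rw [← h1]
        refine m8x_eq (hy.trans_lt ?_)
        rw [h1]
        exact m8x_pi T (by omega)
      have h3 : ‖y ^ p‖ = ‖π k‖ := by
        rw [norm_pow, h2]
        exact (la_succ T k).1
      have h4 : ‖y'‖ = ‖π k‖ := by
        rw [← h3]
        refine m8x_eq (hy'.trans_lt ?_)
        rw [h3]
        exact m8x_pi T hk
      have h5 : ‖t P'‖ = ‖π k‖ := by rw [htP', norm_neg, h4]
      have h6 : ‖t A‖ < ‖t P'‖ := by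
        rw [h5]
        refine htA.trans_lt ?_
        obtain ⟨h7, h8⟩ := la_pos T k
        nlinarith
      rw [(m1_add F _ _).2, ← h5]
      have h9 : ‖t P' - (t P' + t A)‖ < ‖t P'‖ := by
        have e : t P' - (t P' + t A) = - t A := by ring
        rw [e, norm_neg]
        exact h6
      exact m8x_eq h9

end H16S
end

-- from Lib.H16S.M9
section

/-! # H16S, chunk M9 (M): the induction -/

namespace H16S

variable {p : ℕ} {L : Type} [NormedField L] [IsUltrametricDist L] {H : ℕ → Subfield L} {g : RingAut L} {π : ℕ → L}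
  {r : Fin (p ^ 2) → L} {G : Type} [AddCommGroup G] {t : G → L} {γ : AddMonoid.End G} {E : ℕ → AddSubgroup G}
  {al : Fin (p ^ 2) → AddMonoid.End G}

open Polynomial

theorem m9_sum {G : Type} [AddCommGroup G] {ι : Type} (S : Finset ι) (f : ι → AddMonoid.End G) (P : G) :
    (∑ i ∈ S, f i) P = ∑ i ∈ S, f i P := by
  classical
  induction S using Finset.induction_on with
  | empty => rfl
  | insert a S ha ih =>
    rw [Finset.sum_insert ha, Finset.sum_insert ha, ← ih]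
    rfl

theorem m9_one (T : Twr p H g π r) (F : Fgp p H g r t γ E al) (m : ℕ) (k : ℕ) {P : G} (hP : P ∈ E m) :
    ((γ - 1) ^ k) P ∈ E m := by
  induction k with
  | zero =>
    rw [pow_zero]
    exact hP
  | succ k ih =>
    rw [pow_succ']
    have h1 := (m1_lev T F m).2.1 1 _ ih
    rw [pow_one] at h1
    exact (E m).sub_mem h1 ih

theorem m9_aeval (T : Twr p H g π r) (F : Fgp p H g r t γ E al) (m : ℕ) (f : ℤ[X]) :
    ∀ P ∈ E m, (Polynomial.aeval (γ - 1) f : AddMonoid.End G) P ∈ E m := by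
  induction f using Polynomial.induction_on' with
  | add f₁ f₂ h1 h2 =>
    intro P hP
    rw [map_add]
    exact (E m).add_mem (h1 P hP) (h2 P hP)
  | monomial k c =>
    intro P hP
    rw [Polynomial.aeval_monomial, Algebra.algebraMap_eq_smul_one, smul_mul_assoc, one_mul]
    exact (E m).zsmul_mem (m9_one T F m k hP) c

/-- Chunk M9 (S/M). The trace is (γ - 1)^(p^(n+1) - p^n) modulo p: H35K.nrm_poly, apply the ring homomorphism Polynomial.aeval (γ - 1) (ℤ-algebra AddMonoid.End G); h(γ - 1) P lies in E (n+1) because γ preserves it (m1_lev; aeval of a polynomial is a sum of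
integer multiples of powers). -/
theorem m9_tr (T : Twr p H g π r) (F : Fgp p H g r t γ E al) (n : ℕ) {P : G} (hP : P ∈ E (n + 1)) :
    ∃ B ∈ E (n + 1), ((γ - 1) ^ (p ^ (n + 1) - p ^ n)) P = trG p γ n P + p • B := by
  obtain ⟨h, hh, -⟩ := H35K.nrm_poly T.pr n
  have h1 := congrArg (fun f : ℤ[X] => (Polynomial.aeval (γ - 1) f : AddMonoid.End G) P) hh
  have h2 : (Polynomial.aeval (γ - 1) (∑ i ∈ Finset.range p, (X + 1 : ℤ[X]) ^ (i * p ^ n)) : AddMonoid.End G) P =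
      trG p γ n P := by
    rw [map_sum]
    unfold trG
    rw [m9_sum]
    refine Finset.sum_congr rfl fun i _ => ?_
    rw [map_pow, map_add, Polynomial.aeval_X, map_one, sub_add_cancel]
  have h3 : (Polynomial.aeval (γ - 1) ((X : ℤ[X]) ^ (p ^ (n + 1) - p ^ n) + C (p : ℤ) * h) : AddMonoid.End G) P =
      ((γ - 1) ^ (p ^ (n + 1) - p ^ n)) P + p • (Polynomial.aeval (γ - 1) h : AddMonoid.End G) P := by
    rw [map_add, map_mul, map_pow, Polynomial.aeval_X, Polynomial.aeval_C]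
    change ((γ - 1) ^ (p ^ (n + 1) - p ^ n)) P + ((algebraMap ℤ (AddMonoid.End G) (p : ℤ)) * (Polynomial.aeval (γ - 1) h : AddMonoid.End G)) P = _
    congr 1
    rw [map_natCast, ← nsmul_eq_mul]
    rfl
  rw [h2, h3] at h1
  refine ⟨-(Polynomial.aeval (γ - 1) h : AddMonoid.End G) P, (E (n + 1)).neg_mem (m9_aeval T F (n + 1) h P hP), ?_⟩
  rw [h1, smul_neg]
  abel

/-- Chunk M9 (M). s n = p^n - 1 - J p n. PROOF by induction in steps of two. n = 0: s = 0 (H35K.J_zero), Q = P. n = 1: s = p - 1 (J_one), m9_tr and m6_zero, Q = Tr P. n + 2: s (n+2) = s n + (p^(n+2) - p^(n+1)) (H35K.J_step, J_two):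
(γ-1)^(s(n+2)) P = (γ-1)^(s n) (Tr P + p B₁) = (γ-1)^(s n) (Q' + p B') (m8) = Q + p B. The points (γ-1)^j B stay in E. ‖t Q'‖ = ‖π n‖ if ‖t P‖ = ‖π (n+2)‖. -/
theorem m9 (T : Twr p H g π r) (F : Fgp p H g r t γ E al) (n : ℕ) {P : G} (hP : P ∈ E n) :
    ∃ Q ∈ E 0, ∃ B ∈ E n, ((γ - 1) ^ (p ^ n - 1 - H35K.J p n)) P = Q + p • B ∧ (‖t P‖ = ‖π n‖ → ‖t Q‖ = ‖(p : L)‖) := by
  have hp := T.pr
  have hπ0 : ‖π 0‖ = ‖(p : L)‖ := (la_succ T 0).2
  have hmono : Monotone E := monotone_nat_of_le_succ fun m => (m1_lev T F m).1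
  induction n using Nat.strong_induction_on generalizing P with
  | _ n ih =>
    rcases n with _ | _ | n
    · refine ⟨P, hP, 0, (E 0).zero_mem, ?_, fun h => by rw [h, hπ0]⟩
      have e : p ^ 0 - 1 - H35K.J p 0 = 0 := by simp
      rw [e, pow_zero, smul_zero, add_zero]
      rfl
    · obtain ⟨B, hB, h1⟩ := m9_tr T F 0 hP
      obtain ⟨h2, h3⟩ := m6_zero T F hP
      refine ⟨trG p γ 0 P, h2, B, hB, ?_, fun h => by rw [h3 h, hπ0]⟩
      have e : p ^ (0 + 1) - 1 - H35K.J p (0 + 1) = p ^ (0 + 1) - p ^ 0 := by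
        rw [zero_add, H35K.J_one hp.one_le, pow_zero, Nat.sub_zero]
      rw [e]
      exact h1
    · obtain ⟨B₁, hB₁, h1⟩ := m9_tr T F (n + 1) hP
      obtain ⟨Q', hQ', B', hB', h2, h3⟩ := m8 T F n hP
      obtain ⟨Q, hQ, B'', hB'', h4, h5⟩ := ih n (by omega) hQ'
      have e : p ^ (n + 2) - 1 - H35K.J p (n + 2) =
          (p ^ n - 1 - H35K.J p n) + (p ^ (n + 1 + 1) - p ^ (n + 1)) := by
        have j1 := H35K.J_step hp.one_le n
        have j2 := H35K.J_two (p := p) (by have := T.five; omega) n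
        have j3 := H35K.J_two (p := p) (by have := T.five; omega) (n + 2)
        have j4 : p ^ n ≤ p ^ (n + 1) := Nat.pow_le_pow_right hp.pos (by omega)
        have j5 : p ^ (n + 1) ≤ p ^ (n + 2) := Nat.pow_le_pow_right hp.pos (by omega)
        have j6 : p ^ (n + 1 + 1) = p ^ (n + 2) := rfl
        omega
      set D := ((γ - 1) ^ (p ^ n - 1 - H35K.J p n) : AddMonoid.End G) with hD
      refine ⟨Q, hQ, B'' + D (B' + B₁), ?_, ?_, fun h => h5 (h3 h)⟩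
      · have h6 : B' + B₁ ∈ E (n + 2) := (E (n + 2)).add_mem (hmono (by omega) hB') hB₁
        exact (E (n + 2)).add_mem (hmono (by omega) hB'') (m9_one T F (n + 2) _ h6)
      · have e2 : ((γ - 1) ^ (p ^ (n + 2) - 1 - H35K.J p (n + 2))) P =
            D (((γ - 1) ^ (p ^ (n + 1 + 1) - p ^ (n + 1))) P) := by
          rw [e, pow_add]
          rfl
        rw [e2, h1, h2, map_add, map_add, h4, map_nsmul, map_nsmul, smul_add, map_add, smul_add]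
        abel

end H16S
end

-- from Lib.H16S.M10
section

/-! # H16S, chunk M10 (M): the classes of level 0 -/

namespace H16S

variable {p : ℕ} {L : Type} [NormedField L] [IsUltrametricDist L] {H : ℕ → Subfield L} {g : RingAut L} {π : ℕ → L}
  {r : Fin (p ^ 2) → L} {G : Type} [AddCommGroup G] {t : G → L} {γ : AddMonoid.End G} {E : ℕ → AddSubgroup G}
  {al : Fin (p ^ 2) → AddMonoid.End G}

theorem m10_comm (F : Fgp p H g r t γ E al) (i : Fin (p ^ 2)) (k : ℕ) (P : G) :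
    ((γ - 1) ^ k) (al i P) = al i (((γ - 1) ^ k) P) := by
  induction k with
  | zero => rfl
  | succ k ih =>
    rw [pow_succ']
    change (γ - 1) (((γ - 1) ^ k) (al i P)) = al i ((γ - 1) (((γ - 1) ^ k) P))
    rw [ih]
    change γ (al i (((γ - 1) ^ k) P)) - al i (((γ - 1) ^ k) P) = al i (γ (((γ - 1) ^ k) P) - ((γ - 1) ^ k) P)
    rw [map_sub, F.alc]

/-- Chunk M10 (M). PROOF. P₁ in E n with t P₁ = π n (F.surj), m9: X^s P₁ = Q₁ + p B₁, ‖t Q₁‖ = ‖p‖. t Q/t Q₁ is in H 0, integral (m3_zero): ‖t Q - r_i t Q₁‖ < ‖p‖, so ≤ ‖p‖² (la_step at level 0, ‖π 0‖ = ‖p‖). ‖t(al i Q₁) - r_i t Q₁‖ ≤ ‖p‖² (F.alt), so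
‖t(Q - al i Q₁)‖ ≤ ‖p‖² and Q - al i Q₁ = p B₂ (F.div at level 0; F.ale). P = al i P₁: X^s (al i P₁) = al i (X^s P₁) (F.alc) = al i Q₁ + p al i B₁ = Q - p B₂ + p al i B₁. -/
theorem m10 (T : Twr p H g π r) (F : Fgp p H g r t γ E al) (n : ℕ) {Q : G} (hQ : Q ∈ E 0) :
    ∃ P ∈ E n, ∃ B ∈ E n, ((γ - 1) ^ (p ^ n - 1 - H35K.J p n)) P = Q + p • B := by
  have hq0 : 0 < ‖(p : L)‖ := norm_pos_iff.mpr T.ne
  have hπ0 : ‖π 0‖ = ‖(p : L)‖ := (la_succ T 0).2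
  have hmono : Monotone E := monotone_nat_of_le_succ fun m => (m1_lev T F m).1
  obtain ⟨P₁, hP₁, hP₁t⟩ := F.surj n (π n) (T.piH n) (la_pos T n).2
  obtain ⟨Q₁, hQ₁, B₁, hB₁, h1, h2⟩ := m9 T F n hP₁
  have hQ₁t : ‖t Q₁‖ = ‖(p : L)‖ := h2 (by rw [hP₁t])
  have hQ₁0 : t Q₁ ≠ 0 := by
    intro h
    rw [h, norm_zero] at hQ₁t
    exact hq0.ne hQ₁t
  have hQt : ‖t Q‖ ≤ ‖(p : L)‖ := (m3_zero T F hQ).1
  have hQH : t Q ∈ H 0 := (F.mem 0 Q).mp hQ
  have hQ₁H : t Q₁ ∈ H 0 := (F.mem 0 Q₁).mp hQ₁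
  have haH : t Q / t Q₁ ∈ H 0 := (H 0).div_mem hQH hQ₁H
  have ha1 : ‖t Q / t Q₁‖ ≤ 1 := by
    rw [norm_div, hQ₁t]
    exact div_le_one_of_le₀ hQt hq0.le
  obtain ⟨i, hi⟩ := T.res 0 _ haH ha1
  have h3 : ‖t Q - r i * t Q₁‖ ≤ ‖(p : L)‖ ^ 2 := by
    have h4 : ‖t Q - r i * t Q₁‖ < ‖π 0‖ ^ 1 := by
      have e : t Q - r i * t Q₁ = (t Q / t Q₁ - r i) * t Q₁ := by field_simp
      rw [e, norm_mul, hQ₁t, pow_one, hπ0]
      calc ‖t Q / t Q₁ - r i‖ * ‖(p : L)‖ < 1 * ‖(p : L)‖ := mul_lt_mul_of_pos_right hi hq0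
        _ = ‖(p : L)‖ := one_mul _
    have h5 := la_step T ((H 0).sub_mem hQH ((H 0).mul_mem (T.rH i).1 hQ₁H)) h4
    rw [hπ0] at h5
    exact h5
  have h4 : ‖t (al i Q₁) - r i * t Q₁‖ ≤ ‖(p : L)‖ ^ 2 := by
    rw [← hQ₁t]
    exact F.alt i Q₁
  have h5 : ‖t (Q - al i Q₁)‖ ≤ ‖(p : L)‖ ^ 2 := by
    rw [m1_iso F]
    have e : t Q - t (al i Q₁) = (t Q - r i * t Q₁) + -(t (al i Q₁) - r i * t Q₁) := by ring
    rw [e]
    exact (IsUltrametricDist.norm_add_le_max _ _).trans (max_le h3 (by rwa [norm_neg]))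
  obtain ⟨B₂, hB₂, -, hB₂p⟩ := F.div 0 _ ((E 0).sub_mem hQ (F.ale i 0 _ hQ₁)) h5
  refine ⟨al i P₁, F.ale i n _ hP₁, al i B₁ - B₂, (E n).sub_mem (F.ale i n _ hB₁) (hmono (Nat.zero_le n) hB₂), ?_⟩
  rw [m10_comm F, h1, map_add, map_nsmul, smul_sub, hB₂p]
  abel

end H16S
end
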