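import Mathlib
import Pool.Agent.Lib.H1M.PP2.M012
import Pool.Agent.Lib.H1M.PP2.M018

/-! Merged copies (to shorten the build) of Lib.H16S.M4A, Lib.H16S.M4B, Lib.H16S.M4C, Lib.H16S.TB, Lib.H16S.TF, Lib.H16S.TC, Lib.H16S.TE, Lib.H16S.TG. -/

-- from Lib.H16S.M4A
section

/-! # H16S, chunk M4A (M): counting -/

namespace H16S

variable {p : ℕ} {L : Type} [NormedField L] [IsUltrametricDist L] {H : ℕ → Subfield L} {g : RingAut L} {π : ℕ → L}
  {r : Fin (p ^ 2) → L} {G : Type} [AddCommGroup G] {t : G → L} {γ : AddMonoid.End G} {E : ℕ → AddSubgroup G}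
  {al : Fin (p ^ 2) → AddMonoid.End G}

/-- The points of level n whose parameter has norm at most c (0 ≤ c). -/
def ES (F : Fgp p H g r t γ E al) (n : ℕ) (c : ℝ) (hc : 0 ≤ c) : AddSubgroup (E n) where
  carrier := {P | ‖t (P : G)‖ ≤ c}
  zero_mem' := by
    show ‖t ((0 : E n) : G)‖ ≤ c
    rw [AddSubgroup.coe_zero, (F.zero 0).2 rfl, norm_zero]
    exact hc
  add_mem' := fun {P Q} hP hQ => by
    show ‖t ((P : G) + (Q : G))‖ ≤ c
    rw [(m1_add F (P : G) (Q : G)).2]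
    exact (IsUltrametricDist.norm_add_le_max _ _).trans (max_le hP hQ)
  neg_mem' := fun {P} hP => by
    show ‖t (-(P : G))‖ ≤ c
    rw [F.neg, norm_neg]
    exact hP

theorem m4a_mono (F : Fgp p H g r t γ E al) (n : ℕ) {c d : ℝ} (hc : 0 ≤ c) (hd : 0 ≤ d)
    (h : c ≤ d) : ES F n c hc ≤ ES F n d hd := fun _ hP => le_trans hP h

theorem m4a_step (T : Twr p H g π r) (F : Fgp p H g r t γ E al) (n k : ℕ) (hk : 1 ≤ k) :
    (ES F n (‖π n‖ ^ (k + 1)) (by positivity)).relIndex (ES F n (‖π n‖ ^ k) (by positivity)) =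
      p ^ 2 := by
  obtain ⟨h0, h1⟩ := la_pos T n
  have hex : ∀ i : Fin (p ^ 2), ∃ P ∈ E n, t P = r i * π n ^ k := by
    intro i
    apply F.surj n
    · exact mul_mem (la_mono T (Nat.zero_le n) (T.rH i).1) (pow_mem (T.piH n) k)
    · rw [norm_mul, norm_pow]
      have h2 : ‖π n‖ ^ k < 1 := pow_lt_one₀ h0.le h1 (by omega)
      calc ‖r i‖ * ‖π n‖ ^ k ≤ 1 * ‖π n‖ ^ k :=
            mul_le_mul_of_nonneg_right (T.rH i).2 (by positivity)
        _ < 1 := by rwa [one_mul]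
  choose P hPE hPt using hex
  have hPn : ∀ i, ‖t (P i)‖ ≤ ‖π n‖ ^ k := by
    intro i
    rw [hPt, norm_mul, norm_pow]
    exact mul_le_of_le_one_left (by positivity) (T.rH i).2
  let Q : Fin (p ^ 2) → ES F n (‖π n‖ ^ k) (by positivity) := fun i => ⟨⟨P i, hPE i⟩, hPn i⟩
  let U := (ES F n (‖π n‖ ^ (k + 1)) (by positivity)).addSubgroupOf
    (ES F n (‖π n‖ ^ k) (by positivity))
  have hrel : ∀ a b : ES F n (‖π n‖ ^ k) (by positivity),
      (QuotientAddGroup.mk a : _ ⧸ U) = QuotientAddGroup.mk b ↔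
        ‖t ((b : E n) : G) - t ((a : E n) : G)‖ ≤ ‖π n‖ ^ (k + 1) := by
    intro a b
    rw [QuotientAddGroup.eq]
    change ‖t (-((a : E n) : G) + ((b : E n) : G))‖ ≤ _ ↔ _
    rw [neg_add_eq_sub, m1_iso F]
  change Nat.card (_ ⧸ U) = p ^ 2
  rw [← Nat.card_congr (Equiv.ofBijective (fun i => (QuotientAddGroup.mk (Q i) : _ ⧸ U)) ⟨?_, ?_⟩),
    Nat.card_eq_fintype_card, Fintype.card_fin]
  · intro i j hij
    by_contra hne
    have h2 := (hrel _ _).1 hij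
    change ‖t (P j) - t (P i)‖ ≤ _ at h2
    rw [hPt, hPt, ← sub_mul, norm_mul, T.rs j i (fun h => hne h.symm), one_mul, norm_pow,
      pow_succ] at h2
    have h3 : 0 < ‖π n‖ ^ k := pow_pos h0 k
    nlinarith
  · intro x
    obtain ⟨a, rfl⟩ := QuotientAddGroup.mk_surjective x
    obtain ⟨i, hi, -⟩ := la_lead T ((F.mem n _).1 (a : E n).2) (k := k) a.2
    refine ⟨i, ?_⟩
    apply (hrel _ _).2
    change ‖t ((a : E n) : G) - t (P i)‖ ≤ _
    rw [hPt]
    exact hi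

/-- Chunk M4A (M). From norm ‖π‖^k to ‖π‖^l, k ≤ l, k ≥ 1: the index is (p²)^(l-k). PROOF. Induction on l - k (AddSubgroup.relIndex_mul_relIndex); one step: the quotient of ES ‖π‖^k by ES ‖π‖^(k+1) is in bijection with Fin (p²): i ↦ the point with
parameter r_i π^k (F.surj; ‖r_i π^k‖ < 1); two points P, Q are congruent iff ‖t P - t Q‖ ≤ ‖π‖^(k+1) (m1_iso); surjective by la_lead, injective by T.rs. -/
theorem m4a (T : Twr p H g π r) (F : Fgp p H g r t γ E al) (n k l : ℕ) (hk : 1 ≤ k) (hl : k ≤ l) :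
    (ES F n (‖π n‖ ^ l) (by positivity)).relIndex (ES F n (‖π n‖ ^ k) (by positivity)) = (p ^ 2) ^ (l - k) := by
  obtain ⟨h0, h1⟩ := la_pos T n
  induction l, hl using Nat.le_induction with
  | base => rw [AddSubgroup.relIndex_self, Nat.sub_self, pow_zero]
  | succ l hl ih =>
    rw [← AddSubgroup.relIndex_mul_relIndex (ES F n (‖π n‖ ^ (l + 1)) (by positivity))
      (ES F n (‖π n‖ ^ l) (by positivity)) (ES F n (‖π n‖ ^ k) (by positivity))
      (m4a_mono F n _ _ (pow_le_pow_of_le_one h0.le h1.le (Nat.le_succ l)))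
      (m4a_mono F n _ _ (pow_le_pow_of_le_one h0.le h1.le hl)), ih, m4a_step T F n l (by omega),
      Nat.succ_sub hl, pow_succ (p ^ 2), mul_comm]

/-- Chunk M4A (S). All points of level n have norm at most ‖π n‖ (la_step with k = 0). -/
theorem m4a_top (T : Twr p H g π r) (F : Fgp p H g r t γ E al) (n : ℕ) :
    ES F n (‖π n‖ ^ 1) (by positivity) = ⊤ := by
  rw [eq_top_iff]
  intro P _
  change ‖t (P : G)‖ ≤ ‖π n‖ ^ 1
  have h1 := la_step T ((F.mem n _).1 P.2) (k := 0) (by rw [pow_zero]; exact F.lt P)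
  rwa [zero_add] at h1

end H16S
end

-- from Lib.H16S.M4B
section

/-! # H16S, chunk M4B (S/M): the index of an injective endomorphism -/

namespace H16S

/-- Chunk M4B (S/M). f injective, U of finite index with f(U) ≤ U: the index of f(M) is the index of f(U) in U. PROOF. [M : f(U)] = [M : U] [U : f(U)] = [M : f(M)] [f(M) : f(U)] and [f(M) : f(U)] = [M : U] (f is an isomorphism of M onto f(M)), [M : U] is finite and not 0. -/
theorem m4b {M : Type} [AddCommGroup M] (f : M →+ M) (hf : Function.Injective f) (U : AddSubgroup M) (hU : U.index ≠ 0)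
    (h : U.map f ≤ U) : f.range.index = (U.map f).relIndex U := by
  have h1 : (U.map f).relIndex U * U.index = (U.map f).index := AddSubgroup.relIndex_mul_index h
  have h2 : (U.map f).index = U.index * f.range.index := AddSubgroup.index_map_of_injective U hf
  rw [h2, mul_comm] at h1
  exact (Nat.eq_of_mul_eq_mul_left (Nat.pos_of_ne_zero hU) h1).symm

end H16S
end

-- from Lib.H16S.M4C
section

/-! # H16S, chunk M4C (M): the number of classes modulo p -/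

namespace H16S

variable {p : ℕ} {L : Type} [NormedField L] [IsUltrametricDist L] {H : ℕ → Subfield L} {g : RingAut L} {π : ℕ → L}
  {r : Fin (p ^ 2) → L} {G : Type} [AddCommGroup G] {t : G → L} {γ : AddMonoid.End G} {E : ℕ → AddSubgroup G}
  {al : Fin (p ^ 2) → AddMonoid.End G}

theorem m4c_two (F : Fgp p H g r t γ E al) (T : Twr p H g π r) (n : ℕ) (U : AddSubgroup (E n))
    (hU : U = ES F n (‖π n‖ ^ (p ^ n)) (by positivity)) :
    U.map (nsmulAddMonoidHom (α := E n) p) = ES F n (‖π n‖ ^ (2 * p ^ n)) (by positivity) := by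
  subst hU
  have hp0 := la_npos T
  have e2 : ‖π n‖ ^ (2 * p ^ n) = ‖(p : L)‖ ^ 2 := by
    rw [mul_comm, pow_mul, T.piv n]
  ext R
  constructor
  · rintro ⟨P, hP, rfl⟩
    have hP' : ‖t ((P : E n) : G)‖ ≤ ‖π n‖ ^ (p ^ n) := hP
    change ‖t (((p • P : E n)) : G)‖ ≤ ‖π n‖ ^ (2 * p ^ n)
    rw [AddSubgroup.coe_nsmul, e2]
    rw [T.piv n] at hP'
    refine (m1_mul T.lt F _).trans (max_le ?_ ?_)
    · rw [sq]
      exact mul_le_mul_of_nonneg_left hP' hp0.le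
    · have h2 : 2 ≤ p ^ 2 := by
        have := T.five
        nlinarith
      calc ‖t ((P : E n) : G)‖ ^ p ^ 2 ≤ ‖(p : L)‖ ^ p ^ 2 :=
            pow_le_pow_left₀ (norm_nonneg _) hP' _
        _ ≤ ‖(p : L)‖ ^ 2 := pow_le_pow_of_le_one hp0.le T.lt.le h2
  · intro hR
    have hR' : ‖t ((R : E n) : G)‖ ≤ ‖π n‖ ^ (2 * p ^ n) := hR
    rw [e2] at hR'
    obtain ⟨P, hP, hPt, hPR⟩ := F.div n R R.2 hR'
    refine ⟨⟨P, hP⟩, ?_, ?_⟩
    · change ‖t P‖ ≤ ‖π n‖ ^ (p ^ n)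
      rw [T.piv n]
      exact hPt
    · apply Subtype.ext
      exact hPR

/-- Chunk M4C (M). PROOF. M = E n, f = multiplication by p (injective by m2), U = ES ‖p‖ = ES ‖π n‖^(p^n); f(U) = ES ‖p‖² (⊆: m1_mul; ⊇: F.div) = ES ‖π n‖^(2 p^n); U has finite index (m4a with k = 1, m4a_top). m4b and m4a:
the index is (p²)^(p^n). -/
theorem m4c (T : Twr p H g π r) (F : Fgp p H g r t γ E al) (n : ℕ) :
    (AddMonoidHom.range (nsmulAddMonoidHom (α := E n) p)).index = (p ^ 2) ^ p ^ n := by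
  obtain ⟨h0, h1⟩ := la_pos T n
  have hpn : 1 ≤ p ^ n := Nat.one_le_pow _ _ T.pr.pos
  have hinj : Function.Injective (nsmulAddMonoidHom (α := E n) p) := by
    rw [injective_iff_map_eq_zero]
    intro P hP
    apply Subtype.ext
    apply m2 T F P.2
    have h2 := congrArg (fun x : E n => (x : G)) hP
    exact h2
  have hidx : (ES F n (‖π n‖ ^ (p ^ n)) (by positivity)).index = (p ^ 2) ^ (p ^ n - 1) := by
    rw [← AddSubgroup.relIndex_top_right, ← m4a_top T F n]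
    exact m4a T F n 1 (p ^ n) le_rfl hpn
  have hidx0 : (ES F n (‖π n‖ ^ (p ^ n)) (by positivity)).index ≠ 0 := by
    rw [hidx]
    exact pow_ne_zero _ (pow_ne_zero _ T.pr.ne_zero)
  have hmap := m4c_two F T n _ rfl
  have hle : (ES F n (‖π n‖ ^ (p ^ n)) (by positivity)).map (nsmulAddMonoidHom (α := E n) p) ≤
      ES F n (‖π n‖ ^ (p ^ n)) (by positivity) := by
    rw [hmap]
    exact m4a_mono F n _ _ (pow_le_pow_of_le_one h0.le h1.le (by omega))
  rw [m4b _ hinj _ hidx0 hle, hmap, m4a T F n (p ^ n) (2 * p ^ n) hpn (by omega)]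
  congr 1
  omega

end H16S
end

-- from Lib.H16S.TB
section

/-! # H16S, chunk TB (M): the Teichmüller elements -/

namespace H16S

variable {p : ℕ} [hp : Fact p.Prime]

theorem tb_ne (n : ℕ) : p ^ (n + 1) ≠ 0 := pow_ne_zero _ hp.out.ne_zero

instance tb_nezero (n : ℕ) : NeZero (p ^ (n + 1)) := ⟨tb_ne n⟩

theorem tb_cardG (n : ℕ) : Nat.card (ZMod (p ^ (n + 1)))ˣ = p ^ n * (p - 1) := by
  rw [Nat.card_eq_fintype_card, ZMod.card_units_eq_totient, Nat.totient_prime_pow_succ hp.out]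

theorem tb_mem {n : ℕ} {u : (ZMod (p ^ (n + 1)))ˣ} : u ∈ Tm p n ↔ u ^ (p - 1) = 1 := by
  simp [Tm]

/-- Chunk TB (M). There are p - 1 Teichmüller elements (p odd). PROOF. The group of units modulo p^(n+1) is cyclic of order p^n (p - 1) (ZMod.isCyclic_units_of_prime_pow), so u^(p-1) = 1 has exactly p - 1 solutions (IsCyclic.card_pow_eq_one..). Or: u ↦ u^(p^n) maps onto. -/
theorem tb_card (h2 : p ≠ 2) (n : ℕ) : (Tm p n).card = p - 1 := by
  haveI : IsCyclic (ZMod (p ^ (n + 1)))ˣ := ZMod.isCyclic_units_of_prime_pow p hp.out h2 (n + 1)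
  have h1 := IsCyclic.card_powMonoidHom_ker (ZMod (p ^ (n + 1)))ˣ (p - 1)
  rw [tb_cardG, Nat.gcd_mul_left_left] at h1
  rw [← h1]
  refine (Nat.subtype_card (Tm p n) fun u => ?_).symm
  rw [tb_mem, MonoidHom.mem_ker, powMonoidHom_apply]

/-- Chunk TB (M). Reduction modulo a smaller power is a bijection of the Teichmüller elements (k ≤ n). PROOF. It maps Tm p n into Tm p k; injective: a unit u = 1 modulo p (so u = 1 modulo p^(k+1) implies it) has order a power of p, and u^(p-1) = 1, so u = 1; the cardinalities agree (tb_card). Here the map is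
ZMod.unitsMap (pow_dvd_pow p ..). -/
theorem tb_red (h2 : p ≠ 2) {k n : ℕ} (h : k ≤ n) :
    Set.BijOn (ZMod.unitsMap (pow_dvd_pow p (Nat.succ_le_succ h) : p ^ (k + 1) ∣ p ^ (n + 1))) (Tm p n : Set _) (Tm p k : Set _) := by
  have hmaps : Set.MapsTo (ZMod.unitsMap (pow_dvd_pow p (Nat.succ_le_succ h) : p ^ (k + 1) ∣ p ^ (n + 1)))
      (Tm p n : Set _) (Tm p k : Set _) := by
    intro u hu
    rw [Finset.mem_coe, tb_mem] at hu ⊢
    rw [← map_pow, hu, map_one]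
  have hinj : Set.InjOn (ZMod.unitsMap (pow_dvd_pow p (Nat.succ_le_succ h) : p ^ (k + 1) ∣ p ^ (n + 1)))
      (Tm p n : Set _) := by
    intro u hu w hw huw
    rw [Finset.mem_coe, tb_mem] at hu hw
    have h1 : (u * w⁻¹) ^ (p - 1) = 1 := by rw [mul_pow, inv_pow, hu, hw, inv_one, mul_one]
    have h3 : u * w⁻¹ ∈ (ZMod.unitsMap (pow_dvd_pow p (Nat.succ_le_succ h) : p ^ (k + 1) ∣ p ^ (n + 1))).ker := by
      rw [MonoidHom.mem_ker, map_mul, map_inv, huw, mul_inv_cancel]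
    have h4 := Subgroup.card_mul_index
      (ZMod.unitsMap (pow_dvd_pow p (Nat.succ_le_succ h) : p ^ (k + 1) ∣ p ^ (n + 1))).ker
    rw [Subgroup.index_ker, MonoidHom.range_eq_top.2 (ZMod.unitsMap_surjective _), Subgroup.card_top,
      tb_cardG, tb_cardG] at h4
    have h5 : Nat.card (ZMod.unitsMap (pow_dvd_pow p (Nat.succ_le_succ h) : p ^ (k + 1) ∣ p ^ (n + 1))).ker =
        p ^ (n - k) := by
      have hpos : 0 < p ^ k * (p - 1) := Nat.mul_pos (pow_pos hp.out.pos k) (Nat.sub_pos_of_lt hp.out.one_lt)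
      apply Nat.eq_of_mul_eq_mul_right hpos
      rw [h4, ← mul_assoc, ← pow_add, Nat.sub_add_cancel h]
    have h6 : orderOf (u * w⁻¹) ∣ p ^ (n - k) := by
      rw [← h5]
      exact Subgroup.orderOf_dvd_natCard _ h3
    have h7 : orderOf (u * w⁻¹) ∣ p - 1 := orderOf_dvd_of_pow_eq_one h1
    have h8 : Nat.Coprime (p ^ (n - k)) (p - 1) := by
      apply Nat.Coprime.pow_left
      have h9 : Nat.Coprime (p - 1 + 1) (p - 1) := by simp
      rwa [Nat.sub_add_cancel hp.out.one_lt.le] at h9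
    have h10 : orderOf (u * w⁻¹) = 1 := Nat.eq_one_of_dvd_coprimes h8 h6 h7
    rw [orderOf_eq_one_iff] at h10
    exact mul_inv_eq_one.1 h10
  refine ⟨hmaps, hinj, ?_⟩
  apply Finset.surjOn_of_injOn_of_card_le _ hmaps hinj
  rw [tb_card h2, tb_card h2]

/-- Chunk TB (S). Modulo p all units are Teichmüller elements. -/
theorem tb_zero : Tm p 0 = Finset.univ := by
  ext u
  rw [tb_mem]
  have h1 := ZMod.pow_totient u
  rw [Nat.totient_prime_pow_succ hp.out, pow_zero, one_mul] at h1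
  simp [h1]

/-- Chunk TB (S/M). A product over Tm of a function of the residue class is invariant under multiplication by a Teichmüller element: f a function of exponents with f a = f b for a ≡ b modulo p^(n+1). -/
theorem tb_prod {M : Type} [CommMonoid M] (n : ℕ) (f : ℕ → M) (hf : ∀ a b : ℕ, a ≡ b [MOD p ^ (n + 1)] → f a = f b)
    {m : ℕ} (hm : m ^ (p - 1) ≡ 1 [MOD p ^ (n + 1)]) :
    ∏ u ∈ Tm p n, f (m * (u : ZMod (p ^ (n + 1))).val) = ∏ u ∈ Tm p n, f ((u : ZMod (p ^ (n + 1))).val) := by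
  have h1 : Nat.Coprime m (p ^ (n + 1)) := by
    have h2 : Nat.Coprime (m ^ (p - 1)) (p ^ (n + 1)) := by
      rw [Nat.Coprime, hm.gcd_eq, Nat.gcd_one_left]
    exact Nat.Coprime.coprime_dvd_left (dvd_pow_self m (Nat.sub_pos_of_lt hp.out.one_lt).ne') h2
  obtain ⟨w, hw⟩ : ∃ w : (ZMod (p ^ (n + 1)))ˣ, (w : ZMod (p ^ (n + 1))) = m :=
    ⟨ZMod.unitOfCoprime m h1, ZMod.coe_unitOfCoprime m h1⟩
  have hw1 : w ^ (p - 1) = 1 := by
    apply Units.ext
    have h3 := (ZMod.natCast_eq_natCast_iff (m ^ (p - 1)) 1 (p ^ (n + 1))).2 hm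
    rw [Nat.cast_pow, Nat.cast_one] at h3
    rw [Units.val_pow_eq_pow_val, hw, Units.val_one, h3]
  refine Finset.prod_nbij' (fun u => w * u) (fun u => w⁻¹ * u) ?_ ?_ ?_ ?_ ?_
  · intro u hu
    rw [tb_mem] at hu ⊢
    rw [mul_pow, hw1, hu, one_mul]
  · intro u hu
    rw [tb_mem] at hu ⊢
    rw [mul_pow, inv_pow, hw1, hu, inv_one, one_mul]
  · intro u _
    exact inv_mul_cancel_left w u
  · intro u _
    exact mul_inv_cancel_left w u
  · intro u _
    apply hf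
    rw [← ZMod.natCast_eq_natCast_iff, Nat.cast_mul, ZMod.natCast_zmod_val, ZMod.natCast_zmod_val,
      Units.val_mul, hw]

/-- Chunk TB (M). A product over Tm p n of a function which depends on the exponent modulo p^(k+1) only, k ≤ n, is the product over Tm p k (tb_red). -/
theorem tb_prod_red {M : Type} [CommMonoid M] (h2 : p ≠ 2) {k n : ℕ} (h : k ≤ n) (f : ℕ → M)
    (hf : ∀ a b : ℕ, a ≡ b [MOD p ^ (k + 1)] → f a = f b) :
    ∏ u ∈ Tm p n, f ((u : ZMod (p ^ (n + 1))).val) = ∏ u ∈ Tm p k, f ((u : ZMod (p ^ (k + 1))).val) := by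
  obtain ⟨h1, h3, h4⟩ := tb_red (p := p) h2 h
  refine Finset.prod_nbij
    (fun u => ZMod.unitsMap (pow_dvd_pow p (Nat.succ_le_succ h) : p ^ (k + 1) ∣ p ^ (n + 1)) u) ?_ h3 h4 ?_
  · intro u hu
    exact h1 hu
  · intro u _
    apply hf
    rw [ZMod.unitsMap_val, ← ZMod.natCast_val, ZMod.val_natCast]
    exact (Nat.mod_modEq _ _).symm

end H16S
end

-- from Lib.H16S.TF
section

/-! # H16S, chunk TF (M): exponents -/

namespace H16S

variable {p : ℕ} [hp : Fact p.Prime]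

theorem tf_euler {c : ℕ} (hc : ¬ p ∣ c) (n : ℕ) : c ^ (p ^ n * (p - 1)) ≡ 1 [MOD p ^ (n + 1)] := by
  have h1 : Nat.Coprime c (p ^ (n + 1)) :=
    (Nat.Coprime.pow_left _ ((Nat.Prime.coprime_iff_not_dvd hp.out).2 hc)).symm
  have h2 := Nat.ModEq.pow_totient h1
  rwa [Nat.totient_prime_pow_succ hp.out] at h2

omit hp in
theorem tf_pow {R : Type} [CommRing R] {P : R} (hP : P * P = 0) (k : R) (i : ℕ) :
    (1 + k * P) ^ i = 1 + i * k * P := by
  induction i with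
  | zero => simp
  | succ i ih =>
    rw [pow_succ, ih]
    push_cast
    linear_combination ((i : R) * k * k) * hP

/-- Chunk TF (M). c prime to p, c^(p-1) not 1 modulo p². Then there are k prime to p and, for every i, t_i with t_i^(p-1) = 1 modulo p^(n+2), such that c^(i p^n) = t_i (1 + i k p^(n+1)) modulo p^(n+2). PROOF. c^(p-1) = 1 + p k₀, p not dividing k₀; (1 + p k₀)^(p^n) = 1 + p^(n+1) k₀ modulo p^(n+2) (p odd; induction). In the group of
units modulo p^(n+2): t = c^(p^(n+1)) has t^(p-1) = 1 (Euler), and t = c^(p^n) (c^(p-1))^(p^n), so c^(p^n) = t (1 + p^(n+1) k₀)⁻¹ = t (1 - k₀ p^(n+1)) = t (1 + k p^(n+1)), k = (p - 1) k₀ (so that k is a natural number). i-th powers: (1 + k p^(n+1))^i = 1 + i k p^(n+1). t_i = t^i. -/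
theorem tf {c : ℕ} (h2 : p ≠ 2) (hc : ¬ p ∣ c) (hg : ¬ c ^ (p - 1) ≡ 1 [MOD p ^ 2]) (n : ℕ) :
    ∃ k : ℕ, ¬ p ∣ k ∧ ∀ i : ℕ, ∃ t : ℕ, t ^ (p - 1) ≡ 1 [MOD p ^ (n + 2)] ∧
      c ^ (i * p ^ n) ≡ t * (1 + i * k * p ^ (n + 1)) [MOD p ^ (n + 2)] := by
  have hp2 : 2 < p := lt_of_le_of_ne hp.out.two_le (Ne.symm h2)
  -- the number k₀
  have h1 : c ^ (p - 1) ≡ 1 [MOD p] := by
    have h3 := tf_euler hc 0
    rwa [pow_zero, one_mul, zero_add, pow_one] at h3
  have hc1 : 1 ≤ c ^ (p - 1) := Nat.one_le_iff_ne_zero.2 fun h0 => by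
    have h4 := pow_eq_zero_iff (Nat.sub_pos_of_lt hp.out.one_lt).ne' |>.1 h0
    exact hc (h4 ▸ dvd_zero p)
  obtain ⟨k₀, hk₀⟩ := (Nat.modEq_iff_dvd' hc1).1 h1.symm
  have hck : c ^ (p - 1) = 1 + p * k₀ := by omega
  have hk0 : ¬ p ∣ k₀ := by
    rintro ⟨j, hj⟩
    apply hg
    apply Nat.ModEq.symm
    rw [Nat.modEq_iff_dvd' hc1]
    exact ⟨j, by rw [hk₀, hj, sq, mul_assoc]⟩
  obtain ⟨y, hy⟩ := ZMod.exists_one_add_mul_pow_prime_pow_eq (R := ℕ) (u := p) (v := p) hp.out dvd_rfl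
    (by
      rw [Nat.cast_id]
      have h5 : p * p * p = p ^ 3 := by ring
      rw [h5]
      exact pow_dvd_pow p hp2) k₀ n
  refine ⟨(p - 1) * k₀, ?_, ?_⟩
  · intro hd
    rcases (Nat.Prime.dvd_mul hp.out).1 hd with h3 | h3
    · have h4 := Nat.le_of_dvd (Nat.sub_pos_of_lt hp.out.one_lt) h3
      omega
    · exact hk0 h3
  intro i
  refine ⟨(c ^ p ^ (n + 1)) ^ i, ?_, ?_⟩
  · rw [← pow_mul, ← pow_mul]
    have h3 := (tf_euler hc (n + 1)).pow i
    rw [← pow_mul, one_pow] at h3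
    have e1 : p ^ (n + 1) * (p - 1) * i = p ^ (n + 1) * (i * (p - 1)) := by ring
    rw [e1] at h3
    exact h3
  · rw [← ZMod.natCast_eq_natCast_iff]
    have hP0 : ((p : ZMod (p ^ (n + 2))) ^ (n + 2)) = 0 := by
      rw [← Nat.cast_pow]
      exact ZMod.natCast_self _
    have hP : ((p : ZMod (p ^ (n + 2))) ^ (n + 1)) * ((p : ZMod (p ^ (n + 2))) ^ (n + 1)) = 0 := by
      have e1 : ((p : ZMod (p ^ (n + 2))) ^ (n + 1)) * ((p : ZMod (p ^ (n + 2))) ^ (n + 1)) =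
          ((p : ZMod (p ^ (n + 2))) ^ (n + 2)) * (p : ZMod (p ^ (n + 2))) ^ n := by ring
      rw [e1, hP0, zero_mul]
    have hPp : ((p : ZMod (p ^ (n + 2))) ^ (n + 1)) * (p : ZMod (p ^ (n + 2))) = 0 := by
      rw [← pow_succ]
      exact hP0
    have hC : ((c : ZMod (p ^ (n + 2))) ^ p ^ n) ^ (p - 1) = 1 + (p : ZMod (p ^ (n + 2))) ^ (n + 1) * k₀ := by
      rw [← pow_mul, mul_comm, pow_mul]
      have h3 := congrArg (fun z : ℕ => (z : ZMod (p ^ (n + 2)))) hck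
      have h4 := congrArg (fun z : ℕ => (z : ZMod (p ^ (n + 2)))) hy
      push_cast at h3 h4
      rw [h3, h4]
      linear_combination (y : ZMod (p ^ (n + 2))) * hPp
    obtain ⟨C, hCdef⟩ : ∃ C, C = (c : ZMod (p ^ (n + 2))) ^ p ^ n := ⟨_, rfl⟩
    rw [← hCdef] at hC
    have ht : (c : ZMod (p ^ (n + 2))) ^ p ^ (n + 1) = C * (1 + (p : ZMod (p ^ (n + 2))) ^ (n + 1) * k₀) := by
      rw [← hC, ← pow_succ', Nat.sub_add_cancel hp.out.one_lt.le, hCdef, ← pow_mul, ← pow_succ]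
    push_cast
    rw [mul_comm i, pow_mul, ← hCdef, ht]
    have e2 : ((p - 1 : ℕ) : ZMod (p ^ (n + 2))) = (p : ZMod (p ^ (n + 2))) - 1 := by
      rw [Nat.cast_sub hp.out.one_lt.le, Nat.cast_one]
    have e3 : (1 : ZMod (p ^ (n + 2))) + i * ((p - 1 : ℕ) * k₀) * (p : ZMod (p ^ (n + 2))) ^ (n + 1) =
        1 + i * (-(k₀ : ZMod (p ^ (n + 2)))) * (p : ZMod (p ^ (n + 2))) ^ (n + 1) := by
      rw [e2]
      linear_combination ((i : ZMod (p ^ (n + 2))) * k₀) * hPp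
    rw [e3, ← tf_pow hP, ← mul_pow]
    congr 1
    linear_combination (C * k₀ * k₀) * hP


end H16S
end

-- from Lib.H16S.TC
section

/-! # H16S, chunk TC (M): the uniformizers -/

namespace H16S

variable {p : ℕ} [hp : Fact p.Prime] {L : Type} [NormedField L] [IsUltrametricDist L] {ζ : ℕ → L}

omit hp in
theorem tc_modEq {m : ℕ} {z : L} (hz : z ^ m = 1) {a b : ℕ} (h : a ≡ b [MOD m]) : z ^ a = z ^ b := by
  rw [pow_eq_pow_mod a hz, pow_eq_pow_mod b hz, h]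

theorem tc_prim {n : ℕ} {z : L} (hz : IsPrimitiveRoot z (p ^ (n + 1))) (u : (ZMod (p ^ (n + 1)))ˣ) :
    IsPrimitiveRoot (z ^ (u : ZMod (p ^ (n + 1))).val) (p ^ (n + 1)) :=
  hz.pow_of_coprime _ (ZMod.val_coe_unit_coprime u)

theorem tc_cyc {n : ℕ} {z : L} (hz : IsPrimitiveRoot z (p ^ (n + 1))) :
    ∏ u : (ZMod (p ^ (n + 1)))ˣ, (1 - z ^ (u : ZMod (p ^ (n + 1))).val) = p := by
  have hm : p ^ (n + 1) ≠ 0 := tb_ne n
  have h1 := Polynomial.eval_one_cyclotomic_prime_pow (R := L) (p := p) n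
  rw [Polynomial.cyclotomic_eq_prod_X_sub_primitiveRoots hz, Polynomial.eval_prod] at h1
  rw [← h1]
  refine Finset.prod_nbij (fun u => z ^ (u : ZMod (p ^ (n + 1))).val) ?_ ?_ ?_ ?_
  · intro u _
    rw [mem_primitiveRoots (Nat.pos_of_ne_zero hm)]
    exact tc_prim hz u
  · intro u _ w _ huw
    apply Units.ext
    apply ZMod.val_injective
    exact hz.pow_inj (ZMod.val_lt _) (ZMod.val_lt _) huw
  · intro μ hμ
    rw [Finset.mem_coe, mem_primitiveRoots (Nat.pos_of_ne_zero hm)] at hμ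
    rw [hz.isPrimitiveRoot_iff] at hμ
    obtain ⟨i, hi, hc, hμ⟩ := hμ
    refine ⟨ZMod.unitOfCoprime i hc, Finset.mem_coe.2 (Finset.mem_univ _), ?_⟩
    show z ^ ((ZMod.unitOfCoprime i hc : (ZMod (p ^ (n + 1)))ˣ) : ZMod (p ^ (n + 1))).val = μ
    rw [ZMod.coe_unitOfCoprime, ZMod.val_natCast, Nat.mod_eq_of_lt hi]
    exact hμ
  · intro u _
    rw [Polynomial.eval_sub, Polynomial.eval_X, Polynomial.eval_C]

omit hp in
theorem tc_prod {ι : Type} (S : Finset ι) (a b : ι → L) {c : ℝ} (hc : 0 ≤ c) (ha : ∀ i ∈ S, ‖a i‖ ≤ 1)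
    (hb : ∀ i ∈ S, ‖b i‖ ≤ 1) (h : ∀ i ∈ S, ‖a i - b i‖ ≤ c) : ‖∏ i ∈ S, a i - ∏ i ∈ S, b i‖ ≤ c := by
  classical
  induction S using Finset.induction_on with
  | empty =>
    rw [Finset.prod_empty, Finset.prod_empty, sub_self, norm_zero]
    exact hc
  | insert i S hi ih =>
    rw [Finset.prod_insert hi, Finset.prod_insert hi]
    have h1 := ih (fun j hj => ha j (Finset.mem_insert_of_mem hj)) (fun j hj => hb j (Finset.mem_insert_of_mem hj))
      (fun j hj => h j (Finset.mem_insert_of_mem hj))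
    have h2 : ‖∏ j ∈ S, b j‖ ≤ 1 := by
      rw [norm_prod]
      exact Finset.prod_le_one (fun j _ => norm_nonneg _) (fun j hj => hb j (Finset.mem_insert_of_mem hj))
    have e : a i * ∏ j ∈ S, a j - b i * ∏ j ∈ S, b j =
        a i * (∏ j ∈ S, a j - ∏ j ∈ S, b j) + (a i - b i) * ∏ j ∈ S, b j := by ring
    rw [e]
    refine (IsUltrametricDist.norm_add_le_max _ _).trans (max_le ?_ ?_)
    · rw [norm_mul]
      exact (mul_le_of_le_one_left (norm_nonneg _) (ha i (Finset.mem_insert_self i S))).trans h1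
    · rw [norm_mul]
      exact (mul_le_of_le_one_right (norm_nonneg _) h2).trans (h i (Finset.mem_insert_self i S))

omit hp in
theorem tc_prod1 {ι : Type} (S : Finset ι) (a : ι → L) (ha : ∀ i ∈ S, ‖a i‖ < 1) :
    ‖∏ i ∈ S, (1 + a i) - 1‖ < 1 := by
  classical
  induction S using Finset.induction_on with
  | empty =>
    rw [Finset.prod_empty, sub_self, norm_zero]
    exact zero_lt_one
  | insert i S hi ih =>
    rw [Finset.prod_insert hi]
    have h1 := ih (fun j hj => ha j (Finset.mem_insert_of_mem hj))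
    have h3 : ‖∏ j ∈ S, (1 + a j)‖ ≤ 1 := by
      have e : ∏ j ∈ S, (1 + a j) = (∏ j ∈ S, (1 + a j) - 1) + 1 := by ring
      rw [e]
      refine (IsUltrametricDist.norm_add_le_max _ _).trans (max_le h1.le ?_)
      rw [norm_one]
    have e : (1 + a i) * ∏ j ∈ S, (1 + a j) - 1 = a i * ∏ j ∈ S, (1 + a j) + (∏ j ∈ S, (1 + a j) - 1) := by ring
    rw [e]
    refine (IsUltrametricDist.norm_add_le_max _ _).trans_lt (max_lt ?_ h1)
    rw [norm_mul]
    exact (mul_le_of_le_one_right (norm_nonneg _) h3).trans_lt (ha i (Finset.mem_insert_self i S))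

/-- Chunk TC (S/M). ‖π n‖^(p^n) = ‖p‖: the p - 1 factors (tb_card) have the same norm c, c^(p^n (p-1)) = ‖p‖ (ta_norm; the values of units are prime to p). -/
theorem tc_piv (h2 : p ≠ 2) (Z : Zt p ζ) (n : ℕ) : ‖piT p ζ n‖ ^ p ^ n = ‖(p : L)‖ := by
  have hz := zt_prim Z n
  have h1 : ∀ u ∈ Tm p n, ‖1 - ζ n ^ (u : ZMod (p ^ (n + 1))).val‖ = ‖1 - ζ n‖ := fun u _ =>
    ta_eq (tb_ne n) (tc_prim hz u) hz
  rw [piT, norm_prod, Finset.prod_congr rfl h1, Finset.prod_const, tb_card h2, ← pow_mul, mul_comm]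
  have h3 := ta_norm hz (a := 1) (Nat.Prime.not_dvd_one hp.out)
  rwa [pow_one] at h3

/-- Chunk TC (S/M). π 0 = p: tb_zero, the product of 1 - ζ^a over all a = 1..p-1 is p. -/
theorem tc_zero (Z : Zt p ζ) : piT p ζ 0 = p := by
  rw [piT, tb_zero]
  exact tc_cyc (zt_prim Z 0)

/-- Chunk TC (S/M). (1 - z)^p = 1 - z^p + p (1 - z) e with ‖e‖ ≤ 1, for ‖z‖ = 1 (p odd). PROOF. The polynomial (1 - X)^p - 1 + X^p has coefficients divisible by p and vanishes at 1: it is p (1 - X) times a polynomial with integer coefficients. -/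
theorem tc_pow (h2 : p ≠ 2) {z : L} (hz : ‖z‖ = 1) : ∃ e : L, ‖e‖ ≤ 1 ∧ (1 - z) ^ p = 1 - z ^ p + p * (1 - z) * e := by
  have hodd : Odd p := hp.out.odd_of_ne_two h2
  have hw : ‖-(1 - z)‖ ≤ 1 := by
    rw [norm_neg, sub_eq_add_neg]
    refine (IsUltrametricDist.norm_add_le_max _ _).trans (max_le ?_ ?_)
    · rw [norm_one]
    · rw [norm_neg, hz]
  obtain ⟨r, hr⟩ := exists_add_pow_prime_eq hp.out (1 : lcO L) ⟨-(1 - z), hw⟩
  have h := congrArg (fun x : lcO L => (x : L)) hr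
  simp only [Subring.coe_pow, Subring.coe_add, Subring.coe_mul, Subring.coe_natCast, Subring.coe_one,
    one_pow] at h
  rw [hodd.neg_pow] at h
  have e1 : (1 : L) + -(1 - z) = z := by ring
  rw [e1] at h
  refine ⟨-(r : L), ?_, ?_⟩
  · rw [norm_neg]
    exact r.2
  · rw [h]
    ring

/-- Chunk TC (M). ‖π (n+1)^p - π n‖ ≤ ‖p‖. PROOF. tc_pow for z = ζ (n+1)^u: z^p = (ζ n)^u; the product over Tm p (n+1) of 1 - (ζ n)^u is π n (tb_prod_red with k = n: (ζ n)^u depends on u modulo p^(n+1)). All factors are integral, so the product of the p-th powers is the product of the 1 - z^p modulo p. -/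
theorem tc_pip (h2 : p ≠ 2) (hlt : ‖(p : L)‖ < 1) (Z : Zt p ζ) (n : ℕ) : ‖piT p ζ (n + 1) ^ p - piT p ζ n‖ ≤ ‖(p : L)‖ := by
  have hz := zt_prim Z n
  have hz1 := zt_prim Z (n + 1)
  have h1 : piT p ζ n = ∏ u ∈ Tm p (n + 1), (1 - ζ n ^ (u : ZMod (p ^ (n + 1 + 1))).val) := by
    rw [piT]
    refine (tb_prod_red h2 (Nat.le_succ n) (fun a => 1 - ζ n ^ a) ?_).symm
    intro a b hab
    show 1 - ζ n ^ a = 1 - ζ n ^ b
    rw [tc_modEq hz.pow_eq_one hab]
  rw [h1, piT, ← Finset.prod_pow]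
  have hle : ∀ (x : L), ‖x‖ = 1 → ‖1 - x‖ ≤ 1 := by
    intro x hx
    rw [sub_eq_add_neg]
    refine (IsUltrametricDist.norm_add_le_max _ _).trans (max_le ?_ ?_)
    · rw [norm_one]
    · rw [norm_neg, hx]
  have hn1 : ∀ k : ℕ, ‖ζ (n + 1) ^ k‖ = 1 := fun k => by
    rw [norm_pow, ta_one (tb_ne (n + 1)) hz1.pow_eq_one, one_pow]
  have hn0 : ∀ k : ℕ, ‖ζ n ^ k‖ = 1 := fun k => by
    rw [norm_pow, ta_one (tb_ne n) hz.pow_eq_one, one_pow]
  apply tc_prod _ _ _ (norm_nonneg _)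
  · intro u _
    rw [norm_pow]
    exact pow_le_one₀ (norm_nonneg _) (hle _ (hn1 _))
  · intro u _
    exact hle _ (hn0 _)
  · intro u _
    obtain ⟨e, he, he2⟩ := tc_pow h2 (hn1 (u : ZMod (p ^ (n + 1 + 1))).val)
    rw [he2, ← pow_mul, mul_comm (u : ZMod (p ^ (n + 1 + 1))).val p, pow_mul, Z.zs]
    have e1 : 1 - ζ n ^ (u : ZMod (p ^ (n + 1 + 1))).val +
        (p : L) * (1 - ζ (n + 1) ^ (u : ZMod (p ^ (n + 1 + 1))).val) * e -
        (1 - ζ n ^ (u : ZMod (p ^ (n + 1 + 1))).val) =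
        (p : L) * ((1 - ζ (n + 1) ^ (u : ZMod (p ^ (n + 1 + 1))).val) * e) := by ring
    rw [e1, norm_mul, norm_mul]
    exact mul_le_of_le_one_right (norm_nonneg _) (mul_le_one₀ (hle _ (hn1 _)) (norm_nonneg _) he)

/-- Chunk TC (M). ‖π 1^p - p‖ < ‖p‖. PROOF. As tc_pip with relative errors: (1 - z)^p = (1 - z^p)(1 + e'), ‖e'‖ < 1, because ‖1 - z^p‖^(p-1) = ‖p‖ (ta_norm, n = 0; p - 1 ≥ 2), so ‖1 - z^p‖ > ‖p‖ ≥ ‖p (1 - z) e‖. The product of the 1 + e' is 1 + (something of norm < 1), the product of the 1 - z^p is π 0 = p. -/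
theorem tc_pi1 (h2 : p ≠ 2) (hlt : ‖(p : L)‖ < 1) (hne : (p : L) ≠ 0) (Z : Zt p ζ) : ‖piT p ζ 1 ^ p - p‖ < ‖(p : L)‖ := by
  have hz0 := zt_prim Z 0
  have hz1 := zt_prim Z 1
  have hp0 : 0 < ‖(p : L)‖ := norm_pos_iff.2 hne
  have h1 : (p : L) = ∏ u ∈ Tm p 1, (1 - ζ 0 ^ (u : ZMod (p ^ (1 + 1))).val) := by
    rw [← tc_zero Z, piT]
    refine (tb_prod_red h2 (Nat.zero_le 1) (fun a => 1 - ζ 0 ^ a) ?_).symm
    intro a b hab
    show 1 - ζ 0 ^ a = 1 - ζ 0 ^ b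
    rw [tc_modEq hz0.pow_eq_one hab]
  have hn1 : ∀ k : ℕ, ‖ζ 1 ^ k‖ = 1 := fun k => by
    rw [norm_pow, ta_one (tb_ne 1) hz1.pow_eq_one, one_pow]
  have h3 : ∀ u : (ZMod (p ^ (1 + 1)))ˣ, ∃ e : L, ‖e‖ < 1 ∧
      (1 - ζ 1 ^ (u : ZMod (p ^ (1 + 1))).val) ^ p = (1 - ζ 0 ^ (u : ZMod (p ^ (1 + 1))).val) * (1 + e) := by
    intro u
    obtain ⟨e, he, he2⟩ := tc_pow h2 (hn1 (u : ZMod (p ^ (1 + 1))).val)
    rw [← pow_mul, mul_comm (u : ZMod (p ^ (1 + 1))).val p, pow_mul, Z.zs] at he2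
    have hu : ¬ p ∣ (u : ZMod (p ^ (1 + 1))).val := by
      intro hd
      have h4 := ZMod.val_coe_unit_coprime u
      have h5 : p ∣ p ^ (1 + 1) := dvd_pow_self p (by norm_num)
      exact Nat.not_coprime_of_dvd_of_dvd hp.out.one_lt hd h5 h4
    have h6 := ta_norm hz0 hu
    rw [pow_zero, one_mul] at h6
    have h7 : ‖1 - ζ 0 ^ (u : ZMod (p ^ (1 + 1))).val‖ ≤ 1 := (ta_lt hlt hz0 _).1.le
    have h8 : ‖(p : L)‖ ≤ ‖1 - ζ 0 ^ (u : ZMod (p ^ (1 + 1))).val‖ := by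
      rw [← h6]
      exact pow_le_of_le_one (norm_nonneg _) h7 (Nat.sub_pos_of_lt hp.out.one_lt).ne'
    have h9 : 0 < ‖1 - ζ 0 ^ (u : ZMod (p ^ (1 + 1))).val‖ := hp0.trans_le h8
    have h10 : 1 - ζ 0 ^ (u : ZMod (p ^ (1 + 1))).val ≠ 0 := norm_pos_iff.1 h9
    refine ⟨(p : L) * (1 - ζ 1 ^ (u : ZMod (p ^ (1 + 1))).val) * e / (1 - ζ 0 ^ (u : ZMod (p ^ (1 + 1))).val), ?_, ?_⟩
    · rw [norm_div, div_lt_one h9]
      refine lt_of_lt_of_le ?_ h8
      rw [mul_assoc, norm_mul]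
      apply mul_lt_of_lt_one_right hp0
      rw [norm_mul]
      exact (mul_le_of_le_one_right (norm_nonneg _) he).trans_lt (ta_lt hlt hz1 _).1
    · rw [he2, mul_add, mul_one]
      congr 1
      field_simp
  choose e he he2 using h3
  have h4 : piT p ζ 1 ^ p = (p : L) * ∏ u ∈ Tm p 1, (1 + e u) := by
    rw [piT, ← Finset.prod_pow, Finset.prod_congr rfl fun u _ => he2 u, Finset.prod_mul_distrib, ← h1]
  have h5 := tc_prod1 (Tm p 1) e (fun u _ => he u)
  have e1 : piT p ζ 1 ^ p - p = (p : L) * (∏ u ∈ Tm p 1, (1 + e u) - 1) := by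
    rw [h4]
    ring
  rw [e1, norm_mul]
  exact mul_lt_of_lt_one_right hp0 h5

end H16S
end

-- from Lib.H16S.TE
section

/-! # H16S, chunk TE (M): sums over the p-th roots of unity -/

namespace H16S

variable {p : ℕ} [hp : Fact p.Prime] {L : Type} [NormedField L] [IsUltrametricDist L]

theorem te_cyc {K : Type} [Field K] {n : ℕ} {z : K} (hz : IsPrimitiveRoot z (p ^ (n + 1))) :
    ∏ u : (ZMod (p ^ (n + 1)))ˣ, (1 - z ^ (u : ZMod (p ^ (n + 1))).val) = p := by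
  have hm : p ^ (n + 1) ≠ 0 := pow_ne_zero _ hp.out.ne_zero
  have h1 := Polynomial.eval_one_cyclotomic_prime_pow (R := K) (p := p) n
  rw [Polynomial.cyclotomic_eq_prod_X_sub_primitiveRoots hz, Polynomial.eval_prod] at h1
  rw [← h1]
  refine Finset.prod_nbij (fun u => z ^ (u : ZMod (p ^ (n + 1))).val) ?_ ?_ ?_ ?_
  · intro u _
    rw [mem_primitiveRoots (Nat.pos_of_ne_zero hm)]
    exact hz.pow_of_coprime _ (ZMod.val_coe_unit_coprime u)
  · intro u _ w _ huw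
    apply Units.ext
    apply ZMod.val_injective
    exact hz.pow_inj (ZMod.val_lt _) (ZMod.val_lt _) huw
  · intro μ hμ
    rw [Finset.mem_coe, mem_primitiveRoots (Nat.pos_of_ne_zero hm)] at hμ
    rw [hz.isPrimitiveRoot_iff] at hμ
    obtain ⟨i, hi, hc, hμ⟩ := hμ
    refine ⟨ZMod.unitOfCoprime i hc, Finset.mem_coe.2 (Finset.mem_univ _), ?_⟩
    show z ^ ((ZMod.unitOfCoprime i hc : (ZMod (p ^ (n + 1)))ˣ) : ZMod (p ^ (n + 1))).val = μ
    rw [ZMod.coe_unitOfCoprime, ZMod.val_natCast, Nat.mod_eq_of_lt hi]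
    exact hμ
  · intro u _
    rw [Polynomial.eval_sub, Polynomial.eval_X, Polynomial.eval_C]

/-- Chunk TE (S/M). For a polynomial P over ℤ let Q be the polynomial with Q(X^p) = the terms of P of degree divisible by p. The sum of P(z η^i), i < p, is p Q(z^p) (η a primitive p-th root of unity: the sum of η^(im) is p or 0). Here L may be any field with a primitive p-th root of unity. -/
theorem te_sum (P : Polynomial ℤ) : ∃ Q : Polynomial ℤ, ∀ (K : Type) [Field K] (z η : K), IsPrimitiveRoot η p →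
    ∑ i ∈ Finset.range p, P.eval₂ (Int.castRingHom K) (z * η ^ i) = p * Q.eval₂ (Int.castRingHom K) (z ^ p) := by
  induction P using Polynomial.induction_on' with
  | add P P' ih ih' =>
    obtain ⟨Q, hQ⟩ := ih
    obtain ⟨Q', hQ'⟩ := ih'
    refine ⟨Q + Q', ?_⟩
    intro K _ z η hη
    rw [Polynomial.eval₂_add, mul_add, ← hQ K z η hη, ← hQ' K z η hη, ← Finset.sum_add_distrib]
    exact Finset.sum_congr rfl fun i _ => Polynomial.eval₂_add _ _
  | monomial m a =>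
    by_cases hm : p ∣ m
    · obtain ⟨l, rfl⟩ := hm
      refine ⟨Polynomial.monomial l a, ?_⟩
      intro K _ z η hη
      have h1 : ∀ i ∈ Finset.range p, (Polynomial.monomial (p * l) a).eval₂ (Int.castRingHom K) (z * η ^ i) =
          (Int.castRingHom K) a * (z ^ p) ^ l := by
        intro i _
        rw [Polynomial.eval₂_monomial, mul_pow, ← pow_mul, ← pow_mul]
        have h3 : η ^ (i * (p * l)) = 1 := by
          rw [mul_left_comm, pow_mul, hη.pow_eq_one, one_pow]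
        rw [h3, mul_one]
      rw [Finset.sum_congr rfl h1, Finset.sum_const, Finset.card_range, nsmul_eq_mul,
        Polynomial.eval₂_monomial]
    · refine ⟨0, ?_⟩
      intro K _ z η hη
      rw [Polynomial.eval₂_zero, mul_zero]
      have h1 : ∀ i ∈ Finset.range p, (Polynomial.monomial m a).eval₂ (Int.castRingHom K) (z * η ^ i) =
          (Int.castRingHom K) a * z ^ m * (η ^ m) ^ i := by
        intro i _
        rw [Polynomial.eval₂_monomial, mul_pow, ← pow_mul, ← pow_mul, mul_comm i m, mul_assoc]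
      rw [Finset.sum_congr rfl h1, ← Finset.mul_sum]
      have h3 : IsPrimitiveRoot (η ^ m) p :=
        hη.pow_of_coprime m ((Nat.Prime.coprime_iff_not_dvd hp.out).2 hm).symm
      rw [h3.geom_sum_eq_zero hp.out.one_lt, mul_zero]

/-- Chunk TE (S/M). The case P = pol p n j, z = 1: all P(η^i), p not dividing i, are p^j (tb_prod_red with k = 0 and tb_zero: the product of 1 - η^(ia), a = 1..p-1, is p), P(1) = 0 for j ≥ 1. So p Q(1) = (p - 1) p^j for j ≥ 1; for j = 0: p Q(1) = p. Evaluate in ℂ (or the complex numbers, exp(2πi/p)) to get it in ℤ. -/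
theorem te_one (h2 : p ≠ 2) (n j : ℕ) {Q : Polynomial ℤ} (hQ : ∀ (K : Type) [Field K] (z η : K), IsPrimitiveRoot η p →
    ∑ i ∈ Finset.range p, (pol p n j).eval₂ (Int.castRingHom K) (z * η ^ i) = p * Q.eval₂ (Int.castRingHom K) (z ^ p)) :
    (j = 0 → Q.eval 1 = 1) ∧ (0 < j → Q.eval 1 = (p - 1) * p ^ (j - 1)) := by
  obtain ⟨η, hη⟩ : ∃ η : ℂ, IsPrimitiveRoot η p := ⟨_, Complex.isPrimitiveRoot_exp p hp.out.ne_zero⟩
  have h1 := hQ ℂ 1 η hη
  rw [one_pow] at h1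
  have hp0 : (p : ℂ) ≠ 0 := Nat.cast_ne_zero.2 hp.out.ne_zero
  have hQ1 : Q.eval₂ (Int.castRingHom ℂ) 1 = ((Q.eval 1 : ℤ) : ℂ) := by
    rw [Polynomial.eval₂_at_one]
    rfl
  rw [hQ1] at h1
  have hev : ∀ w : ℂ, (pol p n j).eval₂ (Int.castRingHom ℂ) w =
      (∏ u ∈ Tm p n, (1 - w ^ (u : ZMod (p ^ (n + 1))).val)) ^ j := by
    intro w
    rw [pol, Polynomial.eval₂_pow, Polynomial.eval₂_finset_prod]
    congr 1
    refine Finset.prod_congr rfl fun u _ => ?_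
    rw [Polynomial.eval₂_sub, Polynomial.eval₂_one, Polynomial.eval₂_pow, Polynomial.eval₂_X]
  simp only [hev, one_mul] at h1
  constructor
  · intro hj
    subst hj
    simp only [pow_zero] at h1
    rw [Finset.sum_const, Finset.card_range, nsmul_eq_mul] at h1
    have h3 : ((Q.eval 1 : ℤ) : ℂ) = 1 := (mul_left_cancel₀ hp0 h1).symm
    exact_mod_cast h3
  · intro hj
    have h3 : ∀ i ∈ Finset.range (p - 1),
        (∏ u ∈ Tm p n, (1 - (η ^ (i + 1)) ^ (u : ZMod (p ^ (n + 1))).val)) ^ j = (p : ℂ) ^ j := by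
      intro i hi
      rw [Finset.mem_range] at hi
      have hi1 : ¬ p ∣ i + 1 := by
        intro hd
        have := Nat.le_of_dvd (Nat.succ_pos i) hd
        omega
      have hw : IsPrimitiveRoot (η ^ (i + 1)) p :=
        hη.pow_of_coprime _ ((Nat.Prime.coprime_iff_not_dvd hp.out).2 hi1).symm
      congr 1
      rw [tb_prod_red h2 (Nat.zero_le n) (fun a => 1 - (η ^ (i + 1)) ^ a), tb_zero]
      · apply te_cyc
        rwa [zero_add, pow_one]
      · intro a b hab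
        rw [zero_add, pow_one] at hab
        show 1 - (η ^ (i + 1)) ^ a = 1 - (η ^ (i + 1)) ^ b
        rw [pow_eq_pow_mod a hw.pow_eq_one, pow_eq_pow_mod b hw.pow_eq_one, hab]
    have hpp : p = (p - 1) + 1 := (Nat.sub_add_cancel hp.out.one_lt.le).symm
    have h4 : ∑ i ∈ Finset.range p, (∏ u ∈ Tm p n, (1 - (η ^ i) ^ (u : ZMod (p ^ (n + 1))).val)) ^ j =
        ∑ i ∈ Finset.range (p - 1), (∏ u ∈ Tm p n, (1 - (η ^ (i + 1)) ^ (u : ZMod (p ^ (n + 1))).val)) ^ j +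
        (∏ u ∈ Tm p n, (1 - (η ^ 0) ^ (u : ZMod (p ^ (n + 1))).val)) ^ j := by
      rw [← Finset.sum_range_succ' (fun i => (∏ u ∈ Tm p n, (1 - (η ^ i) ^ (u : ZMod (p ^ (n + 1))).val)) ^ j),
        ← hpp]
    have h5 : (∏ u ∈ Tm p n, (1 - (η ^ 0) ^ (u : ZMod (p ^ (n + 1))).val)) ^ j = 0 := by
      have h6 : (Tm p n).Nonempty := by
        rw [← Finset.card_pos, tb_card h2]
        exact Nat.sub_pos_of_lt hp.out.one_lt
      obtain ⟨u, hu⟩ := h6
      have h7 : ∏ u ∈ Tm p n, (1 - (η ^ 0) ^ (u : ZMod (p ^ (n + 1))).val) = 0 := by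
        apply Finset.prod_eq_zero hu
        rw [pow_zero, one_pow, sub_self]
      rw [h7, zero_pow hj.ne']
    rw [h4, h5, add_zero, Finset.sum_congr rfl h3, Finset.sum_const, Finset.card_range, nsmul_eq_mul] at h1
    have h8 : ((Q.eval 1 : ℤ) : ℂ) = ((p : ℂ) - 1) * (p : ℂ) ^ (j - 1) := by
      apply mul_left_cancel₀ hp0
      rw [← h1, Nat.cast_sub hp.out.one_lt.le, Nat.cast_one]
      have h9 : (p : ℂ) ^ j = (p : ℂ) * (p : ℂ) ^ (j - 1) := by
        rw [← pow_succ', Nat.sub_add_cancel hj]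
      rw [h9]
      ring
    exact_mod_cast h8

/-- Chunk TE (S). Polynomials with integer coefficients: ‖Q(z)‖ ≤ 1 and ‖Q(z) - Q(1)‖ ≤ ‖z - 1‖ for ‖z‖ ≤ 1. -/
theorem te_lip (Q : Polynomial ℤ) {z : L} (hz : ‖z‖ ≤ 1) : ‖Q.eval₂ (Int.castRingHom L) z‖ ≤ 1 ∧
    ‖Q.eval₂ (Int.castRingHom L) z - ((Q.eval 1 : ℤ) : L)‖ ≤ ‖z - 1‖ := by
  induction Q using Polynomial.induction_on' with
  | add P P' ih ih' =>
    obtain ⟨a1, a2⟩ := ih
    obtain ⟨b1, b2⟩ := ih'
    rw [Polynomial.eval₂_add, Polynomial.eval_add, Int.cast_add]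
    refine ⟨(IsUltrametricDist.norm_add_le_max _ _).trans (max_le a1 b1), ?_⟩
    have e : P.eval₂ (Int.castRingHom L) z + P'.eval₂ (Int.castRingHom L) z -
        (((P.eval 1 : ℤ) : L) + ((P'.eval 1 : ℤ) : L)) =
        (P.eval₂ (Int.castRingHom L) z - ((P.eval 1 : ℤ) : L)) +
          (P'.eval₂ (Int.castRingHom L) z - ((P'.eval 1 : ℤ) : L)) := by ring
    rw [e]
    exact (IsUltrametricDist.norm_add_le_max _ _).trans (max_le a2 b2)
  | monomial m a =>
    have ha : ‖(a : L)‖ ≤ 1 := IsUltrametricDist.norm_intCast_le_one L a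
    rw [Polynomial.eval₂_monomial, Polynomial.eval_monomial, one_pow, mul_one]
    have e0 : (Int.castRingHom L) a = (a : L) := rfl
    rw [e0]
    constructor
    · rw [norm_mul, norm_pow]
      exact mul_le_one₀ ha (by positivity) (pow_le_one₀ (norm_nonneg _) hz)
    · have e : (a : L) * z ^ m - (a : L) = (a : L) * (z ^ m - 1 ^ m) := by rw [one_pow]; ring
      rw [e, norm_mul]
      exact (mul_le_of_le_one_left (norm_nonneg _) ha).trans (lc_powsub hz (by rw [norm_one]) m)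

end H16S
end

-- from Lib.H16S.TG
section

/-! # H16S, chunk TG (M): the traces of the powers of the uniformizer -/

namespace H16S

variable {p : ℕ} [hp : Fact p.Prime] {L : Type} [NormedField L] [IsUltrametricDist L] {ζ : ℕ → L}

theorem tg_down (Z : Zt p ζ) (m k : ℕ) : ζ (m + k) ^ p ^ k = ζ m := by
  induction k with
  | zero => rw [pow_zero, pow_one, add_zero]
  | succ k ih => rw [pow_succ', pow_mul, ← add_assoc, Z.zs, ih]

theorem tg_pow {g : RingAut L} {z : L} {c : ℕ} (hc : g z = z ^ c) (m : ℕ) : (g ^ m) z = z ^ c ^ m := by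
  induction m with
  | zero =>
    rw [pow_zero, pow_zero, pow_one]
    rfl
  | succ m ih =>
    have e1 : (g ^ (m + 1)) z = (g ^ m) (g z) := by
      rw [pow_succ]
      rfl
    rw [e1, hc, map_pow, ih, ← pow_mul, pow_succ]

/-- Chunk TG (M). PROOF. ζ' = ζ (n+1), g ζ' = ζ'^c, c = c (n+1); c = c 1 modulo p² (n ≥ 0: raise g ζ' = ζ'^c to the power p^n: g (ζ 1) = (ζ 1)^c and ζ 1 has order p²), p does not divide c (g ζ' is a primitive root again). (g^(i p^n)) ζ' = ζ'^(c^(i p^n)). tf: c^(i p^n) = t (1 + i k p^(n+1)) modulo p^(n+2):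
(g^(i p^n)) (π (n+1)) = product over u of 1 - ζ'^(u t (1 + i k p^(n+1))) = product of 1 - (ζ' η^(ik))^u, η = ζ'^(p^(n+1)) (tb_prod removes t). So (g^(i p^n)) (π (n+1)^j) = P(ζ' η^(ik)), P = pol p (n+1) j; i ↦ i k is a permutation modulo p: the trace is the sum of P(ζ' η^i), i < p, = p Q(ζ'^p) (te_sum). -/
theorem tg_sum (h2 : p ≠ 2) (Z : Zt p ζ) (g : RingAut L) (c : ℕ → ℕ) (hc : ∀ n, g (ζ n) = ζ n ^ c n)
    (hg : ¬ c 1 ^ (p - 1) ≡ 1 [MOD p ^ 2]) (n j : ℕ) :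
    ∃ Q : Polynomial ℤ, trc p g n (piT p ζ (n + 1) ^ j) = p * Q.eval₂ (Int.castRingHom L) (ζ (n + 1) ^ p) ∧
      (j = 0 → Q.eval 1 = 1) ∧ (0 < j → Q.eval 1 = (p - 1) * p ^ (j - 1)) := by
  have hz := zt_prim Z (n + 1)
  have hz1 := zt_prim Z 1
  obtain ⟨z, hzd⟩ : ∃ z, z = ζ (n + 1) := ⟨_, rfl⟩
  obtain ⟨c', hcd⟩ : ∃ c', c' = c (n + 1) := ⟨_, rfl⟩
  have hgz : g z = z ^ c' := by rw [hzd, hcd]; exact hc (n + 1)
  rw [← hzd] at hz
  have hz' : IsPrimitiveRoot z (p ^ (n + 2)) := hz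
  -- c' is c 1 modulo p²
  have h1 : z ^ p ^ n = ζ 1 := by
    have h3 := tg_down Z 1 n
    rw [add_comm 1 n, ← hzd] at h3
    exact h3
  have h3 : ζ 1 ^ c' = ζ 1 ^ c 1 := by
    rw [← hc 1, ← h1, map_pow, hgz, ← pow_mul, ← pow_mul, mul_comm]
  have h4 : c' ≡ c 1 [MOD p ^ 2] := by
    have h5 : orderOf (ζ 1) = p ^ (1 + 1) := hz1.eq_orderOf.symm
    have hu : IsUnit (ζ 1) := hz1.isUnit (pow_ne_zero _ hp.out.ne_zero)
    obtain ⟨w, hw⟩ := hu
    have h6 : w ^ c' = w ^ c 1 := by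
      apply Units.ext
      rw [Units.val_pow_eq_pow_val, Units.val_pow_eq_pow_val, hw, h3]
    rw [pow_eq_pow_iff_modEq, ← orderOf_units, hw, h5] at h6
    exact h6
  have hg' : ¬ c' ^ (p - 1) ≡ 1 [MOD p ^ 2] := fun h5 => hg ((h4.symm.pow _).trans h5)
  have hcp : ¬ p ∣ c' := by
    have h5 : IsPrimitiveRoot (g z) (p ^ (n + 2)) := hz'.map_of_injective g.injective
    rw [hgz, hz'.pow_iff_coprime (pow_pos hp.out.pos _)] at h5
    intro hd
    exact Nat.not_coprime_of_dvd_of_dvd hp.out.one_lt hd (dvd_pow_self p (Nat.succ_ne_zero _)) h5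
  obtain ⟨k, hk, hi⟩ := tf h2 hcp hg' n
  obtain ⟨Q, hQ⟩ := te_sum (p := p) (pol p (n + 1) j)
  refine ⟨Q, ?_, te_one h2 (n + 1) j hQ⟩
  have hη : IsPrimitiveRoot (z ^ p ^ (n + 1)) p := by
    apply hz'.pow (pow_pos hp.out.pos _)
    rw [← pow_succ]
  have hηk : IsPrimitiveRoot ((z ^ p ^ (n + 1)) ^ k) p :=
    hη.pow_of_coprime k ((Nat.Prime.coprime_iff_not_dvd hp.out).2 hk).symm
  rw [← hzd, ← hQ L z _ hηk, trc]
  refine Finset.sum_congr rfl fun i _ => ?_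
  obtain ⟨t, ht1, ht2⟩ := hi i
  rw [map_pow, pol, Polynomial.eval₂_pow, Polynomial.eval₂_finset_prod, piT, map_prod]
  congr 1
  have e0 : z * ((z ^ p ^ (n + 1)) ^ k) ^ i = z ^ (1 + i * k * p ^ (n + 1)) := by
    rw [pow_add, pow_one, ← pow_mul, ← pow_mul]
    congr 2
    ring
  rw [e0, ← hzd]
  have e1 : ∀ u ∈ Tm p (n + 1), (g ^ (i * p ^ n)) (1 - z ^ (u : ZMod (p ^ (n + 1 + 1))).val) =
      1 - (z ^ (1 + i * k * p ^ (n + 1))) ^ (t * (u : ZMod (p ^ (n + 1 + 1))).val) := by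
    intro u _
    rw [map_sub, map_one, map_pow, tg_pow hgz]
    congr 1
    rw [← pow_mul, ← pow_mul]
    have e2 : c' ^ (i * p ^ n) * (u : ZMod (p ^ (n + 1 + 1))).val ≡
        (1 + i * k * p ^ (n + 1)) * (t * (u : ZMod (p ^ (n + 1 + 1))).val) [MOD p ^ (n + 2)] := by
      have e3 := ht2.mul_right (u : ZMod (p ^ (n + 1 + 1))).val
      have e4 : t * (1 + i * k * p ^ (n + 1)) * (u : ZMod (p ^ (n + 1 + 1))).val =
          (1 + i * k * p ^ (n + 1)) * (t * (u : ZMod (p ^ (n + 1 + 1))).val) := by ring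
      rwa [e4] at e3
    rw [pow_eq_pow_mod _ hz'.pow_eq_one, e2, ← pow_eq_pow_mod _ hz'.pow_eq_one]
  rw [Finset.prod_congr rfl e1]
  have hord : (z ^ (1 + i * k * p ^ (n + 1))) ^ p ^ (n + 1 + 1) = 1 := by
    rw [← pow_mul, mul_comm, pow_mul, hz.pow_eq_one, one_pow]
  rw [tb_prod (n + 1) (fun a => 1 - (z ^ (1 + i * k * p ^ (n + 1))) ^ a)
    (fun a b hab => by
      show 1 - (z ^ (1 + i * k * p ^ (n + 1))) ^ a = 1 - (z ^ (1 + i * k * p ^ (n + 1))) ^ b
      rw [pow_eq_pow_mod a hord, pow_eq_pow_mod b hord, hab]) ht1]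
  refine Finset.prod_congr rfl fun u _ => ?_
  rw [Polynomial.eval₂_sub, Polynomial.eval₂_one, Polynomial.eval₂_pow, Polynomial.eval₂_X]

/-- Chunk TG (S/M). The three trace conditions of Twr: te_lip with z = ζ (n+1)^p = ζ n, ‖z - 1‖ < 1 (ta_lt). j ≥ 2: ‖Q(1)‖ ≤ ‖p‖ < 1; j = 1: p Q(z) + p = p (Q(z) - Q(1)) + p². -/
theorem tg (h2 : p ≠ 2) (hlt : ‖(p : L)‖ < 1) (hne : (p : L) ≠ 0) (Z : Zt p ζ) (g : RingAut L) (c : ℕ → ℕ)
    (hc : ∀ n, g (ζ n) = ζ n ^ c n) (hg : ¬ c 1 ^ (p - 1) ≡ 1 [MOD p ^ 2]) (n : ℕ) :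
    (∀ j, ‖trc p g n (piT p ζ (n + 1) ^ j)‖ ≤ ‖(p : L)‖) ∧ (∀ j, 2 ≤ j → ‖trc p g n (piT p ζ (n + 1) ^ j)‖ < ‖(p : L)‖) ∧
      ‖trc p g n (piT p ζ (n + 1)) + p‖ < ‖(p : L)‖ := by
  have hp0 : 0 < ‖(p : L)‖ := norm_pos_iff.2 hne
  have hz := zt_prim Z n
  obtain ⟨h1, h3⟩ := ta_lt hlt hz 1
  rw [pow_one, norm_sub_rev] at h1
  refine ⟨?_, ?_, ?_⟩
  · intro j
    obtain ⟨Q, hQ, _, _⟩ := tg_sum h2 Z g c hc hg n j
    rw [hQ, Z.zs, norm_mul]
    exact mul_le_of_le_one_right (norm_nonneg _) (te_lip Q h3.le).1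
  · intro j hj
    obtain ⟨Q, hQ, _, hQ1⟩ := tg_sum h2 Z g c hc hg n j
    rw [hQ, Z.zs, norm_mul]
    apply mul_lt_of_lt_one_right hp0
    have h4 : ‖((Q.eval 1 : ℤ) : L)‖ < 1 := by
      rw [hQ1 (by omega)]
      push_cast
      rw [norm_mul]
      have h5 : ‖(p : L) - 1‖ ≤ 1 := by
        have h6 := IsUltrametricDist.norm_intCast_le_one L ((p : ℤ) - 1)
        push_cast at h6
        exact h6
      have h7 : ‖(p : L) ^ (j - 1)‖ < 1 := by
        rw [norm_pow]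
        exact pow_lt_one₀ (norm_nonneg _) hlt (by omega)
      exact (mul_le_of_le_one_left (norm_nonneg _) h5).trans_lt h7
    have e : Q.eval₂ (Int.castRingHom L) (ζ n) =
        (Q.eval₂ (Int.castRingHom L) (ζ n) - ((Q.eval 1 : ℤ) : L)) + ((Q.eval 1 : ℤ) : L) := by ring
    rw [e]
    exact (IsUltrametricDist.norm_add_le_max _ _).trans_lt
      (max_lt ((te_lip Q h3.le).2.trans_lt h1) h4)
  · obtain ⟨Q, hQ, _, hQ1⟩ := tg_sum h2 Z g c hc hg n 1
    rw [pow_one] at hQ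
    have h4 : ((Q.eval 1 : ℤ) : L) = (p : L) - 1 := by
      rw [hQ1 zero_lt_one]
      push_cast
      simp
    rw [hQ, Z.zs]
    have e : (p : L) * Q.eval₂ (Int.castRingHom L) (ζ n) + p =
        (p : L) * (Q.eval₂ (Int.castRingHom L) (ζ n) - ((Q.eval 1 : ℤ) : L)) + (p : L) * p := by
      rw [h4]
      ring
    rw [e]
    refine (IsUltrametricDist.norm_add_le_max _ _).trans_lt (max_lt ?_ ?_)
    · rw [norm_mul]
      exact mul_lt_of_lt_one_right hp0 ((te_lip Q h3.le).2.trans_lt h1)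
    · rw [norm_mul]
      exact mul_lt_of_lt_one_right hp0 hlt

end H16S
end
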