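import Mathlib
import Pool.Agent.Lib.H1M.PP2.M013
import Pool.Agent.Lib.H1M.PP2.M045
import Pool.Agent.Lib.H1M.PP2.M060

/-! Merged copies (to shorten the build) of Lib.H35K.A3, Lib.H35K.B2, Lib.H35K.B4, Lib.H35K.B3, Lib.H35K.B5, Lib.H35K.B6, Lib.H35K.B7, Lib.H35L.C1C, Lib.H35L.S6A. -/

-- from Lib.H35K.A3
section

/-! # H35K, chunk A3 (M): the Selmer group modulo p -/

namespace H35K

theorem a3_comm {O : Type} [CommRing O] {V U : Type} [AddCommGroup V] [Module O V] [AddCommGroup U] [Module O U]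
    (X : V →ₗ[O] V) (Y : U →ₗ[O] U) (l : U →ₗ[O] V) (h : ∀ u, l (Y u) = X (l u)) (n : ℕ) (u : U) :
    l ((Y ^ n) u) = (X ^ n) (l u) := by
  induction n generalizing u with
  | zero => rfl
  | succ n ih =>
    rw [pow_succ, pow_succ]
    show l ((Y ^ n) (Y u)) = (X ^ n) (X (l u))
    rw [ih, h]

/-- Chunk A3 (M). U the global module, V the local module, both killed by p, loc v : U -> V commutes with the endomorphisms Y, X. The local data are as in a2.
If r in ker Y and loc v r is in E0 for all v then r = 0; ker Y^P has at least q^(gP) elements. THEN |ker Y^j| = q^(gj) for j <= P, Y^a maps ker Y^P onto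
ker Y^b (a + b = P), and for r in ker Y^P: loc v r is in E for all v if and only if Y^J r = 0.
PROOF. ker Y embeds in the product over v of (ker X)/E0 (at most q elements each: |ker X| <= q^2, |E0| = q), so |ker Y| <= q^g; a1_le: |ker Y| = q^g; a1 gives the first two
claims. If Y^J r = 0 then r = Y^(P-J) r', r' in ker Y^P, loc v r = X^(P-J) loc v r' is in E (a2). Conversely let loc v r be in E for all v and Y^J r <> 0; some s = Y^i r has
Y^J s <> 0, Y^(J+1) s = 0 (Y^P r = 0), and loc v s is in E (E is stable). s = Y^(P-J-1) r', r' in ker Y^P, t = Y^(P-1) r' = Y^J s <> 0, Y t = 0. X^(P-J-1) loc v r' =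
loc v s is in E, so by a2 loc v t = X^(P-1) loc v r' is in E0 for all v: t = 0, a contradiction. -/
theorem a3 {O : Type} [CommRing O] {p q : ℕ} (hmax : (Ideal.span {(p : O)}).IsMaximal)
    (hq : Nat.card (O ⧸ Ideal.span {(p : O)}) = q) (hq2 : 2 ≤ q) {V U : Type} [AddCommGroup V] [Module O V]
    [AddCommGroup U] [Module O U]
    (hp : ∀ v : V, (p : O) • v = 0) (X : V →ₗ[O] V) {P J s g : ℕ} (hs : s + J + 1 = P) (hJ : 2 * J + 1 ≤ P)
    (hfin : Finite {v : V // X v = 0}) (h1 : Nat.card {v : V // X v = 0} ≤ q ^ 2)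
    (E E0 : Submodule O V) (hE : ∀ e ∈ E, X e ∈ E) (hE' : ∀ e ∈ E, (X ^ P) e = 0)
    (hEc : Nat.card E = q ^ P) (hEs : E.map (X ^ s) = E0) (hE0 : Nat.card E0 = q) (hE0' : ∀ e ∈ E0, X e = 0)
    (Y : U →ₗ[O] U) (loc : Fin g → U →ₗ[O] V) (hcomm : ∀ v u, loc v (Y u) = X (loc v u))
    (hinj : ∀ u : U, Y u = 0 → (∀ v, loc v u ∈ E0) → u = 0)
    (hdim : q ^ (g * P) ≤ Nat.card {u : U // (Y ^ P) u = 0}) :
    (∀ j ≤ P, Nat.card {u : U // (Y ^ j) u = 0} = q ^ (g * j)) ∧
    (∀ a b : ℕ, a + b = P → ∀ u : U, (Y ^ b) u = 0 → ∃ w : U, (Y ^ P) w = 0 ∧ (Y ^ a) w = u) ∧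
    ∀ u : U, (Y ^ P) u = 0 → ((∀ v, loc v u ∈ E) ↔ (Y ^ J) u = 0) := by
  have hqpos : 0 < q := by omega
  have hP1 : 1 ≤ P := by omega
  have hX : ∀ (n : ℕ) (v : Fin g) (u : U), loc v ((Y ^ n) u) = (X ^ n) (loc v u) :=
    fun n v u => a3_comm X Y (loc v) (hcomm v) n u
  have ha2 := a2 hmax hq hq2 hp X hs hJ hfin h1 E E0 hE hE' hEc hEs hE0 hE0'
  -- the kernel of Y embeds
  let K : Submodule O V := LinearMap.ker X
  let E1 : Submodule O K := E0.comap K.subtype
  have hKc : Nat.card K ≤ q ^ 2 := h1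
  have hKf : Finite K := hfin
  have hE1c : Nat.card E1 = q := by
    rw [← hE0]
    exact Nat.card_congr ⟨fun e => ⟨e.1.1, e.2⟩, fun e => ⟨⟨e.1, hE0' e.1 e.2⟩, e.2⟩, fun _ => rfl, fun _ => rfl⟩
  have hQc : Nat.card (K ⧸ E1) ≤ q := by
    have h3 : Nat.card K = Nat.card (K ⧸ E1) * Nat.card E1 :=
      AddSubgroup.card_eq_card_quotient_mul_card_addSubgroup E1.toAddSubgroup
    rw [h3, hE1c, pow_two] at hKc
    exact Nat.le_of_mul_le_mul_right hKc hqpos
  have hQf : Finite (K ⧸ E1) := Finite.of_surjective E1.mkQ (Submodule.mkQ_surjective E1)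
  let f : {u : U // Y u = 0} → (Fin g → K ⧸ E1) := fun u v =>
    E1.mkQ ⟨loc v u.1, by
      show X (loc v u.1) = 0
      rw [← hcomm, u.2, map_zero]⟩
  have hf : Function.Injective f := by
    intro u u' h
    have h3 : u.1 - u'.1 = 0 := by
      refine hinj _ (by rw [map_sub, u.2, u'.2, sub_zero]) fun v => ?_
      have h4 := congrFun h v
      have h5 := (Submodule.Quotient.eq E1).mp h4
      have h6 : loc v (u.1 - u'.1) = (loc v u.1) - (loc v u'.1) := map_sub _ _ _
      rw [h6]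
      exact h5
    exact Subtype.ext (sub_eq_zero.mp h3)
  have hfinY : Finite {u : U // Y u = 0} := Finite.of_injective f hf
  have hle : Nat.card {u : U // Y u = 0} ≤ q ^ g := by
    have h3 := Nat.card_le_card_of_injective f hf
    rw [Nat.card_fun] at h3
    refine h3.trans ?_
    rw [Nat.card_fin]
    exact Nat.pow_le_pow_left hQc g
  have hendY : ∀ n, Nat.card {u : U // (a2_toEnd Y ^ n) u = 0} = Nat.card {u : U // (Y ^ n) u = 0} := by
    intro n
    refine Nat.card_congr (Equiv.subtypeEquivRight fun u => ?_)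
    rw [a2_end Y n u]
  have hYc : Nat.card {u : U // Y u = 0} = q ^ g :=
    a1_le (a2_toEnd Y) (c := q ^ g) (P := P) (Nat.one_le_pow _ _ hqpos) hP1 hfinY hle
      (by rw [hendY, ← pow_mul]; exact hdim)
  have hA : ∀ a b : ℕ, a + b = P → _ := fun a b hab =>
    a1 (a2_toEnd Y) (c := q ^ g) (P := P) (Nat.one_le_pow _ _ hqpos) hYc
      (by rw [hendY, ← pow_mul]; exact hdim) (a := a) (b := b) hab
  have hsurj : ∀ a b : ℕ, a + b = P → ∀ u : U, (Y ^ b) u = 0 → ∃ w : U, (Y ^ P) w = 0 ∧ (Y ^ a) w = u := by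
    intro a b hab u hu
    obtain ⟨w, hw1, hw2⟩ := (hA a b hab).2 u (by rw [a2_end]; exact hu)
    exact ⟨w, by rw [← a2_end]; exact hw1, by rw [← a2_end]; exact hw2⟩
  refine ⟨?_, hsurj, ?_⟩
  · intro j hj
    rw [pow_mul, ← (hA (P - j) j (by omega)).1, hendY]
  · intro u hu
    constructor
    · intro hloc
      by_contra hne
      -- the last power
      have hex : ∃ m, (Y ^ (J + m)) u = 0 := ⟨P - J, by rw [show J + (P - J) = P by omega]; exact hu⟩
      classical
      let m := Nat.find hex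
      have hm : (Y ^ (J + m)) u = 0 := Nat.find_spec hex
      have hm0 : m ≠ 0 := by
        intro h0
        rw [h0] at hm
        exact hne hm
      have hmin : (Y ^ (J + (m - 1))) u ≠ 0 := Nat.find_min hex (m := m - 1) (by omega)
      have hlocs : ∀ (n : ℕ) (v : Fin g), loc v ((Y ^ n) u) ∈ E := by
        intro n v
        rw [hX]
        induction n with
        | zero => exact hloc v
        | succ n ih =>
          rw [pow_succ']
          exact hE _ ih
      have hs1 : (Y ^ (J + 1)) ((Y ^ (m - 1)) u) = 0 := by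
        rw [← Module.End.mul_apply, ← pow_add, show J + 1 + (m - 1) = J + m by omega]
        exact hm
      obtain ⟨r', hr1, hr2⟩ := hsurj s (J + 1) (by omega) _ hs1
      have ht : (Y ^ (P - 1)) r' = (Y ^ J) ((Y ^ (m - 1)) u) := by
        rw [← hr2, ← Module.End.mul_apply, ← pow_add, show J + s = P - 1 by omega]
      have ht0 : (Y ^ (P - 1)) r' ≠ 0 := by
        rw [ht, ← Module.End.mul_apply, ← pow_add]
        exact hmin
      refine ht0 (hinj _ ?_ fun v => ?_)
      · rw [← Module.End.mul_apply, ← pow_succ', show P - 1 + 1 = P by omega]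
        exact hr1
      · rw [hX]
        refine ha2.2 (loc v r') ?_ ?_
        · rw [← hX, hr1, map_zero]
        · rw [← hX, hr2]
          exact hlocs _ v
    · intro h0 v
      obtain ⟨w, hw1, hw2⟩ := hsurj (P - J) J (by omega) u h0
      rw [← hw2, hX]
      refine ha2.1 (loc v w) ?_
      rw [← hX, hw1, map_zero]


end H35K
end

-- from Lib.H35K.B2
section

/-! # H35K, chunk B2 (M): the tower modulo p -/

namespace H35K

variable {O R W : Type} [CommRing O] [AddCommGroup R] [Module O R] [AddCommGroup W] [Module O W]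
  {p q g : ℕ} {gam : R →ₗ[O] R} {del : W →ₗ[O] W} {loc : Fin g → R →ₗ[O] W} {D : ℕ → Submodule O W}

section b2_aux

variable {Z : Type} [AddCommGroup Z] [Module O Z]

/-- The elements killed by `p`. -/
abbrev b2_T (O : Type) [CommRing O] (Z : Type) [AddCommGroup Z] [Module O Z] (p : ℕ) : Submodule O Z :=
  Submodule.torsionBy O Z (p : O)

theorem b2_mem {z : Z} : z ∈ b2_T O Z p ↔ p • z = 0 := by
  rw [b2_T, Submodule.mem_torsionBy_iff, Nat.cast_smul_eq_nsmul]

theorem b2_st {Z' : Type} [AddCommGroup Z'] [Module O Z'] (f : Z →ₗ[O] Z') :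
    ∀ z ∈ b2_T O Z p, f z ∈ b2_T O Z' p := by
  intro z hz
  rw [b2_mem] at hz ⊢
  rw [← map_nsmul, hz, map_zero]

/-- The restriction of a linear map to the elements killed by `p`. -/
noncomputable def b2_r {Z' : Type} [AddCommGroup Z'] [Module O Z'] (p : ℕ) (f : Z →ₗ[O] Z') :
    b2_T O Z p →ₗ[O] b2_T O Z' p := f.restrict (b2_st f)

theorem b2_r_coe {Z' : Type} [AddCommGroup Z'] [Module O Z'] (f : Z →ₗ[O] Z') (u : b2_T O Z p) :
    ((b2_r p f u : b2_T O Z' p) : Z') = f (u : Z) := rfl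

theorem b2_pow (f : Z →ₗ[O] Z) (j : ℕ) (u : b2_T O Z p) : (((b2_r p f ^ j) u : b2_T O Z p) : Z) = (f ^ j) (u : Z) := by
  induction j generalizing u with
  | zero => rfl
  | succ j ih =>
    rw [pow_succ, pow_succ, Module.End.mul_apply, Module.End.mul_apply, ih, b2_r_coe]

theorem b2_pow_zero (f : Z →ₗ[O] Z) (j : ℕ) (u : b2_T O Z p) : (b2_r p f ^ j) u = 0 ↔ (f ^ j) (u : Z) = 0 := by
  rw [← b2_pow, ZeroMemClass.coe_eq_zero]

theorem b2_card (f : Z →ₗ[O] Z) (j : ℕ) :
    Nat.card {u : b2_T O Z p // (b2_r p f ^ j) u = 0} = Nat.card {z : Z // p • z = 0 ∧ (f ^ j) z = 0} := by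
  refine Nat.card_congr
    { toFun := fun u => ⟨(u.1 : Z), b2_mem.1 u.1.2, (b2_pow_zero f j u.1).1 u.2⟩
      invFun := fun z => ⟨⟨z.1, b2_mem.2 z.2.1⟩, (b2_pow_zero f j _).2 z.2.2⟩
      left_inv := fun u => rfl
      right_inv := fun z => rfl }

theorem b2_lev (hp : p.Prime) (n : ℕ) (f : Z →ₗ[O] Z) :
    Nat.card {z : Z // p • z = 0 ∧ Lev p n f z} = Nat.card {u : b2_T O Z p // (b2_r p (f - 1) ^ (p ^ n)) u = 0} := by
  rw [b2_card]
  refine Nat.card_congr (Equiv.subtypeEquivRight fun z => ?_)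
  constructor
  · rintro ⟨h1, h2⟩
    exact ⟨h1, (lev_p hp n f z h1).1 h2⟩
  · rintro ⟨h1, h2⟩
    exact ⟨h1, (lev_p hp n f z h1).2 h2⟩

theorem b2_sub_one (f : Z →ₗ[O] Z) (z : Z) : (f - 1) z = f z - z := rfl

/-- The elements of a submodule killed by `p`. -/
noncomputable def b2_E (p : ℕ) (D : Submodule O Z) : Submodule O (b2_T O Z p) := D.comap (b2_T O Z p).subtype

theorem b2_E_mem (D : Submodule O Z) (u : b2_T O Z p) : u ∈ b2_E p D ↔ (u : Z) ∈ D := Iff.rfl

theorem b2_E_card (D : Submodule O Z) : Nat.card (b2_E p D) = Nat.card {z : Z // z ∈ D ∧ p • z = 0} := by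
  refine Nat.card_congr
    { toFun := fun u => ⟨(u.1 : Z), u.2, b2_mem.1 u.1.2⟩
      invFun := fun z => ⟨⟨z.1, b2_mem.2 z.2.2⟩, z.2.1⟩
      left_inv := fun u => rfl
      right_inv := fun z => rfl }

/-- A linear endomorphism as an endomorphism of the additive group. -/
def b2_en (X : Z →ₗ[O] Z) : AddMonoid.End Z := X.toAddMonoidHom

theorem b2_End (X : Z →ₗ[O] Z) (j : ℕ) (z : Z) : (b2_en X ^ j) z = (X ^ j) z := by
  induction j generalizing z with
  | zero => rfl
  | succ j ih =>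
    rw [pow_succ, pow_succ, Module.End.mul_apply]
    exact ih _

end b2_aux

theorem b2_w0 (h : Tow p q g gam del loc D) : Finite {v : b2_T O W p // b2_r p (del - 1) v = 0} ∧
    Nat.card {v : b2_T O W p // b2_r p (del - 1) v = 0} ≤ q ^ 2 := by
  have e : {v : b2_T O W p // b2_r p (del - 1) v = 0} ≃ {w : W // p • w = 0 ∧ del w = w} :=
    { toFun := fun u => ⟨(u.1 : W), b2_mem.1 u.1.2, by
        have h2 := congrArg Subtype.val u.2
        rw [b2_r_coe, b2_sub_one] at h2
        exact sub_eq_zero.1 h2⟩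
      invFun := fun z => ⟨⟨z.1, b2_mem.2 z.2.1⟩, Subtype.ext (show del z.1 - z.1 = 0 from sub_eq_zero.2 z.2.2)⟩
      left_inv := fun u => rfl
      right_inv := fun z => rfl }
  have := h.w0f
  exact ⟨Finite.of_equiv _ e.symm, (Nat.card_congr e).trans_le h.w0⟩

theorem b2_main (h : Tow p q g gam del loc D) (n : ℕ) :
    (∀ j ≤ p ^ n, Nat.card {u : b2_T O R p // (b2_r p (gam - 1) ^ j) u = 0} = q ^ (g * j)) ∧
    (∀ a b : ℕ, a + b = p ^ n → ∀ u : b2_T O R p, (b2_r p (gam - 1) ^ b) u = 0 →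
      ∃ w : b2_T O R p, (b2_r p (gam - 1) ^ p ^ n) w = 0 ∧ (b2_r p (gam - 1) ^ a) w = u) ∧
    ∀ u : b2_T O R p, (b2_r p (gam - 1) ^ p ^ n) u = 0 →
      ((∀ v, b2_r p (loc v) u ∈ b2_E p (D n)) ↔ (b2_r p (gam - 1) ^ J p n) u = 0) := by
  have hJ := J_two h.odd n
  refine a3 h.max h.card h.q2 (V := b2_T O W p) (U := b2_T O R p) (fun v => ?_) (b2_r p (del - 1)) (P := p ^ n)
    (J := J p n) (s := p ^ n - 1 - J p n) (g := g) (by omega) hJ ?_ ?_ (b2_E p (D n)) (b2_E p (D 0)) ?_ ?_ ?_ ?_ ?_ ?_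
    (b2_r p (gam - 1)) (fun v => b2_r p (loc v)) ?_ ?_ ?_
  · exact Subtype.ext ((Submodule.mem_torsionBy_iff _ _).1 v.2)
  · exact (b2_w0 h).1
  · exact (b2_w0 h).2
  · intro e he
    rw [b2_E_mem] at he ⊢
    rw [b2_r_coe, b2_sub_one]
    exact (D n).sub_mem (h.dst n _ he) he
  · intro e he
    rw [b2_pow_zero]
    exact (lev_p h.pr n del _ (b2_mem.1 e.2)).1 (h.dlev n _ he)
  · rw [b2_E_card, h.dp n]
  · ext u
    rw [Submodule.mem_map]
    constructor
    · rintro ⟨w, hw, rfl⟩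
      rw [b2_E_mem, b2_pow]
      exact ((h.ds n _).2 ⟨w, hw, b2_mem.1 w.2, rfl⟩).1
    · intro hu
      obtain ⟨w', h1, h2, h3⟩ := (h.ds n (u : W)).1 ⟨hu, b2_mem.1 u.2⟩
      refine ⟨⟨w', b2_mem.2 h2⟩, h1, Subtype.ext ?_⟩
      rw [b2_pow]
      exact h3
  · rw [b2_E_card, h.dp 0, pow_zero, pow_one]
  · intro e he
    refine Subtype.ext ?_
    rw [b2_r_coe, b2_sub_one]
    have h1 := h.dlev 0 _ he
    unfold Lev at h1
    rw [pow_zero, pow_one] at h1
    change del (e : W) = (e : W) at h1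
    rw [h1, sub_self]
    rfl
  · intro v u
    refine Subtype.ext ?_
    simp only [b2_r_coe, b2_sub_one, map_sub]
    rw [h.comm]
  · intro u hu hv
    have h1 : (gam - 1) (u : R) = 0 := by
      have h2 := congrArg Subtype.val hu
      rw [b2_r_coe] at h2
      exact h2
    rw [b2_sub_one, sub_eq_zero] at h1
    exact Subtype.ext (h.inj _ (b2_mem.1 u.2) h1 fun v => hv v)
  · rw [← b2_lev h.pr n gam]
    exact h.rdim n

/-- Chunk B2 (M). a3 applied to U = Submodule.torsionBy O R p, V = Submodule.torsionBy O W p, Y = gam - 1, X = del - 1 restricted, P = p^n, J = J p n,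
s = p^n - 1 - J p n (J_two), E = D n, E0 = D 0 (comap to V; the cardinalities dp, ds; D 0 has q^(p^0) = q elements killed by p), loc restricted. Level conditions
by lev_p, w0. E in ker X^P: dlev and lev_p. X E in E: dst. The results: cardinalities of the kernels of the powers of gam - 1 on the elements killed by p. -/
theorem t1_card (h : Tow p q g gam del loc D) (n j : ℕ) (hj : j ≤ p ^ n) :
    Nat.card {r : R // p • r = 0 ∧ ((gam - 1) ^ j) r = 0} = q ^ (g * j) := by
  rw [← b2_card (O := O) (gam - 1) j]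
  exact (b2_main h n).1 j hj

/-- Chunk B2 (M). The powers of gam - 1 are onto. -/
theorem t1_ontoR (h : Tow p q g gam del loc D) (n a b : ℕ) (hab : a + b = p ^ n) (r : R) (h1 : p • r = 0)
    (h2 : ((gam - 1) ^ b) r = 0) : ∃ r' : R, p • r' = 0 ∧ Lev p n gam r' ∧ ((gam - 1) ^ a) r' = r := by
  obtain ⟨w, h3, h4⟩ := (b2_main h n).2.1 a b hab ⟨r, b2_mem.2 h1⟩ ((b2_pow_zero _ _ _).2 h2)
  have h5 := b2_mem.1 w.2
  refine ⟨w, h5, (lev_p h.pr n gam _ h5).2 ((b2_pow_zero _ _ _).1 h3), ?_⟩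
  rw [← b2_pow, h4]

/-- Chunk B2 (M). The Selmer classes killed by p: those killed by (gam - 1)^J. -/
theorem t1_sel (h : Tow p q g gam del loc D) (n : ℕ) (r : R) (h1 : p • r = 0) (h2 : Lev p n gam r) :
    (∀ v, loc v r ∈ D n) ↔ ((gam - 1) ^ J p n) r = 0 := by
  have h3 := (b2_main h n).2.2 ⟨r, b2_mem.2 h1⟩ ((b2_pow_zero _ _ _).2 ((lev_p h.pr n gam r h1).1 h2))
  rw [b2_pow_zero] at h3
  exact h3

/-- Chunk B2 (M). There are at most q^(2 p^n) local classes of level n killed by p: a1_bound with c = q^2 for V = Submodule.torsionBy O W p. -/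
theorem t1_leW (h : Tow p q g gam del loc D) (n : ℕ) : Finite {w : W // p • w = 0 ∧ Lev p n del w} ∧
    Nat.card {w : W // p • w = 0 ∧ Lev p n del w} ≤ q ^ (2 * p ^ n) := by
  let X : AddMonoid.End (b2_T O W p) := b2_en (b2_r p (del - 1))
  have hX : ∀ j (u : b2_T O W p), (X ^ j) u = (b2_r p (del - 1) ^ j) u := fun j u => b2_End (b2_r p (del - 1)) j u
  obtain ⟨h1, h2⟩ := a1_bound X (c := q ^ 2) (b2_w0 h).1 (b2_w0 h).2 (p ^ n)
  have e : {v : b2_T O W p // (X ^ p ^ n) v = 0} ≃ {w : W // p • w = 0 ∧ Lev p n del w} :=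
    { toFun := fun u => ⟨(u.1 : W), b2_mem.1 u.1.2, (lev_p h.pr n del _ (b2_mem.1 u.1.2)).2 ((b2_pow_zero _ _ _).1 (by rw [← hX]; exact u.2))⟩
      invFun := fun z => ⟨⟨z.1, b2_mem.2 z.2.1⟩, by
        rw [hX]
        exact (b2_pow_zero _ _ _).2 ((lev_p h.pr n del _ z.2.1).1 z.2.2)⟩
      left_inv := fun u => rfl
      right_inv := fun z => rfl }
  refine ⟨Finite.of_equiv _ e, ?_⟩
  rw [← Nat.card_congr e, pow_mul]
  exact h2

/-- Chunk B2 (M). The same as t1_ontoR for the local module: a1 with c = q^2 for V = Submodule.torsionBy O W p, if there are at least q^(2 p^n) classes. -/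
theorem t1_ontoW (h : Tow p q g gam del loc D) (n a b : ℕ) (hab : a + b = p ^ n)
    (hwn : q ^ (2 * p ^ n) ≤ Nat.card {w : W // p • w = 0 ∧ Lev p n del w}) (w : W) (h1 : p • w = 0)
    (h2 : ((del - 1) ^ b) w = 0) : ∃ w' : W, p • w' = 0 ∧ Lev p n del w' ∧ ((del - 1) ^ a) w' = w := by
  have hq : 1 ≤ q ^ 2 := Nat.one_le_iff_ne_zero.2 (pow_ne_zero _ (by have := h.q2; omega))
  let X : AddMonoid.End (b2_T O W p) := b2_en (b2_r p (del - 1))
  have hX : ∀ j (u : b2_T O W p), (X ^ j) u = (b2_r p (del - 1) ^ j) u := fun j u => b2_End (b2_r p (del - 1)) j u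
  have e2 : (q ^ 2) ^ (p ^ n) ≤ Nat.card {v : b2_T O W p // (X ^ p ^ n) v = 0} := by
    rw [b2_lev h.pr n del] at hwn
    have h3 : Nat.card {v : b2_T O W p // (X ^ p ^ n) v = 0} =
        Nat.card {u : b2_T O W p // (b2_r p (del - 1) ^ (p ^ n)) u = 0} :=
      Nat.card_congr (Equiv.subtypeEquivRight fun u => by rw [hX])
    rw [h3, ← pow_mul]
    exact hwn
  have e1 : Nat.card {v : b2_T O W p // X v = 0} = q ^ 2 :=
    a1_le X hq (Nat.one_le_iff_ne_zero.2 (pow_ne_zero _ h.pr.ne_zero)) (b2_w0 h).1 (b2_w0 h).2 e2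
  obtain ⟨u, h3, h4⟩ := (a1 X hq e1 e2 hab).2 ⟨w, b2_mem.2 h1⟩ (by rw [hX]; exact (b2_pow_zero _ _ _).2 h2)
  rw [hX] at h3 h4
  have h5 := b2_mem.1 u.2
  refine ⟨u, h5, (lev_p h.pr n del _ h5).2 ((b2_pow_zero _ _ _).1 h3), ?_⟩
  rw [← b2_pow, h4]

end H35K
end

-- from Lib.H35K.B4
section

/-! # H35K, chunk B4 (M): cohomological triviality -/

namespace H35K

/-- The norm is the geometric sum of T = f^(p^n). -/
theorem b4_nrm {O Z : Type} [CommRing O] [AddCommGroup Z] [Module O Z] (p n : ℕ) (f : Z →ₗ[O] Z) :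
    nrm p n f = ∑ i ∈ Finset.range p, (f ^ p ^ n) ^ i := by
  unfold nrm
  refine Finset.sum_congr rfl (fun i _ => ?_)
  rw [mul_comm, pow_mul]

/-- Elements of level n are of level n + 1. -/
theorem b4_up {O Z : Type} [CommRing O] [AddCommGroup Z] [Module O Z] {p n : ℕ} {f : Z →ₗ[O] Z} {z : Z}
    (hz : Lev p n f z) (i : ℕ) : ((f ^ p ^ n) ^ i) z = z := by
  induction i with
  | zero => rfl
  | succ i ih =>
    rw [pow_succ, Module.End.mul_apply]
    have : (f ^ p ^ n) z = z := hz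
    rw [this, ih]

/-- The level condition at level n + 1. -/
theorem b4_lev {O Z : Type} [CommRing O] [AddCommGroup Z] [Module O Z] {p n : ℕ} {f : Z →ₗ[O] Z} {z : Z} :
    Lev p (n + 1) f z ↔ ((f ^ p ^ n) ^ p) z = z := by
  unfold Lev
  rw [← pow_mul, ← pow_succ]

/-- The level is preserved by subtraction. -/
theorem b4_sub {O Z : Type} [CommRing O] [AddCommGroup Z] [Module O Z] {p n : ℕ} {f : Z →ₗ[O] Z} {y z : Z}
    (hy : Lev p n f y) (hz : Lev p n f z) : Lev p n f (y - z) := by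
  unfold Lev at *
  rw [map_sub, hy, hz]

/-- The level is preserved by operators commuting with f. -/
theorem b4_comm {O Z : Type} [CommRing O] [AddCommGroup Z] [Module O Z] {p n : ℕ} {f : Z →ₗ[O] Z} {z : Z}
    (hz : Lev p n f z) (S : Z →ₗ[O] Z) (hS : Commute f S) : Lev p n f (S z) := by
  unfold Lev at *
  have h1 : (f ^ p ^ n * S) = S * f ^ p ^ n := (hS.pow_left _).eq
  have h2 : (f ^ p ^ n) (S z) = (f ^ p ^ n * S) z := rfl
  rw [h2, h1, Module.End.mul_apply, hz]

/-- T N z - N z = T^p z - z. -/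
theorem b4_tn {O Z : Type} [CommRing O] [AddCommGroup Z] [Module O Z] (p n : ℕ) (f : Z →ₗ[O] Z) (z : Z) :
    (f ^ p ^ n) (nrm p n f z) - nrm p n f z = ((f ^ p ^ n) ^ p) z - z := by
  have h := mul_geom_sum (f ^ p ^ n) p
  rw [← b4_nrm] at h
  have h2 := congrArg (fun g : Z →ₗ[O] Z => g z) h
  simpa [sub_mul] using h2

/-- N T z - N z = T^p z - z. -/
theorem b4_nt {O Z : Type} [CommRing O] [AddCommGroup Z] [Module O Z] (p n : ℕ) (f : Z →ₗ[O] Z) (z : Z) :
    nrm p n f ((f ^ p ^ n) z - z) = ((f ^ p ^ n) ^ p) z - z := by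
  have h := geom_sum_mul (f ^ p ^ n) p
  rw [← b4_nrm] at h
  have h2 := congrArg (fun g : Z →ₗ[O] Z => g z) h
  simpa [mul_sub] using h2

/-- Chunk B4 (M). Z an O-module of p-power torsion with the operator f; at level n + 1 it is divisible by p, and for the elements killed by p: norm 0 implies
of the form f^(p^n) y - y, and those of level n are norms. THEN the same is true for all elements of level n + 1. PROOF. T = f^(p^n), N = nrm p n f = sum over i < p of T^i,
T^p z = z for z of level n + 1, N T z = N z, T N z = N z. (1) N z = 0: z = p y (divisibility), p N y = 0, T N y = N y, so N y = N t with p t = 0 (second assumption: N y is killed by p and of level n);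
y' = y - t: p y' = z, N y' = 0, z = (p - N) y' = sum over i < p of (1 - T^i) y' = T w - w (1 - T^i = (T - 1) (- sum over j < i of T^j)). (2) T z = z: z = p y,
x = T y - y is killed by p and N x = 0, so x = T t - t with p t = 0, y' = y - t: T y' = y', p y' = z, N y' = p y' = z. -/
theorem tate {O Z : Type} [CommRing O] [AddCommGroup Z] [Module O Z] {p : ℕ} (n : ℕ) (f : Z →ₗ[O] Z)
    (hdiv : ∀ z : Z, Lev p (n + 1) f z → ∃ y : Z, Lev p (n + 1) f y ∧ p • y = z)
    (h1 : ∀ z : Z, p • z = 0 → Lev p (n + 1) f z → nrm p n f z = 0 →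
      ∃ y : Z, p • y = 0 ∧ Lev p (n + 1) f y ∧ (f ^ p ^ n) y - y = z)
    (h2 : ∀ z : Z, p • z = 0 → Lev p n f z → ∃ y : Z, p • y = 0 ∧ Lev p (n + 1) f y ∧ nrm p n f y = z) :
    (∀ z : Z, Lev p (n + 1) f z → nrm p n f z = 0 → ∃ y : Z, Lev p (n + 1) f y ∧ (f ^ p ^ n) y - y = z) ∧
    (∀ z : Z, Lev p n f z → ∃ y : Z, Lev p (n + 1) f y ∧ nrm p n f y = z) := by
  constructor
  · intro z hz hN
    obtain ⟨y, hy, hyz⟩ := hdiv z hz
    have hpN : p • nrm p n f y = 0 := by rw [← map_nsmul, hyz, hN]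
    have hTN : Lev p n f (nrm p n f y) := by
      have h := b4_tn p n f y
      rw [b4_lev.1 hy, sub_self, sub_eq_zero] at h
      exact h
    obtain ⟨t, ht, htl, htN⟩ := h2 _ hpN hTN
    have hyl' : Lev p (n + 1) f (y - t) := b4_sub hy htl
    have hN' : nrm p n f (y - t) = 0 := by rw [map_sub, htN, sub_self]
    have hpz : p • (y - t) = z := by rw [smul_sub, ht, sub_zero, hyz]
    let S : Z →ₗ[O] Z := -∑ i ∈ Finset.range p, ∑ j ∈ Finset.range i, (f ^ p ^ n) ^ j
    have hS : (f ^ p ^ n - 1) * S = (p : Z →ₗ[O] Z) - nrm p n f := by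
      show (f ^ p ^ n - 1) * (-∑ i ∈ Finset.range p, ∑ j ∈ Finset.range i, (f ^ p ^ n) ^ j) = _
      rw [mul_neg, Finset.mul_sum, Finset.sum_congr rfl (fun i _ => mul_geom_sum (f ^ p ^ n) i),
        Finset.sum_sub_distrib, ← b4_nrm, Finset.sum_const, Finset.card_range, neg_sub,
        nsmul_eq_mul, mul_one]
    have hcomm : Commute f S := by
      refine Commute.neg_right (Commute.sum_right _ _ _ (fun i _ => ?_))
      refine Commute.sum_right _ _ _ (fun j _ => ?_)
      exact ((Commute.refl f).pow_right _).pow_right _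
    refine ⟨S (y - t), b4_comm hyl' S hcomm, ?_⟩
    have h3 : (f ^ p ^ n) (S (y - t)) - S (y - t) = ((f ^ p ^ n - 1) * S) (y - t) := by
      rw [sub_mul, one_mul]
      rfl
    rw [h3, hS, LinearMap.sub_apply, hN', sub_zero, Module.End.natCast_apply, hpz]
  · intro z hz
    have hz1 : Lev p (n + 1) f z := b4_lev.2 (b4_up hz p)
    obtain ⟨y, hy, hyz⟩ := hdiv z hz1
    have hx1 : p • ((f ^ p ^ n) y - y) = 0 := by
      rw [smul_sub, ← map_nsmul, hyz, sub_eq_zero]
      exact hz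
    have hx2 : Lev p (n + 1) f ((f ^ p ^ n) y - y) :=
      b4_sub (b4_comm hy _ ((Commute.refl f).pow_right _)) hy
    have hx3 : nrm p n f ((f ^ p ^ n) y - y) = 0 := by
      rw [b4_nt, b4_lev.1 hy, sub_self]
    obtain ⟨t, ht, htl, htx⟩ := h1 _ hx1 hx2 hx3
    have hyt : Lev p n f (y - t) := by
      show (f ^ p ^ n) (y - t) = y - t
      rw [map_sub]
      have : (f ^ p ^ n) t = (f ^ p ^ n) y - y + t := by rw [← htx]; abel
      rw [this]
      abel
    refine ⟨y - t, b4_sub hy htl, ?_⟩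
    rw [b4_nrm, LinearMap.sum_apply, Finset.sum_congr rfl (fun i _ => b4_up hyt i),
      Finset.sum_const, Finset.card_range, smul_sub, ht, sub_zero, hyz]

variable {O R W : Type} [CommRing O] [AddCommGroup R] [Module O R] [AddCommGroup W] [Module O W]
  {p q g : ℕ} {gam : R →ₗ[O] R} {del : W →ₗ[O] W} {loc : Fin g → R →ₗ[O] W} {D : ℕ → Submodule O W}

/-- Chunk B4 (S/M). The global norm is onto: tate with rdiv, t1_ontoR and nrm_p, sub_p (h1: N z = (gam-1)^(p^(n+1)-p^n) z = 0, so z = (gam-1)^(p^n) y;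
h2: (gam-1)^(p^n) z = 0 (lev_p), so z = (gam-1)^(p^(n+1)-p^n) y). -/
theorem nrm_ontoR (h : Tow p q g gam del loc D) (n : ℕ) (r : R) (hr : Lev p n gam r) :
    ∃ r' : R, Lev p (n + 1) gam r' ∧ nrm p n gam r' = r := by
  have hle : p ^ n ≤ p ^ (n + 1) := Nat.pow_le_pow_right h.pr.pos (Nat.le_succ n)
  refine (tate n gam (h.rdiv (n + 1)) ?_ ?_).2 r hr
  · intro z hz hl hN
    rw [nrm_p h.pr n gam z hz] at hN
    obtain ⟨y, hy, hyl, hyz⟩ := t1_ontoR h (n + 1) (p ^ n) (p ^ (n + 1) - p ^ n) (by omega) z hz hN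
    exact ⟨y, hy, hyl, by rw [sub_p h.pr n gam y hy, hyz]⟩
  · intro z hz hl
    rw [lev_p h.pr n gam z hz] at hl
    obtain ⟨y, hy, hyl, hyz⟩ := t1_ontoR h (n + 1) (p ^ (n + 1) - p ^ n) (p ^ n) (by omega) z hz hl
    exact ⟨y, hy, hyl, by rw [nrm_p h.pr n gam y hy, hyz]⟩

/-- Chunk B4 (S/M). The local elements of norm 0, if the local module is divisible at level n + 1: tate with t1_ontoW. -/
theorem nrm_zeroW (h : Tow p q g gam del loc D) (n : ℕ)
    (hwn : q ^ (2 * p ^ (n + 1)) ≤ Nat.card {w : W // p • w = 0 ∧ Lev p (n + 1) del w})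
    (hdiv : ∀ z : W, Lev p (n + 1) del z → ∃ y : W, Lev p (n + 1) del y ∧ p • y = z) (w : W)
    (hw : Lev p (n + 1) del w) (h0 : nrm p n del w = 0) : ∃ y : W, Lev p (n + 1) del y ∧ (del ^ p ^ n) y - y = w := by
  have hle : p ^ n ≤ p ^ (n + 1) := Nat.pow_le_pow_right h.pr.pos (Nat.le_succ n)
  refine (tate n del hdiv ?_ ?_).1 w hw h0
  · intro z hz hl hN
    rw [nrm_p h.pr n del z hz] at hN
    obtain ⟨y, hy, hyl, hyz⟩ := t1_ontoW h (n + 1) (p ^ n) (p ^ (n + 1) - p ^ n) (by omega) hwn z hz hN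
    exact ⟨y, hy, hyl, by rw [sub_p h.pr n del y hy, hyz]⟩
  · intro z hz hl
    rw [lev_p h.pr n del z hz] at hl
    obtain ⟨y, hy, hyl, hyz⟩ := t1_ontoW h (n + 1) (p ^ (n + 1) - p ^ n) (p ^ n) (by omega) hwn z hz hl
    exact ⟨y, hy, hyl, by rw [nrm_p h.pr n del y hy, hyz]⟩

end H35K
end

-- from Lib.H35K.B3
section

/-! # H35K, chunk B3 (M): Selmer classes of norm 0 are killed by p -/

namespace H35K

variable {O R W : Type} [CommRing O] [AddCommGroup R] [Module O R] [AddCommGroup W] [Module O W]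
  {p q g : ℕ} {gam : R →ₗ[O] R} {del : W →ₗ[O] W} {loc : Fin g → R →ₗ[O] W} {D : ℕ → Submodule O W}


theorem b3_pow_comm {O Z : Type} [CommRing O] [AddCommGroup Z] [Module O Z] (T : Z →ₗ[O] Z) (z : Z) (k : ℕ) :
    (T ^ k) (T z) = T ((T ^ k) z) := by
  rw [← Module.End.mul_apply, ← Module.End.mul_apply, ← pow_succ, ← pow_succ']

/-- Chunk B3a (S). The Selmer classes of level n form a submodule stable under gam (dst, comm), increasing in n (dmono; Lev p n implies Lev p (n+1)). -/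
theorem selm_sub (h : Tow p q g gam del loc D) (n : ℕ) :
    ∃ S : Submodule O R, (∀ r, r ∈ S ↔ Selm p gam loc D n r) ∧ (∀ r ∈ S, gam r ∈ S) := by
  refine ⟨{ carrier := {r | Selm p gam loc D n r}
            add_mem' := ?_
            zero_mem' := ?_
            smul_mem' := ?_ }, fun r => Iff.rfl, ?_⟩
  · rintro a b ⟨ha1, ha2⟩ ⟨hb1, hb2⟩
    refine ⟨?_, fun v => ?_⟩
    · unfold Lev at *
      rw [map_add, ha1, hb1]
    · rw [map_add]
      exact (D n).add_mem (ha2 v) (hb2 v)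
  · refine ⟨?_, fun v => ?_⟩
    · unfold Lev
      rw [map_zero]
    · rw [map_zero]
      exact (D n).zero_mem
  · rintro c a ⟨ha1, ha2⟩
    refine ⟨?_, fun v => ?_⟩
    · unfold Lev at *
      rw [map_smul, ha1]
    · rw [map_smul]
      exact (D n).smul_mem c (ha2 v)
  · rintro r ⟨hr1, hr2⟩
    refine ⟨?_, fun v => ?_⟩
    · unfold Lev at *
      rw [b3_pow_comm, hr1]
    · rw [h.comm]
      exact h.dst n _ (hr2 v)


theorem b3_loc_pow (h : Tow p q g gam del loc D) (v : Fin g) (r : R) (k : ℕ) :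
    loc v ((gam ^ k) r) = (del ^ k) (loc v r) := by
  induction k with
  | zero => simp
  | succ k ih =>
    rw [pow_succ', Module.End.mul_apply, h.comm, ih, pow_succ', Module.End.mul_apply]

/-- Chunk B3a (S). The norm of a Selmer class is a Selmer class: gam^(p^n) permutes the summands of the norm cyclically (gam^(p^(n+1)) r = r), loc commutes with
the norm (comm), dnrm. -/
theorem selm_nrm (h : Tow p q g gam del loc D) (n : ℕ) (r : R) (hr : Selm p gam loc D (n + 1) r) :
    Selm p gam loc D n (nrm p n gam r) := by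
  refine ⟨?_, fun v => ?_⟩
  · have h1 := hr.1
    unfold Lev at *
    unfold nrm
    rw [LinearMap.sum_apply, map_sum]
    have e1 : ∀ i ∈ Finset.range p, (gam ^ p ^ n) ((gam ^ (i * p ^ n)) r) = (gam ^ ((i + 1) * p ^ n)) r := by
      intro i _
      rw [← Module.End.mul_apply, ← pow_add]
      congr 2
      ring
    rw [Finset.sum_congr rfl e1]
    have e2 : (gam ^ (p * p ^ n)) r = (gam ^ (0 * p ^ n)) r := by
      have : p * p ^ n = p ^ (n + 1) := by ring
      rw [this, h1]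
      simp
    have e3 := Finset.sum_range_succ (fun i => (gam ^ (i * p ^ n)) r) p
    have e4 := Finset.sum_range_succ' (fun i => (gam ^ (i * p ^ n)) r) p
    rw [e3] at e4
    rw [e2] at e4
    exact (add_right_cancel e4).symm
  · have e1 : loc v (nrm p n gam r) = nrm p n del (loc v r) := by
      unfold nrm
      rw [LinearMap.sum_apply, LinearMap.sum_apply, map_sum]
      exact Finset.sum_congr rfl (fun i _ => b3_loc_pow h v r _)
    rw [e1]
    exact h.dnrm n _ (hr.2 v)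

/-- The norm as a polynomial in Y. -/
theorem b3_nrm {O Z : Type} [CommRing O] [AddCommGroup Z] [Module O Z] {p : ℕ} (hp : p.Prime) (n : ℕ)
    (f : Z →ₗ[O] Z) : ∃ G : Z →ₗ[O] Z, Commute G (f - 1) ∧
      ∀ z, nrm p n f z = ((f - 1) ^ (p ^ (n + 1) - p ^ n)) z + (p • z + G ((f - 1) (p • z))) := by
  obtain ⟨h, h1, h2⟩ := nrm_poly hp n
  refine ⟨Polynomial.aeval (R := ℤ) (f - 1) h.divX, ?_, ?_⟩
  · have h3 : Commute (Polynomial.aeval (R := ℤ) (f - 1) h.divX)
        (Polynomial.aeval (R := ℤ) (f - 1) (Polynomial.X : Polynomial ℤ)) := by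
      unfold Commute SemiconjBy
      rw [← map_mul, ← map_mul, mul_comm]
    rwa [Polynomial.aeval_X] at h3
  · intro z
    have h3 : h = h.divX * Polynomial.X + Polynomial.C 1 := by
      have h4 := Polynomial.divX_mul_X_add h
      rw [Polynomial.coeff_zero_eq_eval_zero, h2] at h4
      exact h4.symm
    have h5 : Polynomial.aeval (R := ℤ) (f - 1) h =
        Polynomial.aeval (R := ℤ) (f - 1) h.divX * (f - 1) + 1 := by
      conv_lhs => rw [h3]
      rw [map_add, map_mul, Polynomial.aeval_X, Polynomial.aeval_C, map_one]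
    have h6 : (algebraMap ℤ (Module.End O Z)) (p : ℤ) = ((p : ℕ) : Module.End O Z) := by simp
    rw [nrm_aeval, h1, map_add, map_pow, Polynomial.aeval_X, map_mul, Polynomial.aeval_C, h5, LinearMap.add_apply]
    congr 1
    rw [h6, Module.End.mul_apply, Module.End.natCast_apply, LinearMap.add_apply, Module.End.mul_apply,
      Module.End.one_apply, smul_add, map_nsmul, map_nsmul, add_comm]

/-- Chunk B3 (M). A Selmer class r of level n + 1 with norm 0 (to level n) is killed by p. PROOF. e = p^(n+1) - p^n, Y = gam - 1, J = J p (n+1), J + 1 <= e (J_phi).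
N = Y^e + p H(Y), H(0) = 1 (nrm_poly, nrm_aeval). Suppose p r <> 0. Some multiple p^k r (torR) has p^(k+2) r = 0, p^(k+1) r <> 0, it is a Selmer class with
norm 0: so assume p^2 r = 0, p r <> 0. p r is a Selmer class killed by p: Y^J (p r) = 0 (t1_sel). Let d be minimal with Y^d (p r) = 0 (Nat.find), 1 <= d <= J.
y = Y^(e+d-J-1) r is a Selmer class of level n + 1 (selm_sub), p y = Y^(e-J-1) Y^d (p r) = 0. Y^J y = Y^(d-1) (Y^e r) = - Y^(d-1) H(Y) (p r) = - Y^(d-1) (p r), since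
H(Y) = 1 + Y H1(Y) (H = C (H.coeff 0) + X * divX). By t1_sel Y^J y = 0: a contradiction to the minimality of d. -/
theorem selm_ker (h : Tow p q g gam del loc D) (n : ℕ) (r : R) (hr : Selm p gam loc D (n + 1) r)
    (hN : nrm p n gam r = 0) : p • r = 0 := by
  classical
  by_contra hpr
  obtain ⟨S, hS, hSg⟩ := selm_sub h (n + 1)
  -- reduction to p^2 r = 0
  have hex : ∃ k : ℕ, p ^ k • r = 0 := h.torR r
  have hm0 := Nat.find_spec hex
  have hmin := fun k => Nat.find_min hex (m := k)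
  generalize Nat.find hex = m at hm0 hmin
  have hm2 : 2 ≤ m := by
    rcases Nat.lt_or_ge m 2 with h1 | h1
    · exfalso
      interval_cases m
      · apply hpr
        rw [pow_zero, one_smul] at hm0
        rw [hm0, smul_zero]
      · exact hpr (by rwa [pow_one] at hm0)
    · exact h1
  obtain ⟨k, rfl⟩ := Nat.exists_eq_add_of_le' hm2
  have hrS : r ∈ S := (hS r).2 hr
  obtain ⟨s, hsdef⟩ : ∃ s, s = p ^ k • r := ⟨_, rfl⟩
  have hsS : s ∈ S := by rw [hsdef]; exact S.smul_of_tower_mem _ hrS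
  have hps : p • s ≠ 0 := by
    rw [hsdef, ← mul_smul, ← pow_succ']
    exact hmin (k + 1) (by omega)
  have hpps : p • (p • s) = 0 := by
    rw [hsdef, ← mul_smul, ← mul_smul, show p * p * p ^ k = p ^ (k + 2) by ring]
    exact hm0
  have hNs : nrm p n gam s = 0 := by
    rw [hsdef, map_nsmul, hN, smul_zero]
  -- stability under Y
  obtain ⟨Y, hY⟩ : ∃ Y : R →ₗ[O] R, Y = gam - 1 := ⟨_, rfl⟩
  have hYS : ∀ z ∈ S, Y z ∈ S := by
    intro z hz
    rw [hY, LinearMap.sub_apply, Module.End.one_apply]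
    exact S.sub_mem (hSg z hz) hz
  have hYkS : ∀ (j : ℕ) (z : R), z ∈ S → (Y ^ j) z ∈ S := by
    intro j
    induction j with
    | zero => intro z hz; simpa using hz
    | succ j ih =>
      intro z hz
      rw [pow_succ, Module.End.mul_apply]
      exact ih _ (hYS z hz)
  have hadd : ∀ (a b : ℕ) (z : R), (Y ^ a) ((Y ^ b) z) = (Y ^ (a + b)) z := by
    intro a b z
    rw [pow_add, Module.End.mul_apply]
  have hsel : ∀ z ∈ S, p • z = 0 → (Y ^ J p (n + 1)) z = 0 := by
    intro z hz hz0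
    have h1 := (hS z).1 hz
    rw [hY]
    exact (t1_sel h (n + 1) z hz0 h1.1).1 h1.2
  have hpsS : p • s ∈ S := S.smul_of_tower_mem _ hsS
  have hJ := hsel _ hpsS hpps
  have hJphi : J p (n + 1) + 1 ≤ p ^ (n + 1) - p ^ n := J_phi h.odd n
  obtain ⟨G, hG1, hG2⟩ := b3_nrm (O := O) h.pr n gam
  have hex2 : ∃ d : ℕ, (Y ^ d) (p • s) = 0 := ⟨_, hJ⟩
  have hd0 := Nat.find_spec hex2
  have hdmin := fun k => Nat.find_min hex2 (m := k)
  have hdJ : Nat.find hex2 ≤ J p (n + 1) := Nat.find_min' hex2 hJ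
  generalize Nat.find hex2 = d at hd0 hdmin hdJ
  have hd1 : 1 ≤ d := by
    rcases Nat.eq_zero_or_pos d with h1 | h1
    · exfalso
      rw [h1, pow_zero, Module.End.one_apply] at hd0
      exact hps hd0
    · exact h1
  obtain ⟨c, rfl⟩ := Nat.exists_eq_add_of_le' hd1
  apply hdmin c (by omega)
  obtain ⟨e, he⟩ : ∃ e, e = p ^ (n + 1) - p ^ n := ⟨_, rfl⟩
  rw [← he] at hJphi
  have hG3 := hG2 s
  rw [← he, hNs, ← hY] at hG3
  -- y
  have hy1 : (Y ^ (e + c - J p (n + 1))) s ∈ S := hYkS _ _ hsS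
  have hy2 : p • (Y ^ (e + c - J p (n + 1))) s = 0 := by
    rw [← map_nsmul, show e + c - J p (n + 1) = (e - J p (n + 1) - 1) + (c + 1) by omega, ← hadd, hd0, map_zero]
  have hy3 := hsel _ hy1 hy2
  rw [hadd, show J p (n + 1) + (e + c - J p (n + 1)) = c + e by omega, ← hadd] at hy3
  have hy4 : (Y ^ e) s = -(p • s + G (Y (p • s))) := by
    rw [eq_neg_iff_add_eq_zero, ← hG3]
  rw [hy4, map_neg, neg_eq_zero, map_add] at hy3
  have hy5 : (Y ^ c) (G (Y (p • s))) = 0 := by
    have h1 : Commute (Y ^ c) G := by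
      rw [hY]
      exact (hG1.symm).pow_left c
    rw [← Module.End.mul_apply, h1.eq, Module.End.mul_apply]
    have h2 : (Y ^ c) (Y (p • s)) = (Y ^ (c + 1)) (p • s) := by
      rw [pow_succ, Module.End.mul_apply]
    rw [h2, hd0, map_zero]
  rw [hy5, add_zero] at hy3
  exact hy3

end H35K
end

-- from Lib.H35K.B5
section

/-! # H35K, chunk B5 (M/L): the localisation map is onto -/

namespace H35K

variable {O R W : Type} [CommRing O] [AddCommGroup R] [Module O R] [AddCommGroup W] [Module O W]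
  {p q g : ℕ} {gam : R →ₗ[O] R} {del : W →ₗ[O] W} {loc : Fin g → R →ₗ[O] W} {D : ℕ → Submodule O W}

theorem b5_lev_add {O Z : Type} [CommRing O] [AddCommGroup Z] [Module O Z] {p n : ℕ} {f : Z →ₗ[O] Z} {a b : Z}
    (ha : Lev p n f a) (hb : Lev p n f b) : Lev p n f (a + b) := by
  unfold Lev at *
  rw [map_add, ha, hb]

theorem b5_lev_zero {O Z : Type} [CommRing O] [AddCommGroup Z] [Module O Z] (p n : ℕ) (f : Z →ₗ[O] Z) :
    Lev p n f (0 : Z) := by
  unfold Lev
  rw [map_zero]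

theorem b5_lev_neg {O Z : Type} [CommRing O] [AddCommGroup Z] [Module O Z] {p n : ℕ} {f : Z →ₗ[O] Z} {a : Z}
    (ha : Lev p n f a) : Lev p n f (-a) := by
  unfold Lev at *
  rw [map_neg, ha]

theorem b5_lev_nsmul {O Z : Type} [CommRing O] [AddCommGroup Z] [Module O Z] {p n : ℕ} {f : Z →ₗ[O] Z} {a : Z} (k : ℕ)
    (ha : Lev p n f a) : Lev p n f (k • a) := by
  unfold Lev at *
  rw [map_nsmul, ha]

theorem b5_lev_loc (h : Tow p q g gam del loc D) (n : ℕ) (v : Fin g) {r : R} (hr : Lev p n gam r) :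
    Lev p n del (loc v r) := by
  unfold Lev at *
  rw [← a3_comm del gam (loc v) (h.comm v), hr]

/-- pairs of a global class of level n and a family of classes of points -/
def b5_A0 (p g n : ℕ) (gam : R →ₗ[O] R) (D : ℕ → Submodule O W) : AddSubgroup (R × (Fin g → W)) where
  carrier := {x | Lev p n gam x.1 ∧ ∀ v, x.2 v ∈ D n}
  add_mem' := fun ha hb => ⟨b5_lev_add ha.1 hb.1, fun v => (D n).add_mem (ha.2 v) (hb.2 v)⟩
  zero_mem' := ⟨b5_lev_zero p n gam, fun _ => (D n).zero_mem⟩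
  neg_mem' := fun ha => ⟨b5_lev_neg ha.1, fun v => (D n).neg_mem (ha.2 v)⟩

/-- the family `loc r + d` -/
def b5_phi (p n : ℕ) (gam : R →ₗ[O] R) (loc : Fin g → R →ₗ[O] W) (D : ℕ → Submodule O W) :
    b5_A0 p g n gam D →+ (Fin g → W) where
  toFun := fun x v => loc v x.1.1 + x.1.2 v
  map_zero' := by
    funext v
    simp
  map_add' := fun x y => by
    funext v
    simp
    abel


theorem b5_div (h : Tow p q g gam del loc D) (n : ℕ) (x : b5_A0 p g n gam D) :
    ∃ y : b5_A0 p g n gam D, p • y = x := by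
  obtain ⟨r', hr1, hr2⟩ := h.rdiv n x.1.1 x.2.1
  choose d' hd1 hd2 using fun v => h.ddiv n (x.1.2 v) (x.2.2 v)
  refine ⟨⟨(r', d'), hr1, hd1⟩, Subtype.ext (Prod.ext hr2 ?_)⟩
  funext v
  exact hd2 v

/-- the count: the image of `phi` contains all families killed by p -/
theorem b5_count' (h : Tow p q g gam del loc D) (n : ℕ) (hf : {r : R | Selm p gam loc D n r}.Finite) :
    (∀ w : Fin g → W, (∀ v, Lev p n del (w v)) → p • w = 0 → ∃ x, b5_phi p n gam loc D x = w) ∧
      q ^ (2 * p ^ n) ≤ Nat.card {w : W // p • w = 0 ∧ Lev p n del w} := by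
  have hq : 0 < q := lt_of_lt_of_le (by norm_num) h.q2
  set φ := b5_phi p n gam loc D with hφ
  -- the two groups
  let A : AddSubgroup (b5_A0 p g n gam D) := φ.ker.comap (nsmulAddMonoidHom p)
  have hAmem : ∀ x, x ∈ A ↔ p • φ x = 0 := by
    intro x
    rw [← map_nsmul]
    rfl
  -- map 1
  let m1 : A →+ φ.ker :=
    { toFun := fun x => ⟨p • x.1, x.2⟩
      map_zero' := Subtype.ext (smul_zero p)
      map_add' := fun x y => Subtype.ext (smul_add p x.1 y.1) }
  have hm1 : Function.Surjective m1 := by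
    intro b
    obtain ⟨y, hy⟩ := b5_div h n b.1
    refine ⟨⟨y, ?_⟩, Subtype.ext hy⟩
    show φ (p • y) = 0
    rw [hy]
    exact b.2
  have e1 : Nat.card A = Nat.card φ.ker * Nat.card m1.ker := by
    rw [a2_first m1, AddMonoidHom.range_eq_top.mpr hm1]
    congr 1
    exact Nat.card_congr AddSubgroup.topEquiv.toEquiv
  have e2 : Nat.card m1.ker = q ^ (g * p ^ n) * (q ^ p ^ n) ^ g := by
    have e3 : Nat.card m1.ker = Nat.card ({r : R // p • r = 0 ∧ ((gam - 1) ^ (p ^ n)) r = 0}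
        × (Fin g → {w : W // w ∈ D n ∧ p • w = 0})) := by
      refine Nat.card_congr ⟨fun x => ⟨⟨x.1.1.1.1, ?_, ?_⟩, fun v => ⟨x.1.1.1.2 v, x.1.1.2.2 v, ?_⟩⟩,
        fun y => ⟨⟨⟨(y.1.1, fun v => (y.2 v).1), ?_, fun v => (y.2 v).2.1⟩, ?_⟩, ?_⟩, fun _ => rfl, fun _ => rfl⟩
      · have := congrArg (fun z : φ.ker => z.1.1.1) x.2
        exact this
      · have hz := congrArg (fun z : φ.ker => z.1.1.1) x.2
        exact (lev_p h.pr n gam _ hz).mp x.1.1.2.1
      · have := congrArg (fun z : φ.ker => z.1.1.2 v) x.2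
        exact this
      · exact (lev_p h.pr n gam _ y.1.2.1).mpr y.1.2.2
      · show p • _ ∈ φ.ker
        have hz : p • (⟨(y.1.1, fun v => (y.2 v).1), (lev_p h.pr n gam _ y.1.2.1).mpr y.1.2.2,
            fun v => (y.2 v).2.1⟩ : b5_A0 p g n gam D) = 0 :=
          Subtype.ext (Prod.ext y.1.2.1 (funext fun v => (y.2 v).2.2))
        rw [hz]
        exact φ.ker.zero_mem
      · refine Subtype.ext (Subtype.ext (Prod.ext y.1.2.1 (funext fun v => (y.2 v).2.2)))
    rw [e3, Nat.card_prod, Nat.card_fun, t1_card h n (p ^ n) le_rfl, h.dp n, Nat.card_fin]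
  -- map 2
  let m2 : A →+ (Fin g → W) := φ.comp A.subtype
  have e4 : Nat.card A = Nat.card m2.range * Nat.card φ.ker := by
    rw [a2_first m2]
    congr 1
    refine Nat.card_congr ⟨fun x => ⟨x.1.1, x.2⟩, fun y => ⟨⟨y.1, ?_⟩, y.2⟩, fun _ => rfl, fun _ => rfl⟩
    show φ (p • y.1) = 0
    rw [map_nsmul, y.2, smul_zero]
  have hkfin : Finite φ.ker := by
    have hinj : Function.Injective (fun x : φ.ker => (⟨x.1.1.1, by
        refine ⟨x.1.2.1, fun v => ?_⟩
        have hx := congrFun x.2 v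
        have hx' : loc v x.1.1.1 + x.1.1.2 v = 0 := hx
        rw [eq_neg_of_add_eq_zero_left hx']
        exact (D n).neg_mem (x.1.2.2 v)⟩ : {r : R // Selm p gam loc D n r})) := by
      intro x y hxy
      have h1 : x.1.1.1 = y.1.1.1 := congrArg Subtype.val hxy
      refine Subtype.ext (Subtype.ext (Prod.ext h1 (funext fun v => ?_)))
      have hx : loc v x.1.1.1 + x.1.1.2 v = 0 := congrFun x.2 v
      have hy : loc v y.1.1.1 + y.1.1.2 v = 0 := congrFun y.2 v
      rw [h1] at hx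
      exact add_left_cancel (hx.trans hy.symm)
    haveI : Finite {r : R // Selm p gam loc D n r} := hf.to_subtype
    exact Finite.of_injective _ hinj
  have hkpos : 0 < Nat.card φ.ker := Nat.card_pos
  have e5 : Nat.card m2.range = q ^ (g * p ^ n) * (q ^ p ^ n) ^ g := by
    have h1 : Nat.card φ.ker * Nat.card m2.range = Nat.card φ.ker * (q ^ (g * p ^ n) * (q ^ p ^ n) ^ g) := by
      rw [← e2, ← e1, e4, mul_comm]
    exact Nat.eq_of_mul_eq_mul_left hkpos h1
  -- the families killed by p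
  obtain ⟨hWf, hWc⟩ := t1_leW h n
  have e6' : Nat.card {w : Fin g → W // p • w = 0 ∧ ∀ v, Lev p n del (w v)} =
      Nat.card {w : W // p • w = 0 ∧ Lev p n del w} ^ g := by
    have h1 : Nat.card {w : Fin g → W // p • w = 0 ∧ ∀ v, Lev p n del (w v)}
        = Nat.card (Fin g → {w : W // p • w = 0 ∧ Lev p n del w}) := by
      refine Nat.card_congr ⟨fun x v => ⟨x.1 v, congrFun x.2.1 v, x.2.2 v⟩,
        fun y => ⟨fun v => (y v).1, funext fun v => (y v).2.1, fun v => (y v).2.2⟩, fun _ => rfl, fun _ => rfl⟩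
    rw [h1, Nat.card_fun, Nat.card_fin]
  have e6 : Nat.card {w : Fin g → W // p • w = 0 ∧ ∀ v, Lev p n del (w v)} ≤ (q ^ (2 * p ^ n)) ^ g := by
    rw [e6']
    exact Nat.pow_le_pow_left hWc g
  have e7 : q ^ (g * p ^ n) * (q ^ p ^ n) ^ g = (q ^ (2 * p ^ n)) ^ g := by
    rw [← pow_mul, ← pow_mul, ← pow_add]
    congr 1
    ring
  have hfinQ : ({w : Fin g → W | p • w = 0 ∧ ∀ v, Lev p n del (w v)} : Set (Fin g → W)).Finite := by
    have h1 : Finite (Fin g → {w : W // p • w = 0 ∧ Lev p n del w}) := inferInstance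
    have h2 : Finite {w : Fin g → W // p • w = 0 ∧ ∀ v, Lev p n del (w v)} := by
      refine Finite.of_injective (β := Fin g → {w : W // p • w = 0 ∧ Lev p n del w})
        (fun x v => ⟨x.1 v, congrFun x.2.1 v, x.2.2 v⟩) ?_
      intro x y hxy
      refine Subtype.ext (funext fun v => ?_)
      exact congrArg Subtype.val (congrFun hxy v)
    exact @Set.toFinite _ {w : Fin g → W | p • w = 0 ∧ ∀ v, Lev p n del (w v)} h2
  have hsub : (m2.range : Set (Fin g → W)) ⊆ {w : Fin g → W | p • w = 0 ∧ ∀ v, Lev p n del (w v)} := by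
    rintro _ ⟨x, rfl⟩
    refine ⟨(hAmem x.1).mp x.2, fun v => ?_⟩
    exact b5_lev_add (b5_lev_loc h n v x.1.2.1) (h.dlev n _ (x.1.2.2 v))
  have c2 : (m2.range : Set (Fin g → W)).ncard = q ^ (g * p ^ n) * (q ^ p ^ n) ^ g := e5
  refine ⟨fun w hw hpw => ?_, ?_⟩
  · have heq : (m2.range : Set (Fin g → W)) = {w : Fin g → W | p • w = 0 ∧ ∀ v, Lev p n del (w v)} := by
      refine Set.eq_of_subset_of_ncard_le hsub ?_ hfinQ
      have c1 : ({w : Fin g → W | p • w = 0 ∧ ∀ v, Lev p n del (w v)} : Set (Fin g → W)).ncard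
          ≤ (q ^ (2 * p ^ n)) ^ g := e6
      rw [c2, e7]
      exact c1
    have hmem : w ∈ (m2.range : Set (Fin g → W)) := by
      rw [heq]
      exact ⟨hpw, hw⟩
    obtain ⟨x, hx⟩ := hmem
    exact ⟨x.1, hx⟩
  · have h1 := Set.ncard_le_ncard hsub hfinQ
    rw [c2, e7] at h1
    have h2 : (q ^ (2 * p ^ n)) ^ g ≤ Nat.card {w : W // p • w = 0 ∧ Lev p n del w} ^ g := by
      rw [← e6']
      exact h1
    exact (Nat.pow_le_pow_iff_left h.gpos.ne').1 h2

theorem b5_count (h : Tow p q g gam del loc D) (n : ℕ) (hf : {r : R | Selm p gam loc D n r}.Finite) (w : Fin g → W)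
    (hw : ∀ v, Lev p n del (w v)) (hpw : p • w = 0) : ∃ x, b5_phi p n gam loc D x = w :=
  (b5_count' h n hf).1 w hw hpw

/-- So there are at least q^(2 p^n) local classes of level n killed by p. -/
theorem cardW (h : Tow p q g gam del loc D) (n : ℕ) (hf : {r : R | Selm p gam loc D n r}.Finite) :
    q ^ (2 * p ^ n) ≤ Nat.card {w : W // p • w = 0 ∧ Lev p n del w} := (b5_count' h n hf).2

theorem b5_all (h : Tow p q g gam del loc D) (n : ℕ) (hf : {r : R | Selm p gam loc D n r}.Finite) (k : ℕ) :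
    ∀ w : Fin g → W, (∀ v, Lev p n del (w v)) → p ^ k • w = 0 → ∃ x, b5_phi p n gam loc D x = w := by
  induction k with
  | zero =>
    intro w _ hk
    rw [pow_zero, one_smul] at hk
    exact ⟨0, by rw [map_zero, hk]⟩
  | succ k ih =>
    intro w hw hk
    obtain ⟨x, hx⟩ := ih (p • w) (fun v => b5_lev_nsmul p (hw v)) (by rw [smul_smul, ← pow_succ]; exact hk)
    obtain ⟨y, hy⟩ := b5_div h n x
    have hφ : ∀ (z : b5_A0 p g n gam D) v, Lev p n del (b5_phi p n gam loc D z v) := fun z v =>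
      b5_lev_add (b5_lev_loc h n v z.2.1) (h.dlev n _ (z.2.2 v))
    obtain ⟨z, hz⟩ := b5_count h n hf (w - b5_phi p n gam loc D y)
      (fun v => by
        have h1 := b5_lev_add (hw v) (b5_lev_neg (hφ y v))
        rw [← sub_eq_add_neg] at h1
        exact h1)
      (by rw [smul_sub, ← map_nsmul, hy, hx, sub_self])
    exact ⟨z + y, by rw [map_add, hz, sub_add_cancel]⟩

theorem b5_tor (h : Tow p q g gam del loc D) (w : Fin g → W) : ∃ k : ℕ, p ^ k • w = 0 := by
  choose k hk using fun v => h.torW (w v)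
  refine ⟨∑ v, k v, funext fun v => ?_⟩
  have hle : k v ≤ ∑ v, k v := Finset.single_le_sum (fun _ _ => Nat.zero_le _) (Finset.mem_univ v)
  obtain ⟨c, hc⟩ := Nat.exists_eq_add_of_le hle
  show p ^ (∑ v, k v) • w v = 0
  rw [hc, pow_add, mul_comm, ← smul_smul, hk v, smul_zero]

/-- Chunk B5 (M/L). If the group of Selmer classes of level n is finite, every family of local classes of level n is loc r modulo D n. PROOF. Q = families w of level n, I = those of
the form loc r + d, r of level n, d v in D n. I is divisible by p in itself (rdiv, ddiv). COUNT I[p]: A = {(r,d) : p (loc r + d) = 0}; (r,d) -> loc r + d maps A onto I[p] with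
kernel B = {(s,e) : loc s + e = 0}, which is in bijection with the Selmer classes; (r,d) -> (p r, p d) maps A onto B (divisibility) with kernel R_n[p] x (D n [p])^g. So
|A| = |B| |R_n[p]| |D n[p]|^g and |I[p]| = |A|/|B| = q^(g p^n) (q^(p^n))^g (t1_card with j = p^n and lev_p; dp) = q^(2 g p^n) >= |Q[p]| (t1_leW), so I[p] = Q[p] (finite). Then by induction on k:
w in Q with p^k w = 0 is in I: p w is in I, p w = p i with i in I, w - i is in Q[p] = I[p]. -/
theorem loc_onto (h : Tow p q g gam del loc D) (n : ℕ) (hf : {r : R | Selm p gam loc D n r}.Finite) (w : Fin g → W)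
    (hw : ∀ v, Lev p n del (w v)) : ∃ r : R, Lev p n gam r ∧ ∀ v, w v - loc v r ∈ D n := by
  obtain ⟨k, hk⟩ := b5_tor h w
  obtain ⟨x, hx⟩ := b5_all h n hf k w hw hk
  refine ⟨x.1.1, x.2.1, fun v => ?_⟩
  have h1 : loc v x.1.1 + x.1.2 v = w v := congrFun hx v
  rw [← h1, add_sub_cancel_left]
  exact x.2.2 v

/-- Chunk B5 (S/M). So the local module is divisible: put w in one place (g > 0), write it as loc v r + d, divide r and d by p. -/
theorem divW (h : Tow p q g gam del loc D) (n : ℕ) (hf : {r : R | Selm p gam loc D n r}.Finite) (w : W)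
    (hw : Lev p n del w) : ∃ w' : W, Lev p n del w' ∧ p • w' = w := by
  obtain ⟨r, hr, hd⟩ := loc_onto h n hf (fun _ => w) (fun _ => hw)
  let v0 : Fin g := ⟨0, h.gpos⟩
  obtain ⟨r', hr1, hr2⟩ := h.rdiv n r hr
  obtain ⟨d', hd1, hd2⟩ := h.ddiv n _ (hd v0)
  refine ⟨loc v0 r' + d', b5_lev_add (b5_lev_loc h n v0 hr1) (h.dlev n _ hd1), ?_⟩
  rw [smul_add, hd2, ← map_nsmul, hr2]
  abel

end H35K
end

-- from Lib.H35K.B6
section

/-! # H35K, chunk B6 (M): the norm of Selmer classes is onto -/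

namespace H35K

variable {O R W : Type} [CommRing O] [AddCommGroup R] [Module O R] [AddCommGroup W] [Module O W]
  {p q g : ℕ} {gam : R →ₗ[O] R} {del : W →ₗ[O] W} {loc : Fin g → R →ₗ[O] W} {D : ℕ → Submodule O W}

theorem b6_locpow (h : Tow p q g gam del loc D) (v : Fin g) (m : ℕ) (r : R) :
    loc v ((gam ^ m) r) = (del ^ m) (loc v r) := by
  induction m generalizing r with
  | zero => rfl
  | succ m ih =>
    rw [pow_succ, pow_succ]
    show loc v ((gam ^ m) (gam r)) = (del ^ m) (del (loc v r))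
    rw [ih, h.comm]

theorem b6_nrm {Z : Type} [AddCommGroup Z] [Module O Z] (p n : ℕ) (f : Z →ₗ[O] Z) (z : Z) :
    nrm p n f z = ∑ i ∈ Finset.range p, (f ^ (i * p ^ n)) z := by
  unfold nrm
  rw [LinearMap.sum_apply]

theorem b6_locnrm (h : Tow p q g gam del loc D) (v : Fin g) (n : ℕ) (r : R) :
    loc v (nrm p n gam r) = nrm p n del (loc v r) := by
  rw [b6_nrm, b6_nrm, map_sum]
  exact Finset.sum_congr rfl fun i _ => b6_locpow h v _ r

theorem b6_nrmT {Z : Type} [AddCommGroup Z] [Module O Z] (p n : ℕ) (f : Z →ₗ[O] Z) (z : Z) (hz : Lev p (n + 1) f z) :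
    nrm p n f ((f ^ p ^ n) z) = nrm p n f z := by
  rw [b6_nrm, b6_nrm]
  have e1 : ∀ i ∈ Finset.range p, (f ^ (i * p ^ n)) ((f ^ p ^ n) z) = (f ^ ((i + 1) * p ^ n)) z := by
    intro i _
    rw [add_mul, one_mul, pow_add]
    rfl
  rw [Finset.sum_congr rfl e1]
  have e2 := Finset.sum_range_succ (fun i => (f ^ (i * p ^ n)) z) p
  have e3 := Finset.sum_range_succ' (fun i => (f ^ (i * p ^ n)) z) p
  rw [e2] at e3
  have e4 : (f ^ (p * p ^ n)) z = z := by
    have e5 : p * p ^ n = p ^ (n + 1) := by ring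
    rw [e5]
    exact hz
  have e6 : (f ^ (0 * p ^ n)) z = z := by
    rw [zero_mul, pow_zero]
    rfl
  rw [e4, e6] at e3
  exact (add_right_cancel e3).symm

theorem b6_nrmfix {Z : Type} [AddCommGroup Z] [Module O Z] (p n : ℕ) (f : Z →ₗ[O] Z) (z : Z) (hz : Lev p n f z) :
    nrm p n f z = p • z := by
  rw [b6_nrm]
  have e1 : ∀ i : ℕ, (f ^ (i * p ^ n)) z = z := by
    intro i
    induction i with
    | zero => rw [zero_mul, pow_zero]; rfl
    | succ i ih =>
      rw [add_mul, one_mul, pow_add]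
      show (f ^ (i * p ^ n)) ((f ^ p ^ n) z) = z
      have h1 : (f ^ p ^ n) z = z := hz
      rw [h1, ih]
  rw [Finset.sum_congr rfl fun i _ => e1 i, Finset.sum_const, Finset.card_range]

theorem b6_levpow {Z : Type} [AddCommGroup Z] [Module O Z] (p n m : ℕ) (f : Z →ₗ[O] Z) (z : Z) (hz : Lev p n f z) :
    Lev p n f ((f ^ m) z) := by
  unfold Lev
  have e : (f ^ p ^ n) ((f ^ m) z) = (f ^ m) ((f ^ p ^ n) z) := by
    show (f ^ p ^ n * f ^ m) z = (f ^ m * f ^ p ^ n) z
    rw [← pow_add, ← pow_add, add_comm]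
  have h1 : (f ^ p ^ n) z = z := hz
  rw [e, h1]

theorem b6_levsub {Z : Type} [AddCommGroup Z] [Module O Z] (p n : ℕ) (f : Z →ₗ[O] Z) {z w : Z} (hz : Lev p n f z)
    (hw : Lev p n f w) : Lev p n f (z - w) := by
  unfold Lev at *
  rw [map_sub, hz, hw]

theorem b6_dstpow (h : Tow p q g gam del loc D) (n m : ℕ) (w : W) (hw : w ∈ D n) : (del ^ m) w ∈ D n := by
  induction m generalizing w with
  | zero => exact hw
  | succ m ih =>
    rw [pow_succ]
    exact ih _ (h.dst n w hw)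

theorem b6_powzero {Z : Type} [AddCommGroup Z] [Module O Z] (f : Z →ₗ[O] Z) {a b : ℕ} (hab : a ≤ b) (z : Z)
    (hz : (f ^ a) z = 0) : (f ^ b) z = 0 := by
  obtain ⟨c, rfl⟩ := Nat.exists_eq_add_of_le hab
  rw [add_comm, pow_add]
  show (f ^ c) ((f ^ a) z) = 0
  rw [hz, map_zero]

/-- Chunk B6a (S/M). The kernel of the norm on the Selmer classes of level n + 1 has q^(g J(n+1)) elements: it is {r : p r = 0, (gam-1)^J r = 0}: selm_ker and t1_sel give one inclusion;
conversely (gam-1)^J r = 0 and J <= p^(n+1) - p^n <= p^(n+1) (J_phi) give the level, the norm is 0 (nrm_p), t1_sel. Then t1_card. -/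
theorem ker_card (h : Tow p q g gam del loc D) (n : ℕ) :
    Nat.card {r : R // Selm p gam loc D (n + 1) r ∧ nrm p n gam r = 0} = q ^ (g * J p (n + 1)) := by
  have hJ := J_phi h.odd n
  have hle : J p (n + 1) ≤ p ^ (n + 1) - p ^ n := by omega
  have hle2 : J p (n + 1) ≤ p ^ (n + 1) := hle.trans (Nat.sub_le _ _)
  rw [← t1_card h (n + 1) (J p (n + 1)) hle2]
  have key : ∀ r : R, (Selm p gam loc D (n + 1) r ∧ nrm p n gam r = 0) ↔ (p • r = 0 ∧ ((gam - 1) ^ J p (n + 1)) r = 0) := by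
    intro r
    constructor
    · rintro ⟨h1, h2⟩
      have h3 := selm_ker h n r h1 h2
      exact ⟨h3, (t1_sel h (n + 1) r h3 h1.1).1 h1.2⟩
    · rintro ⟨h1, h2⟩
      have h3 : Lev p (n + 1) gam r := (lev_p h.pr (n + 1) gam r h1).2 (b6_powzero _ hle2 r h2)
      refine ⟨⟨h3, (t1_sel h (n + 1) r h1 h3).2 h2⟩, ?_⟩
      rw [nrm_p h.pr n gam r h1]
      exact b6_powzero _ hle r h2
  exact Nat.card_congr (Equiv.subtypeEquivRight key)

/-- Chunk B6b (M). If the group of Selmer classes of level n + 1 is finite, the norm to level n is onto. PROOF. y Selmer of level n; y = N r, r of level n + 1 (nrm_ontoR). For every v: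
N (loc v r) = loc v y is in D n; write loc v y = p d = N d, d in D n (ddiv; N d = p d since d is of level n; d is in D (n+1) by dmono). So w v = loc v r - d v has norm 0 and level n + 1:
w v = T u v - u v, T = del^(p^n) (nrm_zeroW, divW). loc_onto: r' of level n + 1 with u v - loc v r' in D (n+1). Then r - (gam^(p^n) r' - r') has norm y (N T = N at level n + 1) and
loc v of it is d v + (T - 1)(u v - loc v r') in D (n+1) (dst, dmono). -/
theorem selm_onto (h : Tow p q g gam del loc D) (n : ℕ) (hf : {r : R | Selm p gam loc D (n + 1) r}.Finite) (y : R)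
    (hy : Selm p gam loc D n y) : ∃ r : R, Selm p gam loc D (n + 1) r ∧ nrm p n gam r = y := by
  obtain ⟨r, hr, hNr⟩ := nrm_ontoR h n y hy.1
  have h1 : ∀ v, ∃ d ∈ D n, p • d = loc v y := fun v => h.ddiv n _ (hy.2 v)
  choose d hd hpd using h1
  have hlr : ∀ v, Lev p (n + 1) del (loc v r) := by
    intro v
    have h2 : (gam ^ p ^ (n + 1)) r = r := hr
    show (del ^ p ^ (n + 1)) (loc v r) = loc v r
    rw [← b6_locpow h, h2]
  have hd' : ∀ v, d v ∈ D (n + 1) := fun v => h.dmono n (hd v)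
  have hz : ∀ v, nrm p n del (loc v r - d v) = 0 := by
    intro v
    rw [map_sub, ← b6_locnrm h, hNr, b6_nrmfix p n del (d v) (h.dlev n _ (hd v)), hpd, sub_self]
  have hzl : ∀ v, Lev p (n + 1) del (loc v r - d v) := fun v =>
    b6_levsub p (n + 1) del (hlr v) (h.dlev (n + 1) _ (hd' v))
  have h2 : ∀ v, ∃ u : W, Lev p (n + 1) del u ∧ (del ^ p ^ n) u - u = loc v r - d v := fun v =>
    nrm_zeroW h n (cardW h (n + 1) hf) (fun z hz => divW h (n + 1) hf z hz) _ (hzl v) (hz v)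
  choose u hul hu using h2
  obtain ⟨r', hr', hur'⟩ := loc_onto h (n + 1) hf u hul
  refine ⟨r - ((gam ^ p ^ n) r' - r'), ⟨?_, ?_⟩, ?_⟩
  · exact b6_levsub p (n + 1) gam hr (b6_levsub p (n + 1) gam (b6_levpow p (n + 1) _ gam r' hr') hr')
  · intro v
    have e : loc v (r - ((gam ^ p ^ n) r' - r')) = d v + ((del ^ p ^ n) (u v - loc v r') - (u v - loc v r')) := by
      rw [map_sub, map_sub, b6_locpow h, map_sub]
      have h3 := hu v
      have h4 : loc v r = d v + ((del ^ p ^ n) (u v) - u v) := by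
        rw [h3]
        abel
      rw [h4]
      abel
    rw [e]
    exact (D (n + 1)).add_mem (hd' v) ((D (n + 1)).sub_mem (b6_dstpow h (n + 1) _ _ (hur' v)) (hur' v))
  · rw [map_sub, map_sub, b6_nrmT p n gam r' hr', sub_self, sub_zero, hNr]

end H35K
end

-- from Lib.H35K.B7
section

/-! # H35K, chunk B7 (M): the order of the Selmer group -/

namespace H35K

variable {O R W : Type} [CommRing O] [AddCommGroup R] [Module O R] [AddCommGroup W] [Module O W]
  {p q g : ℕ} {gam : R →ₗ[O] R} {del : W →ₗ[O] W} {loc : Fin g → R →ₗ[O] W} {D : ℕ → Submodule O W}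

theorem b7_zero (h : Tow p q g gam del loc D) (r : R) (hr : Selm p gam loc D 0 r) : r = 0 := by
  classical
  obtain ⟨S, hS, -⟩ := selm_sub h 0
  by_contra hne
  have hex := h.torR r
  have hk := Nat.find_spec hex
  rcases Nat.eq_zero_or_pos (Nat.find hex) with h0 | h0
  · rw [h0, pow_zero, one_smul] at hk
    exact hne hk
  · have hlt := Nat.find_min hex (m := Nat.find hex - 1) (by omega)
    have hS1 : p ^ (Nat.find hex - 1) • r ∈ S := S.smul_of_tower_mem _ ((hS r).2 hr)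
    have hS2 := (hS _).1 hS1
    apply hlt
    refine h.inj _ ?_ ?_ hS2.2
    · rw [smul_smul, ← pow_succ', Nat.sub_add_cancel h0]
      exact hk
    · have h3 : (gam ^ p ^ 0) (p ^ (Nat.find hex - 1) • r) = p ^ (Nat.find hex - 1) • r := hS2.1
      rwa [pow_zero, pow_one] at h3

theorem b7_fin {A B : Type} [AddCommGroup A] [AddCommGroup B] (f : A →+ B) (h1 : Finite f.ker) (h2 : Finite B) : Finite A := by
  have hr : Finite f.range := Subtype.finite
  have hq : Finite (A ⧸ f.ker) := Finite.of_equiv _ (QuotientAddGroup.quotientKerEquivRange f).symm.toEquiv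
  exact Finite.of_equiv _ (AddSubgroup.addGroupEquivQuotientProdAddSubgroup (s := f.ker)).symm

/-- Chunk B7 (M). The Selmer group of level n is finite of order q^(g (J 0 + .. + J n)). PROOF by induction. n = 0: a nonzero Selmer class of level 0 has a multiple r <> 0 with
p r = 0 (torR), still Selmer, so r = 0 by inj: the group is trivial (J 0 = 0). n -> n + 1: the norm maps the Selmer classes of level n + 1 to those of level n (selm_nrm) with
finite kernel (ker_card), so they are finite; it is onto (selm_onto); |S| = |kernel| |image|. -/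
theorem main (h : Tow p q g gam del loc D) (n : ℕ) :
    {r : R | Selm p gam loc D n r}.Finite ∧
      Nat.card {r : R // Selm p gam loc D n r} = q ^ (g * ∑ i ∈ Finset.range (n + 1), J p i) := by
  induction n with
  | zero =>
    obtain ⟨S, hS, -⟩ := selm_sub h 0
    have h0 : Selm p gam loc D 0 (0 : R) := (hS 0).1 S.zero_mem
    have e1 : {r : R | Selm p gam loc D 0 r} = {0} := by
      ext r
      constructor
      · intro hr
        exact b7_zero h r hr
      · rintro rfl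
        exact h0
    refine ⟨by rw [e1]; exact Set.finite_singleton _, ?_⟩
    have hJ : J p 0 = 0 := J_zero (by have := h.odd; omega)
    rw [zero_add, Finset.sum_range_one, hJ, mul_zero, pow_zero, Nat.card_eq_one_iff_unique]
    refine ⟨⟨fun a b => Subtype.ext ((b7_zero h _ a.2).trans (b7_zero h _ b.2).symm)⟩, ⟨⟨0, h0⟩⟩⟩
  | succ n ih =>
    obtain ⟨ihf, ihc⟩ := ih
    obtain ⟨S, hS, -⟩ := selm_sub h n
    obtain ⟨S', hS', -⟩ := selm_sub h (n + 1)
    obtain ⟨N, hN⟩ : ∃ N : S' →+ S, ∀ x : S', ((N x : S) : R) = nrm p n gam (x : R) := by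
      refine ⟨(((nrm p n gam).comp S'.subtype).codRestrict S fun x => ?_).toAddMonoidHom, fun x => rfl⟩
      exact (hS _).2 (selm_nrm h n _ ((hS' _).1 x.2))
    have hfS : Finite S := by
      have e1 : (S : Set R) = {r : R | Selm p gam loc D n r} := Set.ext fun r => hS r
      have e2 : (S : Set R).Finite := by rw [e1]; exact ihf
      exact e2.to_subtype
    have hcS : Nat.card S = q ^ (g * ∑ i ∈ Finset.range (n + 1), J p i) := by
      rw [← ihc]
      exact Nat.card_congr (Equiv.subtypeEquivRight hS)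
    have hqpos : 0 < q := by have := h.q2; omega
    have ek : Nat.card N.ker = q ^ (g * J p (n + 1)) := by
      rw [← ker_card h n]
      refine Nat.card_congr ⟨fun x => ⟨x.1.1, (hS' _).1 x.1.2, ?_⟩, fun r => ⟨⟨r.1, (hS' _).2 r.2.1⟩, ?_⟩, fun _ => rfl, fun _ => rfl⟩
      · have h2 : N x.1 = 0 := x.2
        rw [← hN, h2]
        rfl
      · refine Subtype.ext ?_
        rw [hN]
        exact r.2.2
    have hfk : Finite N.ker := by
      refine Nat.finite_of_card_ne_zero ?_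
      rw [ek]
      positivity
    have hfS' : Finite S' := b7_fin N hfk hfS
    have e1 : (S' : Set R) = {r : R | Selm p gam loc D (n + 1) r} := Set.ext fun r => hS' r
    have hfin : {r : R | Selm p gam loc D (n + 1) r}.Finite := by
      rw [← e1]
      exact Set.toFinite _
    refine ⟨hfin, ?_⟩
    have honto : Nat.card N.range = Nat.card S := by
      refine Nat.card_congr ⟨fun x => x.1, fun y => ⟨y, ?_⟩, fun _ => rfl, fun _ => rfl⟩
      obtain ⟨r, hr, hNr⟩ := selm_onto h n hfin (y : R) ((hS _).1 y.2)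
      refine ⟨⟨r, (hS' r).2 hr⟩, Subtype.ext ?_⟩
      rw [hN]
      exact hNr
    have e3 : Nat.card {r : R // Selm p gam loc D (n + 1) r} = Nat.card S' :=
      (Nat.card_congr (Equiv.subtypeEquivRight hS')).symm
    rw [e3, a2_first N, honto, hcS, ek, ← pow_add, Finset.sum_range_succ _ (n + 1), mul_add]

end H35K
end

-- from Lib.H35L.C1C
section

/-! # H35L, chunk C1C (M): classes are killed by a power of p -/

open NumberField IsDedekindDomain WeierstrassCurve

namespace H35L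

open H55P (IQ Pt ac Inert Dec Nm)
open H35P (WAB)
open H55K (CMA Dta)
open H35K (Lev)

variable {F : Type} [Field F] [NumberField F] [IQ F] {A B : F} {Om : ℂ} {Ω : Type} [Field Ω] [DecidableEq Ω]
  [Algebra F Ω] [IsAlgClosure F Ω] {j : Ω →+* ℂ} {act : 𝓞 F →+* AddMonoid.End (Pt (WAB A B) Ω)} {mo : Ideal (𝓞 F)}
  {ψ : Ideal (𝓞 F) →*₀ 𝓞 F} {p : ℕ}

theorem c1c_inv {G : Subgroup (Ω ≃ₐ[F] Ω)} {h : Ω ≃ₐ[F] Ω} (hh : SH act G p h) : SH act G p h⁻¹ := by
  refine ⟨inv_mem hh.1, fun P hP => ?_⟩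
  have h1 := congrArg (aM act h⁻¹) (hh.2 P hP)
  rw [← aM_mul, inv_mul_cancel, aM_one] at h1
  exact h1.symm

/-- Chunk C1c (S/M). The same for homomorphisms. -/
theorem hm_tor {G : Subgroup (Ω ≃ₐ[F] Ω)} {I : (Ω ≃ₐ[F] Ω) → Prop} (f : (Ω ≃ₐ[F] Ω) → PM act) (hf : IsHm act p (SH act G p) I f) :
    ∃ k : ℕ, ∀ h, p ^ k • f h = 0 := by
  classical
  obtain ⟨L, hL, hL0⟩ := hf.cont
  choose k hk using hf.tor
  have hfin : Finite (L →ₐ[F] Ω) := inferInstance
  have hconst : ∀ h h', SH act G p h → SH act G p h' → (∀ x : L, h x.1 = h' x.1) → f h = f h' := by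
    intro h h' hh hh' hx
    have h1 : SH act G p (h⁻¹ * h') := ⟨mul_mem (inv_mem hh.1) hh'.1, FA_mul act (c1c_inv hh).2 hh'.2⟩
    have h2 : f (h⁻¹ * h') = 0 := by
      apply hL0 _ h1
      rw [IntermediateField.mem_fixingSubgroup_iff]
      intro x hx'
      change h⁻¹ (h' x) = x
      rw [← hx ⟨x, hx'⟩]
      change (h⁻¹ * h) x = x
      rw [inv_mul_cancel]
      rfl
    have h3 := hf.mul h hh _ h1
    rw [h2, add_zero, mul_inv_cancel_left] at h3
    exact h3.symm
  let S : Set ℕ := {m | ∃ φ : L →ₐ[F] Ω, m = if hφ : ∃ h, SH act G p h ∧ ∀ x : L, h x.1 = φ x then k hφ.choose else 0}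
  have hS : S.Finite := by
    have h1 : S = Set.range fun φ : L →ₐ[F] Ω => if hφ : ∃ h, SH act G p h ∧ ∀ x : L, h x.1 = φ x then k hφ.choose else 0 := by
      ext m
      constructor
      · rintro ⟨φ, h⟩
        exact ⟨φ, h.symm⟩
      · rintro ⟨φ, h⟩
        exact ⟨φ, h.symm⟩
    rw [h1]
    exact Set.finite_range _
  obtain ⟨N, hN⟩ := hS.bddAbove
  refine ⟨N, fun h => ?_⟩
  by_cases hh : SH act G p h
  · have hex : ∃ h', SH act G p h' ∧ ∀ x : L, h' x.1 = ((h : Ω →ₐ[F] Ω).comp L.val) x := ⟨h, hh, fun x => rfl⟩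
    have h1 : k hex.choose ≤ N := by
      apply hN
      exact ⟨(h : Ω →ₐ[F] Ω).comp L.val, by rw [dif_pos hex]⟩
    have h2 : f h = f hex.choose := by
      apply hconst _ _ hh hex.choose_spec.1
      intro x
      exact (hex.choose_spec.2 x).symm
    rw [h2, ← Nat.sub_add_cancel h1, pow_add, mul_smul, hk, smul_zero]
  · rw [hf.out h hh, smul_zero]

/-- Chunk C1c (M). Every class is killed by a power of p: f has finitely many values on SH (it is zero on the elements fixing L, L finite over F; take the normal closure of L: f is constant on the cosets of a subgroup of finite index). -/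
theorem cls_tor {G : Subgroup (Ω ≃ₐ[F] Ω)} {I : (Ω ≃ₐ[F] Ω) → Prop} (hc : Cm act) (f : SM act hc p G I) : ∃ k : ℕ, p ^ k • f = 0 := by
  have hf : IsCls act p (SH act G p) I (SN G p) f.1 := f.2
  obtain ⟨k, hk⟩ := hm_tor f.1 hf.toIsHm
  refine ⟨k, ?_⟩
  apply Subtype.ext
  funext h
  exact hk h

end H35L
end

-- from Lib.H35L.S6A
section

/-! # H35L, S6A: cocycles as elements of the group Sha of helper19's systems -/

open NumberField IsDedekindDomain WeierstrassCurve

namespace H35L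

open H55P (IQ Pt ac Inert Dec Nm)
open H35P (WAB)
open H55K (CMA Dta)
open H35K (Lev)

open scoped Classical

variable {F : Type} [Field F] {A B : F} {Ω : Type} [Field Ω] [Algebra F Ω] {act : 𝓞 F →+* AddMonoid.End (Pt (WAB A B) Ω)} {p : ℕ}
  {H : Subgroup (Ω ≃ₐ[F] Ω)} {c c' : (Ω ≃ₐ[F] Ω) → PM act}

/-- The system of the group H. -/
noncomputable abbrev SyH (A B : F) (H : Subgroup (Ω ≃ₐ[F] Ω)) : SSG.LS H (Pt (WAB A B) Ω) := (SSG.galS (WAB A B) Ω).res H

/-- The cocycle of c. -/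
noncomputable def mkZ (h : IsSh act p H c) : (SyH A B H).Z := ⟨fun s => c s, by
  refine ⟨fun s t => h.mul s s.2 t t.2, ?_, ?_⟩
  · obtain ⟨L, hL, h1⟩ := h.cont
    exact ⟨_, ⟨_, ⟨L, hL, rfl⟩, rfl⟩, fun s hs => h1 s s.2 hs⟩
  · rintro _ ⟨_, ⟨V, hV, rfl⟩, rfl⟩
    obtain ⟨P, hP⟩ := h.loc V hV
    exact ⟨P, fun s hs => hP s s.2 hs⟩⟩

theorem mkZ_pp (h : IsSh act p H c) : ∃ k : ℕ, p ^ k • (SyH A B H).cl (mkZ h) = 0 := by
  obtain ⟨k, Q, hQ⟩ := h.tor
  refine ⟨k, ?_⟩
  rw [← map_nsmul, SSG.LS.cl_zero]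
  exact ⟨Q, fun s => hQ s s.2⟩

theorem mkZ_eq (h : IsSh act p H c) (h' : IsSh act p H c') :
    (SyH A B H).cl (mkZ h) = (SyH A B H).cl (mkZ h') ↔ ∃ P : PM act, ∀ s ∈ H, c s - c' s = aM act s P - P := by
  rw [← sub_eq_zero, ← map_sub, SSG.LS.cl_zero]
  constructor
  · rintro ⟨P, hP⟩
    exact ⟨P, fun s hs => hP ⟨s, hs⟩⟩
  · rintro ⟨P, hP⟩
    exact ⟨P, fun s => hP s s.2⟩

theorem mkZ_surj (act : 𝓞 F →+* AddMonoid.End (Pt (WAB A B) Ω)) (x : (SyH A B H).Sha) (hx : ∃ k : ℕ, p ^ k • x = 0) :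
    ∃ (c : (Ω ≃ₐ[F] Ω) → PM act) (h : IsSh act p H c), (SyH A B H).cl (mkZ h) = x := by
  obtain ⟨z, rfl⟩ := (SyH A B H).cl_surj x
  have hz : (SyH A B H).IsZ z.1 := z.2
  let c : (Ω ≃ₐ[F] Ω) → PM act := fun s => if hs : s ∈ H then z.1 ⟨s, hs⟩ else 0
  have hc : ∀ s : H, c s = z.1 s := fun s => by
    show (if hs : (s : Ω ≃ₐ[F] Ω) ∈ H then (z.1 ⟨s, hs⟩ : PM act) else 0) = z.1 s
    rw [dif_pos s.2]
  have h : IsSh act p H c := by
    refine ⟨⟨fun s hs t ht => ?_, ?_⟩, ?_, fun V hV => ?_⟩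
    · have h1 := hz.mul ⟨s, hs⟩ ⟨t, ht⟩
      rw [hc ⟨s, hs⟩, hc ⟨t, ht⟩]
      exact (hc (⟨s, hs⟩ * ⟨t, ht⟩)).trans h1
    · obtain ⟨_, ⟨_, ⟨L, hL, rfl⟩, rfl⟩, h1⟩ := hz.cont
      exact ⟨L, hL, fun s hs hl => (hc ⟨s, hs⟩).trans (h1 ⟨s, hs⟩ hl)⟩
    · obtain ⟨k, hk⟩ := hx
      rw [← map_nsmul, SSG.LS.cl_zero] at hk
      obtain ⟨Q, hQ⟩ := hk
      refine ⟨k, Q, fun s hs => ?_⟩
      rw [hc ⟨s, hs⟩]
      exact hQ ⟨s, hs⟩
    · obtain ⟨P, hP⟩ := hz.loc _ ⟨_, ⟨V, hV, rfl⟩, rfl⟩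
      refine ⟨P, fun s hs hd => ?_⟩
      rw [hc ⟨s, hs⟩]
      exact hP ⟨s, hs⟩ hd
  refine ⟨c, h, ?_⟩
  congr 1
  apply Subtype.ext
  funext s
  exact hc s

end H35L
end
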