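import Mathlib
import Pool.Agent.Lib.H1M.PP2.M003
import Pool.Agent.Lib.H1M.PP2.M034
import Pool.Agent.Lib.H1M.PP2.M055
import Pool.Agent.Lib.H1M.PP2.M056
import Pool.Agent.Lib.H1M.PP2.M065
import Pool.Agent.Lib.H1M.PP2.M098

/-! Merged copies (to shorten the build) of Lib.H13T.K1, Lib.H13T.K2, Lib.H13T.K4, Lib.H57N.E2, Lib.H13T.U4, Lib.H13T.U5, Lib.H13T.U6, Lib.H13T.U7, Lib.H13T.U8, Lib.H13T.U9, Lib.H13T.U10, Lib.H13T.U11. -/

-- from Lib.H13T.K1
section

/-! Chunk K1 (S/M). KP p X: p kills the p-primary part of X. It passes from S' to S when there are morphisms back and forth.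
kp_inj: f x is killed by a power of p, so p • f x = 0, f (p • x) = 0 and p • x is killed by a power of p. kp_hom: f = h.map; if h.map x = 0 then m • x = h'.map (h.map x) = 0 (Hom.map_back), x = 0 by pp_inj (Lib/SSG/Z/ZH.lean). kp_index: the restriction r = (res_hom S H).map and k of exists_cor (A5):
k (r x) = 2 • x (see index_two in A6.lean), τ not in H as there. kp_quot (compare b6_card in B6.lean): z in Z₁ / B with p^k z = 0: z = class of c, p^k c in B, c in Z₂ (key), the class of c in Z₂ / B is killed by p^k, hence by p: p c in B. -/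

namespace H13T

open SSG

/-- p kills the elements of order a power of p. -/
def KP (p : ℕ) (X : Type*) [AddCommGroup X] : Prop := ∀ x : X, (∃ k : ℕ, p ^ k • x = 0) → p • x = 0

theorem kp_inj {p : ℕ} {X Y : Type*} [AddCommGroup X] [AddCommGroup Y] (f : X →+ Y)
    (hf : ∀ x : X, (∃ k : ℕ, p ^ k • x = 0) → f x = 0 → x = 0) (h : KP p Y) : KP p X := by
  rintro x ⟨k, hk⟩
  have h1 : p • f x = 0 := h (f x) ⟨k, by rw [← map_nsmul, hk, map_zero]⟩
  exact hf (p • x) ⟨k, by rw [smul_comm, hk, smul_zero]⟩ (by rw [map_nsmul, h1])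

theorem kp_hom {G A G' A' : Type} [Group G] [AddCommGroup A] [Group G'] [AddCommGroup A'] {S : LS G A} {S' : LS G' A'} {e : G' →* G}
    {φ : A →+ A'} {p : ℕ} (hp : p.Prime) {m : ℕ} (hm : ¬ p ∣ m) (h : Hom S S' e φ) {e₁ : G →* G'} {φ₁ : A' →+ A}
    (h' : Hom S' S e₁ φ₁) (he : ∀ g, e (e₁ g) = g) (hm1 : ∀ a, φ₁ (φ a) = m • a) (hK : KP p S'.Sha) : KP p S.Sha := by
  refine kp_inj h.map (fun x hx h0 => pp_inj hp hm hx ?_) hK
  rw [← h.map_back h' he hm1 x, h0, map_zero]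

theorem kp_index {G A : Type} [Group G] [AddCommGroup A] {S : LS G A} (hS : S.Conj) (H : Subgroup G) (hH : ∃ u ∈ S.U, u ≤ H)
    (hi : H.index = 2) {p : ℕ} (hp : p.Prime) (hp2 : p ≠ 2) (hK : KP p (S.res H).Sha) : KP p S.Sha := by
  have hN : H.Normal := Subgroup.normal_of_index_eq_two hi
  obtain ⟨τ, hτ⟩ : ∃ τ, τ ∉ H := by
    by_contra hc
    push Not at hc
    have h1 : H = ⊤ := (Subgroup.eq_top_iff' H).2 hc
    rw [h1, Subgroup.index_top] at hi
    omega
  obtain ⟨k, hk1, -⟩ := exists_cor hS H hH hi hτ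
  refine kp_inj (res_hom S H).map (fun x hx h0 => pp_inj hp (m := 2) ?_ hx ?_) hK
  · intro h2
    exact hp2 ((Nat.prime_dvd_prime_iff_eq hp Nat.prime_two).1 h2)
  · rw [← hk1 x, h0, map_zero]

theorem kp_quot {M : Type*} [AddCommGroup M] (Z₁ Z₂ B : AddSubgroup M) (p : ℕ)
    (key : ∀ c : M, (∃ k : ℕ, p ^ k • c ∈ B) → (c ∈ Z₁ ↔ c ∈ Z₂)) (h : KP p (Z₂ ⧸ B.addSubgroupOf Z₂)) :
    KP p (Z₁ ⧸ B.addSubgroupOf Z₁) := by
  have hz : ∀ (Z : AddSubgroup M) (c : Z) (n : ℕ),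
      (n • QuotientAddGroup.mk' (B.addSubgroupOf Z) c = 0 ↔ n • c.1 ∈ B) := by
    intro Z c n
    rw [← map_nsmul]
    refine (QuotientAddGroup.eq_zero_iff (N := B.addSubgroupOf Z) (n • c)).trans ?_
    exact AddSubgroup.mem_addSubgroupOf
  rintro z ⟨k, hk⟩
  obtain ⟨c, rfl⟩ := QuotientAddGroup.mk'_surjective _ z
  have h1 := (hz Z₁ c _).1 hk
  have h2 : c.1 ∈ Z₂ := (key c.1 ⟨k, h1⟩).1 c.2
  have h3 := h (QuotientAddGroup.mk' (B.addSubgroupOf Z₂) ⟨c.1, h2⟩) ⟨k, (hz Z₂ ⟨c.1, h2⟩ _).2 h1⟩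
  exact (hz Z₁ c _).2 ((hz Z₂ ⟨c.1, h2⟩ _).1 h3)

end H13T
end

-- from Lib.H13T.K2
section

/-! Chunk K2 (M). KP for the systems of curves under change of the closure, of the base field, and from valuation rings to completions.
closure_kp: copy the proof of SSG.closure_card (Lib/SSG/Z/L3.lean) with kp_hom (hA, hB; m = 1) in place of Hom.card. base_kp: copy SSG.base_card (L4.lean), kp_hom with the morphisms in the other order (h' : from (galS W Ω).res to (galS (W⁄F) Ω).res is the first argument here).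
bridge_kp_short: as SSG.bridge_short (B6.lean) with kp_quot in place of b6_card (H16C.Sha W Ω is the quotient ZSha / BSha.addSubgroupOf ZSha up to unfolding, as there). bridge_kp: as SSG.bridge (B7.lean): sha_iso and b7_hom. -/

open NumberField IsDedekindDomain WeierstrassCurve H16C

namespace H13T

open SSG

open Classical in
theorem closure_kp {k : Type} [Field k] [CharZero k] (W : WeierstrassCurve k) (K : Type) [Field K] [Algebra k K] [FiniteDimensional k K] {Ω : Type} [Field Ω]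
    [Algebra k Ω] [IsAlgClosed Ω] [Algebra.IsAlgebraic k Ω] (ι : K →ₐ[k] Ω) {p : ℕ} (hp : p.Prime)
    (h : KP p ((galS W Ω).res ι.fieldRange.fixingSubgroup).Sha) : KP p (galS (W⁄K) (AlgebraicClosure K)).Sha := by
  obtain ⟨Φ, ε, θ, h1, h2⟩ := l3_core W K ι
  have hA : Hom (galS (W⁄K) (AlgebraicClosure K)) ((galS W Ω).res ι.fieldRange.fixingSubgroup) ε.symm.toMonoidHom Φ.toAddMonoidHom := by
    refine ⟨fun g a => ?_, ?_, ?_⟩
    · show Φ (H55P.ac (W⁄K) (ε.symm g) a) = H55P.ac W (g : Ω ≃ₐ[k] Ω) (Φ a)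
      rw [h2, ε.apply_symm_apply]
    · rintro _ ⟨L, hL, rfl⟩
      obtain ⟨L', hL', h3⟩ := l3_down K θ L hL
      refine ⟨_, ⟨L'.fixingSubgroup, ⟨L', hL', rfl⟩, rfl⟩, fun g hg => ?_⟩
      apply h3
      intro x hx
      have h4 : (g : Ω ≃ₐ[k] Ω) ∈ L'.fixingSubgroup := hg
      rw [IntermediateField.mem_fixingSubgroup_iff] at h4
      have h5 := h1 (ε.symm g) x
      rw [ε.apply_symm_apply] at h5
      exact h5.symm.trans (h4 x hx)
    · rintro _ ⟨_, ⟨V, hV, rfl⟩, rfl⟩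
      refine ⟨_, ⟨V.comap ((θ : AlgebraicClosure K ≃+* Ω) : AlgebraicClosure K →+* Ω), l3_top _ V hV, rfl⟩, fun g hg => ?_⟩
      have hg' : H55P.Dec V (g : Ω ≃ₐ[k] Ω) := hg
      show H55P.Dec _ (ε.symm g)
      intro x
      have h5 := h1 (ε.symm g) (θ x)
      rw [ε.apply_symm_apply, θ.symm_apply_apply] at h5
      have h6 := hg' (θ x)
      rw [h5] at h6
      exact h6
  have hB : Hom ((galS W Ω).res ι.fieldRange.fixingSubgroup) (galS (W⁄K) (AlgebraicClosure K)) ε.toMonoidHom Φ.symm.toAddMonoidHom := by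
    refine ⟨fun g a => ?_, ?_, ?_⟩
    · show Φ.symm (H55P.ac W ((ε g : ι.fieldRange.fixingSubgroup) : Ω ≃ₐ[k] Ω) a) = H55P.ac (W⁄K) g (Φ.symm a)
      apply Φ.injective
      rw [h2, Φ.apply_symm_apply, Φ.apply_symm_apply]
    · rintro _ ⟨_, ⟨L', hL', rfl⟩, rfl⟩
      obtain ⟨L, hL, h3⟩ := l3_up K θ L' hL'
      refine ⟨_, ⟨L, hL, rfl⟩, fun g hg => ?_⟩
      show ((ε g : ι.fieldRange.fixingSubgroup) : Ω ≃ₐ[k] Ω) ∈ L'.fixingSubgroup
      rw [IntermediateField.mem_fixingSubgroup_iff]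
      intro x hx
      rw [h1]
      exact h3 g hg x hx
    · rintro _ ⟨V, hV, rfl⟩
      refine ⟨_, ⟨_, ⟨V.comap ((θ.symm : Ω ≃+* AlgebraicClosure K) : Ω →+* AlgebraicClosure K), l3_top _ V hV, rfl⟩, rfl⟩, fun g hg => ?_⟩
      have hg' : H55P.Dec V g := hg
      show H55P.Dec _ ((ε g : ι.fieldRange.fixingSubgroup) : Ω ≃ₐ[k] Ω)
      intro x
      have h6 := hg' (θ.symm x)
      rw [h1]
      rw [ValuationSubring.mem_comap, ValuationSubring.mem_comap]
      show θ.symm (θ (g (θ.symm x))) ∈ V ↔ θ.symm x ∈ V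
      rw [θ.symm_apply_apply]
      exact h6
  refine kp_hom hp (m := 1) hp.not_dvd_one hA hB (fun g => ε.symm_apply_apply g) (fun a => ?_) h
  rw [one_nsmul]
  exact Φ.symm_apply_apply a

open Classical in
theorem base_kp {k : Type} [Field k] [CharZero k] (W : WeierstrassCurve k) {F : Type} [Field F] [Algebra k F] [FiniteDimensional k F] {Ω : Type} [Field Ω]
    [Algebra k Ω] [Algebra F Ω] [IsScalarTower k F Ω] [IsAlgClosed Ω] [Algebra.IsAlgebraic k Ω] (N : IntermediateField F Ω) {p : ℕ}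
    (hp : p.Prime) (h : KP p ((galS (W⁄F) Ω).res N.fixingSubgroup).Sha) : KP p ((galS W Ω).res (N.restrictScalars k).fixingSubgroup).Sha := by
  obtain ⟨φ₀, hφ₀⟩ := H55P.base_iso (F := F) (Ω := Ω) W
  obtain ⟨e₁, he₁⟩ : ∃ e₁ : N.fixingSubgroup →* (N.restrictScalars k).fixingSubgroup,
      ∀ s, ((e₁ s : (N.restrictScalars k).fixingSubgroup) : Ω ≃ₐ[k] Ω) = (s : Ω ≃ₐ[F] Ω).restrictScalars k :=
    ⟨{ toFun := fun s => ⟨(s : Ω ≃ₐ[F] Ω).restrictScalars k, H55P.Z11_mem N s.1 s.2⟩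
       map_one' := rfl
       map_mul' := fun s t => rfl }, fun s => rfl⟩
  have hbij : Function.Bijective e₁ := by
    constructor
    · intro s t hst
      have h1 : (s : Ω ≃ₐ[F] Ω).restrictScalars k = (t : Ω ≃ₐ[F] Ω).restrictScalars k := by
        rw [← he₁, ← he₁, hst]
      apply Subtype.ext
      exact AlgEquiv.ext fun x => congrArg (fun f : Ω ≃ₐ[k] Ω => f x) h1
    · intro t
      obtain ⟨s, hs, hs'⟩ := H55P.Z11_lift N t.1 t.2
      exact ⟨⟨s, hs'⟩, Subtype.ext (by rw [he₁]; exact hs)⟩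
  obtain ⟨E, hE⟩ : ∃ E : N.fixingSubgroup ≃* (N.restrictScalars k).fixingSubgroup, ∀ s, E s = e₁ s :=
    ⟨MulEquiv.ofBijective e₁ hbij, fun s => rfl⟩
  have hEs : ∀ t, e₁ (E.symm t) = t := fun t => by rw [← hE, MulEquiv.apply_symm_apply]
  have hsE : ∀ s, E.symm (e₁ s) = s := fun s => by rw [← hE, MulEquiv.symm_apply_apply]
  have hpt : ∀ t x, ((E.symm t : N.fixingSubgroup) : Ω ≃ₐ[F] Ω) x
      = ((t : (N.restrictScalars k).fixingSubgroup) : Ω ≃ₐ[k] Ω) x := by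
    intro t x
    conv_rhs => rw [← hEs t, he₁]
    rfl
  have hpt' : ∀ s x, ((e₁ s : (N.restrictScalars k).fixingSubgroup) : Ω ≃ₐ[k] Ω) x
      = ((s : N.fixingSubgroup) : Ω ≃ₐ[F] Ω) x := by
    intro s x
    rw [he₁]
    rfl
  have h₀ : Hom ((galS (W⁄F) Ω).res N.fixingSubgroup) ((galS W Ω).res (N.restrictScalars k).fixingSubgroup)
      E.symm.toMonoidHom (φ₀.symm.toAddMonoidHom) := by
    refine ⟨fun g a => ?_, ?_, ?_⟩
    · apply φ₀.injective
      show φ₀ (φ₀.symm (H55P.ac (W⁄F) ((E.symm g : N.fixingSubgroup) : Ω ≃ₐ[F] Ω) a))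
        = φ₀ (H55P.ac W ((g : (N.restrictScalars k).fixingSubgroup) : Ω ≃ₐ[k] Ω) (φ₀.symm a))
      have e1 : ((g : (N.restrictScalars k).fixingSubgroup) : Ω ≃ₐ[k] Ω)
          = ((E.symm g : N.fixingSubgroup) : Ω ≃ₐ[F] Ω).restrictScalars k := by
        rw [← he₁, hEs]
      rw [AddEquiv.apply_symm_apply, e1, hφ₀, AddEquiv.apply_symm_apply]
    · rintro _ ⟨_, ⟨L, hL, rfl⟩, rfl⟩
      haveI : FiniteDimensional F L := hL
      have hfin : FiniteDimensional k (L.restrictScalars k) := FiniteDimensional.trans k F L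
      refine ⟨_, ⟨_, ⟨L.restrictScalars k, hfin, rfl⟩, rfl⟩, fun g hg => ?_⟩
      have hg' : ((g : (N.restrictScalars k).fixingSubgroup) : Ω ≃ₐ[k] Ω) ∈ (L.restrictScalars k).fixingSubgroup := hg
      show ((E.symm g : N.fixingSubgroup) : Ω ≃ₐ[F] Ω) ∈ L.fixingSubgroup
      rw [IntermediateField.mem_fixingSubgroup_iff] at hg' ⊢
      intro x hx
      rw [hpt]
      exact hg' x hx
    · rintro _ ⟨_, ⟨V, hV, rfl⟩, rfl⟩
      refine ⟨_, ⟨_, ⟨V, hV, rfl⟩, rfl⟩, fun g hg => ?_⟩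
      intro x
      show ((E.symm g : N.fixingSubgroup) : Ω ≃ₐ[F] Ω) x ∈ V ↔ x ∈ V
      rw [hpt]
      exact hg x
  have h' : Hom ((galS W Ω).res (N.restrictScalars k).fixingSubgroup) ((galS (W⁄F) Ω).res N.fixingSubgroup)
      e₁ (φ₀.toAddMonoidHom) := by
    refine ⟨fun g a => ?_, ?_, ?_⟩
    · show φ₀ (H55P.ac W ((e₁ g : (N.restrictScalars k).fixingSubgroup) : Ω ≃ₐ[k] Ω) a)
        = H55P.ac (W⁄F) ((g : N.fixingSubgroup) : Ω ≃ₐ[F] Ω) (φ₀ a)
      rw [he₁, hφ₀]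
    · rintro _ ⟨_, ⟨L, hL, rfl⟩, rfl⟩
      haveI : FiniteDimensional k L := hL
      obtain ⟨L', hL', hg⟩ := H55P.Z11_field (F := F) L
      refine ⟨_, ⟨_, ⟨L', hL', rfl⟩, rfl⟩, fun g hg' => ?_⟩
      show ((e₁ g : (N.restrictScalars k).fixingSubgroup) : Ω ≃ₐ[k] Ω) ∈ L.fixingSubgroup
      rw [he₁]
      exact hg _ hg'
    · rintro _ ⟨_, ⟨V, hV, rfl⟩, rfl⟩
      refine ⟨_, ⟨_, ⟨V, hV, rfl⟩, rfl⟩, fun g hg => ?_⟩
      intro x
      show ((e₁ g : (N.restrictScalars k).fixingSubgroup) : Ω ≃ₐ[k] Ω) x ∈ V ↔ x ∈ V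
      rw [hpt']
      exact hg x
  refine kp_hom hp (m := 1) hp.not_dvd_one h' h₀ (fun g => hEs g) (fun a => ?_) h
  rw [one_nsmul]
  exact φ₀.symm_apply_apply a

open Classical in
theorem bridge_kp_short {K : Type} [Field K] [NumberField K] (W : WeierstrassCurve K) [W.IsShortNF] [W.IsElliptic] {p : ℕ} (hp : p.Prime)
    (hp2 : p ≠ 2) (h : KP p (galS W (AlgebraicClosure K)).Sha) : KP p (H16C.Sha W.toAffine (AlgebraicClosure K)) := by
  have hodd : ∀ k : ℕ, Odd (p ^ k) := fun k => (hp.odd_of_ne_two hp2).pow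
  refine kp_quot (ZSha W.toAffine (AlgebraicClosure K)) (galS W (AlgebraicClosure K)).Z
    (BSha W.toAffine (AlgebraicClosure K)) p ?_ h
  rintro c ⟨k, hk⟩
  have hcoc : IsCocycle W.toAffine (AlgebraicClosure K) c →
      (EverywhereTriv W.toAffine (AlgebraicClosure K) c ↔
        TrivV W.toAffine (AlgebraicClosure K) c) :=
    fun h => b6_key W.toAffine c h (hodd k) hk
  constructor
  · rintro ⟨h1, h2⟩
    have h3 := (hcoc h1).1 h2
    refine ⟨h1.1, ?_, ?_⟩
    · obtain ⟨L, hL, h4⟩ := h1.2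
      exact ⟨_, ⟨L, hL, rfl⟩, h4⟩
    · rintro _ ⟨V, hV, rfl⟩
      obtain ⟨P, hP⟩ := h3 V hV
      exact ⟨P, fun g hg => hP g hg⟩
  · intro h
    have h' : (galS W (AlgebraicClosure K)).IsZ c := h
    have h1 : IsCocycle W.toAffine (AlgebraicClosure K) c := by
      refine ⟨h'.mul, ?_⟩
      obtain ⟨_, ⟨L, hL, rfl⟩, h4⟩ := h'.cont
      exact ⟨L, hL, h4⟩
    refine ⟨h1, (hcoc h1).2 ?_⟩
    intro V hV
    obtain ⟨P, hP⟩ := h'.loc _ ⟨V, hV, rfl⟩
    exact ⟨P, fun g hg => hP g hg⟩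

open Classical in
theorem bridge_kp {K : Type} [Field K] [NumberField K] (W : WeierstrassCurve K) [W.IsElliptic] {p : ℕ} (hp : p.Prime) (hp2 : p ≠ 2)
    (h : KP p (galS W (AlgebraicClosure K)).Sha) : KP p (H16C.Sha W.toAffine (AlgebraicClosure K)) := by
  haveI : Invertible (2 : K) := invertibleOfNonzero two_ne_zero
  haveI : Invertible (3 : K) := invertibleOfNonzero three_ne_zero
  obtain ⟨C, hC⟩ := W.exists_variableChange_isShortNF
  have D := H19Z.ZL1_rel W C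
  haveI : (C • W).toAffine.IsElliptic := inferInstanceAs (C • W).IsElliptic
  haveI : W.toAffine.IsElliptic := inferInstanceAs W.IsElliptic
  obtain ⟨f⟩ := H19Q.sha_iso (W := (C • W).toAffine) (W' := W.toAffine) D (AlgebraicClosure K)
  have h3 : KP p (galS (C • W) (AlgebraicClosure K)).Sha := by
    refine kp_hom hp (m := 1) hp.not_dvd_one (b7_hom (W := C • W) (W' := W) D (Ω := AlgebraicClosure K))
      (b7_hom' (W := C • W) (W' := W) D (Ω := AlgebraicClosure K)) (fun _ => rfl) (fun a => ?_) h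
    rw [one_nsmul]
    exact (H19Q.fe (W := (C • W).toAffine) (W' := W.toAffine) D (AlgebraicClosure K)).symm_apply_apply a
  have h2 := bridge_kp_short (C • W) hp hp2 h3
  refine kp_inj f.symm.toAddMonoidHom (fun x _ hx => ?_) h2
  exact (AddEquiv.map_eq_zero_iff f.symm).1 hx

end H13T
end

-- from Lib.H13T.K4
section

/-! # H13T, K4: the converse of bridge_kp -/

open NumberField IsDedekindDomain WeierstrassCurve H16C

namespace H13T

open SSG

open Classical in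
theorem bridge_kp_short2 {K : Type} [Field K] [NumberField K] (W : WeierstrassCurve K) [W.IsShortNF] [W.IsElliptic] {p : ℕ} (hp : p.Prime)
    (hp2 : p ≠ 2) (h : KP p (H16C.Sha W.toAffine (AlgebraicClosure K))) : KP p (galS W (AlgebraicClosure K)).Sha := by
  have hodd : ∀ k : ℕ, Odd (p ^ k) := fun k => (hp.odd_of_ne_two hp2).pow
  refine kp_quot (galS W (AlgebraicClosure K)).Z (ZSha W.toAffine (AlgebraicClosure K))
    (BSha W.toAffine (AlgebraicClosure K)) p ?_ h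
  rintro c ⟨k, hk⟩
  refine Iff.symm ?_
  have hcoc : IsCocycle W.toAffine (AlgebraicClosure K) c →
      (EverywhereTriv W.toAffine (AlgebraicClosure K) c ↔
        TrivV W.toAffine (AlgebraicClosure K) c) :=
    fun h => b6_key W.toAffine c h (hodd k) hk
  constructor
  · rintro ⟨h1, h2⟩
    have h3 := (hcoc h1).1 h2
    refine ⟨h1.1, ?_, ?_⟩
    · obtain ⟨L, hL, h4⟩ := h1.2
      exact ⟨_, ⟨L, hL, rfl⟩, h4⟩
    · rintro _ ⟨V, hV, rfl⟩
      obtain ⟨P, hP⟩ := h3 V hV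
      exact ⟨P, fun g hg => hP g hg⟩
  · intro h
    have h' : (galS W (AlgebraicClosure K)).IsZ c := h
    have h1 : IsCocycle W.toAffine (AlgebraicClosure K) c := by
      refine ⟨h'.mul, ?_⟩
      obtain ⟨_, ⟨L, hL, rfl⟩, h4⟩ := h'.cont
      exact ⟨L, hL, h4⟩
    refine ⟨h1, (hcoc h1).2 ?_⟩
    intro V hV
    obtain ⟨P, hP⟩ := h'.loc _ ⟨V, hV, rfl⟩
    exact ⟨P, fun g hg => hP g hg⟩

open Classical in
theorem bridge_kp2 {K : Type} [Field K] [NumberField K] (W : WeierstrassCurve K) [W.IsElliptic] {p : ℕ} (hp : p.Prime) (hp2 : p ≠ 2)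
    (h : KP p (H16C.Sha W.toAffine (AlgebraicClosure K))) : KP p (galS W (AlgebraicClosure K)).Sha := by
  haveI : Invertible (2 : K) := invertibleOfNonzero two_ne_zero
  haveI : Invertible (3 : K) := invertibleOfNonzero three_ne_zero
  obtain ⟨C, hC⟩ := W.exists_variableChange_isShortNF
  have D := H19Z.ZL1_rel W C
  haveI : (C • W).toAffine.IsElliptic := inferInstanceAs (C • W).IsElliptic
  haveI : W.toAffine.IsElliptic := inferInstanceAs W.IsElliptic
  obtain ⟨f⟩ := H19Q.sha_iso (W := (C • W).toAffine) (W' := W.toAffine) D (AlgebraicClosure K)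
  have h2 : KP p (H16C.Sha (C • W).toAffine (AlgebraicClosure K)) :=
    kp_inj f.toAddMonoidHom (fun x _ hx => (AddEquiv.map_eq_zero_iff f).1 hx) h
  refine kp_hom hp (m := 1) hp.not_dvd_one (b7_hom' (W := C • W) (W' := W) D (Ω := AlgebraicClosure K))
    (b7_hom (W := C • W) (W' := W) D (Ω := AlgebraicClosure K)) (fun _ => rfl) (fun a => ?_) (bridge_kp_short2 (C • W) hp hp2 h2)
  rw [one_nsmul]
  exact (H19Q.fe (W := (C • W).toAffine) (W' := W.toAffine) D (AlgebraicClosure K)).apply_symm_apply a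

end H13T
end

-- from Lib.H57N.E2
section

/-! # H57N, chunk E2: p is unramified in K -/

open NumberField IsDedekindDomain

namespace H57N

/-- Chunk E2 (S/M). H55K.TQ.unr_iff (H55K/BH1.lean): UnrP p E iff p is not in w^2 for all primes w; and the ramification index of w over ℤ is 1 iff p is not in w^2, for p in w: Ideal.ramificationIdx'_eq_ramificationIdx, Ideal.le_pow_of_le_ramificationIdx'
(w lies over span {p}), see x1_pr in H55Z/X1.lean for one direction; the other: Ideal.ramificationIdx'_spec / Ideal.le_pow_iff_le_ramificationIdx'... (if the index is 1 then map (p) is not ≤ w^2; if p is not in w^2 then 2 ≤ index is impossible, and the index is > 0).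
Compare H55Z.q10_unr (Lib/H55Z/Q10.lean). -/
theorem e2_iff (E : Type) [Field E] [NumberField E] {p : ℕ} (hp : p.Prime) :
    H55P.UnrP p E ↔ ∀ w : HeightOneSpectrum (𝓞 E), (p : 𝓞 E) ∈ w.asIdeal → w.asIdeal.ramificationIdx ℤ = 1 := by
  have hkey : ∀ w : HeightOneSpectrum (𝓞 E), (p : 𝓞 E) ∈ w.asIdeal →
      ((p : 𝓞 E) ∈ w.asIdeal ^ 2 ↔ w.asIdeal.ramificationIdx ℤ ≠ 1) := by
    intro w hw
    have hwp := w.isPrime
    have hl : w.asIdeal.LiesOver (Ideal.span {(p : ℤ)}) := (p4_over hp w.asIdeal w.isPrime).1 hw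
    have hb : Ideal.span {(p : ℤ)} ≠ ⊥ := by
      rw [Ne, Ideal.span_singleton_eq_bot]
      exact_mod_cast hp.ne_zero
    have hmap : ∀ n : ℕ, Ideal.map (algebraMap ℤ (𝓞 E)) (Ideal.span {(p : ℤ)}) ≤ w.asIdeal ^ n ↔
        (p : 𝓞 E) ∈ w.asIdeal ^ n := by
      intro n
      rw [Ideal.map_span, Set.image_singleton, Ideal.span_singleton_le_iff_mem]
      simp
    rw [← Ideal.ramificationIdx'_eq_ramificationIdx (Ideal.span {(p : ℤ)}) w.asIdeal hb, ← hmap 2]
    exact (Ideal.ramificationIdx'_ne_one_iff (by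
      have h1 := (hmap 1).2 (by rwa [pow_one])
      rwa [pow_one] at h1)).symm
  rw [H55K.TQ.unr_iff hp]
  constructor
  · intro h w hw
    by_contra hne
    exact h w ((hkey w hw).2 hne)
  · intro h w hw2
    have hw : (p : 𝓞 E) ∈ w.asIdeal := Ideal.pow_le_self two_ne_zero hw2
    exact (hkey w hw).1 hw2 (h w hw)

/-- Chunk E2 (S). e2_iff; a prime w of E above p: u = w ∩ C, t = w ∩ B (p4_below): the index over ℤ is that of u (1 by hC) times that of w over C (p4_towerZ), which is 1 by p3_unr, since t is unramified (h.unr: p ≠ l, p not in Q). haveI := h.gal. -/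
theorem e2_unr {p n l : ℕ} {Q : Finset ℕ} {B : Type} [Field B] [NumberField B] {B' : IntermediateField ℚ B} (h : Cy p n l Q B B')
    (hp : p.Prime) (hpl : p ≠ l) (hpQ : p ∉ Q) {C E : Type} [Field C] [NumberField C] [Field E] [NumberField E] [Algebra C E] [Algebra B E]
    (hE : Cmp C B E) (hC : H55P.UnrP p C) : H55P.UnrP p E := by
  haveI := h.gal
  rw [e2_iff E hp]
  rw [e2_iff C hp] at hC
  intro w hw
  obtain ⟨u, hu⟩ := p4_below (B := C) w
  obtain ⟨t, ht⟩ := p4_below (B := B) w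
  have hpu : (p : 𝓞 C) ∈ u.asIdeal := by
    rw [hu, Ideal.mem_comap]
    simpa using hw
  have hpt : (p : 𝓞 B) ∈ t.asIdeal := by
    rw [ht, Ideal.mem_comap]
    simpa using hw
  rw [(p4_towerZ w u hu).1, hC u hpu, p3_unr hE w t ht (h.unr t p hp hpt hpl hpQ)]

end H57N
end

-- from Lib.H13T.U4
section

/-! Chunk U4 (M). The extension can be chosen with values killed by p, and it is a relaxed class.
PROOF. d from ts_ext. Continuity: N ⊓ O (S.hN, S.hUi), d s = c s there. Let v be a place.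
(a) ¬ R v: Tr ρ H (I v) d. S.hloc v: first alternative: s in H, I v is in N, use hl. second: sa3_loc (Lib/H55P/SA3.lean) with p^k in place of p (its two hypotheses for p^k: the first is S.hloc's with this k; the second (T killed by p^k and fixed by H ⊓ D v is 0) by induction on k from p).
third: pow_all (U2) with J = H ⊓ I v gives T.
(b) R v: for s in H ⊓ I v: s^p in N (s = (η^p)^i n modulo commutators: H/N is abelian of exponent p: (η^p)^p = η^(p*p) in N; prove pow_mem: ∀ s ∈ H, s^p ∈ N by writing s = (η^p)^i n and expanding modulo N: the quotient is commutative (hcomm); or: QuotientGroup). ρ s fixes d s (S.hR v .1 with P = d s: p^k • (ρ s P - P) = 0), so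
d (s^i) = i • d s (induction), d (s^p) = p • d s; d (s^p) = c (s^p) = ρ P - P for P from hl v, killed by p^k, so ρ P = P by S.hR, so it is 0. Hence p • d s = 0 for s in H ⊓ I v.
So fun s => p • d s satisfies all hypotheses of SelA ρ (p^k) (pow_sel) over H: p • d s = ρ s T - T on H, p^k • T = 0. T = p • T' (S.hdiv). e = fun s => d s - (ρ s T' - T'): cocycle on H, killed by p, continuous (S.hfix), trivial on inertia at ¬ R v (P - T'); for R v, s in N, I v:
e s = c s - (ρ s T' - T') = ρ s (P - T') - (P - T') and p • e s = 0, so it is 0 by S.hR (k = 1). -/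

namespace H13T

open H55P

variable {G M Vs : Type} [Group G] [AddCommGroup M] {ρ : G →* AddMonoid.End M} {p : ℕ} {U : Set (Subgroup G)} {I D : Vs → Subgroup G}
  {N H H₀ : Subgroup G} {η : G} {R : Vs → Prop}

theorem u4_fix (ρ : G →* AddMonoid.End M) (p : ℕ) (Q : G → Prop)
    (h : ∀ T : M, p • T = 0 → (∀ s, Q s → ρ s T = T) → T = 0) (k : ℕ) :
    ∀ T : M, p ^ k • T = 0 → (∀ s, Q s → ρ s T = T) → T = 0 := by
  induction k with
  | zero =>
    intro T hT _
    rwa [pow_zero, one_smul] at hT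
  | succ k ih =>
    intro T hT hf
    refine ih T ?_ hf
    refine h _ ?_ fun s hs => ?_
    · rw [smul_smul, ← pow_succ']
      exact hT
    · rw [map_nsmul, hf s hs]

theorem u4_pow {N : Subgroup G} {a n : G} (ha : ∀ x ∈ N, a⁻¹ * x * a ∈ N) (hn : n ∈ N) (m : ℕ) :
    (a ^ m)⁻¹ * (a * n) ^ m ∈ N := by
  induction m with
  | zero =>
    rw [pow_zero, pow_zero, inv_one, one_mul]
    exact N.one_mem
  | succ m ih =>
    have e : (a ^ (m + 1))⁻¹ * (a * n) ^ (m + 1) = (a⁻¹ * ((a ^ m)⁻¹ * (a * n) ^ m) * a) * n := by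
      rw [pow_succ a m, pow_succ (a * n) m]
      group
    rw [e]
    exact N.mul_mem (ha _ ih) hn

theorem pow_mem (S : TS ρ p U I D N H H₀ η R) (s : G) (hs : s ∈ H) : s ^ p ∈ N := by
  obtain ⟨i, n, hn, rfl⟩ := S.hgen s hs
  have ha : (η ^ p) ^ i ∈ H₀ := H₀.pow_mem (H₀.pow_mem S.hη p) i
  have h1 := u4_pow (N := N) (a := (η ^ p) ^ i) (n := n)
    (fun x hx => sa3_norm' (S.hNH.trans S.hHH) S.hcomm _ ha x hx) hn p
  have h2 : ((η ^ p) ^ i) ^ p ∈ N := by
    have e : ((η ^ p) ^ i) ^ p = (η ^ (p * p)) ^ i := by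
      rw [← pow_mul, ← pow_mul, ← pow_mul]
      congr 1
      ring
    rw [e]
    exact N.pow_mem S.hηpp i
  have h3 := N.mul_mem h2 h1
  rwa [mul_inv_cancel_left] at h3

theorem ts_rel (S : TS ρ p U I D N H H₀ η R) (k : ℕ) (c : G → M) (hc : IsC ρ N c) (hk : ∀ s ∈ N, p ^ k • c s = 0)
    (hco : Cont U N c) (hl : ∀ v, Tr ρ N (I v) c)
    (hb : ∃ T : M, p ^ k • T = 0 ∧ ∀ s ∈ N, ρ (η ^ p) (c ((η ^ p)⁻¹ * s * η ^ p)) - c s = ρ s T - T) :
    ∃ (e : G → M) (T' : M), RC ρ p U I N H R e ∧ p ^ (k + 1) • T' = 0 ∧ ∀ s ∈ N, c s = e s + (ρ s T' - T') := by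
  obtain ⟨d, hd1, hd2, hd3⟩ := ts_ext S k c hc hk hb
  obtain ⟨O, hO, hO1⟩ := hco
  have hNO : N ⊓ O ∈ U := S.hUi N S.hN O hO
  have hdO : ∀ s ∈ H, s ∈ N ⊓ O → d s = 0 := fun s _ h => by rw [hd3 s h.1, hO1 s h.1 h.2]
  have hcommH : ∀ a ∈ H, ∀ b ∈ H, a * b * a⁻¹ * b⁻¹ ∈ N := fun a ha b hb =>
    S.hcomm a (S.hHH ha) b (S.hHH hb)
  -- the places which are not relaxed
  have ha : ∀ v, ¬ R v → Tr ρ H (I v) d := by
    intro v hv
    rcases S.hloc v hv with h | ⟨h1, h2⟩ | h3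
    · obtain ⟨P, hP⟩ := hl v
      exact ⟨P, fun s hs hI => by rw [hd3 s (h s hs hI), hP s (h s hs hI) hI]⟩
    · refine sa3_loc (p ^ k) I D N H S.hNH hcommH S.hDI v (Or.inr ⟨fun s hs hI P hP => h1 s hs hI k P hP, ?_⟩)
        c d (hl v) hk hd1 hd2 hd3
      intro T hT hf
      exact u4_fix ρ p (fun s => s ∈ H ∧ s ∈ D v) (fun T hT hf => h2 T hT fun s hs hD => hf s ⟨hs, hD⟩) k T hT
        fun s hs => hf s hs.1 hs.2
    · obtain ⟨T, _, hT⟩ := pow_all ρ S.hUi S.hdiv S.hfix h3 k d (fun s hs t ht => hd1 s hs.1 t ht.1)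
        (fun s hs => hd2 s hs.1) ⟨N ⊓ O, hNO, fun s hs h => hdO s hs.1 h⟩
      exact ⟨T, fun s hs hI => hT s ⟨hs, hI⟩⟩
  -- the relaxed places
  have hbR : ∀ v, R v → ∀ s ∈ H, s ∈ I v → p • d s = 0 := by
    intro v hv s hs hI
    obtain ⟨hRv, -⟩ := S.hR v hv
    have triv : ∀ t ∈ H, t ∈ I v → ∀ x : M, p ^ k • x = 0 → ρ t x = x := by
      intro t ht hIt x hx
      refine hRv t ht hIt k x ?_
      rw [smul_sub, ← map_nsmul, hx, map_zero, sub_zero]
    have h1 : d 1 = 0 := by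
      have := hd1 1 H.one_mem 1 H.one_mem
      rw [mul_one, sa3_one] at this
      exact left_eq_add.1 this
    have hdp : ∀ i : ℕ, d (s ^ i) = i • d s := by
      intro i
      induction i with
      | zero => rw [pow_zero, h1, zero_smul]
      | succ i ih =>
        rw [pow_succ, hd1 _ (H.pow_mem hs i) s hs, ih, triv _ (H.pow_mem hs i) ((I v).pow_mem hI i) _ (hd2 s hs),
          succ_nsmul]
    have hspN := pow_mem S s hs
    have hspI : s ^ p ∈ I v := (I v).pow_mem hI p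
    obtain ⟨P, hP⟩ := hl v
    have h2 := hP _ hspN hspI
    have h3 : ρ (s ^ p) P = P := hRv _ (H.pow_mem hs p) hspI k P (by rw [← h2]; exact hk _ hspN)
    rw [← hdp p, hd3 _ hspN, h2, h3, sub_self]
  -- the class `p d`
  obtain ⟨T, hT, hTd⟩ := pow_sel ρ S.hUi S.hdiv S.hfix S.sel k (fun s => p • d s)
    (fun s hs t ht => by
      show p • d (s * t) = p • d s + ρ s (p • d t)
      rw [hd1 s hs t ht, smul_add, map_nsmul])
    ⟨N ⊓ O, hNO, fun s hs h => by
      show p • d s = 0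
      rw [hdO s hs h, smul_zero]⟩
    (fun s hs => by
      show p ^ k • p • d s = 0
      rw [smul_comm, hd2 s hs, smul_zero])
    (fun v => by
      by_cases hv : R v
      · refine ⟨0, fun s hs hI => ?_⟩
        show p • d s = _
        rw [hbR v hv s hs hI, map_zero, sub_zero]
      · obtain ⟨P, hP⟩ := ha v hv
        refine ⟨p • P, fun s hs hI => ?_⟩
        show p • d s = _
        rw [hP s hs hI, smul_sub, map_nsmul])
  have hTd' : ∀ s ∈ H, p • d s = ρ s T - T := hTd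
  obtain ⟨T', hT'⟩ := S.hdiv T
  obtain ⟨O', hO', hfO'⟩ := S.hfix T'
  have hkil : ∀ s ∈ H, p • (d s - (ρ s T' - T')) = 0 := by
    intro s hs
    rw [smul_sub, smul_sub, ← map_nsmul, hT', hTd' s hs, sub_self]
  refine ⟨fun s => d s - (ρ s T' - T'), T', ?_, ?_, fun s hs => ?_⟩
  · refine ⟨fun s hs t ht => ?_, ⟨(N ⊓ O) ⊓ O', S.hUi _ hNO _ hO', fun s hs h => ?_⟩, hkil, fun v hv => ?_,
      fun v hv s hs hI => ?_⟩
    · show d (s * t) - (ρ (s * t) T' - T') = d s - (ρ s T' - T') + ρ s (d t - (ρ t T' - T'))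
      rw [hd1 s hs t ht, sa3_mul, map_sub, map_sub]
      abel
    · show d s - (ρ s T' - T') = 0
      rw [hdO s hs h.1, hfO' s h.2, sub_self, sub_zero]
    · obtain ⟨P, hP⟩ := ha v hv
      refine ⟨P - T', fun s hs hI => ?_⟩
      show d s - (ρ s T' - T') = _
      rw [hP s hs hI, map_sub]
      abel
    · show d s - (ρ s T' - T') = 0
      obtain ⟨P, hP⟩ := hl v
      have hsH := S.hNH hs
      have h1 : d s - (ρ s T' - T') = ρ s (P - T') - (P - T') := by
        rw [hd3 s hs, hP s hs hI, map_sub]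
        abel
      have h2 : ρ s (P - T') = P - T' := by
        refine (S.hR v hv).1 s hsH hI 1 _ ?_
        rw [pow_one, ← h1]
        exact hkil s hsH
      rw [h1, h2, sub_self]
  · rw [pow_succ, mul_smul, hT', hT]
  · show c s = d s - (ρ s T' - T') + (ρ s T' - T')
    rw [sub_add_cancel, hd3 s hs]

end H13T
end

-- from Lib.H13T.U5
section

/-! Chunk U5 (M). η acts trivially on the relaxed classes.
PROOF. f s = ρ η (e (η⁻¹ s η)) - e s. It is a cocycle on H (H is normalized by η: hcomm, hη, hNH, hHH: η⁻¹ s η = (η⁻¹ s η s⁻¹) s), killed by p on H, continuous (hUc with g = η⁻¹; hUi), see sa3_FZ (Lib/H55P/SA3.lean) for each item.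
¬ R v: v' from hconj with g = η: s in I v gives η⁻¹ s η in I v' (η (η⁻¹ s η) η⁻¹ = s), ¬ R v', P' for e at v': ρ η (e ..) = ρ s (ρ η P') - ρ η P' (sa3_bd), minus P for e at v.
R v: f = 0 on H ⊓ I v. φ from hR: η = φ h with h = φ⁻¹ η in H. s' = φ⁻¹ s φ in H ⊓ I v (hDI for φ⁻¹ in D v; H normal in H₀). η⁻¹ s η = h⁻¹ s' h. sa3_self (for H, n = h): ρ h (e (h⁻¹ s' h)) = e s' + (ρ s' (e h) - e h), and ρ s' (e h) = e h (hR with k = 1: p • (ρ s' P - P) = 0 for P = e h).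
So ρ η (e (η⁻¹ s η)) = ρ φ (e s') = e s' (φ trivial on the p-torsion). s' = u s with u = s' s⁻¹ = φ⁻¹ s φ s⁻¹ in N (hcomm with a = φ⁻¹, b = s) and in I v: e (u s) = e u + ρ u (e s) = 0 + e s (RC.rel; ρ u fixes e s by hR).
So f satisfies the hypotheses of SelA: f = ρ s T - T on H with p • T = 0. -/

namespace H13T

open H55P

variable {G M Vs : Type} [Group G] [AddCommGroup M] {ρ : G →* AddMonoid.End M} {p : ℕ} {U : Set (Subgroup G)} {I D : Vs → Subgroup G}
  {N H H₀ : Subgroup G} {η : G} {R : Vs → Prop}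

theorem ts_eta (S : TS ρ p U I D N H H₀ η R) (e : G → M) (he : RC ρ p U I N H R e) :
    ∃ T : M, p • T = 0 ∧ ∀ s ∈ H, ρ η (e (η⁻¹ * s * η)) - e s = ρ s T - T := by
  have hnH : ∀ g ∈ H₀, ∀ s ∈ H, g⁻¹ * s * g ∈ H := fun g hg s hs =>
    sa3_norm' S.hHH (fun a ha b hb => S.hNH (S.hcomm a ha b hb)) g hg s hs
  have hn := hnH η S.hη
  refine S.sel (fun s => ρ η (e (η⁻¹ * s * η)) - e s) (fun s hs t ht => ?_) ?_ (fun s hs => ?_) (fun v => ?_)
  · show ρ η (e (η⁻¹ * (s * t) * η)) - e (s * t) =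
      ρ η (e (η⁻¹ * s * η)) - e s + ρ s (ρ η (e (η⁻¹ * t * η)) - e t)
    have e1 : η⁻¹ * (s * t) * η = (η⁻¹ * s * η) * (η⁻¹ * t * η) := by group
    have e2 : ρ η (ρ (η⁻¹ * s * η) (e (η⁻¹ * t * η))) = ρ s (ρ η (e (η⁻¹ * t * η))) := by
      rw [← sa3_mul, ← sa3_mul]
      congr 2
      group
    rw [e1, he.coc _ (hn s hs) _ (hn t ht), map_add, e2, he.coc s hs t ht, map_sub]
    abel
  · obtain ⟨O, hO, h⟩ := he.cont
    obtain ⟨O', hO', h'⟩ := S.hUc O hO η⁻¹
    refine ⟨O ⊓ O', S.hUi O hO O' hO', fun s hs hsO => ?_⟩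
    have h1 := h' s hsO.2
    rw [inv_inv] at h1
    show ρ η (e (η⁻¹ * s * η)) - e s = 0
    rw [h _ (hn s hs) h1, h s hs hsO.1, map_zero, sub_zero]
  · show p • (ρ η (e (η⁻¹ * s * η)) - e s) = 0
    rw [smul_sub, sa3_nsmul ρ p η _ (he.kil _ (hn s hs)), he.kil s hs, sub_zero]
  · by_cases hv : R v
    · obtain ⟨hRv, φ, hφD, hφH, hφη, hφT⟩ := S.hR v hv
      refine ⟨0, fun s hs hI => ?_⟩
      show ρ η (e (η⁻¹ * s * η)) - e s = ρ s 0 - 0
      rw [map_zero, sub_zero, sub_eq_zero]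
      have triv : ∀ t ∈ H, t ∈ I v → ∀ x : M, p • x = 0 → ρ t x = x := by
        intro t ht hIt x hx
        refine hRv t ht hIt 1 x ?_
        rw [pow_one, smul_sub, ← map_nsmul, hx, map_zero, sub_zero]
      have hs' : φ⁻¹ * s * φ ∈ H := hnH φ hφH s hs
      have hI' : φ⁻¹ * s * φ ∈ I v := by
        have := S.hDI v φ⁻¹ ((D v).inv_mem hφD) s hI
        rwa [inv_inv] at this
      have e1 : η⁻¹ * s * η = (φ⁻¹ * η)⁻¹ * (φ⁻¹ * s * φ) * (φ⁻¹ * η) := by group
      have h1 := sa3_self he.coc (φ⁻¹ * η) hφη (φ⁻¹ * s * φ) hs'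
      rw [triv _ hs' hI' _ (he.kil _ hφη), sub_self, sub_eq_zero, ← e1] at h1
      have h2 : ρ η (e (η⁻¹ * s * η)) = ρ φ (ρ (φ⁻¹ * η) (e (η⁻¹ * s * η))) := by
        rw [← sa3_mul, mul_inv_cancel_left]
      rw [h2, h1, hφT _ (he.kil _ hs')]
      have huN : φ⁻¹ * s * φ * s⁻¹ ∈ N := by
        have := S.hcomm φ⁻¹ (H₀.inv_mem hφH) s (S.hHH hs)
        rwa [inv_inv] at this
      have huI : φ⁻¹ * s * φ * s⁻¹ ∈ I v := (I v).mul_mem hI' ((I v).inv_mem hI)
      have h3 := he.coc _ (S.hNH huN) s hs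
      rw [inv_mul_cancel_right, he.rel v hv _ huN huI, zero_add, triv _ (S.hNH huN) huI _ (he.kil s hs)] at h3
      exact h3
    · obtain ⟨v', hv1, hv2⟩ := S.hconj η S.hη v
      obtain ⟨P', hP'⟩ := he.loc v' fun h => hv (hv2.1 h)
      obtain ⟨P, hP⟩ := he.loc v hv
      refine ⟨ρ η P' - P, fun s hs hI => ?_⟩
      show ρ η (e (η⁻¹ * s * η)) - e s = _
      have h1 : η⁻¹ * s * η ∈ I v' := by
        rw [hv1]
        have e1 : η * (η⁻¹ * s * η) * η⁻¹ = s := by group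
        rw [e1]
        exact hI
      rw [hP' _ (hn s hs) h1, sa3_bd, hP s hs hI, map_sub]
      abel

end H13T
end

-- from Lib.H13T.U6
section

/-! Chunk U6 (M). THE UPPER BOUND: every class over N (continuous cocycle killed by p^k, trivial on inertia everywhere) comes from a relaxed class over H.
PROOF. ps_fix (U1) with X = G → M, Z = sa3_Z ρ (p^k) U I N S.hN S.hUi, B = sa3_B ρ (p^k) N, η = sa3_F ρ η (Lib/H55P/SA3.lean; model: the proof of abs_step there). hηZ: sa3_FZ with H₀ in place of H (hconj: first component). hηB: as in abs_step (sa3_bd). hk: p^k • z = 0 on N, T = 0.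
hη: sa3_iter and sa3_self for n = η^(p*p) in N, T = z (η^(p*p)). h0: z in Z with η^[p] z - z in B: sa3_iter turns it into hb of ts_rel (U4): e, T' with z = e + ∂T' on N. p^(k+1) • T' = 0. p • z = ∂(p • T') on N and p^k • (p • T') = 0, so p • z is in B.
η z - z = (η e - e) + ∂(ρ η T' - T') = ∂Y on N, Y = T'' + ρ η T' - T' (ts_eta, N ≤ H; sa3_bd); ∂Y is killed by p^k on N (z and η z are), so p^k • Y is fixed by N; it is killed by p^(k+1), so p^k • Y = 0 by fix_pow (U3).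
Then all z in Z satisfy η^[p] z - z in B and the conclusion is ts_rel again. -/

namespace H13T

open H55P

variable {G M Vs : Type} [Group G] [AddCommGroup M] {ρ : G →* AddMonoid.End M} {p : ℕ} {U : Set (Subgroup G)} {I D : Vs → Subgroup G}
  {N H H₀ : Subgroup G} {η : G} {R : Vs → Prop}

theorem ts_up (S : TS ρ p U I D N H H₀ η R) (k : ℕ) (c : G → M) (hc : IsC ρ N c) (hk : ∀ s ∈ N, p ^ k • c s = 0)
    (hco : Cont U N c) (hl : ∀ v, Tr ρ N (I v) c) :
    ∃ (e : G → M) (T' : M), RC ρ p U I N H R e ∧ p ^ (k + 1) • T' = 0 ∧ ∀ s ∈ N, c s = e s + (ρ s T' - T') := by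
  have hNH₀ : N ≤ H₀ := le_trans S.hNH S.hHH
  have hn' := sa3_norm' hNH₀ S.hcomm
  have key : (sa3_F ρ η)^[p] c - c ∈ sa3_B ρ (p ^ k) N := by
    refine ps_fix p S.hp k (sa3_Z ρ (p ^ k) U I N S.hN S.hUi) (sa3_B ρ (p ^ k) N) (sa3_F ρ η) ?_ ?_ ?_ ?_ ?_ c ⟨hc, hco, hk, hl⟩
    · intro z hz
      exact sa3_FZ (p ^ k) U I N H₀ S.hUc hNH₀ S.hcomm η S.hη (fun g hg v => by
        obtain ⟨v', h1, -⟩ := S.hconj g hg v
        exact ⟨v', h1⟩) z hz
    · rintro b ⟨T, hT, hb⟩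
      refine ⟨ρ η T, sa3_nsmul ρ (p ^ k) η T hT, fun s hs => ?_⟩
      rw [sa3_F_apply, hb _ (hn' η S.hη s hs), sa3_bd]
    · rintro z ⟨-, -, hz, -⟩
      exact ⟨0, smul_zero _, fun s hs => by rw [Pi.smul_apply, hz s hs, map_zero, sub_zero]⟩
    · rintro z ⟨z1, -, z3, -⟩
      refine ⟨z (η ^ (p * p)), z3 _ S.hηpp, fun s hs => ?_⟩
      rw [Pi.sub_apply, sa3_iter]
      exact sa3_self z1 _ S.hηpp s hs
    · rintro z ⟨z1, z2, z3, z4⟩ ⟨T, hT, hb⟩
      obtain ⟨e, T', he, hT', hz⟩ := ts_rel S k z z1 z3 z2 z4 ⟨T, hT, fun s hs => by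
        have h1 := hb s hs
        rwa [Pi.sub_apply, sa3_iter] at h1⟩
      refine ⟨⟨p • T', ?_, fun s hs => ?_⟩, ?_⟩
      · rw [← mul_smul, ← pow_succ]
        exact hT'
      · rw [Pi.smul_apply, hz s hs, smul_add, he.kil s (S.hNH hs), zero_add, smul_sub, map_nsmul]
      · obtain ⟨T₂, hT₂, h2⟩ := ts_eta S e he
        have hY : ∀ s ∈ N, (sa3_F ρ η z - z) s = ρ s (T₂ + ρ η T' - T') - (T₂ + ρ η T' - T') := by
          intro s hs
          have h3 := h2 s (S.hNH hs)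
          have h4 : ρ η (e (η⁻¹ * s * η)) = e s + (ρ s T₂ - T₂) := by
            rw [← h3]
            abel
          rw [Pi.sub_apply, sa3_F_apply, hz _ (hn' η S.hη s hs), hz s hs, map_add, sa3_bd, h4, map_sub, map_add]
          abel
        refine ⟨T₂ + ρ η T' - T', ?_, hY⟩
        refine S.h0 _ ?_ ?_
        · have h5 : p • (p ^ k • (T₂ + ρ η T' - T')) = p ^ k • (p • T₂) + (ρ η (p ^ (k + 1) • T') - p ^ (k + 1) • T') := by
            rw [← mul_smul, ← pow_succ', smul_sub, smul_add, map_nsmul]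
            have h6 : p ^ (k + 1) • T₂ = p ^ k • (p • T₂) := by rw [← mul_smul, ← pow_succ]
            rw [h6]
            abel
          rw [h5, hT₂, hT', smul_zero, map_zero, sub_zero, add_zero]
        · intro s hs
          have h7 := hY s hs
          have h8 : p ^ k • (sa3_F ρ η z - z) s = 0 := by
            rw [Pi.sub_apply, smul_sub, z3 s hs, sa3_F_apply, sa3_nsmul ρ (p ^ k) η _ (z3 _ (hn' η S.hη s hs)), sub_zero]
          rw [h7, smul_sub, ← map_nsmul, sub_eq_zero] at h8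
          exact h8
  obtain ⟨T, hT, hb⟩ := key
  exact ts_rel S k c hc hk hco hl ⟨T, hT, fun s hs => by
    have h1 := hb s hs
    rwa [Pi.sub_apply, sa3_iter] at h1⟩

end H13T
end

-- from Lib.H13T.U7
section

/-! Chunk U7 (S). The points fixed by N are divisible by p among themselves.
PROOF. P = p^2 • Q₀ (div_pow, U2, k = 2). c s = ρ s Q₀ - Q₀ is a cocycle on N, p^2 • c s = ρ s P - P = 0 on N, continuous (S.hfix), local conditions with Q₀. ts_up (k = 2): c = e + ∂T' on N, p^3 • T' = 0. p • c = ∂(p T') on N (e killed by p on H ≥ N), so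
Q₁ = p • Q₀ - p • T' is fixed by N. p • Q₁ = P - p^2 • T'. So p^2 • T' = P - p • Q₁ is fixed by N and killed by p: 0 by S.h0. Q = Q₁. -/

namespace H13T

open H55P

variable {G M Vs : Type} [Group G] [AddCommGroup M] {ρ : G →* AddMonoid.End M} {p : ℕ} {U : Set (Subgroup G)} {I D : Vs → Subgroup G}
  {N H H₀ : Subgroup G} {η : G} {R : Vs → Prop}

theorem pts_div (S : TS ρ p U I D N H H₀ η R) (P : M) (hP : ∀ s ∈ N, ρ s P = P) : ∃ Q : M, (∀ s ∈ N, ρ s Q = Q) ∧ p • Q = P := by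
  obtain ⟨Q₀, hQ₀⟩ := div_pow S.hdiv 2 P
  obtain ⟨e, T', hRC, hT', hc⟩ := ts_up S 2 (fun s => ρ s Q₀ - Q₀)
    (by
      intro s hs t ht
      show ρ (s * t) Q₀ - Q₀ = (ρ s Q₀ - Q₀) + ρ s (ρ t Q₀ - Q₀)
      have h1 : ρ (s * t) Q₀ = ρ s (ρ t Q₀) := by
        rw [map_mul]
        rfl
      rw [h1, map_sub]
      abel)
    (by
      intro s hs
      show p ^ 2 • (ρ s Q₀ - Q₀) = 0
      rw [smul_sub, ← map_nsmul, hQ₀, hP s hs, sub_self])
    (by
      obtain ⟨O, hO, h1⟩ := S.hfix Q₀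
      exact ⟨O, hO, fun s _ hsO => by
        show ρ s Q₀ - Q₀ = 0
        rw [h1 s hsO, sub_self]⟩)
    (fun v => ⟨Q₀, fun s _ _ => rfl⟩)
  have hQ : ∀ s ∈ N, ρ s (p • Q₀ - p • T') = p • Q₀ - p • T' := by
    intro s hs
    have h1 : p • e s = 0 := hRC.kil s (S.hNH hs)
    have h2 : ρ s Q₀ - Q₀ = e s + (ρ s T' - T') := hc s hs
    have h3 : ρ s (p • Q₀ - p • T') - (p • Q₀ - p • T') = p • (ρ s Q₀ - Q₀) - p • (ρ s T' - T') := by
      rw [map_sub, map_nsmul, map_nsmul, smul_sub, smul_sub]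
      abel
    rw [h2, smul_add, h1, zero_add, sub_self] at h3
    exact sub_eq_zero.1 h3
  refine ⟨p • Q₀ - p • T', hQ, ?_⟩
  have h4 : p • (p • Q₀ - p • T') = P - p ^ 2 • T' := by
    rw [smul_sub, ← mul_smul, ← mul_smul, ← sq, hQ₀]
  have h5 : p ^ 2 • T' = 0 := by
    apply S.h0
    · rw [← mul_smul, ← pow_succ']
      exact hT'
    · intro s hs
      have h6 : p ^ 2 • T' = P - p • (p • Q₀ - p • T') := by rw [h4]; abel
      rw [h6, map_sub, hP s hs, map_nsmul, hQ s hs]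
  rw [h4, h5, sub_zero]

end H13T
end

-- from Lib.H13T.U8
section

/-! Chunk U8 (S/M). Relaxed classes are determined by their values at the τ w.
rc_zero. PROOF. S.sel for d: local conditions at u with R u: P = 0, that is d s = 0 for s in H ⊓ I u: T.cov gives w, h; s₁ = h s h⁻¹ is in H ⊓ I (v w), s₁ = (τ w)^i n (T.gen), ρ (τ w) fixes all points killed by p (S.hR (v w) (T.rel w), k = 1), so d ((τ w)^i) = i • d (τ w) = 0 (induction),
d s₁ = 0 + ρ .. (d n) = 0 (RC.rel). sa3_self (Lib/H55P/SA3.lean) with n = h⁻¹: ρ h⁻¹ (d (h s h⁻¹)) - d s = ρ s (d h⁻¹) - d h⁻¹ = 0 (s in I u fixes the points killed by p: S.hR u), so d s = 0.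
rc_inj. PROOF. p • P is fixed by N (p • d s = 0). pts_div: Q fixed by N with p • Q = p • P; T₀ = P - Q is killed by p and d = ∂T₀ on N. f s = d s - (ρ s T₀ - T₀) is a cocycle on H, killed by p, zero on N. For g in H, n in N: f (n g) = ρ n (f g) and f (n g) = f (g (g⁻¹ n g)) = f g
(N is normal in H: sa3_norm'), so f g is fixed by N: 0 by S.h0. At g = τ w: ρ (τ w) T₀ = T₀ by S.hR, so d (τ w) = 0. -/

namespace H13T

open H55P

variable {G M Vs : Type} [Group G] [AddCommGroup M] {ρ : G →* AddMonoid.End M} {p : ℕ} {U : Set (Subgroup G)} {I D : Vs → Subgroup G}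
  {N H H₀ : Subgroup G} {η : G} {R : Vs → Prop} {ι : Type} {v : ι → Vs} {τ : ι → G}

theorem u8_one {c : G → M} (hc : IsC ρ H c) : c 1 = 0 := by
  have h := hc 1 H.one_mem 1 H.one_mem
  rw [mul_one, sa3_one] at h
  exact left_eq_add.1 h

theorem u8_fix (S : TS ρ p U I D N H H₀ η R) {u : Vs} (hu : R u) {s : G} (hs : s ∈ H) (hsI : s ∈ I u) {P : M}
    (hP : p • P = 0) : ρ s P = P := by
  refine (S.hR u hu).1 s hs hsI 1 P ?_
  rw [pow_one, smul_sub, hP, sa3_nsmul ρ p s P hP, sub_zero]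

theorem rc_zero (S : TS ρ p U I D N H H₀ η R) (T : TI I N H R ι v τ) (d : G → M) (hd : RC ρ p U I N H R d)
    (h : ∀ w, d (τ w) = 0) : ∃ T₀ : M, p • T₀ = 0 ∧ ∀ s ∈ H, d s = ρ s T₀ - T₀ := by
  refine S.sel d hd.coc hd.cont hd.kil fun u => ?_
  by_cases hu : R u
  · refine ⟨0, fun s hs hsI => ?_⟩
    rw [map_zero, sub_zero]
    obtain ⟨w, g, hg, hcov⟩ := T.cov u hu
    have h1 : g * s * g⁻¹ ∈ H := H.mul_mem (H.mul_mem hg hs) (H.inv_mem hg)
    obtain ⟨i, n, hn, hnI, hi⟩ := T.gen w (g * s * g⁻¹) h1 ((hcov s).1 hsI)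
    have hpow : ∀ i : ℕ, d (τ w ^ i) = 0 := by
      intro i
      induction i with
      | zero => rw [pow_zero, u8_one hd.coc]
      | succ i ih =>
        rw [pow_succ, hd.coc _ (H.pow_mem (T.mem w) i) _ (T.mem w), ih, h w, map_zero, add_zero]
    have h2 : d (g * s * g⁻¹) = 0 := by
      rw [hi, hd.coc _ (H.pow_mem (T.mem w) i) _ (S.hNH hn), hpow, hd.rel (v w) (T.rel w) n hn hnI,
        map_zero, add_zero]
    have h3 := sa3_self hd.coc g⁻¹ (H.inv_mem hg) s hs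
    rw [inv_inv, h2, map_zero, u8_fix S hu hs hsI (hd.kil _ (H.inv_mem hg)), sub_self, zero_sub,
      neg_eq_zero] at h3
    exact h3
  · exact hd.loc u hu

theorem rc_inj (S : TS ρ p U I D N H H₀ η R) (T : TI I N H R ι v τ) (d : G → M) (hd : RC ρ p U I N H R d)
    (P : M) (hP : ∀ s ∈ N, d s = ρ s P - P) (w : ι) : d (τ w) = 0 := by
  have hpP : ∀ s ∈ N, ρ s (p • P) = p • P := by
    intro s hs
    have h1 := hd.kil s (S.hNH hs)
    rw [hP s hs, smul_sub, ← map_nsmul] at h1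
    exact sub_eq_zero.1 h1
  obtain ⟨Q, hQ, hQP⟩ := pts_div S (p • P) hpP
  have hT : p • (P - Q) = 0 := by rw [smul_sub, hQP, sub_self]
  obtain ⟨f, hf⟩ : ∃ f : G → M, ∀ s, f s = d s - (ρ s (P - Q) - (P - Q)) := ⟨_, fun _ => rfl⟩
  have hfc : IsC ρ H f := by
    intro s hs t ht
    rw [hf, hf, hf, hd.coc s hs t ht, sa3_mul]
    simp only [map_sub]
    abel
  have hfN : ∀ s ∈ N, f s = 0 := by
    intro s hs
    rw [hf, hP s hs, map_sub, hQ s hs]
    abel
  have hfp : ∀ s ∈ H, p • f s = 0 := by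
    intro s hs
    rw [hf, smul_sub, hd.kil s hs, smul_sub, hT, sa3_nsmul ρ p s _ hT]
    simp
  have hf0 : ∀ g ∈ H, f g = 0 := by
    intro g hg
    refine S.h0 _ (hfp g hg) fun n hn => ?_
    have h1 : g⁻¹ * n * g ∈ N :=
      sa3_norm' S.hNH (fun a ha b hb => S.hcomm a (S.hHH ha) b (S.hHH hb)) g hg n hn
    have h2 := hfc n (S.hNH hn) g hg
    have h3 := hfc g hg _ (S.hNH h1)
    rw [hfN n hn, zero_add] at h2
    rw [hfN _ h1, map_zero, add_zero] at h3
    have h4 : g * (g⁻¹ * n * g) = n * g := by group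
    rw [h4] at h3
    rw [← h2, h3]
  have h5 := hf0 (τ w) (T.mem w)
  rw [hf, u8_fix S (T.rel w) (T.mem w) (T.ine w) hT, sub_self, sub_zero] at h5
  exact h5

end H13T
end

-- from Lib.H13T.U9
section

/-! Chunk U9 (S). Sums of relaxed classes.
rc_add, rc_sub: componentwise (as sa3_Z in Lib/H55P/SA3.lean; continuity O ⊓ O', S.hUi; Tr: P + P'). rc_fun: Fintype.ofFinite ι; by Finset.induction_on prove: for every finite set t of indices there is d with RC, the conditions on 𝒟, d (τ w) = f w for w in t and 0 for w not in t; t = univ. -/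

namespace H13T

open H55P

variable {G M Vs : Type} [Group G] [AddCommGroup M] {ρ : G →* AddMonoid.End M} {p : ℕ} {U : Set (Subgroup G)} {I D : Vs → Subgroup G}
  {N H H₀ : Subgroup G} {η : G} {R : Vs → Prop} {ι : Type} {v : ι → Vs} {τ : ι → G}

theorem rc_add (S : TS ρ p U I D N H H₀ η R) {d d' : G → M} (hd : RC ρ p U I N H R d) (hd' : RC ρ p U I N H R d') :
    RC ρ p U I N H R (d + d') := by
  refine ⟨fun s hs t ht => ?_, ?_, fun s hs => ?_, fun u hu => ?_, fun u hu s hs hsI => ?_⟩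
  · rw [Pi.add_apply, Pi.add_apply, Pi.add_apply, hd.coc s hs t ht, hd'.coc s hs t ht, map_add]
    abel
  · obtain ⟨O, hO, h1⟩ := hd.cont
    obtain ⟨O', hO', h2⟩ := hd'.cont
    refine ⟨O ⊓ O', S.hUi O hO O' hO', fun s hs h => ?_⟩
    rw [Pi.add_apply, h1 s hs h.1, h2 s hs h.2, add_zero]
  · rw [Pi.add_apply, smul_add, hd.kil s hs, hd'.kil s hs, add_zero]
  · obtain ⟨P, hP⟩ := hd.loc u hu
    obtain ⟨Q, hQ⟩ := hd'.loc u hu
    refine ⟨P + Q, fun s hs h => ?_⟩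
    rw [Pi.add_apply, hP s hs h, hQ s hs h, map_add]
    abel
  · rw [Pi.add_apply, hd.rel u hu s hs hsI, hd'.rel u hu s hs hsI, add_zero]

theorem u9_neg {d : G → M} (hd : RC ρ p U I N H R d) : RC ρ p U I N H R (-d) := by
  refine ⟨fun s hs t ht => ?_, ?_, fun s hs => ?_, fun u hu => ?_, fun u hu s hs hsI => ?_⟩
  · rw [Pi.neg_apply, Pi.neg_apply, Pi.neg_apply, hd.coc s hs t ht, map_neg]
    abel
  · obtain ⟨O, hO, h1⟩ := hd.cont
    exact ⟨O, hO, fun s hs h => by rw [Pi.neg_apply, h1 s hs h, neg_zero]⟩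
  · rw [Pi.neg_apply, smul_neg, hd.kil s hs, neg_zero]
  · obtain ⟨P, hP⟩ := hd.loc u hu
    refine ⟨-P, fun s hs h => ?_⟩
    rw [Pi.neg_apply, hP s hs h, map_neg]
    abel
  · rw [Pi.neg_apply, hd.rel u hu s hs hsI, neg_zero]

theorem u9_zero (S : TS ρ p U I D N H H₀ η R) : RC ρ p U I N H R (0 : G → M) := by
  refine ⟨fun s _ t _ => ?_, ⟨N, S.hN, fun s _ _ => rfl⟩, fun s _ => ?_, fun u _ => ⟨0, fun s _ _ => ?_⟩, fun u _ s _ _ => rfl⟩
  · rw [Pi.zero_apply, Pi.zero_apply, Pi.zero_apply, map_zero, add_zero]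
  · rw [Pi.zero_apply, smul_zero]
  · rw [Pi.zero_apply, map_zero, sub_zero]

theorem rc_sub (S : TS ρ p U I D N H H₀ η R) {d d' : G → M} (hd : RC ρ p U I N H R d) (hd' : RC ρ p U I N H R d') :
    RC ρ p U I N H R (d - d') := by
  rw [sub_eq_add_neg]
  exact rc_add S hd (u9_neg hd')

theorem rc_fun (S : TS ρ p U I D N H H₀ η R) [Finite ι] (𝒟 : Set (Subgroup G))
    (hE : ∀ (w : ι) (T : M), p • T = 0 → ∃ d : G → M, RC ρ p U I N H R d ∧ (∀ J ∈ 𝒟, Tr ρ N J d) ∧ d (τ w) = T ∧ ∀ w', w' ≠ w → d (τ w') = 0)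
    (f : ι → M) (hf : ∀ w, p • f w = 0) : ∃ d : G → M, RC ρ p U I N H R d ∧ (∀ J ∈ 𝒟, Tr ρ N J d) ∧ ∀ w, d (τ w) = f w := by
  classical
  have : Fintype ι := Fintype.ofFinite ι
  have key : ∀ t : Finset ι, ∃ d : G → M, RC ρ p U I N H R d ∧ (∀ J ∈ 𝒟, Tr ρ N J d) ∧
      (∀ w ∈ t, d (τ w) = f w) ∧ ∀ w, w ∉ t → d (τ w) = 0 := by
    intro t
    induction t using Finset.induction_on with
    | empty =>
      refine ⟨0, u9_zero S, fun J _ => ⟨0, fun s _ _ => ?_⟩, fun w hw => absurd hw (Finset.notMem_empty w), fun w _ => rfl⟩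
      rw [Pi.zero_apply, map_zero, sub_zero]
    | insert a t ha ih =>
      obtain ⟨d, h1, h2, h3, h4⟩ := ih
      obtain ⟨e, g1, g2, g3, g4⟩ := hE a (f a) (hf a)
      refine ⟨d + e, rc_add S h1 g1, fun J hJ => ?_, fun w hw => ?_, fun w hw => ?_⟩
      · obtain ⟨P, hP⟩ := h2 J hJ
        obtain ⟨Q, hQ⟩ := g2 J hJ
        refine ⟨P + Q, fun s hs h => ?_⟩
        rw [Pi.add_apply, hP s hs h, hQ s hs h, map_add]
        abel
      · rcases Finset.mem_insert.1 hw with rfl | hw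
        · rw [Pi.add_apply, h4 w ha, g3, zero_add]
        · rw [Pi.add_apply, h3 w hw, g4 w (fun h => ha (h ▸ hw)), add_zero]
      · rw [Finset.mem_insert, not_or] at hw
        rw [Pi.add_apply, h4 w hw.2, g4 w hw.1, add_zero]
  obtain ⟨d, h1, h2, h3, -⟩ := key Finset.univ
  exact ⟨d, h1, h2, fun w => h3 w (Finset.mem_univ w)⟩

end H13T
end

-- from Lib.H13T.U10
section

/-! Chunk U10 (M). THE COUNT. L : SSG.LS G M (Lib/SSG/Z/ZD.lean), ρ = L.act, U = L.U; the group Sha of the system (L.res N) consists of the locally trivial continuous cocycles on the group N modulo coboundaries.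
u10_cl: a relaxed class d which is trivial on all J in L.D (over N) gives the element of Sha: c = fun n : N => d n is in (L.res N).Z (mul: RC.coc on N ≤ H; cont: RC.cont: O in L.U, O.subgroupOf N; loc: J.subgroupOf N), and p • cl c = 0.
u10_surj: x in Sha with p^k • x = 0: x = cl c (cl_surj), p^k • c = coboundary of P (cl_zero), P = p^k • P' (div_pow), c' g = c ⟨g, h⟩ - (L.act g P' - P') for g in N and 0 for g outside N (classical if): IsC on N, killed by p^k on N, Cont (c is zero on u.subgroupOf N, hfix for P', hUi), Tr on I v: hI v: either I v ≤ J in L.D: c is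
locally trivial on J (minus P'), or I v = ⊥: s = 1, c 1 = 0. ts_up: c' = e + ∂T' on N. f w = e (τ w), rc_fun (U9) with 𝒟 = L.D gives d with d (τ w) = f w; e - d is relaxed (rc_sub) and vanishes at all τ w: rc_zero: e - d = ∂T'' on H. So c = d + ∂(P' + T' + T'') on N: x = cl of d (LS.cl_eq).
-/

namespace H13T

open H55P SSG

variable {G M Vs : Type} [Group G] [AddCommGroup M] {L : LS G M} {p : ℕ} {I D : Vs → Subgroup G}
  {N H H₀ : Subgroup G} {η : G} {R : Vs → Prop} {ι : Type} {v : ι → Vs} {τ : ι → G}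

theorem u10_isZ (S : TS L.act p L.U I D N H H₀ η R) {d : G → M} (hd : RC L.act p L.U I N H R d) (hJ : ∀ J ∈ L.D, Tr L.act N J d) :
    (L.res N).IsZ (fun n : N => d n) := by
  refine ⟨fun g h => ?_, ?_, ?_⟩
  · exact hd.coc g (S.hNH g.2) h (S.hNH h.2)
  · obtain ⟨O, hO, h1⟩ := hd.cont
    exact ⟨_, ⟨O, hO, rfl⟩, fun g hg => h1 g (S.hNH g.2) (Subgroup.mem_subgroupOf.1 hg)⟩
  · rintro _ ⟨J, hJD, rfl⟩
    obtain ⟨P, hP⟩ := hJ J hJD
    exact ⟨P, fun g hg => hP g g.2 (Subgroup.mem_subgroupOf.1 hg)⟩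

open Classical in
/-- The corrected cocycle on N, extended by zero. -/
noncomputable def u10_c (N : Subgroup G) (L : LS G M) (c : N → M) (P' : M) (g : G) : M :=
  if h : g ∈ N then c ⟨g, h⟩ - (L.act g P' - P') else 0

theorem u10_c_mem (c : N → M) (P' : M) {g : G} (h : g ∈ N) : u10_c N L c P' g = c ⟨g, h⟩ - (L.act g P' - P') := dif_pos h

theorem u10_surj (S : TS L.act p L.U I D N H H₀ η R) [Finite ι] (T : TI I N H R ι v τ) (hI : ∀ v, (∃ J ∈ L.D, I v ≤ J) ∨ I v = ⊥)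
    (hE : ∀ (w : ι) (T : M), p • T = 0 → ∃ d : G → M, RC L.act p L.U I N H R d ∧ (∀ J ∈ L.D, Tr L.act N J d) ∧ d (τ w) = T ∧
      ∀ w', w' ≠ w → d (τ w') = 0) (x : (L.res N).Sha) (hx : ∃ k : ℕ, p ^ k • x = 0) :
    ∃ (d : G → M) (hd : RC L.act p L.U I N H R d) (hJ : ∀ J ∈ L.D, Tr L.act N J d), x = (L.res N).cl ⟨fun n : N => d n, u10_isZ S hd hJ⟩ := by
  obtain ⟨k, hk⟩ := hx
  obtain ⟨c, rfl⟩ := (L.res N).cl_surj x
  rw [← map_nsmul, (L.res N).cl_zero] at hk
  obtain ⟨P, hP⟩ := hk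
  obtain ⟨P', hP'⟩ := div_pow S.hdiv k P
  have hZ : (L.res N).IsZ c.1 := c.2
  have hP2 : ∀ g : N, p ^ k • c.1 g = L.act g P - P := hP
  have hcoc : IsC L.act N (u10_c N L c.1 P') := by
    intro s hs t ht
    rw [u10_c_mem c.1 P' hs, u10_c_mem c.1 P' ht, u10_c_mem c.1 P' (N.mul_mem hs ht)]
    have h1 : c.1 ⟨s * t, N.mul_mem hs ht⟩ = c.1 ⟨s, hs⟩ + L.act s (c.1 ⟨t, ht⟩) := hZ.mul ⟨s, hs⟩ ⟨t, ht⟩
    rw [h1, sa3_mul, map_sub, map_sub]
    abel
  have hkil : ∀ s ∈ N, p ^ k • u10_c N L c.1 P' s = 0 := by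
    intro s hs
    rw [u10_c_mem c.1 P' hs, smul_sub, smul_sub, hP2 ⟨s, hs⟩, ← map_nsmul, hP']
    exact sub_self _
  have hcont : Cont L.U N (u10_c N L c.1 P') := by
    obtain ⟨_, ⟨O, hO, rfl⟩, h1⟩ := hZ.cont
    obtain ⟨O', hO', h2⟩ := S.hfix P'
    refine ⟨O ⊓ O', S.hUi O hO O' hO', fun s hs hsO => ?_⟩
    rw [u10_c_mem c.1 P' hs, h2 s hsO.2, h1 ⟨s, hs⟩ (Subgroup.mem_subgroupOf.2 hsO.1), sub_self, sub_zero]
  have hloc : ∀ v, Tr L.act N (I v) (u10_c N L c.1 P') := by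
    intro v
    rcases hI v with ⟨J, hJ, hIJ⟩ | hb
    · obtain ⟨Q, hQ⟩ := hZ.loc (J.subgroupOf N) ⟨J, hJ, rfl⟩
      refine ⟨Q - P', fun s hs hsI => ?_⟩
      have h1 : c.1 ⟨s, hs⟩ = L.act s Q - Q := hQ ⟨s, hs⟩ (Subgroup.mem_subgroupOf.2 (hIJ hsI))
      rw [u10_c_mem c.1 P' hs, h1, map_sub]
      abel
    · refine ⟨0, fun s hs hsI => ?_⟩
      rw [hb, Subgroup.mem_bot] at hsI
      have h1 := hcoc 1 N.one_mem 1 N.one_mem
      rw [mul_one, sa3_one] at h1
      rw [hsI, map_zero, sub_zero]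
      exact left_eq_add.1 h1
  obtain ⟨e, T', he, -, h1⟩ := ts_up S k (u10_c N L c.1 P') hcoc hkil hcont hloc
  obtain ⟨d, hd, hJ, h2⟩ := rc_fun S L.D hE (fun w => e (τ w)) (fun w => he.kil (τ w) (T.mem w))
  obtain ⟨T₀, -, h3⟩ := rc_zero S T (e - d) (rc_sub S he hd) (fun w => by rw [Pi.sub_apply, h2 w, sub_self])
  refine ⟨d, hd, hJ, ?_⟩
  rw [← sub_eq_zero, ← map_sub, (L.res N).cl_zero]
  refine ⟨P' + T' + T₀, fun g => ?_⟩
  show c.1 g - d g = L.act g (P' + T' + T₀) - (P' + T' + T₀)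
  have h4 := h1 g g.2
  have h5 := h3 g (S.hNH g.2)
  rw [u10_c_mem c.1 P' g.2] at h4
  rw [Pi.sub_apply] at h5
  have h6 : c.1 ⟨(g : G), g.2⟩ = c.1 g := rfl
  rw [h6] at h4
  have h7 : c.1 g = e g + (L.act g T' - T') + (L.act g P' - P') := sub_eq_iff_eq_add.1 h4
  have h8 : e g = (L.act g T₀ - T₀) + d g := sub_eq_iff_eq_add.1 h5
  rw [h7, h8, map_add, map_add]
  abel

end H13T
end

-- from Lib.H13T.U11
section

/-! Chunk U11 (S/M). ts_card: the map f ↦ cl (d_f) (d_f chosen by rc_fun) from the functions ι → {T : M // p • T = 0} to PP p Sha is injective (cl_eq: d_f - d_f' = ∂P on N; rc_sub, rc_inj: f w = f' w) and surjective (u10_surj: any d with d (τ w) = f w and RC; d_f - d relaxed, zero at all τ w: rc_zero, same class).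
Nat.card_congr (Equiv.ofBijective ..), Nat.card_fun (Finite ι). The second statement: x = cl d by u10_surj and p • cl d = 0. -/

namespace H13T

open H55P SSG

variable {G M Vs : Type} [Group G] [AddCommGroup M] {L : LS G M} {p : ℕ} {I D : Vs → Subgroup G}
  {N H H₀ : Subgroup G} {η : G} {R : Vs → Prop} {ι : Type} {v : ι → Vs} {τ : ι → G}

theorem u11_kil (S : TS L.act p L.U I D N H H₀ η R) {d : G → M} (hd : RC L.act p L.U I N H R d) (hJ : ∀ J ∈ L.D, Tr L.act N J d) :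
    p • (L.res N).cl ⟨fun n : N => d n, u10_isZ S hd hJ⟩ = 0 := by
  rw [← map_nsmul]
  refine ((L.res N).cl_zero _).2 ⟨0, fun g => ?_⟩
  rw [map_zero, sub_zero]
  exact hd.kil g.1 (S.hNH g.2)

theorem ts_card (S : TS L.act p L.U I D N H H₀ η R) [Finite ι] (T : TI I N H R ι v τ) (hI : ∀ v, (∃ J ∈ L.D, I v ≤ J) ∨ I v = ⊥)
    (hE : ∀ (w : ι) (T : M), p • T = 0 → ∃ d : G → M, RC L.act p L.U I N H R d ∧ (∀ J ∈ L.D, Tr L.act N J d) ∧ d (τ w) = T ∧
      ∀ w', w' ≠ w → d (τ w') = 0) :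
    Nat.card (PP p (L.res N).Sha) = Nat.card {T : M // p • T = 0} ^ Nat.card ι ∧ ∀ x : (L.res N).Sha, (∃ k : ℕ, p ^ k • x = 0) → p • x = 0 := by
  constructor
  · have hex : ∀ f : ι → {T : M // p • T = 0}, ∃ d : G → M, RC L.act p L.U I N H R d ∧ (∀ J ∈ L.D, Tr L.act N J d) ∧
        ∀ w, d (τ w) = (f w).1 := fun f => rc_fun S L.D hE (fun w => (f w).1) (fun w => (f w).2)
    choose d hd hJ hf using hex
    obtain ⟨Φ, hΦ⟩ : ∃ Φ : (ι → {T : M // p • T = 0}) → PP p (L.res N).Sha,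
        ∀ f, (Φ f).1 = (L.res N).cl ⟨fun n : N => d f n, u10_isZ S (hd f) (hJ f)⟩ :=
      ⟨fun f => ⟨(L.res N).cl ⟨fun n : N => d f n, u10_isZ S (hd f) (hJ f)⟩, 1, by
        rw [pow_one]
        exact u11_kil S (hd f) (hJ f)⟩, fun f => rfl⟩
    have hbij : Function.Bijective Φ := by
      constructor
      · intro f f' hff
        have h1 := congrArg Subtype.val hff
        rw [hΦ, hΦ] at h1
        obtain ⟨P, hP⟩ := ((L.res N).cl_eq _ _).1 h1
        funext w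
        have h2 := rc_inj S T (d f - d f') (rc_sub S (hd f) (hd f')) P (fun s hs => by
          have h3 : d f s = d f' s + (L.act s P - P) := hP ⟨s, hs⟩
          rw [Pi.sub_apply, h3, add_sub_cancel_left]) w
        rw [Pi.sub_apply, hf, hf, sub_eq_zero] at h2
        exact Subtype.ext h2
      · intro x
        obtain ⟨d0, hd0, hJ0, hx⟩ := u10_surj S T hI hE x.1 x.2
        refine ⟨fun w => ⟨d0 (τ w), hd0.kil (τ w) (T.mem w)⟩, Subtype.ext ?_⟩
        rw [hΦ, hx]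
        obtain ⟨T₀, -, hT₀⟩ := rc_zero S T _ (rc_sub S (hd fun w => ⟨d0 (τ w), hd0.kil (τ w) (T.mem w)⟩) hd0) (fun w => by
          rw [Pi.sub_apply, hf, sub_self])
        refine ((L.res N).cl_eq _ _).2 ⟨T₀, fun g => ?_⟩
        have h4 := hT₀ g.1 (S.hNH g.2)
        rw [Pi.sub_apply, sub_eq_iff_eq_add] at h4
        rw [L.res_act, add_comm]
        exact h4
    rw [← Nat.card_congr (Equiv.ofBijective Φ hbij), Nat.card_fun]
  · intro x hx
    obtain ⟨d0, hd0, hJ0, rfl⟩ := u10_surj S T hI hE x hx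
    exact u11_kil S hd0 hJ0

end H13T
end
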