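import Mathlib
import Pool.Agent.Lib.H1M.PP2.M007
import Pool.Agent.Lib.H1M.PP2.M031
import Pool.Agent.Lib.H1M.PP2.M038
import Pool.Agent.Lib.H1M.PP2.M051
import Pool.Agent.Lib.H1M.PP2.M060
import Pool.Agent.Lib.H1M.PP2.M082
import Pool.Agent.Lib.H1M.PP2.M083
import Pool.Agent.Lib.H1M.PP2.M101

/-! Merged copies (to shorten the build) of Lib.H35L.X1, Lib.H35L.X2, Lib.H35L.C5, Lib.H35L.X5, Lib.H35L.K0, Lib.H35L.K1, Lib.H35L.K2, Lib.H35L.K3, Lib.H35L.FR, Lib.H35L.S0A, Lib.H35L.X5T. -/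

-- from Lib.H35L.X1
section

/-! # H35L, chunk X1 (M): the Galois character modulo p^k -/

open NumberField IsDedekindDomain WeierstrassCurve

namespace H35L

open H55P (IQ Pt ac Inert Dec Nm)
open H35P (WAB Ker tt)
open H55K (Tor CMA Dta GV ak)

variable {F : Type} [Field F] [NumberField F] [IQ F] {A B : F} {Om : ℂ} {Ω : Type} [Field Ω] [DecidableEq Ω]
  [Algebra F Ω] [IsAlgClosure F Ω] {j : Ω →+* ℂ} {act : 𝓞 F →+* AddMonoid.End (Pt (WAB A B) Ω)} {mo : Ideal (𝓞 F)}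
  {ψ : Ideal (𝓞 F) →*₀ 𝓞 F} {p : ℕ}

/-- Chunk X1 (S). CMA.gal. -/
theorem cm (dta : Dta A B Om j act mo ψ p) : Cm act := by
  exact dta.cma.gal

omit [NumberField F] [IQ F] [IsAlgClosure F Ω] in
theorem x1_smul (k : ℕ) (T : PM act) : ((p : 𝓞 F) ^ k) • T = p ^ k • T := by
  rw [← Nat.cast_pow, Nat.cast_smul_eq_nsmul]

/-- Chunk X1 (S/M). The points killed by p^k are generated by one point: CMA.gen for b = p^k (act (n : 𝓞 F) P = n P: map_natCast). -/
theorem tor_gen (dta : Dta A B Om j act mo ψ p) (k : ℕ) : ∃ T₀ : PM act, p ^ k • T₀ = 0 ∧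
    (∀ T : PM act, p ^ k • T = 0 → ∃ a : 𝓞 F, T = a • T₀) ∧ ∀ a : 𝓞 F, a • T₀ = 0 ↔ ((p : 𝓞 F) ^ k) ∣ a := by
  have hp : ((p : 𝓞 F)) ^ k ≠ 0 := pow_ne_zero _ (by exact_mod_cast dta.prime.ne_zero)
  obtain ⟨T₀, h0, h1, h2, -⟩ := dta.cma.gen _ hp
  exact ⟨T₀, (x1_smul (act := act) k T₀).symm.trans h0, fun T hT => h1 T ((x1_smul (act := act) k T).trans hT), h2⟩

/-- Chunk X1 (S/M). aM s T₀ is killed by p^k, so it is a T₀, and aM s (b T₀) = b a T₀. a is prime to p if k > 0: T₀ = aM s^-1 aM s T₀ and aM s^-1 T₀ = a' T₀, so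
p^k divides a a' - 1 (for k = 0 take a = 1). -/
theorem ch_exists (dta : Dta A B Om j act mo ψ p) (k : ℕ) (s : Ω ≃ₐ[F] Ω) :
    ∃ a : 𝓞 F, Ch act p k s a ∧ IsCoprime a (p : 𝓞 F) := by
  have hc := cm dta
  obtain ⟨T₀, h0, h1, h2⟩ := tor_gen dta k
  have key : ∀ t : Ω ≃ₐ[F] Ω, ∃ a : 𝓞 F, aM act t T₀ = a • T₀ := by
    intro t
    refine h1 _ ?_
    rw [← map_nsmul, h0, map_zero]
  rcases Nat.eq_zero_or_pos k with hk | hk
  · subst hk
    refine ⟨1, fun T hT => ?_, isCoprime_one_left⟩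
    rw [pow_zero, one_smul] at hT
    rw [hT, map_zero, smul_zero]
  · obtain ⟨a, ha⟩ := key s
    obtain ⟨a', ha'⟩ := key s⁻¹
    refine ⟨a, fun T hT => ?_, ?_⟩
    · obtain ⟨b, rfl⟩ := h1 T hT
      rw [hc, ha, smul_comm]
    · have h3 : (a' * a - 1) • T₀ = 0 := by
        have h4 := aM_inv act s T₀
        rw [ha', hc, ha, ← mul_smul] at h4
        rw [sub_smul, h4, one_smul, sub_self]
      obtain ⟨c, hc'⟩ := (dvd_pow_self (p : 𝓞 F) hk.ne').trans ((h2 _).1 h3)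
      refine ⟨a', -c, ?_⟩
      linear_combination hc'

/-- Chunk X1 (S). -/
theorem ch_uniq (dta : Dta A B Om j act mo ψ p) {k : ℕ} {s : Ω ≃ₐ[F] Ω} {a b : 𝓞 F} (ha : Ch act p k s a) (hb : Ch act p k s b) :
    ((p : 𝓞 F) ^ k) ∣ a - b := by
  obtain ⟨T₀, h0, h1, h2⟩ := tor_gen dta k
  refine (h2 _).1 ?_
  rw [sub_smul, ← ha T₀ h0, ← hb T₀ h0, sub_self]

omit [IsAlgClosure F Ω] in
/-- Chunk X1 (S). -/
theorem ch_mul (hc : Cm act) {k : ℕ} {s t : Ω ≃ₐ[F] Ω} {a b : 𝓞 F} (ha : Ch act p k s a) (hb : Ch act p k t b) :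
    Ch act p k (s * t) (a * b) := by
  intro T hT
  rw [aM_mul, hb T hT, hc, ha T hT, ← mul_smul, mul_comm]

omit [IsAlgClosure F Ω] in
/-- Chunk X1 (S). -/
theorem ch_congr {k : ℕ} {s : Ω ≃ₐ[F] Ω} {a b : 𝓞 F} (ha : Ch act p k s a) (h : ((p : 𝓞 F) ^ k) ∣ a - b) :
    Ch act p k s b := by
  intro T hT
  obtain ⟨c, hc⟩ := h
  have h1 : a • T - b • T = 0 := by
    rw [← sub_smul, hc, mul_comm, mul_smul, x1_smul, hT, smul_zero]
  rw [ha T hT]
  exact sub_eq_zero.1 h1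

omit [NumberField F] [IQ F] [IsAlgClosure F Ω] in
/-- Chunk X1 (S). -/
theorem ch_mono {k l : ℕ} (hkl : k ≤ l) {s : Ω ≃ₐ[F] Ω} {a : 𝓞 F} (ha : Ch act p l s a) : Ch act p k s a := by
  intro T hT
  refine ha T ?_
  obtain ⟨m, rfl⟩ := Nat.exists_eq_add_of_le hkl
  rw [pow_add, mul_comm, mul_smul, hT, smul_zero]

omit [NumberField F] [IQ F] [IsAlgClosure F Ω] in
/-- Chunk X1 (S). -/
theorem fa_iff {s : Ω ≃ₐ[F] Ω} : FA act p s ↔ ∀ k, Ch act p k s 1 := by
  constructor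
  · intro h k T hT
    rw [h T ⟨k, hT⟩, one_smul]
  · rintro h P ⟨k, hk⟩
    rw [h k P hk, one_smul]

/-- Chunk X1 (S/M). The Galois group acts on the points of order a power of p through an abelian group (ch_exists, aM s and aM t commute on every torsion point). -/
theorem fa_comm (dta : Dta A B Om j act mo ψ p) (s t : Ω ≃ₐ[F] Ω) : FA act p (s * t * s⁻¹ * t⁻¹) := by
  have hc := cm dta
  rintro P ⟨k, hk⟩
  obtain ⟨a, ha, -⟩ := ch_exists dta k s
  obtain ⟨b, hb, -⟩ := ch_exists dta k t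
  have h1 := ch_mul hc ha hb
  have h2 := ch_mul hc hb ha
  have hQ : p ^ k • aM act (s⁻¹ * t⁻¹) P = 0 := by rw [← map_nsmul, hk, map_zero]
  have h3 : aM act (s * t) (aM act (s⁻¹ * t⁻¹) P) = aM act (t * s) (aM act (s⁻¹ * t⁻¹) P) := by
    rw [h1 _ hQ, h2 _ hQ, mul_comm]
  rw [← aM_mul, ← aM_mul] at h3
  have e1 : s * t * s⁻¹ * t⁻¹ = s * t * (s⁻¹ * t⁻¹) := by group
  have e2 : t * s * (s⁻¹ * t⁻¹) = 1 := by group
  rw [e1, h3, e2, aM_one]

end H35L
end

-- from Lib.H35L.X2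
section

/-! # H35L, chunk X2 (M/L): the cyclotomic character is the norm of the Galois character -/

open NumberField IsDedekindDomain WeierstrassCurve

namespace H35L

open H55P (IQ Pt ac Inert Dec Nm)
open H35P (WAB Ker tt)
open H55K (Tor CMA Dta GV ak)

variable {F : Type} [Field F] [NumberField F] [IQ F] {A B : F} {Om : ℂ} {Ω : Type} [Field Ω] [DecidableEq Ω]
  [Algebra F Ω] [IsAlgClosure F Ω] {j : Ω →+* ℂ} {act : 𝓞 F →+* AddMonoid.End (Pt (WAB A B) Ω)} {mo : Ideal (𝓞 F)}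
  {ψ : Ideal (𝓞 F) →*₀ 𝓞 F} {p : ℕ}

omit [NumberField F] [IQ F] [DecidableEq Ω] [IsAlgClosure F Ω] in
/-- Roots of unity at a Frobenius element. -/
theorem x2_zeta {n : ℕ} (hn : n ≠ 0) {ζ : Ω} (hζ : ζ ^ n = 1) (V : ValuationSubring Ω)
    (hV : ¬ V.valuation (n : Ω) < 1) (q : ℕ) (s : Ω ≃ₐ[F] Ω)
    (hs : ∀ x ∈ V, V.valuation (s x - x ^ q) < 1) : s ζ = ζ ^ q := by
  have hζ0 : ζ ≠ 0 := by
    rintro rfl
    rw [zero_pow hn] at hζ
    exact zero_ne_one hζ
  have hz1 : V.valuation ζ = 1 := by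
    have h1 : V.valuation ζ ^ n = 1 := by rw [← map_pow, hζ, map_one]
    exact (pow_eq_one_iff_of_nonneg zero_le hn).1 h1
  have hzV : ζ ∈ V := (V.valuation_le_one_iff ζ).1 hz1.le
  by_contra hne
  have hz0 : ζ ^ q ≠ 0 := pow_ne_zero _ hζ0
  let ξ : Ω := s ζ / ζ ^ q
  have hξ1 : ξ ≠ 1 := fun h => hne ((div_eq_one_iff_eq hz0).1 h)
  have hξl : ξ ^ n = 1 := by
    show (s ζ / ζ ^ q) ^ n = 1
    rw [div_pow, ← map_pow, hζ, map_one, ← pow_mul, mul_comm, pow_mul, hζ, one_pow, div_one]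
  have hξv : V.valuation (ξ - 1) < 1 := by
    have h1 : ξ - 1 = (s ζ - ζ ^ q) / ζ ^ q := by
      show s ζ / ζ ^ q - 1 = _
      field_simp
    rw [h1, map_div₀, map_pow, hz1, one_pow, div_one]
    exact hs ζ hzV
  have hξV : ξ ∈ V := by
    have h1 : ξ - 1 ∈ V := (V.valuation_le_one_iff _).1 hξv.le
    have h2 := V.add_mem _ _ h1 V.one_mem
    rwa [sub_add_cancel] at h2
  let x : V := ⟨ξ, hξV⟩
  have hr : IsLocalRing.residue V x = 1 := by
    have h1 : x - 1 ∈ IsLocalRing.maximalIdeal V := by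
      rw [ValuationSubring.valuation_lt_one_iff]
      exact hξv
    have h2 := (IsLocalRing.residue_eq_zero_iff _).2 h1
    rw [map_sub, map_one, sub_eq_zero] at h2
    exact h2
  have hsum : ∑ i ∈ Finset.range n, x ^ i = 0 := by
    apply Subtype.ext
    have h1 := geom_sum_mul ξ n
    rw [hξl, sub_self] at h1
    have h2 := (mul_eq_zero.1 h1).resolve_right (sub_ne_zero.2 hξ1)
    rw [ZeroMemClass.coe_zero, ← h2]
    push_cast
    rfl
  have h1 : IsLocalRing.residue V (n : V) = 0 := by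
    have h2 := congrArg (IsLocalRing.residue V) hsum
    rw [map_sum, map_zero] at h2
    simp only [map_pow, hr, one_pow, Finset.sum_const, Finset.card_range, nsmul_eq_mul, mul_one] at h2
    rw [map_natCast]
    exact h2
  apply hV
  have h2 := (IsLocalRing.residue_eq_zero_iff _).1 h1
  have h4 := (ValuationSubring.valuation_lt_one_iff V (n : V)).1 h2
  exact h4

theorem x2_nat_dvd {n : ℕ} {m : ℤ} (h : (n : 𝓞 F) ∣ (m : 𝓞 F)) : (n : ℤ) ∣ m := by
  have h1 : ∀ m' : ℕ, (n : 𝓞 F) ∣ (m' : 𝓞 F) → n ∣ m' := by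
    rintro m' ⟨x, hx⟩
    have h2 := congrArg Nm hx
    rw [H55K.Nm_mul, H55K.Nm_nat, H55K.Nm_nat] at h2
    exact (Nat.pow_dvd_pow_iff two_ne_zero).1 ⟨_, h2⟩
  rcases Int.natAbs_eq m with h2 | h2
  · rw [h2] at h ⊢
    rw [Int.cast_natCast] at h
    exact_mod_cast h1 _ h
  · rw [h2] at h ⊢
    rw [Int.cast_neg, Int.cast_natCast, dvd_neg] at h
    rw [dvd_neg]
    exact_mod_cast h1 _ h

/-- The norm of the Galois character is the cyclotomic character. -/
theorem x2_char (dta : Dta A B Om j act mo ψ p) {k : ℕ} (hk : 0 < k) {ζ : Ω} (hζ : IsPrimitiveRoot ζ (p ^ k))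
    {s : Ω ≃ₐ[F] Ω} {a : 𝓞 F} (ha : Ch act p k s a) {c : ℕ} (hc : s ζ = ζ ^ c) :
    (p : 𝓞 F) ^ k ∣ ((Nm a : ℕ) : 𝓞 F) - (c : 𝓞 F) := by
  classical
  have hA := dta.cma
  have hp := dta.prime
  have hpk : p ^ k ≠ 0 := pow_ne_zero _ hp.ne_zero
  have hac : IsAlgClosed Ω := IsAlgClosure.isAlgClosed F
  have halg : Algebra.IsAlgebraic F Ω := IsAlgClosure.isAlgebraic
  have hcm := cm dta
  obtain ⟨T₀, h0, hg, hz⟩ := tor_gen dta k
  have hT0 : T₀ ≠ 0 := by
    intro h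
    have h1 : ((p : 𝓞 F) ^ k) ∣ 1 := (hz 1).1 (by rw [h, smul_zero])
    have h2 : ((p ^ k : ℕ) : 𝓞 F) ∣ ((1 : ℤ) : 𝓞 F) := by
      push_cast
      exact h1
    have h3 := x2_nat_dvd h2
    have h4 : p ^ k = 1 := by
      have h5 : (p ^ k) ∣ 1 := by exact_mod_cast h3
      exact Nat.dvd_one.1 h5
    have h5 := Nat.one_lt_pow hk.ne' hp.one_lt
    omega
  have hex : ∀ t : Ω ≃ₐ[F] Ω, ∃ e : 𝓞 F × ℕ, aM act t T₀ = e.1 • T₀ ∧ t ζ = ζ ^ e.2 := by
    intro t
    obtain ⟨x, hx⟩ := hg (aM act t T₀) (by rw [← map_nsmul, h0, map_zero])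
    have hn0 : NeZero (p ^ k) := ⟨hpk⟩
    have h1 : (t ζ) ^ (p ^ k) = 1 := by rw [← map_pow, hζ.pow_eq_one, map_one]
    obtain ⟨i, _, hi⟩ := hζ.eq_pow_of_pow_eq_one h1
    exact ⟨⟨x, i⟩, hx, hi.symm⟩
  choose e he using hex
  let mk : 𝓞 F →+* 𝓞 F ⧸ Ideal.span {(p : 𝓞 F) ^ k} := Ideal.Quotient.mk (Ideal.span {(p : 𝓞 F) ^ k})
  have hmk : ∀ x y : 𝓞 F, mk x = mk y ↔ (p : 𝓞 F) ^ k ∣ x - y := by
    intro x y
    rw [← Ideal.mem_span_singleton]
    exact Ideal.Quotient.mk_eq_mk_iff_sub_mem _ _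
  have uniq1 : ∀ (t : Ω ≃ₐ[F] Ω) (x : 𝓞 F), aM act t T₀ = x • T₀ →
      mk ((Nm x : ℕ) : 𝓞 F) = mk ((Nm (e t).1 : ℕ) : 𝓞 F) := by
    intro t x hx
    have h1 : (p : 𝓞 F) ^ k ∣ x - (e t).1 := by
      rw [← hz, sub_smul, ← hx, ← (he t).1, sub_self]
    have h2 : (p : 𝓞 F) ^ k ∣ H55K.cj x - H55K.cj (e t).1 := by
      obtain ⟨y, hy⟩ := h1
      refine ⟨H55K.cj y, ?_⟩
      rw [← map_sub, hy, map_mul, map_pow, H55K.cj_nat]
    rw [← H55K.mul_cj, ← H55K.mul_cj, map_mul mk, map_mul mk, (hmk _ _).2 h1, (hmk _ _).2 h2]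
  have uniq2 : ∀ (t : Ω ≃ₐ[F] Ω) (n : ℕ), t ζ = ζ ^ n → mk (n : 𝓞 F) = mk ((e t).2 : 𝓞 F) := by
    intro t n hn
    have h1 : ζ ^ n = ζ ^ (e t).2 := by rw [← hn, (he t).2]
    have h2 : n ≡ (e t).2 [MOD p ^ k] := by
      rw [← pow_mod_orderOf, ← pow_mod_orderOf ζ (e t).2, ← hζ.eq_orderOf] at h1
      exact hζ.pow_inj (Nat.mod_lt _ (Nat.pos_of_ne_zero hpk)) (Nat.mod_lt _ (Nat.pos_of_ne_zero hpk)) h1
    rw [hmk]
    have h4 : ((p ^ k : ℕ) : ℤ) ∣ ((n : ℤ) - ((e t).2 : ℤ)) := (Nat.modEq_iff_dvd.1 h2.symm)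
    obtain ⟨m, hm⟩ := h4
    refine ⟨(m : 𝓞 F), ?_⟩
    have h6 := congrArg (fun z : ℤ => (z : 𝓞 F)) hm
    push_cast at h6
    exact h6
  let D : (Ω ≃ₐ[F] Ω) →* (𝓞 F ⧸ Ideal.span {(p : 𝓞 F) ^ k}) :=
    { toFun := fun t => mk ((Nm (e t).1 : ℕ) : 𝓞 F)
      map_one' := by
        rw [← uniq1 1 1 (by rw [aM_one, one_smul]), ← H55K.mul_cj]
        simp
      map_mul' := fun t u => by
        rw [← uniq1 (t * u) ((e u).1 * (e t).1)
          (by rw [aM_mul, (he u).1, hcm, (he t).1, ← mul_smul]), ← map_mul, H55K.Nm_mul, mul_comm]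
        congr 1
        push_cast
        rfl }
  let C : (Ω ≃ₐ[F] Ω) →* (𝓞 F ⧸ Ideal.span {(p : 𝓞 F) ^ k}) :=
    { toFun := fun t => mk ((e t).2 : 𝓞 F)
      map_one' := by
        rw [← uniq2 1 1 (by rw [pow_one]; rfl)]
        simp
      map_mul' := fun t u => by
        rw [← uniq2 (t * u) ((e t).2 * (e u).2) (by
          rw [AlgEquiv.mul_apply, (he u).2, map_pow, (he t).2, pow_mul]), ← map_mul]
        congr 1
        push_cast
        rfl }
  have hH : ∀ (t : Ω ≃ₐ[F] Ω) (x : 𝓞 F) (n : ℕ), aM act t T₀ = x • T₀ →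
      t ζ = ζ ^ n → (t ∈ MonoidHom.eqLocus D C ↔ (p : 𝓞 F) ^ k ∣ ((Nm x : ℕ) : 𝓞 F) - (n : 𝓞 F)) := by
    intro t x n hx hn
    rw [← hmk, uniq1 t x hx, uniq2 t n hn]
    exact Iff.rfl
  have key : MonoidHom.eqLocus D C = ⊤ := by
    have hint : ∀ x : Ω, IsIntegral F x := fun x => (Algebra.IsAlgebraic.isAlgebraic x).isIntegral
    let A₁ : Set Ω := {H55K.xc (T₀ : Pt (WAB A B) Ω), H55K.yc (T₀ : Pt (WAB A B) Ω), ζ}
    have hAf : A₁.Finite := Set.toFinite A₁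
    have hAf' : Finite A₁ := hAf
    have hLf : FiniteDimensional F (IntermediateField.adjoin F A₁) :=
      IntermediateField.finiteDimensional_adjoin fun x _ => hint x
    obtain ⟨S₀, hS₀, hfr⟩ := dta.frob
    refine H13S.PA1_top (F₀ := F) (MonoidHom.eqLocus D C) ?_ (IntermediateField.adjoin F A₁) ?_
      (S₀ ∪ {v | (p : 𝓞 F) ∈ v.asIdeal} ∪ {v | mo ≤ v.asIdeal}) ?_ ?_
    · constructor
      intro t ht g
      show D (g * t * g⁻¹) = C (g * t * g⁻¹)
      have h1 : D t = C t := ht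
      rw [map_mul, map_mul, map_mul, map_mul, mul_right_comm, mul_right_comm (C g), h1, ← map_mul,
        ← map_mul, mul_inv_cancel, map_one, map_one]
    · intro t ht
      have hfix : ∀ x ∈ A₁, t x = x := fun x hx =>
        ht ⟨x, IntermediateField.subset_adjoin F A₁ hx⟩
      have e1 : ac (WAB A B) t (T₀ : Pt (WAB A B) Ω) = (T₀ : Pt (WAB A B) Ω) := by
        refine H55K.S.pt_ext (H55K.S.ac_ne t hT0) hT0 ?_ ?_
        · exact (H55K.S.xc_ac (W := WAB A B) t (T₀ : Pt (WAB A B) Ω)).trans (hfix _ (by simp [A₁]))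
        · exact (H55K.S.yc_ac (W := WAB A B) t (T₀ : Pt (WAB A B) Ω)).trans (hfix _ (by simp [A₁]))
      have e1' : aM act t T₀ = (1 : 𝓞 F) • T₀ := by
        rw [one_smul]
        exact e1
      rw [hH t 1 1 e1' (by rw [pow_one]; exact hfix _ (by simp [A₁])), ← H55K.mul_cj]
      simp
    · have hf : ∀ n : ℕ, n ≠ 0 → {v : HeightOneSpectrum (𝓞 F) | (n : 𝓞 F) ∈ v.asIdeal}.Finite := by
        intro n hn
        have h1 : Ideal.span {(n : 𝓞 F)} ≠ 0 := by
          rw [Ideal.zero_eq_bot, Ne, Ideal.span_singleton_eq_bot]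
          exact Nat.cast_ne_zero.2 hn
        refine (Ideal.finite_factors h1).subset ?_
        intro v hv
        exact Ideal.dvd_span_singleton.2 hv
      have hm : {v : HeightOneSpectrum (𝓞 F) | mo ≤ v.asIdeal}.Finite := by
        refine (Ideal.finite_factors dta.hecke.ne).subset ?_
        intro v hv
        exact Ideal.dvd_iff_le.2 hv
      exact (hS₀.union (hf p hp.ne_zero)).union hm
    · intro v hv hq V hV t ht
      rw [Set.mem_union, Set.mem_union, not_or, not_or] at hv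
      obtain ⟨⟨hvS, hvl⟩, hvm⟩ := hv
      change (p : 𝓞 F) ∉ v.asIdeal at hvl
      change ¬ mo ≤ v.asIdeal at hvm
      have hcop : IsCoprime v.asIdeal mo := by
        rw [Ideal.isCoprime_iff_sup_eq]
        exact v.isMaximal.1.2 _ (left_lt_sup.2 hvm)
      have hspan := dta.hecke.gen v.asIdeal hcop
      have hNm : Nm (ψ v.asIdeal) = Ideal.absNorm v.asIdeal := by
        unfold Nm
        rw [hspan]
      have hVl : ¬ V.valuation (p : Ω) < 1 := by
        intro hlt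
        have h1 : Ideal.span {(p : 𝓞 F)} ⊔ v.asIdeal = ⊤ := by
          rw [sup_comm]
          refine v.isMaximal.1.2 _ (left_lt_sup.2 fun h => hvl (h (Ideal.mem_span_singleton_self _)))
        have h2 : (1 : 𝓞 F) ∈ Ideal.span {(p : 𝓞 F)} ⊔ v.asIdeal := by
          rw [h1]
          exact Submodule.mem_top
        obtain ⟨x, hx, y, hy, hxy⟩ := Submodule.mem_sup.1 h2
        obtain ⟨z, rfl⟩ := Ideal.mem_span_singleton.1 hx
        have h3 : H55K.S.vo V ((p : 𝓞 F) * z) < 1 := by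
          rw [H55K.S.vo_mul, H55K.S.vo_nat]
          exact lt_of_le_of_lt (mul_le_of_le_one_right' (H55K.S.vo_le V z)) hlt
        have h4 := H55K.S.vo_add V h3 (hV y hy)
        rw [hxy, H55K.S.vo_one] at h4
        exact lt_irrefl _ h4
      have hV1 : V.valuation (p : Ω) = 1 := by
        refine le_antisymm ?_ (not_lt.1 hVl)
        rw [← H55K.S.vo_nat (F := F)]
        exact H55K.S.vo_le V _
      have hV2 : V.valuation ((p ^ k : ℕ) : Ω) = 1 := by
        rw [Nat.cast_pow, map_pow, hV1, one_pow]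
      have f1 := hfr v hvS hq V hV t ht (p ^ k) hV2 (T₀ : Pt (WAB A B) Ω) h0
      have f3 := x2_zeta hpk hζ.pow_eq_one V (by rw [hV2]; exact lt_irrefl _) _ t ht
      rw [hH t _ _ f1 f3, hNm, sub_self]
      exact dvd_zero _
  have h1 : s ∈ MonoidHom.eqLocus D C := by
    rw [key]
    exact Subgroup.mem_top s
  exact (hH s a c (ha T₀ h0) hc).1 h1

theorem x2_prim (dta : Dta A B Om j act mo ψ p) (k : ℕ) : ∃ ζ : Ω, IsPrimitiveRoot ζ (p ^ k) := by
  have hac : IsAlgClosed Ω := IsAlgClosure.isAlgClosed F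
  have hchar : CharZero Ω := charZero_of_injective_algebraMap (algebraMap F Ω).injective
  have hn0 : NeZero (p ^ k) := ⟨pow_ne_zero _ dta.prime.ne_zero⟩
  have hn1 : NeZero ((p ^ k : ℕ) : Ω) := ⟨by exact_mod_cast pow_ne_zero _ dta.prime.ne_zero⟩
  exact HasEnoughRootsOfUnity.exists_primitiveRoot Ω (p ^ k)

theorem x2_pow {ζ : Ω} {n : ℕ} (hζ : IsPrimitiveRoot ζ n) (hn : 0 < n) {a b : ℕ} (h : ζ ^ a = ζ ^ b) : a ≡ b [MOD n] := by
  rw [← pow_mod_orderOf, ← pow_mod_orderOf ζ b, ← hζ.eq_orderOf] at h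
  exact hζ.pow_inj (Nat.mod_lt _ hn) (Nat.mod_lt _ hn) h

theorem x2_pow' {z : Ω} {n : ℕ} (hz : z ^ n = 1) {a b : ℕ} (h : a ≡ b [MOD n]) : z ^ a = z ^ b := by
  rw [pow_eq_pow_mod a hz, pow_eq_pow_mod b hz, h]

/-- Chunk X2 (M/L). s acts as a on the points killed by p^k; then s z = z^(Nm a) for the p^k-th roots of unity z. PORT of H55K.S.char_id (file Lib/H55K/SPA1.lean, 170 lines) from a
prime element pi to p^k: T₀ = T₀' = the generator of tor_gen, a = b, zeta a primitive p^k-th root of unity (k > 0), c with s zeta = zeta^c: p^k divides cj a * a - c = Nm a - c in 𝓞 F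
(mul_cj, cj (p : 𝓞 F) = p), so p^k divides Nm a - c in the integers (divide in 𝓞 F, ℤ is integrally closed: or Nm a - c = p^k x with x in 𝓞 F rational, hence in ℤ). PROOF of the divisibility: the elements s with
this property form a subgroup containing an open one (the two characters are homomorphisms); H13S.PA1_top reduces to Frobenius elements of degree one primes v not above p, prime to mo,
outside dta.frob: they act as ψ v on the points (dta.frob), as the (N v)-th power on the roots of unity (PA1_zeta is stated for a prime number l; the same proof for p^k), and Nm (ψ v) = N v. -/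
theorem ch_cyc (dta : Dta A B Om j act mo ψ p) {k : ℕ} {s : Ω ≃ₐ[F] Ω} {a : 𝓞 F} (ha : Ch act p k s a) (z : Ω)
    (hz : z ^ p ^ k = 1) : s z = z ^ Nm a := by
  rcases Nat.eq_zero_or_pos k with hk | hk
  · subst hk
    rw [pow_zero, pow_one] at hz
    rw [hz, map_one, one_pow]
  have hpk : p ^ k ≠ 0 := pow_ne_zero _ dta.prime.ne_zero
  have hn0 : NeZero (p ^ k) := ⟨hpk⟩
  obtain ⟨ζ, hζ⟩ := x2_prim dta k
  have h1 : (s ζ) ^ (p ^ k) = 1 := by rw [← map_pow, hζ.pow_eq_one, map_one]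
  obtain ⟨c, _, hc⟩ := hζ.eq_pow_of_pow_eq_one h1
  have h2 := x2_char dta hk hζ ha hc.symm
  have h3 : ((p ^ k : ℕ) : 𝓞 F) ∣ (((Nm a : ℤ) - (c : ℤ) : ℤ) : 𝓞 F) := by
    push_cast
    exact h2
  have h4 : c ≡ Nm a [MOD p ^ k] := Nat.modEq_iff_dvd.2 (x2_nat_dvd h3)
  obtain ⟨i, _, hi⟩ := hζ.eq_pow_of_pow_eq_one hz
  rw [← hi, map_pow, ← hc, ← pow_mul, ← pow_mul, mul_comm, pow_mul, pow_mul]
  exact x2_pow' (by rw [← pow_mul, mul_comm, pow_mul, hζ.pow_eq_one, one_pow]) h4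

/-- Chunk X2 (S). -/
theorem fa_root (dta : Dta A B Om j act mo ψ p) {s : Ω ≃ₐ[F] Ω} (hs : FA act p s) (k : ℕ) (z : Ω) (hz : z ^ p ^ k = 1) : s z = z := by
  have h1 := ch_cyc dta (fa_iff.1 hs k) z hz
  have h2 : Nm (1 : 𝓞 F) = 1 := by
    have h3 := H55K.Nm_nat (F := F) 1
    simpa using h3
  rw [h1, h2, pow_one]

/-- Chunk X2 (S). -/
theorem fa_gc (dta : Dta A B Om j act mo ψ p) {s : Ω ≃ₐ[F] Ω} (hs : FA act p s) (m : ℕ) : Gc p m s := by
  exact ⟨1, by rw [one_pow], fun z hz => by rw [fa_root dta hs _ z hz, pow_one]⟩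

/-- Chunk X2 (S/M). A primitive p^(n+1)-th root of unity exists in Ω; its powers z^a, z^b agree iff a = b modulo p^(n+1). -/
theorem gc_iff (dta : Dta A B Om j act mo ψ p) {n : ℕ} {s : Ω ≃ₐ[F] Ω} {a : 𝓞 F} (ha : Ch act p (n + 1) s a) :
    Gc p n s ↔ Nm a ^ (p - 1) ≡ 1 [MOD p ^ (n + 1)] := by
  constructor
  · rintro ⟨c, hc, h1⟩
    obtain ⟨ζ, hζ⟩ := x2_prim dta (n + 1)
    have h2 : ζ ^ Nm a = ζ ^ c := by
      rw [← ch_cyc dta ha ζ hζ.pow_eq_one, h1 ζ hζ.pow_eq_one]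
    exact ((x2_pow hζ (pow_pos dta.prime.pos _) h2).pow (p - 1)).trans hc
  · intro h
    exact ⟨Nm a, h, fun z hz => ch_cyc dta ha z hz⟩

end H35L
end

-- from Lib.H35L.C5
section

/-! # H35L, chunk C5 (M): cocycles that are coboundaries -/

open NumberField IsDedekindDomain WeierstrassCurve

namespace H35L

open H55P (IQ Pt ac Inert Dec Nm)
open H35P (WAB)
open H55K (CMA Dta)
open H35K (Lev)

variable {F : Type} [Field F] [NumberField F] [IQ F] {A B : F} {Om : ℂ} {Ω : Type} [Field Ω] [DecidableEq Ω]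
  [Algebra F Ω] [IsAlgClosure F Ω] {j : Ω →+* ℂ} {act : 𝓞 F →+* AddMonoid.End (Pt (WAB A B) Ω)} {mo : Ideal (𝓞 F)}
  {ψ : Ideal (𝓞 F) →*₀ 𝓞 F} {p : ℕ}

omit [NumberField F] [IQ F] [IsAlgClosure F Ω] in
theorem c5_tor (s : Ω ≃ₐ[F] Ω) {P : PM act} (h : ∃ k : ℕ, p ^ k • P = 0) : ∃ k : ℕ, p ^ k • aM act s P = 0 := by
  obtain ⟨k, hk⟩ := h
  exact ⟨k, by rw [← map_nsmul, hk, map_zero]⟩


omit [NumberField F] [IQ F] [IsAlgClosure F Ω] in
theorem c5_sub {P Q : PM act} (h : ∃ k : ℕ, p ^ k • P = 0) (h' : ∃ k : ℕ, p ^ k • Q = 0) : ∃ k : ℕ, p ^ k • (P - Q) = 0 := by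
  obtain ⟨k, hk⟩ := h
  obtain ⟨l, hl⟩ := h'
  refine ⟨k + l, ?_⟩
  rw [smul_sub, pow_add, mul_smul, mul_smul, smul_comm (p ^ k) (p ^ l) P, hk, hl, smul_zero, smul_zero, sub_zero]

theorem c5_comm (dta : Dta A B Om j act mo ψ p) (s t : Ω ≃ₐ[F] Ω) {P : PM act} (h : ∃ k : ℕ, p ^ k • P = 0) :
    aM act s (aM act t P) = aM act t (aM act s P) := by
  have h1 := fa_comm dta s t (aM act (t * s) P) (c5_tor (t * s) h)
  rw [← aM_mul] at h1
  have h2 : s * t * s⁻¹ * t⁻¹ * (t * s) = s * t := by group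
  rw [h2, aM_mul, aM_mul] at h1
  exact h1

/-- Chunk C5a (M). c a cocycle on the group G with values of order a power of p, sigma in G with sigma - 1 bijective, c zero on the commutators of sigma: c is a coboundary. PROOF. sigma s = [sigma, s] s sigma, the commutator acts trivially on the
values (fa_comm), so c(sigma s) = c(s sigma): c(sigma) + sigma c(s) = c(s) + s c(sigma). c(sigma) = sigma a - a (Tb.surj): (sigma - 1)(c(s) - (s a - a)) = 0 (s and sigma commute on a: fa_comm). If p^k kills c then p^k a = 0 (Tb.inj). -/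
theorem cob (dta : Dta A B Om j act mo ψ p) {G : Subgroup (Ω ≃ₐ[F] Ω)} {σ : Ω ≃ₐ[F] Ω} (hσ : σ ∈ G) (hb : Tb act p σ) {c : (Ω ≃ₐ[F] Ω) → PM act}
    (hm : ∀ s ∈ G, ∀ t ∈ G, c (s * t) = c s + aM act s (c t)) (ht : ∀ s ∈ G, ∃ k : ℕ, p ^ k • c s = 0)
    (h0 : ∀ s ∈ G, c (σ * s * σ⁻¹ * s⁻¹) = 0) :
    ∃ a : PM act, (∀ k : ℕ, (∀ s ∈ G, p ^ k • c s = 0) → p ^ k • a = 0) ∧ (∃ k : ℕ, p ^ k • a = 0) ∧ ∀ s ∈ G, c s = aM act s a - a := by
  obtain ⟨a, ha, h1⟩ := hb.surj (c σ) (ht σ hσ)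
  refine ⟨a, fun k hk => ?_, ha, fun s hs => ?_⟩
  · refine hb.inj _ ?_ ?_
    · obtain ⟨l, hl⟩ := ha
      exact ⟨l, by rw [smul_comm, hl, smul_zero]⟩
    · have h2 : p ^ k • (aM act σ a - a) = 0 := by rw [h1]; exact hk σ hσ
      rw [smul_sub, sub_eq_zero] at h2
      rw [map_nsmul]
      exact h2
  · have h2 : c (σ * s) = c (s * σ) := by
      have h3 := hm (σ * s * σ⁻¹ * s⁻¹) (mul_mem (mul_mem (mul_mem hσ hs) (inv_mem hσ)) (inv_mem hs)) (s * σ) (mul_mem hs hσ)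
      have h4 : σ * s * σ⁻¹ * s⁻¹ * (s * σ) = σ * s := by group
      rw [h4, h0 s hs, zero_add, fa_comm dta σ s _ (ht _ (mul_mem hs hσ))] at h3
      exact h3
    rw [hm σ hσ s hs, hm s hs σ hσ, ← h1] at h2
    have h5 : aM act s (aM act σ a - a) = aM act σ (aM act s a) - aM act s a := by
      rw [map_sub, c5_comm dta s σ ha]
    rw [h5] at h2
    have h6 : c s - (aM act s a - a) = 0 := by
      refine hb.inj _ (c5_sub (ht s hs) (c5_sub (c5_tor s ha) ha)) ?_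
      rw [map_sub, map_sub]
      have h7 : aM act σ (c s) = c s + (aM act σ (aM act s a) - aM act s a) - (aM act σ a - a) := by
        rw [← h2]
        abel
      rw [h7]
      abel
    exact sub_eq_zero.1 h6

/-- Chunk C5c (S). The group of level n has the same SH (fa_gc). -/
theorem sh_lg (dta : Dta A B Om j act mo ψ p) (G : Subgroup (Ω ≃ₐ[F] Ω)) (n : ℕ) (h : Ω ≃ₐ[F] Ω) :
    SH act (LG dta.prime G n) p h ↔ SH act G p h := by
  constructor
  · rintro ⟨h1, h2⟩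
    exact ⟨h1.1, h2⟩
  · rintro ⟨h1, h2⟩
    exact ⟨⟨h1, fa_gc dta h2 n⟩, h2⟩

end H35L
end

-- from Lib.H35L.X5
section

/-! # H35L, chunk X5 (S/M): elements s with s - 1 bijective -/

open NumberField IsDedekindDomain WeierstrassCurve

namespace H35L

open H55P (IQ Pt ac Inert Dec Nm)
open H35P (WAB Ker tt)
open H55K (Tor CMA Dta GV ak)

variable {F : Type} [Field F] [NumberField F] [IQ F] {A B : F} {Om : ℂ} {Ω : Type} [Field Ω] [DecidableEq Ω]
  [Algebra F Ω] [IsAlgClosure F Ω] {j : Ω →+* ℂ} {act : 𝓞 F →+* AddMonoid.End (Pt (WAB A B) Ω)} {mo : Ideal (𝓞 F)}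
  {ψ : Ideal (𝓞 F) →*₀ 𝓞 F} {p : ℕ}

omit [NumberField F] [IQ F] [IsAlgClosure F Ω] in
theorem x5_nat (k : ℕ) (P : PM act) : ((p : 𝓞 F) ^ k) • P = p ^ k • P := by
  rw [← Nat.cast_pow, Nat.cast_smul_eq_nsmul]

theorem x5_cop (dta : Dta A B Om j act mo ψ p) (hin : Prime (p : 𝓞 F)) {s : Ω ≃ₐ[F] Ω} {a : 𝓞 F}
    (ha : Ch act p 1 s a) (h : ¬ (p : 𝓞 F) ∣ a - 1) (k : ℕ) :
    ∃ b u v : 𝓞 F, Ch act p (k + 1) s b ∧ u * (b - 1) + v * (p : 𝓞 F) ^ (k + 1) = 1 := by
  obtain ⟨b, hb, _⟩ := ch_exists dta (k + 1) s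
  have hb1 : Ch act p 1 s b := ch_mono (by omega) hb
  have h1 : ((p : 𝓞 F) ^ 1) ∣ b - a := ch_uniq dta hb1 ha
  rw [pow_one] at h1
  have h2 : ¬ (p : 𝓞 F) ∣ b - 1 := by
    intro h3
    apply h
    have h4 := dvd_sub h3 h1
    rwa [show b - 1 - (b - a) = a - 1 by ring] at h4
  have h5 : IsCoprime (p : 𝓞 F) (b - 1) := (hin.irreducible.coprime_iff_not_dvd).2 h2
  have h6 : IsCoprime (b - 1) ((p : 𝓞 F) ^ (k + 1)) := h5.symm.pow_right
  obtain ⟨u, v, huv⟩ := h6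
  exact ⟨b, u, v, hb, huv⟩

/-- Chunk X5a (S/M). If s acts as a on the points killed by p and a - 1 is prime to p (p inert: p does not divide a - 1) then s - 1 is bijective on the points of order a power of p: on the points killed by p^k s acts as
a_k (ch_exists) with a_k = a modulo p (ch_mono, ch_uniq), u (a_k - 1) + v p^k = 1. -/
theorem tb_of_ch (dta : Dta A B Om j act mo ψ p) (hin : Prime (p : 𝓞 F)) {s : Ω ≃ₐ[F] Ω} {a : 𝓞 F} (ha : Ch act p 1 s a) (h : ¬ (p : 𝓞 F) ∣ a - 1) :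
    Tb act p s := by
  constructor
  · rintro P ⟨k, hk⟩ hP
    obtain ⟨b, u, v, hb, huv⟩ := x5_cop dta hin ha h k
    have hk1 : p ^ (k + 1) • P = 0 := by rw [pow_succ', mul_smul, hk, smul_zero]
    have h1 := hb P hk1
    rw [hP] at h1
    have h2 : (b - 1) • P = 0 := by rw [sub_smul, one_smul, ← h1, sub_self]
    have h3 : (u * (b - 1) + v * (p : 𝓞 F) ^ (k + 1)) • P = P := by rw [huv, one_smul]
    rw [← h3, add_smul, mul_smul, mul_smul, h2, x5_nat, hk1, smul_zero, smul_zero, add_zero]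
  · rintro P ⟨k, hk⟩
    obtain ⟨b, u, v, hb, huv⟩ := x5_cop dta hin ha h k
    have hk1 : p ^ (k + 1) • P = 0 := by rw [pow_succ', mul_smul, hk, smul_zero]
    have hQ : p ^ (k + 1) • (u • P) = 0 := by rw [smul_comm, hk1, smul_zero]
    refine ⟨u • P, ⟨k + 1, hQ⟩, ?_⟩
    rw [hb _ hQ]
    have h3 : (u * (b - 1) + v * (p : 𝓞 F) ^ (k + 1)) • P = P := by rw [huv, one_smul]
    rw [add_smul, mul_smul v, x5_nat, hk1, smul_zero, add_zero] at h3
    calc b • u • P - u • P = (u * (b - 1)) • P := by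
          rw [← mul_smul, ← sub_smul]
          congr 1
          ring
      _ = P := h3

/-- Chunk X5b (S). -/
theorem tb_of_ne (dta : Dta A B Om j act mo ψ p) (hin : Prime (p : 𝓞 F)) {s : Ω ≃ₐ[F] Ω} {T : PM act} (hT : p • T = 0) (h : aM act s T ≠ T) :
    Tb act p s := by
  obtain ⟨a, ha, _⟩ := ch_exists dta 1 s
  refine tb_of_ch dta hin ha ?_
  rintro ⟨c, hc⟩
  apply h
  have h1 := ha T (by rw [pow_one]; exact hT)
  rw [h1]
  have h2 : a = 1 + c * (p : 𝓞 F) := by linear_combination hc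
  have h3 : (p : 𝓞 F) • T = 0 := by rw [Nat.cast_smul_eq_nsmul, hT]
  rw [h2, add_smul, one_smul, mul_smul, h3, smul_zero, add_zero]

/-- Chunk X5c (S). V of residue characteristic not p, s in the inertia group fixing the points killed by p: s fixes all points of order a power of p. H55K.inert_fix with l = p, pi = p, n = p^k. -/
theorem fa_of_inert (dta : Dta A B Om j act mo ψ p) (hin : Prime (p : 𝓞 F)) {V : ValuationSubring Ω} (hV : V.valuation (p : Ω) = 1) {s : Ω ≃ₐ[F] Ω} (hs : Inert V s)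
    (h : ∀ T : PM act, p • T = 0 → aM act s T = T) : FA act p s := by
  rintro P ⟨k, hk⟩
  obtain ⟨Kg, u, hG⟩ := dta.gmod V
  refine H55K.inert_fix dta.cma dta.prime dta.five hin (dvd_refl _) hG hV s hs ?_ (p ^ k) ?_ P ?_
  · intro T hT
    have h1 : act (p : 𝓞 F) T = 0 := hT
    refine h T ?_
    have h2 : (p : 𝓞 F) • (show PM act from T) = 0 := h1
    rw [Nat.cast_smul_eq_nsmul] at h2
    exact h2
  · rw [Nat.cast_pow, map_pow, hV, one_pow]
  · have h1 : p ^ k • (aM act s P - P) = 0 := by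
      rw [smul_sub, ← map_nsmul, hk, map_zero, sub_self]
    exact h1

end H35L
end

-- from Lib.H35L.K0
section

/-! # H35L: Kummer classes (definitions) -/

open NumberField IsDedekindDomain WeierstrassCurve

namespace H35L

open H55P (IQ Pt ac Inert Dec Nm)
open H35P (WAB)
open H55K (CMA Dta)
open H35K (Lev)

section

variable {F : Type} [Field F] {A B : F} {Ω : Type} [Field Ω] [DecidableEq Ω] [Algebra F Ω]
  (act : 𝓞 F →+* AddMonoid.End (Pt (WAB A B) Ω))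

open Classical in
/-- A p^k-th root of u. -/
noncomputable def rt (p k : ℕ) (u : Ω) : Ω := if h : ∃ v, v ^ p ^ k = u then h.choose else 0

/-- A homomorphism from the roots of unity of order dividing p^k to the points (zero elsewhere). -/
structure IsT (p k : ℕ) (t : Ω → PM act) : Prop where
  mul : ∀ z w, z ^ p ^ k = 1 → w ^ p ^ k = 1 → t (z * w) = t z + t w
  out : ∀ z, z ^ p ^ k ≠ 1 → t z = 0

open Classical in
/-- The Kummer class of u and t on H. -/
noncomputable def kum (p k : ℕ) (H : (Ω ≃ₐ[F] Ω) → Prop) (u : Ω) (t : Ω → PM act) : (Ω ≃ₐ[F] Ω) → PM act :=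
  fun h => if H h then t (h (rt p k u) / rt p k u) else 0

/-- The conjugation by s. -/
noncomputable def cjL (hc : Cm act) (s : Ω ≃ₐ[F] Ω) : ((Ω ≃ₐ[F] Ω) → PM act) →ₗ[𝓞 F] ((Ω ≃ₐ[F] Ω) → PM act) where
  toFun f := fun h => aM act s (f (s⁻¹ * h * s))
  map_add' f g := by
    funext h
    exact map_add (aM act s) _ _
  map_smul' a f := by
    funext h
    exact hc s a (f (s⁻¹ * h * s))

theorem cjL_mul (hc : Cm act) (s t : Ω ≃ₐ[F] Ω) : cjL act hc (s * t) = cjL act hc s * cjL act hc t := by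
  apply LinearMap.ext
  intro f
  funext h
  show aM act (s * t) (f ((s * t)⁻¹ * h * (s * t))) = aM act s (aM act t (f (t⁻¹ * (s⁻¹ * h * s) * t)))
  rw [aM_mul, mul_inv_rev]
  simp only [mul_assoc]

theorem cjL_one (hc : Cm act) : cjL act hc 1 = 1 := by
  apply LinearMap.ext
  intro f
  funext h
  show aM act 1 (f (1⁻¹ * h * 1)) = f h
  rw [aM_one, inv_one, one_mul, mul_one]

/-- The action by conjugation. -/
noncomputable def cjR (hc : Cm act) : (Ω ≃ₐ[F] Ω) →* Module.End (𝓞 F) ((Ω ≃ₐ[F] Ω) → PM act) where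
  toFun := cjL act hc
  map_one' := cjL_one act hc
  map_mul' := cjL_mul act hc

/-- u is a unit of B. -/
structure IsU (B : IntermediateField F Ω) (u : Ω) : Prop where
  mem : u ∈ B
  ne : u ≠ 0
  int : IsIntegral ℤ u
  inv : IsIntegral ℤ u⁻¹

/-- The module of the Kummer classes of the units of B, on the elements of G acting trivially on the points of order a power of p. -/
noncomputable def KU (p k : ℕ) (G : Subgroup (Ω ≃ₐ[F] Ω)) (B : IntermediateField F Ω) : Submodule (𝓞 F) ((Ω ≃ₐ[F] Ω) → PM act) :=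
  Submodule.span (𝓞 F) {f | ∃ (u : Ω) (t : Ω → PM act), IsU B u ∧ IsT act p k t ∧ f = kum act p k (SH act G p) u t}

/-- The Kummer classes fixed by sigma. -/
noncomputable def XU (hc : Cm act) (p k : ℕ) (G : Subgroup (Ω ≃ₐ[F] Ω)) (B : IntermediateField F Ω) (σ : Ω ≃ₐ[F] Ω) :
    Submodule (𝓞 F) ((Ω ≃ₐ[F] Ω) → PM act) :=
  KU act p k G B ⊓ LinearMap.ker (cjL act hc σ - 1)

/-- B is the field of the points killed by p^K over the field of G. -/
def IsB (p K : ℕ) (G : Subgroup (Ω ≃ₐ[F] Ω)) (B : IntermediateField F Ω) : Prop :=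
  ∀ s, s ∈ B.fixingSubgroup ↔ s ∈ G ∧ Ch act p K s 1

/-- sigma acts on the points killed by p^K as a Teichmueller element a, a generator modulo p. -/
structure IsSig (p K : ℕ) (σ : Ω ≃ₐ[F] Ω) (a : 𝓞 F) : Prop where
  ch : Ch act p K σ a
  cop : IsCoprime a (p : 𝓞 F)
  pw : (p : 𝓞 F) ^ K ∣ a ^ (p ^ 2 - 1) - 1
  gen : ∀ i : ℕ, (p : 𝓞 F) ∣ a ^ i - 1 → (p ^ 2 - 1) ∣ i

end

end H35L
end

-- from Lib.H35L.K1
section

/-! # H35L, chunk K1 (M): Kummer classes are classes -/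

open NumberField IsDedekindDomain WeierstrassCurve

namespace H35L

open H55P (IQ Pt ac Inert Dec Nm)
open H35P (WAB)
open H55K (CMA Dta)
open H35K (Lev)

variable {F : Type} [Field F] [NumberField F] [IQ F] {A B : F} {Om : ℂ} {Ω : Type} [Field Ω] [DecidableEq Ω]
  [Algebra F Ω] [IsAlgClosure F Ω] {j : Ω →+* ℂ} {act : 𝓞 F →+* AddMonoid.End (Pt (WAB A B) Ω)} {mo : Ideal (𝓞 F)}
  {ψ : Ideal (𝓞 F) →*₀ 𝓞 F} {p : ℕ}

omit [NumberField F] [IQ F] [DecidableEq Ω] [IsAlgClosure F Ω] [Algebra F Ω] in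
/-- Roots of unity near one. -/
theorem k1_root {n : ℕ} {z : Ω} (hz : z ^ n = 1) (V : ValuationSubring Ω) (hV : ¬ V.valuation (n : Ω) < 1) (h : V.valuation (z - 1) < 1) :
    z = 1 := by
  by_contra hne
  have hzV : z ∈ V := by
    have h1 : z - 1 ∈ V := (V.valuation_le_one_iff _).1 h.le
    have h2 := V.add_mem _ _ h1 V.one_mem
    rwa [sub_add_cancel] at h2
  let x : V := ⟨z, hzV⟩
  have hr : IsLocalRing.residue V x = 1 := by
    have h1 : x - 1 ∈ IsLocalRing.maximalIdeal V := by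
      rw [ValuationSubring.valuation_lt_one_iff]
      exact h
    have h2 := (IsLocalRing.residue_eq_zero_iff _).2 h1
    rw [map_sub, map_one, sub_eq_zero] at h2
    exact h2
  have hsum : ∑ i ∈ Finset.range n, x ^ i = 0 := by
    apply Subtype.ext
    have h1 := geom_sum_mul z n
    rw [hz, sub_self] at h1
    have h2 := (mul_eq_zero.1 h1).resolve_right (sub_ne_zero.2 hne)
    rw [ZeroMemClass.coe_zero, ← h2]
    push_cast
    rfl
  have h1 : IsLocalRing.residue V (n : V) = 0 := by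
    have h2 := congrArg (IsLocalRing.residue V) hsum
    rw [map_sum, map_zero] at h2
    simp only [map_pow, hr, one_pow, Finset.sum_const, Finset.card_range, nsmul_eq_mul, mul_one] at h2
    rw [map_natCast]
    exact h2
  apply hV
  have h2 := (IsLocalRing.residue_eq_zero_iff _).1 h1
  exact (ValuationSubring.valuation_lt_one_iff V (n : V)).1 h2

omit [NumberField F] [IQ F] [IsAlgClosure F Ω] in
theorem k1_t1 {k : ℕ} {t : Ω → PM act} (ht : IsT act p k t) : t 1 = 0 := by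
  have h1 := ht.mul 1 1 (one_pow _) (one_pow _)
  rw [mul_one] at h1
  exact left_eq_add.mp h1

omit [NumberField F] [IQ F] [IsAlgClosure F Ω] in
theorem k1_pow {k : ℕ} {t : Ω → PM act} (ht : IsT act p k t) {z : Ω} (hz : z ^ p ^ k = 1) (i : ℕ) : t (z ^ i) = i • t z := by
  induction i with
  | zero => rw [pow_zero, zero_smul, k1_t1 ht]
  | succ i ih =>
    rw [pow_succ, ht.mul _ _ (by rw [← pow_mul, mul_comm, pow_mul, hz, one_pow]) hz, ih, succ_nsmul]

theorem k1_rt (F : Type) [Field F] {Ω : Type} [Field Ω] [Algebra F Ω] [IsAlgClosure F Ω] {p k : ℕ} (hp : p ≠ 0) (u : Ω) : ∃ v : Ω, v ^ p ^ k = u := by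
  haveI : IsAlgClosed Ω := IsAlgClosure.isAlgClosed F
  exact IsAlgClosed.exists_pow_nat_eq u (Nat.pos_of_ne_zero (pow_ne_zero k hp))

/-- Chunk K1a (S/M). For h in SH fixing u, any root v of u may be used: h v/v is a p^k-th root of unity, the same for all v (h fixes the roots of unity of order dividing p^k: fa_root). -/
theorem kum_eq (dta : Dta A B Om j act mo ψ p) {k : ℕ} {G : Subgroup (Ω ≃ₐ[F] Ω)} {u v : Ω} (hu : u ≠ 0) (hv : v ^ p ^ k = u) {t : Ω → PM act} (ht : IsT act p k t)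
    {h : Ω ≃ₐ[F] Ω} (hh : SH act G p h) (hhu : h u = u) : kum act p k (SH act G p) u t h = t (h v / v) ∧ (h v / v) ^ p ^ k = 1 := by
  have hp0 : p ≠ 0 := dta.prime.ne_zero
  have hpk : p ^ k ≠ 0 := pow_ne_zero k hp0
  have hex : ∃ v : Ω, v ^ p ^ k = u := ⟨v, hv⟩
  have hw : rt p k u ^ p ^ k = u := by
    rw [rt, dif_pos hex]
    exact hex.choose_spec
  have hw0 : rt p k u ≠ 0 := by
    intro h0
    rw [h0, zero_pow hpk] at hw
    exact hu hw.symm
  have hv0 : v ≠ 0 := by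
    intro h0
    rw [h0, zero_pow hpk] at hv
    exact hu hv.symm
  have h1 : (v / rt p k u) ^ p ^ k = 1 := by
    rw [div_pow, hv, hw, div_self hu]
  have h2 := fa_root dta hh.2 k _ h1
  rw [map_div₀] at h2
  have hhw : h (rt p k u) ≠ 0 := (map_ne_zero h).mpr hw0
  have h3 : h v / v = h (rt p k u) / rt p k u := by
    rw [div_eq_div_iff hv0 hw0]
    rw [div_eq_div_iff hhw hw0] at h2
    rw [h2]
    ring
  refine ⟨?_, ?_⟩
  · rw [h3]
    exact if_pos hh
  · rw [div_pow, ← map_pow, hv, hhu, div_self hu]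

/-- Chunk K1 (M). The Kummer class of a unit u fixed by all of SH is a homomorphism, continuous, unramified outside p. mul: h h' v/v = h(h' v/v) (h v/v), h fixes the root of unity h' v/v. tor: p^k t z = t (z^(p^k)) = t 1 = 0.
cont: the elements fixing F(v). unr: V(p) = 1, h in the inertia group of V: v is a unit of V (u and u^-1 are integral), z = h v/v, V(z - 1) < 1 and z^(p^k) = 1 imply z = 1 (z <> 1: prod over i of (1 - z^i)... : the order of z is p^j, j > 0; some power z' of z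
has order p, V(z' - 1) < 1, 1 + z' + ... + z'^(p-1) = 0 is p modulo the maximal ideal: contradiction, cf. H55K.S.PA1_zeta). -/
theorem kum_hm (dta : Dta A B Om j act mo ψ p) {k : ℕ} {G : Subgroup (Ω ≃ₐ[F] Ω)} {u : Ω} (hu : u ≠ 0) (hi : IsIntegral ℤ u) (hi' : IsIntegral ℤ u⁻¹)
    {t : Ω → PM act} (ht : IsT act p k t) (hfix : ∀ h, SH act G p h → h u = u) : IsHm act p (SH act G p) (GI p) (kum act p k (SH act G p) u t) := by
  have hp0 : p ≠ 0 := dta.prime.ne_zero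
  have hpk : p ^ k ≠ 0 := pow_ne_zero k hp0
  obtain ⟨v, hv⟩ := k1_rt F (k := k) hp0 u
  have hv0 : v ≠ 0 := by
    intro h0
    rw [h0, zero_pow hpk] at hv
    exact hu hv.symm
  have key : ∀ h, SH act G p h → kum act p k (SH act G p) u t h = t (h v / v) ∧ (h v / v) ^ p ^ k = 1 :=
    fun h hh => kum_eq dta hu hv ht hh (hfix h hh)
  have hSm : ∀ h, SH act G p h → ∀ h', SH act G p h' → SH act G p (h * h') := by
    intro h hh h' hh'
    refine ⟨G.mul_mem hh.1 hh'.1, fun P hP => ?_⟩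
    rw [aM_mul, hh'.2 P hP, hh.2 P hP]
  refine ⟨fun h hh => if_neg hh, ?_, ?_, ?_, ?_⟩
  · intro h hh h' hh'
    rw [(key _ (hSm h hh h' hh')).1, (key h hh).1, (key h' hh').1, add_comm, ← ht.mul _ _ (key h' hh').2 (key h hh).2]
    congr 1
    have h1 := fa_root dta hh.2 k _ (key h' hh').2
    rw [map_div₀] at h1
    have hhv : h v ≠ 0 := (map_ne_zero h).mpr hv0
    rw [div_eq_div_iff hhv hv0] at h1
    show h (h' v) / v = h' v / v * (h v / v)
    rw [div_mul_div_comm, div_eq_div_iff hv0 (mul_ne_zero hv0 hv0)]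
    linear_combination v * h1
  · intro h
    by_cases hh : SH act G p h
    · refine ⟨k, ?_⟩
      rw [(key h hh).1, ← k1_pow ht (key h hh).2, (key h hh).2, k1_t1 ht]
    · refine ⟨0, ?_⟩
      rw [show kum act p k (SH act G p) u t h = 0 from if_neg hh, smul_zero]
  · haveI : Algebra.IsAlgebraic F Ω := IsAlgClosure.isAlgebraic
    refine ⟨IntermediateField.adjoin F {v}, IntermediateField.adjoin.finiteDimensional (Algebra.IsAlgebraic.isAlgebraic v).isIntegral, ?_⟩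
    intro h hh hm
    have h1 : h v = v := (IntermediateField.mem_fixingSubgroup_iff _ h).1 hm v (IntermediateField.mem_adjoin_simple_self F v)
    rw [(key h hh).1, h1, div_self hv0, k1_t1 ht]
  · rintro h hh ⟨V, hVp, hI⟩
    have hint : ∀ x : Ω, IsIntegral ℤ x → V.valuation x ≤ 1 := by
      intro x hx
      rw [ValuationSubring.valuation_le_one_iff]
      have h1 : IsIntegral V x := hx.tower_top
      obtain ⟨y, hy⟩ := (IsIntegrallyClosed.isIntegral_iff (R := V) (K := Ω)).mp h1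
      rw [← hy]
      exact y.2
    have hVu : V.valuation u = 1 := by
      apply le_antisymm (hint u hi)
      have h1 := hint _ hi'
      rw [map_inv₀] at h1
      have h2 : V.valuation u ≠ 0 := (map_ne_zero _).mpr hu
      exact (inv_le_one₀ (zero_lt_iff.mpr h2)).mp h1
    have hVv : V.valuation v = 1 := by
      have h1 : V.valuation v ^ p ^ k = 1 := by rw [← map_pow, hv, hVu]
      exact (pow_eq_one_iff_of_nonneg zero_le hpk).1 h1
    have hvV : v ∈ V := (V.valuation_le_one_iff v).1 hVv.le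
    have h3 : V.valuation (h v / v - 1) < 1 := by
      have h4 : h v / v - 1 = (h v - v) / v := by
        field_simp
      rw [h4, map_div₀, hVv, div_one]
      exact hI v hvV
    have h5 : ¬ V.valuation ((p ^ k : ℕ) : Ω) < 1 := by
      rw [Nat.cast_pow, map_pow, hVp, one_pow]
      exact lt_irrefl _
    rw [(key h hh).1, k1_root (key h hh).2 V h5 h3, k1_t1 ht]

end H35L
end

-- from Lib.H35L.K2
section

/-! # H35L, chunk K2 (M): the algebra of Kummer classes -/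

open NumberField IsDedekindDomain WeierstrassCurve

namespace H35L

open H55P (IQ Pt ac Inert Dec Nm)
open H35P (WAB)
open H55K (CMA Dta)
open H35K (Lev)

variable {F : Type} [Field F] [NumberField F] [IQ F] {A B : F} {Om : ℂ} {Ω : Type} [Field Ω] [DecidableEq Ω]
  [Algebra F Ω] [IsAlgClosure F Ω] {j : Ω →+* ℂ} {act : 𝓞 F →+* AddMonoid.End (Pt (WAB A B) Ω)} {mo : Ideal (𝓞 F)}
  {ψ : Ideal (𝓞 F) →*₀ 𝓞 F} {p : ℕ}


/-- Chunk K2b (S/M). The conjugate of a Kummer class: s (kum u t) = kum (s u) (s t s^-1), s in G. -/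
theorem kum_cj (dta : Dta A B Om j act mo ψ p) (hc : Cm act) {k : ℕ} {G : Subgroup (Ω ≃ₐ[F] Ω)} {s : Ω ≃ₐ[F] Ω} (hs : s ∈ G) {u : Ω} (hu : u ≠ 0) {t : Ω → PM act}
    (ht : IsT act p k t) (hfix : ∀ h, SH act G p h → h u = u) :
    cjL act hc s (kum act p k (SH act G p) u t) = kum act p k (SH act G p) (s u) (fun z => aM act s (t (s⁻¹ z))) ∧
      IsT act p k (fun z => aM act s (t (s⁻¹ z))) := by
  have hp0 : p ≠ 0 := dta.prime.ne_zero
  have hpw : ∀ z : Ω, z ^ p ^ k = 1 ↔ (s⁻¹ z) ^ p ^ k = 1 := by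
    intro z
    constructor
    · intro hz
      rw [← map_pow, hz, map_one]
    · intro hz
      rw [← map_pow] at hz
      have h1 := congrArg s hz
      rw [map_one] at h1
      have h2 : s (s⁻¹ (z ^ p ^ k)) = z ^ p ^ k := by
        rw [← AlgEquiv.mul_apply, mul_inv_cancel]
        rfl
      rw [h2] at h1
      exact h1
  have hT : IsT act p k (fun z => aM act s (t (s⁻¹ z))) := by
    refine ⟨fun z w hz hw => ?_, fun z hz => ?_⟩
    · show aM act s (t (s⁻¹ (z * w))) = aM act s (t (s⁻¹ z)) + aM act s (t (s⁻¹ w))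
      rw [map_mul, ht.mul _ _ ((hpw z).1 hz) ((hpw w).1 hw), map_add]
    · show aM act s (t (s⁻¹ z)) = 0
      rw [ht.out _ (fun h => hz ((hpw z).2 h)), map_zero]
  refine ⟨?_, hT⟩
  obtain ⟨v, hv⟩ := k1_rt F (k := k) hp0 u
  have hss : ∀ x : Ω, s (s⁻¹ x) = x := by
    intro x
    rw [← AlgEquiv.mul_apply, mul_inv_cancel]
    rfl
  have hss' : ∀ x : Ω, s⁻¹ (s x) = x := by
    intro x
    rw [← AlgEquiv.mul_apply, inv_mul_cancel]
    rfl
  have hcj : ∀ h, SH act G p h ↔ SH act G p (s⁻¹ * h * s) := by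
    intro h
    constructor
    · intro hh
      refine ⟨G.mul_mem (G.mul_mem (G.inv_mem hs) hh.1) hs, ?_⟩
      have h1 := FA_conj act hh.2 s⁻¹
      rw [inv_inv] at h1
      exact h1
    · intro hh
      have e : h = s * (s⁻¹ * h * s) * s⁻¹ := by group
      rw [e]
      exact ⟨G.mul_mem (G.mul_mem hs hh.1) (G.inv_mem hs), FA_conj act hh.2 s⟩
  funext h
  show aM act s (kum act p k (SH act G p) u t (s⁻¹ * h * s)) = kum act p k (SH act G p) (s u) (fun z => aM act s (t (s⁻¹ z))) h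
  by_cases hh : SH act G p h
  · have hh' := (hcj h).1 hh
    have h1 := kum_eq dta hu hv ht hh' (hfix _ hh')
    have hhs : h (s u) = s u := by
      have h2 := hfix _ hh'
      have h3 := congrArg s h2
      have h4 : s ((s⁻¹ * h * s) u) = h (s u) := by
        rw [AlgEquiv.mul_apply, AlgEquiv.mul_apply, hss]
      rw [h4] at h3
      exact h3
    have h5 := kum_eq dta ((map_ne_zero s).mpr hu) (v := s v) (by rw [← map_pow, hv]) hT hh hhs
    rw [h1.1, h5.1]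
    show aM act s (t ((s⁻¹ * h * s) v / v)) = aM act s (t (s⁻¹ (h (s v) / s v)))
    rw [map_div₀, hss']
    rfl
  · have e1 : kum act p k (SH act G p) u t (s⁻¹ * h * s) = 0 := if_neg (fun h' => hh ((hcj h).2 h'))
    have e2 : kum act p k (SH act G p) (s u) (fun z => aM act s (t (s⁻¹ z))) h = 0 := if_neg hh
    rw [e1, e2, map_zero]

/-- Chunk K2c (S/M). Divisibility: t on the p-th roots of unity comes from t' on the p^k-th roots of unity, k > 0: t(z^(p^(k-1))) = p^(k-1) t'(z) for z^(p^k) = 1 (zeta a primitive p^k-th root of unity, t(zeta^(p^(k-1))) = p^(k-1) y (CMA.surj), t'(zeta^i) = i y;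
p^k y = p t(..) = 0). Then kum 1 u t = p^(k-1) kum k u t'. -/
theorem kum_div (dta : Dta A B Om j act mo ψ p) {k : ℕ} (hk : 0 < k) {G : Subgroup (Ω ≃ₐ[F] Ω)} {u : Ω} (hu : u ≠ 0) {t : Ω → PM act} (ht : IsT act p 1 t)
    (hfix : ∀ h, SH act G p h → h u = u) :
    ∃ t' : Ω → PM act, IsT act p k t' ∧ kum act p 1 (SH act G p) u t = p ^ (k - 1) • kum act p k (SH act G p) u t' := by
  classical
  have hp0 : p ≠ 0 := dta.prime.ne_zero
  obtain ⟨ζ, hζ⟩ := x2_prim dta k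
  have hpk : p ^ (k - 1) * p = p ^ k := by
    rw [← pow_succ]
    congr 1
    omega
  obtain ⟨ξ, hξ⟩ : ∃ ξ, ξ = ζ ^ p ^ (k - 1) := ⟨_, rfl⟩
  have hξ1 : ξ ^ p ^ 1 = 1 := by
    rw [hξ, pow_one, ← pow_mul, hpk]
    exact hζ.pow_eq_one
  obtain ⟨y, hy⟩ : ∃ y : PM act, p ^ (k - 1) • y = t ξ := by
    have hne : ((p ^ (k - 1) : ℕ) : 𝓞 F) ≠ 0 := by
      exact_mod_cast pow_ne_zero (k - 1) hp0
    obtain ⟨y, hy⟩ := dta.cma.surj _ hne (t ξ)
    refine ⟨y, ?_⟩
    rw [← Nat.cast_smul_eq_nsmul (𝓞 F)]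
    exact hy
  have hy0 : p ^ k • y = 0 := by
    rw [← hpk, mul_comm, mul_smul, hy, ← pow_one p, ← k1_pow ht hξ1, hξ1, k1_t1 ht]
  let t' : Ω → PM act := fun z => if h : ∃ i : ℕ, z = ζ ^ i then h.choose • y else 0
  have hmod : ∀ i j : ℕ, i ≡ j [MOD p ^ k] → i • y = j • y := by
    have h1 : ∀ i : ℕ, i • y = (i % p ^ k) • y := by
      intro i
      conv_lhs => rw [← Nat.div_add_mod i (p ^ k), add_smul, mul_comm, mul_smul, hy0, smul_zero, zero_add]
    intro i j hij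
    rw [h1 i, h1 j, hij]
  have ht' : ∀ i : ℕ, t' (ζ ^ i) = i • y := by
    intro i
    have hex : ∃ j : ℕ, ζ ^ i = ζ ^ j := ⟨i, rfl⟩
    have h1 : t' (ζ ^ i) = hex.choose • y := dif_pos hex
    rw [h1]
    exact hmod _ _ (x2_pow hζ (pow_pos dta.prime.pos k) hex.choose_spec).symm
  have hall : ∀ z : Ω, z ^ p ^ k = 1 → ∃ i : ℕ, z = ζ ^ i := by
    intro z hz
    haveI : NeZero (p ^ k) := ⟨pow_ne_zero _ hp0⟩
    obtain ⟨i, _, hi⟩ := hζ.eq_pow_of_pow_eq_one hz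
    exact ⟨i, hi.symm⟩
  have hT : IsT act p k t' := by
    refine ⟨fun z w hz hw => ?_, fun z hz => ?_⟩
    · obtain ⟨i, rfl⟩ := hall z hz
      obtain ⟨j, rfl⟩ := hall w hw
      rw [← pow_add, ht', ht', ht', add_smul]
    · apply dif_neg
      rintro ⟨i, rfl⟩
      apply hz
      rw [← pow_mul, mul_comm, pow_mul, hζ.pow_eq_one, one_pow]
  refine ⟨t', hT, ?_⟩
  funext h
  show kum act p 1 (SH act G p) u t h = p ^ (k - 1) • kum act p k (SH act G p) u t' h
  by_cases hh : SH act G p h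
  · obtain ⟨v, hv⟩ := k1_rt F (k := k) hp0 u
    have h1 := kum_eq dta hu hv hT hh (hfix h hh)
    have h2 := kum_eq dta hu (k := 1) (v := v ^ p ^ (k - 1)) (by rw [pow_one, ← pow_mul, hpk, hv]) ht hh (hfix h hh)
    rw [h1.1, h2.1]
    obtain ⟨i, hi⟩ := hall _ h1.2
    have h3 : h (v ^ p ^ (k - 1)) / v ^ p ^ (k - 1) = ξ ^ i := by
      rw [map_pow, ← div_pow, hi, hξ, ← pow_mul, ← pow_mul, mul_comm]
    rw [h3, k1_pow ht hξ1, hi, ht', ← hy, smul_comm]
  · have e1 : kum act p 1 (SH act G p) u t h = 0 := if_neg hh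
    have e2 : kum act p k (SH act G p) u t' h = 0 := if_neg hh
    rw [e1, e2, smul_zero]

end H35L
end

-- from Lib.H35L.K3
section

/-! # H35L, chunk K3 (M): the modules KU and XU -/

open NumberField IsDedekindDomain WeierstrassCurve

namespace H35L

open H55P (IQ Pt ac Inert Dec Nm)
open H35P (WAB)
open H55K (CMA Dta)
open H35K (Lev)

variable {F : Type} [Field F] [NumberField F] [IQ F] {A B : F} {Om : ℂ} {Ω : Type} [Field Ω] [DecidableEq Ω]
  [Algebra F Ω] [IsAlgClosure F Ω] {j : Ω →+* ℂ} {act : 𝓞 F →+* AddMonoid.End (Pt (WAB A B) Ω)} {mo : Ideal (𝓞 F)}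
  {ψ : Ideal (𝓞 F) →*₀ 𝓞 F} {p : ℕ}

omit [NumberField F] [IQ F] [IsAlgClosure F Ω] in
theorem k3_t1 {k : ℕ} {t : Ω → PM act} (ht : IsT act p k t) : t 1 = 0 := by
  have h1 := ht.mul 1 1 (one_pow _) (one_pow _)
  rw [one_mul] at h1
  exact left_eq_add.1 h1

omit [NumberField F] [IQ F] [IsAlgClosure F Ω] in
theorem k3_tor {k : ℕ} {t : Ω → PM act} (ht : IsT act p k t) (z : Ω) : p ^ k • t z = 0 := by
  by_cases hz : z ^ p ^ k = 1
  · have h1 : ∀ n : ℕ, n • t z = t (z ^ n) := by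
      intro n
      induction n with
      | zero => rw [zero_smul, pow_zero, k3_t1 ht]
      | succ n ih =>
        rw [succ_nsmul, ih, pow_succ, ht.mul _ _ (by rw [← pow_mul, mul_comm, pow_mul, hz, one_pow]) hz]
    rw [h1, hz, k3_t1 ht]
  · rw [ht.out z hz, smul_zero]

theorem k3_Nm_one : Nm (1 : 𝓞 F) = 1 := by
  have h3 := H55K.Nm_nat (F := F) 1
  simpa using h3

theorem k3_fix {B' : IntermediateField F Ω} {x : Ω} (h : ∀ s ∈ B'.fixingSubgroup, s x = x) : x ∈ B' := by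
  have hg : IsGalois F Ω := IsAlgClosure.isGalois F Ω
  rw [← InfiniteGalois.fixedField_fixingSubgroup B', IntermediateField.mem_fixedField_iff]
  exact h

omit [NumberField F] [IQ F] [DecidableEq Ω] [IsAlgClosure F Ω] in
theorem k3_mem {B' : IntermediateField F Ω} {x : Ω} (hx : x ∈ B') {s : Ω ≃ₐ[F] Ω} (hs : s ∈ B'.fixingSubgroup) : s x = x :=
  (IntermediateField.mem_fixingSubgroup_iff B' s).1 hs x hx

theorem k3_sh {K : ℕ} {G : Subgroup (Ω ≃ₐ[F] Ω)} {B' : IntermediateField F Ω} (hB : IsB act p K G B')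
    {h : Ω ≃ₐ[F] Ω} (hh : SH act G p h) : h ∈ B'.fixingSubgroup :=
  (hB h).2 ⟨hh.1, fa_iff.1 hh.2 K⟩

theorem k3_ch1 (hc : Cm act) {K : ℕ} {s h : Ω ≃ₐ[F] Ω} (hh : Ch act p K h 1) : Ch act p K (s⁻¹ * h * s) 1 := by
  intro T hT
  have h1 : p ^ K • aM act s T = 0 := by rw [← map_nsmul, hT, map_zero]
  rw [aM_mul, aM_mul, hh _ h1, one_smul, one_smul, ← aM_mul, inv_mul_cancel, aM_one]

theorem k3_conj (hc : Cm act) {K : ℕ} {G : Subgroup (Ω ≃ₐ[F] Ω)} {B' : IntermediateField F Ω} (hB : IsB act p K G B')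
    {s h : Ω ≃ₐ[F] Ω} (hs : s ∈ G) (hh : h ∈ B'.fixingSubgroup) : s⁻¹ * h * s ∈ B'.fixingSubgroup := by
  obtain ⟨h1, h2⟩ := (hB h).1 hh
  exact (hB _).2 ⟨mul_mem (mul_mem (inv_mem hs) h1) hs, k3_ch1 hc h2⟩

theorem k3_isU (hc : Cm act) {K : ℕ} {G : Subgroup (Ω ≃ₐ[F] Ω)} {B' : IntermediateField F Ω} (hB : IsB act p K G B')
    {s : Ω ≃ₐ[F] Ω} (hs : s ∈ G) {u : Ω} (hu : IsU B' u) : IsU B' (s u) := by
  refine ⟨k3_fix fun h hh => ?_, ?_, ?_, ?_⟩
  · have h1 := k3_mem hu.mem (k3_conj hc hB hs hh)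
    have h2 : (s⁻¹ * h * s) u = s⁻¹ (h (s u)) := rfl
    rw [h2] at h1
    have h3 := congrArg s h1
    have h4 : s (s⁻¹ (h (s u))) = h (s u) := s.apply_symm_apply _
    rwa [h4] at h3
  · exact (map_ne_zero_iff _ s.injective).2 hu.ne
  · exact hu.int.map (s : Ω →ₐ[F] Ω).toRingHom.toIntAlgHom
  · rw [← map_inv₀]
    exact hu.inv.map (s : Ω →ₐ[F] Ω).toRingHom.toIntAlgHom

/-- Chunk K3a (S/M). B = field of the points killed by p^K over G (G normalises: every s in G maps B to itself, since it normalises B.fixingSubgroup: Ch act p K s 1 is stable under conjugation; Galois correspondence InfiniteGalois.fixedField_fixingSubgroup).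
The conjugates by G of Kummer classes of units of B are such. -/
theorem ku_stable (dta : Dta A B Om j act mo ψ p) (hc : Cm act) {k K : ℕ} {G : Subgroup (Ω ≃ₐ[F] Ω)} {B' : IntermediateField F Ω} (hB : IsB act p K G B')
    {s : Ω ≃ₐ[F] Ω} (hs : s ∈ G) {f : (Ω ≃ₐ[F] Ω) → PM act} (hf : f ∈ KU act p k G B') : cjL act hc s f ∈ KU act p k G B' := by
  have hle : KU act p k G B' ≤ (KU act p k G B').comap (cjL act hc s) := by
    refine Submodule.span_le.2 ?_
    rintro f ⟨u, t, hu, ht, rfl⟩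
    have h1 := kum_cj dta hc hs hu.ne ht (fun h hh => k3_mem hu.mem (k3_sh hB hh))
    rw [SetLike.mem_coe, Submodule.mem_comap, h1.1]
    exact Submodule.subset_span ⟨s u, _, k3_isU hc hB hs hu, h1.2, rfl⟩
  exact hle hf

/-- Chunk K3b (S/M). The elements fixing B act trivially if k <= K: they fix u, the roots of unity of order dividing p^k (ch_cyc, Nm 1 = 1) and the values of t. -/
theorem ku_triv (dta : Dta A B Om j act mo ψ p) (hc : Cm act) {k K : ℕ} (hk : k ≤ K) {G : Subgroup (Ω ≃ₐ[F] Ω)} {B' : IntermediateField F Ω} (hB : IsB act p K G B')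
    {s : Ω ≃ₐ[F] Ω} (hs : s ∈ B'.fixingSubgroup) {f : (Ω ≃ₐ[F] Ω) → PM act} (hf : f ∈ KU act p k G B') : cjL act hc s f = f := by
  obtain ⟨hsG, hs1⟩ := (hB s).1 hs
  have hcinv : Ch act p K s⁻¹ 1 := by
    intro T hT
    have h1 : aM act s⁻¹ (aM act s T) = T := by rw [← aM_mul, inv_mul_cancel, aM_one]
    rw [hs1 T hT, one_smul] at h1
    rw [h1, one_smul]
  have hle : KU act p k G B' ≤ LinearMap.ker (cjL act hc s - 1) := by
    refine Submodule.span_le.2 ?_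
    rintro f ⟨u, t, hu, ht, rfl⟩
    have h1 := kum_cj dta hc hsG hu.ne ht (fun h hh => k3_mem hu.mem (k3_sh hB hh))
    rw [SetLike.mem_coe, LinearMap.mem_ker, LinearMap.sub_apply, Module.End.one_apply, sub_eq_zero, h1.1, k3_mem hu.mem hs]
    have h2 : (fun z => aM act s (t (s⁻¹ z))) = t := by
      funext z
      by_cases hz : z ^ p ^ k = 1
      · have hz' : z ^ p ^ K = 1 := by
          obtain ⟨m, rfl⟩ := Nat.exists_eq_add_of_le hk
          rw [pow_add, pow_mul, hz, one_pow]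
        have h3 : s⁻¹ z = z := by
          have h4 := ch_cyc dta hcinv z hz'
          rw [h4, k3_Nm_one, pow_one]
        rw [h3, ch_mono hk hs1 _ (k3_tor ht z), one_smul]
      · have h3 : (s⁻¹ z) ^ p ^ k ≠ 1 := by
          intro h4
          apply hz
          have h5 := congrArg s h4
          rw [map_pow, map_one] at h5
          have h6 : s (s⁻¹ z) = z := s.apply_symm_apply _
          rwa [h6] at h5
        rw [ht.out _ h3, ht.out _ hz, map_zero]
    rw [h2]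
  have h3 := hle hf
  rw [LinearMap.mem_ker, LinearMap.sub_apply, Module.End.one_apply, sub_eq_zero] at h3
  exact h3

omit [IsAlgClosure F Ω] in
theorem k3_hm_zero {H I : (Ω ≃ₐ[F] Ω) → Prop} : IsHm act p H I 0 :=
  ⟨fun _ _ => rfl, fun _ _ _ _ => (add_zero _).symm, fun _ => ⟨0, smul_zero _⟩, ⟨⊥, inferInstance, fun _ _ _ => rfl⟩, fun _ _ _ => rfl⟩

omit [IsAlgClosure F Ω] in
theorem k3_hm_add {H I : (Ω ≃ₐ[F] Ω) → Prop} {f g : (Ω ≃ₐ[F] Ω) → PM act} (hf : IsHm act p H I f) (hg : IsHm act p H I g) :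
    IsHm act p H I (f + g) := by
  refine ⟨fun h hh => ?_, fun h hh h' hh' => ?_, fun h => ?_, ?_, fun h hh hi => ?_⟩
  · rw [Pi.add_apply, hf.out h hh, hg.out h hh, add_zero]
  · rw [Pi.add_apply, hf.mul h hh h' hh', hg.mul h hh h' hh', Pi.add_apply, Pi.add_apply, add_add_add_comm]
  · obtain ⟨k, hk⟩ := hf.tor h
    obtain ⟨l, hl⟩ := hg.tor h
    refine ⟨k + l, ?_⟩
    rw [Pi.add_apply, smul_add, pow_add, mul_smul, mul_smul, smul_comm (p ^ k) (p ^ l) (f h), hk, hl, smul_zero, smul_zero, add_zero]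
  · obtain ⟨L, hL, h1⟩ := hf.cont
    obtain ⟨L', hL', h2⟩ := hg.cont
    refine ⟨L ⊔ L', inferInstance, fun h hh hm => ?_⟩
    rw [IntermediateField.fixingSubgroup_sup] at hm
    rw [Pi.add_apply, h1 h hh hm.1, h2 h hh hm.2, add_zero]
  · rw [Pi.add_apply, hf.unr h hh hi, hg.unr h hh hi, add_zero]

omit [IsAlgClosure F Ω] in
theorem k3_hm_smul {H I : (Ω ≃ₐ[F] Ω) → Prop} (a : 𝓞 F) {f : (Ω ≃ₐ[F] Ω) → PM act} (hf : IsHm act p H I f) :
    IsHm act p H I (a • f) := by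
  refine ⟨fun h hh => ?_, fun h hh h' hh' => ?_, fun h => ?_, ?_, fun h hh hi => ?_⟩
  · rw [Pi.smul_apply, hf.out h hh, smul_zero]
  · rw [Pi.smul_apply, hf.mul h hh h' hh', Pi.smul_apply, Pi.smul_apply, smul_add]
  · obtain ⟨k, hk⟩ := hf.tor h
    refine ⟨k, ?_⟩
    rw [Pi.smul_apply, smul_comm, hk, smul_zero]
  · obtain ⟨L, hL, h1⟩ := hf.cont
    refine ⟨L, hL, fun h hh hm => ?_⟩
    rw [Pi.smul_apply, h1 h hh hm, smul_zero]
  · rw [Pi.smul_apply, hf.unr h hh hi, smul_zero]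

/-- Chunk K3c (S/M). The elements of KU are homomorphisms, continuous, unramified outside p, killed by p^k (kum_hm; SH fixes B). -/
theorem ku_hm (dta : Dta A B Om j act mo ψ p) (hc : Cm act) {k K : ℕ} {G : Subgroup (Ω ≃ₐ[F] Ω)} {B' : IntermediateField F Ω} (hB : IsB act p K G B')
    {f : (Ω ≃ₐ[F] Ω) → PM act} (hf : f ∈ KU act p k G B') : IsHm act p (SH act G p) (GI p) f ∧ p ^ k • f = 0 := by
  refine Submodule.span_induction ?_ ?_ ?_ ?_ hf
  · rintro f ⟨u, t, hu, ht, rfl⟩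
    refine ⟨kum_hm dta hu.ne hu.int hu.inv ht (fun h hh => k3_mem hu.mem (k3_sh hB hh)), ?_⟩
    funext h
    rw [Pi.smul_apply, Pi.zero_apply]
    unfold kum
    split_ifs
    · exact k3_tor ht _
    · rw [smul_zero]
  · exact ⟨k3_hm_zero, smul_zero _⟩
  · rintro f g _ _ ⟨h1, h2⟩ ⟨h3, h4⟩
    exact ⟨k3_hm_add h1 h3, by rw [smul_add, h2, h4, add_zero]⟩
  · rintro a f _ ⟨h1, h2⟩
    exact ⟨k3_hm_smul a h1, by rw [smul_comm, h2, smul_zero]⟩

/-- Conjugation by an element of SH is trivial on homomorphisms. -/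
theorem k3_inner (hc : Cm act) {G : Subgroup (Ω ≃ₐ[F] Ω)} {I : (Ω ≃ₐ[F] Ω) → Prop} {f : (Ω ≃ₐ[F] Ω) → PM act}
    (hf : IsHm act p (SH act G p) I f) {c : Ω ≃ₐ[F] Ω} (hcG : c ∈ G) (hcF : FA act p c) : cjL act hc c f = f := by
  have hinv : SH act G p c⁻¹ := by
    refine ⟨inv_mem hcG, fun P hP => ?_⟩
    have h1 : aM act c⁻¹ (aM act c P) = P := by rw [← aM_mul, inv_mul_cancel, aM_one]
    rwa [hcF P hP] at h1
  have hmul : ∀ {a b : Ω ≃ₐ[F] Ω}, SH act G p a → SH act G p b → SH act G p (a * b) := fun ha hb =>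
    ⟨mul_mem ha.1 hb.1, FA_mul act ha.2 hb.2⟩
  funext h
  show aM act c (f (c⁻¹ * h * c)) = f h
  rw [hcF _ (hf.tor _)]
  by_cases hh : SH act G p h
  · rw [hf.mul _ (hmul hinv hh) _ ⟨hcG, hcF⟩, hf.mul _ hinv _ hh, add_right_comm, ← hf.mul _ hinv _ ⟨hcG, hcF⟩,
      inv_mul_cancel]
    have h1 := hf.mul 1 ⟨one_mem _, fun P _ => aM_one act P⟩ h hh
    rw [one_mul] at h1
    exact h1.symm
  · rw [hf.out h hh, hf.out _ fun h1 => hh ?_]
    have h2 := hmul (hmul ⟨hcG, hcF⟩ h1) hinv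
    have h3 : c * (c⁻¹ * h * c) * c⁻¹ = h := by group
    rwa [h3] at h2

/-- Chunk K3d (M). XU is stable under G: s sigma = sigma s c, c = a commutator: it is in G and acts trivially on the points, so it acts trivially on the values and ... c f = f for f a homomorphism on SH: f(c^-1 h c) = f(h) for c in SH. -/
theorem xu_stable (dta : Dta A B Om j act mo ψ p) (hc : Cm act) {k K : ℕ} {G : Subgroup (Ω ≃ₐ[F] Ω)} {B' : IntermediateField F Ω} (hB : IsB act p K G B')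
    {σ s : Ω ≃ₐ[F] Ω} (hσ : σ ∈ G) (hs : s ∈ G) {f : (Ω ≃ₐ[F] Ω) → PM act} (hf : f ∈ XU act hc p k G B' σ) : cjL act hc s f ∈ XU act hc p k G B' σ := by
  obtain ⟨h1, h2⟩ := Submodule.mem_inf.1 hf
  rw [LinearMap.mem_ker, LinearMap.sub_apply, Module.End.one_apply, sub_eq_zero] at h2
  refine Submodule.mem_inf.2 ⟨ku_stable dta hc hB hs h1, ?_⟩
  rw [LinearMap.mem_ker, LinearMap.sub_apply, Module.End.one_apply, sub_eq_zero]
  have h3 : cjL act hc (σ⁻¹ * s⁻¹ * σ * s) f = f := by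
    refine k3_inner hc (ku_hm dta hc hB h1).1 ?_ ?_
    · exact mul_mem (mul_mem (mul_mem (inv_mem hσ) (inv_mem hs)) hσ) hs
    · have h4 := fa_comm dta σ⁻¹ s⁻¹
      rwa [inv_inv, inv_inv] at h4
  have h5 : σ * s = s * σ * (σ⁻¹ * s⁻¹ * σ * s) := by group
  have h6 : cjL act hc σ (cjL act hc s f) = cjL act hc (σ * s) f := by
    rw [cjL_mul]
    rfl
  rw [h6, h5, cjL_mul, cjL_mul, Module.End.mul_apply, Module.End.mul_apply, h3, h2]

/-- Chunk K3e (M). p^(k-1) : XU k -> XU 1 is onto, 0 < k <= K: f in XU 1 is a sum of a_i kum 1 u_i t_i = p^(k-1) f', f' in KU k (kum_div); sigma^(q-1) fixes B (IsSig.pw: it acts as a^(q-1) = 1 on the points killed by p^K), so (ku_triv) e = the sum of sigma^i, i < q - 1,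
maps KU k to XU k; n (q - 1) = 1 modulo p^k: F = n e f', p^(k-1) F = n e f = n (q-1) f = f (p f = 0). -/
theorem xu_div (dta : Dta A B Om j act mo ψ p) (hc : Cm act) {k K : ℕ} (hk0 : 0 < k) (hk : k ≤ K) {G : Subgroup (Ω ≃ₐ[F] Ω)} {B' : IntermediateField F Ω}
    (hB : IsB act p K G B') {σ : Ω ≃ₐ[F] Ω} (hσ : σ ∈ G) {a : 𝓞 F} (ha : IsSig act p K σ a) {f : (Ω ≃ₐ[F] Ω) → PM act} (hf : f ∈ XU act hc p 1 G B' σ) :
    ∃ f' ∈ XU act hc p k G B' σ, p ^ (k - 1) • f' = f := by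
  classical
  have hp := dta.prime
  obtain ⟨h1, h2⟩ := Submodule.mem_inf.1 hf
  rw [LinearMap.mem_ker, LinearMap.sub_apply, Module.End.one_apply, sub_eq_zero] at h2
  have h3 : ∃ g ∈ KU act p k G B', p ^ (k - 1) • g = f := by
    refine Submodule.span_induction ?_ ?_ ?_ ?_ h1
    · rintro f ⟨u, t, hu, ht, rfl⟩
      obtain ⟨t', ht', h4⟩ := kum_div dta hk0 (G := G) hu.ne ht (fun h hh => k3_mem hu.mem (k3_sh hB hh))
      exact ⟨_, Submodule.subset_span ⟨u, t', hu, ht', rfl⟩, h4.symm⟩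
    · exact ⟨0, zero_mem _, smul_zero _⟩
    · rintro f g _ _ ⟨f', hf1, hf2⟩ ⟨g', hg1, hg2⟩
      exact ⟨f' + g', add_mem hf1 hg1, by rw [smul_add, hf2, hg2]⟩
    · rintro b f _ ⟨f', hf1, hf2⟩
      exact ⟨b • f', Submodule.smul_mem _ _ hf1, by rw [smul_comm, hf2]⟩
  obtain ⟨g, hg, hgf⟩ := h3
  have hpow : ∀ i : ℕ, ∀ f, cjL act hc (σ ^ (i + 1)) f = cjL act hc σ (cjL act hc (σ ^ i) f) := by
    intro i f
    rw [pow_succ', cjL_mul]
    rfl
  have hst : ∀ i : ℕ, cjL act hc (σ ^ i) g ∈ KU act p k G B' := fun i => ku_stable dta hc hB (pow_mem hσ i) hg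
  have hfx : ∀ i : ℕ, cjL act hc (σ ^ i) f = f := by
    intro i
    induction i with
    | zero => rw [pow_zero, cjL_one]; rfl
    | succ i ih => rw [hpow, ih, h2]
  obtain ⟨m, hm⟩ : ∃ m, m = p ^ 2 - 1 := ⟨_, rfl⟩
  have hch : ∀ i : ℕ, Ch act p K (σ ^ i) (a ^ i) := by
    intro i
    induction i with
    | zero => intro T _; rw [pow_zero, pow_zero, aM_one, one_smul]
    | succ i ih => rw [pow_succ, pow_succ]; exact ch_mul hc ih ha.ch
  have hper : cjL act hc (σ ^ m) g = g := by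
    refine ku_triv dta hc hk hB ((hB _).2 ⟨pow_mem hσ m, ?_⟩) hg
    rw [hm]
    exact ch_congr (hch _) ha.pw
  have hp2 : 2 ≤ p := hp.two_le
  have h4 : 2 * 2 ≤ p ^ 2 := by nlinarith
  have hcop : Nat.Coprime m (p ^ k) := by
    refine Nat.Coprime.pow_right k ?_
    rw [Nat.coprime_comm, Nat.Prime.coprime_iff_not_dvd hp]
    intro hd
    have h5 : p ∣ p ^ 2 := dvd_pow_self p two_ne_zero
    have h6 : p ∣ 1 := by
      have h7 := Nat.dvd_sub h5 hd
      have h8 : p ^ 2 - m = 1 := by omega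
      rwa [h8] at h7
    exact hp.one_lt.ne' (Nat.dvd_one.1 h6)
  obtain ⟨n, _, hn⟩ := Nat.exists_mul_mod_eq_one_of_coprime hcop (Nat.one_lt_pow hk0.ne' hp.one_lt)
  refine ⟨n • ∑ i ∈ Finset.range m, cjL act hc (σ ^ i) g, ?_, ?_⟩
  · refine Submodule.smul_of_tower_mem _ n (Submodule.mem_inf.2 ⟨sum_mem fun i _ => hst i, ?_⟩)
    rw [LinearMap.mem_ker, LinearMap.sub_apply, Module.End.one_apply, sub_eq_zero, map_sum]
    have h5 : ∑ i ∈ Finset.range m, cjL act hc σ (cjL act hc (σ ^ i) g) =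
        ∑ i ∈ Finset.range m, cjL act hc (σ ^ (i + 1)) g := Finset.sum_congr rfl fun i _ => (hpow i g).symm
    have h6 := Finset.sum_range_succ (fun i => cjL act hc (σ ^ i) g) m
    rw [Finset.sum_range_succ', hper, pow_zero, cjL_one, Module.End.one_apply] at h6
    rw [h5]
    exact add_right_cancel h6
  · have h5 : p ^ (k - 1) • (n • ∑ i ∈ Finset.range m, cjL act hc (σ ^ i) g) =
        n • ∑ i ∈ Finset.range m, cjL act hc (σ ^ i) f := by
      rw [smul_comm, Finset.smul_sum]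
      refine congrArg (n • ·) (Finset.sum_congr rfl fun i _ => ?_)
      rw [← map_nsmul, hgf]
    rw [h5, Finset.sum_congr rfl fun i _ => hfx i, Finset.sum_const, Finset.card_range, ← mul_smul, mul_comm n m]
    have h6 : p ^ 1 • f = 0 := (ku_hm dta hc hB h1).2
    have h7 : m * n = p ^ k * (m * n / p ^ k) + 1 := by
      have h8 := Nat.div_add_mod (m * n) (p ^ k)
      rw [hn] at h8
      exact h8.symm
    have h8 : p ^ k • f = 0 := by
      have h9 : k = k - 1 + 1 := by omega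
      rw [h9, pow_succ, mul_smul, ← pow_one p, ← pow_mul, one_mul, h6, smul_zero]
    rw [h7, add_smul, one_smul, mul_comm, mul_smul, h8, smul_zero, zero_add]

end H35L
end

-- from Lib.H35L.FR
section

/-! # H35L: the frame of the tower (definitions) -/

open NumberField IsDedekindDomain WeierstrassCurve

namespace H35L

open H55P (IQ Pt ac Inert Dec Nm)
open H35P (WAB)
open H55K (CMA Dta)
open H35K (Lev)

section

variable {F : Type} [Field F] {A B : F} {Ω : Type} [Field Ω] [DecidableEq Ω] [Algebra F Ω]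
  (act : 𝓞 F →+* AddMonoid.End (Pt (WAB A B) Ω))

/-- M is a finite extension of F of degree g in which p is totally split (the decomposition groups at all V above p fix M), V is above p, gamma in Dec V a generator of the cyclotomic
tower, s₀ i representatives of the cosets of Gal(Ω/M). -/
structure Fr (p : ℕ) (M : IntermediateField F Ω) (V : ValuationSubring Ω) (γ : Ω ≃ₐ[F] Ω) (g : ℕ) (s₀ : Fin g → (Ω ≃ₐ[F] Ω)) : Prop where
  fin : FiniteDimensional F M
  deg : Module.finrank F M = g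
  above : V.valuation (p : Ω) < 1
  spl : ∀ V' : ValuationSubring Ω, V'.valuation (p : Ω) < 1 → ∀ s, Dec V' s → s ∈ M.fixingSubgroup
  gam : γ ∈ dV V
  gen : Gen p γ
  rep : ∀ x : Ω ≃ₐ[F] Ω, ∃ i, ∃ t ∈ M.fixingSubgroup, x = t * s₀ i

variable {act} {p : ℕ} {M : IntermediateField F Ω} {V : ValuationSubring Ω} {γ : Ω ≃ₐ[F] Ω} {g : ℕ} {s₀ : Fin g → (Ω ≃ₐ[F] Ω)}

theorem Fr.gM (h : Fr p M V γ g s₀) : γ ∈ M.fixingSubgroup := h.spl V h.above γ h.gam

theorem Fr.hG (h : Fr p M V γ g s₀) (i : Fin g) : ∀ s ∈ dV (F := F) V, s₀ i * s * (s₀ i)⁻¹ ∈ M.fixingSubgroup := by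
  intro s hs
  have hm : ∀ x, x ∈ V.comap (((s₀ i)⁻¹ : Ω ≃ₐ[F] Ω) : Ω →+* Ω) ↔ ((s₀ i)⁻¹ : Ω ≃ₐ[F] Ω) x ∈ V := fun x => ValuationSubring.mem_comap
  refine h.spl (V.comap (((s₀ i)⁻¹ : Ω ≃ₐ[F] Ω) : Ω →+* Ω)) ?_ _ ?_
  · rw [H55P.lt1_iff]
    have h1 := (H55P.lt1_iff V (p : Ω)).1 h.above
    rw [hm, map_inv₀, map_natCast]
    exact h1
  · intro x
    rw [hm, hm, AlgEquiv.mul_apply, AlgEquiv.mul_apply]
    have h2 : ((s₀ i)⁻¹ : Ω ≃ₐ[F] Ω) (s₀ i (s (((s₀ i)⁻¹ : Ω ≃ₐ[F] Ω) x))) = s (((s₀ i)⁻¹ : Ω ≃ₐ[F] Ω) x) := (s₀ i).symm_apply_apply _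
    rw [h2]
    exact hs _

/-- The operator of gamma on the global classes. -/
noncomputable abbrev gamF (hc : Cm act) (h : Fr p M V γ g s₀) : RM act hc p M →ₗ[𝓞 F] RM act hc p M := opM act hc p GI_conj h.gM

/-- The operator of gamma on the local classes. -/
noncomputable abbrev delF (hc : Cm act) (h : Fr p M V γ g s₀) : WM act hc p V →ₗ[𝓞 F] WM act hc p V := opM act hc p LI_conj h.gam

/-- The localisation at the places above p. -/
noncomputable abbrev locF (hc : Cm act) (h : Fr p M V γ g s₀) (i : Fin g) : RM act hc p M →ₗ[𝓞 F] WM act hc p V := loM act hc p (h.hG i)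

/-- The classes of points at V. -/
abbrev dF (act : 𝓞 F →+* AddMonoid.End (Pt (WAB A B) Ω)) (hc : Cm act) (p : ℕ) (V : ValuationSubring Ω) (n : ℕ) : Submodule (𝓞 F) (WM act hc p V) := DM act hc p (dV V) LI n

end

end H35L
end

-- from Lib.H35L.S0A
section

/-! # H35L, chunk S0A (M/L): Frobenius elements at V outside p -/

open NumberField IsDedekindDomain WeierstrassCurve

namespace H35L

open H55P (IQ Pt ac Inert Dec Nm)
open H35P (WAB)
open H55K (CMA Dta)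
open H35K (Lev)

variable {F : Type} [Field F] [NumberField F] {Ω : Type} [Field Ω] [Algebra F Ω] [IsAlgClosure F Ω]

open H16C (plc mem_plc not_mem_plc plc_ne_bot natCast_mem_plc FR_numberField FR_isIntegral)

/-- the power of Frobenius on a finite level -/
theorem s0a_core {F₀ : Type} [Field F₀] [NumberField F₀] {Ω : Type} [Field Ω] [Algebra F₀ Ω]
    (N : IntermediateField F₀ Ω) [FiniteDimensional F₀ N] (V : ValuationSubring Ω) (q : ℕ) (hq : q.Prime)
    (hV : V.valuation (q : Ω) < 1) (v : Ideal (𝓞 F₀)) (hvm : v.IsMaximal) (hvb : v ≠ ⊥)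
    (hv : ∀ a : 𝓞 F₀, a ∈ v → V.valuation (algebraMap F₀ Ω (a : F₀)) < 1)
    (s : Ω ≃ₐ[F₀] Ω) (hs : Dec V s) (hN : ∀ x ∈ N, s x ∈ N) :
    ∃ i : ℕ, ∀ x ∈ N, x ∈ V → V.valuation (s x - x ^ (Ideal.absNorm v ^ i)) < 1 := by
  classical
  haveI : NumberField N := FR_numberField N
  let _ : Field (𝓞 F₀ ⧸ v) := Ideal.Quotient.field v
  have hfin0 : Finite (𝓞 F₀ ⧸ v) := Ideal.finiteQuotientOfFreeOfNeBot _ hvb
  have hPb : plc N V ≠ ⊥ := plc_ne_bot N hq.ne_zero hV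
  have hPm : (plc N V).IsMaximal := (H16C.plc_isPrime N V).isMaximal hPb
  let _ : Field (𝓞 N ⧸ plc N V) := Ideal.Quotient.field _
  have hfin1 : Finite (𝓞 N ⧸ plc N V) := Ideal.finiteQuotientOfFreeOfNeBot _ hPb
  have hle : v ≤ (plc N V).comap (algebraMap (𝓞 F₀) (𝓞 N)) := by
    intro a ha
    rw [Ideal.mem_comap, mem_plc]
    exact hv a ha
  let fA : (𝓞 F₀ ⧸ v) →+* (𝓞 N ⧸ plc N V) := Ideal.quotientMap (plc N V) (algebraMap (𝓞 F₀) (𝓞 N)) hle
  letI : Algebra (𝓞 F₀ ⧸ v) (𝓞 N ⧸ plc N V) := fA.toAlgebra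
  let sN : N →+* N := ((s.toAlgHom : Ω →ₐ[F₀] Ω).toRingHom.comp N.val.toRingHom).codRestrict N.toSubfield
    (fun x => hN x x.2)
  have hsN : ∀ x : N, ((sN x : N) : Ω) = s (x : Ω) := fun x => rfl
  let σ : 𝓞 N →+* 𝓞 N := RingOfIntegers.mapRingHom sN
  have hσ : ∀ z : 𝓞 N, (((σ z : 𝓞 N) : N) : Ω) = s ((z : N) : Ω) := fun z => rfl
  have hleP : plc N V ≤ (plc N V).comap σ := by
    intro z hz
    rw [Ideal.mem_comap, mem_plc, hσ, H55P.dec_lt1 V s hs]
    exact hz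
  let sb : (𝓞 N ⧸ plc N V) →ₐ[𝓞 F₀ ⧸ v] (𝓞 N ⧸ plc N V) :=
    { Ideal.quotientMap (plc N V) σ hleP with
      commutes' := by
        intro r
        obtain ⟨a, rfl⟩ := Ideal.Quotient.mk_surjective r
        change Ideal.quotientMap (plc N V) σ hleP (fA (Ideal.Quotient.mk v a)) = fA (Ideal.Quotient.mk v a)
        have h1 : fA (Ideal.Quotient.mk v a) = Ideal.Quotient.mk (plc N V) (algebraMap (𝓞 F₀) (𝓞 N) a) :=
          Ideal.quotientMap_mk
        rw [h1, Ideal.quotientMap_mk]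
        congr 1
        apply RingOfIntegers.ext
        apply Subtype.ext
        rw [hσ]
        exact s.commutes (a : F₀) }
  have hsb : ∀ z : 𝓞 N, sb (Ideal.Quotient.mk _ z) = Ideal.Quotient.mk _ (σ z) := fun z => rfl
  let _ : Fintype (𝓞 F₀ ⧸ v) := Fintype.ofFinite _
  obtain ⟨i, hi⟩ := (FiniteField.bijective_frobeniusAlgHom_pow (𝓞 F₀ ⧸ v) (𝓞 N ⧸ plc N V)).2 sb
  have hcard : Ideal.absNorm v = Fintype.card (𝓞 F₀ ⧸ v) := by
    rw [← Nat.card_eq_fintype_card]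
    rfl
  have hpow : ∀ (j : ℕ) (y : 𝓞 N ⧸ plc N V),
      (FiniteField.frobeniusAlgHom (𝓞 F₀ ⧸ v) (𝓞 N ⧸ plc N V) ^ j) y = y ^ (Ideal.absNorm v ^ j) := by
    intro j
    induction j with
    | zero => intro y; simp
    | succ j ih =>
      intro y
      rw [pow_succ, AlgHom.mul_apply, ih, FiniteField.frobeniusAlgHom_apply, ← hcard, ← pow_mul, pow_succ,
        mul_comm (Ideal.absNorm v ^ j)]
  refine ⟨i.1, ?_⟩
  set M : ℕ := Ideal.absNorm v ^ i.1 with hM
  have hint : ∀ z : 𝓞 N, V.valuation (s ((z : N) : Ω) - ((z : N) : Ω) ^ M) < 1 := by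
    intro z
    have h1 : Ideal.Quotient.mk (plc N V) (σ z) = Ideal.Quotient.mk (plc N V) (z ^ M) := by
      rw [← hsb, map_pow, ← hpow, ← hi]
    rw [Ideal.Quotient.eq, mem_plc] at h1
    have h2 : (((σ z - z ^ M : 𝓞 N) : N) : Ω) = s ((z : N) : Ω) - ((z : N) : Ω) ^ M := by
      simp [← hσ]
    rw [← h2]
    exact h1
  intro x hx hxV
  obtain ⟨a, c, hc, hxac⟩ := H16C.frac_rep_int N V q hq hV (x := ⟨x, hx⟩) ((V.valuation_le_one_iff _).2 hxV)
  have hc1 := not_mem_plc.1 hc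
  have hc0 : ((c : N) : Ω) ≠ 0 := by
    intro h0
    rw [h0, map_zero] at hc1
    exact zero_ne_one hc1
  have hx2 : x * ((c : N) : Ω) = ((a : N) : Ω) := by
    have := congrArg (fun z : N => (z : Ω)) hxac
    simpa using this
  have hsx : s x * s ((c : N) : Ω) = s ((a : N) : Ω) := by rw [← map_mul, hx2]
  have hs1 : V.valuation (s ((c : N) : Ω)) = 1 := by
    have h3 : V.valuation (s ((c : N) : Ω)) ≤ 1 := H16C.FR_le_one V ((FR_isIntegral N c).map (s.toAlgHom.restrictScalars ℤ))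
    have h4 : ¬ V.valuation (s ((c : N) : Ω)) < 1 := by
      rw [H55P.dec_lt1 V s hs, hc1]
      exact lt_irrefl _
    exact le_antisymm h3 (not_lt.1 h4)
  have hkey : (s x - x ^ M) * (s ((c : N) : Ω) * ((c : N) : Ω) ^ M) =
      (s ((a : N) : Ω) - ((a : N) : Ω) ^ M) * ((c : N) : Ω) ^ M -
        ((a : N) : Ω) ^ M * (s ((c : N) : Ω) - ((c : N) : Ω) ^ M) := by
    have h5 : ((a : N) : Ω) ^ M = x ^ M * ((c : N) : Ω) ^ M := by rw [← mul_pow, hx2]
    rw [h5, ← hsx]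
    ring
  have h6 : V.valuation ((s x - x ^ M) * (s ((c : N) : Ω) * ((c : N) : Ω) ^ M)) < 1 := by
    rw [hkey]
    apply V.valuation.map_sub_lt
    · rw [map_mul, map_pow, hc1, one_pow, mul_one]
      exact hint a
    · rw [map_mul, map_pow]
      exact lt_of_le_of_lt (mul_le_of_le_one_left' (pow_le_one' (H16C.FR_le_one V (FR_isIntegral N a)) _)) (hint c)
  rw [map_mul, map_mul, map_pow, hs1, hc1, one_pow, one_mul, mul_one] at h6
  exact h6

/-- Chunk S0A (M/L). K a finite extension of F in Ω, V <> Ω a valuation ring (of residue characteristic l). There is phi in Gal(Ω/K), in Dec V, with phi x = x^N modulo the maximal ideal, N >= 2 the cardinality of the residue field of K (H13S.exists_frob for the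
base field K; Ω is an algebraic closure of K; residue characteristic: H13S.in2_prime). For every finite extension L of F and s in Gal(Ω/K), in Dec V, there are i and iota in Gal(Ω/K) with iota in the inertia group of V and s = phi^i iota on L:
N' = normal closure of L K over F, the residue field of V ∩ N' is finite, s acts on it over the residue field of K, so as a power of phi (Galois group of finite fields); phi^-i s acts trivially on the residue field of N' ∩ V, H13S.inertia_lift gives iota in the inertia group of V with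
iota = phi^-i s on N'. -/
theorem frob_gen (K : IntermediateField F Ω) [FiniteDimensional F K] (V : ValuationSubring Ω) (hV : V ≠ ⊤) :
    ∃ (φ : Ω ≃ₐ[F] Ω) (N : ℕ), φ ∈ K.fixingSubgroup ∧ Dec V φ ∧ 2 ≤ N ∧ (∀ x ∈ V, V.valuation (φ x - x ^ N) < 1) ∧
      ∀ L : IntermediateField F Ω, FiniteDimensional F L → ∀ s ∈ K.fixingSubgroup, Dec V s →
        ∃ (i : ℕ) (ι : Ω ≃ₐ[F] Ω), ι ∈ K.fixingSubgroup ∧ Inert V ι ∧ ∀ x ∈ L, s x = (φ ^ i * ι) x := by
  classical
  have hcl0 : IsAlgClosed Ω := IsAlgClosure.isAlgClosed F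
  have hal0 : Algebra.IsAlgebraic F Ω := IsAlgClosure.isAlgebraic
  have hc0 : CharZero Ω := charZero_of_injective_algebraMap (algebraMap F Ω).injective
  have hnK : NumberField K := FR_numberField K
  have halK : Algebra.IsAlgebraic K Ω := Algebra.IsAlgebraic.tower_top (K := F) K
  have hclK : IsAlgClosure K Ω := ⟨hcl0, halK⟩
  have halZ : Algebra.IsAlgebraic ℤ Ω := by
    have h1 : Algebra.IsAlgebraic ℚ Ω := Algebra.IsAlgebraic.trans ℚ F Ω
    exact (IsFractionRing.comap_isAlgebraic_iff (K := ℚ)).2 h1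
  obtain ⟨q, hq, hqV⟩ := H13S.in2_prime V hV
  have hPb : plc K V ≠ ⊥ := plc_ne_bot K hq.ne_zero hqV
  have hPm : (plc K V).IsMaximal := (H16C.plc_isPrime K V).isMaximal hPb
  have hvK : ∀ a : 𝓞 K, a ∈ plc K V → V.valuation (algebraMap K Ω (a : K)) < 1 := fun a ha => ha
  obtain ⟨f, hf1, hf2⟩ := H13S.exists_frob (F₀ := K) (Ω := Ω) ⟨plc K V, hPm.isPrime, hPb⟩ V hvK
  set Nn : ℕ := Ideal.absNorm (plc K V) with hNn
  have hf2' : ∀ x ∈ V, V.valuation (f x - x ^ Nn) < 1 := hf2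
  set φ : Ω ≃ₐ[F] Ω := f.restrictScalars F with hφ
  have hφa : ∀ x, φ x = f x := fun x => rfl
  have hφK : φ ∈ K.fixingSubgroup := by
    rw [IntermediateField.mem_fixingSubgroup_iff]
    intro x hx
    exact f.commutes ⟨x, hx⟩
  have hφD : Dec V φ := fun x => hf1 x
  have hN2 : 2 ≤ Nn := by
    have h0 : Nn ≠ 0 := by
      rw [hNn]
      intro h
      exact hPb (Ideal.absNorm_eq_zero_iff.1 h)
    have h1 : Nn ≠ 1 := by
      rw [hNn]
      intro h
      exact hPm.ne_top (Ideal.absNorm_eq_one_iff.1 h)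
    omega
  refine ⟨φ, Nn, hφK, hφD, hN2, fun x hx => hf2' x hx, ?_⟩
  intro L hL s hsK hsD
  -- the finite normal field
  have hfdKL : FiniteDimensional F (K ⊔ L : IntermediateField F Ω) := IntermediateField.finiteDimensional_sup K L
  have hnorm : Normal F Ω := IsAlgClosure.normal F Ω
  set N0 : IntermediateField F Ω := IntermediateField.normalClosure F (K ⊔ L : IntermediateField F Ω) Ω with hN0
  have hN0n : Normal F N0 := normalClosure.normal F _ Ω
  have hN0f : FiniteDimensional F N0 := normalClosure.is_finiteDimensional F _ Ω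
  have hKN : K ≤ N0 := le_sup_left.trans (IntermediateField.le_normalClosure _)
  have hLN : L ≤ N0 := le_sup_right.trans (IntermediateField.le_normalClosure _)
  have hst : ∀ t : Ω ≃ₐ[F] Ω, ∀ x ∈ N0, t x ∈ N0 := by
    intro t x hx
    exact (IntermediateField.normal_iff_forall_map_le'.1 hN0n t) ⟨x, hx, rfl⟩
  set N : IntermediateField K Ω := IntermediateField.extendScalars hKN with hN
  have hmN : ∀ x, x ∈ N ↔ x ∈ N0 := fun x => Iff.rfl
  have hNf : FiniteDimensional K N := by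
    have h1 : FiniteDimensional F N := hN0f
    exact FiniteDimensional.right F K N
  set sK : Ω ≃ₐ[K] Ω := IntermediateField.fixingSubgroupEquiv K ⟨s, hsK⟩ with hsKd
  have hsKa : ∀ x, sK x = s x := fun x => rfl
  obtain ⟨i, hi⟩ := s0a_core N V q hq hqV (plc K V) hPm hPb hvK sK (fun x => hsD x) (fun x hx => hst s x hx)
  have hcong : ∀ (a b : Ω) (n : ℕ), a ∈ V → b ∈ V → V.valuation (a - b) < 1 → V.valuation (a ^ n - b ^ n) < 1 := by
    intro a b n ha hb hab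
    obtain ⟨c, hc⟩ := sub_dvd_pow_sub_pow (⟨a, ha⟩ : V) (⟨b, hb⟩ : V) n
    have h1 : a ^ n - b ^ n = (a - b) * (c : Ω) := by
      have := congrArg (fun z : V => (z : Ω)) hc
      simpa using this
    rw [h1, map_mul]
    exact lt_of_le_of_lt (mul_le_of_le_one_right' ((V.valuation_le_one_iff _).2 c.2)) hab
  have hφi : ∀ j : ℕ, Dec V (φ ^ j) ∧ ∀ x ∈ V, V.valuation ((φ ^ j) x - x ^ (Nn ^ j)) < 1 := by
    intro j
    induction j with
    | zero =>
      refine ⟨fun x => by simp, fun x _ => by simp⟩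
    | succ j ih =>
      have hD : Dec V (φ ^ (j + 1)) := by
        intro x
        rw [pow_succ', AlgEquiv.mul_apply, hφD, ih.1]
      refine ⟨hD, ?_⟩
      intro x hx
      have h1 : (φ ^ (j + 1)) x = φ ((φ ^ j) x) := by rw [pow_succ', AlgEquiv.mul_apply]
      have h2 : (φ ^ j) x ∈ V := (ih.1 x).2 hx
      have h3 := hf2' _ h2
      have h4 := hcong _ _ Nn h2 (pow_mem hx (Nn ^ j)) (ih.2 x hx)
      rw [← pow_mul, ← pow_succ] at h4
      have h5 : (φ ^ (j + 1)) x - x ^ (Nn ^ (j + 1)) =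
          (f ((φ ^ j) x) - ((φ ^ j) x) ^ Nn) + (((φ ^ j) x) ^ Nn - x ^ (Nn ^ (j + 1))) := by
        rw [h1, hφa]
        ring
      rw [h5]
      exact V.valuation.map_add_lt h3 h4
  obtain ⟨hDi, hφi2⟩ := hφi i
  set φi : Ω ≃ₐ[F] Ω := φ ^ i with hφid
  have hφiK : φi ∈ K.fixingSubgroup := pow_mem hφK i
  have huK : φi⁻¹ * s ∈ K.fixingSubgroup := mul_mem (inv_mem hφiK) hsK
  set uK : Ω ≃ₐ[K] Ω := IntermediateField.fixingSubgroupEquiv K ⟨φi⁻¹ * s, huK⟩ with huKd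
  have huKa : ∀ x, uK x = (φi⁻¹ * s) x := fun x => rfl
  have hinv : ∀ x, φi ((φi⁻¹ * s) x) = s x := by
    intro x
    rw [← AlgEquiv.mul_apply, mul_inv_cancel_left]
  obtain ⟨s', hs'1, hs'2⟩ := H13S.inertia_lift (F₀ := K) N V uK (fun x hx => hst _ x hx) (by
    intro x hxN hxV
    rw [huKa, ← H55P.dec_lt1 V φi hDi, map_sub, hinv]
    have h5 : s x - φi x = (sK x - x ^ (Nn ^ i)) - (φi x - x ^ (Nn ^ i)) := by
      rw [hsKa]
      ring
    rw [h5]
    exact V.valuation.map_sub_lt (hi x hxN hxV) (hφi2 x hxV))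
  refine ⟨i, s'.restrictScalars F, ?_, fun x hx => hs'1 x hx, ?_⟩
  · rw [IntermediateField.mem_fixingSubgroup_iff]
    intro x hx
    exact s'.commutes ⟨x, hx⟩
  · intro x hx
    rw [AlgEquiv.mul_apply]
    change s x = φi (s' x)
    rw [hs'2 x ((hmN x).2 (hLN hx)), huKa, hinv]


end H35L
end

-- from Lib.H35L.X5T
section

/-! # H35L, chunk X5T (M): Teichmueller elements -/

open NumberField IsDedekindDomain WeierstrassCurve

namespace H35L

open H55P (IQ Pt ac Inert Dec Nm)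
open H35P (WAB Ker tt)
open H55K (Tor CMA Dta GV ak)

variable {F : Type} [Field F] [NumberField F] [IQ F] {A B : F} {Om : ℂ} {Ω : Type} [Field Ω] [DecidableEq Ω]
  [Algebra F Ω] [IsAlgClosure F Ω] {j : Ω →+* ℂ} {act : 𝓞 F →+* AddMonoid.End (Pt (WAB A B) Ω)} {mo : Ideal (𝓞 F)}
  {ψ : Ideal (𝓞 F) →*₀ 𝓞 F} {p : ℕ}

theorem x5t_nat {m n : ℕ} (h : (m : 𝓞 F) ∣ (n : 𝓞 F)) : m ∣ n := by
  obtain ⟨x, hx⟩ := h
  have h1 := congrArg Nm hx
  rw [H55K.Nm_mul, H55K.Nm_nat, H55K.Nm_nat] at h1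
  exact (Nat.pow_dvd_pow_iff two_ne_zero).1 ⟨Nm x, h1⟩

/-- A generator of the units modulo p. -/
theorem x5t_gen (hp : p.Prime) (hin : Prime (p : 𝓞 F)) : ∃ b : 𝓞 F,
    (∀ i : ℕ, (p : 𝓞 F) ∣ b ^ i - 1 ↔ (p ^ 2 - 1) ∣ i) ∧ (p : 𝓞 F) ∣ H55K.cj b - b ^ p := by
  classical
  haveI : Fact p.Prime := ⟨hp⟩
  have hp2 : 2 ≤ p := hp.two_le
  obtain ⟨I, hIdef⟩ : ∃ I : Ideal (𝓞 F), I = Ideal.span {(p : 𝓞 F)} := ⟨_, rfl⟩
  have hI : I.IsPrime := by
    rw [hIdef]
    exact (Ideal.span_singleton_prime hin.ne_zero).2 hin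
  have hI0 : I ≠ ⊥ := by
    rw [hIdef]
    intro h
    exact hin.ne_zero (Ideal.span_singleton_eq_bot.1 h)
  haveI hImax : I.IsMaximal := hI.isMaximal hI0
  letI : Field (𝓞 F ⧸ I) := Ideal.Quotient.field I
  have hcard : Nat.card (𝓞 F ⧸ I) = p ^ 2 := by
    have h1 : Nm (p : 𝓞 F) = p ^ 2 := H55K.Nm_nat p
    unfold H55P.Nm at h1
    rw [Ideal.absNorm_apply, Submodule.cardQuot_apply, ← hIdef] at h1
    exact h1
  haveI : Finite (𝓞 F ⧸ I) := Nat.finite_of_card_ne_zero (by rw [hcard]; positivity)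
  haveI : CharP (𝓞 F ⧸ I) p := by
    rw [hIdef]
    exact CharP.quotient (𝓞 F) p hin.not_unit
  obtain ⟨g, hg⟩ := IsCyclic.exists_generator (α := (𝓞 F ⧸ I)ˣ)
  have hord : orderOf g = p ^ 2 - 1 := by
    rw [orderOf_eq_card_of_forall_mem_zpowers hg, Nat.card_units, hcard]
  obtain ⟨b, hb⟩ := Ideal.Quotient.mk_surjective (g : 𝓞 F ⧸ I)
  have hdvd : ∀ x : 𝓞 F, Ideal.Quotient.mk I x = 0 ↔ (p : 𝓞 F) ∣ x := by
    intro x
    rw [Ideal.Quotient.eq_zero_iff_mem, hIdef, Ideal.mem_span_singleton]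
  have hpow : ∀ i : ℕ, (p : 𝓞 F) ∣ b ^ i - 1 ↔ (p ^ 2 - 1) ∣ i := by
    intro i
    rw [← hdvd, map_sub, map_pow, map_one, hb, sub_eq_zero, ← hord, orderOf_dvd_iff_pow_eq_one,
      Units.ext_iff]
    simp
  refine ⟨b, hpow, ?_⟩
  obtain ⟨c, hc⟩ : ∃ c : 𝓞 F ⧸ I, c = Ideal.Quotient.mk I (H55K.cj b) := ⟨_, rfl⟩
  obtain ⟨β, hβ⟩ : ∃ β : 𝓞 F ⧸ I, β = Ideal.Quotient.mk I b := ⟨_, rfl⟩
  have hprod : β * c = (Nm b : 𝓞 F ⧸ I) := by
    rw [hβ, hc, ← map_mul, H55K.mul_cj, map_natCast]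
  have hsum : β + c = (Nm (b + 1) : 𝓞 F ⧸ I) - (Nm b : 𝓞 F ⧸ I) - 1 := by
    have h1 : (β + 1) * (c + 1) = (Nm (b + 1) : 𝓞 F ⧸ I) := by
      have h2 : (b + 1) * H55K.cj (b + 1) = (Nm (b + 1) : 𝓞 F) := H55K.mul_cj _
      rw [map_add, map_one] at h2
      have h3 := congrArg (Ideal.Quotient.mk I) h2
      rw [map_mul, map_add, map_add, map_one, map_natCast, ← hβ, ← hc] at h3
      exact h3
    rw [← h1, ← hprod]
    ring
  obtain ⟨τ, hτ⟩ : ∃ τ : 𝓞 F ⧸ I, τ = (Nm (b + 1) : 𝓞 F ⧸ I) - (Nm b : 𝓞 F ⧸ I) - 1 := ⟨_, rfl⟩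
  obtain ⟨ν, hν⟩ : ∃ ν : 𝓞 F ⧸ I, ν = (Nm b : 𝓞 F ⧸ I) := ⟨_, rfl⟩
  have hφτ : frobenius (𝓞 F ⧸ I) p τ = τ := by
    rw [hτ, map_sub, map_sub, map_natCast, map_natCast, map_one]
  have hφν : frobenius (𝓞 F ⧸ I) p ν = ν := by
    rw [hν, map_natCast]
  rw [← hτ] at hsum
  rw [← hν] at hprod
  have h1 : β * β - τ * β + ν = 0 := by
    rw [← hsum, ← hprod]
    ring
  have h2 := congrArg (frobenius (𝓞 F ⧸ I) p) h1
  rw [map_add, map_sub, map_mul, map_mul, map_zero, hφτ, hφν, frobenius_def] at h2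
  have h3 : (β ^ p - β) * (β ^ p - c) = 0 := by
    rw [← hsum, ← hprod] at h2
    linear_combination h2
  rcases mul_eq_zero.1 h3 with h4 | h4
  · exfalso
    have h5 : β ≠ 0 := by
      rw [hβ, hb]
      exact g.ne_zero
    have h6 : β ^ (p - 1) = 1 := by
      have h7 : β ^ p = β ^ (p - 1) * β := by
        rw [← pow_succ]
        congr 1
        omega
      rw [h7] at h4
      have h8 : (β ^ (p - 1) - 1) * β = 0 := by linear_combination h4
      rcases mul_eq_zero.1 h8 with h9 | h9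
      · exact sub_eq_zero.1 h9
      · exact absurd h9 h5
    have h7 : (p : 𝓞 F) ∣ b ^ (p - 1) - 1 := by
      rw [← hdvd, map_sub, map_pow, map_one, ← hβ, h6, sub_self]
    have h8 := Nat.le_of_dvd (by omega) ((hpow (p - 1)).1 h7)
    have h9 : p ^ 2 = p * p := sq p
    have h10 : 2 * p ≤ p * p := Nat.mul_le_mul_right p hp2
    omega
  · rw [← hdvd, map_sub, map_pow, ← hβ, ← hc]
    rw [sub_eq_zero] at h4 ⊢
    exact h4.symm

/-- Chunk X5d (M). A Teichmueller element: b in 𝓞 F whose class generates the units of 𝓞 F / p (a field with q = p^2 elements, hin), a = b^(q^n). a^(q-1) = 1 modulo p^(n+1) (b^(q-1) = 1 mod p, take the power q^n: (1+px)^(p^n) = 1 mod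
p^(n+1)). cj a = a^p modulo p^(n+1): cj b = b^p modulo p (cj is an automorphism of the field 𝓞 F / p with q elements, not the identity: otherwise cj x - x is in (p) for all x, but p is unramified in F (dta.unr); Frobenius is the only other
automorphism; OR: b is a root of (X - b)(X - cj b) with integer coefficients, b^p is another root modulo p and b^p <> b), then the power q^n. So Nm a = a cj a = a^(p+1) and Nm a^(p-1) = a^(q-1) = 1 modulo p^(n+1) (in 𝓞 F, hence in ℤ).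
The result: a with these properties and a a generator modulo p (q^n is prime to q - 1). -/
theorem teich (dta : Dta A B Om j act mo ψ p) (hin : Prime (p : 𝓞 F)) (n : ℕ) : ∃ a : 𝓞 F, IsCoprime a (p : 𝓞 F) ∧
    (p : 𝓞 F) ^ (n + 1) ∣ a ^ (p ^ 2 - 1) - 1 ∧ Nm a ^ (p - 1) ≡ 1 [MOD p ^ (n + 1)] ∧
    (p : 𝓞 F) ^ (n + 1) ∣ (Nm a : 𝓞 F) - a ^ (p + 1) ∧
    ∀ i : ℕ, (p : 𝓞 F) ∣ a ^ i - 1 → (p ^ 2 - 1) ∣ i := by
  have hp := dta.prime
  have hp2 : 2 ≤ p := hp.two_le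
  obtain ⟨b, hb, hbc⟩ := x5t_gen (F := F) hp hin
  obtain ⟨a, ha⟩ : ∃ a : 𝓞 F, a = b ^ p ^ (2 * n) := ⟨_, rfl⟩
  have hq : p ^ 2 - 1 ≠ 0 := by
    have h9 : p ^ 2 = p * p := sq p
    have h10 : 2 * p ≤ p * p := Nat.mul_le_mul_right p hp2
    omega
  have hle : (p : 𝓞 F) ^ (n + 1) ∣ (p : 𝓞 F) ^ (2 * n + 1) := pow_dvd_pow _ (by omega)
  have hord : (p : 𝓞 F) ^ (n + 1) ∣ a ^ (p ^ 2 - 1) - 1 := by
    have h1 : (p : 𝓞 F) ∣ b ^ (p ^ 2 - 1) - 1 := (hb _).2 (dvd_refl _)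
    have h2 := dvd_sub_pow_of_dvd_sub h1 (2 * n)
    rw [one_pow] at h2
    have h3 : a ^ (p ^ 2 - 1) = (b ^ (p ^ 2 - 1)) ^ p ^ (2 * n) := by
      rw [ha, ← pow_mul, ← pow_mul, mul_comm]
    rw [h3]
    exact hle.trans h2
  have hcj : (p : 𝓞 F) ^ (n + 1) ∣ H55K.cj a - a ^ p := by
    have h2 := dvd_sub_pow_of_dvd_sub hbc (2 * n)
    have h3 : H55K.cj a = (H55K.cj b) ^ p ^ (2 * n) := by rw [ha, map_pow]
    have h4 : a ^ p = (b ^ p) ^ p ^ (2 * n) := by
      rw [ha, ← pow_mul, ← pow_mul, mul_comm]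
    rw [h3, h4]
    exact hle.trans h2
  have hnm : (p : 𝓞 F) ^ (n + 1) ∣ (Nm a : 𝓞 F) - a ^ (p + 1) := by
    obtain ⟨c, hc⟩ := hcj
    refine ⟨a * c, ?_⟩
    rw [← H55K.mul_cj, pow_succ' a p]
    linear_combination a * hc
  have hpa : ¬ (p : 𝓞 F) ∣ a := by
    intro h
    have h1 : (p : 𝓞 F) ∣ a ^ (p ^ 2 - 1) := dvd_pow h hq
    have h2 : (p : 𝓞 F) ∣ a ^ (p ^ 2 - 1) - 1 := (dvd_pow_self _ (by omega)).trans hord
    have h3 := dvd_sub h1 h2
    rw [sub_sub_cancel] at h3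
    exact hin.not_unit (isUnit_of_dvd_one h3)
  refine ⟨a, ((hin.irreducible.coprime_iff_not_dvd).2 hpa).symm, hord, ?_, hnm, ?_⟩
  · have ha0 : a ≠ 0 := by
      rintro rfl
      exact hpa (dvd_zero _)
    have h1 : 1 ≤ Nm a ^ (p - 1) := by
      refine Nat.one_le_pow _ _ (Nat.pos_of_ne_zero fun h => ha0 (H55P.Nm_eq_zero.1 h))
    refine ((Nat.modEq_iff_dvd' h1).2 (x5t_nat (F := F) ?_)).symm
    rw [Nat.cast_sub h1, Nat.cast_pow, Nat.cast_pow, Nat.cast_one]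
    have h2 : (p : 𝓞 F) ^ (n + 1) ∣ (Nm a : 𝓞 F) ^ (p - 1) - (a ^ (p + 1)) ^ (p - 1) :=
      hnm.trans (sub_dvd_pow_sub_pow _ _ _)
    have h3 : (a ^ (p + 1)) ^ (p - 1) = a ^ (p ^ 2 - 1) := by
      rw [← pow_mul]
      congr 1
      have h4 := Nat.sq_sub_sq p 1
      rw [one_pow] at h4
      exact h4.symm
    rw [h3] at h2
    have h5 := dvd_add h2 hord
    rwa [sub_add_sub_cancel] at h5
  · intro i hi
    have h1 : (p : 𝓞 F) ∣ b ^ (p ^ (2 * n) * i) - 1 := by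
      rw [pow_mul, ← ha]
      exact hi
    have h2 := (hb _).1 h1
    refine Nat.Coprime.dvd_of_dvd_mul_left ?_ h2
    have h3 : Nat.Coprime (p ^ 2 - 1) p := by
      have h4 : Nat.Coprime (p ^ 2 - 1) (p ^ 2) := by
        have h5 : p ^ 2 = (p ^ 2 - 1) + 1 := by
          have : 0 < p ^ 2 := by positivity
          omega
        have h6 : Nat.Coprime (p ^ 2 - 1) ((p ^ 2 - 1) + 1) := by
          rw [Nat.coprime_self_add_right]
          exact Nat.coprime_one_right _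
        rwa [← h5] at h6
      exact Nat.Coprime.coprime_dvd_right (dvd_pow_self p two_ne_zero) h4
    exact Nat.Coprime.pow_right _ h3

end H35L
end
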