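import Mathlib
import Pool.Agent.Lib.H1M.PP2.M054
import Pool.Agent.Lib.H1M.PP2.M060
import Pool.Agent.Lib.H1M.PP2.M062
import Pool.Agent.Lib.H1M.PP2.M080
import Pool.Agent.Lib.H1M.PP2.M083
import Pool.Agent.Lib.H1M.PP2.M086
import Pool.Agent.Lib.H1M.PP2.M092
import Pool.Agent.Lib.H1M.PP2.M094
import Pool.Agent.Lib.H1M.PP2.M100
import Pool.Agent.Lib.H1M.PP2.M111

/-! Merged copies (to shorten the build) of Lib.H35L.C1, Lib.H35L.C4, Lib.H35L.X3A, Lib.H35L.X3BA, Lib.H35L.X3B, Lib.H35L.C4E, Lib.H35L.S0BA, Lib.H35L.S0B, Lib.H35L.X3, Lib.H35L.X3D, Lib.H35L.X5E, Lib.H35L.S1A. -/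

-- from Lib.H35L.C1
section

/-! # H35L, chunk C1 (M): levels and equivariance -/

open NumberField IsDedekindDomain WeierstrassCurve

namespace H35L

open H55P (IQ Pt ac Inert Dec Nm)
open H35P (WAB)
open H55K (CMA Dta)
open H35K (Lev)

variable {F : Type} [Field F] [NumberField F] [IQ F] {A B : F} {Om : ℂ} {Ω : Type} [Field Ω] [DecidableEq Ω]
  [Algebra F Ω] [IsAlgClosure F Ω] {j : Ω →+* ℂ} {act : 𝓞 F →+* AddMonoid.End (Pt (WAB A B) Ω)} {mo : Ideal (𝓞 F)}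
  {ψ : Ideal (𝓞 F) →*₀ 𝓞 F} {p : ℕ}

theorem c1_op {G : Subgroup (Ω ≃ₐ[F] Ω)} {I : (Ω ≃ₐ[F] Ω) → Prop} (hc : Cm act) (hI : CI I) {γ : Ω ≃ₐ[F] Ω} (hγ : γ ∈ G)
    (f : SM act hc p G I) (h : Ω ≃ₐ[F] Ω) (hh : SH act G p h) :
    (opM act hc p hI hγ f).1 h = aM act γ (f.1 (γ⁻¹ * h * γ)) := by
  have h1 : (opM act hc p hI hγ f).1 h = aM act (γ⁻¹)⁻¹ (f.1 (γ⁻¹ * h * (γ⁻¹)⁻¹)) := if_pos hh
  rw [h1, inv_inv]

theorem c1_conj {G : Subgroup (Ω ≃ₐ[F] Ω)} {h t : Ω ≃ₐ[F] Ω} (hh : SH act G p h) (ht : t ∈ G) :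
    SH act G p (t * h * t⁻¹) :=
  ⟨mul_mem (mul_mem ht hh.1) (inv_mem ht), FA_conj act hh.2 t⟩

theorem c1_conj' {G : Subgroup (Ω ≃ₐ[F] Ω)} {h t : Ω ≃ₐ[F] Ω} (hh : SH act G p h) (ht : t ∈ G) :
    SH act G p (t⁻¹ * h * t) := by
  have h1 := c1_conj hh (inv_mem ht)
  rwa [inv_inv] at h1

/-- Chunk C1a (S/M). The powers of the operator. -/
theorem op_pow {G : Subgroup (Ω ≃ₐ[F] Ω)} {I : (Ω ≃ₐ[F] Ω) → Prop} (hc : Cm act) (hI : CI I) {γ : Ω ≃ₐ[F] Ω} (hγ : γ ∈ G) (k : ℕ)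
    (f : SM act hc p G I) (h : Ω ≃ₐ[F] Ω) (hh : SH act G p h) :
    ((opM act hc p hI hγ ^ k) f).1 h = aM act (γ ^ k) (f.1 ((γ ^ k)⁻¹ * h * γ ^ k)) := by
  induction k generalizing h with
  | zero =>
    have e : (γ ^ 0)⁻¹ * h * γ ^ 0 = h := by group
    rw [e, pow_zero, pow_zero, aM_one]
    rfl
  | succ k ih =>
    rw [pow_succ', Module.End.mul_apply, c1_op hc hI hγ _ h hh, ih _ (c1_conj' hh hγ), ← aM_mul]
    have e : (γ ^ k)⁻¹ * (γ⁻¹ * h * γ) * γ ^ k = (γ ^ (k + 1))⁻¹ * h * γ ^ (k + 1) := by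
      rw [pow_succ']
      group
    rw [e, pow_succ']

theorem c1_pow_fix {O Z : Type} [CommRing O] [AddCommGroup Z] [Module O Z] (f : Z →ₗ[O] Z) (z : Z) (m : ℕ)
    (h : (f ^ m) z = z) (i : ℕ) : (f ^ (i * m)) z = z := by
  induction i with
  | zero => rw [zero_mul, pow_zero]; rfl
  | succ i ih => rw [add_mul, one_mul, pow_add, Module.End.mul_apply, h, ih]

theorem c1_gc_le {m n : ℕ} {s : Ω ≃ₐ[F] Ω} (hmn : m ≤ n) (h : Gc p n s) : Gc p m s := by
  induction n, hmn using Nat.le_induction with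
  | base => exact h
  | succ n _ ih => exact ih (Gc_mono h)

theorem c1_aM_inj (s : Ω ≃ₐ[F] Ω) {P Q : PM act} (h : aM act s P = aM act s Q) : P = Q := by
  have h1 := congrArg (aM act s⁻¹) h
  rwa [← aM_mul, ← aM_mul, inv_mul_cancel, aM_one, aM_one] at h1

theorem c1_ext {G : Subgroup (Ω ≃ₐ[F] Ω)} {I : (Ω ≃ₐ[F] Ω) → Prop} {hc : Cm act} {f g : SM act hc p G I}
    (h : ∀ h, SH act G p h → f.1 h = g.1 h) : f = g := by
  apply Subtype.ext
  funext x
  by_cases hx : SH act G p x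
  · exact h x hx
  · have hf : IsCls act p (SH act G p) I (SN G p) f.1 := f.2
    have hg : IsCls act p (SH act G p) I (SN G p) g.1 := g.2
    rw [hf.out x hx, hg.out x hx]

/-- Chunk C1 (M). f is of level n iff it is equivariant under the group of level n of G. If equivariant: gamma^(p^n) is of level n (gc_powp), so op^(p^n) f = f (op_pow; both are 0 outside SH). Conversely f is equivariant under some level m,
m >= n without loss of generality (gc_le), and under gamma^(i p^n) for all i (op^(p^n) f = f, iterate). s of level n: t = gamma^(i p^n) s is of level m (gc_gen), s = gamma^-(i p^n) t. -/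
theorem lev_iff (dta : Dta A B Om j act mo ψ p) {G : Subgroup (Ω ≃ₐ[F] Ω)} {I : (Ω ≃ₐ[F] Ω) → Prop} (hc : Cm act) (hI : CI I) {γ : Ω ≃ₐ[F] Ω} (hγ : γ ∈ G)
    (hg : Gen p γ) (n : ℕ) (f : SM act hc p G I) :
    Lev p n (opM act hc p hI hγ) f ↔ ∀ s, SN G p n s → ∀ h, SH act G p h → f.1 (s * h * s⁻¹) = aM act s (f.1 h) := by
  constructor
  · intro hf s hs h hh
    have hcls : IsCls act p (SH act G p) I (SN G p) f.1 := f.2
    obtain ⟨m, hm⟩ := hcls.eqv
    have h3 : 3 ≤ p := by have := dta.five; omega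
    obtain ⟨i, hi⟩ := gc_gen dta.prime h3 hg (le_max_right m n) hs.2
    have hgG : γ ^ (i * p ^ n) ∈ G := pow_mem hγ _
    have ht : SN G p m (γ ^ (i * p ^ n) * s) := ⟨mul_mem hgG hs.1, c1_gc_le (le_max_left m n) hi⟩
    have h1 := hm _ ht h hh
    have hfix : ((opM act hc p hI hγ) ^ (i * p ^ n)) f = f := c1_pow_fix _ _ _ hf i
    have hx : SH act G p (γ ^ (i * p ^ n) * s * h * (γ ^ (i * p ^ n) * s)⁻¹) := c1_conj hh ht.1
    have h2 := op_pow hc hI hγ (i * p ^ n) f _ hx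
    rw [hfix] at h2
    rw [h2] at h1
    have e : (γ ^ (i * p ^ n))⁻¹ * (γ ^ (i * p ^ n) * s * h * (γ ^ (i * p ^ n) * s)⁻¹) * γ ^ (i * p ^ n) = s * h * s⁻¹ := by
      group
    rw [e, aM_mul] at h1
    exact c1_aM_inj _ h1
  · intro hf
    apply c1_ext
    intro h hh
    have hs : SN G p n (γ ^ p ^ n) := ⟨pow_mem hγ _, gc_powp dta.prime γ n⟩
    rw [op_pow hc hI hγ _ f h hh, ← hf _ hs _ (c1_conj' hh hs.1)]
    congr 1
    group

/-- Chunk C1b (S). -/
theorem lev_zero_iff (dta : Dta A B Om j act mo ψ p) {G : Subgroup (Ω ≃ₐ[F] Ω)} {I : (Ω ≃ₐ[F] Ω) → Prop} (hc : Cm act) (hI : CI I) {γ : Ω ≃ₐ[F] Ω} (hγ : γ ∈ G)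
    (hg : Gen p γ) (f : SM act hc p G I) :
    opM act hc p hI hγ f = f ↔ ∀ s ∈ G, ∀ h, SH act G p h → f.1 (s * h * s⁻¹) = aM act s (f.1 h) := by
  have h1 := lev_iff dta hc hI hγ hg 0 f
  unfold Lev at h1
  rw [pow_zero, pow_one] at h1
  rw [h1]
  constructor
  · intro h2 s hs
    refine h2 s ⟨hs, ?_⟩
    have h3 := gc_powp dta.prime s 0
    rwa [pow_zero, pow_one] at h3
  · intro h2 s hs
    exact h2 s hs.1

end H35L
end

-- from Lib.H35L.C4
section

/-! # H35L, chunk C4 (M): the classes of points -/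

open NumberField IsDedekindDomain WeierstrassCurve

namespace H35L

open H55P (IQ Pt ac Inert Dec Nm)
open H35P (WAB)
open H55K (CMA Dta)
open H35K (Lev)

variable {F : Type} [Field F] [NumberField F] [IQ F] {A B : F} {Om : ℂ} {Ω : Type} [Field Ω] [DecidableEq Ω]
  [Algebra F Ω] [IsAlgClosure F Ω] {j : Ω →+* ℂ} {act : 𝓞 F →+* AddMonoid.End (Pt (WAB A B) Ω)} {mo : Ideal (𝓞 F)}
  {ψ : Ideal (𝓞 F) →*₀ 𝓞 F} {p : ℕ}


theorem c4_sn (dta : Dta A B Om j act mo ψ p) {n : ℕ} {G : Subgroup (Ω ≃ₐ[F] Ω)} {h : Ω ≃ₐ[F] Ω}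
    (hh : SH act G p h) : SN G p n h := ⟨hh.1, fa_gc dta hh.2 n⟩

theorem c4_inv (s : Ω ≃ₐ[F] Ω) (P : PM act) : aM act s⁻¹ (aM act s P) = P := by
  rw [← aM_mul, inv_mul_cancel, aM_one]

/-- The equivariance of the class of a point. -/
theorem c4_eqv {n k : ℕ} {P : PM act} {G : Subgroup (Ω ≃ₐ[F] Ω)}
    (hk : ∀ s, SN G p n s → aM act s (p ^ k • P) = p ^ k • P) {s h : Ω ≃ₐ[F] Ω} (hs : SN G p n s)
    (hh : SH act G p h) :
    aM act (s * h * s⁻¹) P - P = aM act s (aM act h P - P) := by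
  obtain ⟨a, ha⟩ : ∃ a : PM act, a = aM act s P - P := ⟨_, rfl⟩
  have hka : p ^ k • a = 0 := by
    rw [ha, smul_sub, ← map_nsmul, hk s hs, sub_self]
  have hsP : aM act s P = P + a := by
    rw [ha]
    abel
  have h1 : aM act s⁻¹ P = P - aM act s⁻¹ a := by
    have h2 := c4_inv (act := act) s P
    rw [hsP, map_add] at h2
    exact eq_sub_of_add_eq h2
  have h3 : aM act h (aM act s⁻¹ a) = aM act s⁻¹ a :=
    hh.2 _ ⟨k, by rw [← map_nsmul, hka, map_zero]⟩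
  rw [aM_mul, aM_mul, h1, map_sub, map_sub, map_sub, h3, aM_inv, hsP]
  abel

/-- Chunk C4a (S/M). The class of a point: for P with p^k P rational over the field of level n of G, h -> h P - P is a class (values: h fixes p^k P since it is of level n (fa_gc); continuity: H55P.pt_open; additivity: h fixes h' P - P;
equivariance under level n: s P = P + a with p^k a = 0, s h s^-1 P - P = s(h(s^-1 P)) - P and s^-1 P = P - s^-1 a, h fixes s^-1 a). I must be zero on it: hypothesis hP. -/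
theorem pt_cls (dta : Dta A B Om j act mo ψ p) {G : Subgroup (Ω ≃ₐ[F] Ω)} {I : (Ω ≃ₐ[F] Ω) → Prop} (hc : Cm act) {n : ℕ} {P : PM act} (hP : PL act p G n P)
    (hI : ∀ h, SH act G p h → I h → aM act h P = P) :
    ∃ w ∈ DM act hc p G I n, ∀ h, SH act G p h → w.1 h = aM act h P - P := by
  classical
  obtain ⟨k, hk⟩ := hP
  obtain ⟨w, hw⟩ : ∃ w : (Ω ≃ₐ[F] Ω) → PM act,
      w = fun h => if SH act G p h then aM act h P - P else 0 := ⟨_, rfl⟩
  have hw1 : ∀ h, SH act G p h → w h = aM act h P - P := by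
    intro h hh
    rw [hw]
    exact if_pos hh
  have hw0 : ∀ h, ¬ SH act G p h → w h = 0 := by
    intro h hh
    rw [hw]
    exact if_neg hh
  have hcl : IsCls act p (SH act G p) I (SN G p) w := by
    refine ⟨⟨hw0, ?_, ?_, ?_, ?_⟩, ⟨n, ?_⟩⟩
    · intro h hh h' hh'
      have hhh : SH act G p (h * h') := ⟨mul_mem hh.1 hh'.1, FA_mul act hh.2 hh'.2⟩
      rw [hw1 _ hhh, hw1 _ hh, hw1 _ hh', aM_mul]
      have h1 : aM act h (aM act h' P - P) = aM act h' P - P :=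
        hh.2 _ ⟨k, by rw [smul_sub, ← map_nsmul, hk h' (c4_sn dta hh'), sub_self]⟩
      rw [map_sub] at h1
      rw [← sub_eq_zero] at h1 ⊢
      rw [← h1]
      abel
    · intro h
      by_cases hh : SH act G p h
      · refine ⟨k, ?_⟩
        rw [hw1 _ hh, smul_sub, ← map_nsmul, hk h (c4_sn dta hh), sub_self]
      · exact ⟨0, by rw [hw0 _ hh, smul_zero]⟩
    · obtain ⟨L, hL, h1⟩ := H55P.pt_open (WAB A B) (P : Pt (WAB A B) Ω)
      refine ⟨L, hL, fun h hh hm => ?_⟩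
      rw [hw1 _ hh]
      exact sub_eq_zero.2 (h1 h hm)
    · intro h hh hi
      rw [hw1 _ hh, hI h hh hi, sub_self]
    · intro s hs h hh
      have hhh : SH act G p (s * h * s⁻¹) :=
        ⟨mul_mem (mul_mem hs.1 hh.1) (inv_mem hs.1), FA_conj act hh.2 _⟩
      rw [hw1 _ hhh, hw1 _ hh]
      exact c4_eqv hk hs hh
  exact ⟨⟨w, hcl⟩, ⟨P, ⟨k, hk⟩, hw1⟩, hw1⟩

/-- Chunk C4b (S/M). lev_iff and the computation of pt_cls. -/
theorem dlev (dta : Dta A B Om j act mo ψ p) {G : Subgroup (Ω ≃ₐ[F] Ω)} {I : (Ω ≃ₐ[F] Ω) → Prop} (hc : Cm act) (hI : CI I) {γ : Ω ≃ₐ[F] Ω} (hγ : γ ∈ G)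
    (hg : Gen p γ) (n : ℕ) (w : SM act hc p G I) (hw : w ∈ DM act hc p G I n) : Lev p n (opM act hc p hI hγ) w := by
  obtain ⟨P, ⟨k, hk⟩, hP⟩ := hw
  rw [lev_iff dta hc hI hγ hg]
  intro s hs h hh
  have hhh : SH act G p (s * h * s⁻¹) :=
    ⟨mul_mem (mul_mem hs.1 hh.1) (inv_mem hs.1), FA_conj act hh.2 _⟩
  rw [hP _ hhh, hP _ hh]
  exact c4_eqv hk hs hh

end H35L
end

-- from Lib.H35L.X3A
section

/-! # H35L, chunk X3A (M): the parameters of the points of order p^k -/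

open NumberField IsDedekindDomain WeierstrassCurve

namespace H35L

open H55P (IQ Pt ac Inert Dec Nm)
open H35P (WAB Ker tt)
open H55K (Tor CMA Dta GV ak)

variable {F : Type} [Field F] [NumberField F] [IQ F] {A B : F} {Om : ℂ} {Ω : Type} [Field Ω] [DecidableEq Ω]
  [Algebra F Ω] [IsAlgClosure F Ω] {j : Ω →+* ℂ} {act : 𝓞 F →+* AddMonoid.End (Pt (WAB A B) Ω)} {mo : Ideal (𝓞 F)}
  {ψ : Ideal (𝓞 F) →*₀ 𝓞 F} {p : ℕ}

omit [NumberField F] [IQ F] [IsAlgClosure F Ω] in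
theorem x3a_act (n : ℕ) (P : Pt (WAB A B) Ω) : act (n : 𝓞 F) P = n • P := by
  rw [map_natCast]
  rfl

omit [NumberField F] [IQ F] [DecidableEq Ω] [IsAlgClosure F Ω] in
theorem x3a_ak (n : ℕ) : ak Ω (n : 𝓞 F) = (n : Ω) := by
  have h : (((n : 𝓞 F)) : F) = (n : F) := map_natCast (algebraMap (𝓞 F) F) n
  show algebraMap F Ω (((n : 𝓞 F)) : F) = (n : Ω)
  rw [h, map_natCast]

/-- One step: the value of a point over a point of larger exact order. -/
theorem x3a_step (h : CMA F A B Om j act) {V : ValuationSubring Ω} (hV : GV A B V) {β : 𝓞 F} (hβ : Prime β)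
    (hv : V.valuation (ak Ω β) < 1) (hv0 : V.valuation (ak Ω β) ≠ 0) {T : Pt (WAB A B) Ω} {m : ℕ} (hm : 0 < m) (h2 : 2 ≤ Nm β)
    (hR : Ker V (act β T)) (hval : V.valuation (tt (act β T)) ^ ((Nm β - 1) * m) = V.valuation (ak Ω β)) :
    Ker V T ∧ V.valuation (tt T) ^ ((Nm β - 1) * (m * Nm β)) = V.valuation (ak Ω β) := by
  classical
  have hT : Ker V T := H55K.ker_red h hV hβ hv hR
  refine ⟨hT, ?_⟩
  obtain ⟨S, hS, hcard⟩ := H55K.exists_TN h hβ.ne_zero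
  have hprod := H55K.ker_prod h hV hβ hv hS hT
  have hq1 : Nm β - 1 ≠ 0 := by omega
  have hSK : ∀ R ∈ S, Ker V R ∧ V.valuation (tt R) ^ (Nm β - 1) = V.valuation (ak Ω β) := by
    intro R hR'
    obtain ⟨h1, h2'⟩ := (hS R).1 hR'
    exact H55K.tor_ram h hV hβ hv (T := R) h1 h2'
  have hSne : S.Nonempty := by
    rw [← Finset.card_pos, hcard]
    omega
  obtain ⟨R₀, hR₀⟩ := hSne
  set τ := V.valuation (tt R₀) with hτ
  have hτq : τ ^ (Nm β - 1) = V.valuation (ak Ω β) := (hSK R₀ hR₀).2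
  have hτS : ∀ R ∈ S, V.valuation (tt R) = τ := by
    intro R hR'
    have e1 := (hSK R hR').2
    rw [← hτq] at e1
    exact (pow_left_inj₀ zero_le zero_le hq1).1 e1
  have hτ1 : τ < 1 := H55K.ttlt hV (hSK R₀ hR₀).1
  have hlt : τ < V.valuation (tt T) := by
    by_contra hcon
    push Not at hcon
    have hle : ∀ R ∈ S, V.valuation (tt (T + R)) ≤ τ := by
      intro R hR'
      have e1 := H55K.tt_add2 hV hT (hSK R hR').1 τ hcon (hτS R hR').le
      have e2 : τ ^ 2 ≤ τ := by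
        rw [sq]
        exact mul_le_of_le_one_left' hτ1.le
      have e3 : tt (T + R) = (tt (T + R) - tt T - tt R) + tt T + tt R := by ring
      rw [e3]
      exact Valuation.map_add_le _ (Valuation.map_add_le _ (e1.trans e2) hcon) (hτS R hR').le
    have hprod2 : V.valuation (tt (act β T)) ≤ τ ^ Nm β := by
      rw [← hprod]
      have e1 : ∏ R ∈ S, V.valuation (tt (T + R)) ≤ τ ^ (Nm β - 1) := by
        rw [← hcard]
        exact Finset.prod_le_pow_card _ _ _ hle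
      have e2 : Nm β = (Nm β - 1) + 1 := by omega
      calc V.valuation (tt T) * ∏ R ∈ S, V.valuation (tt (T + R)) ≤ τ * τ ^ (Nm β - 1) :=
            mul_le_mul' hcon e1
        _ = τ ^ Nm β := by
            conv_rhs => rw [e2]
            rw [pow_succ, mul_comm]
    have e4 : V.valuation (ak Ω β) ≤ V.valuation (ak Ω β) ^ (m * Nm β) := by
      calc V.valuation (ak Ω β) = V.valuation (tt (act β T)) ^ ((Nm β - 1) * m) := hval.symm
        _ ≤ (τ ^ Nm β) ^ ((Nm β - 1) * m) := pow_le_pow_left₀ zero_le hprod2 _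
        _ = (τ ^ (Nm β - 1)) ^ (m * Nm β) := by
            rw [← pow_mul, ← pow_mul]
            congr 1
            ring
        _ = V.valuation (ak Ω β) ^ (m * Nm β) := by rw [hτq]
    have e5 : 1 < m * Nm β := by nlinarith
    have e6 : V.valuation (ak Ω β) ^ (m * Nm β) < V.valuation (ak Ω β) := by
      have := pow_lt_pow_right_of_lt_one₀ (zero_lt_iff.2 hv0) hv e5
      rwa [pow_one] at this
    exact absurd e4 (not_le.2 e6)
  have hc1 : V.valuation (tt T) < 1 := H55K.ttlt hV hT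
  have hc0 : V.valuation (tt T) ≠ 0 := (lt_of_le_of_lt zero_le hlt).ne'
  have heq : ∀ R ∈ S, V.valuation (tt (T + R)) = V.valuation (tt T) := by
    intro R hR'
    have hRτ := hτS R hR'
    have e1 := H55K.tt_add2 hV hT (hSK R hR').1 (V.valuation (tt T)) le_rfl (by rw [hRτ]; exact hlt.le)
    have e2 : V.valuation (tt T) ^ 2 < V.valuation (tt T) := by
      have := pow_lt_pow_right_of_lt_one₀ (zero_lt_iff.2 hc0) hc1 (by norm_num : 1 < 2)
      rwa [pow_one] at this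
    have e3 : tt (T + R) - tt T = (tt (T + R) - tt T - tt R) + tt R := by ring
    refine Valuation.map_eq_of_sub_lt _ ?_
    rw [e3]
    exact Valuation.map_add_lt _ (lt_of_le_of_lt e1 e2) (by rw [hRτ]; exact hlt)
  have hpq : V.valuation (tt T) ^ Nm β = V.valuation (tt (act β T)) := by
    rw [← hprod, Finset.prod_congr rfl heq, Finset.prod_const, hcard]
    conv_lhs => rw [show Nm β = (Nm β - 1) + 1 by omega]
    rw [pow_succ, mul_comm]
  rw [← hval, ← hpq, ← pow_mul]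
  congr 1
  ring

theorem ram_val (dta : Dta A B Om j act mo ψ p) (hin : Prime (p : 𝓞 F)) {V : ValuationSubring Ω} (hV : V.valuation (p : Ω) < 1) (k : ℕ)
    (T : Pt (WAB A B) Ω) (hT : p ^ (k + 1) • T = 0) (hT0 : p ^ k • T ≠ 0) :
    Ker V T ∧ V.valuation (tt T) ^ ((p ^ 2 - 1) * (p ^ 2) ^ k) = V.valuation (p : Ω) := by
  have hG := dta.good V hV
  have hak : ak Ω (p : 𝓞 F) = (p : Ω) := x3a_ak p
  have hv : V.valuation (ak Ω (p : 𝓞 F)) < 1 := by
    rw [hak]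
    exact hV
  have hN : Nm (p : 𝓞 F) = p ^ 2 := H55K.Nm_nat p
  have h5 := dta.five
  have hchar : CharZero Ω := charZero_of_injective_algebraMap (algebraMap F Ω).injective
  have hv0 : V.valuation (ak Ω (p : 𝓞 F)) ≠ 0 := by
    rw [hak, Valuation.ne_zero_iff]
    exact_mod_cast dta.prime.ne_zero
  induction k generalizing T with
  | zero =>
    rw [zero_add, pow_one] at hT
    rw [pow_zero, one_smul] at hT0
    have hT' : T ∈ Tor act (p : 𝓞 F) := by
      show act (p : 𝓞 F) T = 0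
      rw [x3a_act]
      exact hT
    obtain ⟨h1, h2⟩ := H55K.tor_ram dta.cma hG hin hv hT' hT0
    refine ⟨h1, ?_⟩
    rw [hN, hak] at h2
    rw [pow_zero, mul_one]
    exact h2
  | succ k ih =>
    have hR : act (p : 𝓞 F) T = p • T := x3a_act p T
    have h1 : p ^ (k + 1) • (p • T) = 0 := by
      rw [← mul_smul, ← pow_succ]
      exact hT
    have h2 : p ^ k • (p • T) ≠ 0 := by
      rw [← mul_smul, ← pow_succ]
      exact hT0
    obtain ⟨h3, h4⟩ := ih (p • T) h1 h2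
    have hm : 0 < (p ^ 2) ^ k := by positivity
    have h6 := x3a_step dta.cma hG hin hv hv0 (T := T) hm (by rw [hN]; nlinarith) (by rw [hR]; exact h3)
      (by rw [hR, hN, hak]; exact h4)
    rw [hN, hak, ← pow_succ] at h6
    exact h6

end H35L
end

-- from Lib.H35L.X3BA
section

/-! # H35L, chunk X3BA (M): the number of automorphisms -/

open NumberField IsDedekindDomain WeierstrassCurve

namespace H35L

open H55P (IQ Pt ac Inert Dec Nm)
open H35P (WAB Ker tt)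
open H55K (Tor CMA Dta GV ak TFld)

variable {F : Type} [Field F] [NumberField F] [IQ F] {A B : F} {Om : ℂ} {Ω : Type} [Field Ω] [DecidableEq Ω]
  [Algebra F Ω] [IsAlgClosure F Ω] {j : Ω →+* ℂ} {act : 𝓞 F →+* AddMonoid.End (Pt (WAB A B) Ω)} {mo : Ideal (𝓞 F)}
  {ψ : Ideal (𝓞 F) →*₀ 𝓞 F} {p : ℕ}

theorem x3ba_card (p : ℕ) (k : ℕ) :
    Nat.card (𝓞 F ⧸ Ideal.span {((p : 𝓞 F) ^ k)}) = (p ^ 2) ^ k := by
  have h1 : Nm ((p : 𝓞 F) ^ k) = (p ^ 2) ^ k := by
    rw [← Nat.cast_pow, H55K.Nm_nat]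
    ring
  have h2 : Nat.card (𝓞 F ⧸ Ideal.span {((p : 𝓞 F) ^ k)}) = Nm ((p : 𝓞 F) ^ k) := by
    unfold Nm
    rw [Ideal.absNorm_apply, Submodule.cardQuot_apply]
  rw [h2, h1]

/-- The number of classes modulo p^(k+1) not divisible by p. -/
theorem x3ba_units {p : ℕ} (hp : 0 < p) (k : ℕ) :
    Nat.card {x : 𝓞 F ⧸ Ideal.span {((p : 𝓞 F) ^ (k + 1))} // ∀ a : 𝓞 F, Ideal.Quotient.mk _ a = x → ¬ (p : 𝓞 F) ∣ a} =
      (p ^ 2 - 1) * (p ^ 2) ^ k := by
  classical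
  have hle : Ideal.span {((p : 𝓞 F) ^ (k + 1))} ≤ Ideal.span {(p : 𝓞 F)} := by
    rw [Ideal.span_singleton_le_span_singleton]
    exact dvd_pow_self _ (Nat.succ_ne_zero k)
  let π : (𝓞 F ⧸ Ideal.span {((p : 𝓞 F) ^ (k + 1))}) →+* (𝓞 F ⧸ Ideal.span {(p : 𝓞 F)}) := Ideal.Quotient.factor hle
  have hπ : Function.Surjective π := Ideal.Quotient.factor_surjective hle
  have hc1 : Nat.card (𝓞 F ⧸ Ideal.span {((p : 𝓞 F) ^ (k + 1))}) = (p ^ 2) ^ (k + 1) := x3ba_card p (k + 1)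
  have hc2 : Nat.card (𝓞 F ⧸ Ideal.span {(p : 𝓞 F)}) = p ^ 2 := by
    have := x3ba_card (F := F) p 1
    rwa [pow_one, pow_one] at this
  have hfin : Finite (𝓞 F ⧸ Ideal.span {((p : 𝓞 F) ^ (k + 1))}) := by
    refine (Nat.card_ne_zero.1 ?_).2
    rw [hc1]
    positivity
  have hker : Nat.card (AddMonoidHom.ker π.toAddMonoidHom) = (p ^ 2) ^ k := by
    have h1 := AddSubgroup.card_eq_card_quotient_mul_card_addSubgroup (AddMonoidHom.ker π.toAddMonoidHom)
    rw [Nat.card_congr (QuotientAddGroup.quotientKerEquivOfSurjective π.toAddMonoidHom hπ).toEquiv, hc1, hc2, pow_succ,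
      mul_comm] at h1
    exact (Nat.eq_of_mul_eq_mul_left (by positivity) h1).symm
  have h3 := Set.ncard_add_ncard_compl ((AddMonoidHom.ker π.toAddMonoidHom : AddSubgroup _) : Set (𝓞 F ⧸ Ideal.span {((p : 𝓞 F) ^ (k + 1))}))
  rw [hc1, ← Nat.card_coe_set_eq] at h3
  have h4 : Nat.card ((AddMonoidHom.ker π.toAddMonoidHom : AddSubgroup _) : Set (𝓞 F ⧸ Ideal.span {((p : 𝓞 F) ^ (k + 1))})) = (p ^ 2) ^ k := hker
  rw [h4] at h3
  have h5 : Nat.card {x : 𝓞 F ⧸ Ideal.span {((p : 𝓞 F) ^ (k + 1))} // ∀ a : 𝓞 F, Ideal.Quotient.mk _ a = x → ¬ (p : 𝓞 F) ∣ a} =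
      (((AddMonoidHom.ker π.toAddMonoidHom : AddSubgroup _) : Set (𝓞 F ⧸ Ideal.span {((p : 𝓞 F) ^ (k + 1))}))ᶜ).ncard := by
    rw [← Nat.card_coe_set_eq]
    refine Nat.card_congr (Equiv.subtypeEquivRight fun x => ?_)
    show _ ↔ ¬ (π x = 0)
    constructor
    · intro h hx
      obtain ⟨a, rfl⟩ := Ideal.Quotient.mk_surjective x
      refine h a rfl ?_
      have e : π (Ideal.Quotient.mk _ a) = Ideal.Quotient.mk _ a := Ideal.Quotient.factor_mk hle a
      rw [e, Ideal.Quotient.eq_zero_iff_mem, Ideal.mem_span_singleton] at hx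
      exact hx
    · rintro hx a rfl hd
      apply hx
      have e : π (Ideal.Quotient.mk _ a) = Ideal.Quotient.mk _ a := Ideal.Quotient.factor_mk hle a
      rw [e, Ideal.Quotient.eq_zero_iff_mem, Ideal.mem_span_singleton]
      exact hd
  rw [h5]
  have h6 : (p ^ 2 - 1) * (p ^ 2) ^ k = (p ^ 2) ^ (k + 1) - (p ^ 2) ^ k := by
    rw [Nat.sub_mul, one_mul, pow_succ (p ^ 2) k, mul_comm (p ^ 2) ((p ^ 2) ^ k)]
  rw [h6, ← h3]
  omega

omit [NumberField F] [IQ F] [IsAlgClosure F Ω] in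
theorem x3ba_fix {k : ℕ} {s : Ω ≃ₐ[F] Ω} (h : ∀ T : PM act, p ^ k • T = 0 → aM act s T = T) :
    ∀ T ∈ Tor act ((p : 𝓞 F) ^ k), ac (WAB A B) s T = T :=
  fun T hT => h T ((x1_smul (act := act) k T).symm.trans hT)

theorem tf_card (dta : Dta A B Om j act mo ψ p) (hin : Prime (p : 𝓞 F)) (k : ℕ) {N : Type} [Field N] [NumberField N] [Algebra F N] [Algebra N Ω]
    [IsScalarTower F N Ω] (hN : TFld act F N ((p : 𝓞 F) ^ (k + 1))) : Module.finrank F N ≤ (p ^ 2 - 1) * (p ^ 2) ^ k := by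
  classical
  have hgal : IsGalois F N := hN.gal
  have hpp : 0 < p := dta.prime.pos
  choose s hs using fun σ : Gal(N/F) => H55K.exists_lft (F := F) (Ω := Ω) σ
  choose a ha hcop using fun σ : Gal(N/F) => ch_exists dta (k + 1) (s σ)
  have hfin : Finite (𝓞 F ⧸ Ideal.span {((p : 𝓞 F) ^ (k + 1))}) := by
    refine (Nat.card_ne_zero.1 ?_).2
    rw [x3ba_card p]
    positivity
  let f : Gal(N/F) → {x : 𝓞 F ⧸ Ideal.span {((p : 𝓞 F) ^ (k + 1))} // ∀ a : 𝓞 F, Ideal.Quotient.mk _ a = x → ¬ (p : 𝓞 F) ∣ a} :=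
    fun σ => ⟨Ideal.Quotient.mk _ (a σ), by
      intro b hb hd
      rw [Ideal.Quotient.eq, Ideal.mem_span_singleton] at hb
      have h1 : (p : 𝓞 F) ∣ a σ := by
        have h2 : (p : 𝓞 F) ∣ b - a σ := (dvd_pow_self _ (Nat.succ_ne_zero k)).trans hb
        have h3 := dvd_sub hd h2
        rwa [sub_sub_cancel] at h3
      exact hin.not_isUnit ((hcop σ).isUnit_of_dvd' h1 dvd_rfl)⟩
  have hinj : Function.Injective f := by
    intro σ τ hστ
    have h1 : Ideal.Quotient.mk (Ideal.span {((p : 𝓞 F) ^ (k + 1))}) (a σ) = Ideal.Quotient.mk _ (a τ) := congrArg Subtype.val hστ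
    rw [Ideal.Quotient.eq, Ideal.mem_span_singleton] at h1
    have h2 : Ch act p (k + 1) (s τ) (a σ) := ch_congr (ha τ) (by rw [← neg_sub, dvd_neg]; exact h1)
    have hu : H55K.Lft (τ⁻¹ * σ) ((s τ)⁻¹ * s σ) := (hs τ).inv.mul (hs σ)
    have h3 : H55K.Fxd N ((s τ)⁻¹ * s σ) := by
      refine hN.gen _ hu.fxd (x3ba_fix fun T hT' => ?_)
      rw [aM_mul, ha σ T hT', ← h2 T hT', ← aM_mul, inv_mul_cancel, aM_one]
    exact (inv_mul_eq_one.1 ((H55K.lft_fxd hu).1 h3)).symm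
  have h1 := Nat.card_le_card_of_injective f hinj
  rw [IsGalois.card_aut_eq_finrank, x3ba_units hpp] at h1
  exact h1

end H35L
end

-- from Lib.H35L.X3B
section

/-! # H35L, chunk X3B (M): total ramification of the field of the points killed by p^k -/

open NumberField IsDedekindDomain WeierstrassCurve

namespace H35L

open H55P (IQ Pt ac Inert Dec Nm)
open H35P (WAB Ker tt)
open H55K (Tor CMA Dta GV ak TFld)

variable {F : Type} [Field F] [NumberField F] [IQ F] {A B : F} {Om : ℂ} {Ω : Type} [Field Ω] [DecidableEq Ω]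
  [Algebra F Ω] [IsAlgClosure F Ω] {j : Ω →+* ℂ} {act : 𝓞 F →+* AddMonoid.End (Pt (WAB A B) Ω)} {mo : Ideal (𝓞 F)}
  {ψ : Ideal (𝓞 F) →*₀ 𝓞 F} {p : ℕ}

/-- The prime (p) of F. -/
theorem x3b_prime (hin : Prime (p : 𝓞 F)) : ∃ v : HeightOneSpectrum (𝓞 F), v.asIdeal = Ideal.span {(p : 𝓞 F)} ∧
    v.valuation F ((p : 𝓞 F) : F) = WithZero.exp (-1 : ℤ) := by
  have hP : (Ideal.span {(p : 𝓞 F)}).IsPrime := (Ideal.span_singleton_prime hin.ne_zero).2 hin
  have hne : (Ideal.span {(p : 𝓞 F)}) ≠ ⊥ := by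
    rw [Ne, Ideal.span_singleton_eq_bot]
    exact hin.ne_zero
  refine ⟨⟨_, hP, hne⟩, rfl, ?_⟩
  have h1 := HeightOneSpectrum.valuation_of_algebraMap (K := F) (v := ⟨Ideal.span {(p : 𝓞 F)}, hP, hne⟩) (p : 𝓞 F)
  exact h1.trans (HeightOneSpectrum.intValuation_singleton _ hin.ne_zero rfl)

theorem tf_ram (dta : Dta A B Om j act mo ψ p) (hin : Prime (p : 𝓞 F)) (k : ℕ) {N : Type} [Field N] [NumberField N] [Algebra F N] [Algebra N Ω]
    [IsScalarTower F N Ω] (hN : TFld act F N ((p : 𝓞 F) ^ (k + 1))) : Module.finrank F N = (p ^ 2 - 1) * (p ^ 2) ^ k ∧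
      ∀ W W' : HeightOneSpectrum (𝓞 N), (p : 𝓞 N) ∈ W.asIdeal → (p : 𝓞 N) ∈ W'.asIdeal → W = W' := by
  classical
  have hgal : IsGalois F N := hN.gal
  obtain ⟨v, hvI, hv⟩ := x3b_prime (F := F) hin
  have hle : Module.finrank F N ≤ (p ^ 2 - 1) * (p ^ 2) ^ k := tf_card dta hin k hN
  set P : ℕ := (p ^ 2 - 1) * (p ^ 2) ^ k with hP
  have h5 := dta.five
  have hP0 : P ≠ 0 := by
    have h1 : 0 < p ^ 2 - 1 := by
      have : 1 < p ^ 2 := by nlinarith
      omega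
    have h2 : 0 < (p ^ 2) ^ k := by positivity
    rw [hP]
    exact (Nat.mul_pos h1 h2).ne'
  have hbF : (((p : 𝓞 F)) : F) ≠ 0 := by
    intro h1
    exact hin.ne_zero (by exact_mod_cast h1)
  obtain ⟨x, hx⟩ : ∃ x : Fˣ, (x : F) = ((p : 𝓞 F) : F) := ⟨Units.mk0 _ hbF, rfl⟩
  have hordv : H55R.ord v x = 1 := by
    have h1 := H55R.BF1_val v x
    rw [hx, hv, WithZero.exp_inj] at h1
    omega
  have hakN : ((Units.map (algebraMap F N : F →* N) x : Nˣ) : N) = algebraMap F N ((p : 𝓞 F) : F) := by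
    show algebraMap F N (x : F) = _
    rw [hx]
  have hval : ∀ W : HeightOneSpectrum (𝓞 N), W.under (𝓞 F) = v →
      W.valuation N (algebraMap F N ((p : 𝓞 F) : F)) = WithZero.exp (-(H55R.es F N v : ℤ)) := by
    intro W hW
    have h1 := H55R.ord_map W v hW x
    rw [hordv, mul_one] at h1
    have h2 := H55R.BF1_val W (Units.map (algebraMap F N : F →* N) x)
    rw [h1, hakN] at h2
    exact h2
  have hes : 0 < H55R.es F N v := H55R.es_pos v
  have hfs : 0 < H55R.fs F N v := H55R.fs_pos v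
  have key : ∀ W : HeightOneSpectrum (𝓞 N), W.under (𝓞 F) = v → ∀ R : Pt (WAB A B) Ω, p ^ (k + 1) • R = 0 → p ^ k • R ≠ 0 →
      ∀ t : N, algebraMap N Ω t = tt R → ∃ m : ℕ, m * P = H55R.es F N v := by
    intro W hW R hR h0 t ht
    obtain ⟨V, hV⟩ := H55K.exists_abw Ω W
    have hbΩ : (p : Ω) = algebraMap N Ω (algebraMap F N ((p : 𝓞 F) : F)) := by
      rw [← IsScalarTower.algebraMap_apply F N Ω]
      exact (x3a_ak p).symm
    have hWb : W.valuation N (algebraMap F N ((p : 𝓞 F) : F)) < 1 := by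
      rw [hval W hW, ← WithZero.exp_zero, WithZero.exp_lt_exp]
      omega
    have hvb : V.valuation (p : Ω) < 1 := by
      rw [hbΩ, hV.lt]
      exact hWb
    obtain ⟨-, h2⟩ := ram_val dta hin hvb k R hR h0
    rw [← hP, ← ht, hbΩ, ← map_pow, ← map_pow, hV.eq, map_pow] at h2
    have hne : W.valuation N (algebraMap F N ((p : 𝓞 F) : F)) ≠ 0 := by
      rw [hval W hW]
      exact WithZero.exp_ne_zero
    have ht0 : W.valuation N t ≠ 0 := by
      intro h3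
      rw [h3, zero_pow hP0] at h2
      exact hne h2.symm
    obtain ⟨c, hc⟩ : ∃ c : ℤ, W.valuation N t = WithZero.exp c :=
      ⟨WithZero.log (W.valuation N t), (WithZero.exp_log ht0).symm⟩
    rw [hval W hW, hc, ← WithZero.exp_nsmul, WithZero.exp_inj, nsmul_eq_mul] at h2
    have hc0 : c ≤ 0 := by
      by_contra hcon
      push Not at hcon
      have h3 : (0 : ℤ) < (P : ℤ) := by omega
      have h4 : (0 : ℤ) < (P : ℤ) * c := mul_pos h3 hcon
      omega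
    obtain ⟨m, hm⟩ : ∃ m : ℕ, c = -(m : ℤ) := ⟨c.natAbs, by omega⟩
    refine ⟨m, ?_⟩
    rw [hm] at h2
    have h5 : ((m * P : ℕ) : ℤ) = (H55R.es F N v : ℤ) := by
      rw [Nat.cast_mul]
      linarith
    exact_mod_cast h5
  obtain ⟨W₀, hW₀⟩ := H55R.under_exists (L := N) v
  obtain ⟨T, hT, -, hT2⟩ := tor_gen dta (k + 1)
  have hT0 : p ^ k • T ≠ 0 := by
    intro h0
    rw [← x1_smul (act := act) k T, hT2] at h0
    have h1 : (p : 𝓞 F) ^ (k + 1) ∣ (p : 𝓞 F) ^ k * 1 := by rwa [mul_one]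
    rw [pow_succ] at h1
    have h2 := (mul_dvd_mul_iff_left (pow_ne_zero k hin.ne_zero)).1 h1
    exact hin.not_isUnit (isUnit_of_dvd_one h2)
  have hTm : (T : Pt (WAB A B) Ω) ∈ Tor act ((p : 𝓞 F) ^ (k + 1)) := (x1_smul (act := act) (k + 1) T).trans hT
  obtain ⟨a, b, ha, hb⟩ := hN.crd T hTm
  obtain ⟨m, hm⟩ := key W₀ hW₀ T hT hT0 (a / b) (by rw [map_div₀, ha, hb]; exact (H55K.tt_xy _).symm)
  have hcard := H55R.D5_card (L := N) v
  have hcpos : 0 < (H55R.D5_T (L := N) v).card :=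
    Finset.card_pos.2 ⟨W₀, (H55R.D5_mem v W₀).2 hW₀⟩
  obtain ⟨hc1, hf1, hm1⟩ := H55K.k3_arith hcpos hfs hes hm (hcard.le.trans hle)
  have hes1 : H55R.es F N v = P := by rw [← hm, hm1, one_mul]
  refine ⟨?_, ?_⟩
  · rw [← hcard, hc1, hf1, hes1, one_mul, mul_one]
  · have hu : ∀ W : HeightOneSpectrum (𝓞 N), (p : 𝓞 N) ∈ W.asIdeal → W.under (𝓞 F) = v := by
      intro W hW
      apply HeightOneSpectrum.ext
      have hmax : v.asIdeal.IsMaximal := v.isMaximal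
      have hle2 : v.asIdeal ≤ (W.under (𝓞 F)).asIdeal := by
        rw [hvI, Ideal.span_singleton_le_iff_mem]
        show algebraMap (𝓞 F) (𝓞 N) (p : 𝓞 F) ∈ W.asIdeal
        rw [map_natCast]
        exact hW
      exact (hmax.eq_of_le (W.under (𝓞 F)).isPrime.ne_top hle2).symm
    intro W W' hW hW'
    obtain ⟨Z, hZ⟩ := Finset.card_eq_one.1 hc1
    have h1 : W ∈ H55R.D5_T (L := N) v := (H55R.D5_mem v W).2 (hu W hW)
    have h2 : W' ∈ H55R.D5_T (L := N) v := (H55R.D5_mem v W').2 (hu W' hW')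
    rw [hZ, Finset.mem_singleton] at h1 h2
    rw [h1, h2]

end H35L
end

-- from Lib.H35L.C4E
section

/-! # H35L, chunk C4E (S/M): division of classes of points -/

open NumberField IsDedekindDomain WeierstrassCurve

namespace H35L

open H55P (IQ Pt ac Inert Dec Nm)
open H35P (WAB)
open H55K (CMA Dta)
open H35K (Lev)

variable {F : Type} [Field F] [NumberField F] [IQ F] {A B : F} {Om : ℂ} {Ω : Type} [Field Ω] [DecidableEq Ω]
  [Algebra F Ω] [IsAlgClosure F Ω] {j : Ω →+* ℂ} {act : 𝓞 F →+* AddMonoid.End (Pt (WAB A B) Ω)} {mo : Ideal (𝓞 F)}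
  {ψ : Ideal (𝓞 F) →*₀ 𝓞 F} {p : ℕ}

theorem c4e_div (dta : Dta A B Om j act mo ψ p) (P : PM act) : ∃ Q : PM act, p • Q = P := by
  have hp0 : (p : 𝓞 F) ≠ 0 := by
    exact_mod_cast dta.prime.ne_zero
  obtain ⟨Q, hQ⟩ := dta.cma.surj (p : 𝓞 F) hp0 P
  refine ⟨Q, ?_⟩
  rw [← Nat.cast_smul_eq_nsmul (𝓞 F)]
  exact hQ

theorem c4e_pl {G : Subgroup (Ω ≃ₐ[F] Ω)} {n : ℕ} {P Q : PM act} (hP : PL act p G n P) (hQ : p • Q = P) :
    PL act p G n Q := by
  obtain ⟨k, hk⟩ := hP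
  refine ⟨k + 1, fun s hs => ?_⟩
  rw [pow_succ, mul_smul, hQ]
  exact hk s hs

theorem c4e_ext {G : Subgroup (Ω ≃ₐ[F] Ω)} {I : (Ω ≃ₐ[F] Ω) → Prop} {hc : Cm act} {f g : SM act hc p G I}
    (h : ∀ h, SH act G p h → f.1 h = g.1 h) : f = g := by
  apply Subtype.ext
  funext x
  by_cases hx : SH act G p x
  · exact h x hx
  · have hf : IsCls act p (SH act G p) I (SN G p) f.1 := f.2
    have hg : IsCls act p (SH act G p) I (SN G p) g.1 := g.2
    rw [hf.out x hx, hg.out x hx]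

theorem c4e_main (dta : Dta A B Om j act mo ψ p) {G : Subgroup (Ω ≃ₐ[F] Ω)} {I : (Ω ≃ₐ[F] Ω) → Prop} (hc : Cm act) (n : ℕ)
    (hI : ∀ P : PM act, PL act p G n P → ∀ h, SH act G p h → I h → aM act h P = P)
    (w : SM act hc p G I) (hw : w ∈ DM act hc p G I n) : ∃ w' ∈ DM act hc p G I n, p • w' = w := by
  obtain ⟨P, hP, hwP⟩ := hw
  obtain ⟨Q, hQ⟩ := c4e_div dta P
  have hQl := c4e_pl hP hQ
  obtain ⟨w', hw', hw'Q⟩ := pt_cls dta hc hQl (hI Q hQl)
  refine ⟨w', hw', ?_⟩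
  apply c4e_ext
  intro h hh
  have h1 : (p • w').1 h = p • w'.1 h := rfl
  rw [h1, hw'Q h hh, hwP h hh, smul_sub, hQ, ← map_nsmul, hQ]

/-- Chunk C4e (S/M). Divide the point by p (multiplication by p is onto: CMA.surj): the class of P/p by pt_cls. For G = Dec V, I empty. -/
theorem ddiv (dta : Dta A B Om j act mo ψ p) {G : Subgroup (Ω ≃ₐ[F] Ω)} {I : (Ω ≃ₐ[F] Ω) → Prop} (hc : Cm act) (hI : ∀ h, ¬ I h) (n : ℕ)
    (w : SM act hc p G I) (hw : w ∈ DM act hc p G I n) : ∃ w' ∈ DM act hc p G I n, p • w' = w :=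
  c4e_main dta hc n (fun _ _ h _ hi => absurd hi (hI h)) w hw

/-- Chunk C4f (S/M). The same for I = GI p (inertia outside p): for h in SH and in the inertia group of V, V(p) = 1, and P with p^k P of level n: h P - P is killed by p^k, and h fixes the points killed by p, so h P = P by H55K.inert_fix. -/
theorem ddiv_gi (dta : Dta A B Om j act mo ψ p) (hin : Prime (p : 𝓞 F)) {G : Subgroup (Ω ≃ₐ[F] Ω)} (hc : Cm act) (n : ℕ)
    (w : SM act hc p G (GI p)) (hw : w ∈ DM act hc p G (GI p) n) : ∃ w' ∈ DM act hc p G (GI p) n, p • w' = w := by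
  refine c4e_main dta hc n ?_ w hw
  rintro P ⟨k, hk⟩ h hh ⟨V, hV, hin'⟩
  obtain ⟨Kg, u, hG⟩ := dta.gmod V
  have hfix : ∀ T ∈ H55K.Tor act (p : 𝓞 F), ac (WAB A B) h T = T := by
    intro T hT
    refine hh.2 T ⟨1, ?_⟩
    rw [pow_one, ← Nat.cast_smul_eq_nsmul (𝓞 F)]
    exact hT
  have hkV : V.valuation ((p ^ k : ℕ) : Ω) = 1 := by
    rw [Nat.cast_pow, map_pow, hV, one_pow]
  refine H55K.inert_fix dta.cma dta.prime dta.five hin dvd_rfl hG hV h hin' hfix (p ^ k) hkV P ?_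
  have h1 : SN G p n h := ⟨hh.1, fa_gc dta hh.2 n⟩
  have h2 := hk h h1
  have h3 : p ^ k • (aM act h P - P) = 0 := by
    rw [smul_sub, ← map_nsmul, h2, sub_self]
  exact h3

end H35L
end

-- from Lib.H35L.S0BA
section

/-! # H35L, chunk S0BA (S/M): Frobenius minus one is onto -/

open NumberField IsDedekindDomain WeierstrassCurve

namespace H35L

open H55P (IQ Pt ac Inert Dec Nm)
open H35P (WAB)
open H55K (CMA Dta)
open H35K (Lev)

variable {F : Type} [Field F] [NumberField F] [IQ F] {A B : F} {Om : ℂ} {Ω : Type} [Field Ω] [DecidableEq Ω]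
  [Algebra F Ω] [IsAlgClosure F Ω] {j : Ω →+* ℂ} {act : 𝓞 F →+* AddMonoid.End (Pt (WAB A B) Ω)} {mo : Ideal (𝓞 F)}
  {ψ : Ideal (𝓞 F) →*₀ 𝓞 F} {p : ℕ} {M : IntermediateField F Ω} {V : ValuationSubring Ω} {γ : Ω ≃ₐ[F] Ω} {g : ℕ} {s₀ : Fin g → (Ω ≃ₐ[F] Ω)}

/-- The norm of the character of a Frobenius element. -/
theorem s0ba_nm (dta : Dta A B Om j act mo ψ p) {V' : ValuationSubring Ω} (hV : V'.valuation (p : Ω) = 1)
    {φ : Ω ≃ₐ[F] Ω} {N : ℕ} (hφ : ∀ x ∈ V', V'.valuation (φ x - x ^ N) < 1) {k : ℕ} {a : 𝓞 F}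
    (ha : Ch act p k φ a) : Nm a ≡ N [MOD p ^ k] := by
  have hpk : p ^ k ≠ 0 := pow_ne_zero _ dta.prime.ne_zero
  obtain ⟨ζ, hζ⟩ := x2_prim dta k
  have h1 := ch_cyc dta ha ζ hζ.pow_eq_one
  have h2 := x2_zeta hpk hζ.pow_eq_one V' (by
    rw [Nat.cast_pow, map_pow, hV, one_pow]
    exact lt_irrefl _) N φ hφ
  exact x2_pow hζ (Nat.pos_of_ne_zero hpk) (h1.symm.trans h2)

/-- The character of a Frobenius element is not 1 modulo a high power of p. -/
theorem s0ba_ne (dta : Dta A B Om j act mo ψ p) {V' : ValuationSubring Ω} (hV : V'.valuation (p : Ω) = 1)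
    {φ : Ω ≃ₐ[F] Ω} {N : ℕ} (hN : 2 ≤ N) (hφ : ∀ x ∈ V', V'.valuation (φ x - x ^ N) < 1) {k : ℕ} (hk : N ≤ k) {a : 𝓞 F}
    (ha : Ch act p k φ a) : ¬ (p : 𝓞 F) ^ N ∣ a - 1 := by
  rintro ⟨c, hc⟩
  have h1 : (Nm a : ℤ) ≡ N [ZMOD (p ^ k : ℕ)] := (Int.natCast_modEq_iff).2 (s0ba_nm dta hV hφ ha)
  have h2 : ((p ^ N : ℕ) : 𝓞 F) ∣ (((Nm a : ℤ) - 1 : ℤ) : 𝓞 F) := by
    have h3 := H55K.mul_cj a
    have h4 : a = 1 + (p : 𝓞 F) ^ N * c := by linear_combination hc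
    have h5 : H55K.cj a = 1 + (p : 𝓞 F) ^ N * H55K.cj c := by
      rw [h4, map_add, map_one, map_mul, map_pow, H55K.cj_nat]
    refine ⟨c + H55K.cj c + (p : 𝓞 F) ^ N * c * H55K.cj c, ?_⟩
    push_cast
    rw [← h3, h5]
    nth_rewrite 1 [h4]
    ring
  have h3 := x2_nat_dvd h2
  have h4 : ((p ^ N : ℕ) : ℤ) ∣ (N : ℤ) - (Nm a : ℤ) :=
    (Int.natCast_dvd_natCast.2 (pow_dvd_pow p hk)).trans (Int.modEq_iff_dvd.1 h1)
  have h5 : ((p ^ N : ℕ) : ℤ) ∣ ((N - 1 : ℕ) : ℤ) := by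
    have h6 := dvd_add h4 h3
    have h7 : ((N - 1 : ℕ) : ℤ) = (N : ℤ) - (Nm a : ℤ) + ((Nm a : ℤ) - 1) := by
      rw [Nat.cast_sub (by omega)]
      push_cast
      ring
    rw [h7]
    exact h6
  have h6 : p ^ N ∣ N - 1 := Int.natCast_dvd_natCast.1 h5
  have h7 := Nat.le_of_dvd (by omega) h6
  have h8 : N < p ^ N := Nat.lt_pow_self dta.prime.one_lt
  omega

/-- Chunk S0Ba (S/M). V(p) = 1, phi x = x^N modulo the maximal ideal, N >= 2: phi - 1 is onto on the points of order a power of p. z^(p^k) = 1: phi z = z^N (different p^k-th roots of unity are different modulo V, as V(p) = 1: see H55K.S.PA1_zeta), phi acts as a_k on the points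
killed by p^k: Nm a_k = N modulo p^k (ch_cyc). p^r does not divide N - 1: so p^r does not divide a_k - 1 for k >= r (else Nm a_k = 1 modulo p^r): a_k - 1 = p^j u modulo p^k, j < r fixed, u prime to p. P killed by p^s: Q killed by p^(s+j) with (a_(s+j) - 1) Q = P. -/
theorem frob_surj (dta : Dta A B Om j act mo ψ p) (hin : Prime (p : 𝓞 F)) {V' : ValuationSubring Ω} (hV : V'.valuation (p : Ω) = 1) {φ : Ω ≃ₐ[F] Ω} {N : ℕ} (hN : 2 ≤ N)
    (hφ : ∀ x ∈ V', V'.valuation (φ x - x ^ N) < 1) (P : PM act) (hP : ∃ k : ℕ, p ^ k • P = 0) :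
    ∃ Q : PM act, (∃ k : ℕ, p ^ k • Q = 0) ∧ aM act φ Q - Q = P := by
  obtain ⟨t, ht⟩ := hP
  obtain ⟨a, ha, -⟩ := ch_exists dta (t + N) φ
  have hne := s0ba_ne dta hV hN hφ (by omega) ha
  have hfin : FiniteMultiplicity (p : 𝓞 F) (a - 1) := by
    refine ⟨N, fun h => hne ?_⟩
    exact (pow_dvd_pow _ (Nat.le_succ N)).trans h
  obtain ⟨u, hu, hu'⟩ := hfin.exists_eq_pow_mul_and_not_dvd
  set i := multiplicity (p : 𝓞 F) (a - 1) with hi
  have hiN : i < N := by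
    by_contra hcon
    exact hne ((pow_dvd_pow _ (not_lt.1 hcon)).trans ⟨u, hu⟩)
  have h5 : IsCoprime (p : 𝓞 F) u := (hin.irreducible.coprime_iff_not_dvd).2 hu'
  have h6 : IsCoprime u ((p : 𝓞 F) ^ (t + N)) := h5.symm.pow_right
  obtain ⟨x, y, hxy⟩ := h6
  have hp0 : ((p : 𝓞 F)) ^ i ≠ 0 := pow_ne_zero _ (by exact_mod_cast dta.prime.ne_zero)
  obtain ⟨Q', hQ'⟩ := dta.cma.surj _ hp0 P
  have hQ1 : ((p : 𝓞 F) ^ i) • (show PM act from Q') = P := hQ'
  have hQ2 : p ^ (t + N) • (show PM act from Q') = 0 := by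
    obtain ⟨m, hm⟩ := Nat.exists_eq_add_of_le (show t + i ≤ t + N by omega)
    have h7 : p ^ (t + N) = p ^ m * (p ^ t * p ^ i) := by
      rw [hm, pow_add, pow_add, mul_comm]
    rw [h7, mul_smul, mul_smul, ← x5_nat i, hQ1, ht, smul_zero]
  have hQ3 : p ^ (t + N) • (x • (show PM act from Q')) = 0 := by rw [smul_comm, hQ2, smul_zero]
  refine ⟨x • (show PM act from Q'), ⟨t + N, hQ3⟩, ?_⟩
  rw [ha _ hQ3]
  have h8 : a • x • (show PM act from Q') - x • (show PM act from Q') =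
      ((p : 𝓞 F) ^ i) • ((x * u) • (show PM act from Q')) := by
    rw [← mul_smul, ← sub_smul, ← mul_smul]
    refine congrArg (fun z : 𝓞 F => z • (show PM act from Q')) ?_
    linear_combination x * hu
  have h9 : (x * u) • (show PM act from Q') = (show PM act from Q') := by
    have h10 : (x * u + y * (p : 𝓞 F) ^ (t + N)) • (show PM act from Q') = (show PM act from Q') := by
      rw [hxy, one_smul]
    rw [add_smul, mul_smul y, x5_nat, hQ2, smul_zero, add_zero] at h10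
    exact h10
  rw [h8, h9, hQ1]

end H35L
end

-- from Lib.H35L.S0B
section

/-! # H35L, chunk S0B (M): unramified classes are locally trivial outside p -/

open NumberField IsDedekindDomain WeierstrassCurve

namespace H35L

open H55P (IQ Pt ac Inert Dec Nm)
open H35P (WAB)
open H55K (CMA Dta)
open H35K (Lev)

variable {F : Type} [Field F] [NumberField F] [IQ F] {A B : F} {Om : ℂ} {Ω : Type} [Field Ω] [DecidableEq Ω]
  [Algebra F Ω] [IsAlgClosure F Ω] {j : Ω →+* ℂ} {act : 𝓞 F →+* AddMonoid.End (Pt (WAB A B) Ω)} {mo : Ideal (𝓞 F)}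
  {ψ : Ideal (𝓞 F) →*₀ 𝓞 F} {p : ℕ} {M : IntermediateField F Ω} {V : ValuationSubring Ω} {γ : Ω ≃ₐ[F] Ω} {g : ℕ} {s₀ : Fin g → (Ω ≃ₐ[F] Ω)}

/-- Chunk S0B (M). K a finite extension of F, c a continuous cocycle on Gal(Ω/K) with values of order a power of p, zero on the elements of inertia groups outside p acting trivially on the points of order a power of p: c is a coboundary on Dec V', V' <> Ω, V'(p) = 1. PROOF.
(1) Some iota in Inert V', fixing K, moves a point killed by p: iota - 1 is bijective (tb_of_ne); for s in G₁ = Gal(Ω/K) ∩ Dec V' the commutator of iota and s is in Inert V' (normal in Dec V': H55P.inS_dec), and acts trivially (fa_comm), so c is zero on it: cob.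
(2) Otherwise all elements of Inert V' fixing K act trivially (fa_of_inert), c is zero on them. phi from frob_gen, c(phi) = phi Q - Q (frob_surj): c' = c - (s Q - Q) is zero on phi, on its powers, and on the inertia elements; every s in G₁ is phi^i iota on L, where c and Q are
trivial: c'(s) = c'(phi^i iota) = 0 (c'(s) = c'(t) if s = t on L: s = t (t^-1 s), t^-1 s fixes L). -/
theorem loc_np (dta : Dta A B Om j act mo ψ p) (hin : Prime (p : 𝓞 F)) (K : IntermediateField F Ω) [FiniteDimensional F K] {c : (Ω ≃ₐ[F] Ω) → PM act}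
    (hco : IsCo act K.fixingSubgroup c) (ht : ∀ s ∈ K.fixingSubgroup, ∃ k : ℕ, p ^ k • c s = 0)
    (hu : ∀ h, SH act K.fixingSubgroup p h → GI p h → c h = 0) {V' : ValuationSubring Ω} (hV : V' ≠ ⊤) (hVp : V'.valuation (p : Ω) = 1) :
    ∃ P : PM act, (∃ k : ℕ, p ^ k • P = 0) ∧ ∀ s ∈ K.fixingSubgroup, Dec V' s → c s = aM act s P - P := by
  classical
  have hal0 : Algebra.IsAlgebraic F Ω := IsAlgClosure.isAlgebraic
  by_cases hmv : ∃ ι : Ω ≃ₐ[F] Ω, Inert V' ι ∧ ι ∈ K.fixingSubgroup ∧ ∃ T : PM act, p • T = 0 ∧ aM act ι T ≠ T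
  · obtain ⟨ι, hιI, hιK, T, hT, hne⟩ := hmv
    have hb := tb_of_ne dta hin hT hne
    have hιD : Dec V' ι := H55P.inert_dec V' ι hιI
    obtain ⟨a, -, ha1, ha2⟩ := cob dta (G := K.fixingSubgroup ⊓ H55P.decS F V') (σ := ι) ⟨hιK, hιD⟩ hb (c := c)
      (fun s hs t ht' => hco.mul s hs.1 t ht'.1) (fun s hs => ht s hs.1) (by
      intro s hs
      refine hu _ ⟨mul_mem (mul_mem (mul_mem hιK hs.1) (inv_mem hιK)) (inv_mem hs.1), fa_comm dta ι s⟩ ⟨V', hVp, ?_⟩
      have h1 : ι * s * ι⁻¹ * s⁻¹ = ι * (s * ι⁻¹ * s⁻¹) := by group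
      rw [h1]
      have h0 : ι ∈ H55P.inS F V' := hιI
      have h2 : s * ι⁻¹ * s⁻¹ ∈ H55P.inS F V' := H55P.inS_dec V' s hs.2 ι⁻¹ (inv_mem h0)
      exact mul_mem h0 h2)
    exact ⟨a, ha1, fun s hs hD => ha2 s ⟨hs, hD⟩⟩
  · have hfix : ∀ ι : Ω ≃ₐ[F] Ω, Inert V' ι → ι ∈ K.fixingSubgroup → FA act p ι := by
      intro ι h1 h2
      refine fa_of_inert dta hin hVp h1 fun T hT => ?_
      by_contra hne
      exact hmv ⟨ι, h1, h2, T, hT, hne⟩
    obtain ⟨φ, N, hφK, hφD, hN2, hφc, hgen⟩ := frob_gen K V' hV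
    obtain ⟨Q, hQt, hQ⟩ := frob_surj dta hin hVp hN2 hφc (c φ) (ht φ hφK)
    set c' : (Ω ≃ₐ[F] Ω) → PM act := fun s => c s - (aM act s Q - Q) with hc'
    have hmul : ∀ s ∈ K.fixingSubgroup, ∀ t ∈ K.fixingSubgroup, c' (s * t) = c' s + aM act s (c' t) := by
      intro s hs t ht'
      simp only [hc']
      rw [hco.mul s hs t ht', aM_mul, map_sub, map_sub]
      abel
    have hφ0 : c' φ = 0 := by
      simp only [hc']
      rw [hQ, sub_self]
    have hone : c' 1 = 0 := by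
      have h1 := hmul 1 (one_mem _) 1 (one_mem _)
      rw [mul_one, aM_one] at h1
      exact (left_eq_add.1 h1)
    have hpow : ∀ i : ℕ, c' (φ ^ i) = 0 := by
      intro i
      induction i with
      | zero => rw [pow_zero]; exact hone
      | succ i ih => rw [pow_succ, hmul _ (pow_mem hφK i) _ hφK, ih, hφ0, map_zero, add_zero]
    have hin0 : ∀ ι : Ω ≃ₐ[F] Ω, Inert V' ι → ι ∈ K.fixingSubgroup → c' ι = 0 := by
      intro ι h1 h2
      have h3 := hfix ι h1 h2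
      simp only [hc']
      rw [hu ι ⟨h2, h3⟩ ⟨V', hVp, h1⟩, h3 Q hQt, sub_self, sub_self]
    obtain ⟨L, hL, hL0⟩ := hco.cont
    obtain ⟨L2, hL2, hL20⟩ := H55P.pt_open (WAB A B) (Q : Pt (WAB A B) Ω)
    refine ⟨Q, hQt, fun s hs hD => ?_⟩
    obtain ⟨i, ι, hιK, hιI, hsι⟩ := hgen (L ⊔ L2) (IntermediateField.finiteDimensional_sup L L2) s hs hD
    set t : Ω ≃ₐ[F] Ω := φ ^ i * ι with htd
    have htK : t ∈ K.fixingSubgroup := mul_mem (pow_mem hφK i) hιK
    have huK : t⁻¹ * s ∈ K.fixingSubgroup := mul_mem (inv_mem htK) hs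
    have huL : t⁻¹ * s ∈ (L ⊔ L2).fixingSubgroup := by
      rw [IntermediateField.mem_fixingSubgroup_iff]
      intro x hx
      rw [AlgEquiv.mul_apply, hsι x hx]
      exact t.symm_apply_apply x
    rw [IntermediateField.fixingSubgroup_sup] at huL
    have hu0 : c' (t⁻¹ * s) = 0 := by
      simp only [hc']
      have h1 : aM act (t⁻¹ * s) Q = Q := hL20 _ huL.2
      rw [hL0 _ huK huL.1, h1, sub_self, sub_self]
    have ht0 : c' t = 0 := by
      rw [htd, hmul _ (pow_mem hφK i) _ hιK, hpow, hin0 ι hιI hιK, map_zero, add_zero]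
    have hs0 : c' s = 0 := by
      have h1 := hmul t htK (t⁻¹ * s) huK
      rw [mul_inv_cancel_left, ht0, hu0, map_zero, add_zero] at h1
      exact h1
    simp only [hc'] at hs0
    exact sub_eq_zero.1 hs0


end H35L
end

-- from Lib.H35L.X3
section

/-! # H35L, chunk X3 (M): the Galois group acts by all units -/

open NumberField IsDedekindDomain WeierstrassCurve

namespace H35L

open H55P (IQ Pt ac Inert Dec Nm)
open H35P (WAB Ker tt)
open H55K (Tor CMA Dta GV ak TFld)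

variable {F : Type} [Field F] [NumberField F] [IQ F] {A B : F} {Om : ℂ} {Ω : Type} [Field Ω] [DecidableEq Ω]
  [Algebra F Ω] [IsAlgClosure F Ω] {j : Ω →+* ℂ} {act : 𝓞 F →+* AddMonoid.End (Pt (WAB A B) Ω)} {mo : Ideal (𝓞 F)}
  {ψ : Ideal (𝓞 F) →*₀ 𝓞 F} {p : ℕ}

theorem x3_surj (dta : Dta A B Om j act mo ψ p) (hin : Prime (p : 𝓞 F)) (k : ℕ) {N : Type} [Field N] [NumberField N] [Algebra F N] [Algebra N Ω]
    [IsScalarTower F N Ω] (hN : TFld act F N ((p : 𝓞 F) ^ (k + 1))) (b : 𝓞 F) (hb : IsCoprime b (p : 𝓞 F)) :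
    ∃ s : Ω ≃ₐ[F] Ω, Ch act p (k + 1) s b := by
  classical
  have hgal : IsGalois F N := hN.gal
  have hpp : 0 < p := dta.prime.pos
  choose s hs using fun σ : Gal(N/F) => H55K.exists_lft (F := F) (Ω := Ω) σ
  choose a ha hcop using fun σ : Gal(N/F) => ch_exists dta (k + 1) (s σ)
  have hfin : Finite (𝓞 F ⧸ Ideal.span {((p : 𝓞 F) ^ (k + 1))}) := by
    refine (Nat.card_ne_zero.1 ?_).2
    rw [x3ba_card p]
    positivity
  have hcl : ∀ c : 𝓞 F, IsCoprime c (p : 𝓞 F) → ∀ b : 𝓞 F, Ideal.Quotient.mk (Ideal.span {((p : 𝓞 F) ^ (k + 1))}) b =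
      Ideal.Quotient.mk _ c → ¬ (p : 𝓞 F) ∣ b := by
    intro c hc b hb hd
    rw [Ideal.Quotient.eq, Ideal.mem_span_singleton] at hb
    have h1 : (p : 𝓞 F) ∣ c := by
      have h2 : (p : 𝓞 F) ∣ b - c := (dvd_pow_self _ (Nat.succ_ne_zero k)).trans hb
      have h3 := dvd_sub hd h2
      rwa [sub_sub_cancel] at h3
    exact hin.not_isUnit (hc.isUnit_of_dvd' h1 dvd_rfl)
  let f : Gal(N/F) → {x : 𝓞 F ⧸ Ideal.span {((p : 𝓞 F) ^ (k + 1))} // ∀ a : 𝓞 F, Ideal.Quotient.mk _ a = x → ¬ (p : 𝓞 F) ∣ a} :=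
    fun σ => ⟨Ideal.Quotient.mk _ (a σ), hcl _ (hcop σ)⟩
  have hinj : Function.Injective f := by
    intro σ τ hστ
    have h1 : Ideal.Quotient.mk (Ideal.span {((p : 𝓞 F) ^ (k + 1))}) (a σ) = Ideal.Quotient.mk _ (a τ) := congrArg Subtype.val hστ
    rw [Ideal.Quotient.eq, Ideal.mem_span_singleton] at h1
    have h2 : Ch act p (k + 1) (s τ) (a σ) := ch_congr (ha τ) (by rw [← neg_sub, dvd_neg]; exact h1)
    have hu : H55K.Lft (τ⁻¹ * σ) ((s τ)⁻¹ * s σ) := (hs τ).inv.mul (hs σ)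
    have h3 : H55K.Fxd N ((s τ)⁻¹ * s σ) := by
      refine hN.gen _ hu.fxd (x3ba_fix fun T hT' => ?_)
      rw [aM_mul, ha σ T hT', ← h2 T hT', ← aM_mul, inv_mul_cancel, aM_one]
    exact (inv_mul_eq_one.1 ((H55K.lft_fxd hu).1 h3)).symm
  have hbij := hinj.bijective_of_nat_card_le (by
    rw [IsGalois.card_aut_eq_finrank, x3ba_units hpp, (tf_ram dta hin k hN).1])
  obtain ⟨σ, hσ⟩ := hbij.2 ⟨Ideal.Quotient.mk _ b, hcl b hb⟩
  have h1 : Ideal.Quotient.mk (Ideal.span {((p : 𝓞 F) ^ (k + 1))}) (a σ) = Ideal.Quotient.mk _ b := congrArg Subtype.val hσ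
  rw [Ideal.Quotient.eq, Ideal.mem_span_singleton] at h1
  exact ⟨s σ, ch_congr (ha σ) h1⟩

theorem gal_surj (dta : Dta A B Om j act mo ψ p) (hin : Prime (p : 𝓞 F)) (k : ℕ) (a : 𝓞 F) (ha : IsCoprime a (p : 𝓞 F)) :
    ∃ s : Ω ≃ₐ[F] Ω, Ch act p k s a := by
  obtain ⟨N, iF, iN, i1, i2, i3, t1, t2, t3, hN⟩ := H55K.exists_TFld dta.cma F (b := (p : 𝓞 F) ^ (k + 1))
    (pow_ne_zero _ hin.ne_zero)
  clear t1 t3 i1
  obtain ⟨s, hs⟩ := x3_surj dta hin k hN a ha
  exact ⟨s, ch_mono (Nat.le_succ k) hs⟩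

end H35L
end

-- from Lib.H35L.X3D
section

/-! # H35L, chunk X3D (M): the decomposition group acts by all units; gamma -/

open NumberField IsDedekindDomain WeierstrassCurve

namespace H35L

open H55P (IQ Pt ac Inert Dec Nm)
open H35P (WAB Ker tt)
open H55K (Tor CMA Dta GV ak TFld)

variable {F : Type} [Field F] [NumberField F] [IQ F] {A B : F} {Om : ℂ} {Ω : Type} [Field Ω] [DecidableEq Ω]
  [Algebra F Ω] [IsAlgClosure F Ω] {j : Ω →+* ℂ} {act : 𝓞 F →+* AddMonoid.End (Pt (WAB A B) Ω)} {mo : Ideal (𝓞 F)}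
  {ψ : Ideal (𝓞 F) →*₀ 𝓞 F} {p : ℕ}

theorem x3d_N (h : CMA F A B Om j act) {b : 𝓞 F} (hb : b ≠ 0) :
    ∃ (N : Type) (_ : Field N) (_ : NumberField N) (_ : Algebra F N) (_ : Algebra N Ω)
      (_ : IsScalarTower F N Ω), TFld act F N b := by
  obtain ⟨N, i1, i2, i3, i4, i5, i6, i7, i8, hNf⟩ := H55K.exists_TFld h F hb
  exact ⟨N, i1, i2, i4, i5, i7, hNf⟩

omit [IQ F] [DecidableEq Ω] [NumberField F] [IsAlgClosure F Ω] [Algebra F Ω] in
theorem x3d_pl {N : Type} [Field N] [NumberField N] [Algebra N Ω] (V : ValuationSubring Ω) (hp : p.Prime)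
    (hV : V.valuation (p : Ω) < 1) : ∃ W : HeightOneSpectrum (𝓞 N), (p : 𝓞 N) ∈ W.asIdeal ∧
      ∀ y : 𝓞 N, y ∈ W.asIdeal ↔ V.valuation (algebraMap N Ω (y : N)) < 1 := by
  let I : Ideal (𝓞 N) :=
    { carrier := {y | V.valuation (algebraMap N Ω (y : N)) < 1}
      add_mem' := by
        intro a b ha hb
        change V.valuation (algebraMap N Ω ((a : N) + (b : N))) < 1
        rw [map_add]
        exact V.valuation.map_add_lt ha hb
      zero_mem' := by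
        change V.valuation (algebraMap N Ω (0 : N)) < 1
        rw [map_zero, map_zero]
        exact zero_lt_one
      smul_mem' := by
        intro c y hy
        change V.valuation (algebraMap N Ω ((c : N) * (y : N))) < 1
        rw [map_mul, map_mul, mul_comm]
        exact mul_lt_one_of_lt_of_le hy (H55K.k0_int V c) }
  have hI : ∀ y : 𝓞 N, y ∈ I ↔ V.valuation (algebraMap N Ω (y : N)) < 1 := fun _ => Iff.rfl
  have hpI : (p : 𝓞 N) ∈ I := by
    rw [hI]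
    change V.valuation (algebraMap N Ω (algebraMap (𝓞 N) N (p : 𝓞 N))) < 1
    rw [map_natCast, map_natCast]
    exact hV
  have hprime : I.IsPrime := by
    refine ⟨?_, ?_⟩
    · rw [Ne, Ideal.eq_top_iff_one, hI]
      change ¬ V.valuation (algebraMap N Ω (1 : N)) < 1
      rw [map_one, map_one]
      exact lt_irrefl _
    · intro a b hab
      rw [hI, hI]
      rw [hI] at hab
      change V.valuation (algebraMap N Ω ((a : N) * (b : N))) < 1 at hab
      rw [map_mul, map_mul] at hab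
      by_contra hcon
      push Not at hcon
      have ha : V.valuation (algebraMap N Ω (a : N)) = 1 := le_antisymm (H55K.k0_int V a) hcon.1
      have hb : V.valuation (algebraMap N Ω (b : N)) = 1 := le_antisymm (H55K.k0_int V b) hcon.2
      rw [ha, hb, one_mul] at hab
      exact lt_irrefl _ hab
  have hne : I ≠ ⊥ := by
    intro h0
    rw [h0, Ideal.mem_bot] at hpI
    exact hp.ne_zero (by exact_mod_cast hpI)
  exact ⟨⟨I, hprime, hne⟩, hpI, hI⟩

/-- Chunk X3 (M). The same with s in the decomposition group of V above p: s from gal_surj (level k+1), V' = s V (or comap) is above p; V and V' lie above the same prime of N = TFld (there is only one above p: tf_ram),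
N as an intermediate field (image of N in Ω): conj_above gives t fixing N with t s V = V; t acts trivially on the points killed by p^(k+1) (TFld.crd). -/
theorem dec_surj (dta : Dta A B Om j act mo ψ p) (hin : Prime (p : 𝓞 F)) {V : ValuationSubring Ω} (hV : V.valuation (p : Ω) < 1) (k : ℕ) (a : 𝓞 F)
    (ha : IsCoprime a (p : 𝓞 F)) : ∃ s ∈ dV (F := F) V, Ch act p k s a := by
  obtain ⟨s, hs⟩ := gal_surj dta hin k a ha
  have hb : (p : 𝓞 F) ^ (k + 1) ≠ 0 := pow_ne_zero _ hin.ne_zero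
  obtain ⟨N, i1, i2, i3, i4, i5, hN⟩ := x3d_N dta.cma hb
  obtain ⟨_, hone⟩ := tf_ram dta hin k hN
  let f : N →ₐ[F] Ω := IsScalarTower.toAlgHom F N Ω
  have hf : ∀ y, f y = algebraMap N Ω y := fun _ => rfl
  let K : IntermediateField F Ω := f.fieldRange
  have hfin : FiniteDimensional F N := Module.Finite.of_restrictScalars_finite ℚ F N
  have hfinK : FiniteDimensional F K := by
    have e : N ≃ₐ[F] K := AlgEquiv.ofInjectiveField f
    exact Module.Finite.equiv e.toLinearEquiv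
  let V' : ValuationSubring Ω := V.comap (s : Ω →+* Ω)
  have hm : ∀ x, x ∈ V' ↔ s x ∈ V := fun x => ValuationSubring.mem_comap
  have hlt : ∀ x, V'.valuation x < 1 ↔ V.valuation (s x) < 1 := by
    intro x
    rw [H55P.lt1_iff, H55P.lt1_iff, hm, map_inv₀]
    simp
  have hV' : V'.valuation (p : Ω) < 1 := by
    rw [hlt, map_natCast]
    exact hV
  obtain ⟨W, hpW, hW⟩ := x3d_pl (N := N) V dta.prime hV
  obtain ⟨W', hpW', hW'⟩ := x3d_pl (N := N) V' dta.prime hV'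
  have hWW : W = W' := hone W W' hpW hpW'
  obtain ⟨t, htK, ht⟩ := conj_above K p dta.prime hV hV' (by
    rintro x ⟨y, rfl⟩ hx
    change V.valuation (algebraMap N Ω y) < 1 ↔ V'.valuation (algebraMap N Ω y) < 1
    have hy : IsIntegral ℤ y := by
      have h1 : IsIntegral ℤ (algebraMap N Ω y) := hx
      exact (isIntegral_algebraMap_iff (algebraMap N Ω).injective).1 h1
    have h2 : algebraMap (𝓞 N) N ⟨y, hy⟩ = y := rfl
    rw [← h2, ← hW ⟨y, hy⟩, ← hW' ⟨y, hy⟩, hWW])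
  have htN : ∀ y : N, t (algebraMap N Ω y) = algebraMap N Ω y := by
    intro y
    rw [IntermediateField.mem_fixingSubgroup_iff] at htK
    exact htK _ ⟨y, rfl⟩
  refine ⟨s * t, fun x => ?_, fun T hT => ?_⟩
  · rw [AlgEquiv.mul_apply, ← hm, ht]
  · rw [aM_mul]
    have h3 : aM act t T = T := by
      have h4 : (T : Pt (WAB A B) Ω) ∈ Tor act ((p : 𝓞 F) ^ (k + 1)) := by
        change (((p : 𝓞 F) ^ (k + 1)) • T : PM act) = 0
        rw [← Nat.cast_pow, Nat.cast_smul_eq_nsmul (𝓞 F), pow_succ', mul_smul, hT, smul_zero]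
      obtain ⟨x, y, hx, hy⟩ := hN.crd T h4
      exact H55K.ac_fix t (by rw [← hx, htN]) (by rw [← hy, htN])
    rw [h3, hs T hT]

/-- Chunk X3 (S). a = 1 + p: Nm a = (1+p)^2, (1+p)^(2(p-1)) = 1 + 2 p (p-1) = 1 - 2p modulo p^2 is not 1 (p odd). gc_iff. -/
theorem exists_gam (dta : Dta A B Om j act mo ψ p) (hin : Prime (p : 𝓞 F)) {V : ValuationSubring Ω} (hV : V.valuation (p : Ω) < 1) :
    ∃ γ ∈ dV (F := F) V, Gen p γ := by
  have hp := dta.prime
  have h5 := dta.five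
  obtain ⟨γ, hγ, hch⟩ := dec_surj dta hin hV 2 ((1 + p : ℕ) : 𝓞 F) (by
    refine ⟨1, -1, ?_⟩
    push_cast
    ring)
  refine ⟨γ, hγ, ?_⟩
  unfold Gen
  rw [gc_iff dta (n := 1) hch, H55K.Nm_nat, ← pow_mul]
  intro hcon
  have h1 : ((p ^ 2 : ℕ) : ℤ) ∣ 1 - (1 + (p : ℤ)) ^ (2 * (p - 1)) := by
    have h2 := (Nat.modEq_iff_dvd.1 hcon)
    push_cast at h2 ⊢
    exact h2
  obtain ⟨c, hc⟩ : (p : ℤ) ^ 2 ∣ (1 + (p : ℤ)) ^ (2 * (p - 1)) - (1 + (2 * (p - 1) : ℕ) * p) := by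
    have h3 : ∀ m : ℕ, (p : ℤ) ^ 2 ∣ (1 + (p : ℤ)) ^ m - (1 + (m : ℤ) * p) := by
      intro m
      induction m with
      | zero => simp
      | succ m ih =>
        obtain ⟨c, hc⟩ := ih
        refine ⟨c * (1 + p) + m, ?_⟩
        have h4 : (1 + (p : ℤ)) ^ m = 1 + (m : ℤ) * p + (p : ℤ) ^ 2 * c := by linarith
        rw [pow_succ, h4]
        push_cast
        ring
    exact_mod_cast h3 (2 * (p - 1))
  obtain ⟨d, hd⟩ := h1
  have hp1 : ((p - 1 : ℕ) : ℤ) = (p : ℤ) - 1 := by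
    rw [Nat.cast_sub hp.one_le, Nat.cast_one]
  have h6 : (p : ℤ) * (2 * ((p : ℤ) - 1)) = (p : ℤ) * (p * (-(c + d))) := by
    push_cast at hd hc
    rw [hp1] at hc
    linear_combination (-1 : ℤ) * hd - hc
  have hp0 : (p : ℤ) ≠ 0 := by exact_mod_cast hp.ne_zero
  have h7 := mul_left_cancel₀ hp0 h6
  have h8 : (p : ℤ) ∣ 2 := ⟨2 + (c + d), by linear_combination -h7⟩
  have h9 : (p : ℤ) ≤ 2 := Int.le_of_dvd (by norm_num) h8
  have h10 : (5 : ℤ) ≤ p := by exact_mod_cast h5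
  omega

end H35L
end

-- from Lib.H35L.X5E
section

/-! # H35L, chunk X5E (S): the element sigma -/

open NumberField IsDedekindDomain WeierstrassCurve

namespace H35L

open H55P (IQ Pt ac Inert Dec Nm)
open H35P (WAB Ker tt)
open H55K (Tor CMA Dta GV ak)

variable {F : Type} [Field F] [NumberField F] [IQ F] {A B : F} {Om : ℂ} {Ω : Type} [Field Ω] [DecidableEq Ω]
  [Algebra F Ω] [IsAlgClosure F Ω] {j : Ω →+* ℂ} {act : 𝓞 F →+* AddMonoid.End (Pt (WAB A B) Ω)} {mo : Ideal (𝓞 F)}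
  {ψ : Ideal (𝓞 F) →*₀ 𝓞 F} {p : ℕ}

/-- Chunk X5e (S). For every n some s in the decomposition group of V above p has Gc p n s and s - 1 bijective: dec_surj for a from teich (k = n + 1), gc_iff, tb_of_ch (p does not divide a - 1 as q - 1 > 1). -/
theorem exists_sig (dta : Dta A B Om j act mo ψ p) (hin : Prime (p : 𝓞 F)) {V : ValuationSubring Ω} (hV : V.valuation (p : Ω) < 1) (n : ℕ) :
    ∃ σ ∈ dV (F := F) V, Gc p n σ ∧ Tb act p σ := by
  obtain ⟨a, hcop, -, hNm, -, hgen⟩ := teich dta hin n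
  obtain ⟨s, hs, hch⟩ := dec_surj dta hin hV (n + 1) a hcop
  refine ⟨s, hs, (gc_iff dta hch).2 hNm, tb_of_ch dta hin (ch_mono (by omega) hch) fun h => ?_⟩
  have h1 := hgen 1 (by rw [pow_one]; exact h)
  have h2 := Nat.le_of_dvd one_pos h1
  have h3 := dta.five
  have h4 : 25 ≤ p ^ 2 := by nlinarith
  omega

end H35L
end

-- from Lib.H35L.S1A
section

/-! # H35L, chunk S1A (S/M): the valuation rings above p -/

open NumberField IsDedekindDomain WeierstrassCurve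

namespace H35L

open H55P (IQ Pt ac Inert Dec Nm)
open H35P (WAB)
open H55K (CMA Dta)
open H35K (Lev)

variable {F : Type} [Field F] [NumberField F] [IQ F] {A B : F} {Om : ℂ} {Ω : Type} [Field Ω] [DecidableEq Ω]
  [Algebra F Ω] [IsAlgClosure F Ω] {j : Ω →+* ℂ} {act : 𝓞 F →+* AddMonoid.End (Pt (WAB A B) Ω)} {mo : Ideal (𝓞 F)}
  {ψ : Ideal (𝓞 F) →*₀ 𝓞 F} {p : ℕ} {M : IntermediateField F Ω} {V : ValuationSubring Ω} {γ : Ω ≃ₐ[F] Ω} {g : ℕ} {s₀ : Fin g → (Ω ≃ₐ[F] Ω)}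

/-- Chunk S1a (S/M). Every V' above p is t s₀(i) V with t in Gal(Ω/M) of level n: V' = x V (conj_all), x = t s₀(i) (rep); replace x by x gamma^l: t s₀ gamma^l = t (s₀ gamma^l s₀^-1) s₀, and t (s₀ gamma^l s₀^-1) is in Gal(Ω/M) (hG), it has the cyclotomic character of
t gamma^l: of level n for some l (gc_gen for n := 0, m := n, applied to t; Gc_conj does not change characters: write t s₀ gamma^l s₀^-1 = (t gamma^l)(gamma^-l s₀ gamma^l s₀^-1), a commutator acts trivially on roots of unity: root_pow). -/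
theorem above_all (dta : Dta A B Om j act mo ψ p) (hin : Prime (p : 𝓞 F)) (fr : Fr p M V γ g s₀) (n : ℕ) {V' : ValuationSubring Ω} (hV' : V'.valuation (p : Ω) < 1) :
    ∃ (i : Fin g) (t : Ω ≃ₐ[F] Ω), SN M.fixingSubgroup p n t ∧ ∀ x, (t * s₀ i) x ∈ V' ↔ x ∈ V := by
  have hp := dta.prime
  have h3 : 3 ≤ p := by
    have := dta.five
    omega
  obtain ⟨x, hx⟩ := conj_all p hp hin fr.above hV'
  obtain ⟨i, t, ht, rfl⟩ := fr.rep x
  obtain ⟨l, hl⟩ := gc_gen hp h3 fr.gen (Nat.zero_le n) (gc_zero hp t)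
  rw [pow_zero, mul_one] at hl
  have hγl : γ ^ l ∈ dV (F := F) V := pow_mem fr.gam l
  refine ⟨i, t * (s₀ i * γ ^ l * (s₀ i)⁻¹), ⟨mul_mem ht (fr.hG i _ hγl), ?_⟩, fun y => ?_⟩
  · obtain ⟨a, _, ha⟩ := root_pow hp (n + 1) t
    obtain ⟨b, _, hb⟩ := root_pow hp (n + 1) (γ ^ l)
    have hpw : ∀ (z : Ω) (m : ℕ), z ^ p ^ (n + 1) = 1 → (z ^ m) ^ p ^ (n + 1) = 1 := by
      intro z m hz
      rw [← pow_mul, mul_comm, pow_mul, hz, one_pow]
    have h1 : ∀ z : Ω, z ^ p ^ (n + 1) = 1 → (γ ^ l * t) z = z ^ (b * a) := by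
      intro z hz
      rw [AlgEquiv.mul_apply, ha z hz, map_pow, hb z hz, pow_mul]
    have h2 : ∀ z : Ω, z ^ p ^ (n + 1) = 1 → (t * (s₀ i * γ ^ l * (s₀ i)⁻¹)) z = z ^ (b * a) := by
      intro z hz
      have hz' : ((s₀ i)⁻¹ z) ^ p ^ (n + 1) = 1 := by rw [← map_pow, hz, map_one]
      have h4 : (s₀ i * γ ^ l * (s₀ i)⁻¹) z = z ^ b := by
        rw [AlgEquiv.mul_apply, AlgEquiv.mul_apply, hb _ hz', map_pow]
        exact congrArg (fun y => y ^ b) ((s₀ i).apply_symm_apply z)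
      rw [AlgEquiv.mul_apply, h4, ha _ (hpw z b hz), ← pow_mul]
    rw [gc_root hp h2]
    exact (gc_root hp h1).1 hl
  · have h4 : t * (s₀ i * γ ^ l * (s₀ i)⁻¹) * s₀ i = t * s₀ i * γ ^ l := by group
    rw [h4, AlgEquiv.mul_apply, hx]
    exact hγl y

end H35L
end
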