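import Mathlib
import Pool.Agent.Lib.H1M.PP2.M008
import Pool.Agent.Lib.H1M.PP2.M060
import Pool.Agent.Lib.H1M.PP2.M111

/-! Merged copies (to shorten the build) of Lib.H35L.C1D, Lib.H35L.MN, Lib.H35L.C5B, Lib.H35L.K4, Lib.H35L.K5. -/

-- from Lib.H35L.C1D
section

/-! # H35L, chunk C1D (M): operators and restriction commute -/

open NumberField IsDedekindDomain WeierstrassCurve

namespace H35L

open H55P (IQ Pt ac Inert Dec Nm)
open H35P (WAB)
open H55K (CMA Dta)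
open H35K (Lev)

variable {F : Type} [Field F] [NumberField F] [IQ F] {A B : F} {Om : ℂ} {Ω : Type} [Field Ω] [DecidableEq Ω]
  [Algebra F Ω] [IsAlgClosure F Ω] {j : Ω →+* ℂ} {act : 𝓞 F →+* AddMonoid.End (Pt (WAB A B) Ω)} {mo : Ideal (𝓞 F)}
  {ψ : Ideal (𝓞 F) →*₀ 𝓞 F} {p : ℕ}

omit [IQ F] [IsAlgClosure F Ω] in
theorem c1d_op {G : Subgroup (Ω ≃ₐ[F] Ω)} {I : (Ω ≃ₐ[F] Ω) → Prop} (hc : Cm act) (hI : CI I) {γ : Ω ≃ₐ[F] Ω} (hγ : γ ∈ G)
    (f : SM act hc p G I) (h : Ω ≃ₐ[F] Ω) (hh : SH act G p h) :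
    (opM act hc p hI hγ f).1 h = aM act γ (f.1 (γ⁻¹ * h * γ)) := by
  have h1 : (opM act hc p hI hγ f).1 h = aM act (γ⁻¹)⁻¹ (f.1 (γ⁻¹ * h * (γ⁻¹)⁻¹)) := if_pos hh
  rw [h1, inv_inv]

omit [IQ F] [IsAlgClosure F Ω] in
theorem c1d_op_out {G : Subgroup (Ω ≃ₐ[F] Ω)} {I : (Ω ≃ₐ[F] Ω) → Prop} (hc : Cm act) (hI : CI I) {γ : Ω ≃ₐ[F] Ω} (hγ : γ ∈ G)
    (f : SM act hc p G I) (h : Ω ≃ₐ[F] Ω) (hh : ¬ SH act G p h) :
    (opM act hc p hI hγ f).1 h = 0 := if_neg hh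

omit [IQ F] [IsAlgClosure F Ω] in
theorem c1d_lo {G G' : Subgroup (Ω ≃ₐ[F] Ω)} {I : (Ω ≃ₐ[F] Ω) → Prop} (hc : Cm act) {s₀ : Ω ≃ₐ[F] Ω}
    (hG : ∀ s ∈ G', s₀ * s * s₀⁻¹ ∈ G) (f : SM act hc p G I) (h : Ω ≃ₐ[F] Ω) (hh : SH act G' p h) :
    (loM act hc p hG f).1 h = aM act s₀⁻¹ (f.1 (s₀ * h * s₀⁻¹)) := if_pos hh

omit [IQ F] [IsAlgClosure F Ω] in
theorem c1d_lo_out {G G' : Subgroup (Ω ≃ₐ[F] Ω)} {I : (Ω ≃ₐ[F] Ω) → Prop} (hc : Cm act) {s₀ : Ω ≃ₐ[F] Ω}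
    (hG : ∀ s ∈ G', s₀ * s * s₀⁻¹ ∈ G) (f : SM act hc p G I) (h : Ω ≃ₐ[F] Ω) (hh : ¬ SH act G' p h) :
    (loM act hc p hG f).1 h = 0 := if_neg hh

/-- Chunk C1d (S/M). The operators commute with the restriction: s₀ gamma s₀^-1 gamma^-1 is in G, and it is of every level (it acts trivially on all points of order a power of p: fa_comm; fa_gc). For h in SH G':
lo (op f) h = s₀^-1 gamma f(gamma^-1 s₀ h s₀^-1 gamma); op (lo f) h = gamma s₀^-1 f(s₀ gamma^-1 h gamma s₀^-1), and with d = s₀ gamma s₀^-1 gamma^-1: s₀ gamma^-1 = (d gamma)^-1 s₀, so it is gamma s₀^-1 f(gamma^-1 d^-1 (s₀ h s₀^-1) d gamma);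
gamma^-1 d^-1 x d gamma = e^-1 (gamma^-1 x gamma) e, e = gamma^-1 d gamma in G of every level. -/
theorem lo_comm (dta : Dta A B Om j act mo ψ p) {G G' : Subgroup (Ω ≃ₐ[F] Ω)} {I : (Ω ≃ₐ[F] Ω) → Prop} (hc : Cm act) (hI : CI I) {γ s₀ : Ω ≃ₐ[F] Ω} (hγ : γ ∈ G)
    (hγ' : γ ∈ G') (hG : ∀ s ∈ G', s₀ * s * s₀⁻¹ ∈ G) (f : SM act hc p G I) :
    loM act hc p hG (opM act hc p hI hγ f) = opM act hc p LI_conj hγ' (loM act hc p hG f) := by
  apply Subtype.ext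
  funext h
  by_cases hh : SH act G' p h
  · have hf : IsCls act p (SH act G p) I (SN G p) f.1 := f.2
    obtain ⟨m, hm⟩ := hf.eqv
    have h1 : SH act G p (s₀ * h * s₀⁻¹) := ⟨hG h hh.1, FA_conj act hh.2 _⟩
    have hx : SH act G p (γ⁻¹ * (s₀ * h * s₀⁻¹) * γ) := by
      refine ⟨mul_mem (mul_mem (inv_mem hγ) h1.1) hγ, ?_⟩
      have h2 := FA_conj act h1.2 γ⁻¹
      rwa [inv_inv] at h2
    have h3 : SH act G' p (γ⁻¹ * h * γ) := by
      refine ⟨mul_mem (mul_mem (inv_mem hγ') hh.1) hγ', ?_⟩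
      have h2 := FA_conj act hh.2 γ⁻¹
      rwa [inv_inv] at h2
    rw [c1d_lo hc hG _ h hh, c1d_op hc hI hγ _ _ h1, c1d_op hc LI_conj hγ' _ h hh, c1d_lo hc hG _ _ h3]
    have he : FA act p (s₀ * γ⁻¹ * s₀⁻¹ * γ) := by
      have h4 := fa_comm dta s₀ γ⁻¹
      rwa [inv_inv] at h4
    have heG : s₀ * γ⁻¹ * s₀⁻¹ * γ ∈ G := mul_mem (hG _ (inv_mem hγ')) hγ
    have hy : s₀ * (γ⁻¹ * h * γ) * s₀⁻¹ = s₀ * γ⁻¹ * s₀⁻¹ * γ * (γ⁻¹ * (s₀ * h * s₀⁻¹) * γ) * (s₀ * γ⁻¹ * s₀⁻¹ * γ)⁻¹ := by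
      group
    rw [hy, hm _ ⟨heG, fa_gc dta he m⟩ _ hx, he _ (hf.tor _)]
    obtain ⟨k, hk⟩ := hf.tor (γ⁻¹ * (s₀ * h * s₀⁻¹) * γ)
    have h5 := fa_comm dta s₀⁻¹ γ (aM act γ (aM act s₀⁻¹ (f.1 (γ⁻¹ * (s₀ * h * s₀⁻¹) * γ))))
      ⟨k, by rw [← map_nsmul, ← map_nsmul, hk, map_zero, map_zero]⟩
    rw [← h5, ← aM_mul, ← aM_mul, ← aM_mul]
    congr 2
    group
  · rw [c1d_lo_out hc hG _ h hh, c1d_op_out hc LI_conj hγ' _ h hh]

end H35L
end

-- from Lib.H35L.MN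
section

/-! # H35L, chunk MN (S/M): the fields of the tower -/

open NumberField IsDedekindDomain WeierstrassCurve

namespace H35L

open H55P (IQ Pt ac Inert Dec Nm)
open H35P (WAB)
open H55K (CMA Dta)
open H35K (Lev)

variable {F : Type} [Field F] [NumberField F] {Ω : Type} [Field Ω] [Algebra F Ω] [IsAlgClosure F Ω] {p : ℕ}

/-- Chunk MN (S/M). The group of level n of Gal(Ω/M) is Gal(Ω/N) for a finite extension N of F: it is open (it contains the elements fixing M and a primitive p^(n+1)-th root of unity), hence closed; InfiniteGalois.fixingSubgroup_fixedField. -/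
theorem exists_layer (hp : p.Prime) (M : IntermediateField F Ω) [FiniteDimensional F M] (n : ℕ) :
    ∃ N : IntermediateField F Ω, FiniteDimensional F N ∧ N.fixingSubgroup = LG hp M.fixingSubgroup n := by
  have hac : IsAlgClosed Ω := IsAlgClosure.isAlgClosed F
  have halg : Algebra.IsAlgebraic F Ω := IsAlgClosure.isAlgebraic
  have hnorm : Normal F Ω := IsAlgClosure.normal F Ω
  have hgal : IsGalois F Ω := ⟨⟩
  obtain ⟨ζ, hζ⟩ := c0_prim F Ω hp (n + 1)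
  have hpos : NeZero (p ^ (n + 1)) := ⟨pow_ne_zero _ hp.ne_zero⟩
  let M1 : IntermediateField F Ω := M ⊔ IntermediateField.adjoin F {ζ}
  have hf1 : FiniteDimensional F (IntermediateField.adjoin F {ζ}) :=
    IntermediateField.adjoin.finiteDimensional (Algebra.IsAlgebraic.isAlgebraic ζ).isIntegral
  have hf2 : FiniteDimensional F M1 := IntermediateField.finiteDimensional_sup M _
  have hle : M1.fixingSubgroup ≤ LG hp M.fixingSubgroup n := by
    intro s hs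
    have hs' : ∀ x ∈ M1, s x = x := fun x hx => hs ⟨x, hx⟩
    refine ⟨?_, 1, by rw [one_pow], ?_⟩
    · intro x
      exact hs' _ ((le_sup_left : M ≤ M1) x.2)
    · intro z hz
      obtain ⟨i, _, rfl⟩ := hζ.eq_pow_of_pow_eq_one hz
      have h1 : s ζ = ζ := hs' _ ((le_sup_right : IntermediateField.adjoin F {ζ} ≤ M1)
        (IntermediateField.mem_adjoin_simple_self F ζ))
      rw [map_pow, h1, pow_one]
  have hopen : IsOpen ((LG hp M.fixingSubgroup n : Subgroup (Ω ≃ₐ[F] Ω)) : Set (Ω ≃ₐ[F] Ω)) :=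
    Subgroup.isOpen_mono hle (IntermediateField.fixingSubgroup_isOpen M1)
  have hclosed : IsClosed ((LG hp M.fixingSubgroup n : Subgroup (Ω ≃ₐ[F] Ω)) : Set (Ω ≃ₐ[F] Ω)) :=
    Subgroup.isClosed_of_isOpen _ hopen
  let H : ClosedSubgroup (Ω ≃ₐ[F] Ω) := ⟨LG hp M.fixingSubgroup n, hclosed⟩
  refine ⟨IntermediateField.fixedField (LG hp M.fixingSubgroup n), ?_, InfiniteGalois.fixingSubgroup_fixedField H⟩
  have hle2 : IntermediateField.fixedField (LG hp M.fixingSubgroup n) ≤ M1 := by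
    have h1 := IntermediateField.fixedField_antitone hle
    rwa [InfiniteGalois.fixedField_fixingSubgroup] at h1
  exact Module.Finite.of_injective (IntermediateField.inclusion hle2).toLinearMap (IntermediateField.inclusion_injective hle2)

end H35L
end

-- from Lib.H35L.C5B
section

/-! # H35L, chunk C5B (M): extension of homomorphisms to cocycles -/

open NumberField IsDedekindDomain WeierstrassCurve

namespace H35L

open H55P (IQ Pt ac Inert Dec Nm)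
open H35P (WAB)
open H55K (CMA Dta)
open H35K (Lev)

variable {F : Type} [Field F] [NumberField F] [IQ F] {A B : F} {Om : ℂ} {Ω : Type} [Field Ω] [DecidableEq Ω]
  [Algebra F Ω] [IsAlgClosure F Ω] {j : Ω →+* ℂ} {act : 𝓞 F →+* AddMonoid.End (Pt (WAB A B) Ω)} {mo : Ideal (𝓞 F)}
  {ψ : Ideal (𝓞 F) →*₀ 𝓞 F} {p : ℕ}

omit [NumberField F] [IQ F] [IsAlgClosure F Ω] in
theorem c5b_tor (s : Ω ≃ₐ[F] Ω) {P : PM act} (h : ∃ k : ℕ, p ^ k • P = 0) : ∃ k : ℕ, p ^ k • aM act s P = 0 := by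
  obtain ⟨k, hk⟩ := h
  exact ⟨k, by rw [← map_nsmul, hk, map_zero]⟩

omit [NumberField F] [IQ F] [IsAlgClosure F Ω] in
theorem c5b_add {P Q : PM act} (h : ∃ k : ℕ, p ^ k • P = 0) (h' : ∃ k : ℕ, p ^ k • Q = 0) : ∃ k : ℕ, p ^ k • (P + Q) = 0 := by
  obtain ⟨k, hk⟩ := h
  obtain ⟨l, hl⟩ := h'
  refine ⟨k + l, ?_⟩
  rw [smul_add, pow_add, mul_smul, mul_smul, smul_comm (p ^ k) (p ^ l) P, hk, hl, smul_zero, smul_zero, add_zero]

omit [NumberField F] [IQ F] [IsAlgClosure F Ω] in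
theorem c5b_sub {P Q : PM act} (h : ∃ k : ℕ, p ^ k • P = 0) (h' : ∃ k : ℕ, p ^ k • Q = 0) : ∃ k : ℕ, p ^ k • (P - Q) = 0 := by
  obtain ⟨k, hk⟩ := h
  obtain ⟨l, hl⟩ := h'
  refine ⟨k + l, ?_⟩
  rw [smul_sub, pow_add, mul_smul, mul_smul, smul_comm (p ^ k) (p ^ l) P, hk, hl, smul_zero, smul_zero, sub_zero]

theorem c5b_comm (dta : Dta A B Om j act mo ψ p) (s t : Ω ≃ₐ[F] Ω) {P : PM act} (h : ∃ k : ℕ, p ^ k • P = 0) :
    aM act s (aM act t P) = aM act t (aM act s P) := by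
  have h1 := fa_comm dta s t (aM act (t * s) P) (c5b_tor (t * s) h)
  rw [← aM_mul] at h1
  have h2 : s * t * s⁻¹ * t⁻¹ * (t * s) = s * t := by group
  rw [h2, aM_mul, aM_mul] at h1
  exact h1

/-- Chunk C5b (M). f a homomorphism on SH (the elements of G acting trivially), equivariant under G, sigma in G with sigma - 1 bijective: f extends to a continuous cocycle c on G. c(s) = the a of order a power of p with sigma a - a = f(sigma s sigma^-1 s^-1).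
The commutator is in SH (fa_comm). [sigma, s t] = [sigma, s] s [sigma, t] s^-1, so f[sigma, st] = f[sigma, s] + s f[sigma, t] (equivariance) and sigma, s commute on the values: c(s t) = c(s) + s c(t) (Tb.inj). For h in SH: f(sigma h sigma^-1 h^-1) =
sigma f(h) - f(h). Continuity: L' = normal closure of L: s in L'.fixingSubgroup implies sigma s sigma^-1 s^-1 in L.fixingSubgroup. -/
theorem ext (dta : Dta A B Om j act mo ψ p) {G : Subgroup (Ω ≃ₐ[F] Ω)} {I : (Ω ≃ₐ[F] Ω) → Prop} {σ : Ω ≃ₐ[F] Ω} (hσ : σ ∈ G) (hb : Tb act p σ)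
    {f : (Ω ≃ₐ[F] Ω) → PM act} (hf : IsHm act p (SH act G p) I f) (he : ∀ s ∈ G, ∀ h, SH act G p h → f (s * h * s⁻¹) = aM act s (f h)) :
    ∃ c : (Ω ≃ₐ[F] Ω) → PM act, IsCo act G c ∧ (∀ h, SH act G p h → c h = f h) ∧ (∀ s ∈ G, ∃ k : ℕ, p ^ k • c s = 0) ∧
      ∀ k : ℕ, (∀ h, p ^ k • f h = 0) → ∀ s ∈ G, p ^ k • c s = 0 := by
  choose c hct hc using fun s : Ω ≃ₐ[F] Ω => hb.surj (f (σ * s * σ⁻¹ * s⁻¹)) (hf.tor _)
  have hk : ∀ s ∈ G, SH act G p (σ * s * σ⁻¹ * s⁻¹) := fun s hs =>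
    ⟨mul_mem (mul_mem (mul_mem hσ hs) (inv_mem hσ)) (inv_mem hs), fa_comm dta σ s⟩
  have h1G : SH act G p 1 := ⟨one_mem G, fun P _ => aM_one act P⟩
  have hf1 : f 1 = 0 := by
    have h1 := hf.mul 1 h1G 1 h1G
    rw [mul_one] at h1
    exact (left_eq_add.1 h1)
  refine ⟨c, ⟨fun s hs t ht => ?_, ?_⟩, fun h hh => ?_, fun s _ => hct s, fun k hk0 s hs => ?_⟩
  · have h1 : c (s * t) - (c s + aM act s (c t)) = 0 := by
      refine hb.inj _ (c5b_sub (hct _) (c5b_add (hct _) (c5b_tor s (hct _)))) ?_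
      have e1 : aM act σ (c (s * t)) = c (s * t) + f (σ * (s * t) * σ⁻¹ * (s * t)⁻¹) := by rw [← hc]; abel
      have e2 : aM act σ (c s) = c s + f (σ * s * σ⁻¹ * s⁻¹) := by rw [← hc]; abel
      have e3 : aM act σ (aM act s (c t)) = aM act s (c t) + aM act s (f (σ * t * σ⁻¹ * t⁻¹)) := by
        rw [c5b_comm dta σ s (hct t), ← map_add, ← hc t]
        congr 1
        abel
      have e4 : f (σ * (s * t) * σ⁻¹ * (s * t)⁻¹) = f (σ * s * σ⁻¹ * s⁻¹) + aM act s (f (σ * t * σ⁻¹ * t⁻¹)) := by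
        rw [← he s hs _ (hk t ht), ← hf.mul _ (hk s hs)]
        · congr 1
          group
        · exact ⟨mul_mem (mul_mem hs (hk t ht).1) (inv_mem hs), FA_conj act (hk t ht).2 s⟩
      rw [map_sub, map_add, e1, e2, e3, e4]
      abel
    exact sub_eq_zero.1 h1
  · obtain ⟨L, hL, h1⟩ := hf.cont
    refine ⟨L ⊔ L.map (σ⁻¹ : Ω ≃ₐ[F] Ω).toAlgHom, inferInstance, fun s hs hm => ?_⟩
    rw [IntermediateField.fixingSubgroup_sup] at hm
    refine hb.inj _ (hct s) ?_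
    have h2 : f (σ * s * σ⁻¹ * s⁻¹) = 0 := by
      refine h1 _ (hk s hs) (mul_mem ?_ (inv_mem hm.1))
      have h3 : s ∈ (L.map (σ⁻¹ : Ω ≃ₐ[F] Ω).toAlgHom).fixingSubgroup := hm.2
      rw [IntermediateField.mem_fixingSubgroup_iff] at h3
      rw [IntermediateField.mem_fixingSubgroup_iff]
      intro x hx
      have h4 := h3 (σ⁻¹ x) ⟨x, hx, rfl⟩
      show σ (s (σ⁻¹ x)) = x
      rw [h4]
      show (σ * σ⁻¹) x = x
      rw [mul_inv_cancel]
      rfl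
    have h5 := hc s
    rw [h2] at h5
    exact sub_eq_zero.1 h5
  · have h1 : c h - f h = 0 := by
      refine hb.inj _ (c5b_sub (hct h) (hf.tor h)) ?_
      have hi : SH act G p h⁻¹ := by
        refine ⟨inv_mem hh.1, fun P hP => ?_⟩
        have h2 := hh.2 (aM act h⁻¹ P) (c5b_tor _ hP)
        rw [aM_inv] at h2
        exact h2.symm
      have h2 : f h⁻¹ = -f h := by
        have h3 := hf.mul h hh h⁻¹ hi
        rw [mul_inv_cancel, hf1] at h3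
        exact (neg_eq_of_add_eq_zero_right h3.symm).symm
      have h3 : f (σ * h * σ⁻¹ * h⁻¹) = aM act σ (f h) - f h := by
        rw [hf.mul (σ * h * σ⁻¹) ⟨mul_mem (mul_mem hσ hh.1) (inv_mem hσ), FA_conj act hh.2 σ⟩ h⁻¹ hi, he σ hσ h hh, h2,
          sub_eq_add_neg]
      have h4 : aM act σ (c h) = c h + (aM act σ (f h) - f h) := by
        rw [← h3, ← hc]
        abel
      rw [map_sub, h4]
      abel
    exact sub_eq_zero.1 h1
  · refine hb.inj _ ?_ ?_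
    · obtain ⟨l, hl⟩ := hct s
      exact ⟨l, by rw [smul_comm, hl, smul_zero]⟩
    · have h2 : p ^ k • (aM act σ (c s) - c s) = 0 := by rw [hc s]; exact hk0 _
      rw [smul_sub, sub_eq_zero] at h2
      rw [map_nsmul]
      exact h2

end H35L
end

-- from Lib.H35L.K4
section

/-! # H35L, chunk K4 (M): the Kummer map on units tensor 𝓞 F / p -/

open NumberField IsDedekindDomain WeierstrassCurve

namespace H35L

open H55P (IQ Pt ac Inert Dec Nm)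
open H35P (WAB)
open H55K (CMA Dta)
open H35K (Lev)

open TensorProduct
variable {F : Type} [Field F] [NumberField F] [IQ F] {A B : F} {Om : ℂ} {Ω : Type} [Field Ω] [DecidableEq Ω]
  [Algebra F Ω] [IsAlgClosure F Ω] {j : Ω →+* ℂ} {act : 𝓞 F →+* AddMonoid.End (Pt (WAB A B) Ω)} {mo : Ideal (𝓞 F)}
  {ψ : Ideal (𝓞 F) →*₀ 𝓞 F} {p : ℕ}

omit [NumberField F] [IQ F] [IsAlgClosure F Ω] in
theorem k4_smul (T : PM act) : ((p : 𝓞 F)) • T = p • T := by
  rw [Nat.cast_smul_eq_nsmul]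

omit [NumberField F] [IQ F] [IsAlgClosure F Ω] in
theorem k4_one {t : Ω → PM act} (ht : IsT act p 1 t) : t 1 = 0 := by
  have h1 := ht.mul 1 1 (one_pow _) (one_pow _)
  rw [mul_one] at h1
  exact left_eq_add.1 h1

omit [NumberField F] [IQ F] [IsAlgClosure F Ω] in
theorem k4_pow {t : Ω → PM act} (ht : IsT act p 1 t) {z : Ω} (hz : z ^ p ^ 1 = 1) (n : ℕ) : t (z ^ n) = n • t z := by
  induction n with
  | zero => rw [pow_zero, k4_one ht, zero_smul]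
  | succ n ih =>
    rw [pow_succ, ht.mul _ _ (by rw [← pow_mul, mul_comm, pow_mul, hz, one_pow]) hz, ih, succ_nsmul]

omit [NumberField F] [IQ F] [IsAlgClosure F Ω] in
theorem k4_p {t : Ω → PM act} (ht : IsT act p 1 t) (z : Ω) : p • t z = 0 := by
  by_cases hz : z ^ p ^ 1 = 1
  · rw [← k4_pow ht hz, ← pow_one p, hz, k4_one ht]
  · rw [ht.out z hz, smul_zero]

omit [DecidableEq Ω] in
theorem k4_rt (hac : IsAlgClosed Ω) (hp : p.Prime) (u : Ω) : (rt p 1 u) ^ p ^ 1 = u := by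
  classical
  have h : ∃ v : Ω, v ^ p ^ 1 = u := IsAlgClosed.exists_pow_nat_eq u (pow_pos hp.pos 1)
  unfold rt
  rw [dif_pos h]
  exact h.choose_spec

omit [NumberField F] [IQ F] in
theorem k4_eq (hp : p.Prime) {H : (Ω ≃ₐ[F] Ω) → Prop} (hr : ∀ h, H h → ∀ z : Ω, z ^ p ^ 1 = 1 → h z = z) {u v : Ω} (hu : u ≠ 0)
    (hv : v ^ p ^ 1 = u) {t : Ω → PM act} {h : Ω ≃ₐ[F] Ω} (hh : H h) (hhu : h u = u) :
    kum act p 1 H u t h = t (h v / v) ∧ (h v / v) ^ p ^ 1 = 1 := by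
  classical
  have hpk : p ^ 1 ≠ 0 := pow_ne_zero _ hp.ne_zero
  have hv0 : v ≠ 0 := by
    rintro rfl
    rw [zero_pow hpk] at hv
    exact hu hv.symm
  have hr1 := k4_rt (IsAlgClosure.isAlgClosed F) hp u
  have hr0 : rt p 1 u ≠ 0 := by
    intro h0
    rw [h0, zero_pow hpk] at hr1
    exact hu hr1.symm
  constructor
  · unfold kum
    rw [if_pos hh]
    have h1 : (v / rt p 1 u) ^ p ^ 1 = 1 := by rw [div_pow, hv, hr1, div_self hu]
    have h2 := hr h hh _ h1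
    rw [map_div₀] at h2
    have hh0 : h (rt p 1 u) ≠ 0 := by rwa [Ne, EmbeddingLike.map_eq_zero_iff]
    have h3 : h v / v = h (rt p 1 u) / rt p 1 u := by
      rw [div_eq_div_iff hh0 hr0] at h2
      rw [div_eq_div_iff hv0 hr0, h2]
      ring
    rw [h3]
  · rw [div_pow, ← map_pow, hv, hhu, div_self hu]

omit [NumberField F] [IQ F] in
theorem k4_mul (hp : p.Prime) {H : (Ω ≃ₐ[F] Ω) → Prop} (hr : ∀ h, H h → ∀ z : Ω, z ^ p ^ 1 = 1 → h z = z) {u u' : Ω} (hu : u ≠ 0)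
    (hu' : u' ≠ 0) {t : Ω → PM act} (ht : IsT act p 1 t) (hf : ∀ h, H h → h u = u) (hf' : ∀ h, H h → h u' = u') :
    kum act p 1 H (u * u') t = kum act p 1 H u t + kum act p 1 H u' t := by
  classical
  funext h
  rw [Pi.add_apply]
  by_cases hh : H h
  · have h1 := k4_eq hp hr (mul_ne_zero hu hu') (v := rt p 1 u * rt p 1 u') (by rw [mul_pow, k4_rt (IsAlgClosure.isAlgClosed F) hp, k4_rt (IsAlgClosure.isAlgClosed F) hp]) (t := t) hh
      (by rw [map_mul, hf h hh, hf' h hh])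
    have h2 := k4_eq hp hr hu (k4_rt (IsAlgClosure.isAlgClosed F) hp u) (t := t) hh (hf h hh)
    have h3 := k4_eq hp hr hu' (k4_rt (IsAlgClosure.isAlgClosed F) hp u') (t := t) hh (hf' h hh)
    rw [h1.1, h2.1, h3.1, map_mul, mul_div_mul_comm, ht.mul _ _ h2.2 h3.2]
  · unfold kum
    rw [if_neg hh, if_neg hh, if_neg hh, add_zero]

omit [NumberField F] [IQ F] [IsAlgClosure F Ω] in
theorem k4_kp {H : (Ω ≃ₐ[F] Ω) → Prop} (u : Ω) {t : Ω → PM act} (ht : IsT act p 1 t) : p • kum act p 1 H u t = 0 := by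
  classical
  funext h
  rw [Pi.smul_apply, Pi.zero_apply]
  unfold kum
  split_ifs
  · exact k4_p ht _
  · exact smul_zero _

theorem k4_theta (hp : p.Prime) {H : (Ω ≃ₐ[F] Ω) → Prop} (hr : ∀ h, H h → ∀ z : Ω, z ^ p ^ 1 = 1 → h z = z)
    {B' : IntermediateField F Ω} [NumberField B'] (hfix : ∀ h, H h → h ∈ B'.fixingSubgroup) {t₀ : Ω → PM act} (h0 : IsT act p 1 t₀) :
    ∃ θ : (𝓞 F ⧸ Ideal.span {(p : 𝓞 F)}) ⊗[ℤ] Additive (𝓞 B')ˣ →+ ((Ω ≃ₐ[F] Ω) → PM act),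
      ∀ (a : 𝓞 F) (u : (𝓞 B')ˣ), θ (Ideal.Quotient.mk _ a ⊗ₜ Additive.ofMul u) = a • kum act p 1 H (((u : 𝓞 B') : B') : Ω) t₀ := by
  have hun : ∀ u : (𝓞 B')ˣ, (((u : 𝓞 B') : B') : Ω) ≠ 0 := by
    intro u
    rw [Ne, ZeroMemClass.coe_eq_zero]
    exact fun h => u.ne_zero (RingOfIntegers.coe_eq_zero_iff.1 h)
  have huf : ∀ (u : (𝓞 B')ˣ) (h : Ω ≃ₐ[F] Ω), H h → h (((u : 𝓞 B') : B') : Ω) = (((u : 𝓞 B') : B') : Ω) := by
    intro u h hh
    exact (IntermediateField.mem_fixingSubgroup_iff _ _).1 (hfix h hh) _ ((u : 𝓞 B') : B').2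
  obtain ⟨K, hK⟩ : ∃ K : (𝓞 B')ˣ → ((Ω ≃ₐ[F] Ω) → PM act), ∀ u, K u = kum act p 1 H (((u : 𝓞 B') : B') : Ω) t₀ := ⟨_, fun _ => rfl⟩
  have hKm : ∀ u u', K (u * u') = K u + K u' := by
    intro u u'
    rw [hK, hK, hK, ← k4_mul hp hr (hun u) (hun u') h0 (huf u) (huf u')]
    rfl
  have hKp : ∀ (u) (x y : 𝓞 F), Ideal.Quotient.mk (Ideal.span {(p : 𝓞 F)}) x = Ideal.Quotient.mk (Ideal.span {(p : 𝓞 F)}) y →
      x • K u = y • K u := by
    intro u x y hxy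
    rw [Ideal.Quotient.mk_eq_mk_iff_sub_mem, Ideal.mem_span_singleton] at hxy
    obtain ⟨c, hc⟩ := hxy
    rw [← sub_eq_zero, ← sub_smul, hc, mul_comm, mul_smul, Nat.cast_smul_eq_nsmul, hK, k4_kp _ h0, smul_zero]
  let rep : (𝓞 F ⧸ Ideal.span {(p : 𝓞 F)}) → 𝓞 F := Function.surjInv Ideal.Quotient.mk_surjective
  have hrep : ∀ a, Ideal.Quotient.mk (Ideal.span {(p : 𝓞 F)}) (rep a) = a := fun a => Function.surjInv_eq _ a
  let f : (𝓞 F ⧸ Ideal.span {(p : 𝓞 F)}) →+ Additive (𝓞 B')ˣ →+ ((Ω ≃ₐ[F] Ω) → PM act) :=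
    AddMonoidHom.mk' (fun a => AddMonoidHom.mk' (fun u => rep a • K u.toMul) (by
      intro u u'
      rw [toMul_add, hKm, smul_add])) (by
      intro a b
      refine AddMonoidHom.ext fun u => ?_
      show rep (a + b) • K u.toMul = rep a • K u.toMul + rep b • K u.toMul
      rw [← add_smul]
      refine hKp _ _ _ ?_
      rw [map_add, hrep, hrep, hrep])
  have hf : ∀ a u, f a u = rep a • K u.toMul := fun a u => rfl
  have hbal : ∀ (r : ℤ) (a : 𝓞 F ⧸ Ideal.span {(p : 𝓞 F)}) (u : Additive (𝓞 B')ˣ), f (r • a) u = f a (r • u) := by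
    intro r a u
    rw [map_zsmul f r a, map_zsmul (f a) r u]
    rfl
  refine ⟨TensorProduct.liftAddHom f hbal, ?_⟩
  intro a u
  rw [TensorProduct.liftAddHom_tmul, hf, toMul_ofMul, hKp _ _ _ (hrep _), hK]

/-- Chunk K4a (S/M). A generator t₀ of the homomorphisms on the p-th roots of unity: t₀(zeta) = T₀ (tor_gen for k = 1). -/
theorem exists_t0 (dta : Dta A B Om j act mo ψ p) (ζ : Ω) (hζ : IsPrimitiveRoot ζ p) : ∃ (t₀ : Ω → PM act) (T₀ : PM act), IsT act p 1 t₀ ∧ t₀ ζ = T₀ ∧ T₀ ≠ 0 ∧ p • T₀ = 0 ∧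
    (∀ i : ℕ, t₀ (ζ ^ i) = i • T₀) ∧ ∀ a : 𝓞 F, a • T₀ = 0 ↔ (p : 𝓞 F) ∣ a := by
  classical
  have hp := dta.prime
  obtain ⟨T₀, h0, -, hz⟩ := tor_gen dta 1
  rw [pow_one] at h0 hz
  have hT0 : T₀ ≠ 0 := by
    intro h
    have h1 : (p : 𝓞 F) ∣ 1 := (hz 1).1 (by rw [h, smul_zero])
    have h2 : (p : 𝓞 F) ∣ ((1 : ℤ) : 𝓞 F) := by
      rw [Int.cast_one]
      exact h1
    have h3 := x2_nat_dvd h2
    have h5 : p ∣ 1 := by exact_mod_cast h3
    exact hp.one_lt.ne' (Nat.dvd_one.1 h5)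
  have hn0 : NeZero p := ⟨hp.ne_zero⟩
  have hex : ∀ z : Ω, z ^ p ^ 1 = 1 → ∃ i : ℕ, ζ ^ i = z := by
    intro z hz1
    rw [pow_one] at hz1
    obtain ⟨i, _, hi⟩ := hζ.eq_pow_of_pow_eq_one hz1
    exact ⟨i, hi⟩
  have hnp : ∀ i i' : ℕ, ζ ^ i = ζ ^ i' → i • T₀ = i' • T₀ := by
    intro i i' h
    have h1 := x2_pow hζ hp.pos h
    have h2 : ∀ n : ℕ, n • T₀ = (n % p) • T₀ := by
      intro n
      conv_lhs => rw [← Nat.div_add_mod n p]
      rw [add_smul, mul_comm, mul_smul, h0, smul_zero, zero_add]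
    rw [h2 i, h2 i', h1]
  let t₀ : Ω → PM act := fun z => if h : z ^ p ^ 1 = 1 then (hex z h).choose • T₀ else 0
  have ht : ∀ i : ℕ, t₀ (ζ ^ i) = i • T₀ := by
    intro i
    have h1 : (ζ ^ i) ^ p ^ 1 = 1 := by rw [← pow_mul, mul_comm, pow_mul, pow_one, hζ.pow_eq_one, one_pow]
    show (if h : (ζ ^ i) ^ p ^ 1 = 1 then (hex _ h).choose • T₀ else 0) = i • T₀
    rw [dif_pos h1]
    exact hnp _ _ (hex _ h1).choose_spec
  refine ⟨t₀, T₀, ⟨?_, ?_⟩, ?_, hT0, h0, ht, hz⟩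
  · intro z w hz1 hw1
    obtain ⟨i, rfl⟩ := hex z hz1
    obtain ⟨i', rfl⟩ := hex w hw1
    rw [← pow_add, ht, ht, ht, add_smul]
  · intro z hz1
    exact dif_neg hz1
  · have h1 := ht 1
    rwa [pow_one, one_smul] at h1

/-- Chunk K4b (S/M). s acts as a on the points killed by p: the conjugate of t₀ is lambda t₀ with lambda Nm a = a modulo p: s t₀(s^-1 z): s zeta = zeta^(Nm a) (ch_cyc), so with z = s zeta: s t₀(zeta) = a T₀ = t₀'(zeta^(Nm a)) = Nm a t₀'(zeta). -/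
theorem t0_cj (dta : Dta A B Om j act mo ψ p) (hin : Prime (p : 𝓞 F)) {ζ : Ω} (hζ : IsPrimitiveRoot ζ p) {t₀ : Ω → PM act} {T₀ : PM act} (h0 : IsT act p 1 t₀)
    (h1 : ∀ i : ℕ, t₀ (ζ ^ i) = i • T₀) (hT : p • T₀ = 0) (h2 : ∀ a : 𝓞 F, a • T₀ = 0 ↔ (p : 𝓞 F) ∣ a) {s : Ω ≃ₐ[F] Ω} {a l : 𝓞 F} (ha : Ch act p 1 s a)
    (hl : (p : 𝓞 F) ∣ l * (Nm a : 𝓞 F) - a) : (fun z => aM act s (t₀ (s⁻¹ z))) = l • t₀ := by
  have hn0 : NeZero p := ⟨dta.prime.ne_zero⟩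
  funext z
  rw [Pi.smul_apply]
  have hsz : s (s⁻¹ z) = z := s.apply_symm_apply z
  by_cases hz : z ^ p ^ 1 = 1
  · have hw : (s⁻¹ z) ^ p ^ 1 = 1 := by rw [← map_pow, hz, map_one]
    have hw' := hw
    rw [pow_one] at hw'
    obtain ⟨i, _, hi⟩ := hζ.eq_pow_of_pow_eq_one hw'
    have h3 : z = ζ ^ (i * Nm a) := by
      rw [pow_mul, hi, ← ch_cyc dta ha _ hw, hsz]
    rw [← hi, h1, map_nsmul, ha T₀ (by rw [pow_one]; exact hT), h3, h1]
    obtain ⟨c, hc⟩ := hl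
    have h4 : a = l * (Nm a : 𝓞 F) - p * c := by linear_combination -hc
    have h5 : a • T₀ = (l * (Nm a : 𝓞 F)) • T₀ := by
      conv_lhs => rw [h4]
      rw [sub_smul, mul_comm (p : 𝓞 F) c, mul_smul c, k4_smul, hT, smul_zero, sub_zero]
    rw [h5, mul_smul, Nat.cast_smul_eq_nsmul, smul_comm i l, ← mul_smul i]
  · have hw : (s⁻¹ z) ^ p ^ 1 ≠ 1 := by
      intro h
      apply hz
      rw [← hsz, ← map_pow, h, map_one]
    rw [h0.out _ hw, h0.out _ hz, map_zero, smul_zero]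

/-- Chunk K4c (M). The map (𝓞 F/p) (x) units(B) -> functions, a (x) u -> a kum 1 u t₀ (TensorProduct.lift; a kum = 0 for p | a; additive in u: kum_mul). -/
theorem exists_theta (dta : Dta A B Om j act mo ψ p) {G : Subgroup (Ω ≃ₐ[F] Ω)} {B' : IntermediateField F Ω} [NumberField B'] (hfix : ∀ h, SH act G p h → h ∈ B'.fixingSubgroup)
    {t₀ : Ω → PM act} (h0 : IsT act p 1 t₀) :
    ∃ θ : (𝓞 F ⧸ Ideal.span {(p : 𝓞 F)}) ⊗[ℤ] Additive (𝓞 B')ˣ →+ ((Ω ≃ₐ[F] Ω) → PM act),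
      ∀ (a : 𝓞 F) (u : (𝓞 B')ˣ), θ (Ideal.Quotient.mk _ a ⊗ₜ Additive.ofMul u) = a • kum act p 1 (SH act G p) (((u : 𝓞 B') : B') : Ω) t₀ :=
  k4_theta dta.prime (fun _ hh z hz => fa_root dta hh.2 1 z hz) hfix h0

omit [NumberField F] [IQ F] in
/-- The elements fixing the roots of unity: homomorphism property. -/
theorem k4_hm (hp : p.Prime) {H : (Ω ≃ₐ[F] Ω) → Prop} (hr : ∀ h, H h → ∀ z : Ω, z ^ p ^ 1 = 1 → h z = z) {u : Ω} (hu : u ≠ 0)
    {t : Ω → PM act} (ht : IsT act p 1 t) (hf : ∀ h, H h → h u = u) {h h' : Ω ≃ₐ[F] Ω} (hh : H h) (hh' : H h') (hm : H (h * h')) :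
    kum act p 1 H u t (h * h') = kum act p 1 H u t h + kum act p 1 H u t h' := by
  have hv := k4_rt (IsAlgClosure.isAlgClosed F) hp u
  have hpk : p ^ 1 ≠ 0 := pow_ne_zero _ hp.ne_zero
  have hv0 : rt p 1 u ≠ 0 := by
    intro h0
    rw [h0, zero_pow hpk] at hv
    exact hu hv.symm
  have h1 := k4_eq hp hr hu hv (t := t) hm (hf _ hm)
  have h2 := k4_eq hp hr hu hv (t := t) hh (hf _ hh)
  have h3 := k4_eq hp hr hu hv (t := t) hh' (hf _ hh')
  have h4 : (h * h') (rt p 1 u) / rt p 1 u = (h (rt p 1 u) / rt p 1 u) * (h' (rt p 1 u) / rt p 1 u) := by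
    have h5 := hr h hh _ h3.2
    rw [map_div₀] at h5
    have hh0 : h (rt p 1 u) ≠ 0 := by rwa [Ne, EmbeddingLike.map_eq_zero_iff]
    rw [AlgEquiv.mul_apply]
    rw [div_eq_div_iff hh0 hv0] at h5
    rw [div_mul_div_comm, div_eq_div_iff hv0 (mul_ne_zero hv0 hv0)]
    linear_combination (rt p 1 u) * h5
  rw [h1.1, h2.1, h3.1, h4, ht.mul _ _ h2.2 h3.2]

omit [IQ F] in
/-- Decomposition of a tensor along a basis of 𝓞 F. -/
theorem k4_dec {U : Type*} [CommGroup U] (z : (𝓞 F ⧸ Ideal.span {(p : 𝓞 F)}) ⊗[ℤ] Additive U) :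
    ∃ w : Module.Free.ChooseBasisIndex ℤ (𝓞 F) → U,
      z = ∑ i, Ideal.Quotient.mk (Ideal.span {(p : 𝓞 F)}) (RingOfIntegers.basis F i) ⊗ₜ[ℤ] Additive.ofMul (w i) := by
  induction z using TensorProduct.induction_on with
  | zero =>
    refine ⟨fun _ => 1, ?_⟩
    symm
    refine Finset.sum_eq_zero fun i _ => ?_
    rw [ofMul_one, TensorProduct.tmul_zero]
  | tmul a u =>
    obtain ⟨x, rfl⟩ := Ideal.Quotient.mk_surjective a
    refine ⟨fun i => u.toMul ^ ((RingOfIntegers.basis F).repr x i), ?_⟩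
    conv_lhs => rw [← (RingOfIntegers.basis F).sum_repr x]
    rw [map_sum, TensorProduct.sum_tmul]
    refine Finset.sum_congr rfl fun i _ => ?_
    rw [map_zsmul, TensorProduct.smul_tmul, ofMul_zpow, ofMul_toMul]
  | add x y hx hy =>
    obtain ⟨w, hw⟩ := hx
    obtain ⟨w', hw'⟩ := hy
    refine ⟨fun i => w i * w' i, ?_⟩
    rw [hw, hw', ← Finset.sum_add_distrib]
    refine Finset.sum_congr rfl fun i _ => ?_
    rw [ofMul_mul, TensorProduct.tmul_add]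

/-- A p-th root in B of a unit of B is a unit. -/
theorem k4_unit (hp : p.Prime) {B' : IntermediateField F Ω} [NumberField B'] (u : (𝓞 B')ˣ) {v : Ω} (hv : v ∈ B')
    (hvu : v ^ p ^ 1 = (((u : 𝓞 B') : B') : Ω)) : ∃ w : (𝓞 B')ˣ, w ^ p = u := by
  have hpp : 0 < p := hp.pos
  rw [pow_one] at hvu
  have key : ∀ (u : (𝓞 B')ˣ) (v : Ω) (hv : v ∈ B'), v ^ p = (((u : 𝓞 B') : B') : Ω) → IsIntegral ℤ (⟨v, hv⟩ : B') := by
    intro u v hv h
    refine IsIntegral.of_pow hpp ?_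
    have h1 : (⟨v, hv⟩ : B') ^ p = ((u : 𝓞 B') : B') := Subtype.ext h
    rw [h1]
    exact (u : 𝓞 B').2
  have hu1 : (((u : 𝓞 B') : B') : Ω) * ((((u⁻¹ : (𝓞 B')ˣ) : 𝓞 B') : B') : Ω) = 1 := by
    have h1 : (u : 𝓞 B') * ((u⁻¹ : (𝓞 B')ˣ) : 𝓞 B') = 1 := u.mul_inv
    have h2 := congrArg (fun x : 𝓞 B' => ((x : B') : Ω)) h1
    exact h2
  have hvi : v⁻¹ ∈ B' := B'.inv_mem hv
  have h2 : v⁻¹ ^ p = ((((u⁻¹ : (𝓞 B')ˣ) : 𝓞 B') : B') : Ω) := by
    rw [inv_pow, hvu]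
    exact inv_eq_of_mul_eq_one_right hu1
  have hv0 : v ≠ 0 := by
    rintro rfl
    rw [zero_pow hpp.ne'] at hvu
    rw [← hvu, zero_mul] at hu1
    exact zero_ne_one hu1
  let x : 𝓞 B' := ⟨⟨v, hv⟩, key u v hv hvu⟩
  let y : 𝓞 B' := ⟨⟨v⁻¹, hvi⟩, key u⁻¹ v⁻¹ hvi h2⟩
  have hxy : x * y = 1 := by
    apply RingOfIntegers.ext
    apply Subtype.ext
    exact mul_inv_cancel₀ hv0
  refine ⟨⟨x, y, hxy, by rw [mul_comm, hxy]⟩, ?_⟩
  apply Units.ext
  apply RingOfIntegers.ext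
  apply Subtype.ext
  exact hvu

/-- Chunk K4 (M/L). INJECTIVITY on the eigenvectors: B as in IsB with K > 0, sigma in G, sigma - 1 bijective on the points; z in (𝓞 F/p) (x) units(B) with theta z = 0 and sigma (theta z) = theta z computed through the units: (1 (x) sigma) z = mu z with mu l = 1 (l as in t0_cj). Then
z = 0. PROOF. 𝓞 F/p has an F_p-basis b_1, b_2 (classes of beta_1, beta_2 in 𝓞 F): z = sum b_i (x) u_i. Define Phi(h) = sum beta_i t₀(h v_i/v_i) for h fixing B, v_i^p = u_i: a homomorphism on B.fixingSubgroup (fixes zeta, u_i) extending theta z on SH. The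
eigenvector condition says that Phi(sigma h sigma^-1) = sigma Phi(h) for h fixing B (same computation as kum_cj; z -> Phi is additive and well defined on the tensor product). sigma h sigma^-1 h^-1 is in SH (fa_comm), so Phi(sigma h sigma^-1) = Phi(h): Phi(h) = 0
(Tb.inj). t₀(h v_i/v_i) = n_i T₀, sum beta_i n_i T₀ = 0: n_i = 0 modulo p: h v_i = v_i for all h fixing B: v_i is in B, a unit: u_i = v_i^p, b_i (x) u_i = p b_i (x) v_i = 0. -/
theorem theta_inj (dta : Dta A B Om j act mo ψ p) (hin : Prime (p : 𝓞 F)) {K : ℕ} (hK : 0 < K) {G : Subgroup (Ω ≃ₐ[F] Ω)} {B' : IntermediateField F Ω}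
    [FiniteDimensional F B'] [NumberField B'] (hB : IsB act p K G B') {ζ : Ω} (hζ : IsPrimitiveRoot ζ p) {t₀ : Ω → PM act} {T₀ : PM act} (h0 : IsT act p 1 t₀)
    (h1 : ∀ i : ℕ, t₀ (ζ ^ i) = i • T₀) (hT : p • T₀ = 0) (h2 : ∀ a : 𝓞 F, a • T₀ = 0 ↔ (p : 𝓞 F) ∣ a) {σ : Ω ≃ₐ[F] Ω} (hσ : σ ∈ G) (hb : Tb act p σ) {a l m : 𝓞 F}
    (ha : Ch act p 1 σ a) (hl : (p : 𝓞 F) ∣ l * (Nm a : 𝓞 F) - a) (hm : (p : 𝓞 F) ∣ m * l - 1)
    (τ : (𝓞 B')ˣ →* (𝓞 B')ˣ) (hτ : ∀ u : (𝓞 B')ˣ, (((τ u : 𝓞 B') : B') : Ω) = σ (((u : 𝓞 B') : B') : Ω))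
    (θ : (𝓞 F ⧸ Ideal.span {(p : 𝓞 F)}) ⊗[ℤ] Additive (𝓞 B')ˣ →+ ((Ω ≃ₐ[F] Ω) → PM act))
    (hθ : ∀ (a : 𝓞 F) (u : (𝓞 B')ˣ), θ (Ideal.Quotient.mk _ a ⊗ₜ Additive.ofMul u) = a • kum act p 1 (SH act G p) (((u : 𝓞 B') : B') : Ω) t₀)
    (z : (𝓞 F ⧸ Ideal.span {(p : 𝓞 F)}) ⊗[ℤ] Additive (𝓞 B')ˣ)
    (hz : (MonoidHom.toAdditive τ).toIntLinearMap.baseChange (𝓞 F ⧸ Ideal.span {(p : 𝓞 F)}) z = (Ideal.Quotient.mk (Ideal.span {(p : 𝓞 F)}) m) • z) (h3 : θ z = 0) : z = 0 := by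
  classical
  have hp := dta.prime
  have hcm := cm dta
  have hn0 : NeZero p := ⟨hp.ne_zero⟩
  let H : (Ω ≃ₐ[F] Ω) → Prop := fun h => h ∈ B'.fixingSubgroup
  have hr : ∀ h, H h → ∀ z : Ω, z ^ p ^ 1 = 1 → h z = z := by
    intro h hh z hz
    have h4 : Ch act p 1 h 1 := ch_mono (by omega) ((hB h).1 hh).2
    have h5 : Nm (1 : 𝓞 F) = 1 := by
      have h6 := H55K.Nm_nat (F := F) 1
      simpa using h6
    rw [ch_cyc dta h4 z hz, h5, pow_one]
  have hun : ∀ u : (𝓞 B')ˣ, (((u : 𝓞 B') : B') : Ω) ≠ 0 := by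
    intro u
    rw [Ne, ZeroMemClass.coe_eq_zero]
    exact fun h => u.ne_zero (RingOfIntegers.coe_eq_zero_iff.1 h)
  have huf : ∀ (u : (𝓞 B')ˣ) (h : Ω ≃ₐ[F] Ω), H h → h (((u : 𝓞 B') : B') : Ω) = (((u : 𝓞 B') : B') : Ω) := by
    intro u h hh
    exact (IntermediateField.mem_fixingSubgroup_iff _ _).1 hh _ ((u : 𝓞 B') : B').2
  obtain ⟨θ', hθ'⟩ := k4_theta hp hr (fun _ h => h) h0
  have hSH : ∀ h, SH act G p h → H h := fun h hh => (hB h).2 ⟨hh.1, fa_iff.1 hh.2 K⟩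
  have e1 : ∀ w h, SH act G p h → θ' w h = θ w h := by
    intro w h hh
    induction w using TensorProduct.induction_on with
    | zero => rw [map_zero, map_zero]
    | tmul x u =>
      obtain ⟨x, rfl⟩ := Ideal.Quotient.mk_surjective x
      rw [← ofMul_toMul u, hθ', hθ, Pi.smul_apply, Pi.smul_apply]
      unfold kum
      rw [if_pos (hSH h hh), if_pos hh]
    | add x y hx hy => rw [map_add, map_add, Pi.add_apply, Pi.add_apply, hx, hy]
  have e2 : ∀ (c : 𝓞 F) w, θ' (Ideal.Quotient.mk (Ideal.span {(p : 𝓞 F)}) c • w) = c • θ' w := by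
    intro c w
    induction w using TensorProduct.induction_on with
    | zero => rw [smul_zero, map_zero, smul_zero]
    | tmul x u =>
      obtain ⟨x, rfl⟩ := Ideal.Quotient.mk_surjective x
      rw [TensorProduct.smul_tmul', smul_eq_mul, ← map_mul, ← ofMul_toMul u, hθ', hθ', mul_smul]
    | add x y hx hy => rw [smul_add, map_add, map_add, hx, hy, smul_add]
  have ep : ∀ w, p • θ' w = 0 := by
    intro w
    induction w using TensorProduct.induction_on with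
    | zero => rw [map_zero, smul_zero]
    | tmul x u =>
      obtain ⟨x, rfl⟩ := Ideal.Quotient.mk_surjective x
      rw [← ofMul_toMul u, hθ', smul_comm, k4_kp _ h0, smul_zero]
    | add x y hx hy => rw [map_add, smul_add, hx, hy, add_zero]
  have hch : ∀ (h : Ω ≃ₐ[F] Ω), H h → ∀ s ∈ G, H (s * h * s⁻¹) := by
    intro h hh s hs
    obtain ⟨h4, h5⟩ := (hB h).1 hh
    refine (hB _).2 ⟨mul_mem (mul_mem hs h4) (inv_mem hs), ?_⟩
    intro T hT
    rw [aM_mul, aM_mul, h5 _ (by rw [← map_nsmul, hT, map_zero]), one_smul, one_smul, aM_inv]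
  have hiff : ∀ h, H (σ⁻¹ * h * σ) ↔ H h := by
    intro h
    constructor
    · intro h4
      have h5 := hch _ h4 σ hσ
      have h6 : σ * (σ⁻¹ * h * σ) * σ⁻¹ = h := by group
      rwa [h6] at h5
    · intro h4
      have h5 := hch h h4 σ⁻¹ (inv_mem hσ)
      rwa [inv_inv] at h5
  have hkc : ∀ u : (𝓞 B')ˣ, cjL act hcm σ (kum act p 1 H (((u : 𝓞 B') : B') : Ω) t₀) =
      l • kum act p 1 H (((τ u : 𝓞 B') : B') : Ω) t₀ := by
    intro u
    funext h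
    show aM act σ (kum act p 1 H (((u : 𝓞 B') : B') : Ω) t₀ (σ⁻¹ * h * σ)) =
      l • kum act p 1 H (((τ u : 𝓞 B') : B') : Ω) t₀ h
    by_cases hh : H h
    · have hh' := (hiff h).2 hh
      have hv := k4_rt (IsAlgClosure.isAlgClosed F) hp (((u : 𝓞 B') : B') : Ω)
      have h4 := k4_eq hp hr (hun u) hv (t := t₀) hh' (huf u _ hh')
      have h5 := k4_eq hp hr (hun (τ u)) (v := σ (rt p 1 (((u : 𝓞 B') : B') : Ω))) (by rw [← map_pow, hv, hτ]) (t := t₀) hh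
        (huf (τ u) _ hh)
      rw [h4.1, h5.1]
      have h6 := congrFun (t0_cj dta hin hζ h0 h1 hT h2 ha hl) (h (σ (rt p 1 (((u : 𝓞 B') : B') : Ω))) / σ (rt p 1 (((u : 𝓞 B') : B') : Ω)))
      rw [Pi.smul_apply] at h6
      rw [← h6, map_div₀]
      have h7 : (σ⁻¹ : Ω ≃ₐ[F] Ω) (σ (rt p 1 (((u : 𝓞 B') : B') : Ω))) = rt p 1 (((u : 𝓞 B') : B') : Ω) := σ.symm_apply_apply _
      rw [h7]
      rfl
    · have hh' : ¬ H (σ⁻¹ * h * σ) := fun h4 => hh ((hiff h).1 h4)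
      unfold kum
      rw [if_neg hh, if_neg hh', map_zero, smul_zero]
  have e3 : ∀ w, cjL act hcm σ (θ' w) = l • θ' ((MonoidHom.toAdditive τ).toIntLinearMap.baseChange (𝓞 F ⧸ Ideal.span {(p : 𝓞 F)}) w) := by
    intro w
    induction w using TensorProduct.induction_on with
    | zero => simp only [map_zero, smul_zero]
    | tmul x u =>
      obtain ⟨x, rfl⟩ := Ideal.Quotient.mk_surjective x
      have h4 : (MonoidHom.toAdditive τ).toIntLinearMap u = Additive.ofMul (τ u.toMul) := rfl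
      rw [LinearMap.baseChange_tmul, h4, hθ', ← ofMul_toMul u, hθ', map_smul, toMul_ofMul, hkc, smul_comm]
    | add x y hx hy => simp only [map_add, smul_add, hx, hy]
  have e4 : cjL act hcm σ (θ' z) = θ' z := by
    rw [e3, hz, e2, ← mul_smul]
    obtain ⟨c, hc⟩ := hm
    have h4 : l * m = 1 + c * p := by linear_combination hc
    rw [h4, add_smul, one_smul, mul_smul, Nat.cast_smul_eq_nsmul, ep, smul_zero, add_zero]
  have e6 : ∀ w h h', H h → H h' → θ' w (h * h') = θ' w h + θ' w h' := by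
    intro w h h' hh hh'
    induction w using TensorProduct.induction_on with
    | zero => rw [map_zero, Pi.zero_apply, Pi.zero_apply, Pi.zero_apply, add_zero]
    | tmul x u =>
      obtain ⟨x, rfl⟩ := Ideal.Quotient.mk_surjective x
      rw [← ofMul_toMul u, hθ', Pi.smul_apply, Pi.smul_apply, Pi.smul_apply,
        k4_hm hp hr (hun _) h0 (huf _) hh hh' (mul_mem hh hh'), smul_add]
    | add x y hx hy => rw [map_add, Pi.add_apply, Pi.add_apply, Pi.add_apply, hx, hy, add_add_add_comm]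
  have e5 : ∀ h, H h → θ' z h = 0 := by
    intro h hh
    have hG := ((hB h).1 hh).1
    have h4 : SH act G p (σ⁻¹ * h * σ * h⁻¹) := by
      refine ⟨mul_mem (mul_mem (mul_mem (inv_mem hσ) hG) hσ) (inv_mem hG), ?_⟩
      have h5 := fa_comm dta σ⁻¹ h
      rwa [inv_inv] at h5
    have h5 : θ' z (σ⁻¹ * h * σ) = θ' z h := by
      have h6 : σ⁻¹ * h * σ = (σ⁻¹ * h * σ * h⁻¹) * h := by group
      rw [h6, e6 z _ _ (hSH _ h4) hh, e1 z _ h4, h3, Pi.zero_apply, zero_add]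
    have h6 := congrFun e4 h
    have h7 : aM act σ (θ' z (σ⁻¹ * h * σ)) = θ' z h := h6
    rw [h5] at h7
    refine hb.inj _ ⟨1, ?_⟩ h7
    have h8 := congrFun (ep z) h
    rw [pow_one]
    exact h8
  obtain ⟨w, hw⟩ := k4_dec z
  have e7 : ∀ i, ∀ h, H h → h (rt p 1 ((((w i : 𝓞 B') : B')) : Ω)) = rt p 1 ((((w i : 𝓞 B') : B')) : Ω) := by
    intro i h hh
    have hv : ∀ i, _ := fun i => k4_rt (IsAlgClosure.isAlgClosed F) hp (((w i : 𝓞 B') : B') : Ω)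
    have h4 : ∀ i, _ := fun i => k4_eq hp hr (hun (w i)) (hv i) (t := t₀) hh (huf (w i) _ hh)
    have h5 : ∀ i, ∃ n : ℕ, ζ ^ n = h (rt p 1 ((((w i : 𝓞 B') : B')) : Ω)) / rt p 1 ((((w i : 𝓞 B') : B')) : Ω) := by
      intro i
      obtain ⟨n, _, hn⟩ := hζ.eq_pow_of_pow_eq_one (by have := (h4 i).2; rwa [pow_one] at this)
      exact ⟨n, hn⟩
    choose n hn using h5
    have h6 : (∑ i, (n i : 𝓞 F) * (RingOfIntegers.basis F i : 𝓞 F)) • T₀ = 0 := by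
      rw [Finset.sum_smul, ← e5 h hh, hw, map_sum, Finset.sum_apply]
      refine Finset.sum_congr rfl fun i _ => ?_
      rw [hθ', Pi.smul_apply, (h4 i).1, ← hn i, h1, mul_comm, mul_smul, Nat.cast_smul_eq_nsmul]
    obtain ⟨c, hc⟩ := (h2 _).1 h6
    have h7 : (p : ℤ) ∣ (n i : ℤ) := by
      have h8 : (RingOfIntegers.basis F).repr (∑ i, (n i : 𝓞 F) * (RingOfIntegers.basis F i : 𝓞 F)) i = (n i : ℤ) := by
        have h9 : ∑ i, (n i : 𝓞 F) * (RingOfIntegers.basis F i : 𝓞 F) = ∑ i, (n i : ℤ) • (RingOfIntegers.basis F i : 𝓞 F) := by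
          refine Finset.sum_congr rfl fun i _ => ?_
          rw [zsmul_eq_mul, Int.cast_natCast]
        rw [h9, Module.Basis.repr_sum_self]
      have h10 : (RingOfIntegers.basis F).repr ((p : 𝓞 F) * c) i = (p : ℤ) * (RingOfIntegers.basis F).repr c i := by
        have h9 : (p : 𝓞 F) * c = (p : ℤ) • c := by rw [zsmul_eq_mul, Int.cast_natCast]
        rw [h9, map_zsmul, Finsupp.smul_apply, smul_eq_mul]
      rw [← h8, hc, h10]
      exact dvd_mul_right _ _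
    have h8 : p ∣ n i := by exact_mod_cast h7
    have h9 : ζ ^ n i = 1 := (hζ.pow_eq_one_iff_dvd _).2 h8
    have hv0 : rt p 1 ((((w i : 𝓞 B') : B')) : Ω) ≠ 0 := by
      intro h0
      have h10 := hv i
      rw [h0, zero_pow (pow_ne_zero _ hp.ne_zero)] at h10
      exact hun (w i) h10.symm
    rw [hn i, div_eq_one_iff_eq hv0] at h9
    exact h9
  have hg : IsGalois F Ω := IsAlgClosure.isGalois F Ω
  have e8 : ∀ i, ∃ w' : (𝓞 B')ˣ, w' ^ p = w i := by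
    intro i
    refine k4_unit hp (w i) (v := rt p 1 ((((w i : 𝓞 B') : B')) : Ω)) ?_ (k4_rt (IsAlgClosure.isAlgClosed F) hp _)
    have h4 : rt p 1 ((((w i : 𝓞 B') : B')) : Ω) ∈ IntermediateField.fixedField B'.fixingSubgroup := by
      rw [IntermediateField.mem_fixedField_iff]
      exact fun f hf => e7 i f hf
    rwa [InfiniteGalois.fixedField_fixingSubgroup] at h4
  rw [hw]
  refine Finset.sum_eq_zero fun i _ => ?_
  obtain ⟨w', hw'⟩ := e8 i
  rw [← hw', ofMul_pow, ← TensorProduct.smul_tmul, ← map_nsmul]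
  have h4 : Ideal.Quotient.mk (Ideal.span {(p : 𝓞 F)}) (p • (RingOfIntegers.basis F i : 𝓞 F)) = 0 := by
    rw [Ideal.Quotient.eq_zero_iff_mem, Ideal.mem_span_singleton, nsmul_eq_mul]
    exact dvd_mul_right _ _
  rw [h4, TensorProduct.zero_tmul]

end H35L
end

-- from Lib.H35L.K5
section

/-! # H35L, chunk K5 (M): there are many Kummer classes -/

open NumberField IsDedekindDomain WeierstrassCurve

namespace H35L

open H55P (IQ Pt ac Inert Dec Nm)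
open H35P (WAB)
open H55K (CMA Dta)
open H35K (Lev)

open TensorProduct

variable {F : Type} [Field F] [NumberField F] [IQ F] {A B : F} {Om : ℂ} {Ω : Type} [Field Ω] [DecidableEq Ω]
  [Algebra F Ω] [IsAlgClosure F Ω] {j : Ω →+* ℂ} {act : 𝓞 F →+* AddMonoid.End (Pt (WAB A B) Ω)} {mo : Ideal (𝓞 F)}
  {ψ : Ideal (𝓞 F) →*₀ 𝓞 F} {p : ℕ}


/-- No embedding of F is real. -/
theorem k5_notreal (F : Type) [Field F] [NumberField F] [IQ F] (φ : F →+* ℂ) : ¬ ComplexEmbedding.IsReal φ := by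
  intro h
  have h1 : (starRingEnd ℂ).comp φ = φ := by
    ext x
    have h2 := RingHom.congr_fun (ComplexEmbedding.isReal_iff.1 h) x
    exact h2
  by_cases hφ : φ = H55P.embF F
  · rw [hφ] at h1
    exact H55K.d1_conj_ne F h1
  · have h2 := H55K.d1_emb F φ _ hφ (H55K.d1_conj_ne F)
    apply hφ
    rw [← h1, h2]
    ext x
    exact Complex.conj_conj _

theorem k5_tc (F : Type) [Field F] [NumberField F] [IQ F] : IsTotallyComplex F := by
  refine ⟨fun v => ?_⟩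
  rw [← InfinitePlace.not_isReal_iff_isComplex]
  intro h
  exact k5_notreal F _ (InfinitePlace.isReal_iff.1 h)

omit [DecidableEq Ω] [IsAlgClosure F Ω] in
/-- Chunk K5a (S/M). A finite extension B of the imaginary quadratic field F has [B:F] infinite places: all are complex (IQ.im: the restriction to F of an embedding is not real), nrComplexPlaces = [B:ℚ]/2 = [B:F]. -/
theorem card_places (B' : IntermediateField F Ω) [FiniteDimensional F B'] [NumberField B'] :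
    Nat.card (InfinitePlace B') = Module.finrank F B' := by
  have h0 : IsTotallyComplex F := k5_tc F
  have h1 : IsTotallyComplex B' := isTotallyComplex_of_algebra F B'
  have h2 := InfinitePlace.card_add_two_mul_card_eq_rank B'
  have h3 : InfinitePlace.nrRealPlaces B' = 0 := IsTotallyComplex.nrRealPlaces_eq_zero B'
  have h4 : Module.finrank ℚ F * Module.finrank F B' = Module.finrank ℚ B' := Module.finrank_mul_finrank ℚ F B'
  have h5 : Module.finrank ℚ F = 2 := IQ.deg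
  have h6 := InfinitePlace.card_eq_nrRealPlaces_add_nrComplexPlaces B'
  rw [Nat.card_eq_fintype_card, h6, h3, zero_add]
  rw [h3, zero_add, ← h4, h5] at h2
  omega


omit [IsAlgClosure F Ω] in
theorem k5_ch (hc : Cm act) {K : ℕ} {σ : Ω ≃ₐ[F] Ω} {a : 𝓞 F} (ha : Ch act p K σ a) (i : ℕ) : Ch act p K (σ ^ i) (a ^ i) := by
  induction i with
  | zero =>
    rw [pow_zero, pow_zero]
    intro T _
    rw [aM_one, one_smul]
  | succ i ih =>
    rw [pow_succ, pow_succ]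
    exact ch_mul hc ih ha

theorem k5_stab {K : ℕ} {G : Subgroup (Ω ≃ₐ[F] Ω)} {B' : IntermediateField F Ω} (hB : IsB act p K G B') {s : Ω ≃ₐ[F] Ω} (hs : s ∈ G)
    {x : Ω} (hx : x ∈ B') : s x ∈ B' := by
  have halg : IsGalois F Ω := IsAlgClosure.isGalois F Ω
  rw [← InfiniteGalois.fixedField_fixingSubgroup B', IntermediateField.mem_fixedField_iff]
  intro t ht
  have h1 : s⁻¹ * t * s ∈ B'.fixingSubgroup := by
    rw [hB] at ht ⊢
    refine ⟨mul_mem (mul_mem (inv_mem hs) ht.1) hs, ?_⟩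
    intro T hT
    have hT' : p ^ K • aM act s T = 0 := by rw [← map_nsmul, hT, map_zero]
    rw [aM_mul, aM_mul, ht.2 _ hT', one_smul, one_smul, ← aM_mul, inv_mul_cancel, aM_one]
  have h2 := (IntermediateField.mem_fixingSubgroup_iff _ _).1 h1 x hx
  have h3 : s (s⁻¹ (t (s x))) = s x := congrArg s h2
  have h4 : s (s⁻¹ (t (s x))) = t (s x) := s.apply_symm_apply _
  rw [← h4, h3]

/-- The restriction to B. -/
theorem k5_restr {K : ℕ} {G : Subgroup (Ω ≃ₐ[F] Ω)} {B' : IntermediateField F Ω} [FiniteDimensional F B'] [NumberField B'] (hB : IsB act p K G B')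
    {s : Ω ≃ₐ[F] Ω} (hs : s ∈ G) : ∃ τ : B' ≃ₐ[ℚ] B', ∀ x : B', ((τ x : B') : Ω) = s (x : Ω) := by
  let f : B' →ₐ[F] B' := ((s : Ω →ₐ[F] Ω).comp B'.val).codRestrict B'.toSubalgebra (fun x => k5_stab hB hs x.2)
  have hf : Function.Bijective f := AlgHom.bijective f
  let e : B' ≃ₐ[F] B' := AlgEquiv.ofBijective f hf
  exact ⟨e.restrictScalars ℚ, fun x => rfl⟩

/-- Chunk K5b (M). sigma restricted to B is an automorphism of order q - 1 and its powers sigma^i, 0 < i < q-1, fix no infinite place: sigma^(q-1) fixes B (IsSig.pw, IsB). w.comap sigma^i = w: phi sigma^i = phi, so sigma^i is the identity on B, a^i = 1 modulo p (it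
acts as a^i on the points killed by p), q - 1 divides i (IsSig.gen); or phi sigma^i = conj phi: on F, sigma^i is the identity, phi is real on F: impossible (IQ.im and d1_emb). -/
theorem sig_free (dta : Dta A B Om j act mo ψ p) (hin : Prime (p : 𝓞 F)) {K : ℕ} (hK : 0 < K) {G : Subgroup (Ω ≃ₐ[F] Ω)} {B' : IntermediateField F Ω}
    [FiniteDimensional F B'] [NumberField B'] (hB : IsB act p K G B') {σ : Ω ≃ₐ[F] Ω} (hσ : σ ∈ G) {a : 𝓞 F} (ha : IsSig act p K σ a) :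
    ∃ τ : B' ≃ₐ[ℚ] B', (∀ x : B', ((τ x : B') : Ω) = σ (x : Ω)) ∧ FreeA τ (p ^ 2 - 1) := by
  obtain ⟨τ, hτ⟩ := k5_restr hB hσ
  have hpow : ∀ (i : ℕ) (x : B'), (((τ ^ i : B' ≃ₐ[ℚ] B') x : B') : Ω) = (σ ^ i : Ω ≃ₐ[F] Ω) (x : Ω) := by
    intro i
    induction i with
    | zero => intro x; rfl
    | succ i ih =>
      intro x
      rw [pow_succ, pow_succ, AlgEquiv.mul_apply, AlgEquiv.mul_apply, ih, hτ]
  have hfix : ∀ (i : ℕ), σ ^ i ∈ B'.fixingSubgroup ↔ (p : 𝓞 F) ^ K ∣ a ^ i - 1 := by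
    intro i
    rw [hB]
    constructor
    · rintro ⟨_, h1⟩
      exact ch_uniq dta (k5_ch (cm dta) ha.ch i) h1
    · intro h1
      exact ⟨pow_mem hσ i, ch_congr (k5_ch (cm dta) ha.ch i) h1⟩
  refine ⟨τ, hτ, ?_, ?_⟩
  · apply AlgEquiv.ext
    intro x
    apply Subtype.ext
    rw [hpow]
    exact (IntermediateField.mem_fixingSubgroup_iff _ _).1 ((hfix _).2 ha.pw) x x.2
  · intro w i hi0 hi1 hw
    have h1 : InfinitePlace.mk (w.embedding.comp ((τ ^ i : B' ≃ₐ[ℚ] B') : B' →+* B')) = InfinitePlace.mk w.embedding := by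
      rw [← InfinitePlace.comap_mk, InfinitePlace.mk_embedding]
      exact hw
    rcases InfinitePlace.mk_eq_iff.1 h1 with h2 | h2
    · have h3 : σ ^ i ∈ B'.fixingSubgroup := by
        rw [IntermediateField.mem_fixingSubgroup_iff]
        intro x hx
        have h4 := RingHom.congr_fun h2 ⟨x, hx⟩
        have h5 : (τ ^ i : B' ≃ₐ[ℚ] B') ⟨x, hx⟩ = ⟨x, hx⟩ := w.embedding.injective h4
        rw [← hpow i ⟨x, hx⟩, h5]
      have h4 : (p : 𝓞 F) ∣ a ^ i - 1 := (dvd_pow_self _ hK.ne').trans ((hfix i).1 h3)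
      have h5 := Nat.le_of_dvd hi0 (ha.gen i h4)
      omega
    · apply k5_notreal F (w.embedding.comp (algebraMap F B'))
      rw [ComplexEmbedding.isReal_iff]
      ext x
      have h4 := RingHom.congr_fun h2 (algebraMap F B' x)
      have h5 : (τ ^ i : B' ≃ₐ[ℚ] B') (algebraMap F B' x) = algebraMap F B' x := by
        apply Subtype.ext
        rw [hpow]
        exact (σ ^ i : Ω ≃ₐ[F] Ω).commutes x
      have h6 : (starRingEnd ℂ) (w.embedding ((τ ^ i : B' ≃ₐ[ℚ] B') (algebraMap F B' x))) = w.embedding (algebraMap F B' x) := h4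
      rw [h5] at h6
      exact h6


omit [NumberField F] [IQ F] [IsAlgClosure F Ω] in
theorem k5_smul {k : ℕ} {H : (Ω ≃ₐ[F] Ω) → Prop} (a : 𝓞 F) (u : Ω) (t : Ω → PM act) : kum act p k H u (a • t) = a • kum act p k H u t := by
  funext h
  rw [Pi.smul_apply]
  unfold kum
  by_cases hh : H h
  · rw [if_pos hh, if_pos hh, Pi.smul_apply]
  · rw [if_neg hh, if_neg hh, smul_zero]

omit [NumberField F] [IQ F] [IsAlgClosure F Ω] in
theorem k5_one {k : ℕ} {t : Ω → PM act} (ht : IsT act p k t) : t 1 = 0 := by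
  have h1 := ht.mul 1 1 (one_pow _) (one_pow _)
  rw [mul_one] at h1
  exact add_eq_left.1 h1.symm

omit [NumberField F] [IQ F] [IsAlgClosure F Ω] in
theorem k5_pow {k : ℕ} {t : Ω → PM act} (ht : IsT act p k t) {z : Ω} (hz : z ^ p ^ k = 1) (i : ℕ) : t (z ^ i) = i • t z := by
  induction i with
  | zero => rw [pow_zero, zero_smul, k5_one ht]
  | succ i ih =>
    rw [pow_succ, ht.mul _ _ (by rw [← pow_mul, mul_comm, pow_mul, hz, one_pow]) hz, ih, succ_nsmul]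

theorem k5_gen (dta : Dta A B Om j act mo ψ p) (hin : Prime (p : 𝓞 F)) {T₀ : PM act} (hT : p • T₀ = 0)
    (h2 : ∀ a : 𝓞 F, a • T₀ = 0 ↔ (p : 𝓞 F) ∣ a) (T : PM act) (h : p • T = 0) : ∃ b : 𝓞 F, T = b • T₀ := by
  obtain ⟨T₁, h3, h4, h5⟩ := tor_gen dta 1
  obtain ⟨c, hc⟩ := h4 T₀ (by rw [pow_one]; exact hT)
  have h6 : ¬ (p : 𝓞 F) ∣ c := by
    intro h7
    apply hin.not_dvd_one
    rw [← h2, one_smul, hc, h5, pow_one]
    exact h7
  have h8 : IsCoprime (p : 𝓞 F) c := (hin.irreducible.coprime_iff_not_dvd).2 h6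
  obtain ⟨v, u, huv⟩ := h8
  obtain ⟨d, hd⟩ := h4 T (by rw [pow_one]; exact h)
  refine ⟨d * u, ?_⟩
  have h9 : (v * (p : 𝓞 F) + u * c) • T₁ = T₁ := by rw [huv, one_smul]
  have h10 : (p : 𝓞 F) • T₁ = 0 := by
    rw [Nat.cast_smul_eq_nsmul]
    rw [pow_one] at h3
    exact h3
  rw [add_smul, mul_smul, h10, smul_zero, zero_add, mul_smul, ← hc] at h9
  rw [mul_smul, h9, hd]

theorem k5_t (dta : Dta A B Om j act mo ψ p) (hin : Prime (p : 𝓞 F)) {ζ : Ω} (hζ : IsPrimitiveRoot ζ p) {t₀ : Ω → PM act} {T₀ : PM act} (h0 : IsT act p 1 t₀)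
    (h1 : ∀ i : ℕ, t₀ (ζ ^ i) = i • T₀) (hT : p • T₀ = 0) (h2 : ∀ a : 𝓞 F, a • T₀ = 0 ↔ (p : 𝓞 F) ∣ a) {t : Ω → PM act} (ht : IsT act p 1 t) :
    ∃ b : 𝓞 F, t = b • t₀ := by
  have hz : ζ ^ p ^ 1 = 1 := by rw [pow_one, hζ.pow_eq_one]
  have h3 : p • t ζ = 0 := by
    rw [← k5_pow ht hz p, hζ.pow_eq_one, k5_one ht]
  obtain ⟨b, hb⟩ := k5_gen dta hin hT h2 _ h3
  refine ⟨b, ?_⟩
  funext z
  rw [Pi.smul_apply]
  by_cases h4 : z ^ p ^ 1 = 1
  · have hp : NeZero p := ⟨dta.prime.ne_zero⟩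
    rw [pow_one] at h4
    obtain ⟨i, _, hi⟩ := hζ.eq_pow_of_pow_eq_one h4
    rw [← hi, k5_pow ht hz, h1, hb, smul_comm]
  · rw [ht.out z h4, h0.out z h4, smul_zero]

/-- Chunk K5 (M). XU 1 is finite with at least q^N elements, [B:F] = N (q-1). Finite: KU 1 is finite: it is the image of theta of (𝓞 F/p) (x) units (finite; every homomorphism on the p-th roots of unity is b t₀, b in 𝓞 F: t(zeta) = b T₀). The eigenspace of U4 for
tau (sig_free), n = q - 1, k = 𝓞 F/p (q elements: Ideal.absNorm), mu = the class of m := cj a (a (Nm a)^-1 m = 1 modulo p; mu^(q-1) = 1, mu <> 1 because q - 1 > 1 divides the order of a, hence of mu) is mapped injectively (theta_inj: apply to differences) to XU 1: theta z is in KU 1 and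
sigma theta z = l theta(sigma z) = l m theta z = theta z (t0_cj, kum_cj). -/
theorem xu_card (dta : Dta A B Om j act mo ψ p) (hin : Prime (p : 𝓞 F)) (hc : Cm act) {K : ℕ} (hK : 0 < K) {G : Subgroup (Ω ≃ₐ[F] Ω)} {B' : IntermediateField F Ω}
    [FiniteDimensional F B'] (hB : IsB act p K G B') {σ : Ω ≃ₐ[F] Ω} (hσ : σ ∈ G) {a : 𝓞 F} (ha : IsSig act p K σ a) {N : ℕ}
    (hN : Module.finrank F B' = N * (p ^ 2 - 1)) :
    Finite (XU act hc p 1 G B' σ) ∧ (p ^ 2) ^ N ≤ Nat.card (XU act hc p 1 G B' σ) := by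
  classical
  have hNB : NumberField B' := NumberField.of_module_finite F B'
  obtain ⟨ζ, hζ⟩ := x2_prim dta 1
  rw [pow_one] at hζ
  obtain ⟨t₀, T₀, h0, hz0, hT0, hT, h1, h2⟩ := exists_t0 dta ζ hζ
  have hfix : ∀ h, SH act G p h → h ∈ B'.fixingSubgroup := fun h hh => (hB h).2 ⟨hh.1, (fa_iff.1 hh.2) K⟩
  have hfixu : ∀ (u : (𝓞 B')ˣ) (h : Ω ≃ₐ[F] Ω), SH act G p h → h (((u : 𝓞 B') : B') : Ω) = (((u : 𝓞 B') : B') : Ω) :=
    fun u h hh => (IntermediateField.mem_fixingSubgroup_iff _ _).1 (hfix h hh) _ (SetLike.coe_mem _)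
  have hu0 : ∀ u : (𝓞 B')ˣ, (((u : 𝓞 B') : B') : Ω) ≠ 0 := by
    intro u h
    have h3 : ((u : 𝓞 B') : B') = 0 := Subtype.ext h
    have h4 : (u : 𝓞 B') = 0 := RingOfIntegers.ext h3
    exact u.ne_zero h4
  obtain ⟨θ, hθ⟩ := exists_theta dta hfix h0
  obtain ⟨τ, hτ, hfree⟩ := sig_free dta hin hK hB hσ ha
  have hθs : ∀ (r : 𝓞 F) (z : (𝓞 F ⧸ Ideal.span {(p : 𝓞 F)}) ⊗[ℤ] Additive (𝓞 B')ˣ),
      θ (Ideal.Quotient.mk (Ideal.span {(p : 𝓞 F)}) r • z) = r • θ z := by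
    intro r z
    induction z using TensorProduct.induction_on with
    | zero => rw [smul_zero, map_zero, smul_zero]
    | tmul q u =>
      obtain ⟨a, rfl⟩ := Ideal.Quotient.mk_surjective q
      rw [TensorProduct.smul_tmul', smul_eq_mul, ← map_mul]
      have h3 := hθ (r * a) u.toMul
      have h4 := hθ a u.toMul
      rw [ofMul_toMul] at h3 h4
      rw [h3, h4, mul_smul]
    | add x y hx hy => rw [smul_add, map_add, hx, hy, map_add, smul_add]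
  have hint : ∀ u : (𝓞 B')ˣ, IsIntegral ℤ (((u : 𝓞 B') : B') : Ω) := by
    intro u
    have h3 : IsIntegral ℤ ((u : 𝓞 B') : B') := RingOfIntegers.isIntegral_coe (u : 𝓞 B')
    exact h3.map (B'.val.restrictScalars ℤ)
  have hinv : ∀ u : (𝓞 B')ˣ, ((((u⁻¹ : (𝓞 B')ˣ) : 𝓞 B') : B') : Ω) = ((((u : 𝓞 B') : B') : Ω))⁻¹ := by
    intro u
    refine eq_inv_of_mul_eq_one_left ?_
    have h3 : ((u⁻¹ : (𝓞 B')ˣ) : 𝓞 B') * (u : 𝓞 B') = 1 := u.inv_mul
    have h4 := congrArg (fun x : 𝓞 B' => ((x : B') : Ω)) h3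
    exact h4
  have hIsU : ∀ u : (𝓞 B')ˣ, IsU B' (((u : 𝓞 B') : B') : Ω) := by
    intro u
    refine ⟨SetLike.coe_mem _, hu0 u, hint u, ?_⟩
    rw [← hinv]
    exact hint _
  have hθB : ∀ z, θ z ∈ KU act p 1 G B' := by
    intro z
    induction z using TensorProduct.induction_on with
    | zero => rw [map_zero]; exact zero_mem _
    | tmul q u =>
      obtain ⟨a, rfl⟩ := Ideal.Quotient.mk_surjective q
      have h3 := hθ a u.toMul
      rw [ofMul_toMul] at h3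
      rw [h3]
      exact Submodule.smul_mem _ _ (Submodule.subset_span ⟨_, t₀, hIsU _, h0, rfl⟩)
    | add x y hx hy => rw [map_add]; exact add_mem hx hy
  have hsurj : ∀ f ∈ KU act p 1 G B', ∃ z, θ z = f := by
    intro f hf
    refine Submodule.span_induction ?_ ?_ ?_ ?_ hf
    · rintro f ⟨u, t, hu, ht, rfl⟩
      obtain ⟨b, rfl⟩ := k5_t dta hin hζ h0 h1 hT h2 ht
      have hu1 : IsIntegral ℤ (⟨u, hu.mem⟩ : B') :=
        (isIntegral_algHom_iff (B'.val.restrictScalars ℤ) B'.val.injective).1 hu.int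
      have hu2 : IsIntegral ℤ ((⟨u, hu.mem⟩ : B')⁻¹) :=
        (isIntegral_algHom_iff (B'.val.restrictScalars ℤ) B'.val.injective).1 hu.inv
      have hne : (⟨u, hu.mem⟩ : B') ≠ 0 := fun h => hu.ne (congrArg Subtype.val h)
      let U : (𝓞 B')ˣ := ⟨⟨⟨u, hu.mem⟩, hu1⟩, ⟨(⟨u, hu.mem⟩ : B')⁻¹, hu2⟩, RingOfIntegers.ext (mul_inv_cancel₀ hne), RingOfIntegers.ext (inv_mul_cancel₀ hne)⟩
      refine ⟨Ideal.Quotient.mk _ b ⊗ₜ Additive.ofMul U, ?_⟩
      rw [hθ, k5_smul]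
      rfl
    · exact ⟨0, map_zero _⟩
    · rintro f g _ _ ⟨x, rfl⟩ ⟨y, rfl⟩
      exact ⟨x + y, map_add _ _ _⟩
    · rintro r f _ ⟨x, rfl⟩
      exact ⟨_, hθs r x⟩
  obtain ⟨x, y, hxy⟩ := ha.cop
  have hcx := congrArg H55K.cj hxy
  rw [map_add, map_mul, map_mul, H55K.cj_nat, map_one] at hcx
  have hl : (p : 𝓞 F) ∣ H55K.cj x * (Nm a : 𝓞 F) - a := by
    refine ⟨-(a * H55K.cj y), ?_⟩
    rw [← H55K.mul_cj]
    linear_combination a * hcx
  have hm : (p : 𝓞 F) ∣ H55K.cj a * H55K.cj x - 1 := ⟨-H55K.cj y, by linear_combination hcx⟩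
  have hch1 : Ch act p 1 σ a := ch_mono (by omega) ha.ch
  have hcj0 := t0_cj dta hin hζ h0 h1 hT h2 hch1 hl
  have hcj : ∀ z, cjL act hc σ (θ z) = θ (Ideal.Quotient.mk (Ideal.span {(p : 𝓞 F)}) (H55K.cj x) • (uA τ).baseChange _ z) := by
    intro z
    induction z using TensorProduct.induction_on with
    | zero => rw [map_zero, map_zero, map_zero, smul_zero, map_zero]
    | tmul q u =>
      obtain ⟨b, rfl⟩ := Ideal.Quotient.mk_surjective q
      have h3 := hθ b u.toMul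
      rw [ofMul_toMul] at h3
      have h5 : uA τ u = Additive.ofMul (uM τ u.toMul) := rfl
      rw [h3, map_smul, (kum_cj dta hc hσ (hu0 _) h0 (hfixu _)).1, hcj0, k5_smul, LinearMap.baseChange_tmul, hθs, h5,
        hθ b (uM τ u.toMul), smul_comm b, uM_val, hτ]
    | add x y hx hy => rw [map_add, map_add, hx, hy, map_add, smul_add, map_add]
  have hprime : (Ideal.span {(p : 𝓞 F)}).IsPrime := (Ideal.span_singleton_prime hin.ne_zero).2 hin
  have hmax : (Ideal.span {(p : 𝓞 F)}).IsMaximal := hprime.isMaximal (by rw [Ne, Ideal.span_singleton_eq_bot]; exact hin.ne_zero)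
  have hcard : Nat.card (𝓞 F ⧸ Ideal.span {(p : 𝓞 F)}) = p ^ 2 := by
    have h3 : Nm (p : 𝓞 F) = p ^ 2 := H55K.Nm_nat p
    exact h3
  have hp2 : 0 < p ^ 2 := pow_pos dta.prime.pos 2
  have hfin : Finite (𝓞 F ⧸ Ideal.span {(p : 𝓞 F)}) := Nat.finite_of_card_ne_zero (by rw [hcard]; exact hp2.ne')
  have hfinT : Finite ((𝓞 F ⧸ Ideal.span {(p : 𝓞 F)}) ⊗[ℤ] Additive (𝓞 B')ˣ) := Module.finite_of_finite (𝓞 F ⧸ Ideal.span {(p : 𝓞 F)})
  have hfinX : Finite (XU act hc p 1 G B' σ) := by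
    have h3 : Finite (Set.range θ) := Set.finite_range θ
    refine Set.Finite.subset (Set.finite_range θ) ?_
    intro f hf
    exact hsurj f hf.1
  refine ⟨hfinX, ?_⟩
  have h22 : 2 ^ 2 ≤ p ^ 2 := Nat.pow_le_pow_left dta.prime.two_le 2
  have hnk : ((p ^ 2 - 1 : ℕ) : 𝓞 F ⧸ Ideal.span {(p : 𝓞 F)}) ≠ 0 := by
    intro h
    have h3 : ((p ^ 2 - 1 : ℕ) : 𝓞 F ⧸ Ideal.span {(p : 𝓞 F)}) = Ideal.Quotient.mk _ ((p ^ 2 - 1 : ℕ) : 𝓞 F) := (map_natCast _ _).symm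
    rw [h3, Ideal.Quotient.eq_zero_iff_mem, Ideal.mem_span_singleton] at h
    apply hin.not_dvd_one
    rw [Nat.cast_sub hp2, Nat.cast_pow, Nat.cast_one] at h
    have h4 := dvd_sub (dvd_pow_self (p : 𝓞 F) two_ne_zero) h
    rwa [sub_sub_cancel] at h4
  have hdvd : ∀ b : 𝓞 F, (p : 𝓞 F) ∣ H55K.cj b → (p : 𝓞 F) ∣ b := by
    rintro b ⟨c, hc'⟩
    refine ⟨H55K.cj c, ?_⟩
    have h3 := congrArg H55K.cj hc'
    rw [H55K.cj_cj, map_mul, H55K.cj_nat] at h3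
    exact h3
  have hdvd' : ∀ b : 𝓞 F, (p : 𝓞 F) ∣ b → (p : 𝓞 F) ∣ H55K.cj b := by
    rintro b ⟨c, rfl⟩
    refine ⟨H55K.cj c, ?_⟩
    rw [map_mul, H55K.cj_nat]
  have hgen1 : ¬ (p : 𝓞 F) ∣ a - 1 := by
    intro h
    have h3 := ha.gen 1 (by rw [pow_one]; exact h)
    have h4 := Nat.le_of_dvd one_pos h3
    omega
  have hμ1 : Ideal.Quotient.mk (Ideal.span {(p : 𝓞 F)}) (H55K.cj a) ^ (p ^ 2 - 1) = 1 := by
    rw [← map_pow, ← map_one (Ideal.Quotient.mk (Ideal.span {(p : 𝓞 F)})), Ideal.Quotient.eq, Ideal.mem_span_singleton]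
    have h3 := hdvd' _ ((dvd_pow_self (p : 𝓞 F) hK.ne').trans ha.pw)
    rwa [map_sub, map_pow, map_one] at h3
  have hμ2 : Ideal.Quotient.mk (Ideal.span {(p : 𝓞 F)}) (H55K.cj a) ≠ 1 := by
    intro h
    rw [← map_one (Ideal.Quotient.mk (Ideal.span {(p : 𝓞 F)})), Ideal.Quotient.eq, Ideal.mem_span_singleton] at h
    apply hgen1
    apply hdvd
    rwa [map_sub, map_one]
  have hTb : Tb act p σ := tb_of_ch dta hin hch1 hgen1
  have hlm : Ideal.Quotient.mk (Ideal.span {(p : 𝓞 F)}) (H55K.cj x) * Ideal.Quotient.mk (Ideal.span {(p : 𝓞 F)}) (H55K.cj a) = 1 := by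
    rw [← map_mul, ← map_one (Ideal.Quotient.mk (Ideal.span {(p : 𝓞 F)})), Ideal.Quotient.eq, Ideal.mem_span_singleton, mul_comm]
    exact hm
  have hker : ∀ z : (𝓞 F ⧸ Ideal.span {(p : 𝓞 F)}) ⊗[ℤ] Additive (𝓞 B')ˣ,
      (uA τ).baseChange (𝓞 F ⧸ Ideal.span {(p : 𝓞 F)}) z = Ideal.Quotient.mk (Ideal.span {(p : 𝓞 F)}) (H55K.cj a) • z →
      θ z ∈ XU act hc p 1 G B' σ := by
    intro z hz
    refine ⟨hθB z, ?_⟩
    rw [SetLike.mem_coe, LinearMap.mem_ker, LinearMap.sub_apply, Module.End.one_apply, hcj, hz, ← mul_smul, hlm, one_smul, sub_self]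
  have hinj : ∀ z z' : (𝓞 F ⧸ Ideal.span {(p : 𝓞 F)}) ⊗[ℤ] Additive (𝓞 B')ˣ,
      (uA τ).baseChange (𝓞 F ⧸ Ideal.span {(p : 𝓞 F)}) z = Ideal.Quotient.mk (Ideal.span {(p : 𝓞 F)}) (H55K.cj a) • z →
      (uA τ).baseChange (𝓞 F ⧸ Ideal.span {(p : 𝓞 F)}) z' = Ideal.Quotient.mk (Ideal.span {(p : 𝓞 F)}) (H55K.cj a) • z' →
      θ z = θ z' → z = z' := by
    intro z z' hz hz' h3
    rw [← sub_eq_zero]
    refine theta_inj dta hin hK hB hζ h0 h1 hT h2 hσ hTb hch1 hl hm (uM τ) (fun u => ?_) θ hθ (z - z') ?_ ?_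
    · rw [uM_val, hτ]
    · rw [map_sub, smul_sub]
      exact congrArg₂ (fun a b => a - b) hz hz'
    · rw [map_sub, h3, sub_self]
  have hcc : Nat.card (InfinitePlace B') = N * (p ^ 2 - 1) := by rw [card_places, hN]
  let _ : Field (𝓞 F ⧸ Ideal.span {(p : 𝓞 F)}) := Ideal.Quotient.field _
  have hcount := u_card τ (n := p ^ 2 - 1) (N := N) (by omega) hfree hcc hnk (Ideal.Quotient.mk (Ideal.span {(p : 𝓞 F)}) (H55K.cj a)) hμ1 hμ2
  rw [hcard] at hcount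
  refine hcount.trans ?_
  refine Nat.card_le_card_of_injective (fun z => (⟨θ z.1, hker z.1 z.2⟩ : XU act hc p 1 G B' σ)) ?_
  intro z z' hzz
  exact Subtype.ext (hinj z.1 z'.1 z.2 z'.2 (congrArg Subtype.val hzz))

end H35L
end
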