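import Mathlib
import Pool.Agent.Lib.H1M.PP2.M004
import Pool.Agent.Lib.H1M.PP2.M019
import Pool.Agent.Lib.H1M.PP2.M028
import Pool.Agent.Lib.H1M.PP2.M032
import Pool.Agent.Lib.H1M.PP2.M054
import Pool.Agent.Lib.H1M.PP2.M076
import Pool.Agent.Lib.H1M.PP2.M079
import Pool.Agent.Lib.H1M.PP2.M084
import Pool.Agent.Lib.H1M.PP2.M103
import Pool.Agent.Lib.H1M.PP2.M117

/-! Merged copies (to shorten the build) of Lib.SSR.HD, Lib.SSR.H1, Lib.SSR.H6, Lib.SSR.H1B, Lib.SSR.TD, Lib.SSR.H2A, Lib.SSR.H2, Lib.SSR.H3, Lib.SSR.H4, Lib.SSR.H3B, Lib.SSR.H5. -/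

-- from Lib.SSR.HD
section

/-! # SSR, part H: the class congruence: definitions (no sorry) -/

open NumberField IsDedekindDomain

namespace SSR

/-- ω₀ is a basis of O_K/p over O_F/p (p inert in F), adapted to the ideal P which contains p: the ω₀ s with s in I form a basis of P/p. -/
structure Adp (F : Type) [Field F] [NumberField F] {K : Type} [Field K] [NumberField K] [Algebra F K] {m : ℕ} (p : ℕ) (P : Ideal (𝓞 K))
    (ω₀ : Fin (m + 1) → 𝓞 K) (I : Finset (Fin (m + 1))) : Prop where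
  span : ∀ x : 𝓞 K, ∃ (a : Fin (m + 1) → 𝓞 F) (t : 𝓞 K), x = ∑ s, algebraMap (𝓞 F) (𝓞 K) (a s) * ω₀ s + (p : 𝓞 K) * t
  ind : ∀ a : Fin (m + 1) → 𝓞 F, (p : 𝓞 K) ∣ ∑ s, algebraMap (𝓞 F) (𝓞 K) (a s) * ω₀ s → ∀ s, (p : 𝓞 F) ∣ a s
  pmem : (p : 𝓞 K) ∈ P
  mem : ∀ s ∈ I, ω₀ s ∈ P
  sub : ∀ a : Fin (m + 1) → 𝓞 F, ∑ s, algebraMap (𝓞 F) (𝓞 K) (a s) * ω₀ s ∈ P → ∀ s, s ∉ I → (p : 𝓞 F) ∣ a s

/-- The vector b for the indices in I, p b for the others. -/
def ub {F : Type} [Field F] [NumberField F] {ι : Type} [DecidableEq ι] (p : ℕ) (I : Finset ι) (b : ι → 𝓞 F) (k : ι) : 𝓞 F :=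
  if k ∈ I then b k else (p : 𝓞 F) * b k

/-- Weights in the coordinates: on the cosets x + ub b the weight is 0 or a constant times a product of additive characters. -/
structure WtP (p : ℕ) {F : Type} [Field F] [NumberField F] {C : Type} [NormedField C] {ι : Type} [Fintype ι] [DecidableEq ι] (I : Finset ι)
    (Φ : (ι → 𝓞 F) → C) : Prop where
  per : ∀ a b : ι → 𝓞 F, (∀ k, (p : 𝓞 F) ^ 2 ∣ a k - b k) → Φ a = Φ b
  step : ∀ x : ι → 𝓞 F, ∃ ψ : ι → 𝓞 F → C, (∀ k, Ach p (ψ k)) ∧ ∀ b : ι → 𝓞 F, Φ (fun k => x k + ub p I b k) = Φ x * ∏ k, ψ k (b k)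
  val : ∀ x, Φ x = 0 ∨ Φ x ^ p = 1

/-- PCh with values in a field C. -/
structure PChG {K : Type} [Field K] [NumberField K] {C : Type} [Field C] (p : ℕ) (f : Ideal (𝓞 K)) (R : Finset (HeightOneSpectrum (𝓞 K)))
    (χ : Ideal (𝓞 K) →*₀ C) : Prop where
  ne : f ≠ ⊥
  cop : IsCoprime f (Ideal.span {(p : 𝓞 K)})
  abv : ∀ v ∈ R, (p : 𝓞 K) ∈ v.asIdeal
  val : ∀ a : Ideal (𝓞 K), a ≠ ⊥ → IsCoprime a (f * ∏ v ∈ R, v.asIdeal) → χ a ^ p = 1
  zero : ∀ a : Ideal (𝓞 K), ¬ IsCoprime a (f * ∏ v ∈ R, v.asIdeal) → χ a = 0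
  per : ∀ x y : 𝓞 K, x ≠ 0 → y ≠ 0 → IsCoprime (Ideal.span {x}) (f * ∏ v ∈ R, v.asIdeal) → x - y ∈ f * ∏ v ∈ R, v.asIdeal ^ 2 →
    χ (Ideal.span {x}) = χ (Ideal.span {y})

end SSR
end

-- from Lib.SSR.H1
section

open NumberField IsDedekindDomain

namespace SSR

variable {F : Type} [Field F] [NumberField F] {K : Type} [Field K] [NumberField K] [Algebra F K] {m p : ℕ}

/-! Chunk H1 (M). PROOF. k = 𝓞 F / (p) is a field ((p) is a nonzero prime, hence maximal ideal), E = 𝓞 K / (p 𝓞 K) is a k-vector space (Module over 𝓞 F killed by p; Module.IsTorsionBySet.module or quotient algebra: Ideal.Quotient algebra 𝓞 F/p → 𝓞 K/p 𝓞 K) of dimension m + 1: its cardinality is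
Ideal.absNorm (span {p}) = p^finrank ℚ K (Ideal.absNorm_span_singleton, Algebra.norm_algebraMap / norm of a natural number; H55P.pt8_norm) = (p^2)^(m+1) (finrank ℚ K = 2 (m+1)), card k = p^2, Module.card_eq_pow_finrank. (Or: 𝓞 K is free of rank m + 1 if 𝓞 F is a PID, but only finiteness is needed.)
P' = P / (p) is a subspace of E. Take a basis of P' and extend it (Submodule.exists_isCompl and Module.finBasis of both parts; index them by Fin (m+1) through an equivalence Fin d ⊕ Fin e ≃ Fin (m+1), d + e = m + 1), I = the indices of the basis of P'. Lift: ω₀ s in P for s in I (representatives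
in P since P ⊇ (p)), arbitrary otherwise. span: coordinates of the class of x. ind: linear independence over k. sub: modulo P' the classes of ω₀ s, s ∉ I, are a basis of E/P', independent. h1_card: 𝓞 K / P ≃ E / P' has card k ^ (m + 1 - card I) elements. -/

theorem h1_bas {k E : Type} [Field k] [AddCommGroup E] [Module k E] [FiniteDimensional k E] (n : ℕ) (hn : Module.finrank k E = n)
    (W : Submodule k E) : ∃ (b : Module.Basis (Fin n) k E) (I : Finset (Fin n)), (∀ i ∈ I, b i ∈ W) ∧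
      (∀ x ∈ W, ∀ i, i ∉ I → b.repr x i = 0) ∧ I.card + Module.finrank k (E ⧸ W) = n := by
  classical
  obtain ⟨W', hW⟩ := Submodule.exists_isCompl W
  have h1 : Module.finrank k W + Module.finrank k W' = n := by
    rw [← hn]
    exact Submodule.finrank_add_eq_of_isCompl hW
  let b0 := ((Module.finBasis k W).prod (Module.finBasis k W')).map (Submodule.prodEquivOfIsCompl W W' hW)
  let e : Fin (Module.finrank k W) ⊕ Fin (Module.finrank k W') ≃ Fin n := finSumFinEquiv.trans (finCongr h1)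
  refine ⟨b0.reindex e, Finset.univ.image (fun i : Fin (Module.finrank k W) => e (Sum.inl i)), ?_, ?_, ?_⟩
  · intro i hi
    obtain ⟨j, _, rfl⟩ := Finset.mem_image.1 hi
    rw [Module.Basis.reindex_apply, Equiv.symm_apply_apply]
    have h2 : b0 (Sum.inl j) = (Module.finBasis k W j : E) := by
      simp [b0]
    rw [h2]
    exact Submodule.coe_mem _
  · intro x hx i hi
    rw [Module.Basis.repr_reindex_apply]
    rcases h3 : e.symm i with j | j
    · exfalso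
      apply hi
      rw [Finset.mem_image]
      exact ⟨j, Finset.mem_univ _, by rw [← h3, Equiv.apply_symm_apply]⟩
    · have h4 : (Submodule.prodEquivOfIsCompl W W' hW).symm x = ((⟨x, hx⟩ : W), 0) :=
        Submodule.prodEquivOfIsCompl_symm_apply_left W W' hW ⟨x, hx⟩
      have h5 : b0.repr x (Sum.inr j) = (Module.finBasis k W').repr ((Submodule.prodEquivOfIsCompl W W' hW).symm x).2 j := by
        simp [b0]
      rw [h5, h4]
      simp
  · have h6 : (Finset.univ.image (fun i : Fin (Module.finrank k W) => e (Sum.inl i))).card = Module.finrank k W := by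
      rw [Finset.card_image_of_injective _ (fun x y h => Sum.inl_injective (e.injective h)), Finset.card_univ, Fintype.card_fin]
    rw [h6, add_comm, Submodule.finrank_quotient_add_finrank, hn]

theorem h1_gen {R S : Type} [CommRing R] [CommRing S] [Algebra R S] (I0 : Ideal R) [hI : I0.IsMaximal] (J P : Ideal S)
    (hJ : ∀ a ∈ I0, algebraMap R S a ∈ J) (hJP : J ≤ P) (q n : ℕ) (hq : 1 < q) (hq' : Nat.card (R ⧸ I0) = q)
    (hn : Nat.card (S ⧸ J) = q ^ n) :
    ∃ (ω : Fin n → S) (I : Finset (Fin n)), (∀ x : S, ∃ a : Fin n → R, x - ∑ s, algebraMap R S (a s) * ω s ∈ J) ∧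
      (∀ a : Fin n → R, ∑ s, algebraMap R S (a s) * ω s ∈ J → ∀ s, a s ∈ I0) ∧ (∀ s ∈ I, ω s ∈ P) ∧
      (∀ a : Fin n → R, ∑ s, algebraMap R S (a s) * ω s ∈ P → ∀ s, s ∉ I → a s ∈ I0) ∧
      Nat.card (S ⧸ P) = q ^ (n - I.card) := by
  classical
  letI : Field (R ⧸ I0) := Ideal.Quotient.field I0
  have t1 : Module.IsTorsionBySet R (S ⧸ J) I0 := by
    intro x a
    obtain ⟨y, rfl⟩ := Ideal.Quotient.mk_surjective x
    have e : ((a : R) • Ideal.Quotient.mk J y) = Ideal.Quotient.mk J (algebraMap R S a * y) := by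
      rw [← Algebra.smul_def]; rfl
    show ((a : R) • Ideal.Quotient.mk J y) = 0
    rw [e, Ideal.Quotient.eq_zero_iff_mem]
    exact J.mul_mem_right _ (hJ _ a.2)
  have t2 : Module.IsTorsionBySet R (S ⧸ P) I0 := by
    intro x a
    obtain ⟨y, rfl⟩ := Ideal.Quotient.mk_surjective x
    have e : ((a : R) • Ideal.Quotient.mk P y) = Ideal.Quotient.mk P (algebraMap R S a * y) := by
      rw [← Algebra.smul_def]; rfl
    show ((a : R) • Ideal.Quotient.mk P y) = 0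
    rw [e, Ideal.Quotient.eq_zero_iff_mem]
    exact P.mul_mem_right _ (hJP (hJ _ a.2))
  letI m1 : Module (R ⧸ I0) (S ⧸ J) := t1.module
  letI m2 : Module (R ⧸ I0) (S ⧸ P) := t2.module
  have s1 : ∀ (a : R) (y : S), (Ideal.Quotient.mk I0 a) • (Ideal.Quotient.mk J y) =
      Ideal.Quotient.mk J (algebraMap R S a * y) := by
    intro a y
    rw [← Algebra.smul_def]; rfl
  have s2 : ∀ (a : R) (y : S), (Ideal.Quotient.mk I0 a) • (Ideal.Quotient.mk P y) =
      Ideal.Quotient.mk P (algebraMap R S a * y) := by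
    intro a y
    rw [← Algebra.smul_def]; rfl
  let g : (S ⧸ J) →ₗ[R ⧸ I0] (S ⧸ P) :=
    { toFun := Ideal.Quotient.factor hJP
      map_add' := map_add _
      map_smul' := by
        intro c x
        obtain ⟨a, rfl⟩ := Ideal.Quotient.mk_surjective c
        obtain ⟨y, rfl⟩ := Ideal.Quotient.mk_surjective x
        rw [s1, Ideal.Quotient.factor_mk, RingHom.id_apply, Ideal.Quotient.factor_mk, s2] }
  have hg : ∀ y : S, g (Ideal.Quotient.mk J y) = Ideal.Quotient.mk P y := fun y => Ideal.Quotient.factor_mk hJP y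
  have hgs : Function.Surjective g := by
    intro x
    obtain ⟨y, rfl⟩ := Ideal.Quotient.mk_surjective x
    exact ⟨Ideal.Quotient.mk J y, hg y⟩
  haveI : Finite (S ⧸ J) := Nat.finite_of_card_ne_zero (by rw [hn]; positivity)
  haveI : Finite (R ⧸ I0) := Nat.finite_of_card_ne_zero (by rw [hq']; omega)
  haveI : FiniteDimensional (R ⧸ I0) (S ⧸ J) := Module.Finite.of_finite
  have hfr : Module.finrank (R ⧸ I0) (S ⧸ J) = n := by
    have h1 := Module.natCard_eq_pow_finrank (K := R ⧸ I0) (V := S ⧸ J)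
    rw [hn, hq'] at h1
    exact (Nat.pow_right_injective hq h1).symm
  obtain ⟨b, I, hb1, hb2, hb3⟩ := h1_bas n hfr (LinearMap.ker g)
  choose ω hω using fun s => Ideal.Quotient.mk_surjective (b s)
  have key : ∀ a : Fin n → R, Ideal.Quotient.mk J (∑ s, algebraMap R S (a s) * ω s) =
      ∑ s, (Ideal.Quotient.mk I0 (a s)) • b s := by
    intro a
    rw [map_sum]
    refine Finset.sum_congr rfl fun s _ => ?_
    rw [← s1, hω]
  refine ⟨ω, I, ?_, ?_, ?_, ?_, ?_⟩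
  · intro x
    choose a ha using fun s => Ideal.Quotient.mk_surjective (b.repr (Ideal.Quotient.mk J x) s)
    refine ⟨a, ?_⟩
    rw [← Ideal.Quotient.eq_zero_iff_mem, map_sub, key, sub_eq_zero]
    simp only [ha]
    exact (b.sum_repr _).symm
  · intro a ha s
    rw [← Ideal.Quotient.eq_zero_iff_mem, key] at ha
    have h1 := (Fintype.linearIndependent_iff.1 b.linearIndependent) _ ha s
    rwa [Ideal.Quotient.eq_zero_iff_mem] at h1
  · intro s hs
    have h1 := hb1 s hs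
    rw [LinearMap.mem_ker, ← hω, hg, Ideal.Quotient.eq_zero_iff_mem] at h1
    exact h1
  · intro a ha s hs
    have h1 : Ideal.Quotient.mk J (∑ s, algebraMap R S (a s) * ω s) ∈ LinearMap.ker g := by
      rw [LinearMap.mem_ker, hg, Ideal.Quotient.eq_zero_iff_mem]
      exact ha
    have h2 := hb2 _ h1 s hs
    rw [key, b.repr_sum_self, Ideal.Quotient.eq_zero_iff_mem] at h2
    exact h2
  · have h1 : Nat.card (S ⧸ P) = Nat.card ((S ⧸ J) ⧸ LinearMap.ker g) :=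
      Nat.card_congr (LinearMap.quotKerEquivOfSurjective g hgs).toEquiv.symm
    have h2 := Module.natCard_eq_pow_finrank (K := R ⧸ I0) (V := (S ⧸ J) ⧸ LinearMap.ker g)
    rw [h1, h2, hq']
    congr 1
    omega

theorem h1_norm {K : Type} [Field K] [NumberField K] (q : ℕ) :
    Ideal.absNorm (Ideal.span {(q : 𝓞 K)}) = q ^ Module.finrank ℚ K := by
  rw [Ideal.absNorm_span_singleton]
  have h4 := Algebra.norm_algebraMap (S := 𝓞 K) (q : ℤ)
  rw [map_natCast, RingOfIntegers.rank] at h4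
  rw [h4, Int.natAbs_pow, Int.natAbs_natCast]

theorem h1_adp (hp : p.Prime) (hd : Module.finrank ℚ F = 2) (hin : Prime (p : 𝓞 F)) (hm : Module.finrank F K = m + 1) (P : Ideal (𝓞 K)) (hP : (p : 𝓞 K) ∈ P) :
    ∃ (ω₀ : Fin (m + 1) → 𝓞 K) (I : Finset (Fin (m + 1))), Adp F p P ω₀ I ∧ Ideal.absNorm P = p ^ (2 * (m + 1 - I.card)) := by
  haveI : (Ideal.span {(p : 𝓞 F)}).IsMaximal :=
    ((Ideal.span_singleton_prime hin.ne_zero).2 hin).isMaximal (by rw [Ne, Ideal.span_singleton_eq_bot]; exact hin.ne_zero)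
  have hfK : Module.finrank ℚ K = 2 * (m + 1) := by
    rw [← hd, ← hm, Module.finrank_mul_finrank]
  have hc1 : Nat.card (𝓞 F ⧸ Ideal.span {(p : 𝓞 F)}) = p ^ 2 := by
    have h1 := h1_norm (K := F) p
    rw [hd] at h1
    exact h1
  have hc2 : Nat.card (𝓞 K ⧸ Ideal.span {(p : 𝓞 K)}) = (p ^ 2) ^ (m + 1) := by
    have h1 := h1_norm (K := K) p
    rw [hfK, pow_mul] at h1
    exact h1
  obtain ⟨ω, I, h1, h2, h3, h4, h5⟩ := h1_gen (Ideal.span {(p : 𝓞 F)}) (Ideal.span {(p : 𝓞 K)}) P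
    (fun a ha => by
      rw [Ideal.mem_span_singleton] at ha ⊢
      obtain ⟨c, rfl⟩ := ha
      exact ⟨algebraMap _ _ c, by rw [map_mul, map_natCast]⟩)
    ((Ideal.span_singleton_le_iff_mem _).2 hP) (p ^ 2) (m + 1) (Nat.one_lt_pow (by norm_num) hp.one_lt) hc1 hc2
  refine ⟨ω, I, ⟨?_, ?_, hP, h3, ?_⟩, ?_⟩
  · intro x
    obtain ⟨a, ha⟩ := h1 x
    obtain ⟨t, ht⟩ := Ideal.mem_span_singleton.1 ha
    exact ⟨a, t, by rw [← ht]; ring⟩
  · intro a ha s
    exact Ideal.mem_span_singleton.1 (h2 a (Ideal.mem_span_singleton.2 ha) s)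
  · intro a ha s hs
    exact Ideal.mem_span_singleton.1 (h4 a ha s hs)
  · rw [pow_mul]
    exact h5

end SSR
end

-- from Lib.SSR.H6
section

open NumberField IsDedekindDomain

namespace SSR

variable {F : Type} [Field F] [NumberField F] {K : Type} [Field K] [NumberField K] {p : ℕ} {C : Type} [NormedField C]
  {f : Ideal (𝓞 K)} {R : Finset (HeightOneSpectrum (𝓞 K))} {χ : Ideal (𝓞 K) →*₀ ℂ}

/-! Chunk H6 (S/M). PROOF. χ a is 0 or a root of unity, hence algebraic over ℚ: SSG.S.m2_lift (SSG/S/M2): χ a = j (y a) for some y a ∈ Ω. χ' a := y a; it is multiplicative, maps 0 to 0 and 1 to 1 because j is injective (χ is multiplicative, zero, one). χ'' = i ∘ χ' (MonoidWithZeroHom.comp with i.toMonoidWithZeroHom).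
The fields of PChG: apply i to the equations χ' a ^ p = 1 etc., which follow from those of χ by injectivity of j. -/

theorem h6_chi {Ω : Type} [Field Ω] [Algebra F Ω] [IsAlgClosure F Ω] (hp : p.Prime) (j : Ω →+* ℂ) (i : Ω →+* C) (hχ : PCh p f R χ) :
    ∃ (χ' : Ideal (𝓞 K) →*₀ Ω) (χ'' : Ideal (𝓞 K) →*₀ C), (∀ a, j (χ' a) = χ a) ∧ (∀ a, i (χ' a) = χ'' a) ∧ PChG p f R χ'' := by
  haveI hΩ : CharZero Ω := charZero_of_injective_algebraMap (algebraMap F Ω).injective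
  have hj : Function.Injective j := j.injective
  have halg : ∀ a, IsAlgebraic ℚ (χ a) := by
    intro a
    by_cases h : IsCoprime a (f * ∏ v ∈ R, v.asIdeal)
    · by_cases h0 : a = ⊥
      · have h1 : χ a = 0 := by
          rw [h0]
          exact map_zero χ
        rw [h1]
        exact isAlgebraic_zero
      · have h1 := hχ.val a h0 h
        refine ⟨Polynomial.X ^ p - 1, ?_, ?_⟩
        · exact Polynomial.X_pow_sub_C_ne_zero hp.pos 1
        · rw [map_sub, map_pow, Polynomial.aeval_X, map_one, h1, sub_self]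
    · rw [hχ.zero a h]
      exact isAlgebraic_zero
  have hex : ∀ a, ∃ x : Ω, j x = χ a := fun a => SSG.S.m2_lift (F := F) j (χ a) (halg a)
  choose y hy using hex
  obtain ⟨χ', hχ'⟩ : ∃ χ' : Ideal (𝓞 K) →*₀ Ω, ∀ a, χ' a = y a := by
    refine ⟨{ toFun := y, map_zero' := ?_, map_one' := ?_, map_mul' := ?_ }, fun a => rfl⟩
    · apply hj
      rw [hy, map_zero, map_zero]
    · apply hj
      rw [hy, map_one, map_one]
    · intro a b
      apply hj
      rw [hy, map_mul, map_mul, hy, hy]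
  have hjχ : ∀ a, j (χ' a) = χ a := fun a => by rw [hχ', hy]
  refine ⟨χ', (i.toMonoidWithZeroHom).comp χ', hjχ, fun a => rfl, ?_⟩
  have hi : ∀ a, ((i.toMonoidWithZeroHom).comp χ') a = i (χ' a) := fun a => rfl
  refine ⟨hχ.ne, hχ.cop, hχ.abv, ?_, ?_, ?_⟩
  · intro a ha hc
    have h1 : χ' a ^ p = 1 := by
      apply hj
      rw [map_pow, hjχ, hχ.val a ha hc, map_one]
    rw [hi, ← map_pow, h1, map_one]
  · intro a ha
    have h1 : χ' a = 0 := by
      apply hj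
      rw [hjχ, hχ.zero a ha, map_zero]
    rw [hi, h1, map_zero]
  · intro x y' hx hy' hc hxy
    have h1 : χ' (Ideal.span {x}) = χ' (Ideal.span {y'}) := by
      apply hj
      rw [hjχ, hjχ, hχ.per x y' hx hy' hc hxy]
    rw [hi, hi, h1]

end SSR
end

-- from Lib.SSR.H1B
section

open NumberField IsDedekindDomain

namespace SSR

variable {F : Type} [Field F] [NumberField F] {K : Type} [Field K] [NumberField K] [Algebra F K] {m p : ℕ} {P : Ideal (𝓞 K)} {ω₀ : Fin (m + 1) → 𝓞 K} {I : Finset (Fin (m + 1))}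

/-! Chunk H1B (S). PROOF. two: apply span to x and to t: x = Σ (a + p a') ω₀ + p^2 t'. ind2: p^2 | Σ a ω₀ implies p | Σ a ω₀, so a s = p a' s (ind, choose), Σ a ω₀ = p Σ a' ω₀, cancel p (p ≠ 0 in 𝓞 K, domain): p | Σ a' ω₀, so p | a' s. iff: if p | a s for s ∉ I then each term is in P
(mem, pmem); conversely sub. ub_mem: terms. ub_ex: if Σ a ω₀ is in P then a = ub p I b for some b (sub; b s = a s for s in I). -/

theorem adp_two (hA : Adp F p P ω₀ I) (x : 𝓞 K) :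
    ∃ (a : Fin (m + 1) → 𝓞 F) (t : 𝓞 K), x = ∑ s, algebraMap (𝓞 F) (𝓞 K) (a s) * ω₀ s + (p : 𝓞 K) ^ 2 * t := by
  obtain ⟨a, t, h1⟩ := hA.span x
  obtain ⟨a', t', h2⟩ := hA.span t
  refine ⟨fun s => a s + (p : 𝓞 F) * a' s, t', ?_⟩
  have e : ∑ s, algebraMap (𝓞 F) (𝓞 K) (a s + (p : 𝓞 F) * a' s) * ω₀ s =
      ∑ s, algebraMap (𝓞 F) (𝓞 K) (a s) * ω₀ s + (p : 𝓞 K) * ∑ s, algebraMap (𝓞 F) (𝓞 K) (a' s) * ω₀ s := by
    rw [Finset.mul_sum, ← Finset.sum_add_distrib]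
    refine Finset.sum_congr rfl fun s _ => ?_
    rw [map_add, map_mul, map_natCast]
    ring
  rw [e, h1, h2]
  ring

theorem adp_ind2 (hp : p.Prime) (hA : Adp F p P ω₀ I) (a : Fin (m + 1) → 𝓞 F) (h : (p : 𝓞 K) ^ 2 ∣ ∑ s, algebraMap (𝓞 F) (𝓞 K) (a s) * ω₀ s) :
    ∀ s, (p : 𝓞 F) ^ 2 ∣ a s := by
  have hp0 : (p : 𝓞 K) ≠ 0 := Nat.cast_ne_zero.2 hp.ne_zero
  have h1 := hA.ind a ((dvd_pow_self _ two_ne_zero).trans h)
  choose a' ha' using h1
  have e : ∑ s, algebraMap (𝓞 F) (𝓞 K) (a s) * ω₀ s =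
      (p : 𝓞 K) * ∑ s, algebraMap (𝓞 F) (𝓞 K) (a' s) * ω₀ s := by
    rw [Finset.mul_sum]
    refine Finset.sum_congr rfl fun s _ => ?_
    rw [ha' s, map_mul, map_natCast]
    ring
  rw [e, pow_two, mul_dvd_mul_iff_left hp0] at h
  intro s
  rw [ha' s, pow_two]
  exact mul_dvd_mul_left _ (hA.ind a' h s)

theorem adp_iff (hA : Adp F p P ω₀ I) (a : Fin (m + 1) → 𝓞 F) :
    ∑ s, algebraMap (𝓞 F) (𝓞 K) (a s) * ω₀ s ∈ P ↔ ∀ s, s ∉ I → (p : 𝓞 F) ∣ a s := by
  refine ⟨hA.sub a, fun h => Ideal.sum_mem _ fun s _ => ?_⟩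
  by_cases hs : s ∈ I
  · exact Ideal.mul_mem_left _ _ (hA.mem s hs)
  · obtain ⟨c, hc⟩ := h s hs
    rw [hc, map_mul, map_natCast, mul_assoc]
    exact Ideal.mul_mem_right _ _ hA.pmem

theorem adp_ub (hA : Adp F p P ω₀ I) (b : Fin (m + 1) → 𝓞 F) : ∑ s, algebraMap (𝓞 F) (𝓞 K) (ub p I b s) * ω₀ s ∈ P := by
  refine (adp_iff hA _).2 fun s hs => ?_
  unfold ub
  rw [if_neg hs]
  exact dvd_mul_right _ _


end SSR
end

-- from Lib.SSR.TD
section

/-! # SSR, part T: definitions (no sorry): the normalised size of an L-value, the supersingular context -/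

open NumberField IsDedekindDomain WeierstrassCurve

namespace SSR

open H55N H55P
open H35P (WAB Ker tt)
open H55K (CMA Dta)

/-- The L-series of h converges for Re s > 3/2, continues to Re s > 1/2, and its value at 1 divided by the power of the period has the fourth
power of its size at V equal to the inverse of the size of c. -/
def LVC (F : Type) [Field F] [NumberField F] {K : Type} [Field K] [NumberField K] [Algebra F K]
    (V : ValuationSubring ℂ) (Om c : ℂ) (h : Ideal (𝓞 K) →*₀ ℂ) : Prop :=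
  ∃ Λ : ℂ → ℂ, AnalyticOnNhd ℂ Λ {s | 1 / 2 < s.re} ∧
    (∀ s : ℂ, 3 / 2 < s.re → HasSum (tm h s) (Λ s)) ∧
    V.valuation (Λ 1 / Om ^ Module.finrank F K) ^ 4 * V.valuation c = 1

/-- The same with ≤. -/
def LVCI (F : Type) [Field F] [NumberField F] {K : Type} [Field K] [NumberField K] [Algebra F K]
    (V : ValuationSubring ℂ) (Om c : ℂ) (h : Ideal (𝓞 K) →*₀ ℂ) : Prop :=
  ∃ Λ : ℂ → ℂ, AnalyticOnNhd ℂ Λ {s | 1 / 2 < s.re} ∧
    (∀ s : ℂ, 3 / 2 < s.re → HasSum (tm h s) (Λ s)) ∧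
    V.valuation (Λ 1 / Om ^ Module.finrank F K) ^ 4 * V.valuation c ≤ 1

/-- The discriminant, times the square of the norm of the product of the primes in R. -/
noncomputable def cR {K : Type} [Field K] [NumberField K] (R : Finset (HeightOneSpectrum (𝓞 K))) : ℂ :=
  ((NumberField.discr K : ℤ) : ℂ) * ((∏ v ∈ R, Ideal.absNorm v.asIdeal : ℕ) : ℂ) ^ 2

/-- The context: p ≥ 5 inert in F, a Hecke character ψ with ψ((p)) = -p and modulus M prime to p, and a curve with complex multiplication and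
period Om over F, with good supersingular reduction at p. -/
structure SCtx {F : Type} [Field F] [NumberField F] [IQ F] (p : ℕ) [Fact p.Prime] (M : Ideal (𝓞 F)) (ψ : Ideal (𝓞 F) →*₀ 𝓞 F)
    (Om : ℂ) : Prop where
  five : 5 ≤ p
  hecke : IsHecke M ψ
  cop : IsCoprime M (Ideal.span {(p : 𝓞 F)})
  val : ψ (Ideal.span {(p : 𝓞 F)}) = -(p : 𝓞 F)
  inert : (Ideal.span {(p : 𝓞 F)}).IsPrime
  curve : ∃ (A B : F) (Ω : Type) (_ : Field Ω) (_ : DecidableEq Ω) (_ : Algebra F Ω) (_ : IsAlgClosure F Ω) (j : Ω →+* ℂ)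
    (act : 𝓞 F →+* AddMonoid.End (Pt (WAB A B) Ω)), Dta A B Om j act M ψ p ∧ H16S.Sup act p

end SSR
end

-- from Lib.SSR.H2A
section

open NumberField IsDedekindDomain

namespace SSR

open SSG (Rep)

variable {F : Type} [Field F] [NumberField F] {p : ℕ} {ι : Type} [Fintype ι] [DecidableEq ι]

/-! Chunk H2A (M). PROOF. One coordinate: for k in I: x k = 0 and b in T2: nothing to do. For k not in I: (x, b) ↦ the element of T2 congruent to x + p b modulo p^2 is a bijection from T1 × T1 onto T2 (x = representative of a modulo p, then b = representative of (a - x)/p modulo p; injective: x + p b = x' + p b'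
modulo p^2 implies x = x' modulo p, so x = x', p (b - b') divisible by p^2, p ≠ 0). All coordinates: the map (x, b) ↦ a, a k = the element of T2 congruent to x k + ub b k, from piFinset A × piFinset B to piFinset T2 is a bijection (Finset.sum_product', Finset.sum_bij' or sum_nbij'), and G has the
same value at a and x + ub b by periodicity. -/

theorem h2_split {M : Type} [AddCommMonoid M] (hp : p.Prime) {T1 T2 : Finset (𝓞 F)} (h1 : Rep p 1 T1) (h2 : Rep p 2 T2) (I : Finset ι)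
    (G : (ι → 𝓞 F) → M) (hG : ∀ a b : ι → 𝓞 F, (∀ k, (p : 𝓞 F) ^ 2 ∣ a k - b k) → G a = G b) :
    ∑ a ∈ Fintype.piFinset (fun _ : ι => T2), G a =
      ∑ x ∈ Fintype.piFinset (fun k : ι => if k ∈ I then ({0} : Finset (𝓞 F)) else T1),
        ∑ b ∈ Fintype.piFinset (fun k : ι => if k ∈ I then T2 else T1), G (fun k => x k + ub p I b k) := by
  classical
  have hp0 : (p : 𝓞 F) ≠ 0 := by exact_mod_cast hp.ne_zero
  have h1' := h1
  have h2' := h2
  choose r1 hr1 _ using h1'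
  choose r2 hr2 _ using h2'
  have hu1 : ∀ a b : 𝓞 F, a ∈ T1 → b ∈ T1 → (p : 𝓞 F) ∣ a - b → a = b := by
    intro a b ha hb h
    refine (h1 a).unique ⟨ha, ?_⟩ ⟨hb, ?_⟩
    · rw [sub_self]; exact dvd_zero _
    · rw [pow_one]; exact h
  have hu2 : ∀ a b : 𝓞 F, a ∈ T2 → b ∈ T2 → (p : 𝓞 F) ^ 2 ∣ a - b → a = b := by
    intro a b ha hb h
    refine (h2 a).unique ⟨ha, ?_⟩ ⟨hb, h⟩
    rw [sub_self]; exact dvd_zero _
  have hA : ∀ x : ι → 𝓞 F, x ∈ Fintype.piFinset (fun k : ι => if k ∈ I then ({0} : Finset (𝓞 F)) else T1) ↔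
      ∀ k, (k ∈ I → x k = 0) ∧ (k ∉ I → x k ∈ T1) := by
    intro x
    rw [Fintype.mem_piFinset]
    refine forall_congr' fun k => ?_
    by_cases hk : k ∈ I
    · rw [if_pos hk, Finset.mem_singleton]
      exact ⟨fun h => ⟨fun _ => h, fun h' => absurd hk h'⟩, fun h => h.1 hk⟩
    · rw [if_neg hk]
      exact ⟨fun h => ⟨fun h' => absurd h' hk, fun _ => h⟩, fun h => h.2 hk⟩
  have hB : ∀ b : ι → 𝓞 F, b ∈ Fintype.piFinset (fun k : ι => if k ∈ I then T2 else T1) ↔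
      ∀ k, (k ∈ I → b k ∈ T2) ∧ (k ∉ I → b k ∈ T1) := by
    intro b
    rw [Fintype.mem_piFinset]
    refine forall_congr' fun k => ?_
    by_cases hk : k ∈ I
    · rw [if_pos hk]
      exact ⟨fun h => ⟨fun _ => h, fun h' => absurd hk h'⟩, fun h => h.1 hk⟩
    · rw [if_neg hk]
      exact ⟨fun h => ⟨fun h' => absurd h' hk, fun _ => h⟩, fun h => h.2 hk⟩
  refine Eq.trans ?_ (Finset.sum_product' _ _ (fun (x b : ι → 𝓞 F) => G (fun k => x k + ub p I b k)))
  symm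
  refine Finset.sum_bij (fun q _ => fun k => r2 (q.1 k + ub p I q.2 k)) ?_ ?_ ?_ ?_
  · intro q _
    exact Fintype.mem_piFinset.2 fun k => (hr2 _).1
  · rintro ⟨x, b⟩ hq ⟨x', b'⟩ hq' h
    obtain ⟨hx, hb⟩ := Finset.mem_product.1 hq
    obtain ⟨hx', hb'⟩ := Finset.mem_product.1 hq'
    have hx := (hA x).1 hx
    have hb := (hB b).1 hb
    have hx' := (hA x').1 hx'
    have hb' := (hB b').1 hb'
    have key : ∀ k, x k = x' k ∧ b k = b' k := by
      intro k
      have e1 : r2 (x k + ub p I b k) = r2 (x' k + ub p I b' k) := congrFun h k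
      have e2 : (p : 𝓞 F) ^ 2 ∣ (x k + ub p I b k) - (x' k + ub p I b' k) := by
        have e3 := dvd_sub (hr2 (x k + ub p I b k)).2 (hr2 (x' k + ub p I b' k)).2
        rw [e1] at e3
        have e4 : x k + ub p I b k - r2 (x' k + ub p I b' k) - (x' k + ub p I b' k - r2 (x' k + ub p I b' k)) =
          (x k + ub p I b k) - (x' k + ub p I b' k) := by ring
        rwa [e4] at e3
      unfold ub at e2
      by_cases hk : k ∈ I
      · rw [if_pos hk, if_pos hk, (hx k).1 hk, (hx' k).1 hk, zero_add, zero_add] at e2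
        exact ⟨((hx k).1 hk).trans ((hx' k).1 hk).symm, hu2 _ _ ((hb k).1 hk) ((hb' k).1 hk) e2⟩
      · rw [if_neg hk, if_neg hk] at e2
        obtain ⟨t, ht⟩ := e2
        have e5 : x k = x' k := by
          refine hu1 _ _ ((hx k).2 hk) ((hx' k).2 hk) ⟨(p : 𝓞 F) * t - (b k - b' k), ?_⟩
          have e6 : x k - x' k = (x k + (p : 𝓞 F) * b k - (x' k + (p : 𝓞 F) * b' k)) - (p : 𝓞 F) * (b k - b' k) := by ring
          rw [e6, ht]
          ring
        refine ⟨e5, hu1 _ _ ((hb k).2 hk) ((hb' k).2 hk) ⟨t, ?_⟩⟩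
        have e7 : (p : 𝓞 F) * (b k - b' k) = (p : 𝓞 F) * ((p : 𝓞 F) * t) := by
          have e8 : (p : 𝓞 F) * (b k - b' k) = x k + (p : 𝓞 F) * b k - (x' k + (p : 𝓞 F) * b' k) := by
            rw [e5]
            ring
          rw [e8, ht]
          ring
        exact mul_left_cancel₀ hp0 e7
    exact Prod.ext (funext fun k => (key k).1) (funext fun k => (key k).2)
  · intro a ha
    have ha := Fintype.mem_piFinset.1 ha
    have hc : ∀ k, ∃ c : 𝓞 F, a k - r1 (a k) = (p : 𝓞 F) * c := by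
      intro k
      have h := (hr1 (a k)).2
      rw [pow_one] at h
      exact h
    choose c hc using hc
    refine ⟨(fun k => if k ∈ I then 0 else r1 (a k), fun k => if k ∈ I then a k else r1 (c k)), ?_, ?_⟩
    · refine Finset.mem_product.2 ⟨(hA _).2 fun k => ⟨fun hk => if_pos hk, fun hk => ?_⟩,
        (hB _).2 fun k => ⟨fun hk => ?_, fun hk => ?_⟩⟩
      · change (if k ∈ I then 0 else r1 (a k)) ∈ T1
        rw [if_neg hk]
        exact (hr1 _).1
      · change (if k ∈ I then a k else r1 (c k)) ∈ T2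
        rw [if_pos hk]
        exact ha k
      · change (if k ∈ I then a k else r1 (c k)) ∈ T1
        rw [if_neg hk]
        exact (hr1 _).1
    · funext k
      change r2 ((if k ∈ I then 0 else r1 (a k)) + ub p I (fun k => if k ∈ I then a k else r1 (c k)) k) = a k
      unfold ub
      by_cases hk : k ∈ I
      · simp only [if_pos hk]
        rw [zero_add]
        refine hu2 _ _ (hr2 _).1 (ha k) ?_
        have h := (hr2 (a k)).2
        rw [← dvd_neg, neg_sub] at h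
        exact h
      · simp only [if_neg hk]
        refine hu2 _ _ (hr2 _).1 (ha k) ?_
        have h := (hr2 (r1 (a k) + (p : 𝓞 F) * r1 (c k))).2
        have h3 := (hr1 (c k)).2
        rw [pow_one] at h3
        obtain ⟨t, ht⟩ := h3
        obtain ⟨t', ht'⟩ := h
        refine ⟨-t - t', ?_⟩
        have e1 : r2 (r1 (a k) + (p : 𝓞 F) * r1 (c k)) - a k =
            -(a k - r1 (a k)) + (p : 𝓞 F) * r1 (c k) - (r1 (a k) + (p : 𝓞 F) * r1 (c k) - r2 (r1 (a k) + (p : 𝓞 F) * r1 (c k))) := by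
          ring
        have e2 : r1 (c k) = c k - (p : 𝓞 F) * t := by rw [← ht]; ring
        rw [e1, ht', hc k]
        rw [e2]
        ring
  · rintro ⟨x, b⟩ _
    exact hG _ _ fun k => (hr2 _).2

end SSR
end

-- from Lib.SSR.H2
section

open NumberField IsDedekindDomain

namespace SSR

open SSG

variable {F : Type} [Field F] [NumberField F] {C : Type} [NormedField C] [IsUltrametricDist C] {L : LTF F C} {p : ℕ} {ι : Type} [Fintype ι]
  [DecidableEq ι]

/-! Chunk H2 (M). PROOF. H is periodic modulo p^2 (L.Fn and ok.inj: SSG Fn_per or a4_per in SSG/E/A4: ‖H a - H b‖ ≤ ε for all ε). h2_split for G = Φ H. For each x: the inner sum is Φ x * Σ_b (prod ψ) H(x + ub b) (step), and by g8_main (unfold ub) it differs from Φ x * S, S = Σ_b H (ub b), by norm < ‖p‖^r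
(‖Φ x‖ ≤ 1). So the total differs from (Σ_x Φ x) S by < ‖p‖^r (finite ultrametric sum, 0 < ‖p‖^r). Each Φ x is 0 or has Φ x^p = 1, then ‖Φ x - 1‖ < 1 (g4_root in G4A: ‖ζ - 1‖^(p-1) ≤ ‖p‖ < 1). So Σ_x Φ x = n + (norm < 1) with n the number of x with Φ x ≠ 0, and ‖S‖ ≤ ‖p‖^r. -/

omit [DecidableEq ι] in
theorem h2_per (hG : GH p L) {H : (ι → 𝓞 F) → C} (hH : L.Fn 2 ι H) (a b : ι → 𝓞 F) (h : ∀ k, (p : 𝓞 F) ^ 2 ∣ a k - b k) :
    H a = H b := by
  have hX : (fun k => L.X 2 (a k)) = fun k => L.X 2 (b k) := funext fun k => (hG.ok.inj 2 _ _).2 (h k)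
  rw [← sub_eq_zero, ← norm_eq_zero]
  refine le_antisymm (le_of_forall_pos_le_add fun ε hε => ?_) (norm_nonneg _)
  obtain ⟨Q, _, hQ⟩ := hH ε hε
  have h1 := hQ a
  have h2 := hQ b
  rw [hX] at h1
  have e : H a - H b = (H a - MvPolynomial.eval (fun k => L.X 2 (b k)) Q) - (H b - MvPolynomial.eval (fun k => L.X 2 (b k)) Q) := by ring
  rw [zero_add, e, sub_eq_add_neg]
  refine (IsUltrametricDist.norm_add_le_max _ _).trans (max_le h1 ?_)
  rw [norm_neg]
  exact h2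

theorem h2_lt {x y : C} {r : ℝ} (hx : ‖x‖ < r) (hy : ‖y‖ < r) : ‖x + y‖ < r :=
  lt_of_le_of_lt (IsUltrametricDist.norm_add_le_max _ _) (max_lt hx hy)

theorem h2_sum {A : Type} (s : Finset A) (f : A → C) {r : ℝ} (hr : 0 < r) (h : ∀ a ∈ s, ‖f a‖ < r) : ‖∑ a ∈ s, f a‖ < r := by
  classical
  induction s using Finset.induction_on with
  | empty => rw [Finset.sum_empty, norm_zero]; exact hr
  | insert a s ha ih =>
    rw [Finset.sum_insert ha]
    exact h2_lt (h a (Finset.mem_insert_self a s)) (ih fun b hb => h b (Finset.mem_insert_of_mem hb))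

open Classical in
theorem h2_main (hG : GH p L) {T1 T2 : Finset (𝓞 F)} (h1 : Rep p 1 T1) (h2 : Rep p 2 T2) {I : Finset ι} {Φ : (ι → 𝓞 F) → C} (hΦ : WtP p I Φ)
    {H : (ι → 𝓞 F) → C} (hH : L.Fn 2 ι H) :
    ‖∑ a ∈ Fintype.piFinset (fun _ : ι => T2), Φ a * H a -
      ((((Fintype.piFinset (fun k : ι => if k ∈ I then ({0} : Finset (𝓞 F)) else T1)).filter fun x => Φ x ≠ 0).card : ℕ) : C) *
        ∑ b ∈ Fintype.piFinset (fun k : ι => if k ∈ I then T2 else T1), H (ub p I b)‖ < ‖(p : C)‖ ^ (I.card + Fintype.card ι) := by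
  have hp0 : 0 < ‖(p : C)‖ := norm_pos_iff.2 (g1_p0 hG)
  set R : ℝ := ‖(p : C)‖ ^ (I.card + Fintype.card ι) with hR
  have hR0 : 0 < R := by positivity
  set A := Fintype.piFinset (fun k : ι => if k ∈ I then ({0} : Finset (𝓞 F)) else T1) with hA
  set S : C := ∑ b ∈ Fintype.piFinset (fun k : ι => if k ∈ I then T2 else T1), H (ub p I b) with hS
  have hSle : ‖S‖ ≤ R := (g8_main hG hH h1 h2 I (fun _ _ => 1) (fun _ => ⟨fun _ _ => (one_mul 1).symm, fun _ => rfl⟩) (fun _ => 0)).2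
  have hΦ1 : ∀ x, ‖Φ x‖ ≤ 1 := by
    intro x
    rcases hΦ.val x with h | h
    · rw [h, norm_zero]; exact zero_le_one
    · have h3 : ‖Φ x‖ ^ p = 1 := by rw [← norm_pow, h, norm_one]
      exact ((pow_eq_one_iff_of_nonneg (norm_nonneg _) hG.prime.ne_zero).1 h3).le
  have hΦ2 : ∀ x, Φ x ≠ 0 → ‖Φ x - 1‖ < 1 := by
    intro x hx
    have h := (hΦ.val x).resolve_left hx
    have h3 := lt_of_le_of_lt (g4_root hG.prime hG.lt h) hG.lt
    by_contra h4
    rw [not_lt] at h4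
    exact absurd (one_le_pow₀ h4) (not_le.2 h3)
  rw [h2_split hG.prime h1 h2 I (fun a => Φ a * H a) (fun a b h => by rw [hΦ.per a b h, h2_per hG hH a b h])]
  -- the inner sums
  have hin : ∀ x ∈ A, ‖(∑ b ∈ Fintype.piFinset (fun k : ι => if k ∈ I then T2 else T1),
      Φ (fun k => x k + ub p I b k) * H (fun k => x k + ub p I b k)) - Φ x * S‖ < R := by
    intro x _
    obtain ⟨ψ, hψ, hst⟩ := hΦ.step x
    have h3 := (g8_main hG hH h1 h2 I ψ hψ x).1
    have e1 : (∑ b ∈ Fintype.piFinset (fun k : ι => if k ∈ I then T2 else T1),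
        Φ (fun k => x k + ub p I b k) * H (fun k => x k + ub p I b k)) =
        Φ x * ∑ b ∈ Fintype.piFinset (fun k : ι => if k ∈ I then T2 else T1),
          (∏ k, ψ k (b k)) * H (fun k => x k + ub p I b k) := by
      rw [Finset.mul_sum]
      refine Finset.sum_congr rfl fun b _ => ?_
      rw [hst b, mul_assoc]
    rw [e1, ← mul_sub, norm_mul]
    refine lt_of_le_of_lt (mul_le_of_le_one_left (norm_nonneg _) (hΦ1 x)) ?_
    exact h3
  have h4 := h2_sum A _ hR0 hin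
  rw [Finset.sum_sub_distrib, ← Finset.sum_mul] at h4
  have h5 : ‖∑ x ∈ A, Φ x - (((A.filter fun x => Φ x ≠ 0).card : ℕ) : C)‖ < 1 := by
    have e2 : ∑ x ∈ A, Φ x - (((A.filter fun x => Φ x ≠ 0).card : ℕ) : C) =
        ∑ x ∈ A.filter (fun x => Φ x ≠ 0), (Φ x - 1) := by
      rw [Finset.sum_sub_distrib, Finset.sum_const, nsmul_eq_mul, mul_one, Finset.sum_filter_ne_zero]
    rw [e2]
    exact h2_sum _ _ one_pos fun x hx => hΦ2 x (Finset.mem_filter.1 hx).2
  have h6 : ‖(∑ x ∈ A, Φ x - (((A.filter fun x => Φ x ≠ 0).card : ℕ) : C)) * S‖ < R := by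
    rw [norm_mul]
    rcases eq_or_lt_of_le (norm_nonneg S) with h7 | h7
    · rw [← h7, mul_zero]; exact hR0
    · exact lt_of_lt_of_le (mul_lt_of_lt_one_left h7 h5) hSle
  have h8 := h2_lt h4 h6
  have e3 : (∑ x ∈ A, ∑ b ∈ Fintype.piFinset (fun k : ι => if k ∈ I then T2 else T1),
      Φ (fun k => x k + ub p I b k) * H (fun k => x k + ub p I b k)) - (∑ x ∈ A, Φ x) * S +
      (∑ x ∈ A, Φ x - (((A.filter fun x => Φ x ≠ 0).card : ℕ) : C)) * S =
      (∑ x ∈ A, ∑ b ∈ Fintype.piFinset (fun k : ι => if k ∈ I then T2 else T1),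
      Φ (fun k => x k + ub p I b k) * H (fun k => x k + ub p I b k)) - (((A.filter fun x => Φ x ≠ 0).card : ℕ) : C) * S := by
    ring
  rw [e3] at h8
  exact h8

theorem h2_int (hG : GH p L) {T1 T2 : Finset (𝓞 F)} (h1 : Rep p 1 T1) (h2 : Rep p 2 T2) (I : Finset ι) {H : (ι → 𝓞 F) → C} (hH : L.Fn 2 ι H) :
    ‖∑ b ∈ Fintype.piFinset (fun k : ι => if k ∈ I then T2 else T1), H (ub p I b)‖ ≤ ‖(p : C)‖ ^ (I.card + Fintype.card ι) := by
  exact (g8_main hG hH h1 h2 I (fun _ _ => 1) (fun _ => ⟨fun _ _ => (one_mul 1).symm, fun _ => rfl⟩) (fun _ => 0)).2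

end SSR
end

-- from Lib.SSR.H3
section

open NumberField IsDedekindDomain

namespace SSR

open H55N (XS)

variable {F : Type} [Field F] [NumberField F] {K : Type} [Field K] [NumberField K] [Algebra F K] {m p : ℕ} {C : Type} [NormedField C]
  {f : Ideal (𝓞 K)} {R : Finset (HeightOneSpectrum (𝓞 K))} {χ : Ideal (𝓞 K) →*₀ C} {ω₀ : Fin (m + 1) → 𝓞 K} {I : Finset (Fin (m + 1))}
  {I₀ : Ideal (𝓞 K)} {c₀ : 𝓞 K}

/-! Chunk H3 (M). PROOF. P = prod over R of v (contains p: hA.pmem; if R is empty P = 1). h3_lift: I₀ + (p^2) = 1 (coprime to a power): for x choose x' ∈ XS I₀ c₀ (x' - c₀ ∈ I₀) with x' - x ∈ (p^2) (Chinese remainder: 1 = i + p^2 t, x' = x i' ... e.g. x' = c₀ + (x - c₀) p2-complement).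
Put X a := Σ a ω₀ and Φ a := χ (span {x'}) for x = X a. Let g = f * prod v^2.
(0) p^2 ∈ prod v^2 (p in every v; prod v^2 = P^2, hA.pmem: p ∈ P gives p^2 ∈ P^2). If y, z ∈ XS I₀ c₀ and y - z ∈ P^2 then y - z ∈ I₀ ⊓ P^2 ≤ f ⊓ P^2 = f P^2 = g (f is coprime to (p), P contains p: f, P^2 coprime).
(1) for y, z ∈ XS I₀ c₀ with y - z ∈ P^2: χ (y) = χ (z): both coprime to f (hcop). If (y) is coprime to f P: per (y ≠ 0, z ≠ 0: 0 is not coprime to f P unless f P = 1; if f P = 1: then g = 1; treat: if y = 0 then span {0} coprime to f P means f P = ⊤, R empty, f = ⊤; the hypothesis hne: 0 ∉ XS I₀ c₀ excludes it).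
Otherwise (z) is not coprime to f P either (y - z ∈ P, (z) coprime to f) and both values are 0 (zero).
per: if a = b modulo p^2 then X a - X b ∈ (p^2) and the lifts differ by an element of (p^2) ≤ P^2: (1). The second conclusion: x ∈ XS, p^2 | x - X a: x and the lift of X a differ by a multiple of p^2: (1).
val: zero or val. Third conclusion: Φ a ≠ 0 iff the lift x' is coprime to f P iff x' is in no v ∈ R (coprime to f known; a prime power/product: IsCoprime with a product of maximal ideals) iff X a ∉ v for all v ∈ R (x' - X a ∈ (p^2) ⊆ v).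
step: given a. If Φ a = 0: some v ∈ R contains X a, then X (a + ub b) = X a + (element of P) ∈ v (adp_ub): Φ = 0, ψ = 1. If Φ a ≠ 0: for y ∈ P let y' be a lift: y' ∈ I₀, y' - y ∈ (p^2) (so y' ∈ P ⊓ I₀), x' + y' is a lift of X a + y. Put θ y := χ (x' + y') / χ (x') (well defined by (1)).
θ (y + z) = θ y θ z for y, z ∈ P: (x' + y')(x' + z') = x' (x' + y' + z') + y' z', y' z' ∈ P^2 I₀ ≤ g, all four numbers are coprime to f P, χ multiplicative on principal ideals and per: χ (x' + y') χ (x' + z') = χ (x') χ (x' + y' + z').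
θ y = 1 for y ∈ P^2 (1). Now ψ k (b) := θ (algebraMap (ub-entry of b at k) * ω₀ k), i.e. θ (b ω₀ k) for k ∈ I (ω₀ k ∈ P), θ (p b ω₀ k) for k ∉ I. Ach: add from θ; per: ψ k (p b) = θ (element of p P ≤ P^2) = 1. Φ (a + ub b) = Φ a θ (Σ_k ..) = Φ a prod_k ψ k (b k) (finite induction). -/

theorem h3_lift (hI : IsCoprime I₀ (Ideal.span {(p : 𝓞 K)})) (c₀ x : 𝓞 K) : ∃ x' ∈ XS I₀ c₀, (p : 𝓞 K) ^ 2 ∣ x' - x := by
  have h1 : IsCoprime I₀ (Ideal.span {(p : 𝓞 K)} ^ 2) := hI.pow_right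
  rw [Ideal.span_singleton_pow] at h1
  obtain ⟨i, hi, j, hj, hij⟩ := Ideal.isCoprime_iff_exists.1 h1
  rw [Ideal.mem_span_singleton] at hj
  refine ⟨c₀ * j + x * i, ?_, ?_⟩
  · show c₀ * j + x * i - c₀ ∈ I₀
    have h2 : c₀ * j + x * i - c₀ = (x - c₀) * i := by
      have h3 : j = 1 - i := by rw [← hij]; ring
      rw [h3]; ring
    rw [h2]
    exact Ideal.mul_mem_left _ _ hi
  · have h2 : c₀ * j + x * i - x = (c₀ - x) * j := by
      have h3 : i = 1 - j := by rw [← hij]; ring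
      rw [h3]; ring
    rw [h2]
    exact dvd_mul_of_dvd_right hj _

theorem h3_a_v (v : HeightOneSpectrum (𝓞 K)) (y : 𝓞 K) :
    IsCoprime (Ideal.span {y}) v.asIdeal ↔ y ∉ v.asIdeal := by
  rw [Ideal.isCoprime_iff_sup_eq]
  constructor
  · intro h hy
    rw [sup_eq_right.2 ((Ideal.span_singleton_le_iff_mem _).2 hy)] at h
    exact v.isPrime.ne_top h
  · intro h
    refine v.isMaximal.1.2 _ (lt_of_le_of_ne le_sup_right ?_)
    intro h2
    apply h
    rw [h2]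
    exact Ideal.mem_sup_left (Ideal.mem_span_singleton_self y)

theorem h3_a_cop (hcop : ∀ x ∈ XS I₀ c₀, IsCoprime (Ideal.span {x}) f) {y : 𝓞 K} (hy : y ∈ XS I₀ c₀) :
    IsCoprime (Ideal.span {y}) (f * ∏ v ∈ R, v.asIdeal) ↔ ∀ v ∈ R, y ∉ v.asIdeal := by
  constructor
  · intro h v hv
    have h1 := IsCoprime.of_mul_right_right h
    rw [IsCoprime.prod_right_iff] at h1
    exact (h3_a_v v y).1 (h1 v hv)
  · intro h
    exact IsCoprime.mul_right (hcop y hy) (IsCoprime.prod_right fun v hv => (h3_a_v v y).2 (h v hv))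

theorem h3_a_inf (hA : (p : 𝓞 K) ∈ ∏ v ∈ R, v.asIdeal) (hχ : PChG p f R χ) {x : 𝓞 K} (h1 : x ∈ f)
    (h2 : x ∈ (∏ v ∈ R, v.asIdeal) ^ 2) : x ∈ f * ∏ v ∈ R, v.asIdeal ^ 2 := by
  have h3 : IsCoprime f (∏ v ∈ R, v.asIdeal) := by
    have h4 := hχ.cop
    rw [Ideal.isCoprime_iff_sup_eq] at h4 ⊢
    rw [eq_top_iff, ← h4]
    exact sup_le_sup_left ((Ideal.span_singleton_le_iff_mem _).2 hA) _
  rw [Finset.prod_pow, ← Ideal.inf_eq_mul_of_isCoprime h3.pow_right]
  exact ⟨h1, h2⟩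

theorem h3_a_le {v : HeightOneSpectrum (𝓞 K)} (hv : v ∈ R) : ∏ v ∈ R, v.asIdeal ≤ v.asIdeal :=
  Ideal.le_of_dvd (Finset.dvd_prod_of_mem (fun v : HeightOneSpectrum (𝓞 K) => v.asIdeal) hv)

theorem h3_a_sq {P : Ideal (𝓞 K)} {x : 𝓞 K} (h : x ∈ P ^ 2) : x ∈ P :=
  Ideal.pow_le_self two_ne_zero h

theorem h3_a_eq (hA : (p : 𝓞 K) ∈ ∏ v ∈ R, v.asIdeal) (hχ : PChG p f R χ) (hf : I₀ ≤ f)
    (hcop : ∀ x ∈ XS I₀ c₀, IsCoprime (Ideal.span {x}) f) (hne : (0 : 𝓞 K) ∉ XS I₀ c₀) {y z : 𝓞 K}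
    (hy : y ∈ XS I₀ c₀) (hz : z ∈ XS I₀ c₀) (h : y - z ∈ (∏ v ∈ R, v.asIdeal) ^ 2) :
    χ (Ideal.span {y}) = χ (Ideal.span {z}) := by
  have h1 : y - z ∈ f := by
    apply hf
    have h2 : y - z = (y - c₀) - (z - c₀) := by ring
    rw [h2]
    exact I₀.sub_mem hy hz
  have h2 : ∀ v ∈ R, (y ∈ v.asIdeal ↔ z ∈ v.asIdeal) := by
    intro v hv
    have h3 : y - z ∈ v.asIdeal := h3_a_le hv (h3_a_sq h)
    constructor
    · intro h4
      have h5 := v.asIdeal.sub_mem h4 h3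
      rwa [sub_sub_cancel] at h5
    · intro h4
      have h5 := v.asIdeal.add_mem h3 h4
      rwa [sub_add_cancel] at h5
  by_cases hc : IsCoprime (Ideal.span {y}) (f * ∏ v ∈ R, v.asIdeal)
  · refine hχ.per y z ?_ ?_ hc (h3_a_inf hA hχ h1 h)
    · intro h0
      rw [h0] at hy
      exact hne hy
    · intro h0
      rw [h0] at hz
      exact hne hz
  · rw [hχ.zero _ hc, hχ.zero]
    intro hc2
    apply hc
    rw [h3_a_cop hcop hz] at hc2
    rw [h3_a_cop hcop hy]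
    intro v hv
    rw [h2 v hv]
    exact hc2 v hv

theorem h3_a_ne (hp : p.Prime) (hχ : PChG p f R χ) (hcop : ∀ x ∈ XS I₀ c₀, IsCoprime (Ideal.span {x}) f)
    (hne : (0 : 𝓞 K) ∉ XS I₀ c₀) {y : 𝓞 K} (hy : y ∈ XS I₀ c₀) :
    (χ (Ideal.span {y}) = 0 ∨ χ (Ideal.span {y}) ^ p = 1) ∧
      (χ (Ideal.span {y}) ≠ 0 ↔ ∀ v ∈ R, y ∉ v.asIdeal) := by
  have h0 : Ideal.span {y} ≠ ⊥ := by
    intro h
    rw [Ideal.span_singleton_eq_bot] at h
    rw [h] at hy
    exact hne hy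
  by_cases hc : IsCoprime (Ideal.span {y}) (f * ∏ v ∈ R, v.asIdeal)
  · have h1 := hχ.val _ h0 hc
    refine ⟨Or.inr h1, fun _ => (h3_a_cop hcop hy).1 hc, fun _ h2 => ?_⟩
    rw [h2, zero_pow hp.ne_zero] at h1
    exact zero_ne_one h1
  · have h1 := hχ.zero _ hc
    refine ⟨Or.inl h1, fun h => absurd h1 h, fun h => ?_⟩
    exact absurd ((h3_a_cop hcop hy).2 h) hc

theorem h3_a_step (hp : p.Prime) (hA : (p : 𝓞 K) ∈ ∏ v ∈ R, v.asIdeal) (hχ : PChG p f R χ)
    (hI : IsCoprime I₀ (Ideal.span {(p : 𝓞 K)})) (hf : I₀ ≤ f)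
    (hcop : ∀ x ∈ XS I₀ c₀, IsCoprime (Ideal.span {x}) f) (hne : (0 : 𝓞 K) ∉ XS I₀ c₀)
    {T : 𝓞 K → C} (hT : ∀ x, ∀ y ∈ XS I₀ c₀, y - x ∈ (∏ v ∈ R, v.asIdeal) ^ 2 → T x = χ (Ideal.span {y}))
    {x : 𝓞 K} (hx : T x ≠ 0) {y z : 𝓞 K} (hy : y ∈ ∏ v ∈ R, v.asIdeal) (hz : z ∈ ∏ v ∈ R, v.asIdeal) :
    T (x + (y + z)) * T x = T (x + y) * T (x + z) := by
  have hp2 : ∀ {a b : 𝓞 K}, (p : 𝓞 K) ^ 2 ∣ a - b → a - b ∈ (∏ v ∈ R, v.asIdeal) ^ 2 := by
    intro a b h
    obtain ⟨t, ht⟩ := h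
    rw [ht]
    exact Ideal.mul_mem_right _ _ (Ideal.pow_mem_pow hA 2)
  obtain ⟨x', hx', hx2⟩ := h3_lift hI c₀ x
  obtain ⟨y', hy', hy2⟩ := h3_lift hI 0 y
  obtain ⟨z', hz', hz2⟩ := h3_lift hI 0 z
  have hyI : y' ∈ I₀ := by
    have h : y' - 0 ∈ I₀ := hy'
    rwa [sub_zero] at h
  have hzI : z' ∈ I₀ := by
    have h : z' - 0 ∈ I₀ := hz'
    rwa [sub_zero] at h
  have hyP : y' ∈ ∏ v ∈ R, v.asIdeal := by
    have h := (∏ v ∈ R, v.asIdeal).add_mem (h3_a_sq (hp2 hy2)) hy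
    rwa [sub_add_cancel] at h
  have hzP : z' ∈ ∏ v ∈ R, v.asIdeal := by
    have h := (∏ v ∈ R, v.asIdeal).add_mem (h3_a_sq (hp2 hz2)) hz
    rwa [sub_add_cancel] at h
  have hXS : ∀ {w : 𝓞 K}, w ∈ I₀ → x' + w ∈ XS I₀ c₀ := by
    intro w hw
    show x' + w - c₀ ∈ I₀
    have h1 : x' + w - c₀ = (x' - c₀) + w := by ring
    rw [h1]
    exact I₀.add_mem hx' hw
  have e0 : T x = χ (Ideal.span {x'}) := hT x x' hx' (hp2 hx2)
  have e1 : T (x + y) = χ (Ideal.span {x' + y'}) := by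
    refine hT _ _ (hXS hyI) ?_
    have h1 : x' + y' - (x + y) = (x' - x) + (y' - y) := by ring
    rw [h1]
    exact Ideal.add_mem _ (hp2 hx2) (hp2 hy2)
  have e2 : T (x + z) = χ (Ideal.span {x' + z'}) := by
    refine hT _ _ (hXS hzI) ?_
    have h1 : x' + z' - (x + z) = (x' - x) + (z' - z) := by ring
    rw [h1]
    exact Ideal.add_mem _ (hp2 hx2) (hp2 hz2)
  have e3 : T (x + (y + z)) = χ (Ideal.span {x' + (y' + z')}) := by
    refine hT _ _ (hXS (I₀.add_mem hyI hzI)) ?_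
    have h1 : x' + (y' + z') - (x + (y + z)) = (x' - x) + ((y' - y) + (z' - z)) := by ring
    rw [h1]
    exact Ideal.add_mem _ (hp2 hx2) (Ideal.add_mem _ (hp2 hy2) (hp2 hz2))
  have hcl : ∀ v ∈ R, x' ∉ v.asIdeal := by
    rw [e0] at hx
    exact (h3_a_ne hp hχ hcop hne hx').2.1 hx
  have hclw : ∀ {w : 𝓞 K}, w ∈ I₀ → w ∈ ∏ v ∈ R, v.asIdeal →
      IsCoprime (Ideal.span {x' + w}) (f * ∏ v ∈ R, v.asIdeal) := by
    intro w hw hwP
    rw [h3_a_cop hcop (hXS hw)]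
    intro v hv h
    have h1 := v.asIdeal.sub_mem h (h3_a_le hv hwP)
    rw [add_sub_cancel_right] at h1
    exact hcl v hv h1
  have hne0 : ∀ {w : 𝓞 K}, w ∈ I₀ → x' + w ≠ 0 := by
    intro w hw h
    have h1 := hXS hw
    rw [h] at h1
    exact hne h1
  have hx0 : x' ≠ 0 := by
    intro h
    rw [h] at hx'
    exact hne hx'
  have hx0c : IsCoprime (Ideal.span {x'}) (f * ∏ v ∈ R, v.asIdeal) := (h3_a_cop hcop hx').2 hcl
  rw [e0, e1, e2, e3, ← map_mul, ← map_mul, Ideal.span_singleton_mul_span_singleton,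
    Ideal.span_singleton_mul_span_singleton]
  refine (hχ.per _ _ ?_ ?_ ?_ ?_).symm
  · exact mul_ne_zero (hne0 hyI) (hne0 hzI)
  · exact mul_ne_zero (hne0 (I₀.add_mem hyI hzI)) hx0
  · rw [← Ideal.span_singleton_mul_span_singleton]
    exact IsCoprime.mul_left (hclw hyI hyP) (hclw hzI hzP)
  · have h1 : (x' + y') * (x' + z') - (x' + (y' + z')) * x' = y' * z' := by ring
    rw [h1]
    refine h3_a_inf hA hχ (f.mul_mem_right _ (hf hyI)) ?_
    rw [pow_two]
    exact Ideal.mul_mem_mul hyP hzP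

theorem h3_wt (hp : p.Prime) (hA : Adp F p (∏ v ∈ R, v.asIdeal) ω₀ I) (hχ : PChG p f R χ) (hI : IsCoprime I₀ (Ideal.span {(p : 𝓞 K)})) (hf : I₀ ≤ f)
    (hcop : ∀ x ∈ XS I₀ c₀, IsCoprime (Ideal.span {x}) f) (hne : (0 : 𝓞 K) ∉ XS I₀ c₀) :
    ∃ Φ : (Fin (m + 1) → 𝓞 F) → C, WtP p I Φ ∧
      (∀ x ∈ XS I₀ c₀, ∀ a : Fin (m + 1) → 𝓞 F, (p : 𝓞 K) ^ 2 ∣ x - ∑ s, algebraMap (𝓞 F) (𝓞 K) (a s) * ω₀ s → Φ a = χ (Ideal.span {x})) ∧
      ∀ a : Fin (m + 1) → 𝓞 F, Φ a ≠ 0 ↔ ∀ v ∈ R, ∑ s, algebraMap (𝓞 F) (𝓞 K) (a s) * ω₀ s ∉ v.asIdeal := by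
  have hpP := hA.pmem
  have hp2 : ∀ {a b : 𝓞 K}, (p : 𝓞 K) ^ 2 ∣ a - b → a - b ∈ (∏ v ∈ R, v.asIdeal) ^ 2 := by
    intro a b h
    obtain ⟨t, ht⟩ := h
    rw [ht]
    exact Ideal.mul_mem_right _ _ (Ideal.pow_mem_pow hpP 2)
  have hlift := fun x => h3_lift hI c₀ x
  choose li hli1 hli2 using hlift
  obtain ⟨T, hTdef⟩ : ∃ T : 𝓞 K → C, T = fun x => χ (Ideal.span {li x}) := ⟨_, rfl⟩
  have hT : ∀ x, ∀ y ∈ XS I₀ c₀, y - x ∈ (∏ v ∈ R, v.asIdeal) ^ 2 → T x = χ (Ideal.span {y}) := by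
    intro x y hy hxy
    rw [hTdef]
    refine h3_a_eq hpP hχ hf hcop hne (hli1 x) hy ?_
    have h1 : li x - y = (li x - x) - (y - x) := by ring
    rw [h1]
    exact Ideal.sub_mem _ (hp2 (hli2 x)) hxy
  have hT2 : ∀ x y, x - y ∈ (∏ v ∈ R, v.asIdeal) ^ 2 → T x = T y := by
    intro x y hxy
    have h1 : T y = χ (Ideal.span {li y}) := by rw [hTdef]
    rw [h1]
    refine hT x _ (hli1 y) ?_
    have h2 : li y - x = (li y - y) - (x - y) := by ring
    rw [h2]
    exact Ideal.sub_mem _ (hp2 (hli2 y)) hxy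
  have hTne : ∀ x, (T x = 0 ∨ T x ^ p = 1) ∧ (T x ≠ 0 ↔ ∀ v ∈ R, x ∉ v.asIdeal) := by
    intro x
    have h1 : T x = χ (Ideal.span {li x}) := by rw [hTdef]
    obtain ⟨h2, h3⟩ := h3_a_ne hp hχ hcop hne (hli1 x)
    rw [h1]
    refine ⟨h2, h3.trans ?_⟩
    refine forall₂_congr fun v hv => not_congr ?_
    have h4 : li x - x ∈ v.asIdeal := h3_a_le hv (h3_a_sq (hp2 (hli2 x)))
    constructor
    · intro h5
      have h6 := v.asIdeal.sub_mem h5 h4
      rwa [sub_sub_cancel] at h6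
    · intro h5
      have h6 := v.asIdeal.add_mem h4 h5
      rwa [sub_add_cancel] at h6
  obtain ⟨X, hX⟩ : ∃ X : (Fin (m + 1) → 𝓞 F) → 𝓞 K,
    X = fun a => ∑ s, algebraMap (𝓞 F) (𝓞 K) (a s) * ω₀ s := ⟨_, rfl⟩
  have hXadd : ∀ a b : Fin (m + 1) → 𝓞 F, X (fun k => a k + b k) = X a + X b := by
    intro a b
    rw [hX]
    beta_reduce
    rw [← Finset.sum_add_distrib]
    refine Finset.sum_congr rfl fun s _ => ?_
    rw [map_add, add_mul]
  refine ⟨fun a => T (X a), ⟨?_, ?_, ?_⟩, ?_, ?_⟩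
  · intro a b hab
    refine hT2 _ _ (hp2 ?_)
    rw [hX]
    beta_reduce
    rw [← Finset.sum_sub_distrib]
    refine Finset.dvd_sum fun s _ => ?_
    rw [← sub_mul, ← map_sub]
    have h1 := map_dvd (algebraMap (𝓞 F) (𝓞 K)) (hab s)
    rw [map_pow, map_natCast] at h1
    exact dvd_mul_of_dvd_left h1 _
  · intro x
    beta_reduce
    by_cases hx : T (X x) = 0
    · refine ⟨fun _ _ => 1, fun k => ⟨fun a b => (one_mul 1).symm, fun a => rfl⟩, fun b => ?_⟩
      rw [hx, zero_mul, hXadd]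
      by_contra h
      have h1 := (hTne _).2.1 h
      have h2 : ∀ v ∈ R, X x ∉ v.asIdeal := by
        intro v hv h3
        apply h1 v hv
        refine v.asIdeal.add_mem h3 (h3_a_le hv ?_)
        rw [hX]
        exact adp_ub hA b
      exact (hTne _).2.2 h2 hx
    · obtain ⟨e, he⟩ : ∃ e : Fin (m + 1) → 𝓞 F → 𝓞 K, e = fun k b =>
          algebraMap (𝓞 F) (𝓞 K) (if k ∈ I then b else (p : 𝓞 F) * b) * ω₀ k := ⟨_, rfl⟩
      have heP : ∀ k b, e k b ∈ ∏ v ∈ R, v.asIdeal := by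
        intro k b
        rw [he]
        beta_reduce
        split_ifs with hk
        · exact Ideal.mul_mem_left _ _ (hA.mem k hk)
        · rw [map_mul, map_natCast, mul_assoc]
          exact Ideal.mul_mem_right _ _ hpP
      have hep : ∀ k b, e k ((p : 𝓞 F) * b) ∈ (∏ v ∈ R, v.asIdeal) ^ 2 := by
        intro k b
        have h1 : e k ((p : 𝓞 F) * b) = (p : 𝓞 K) * e k b := by
          rw [he]
          beta_reduce
          split_ifs with hk
          · rw [map_mul, map_natCast]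
            ring
          · rw [map_mul, map_mul, map_natCast]
            ring
        rw [h1, pow_two]
        exact Ideal.mul_mem_mul hpP (heP k b)
      have hea : ∀ k a b, e k (a + b) = e k a + e k b := by
        intro k a b
        rw [he]
        beta_reduce
        split_ifs with hk
        · rw [map_add, add_mul]
        · rw [mul_add, map_add, add_mul]
      have hmul : ∀ {y z : 𝓞 K}, y ∈ ∏ v ∈ R, v.asIdeal → z ∈ ∏ v ∈ R, v.asIdeal →
          T (X x + (y + z)) * T (X x) = T (X x + y) * T (X x + z) := fun hy hz =>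
        h3_a_step hp hpP hχ hI hf hcop hne hT hx hy hz
      refine ⟨fun k b => T (X x + e k b) / T (X x), fun k => ⟨fun a b => ?_, fun a => ?_⟩, fun b => ?_⟩
      · beta_reduce
        rw [hea, div_mul_div_comm, ← hmul (heP k a) (heP k b), mul_div_mul_right _ _ hx]
      · beta_reduce
        rw [div_eq_one_iff_eq hx]
        refine hT2 _ _ ?_
        rw [add_sub_cancel_left]
        exact hep k a
      · have h1 : ∀ S : Finset (Fin (m + 1)), T (X x + ∑ k ∈ S, e k (b k)) =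
            T (X x) * ∏ k ∈ S, (T (X x + e k (b k)) / T (X x)) := by
          intro S
          classical
          induction S using Finset.induction_on with
          | empty => rw [Finset.sum_empty, Finset.prod_empty, add_zero, mul_one]
          | insert k S hk ih =>
            rw [Finset.sum_insert hk, Finset.prod_insert hk]
            have h2 : ∑ k ∈ S, e k (b k) ∈ ∏ v ∈ R, v.asIdeal := Ideal.sum_mem _ fun k _ => heP k _
            have h3 := hmul (heP k (b k)) h2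
            rw [ih] at h3
            have h4 : T (X x + (e k (b k) + ∑ k ∈ S, e k (b k))) =
                T (X x + e k (b k)) * ∏ k ∈ S, (T (X x + e k (b k)) / T (X x)) := by
              refine mul_right_cancel₀ hx ?_
              rw [h3]
              ring
            rw [h4]
            field_simp
        have h5 := h1 Finset.univ
        have h6 : ∑ k, e k (b k) = X (ub p I b) := by
          rw [he, hX]
          rfl
        rw [h6, ← hXadd] at h5
        exact h5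
  · intro x
    exact (hTne _).1
  · intro x hx a hxa
    refine hT _ _ hx ?_
    rw [hX]
    exact hp2 hxa
  · intro a
    have h1 := (hTne (X a)).2
    rw [hX] at h1 ⊢
    exact h1

end SSR
end

-- from Lib.SSR.H4
section

open NumberField IsDedekindDomain

namespace SSR

open H55N (XS)
open SSG (Rep)
open SSG.E (RpU)

variable {F : Type} [Field F] [NumberField F] {K : Type} [Field K] [NumberField K] [Algebra F K] {m p : ℕ}
  {P : Ideal (𝓞 K)} {ω₀ : Fin (m + 1) → 𝓞 K} {I : Finset (Fin (m + 1))} {I₀ : Ideal (𝓞 K)} {c₀ : 𝓞 K} {M : Type} [AddCommMonoid M]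

/-! Chunk H4 (M). PROOF. h4_sum: S is a set of representatives of XS I₀ c₀ modulo p^2 I₀ = (p^2) ⊓ I₀ (coprime). The map a ∈ S ↦ the vector of the elements of T2 congruent to co a k modulo p^2 is a bijection onto piFinset T2: injective: equal vectors give co a = co a' modulo p^2, so a - a' ∈ (p^2), and
a - a' ∈ I₀, so a - a' ∈ (p^2) I₀ (Ideal.inf_eq_mul_of_isCoprime) and a = a' (uniqueness, RpU.ex). Surjective: c ∈ piFinset T2, x' a lift of Σ c ω₀ (h3_lift), a ∈ S with x' - a ∈ (p^2) I₀: Σ co a ω₀ - Σ c ω₀ ∈ (p^2), so p^2 | co a s - c s (adp_ind2). G is periodic, so it has the same value. Finset.sum_bij.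
h4_ind: by h2_split (G a := if Σ a ω₀ ∈ P then H a else 0, periodic because p^2 ∈ P): for x ∈ piFinset (0 or T1): Σ (x + ub b) ω₀ ∈ P iff Σ x ω₀ ∈ P (adp_ub) iff p | x s for s ∉ I (adp_iff); the elements x = with x s = 0 (s ∈ I) and x s = t0 the representative of 0 in T1. So only one x
contributes: x s = t0 for s ∉ I with p | t0: x + ub b = ub b' modulo p^2 with b' s = b s + t0 / p for s ∉ I; b ↦ b' permutes the classes modulo p: the sum is Σ_b H (ub b) (H periodic; reindex b s ∈ T1). -/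

theorem h4_uniq {p N : ℕ} {T : Finset (𝓞 F)} (h : Rep p N T) {a b : 𝓞 F} (ha : a ∈ T) (hb : b ∈ T)
    (hab : (p : 𝓞 F) ^ N ∣ a - b) : a = b := by
  refine (h a).unique ⟨ha, ?_⟩ ⟨hb, hab⟩
  rw [sub_self]
  exact dvd_zero _

theorem h4_mem (hI : IsCoprime I₀ (Ideal.span {(p : 𝓞 K)})) {z : 𝓞 K} (h1 : (p : 𝓞 K) ^ 2 ∣ z) (h2 : z ∈ I₀) :
    z ∈ Ideal.span {((p ^ 2 : ℕ) : 𝓞 K)} * I₀ := by
  have h3 : IsCoprime (Ideal.span {((p ^ 2 : ℕ) : 𝓞 K)}) I₀ := by
    have h4 := (hI.pow_right (n := 2)).symm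
    rw [Ideal.span_singleton_pow] at h4
    push_cast
    exact h4
  rw [Ideal.mul_eq_inf_of_isCoprime h3]
  refine ⟨?_, h2⟩
  have h5 : z ∈ Ideal.span {((p ^ 2 : ℕ) : 𝓞 K)} := by
    rw [Ideal.mem_span_singleton]
    push_cast
    exact h1
  exact h5

theorem h4_dvd {z : 𝓞 K} (h : z ∈ Ideal.span {((p ^ 2 : ℕ) : 𝓞 K)} * I₀) : (p : 𝓞 K) ^ 2 ∣ z := by
  have h1 := Ideal.mul_le_left h
  rw [Ideal.mem_span_singleton] at h1
  push_cast at h1
  exact h1

theorem h4_lin (a b : Fin (m + 1) → 𝓞 F) :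
    ∑ s, algebraMap (𝓞 F) (𝓞 K) (a s) * ω₀ s - ∑ s, algebraMap (𝓞 F) (𝓞 K) (b s) * ω₀ s =
      ∑ s, algebraMap (𝓞 F) (𝓞 K) (a s - b s) * ω₀ s := by
  rw [← Finset.sum_sub_distrib]
  refine Finset.sum_congr rfl fun s _ => ?_
  rw [map_sub, sub_mul]

theorem h4_dvd_sum {c : Fin (m + 1) → 𝓞 F} (h : ∀ s, (p : 𝓞 F) ^ 2 ∣ c s) :
    (p : 𝓞 K) ^ 2 ∣ ∑ s, algebraMap (𝓞 F) (𝓞 K) (c s) * ω₀ s := by
  refine Finset.dvd_sum fun s _ => ?_
  obtain ⟨e, he⟩ := h s
  rw [he, map_mul, map_pow, map_natCast, mul_assoc]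
  exact dvd_mul_right _ _

theorem h4_sum (hp : p.Prime) (hA : Adp F p P ω₀ I) (hI : IsCoprime I₀ (Ideal.span {(p : 𝓞 K)})) (co : 𝓞 K → Fin (m + 1) → 𝓞 F)
    (hco : ∀ x, ∃ t : 𝓞 K, x = ∑ s, algebraMap (𝓞 F) (𝓞 K) (co x s) * ω₀ s + (p : 𝓞 K) ^ 2 * t) {S : Finset (𝓞 K)} (hS : RpU I₀ c₀ (p ^ 2) S)
    {T2 : Finset (𝓞 F)} (h2 : Rep p 2 T2) (G : (Fin (m + 1) → 𝓞 F) → M)
    (hG : ∀ a b : Fin (m + 1) → 𝓞 F, (∀ k, (p : 𝓞 F) ^ 2 ∣ a k - b k) → G a = G b) :
    ∑ a ∈ S, G (co a) = ∑ a ∈ Fintype.piFinset (fun _ : Fin (m + 1) => T2), G a := by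
  classical
  choose r2 hr2 _ using fun x => h2 x
  refine Finset.sum_bij (fun a _ => fun k => r2 (co a k)) ?_ ?_ ?_ ?_
  · intro a _
    exact Fintype.mem_piFinset.2 fun k => (hr2 _).1
  · intro a ha a' ha' h
    have e1 : ∀ k, (p : 𝓞 F) ^ 2 ∣ co a k - co a' k := by
      intro k
      have e2 : r2 (co a k) = r2 (co a' k) := congrFun h k
      have e3 := dvd_sub (hr2 (co a k)).2 (hr2 (co a' k)).2
      rw [e2] at e3
      have e4 : co a k - r2 (co a' k) - (co a' k - r2 (co a' k)) = co a k - co a' k := by ring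
      rwa [e4] at e3
    obtain ⟨t, ht⟩ := hco a
    obtain ⟨t', ht'⟩ := hco a'
    have e5 : (p : 𝓞 K) ^ 2 ∣ a - a' := by
      have e6 : a - a' = ∑ s, algebraMap (𝓞 F) (𝓞 K) (co a s - co a' s) * ω₀ s + (p : 𝓞 K) ^ 2 * (t - t') := by
        rw [← h4_lin]
        linear_combination ht - ht'
      rw [e6]
      exact dvd_add (h4_dvd_sum e1) (dvd_mul_right _ _)
    have e7 : a - a' ∈ I₀ := by
      have e8 : a - c₀ ∈ I₀ := hS.sub a ha
      have e9 : a' - c₀ ∈ I₀ := hS.sub a' ha'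
      have e10 : a - a' = (a - c₀) - (a' - c₀) := by ring
      rw [e10]
      exact Ideal.sub_mem _ e8 e9
    refine (hS.ex a (hS.sub a ha)).unique ⟨ha, ?_⟩ ⟨ha', h4_mem hI e5 e7⟩
    rw [sub_self]
    exact Ideal.zero_mem _
  · intro c hc
    rw [Fintype.mem_piFinset] at hc
    obtain ⟨x', hx', hx'd⟩ := h3_lift (p := p) hI c₀ (∑ s, algebraMap (𝓞 F) (𝓞 K) (c s) * ω₀ s)
    obtain ⟨a, ⟨haS, hax⟩, -⟩ := hS.ex x' hx'
    refine ⟨a, haS, ?_⟩
    obtain ⟨t, ht⟩ := hco a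
    have e1 : (p : 𝓞 K) ^ 2 ∣ ∑ s, algebraMap (𝓞 F) (𝓞 K) (co a s - c s) * ω₀ s := by
      have e2 : ∑ s, algebraMap (𝓞 F) (𝓞 K) (co a s - c s) * ω₀ s =
          (x' - ∑ s, algebraMap (𝓞 F) (𝓞 K) (c s) * ω₀ s) - (x' - a) - (p : 𝓞 K) ^ 2 * t := by
        rw [← h4_lin]
        linear_combination -ht
      rw [e2]
      exact dvd_sub (dvd_sub hx'd (h4_dvd hax)) (dvd_mul_right _ _)
    have e3 := adp_ind2 hp hA (fun s => co a s - c s) e1
    funext k
    refine h4_uniq h2 (hr2 _).1 (hc k) ?_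
    have e4 : r2 (co a k) - c k = (co a k - c k) - (co a k - r2 (co a k)) := by ring
    rw [e4]
    exact dvd_sub (e3 k) (hr2 _).2
  · intro a _
    exact hG _ _ fun k => (hr2 _).2

open Classical in
theorem h4_ind (hp : p.Prime) (hA : Adp F p P ω₀ I) {T1 T2 : Finset (𝓞 F)} (h1 : Rep p 1 T1) (h2 : Rep p 2 T2) (G : (Fin (m + 1) → 𝓞 F) → M)
    (hG : ∀ a b : Fin (m + 1) → 𝓞 F, (∀ k, (p : 𝓞 F) ^ 2 ∣ a k - b k) → G a = G b) :
    ∑ a ∈ Fintype.piFinset (fun _ : Fin (m + 1) => T2), (if ∑ s, algebraMap (𝓞 F) (𝓞 K) (a s) * ω₀ s ∈ P then G a else 0) =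
      ∑ b ∈ Fintype.piFinset (fun k : Fin (m + 1) => if k ∈ I then T2 else T1), G (ub p I b) := by
  have hp0 : (p : 𝓞 F) ≠ 0 := by exact_mod_cast hp.ne_zero
  choose r1 hr1 _ using fun x => h1 x
  choose r2 hr2 _ using fun x => h2 x
  have hB : ∀ b : Fin (m + 1) → 𝓞 F, b ∈ Fintype.piFinset (fun k : Fin (m + 1) => if k ∈ I then T2 else T1) ↔
      ∀ k, (k ∈ I → b k ∈ T2) ∧ (k ∉ I → b k ∈ T1) := by
    intro b
    rw [Fintype.mem_piFinset]
    refine forall_congr' fun k => ?_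
    by_cases hk : k ∈ I
    · rw [if_pos hk]
      exact ⟨fun h => ⟨fun _ => h, fun h' => absurd hk h'⟩, fun h => h.1 hk⟩
    · rw [if_neg hk]
      exact ⟨fun h => ⟨fun h' => absurd h' hk, fun _ => h⟩, fun h => h.2 hk⟩
  rw [← Finset.sum_filter]
  symm
  refine Finset.sum_bij (fun b _ => fun k => r2 (ub p I b k)) ?_ ?_ ?_ ?_
  · intro b _
    rw [Finset.mem_filter]
    refine ⟨Fintype.mem_piFinset.2 fun k => (hr2 _).1, (adp_iff hA _).2 fun s hs => ?_⟩
    have e1 := (hr2 (ub p I b s)).2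
    have e2 : (p : 𝓞 F) ∣ ub p I b s := by
      unfold ub
      rw [if_neg hs]
      exact dvd_mul_right _ _
    have e3 : (p : 𝓞 F) ∣ ub p I b s - r2 (ub p I b s) := (dvd_pow_self _ two_ne_zero).trans e1
    have e4 : r2 (ub p I b s) = ub p I b s - (ub p I b s - r2 (ub p I b s)) := by ring
    rw [e4]
    exact dvd_sub e2 e3
  · intro b hb b' hb' h
    rw [hB] at hb hb'
    funext k
    have e1 : r2 (ub p I b k) = r2 (ub p I b' k) := congrFun h k
    have e2 : (p : 𝓞 F) ^ 2 ∣ ub p I b k - ub p I b' k := by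
      have e3 := dvd_sub (hr2 (ub p I b k)).2 (hr2 (ub p I b' k)).2
      rw [e1] at e3
      have e4 : ub p I b k - r2 (ub p I b' k) - (ub p I b' k - r2 (ub p I b' k)) = ub p I b k - ub p I b' k := by ring
      rwa [e4] at e3
    unfold ub at e2
    by_cases hk : k ∈ I
    · rw [if_pos hk, if_pos hk] at e2
      exact h4_uniq h2 ((hb k).1 hk) ((hb' k).1 hk) e2
    · rw [if_neg hk, if_neg hk, ← mul_sub, sq, mul_dvd_mul_iff_left hp0] at e2
      exact h4_uniq h1 ((hb k).2 hk) ((hb' k).2 hk) (by rw [pow_one]; exact e2)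
  · intro a ha
    rw [Finset.mem_filter, Fintype.mem_piFinset, adp_iff hA] at ha
    obtain ⟨ha1, ha2⟩ := ha
    have hc : ∀ k, ∃ c : 𝓞 F, k ∉ I → a k = p * c := by
      intro k
      by_cases hk : k ∈ I
      · exact ⟨0, fun h => absurd hk h⟩
      · obtain ⟨c, hc⟩ := ha2 k hk
        exact ⟨c, fun _ => hc⟩
    choose c hc using hc
    obtain ⟨b, hb⟩ : ∃ b : Fin (m + 1) → 𝓞 F, b = fun k => if k ∈ I then a k else r1 (c k) := ⟨_, rfl⟩
    have hbI : ∀ k, k ∈ I → b k = a k := by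
      intro k hk
      rw [hb]
      simp only [if_pos hk]
    have hbN : ∀ k, k ∉ I → b k = r1 (c k) := by
      intro k hk
      rw [hb]
      simp only [if_neg hk]
    refine ⟨b, ?_, ?_⟩
    · rw [hB]
      refine fun k => ⟨fun hk => ?_, fun hk => ?_⟩
      · rw [hbI k hk]
        exact ha1 k
      · rw [hbN k hk]
        exact (hr1 _).1
    · funext k
      refine h4_uniq h2 (hr2 _).1 (ha1 k) ?_
      have e1 := (hr2 (ub p I b k)).2
      have e2 : (p : 𝓞 F) ^ 2 ∣ ub p I b k - a k := by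
        unfold ub
        by_cases hk : k ∈ I
        · rw [if_pos hk, hbI k hk, sub_self]
          exact dvd_zero _
        · rw [if_neg hk, hbN k hk, hc k hk, ← mul_sub, sq]
          refine mul_dvd_mul_left _ ?_
          have e3 := (hr1 (c k)).2
          rw [pow_one] at e3
          rw [← neg_sub]
          exact (dvd_neg).2 e3
      have e5 : r2 (ub p I b k) - a k = (ub p I b k - a k) - (ub p I b k - r2 (ub p I b k)) := by
        ring
      rw [e5]
      exact dvd_sub e2 e1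
  · intro b _
    exact hG _ _ fun k => (hr2 _).2

end SSR
end

-- from Lib.SSR.H3B
section

open NumberField IsDedekindDomain

namespace SSR

open SSG (Rep)

variable {F : Type} [Field F] [NumberField F] {K : Type} [Field K] [NumberField K] [Algebra F K] {m p : ℕ}
  {R : Finset (HeightOneSpectrum (𝓞 K))} {ω₀ : Fin (m + 1) → 𝓞 K} {I : Finset (Fin (m + 1))}

/-! Chunk H3B (M). PROOF. P = prod over R of v. The map x ↦ class of Σ x ω₀ modulo P is a bijection from piFinset (k ∈ I: {0}, else T1) onto 𝓞 K / P: surjective: span + reduce: y = Σ a ω₀ + p t, and modulo P only the coordinates a s, s ∉ I, modulo p matter (mem, pmem); injective: if Σ (x - x') ω₀ ∈ P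
then p | x s - x' s for s ∉ I (sub), so equal (Rep). The condition Σ x ω₀ ∉ v for all v ∈ R says that the class is a unit of 𝓞 K / P ≅ product of the fields 𝓞 K / v (Chinese remainder theorem: Ideal.quotientInfRingEquivPiQuotient / IsDedekindDomain.quotientEquivPiOfFinsetProdEq with exponents 1; the v ∈ R are
distinct primes). The number of elements of the product with all components ≠ 0 is prod (absNorm v - 1). h3_sign: p divides absNorm v (p ∈ v: absNorm v is a power of p; or absNorm v ∈ v, v ∩ ℤ = (p)), so prod (absNorm v - 1) = (-1)^card R modulo p, in ℤ; in C: the difference is p times an integer. -/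

theorem h3b_mem_prod {R : Finset (HeightOneSpectrum (𝓞 K))} {z : 𝓞 K} (h : ∀ v ∈ R, z ∈ v.asIdeal) :
    z ∈ ∏ v ∈ R, v.asIdeal := by
  have h1 := IsDedekindDomain.inf_pow_eq_prod_of_prime R (fun v : HeightOneSpectrum (𝓞 K) => v.asIdeal) (fun _ => 1)
    (fun v _ => v.prime) (fun v _ w _ hvw h => hvw (HeightOneSpectrum.ext h))
  simp only [pow_one] at h1
  rw [← h1, Submodule.mem_finsetInf]
  exact h

theorem h3b_prod_le {R : Finset (HeightOneSpectrum (𝓞 K))} {v : HeightOneSpectrum (𝓞 K)} (hv : v ∈ R) :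
    (∏ v ∈ R, v.asIdeal) ≤ v.asIdeal :=
  Ideal.dvd_iff_le.1 (Finset.dvd_prod_of_mem (fun w : HeightOneSpectrum (𝓞 K) => w.asIdeal) hv)

open Classical in
theorem h3_count (hp : p.Prime) (hA : Adp F p (∏ v ∈ R, v.asIdeal) ω₀ I) {T1 : Finset (𝓞 F)} (h1 : Rep p 1 T1) :
    ((Fintype.piFinset (fun k : Fin (m + 1) => if k ∈ I then ({0} : Finset (𝓞 F)) else T1)).filter
      fun x => ∀ v ∈ R, ∑ s, algebraMap (𝓞 F) (𝓞 K) (x s) * ω₀ s ∉ v.asIdeal).card = ∏ v ∈ R, (Ideal.absNorm v.asIdeal - 1) := by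
  have hfin : ∀ v : R, Finite (𝓞 K ⧸ v.1.asIdeal) := fun v =>
    v.1.asIdeal.finiteQuotientOfFreeOfNeBot v.1.ne_bot
  have hft : ∀ v : R, Fintype (𝓞 K ⧸ v.1.asIdeal) := fun v => Fintype.ofFinite _
  have hcard : (Fintype.piFinset (fun v : R => (Finset.univ : Finset (𝓞 K ⧸ v.1.asIdeal)).erase 0)).card =
      ∏ v ∈ R, (Ideal.absNorm v.asIdeal - 1) := by
    rw [Fintype.card_piFinset, ← Finset.prod_coe_sort R (fun v => Ideal.absNorm v.asIdeal - 1)]
    refine Finset.prod_congr rfl fun v _ => ?_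
    rw [Finset.card_erase_of_mem (Finset.mem_univ _), Finset.card_univ, Ideal.absNorm_apply, Submodule.cardQuot_apply,
      Nat.card_eq_fintype_card]
  rw [← hcard]
  obtain ⟨Y, hY⟩ : ∃ Y : (Fin (m + 1) → 𝓞 F) → 𝓞 K, Y = fun x => ∑ s, algebraMap (𝓞 F) (𝓞 K) (x s) * ω₀ s := ⟨_, rfl⟩
  have hYx : ∀ x, ∑ s, algebraMap (𝓞 F) (𝓞 K) (x s) * ω₀ s = Y x := fun x => by rw [hY]
  have hYsub : ∀ x y : Fin (m + 1) → 𝓞 F, Y x - Y y = ∑ s, algebraMap (𝓞 F) (𝓞 K) (x s - y s) * ω₀ s := by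
    intro x y
    rw [hY, ← Finset.sum_sub_distrib]
    refine Finset.sum_congr rfl fun s _ => ?_
    rw [map_sub, sub_mul]
  have hx : ∀ x : Fin (m + 1) → 𝓞 F, x ∈ Fintype.piFinset (fun k : Fin (m + 1) => if k ∈ I then ({0} : Finset (𝓞 F)) else T1) ↔
      (∀ k ∈ I, x k = 0) ∧ ∀ k, k ∉ I → x k ∈ T1 := by
    intro x
    rw [Fintype.mem_piFinset]
    constructor
    · intro h
      refine ⟨fun k hk => ?_, fun k hk => ?_⟩
      · have := h k
        rw [if_pos hk, Finset.mem_singleton] at this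
        exact this
      · have := h k
        rw [if_neg hk] at this
        exact this
    · rintro ⟨h2, h3⟩ k
      by_cases hk : k ∈ I
      · rw [if_pos hk, Finset.mem_singleton]
        exact h2 k hk
      · rw [if_neg hk]
        exact h3 k hk
  refine Finset.card_bij (fun x _ => fun v : R => Ideal.Quotient.mk v.1.asIdeal (Y x)) ?_ ?_ ?_
  · intro x hxF
    rw [Finset.mem_filter] at hxF
    rw [Fintype.mem_piFinset]
    intro v
    rw [Finset.mem_erase]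
    refine ⟨?_, Finset.mem_univ _⟩
    rw [Ne, Ideal.Quotient.eq_zero_iff_mem, ← hYx]
    exact hxF.2 v.1 v.2
  · intro x hxF y hyF hxy
    rw [Finset.mem_filter, hx] at hxF hyF
    have h2 : Y x - Y y ∈ ∏ v ∈ R, v.asIdeal := by
      refine h3b_mem_prod fun v hv => ?_
      have := congrFun hxy ⟨v, hv⟩
      exact Ideal.Quotient.eq.1 this
    rw [hYsub] at h2
    have h3 := hA.sub (fun s => x s - y s) h2
    funext k
    by_cases hk : k ∈ I
    · rw [hxF.1.1 k hk, hyF.1.1 k hk]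
    · obtain ⟨a, -, ha⟩ := h1 (x k)
      have e1 := ha (x k) ⟨hxF.1.2 k hk, by rw [sub_self]; exact dvd_zero _⟩
      have e2 := ha (y k) ⟨hyF.1.2 k hk, by rw [pow_one]; exact h3 k hk⟩
      rw [e1, e2]
  · intro f hf
    rw [Fintype.mem_piFinset] at hf
    choose g hg using fun v : R => Ideal.Quotient.mk_surjective (f v)
    obtain ⟨y, hy⟩ := IsDedekindDomain.exists_forall_sub_mem_ideal (s := R)
      (fun v : HeightOneSpectrum (𝓞 K) => v.asIdeal) (fun _ => 1)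
      (fun v _ => v.prime) (fun v _ w _ hvw h => hvw (HeightOneSpectrum.ext h)) g
    obtain ⟨a, t, hat⟩ := hA.span y
    choose r hr using fun k : Fin (m + 1) => (h1 (a k)).exists
    obtain ⟨x, hxd⟩ : ∃ x : Fin (m + 1) → 𝓞 F, x = fun k => if k ∈ I then 0 else r k := ⟨_, rfl⟩
    have hxT : x ∈ Fintype.piFinset (fun k : Fin (m + 1) => if k ∈ I then ({0} : Finset (𝓞 F)) else T1) := by
      rw [hx, hxd]
      refine ⟨fun k hk => if_pos hk, fun k hk => ?_⟩
      simp only [if_neg hk]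
      exact (hr k).1
    have hP : y - Y x ∈ ∏ v ∈ R, v.asIdeal := by
      have h2 : y - Y x = ∑ s, algebraMap (𝓞 F) (𝓞 K) (a s - x s) * ω₀ s + (p : 𝓞 K) * t := by
        rw [← hYsub, hat, hYx]
        ring
      rw [h2]
      refine Ideal.add_mem _ (Ideal.sum_mem _ fun s _ => ?_) (Ideal.mul_mem_right _ _ hA.pmem)
      by_cases hs : s ∈ I
      · exact Ideal.mul_mem_left _ _ (hA.mem s hs)
      · have h3 : a s - x s = a s - r s := by
          rw [hxd]
          simp only [if_neg hs]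
        obtain ⟨c, hc⟩ := (hr s).2
        rw [pow_one] at hc
        rw [h3, hc, map_mul, map_natCast, mul_assoc]
        exact Ideal.mul_mem_right _ _ hA.pmem
    have hfx : (fun v : R => Ideal.Quotient.mk v.1.asIdeal (Y x)) = f := by
      funext v
      rw [← hg v]
      refine Ideal.Quotient.eq.2 ?_
      have h3 := hy v.1 v.2
      rw [pow_one] at h3
      have h4 := h3b_prod_le v.2 hP
      have h5 : Y x - g v = (y - g v) - (y - Y x) := by ring
      rw [h5]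
      exact Ideal.sub_mem _ h3 h4
    refine ⟨x, ?_, hfx⟩
    rw [Finset.mem_filter]
    refine ⟨hxT, fun v hv hmem => ?_⟩
    have h3 := hf ⟨v, hv⟩
    rw [Finset.mem_erase] at h3
    apply h3.1
    rw [← hfx]
    rw [hYx] at hmem
    exact Ideal.Quotient.eq_zero_iff_mem.2 hmem

theorem h3_sign {C : Type} [NormedField C] [IsUltrametricDist C] (hp : p.Prime) (hlt : ‖(p : C)‖ < 1) (hR : ∀ v ∈ R, (p : 𝓞 K) ∈ v.asIdeal) :
    ‖((∏ v ∈ R, (Ideal.absNorm v.asIdeal - 1) : ℕ) : C) - (-1) ^ R.card‖ < 1 := by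
  have hdvd : ∀ v ∈ R, p ∣ Ideal.absNorm v.asIdeal := by
    intro v hv
    by_contra hcon
    have hcop : Nat.Coprime p (Ideal.absNorm v.asIdeal) := (Nat.Prime.coprime_iff_not_dvd hp).2 hcon
    have h1 : IsCoprime (p : ℤ) (Ideal.absNorm v.asIdeal : ℤ) := Nat.isCoprime_iff_coprime.2 hcop
    obtain ⟨a, b, hab⟩ := h1
    apply v.isPrime.ne_top
    rw [Ideal.eq_top_iff_one]
    have h2 : ((a * (p : ℤ) + b * (Ideal.absNorm v.asIdeal : ℤ) : ℤ) : 𝓞 K) = 1 := by
      rw [hab]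
      exact Int.cast_one
    rw [← h2]
    push_cast
    exact Ideal.add_mem _ (Ideal.mul_mem_left _ _ (hR v hv)) (Ideal.mul_mem_left _ _ (Ideal.absNorm_mem v.asIdeal))
  have hmod : (p : ℤ) ∣ ((∏ v ∈ R, (Ideal.absNorm v.asIdeal - 1) : ℕ) : ℤ) - (-1) ^ R.card := by
    rw [← ZMod.intCast_zmod_eq_zero_iff_dvd]
    push_cast
    rw [sub_eq_zero, ← Finset.prod_const]
    refine Finset.prod_congr rfl fun v hv => ?_
    have h1 : Ideal.absNorm v.asIdeal ≠ 0 := fun h => v.ne_bot (Ideal.absNorm_eq_zero_iff.1 h)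
    rw [Nat.cast_pred (Nat.pos_of_ne_zero h1), (ZMod.natCast_eq_zero_iff _ _).2 (hdvd v hv), zero_sub]
  obtain ⟨z, hz⟩ := hmod
  have h1 : ((∏ v ∈ R, (Ideal.absNorm v.asIdeal - 1) : ℕ) : C) - (-1) ^ R.card = (p : C) * (z : C) := by
    have := congrArg (fun x : ℤ => (x : C)) hz
    push_cast at this
    push_cast
    exact this
  rw [h1, norm_mul]
  calc ‖(p : C)‖ * ‖(z : C)‖ ≤ ‖(p : C)‖ * 1 :=
        mul_le_mul_of_nonneg_left (IsUltrametricDist.norm_intCast_le_one C z) (norm_nonneg _)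
    _ < 1 := by rw [mul_one]; exact hlt

end SSR
end

-- from Lib.SSR.H5
section

open NumberField IsDedekindDomain

namespace SSR

open H55N (XS)
open SSG (Rep LTF)
open SSG.E (RpU)

variable {F : Type} [Field F] [NumberField F] {K : Type} [Field K] [NumberField K] [Algebra F K] {m p : ℕ} {C : Type} [NormedField C]
  [IsUltrametricDist C] {L : LTF F C} {f : Ideal (𝓞 K)} {R : Finset (HeightOneSpectrum (𝓞 K))} {χ : Ideal (𝓞 K) →*₀ C} {ω₀ : Fin (m + 1) → 𝓞 K}
  {I : Finset (Fin (m + 1))} {I₀ : Ideal (𝓞 K)} {c₀ : 𝓞 K}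

/-! Chunk H5 (M, assembly). PROOF. T1, T2: sets of representatives modulo p, p^2 (exists_Rep: SSG/S or choose; finiteness of 𝓞 F/(n)). Φ from h3_wt. H is periodic (Fn). First sum: Σ_{a ∈ S} χ (a) H (co a) = Σ_{a ∈ S} G (co a) with G = Φ H (h3_wt second part with x = a ∈ XS (hS.sub), hco) = Σ over
piFinset T2 of Φ H (h4_sum). Second sum: a ∈ P iff Σ co a ω₀ ∈ P (p^2 ∈ P): = Σ over piFinset T2 of (if Σ a ω₀ ∈ P then H a else 0) = Σ_b H (ub b) =: S0 (h4_sum, h4_ind). h2_main: the first sum differs from n S0 by < ‖p‖^r, n = card of the x with Φ x ≠ 0 = prod (absNorm v - 1) (third part of h3_wt and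
h3_count); ‖n - (-1)^card R‖ < 1 (h3_sign) and ‖S0‖ ≤ ‖p‖^r (h2_int). Fintype.card (Fin (m + 1)) = m + 1. -/

open Classical in
theorem h5_class (hG : GH p L) (hA : Adp F p (∏ v ∈ R, v.asIdeal) ω₀ I) (hχ : PChG p f R χ) (hI : IsCoprime I₀ (Ideal.span {(p : 𝓞 K)}))
    (hf : I₀ ≤ f) (hcop : ∀ x ∈ XS I₀ c₀, IsCoprime (Ideal.span {x}) f) (hne : (0 : 𝓞 K) ∉ XS I₀ c₀) (co : 𝓞 K → Fin (m + 1) → 𝓞 F)
    (hco : ∀ x, ∃ t : 𝓞 K, x = ∑ s, algebraMap (𝓞 F) (𝓞 K) (co x s) * ω₀ s + (p : 𝓞 K) ^ 2 * t) {S : Finset (𝓞 K)} (hS : RpU I₀ c₀ (p ^ 2) S)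
    {H : (Fin (m + 1) → 𝓞 F) → C} (hH : L.Fn 2 (Fin (m + 1)) H) :
    ‖∑ a ∈ S, χ (Ideal.span {a}) * H (co a) - (-1) ^ R.card * ∑ a ∈ S, (if a ∈ ∏ v ∈ R, v.asIdeal then 1 else 0) * H (co a)‖ <
      ‖(p : C)‖ ^ (I.card + (m + 1)) ∧
    ‖∑ a ∈ S, (if a ∈ ∏ v ∈ R, v.asIdeal then 1 else 0) * H (co a)‖ ≤ ‖(p : C)‖ ^ (I.card + (m + 1)) := by
  have hp := hG.prime
  have hp0 : 0 < ‖(p : C)‖ := norm_pos_iff.2 (g1_p0 hG)
  obtain ⟨T1, h1⟩ := SSG.S.exists_Rep (F := F) p 1 hp.ne_zero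
  obtain ⟨T2, h2⟩ := SSG.S.exists_Rep (F := F) p 2 hp.ne_zero
  obtain ⟨Φ, hΦ, hΦ2, hΦ3⟩ := h3_wt hp hA hχ hI hf hcop hne
  have hHper : ∀ a b : Fin (m + 1) → 𝓞 F, (∀ k, (p : 𝓞 F) ^ 2 ∣ a k - b k) → H a = H b :=
    fun a b hab => SSG.Fn_per hG.ok hH a b hab
  have hco2 : ∀ x, (p : 𝓞 K) ^ 2 ∣ x - ∑ s, algebraMap (𝓞 F) (𝓞 K) (co x s) * ω₀ s := by
    intro x
    obtain ⟨t, ht⟩ := hco x
    refine ⟨t, ?_⟩
    have h3 := congrArg (fun z => z - ∑ s, algebraMap (𝓞 F) (𝓞 K) (co x s) * ω₀ s) ht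
    beta_reduce at h3
    rw [h3]
    ring
  have hpp : (p : 𝓞 K) ^ 2 ∈ ∏ v ∈ R, v.asIdeal := by
    rw [pow_two]
    exact Ideal.mul_mem_left _ _ hA.pmem
  -- the first sum
  have e1 : ∑ a ∈ S, χ (Ideal.span {a}) * H (co a) =
      ∑ a ∈ Fintype.piFinset (fun _ : Fin (m + 1) => T2), Φ a * H a := by
    rw [← h4_sum hp hA hI co hco hS h2 (fun a => Φ a * H a) (fun a b hab => by
      beta_reduce
      rw [hΦ.per a b hab, hHper a b hab])]
    refine Finset.sum_congr rfl fun a ha => ?_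
    beta_reduce
    rw [hΦ2 a (hS.sub a ha) (co a) (hco2 a)]
  -- membership in the ideal
  have hmem : ∀ a : 𝓞 K, (a ∈ ∏ v ∈ R, v.asIdeal) ↔
      ∑ s, algebraMap (𝓞 F) (𝓞 K) (co a s) * ω₀ s ∈ ∏ v ∈ R, v.asIdeal := by
    intro a
    obtain ⟨t, ht⟩ := hco2 a
    have h3 : (p : 𝓞 K) ^ 2 * t ∈ ∏ v ∈ R, v.asIdeal := Ideal.mul_mem_right _ _ hpp
    rw [← ht] at h3
    constructor
    · intro h4
      have h5 := Ideal.sub_mem _ h4 h3
      rwa [sub_sub_cancel] at h5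
    · intro h4
      have h5 := Ideal.add_mem _ h3 h4
      rwa [sub_add_cancel] at h5
  have hmem2 : ∀ a b : Fin (m + 1) → 𝓞 F, (∀ k, (p : 𝓞 F) ^ 2 ∣ a k - b k) →
      ((∑ s, algebraMap (𝓞 F) (𝓞 K) (a s) * ω₀ s ∈ ∏ v ∈ R, v.asIdeal) ↔
        ∑ s, algebraMap (𝓞 F) (𝓞 K) (b s) * ω₀ s ∈ ∏ v ∈ R, v.asIdeal) := by
    intro a b hab
    have h3 : ∑ s, algebraMap (𝓞 F) (𝓞 K) (a s) * ω₀ s - ∑ s, algebraMap (𝓞 F) (𝓞 K) (b s) * ω₀ s ∈
        ∏ v ∈ R, v.asIdeal := by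
      rw [← Finset.sum_sub_distrib]
      refine Ideal.sum_mem _ fun s _ => ?_
      rw [← sub_mul, ← map_sub]
      obtain ⟨t, ht⟩ := hab s
      rw [ht, map_mul, map_pow, map_natCast]
      exact Ideal.mul_mem_right _ _ (Ideal.mul_mem_right _ _ hpp)
    constructor
    · intro h4
      have h5 := Ideal.sub_mem _ h4 h3
      rwa [sub_sub_cancel] at h5
    · intro h4
      have h5 := Ideal.add_mem _ h3 h4
      rwa [sub_add_cancel] at h5
  -- the second sum
  have e2 : ∑ a ∈ S, (if a ∈ ∏ v ∈ R, v.asIdeal then 1 else 0) * H (co a) =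
      ∑ b ∈ Fintype.piFinset (fun k : Fin (m + 1) => if k ∈ I then T2 else T1), H (ub p I b) := by
    rw [← h4_ind hp hA h1 h2 H hHper, ← h4_sum hp hA hI co hco hS h2
      (fun a => if ∑ s, algebraMap (𝓞 F) (𝓞 K) (a s) * ω₀ s ∈ ∏ v ∈ R, v.asIdeal then H a else 0)
      (fun a b hab => by
        beta_reduce
        rw [hHper a b hab]
        exact if_congr (hmem2 a b hab) rfl rfl)]
    refine Finset.sum_congr rfl fun a _ => ?_
    beta_reduce
    by_cases h3 : a ∈ ∏ v ∈ R, v.asIdeal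
    · rw [if_pos h3, if_pos ((hmem a).1 h3), one_mul]
    · rw [if_neg h3, if_neg fun h4 => h3 ((hmem a).2 h4), zero_mul]
  have e3 := h2_main hG h1 h2 hΦ hH
  have e4 := h2_int hG h1 h2 I hH
  have e5 : ((Fintype.piFinset (fun k : Fin (m + 1) => if k ∈ I then ({0} : Finset (𝓞 F)) else T1)).filter
      fun x => Φ x ≠ 0).card = ∏ v ∈ R, (Ideal.absNorm v.asIdeal - 1) := by
    rw [← h3_count hp hA h1]
    congr 1
    exact Finset.filter_congr fun x _ => hΦ3 x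
  have e6 := h3_sign (C := C) hp hG.lt hχ.abv
  rw [Fintype.card_fin] at e3 e4
  rw [e5] at e3
  rw [e1, e2]
  refine ⟨?_, e4⟩
  obtain ⟨S0, hS0⟩ : ∃ S0 : C, S0 = ∑ b ∈ Fintype.piFinset (fun k : Fin (m + 1) => if k ∈ I then T2 else T1),
    H (ub p I b) := ⟨_, rfl⟩
  obtain ⟨A, hAd⟩ : ∃ A : C, A = ∑ a ∈ Fintype.piFinset (fun _ : Fin (m + 1) => T2), Φ a * H a := ⟨_, rfl⟩
  rw [← hS0] at e3 e4 ⊢
  rw [← hAd] at e3 ⊢
  have hq : 0 < ‖(p : C)‖ ^ (I.card + (m + 1)) := pow_pos hp0 _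
  have h3 : A - (-1) ^ R.card * S0 = (A - ((∏ v ∈ R, (Ideal.absNorm v.asIdeal - 1) : ℕ) : C) * S0) +
      (((∏ v ∈ R, (Ideal.absNorm v.asIdeal - 1) : ℕ) : C) - (-1) ^ R.card) * S0 := by ring
  rw [h3]
  refine lt_of_le_of_lt (IsUltrametricDist.norm_add_le_max _ _) (max_lt e3 ?_)
  rw [norm_mul]
  calc ‖((∏ v ∈ R, (Ideal.absNorm v.asIdeal - 1) : ℕ) : C) - (-1) ^ R.card‖ * ‖S0‖ ≤
      ‖((∏ v ∈ R, (Ideal.absNorm v.asIdeal - 1) : ℕ) : C) - (-1) ^ R.card‖ *
        ‖(p : C)‖ ^ (I.card + (m + 1)) := mul_le_mul_of_nonneg_left e4 (norm_nonneg _)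
    _ < 1 * ‖(p : C)‖ ^ (I.card + (m + 1)) := mul_lt_mul_of_pos_right e6 hq
    _ = ‖(p : C)‖ ^ (I.card + (m + 1)) := one_mul _

end SSR
end
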