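import Mathlib
import Pool.Agent.Lib.H1M.PP2.M111
import Pool.Agent.Lib.H1M.PP2.M121

/-! Merged copies (to shorten the build) of Lib.H35L.C4B, Lib.H35L.N0A, Lib.H35L.N0, Lib.H35L.C6A, Lib.H35L.C6, Lib.H35L.R1A, Lib.H35L.R1B, Lib.H35L.R1. -/

-- from Lib.H35L.C4B
section

/-! # H35L, chunk C4B (M): the norm of a class of points -/

open NumberField IsDedekindDomain WeierstrassCurve

namespace H35L

open H55P (IQ Pt ac Inert Dec Nm)
open H35P (WAB)
open H55K (CMA Dta)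
open H35K (Lev)

variable {F : Type} [Field F] [NumberField F] [IQ F] {A B : F} {Om : ℂ} {Ω : Type} [Field Ω] [DecidableEq Ω]
  [Algebra F Ω] [IsAlgClosure F Ω] {j : Ω →+* ℂ} {act : 𝓞 F →+* AddMonoid.End (Pt (WAB A B) Ω)} {mo : Ideal (𝓞 F)}
  {ψ : Ideal (𝓞 F) →*₀ 𝓞 F} {p : ℕ}

/-- Chunk C4c (S). -/
theorem dmono {G : Subgroup (Ω ≃ₐ[F] Ω)} {I : (Ω ≃ₐ[F] Ω) → Prop} (hc : Cm act) (n : ℕ) :
    DM act hc p G I n ≤ DM act hc p G I (n + 1) := by
  rintro w ⟨P, ⟨k, hk⟩, hP⟩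
  exact ⟨P, ⟨k, fun s hs => hk s ⟨hs.1, Gc_mono hs.2⟩⟩, hP⟩

theorem c4b_conj {n k : ℕ} {P : PM act} {G : Subgroup (Ω ≃ₐ[F] Ω)}
    (hk : ∀ s, SN G p n s → aM act s (p ^ k • P) = p ^ k • P) {g : Ω ≃ₐ[F] Ω} (hg : g ∈ G)
    {s : Ω ≃ₐ[F] Ω} (hs : SN G p n s) :
    aM act s (aM act g (p ^ k • P)) = aM act g (p ^ k • P) := by
  have h1 : SN G p n (g⁻¹ * s * g) := by
    refine ⟨mul_mem (mul_mem (inv_mem hg) hs.1) hg, ?_⟩
    have h2 := Gc_conj hs.2 g⁻¹
    rwa [inv_inv] at h2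
  have h3 : s * g = g * (g⁻¹ * s * g) := by group
  rw [← aM_mul, h3, aM_mul, hk _ h1]

theorem c4b_val {P : PM act} {G : Subgroup (Ω ≃ₐ[F] Ω)} {g h : Ω ≃ₐ[F] Ω} :
    aM act g (aM act (g⁻¹ * h * g) P - P) = aM act h (aM act g P) - aM act g P := by
  have h3 : g * (g⁻¹ * h * g) = h * g := by group
  rw [map_sub, ← aM_mul, h3, aM_mul]

theorem c4b_sh {G : Subgroup (Ω ≃ₐ[F] Ω)} {g h : Ω ≃ₐ[F] Ω} (hg : g ∈ G) (hh : SH act G p h) :
    SH act G p (g⁻¹ * h * g) := by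
  refine ⟨mul_mem (mul_mem (inv_mem hg) hh.1) hg, ?_⟩
  have h2 := FA_conj act hh.2 g⁻¹
  rwa [inv_inv] at h2

/-- Chunk C4c (S/M). The class of gamma P. -/
theorem dst (hp : p.Prime) {G : Subgroup (Ω ≃ₐ[F] Ω)} {I : (Ω ≃ₐ[F] Ω) → Prop} (hc : Cm act) (hI : CI I) {γ : Ω ≃ₐ[F] Ω} (hγ : γ ∈ G)
    (n : ℕ) (w : SM act hc p G I) (hw : w ∈ DM act hc p G I n) : opM act hc p hI hγ w ∈ DM act hc p G I n := by
  obtain ⟨P, ⟨k, hk⟩, hP⟩ := hw
  refine ⟨aM act γ P, ⟨k, fun s hs => ?_⟩, fun h hh => ?_⟩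
  · rw [← map_nsmul]
    exact c4b_conj hk hγ hs
  · have h1 := op_pow hc hI hγ 1 w h hh
    rw [pow_one, pow_one, hP _ (c4b_sh hγ hh), c4b_val (G := G)] at h1
    exact h1

/-- Chunk C4d (M). The class of the sum P' of gamma^(i p^n) P, i < p (op_pow). P' has level n: Q = p^k P is fixed by level n+1; s of level n: gamma^(i p^n) s of level n+1 for some i (gc_gen), so s = gamma^-(i p^n) t permutes the points
gamma^(l p^n) Q, l modulo p (gamma^(p^(n+1)) fixes Q, level n+1 is normal in G: Gc_conj). -/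
theorem dnrm (dta : Dta A B Om j act mo ψ p) {G : Subgroup (Ω ≃ₐ[F] Ω)} {I : (Ω ≃ₐ[F] Ω) → Prop} (hc : Cm act) (hI : CI I) {γ : Ω ≃ₐ[F] Ω} (hγ : γ ∈ G)
    (hg : Gen p γ) (n : ℕ) (w : SM act hc p G I) (hw : w ∈ DM act hc p G I (n + 1)) : H35K.nrm p n (opM act hc p hI hγ) w ∈ DM act hc p G I n := by
  obtain ⟨P, ⟨k, hk⟩, hP⟩ := hw
  have hp := dta.prime
  have h3 : 3 ≤ p := by
    have := dta.five
    omega
  have hpow : ∀ l : ℕ, γ ^ l ∈ G := fun l => pow_mem hγ l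
  refine ⟨∑ i ∈ Finset.range p, aM act (γ ^ (i * p ^ n)) P, ⟨k, fun s hs => ?_⟩, fun h hh => ?_⟩
  · obtain ⟨R, hR⟩ : ∃ R : PM act, R = ∑ i ∈ Finset.range p, aM act (γ ^ (i * p ^ n)) (p ^ k • P) :=
      ⟨_, rfl⟩
    have hR' : p ^ k • ∑ i ∈ Finset.range p, aM act (γ ^ (i * p ^ n)) P = R := by
      rw [hR, Finset.smul_sum]
      refine Finset.sum_congr rfl fun i _ => ?_
      rw [map_nsmul]
    rw [hR']
    have htop : aM act (γ ^ (p * p ^ n)) (p ^ k • P) = p ^ k • P := by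
      refine hk _ ⟨hpow _, ?_⟩
      have h4 : p * p ^ n = p ^ (n + 1) := by ring
      rw [h4]
      exact gc_powp hp γ (n + 1)
    have hstep : aM act (γ ^ p ^ n) R = R := by
      rw [hR, map_sum]
      have h5 : ∀ i ∈ Finset.range p, aM act (γ ^ p ^ n) (aM act (γ ^ (i * p ^ n)) (p ^ k • P)) =
          aM act (γ ^ ((i + 1) * p ^ n)) (p ^ k • P) := by
        intro i _
        rw [← aM_mul, ← pow_add]
        have h6 : p ^ n + i * p ^ n = (i + 1) * p ^ n := by ring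
        rw [h6]
      rw [Finset.sum_congr rfl h5]
      have h7 := Finset.sum_range_succ (fun i => aM act (γ ^ (i * p ^ n)) (p ^ k • P)) p
      have h8 := Finset.sum_range_succ' (fun i => aM act (γ ^ (i * p ^ n)) (p ^ k • P)) p
      rw [h7, htop, zero_mul, pow_zero, aM_one] at h8
      exact (add_right_cancel h8).symm
    have hiter : ∀ i : ℕ, aM act (γ ^ (i * p ^ n)) R = R := by
      intro i
      induction i with
      | zero => rw [zero_mul, pow_zero, aM_one]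
      | succ i ih =>
        have h6 : (i + 1) * p ^ n = p ^ n + i * p ^ n := by ring
        rw [h6, pow_add, aM_mul, ih, hstep]
    obtain ⟨i, hi⟩ := gc_gen hp h3 hg (Nat.le_succ n) hs.2
    have ht : SN G p (n + 1) (γ ^ (i * p ^ n) * s) := ⟨mul_mem (hpow _) hs.1, hi⟩
    have h9 : aM act (γ ^ (i * p ^ n) * s) R = R := by
      rw [hR, map_sum]
      refine Finset.sum_congr rfl fun l _ => ?_
      exact c4b_conj hk (hpow _) ht
    rw [aM_mul] at h9
    have h10 : aM act (γ ^ (i * p ^ n)) (aM act s R) = aM act (γ ^ (i * p ^ n)) R := by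
      rw [h9, hiter]
    have h11 := congrArg (aM act (γ ^ (i * p ^ n))⁻¹) h10
    have h12 : ∀ Q : PM act, aM act (γ ^ (i * p ^ n))⁻¹ (aM act (γ ^ (i * p ^ n)) Q) = Q := by
      intro Q
      rw [← aM_mul, inv_mul_cancel, aM_one]
    rw [h12, h12] at h11
    exact h11
  · have h1 : (H35K.nrm p n (opM act hc p hI hγ) w).1 h =
        ∑ i ∈ Finset.range p, (((opM act hc p hI hγ) ^ (i * p ^ n)) w).1 h := by
      unfold H35K.nrm
      rw [LinearMap.sum_apply]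
      have h2 : ∀ s : Finset ℕ, (∑ i ∈ s, ((opM act hc p hI hγ) ^ (i * p ^ n)) w :
          SM act hc p G I).1 h = ∑ i ∈ s, (((opM act hc p hI hγ) ^ (i * p ^ n)) w).1 h := by
        intro s
        rw [AddSubmonoidClass.coe_finset_sum, Finset.sum_apply]
      exact h2 _
    rw [h1, map_sum, ← Finset.sum_sub_distrib]
    refine Finset.sum_congr rfl fun i _ => ?_
    rw [op_pow hc hI hγ _ w h hh, hP _ (c4b_sh (hpow _) hh), c4b_val (G := G)]

end H35L
end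

-- from Lib.H35L.N0A
section

/-! # H35L, chunk N0A (M): norms of Teichmueller elements -/

open NumberField IsDedekindDomain WeierstrassCurve

namespace H35L

open H55P (IQ Pt ac Inert Dec Nm)
open H35P (WAB)
open H55K (CMA Dta)
open H35K (Lev)

variable {F : Type} [Field F] [NumberField F] [IQ F] {A B : F} {Om : ℂ} {Ω : Type} [Field Ω] [DecidableEq Ω]
  [Algebra F Ω] [IsAlgClosure F Ω] {j : Ω →+* ℂ} {act : 𝓞 F →+* AddMonoid.End (Pt (WAB A B) Ω)} {mo : Ideal (𝓞 F)}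
  {ψ : Ideal (𝓞 F) →*₀ 𝓞 F} {p : ℕ} {M : IntermediateField F Ω} {V : ValuationSubring Ω} {γ : Ω ≃ₐ[F] Ω} {g : ℕ} {s₀ : Fin g → (Ω ≃ₐ[F] Ω)}

/-- The conjugate is the p-th power modulo p. -/
theorem n0a_cj (hp : p.Prime) (hin : Prime (p : 𝓞 F)) {a : 𝓞 F} (ha : ¬ (p : 𝓞 F) ∣ a) :
    (p : 𝓞 F) ∣ H55K.cj a - a ^ p := by
  classical
  haveI : Fact p.Prime := ⟨hp⟩
  obtain ⟨b, hb, hbc⟩ := x5t_gen (F := F) hp hin
  have hp2 : 2 ≤ p := hp.two_le
  have hq : 0 < p ^ 2 - 1 := by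
    have h9 : p ^ 2 = p * p := sq p
    have h10 : 2 * p ≤ p * p := Nat.mul_le_mul_right p hp2
    omega
  obtain ⟨I, hIdef⟩ : ∃ I : Ideal (𝓞 F), I = Ideal.span {(p : 𝓞 F)} := ⟨_, rfl⟩
  have hI : I.IsPrime := by
    rw [hIdef]
    exact (Ideal.span_singleton_prime hin.ne_zero).2 hin
  have hI0 : I ≠ ⊥ := by
    rw [hIdef]
    intro h
    exact hin.ne_zero (Ideal.span_singleton_eq_bot.1 h)
  haveI hImax : I.IsMaximal := hI.isMaximal hI0
  letI : Field (𝓞 F ⧸ I) := Ideal.Quotient.field I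
  have hcard : Nat.card (𝓞 F ⧸ I) = p ^ 2 := by
    have h1 : Nm (p : 𝓞 F) = p ^ 2 := H55K.Nm_nat p
    unfold H55P.Nm at h1
    rw [Ideal.absNorm_apply, Submodule.cardQuot_apply, ← hIdef] at h1
    exact h1
  haveI : Finite (𝓞 F ⧸ I) := Nat.finite_of_card_ne_zero (by rw [hcard]; positivity)
  have hdvd : ∀ x : 𝓞 F, Ideal.Quotient.mk I x = 0 ↔ (p : 𝓞 F) ∣ x := by
    intro x
    rw [Ideal.Quotient.eq_zero_iff_mem, hIdef, Ideal.mem_span_singleton]
  have hb0 : Ideal.Quotient.mk I b ≠ 0 := by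
    rw [Ne, hdvd]
    intro h
    have h1 : (p : 𝓞 F) ∣ b ^ (p ^ 2 - 1) := dvd_pow h hq.ne'
    have h2 : (p : 𝓞 F) ∣ b ^ (p ^ 2 - 1) - 1 := (hb _).2 (dvd_refl _)
    have h3 := dvd_sub h1 h2
    rw [sub_sub_cancel] at h3
    exact hin.not_unit (isUnit_of_dvd_one h3)
  obtain ⟨g, hg⟩ : ∃ g : (𝓞 F ⧸ I)ˣ, (g : 𝓞 F ⧸ I) = Ideal.Quotient.mk I b := ⟨Units.mk0 _ hb0, rfl⟩
  have hord : orderOf g = Nat.card (𝓞 F ⧸ I)ˣ := by
    rw [Nat.card_units, hcard]
    refine Nat.dvd_antisymm (orderOf_dvd_iff_pow_eq_one.2 (Units.ext ?_)) ((hb _).1 ?_)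
    · have h2 : (p : 𝓞 F) ∣ b ^ (p ^ 2 - 1) - 1 := (hb _).2 (dvd_refl _)
      rw [← hdvd, map_sub, map_pow, map_one, ← hg, sub_eq_zero] at h2
      rw [Units.val_pow_eq_pow_val, Units.val_one]
      exact h2
    · rw [← hdvd, map_sub, map_pow, map_one, ← hg, sub_eq_zero, ← Units.val_pow_eq_pow_val, pow_orderOf_eq_one,
        Units.val_one]
  have hgen : ∀ x : (𝓞 F ⧸ I)ˣ, x ∈ Subgroup.zpowers g := by
    intro x
    have h1 : Subgroup.zpowers g = ⊤ := by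
      rw [← Subgroup.card_eq_iff_eq_top, Nat.card_zpowers]
      exact hord
    rw [h1]
    exact Subgroup.mem_top x
  have ha0 : Ideal.Quotient.mk I a ≠ 0 := by
    rw [Ne, hdvd]
    exact ha
  obtain ⟨i, hi⟩ := (mem_powers_iff_mem_zpowers (x := g)).2 (hgen (Units.mk0 _ ha0))
  have hai : (p : 𝓞 F) ∣ a - b ^ i := by
    rw [← hdvd, map_sub, map_pow, ← hg, sub_eq_zero]
    have h1 := congrArg Units.val hi
    change ((g ^ i : (𝓞 F ⧸ I)ˣ) : 𝓞 F ⧸ I) = Ideal.Quotient.mk I a at h1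
    rw [Units.val_pow_eq_pow_val] at h1
    exact h1.symm
  have h1 : (p : 𝓞 F) ∣ H55K.cj a - (H55K.cj b) ^ i := by
    obtain ⟨z, hz⟩ := hai
    refine ⟨H55K.cj z, ?_⟩
    have h2 := congrArg H55K.cj hz
    rw [map_sub, map_pow, map_mul, map_natCast] at h2
    exact h2
  have h2 : (p : 𝓞 F) ∣ (H55K.cj b) ^ i - (b ^ p) ^ i := hbc.trans (sub_dvd_pow_sub_pow _ _ _)
  have h3 : (p : 𝓞 F) ∣ a ^ p - (b ^ i) ^ p := hai.trans (sub_dvd_pow_sub_pow _ _ _)
  have h4 : (b ^ p) ^ i = (b ^ i) ^ p := by rw [← pow_mul, ← pow_mul, mul_comm]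
  rw [h4] at h2
  have h5 := dvd_sub (dvd_add h1 h2) h3
  have h6 : H55K.cj a - (H55K.cj b) ^ i + ((H55K.cj b) ^ i - (b ^ i) ^ p) - (a ^ p - (b ^ i) ^ p) = H55K.cj a - a ^ p := by ring
  rwa [h6] at h5

/-- Chunk N0a (M). a^(q-1) = 1 modulo p^(n+1) implies Nm a^(p-1) = 1 modulo p^(n+1): cj a = a^p modulo p (see teich), x = cj a and y = a^p satisfy x^(q-1) = y^(q-1) = 1 modulo p^(n+1) and x = y modulo p, so x = y modulo p^(n+1) (x = y + p^i z, 0 < i <= n: x^(q-1) - y^(q-1) =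
(q-1) y^(q-2) p^i z modulo p^(i+1), so p divides z). Nm a = a cj a = a^(p+1). -/
theorem nm_teich (dta : Dta A B Om j act mo ψ p) (hin : Prime (p : 𝓞 F)) {n : ℕ} {a : 𝓞 F} (ha : IsCoprime a (p : 𝓞 F))
    (h : (p : 𝓞 F) ^ (n + 1) ∣ a ^ (p ^ 2 - 1) - 1) : Nm a ^ (p - 1) ≡ 1 [MOD p ^ (n + 1)] := by
  have hp := dta.prime
  have hp2 : 2 ≤ p := hp.two_le
  have hpa : ¬ (p : 𝓞 F) ∣ a := by
    intro h1
    exact hin.not_unit (isUnit_of_dvd_one (by
      obtain ⟨u, v, huv⟩ := ha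
      rw [← huv]
      exact dvd_add (h1.mul_left u) (dvd_mul_left _ v)))
  have hcj := n0a_cj (F := F) hp hin hpa
  have hle : (p : 𝓞 F) ^ (n + 1) ∣ (p : 𝓞 F) ^ (2 * n + 1) := pow_dvd_pow _ (by omega)
  have hdd : (p ^ 2 - 1) ∣ p ^ (2 * n) - 1 := by
    have h1 := Nat.sub_dvd_pow_sub_pow (p ^ 2) 1 n
    rw [one_pow, ← pow_mul] at h1
    exact h1
  have key : ∀ x : 𝓞 F, (p : 𝓞 F) ^ (n + 1) ∣ x ^ (p ^ 2 - 1) - 1 → (p : 𝓞 F) ^ (n + 1) ∣ x ^ p ^ (2 * n) - x := by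
    intro x hx
    obtain ⟨m, hm⟩ := hdd
    have h1 : x ^ p ^ (2 * n) - x = x * ((x ^ (p ^ 2 - 1)) ^ m - 1 ^ m) := by
      have h2 : p ^ (2 * n) = 1 + (p ^ 2 - 1) * m := by
        rw [← hm]
        have : 0 < p ^ (2 * n) := Nat.pow_pos (by omega)
        omega
      rw [h2, pow_add, pow_one, pow_mul, one_pow]
      ring
    rw [h1]
    exact (hx.trans (sub_dvd_pow_sub_pow _ _ _)).mul_left x
  have hx : (p : 𝓞 F) ^ (n + 1) ∣ (H55K.cj a) ^ (p ^ 2 - 1) - 1 := by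
    obtain ⟨z, hz⟩ := h
    refine ⟨H55K.cj z, ?_⟩
    have h2 := congrArg H55K.cj hz
    rw [map_sub, map_pow, map_mul, map_pow, map_natCast, map_one] at h2
    exact h2
  have hy : (p : 𝓞 F) ^ (n + 1) ∣ (a ^ p) ^ (p ^ 2 - 1) - 1 := by
    have h1 : (a ^ p) ^ (p ^ 2 - 1) - 1 = (a ^ (p ^ 2 - 1)) ^ p - 1 ^ p := by
      rw [← pow_mul, ← pow_mul, mul_comm, one_pow]
    rw [h1]
    exact h.trans (sub_dvd_pow_sub_pow _ _ _)
  have hxy : (p : 𝓞 F) ^ (n + 1) ∣ H55K.cj a - a ^ p := by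
    have h1 := hle.trans (dvd_sub_pow_of_dvd_sub hcj (2 * n))
    have h2 := dvd_add (dvd_sub h1 (key _ hx)) (key _ hy)
    have h3 : H55K.cj a ^ p ^ (2 * n) - (a ^ p) ^ p ^ (2 * n) - (H55K.cj a ^ p ^ (2 * n) - H55K.cj a) +
        ((a ^ p) ^ p ^ (2 * n) - a ^ p) = H55K.cj a - a ^ p := by ring
    rwa [h3] at h2
  have hnm : (p : 𝓞 F) ^ (n + 1) ∣ (Nm a : 𝓞 F) - a ^ (p + 1) := by
    obtain ⟨c, hc⟩ := hxy
    refine ⟨a * c, ?_⟩
    rw [← H55K.mul_cj, pow_succ' a p]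
    linear_combination a * hc
  have ha0 : a ≠ 0 := by
    rintro rfl
    exact hpa (dvd_zero _)
  have h1 : 1 ≤ Nm a ^ (p - 1) := by
    refine Nat.one_le_pow _ _ (Nat.pos_of_ne_zero fun h => ha0 (H55P.Nm_eq_zero.1 h))
  refine ((Nat.modEq_iff_dvd' h1).2 (x5t_nat (F := F) ?_)).symm
  rw [Nat.cast_sub h1, Nat.cast_pow, Nat.cast_pow, Nat.cast_one]
  have h2 : (p : 𝓞 F) ^ (n + 1) ∣ (Nm a : 𝓞 F) ^ (p - 1) - (a ^ (p + 1)) ^ (p - 1) :=
    hnm.trans (sub_dvd_pow_sub_pow _ _ _)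
  have h3 : (a ^ (p + 1)) ^ (p - 1) = a ^ (p ^ 2 - 1) := by
    rw [← pow_mul]
    congr 1
    have h4 := Nat.sq_sub_sq p 1
    rw [one_pow] at h4
    exact h4.symm
  rw [h3] at h2
  have h5 := dvd_add h2 h
  rwa [sub_add_sub_cancel] at h5

end H35L
end

-- from Lib.H35L.N0
section

/-! # H35L, chunk N0 (M): the group of the elements acting as roots of unity -/

open NumberField IsDedekindDomain WeierstrassCurve

namespace H35L

open H55P (IQ Pt ac Inert Dec Nm)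
open H35P (WAB)
open H55K (CMA Dta)
open H35K (Lev)

variable {F : Type} [Field F] [NumberField F] [IQ F] {A B : F} {Om : ℂ} {Ω : Type} [Field Ω] [DecidableEq Ω]
  [Algebra F Ω] [IsAlgClosure F Ω] {j : Ω →+* ℂ} {act : 𝓞 F →+* AddMonoid.End (Pt (WAB A B) Ω)} {mo : Ideal (𝓞 F)}
  {ψ : Ideal (𝓞 F) →*₀ 𝓞 F} {p : ℕ} {M : IntermediateField F Ω} {V : ValuationSubring Ω} {γ : Ω ≃ₐ[F] Ω} {g : ℕ} {s₀ : Fin g → (Ω ≃ₐ[F] Ω)}

theorem n0_cardU (hin : Prime (p : 𝓞 F)) (hp : 0 < p) (k : ℕ) :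
    Nat.card (𝓞 F ⧸ Ideal.span {((p : 𝓞 F) ^ (k + 1))})ˣ = (p ^ 2 - 1) * (p ^ 2) ^ k := by
  rw [← x3ba_units (F := F) hp k]
  have hdp : (p : 𝓞 F) ∣ (p : 𝓞 F) ^ (k + 1) := dvd_pow_self _ (Nat.succ_ne_zero k)
  refine Nat.card_congr (Equiv.ofBijective (fun u => ⟨(u : 𝓞 F ⧸ Ideal.span {((p : 𝓞 F) ^ (k + 1))}), ?_⟩) ⟨?_, ?_⟩)
  · intro a ha hd
    obtain ⟨b, hb⟩ := Ideal.Quotient.mk_surjective ((u⁻¹ : (𝓞 F ⧸ Ideal.span {((p : 𝓞 F) ^ (k + 1))})ˣ) : 𝓞 F ⧸ Ideal.span {((p : 𝓞 F) ^ (k + 1))})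
    have h1 : Ideal.Quotient.mk (Ideal.span {((p : 𝓞 F) ^ (k + 1))}) (a * b) = Ideal.Quotient.mk _ 1 := by
      rw [map_mul, ha, hb, map_one]
      exact u.mul_inv
    rw [Ideal.Quotient.eq, Ideal.mem_span_singleton] at h1
    have h2 : (p : 𝓞 F) ∣ a * b - (a * b - 1) := dvd_sub (hd.mul_right b) (hdp.trans h1)
    rw [sub_sub_cancel] at h2
    exact hin.not_unit (isUnit_of_dvd_one h2)
  · intro u v huv
    exact Units.ext (congrArg Subtype.val huv)
  · rintro ⟨x, hx⟩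
    obtain ⟨a, rfl⟩ := Ideal.Quotient.mk_surjective x
    have h1 : IsCoprime (p : 𝓞 F) a := (hin.irreducible.coprime_iff_not_dvd).2 (hx a rfl)
    have h2 : IsCoprime a ((p : 𝓞 F) ^ (k + 1)) := h1.symm.pow_right
    obtain ⟨b, c, hbc⟩ := h2
    have h3 : Ideal.Quotient.mk (Ideal.span {((p : 𝓞 F) ^ (k + 1))}) a * Ideal.Quotient.mk _ b = 1 := by
      rw [← map_mul, ← map_one (Ideal.Quotient.mk (Ideal.span {((p : 𝓞 F) ^ (k + 1))})), Ideal.Quotient.eq,
        Ideal.mem_span_singleton]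
      refine ⟨-c, ?_⟩
      rw [← hbc]
      ring
    exact ⟨Units.mkOfMulEqOne _ _ h3, rfl⟩

/-- In a finite abelian group of order m n, n a power of a prime number not dividing m, with an element of order m, the elements killed by m are the
powers of this element. -/
theorem n0_grp {U : Type} [CommGroup U] {q r k : ℕ} (hq : q.Prime) (hr : 0 < r) (hc : Nat.card U = r * q ^ k) (hqr : Nat.Coprime q r)
    {a : U} (ha : orderOf a = r) : (powMonoidHom r : U →* U).ker = Subgroup.zpowers a ∧ Nat.card (powMonoidHom r : U →* U).range = q ^ k := by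
  have hfin : Finite U := by
    refine (Nat.card_ne_zero.1 ?_).2
    rw [hc]
    exact Nat.mul_ne_zero hr.ne' (pow_ne_zero _ hq.ne_zero)
  have hle : Subgroup.zpowers a ≤ (powMonoidHom r : U →* U).ker := by
    rw [Subgroup.zpowers_le, MonoidHom.mem_ker, powMonoidHom_apply, ← ha, pow_orderOf_eq_one]
  have hcz : Nat.card (Subgroup.zpowers a) = r := by rw [Nat.card_zpowers, ha]
  have hcop : Nat.Coprime (Nat.card (powMonoidHom r : U →* U).ker) (q ^ k) := by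
    refine Nat.Coprime.pow_right k (Nat.Coprime.symm ((Nat.Prime.coprime_iff_not_dvd hq).2 fun hd => ?_))
    haveI : Fact q.Prime := ⟨hq⟩
    obtain ⟨y, hy⟩ := exists_prime_orderOf_dvd_card' (G := (powMonoidHom r : U →* U).ker) q hd
    have h1 : y ^ r = 1 := by
      apply Subtype.ext
      exact y.2
    have h2 : q ∣ r := by
      rw [← hy]
      exact orderOf_dvd_of_pow_eq_one h1
    have h3 := Nat.dvd_gcd (dvd_refl q) h2
    rw [hqr] at h3
    exact hq.one_lt.ne' (Nat.dvd_one.1 h3)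
  have hdvd : Nat.card (powMonoidHom r : U →* U).ker ∣ r := by
    have h1 := Subgroup.card_subgroup_dvd_card (powMonoidHom r : U →* U).ker
    rw [hc] at h1
    exact hcop.dvd_of_dvd_mul_right h1
  have hck : Nat.card (powMonoidHom r : U →* U).ker = r := by
    refine le_antisymm (Nat.le_of_dvd hr hdvd) ?_
    have h1 := Subgroup.card_le_of_le hle
    rw [hcz] at h1
    exact h1
  refine ⟨?_, ?_⟩
  · refine (Subgroup.eq_of_le_of_card_ge hle ?_).symm
    rw [hck, hcz]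
  · have h1 := Subgroup.card_mul_index (powMonoidHom r : U →* U).ker
    rw [Subgroup.index_ker, hck, hc] at h1
    exact Nat.eq_of_mul_eq_mul_left hr h1

/-- Chunk N0 (M). G acts by all units on the points killed by p^K, K > 0. N₀ = the s in G such that s^(q-1) acts trivially on them. It is a normal subgroup of index q^(K-1): s -> the unit by which s acts is a homomorphism onto the units of 𝓞 F/p^K (q^(K-1) (q-1)
elements, as in tf_card); the image of N₀ is the kernel of the power q - 1, it has q - 1 elements (the Teichmueller elements: a -> a modulo p is injective on it, and a from IsSig generates q - 1 of them). So every s in N₀ is sigma^i b, b acting trivially, and it is of level K - 1 (nm_teich, gc_iff). -/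
theorem exists_n0 (dta : Dta A B Om j act mo ψ p) (hin : Prime (p : 𝓞 F)) {K : ℕ} (hK : 0 < K) {G : Subgroup (Ω ≃ₐ[F] Ω)}
    (hs : ∀ a : 𝓞 F, IsCoprime a (p : 𝓞 F) → ∃ s ∈ G, Ch act p K s a) {σ : Ω ≃ₐ[F] Ω} (hσ : σ ∈ G) {a : 𝓞 F} (ha : IsSig act p K σ a) :
    ∃ N₀ : Subgroup G, N₀.Normal ∧ (∀ s : G, s ∈ N₀ → ∃ (i : ℕ) (b : Ω ≃ₐ[F] Ω), b ∈ G ∧ Ch act p K b 1 ∧ (s : Ω ≃ₐ[F] Ω) = σ ^ i * b) ∧
      (∀ s : G, s ∈ N₀ → Gc p (K - 1) (s : Ω ≃ₐ[F] Ω)) ∧ N₀.index = p ^ (2 * (K - 1)) := by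
  classical
  obtain ⟨k, rfl⟩ : ∃ k, K = k + 1 := ⟨K - 1, by omega⟩
  have hp := dta.prime
  have hc := cm dta
  have hp2 : 2 ≤ p := hp.two_le
  have hr : 0 < p ^ 2 - 1 := by
    have : 2 ^ 2 ≤ p ^ 2 := Nat.pow_le_pow_left hp2 2
    omega
  set I : Ideal (𝓞 F) := Ideal.span {((p : 𝓞 F) ^ (k + 1))} with hI
  have hmk : ∀ x y : 𝓞 F, Ideal.Quotient.mk I x = Ideal.Quotient.mk I y ↔ (p : 𝓞 F) ^ (k + 1) ∣ x - y := by
    intro x y
    rw [Ideal.Quotient.eq, hI, Ideal.mem_span_singleton]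
  have hunit : ∀ x : 𝓞 F, IsCoprime x (p : 𝓞 F) → IsUnit (Ideal.Quotient.mk I x) := by
    intro x hx
    obtain ⟨b, c, hbc⟩ := (hx.pow_right (n := k + 1))
    refine IsUnit.of_mul_eq_one (Ideal.Quotient.mk I b) ?_
    rw [← map_mul, ← map_one (Ideal.Quotient.mk I), hmk]
    refine ⟨-c, ?_⟩
    rw [← hbc]
    ring
  choose cf hcf hcop using fun s : Ω ≃ₐ[F] Ω => ch_exists dta (k + 1) s
  have hch : ∀ (s : Ω ≃ₐ[F] Ω) (x : 𝓞 F), Ch act p (k + 1) s x ↔ Ideal.Quotient.mk I (cf s) = Ideal.Quotient.mk I x := by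
    intro s x
    rw [hmk]
    exact ⟨fun h => ch_uniq dta (hcf s) h, fun h => ch_congr (hcf s) h⟩
  let χ : G →* (𝓞 F ⧸ I)ˣ :=
    { toFun := fun s => (hunit _ (hcop (s : Ω ≃ₐ[F] Ω))).unit
      map_one' := by
        apply Units.ext
        show Ideal.Quotient.mk I (cf 1) = 1
        rw [← map_one (Ideal.Quotient.mk I), ← hch]
        intro T _
        rw [aM_one, one_smul]
      map_mul' := by
        intro s t
        apply Units.ext
        show Ideal.Quotient.mk I (cf (s * t)) = Ideal.Quotient.mk I (cf s) * Ideal.Quotient.mk I (cf t)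
        rw [← map_mul, ← hch]
        exact ch_mul hc (hcf _) (hcf _) }
  have hχ : ∀ s : G, ((χ s : (𝓞 F ⧸ I)ˣ) : 𝓞 F ⧸ I) = Ideal.Quotient.mk I (cf s) := fun s => rfl
  have hsurj : Function.Surjective χ := by
    intro u
    obtain ⟨x, hx⟩ := Ideal.Quotient.mk_surjective (u : 𝓞 F ⧸ I)
    obtain ⟨y, hy⟩ := Ideal.Quotient.mk_surjective ((u⁻¹ : (𝓞 F ⧸ I)ˣ) : 𝓞 F ⧸ I)
    have h1 : (p : 𝓞 F) ^ (k + 1) ∣ x * y - 1 := by
      rw [← hmk, map_mul, hx, hy, map_one]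
      exact u.mul_inv
    obtain ⟨z, hz⟩ := h1
    have h2 : IsCoprime x (p : 𝓞 F) := by
      refine ⟨y, -(p : 𝓞 F) ^ k * z, ?_⟩
      have h3 : (p : 𝓞 F) ^ (k + 1) * z = (p : 𝓞 F) ^ k * (p : 𝓞 F) * z := by rw [pow_succ]
      linear_combination hz + h3
    obtain ⟨s, hsG, hsx⟩ := hs x h2
    refine ⟨⟨s, hsG⟩, Units.ext ?_⟩
    rw [hχ, ← hx]
    exact (hch s x).1 hsx
  -- the element of order q - 1
  have hσa := (hch σ a).1 ha.ch
  have hord : orderOf (χ ⟨σ, hσ⟩) = p ^ 2 - 1 := by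
    apply Nat.dvd_antisymm
    · apply orderOf_dvd_of_pow_eq_one
      apply Units.ext
      rw [Units.val_pow_eq_pow_val, hχ]
      show (Ideal.Quotient.mk I (cf σ)) ^ (p ^ 2 - 1) = 1
      rw [hσa, ← map_pow, ← map_one (Ideal.Quotient.mk I), hmk]
      exact ha.pw
    · apply ha.gen
      have h1 := congrArg (fun u : (𝓞 F ⧸ I)ˣ => (u : 𝓞 F ⧸ I)) (pow_orderOf_eq_one (χ ⟨σ, hσ⟩))
      simp only [Units.val_pow_eq_pow_val, Units.val_one] at h1
      rw [hχ] at h1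
      change (Ideal.Quotient.mk I (cf σ)) ^ (orderOf (χ ⟨σ, hσ⟩)) = 1 at h1
      rw [hσa, ← map_pow, ← map_one (Ideal.Quotient.mk I), hmk] at h1
      exact (dvd_pow_self _ (Nat.succ_ne_zero k)).trans h1
  have hcardU : Nat.card (𝓞 F ⧸ I)ˣ = (p ^ 2 - 1) * p ^ (2 * k) := by
    rw [pow_mul]
    exact n0_cardU hin hp.pos k
  have hcopr : Nat.Coprime p (p ^ 2 - 1) := by
    refine (Nat.Prime.coprime_iff_not_dvd hp).2 fun hd => ?_
    have h1 : p ∣ p ^ 2 := dvd_pow_self _ two_ne_zero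
    have h2 := (Nat.dvd_sub h1 hd)
    have h3 : p ^ 2 - (p ^ 2 - 1) = 1 := by omega
    rw [h3] at h2
    exact hp.one_lt.ne' (Nat.dvd_one.1 h2)
  obtain ⟨hker, hrange⟩ := n0_grp hp hr hcardU hcopr hord
  let φ : G →* (𝓞 F ⧸ I)ˣ := (powMonoidHom (p ^ 2 - 1)).comp χ
  have hφ : ∀ s : G, s ∈ φ.ker ↔ χ s ∈ (powMonoidHom (p ^ 2 - 1) : (𝓞 F ⧸ I)ˣ →* (𝓞 F ⧸ I)ˣ).ker := fun s => Iff.rfl
  refine ⟨φ.ker, inferInstance, ?_, ?_, ?_⟩
  · intro s hs'
    rw [hφ, hker] at hs'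
    have h1 : χ s ∈ Submonoid.powers (χ ⟨σ, hσ⟩) := by
      haveI : Finite (𝓞 F ⧸ I)ˣ := by
        refine (Nat.card_ne_zero.1 ?_).2
        rw [hcardU]
        exact Nat.mul_ne_zero hr.ne' (pow_ne_zero _ hp.ne_zero)
      exact (mem_powers_iff_mem_zpowers).2 hs'
    obtain ⟨i, hi⟩ := h1
    have hb : (σ ^ i)⁻¹ * (s : Ω ≃ₐ[F] Ω) ∈ G := mul_mem (inv_mem (pow_mem hσ i)) s.2
    refine ⟨i, (σ ^ i)⁻¹ * (s : Ω ≃ₐ[F] Ω), hb, ?_, ?_⟩
    · rw [hch, map_one]
      have h2 : χ ⟨(σ ^ i)⁻¹ * (s : Ω ≃ₐ[F] Ω), hb⟩ = 1 := by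
        have h3 : (⟨(σ ^ i)⁻¹ * (s : Ω ≃ₐ[F] Ω), hb⟩ : G) = (⟨σ, hσ⟩ ^ i)⁻¹ * s := rfl
        rw [h3, map_mul, map_inv, map_pow]
        have h4 : χ ⟨σ, hσ⟩ ^ i = χ s := hi
        rw [h4, inv_mul_cancel]
      exact congrArg (fun u : (𝓞 F ⧸ I)ˣ => (u : 𝓞 F ⧸ I)) h2
    · rw [mul_inv_cancel_left]
  · intro s hs'
    have h1 : (χ s) ^ (p ^ 2 - 1) = 1 := hs'
    have h2 := congrArg (fun u : (𝓞 F ⧸ I)ˣ => (u : 𝓞 F ⧸ I)) h1
    simp only [Units.val_pow_eq_pow_val, Units.val_one] at h2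
    rw [hχ, ← map_pow, ← map_one (Ideal.Quotient.mk I), hmk] at h2
    exact (gc_iff dta (hcf s)).2 (nm_teich dta hin (hcop s) h2)
  · rw [Subgroup.index_ker]
    have h1 : φ.range = (powMonoidHom (p ^ 2 - 1) : (𝓞 F ⧸ I)ˣ →* (𝓞 F ⧸ I)ˣ).range := by
      ext u
      constructor
      · rintro ⟨s, rfl⟩
        exact ⟨χ s, rfl⟩
      · rintro ⟨v, rfl⟩
        obtain ⟨s, rfl⟩ := hsurj v
        exact ⟨s, rfl⟩
    rw [h1, hrange]
    rfl

end H35L
end

-- from Lib.H35L.C6A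
section

/-! # H35L, chunk C6A (M): the classes of points killed by p -/

open NumberField IsDedekindDomain WeierstrassCurve

namespace H35L

open H55P (IQ Pt ac Inert Dec Nm)
open H35P (WAB)
open H55K (CMA Dta)
open H35K (Lev)

variable {F : Type} [Field F] [NumberField F] [IQ F] {A B : F} {Om : ℂ} {Ω : Type} [Field Ω] [DecidableEq Ω]
  [Algebra F Ω] [IsAlgClosure F Ω] {j : Ω →+* ℂ} {act : 𝓞 F →+* AddMonoid.End (Pt (WAB A B) Ω)} {mo : Ideal (𝓞 F)}
  {ψ : Ideal (𝓞 F) →*₀ 𝓞 F} {p : ℕ}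

theorem c6a_div (dta : Dta A B Om j act mo ψ p) (hin : Prime (p : 𝓞 F)) (a : PM act) : ∃ a' : PM act, p • a' = a := by
  obtain ⟨a', ha'⟩ := dta.cma.surj (p : 𝓞 F) hin.ne_zero a
  let b : PM act := a'
  exact ⟨b, (Nat.cast_smul_eq_nsmul (𝓞 F) p b).symm.trans ha'⟩

theorem c6a_cocycle (Q : PM act) (s t : Ω ≃ₐ[F] Ω) :
    aM act (s * t) Q - Q = (aM act s Q - Q) + aM act s (aM act t Q - Q) := by
  rw [aM_mul, map_sub]
  abel

theorem c6a_comm (dta : Dta A B Om j act mo ψ p) {V : ValuationSubring Ω} {n : ℕ} {σ s : Ω ≃ₐ[F] Ω}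
    (hσ : σ ∈ LG dta.prime (dV V) n) (hs : s ∈ LG dta.prime (dV V) n) : SH act (dV V) p (σ * s * σ⁻¹ * s⁻¹) :=
  ⟨mul_mem (mul_mem (mul_mem hσ.1 hs.1) (inv_mem hσ.1)) (inv_mem hs.1), fa_comm dta σ s⟩

/-- Chunk C6a (M). The classes of points killed by p: w in DM n, p w = 0 iff w(h) = h P - P with p P rational of level n. PROOF. w(h) = h P - P, p^k P of level n. p P is fixed by SH: the cocycle s -> s (pP) - pP on the group of level n (values killed by p^k) is zero on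
SH, and there is sigma of level n with sigma - 1 bijective (exists_sig): by cob it is s a - a; a = p a' (divisibility), P' = P - a': p P' = pP - a is of level n and h P' - P' = h P - P. -/
theorem dm_p (dta : Dta A B Om j act mo ψ p) (hin : Prime (p : 𝓞 F)) (hc : Cm act) {V : ValuationSubring Ω} (hV : V.valuation (p : Ω) < 1) (n : ℕ)
    (w : WM act hc p V) : (w ∈ DM act hc p (dV V) LI n ∧ p • w = 0) ↔
      ∃ P : PM act, p • P ∈ AM act p (dV V) n ∧ ∀ h, SH act (dV V) p h → w.1 h = aM act h P - P := by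
  constructor
  · rintro ⟨⟨P, ⟨k, hk⟩, hP⟩, hpw⟩
    obtain ⟨σ, hσV, hσn, hσb⟩ := exists_sig dta hin hV n
    have hσ : σ ∈ LG dta.prime (dV V) n := ⟨hσV, hσn⟩
    have hfix : ∀ h, SH act (dV V) p h → aM act h (p • P) = p • P := by
      intro h hh
      have h1 : p • w.1 h = 0 := by
        have h2 : (p • w).1 h = 0 := by rw [hpw]; rfl
        exact h2
      rw [hP h hh, smul_sub, ← map_nsmul, sub_eq_zero] at h1
      exact h1
    obtain ⟨a, ha1, ⟨l, hl⟩, ha3⟩ := cob dta hσ hσb (c := fun s => aM act s (p • P) - p • P)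
      (fun s _ t _ => c6a_cocycle _ s t)
      (fun s hs => ⟨k, by
        change p ^ k • (aM act s (p • P) - p • P) = 0
        rw [smul_sub, ← map_nsmul, smul_comm (p ^ k) p P, map_nsmul, hk s hs, sub_self]⟩)
      (fun s hs => by
        change aM act (σ * s * σ⁻¹ * s⁻¹) (p • P) - p • P = 0
        rw [hfix _ (c6a_comm dta hσ hs), sub_self])
    obtain ⟨a', ha'⟩ := c6a_div dta hin a
    refine ⟨P - a', fun s hs => ?_, fun h hh => ?_⟩
    · have h1 : aM act s (p • P) - p • P = aM act s a - a := ha3 s hs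
      rw [smul_sub, ha', map_sub, sub_eq_sub_iff_sub_eq_sub]
      exact h1
    · have h1 : aM act h a' = a' := hh.2 a' ⟨l + 1, by rw [pow_succ, mul_smul, ha', hl]⟩
      rw [hP h hh, map_sub, h1]
      abel
  · rintro ⟨P, hP, hw⟩
    refine ⟨⟨P, ⟨1, fun s hs => ?_⟩, hw⟩, ?_⟩
    · rw [pow_one]
      exact hP s hs
    · apply Subtype.ext
      funext h
      have hwc : IsCls act p (SH act (dV V) p) LI (SN (dV V) p) w.1 := w.2
      change p • w.1 h = 0
      by_cases hh : SH act (dV V) p h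
      · rw [hw h hh, smul_sub, ← map_nsmul, hP h ⟨hh.1, fa_gc dta hh.2 n⟩, sub_self]
      · rw [hwc.out h hh, smul_zero]

/-- Chunk C6b (M). p P = Q, w(h) = h P - P: w = 0 iff Q = p Q' with Q' of level n (cob for the cocycle s P - P with values killed by p: P - a is of level n). -/
theorem dm_zero (dta : Dta A B Om j act mo ψ p) (hin : Prime (p : 𝓞 F)) {V : ValuationSubring Ω} (hV : V.valuation (p : Ω) < 1) (n : ℕ)
    {P : PM act} (hP : p • P ∈ AM act p (dV V) n) : (∀ h, SH act (dV V) p h → aM act h P = P) ↔ ∃ Q ∈ AM act p (dV V) n, p • Q = p • P := by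
  constructor
  · intro hfix
    obtain ⟨σ, hσV, hσn, hσb⟩ := exists_sig dta hin hV n
    have hσ : σ ∈ LG dta.prime (dV V) n := ⟨hσV, hσn⟩
    have hk : ∀ s ∈ LG dta.prime (dV V) n, p ^ 1 • (aM act s P - P) = 0 := by
      intro s hs
      rw [pow_one, smul_sub, ← map_nsmul, hP s hs, sub_self]
    obtain ⟨a, ha1, _, ha3⟩ := cob dta hσ hσb (c := fun s => aM act s P - P)
      (fun s _ t _ => c6a_cocycle _ s t)
      (fun s hs => ⟨1, hk s hs⟩)
      (fun s hs => by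
        change aM act (σ * s * σ⁻¹ * s⁻¹) P - P = 0
        rw [hfix _ (c6a_comm dta hσ hs), sub_self])
    have ha : p • a = 0 := by
      have := ha1 1 hk
      rwa [pow_one] at this
    refine ⟨P - a, fun s hs => ?_, ?_⟩
    · have h1 : aM act s P - P = aM act s a - a := ha3 s hs
      rw [map_sub, sub_eq_sub_iff_sub_eq_sub]
      exact h1
    · rw [smul_sub, ha, sub_zero]
  · rintro ⟨Q, hQ, hQP⟩ h hh
    have h1 : aM act h (P - Q) = P - Q := hh.2 _ ⟨1, by rw [pow_one, smul_sub, hQP, sub_self]⟩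
    have h2 : aM act h Q = Q := hQ h ⟨hh.1, fa_gc dta hh.2 n⟩
    rw [map_sub, h2] at h1
    exact sub_left_injective h1

end H35L
end

-- from Lib.H35L.C6
section

/-! # H35L, chunk C6 (M): the local facts from the points -/

open NumberField IsDedekindDomain WeierstrassCurve

namespace H35L

open H55P (IQ Pt ac Inert Dec Nm)
open H35P (WAB)
open H55K (CMA Dta)
open H35K (Lev)

variable {F : Type} [Field F] [NumberField F] [IQ F] {A B : F} {Om : ℂ} {Ω : Type} [Field Ω] [DecidableEq Ω]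
  [Algebra F Ω] [IsAlgClosure F Ω] {j : Ω →+* ℂ} {act : 𝓞 F →+* AddMonoid.End (Pt (WAB A B) Ω)} {mo : Ideal (𝓞 F)}
  {ψ : Ideal (𝓞 F) →*₀ 𝓞 F} {p : ℕ}

/-- Q is the multiple by p of a point P with class w. -/
def c6_R (hc : Cm act) (p : ℕ) (V : ValuationSubring Ω) (Q : PM act) (w : WM act hc p V) : Prop :=
  ∃ P : PM act, p • P = Q ∧ ∀ h, SH act (dV V) p h → w.1 h = aM act h P - P

theorem c6_uniq {hc : Cm act} {V : ValuationSubring Ω} {Q : PM act} {w w' : WM act hc p V} (h : c6_R hc p V Q w)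
    (h' : c6_R hc p V Q w') : w = w' := by
  obtain ⟨P, hP, hw⟩ := h
  obtain ⟨P', hP', hw'⟩ := h'
  apply c4e_ext
  intro x hx
  rw [hw x hx, hw' x hx]
  have h1 : aM act x (P - P') = P - P' := by
    refine hx.2 _ ⟨1, ?_⟩
    rw [pow_one, smul_sub, hP, hP', sub_self]
  rw [map_sub] at h1
  rw [sub_eq_sub_iff_sub_eq_sub]
  exact h1

theorem c6_add {hc : Cm act} {V : ValuationSubring Ω} {Q Q' : PM act} {w w' : WM act hc p V} (h : c6_R hc p V Q w)
    (h' : c6_R hc p V Q' w') : c6_R hc p V (Q + Q') (w + w') := by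
  obtain ⟨P, hP, hw⟩ := h
  obtain ⟨P', hP', hw'⟩ := h'
  refine ⟨P + P', by rw [smul_add, hP, hP'], fun x hx => ?_⟩
  have h1 : (w + w').1 x = w.1 x + w'.1 x := rfl
  rw [h1, hw x hx, hw' x hx, map_add]
  abel

theorem c6_ex (dta : Dta A B Om j act mo ψ p) (hin : Prime (p : 𝓞 F)) (hc : Cm act) {V : ValuationSubring Ω} (hV : V.valuation (p : Ω) < 1)
    {n : ℕ} {Q : PM act} (hQ : Q ∈ AM act p (dV V) n) :
    ∃ w : WM act hc p V, (w ∈ DM act hc p (dV V) LI n ∧ p • w = 0) ∧ c6_R hc p V Q w := by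
  obtain ⟨P, hP⟩ := c4e_div dta Q
  have hPl : PL act p (dV V) n P := ⟨1, fun s hs => by rw [pow_one, hP]; exact hQ s hs⟩
  obtain ⟨w, hw, hwP⟩ := pt_cls dta hc hPl (I := LI) (fun h _ hi => hi.elim)
  refine ⟨w, (dm_p dta hin hc hV n w).2 ⟨P, by rw [hP]; exact hQ, hwP⟩, P, hP, hwP⟩

theorem c6_zero (dta : Dta A B Om j act mo ψ p) (hc : Cm act) {V : ValuationSubring Ω}
    {n : ℕ} {Q : PM act} (hQ : Q ∈ AM act p (dV V) n) : c6_R hc p V (p • Q) 0 := by
  refine ⟨Q, rfl, fun h hh => ?_⟩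
  rw [hQ h ⟨hh.1, fa_gc dta hh.2 n⟩, sub_self]
  rfl

theorem c6_gm {hc : Cm act} {V : ValuationSubring Ω} {γ : Ω ≃ₐ[F] Ω} (hγ : γ ∈ dV V) {Q : PM act} {w : WM act hc p V}
    (h : c6_R hc p V Q w) : c6_R hc p V (gm1 act γ Q) ((opM act hc p LI_conj hγ - 1) w) := by
  obtain ⟨P, hP, hw⟩ := h
  refine ⟨gm1 act γ P, by rw [← map_nsmul, hP], fun x hx => ?_⟩
  have h1 : ((opM act hc p LI_conj hγ - 1) w).1 x = (opM act hc p LI_conj hγ w).1 x - w.1 x := rfl
  have h2 : (opM act hc p LI_conj hγ w).1 x = aM act (γ⁻¹)⁻¹ (w.1 (γ⁻¹ * x * (γ⁻¹)⁻¹)) := if_pos hx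
  have h3 : SH act (dV V) p (γ⁻¹ * x * (γ⁻¹)⁻¹) :=
    ⟨mul_mem (mul_mem (inv_mem hγ) hx.1) (inv_mem (inv_mem hγ)), FA_conj act hx.2 _⟩
  have h4 : gm1 act γ P = aM act γ P - P := rfl
  have h5 : γ * (γ⁻¹ * x * γ) = x * γ := by group
  rw [h1, h2, hw _ h3, hw x hx, inv_inv, h4, map_sub, map_sub, ← aM_mul, h5, aM_mul]
  abel

theorem c6_gmk {hc : Cm act} {V : ValuationSubring Ω} {γ : Ω ≃ₐ[F] Ω} (hγ : γ ∈ dV V) (k : ℕ) {Q : PM act} {w : WM act hc p V}
    (h : c6_R hc p V Q w) : c6_R hc p V ((gm1 act γ ^ k) Q) (((opM act hc p LI_conj hγ - 1) ^ k) w) := by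
  induction k with
  | zero => exact h
  | succ k ih =>
    rw [pow_succ', pow_succ']
    exact c6_gm hγ ih

open Classical in
/-- The class of a point of level n. -/
noncomputable def c6_f (dta : Dta A B Om j act mo ψ p) (hin : Prime (p : 𝓞 F)) (hc : Cm act) {V : ValuationSubring Ω} (hV : V.valuation (p : Ω) < 1)
    (n : ℕ) : AM act p (dV V) n →+ WM act hc p V :=
  AddMonoidHom.mk' (fun Q => (c6_ex dta hin hc hV Q.2).choose) (by
    intro Q Q'
    exact c6_uniq (c6_ex dta hin hc hV (Q + Q').2).choose_spec.2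
      (c6_add (c6_ex dta hin hc hV Q.2).choose_spec.2 (c6_ex dta hin hc hV Q'.2).choose_spec.2))

theorem c6_fR (dta : Dta A B Om j act mo ψ p) (hin : Prime (p : 𝓞 F)) (hc : Cm act) {V : ValuationSubring Ω} (hV : V.valuation (p : Ω) < 1)
    (n : ℕ) (Q : AM act p (dV V) n) : (c6_f dta hin hc hV n Q ∈ DM act hc p (dV V) LI n ∧ p • c6_f dta hin hc hV n Q = 0) ∧
      c6_R hc p V Q.1 (c6_f dta hin hc hV n Q) :=
  (c6_ex dta hin hc hV Q.2).choose_spec

theorem c6_card (dta : Dta A B Om j act mo ψ p) (hin : Prime (p : 𝓞 F)) (hc : Cm act) {V : ValuationSubring Ω} (hV : V.valuation (p : Ω) < 1)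
    (n : ℕ) : Nat.card {w : WM act hc p V // w ∈ DM act hc p (dV V) LI n ∧ p • w = 0} =
      Nat.card (AM act p (dV V) n ⧸ (AddSubgroup.map (nsmulAddMonoidHom p) (⊤ : AddSubgroup (AM act p (dV V) n)))) := by
  have hker : (c6_f dta hin hc hV n).ker = AddSubgroup.map (nsmulAddMonoidHom p) (⊤ : AddSubgroup (AM act p (dV V) n)) := by
    ext Q
    rw [AddMonoidHom.mem_ker, AddSubgroup.mem_map]
    constructor
    · intro h0
      obtain ⟨-, P, hP, hw⟩ := c6_fR dta hin hc hV n Q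
      have h1 : p • P ∈ AM act p (dV V) n := by rw [hP]; exact Q.2
      obtain ⟨R, hR, hRP⟩ := (dm_zero dta hin hV n h1).1 (fun h hh => by
        have h2 := hw h hh
        rw [h0] at h2
        exact (sub_eq_zero.1 h2.symm))
      refine ⟨⟨R, hR⟩, trivial, ?_⟩
      apply Subtype.ext
      change p • R = Q.1
      rw [hRP, hP]
    · rintro ⟨R, -, hR⟩
      have h1 : c6_R hc p V Q.1 0 := by
        rw [← hR]
        exact c6_zero dta hc R.2
      exact c6_uniq (c6_fR dta hin hc hV n Q).2 h1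
  rw [← hker]
  refine (Nat.card_congr (QuotientAddGroup.quotientKerEquivRange (c6_f dta hin hc hV n)).toEquiv).symm ▸ ?_
  refine Nat.card_congr (Equiv.subtypeEquivRight fun w => ?_)
  constructor
  · intro hw
    obtain ⟨P, hP, hwP⟩ := (dm_p dta hin hc hV n w).1 hw
    exact ⟨⟨p • P, hP⟩, c6_uniq (c6_fR dta hin hc hV n ⟨p • P, hP⟩).2 ⟨P, rfl, hwP⟩⟩
  · rintro ⟨Q, rfl⟩
    exact (c6_fR dta hin hc hV n Q).1

/-- Chunk C6 (M). l2 gives dp: Q -> class of P, p P = Q (pt_cls; surjectivity of p) is a bijection from A_n/p A_n to the classes of points killed by p (dm_p, dm_zero). ds: the class of gm1^s Q is (del - 1)^s of the class of Q; l3, l3'. -/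
theorem locf_of_locp (dta : Dta A B Om j act mo ψ p) (hin : Prime (p : 𝓞 F)) (hc : Cm act) {V : ValuationSubring Ω} (hV : V.valuation (p : Ω) < 1) {q : ℕ}
    {γ : Ω ≃ₐ[F] Ω} (hγ : γ ∈ dV V) (hg : Gen p γ) (h : LocP act hc p q V hγ) : LocF act hc p q V hγ := by
  refine ⟨h.l4f, h.l4, fun n => by rw [c6_card dta hin hc hV n, h.l2 n], fun n w => ?_⟩
  constructor
  · intro hw
    obtain ⟨P, hP, hwP⟩ := (dm_p dta hin hc hV 0 w).1 hw
    obtain ⟨Q, hQ, Q', hQ', he⟩ := h.l3' n _ hP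
    obtain ⟨w', hw', hR⟩ := c6_ex dta hin hc hV hQ
    refine ⟨w', hw'.1, hw'.2, ?_⟩
    have h1 := c6_gmk hγ (p ^ n - 1 - H35K.J p n) hR
    rw [he] at h1
    have h2 : c6_R hc p V (p • P + p • Q') (w + 0) := c6_add ⟨P, rfl, hwP⟩ (c6_zero dta hc hQ')
    rw [add_zero] at h2
    exact c6_uniq h1 h2
  · rintro ⟨w', hw', hpw', rfl⟩
    obtain ⟨P, hP, hwP⟩ := (dm_p dta hin hc hV n w').1 ⟨hw', hpw'⟩
    obtain ⟨Q0, hQ0, Q', hQ', he⟩ := h.l3 n _ hP
    obtain ⟨w0, hw0, hR0⟩ := c6_ex dta hin hc hV hQ0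
    have h1 := c6_gmk hγ (p ^ n - 1 - H35K.J p n) (show c6_R hc p V (p • P) w' from ⟨P, rfl, hwP⟩)
    rw [he] at h1
    have h2 := c6_add hR0 (c6_zero dta hc hQ')
    rw [add_zero] at h2
    rw [c6_uniq h1 h2]
    exact hw0

end H35L
end

-- from Lib.H35L.R1A
section

/-! # H35L, chunk R1A (S/M): from Kummer classes to classes -/

open NumberField IsDedekindDomain WeierstrassCurve

namespace H35L

open H55P (IQ Pt ac Inert Dec Nm)
open H35P (WAB)
open H55K (CMA Dta)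
open H35K (Lev)

variable {F : Type} [Field F] [NumberField F] [IQ F] {A B : F} {Om : ℂ} {Ω : Type} [Field Ω] [DecidableEq Ω]
  [Algebra F Ω] [IsAlgClosure F Ω] {j : Ω →+* ℂ} {act : 𝓞 F →+* AddMonoid.End (Pt (WAB A B) Ω)} {mo : Ideal (𝓞 F)}
  {ψ : Ideal (𝓞 F) →*₀ 𝓞 F} {p : ℕ} {M : IntermediateField F Ω} {V : ValuationSubring Ω} {γ : Ω ≃ₐ[F] Ω} {g : ℕ} {s₀ : Fin g → (Ω ≃ₐ[F] Ω)}

/-- Chunk R1a (S/M). A Kummer class invariant under level n is a class of level n (ku_hm, lev_iff; f(s h s^-1) = s f(h) is cjL s f = f at s h s^-1). -/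
theorem xu_rm (dta : Dta A B Om j act mo ψ p) (hc : Cm act) (fr : Fr p M V γ g s₀) {k K : ℕ} {B' : IntermediateField F Ω} (hB : IsB act p K M.fixingSubgroup B')
    (n : ℕ) {f : (Ω ≃ₐ[F] Ω) → PM act} (hf : f ∈ KU act p k M.fixingSubgroup B') (hi : ∀ s, SN M.fixingSubgroup p n s → cjL act hc s f = f) :
    ∃ r : RM act hc p M, r.1 = f ∧ Lev p n (gamF hc fr) r := by
  obtain ⟨hm, _⟩ := ku_hm dta hc hB hf
  have heq : ∀ s, SN M.fixingSubgroup p n s → ∀ h, SH act M.fixingSubgroup p h → f (s * h * s⁻¹) = aM act s (f h) := by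
    intro s hs h _
    have h1 := congrFun (hi s hs) (s * h * s⁻¹)
    have h2 : aM act s (f (s⁻¹ * (s * h * s⁻¹) * s)) = f (s * h * s⁻¹) := h1
    rw [← h2]
    congr 2
    group
  let r : RM act hc p M := ⟨f, ⟨hm, ⟨n, heq⟩⟩⟩
  exact ⟨r, rfl, (lev_iff dta hc GI_conj fr.gM fr.gen n r).2 heq⟩

end H35L
end

-- from Lib.H35L.R1B
section

/-! # H35L, chunk R1B (M): the field B -/

open NumberField IsDedekindDomain WeierstrassCurve

namespace H35L

open H55P (IQ Pt ac Inert Dec Nm)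
open H35P (WAB)
open H55K (CMA Dta)
open H35K (Lev)

variable {F : Type} [Field F] [NumberField F] [IQ F] {A B : F} {Om : ℂ} {Ω : Type} [Field Ω] [DecidableEq Ω]
  [Algebra F Ω] [IsAlgClosure F Ω] {j : Ω →+* ℂ} {act : 𝓞 F →+* AddMonoid.End (Pt (WAB A B) Ω)} {mo : Ideal (𝓞 F)}
  {ψ : Ideal (𝓞 F) →*₀ 𝓞 F} {p : ℕ} {M : IntermediateField F Ω} {V : ValuationSubring Ω} {γ : Ω ≃ₐ[F] Ω} {g : ℕ} {s₀ : Fin g → (Ω ≃ₐ[F] Ω)}

/-- the number of units of 𝓞 F/p^K -/
theorem r1b_card (hp : p.Prime) (hin : Prime (p : 𝓞 F)) {K : ℕ} (hK : 0 < K) :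
    Nat.card (𝓞 F ⧸ Ideal.span {(p : 𝓞 F) ^ K})ˣ = p ^ (2 * (K - 1)) * (p ^ 2 - 1) := by
  classical
  have hpid : IsPrincipalIdealRing (𝓞 F) := IQ.pid
  have hfr : Module.finrank ℤ (𝓞 F) = 2 := by
    rw [RingOfIntegers.rank, IQ.deg]
  have hpe : ((p : 𝓞 F)) ^ K = ((p ^ K : ℕ) : 𝓞 F) := by push_cast; rfl
  have hc1 : Nat.card (𝓞 F ⧸ Ideal.span {(p : 𝓞 F) ^ K}) = p ^ (2 * K) := by
    have h1 : Ideal.absNorm (Ideal.span {(p : 𝓞 F) ^ K}) = p ^ (2 * K) := by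
      rw [hpe, Ideal.absNorm_span_natCast, hfr, ← pow_mul, mul_comm]
    exact h1
  have hc2 : Nat.card (𝓞 F ⧸ Ideal.span {(p : 𝓞 F)}) = p ^ 2 := by
    have h1 : Ideal.absNorm (Ideal.span {(p : 𝓞 F)}) = p ^ 2 := by
      rw [Ideal.absNorm_span_natCast, hfr]
    exact h1
  have hfin : Finite (𝓞 F ⧸ Ideal.span {(p : 𝓞 F) ^ K}) := by
    apply (Nat.card_pos_iff.1 _).2
    rw [hc1]
    exact pow_pos hp.pos _
  have hle : Ideal.span {(p : 𝓞 F) ^ K} ≤ Ideal.span {(p : 𝓞 F)} := by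
    rw [Ideal.span_singleton_le_span_singleton]
    exact dvd_pow_self _ hK.ne'
  let g : (𝓞 F ⧸ Ideal.span {(p : 𝓞 F) ^ K}) →+* (𝓞 F ⧸ Ideal.span {(p : 𝓞 F)}) := Ideal.Quotient.factor hle
  have hgs : Function.Surjective g := Ideal.Quotient.factor_surjective hle
  let gA : (𝓞 F ⧸ Ideal.span {(p : 𝓞 F) ^ K}) →+ (𝓞 F ⧸ Ideal.span {(p : 𝓞 F)}) := g.toAddMonoidHom
  have hun : ∀ x, IsUnit x ↔ x ∉ gA.ker := by
    intro x
    obtain ⟨a, rfl⟩ := Ideal.Quotient.mk_surjective x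
    have h1 : (Ideal.Quotient.mk (Ideal.span {(p : 𝓞 F) ^ K}) a ∉ gA.ker) ↔
        ¬ (p : 𝓞 F) ∣ a := by
      rw [not_iff_not]
      change g (Ideal.Quotient.mk _ a) = 0 ↔ _
      have h2 : g (Ideal.Quotient.mk _ a) = Ideal.Quotient.mk (Ideal.span {(p : 𝓞 F)}) a := rfl
      rw [h2, Ideal.Quotient.eq_zero_iff_mem, Ideal.mem_span_singleton]
    rw [h1, ← hin.irreducible.coprime_iff_not_dvd]
    constructor
    · intro h
      obtain ⟨y, hy⟩ := h.exists_right_inv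
      obtain ⟨b, rfl⟩ := Ideal.Quotient.mk_surjective y
      rw [← map_mul, ← map_one (Ideal.Quotient.mk _), Ideal.Quotient.eq, Ideal.mem_span_singleton] at hy
      obtain ⟨c, hc⟩ := hy
      obtain ⟨K', rfl⟩ := Nat.exists_eq_succ_of_ne_zero hK.ne'
      exact ⟨-((p : 𝓞 F) ^ K' * c), b, by rw [pow_succ] at hc; linear_combination hc⟩
    · intro h
      obtain ⟨u, v, huv⟩ := (h.pow_left (m := K))
      refine IsUnit.of_mul_eq_one (Ideal.Quotient.mk _ v) ?_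
      rw [← map_mul, ← map_one (Ideal.Quotient.mk _), Ideal.Quotient.eq, Ideal.mem_span_singleton]
      exact ⟨-u, by linear_combination huv⟩
  have hker : Nat.card gA.ker * p ^ 2 = p ^ (2 * K) := by
    rw [← hc1, ← hc2, ← AddSubgroup.card_mul_index gA.ker]
    congr 1
    rw [AddSubgroup.index_ker]
    have h3 : gA.range = ⊤ :=
      AddMonoidHom.range_eq_top.2 hgs
    rw [h3]
    exact (AddSubgroup.card_top).symm
  have hker2 : Nat.card gA.ker = p ^ (2 * (K - 1)) := by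
    have h4 : p ^ (2 * K) = p ^ (2 * (K - 1)) * p ^ 2 := by
      rw [← pow_add]
      congr 1
      omega
    rw [h4] at hker
    exact Nat.eq_of_mul_eq_mul_right (pow_pos hp.pos 2) hker
  have hsplit : Nat.card (𝓞 F ⧸ Ideal.span {(p : 𝓞 F) ^ K})ˣ + Nat.card gA.ker =
      Nat.card (𝓞 F ⧸ Ideal.span {(p : 𝓞 F) ^ K}) := by
    have e1 : Nat.card (𝓞 F ⧸ Ideal.span {(p : 𝓞 F) ^ K})ˣ =
        Nat.card {x // x ∉ gA.ker} := by
      apply Nat.card_congr
      refine Equiv.trans ?_ (Equiv.subtypeEquivRight hun)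
      exact ⟨fun u => ⟨u, u.isUnit⟩, fun x => x.2.unit, fun u => Units.ext rfl, fun x => Subtype.ext rfl⟩
    rw [e1, add_comm]
    have h5 := Nat.card_congr (Equiv.sumCompl (fun x => x ∈ gA.ker))
    rw [Nat.card_sum] at h5
    exact h5
  rw [hker2, hc1] at hsplit
  have h6 : p ^ (2 * K) = p ^ (2 * (K - 1)) * p ^ 2 := by
    rw [← pow_add]
    congr 1
    omega
  rw [h6] at hsplit
  rw [Nat.mul_sub, mul_one]
  omega

/-- Chunk R1b (M). The field of the points killed by p^K over M exists (the group {s in Gal(Ω/M) : s trivial on the points killed by p^K} is open: M and the coordinates of the generator), of degree g (q-1) q^(K-1) over F for K > 0: [Gal(Ω/M) : Gal(Ω/B)] = number of units of 𝓞 F/p^K, as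
Gal(Ω/M) contains Dec V (Fr.spl) and dec_surj. IntermediateField: finrank_eq_fixingSubgroup_index (InfiniteGalois). -/
theorem exists_B (dta : Dta A B Om j act mo ψ p) (hin : Prime (p : 𝓞 F)) (fr : Fr p M V γ g s₀) {K : ℕ} (hK : 0 < K) :
    ∃ B' : IntermediateField F Ω, FiniteDimensional F B' ∧ IsB act p K M.fixingSubgroup B' ∧
      Module.finrank F B' = (g * p ^ (2 * (K - 1))) * (p ^ 2 - 1) := by
  classical
  have hal0 : Algebra.IsAlgebraic F Ω := IsAlgClosure.isAlgebraic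
  have hc0 : CharZero Ω := charZero_of_injective_algebraMap (algebraMap F Ω).injective
  have hG : IsGalois F Ω := IsAlgClosure.isGalois F Ω
  have hfM : FiniteDimensional F M := fr.fin
  have hpK : ((p : 𝓞 F)) ^ K ≠ 0 := pow_ne_zero _ hin.ne_zero
  obtain ⟨T₀, h0, h1, h2⟩ := tor_gen dta K
  -- the field of the generator
  obtain ⟨L, hL, hLs⟩ : ∃ L : IntermediateField F Ω, FiniteDimensional F L ∧
      ∀ s : Ω ≃ₐ[F] Ω, s ∈ L.fixingSubgroup ↔ aM act s T₀ = T₀ := by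
    change Pt (WAB A B) Ω at T₀
    cases T₀ with
    | zero => exact ⟨⊥, inferInstance, fun s => ⟨fun _ => rfl, fun _ => by
        rw [IntermediateField.fixingSubgroup_bot]; trivial⟩⟩
    | some x y h =>
      refine ⟨IntermediateField.adjoin F {x, y}, IntermediateField.finiteDimensional_adjoin_pair
        (Algebra.IsIntegral.isIntegral x) (Algebra.IsIntegral.isIntegral y), fun s => ?_⟩
      have h3 : ac (WAB A B) s (Affine.Point.some x y h) = Affine.Point.some (s x) (s y)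
          ((Affine.baseChange_nonsingular _ s.toAlgHom.injective ..).mpr h) := rfl
      change _ ↔ ac (WAB A B) s (Affine.Point.some x y h) = Affine.Point.some x y h
      rw [h3]
      constructor
      · intro hs
        rw [IntermediateField.mem_fixingSubgroup_iff] at hs
        have hx : s x = x := hs x (IntermediateField.subset_adjoin F _ (by simp))
        have hy : s y = y := hs y (IntermediateField.subset_adjoin F _ (by simp))
        simp only [hx, hy]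
      · intro hxy
        have hx : s x = x := (Affine.Point.some.inj hxy).1
        have hy : s y = y := (Affine.Point.some.inj hxy).2
        have h4 : IntermediateField.adjoin F {x, y} ≤ IntermediateField.fixedField (Subgroup.zpowers s) := by
          rw [IntermediateField.adjoin_le_iff]
          intro z hz
          rw [SetLike.mem_coe, IntermediateField.mem_fixedField_iff]
          have h5 : s z = z := by
            rcases hz with rfl | hz
            · exact hx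
            · rw [Set.mem_singleton_iff.1 hz]; exact hy
          intro t ht
          have h6 : Subgroup.zpowers s ≤ MulAction.stabilizer (Ω ≃ₐ[F] Ω) z := by
            rw [Subgroup.zpowers_le]
            exact h5
          exact h6 ht
        rw [IntermediateField.mem_fixingSubgroup_iff]
        intro z hz
        exact (IntermediateField.mem_fixedField_iff _ _).1 (h4 hz) s (Subgroup.mem_zpowers s)
  have hch1 : ∀ s : Ω ≃ₐ[F] Ω, aM act s T₀ = T₀ ↔ Ch act p K s 1 := by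
    intro s
    constructor
    · intro h T hT
      obtain ⟨b, rfl⟩ := h1 T hT
      rw [cm dta, h, one_smul]
    · intro h
      rw [h T₀ h0, one_smul]
  have hB : IsB act p K M.fixingSubgroup (M ⊔ L) := by
    intro s
    rw [IntermediateField.fixingSubgroup_sup, Subgroup.mem_inf, hLs, hch1]
  refine ⟨M ⊔ L, IntermediateField.finiteDimensional_sup M L, hB, ?_⟩
  -- the character
  let I : Ideal (𝓞 F) := Ideal.span {(p : 𝓞 F) ^ K}
  let f : M.fixingSubgroup →* (𝓞 F ⧸ I) :=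
    { toFun := fun s => Ideal.Quotient.mk I (ch_exists dta K s.1).choose
      map_one' := by
        rw [← map_one (Ideal.Quotient.mk I), Ideal.Quotient.eq, Ideal.mem_span_singleton]
        refine ch_uniq dta (ch_exists dta K _).choose_spec.1 (fun T _ => ?_)
        rw [one_smul]
        exact aM_one act T
      map_mul' := by
        intro s t
        rw [← map_mul, Ideal.Quotient.eq, Ideal.mem_span_singleton]
        exact ch_uniq dta (ch_exists dta K _).choose_spec.1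
          (ch_mul (cm dta) (ch_exists dta K _).choose_spec.1 (ch_exists dta K _).choose_spec.1) }
  have hf : ∀ (s : M.fixingSubgroup) (a : 𝓞 F), Ch act p K s.1 a → f s = Ideal.Quotient.mk I a := by
    intro s a ha
    change Ideal.Quotient.mk I (ch_exists dta K s.1).choose = _
    rw [Ideal.Quotient.eq, Ideal.mem_span_singleton]
    exact ch_uniq dta (ch_exists dta K _).choose_spec.1 ha
  let χ : M.fixingSubgroup →* (𝓞 F ⧸ I)ˣ := f.toHomUnits
  have hχ : ∀ s, ((χ s : (𝓞 F ⧸ I)ˣ) : 𝓞 F ⧸ I) = f s := fun s => rfl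
  have hsurj : Function.Surjective χ := by
    intro u
    obtain ⟨a, ha⟩ := Ideal.Quotient.mk_surjective (u : 𝓞 F ⧸ I)
    have hcop : IsCoprime a (p : 𝓞 F) := by
      obtain ⟨b, hb⟩ := Ideal.Quotient.mk_surjective ((u⁻¹ : (𝓞 F ⧸ I)ˣ) : 𝓞 F ⧸ I)
      have h3 : Ideal.Quotient.mk I (a * b) = Ideal.Quotient.mk I 1 := by
        rw [map_mul, ha, hb, Units.mul_inv, map_one]
      rw [Ideal.Quotient.eq, Ideal.mem_span_singleton] at h3
      obtain ⟨c, hc⟩ := h3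
      obtain ⟨K', rfl⟩ := Nat.exists_eq_succ_of_ne_zero hK.ne'
      exact ⟨b, -((p : 𝓞 F) ^ K' * c), by rw [pow_succ] at hc; linear_combination hc⟩
    obtain ⟨s, hs, hsa⟩ := dec_surj dta hin fr.above K a hcop
    have hsM : s ∈ M.fixingSubgroup := fr.spl V fr.above s hs
    refine ⟨⟨s, hsM⟩, Units.ext ?_⟩
    rw [hχ, hf ⟨s, hsM⟩ a hsa, ha]
  have hker : ∀ s : M.fixingSubgroup, s ∈ χ.ker ↔ s.1 ∈ (M ⊔ L).fixingSubgroup := by
    intro s
    rw [MonoidHom.mem_ker, hB s.1]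
    obtain ⟨a, ha, -⟩ := ch_exists dta K s.1
    constructor
    · intro h
      refine ⟨s.2, ch_congr ha ?_⟩
      have h3 : f s = 1 := by rw [← hχ, h, Units.val_one]
      rw [hf s a ha, ← map_one (Ideal.Quotient.mk I), Ideal.Quotient.eq, Ideal.mem_span_singleton] at h3
      exact h3
    · rintro ⟨-, h⟩
      apply Units.ext
      rw [hχ, hf s 1 h, map_one, Units.val_one]
  have hle : (M ⊔ L).fixingSubgroup ≤ M.fixingSubgroup := by
    rw [IntermediateField.fixingSubgroup_sup]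
    exact inf_le_left
  have hrel : (M ⊔ L).fixingSubgroup.relIndex M.fixingSubgroup = Nat.card (𝓞 F ⧸ I)ˣ := by
    have h3 : (M ⊔ L).fixingSubgroup.subgroupOf M.fixingSubgroup = χ.ker := by
      ext s
      rw [hker s, Subgroup.mem_subgroupOf]
    rw [Subgroup.relIndex, h3, Subgroup.index_ker, MonoidHom.range_eq_top.2 hsurj]
    exact Subgroup.card_top
  have hidx : Module.finrank F (M ⊔ L : IntermediateField F Ω) = (M ⊔ L).fixingSubgroup.index :=
    IntermediateField.finrank_eq_fixingSubgroup_index Ω _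
  have hidM : M.fixingSubgroup.index = g := by
    rw [← IntermediateField.finrank_eq_fixingSubgroup_index Ω M]
    exact fr.deg
  rw [hidx, ← Subgroup.relIndex_mul_index hle, hrel, hidM, r1b_card dta.prime hin hK]
  ring


end H35L
end

-- from Lib.H35L.R1
section

/-! # H35L, chunk R1 (S): sigma -/

open NumberField IsDedekindDomain WeierstrassCurve

namespace H35L

open H55P (IQ Pt ac Inert Dec Nm)
open H35P (WAB)
open H55K (CMA Dta)
open H35K (Lev)

variable {F : Type} [Field F] [NumberField F] [IQ F] {A B : F} {Om : ℂ} {Ω : Type} [Field Ω] [DecidableEq Ω]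
  [Algebra F Ω] [IsAlgClosure F Ω] {j : Ω →+* ℂ} {act : 𝓞 F →+* AddMonoid.End (Pt (WAB A B) Ω)} {mo : Ideal (𝓞 F)}
  {ψ : Ideal (𝓞 F) →*₀ 𝓞 F} {p : ℕ} {M : IntermediateField F Ω} {V : ValuationSubring Ω} {γ : Ω ≃ₐ[F] Ω} {g : ℕ} {s₀ : Fin g → (Ω ≃ₐ[F] Ω)}

/-- Chunk R1c (S). sigma with IsSig exists in Gal(Ω/M), and sigma - 1 is bijective: teich, dec_surj, tb_of_ch. -/
theorem exists_isig (dta : Dta A B Om j act mo ψ p) (hin : Prime (p : 𝓞 F)) (fr : Fr p M V γ g s₀) {K : ℕ} (hK : 0 < K) :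
    ∃ (σ : Ω ≃ₐ[F] Ω) (a : 𝓞 F), σ ∈ M.fixingSubgroup ∧ IsSig act p K σ a := by
  obtain ⟨n, rfl⟩ : ∃ n, K = n + 1 := ⟨K - 1, by omega⟩
  obtain ⟨a, hcop, hpw, -, -, hgen⟩ := teich dta hin n
  obtain ⟨σ, hσ, hch⟩ := dec_surj dta hin fr.above (n + 1) a hcop
  exact ⟨σ, a, fr.spl V fr.above σ hσ, hch, hcop, hpw, hgen⟩

end H35L
end
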