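import Mathlib
import Pool.Agent.Lib.H1M.PP2.D_H55P_Sel
import Pool.Agent.Lib.H1M.PP2.M005
import Pool.Agent.Lib.H1M.PP2.M008
import Pool.Agent.Lib.H1M.PP2.M020
import Pool.Agent.Lib.H1M.PP2.M038
import Pool.Agent.Lib.H1M.PP2.M060
import Pool.Agent.Lib.H1M.PP2.M068
import Pool.Agent.Lib.H1M.PP2.M111
import Pool.Agent.Lib.H1M.PP2.M121
import Pool.Agent.Lib.H1M.PP2.M122
import Pool.Agent.Lib.H1M.PP2.M137

/-! Merged copies (to shorten the build) of Lib.H35L.S1, Lib.H35L.C7, Lib.H35L.S4A, Lib.H35L.S2, Lib.H35L.S3, Lib.H35L.S6, Lib.H35L.R0A, Lib.H35L.R0B, Lib.H35L.R0, Lib.H35L.S4, Lib.H35L.S5, Lib.H35L.R2, Lib.H35L.T1A, Lib.H35L.T1, Lib.H35L.S7. -/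

-- from Lib.H35L.S1
section

/-! # H35L, chunk S1 (M): Selmer classes are locally classes of points above p -/

open NumberField IsDedekindDomain WeierstrassCurve

namespace H35L

open H55P (IQ Pt ac Inert Dec Nm)
open H35P (WAB)
open H55K (CMA Dta)
open H35K (Lev)

variable {F : Type} [Field F] [NumberField F] [IQ F] {A B : F} {Om : ℂ} {Ω : Type} [Field Ω] [DecidableEq Ω]
  [Algebra F Ω] [IsAlgClosure F Ω] {j : Ω →+* ℂ} {act : 𝓞 F →+* AddMonoid.End (Pt (WAB A B) Ω)} {mo : Ideal (𝓞 F)}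
  {ψ : Ideal (𝓞 F) →*₀ 𝓞 F} {p : ℕ} {M : IntermediateField F Ω} {V : ValuationSubring Ω} {γ : Ω ≃ₐ[F] Ω} {g : ℕ} {s₀ : Fin g → (Ω ≃ₐ[F] Ω)}

/-- Chunk S1 (M). f a class, equivariant under level n, with loc_i f in D n for all i; c a cocycle on the group of level n extending f, with values of order a power of p. At every V' above p, c(s) = s P - P on the elements of level n of Dec V'. PROOF. x = t s₀(i) from above_all,
s₀^-1 f(s₀ h s₀^-1) = h P₀ - P₀ for h in SH(dV V) (DM), P₁ = x P₀: f(h') = h' P₁ - P₁ for h' = x h x^-1 (f(t y t^-1) = t f(y)); p^k P₁ is fixed by the elements of level n of Dec V'. c'(s) = c(s) - (s P₁ - P₁) on G₁ = elements of level n of Dec V' (they fix M: Fr.spl): a cocycle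
with values of order a power of p, zero on SH; sigma from exists_sig for V', cob (the commutators of sigma are in SH: fa_comm): c'(s) = s a - a. -/
theorem loc_p (dta : Dta A B Om j act mo ψ p) (hin : Prime (p : 𝓞 F)) (hc : Cm act) (fr : Fr p M V γ g s₀) (n : ℕ) (f : RM act hc p M)
    (he : ∀ s, SN M.fixingSubgroup p n s → ∀ h, SH act M.fixingSubgroup p h → f.1 (s * h * s⁻¹) = aM act s (f.1 h))
    (hl : ∀ i, locF hc fr i f ∈ dF act hc p V n) {c : (Ω ≃ₐ[F] Ω) → PM act} (hco : IsCo act (LG dta.prime M.fixingSubgroup n) c)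
    (ht : ∀ s ∈ LG dta.prime M.fixingSubgroup n, ∃ k : ℕ, p ^ k • c s = 0) (hx : ∀ h, SH act M.fixingSubgroup p h → c h = f.1 h)
    {V' : ValuationSubring Ω} (hV' : V'.valuation (p : Ω) < 1) :
    ∃ P : PM act, ∀ s ∈ LG dta.prime M.fixingSubgroup n, Dec V' s → c s = aM act s P - P := by
  obtain ⟨i, t, ht', hxV⟩ := above_all dta hin fr n hV'
  obtain ⟨P₀, ⟨k, hk⟩, hP₀⟩ := hl i
  obtain ⟨x, hxd⟩ : ∃ x, x = t * s₀ i := ⟨_, rfl⟩
  rw [← hxd] at hxV
  obtain ⟨P₁, hP₁⟩ : ∃ P₁, P₁ = aM act x P₀ := ⟨_, rfl⟩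
  have hdec : ∀ s, Dec V' s → x⁻¹ * s * x ∈ dV (F := F) V := by
    intro s hs y
    rw [← hxV, ← AlgEquiv.mul_apply]
    have h1 : x * (x⁻¹ * s * x) = s * x := by group
    rw [h1, AlgEquiv.mul_apply, hs, hxV]
  have hGM : ∀ s ∈ LG dta.prime (dV V') n, s ∈ LG dta.prime M.fixingSubgroup n := fun s hs =>
    ⟨fr.spl V' hV' s hs.1, hs.2⟩
  have hconj : ∀ s, Gc p n s → Gc p n (x⁻¹ * s * x) := by
    intro s hs
    have h1 := Gc_conj hs x⁻¹
    rwa [inv_inv] at h1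
  have hcoc : ∀ s₁ s₂ : Ω ≃ₐ[F] Ω, aM act (s₁ * s₂) P₁ - P₁ = (aM act s₁ P₁ - P₁) + aM act s₁ (aM act s₂ P₁ - P₁) := by
    intro s₁ s₂
    rw [aM_mul, map_sub]
    abel
  -- the value of f on the decomposition group
  have hval : ∀ h', SH act (dV V') p h' → f.1 h' = aM act h' P₁ - P₁ := by
    intro h' hh'
    have h1 : SH act (dV V) p (x⁻¹ * h' * x) := by
      refine ⟨hdec h' hh'.1, ?_⟩
      have h2 := FA_conj act hh'.2 x⁻¹
      rwa [inv_inv] at h2
    have h2 := hP₀ _ h1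
    have h3 : (locF hc fr i f).1 (x⁻¹ * h' * x) =
        aM act (s₀ i)⁻¹ (f.1 (s₀ i * (x⁻¹ * h' * x) * (s₀ i)⁻¹)) := if_pos h1
    rw [h3] at h2
    have h4 := congrArg (aM act (s₀ i)) h2
    rw [aM_inv] at h4
    have h5 : SH act M.fixingSubgroup p (s₀ i * (x⁻¹ * h' * x) * (s₀ i)⁻¹) :=
      ⟨fr.hG i _ h1.1, FA_conj act h1.2 _⟩
    have h6 := he t ht' _ h5
    have h7 : t * (s₀ i * (x⁻¹ * h' * x) * (s₀ i)⁻¹) * t⁻¹ = h' := by
      have e1 : t * (s₀ i * (x⁻¹ * h' * x) * (s₀ i)⁻¹) * t⁻¹ = (t * s₀ i) * x⁻¹ * h' * (x * (t * s₀ i)⁻¹) := by group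
      rw [e1, ← hxd]
      group
    rw [h7, h4, ← aM_mul, ← hxd, map_sub, ← aM_mul, ← hP₁] at h6
    have h8 : x * (x⁻¹ * h' * x) = h' * x := by group
    rw [h8, aM_mul, ← hP₁] at h6
    exact h6
  obtain ⟨σ, hσ, hσg, hσb⟩ := exists_sig dta hin hV' n
  have hσG : σ ∈ LG dta.prime (dV V') n := ⟨hσ, hσg⟩
  obtain ⟨a, _, _, ha⟩ := cob dta (G := LG dta.prime (dV V') n) (c := fun s => c s - (aM act s P₁ - P₁)) hσG hσb
    (fun s₁ h1 s₂ h2 => by
      rw [hco.mul s₁ (hGM s₁ h1) s₂ (hGM s₂ h2), hcoc, map_sub (aM act s₁) (c s₂)]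
      abel)
    (fun s hs => by
      refine c5_sub (ht s (hGM s hs)) ⟨k, ?_⟩
      have h1 := hk _ ⟨hdec s hs.1, hconj s hs.2⟩
      have h2 := congrArg (aM act x) h1
      rw [← aM_mul] at h2
      have h3 : x * (x⁻¹ * s * x) = s * x := by group
      rw [h3, aM_mul, map_nsmul (aM act x), ← hP₁] at h2
      rw [smul_sub, ← map_nsmul, h2, sub_self])
    (fun s hs => by
      have h1 : SH act (dV V') p (σ * s * σ⁻¹ * s⁻¹) :=
        ⟨mul_mem (mul_mem (mul_mem hσ hs.1) (inv_mem hσ)) (inv_mem hs.1), fa_comm dta σ s⟩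
      have h2 : SH act M.fixingSubgroup p (σ * s * σ⁻¹ * s⁻¹) := ⟨fr.spl V' hV' _ h1.1, h1.2⟩
      show c (σ * s * σ⁻¹ * s⁻¹) - (aM act (σ * s * σ⁻¹ * s⁻¹) P₁ - P₁) = 0
      rw [hx _ h2, hval _ h1, sub_self])
  refine ⟨P₁ + a, fun s hs hd => ?_⟩
  have h1 : c s - (aM act s P₁ - P₁) = aM act s a - a := ha s ⟨hd, hs.2⟩
  rw [sub_eq_iff_eq_add] at h1
  rw [h1, map_add]
  abel

end H35L
end

-- from Lib.H35L.C7
section

/-! # H35L, chunk C7 (M): no class of level 0 killed by p is everywhere a class of points -/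

open NumberField IsDedekindDomain WeierstrassCurve

namespace H35L

open H55P (IQ Pt ac Inert Dec Nm)
open H35P (WAB)
open H55K (CMA Dta)
open H35K (Lev)

variable {F : Type} [Field F] [NumberField F] [IQ F] {A B : F} {Om : ℂ} {Ω : Type} [Field Ω] [DecidableEq Ω]
  [Algebra F Ω] [IsAlgClosure F Ω] {j : Ω →+* ℂ} {act : 𝓞 F →+* AddMonoid.End (Pt (WAB A B) Ω)} {mo : Ideal (𝓞 F)}
  {ψ : Ideal (𝓞 F) →*₀ 𝓞 F} {p : ℕ} {M : IntermediateField F Ω} {V : ValuationSubring Ω} {γ : Ω ≃ₐ[F] Ω} {g : ℕ} {s₀ : Fin g → (Ω ≃ₐ[F] Ω)}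

/-- Chunk C7 (M). r of level 0, p r = 0, loc_i r in D 0 for all i, and the Selmer group of M is zero (H55P.SelZero: local conditions on inertia groups only): r = 0. PROOF. r is equivariant under Gal(Ω/M) (lev_zero_iff); c extends it (ext for G = Gal(Ω/M), sigma = exists_sig for V,
in Gal(Ω/M) by Fr.spl), p c = 0. Every valuation ring V' of Ω: V'(p) < 1: loc_p (the group of level 0 is everything: gc_zero). V'(p) = 1, V' <> Ω: loc_np (hu: r.unr). V' = Ω: Inert means s = 1. (Inert V' s implies Dec V' s: s x - x has value < 1 for x in V'.) So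
c(s) = s T - T with p T = 0, and r(h) = h T - T = 0. -/
theorem inj (dta : Dta A B Om j act mo ψ p) (hin : Prime (p : 𝓞 F)) (hc : Cm act) (fr : Fr p M V γ g s₀) (sel : H55P.SelZero (WAB A B) p M)
    (r : RM act hc p M) (h1 : p • r = 0) (h2 : gamF hc fr r = r) (h3 : ∀ i, locF hc fr i r ∈ dF act hc p V 0) : r = 0 := by
  have hp := dta.prime
  haveI := fr.fin
  have he := (lev_zero_iff dta hc GI_conj fr.gM fr.gen r).1 h2
  have hcls : IsCls act p (SH act M.fixingSubgroup p) (GI p) (SN M.fixingSubgroup p) r.1 := r.2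
  obtain ⟨σ, hσd, -, hb⟩ := exists_sig dta hin fr.above 0
  have hσ : σ ∈ M.fixingSubgroup := fr.spl V fr.above σ hσd
  obtain ⟨c, hco, hcr, hct, hck⟩ := ext dta hσ hb hcls.toIsHm he
  have hpr : ∀ h, p ^ 1 • r.1 h = 0 := by
    intro h
    rw [pow_one]
    exact congrArg (fun f : RM act hc p M => f.1 h) h1
  have hpc := hck 1 hpr
  have hloc : ∀ V' : ValuationSubring Ω, ∃ P : PM act, ∀ s ∈ M.fixingSubgroup, Inert V' s →
      c s = aM act s P - P := by
    intro V'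
    by_cases htop : V' = ⊤
    · refine ⟨0, fun s hs hi => ?_⟩
      have hs1 : s = 1 := by
        apply AlgEquiv.ext
        intro x
        have h4 := hi x (by rw [htop]; exact ValuationSubring.mem_top x)
        rw [H55P.lt1_iff] at h4
        rcases h4 with h5 | h5
        · exact sub_eq_zero.1 h5
        · exact absurd (by rw [htop]; exact ValuationSubring.mem_top _) h5
      have hc1 : c 1 = 0 := by
        have h5 := hco.mul 1 (one_mem _) 1 (one_mem _)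
        rw [mul_one, aM_one] at h5
        exact left_eq_add.1 h5
      rw [hs1, hc1, map_zero, sub_zero]
    · by_cases hV : V'.valuation (p : Ω) < 1
      · obtain ⟨P, hP⟩ := loc_p dta hin hc fr 0 r (fun s hs h hh => he s hs.1 h hh) h3 (c := c)
          ⟨fun s hs t ht => hco.mul s hs.1 t ht.1, by
            obtain ⟨L, hL, hLc⟩ := hco.cont
            exact ⟨L, hL, fun s hs hsL => hLc s hs.1 hsL⟩⟩
          (fun s hs => hct s hs.1) hcr hV
        exact ⟨P, fun s hs hi => hP s ⟨hs, gc_zero hp s⟩ (H55P.inert_dec V' s hi)⟩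
      · have hV1 : V'.valuation (p : Ω) = 1 := by
          refine le_antisymm ?_ (not_lt.1 hV)
          rw [ValuationSubring.valuation_le_one_iff]
          exact natCast_mem V' p
        obtain ⟨P, -, hP⟩ := loc_np dta hin M hco hct
          (fun h hh hi => (hcr h hh).trans (hcls.unr h hh hi)) htop hV1
        exact ⟨P, fun s hs hi => hP s hs (H55P.inert_dec V' s hi)⟩
  obtain ⟨T, hT, hTc⟩ : ∃ T : PM act, p • T = 0 ∧ ∀ s ∈ M.fixingSubgroup, c s = aM act s T - T := sel (fun s => c s) ⟨hco.mul, hco.cont⟩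
    (fun s hs => by
      have h5 := hpc s hs
      rw [pow_one] at h5
      exact h5) hloc
  apply Subtype.ext
  funext h
  by_cases hh : SH act M.fixingSubgroup p h
  · have h4 : c h = aM act h T - T := hTc h hh.1
    have h5 : aM act h T = T := hh.2 T ⟨1, by rw [pow_one]; exact hT⟩
    rw [h5, sub_self, hcr h hh] at h4
    exact h4
  · exact hcls.out h hh

end H35L
end

-- from Lib.H35L.S4A
section

/-! # H35L, chunk S4A (S/M): classes of global points -/

open NumberField IsDedekindDomain WeierstrassCurve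

namespace H35L

open H55P (IQ Pt ac Inert Dec Nm)
open H35P (WAB)
open H55K (CMA Dta)
open H35K (Lev)

variable {F : Type} [Field F] [NumberField F] [IQ F] {A B : F} {Om : ℂ} {Ω : Type} [Field Ω] [DecidableEq Ω]
  [Algebra F Ω] [IsAlgClosure F Ω] {j : Ω →+* ℂ} {act : 𝓞 F →+* AddMonoid.End (Pt (WAB A B) Ω)} {mo : Ideal (𝓞 F)}
  {ψ : Ideal (𝓞 F) →*₀ 𝓞 F} {p : ℕ} {M : IntermediateField F Ω} {V : ValuationSubring Ω} {γ : Ω ≃ₐ[F] Ω} {g : ℕ} {s₀ : Fin g → (Ω ≃ₐ[F] Ω)}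

/-- Chunk S4a (S/M). A class of a global point is a Selmer class: dlev; loc_i: the point s₀^-1 P, s in SN (dV V) conjugated by s₀ is in SN Gal(Ω/M) (hG, Gc_conj). -/
theorem selm_of_dm (dta : Dta A B Om j act mo ψ p) (hc : Cm act) (fr : Fr p M V γ g s₀) (n : ℕ) (f : RM act hc p M) (hf : f ∈ DM act hc p M.fixingSubgroup (GI p) n) :
    H35K.Selm p (gamF hc fr) (locF hc fr) (dF act hc p V) n f := by
  refine ⟨dlev dta hc GI_conj fr.gM fr.gen n f hf, fun i => ?_⟩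
  obtain ⟨P, ⟨k, hk⟩, hP⟩ := hf
  have hconj : ∀ x : Ω ≃ₐ[F] Ω, ∀ Q : PM act, aM act (s₀ i)⁻¹ (aM act (s₀ i * x * (s₀ i)⁻¹) Q) = aM act x (aM act (s₀ i)⁻¹ Q) := by
    intro x Q
    rw [← aM_mul, ← aM_mul]
    have h3 : (s₀ i)⁻¹ * (s₀ i * x * (s₀ i)⁻¹) = x * (s₀ i)⁻¹ := by group
    rw [h3]
  refine ⟨aM act (s₀ i)⁻¹ P, ⟨k, fun s hs => ?_⟩, fun x hx => ?_⟩
  · have h1 := hk _ ⟨fr.hG i s hs.1, Gc_conj hs.2 (s₀ i)⟩
    have h2 := congrArg (aM act (s₀ i)⁻¹) h1
    rw [hconj, map_nsmul] at h2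
    exact h2
  · have h1 : (locF hc fr i f).1 x = aM act (s₀ i)⁻¹ (f.1 (s₀ i * x * (s₀ i)⁻¹)) := if_pos hx
    have h2 : SH act M.fixingSubgroup p (s₀ i * x * (s₀ i)⁻¹) := ⟨fr.hG i x hx.1, FA_conj act hx.2 _⟩
    rw [h1, hP _ h2, map_sub, hconj]

/-- Chunk S4 (S/M). If there are finitely many Selmer classes of level n, the classes of global points of level n are zero: they form a finite divisible p-group (ddiv_gi). -/
theorem dm_bot (dta : Dta A B Om j act mo ψ p) (hin : Prime (p : 𝓞 F)) (hc : Cm act) (fr : Fr p M V γ g s₀) (n : ℕ)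
    (hfin : {r : RM act hc p M | H35K.Selm p (gamF hc fr) (locF hc fr) (dF act hc p V) n r}.Finite) (f : RM act hc p M)
    (hf : f ∈ DM act hc p M.fixingSubgroup (GI p) n) : f = 0 := by
  have hfD : Finite (DM act hc p M.fixingSubgroup (GI p) n) :=
    (hfin.subset fun r hr => selm_of_dm dta hc fr n r hr).to_subtype
  have hsurj : Function.Surjective (fun w : DM act hc p M.fixingSubgroup (GI p) n => p • w) := by
    intro w
    obtain ⟨w', hw', h⟩ := ddiv_gi dta hin hc n w.1 w.2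
    exact ⟨⟨w', hw'⟩, Subtype.ext h⟩
  have hinj := Finite.injective_iff_surjective.2 hsurj
  obtain ⟨k, hk⟩ := cls_tor hc f
  have hpow : ∀ (k : ℕ) (w : DM act hc p M.fixingSubgroup (GI p) n), p ^ k • w = 0 → w = 0 := by
    intro k
    induction k with
    | zero =>
      intro w hw
      rwa [pow_zero, one_smul] at hw
    | succ k ih =>
      intro w hw
      refine ih w (hinj ?_)
      show p • (p ^ k • w) = p • (0 : DM act hc p M.fixingSubgroup (GI p) n)
      rw [← mul_smul, ← pow_succ', hw, smul_zero]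
  have h1 := hpow k ⟨f, hf⟩ (Subtype.ext hk)
  exact congrArg Subtype.val h1

end H35L
end

-- from Lib.H35L.S2
section

/-! # H35L, chunk S2 (M): Selmer classes give classes of Sha -/

open NumberField IsDedekindDomain WeierstrassCurve

namespace H35L

open H55P (IQ Pt ac Inert Dec Nm)
open H35P (WAB)
open H55K (CMA Dta)
open H35K (Lev)

variable {F : Type} [Field F] [NumberField F] [IQ F] {A B : F} {Om : ℂ} {Ω : Type} [Field Ω] [DecidableEq Ω]
  [Algebra F Ω] [IsAlgClosure F Ω] {j : Ω →+* ℂ} {act : 𝓞 F →+* AddMonoid.End (Pt (WAB A B) Ω)} {mo : Ideal (𝓞 F)}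
  {ψ : Ideal (𝓞 F) →*₀ 𝓞 F} {p : ℕ} {M : IntermediateField F Ω} {V : ValuationSubring Ω} {γ : Ω ≃ₐ[F] Ω} {g : ℕ} {s₀ : Fin g → (Ω ≃ₐ[F] Ω)}

/-- Chunk S2 (M). A Selmer class f of level n: equivariant under level n (lev_iff); ext for the group of level n (sh_lg; sigma from exists_sig for V: of level n and in Gal(Ω/M) by Fr.spl) gives c; f is killed by p^k, so c too (Q = 0). Locally: V'(p) < 1: loc_p; V'(p) = 1, V' <> Ω: loc_np for
K = exists_layer. -/
theorem sh_of_selm (dta : Dta A B Om j act mo ψ p) (hin : Prime (p : 𝓞 F)) (hc : Cm act) (fr : Fr p M V γ g s₀) (n : ℕ) (f : RM act hc p M)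
    (hf : H35K.Selm p (gamF hc fr) (locF hc fr) (dF act hc p V) n f) :
    ∃ c : (Ω ≃ₐ[F] Ω) → PM act, IsSh act p (LG dta.prime M.fixingSubgroup n) c ∧ (∀ h, SH act M.fixingSubgroup p h → c h = f.1 h) ∧
      ∃ k : ℕ, ∀ s ∈ LG dta.prime M.fixingSubgroup n, p ^ k • c s = 0 := by
  have he := (lev_iff dta hc GI_conj fr.gM fr.gen n f).1 hf.1
  have hcls : IsCls act p (SH act M.fixingSubgroup p) (GI p) (SN M.fixingSubgroup p) f.1 := f.2
  obtain ⟨σ, hσ, hσg, hσb⟩ := exists_sig dta hin fr.above n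
  have hσG : σ ∈ LG dta.prime M.fixingSubgroup n := ⟨fr.spl V fr.above σ hσ, hσg⟩
  have hSH : SH act (LG dta.prime M.fixingSubgroup n) p = SH act M.fixingSubgroup p :=
    funext fun h => propext (sh_lg dta M.fixingSubgroup n h)
  have hhm : IsHm act p (SH act (LG dta.prime M.fixingSubgroup n) p) (GI p) f.1 := by
    rw [hSH]
    exact hcls.toIsHm
  obtain ⟨c, hco, hcf, hct, hck⟩ := ext dta hσG hσb hhm (fun s hs h hh => he s hs h (by rwa [hSH] at hh))
  have hcf' : ∀ h, SH act M.fixingSubgroup p h → c h = f.1 h := fun h hh => hcf h (by rwa [hSH])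
  obtain ⟨k, hk⟩ := cls_tor hc f
  have hk' : ∀ h, p ^ k • f.1 h = 0 := fun h => congrFun (congrArg Subtype.val hk) h
  refine ⟨c, ⟨hco, ⟨k, 0, fun s hs => ?_⟩, fun V' hV' => ?_⟩, hcf', k, fun s hs => hck k hk' s hs⟩
  · rw [hck k hk' s hs, map_zero, sub_zero]
  · have hle : V'.valuation (p : Ω) ≤ 1 := (V'.valuation_le_one_iff _).2 (natCast_mem V' p)
    rcases hle.lt_or_eq with hlt | heq
    · exact loc_p dta hin hc fr n f he hf.2 hco hct hcf' hlt
    · have hfin := fr.fin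
      obtain ⟨K, hKf, hKe⟩ := exists_layer dta.prime M n
      rw [← hKe] at hco hct hSH
      obtain ⟨P, _, hP⟩ := loc_np dta hin K hco hct (fun h hh hg => by
        rw [hSH] at hh
        rw [hcf' h hh]
        exact hcls.unr h hh hg) hV' heq
      refine ⟨P, fun s hs hd => hP s ?_ hd⟩
      rw [hKe]
      exact hs

end H35L
end

-- from Lib.H35L.S3
section

/-! # H35L, chunk S3 (M): classes of Sha come from Selmer classes -/

open NumberField IsDedekindDomain WeierstrassCurve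

namespace H35L

open H55P (IQ Pt ac Inert Dec Nm)
open H35P (WAB)
open H55K (CMA Dta)
open H35K (Lev)

variable {F : Type} [Field F] [NumberField F] [IQ F] {A B : F} {Om : ℂ} {Ω : Type} [Field Ω] [DecidableEq Ω]
  [Algebra F Ω] [IsAlgClosure F Ω] {j : Ω →+* ℂ} {act : 𝓞 F →+* AddMonoid.End (Pt (WAB A B) Ω)} {mo : Ideal (𝓞 F)}
  {ψ : Ideal (𝓞 F) →*₀ 𝓞 F} {p : ℕ} {M : IntermediateField F Ω} {V : ValuationSubring Ω} {γ : Ω ≃ₐ[F] Ω} {g : ℕ} {s₀ : Fin g → (Ω ≃ₐ[F] Ω)}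

/-- Chunk S3 (M). c in Sha of the group of level n, p^k c = s Q - Q, p^k P = Q (CMA.surj): c' = c - (s P - P) is killed by p^k. f = c' on SH, 0 outside: a homomorphism (SH acts trivially on the values), continuous (c is, and H55P.pt_open for P), equivariant under level n (c'(s h s^-1) = s c'(h) + c'(s) -
s h s^-1 c'(s)), zero on GI: h in Inert V', V'(p) = 1; V' = Ω: h = 1; otherwise (Inert in Dec) c'(h) = h R - R with R = P_V' - P, killed by p^k, h fixes the points killed by p: H55K.inert_fix gives h R = R. Level n: lev_iff. loc_i f in D n: V' = s₀ V (comap), c'(s) = s R - R on the elements of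
level n of Dec V' (they fix M: Fr.spl), p^k R is fixed by them; s₀^-1 c'(s₀ h s₀^-1) = h (s₀^-1 R) - s₀^-1 R. -/
theorem selm_of_sh (dta : Dta A B Om j act mo ψ p) (hin : Prime (p : 𝓞 F)) (hc : Cm act) (fr : Fr p M V γ g s₀) (n : ℕ) {c : (Ω ≃ₐ[F] Ω) → PM act}
    (h : IsSh act p (LG dta.prime M.fixingSubgroup n) c) :
    ∃ (f : RM act hc p M) (P : PM act), H35K.Selm p (gamF hc fr) (locF hc fr) (dF act hc p V) n f ∧
      (∃ k : ℕ, ∀ s ∈ LG dta.prime M.fixingSubgroup n, p ^ k • (c s - (aM act s P - P)) = 0) ∧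
      ∀ h, SH act M.fixingSubgroup p h → c h - (aM act h P - P) = f.1 h := by
  classical
  have hp := dta.prime
  obtain ⟨k, Q, hQ⟩ := h.tor
  obtain ⟨P, hPQ⟩ : ∃ P : PM act, p ^ k • P = Q := by
    have hp0 : (p : 𝓞 F) ^ k ≠ 0 := pow_ne_zero _ (by exact_mod_cast hp.ne_zero)
    obtain ⟨P, hP⟩ := dta.cma.surj ((p : 𝓞 F) ^ k) hp0 Q
    let b : PM act := P
    refine ⟨b, ?_⟩
    rw [← Nat.cast_smul_eq_nsmul (𝓞 F), Nat.cast_pow]
    exact hP
  obtain ⟨c', hc'⟩ : ∃ c' : (Ω ≃ₐ[F] Ω) → PM act, ∀ s, c' s = c s - (aM act s P - P) := ⟨_, fun _ => rfl⟩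
  have hmem : ∀ s, s ∈ LG dta.prime M.fixingSubgroup n ↔ s ∈ M.fixingSubgroup ∧ Gc p n s := fun _ => Iff.rfl
  have hSG : ∀ {h}, SH act M.fixingSubgroup p h → h ∈ LG dta.prime M.fixingSubgroup n := fun hh => ⟨hh.1, fa_gc dta hh.2 n⟩
  have hk : ∀ s ∈ LG dta.prime M.fixingSubgroup n, p ^ k • c' s = 0 := by
    intro s hs
    rw [hc', smul_sub, hQ s hs, smul_sub, ← map_nsmul, hPQ, sub_self]
  have hmul : ∀ s ∈ LG dta.prime M.fixingSubgroup n, ∀ t ∈ LG dta.prime M.fixingSubgroup n, c' (s * t) = c' s + aM act s (c' t) := by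
    intro s hs t ht
    rw [hc', hc', hc', h.mul s hs t ht, aM_mul, map_sub, map_sub]
    abel
  have hone : c' 1 = 0 := by
    have h1 := hmul 1 (one_mem _) 1 (one_mem _)
    rw [one_mul, aM_one] at h1
    exact left_eq_add.1 h1
  have hloc : ∀ V' : ValuationSubring Ω, V' ≠ ⊤ → ∃ R : PM act, ∀ s ∈ LG dta.prime M.fixingSubgroup n, Dec V' s →
      c' s = aM act s R - R := by
    intro V' hV'
    obtain ⟨R, hR⟩ := h.loc V' hV'
    refine ⟨R - P, fun s hs hd => ?_⟩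
    rw [hc', hR s hs hd, map_sub]
    abel
  have hSHG : ∀ {a b}, SH act M.fixingSubgroup p a → SH act M.fixingSubgroup p b → SH act M.fixingSubgroup p (a * b) :=
    fun ha hb => ⟨mul_mem ha.1 hb.1, FA_mul act ha.2 hb.2⟩
  have heq : ∀ s, SN M.fixingSubgroup p n s → ∀ x, SH act M.fixingSubgroup p x → c' (s * x * s⁻¹) = aM act s (c' x) := by
    intro s hs x hx
    have hs' : s ∈ LG dta.prime M.fixingSubgroup n := hs
    have h1 : c' s⁻¹ = - aM act s⁻¹ (c' s) := by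
      have h2 := hmul s⁻¹ (inv_mem hs') s hs'
      rw [inv_mul_cancel, hone] at h2
      exact eq_neg_of_add_eq_zero_left h2.symm
    have h3 : aM act (s * x * s⁻¹) (c' s) = c' s := FA_conj act hx.2 s _ ⟨k, hk s hs'⟩
    rw [hmul _ (mul_mem hs' (hSG hx)) _ (inv_mem hs'), hmul _ hs' _ (hSG hx), h1, map_neg, ← aM_mul, h3]
    abel
  obtain ⟨f, hf⟩ : ∃ f : (Ω ≃ₐ[F] Ω) → PM act, f = fun x => if SH act M.fixingSubgroup p x then c' x else 0 := ⟨_, rfl⟩
  have hf1 : ∀ x, SH act M.fixingSubgroup p x → f x = c' x := fun x hx => by rw [hf]; exact if_pos hx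
  have hf0 : ∀ x, ¬ SH act M.fixingSubgroup p x → f x = 0 := fun x hx => by rw [hf]; exact if_neg hx
  have halg : Algebra.IsAlgebraic F Ω := IsAlgClosure.isAlgebraic
  have hfc : IsCls act p (SH act M.fixingSubgroup p) (GI p) (SN M.fixingSubgroup p) f := by
    refine ⟨⟨hf0, fun x hx y hy => ?_, fun x => ?_, ?_, fun x hx hi => ?_⟩, ⟨n, fun s hs x hx => ?_⟩⟩
    · rw [hf1 _ (hSHG hx hy), hf1 _ hx, hf1 _ hy, hmul _ (hSG hx) _ (hSG hy), hx.2 _ ⟨k, hk y (hSG hy)⟩]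
    · by_cases hx : SH act M.fixingSubgroup p x
      · exact ⟨k, by rw [hf1 x hx, hk x (hSG hx)]⟩
      · exact ⟨0, by rw [hf0 x hx, smul_zero]⟩
    · obtain ⟨L, hL, hL1⟩ := h.cont
      obtain ⟨L', hL', hL1'⟩ := H55P.pt_open (F := F) (WAB A B) (P : Pt (WAB A B) Ω)
      refine ⟨L ⊔ L', inferInstance, fun x hx hm => ?_⟩
      rw [IntermediateField.fixingSubgroup_sup] at hm
      have h2 : aM act x P = P := hL1' x hm.2
      rw [hf1 x hx, hc', hL1 x (hSG hx) hm.1, h2, sub_self, sub_self]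
    · rw [hf1 x hx]
      obtain ⟨V', hV', hin'⟩ := hi
      by_cases htop : V' = ⊤
      · have h2 : x = 1 := by
          apply AlgEquiv.ext
          intro y
          have h3 := hin' y (by rw [htop]; exact ValuationSubring.mem_top y)
          rw [H55P.lt1_iff] at h3
          rcases h3 with h3 | h3
          · exact sub_eq_zero.1 h3
          · exact absurd (by rw [htop]; exact ValuationSubring.mem_top _) h3
        rw [h2, hone]
      · obtain ⟨R, hR⟩ := hloc V' htop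
        have h2 := hR x (hSG hx) (H55P.inert_dec V' x hin')
        have h3 := hk x (hSG hx)
        rw [h2] at h3
        obtain ⟨Kg, u, hG⟩ := dta.gmod V'
        have hfix : ∀ T ∈ H55K.Tor act (p : 𝓞 F), ac (WAB A B) x T = T := by
          intro T hT
          refine hx.2 T ⟨1, ?_⟩
          rw [pow_one, ← Nat.cast_smul_eq_nsmul (𝓞 F)]
          exact hT
        have hkV : V'.valuation ((p ^ k : ℕ) : Ω) = 1 := by
          rw [Nat.cast_pow, map_pow, hV', one_pow]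
        have h4 : aM act x R = R := H55K.inert_fix dta.cma dta.prime dta.five hin dvd_rfl hG hV' x hin' hfix (p ^ k) hkV R h3
        rw [h2, h4, sub_self]
    · rw [hf1 x hx, hf1 _ (⟨mul_mem (mul_mem hs.1 hx.1) (inv_mem hs.1), FA_conj act hx.2 s⟩)]
      exact heq s hs x hx
  refine ⟨⟨f, hfc⟩, P, ⟨?_, fun i => ?_⟩, ⟨k, fun s hs => ?_⟩, fun x hx => ?_⟩
  · refine (lev_iff dta hc GI_conj fr.gM fr.gen n ⟨f, hfc⟩).2 fun s hs x hx => ?_
    show f (s * x * s⁻¹) = aM act s (f x)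
    rw [hf1 x hx, hf1 _ (⟨mul_mem (mul_mem hs.1 hx.1) (inv_mem hs.1), FA_conj act hx.2 s⟩)]
    exact heq s hs x hx
  · have hm : ∀ x, x ∈ V.comap (((s₀ i)⁻¹ : Ω ≃ₐ[F] Ω) : Ω →+* Ω) ↔ ((s₀ i)⁻¹ : Ω ≃ₐ[F] Ω) x ∈ V := fun x => ValuationSubring.mem_comap
    have hV0 : V.comap (((s₀ i)⁻¹ : Ω ≃ₐ[F] Ω) : Ω →+* Ω) ≠ ⊤ := by
      intro htop
      have h1 := (H55P.lt1_iff V (p : Ω)).1 fr.above
      have h2 : ((p : Ω))⁻¹ ∈ V := by
        have h3 : ((p : Ω))⁻¹ ∈ V.comap (((s₀ i)⁻¹ : Ω ≃ₐ[F] Ω) : Ω →+* Ω) := by rw [htop]; exact ValuationSubring.mem_top _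
        rw [hm, map_inv₀, map_natCast] at h3
        exact h3
      rcases h1 with h1 | h1
      · rw [h1, inv_zero] at h2
        have hac : IsAlgClosed Ω := IsAlgClosure.isAlgClosed F
        have hchar : CharZero Ω := charZero_of_injective_algebraMap (algebraMap F Ω).injective
        exact hp.ne_zero (by exact_mod_cast h1)
      · exact h1 h2
    obtain ⟨R, hR⟩ := hloc _ hV0
    have hd : ∀ s ∈ dV (F := F) V, Dec (V.comap (((s₀ i)⁻¹ : Ω ≃ₐ[F] Ω) : Ω →+* Ω)) (s₀ i * s * (s₀ i)⁻¹) := by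
      intro s hs x
      rw [hm, hm, AlgEquiv.mul_apply, AlgEquiv.mul_apply]
      have h2 : ((s₀ i)⁻¹ : Ω ≃ₐ[F] Ω) (s₀ i (s (((s₀ i)⁻¹ : Ω ≃ₐ[F] Ω) x))) = s (((s₀ i)⁻¹ : Ω ≃ₐ[F] Ω) x) := (s₀ i).symm_apply_apply _
      rw [h2]
      exact hs _
    have hval : ∀ s ∈ dV (F := F) V, Gc p n s → c' (s₀ i * s * (s₀ i)⁻¹) = aM act (s₀ i * s * (s₀ i)⁻¹) R - R := fun s hs hg =>
      hR _ ⟨fr.hG i s hs, Gc_conj hg (s₀ i)⟩ (hd s hs)
    have hinv : ∀ P' : PM act, aM act (s₀ i)⁻¹ (aM act (s₀ i) P') = P' := by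
      intro P'
      rw [← aM_mul, inv_mul_cancel, aM_one]
    refine ⟨aM act (s₀ i)⁻¹ R, ⟨k, fun s hs => ?_⟩, fun x hx => ?_⟩
    · have h1 := hk _ (⟨fr.hG i s hs.1, Gc_conj hs.2 (s₀ i)⟩ : s₀ i * s * (s₀ i)⁻¹ ∈ LG dta.prime M.fixingSubgroup n)
      rw [hval s hs.1 hs.2, smul_sub, sub_eq_zero, ← map_nsmul] at h1
      have h2 := congrArg (aM act (s₀ i)⁻¹) h1
      rw [← aM_mul] at h2
      have h3 : (s₀ i)⁻¹ * (s₀ i * s * (s₀ i)⁻¹) = s * (s₀ i)⁻¹ := by group
      rw [h3, aM_mul] at h2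
      rw [← map_nsmul]
      exact h2
    · have h1 : (locF hc fr i ⟨f, hfc⟩).1 x = aM act (s₀ i)⁻¹ (f (s₀ i * x * (s₀ i)⁻¹)) := if_pos hx
      have h2 : SH act M.fixingSubgroup p (s₀ i * x * (s₀ i)⁻¹) := ⟨fr.hG i x hx.1, FA_conj act hx.2 _⟩
      rw [h1, hf1 _ h2, hval x hx.1 (fa_gc dta hx.2 n), map_sub, ← aM_mul]
      have h3 : (s₀ i)⁻¹ * (s₀ i * x * (s₀ i)⁻¹) = x * (s₀ i)⁻¹ := by group
      rw [h3, aM_mul]
  · rw [← hc']
    exact hk s hs
  · rw [← hc']
    exact (hf1 x hx).symm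

end H35L
end

-- from Lib.H35L.S6
section

/-! # H35L, S6: the Tate-Shafarevich group of level n and the Selmer classes -/

open NumberField IsDedekindDomain WeierstrassCurve

namespace H35L

open H55P (IQ Pt ac Inert Dec Nm)
open H35P (WAB)
open H55K (CMA Dta)
open H35K (Lev)

open scoped Classical

variable {F : Type} [Field F] [NumberField F] [IQ F] {A B : F} {Om : ℂ} {Ω : Type} [Field Ω]
  [Algebra F Ω] [IsAlgClosure F Ω] {j : Ω →+* ℂ} {act : 𝓞 F →+* AddMonoid.End (Pt (WAB A B) Ω)} {mo : Ideal (𝓞 F)}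
  {ψ : Ideal (𝓞 F) →*₀ 𝓞 F} {p : ℕ} {M : IntermediateField F Ω} {V : ValuationSubring Ω} {γ : Ω ≃ₐ[F] Ω} {g : ℕ} {s₀ : Fin g → (Ω ≃ₐ[F] Ω)}

/-- Two classes whose cocycles have the same class in Sha are equal. -/
theorem s6_inj (dta : Dta A B Om j act mo ψ p) (hin : Prime (p : 𝓞 F)) (hc : Cm act) (fr : Fr p M V γ g s₀) (n : ℕ)
    (hfin : {r : RM act hc p M | H35K.Selm p (gamF hc fr) (locF hc fr) (dF act hc p V) n r}.Finite) {r r' : RM act hc p M}
    {c c' : (Ω ≃ₐ[F] Ω) → PM act} (h2 : ∀ h, SH act M.fixingSubgroup p h → c h = r.1 h) (h2' : ∀ h, SH act M.fixingSubgroup p h → c' h = r'.1 h)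
    (h3 : ∃ k : ℕ, ∀ s ∈ LG dta.prime M.fixingSubgroup n, p ^ k • c s = 0) (h3' : ∃ k : ℕ, ∀ s ∈ LG dta.prime M.fixingSubgroup n, p ^ k • c' s = 0)
    (h : ∃ P : PM act, ∀ s ∈ LG dta.prime M.fixingSubgroup n, c s - c' s = aM act s P - P) : r = r' := by
  obtain ⟨P, hP⟩ := h
  obtain ⟨k, hk⟩ := h3
  obtain ⟨l, hl⟩ := h3'
  have h4 : r - r' ∈ DM act hc p M.fixingSubgroup (GI p) n := by
    refine ⟨P, ⟨k + l, fun s hs => ?_⟩, fun h hh => ?_⟩
    · have h5 : p ^ (k + l) • (c s - c' s) = 0 := by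
        rw [smul_sub, pow_add, mul_smul, mul_smul, hl s hs, smul_zero, sub_zero, smul_comm, hk s hs, smul_zero]
      rw [hP s hs, smul_sub, sub_eq_zero] at h5
      rw [map_nsmul]
      exact h5
    · have h5 := hP h (((sh_lg dta M.fixingSubgroup n h).2 hh).1)
      rw [h2 h hh, h2' h hh] at h5
      exact h5
  exact sub_eq_zero.1 (dm_bot dta hin hc fr n hfin _ h4)

/-- The cocycle of the class of a cocycle has the same class in Sha. -/
theorem s6_surj (dta : Dta A B Om j act mo ψ p) (hin : Prime (p : 𝓞 F)) (fr : Fr p M V γ g s₀) (n : ℕ)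
    {c c' f : (Ω ≃ₐ[F] Ω) → PM act} {P : PM act} (hco : IsCo act (LG dta.prime M.fixingSubgroup n) c) (hco' : IsCo act (LG dta.prime M.fixingSubgroup n) c')
    (h2 : ∀ h, SH act M.fixingSubgroup p h → c h = f h) (h2' : ∀ h, SH act M.fixingSubgroup p h → c' h - (aM act h P - P) = f h)
    (h3 : ∃ k : ℕ, ∀ s ∈ LG dta.prime M.fixingSubgroup n, p ^ k • c s = 0)
    (h3' : ∃ k : ℕ, ∀ s ∈ LG dta.prime M.fixingSubgroup n, p ^ k • (c' s - (aM act s P - P)) = 0) :
    ∃ P : PM act, ∀ s ∈ LG dta.prime M.fixingSubgroup n, c s - c' s = aM act s P - P := by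
  obtain ⟨k, hk⟩ := h3
  obtain ⟨l, hl⟩ := h3'
  obtain ⟨σ, hσ, hg, hb⟩ := exists_sig dta hin fr.above n
  have hσ' : σ ∈ LG dta.prime M.fixingSubgroup n := ⟨fr.spl V fr.above σ hσ, hg⟩
  obtain ⟨a, -, -, ha⟩ := cob dta (G := LG dta.prime M.fixingSubgroup n) hσ' hb (c := fun s => c s - (c' s - (aM act s P - P)))
    (fun s hs t ht => by
      show c (s * t) - (c' (s * t) - (aM act (s * t) P - P)) = c s - (c' s - (aM act s P - P)) + aM act s (c t - (c' t - (aM act t P - P)))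
      rw [hco.mul s hs t ht, hco'.mul s hs t ht, aM_mul, map_sub, map_sub, map_sub]
      abel)
    (fun s hs => ⟨k + l, by
      show p ^ (k + l) • (c s - (c' s - (aM act s P - P))) = 0
      rw [smul_sub, pow_add, mul_smul, mul_smul, hl s hs, smul_zero, sub_zero, smul_comm, hk s hs, smul_zero]⟩)
    (fun s hs => by
      have h5 : SH act M.fixingSubgroup p (σ * s * σ⁻¹ * s⁻¹) :=
        ⟨mul_mem (mul_mem (mul_mem hσ'.1 hs.1) (inv_mem hσ'.1)) (inv_mem hs.1), fa_comm dta σ s⟩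
      show c (σ * s * σ⁻¹ * s⁻¹) - (c' (σ * s * σ⁻¹ * s⁻¹) - (aM act (σ * s * σ⁻¹ * s⁻¹) P - P)) = 0
      rw [h2 _ h5, h2' _ h5, sub_self])
  refine ⟨a - P, fun s hs => ?_⟩
  have h6 := ha s hs
  have h7 : c s = aM act s a - a + (c' s - (aM act s P - P)) := by
    rw [← h6]
    abel
  rw [h7, map_sub]
  abel

/-- The number of elements of order a power of p of the Tate-Shafarevich group of level n is the number of the Selmer classes of level n. -/
theorem card_sha (dta : Dta A B Om j act mo ψ p) (hin : Prime (p : 𝓞 F)) (hc : Cm act) (fr : Fr p M V γ g s₀) (n : ℕ)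
    (hfin : {r : RM act hc p M | H35K.Selm p (gamF hc fr) (locF hc fr) (dF act hc p V) n r}.Finite) :
    Nat.card (SSG.PP p ((SSG.galS (WAB A B) Ω).res (LG dta.prime M.fixingSubgroup n)).Sha) =
      Nat.card {r : RM act hc p M // H35K.Selm p (gamF hc fr) (locF hc fr) (dF act hc p V) n r} := by
  choose c hc1 hc2 hc3 using fun r : {r : RM act hc p M // H35K.Selm p (gamF hc fr) (locF hc fr) (dF act hc p V) n r} => sh_of_selm dta hin hc fr n r.1 r.2
  let Φ : {r : RM act hc p M // H35K.Selm p (gamF hc fr) (locF hc fr) (dF act hc p V) n r} →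
      SSG.PP p (SyH A B (LG dta.prime M.fixingSubgroup n)).Sha := fun r => ⟨(SyH A B (LG dta.prime M.fixingSubgroup n)).cl (mkZ (hc1 r)), mkZ_pp _⟩
  refine (Nat.card_congr (Equiv.ofBijective Φ ⟨fun r r' h => ?_, ?_⟩)).symm
  · have h1 : (SyH A B (LG dta.prime M.fixingSubgroup n)).cl (mkZ (hc1 r)) = (SyH A B (LG dta.prime M.fixingSubgroup n)).cl (mkZ (hc1 r')) := congrArg Subtype.val h
    exact Subtype.ext (s6_inj dta hin hc fr n hfin (hc2 r) (hc2 r') (hc3 r) (hc3 r') ((mkZ_eq _ _).1 h1))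
  · rintro ⟨x, hx⟩
    obtain ⟨c', h', rfl⟩ := mkZ_surj act x hx
    obtain ⟨f, P, hf, hk, hP⟩ := selm_of_sh dta hin hc fr n h'
    refine ⟨⟨f, hf⟩, Subtype.ext ?_⟩
    exact (mkZ_eq _ _).2 (s6_surj dta hin fr n (hc1 ⟨f, hf⟩).toIsCo h'.toIsCo (hc2 ⟨f, hf⟩) hP (hc3 ⟨f, hf⟩) hk)

end H35L
end

-- from Lib.H35L.R0A
section

/-! # H35L, chunk R0A (M): abstract bound, level 0 -/

open NumberField IsDedekindDomain WeierstrassCurve

namespace H35L

open H55P (IQ Pt ac Inert Dec Nm)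
open H35P (WAB)
open H55K (CMA Dta)
open H35K (Lev)

variable {F : Type} [Field F] [NumberField F] [IQ F] {A B : F} {Om : ℂ} {Ω : Type} [Field Ω] [DecidableEq Ω]
  [Algebra F Ω] [IsAlgClosure F Ω] {j : Ω →+* ℂ} {act : 𝓞 F →+* AddMonoid.End (Pt (WAB A B) Ω)} {mo : Ideal (𝓞 F)}
  {ψ : Ideal (𝓞 F) →*₀ 𝓞 F} {p : ℕ} {M : IntermediateField F Ω} {V : ValuationSubring Ω} {γ : Ω ≃ₐ[F] Ω} {g : ℕ} {s₀ : Fin g → (Ω ≃ₐ[F] Ω)}

/-- Chunk R0a (M). Abstract: gam on R, del on W, loc_i, inj, |W_0[p]| <= q^2, |D_0[p]| = q: at most q^g classes of level 0 killed by p. As in H35K.a3 (the map r -> (loc_i r modulo D_0[p]) is injective, the targets have at most q elements). -/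
theorem r0_abs {O R W : Type} [CommRing O] [AddCommGroup R] [Module O R] [AddCommGroup W] [Module O W] {p q g : ℕ} (hq : 2 ≤ q) (gam : R →ₗ[O] R) (del : W →ₗ[O] W)
    (loc : Fin g → R →ₗ[O] W) (D0 : Submodule O W) (hcomm : ∀ v r, loc v (gam r) = del (loc v r)) (hd : ∀ w ∈ D0, del w = w)
    (w0f : Finite {w : W // p • w = 0 ∧ del w = w}) (w0 : Nat.card {w : W // p • w = 0 ∧ del w = w} ≤ q ^ 2)
    (hdp : Nat.card {w : W // w ∈ D0 ∧ p • w = 0} = q) (hinj : ∀ r : R, p • r = 0 → gam r = r → (∀ v, loc v r ∈ D0) → r = 0) :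
    Finite {r : R // p • r = 0 ∧ gam r = r} ∧ Nat.card {r : R // p • r = 0 ∧ gam r = r} ≤ q ^ g := by
  have hqpos : 0 < q := by omega
  let K : AddSubgroup W :=
    { carrier := {w : W | p • w = 0 ∧ del w = w}
      zero_mem' := ⟨smul_zero _, map_zero _⟩
      add_mem' := fun {a b} ha hb => ⟨by rw [smul_add, ha.1, hb.1, add_zero], by rw [map_add, ha.2, hb.2]⟩
      neg_mem' := fun {a} ha => ⟨by rw [smul_neg, ha.1, neg_zero], by rw [map_neg, ha.2]⟩ }
  let E1 : AddSubgroup K := D0.toAddSubgroup.comap K.subtype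
  have hKf : Finite K := w0f
  have hKc : Nat.card K ≤ q ^ 2 := w0
  have hE1c : Nat.card E1 = q := by
    rw [← hdp]
    exact Nat.card_congr ⟨fun e => ⟨e.1.1, e.2, e.1.2.1⟩, fun e => ⟨⟨e.1, e.2.2, hd e.1 e.2.1⟩, e.2.1⟩,
      fun _ => rfl, fun _ => rfl⟩
  have hQc : Nat.card (K ⧸ E1) ≤ q := by
    have h3 : Nat.card K = Nat.card (K ⧸ E1) * Nat.card E1 :=
      AddSubgroup.card_eq_card_quotient_mul_card_addSubgroup E1
    rw [h3, hE1c, pow_two] at hKc
    exact Nat.le_of_mul_le_mul_right hKc hqpos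
  have hQf : Finite (K ⧸ E1) := Finite.of_surjective (QuotientAddGroup.mk' E1) (QuotientAddGroup.mk'_surjective E1)
  let f : {r : R // p • r = 0 ∧ gam r = r} → (Fin g → K ⧸ E1) := fun r v =>
    QuotientAddGroup.mk' E1 ⟨loc v r.1, by
      constructor
      · rw [← map_nsmul, r.2.1, map_zero]
      · rw [← hcomm, r.2.2]⟩
  have hf : Function.Injective f := by
    intro r r' h
    have h3 : r.1 - r'.1 = 0 := by
      refine hinj _ (by rw [smul_sub, r.2.1, r'.2.1, sub_zero]) (by rw [map_sub, r.2.2, r'.2.2]) fun v => ?_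
      have h4 := congrFun h v
      have h5 := QuotientAddGroup.eq.mp h4
      have h6 : loc v (r.1 - r'.1) = -(-(loc v r.1) + (loc v r'.1)) := by
        rw [map_sub]
        abel
      rw [h6]
      exact D0.neg_mem h5
    exact Subtype.ext (sub_eq_zero.mp h3)
  refine ⟨Finite.of_injective f hf, ?_⟩
  have h3 := Nat.card_le_card_of_injective f hf
  rw [Nat.card_fun] at h3
  refine h3.trans ?_
  rw [Nat.card_fin]
  exact Nat.pow_le_pow_left hQc g

end H35L
end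

-- from Lib.H35L.R0B
section

/-! # H35L, chunk R0B (S/M): abstract bound, level n -/

open NumberField IsDedekindDomain WeierstrassCurve

namespace H35L

open H55P (IQ Pt ac Inert Dec Nm)
open H35P (WAB)
open H55K (CMA Dta)
open H35K (Lev)

variable {F : Type} [Field F] [NumberField F] [IQ F] {A B : F} {Om : ℂ} {Ω : Type} [Field Ω] [DecidableEq Ω]
  [Algebra F Ω] [IsAlgClosure F Ω] {j : Ω →+* ℂ} {act : 𝓞 F →+* AddMonoid.End (Pt (WAB A B) Ω)} {mo : Ideal (𝓞 F)}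
  {ψ : Ideal (𝓞 F) →*₀ 𝓞 F} {p : ℕ} {M : IntermediateField F Ω} {V : ValuationSubring Ω} {γ : Ω ≃ₐ[F] Ω} {g : ℕ} {s₀ : Fin g → (Ω ≃ₐ[F] Ω)}

/-- Chunk R0b (S/M). So there are at most (q^g)^(p^n) classes of level n killed by p: H35K.a1_bound for gam - 1 on the elements killed by p, lev_p (as in H35K.t1_leW). -/
theorem rn_abs {O R : Type} [CommRing O] [AddCommGroup R] [Module O R] {p c : ℕ} (hp : p.Prime) (gam : R →ₗ[O] R)
    (h0f : Finite {r : R // p • r = 0 ∧ gam r = r}) (h0 : Nat.card {r : R // p • r = 0 ∧ gam r = r} ≤ c) (n : ℕ) :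
    Finite {r : R // p • r = 0 ∧ Lev p n gam r} ∧ Nat.card {r : R // p • r = 0 ∧ Lev p n gam r} ≤ c ^ p ^ n := by
  let X : AddMonoid.End (H35K.b2_T O R p) := H35K.b2_en (H35K.b2_r p (gam - 1))
  have hX : ∀ j (u : H35K.b2_T O R p), (X ^ j) u = (H35K.b2_r p (gam - 1) ^ j) u :=
    fun j u => H35K.b2_End (H35K.b2_r p (gam - 1)) j u
  have e0 : {v : H35K.b2_T O R p // X v = 0} ≃ {w : R // p • w = 0 ∧ gam w = w} :=
    { toFun := fun u => ⟨(u.1 : R), H35K.b2_mem.1 u.1.2, by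
        have h2 := congrArg Subtype.val u.2
        change ((H35K.b2_r p (gam - 1) u.1 : H35K.b2_T O R p) : R) = 0 at h2
        rw [H35K.b2_r_coe, H35K.b2_sub_one] at h2
        exact sub_eq_zero.1 h2⟩
      invFun := fun z => ⟨⟨z.1, H35K.b2_mem.2 z.2.1⟩, Subtype.ext (show gam z.1 - z.1 = 0 from sub_eq_zero.2 z.2.2)⟩
      left_inv := fun u => rfl
      right_inv := fun z => rfl }
  obtain ⟨h1, h2⟩ := H35K.a1_bound X (c := c) (Finite.of_equiv _ e0.symm) ((Nat.card_congr e0).trans_le h0) (p ^ n)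
  have e : {v : H35K.b2_T O R p // (X ^ p ^ n) v = 0} ≃ {w : R // p • w = 0 ∧ Lev p n gam w} :=
    { toFun := fun u => ⟨(u.1 : R), H35K.b2_mem.1 u.1.2, (H35K.lev_p hp n gam _ (H35K.b2_mem.1 u.1.2)).2
        ((H35K.b2_pow_zero _ _ _).1 (by rw [← hX]; exact u.2))⟩
      invFun := fun z => ⟨⟨z.1, H35K.b2_mem.2 z.2.1⟩, by
        rw [hX]
        exact (H35K.b2_pow_zero _ _ _).2 ((H35K.lev_p hp n gam _ z.2.1).1 z.2.2)⟩
      left_inv := fun u => rfl
      right_inv := fun z => rfl }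
  refine ⟨Finite.of_equiv _ e, ?_⟩
  rw [← Nat.card_congr e]
  exact h2

end H35L
end

-- from Lib.H35L.R0
section

/-! # H35L, chunk R0 (S/M): upper bounds for the classes killed by p -/

open NumberField IsDedekindDomain WeierstrassCurve

namespace H35L

open H55P (IQ Pt ac Inert Dec Nm)
open H35P (WAB)
open H55K (CMA Dta)
open H35K (Lev)

variable {F : Type} [Field F] [NumberField F] [IQ F] {A B : F} {Om : ℂ} {Ω : Type} [Field Ω] [DecidableEq Ω]
  [Algebra F Ω] [IsAlgClosure F Ω] {j : Ω →+* ℂ} {act : 𝓞 F →+* AddMonoid.End (Pt (WAB A B) Ω)} {mo : Ideal (𝓞 F)}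
  {ψ : Ideal (𝓞 F) →*₀ 𝓞 F} {p : ℕ} {M : IntermediateField F Ω} {V : ValuationSubring Ω} {γ : Ω ≃ₐ[F] Ω} {g : ℕ} {s₀ : Fin g → (Ω ≃ₐ[F] Ω)}

/-- Chunk R0 (S/M). For the classes: lo_comm, dlev (n = 0), LocF, inj. -/
theorem rn_le (dta : Dta A B Om j act mo ψ p) (hin : Prime (p : 𝓞 F)) (hc : Cm act) (fr : Fr p M V γ g s₀) (sel : H55P.SelZero (WAB A B) p M)
    (lf : LocF act hc p (p ^ 2) V fr.gam) (n : ℕ) :
    Finite {r : RM act hc p M // p • r = 0 ∧ Lev p n (gamF hc fr) r} ∧ Nat.card {r : RM act hc p M // p • r = 0 ∧ Lev p n (gamF hc fr) r} ≤ (p ^ 2) ^ (g * p ^ n) := by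
  classical
  have hp : p.Prime := dta.prime
  have hq : 2 ≤ p ^ 2 := by
    have := hp.two_le
    nlinarith
  have hd : ∀ w ∈ dF act hc p V 0, delF hc fr w = w := by
    intro w hw
    have h1 := dlev dta hc LI_conj fr.gam fr.gen 0 w hw
    simpa [Lev] using h1
  have h0 := r0_abs (O := 𝓞 F) (R := RM act hc p M) (W := WM act hc p V) (p := p) (q := p ^ 2) (g := g) hq
    (gamF hc fr) (delF hc fr) (locF hc fr) (dF act hc p V 0)
    (fun i r => lo_comm dta hc GI_conj fr.gM fr.gam (fr.hG i) r) hd lf.w0f lf.w0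
    (by
      have h1 := lf.dp 0
      rw [pow_zero, pow_one] at h1
      exact h1)
    (fun r h1 h2 h3 => inj dta hin hc fr sel r h1 h2 h3)
  have h1 := rn_abs hp (gamF hc fr) h0.1 h0.2 n
  rw [← pow_mul] at h1
  exact h1

end H35L
end

-- from Lib.H35L.S4
section

/-! # H35L, chunk S4 (M): rational points -/

open NumberField IsDedekindDomain WeierstrassCurve

namespace H35L

open H55P (IQ Pt ac Inert Dec Nm)
open H35P (WAB)
open H55K (CMA Dta)
open H35K (Lev)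

variable {F : Type} [Field F] [NumberField F] [IQ F] {A B : F} {Om : ℂ} {Ω : Type} [Field Ω] [DecidableEq Ω]
  [Algebra F Ω] [IsAlgClosure F Ω] {j : Ω →+* ℂ} {act : 𝓞 F →+* AddMonoid.End (Pt (WAB A B) Ω)} {mo : Ideal (𝓞 F)}
  {ψ : Ideal (𝓞 F) →*₀ 𝓞 F} {p : ℕ} {M : IntermediateField F Ω} {V : ValuationSubring Ω} {γ : Ω ≃ₐ[F] Ω} {g : ℕ} {s₀ : Fin g → (Ω ≃ₐ[F] Ω)}

theorem s4_inert (dta : Dta A B Om j act mo ψ p) (hin : Prime (p : 𝓞 F)) {G : Subgroup (Ω ≃ₐ[F] Ω)} (n : ℕ)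
    {P : PM act} (hP : PL act p G n P) : ∀ h, SH act G p h → GI p h → aM act h P = P := by
  obtain ⟨k, hk⟩ := hP
  rintro h hh ⟨V, hV, hin'⟩
  obtain ⟨Kg, u, hG⟩ := dta.gmod V
  have hfix : ∀ T ∈ H55K.Tor act (p : 𝓞 F), ac (WAB A B) h T = T := by
    intro T hT
    refine hh.2 T ⟨1, ?_⟩
    rw [pow_one, ← Nat.cast_smul_eq_nsmul (𝓞 F)]
    exact hT
  have hkV : V.valuation ((p ^ k : ℕ) : Ω) = 1 := by
    rw [Nat.cast_pow, map_pow, hV, one_pow]
  refine H55K.inert_fix dta.cma dta.prime dta.five hin dvd_rfl hG hV h hin' hfix (p ^ k) hkV P ?_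
  have h1 : SN G p n h := ⟨hh.1, fa_gc dta hh.2 n⟩
  have h2 := hk h h1
  have h3 : p ^ k • (aM act h P - P) = 0 := by
    rw [smul_sub, ← map_nsmul, h2, sub_self]
  exact h3

/-- Chunk S4c (M). So every rational point of level n is divisible by p in the group of rational points of level n, and there is no rational point of order p. Q rational, p P = Q, the class of P (pt_cls, hI as in ddiv_gi) is zero: h P = P for h in SH: cob for s P - P on the group of level n: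
P - a is rational, p a = 0. No torsion: sigma in the group of level n with sigma - 1 bijective (exists_sig, Fr.spl). -/
theorem am_div (dta : Dta A B Om j act mo ψ p) (hin : Prime (p : 𝓞 F)) (hc : Cm act) (fr : Fr p M V γ g s₀) (n : ℕ)
    (hfin : {r : RM act hc p M | H35K.Selm p (gamF hc fr) (locF hc fr) (dF act hc p V) n r}.Finite) :
    (∀ Q ∈ AM act p M.fixingSubgroup n, ∃ P ∈ AM act p M.fixingSubgroup n, p • P = Q) ∧ ∀ Q ∈ AM act p M.fixingSubgroup n, p • Q = 0 → Q = 0 := by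
  obtain ⟨σ, hσ, hσn, hTb⟩ := exists_sig dta hin fr.above n
  have hσM : σ ∈ M.fixingSubgroup := fr.spl V fr.above σ hσ
  have hσG : σ ∈ LG dta.prime M.fixingSubgroup n := ⟨hσM, hσn⟩
  refine ⟨fun Q hQ => ?_, fun Q hQ hpQ => ?_⟩
  · obtain ⟨P, hPQ⟩ := c4e_div dta Q
    have hQl : PL act p M.fixingSubgroup n Q := ⟨0, fun s hs => by rw [pow_zero, one_smul]; exact hQ s hs⟩
    have hPl : PL act p M.fixingSubgroup n P := c4e_pl hQl hPQ
    obtain ⟨w, hw, hwP⟩ := pt_cls dta hc hPl (s4_inert dta hin n hPl)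
    have hw0 := dm_bot dta hin hc fr n hfin w hw
    have hfix : ∀ h, SH act M.fixingSubgroup p h → aM act h P = P := by
      intro h hh
      have h1 := hwP h hh
      rw [hw0] at h1
      have h2 : (0 : PM act) = aM act h P - P := h1
      exact (sub_eq_zero.1 h2.symm)
    have hm : ∀ s ∈ LG dta.prime M.fixingSubgroup n, ∀ t ∈ LG dta.prime M.fixingSubgroup n,
        aM act (s * t) P - P = (aM act s P - P) + aM act s (aM act t P - P) := by
      intro s _ t _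
      rw [aM_mul, map_sub]
      abel
    have hp1 : ∀ s ∈ LG dta.prime M.fixingSubgroup n, p ^ 1 • (aM act s P - P) = 0 := by
      intro s hs
      rw [pow_one, smul_sub, ← map_nsmul, hPQ, hQ s hs, sub_self]
    have h0 : ∀ s ∈ LG dta.prime M.fixingSubgroup n, aM act (σ * s * σ⁻¹ * s⁻¹) P - P = 0 := by
      intro s hs
      have hsM : s ∈ M.fixingSubgroup := hs.1
      rw [sub_eq_zero]
      refine hfix _ ⟨?_, fa_comm dta σ s⟩
      exact mul_mem (mul_mem (mul_mem hσM hsM) (inv_mem hσM)) (inv_mem hsM)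
    obtain ⟨a, ha1, -, ha3⟩ := cob dta (c := fun s => aM act s P - P) hσG hTb hm (fun s hs => ⟨1, hp1 s hs⟩) h0
    refine ⟨P - a, fun s hs => ?_, ?_⟩
    · have h1 : aM act s P - P = aM act s a - a := ha3 s hs
      rw [map_sub]
      have h2 : aM act s P = aM act s a - a + P := by rw [← h1]; abel
      rw [h2]
      abel
    · have h1 := ha1 1 hp1
      rw [pow_one] at h1
      rw [smul_sub, hPQ, h1, sub_zero]
  · exact hTb.inj Q ⟨1, by rw [pow_one]; exact hpQ⟩ (hQ σ hσG)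

end H35L
end

-- from Lib.H35L.S5
section

/-! # H35L, chunk S5 (M): the group of rational points is finite -/

open NumberField IsDedekindDomain WeierstrassCurve

namespace H35L

open H55P (IQ Pt ac Inert Dec Nm)
open H35P (WAB)
open H55K (CMA Dta)
open H35K (Lev)

variable {F : Type} [Field F] [NumberField F] [IQ F] {A B : F} {Om : ℂ} {Ω : Type} [Field Ω] [DecidableEq Ω]
  [Algebra F Ω] [IsAlgClosure F Ω] {j : Ω →+* ℂ} {act : 𝓞 F →+* AddMonoid.End (Pt (WAB A B) Ω)} {mo : Ideal (𝓞 F)}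
  {ψ : Ideal (𝓞 F) →*₀ 𝓞 F} {p : ℕ} {M : IntermediateField F Ω} {V : ValuationSubring Ω} {γ : Ω ≃ₐ[F] Ω} {g : ℕ} {s₀ : Fin g → (Ω ≃ₐ[F] Ω)}

/-- A finitely generated abelian group on which p is bijective is finite of order prime to p. -/
theorem s5_fin {X : Type} [AddCommGroup X] [Module.Finite ℤ X] {p : ℕ} (hp : p.Prime) (h : ∀ x : X, ∃ y : X, p • y = x)
    (h2 : ∀ x : X, p • x = 0 → x = 0) : Finite X ∧ ¬ p ∣ Nat.card X := by
  have hsm : (⊤ : Submodule ℤ X) ≤ (Ideal.span {(p : ℤ)}) • (⊤ : Submodule ℤ X) := by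
    intro x _
    obtain ⟨y, rfl⟩ := h x
    rw [← natCast_zsmul]
    exact Submodule.smul_mem_smul (Ideal.mem_span_singleton_self _) trivial
  obtain ⟨r, hr, hr2⟩ := Submodule.exists_sub_one_mem_and_smul_eq_zero_of_fg_of_le_smul (Ideal.span {(p : ℤ)}) ⊤
    Module.Finite.fg_top hsm
  have hr0 : r ≠ 0 := by
    rintro rfl
    rw [Ideal.mem_span_singleton] at hr
    obtain ⟨m, hm⟩ := hr
    have h3 : (p : ℤ) ∣ 1 := ⟨-m, by linarith⟩
    have h4 := Int.natAbs_dvd_natAbs.2 h3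
    rw [Int.natAbs_natCast, Int.natAbs_one] at h4
    exact hp.one_lt.ne' (Nat.dvd_one.1 h4)
  have htor : Module.IsTorsion ℤ X := fun x => ⟨⟨r, mem_nonZeroDivisors_of_ne_zero hr0⟩, hr2 x trivial⟩
  have hfin : Finite X := Module.finite_of_fg_torsion X htor
  refine ⟨hfin, fun hd => ?_⟩
  have hfact : Fact p.Prime := ⟨hp⟩
  obtain ⟨x, hx⟩ := exists_prime_addOrderOf_dvd_card' p hd
  have h5 : p • x = 0 := by
    rw [← hx]
    exact addOrderOf_nsmul_eq_zero x
  have h6 := h2 x h5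
  rw [h6, addOrderOf_zero] at hx
  exact hp.one_lt.ne hx

/-- Chunk S5 (M). If multiplication by p is bijective on the rational points of level n they are finite, of order prime to p. The rational points of level n are the points over the number field K = exists_layer (coordinates fixed by Gal(Ω/K) are in K; Affine.Point.map); H19MW.mw_fg_n with n = p (the range of p is
everything: finite index): a finitely generated abelian group with p X = X is finite of order prime to p (AddCommGroup.equiv_free_prod_directSum_zmod, or: generators and Nakayama; p-torsion free). -/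
theorem am_fin (dta : Dta A B Om j act mo ψ p) (hM : FiniteDimensional F M) (n : ℕ)
    (h1 : ∀ Q ∈ AM act p M.fixingSubgroup n, ∃ P ∈ AM act p M.fixingSubgroup n, p • P = Q)
    (h2 : ∀ Q ∈ AM act p M.fixingSubgroup n, p • Q = 0 → Q = 0) :
    Finite (AM act p M.fixingSubgroup n) ∧ ¬ p ∣ Nat.card (AM act p M.fixingSubgroup n) := by
  classical
  have hac : IsAlgClosed Ω := IsAlgClosure.isAlgClosed F
  have hal : Algebra.IsAlgebraic F Ω := IsAlgClosure.isAlgebraic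
  have hchar : CharZero Ω := charZero_of_injective_algebraMap (algebraMap F Ω).injective
  have hell : (WAB A B).IsElliptic := by
    refine ⟨isUnit_iff_ne_zero.2 ?_⟩
    have hd : (WAB A B).Δ = -16 * (4 * A ^ 3 + 27 * B ^ 2) := by
      unfold WAB WeierstrassCurve.Δ WeierstrassCurve.b₂ WeierstrassCurve.b₄ WeierstrassCurve.b₆ WeierstrassCurve.b₈
      ring
    rw [hd]
    exact mul_ne_zero (by norm_num) dta.cma.disc
  obtain ⟨K, hKf, hKe⟩ := exists_layer dta.prime M n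
  have hKn : NumberField K := NumberField.of_module_finite F K
  have hmw : Module.Finite ℤ (Pt (WAB A B) K) := H55P.mw (WAB A B) K
  let φ : Pt (WAB A B) K →+ Pt (WAB A B) Ω := Affine.Point.map (W' := (WAB A B).toAffine) K.val
  have hφ : Function.Injective φ := Affine.Point.map_injective _
  have hmem : ∀ P : PM act, P ∈ AM act p M.fixingSubgroup n ↔ ∃ Q : Pt (WAB A B) K, φ Q = (P : Pt (WAB A B) Ω) := by
    intro P
    have h3 := H55P.fix_iff (F := F) (Ω := Ω) (WAB A B) K (P : Pt (WAB A B) Ω)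
    rw [hKe] at h3
    exact h3
  have hdiv : ∀ x : Pt (WAB A B) K, ∃ y : Pt (WAB A B) K, p • y = x := by
    intro x
    obtain ⟨P, hP, hPx⟩ := h1 (φ x : PM act) ((hmem _).2 ⟨x, rfl⟩)
    obtain ⟨y, hy⟩ := (hmem P).1 hP
    refine ⟨y, hφ ?_⟩
    rw [map_nsmul, hy]
    exact hPx
  have htf : ∀ x : Pt (WAB A B) K, p • x = 0 → x = 0 := by
    intro x hx
    have h3 : p • (φ x : PM act) = 0 := by
      have h4 : p • φ x = 0 := by rw [← map_nsmul, hx, map_zero]
      exact h4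
    have h5 : φ x = 0 := h2 (φ x : PM act) ((hmem _).2 ⟨x, rfl⟩) h3
    exact hφ (h5.trans (map_zero φ).symm)
  obtain ⟨hf, hc⟩ := s5_fin dta.prime hdiv htf
  let e : Pt (WAB A B) K → AM act p M.fixingSubgroup n := fun x => ⟨(φ x : PM act), (hmem _).2 ⟨x, rfl⟩⟩
  have he : Function.Bijective e := by
    constructor
    · intro x y hxy
      exact hφ (congrArg Subtype.val hxy)
    · rintro ⟨P, hP⟩
      obtain ⟨y, hy⟩ := (hmem P).1 hP
      exact ⟨y, Subtype.ext hy⟩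
  refine ⟨Finite.of_surjective e he.2, ?_⟩
  rw [← Nat.card_congr (Equiv.ofBijective e he)]
  exact hc

end H35L
end

-- from Lib.H35L.R2
section

/-! # H35L, chunk R2 (M/L): the number of classes killed by p, divisibility by p^(K-1) -/

open NumberField IsDedekindDomain WeierstrassCurve

namespace H35L

open H55P (IQ Pt ac Inert Dec Nm)
open H35P (WAB)
open H55K (CMA Dta)
open H35K (Lev)

variable {F : Type} [Field F] [NumberField F] [IQ F] {A B : F} {Om : ℂ} {Ω : Type} [Field Ω] [DecidableEq Ω]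
  [Algebra F Ω] [IsAlgClosure F Ω] {j : Ω →+* ℂ} {act : 𝓞 F →+* AddMonoid.End (Pt (WAB A B) Ω)} {mo : Ideal (𝓞 F)}
  {ψ : Ideal (𝓞 F) →*₀ 𝓞 F} {p : ℕ} {M : IntermediateField F Ω} {V : ValuationSubring Ω} {γ : Ω ≃ₐ[F] Ω} {g : ℕ} {s₀ : Fin g → (Ω ≃ₐ[F] Ω)}

/-- A choice of classes gives an injection. -/
theorem r2_inj (hc : Cm act) (fr : Fr p M V γ g s₀) {n : ℕ} {P : ((Ω ≃ₐ[F] Ω) → PM act) → Prop}
    (h : ∀ x, P x → ∃ r : RM act hc p M, r.1 = x ∧ p • r = 0 ∧ Lev p n (gamF hc fr) r) :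
    ∃ φ : {x // P x} → {r : RM act hc p M // p • r = 0 ∧ Lev p n (gamF hc fr) r}, Function.Injective φ ∧ ∀ x, (φ x).1.1 = x.1 := by
  choose r hr using fun x : {x // P x} => h x.1 x.2
  refine ⟨fun x => ⟨r x, (hr x).2⟩, ?_, fun x => (hr x).1⟩
  intro x y hxy
  apply Subtype.ext
  rw [← (hr x).1, ← (hr y).1]
  exact congrArg (fun z => z.1.1) hxy

/-- The case of a stable field. -/
theorem r2_key (dta : Dta A B Om j act mo ψ p) (hin : Prime (p : 𝓞 F)) (hc : Cm act) (fr : Fr p M V γ g s₀) (sel : H55P.SelZero (WAB A B) p M)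
    (lf : LocF act hc p (p ^ 2) V fr.gam) {n K : ℕ} (hn : n < K) :
    ∃ (B' : IntermediateField F Ω) (σ : Ω ≃ₐ[F] Ω), IsB act p K M.fixingSubgroup B' ∧
      Nat.card {x : (Ω ≃ₐ[F] Ω) → PM act // x ∈ XU act hc p 1 M.fixingSubgroup B' σ ∧ ∀ s, SN M.fixingSubgroup p n s → cjL act hc s x = x} =
        (p ^ 2) ^ (g * p ^ n) ∧
      ∀ x ∈ XU act hc p 1 M.fixingSubgroup B' σ, (∀ s, SN M.fixingSubgroup p n s → cjL act hc s x = x) →
        ∃ y ∈ XU act hc p K M.fixingSubgroup B' σ, (∀ s, SN M.fixingSubgroup p n s → cjL act hc s y = y) ∧ p ^ (K - 1) • y = x := by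
  have hp : p.Prime := dta.prime
  have h3 : 3 ≤ p := by
    have := dta.five
    omega
  have hK : 0 < K := by omega
  have hprime : (Ideal.span {(p : 𝓞 F)}).IsPrime := (Ideal.span_singleton_prime hin.ne_zero).2 hin
  have hmax : (Ideal.span {(p : 𝓞 F)}).IsMaximal := hprime.isMaximal (by rw [Ne, Ideal.span_singleton_eq_bot]; exact hin.ne_zero)
  have hcard : Nat.card (𝓞 F ⧸ Ideal.span {(p : 𝓞 F)}) = p ^ 2 := by
    have h4 : Nm (p : 𝓞 F) = p ^ 2 := H55K.Nm_nat p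
    exact h4
  have hq2 : 2 ≤ p ^ 2 := by nlinarith
  obtain ⟨B', hBf, hB, hdeg⟩ := exists_B dta hin fr hK
  obtain ⟨σ, a, hσ, ha⟩ := exists_isig dta hin fr hK
  obtain ⟨N₀, hN1, hN2, hN3, hN4⟩ := exists_n0 dta hin hK (G := M.fixingSubgroup) (fun b hb => by
    obtain ⟨s, hs, hs2⟩ := dec_surj dta hin fr.above K b hb
    exact ⟨s, fr.spl V fr.above s hs, hs2⟩) hσ ha
  refine ⟨B', σ, hB, ?_⟩
  let ρ : M.fixingSubgroup →* Module.End (𝓞 F) ((Ω ≃ₐ[F] Ω) → PM act) := (cjR act hc).comp M.fixingSubgroup.subtype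
  have hρ : ∀ (s : M.fixingSubgroup) (x : (Ω ≃ₐ[F] Ω) → PM act), ρ s x = cjL act hc (s : Ω ≃ₐ[F] Ω) x := fun _ _ => rfl
  have htriv : ∀ k, k ≤ K → ∀ s ∈ N₀, ∀ x ∈ XU act hc p k M.fixingSubgroup B' σ, ρ s x = x := by
    intro k hk s hs x hx
    obtain ⟨i, b, hb1, hb2, hb3⟩ := hN2 s hs
    obtain ⟨h1, h2⟩ := Submodule.mem_inf.1 hx
    rw [LinearMap.mem_ker, LinearMap.sub_apply, Module.End.one_apply, sub_eq_zero] at h2
    have hi : ∀ i : ℕ, cjL act hc (σ ^ i) x = x := by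
      intro i
      induction i with
      | zero => rw [pow_zero, cjL_one]; rfl
      | succ i ih =>
        rw [pow_succ', cjL_mul, Module.End.mul_apply, ih, h2]
    rw [hρ, hb3, cjL_mul, Module.End.mul_apply, ku_triv dta hc hk hB ((hB b).2 ⟨hb1, hb2⟩) h1, hi]
  have hle : Nat.card {x : (Ω ≃ₐ[F] Ω) → PM act // x ∈ XU act hc p 1 M.fixingSubgroup B' σ ∧ ∀ s, ρ s x = x} ≤ (p ^ 2) ^ g := by
    have h0 := rn_le dta hin hc fr sel lf 0
    rw [pow_zero, mul_one] at h0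
    obtain ⟨hf0, hc0⟩ := h0
    obtain ⟨φ, hφ, -⟩ := r2_inj hc fr (n := 0) (P := fun x => x ∈ XU act hc p 1 M.fixingSubgroup B' σ ∧ ∀ s, ρ s x = x) (by
      rintro x ⟨hx, hx2⟩
      have hx1 := (Submodule.mem_inf.1 hx).1
      obtain ⟨r, hr1, hr2⟩ := xu_rm dta hc fr hB 0 hx1 (fun s hs => hx2 ⟨s, hs.1⟩)
      refine ⟨r, hr1, ?_, hr2⟩
      apply Subtype.ext
      have h5 := (ku_hm dta hc hB hx1).2
      rw [pow_one] at h5
      have h6 : (p • r : RM act hc p M).1 = p • r.1 := rfl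
      rw [h6, hr1, h5]
      rfl)
    exact (Nat.card_le_card_of_injective φ hφ).trans hc0
  have hxc := xu_card dta hin hc hK hB hσ ha hdeg
  have hmain := fl2 hp hmax hcard hq2 ρ (XU act hc p 1 M.fixingSubgroup B' σ) (XU act hc p K M.fixingSubgroup B' σ)
    (fun s x hx => xu_stable dta hc hB hσ s.2 hx) (fun s x hx => xu_stable dta hc hB hσ s.2 hx) N₀ hN4
    (htriv 1 (by omega)) (htriv K le_rfl)
    (fun x hx => by
      have h5 := (ku_hm dta hc hB (Submodule.mem_inf.1 hx).1).2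
      rwa [pow_one] at h5) hxc.1 (k := K - 1) (fun x hx => xu_div dta hc hK le_rfl hB hσ ha hx) g hle hxc.2
    ((LG hp M.fixingSubgroup n).subgroupOf M.fixingSubgroup) (by
      intro s hs
      exact ⟨s.2, gc_le (by omega) (hN3 s hs)⟩)
  have hidx : ((LG hp M.fixingSubgroup n).subgroupOf M.fixingSubgroup).index = p ^ n := lg_index hp h3 fr.gM fr.gen n
  have hiff : ∀ x : (Ω ≃ₐ[F] Ω) → PM act, (∀ s ∈ (LG hp M.fixingSubgroup n).subgroupOf M.fixingSubgroup, ρ s x = x) ↔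
      ∀ s, SN M.fixingSubgroup p n s → cjL act hc s x = x := by
    intro x
    constructor
    · intro h s hs
      exact h ⟨s, hs.1⟩ hs
    · intro h s hs
      exact h s.1 hs
  rw [hidx] at hmain
  obtain ⟨hm1, hm2⟩ := hmain
  refine ⟨?_, ?_⟩
  · rw [← hm1]
    exact Nat.card_congr (Equiv.subtypeEquivRight fun x => and_congr_right fun _ => (hiff x).symm)
  · intro x hx hx2
    obtain ⟨y, hy, hy2, hy3⟩ := hm2 x hx ((hiff x).2 hx2)
    exact ⟨y, hy, (hiff y).1 hy2, hy3⟩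

/-- Chunk R2 (M/L). n < K. fl2 for Gamma = Gal(Ω/M) (the subgroup type), Z = functions, rho = cjR restricted, X1 = XU 1, XK = XU K (for B = exists_B, sigma = exists_isig; xu_stable), N₀ from exists_n0, m = 2 (K-1) (N₀ acts trivially: s = sigma^i b, cjL sigma f = f on XU, b fixes B: IsB, ku_triv),
k = K - 1 (xu_div), S = the elements of level n, index p^n (lg_index), contains N₀ (gc_le). hle: the invariants under Gal(Ω/M) are classes of level 0 (xu_rm, gc_zero): rn_le for n = 0. hge: xu_card with N = g q^(K-1). So the elements of XU 1 invariant under level n are q^(g p^n) classes of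
level n killed by p (xu_rm); there are at most so many (rn_le): all classes of level n killed by p are of this form, there are q^(g p^n) of them, and each is p^(K-1) times a class of level n. -/
theorem rn_main (dta : Dta A B Om j act mo ψ p) (hin : Prime (p : 𝓞 F)) (hc : Cm act) (fr : Fr p M V γ g s₀) (sel : H55P.SelZero (WAB A B) p M)
    (lf : LocF act hc p (p ^ 2) V fr.gam) {n K : ℕ} (hn : n < K) :
    (p ^ 2) ^ (g * p ^ n) ≤ Nat.card {r : RM act hc p M // p • r = 0 ∧ Lev p n (gamF hc fr) r} ∧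
      ∀ r : RM act hc p M, p • r = 0 → Lev p n (gamF hc fr) r → ∃ r' : RM act hc p M, Lev p n (gamF hc fr) r' ∧ p ^ (K - 1) • r' = r := by
  obtain ⟨B', σ, hB, h1, h2⟩ := r2_key dta hin hc fr sel lf hn
  obtain ⟨hf, hcn⟩ := rn_le dta hin hc fr sel lf n
  obtain ⟨φ, hφ, hφ2⟩ := r2_inj hc fr (n := n) (P := fun x => x ∈ XU act hc p 1 M.fixingSubgroup B' σ ∧ ∀ s, SN M.fixingSubgroup p n s → cjL act hc s x = x) (by
    rintro x ⟨hx, hx2⟩
    have hx1 := (Submodule.mem_inf.1 hx).1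
    obtain ⟨r, hr1, hr2⟩ := xu_rm dta hc fr hB n hx1 hx2
    refine ⟨r, hr1, ?_, hr2⟩
    apply Subtype.ext
    have h5 := (ku_hm dta hc hB hx1).2
    rw [pow_one] at h5
    have h6 : (p • r : RM act hc p M).1 = p • r.1 := rfl
    rw [h6, hr1, h5]
    rfl)
  have hle := Nat.card_le_card_of_injective φ hφ
  rw [h1] at hle
  refine ⟨hle, ?_⟩
  have hfa : Finite {x : (Ω ≃ₐ[F] Ω) → PM act // x ∈ XU act hc p 1 M.fixingSubgroup B' σ ∧ ∀ s, SN M.fixingSubgroup p n s → cjL act hc s x = x} :=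
    Finite.of_injective φ hφ
  have hbij : Function.Bijective φ := by
    have h5 : Nat.card {x : (Ω ≃ₐ[F] Ω) → PM act // x ∈ XU act hc p 1 M.fixingSubgroup B' σ ∧ ∀ s, SN M.fixingSubgroup p n s → cjL act hc s x = x} =
        Nat.card {r : RM act hc p M // p • r = 0 ∧ Lev p n (gamF hc fr) r} := by
      rw [h1]
      exact le_antisymm hle hcn
    exact (Nat.bijective_iff_injective_and_card φ).2 ⟨hφ, h5⟩
  intro r hr1 hr2
  obtain ⟨x, hx⟩ := hbij.2 ⟨r, hr1, hr2⟩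
  have hxr : x.1 = r.1 := by rw [← hφ2 x, hx]
  obtain ⟨y, hy, hy2, hy3⟩ := h2 x.1 x.2.1 x.2.2
  obtain ⟨r', hr3, hr4⟩ := xu_rm dta hc fr hB n (Submodule.mem_inf.1 hy).1 hy2
  refine ⟨r', hr4, ?_⟩
  apply Subtype.ext
  have h6 : (p ^ (K - 1) • r' : RM act hc p M).1 = p ^ (K - 1) • r'.1 := rfl
  rw [h6, hr3, hy3, hxr]

end H35L
end

-- from Lib.H35L.T1A
section

/-! # H35L, chunk T1A (S/M): divisibility -/

open NumberField IsDedekindDomain WeierstrassCurve

namespace H35L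

open H55P (IQ Pt ac Inert Dec Nm)
open H35P (WAB)
open H55K (CMA Dta)
open H35K (Lev)

variable {F : Type} [Field F] [NumberField F] [IQ F] {A B : F} {Om : ℂ} {Ω : Type} [Field Ω] [DecidableEq Ω]
  [Algebra F Ω] [IsAlgClosure F Ω] {j : Ω →+* ℂ} {act : 𝓞 F →+* AddMonoid.End (Pt (WAB A B) Ω)} {mo : Ideal (𝓞 F)}
  {ψ : Ideal (𝓞 F) →*₀ 𝓞 F} {p : ℕ} {M : IntermediateField F Ω} {V : ValuationSubring Ω} {γ : Ω ≃ₐ[F] Ω} {g : ℕ} {s₀ : Fin g → (Ω ≃ₐ[F] Ω)}

omit [NumberField F] [IQ F] [DecidableEq Ω] [IsAlgClosure F Ω] [Algebra F Ω] [Field Ω] in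
theorem t1a_gen {O Z : Type} [CommRing O] [AddCommGroup Z] [Module O Z] {p n : ℕ} {f : Z →ₗ[O] Z}
    (h : ∀ K, n < K → ∀ r : Z, p • r = 0 → Lev p n f r → ∃ r', Lev p n f r' ∧ p ^ (K - 1) • r' = r) (k : ℕ) :
    ∀ r : Z, p ^ k • r = 0 → Lev p n f r → ∃ r', Lev p n f r' ∧ p • r' = r := by
  have hs : ∀ (a : ℕ) (z : Z), Lev p n f z → Lev p n f (a • z) := by
    intro a z hz
    show (f ^ p ^ n) (a • z) = a • z
    rw [map_nsmul, show (f ^ p ^ n) z = z from hz]
  have hsub : ∀ y z : Z, Lev p n f y → Lev p n f z → Lev p n f (y - z) := by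
    intro y z hy hz
    show (f ^ p ^ n) (y - z) = y - z
    rw [map_sub, show (f ^ p ^ n) z = z from hz, show (f ^ p ^ n) y = y from hy]
  have hadd : ∀ y z : Z, Lev p n f y → Lev p n f z → Lev p n f (y + z) := by
    intro y z hy hz
    show (f ^ p ^ n) (y + z) = y + z
    rw [map_add, show (f ^ p ^ n) z = z from hz, show (f ^ p ^ n) y = y from hy]
  induction k with
  | zero =>
    intro r hr hl
    rw [pow_zero, one_smul] at hr
    refine ⟨0, ?_, ?_⟩
    · show (f ^ p ^ n) 0 = 0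
      exact map_zero _
    · rw [hr, smul_zero]
  | succ k ih =>
    intro r hr hl
    have h1 : p • (p ^ k • r) = 0 := by rw [smul_smul, ← pow_succ']; exact hr
    obtain ⟨s, hs1, hs2⟩ := h (k + n + 2) (by omega) (p ^ k • r) h1 (hs _ _ hl)
    have h2 : p ^ (k + 1) • (p ^ n • s) = p ^ k • r := by
      rw [smul_smul, ← pow_add, ← hs2]
      congr 2
      omega
    have h3 : p ^ k • (r - p • (p ^ n • s)) = 0 := by
      rw [smul_sub, smul_smul (p ^ k) p, ← pow_succ, h2, sub_self]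
    obtain ⟨t, ht1, ht2⟩ := ih _ h3 (hsub _ _ hl (hs _ _ (hs _ _ hs1)))
    refine ⟨p ^ n • s + t, hadd _ _ (hs _ _ hs1) ht1, ?_⟩
    rw [smul_add, ht2]
    abel

/-- Chunk T1a (S/M). Divisibility: r of level n, p^k r = 0; induction on k: p^(k-1) r is killed by p, so it is p^k s with s of level n (rn_main with K = k + n + 1: p^(K-1) s = p^k (p^n s)), r - p s is killed by p^(k-1). -/
theorem rdiv (dta : Dta A B Om j act mo ψ p) (hin : Prime (p : 𝓞 F)) (hc : Cm act) (fr : Fr p M V γ g s₀) (sel : H55P.SelZero (WAB A B) p M)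
    (lf : LocF act hc p (p ^ 2) V fr.gam) (n : ℕ) (r : RM act hc p M) (hr : Lev p n (gamF hc fr) r) :
    ∃ r' : RM act hc p M, Lev p n (gamF hc fr) r' ∧ p • r' = r := by
  obtain ⟨k, hk⟩ := cls_tor hc r
  exact t1a_gen (fun K hK r hr hl => (rn_main dta hin hc fr sel lf hK).2 r hr hl) k r hk hr

end H35L
end

-- from Lib.H35L.T1
section

/-! # H35L, chunk T1 (M): the tower -/

open NumberField IsDedekindDomain WeierstrassCurve

namespace H35L

open H55P (IQ Pt ac Inert Dec Nm)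
open H35P (WAB)
open H55K (CMA Dta)
open H35K (Lev)

variable {F : Type} [Field F] [NumberField F] [IQ F] {A B : F} {Om : ℂ} {Ω : Type} [Field Ω] [DecidableEq Ω]
  [Algebra F Ω] [IsAlgClosure F Ω] {j : Ω →+* ℂ} {act : 𝓞 F →+* AddMonoid.End (Pt (WAB A B) Ω)} {mo : Ideal (𝓞 F)}
  {ψ : Ideal (𝓞 F) →*₀ 𝓞 F} {p : ℕ} {M : IntermediateField F Ω} {V : ValuationSubring Ω} {γ : Ω ≃ₐ[F] Ω} {g : ℕ} {s₀ : Fin g → (Ω ≃ₐ[F] Ω)}

/-- Chunk T1 (M). All fields of the tower: dta.prime, dta.five; g > 0 (degree of M); (p) is maximal, 𝓞 F/p has p^2 elements (Ideal.absNorm_span_natCast or Nm_nat); lo_comm (gamma in Gal(Ω/M) and in Dec V); cls_tor; LocF; dlev, dmono, dst, dnrm, ddiv; inj; rn_main; rdiv. -/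
theorem tow (dta : Dta A B Om j act mo ψ p) (hin : Prime (p : 𝓞 F)) (hc : Cm act) (fr : Fr p M V γ g s₀) (sel : H55P.SelZero (WAB A B) p M)
    (lf : LocF act hc p (p ^ 2) V fr.gam) :
    H35K.Tow p (p ^ 2) g (gamF hc fr) (delF hc fr) (locF hc fr) (dF act hc p V) := by
  have hp : p.Prime := dta.prime
  have h3 : 3 ≤ p := by
    have := dta.five
    omega
  have hprime : (Ideal.span {(p : 𝓞 F)}).IsPrime := (Ideal.span_singleton_prime hin.ne_zero).2 hin
  have hmax : (Ideal.span {(p : 𝓞 F)}).IsMaximal := hprime.isMaximal (by rw [Ne, Ideal.span_singleton_eq_bot]; exact hin.ne_zero)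
  have hcard : Nat.card (𝓞 F ⧸ Ideal.span {(p : 𝓞 F)}) = p ^ 2 := by
    have h4 : Nm (p : 𝓞 F) = p ^ 2 := H55K.Nm_nat p
    exact h4
  have hq2 : 2 ≤ p ^ 2 := by nlinarith
  have hfin := fr.fin
  have hg : 0 < g := by
    rw [← fr.deg]
    exact Module.finrank_pos
  exact
    { pr := hp
      odd := h3
      gpos := hg
      max := hmax
      card := hcard
      q2 := hq2
      comm := fun v r => lo_comm dta hc GI_conj fr.gM fr.gam (fr.hG v) r
      torR := fun r => cls_tor hc r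
      torW := fun w => cls_tor hc w
      w0f := lf.w0f
      w0 := lf.w0
      dlev := fun n w hw => dlev dta hc LI_conj fr.gam fr.gen n w hw
      dmono := fun n => dmono hc n
      dst := fun n w hw => dst hp hc LI_conj fr.gam n w hw
      dnrm := fun n w hw => dnrm dta hc LI_conj fr.gam fr.gen n w hw
      ddiv := fun n w hw => ddiv dta hc (fun _ h => h) n w hw
      dp := lf.dp
      ds := lf.ds
      inj := fun r h1 h2 h4 => inj dta hin hc fr sel r h1 h2 h4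
      rdim := fun n => (rn_main dta hin hc fr sel lf (Nat.lt_succ_self n)).1
      rdiv := fun n r hr => rdiv dta hin hc fr sel lf n r hr }

end H35L
end

-- from Lib.H35L.S7
section

/-! # H35L, S7: the theorem of module AL -/

open NumberField IsDedekindDomain WeierstrassCurve

namespace H35L

open H55P (IQ Pt ac Inert Dec Nm)
open H35P (WAB)
open H55K (CMA Dta)
open H35K (Lev)

/-- There is a valuation ring above p. -/
theorem s7_above (Ω : Type) [Field Ω] [CharZero Ω] {p : ℕ} (hp : p.Prime) : ∃ V : ValuationSubring Ω, V.valuation (p : Ω) < 1 := by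
  let A : Subring Ω := (Int.castRingHom Ω).range
  have h2A : (p : Ω) ∈ A := ⟨p, by simp⟩
  let t : A := ⟨p, h2A⟩
  have hI : Ideal.span {t} ≠ ⊤ := by
    intro h
    have h1 : (1 : A) ∈ Ideal.span {t} := by rw [h]; trivial
    rw [Ideal.mem_span_singleton] at h1
    obtain ⟨⟨c, ⟨n, hn⟩⟩, hc⟩ := h1
    have h3 : (1 : Ω) = (p : Ω) * c := congrArg Subtype.val hc
    rw [← hn] at h3
    simp only [eq_intCast] at h3
    have h4 : (1 : ℤ) = (p : ℤ) * n := by exact_mod_cast h3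
    have h5 : (p : ℤ) ∣ 1 := ⟨n, h4⟩
    have h6 : (p : ℤ) ≤ 1 := Int.le_of_dvd one_pos h5
    have h7 := hp.two_le
    omega
  obtain ⟨B, -, hB⟩ := Ideal.image_subset_nonunits_valuationSubring (Ideal.span {t}) hI
  refine ⟨B, ?_⟩
  rw [← ValuationSubring.mem_nonunits_iff]
  exact hB ⟨t, Ideal.mem_span_singleton_self t, rfl⟩

section frame

variable {F : Type} [Field F] [NumberField F] [IQ F] {A B : F} {Om : ℂ} {Ω : Type} [Field Ω] [DecidableEq Ω]
  [Algebra F Ω] [IsAlgClosure F Ω] {j : Ω →+* ℂ} {act : 𝓞 F →+* AddMonoid.End (Pt (WAB A B) Ω)} {mo : Ideal (𝓞 F)}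
  {ψ : Ideal (𝓞 F) →*₀ 𝓞 F} {p : ℕ}

/-- The frame exists. -/
theorem exists_fr (dta : Dta A B Om j act mo ψ p) (hin : Prime (p : 𝓞 F)) (M : IntermediateField F Ω) [FiniteDimensional F M]
    (spl : ∀ V' : ValuationSubring Ω, V'.valuation (p : Ω) < 1 → ∀ s, Dec V' s → s ∈ M.fixingSubgroup) {V : ValuationSubring Ω}
    (hV : V.valuation (p : Ω) < 1) :
    ∃ (γ : Ω ≃ₐ[F] Ω) (s₀ : Fin (Module.finrank F M) → (Ω ≃ₐ[F] Ω)), Fr p M V γ (Module.finrank F M) s₀ := by
  obtain ⟨γ, hγ, hg⟩ := exists_gam dta hin hV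
  have : IsAlgClosed Ω := IsAlgClosure.isAlgClosed F
  have : Algebra.IsAlgebraic F Ω := IsAlgClosure.isAlgebraic
  have : Normal F Ω := IsAlgClosure.normal F Ω
  have : IsGalois F Ω := ⟨⟩
  have h1 : Module.finrank F M = M.fixingSubgroup.index := IntermediateField.finrank_eq_fixingSubgroup_index Ω M
  have h2 : 0 < Module.finrank F M := Module.finrank_pos
  have h3 : M.fixingSubgroup.FiniteIndex := ⟨by rw [← h1]; omega⟩
  have h4 : Nat.card ((Ω ≃ₐ[F] Ω) ⧸ M.fixingSubgroup) = Module.finrank F M := h1.symm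
  let e : ((Ω ≃ₐ[F] Ω) ⧸ M.fixingSubgroup) ≃ Fin (Module.finrank F M) := Finite.equivFinOfCardEq h4
  refine ⟨γ, fun i => (Quotient.out (e.symm i))⁻¹, ⟨inferInstance, rfl, hV, spl, hγ, hg, fun x => ?_⟩⟩
  refine ⟨e (x⁻¹ : Ω ≃ₐ[F] Ω), x * Quotient.out (((x⁻¹ : Ω ≃ₐ[F] Ω)) : (Ω ≃ₐ[F] Ω) ⧸ M.fixingSubgroup), ?_, ?_⟩
  · have h5 : (((Quotient.out (((x⁻¹ : Ω ≃ₐ[F] Ω)) : (Ω ≃ₐ[F] Ω) ⧸ M.fixingSubgroup)) : (Ω ≃ₐ[F] Ω)) : (Ω ≃ₐ[F] Ω) ⧸ M.fixingSubgroup) =
        ((x⁻¹ : Ω ≃ₐ[F] Ω) : (Ω ≃ₐ[F] Ω) ⧸ M.fixingSubgroup) := QuotientGroup.out_eq' _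
    have h6 := QuotientGroup.eq.1 h5.symm
    rw [inv_inv] at h6
    exact h6
  · simp only [Equiv.symm_apply_apply]
    group

end frame

open scoped Classical

variable {F : Type} [Field F] [NumberField F] [IQ F] {A B : F} {Om : ℂ} {Ω : Type} [Field Ω]
  [Algebra F Ω] [IsAlgClosure F Ω] {j : Ω →+* ℂ} {act : 𝓞 F →+* AddMonoid.End (Pt (WAB A B) Ω)} {mo : Ideal (𝓞 F)}
  {ψ : Ideal (𝓞 F) →*₀ 𝓞 F} {p : ℕ}

/-- The theorem of module AL: the points fixed by the group H of level n are finitely many, none of order p, and the p-primary part of the Tate-Shafarevich group of H has order p^(2 [M:F] (J_1 + ... + J_n)). -/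
theorem al_main (dta : Dta A B Om j act mo ψ p) (hin : Prime (p : 𝓞 F)) (M : IntermediateField F Ω) [FiniteDimensional F M]
    (spl : ∀ V' : ValuationSubring Ω, V'.valuation (p : Ω) < 1 → ∀ s, Dec V' s → s ∈ M.fixingSubgroup)
    (sel : H55P.SelZero (WAB A B) p M)
    (lp : ∀ (hc : Cm act) (V : ValuationSubring Ω), V.valuation (p : Ω) < 1 → ∀ (γ : Ω ≃ₐ[F] Ω) (hγ : γ ∈ dV V), Gen p γ → LocP act hc p (p ^ 2) V hγ)
    (n : ℕ) (H : Subgroup (Ω ≃ₐ[F] Ω)) (hH : ∀ s, s ∈ H ↔ s ∈ M.fixingSubgroup ∧ Gc p n s) :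
    {P : Pt (WAB A B) Ω | ∀ s ∈ H, ac (WAB A B) s P = P}.Finite ∧
    (∀ P : Pt (WAB A B) Ω, (∀ s ∈ H, ac (WAB A B) s P = P) → p • P = 0 → P = 0) ∧
    Finite (SSG.PP p ((SSG.galS (WAB A B) Ω).res H).Sha) ∧
    Nat.card (SSG.PP p ((SSG.galS (WAB A B) Ω).res H).Sha) =
      p ^ (2 * (Module.finrank F M * ∑ k ∈ Finset.range n, p ^ (k + 1) / (p + 1))) := by
  have hHL : H = LG dta.prime M.fixingSubgroup n := by
    ext s
    exact hH s
  subst hHL
  have : CharZero Ω := charZero_of_injective_algebraMap (algebraMap F Ω).injective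
  obtain ⟨V, hV⟩ := s7_above Ω dta.prime
  obtain ⟨γ, s₀, fr⟩ := exists_fr dta hin M spl hV
  have hc : Cm act := cm dta
  have lf := locf_of_locp dta hin hc hV fr.gam fr.gen (lp hc V hV γ fr.gam fr.gen)
  have tw := tow dta hin hc fr sel lf
  obtain ⟨hfin, hcard⟩ := H35K.main tw n
  have h1 := card_sha dta hin hc fr n hfin
  have h2 : Nat.card (SSG.PP p ((SSG.galS (WAB A B) Ω).res (LG dta.prime M.fixingSubgroup n)).Sha) =
      p ^ (2 * (Module.finrank F M * ∑ k ∈ Finset.range n, p ^ (k + 1) / (p + 1))) := by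
    rw [h1, hcard, ← pow_mul, Finset.sum_range_succ', H35K.J_zero dta.prime.one_le]
    rfl
  obtain ⟨h3, h4⟩ := am_div dta hin hc fr n hfin
  obtain ⟨h5, -⟩ := am_fin dta (M := M) inferInstance n h3 h4
  refine ⟨?_, fun P hP hp => h4 P (fun s hs => hP s hs) hp, ?_, h2⟩
  · have h6 : {P : Pt (WAB A B) Ω | ∀ s ∈ LG dta.prime M.fixingSubgroup n, ac (WAB A B) s P = P} =
        ((AM act p M.fixingSubgroup n : AddSubgroup (PM act)) : Set (PM act)) := rfl
    rw [h6]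
    exact Set.finite_coe_iff.1 h5
  · refine Nat.finite_of_card_ne_zero ?_
    rw [h2]
    exact pow_ne_zero _ dta.prime.ne_zero

end H35L
end
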