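import Mathlib
import Pool.Agent.Lib.H1M.PP2.M012
import Pool.Agent.Lib.H1M.PP2.M018
import Pool.Agent.Lib.H1M.PP2.M027
import Pool.Agent.Lib.H1M.PP2.M052
import Pool.Agent.Lib.H1M.PP2.M060
import Pool.Agent.Lib.H1M.PP2.M069
import Pool.Agent.Lib.H1M.PP2.M107
import Pool.Agent.Lib.H1M.PP2.M111
import Pool.Agent.Lib.H1M.PP2.M117
import Pool.Agent.Lib.H1M.PP2.M119
import Pool.Agent.Lib.H1M.PP2.M132
import Pool.Agent.Lib.H1M.PP2.M154

/-! Merged copies (to shorten the build) of Lib.H16S.N5, Lib.H16S.N6, Lib.H16S.N7, Lib.H16S.N8, Lib.H16S.R1, Lib.H16S.R2, Lib.H16S.Q7, Lib.H16S.VD, Lib.H16S.V1, Lib.H16S.V3, Lib.H16S.V2, Lib.H16S.V5, Lib.H16S.V4, Lib.H16S.V6, Lib.H16S.V7, Lib.H16S.V8. -/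

-- from Lib.H16S.N5
section

/-! # H16S, chunk N5 (M): the fields Hn -/

open NumberField IsDedekindDomain WeierstrassCurve

namespace H16S

attribute [local instance] H16S.nfOC H16S.ultOC

open H55P (IQ Pt ac Inert Dec Nm)
open H35L (Gc Gen dV)

variable {F : Type} [Field F] [NumberField F] {p : ℕ} {Ω C : Type} [Field Ω] [Algebra F Ω] [NormedField C] [IsUltrametricDist C]
  {V : ValuationSubring Ω} {i : Ω →+* C}

theorem n5_decpow {γ : Ω ≃ₐ[F] Ω} (hγ : Dec V γ) (k : ℕ) : Dec V (γ ^ k) := by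
  induction k with
  | zero =>
    intro x
    rw [pow_zero]
    exact Iff.rfl
  | succ k ih =>
    intro x
    rw [pow_succ]
    exact (ih (γ x)).trans (hγ x)

/-- Chunk N5 (S). Gc_mono. -/
theorem n5_mono (V : ValuationSubring Ω) (p : ℕ) (i : Ω →+* C) (n : ℕ) : Hn V p i F n ≤ Hn V p i F (n + 1) := by
  classical
  intro x hx s h1 h2
  exact hx s h1 (H35L.Gc_mono h2)

/-- Chunk N5 (S/M). PROOF. s γ x = γ (γ⁻¹ s γ) x, and γ⁻¹ s γ is in Dec V (H13X.Dec.mul', Dec.inv') with Gc p n (H35L.Gc_conj with t = γ⁻¹). -/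
theorem n5_g {γ : Ω ≃ₐ[F] Ω} (hγ : Dec V γ) (n : ℕ) {x : OC i} (hx : x ∈ Hn V p i F n) : gO i γ x ∈ Hn V p i F n := by
  classical
  obtain ⟨y, rfl⟩ := toC_surj i x
  rw [gO_apply]
  rw [mem_Hn] at hx ⊢
  intro s hs hg
  have h1 := hx (γ⁻¹ * s * γ) (H13X.Dec.mul' (H13X.Dec.mul' (H13X.Dec.inv' hγ) hs) hγ) (by
    have h2 := H35L.Gc_conj hg γ⁻¹
    rwa [inv_inv] at h2)
  have h3 : γ ((γ⁻¹ * s * γ) y) = s (γ y) := by
    rw [AlgEquiv.mul_apply, AlgEquiv.mul_apply]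
    exact γ.apply_symm_apply _
  rw [← h3, h1]

/-- Chunk N5 (S). gO_pow, H35L.gc_powp. -/
theorem n5_fix [IsAlgClosure F Ω] (hp : p.Prime) {γ : Ω ≃ₐ[F] Ω} (hγ : Dec V γ) (n : ℕ) {x : OC i} (hx : x ∈ Hn V p i F n) :
    (gO i γ ^ p ^ n) x = x := by
  obtain ⟨y, rfl⟩ := toC_surj i x
  rw [mem_Hn] at hx
  rw [gO_pow, hx (γ ^ p ^ n) (n5_decpow hγ _) (H35L.gc_powp hp γ n)]

theorem n5_iter {γ : Ω ≃ₐ[F] Ω} {m : ℕ} {y : Ω} (h : (γ ^ m) y = y) (k : ℕ) : (γ ^ (k * m)) y = y := by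
  induction k with
  | zero =>
    rw [zero_mul, pow_zero]
    rfl
  | succ k ih =>
    rw [Nat.succ_mul, pow_add, AlgEquiv.mul_apply, h, ih]

/-- Chunk N5 (S/M). PROOF. s in Dec V with Gc p n s: H35L.gc_gen (m = n + 1): γ^(k p^n) s has Gc p (n+1), so γ^(k p^n) (s x) = x; also γ^(k p^n) x = x (iterate), so s x = x. -/
theorem n5_down [IsAlgClosure F Ω] (hp : p.Prime) (h3 : 3 ≤ p) {γ : Ω ≃ₐ[F] Ω} (hγ : Dec V γ) (hg : Gen p γ) (n : ℕ) {x : OC i}
    (hx : x ∈ Hn V p i F (n + 1)) (h : (gO i γ ^ p ^ n) x = x) : x ∈ Hn V p i F n := by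
  classical
  obtain ⟨y, rfl⟩ := toC_surj i x
  rw [gO_pow, toC_inj] at h
  rw [mem_Hn] at hx ⊢
  intro s hs hgs
  obtain ⟨k, hk⟩ := H35L.gc_gen hp h3 hg (Nat.le_succ n) hgs
  have h1 := hx (γ ^ (k * p ^ n) * s) (H13X.Dec.mul' (n5_decpow hγ _) hs) hk
  have h2 := n5_iter h k
  rw [AlgEquiv.mul_apply] at h1
  exact (γ ^ (k * p ^ n)).injective (h1.trans h2.symm)

/-- Chunk N5 (S/M). The elements of Dec V are products of a power of γ and an element with Gc p n: x in Hn n fixed by γ is fixed by all of Dec V, so it lies in Hn 0. PROOF. H35L.gc_zero, gc_gen (n := 0, m := n). -/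
theorem n5_zero [IsAlgClosure F Ω] (hp : p.Prime) (h3 : 3 ≤ p) {γ : Ω ≃ₐ[F] Ω} (hγ : Dec V γ) (hg : Gen p γ) (n : ℕ) {x : OC i}
    (hx : x ∈ Hn V p i F n) (h : gO i γ x = x) : ∀ s : Ω ≃ₐ[F] Ω, Dec V s → gO i s x = x := by
  classical
  obtain ⟨y, rfl⟩ := toC_surj i x
  rw [gO_apply, toC_inj] at h
  rw [mem_Hn] at hx
  intro s hs
  rw [gO_apply, toC_inj]
  obtain ⟨k, hk⟩ := H35L.gc_gen hp h3 hg (Nat.zero_le n) (H35L.gc_zero hp s)
  have h1 := hx (γ ^ (k * p ^ 0) * s) (H13X.Dec.mul' (n5_decpow hγ _) hs) hk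
  have h0 : (γ ^ p ^ 0) y = y := by
    rw [pow_zero, pow_one]
    exact h
  have h2 := n5_iter h0 k
  rw [AlgEquiv.mul_apply] at h1
  exact (γ ^ (k * p ^ 0)).injective (h1.trans h2.symm)

theorem n5_mod {M : Type*} [Monoid M] {z : M} {N a b : ℕ} (hz : z ^ N = 1) (h : a ≡ b [MOD N]) : z ^ a = z ^ b := by
  have h1 : ∀ c, z ^ c = z ^ (c % N) := by
    intro c
    conv_lhs => rw [← Nat.div_add_mod c N]
    rw [pow_add, pow_mul, hz, one_pow, one_mul]
  have h2 : a % N = b % N := h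
  rw [h1 a, h1 b, h2]

theorem n5_one {L : Type} [Field L] {ζ : ℕ → L} (Z : Zt p ζ) (n : ℕ) : ζ n ^ p ^ (n + 1) = 1 := by
  induction n with
  | zero =>
    rw [zero_add, pow_one]
    exact Z.z0.pow_eq_one
  | succ n ih => rw [pow_succ' p (n + 1), pow_mul, Z.zs, ih]

/-- Chunk N5 (S/M). PROOF. s with Gc p n s: s ζ = ζ^a, a^(p-1) = 1 modulo p^(n+1), for ζ = ζ n (of order dividing p^(n+1)). s (piT p ζ n) = the product of 1 - ζ^(a u), tb_prod with f m = 1 - ζ^m (depends on m modulo p^(n+1) only). -/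
theorem n5_pi [Fact p.Prime] {ζ : ℕ → OC i} (Z : Zt p ζ) (n : ℕ) : piT p ζ n ∈ Hn V p i F n := by
  intro s _ hg
  obtain ⟨a, ha, hs⟩ := hg
  have hz := n5_one Z n
  have h1 : gO i s (ζ n) = ζ n ^ a := by
    obtain ⟨y, hy⟩ := toC_surj i (ζ n)
    rw [← hy] at hz ⊢
    rw [gO_apply, ← toC_pow, toC_inj]
    apply hs
    rwa [← toC_pow, ← toC_one, toC_inj] at hz
  unfold piT
  rw [map_prod]
  have h2 := tb_prod n (fun m => 1 - ζ n ^ m) (fun b c hbc => by
    show 1 - ζ n ^ b = 1 - ζ n ^ c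
    rw [n5_mod hz hbc]) ha
  rw [← h2]
  refine Finset.prod_congr rfl fun u _ => ?_
  rw [map_sub, map_one, map_pow, h1, ← pow_mul]

end H16S
end

-- from Lib.H16S.N6
section

/-! # H16S, chunk N6 (M): the values of Hn -/

open NumberField IsDedekindDomain WeierstrassCurve

namespace H16S

attribute [local instance] H16S.nfOC H16S.ultOC

open H55P (IQ Pt ac Inert Dec Nm)
open H35L (Gc Gen dV)

variable {F : Type} [Field F] [NumberField F] {p : ℕ} {Ω C : Type} [Field Ω] [Algebra F Ω] [NormedField C] [IsUltrametricDist C]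
  {V : ValuationSubring Ω} {i : Ω →+* C}

/-- Chunk N6 (M). PROOF. y = the product over k < p^n of γ^k x. It lies in Hn n (n5_g) and γ y = y, because γ^(p^n) x = x (n5_fix; Finset.prod_range_succ', Finset.prod_range_succ). n5_zero: all of Dec V fixes y, in particular Inert V (H13X.Inert.dec); n2_val: ‖y‖ = ‖p‖^k. All factors have the norm ‖x‖ (n1_dec, γ^k in Dec V): ‖y‖ = ‖x‖^(p^n). -/
theorem n6 [IsAlgClosure F Ω] (h : Ctx F p V i) {γ : Ω ≃ₐ[F] Ω} (hγ : Dec V γ) (hg : Gen p γ) (n : ℕ) {x : OC i}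
    (hx : x ∈ Hn V p i F n) (h0 : x ≠ 0) : ∃ k : ℤ, ‖x‖ ^ p ^ n = ‖(p : OC i)‖ ^ k := by
  have halg : Algebra.IsAlgebraic F Ω := IsAlgClosure.isAlgebraic
  have hmem : ∀ k : ℕ, (gO i γ ^ k) x ∈ Hn V p i F n := by
    intro k
    induction k with
    | zero => exact hx
    | succ k ih =>
      rw [pow_succ', RingAut.mul_apply]
      exact n5_g hγ n ih
  have hnorm : ∀ k : ℕ, ‖(gO i γ ^ k) x‖ = ‖x‖ := by
    intro k
    induction k with
    | zero => rfl
    | succ k ih =>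
      rw [pow_succ', RingAut.mul_apply, ← ih]
      exact n1_dec h hγ (show Ω from (gO i γ ^ k) x)
  set y : OC i := ∏ k ∈ Finset.range (p ^ n), (gO i γ ^ k) x with hy
  have hyH : y ∈ Hn V p i F n := Subfield.prod_mem _ fun k _ => hmem k
  have hyg : gO i γ y = y := by
    have e1 : gO i γ y = ∏ k ∈ Finset.range (p ^ n), (gO i γ ^ (k + 1)) x := by
      rw [hy, map_prod]
      refine Finset.prod_congr rfl fun k _ => ?_
      rw [pow_succ', RingAut.mul_apply]
    have e2 := Finset.prod_range_succ' (fun k => (gO i γ ^ k) x) (p ^ n)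
    have e3 := Finset.prod_range_succ (fun k => (gO i γ ^ k) x) (p ^ n)
    rw [e2] at e3
    have e4 : (gO i γ ^ 0) x = x := rfl
    have e5 : (gO i γ ^ p ^ n) x = x := n5_fix h.pr hγ n hx
    rw [e4, e5, ← e1, ← hy] at e3
    exact mul_right_cancel₀ h0 e3
  have hynorm : ‖y‖ = ‖x‖ ^ p ^ n := by
    rw [hy, norm_prod, Finset.prod_congr rfl fun k _ => hnorm k, Finset.prod_const, Finset.card_range]
  have hy0 : y ≠ 0 := by
    intro hz
    rw [hz, norm_zero] at hynorm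
    exact h0 (norm_eq_zero.1 (pow_eq_zero_iff (pow_pos h.pr.pos n).ne' |>.1 hynorm.symm))
  have hall := n5_zero h.pr (by have := h.five; omega) hγ hg n hyH hyg
  obtain ⟨k, hk⟩ := n2_val h (y := (show Ω from y)) hy0 (fun s hs => hall s (H13X.Inert.dec hs))
  refine ⟨k, ?_⟩
  rw [← hynorm]
  exact hk

end H16S
end

-- from Lib.H16S.N7
section

/-! # H16S, chunk N7 (M): the residue field -/

open NumberField IsDedekindDomain WeierstrassCurve

namespace H16S

attribute [local instance] H16S.nfOC H16S.ultOC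

open H55P (IQ Pt ac Inert Dec Nm)
open H35L (Gc Gen dV)
open H55K (ak g9_frob)

variable {F : Type} [Field F] [NumberField F] {p : ℕ} {Ω C : Type} [Field Ω] [Algebra F Ω] [NormedField C] [IsUltrametricDist C]
  {V : ValuationSubring Ω} {i : Ω →+* C}

/-- Chunk N7 (M). PROOF. n4_frob: φ fixes x, so V (x - x^(p²)) < 1; H55K.g9_frob with v = (p) (absNorm = p², n4_card): x = a modulo elements of value < 1 with a in 𝓞 F; R.ex: p divides a - ρ k, so V (a - ρ k) < 1. x is in V: ‖x‖ ≤ 1. n1_lt1. (H55K.ak Ω a = algebraMap F Ω a.) -/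
theorem n7_res [IQ F] [IsAlgClosure F Ω] (h : Ctx F p V i) {ρ : Fin (p ^ 2) → 𝓞 F} (R : Rp p ρ) (n : ℕ) {x : OC i}
    (hx : x ∈ Hn V p i F n) (h1 : ‖x‖ ≤ 1) : ∃ k, ‖x - toC i (algebraMap F Ω (ρ k : F))‖ < 1 := by
  have hp0 : (p : 𝓞 F) ≠ 0 := h.inert.ne_zero
  obtain ⟨φ, hφ, hG, hfr⟩ := n4_frob h n
  have hxV : (show Ω from x) ∈ V := (h.mem _).2 h1
  have hfix : φ (show Ω from x) = (show Ω from x) := hx φ hφ hG
  have h2 := hfr _ hxV
  rw [hfix, ← Valuation.map_neg, neg_sub] at h2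
  let v : HeightOneSpectrum (𝓞 F) := ⟨Ideal.span {(p : 𝓞 F)}, (Ideal.span_singleton_prime hp0).2 h.inert, by
    rw [Ne, Ideal.span_singleton_eq_bot]
    exact hp0⟩
  have hdvd : ∀ a : 𝓞 F, (p : 𝓞 F) ∣ a → V.valuation (ak Ω a) < 1 := by
    rintro a ⟨b, rfl⟩
    have e1 : ak Ω ((p : 𝓞 F) * b) = (p : Ω) * ak Ω b := by
      rw [← H55K.g9h_eq, ← H55K.g9h_eq, map_mul, map_natCast]
    rw [e1, map_mul]
    have e2 : V.valuation (ak Ω b) ≤ 1 := (V.valuation_le_one_iff _).2 ((h.mem _).2 (n1_int h b).1)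
    exact mul_lt_one_of_lt_of_le h.above e2
  have hv : ∀ a : 𝓞 F, a ∈ v.asIdeal → V.valuation (ak Ω a) < 1 := fun a ha =>
    hdvd a (Ideal.mem_span_singleton.1 ha)
  have h3 : V.valuation ((show Ω from x) ^ Ideal.absNorm v.asIdeal - (show Ω from x)) < 1 := by
    have e : Ideal.absNorm v.asIdeal = p ^ 2 := (n4_card h.pr).1
    rw [e]
    exact h2
  obtain ⟨a, ha⟩ := (g9_frob hv ((V.valuation_le_one_iff _).2 hxV)).1 h3
  obtain ⟨k, hk⟩ := R.ex a
  refine ⟨k, (n1_lt1 h _).1 ?_⟩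
  have h4 := hdvd _ hk
  have e3 : (show Ω from x) - algebraMap F Ω (ρ k : F) = ((show Ω from x) - ak Ω a) + ak Ω (a - ρ k) := by
    have e4 : algebraMap F Ω (ρ k : F) = H55K.g9h F Ω (ρ k) := rfl
    rw [e4, ← H55K.g9h_eq, ← H55K.g9h_eq, map_sub]
    ring
  have h5 : V.valuation ((show Ω from x) - algebraMap F Ω (ρ k : F)) < 1 := by
    rw [e3]
    exact Valuation.map_add_lt _ ha h4
  exact h5

/-- Chunk N7 (S). n4_frob with n = 0. -/
theorem n7_fr [IQ F] [IsAlgClosure F Ω] (h : Ctx F p V i) {x : OC i} (hx : x ∈ Hn V p i F 0) (h1 : ‖x‖ ≤ 1) :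
    ‖x ^ p ^ 2 - x‖ < 1 := by
  obtain ⟨φ, hφ, hG, hfr⟩ := n4_frob h 0
  have hxV : (show Ω from x) ∈ V := (h.mem _).2 h1
  have hfix : φ (show Ω from x) = (show Ω from x) := hx φ hφ hG
  have h2 := hfr _ hxV
  rw [hfix, ← Valuation.map_neg, neg_sub] at h2
  exact (n1_lt1 h _).1 h2

/-- Chunk N7 (S). The elements of F are fixed; n1_int. -/
theorem n7_r (h : Ctx F p V i) (a : 𝓞 F) : toC i (algebraMap F Ω (a : F)) ∈ Hn V p i F 0 ∧ ‖toC i (algebraMap F Ω (a : F))‖ ≤ 1 := by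
  refine ⟨fun s _ _ => ?_, (n1_int h a).1⟩
  rw [gO_apply, AlgEquiv.commutes]

/-- Chunk N7 (S). n1_int for ρ k - ρ l. -/
theorem n7_rs (h : Ctx F p V i) {ρ : Fin (p ^ 2) → 𝓞 F} (R : Rp p ρ) {k l : Fin (p ^ 2)} (hkl : k ≠ l) :
    ‖toC i (algebraMap F Ω (ρ k : F)) - toC i (algebraMap F Ω (ρ l : F))‖ = 1 := by
  have h1 := (n1_int h (ρ k - ρ l)).2 fun hd => hkl (R.inj k l hd)
  have e : toC i (algebraMap F Ω (ρ k : F)) - toC i (algebraMap F Ω (ρ l : F)) =
      toC i (algebraMap F Ω ((ρ k - ρ l : 𝓞 F) : F)) := by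
    have e1 : algebraMap F Ω ((ρ k - ρ l : 𝓞 F) : F) = H55K.g9h F Ω (ρ k - ρ l) := rfl
    rw [e1, map_sub, toC_sub]
    rfl
  rw [e, toC_norm]
  exact h1

end H16S
end

-- from Lib.H16S.N8
section

/-! # H16S, chunk N8 (M): the tower -/

open NumberField IsDedekindDomain WeierstrassCurve

namespace H16S

attribute [local instance] H16S.nfOC H16S.ultOC

open H55P (IQ Pt ac Inert Dec Nm)
open H35L (Gc Gen dV)

variable {F : Type} [Field F] [NumberField F] {p : ℕ} {Ω C : Type} [Field Ω] [Algebra F Ω] [NormedField C] [IsUltrametricDist C]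
  {V : ValuationSubring Ω} {i : Ω →+* C}

/-- Chunk N8 (S/M). Compatible roots of unity: Ω is algebraically closed of characteristic 0; ζ 0 a primitive p-th root of unity (H35L.c0_prim), ζ (n+1) a p-th root of ζ n (IsAlgClosed.exists_pow_nat_eq; recursion with Classical.choose). As elements of OC i (toC, eC). -/
theorem n8_zt [IsAlgClosure F Ω] (hp : p.Prime) : ∃ ζ : ℕ → OC i, Zt p ζ := by
  have : IsAlgClosed Ω := IsAlgClosure.isAlgClosed F
  obtain ⟨z, hz⟩ := H35L.c0_prim F Ω hp 1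
  rw [pow_one] at hz
  have hex : ∀ x : Ω, ∃ y : Ω, y ^ p = x := fun x => IsAlgClosed.exists_pow_nat_eq x hp.pos
  choose f hf using hex
  refine ⟨fun n => toC i (f^[n] z), ?_, ?_⟩
  · exact hz.map_of_injective (f := eC i) (eC i).injective
  · intro n
    show toC i (f^[n + 1] z) ^ p = toC i (f^[n] z)
    rw [← toC_pow, Function.iterate_succ_apply', hf]

/-- Chunk N8 (S/M). g = gO i γ acts on ζ n by an exponent c n (H35L.root_pow; zt_prim: ζ n has order p^(n+1)), and c 1^(p-1) is not 1 modulo p² (Gen p γ, H35L.gc_root with n = 1: every z with z^(p²) = 1 is a power of ζ 1). -/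
theorem n8_c [IsAlgClosure F Ω] [Fact p.Prime] {γ : Ω ≃ₐ[F] Ω} (hg : Gen p γ) {ζ : ℕ → OC i} (Z : Zt p ζ) :
    ∃ c : ℕ → ℕ, (∀ n, gO i γ (ζ n) = ζ n ^ c n) ∧ ¬ c 1 ^ (p - 1) ≡ 1 [MOD p ^ 2] := by
  have hp : p.Prime := Fact.out
  have hex : ∀ n : ℕ, ∃ a : ℕ, ∀ z : Ω, z ^ p ^ (n + 1) = 1 → γ z = z ^ a := by
    intro n
    obtain ⟨a, _, ha⟩ := H35L.root_pow hp (n + 1) γ
    exact ⟨a, ha⟩
  choose c hc using hex
  refine ⟨c, ?_, ?_⟩
  · intro n
    have hz := n5_one Z n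
    obtain ⟨y, hy⟩ := toC_surj i (ζ n)
    rw [← hy] at hz ⊢
    rw [gO_apply, ← toC_pow, toC_inj]
    exact hc n y hz
  · intro h1
    exact hg ((H35L.gc_root hp (hc 1)).2 h1)

/-- Chunk N8 (M). The tower. All fields: h.pr, h.five, n1_p (toC_nat), n5_mono, n1_dec, n5_g, n5_fix, n5_down, n5_pi, tc_piv, val: n6: ‖x‖^(p^n) = ‖p‖^k = (‖π n‖^k)^(p^n) and x ↦ x^(p^n) is injective on nonnegative reals; n7_r, n7_rs, n7_res, n7_fr, tc_pip, tc_pi1, tg. -/
theorem twr [IQ F] [IsAlgClosure F Ω] [Fact p.Prime] (h : Ctx F p V i) {γ : Ω ≃ₐ[F] Ω} (hγ : Dec V γ) (hg : Gen p γ) {ρ : Fin (p ^ 2) → 𝓞 F}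
    (R : Rp p ρ) {ζ : ℕ → OC i} (Z : Zt p ζ) :
    Twr p (Hn V p i F) (gO i γ) (piT p ζ) (fun k => toC i (algebraMap F Ω (ρ k : F))) := by
  have halg : Algebra.IsAlgebraic F Ω := IsAlgClosure.isAlgebraic
  have h5 : 5 ≤ p := h.five
  have h2 : p ≠ 2 := by omega
  have h3 : 3 ≤ p := by omega
  have hlt : ‖(p : OC i)‖ < 1 := by
    rw [← toC_nat, toC_norm]
    exact (n1_p h).1
  have hne : (p : OC i) ≠ 0 := by
    rw [← norm_pos_iff, ← toC_nat, toC_norm]
    exact (n1_p h).2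
  obtain ⟨c, hc, hc1⟩ := n8_c hg Z
  exact
    { pr := h.pr
      five := h.five
      lt := hlt
      ne := hne
      mono := n5_mono V p i
      iso := by
        intro x
        obtain ⟨y, rfl⟩ := toC_surj i x
        rw [gO_apply, toC_norm, toC_norm]
        exact n1_dec h hγ y
      gH := fun n x hx => n5_g hγ n hx
      fix := fun n x hx => n5_fix h.pr hγ n hx
      down := fun n x hx h1 => n5_down h.pr h3 hγ hg n hx h1
      piH := fun n => n5_pi Z n
      piv := fun n => tc_piv h2 Z n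
      val := by
        intro n x hx h0
        obtain ⟨k, hk⟩ := n6 h hγ hg n hx h0
        refine ⟨k, ?_⟩
        rw [← tc_piv h2 Z n, ← zpow_natCast, ← zpow_natCast, ← zpow_mul, mul_comm, zpow_mul, zpow_natCast, zpow_natCast] at hk
        exact (pow_left_inj₀ (norm_nonneg _) (zpow_nonneg (norm_nonneg _) _) (pow_ne_zero n h.pr.ne_zero)).1 hk
      rH := fun k => n7_r h (ρ k)
      rs := fun k l hkl => n7_rs h R hkl
      res := fun n x hx h1 => n7_res h R n hx h1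
      fr := fun x hx h1 => n7_fr h hx h1
      pip := fun n => tc_pip h2 hlt Z n
      pi1 := tc_pi1 h2 hlt hne Z
      tr0 := fun n j => (tg h2 hlt hne Z (gO i γ) c hc hc1 n).1 j
      tr2 := fun n j hj => (tg h2 hlt hne Z (gO i γ) c hc hc1 n).2.1 j hj
      tr1 := fun n => (tg h2 hlt hne Z (gO i γ) c hc hc1 n).2.2 }

end H16S
end

-- from Lib.H16S.R1
section

/-! # H16S, chunk R1 (M): points of level n and the kernel of reduction -/

open NumberField IsDedekindDomain WeierstrassCurve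

namespace H16S

attribute [local instance] H16S.nfOC H16S.ultOC

open H55P (IQ Pt ac Inert Dec Nm)
open H35P (WAB Ker tt)
open H55K
open H35L (Gc Gen dV PM aM AM gm1 SH SN FA Cm WM opM LI LI_conj)

variable {F : Type} [Field F] [NumberField F] [IQ F] {A B : F} {Om : ℂ} {Ω : Type} [Field Ω] [DecidableEq Ω]
  [Algebra F Ω] [IsAlgClosure F Ω] {j : Ω →+* ℂ} {act : 𝓞 F →+* AddMonoid.End (Pt (WAB A B) Ω)} {mo : Ideal (𝓞 F)}
  {ψ : Ideal (𝓞 F) →*₀ 𝓞 F} {V : ValuationSubring Ω} {C : Type} [NormedField C] [IsUltrametricDist C] {i : Ω →+* C} {p : ℕ}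

/-- Chunk R1 (S). En is the intersection of AM with the kernel of reduction (defeq: aM act s = ac (WAB A B) s, dV V = the decomposition group). -/
theorem r1_mem (act : 𝓞 F →+* AddMonoid.End (Pt (WAB A B) Ω)) (hG : GV A B V) (n : ℕ) (P : kerG hG) :
    P ∈ En hG p n ↔ (show PM act from P.1) ∈ AM act p (dV V) n :=
  ⟨fun h s hs => h s hs.1 hs.2, fun h s h1 h2 => h s ⟨h1, h2⟩⟩

/-- Chunk R1 (S/M). PROOF. n4_frob: φ in Dec V, Gc p n φ, Frobenius: aM φ P = P; Sup.fr: Ker V (ac φ P + p • P) = Ker V ((p + 1) • P). -/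
theorem r1_ker (h : Ctx F p V i) (hS : Sup act p) (hG : GV A B V) {n : ℕ} {P : PM act} (hP : P ∈ AM act p (dV V) n) :
    ∃ Q ∈ En hG p n, (show PM act from Q.1) = (p + 1) • P := by
  obtain ⟨φ, h1, h2, h3⟩ := n4_frob h n
  have h4 := hS.fr V h.above φ h3 P
  have h5 : ac (WAB A B) φ P = P := hP φ ⟨h1, h2⟩
  rw [h5] at h4
  have h6 : (P + p • P : PM act) = (p + 1) • P := by
    rw [add_nsmul, one_nsmul, add_comm]
  have h7 : Ker V (show Pt (WAB A B) Ω from (p + 1) • P) := by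
    rw [← h6]
    exact h4
  refine ⟨⟨(show Pt (WAB A B) Ω from (p + 1) • P), h7⟩, ?_, rfl⟩
  rw [r1_mem act]
  exact AddSubgroup.nsmul_mem _ hP _

/-- Chunk R1 (S). (L1): p • P = 0 gives (p + 1) • P = P, which lies in En (r1_ker), m2. -/
theorem r1_l1 (h : Ctx F p V i) (hS : Sup act p) (hG : GV A B V) {π : ℕ → OC i} {r : Fin (p ^ 2) → OC i} {γ : Ω ≃ₐ[F] Ω} (hγ : Dec V γ)
    {al : Fin (p ^ 2) → AddMonoid.End (kerG hG)} (T : Twr p (Hn V p i F) (gO i γ) π r)
    (G : Fgp p (Hn V p i F) (gO i γ) r (tG i hG) (gG hG hγ) (En hG p) al) (n : ℕ) {P : PM act} (hP : P ∈ AM act p (dV V) n) (h0 : p • P = 0) :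
    P = 0 := by
  obtain ⟨Q, hQ, hQP⟩ := r1_ker h hS hG hP
  have h1 : (p + 1) • P = P := by rw [add_nsmul, one_nsmul, h0, zero_add]
  rw [h1] at hQP
  have h2 : p • Q = 0 := by
    apply Subtype.ext
    have h3 : p • (show PM act from Q.1) = 0 := by rw [hQP, h0]
    exact h3
  have h4 := m2 T G hQ h2
  rw [← hQP, h4]
  rfl

/-- The inclusion of En in AM. -/
def r1_inc (act : 𝓞 F →+* AddMonoid.End (Pt (WAB A B) Ω)) (hG : GV A B V) (p n : ℕ) : (En hG p n) →+ (AM act p (dV V) n) where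
  toFun x := ⟨(show PM act from x.1.1), (r1_mem act hG n x.1).1 x.2⟩
  map_zero' := rfl
  map_add' _ _ := rfl

/-- Chunk R1 (M). (L2): the quotient AM/p AM is isomorphic to En/p En, which has (p²)^(p^n) elements (m4c). PROOF. The map En → AM/p AM is onto: P = (p + 1) P - p P, (p + 1) P in En (r1_ker). Its kernel is p En: Q in En, Q = p P with P in AM: (p + 1) Q = p ((p + 1) P), so Q = p ((p + 1) P - Q) with (p + 1) P - Q in En. First isomorphism theorem or equality of indices. -/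
theorem r1_l2 (h : Ctx F p V i) (hS : Sup act p) (hG : GV A B V) {π : ℕ → OC i} {r : Fin (p ^ 2) → OC i} {γ : Ω ≃ₐ[F] Ω} (hγ : Dec V γ)
    {al : Fin (p ^ 2) → AddMonoid.End (kerG hG)} (T : Twr p (Hn V p i F) (gO i γ) π r)
    (G : Fgp p (Hn V p i F) (gO i γ) r (tG i hG) (gG hG hγ) (En hG p) al) (n : ℕ) :
    Nat.card (AM act p (dV V) n ⧸ (AddSubgroup.map (nsmulAddMonoidHom p) (⊤ : AddSubgroup (AM act p (dV V) n)))) = (p ^ 2) ^ p ^ n := by
  rw [← m4c T G n]
  set N : AddSubgroup (AM act p (dV V) n) := AddSubgroup.map (nsmulAddMonoidHom p) (⊤ : AddSubgroup (AM act p (dV V) n)) with hN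
  let f : (En hG p n) →+ (AM act p (dV V) n) ⧸ N := (QuotientAddGroup.mk' N).comp (r1_inc act hG p n)
  have hsurj : Function.Surjective f := by
    intro x
    obtain ⟨P, rfl⟩ := QuotientAddGroup.mk'_surjective N x
    obtain ⟨Q, hQ, hQP⟩ := r1_ker h hS hG P.2
    refine ⟨⟨Q, hQ⟩, ?_⟩
    have h1 : r1_inc act hG p n ⟨Q, hQ⟩ = (p + 1) • P := Subtype.ext hQP
    show QuotientAddGroup.mk' N (r1_inc act hG p n ⟨Q, hQ⟩) = _
    rw [h1, add_nsmul, one_nsmul, map_add]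
    have h2 : QuotientAddGroup.mk' N (p • P) = 0 := by
      rw [QuotientAddGroup.mk'_apply, QuotientAddGroup.eq_zero_iff]
      exact ⟨P, trivial, rfl⟩
    rw [h2, zero_add]
  have hker : f.ker = AddMonoidHom.range (nsmulAddMonoidHom (α := En hG p n) p) := by
    ext Q
    rw [AddMonoidHom.mem_ker]
    constructor
    · intro h1
      have h2 : r1_inc act hG p n Q ∈ N := (QuotientAddGroup.eq_zero_iff _).1 h1
      obtain ⟨P, -, hP⟩ := h2
      have hP' : p • (P : PM act) = (show PM act from Q.1.1) := congrArg Subtype.val hP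
      obtain ⟨R, hR, hRP⟩ := r1_ker h hS hG P.2
      refine ⟨⟨R, hR⟩ - Q, ?_⟩
      apply Subtype.ext
      apply Subtype.ext
      show p • ((show PM act from R.1) - (show PM act from Q.1.1)) = (show PM act from Q.1.1)
      rw [hRP, nsmul_sub, ← mul_nsmul', mul_comm, mul_nsmul', hP', add_nsmul, one_nsmul, add_sub_cancel_left]
    · rintro ⟨R, rfl⟩
      refine (QuotientAddGroup.eq_zero_iff _).2 ?_
      exact ⟨r1_inc act hG p n R, trivial, rfl⟩
  rw [← hker, AddSubgroup.index_ker]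
  have h3 : f.range = ⊤ := AddMonoidHom.range_eq_top.2 hsurj
  rw [h3]
  exact (Nat.card_congr (AddSubgroup.topEquiv (G := (AM act p (dV V) n) ⧸ N)).toEquiv).symm

end H16S
end

-- from Lib.H16S.R2
section

/-! # H16S, chunk R2 (M): the operator gamma - 1 on points -/

open NumberField IsDedekindDomain WeierstrassCurve

namespace H16S

attribute [local instance] H16S.nfOC H16S.ultOC

open H55P (IQ Pt ac Inert Dec Nm)
open H35P (WAB Ker tt)
open H55K
open H35L (Gc Gen dV PM aM AM gm1 SH SN FA Cm WM opM LI LI_conj)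

variable {F : Type} [Field F] [NumberField F] [IQ F] {A B : F} {Om : ℂ} {Ω : Type} [Field Ω] [DecidableEq Ω]
  [Algebra F Ω] [IsAlgClosure F Ω] {j : Ω →+* ℂ} {act : 𝓞 F →+* AddMonoid.End (Pt (WAB A B) Ω)} {mo : Ideal (𝓞 F)}
  {ψ : Ideal (𝓞 F) →*₀ 𝓞 F} {V : ValuationSubring Ω} {C : Type} [NormedField C] [IsUltrametricDist C] {i : Ω →+* C} {p : ℕ}

/-- Chunk R2 (S). The operator γ - 1 on the kernel of reduction and on all points. -/
theorem r2_gm (act : 𝓞 F →+* AddMonoid.End (Pt (WAB A B) Ω)) (hG : GV A B V) {γ : Ω ≃ₐ[F] Ω} (hγ : Dec V γ) (k : ℕ) (P : kerG hG) :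
    (show PM act from (((gG hG hγ - 1) ^ k) P).1) = (gm1 act γ ^ k) (show PM act from P.1) := by
  induction k with
  | zero => rfl
  | succ k ih =>
    rw [pow_succ', pow_succ']
    change (aM act γ (show PM act from (((gG hG hγ - 1) ^ k) P).1)) - (show PM act from (((gG hG hγ - 1) ^ k) P).1) =
      aM act γ ((gm1 act γ ^ k) (show PM act from P.1)) - (gm1 act γ ^ k) (show PM act from P.1)
    rw [ih]

/-- Chunk R2 (S). γ - 1 maps AM n to itself (γ⁻¹ s γ is again in Dec V with Gc p n: H35L.Gc_conj). -/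
theorem r2_AM {γ : Ω ≃ₐ[F] Ω} (hγ : Dec V γ) (n k : ℕ) {P : PM act} (hP : P ∈ AM act p (dV V) n) :
    (gm1 act γ ^ k) P ∈ AM act p (dV V) n := by
  have h1 : ∀ R ∈ AM act p (dV V) n, aM act γ R ∈ AM act p (dV V) n := by
    intro R hR s hs
    have hγ' : γ ∈ dV V := hγ
    have e : s * γ = γ * (γ⁻¹ * s * γ⁻¹⁻¹) := by group
    have h2 : H35L.SN (dV V) p n (γ⁻¹ * s * γ⁻¹⁻¹) :=
      ⟨(dV V).mul_mem ((dV V).mul_mem ((dV V).inv_mem hγ') hs.1) ((dV V).inv_mem ((dV V).inv_mem hγ')),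
        H35L.Gc_conj hs.2 γ⁻¹⟩
    rw [← H35L.aM_mul, e, H35L.aM_mul, hR _ h2]
  induction k with
  | zero => exact hP
  | succ k ih =>
    rw [pow_succ']
    exact (AM act p (dV V) n).sub_mem (h1 _ ih) ih

/-- Chunk R2 (M). (L3). PROOF. k = p^n - 1 - J. P = (p + 1) P - p P; Q in En with Q = (p + 1) P (r1_ker); m9: (γ - 1)^k Q = Q₀ + p B, Q₀ in En 0, B in En n; (γ - 1)^k P = Q₀ + p (B - (γ - 1)^k P) (r2_gm, r2_AM, r1_mem). -/
theorem r2_l3 (h : Ctx F p V i) (hS : Sup act p) (hG : GV A B V) {π : ℕ → OC i} {r : Fin (p ^ 2) → OC i} {γ : Ω ≃ₐ[F] Ω} (hγ : Dec V γ)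
    {al : Fin (p ^ 2) → AddMonoid.End (kerG hG)} (T : Twr p (Hn V p i F) (gO i γ) π r)
    (G : Fgp p (Hn V p i F) (gO i γ) r (tG i hG) (gG hG hγ) (En hG p) al) (n : ℕ) {P : PM act} (hP : P ∈ AM act p (dV V) n) :
    ∃ P₀ ∈ AM act p (dV V) 0, ∃ P' ∈ AM act p (dV V) n, (gm1 act γ ^ (p ^ n - 1 - H35K.J p n)) P = P₀ + p • P' := by
  obtain ⟨Q, hQ, hQP⟩ := r1_ker h hS hG hP
  obtain ⟨Q₀, hQ₀, B, hB, hm, -⟩ := m9 T G n hQ
  have h1 := r2_gm act hG hγ (p ^ n - 1 - H35K.J p n) Q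
  rw [hm, hQP, map_nsmul, add_smul, one_smul] at h1
  set D := (gm1 act γ ^ (p ^ n - 1 - H35K.J p n)) P with hD
  refine ⟨(show PM act from Q₀.1), (r1_mem act hG 0 Q₀).1 hQ₀, (show PM act from B.1) - D,
    (AM act p (dV V) n).sub_mem ((r1_mem act hG n B).1 hB) (r2_AM hγ n _ hP), ?_⟩
  have h2 : (show PM act from (Q₀ + p • B).1) = (show PM act from Q₀.1) + p • (show PM act from B.1) := rfl
  rw [h2] at h1
  rw [smul_sub, ← add_sub_assoc, h1]
  abel

/-- Chunk R2 (M). (L3'). PROOF. P₀ in AM 0: (p + 1) P₀ = Q₀ in En 0 (r1_ker); m10 gives Q in En n and B in En n with (γ - 1)^k Q = Q₀ + p B = P₀ + p (P₀ + B); P₀ lies in AM n as well (AM 0 ≤ AM n: H35L.gc_le / Gc_mono). -/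
theorem r2_l3' (h : Ctx F p V i) (hS : Sup act p) (hG : GV A B V) {π : ℕ → OC i} {r : Fin (p ^ 2) → OC i} {γ : Ω ≃ₐ[F] Ω} (hγ : Dec V γ)
    {al : Fin (p ^ 2) → AddMonoid.End (kerG hG)} (T : Twr p (Hn V p i F) (gO i γ) π r)
    (G : Fgp p (Hn V p i F) (gO i γ) r (tG i hG) (gG hG hγ) (En hG p) al) (n : ℕ) {P₀ : PM act} (hP : P₀ ∈ AM act p (dV V) 0) :
    ∃ P ∈ AM act p (dV V) n, ∃ P' ∈ AM act p (dV V) n, (gm1 act γ ^ (p ^ n - 1 - H35K.J p n)) P = P₀ + p • P' := by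
  obtain ⟨Q₀, hQ₀, hQP⟩ := r1_ker h hS hG hP
  obtain ⟨P, hP1, B, hB, hm⟩ := m10 T G n hQ₀
  have h1 := r2_gm act hG hγ (p ^ n - 1 - H35K.J p n) P
  rw [hm] at h1
  have h2 : (show PM act from (Q₀ + p • B).1) = (show PM act from Q₀.1) + p • (show PM act from B.1) := rfl
  rw [h2, hQP, add_smul, one_smul] at h1
  have h3 : P₀ ∈ AM act p (dV V) n := fun s hs => hP s ⟨hs.1, H35L.gc_le (Nat.zero_le n) hs.2⟩
  refine ⟨(show PM act from P.1), (r1_mem act hG n P).1 hP1, P₀ + (show PM act from B.1),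
    (AM act p (dV V) n).add_mem h3 ((r1_mem act hG n B).1 hB), ?_⟩
  rw [← h1, smul_add]
  abel

end H16S
end

-- from Lib.H16S.Q7
section

/-! # H16S, chunk Q7 (S): the formal group structure -/

open NumberField IsDedekindDomain WeierstrassCurve

namespace H16S

attribute [local instance] H16S.nfOC H16S.ultOC

open H55P (IQ Pt ac Inert Dec Nm)
open H35P (WAB Ker tt)
open H55K
open H35L (Gc Gen dV)

variable {F : Type} [Field F] [NumberField F] [IQ F] {A B : F} {Om : ℂ} {Ω : Type} [Field Ω] [DecidableEq Ω]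
  [Algebra F Ω] [IsAlgClosure F Ω] {j : Ω →+* ℂ} {act : 𝓞 F →+* AddMonoid.End (Pt (WAB A B) Ω)} {V : ValuationSubring Ω}
  {C : Type} [NormedField C] [IsUltrametricDist C] {i : Ω →+* C} {p : ℕ}

/-- Chunk Q7 (S). q1_lt, q1_zero, q1_neg, q1_sub, q1_mem, q2_surj, q1_act, q3, q6, q2_alt, q2_alc, q2_ale. -/
theorem fgp [CompleteSpace C] (h : Ctx F p V i) (hA : CMA F A B Om j act) (hS : Sup act p) (hG : GV A B V) {γ : Ω ≃ₐ[F] Ω} (hγ : Dec V γ)
    (ρ : Fin (p ^ 2) → 𝓞 F) :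
    Fgp p (Hn V p i F) (gO i γ) (fun k => toC i (algebraMap F Ω (ρ k : F))) (tG i hG) (gG hG hγ) (En hG p) (fun k => aG hA hG (ρ k)) where
  lt P := q1_lt h hG P
  zero P := q1_zero hG P
  neg P := q1_neg hG P
  sub P Q := q1_sub h hG P Q
  mem n P := q1_mem h hG n P
  surj n z hz h1 := q2_surj h hA hG n hz h1
  act P := q1_act hG hγ P
  mul P := q3 h hA hS hG P
  div n R hR h1 := q6 h hA hS hG n hR h1
  alt k P := q2_alt h hA hG (ρ k) P
  alc k P := q2_alc hA hG hγ (ρ k) P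
  ale k n P hP := q2_ale hA hG (ρ k) n hP

end H16S
end

-- from Lib.H16S.VD
section

/-! # H16S: equivariant classes killed by p (definitions) -/

open NumberField IsDedekindDomain WeierstrassCurve

namespace H16S

open H55P (IQ Pt ac Inert Dec Nm)
open H35P (WAB Ker tt)
open H55K (Tor ak xc yc CMA Dta GV cj)
open H55K.S
open H13X
open H35L (Gc Gen dV PM aM AM gm1 SH SN FA Cm WM opM LI LI_conj LocP)

variable {F : Type} [Field F] [NumberField F] [IQ F] {A B : F} {Om : ℂ} {Ω : Type} [Field Ω] [DecidableEq Ω]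
  [Algebra F Ω] [IsAlgClosure F Ω] {j : Ω →+* ℂ} {act : 𝓞 F →+* AddMonoid.End (Pt (WAB A B) Ω)} {mo : Ideal (𝓞 F)}
  {ψ : Ideal (𝓞 F) →*₀ 𝓞 F} {V : ValuationSubring Ω} {p : ℕ}

/-- f is a homomorphism on the elements of the decomposition group acting trivially on the torsion, with values in the points killed by p, continuous
and equivariant. -/
structure V0 (act : 𝓞 F →+* AddMonoid.End (Pt (WAB A B) Ω)) (p : ℕ) (V : ValuationSubring Ω) (f : (Ω ≃ₐ[F] Ω) → PM act) : Prop where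
  out : ∀ h, ¬ SH act (dV V) p h → f h = 0
  mul : ∀ h, SH act (dV V) p h → ∀ h', SH act (dV V) p h' → f (h * h') = f h + f h'
  tor : ∀ h, p • f h = 0
  cont : ∃ L : IntermediateField F Ω, FiniteDimensional F L ∧ ∀ h, SH act (dV V) p h → h ∈ L.fixingSubgroup → f h = 0
  eqv : ∀ s, s ∈ dV V → ∀ h, SH act (dV V) p h → f (s * h * s⁻¹) = aM act s (f h)

/-- The extension of f to a cocycle on the decomposition group; z acts as multiplication by 2 on the points killed by p. -/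
def ext (z : Ω ≃ₐ[F] Ω) (f : (Ω ≃ₐ[F] Ω) → PM act) (g : Ω ≃ₐ[F] Ω) : Pt (WAB A B) Ω := f (z * g * z⁻¹ * g⁻¹)

end H16S
end

-- from Lib.H16S.V1
section

/-! # H16S, chunk V1 (M): the data at the inert prime -/

open NumberField IsDedekindDomain WeierstrassCurve

namespace H16S

open H55P (IQ Pt ac Inert Dec Nm)
open H35P (WAB Ker tt)
open H55K (Tor ak xc yc CMA Dta GV cj)
open H55K.S
open H13X
open H35L (Gc Gen dV PM aM AM gm1 SH SN FA Cm WM opM LI LI_conj LocP)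

variable {F : Type} [Field F] [NumberField F] [IQ F] {A B : F} {Om : ℂ} {Ω : Type} [Field Ω] [DecidableEq Ω]
  [Algebra F Ω] [IsAlgClosure F Ω] {j : Ω →+* ℂ} {act : 𝓞 F →+* AddMonoid.End (Pt (WAB A B) Ω)} {mo : Ideal (𝓞 F)}
  {ψ : Ideal (𝓞 F) →*₀ 𝓞 F} {V : ValuationSubring Ω} {p : ℕ}

theorem v1_bot [NumberField (⊥ : IntermediateField F Ω)] (p : ℕ) : H55P.PExt p (⊥ : IntermediateField F Ω) (⊥ : IntermediateField F Ω) := by
  refine ⟨inferInstance, le_refl _, ?_, ⟨0, by simp⟩⟩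
  intro s _ x hx
  obtain ⟨y, rfl⟩ := IntermediateField.mem_bot.1 hx
  rw [s.commutes]
  exact (⊥ : IntermediateField F Ω).algebraMap_mem y

/-- Chunk V1a (S/M). The data RV of H13X for π = p, l = p, N = F. PROOF. Dat: dta, hin, dvd_rfl. above: vo V (p : 𝓞 F) = V p (H13X or H55K: vo_nat). pt: T in Tor act p, T ≠ 0: gi_gen or CMA.gen; t = tt T. e0 (p - 1) = Nm p - 1: Nm_nat: p² - 1 = (p + 1)(p - 1). Nb p ⊥: fin; inert: H13X.fix_bot; res: H13X.nb_res (XNB.lean, for the base field ⊥), or nb_of with L₀ = ⊥ (⊥/⊥ is Galois of degree 1; UnrP from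
dta.unr). -/
theorem v1_rv (dta : Dta A B Om j act mo ψ p) (hin : Prime (p : 𝓞 F)) (hV : V.valuation (p : Ω) < 1) :
    ∃ t : Ω, RV A B Om j act mo ψ (p : 𝓞 F) p (⊥ : IntermediateField F Ω) V t (p + 1) := by
  obtain ⟨-, T₀, hT, -, h0⟩ := gi_gen dta.cma (p : 𝓞 F) hin
  have hnf : NumberField (⊥ : IntermediateField F Ω) := NumberField.of_module_finite F _
  refine ⟨tt T₀, ⟨⟨dta, hin, dvd_rfl⟩, by rw [vo_nat]; exact hV, ⟨T₀, hT, ?_, rfl⟩, ?_⟩, ⟨inferInstance, ?_, ?_⟩⟩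
  · intro h
    have h1 := (h0 1).1 (by rw [h, map_zero])
    exact hin.not_isUnit (isUnit_of_dvd_one h1)
  · rw [H55K.Nm_nat]
    have h5 := dta.five
    obtain ⟨m, rfl⟩ : ∃ m, p = m + 1 := ⟨p - 1, by omega⟩
    have e1 : (m + 1) ^ 2 = (m + 1 + 1) * m + 1 := by ring
    rw [e1]
    simp
  · intro V' _ s _
    exact fix_bot s
  · intro V' β hβ h1 h2
    exact nb_res dta.prime (v1_bot p) (le_refl _) V' β hβ h1 h2

/-- Chunk V1b (S). Nm (p : 𝓞 F) = p², cj p = p, Tor act p = the points killed by p. -/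
theorem v1_tor (act : 𝓞 F →+* AddMonoid.End (Pt (WAB A B) Ω)) (p : ℕ) : Nm (p : 𝓞 F) = p ^ 2 ∧ cj (p : 𝓞 F) = p ∧
    ∀ T : Pt (WAB A B) Ω, T ∈ Tor act (p : 𝓞 F) ↔ p • T = 0 := by
  refine ⟨H55K.Nm_nat p, H55K.cj_nat p, fun T => ?_⟩
  have h1 : T ∈ Tor act (p : 𝓞 F) ↔ act (p : 𝓞 F) T = 0 := Iff.rfl
  rw [h1, map_natCast, AddMonoid.End.natCast_apply]

/-- Chunk V1c (S). RB.exists_inert (XR1.lean) with a = 2 (p ≥ 5 does not divide 2: the norm 4 is not divisible by p² , or hin and the residue ring has characteristic p). act 2 T = 2 • T. -/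
theorem v1_z (dta : Dta A B Om j act mo ψ p) (hin : Prime (p : 𝓞 F)) (hV : V.valuation (p : Ω) < 1) :
    ∃ z : Ω ≃ₐ[F] Ω, Inert V z ∧ Dec V z ∧ ∀ T : PM act, p • T = 0 → aM act z T = (2 : ℕ) • T := by
  obtain ⟨t, R⟩ := v1_rv dta hin hV
  have h2 : ¬ (p : 𝓞 F) ∣ ((2 : ℕ) : 𝓞 F) := by
    rintro ⟨c, hc⟩
    have h3 := congrArg (Nm (F := F)) hc
    rw [H55K.Nm_mul, H55K.Nm_nat, H55K.Nm_nat] at h3
    have h5 := dta.five
    have h6 : Nm c ≠ 0 := by
      intro h0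
      rw [h0] at h3
      omega
    have h7 : 1 ≤ Nm c := Nat.one_le_iff_ne_zero.2 h6
    nlinarith
  obtain ⟨z, hz, hz2⟩ := R.base.exists_inert h2
  refine ⟨z, hz, ?_, fun T hT => ?_⟩
  · exact Inert.dec hz
  · have h3 : (show Pt (WAB A B) Ω from T) ∈ Tor act (p : 𝓞 F) := ((v1_tor act p).2.2 T).2 hT
    have h4 := hz2 T h3
    have h5 : act ((2 : ℕ) : 𝓞 F) T = (2 : ℕ) • (show Pt (WAB A B) Ω from T) := by
      rw [map_natCast]
      exact AddMonoid.End.natCast_apply _ _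
    exact h4.trans h5

end H16S
end

-- from Lib.H16S.V3
section

/-! # H16S, chunk V3 (M): the extension of a class to a cocycle -/

open NumberField IsDedekindDomain WeierstrassCurve

namespace H16S

open H55P (IQ Pt ac Inert Dec Nm)
open H35P (WAB Ker tt)
open H55K (Tor ak xc yc CMA Dta GV cj)
open H55K.S
open H13X
open H35L (Gc Gen dV PM aM AM gm1 SH SN FA Cm WM opM LI LI_conj LocP)

variable {F : Type} [Field F] [NumberField F] [IQ F] {A B : F} {Om : ℂ} {Ω : Type} [Field Ω] [DecidableEq Ω]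
  [Algebra F Ω] [IsAlgClosure F Ω] {j : Ω →+* ℂ} {act : 𝓞 F →+* AddMonoid.End (Pt (WAB A B) Ω)} {mo : Ideal (𝓞 F)}
  {ψ : Ideal (𝓞 F) →*₀ 𝓞 F} {V : ValuationSubring Ω} {p : ℕ}

omit [NumberField F] [IQ F] [IsAlgClosure F Ω] in
theorem v3_fainv {s : Ω ≃ₐ[F] Ω} (hs : FA act p s) : FA act p s⁻¹ := by
  intro P hP
  have h1 : aM act s⁻¹ (aM act s P) = P := by rw [← H35L.aM_mul, inv_mul_cancel, H35L.aM_one]
  rwa [hs P hP] at h1

theorem v3_sh (dta : Dta A B Om j act mo ψ p) {z g : Ω ≃ₐ[F] Ω} (hz : Dec V z) (hg : Dec V g) : SH act (dV V) p (z * g * z⁻¹ * g⁻¹) :=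
  ⟨Dec.mul' (Dec.mul' (Dec.mul' hz hg) (Dec.inv' hz)) (Dec.inv' hg), H35L.fa_comm dta z g⟩

/-- Chunk V3a (S/M). PROOF. u(g) = z g z⁻¹ g⁻¹ is in SH: in Dec V (H13X.Dec.mul', Dec.inv'; dV V = H55P.decS) and FA (H35L.fa_comm). u(g g') = u(g) (g u(g') g⁻¹). f(u(g g')) = f(u(g)) + f(g u(g') g⁻¹) = f(u(g)) + g f(u(g')) (mul, eqv; g u g⁻¹ in SH: H35L.FA_conj). Values: f h is killed by p = cj p (H55K.cj_nat), Tor = kernel of act p (map_natCast).
DecN ⊥ V g ↔ Dec V g. -/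
theorem v3_dc (dta : Dta A B Om j act mo ψ p) {z : Ω ≃ₐ[F] Ω} (hz : Dec V z) {f : (Ω ≃ₐ[F] Ω) → PM act} (hf : V0 act p V f) :
    Dc act (p : 𝓞 F) (⊥ : IntermediateField F Ω) V (ext z f) := by
  refine ⟨?_, ?_⟩
  · intro s hs t ht
    have h1 : z * (s * t) * z⁻¹ * (s * t)⁻¹ = (z * s * z⁻¹ * s⁻¹) * (s * (z * t * z⁻¹ * t⁻¹) * s⁻¹) := by group
    have h2 := v3_sh dta hz ht.2
    have h3 : SH act (dV V) p (s * (z * t * z⁻¹ * t⁻¹) * s⁻¹) :=
      ⟨Dec.mul' (Dec.mul' hs.2 h2.1) (Dec.inv' hs.2), H35L.FA_conj act h2.2 _⟩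
    have h4 := hf.mul _ (v3_sh dta hz hs.2) _ h3
    rw [← h1, hf.eqv s hs.2 _ h2] at h4
    exact h4
  · intro s hs
    show act (cj (p : 𝓞 F)) (ext z f s) = 0
    rw [H55K.cj_nat, map_natCast, AddMonoid.End.natCast_apply]
    exact hf.tor _

/-- Chunk V3b (S/M). On SH the extension is f: h in SH: u(h) = (z h z⁻¹) h⁻¹, f(u(h)) = f(z h z⁻¹) - f(h) = z f(h) - f(h) = 2 f(h) - f(h) (f h⁻¹ = - f h; f h is killed by p). -/
theorem v3_res (dta : Dta A B Om j act mo ψ p) {z : Ω ≃ₐ[F] Ω} (hz : Dec V z) (hz2 : ∀ T : PM act, p • T = 0 → aM act z T = (2 : ℕ) • T)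
    {f : (Ω ≃ₐ[F] Ω) → PM act} (hf : V0 act p V f) {h : Ω ≃ₐ[F] Ω} (hh : SH act (dV V) p h) : ext z f h = f h := by
  have h1 : SH act (dV V) p (1 : Ω ≃ₐ[F] Ω) := ⟨one_mem _, fun P _ => H35L.aM_one act P⟩
  have hi : SH act (dV V) p h⁻¹ := ⟨inv_mem hh.1, v3_fainv hh.2⟩
  have h2 : f 1 = 0 := by
    have h3 := hf.mul 1 h1 1 h1
    rw [mul_one] at h3
    exact left_eq_add.1 h3
  have h4 : f h⁻¹ = - f h := by
    have h5 := hf.mul h hh h⁻¹ hi
    rw [mul_inv_cancel, h2] at h5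
    exact (neg_eq_of_add_eq_zero_right h5.symm).symm
  have hzV : z ∈ dV V := hz
  have h6 : SH act (dV V) p (z * h * z⁻¹) := ⟨mul_mem (mul_mem hzV hh.1) (inv_mem hzV), H35L.FA_conj act hh.2 _⟩
  have h7 : f (z * h * z⁻¹ * h⁻¹) = f h := by
    rw [hf.mul _ h6 _ hi, hf.eqv z hzV h hh, h4, hz2 _ (hf.tor h), two_smul, add_neg_cancel_right]
  exact h7

/-- Chunk V3c (S/M). Continuity: L from hf.cont, L' = the normal closure of L (IntermediateField.normalClosure F L Ω: finite, normal): g in L'.fixingSubgroup: z g z⁻¹ and g⁻¹ fix L' (z⁻¹ maps L' to itself), so u(g) fixes L. -/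
theorem v3_cont (dta : Dta A B Om j act mo ψ p) {z : Ω ≃ₐ[F] Ω} (hz : Dec V z) {f : (Ω ≃ₐ[F] Ω) → PM act} (hf : V0 act p V f) :
    ∃ L : IntermediateField F Ω, FiniteDimensional F L ∧ ∀ g, Dec V g → g ∈ L.fixingSubgroup → ext z f g = 0 := by
  obtain ⟨L, hL, h1⟩ := hf.cont
  have hac : IsAlgClosed Ω := IsAlgClosure.isAlgClosed F
  have hal : Algebra.IsAlgebraic F Ω := IsAlgClosure.isAlgebraic
  have hnΩ : Normal F Ω := IsAlgClosure.normal F Ω
  have hn : Normal F (IntermediateField.normalClosure F L Ω) := normalClosure.normal F L Ω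
  refine ⟨IntermediateField.normalClosure F L Ω, inferInstance, fun g hg hgL => ?_⟩
  refine h1 _ (v3_sh dta hz hg) ?_
  rw [IntermediateField.mem_fixingSubgroup_iff] at hgL ⊢
  intro x hx
  have hx' : x ∈ IntermediateField.normalClosure F L Ω := L.le_normalClosure hx
  have h2 : g⁻¹ x = x := by
    have h3 : g⁻¹ (g x) = x := g.symm_apply_apply x
    rwa [hgL x hx'] at h3
  have h4 : z⁻¹ x ∈ IntermediateField.normalClosure F L Ω := by
    rw [IntermediateField.normal_iff_forall_map_le'] at hn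
    exact hn z⁻¹ ⟨x, hx', rfl⟩
  show z (g (z⁻¹ (g⁻¹ x))) = x
  rw [h2, hgL _ h4]
  exact z.apply_symm_apply x

end H16S
end

-- from Lib.H16S.V2
section

/-! # H16S, chunk V2 (S/M): the classes killed by p and fixed by gamma -/

open NumberField IsDedekindDomain WeierstrassCurve

namespace H16S

open H55P (IQ Pt ac Inert Dec Nm)
open H35P (WAB Ker tt)
open H55K (Tor ak xc yc CMA Dta GV cj)
open H55K.S
open H13X
open H35L (Gc Gen dV PM aM AM gm1 SH SN FA Cm WM opM LI LI_conj LocP)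

variable {F : Type} [Field F] [NumberField F] [IQ F] {A B : F} {Om : ℂ} {Ω : Type} [Field Ω] [DecidableEq Ω]
  [Algebra F Ω] [IsAlgClosure F Ω] {j : Ω →+* ℂ} {act : 𝓞 F →+* AddMonoid.End (Pt (WAB A B) Ω)} {mo : Ideal (𝓞 F)}
  {ψ : Ideal (𝓞 F) →*₀ 𝓞 F} {V : ValuationSubring Ω} {p : ℕ}

omit [NumberField F] [IQ F] [IsAlgClosure F Ω] in
theorem v2_inj (s : Ω ≃ₐ[F] Ω) {P Q : PM act} (h : aM act s P = aM act s Q) : P = Q := by
  have h1 : ∀ R : PM act, aM act s⁻¹ (aM act s R) = R := by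
    intro R
    rw [← H35L.aM_mul, inv_mul_cancel, H35L.aM_one]
  rw [← h1 P, h, h1 Q]

/-- Chunk V2 (S/M). PROOF. w.1 is a function with IsCls act p (SH act (dV V) p) LI (SN (dV V) p) w.1 (w.2). tor: h1 evaluated at h (Submodule smul, Pi). opM w = w evaluated at h (definition of opM, tr: the value at h in SH is aM γ⁻¹⁻¹ (w (γ⁻¹ h γ⁻¹⁻¹)) = γ w(γ⁻¹ h γ)): w(γ h γ⁻¹) = γ w(h) for h in SH (apply to γ h γ⁻¹, which is in
SH: H35L.FA_conj). eqv holds for SN m, some m (IsCls.eqv). s in Dec V: H35L.gc_gen (n := 0, gc_zero): γ^k s is in SN m for some k. So it holds for γ^k s and for γ^k (induction), hence for s: f(γ^k (s h s⁻¹) γ^-k) = γ^k f(s h s⁻¹) = (γ^k s) f(h), and aM (γ^k) is injective. -/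
theorem v2 (hp : p.Prime) (h3 : 3 ≤ p) (hc : Cm act) {γ : Ω ≃ₐ[F] Ω} (hγ : γ ∈ dV V) (hg : Gen p γ) (w : WM act hc p V) (h1 : p • w = 0)
    (h2 : opM act hc p LI_conj hγ w = w) : V0 act p V w.1 := by
  classical
  have hw : H35L.IsCls act p (SH act (dV V) p) LI (SN (dV V) p) w.1 := w.2
  have e1 : ∀ h, SH act (dV V) p h → aM act γ (w.1 (γ⁻¹ * h * γ)) = w.1 h := by
    intro h hh
    have h4 := congrFun (congrArg Subtype.val h2) h
    have h5 : (opM act hc p LI_conj hγ w).1 h = aM act γ⁻¹⁻¹ (w.1 (γ⁻¹ * h * γ⁻¹⁻¹)) := if_pos hh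
    rw [h5, inv_inv] at h4
    exact h4
  have hcj : ∀ s : Ω ≃ₐ[F] Ω, s ∈ dV V → ∀ h, SH act (dV V) p h → SH act (dV V) p (s * h * s⁻¹) := fun s hs h hh =>
    ⟨mul_mem (mul_mem hs hh.1) (inv_mem hs), H35L.FA_conj act hh.2 _⟩
  have e2 : ∀ h, SH act (dV V) p h → w.1 (γ * h * γ⁻¹) = aM act γ (w.1 h) := by
    intro h hh
    rw [← e1 (γ * h * γ⁻¹) (hcj γ hγ h hh)]
    congr 2
    group
  have e3 : ∀ k : ℕ, ∀ h, SH act (dV V) p h → w.1 (γ ^ k * h * (γ ^ k)⁻¹) = aM act (γ ^ k) (w.1 h) := by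
    intro k
    induction k with
    | zero =>
      intro h hh
      rw [pow_zero, H35L.aM_one, one_mul, inv_one, mul_one]
    | succ k ih =>
      intro h hh
      have h5 : γ ^ (k + 1) * h * (γ ^ (k + 1))⁻¹ = γ * (γ ^ k * h * (γ ^ k)⁻¹) * γ⁻¹ := by
        rw [pow_succ']
        group
      rw [h5, e2 _ (hcj _ (pow_mem hγ k) h hh), ih h hh, ← H35L.aM_mul, ← pow_succ']
  refine ⟨hw.out, hw.mul, fun h => congrFun (congrArg Subtype.val h1) h, hw.cont, ?_⟩
  intro s hs h hh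
  obtain ⟨m, hm⟩ := hw.eqv
  obtain ⟨i, hi⟩ := H35L.gc_gen hp h3 hg (Nat.zero_le m) (H35L.gc_zero hp s)
  rw [pow_zero, mul_one] at hi
  have h4 := hm (γ ^ i * s) ⟨mul_mem (pow_mem hγ i) hs, hi⟩ h hh
  have h5 : γ ^ i * s * h * (γ ^ i * s)⁻¹ = γ ^ i * (s * h * s⁻¹) * (γ ^ i)⁻¹ := by group
  rw [h5, e3 i _ (hcj s hs h hh), H35L.aM_mul] at h4
  exact v2_inj _ h4

end H16S
end

-- from Lib.H16S.V5
section

/-! # H16S, chunk V5 (M): the first level -/

open NumberField IsDedekindDomain WeierstrassCurve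

namespace H16S

open H55P (IQ Pt ac Inert Dec Nm)
open H35P (WAB Ker tt)
open H55K (Tor ak xc yc CMA Dta GV cj)
open H55K.S
open H13X
open H35L (Gc Gen dV PM aM AM gm1 SH SN FA Cm WM opM LI LI_conj LocP)

variable {F : Type} [Field F] [NumberField F] [IQ F] {A B : F} {Om : ℂ} {Ω : Type} [Field Ω] [DecidableEq Ω]
  [Algebra F Ω] [IsAlgClosure F Ω] {j : Ω →+* ℂ} {act : 𝓞 F →+* AddMonoid.End (Pt (WAB A B) Ω)} {mo : Ideal (𝓞 F)}
  {ψ : Ideal (𝓞 F) →*₀ 𝓞 F} {V : ValuationSubring Ω} {p : ℕ}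

/-- Powers of the value of t are equal only for equal exponents. -/
theorem v5_exp {t : Ω} (h0 : V.valuation t ≠ 0) (h1 : V.valuation t < 1) {n k : ℤ} (h : V.valuation t ^ n = V.valuation t ^ k) :
    n = k := by
  have hp : 0 < V.valuation t := zero_lt_iff.2 h0
  rcases lt_trichotomy n k with h2 | h2 | h2
  · exact absurd h (zpow_lt_zpow_right_of_lt_one₀ hp h1 h2).ne'
  · exact h2
  · exact absurd h (zpow_lt_zpow_right_of_lt_one₀ hp h1 h2).ne

/-- Chunk V5 (M). Every equivariant system has level 1. PROOF. T in Tor act π. R.values: V (m T) = V t^n(T) (V t < 1, ≠ 0: R.base.val_l, so n is unique). hm.add: n(T + T') = n(T) + n(T') modulo l (the value of z is a power of V t: R.values). R.base.exists_inert with a = 2 (π does not divide 2: l ≥ 5 and 2 = unit at V: otherwise V 2 < 1 and V l < 1): s in Inert V with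
s T = act 2 T = T + T; hm.gal: V (m (s T)) = V (s (m T)) V(z)^l = V (m T) V(z)^l (H13X.Dec.val): n(2T) = n(T) modulo l. So 2 n(T) = n(T), n(T) = 0 modulo l: n(T) = l k. u = m T/t^(l k) is in Hx (yc1_hx for t, Hx.div, Hx.zpow) and V u = 1. R.residue: a in N, V (u - a) < 1, V a = 1. R.nb.res (β = π): q = Nm π^f, V (a^q - a) < 1; l divides q
(Nm π = l or l²): b = a^(q/l) in N, V (b^l - a) < 1, V b = 1. z = t^k b: m T/z^l - 1 = (u - b^l)/b^l has value < 1 = V t^0: R.step (i = 0) gives ≤ V t^1. -/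
theorem v5 {π : 𝓞 F} {l e0 : ℕ} {t : Ω} {N : IntermediateField F Ω} (R : RV A B Om j act mo ψ π l N V t e0) {m : Pt (WAB A B) Ω → Ω}
    (hm : Sys act π l N V m) : ∀ T ∈ Tor act π, Lv act π l N V (V.valuation t ^ 1) (m T) := by
  intro T hT
  obtain ⟨-, -, ht1, ht0, -, hNm⟩ := R.base.val_l
  have htp : 0 < V.valuation t := zero_lt_iff.2 ht0
  have ht0' : t ≠ 0 := by
    rintro rfl
    exact ht0 (map_zero _)
  have hl5 := R.base.D.five
  have hlV := R.lt
  -- an inertia element acting as 2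
  have h2 : ¬ π ∣ (2 : 𝓞 F) := by
    rw [← R.base.vo_lt]
    have e1 : vo V (2 : 𝓞 F) = V.valuation (2 : Ω) := by
      have := vo_nat (F := F) V 2
      simpa using this
    rw [e1, R.base.gv.two]
    exact lt_irrefl _
  obtain ⟨s, hsI, hs⟩ := R.base.exists_inert h2
  have hact : act (2 : 𝓞 F) T = T + T := by
    have e1 : (2 : 𝓞 F) = 1 + 1 := by norm_num
    rw [e1, map_add, map_one]
    rfl
  have hsT : ac (WAB A B) s T = T + T := (hs T hT).trans hact
  have hD : Dec V s := (R.dec hsI).2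
  obtain ⟨z, hz, hz0, hadd⟩ := hm.add T hT T hT
  obtain ⟨z', hz', hz0', hgal⟩ := hm.gal s (R.dec hsI) T hT
  obtain ⟨n, hn⟩ := R.values (hm.fx T hT) (hm.ne T hT)
  obtain ⟨k, hk⟩ := R.values hz hz0
  obtain ⟨k', hk'⟩ := R.values hz' hz0'
  have halg : Algebra.IsAlgebraic F Ω := IsAlgClosure.isAlgebraic
  have hval : V.valuation (s (m T)) = V.valuation (m T) := Dec.val hD (m T)
  rw [hsT, hadd] at hgal
  have h3 := congrArg V.valuation hgal
  rw [map_mul, map_mul, map_pow, map_mul, map_pow, hval, hn, hk, hk', ← zpow_natCast, ← zpow_natCast, ← zpow_mul, ← zpow_mul,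
    ← zpow_add₀ ht0, ← zpow_add₀ ht0, ← zpow_add₀ ht0] at h3
  have h4 := v5_exp ht0 ht1 h3
  obtain ⟨d, hd⟩ : ∃ d : ℤ, n = l * d := ⟨k' - k, by linear_combination h4⟩
  -- the unit u
  obtain ⟨u, hu⟩ : ∃ u, u = m T / t ^ (l * d : ℤ) := ⟨_, rfl⟩
  have huH : Hx act π N V u := by
    rw [hu]
    exact (hm.fx T hT).div ((yc1_hx R).zpow _)
  have huV : V.valuation u = 1 := by
    rw [hu, map_div₀, map_zpow₀, hn, hd]
    exact div_self (zpow_ne_zero _ ht0)
  obtain ⟨a, haN, ha1, hua⟩ := R.residue huH huV.le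
  have haV : V.valuation a = 1 := by
    have e1 : a = u - (u - a) := by ring
    rw [e1, Valuation.map_sub_eq_of_lt_left _ (by rw [huV]; exact hua), huV]
  obtain ⟨q, f, hf, hq, hres, -, -⟩ := R.nb.res V π R.base.D.pr R.base.above R.lt
  have hlq : l ∣ q := by
    rw [hq]
    have h5 : l ∣ Nm π := by
      rcases hNm with ⟨h5, -⟩ | ⟨h5, -, -⟩
      · rw [h5]
      · rw [h5]
        exact dvd_pow_self l two_ne_zero
    exact h5.trans (dvd_pow_self _ hf.ne')
  obtain ⟨q', hq'⟩ := hlq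
  have haq := hres a haN ((V.valuation_le_one_iff _).1 ha1)
  obtain ⟨b, hb⟩ : ∃ b, b = a ^ q' := ⟨_, rfl⟩
  have hbl : b ^ l = a ^ q := by rw [hb, ← pow_mul, hq', mul_comm]
  have hbN : b ∈ N := by
    rw [hb]
    exact pow_mem haN q'
  have hbV : V.valuation b = 1 := by rw [hb, map_pow, haV, one_pow]
  have hb0 : b ≠ 0 := by
    rintro rfl
    rw [map_zero] at hbV
    exact zero_ne_one hbV
  refine ⟨t ^ d * b, ((yc1_hx R).zpow d).mul (Hx.of_mem hbN), mul_ne_zero (zpow_ne_zero _ ht0') hb0, ?_⟩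
  have e1 : m T / (t ^ d * b) ^ l = u / b ^ l := by
    rw [hu, mul_pow, ← zpow_natCast, ← zpow_mul, mul_comm d, div_div]
  have hx : Hx act π N V (m T / (t ^ d * b) ^ l - 1) := by
    rw [e1]
    exact (huH.div ((Hx.of_mem hbN).pow l)).sub Hx.one
  have hlt : V.valuation (m T / (t ^ d * b) ^ l - 1) < V.valuation t ^ 0 := by
    rw [e1, pow_zero]
    have e2 : u / b ^ l - 1 = (u - b ^ l) / b ^ l := by
      rw [sub_div, div_self (pow_ne_zero l hb0)]
    rw [e2, map_div₀, map_pow, hbV, one_pow, div_one]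
    have e3 : u - b ^ l = (u - a) - (b ^ l - a) := by ring
    rw [e3]
    refine lt_of_le_of_lt (V.valuation.map_sub _ _) (max_lt hua ?_)
    rw [hbl]
    exact haq
  have h5 := R.step hx hlt
  rwa [zero_add] at h5

end H16S
end

-- from Lib.H16S.V4
section

/-! # H16S, chunk V4 (M): Kummer generators over the decomposition field -/

open NumberField IsDedekindDomain WeierstrassCurve

namespace H16S

open H55P (IQ Pt ac Inert Dec Nm)
open H35P (WAB Ker tt)
open H55K (Tor ak xc yc CMA Dta GV cj)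
open H55K.S
open H13X
open H35L (Gc Gen dV PM aM AM gm1 SH SN FA Cm WM opM LI LI_conj LocP)

variable {F : Type} [Field F] [NumberField F] [IQ F] {A B : F} {Om : ℂ} {Ω : Type} [Field Ω] [DecidableEq Ω]
  [Algebra F Ω] [IsAlgClosure F Ω] {j : Ω →+* ℂ} {act : 𝓞 F →+* AddMonoid.End (Pt (WAB A B) Ω)} {mo : Ideal (𝓞 F)}
  {ψ : Ideal (𝓞 F) →*₀ 𝓞 F} {V : ValuationSubring Ω} {p : ℕ}

/-- A condition on one value is closed. -/
theorem v4_clo {F : Type} [Field F] {Ω : Type} [Field Ω] [Algebra F Ω] [Algebra.IsAlgebraic F Ω] (P : Ω → Prop) (x : Ω) :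
    IsClosed {s : Ω ≃ₐ[F] Ω | P (s x)} := by
  have hal : Algebra.IsAlgebraic F Ω := inferInstance
  have hop : ∀ Q : Ω → Prop, IsOpen {s : Ω ≃ₐ[F] Ω | Q (s x)} := by
    intro Q
    rw [isOpen_iff_mem_nhds]
    intro s0 hs0
    have hfd : FiniteDimensional F (IntermediateField.adjoin F {x}) :=
      IntermediateField.adjoin.finiteDimensional (hal.isAlgebraic x).isIntegral
    have hU : IsOpen ((IntermediateField.adjoin F {x}).fixingSubgroup : Set (Ω ≃ₐ[F] Ω)) :=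
      IntermediateField.fixingSubgroup_isOpen _
    have h1 : IsOpen ((fun s : Ω ≃ₐ[F] Ω => s0⁻¹ * s) ⁻¹' ((IntermediateField.adjoin F {x}).fixingSubgroup : Set (Ω ≃ₐ[F] Ω))) :=
      hU.preimage (continuous_const.mul continuous_id)
    refine Filter.mem_of_superset (h1.mem_nhds ?_) ?_
    · show s0⁻¹ * s0 ∈ (IntermediateField.adjoin F {x}).fixingSubgroup
      rw [inv_mul_cancel]
      exact one_mem _
    · intro s hs
      have h2 := (IntermediateField.mem_fixingSubgroup_iff _ _).1 hs x (IntermediateField.mem_adjoin_simple_self F x)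
      have h4 : s0 ((s0⁻¹ * s) x) = s x := s0.apply_symm_apply (s x)
      rw [h2] at h4
      show Q (s x)
      rw [← h4]
      exact hs0
  have h := (hop (fun y => ¬ P y)).isClosed_compl
  have e : {s : Ω ≃ₐ[F] Ω | ¬ P (s x)}ᶜ = {s : Ω ≃ₐ[F] Ω | P (s x)} := by
    ext s
    simp
  rwa [e] at h

/-- Chunk V4a (M). The group DT of the elements of Dec V fixing the points killed by p is a closed subgroup of Gal(Ω/F): every element fixing its fixed field belongs to it. PROOF. Ω/F is Galois (algebraic closure in characteristic 0). InfiniteGalois.fixingSubgroup_fixedField for a closed subgroup. Closed: the complement is open: if s is not in Dec V there is x with not (s x in V ↔ x in V), and all s' with s' x = s x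
(an open set: a coset of the group fixing F(x), krullTopology) are not in Dec V; if s moves a point T (coordinates x, y) the same with F(x, y) (H13X.lp_adj: elements fixing the coordinates fix the point). -/
theorem v4_closed (act : 𝓞 F →+* AddMonoid.End (Pt (WAB A B) Ω)) (π : 𝓞 F) (V : ValuationSubring Ω) :
    ∃ K : IntermediateField F Ω, ∀ s : Ω ≃ₐ[F] Ω, s ∈ K.fixingSubgroup ↔ DT act π (⊥ : IntermediateField F Ω) V s := by
  have hal : Algebra.IsAlgebraic F Ω := IsAlgClosure.isAlgebraic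
  have hN : Normal F Ω := IsAlgClosure.normal F Ω
  have hG : IsGalois F Ω := ⟨⟩
  let H : Subgroup (Ω ≃ₐ[F] Ω) :=
    { carrier := {s | DT act π (⊥ : IntermediateField F Ω) V s}
      mul_mem' := fun {a b} ha hb => ⟨ha.1.mul hb.1, fun T hT => by rw [ac_mul, hb.2 T hT, ha.2 T hT]⟩
      one_mem' := ⟨⟨one_mem _, fun x => Iff.rfl⟩, fun T _ => ac_one T⟩
      inv_mem' := fun {a} ha => ⟨ha.1.inv, fun T hT => by
        have h2 : ac (WAB A B) a⁻¹ (ac (WAB A B) a T) = T := by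
          rw [← ac_mul, inv_mul_cancel, ac_one]
        rwa [ha.2 T hT] at h2⟩ }
  have hT : ∀ T : Pt (WAB A B) Ω, IsClosed {s : Ω ≃ₐ[F] Ω | ac (WAB A B) s T = T} := by
    intro T
    have e : {s : Ω ≃ₐ[F] Ω | ac (WAB A B) s T = T} = {s : Ω ≃ₐ[F] Ω | s (xc T) = xc T} ∩ {s : Ω ≃ₐ[F] Ω | s (yc T) = yc T} := by
      ext s
      constructor
      · intro h
        have h : ac (WAB A B) s T = T := h
        refine ⟨?_, ?_⟩
        · show s (xc T) = xc T
          rw [← xc_ac, h]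
        · show s (yc T) = yc T
          rw [← yc_ac, h]
      · intro h
        exact lp_fix s h.1 h.2
    rw [e]
    exact (v4_clo (fun z => z = xc T) (xc T)).inter (v4_clo (fun z => z = yc T) (yc T))
  have hcl : IsClosed (H : Set (Ω ≃ₐ[F] Ω)) := by
    have e : (H : Set (Ω ≃ₐ[F] Ω)) = ((⋂ x : Ω, {s : Ω ≃ₐ[F] Ω | s x ∈ V ↔ x ∈ V}) ∩
        ⋂ T : {T : Pt (WAB A B) Ω // T ∈ Tor act π}, {s : Ω ≃ₐ[F] Ω | ac (WAB A B) s T.1 = T.1}) := by
      ext s
      constructor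
      · intro h
        have h : DT act π (⊥ : IntermediateField F Ω) V s := h
        exact ⟨Set.mem_iInter.2 fun x => h.1.2 x, Set.mem_iInter.2 fun T => h.2 T.1 T.2⟩
      · intro h
        refine ⟨⟨?_, fun x => Set.mem_iInter.1 h.1 x⟩, fun T hT => Set.mem_iInter.1 h.2 ⟨T, hT⟩⟩
        rw [IntermediateField.fixingSubgroup_bot]
        exact Subgroup.mem_top s
    rw [e]
    exact (isClosed_iInter fun x => v4_clo (fun z => z ∈ V ↔ x ∈ V) x).inter (isClosed_iInter fun T => hT T.1)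
  refine ⟨IntermediateField.fixedField H, fun s => ?_⟩
  have h1 := InfiniteGalois.fixingSubgroup_fixedField (k := F) (K := Ω) (⟨H, hcl⟩ : ClosedSubgroup (Ω ≃ₐ[F] Ω))
  have h2 : (IntermediateField.fixedField H).fixingSubgroup = H := h1
  rw [h2]
  exact Iff.rfl

/-- Chunk V4b (M). PROOF. K from v4_closed. T in Tor act π. u(s) = e (c s) T for s in Gal(Ω/K) (as elements of Gal(Ω/F): AlgEquiv.restrictScalars F; they are in DT): u(s t) = e (c s + s (c t)) T = u(s) * e (s c t) (s T) = u(s) * s (u t) (add_left, gal; s T = T). u(s)^l = 1, so u(s) ≠ 0 and the values lie in the finite set S₀ of the l-th roots of unity.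
H13S.ku1_h90 with k = K (Normal: IsAlgClosure.normal for K, Ω or IsGalois.tower_top) and S = S₀ and a finite set of generators of L: hS2 requires that elements fixing S map to 1: S = S₀ ∪ (a finite set generating L over F), L from hcont; then s fixes L and c s = 0, e 0 T = 1 (lk_e0 or add_left). S is finite: L finite over F, L = adjoin of a finite set
(IntermediateField.FG or a basis). y from ku1_h90: y ≠ 0, s y = u(s) y. Every s in DT is the restriction of such an element (IntermediateField.fixingSubgroupEquiv K). Choose y for each T; y T = 1 outside Tor. -/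
theorem v4_ks {π : 𝓞 F} {l : ℕ} (D : Dat A B Om j act mo ψ π l) {e : Pt (WAB A B) Ω → Pt (WAB A B) Ω → Ω} (he : Pairing A B act π l e)
    {c : (Ω ≃ₐ[F] Ω) → Pt (WAB A B) Ω} (hc : Dc act π (⊥ : IntermediateField F Ω) V c)
    (hcont : ∃ L : IntermediateField F Ω, FiniteDimensional F L ∧ ∀ g, Dec V g → g ∈ L.fixingSubgroup → c g = 0) :
    ∃ y : Pt (WAB A B) Ω → Ω, KS act π (⊥ : IntermediateField F Ω) V e c y := by
  classical
  obtain ⟨K, hK⟩ := v4_closed (V := V) act π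
  obtain ⟨E₁, hE₁, hc₁⟩ := hcont
  have hNF : Normal F Ω := IsAlgClosure.normal F Ω
  have hNL : Normal K Ω := Normal.tower_top_of_normal F K Ω
  have hl0 : 0 < l := D.hl.pos
  have key : ∀ T : Pt (WAB A B) Ω, ∃ y : Ω, T ∈ Tor act π → y ≠ 0 ∧
      ∀ s, DT act π (⊥ : IntermediateField F Ω) V s → s y = e (c s) T * y := by
    intro T
    by_cases hT : T ∈ Tor act π
    swap
    · exact ⟨1, fun h => absurd h hT⟩
    let b := Module.finBasis F E₁
    let S : Set Ω := Set.range (fun i => ((b i : E₁) : Ω)) ∪ {x : Ω | x ^ l = 1}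
    have hfr : {x : Ω | x ^ l = 1}.Finite := by
      have h1 := (Polynomial.nthRoots l (1 : Ω)).toFinset.finite_toSet
      refine h1.subset fun x hx => ?_
      rw [Finset.mem_coe, Multiset.mem_toFinset, Polynomial.mem_nthRoots hl0]
      exact hx
    have hSf : Finite S := ((Set.finite_range _).union hfr).to_subtype
    have hDT : ∀ s : Ω ≃ₐ[K] Ω, DT act π (⊥ : IntermediateField F Ω) V (s.restrictScalars F) := by
      intro s
      refine (hK _).1 ?_
      rw [IntermediateField.mem_fixingSubgroup_iff]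
      intro x hx
      exact s.commutes ⟨x, hx⟩
    have hval : ∀ s : Ω ≃ₐ[K] Ω, c (s.restrictScalars F) ∈ Tor act (cj π) := fun s => hc.val _ (hDT s).1
    have h0 : ∀ s : Ω ≃ₐ[K] Ω, e (c (s.restrictScalars F)) T ≠ 0 := fun s => lk_ne D he (hval s) hT
    have hcoc : ∀ s t : Ω ≃ₐ[K] Ω, e (c ((s * t).restrictScalars F)) T =
        e (c (s.restrictScalars F)) T * s (e (c (t.restrictScalars F)) T) := by
      intro s t
      have h1 : (s * t).restrictScalars F = s.restrictScalars F * t.restrictScalars F := rfl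
      rw [h1, hc.mul _ (hDT s).1 _ (hDT t).1, he.add_left _ (hval s) _ (ac_mem D.cma _ (hval t)) T hT]
      congr 1
      have h2 := he.gal (s.restrictScalars F) _ (hval t) T hT
      rw [(hDT s).2 T hT] at h2
      exact h2.symm
    have htriv : ∀ n : Ω ≃ₐ[K] Ω, (∀ x ∈ S, n x = x) → e (c (n.restrictScalars F)) T = 1 := by
      intro n hn
      have h1 : n.restrictScalars F ∈ E₁.fixingSubgroup := by
        rw [IntermediateField.mem_fixingSubgroup_iff]
        intro x hx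
        have h2 := b.sum_repr ⟨x, hx⟩
        have h3 : x = ∑ i, (b.repr ⟨x, hx⟩ i) • ((b i : E₁) : Ω) := by
          have h4 := congrArg (fun z : E₁ => (z : Ω)) h2
          refine h4.symm.trans ?_
          push_cast
          rfl
        rw [h3, map_sum]
        refine Finset.sum_congr rfl fun i _ => ?_
        rw [map_smul]
        congr 1
        exact hn _ (Or.inl ⟨i, rfl⟩)
      have h2 := hc₁ _ (hDT n).1.2 h1
      rw [h2]
      have h3 := he.add_left 0 (zero_mem _) 0 (zero_mem _) T hT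
      rw [add_zero] at h3
      have h5 : e 0 T ≠ 0 := lk_ne D he (zero_mem _) hT
      exact (mul_eq_left₀ h5).1 h3.symm
    obtain ⟨y, hy0, hy⟩ := H13S.ku1_h90 (k := K) (Ω := Ω) (fun s => e (c (s.restrictScalars F)) T) h0 hcoc S
      (fun s => Or.inr (he.root _ (hval s) T hT)) htriv
    refine ⟨y, fun _ => ⟨hy0, fun s hs => ?_⟩⟩
    exact hy (IntermediateField.fixingSubgroupEquiv K ⟨s, (hK s).2 hs⟩)
  choose y hy using key
  exact ⟨y, fun T hT => (hy T hT).1, fun T hT s hs => (hy T hT).2 s hs⟩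

end H16S
end

-- from Lib.H16S.V6
section

/-! # H16S, chunk V6 (M): comparison of two classes -/

open NumberField IsDedekindDomain WeierstrassCurve

namespace H16S

open H55P (IQ Pt ac Inert Dec Nm)
open H35P (WAB Ker tt)
open H55K (Tor ak xc yc CMA Dta GV cj)
open H55K.S
open H13X
open H35L (Gc Gen dV PM aM AM gm1 SH SN FA Cm WM opM LI LI_conj LocP)

variable {F : Type} [Field F] [NumberField F] [IQ F] {A B : F} {Om : ℂ} {Ω : Type} [Field Ω] [DecidableEq Ω]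
  [Algebra F Ω] [IsAlgClosure F Ω] {j : Ω →+* ℂ} {act : 𝓞 F →+* AddMonoid.End (Pt (WAB A B) Ω)} {mo : Ideal (𝓞 F)}
  {ψ : Ideal (𝓞 F) →*₀ 𝓞 F} {V : ValuationSubring Ω} {p : ℕ}

/-- Chunk V6a (S). The coefficient at level 1 of a class exists: v3_dc, v3_cont, v4_ks, sys_of (XK.lean), v5, RV.co_exists. -/
theorem v6_ex (dta : Dta A B Om j act mo ψ p) {t : Ω} (R : RV A B Om j act mo ψ (p : 𝓞 F) p (⊥ : IntermediateField F Ω) V t (p + 1))
    {e : Pt (WAB A B) Ω → Pt (WAB A B) Ω → Ω} (he : Pairing A B act (p : 𝓞 F) p e) {z : Ω ≃ₐ[F] Ω} (hz : Dec V z)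
    {T₀ : Pt (WAB A B) Ω} (hT : T₀ ∈ Tor act (p : 𝓞 F)) {f : (Ω ≃ₐ[F] Ω) → PM act} (hf : V0 act p V f) :
    ∃ (y : Pt (WAB A B) Ω → Ω) (a : Ω), KS act (p : 𝓞 F) (⊥ : IntermediateField F Ω) V e (ext z f) y ∧
      Co act (p : 𝓞 F) p (⊥ : IntermediateField F Ω) V t 1 (y T₀ ^ p) a := by
  have D := R.base.D
  have hc := v3_dc dta hz hf
  obtain ⟨y, hy⟩ := v4_ks D he hc (v3_cont dta hz hf)
  have hm := sys_of D he hc hy
  obtain ⟨a, ha⟩ := R.co_exists (hm.fx T₀ hT) (v5 R hm T₀ hT)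
  exact ⟨y, a, hy, ha⟩

/-- Chunk V6b (M). Two classes with the same coefficient differ by a class of points. PROOF. c = ext z f, c' = ext z f' (v3_dc); the difference has the Kummer generators y/y' (ks_sub), the system (y T/y' T)^p (sys_of) with coefficient a - a' at T₀ (RV.co_inv, RV.co_mul with z = 1, as in same_coef of XL1.lean); RV.up (T₀ ≠ 0): level 2 for all T; loc_inert (XL1.lean; Nm p = p²: Nm_nat; Dc.sub):
c s - c' s = s P - P for s in Dec V. On SH: v3_res twice. p • P is fixed by Dec V: p (s P - P) = p (c s - c' s) = 0 (Dc.val; Tor is the kernel of act p, cj p = p); SN (dV V) p 0 is contained in Dec V. -/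
theorem v6 (dta : Dta A B Om j act mo ψ p) {t : Ω} (R : RV A B Om j act mo ψ (p : 𝓞 F) p (⊥ : IntermediateField F Ω) V t (p + 1))
    {e : Pt (WAB A B) Ω → Pt (WAB A B) Ω → Ω} (he : Pairing A B act (p : 𝓞 F) p e) {z : Ω ≃ₐ[F] Ω} (hz : Dec V z)
    (hz2 : ∀ T : PM act, p • T = 0 → aM act z T = (2 : ℕ) • T) {T₀ : Pt (WAB A B) Ω} (hT : T₀ ∈ Tor act (p : 𝓞 F)) (h0 : T₀ ≠ 0)
    {f f' : (Ω ≃ₐ[F] Ω) → PM act} (hf : V0 act p V f) (hf' : V0 act p V f') {y y' : Pt (WAB A B) Ω → Ω} {a a' : Ω}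
    (hy : KS act (p : 𝓞 F) (⊥ : IntermediateField F Ω) V e (ext z f) y) (hy' : KS act (p : 𝓞 F) (⊥ : IntermediateField F Ω) V e (ext z f') y')
    (ha : Co act (p : 𝓞 F) p (⊥ : IntermediateField F Ω) V t 1 (y T₀ ^ p) a)
    (ha' : Co act (p : 𝓞 F) p (⊥ : IntermediateField F Ω) V t 1 (y' T₀ ^ p) a') (hd : V.valuation (a - a') < 1) :
    ∃ P : PM act, p • P ∈ AM act p (dV V) 0 ∧ ∀ h, SH act (dV V) p h → f h - f' h = aM act h P - P := by
  have D := R.base.D
  have hc := v3_dc dta hz hf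
  have hc' := v3_dc dta hz hf'
  have hks := ks_sub D he hc hy hc' hy'
  have hm := sys_of D he (hc.sub hc') hks
  have hm' := sys_of D he hc' hy'
  have h1 := R.co_mul le_rfl ha (R.co_inv (hm'.ne T₀ hT) le_rfl ha') Hx.one one_ne_zero
  have e1 : y T₀ ^ p * (y' T₀ ^ p)⁻¹ * 1 ^ p = (y T₀ / y' T₀) ^ p := by
    rw [div_pow, one_pow, mul_one, div_eq_mul_inv]
  rw [e1, ← sub_eq_add_neg] at h1
  have h2 := R.up hm hT h0 le_rfl h1 hd
  have hq : Nm (p : 𝓞 F) = p ^ 2 := H55K.Nm_nat p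
  obtain ⟨P₀, hP⟩ := loc_inert R hq he (hc.sub hc') hks h2
  obtain ⟨P, hPe⟩ : ∃ P : PM act, P = P₀ := ⟨P₀, rfl⟩
  subst hPe
  have hdec : ∀ s : Ω ≃ₐ[F] Ω, s ∈ dV V → DecN (⊥ : IntermediateField F Ω) V s := by
    intro s hs
    refine ⟨?_, hs⟩
    rw [IntermediateField.fixingSubgroup_bot]
    exact Subgroup.mem_top s
  have hP' : ∀ s : Ω ≃ₐ[F] Ω, s ∈ dV V →
      (f (z * s * z⁻¹ * s⁻¹) - f' (z * s * z⁻¹ * s⁻¹) : PM act) = aM act s (P : PM act) - (P : PM act) :=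
    fun s hs => hP s (hdec s hs)
  refine ⟨(P : PM act), ?_, ?_⟩
  · intro s hs
    have h3 := hP' s hs.1
    have h4 : p • (aM act s (P : PM act) - (P : PM act)) = 0 := by
      rw [← h3, smul_sub, hf.tor, hf'.tor, sub_zero]
    rw [smul_sub, sub_eq_zero] at h4
    rw [map_nsmul]
    exact h4
  · intro h hh
    have h3 := hP' h hh.1
    have h5 : (f (z * h * z⁻¹ * h⁻¹) : PM act) = f h := v3_res dta hz hz2 hf hh
    have h6 : (f' (z * h * z⁻¹ * h⁻¹) : PM act) = f' h := v3_res dta hz hz2 hf' hh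
    rw [h5, h6] at h3
    exact h3

end H16S
end

-- from Lib.H16S.V7
section

/-! # H16S, chunk V7 (M): the number of classes -/

open NumberField IsDedekindDomain WeierstrassCurve

namespace H16S

open H55P (IQ Pt ac Inert Dec Nm)
open H35P (WAB Ker tt)
open H55K (Tor ak xc yc CMA Dta GV cj)
open H55K.S
open H13X
open H35L (Gc Gen dV PM aM AM gm1 SH SN FA Cm WM opM LI LI_conj LocP)

variable {F : Type} [Field F] [NumberField F] [IQ F] {A B : F} {Om : ℂ} {Ω : Type} [Field Ω] [DecidableEq Ω]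
  [Algebra F Ω] [IsAlgClosure F Ω] {j : Ω →+* ℂ} {act : 𝓞 F →+* AddMonoid.End (Pt (WAB A B) Ω)} {mo : Ideal (𝓞 F)}
  {ψ : Ideal (𝓞 F) →*₀ 𝓞 F} {V : ValuationSubring Ω} {p : ℕ}

/-- Chunk V7a (S/M). An element of F integral at V is congruent to one of the representatives: a in ⊥ is algebraMap x, x = b/c with b, c in 𝓞 F, V c = 1 possible (p is a prime element: remove the powers of p; n2_F style) so x = b c' modulo p for c' an inverse of c modulo p; R.ex. Or H13X.yn2_approx (XNB.lean). -/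
theorem v7_res (hin : Prime (p : 𝓞 F)) (hV : V.valuation (p : Ω) < 1) {ρ : Fin (p ^ 2) → 𝓞 F} (R : Rp p ρ) {a : Ω}
    (ha : a ∈ (⊥ : IntermediateField F Ω)) (h1 : V.valuation a ≤ 1) : ∃ k, V.valuation (a - ak Ω (ρ k)) < 1 := by
  have hnf : NumberField (⊥ : IntermediateField F Ω) := NumberField.of_module_finite F _
  have hc0 : CharZero Ω := charZero_of_injective_algebraMap (algebraMap F Ω).injective
  have hp0 : (p : Ω) ≠ 0 := by
    have h2 := hin.ne_zero
    intro h3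
    apply h2
    have h4 : p = 0 := by exact_mod_cast h3
    rw [h4, Nat.cast_zero]
  obtain ⟨w, hw⟩ := H13S.exists_below (⊥ : IntermediateField F Ω) V ⟨((p : (⊥ : IntermediateField F Ω)))⁻¹, by
    rw [← V.valuation_le_one_iff]
    have e : ((((p : (⊥ : IntermediateField F Ω)))⁻¹ : (⊥ : IntermediateField F Ω)) : Ω) = ((p : Ω))⁻¹ := rfl
    rw [e, map_inv₀, not_le]
    exact (one_lt_inv₀ (zero_lt_iff.2 ((map_ne_zero _).2 hp0))).2 hV⟩
  obtain ⟨y, hy⟩ := yn2_approx (⊥ : IntermediateField F Ω) V w hw ⟨a, ha⟩ ((V.valuation_le_one_iff _).1 h1)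
  obtain ⟨x, hx⟩ : ∃ x : F, algebraMap F Ω x = (((y : (⊥ : IntermediateField F Ω))) : Ω) :=
    IntermediateField.mem_bot.1 (y : (⊥ : IntermediateField F Ω)).2
  have hint : IsIntegral ℤ x := by
    rw [← isIntegral_algebraMap_iff (algebraMap F Ω).injective, hx]
    exact (isIntegral_algebraMap_iff (A := (⊥ : IntermediateField F Ω)) (B := Ω) (algebraMap (⊥ : IntermediateField F Ω) Ω).injective).2
      (RingOfIntegers.isIntegral_coe y)
  obtain ⟨k, hk⟩ := R.ex ⟨x, hint⟩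
  refine ⟨k, ?_⟩
  obtain ⟨d, hd⟩ := hk
  have e1 : algebraMap F Ω x - ak Ω (ρ k) = (p : Ω) * ak Ω d := by
    have e2 : (x : F) - ((ρ k : 𝓞 F) : F) = (p : F) * ((d : 𝓞 F) : F) := by
      have e3 := congrArg (fun z : 𝓞 F => (z : F)) hd
      simpa using e3
    have e4 := congrArg (algebraMap F Ω) e2
    rw [map_sub, map_mul, map_natCast] at e4
    exact e4
  have e5 : a - ak Ω (ρ k) = (a - algebraMap F Ω x) + (algebraMap F Ω x - ak Ω (ρ k)) := by ring
  rw [e5]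
  refine V.valuation.map_add_lt ?_ ?_
  · rw [hx]
    exact hy
  · rw [e1, map_mul]
    exact (mul_le_of_le_one_right' (H55K.ak_le V d)).trans_lt hV

/-- Chunk V7b (M). PROOF. S = the set of the w with p • w = 0 and opM w = w; V0 act p V w.1 (v2). RV from v1_rv, z from v1_z, e from H55K.S.exists_pairing (SPA2.lean), ρ from n4_rp, T₀ ≠ 0 in Tor act p (dta.cma.gen). For w in S: y, a from v6_ex (choose), k(w) with V (a - ρ k(w)) < 1 (v7_res; a in ⊥ and V a ≤ 1 are in Co). If k(w) = k(w') then V (a - a') < 1 and v6 applies. For every class k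
which occurs choose w_k; for w with k(w) = k: P(w) from v6 for w, w_k; Q(w) = the class of p • P(w) in M = AM 0/p AM 0. The map w ↦ (k(w), Q(w)) in Fin (p²) × M is injective: k equal, p P(w) = p P(w') + p R with R in AM 0: T = P(w) - P(w') - R is killed by p, so h T = T for h in SH (FA), h R = R (h in Dec V, H35L.gc_zero): h P(w) - P(w) = h P(w') - P(w'), so w and w' agree on SH;
outside SH both are 0 (V0.out). Nat.card M = p² (hM), so M is finite; Finite.of_injective, Nat.card_le_card_of_injective, Nat.card_prod. -/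
theorem v7 (dta : Dta A B Om j act mo ψ p) (hin : Prime (p : 𝓞 F)) (hV : V.valuation (p : Ω) < 1) (hc : Cm act) {γ : Ω ≃ₐ[F] Ω} (hγ : γ ∈ dV V)
    (hg : Gen p γ)
    (hM : Nat.card (AM act p (dV V) 0 ⧸ (AddSubgroup.map (nsmulAddMonoidHom p) (⊤ : AddSubgroup (AM act p (dV V) 0)))) = p ^ 2) :
    Finite {w : WM act hc p V // p • w = 0 ∧ opM act hc p LI_conj hγ w = w} ∧
      Nat.card {w : WM act hc p V // p • w = 0 ∧ opM act hc p LI_conj hγ w = w} ≤ (p ^ 2) ^ 2 := by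
  classical
  obtain ⟨t, R⟩ := v1_rv dta hin hV
  obtain ⟨z, -, hz, hz2⟩ := v1_z dta hin hV
  obtain ⟨e, he⟩ := H55K.S.exists_pairing (p : 𝓞 F) p dta hin dvd_rfl
  obtain ⟨ρ, hρ⟩ := n4_rp (F := F) dta.prime
  obtain ⟨-, T₀, hT₀, -, hzz⟩ := gi_gen dta.cma (p : 𝓞 F) hin
  have hT₀0 : T₀ ≠ 0 := by
    intro h
    have h1 := (hzz 1).1 (by rw [act_one, h])
    exact hin.not_isUnit (isUnit_of_dvd_one h1)
  have h3p : 3 ≤ p := by
    have := dta.five
    omega
  have hf : ∀ w : {w : WM act hc p V // p • w = 0 ∧ opM act hc p LI_conj hγ w = w}, V0 act p V w.1.1 :=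
    fun w => v2 dta.prime h3p hc hγ hg w.1 w.2.1 w.2.2
  have hex := fun w : {w : WM act hc p V // p • w = 0 ∧ opM act hc p LI_conj hγ w = w} =>
    v6_ex dta R he hz hT₀ (hf w)
  choose y a hy ha using hex
  have hk := fun w : {w : WM act hc p V // p • w = 0 ∧ opM act hc p LI_conj hγ w = w} =>
    v7_res hin hV hρ (ha w).1.1 (ha w).1.2
  choose kk hkk using hk
  have hP : ∀ w w' : {w : WM act hc p V // p • w = 0 ∧ opM act hc p LI_conj hγ w = w}, kk w = kk w' →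
      ∃ P : PM act, p • P ∈ AM act p (dV V) 0 ∧ ∀ h, SH act (dV V) p h → w.1.1 h - w'.1.1 h = aM act h P - P := by
    intro w w' hww
    refine v6 dta R he hz hz2 hT₀ hT₀0 (hf w) (hf w') (hy w) (hy w') (ha w) (ha w') ?_
    have e1 : a w - a w' = (a w - ak Ω (ρ (kk w))) - (a w' - ak Ω (ρ (kk w'))) := by
      rw [hww]
      ring
    rw [e1]
    exact lt_of_le_of_lt (V.valuation.map_sub _ _) (max_lt (hkk w) (hkk w'))
  have hMfin : Finite (AM act p (dV V) 0 ⧸ (AddSubgroup.map (nsmulAddMonoidHom p) (⊤ : AddSubgroup (AM act p (dV V) 0)))) :=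
    Nat.finite_of_card_ne_zero (by rw [hM]; exact pow_ne_zero 2 dta.prime.ne_zero)
  rcases isEmpty_or_nonempty {w : WM act hc p V // p • w = 0 ∧ opM act hc p LI_conj hγ w = w} with hE | hE
  · exact ⟨inferInstance, by rw [Nat.card_of_isEmpty]; exact Nat.zero_le _⟩
  have hbb : ∃ bb : Fin (p ^ 2) → {w : WM act hc p V // p • w = 0 ∧ opM act hc p LI_conj hγ w = w}, ∀ w, kk (bb (kk w)) = kk w := by
    refine ⟨fun k => if h : ∃ w, kk w = k then h.choose else Classical.arbitrary _, fun w => ?_⟩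
    have h1 : ∃ w', kk w' = kk w := ⟨w, rfl⟩
    simp only [dif_pos h1]
    exact h1.choose_spec
  obtain ⟨bb, hbb⟩ := hbb
  choose PP hPP1 hPP2 using fun w => hP w (bb (kk w)) (hbb w).symm
  let φ : {w : WM act hc p V // p • w = 0 ∧ opM act hc p LI_conj hγ w = w} →
      Fin (p ^ 2) × (AM act p (dV V) 0 ⧸ (AddSubgroup.map (nsmulAddMonoidHom p) (⊤ : AddSubgroup (AM act p (dV V) 0)))) :=
    fun w => (kk w, QuotientAddGroup.mk ⟨p • PP w, hPP1 w⟩)
  have hinj : Function.Injective φ := by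
    intro w w' hww
    have h1 : kk w = kk w' := congrArg Prod.fst hww
    have h2 : (QuotientAddGroup.mk ⟨p • PP w, hPP1 w⟩ :
        AM act p (dV V) 0 ⧸ (AddSubgroup.map (nsmulAddMonoidHom p) (⊤ : AddSubgroup (AM act p (dV V) 0)))) =
        QuotientAddGroup.mk ⟨p • PP w', hPP1 w'⟩ := congrArg Prod.snd hww
    rw [QuotientAddGroup.eq] at h2
    obtain ⟨Q, -, hQ⟩ := h2
    have h3 : p • (Q : PM act) = -(p • PP w) + p • PP w' := congrArg Subtype.val hQ
    have h4 : p • (PP w' - PP w - (Q : PM act)) = 0 := by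
      rw [smul_sub, smul_sub, h3]
      abel
    have hsame : ∀ h, SH act (dV V) p h → w.1.1 h = w'.1.1 h := by
      intro h hh
      have h5 : aM act h (PP w' - PP w - (Q : PM act)) = PP w' - PP w - (Q : PM act) :=
        hh.2 _ ⟨1, by rw [pow_one]; exact h4⟩
      have h6 : aM act h (Q : PM act) = (Q : PM act) := Q.2 h ⟨hh.1, H35L.gc_zero dta.prime h⟩
      rw [map_sub, map_sub, h6] at h5
      have h7 := hPP2 w h hh
      have h8 := hPP2 w' h hh
      rw [← h1] at h8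
      have h9 : aM act h (PP w') - aM act h (PP w) = PP w' - PP w := by
        have := congrArg (fun X => X + (Q : PM act)) h5
        simpa using this
      have h10 : w.1.1 h - w'.1.1 h = 0 := by
        calc w.1.1 h - w'.1.1 h = (w.1.1 h - (bb (kk w)).1.1 h) - (w'.1.1 h - (bb (kk w)).1.1 h) := by abel
          _ = (aM act h (PP w) - PP w) - (aM act h (PP w') - PP w') := by rw [h7, h8]
          _ = (PP w' - PP w) - (aM act h (PP w') - aM act h (PP w)) := by abel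
          _ = 0 := by rw [h9, sub_self]
      exact sub_eq_zero.1 h10
    apply Subtype.ext
    apply Subtype.ext
    funext h
    by_cases hh : SH act (dV V) p h
    · exact hsame h hh
    · rw [(hf w).out h hh, (hf w').out h hh]
  have hfin := Finite.of_injective φ hinj
  refine ⟨hfin, ?_⟩
  have h1 := Nat.card_le_card_of_injective φ hinj
  rw [Nat.card_prod, hM, Nat.card_fin] at h1
  rw [pow_two (p ^ 2)]
  exact h1

end H16S
end

-- from Lib.H16S.V8
section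

/-! # H16S, chunk V8 (S/M): the local facts -/

open NumberField IsDedekindDomain WeierstrassCurve

namespace H16S

open H55P (IQ Pt ac Inert Dec Nm)
open H35P (WAB Ker tt)
open H55K (Tor ak xc yc CMA Dta GV cj)
open H55K.S
open H13X
open H35L (Gc Gen dV PM aM AM gm1 SH SN FA Cm WM opM LI LI_conj LocP)

variable {F : Type} [Field F] [NumberField F] [IQ F] {A B : F} {Om : ℂ} {Ω : Type} [Field Ω] [DecidableEq Ω]
  [Algebra F Ω] [IsAlgClosure F Ω] {j : Ω →+* ℂ} {act : 𝓞 F →+* AddMonoid.End (Pt (WAB A B) Ω)} {mo : Ideal (𝓞 F)}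
  {ψ : Ideal (𝓞 F) →*₀ 𝓞 F} {V : ValuationSubring Ω} {p : ℕ}

/-- Chunk V8 (S/M). PROOF. Ctx from dta, hin, hV, hi. ρ from n4_rp, ζ from n8_zt, T = twr, G = fgp (hG = dta.good V hV; dta.cma). r1_l1, r1_l2, r2_l3, r2_l3', v7 with hM = r1_l2 for n = 0. (γ in dV V is Dec V γ by definition.) -/
theorem locp {C : Type} [NormedField C] [IsUltrametricDist C] [CompleteSpace C] (dta : Dta A B Om j act mo ψ p) (hin : Prime (p : 𝓞 F))
    (hV : V.valuation (p : Ω) < 1) (i : Ω →+* C) (hi : ∀ x, x ∈ V ↔ ‖i x‖ ≤ 1) (hS : Sup act p) (hc : Cm act) {γ : Ω ≃ₐ[F] Ω}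
    (hγ : γ ∈ dV V) (hg : Gen p γ) : LocP act hc p (p ^ 2) V hγ := by
  have h : Ctx F p V i := ⟨dta.prime, dta.five, hin, hV, hi⟩
  haveI : Fact p.Prime := ⟨dta.prime⟩
  obtain ⟨ρ, R⟩ := n4_rp (F := F) dta.prime
  obtain ⟨ζ, Z⟩ := n8_zt (F := F) (i := i) dta.prime
  have hγ' : Dec V γ := hγ
  have T := twr h hγ' hg R Z
  have hG : GV A B V := dta.good V hV
  have G := fgp h dta.cma hS hG hγ' ρ
  have l2 := fun n => r1_l2 h hS hG hγ' T G n
  have hM := l2 0
  rw [pow_zero, pow_one] at hM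
  obtain ⟨h5, h6⟩ := v7 dta hin hV hc hγ hg hM
  exact ⟨fun n P hP h0 => r1_l1 h hS hG hγ' T G n hP h0, l2, fun n P hP => r2_l3 h hS hG hγ' T G n hP,
    fun n P₀ hP => r2_l3' h hS hG hγ' T G n hP, h5, h6⟩

end H16S
end
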