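import Mathlib
import Pool.Agent.Lib.H1M.PP2.M051
import Pool.Agent.Lib.H1M.PP2.M104
import Pool.Agent.Lib.H1M.PP2.M143
import Pool.Agent.Lib.H1M.PP2.M154
import Pool.Agent.Lib.H1M.PP2.M155

/-! Merged copies (to shorten the build) of Lib.H13T.E1, Lib.H13T.E2, Lib.H13T.C5, Lib.H13T.K3. -/

-- from Lib.H13T.E1
section

/-! # H13T, module E: one class for one prime (surjectivity) -/

open NumberField IsDedekindDomain WeierstrassCurve

namespace H13T

open H55P (IQ embF eF LF Per IsHecke Pt ac acR Inert Dec Nm Coc PExt UnrP Ram RamF SelZero s13_alg s13_galois s13_fin)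
open H35P (WAB Ker tt)
open H55K (Tor ak xc yc CMA Dta GV GMod cj cj_cj mul_cj cj_prime cj_dvd cj_nat Nm_cj Nm_mul Nm_nat tor_gen)
open H55K.S
open H13S (Abv)
open H13X

section coset

variable {F : Type} [Field F] [NumberField F] {Ω : Type} [Field Ω] [DecidableEq Ω] [Algebra F Ω] [IsAlgClosure F Ω]

/-- In a Galois step of prime degree l the powers of an element outside the smaller group represent all cosets. -/
theorem pow_coset {l : ℕ} (hl : l.Prime) {N N' : IntermediateField F Ω} [FiniteDimensional F N'] (hNN : N ≤ N')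
    (hn : ∀ s ∈ N.fixingSubgroup, ∀ x ∈ N', s x ∈ N') (hd : Module.finrank F N' = Module.finrank F N * l)
    {τ : Ω ≃ₐ[F] Ω} (hτ : τ ∈ N.fixingSubgroup) (hτ' : τ ∉ N'.fixingSubgroup) {s : Ω ≃ₐ[F] Ω}
    (hs : s ∈ N.fixingSubgroup) : ∃ k : ℕ, (τ ^ k)⁻¹ * s ∈ N'.fixingSubgroup := by
  have hac : IsAlgClosed Ω := IsAlgClosure.isAlgClosed F
  have halg : Algebra.IsAlgebraic F Ω := IsAlgClosure.isAlgebraic
  have hch : CharZero Ω := charZero_of_injective_algebraMap (algebraMap F Ω).injective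
  let _ : Algebra N N' := s13_alg hNN
  have hgal : IsGalois N N' := s13_galois N N' hNN hn
  have hNf : FiniteDimensional F N := s13_fin hNN
  have hst : IsScalarTower F N N' := IsScalarTower.of_algebraMap_eq fun x => rfl
  have hst' : IsScalarTower N N' Ω := IsScalarTower.of_algebraMap_eq fun x => rfl
  have hfr : Module.finrank N N' = l := by
    have h1 := Module.finrank_mul_finrank F N N'
    rw [hd] at h1
    exact Nat.eq_of_mul_eq_mul_left Module.finrank_pos h1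
  have hfd : FiniteDimensional N N' := Module.finite_of_finrank_pos (by rw [hfr]; exact hl.pos)
  have hcard : Nat.card (N' ≃ₐ[N] N') = l := by rw [IsGalois.card_aut_eq_finrank, hfr]
  have hnorm : Normal N N' := hgal.to_normal
  let r : N.fixingSubgroup →* (N' ≃ₐ[N] N') :=
    (AlgEquiv.restrictNormalHom (F := N) (K₁ := Ω) N').comp (IntermediateField.fixingSubgroupEquiv N).toMonoidHom
  have hr : ∀ (g : N.fixingSubgroup) (x : N'), ((r g x : N') : Ω) = (g : Ω ≃ₐ[F] Ω) (x : Ω) := by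
    intro g x
    exact AlgEquiv.restrictNormal_commutes ((IntermediateField.fixingSubgroupEquiv N) g) N' x
  have hker : ∀ g : N.fixingSubgroup, r g = 1 ↔ (g : Ω ≃ₐ[F] Ω) ∈ N'.fixingSubgroup := by
    intro g
    rw [IntermediateField.mem_fixingSubgroup_iff]
    constructor
    · intro h x hx
      have h1 := hr g ⟨x, hx⟩
      rw [h] at h1
      exact h1.symm
    · intro h
      ext x
      rw [hr g x]
      exact h x x.2
  have hfin : Finite (N' ≃ₐ[N] N') := Nat.finite_of_card_ne_zero (by rw [hcard]; exact hl.ne_zero)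
  have hlp : Fact l.Prime := ⟨hl⟩
  have hne : r ⟨τ, hτ⟩ ≠ 1 := fun h => hτ' ((hker _).1 h)
  have hmem : r ⟨s, hs⟩ ∈ Submonoid.powers (r ⟨τ, hτ⟩) := by
    have h1 := mem_zpowers_of_prime_card (G := N' ≃ₐ[N] N') hcard (g := r ⟨τ, hτ⟩) (g' := r ⟨s, hs⟩) hne
    exact mem_powers_iff_mem_zpowers.2 h1
  obtain ⟨k, hk⟩ := hmem
  refine ⟨k, ?_⟩
  have h1 : r ((⟨τ, hτ⟩ ^ k)⁻¹ * ⟨s, hs⟩) = 1 := by
    rw [map_mul, map_inv, map_pow]
    have hk' : r ⟨τ, hτ⟩ ^ k = r ⟨s, hs⟩ := hk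
    rw [hk', inv_mul_cancel]
  exact (hker _).1 h1

end coset

variable {F : Type} [Field F] [NumberField F] [IQ F] {A B : F} {Om : ℂ} {Ω : Type} [Field Ω] [DecidableEq Ω]
  [Algebra F Ω] [IsAlgClosure F Ω] {j : Ω →+* ℂ} {act : 𝓞 F →+* AddMonoid.End (Pt (WAB A B) Ω)} {mo : Ideal (𝓞 F)}
  {ψ : Ideal (𝓞 F) →*₀ 𝓞 F} {π : 𝓞 F} {l : ℕ}

/-- c is a class on N with values killed by l: classically locally trivial over N' everywhere, over N outside the set R of primes, and zero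
on the inertia groups outside l and R which fix the points killed by l. -/
structure ECls (A B : F) (l : ℕ) (N N' : IntermediateField F Ω) [NumberField N] (R : Set (HeightOneSpectrum (𝓞 N)))
    (c : (Ω ≃ₐ[F] Ω) → Pt (WAB A B) Ω) : Prop where
  coc : Coc (WAB A B) N c
  tor : ∀ s ∈ N.fixingSubgroup, l • c s = 0
  loc' : ∀ V : ValuationSubring Ω, V ≠ ⊤ → ∃ P : Pt (WAB A B) Ω, ∀ s ∈ N'.fixingSubgroup, Dec V s →
    c s = ac (WAB A B) s P - P
  loc : ∀ V : ValuationSubring Ω, V ≠ ⊤ → (∀ w ∈ R, ¬ Abv N V w) → ∃ P : Pt (WAB A B) Ω, ∀ s ∈ N.fixingSubgroup, Dec V s →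
    c s = ac (WAB A B) s P - P
  out : ∀ V : ValuationSubring Ω, (∀ w ∈ R, ¬ Abv N V w) → V.valuation (l : Ω) = 1 → ∀ s ∈ N.fixingSubgroup, Inert V s →
    (∀ T : Pt (WAB A B) Ω, l • T = 0 → ac (WAB A B) s T = T) → c s = 0

omit [IQ F] [NumberField F] [IsAlgClosure F Ω] in
/-- The value at a power. -/
theorem coc_pow {N : IntermediateField F Ω} {c : (Ω ≃ₐ[F] Ω) → Pt (WAB A B) Ω}
    (hm : ∀ s ∈ N.fixingSubgroup, ∀ t ∈ N.fixingSubgroup, c (s * t) = c s + ac (WAB A B) s (c t)) {τ : Ω ≃ₐ[F] Ω}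
    (hτ : τ ∈ N.fixingSubgroup) (h : c τ = 0) (k : ℕ) : c (τ ^ k) = 0 := by
  have h1 : c 1 = 0 := by
    have h2 := hm 1 (Subgroup.one_mem _) 1 (Subgroup.one_mem _)
    rw [mul_one, ac_one] at h2
    exact left_eq_add.mp h2
  induction k with
  | zero => rw [pow_zero, h1]
  | succ k ih => rw [pow_succ, hm _ (Subgroup.pow_mem _ hτ k) _ hτ, ih, h, map_zero, add_zero]

omit [IQ F] [NumberField F] [IsAlgClosure F Ω] in
theorem coc_conj {N : IntermediateField F Ω} {c : (Ω ≃ₐ[F] Ω) → Pt (WAB A B) Ω}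
    (hm : ∀ s ∈ N.fixingSubgroup, ∀ t ∈ N.fixingSubgroup, c (s * t) = c s + ac (WAB A B) s (c t)) {σ s : Ω ≃ₐ[F] Ω}
    (hσ : σ ∈ N.fixingSubgroup) (hs : s ∈ N.fixingSubgroup) (h : c (σ⁻¹ * s * σ) = 0) :
    c s = ac (WAB A B) s (- c σ) - (- c σ) := by
  have h2 := hm σ hσ (σ⁻¹ * s * σ) (mul_mem (mul_mem (inv_mem hσ) hs) hσ)
  have h3 := hm s hs σ hσ
  rw [h, map_zero, add_zero, show σ * (σ⁻¹ * s * σ) = s * σ by group, h3] at h2
  rw [map_neg, sub_neg_eq_add]
  have h4 : c s = c σ - ac (WAB A B) s (c σ) := eq_sub_of_add_eq h2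
  rw [h4]
  abel

omit [NumberField F] [IQ F] [DecidableEq Ω] [IsAlgClosure F Ω] in
theorem val_lt_conj {V V₀ : ValuationSubring Ω} {σ : Ω ≃ₐ[F] Ω} (hσ : ∀ x, σ x ∈ V ↔ x ∈ V₀) (y : Ω) :
    V.valuation (σ y) < 1 ↔ V₀.valuation y < 1 := by
  by_cases hy : y = 0
  · rw [hy, map_zero, map_zero, map_zero]
    exact ⟨fun _ => zero_lt_one, fun _ => zero_lt_one⟩
  · have hy' : σ y ≠ 0 := (map_ne_zero σ).2 hy
    have key : ∀ (U : ValuationSubring Ω) (z : Ω), z ≠ 0 → (U.valuation z < 1 ↔ z⁻¹ ∉ U) := by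
      intro U z hz
      rw [← U.valuation_le_one_iff, map_inv₀, inv_le_one₀ (zero_lt_iff.2 ((map_ne_zero _).2 hz)), not_le]
    rw [key V _ hy', key V₀ _ hy, ← hσ, map_inv₀]

omit [NumberField F] [IQ F] [DecidableEq Ω] [IsAlgClosure F Ω] in
theorem inert_conj {V V₀ : ValuationSubring Ω} {σ s : Ω ≃ₐ[F] Ω} (hσ : ∀ x, σ x ∈ V ↔ x ∈ V₀) (hs : Inert V s) :
    Inert V₀ (σ⁻¹ * s * σ) := by
  intro x hx
  have h1 := hs (σ x) ((hσ x).2 hx)
  have h2 : σ ((σ⁻¹ * s * σ) x - x) = s (σ x) - σ x := by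
    rw [map_sub]
    congr 1
    exact σ.apply_symm_apply _
  rw [← val_lt_conj hσ, h2]
  exact h1

/-- Points killed by π are killed by l. -/
theorem tor_l (D : Dat A B Om j act mo ψ π l) {T : Pt (WAB A B) Ω} (hT : T ∈ Tor act π) : l • T = 0 := by
  have h1 := lcb_l D.conj (P := T) (by rw [cj_cj]; exact hT)
  exact h1

/-- One prime element: a class which does not vanish at τ. -/
theorem e_one (D : Dat A B Om j act mo ψ π l) {N N' : IntermediateField F Ω} [NumberField N] [NumberField N']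
    (hN : Nb l N) (hN'f : FiniteDimensional F N') (hUN : UnrP l N) (hNN : N ≤ N')
    (hn : ∀ s ∈ N.fixingSubgroup, ∀ x ∈ N', s x ∈ N')
    (hd : Module.finrank F N' = Module.finrank F N * l) {w : HeightOneSpectrum (𝓞 N)}
    (hlw : (l : 𝓞 N) ∉ w.asIdeal) (hr : Ram N N' w.asIdeal)
    (hfx : ∀ V : ValuationSubring Ω, Abv N V w → ∀ s, DecN N V s → ∀ T : Pt (WAB A B) Ω, l • T = 0 → ac (WAB A B) s T = T)
    (hS : SelZero (WAB A B) l N) {V₀ : ValuationSubring Ω} (hV₀ : Abv N V₀ w) {τ : Ω ≃ₐ[F] Ω} (hτ : τ ∈ N.fixingSubgroup)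
    (hi : Inert V₀ τ) (hτ' : τ ∉ N'.fixingSubgroup) :
    ∃ c : (Ω ≃ₐ[F] Ω) → Pt (WAB A B) Ω, ECls A B l N N' {w} c ∧ (∀ s ∈ N.fixingSubgroup, c s ∈ Tor act (cj π)) ∧ c τ ≠ 0 := by
  have hNf : FiniteDimensional F N := hN.fin
  obtain ⟨L, hLT⟩ := exists_TB D.cma π D.pr N
  have hLf : FiniteDimensional F L := hLT.fin
  have hLn : NumberField L := NumberField.of_module_finite F L
  have hfx' : ∀ V : ValuationSubring Ω, Abv N V w → ∀ s, DecN N V s → ∀ T ∈ Tor act π, ac (WAB A B) s T = T :=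
    fun V hV s hs T hT => hfx V hV s hs T (tor_l D hT)
  obtain ⟨m, hm⟩ := exists_GN D hLT hUN hlw hfx'
  obtain ⟨e, he⟩ := exists_pairing π l D.dta D.pr D.dvd
  obtain ⟨c, y, G⟩ := exists_gl D he hN hLT hlw hfx' hm
  have hkill : ∀ V : ValuationSubring Ω, Abv N V w → ∀ s ∈ N'.fixingSubgroup, Inert V s → c s = 0 := fun V hV s hs hsi =>
    G.kill he hV hNN (fun a ha h0 => H13Y.ram_step D.hl hNN hn hd hr hV ha h0) hs hsi
  have hloc : ∀ V : ValuationSubring Ω, V ≠ ⊤ → (∀ w' ∈ ({w} : Set (HeightOneSpectrum (𝓞 N))), ¬ Abv N V w') →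
      ∃ P : Pt (WAB A B) Ω, ∀ s ∈ N.fixingSubgroup, Dec V s → c s = ac (WAB A B) s P - P := by
    intro V hV hw
    have hw' : ¬ Abv N V w := hw w rfl
    by_cases hlV : V.valuation (l : Ω) < 1
    · obtain ⟨P, hP⟩ := G.above he hlV
      exact ⟨P, fun s hs hsD => hP s ⟨hs, hsD⟩⟩
    · have hlV1 : V.valuation (l : Ω) = 1 := by
        apply le_antisymm _ (not_lt.1 hlV)
        have h1 := vo_le V (l : 𝓞 F)
        rwa [vo_nat] at h1
      obtain ⟨v, hv⟩ := xg3_below (F := F) N hV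
      exact loc_zero G.D G.cc hv (fun h => absurd h hlV) fun s hs hj =>
        G.inert he hlV1 hw' hj.1 ((G.tb.fix s).2 ⟨hs, hj.2.1⟩)
  have hE : ECls A B l N N' {w} c := by
    refine ⟨⟨G.cc.mul, G.cc.cont⟩, fun s hs => lcb_l D (G.cc.val s hs), fun V hV => ?_, hloc, ?_⟩
    · exact G.local he hNN (fun V hV a ha h0 => H13Y.ram_step D.hl hNN hn hd hr hV ha h0) hV
    · intro V hw hlV s hs hsi hT
      exact G.inert he hlV (hw w rfl) hsi ((G.tb.fix s).2 ⟨hs, fun T hT' => hT T (tor_l D hT')⟩)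
  refine ⟨c, hE, G.cc.val, fun h0 => G.not_cob he ?_⟩
  refine hS c hE.coc hE.tor fun V => ?_
  -- zero on the inertia group of V₀
  have h00 : ∀ s ∈ N.fixingSubgroup, Inert V₀ s → c s = 0 := by
    intro s hs hsi
    obtain ⟨k, hk⟩ := pow_coset D.hl hNN hn hd hτ hτ' hs
    have hki : Inert V₀ (τ ^ k) := by
      clear hk
      induction k with
      | zero =>
        intro x hx
        rw [pow_zero, AlgEquiv.one_apply, sub_self, map_zero]
        exact zero_lt_one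
      | succ k ih =>
        rw [pow_succ]
        exact lcb_mul ih hi
    have hu : Inert V₀ ((τ ^ k)⁻¹ * s) := lcb_mul (lcb_inv hki) hsi
    have h1 := G.cc.mul (τ ^ k) (Subgroup.pow_mem _ hτ k) ((τ ^ k)⁻¹ * s)
      (mul_mem (inv_mem (Subgroup.pow_mem _ hτ k)) hs)
    rw [mul_inv_cancel_left, coc_pow G.cc.mul hτ h0 k, hkill V₀ hV₀ _ hk hu, map_zero, add_zero] at h1
    exact h1
  by_cases hVw : Abv N V w
  · obtain ⟨σ, hσN, hσ⟩ := trans_V N hV₀ hVw
    refine ⟨- c σ, fun s hs hsi => coc_conj G.cc.mul hσN hs (h00 _ (mul_mem (mul_mem (inv_mem hσN) hs) hσN)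
      (inert_conj hσ hsi))⟩
  · by_cases hVt : V = ⊤
    · subst hVt
      refine ⟨0, fun s hs hsi => ?_⟩
      have h1 : s = 1 := by
        ext x
        by_contra hx
        have h2 := hsi x (ValuationSubring.mem_top x)
        have h3 : s x - x ≠ 0 := sub_ne_zero.2 hx
        have h4 : (⊤ : ValuationSubring Ω).valuation (s x - x)⁻¹ ≤ 1 :=
          ((⊤ : ValuationSubring Ω).valuation_le_one_iff _).2 (ValuationSubring.mem_top _)
        rw [map_inv₀, inv_le_one₀ (zero_lt_iff.2 ((map_ne_zero _).2 h3))] at h4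
        exact absurd h2 (not_lt.2 h4)
      rw [h1, map_zero, sub_zero]
      exact G.cc.one
    · obtain ⟨P, hP⟩ := hloc V hVt (by rintro w' rfl; exact hVw)
      exact ⟨P, fun s hs hsi => hP s hs (Inert.dec hsi)⟩

end H13T
end

-- from Lib.H13T.E2
section

/-! # H13T, module E: all values at all primes of a finite set -/

open NumberField IsDedekindDomain WeierstrassCurve

namespace H13T

open H55P (IQ embF eF LF Per IsHecke Pt ac acR Inert Dec Nm Coc PExt UnrP Ram RamF SelZero)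
open H35P (WAB Ker tt)
open H55K (Tor ak xc yc CMA Dta GV GMod cj cj_cj mul_cj cj_prime cj_dvd cj_nat Nm_cj Nm_mul Nm_nat tor_gen)
open H55K.S
open H13S (Abv)
open H13X

variable {F : Type} [Field F] [NumberField F] [IQ F] {A B : F} {Om : ℂ} {Ω : Type} [Field Ω] [DecidableEq Ω]
  [Algebra F Ω] [IsAlgClosure F Ω] {j : Ω →+* ℂ} {act : 𝓞 F →+* AddMonoid.End (Pt (WAB A B) Ω)} {mo : Ideal (𝓞 F)}
  {ψ : Ideal (𝓞 F) →*₀ 𝓞 F} {π : 𝓞 F} {l : ℕ}

section cls

variable {N N' : IntermediateField F Ω} [NumberField N] {R R' : Set (HeightOneSpectrum (𝓞 N))}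
  {c d : (Ω ≃ₐ[F] Ω) → Pt (WAB A B) Ω}

omit [IQ F] [NumberField F] [IsAlgClosure F Ω] in
/-- The zero class. -/
theorem ECls.zero : ECls A B l N N' R (fun _ => (0 : Pt (WAB A B) Ω)) where
  coc := ⟨fun s hs t ht => by rw [map_zero, add_zero], ⊥, inferInstance, fun _ _ _ => rfl⟩
  tor := fun _ _ => smul_zero _
  loc' := fun V _ => ⟨0, fun s _ _ => by rw [map_zero, sub_zero]⟩
  loc := fun V _ _ => ⟨0, fun s _ _ => by rw [map_zero, sub_zero]⟩
  out := fun _ _ _ _ _ _ _ => rfl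

omit [IQ F] [NumberField F] [IsAlgClosure F Ω] in
/-- Sums. -/
theorem ECls.add (h : ECls A B l N N' R c) (h' : ECls A B l N N' R' d) : ECls A B l N N' (R ∪ R') (fun s => c s + d s) where
  coc := by
    refine ⟨fun s hs t ht => ?_, ?_⟩
    · show c (s * t) + d (s * t) = _
      rw [h.coc.mul s hs t ht, h'.coc.mul s hs t ht, map_add]
      abel
    · obtain ⟨M, hM, h1⟩ := h.coc.cont
      obtain ⟨M', hM', h1'⟩ := h'.coc.cont
      refine ⟨M ⊔ M', inferInstance, fun s hs hsM => ?_⟩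
      show c s + d s = 0
      rw [h1 s hs (IntermediateField.fixingSubgroup_antitone le_sup_left hsM),
        h1' s hs (IntermediateField.fixingSubgroup_antitone le_sup_right hsM), add_zero]
  tor := fun s hs => by
    show l • (c s + d s) = 0
    rw [smul_add, h.tor s hs, h'.tor s hs, add_zero]
  loc' := fun V hV => by
    obtain ⟨P, hP⟩ := h.loc' V hV
    obtain ⟨P', hP'⟩ := h'.loc' V hV
    refine ⟨P + P', fun s hs hsD => ?_⟩
    show c s + d s = _
    rw [hP s hs hsD, hP' s hs hsD, map_add]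
    abel
  loc := fun V hV hR => by
    obtain ⟨P, hP⟩ := h.loc V hV fun w hw => hR w (Or.inl hw)
    obtain ⟨P', hP'⟩ := h'.loc V hV fun w hw => hR w (Or.inr hw)
    refine ⟨P + P', fun s hs hsD => ?_⟩
    show c s + d s = _
    rw [hP s hs hsD, hP' s hs hsD, map_add]
    abel
  out := fun V hR hl s hs hsi hT => by
    show c s + d s = 0
    rw [h.out V (fun w hw => hR w (Or.inl hw)) hl s hs hsi hT, h'.out V (fun w hw => hR w (Or.inr hw)) hl s hs hsi hT, add_zero]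

omit [IQ F] [NumberField F] [IsAlgClosure F Ω] in
/-- More primes. -/
theorem ECls.mono (h : ECls A B l N N' R c) (hR : R ⊆ R') : ECls A B l N N' R' c where
  coc := h.coc
  tor := h.tor
  loc' := h.loc'
  loc := fun V hV hw => h.loc V hV fun w hwR => hw w (hR hwR)
  out := fun V hw => h.out V fun w hwR => hw w (hR hwR)

omit [IsAlgClosure F Ω] in
/-- Multiples. -/
theorem ECls.mulc (hA : CMA F A B Om j act) (h : ECls A B l N N' R c) (a : 𝓞 F) : ECls A B l N N' R (fun s => act a (c s)) where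
  coc := by
    refine ⟨fun s hs t ht => ?_, ?_⟩
    · show act a (c (s * t)) = _
      rw [h.coc.mul s hs t ht, map_add, ac_act hA]
    · obtain ⟨M, hM, h1⟩ := h.coc.cont
      refine ⟨M, hM, fun s hs hsM => ?_⟩
      show act a (c s) = 0
      rw [h1 s hs hsM, map_zero]
  tor := fun s hs => by
    show l • act a (c s) = 0
    rw [← map_nsmul, h.tor s hs, map_zero]
  loc' := fun V hV => by
    obtain ⟨P, hP⟩ := h.loc' V hV
    refine ⟨act a P, fun s hs hsD => ?_⟩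
    show act a (c s) = _
    rw [hP s hs hsD, map_sub, ac_act hA]
  loc := fun V hV hR => by
    obtain ⟨P, hP⟩ := h.loc V hV hR
    refine ⟨act a P, fun s hs hsD => ?_⟩
    show act a (c s) = _
    rw [hP s hs hsD, map_sub, ac_act hA]
  out := fun V hR hl s hs hsi hT => by
    show act a (c s) = 0
    rw [h.out V hR hl s hs hsi hT, map_zero]

end cls

/-- One prime w: every point killed by l is the value at τ of a class. -/
theorem e_two (D : Dat A B Om j act mo ψ π l) {N N' : IntermediateField F Ω} [NumberField N] [NumberField N']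
    (hN : Nb l N) (hN'f : FiniteDimensional F N') (hUN : UnrP l N) (hNN : N ≤ N')
    (hn : ∀ s ∈ N.fixingSubgroup, ∀ x ∈ N', s x ∈ N')
    (hd : Module.finrank F N' = Module.finrank F N * l) {w : HeightOneSpectrum (𝓞 N)}
    (hlw : (l : 𝓞 N) ∉ w.asIdeal) (hr : Ram N N' w.asIdeal)
    (hfx : ∀ V : ValuationSubring Ω, Abv N V w → ∀ s, DecN N V s → ∀ T : Pt (WAB A B) Ω, l • T = 0 → ac (WAB A B) s T = T)
    (hS : SelZero (WAB A B) l N) {V₀ : ValuationSubring Ω} (hV₀ : Abv N V₀ w) {τ : Ω ≃ₐ[F] Ω} (hτ : τ ∈ N.fixingSubgroup)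
    (hi : Inert V₀ τ) (hτ' : τ ∉ N'.fixingSubgroup) {T : Pt (WAB A B) Ω} (hT : l • T = 0) :
    ∃ c : (Ω ≃ₐ[F] Ω) → Pt (WAB A B) Ω, ECls A B l N N' {w} c ∧ c τ = T := by
  obtain ⟨c, hc, hcv, hc0⟩ := e_one D hN hN'f hUN hNN hn hd hlw hr hfx hS hV₀ hτ hi hτ'
  have hlT : act (l : 𝓞 F) T = 0 := by rw [act_nat (act := act), hT]
  rcases dichotomy D.hl D.dta.unr D.pr D.dvd with ⟨h1, h2, h3⟩ | ⟨h1, -, -, hll⟩
  · have hTm : T ∈ Tor act (cj π) := by
      rw [tor_assoc h1, ← tor_assoc h3, mem_Tor]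
      exact hlT
    obtain ⟨a, ha⟩ := tor_gen D.cma (cj_prime D.pr) (hcv τ hτ) hTm hc0
    exact ⟨fun s => act a (c s), hc.mulc D.cma a, ha⟩
  · obtain ⟨c', hc', hcv', hc0'⟩ := e_one D.conj hN hN'f hUN hNN hn hd hlw hr hfx hS hV₀ hτ hi hτ'
    rw [cj_cj] at hcv'
    have hcop : IsCoprime π (cj π) := (D.pr.irreducible.coprime_iff_not_dvd).2 h1
    obtain ⟨u, v, huv⟩ := hcop
    have hX : act (u * π) T ∈ Tor act (cj π) := by
      rw [mem_Tor, ← act_mul]
      have h6 : cj π * (u * π) = u * (l : 𝓞 F) := by rw [← hll]; ring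
      rw [h6, act_mul, hlT, map_zero]
    have hY : act (v * cj π) T ∈ Tor act π := by
      rw [mem_Tor, ← act_mul]
      have h6 : π * (v * cj π) = v * (l : 𝓞 F) := by rw [← hll]; ring
      rw [h6, act_mul, hlT, map_zero]
    obtain ⟨a, ha⟩ := tor_gen D.cma (cj_prime D.pr) (hcv τ hτ) hX hc0
    obtain ⟨b, hb⟩ := tor_gen D.cma D.pr (hcv' τ hτ) hY hc0'
    refine ⟨fun s => act a (c s) + act b (c' s), ((hc.mulc D.cma a).add (hc'.mulc D.cma b)).mono (by simp), ?_⟩
    show act a (c τ) + act b (c' τ) = T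
    rw [ha, hb, ← act_add, huv, act_one]

omit [IQ F] [NumberField F] [DecidableEq Ω] [IsAlgClosure F Ω] in
/-- Two primes of N below the same valuation ring are equal. -/
theorem abv_unique {N : IntermediateField F Ω} [NumberField N] {V : ValuationSubring Ω} {w w' : HeightOneSpectrum (𝓞 N)}
    (h : Abv N V w) (h' : Abv N V w') : w = w' := by
  apply HeightOneSpectrum.ext
  ext a
  rw [← w.valuation_lt_one_iff_mem (K := N) a, ← w'.valuation_lt_one_iff_mem (K := N) a, ← H13S.Abv.lt h, H13S.Abv.lt h']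


omit [IQ F] in
/-- w is ramified in N' (a Galois step of prime degree): some inertia element over N above w does not fix N'. -/
theorem exists_tau (hl : l.Prime) {N N' : IntermediateField F Ω} [NumberField N] [NumberField N'] (hN'f : FiniteDimensional F N')
    (hNN : N ≤ N') (hn : ∀ s ∈ N.fixingSubgroup, ∀ x ∈ N', s x ∈ N')
    (hd : Module.finrank F N' = Module.finrank F N * l) {w : HeightOneSpectrum (𝓞 N)} (hr : Ram N N' w.asIdeal)
    {V : ValuationSubring Ω} (hV : Abv N V w) : ∃ τ ∈ N.fixingSubgroup, Inert V τ ∧ τ ∉ N'.fixingSubgroup := by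
  by_contra hcon
  push Not at hcon
  obtain ⟨a, ha⟩ := w.valuation_exists_uniformizer N
  have ha0 : a ≠ 0 := by
    rintro rfl
    rw [map_zero] at ha
    exact WithZero.exp_ne_zero ha.symm
  have ha0' : (a : Ω) ≠ 0 := by exact_mod_cast ha0
  obtain ⟨x, hx, hxa⟩ := H13Y.ram_step hl hNN hn hd hr hV a.2 ha0'
  have hx0 : x ≠ 0 := by
    rintro rfl
    rw [map_zero, zero_pow hl.ne_zero] at hxa
    exact (map_ne_zero _).2 ha0' hxa.symm
  obtain ⟨b, hb0, hb⟩ := H13S.value_fixed N V x hx0 (fun t ht hti =>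
    (IntermediateField.mem_fixingSubgroup_iff N' t).1 (hcon t ht hti) x hx)
  have h1 : V.valuation (((b ^ l : N) : Ω)) = V.valuation (a : Ω) := by
    push_cast
    rw [map_pow, ← hb, hxa]
  have h2 : w.valuation N (b ^ l) = w.valuation N a := by
    have key : ∀ x y : N, y ≠ 0 → V.valuation (x : Ω) ≤ V.valuation (y : Ω) → w.valuation N x ≤ w.valuation N y := by
      intro x y hy hxy
      have h3 : V.valuation (((x / y : N) : Ω)) ≤ 1 := by
        push_cast
        rw [map_div₀]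
        exact div_le_one_of_le₀ hxy zero_le
      have h4 := (hV (x / y)).1 ((V.valuation_le_one_iff _).1 h3)
      rw [map_div₀, div_le_one₀ (zero_lt_iff.2 ((map_ne_zero _).2 hy))] at h4
      exact h4
    exact le_antisymm (key _ _ ha0 h1.le) (key _ _ (pow_ne_zero l hb0) h1.ge)
  have hwb : w.valuation N b ≠ 0 := (map_ne_zero _).2 hb0
  obtain ⟨k, hk⟩ : ∃ k : ℤ, w.valuation N b = WithZero.exp k := ⟨WithZero.log (w.valuation N b), (WithZero.exp_log hwb).symm⟩
  have ha' : w.valuation N a = WithZero.exp (-1 : ℤ) := ha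
  rw [map_pow, hk, ha', ← WithZero.exp_nsmul, WithZero.exp_inj, nsmul_eq_mul] at h2
  have h5 : (l : ℤ) ∣ 1 := ⟨-k, by linarith⟩
  exact hl.one_lt.ne' (by exact_mod_cast Int.eq_one_of_dvd_one (by positivity) h5)

end H13T
end

-- from Lib.H13T.C5
section

/-! Chunk C5 (M). The relaxed places are the places above the primes in AnW; their decomposition groups over M act trivially on the points killed by p.
exists_dta. PROOF: copy the beginning of H13R.nonselR (Lib/H13R/G6.lean, up to hD).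
c5_p: H13R.g6_ram_p with PExt p N' N (c2_pext), K = N; c5_n: H55P.ram_norm.
c5_below. s in N'.fixingSubgroup, Inert V s, s not in N.fixingSubgroup; below_cases N' V (Lib/H55P/S13.lean): second case s = 1, no. V above w (Below; Abv: V ≠ ⊤, xg3_below in Lib/H13X/XG3.lean and H13S.Abv.lt). Ram: otherwise inert_mem N' N. Δ not in w: otherwise take v of H13R.c3_below
(the prime of M below w) and H13R.bad_torsR (L = N, K = N'): T = 0 (inert_dec: inertia is in the decomposition group). p | number of points: otherwise fix_local (Lib/H55P/S10.lean) gives T = 0.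
c5_above: exists_tau (E2), lk_decR (Lib/H13R/R6.lean) and the isomorphism Θ of r6_iso.
c5_dec. w by c5_below; T' = Θ⁻¹ T, c3_fix: all s in DecN N' V are trivial on the p-torsion of WAB A B; φ^(p^k) is in N'.fixingSubgroup (PExt.pow for PExt p M N') and in Dec V (decS is a subgroup); c4_pow; back by Θ. c5_red: red_fix (Lib/H55P/S8.lean), good_below, val_below with p^k in place of p
(V.valuation p = 1 so V.valuation (p^k) = 1). -/

open NumberField IsDedekindDomain WeierstrassCurve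

namespace H13T

open H55P H55K H55K.TQ H55K.S
open H35P (WAB)
open H13S (Abv)
open H13X (DecN)
open H13R (BadM)

open scoped Classical

variable {F : Type} [Field F] [NumberField F] [IQ F] {W₀ : WeierstrassCurve (𝓞 F)} {Om : ℂ}
  {m : Ideal (𝓞 F)} {ψ : Ideal (𝓞 F) →*₀ 𝓞 F} {p n : ℕ} {M N' N : IntermediateField F (AlgebraicClosure F)}
  {γ : AlgebraicClosure F ≃ₐ[F] AlgebraicClosure F}

theorem exists_dta (hH : BaseH F W₀ Om m ψ) (hp : PrimeH F W₀ p) :
    ∃ (A B : F) (j : AlgebraicClosure F →+* ℂ) (act : 𝓞 F →+* AddMonoid.End (Pt (WAB A B) (AlgebraicClosure F))),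
      A = -(algebraMap (𝓞 F) F W₀.c₄) / 48 ∧ B = -(algebraMap (𝓞 F) F W₀.c₆) / 864 ∧ Dta A B Om j act m ψ p := by
  have hB := H55K.TQ.base_of hH hp
  obtain ⟨j, hj⟩ := H55K.exists_j F (AlgebraicClosure F)
  obtain ⟨A, hA⟩ : ∃ A : F, A = -(algebraMap (𝓞 F) F W₀.c₄) / 48 := ⟨_, rfl⟩
  obtain ⟨B, hB'⟩ : ∃ B : F, B = -(algebraMap (𝓞 F) F W₀.c₆) / 864 := ⟨_, rfl⟩
  have hd := H55K.y3_ne W₀ hA hB' hB.data.ell
  have hper : Per F (embF F A) (embF F B) Om := by
    have e1 : embF F A = -(eF F W₀.c₄) / 48 := by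
      rw [hA, map_div₀, map_neg, map_ofNat]
      rfl
    have e2 : embF F B = -(eF F W₀.c₆) / 864 := by
      rw [hB', map_div₀, map_neg, map_ofNat]
      rfl
    rw [e1, e2]
    exact hB.data.per
  obtain ⟨act, hact⟩ := H55K.exists_CMA F A B Om j hd hper hj
  have hG : ∀ V : ValuationSubring (AlgebraicClosure F),
      ∃ (Kg : AddSubgroup (Pt (WAB A B) (AlgebraicClosure F))) (u : AlgebraicClosure F),
        GMod (WAB A B) V Kg u := fun V => H55K.exists_gmod hd (H55K.y3_j W₀ hA hB' hB.jint) V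
  exact ⟨A, B, j, act, hA, hB', H55K.mk_Dta hB hA hB' hact hG⟩

theorem c5_p (hp : PrimeH F W₀ p) [NumberField N'] [NumberField N] (c : CycI p n M N' N γ) (hU : UnrP p N)
    {w : HeightOneSpectrum (𝓞 N')} (hw : w ∈ AnW p W₀ N' N) : (p : 𝓞 N') ∉ w.asIdeal := by
  exact H13R.g6_ram_p hp.prime (c2_pext hp.prime.pos c).2.2 c.le' le_rfl hU hw.2.1

theorem c5_n (hp : PrimeH F W₀ p) [NumberField N'] [NumberField N] (c : CycI p n M N' N γ) (hU : UnrP p N)
    {w : HeightOneSpectrum (𝓞 N')} (hw : w ∈ AnW p W₀ N' N) : p ∣ Ideal.absNorm w.asIdeal - 1 := by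
  exact H55P.ram_norm p hp.prime N' N (c2_pext hp.prime.pos c).2.2 N c.le' le_rfl hU w hw.2.1




theorem c5_red (hH : BaseH F W₀ Om m ψ) (hp : PrimeH F W₀ p) [NumberField N'] {w : HeightOneSpectrum (𝓞 N')}
    (hΔ : algebraMap (𝓞 F) (𝓞 N') W₀.Δ ∉ w.asIdeal) (hpw : (p : 𝓞 N') ∉ w.asIdeal) {V : ValuationSubring (AlgebraicClosure F)}
    (hV : Below V N' w.asIdeal) (s : AlgebraicClosure F ≃ₐ[F] AlgebraicClosure F) (hs : Inert V s) (k : ℕ)
    (P : Pt (W₀⁄F) (AlgebraicClosure F)) (h : p ^ k • (ac (W₀⁄F) s P - P) = 0) : ac (W₀⁄F) s P = P := by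
  have h1 : V.valuation (p : AlgebraicClosure F) = 1 := H55P.val_below N' V w hV p hpw
  refine H55P.red_fix (W₀⁄F) V (H55P.good_below W₀ N' V w hV hΔ) (p ^ k) ?_ s hs P h
  rw [Nat.cast_pow, map_pow, h1, one_pow]

end H13T
end

-- from Lib.H13T.K3
section

/-! Chunk K3 (S/M). KP over K from KP over F K. As SSG.card_KG (Lib/SSG/Z/L7.lean): bridge_kp, closure_kp (k = ℚ), then kg_index (L6): CASE 1: equal groups; CASE 2: kp_index for S = (galS (W⁄ℚ) Ω).res G₁, H = G₂.subgroupOf G₁ (as there), and a morphism back and forth between (S.res H) and (galS (W⁄ℚ) Ω).res G₂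
(res_res in L1.lean is a statement on Nat.card PP: copy its proof with kp_hom), base_kp. -/

open NumberField IsDedekindDomain WeierstrassCurve H16C

namespace H13T

open H55P (IQ UnrP ac)
open H55K H55K.TQ
open SSG

open Classical in
theorem kp_res_res {G A : Type} [Group G] [AddCommGroup A] (S : LS G A) {G₁ G₂ : Subgroup G} (hle : G₂ ≤ G₁) {p : ℕ} (hp : p.Prime)
    (h : KP p (S.res G₂).Sha) : KP p ((S.res G₁).res (G₂.subgroupOf G₁)).Sha := by
  have h1 : Hom ((S.res G₁).res (G₂.subgroupOf G₁)) (S.res G₂) (Subgroup.subgroupOfEquivOfLe hle).symm.toMonoidHom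
      (AddMonoidHom.id A) := by
    refine ⟨fun g a => rfl, ?_, ?_⟩
    · rintro _ ⟨_, ⟨u, hu, rfl⟩, rfl⟩
      exact ⟨_, ⟨u, hu, rfl⟩, fun g hg => hg⟩
    · rintro _ ⟨d, hd, rfl⟩
      exact ⟨_, ⟨_, ⟨d, hd, rfl⟩, rfl⟩, fun g hg => hg⟩
  have h2 : Hom (S.res G₂) ((S.res G₁).res (G₂.subgroupOf G₁)) (Subgroup.subgroupOfEquivOfLe hle).toMonoidHom
      (AddMonoidHom.id A) := by
    refine ⟨fun g a => rfl, ?_, ?_⟩
    · rintro _ ⟨u, hu, rfl⟩
      exact ⟨_, ⟨_, ⟨u, hu, rfl⟩, rfl⟩, fun g hg => hg⟩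
    · rintro _ ⟨_, ⟨d, hd, rfl⟩, rfl⟩
      exact ⟨_, ⟨d, hd, rfl⟩, fun g hg => hg⟩
  exact kp_hom hp hp.not_dvd_one h1 h2 (fun g => rfl) (fun a => (one_nsmul a).symm) h

open Classical in
theorem kp_KG {F : Type} [Field F] [NumberField F] [IQ F] {W : WeierstrassCurve ℤ} {Om : ℂ} {m : Ideal (𝓞 F)} {ψ : Ideal (𝓞 F) →*₀ 𝓞 F}
    (hH : BaseH F (W⁄(𝓞 F)) Om m ψ) {p : ℕ} (hp : p.Prime) (hp2 : p ≠ 2) (K : Type) [Field K] [NumberField K]
    (ι : K →ₐ[ℚ] AlgebraicClosure F) [NumberField (KG F K ι)]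
    (h : KP p ((galS ((W⁄(𝓞 F))⁄F) (AlgebraicClosure F)).res (KG F K ι).fixingSubgroup).Sha) :
    KP p (H16C.Sha (W⁄K).toAffine (AlgebraicClosure K)) := by
  have hQF := tower_QFF F
  have hQA := alg_QFF F
  have hd0 : W.Δ ≠ 0 := by
    intro h
    apply hH.data.ell
    have e := WeierstrassCurve.map_Δ W (algebraMap ℤ (𝓞 F))
    rw [h, map_zero] at e
    exact e
  have hellK : (W⁄K).IsElliptic := by
    rw [WeierstrassCurve.isElliptic_iff]
    have e := WeierstrassCurve.map_Δ W (algebraMap ℤ K)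
    refine IsUnit.mk0 _ ?_
    intro h
    apply hd0
    have h1 : (algebraMap ℤ K) W.Δ = 0 := e.symm.trans h
    rw [eq_intCast] at h1
    exact_mod_cast h1
  have e1 : ((W⁄ℚ)⁄F) = ((W⁄(𝓞 F))⁄F) := by
    rw [fb9b_map, fb9b_map]
  have e2 : ((W⁄ℚ)⁄K) = (W⁄K) := fb9b_map W
  have c2 := closure_kp (k := ℚ) (W⁄ℚ) K ι hp
  rw [e2] at c2
  have c3 := base_kp (k := ℚ) (W⁄ℚ) (KG F K ι) hp
  rw [e1] at c3
  have c4 := c3 h
  refine bridge_kp (W⁄K) hp hp2 (c2 ?_)
  obtain ⟨hle, ⟨hG, hf⟩ | ⟨hi, hf, hs⟩⟩ := kg_index K ι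
  · rw [← hG]
    exact c4
  · have hKQ : FiniteDimensional ℚ ((KG F K ι).restrictScalars ℚ) := by
      have : FiniteDimensional F (KG F K ι) := FiniteDimensional.right ℚ F (KG F K ι)
      have : FiniteDimensional ℚ (KG F K ι) := Module.Finite.trans F (KG F K ι)
      exact this
    exact kp_index (S := (galS (W⁄ℚ) (AlgebraicClosure F)).res ι.fieldRange.fixingSubgroup)
      (conj_res (galS_conj (W⁄ℚ) (AlgebraicClosure F)) _)
      (((KG F K ι).restrictScalars ℚ).fixingSubgroup.subgroupOf ι.fieldRange.fixingSubgroup)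
      ⟨_, ⟨_, ⟨(KG F K ι).restrictScalars ℚ, hKQ, rfl⟩, rfl⟩, le_rfl⟩ hi hp hp2
      (kp_res_res (galS (W⁄ℚ) (AlgebraicClosure F)) hle hp c4)

end H13T
end
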