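import Mathlib
import Pool.Agent.Lib.H1M.PP2.M048
import Pool.Agent.Lib.H1M.PP2.M120
import Pool.Agent.Lib.H1M.PP2.M123
import Pool.Agent.Lib.H1M.PP2.M127
import Pool.Agent.Lib.H1M.PP2.M159

/-! Merged copies (to shorten the build) of Lib.SSN.A1, Lib.SSN.B5, Lib.SSN.A3, Lib.SSN.A5. -/

-- from Lib.SSN.A1
section

/-! # SSN, chunk A1: the relation between classes and units -/

open NumberField IsDedekindDomain WeierstrassCurve

namespace SSN

open H55P (IQ Pt ac Dec Inert decS Nm Ram)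
open H35P (WAB Ker tt)
open H55K (Tor CMA Dta GV ak cj xc yc Lft TFld Abw exists_abw)
open H55K.S
open H55R (Pl ord smulP)
open H19B (DN mem_DN Cc CS mem_CS)
open H19C (SUs mem_SUs SUs_act CL mem_CL KR dl)
open H13S (Abv)
open H13X (Dat IsTB DecN algNL JV)
open H13Y (guN)

variable {F : Type} [Field F] [NumberField F] [IQ F] {A B : F} {Om : ℂ} {Ω : Type} [Field Ω] [DecidableEq Ω]
  [Algebra F Ω] [IsAlgClosure F Ω] {j : Ω →+* ℂ} {act : 𝓞 F →+* AddMonoid.End (Pt (WAB A B) Ω)} {mo : Ideal (𝓞 F)}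
  {ψ : Ideal (𝓞 F) →*₀ 𝓞 F}

variable {π : 𝓞 F} {l : ℕ} {e : Pt (WAB A B) Ω → Pt (WAB A B) Ω → Ω} {N N' L : IntermediateField F Ω}
  {c c' : (Ω ≃ₐ[F] Ω) → Pt (WAB A B) Ω} {V V₀ : ValuationSubring Ω} {T₀ : Pt (WAB A B) Ω}

/-- Chunk A1 (S/M), five lemmas. -/
theorem kri_sub (D : Dat A B Om j act mo ψ π l) (he : Pairing A B act π l e) (hT₀ : T₀ ∈ Tor act π)
    (hc : ∀ s ∈ L.fixingSubgroup, c s ∈ Tor act (cj π)) (hc' : ∀ s ∈ L.fixingSubgroup, c' s ∈ Tor act (cj π))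
    {f f' : HM F L} (h : KRI act L e l T₀ c f) (h' : KRI act L e l T₀ c' f') : KRI act L e l T₀ (c - c') (f - f') := by
  intro a
  exact H19C.kr_sub D he (H55K.tor_act a hT₀) hc hc' (h a) (h' a)

/-- PROOF of kri_sub: for each a H19C.kr_sub for T = act a T₀ (in Tor act π: H55K.tor_act a hT₀) and M = id; ev (f - f') a = ev f a * (ev f' a)⁻¹ (sub_ev).
PROOF of kri_zero: H19C.kr_zero; ev 0 a = 1. -/
theorem kri_zero (D : Dat A B Om j act mo ψ π l) (he : Pairing A B act π l e) (hT₀ : T₀ ∈ Tor act π) :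
    KRI act L e l T₀ (0 : (Ω ≃ₐ[F] Ω) → Pt (WAB A B) Ω) (0 : HM F L) := by
  intro a
  exact H19C.kr_zero D he (H55K.tor_act a hT₀)

/-- PROOF. For b: h (a * b) gives y, z with Kum L e c (act (a * b) T₀) y and y ^ l = ev f (a * b) * z ^ l = ev (a • f) b * z ^ l (smul_ev). The same y, z:
e (act (cj a) (c s)) (act b T₀) = e (c s) (act (cj (cj a)) (act b T₀)) = e (c s) (act (a * b) T₀) by hadj, cj_cj, act_mul. -/
theorem kri_smul (he : Pairing A B act π l e)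
    (hadj : ∀ (a : 𝓞 F), ∀ X ∈ Tor act (cj π), ∀ T ∈ Tor act π, e (act a X) T = e X (act (cj a) T)) (hT₀ : T₀ ∈ Tor act π)
    (hc : ∀ s ∈ L.fixingSubgroup, c s ∈ Tor act (cj π)) {f : HM F L} (h : KRI act L e l T₀ c f) (a : 𝓞 F) :
    KRI act L e l T₀ (fun s => act (cj a) (c s)) (a • f) := by
  intro b
  obtain ⟨y, z, ⟨hy0, hy⟩, hyz⟩ := h (a * b)
  refine ⟨y, z, ⟨hy0, fun s hs => ?_⟩, hyz⟩
  rw [hadj (cj a) (c s) (hc s hs) (act b T₀) (H55K.tor_act b hT₀), H55K.cj_cj, ← H55K.S.act_mul]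
  exact hy s hs

/-- PROOF. H19C.kr_lpow for T = act a T₀, M = id; ev ((l : 𝓞 F) • f) a = (ev f a) ^ l (nat_ev). -/
theorem kri_lpow (D : Dat A B Om j act mo ψ π l) (he : Pairing A B act π l e) (hT₀ : T₀ ∈ Tor act π) (f : HM F L) :
    KRI act L e l T₀ (0 : (Ω ≃ₐ[F] Ω) → Pt (WAB A B) Ω) ((l : 𝓞 F) • f) := by
  intro a
  rw [nat_ev]
  exact H19C.kr_lpow D he (H55K.tor_act a hT₀) (ev f a)

/-- PROOF. H19C.kr_cob for T = act a T₀, M = id. -/
theorem kri_cob (D : Dat A B Om j act mo ψ π l) (he : Pairing A B act π l e) (hL : IsTB act π N L) (hT₀ : T₀ ∈ Tor act π)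
    {f : HM F L} (h : KRI act L e l T₀ c f) {X : Pt (WAB A B) Ω} (hX : X ∈ Tor act (cj π))
    (hc : ∀ s ∈ N.fixingSubgroup, c s = ac (WAB A B) s X - X) (a : 𝓞 F) : ∃ z : (L)ˣ, ev f a = z ^ l := by
  exact H19C.kr_cob D he hL (H55K.tor_act a hT₀) (h a) hX hc

end SSN
end

-- from Lib.SSN.B5
section

/-! # SSN, chunk B5: finite generation and powers -/

open NumberField IsDedekindDomain WeierstrassCurve

namespace SSN

open H55P (IQ Pt ac Dec Inert decS Nm Ram)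
open H35P (WAB Ker tt)
open H55K (Tor CMA Dta GV ak cj xc yc Lft TFld Abw exists_abw)
open H55K.S
open H55R (Pl ord smulP)
open H19B (DN mem_DN Cc CS mem_CS)
open H19C (SUs mem_SUs SUs_act CL mem_CL KR dl)
open H13S (Abv)
open H13X (Dat IsTB DecN algNL JV)
open H13Y (guN)

variable {F : Type} [Field F] [NumberField F] [IQ F] {A B : F} {Om : ℂ} {Ω : Type} [Field Ω] [DecidableEq Ω]
  [Algebra F Ω] [IsAlgClosure F Ω] {j : Ω →+* ℂ} {act : 𝓞 F →+* AddMonoid.End (Pt (WAB A B) Ω)} {mo : Ideal (𝓞 F)}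
  {ψ : Ideal (𝓞 F) →*₀ 𝓞 F}

variable {π : 𝓞 F} {l : ℕ} {e : Pt (WAB A B) Ω → Pt (WAB A B) Ω → Ω} {N N' L : IntermediateField F Ω}
  {c c' : (Ω ≃ₐ[F] Ω) → Pt (WAB A B) Ω} {V V₀ : ValuationSubring Ω} {T₀ : Pt (WAB A B) Ω}

/-- The map with the values z 0, z 1 at the basis. -/
noncomputable def b5_mk {L : Type} [Field L] (z w : Lˣ) : HM F L :=
  mkHM (fun a => z ^ ((H55P.bF F).repr a 0) * w ^ ((H55P.bF F).repr a 1)) fun a b => by
    rw [map_add, Finsupp.add_apply, Finsupp.add_apply, zpow_add, zpow_add]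
    exact mul_mul_mul_comm _ _ _ _

theorem b5_mk_ev {L : Type} [Field L] (z w : Lˣ) (a : 𝓞 F) :
    ev (b5_mk (F := F) z w) a = z ^ ((H55P.bF F).repr a 0) * w ^ ((H55P.bF F).repr a 1) := rfl

theorem b5_ev {L : Type} [Field L] (f : HM F L) (a : 𝓞 F) :
    ev f a = ev f (H55P.bF F 0) ^ ((H55P.bF F).repr a 0) * ev f (H55P.bF F 1) ^ ((H55P.bF F).repr a 1) := by
  conv_lhs => rw [H55P.bF_repr a, ev_add, ev_intmul, ev_intmul]

theorem b5_mem {N L : Type} [Field N] [NumberField N] [Field L] [NumberField L] [Algebra N L] {S : Finset (Pl N)} {z w : Lˣ}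
    (hz : z ∈ SUs L S) (hw : w ∈ SUs L S) : b5_mk (F := F) z w ∈ HS F L S := by
  rw [mem_HS]
  intro a
  rw [b5_mk_ev]
  exact (SUs L S).mul_mem ((SUs L S).zpow_mem hz _) ((SUs L S).zpow_mem hw _)

/-- Chunk B5 (M), two theorems. PROOF of hs_fg. H19C.SUs_fg: h ≠ 0 and a finitely generated B₀ ≤ SUs L S with x ^ h in B₀. Basis b = H55P.bF F of 𝓞 F (Fin 2): the map Θ : Additive B₀ × Additive B₀ → HS F L S, (x, y) ↦ (a ↦ x ^ (coordinate 0 of a) y ^ (coordinate 1 of a))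
is additive; B = its range, finitely generated (AddSubgroup.FG of a range, B₀ finitely generated; or AddMonoid.FG / Module.Finite ℤ). For f in HS: h • f = Θ (ev f (b 0) ^ h, ev f (b 1) ^ h) because both are additive in a and agree on b 0, b 1. -/
theorem hs_fg {N L : Type} [Field N] [NumberField N] [Field L] [NumberField L] [Algebra N L] (S : Finset (Pl N)) :
    ∃ (h : ℕ) (B : AddSubgroup (HS F L S)), h ≠ 0 ∧ B.FG ∧ ∀ x, h • x ∈ B := by
  obtain ⟨h, B₀, hh, hfg, hle, hpow⟩ := H19C.SUs_fg (L := L) S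
  have i1 : Group.FG B₀ := (Group.fg_iff_subgroup_fg B₀).2 hfg
  let Θ : (Additive B₀ × Additive B₀) →+ HS F L S :=
    { toFun := fun p => ⟨b5_mk ((p.1.toMul : B₀) : Lˣ) ((p.2.toMul : B₀) : Lˣ), b5_mem (hle p.1.toMul.2) (hle p.2.toMul.2)⟩
      map_zero' := by
        apply Subtype.ext
        apply HM.ext
        intro a
        show ev (b5_mk (F := F) (1 : Lˣ) (1 : Lˣ)) a = 1
        rw [b5_mk_ev, one_zpow, one_zpow, one_mul]
      map_add' := fun p p' => by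
        apply Subtype.ext
        apply HM.ext
        intro a
        show ev (b5_mk (F := F) (((p.1.toMul : B₀) : Lˣ) * ((p'.1.toMul : B₀) : Lˣ))
          (((p.2.toMul : B₀) : Lˣ) * ((p'.2.toMul : B₀) : Lˣ))) a =
          ev (b5_mk (F := F) ((p.1.toMul : B₀) : Lˣ) ((p.2.toMul : B₀) : Lˣ)) a *
            ev (b5_mk (F := F) ((p'.1.toMul : B₀) : Lˣ) ((p'.2.toMul : B₀) : Lˣ)) a
        rw [b5_mk_ev, b5_mk_ev, b5_mk_ev, mul_zpow, mul_zpow]
        exact mul_mul_mul_comm _ _ _ _ }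
  refine ⟨h, Θ.range, hh, ?_, fun f => ?_⟩
  · rw [← AddGroup.fg_iff_addSubgroup_fg]
    have i2 : AddGroup.FG (Additive B₀) := inferInstance
    have i3 : AddGroup.FG (Additive B₀ × Additive B₀) := inferInstance
    exact AddGroup.fg_of_surjective (f := Θ.rangeRestrict) Θ.rangeRestrict_surjective
  · have h0 := hpow _ (f.2 (H55P.bF F 0))
    have h1 := hpow _ (f.2 (H55P.bF F 1))
    refine ⟨(Additive.ofMul ⟨_, h0⟩, Additive.ofMul ⟨_, h1⟩), ?_⟩
    apply Subtype.ext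
    apply HM.ext
    intro a
    show ev (b5_mk (F := F) (ev (f : HM F L) (H55P.bF F 0) ^ h) (ev (f : HM F L) (H55P.bF F 1) ^ h)) a = ev (h • (f : HM F L)) a
    rw [b5_mk_ev, nsmul_ev, b5_ev (f : HM F L) a, mul_pow, ← zpow_natCast, ← zpow_natCast, ← zpow_natCast, ← zpow_natCast,
      ← zpow_mul, ← zpow_mul, ← zpow_mul, ← zpow_mul, mul_comm (h : ℤ), mul_comm (h : ℤ)]

/-- PROOF. z 0, z 1 in Lˣ with ev f (b i) = z i ^ l; they are in SUs L S (H19C.SUs_pow). g = (a ↦ z 0 ^ (coordinate 0 of a) * z 1 ^ (coordinate 1 of a)) (mkHM); f and (l : 𝓞 F) • g have the same values at b 0 and b 1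
(nat_ev), hence everywhere. -/
theorem hs_pow {N L : Type} [Field N] [NumberField N] [Field L] [NumberField L] [Algebra N L] {S : Finset (Pl N)} (hl : l ≠ 0)
    {f : HM F L} (hf : f ∈ HS F L S) (h : ∀ a, ∃ z : Lˣ, ev f a = z ^ l) : ∃ g ∈ HS F L S, f = (l : 𝓞 F) • g := by
  obtain ⟨z, hz⟩ := h (H55P.bF F 0)
  obtain ⟨w, hw⟩ := h (H55P.bF F 1)
  refine ⟨b5_mk z w, b5_mem (H19C.SUs_pow hl (hf _) hz) (H19C.SUs_pow hl (hf _) hw), HM.ext fun a => ?_⟩
  rw [nat_ev, b5_mk_ev, b5_ev f a, hz, hw, mul_pow, ← zpow_natCast, ← zpow_natCast, ← zpow_natCast, ← zpow_natCast,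
    ← zpow_mul, ← zpow_mul, ← zpow_mul, ← zpow_mul, mul_comm (l : ℤ), mul_comm (l : ℤ)]

end SSN
end

-- from Lib.SSN.A3
section

/-! # SSN, chunk A3: the local conditions outside l -/

open NumberField IsDedekindDomain WeierstrassCurve

namespace SSN

open H55P (IQ Pt ac Dec Inert decS Nm Ram)
open H35P (WAB Ker tt)
open H55K (Tor CMA Dta GV ak cj xc yc Lft TFld Abw exists_abw)
open H55K.S
open H55R (Pl ord smulP)
open H19B (DN mem_DN Cc CS mem_CS)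
open H19C (SUs mem_SUs SUs_act CL mem_CL KR dl)
open H13S (Abv)
open H13X (Dat IsTB DecN algNL JV)
open H13Y (guN)

variable {F : Type} [Field F] [NumberField F] [IQ F] {A B : F} {Om : ℂ} {Ω : Type} [Field Ω] [DecidableEq Ω]
  [Algebra F Ω] [IsAlgClosure F Ω] {j : Ω →+* ℂ} {act : 𝓞 F →+* AddMonoid.End (Pt (WAB A B) Ω)} {mo : Ideal (𝓞 F)}
  {ψ : Ideal (𝓞 F) →*₀ 𝓞 F}

variable {π : 𝓞 F} {l : ℕ} {e : Pt (WAB A B) Ω → Pt (WAB A B) Ω → Ω} {N N' L : IntermediateField F Ω}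
  {c c' : (Ω ≃ₐ[F] Ω) → Pt (WAB A B) Ω} {V V₀ : ValuationSubring Ω} {T₀ : Pt (WAB A B) Ω}

/-- Chunk A3 (S/M), five lemmas, ports of H19C/GK.lean (kr_inert, kill_w) and H19C/GT1.lean (loc_out, loc_tame); the only change: the generator T₀ over the
integers modulo l is replaced by all points act a T₀ (kri_nondeg in the place of H19C.kr_gen; the Kummer generator for act a T₀ from h a, for every a). -/
theorem kri_nondeg (he : Pairing A B act π l e) (hgen : ∀ T ∈ Tor act π, ∃ a : 𝓞 F, act a T₀ = T) {X : Pt (WAB A B) Ω}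
    (hX : X ∈ Tor act (cj π)) (h : ∀ a : 𝓞 F, e X (act a T₀) = 1) : X = 0 := by
  refine he.nondeg X hX fun T hT => ?_
  obtain ⟨a, ha⟩ := hgen T hT
  rw [← ha]
  exact h a

/-- Outside l: if the values are units at V then the class is unramified. -/
theorem kri_inert (D : Dat A B Om j act mo ψ π l) (he : Pairing A B act π l e) (hT₀ : T₀ ∈ Tor act π)
    (hgen : ∀ T ∈ Tor act π, ∃ a : 𝓞 F, act a T₀ = T) {f : HM F L} (h : KRI act L e l T₀ c f) (hl : V.valuation (l : Ω) = 1)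
    (hx : ∀ a, V.valuation (((ev f a : (L)ˣ) : L) : Ω) = 1) {s : Ω ≃ₐ[F] Ω} (hi : Inert V s) (hs : s ∈ L.fixingSubgroup)
    (hc : c s ∈ Tor act (cj π)) : c s = 0 := by
  have hchar : CharZero Ω := charZero_of_injective_algebraMap (algebraMap F Ω).injective
  refine kri_nondeg he hgen hc fun a => ?_
  have hTa : act a T₀ ∈ Tor act π := H55K.tor_act a hT₀
  obtain ⟨y, z, ⟨hy0, hy⟩, hyz⟩ := h a
  rw [MonoidHom.id_apply] at hyz
  have hl0 : l ≠ 0 := D.hl.ne_zero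
  have hvy : V.valuation y = V.valuation ((z : L) : Ω) := by
    have e1 : V.valuation y ^ l = V.valuation ((z : L) : Ω) ^ l := by
      rw [← map_pow, hyz, Units.val_mul]
      have e2 : (((ev f a : (L)ˣ) : L) * ((z ^ l : (L)ˣ) : L) : L) = ((ev f a : (L)ˣ) : L) * (z : L) ^ l := by
        rw [Units.val_pow_eq_pow_val]
      rw [e2]
      have e3 : ((((ev f a : (L)ˣ) : L) * (z : L) ^ l : L) : Ω) = (((ev f a : (L)ˣ) : L) : Ω) * ((z : L) : Ω) ^ l := rfl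
      rw [e3, map_mul, hx a, one_mul, map_pow]
    exact (pow_left_inj₀ zero_le zero_le hl0).1 e1
  have hpow : s (y ^ l) = y ^ l := by
    rw [map_pow, hy s hs, mul_pow, he.root _ hc _ hTa, one_mul]
  have hsy : s y = y := H13Z.unr_val V D.hl hl hy0 hvy hi
    ((IntermediateField.mem_fixingSubgroup_iff L s).1 hs _ (z : L).2) hpow
  have h3 := hy s hs
  rw [hsy] at h3
  exact mul_right_cancel₀ hy0 (by rw [one_mul]; exact h3.symm)

/-- Above w over N': every class is unramified if w is tamely ramified in N'. -/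
theorem kri_kill [NumberField N] (D : Dat A B Om j act mo ψ π l) (he : Pairing A B act π l e) (hL : IsTB act π N L)
    (C : H13X.Cc act π N c) (hT₀ : T₀ ∈ Tor act π) (hgen : ∀ T ∈ Tor act π, ∃ a : 𝓞 F, act a T₀ = T)
    (hl : V.valuation (l : Ω) = 1) (hfx : ∀ t, DecN N V t → ∀ T ∈ Tor act π, ac (WAB A B) t T = T) (hNN : N ≤ N')
    (hx : ∀ a ∈ N, a ≠ 0 → ∃ x ∈ N', V.valuation x ^ l = V.valuation a) {s : Ω ≃ₐ[F] Ω}
    (hs : s ∈ N'.fixingSubgroup) (hi : Inert V s) : c s = 0 := by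
  have hchar : CharZero Ω := charZero_of_injective_algebraMap (algebraMap F Ω).injective
  have hfix : ∀ t : Ω ≃ₐ[F] Ω, t ∈ N.fixingSubgroup → Inert V t → t ∈ L.fixingSubgroup :=
    fun t ht hti => (hL.fix t).2 ⟨ht, hfx t ⟨ht, H55P.inert_dec V t hti⟩⟩
  have hsN : s ∈ N.fixingSubgroup := IntermediateField.fixingSubgroup_antitone hNN hs
  have hsL := hfix s hsN hi
  refine kri_nondeg he hgen (C.val s hsN) fun b => ?_
  have hTb : act b T₀ ∈ Tor act π := H55K.tor_act b hT₀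
  obtain ⟨y, hy0, hy⟩ := H13X.exists_kumB D C he hL hTb
  have hpow : ∀ t ∈ L.fixingSubgroup, t (y ^ l) = y ^ l := fun t ht => by
    rw [map_pow, hy t ht, mul_pow, he.root _ (C.val t (hL.mono ht)) _ hTb, one_mul]
  obtain ⟨a, ha0, ha⟩ := H13S.value_fixed N V (y ^ l) (pow_ne_zero l hy0) (fun t ht hti => hpow t (hfix t ht hti))
  obtain ⟨x, hxN, hxa⟩ := hx (a : Ω) a.2 (fun h => ha0 (Subtype.ext h))
  rw [← hxa, map_pow] at ha
  have hxy : V.valuation y = V.valuation x := (pow_left_inj₀ zero_le zero_le D.hl.ne_zero).1 ha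
  have hsy : s y = y := H13Z.unr_val V D.hl hl hy0 hxy hi ((IntermediateField.mem_fixingSubgroup_iff N' s).1 hs x hxN)
    (hpow s hsL)
  have h3 := hy s hsL
  rw [hsy] at h3
  exact mul_right_cancel₀ hy0 (by rw [one_mul]; exact h3.symm)

/-- The local conditions outside l and w. -/
theorem kri_out [NumberField N] (D : Dat A B Om j act mo ψ π l) (he : Pairing A B act π l e) (hL : IsTB act π N L)
    (C : H13X.Cc act π N c) (hNN : N ≤ N') (hT₀ : T₀ ∈ Tor act π) (hgen : ∀ T ∈ Tor act π, ∃ a : 𝓞 F, act a T₀ = T)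
    {f : HM F L} (h : KRI act L e l T₀ c f) (hVt : V ≠ ⊤) (hl : V.valuation (l : Ω) = 1)
    (hx : ∀ a, V.valuation (((ev f a : (L)ˣ) : L) : Ω) = 1) :
    ∃ P : Pt (WAB A B) Ω, ∀ s ∈ N'.fixingSubgroup, Dec V s → c s = ac (WAB A B) s P - P := by
  obtain ⟨v, hv⟩ := H13X.xg3_below (F := F) N hVt
  obtain ⟨P, hP⟩ := H13X.loc_zero D C hv (fun h => absurd h (by rw [hl]; exact lt_irrefl _)) fun s hs hj =>
    kri_inert D he hT₀ hgen h hl hx hj.1 ((hL.fix s).2 ⟨hs, hj.2.1⟩) (C.val s hs)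
  exact ⟨P, fun s hs hsD => hP s (IntermediateField.fixingSubgroup_antitone hNN hs) hsD⟩

/-- The local conditions above w, not above l. -/
theorem kri_tame [NumberField N] [NumberField N'] (D : Dat A B Om j act mo ψ π l) (he : Pairing A B act π l e) (hL : IsTB act π N L)
    (C : H13X.Cc act π N c) (hNN : N ≤ N') (hT₀ : T₀ ∈ Tor act π) (hgen : ∀ T ∈ Tor act π, ∃ a : 𝓞 F, act a T₀ = T)
    (hn : ∀ s ∈ N.fixingSubgroup, ∀ x ∈ N', s x ∈ N')
    (hd : Module.finrank F N' = Module.finrank F N * l) {w : HeightOneSpectrum (𝓞 N)}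
    (hr : Ram N N' w.asIdeal) (hV : Abv N V w) (hVt : V ≠ ⊤) (hl : V.valuation (l : Ω) = 1)
    (hfx : ∀ t, DecN N V t → ∀ T ∈ Tor act π, ac (WAB A B) t T = T) :
    ∃ P : Pt (WAB A B) Ω, ∀ s ∈ N'.fixingSubgroup, Dec V s → c s = ac (WAB A B) s P - P := by
  have hN'f : FiniteDimensional F N' := H13X.yn1_fin N'
  have hmono : ∀ s ∈ N'.fixingSubgroup, s ∈ N.fixingSubgroup := fun s hs => IntermediateField.fixingSubgroup_antitone hNN hs
  have C' : H13X.Cc act π N' c := ⟨fun s hs t ht => C.mul s (hmono s hs) t (hmono t ht), by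
    obtain ⟨M, hM, h1⟩ := C.cont
    exact ⟨M, hM, fun s hs => h1 s (hmono s hs)⟩, fun s hs => C.val s (hmono s hs)⟩
  obtain ⟨v, hv⟩ := H13X.xg3_below (F := F) N' hVt
  exact H13X.loc_zero D C' hv (fun h => absurd h (by rw [hl]; exact lt_irrefl _)) fun s hs hj =>
    kri_kill D he hL C hT₀ hgen hl hfx hNN (fun a ha h0 => H13Y.ram_step D.hl hNN hn hd hr hV ha h0) hs hj.1

end SSN
end

-- from Lib.SSN.A5
section

/-! # SSN, chunk A5: the class of f -/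

open NumberField IsDedekindDomain WeierstrassCurve

namespace SSN

open H55P (IQ Pt ac Dec Inert decS Nm Ram)
open H35P (WAB Ker tt)
open H55K (Tor CMA Dta GV ak cj xc yc Lft TFld Abw exists_abw)
open H55K.S
open H55R (Pl ord smulP)
open H19B (DN mem_DN Cc CS mem_CS)
open H19C (SUs mem_SUs SUs_act CL mem_CL KR dl)
open H13S (Abv)
open H13X (Dat IsTB DecN algNL JV)
open H13Y (guN)

variable {F : Type} [Field F] [NumberField F] [IQ F] {A B : F} {Om : ℂ} {Ω : Type} [Field Ω] [DecidableEq Ω]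
  [Algebra F Ω] [IsAlgClosure F Ω] {j : Ω →+* ℂ} {act : 𝓞 F →+* AddMonoid.End (Pt (WAB A B) Ω)} {mo : Ideal (𝓞 F)}
  {ψ : Ideal (𝓞 F) →*₀ 𝓞 F}

variable {π : 𝓞 F} {l : ℕ} {e : Pt (WAB A B) Ω → Pt (WAB A B) Ω → Ω} {N N' L : IntermediateField F Ω}
  {c c' : (Ω ≃ₐ[F] Ω) → Pt (WAB A B) Ω} {V V₀ : ValuationSubring Ω} {T₀ : Pt (WAB A B) Ω}

/-- Chunk A5 (M), two theorems. PROOF of pg_equiv. ev (PG r f) b = prod over g of guN g (ev f (r g * b)) (PG_ev), r g = χ g⁻¹. guN σ of it (b = a) is the product over g of guN (σ g) (ev f (χ g⁻¹ * a)); substitute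
h = σ g (Equiv.mulLeft σ): product over h of guN h (ev f (χ (h⁻¹ * σ) * a)) (g⁻¹ = h⁻¹ * σ). Mod l: χ (h⁻¹ * σ) = χ h⁻¹ * χ σ + l * c_h (mul), so ev f (χ (h⁻¹ σ) * a) = ev f (χ h⁻¹ * (χ σ * a)) * (ev f (c_h * a)) ^ l (ev_add, ev_natmul).
So guN σ (ev (PG r f) a) = ev (PG r f) (χ σ * a) * (product over h of guN h (ev f (c_h * a))) ^ l. -/
theorem pg_equiv {N L : Type} [Field N] [Field L] [Algebra N L] [Fintype Gal(L/N)] {χ : Gal(L/N) → 𝓞 F}
    (hχ : ∀ σ τ, (l : 𝓞 F) ∣ χ (σ * τ) - χ σ * χ τ) (f : HM F L) (σ : Gal(L/N)) (a : 𝓞 F) :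
    ∃ z : Lˣ, guN σ (ev (PG (fun g => χ g⁻¹) f) a) = ev (PG (fun g => χ g⁻¹) f) (χ σ * a) * z ^ l := by
  classical
  choose cg hcg using fun g : Gal(L/N) => hχ g⁻¹ σ
  refine ⟨∏ g : Gal(L/N), guN g (ev f (cg g * a)), ?_⟩
  rw [PG_ev, PG_ev, map_prod, ← Finset.prod_pow, ← Finset.prod_mul_distrib]
  rw [← Equiv.prod_comp (Equiv.mulLeft σ⁻¹)]
  refine Finset.prod_congr rfl fun g _ => ?_
  have e1 : (Equiv.mulLeft σ⁻¹) g = σ⁻¹ * g := rfl
  have e2 : (σ⁻¹ * g)⁻¹ = g⁻¹ * σ := by rw [mul_inv_rev, inv_inv]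
  have e3 : ∀ x : Lˣ, guN σ (guN (σ⁻¹ * g) x) = guN g x := by
    intro x
    have h1 : guN σ (guN (σ⁻¹ * g) x) = (guN σ * guN (σ⁻¹ * g)) x := rfl
    rw [h1, ← map_mul, mul_inv_cancel_left]
  have e4 : χ (g⁻¹ * σ) * a = χ g⁻¹ * (χ σ * a) + (l : 𝓞 F) * (cg g * a) := by
    have h1 : χ (g⁻¹ * σ) = χ g⁻¹ * χ σ + (l : 𝓞 F) * cg g := by
      rw [← hcg g]
      ring
    rw [h1]
    ring
  rw [e1, e2, e3, e4, ev_add, ev_natmul, map_mul, map_pow]

/-- PROOF of kri_exists (port of H19C.kr_exists, file H19C/GK.lean). Let m T = ev (PG r f) (cc T), cc T chosen with act (cc T) T₀ = T for T in Tor act l (tor_gen). H13X.cocycle_of_m D he hL m: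
hadd: act (cc (T + T') - cc T - cc T') T₀ = 0, so l divides cc (T + T') - cc T - cc T' (H55K.tor_zero), = l * b: ev f' (cc (T + T')) = ev f' (cc T) * ev f' (cc T') * (ev f' b) ^ l for every f' in HM.
hact: σ in N.fixingSubgroup restricts to g in Gal(L/N) (H13X.exists_restr); ac σ T = act (χ g) T = act (χ g * cc T) T₀ (hχ.act, Lft g σ: the hypothesis of exists_restr); so l divides cc (ac σ T) - χ g * cc T and
m (ac σ T) = ev f' (χ g * cc T) * (..) ^ l = guN g (m T) * (..) ^ l by pg_equiv. It gives c with H13X.Cc act l N c and for all T in Tor a Kummer generator y with y ^ l = m T * z ^ l. For a: T = act a T₀, l divides cc T - a, so m T = ev f' a * (..) ^ l. -/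
theorem kri_exists (D : Dat A B Om j act mo ψ (l : 𝓞 F) l) (he : Pairing A B act (l : 𝓞 F) l e) [NumberField N] [NumberField L]
    (hL : IsTB act (l : 𝓞 F) N L) (hT₀ : T₀ ∈ Tor act (l : 𝓞 F)) (h0 : T₀ ≠ 0) :
    letI := algNL hL.le
    ∀ [Fintype Gal(L/N)] (χ : Gal(L/N) → 𝓞 F) (_ : Chi act (l : 𝓞 F) χ) (f : HM F L),
      ∃ c : (Ω ≃ₐ[F] Ω) → Pt (WAB A B) Ω, H13X.Cc act (l : 𝓞 F) N c ∧ KRI act L e l T₀ c (PG (fun g => χ g⁻¹) f) := by
  classical
  letI := algNL hL.le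
  intro iG χ hχ f
  have hA := D.cma
  have hp := D.pr
  have hrestr := H13X.exists_restr hA hL
  obtain ⟨f', hf'⟩ : ∃ f' : HM F L, f' = PG (fun g => χ g⁻¹) f := ⟨_, rfl⟩
  have hequ : ∀ (σ : Gal(L/N)) (a : 𝓞 F), ∃ z : (L)ˣ, guN σ (ev f' a) = ev f' (χ σ * a) * z ^ l := by
    intro σ a
    rw [hf']
    exact pg_equiv hχ.mul f σ a
  rw [← hf']
  have hmod : ∀ x y : 𝓞 F, act x T₀ = act y T₀ → ∃ z : (L)ˣ, ev f' x = ev f' y * z ^ l := by
    intro x y hxy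
    have h1 : act (x - y) T₀ = 0 := by rw [H55K.k2a_sub, hxy, sub_self]
    rw [H55K.tor_zero hA hp hT₀ h0] at h1
    obtain ⟨b, hb⟩ := h1
    refine ⟨ev f' b, ?_⟩
    have h2 : x = y + (l : 𝓞 F) * b := by
      rw [← hb]
      ring
    rw [h2, ev_add, ev_natmul]
  have hex : ∀ T : Pt (WAB A B) Ω, ∃ c : 𝓞 F, T ∈ Tor act (l : 𝓞 F) → act c T₀ = T := by
    intro T
    by_cases hT : T ∈ Tor act (l : 𝓞 F)
    · obtain ⟨c, hc⟩ := H55K.tor_gen hA hp hT₀ hT h0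
      exact ⟨c, fun _ => hc⟩
    · exact ⟨0, fun h => absurd h hT⟩
  choose cc hcc using hex
  have hP : ∀ c : 𝓞 F, act c T₀ ∈ Tor act (l : 𝓞 F) := fun c => H55K.tor_act c hT₀
  obtain ⟨c, hc, hcT⟩ := H13X.cocycle_of_m D he hL (fun T => ev f' (cc T)) (fun T hT T' hT' => by
    have h1 : act (cc (T + T')) T₀ = act (cc T + cc T') T₀ := by
      rw [hcc _ (AddSubgroup.add_mem _ hT hT'), H55K.k2a_add, hcc T hT, hcc T' hT']
    obtain ⟨z, hz⟩ := hmod _ _ h1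
    refine ⟨z, ?_⟩
    show ev f' (cc (T + T')) = ev f' (cc T) * ev f' (cc T') * z ^ l
    rw [hz, ev_add]) (fun σ hσ T hT => by
    obtain ⟨g, hg⟩ := hrestr σ hσ
    have h1 : act (cc (ac (WAB A B) σ T)) T₀ = act (χ g * cc T) T₀ := by
      rw [hcc _ (ac_mem hA σ hT), H55K.k2a_mul, hcc T hT]
      exact hχ.act g σ (fun x => hg x) T hT
    obtain ⟨z, hz⟩ := hmod _ _ h1
    obtain ⟨z', hz'⟩ := hequ g (cc T)
    refine ⟨z'⁻¹ * z, ?_⟩
    have h2 : ev f' (cc (ac (WAB A B) σ T)) = guN g (ev f' (cc T)) * (z'⁻¹ * z) ^ l := by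
      rw [hz, hz', mul_pow, inv_pow, mul_assoc, mul_inv_cancel_left]
    show ((ev f' (cc (ac (WAB A B) σ T)) : L) : Ω) = _
    rw [h2, hg]
    rfl)
  refine ⟨c, hc, fun a => ?_⟩
  obtain ⟨y, hy, z, hyz⟩ := hcT (act a T₀) (hP a)
  obtain ⟨w, hw⟩ := hmod (cc (act a T₀)) a (hcc _ (hP a))
  refine ⟨y, w * z, hy, ?_⟩
  rw [hyz, MonoidHom.id_apply]
  have h1 : ev f' (cc (act a T₀)) * z ^ l = ev f' a * (w * z) ^ l := by
    rw [hw, mul_pow, mul_assoc]
  rw [h1]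

end SSN
end
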