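import Mathlib
import Pool.Agent.Lib.H1M.PP2.M021
import Pool.Agent.Lib.H1M.PP2.M104
import Pool.Agent.Lib.H1M.PP2.M118
import Pool.Agent.Lib.H1M.PP2.M142
import Pool.Agent.Lib.H1M.PP2.M150
import Pool.Agent.Lib.H1M.PP2.M151
import Pool.Agent.Lib.H1M.PP2.M154
import Pool.Agent.Lib.H1M.PP2.M155
import Pool.Agent.Lib.H1M.PP2.M161
import Pool.Agent.Lib.H1M.PP2.M167

/-! Merged copies (to shorten the build) of Lib.H13T.C6, Lib.H13T.C7, Lib.H13T.C9, Lib.H13T.CE, Lib.H13T.C11, Lib.H41G.L, Lib.H41G.C, Lib.H41G.CE, Lib.H57N.E5. -/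

-- from Lib.H13T.C6
section

/-! Chunk C6 (M). Few relaxed primes: the decomposition group over M of a relaxed place contains an element of the class of η = γ^(p^(n-1)) modulo N'.
c6_num. PROOF. d = p^a d', p not dividing d' (Nat.exists_eq_pow_mul_and_not_dvd), a ≤ n - 1 as d < p^n; d' is invertible modulo p^n: e' d' ≡ 1 [MOD p^n]; e = e' * p^(n-1-a).
c6_fin. The primes of N' ramified in N: H55R.ram_fin (Lib/H55R/X12.lean) with Algebra N' N := inclusion, IsGalois N' N (H55P.s13_galois, Lib/H55P/S13.lean, from PExt.norm), and Ram N' N w → es ≠ 1 (see how Ram and es are compared: grep es_ram, ram_es, ramF_iff in Lib/H55P, Lib/H55K, Lib/H13R; or the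
primes of N' dividing the different: Ram gives W with w ⊆ W^2, so w 𝓞 N ⊆ W^2 (if W ≠ ⊥ above w)). 
c6_phi. PROOF. For i < p^n the place V_i = cV V (γ^i) satisfies RV (C1: c1_rv, C2: c2_iff); w_i in AnW below it (c5_below). Pigeonhole (c6_fin, few: Set.ncard, Finset.exists_ne_map_eq_of_card_lt_of_maps_to on Finset.range (p^n)): i < j < p^n with w_i = w_j.
trans_V (Lib/H13X/XT.lean) for V_i, V_j: s in N'.fixingSubgroup with s x ∈ V_j iff x ∈ V_i, that is γ^j (s x) in V iff γ^i x in V. δ = γ^j * s * (γ^i)⁻¹ satisfies Dec V δ (put x = (γ^i)⁻¹ y), is in M.fixingSubgroup, and δ = γ^(j-i) * s', s' = γ^i s γ^(-i) in N'.fixingSubgroup (c2_iff).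
e from c6_num for d = j - i: φ = δ^e. Modulo the normal subgroup N'.fixingSubgroup of M.fixingSubgroup (c2_iff) φ is γ^(d e), and γ^(d e) is γ^(p^(n-1)) modulo N'.fixingSubgroup by c.mid (if a ≡ b mod p^n then (γ^a)⁻¹ γ^b in N'.fixingSubgroup). Dec: decS is a subgroup. -/

open NumberField IsDedekindDomain WeierstrassCurve

namespace H13T

open H55P H55K H55K.TQ H55K.S
open H13S (Abv)
open H13R (BadM)

open scoped Classical

theorem c6_num {p n d : ℕ} (hp : p.Prime) (hn : 1 ≤ n) (h0 : 0 < d) (hd : d < p ^ n) : ∃ e : ℕ, d * e ≡ p ^ (n - 1) [MOD p ^ n] := by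
  obtain ⟨a, d', h2, h1⟩ := Nat.exists_eq_pow_mul_and_not_dvd h0.ne' p hp.ne_one
  have h3 : a ≤ n - 1 := by
    by_contra h4
    have h5 : n ≤ a := by omega
    have h6 : p ^ n ≤ p ^ a := Nat.pow_le_pow_right hp.pos h5
    have h7 : 0 < d' := by
      rcases Nat.eq_zero_or_pos d' with h8 | h8
      · rw [h8, mul_zero] at h1
        omega
      · exact h8
    have h9 : p ^ a * 1 ≤ p ^ a * d' := Nat.mul_le_mul_left _ h7
    omega
  have hcop : Nat.Coprime d' (p ^ n) := ((Nat.Prime.coprime_iff_not_dvd hp).2 h2).symm.pow_right n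
  have hgt : 1 < p ^ n := Nat.one_lt_pow (by omega) hp.one_lt
  obtain ⟨e', -, he'⟩ := Nat.exists_mul_mod_eq_one_of_coprime hcop hgt
  refine ⟨e' * p ^ (n - 1 - a), ?_⟩
  have h10 : d * (e' * p ^ (n - 1 - a)) = (d' * e') * p ^ (n - 1) := by
    have h11 : p ^ (n - 1) = p ^ a * p ^ (n - 1 - a) := by
      rw [← pow_add]
      congr 1
      omega
    rw [h11, h1]
    ring
  have h12 : d' * e' ≡ 1 [MOD p ^ n] := by
    show d' * e' % p ^ n = 1 % p ^ n
    rw [he', Nat.mod_eq_of_lt hgt]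
  rw [h10]
  have h13 := h12.mul_right (p ^ (n - 1))
  rwa [one_mul] at h13

variable {F : Type} [Field F] [NumberField F] [IQ F] {W₀ : WeierstrassCurve (𝓞 F)} {Om : ℂ}
  {m : Ideal (𝓞 F)} {ψ : Ideal (𝓞 F) →*₀ 𝓞 F} {p n : ℕ} {M N' N : IntermediateField F (AlgebraicClosure F)}
  {γ : AlgebraicClosure F ≃ₐ[F] AlgebraicClosure F}

theorem c6_fin (hp : 0 < p) [NumberField N'] [NumberField N] (c : CycI p n M N' N γ) : (AnW p W₀ N' N).Finite := by
  have hfd : FiniteDimensional F N := c.fin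
  let _ := s13_alg c.le'
  have hgal : IsGalois N' N := s13_galois N' N c.le'
    (fun g hg x hx => c.nrm g (IntermediateField.fixingSubgroup_antitone c.le hg) x hx)
  have hD : differentIdeal (𝓞 N') (𝓞 N) ≠ ⊥ := differentIdeal_ne_bot
  refine Set.Finite.subset (Set.Finite.image (fun W : HeightOneSpectrum (𝓞 N) => W.under (𝓞 N'))
    (Ideal.finite_factors (I := differentIdeal (𝓞 N') (𝓞 N)) hD)) ?_
  rintro w ⟨-, ⟨W, hWp, hW⟩, -⟩
  have hwm := w.isMaximal
  have hle : w.asIdeal.map (algebraMap (𝓞 N') (𝓞 N)) ≤ W ^ 2 :=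
    Ideal.map_le_iff_le_comap.2 fun x hx => hW x (algebraMap (𝓞 N') (𝓞 N) x) hx rfl
  have hne : W ≠ ⊥ := by
    intro h1
    have h2 : W ^ 2 = ⊥ := by
      rw [h1]
      exact zero_pow two_ne_zero
    rw [h2, le_bot_iff] at hle
    exact w.ne_bot ((Ideal.map_eq_bot_iff_of_injective (FaithfulSMul.algebraMap_injective (𝓞 N') (𝓞 N))).1 hle)
  refine ⟨⟨W, hWp, hne⟩, ?_, ?_⟩
  · have h2 : W ^ 2 ∣ w.asIdeal.map (algebraMap (𝓞 N') (𝓞 N)) := Ideal.dvd_iff_le.2 hle
    have h3 := pow_sub_one_dvd_differentIdeal (𝓞 N') W _ w.ne_bot h2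
    have h4 : (2 - 1 : ℕ) = 1 := rfl
    rw [h4, pow_one] at h3
    exact h3
  · apply HeightOneSpectrum.ext
    have h5 : w.asIdeal ≤ W.comap (algebraMap (𝓞 N') (𝓞 N)) :=
      Ideal.map_le_iff_le_comap.1 (hle.trans (Ideal.pow_le_self two_ne_zero))
    exact (hwm.eq_of_le (Ideal.comap_ne_top _ hWp.ne_top) h5).symm


end H13T
end

-- from Lib.H13T.C7
section

/-! Chunk C7 (M). The local conditions at the places which are not relaxed.
c7_cob. PROOF: copy H55K.NB.inert_cob (Lib/H55K/NA5.lean): only values on the elements s of N'.fixingSubgroup with Inert V s are used; sah gives p • P = 0 as well. hcomm: H55K.NB.comm_tors (Lib/H55K/NA7.lean).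
c7_loc. PROOF. If all s in N'.fixingSubgroup with Inert V s are in N.fixingSubgroup: first alternative. Otherwise no nonzero point killed by p is fixed by the s of N'.fixingSubgroup with Dec V s (¬ RV), V is above a prime w of N' (below_cases; in the other case Inert V s gives s = 1), Ram N' N w.asIdeal (inert_mem), p not in w
(H13R.g6_ram_p, c2_pext). If Δ is not in w: second alternative (c5_red; the absence of points). If Δ is in w: third alternative: c7_cob with V.valuation p = 1 (val_below) and h0 = H13R.bad_torsR (L = N, K = N', v the prime of M below w: H13R.c3_below; val: H55P.Below gives V.valuation < 1). -/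

open NumberField IsDedekindDomain WeierstrassCurve

namespace H13T

open H55P H55K H55K.TQ H55K.S
open H13S (Abv)
open H13R (BadM)

open scoped Classical

variable {F : Type} [Field F] [NumberField F] [IQ F] {W₀ : WeierstrassCurve (𝓞 F)} {Om : ℂ}
  {m : Ideal (𝓞 F)} {ψ : Ideal (𝓞 F) →*₀ 𝓞 F} {p n : ℕ} {M N' N : IntermediateField F (AlgebraicClosure F)}
  {γ : AlgebraicClosure F ≃ₐ[F] AlgebraicClosure F}

theorem c7_cob (hH : BaseH F W₀ Om m ψ) (hp : PrimeH F W₀ p) (V : ValuationSubring (AlgebraicClosure F))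
    (hV : V.valuation (p : AlgebraicClosure F) = 1)
    (h0 : ∀ T : Pt (W₀⁄F) (AlgebraicClosure F), p • T = 0 → (∀ s ∈ N'.fixingSubgroup, Inert V s → ac (W₀⁄F) s T = T) → T = 0)
    (d : (AlgebraicClosure F ≃ₐ[F] AlgebraicClosure F) → Pt (W₀⁄F) (AlgebraicClosure F))
    (hd : ∀ s ∈ N'.fixingSubgroup ⊓ inS F V, ∀ t ∈ N'.fixingSubgroup ⊓ inS F V, d (s * t) = d s + ac (W₀⁄F) s (d t))
    (hpd : ∀ s ∈ N'.fixingSubgroup ⊓ inS F V, p • d s = 0)
    (hco : ∃ L : IntermediateField F (AlgebraicClosure F), FiniteDimensional F L ∧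
      ∀ s ∈ N'.fixingSubgroup ⊓ inS F V, s ∈ L.fixingSubgroup → d s = 0) :
    ∃ T : Pt (W₀⁄F) (AlgebraicClosure F), p • T = 0 ∧ ∀ s ∈ N'.fixingSubgroup ⊓ inS F V, d s = ac (W₀⁄F) s T - T := by
  have hpp := hp.prime
  have hell : (W₀⁄F).IsElliptic := by
    rw [WeierstrassCurve.isElliptic_iff, isUnit_iff_ne_zero]
    have e : (W₀⁄F).Δ = algebraMap (𝓞 F) F W₀.Δ := WeierstrassCurve.map_Δ _ _
    rw [e]
    intro h1
    exact hH.data.ell ((map_eq_zero_iff _ (FaithfulSMul.algebraMap_injective (𝓞 F) F)).1 h1)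
  have hcomm : ∀ s t : AlgebraicClosure F ≃ₐ[F] AlgebraicClosure F, ∀ T : Pt (W₀⁄F) (AlgebraicClosure F), p • T = 0 →
      ac (W₀⁄F) s (ac (W₀⁄F) t T) = ac (W₀⁄F) t (ac (W₀⁄F) s T) := fun s t T hT => H55K.NB.comm_tors hH hpp s t T hT
  have hMul : ∀ (a b : AlgebraicClosure F ≃ₐ[F] AlgebraicClosure F) (x : Pt (W₀⁄F) (AlgebraicClosure F)),
      ac (W₀⁄F) (a * b) x = ac (W₀⁄F) a (ac (W₀⁄F) b x) := by
    intro a b x
    rw [← acR_apply, map_mul]
    rfl
  have hone : ∀ x : Pt (W₀⁄F) (AlgebraicClosure F), ac (W₀⁄F) 1 x = x := fun x => by rw [← acR_apply, map_one]; rfl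
  have hk : ∀ s ∈ N'.fixingSubgroup ⊓ inS F V, ∀ t ∈ N'.fixingSubgroup ⊓ inS F V, d (s * t * s⁻¹ * t⁻¹) = 0 := by
    intro s hs t ht
    obtain ⟨L, hLf, hL⟩ := hco
    set u : AlgebraicClosure F ≃ₐ[F] AlgebraicClosure F := s * t * s⁻¹ * t⁻¹ with hu
    have huN : u ∈ N'.fixingSubgroup ⊓ inS F V :=
      mul_mem (mul_mem (mul_mem hs ht) (inv_mem hs)) (inv_mem ht)
    have hw : H55K.NB.Wild V u := H55K.NB.wild_comm V s t hs.2 ht.2
    obtain ⟨a, hpa, hfix⟩ := H55K.NB.wild_coprime V hw hpp hV L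
    have htriv : ∀ T : Pt (W₀⁄F) (AlgebraicClosure F), p • T = 0 → ac (W₀⁄F) u T = T := by
      intro T hT
      have q : ∀ g : AlgebraicClosure F ≃ₐ[F] AlgebraicClosure F, p • ac (W₀⁄F) g T = 0 := fun g => by rw [← map_nsmul, hT, map_zero]
      rw [hu, hMul, hMul, hMul, hcomm s t _ (by rw [← map_nsmul, q, map_zero]), ← hMul s s⁻¹,
        mul_inv_cancel, hone, ← hMul, mul_inv_cancel, hone]
    have hpow : ∀ k : ℕ, d (u ^ k) = k • d u := by
      intro k
      induction k with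
      | zero =>
        rw [pow_zero, zero_smul]
        have h1 := hd 1 (one_mem _) 1 (one_mem _)
        rw [mul_one, hone] at h1
        exact left_eq_add.1 h1
      | succ k ih =>
        rw [pow_succ', hd u huN _ (_root_.pow_mem huN k), htriv _ (hpd _ (_root_.pow_mem huN k)), ih, succ_nsmul']
    have h1 : a • d u = 0 := by
      rw [← hpow]
      exact hL _ (_root_.pow_mem huN a) hfix
    have h2 : p • d u = 0 := hpd u huN
    have hcop : IsCoprime (a : ℤ) (p : ℤ) := by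
      rw [Nat.isCoprime_iff_coprime, Nat.coprime_comm]
      exact (Nat.Prime.coprime_iff_not_dvd hpp).2 hpa
    obtain ⟨x, y, hxy⟩ := hcop
    have h3 : (1 : ℤ) • d u = 0 := by
      rw [← hxy, add_smul, mul_smul, mul_smul, natCast_zsmul, natCast_zsmul, h1, h2, smul_zero, smul_zero, add_zero]
    rwa [one_smul] at h3
  exact H55K.NB.sah (acR (W₀⁄F)) p (tors_fin (Ω := AlgebraicClosure F) (W₀⁄F) p hpp.pos) (N'.fixingSubgroup ⊓ inS F V)
    (fun s _ t _ T hT => hcomm s t T hT)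
    (fun T hT h => h0 T hT fun s hs hi => h s ⟨hs, hi⟩) d hd hpd hk


end H13T
end

-- from Lib.H13T.C9
section

/-! Chunk C9 (M). The data TS for the curve. ρ = (galS (W₀⁄F) Ω).act (SSG.galS_act: it is ac), U = (galS ..).U = the fixing subgroups of the finite extensions, I = inS F, D = decS F, N, H, H₀ = the fixing subgroups of N, N', M.
c9_hI: V ≠ ⊤: J = decS F V, inert_dec; V = ⊤: valuation of a nonzero element is 1 (ValuationSubring.mem_top, valuation_le_one_iff for x and x⁻¹), so Inert ⊤ s gives s = 1.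
c9_ts. hUi: IntermediateField.fixingSubgroup_sup; hUc: as in H55P.sel_step (Lib/H55P/S3.lean); hN: c.fin; hNH, hHH: IntermediateField.fixingSubgroup_antitone (c.le', c.le); hcomm, hη, hηp, hηpp, hgen: C2; hconj: v' = cV v g, c1_in, c1_rv, c2_iff; hDI: inS_dec; h0: H13R.tors_KR with L = K = N (c2_pext; UnrP p M: H13R.unr_le);
hdiv: H55P.div_pt (p > 0; (W₀⁄F).IsElliptic: H55P.gen_ell); hfix: H55P.pt_open; hloc: c7_loc, c7_cob; hR: c5_below + c5_red (first part), c6_phi + c5_dec (second part); sel: H55P.sel_iff for SelG p W₀ N' (acR and (galS ..).act agree: acR_apply). -/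

open NumberField IsDedekindDomain WeierstrassCurve

namespace H13T

open H55P H55K H55K.TQ H55K.S
open H13S (Abv)
open H13R (BadM)

open scoped Classical

variable {F : Type} [Field F] [NumberField F] [IQ F] {W₀ : WeierstrassCurve (𝓞 F)} {Om : ℂ}
  {m : Ideal (𝓞 F)} {ψ : Ideal (𝓞 F) →*₀ 𝓞 F} {p n : ℕ} {M N' N : IntermediateField F (AlgebraicClosure F)}
  {γ : AlgebraicClosure F ≃ₐ[F] AlgebraicClosure F}

theorem c9_hI {F : Type} [Field F] (W : WeierstrassCurve F) {Ω : Type} [Field Ω] [Algebra F Ω] (V : ValuationSubring Ω) :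
    (∃ J ∈ (SSG.galS W Ω).D, inS F V ≤ J) ∨ inS F V = ⊥ := by
  by_cases hV : V = ⊤
  · right
    rw [Subgroup.eq_bot_iff_forall]
    intro s hs
    rw [mem_inS, hV] at hs
    ext x
    by_contra hx
    have h2 := hs x (ValuationSubring.mem_top x)
    have h3 : s x - x ≠ 0 := sub_ne_zero.2 hx
    have h4 : (⊤ : ValuationSubring Ω).valuation (s x - x)⁻¹ ≤ 1 :=
      ((⊤ : ValuationSubring Ω).valuation_le_one_iff _).2 (ValuationSubring.mem_top _)
    rw [map_inv₀, inv_le_one₀ (zero_lt_iff.2 ((map_ne_zero _).2 h3))] at h4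
    exact absurd h2 (not_lt.2 h4)
  · left
    exact ⟨decS F V, ⟨V, hV, rfl⟩, fun s hs => inert_dec V s hs⟩


end H13T
end

-- from Lib.H13T.CE
section

/-! # H13T, module CE: the relaxed places and the primes AnW; the index set (TI); classes with all values -/

open NumberField IsDedekindDomain WeierstrassCurve

namespace H13T

open H55P (IQ embF eF LF Per IsHecke Pt ac acR Inert Dec Nm Coc PExt UnrP Ram RamF SelZero SelG inS decS Below)
open H35P (WAB Ker tt)
open H55K H55K.TQ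
open H55K.S
open H13S (Abv)
open H13X
open H13R

open scoped Classical

section base

variable {F : Type} [Field F] [NumberField F]

/-- A place with a nontrivial inertia group lies above a prime of N'. -/
theorem ce_below {V : ValuationSubring (AlgebraicClosure F)} (hV : V ≠ ⊤) (N' : IntermediateField F (AlgebraicClosure F))
    [NumberField N'] : ∃ w : HeightOneSpectrum (𝓞 N'), Abv N' V w := by
  obtain ⟨q, hq, hqV⟩ := H13S.in1_char (F₀ := F) V hV
  refine H13S.exists_below N' V ⟨((q : N'))⁻¹, fun h => ?_⟩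
  have h1 : (((q : N')⁻¹ : N') : AlgebraicClosure F) = (q : AlgebraicClosure F)⁻¹ := by
    push_cast
    rfl
  rw [h1, ← V.valuation_le_one_iff, map_inv₀] at h
  have h0 : V.valuation (q : AlgebraicClosure F) ≠ 0 := (map_ne_zero _).2 (Nat.cast_ne_zero.2 hq.ne_zero)
  exact absurd ((one_lt_inv₀ (zero_lt_iff.2 h0)).2 hqV) (not_lt.2 h)

omit [NumberField F] in
/-- The inertia group of the trivial valuation ring is trivial. -/
theorem ce_top {s : AlgebraicClosure F ≃ₐ[F] AlgebraicClosure F} (hs : Inert (⊤ : ValuationSubring (AlgebraicClosure F)) s) :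
    s = 1 := by
  apply AlgEquiv.ext
  intro x
  have h1 := hs x (ValuationSubring.mem_top _)
  rw [H55P.lt1_iff] at h1
  rcases h1 with h1 | h1
  · exact sub_eq_zero.1 h1
  · exact absurd (ValuationSubring.mem_top _) h1

/-- The value of p is 1 at primes which do not contain p, and conversely. -/
theorem ce_val {N' : IntermediateField F (AlgebraicClosure F)} [NumberField N'] {V : ValuationSubring (AlgebraicClosure F)}
    {w : HeightOneSpectrum (𝓞 N')} (hV : Abv N' V w) (p : ℕ) :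
    (p : 𝓞 N') ∈ w.asIdeal ↔ V.valuation (p : AlgebraicClosure F) < 1 := by
  have h1 : (((p : 𝓞 N') : N') : AlgebraicClosure F) = p := by
    have e1 : ((p : 𝓞 N') : N') = p := map_natCast (algebraMap (𝓞 N') N') p
    rw [e1]
    exact map_natCast (algebraMap N' (AlgebraicClosure F)) p
  rw [← w.valuation_lt_one_iff_mem (K := N') (p : 𝓞 N'), ← h1]
  exact (hV.lt ((p : 𝓞 N') : N')).symm

/-- Below from Abv. -/
theorem ce_bel {N' : IntermediateField F (AlgebraicClosure F)} [NumberField N'] {V : ValuationSubring (AlgebraicClosure F)}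
    {w : HeightOneSpectrum (𝓞 N')} (hV : Abv N' V w) : Below V N' w.asIdeal := fun x => by
  rw [← w.valuation_lt_one_iff_mem (K := N') x]
  exact (hV.lt (x : N')).symm

end base

variable {F : Type} [Field F] [NumberField F] [IQ F] {W₀ : WeierstrassCurve (𝓞 F)} {Om : ℂ}
    {m : Ideal (𝓞 F)} {ψ : Ideal (𝓞 F) →*₀ 𝓞 F} {p n : ℕ} {M N' N : IntermediateField F (AlgebraicClosure F)}
    [NumberField M] [NumberField N'] [NumberField N] {γ : AlgebraicClosure F ≃ₐ[F] AlgebraicClosure F}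

omit [IQ F] in
/-- p is unramified in N'. -/
theorem ce_unr (hp : PrimeH F W₀ p) (c : CycI p n M N' N γ) (hU : UnrP p N) : UnrP p N' := by
  let _ : Algebra N' N := (IntermediateField.inclusion c.le').toRingHom.toAlgebra
  exact H55P.UnrP.down N' N p hp.prime hU

omit [NumberField M] in
/-- p is a unit at the places where some inertia element over N' does not fix N. -/
theorem ce_p (hp : PrimeH F W₀ p) (hU : UnrP p N) {V : ValuationSubring (AlgebraicClosure F)}
    {s : AlgebraicClosure F ≃ₐ[F] AlgebraicClosure F} (hs : Inert V s) (hsN : s ∉ N.fixingSubgroup) :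
    V.valuation (p : AlgebraicClosure F) = 1 := by
  have hNb : Nb p N := nb_ofR hp.prime hp.unr hU
  refine le_antisymm ((V.valuation_le_one_iff _).2 ?_) (not_lt.1 fun h => hsN (hNb.inert V h s hs))
  exact natCast_mem V p

/-- A prime of N' ramified in N does not contain p, and p divides its norm minus one. -/
theorem ce_norm (hp : PrimeH F W₀ p) (c : CycI p n M N' N γ) (hU : UnrP p N)
    {V : ValuationSubring (AlgebraicClosure F)} {w : HeightOneSpectrum (𝓞 N')} (hV : Abv N' V w) (hr : Ram N' N w.asIdeal) :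
    (p : 𝓞 N') ∉ w.asIdeal ∧ p ∣ Ideal.absNorm w.asIdeal - 1 ∧
      ∃ s ∈ N'.fixingSubgroup, Inert V s ∧ s ∉ N.fixingSubgroup := by
  obtain ⟨-, -, hx⟩ := c2_pext hp.prime.pos c
  have hfin : FiniteDimensional F N := c.fin
  obtain ⟨s, hs1, hs2, hs3⟩ := exists_tau hp.prime hfin c.le' hx.norm c.deg' hr hV
  refine ⟨fun h => ?_, H55P.ram_norm p hp.prime N' N hx N c.le' le_rfl hU w hr, s, hs1, hs2, hs3⟩
  have h1 := (ce_val hV p).1 h
  rw [ce_p hp hU hs2 hs3] at h1
  exact lt_irrefl _ h1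


/-- The decomposition group over N' of a place above a prime in AnW fixes all points killed by p. -/
theorem ce_fixW (hH : BaseH F W₀ Om m ψ) (hp : PrimeH F W₀ p) (c : CycI p n M N' N γ) (hU : UnrP p N)
    {A B : F} {j : AlgebraicClosure F →+* ℂ} {act : 𝓞 F →+* AddMonoid.End (Pt (WAB A B) (AlgebraicClosure F))}
    (hA : A = -(algebraMap (𝓞 F) F W₀.c₄) / 48) (hB' : B = -(algebraMap (𝓞 F) F W₀.c₆) / 864) (dta : Dta A B Om j act m ψ p)
    {V : ValuationSubring (AlgebraicClosure F)} {w : HeightOneSpectrum (𝓞 N')} (hV : Abv N' V w) (hw : w ∈ AnW p W₀ N' N)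
    (s : AlgebraicClosure F ≃ₐ[F] AlgebraicClosure F) (hs : DecN N' V s) (T : Pt (WAB A B) (AlgebraicClosure F)) (hT : p • T = 0) :
    ac (WAB A B) s T = T := by
  obtain ⟨hΔ, hr, hc⟩ := hw
  obtain ⟨hpw, hn, -⟩ := ce_norm hp c hU hV hr
  obtain ⟨T₀, hT0, hT', hfT⟩ := lk_decR dta.cma W₀ hH.data.ell hA hB' N' hΔ hV hp.prime hp.five hpw hc
  exact c3_fix dta dta.unr N' hV hpw hn hT0 hT' hfT s hs T hT

/-- A relaxed place is not trivial. -/
theorem ce_ne {V : ValuationSubring (AlgebraicClosure F)} (hV : RV (W₀⁄F) p N' N V) : V ≠ ⊤ := by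
  rintro rfl
  obtain ⟨⟨s, -, hs2, hs3⟩, -⟩ := hV
  rw [ce_top hs2] at hs3
  exact hs3 (one_mem _)





end H13T
end

-- from Lib.H13T.C11
section

/-! Chunk C11 (M). The theorem over F.
c11_two: exists_dta (C5): WAB A B, Tor act p = the points killed by p (act (p : 𝓞 F) = p •: map_natCast), tor_card (Lib/H55K/G4A.lean): Nm p = p^2 (Nm_nat); transport by the isomorphism Θ of r6_iso (Lib/H13R/R6.lean).
c11_fin: copy the first half of H55P.pts_fin (Lib/H55P/S6.lean): Pt W K is a finitely generated group, p-divisible by hdiv and fix_iff, so finite; the set of the fixed points is the range of the injective map Pt W K → Pt W Ω (fix_iff).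
c11_main: ts_card (U11) for c9_ts, hI = c9_hI, T and hE from ce_main (CE.lean); ι = the subtype of AnW, finite (c6_fin), Nat.card ι = ncard (Set.Nat.card_coe_set_eq); (p^2)^ncard = p^(2 ncard); KP is the second part; the points: c11_fin with pts_div (U7); no p-torsion: S.h0. -/

open NumberField IsDedekindDomain WeierstrassCurve

namespace H13T

open H55P H55K H55K.TQ H55K.S
open H13S (Abv)
open H13R (BadM)
open SSG

open scoped Classical

variable {F : Type} [Field F] [NumberField F] [IQ F] {W₀ : WeierstrassCurve (𝓞 F)} {Om : ℂ}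
  {m : Ideal (𝓞 F)} {ψ : Ideal (𝓞 F) →*₀ 𝓞 F} {p n : ℕ} {M N' N : IntermediateField F (AlgebraicClosure F)}
  {γ : AlgebraicClosure F ≃ₐ[F] AlgebraicClosure F}

theorem c11_two (hH : BaseH F W₀ Om m ψ) (hp : PrimeH F W₀ p) : Nat.card {T : Pt (W₀⁄F) (AlgebraicClosure F) // p • T = 0} = p ^ 2 := by
  obtain ⟨A, B, j, act, hA, hB, hD⟩ := exists_dta hH hp
  obtain ⟨r, s, t, Θ, -, -, -⟩ := H13R.r6_iso (Ω := AlgebraicClosure F) W₀ hH.data.ell hA hB
  have hp0 : (p : 𝓞 F) ≠ 0 := by exact_mod_cast hp.prime.ne_zero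
  have h1 := tor_card hD.cma hp0
  rw [Nm_nat] at h1
  have h2 : ∀ T : Pt (H35P.WAB A B) (AlgebraicClosure F), act (p : 𝓞 F) T = p • T := by
    intro T
    rw [map_natCast]
    exact AddMonoid.End.natCast_apply p T
  rw [← h1]
  refine (Nat.card_congr (Equiv.subtypeEquiv Θ.toEquiv fun T => ?_)).symm
  show T ∈ Tor act (p : 𝓞 F) ↔ p • Θ T = 0
  rw [← map_nsmul, map_eq_zero_iff Θ Θ.injective, ← h2]
  exact Iff.rfl

theorem c11_fin {F : Type} [Field F] [NumberField F] {Ω : Type} [Field Ω] [Algebra F Ω] [IsAlgClosed Ω]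
    [Algebra.IsAlgebraic F Ω] [CharZero Ω] (W : WeierstrassCurve F) [W.IsElliptic] (p : ℕ) (hp : p.Prime) (K : IntermediateField F Ω)
    [FiniteDimensional F K] (hdiv : ∀ P : Pt W Ω, (∀ s ∈ K.fixingSubgroup, ac W s P = P) →
      ∃ Q : Pt W Ω, (∀ s ∈ K.fixingSubgroup, ac W s Q = Q) ∧ p • Q = P) :
    {P : Pt W Ω | ∀ s ∈ K.fixingSubgroup, ac W s P = P}.Finite := by
  have hN : NumberField K := NumberField.of_module_finite F K
  have hfg : Module.Finite ℤ (Pt W K) := mw W K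
  have hinj : Function.Injective (Affine.Point.map (W' := W.toAffine) K.val) :=
    Affine.Point.map_injective _
  have hdiv' : ∀ P : Pt W K, ∃ Q : Pt W K, p • Q = P := by
    intro P
    obtain ⟨Q', hQ2, hQ'⟩ := hdiv (Affine.Point.map (W' := W.toAffine) K.val P) ((fix_iff W K _).2 ⟨P, rfl⟩)
    obtain ⟨Q, hQ⟩ := (fix_iff W K Q').1 hQ2
    refine ⟨Q, hinj ?_⟩
    rw [map_nsmul, hQ, hQ']
  obtain ⟨r, hr, hr'⟩ := Submodule.exists_sub_one_mem_and_smul_eq_zero_of_fg_of_le_smul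
    (Ideal.span {(p : ℤ)}) (⊤ : Submodule ℤ (Pt W K)) hfg.fg_top (by
      intro P _
      obtain ⟨Q, hQ⟩ := hdiv' P
      rw [← hQ, ← natCast_zsmul]
      exact Submodule.smul_mem_smul (Ideal.mem_span_singleton_self _) Submodule.mem_top)
  have hr0 : r ≠ 0 := by
    rintro rfl
    rw [Ideal.mem_span_singleton, zero_sub, dvd_neg] at hr
    exact hp.one_lt.ne' (by exact_mod_cast Int.natAbs_dvd_natAbs.2 hr |> Nat.dvd_one.1)
  have hfin : Finite (Pt W K) := by
    have h1 : AddGroup.FG (Pt W K) := Module.Finite.iff_addGroup_fg.1 inferInstance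
    refine AddCommGroup.finite_of_fg_isAddTorsion _ fun P => ?_
    rw [isOfFinAddOrder_iff_zsmul_eq_zero]
    exact ⟨r, hr0, hr' P Submodule.mem_top⟩
  refine (Set.finite_range (Affine.Point.map (W' := W.toAffine) K.val)).subset ?_
  intro P hP
  exact (fix_iff W K P).1 hP


end H13T
end

-- from Lib.H41G.L
section

/-! # H41G: the local conditions at the primes dividing the discriminant, under OkM -/

open NumberField IsDedekindDomain WeierstrassCurve

namespace H41G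

open H55P H55K H55K.TQ H55K.S
open H13S (Abv)
open H55G (OkM LocOk)

open scoped Classical

variable {F : Type} [Field F] [NumberField F]

/-- The prime of M below a prime of N'. -/
theorem lo_below {Ω : Type} [Field Ω] [Algebra F Ω] {M N' : IntermediateField F Ω} [NumberField M] [NumberField N'] (hMN : M ≤ N')
    {V : ValuationSubring Ω} {w : HeightOneSpectrum (𝓞 N')} (hbel : Below V N' w.asIdeal) :
    ∃ v : HeightOneSpectrum (𝓞 M), Below V M v.asIdeal ∧
      ∀ x : 𝓞 F, algebraMap (𝓞 F) (𝓞 M) x ∈ v.asIdeal ↔ algebraMap (𝓞 F) (𝓞 N') x ∈ w.asIdeal := by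
  obtain ⟨v, hvw⟩ := H13R.c3_below hMN w
  refine ⟨v, fun a => ?_, fun x => hvw _ _ rfl⟩
  obtain ⟨b, hb⟩ : ∃ b : 𝓞 N', ((a : M) : Ω) = ((b : N') : Ω) := by
    refine ⟨⟨⟨((a : M) : Ω), hMN (a : M).2⟩, ?_⟩, rfl⟩
    have h2 : IsIntegral ℤ (a : M) := a.isIntegral_coe
    have h3 : IsIntegral ℤ ((IntermediateField.inclusion hMN) (a : M)) :=
      h2.map ((IntermediateField.inclusion hMN).toRingHom.toIntAlgHom)
    exact h3
  rw [hvw a b hb, hb]
  exact hbel b

/-- The fixed points of the decomposition group over a p-extension. -/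
theorem lo_dec {Ω : Type} [Field Ω] [Algebra F Ω] [IsAlgClosed Ω] [Algebra.IsAlgebraic F Ω] {W : WeierstrassCurve F} {p : ℕ} (hp : p.Prime)
    (hfin : {T : Pt W Ω | p • T = 0}.Finite) {M L : IntermediateField F Ω} (hL : PExt p M L) {V : ValuationSubring Ω}
    (h : LocOk W p M V) {N' : IntermediateField F Ω} (hNL : N' ≤ L) (T : Pt W Ω) (hT : p • T = 0)
    (hf : ∀ s ∈ N'.fixingSubgroup, Dec V s → ac W s T = T) : T = 0 := by
  have hcz : CharZero Ω := charZero_of_injective_algebraMap (algebraMap F Ω).injective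
  obtain ⟨k, hk⟩ := hL.pow p hp M L
  have hconj : ∀ s ∈ M.fixingSubgroup, ∀ t ∈ L.fixingSubgroup, s * t * s⁻¹ ∈ L.fixingSubgroup :=
    fun s hs t ht => hL.conj p M L s hs t ht
  refine fix_up (acR W) p hp hfin (L.fixingSubgroup ⊓ decS F V)
    (M.fixingSubgroup ⊓ decS F V) ?_ ?_ k ?_ ?_ T hT ?_
  · exact inf_le_inf_right _ fun s hs => IntermediateField.fixingSubgroup_antitone hL.le hs
  · intro s hs t ht
    exact ⟨hconj s hs.1 t ht.1,
      (decS F V).mul_mem ((decS F V).mul_mem hs.2 ht.2) ((decS F V).inv_mem hs.2)⟩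
  · intro s hs
    exact ⟨hk s hs.1, (decS F V).pow_mem hs.2 _⟩
  · intro T' hT' hf'
    exact h.dec T' hT' fun s hs hd => hf' s ⟨hs, hd⟩
  · intro d hd'
    exact hf d (IntermediateField.fixingSubgroup_antitone hNL hd'.1) hd'.2

/-- The action of the inertia group and multiplication by powers of p. -/
theorem lo_pow {Ω : Type} [Field Ω] [Algebra F Ω] {W : WeierstrassCurve F} {p : ℕ} {M : IntermediateField F Ω} {V : ValuationSubring Ω}
    (h : LocOk W p M V) {s : Ω ≃ₐ[F] Ω} (hs : s ∈ M.fixingSubgroup) (hi : Inert V s) (k : ℕ) (P : Pt W Ω)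
    (hP : p ^ k • (ac W s P - P) = 0) : ac W s P = P := by
  induction k with
  | zero =>
    rw [pow_zero, one_smul] at hP
    exact sub_eq_zero.1 hP
  | succ k ih =>
    apply ih
    have h1 : ac W s (p ^ k • P) = p ^ k • P := by
      refine h.inert s hs hi _ ?_
      rw [map_nsmul, ← smul_sub, ← mul_smul, ← pow_succ', hP]
    rw [map_nsmul, ← sub_eq_zero, ← smul_sub] at h1
    exact h1

variable [IQ F] {W₀ : WeierstrassCurve (𝓞 F)} {Om : ℂ} {m : Ideal (𝓞 F)} {ψ : Ideal (𝓞 F) →*₀ 𝓞 F} {p : ℕ}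

/-- The two cases at a prime of M which divides the discriminant. -/
theorem lo_cases (hH : BaseH F W₀ Om m ψ) (hp : PrimeH F W₀ p) {M L : IntermediateField F (AlgebraicClosure F)}
    [NumberField M] (hL : PExt p M L) (hOk : OkM p W₀ M) {N' : IntermediateField F (AlgebraicClosure F)} (hNL : N' ≤ L)
    {V : ValuationSubring (AlgebraicClosure F)} {v : HeightOneSpectrum (𝓞 M)} (hbel : Below V M v.asIdeal)
    (hΔ : algebraMap (𝓞 F) (𝓞 M) W₀.Δ ∈ v.asIdeal) :
    (∀ T : Pt (W₀⁄F) (AlgebraicClosure F), p • T = 0 → (∀ s ∈ N'.fixingSubgroup, Inert V s → ac (W₀⁄F) s T = T) → T = 0) ∨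
      LocOk (W₀⁄F) p M V := by
  by_cases hg : H55K.GoodAt ((W₀⁄F)⁄M) v
  · exact Or.inr (H55G.locOk_of hH hp hbel hΔ hg (hOk v hΔ hg))
  · exact Or.inl fun T hT hf => H55G.bad_tors1 hH hp hL hNL hg (fun a ha => (hbel a).1 ha) hΔ T hT hf

/-- No point of order p is fixed by the decomposition group. -/
theorem lo_main (hH : BaseH F W₀ Om m ψ) (hp : PrimeH F W₀ p) {M L : IntermediateField F (AlgebraicClosure F)}
    [NumberField M] (hL : PExt p M L) (hOk : OkM p W₀ M) {N' : IntermediateField F (AlgebraicClosure F)} (hNL : N' ≤ L)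
    {V : ValuationSubring (AlgebraicClosure F)} {v : HeightOneSpectrum (𝓞 M)} (hbel : Below V M v.asIdeal)
    (hΔ : algebraMap (𝓞 F) (𝓞 M) W₀.Δ ∈ v.asIdeal) (T : Pt (W₀⁄F) (AlgebraicClosure F)) (hT : p • T = 0)
    (hf : ∀ s ∈ N'.fixingSubgroup, Dec V s → ac (W₀⁄F) s T = T) : T = 0 := by
  rcases lo_cases hH hp hL hOk hNL hbel hΔ with h | h
  · exact h T hT fun s hs hi => hf s hs (inert_dec V s hi)
  · have hell : (W₀⁄F).IsElliptic := gen_ell W₀ hH.data.ell
    exact lo_dec hp.prime (tors_fin (Ω := AlgebraicClosure F) (W₀⁄F) p hp.prime.pos) hL h hNL T hT hf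

end H41G
end

-- from Lib.H41G.C
section

/-! # H41G: the relaxed places, the local conditions and the data TS, under OkM -/

open NumberField IsDedekindDomain WeierstrassCurve

namespace H41G

open H55P H55K H55K.TQ H55K.S
open H35P (WAB)
open H13S (Abv)
open H13X (DecN)
open H55G (OkM LocOk)
open H13T
open SSG (galS PP)

open scoped Classical

variable {F : Type} [Field F] [NumberField F] [IQ F] {W₀ : WeierstrassCurve (𝓞 F)} {Om : ℂ}
  {m : Ideal (𝓞 F)} {ψ : Ideal (𝓞 F) →*₀ 𝓞 F} {p n : ℕ} {M N' N : IntermediateField F (AlgebraicClosure F)}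
  {γ : AlgebraicClosure F ≃ₐ[F] AlgebraicClosure F}

/-- A relaxed place lies above a prime in AnW. -/
theorem c5_belowO (hH : BaseH F W₀ Om m ψ) (hp : PrimeH F W₀ p) [NumberField M] [NumberField N'] [NumberField N]
    (c : CycI p n M N' N γ) (hU : UnrP p N) (hB : OkM p W₀ M) {V : ValuationSubring (AlgebraicClosure F)}
    (hV : RV (W₀⁄F) p N' N V) : ∃ w ∈ AnW p W₀ N' N, Abv N' V w := by
  obtain ⟨⟨s, hs, hin, hsN⟩, T, hT0, hTp, hTf⟩ := hV
  have hPE := (c2_pext hp.prime.pos c).2.2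
  have hVt : V ≠ ⊤ := by
    rintro rfl
    apply hsN
    have h1 : s = 1 := by
      ext x
      by_contra hx
      have h2 := hin x (ValuationSubring.mem_top x)
      have h3 : s x - x ≠ 0 := sub_ne_zero.2 hx
      have h4 := ((⊤ : ValuationSubring (AlgebraicClosure F)).valuation_le_one_iff ((s x - x)⁻¹)).2 (ValuationSubring.mem_top _)
      rw [map_inv₀] at h4
      have h5 : 0 < (⊤ : ValuationSubring (AlgebraicClosure F)).valuation (s x - x) := zero_lt_iff.2 ((map_ne_zero _).2 h3)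
      exact absurd ((one_lt_inv₀ h5).2 h2) (not_lt.2 h4)
    rw [h1]
    exact one_mem _
  obtain ⟨w, hw⟩ := H13X.xg3_below (F := F) N' hVt
  have hbel : Below V N' w.asIdeal := fun x => by
    rw [← w.valuation_lt_one_iff_mem (K := N') x]
    exact (H13S.Abv.lt hw (x : N')).symm
  have hfN := c.fin
  have hfN' : FiniteDimensional F N' := H55P.s13_fin c.le'
  have hram : Ram N' N w.asIdeal := by
    by_contra hr
    refine hsN (H55P.inert_mem N' N c.le' hPE.norm V (fun v hv hrv => hr ?_) s hs hin)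
    have e : v.asIdeal = w.asIdeal := by
      ext x
      exact (hv x).trans (hbel x).symm
    rwa [e] at hrv
  have hpw : (p : 𝓞 N') ∉ w.asIdeal := H13R.g6_ram_p hp.prime hPE c.le' le_rfl hU hram
  have hΔ : algebraMap (𝓞 F) (𝓞 N') W₀.Δ ∉ w.asIdeal := by
    intro hΔw
    obtain ⟨v, hv, hvΔ⟩ := lo_below c.le hbel
    exact hT0 (lo_main hH hp (c2_pext hp.prime.pos c).1 hB c.le' hv ((hvΔ _).2 hΔw) T hTp fun t ht htd => hTf t ht htd)
  refine ⟨w, ⟨hΔ, hram, ?_⟩, hw⟩
  by_contra hc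
  exact hT0 (H55P.fix_local W₀ p hp.prime N' V w hbel hΔ hpw hc T hTp hTf)

/-- The decomposition group over M of a relaxed place fixes all points killed by p. -/
theorem c5_decO (hH : BaseH F W₀ Om m ψ) (hp : PrimeH F W₀ p) [NumberField M] [NumberField N'] [NumberField N]
    (c : CycI p n M N' N γ) (hU : UnrP p N) (hB : OkM p W₀ M) {V : ValuationSubring (AlgebraicClosure F)}
    (hV : RV (W₀⁄F) p N' N V) (φ : AlgebraicClosure F ≃ₐ[F] AlgebraicClosure F) (hφ : φ ∈ M.fixingSubgroup) (hd : Dec V φ)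
    (T : Pt (W₀⁄F) (AlgebraicClosure F)) (hT : p • T = 0) : ac (W₀⁄F) φ T = T := by
  obtain ⟨w, hw, hVw⟩ := c5_belowO hH hp c hU hB hV
  obtain ⟨-, T0, hT00, hT0p, hT0f⟩ := hV
  obtain ⟨A, B, j, act, hA, hB', dta⟩ := exists_dta hH hp
  obtain ⟨r, s, t, Θ, -, -, hΘ⟩ := H13R.r6_iso (Ω := AlgebraicClosure F) W₀ hH.data.ell hA hB'
  obtain ⟨T1, rfl⟩ := Θ.surjective T0
  have hT10 : T1 ≠ 0 := by
    rintro rfl
    exact hT00 (map_zero Θ)
  have hT1p : p • T1 = 0 := by
    apply Θ.injective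
    rw [map_nsmul, hT0p, map_zero]
  have hT1f : ∀ s, DecN N' V s → ac (WAB A B) s T1 = T1 := by
    intro s hs
    apply Θ.injective
    rw [← hΘ, hT0f s hs.1 hs.2]
  obtain ⟨k, hk⟩ := H55P.PExt.pow p hp.prime M N' (c2_pext hp.prime.pos c).2.1
  obtain ⟨S, rfl⟩ := Θ.surjective T
  have hS : p • S = 0 := by
    apply Θ.injective
    rw [map_nsmul, hT, map_zero]
  rw [hΘ]
  refine congrArg Θ (c4_pow dta dta.unr φ k (fun S' hS' => ?_) S hS)
  refine c3_fix dta dta.unr N' hVw (c5_p hp c hU hw) (c5_n hp c hU hw) hT10 hT1p hT1f _ ⟨hk φ hφ, ?_⟩ S' hS'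
  have h1 : φ ∈ H55P.decS F V := hd
  exact pow_mem h1 (p ^ k)

/-- The element of the decomposition group. -/
theorem c6_phiO (hH : BaseH F W₀ Om m ψ) (hp : PrimeH F W₀ p) [NumberField M] [NumberField N'] [NumberField N]
    (c : CycI p n M N' N γ) (hU : UnrP p N) (hB : OkM p W₀ M) (few : (AnW p W₀ N' N).ncard < p ^ n)
    {V : ValuationSubring (AlgebraicClosure F)} (hV : RV (W₀⁄F) p N' N V) :
    ∃ φ ∈ M.fixingSubgroup, Dec V φ ∧ φ⁻¹ * γ ^ p ^ (n - 1) ∈ N'.fixingSubgroup := by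
  have hfin : (AnW p W₀ N' N).Finite := c6_fin hp.prime.pos c
  have hgm : ∀ i : ℕ, γ ^ i ∈ M.fixingSubgroup := fun i => Subgroup.pow_mem _ c.gam i
  have hex : ∀ i : ℕ, ∃ w ∈ AnW p W₀ N' N, Abv N' (cV V (γ ^ i)) w := fun i =>
    c5_belowO hH hp c hU hB ((c1_rv (W₀⁄F) p N' N V (γ ^ i) (c2_iff c _ (hgm i)).1 (c2_iff c _ (hgm i)).2).2 hV)
  choose w hwA hwV using hex
  have hcard : hfin.toFinset.card < (Finset.range (p ^ n)).card := by
    rw [Finset.card_range, ← Set.ncard_eq_toFinset_card _ hfin]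
    exact few
  obtain ⟨i, hi, j, hj, hij, hw⟩ := Finset.exists_ne_map_eq_of_card_lt_of_maps_to hcard
    (f := w) (fun i _ => by
      rw [Finset.mem_coe, Set.Finite.mem_toFinset]
      exact hwA i)
  have hmain : ∀ i j : ℕ, i < j → j < p ^ n → w i = w j →
      ∃ φ ∈ M.fixingSubgroup, Dec V φ ∧ φ⁻¹ * γ ^ p ^ (n - 1) ∈ N'.fixingSubgroup := by
    intro i j hij hj hw
    have h1 := hwV i
    rw [hw] at h1
    obtain ⟨s, hs, hs'⟩ := H13X.trans_V N' h1 (hwV j)
    obtain ⟨δ, hδ⟩ : ∃ δ, δ = γ ^ j * s * (γ ^ i)⁻¹ := ⟨_, rfl⟩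
    have hdec : Dec V δ := by
      intro x
      have h2 := hs' ((γ ^ i)⁻¹ x)
      rw [mem_cV, mem_cV] at h2
      have h3 : (γ ^ i) ((γ ^ i)⁻¹ x) = x := (γ ^ i).apply_symm_apply x
      rw [h3] at h2
      rw [hδ]
      exact h2
    have hδ2 : δ = γ ^ (j - i) * (γ ^ i * s * (γ ^ i)⁻¹) := by
      have h4 : γ ^ j = γ ^ (j - i) * γ ^ i := by
        rw [← pow_add]
        congr 1
        omega
      rw [hδ, h4]
      group
    have hs'' : γ ^ i * s * (γ ^ i)⁻¹ ∈ N'.fixingSubgroup := ((c2_iff c _ (hgm i)).1 s).2 hs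
    have hNM : ∀ t, t ∈ N'.fixingSubgroup → t ∈ M.fixingSubgroup := fun t ht =>
      IntermediateField.fixingSubgroup_antitone c.le ht
    have hδM : δ ∈ M.fixingSubgroup := by
      rw [hδ2]
      exact mul_mem (hgm _) (hNM _ hs'')
    obtain ⟨e, he⟩ := c6_num hp.prime c.pos (show 0 < j - i by omega) (show j - i < p ^ n by omega)
    have hk : ∀ k : ℕ, (γ ^ ((j - i) * k))⁻¹ * δ ^ k ∈ N'.fixingSubgroup := by
      intro k
      induction k with
      | zero =>
        rw [mul_zero, pow_zero, pow_zero, inv_one, one_mul]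
        exact one_mem _
      | succ k ih =>
        have h5 : (γ ^ ((j - i) * (k + 1)))⁻¹ * δ ^ (k + 1) =
            ((γ ^ (j - i))⁻¹ * ((γ ^ ((j - i) * k))⁻¹ * δ ^ k) * ((γ ^ (j - i))⁻¹)⁻¹) *
              (γ ^ i * s * (γ ^ i)⁻¹) := by
          have h6 : γ ^ ((j - i) * (k + 1)) = γ ^ ((j - i) * k) * γ ^ (j - i) := by
            rw [mul_add, mul_one, pow_add]
          have h7 : γ ^ i * s * (γ ^ i)⁻¹ = (γ ^ (j - i))⁻¹ * δ := by
            rw [hδ2]
            group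
          rw [h6, h7, pow_succ, mul_inv_rev]
          simp only [mul_assoc, inv_inv, mul_inv_cancel_left]
        rw [h5]
        exact mul_mem (((c2_iff c _ (inv_mem (hgm (j - i)))).1 _).2 ih) hs''
    refine ⟨δ ^ e, Subgroup.pow_mem _ hδM e, ?_, ?_⟩
    · exact Subgroup.pow_mem (decS F V) (show δ ∈ decS F V from hdec) e
    · have h8 : (γ ^ ((j - i) * e))⁻¹ * γ ^ p ^ (n - 1) ∈ N'.fixingSubgroup := by
        rcases le_total ((j - i) * e) (p ^ (n - 1)) with h9 | h9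
        · have h10 : (γ ^ ((j - i) * e))⁻¹ * γ ^ p ^ (n - 1) = γ ^ (p ^ (n - 1) - (j - i) * e) := by
            rw [inv_mul_eq_iff_eq_mul, ← pow_add]
            congr 1
            omega
          rw [h10, c.mid]
          exact (Nat.modEq_iff_dvd' h9).1 he
        · have h10 : (γ ^ ((j - i) * e))⁻¹ * γ ^ p ^ (n - 1) = (γ ^ ((j - i) * e - p ^ (n - 1)))⁻¹ := by
            rw [inv_mul_eq_iff_eq_mul, eq_mul_inv_iff_mul_eq, ← pow_add]
            congr 1
            omega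
          rw [h10]
          apply inv_mem
          rw [c.mid]
          exact (Nat.modEq_iff_dvd' h9).1 he.symm
      have h11 : (δ ^ e)⁻¹ * γ ^ p ^ (n - 1) =
          ((γ ^ ((j - i) * e))⁻¹ * δ ^ e)⁻¹ * ((γ ^ ((j - i) * e))⁻¹ * γ ^ p ^ (n - 1)) := by
        group
      rw [h11]
      exact mul_mem (inv_mem (hk e)) h8
  rw [Finset.mem_range] at hi hj
  rcases lt_or_gt_of_ne hij with h | h
  · exact hmain i j h hj hw
  · exact hmain j i h hi hw.symm

/-- The local conditions at the places which are not relaxed. -/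
theorem c7_locO (hH : BaseH F W₀ Om m ψ) (hp : PrimeH F W₀ p) [NumberField M] [NumberField N'] [NumberField N]
    (c : CycI p n M N' N γ) (hU : UnrP p N) (hB : OkM p W₀ M) {V : ValuationSubring (AlgebraicClosure F)}
    (hV : ¬ RV (W₀⁄F) p N' N V) : (∀ s ∈ N'.fixingSubgroup, Inert V s → s ∈ N.fixingSubgroup) ∨
      ((∀ s ∈ N'.fixingSubgroup, Inert V s → ∀ (k : ℕ) (P : Pt (W₀⁄F) (AlgebraicClosure F)),
          p ^ k • (ac (W₀⁄F) s P - P) = 0 → ac (W₀⁄F) s P = P) ∧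
        ∀ T : Pt (W₀⁄F) (AlgebraicClosure F), p • T = 0 → (∀ s ∈ N'.fixingSubgroup, Dec V s → ac (W₀⁄F) s T = T) → T = 0) ∨
      (V.valuation (p : AlgebraicClosure F) = 1 ∧ ∀ T : Pt (W₀⁄F) (AlgebraicClosure F), p • T = 0 →
        (∀ s ∈ N'.fixingSubgroup, Inert V s → ac (W₀⁄F) s T = T) → T = 0) := by
  have hpp := hp.prime
  obtain ⟨hMN, -, hNN⟩ := c2_pext hpp.pos c
  have hfin : FiniteDimensional F N := c.fin
  have hfin' : FiniteDimensional F N' := inferInstance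
  rcases below_cases N' V with ⟨w, hw⟩ | h
  swap
  · left
    intro s _ hi
    rw [h s hi]
    exact one_mem _
  by_cases hin : ∀ s ∈ N'.fixingSubgroup, Inert V s → s ∈ N.fixingSubgroup
  · exact Or.inl hin
  right
  have hin' : ∃ s ∈ N'.fixingSubgroup, Inert V s ∧ s ∉ N.fixingSubgroup := by
    by_contra h1
    exact hin fun s hs hi => by
      by_contra h2
      exact h1 ⟨s, hs, hi, h2⟩
  have hno : ∀ T : Pt (W₀⁄F) (AlgebraicClosure F), p • T = 0 → (∀ s ∈ N'.fixingSubgroup, Dec V s → ac (W₀⁄F) s T = T) → T = 0 := by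
    intro T hT hs
    by_contra hT0
    exact hV ⟨hin', T, hT0, hT, hs⟩
  have hram : Ram N' N w.asIdeal := by
    by_contra hr
    refine hin (inert_mem N' N c.le' (fun s hs x hx => c.nrm s (IntermediateField.fixingSubgroup_antitone c.le hs) x hx) V fun v hv => ?_)
    have e1 : v = w := by
      apply HeightOneSpectrum.ext
      ext x
      rw [hv x, hw x]
    rw [e1]
    exact hr
  have hpw : (p : 𝓞 N') ∉ w.asIdeal := H13R.g6_ram_p hpp hNN c.le' le_rfl hU hram
  by_cases hΔ : algebraMap (𝓞 F) (𝓞 N') W₀.Δ ∈ w.asIdeal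
  · obtain ⟨v, hv, hvΔ⟩ := lo_below c.le hw
    rcases lo_cases hH hp hMN hB c.le' hv ((hvΔ _).2 hΔ) with h1 | h1
    · exact Or.inr ⟨val_below N' V w hw p hpw, h1⟩
    · exact Or.inl ⟨fun s hs hi k P h =>
        lo_pow h1 (IntermediateField.fixingSubgroup_antitone c.le hs) hi k P h, hno⟩
  · left
    exact ⟨fun s _ hi k P h => c5_red hH hp hΔ hpw hw s hi k P h, hno⟩

/-- The data TS. -/
theorem c9_tsO (hH : BaseH F W₀ Om m ψ) (hp : PrimeH F W₀ p) [NumberField M] [NumberField N'] [NumberField N]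
    (c : CycI p n M N' N γ) (hU : UnrP p N) (hB : OkM p W₀ M) (hS : SelG p W₀ N') (few : (AnW p W₀ N' N).ncard < p ^ n) :
    TS (SSG.galS (W₀⁄F) (AlgebraicClosure F)).act p (SSG.galS (W₀⁄F) (AlgebraicClosure F)).U (inS F) (decS F) N.fixingSubgroup
      N'.fixingSubgroup M.fixingSubgroup (γ ^ p ^ (n - 1)) (RV (W₀⁄F) p N' N) := by
  have hNf : FiniteDimensional F N := c.fin
  have hell : (W₀⁄F).IsElliptic := gen_ell W₀ hH.data.ell
  obtain ⟨hp1, hp2, hp3⟩ := c2_pext hp.prime.pos c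
  obtain ⟨he1, he2, he3⟩ := c2_eta c
  have hUM : UnrP p M := H13R.unr_le hp.prime (c.le.trans c.le') hU
  refine
    { hp := hp.prime
      hUi := ?_
      hUc := ?_
      hN := ⟨N, c.fin, rfl⟩
      hNH := IntermediateField.fixingSubgroup_antitone c.le'
      hHH := IntermediateField.fixingSubgroup_antitone c.le
      hcomm := c2_comm c
      hη := he1
      hηp := he2
      hηpp := he3
      hgen := c2_gen c
      hconj := fun g hg v => ⟨cV v g, fun s => c1_in v g s,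
        c1_rv (W₀⁄F) p N' N v g (c2_iff c g hg).1 (c2_iff c g hg).2⟩
      hDI := fun v φ hφ s hs => inS_dec v φ hφ s hs
      h0 := fun T hT hf => H13R.tors_KR hH hp hUM hp1 le_rfl T hT hf
      hdiv := fun T => div_pt (W₀⁄F) p hp.prime.pos T
      hfix := ?_
      hloc := ?_
      hR := ?_
      sel := (sel_iff (W₀⁄F) p N').1 hS }
  · rintro _ ⟨L, hL, rfl⟩ _ ⟨L', hL', rfl⟩
    exact ⟨L ⊔ L', IntermediateField.finiteDimensional_sup L L',
      (IntermediateField.fixingSubgroup_sup).symm⟩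
  · rintro _ ⟨L, hL, rfl⟩ g
    refine ⟨(L.map (g⁻¹ : AlgebraicClosure F ≃ₐ[F] AlgebraicClosure F).toAlgHom).fixingSubgroup, ⟨_, ?_, rfl⟩, ?_⟩
    · exact LinearEquiv.finiteDimensional
        (IntermediateField.equivMap L (g⁻¹ : AlgebraicClosure F ≃ₐ[F] AlgebraicClosure F).toAlgHom).toLinearEquiv
    · intro s hs
      rw [s3_mem] at hs ⊢
      intro x hx
      have h1 : g (g⁻¹ x) = x := g.apply_symm_apply x
      have h2 : s (g⁻¹ x) = g⁻¹ x := hs _ ⟨x, hx, rfl⟩
      rw [AlgEquiv.mul_apply, AlgEquiv.mul_apply, h2, h1]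
  · intro T
    obtain ⟨L, hL, h⟩ := pt_open (W₀⁄F) T
    exact ⟨L.fixingSubgroup, ⟨L, hL, rfl⟩, h⟩
  · intro v hv
    rcases c7_locO hH hp c hU hB hv with h | h | ⟨h1, h2⟩
    · exact Or.inl h
    · exact Or.inr (Or.inl h)
    · refine Or.inr (Or.inr fun d hd hpd hco => ?_)
      obtain ⟨O, ⟨L, hL, rfl⟩, hO⟩ := hco
      exact c7_cob hH hp v h1 h2 d hd hpd ⟨L, hL, hO⟩
  · intro v hv
    obtain ⟨w, hw, hwV⟩ := c5_belowO hH hp c hU hB hv
    have hbel : Below v N' w.asIdeal := fun x => by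
      rw [H13S.Abv.lt hwV (x : N')]
      exact (HeightOneSpectrum.valuation_lt_one_iff_mem w x).symm
    obtain ⟨φ, h1, h2, h3⟩ := c6_phiO hH hp c hU hB few hv
    exact ⟨fun s _ hs k P h => c5_red hH hp hw.1 (c5_p hp c hU hw) hbel s hs k P h,
      φ, h2, h1, h3, fun T hT => c5_decO hH hp c hU hB hv φ h1 h2 T hT⟩

end H41G
end

-- from Lib.H41G.CE
section

/-! # H41G: the classes, and the theorem over F, under OkM -/

open NumberField IsDedekindDomain WeierstrassCurve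

namespace H41G

open H55P (IQ embF eF LF Per IsHecke Pt ac acR Inert Dec Nm Coc PExt UnrP Ram RamF SelZero SelG inS decS Below)
open H35P (WAB Ker tt)
open H55K H55K.TQ
open H55K.S
open H13S (Abv)
open H13X
open H13R
open H13T
open H55G (OkM LocOk)

open scoped Classical

variable {F : Type} [Field F] [NumberField F] [IQ F] {W₀ : WeierstrassCurve (𝓞 F)} {Om : ℂ}
    {m : Ideal (𝓞 F)} {ψ : Ideal (𝓞 F) →*₀ 𝓞 F} {p n : ℕ} {M N' N : IntermediateField F (AlgebraicClosure F)}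
    [NumberField M] [NumberField N'] [NumberField N] {γ : AlgebraicClosure F ≃ₐ[F] AlgebraicClosure F}

/-- The relaxed places are the places above the primes in AnW. -/
theorem ce_rvO (hH : BaseH F W₀ Om m ψ) (hp : PrimeH F W₀ p) (c : CycI p n M N' N γ) (hB : OkM p W₀ M) (hU : UnrP p N)
    {V : ValuationSubring (AlgebraicClosure F)} {w : HeightOneSpectrum (𝓞 N')} (hV : Abv N' V w) :
    RV (W₀⁄F) p N' N V ↔ w ∈ AnW p W₀ N' N := by
  obtain ⟨hMN, -, hx⟩ := c2_pext hp.prime.pos c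
  have hfin : FiniteDimensional F N := c.fin
  have hfin' : FiniteDimensional F N' := H55P.finDim_of_le c.le'
  have hbel := ce_bel hV
  constructor
  · rintro ⟨⟨s, hs1, hs2, hs3⟩, T, hT0, hTp, hT⟩
    have hVp := ce_p hp hU hs2 hs3
    have hpw : (p : 𝓞 N') ∉ w.asIdeal := by
      intro h
      have h1 := (ce_val hV p).1 h
      rw [hVp] at h1
      exact lt_irrefl _ h1
    have hΔ : algebraMap (𝓞 F) (𝓞 N') W₀.Δ ∉ w.asIdeal := by
      intro hΔ
      obtain ⟨v, hv, hvΔ⟩ := lo_below c.le hbel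
      exact hT0 (lo_main hH hp hMN hB c.le' hv ((hvΔ _).2 hΔ) T hTp fun t ht htd => hT t ht htd)
    refine ⟨hΔ, ?_, ?_⟩
    · by_contra hr
      refine hs3 (H55P.inert_mem N' N c.le' hx.norm V (fun v hv => ?_) s hs1 hs2)
      have e : v = w := by
        apply HeightOneSpectrum.ext
        ext x
        rw [hv x, hbel x]
      rw [e]
      exact hr
    · by_contra hc
      exact hT0 (H55P.fix_local W₀ p hp.prime N' V w hbel hΔ hpw hc T hTp hT)
  · rintro ⟨hΔ, hr, hc⟩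
    obtain ⟨hpw, -, hs⟩ := ce_norm hp c hU hV hr
    refine ⟨hs, ?_⟩
    obtain ⟨A, B, j, act, hA, hB', dta⟩ := SSG.exists_dtaAB hH hp
    obtain ⟨Θ, hΘ⟩ := SSG.short_iso W₀ hA hB' hH.data.ell (Ω := AlgebraicClosure F)
    obtain ⟨T, hT0, hT, hfT⟩ := lk_decR dta.cma W₀ hH.data.ell hA hB' N' hΔ hV hp.prime hp.five hpw hc
    refine ⟨Θ.symm T, ?_, ?_, fun s hs hd => ?_⟩
    · rw [Ne, EmbeddingLike.map_eq_zero_iff]
      exact hT0
    · rw [← map_nsmul, hT, map_zero]
    · apply Θ.injective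
      rw [hΘ, Θ.apply_symm_apply, hfT s ⟨hs, hd⟩]


/-- The index set of the relaxed primes. -/
theorem ce_tiO (hH : BaseH F W₀ Om m ψ) (hp : PrimeH F W₀ p) (c : CycI p n M N' N γ) (hB : OkM p W₀ M) (hU : UnrP p N) :
    ∃ (v : AnW p W₀ N' N → ValuationSubring (AlgebraicClosure F)) (τ : AnW p W₀ N' N → AlgebraicClosure F ≃ₐ[F] AlgebraicClosure F),
      (∀ w : AnW p W₀ N' N, Abv N' (v w) w.1) ∧ (∀ w, τ w ∉ N.fixingSubgroup) ∧
      TI (inS F) N.fixingSubgroup N'.fixingSubgroup (RV (W₀⁄F) p N' N) (AnW p W₀ N' N) v τ := by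
  obtain ⟨hMN, -, hx⟩ := c2_pext hp.prime.pos c
  have hfin : FiniteDimensional F N := c.fin
  have hfin' : FiniteDimensional F N' := H55P.finDim_of_le c.le'
  choose v hv using fun w : AnW p W₀ N' N => H13S.exists_above (Ω := AlgebraicClosure F) N' w.1
  choose τ h1 h2 h3 using fun w : AnW p W₀ N' N => (ce_norm hp c hU (hv w) w.2.2.1).2.2
  refine ⟨v, τ, hv, h3, fun w => (ce_rvO hH hp c hB hU (hv w)).2 w.2, h1, h2, fun w s hs hi => ?_, fun u hu => ?_⟩
  · obtain ⟨k, hk⟩ := pow_coset hp.prime c.le' hx.norm c.deg' (h1 w) (h3 w) hs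
    refine ⟨k, _, hk, ?_, ?_⟩
    · exact mul_mem (inv_mem (pow_mem (h2 w) k)) hi
    · rw [mul_inv_cancel_left]
  · obtain ⟨w, hw⟩ := ce_below (ce_ne hu) N'
    have hwA := (ce_rvO hH hp c hB hU hw).1 hu
    obtain ⟨h, hh, hhx⟩ := trans_V N' hw (hv ⟨w, hwA⟩)
    refine ⟨⟨w, hwA⟩, h, hh, fun s => ⟨fun hs => ?_, fun hs => ?_⟩⟩
    · have e1 : ∀ x, h⁻¹ x ∈ u ↔ x ∈ v ⟨w, hwA⟩ := fun x => by
        rw [← hhx]
        have e2 : h (h⁻¹ x) = x := h.apply_symm_apply x
        rw [e2]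
      have h4 := inert_conj e1 hs
      rwa [inv_inv] at h4
    · have h4 := inert_conj hhx hs
      have e1 : h⁻¹ * (h * s * h⁻¹) * h = s := by group
      rwa [e1] at h4

/-- The classes. -/
theorem ce_clsO (hH : BaseH F W₀ Om m ψ) (hp : PrimeH F W₀ p) (c : CycI p n M N' N γ) (hB : OkM p W₀ M) (hU : UnrP p N)
    (hS : SelG p W₀ N') {v : AnW p W₀ N' N → ValuationSubring (AlgebraicClosure F)}
    {τ : AnW p W₀ N' N → AlgebraicClosure F ≃ₐ[F] AlgebraicClosure F} (hv : ∀ w : AnW p W₀ N' N, Abv N' (v w) w.1)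
    (hTI : TI (inS F) N.fixingSubgroup N'.fixingSubgroup (RV (W₀⁄F) p N' N) (AnW p W₀ N' N) v τ)
    (hτ' : ∀ w, τ w ∉ N.fixingSubgroup) (w : AnW p W₀ N' N)
    (T : Pt (W₀⁄F) (AlgebraicClosure F)) (hT : p • T = 0) :
    ∃ d : (AlgebraicClosure F ≃ₐ[F] AlgebraicClosure F) → Pt (W₀⁄F) (AlgebraicClosure F),
      RC (SSG.galS (W₀⁄F) (AlgebraicClosure F)).act p (SSG.galS (W₀⁄F) (AlgebraicClosure F)).U (inS F) N.fixingSubgroup
        N'.fixingSubgroup (RV (W₀⁄F) p N' N) d ∧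
      (∀ J ∈ (SSG.galS (W₀⁄F) (AlgebraicClosure F)).D, Tr (SSG.galS (W₀⁄F) (AlgebraicClosure F)).act N.fixingSubgroup J d) ∧
      d (τ w) = T ∧ ∀ w' : AnW p W₀ N' N, w' ≠ w → d (τ w') = 0 := by
  obtain ⟨hMN, -, hx⟩ := c2_pext hp.prime.pos c
  have hfin : FiniteDimensional F N := c.fin
  have hfin' : FiniteDimensional F N' := H55P.finDim_of_le c.le'
  obtain ⟨A, B, j, act, hA, hB', dta⟩ := SSG.exists_dtaAB hH hp
  obtain ⟨Θ, hΘ⟩ := SSG.short_iso W₀ hA hB' hH.data.ell (Ω := AlgebraicClosure F)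
  obtain ⟨π, hπ, hπp⟩ := exists_prime_above (F := F) hp.prime
  have D : Dat A B Om j act m ψ π p := ⟨dta, hπ, hπp⟩
  have hUN' := ce_unr hp c hU
  have hΘ' : ∀ (s : AlgebraicClosure F ≃ₐ[F] AlgebraicClosure F) (P : Pt (WAB A B) (AlgebraicClosure F)),
      Θ.symm (ac (WAB A B) s P) = ac (W₀⁄F) s (Θ.symm P) := fun s P => by
    apply Θ.injective
    rw [hΘ, Θ.apply_symm_apply, Θ.apply_symm_apply]
  have hS' : SelZero (WAB A B) p N' := y6_transport p N' Θ.symm hΘ' hS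
  obtain ⟨hpw, -, -⟩ := ce_norm hp c hU (hv w) w.2.2.1
  obtain ⟨d, hd, hdτ⟩ := e_two D (N := N') (N' := N) (nb_ofR hp.prime hp.unr hUN') hfin hUN' c.le' hx.norm c.deg' hpw w.2.2.1
    (fun V hV s hs S hS => ce_fixW hH hp c hU hA hB' dta hV w.2 s hs S hS) hS' (hv w) (hTI.mem w) (hTI.ine w) (hτ' w)
    (T := Θ T) (by rw [← map_nsmul, hT, map_zero])
  refine ⟨fun s => Θ.symm (d s), ⟨fun s hs t ht => ?_, ?_, fun s hs => ?_, fun V hV => ?_, fun V hV s hs hi => ?_⟩, fun J hJ => ?_,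
    ?_, fun w' hw' => ?_⟩
  · show Θ.symm (d (s * t)) = Θ.symm (d s) + ac (W₀⁄F) s (Θ.symm (d t))
    rw [hd.coc.mul s hs t ht, map_add, hΘ']
  · obtain ⟨L, hL, hdL⟩ := hd.coc.cont
    refine ⟨L.fixingSubgroup, ⟨L, hL, rfl⟩, fun s hs hsL => ?_⟩
    show Θ.symm (d s) = 0
    rw [hdL s hs hsL, map_zero]
  · show p • Θ.symm (d s) = 0
    rw [← map_nsmul, hd.tor s hs, map_zero]
  · by_cases hne : V = ⊤
    · refine ⟨0, fun s hs hi => ?_⟩
      have hi' : Inert V s := hi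
      rw [hne] at hi'
      rw [map_zero, sub_zero, ce_top hi']
      show Θ.symm (d 1) = 0
      obtain ⟨L, hL, hdL⟩ := hd.coc.cont
      rw [hdL 1 (one_mem _) (one_mem _), map_zero]
    · obtain ⟨P, hP⟩ := hd.loc V hne (by
        rintro w' rfl hVw
        exact hV ((ce_rvO hH hp c hB hU hVw).2 w.2))
      refine ⟨Θ.symm P, fun s hs hi => ?_⟩
      show Θ.symm (d s) = ac (W₀⁄F) s (Θ.symm P) - Θ.symm P
      rw [hP s hs (H55P.inert_dec V s hi), map_sub, hΘ']
  · have hs' : s ∈ N'.fixingSubgroup := IntermediateField.fixingSubgroup_antitone c.le' hs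
    have hi' : Inert V s := hi
    obtain ⟨w', hw'⟩ := ce_below (ce_ne hV) N'
    have hwA := (ce_rvO hH hp c hB hU hw').1 hV
    have hVp : V.valuation (p : AlgebraicClosure F) = 1 := by
      obtain ⟨⟨t, -, ht2, ht3⟩, -⟩ := hV
      exact ce_p hp hU ht2 ht3
    show Θ.symm (d s) = 0
    by_cases hww : w' = w.1
    · obtain ⟨P, hP⟩ := hd.loc' V (ce_ne hV)
      have h1 := hP s hs (H55P.inert_dec V s hi')
      have hG : H35P.GoodW ((W₀⁄F)⁄(AlgebraicClosure F)) V := H55P.good_below W₀ N' V w' (ce_bel hw') hwA.1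
      have h2 : ac (W₀⁄F) s (Θ.symm P) = Θ.symm P := by
        refine H55P.red_fix (W₀⁄F) V hG p hVp s hi' (Θ.symm P) ?_
        rw [← hΘ', ← map_sub, ← map_nsmul, ← h1, hd.tor s hs', map_zero]
      rw [h1, map_sub, hΘ', h2, sub_self]
    · rw [hd.out V (by
        rintro v' rfl hv'
        exact hww (abv_unique hw' hv')) hVp s hs' hi' (fun S hS =>
          ce_fixW hH hp c hU hA hB' dta hw' hwA s ⟨hs', H55P.inert_dec V s hi'⟩ S hS), map_zero]
  · obtain ⟨V, hV, rfl⟩ := hJ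
    obtain ⟨P, hP⟩ := hd.loc' V hV
    refine ⟨Θ.symm P, fun s hs hi => ?_⟩
    show Θ.symm (d s) = ac (W₀⁄F) s (Θ.symm P) - Θ.symm P
    rw [hP s hs hi, map_sub, hΘ']
  · show Θ.symm (d (τ w)) = T
    rw [hdτ, Θ.symm_apply_apply]
  · have hVp : (v w').valuation (p : AlgebraicClosure F) = 1 := ce_p hp hU (hTI.ine w') (hτ' w')
    show Θ.symm (d (τ w')) = 0
    rw [hd.out (v w') (by
        rintro v' hv1 hv'
        apply hw'
        apply Subtype.ext
        rw [abv_unique (hv w') hv']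
        exact hv1) hVp (τ w') (hTI.mem w') (hTI.ine w') (fun S hS =>
          ce_fixW hH hp c hU hA hB' dta (hv w') w'.2 (τ w') ⟨hTI.mem w', H55P.inert_dec (v w') (τ w') (hTI.ine w')⟩ S hS), map_zero]

/-- MODULE CE. -/
theorem ce_mainO (hH : BaseH F W₀ Om m ψ) (hp : PrimeH F W₀ p) (c : CycI p n M N' N γ) (hB : OkM p W₀ M) (hU : UnrP p N)
    (hS : SelG p W₀ N') :
    ∃ (v : AnW p W₀ N' N → ValuationSubring (AlgebraicClosure F)) (τ : AnW p W₀ N' N → AlgebraicClosure F ≃ₐ[F] AlgebraicClosure F),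
      TI (inS F) N.fixingSubgroup N'.fixingSubgroup (RV (W₀⁄F) p N' N) (AnW p W₀ N' N) v τ ∧
      ∀ (w : AnW p W₀ N' N) (T : Pt (W₀⁄F) (AlgebraicClosure F)), p • T = 0 →
        ∃ d : (AlgebraicClosure F ≃ₐ[F] AlgebraicClosure F) → Pt (W₀⁄F) (AlgebraicClosure F),
          RC (SSG.galS (W₀⁄F) (AlgebraicClosure F)).act p (SSG.galS (W₀⁄F) (AlgebraicClosure F)).U (inS F) N.fixingSubgroup
            N'.fixingSubgroup (RV (W₀⁄F) p N' N) d ∧
          (∀ J ∈ (SSG.galS (W₀⁄F) (AlgebraicClosure F)).D, Tr (SSG.galS (W₀⁄F) (AlgebraicClosure F)).act N.fixingSubgroup J d) ∧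
          d (τ w) = T ∧ ∀ w' : AnW p W₀ N' N, w' ≠ w → d (τ w') = 0 := by
  obtain ⟨v, τ, h1, h3, h2⟩ := ce_tiO hH hp c hB hU
  exact ⟨v, τ, h2, fun w T hT => ce_clsO hH hp c hB hU hS h1 h2 h3 w T hT⟩

open SSG in
/-- The theorem over F. -/
theorem c11_mainO (hH : BaseH F W₀ Om m ψ) (hp : PrimeH F W₀ p) 
    (c : CycI p n M N' N γ) (hU : UnrP p N) (hB : OkM p W₀ M) (hS : SelG p W₀ N') (few : (AnW p W₀ N' N).ncard < p ^ n) :
    Nat.card (PP p ((galS (W₀⁄F) (AlgebraicClosure F)).res N.fixingSubgroup).Sha) = p ^ (2 * (AnW p W₀ N' N).ncard) ∧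
      KP p ((galS (W₀⁄F) (AlgebraicClosure F)).res N.fixingSubgroup).Sha ∧
      {P : Pt (W₀⁄F) (AlgebraicClosure F) | ∀ s ∈ N.fixingSubgroup, ac (W₀⁄F) s P = P}.Finite ∧
      ∀ P : Pt (W₀⁄F) (AlgebraicClosure F), (∀ s ∈ N.fixingSubgroup, ac (W₀⁄F) s P = P) → p • P = 0 → P = 0 := by
  obtain ⟨v, τ, hT, hE⟩ := ce_mainO hH hp c hB hU hS
  have S := c9_tsO hH hp c hU hB hS few
  have hfin : Finite {w // w ∈ AnW p W₀ N' N} := c6_fin hp.prime.pos c
  obtain ⟨h1, h2⟩ := ts_card S hT (c9_hI (W₀⁄F)) hE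
  have hell : (W₀⁄F).IsElliptic := H55P.gen_ell W₀ hH.data.ell
  have hfd : FiniteDimensional F N := c.fin
  refine ⟨?_, h2, ?_, fun P h3 h4 => S.h0 P h4 h3⟩
  · rw [h1, c11_two hH hp, ← pow_mul]
    rfl
  · refine c11_fin (W₀⁄F) p hp.prime N fun P hP => ?_
    obtain ⟨Q, hQ, hQ'⟩ := pts_div S P hP
    exact ⟨Q, hQ, hQ'⟩

end H41G
end

-- from Lib.H57N.E5
section

/-! # H57N, chunk E5: the isogenous curves -/

open NumberField IsDedekindDomain WeierstrassCurve

namespace H57N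

open H28T
open H55P H55R
open H55K H55K.TQ
open H28I

/-- Chunk E5 (S). The numbers of points agree: H13R.i1_pts (over L: [Algebra F L]) and H28I.tw_deu (over F), H28I.tw_supp for the discriminants; so DownP for W' follows from a2_down for W (h.base, (tw_prime h).1 hp'). -/
theorem e5_down {F : Type} [Field F] [NumberField F] [IQ F] {W W' : WeierstrassCurve ℤ} {Om : ℂ} {m : Ideal (𝓞 F)}
    {ψ : Ideal (𝓞 F) →*₀ 𝓞 F} {kap : ℤ} {e t u lam : ℚ} {p : ℕ} (h : TW F W W' Om m ψ kap e t u lam) (hp' : PrimeH F (W'⁄(𝓞 F)) p) :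
    DownP (W'⁄(𝓞 F)) p := by
  intro L _ _ _ _ hk w v hvw hΔ' hd
  have hΔ : (W⁄(𝓞 F)).Δ ∉ v.asIdeal := mt (tw_supp h v).2 hΔ'
  have hΔw : algebraMap (𝓞 F) (𝓞 L) (W⁄(𝓞 F)).Δ ∉ w.asIdeal := by
    intro h1
    apply hΔ
    rw [hvw]
    exact h1
  rw [H13R.i1_pts h w hΔw] at hd
  rw [(tw_deu h v hΔ').1]
  exact a2_down h.base ((tw_prime h).1 hp') L hk w v hvw hΔ hd

/-- Chunk E5 (S). The same for ManyQ (d4_manyQ for W, tw_deu, tw_supp). -/
theorem e5_manyQ {F : Type} [Field F] [NumberField F] [IQ F] {W W' : WeierstrassCurve ℤ} {Om : ℂ} {m : Ideal (𝓞 F)}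
    {ψ : Ideal (𝓞 F) →*₀ 𝓞 F} {kap : ℤ} {e t u lam : ℚ} {p : ℕ} (h : TW F W W' Om m ψ kap e t u lam) (hp' : PrimeH F (W'⁄(𝓞 F)) p) :
    ManyQ (W'⁄(𝓞 F)) p := by
  obtain ⟨L0, hL0⟩ := d4_manyQ h.base ((tw_prime h).1 hp')
  refine ⟨L0, fun l hl hl0 Bd => ?_⟩
  obtain ⟨q, hq, hB, hpq, ho, v, hv, hΔ, hd⟩ := hL0 l hl hl0 Bd
  have hΔ' : (W'⁄(𝓞 F)).Δ ∉ v.asIdeal := mt (tw_supp h v).1 hΔ
  exact ⟨q, hq, hB, hpq, ho, v, hv, hΔ', by rw [(tw_deu h v hΔ').1]; exact hd⟩

end H57N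
end
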