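import Mathlib
import Pool.Agent.Lib.H1M.PP2.M051
import Pool.Agent.Lib.H1M.PP2.M074
import Pool.Agent.Lib.H1M.PP2.M110
import Pool.Agent.Lib.H1M.PP2.M148
import Pool.Agent.Lib.H1M.PP2.M150
import Pool.Agent.Lib.H1M.PP2.M162
import Pool.Agent.Lib.H1M.PP2.M165
import Pool.Agent.Lib.H1M.PP2.M167

/-! Merged copies (to shorten the build) of Lib.SSG.Z.A8, Lib.SSG.Z.AM, Lib.H19A.Res, Lib.H55G.S1. -/

-- from Lib.SSG.Z.A8
section

/-! # SSG/Z, A8: a totally split prime and the decomposition groups -/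

open NumberField IsDedekindDomain WeierstrassCurve

namespace SSG

open H55P (UnrP Dec Below)

/-- Every integer of M is congruent to an integer of F modulo a prime of degree one. -/
theorem a8_res {F M : Type} [Field F] [NumberField F] [Field M] [NumberField M] [Algebra F M] (w : HeightOneSpectrum (𝓞 M))
    (hf : w.asIdeal.inertiaDeg (𝓞 F) = 1) (x : 𝓞 M) : ∃ y : 𝓞 F, x - algebraMap (𝓞 F) (𝓞 M) y ∈ w.asIdeal := by
  have hwm := w.isMaximal
  have hm : (w.asIdeal.under (𝓞 F)).IsMaximal := inferInstance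
  rw [Ideal.inertiaDeg_eq_of_isMaximal (w.asIdeal.under (𝓞 F)) w.asIdeal] at hf
  let _ : Field (𝓞 F ⧸ w.asIdeal.under (𝓞 F)) := Ideal.Quotient.field _
  let _ : Field (𝓞 M ⧸ w.asIdeal) := Ideal.Quotient.field _
  obtain ⟨y, hy⟩ := (finrank_eq_one_iff_of_nonzero' (1 : 𝓞 M ⧸ w.asIdeal) one_ne_zero).1 hf (Ideal.Quotient.mk w.asIdeal x)
  obtain ⟨y, rfl⟩ := Ideal.Quotient.mk_surjective y
  refine ⟨y, ?_⟩
  rw [← Ideal.Quotient.eq, ← hy, Algebra.smul_def, mul_one]
  rfl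

/-- If p is unramified at w and w of degree one over F then F is dense. -/
theorem a8_dense {F M : Type} [Field F] [NumberField F] [Field M] [NumberField M] [Algebra F M] {p : ℕ} (w : HeightOneSpectrum (𝓞 M))
    (hp : (p : 𝓞 M) ∈ w.asIdeal) (hu : (p : 𝓞 M) ∉ w.asIdeal ^ 2)
    (hf : w.asIdeal.inertiaDeg (𝓞 F) = 1) (n : ℕ) (x : 𝓞 M) :
    ∃ (y : 𝓞 F) (c z : 𝓞 M), c ∉ w.asIdeal ∧ c * (x - algebraMap (𝓞 F) (𝓞 M) y) = (p : 𝓞 M) ^ n * z := by
  have hwm := w.isMaximal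
  have hwp := w.isPrime
  -- a multiplier
  obtain ⟨a, ha, hab⟩ : ∃ a : 𝓞 M, a ∉ w.asIdeal ∧ ∀ t ∈ w.asIdeal, ∃ z, a * t = p * z := by
    have h1 : w.asIdeal ∣ Ideal.span {(p : 𝓞 M)} := by
      rw [Ideal.dvd_span_singleton]
      exact hp
    obtain ⟨J, hJ⟩ := h1
    have h2 : ¬ J ≤ w.asIdeal := by
      intro h3
      apply hu
      have h4 : Ideal.span {(p : 𝓞 M)} ≤ w.asIdeal ^ 2 := by
        rw [hJ, pow_two]
        exact Ideal.mul_mono_right h3
      exact h4 (Ideal.mem_span_singleton_self _)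
    obtain ⟨a, ha, ha'⟩ := Set.not_subset.1 h2
    refine ⟨a, ha', fun t ht => ?_⟩
    have h5 : a * t ∈ Ideal.span {(p : 𝓞 M)} := by
      rw [hJ, mul_comm a t]
      exact Ideal.mul_mem_mul ht ha
    obtain ⟨z, hz⟩ := Ideal.mem_span_singleton.1 h5
    exact ⟨z, hz⟩
  induction n generalizing x with
  | zero => exact ⟨0, 1, x, fun h => hwp.ne_top ((Ideal.eq_top_iff_one _).2 h), by rw [map_zero, sub_zero, pow_zero, mul_comm]⟩
  | succ n ih =>
    obtain ⟨y, c, z, hc, hz⟩ := ih x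
    obtain ⟨d, hd⟩ : ∃ d : 𝓞 F, c * algebraMap (𝓞 F) (𝓞 M) d - 1 ∈ w.asIdeal := by
      obtain ⟨c', hc'⟩ := Ideal.Quotient.exists_inv (I := w.asIdeal) (a := Ideal.Quotient.mk _ c) (fun h => hc (Ideal.Quotient.eq_zero_iff_mem.1 h))
      obtain ⟨c', rfl⟩ := Ideal.Quotient.mk_surjective c'
      have h1 : c * c' - 1 ∈ w.asIdeal := by
        rw [← Ideal.Quotient.eq, map_mul, map_one]
        exact hc'
      obtain ⟨d, hd⟩ := a8_res w hf c'
      refine ⟨d, ?_⟩
      have e1 : c * algebraMap (𝓞 F) (𝓞 M) d - 1 = (c * c' - 1) - c * (c' - algebraMap (𝓞 F) (𝓞 M) d) := by ring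
      rw [e1]
      exact Ideal.sub_mem _ h1 (Ideal.mul_mem_left _ _ hd)
    obtain ⟨e, he⟩ := a8_res w hf z
    have ht : z - c * algebraMap (𝓞 F) (𝓞 M) (d * e) ∈ w.asIdeal := by
      have e1 : z - c * algebraMap (𝓞 F) (𝓞 M) (d * e) = (z - algebraMap (𝓞 F) (𝓞 M) e) -
          (c * algebraMap (𝓞 F) (𝓞 M) d - 1) * algebraMap (𝓞 F) (𝓞 M) e := by
        rw [map_mul]
        ring
      rw [e1]
      exact Ideal.sub_mem _ he (Ideal.mul_mem_right _ _ hd)
    obtain ⟨z', hz'⟩ := hab _ ht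
    refine ⟨y + (p : 𝓞 F) ^ n * (d * e), a * c, z', fun h => ?_, ?_⟩
    · exact (hwp.mem_or_mem h).elim ha hc
    · have e1 : a * c * (x - algebraMap (𝓞 F) (𝓞 M) (y + (p : 𝓞 F) ^ n * (d * e))) =
          a * (c * (x - algebraMap (𝓞 F) (𝓞 M) y)) - (p : 𝓞 M) ^ n * (a * (c * algebraMap (𝓞 F) (𝓞 M) (d * e))) := by
        rw [map_add, map_mul, map_pow, map_natCast]
        ring
      rw [e1, hz, pow_succ, mul_assoc ((p : 𝓞 M) ^ n) (p : 𝓞 M) z', ← hz']
      ring

/-- If p is totally split in M/F the decomposition groups above p fix M. -/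
theorem spl_dec {F : Type} [Field F] [NumberField F] {p : ℕ} (hp : p.Prime) {Ω : Type} [Field Ω] [Algebra F Ω] [IsAlgClosure F Ω]
    (M : IntermediateField F Ω) [NumberField M] (hS : H55Z.Spl F p M) (hU : UnrP p M)
    (V : ValuationSubring Ω) (hV : V.valuation (p : Ω) < 1) (s : Ω ≃ₐ[F] Ω) (hs : Dec V s) : s ∈ M.fixingSubgroup := by
  have hac : IsAlgClosed Ω := IsAlgClosure.isAlgClosed F
  have hal : Algebra.IsAlgebraic F Ω := IsAlgClosure.isAlgebraic
  have hchar : CharZero Ω := charZero_of_injective_algebraMap (algebraMap F Ω).injective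
  have hfd : FiniteDimensional F M := Module.Finite.of_restrictScalars_finite ℚ F M
  have hp0 : V.valuation (p : Ω) ≠ 0 := (Valuation.ne_zero_iff _).2 (Nat.cast_ne_zero.2 hp.ne_zero)
  -- the place of M
  obtain ⟨w, hw⟩ : ∃ w : HeightOneSpectrum (𝓞 M), Below V M w.asIdeal := by
    refine ⟨⟨H16C.plc M V, inferInstance, fun h => ?_⟩, fun x => Iff.rfl⟩
    have h1 : ((p : ℕ) : 𝓞 M) ∈ H16C.plc M V := by
      rw [H16C.mem_plc]
      have e1 : ((((p : ℕ) : 𝓞 M) : M) : Ω) = (p : Ω) := by simp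
      rw [e1]
      exact hV
    rw [h, Ideal.mem_bot] at h1
    exact hp.ne_zero (by exact_mod_cast h1)
  have hpw : (p : 𝓞 M) ∈ w.asIdeal := by
    rw [hw]
    have e1 : ((((p : ℕ) : 𝓞 M) : M) : Ω) = (p : Ω) := by simp
    rw [e1]
    exact hV
  have hpw2 : (p : 𝓞 M) ∉ w.asIdeal ^ 2 := by
    intro h
    have h1 : w.asIdeal * w.asIdeal ∣ Ideal.span {(p : 𝓞 M)} := by
      rw [← pow_two, Ideal.dvd_span_singleton]
      exact h
    exact w.isPrime.ne_top (Ideal.isUnit_iff.1 (hU _ h1))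
  -- valuations
  have hle : ∀ z : 𝓞 M, V.valuation ((z : M) : Ω) ≤ 1 := fun z => H16C.FR_le_one V (H16C.FR_isIntegral M z)
  have hone : ∀ z : 𝓞 M, z ∉ w.asIdeal → V.valuation ((z : M) : Ω) = 1 := fun z hz =>
    le_antisymm (hle z) (not_lt.1 fun h => hz ((hw z).2 h))
  -- the difference is divisible by all powers of p
  have key : ∀ (x : 𝓞 M) (n : ℕ), V.valuation (s ((x : M) : Ω) - ((x : M) : Ω)) ≤ V.valuation (p : Ω) ^ n := by
    intro x n
    obtain ⟨y, c, z, hc, hz⟩ := a8_dense w hpw hpw2 (hS w hpw).2 n x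
    obtain ⟨u, hu⟩ : ∃ u : Ω, u = ((x : M) : Ω) - algebraMap F Ω (y : F) := ⟨_, rfl⟩
    have h1 : ((c : M) : Ω) * u = (p : Ω) ^ n * ((z : M) : Ω) := by
      have h2 := congrArg (fun t : 𝓞 M => ((t : M) : Ω)) hz
      have h3 : (((algebraMap (𝓞 F) (𝓞 M) y : 𝓞 M) : M) : Ω) = algebraMap F Ω (y : F) := by
        have h4 : ((algebraMap (𝓞 F) (𝓞 M) y : 𝓞 M) : M) = algebraMap F M (y : F) := rfl
        rw [h4]
        rfl
      simp only [map_mul, map_sub, map_pow, map_natCast, MulMemClass.coe_mul, AddSubgroupClass.coe_sub, SubmonoidClass.coe_pow, SubringClass.coe_natCast, h3] at h2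
      rw [hu]
      exact h2
    have hpn : (p : Ω) ^ n ≠ 0 := pow_ne_zero _ (Nat.cast_ne_zero.2 hp.ne_zero)
    have h2 : u / (p : Ω) ^ n ∈ V := by
      rw [← V.valuation_le_one_iff, map_div₀]
      have h3 := congrArg V.valuation h1
      rw [map_mul, map_mul, hone c hc, one_mul] at h3
      rw [h3, mul_div_assoc, mul_comm, div_mul_cancel₀ _ (by rw [map_pow]; exact pow_ne_zero _ hp0)]
      exact hle z
    have h4 : s (u / (p : Ω) ^ n) ∈ V := (hs _).2 h2
    have h5 : V.valuation u ≤ V.valuation (p : Ω) ^ n := by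
      have h6 := (V.valuation_le_one_iff _).2 h2
      rw [map_div₀, map_pow] at h6
      exact (div_le_one₀ (zero_lt_iff.2 (pow_ne_zero _ hp0))).1 h6
    have h5' : V.valuation (s u) ≤ V.valuation (p : Ω) ^ n := by
      have h6 := (V.valuation_le_one_iff _).2 h4
      rw [map_div₀ s, map_pow s, map_natCast s, map_div₀, map_pow] at h6
      exact (div_le_one₀ (zero_lt_iff.2 (pow_ne_zero _ hp0))).1 h6
    have h7 : s ((x : M) : Ω) - ((x : M) : Ω) = s u - u := by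
      rw [hu, map_sub, s.commutes]
      ring
    rw [h7]
    exact (V.valuation.map_sub _ _).trans (max_le h5' h5)
  -- so it is zero
  have hzero : ∀ d : Ω, (∀ n : ℕ, V.valuation d ≤ V.valuation (p : Ω) ^ n) → d = 0 := by
    intro d hd
    by_contra hd0
    have halg : IsAlgebraic ℤ d⁻¹ := by
      have h1 : Algebra.IsAlgebraic ℚ F := inferInstance
      have h2 : Algebra.IsAlgebraic ℚ Ω := Algebra.IsAlgebraic.trans ℚ F Ω
      exact (IsFractionRing.isAlgebraic_iff ℤ ℚ Ω).2 (h2.isAlgebraic d⁻¹)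
    obtain ⟨m, hm0, hm⟩ := halg.exists_integral_multiple
    have h1 : V.valuation (m • d⁻¹) ≤ 1 := H16C.FR_le_one V hm
    rw [zsmul_eq_mul, map_mul, map_inv₀] at h1
    have hvd : V.valuation d ≠ 0 := (Valuation.ne_zero_iff _).2 hd0
    have h2 : V.valuation (m : Ω) ≤ V.valuation d := by
      have h3 := mul_le_mul_left h1 (V.valuation d)
      rw [mul_assoc, inv_mul_cancel₀ hvd, mul_one, one_mul] at h3
      exact h3
    obtain ⟨k, m', hm', hmk⟩ : ∃ (k : ℕ) (m' : ℤ), ¬ (p : ℤ) ∣ m' ∧ m = (p : ℤ) ^ k * m' := by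
      have h3 : FiniteMultiplicity (p : ℤ) m := by
        rw [Int.finiteMultiplicity_iff]
        refine ⟨?_, hm0⟩
        rw [Int.natAbs_natCast]
        exact hp.one_lt.ne'
      obtain ⟨c, hc1, hc2⟩ := h3.exists_eq_pow_mul_and_not_dvd
      exact ⟨_, c, hc2, hc1⟩
    have hm1 : V.valuation (m' : Ω) = 1 := by
      have hint : ∀ k : ℤ, V.valuation (k : Ω) ≤ 1 := fun k => by
        have h := V.valuation_le_one (k : V)
        exact_mod_cast h
      refine le_antisymm (hint m') (not_lt.1 fun hlt => ?_)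
      have h3 : IsCoprime (p : ℤ) m' := (Nat.prime_iff_prime_int.1 hp).coprime_iff_not_dvd.2 hm'
      obtain ⟨a, b, hab⟩ := h3
      have h4 : (1 : Ω) = (a : Ω) * (p : Ω) + (b : Ω) * (m' : Ω) := by exact_mod_cast hab.symm
      have h5 : V.valuation (1 : Ω) < 1 := by
        rw [h4]
        refine (V.valuation.map_add _ _).trans_lt (max_lt ?_ ?_)
        · rw [map_mul]
          exact (mul_le_of_le_one_left' (hint a)).trans_lt hV
        · rw [map_mul]
          exact (mul_le_of_le_one_left' (hint b)).trans_lt hlt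
      rw [map_one] at h5
      exact lt_irrefl _ h5
    have h3 := h2.trans (hd (k + 1))
    rw [hmk, Int.cast_mul, Int.cast_pow, Int.cast_natCast, map_mul, map_pow, hm1, mul_one, pow_succ] at h3
    have h4 : V.valuation (p : Ω) ^ k * V.valuation (p : Ω) < V.valuation (p : Ω) ^ k * 1 :=
      mul_lt_mul_of_pos_left hV (zero_lt_iff.2 (pow_ne_zero _ hp0))
    rw [mul_one] at h4
    exact absurd h3 (not_le.2 h4)
  rw [IntermediateField.mem_fixingSubgroup_iff]
  intro x hx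
  obtain ⟨a, b, hb, hab⟩ := IsFractionRing.div_surjective (A := 𝓞 M) (⟨x, hx⟩ : M)
  have ea := sub_eq_zero.1 (hzero _ (key a))
  have eb := sub_eq_zero.1 (hzero _ (key b))
  have ex : x = ((a : M) : Ω) / ((b : M) : Ω) := by
    have h1 := congrArg (fun t : M => (t : Ω)) hab
    exact h1.symm
  rw [ex]
  show s (((a : M) : Ω) / ((b : M) : Ω)) = _
  rw [map_div₀, ea, eb]

end SSG
end

-- from Lib.SSG.Z.AM
section

/-! # SSG/Z: the algebraic side, from the local facts -/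

open NumberField IsDedekindDomain WeierstrassCurve

namespace SSG

open H55P (IQ embF eF LF Per IsHecke Pt ac Inert Dec Nm UnitP UnrP PExt)
open H35P (WAB Ker tt GoodW IntW)
open H55K H55K.TQ

open Classical in
/-- Interface (L): the local facts at p for the short equation. -/
def LocC (F : Type) [Field F] [NumberField F] [IQ F] (p : ℕ) (W : WeierstrassCurve ℤ) (Om : ℂ) (m : Ideal (𝓞 F))
    (ψ : Ideal (𝓞 F) →*₀ 𝓞 F) : Prop :=
  ∀ (A B : F) (j : AlgebraicClosure F →+* ℂ) (act : 𝓞 F →+* AddMonoid.End (Pt (WAB A B) (AlgebraicClosure F))),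
    A = -(algebraMap (𝓞 F) F (W⁄(𝓞 F)).c₄) / 48 → B = -(algebraMap (𝓞 F) F (W⁄(𝓞 F)).c₆) / 864 → Dta A B Om j act m ψ p →
    ∀ (hc : H35L.Cm act) (V : ValuationSubring (AlgebraicClosure F)), V.valuation (p : AlgebraicClosure F) < 1 →
      ∀ (γ : AlgebraicClosure F ≃ₐ[F] AlgebraicClosure F) (hγ : γ ∈ H35L.dV V), H35L.Gen p γ → H35L.LocP act hc p (p ^ 2) V hγ

/-- The interface (L) for all F, W, p. -/
def LocAll : Prop := ∀ (F : Type) [Field F] [NumberField F] [IQ F] (W : WeierstrassCurve ℤ) (Om : ℂ) (m : Ideal (𝓞 F)) (ψ : Ideal (𝓞 F) →*₀ 𝓞 F)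
  (p : ℕ), BaseH F (W⁄(𝓞 F)) Om m ψ → PrimeH F (W⁄(𝓞 F)) p → H19A.InertQ F p → LocC F p W Om m ψ

variable {F : Type} [Field F] [NumberField F] [IQ F] {W : WeierstrassCurve ℤ} {Om : ℂ} {m : Ideal (𝓞 F)}
    {ψ : Ideal (𝓞 F) →*₀ 𝓞 F} {p : ℕ}



end SSG
end

-- from Lib.H19A.Res
section

/-! # H19A: the result (draft of Results/MP_f50388_nt/SupersingularTowers.lean) -/

open NumberField IsDedekindDomain WeierstrassCurve H55P H55K.TQ

namespace H19A

/-- W is a global minimal equation of an elliptic curve over the rationals with complex multiplication by the order of conductor f of F,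
of class number one (H55Y.Cond): its period lattice is a multiple of the lattice of this order. -/
def CM (F : Type) [Field F] [NumberField F] [IQ F] (W : WeierstrassCurve ℤ) : Prop :=
  W.Δ ≠ 0 ∧ H13D.MinZ W ∧ ∃ (f : ℕ) (Om : ℂ), H55Y.Cond F f ∧
    H55Y.PerO F f (-(eF F (W⁄(𝓞 F)).c₄) / 48) (-(eF F (W⁄(𝓞 F)).c₆) / 864) Om

/-- The conclusions for the prime p. -/
structure AtP (F : Type) [Field F] [NumberField F] [IQ F] (p : ℕ) (W : WeierstrassCurve ℤ) : Prop where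
  tower : TowerThm F p W
  exist : AnUnitG p W ℚ → Exist F p W
  real : AnUnitG p W ℚ → ExistReal F p W


end H19A
end

-- from Lib.H55G.S1
section

/-! # H55G, part S: the analytic part over the layers, under OkM -/

open NumberField IsDedekindDomain WeierstrassCurve

namespace H55G

open H55P (IQ UnitP UnrP PExt)
open H55K H55K.TQ H55Z

variable {p : ℕ} [hpf : Fact p.Prime] {n : ℕ} {F : Type} [Field F] [NumberField F] [IQ F]

variable {W : WeierstrassCurve ℤ} {Om : ℂ} {m : Ideal (𝓞 F)} {ψ : Ideal (𝓞 F) →*₀ 𝓞 F} {M K : Type} [Field M] [NumberField M]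
  [Field K] [NumberField K] [Algebra M K]

/-- The analytic part over the n-th layer K of M. -/
theorem q9_mainO (hH : BaseH F (W⁄(𝓞 F)) Om m ψ) (hp : PrimeH F (W⁄(𝓞 F)) p) (ιM : M →ₐ[ℚ] AlgebraicClosure F)
    (hUM : UnrP p M) (hUG : UnrP p (KG F M ιM)) (hOk : OkM p (W⁄(𝓞 F)) (KG F M ιM)) (hL : H13R.LUnitG p W M) (h : Layer p n M K)
    (hE : ∀ k, 1 ≤ k → k ≤ n → ∀ χ : DirichletCharacter ℂ (p ^ (k + 1)), orderOf χ = p ^ k → ValK F (KG F M ιM) p Om ψ k χ) :
    ∃ Λ : ℂ → ℂ, AnalyticOnNhd ℂ Λ {s | 1 / 2 < s.re} ∧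
      (∀ s : ℂ, 3 / 2 < s.re → LSeriesSummable (fun n => (((W⁄K).LFunction n : ℤ) : ℂ)) s ∧ Λ s = (W⁄K).LSeries s) ∧
      Λ 1 ≠ 0 ∧
      ∀ L : PeriodPair, PerZ W L → ∀ V : ValuationSubring ℂ, V.valuation (p : ℂ) < 1 →
        V.valuation (lG K W L (Λ 1)) =
          V.valuation (p : ℂ) ^ (Module.finrank ℚ M * ∑ k ∈ Finset.range n, H35K.J p (k + 1)) := by
  classical
  have h5 := hp.five
  have h2 : p ≠ 2 := by omega
  have hpp : p.Prime := hp.prime
  obtain ⟨ιK, hι⟩ := q8_ext (K := K) ιM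
  have hle := q8_le ιM ιK hι
  letI i : Algebra (KG F M ιM) (KG F K ιK) := (IntermediateField.inclusion hle).toRingHom.toAlgebra
  have hlay : Layer p n (KG F M ιM) (KG F K ιK) := q8_layer h ιM ιK hι hle
  have hst : IsScalarTower F (KG F M ιM) (KG F K ιK) := IsScalarTower.of_algebraMap_eq fun x => rfl
  have hfd : FiniteDimensional F (KG F M ιM) := H13R.kg_fin F M ιM
  have hI := H13R.gen_intR hH hp hUG (H13R.pext_self p (KG F M ιM)) le_rfl le_rfl hUG
  obtain ⟨Φ₀, hΦ₀a, hΦ₀s, hΦ₀1, hΦ₀u⟩ := (lunit_iffV hH hp M (KG F M ιM) (relV1_of hH hp M ιM hUM (ok_of hH M ιM hOk)) hI).1 hL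
  have hdG := H55P.pl1_discr p hpp hUG
  have hdM := H55P.pl1_discr p hpp hUM
  have hnG := (layer_disc h2 hdG hlay).1
  have hnM := (layer_disc h2 hdM h).1
  obtain ⟨v, ⟨Φ, hΦa, hΦs, hΦ1⟩, hv0, hval⟩ := q6_val (KG F M ιM) (KG F K ιK) hH.data.hecke h2 hdG hlay
    (Om := Om) ⟨Φ₀, hΦ₀a, hΦ₀s, rfl⟩ hΦ₀1 hΦ₀u hE
  have hpx : PExt p (KG F M ιM) (KG F K ιK) := q9_pext hle hnG hlay
  have hR : RelV2 p W Om ψ K (KG F K ιK) := relV2_of hH hp K ιK (ok_of hH K ιK (ok_up hH hp hpx hle le_rfl hOk))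
  obtain ⟨Λ, hΛa, hΛs, hΛ1, hΛv⟩ := hR Φ hΦa hΦs
  have hOm : Om ≠ 0 := hH.data.per.ne
  refine ⟨Λ, hΛa, hΛs, hΛ1 (by rw [hΦ1]; exact hv0), fun L hL V hV => ?_⟩
  have hp0 : V.valuation (p : ℂ) ≠ 0 := (Valuation.ne_zero_iff _).2 (Nat.cast_ne_zero.2 hpp.ne_zero)
  have hsD := layer_sD h2 hdM h V hV
  have hx := hval V hV
  have hx0 : v / Om ^ Module.finrank F (KG F K ιK) ≠ 0 := div_ne_zero hv0 (pow_ne_zero _ hOm)
  have hxc := q9_conj hx0 hval V hV
  have e1 : Module.finrank ℚ K = Module.finrank ℚ M * p ^ n := by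
    rw [← hnM]
    exact (Module.finrank_mul_finrank ℚ M K).symm
  have e2 : Module.finrank F (KG F K ιK) = Module.finrank F (KG F M ιM) * p ^ n := by
    rw [← hnG]
    exact (Module.finrank_mul_finrank F (KG F M ιM) (KG F K ιK)).symm
  have hpos : 0 < p ^ n := pow_pos hpp.pos n
  rcases hΛv V hV L hL with ⟨hd, hl⟩ | ⟨hd, hl⟩
  · have e3 : Module.finrank ℚ M = 2 * Module.finrank F (KG F M ιM) := by
      rw [e1, e2, ← mul_assoc] at hd
      exact Nat.eq_of_mul_eq_mul_right hpos hd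
    rw [hΦ1] at hl
    rw [e3]
    refine q9_val hp0 hx hxc ?_ hl
    rw [hsD, e3]
    congr 1
    ring
  · have e3 : Module.finrank ℚ M = Module.finrank F (KG F M ιM) := by
      rw [e1, e2] at hd
      exact Nat.eq_of_mul_eq_mul_right hpos hd
    rw [hΦ1] at hl
    rw [e3]
    refine q9_val2 (a := Module.finrank F (KG F M ιM) * En p n) ?_ ?_ hl
    · rw [hx]
      congr 1
      ring
    · rw [hsD, e3, mul_comm]

end H55G
end
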