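import Mathlib
import Pool.Agent.Lib.H1M.PP2.M048
import Pool.Agent.Lib.H1M.PP2.M051
import Pool.Agent.Lib.H1M.PP2.M058
import Pool.Agent.Lib.H1M.PP2.M100
import Pool.Agent.Lib.H1M.PP2.M107
import Pool.Agent.Lib.H1M.PP2.M120
import Pool.Agent.Lib.H1M.PP2.M151
import Pool.Agent.Lib.H1M.PP2.M159
import Pool.Agent.Lib.H1M.PP2.M163
import Pool.Agent.Lib.H1M.PP2.M166
import Pool.Agent.Lib.H1M.PP2.M167

/-! Merged copies (to shorten the build) of Lib.H55G.I5a, Lib.SSU.SelO, Lib.H55G.I5b, Lib.SSN.C3, Lib.SSN.A0, Lib.SSN.A4, Lib.SSN.B4. -/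

-- from Lib.H55G.I5a
section

/-! # H55G, part I: Selmer groups in the tower over M, under OkM -/

open NumberField IsDedekindDomain WeierstrassCurve

namespace H55G

open H55P (IQ embF eF LF Per IsHecke Pt ac acR Inert Dec Nm UnitP Ram RamF PExt SelG ShaG PtsG clos UnrP Below)
open H35P (WAB Ker tt GoodW IntW)
open H55K.TQ
open H13R (BadM NoRel)
open H19B (Spl)

variable {F : Type} [Field F] [NumberField F] [IQ F] {W₀ : WeierstrassCurve (𝓞 F)} {Om : ℂ}
    {m : Ideal (𝓞 F)} {ψ : Ideal (𝓞 F) →*₀ 𝓞 F} {p : ℕ}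

open Classical in
/-- Chunk I5 (S/M). The local alternative at a prime v of M which divides the discriminant, in the form needed in H19B.sel_towerG: if W₀ is bad at v over M: the left side, bad_tors1 (I4b.lean); p is not in v (see selB in Lib/H19B/SB.lean: hΔ there, coprimality hp.cop). If it is good at v: the right side: alt_ok (I2.lean) with locOk_of (I3b.lean), hOk v hΔ hg; finiteness of the points killed by p: tors_fin (as in sel_towerG in
Lib/H19B/ST3.lean) for the elliptic curve W₀⁄F (H55P.gen_ell). -/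
theorem loc_alt (hH : BaseH F W₀ Om m ψ) (hp : PrimeH F W₀ p) {M L : IntermediateField F (AlgebraicClosure F)}
    [NumberField M] (hL : PExt p M L) (hOk : OkM p W₀ M) {v : HeightOneSpectrum (𝓞 M)}
    (hΔ : algebraMap (𝓞 F) (𝓞 M) W₀.Δ ∈ v.asIdeal) :
    ((p : 𝓞 M) ∉ v.asIdeal ∧
      ∀ V : ValuationSubring (AlgebraicClosure F), Below V M v.asIdeal → ∀ T : Pt (W₀⁄F) (AlgebraicClosure F), p • T = 0 →
        (∀ s ∈ L.fixingSubgroup, Inert V s → ac (W₀⁄F) s T = T) → T = 0) ∨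
      ∀ V : ValuationSubring (AlgebraicClosure F), Below V M v.asIdeal →
        ∀ N K : IntermediateField F (AlgebraicClosure F), M ≤ N → N ≤ K → K ≤ L → H19B.Alt (W₀⁄F) p N K V := by
  have hell : (W₀⁄F).IsElliptic := H55P.gen_ell W₀ hH.data.ell
  by_cases hg : H55K.GoodAt ((W₀⁄F)⁄M) v
  · right
    intro V hV N K hMN hNK hKL
    exact alt_ok hp.prime (H55P.tors_fin (W₀⁄F) p hp.prime.pos) hL (locOk_of hH hp hV hΔ hg (hOk v hΔ hg)) hMN hNK hKL
  · left
    refine ⟨fun hpv => ?_, fun V hV T hT hf => ?_⟩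
    · obtain ⟨a, ha, b, hb, hab⟩ := (Ideal.isCoprime_iff_exists.1 hp.cop)
      rw [Ideal.mem_span_singleton] at ha hb
      obtain ⟨a, rfl⟩ := ha
      obtain ⟨b, rfl⟩ := hb
      apply v.isPrime.ne_top
      rw [Ideal.eq_top_iff_one]
      have e : (1 : 𝓞 M) = algebraMap (𝓞 F) (𝓞 M) W₀.Δ * algebraMap (𝓞 F) (𝓞 M) a + (p : 𝓞 M) * algebraMap (𝓞 F) (𝓞 M) b := by
        rw [← map_one (algebraMap (𝓞 F) (𝓞 M)), ← hab, map_add, map_mul, map_mul, map_natCast]
      rw [e]
      exact v.asIdeal.add_mem (v.asIdeal.mul_mem_right _ hΔ) (v.asIdeal.mul_mem_right _ hpv)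
    · exact bad_tors1 hH hp hL le_rfl (V := V) (v := v) hg (fun a ha => (hV _).1 ha) hΔ T hT hf

end H55G
end

-- from Lib.SSU.SelO
section

/-! # SSU: the Selmer group in p-extensions with trivial second ramification groups above the inert prime p, under OkM -/

open NumberField IsDedekindDomain WeierstrassCurve

namespace SSU

open H55P (IQ embF eF LF Per IsHecke Pt ac acR Inert Dec Nm UnitP Ram RamF PExt SelG ShaG PtsG clos Below)
open H35P (WAB Ker tt GoodW IntW)
open H55K.TQ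
open H13R (NoRel)
open H55G (OkM loc_alt)
open H19B (Alt)

variable {F : Type} [Field F] [NumberField F] [IQ F] {W₀ : WeierstrassCurve (𝓞 F)} {Om : ℂ}
    {m : Ideal (𝓞 F)} {ψ : Ideal (𝓞 F) →*₀ 𝓞 F} {p : ℕ}

open Classical in
/-- THE TOWER THEOREM under OkM. -/
theorem selAO (hH : BaseH F W₀ Om m ψ) (hp : PrimeH F W₀ p) (hin : (Ideal.span {(p : 𝓞 F)}).IsPrime)
    (hZ : ∃ W : WeierstrassCurve ℤ, W₀ = W⁄(𝓞 F))
    {M L K : IntermediateField F (AlgebraicClosure F)}
    [NumberField M] [NumberField K] (hOk : OkM p W₀ M) (hL : PExt p M L) (hG : G2F p M L) (hMK : M ≤ K) (hK : K ≤ L)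
    (hN : NoRel p W₀ M K) (hS : SelG p W₀ M) : SelG p W₀ K ∧ ShaG p W₀ K ∧ PtsG p W₀ K := by
  have hLf : FiniteDimensional F L := hL.fin
  have hKf : FiniteDimensional F K := H55P.finDim_of_le hK
  have hMf : FiniteDimensional F M := H55P.finDim_of_le hL.le
  have hell : (W₀⁄F).IsElliptic := H55P.gen_ell W₀ hH.data.ell
  have hC' := H55P.clos_pext p hp.prime M K L hL hMK hK
  have h0 : ∀ T : Pt (W₀⁄F) (AlgebraicClosure F), p • T = 0 →
      (∀ s ∈ M.fixingSubgroup, ac (W₀⁄F) s T = T) → T = 0 := fun T hT hf =>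
    H19B.tors_of_sel (W₀⁄F) p hp.prime M hS T hT hf
  have hSK : H55P.SelZero (W₀⁄F) p K := SSA.sel_towerA W₀ p hp.prime M (clos M K) hC' h0
    (fun s _ t _ T hT => H55K.NB.comm_tors hH hp.prime s t T hT)
    (fun v hv => by
      have hv' := H55P.clos_ram M K L hMK hK hL.norm v hv
      by_cases hpv : (p : 𝓞 M) ∈ v.asIdeal
      · right
        intro V hV N K' hMN hNK hKL hdeg hnorm
        exact SSA.alt_w0A hH hp hin hZ hL hG v hpv V hV N K' hMN hNK (hKL.trans (H55P.clos_le M K L hK hL.norm)) hdeg hnorm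
      · by_cases hΔ : algebraMap (𝓞 F) (𝓞 M) W₀.Δ ∈ v.asIdeal
        · rcases loc_alt hH hp hC' hOk hΔ with ⟨h1, h2⟩ | h2
          · exact Or.inl ⟨h1, Or.inr h2⟩
          · exact Or.inr fun V hV N K' hMN hNK hKL _ _ => h2 V hV N K' hMN hNK hKL
        · exact Or.inl ⟨hpv, Or.inl ⟨hΔ, hN v hv' hΔ⟩⟩) hS K hMK (H55P.le_clos M K)
  exact ⟨hSK, H55P.sha_zero (W₀⁄F) p hp.prime K hSK, H55P.pts_fin (W₀⁄F) p hp.prime K hSK⟩

end SSU
end

-- from Lib.H55G.I5b
section

/-! # H55G, part I: Selmer groups in the tower over M, under OkM -/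

open NumberField IsDedekindDomain WeierstrassCurve

namespace H55G

open H55P (IQ embF eF LF Per IsHecke Pt ac acR Inert Dec Nm UnitP Ram RamF PExt SelG ShaG PtsG clos UnrP Below)
open H35P (WAB Ker tt GoodW IntW)
open H55K.TQ
open H13R (BadM NoRel)
open H19B (Spl)

variable {F : Type} [Field F] [NumberField F] [IQ F] {W₀ : WeierstrassCurve (𝓞 F)} {Om : ℂ}
    {m : Ideal (𝓞 F)} {ψ : Ideal (𝓞 F) →*₀ 𝓞 F} {p : ℕ}


open Classical in
/-- Chunk I5 (S). Copy the proof of H19B.selB (Lib/H19B/SB.lean); at v not above p with Δ in v: loc_alt for hC'. -/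
theorem selBO (hH : BaseH F W₀ Om m ψ) (hp : PrimeH F W₀ p) (hsp : Spl F p) {M L K : IntermediateField F (AlgebraicClosure F)}
    [NumberField M] [NumberField K] (hOk : OkM p W₀ M) (hL : PExt p M L) (hMK : M ≤ K) (hK : K ≤ L)
    (hN : NoRel p W₀ M K) (hS : SelG p W₀ M) : SelG p W₀ K ∧ ShaG p W₀ K ∧ PtsG p W₀ K := by
  have hLf : FiniteDimensional F L := hL.fin
  have hKf : FiniteDimensional F K := H55P.finDim_of_le hK
  have hMf : FiniteDimensional F M := H55P.finDim_of_le hL.le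
  have hell : (W₀⁄F).IsElliptic := H55P.gen_ell W₀ hH.data.ell
  have hC' := H55P.clos_pext p hp.prime M K L hL hMK hK
  have h0 : ∀ T : Pt (W₀⁄F) (AlgebraicClosure F), p • T = 0 →
      (∀ s ∈ M.fixingSubgroup, ac (W₀⁄F) s T = T) → T = 0 := fun T hT hf =>
    H19B.tors_of_sel (W₀⁄F) p hp.prime M hS T hT hf
  have hSK : H55P.SelZero (W₀⁄F) p K := H19B.sel_towerG W₀ p hp.prime M (clos M K) hC' h0
    (fun s _ t _ T hT => H55K.NB.comm_tors hH hp.prime s t T hT)
    (fun v hv => by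
      have hv' := H55P.clos_ram M K L hMK hK hL.norm v hv
      by_cases hΔ : algebraMap (𝓞 F) (𝓞 M) W₀.Δ ∈ v.asIdeal
      · rcases loc_alt hH hp hC' hOk hΔ with h | h
        · exact Or.inl ⟨h.1, Or.inr h.2⟩
        · exact Or.inr h
      · by_cases hpv : (p : 𝓞 M) ∈ v.asIdeal
        · right
          intro V hV N K' hMN hNK hKL
          exact H19B.alt_w0 hH hp hsp hC' v hpv hΔ (hN v hv' hΔ) V hV N K' hMN hNK hKL
        · exact Or.inl ⟨hpv, Or.inl ⟨hΔ, hN v hv' hΔ⟩⟩) hS K hMK (H55P.le_clos M K)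
  exact ⟨hSK, H55P.sha_zero (W₀⁄F) p hp.prime K hSK, H55P.pts_fin (W₀⁄F) p hp.prime K hSK⟩

end H55G
end

-- from Lib.SSN.C3
section

/-! # SSN, chunk C3: a point of order p gives a Selmer class -/

open NumberField IsDedekindDomain WeierstrassCurve

namespace SSN

open H55P (IQ Pt ac Dec Inert decS Nm Ram)
open H35P (WAB Ker tt)
open H55K (Tor CMA Dta GV ak cj xc yc Lft TFld Abw exists_abw)
open H55K.S
open H55R (Pl ord smulP)
open H19B (DN mem_DN Cc CS mem_CS)
open H19C (SUs mem_SUs SUs_act CL mem_CL KR dl)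
open H13S (Abv)
open H13X (Dat IsTB DecN algNL JV)
open H13Y (guN)

open H13Z (SelNon)

/-- Chunk C3 (S/M). PROOF. H55P.mw W K (Mordell-Weil): Pt W K is finitely generated. If every Q in Pt W K were in p Pt W K then (as in the proof of H55P.pts_fin, file H55P/S6.lean, with hdiv; copy it) Pt W K would be finite of order prime to p, and multiplication by p injective; but R, fixed by K.fixingSubgroup,
is the image of a point R' of Pt W K (H55P.fix_iff), p • R' = 0, R' ≠ 0. So there is Q' in Pt W K not in p Pt W K; Q its image in Pt W Ω, fixed by K.fixingSubgroup. P in Pt W Ω with p • P = Q (divisibility of the points over the algebraically closed field: see H55P/S6.lean or pts_div for the name of the lemma).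
c s = ac s P - P: Coc W K c (see how a coboundary is shown to be Coc in H55P or H19B; continuity: P has coordinates in a finite extension), p • c s = ac s Q - Q = 0 for s in K.fixingSubgroup, local conditions with the same P. If c s = ac s T - T with p • T = 0 then P - T is fixed by K.fixingSubgroup, so it is the image
of a point of Pt W K (fix_iff), and p (P - T) = Q: Q' = p (..) by injectivity of the map on points: contradiction. -/
theorem non_of_tors {F : Type} [Field F] [NumberField F] {Ω : Type} [Field Ω] [DecidableEq Ω] [Algebra F Ω] [IsAlgClosure F Ω]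
    (W : WeierstrassCurve F) [W.IsElliptic] (p : ℕ) (hp : p.Prime) (K : IntermediateField F Ω)
    [FiniteDimensional F K] {R : Pt W Ω} (hR : p • R = 0) (h0 : R ≠ 0) (hf : ∀ s ∈ K.fixingSubgroup, ac W s R = R) :
    SelNon W p K := by
  classical
  have h1 : IsAlgClosed Ω := IsAlgClosure.isAlgClosed F
  have h2 : Algebra.IsAlgebraic F Ω := IsAlgClosure.isAlgebraic
  have h3 : CharZero Ω := charZero_of_injective_algebraMap (algebraMap F Ω).injective
  have hN : NumberField K := NumberField.of_module_finite F K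
  have hfg : Module.Finite ℤ (Pt W K) := H55P.mw W K
  have hinj : Function.Injective (Affine.Point.map (W' := W.toAffine) K.val) :=
    Affine.Point.map_injective _
  obtain ⟨R', hR'⟩ := (H55P.fix_iff W K R).1 hf
  have hpR' : p • R' = 0 := hinj (by rw [map_nsmul, hR', hR, map_zero])
  have hR'0 : R' ≠ 0 := by
    rintro rfl
    exact h0 (by rw [← hR', map_zero])
  have hQ : ∃ Q' : Pt W K, ∀ Q : Pt W K, p • Q ≠ Q' := by
    by_contra hcon
    push Not at hcon
    obtain ⟨r, hr, hr'⟩ := Submodule.exists_sub_one_mem_and_smul_eq_zero_of_fg_of_le_smul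
      (Ideal.span {(p : ℤ)}) (⊤ : Submodule ℤ (Pt W K)) hfg.fg_top (by
        intro P _
        obtain ⟨Q, hQ⟩ := hcon P
        rw [← hQ, ← natCast_zsmul]
        exact Submodule.smul_mem_smul (Ideal.mem_span_singleton_self _) Submodule.mem_top)
    have hr0 : r ≠ 0 := by
      rintro rfl
      rw [Ideal.mem_span_singleton, zero_sub, dvd_neg] at hr
      exact hp.one_lt.ne' (by exact_mod_cast Int.natAbs_dvd_natAbs.2 hr |> Nat.dvd_one.1)
    have hfin : Finite (Pt W K) := by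
      have h4 : AddGroup.FG (Pt W K) := Module.Finite.iff_addGroup_fg.1 inferInstance
      refine AddCommGroup.finite_of_fg_isAddTorsion _ fun P => ?_
      rw [isOfFinAddOrder_iff_zsmul_eq_zero]
      exact ⟨r, hr0, hr' P Submodule.mem_top⟩
    have hsurj : Function.Surjective fun Q : Pt W K => p • Q := hcon
    have hinj' := Finite.injective_iff_surjective.2 hsurj
    exact hR'0 (hinj' (by
      show p • R' = p • 0
      rw [hpR', smul_zero]))
  obtain ⟨Q', hQ'⟩ := hQ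
  have hQf : ∀ s ∈ K.fixingSubgroup, ac W s (Affine.Point.map (W' := W.toAffine) K.val Q') =
      Affine.Point.map (W' := W.toAffine) K.val Q' := (H55P.fix_iff W K _).2 ⟨Q', rfl⟩
  obtain ⟨P, hP⟩ := H55P.div_pt W p hp.pos (Affine.Point.map (W' := W.toAffine) K.val Q')
  refine ⟨fun s => ac W s P - P, H55P.ps6_cob W K P, fun s hs => ?_, fun V _ => ⟨P, fun s _ _ => rfl⟩, ?_⟩
  · rw [smul_sub, ← map_nsmul, hP, hQf s hs, sub_self]
  · rintro ⟨T, hT, hT'⟩
    have hfix : ∀ s ∈ K.fixingSubgroup, ac W s (P - T) = P - T := fun s hs => by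
      rw [map_sub]
      have h4 : ac W s P - P = ac W s T - T := hT' s hs
      rw [sub_eq_sub_iff_sub_eq_sub] at h4
      exact h4
    obtain ⟨S, hS⟩ := (H55P.fix_iff W K _).1 hfix
    exact hQ' S (hinj (by rw [map_nsmul, hS, smul_sub, hP, hT, sub_zero]))

end SSN
end

-- from Lib.SSN.A0
section

/-! # SSN, chunk A0: the pairing, with the adjunction -/

open NumberField IsDedekindDomain WeierstrassCurve

namespace SSN

open H55P (IQ Pt ac Dec Inert decS Nm Ram)
open H35P (WAB Ker tt)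
open H55K (Tor CMA Dta GV ak cj xc yc Lft TFld Abw exists_abw)
open H55K.S
open H55R (Pl ord smulP)
open H19B (DN mem_DN Cc CS mem_CS)
open H19C (SUs mem_SUs SUs_act CL mem_CL KR dl)
open H13S (Abv)
open H13X (Dat IsTB DecN algNL JV)
open H13Y (guN)

variable {F : Type} [Field F] [NumberField F] [IQ F] {A B : F} {Om : ℂ} {Ω : Type} [Field Ω] [DecidableEq Ω]
  [Algebra F Ω] [IsAlgClosure F Ω] {j : Ω →+* ℂ} {act : 𝓞 F →+* AddMonoid.End (Pt (WAB A B) Ω)} {mo : Ideal (𝓞 F)}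
  {ψ : Ideal (𝓞 F) →*₀ 𝓞 F}

variable {π : 𝓞 F} {l : ℕ} {e : Pt (WAB A B) Ω → Pt (WAB A B) Ω → Ω} {N N' L : IntermediateField F Ω}
  {c c' : (Ω ≃ₐ[F] Ω) → Pt (WAB A B) Ω} {V V₀ : ValuationSubring Ω} {T₀ : Pt (WAB A B) Ω}

/-- Chunk A0 (S). PROOF. Copy the proof of H55K.S.exists_pairing (H55K/SPA2.lean, PA2_rho is available) word for word; the pairing constructed there is
e (act a T₀') (act b T₀) = Z (ρ (mk (cj a * b))) (he in that proof), T₀' a generator of Tor act (cj π), T₀ a generator of Tor act π (hgen, hgen').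
Last clause: X = act a' T₀', T = act b T₀; act a X = act (a * a') T₀' (act_mul), act (cj a) T = act (cj a * b) T₀, and
cj (a * a') * b = cj a' * (cj a * b). -/
theorem exists_pairing2 (π : 𝓞 F) (l : ℕ) (dta : Dta A B Om j act mo ψ l) (hπ : Prime π)
    (hd : π ∣ (l : 𝓞 F)) : ∃ e : Pt (WAB A B) Ω → Pt (WAB A B) Ω → Ω, Pairing A B act π l e ∧
      ∀ (a : 𝓞 F), ∀ X ∈ Tor act (cj π), ∀ T ∈ Tor act π, e (act a X) T = e X (act (cj a) T) := by
  classical
  have hA := dta.cma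
  have hl := dta.prime
  have := Fact.mk hl
  have : NeZero l := ⟨hl.ne_zero⟩
  have hΩ : IsAlgClosed Ω := IsAlgClosure.isAlgClosed F
  have hc0 : CharZero Ω := charZero_of_injective_algebraMap (algebraMap F Ω).injective
  obtain ⟨ζ, hζ⟩ := HasEnoughRootsOfUnity.exists_primitiveRoot Ω l
  obtain ⟨_, T₀, hT₀, hgen, hz⟩ := gi_gen hA π hπ
  obtain ⟨_, T₀', hT₀', hgen', hz'⟩ := gi_gen hA (cj π) (H55K.cj_prime hπ)
  obtain ⟨ρ, hρ⟩ := PA2_rho π l hl hπ hd
  -- the character
  set Z : ZMod l → Ω := fun z => ζ ^ z.val with hZ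
  have Z_nat : ∀ n : ℕ, Z (n : ZMod l) = ζ ^ n := by
    intro n
    show ζ ^ (n : ZMod l).val = ζ ^ n
    rw [ZMod.val_natCast]
    conv_rhs => rw [← Nat.mod_add_div n l, pow_add, pow_mul, hζ.pow_eq_one, one_pow, mul_one]
  have Z_add : ∀ x y : ZMod l, Z (x + y) = Z x * Z y := by
    intro x y
    have h1 : x + y = ((x.val + y.val : ℕ) : ZMod l) := by
      rw [Nat.cast_add, ZMod.natCast_zmod_val, ZMod.natCast_zmod_val]
    rw [h1, Z_nat, pow_add]
  have Z_root : ∀ x : ZMod l, Z x ^ l = 1 := by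
    intro x
    show (ζ ^ x.val) ^ l = 1
    rw [← pow_mul, mul_comm, pow_mul, hζ.pow_eq_one, one_pow]
  have Z_one : ∀ x : ZMod l, Z x = 1 → x = 0 := by
    intro x hx
    have h1 : l ∣ x.val := (hζ.pow_eq_one_iff_dvd _).1 hx
    have h2 : x.val < l := ZMod.val_lt x
    have h4 : x.val = 0 := Nat.eq_zero_of_dvd_of_lt h1 h2
    exact (ZMod.val_eq_zero x).1 h4
  have Z_cmul : ∀ (c : ℕ) (x : ZMod l), Z ((c : ZMod l) * x) = Z x ^ c := by
    intro c x
    have h1 : (c : ZMod l) * x = ((c * x.val : ℕ) : ZMod l) := by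
      rw [Nat.cast_mul, ZMod.natCast_zmod_val]
    rw [h1, Z_nat]
    show _ = (ζ ^ x.val) ^ c
    rw [← pow_mul, mul_comm]
  have hmk : ∀ x y : 𝓞 F, π ∣ x - y → Ideal.Quotient.mk (Ideal.span {π}) x =
      Ideal.Quotient.mk (Ideal.span {π}) y := by
    intro x y h
    rw [Ideal.Quotient.mk_eq_mk_iff_sub_mem, Ideal.mem_span_singleton]
    exact h
  have hact : ∀ a b : 𝓞 F, act a T₀ = act b T₀ → π ∣ a - b := by
    intro a b h
    rw [← hz, act_sub, h, sub_self]
  have hact' : ∀ a b : 𝓞 F, act a T₀' = act b T₀' → π ∣ cj a - cj b := by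
    intro a b h
    rw [← map_sub, ← H55K.cj_dvd, ← hz', act_sub, h, sub_self]
  let e : Pt (WAB A B) Ω → Pt (WAB A B) Ω → Ω := fun X T =>
    if h : ∃ a b : 𝓞 F, X = act a T₀' ∧ T = act b T₀ then
      Z (ρ (Ideal.Quotient.mk (Ideal.span {π}) (cj h.choose * h.choose_spec.choose))) else 1
  have he : ∀ a b : 𝓞 F, e (act a T₀') (act b T₀) =
      Z (ρ (Ideal.Quotient.mk (Ideal.span {π}) (cj a * b))) := by
    intro a b
    have h : ∃ a₁ b₁ : 𝓞 F, act a T₀' = act a₁ T₀' ∧ act b T₀ = act b₁ T₀ := ⟨a, b, rfl, rfl⟩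
    show (if h : ∃ a₁ b₁ : 𝓞 F, act a T₀' = act a₁ T₀' ∧ act b T₀ = act b₁ T₀ then
      Z (ρ (Ideal.Quotient.mk (Ideal.span {π}) (cj h.choose * h.choose_spec.choose))) else 1) = _
    rw [dif_pos h]
    obtain ⟨h1, h2⟩ := h.choose_spec.choose_spec
    have h4 := hact' _ _ h1
    have h6 := hact _ _ h2
    rw [map_mul (Ideal.Quotient.mk (Ideal.span {π})), map_mul (Ideal.Quotient.mk (Ideal.span {π})),
      ← hmk _ _ h4, ← hmk _ _ h6]
  have hT1 : T₀ ≠ 0 := by
    intro h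
    have h1 := (hz 1).1 (by rw [act_one, h])
    exact hπ.not_isUnit (isUnit_of_dvd_one h1)
  have hT1' : T₀' ≠ 0 := by
    intro h
    have h1 := (hz' 1).1 (by rw [act_one, h])
    exact (H55K.cj_prime hπ).not_isUnit (isUnit_of_dvd_one h1)
  refine ⟨e, ⟨?_, ?_, ?_, ?_, ?_⟩, ?_⟩
  · intro X hX X' hX' T hT
    obtain ⟨a, rfl⟩ := hgen' X hX
    obtain ⟨a', rfl⟩ := hgen' X' hX'
    obtain ⟨b, rfl⟩ := hgen T hT
    rw [← act_add, he, he, he, ← Z_add, ← map_add, ← map_add, map_add cj, add_mul]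
  · intro X hX T hT T' hT'
    obtain ⟨a, rfl⟩ := hgen' X hX
    obtain ⟨b, rfl⟩ := hgen T hT
    obtain ⟨b', rfl⟩ := hgen T' hT'
    rw [← act_add, he, he, he, ← Z_add, ← map_add, ← map_add, mul_add]
  · intro X hX T hT
    obtain ⟨a, rfl⟩ := hgen' X hX
    obtain ⟨b, rfl⟩ := hgen T hT
    rw [he]
    exact Z_root _
  · intro s X hX T hT
    obtain ⟨a', rfl⟩ := hgen' X hX
    obtain ⟨b, rfl⟩ := hgen T hT
    obtain ⟨a, ha⟩ := hgen _ (ac_mem hA s hT₀)
    obtain ⟨b₁, hb₁⟩ := hgen' _ (ac_mem hA s hT₀')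
    have hs : (s ζ) ^ l = 1 := by rw [← map_pow, hζ.pow_eq_one, map_one]
    obtain ⟨c, _, hc⟩ := hζ.eq_pow_of_pow_eq_one hs
    have h1 := char_id π l dta hπ hd ζ hζ s a b₁ c T₀ T₀' hT₀ hT1 hT₀' hT1' ha hb₁ hc.symm
    rw [ac_act hA, ac_act hA, ha, hb₁, ← act_mul, ← act_mul, he, he]
    have h2 : Ideal.Quotient.mk (Ideal.span {π}) (cj (a' * b₁) * (b * a)) =
        ((c : ℕ) : 𝓞 F ⧸ Ideal.span {π}) * Ideal.Quotient.mk (Ideal.span {π}) (cj a' * b) := by
      have h4 : cj (a' * b₁) * (b * a) = (cj b₁ * a) * (cj a' * b) := by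
        rw [map_mul]
        ring
      rw [h4, map_mul, hmk _ _ h1, map_natCast]
    rw [h2, ← nsmul_eq_mul, map_nsmul, nsmul_eq_mul, Z_cmul]
    show s (ζ ^ _) = _
    rw [map_pow, ← hc, ← pow_mul, mul_comm, pow_mul]
  · intro X hX h
    obtain ⟨a', rfl⟩ := hgen' X hX
    rw [hz', H55K.cj_dvd]
    by_contra hcon
    have hmax : (Ideal.span {π}).IsMaximal :=
      PrincipalIdealRing.isMaximal_of_irreducible hπ.irreducible
    let : Field (𝓞 F ⧸ Ideal.span {π}) := Ideal.Quotient.field _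
    have h1 : Ideal.Quotient.mk (Ideal.span {π}) (cj a') ≠ 0 := by
      rw [Ne, Ideal.Quotient.eq_zero_iff_mem, Ideal.mem_span_singleton]
      exact hcon
    obtain ⟨b, hb⟩ := Ideal.Quotient.mk_surjective (Ideal.Quotient.mk (Ideal.span {π}) (cj a'))⁻¹
    have h2 := h (act b T₀) (by
      rw [mem_Tor, ← act_mul, mul_comm, act_mul, mem_Tor.1 hT₀, map_zero])
    rw [he] at h2
    have h4 := Z_one _ h2
    rw [map_mul, hb, mul_inv_cancel₀ h1] at h4
    exact hρ h4
  · intro a X hX T hT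
    obtain ⟨a', rfl⟩ := hgen' X hX
    obtain ⟨b, rfl⟩ := hgen T hT
    rw [← act_mul, ← act_mul, he, he, map_mul cj]
    congr 3
    ring

end SSN
end

-- from Lib.SSN.A4
section

/-! # SSN, chunk A4: the character of Gal(L/N) -/

open NumberField IsDedekindDomain WeierstrassCurve

namespace SSN

open H55P (IQ Pt ac Dec Inert decS Nm Ram)
open H35P (WAB Ker tt)
open H55K (Tor CMA Dta GV ak cj xc yc Lft TFld Abw exists_abw)
open H55K.S
open H55R (Pl ord smulP)
open H19B (DN mem_DN Cc CS mem_CS)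
open H19C (SUs mem_SUs SUs_act CL mem_CL KR dl)
open H13S (Abv)
open H13X (Dat IsTB DecN algNL JV)
open H13Y (guN)

variable {F : Type} [Field F] [NumberField F] [IQ F] {A B : F} {Om : ℂ} {Ω : Type} [Field Ω] [DecidableEq Ω]
  [Algebra F Ω] [IsAlgClosure F Ω] {j : Ω →+* ℂ} {act : 𝓞 F →+* AddMonoid.End (Pt (WAB A B) Ω)} {mo : Ideal (𝓞 F)}
  {ψ : Ideal (𝓞 F) →*₀ 𝓞 F}

variable {π : 𝓞 F} {l : ℕ} {e : Pt (WAB A B) Ω → Pt (WAB A B) Ω → Ω} {N N' L : IntermediateField F Ω}
  {c c' : (Ω ≃ₐ[F] Ω) → Pt (WAB A B) Ω} {V V₀ : ValuationSubring Ω} {T₀ : Pt (WAB A B) Ω}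

/-- Chunk A4 (M). PROOF. Existence of T₀ ≠ 0 in Tor act π with Tor act π = {act a T₀} (H55K.S.gi_gen or H55K.S.PA1_gen / H55K.tor_gen; act a T₀ = 0 iff π divides a: H55K.tor_zero).
Every σ in Gal(L/N) has a lift s (Lft σ s: H55K.exists_lft with the structures of the fields; see H13X/XN4.lean, H55K/K3.lean). s is in N.fixingSubgroup (σ fixes N). Choose a lift s_σ and χ σ with
ac s_σ T₀ = act (χ σ) T₀ (tor_gen; ac preserves Tor act π: ac_mem). act: for R = act b T₀: ac s_σ R = act b (ac s_σ T₀) = act (χ σ) R (ac_act hA, act_mul, commutativity). For another lift s' of σ: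
s' = s_σ * t with t = s_σ⁻¹ * s' fixing L (for x in L: s' x = σ x = s_σ x), so t fixes Tor act π (hL.fix: t in L.fixingSubgroup) and ac s' R = ac s_σ (ac t R) = ac s_σ R.
mul: s_σ * s_τ is a lift of σ * τ: act (χ (σ τ)) T₀ = act (χ σ * χ τ) T₀, so π divides the difference (tor_zero, act_sub). one: 1 is a lift of 1. ne: if π divides χ σ then ac s T₀ = 0 (tor_zero), T₀ = 0 (ac is
injective). inj: if π divides χ σ - 1 then ac s R = R for all R in Tor act π, s in L.fixingSubgroup (hL.fix; s in N.fixingSubgroup), so σ x = s x = x for all x in L. The models: H55K.exists_chi (file H55K/K3.lean or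
K0C.lean) and its use in H13X/XN5.lean. -/
theorem exists_chi2 (hA : CMA F A B Om j act) (hp : Prime π) (hL : IsTB act π N L) :
    letI := algNL hL.le
    ∃ χ : Gal(L/N) → 𝓞 F, Chi act π χ := by
  classical
  letI := algNL hL.le
  have hfL : FiniteDimensional F L := hL.fin
  have hfN : FiniteDimensional F N :=
    FiniteDimensional.of_injective (IntermediateField.inclusion hL.le).toLinearMap
      (IntermediateField.inclusion hL.le).toRingHom.injective
  have hnL : NumberField L := NumberField.of_module_finite F L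
  have hnN : NumberField N := NumberField.of_module_finite F N
  have hT : IsScalarTower F N L := IsScalarTower.of_algebraMap_eq fun x => Subtype.ext rfl
  have hT' : IsScalarTower N L Ω := IsScalarTower.of_algebraMap_eq fun x => rfl
  obtain ⟨T₀, hT₀, h0⟩ := H55K.exists_tor hA hp
  have hex : ∀ σ : Gal(L/N), ∃ s : Ω ≃ₐ[F] Ω, Lft σ s := fun σ => H55K.exists_lft σ
  choose sl hsl using hex
  have hex2 : ∀ σ : Gal(L/N), ∃ a : 𝓞 F, act a T₀ = ac (WAB A B) (sl σ) T₀ := fun σ =>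
    H55K.tor_gen hA hp hT₀ (ac_mem hA (sl σ) hT₀) h0
  choose χ hχ using hex2
  have hfixL : ∀ s : Ω ≃ₐ[F] Ω, (∀ x : L, s (algebraMap L Ω x) = algebraMap L Ω x) → s ∈ L.fixingSubgroup := by
    intro s hs
    rw [IntermediateField.mem_fixingSubgroup_iff]
    exact fun x hx => hs ⟨x, hx⟩
  have key : ∀ (σ : Gal(L/N)) (s : Ω ≃ₐ[F] Ω), Lft σ s → ac (WAB A B) s T₀ = act (χ σ) T₀ := by
    intro σ s hs
    have h1 : Lft (σ⁻¹ * σ) ((sl σ)⁻¹ * s) := (H55K.Lft.inv (hsl σ)).mul hs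
    rw [inv_mul_cancel] at h1
    have h2 : (sl σ)⁻¹ * s ∈ L.fixingSubgroup := hfixL _ fun x => h1 x
    have h3 : ac (WAB A B) ((sl σ)⁻¹ * s) T₀ = T₀ := ((hL.fix _).1 h2).2 T₀ hT₀
    have h4 : s = sl σ * ((sl σ)⁻¹ * s) := by rw [mul_inv_cancel_left]
    rw [h4, ac_mul, h3, hχ]
  have hgen : ∀ R ∈ Tor act π, ∃ b : 𝓞 F, act b T₀ = R := fun R hR => H55K.tor_gen hA hp hT₀ hR h0
  refine ⟨χ, ?_, ?_, ?_, ?_, ?_⟩
  · intro σ s hs R hR
    obtain ⟨b, rfl⟩ := hgen R hR
    rw [ac_act hA, key σ s hs, ← act_mul, ← act_mul, mul_comm]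
  · intro σ τ
    rw [← H55K.tor_zero hA hp hT₀ h0, act_sub, sub_eq_zero]
    rw [← key (σ * τ) (sl σ * sl τ) ((hsl σ).mul (hsl τ)), ac_mul, ← hχ τ, ac_act hA, ← hχ σ, ← act_mul, mul_comm]
  · rw [← H55K.tor_zero hA hp hT₀ h0, act_sub, act_one, sub_eq_zero, ← key 1 1 H55K.lft_one, ac_one]
  · intro σ hd
    rw [← H55K.tor_zero hA hp hT₀ h0, hχ] at hd
    exact ac_ne (sl σ) h0 hd
  · intro σ hd
    have h1 : sl σ ∈ L.fixingSubgroup := by
      rw [hL.fix]
      refine ⟨?_, ?_⟩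
      · rw [IntermediateField.mem_fixingSubgroup_iff]
        intro x hx
        have h2 := (hsl σ).fxd
        exact h2 ⟨x, hx⟩
      · intro R hR
        obtain ⟨b, rfl⟩ := hgen R hR
        rw [← H55K.tor_zero hA hp hT₀ h0, act_sub, act_one, sub_eq_zero] at hd
        rw [ac_act hA, ← hχ, hd]
    rw [← H55K.lft_fxd (hsl σ)]
    intro x
    exact (IntermediateField.mem_fixingSubgroup_iff L _).1 h1 _ x.2

/-- Chunk A4, second part. PROOF. The group Gal(L/N) embeds into the units of 𝓞 F / π (σ ↦ class of χ σ: mul, one, ne, inj), a group of order Nm π - 1 (the ring 𝓞 F / π is a field with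
Nm π elements); so the order divides Nm π - 1 (Subgroup.card_dvd_of_injective), and l divides Nm π (H13X.CO2_Nm or: π divides l, Nm π = l or l ^ 2), so l does not divide Nm π - 1. -/
theorem chi_card (D : Dat A B Om j act mo ψ π l) (hL : IsTB act π N L) :
    letI := algNL hL.le
    ∀ [Fintype Gal(L/N)] (χ : Gal(L/N) → 𝓞 F), Chi act π χ → ¬ l ∣ Fintype.card Gal(L/N) := by
  classical
  letI := algNL hL.le
  intro iG χ hχ hdvd
  have hp := D.pr
  have hmax : (Ideal.span {π}).IsMaximal := by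
    have h1 : (Ideal.span {π}).IsPrime := (Ideal.span_singleton_prime hp.ne_zero).2 hp
    exact h1.isMaximal (by rw [Ne, Ideal.span_singleton_eq_bot]; exact hp.ne_zero)
  have hb : Ideal.span {π} ≠ ⊥ := by
    rw [Ne, Ideal.span_singleton_eq_bot]
    exact hp.ne_zero
  let k := 𝓞 F ⧸ Ideal.span {π}
  letI ik : Field k := Ideal.Quotient.field (Ideal.span {π})
  have hfin : Finite k := Ideal.finiteQuotientOfFreeOfNeBot _ hb
  letI : Fintype k := Fintype.ofFinite k
  let q : 𝓞 F →+* k := Ideal.Quotient.mk (Ideal.span {π})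
  have hk : ∀ x, q x = 0 ↔ π ∣ x := fun x => by
    rw [Ideal.Quotient.eq_zero_iff_mem, Ideal.mem_span_singleton]
  have hchar : CharP k l := by
    have h1 : ((l : ℕ) : k) = 0 := by
      have h2 := (hk (l : 𝓞 F)).2 D.dvd
      rw [map_natCast] at h2
      exact h2
    obtain ⟨p, hp⟩ := CharP.exists k
    have h2 : p ∣ l := (CharP.cast_eq_zero_iff k p l).1 h1
    rcases (Nat.dvd_prime D.hl).1 h2 with h3 | h3
    · exfalso
      subst h3
      have h4 : ((1 : ℕ) : k) = 0 := (CharP.cast_eq_zero_iff k 1 1).2 (dvd_refl 1)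
      rw [Nat.cast_one] at h4
      exact one_ne_zero h4
    · rw [← h3]
      exact hp
  let φ : Gal(L/N) →* kˣ :=
    { toFun := fun σ => Units.mk0 (q (χ σ)) (fun h => hχ.ne σ ((hk _).1 h))
      map_one' := Units.ext (by
        show q (χ 1) = 1
        rw [← sub_eq_zero, ← map_one q, ← map_sub, hk]
        exact hχ.one)
      map_mul' := fun σ τ => Units.ext (by
        show q (χ (σ * τ)) = q (χ σ) * q (χ τ)
        rw [← map_mul, ← sub_eq_zero, ← map_sub, hk]
        exact hχ.mul σ τ) }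
  have hinj : Function.Injective φ := by
    rw [injective_iff_map_eq_one]
    intro σ hσ
    apply hχ.inj
    rw [← hk, map_sub, map_one, sub_eq_zero]
    exact congrArg Units.val hσ
  have h1 : Nat.card Gal(L/N) ∣ Nat.card kˣ := Subgroup.card_dvd_of_injective φ hinj
  rw [Nat.card_eq_fintype_card, Nat.card_eq_fintype_card, Fintype.card_units] at h1
  obtain ⟨n, hn, hc⟩ := FiniteField.card k l
  have h2 : l ∣ Fintype.card k := by
    rw [hc]
    exact dvd_pow_self l n.ne_zero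
  have h3 : l ∣ Fintype.card k - 1 := hdvd.trans h1
  have h4 : 0 < Fintype.card k := Fintype.card_pos
  have h5 : l ∣ 1 := by
    have h6 := Nat.dvd_sub h2 h3
    have h7 : Fintype.card k - (Fintype.card k - 1) = 1 := by omega
    rwa [h7] at h6
  exact D.hl.one_lt.ne' (Nat.dvd_one.1 h5)

end SSN
end

-- from Lib.SSN.B4
section

/-! # SSN, chunk B4: the linear functionals -/

open NumberField IsDedekindDomain WeierstrassCurve

namespace SSN

open H55P (IQ Pt ac Dec Inert decS Nm Ram)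
open H35P (WAB Ker tt)
open H55K (Tor CMA Dta GV ak cj xc yc Lft TFld Abw exists_abw)
open H55K.S
open H55R (Pl ord smulP)
open H19B (DN mem_DN Cc CS mem_CS)
open H19C (SUs mem_SUs SUs_act CL mem_CL KR dl)
open H13S (Abv)
open H13X (Dat IsTB DecN algNL JV)
open H13Y (guN)

variable {F : Type} [Field F] [NumberField F] [IQ F] {A B : F} {Om : ℂ} {Ω : Type} [Field Ω] [DecidableEq Ω]
  [Algebra F Ω] [IsAlgClosure F Ω] {j : Ω →+* ℂ} {act : 𝓞 F →+* AddMonoid.End (Pt (WAB A B) Ω)} {mo : Ideal (𝓞 F)}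
  {ψ : Ideal (𝓞 F) →*₀ 𝓞 F}

variable {π : 𝓞 F} {l : ℕ} {e : Pt (WAB A B) Ω → Pt (WAB A B) Ω → Ω} {N N' L : IntermediateField F Ω}
  {c c' : (Ω ≃ₐ[F] Ω) → Pt (WAB A B) Ω} {V V₀ : ValuationSubring Ω} {T₀ : Pt (WAB A B) Ω}

/-- The determinant of the coordinates. -/
noncomputable def b4_det (F : Type) [Field F] [NumberField F] [IQ F] (u v : 𝓞 F) : ℤ :=
  (H55P.bF F).repr u 0 * (H55P.bF F).repr v 1 - (H55P.bF F).repr u 1 * (H55P.bF F).repr v 0

theorem b4_det_add (u v w : 𝓞 F) : b4_det F u (v + w) = b4_det F u v + b4_det F u w := by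
  unfold b4_det
  rw [map_add, Finsupp.add_apply, Finsupp.add_apply]
  ring

theorem b4_det_self (u : 𝓞 F) : b4_det F u u = 0 := by
  unfold b4_det
  ring

theorem b4_id (u v w : 𝓞 F) : (b4_det F u v : 𝓞 F) * w = (b4_det F w v : 𝓞 F) * u + (b4_det F u w : 𝓞 F) * v := by
  have hu := H55P.bF_repr (F := F) u
  have hv := H55P.bF_repr (F := F) v
  have hw := H55P.bF_repr (F := F) w
  unfold b4_det
  push_cast
  generalize (H55P.bF F).repr u 0 = u0 at *
  generalize (H55P.bF F).repr u 1 = u1 at *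
  generalize (H55P.bF F).repr v 0 = v0 at *
  generalize (H55P.bF F).repr v 1 = v1 at *
  generalize (H55P.bF F).repr w 0 = w0 at *
  generalize (H55P.bF F).repr w 1 = w1 at *
  rw [hu, hv, hw]
  ring

theorem b4_delta (F : Type) [Field F] [NumberField F] [IQ F] : ∃ (D : ℕ) (δ : 𝓞 F), 0 < D ∧ δ ^ 2 = -(D : 𝓞 F) := by
  obtain ⟨x, hx⟩ := H55P.F0_im (F := F)
  have h0 : x - cj x ≠ 0 := by
    intro h
    have h1 : x = cj x := sub_eq_zero.1 h
    have h2 := congrArg (H55P.eF F) h1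
    rw [H55K.e_cj] at h2
    exact hx (Complex.conj_eq_iff_im.1 h2.symm)
  refine ⟨Nm (x - cj x), x - cj x, Nat.pos_of_ne_zero fun h => h0 (H55P.Nm_eq_zero.1 h), ?_⟩
  rw [← H55K.mul_cj, map_sub, H55K.cj_cj]
  ring

theorem b4_ne {D : ℕ} {δ : 𝓞 F} (hD : 0 < D) (hδ : δ ^ 2 = -(D : 𝓞 F)) : b4_det F 1 δ ≠ 0 := by
  intro h0
  have key : ∀ w : 𝓞 F, b4_det F 1 w = 0 := by
    intro w
    have h1 := b4_id (F := F) 1 δ w
    rw [h0, Int.cast_zero, zero_mul, mul_one] at h1
    have h2 : (b4_det F 1 w : 𝓞 F) * δ = -(b4_det F w δ : 𝓞 F) := by linear_combination -h1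
    have h3 : ((b4_det F 1 w ^ 2 * (D : ℤ) + b4_det F w δ ^ 2 : ℤ) : 𝓞 F) = 0 := by
      push_cast
      linear_combination -((b4_det F 1 w : 𝓞 F) * δ - (b4_det F w δ : 𝓞 F)) * h2 + (b4_det F 1 w : 𝓞 F) ^ 2 * hδ
    have h4 : b4_det F 1 w ^ 2 * (D : ℤ) + b4_det F w δ ^ 2 = 0 := by exact_mod_cast h3
    by_contra hne
    have h5 : 0 < b4_det F 1 w ^ 2 := by positivity
    have h6 : (0 : ℤ) < D := by exact_mod_cast hD
    nlinarith [mul_pos h5 h6, sq_nonneg (b4_det F w δ)]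
  have ha := key (H55P.bF F 0)
  have hb := key (H55P.bF F 1)
  unfold b4_det at ha hb
  rw [Module.Basis.repr_self, Finsupp.single_eq_same, Finsupp.single_eq_of_ne (by decide)] at ha hb
  have h1 : (1 : 𝓞 F) = 0 := by
    rw [H55P.bF_repr (F := F) 1]
    have e0 : (H55P.bF F).repr 1 0 = 0 := by linarith
    have e1 : (H55P.bF F).repr 1 1 = 0 := by linarith
    rw [e0, e1, Int.cast_zero, zero_mul, zero_mul, add_zero]
  exact one_ne_zero h1

/-- Powers. -/
theorem b4_zpow {M : Type} [Group M] (f : M → ℂ) (h : ∀ x y, f (x * y) = f x + f y) (x : M) (n : ℤ) :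
    f (x ^ n) = n * f x := by
  let g : M →* Multiplicative ℂ := ⟨⟨fun x => Multiplicative.ofAdd (f x), by
    have h1 := h 1 1
    rw [mul_one] at h1
    have h2 : f 1 = 0 := by linear_combination -h1
    rw [h2]
    rfl⟩, fun x y => congrArg Multiplicative.ofAdd (h x y)⟩
  have h1 := map_zpow g x n
  have h2 := congrArg Multiplicative.toAdd h1
  change f (x ^ n) = n • f x at h2
  rw [h2, zsmul_eq_mul]

/-- Chunk B4 (M). PROOF. δ in 𝓞 F with δ ^ 2 = -D, D a positive integer (H55K.exists_delta; the hypothesis hunr there is not needed: take δ = x - cj x with eF F x not real, see the beginning of its proof, H55P.F0_im, mul_cj).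
(1) For every w in 𝓞 F there are integers K ≠ 0, x, y with K w = x + y δ: coordinates with respect to the basis H55P.bF F (Fin 2); det (u, v) = u0 v1 - u1 v0; det(1, δ) w = det(w, δ) 1 + det(1, w) δ (identity for every pair of coordinates), and
det(1, δ) ≠ 0: otherwise det(1, w) δ = -det(w, δ) for all w, some w among the basis vectors has det(1, w) = k ≠ 0, so k ^ 2 δ ^ 2 = det ^ 2 ≥ 0 but δ ^ 2 = -D < 0 (integers in 𝓞 F, characteristic 0).
(2) Ψ i f = ψ i (ev f δ) + φ δ * ψ i (ev f 1). Additive in f (add_ev, p1). For w with K w = x + y δ: K Ψ(w f) = Ψ((K w) f) with ev ((x + y δ) f) δ = ev f (x δ - y D) and ev (..) 1 = ev f (x + y δ) (ev_intmul, ev_add), so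
K Ψ(w f) = x X + y δ² Y + φ δ (x Y + y X) = (x + y φ δ)(X + φ δ Y) = K φ(w) Ψ f, X = ψ (ev f δ), Y = ψ (ev f 1), (φ δ)^2 = -D. Equivariance: p2 and gf_ev. (3) independence: for x in SUs L S define f by
ev f a = x ^ (det(1, a)) (an additive map of a with integer values): in HS, ev f 1 = 1, ev f δ = x ^ k, k = det(1, δ) ≠ 0, ψ i 1 = 0, so Ψ i f = k ψ i x and ∑ c i ψ i x = 0. -/
theorem exists_Psi {N L : Type} [Field N] [NumberField N] [Field L] [NumberField L] [Algebra N L] (S : Finset (Pl N))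
    {ι : Type} [Fintype ι] (φ : 𝓞 F →+* ℂ) (ω : Gal(L/N) → ℂ) (ψ : ι → Lˣ → ℂ) (p1 : ∀ i x y, ψ i (x * y) = ψ i x + ψ i y)
    (p2 : ∀ i g x, ψ i (guN g x) = ω g * ψ i x) (p3 : ∀ c : ι → ℂ, (∀ x ∈ SUs L S, ∑ i, c i * ψ i x = 0) → c = 0) :
    ∃ Ψ : ι → HM F L → ℂ, (∀ i f f', Ψ i (f + f') = Ψ i f + Ψ i f') ∧ (∀ i a f, Ψ i (a • f) = φ a * Ψ i f) ∧
      (∀ i g f, Ψ i (gf g f) = ω g * Ψ i f) ∧ ∀ c : ι → ℂ, (∀ f ∈ HS F L S, ∑ i, c i * Ψ i f = 0) → c = 0 := by
  obtain ⟨D, δ, hD, hδ⟩ := b4_delta F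
  have hK : b4_det F 1 δ ≠ 0 := b4_ne hD hδ
  have hKC : ((b4_det F 1 δ : ℤ) : ℂ) ≠ 0 := Int.cast_ne_zero.2 hK
  have hφ : φ δ ^ 2 = -(D : ℂ) := by
    rw [← map_pow, hδ, map_neg, map_natCast]
  have hz : ∀ i x (n : ℤ), ψ i (x ^ n) = n * ψ i x := fun i x n => b4_zpow (ψ i) (p1 i) x n
  refine ⟨fun i f => ψ i (ev f δ) + φ δ * ψ i (ev f 1), ?_, ?_, ?_, ?_⟩
  · intro i f f'
    simp only [add_ev, p1]
    ring
  · intro i w f
    have hid := b4_id (F := F) 1 δ w
    set K := b4_det F 1 δ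
    set x := b4_det F w δ
    set y := b4_det F 1 w
    rw [mul_one] at hid
    have h1 : (K : ℂ) * ψ i (ev f (w * δ)) = x * ψ i (ev f δ) - y * D * ψ i (ev f 1) := by
      rw [← hz, ← ev_intmul]
      have e1 : (K : 𝓞 F) * (w * δ) = (x : 𝓞 F) * δ + ((-(y * D) : ℤ) : 𝓞 F) * 1 := by
        push_cast
        linear_combination δ * hid + (y : 𝓞 F) * hδ
      rw [e1, ev_add, p1, ev_intmul, ev_intmul, hz, hz]
      push_cast
      ring
    have h2 : (K : ℂ) * ψ i (ev f w) = x * ψ i (ev f 1) + y * ψ i (ev f δ) := by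
      rw [← hz, ← ev_intmul]
      have e1 : (K : 𝓞 F) * w = (x : 𝓞 F) * 1 + (y : 𝓞 F) * δ := by
        rw [mul_one]
        exact hid
      rw [e1, ev_add, p1, ev_intmul, ev_intmul, hz, hz]
    have h3 : (K : ℂ) * φ w = x + y * φ δ := by
      have h4 := congrArg φ hid
      rw [map_mul, map_add, map_mul, map_intCast, map_intCast, map_intCast] at h4
      exact h4
    simp only [smul_ev, mul_one]
    apply mul_left_cancel₀ hKC
    linear_combination h1 + φ δ * h2 - (ψ i (ev f δ) + φ δ * ψ i (ev f 1)) * h3 - y * ψ i (ev f 1) * hφ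
  · intro i g f
    simp only [gf_ev, p2]
    ring
  · intro c hc
    apply p3
    intro x hx
    have h1 := hc (mkHM (fun a => x ^ b4_det F 1 a) fun a b => by rw [b4_det_add, zpow_add]) (by
      rw [mem_HS]
      intro a
      rw [ev_mk]
      exact (SUs L S).zpow_mem hx _)
    simp only [ev_mk, b4_det_self, hz] at h1
    have h2 : ((b4_det F 1 δ : ℤ) : ℂ) * ∑ i, c i * ψ i x = 0 := by
      rw [Finset.mul_sum, ← h1]
      refine Finset.sum_congr rfl fun i _ => ?_
      push_cast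
      ring
    exact (mul_eq_zero.1 h2).resolve_left hKC

end SSN
end
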