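import Mathlib
import Pool.Agent.Lib.H1M.PP2.M011
import Pool.Agent.Lib.H1M.PP2.M105
import Pool.Agent.Lib.H1M.PP2.M108
import Pool.Agent.Lib.H1M.PP2.M144
import Pool.Agent.Lib.H1M.PP2.M154
import Pool.Agent.Lib.H1M.PP2.M164
import Pool.Agent.Lib.H1M.PP2.M168
import Pool.Agent.Lib.H1M.PP2.M172

/-! Merged copies (to shorten the build) of Lib.SSN.C1, Lib.SSN.C2, Lib.SSN.C4, Lib.SSN.C6. -/

-- from Lib.SSN.C1
section

/-! # SSN, chunk C1: the selection of a class -/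

open NumberField IsDedekindDomain WeierstrassCurve

namespace SSN

open H55P (IQ Pt ac Dec Inert decS Nm Ram)
open H35P (WAB Ker tt)
open H55K (Tor CMA Dta GV ak cj xc yc Lft TFld Abw exists_abw)
open H55K.S
open H55R (Pl ord smulP)
open H19B (DN mem_DN Cc CS mem_CS)
open H19C (SUs mem_SUs SUs_act CL mem_CL KR dl)
open H13S (Abv)
open H13X (Dat IsTB DecN algNL JV)
open H13Y (guN)

variable {F : Type} [Field F] [NumberField F] [IQ F] {A B : F} {Om : ℂ} {Ω : Type} [Field Ω] [DecidableEq Ω]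
  [Algebra F Ω] [IsAlgClosure F Ω] {j : Ω →+* ℂ} {act : 𝓞 F →+* AddMonoid.End (Pt (WAB A B) Ω)} {mo : Ideal (𝓞 F)}
  {ψ : Ideal (𝓞 F) →*₀ 𝓞 F}

variable {π : 𝓞 F} {l : ℕ} {e : Pt (WAB A B) Ω → Pt (WAB A B) Ω → Ω} {N N' L : IntermediateField F Ω}
  {c c' : (Ω ≃ₐ[F] Ω) → Pt (WAB A B) Ω} {V V₀ : ValuationSubring Ω} {T₀ : Pt (WAB A B) Ω}

omit [NumberField F] [IQ F] in
theorem c1_PG_add {N L : Type} [Field N] [Field L] [Algebra N L] [Fintype Gal(L/N)] (r : Gal(L/N) → 𝓞 F)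
    (f f' : HM F L) : PG r (f + f') = PG r f + PG r f' := by
  unfold PG
  rw [← Finset.sum_add_distrib]
  exact Finset.sum_congr rfl fun g _ => by rw [gf_add, smul_add]

omit [NumberField F] [IQ F] in
theorem c1_PG_smul {N L : Type} [Field N] [Field L] [Algebra N L] [Fintype Gal(L/N)] (r : Gal(L/N) → 𝓞 F)
    (a : 𝓞 F) (f : HM F L) : PG r (a • f) = a • PG r f := by
  unfold PG
  rw [Finset.smul_sum]
  exact Finset.sum_congr rfl fun g _ => by rw [gf_smul, smul_comm]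

omit [NumberField F] [IQ F] in
theorem c1_PG_sub {N L : Type} [Field N] [Field L] [Algebra N L] [Fintype Gal(L/N)] (r : Gal(L/N) → 𝓞 F)
    (f f' : HM F L) : PG r (f - f') = PG r f - PG r f' := by
  have h := c1_PG_add r (f - f') f'
  rw [sub_add_cancel] at h
  rw [h, add_sub_cancel_right]

/-- A valuation ring of the complex numbers above l. -/
theorem c1_V (l : ℕ) (hl : l.Prime) : ∃ V : ValuationSubring ℂ, V.valuation (l : ℂ) < 1 := by
  have : Fact l.Prime := ⟨hl⟩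
  obtain ⟨V, -, hV, -⟩ := H13Y.exists_teich l (k := ZMod l) (G := Unit) 1 (fun _ _ _ => rfl)
  exact ⟨V, hV⟩

theorem c1_int (V : ValuationSubring ℂ) {z : ℂ} (h : IsIntegral ℤ z) : z ∈ V := by
  have h2 : IsIntegral V z := h.tower_top
  obtain ⟨y, hy⟩ := (IsIntegrallyClosed.isIntegral_iff (R := V) (K := ℂ)).1 h2
  rw [← hy]
  exact y.2

/-- Chunk C1 (M). PROOF (model: H19C.sel_x, file H19C/GT2.lean). χ from exists_chi2; r g = χ g⁻¹; kri_exists: for f in HM a class g f with KRI (g f) (PG r f). YW = {f in HS F L S | there is c in Y' with KRI c (PG r f)}: a submodule (closed under differences: kri_sub with PG r additive,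
gf_add; scalars: kri_smul with the class act (cj a) c in Y' by hst and PG r (a • f) = a • PG r f, gf_smul), contains (l : 𝓞 F) • f (kri_lpow, class 0; PG r (l • f) = l • PG r f). Index: H19C.rel_mul-like argument: the map HS → CS N.fixingSubgroup, f ↦ g f sends f, f' with g f - g f' in Y' to f - f' in YW
(kri_sub), so YW has index ≤ Y'.relIndex (CS ..) and ≠ 0 (H19B.rel_map, for the additive groups ⊤ of the type HS and YW.toAddSubgroup; relIndex ⊤ = index). V: a valuation ring of ℂ with V(l) < 1 (take it from H13Y.exists_teich or LocalSubring.exists_le_valuationSubring; see H13Y for the existence), φ = eF F (𝓞 F →+* ℂ),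
φ a in V because φ a is integral over ℤ and V is integrally closed. The ideal of l in 𝓞 F is maximal (D.pr : Prime (l : 𝓞 F), 𝓞 F is a principal ideal ring, not a field: PrincipalIdealRing.isMaximal_of_irreducible), the residue field has Nm (l : 𝓞 F) = l ^ 2 elements (H55K.Nm_nat, Nm is by definition
Ideal.absNorm (span {·}) = Nat.card of the quotient). b1_teich, b1_sum (chi_card), ω ≠ 1: some s in N.fixingSubgroup moves a T (hmv), its restriction σ to L satisfies: l does not divide χ σ - 1 (otherwise ac s T = T by hχ.act), so V(ω σ - 1) = 1 or simply ω σ ≠ 1 by b1_one. H19C.exists_psiS with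
H13X.places_card (F := F) N (complex places, Fintype.card (InfinitePlace N) = finrank F N) and H13X.stab_N hL (hS w hw), exists_Psi, hs_fg, gn_lin for W = HS F L S, g σ x = ⟨gf σ x, gf_mem σ x.2⟩, Y = YW, q = l ^ 2, ι = InfinitePlace N ⊕ S. It gives x in YW with PG r x not of the form (l : 𝓞 F) • y, y in HS.
f = PG r x (PG_mem); if all the values ev f a were l-th powers then hs_pow would contradict. -/
theorem sel_in (D : Dat A B Om j act mo ψ (l : 𝓞 F) l) (he : Pairing A B act (l : 𝓞 F) l e)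
    (hadj : ∀ (a : 𝓞 F), ∀ X ∈ Tor act (cj (l : 𝓞 F)), ∀ T ∈ Tor act (l : 𝓞 F), e (act a X) T = e X (act (cj a) T))
    [NumberField N] [NumberField L] (hL : IsTB act (l : 𝓞 F) N L) (hT₀ : T₀ ∈ Tor act (l : 𝓞 F)) (h0 : T₀ ≠ 0)
    (hmv : ∃ s ∈ N.fixingSubgroup, ∃ T ∈ Tor act (l : 𝓞 F), ac (WAB A B) s T ≠ T) (S : Finset (Pl N))
    (hS : ∀ v ∈ S, ∀ V : ValuationSubring Ω, Abv N V v → ∀ s, DecN N V s → ∀ T ∈ Tor act (l : 𝓞 F), ac (WAB A B) s T = T)
    (Y' : AddSubgroup ((Ω ≃ₐ[F] Ω) → Pt (WAB A B) Ω)) (hY' : Y' ≤ CS N.fixingSubgroup act (cj (l : 𝓞 F)))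
    (hst : ∀ (a : 𝓞 F), ∀ c ∈ Y', (fun s => act a (c s)) ∈ Y')
    (hf : Y'.relIndex (CS N.fixingSubgroup act (cj (l : 𝓞 F))) ≠ 0)
    (hc : Y'.relIndex (CS N.fixingSubgroup act (cj (l : 𝓞 F))) < (l ^ 2) ^ (Module.finrank F N + S.card)) :
    letI := algNL hL.le
    ∃ f ∈ HS F L S, ∃ c ∈ Y', KRI act L e l T₀ c f ∧ ¬ ∀ a, ∃ z : (L)ˣ, ev f a = z ^ l := by
  classical
  letI := algNL hL.le
  have hA := D.cma
  have hp := D.pr
  have hl : l.Prime := D.hl
  have hT : IsScalarTower F N L := IsScalarTower.of_algebraMap_eq fun x => Subtype.ext rfl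
  have hT' : IsScalarTower N L Ω := IsScalarTower.of_algebraMap_eq fun x => rfl
  have hTF := H13X.tfld_of_tb hA hL
  have hgal : IsGalois N L := hTF.gal
  letI : Fintype Gal(L/N) := Fintype.ofFinite _
  obtain ⟨χ, hχ⟩ := exists_chi2 hA hp hL
  choose g hgC hgK using fun f : HM F L => kri_exists D he hL hT₀ h0 χ hχ f
  have hval : ∀ c ∈ Y', ∀ s ∈ L.fixingSubgroup, c s ∈ Tor act (cj (l : 𝓞 F)) := fun c hc s hs =>
    ((mem_CS _ _ _).1 (hY' hc)).tor s (hL.mono hs)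
  -- the submodule
  obtain ⟨YW, hYW⟩ : ∃ YW : Submodule (𝓞 F) (HS F L S), ∀ x : HS F L S, x ∈ YW ↔
      ∃ c ∈ Y', KRI act L e l T₀ c (PG (fun g => χ g⁻¹) x.1) := by
    refine ⟨{ carrier := {x | ∃ c ∈ Y', KRI act L e l T₀ c (PG (fun g => χ g⁻¹) x.1)}
              add_mem' := ?_, zero_mem' := ?_, smul_mem' := ?_ }, fun x => Iff.rfl⟩
    · rintro x y ⟨c, hc, h1⟩ ⟨c', hc', h2⟩
      have h3 := kri_sub D he hT₀ (hval 0 Y'.zero_mem) (hval c' hc') (kri_zero D he hT₀) h2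
      have h4 := kri_sub D he hT₀ (hval c hc) (hval _ (Y'.sub_mem Y'.zero_mem hc')) h1 h3
      refine ⟨c - (0 - c'), Y'.sub_mem hc (Y'.sub_mem Y'.zero_mem hc'), ?_⟩
      have h5 : PG (fun g => χ g⁻¹) (x + y : HS F L S).1 = PG (fun g => χ g⁻¹) x.1 - (0 - PG (fun g => χ g⁻¹) y.1) := by
        rw [Submodule.coe_add, c1_PG_add]
        abel
      rw [h5]
      exact h4
    · refine ⟨0, Y'.zero_mem, ?_⟩
      have h5 : PG (fun g => χ g⁻¹) (0 : HS F L S).1 = (0 : HM F L) := by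
        have h6 := c1_PG_smul (fun g => χ g⁻¹) (0 : 𝓞 F) (0 : HM F L)
        rw [zero_smul, zero_smul] at h6
        exact h6
      rw [h5]
      exact kri_zero D he hT₀
    · rintro a x ⟨c, hc, h1⟩
      refine ⟨_, hst (cj a) c hc, ?_⟩
      rw [Submodule.coe_smul, c1_PG_smul]
      exact kri_smul he hadj hT₀ (hval c hc) h1 a
  have hY : ∀ x : HS F L S, (l : 𝓞 F) • x ∈ YW := by
    intro x
    rw [hYW]
    refine ⟨0, Y'.zero_mem, ?_⟩
    rw [Submodule.coe_smul, c1_PG_smul]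
    exact kri_lpow D he hT₀ _
  have hidx := H19B.rel_map YW.toAddSubgroup ⊤ Y' (CS N.fixingSubgroup act (cj (l : 𝓞 F))) (fun x : HS F L S => g x.1)
    (fun x _ => (mem_CS _ _ _).2 (H19C.cc_of (hgC x.1)))
    (fun x _ x' _ hxx => by
      show x - x' ∈ YW
      rw [hYW]
      refine ⟨g x.1 - g x'.1, hxx, ?_⟩
      rw [Submodule.coe_sub, c1_PG_sub]
      exact kri_sub D he hT₀ (fun s hs => (hgC x.1).val s (hL.mono hs)) (fun s hs => (hgC x'.1).val s (hL.mono hs))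
        (hgK x.1) (hgK x'.1)) hf
  rw [AddSubgroup.relIndex_top_right] at hidx
  -- the valuation ring
  obtain ⟨VC, hV⟩ := c1_V l hl
  have hφ : ∀ a : 𝓞 F, H55P.eF F a ∈ VC := by
    intro a
    apply c1_int
    have h1 : IsIntegral ℤ a := Algebra.IsIntegral.isIntegral a
    exact map_isIntegral_int (H55P.eF F) h1
  have hl0 : (l : 𝓞 F) ≠ 0 := hp.ne_zero
  have hmax : (Ideal.span {(l : 𝓞 F)}).IsMaximal := by
    have h1 : (Ideal.span {(l : 𝓞 F)}).IsPrime := (Ideal.span_singleton_prime hl0).2 hp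
    exact h1.isMaximal (by rw [Ne, Ideal.span_singleton_eq_bot]; exact hl0)
  have hq : Nat.card (𝓞 F ⧸ Ideal.span {(l : 𝓞 F)}) = l ^ 2 := by
    have h1 := H55K.Nm_nat (F := F) l
    rw [← h1]
    rfl
  have hq1 : 1 < l ^ 2 := Nat.one_lt_pow two_ne_zero hl.one_lt
  have hfin : Finite (𝓞 F ⧸ Ideal.span {(l : 𝓞 F)}) := Nat.finite_of_card_ne_zero (by rw [hq]; omega)
  obtain ⟨ω, hω⟩ := b1_teich hl hmax hfin hφ hV hχ.mul hχ.ne
  have hsum := b1_sum hl hφ hV hχ.mul hχ.one (chi_card D hL χ hχ) (fun σ => (ω σ : ℂ)) hω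
  have hω1 : ω ≠ 1 := by
    intro h
    obtain ⟨s, hs, T, hTT, hne⟩ := hmv
    obtain ⟨σ, hσ⟩ := H13X.exists_restr hA hL s hs
    have h2 := hω σ
    have h3 : σ = 1 := by
      apply hχ.inj
      apply b1_one hmax hφ hV
      rw [h] at h2
      have h4 : H55P.eF F (χ σ - 1) = -(((1 : Gal(L/N) →* ℂˣ) σ : ℂ) - H55P.eF F (χ σ)) := by
        rw [map_sub, map_one, MonoidHom.one_apply, Units.val_one]
        ring
      rw [h4, Valuation.map_neg]
      exact h2
    apply hne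
    refine ((hL.fix s).1 ?_).2 T hTT
    rw [IntermediateField.mem_fixingSubgroup_iff]
    intro x hx
    have h4 := hσ ⟨x, hx⟩
    rw [h3] at h4
    exact h4
  obtain ⟨hcx, hcardN⟩ := H13X.places_card (F := F) N
  obtain ⟨ψ', p1, p2, p3⟩ := H19C.exists_psiS hcx ω hω1 S (fun w hw => H13X.stab_N hL (hS w hw))
  obtain ⟨Ψ, q0, q1, q2, q3⟩ := exists_Psi (F := F) S (H55P.eF F) (fun σ => (ω σ : ℂ)) ψ' p1 p2 p3
  obtain ⟨x, hx, hnx⟩ := gn_lin hl hmax hq hq1 (W := HS F L S) (G := Gal(L/N))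
    (fun σ x => ⟨gf σ x.1, gf_mem σ x.2⟩) (fun σ => χ σ⁻¹) YW hY (ι := InfinitePlace N ⊕ S) hidx.1 (by
      rw [Fintype.card_sum, hcardN, Fintype.card_coe]
      exact lt_of_le_of_lt hidx.2 hc) (H55P.eF F) VC hV (fun σ => (ω σ : ℂ)) hsum (fun i x => Ψ i x.1)
    (fun i x y => q0 i x.1 y.1) (fun i a x => q1 i a x.1) (fun i σ x => q2 i σ x.1)
    (fun c h => q3 c fun f hf => h ⟨f, hf⟩) (hs_fg S)
  obtain ⟨c, hc', hK⟩ := (hYW x).1 hx
  refine ⟨PG (fun g => χ g⁻¹) x.1, PG_mem _ x.2, c, hc', hK, fun hall => ?_⟩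
  obtain ⟨y, hy, hxy⟩ := hs_pow hl.ne_zero (PG_mem (fun g => χ g⁻¹) x.2) hall
  apply hnx ⟨y, hy⟩
  apply Subtype.ext
  rw [Submodule.coe_smul, ← hxy]
  unfold PG
  rw [AddSubmonoidClass.coe_finsetSum]
  rfl

end SSN
end

-- from Lib.SSN.C2
section

/-! # SSN, chunk C2: THE GLOBAL CLASS -/

open NumberField IsDedekindDomain WeierstrassCurve

namespace SSN

open H55P (IQ Pt ac Dec Inert decS Nm Ram)
open H35P (WAB Ker tt)
open H55K (Tor CMA Dta GV ak cj xc yc Lft TFld Abw exists_abw)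
open H55K.S
open H55R (Pl ord smulP)
open H19B (DN mem_DN Cc CS mem_CS)
open H19C (SUs mem_SUs SUs_act CL mem_CL KR dl)
open H13S (Abv)
open H13X (Dat IsTB DecN algNL JV)
open H13Y (guN)

variable {F : Type} [Field F] [NumberField F] [IQ F] {A B : F} {Om : ℂ} {Ω : Type} [Field Ω] [DecidableEq Ω]
  [Algebra F Ω] [IsAlgClosure F Ω] {j : Ω →+* ℂ} {act : 𝓞 F →+* AddMonoid.End (Pt (WAB A B) Ω)} {mo : Ideal (𝓞 F)}
  {ψ : Ideal (𝓞 F) →*₀ 𝓞 F}

variable {π : 𝓞 F} {l : ℕ} {e : Pt (WAB A B) Ω → Pt (WAB A B) Ω → Ω} {N N' L : IntermediateField F Ω}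
  {c c' : (Ω ≃ₐ[F] Ω) → Pt (WAB A B) Ω} {V V₀ : ValuationSubring Ω} {T₀ : Pt (WAB A B) Ω}

omit [IsAlgClosure F Ω] in
theorem c2_cc (hA : CMA F A B Om j act) {D : Subgroup (Ω ≃ₐ[F] Ω)} {ρ : 𝓞 F} (a : 𝓞 F)
    {c : (Ω ≃ₐ[F] Ω) → Pt (WAB A B) Ω} (hc : Cc D act ρ c) : Cc D act ρ (fun s => act a (c s)) := by
  refine ⟨fun s hs t ht => ?_, fun s hs => ?_, ?_⟩
  · rw [hc.mul s hs t ht, map_add, H55K.S.ac_act hA]
  · rw [← act_mul, mul_comm, act_mul, hc.tor s hs, map_zero]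
  · obtain ⟨M, hM, h⟩ := hc.cont
    exact ⟨M, hM, fun s hs hs' => by rw [h s hs hs', map_zero]⟩

/-- The local conditions form a module. -/
theorem yt_smul (hA : CMA F A B Om j act) [NumberField N] (T : Finset (Pl N)) (Vv : Pl N → ValuationSubring Ω) (a : 𝓞 F)
    {c : (Ω ≃ₐ[F] Ω) → Pt (WAB A B) Ω} (hc : c ∈ H19C.YT act π N N' T Vv) : (fun s => act a (c s)) ∈ H19C.YT act π N N' T Vv := by
  obtain ⟨h1, h2⟩ := hc
  refine ⟨(mem_CS _ _ _).2 (c2_cc hA a ((mem_CS _ _ _).1 h1)), ?_⟩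
  refine AddSubgroup.mem_iInf.2 fun v => ?_
  obtain ⟨h3, P, h4⟩ := (mem_CL _ _ _ _).1 (AddSubgroup.mem_iInf.1 h2 v)
  refine (mem_CL _ _ _ _).2 ⟨c2_cc hA a h3, act a P, fun s hs => ?_⟩
  rw [h4 s hs, map_sub, H55K.S.ac_act hA]

/-- Chunk C2 (M/L), two theorems. PROOF of yt_smul (model of the definition: H19C.YT, file GT2): the conditions of CS (mul, tor, cont) and CL are preserved by act a: act a (ac s P) = ac s (act a P) (H55K.S.ac_act hA).
PROOF of glob_in: word for word H19C.glob (file H19C/GT3.lean) with π = (l : 𝓞 F) and these changes: the only case for w is: l not in w and the decomposition groups at w fix Tor; S = (T.filter P) ∪ {w}; the local index is loc_in (LI.lean; CL, CS for cj (l : 𝓞 F) = l: H55K.cj_nat) with bound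
absNorm v ^ b v * (if P v then l ^ 2 else 1) (the square of dl); num_bound (GT2) for l ^ 2 in the place of l; hnorm: prod absNorm v ^ b v ≤ Nm (l : 𝓞 F) ^ finrank F N = (l ^ 2) ^ finrank F N (H19C.prod_norm_pow, H55K.Nm_nat); b from H19C.exists_b. So YT has relIndex ≤ (l ^ 2) ^ (finrank F N + (T.filter P).card)
< (l ^ 2) ^ (finrank F N + S.card). T₀ ≠ 0 in Tor act l with generation by act a T₀: H55K.S.gi_gen or H55K.tor_gen. e from exists_pairing2. sel_in gives f in HS, c in YT, KRI c f, not all values l-th powers. Not a coboundary: H13X.YG3_red and kri_cob. Local conditions: at the primes of T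
by c in YT and H19C.loc_conj; at w by kri_tame; elsewhere kri_out: the values of f are units at V (H19C.ord_val, mem_SUs). -/
theorem glob_in (D : Dat A B Om j act mo ψ (l : 𝓞 F) l) [NumberField N] [NumberField N'] (hNN : N ≤ N')
    (hn : ∀ s ∈ N.fixingSubgroup, ∀ x ∈ N', s x ∈ N') (hd : Module.finrank F N' = Module.finrank F N * l)
    {w : HeightOneSpectrum (𝓞 N)} (hr : Ram N N' w.asIdeal) (hlw : (l : 𝓞 N) ∉ w.asIdeal)
    (hfx : ∀ V : ValuationSubring Ω, Abv N V w → ∀ s, DecN N V s → ∀ T ∈ Tor act (l : 𝓞 F), ac (WAB A B) s T = T)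
    (hmv : ∃ s ∈ N.fixingSubgroup, ∃ T ∈ Tor act (l : 𝓞 F), ac (WAB A B) s T ≠ T) :
    ∃ c, H13X.Cc act (l : 𝓞 F) N c ∧ (¬ ∃ T : Pt (WAB A B) Ω, l • T = 0 ∧ ∀ s ∈ N.fixingSubgroup, c s = ac (WAB A B) s T - T) ∧
      ∀ V : ValuationSubring Ω, V ≠ ⊤ →
        ∃ P : Pt (WAB A B) Ω, ∀ s ∈ N'.fixingSubgroup, Dec V s → c s = ac (WAB A B) s P - P := by
  classical
  have hA := D.cma
  have hp := D.pr
  have hl := D.hl
  have hlf : Fact l.Prime := ⟨hl⟩
  have hch : CharZero Ω := charZero_of_injective_algebraMap (algebraMap F Ω).injective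
  have hNf : FiniteDimensional F N := H13X.yn1_fin N
  obtain ⟨L, hL⟩ := H13X.exists_TB hA (l : 𝓞 F) hp N
  have hLf : FiniteDimensional F L := hL.fin
  have hLn : NumberField L := NumberField.of_module_finite F L
  obtain ⟨e, he, hadj⟩ := exists_pairing2 (l : 𝓞 F) l D.dta hp D.dvd
  have hcj : cj (l : 𝓞 F) = (l : 𝓞 F) := H55K.cj_nat l
  obtain ⟨-, T₀, hT₀, hgen', hz⟩ := H55K.S.gi_gen hA (l : 𝓞 F) hp
  have hgen : ∀ T ∈ Tor act (l : 𝓞 F), ∃ a : 𝓞 F, act a T₀ = T := fun T hT => by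
    obtain ⟨a, ha⟩ := hgen' T hT
    exact ⟨a, ha.symm⟩
  have h0 : T₀ ≠ 0 := by
    intro h
    have h1 := (hz 1).1 (by rw [h, map_zero])
    exact hp.not_isUnit (isUnit_of_dvd_one h1)
  -- the primes above l
  let T : Finset (Pl N) := (H19C.fin_above N hl.ne_zero).toFinset
  have hTm : ∀ v : Pl N, v ∈ T ↔ (l : 𝓞 N) ∈ v.asIdeal := fun v => by
    rw [Set.Finite.mem_toFinset]
    exact Iff.rfl
  have hexV : ∀ v : Pl N, ∃ V : ValuationSubring Ω, Abv N V v := fun v => by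
    obtain ⟨V, hV⟩ := exists_abw Ω v
    exact ⟨V, hV⟩
  choose Vv hVv using hexV
  obtain ⟨b, hb⟩ := H19C.exists_b (Ω := Ω) hp.ne_zero N
  let P : Pl N → Prop := fun v => ∀ s ∈ DN N (Vv v), ∀ X : Pt (WAB A B) Ω, act (l : 𝓞 F) X = 0 → ac (WAB A B) s X = X
  have hdl : ∀ v, (dl l (DN N (Vv v)) act (l : 𝓞 F)) ^ 2 = if P v then l ^ 2 else 1 := fun v => by
    have h1 : dl l (DN N (Vv v)) act (l : 𝓞 F) = if P v then l else 1 := rfl
    rw [h1]
    split_ifs
    · rfl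
    · exact one_pow 2
  have hlO : algebraMap (𝓞 F) (𝓞 N) (l : 𝓞 F) = (l : 𝓞 N) := map_natCast _ _
  have hidx : ∀ v ∈ T, (CL (DN N (Vv v)) (DN N' (Vv v)) act (cj (l : 𝓞 F))).relIndex (CS (DN N (Vv v)) act (cj (l : 𝓞 F))) ≠ 0 ∧
      (CL (DN N (Vv v)) (DN N' (Vv v)) act (cj (l : 𝓞 F))).relIndex (CS (DN N (Vv v)) act (cj (l : 𝓞 F))) ≤
        Ideal.absNorm v.asIdeal ^ b v * if P v then l ^ 2 else 1 := by
    intro v hv
    rw [hcj, ← hdl]
    have hb0 : 0 < b v := by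
      rcases (hb v).2 with h1 | h1
      · exact h1.2
      · exact absurd ((hTm v).1 hv) (by rw [← hlO]; exact h1.1)
    exact loc_in D hNN ((hTm v).1 hv) (hVv v) hb0 (hb v).1
  have hnorm : ∏ v ∈ T, Ideal.absNorm v.asIdeal ^ b v ≤ (l ^ 2) ^ Module.finrank F N := by
    have h1 := H19C.prod_norm_pow hp.ne_zero T b fun v _ => (hb v).1
    rw [H55K.Nm_nat] at h1
    exact h1
  have hY := H19C.yt_index (act := act) (π := (l : 𝓞 F)) (N' := N') T Vv fun v hv => (hidx v hv).1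
  -- the set S
  let S : Finset (Pl N) := T.filter P ∪ {w}
  have hSm : ∀ v, v ∈ S → (v ∈ T ∧ P v) ∨ v = w := by
    intro v hv
    rcases Finset.mem_union.1 hv with h1 | h1
    · exact Or.inl (Finset.mem_filter.1 h1)
    · exact Or.inr (Finset.mem_singleton.1 h1)
  have hS : ∀ v ∈ S, ∀ V : ValuationSubring Ω, Abv N V v → ∀ s, DecN N V s → ∀ T ∈ Tor act (l : 𝓞 F), ac (WAB A B) s T = T := by
    intro v hv V hV s hs' X hX
    rcases hSm v hv with h1 | h1
    · exact H19C.fix_conj hA (hVv v) hV (l : 𝓞 F) h1.2 s (mem_DN.2 hs') X hX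
    · rw [h1] at hV
      exact hfx V hV s hs' X hX
  have hcard : (H19C.YT act (l : 𝓞 F) N N' T Vv).relIndex (CS N.fixingSubgroup act (cj (l : 𝓞 F))) <
      (l ^ 2) ^ (Module.finrank F N + S.card) := by
    refine lt_of_le_of_lt hY.2 ?_
    have hwT : w ∉ T.filter P := fun h => hlw ((hTm w).1 (Finset.mem_filter.1 h).1)
    have hSe : S.card = (T.filter P).card + 1 := by
      show (T.filter P ∪ {w}).card = _
      rw [Finset.card_union_of_disjoint (Finset.disjoint_singleton_right.2 hwT), Finset.card_singleton]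
    rw [hSe]
    have h4 := H19C.num_bound T P (fun v => (CL (DN N (Vv v)) (DN N' (Vv v)) act (cj (l : 𝓞 F))).relIndex
      (CS (DN N (Vv v)) act (cj (l : 𝓞 F)))) (fun v => Ideal.absNorm v.asIdeal) b (l ^ 2) (fun v hv => (hidx v hv).2)
    have h5 := h4.trans (Nat.mul_le_mul_right _ hnorm)
    rw [← pow_add] at h5
    refine lt_of_le_of_lt h5 (Nat.pow_lt_pow_right (Nat.one_lt_pow two_ne_zero hl.one_lt) ?_)
    omega
  let _ := algNL hL.le
  have hTs : IsScalarTower F N L := IsScalarTower.of_algebraMap_eq fun x => Subtype.ext rfl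
  have hTs' : IsScalarTower N L Ω := IsScalarTower.of_algebraMap_eq fun x => rfl
  obtain ⟨f, hf, c, hcY, hcK, hne⟩ := sel_in D he hadj hL hT₀ h0 hmv S hS (H19C.YT act (l : 𝓞 F) N N' T Vv) inf_le_left
    (fun a c hc => yt_smul hA T Vv a hc) hY.1 hcard
  have C : H13X.Cc act (l : 𝓞 F) N c := H19C.of_cc ((mem_CS _ _ _).1 hcY.1)
  refine ⟨c, C, ?_, fun V hVt => ?_⟩
  · rintro ⟨X, hX, hcX⟩
    obtain ⟨X', hX', hcX'⟩ := H13X.YG3_red D C hX hcX
    exact hne fun a => kri_cob D he hL hT₀ hcK hX' hcX' a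
  · obtain ⟨W, hW⟩ := H13X.xg3_below (F := F) L hVt
    have hW' : Abw V W := hW
    obtain ⟨v, hvd⟩ : ∃ v : Pl N, W.under (𝓞 N) = v := ⟨_, rfl⟩
    have hV : Abv N V v := hW'.below hvd
    by_cases hlv : (l : 𝓞 N) ∈ v.asIdeal
    · have h1 : c ∈ CL (DN N (Vv v)) (DN N' (Vv v)) act (cj (l : 𝓞 F)) := by
        have h2 := AddSubgroup.mem_iInf.1 hcY.2
        exact h2 ⟨v, (hTm v).2 hlv⟩
      exact H19C.loc_conj C hNN hn (hVv v) hV ((mem_CL _ _ _ _).1 h1).2
    · have hVl : V.valuation (l : Ω) = 1 := by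
        have h1 := H13X.yg2_unit hV (l : 𝓞 N) hlv
        have h2 : (((l : 𝓞 N) : N) : Ω) = l := by
          have e1 : ((l : 𝓞 N) : N) = l := map_natCast (algebraMap (𝓞 N) N) l
          rw [e1]
          exact map_natCast (algebraMap N Ω) l
        rwa [h2] at h1
      by_cases hvw : v = w
      · rw [hvw] at hV
        exact kri_tame D he hL C hNN hT₀ hgen hn hd hr hV hVt hVl (hfx V hV)
      · refine kri_out D he hL C hNN hT₀ hgen hcK hVt hVl fun a => ?_
        have h1 : ev f a ∈ SUs L S := mem_HS.1 hf a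
        refine H19C.ord_val hW' (mem_SUs.1 h1 W ?_)
        rw [hvd]
        intro h2
        rcases hSm v h2 with h3 | h3
        · exact hlv ((hTm v).1 h3.1)
        · exact hvw h3

end SSN
end

-- from Lib.SSN.C4
section

/-! # SSN, chunk C4: one step and the chain -/

open NumberField IsDedekindDomain WeierstrassCurve

namespace SSN

open H55P (IQ Pt ac Dec Inert decS Nm Ram)
open H35P (WAB Ker tt)
open H55K (Tor CMA Dta GV ak cj xc yc Lft TFld Abw exists_abw)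
open H55K.S
open H55R (Pl ord smulP)
open H19B (DN mem_DN Cc CS mem_CS)
open H19C (SUs mem_SUs SUs_act CL mem_CL KR dl)
open H13S (Abv)
open H13X (Dat IsTB DecN algNL JV)
open H13Y (guN)

variable {F : Type} [Field F] [NumberField F] [IQ F] {A B : F} {Om : ℂ} {Ω : Type} [Field Ω] [DecidableEq Ω]
  [Algebra F Ω] [IsAlgClosure F Ω] {j : Ω →+* ℂ} {act : 𝓞 F →+* AddMonoid.End (Pt (WAB A B) Ω)} {mo : Ideal (𝓞 F)}
  {ψ : Ideal (𝓞 F) →*₀ 𝓞 F}

variable {π : 𝓞 F} {l : ℕ} {e : Pt (WAB A B) Ω → Pt (WAB A B) Ω → Ω} {N N' L : IntermediateField F Ω}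
  {c c' : (Ω ≃ₐ[F] Ω) → Pt (WAB A B) Ω} {V V₀ : ValuationSubring Ω} {T₀ : Pt (WAB A B) Ω}

open H13Z (SelNon)
open H55P (PExt)

/-- Chunk C4 (M), two theorems. PROOF of step_in (model: H13R.sel_stepR, file H13R/G4.lean). If some R ≠ 0 with l • R = 0 is fixed by N'.fixingSubgroup: non_of_tors (WAB A B is elliptic: hell). Otherwise no such R exists (hno); then hmv holds for N: some T ≠ 0 in Tor act l (H55K.S.gi_gen or D; l • T = act l T = 0: act_nat),
not fixed by N'.fixingSubgroup ≤ N.fixingSubgroup. glob_in gives c; the same c over N' (restriction), as in sel_stepR: H13Y.cob_down with hno for the last condition. -/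
theorem step_in (D : Dat A B Om j act mo ψ (l : 𝓞 F) l) (hell : (WAB A B).IsElliptic) {N N' : IntermediateField F Ω} [NumberField N] [NumberField N'] (hNN : N ≤ N')
    (hn : ∀ s ∈ N.fixingSubgroup, ∀ x ∈ N', s x ∈ N') (hd : Module.finrank F N' = Module.finrank F N * l)
    {w : HeightOneSpectrum (𝓞 N)} (hr : Ram N N' w.asIdeal) (hlw : (l : 𝓞 N) ∉ w.asIdeal)
    (hfx : ∀ V : ValuationSubring Ω, Abv N V w → ∀ s, DecN N V s → ∀ T ∈ Tor act (l : 𝓞 F), ac (WAB A B) s T = T) :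
    SelNon (WAB A B) l N' := by
  classical
  have hl := D.hl
  have hch : CharZero Ω := charZero_of_injective_algebraMap (algebraMap F Ω).injective
  have hNf : FiniteDimensional F N := H13X.yn1_fin N
  have hNf' : FiniteDimensional F N' := H13X.yn1_fin N'
  have hmono : ∀ s ∈ N'.fixingSubgroup, s ∈ N.fixingSubgroup := fun s hs =>
    IntermediateField.fixingSubgroup_antitone hNN hs
  have hcj : cj (l : 𝓞 F) = (l : 𝓞 F) := H55K.cj_nat l
  have hlT : ∀ T ∈ Tor act (l : 𝓞 F), l • T = 0 := fun T hT => H13X.lcb_l D (by rw [hcj]; exact hT)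
  by_cases hno : ∀ R : Pt (WAB A B) Ω, l • R = 0 → (∀ s ∈ N'.fixingSubgroup, ac (WAB A B) s R = R) → R = 0
  swap
  · push Not at hno
    obtain ⟨R, h1, h2, h3⟩ := hno
    exact non_of_tors (WAB A B) l hl N' h1 h3 h2
  obtain ⟨-, T₀, hT₀, hgen', hz⟩ := H55K.S.gi_gen D.cma (l : 𝓞 F) D.pr
  have h0 : T₀ ≠ 0 := by
    intro h
    have h1 := (hz 1).1 (by rw [h, map_zero])
    exact D.pr.not_isUnit (isUnit_of_dvd_one h1)
  have hmv : ∃ s ∈ N.fixingSubgroup, ∃ T ∈ Tor act (l : 𝓞 F), ac (WAB A B) s T ≠ T := by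
    by_contra hc
    push Not at hc
    exact h0 (hno T₀ (hlT _ hT₀) fun s hs => hc s (hmono s hs) T₀ hT₀)
  obtain ⟨c, hc, hnc, hloc⟩ := glob_in D hNN hn hd hr hlw hfx hmv
  refine ⟨c, ⟨fun s hs t ht => hc.mul s (hmono s hs) t (hmono t ht), ?_⟩, fun s hs =>
    H13X.lcb_l D (hc.val s (hmono s hs)), hloc, ?_⟩
  · obtain ⟨M, hM, h2⟩ := hc.cont
    exact ⟨M, hM, fun s hs hsM => h2 s (hmono s hs) hsM⟩
  · rintro ⟨T, hT, h⟩
    refine hnc ⟨T, hT, ?_⟩
    exact H13Y.cob_down (WAB A B) l hNN hn hno hc.mul (fun s hs => H13X.lcb_l D (hc.val s hs)) hT h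

/-- PROOF (model: H13R.x_coreR, file H13R/G4.lean, without UnrP and Nb). Induction on the degree of K. If E(K) has a point R ≠ 0 with l • R = 0 (fixed by K.fixingSubgroup): non_of_tors. Otherwise chain_step gives M ≤ N < K, normal of degree l; if v is ramified in N: the induction hypothesis and H13Y.non_up with the
absence of points of order l over K; if not, ram_upR gives w over v ramified in K, l not in w, and step_in with trans_V as in x_coreR. -/
theorem chain_in {F : Type} [Field F] [NumberField F] [IQ F] {A B : F} {Om : ℂ} [DecidableEq (AlgebraicClosure F)]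
    {j : AlgebraicClosure F →+* ℂ} {act : 𝓞 F →+* AddMonoid.End (Pt (WAB A B) (AlgebraicClosure F))} {mo : Ideal (𝓞 F)}
    {ψ : Ideal (𝓞 F) →*₀ 𝓞 F} {l : ℕ} (D : Dat A B Om j act mo ψ (l : 𝓞 F) l) (hell : (WAB A B).IsElliptic) {M L₀ : IntermediateField F (AlgebraicClosure F)}
    [NumberField M] (hL : PExt l M L₀)
    (K : IntermediateField F (AlgebraicClosure F)) [NumberField K] (hMK : M ≤ K) (hKL : K ≤ L₀)
    {v : HeightOneSpectrum (𝓞 M)} (hr : Ram M K v.asIdeal) (hl : (l : 𝓞 M) ∉ v.asIdeal)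
    {V₀ : ValuationSubring (AlgebraicClosure F)} (hV₀ : Abv M V₀ v)
    (hfx : ∀ s, DecN M V₀ s → ∀ T ∈ Tor act (l : 𝓞 F), ac (WAB A B) s T = T) : SelNon (WAB A B) l K := by
  classical
  have hlp := D.hl
  obtain ⟨n, hn⟩ : ∃ n, Module.finrank F K = n := ⟨_, rfl⟩
  have hL₀f : FiniteDimensional F L₀ := hL.fin
  induction n using Nat.strong_induction_on generalizing K with
  | _ n ih =>
    have hKf : FiniteDimensional F K := H55P.finDim_of_le hKL
    by_cases hno : ∀ R : Pt (WAB A B) (AlgebraicClosure F), l • R = 0 →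
      (∀ s ∈ K.fixingSubgroup, ac (WAB A B) s R = R) → R = 0
    swap
    · push Not at hno
      obtain ⟨R, h1, h2, h3⟩ := hno
      exact non_of_tors (WAB A B) l hlp K h1 h3 h2
    have hne : K ≠ M := by
      rintro rfl
      exact H55P.ram_self _ v hr
    obtain ⟨N, hMN, hNK, hd, hnorm⟩ := H55P.chain_step l D.hl M K L₀ hL hMK hKL hne
    have hNf : FiniteDimensional F N := H55P.finDim_of_le hNK
    have hNn : NumberField N := NumberField.of_module_finite F N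
    have hlt : Module.finrank F N < n := by
      have h0 : 0 < Module.finrank F N := Module.finrank_pos
      have h2 := D.hl.two_le
      rw [← hn, hd]
      nlinarith
    by_cases hrN : Ram M N v.asIdeal
    · exact H13Y.non_up (WAB A B) l hNK hnorm hno (ih _ hlt N hMN (hNK.trans hKL) hrN rfl)
    · obtain ⟨w, hw, hram⟩ := H13R.ram_upR hMN hNK v hr hrN
      have hlw : (l : 𝓞 N) ∉ w.asIdeal := by
        intro h
        exact hl ((hw (l : 𝓞 M) (l : 𝓞 N) (by simp)).2 h)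
      refine step_in D hell hNK hnorm hd hram hlw fun V hV s hs T hT => ?_
      have hVv : Abv M V v := H13R.abv_downR hMN hw hV
      obtain ⟨σ, hσM, hσ⟩ := H13X.trans_V M hV₀ hVv
      have hD : DecN M V₀ (σ⁻¹ * s * σ) := by
        refine ⟨mul_mem (mul_mem (inv_mem hσM) (IntermediateField.fixingSubgroup_antitone hMN hs.1)) hσM, fun x => ?_⟩
        have h1 := hσ (σ⁻¹ (s (σ x)))
        have h2 : σ (σ⁻¹ (s (σ x))) = s (σ x) := σ.apply_symm_apply _
        rw [h2] at h1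
        exact h1.symm.trans ((hs.2 (σ x)).trans (hσ x))
      have h3 := hfx _ hD (ac (WAB A B) σ⁻¹ T) (ac_mem D.cma σ⁻¹ hT)
      rw [← ac_mul, show σ⁻¹ * s * σ * σ⁻¹ = σ⁻¹ * s by group, ac_mul] at h3
      have h4 := congrArg (ac (WAB A B) σ) h3
      have h5 : ∀ P, ac (WAB A B) σ (ac (WAB A B) σ⁻¹ P) = P := fun P => by
        rw [← ac_mul, mul_inv_cancel, ac_one]
      rwa [h5, h5] at h4

end SSN
end

-- from Lib.SSN.C6
section

/-! # SSN, chunk C6: THE CONVERSE FOR SELMER GROUPS, p inert -/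

open NumberField IsDedekindDomain WeierstrassCurve

namespace SSN

open H55P (IQ Pt ac Dec Inert decS Nm Ram)
open H35P (WAB Ker tt)
open H55K (Tor CMA Dta GV ak cj xc yc Lft TFld Abw exists_abw)
open H55K.S
open H55R (Pl ord smulP)
open H19B (DN mem_DN Cc CS mem_CS)
open H19C (SUs mem_SUs SUs_act CL mem_CL KR dl)
open H13S (Abv)
open H13X (Dat IsTB DecN algNL JV)
open H13Y (guN)

open H55K.TQ (BaseH PrimeH)
open H55P (PExt)
open H13R (NoRel)
open H13Z (SelNon)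

open Classical in
/-- Chunk C6 (M). PROOF: H13R.nonselR (file H13R/G6.lean) with: p not in v by ss_pts (in the place of g6_ram_p); lk_decR as there; the prime π of lk_piR divides p, which is prime (hin), so they are associated and Tor act π = Tor act p: or directly: Tor act p is generated by T (H55K.tor_gen) and the decomposition group commutes
with the action of 𝓞 F (ac_act). D : Dat A B Om j act m ψ (p : 𝓞 F) p := ⟨hD, prime, dvd_rfl⟩; chain_in in the place of x_coreR. -/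
theorem nonsel_in {F : Type} [Field F] [NumberField F] [IQ F] {W₀ : WeierstrassCurve (𝓞 F)} {Om : ℂ}
    {m : Ideal (𝓞 F)} {ψ : Ideal (𝓞 F) →*₀ 𝓞 F} {p : ℕ} (hH : BaseH F W₀ Om m ψ) (hp : PrimeH F W₀ p)
    (hin : (Ideal.span {(p : 𝓞 F)}).IsPrime) {M L K : IntermediateField F (AlgebraicClosure F)}
    [NumberField M] [NumberField K] (hL : PExt p M L) (hMK : M ≤ K) (hKL : K ≤ L)
    (hN : ¬ NoRel p W₀ M K) : SelNon (W₀⁄F) p K := by
  obtain ⟨v, hr, hΔ, hpts⟩ : ∃ v : HeightOneSpectrum (𝓞 M), Ram M K v.asIdeal ∧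
      algebraMap (𝓞 F) (𝓞 M) W₀.Δ ∉ v.asIdeal ∧
      p ∣ Nat.card (W₀⁄(𝓞 M ⧸ v.asIdeal)).toAffine.Point := by
    unfold NoRel at hN
    push Not at hN
    exact hN
  have hB := H55K.TQ.base_of hH hp
  obtain ⟨j, hj⟩ := H55K.exists_j F (AlgebraicClosure F)
  obtain ⟨A, hA⟩ : ∃ A : F, A = -(algebraMap (𝓞 F) F W₀.c₄) / 48 := ⟨_, rfl⟩
  obtain ⟨B, hB'⟩ : ∃ B : F, B = -(algebraMap (𝓞 F) F W₀.c₆) / 864 := ⟨_, rfl⟩
  have hd := H55K.y3_ne W₀ hA hB' hB.data.ell
  have hper : H55P.Per F (H55P.embF F A) (H55P.embF F B) Om := by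
    have e1 : H55P.embF F A = -(H55P.eF F W₀.c₄) / 48 := by
      rw [hA, map_div₀, map_neg, map_ofNat]
      rfl
    have e2 : H55P.embF F B = -(H55P.eF F W₀.c₆) / 864 := by
      rw [hB', map_div₀, map_neg, map_ofNat]
      rfl
    rw [e1, e2]
    exact hB.data.per
  obtain ⟨act, hact⟩ := H55K.exists_CMA F A B Om j hd hper hj
  have hG : ∀ V : ValuationSubring (AlgebraicClosure F),
      ∃ (Kg : AddSubgroup (Pt (WAB A B) (AlgebraicClosure F))) (u : AlgebraicClosure F),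
        H55K.GMod (WAB A B) V Kg u := fun V => H55K.exists_gmod hd (H55K.y3_j W₀ hA hB' hB.jint) V
  have hD : Dta A B Om j act m ψ p := H55K.mk_Dta hB hA hB' hact hG
  have hpv : (p : 𝓞 M) ∉ v.asIdeal := fun h => ss_pts hH hp hin M h hΔ hpts
  obtain ⟨V, hV⟩ : ∃ V : ValuationSubring (AlgebraicClosure F), Abv M V v := exists_abw (AlgebraicClosure F) v
  obtain ⟨T, hT0, hT, hf⟩ := H13R.lk_decR hact W₀ hB.data.ell hA hB' M hΔ hV hp.prime hp.five hpv hpts
  have hp0 : (p : 𝓞 F) ≠ 0 := by exact_mod_cast hp.prime.ne_zero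
  have hpp : Prime (p : 𝓞 F) := (Ideal.span_singleton_prime hp0).1 hin
  have hTm : T ∈ Tor act (p : 𝓞 F) := by
    rw [mem_Tor, act_nat (act := act)]
    exact hT
  have hfx : ∀ s, DecN M V s → ∀ R ∈ Tor act (p : 𝓞 F), ac (WAB A B) s R = R := by
    intro s hs R hR
    obtain ⟨a, rfl⟩ := H55K.tor_gen hact hpp hTm hR hT0
    rw [ac_act hact, hf s hs]
  have D : Dat A B Om j act m ψ (p : 𝓞 F) p := ⟨hD, hpp, dvd_rfl⟩
  have hell : (WAB A B).IsElliptic := by
    refine ⟨isUnit_iff_ne_zero.2 ?_⟩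
    have h1 : (WAB A B).Δ = -16 * (4 * A ^ 3 + 27 * B ^ 2) := by
      simp only [WAB, WeierstrassCurve.Δ, WeierstrassCurve.b₂, WeierstrassCurve.b₄, WeierstrassCurve.b₆, WeierstrassCurve.b₈]
      ring
    rw [h1]
    exact mul_ne_zero (by norm_num) hd
  exact H13X.xf_short W₀ hA hB' hB.data.ell p K (chain_in D hell hL K hMK hKL hr hpv hV hfx)

end SSN
end
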