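import Mathlib
import Pool.Agent.Lib.H1M.PP2.D_H19A_Stm
import Pool.Agent.Lib.H1M.PP2.D_H55G_D0
import Pool.Agent.Lib.H1M.PP2.D_H55G_S2
import Pool.Agent.Lib.H1M.PP2.M101
import Pool.Agent.Lib.H1M.PP2.M109
import Pool.Agent.Lib.H1M.PP2.M130
import Pool.Agent.Lib.H1M.PP2.M158
import Pool.Agent.Lib.H1M.PP2.M165
import Pool.Agent.Lib.H1M.PP2.M167
import Pool.Agent.Lib.H1M.PP2.M171
import Pool.Agent.Lib.H1M.PP2.M173

/-! Merged copies (to shorten the build) of Lib.H19A.LA, Lib.H55G.S2_T, Lib.H55G.S3, Lib.H55G.S4, Lib.H55G.S5. -/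

-- from Lib.H19A.LA
section

/-! # H19A: the local facts -/

open NumberField IsDedekindDomain WeierstrassCurve

namespace H19A

open H55P (IQ Pt ac)
open H35P (WAB)
open H55K H55K.TQ

theorem loc_all : SSG.LocAll := by
  classical
  intro F _ _ _ W Om m ψ p hH hp hI A B j act hA hB dta hc V hV γ hγ hg
  have hpf : Fact p.Prime := ⟨hp.prime⟩
  have hin : Prime (p : 𝓞 F) := (Ideal.span_singleton_prime (Nat.cast_ne_zero.2 hp.prime.ne_zero)).1 hI
  obtain ⟨i, hi⟩ := SSG.LP.exists_embC (F := F) V hV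
  have hS : H16S.Sup act p := H16S.s1 hH hp hin hA hB dta
  exact H16S.locp dta hin hV i hi hS hc hγ hg

end H19A
end

-- from Lib.H55G.S2_T
section

/-! # H55G, part S: statement of the theorem on supersingular cyclotomic towers, under OkM -/

open NumberField IsDedekindDomain WeierstrassCurve

namespace H55G

open H55P (IQ)
open H55K (GoodAt)
open H55K.TQ
open H19A (SplitM Layer AtLayer)





theorem base_o {F : Type} [Field F] [NumberField F] [IQ F] {p : ℕ} {W : WeierstrassCurve ℤ} {M : Type} [Field M] [NumberField M]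
    {ιM : M →ₐ[ℚ] AlgebraicClosure F} (h : H19A.Base F p W M ιM) : BaseO F p W M ιM :=
  ⟨h.split, fun w hw hg => absurd hg (h.bad w hw), h.unit⟩

theorem exist_o {F : Type} [Field F] [NumberField F] [IQ F] {p : ℕ} {W : WeierstrassCurve ℤ} (h : H19A.Exist F p W) : ExistO F p W := by
  intro H _ _ k hk
  obtain ⟨M, i1, i2, i3, a, b, c, d⟩ := h H k hk
  exact ⟨M, i1, i2, i3, a, b, c, fun ιM => base_o (d ιM)⟩

theorem existReal_o {F : Type} [Field F] [NumberField F] [IQ F] {p : ℕ} {W : WeierstrassCurve ℤ} (h : H19A.ExistReal F p W) :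
    ExistRealO F p W := by
  intro H _ _ k hk
  obtain ⟨M, i1, i2, a, b, c⟩ := h H k hk
  exact ⟨M, i1, i2, a, fun ιM => base_o (b ιM), c⟩

end H55G
end

-- from Lib.H55G.S3
section

/-! # H55G, part S: the theorem for the maximal order and for isogenous curves, under OkM -/

open NumberField IsDedekindDomain WeierstrassCurve

namespace H55G

open H55P (IQ embF eF LF Per IsHecke Pt ac Inert Dec Nm UnitP UnrP PExt)
open H35P (WAB Ker tt GoodW IntW)
open H55K H55K.TQ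
open H55Z (Layer Spl ValK)
open SSG

open Classical in
/-- Interface (AL): the algebraic side over the fields between F and its algebraic closure. -/
def ALcO (F : Type) [Field F] [NumberField F] [IQ F] (p : ℕ) (W : WeierstrassCurve ℤ) : Prop :=
  ∀ (M K : IntermediateField F (AlgebraicClosure F)) [NumberField M] [NumberField K] (hle : M ≤ K) (n : ℕ),
    Spl F p M → UnrP p M → H55P.SelG p (W⁄(𝓞 F)) M →
    (letI : Algebra M K := (IntermediateField.inclusion hle).toRingHom.toAlgebra; Layer p n M K) →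
    Nat.card (PP p ((galS ((W⁄(𝓞 F))⁄F) (AlgebraicClosure F)).res K.fixingSubgroup).Sha) = p ^ (2 * Module.finrank F M * H19A.JS p n) ∧
      {P : Pt ((W⁄(𝓞 F))⁄F) (AlgebraicClosure F) | ∀ s ∈ K.fixingSubgroup, ac ((W⁄(𝓞 F))⁄F) s P = P}.Finite

/-- Interface (E): the analytic side. -/
def EcO (F : Type) [Field F] [NumberField F] [IQ F] (p : ℕ) [Fact p.Prime] (W : WeierstrassCurve ℤ) (Om : ℂ) (ψ : Ideal (𝓞 F) →*₀ 𝓞 F) : Prop :=
  ∀ (M : IntermediateField F (AlgebraicClosure F)) [NumberField M],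
    Spl F p M → UnrP p M → H55P.ValG p Om ψ M →
    ∀ k, 1 ≤ k → ∀ χ : DirichletCharacter ℂ (p ^ (k + 1)), orderOf χ = p ^ k → ValK F M p Om ψ k χ


variable {F : Type} [Field F] [NumberField F] [IQ F] {W : WeierstrassCurve ℤ} {Om : ℂ} {m : Ideal (𝓞 F)}
    {ψ : Ideal (𝓞 F) →*₀ 𝓞 F} {p : ℕ}

open Classical in
/-- THE THEOREM for complex multiplication by the integers of F. -/
theorem tower_maxO [Fact p.Prime] (hH : BaseH F (W⁄(𝓞 F)) Om m ψ) (hp : PrimeH F (W⁄(𝓞 F)) p) (hI : H19A.InertQ F p)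
    (hAL : ALcO F p W) (hE : EcO F p W Om ψ) : TowerThmO F p W := by
  intro M _ _ ιM hB n K _ _ _ hLay
  have h5 := hp.five
  have h2 : p ≠ 2 := by omega
  have hpp : p.Prime := hp.prime
  obtain ⟨hS, hUG, hUM⟩ := H55Z.q10_main (F := F) hpp h2 hI hB.split ιM
  have hdM := H55P.pl1_discr p hpp hUM
  have hdG := H55P.pl1_discr p hpp hUG
  have hLay' : Layer p n M K := H55Z.q7_conv h2 hdM hLay.1 hLay.2.some
  have hLU : H13R.LUnitG p W M := by
    obtain ⟨⟨-, -, -, h1⟩, h3⟩ := hB.unit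
    exact (H13R.an_iff hpp h1).1 h3
  have hI0 := H13R.gen_intR hH hp hUG (H13R.pext_self p (KG F M ιM)) le_rfl le_rfl hUG
  have hV := (lunit_iffV hH hp M (KG F M ιM) (relV1_of hH hp M ιM hUM (ok_of hH M ιM hB.ok)) hI0).1 hLU
  obtain ⟨Λ, hΛa, hΛs, hΛ1, hΛv⟩ := q9_mainO hH hp ιM hUM hUG hB.ok hLU hLay' (fun k h1 _ χ hχ => hE (KG F M ιM) hS hUG hV k h1 χ hχ)
  obtain ⟨ιK, hι⟩ := H55Z.q8_ext (K := K) ιM
  have hle := H55Z.q8_le ιM ιK hι
  have hlay := H55Z.q8_layer hLay' ιM ιK hι hle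
  have hSel : H55P.SelG p (W⁄(𝓞 F)) (KG F M ιM) := H13R.selG_of_triv hH hpp h2 hp.unr M ιM hB.unit.1.1
  obtain ⟨hc, hf⟩ := hAL (KG F M ιM) (KG F K ιK) hle n hS hUG hSel hlay
  letI i : Algebra (KG F M ιM) (KG F K ιK) := (IntermediateField.inclusion hle).toRingHom.toAlgebra
  have hnG : Module.finrank (KG F M ιM) (KG F K ιK) = p ^ n := (H55Z.layer_disc h2 hdG hlay).1
  have hpx : PExt p (KG F M ιM) (KG F K ιK) := H55Z.q9_pext hle hnG hlay
  have hpts := pts_KG (F := F) W hpp K ιK hf (fun P hP hpP => H13R.tors_KR hH hp hUG hpx le_rfl P hpP hP)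
  obtain ⟨d, hd0, hdeg, hd⟩ := card_KG hH hpp h2 hp.unr K ιK
  have hcard : Nat.card (ShaC p K (W⁄K)) = p ^ (Module.finrank ℚ M * H19A.JS p n) := by
    rw [hc] at hd
    have e1 : Module.finrank ℚ K = Module.finrank ℚ M * p ^ n := by
      rw [← hLay.1]
      exact (Module.finrank_mul_finrank ℚ M K).symm
    have e2 : Module.finrank ℚ (KG F K ιK) = 2 * Module.finrank F (KG F M ιM) * p ^ n := by
      have hst : IsScalarTower F (KG F M ιM) (KG F K ιK) := IsScalarTower.of_algebraMap_eq fun x => rfl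
      have e3 : Module.finrank F (KG F K ιK) = Module.finrank F (KG F M ιM) * p ^ n := by
        rw [← hnG]
        exact (Module.finrank_mul_finrank F (KG F M ιM) (KG F K ιK)).symm
      rw [← Module.finrank_mul_finrank ℚ F (KG F K ιK), e3, IQ.deg, mul_assoc]
    rw [e2, e1, ← mul_assoc] at hdeg
    have e4 := Nat.eq_of_mul_eq_mul_right (pow_pos hpp.pos n) hdeg
    rw [e4, mul_assoc, mul_comm d, pow_mul] at hd
    exact Nat.pow_left_injective hd0.ne' hd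
  have hsha : Finite (H19A.ShaP p K (W⁄K)) ∧ Nat.card (H19A.ShaP p K (W⁄K)) = p ^ (Module.finrank ℚ M * H19A.JS p n) := by
    have h1 : Nat.card (H19A.ShaP p K (W⁄K)) = p ^ (Module.finrank ℚ M * H19A.JS p n) := hcard
    refine ⟨Nat.finite_of_card_ne_zero ?_, h1⟩
    rw [h1]
    exact (pow_pos hpp.pos _).ne'
  refine ⟨hpts, hsha, exists_perZ (perW_of hH), Λ, hΛa, hΛs, hΛ1, fun L hL V hV => ?_⟩
  rw [shaG_lG, map_mul, map_pow, H55P.val_nat p hpp V hV _ hpts.2, one_pow, mul_one, hΛv L hL V hV, hsha.2, Nat.cast_pow, map_pow]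
  rfl

variable {W' : WeierstrassCurve ℤ} {kap : ℤ} {e t u lam : ℚ}

theorem fin_ellO {W : WeierstrassCurve ℤ} (hW : W.Δ ≠ 0) (K : Type) [Field K] [NumberField K] : (W⁄K).IsElliptic := by
  rw [WeierstrassCurve.isElliptic_iff]
  have e : (W⁄K).Δ = algebraMap ℤ K W.Δ := W.map_Δ (algebraMap ℤ K)
  rw [e]
  refine IsUnit.mk0 _ ?_
  rw [eq_intCast]
  exact_mod_cast hW

open Classical in
/-- THE THEOREM for isogenous curves. -/
theorem tower_isoO [Fact p.Prime] (h : H28I.TW F W W' Om m ψ kap e t u lam) (hp' : PrimeH F (W'⁄(𝓞 F)) p) (hI : H19A.InertQ F p)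
    (hAL : ALcO F p W) (hE : EcO F p W Om ψ) : TowerThmO F p W' := by
  intro M _ _ ιM hB n K _ _ _ hLay
  have hp := (H28I.tw_prime h).1 hp'
  have h5 := hp.five
  have h2 : p ≠ 2 := by omega
  have hpp : p.Prime := hp.prime
  obtain ⟨hS, hUG, hUM⟩ := H55Z.q10_main (F := F) hpp h2 hI hB.split ιM
  have hdM := H55P.pl1_discr p hpp hUM
  have hdG := H55P.pl1_discr p hpp hUG
  have hLay' : Layer p n M K := H55Z.q7_conv h2 hdM hLay.1 hLay.2.some
  have hok : OkM p (W⁄(𝓞 F)) (KG F M ιM) := (okm_tw h _).1 hB.ok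
  have hSM := H13R.i1_same h hp M (lfun_tw h M)
  have hB1 : BaseO F p W M ιM := by
    refine ⟨hB.split, hok, ?_⟩
    rw [H13R.bsd_iff h.base hp (H13R.pext_self p (KG F M ιM)) hUG M ιM le_rfl, ← H13R.i1_sel hpp h5 hSM, ← H13R.i1_lunit hSM]
    exact ⟨hB.unit.1.1, (H13R.an_iff hpp hB.unit.1.2.2.2).1 hB.unit.2⟩
  have hT := tower_maxO h.base hp hI hAL hE M ιM hB1 n K hLay
  obtain ⟨ιK, hι⟩ := H55Z.q8_ext (K := K) ιM
  have hle := H55Z.q8_le ιM ιK hι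
  have hlay := H55Z.q8_layer hLay' ιM ιK hι hle
  letI i : Algebra (KG F M ιM) (KG F K ιK) := (IntermediateField.inclusion hle).toRingHom.toAlgebra
  have hnG : Module.finrank (KG F M ιM) (KG F K ιK) = p ^ n := (H55Z.layer_disc h2 hdG hlay).1
  have hpx : PExt p (KG F M ιM) (KG F K ιK) := H55Z.q9_pext hle hnG hlay
  have hSK := H13R.i1_same h hp K (lfun_tw h K)
  obtain ⟨q1, q2⟩ := H28I.pts_iso hpp h5 (H28I.a0_disc hSK.disc' K) hSK.iso hT.pts.1 hT.pts.2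
  have hWK : (W⁄K).IsElliptic := fin_ellO hSK.disc K
  have hWK' : (W'⁄K).IsElliptic := fin_ellO hSK.disc' K
  have hcard : Nat.card (H19A.ShaP p K (W'⁄K)) = Nat.card (H19A.ShaP p K (W⁄K)) := by
    have e1 : Nat.card (ShaC p K (W⁄K)) = _ := bridge (W⁄K) hpp h2
    have e2 : Nat.card (ShaC p K (W'⁄K)) = _ := bridge (W'⁄K) hpp h2
    have e3 := iso6_card hSK.iso hpp h5
    exact e2.trans (e3.symm.trans e1.symm)
  have hsha : Finite (H19A.ShaP p K (W'⁄K)) ∧ Nat.card (H19A.ShaP p K (W'⁄K)) = p ^ (Module.finrank ℚ M * H19A.JS p n) := by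
    rw [hT.sha.2] at hcard
    refine ⟨Nat.finite_of_card_ne_zero ?_, hcard⟩
    rw [hcard]
    exact (pow_pos hpp.pos _).ne'
  obtain ⟨Λ, hΛa, hΛs, hΛ1, hΛv⟩ := hT.bsd
  refine ⟨⟨q1, q2⟩, hsha, hSK.ex', Λ, hΛa, (H28I.a0_ser hSK Λ).2 hΛs, hΛ1, fun L hL V hV => ?_⟩
  obtain ⟨L₀, hL₀⟩ := hSK.ex
  have e1 := hΛv L₀ hL₀ V hV
  rw [shaG_lG, map_mul, map_pow, H55P.val_nat p hpp V hV _ hT.pts.2, one_pow, mul_one, hT.sha.2] at e1
  rw [shaG_lG, map_mul, map_pow, H55P.val_nat p hpp V hV _ q2, one_pow, mul_one, hsha.2, hSK.per L₀ L hL₀ hL V hV]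
  exact e1

end H55G
end

-- from Lib.H55G.S4
section

/-! # H55G, part S: the theorem on supersingular towers, under OkM -/

open NumberField IsDedekindDomain WeierstrassCurve

namespace H55G

open H55P (IQ embF eF LF Per IsHecke Pt ac Inert Dec Nm UnitP UnrP PExt)
open H35P (WAB Ker tt GoodW IntW)
open H55K H55K.TQ
open SSG SSG.S

section al

variable {F : Type} [Field F] [NumberField F] [IQ F] {W : WeierstrassCurve ℤ} {Om : ℂ} {m : Ideal (𝓞 F)}
    {ψ : Ideal (𝓞 F) →*₀ 𝓞 F} {p : ℕ}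

theorem alcO_of (hH : BaseH F (W⁄(𝓞 F)) Om m ψ) (hp : PrimeH F (W⁄(𝓞 F)) p) (hI : H19A.InertQ F p) (hL : LocC F p W Om m ψ) : ALcO F p W := by
  classical
  intro M K _ _ hle n hS hU hSel hlay
  have hpf : Fact p.Prime := ⟨hp.prime⟩
  have h5 := hp.five
  have hin : Prime (p : 𝓞 F) := (Ideal.span_singleton_prime (Nat.cast_ne_zero.2 hp.prime.ne_zero)).1 hI
  obtain ⟨A, B, j, act, hA, hB, d⟩ := exists_dtaAB (p := p) hH hp
  obtain ⟨Θ, hΘ⟩ := short_iso (W⁄(𝓞 F)) hA hB hH.data.ell (Ω := AlgebraicClosure F)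
  have hfd : FiniteDimensional F M := Module.Finite.of_restrictScalars_finite ℚ F M
  have hΘ' : ∀ (s : AlgebraicClosure F ≃ₐ[F] AlgebraicClosure F) (P : Pt (WAB A B) (AlgebraicClosure F)),
      Θ.symm (ac (WAB A B) s P) = ac ((W⁄(𝓞 F))⁄F) s (Θ.symm P) := by
    intro s P
    apply Θ.injective
    rw [Θ.apply_symm_apply, hΘ, Θ.apply_symm_apply]
  have sel : H55P.SelZero (WAB A B) p M := y6_transport p M Θ.symm hΘ' hSel
  obtain ⟨h1, -, -, h4⟩ := H35L.al_main d hin M (fun V' hV' s hs => spl_dec hp.prime M hS hU V' hV' s hs) sel (hL A B j act hA hB d) n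
    K.fixingSubgroup (layer_fix (by omega) M K hle hlay)
  refine ⟨?_, ?_⟩
  · rw [equiv_card Θ hΘ K.fixingSubgroup hp.prime, h4, mul_assoc]
    rfl
  · refine (h1.preimage Θ.injective.injOn).subset fun P hP => ?_
    intro s hs
    rw [← hΘ, hP s hs]

end al

/-- THE ANALYTIC SIDE: the interface (E). -/
theorem ecO_all (F : Type) [Field F] [NumberField F] [IQ F] (W : WeierstrassCurve ℤ) (Om : ℂ) (m : Ideal (𝓞 F)) (ψ : Ideal (𝓞 F) →*₀ 𝓞 F)
    (p : ℕ) [Fact p.Prime] (hH : BaseH F (W⁄(𝓞 F)) Om m ψ) (hp : PrimeH F (W⁄(𝓞 F)) p) (hI : H19A.InertQ F p) : EcO F p W Om ψ := by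
  classical
  intro M _ hS hU hV k hk χ hχ
  obtain ⟨A, B, j, act, hA, hB', d⟩ := exists_dtaAB (p := p) hH hp
  have hin : (Ideal.span {(p : 𝓞 F)}).IsPrime := hI
  obtain ⟨Λ, h1, h2, -, h4⟩ := hV
  obtain ⟨u₀, hu₀⟩ := H13R.exists_goodGR hH hp M hU
  exact valK_of hp.five hH.data.hecke (base_of hH hp).cop.of_mul_left_right (psi_p hH hp hin) hin hU hS d
    (sup_p hH hp hin hA hB' d) (fun V hV => H55P.gen_ntp p hp.prime M u₀ hu₀ V hV) hk χ hχ ⟨Λ, h1, h2, rfl⟩ (fun V hV => h4 V hV)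

/-- The conclusions for the prime p. -/
structure AtPO (F : Type) [Field F] [NumberField F] [IQ F] (p : ℕ) (W : WeierstrassCurve ℤ) : Prop where
  tower : TowerThmO F p W
  exist : AnUnitG p W ℚ → ExistO F p W
  real : AnUnitG p W ℚ → ExistRealO F p W

theorem finalO (hL : LocAll) (F : Type) [Field F] [NumberField F] [IQ F] (W' : WeierstrassCurve ℤ) (hC : H55Y.CMO F W')
    (p : ℕ) (hp : p.Prime) (h5 : 5 ≤ p) (hI : H19A.InertQ F p) (hd : ¬ (p : ℤ) ∣ W'.Δ) : AtPO F p W' := by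
  have hpf : Fact p.Prime := ⟨hp⟩
  have hcub : ∀ w : 𝓞 F, w ^ 2 + w + 1 = 0 → ∀ n : ℤ, n ≠ 0 →
      ∃ κ : 𝓞 F → 𝓞 F, H55W.PRC (𝓞 F) 3 n (3 * n) (27 * n) κ := fun w hw n hn => H55W.cub_F F IQ.deg w hw n hn
  have hcub' : ∀ (F : Type) [Field F] [NumberField F] [IQ F], ∀ w : 𝓞 F, w ^ 2 + w + 1 = 0 → ∀ n : ℤ, n ≠ 0 →
      ∃ κ : 𝓞 F → 𝓞 F, H55W.PRC (𝓞 F) 3 n (3 * n) (27 * n) κ := fun F _ _ _ w hw n hn => H55W.cub_F F IQ.deg w hw n hn
  rcases H55Y.y5_cases hC hcub with ⟨Om, hper⟩ | ⟨W, Om, m, ψ, kap, e, t, u, lam, hΔ, hper, h⟩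
  · obtain ⟨hΔ, hmin, -⟩ := hC
    obtain ⟨ψ, hH⟩ := H55W.base_all0 hcub W' Om hΔ hper hmin
    have hP := H55W.prime_simple hΔ hper hp h5 hd
    exact ⟨tower_maxO hH hP hI (alcO_of hH hP hI (hL F W' Om _ ψ p hH hP hI)) (ecO_all F W' Om _ ψ p hH hP hI), fun hu => exist_o (H55Z.x1_exist hH hP hI hu), fun hu => existReal_o (H55Z.x1_real hH hP hI hu)⟩
  · have hP0 := H55W.prime_simple hΔ hper hp h5 fun h' => hd (H55Y.y6_dvd h hp h')
    have hP := (H28I.tw_prime h).2 hP0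
    exact ⟨tower_isoO h hP hI (alcO_of h.base hP0 hI (hL F W Om m ψ p h.base hP0 hI)) (ecO_all F W Om m ψ p h.base hP0 hI), fun hu => exist_o (H55Z.x1_exist_iso h hP hI hu),
      fun hu => existReal_o (H55Z.x1_real_iso h hP hI hu)⟩

end H55G
end

-- from Lib.H55G.S5
section

/-! # H55G, part S: the theorem on supersingular towers, under OkM -/

open NumberField IsDedekindDomain WeierstrassCurve H55P H55K.TQ

namespace H55G

open H19A

theorem resultO :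
    (∀ (F : Type) [Field F] [NumberField F] [IQ F] (W : WeierstrassCurve ℤ), CM F W →
      (∀ p : ℕ, p.Prime → 5 ≤ p → InertQ F p → ¬ (p : ℤ) ∣ W.Δ → AtPO F p W) ∧
      (LNz W ℚ → {p : ℕ | p.Prime ∧ ¬ AnUnitG p W ℚ}.Finite)) ∧
    (∀ p : ℕ, p.Prime → 5 ≤ p → LayerEx p) ∧
    CM H55B.F EZ ∧ ∀ p : ℕ, p.Prime → 5 ≤ p → AnUnitG p EZ ℚ := by
  have hcub : ∀ (F : Type) [Field F] [NumberField F] [IQ F], ∀ w : 𝓞 F, w ^ 2 + w + 1 = 0 → ∀ n : ℤ, n ≠ 0 →
      ∃ κ : 𝓞 F → 𝓞 F, H55W.PRC (𝓞 F) 3 n (3 * n) (27 * n) κ := fun F _ _ _ w hw n hn => H55W.cub_F F IQ.deg w hw n hn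
  refine ⟨fun F _ _ _ W' hC => ⟨fun p hp h5 hI hd => ?_, fun hL' => ?_⟩, fun p hp h5 => H55Z.x1_layer hp (by omega),
    ⟨by rw [H55W.ezm_disc]; norm_num, H55W.ezm_min, ?_⟩, fun p hp h5 => H55K.TQ.ex_an hp h5⟩
  · obtain ⟨h1, h2, h3⟩ := finalO H19A.loc_all F W' hC p hp h5 hI hd
    exact ⟨h1, h2, h3⟩
  · rcases H55Y.y5_cases hC (hcub F) with ⟨Om, hper⟩ | ⟨W, Om, m, ψ, kap, e, t, u, lam, hΔ, hper, h⟩
    · obtain ⟨hΔ, hmin, -⟩ := hC
      obtain ⟨ψ, hH⟩ := H55W.base_all0 (hcub F) W' Om hΔ hper hmin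
      refine ((prime_almost (W'⁄(𝓞 F)) hH.data.ell).union (an_almost hH hL')).subset fun p hp => ?_
      obtain ⟨h1, h2⟩ := hp
      by_cases h3 : PrimeH F (W'⁄(𝓞 F)) p
      · exact Or.inr ⟨h1, fun h4 => h2 h4⟩
      · exact Or.inl ⟨h1, h3⟩
    · exact (H28I.almost_iso h hL').subset fun p hp => ⟨hp.1, fun h4 => hp.2 h4.2⟩
  · obtain ⟨Om, hper⟩ := H55W.ezm_per
    refine ⟨1, Om, Or.inl rfl, hper.ne, LF H55B.F, fun z => ?_, hper.g2, hper.g3⟩
    rw [H55P.mem_LF]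
    constructor
    · rintro ⟨y, rfl⟩
      exact ⟨0, y, by rw [Int.cast_zero, zero_add, Nat.cast_one, one_mul]⟩
    · rintro ⟨a, y, rfl⟩
      exact ⟨(a : 𝓞 H55B.F) + y, by rw [map_add, map_intCast, Nat.cast_one, one_mul]⟩

end H55G
end
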