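import Mathlib
import Pool.Agent.Lib.H1M.PP2.D_H13T_Stm
import Pool.Agent.Lib.H1M.PP2.D_H28T_CE
import Pool.Agent.Lib.H1M.PP2.M003
import Pool.Agent.Lib.H1M.PP2.M034
import Pool.Agent.Lib.H1M.PP2.M065
import Pool.Agent.Lib.H1M.PP2.M104
import Pool.Agent.Lib.H1M.PP2.M128
import Pool.Agent.Lib.H1M.PP2.M142
import Pool.Agent.Lib.H1M.PP2.M167
import Pool.Agent.Lib.H1M.PP2.M170
import Pool.Agent.Lib.H1M.PP2.M174

/-! Merged copies (to shorten the build) of Lib.H57N.E1, Lib.H57N.E3, Lib.H57N.E6, Lib.H57N.E8. -/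

-- from Lib.H57N.E1
section

/-! # H57N, chunk E1: K = M B and K' = M B' -/

open NumberField IsDedekindDomain WeierstrassCurve

namespace H57N

open H28T
open H55P H55R
open H55K H55K.TQ

variable {p n l : ℕ} {Q : Finset ℕ} {B : Type} [Field B] [NumberField B] {B' : IntermediateField ℚ B}

/-- Chunk E1 (S). p2_cop M B and p2_cop M B' (a prime number r dividing discr M is not l and not in Q, so B is unramified at r: h.unr, h.unr'); p2_deg for hK: [K : M] = [B : ℚ] = p^(n+1) (h.deg), e : Gal(K/M) ≃* Gal(B/ℚ), cyclic (h.cyc;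
isCyclic_of_surjective e.symm); p2_deg for hK' (IsGalois ℚ B': h.gal'): [K' : M] = [B' : ℚ] = p^n (h.deg'). IsGalois M K: p1_gal. (haveI := h.gal.) -/
theorem e1_cyc (h : Cy p n l Q B B') (M K' K : Type) [Field M] [NumberField M] [Field K'] [NumberField K'] [Field K] [NumberField K]
    [Algebra M K'] [Algebra K' K] [Algebra M K] [IsScalarTower M K' K] [Algebra B' K'] [Algebra B K] (hK' : Cmp M B' K') (hK : Cmp M B K)
    (hd : ∀ r : ℕ, r.Prime → (r : ℤ) ∣ discr M → r ≠ l ∧ r ∉ Q) : H13T.CycT p n M K' K := by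
  haveI := h.gal
  haveI := h.gal'
  have c1 : IsCoprime (discr M) (discr B) := p2_cop M B fun r hr hrd w hw => h.unr w r hr hw (hd r hr hrd).1 (hd r hr hrd).2
  have c2 : IsCoprime (discr M) (discr B') := p2_cop M B' fun r hr hrd w hw => h.unr' w r hr hw (hd r hr hrd).1
  obtain ⟨d1, e, he⟩ := p2_deg hK c1
  obtain ⟨d2, e', he'⟩ := p2_deg hK' c2
  haveI := h.cyc
  exact ⟨inferInstance, p1_gal hK, isCyclic_of_surjective e.symm e.symm.surjective, d1.trans h.deg, d2.trans h.deg'⟩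

/-- Chunk E1 (M). L = N B' is in the class ExtG G p: IsGalois F L: p3_gal; [L : F] = [N : F] [L : N] = p^k p^n (Module.finrank_mul_finrank, p2_deg with p2_cop N B', h.deg'). Let w be a prime of L above v of F, ¬ G v; u = w ∩ N, t = w ∩ B' (p4_below). The ramification index of
w over F is that of u over F (1 by hN) times that of w over N (p4_tower). Let r be the prime number in w (p4_char), it is in v: so r ≠ l (otherwise G v by hG), so t is unramified over ℤ (h.unr'; r in t), so w is unramified over N (p3_unr). -/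
theorem e1_ext {F : Type} [Field F] [NumberField F] {G : HeightOneSpectrum (𝓞 F) → Prop} (h : Cy p n l Q B B') (N L : Type) [Field N]
    [NumberField N] [Field L] [NumberField L] [Algebra F N] [Algebra N L] [Algebra F L] [IsScalarTower F N L] [Algebra B' L] (hL : Cmp N B' L)
    (hN : ExtG G p N) (hd : ∀ r : ℕ, r.Prime → (r : ℤ) ∣ discr N → r ≠ l ∧ r ∉ Q) (hG : GoodL G l) : ExtG G p L := by
  haveI := h.gal'
  haveI := hN.1
  have c2 : IsCoprime (discr N) (discr B') := p2_cop N B' fun r hr hrd w hw => h.unr' w r hr hw (hd r hr hrd).1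
  have d2 := (p2_deg hL c2).1
  obtain ⟨k, hk⟩ := hN.2.1
  refine ⟨p3_gal (F := F) hL, ⟨k + n, ?_⟩, ?_⟩
  · have h1 : Module.finrank F L = Module.finrank F N * Module.finrank N L := (Module.finrank_mul_finrank F N L).symm
    rw [h1, hk, d2, h.deg', ← pow_add]
  · intro w v hv hGv
    obtain ⟨u, hu⟩ := p4_below (B := N) w
    obtain ⟨t, ht⟩ := p4_below (B := B') w
    obtain ⟨r, hr, hrw⟩ := p4_char w
    have hrv : (r : 𝓞 F) ∈ v.asIdeal := by
      rw [hv, Ideal.under_def, Ideal.mem_comap, map_natCast]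
      exact hrw
    have hrt : (r : 𝓞 B') ∈ t.asIdeal := by
      rw [ht, Ideal.under_def, Ideal.mem_comap, map_natCast]
      exact hrw
    have hrl : r ≠ l := by
      rintro rfl
      exact hGv (hG v hrv)
    have e1 := h.unr' t r hr hrt hrl
    have e2 := p3_unr hL w t ht e1
    have hvu : v.asIdeal = u.asIdeal.under (𝓞 F) := by
      rw [hv, hu, Ideal.under_under]
    have e3 := hN.2.2 u v hvu hGv
    rw [(p4_tower (A := F) w u hu).1, e3, e2]

end H57N
end

-- from Lib.H57N.E3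
section

/-! # H57N, chunk E3: the anomalous primes ramified in K: upper bound -/

open NumberField IsDedekindDomain WeierstrassCurve

namespace H57N

open H28T
open H55P H55R
open H55K H55K.TQ

variable {p n l : ℕ} {Q : Finset ℕ} {B : Type} [Field B] [NumberField B] {B' : IntermediateField ℚ B}

theorem e3_nat {A E : Type} [Field A] [NumberField A] [Field E] [NumberField E] [Algebra A E] (I : Ideal (𝓞 E)) (q : ℕ) :
    (q : 𝓞 A) ∈ I.under (𝓞 A) ↔ (q : 𝓞 E) ∈ I := by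
  rw [Ideal.under_def, Ideal.mem_comap, map_natCast]

theorem e3_int {A E : Type} [Field A] [NumberField A] [Field E] [NumberField E] [Algebra A E] (I : Ideal (𝓞 E)) (q : ℤ) :
    (q : 𝓞 A) ∈ I.under (𝓞 A) ↔ (q : 𝓞 E) ∈ I := by
  rw [Ideal.under_def, Ideal.mem_comap, map_intCast]

/-- Chunk E3 (S/M). Every w in AnR is above a q in Q. Let P be the prime of K above w with ramification index over K' not 1, r the prime number in P (p4_char; r in w). If r ≠ l and r not in Q, then P ∩ B is unramified over ℤ (h.unr), so P is unramified over M (p3_unr), and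
over K' (p4_tower for M, K', K: the product is 1): contradiction. If r = l: let w' be a prime of L above w (H55R.under_exists), v = w' ∩ F: l in v, so Gx v (hG): p ∤ number of points modulo v if Δ not in v. Δ is not in v, because Δ (an integer: (W⁄(𝓞 F)).Δ is the image
of W.Δ; see the proof of gx_conj in H28T/XMain.lean) is not in w. p divides the number of points modulo w, so modulo w' (a1_above), so modulo v (hD applied to L, with a1_base to identify ((W⁄(𝓞 F))⁄k) with (W⁄k)): contradiction. -/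
theorem e3_sub {F : Type} [Field F] [NumberField F] {W : WeierstrassCurve ℤ} (h : Cy p n l Q B B') (M K' K L : Type) [Field M] [NumberField M]
    [Field K'] [NumberField K'] [Field K] [NumberField K] [Field L] [NumberField L]
    [Algebra M K'] [Algebra K' K] [Algebra M K] [IsScalarTower M K' K] [Algebra B K] [Algebra K' L] [Algebra F L] (hK : Cmp M B K)
    (hL : IsGalois F L) (hLp : ∃ k : ℕ, Module.finrank F L = p ^ k) (hG : GoodL (Gx (W⁄(𝓞 F)) p) l) (hD : DownP (W⁄(𝓞 F)) p)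
    (w : HeightOneSpectrum (𝓞 K')) (hw : w ∈ H13T.AnR p W K' K) : ∃ q ∈ Q, (q : 𝓞 K') ∈ w.asIdeal := by
  obtain ⟨hΔ, hpt, P, hPw, hPr⟩ := hw
  obtain ⟨r, hr, hrw⟩ := p4_char w
  by_cases hrQ : r ∈ Q
  · exact ⟨r, hrQ, hrw⟩
  exfalso
  by_cases hrl : r = l
  · subst hrl
    obtain ⟨w', hw'⟩ := H55R.under_exists (L := L) w
    have hw'' : w.asIdeal = w'.asIdeal.under (𝓞 K') := by
      rw [← hw']
      rfl
    obtain ⟨v, hv⟩ := p4_below (B := F) w'
    have hrv : (r : 𝓞 F) ∈ v.asIdeal := by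
      rw [hw'', e3_nat] at hrw
      rw [hv, e3_nat]
      exact hrw
    have hg := hG v hrv
    have hΔv : (W⁄(𝓞 F)).Δ ∉ v.asIdeal := by
      intro h1
      apply hΔ
      have e : (W⁄(𝓞 F)).Δ = ((W.Δ : ℤ) : 𝓞 F) := by
        have e1 : (W⁄(𝓞 F)).Δ = algebraMap ℤ (𝓞 F) W.Δ := W.map_Δ _
        rw [e1]
        simp
      rw [e, hv, e3_int] at h1
      rw [hw'', e3_int]
      exact h1
    have h1 := a1_above W w w' hw'' hpt
    have h2 : ((W⁄(𝓞 F))⁄(𝓞 L ⧸ w'.asIdeal)) = (W⁄(𝓞 L ⧸ w'.asIdeal)) := a1_base W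
    have h3 : p ∣ Nat.card ((W⁄(𝓞 F))⁄(𝓞 L ⧸ w'.asIdeal)).toAffine.Point := by
      rw [h2]
      exact h1
    exact hg.2 hΔv (hD L hLp w' v hv hΔv h3)
  · have hB := h.gal
    obtain ⟨t, ht⟩ := p4_below (B := B) P
    have hrt : (r : 𝓞 B) ∈ t.asIdeal := by
      rw [← hPw, e3_nat] at hrw
      rw [ht, e3_nat]
      exact hrw
    have h1 := p3_unr hK P t ht (h.unr t r hr hrt hrl hrQ)
    rw [(p4_tower (A := M) P w hPw.symm).1] at h1
    exact hPr (Nat.eq_one_of_mul_eq_one_left h1)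

/-- Chunk E3 (S/M). For q in Q every prime w of K' above q has residue degree at least p^n (t = w ∩ B', h.ine, p4_towerZ: f(w) = f(t) f(w/t), f(w/t) > 0), so there are at most [K' : ℚ]/p^n = [M : ℚ] of them (p4_count; [K' : ℚ] = [K' : M] [M : ℚ], hdeg);
hsub: AnR is contained in the union over q in Q (Set.ncard_le_ncard, Finset.card_biUnion / induction on Q). q prime: hq. -/
theorem e3_count (h : Cy p n l Q B B') (hp : p.Prime) (M K' : Type) [Field M] [NumberField M]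
    [Field K'] [NumberField K'] [Algebra M K'] [Algebra B' K'] (hdeg : Module.finrank M K' = p ^ n) (hq : ∀ q ∈ Q, q.Prime)
    (S : Set (HeightOneSpectrum (𝓞 K'))) (hsub : ∀ w ∈ S, ∃ q ∈ Q, (q : 𝓞 K') ∈ w.asIdeal) :
    S.Finite ∧ S.ncard ≤ Q.card * Module.finrank ℚ M := by
  have hM : IsScalarTower ℚ M K' := IsScalarTower.of_algebraMap_eq' (Subsingleton.elim _ _)
  have hpn : 0 < p ^ n := pow_pos hp.pos n
  have hA : ∀ q ∈ Q, {w : HeightOneSpectrum (𝓞 K') | (q : 𝓞 K') ∈ w.asIdeal}.Finite ∧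
      {w : HeightOneSpectrum (𝓞 K') | (q : 𝓞 K') ∈ w.asIdeal}.ncard ≤ Module.finrank ℚ M := by
    intro q hqQ
    have h1 := p4_count K' (hq q hqQ) (p ^ n) (fun w hw => by
      obtain ⟨t, ht⟩ := p4_below (B := B') w
      have hqt : (q : 𝓞 B') ∈ t.asIdeal := by
        rw [ht, e3_nat]
        exact hw
      rw [(p4_towerZ w t ht).2]
      have hwp := w.isPrime
      exact (h.ine t q hqQ hqt).trans (Nat.le_mul_of_pos_right _ (Ideal.inertiaDeg_pos w.asIdeal (𝓞 B'))))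
    refine ⟨h1.1, ?_⟩
    have h2 := h1.2
    rw [← Module.finrank_mul_finrank ℚ M K', hdeg] at h2
    exact Nat.le_of_mul_le_mul_right h2 hpn
  have hss : S ⊆ ⋃ q ∈ Q, {w : HeightOneSpectrum (𝓞 K') | (q : 𝓞 K') ∈ w.asIdeal} := by
    intro w hw
    obtain ⟨q, hqQ, hqw⟩ := hsub w hw
    exact Set.mem_biUnion hqQ hqw
  have hfin : ∀ Q' : Finset ℕ, Q' ⊆ Q → (⋃ q ∈ Q', {w : HeightOneSpectrum (𝓞 K') | (q : 𝓞 K') ∈ w.asIdeal}).Finite ∧
      (⋃ q ∈ Q', {w : HeightOneSpectrum (𝓞 K') | (q : 𝓞 K') ∈ w.asIdeal}).ncard ≤ Q'.card * Module.finrank ℚ M := by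
    intro Q'
    induction Q' using Finset.induction_on with
    | empty =>
      intro _
      simp
    | insert a s ha ih =>
      intro hs
      obtain ⟨h1, h2⟩ := ih ((Finset.subset_insert a s).trans hs)
      obtain ⟨h3, h4⟩ := hA a (hs (Finset.mem_insert_self a s))
      rw [Finset.set_biUnion_insert]
      refine ⟨h3.union h1, (Set.ncard_union_le _ _).trans ?_⟩
      rw [Finset.card_insert_of_notMem ha, add_mul, one_mul, add_comm]
      exact add_le_add h2 h4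
  obtain ⟨h5, h6⟩ := hfin Q (Finset.Subset.refl Q)
  exact ⟨h5.subset hss, (Set.ncard_le_ncard hss h5).trans h6⟩

/-- Chunk E3 (M). For q in Q there is a prime of K' above q in AnR; different q give different primes (p4_uniq), so Q.card ≤ AnR.ncard (hfin; Set.ncard / Finset.card_le_card_of_injOn). Let P be a prime of K above q (p4_above), w = P ∩ K' (p4_below), u = P ∩ M, t = P ∩ B,
t' = w ∩ B'. w is unramified over ℤ: u is (p2_unr: q does not divide discr M) and w is unramified over M (p3_unr for hK': t' is unramified, h.unr', q ≠ l). P is ramified over ℤ: t is (h.ram) and p4_towerZ. So P is ramified over K' (p4_towerZ for K' and K). Δ is not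
in w: otherwise the integer W.Δ, prime to q, is in w (Bezout). p divides the number of points modulo w: a1_deg with the prime v of F of norm q (hv). -/
theorem e3_lower {F : Type} [Field F] [NumberField F] {W : WeierstrassCurve ℤ} (h : Cy p n l Q B B') (M K' K : Type) [Field M] [NumberField M]
    [Field K'] [NumberField K'] [Field K] [NumberField K]
    [Algebra M K'] [Algebra K' K] [Algebra M K] [IsScalarTower M K' K] [Algebra B' K'] [Algebra B K] (hK' : Cmp M B' K') (hK : Cmp M B K)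
    (hd : ∀ r : ℕ, r.Prime → (r : ℤ) ∣ discr M → r ≠ l ∧ r ∉ Q) (hq : ∀ q ∈ Q, q.Prime ∧ q ≠ l ∧ ¬ (q : ℤ) ∣ W.Δ ∧
      ∃ v : HeightOneSpectrum (𝓞 F), Ideal.absNorm v.asIdeal = q ∧ p ∣ Nat.card (W⁄(𝓞 F ⧸ v.asIdeal)).toAffine.Point)
    (hfin : (H13T.AnR p W K' K).Finite) : Q.card ≤ (H13T.AnR p W K' K).ncard := by
  have key : ∀ q ∈ Q, ∃ w ∈ H13T.AnR p W K' K, (q : 𝓞 K') ∈ w.asIdeal := by
    intro q hqQ
    obtain ⟨hqp, hql, hqΔ, v, hv, hpv⟩ := hq q hqQ
    have hB := h.gal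
    have hB' := h.gal'
    obtain ⟨P, hP⟩ := p4_above K hqp
    obtain ⟨w, hw⟩ := p4_below (B := K') P
    obtain ⟨u, hu⟩ := p4_below (B := M) w
    obtain ⟨t, ht⟩ := p4_below (B := B) P
    obtain ⟨t', ht'⟩ := p4_below (B := B') w
    have hqw : (q : 𝓞 K') ∈ w.asIdeal := by
      rw [hw, e3_nat]
      exact hP
    have hqu : (q : 𝓞 M) ∈ u.asIdeal := by
      rw [hu, e3_nat]
      exact hqw
    have hqt : (q : 𝓞 B) ∈ t.asIdeal := by
      rw [ht, e3_nat]
      exact hP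
    have hqt' : (q : 𝓞 B') ∈ t'.asIdeal := by
      rw [ht', e3_nat]
      exact hqw
    have hu1 : u.asIdeal.ramificationIdx ℤ = 1 :=
      (p2_unr M hqp).1 (fun h1 => (hd q hqp h1).2 hqQ) u hqu
    have hw1 : w.asIdeal.ramificationIdx (𝓞 M) = 1 := p3_unr hK' w t' ht' (h.unr' t' q hqp hqt' hql)
    have hwZ : w.asIdeal.ramificationIdx ℤ = 1 := by
      rw [(p4_towerZ w u hu).1, hu1, hw1]
    have hPZ : P.asIdeal.ramificationIdx ℤ ≠ 1 := by
      intro h1
      rw [(p4_towerZ P t ht).1] at h1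
      exact h.ram t q hqQ hqt (Nat.eq_one_of_mul_eq_one_right h1)
    refine ⟨w, ⟨?_, a1_deg W hqp v hv w hqw hpv, P, hw.symm, ?_⟩, hqw⟩
    · intro h1
      obtain ⟨a, b, hab⟩ := ((Nat.prime_iff_prime_int.1 hqp).coprime_iff_not_dvd).2 hqΔ
      have h3 := congrArg (fun z : ℤ => (z : 𝓞 K')) hab
      simp only [Int.cast_add, Int.cast_mul, Int.cast_natCast, Int.cast_one] at h3
      refine w.isPrime.ne_top ((Ideal.eq_top_iff_one _).2 ?_)
      rw [← h3]
      exact add_mem (Ideal.mul_mem_left _ _ hqw) (Ideal.mul_mem_left _ _ h1)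
    · intro h1
      apply hPZ
      rw [(p4_towerZ P w hw).1, hwZ, h1]
  have hne : Nonempty (HeightOneSpectrum (𝓞 K')) := ⟨(p4_above K' Nat.prime_two).choose⟩
  choose! f hf1 hf2 using key
  rw [← Set.ncard_coe_finset]
  refine Set.ncard_le_ncard_of_injOn f (fun q hq' => hf1 q hq') (fun q hq1 q' hq2 hqq => ?_) hfin
  refine p4_uniq (f q) (hq q hq1).1 (hq q' hq2).1 (hf2 q hq1) ?_
  rw [hqq]
  exact hf2 q' hq2

end H57N
end

-- from Lib.H57N.E6
section

/-! # H57N: the existence theorem (assembly) -/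

open NumberField IsDedekindDomain WeierstrassCurve

namespace H57N

open H28T
open H55P H55R
open H55K H55K.TQ

/-- The facts on the curve. -/
structure Fct {F : Type} [Field F] [NumberField F] [IQ F] (W : WeierstrassCurve ℤ) (p : ℕ) : Prop where
  hp : p.Prime
  ell : W.Δ ≠ 0
  unrF : UnrP p F
  dir : DirH (Gx (W⁄(𝓞 F)) p) p
  down : DownP (W⁄(𝓞 F)) p
  manyQ : ManyQ (W⁄(𝓞 F)) p
  bsd : ∀ (K : Type) [Field K] [NumberField K], InPF (W⁄(𝓞 F)) p K → BSDPG p W K
  bad : ∀ (K N : Type) [Field K] [NumberField K] [Field N] [NumberField N] [Algebra F N] [Algebra K N], IsGalois F N →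
    (∃ k : ℕ, Module.finrank F N = p ^ k) → ∀ ιM : K →ₐ[ℚ] AlgebraicClosure F, H13R.BadM (W⁄(𝓞 F)) (KG F K ιM)

variable {F : Type} [Field F] [NumberField F] [IQ F] {W : WeierstrassCurve ℤ} {p : ℕ}

theorem e6_deg (F M K : Type) [Field F] [Field M] [Field K] [Algebra F M] [Algebra M K] [Algebra F K] [IsScalarTower F M K] :
    Module.finrank F K = Module.finrank F M * Module.finrank M K :=
  (Module.finrank_mul_finrank F M K).symm

/-- Over a base field M which is Galois over F. -/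
theorem e6_gal (hF : Fct (F := F) W p) (M : Type) [Field M] [NumberField M] [Algebra F M] (hM : ExtG (Gx (W⁄(𝓞 F)) p) p M) (R₀ : ℕ) :
    ∃ (K' K : Type) (_ : Field K') (_ : NumberField K') (_ : Field K) (_ : NumberField K)
      (_ : Algebra M K') (_ : Algebra K' K) (_ : Algebra M K) (_ : Algebra F K) (n : ℕ),
      IsGalois F K ∧ (∃ r : ℕ, Module.finrank F K = p ^ r) ∧ (∃ φ : (M ≃ₐ[F] M) →* (K ≃ₐ[F] K), Function.Injective φ) ∧
      (∀ ιK : K →ₐ[ℚ] AlgebraicClosure F, H13T.HypS F p n W M K' K ιK) ∧ R₀ ≤ (H13T.AnR p W K' K).ncard := by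
  have hU : UnrP p M := ce_unr hF.hp hF.unrF (fun v h => h.1) hM
  obtain ⟨n, l, Q, hn, hPr, hQc, hfew, hG, hd, hpl, hpQ, hq⟩ := e4_choice hF.hp hF.ell hF.dir hF.manyQ M (Module.finrank ℚ M) R₀
  obtain ⟨B, i1, i2, B', hC⟩ := c5_exists hPr
  obtain ⟨j⟩ : Nonempty (B →+* AlgebraicClosure M) := ⟨(IsAlgClosed.lift : B →ₐ[ℚ] AlgebraicClosure M).toRingHom⟩
  obtain ⟨j', hj'⟩ : ∃ j' : B' →+* AlgebraicClosure M, j' = j.comp (algebraMap B' B) := ⟨_, rfl⟩
  have hle : cE M j' ≤ cE M j := by rw [hj']; exact p5_mono M j _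
  letI nK : NumberField (cE M j) := p5_num M j
  letI nK' : NumberField (cE M j') := p5_num M j'
  letI aB : Algebra B (cE M j) := cAlg M j
  letI aB' : Algebra B' (cE M j') := cAlg M j'
  letI aKK : Algebra (cE M j') (cE M j) := (IntermediateField.inclusion hle).toRingHom.toAlgebra
  haveI tM : IsScalarTower M (cE M j') (cE M j) := IsScalarTower.of_algebraMap_eq fun _ => rfl
  letI aF : Algebra F (cE M j) := ((algebraMap M (cE M j)).comp (algebraMap F M)).toAlgebra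
  haveI tF : IsScalarTower F M (cE M j) := IsScalarTower.of_algebraMap_eq fun _ => rfl
  letI aF' : Algebra F (cE M j') := ((algebraMap M (cE M j')).comp (algebraMap F M)).toAlgebra
  haveI tF' : IsScalarTower F M (cE M j') := IsScalarTower.of_algebraMap_eq fun _ => rfl
  have hc : Cmp M B (cE M j) := p5_cmp M j
  have hc' : Cmp M B' (cE M j') := p5_cmp M j'
  haveI gB := hC.gal
  haveI gB' := hC.gal'
  haveI gM := hM.1
  have hcyc := e1_cyc hC M (cE M j') (cE M j) hc' hc hd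
  have hext : ExtG (Gx (W⁄(𝓞 F)) p) p (cE M j') := e1_ext hC M (cE M j') hc' hM hd hG
  have hcop : IsCoprime (discr M) (discr B) := p2_cop M B fun r hr hrd w hw => hC.unr w r hr hw (hd r hr hrd).1 (hd r hr hrd).2
  have hgK : IsGalois F (cE M j) := p3_gal (F := F) hc
  obtain ⟨k, hk⟩ := hM.2.1
  have hdK : @Module.finrank F (cE M j) _ _ aF.toModule = p ^ (k + (n + 1)) := by
    rw [e6_deg F M (cE M j), hk, hcyc.deg, ← pow_add]
  have hInP : InPF (W⁄(𝓞 F)) p (cE M j') :=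
    (inPF_iff hF.hp hF.unrF (cE M j')).2 ⟨cE M j', inferInstance, inferInstance, inferInstance, Algebra.id _, hext⟩
  have hsub := e3_sub (F := F) (W := W) hC M (cE M j') (cE M j) (cE M j') (hK := hc) hext.1 hext.2.1 hG hF.down
  obtain ⟨hfin, hle2⟩ := e3_count hC hF.hp M (cE M j') hcyc.sub (fun q hq' => (hPr.hq q hq').1) (H13T.AnR p W (cE M j') (cE M j))
    (fun w hw => hsub w hw)
  have hlow := e3_lower (F := F) (W := W) hC M (cE M j') (cE M j) hc' hc hd
    (fun q hq' => ⟨(hPr.hq q hq').1, (hPr.hq q hq').2.2.1, (hq q hq').1, (hq q hq').2⟩) hfin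
  refine ⟨cE M j', cE M j, inferInstance, nK', inferInstance, nK, inferInstance, aKK, inferInstance, aF, n, hgK, ⟨_, hdK⟩,
    e4_emb (F := F) hc hcop, fun ιK => ⟨hn, hcyc, e2_unr hC hF.hp hpl hpQ hc hU, ?_, hF.bsd _ hInP, ?_⟩, ?_⟩
  · exact hF.bad M M hM.1 hM.2.1 _
  · rw [hQc] at hle2
    exact lt_of_le_of_lt (Nat.mul_le_mul_left 2 hle2) hfew
  · rw [← hQc]
    exact hlow

theorem e6_exist (hF : Fct (F := F) W p) (hE : ∀ (H : Type) [Group H] [Finite H] (k : ℕ), Nat.card H = p ^ k → ∀ B : ℕ,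
    EmbP (Gx (W⁄(𝓞 F)) p) p H B) : H13T.ExistS F p W := by
  intro H _ _ k hk R₀
  obtain ⟨M, i1, i2, i3, hM, φ, hφ⟩ := hE H k hk 0
  obtain ⟨K', K, j1, j2, j3, j4, j5, j6, j7, j8, n, h1, h2, ⟨ψ, hψ⟩, h3, h4⟩ := e6_gal hF M hM.1 R₀
  exact ⟨M, K', K, i1, i2, j1, j2, j3, j4, j5, j6, j7, j8, n, h1, h2, ⟨ψ.comp φ, hψ.comp hφ⟩, h3, h4⟩

/-- The facts for the curves with complex multiplication by the maximal order. -/
theorem e6_fct {Om : ℂ} {m : Ideal (𝓞 F)} {ψ : Ideal (𝓞 F) →*₀ 𝓞 F} (hH : BaseH F (W⁄(𝓞 F)) Om m ψ) (hp : PrimeH F (W⁄(𝓞 F)) p)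
    (hA : AnUnitG p W ℚ) : Fct (F := F) W p where
  hp := hp.prime
  ell := by
    intro h0
    apply hH.data.ell
    have e1 : (W⁄(𝓞 F)).Δ = algebraMap ℤ (𝓞 F) W.Δ := W.map_Δ _
    rw [e1, h0, map_zero]
  unrF := hp.unr
  dir := xm_dir hH hp
  down := a2_down hH hp
  manyQ := d4_manyQ hH hp
  bsd := by
    intro K _ _ hInP
    obtain ⟨hcrit, hbsd, -⟩ := main_Q hH hp K (H55Z.x1_sub hInP)
    exact hbsd (hcrit.2 ⟨hA, hInP⟩)
  bad := by
    intro K N _ _ _ _ _ _ hG hk ιM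
    obtain ⟨k, hk⟩ := hk
    exact H55Z.x1_bad hH hp hG hk ιM

open H28I in
/-- The facts for the isogenous curves. -/
theorem e6_fct_iso {W' : WeierstrassCurve ℤ} {Om : ℂ} {m : Ideal (𝓞 F)}
    {ψ : Ideal (𝓞 F) →*₀ 𝓞 F} {kap : ℤ} {e t u lam : ℚ} (h : TW F W W' Om m ψ kap e t u lam) (hp' : PrimeH F (W'⁄(𝓞 F)) p)
    (hA : AnUnitG p W' ℚ) : Fct (F := F) W' p where
  hp := hp'.prime
  ell := by
    intro h0
    obtain ⟨v⟩ : Nonempty (HeightOneSpectrum (𝓞 F)) := by
      obtain ⟨w, -⟩ := p4_above F hp'.prime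
      exact ⟨w⟩
    have h1 := hp'.cop
    have e1 : (W'⁄(𝓞 F)).Δ = algebraMap ℤ (𝓞 F) W'.Δ := W'.map_Δ _
    rw [e1, h0, map_zero, Ideal.span_singleton_zero, ← Ideal.zero_eq_bot, isCoprime_zero_left] at h1
    have h2 : Ideal.span {(p : 𝓞 F)} = ⊤ := by
      rw [← Ideal.isUnit_iff]
      exact h1
    obtain ⟨w, hw⟩ := p4_above F hp'.prime
    apply w.isPrime.ne_top
    rw [eq_top_iff, ← h2, Ideal.span_singleton_le_iff_mem]
    exact hw
  unrF := hp'.unr
  dir := by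
    have r := (rich_iso h hp').1
    exact r.inf
  down := e5_down h hp'
  manyQ := e5_manyQ h hp'
  bsd := by
    intro K _ _ hInP
    have hp := (tw_prime h).1 hp'
    obtain ⟨-, hcrit, hbsd, -⟩ := main_iso h hp' K (H55Z.x1_sub ((tw_inPF h K).1 hInP))
    exact hbsd (hcrit.2 ⟨hA, hInP⟩)
  bad := by
    intro K N _ _ _ _ _ _ hG hk ιM
    obtain ⟨k, hk⟩ := hk
    exact (H13R.i1_bad h _).2 (H55Z.x1_bad h.base ((tw_prime h).1 hp') hG hk ιM)

/-- EXISTENCE for the maximal order. -/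
theorem exist_main {Om : ℂ} {m : Ideal (𝓞 F)} {ψ : Ideal (𝓞 F) →*₀ 𝓞 F} (hH : BaseH F (W⁄(𝓞 F)) Om m ψ)
    (hp : PrimeH F (W⁄(𝓞 F)) p) (hA : AnUnitG p W ℚ) : H13T.ExistS F p W :=
  e6_exist (e6_fct hH hp hA) (rich_of hH hp).emb

open H28I in
/-- EXISTENCE for the isogenous curves. -/
theorem exist_iso {W' : WeierstrassCurve ℤ} {Om : ℂ} {m : Ideal (𝓞 F)}
    {ψ : Ideal (𝓞 F) →*₀ 𝓞 F} {kap : ℤ} {e t u lam : ℚ} (h : TW F W W' Om m ψ kap e t u lam) (hp' : PrimeH F (W'⁄(𝓞 F)) p)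
    (hA : AnUnitG p W' ℚ) : H13T.ExistS F p W' :=
  e6_exist (e6_fct_iso h hp' hA) (rich_iso h hp').1.emb

end H57N
end

-- from Lib.H57N.E8
section

/-! # H57N: the existence theorem, real version (assembly) -/

open NumberField IsDedekindDomain WeierstrassCurve

namespace H57N

open H28T
open H55P H55R
open H55K H55K.TQ

/-- For every finite p-group H and every bound R₀ the theorem applies to a field K with a real place, with at least R₀ primes in AnR, such that H is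
a subquotient of the Galois group over F of the field N generated by F and K (quadratic over K, Galois over ℚ). -/
def ExistRealS (F : Type) [Field F] [NumberField F] [IQ F] (p : ℕ) (W : WeierstrassCurve ℤ) : Prop :=
  ∀ (H : Type) [Group H] [Finite H] (k : ℕ), Nat.card H = p ^ k → ∀ R₀ : ℕ,
    ∃ (M K' K : Type) (_ : Field M) (_ : NumberField M) (_ : Field K') (_ : NumberField K') (_ : Field K) (_ : NumberField K)
      (_ : Algebra M K') (_ : Algebra K' K) (_ : Algebra M K) (n : ℕ),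
      0 < InfinitePlace.nrRealPlaces K ∧
      (∀ ιK : K →ₐ[ℚ] AlgebraicClosure F, H13T.HypS F p n W M K' K ιK) ∧ R₀ ≤ (H13T.AnR p W K' K).ncard ∧
      ∃ (N : Type) (_ : Field N) (_ : NumberField N) (_ : Algebra F N) (_ : Algebra K N),
        Module.finrank K N = 2 ∧ IsGalois ℚ N ∧ (∃ r : ℕ, Module.finrank F N = p ^ r) ∧ H28R.SubQ (N ≃ₐ[F] N) H

variable {F : Type} [Field F] [NumberField F] [IQ F] {W : WeierstrassCurve ℤ} {p : ℕ}

/-- Over a base field M contained in a field N₀ of the class. -/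
theorem e8_real (hF : Fct (F := F) W p) (h2 : p ≠ 2) (M N₀ : Type) [Field M] [NumberField M] [Field N₀] [NumberField N₀] [Algebra F N₀]
    [Algebra M N₀] (hN : ExtG (Gx (W⁄(𝓞 F)) p) p N₀) (hQ : IsGalois ℚ N₀) (hMN : Module.finrank M N₀ = 2)
    (hre : 0 < InfinitePlace.nrRealPlaces M) (H : Type) [Group H] (hH : H28R.SubQ (N₀ ≃ₐ[F] N₀) H) (R₀ : ℕ) :
    ∃ (K' K : Type) (_ : Field K') (_ : NumberField K') (_ : Field K) (_ : NumberField K)
      (_ : Algebra M K') (_ : Algebra K' K) (_ : Algebra M K) (n : ℕ),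
      0 < InfinitePlace.nrRealPlaces K ∧
      (∀ ιK : K →ₐ[ℚ] AlgebraicClosure F, H13T.HypS F p n W M K' K ιK) ∧ R₀ ≤ (H13T.AnR p W K' K).ncard ∧
      ∃ (N : Type) (_ : Field N) (_ : NumberField N) (_ : Algebra F N) (_ : Algebra K N),
        Module.finrank K N = 2 ∧ IsGalois ℚ N ∧ (∃ r : ℕ, Module.finrank F N = p ^ r) ∧ H28R.SubQ (N ≃ₐ[F] N) H := by
  have hUN : UnrP p N₀ := ce_unr hF.hp hF.unrF (fun v h => h.1) hN
  obtain ⟨n, l, Q, hn, hPr, hQc, hfew, hG, hd, hpl, hpQ, hq⟩ := e4_choice hF.hp hF.ell hF.dir hF.manyQ N₀ (Module.finrank ℚ M) R₀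
  obtain ⟨B, i1, i2, B', hC⟩ := c5_exists hPr
  have hdM : ∀ r : ℕ, r.Prime → (r : ℤ) ∣ discr M → r ≠ l ∧ r ∉ Q := fun r hr h => hd r hr (h.trans (discr_dvd_discr M N₀))
  obtain ⟨j⟩ : Nonempty (B →+* AlgebraicClosure N₀) := ⟨(IsAlgClosed.lift : B →ₐ[ℚ] AlgebraicClosure N₀).toRingHom⟩
  obtain ⟨j', hj'⟩ : ∃ j' : B' →+* AlgebraicClosure N₀, j' = j.comp (algebraMap B' B) := ⟨_, rfl⟩
  haveI tMΩ : IsScalarTower M N₀ (AlgebraicClosure N₀) := inferInstance
  have hle : cE M j' ≤ cE M j := by rw [hj']; exact p5_mono M j _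
  have hle' : cE N₀ j' ≤ cE N₀ j := by rw [hj']; exact p5_mono N₀ j _
  letI nK : NumberField (cE M j) := p5_num M j
  letI nK' : NumberField (cE M j') := p5_num M j'
  letI nL : NumberField (cE N₀ j) := p5_num N₀ j
  letI nL' : NumberField (cE N₀ j') := p5_num N₀ j'
  letI aB : Algebra B (cE M j) := cAlg M j
  letI aB' : Algebra B' (cE M j') := cAlg M j'
  letI bB : Algebra B (cE N₀ j) := cAlg N₀ j
  letI bB' : Algebra B' (cE N₀ j') := cAlg N₀ j'
  letI aKK : Algebra (cE M j') (cE M j) := (IntermediateField.inclusion hle).toRingHom.toAlgebra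
  haveI tM : IsScalarTower M (cE M j') (cE M j) := IsScalarTower.of_algebraMap_eq fun _ => rfl
  letI aF : Algebra F (cE N₀ j) := ((algebraMap N₀ (cE N₀ j)).comp (algebraMap F N₀)).toAlgebra
  haveI tF : IsScalarTower F N₀ (cE N₀ j) := IsScalarTower.of_algebraMap_eq fun _ => rfl
  letI aF' : Algebra F (cE N₀ j') := ((algebraMap N₀ (cE N₀ j')).comp (algebraMap F N₀)).toAlgebra
  haveI tF' : IsScalarTower F N₀ (cE N₀ j') := IsScalarTower.of_algebraMap_eq fun _ => rfl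
  -- K → L and K' → L'
  letI aKL : Algebra (cE M j) (cE N₀ j) :=
    (({ toFun := fun x => ⟨x, p5_up M N₀ j x x.2⟩
        map_one' := rfl
        map_mul' := fun _ _ => rfl
        map_zero' := rfl
        map_add' := fun _ _ => rfl } : (cE M j) →+* (cE N₀ j))).toAlgebra
  letI aKL' : Algebra (cE M j') (cE N₀ j') :=
    (({ toFun := fun x => ⟨x, p5_up M N₀ j' x x.2⟩
        map_one' := rfl
        map_mul' := fun _ _ => rfl
        map_zero' := rfl
        map_add' := fun _ _ => rfl } : (cE M j') →+* (cE N₀ j'))).toAlgebra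
  letI aML : Algebra M (cE N₀ j) := ((algebraMap N₀ (cE N₀ j)).comp (algebraMap M N₀)).toAlgebra
  haveI t1 : IsScalarTower M N₀ (cE N₀ j) := IsScalarTower.of_algebraMap_eq fun _ => rfl
  haveI t2 : IsScalarTower M (cE M j) (cE N₀ j) := IsScalarTower.of_algebraMap_eq fun _ => rfl
  have hc : Cmp M B (cE M j) := p5_cmp M j
  have hc' : Cmp M B' (cE M j') := p5_cmp M j'
  have hL : Cmp N₀ B (cE N₀ j) := p5_cmp N₀ j
  have hL' : Cmp N₀ B' (cE N₀ j') := p5_cmp N₀ j'
  haveI gB := hC.gal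
  haveI gB' := hC.gal'
  haveI gN := hN.1
  have hcyc := e1_cyc hC M (cE M j') (cE M j) hc' hc hdM
  have hext : ExtG (Gx (W⁄(𝓞 F)) p) p (cE N₀ j') := e1_ext hC N₀ (cE N₀ j') hL' hN hd hG
  haveI hgK : IsGalois M (cE M j) := hcyc.gal
  haveI hgL : IsGalois F (cE N₀ j) := p3_gal (F := F) hL
  have hcop : IsCoprime (discr N₀) (discr B) := p2_cop N₀ B fun r hr hrd w hw => hC.unr w r hr hw (hd r hr hrd).1 (hd r hr hrd).2
  have hdL : Module.finrank N₀ (cE N₀ j) = p ^ (n + 1) := (p2_deg hL hcop).1.trans hC.deg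
  obtain ⟨k, hk⟩ := hN.2.1
  have hdF : @Module.finrank F (cE N₀ j) _ _ aF.toModule = p ^ (k + (n + 1)) := by
    rw [e6_deg F N₀ (cE N₀ j), hk, hdL, ← pow_add]
  have hdKL : @Module.finrank (cE M j) (cE N₀ j) _ _ aKL.toModule = 2 := by
    have h1 := e6_deg M (cE M j) (cE N₀ j)
    have h3 := e6_deg M N₀ (cE N₀ j)
    rw [hdL, hMN] at h3
    rw [hcyc.deg, h3, mul_comm] at h1
    exact (Nat.eq_of_mul_eq_mul_left (Nat.pow_pos hF.hp.pos) h1).symm
  have hInP : InPF (W⁄(𝓞 F)) p (cE M j') :=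
    (inPF_iff hF.hp hF.unrF (cE M j')).2 ⟨cE N₀ j', inferInstance, nL', aF', aKL', hext⟩
  have hUM : UnrP p M := by
    rw [e2_iff M hF.hp]
    intro w hw
    obtain ⟨P, hP⟩ := under_exists (L := N₀) w
    have hPw : w.asIdeal = P.asIdeal.under (𝓞 M) := by rw [← hP]; rfl
    have hpP : (p : 𝓞 N₀) ∈ P.asIdeal := by
      have h1 : (p : 𝓞 M) ∈ P.asIdeal.under (𝓞 M) := hPw ▸ hw
      rw [Ideal.mem_under, map_natCast] at h1
      exact h1
    have h1 := (e2_iff N₀ hF.hp).1 hUN P hpP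
    rw [(p4_towerZ P w hPw).1] at h1
    exact Nat.eq_one_of_mul_eq_one_right h1
  have hsub := e3_sub (F := F) (W := W) hC M (cE M j') (cE M j) (cE N₀ j') (hK := hc) hext.1 hext.2.1 hG hF.down
  obtain ⟨hfin, hle2⟩ := e3_count hC hF.hp M (cE M j') hcyc.sub (fun q hq' => (hPr.hq q hq').1) (H13T.AnR p W (cE M j') (cE M j))
    (fun w hw => hsub w hw)
  have hlow := e3_lower (F := F) (W := W) hC M (cE M j') (cE M j) hc' hc hdM
    (fun q hq' => ⟨(hPr.hq q hq').1, (hPr.hq q hq').2.2.1, (hq q hq').1, (hq q hq').2⟩) hfin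
  refine ⟨cE M j', cE M j, inferInstance, nK', inferInstance, nK, inferInstance, aKK, inferInstance, n,
    e7_real M (cE M j) ?_ hre, fun ιK => ⟨hn, hcyc, e2_unr hC hF.hp hpl hpQ hc hUM, ?_, hF.bsd _ hInP, ?_⟩, ?_,
    cE N₀ j, inferInstance, nL, aF, aKL, hdKL, e7_galQ N₀ B (cE N₀ j) hL, ⟨_, hdF⟩, e7_subq (F := F) (N := N₀) (L := cE N₀ j) H hH⟩
  · rw [hcyc.deg]
    exact (hF.hp.odd_of_ne_two h2).pow
  · exact hF.bad M N₀ hN.1 hN.2.1 _
  · rw [hQc] at hle2
    exact lt_of_le_of_lt (Nat.mul_le_mul_left 2 hle2) hfew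
  · rw [← hQc]
    exact hlow

theorem e8_exist (hF : Fct (F := F) W p) (h2 : p ≠ 2) (hE : ∀ (H : Type) [Group H] [Finite H] (k : ℕ), Nat.card H = p ^ k →
    RealG (W⁄(𝓞 F)) p H) : ExistRealS F p W := by
  intro H _ _ k hk R₀
  obtain ⟨M, i1, i2, hre, -, N₀, j1, j2, j3, j4, hMN, hQ, hN, hH⟩ := hE H k hk
  obtain ⟨K', K, a1, a2, a3, a4, a5, a6, a7, n, h1, h3, h4, h5⟩ := e8_real hF h2 M N₀ hN hQ hMN hre H hH R₀
  exact ⟨M, K', K, i1, i2, a1, a2, a3, a4, a5, a6, a7, n, h1, h3, h4, h5⟩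

/-- EXISTENCE, real version, for the maximal order. -/
theorem real_main {Om : ℂ} {m : Ideal (𝓞 F)} {ψ : Ideal (𝓞 F) →*₀ 𝓞 F} (hH : BaseH F (W⁄(𝓞 F)) Om m ψ)
    (hp : PrimeH F (W⁄(𝓞 F)) p) (hA : AnUnitG p W ℚ) : ExistRealS F p W :=
  e8_exist (e6_fct hH hp hA) (by have := hp.five; omega) (fun H _ _ k hk => real_Q hH hp H k hk)

open H28I in
/-- EXISTENCE, real version, for the isogenous curves. -/
theorem real_iso {W' : WeierstrassCurve ℤ} {Om : ℂ} {m : Ideal (𝓞 F)}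
    {ψ : Ideal (𝓞 F) →*₀ 𝓞 F} {kap : ℤ} {e t u lam : ℚ} (h : TW F W W' Om m ψ kap e t u lam) (hp' : PrimeH F (W'⁄(𝓞 F)) p)
    (hA : AnUnitG p W' ℚ) : ExistRealS F p W' :=
  e8_exist (e6_fct_iso h hp' hA) (by have := hp'.five; omega) (rich_iso h hp').2

end H57N
end
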