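import Mathlib
import Pool.Agent.Lib.H1M.PP2.D_H13T_Stm
import Pool.Agent.Lib.H1M.PP2.D_H35U_MainB
import Pool.Agent.Lib.H1M.PP2.D_H41G_Stm
import Pool.Agent.Lib.H1M.PP2.D_H55G_D0
import Pool.Agent.Lib.H1M.PP2.M047
import Pool.Agent.Lib.H1M.PP2.M083
import Pool.Agent.Lib.H1M.PP2.M094
import Pool.Agent.Lib.H1M.PP2.M098
import Pool.Agent.Lib.H1M.PP2.M101
import Pool.Agent.Lib.H1M.PP2.M104
import Pool.Agent.Lib.H1M.PP2.M107
import Pool.Agent.Lib.H1M.PP2.M110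
import Pool.Agent.Lib.H1M.PP2.M116
import Pool.Agent.Lib.H1M.PP2.M128
import Pool.Agent.Lib.H1M.PP2.M141
import Pool.Agent.Lib.H1M.PP2.M142
import Pool.Agent.Lib.H1M.PP2.M143
import Pool.Agent.Lib.H1M.PP2.M155
import Pool.Agent.Lib.H1M.PP2.M156
import Pool.Agent.Lib.H1M.PP2.M161
import Pool.Agent.Lib.H1M.PP2.M165
import Pool.Agent.Lib.H1M.PP2.M167
import Pool.Agent.Lib.H1M.PP2.M169
import Pool.Agent.Lib.H1M.PP2.M170
import Pool.Agent.Lib.H1M.PP2.M171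
import Pool.Agent.Lib.H1M.PP2.M174

/-! Merged copies (to shorten the build) of Lib.H35Z.Z1, Lib.H35Z.Z2, Lib.H35Z.Z3, Lib.H41G.Stm_T, Lib.H41G.Z, Lib.H35Z.Z5A, Lib.H41G.Res. -/

-- from Lib.H35Z.Z1
section

/-! # H35Z, part 1: the exceptional primes of the analytic side and the anomalous ramified primes -/

open NumberField IsDedekindDomain WeierstrassCurve

namespace H35Z

open H55N H55P
open H55K.TQ (BaseH PrimeH)
open H13T (AnW CycI)
open H55K (cj)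

variable {F : Type} [Field F] [NumberField F] [IQ F] {W₀ : WeierstrassCurve (𝓞 F)} {Om : ℂ} {m : Ideal (𝓞 F)} {ψ : Ideal (𝓞 F) →*₀ 𝓞 F} {p : ℕ}

/-- An integer divisible by p has valuation less than 1. -/
theorem z1_dvd {V : ValuationSubring ℂ} (hV : V.valuation (p : ℂ) < 1) {n : ℤ} (h : (p : ℤ) ∣ n) : V.valuation ((n : ℤ) : ℂ) < 1 := by
  obtain ⟨k, rfl⟩ := h
  push_cast
  rw [map_mul]
  exact mul_lt_one_of_lt_of_le hV (by rw [V.valuation_le_one_iff]; exact intCast_mem V.toSubring k)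

/-- If the norm of x is 1 modulo p and p divides the norm of 1 - x then 1 - x is not a unit at any place above p. -/
theorem z1_one {V : ValuationSubring ℂ} (hV : V.valuation (p : ℂ) < 1) {x : 𝓞 F} {n : ℕ} (hx : Nm x = n) (hn : 1 ≤ n) (h1 : p ∣ n - 1)
    (h2 : p ∣ Nm (1 - x)) : V.valuation (eF F (1 - x)) < 1 := by
  have e1 := H55K.mul_cj x
  have e2 := H55K.mul_cj (1 - x)
  rw [map_sub, map_one] at e2
  have e3 : (1 - x) ^ 2 = (1 - (Nm x : 𝓞 F)) * (1 - x) - x * (Nm (1 - x) : 𝓞 F) := by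
    rw [← e1, ← e2]
    ring
  have e4 := congrArg (eF F) e3
  rw [map_pow, map_sub (eF F) ((1 - (Nm x : 𝓞 F)) * (1 - x)), map_mul, map_mul, map_natCast, map_sub (eF F) 1 (Nm x : 𝓞 F), map_one,
    map_natCast] at e4
  have h3 : V.valuation (1 - (Nm x : ℂ)) < 1 := by
    have h4 : (p : ℤ) ∣ 1 - (Nm x : ℤ) := by
      rw [hx]
      have h5 : ((n - 1 : ℕ) : ℤ) = (n : ℤ) - 1 := by
        push_cast [Nat.cast_sub hn]
        ring
      have h6 : (p : ℤ) ∣ ((n - 1 : ℕ) : ℤ) := Int.natCast_dvd_natCast.2 h1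
      rw [h5] at h6
      have h7 := (dvd_neg (α := ℤ)).2 h6
      rwa [neg_sub] at h7
    have h5 := z1_dvd hV h4
    push_cast at h5
    exact h5
  have h4 : V.valuation ((Nm (1 - x) : ℕ) : ℂ) < 1 := by
    have h5 := z1_dvd hV (Int.natCast_dvd_natCast.2 h2)
    push_cast at h5
    exact h5
  have hle : V.valuation (eF F (1 - x)) ≤ 1 := H35M.sn2_le V _
  have hlx : V.valuation (eF F x) ≤ 1 := H35M.sn2_le V _
  have h5 : V.valuation (eF F (1 - x) ^ 2) < 1 := by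
    rw [e4]
    refine lt_of_le_of_lt (Valuation.map_sub _ _ _) (max_lt ?_ ?_)
    · rw [map_mul]
      exact mul_lt_one_of_lt_of_le h3 hle
    · rw [map_mul, mul_comm]
      exact mul_lt_one_of_lt_of_le h4 hlx
  rw [map_pow] at h5
  by_contra hlt
  have h6 : V.valuation (eF F (1 - x)) = 1 := le_antisymm hle (not_lt.1 hlt)
  rw [h6, one_pow] at h5
  exact lt_irrefl _ h5

/-- The condition of the analytic side at a prime of norm 1 modulo p. -/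
theorem z1_cnd (hH : BaseH F W₀ Om m ψ) (hp : PrimeH F W₀ p) {V : ValuationSubring ℂ} (hV : V.valuation (p : ℂ) < 1)
    {K : Type} [Field K] [NumberField K] [Algebra F K] (w : HeightOneSpectrum (𝓞 K)) (h1 : p ∣ Ideal.absNorm w.asIdeal - 1) :
    V.valuation (1 - (starRingEnd ℂ) (PsiP K ψ w.asIdeal)) ≠ 1 ↔
      algebraMap (𝓞 F) (𝓞 K) W₀.Δ ∉ w.asIdeal ∧ p ∣ Nat.card (W₀⁄(𝓞 K ⧸ w.asIdeal)).toAffine.Point := by
  have hloc := H13R.y10_locR hH hp.prime w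
  obtain ⟨x, hx⟩ : ∃ x : 𝓞 F, x = ψ (Ideal.relNorm (𝓞 F) w.asIdeal) := ⟨_, rfl⟩
  rw [← hx] at hloc
  have e1 : 1 - (starRingEnd ℂ) (PsiP K ψ w.asIdeal) = eF F (1 - x) := by
    rw [PsiP_apply, ← hx, Complex.conj_conj, map_sub, map_one]
  have hR : (algebraMap (𝓞 F) (𝓞 K) W₀.Δ ∉ w.asIdeal ∧ p ∣ Nat.card (W₀⁄(𝓞 K ⧸ w.asIdeal)).toAffine.Point) ↔ p ∣ Nm (1 - x) := by
    have h2 : p ∣ Nm (1 - x) ↔ ¬ ¬ p ∣ Ideal.absNorm (Ideal.span {1 - x}) := by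
      rw [not_not]
      rfl
    rw [h2, hloc]
    tauto
  rw [e1, hR]
  constructor
  · intro h
    by_contra hn
    exact h (gen_unit p hp.prime (1 - x) hn V hV).1
  · intro h
    obtain ⟨hΔ, -⟩ := hR.2 h
    obtain ⟨v₀, hv₀, hN, hf, hmv⟩ := H55K.DD.below (m := m) w
    have hm : ¬ mK K m ≤ w.asIdeal := by
      intro h
      have h1 : W₀.Δ ∈ v₀.asIdeal := (hH.supp v₀).2 (hmv.1 h)
      rw [hv₀] at h1
      exact hΔ h1
    have hcop : IsCoprime (Ideal.relNorm (𝓞 F) w.asIdeal) m := by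
      rw [hN]
      exact (H55K.DD.d8_cop fun h => hm (hmv.2 h)).pow_left
    have hgen : Ideal.span {x} = Ideal.relNorm (𝓞 F) w.asIdeal := by
      rw [hx]
      exact hH.data.hecke.gen _ hcop
    have hNm : Nm x = Ideal.absNorm w.asIdeal := by
      show Ideal.absNorm (Ideal.span {x}) = _
      rw [hgen]
      exact Ideal.absNorm_relNorm (𝓞 F) (𝓞 K) w.asIdeal
    have hpos : 1 ≤ Ideal.absNorm w.asIdeal := by
      rw [Nat.one_le_iff_ne_zero]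
      intro h0
      exact w.ne_bot (Ideal.absNorm_eq_zero_iff.1 h0)
    exact (z1_one hV hNm hpos h1 h).ne

open Classical in
/-- The exceptional primes are the anomalous ramified primes. -/
theorem z1_set (hH : BaseH F W₀ Om m ψ) (hp : PrimeH F W₀ p) {V : ValuationSubring ℂ} (hV : V.valuation (p : ℂ) < 1)
    {N' N L : IntermediateField F (AlgebraicClosure F)} [NumberField N'] [NumberField N] (hL : PExt p N' L) (hle : N' ≤ N) (hNL : N ≤ L)
    (hU : UnrP p N) (w : HeightOneSpectrum (𝓞 N')) :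
    w ∈ AnW p W₀ N' N ↔ Ram N' N w.asIdeal ∧ V.valuation (1 - (starRingEnd ℂ) (PsiP N' ψ w.asIdeal)) ≠ 1 := by
  have key : Ram N' N w.asIdeal → (V.valuation (1 - (starRingEnd ℂ) (PsiP N' ψ w.asIdeal)) ≠ 1 ↔
      algebraMap (𝓞 F) (𝓞 N') W₀.Δ ∉ w.asIdeal ∧ p ∣ Nat.card (W₀⁄(𝓞 N' ⧸ w.asIdeal)).toAffine.Point) := fun hr =>
    z1_cnd hH hp hV w (ram_norm p hp.prime N' L hL N hle hNL hU w hr)
  constructor
  · rintro ⟨h1, h2, h3⟩
    exact ⟨h2, (key h2).2 ⟨h1, h3⟩⟩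
  · rintro ⟨h1, h2⟩
    obtain ⟨h3, h4⟩ := (key h1).1 h2
    exact ⟨h3, h1, h4⟩

end H35Z
end

-- from Lib.H35Z.Z2
section

/-! # H35Z, part 2: the L-value over FK -/

open NumberField IsDedekindDomain WeierstrassCurve

namespace H35Z

open H55N H55P
open H55K.TQ
open H13T (AnW CycI)
open H55K (cj)

variable {F : Type} [Field F] [NumberField F] [IQ F]

/-- If p is unramified in K and in F it is unramified in the field generated by F and K. -/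
theorem unr_up {p : ℕ} (hp : p.Prime) (hp2 : p ≠ 2) (hU : UnrP p F) (K : Type) [Field K] [NumberField K] (ι : K →ₐ[ℚ] AlgebraicClosure F)
    [NumberField (KG F K ι)] (h : UnrP p K) : UnrP p (KG F K ι) := by
  have hd := pl1_discr p hp h
  apply FC2_unr hp
  rcases kg_dich F K ι with ⟨f, hf⟩ | hQ
  · letI : Algebra F K := f.toAlgebra
    obtain ⟨θ⟩ := kg_iso F K ι f hf
    have h4 : discr K = discr (KG F K ι) := NumberField.discr_eq_discr_of_algEquiv K (θ.restrictScalars ℚ)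
    rwa [← h4]
  · letI : Algebra K (KG F K ι) := (KGmap F K ι).toAlgebra
    obtain ⟨V, hV⟩ := exists_above_p p hp
    have h1 := H35U.val_discr_quad hQ hp hp2 hU V hV
    have h2 : V.valuation (((discr K).natAbs : ℕ) : ℂ) = 1 :=
      val_nat p hp V hV _ fun hd' => hd (Int.natCast_dvd.2 hd')
    rw [h2, one_pow] at h1
    intro hd'
    have h3 := z1_dvd hV (Int.natCast_dvd_natCast.2 (Int.natCast_dvd.1 hd'))
    rw [Int.cast_natCast, h1] at h3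
    exact lt_irrefl _ h3

variable {W₀ : WeierstrassCurve (𝓞 F)} {Om : ℂ} {m : Ideal (𝓞 F)} {ψ : Ideal (𝓞 F) →*₀ 𝓞 F} {p n : ℕ}

/-- The L-value over N. -/
theorem z2_val (hH : BaseH F W₀ Om m ψ) (hp : PrimeH F W₀ p) {M N' N : IntermediateField F (AlgebraicClosure F)} [NumberField M]
    [NumberField N'] [NumberField N] {γ : AlgebraicClosure F ≃ₐ[F] AlgebraicClosure F} (c : CycI p n M N' N γ) (hU : UnrP p N)
    (hval : ValG p Om ψ N') (hfin : (AnW p W₀ N' N).Finite) (hr : (AnW p W₀ N' N).ncard < p ^ n) :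
    ∃ Φ : ℂ → ℂ, AnalyticOnNhd ℂ Φ {s | 1 / 2 < s.re} ∧ (∀ s : ℂ, 3 / 2 < s.re → HasSum (tm (PsiP N ψ) s) (Φ s)) ∧ Φ 1 ≠ 0 ∧
      ∀ V : ValuationSubring ℂ, V.valuation (p : ℂ) < 1 →
        V.valuation (Φ 1 / Om ^ Module.finrank F N) = V.valuation (p : ℂ) ^ (AnW p W₀ N' N).ncard := by
  classical
  have hpp := hp.prime
  have hNf : FiniteDimensional F N := c.fin
  have hUM : UnrP p M := H13R.unr_le hpp (c.le.trans c.le') hU
  have hL : PExt p M N := ⟨c.fin, c.le.trans c.le', c.nrm, ⟨n + 1, c.deg⟩⟩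
  have hL' : PExt p N' N := by
    refine ⟨c.fin, c.le', fun s hs x hx => c.nrm s ?_ x hx, ⟨1, by rw [pow_one]; exact c.deg'⟩⟩
    rw [IntermediateField.mem_fixingSubgroup_iff] at hs ⊢
    exact fun x hx => hs x (c.le hx)
  have hcop := y10_cop hH hp
  have hm : IsCoprime m (Ideal.span {(p : 𝓞 F)}) := hcop.of_mul_left_right
  have hΔ : IsCoprime (Ideal.span {W₀.Δ}) (Ideal.span {(p : 𝓞 F)}) := hcop.of_mul_left_left
  obtain ⟨v₀, hv₀⟩ := H13R.exists_goodGR hH hp M hUM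
  obtain ⟨Λ, hΛa, hΛs, -, hΛu⟩ := hval
  obtain ⟨T, hT⟩ : ∃ T : Finset (HeightOneSpectrum (𝓞 N')), (T : Set (HeightOneSpectrum (𝓞 N'))) = AnW p W₀ N' N :=
    ⟨hfin.toFinset, hfin.coe_toFinset⟩
  have hcard : T.card = (AnW p W₀ N' N).ncard := by
    rw [← hT, Set.ncard_coe_finset]
  rw [← hcard] at hr ⊢
  have key := fun (V : ValuationSubring ℂ) (hV : V.valuation (p : ℂ) < 1) =>
    H41S.main_int (m := m) (ψ := ψ) hpp M N' N c.le c.le' γ c.gam c.nrm c.gen c.deg c.deg' hH.data.hecke hm hU _ _ Om hH.data.per V hV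
      (gen_good p hpp hp.five W₀ hΔ V hV) (gen_ntp p hpp M v₀ hv₀ V hV) ⟨Λ, hΛa, hΛs, hΛu V hV⟩ T
      (fun w => by
        rw [← Finset.mem_coe, hT]
        exact z1_set hH hp hV hL' c.le' le_rfl hU w) hr
  obtain ⟨V₀, hV₀⟩ := exists_above_p p hpp
  obtain ⟨Φ, h1, h2, h3⟩ := key V₀ hV₀
  refine ⟨Φ, h1, h2, ?_, fun V hV => ?_⟩
  · intro h0
    rw [h0, zero_div, map_zero] at h3
    exact pow_ne_zero _ ((Valuation.ne_zero_iff _).2 (Nat.cast_ne_zero.2 hpp.ne_zero)) h3.symm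
  · obtain ⟨Φ', h1', h2', h3'⟩ := key V hV
    have h6 : Φ 1 = Φ' 1 := ident Φ Φ' h1 h1' (fun s hs => (h2 s hs).unique (h2' s hs)) 1 (by norm_num)
    rw [h6]
    exact h3'

end H35Z
end

-- from Lib.H35Z.Z3
section

/-! # H35Z, part 3: the real normalisation -/

open NumberField IsDedekindDomain WeierstrassCurve

namespace H35Z

open H55N H55P
open H55K.TQ
open H55Z (lG_relD sD sD_sq)

variable {F : Type} [Field F] [NumberField F] [IQ F] {W : WeierstrassCurve ℤ} {Om : ℂ} {m : Ideal (𝓞 F)} {ψ : Ideal (𝓞 F) →*₀ 𝓞 F} {p : ℕ}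

/-- The valuation of the complex conjugate. -/
theorem z3_conj (hp : p.Prime) {x : ℂ} {r : ℕ} (hx0 : x ≠ 0)
    (h : ∀ V : ValuationSubring ℂ, V.valuation (p : ℂ) < 1 → V.valuation x = V.valuation (p : ℂ) ^ r)
    (V : ValuationSubring ℂ) (hV : V.valuation (p : ℂ) < 1) : V.valuation ((starRingEnd ℂ) x) = V.valuation (p : ℂ) ^ r := by
  have hp0 : (p : ℂ) ≠ 0 := Nat.cast_ne_zero.2 hp.ne_zero
  have h1 : UnitP p (x / (p : ℂ) ^ r) := by
    intro A hA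
    have hA0 : A.valuation (p : ℂ) ≠ 0 := (Valuation.ne_zero_iff _).2 hp0
    rw [map_div₀, map_pow, h A hA]
    exact div_self (pow_ne_zero _ hA0)
  have h2 := pz6_conj hp (div_ne_zero hx0 (pow_ne_zero r hp0)) h1 V hV
  rw [map_div₀, map_pow, map_natCast, map_div₀, map_pow] at h2
  have hV0 : V.valuation (p : ℂ) ≠ 0 := (Valuation.ne_zero_iff _).2 hp0
  exact (div_eq_one_iff_eq (pow_ne_zero _ hV0)).1 h2

theorem z3_sD (hp : p.Prime) (K : Type) [Field K] [NumberField K] (hU : UnrP p K) (V : ValuationSubring ℂ) (hV : V.valuation (p : ℂ) < 1) :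
    sD V K = 1 := by
  have h1 := sD_sq V K
  have h2 : V.valuation (((discr K).natAbs : ℕ) : ℂ) = 1 :=
    val_nat p hp V hV _ fun hd => pl1_discr p hp hU (Int.natCast_dvd.2 hd)
  rw [h2] at h1
  rcases pow_eq_one_iff.1 h1 with h | h
  · exact h
  · exact absurd h two_ne_zero


end H35Z
end

-- from Lib.H41G.Stm_T
section

/-! # H41G: the theorem on nontrivial Tate-Shafarevich groups in cyclic extensions, with OkM in place of BadM -/

open NumberField IsDedekindDomain WeierstrassCurve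

namespace H41G

open H55P (IQ)
open H55K.TQ
open H13T (CycT AnR emb AtKS)
open H55G (OkM)




variable {F : Type} [Field F] [NumberField F] [IQ F] {p n : ℕ} {W : WeierstrassCurve ℤ}

/-- BadM implies OkM. -/
theorem hyp_o {M K' K : Type} [Field M] [NumberField M] [Field K'] [NumberField K'] [Field K] [NumberField K] [Algebra M K'] [Algebra K' K]
    [Algebra M K] {ιK : K →ₐ[ℚ] AlgebraicClosure F} (h : H13T.HypS F p n W M K' K ιK) : HypSO F p n W M K' K ιK :=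
  ⟨h.pos, h.cyc, h.unr, fun w hw hg => absurd hg (h.bad w hw), h.unit, h.few⟩

theorem exist_o (h : H13T.ExistS F p W) : ExistSO F p W := by
  intro H _ _ k hk R₀
  obtain ⟨M, K', K, i1, i2, i3, i4, i5, i6, i7, i8, i9, i10, n, a, b, c, d, e⟩ := h H k hk R₀
  exact ⟨M, K', K, i1, i2, i3, i4, i5, i6, i7, i8, i9, i10, n, a, b, c, fun ιK => hyp_o (d ιK), e⟩

end H41G
end

-- from Lib.H41G.Z
section

/-! # H41G: the theorem on nontrivial Tate-Shafarevich groups for complex multiplication by the integers of F, under OkM -/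

open NumberField IsDedekindDomain WeierstrassCurve

namespace H41G

open H55N
open H55P (IQ UnrP ac inS Pt PExt)
open H55K H55K.TQ
open H19A (ShaP)
open SSG
open H13T
open H55G (OkM RelV1 RelV2 relV1_of relV2_of ok_of ok_up lunit_iffV)
open H55Z (sD sD_sq)
open H35Z (unr_up z2_val z3_sD z3_conj)

open Classical in
/-- The algebraic half of the theorem over K. -/
theorem alg_mainO {F : Type} [Field F] [NumberField F] [IQ F] {W : WeierstrassCurve ℤ} {Om : ℂ} {m : Ideal (𝓞 F)} {ψ : Ideal (𝓞 F) →*₀ 𝓞 F}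
    (hH : BaseH F (W⁄(𝓞 F)) Om m ψ) {p : ℕ} (hp : PrimeH F (W⁄(𝓞 F)) p) {M K' K : Type} [Field M] [NumberField M] [Field K'] [NumberField K']
    [Field K] [NumberField K] [Algebra M K'] [Algebra K' K] [Algebra M K] (ιK : K →ₐ[ℚ] AlgebraicClosure F) {n : ℕ}
    (h : HypSO F p n W M K' K ιK) :
    (Finite (W⁄K).toAffine.Point ∧ ¬ p ∣ Nat.card (W⁄K).toAffine.Point) ∧
      Nat.card (ShaP p K (W⁄K)) = p ^ (2 * (AnR p W K' K).ncard) ∧
      ∀ z : H16C.Sha (W⁄K).toAffine (AlgebraicClosure K), (∃ k : ℕ, (p ^ k : ℕ) • z = 0) → p • z = 0 := by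
  have hp2 : p ≠ 2 := by
    have := hp.five
    omega
  obtain ⟨γ, c⟩ := q_cyc hp.prime hp2 h.pos h.cyc ιK
  have hUN : UnrP p (KG F K ιK) := unr_up hp.prime hp2 hp.unr K ιK h.unr
  have hSel : H55P.SelG p (W⁄(𝓞 F)) (KG F K' (emb ιK : K' →ₐ[ℚ] AlgebraicClosure F)) :=
    H13R.selG_of_triv hH hp.prime hp2 hp.unr K' (emb ιK) h.unit.1.1
  obtain ⟨d, hd, hdeg, hfin, hcard⟩ := q_card hp.prime hp2 h.pos h.cyc h.unr hH ιK
  have few : (AnW p (W⁄(𝓞 F)) (KG F K' (emb ιK : K' →ₐ[ℚ] AlgebraicClosure F)) (KG F K ιK)).ncard < p ^ n := by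
    rw [hcard]
    have hf := h.few
    rcases hd with rfl | rfl
    · omega
    · exact hf
  obtain ⟨m1, m2, m3, m4⟩ := c11_mainO hH hp c hUN h.ok hSel few
  refine ⟨pts_KG W hp.prime K ιK m3 m4, ?_, kp_KG hH hp.prime hp2 K ιK m2⟩
  obtain ⟨d', hd', hdeg', hcard'⟩ := card_KG hH hp.prime hp2 hp.unr K ιK
  have hdd : d' = d := by
    have h1 : 0 < Module.finrank ℚ K := Module.finrank_pos
    exact Nat.eq_of_mul_eq_mul_right h1 (hdeg'.symm.trans hdeg)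
  rw [m1, hcard, hdd] at hcard'
  have hd0 : d ≠ 0 := by
    rw [← hdd]
    exact hd'.ne'
  have e1 : p ^ (2 * (d * (AnR p W K' K).ncard)) = (p ^ (2 * (AnR p W K' K).ncard)) ^ d := by
    rw [← pow_mul]
    congr 1
    ring
  rw [e1] at hcard'
  exact Nat.pow_left_injective hd0 hcard'

variable {F : Type} [Field F] [NumberField F] [IQ F] {W : WeierstrassCurve ℤ} {Om : ℂ} {m : Ideal (𝓞 F)} {ψ : Ideal (𝓞 F) →*₀ 𝓞 F} {p : ℕ}

/-- The L-value over K. -/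
theorem z3_realO (hH : BaseH F (W⁄(𝓞 F)) Om m ψ) (hp : PrimeH F (W⁄(𝓞 F)) p) (K : Type) [Field K] [NumberField K]
    (ι : K →ₐ[ℚ] AlgebraicClosure F) (hU : UnrP p K) (hR : RelV2 p W Om ψ K (KG F K ι)) {Φ : ℂ → ℂ}
    (hΦa : AnalyticOnNhd ℂ Φ {s | 1 / 2 < s.re}) (hΦs : ∀ s : ℂ, 3 / 2 < s.re → HasSum (tm (H55P.PsiP (KG F K ι) ψ) s) (Φ s)) (hΦ1 : Φ 1 ≠ 0)
    {r a d : ℕ} (hd : d = 1 ∨ d = 2) (hdeg : Module.finrank ℚ (KG F K ι) = d * Module.finrank ℚ K) (hr : r = d * a)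
    (hv : ∀ V : ValuationSubring ℂ, V.valuation (p : ℂ) < 1 →
      V.valuation (Φ 1 / Om ^ Module.finrank F (KG F K ι)) = V.valuation (p : ℂ) ^ r) :
    ∃ Λ : ℂ → ℂ, AnalyticOnNhd ℂ Λ {s | 1 / 2 < s.re} ∧
      (∀ s : ℂ, 3 / 2 < s.re → LSeriesSummable (fun n => (((W⁄K).LFunction n : ℤ) : ℂ)) s ∧ Λ s = (W⁄K).LSeries s) ∧
      Λ 1 ≠ 0 ∧
      ∀ L : PeriodPair, PerZ W L → ∀ V : ValuationSubring ℂ, V.valuation (p : ℂ) < 1 →
        V.valuation (lG K W L (Λ 1)) = V.valuation (p : ℂ) ^ (2 * a) := by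
  obtain ⟨Λ, h1, h2, h3, h4⟩ := hR Φ hΦa hΦs
  refine ⟨Λ, h1, h2, h3 hΦ1, fun L hL V hV => ?_⟩
  have hfd : FiniteDimensional F (KG F K ι) := H13R.kg_fin F K ι
  have hpos : 0 < Module.finrank ℚ K := Module.finrank_pos
  have hx0 : Φ 1 / Om ^ Module.finrank F (KG F K ι) ≠ 0 := div_ne_zero hΦ1 (pow_ne_zero _ hH.data.per.ne)
  have e1 : Module.finrank ℚ (KG F K ι) = 2 * Module.finrank F (KG F K ι) := by
    rw [← Module.finrank_mul_finrank ℚ F (KG F K ι), IQ.deg]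
  have hone := z3_sD hp.prime K hU V hV
  rcases h4 V hV L hL with ⟨hk, h⟩ | ⟨hk, h⟩
  · have hd1 : d = 1 := by
      rcases hd with h5 | h5
      · exact h5
      · rw [h5, e1, hk] at hdeg
        omega
    rw [h, hv V hV, z3_conj hp.prime hx0 hv V hV, hone, mul_one, hr, hd1, one_mul, ← pow_add, two_mul]
  · have hd2 : d = 2 := by
      rcases hd with h5 | h5
      · rw [h5, e1, hk] at hdeg
        omega
      · exact h5
    rw [h, hv V hV, hone, mul_one, hr, hd2]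

/-- The analytic half over K. -/
theorem z4_anaO (hH : BaseH F (W⁄(𝓞 F)) Om m ψ) (hp : PrimeH F (W⁄(𝓞 F)) p) {M K' K : Type} [Field M] [NumberField M] [Field K']
    [NumberField K'] [Field K] [NumberField K] [Algebra M K'] [Algebra K' K] [Algebra M K] (ιK : K →ₐ[ℚ] AlgebraicClosure F) {n : ℕ}
    (h : HypSO F p n W M K' K ιK) :
    ∃ Λ : ℂ → ℂ, AnalyticOnNhd ℂ Λ {s | 1 / 2 < s.re} ∧
      (∀ s : ℂ, 3 / 2 < s.re → LSeriesSummable (fun n => (((W⁄K).LFunction n : ℤ) : ℂ)) s ∧ Λ s = (W⁄K).LSeries s) ∧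
      Λ 1 ≠ 0 ∧
      ∀ L : PeriodPair, PerZ W L → ∀ V : ValuationSubring ℂ, V.valuation (p : ℂ) < 1 →
        V.valuation (lG K W L (Λ 1)) = V.valuation (p : ℂ) ^ (2 * (AnR p W K' K).ncard) := by
  have hpp := hp.prime
  have hp2 : p ≠ 2 := by
    have := hp.five
    omega
  obtain ⟨γ, c⟩ := q_cyc (F := F) hpp hp2 h.pos h.cyc ιK
  have hU : UnrP p (KG F K ιK) := unr_up hpp hp2 hp.unr K ιK h.unr
  have hUK' : UnrP p K' := H55P.UnrP.down K' K p hpp h.unr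
  obtain ⟨hL1, hL2, hL3⟩ := c2_pext hpp.pos c
  have hUM := H13R.unr_le hpp (c.le.trans c.le') hU
  have hUN' := H13R.unr_le hpp c.le' hU
  have hLU : H13R.LUnitG p W K' := (H13R.an_iff hpp h.unit.1.2.2.2).1 h.unit.2
  have hR' : RelV1 p W Om ψ K' (KG F K' (emb ιK : K' →ₐ[ℚ] AlgebraicClosure F)) :=
    relV1_of hH hp K' (emb ιK : K' →ₐ[ℚ] AlgebraicClosure F) hUK'
      (ok_of hH K' (emb ιK : K' →ₐ[ℚ] AlgebraicClosure F) (ok_up hH hp hL2 c.le le_rfl h.ok))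
  have hR : RelV2 p W Om ψ K (KG F K ιK) :=
    relV2_of hH hp K ιK (ok_of hH K ιK (ok_up hH hp hL1 (c.le.trans c.le') le_rfl h.ok))
  have hI' := H13R.gen_intR hH hp hUM hL2 c.le le_rfl hUN'
  have hval := (lunit_iffV hH hp K' (KG F K' (emb ιK : K' →ₐ[ℚ] AlgebraicClosure F)) hR' hI').1 hLU
  obtain ⟨d, hd, hdeg, -, hcard⟩ := q_card hpp hp2 h.pos h.cyc h.unr hH ιK
  have hr : (AnW p (W⁄(𝓞 F)) (KG F K' (emb ιK : K' →ₐ[ℚ] AlgebraicClosure F)) (KG F K ιK)).ncard < p ^ n := by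
    rw [hcard]
    refine lt_of_le_of_lt (Nat.mul_le_mul_right _ ?_) h.few
    omega
  obtain ⟨Φ, hΦa, hΦs, hΦ1, hv⟩ := z2_val hH hp c hU hval (c6_fin hpp.pos c) hr
  exact z3_realO hH hp K ιK h.unr hR hΦa hΦs hΦ1 hd hdeg hcard hv

open Classical in
/-- THE THEOREM for complex multiplication by the integers of F. -/
theorem sha_maxO (hH : BaseH F (W⁄(𝓞 F)) Om m ψ) (hp : PrimeH F (W⁄(𝓞 F)) p) : ShaThmO F p W := by
  intro M K' K _ _ _ _ _ _ _ _ _ ιK n h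
  have hpp := hp.prime
  obtain ⟨hpts, hsha, hkil⟩ := alg_mainO hH hp ιK h
  obtain ⟨Λ, hΛa, hΛs, hΛ1, hΛv⟩ := z4_anaO hH hp ιK h
  refine ⟨hpts, hsha, hkil, exists_perZ (perW_of hH), Λ, hΛa, hΛs, hΛ1, fun L hL V hV => ?_⟩
  rw [shaG_lG, map_mul, map_pow, H55P.val_nat p hpp V hV _ hpts.2, one_pow, mul_one, hΛv L hL V hV, hsha, Nat.cast_pow, map_pow]

end H41G
end

-- from Lib.H35Z.Z5A
section

/-! # H35Z, part 5A: the sets AnR of isogenous curves agree -/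

open NumberField IsDedekindDomain WeierstrassCurve

namespace H35Z

open H55P (IQ embF eF LF Per IsHecke Nm)
open H55K H55K.TQ
open H28I (TW tw_supp tw_deu)
open H13T (AnR)

/-- The roots of a quadratic equation. -/
theorem z5_roots (t q : ℂ) : ∃ α β : ℂ, α + β = t ∧ α * β = q := rh_roots t q

/-- The residue field of a prime of norm l. -/
theorem z5_equiv {R : Type} [CommRing R] {v : Ideal R} (hv : v.IsMaximal) {l : ℕ} (hl : l.Prime) (hlv : (l : R) ∈ v)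
    (hc : Nat.card (R ⧸ v) = l) : Nonempty (ZMod l ≃+* R ⧸ v) := by
  have : Fact l.Prime := ⟨hl⟩
  let _ : Field (R ⧸ v) := Ideal.Quotient.field v
  have h0 : ((l : ℕ) : R ⧸ v) = 0 := by
    rw [← map_natCast (Ideal.Quotient.mk v), Ideal.Quotient.eq_zero_iff_mem]
    exact hlv
  have : CharP (R ⧸ v) l := by
    obtain ⟨p, hp⟩ := CharP.exists (R ⧸ v)
    have h1 : p ∣ l := (CharP.cast_eq_zero_iff _ p l).1 h0
    rcases (Nat.dvd_prime hl).1 h1 with h2 | h2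
    · exfalso
      rw [h2] at hp
      exact one_ne_zero ((CharP.cast_eq_zero_iff (R ⧸ v) 1 1).2 (dvd_refl 1) ▸ (Nat.cast_one (R := R ⧸ v)).symm)
    · rwa [h2] at hp
  have hf : Finite (R ⧸ v) := Nat.finite_of_card_ne_zero (by rw [hc]; exact hl.ne_zero)
  let _ : Fintype (R ⧸ v) := Fintype.ofFinite _
  refine ⟨RingEquiv.ofBijective (ZMod.castHom (dvd_refl l) (R ⧸ v)) ?_⟩
  rw [Fintype.bijective_iff_injective_and_card]
  refine ⟨RingHom.injective _, ?_⟩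
  rw [ZMod.card, ← hc, Nat.card_eq_fintype_card]

/-- The number of points over an isomorphic ring. -/
theorem z5_iso (W : WeierstrassCurve ℤ) {A B : Type} [CommRing A] [CommRing B] [Algebra ℤ A] [Algebra ℤ B] (f : A ≃+* B) :
    Nat.card (W⁄B).toAffine.Point = Nat.card (W⁄A).toAffine.Point := by
  have h : (W⁄B) = (W⁄A).map (f : A →+* B) := by
    show W.map (algebraMap ℤ B) = (W.map (algebraMap ℤ A)).map (f : A →+* B)
    rw [WeierstrassCurve.map_map]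
    congr 1
    exact RingHom.ext_int _ _
  rw [h]
  exact rc2_card (W⁄A) f

variable {F : Type} [Field F] [NumberField F] [IQ F] {W W' : WeierstrassCurve ℤ} {Om : ℂ} {m : Ideal (𝓞 F)}
    {ψ : Ideal (𝓞 F) →*₀ 𝓞 F} {kap : ℤ} {e t u lam : ℚ} {p : ℕ}

/-- The discriminants of isogenous curves have the same prime divisors. -/
theorem z5_disc (h : TW F W W' Om m ψ kap e t u lam) {l : ℕ} (hl : l.Prime) : (l : ℤ) ∣ W'.Δ ↔ (l : ℤ) ∣ W.Δ := by
  have hlu : ¬ IsUnit ((l : ℕ) : 𝓞 F) := by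
    intro hu
    have h3 : Nm (l : 𝓞 F) = 1 := by
      show Ideal.absNorm (Ideal.span {(l : 𝓞 F)}) = 1
      rw [Ideal.span_singleton_eq_top.2 hu]
      exact Ideal.absNorm_top
    have h4 : Nm (l : 𝓞 F) = l ^ 2 := Nm_nat l
    rw [h4] at h3
    have h5 := hl.one_lt
    nlinarith
  obtain ⟨P, hPm, hP⟩ := Ideal.exists_le_maximal (Ideal.span {(l : 𝓞 F)}) (fun h => hlu (Ideal.span_singleton_eq_top.1 h))
  have hlP : (l : 𝓞 F) ∈ P := hP (Ideal.mem_span_singleton_self _)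
  have hPb : P ≠ ⊥ := by
    rintro rfl
    rw [Ideal.mem_bot] at hlP
    exact hl.ne_zero (by exact_mod_cast hlP)
  have h1 := tw_supp h ⟨P, hPm.isPrime, hPb⟩
  have e1 : ∀ X : WeierstrassCurve ℤ, (X⁄(𝓞 F)).Δ = ((X.Δ : ℤ) : 𝓞 F) := fun X => rh_disc X (𝓞 F)
  rw [e1, e1] at h1
  rw [← rh_int hPm.ne_top hl hlP W'.Δ, ← rh_int hPm.ne_top hl hlP W.Δ]
  exact h1

/-- The numbers of points over the prime field agree. -/
theorem z5_prime (h : TW F W W' Om m ψ kap e t u lam) {l : ℕ} (hl : l.Prime) (hΔ : ¬ (l : ℤ) ∣ W.Δ) :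
    Nat.card (W'⁄(ZMod l)).toAffine.Point = Nat.card (W⁄(ZMod l)).toAffine.Point := by
  have hΔ' : ¬ (l : ℤ) ∣ W'.Δ := fun hd => hΔ ((z5_disc h hl).1 hd)
  have hl0 : (l : 𝓞 F) ≠ 0 := Nat.cast_ne_zero.2 hl.ne_zero
  have hlu : ¬ IsUnit ((l : ℕ) : 𝓞 F) := by
    intro hu
    have h3 : Nm (l : 𝓞 F) = 1 := by
      show Ideal.absNorm (Ideal.span {(l : 𝓞 F)}) = 1
      rw [Ideal.span_singleton_eq_top.2 hu]
      exact Ideal.absNorm_top
    have h4 : Nm (l : 𝓞 F) = l ^ 2 := Nm_nat l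
    rw [h4] at h3
    have h5 := hl.one_lt
    nlinarith
  obtain ⟨P, hPm, hP⟩ := Ideal.exists_le_maximal (Ideal.span {(l : 𝓞 F)}) (fun h => hlu (Ideal.span_singleton_eq_top.1 h))
  have hlP : (l : 𝓞 F) ∈ P := hP (Ideal.mem_span_singleton_self _)
  have hPb : P ≠ ⊥ := by
    rintro rfl
    rw [Ideal.mem_bot] at hlP
    exact hl0 hlP
  obtain ⟨v, hv⟩ : ∃ v : HeightOneSpectrum (𝓞 F), v.asIdeal = P := ⟨⟨P, hPm.isPrime, hPb⟩, rfl⟩
  rw [← hv] at hlP hP hPm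
  have e1 : ∀ X : WeierstrassCurve ℤ, (X⁄(𝓞 F)).Δ ∈ v.asIdeal ↔ (l : ℤ) ∣ X.Δ := fun X => by
    rw [rh_disc X (𝓞 F)]
    exact rh_int hPm.ne_top hl hlP X.Δ
  have hΔv : (W⁄(𝓞 F)).Δ ∉ v.asIdeal := fun hc => hΔ ((e1 W).1 hc)
  have hΔv' : (W'⁄(𝓞 F)).Δ ∉ v.asIdeal := fun hc => hΔ' ((e1 W').1 hc)
  have hm : ¬ m ≤ v.asIdeal := fun hc => hΔv ((h.base.supp v).2 hc)
  -- the norm of v
  have hdv : v.asIdeal ∣ Ideal.span {(l : 𝓞 F)} := Ideal.dvd_iff_le.2 hP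
  obtain ⟨J, hJ⟩ := hdv
  have hN : Ideal.absNorm v.asIdeal * Ideal.absNorm J = l ^ 2 := by
    rw [← map_mul, ← hJ]
    exact Nm_nat l
  obtain ⟨k, hk, hk'⟩ := (Nat.dvd_prime_pow hl).1 ⟨_, hN.symm⟩
  have hk0 : k ≠ 0 := by
    rintro rfl
    rw [pow_zero] at hk'
    exact v.isPrime.ne_top (Ideal.absNorm_eq_one_iff.1 hk')
  rcases (by omega : k = 1 ∨ k = 2) with rfl | rfl
  · rw [pow_one] at hk'
    have hc : Nat.card (𝓞 F ⧸ v.asIdeal) = l := hk'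
    obtain ⟨φ⟩ := z5_equiv hPm hl hlP hc
    have e2 : ∀ X : WeierstrassCurve ℤ, (X⁄(𝓞 F))⁄(𝓞 F ⧸ v.asIdeal) = X⁄(𝓞 F ⧸ v.asIdeal) := fun X => fb9b_map X
    have h1 := (tw_deu h v hΔv').1
    rw [e2, e2, z5_iso W' φ, z5_iso W φ] at h1
    exact h1
  · have hJ1 : Ideal.absNorm J = 1 := by
      rw [hk'] at hN
      exact Nat.eq_of_mul_eq_mul_left (pow_pos hl.pos 2) (by rw [hN, mul_one])
    have hJ2 : J = ⊤ := Ideal.absNorm_eq_one_iff.1 hJ1
    have hvl : v.asIdeal = Ideal.span {(l : 𝓞 F)} := by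
      rw [hJ, hJ2, Ideal.mul_top]
    have h1 := (inert_F (W := W) h.base.data.hecke (fun v hv _ => h.base.deu v hv) hl v hvl hΔv hm).1
    have h2 := (inert_F (W := W') h.base.data.hecke (fun v hv _ => (tw_deu h v hv).2) hl v hvl hΔv' hm).1
    rw [h1, h2]

/-- The numbers of points over finite fields agree. -/
theorem z5_fin (h : TW F W W' Om m ψ kap e t u lam) {l : ℕ} (hl : l.Prime) (hΔ : ¬ (l : ℤ) ∣ W.Δ) (k : Type) [Field k] [Finite k]
    (hk : ((l : ℕ) : k) = 0) : Nat.card (W'⁄k).toAffine.Point = Nat.card (W⁄k).toAffine.Point := by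
  have hΔ' : ¬ (l : ℤ) ∣ W'.Δ := fun hd => hΔ ((z5_disc h hl).1 hd)
  have : Fact l.Prime := ⟨hl⟩
  have : CharP k l := by
    obtain ⟨q, hq⟩ := CharP.exists k
    have h1 : q ∣ l := (CharP.cast_eq_zero_iff _ q l).1 hk
    rcases (Nat.dvd_prime hl).1 h1 with h2 | h2
    · exfalso
      rw [h2] at hq
      exact one_ne_zero ((CharP.cast_eq_zero_iff k 1 1).2 (dvd_refl 1) ▸ (Nat.cast_one (R := k)).symm)
    · rwa [h2] at hq
  let _ : Algebra (ZMod l) k := ZMod.algebra k l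
  obtain ⟨α, β, h1, h2⟩ := z5_roots ((l : ℂ) + 1 - (Nat.card (W⁄(ZMod l)).toAffine.Point : ℂ)) (l : ℂ)
  have hz : ∀ X : WeierstrassCurve ℤ, ¬ (l : ℤ) ∣ X.Δ → (X⁄(ZMod l)).Δ ≠ 0 := by
    intro X hX h0
    apply hX
    rw [rh_disc X (ZMod l)] at h0
    exact (ZMod.intCast_zmod_eq_zero_iff_dvd _ l).1 h0
  have e1 : ∀ X : WeierstrassCurve ℤ, WeierstrassCurve.baseChange (X⁄(ZMod l)) k = X⁄k := fun X => fb9b_map X
  have hc : (Nat.card (ZMod l) : ℂ) = (l : ℂ) := by rw [Nat.card_zmod]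
  have w1 := H55K.weil (k := ZMod l) (K := k) (W⁄(ZMod l)) (hz W hΔ) α β (by rw [hc]; exact h1) (by rw [hc]; exact h2)
  have w2 := H55K.weil (k := ZMod l) (K := k) (W'⁄(ZMod l)) (hz W' hΔ') α β (by rw [hc, z5_prime h hl hΔ]; exact h1) (by rw [hc]; exact h2)
  rw [e1] at w1 w2
  have w3 := w2.trans w1.symm
  exact_mod_cast w3

/-- The sets AnR agree. -/
theorem z5_AnR (h : TW F W W' Om m ψ kap e t u lam) (K' K : Type) [Field K'] [NumberField K'] [Field K] [NumberField K] [Algebra K' K] :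
    AnR p W' K' K = AnR p W K' K := by
  ext w
  obtain ⟨l, f, hl, hlw, hf, hN⟩ := below_W w
  have hwm := w.isMaximal
  have e1 : ∀ X : WeierstrassCurve ℤ, ((X.Δ : ℤ) : 𝓞 K') ∈ w.asIdeal ↔ (l : ℤ) ∣ X.Δ := fun X => rh_int w.isPrime.ne_top hl hlw X.Δ
  let _ : Field (𝓞 K' ⧸ w.asIdeal) := Ideal.Quotient.field _
  have hfin : Finite (𝓞 K' ⧸ w.asIdeal) := w.asIdeal.finiteQuotientOfFreeOfNeBot w.ne_bot
  have hk : ((l : ℕ) : 𝓞 K' ⧸ w.asIdeal) = 0 := by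
    rw [← map_natCast (Ideal.Quotient.mk w.asIdeal), Ideal.Quotient.eq_zero_iff_mem]
    exact hlw
  have hcard : ¬ (l : ℤ) ∣ W.Δ → Nat.card (W'⁄(𝓞 K' ⧸ w.asIdeal)).toAffine.Point = Nat.card (W⁄(𝓞 K' ⧸ w.asIdeal)).toAffine.Point :=
    fun hΔ => z5_fin h hl hΔ (𝓞 K' ⧸ w.asIdeal) hk
  show (_ ∧ _ ∧ _) ↔ (_ ∧ _ ∧ _)
  rw [e1, e1, z5_disc h hl]
  refine and_congr_right fun hΔ => ?_
  rw [hcard hΔ]

end H35Z
end

-- from Lib.H41G.Res
section

/-! # H41G: the theorem on nontrivial Tate-Shafarevich groups for all orders of class number one, under OkM -/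

open NumberField IsDedekindDomain WeierstrassCurve

namespace H41G

open H55P (IQ embF eF LF Per IsHecke Pt ac Inert Dec Nm UnitP UnrP PExt)
open H55K H55K.TQ
open H13T
open SSG (galS PP bridge iso6_card ShaC fin_ell)
open H28I (TW tw_prime)
open H35Z (z5_AnR)
open H55G (OkM okm_tw lfun_tw)

section iso

variable {F : Type} [Field F] [NumberField F] [IQ F] {W W' : WeierstrassCurve ℤ} {Om : ℂ} {m : Ideal (𝓞 F)}
    {ψ : Ideal (𝓞 F) →*₀ 𝓞 F} {kap : ℤ} {e t u lam : ℚ} {p : ℕ}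

open Classical in
/-- KP and isogenies. -/
theorem z5_iso6O {K : Type} [Field K] {W₁ W₂ : WeierstrassCurve K} {Ω : Type} [Field Ω] [Algebra K Ω] (h : H28I.Iso6 W₁ W₂ Ω) {p : ℕ}
    (hp : p.Prime) (h5 : 5 ≤ p) (hK : KP p (galS W₁ Ω).Sha) : KP p (galS W₂ Ω).Sha := by
  obtain ⟨Φ, Ψ, h1, h2, h3, h4⟩ := h
  have hm : ¬ p ∣ 6 := by
    intro hd
    have h6 := Nat.le_of_dvd (by norm_num) hd
    interval_cases p <;> revert hp hd <;> decide
  have H1 : SSG.Hom (galS W₁ Ω) (galS W₂ Ω) (MonoidHom.id (Ω ≃ₐ[K] Ω)) Φ :=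
    ⟨fun g a => h3 g a, fun u hu => ⟨u, hu, fun g hg => hg⟩, fun d hd => ⟨d, hd, fun g hg => hg⟩⟩
  have H2 : SSG.Hom (galS W₂ Ω) (galS W₁ Ω) (MonoidHom.id (Ω ≃ₐ[K] Ω)) Ψ :=
    ⟨fun g a => h4 g a, fun u hu => ⟨u, hu, fun g hg => hg⟩, fun d hd => ⟨d, hd, fun g hg => hg⟩⟩
  exact kp_hom hp hm H2 H1 (fun g => rfl) h2 hK

open Classical in
/-- THE THEOREM for isogenous curves. -/
theorem sha_iso_thmO (h : TW F W W' Om m ψ kap e t u lam) (hp' : PrimeH F (W'⁄(𝓞 F)) p) (hT : ShaThmO F p W) : ShaThmO F p W' := by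
  intro M K' K _ _ _ _ _ _ _ _ _ ιK n hS
  have hp := (tw_prime h).1 hp'
  have h5 := hp.five
  have h2 : p ≠ 2 := by omega
  have hpp : p.Prime := hp.prime
  have hAn := z5_AnR (p := p) h K' K
  have hok : OkM p (W⁄(𝓞 F)) (KG F M (emb ιK : M →ₐ[ℚ] AlgebraicClosure F)) := (okm_tw h _).1 hS.ok
  have hSK' := H13R.i1_same h hp K' (lfun_tw h K')
  have hSK := H13R.i1_same h hp K (lfun_tw h K)
  have hunit : BSDPG p W K' := (H35U.bsdB_iff h.base hp K' (emb ιK : K' →ₐ[ℚ] AlgebraicClosure F)).2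
    ⟨(H13R.i1_sel hpp h5 hSK').1 hS.unit.1.1, (H13R.i1_lunit hSK').1 ((H13R.an_iff hpp hS.unit.1.2.2.2).1 hS.unit.2)⟩
  have hO := hT M K' K ιK n ⟨hS.pos, hS.cyc, hS.unr, hok, hunit, by rw [← hAn]; exact hS.few⟩
  rw [hAn]
  obtain ⟨q1, q2⟩ := H28I.pts_iso hpp h5 (H28I.a0_disc hSK.disc' K) hSK.iso hO.pts.1 hO.pts.2
  have hWK : (W⁄K).IsElliptic := fin_ell hSK.disc K
  have hWK' : (W'⁄K).IsElliptic := fin_ell hSK.disc' K
  have hcard : Nat.card (H19A.ShaP p K (W'⁄K)) = Nat.card (H19A.ShaP p K (W⁄K)) := by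
    have e1 : Nat.card (ShaC p K (W⁄K)) = _ := bridge (W⁄K) hpp h2
    have e2 : Nat.card (ShaC p K (W'⁄K)) = _ := bridge (W'⁄K) hpp h2
    have e3 := iso6_card hSK.iso hpp h5
    exact e2.trans (e3.symm.trans e1.symm)
  have hkil : ∀ z : H16C.Sha (W'⁄K).toAffine (AlgebraicClosure K), (∃ k : ℕ, (p ^ k : ℕ) • z = 0) → p • z = 0 :=
    bridge_kp (W'⁄K) hpp h2 (z5_iso6O hSK.iso hpp h5 (bridge_kp2 (W⁄K) hpp h2 hO.kil))
  rw [hO.sha] at hcard
  obtain ⟨Λ, hΛa, hΛs, hΛ1, hΛv⟩ := hO.bsd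
  refine ⟨⟨q1, q2⟩, hcard, hkil, hSK.ex', Λ, hΛa, (H28I.a0_ser hSK Λ).2 hΛs, hΛ1, fun L hL V hV => ?_⟩
  obtain ⟨L₀, hL₀⟩ := hSK.ex
  have e1 := hΛv L₀ hL₀ V hV
  rw [shaG_lG, map_mul, map_pow, H55P.val_nat p hpp V hV _ hO.pts.2, one_pow, mul_one, hO.sha] at e1
  rw [shaG_lG, map_mul, map_pow, H55P.val_nat p hpp V hV _ q2, one_pow, mul_one, hcard, hSK.per L₀ L hL₀ hL V hV]
  exact e1

end iso

/-- THE THEOREM, all 13 orders of class number one. -/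
theorem sha_allO (F : Type) [Field F] [NumberField F] [IQ F] (W' : WeierstrassCurve ℤ) (hC : H19A.CM F W') (p : ℕ) (hp : p.Prime) (h5 : 5 ≤ p)
    (hd : ¬ (p : ℤ) ∣ W'.Δ) : ShaThmO F p W' := by
  have hcub : ∀ w : 𝓞 F, w ^ 2 + w + 1 = 0 → ∀ n : ℤ, n ≠ 0 →
      ∃ κ : 𝓞 F → 𝓞 F, H55W.PRC (𝓞 F) 3 n (3 * n) (27 * n) κ := fun w hw n hn => H55W.cub_F F IQ.deg w hw n hn
  rcases H55Y.y5_cases hC hcub with ⟨Om, hper⟩ | ⟨W, Om, m, ψ, kap, e, t, u, lam, hΔ, hper, h⟩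
  · obtain ⟨hΔ, hmin, -⟩ := hC
    obtain ⟨ψ, hH⟩ := H55W.base_all0 hcub W' Om hΔ hper hmin
    exact sha_maxO hH (H55W.prime_simple hΔ hper hp h5 hd)
  · have hP0 := H55W.prime_simple hΔ hper hp h5 fun h' => hd (H55Y.y6_dvd h hp h')
    exact sha_iso_thmO h ((H28I.tw_prime h).2 hP0) (sha_maxO h.base hP0)

end H41G
end
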