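import Mathlib
import Pool.Agent.Lib.H1M.PP2.D_H35U_MainB
import Pool.Agent.Lib.H1M.PP2.D_H35V_Abs
import Pool.Agent.Lib.H1M.PP2.D_H35V_D
import Pool.Agent.Lib.H1M.PP2.M127
import Pool.Agent.Lib.H1M.PP2.M165
import Pool.Agent.Lib.H1M.PP2.M166
import Pool.Agent.Lib.H1M.PP2.M167
import Pool.Agent.Lib.H1M.PP2.M169
import Pool.Agent.Lib.H1M.PP2.M172
import Pool.Agent.Lib.H1M.PP2.M175
import Pool.Agent.Lib.H1M.PP2.M177

/-! Merged copies (to shorten the build) of Lib.H35V.Abs_T, Lib.H35V.Link, Lib.H35V.MainP, Lib.SSU.MainC, Lib.SSU.MainCO, Lib.SSU.MainD, Lib.H35V.Main. -/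

-- from Lib.H35V.Abs_T
section

/-! # H35V: the base field ℚ -/

open NumberField IsDedekindDomain WeierstrassCurve

namespace H35V

open H55P (IQ embF eF LF Per IsHecke Pt ac Inert Dec Nm UnitP UnrP PExt RamF Ram)
open H55K H55K.TQ
open H13R (NoRel LUnitG i1_same i1_lunit)
open H28I (TW Same tw_prime tw_supp)
open H35U (OverB NT nt_up nt_down nt_same)
open H35M (NoTor)
open H55G (OkM lfun_tw okm_tw)



variable {F : Type} [Field F] [NumberField F] [IQ F] {W W' : WeierstrassCurve ℤ} {Om : ℂ}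
    {m : Ideal (𝓞 F)} {ψ : Ideal (𝓞 F) →*₀ 𝓞 F} {p : ℕ}

theorem norel_bot (W₀ : WeierstrassCurve (𝓞 F)) (K : IntermediateField F (AlgebraicClosure F)) (B : IntermediateField F (AlgebraicClosure F))
    [NumberField B] (hB : B = ⊥) : NoRel p W₀ B K ↔ NoAn p W₀ K := by
  classical
  subst hB
  constructor
  · intro h v₀ hr hΔ
    obtain ⟨v, h1, h2, h3⟩ := H55P.bot_conv' W₀ K v₀
    rw [← h3]
    exact h v (h2 hr) fun h4 => hΔ ((h1 _).2 h4)
  · intro h v hr hΔ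
    obtain ⟨v₀, h1, h2, h3⟩ := H55P.bot_conv W₀ K v
    rw [h3]
    exact h v₀ (h2 hr) fun h4 => hΔ ((h1 _).1 h4)

theorem kgq (ι₀ : ℚ →ₐ[ℚ] AlgebraicClosure F) : KG F ℚ ι₀ = ⊥ :=
  kg_rat F ℚ (fun x => ⟨x, (Rat.cast_id x).symm⟩) ι₀

/-- If the analytic part holds over K and there are no points of order p, then p does not divide the number of points. -/
theorem nt_card (hp : p.Prime) (K : Type) [Field K] [NumberField K] (hN : NT p W K) (hA : AnUnitG p W K) :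
    ¬ p ∣ Nat.card (W⁄K).toAffine.Point := by
  classical
  intro hd
  obtain ⟨⟨L, hL⟩, Λ, -, -, -, h5⟩ := hA
  have h6 := h5 L hL
  by_cases h0 : Nat.card (W⁄K).toAffine.Point = 0
  · obtain ⟨V, hV⟩ := H55P.exists_above_p p hp
    have h7 := h6 V hV
    rw [shaG_lG, h0, Nat.cast_zero, zero_pow two_ne_zero, mul_zero, map_zero] at h7
    exact zero_ne_one h7
  · have hfin : Finite (W⁄K).toAffine.Point := Nat.finite_of_card_ne_zero h0
    have : Fact p.Prime := ⟨hp⟩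
    obtain ⟨P, hP⟩ := exists_prime_addOrderOf_dvd_card' p hd
    have h8 : p • P = 0 := by
      rw [← hP]
      exact addOrderOf_nsmul_eq_zero P
    have h9 := hN P h8
    rw [h9, addOrderOf_zero] at hP
    exact hp.one_lt.ne hP

theorem abs_of (hp : p.Prime) {K : Type} [Field K] [NumberField K] {ι₀ : ℚ →ₐ[ℚ] AlgebraicClosure F} {ιK : K →ₐ[ℚ] AlgebraicClosure F}
    (hres : AnUnitG p W ℚ → BSDPG p W ℚ) (hlq : LUnitG p W ℚ → AnUnitG p W ℚ) (hO : OverB F p W ℚ K ι₀ ιK) (hQ : NT p W ℚ)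
    (hK : NT p W K) : OverA F p W K ιK := by
  have hn := norel_bot (p := p) (W⁄(𝓞 F)) (KG F K ιK) (KG F ℚ ι₀) (kgq ι₀)
  have h1 : AnUnitG p W K → AnUnitG p W ℚ ∧ NoAn p (W⁄(𝓞 F)) (KG F K ιK) := by
    intro h
    have h2 := (H13R.an_iff hp (nt_card hp K hK h)).1 h
    obtain ⟨h3, h4⟩ := (hO.lval hQ).1 h2
    exact ⟨hlq h3, hn.1 h4⟩
  have h2 : AnUnitG p W ℚ ∧ NoAn p (W⁄(𝓞 F)) (KG F K ιK) → BSDPG p W K := fun h => hO.bsd.2 ⟨hres h.1, hn.2 h.2⟩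
  exact ⟨hO.int hQ, ⟨h1, fun h => (h2 h).2⟩, fun h => h2 (h1 h), fun h =>
    ⟨hO.annon hQ fun h3 => h (hn.1 h3), hO.selnon fun h3 => h (hn.1 h3)⟩⟩

/-- No points of order p over ℚ and over K. -/
theorem nt_K (hH : BaseH F (W⁄(𝓞 F)) Om m ψ) (hp : PrimeH F (W⁄(𝓞 F)) p) (K : Type) [Field K] [NumberField K]
    (ιK : K →ₐ[ℚ] AlgebraicClosure F) {L : IntermediateField F (AlgebraicClosure F)} (hL : PExt p ⊥ L) (hKL : KG F K ιK ≤ L) :
    NT p W K := by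
  have hbn : NumberField (⊥ : IntermediateField F (AlgebraicClosure F)) := H16C.FR_numberField _
  have hd : W.Δ ≠ 0 := H35U.disc_neB hH hp
  have hU : UnrP p (⊥ : IntermediateField F (AlgebraicClosure F)) := by
    obtain ⟨L', hLn', ι, hL', hU', hKL', -⟩ := sub_setup (F := F) p hp.prime ℚ F inferInstance 0
      (by rw [pow_zero, Module.finrank_self]) hp.unr
    exact H13R.unr_le hp.prime bot_le hU'
  exact nt_down (F := F) hd K ιK fun T hT hf => H13R.tors_KR hH hp hU hL hKL T hT hf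

theorem lq_aq (hH : BaseH F (W⁄(𝓞 F)) Om m ψ) (hp : PrimeH F (W⁄(𝓞 F)) p) (h : LUnitG p W ℚ) : AnUnitG p W ℚ := by
  have hbn : NumberField (⊥ : IntermediateField F (AlgebraicClosure F)) := H16C.FR_numberField _
  obtain ⟨L, hLn, ι, hL, hU, hKL, -⟩ := sub_setup (F := F) p hp.prime ℚ F inferInstance 0
    (by rw [pow_zero, Module.finrank_self]) hp.unr
  have hLf : FiniteDimensional F L := hL.fin
  have hKf : FiniteDimensional F (KG F ℚ ι) := H55P.finDim_of_le hKL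
  have hKn : NumberField (KG F ℚ ι) := H16C.FR_numberField _
  have hI := (main_F hH hp hL hKL (f2_unrG hp hL hU ℚ ι hKL)).1
  exact (H55K.TQ.an_iff hH hp hL hU ℚ ι hKL).2
    ((H13R.lunit_iff hH hp ℚ (KG F ℚ ι) (lrel hH hp hL ℚ ι hKL) (f2_unr hp hL hU ℚ ι hKL) hI).1 h)

theorem towerO_Q (hH : BaseH F (W⁄(𝓞 F)) Om m ψ) (K : Type) [Field K] [NumberField K] (ι₀ : ℚ →ₐ[ℚ] AlgebraicClosure F)
    (ιK : K →ₐ[ℚ] AlgebraicClosure F) (hT : TowerA F p K ιK) : TowerO F p W ℚ K ι₀ ιK := by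
  have hG := kgq (F := F) ι₀
  obtain ⟨L, hLn, h1, h2, h3⟩ := hT
  refine ⟨?_, ⟨L, hLn, ?_, ?_, h3⟩, ?_⟩
  · rw [hG]
    exact bot_le
  · rw [hG]
    exact h1
  · rw [hG]
    exact h2
  · have hb := H13R.bad_unr hH (KG F ℚ ι₀) fun v _ => ramF_bot _ hG v
    exact fun w hw hg => absurd hg (hb w hw)

/-- The theorem over ℚ, complex multiplication by the integers of F. -/
theorem main_A (hH : BaseH F (W⁄(𝓞 F)) Om m ψ) (hp : PrimeH F (W⁄(𝓞 F)) p) (K : Type) [Field K] [NumberField K]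
    (ιK : K →ₐ[ℚ] AlgebraicClosure F) (hT : TowerA F p K ιK)
    (hM : ∀ ι₀ : ℚ →ₐ[ℚ] AlgebraicClosure F, TowerO F p W ℚ K ι₀ ιK → OverB F p W ℚ K ι₀ ιK) : OverA F p W K ιK := by
  obtain ⟨L, hLn, h1, h2, h3⟩ := hT
  have hQ : NT p W ℚ := by
    refine nt_K hH hp ℚ (Algebra.ofId ℚ (AlgebraicClosure F)) h1 ?_
    rw [kgq]
    exact bot_le
  exact abs_of hp.prime (main_Q hH hp ℚ (H28I.subUF_Q (F := F) hp)).2.1 (lq_aq hH hp)
    (hM (Algebra.ofId ℚ (AlgebraicClosure F)) (towerO_Q hH K _ ιK ⟨L, hLn, h1, h2, h3⟩)) hQ (nt_K hH hp K ιK h1 h3)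

/-- The theorem over ℚ for isogenous curves. -/
theorem isoA {kap : ℤ} {e t u lam : ℚ} (h : TW F W W' Om m ψ kap e t u lam) (hp' : PrimeH F (W'⁄(𝓞 F)) p) (K : Type) [Field K]
    [NumberField K] (ιK : K →ₐ[ℚ] AlgebraicClosure F) (hT : TowerA F p K ιK)
    (hM : ∀ ι₀ : ℚ →ₐ[ℚ] AlgebraicClosure F, TowerO F p W ℚ K ι₀ ιK → OverB F p W ℚ K ι₀ ιK) : OverA F p W' K ιK := by
  classical
  have hp := (tw_prime h).1 hp'
  obtain ⟨L, hLn, h1, h2, h3⟩ := hT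
  obtain ⟨ι₀, hι₀⟩ : ∃ ι₀ : ℚ →ₐ[ℚ] AlgebraicClosure F, ι₀ = Algebra.ofId ℚ (AlgebraicClosure F) := ⟨_, rfl⟩
  have hSQ := i1_same h hp ℚ (lfun_tw h ℚ)
  have hSK := i1_same h hp K (lfun_tw h K)
  have hQ : NT p W ℚ := by
    refine nt_K h.base hp ℚ ι₀ h1 ?_
    rw [kgq]
    exact bot_le
  have hO := over_tw h hp' ℚ K ι₀ ιK (hM ι₀ (towerO_Q h.base K ι₀ ιK ⟨L, hLn, h1, h2, h3⟩))
  refine abs_of hp.prime (H28I.main_iso h hp' ℚ (H28I.subUF_Q (F := F) hp)).2.2.1 (fun hl => ?_) hO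
    ((nt_same hp.prime hp.five hSQ).2 hQ) ((nt_same hp.prime hp.five hSK).2 (nt_K h.base hp K ιK h1 h3))
  have ha := lq_aq h.base hp ((i1_lunit hSQ).1 hl)
  exact ((bsd_tw h hp' ℚ ι₀).2 ((main_Q h.base hp ℚ (H28I.subUF_Q (F := F) hp)).2.1 ha)).2

end H35V
end

-- from Lib.H35V.Link
section

/-! # H35V: the fields of the richness statements -/

open NumberField IsDedekindDomain WeierstrassCurve

namespace H35V

open H55P (IQ embF eF LF Per IsHecke Pt ac Inert Dec Nm UnitP UnrP PExt RamF Ram)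
open H55K H55K.TQ

variable {F : Type} [Field F] [NumberField F] [IQ F]

/-- If K satisfies InPF then it can be embedded such that TowerA and NoAn hold. -/
theorem link (W₀ : WeierstrassCurve (𝓞 F)) {p : ℕ} (hp : p.Prime) (K : Type) [Field K] [NumberField K] (h : InPF W₀ p K) :
    ∃ ιK : K →ₐ[ℚ] AlgebraicClosure F, TowerA F p K ιK ∧ NoAn p W₀ (KG F K ιK) := by
  obtain ⟨Lt, _, _, _, _, hG, ⟨k, hk⟩, hU, hr⟩ := h
  obtain ⟨L, hLn, ι, hL, hU', hKL, hram⟩ := sub_setup (F := F) p hp K Lt hG k hk hU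
  have hLf : FiniteDimensional F L := hL.fin
  have hKf : FiniteDimensional F (KG F K ι) := H55P.finDim_of_le hKL
  have hKn : NumberField (KG F K ι) := H16C.FR_numberField _
  have hbn : NumberField (⊥ : IntermediateField F (AlgebraicClosure F)) := H16C.FR_numberField _
  refine ⟨ι, ⟨L, hLn, hL, fun _ => SSU.g2f_unr hp ⊥ L bot_le hL.norm hU', hKL⟩, fun v hv hΔ hd => ?_⟩
  obtain ⟨w, hw, he⟩ := hram v (ramF_up hKL v hv)
  exact he (hr w v hw hΔ hd)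

end H35V
end

-- from Lib.H35V.MainP
section

/-! # H35V: the theorem for arbitrary ramification -/

open NumberField IsDedekindDomain WeierstrassCurve

namespace H35V

open H55P (IQ embF eF LF Per IsHecke Pt ac Inert Dec Nm UnitP UnrP PExt PsiP)
open H55K H55K.TQ
open H13R (NoRel LUnitG)
open H35U (NT NonSel nt_up nt_of selB_iff spl_of)
open H55G (OkM ok_up)

variable {F : Type} [Field F] [NumberField F] [IQ F] {W : WeierstrassCurve ℤ} {Om : ℂ}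
    {m : Ideal (𝓞 F)} {ψ : Ideal (𝓞 F) →*₀ 𝓞 F} {p : ℕ}

theorem main_P (hH : BaseH F (W⁄(𝓞 F)) Om m ψ) (hp : PrimeH F (W⁄(𝓞 F)) p) (hns : (Ideal.span {(p : 𝓞 F)}).IsPrime → NonSel F W p)
    (M K : Type) [Field M] [NumberField M] [Field K] [NumberField K] (ιM : M →ₐ[ℚ] AlgebraicClosure F) (ιK : K →ₐ[ℚ] AlgebraicClosure F)
    (hT : TowerP F p W M K ιM ιK) : OverP F p W M K ιM ιK := by
  classical
  obtain ⟨hMK, ⟨L, hLn, hL, hKL⟩, hB⟩ := hT
  refine ⟨fun h => (selB_iff hH hp M ιM).2 (H19B.sel_downB hH hp hL hMK hKL ((selB_iff hH hp K ιK).1 h)), fun hN => ?_,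
    fun hN => ?_, nt_of hH hp M ιM⟩
  · by_cases hI : (Ideal.span {(p : 𝓞 F)}).IsPrime
    · exact non_abs hH hp K ιK (hns hI _ _ _ hL hMK hKL hN)
    · exact non_abs hH hp K ιK (ns_all hH hp (spl_of hp hI) _ _ _ hL hMK hKL hN)
  · by_cases hI : (Ideal.span {(p : 𝓞 F)}).IsPrime
    · have hp2 : p ≠ 2 := by
        have := hp.five
        omega
      have hRK := relO_of hH hp K ιK (ok_up hH hp hL hMK hKL hB)
      exact int_ofO hH hp K ιK hRK fun V hV =>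
        SSU.intC hH hp hI hL hMK hKL (nt_up hH hp.prime hp2 hp.unr M ιM hN) hV
    · exact anintB hH hp (spl_of hp hI) M K ιM ιK hL hMK hKL hB hN

end H35V
end

-- from Lib.SSU.MainC
section

/-! # SSU: THE RELATIVE THEOREM FOR p INERT IN F AND TRIVIAL SECOND RAMIFICATION GROUPS ABOVE p -/

open NumberField IsDedekindDomain WeierstrassCurve

namespace SSU

open H55P (IQ embF eF LF Per IsHecke Pt ac Inert Dec Nm UnitP UnrP PExt PsiP)
open H55K H55K.TQ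
open H13R (BadM NoRel LUnitG)
open H35M (LVO LVOi NoTor)
open H35U (NT nt_up nt_of selB_iff bsdB_iff lunit_iffO int_ofO non_ofO)


/-- The conclusions over K and M. NoRel: no prime v of FM, not dividing the discriminant of W, with p | #W(k_v), is ramified in FK. NT: no
point of order p over M. -/
structure OverC (F : Type) [Field F] [NumberField F] (p : ℕ) (W : WeierstrassCurve ℤ) (M K : Type) [Field M] [NumberField M] [Field K]
    [NumberField K] (ιM : M →ₐ[ℚ] AlgebraicClosure F) (ιK : K →ₐ[ℚ] AlgebraicClosure F) : Prop where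
  up : H55P.SelTriv (W⁄M) p → NoRel p (W⁄(𝓞 F)) (KG F M ιM) (KG F K ιK) → H55P.SelTriv (W⁄K) p
  dn : H55P.SelTriv (W⁄K) p → H55P.SelTriv (W⁄M) p
  bsd : BSDPG p W K ↔ BSDPG p W M ∧ NoRel p (W⁄(𝓞 F)) (KG F M ιM) (KG F K ιK)
  int : NT p W M → AnIntG p W K
  lval : NT p W M → (LUnitG p W K ↔ LUnitG p W M ∧ NoRel p (W⁄(𝓞 F)) (KG F M ιM) (KG F K ιK))
  annon : NT p W M → ¬ NoRel p (W⁄(𝓞 F)) (KG F M ιM) (KG F K ιK) → AnNonG p W K
  nt : UnrP p (KG F M ιM) ∨ H55P.SelTriv (W⁄M) p → NT p W M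

variable {F : Type} [Field F] [NumberField F] [IQ F] {W : WeierstrassCurve ℤ} {Om : ℂ}
    {m : Ideal (𝓞 F)} {ψ : Ideal (𝓞 F) →*₀ 𝓞 F} {p : ℕ}


end SSU
end

-- from Lib.SSU.MainCO
section

/-! # SSU: THE RELATIVE THEOREM FOR p INERT IN F AND TRIVIAL SECOND RAMIFICATION GROUPS ABOVE p, under OkM -/

open NumberField IsDedekindDomain WeierstrassCurve

namespace SSU

open H55P (IQ embF eF LF Per IsHecke Pt ac Inert Dec Nm UnitP UnrP PExt PsiP)
open H55K H55K.TQ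
open H13R (NoRel LUnitG)
open H55G (OkM ok_up)
open H35M (LVO LVOi NoTor)
open H35U (NT nt_up nt_of selB_iff bsdB_iff)
open H35V (TowerO RelO relO_of lunit_iffO int_ofO non_ofO)

variable {F : Type} [Field F] [NumberField F] [IQ F] {W : WeierstrassCurve ℤ} {Om : ℂ}
    {m : Ideal (𝓞 F)} {ψ : Ideal (𝓞 F) →*₀ 𝓞 F} {p : ℕ}

/-- THE RELATIVE THEOREM, p inert. -/
theorem main_CO (hH : BaseH F (W⁄(𝓞 F)) Om m ψ) (hp : PrimeH F (W⁄(𝓞 F)) p) (hin : (Ideal.span {(p : 𝓞 F)}).IsPrime) (M K : Type) [Field M] [NumberField M]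
    [Field K] [NumberField K] (ιM : M →ₐ[ℚ] AlgebraicClosure F) (ιK : K →ₐ[ℚ] AlgebraicClosure F)
    (hT : TowerO F p W M K ιM ιK) : OverC F p W M K ιM ιK := by
  classical
  obtain ⟨hMK, ⟨L, hLn, hL, hG0, hKL⟩, hB⟩ := hT
  have hG := hG0 hin
  have hp2 : p ≠ 2 := by
    have := hp.five
    omega
  have hRM : RelO p W Om ψ M ιM := relO_of hH hp M ιM hB
  have hRK : RelO p W Om ψ K ιK := relO_of hH hp K ιK (ok_up hH hp hL hMK hKL hB)
  have hTor : NT p W M → NoTor p (W⁄(𝓞 F)) (KG F M ιM) := fun h => nt_up hH hp.prime hp2 hp.unr M ιM h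
  have hIM : NT p W M → ∀ V : ValuationSubring ℂ, V.valuation (p : ℂ) < 1 → LVOi F V Om (PsiP (KG F M ιM) ψ) := fun h V hV =>
    intC hH hp hin hL le_rfl hL.le (hTor h) hV
  have hIK : NT p W M → ∀ V : ValuationSubring ℂ, V.valuation (p : ℂ) < 1 → LVOi F V Om (PsiP (KG F K ιK) ψ) := fun h V hV =>
    intC hH hp hin hL hMK hKL (hTor h) hV
  have hcr := fun (h : NT p W M) (V : ValuationSubring ℂ) (hV : V.valuation (p : ℂ) < 1) =>
    critC hH hp hin hL hMK hKL (hTor h) hV hG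
  have hlval : NT p W M → (LUnitG p W K ↔ LUnitG p W M ∧ NoRel p (W⁄(𝓞 F)) (KG F M ιM) (KG F K ιK)) := by
    intro h
    rw [lunit_iffO hH hp K ιK hRK (hIK h), lunit_iffO hH hp M ιM hRM (hIM h)]
    obtain ⟨V₀, hV₀⟩ := H55P.exists_above_p p hp.prime
    constructor
    · intro h1
      exact ⟨fun V hV => ((hcr h V hV).1 (h1 V hV)).1, ((hcr h V₀ hV₀).1 (h1 V₀ hV₀)).2⟩
    · rintro ⟨h1, h2⟩ V hV
      exact (hcr h V hV).2 ⟨h1 V hV, h2⟩
  have hup : H55P.SelTriv (W⁄M) p → NoRel p (W⁄(𝓞 F)) (KG F M ιM) (KG F K ιK) → H55P.SelTriv (W⁄K) p := fun h hN =>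
    (selB_iff hH hp K ιK).2 (selAO hH hp hin ⟨W, rfl⟩ hB hL hG hMK hKL hN ((selB_iff hH hp M ιM).1 h)).1
  have hdn : H55P.SelTriv (W⁄K) p → H55P.SelTriv (W⁄M) p := fun h =>
    (selB_iff hH hp M ιM).2 (H19B.sel_downB hH hp hL hMK hKL ((selB_iff hH hp K ιK).1 h))
  refine ⟨hup, hdn, ?_, fun h => int_ofO hH hp K ιK hRK (hIK h), hlval, fun h hN => ?_, nt_of hH hp M ιM⟩
  · rw [bsdB_iff hH hp K ιK, bsdB_iff hH hp M ιM]
    constructor
    · rintro ⟨h1, h2⟩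
      have h3 := hdn h1
      obtain ⟨h4, h5⟩ := (hlval (nt_of hH hp M ιM (Or.inr h3))).1 h2
      exact ⟨⟨h3, h4⟩, h5⟩
    · rintro ⟨⟨h1, h2⟩, h3⟩
      exact ⟨hup h1 h3, (hlval (nt_of hH hp M ιM (Or.inr h1))).2 ⟨h2, h3⟩⟩
  · exact non_ofO hH hp K ιK hRK (hIK h) fun V hV h1 => hN ((hcr h V hV).1 h1.1).2

end SSU
end

-- from Lib.SSU.MainD
section

/-! # SSU: THE RELATIVE THEOREM FOR p INERT, with the converse for Selmer groups (hypothesis hns, proved in SSN), under OkM -/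

open NumberField IsDedekindDomain WeierstrassCurve

namespace SSU

open H55P (IQ embF eF LF Per IsHecke Pt ac Inert Dec Nm UnitP UnrP PExt PsiP)
open H55K H55K.TQ
open H13R (NoRel LUnitG)
open H35U (NT NonSel OverB selB_iff bsdB_iff)

variable {F : Type} [Field F] [NumberField F] [IQ F] {W : WeierstrassCurve ℤ} {Om : ℂ}
    {m : Ideal (𝓞 F)} {ψ : Ideal (𝓞 F) →*₀ 𝓞 F} {p : ℕ}

/-- The theorem for p inert in F. -/
theorem over_inert (hH : BaseH F (W⁄(𝓞 F)) Om m ψ) (hp : PrimeH F (W⁄(𝓞 F)) p) (hin : (Ideal.span {(p : 𝓞 F)}).IsPrime)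
    (hns : NonSel F W p) (M K : Type) [Field M] [NumberField M]
    [Field K] [NumberField K] (ιM : M →ₐ[ℚ] AlgebraicClosure F) (ιK : K →ₐ[ℚ] AlgebraicClosure F)
    (hT : H35V.TowerO F p W M K ιM ιK) : OverB F p W M K ιM ιK := by
  classical
  have hO := main_CO hH hp hin M K ιM ιK hT
  obtain ⟨hMK, ⟨L, hLn, hL, -, hKL⟩, -⟩ := hT
  have hnon : ¬ NoRel p (W⁄(𝓞 F)) (KG F M ιM) (KG F K ιK) → H13Z.SelNonT (W⁄K) p := fun hN =>
    non_abs hH hp K ιK (hns _ _ _ hL hMK hKL hN)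
  exact ⟨⟨fun h => ⟨hO.dn h, by
    by_contra hN
    exact H13Z.not_selTriv _ p (hnon hN) h⟩, fun h => hO.up h.1 h.2⟩, hO.bsd, hnon, hO.int, hO.lval, hO.annon, hO.nt⟩

end SSU
end

-- from Lib.H35V.Main
section

/-! # H35V: THE RELATIVE THEOREM -/

open NumberField IsDedekindDomain WeierstrassCurve

namespace H35V

open H55P (IQ embF eF LF Per IsHecke Pt ac Inert Dec Nm UnitP UnrP PExt)
open H55K H55K.TQ
open H28I (TW tw_prime)
open H35U (OverB NonSel spl_of)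

variable {F : Type} [Field F] [NumberField F] [IQ F] {W W' : WeierstrassCurve ℤ} {Om : ℂ}
    {m : Ideal (𝓞 F)} {ψ : Ideal (𝓞 F) →*₀ 𝓞 F} {p : ℕ}

/-- The converse for Selmer groups, p inert. -/
theorem ns_in (hH : BaseH F (W⁄(𝓞 F)) Om m ψ) (hp : PrimeH F (W⁄(𝓞 F)) p) (hin : (Ideal.span {(p : 𝓞 F)}).IsPrime) : NonSel F W p := by
  intro M K L _ _ hL hMK hKL hN
  exact SSN.nonsel_in hH hp hin hL hMK hKL hN

/-- THE RELATIVE THEOREM. -/
theorem main_O (hH : BaseH F (W⁄(𝓞 F)) Om m ψ) (hp : PrimeH F (W⁄(𝓞 F)) p) (M K : Type) [Field M]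
    [NumberField M] [Field K] [NumberField K] (ιM : M →ₐ[ℚ] AlgebraicClosure F) (ιK : K →ₐ[ℚ] AlgebraicClosure F)
    (hT : TowerO F p W M K ιM ιK) : OverB F p W M K ιM ιK := by
  classical
  by_cases hI : (Ideal.span {(p : 𝓞 F)}).IsPrime
  · exact SSU.over_inert hH hp hI (ns_in hH hp hI) M K ιM ιK hT
  · obtain ⟨hMK, ⟨L, hLn, hL, -, hKL⟩, hB⟩ := hT
    exact over_splitO hH hp (spl_of hp hI) M K ιM ιK hL hMK hKL hB

theorem main_PP (hH : BaseH F (W⁄(𝓞 F)) Om m ψ) (hp : PrimeH F (W⁄(𝓞 F)) p) (M K : Type) [Field M]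
    [NumberField M] [Field K] [NumberField K] (ιM : M →ₐ[ℚ] AlgebraicClosure F) (ιK : K →ₐ[ℚ] AlgebraicClosure F)
    (hT : TowerP F p W M K ιM ιK) : OverP F p W M K ιM ιK :=
  main_P hH hp (ns_in hH hp) M K ιM ιK hT

theorem main_AA (hH : BaseH F (W⁄(𝓞 F)) Om m ψ) (hp : PrimeH F (W⁄(𝓞 F)) p) (K : Type) [Field K] [NumberField K]
    (ιK : K →ₐ[ℚ] AlgebraicClosure F) (hT : TowerA F p K ιK) : OverA F p W K ιK :=
  main_A hH hp K ιK hT fun ι₀ hO => main_O hH hp ℚ K ι₀ ιK hO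

variable {kap : ℤ} {e t u lam : ℚ}

theorem iso_O (h : TW F W W' Om m ψ kap e t u lam) (hp' : PrimeH F (W'⁄(𝓞 F)) p) (M K : Type) [Field M]
    [NumberField M] [Field K] [NumberField K] (ιM : M →ₐ[ℚ] AlgebraicClosure F) (ιK : K →ₐ[ℚ] AlgebraicClosure F)
    (hT : TowerO F p W' M K ιM ιK) : OverB F p W' M K ιM ιK :=
  over_tw h hp' M K ιM ιK (main_O h.base ((tw_prime h).1 hp') M K ιM ιK (towerO_tw h M K ιM ιK hT))

theorem iso_PP (h : TW F W W' Om m ψ kap e t u lam) (hp' : PrimeH F (W'⁄(𝓞 F)) p) (M K : Type) [Field M]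
    [NumberField M] [Field K] [NumberField K] (ιM : M →ₐ[ℚ] AlgebraicClosure F) (ιK : K →ₐ[ℚ] AlgebraicClosure F)
    (hT : TowerP F p W' M K ιM ιK) : OverP F p W' M K ιM ιK :=
  overP_tw h hp' M K ιM ιK (main_PP h.base ((tw_prime h).1 hp') M K ιM ιK (towerP_tw h M K ιM ιK hT))

theorem iso_AA (h : TW F W W' Om m ψ kap e t u lam) (hp' : PrimeH F (W'⁄(𝓞 F)) p) (K : Type) [Field K] [NumberField K]
    (ιK : K →ₐ[ℚ] AlgebraicClosure F) (hT : TowerA F p K ιK) : OverA F p W' K ιK :=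
  isoA h hp' K ιK hT fun ι₀ hO => main_O h.base ((tw_prime h).1 hp') ℚ K ι₀ ιK hO

end H35V
end
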